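import Pool.Statements.S00086
import Pool.Agent.H33.Prolong

set_option autoImplicit false
open Pool Pool.MP_26e61c_ag

namespace Pool.Agent.S00086

theorem result :
    ¬ (∀ (G : Type) [AddCommGroup G] [Fintype G] (n : ℕ), 4 ≤ n →
      ∀ f : MvPolynomial {g : Fin n → G // ∑ i, g i = 0} ℂ,
        f ∈ RingHom.ker (MvPolynomial.aeval (R := ℂ)
          (fun g : {g : Fin n → G // ∑ i, g i = 0} =>
            (∏ i, MvPolynomial.X (some i, g.1 i) :
              MvPolynomial (Option (Fin n) × G) ℂ))) →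
        ∃ k : ℕ, ∀ h ∈ (Ideal.span (Set.range
            (MvPolynomial.X : {g : Fin n → G // ∑ i, g i = 0} →
              MvPolynomial {g : Fin n → G // ∑ i, g i = 0} ℂ))) ^ k,
          h * f ∈ ⨆ A : {A : Finset (Fin n) // 2 ≤ A.card ∧ A.card + 2 ≤ n},
            RingHom.ker (MvPolynomial.aeval (R := ℂ)
              (fun g : {g : Fin n → G // ∑ i, g i = 0} =>
                (MvPolynomial.X (none, ∑ i ∈ A.1, g.1 i) *
                  ∏ i, MvPolynomial.X (some i, g.1 i) :
                  MvPolynomial (Option (Fin n) × G) ℂ)))) := by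
  intro H
  obtain ⟨k, hk⟩ := H (ZMod 12) 4 le_rfl Pool.Agent.H33.Prolong.ff Pool.Agent.H33.Prolong.ff_mem
  have h1 := hk (MvPolynomial.X Pool.Agent.H33.Prolong.e0 ^ k)
    (Ideal.pow_mem_pow (Ideal.subset_span (Set.mem_range_self _)) k)
  have h2 : MvPolynomial.X Pool.Agent.H33.Prolong.e0 ^ k * Pool.Agent.H33.Prolong.ff ∈
      RingHom.ker (MvPolynomial.eval Pool.Agent.H33.Prolong.pp) := by
    refine (?_ : _ ≤ RingHom.ker (MvPolynomial.eval Pool.Agent.H33.Prolong.pp)) h1
    refine iSup_le fun A q hq => ?_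
    exact Pool.Agent.H33.Prolong.vanish A.1 (by have := A.2; omega) q hq
  rw [RingHom.mem_ker, map_mul, map_pow, MvPolynomial.eval_X, Pool.Agent.H33.Prolong.ev_ff,
    Pool.Agent.H33.Prolong.pp_e0] at h2
  simp at h2

end Pool.Agent.S00086
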