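import Pool.Statements.S00164
import Pool.Agent.H33.ProbED

set_option autoImplicit false
open Pool Pool.MP_450528_ag

namespace Pool.Agent.S00164

abbrev mm : Fin 2 → ℕ := ![2, 26]
abbrev Ix : Type := (k : Fin 2) → Fin (mm k)

def ix (i : Fin 2) (j : Fin 26) : Ix := (piFinTwoEquiv fun k => Fin (mm k)).symm (i, j)

lemma ix_surj (I : Ix) : ∃ i j, I = ix i j :=
  ⟨I 0, I 1, ((piFinTwoEquiv fun k => Fin (mm k)).symm_apply_apply I).symm⟩

lemma sum_ix {M : Type} [AddCommMonoid M] (f : Ix → M) :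
    ∑ I, f I = ∑ j, f (ix 0 j) + ∑ j, f (ix 1 j) := by
  rw [← (piFinTwoEquiv fun k => Fin (mm k)).symm.sum_comp, Fintype.sum_prod_type]
  exact Fin.sum_univ_two (fun i : Fin 2 => ∑ j : Fin 26, f (ix i j))

lemma tang (a b : (k : Fin 2) → Fin (mm k) → ℂ) (i : Fin 2) (j : Fin 26) :
    (∑ k : Fin 2, b k (ix i j k) * ∏ l ∈ Finset.univ.erase k, a l (ix i j l))
      = b 0 i * a 1 j + b 1 j * a 0 i := by
  have e0 : (Finset.univ : Finset (Fin 2)).erase 0 = {1} := by decide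
  have e1 : (Finset.univ : Finset (Fin 2)).erase 1 = {0} := by decide
  rw [Fin.sum_univ_two, e0, e1, Finset.prod_singleton, Finset.prod_singleton]
  rfl

def pr (u : Fin 2 → ℂ) (c : Fin 26 → ℂ) : (k : Fin 2) → Fin (mm k) → ℂ :=
  (piFinTwoEquiv fun k => Fin (mm k) → ℂ).symm (u, c)

def Cr (T : Ix → ℂ) : Set (Ix → ℂ) := {x | (∑ I : Ix, x I) = 1 ∧
  ∃ a : (k : Fin 2) → Fin (mm k) → ℂ, (∀ I : Ix, x I = ∏ k : Fin 2, a k (I k)) ∧
    ∀ b : (k : Fin 2) → Fin (mm k) → ℂ,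
      (∑ I : Ix, (∑ k : Fin 2, b k (I k) * ∏ j ∈ Finset.univ.erase k, a j (I j))) = 0 →
      (∑ I : Ix, (x I - T I) *
        (∑ k : Fin 2, b k (I k) * ∏ j ∈ Finset.univ.erase k, a j (I j))) = 0}

open Pool.Agent.H33.ProbED

lemma mem_Cr (T x : Ix → ℂ) : x ∈ Cr T ↔
    CritP (fun j => T (ix 0 j)) (fun j => T (ix 1 j)) (fun j => x (ix 0 j))
      (fun j => x (ix 1 j)) := by
  simp only [Cr, CritP, Set.mem_ofPred_eq, sum_ix, tang]
  refine and_congr_right fun _ => ⟨?_, ?_⟩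
  · rintro ⟨a, ha, hb⟩
    refine ⟨a 0 (0 : Fin 2), a 0 (1 : Fin 2), a 1, fun j => ?_, fun j => ?_, fun b0 b1 e => ?_⟩
    · rw [ha, Fin.prod_univ_two]; rfl
    · rw [ha, Fin.prod_univ_two]; rfl
    · exact hb (pr ![b0, b1] e)
  · rintro ⟨a0, a1, c, h0, h1, hb⟩
    refine ⟨pr ![a0, a1] c, fun I => ?_, fun b => hb (b 0 (0 : Fin 2)) (b 0 (1 : Fin 2)) (b 1)⟩
    obtain ⟨i, j, rfl⟩ := ix_surj I
    rw [Fin.prod_univ_two]
    fin_cases i
    · exact h0 j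
    · exact h1 j

noncomputable def pt (T : Ix → ℂ) (z : ℂ) : Ix → ℂ := fun I =>
  (![z, 1 - z] : Fin 2 → ℂ) (I 0) * qq (fun j => T (ix 0 j)) (fun j => T (ix 1 j)) z (I 1)

lemma Cr_eq (T : Ix → ℂ) (h : res (fun j => T (ix 0 j)) (fun j => T (ix 1 j)) ≠ 0) :
    Cr T = pt T '' {z | (hp (fun j => T (ix 0 j)) (fun j => T (ix 1 j))).eval z = 0} := by
  ext x
  rw [mem_Cr, crit_iff _ _ _ _ (hs_of_res _ _ h)]
  refine exists_congr fun z => and_congr_right fun _ => ⟨?_, ?_⟩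
  · rintro ⟨h0, h1⟩
    funext I
    obtain ⟨i, j, rfl⟩ := ix_surj I
    fin_cases i
    · exact (h0 j).symm
    · exact (h1 j).symm
  · rintro rfl
    exact ⟨fun _ => rfl, fun _ => rfl⟩

lemma pt_inj (T : Ix → ℂ) (h : res (fun j => T (ix 0 j)) (fun j => T (ix 1 j)) ≠ 0) :
    Set.InjOn (pt T) {z | (hp (fun j => T (ix 0 j)) (fun j => T (ix 1 j))).eval z = 0} := by
  have key : ∀ z, (hp (fun j => T (ix 0 j)) (fun j => T (ix 1 j))).eval z = 0 →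
      ∑ j, pt T z (ix 0 j) = z := by
    intro z hz
    have : ∀ j, pt T z (ix 0 j) = z * qq (fun j => T (ix 0 j)) (fun j => T (ix 1 j)) z j :=
      fun _ => rfl
    simp only [this, ← Finset.mul_sum, sum_qq _ _ z (hs_of_res _ _ h z hz), mul_one]
  intro z hz w hw e
  rw [← key z hz, e, key w hw]

lemma Cr_card (T : Ix → ℂ) (h : res (fun j => T (ix 0 j)) (fun j => T (ix 1 j)) ≠ 0) :
    (Cr T).Finite ∧ (Cr T).ncard = 5 := by
  rw [Cr_eq T h]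
  exact ⟨(card_roots _ _ h).1.image _, by
    rw [(pt_inj T h).ncard_image, (card_roots _ _ h).2]⟩

noncomputable def TT : Ix → ℝ := fun I => if I = ix 1 0 then 1 else 0

lemma TT0 : (fun j => ((TT (ix 0 j) : ℝ) : ℂ)) = fun _ => 0 := by
  funext j
  have : ix 0 j ≠ ix 1 0 := fun h => absurd (congrFun h 0) (by decide : ¬ ((0 : Fin 2) = 1))
  simp [TT, this]

lemma TT1 : (fun j => ((TT (ix 1 j) : ℝ) : ℂ)) = T1 := by
  funext j
  by_cases hj : j = 0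
  · simp [TT, T1, hj]
  · have : ix 1 j ≠ ix 1 0 := fun h => hj (congrFun h 1)
    simp [TT, T1, this, hj]

lemma hres : res (fun j => ((TT (ix 0 j) : ℝ) : ℂ)) (fun j => ((TT (ix 1 j) : ℝ) : ℂ)) ≠ 0 := by
  rw [TT0, TT1]; exact res_T

noncomputable def PP : MvPolynomial Ix ℂ :=
  res (fun j => (MvPolynomial.X (ix 0 j) : MvPolynomial Ix ℂ)) (fun j => MvPolynomial.X (ix 1 j))

lemma hev (T : Ix → ℂ) : MvPolynomial.eval T PP
      = res (fun j => T (ix 0 j)) (fun j => T (ix 1 j)) := by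
  rw [PP, res_map]; simp only [MvPolynomial.eval_X]

lemma gen : ∃ P : MvPolynomial Ix ℂ, P ≠ 0 ∧ ∀ T : Ix → ℂ, MvPolynomial.eval T P ≠ 0 →
    (Cr T).Finite ∧ (Cr T).ncard = 5 := by
  refine ⟨PP, fun h => hres ?_, fun T hT => Cr_card T ?_⟩
  · rw [← hev (fun I => (TT I : ℂ)), h, map_zero]
  · rwa [hev] at hT

lemma TT_nonneg (I : Ix) : 0 ≤ TT I := by
  unfold TT; split_ifs <;> norm_num

lemma TT_sum : ∑ I, TT I = 1 := by
  simp only [TT, Finset.sum_ite_eq', Finset.mem_univ, if_true]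

lemma hroot (r : ℝ) (hr : 8 * r ^ 5 - 16 * r ^ 4 + 16 * r ^ 3 - 33 * r ^ 2 + 27 * r = 0) :
      (r : ℂ) ∈ {z | (hp (fun j => ((TT (ix 0 j) : ℝ) : ℂ))
        (fun j => ((TT (ix 1 j) : ℝ) : ℂ))).eval z = 0} := by
  rw [Set.mem_ofPred_eq, TT0, TT1, hp_T]
  simp only [Polynomial.eval_add, Polynomial.eval_sub, Polynomial.eval_mul, Polynomial.eval_pow,
    Polynomial.eval_X, Polynomial.eval_ofNat]
  have := congrArg (fun t : ℝ => (t : ℂ)) hr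
  simpa using this

lemma pt_real (r : ℝ) (I : Ix) : (pt (fun I => (TT I : ℂ)) r I).im = 0 := by
  obtain ⟨i, j, rfl⟩ := ix_surj I
  have e2 : pt (fun I => (TT I : ℂ)) r (ix i j) = (![(r:ℂ), 1 - r] : Fin 2 → ℂ) i *
    qq (fun j => (TT (ix 0 j) : ℂ)) (fun j => (TT (ix 1 j) : ℂ)) r j := rfl
  have e3 : qq (fun j => (TT (ix 0 j) : ℂ)) (fun j => (TT (ix 1 j) : ℂ)) r j =
      (((26 * (TT (ix 1 j) + r * (TT (ix 0 j) - TT (ix 1 j))) + (2 * r ^ 2 - 2 * r + 1)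
      - (∑ j, TT (ix 1 j) + r * ∑ j, (TT (ix 0 j) - TT (ix 1 j))))
        / (26 * (2 * r ^ 2 - 2 * r + 1)) : ℝ) : ℂ) := by
    rw [qq, ww]; push_cast; rfl
  have e4 : (![(r:ℂ), 1 - r] : Fin 2 → ℂ) i = (((![r, 1 - r] : Fin 2 → ℝ) i : ℝ) : ℂ) := by
    fin_cases i <;> simp
  rw [e2, e3, e4, ← Complex.ofReal_mul, Complex.ofReal_im]

lemma two_real : {x : Ix → ℂ | x ∈ Cr (fun I => (TT I : ℂ)) ∧ ∀ I, (x I).im = 0}.ncard ≠ 1 := by
  intro h1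
  obtain ⟨y, hy⟩ := Set.ncard_eq_one.1 h1
  have hmem : ∀ r : ℝ, 8 * r ^ 5 - 16 * r ^ 4 + 16 * r ^ 3 - 33 * r ^ 2 + 27 * r = 0 →
      pt (fun I => (TT I : ℂ)) r = y := by
    intro r hr
    rw [← Set.mem_singleton_iff, ← hy]
    refine ⟨?_, pt_real r⟩
    rw [Cr_eq (fun I => (TT I : ℂ)) hres]; exact ⟨r, hroot r hr, rfl⟩
  have h2 := pt_inj (fun I => (TT I : ℂ)) hres (hroot 0 (by norm_num)) (hroot (3/2) (by norm_num))
    ((hmem 0 (by norm_num)).trans (hmem (3/2) (by norm_num)).symm)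
  have h3 : (0:ℝ) = 3/2 := Complex.ofReal_injective h2
  norm_num at h3

lemma mm_ge (k : Fin 2) : 2 ≤ mm k := by
  fin_cases k <;> simp [mm]

theorem result :
    ¬ (∀ (d : ℕ) (m : Fin d → ℕ), 2 ≤ d → (∀ k, 2 ≤ m k) →
  ∀ (Crit : (((k : Fin d) → Fin (m k)) → ℂ) → Set (((k : Fin d) → Fin (m k)) → ℂ)),
  (∀ (T x : ((k : Fin d) → Fin (m k)) → ℂ), x ∈ Crit T ↔
     ((∑ I : ((k : Fin d) → Fin (m k)), x I) = 1 ∧ ∃ a : (k : Fin d) → Fin (m k) → ℂ,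
        (∀ I : ((k : Fin d) → Fin (m k)), x I = ∏ k : Fin d, a k (I k)) ∧
        ∀ b : (k : Fin d) → Fin (m k) → ℂ,
          (∑ I : ((k : Fin d) → Fin (m k)),
              (∑ k : Fin d, b k (I k) * ∏ j ∈ Finset.univ.erase k, a j (I j))) = 0 →
          (∑ I : ((k : Fin d) → Fin (m k)), (x I - T I) *
              (∑ k : Fin d, b k (I k) * ∏ j ∈ Finset.univ.erase k, a j (I j))) = 0)) →
  ∀ N : ℕ,
  (∃ P : MvPolynomial ((k : Fin d) → Fin (m k)) ℂ, P ≠ 0 ∧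
     ∀ T : ((k : Fin d) → Fin (m k)) → ℂ, MvPolynomial.eval T P ≠ 0 →
       (Crit T).Finite ∧ (Crit T).ncard = N) →
  ∀ T : ((k : Fin d) → Fin (m k)) → ℝ, (∀ I : ((k : Fin d) → Fin (m k)), 0 ≤ T I) →
    (∑ I : ((k : Fin d) → Fin (m k)), T I) = 1 →
    (Crit (fun I : ((k : Fin d) → Fin (m k)) => (T I : ℂ))).Finite →
    (Crit (fun I : ((k : Fin d) → Fin (m k)) => (T I : ℂ))).ncard = N →
    {x : ((k : Fin d) → Fin (m k)) → ℂ |
        x ∈ Crit (fun I : ((k : Fin d) → Fin (m k)) => (T I : ℂ)) ∧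
        ∀ I : ((k : Fin d) → Fin (m k)), (x I).im = 0}.ncard = 1) := by
  intro H
  exact two_real (H 2 mm le_rfl mm_ge Cr (fun _ _ => Iff.rfl) 5 gen TT TT_nonneg TT_sum
    (Cr_card (fun I => (TT I : ℂ)) hres).1 (Cr_card (fun I => (TT I : ℂ)) hres).2)

end Pool.Agent.S00164
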