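import Pool.Statements.S00170
import Pool.Agent.H33.Dan5

set_option autoImplicit false
open Pool Pool.MP_4658d5_ag

namespace Pool.Agent.S00170

open MvPolynomial Pool.Agent.H33.Dan in
lemma nst (c : ℂ) (q : Pol) (h : ∀ x : Fin 3 → ℂ, eval x P = c → eval x q = 0) : mk c q = 0 := by
  have hp : (Ideal.span {P - C c}).IsPrime :=
    (Ideal.span_singleton_prime (prime_P c).ne_zero).2 (prime_P c)
  have h1 : q ∈ vanishingIdeal ℂ (zeroLocus ℂ (Ideal.span {P - C c})) := by
    rw [mem_vanishingIdeal_iff]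
    intro x hx
    have := (mem_zeroLocus_iff.1 hx) _ (Ideal.mem_span_singleton_self _)
    rw [map_sub, aeval_C, sub_eq_zero] at this
    exact h x this
  rw [vanishingIdeal_zeroLocus_eq_radical, hp.radical] at h1
  exact Ideal.Quotient.eq_zero_iff_mem.2 h1

open MvPolynomial Pool.Agent.H33.Dan in
lemma ev (x : Fin 3 → ℂ) (f : Fin 3 → Pol) (q : Pol) :
    eval x (aeval f q) = eval (fun i => eval x (f i)) q := by
  induction q using MvPolynomial.induction_on with
  | C c => simp
  | add p q hp hq => simp only [map_add, hp, hq]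
  | mul_X p k hp => simp only [map_mul, hp, aeval_X, eval_X]

open MvPolynomial Pool.Agent.H33.Dan in
noncomputable def pull (c d : ℂ) (f : Fin 3 → Pol)
    (h : ∀ x : Fin 3 → ℂ, eval x P = c → eval (fun i => eval x (f i)) P = d) : R d →ₐ[ℂ] R c :=
  Ideal.Quotient.liftₐ _ ((mk c).comp (aeval f)) (by
    intro a ha
    obtain ⟨b, rfl⟩ := Ideal.mem_span_singleton.1 ha
    have : mk c (aeval f (P - C d)) = 0 := by
      apply nst
      intro x hx
      rw [ev, map_sub, h x hx, eval_C, sub_self]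
    rw [AlgHom.comp_apply, map_mul, map_mul, this, zero_mul])

open MvPolynomial Pool.Agent.H33.Dan in
lemma pull_mk (c d : ℂ) (f : Fin 3 → Pol)
    (h : ∀ x : Fin 3 → ℂ, eval x P = c → eval (fun i => eval x (f i)) P = d) (q : Pol) :
    pull c d f h (mk d q) = mk c (aeval f q) := rfl

open MvPolynomial Pool.Agent.H33.Dan in
lemma pull_pull (c d : ℂ) (f g : Fin 3 → Pol)
    (h : ∀ x : Fin 3 → ℂ, eval x P = c → eval (fun i => eval x (f i)) P = d)
    (h' : ∀ x : Fin 3 → ℂ, eval x P = d → eval (fun i => eval x (g i)) P = c)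
    (k : ∀ x : Fin 3 → ℂ, eval x P = c →
      (fun j => eval (fun i => eval x (f i)) (g j)) = x) :
    (pull c d f h).comp (pull d c g h') = AlgHom.id ℂ _ := by
  apply AlgHom.ext
  intro r
  obtain ⟨q, rfl⟩ := mk_surj c r
  rw [AlgHom.comp_apply, pull_mk, pull_mk, AlgHom.id_apply, ← sub_eq_zero, ← map_sub]
  apply nst
  intro x hx
  rw [map_sub, ev, ev, k x hx, sub_self]

theorem result :
    ¬ (∀ (n : ℕ) (p : MvPolynomial (Fin n) ℂ),
      ContractibleSpace {x : Fin n → ℂ // MvPolynomial.eval x p = 0} →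
      ∃ S : Finset ℂ, ∀ c d : ℂ, c ∉ S → d ∉ S →
        ∃ f g : Fin n → MvPolynomial (Fin n) ℂ,
          (∀ x : Fin n → ℂ, MvPolynomial.eval x p = c →
              MvPolynomial.eval (fun i => MvPolynomial.eval x (f i)) p = d ∧
              (fun j => MvPolynomial.eval (fun i => MvPolynomial.eval x (f i)) (g j)) = x) ∧
          (∀ y : Fin n → ℂ, MvPolynomial.eval y p = d →
              MvPolynomial.eval (fun i => MvPolynomial.eval y (g i)) p = c ∧
              (fun j => MvPolynomial.eval (fun i => MvPolynomial.eval y (g i)) (f j)) = y)) := by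
  intro h
  obtain ⟨S, hS⟩ := h 3 _ Pool.Agent.H33.Dan.contr_P
  obtain ⟨c, hc⟩ := Infinite.exists_notMem_finset S
  obtain ⟨d, hd⟩ := Infinite.exists_notMem_finset (insert c S)
  rw [Finset.mem_insert, not_or] at hd
  obtain ⟨f, g, h1, h2⟩ := hS c d hc hd.2
  exact hd.1 (Pool.Agent.H33.Dan.rigid (AlgEquiv.ofAlgHom
    (pull c d f fun x hx => (h1 x hx).1) (pull d c g fun x hx => (h2 x hx).1)
    (pull_pull c d f g _ _ fun x hx => (h1 x hx).2)
    (pull_pull d c g f _ _ fun x hx => (h2 x hx).2)))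

end Pool.Agent.S00170
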