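import Pool.Statements.S00296
import Pool.Agent.H33.Dan5

set_option autoImplicit false
open Pool Pool.MP_89b417_ag

namespace Pool.Agent.S00296

theorem result :
    ¬ (∀ (n : ℕ) (p : MvPolynomial (Fin n) ℂ), Irreducible p →
      ContractibleSpace ↥({x : Fin n → ℂ | MvPolynomial.eval x p = 0} : Set (Fin n → ℂ)) →
      ∃ S : Finset ℂ, ∀ c d : ℂ, c ∉ S → d ∉ S →
        Nonempty ((MvPolynomial (Fin n) ℂ ⧸ Ideal.span {p - MvPolynomial.C c}) ≃ₐ[ℂ]
          (MvPolynomial (Fin n) ℂ ⧸ Ideal.span {p - MvPolynomial.C d}))) := by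
  intro h
  obtain ⟨S, hS⟩ := h 3 _ Pool.Agent.H33.Dan.irred_P Pool.Agent.H33.Dan.contr_P
  obtain ⟨c, hc⟩ := Infinite.exists_notMem_finset S
  obtain ⟨d, hd⟩ := Infinite.exists_notMem_finset (insert c S)
  rw [Finset.mem_insert, not_or] at hd
  obtain ⟨φ⟩ := hS c d hc hd.2
  exact hd.1 (Pool.Agent.H33.Dan.rigid φ).symm

end Pool.Agent.S00296
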