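import Pool.Statements.S00308
import Pool.Agent.H33.Tripod

set_option autoImplicit false
open Pool Pool.MP_8fff0f_ag

namespace Pool.Agent.S00308

theorem result :
    ¬ (∀ (G : Type) [AddCommGroup G] [Fintype G],
      ∃ S : Set (MvPolynomial {g : Fin 3 → G // ∑ i, g i = 0} ℂ),
        (∀ p ∈ S, p.totalDegree ≤ Fintype.card G) ∧
        Ideal.span S =
          RingHom.ker
            (MvPolynomial.aeval
              (fun g : {g : Fin 3 → G // ∑ i, g i = 0} =>
                ∏ i : Fin 3, (MvPolynomial.X (i, g.1 i) : MvPolynomial (Fin 3 × G) ℂ)))) := by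
  intro H
  obtain ⟨S, hS, hspan⟩ := H (Pool.Agent.H33.Tripod.GG 9)
  have hg : Pool.Agent.H33.Tripod.Good (K := 9)
      (fun g : {g : Fin 3 → Pool.Agent.H33.Tripod.GG 9 // ∑ i, g i = 0} => g.1)
      (fun a c => ⟨![a, -a - c, c], by rw [Fin.sum_univ_three]; exact (by abel : a + (-a - c) + c = 0)⟩) := by
    refine ⟨fun f => ?_, fun f g h0 h2 => ?_, fun _ _ => rfl, fun _ _ => rfl⟩
    · rw [← Fin.sum_univ_three]; exact f.2
    · have hf := f.2
      have hg := g.2
      rw [Fin.sum_univ_three] at hf hg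
      apply Subtype.ext
      funext i
      fin_cases i
      · exact h0
      · show f.1 1 = g.1 1
        linear_combination hf - hg - h0 - h2
      · exact h2
  obtain ⟨p, -, ⟨f, hf, hfp⟩, hp⟩ := Pool.Agent.H33.Tripod.main hg
  simp only [Fin.prod_univ_three] at hspan
  have h1 : Ideal.span S ≤ RingHom.ker (MvPolynomial.eval p) := by
    rw [Ideal.span_le]
    intro q hq
    have h2 : q ∈ Ideal.span S := Ideal.subset_span hq
    rw [hspan] at h2
    refine hp q h2 (lt_of_le_of_lt (hS q hq) ?_)
    rw [Pool.Agent.H33.Tripod.card_GG]; norm_num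
  apply hfp
  apply h1
  rw [hspan]
  exact hf

end Pool.Agent.S00308
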