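import Pool.Statements.S00406

set_option autoImplicit false
open Pool Pool.MP_b9ea36_ag

namespace Pool.Agent.S00406

open MvPolynomial in
noncomputable def d3 (a b c : Fin 3 → MvPolynomial (Fin 5 × Fin 5) ℝ) :
    MvPolynomial (Fin 5 × Fin 5) ℝ :=
  a 0 * (b 1 * c 2 - b 2 * c 1) - a 1 * (b 0 * c 2 - b 2 * c 0) + a 2 * (b 0 * c 1 - b 1 * c 0)

open MvPolynomial in
noncomputable def cp : Fin 3 → MvPolynomial (Fin 5 × Fin 5) ℝ :=
  ![X (0,0) * X (3,2), X (1,0) * X (3,3), X (2,0) * X (3,4)]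
open MvPolynomial in
noncomputable def cq : Fin 3 → MvPolynomial (Fin 5 × Fin 5) ℝ :=
  ![X (0,0) * X (4,2), X (1,0) * X (4,3), X (2,0) * X (4,4)]
open MvPolynomial in
noncomputable def cr : Fin 3 → MvPolynomial (Fin 5 × Fin 5) ℝ :=
  ![X (0,1) * X (3,2), X (1,1) * X (3,3), X (2,1) * X (3,4)]
open MvPolynomial in
noncomputable def cd : Fin 3 → MvPolynomial (Fin 5 × Fin 5) ℝ :=
  ![X (0,2), X (1,3), X (2,4)]

noncomputable def QQ : MvPolynomial (Fin 5 × Fin 5) ℝ :=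
  d3 cp cq cr * d3 cp cd cr * d3 cp cq cd

def A1 : Matrix (Fin 5) (Fin 5) ℝ :=
  !![1,0,1,0,0; 1,0,0,1,0; 0,1,0,0,1; 0,0,1,0,1; 0,0,0,1,0]

lemma QQ_ne : QQ ≠ 0 := by
  intro h
  have := congrArg (MvPolynomial.eval (fun p : Fin 5 × Fin 5 => A1 p.1 p.2)) h
  simp [QQ, d3, cp, cq, cr, cd, A1] at this

lemma dense_ne {σ : Type} [Fintype σ] (Q : MvPolynomial σ ℝ) (hQ : Q ≠ 0) (U : Set (σ → ℝ))
    (hU : IsOpen U) (hne : U.Nonempty) : ∃ x ∈ U, MvPolynomial.eval x Q ≠ 0 := by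
  by_contra hc
  push Not at hc
  obtain ⟨x0, hx0⟩ := hne
  obtain ⟨ε, hε, hb⟩ := Metric.isOpen_iff.1 hU x0 hx0
  apply hQ
  refine MvPolynomial.funext_set (fun i => Set.Ioo (x0 i - ε) (x0 i + ε))
    (fun i => Set.Ioo_infinite (by linarith)) fun x hx => ?_
  rw [map_zero]
  apply hc
  apply hb
  rw [Metric.mem_ball, dist_pi_lt_iff hε]
  intro i
  have := hx i (Set.mem_univ i)
  rw [Real.dist_eq, abs_lt]
  constructor <;> linarith [this.1, this.2]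

def EE : Finset (Fin 5 × Fin 5) :=
  {(0,0),(0,1),(0,2),(1,0),(1,1),(1,3),(2,0),(2,1),(2,4),(3,2),(3,3),(3,4),(4,2),(4,3),(4,4)}

theorem result :
    ¬ (∀ (m n : ℕ) (E : Finset (Fin m × Fin n)),
      (∃ (R : Finset (Fin m)) (C : Finset (Fin n)),
          (R.Nonempty ∨ C.Nonempty) ∧
          (∀ i ∈ R, 3 ≤ (C.filter (fun j => (i, j) ∈ E)).card) ∧
          (∀ j ∈ C, 3 ≤ (R.filter (fun i => (i, j) ∈ E)).card)) →
      ∃ U : Set (Matrix (Fin m) (Fin n) ℝ),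
        IsOpen U ∧ U.Nonempty ∧
        ∀ A ∈ U, ∀ B : Matrix (Fin m) (Fin n) ℝ,
          (∀ p ∈ E, B p.1 p.2 = A p.1 p.2) → 3 ≤ B.rank) := by
  intro H
  obtain ⟨U, hU, hne, hB⟩ := H 5 5 EE ⟨Finset.univ, Finset.univ, Or.inl Finset.univ_nonempty,
    by decide, by decide⟩
  let φ : (Fin 5 × Fin 5 → ℝ) → Matrix (Fin 5) (Fin 5) ℝ := fun x => Matrix.of fun i j => x (i, j)
  have hφ : Continuous φ := continuous_matrix fun i j => continuous_apply _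
  obtain ⟨x, hx, hQ⟩ := dense_ne QQ QQ_ne (φ ⁻¹' U) (hU.preimage hφ) (by
    obtain ⟨A, hA⟩ := hne
    exact ⟨fun p => A p.1 p.2, hA⟩)
  rw [QQ, map_mul, map_mul] at hQ
  rw [mul_ne_zero_iff, mul_ne_zero_iff] at hQ
  obtain ⟨⟨hD, hq⟩, hr⟩ := hQ
  obtain ⟨p, q, r, hq0, hr0, h0, h1, h2⟩ : ∃ p q r : ℝ, q ≠ 0 ∧ r ≠ 0 ∧
      x (0,0) * x (3,2) * p + x (0,0) * x (4,2) * q + x (0,1) * x (3,2) * r = x (0,2) ∧
      x (1,0) * x (3,3) * p + x (1,0) * x (4,3) * q + x (1,1) * x (3,3) * r = x (1,3) ∧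
      x (2,0) * x (3,4) * p + x (2,0) * x (4,4) * q + x (2,1) * x (3,4) * r = x (2,4) := by
    refine ⟨MvPolynomial.eval x (d3 cd cq cr) / MvPolynomial.eval x (d3 cp cq cr),
      MvPolynomial.eval x (d3 cp cd cr) / MvPolynomial.eval x (d3 cp cq cr),
      MvPolynomial.eval x (d3 cp cq cd) / MvPolynomial.eval x (d3 cp cq cr),
      div_ne_zero hq hD, div_ne_zero hr hD, ?_, ?_, ?_⟩ <;>
    · field_simp
      simp [d3, cp, cq, cr, cd]
      ring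
  let P : Matrix (Fin 5) (Fin 2) ℝ :=
    !![x (0,0) * p + x (0,1) * r, x (0,0) * q; x (1,0) * p + x (1,1) * r, x (1,0) * q;
       x (2,0) * p + x (2,1) * r, x (2,0) * q; 1, 0; 0, 1]
  let R : Matrix (Fin 2) (Fin 5) ℝ :=
    !![0, 1 / r, x (3,2), x (3,3), x (3,4); 1 / q, -p / (q * r), x (4,2), x (4,3), x (4,4)]
  have h3 := hB (φ x) hx (P * R) (by
    intro e he
    simp only [EE, Finset.mem_insert, Finset.mem_singleton] at he
    rcases he with rfl | rfl | rfl | rfl | rfl | rfl | rfl | rfl | rfl | rfl | rfl | rfl | rfl |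
      rfl | rfl <;> simp [P, R, φ, Matrix.mul_apply, Fin.sum_univ_two] <;>
      first | linarith | (field_simp; ring) | field_simp)
  have h4 : (P * R).rank ≤ 2 := (Matrix.rank_mul_le_left P R).trans (by
    simpa using Matrix.rank_le_width P)
  omega

end Pool.Agent.S00406
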