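import Pool.Statements.S00522
import Pool.Agent.H33.Bun2

set_option autoImplicit false
open AlgebraicGeometry CategoryTheory CategoryTheory.Limits
open Pool Pool.MP_e97ce4_ag

namespace Pool.Agent.S00522

theorem result :
    ¬ (∀ (n : ℕ), 1 < n →
  ∀ (U : (Spec (CommRingCat.of (MvPolynomial (Fin 2) ℂ))).Opens),
    U = (PrimeSpectrum.basicOpen (MvPolynomial.X 0 : MvPolynomial (Fin 2) ℂ) ⊔
          PrimeSpectrum.basicOpen (MvPolynomial.X 1 : MvPolynomial (Fin 2) ℂ) :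
          (Spec (CommRingCat.of (MvPolynomial (Fin 2) ℂ))).Opens) →
  ∀ (X : Scheme.{0}) (p : X ⟶ U.toScheme),
    (∀ x : U.toScheme, ∃ V : U.toScheme.Opens, x ∈ V ∧
      ∃ e : (p ⁻¹ᵁ V).toScheme ≅
          pullback (V.ι ≫ U.ι ≫ Spec.map (CommRingCat.ofHom (algebraMap ℂ (MvPolynomial (Fin 2) ℂ))))
            (Spec.map (CommRingCat.ofHom (algebraMap ℂ (MvPolynomial (Fin n) ℂ)))),
        e.hom ≫ pullback.fst
            (V.ι ≫ U.ι ≫ Spec.map (CommRingCat.ofHom (algebraMap ℂ (MvPolynomial (Fin 2) ℂ))))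
            (Spec.map (CommRingCat.ofHom (algebraMap ℂ (MvPolynomial (Fin n) ℂ))))
          = p ∣_ V) →
    ((∃ e : X ≅
          pullback (U.ι ≫ Spec.map (CommRingCat.ofHom (algebraMap ℂ (MvPolynomial (Fin 2) ℂ))))
            (Spec.map (CommRingCat.ofHom (algebraMap ℂ (MvPolynomial (Fin n) ℂ)))),
        e.hom ≫ pullback.fst
            (U.ι ≫ Spec.map (CommRingCat.ofHom (algebraMap ℂ (MvPolynomial (Fin 2) ℂ))))
            (Spec.map (CommRingCat.ofHom (algebraMap ℂ (MvPolynomial (Fin n) ℂ))))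
          = p) ↔ ¬ IsAffine X)) := by
  intro h
  have key := h 2 (by norm_num) _ rfl _
    (Spec.map (CommRingCat.ofHom Pool.Agent.H33.Bun.f) ∣_
      (PrimeSpectrum.basicOpen (MvPolynomial.X 0 : MvPolynomial (Fin 2) ℂ) ⊔
          PrimeSpectrum.basicOpen (MvPolynomial.X 1 : MvPolynomial (Fin 2) ℂ) :
          (Spec (CommRingCat.of (MvPolynomial (Fin 2) ℂ))).Opens)) (by
      intro x
      rcases TopologicalSpace.Opens.mem_sup.1 x.2 with hx | hx
      · obtain ⟨φ, h1, h2⟩ := Pool.Agent.H33.Bun.chart0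
        letI := φ.toAlgebra
        exact ⟨_, hx, Pool.Agent.H33.Bun.loc_triv Pool.Agent.H33.Bun.f (MvPolynomial.X 0) 2 h1 _
          le_sup_left _ rfl⟩
      · obtain ⟨φ, h1, h2⟩ := Pool.Agent.H33.Bun.chart1
        letI := φ.toAlgebra
        exact ⟨_, hx, Pool.Agent.H33.Bun.loc_triv Pool.Agent.H33.Bun.f (MvPolynomial.X 1) 2 h1 _
          le_sup_right _ rfl⟩)
  obtain ⟨e, he⟩ := key.2 (Pool.Agent.H33.Bun.not_affine
    (A := CommRingCat.of Pool.Agent.H33.Bun.A) Pool.Agent.H33.Bun.x_ne Pool.Agent.H33.Bun.y_ne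
    Pool.Agent.H33.Bun.reg _ rfl Pool.Agent.H33.Bun.no_unit)
  obtain ⟨θ, hθ⟩ := Pool.Agent.H33.Bun.triv_iso Pool.Agent.H33.Bun.f 2 _
    (Pool.Agent.H33.Bun.sh_bij (A := CommRingCat.of Pool.Agent.H33.Bun.A)
      Pool.Agent.H33.Bun.x_ne Pool.Agent.H33.Bun.y_ne Pool.Agent.H33.Bun.reg _ rfl)
    (Pool.Agent.H33.Bun.sh_bij (A := CommRingCat.of (MvPolynomial (Fin 2) Pool.Agent.H33.Bun.S))
      (x := MvPolynomial.C (MvPolynomial.X 0)) (y := MvPolynomial.C (MvPolynomial.X 1))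
      (by simp) (by simp) Pool.Agent.H33.Bun.reg' _ rfl) e he
  exact Pool.Agent.H33.Bun.no_iso θ hθ

end Pool.Agent.S00522
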