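import Pool.Statements.S00530
import Pool.Agent.H33.Tripod

set_option autoImplicit false
open Pool Pool.MP_ebd967_ag

namespace Pool.Agent.S00530

theorem result :
    ¬ (∃ Q : Polynomial ℕ, ∀ (G : Type) [AddCommGroup G] [Fintype G],
      ∀ p : MvPolynomial {g : G × G × G // g.1 + g.2.1 + g.2.2 = 0} ℂ,
        MvPolynomial.aeval
            (fun s : {g : G × G × G // g.1 + g.2.1 + g.2.2 = 0} =>
              (MvPolynomial.X ((0 : Fin 3), s.1.1) * MvPolynomial.X ((1 : Fin 3), s.1.2.1) *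
                MvPolynomial.X ((2 : Fin 3), s.1.2.2) : MvPolynomial (Fin 3 × G) ℂ)) p = 0 →
        p ∈ Ideal.span
          {q : MvPolynomial {g : G × G × G // g.1 + g.2.1 + g.2.2 = 0} ℂ |
            MvPolynomial.aeval
                (fun s : {g : G × G × G // g.1 + g.2.1 + g.2.2 = 0} =>
                  (MvPolynomial.X ((0 : Fin 3), s.1.1) * MvPolynomial.X ((1 : Fin 3), s.1.2.1) *
                    MvPolynomial.X ((2 : Fin 3), s.1.2.2) : MvPolynomial (Fin 3 × G) ℂ)) q = 0 ∧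
              q.totalDegree ≤ Q.eval (Fintype.card G)}) := by
  rintro ⟨Q, H⟩
  obtain ⟨K, hK⟩ := Pool.Agent.H33.Tripod.growth Q
  have hg : Pool.Agent.H33.Tripod.Good (K := K)
      (fun g : {g : Pool.Agent.H33.Tripod.GG K × Pool.Agent.H33.Tripod.GG K ×
          Pool.Agent.H33.Tripod.GG K // g.1 + g.2.1 + g.2.2 = 0} => ![g.1.1, g.1.2.1, g.1.2.2])
      (fun a c => ⟨(a, -a - c, c), (by abel : a + (-a - c) + c = 0)⟩) := by
    refine ⟨fun f => f.2, fun f g h0 h2 => ?_, fun _ _ => rfl, fun _ _ => rfl⟩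
    have hf := f.2
    have hg := g.2
    change f.1.1 = g.1.1 at h0
    change f.1.2.2 = g.1.2.2 at h2
    apply Subtype.ext
    refine Prod.ext h0 (Prod.ext ?_ h2)
    linear_combination hf - hg - h0 - h2
  obtain ⟨p, -, ⟨f, hf, hfp⟩, hp⟩ := Pool.Agent.H33.Tripod.main hg
  apply hfp
  have h1 := H (Pool.Agent.H33.Tripod.GG K) f hf
  refine (?_ : _ ≤ RingHom.ker (MvPolynomial.eval p)) h1
  rw [Ideal.span_le]
  rintro q ⟨hq1, hq2⟩
  refine hp q hq1 (lt_of_le_of_lt hq2 ?_)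
  rw [Pool.Agent.H33.Tripod.card_GG]; exact hK

end Pool.Agent.S00530
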