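import Pool.Statements.S00548

set_option autoImplicit false
open Pool Pool.MP_f28cea_ag

namespace Pool.Agent.S00548

lemma coeff_prod_top {K ι : Type} [Field K] (s : Finset ι) (P : ι → Polynomial K) (n : ι → ℕ)
    (h : ∀ i, (P i).natDegree ≤ n i) :
    (∏ i ∈ s, P i).natDegree ≤ ∑ i ∈ s, n i ∧
    (∏ i ∈ s, P i).coeff (∑ i ∈ s, n i) = ∏ i ∈ s, (P i).coeff (n i) := by
  classical
  induction s using Finset.induction_on with
  | empty => simp
  | insert a s ha ih =>
    rw [Finset.prod_insert ha, Finset.sum_insert ha, Finset.prod_insert ha]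
    refine ⟨Polynomial.natDegree_mul_le.trans (add_le_add (h a) ih.1), ?_⟩
    rw [Polynomial.coeff_mul_add_eq_of_natDegree_le (h a) ih.1, ih.2]

lemma top_coeff {K ι : Type} [Field K] (w : ι → ℕ) (p : MvPolynomial ι K) (d a : ℕ)
    (hp : MvPolynomial.IsWeightedHomogeneous w p d) (F : ι → Polynomial K)
    (hF : ∀ i, (F i).natDegree ≤ a * w i) :
    (MvPolynomial.aeval F p).coeff (a * d)
      = MvPolynomial.aeval (fun i => (F i).coeff (a * w i)) p := by
  conv_lhs => rw [p.as_sum]
  conv_rhs => rw [p.as_sum]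
  rw [map_sum, map_sum, Polynomial.finsetSum_coeff]
  refine Finset.sum_congr rfl fun m hm => ?_
  have h1 : Finsupp.weight w m = d := hp (MvPolynomial.mem_support_iff.1 hm)
  rw [MvPolynomial.aeval_monomial, MvPolynomial.aeval_monomial, Polynomial.algebraMap_eq,
    Polynomial.coeff_C_mul, Finsupp.prod, Finsupp.prod]
  have h2 : a * d = ∑ i ∈ m.support, m i * (a * w i) := by
    rw [← h1, Finsupp.weight_apply, Finsupp.sum, Finset.mul_sum]
    refine Finset.sum_congr rfl fun i _ => ?_
    rw [smul_eq_mul]; ring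
  rw [h2, (coeff_prod_top m.support (fun i => F i ^ m i) (fun i => m i * (a * w i))
    (fun i => Polynomial.natDegree_pow_le.trans (Nat.mul_le_mul_left _ (hF i)))).2]
  simp only [Polynomial.coeff_pow_of_natDegree_le (hF _)]
  rfl

lemma main {K ι : Type} [Field K] [Fintype ι] (w : ι → ℕ) (hw : ∀ i, 0 < w i)
    (p : MvPolynomial ι K) (d : ℕ) (hp : MvPolynomial.IsWeightedHomogeneous w p d)
    (hz : ∀ y : ι → K, MvPolynomial.aeval y p = 0 → y = 0) (f : ι → Polynomial K)
    (hf : MvPolynomial.aeval f p = 0) (j : ι) : f j = 0 := by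
  classical
  by_contra hj
  obtain ⟨i0, hi0, hmax⟩ := Finset.exists_max_image (Finset.univ.filter fun i => f i ≠ 0)
    (fun i => ((f i).natDegree : ℚ) / w i) ⟨j, by simpa using hj⟩
  have hi0' : f i0 ≠ 0 := by simpa using hi0
  let F : ι → Polynomial K := fun i => Polynomial.expand K (w i0) (f i)
  have hF : ∀ i, (F i).natDegree ≤ (f i0).natDegree * w i := by
    intro i
    by_cases hi : f i = 0
    · simp [F, hi]
    · have h1 := hmax i (by simpa using hi)
      have a1 : (0:ℚ) < w i := by exact_mod_cast hw i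
      have a2 : (0:ℚ) < w i0 := by exact_mod_cast hw i0
      rw [div_le_div_iff₀ a1 a2] at h1
      simp only [F, Polynomial.natDegree_expand]
      exact_mod_cast h1
  have h1 := top_coeff w p d _ hp F hF
  have h2 : MvPolynomial.aeval F p = 0 := by
    have : MvPolynomial.aeval F p = Polynomial.expand K (w i0) (MvPolynomial.aeval f p) := by
      rw [← AlgHom.comp_apply, MvPolynomial.comp_aeval]
    rw [this, hf, map_zero]
  rw [h2, Polynomial.coeff_zero] at h1
  have h3 := congrFun (hz _ h1.symm) i0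
  simp only [F, Pi.zero_apply] at h3
  rw [Polynomial.coeff_expand_mul (hw i0)] at h3
  exact hi0' (Polynomial.leadingCoeff_eq_zero.1 h3)

theorem result :
    ¬ (∀ (k K : Type) [Field k] [Field K] [Algebra k K] (n : ℕ)
      (I : Ideal (MvPolynomial (Fin n) k)) (f : MvPolynomial (Fin n) k),
      (∃ m : ℕ, ∃ w : Fin (m + 1) → ℕ, Monotone w ∧ (∀ j, 0 < w j) ∧
        ∃ p : MvPolynomial (Fin (m + 1)) k, ∃ d : ℕ,
          MvPolynomial.IsWeightedHomogeneous w p d ∧
          (∀ y : Fin (m + 1) → K, MvPolynomial.aeval y p = 0 ↔ y = 0) ∧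
          ∃ g : Fin m → MvPolynomial (Fin n) k,
            MvPolynomial.aeval
              (Fin.cons f g : Fin (m + 1) → MvPolynomial (Fin n) k) p ∈ I) ↔
      (∀ x : Fin n → K, (∀ q ∈ I, MvPolynomial.aeval x q = 0) →
        MvPolynomial.aeval x f = 0)) := by
  intro H
  have h1 := (H (ZMod 2) (ZMod 2) 1 ⊥ (MvPolynomial.X 0 ^ 2 - MvPolynomial.X 0)).2 (by
    intro x _
    simp only [map_sub, map_pow, MvPolynomial.aeval_X]
    generalize x 0 = t
    revert t; decide)
  obtain ⟨m, w, -, hw, p, d, hp, hz, g, hg⟩ := h1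
  rw [Ideal.mem_bot] at hg
  let φ : MvPolynomial (Fin 1) (ZMod 2) →ₐ[ZMod 2] Polynomial (ZMod 2) :=
    MvPolynomial.aeval fun _ => Polynomial.X
  have h2 := main w hw p d hp (fun y hy => (hz y).1 hy)
    (fun i => φ ((Fin.cons (MvPolynomial.X 0 ^ 2 - MvPolynomial.X 0) g :
      Fin (m + 1) → MvPolynomial (Fin 1) (ZMod 2)) i)) (by
      rw [← MvPolynomial.comp_aeval, AlgHom.comp_apply, hg, map_zero]) 0
  simp only [Fin.cons_zero, φ, map_sub, map_pow, MvPolynomial.aeval_X] at h2
  have h3 := congrArg (fun q => Polynomial.coeff q 2) h2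
  simp [Polynomial.coeff_X] at h3

end Pool.Agent.S00548
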