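import Pool.Statements.S00609
import Pool.Agent.H21.Branch2

set_option autoImplicit false
open Pool Pool.MP_042d8e_al

namespace Pool.Agent.S00609

theorem result :
    ∃ (G : Type) (_ : Group G) (V : Type) (_ : MulAction G V) (lev : V → ℕ) (par : V → V),
      (∀ v w : V, lev v = 0 → lev w = 0 → v = w) ∧
      (∃ v : V, lev v = 0) ∧
      (∀ w : V, lev w = 0 → par w = w) ∧
      (∀ w : V, lev w ≠ 0 → lev (par w) + 1 = lev w) ∧
      (∀ n : ℕ, {v : V | lev v = n}.Finite) ∧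
      (∀ v : V, ∃ w₁ w₂ : V, w₁ ≠ w₂ ∧ par w₁ = v ∧ par w₂ = v ∧
          lev w₁ = lev v + 1 ∧ lev w₂ = lev v + 1) ∧
      (∀ (g : G) (w : V), lev (g • w) = lev w ∧ par (g • w) = g • par w) ∧
      (∀ g : G, (∀ v : V, g • v = v) → g = 1) ∧
      (∀ v w : V, lev v = lev w → ∃ g : G, g • v = w) ∧
      (∀ n : ℕ, (Subgroup.closure {g : G | ∃ v : V, lev v = n ∧
          ∀ w : V, (∀ k : ℕ, par^[k] w ≠ v) → g • w = w}).FiniteIndex) ∧
      ∃ M : ℕ → ℕ → Subgroup G,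
        (∀ a : ℕ, Antitone (M a) ∧ (∀ i : ℕ, (M a i).Normal ∧ (M a i).FiniteIndex) ∧
            (⨅ i : ℕ, M a i) = ⊥) ∧
        (∀ a b : ℕ, a ≠ b →
            ¬ ((∀ i : ℕ, ∃ j : ℕ, M b j ≤ M a i) ∧ (∀ i : ℕ, ∃ j : ℕ, M a j ≤ M b i))) := by
  refine ⟨H21.Branch2.G, inferInstance, H21.Branch2.V, inferInstance, List.length, List.tail,
    fun v w hv hw => (List.length_eq_zero_iff.1 hv).trans (List.length_eq_zero_iff.1 hw).symm,
    ⟨[], rfl⟩, fun w hw => by rw [List.length_eq_zero_iff.1 hw]; rfl,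
    fun w hw => by rw [List.length_tail]; omega, List.finite_length_eq _,
    fun v => ⟨0 :: v, 1 :: v, by simp, rfl, rfl, rfl, rfl⟩, fun g w => ⟨g.2.1 w, ?_⟩,
    H21.Branch2.faithful, H21.Branch2.trans, H21.Branch2.rist, H21.Branch2.M, H21.Branch2.M_ok,
    fun a b h hh => ?_⟩
  · show (g.1 w).tail = g.1 w.tail
    rcases w with _ | ⟨b, w⟩
    · rw [List.tail_nil, H21.Branch2.fix g [] (by simp)]
      rfl
    · rw [H21.Branch2.lab_spec]
      rfl
  · obtain ⟨j, hj⟩ := hh.1 0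
    exact H21.Branch2.M_ne a b h j hj

end Pool.Agent.S00609
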