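import Pool.Statements.S00661
import Pool.Agent.H19.Chain

set_option autoImplicit false
open Pointwise
open Pool Pool.MP_08cc25_al

namespace Pool.Agent.S00661

open Cardinal Ordinal Pool.Agent.H19.Chain

lemma key (G : Type) [Group G] [Infinite G] :
    ∃ l : G → ℕ, ∀ (k : ℕ) (F : Set G), #F < #G → ∃ g, ∀ f ∈ F, k ≤ l (f * g) := by
  rcases (aleph0_le_mk G).eq_or_lt with h0 | h0
  · have : Countable G := mk_le_aleph0_iff.mp h0.ge
    obtain ⟨l, hl⟩ := exists_injective_nat G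
    refine ⟨l, fun k F hF => ?_⟩
    have hF' : F.Finite := lt_aleph0_iff_set_finite.mp (h0 ▸ hF)
    have h1 : (l ⁻¹' Set.Iio k).Finite := (Set.finite_Iio k).preimage hl.injOn
    have h2 := hF'.image2 (fun f h => f⁻¹ * h) h1
    obtain ⟨g, hg⟩ := h2.exists_notMem
    refine ⟨g, fun f hf => not_lt.mp fun hc => hg ⟨f, hf, f * g, hc, by simp⟩⟩
  obtain ⟨τ, -, hτ, hc⟩ := exists_tau G
  have hH : ∀ α ≤ (#G).ord, #(H ∅ τ α) ≤ max ℵ₀ α.card := fun α hα => by
    simpa [hc α hα] using card_H_le ∅ τ α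
  by_cases hreg : (#G).IsRegular
  · have hlim := isSuccLimit_ord (aleph0_le_mk G)
    have Q : ∀ (k : ℕ), ∀ γ < (#G).ord, ∃ y, ∀ h ∈ H ∅ τ γ, k ≤ len ∅ τ (y * h) := by
      intro k γ hγ
      induction k with
      | zero => exact ⟨1, fun _ _ => Nat.zero_le _⟩
      | succ k ih =>
        obtain ⟨y, hy⟩ := ih
        have hδ : max γ (τ y + 1) < (#G).ord := max_lt hγ (hlim.add_one_lt (hτ y))
        have h1 : #(H ∅ τ (max γ (τ y + 1))) < #G :=
          (hH _ hδ.le).trans_lt (max_lt h0 (lt_ord.mp hδ))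
        obtain ⟨z, hz⟩ : ∃ z, z ∉ H ∅ τ (max γ (τ y + 1)) := by
          by_contra hcon
          push Not at hcon
          have : #G ≤ #(H ∅ τ (max γ (τ y + 1))) :=
            mk_le_of_injective (f := fun g => ⟨g, hcon g⟩) fun a b h => congrArg Subtype.val h
          exact absurd h1 (not_lt.mpr this)
        have hz0 : z ∉ H ∅ τ 0 := fun h => hz (H_mono _ _ zero_le h)
        have hle := le_lev ∅ τ hz
        refine ⟨z * (strip ∅ τ z)⁻¹ * y, fun h hh => ?_⟩
        have hm : (strip ∅ τ z)⁻¹ * (y * h) ∈ H ∅ τ (lev ∅ τ z) :=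
          mul_mem (inv_mem (strip_mem _ _ z)) (H_mono _ _ hle (mul_mem
            (mem_H_of_lt _ _ (lt_max_of_lt_right (Order.lt_add_one_iff.mpr le_rfl)))
            (H_mono _ _ (le_max_left _ _) hh)))
        have := len_mul ∅ τ (not_mem_lev ∅ τ hz0) hm
        rw [mul_inv_cancel_left] at this
        rw [mul_assoc, mul_assoc, this]
        exact Nat.succ_le_succ (hy h hh)
    refine ⟨fun g => len ∅ τ g⁻¹, fun k F hF => ?_⟩
    have hγ : ⨆ f : F, (τ f + 1) < (#G).ord :=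
      Ordinal.iSup_lt_of_lt_cof (by rwa [hreg.cof_ord]) fun f => hlim.add_one_lt (hτ f)
    obtain ⟨y, hy⟩ := Q k _ hγ
    refine ⟨y⁻¹, fun f hf => ?_⟩
    simp only [mul_inv_rev, inv_inv]
    refine hy _ (inv_mem (mem_H_of_lt _ _ ?_))
    exact (Order.lt_add_one_iff.mpr le_rfl).trans_le
      (Ordinal.le_iSup (fun f : F => τ f + 1) ⟨f, hf⟩)
  · have hsucc : ∀ μ, ℵ₀ ≤ μ → μ < #G → Order.succ μ < #G := fun μ h1 h2 =>
      (Order.succ_le_of_lt h2).lt_of_ne fun h => hreg (h ▸ isRegular_succ h1)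
    have P : ∀ (k : ℕ) (c : Cardinal.{0}), ℵ₀ ≤ c → c < #G → ∃ μ, c ≤ μ ∧ μ < #G ∧
        ∀ F : Set G, #F ≤ c → ∃ g ∈ H ∅ τ μ.ord, ∀ f ∈ F, k ≤ len ∅ τ (f * g) := by
      intro k c hc1 hc2
      induction k with
      | zero => exact ⟨c, le_rfl, hc2, fun F _ => ⟨1, one_mem _, fun _ _ => Nat.zero_le _⟩⟩
      | succ k ih =>
        obtain ⟨μ, h1, h2, h3⟩ := ih
        have hμ : ℵ₀ ≤ μ := hc1.trans h1
        have h4 := hsucc μ hμ h2
        refine ⟨Order.succ μ, h1.trans (Order.le_succ μ), h4, fun F hF => ?_⟩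
        obtain ⟨x, hx1, hx2⟩ : ∃ x, τ x < (Order.succ μ).ord ∧ ∀ f ∈ F, f * x ∉ H ∅ τ μ.ord := by
          by_contra hcon
          push Not at hcon
          have hsub : {g | τ g < (Order.succ μ).ord} ⊆
              Set.image2 (fun f h => f⁻¹ * h) F (H ∅ τ μ.ord) := fun x hx => by
            obtain ⟨f, hf, hfx⟩ := hcon x hx
            exact ⟨f, hf, f * x, hfx, by simp⟩
          have h5 := (mk_le_mk_of_subset hsub).trans mk_image2_le
          rw [hc _ (ord_le_ord.mpr h4.le), card_ord] at h5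
          have h6 : #(H ∅ τ μ.ord) ≤ μ := by
            simpa [hμ] using hH _ (ord_le_ord.mpr h2.le)
          have h7 : #F * #(H ∅ τ μ.ord) ≤ μ :=
            (mul_le_mul' (hF.trans h1) h6).trans_eq (mul_eq_self hμ)
          exact absurd (h5.trans h7) (not_le.mpr (Order.lt_succ μ))
        obtain ⟨h, hh, hk⟩ := h3 ((fun f => strip ∅ τ (f * x)) '' F) (mk_image_le.trans hF)
        refine ⟨x * h, mul_mem (mem_H_of_lt _ _ hx1)
          (H_mono _ _ (ord_le_ord.mpr (Order.le_succ μ)) hh), fun f hf => ?_⟩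
        rw [← mul_assoc, len_mul ∅ τ (hx2 f hf) hh]
        exact Nat.succ_le_succ (hk _ ⟨f, hf, rfl⟩)
    refine ⟨len ∅ τ, fun k F hF => ?_⟩
    obtain ⟨μ, -, -, h3⟩ := P k (max ℵ₀ #F) (le_max_left _ _) (max_lt h0 hF)
    obtain ⟨g, -, hg⟩ := h3 F (le_max_right _ _)
    exact ⟨g, hg⟩


/-- Every infinite group G can be split into countably many pairwise disjoint sets A_n so that no A_n satisfies F·A_n = G for any subset F of G of cardinality smaller than that of G. -/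
theorem result :
    ∀ (G : Type) [Group G], Infinite G →
      ∃ A : ℕ → Set G,
        (⋃ n, A n) = Set.univ ∧
        Pairwise (fun i j => Disjoint (A i) (A j)) ∧
        ∀ n, ¬ ∃ F : Set G, Cardinal.mk F < Cardinal.mk G ∧ F * A n = Set.univ := by
  intro G _ hG
  obtain ⟨l, hl⟩ := key G
  refine ⟨fun n => l ⁻¹' {n}, ?_, ?_, ?_⟩
  · exact Set.eq_univ_of_forall fun g => Set.mem_iUnion.mpr ⟨l g, rfl⟩
  · intro i j hij
    exact Set.disjoint_left.mpr fun g hi hj => hij ((Eq.symm hi).trans hj)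
  · rintro n ⟨F, hF, hFA⟩
    obtain ⟨g, hg⟩ := hl (n + 1) ((fun f => f⁻¹) '' F) (Cardinal.mk_image_le.trans_lt hF)
    obtain ⟨f, hf, a, ha, rfl⟩ : g ∈ F * (l ⁻¹' {n}) := hFA ▸ Set.mem_univ g
    have := hg _ ⟨f, hf, rfl⟩
    simp only [inv_mul_cancel_left] at this
    have ha' : l a = n := ha
    omega

end Pool.Agent.S00661
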