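import Pool.Statements.S00684

set_option autoImplicit false
open Pool Pool.MP_0b625c_al

namespace Pool.Agent.S00684

/-- The negation of the preceding statement: Take the group of all unit-circle-valued maps on the unit circle, with pointwise product and sup metric. Every continuous bijective homomorphism from it onto a complete metric topological group has a continuous inverse. -/
theorem result :
    ¬ (∀ (E₁ : Type) [Group E₁] [MetricSpace E₁] [CompleteSpace E₁] [IsTopologicalGroup E₁]
      (U : (Circle → Circle) →* E₁),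
      Function.Bijective U →
      (∀ x : Circle → Circle, ∀ ε > (0 : ℝ), ∃ δ > (0 : ℝ), ∀ y : Circle → Circle,
          (∀ q : Circle, dist (x q) (y q) ≤ δ) → dist (U x) (U y) < ε) →
      (∀ x : Circle → Circle, ∀ ε > (0 : ℝ), ∃ δ > (0 : ℝ), ∀ y : Circle → Circle,
          dist (U x) (U y) < δ → ∀ q : Circle, dist (x q) (y q) ≤ ε)) := by
  intro h
  classical
  have hinf : Infinite Circle := by
    refine Infinite.of_injective (fun n : ℕ => Circle.exp (1 / ((n : ℝ) + 1))) ?_
    intro m n hmn
    have hb : ∀ k : ℕ, 1 / ((k : ℝ) + 1) ∈ Set.Icc (0 : ℝ) 1 := fun k =>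
      ⟨by positivity, by
        rw [div_le_one (by positivity)]; linarith [(Nat.cast_nonneg k : (0 : ℝ) ≤ k)]⟩
    have h1 := Circle.exp_injOn_Icc (a := 0) (b := 1) (by linarith [Real.pi_gt_three]) (hb m) (hb n) hmn
    have h2 : (m : ℝ) + 1 = (n : ℝ) + 1 := by
      have := congrArg (fun r : ℝ => r⁻¹) h1
      simpa using this
    exact_mod_cast (add_right_cancel h2)
  let p : ℕ ↪ Circle := Infinite.natEmbedding Circle
  let t : ℕ → Set Circle := fun n => {q | ∀ m, n ≤ m → q ≠ p m}
  have hmono : Monotone t := fun a b hab q hq m hm => hq m (hab.trans hm)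
  have hcov : ⋃₀ Set.range t = Set.univ := by
    refine Set.eq_univ_of_forall fun q => ?_
    by_cases hq : ∃ m, q = p m
    · obtain ⟨m, rfl⟩ := hq
      exact ⟨t (m + 1), ⟨_, rfl⟩, fun k hk he => by have := p.injective he; omega⟩
    · exact ⟨t 0, ⟨_, rfl⟩, fun k _ he => hq ⟨k, he⟩⟩
  let u : UniformSpace Circle := Circle.instMetricSpace.toPseudoMetricSpace.toUniformSpace
  have hcg := UniformOnFun.isCountablyGenerated_uniformity (β := Circle) (Set.range t)
    (t := t) (fun n => ⟨n, rfl⟩) hmono (fun s ⟨n, hn⟩ => ⟨n, hn ▸ subset_rfl⟩)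
  have hT2 : T2Space (UniformOnFun Circle Circle (Set.range t)) :=
    UniformOnFun.t2Space_of_covering hcov
  have hB := UniformOnFun.hasBasis_uniformity_of_covering_of_basis (β := Circle) (Set.range t)
    (t := t) (fun n => ⟨n, rfl⟩) hmono.directed_le (fun s ⟨n, hn⟩ => ⟨n, hn ▸ subset_rfl⟩)
    Metric.uniformity_basis_dist
  let m : MetricSpace (UniformOnFun Circle Circle (Set.range t)) :=
    UniformSpace.metricSpace _
  have hc : CompleteSpace (UniformOnFun Circle Circle (Set.range t)) := inferInstance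
  have hg : IsTopologicalGroup (UniformOnFun Circle Circle (Set.range t)) := inferInstance
  let U : (Circle → Circle) →* UniformOnFun Circle Circle (Set.range t) :=
    { toFun := UniformOnFun.ofFun _, map_one' := rfl, map_mul' := fun _ _ => rfl }
  have key : ∀ ε > (0 : ℝ), ∃ n : ℕ, ∃ δ > (0 : ℝ), ∀ x y : Circle → Circle,
      (∀ q ∈ t n, dist (x q) (y q) < δ) → dist (U x) (U y) < ε := by
    intro ε hε
    obtain ⟨⟨n, δ⟩, hδ, hs⟩ := hB.mem_iff.1 (Metric.dist_mem_uniformity
      (α := UniformOnFun Circle Circle (Set.range t)) hε)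
    exact ⟨n, δ, hδ, fun x y hxy => hs (a := (U x, U y)) hxy⟩
  have h1 := @h (UniformOnFun Circle Circle (Set.range t)) _ m hc hg U
    (UniformOnFun.ofFun (Set.range t)).bijective (by
      intro x ε hε
      obtain ⟨n, δ, hδ, hk⟩ := key ε hε
      exact ⟨δ / 2, by positivity, fun y hy => hk x y fun q _ => (hy q).trans_lt (by linarith)⟩)
  obtain ⟨ε, hε, hs⟩ := h1 1 1 one_pos
  obtain ⟨n, δ, hδ, hk⟩ := key ε hε
  have h2 := hs (Function.update 1 (p n) (-1)) (hk _ _ fun q hq => by
    rw [Function.update_of_ne (hq n le_rfl)]; simpa using hδ) (p n)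
  rw [Function.update_self] at h2
  have h3 : dist ((1 : Circle → Circle) (p n)) (-1) = 2 := by
    show dist ((1 : Circle) : ℂ) ((-1 : Circle) : ℂ) = 2
    simp [Complex.dist_eq]
    norm_num
  linarith

end Pool.Agent.S00684
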