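import Pool.Statements.S00694
import Pool.Agent.H18.RO3

set_option autoImplicit false
open Pool Pool.MP_0c2877_al

namespace Pool.Agent.S00694

/-- The negation of the preceding statement: There is a nontrivial soluble group with a total order preserved by right multiplication whose abelianization (quotient by the commutator subgroup) is finite. -/
theorem result :
    ¬ (∃ (G : Type) (_ : Group G) (_ : LinearOrder G),
      Nontrivial G ∧ IsSolvable G ∧
      (∀ a b c : G, a ≤ b → a * c ≤ b * c) ∧
      Finite (Abelianization G)) := by
  rintro ⟨G, _, _, h1, h2, h3, h4⟩
  have h5 : Group.IsSolvable G := h2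
  exact H18.RO.main (G := G) fun a b c h =>
    lt_of_le_of_ne (h3 a b c h.le) fun e => h.ne (mul_right_cancel e)

end Pool.Agent.S00694
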