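import Pool.Statements.S00730
import Pool.Agent.H21.Lamp

set_option autoImplicit false
open Pool Pool.MP_0ee5c7_al

namespace Pool.Agent.S00730

theorem result :
    ¬ (∀ (G : Type) [Group G] (S : Finset G), Subgroup.closure (S : Set G) = ⊤ →
      ∀ Γ : SimpleGraph G,
        (∀ g h : G, Γ.Adj g h ↔ (g ≠ h ∧ ∃ s ∈ S, h = g * s ∨ g = h * s)) →
        (∀ F : Finset G, ∃ F' : Finset G, ∀ a b : G, a ∉ F' → b ∉ F' →
            ∃ p : Γ.Walk a b, ∀ v ∈ p.support, v ∉ F) →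
        ∀ f : ℝ → G,
          (∃ C D : ℝ, ∀ x y : ℝ, 0 ≤ x → 0 ≤ y →
              (Γ.dist (f x) (f y) : ℝ) ≤ C * |x - y| + D) →
          (∀ M : ℝ, ∃ N : ℝ, ∀ x y : ℝ, 0 ≤ x → 0 ≤ y → N ≤ |x - y| →
              M ≤ (Γ.dist (f x) (f y) : ℝ)) →
          ∀ Y : Set G, Y ⊆ f '' Set.Ici (0 : ℝ) →
            ¬ ∃ K : ℕ, ∃ A B : Set G,
                Disjoint A B ∧
                A ∪ B = {g : G | ∀ y ∈ Y, K < Γ.dist g y} ∧
                (∀ a ∈ A, ∀ b ∈ B, ¬ Γ.Adj a b) ∧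
                (∀ R : ℕ, ¬ A ⊆ {g : G | ∃ y ∈ Y, Γ.dist g y ≤ R}) ∧
                (∀ R : ℕ, ¬ B ⊆ {g : G | ∃ y ∈ Y, Γ.dist g y ≤ R})) := by
  intro H
  open Pool.Agent.H21.Lamp in
  refine H G S top Γ (fun g h => by simp [Γ, and_or_left, exists_or]) one_end (fun x => e ⌊x⌋₊)
    ⟨2, 2, fun x y hx hy => ?_⟩ (fun M => ?_) {g | g.2.toAdd = 0} (fun g hg => ?_)
    ⟨0, {g | 0 < g.2.toAdd}, {g | g.2.toAdd < 0}, Set.disjoint_left.2 fun g h k => by grind, ?_,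
      fun a h b k h' => ?_, fun R h => ?_, fun R h => ?_⟩
  · wlog h : x ≤ y generalizing x y
    · rw [SimpleGraph.dist_comm, abs_sub_comm]; exact this y x hy hx (le_of_not_ge h)
    obtain ⟨j, hj⟩ := Nat.exists_eq_add_of_le (Nat.floor_mono h)
    have h1 : (Γ.dist (e ⌊x⌋₊) (e ⌊y⌋₊) : ℝ) ≤ 2 * j := by rw [hj]; exact_mod_cast e_lip _ j
    have h2 : (⌊y⌋₊ : ℝ) = ⌊x⌋₊ + j := by exact_mod_cast hj
    rw [abs_sub_comm, abs_of_nonneg (sub_nonneg.2 h)]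
    linarith [Nat.floor_le hy, Nat.lt_floor_add_one x]
  · obtain ⟨N, h⟩ := e_far ⌈M⌉₊
    refine ⟨N + 1, fun x y hx hy k => (Nat.le_ceil M).trans (Nat.cast_le.2 (le_of_not_ge fun k' => ?_))⟩
    have h1 : (⌊x⌋₊ : ℝ) ≤ ⌊y⌋₊ + N := by exact_mod_cast h _ _ k'
    have h2 : (⌊y⌋₊ : ℝ) ≤ ⌊x⌋₊ + N := by exact_mod_cast h _ _ (SimpleGraph.dist_comm ▸ k')
    refine k.not_gt (abs_lt.2 ⟨?_, ?_⟩) <;>
      linarith [Nat.floor_le hy, Nat.lt_floor_add_one x, Nat.floor_le hx, Nat.lt_floor_add_one y]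
  · obtain ⟨k, h⟩ := e_surj g.1.toAdd
    exact ⟨k, Set.mem_Ici.2 (Nat.cast_nonneg k), by simp only [Nat.floor_natCast, h, ← show g.2.toAdd = 0 from hg]; rfl⟩
  · ext g
    refine ⟨fun h y hy => cn.pos_dist_of_ne ?_, fun h => (Set.mem_union _ _ _).2 ?_⟩
    · rintro rfl
      simp [show g.2.toAdd = 0 from hy] at h
    · simpa using lt_or_gt_of_ne fun k => by simpa using h g k.symm
  · have := (adj_c (c := a.1.toAdd) (x := a.2.toAdd) (c' := b.1.toAdd) (x' := b.2.toAdd) h').1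
    grind
  · obtain ⟨y, h1, h2⟩ := h (a := mk 0 (R + 1)) (by simp [mk])
    have := (dist_c 0 (R + 1) y.1.toAdd y.2.toAdd).1.trans (Nat.cast_le.2 h2)
    rw [show y.2.toAdd = 0 from h1] at this
    clear H h
    grind
  · obtain ⟨y, h1, h2⟩ := h (a := mk 0 (-R - 1)) (Set.mem_setOf.2 (show (-R - 1 : ℤ) < 0 by omega))
    have := (dist_c 0 (-R - 1) y.1.toAdd y.2.toAdd).1.trans (Nat.cast_le.2 h2)
    rw [show y.2.toAdd = 0 from h1] at this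
    clear H h
    grind

end Pool.Agent.S00730
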