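import Pool.Statements.S00738
import Pool.Agent.H22.Wie5

set_option autoImplicit false
open Pool Pool.MP_0f752e_al

namespace Pool.Agent.S00738

/-- The negation of the preceding statement: Take any class of finite groups closed under images, subdirect products, normal subgroups and products of normal members. Then for finite G and U, V subnormal in ⟨U,V⟩, the residual of ⟨U,V⟩ equals the join of the residuals of U and V. -/
theorem result :
    ¬ (∀ F : (H : Type) → [Group H] → Prop,
      (∀ (G H : Type) [Group G] [Group H] [Finite G], F G →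
          ∀ f : G →* H, Function.Surjective f → F H) →
      (∀ (G H₁ H₂ : Type) [Group G] [Group H₁] [Group H₂] [Finite G],
          F H₁ → F H₂ → ∀ (f₁ : G →* H₁) (f₂ : G →* H₂),
            Function.Surjective f₁ → Function.Surjective f₂ →
            f₁.ker ⊓ f₂.ker = ⊥ → F G) →
      (∀ (G : Type) [Group G] [Finite G], F G →
          ∀ N : Subgroup G, N.Normal → F N) →
      (∀ (G : Type) [Group G] [Finite G] (N M : Subgroup G),
          N.Normal → M.Normal → F N → F M → N ⊔ M = ⊤ → F G) →
      ∀ (G : Type) [Group G] [Finite G] (U V : Subgroup G),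
        (∃ n : ℕ, ∃ c : ℕ → Subgroup G, c 0 = U ∧ c n = U ⊔ V ∧
          ∀ i < n, c i ≤ c (i + 1) ∧ ((c i).subgroupOf (c (i + 1))).Normal) →
        (∃ n : ℕ, ∃ c : ℕ → Subgroup G, c 0 = V ∧ c n = U ⊔ V ∧
          ∀ i < n, c i ≤ c (i + 1) ∧ ((c i).subgroupOf (c (i + 1))).Normal) →
        (⨅ (H : Type) (_ : Group H) (_ : F H) (f : ↥(U ⊔ V) →* H)
            (_ : Function.Surjective f), f.ker).map (U ⊔ V).subtype =
          (⨅ (H : Type) (_ : Group H) (_ : F H) (f : ↥U →* H)
              (_ : Function.Surjective f), f.ker).map U.subtype ⊔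
          (⨅ (H : Type) (_ : Group H) (_ : F H) (f : ↥V →* H)
              (_ : Function.Surjective f), f.ker).map V.subtype) := by
  intro h
  obtain ⟨G, _, _, U, V, Z, T, e, n, a, b⟩ := H22.Comp.wie
  have k : ∀ K, K = U ∨ K = V → (⨅ (H : Type) (_ : Group H) (_ : H22.Comp.Fw H) (f : K →* H)
      (_ : Function.Surjective f), f.ker).map K.subtype ≤ Z := fun K u => by
    obtain ⟨N, _, c, d⟩ := (a K u).2
    refine (Subgroup.map_mono (iInf_le_of_le (K ⧸ N) (iInf_le_of_le
      (inferInstance : Group (K ⧸ N)) (iInf_le_of_le c (iInf_le_of_le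
      (QuotientGroup.mk' N) (iInf_le_of_le (QuotientGroup.mk'_surjective N)
        (QuotientGroup.ker_mk' N).le)))))).trans d
  refine n (le_trans ?_ ((h H22.Comp.Fw (fun _ _ _ _ _ h => h.surj) (fun _ _ _ _ _ _ _ a b f g u v w =>
    a.two b f g u v (.id _) Function.surjective_id (w.le.trans bot_le)) (fun _ _ _ h N _ => h.sub N)
    (fun _ _ _ N M _ _ => H22.Comp.fw_sup N M) G U V (e ▸ (a U (Or.inl rfl)).1)
    (e ▸ (a V (Or.inr rfl)).1)).le.trans (sup_le (k U (Or.inl rfl)) (k V (Or.inr rfl)))))
  rw [← Subgroup.map_subgroupOf_eq_of_le (le_top.trans e.ge : T ≤ U ⊔ V)]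
  exact Subgroup.map_mono (le_iInf fun Q => le_iInf fun _ => le_iInf fun c => le_iInf fun f =>
    le_iInf fun s => b Q f s c)

end Pool.Agent.S00738
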