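import Pool.Statements.S00741
import Pool.Agent.H21.Rot

set_option autoImplicit false
open Pool Pool.MP_0f8bf3_al

namespace Pool.Agent.S00741

theorem result :
    ∃ n : ℕ, ∃ ψ : ↥(Subgroup.closure
        (insert
          (Equiv.prodShear (Equiv.refl (Fin n → ℤ))
            (fun w => if w = 0 then Equiv.addRight (1 : ℤ) else Equiv.refl ℤ) :
              Equiv.Perm ((Fin n → ℤ) × ℤ))
          (Set.range fun i : Fin n =>
            (Equiv.prodCongr (Equiv.addRight (Pi.single i (1 : ℤ) : Fin n → ℤ)) (Equiv.refl ℤ) :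
              Equiv.Perm ((Fin n → ℤ) × ℤ))))) →*
        Equiv.Perm ↥(Metric.sphere (0 : Fin n → ℝ) 1),
      Function.Injective ψ ∧
        ∀ g, Continuous (ψ g) ∧
          ∃ m : ℕ, ∃ C : Fin m → Set (Fin n → ℝ),
            ∃ A : Fin m → ((Fin n → ℝ) →ᵃ[ℝ] (Fin n → ℝ)),
              (∀ j, ∃ s : Finset (Fin n → ℝ), C j = convexHull ℝ (↑s : Set (Fin n → ℝ))) ∧
              (∀ x : ↥(Metric.sphere (0 : Fin n → ℝ) 1), ∃ j, (↑x : Fin n → ℝ) ∈ C j) ∧
              (∀ j, ∀ x : ↥(Metric.sphere (0 : Fin n → ℝ) 1), (↑x : Fin n → ℝ) ∈ C j →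
                (↑((ψ g) x) : Fin n → ℝ) = A j (↑x : Fin n → ℝ)) := by
  open Pool.Agent.H21 Pool.Agent.H21.PLT Pool.Agent.H21.Rot in
  obtain ⟨ψ, h1, h2⟩ := main 4 (Equiv.refl _) T.id T.id (Metric.sphere 0 1) (· = 1) rfl (by simp)
  let ρ := Wa.ρ (A := Fin 4 → ℤ) (P := Fin 4 → ℤ) (Q := ℤ) (C := ℤ)
    (fun p _ => if p = 0 then 1 else 0) fun _ _ _ => rfl
  have hρ : Function.Injective ρ := (injective_iff_map_eq_one _).2 fun ⟨f, u⟩ h => by
    obtain rfl : u = 1 := by simpa [ρ, Wa.ρ_app, Wa.ac] using congrArg (fun a => (a (0, 0)).1) h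
    congr
    ext w
    simpa [ρ, Wa.ρ_app, Wa.ac, neg_add_eq_zero, Finsupp.sum_ite_eq'] using
      congrArg (fun a => (a (w, 0)).2) h
  refine ⟨4, ?_⟩
  generalize hK : Subgroup.closure (G := Equiv.Perm ((Fin 4 → ℤ) × ℤ)) _ = K
  obtain rfl : ρ.range = K := by
    rw [← hK, MonoidHom.range_eq_map, ← Wa.top, MonoidHom.map_closure, Set.image_insert_eq,
      ← Set.range_comp]
    congr
    · refine Equiv.ext fun ⟨p, q⟩ => ?_
      by_cases h : p = 0 <;> simp [ρ, Wa.ρ_app, Wa.ac, Wa.a, h, add_comm]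
    · funext i
      refine Equiv.ext fun ⟨p, q⟩ => ?_
      simp [ρ, Wa.ρ_app, Wa.ac, Wa.t, add_comm]
  refine ⟨ψ.comp (MonoidHom.ofInjective hρ).symm.toMonoidHom, h1.comp (MulEquiv.injective _),
    fun g => ?_⟩
  obtain ⟨c, f, h3, h4⟩ := h2 ((MonoidHom.ofInjective hρ).symm g)
  obtain ⟨k, s, A, h5, h6⟩ := h3.box (-1) 1
  refine ⟨c, k, _, A, fun j => ⟨s j, rfl⟩, fun x => h5 _ ?_, fun i x h => (h4 x).trans (h6 i _ h)⟩
  have := fun i => abs_le.1 ((norm_le_pi_norm x.1 i).trans (norm_eq_of_mem_sphere x).le)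
  exact ⟨fun i => (this i).1, fun i => (this i).2⟩

end Pool.Agent.S00741
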