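import Pool.Statements.S00790
import Pool.Agent.H22.Cliff2

set_option autoImplicit false
open Pool Pool.MP_145108_al

namespace Pool.Agent.S00790

/-- The negation of the preceding statement: For every unital ring R: if the lattice of right ideals is distributive and each element is a root of a monic polynomial with central coefficients, then the lattice of left ideals is distributive. -/
theorem result :
    ¬ (∀ (R : Type) [Ring R],
      (∀ a b c : Submodule Rᵐᵒᵖ R, a ⊓ (b ⊔ c) = (a ⊓ b) ⊔ (a ⊓ c)) →
      (∀ x : R, ∃ p : Polynomial (Subring.center R),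
          p.Monic ∧ Polynomial.eval₂ (Subring.center R).subtype x p = 0) →
      ∀ a b c : Submodule R R, a ⊓ (b ⊔ c) = (a ⊓ b) ⊔ (a ⊓ c)) := by
  intro h
  exact Pool.Agent.H22.Cliff.not_left
    (h Pool.Agent.H22.Cliff.AA Pool.Agent.H22.Cliff.right_distrib' Pool.Agent.H22.Cliff.AA_integral)

end Pool.Agent.S00790
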