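import Pool.Statements.S00840

set_option autoImplicit false
set_option backward.isDefEq.respectTransparency false
open Pool Pool.MP_1a5400_al

namespace Pool.Agent.S00840

open Matrix MatrixGroups

def gen : Fin 2 → SL(2, ℤ) :=
  ![⟨!![1, 1; 0, 1], by simp [Matrix.det_fin_two]⟩, ⟨!![1, 0; 4, 1], by simp [Matrix.det_fin_two]⟩]

def XX : Fin 2 → Set SL(2, ℤ) :=
  ![{M | 0 ≤ (2 * M 0 0 - M 1 0) * M 1 0},
    {M | 0 ≤ M 0 0 * M 1 0 ∧ (2 * M 0 0 - M 1 0) * M 1 0 < 0}]

def YY : Fin 2 → Set SL(2, ℤ) :=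
  ![{M | (2 * M 0 0 + M 1 0) * M 1 0 < 0},
    {M | M 0 0 * M 1 0 < 0 ∧ 0 ≤ (2 * M 0 0 + M 1 0) * M 1 0}]

lemma col_ne (M : SL(2, ℤ)) : M 0 0 ≠ 0 ∨ M 1 0 ≠ 0 := by
  by_contra h
  push Not at h
  have := M.det_coe
  rw [Matrix.det_fin_two] at this
  simp [h.1, h.2] at this

lemma g0 (M : SL(2, ℤ)) : (gen 0 * M) 0 0 = M 0 0 + M 1 0 ∧ (gen 0 * M) 1 0 = M 1 0 := by
  simp [gen, Matrix.mul_apply, Fin.sum_univ_two]
lemma g1 (M : SL(2, ℤ)) : (gen 1 * M) 0 0 = M 0 0 ∧ (gen 1 * M) 1 0 = 4 * M 0 0 + M 1 0 := by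
  simp [gen, Matrix.mul_apply, Fin.sum_univ_two]
lemma g0' (M : SL(2, ℤ)) :
    ((gen 0)⁻¹ * M) 0 0 = M 0 0 - M 1 0 ∧ ((gen 0)⁻¹ * M) 1 0 = M 1 0 := by
  have h := g0 ((gen 0)⁻¹ * M)
  rw [mul_inv_cancel_left] at h
  constructor <;> linarith [h.1, h.2]
lemma g1' (M : SL(2, ℤ)) :
    ((gen 1)⁻¹ * M) 0 0 = M 0 0 ∧ ((gen 1)⁻¹ * M) 1 0 = M 1 0 - 4 * M 0 0 := by
  have h := g1 ((gen 1)⁻¹ * M)
  rw [mul_inv_cancel_left] at h
  constructor <;> linarith [h.1, h.2]

lemma ar1 (x y : ℤ) (h0 : x ≠ 0 ∨ y ≠ 0) (h : ¬ (x * y < 0 ∧ 0 ≤ (2 * x + y) * y)) :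
    0 ≤ x * (4 * x + y) ∧ (2 * x - (4 * x + y)) * (4 * x + y) < 0 := by
  have hp : 0 < x * x + y * y := by
    rcases h0 with h0 | h0
    · nlinarith [mul_self_pos.mpr h0, mul_self_nonneg y]
    · nlinarith [mul_self_pos.mpr h0, mul_self_nonneg x]
  by_cases h1 : x * y < 0
  · have h2 : (2 * x + y) * y < 0 := by
      by_contra h2; exact h ⟨h1, not_lt.mp h2⟩
    rcases lt_trichotomy y 0 with hy | hy | hy
    · have : 0 < 2 * x + y := by nlinarith
      constructor <;> nlinarith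
    · simp [hy] at h1
    · have : 2 * x + y < 0 := by nlinarith
      constructor <;> nlinarith
  · constructor <;> nlinarith [mul_self_nonneg x]

lemma ar2 (x y : ℤ) (h0 : x ≠ 0 ∨ y ≠ 0) (h : ¬ (0 ≤ x * y ∧ (2 * x - y) * y < 0)) :
    x * (y - 4 * x) < 0 ∧ 0 ≤ (2 * x + (y - 4 * x)) * (y - 4 * x) := by
  by_cases h1 : 0 ≤ x * y
  · have h2 : 0 ≤ (2 * x - y) * y := by
      by_contra h2; exact h ⟨h1, not_le.mp h2⟩
    rcases lt_trichotomy y 0 with hy | hy | hy
    · have : 2 * x - y ≤ 0 := by nlinarith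
      constructor <;> nlinarith
    · subst hy
      have hx : x ≠ 0 := by simpa using h0
      constructor <;> nlinarith [mul_self_pos.mpr hx]
    · have : 0 ≤ 2 * x - y := by nlinarith
      constructor <;> nlinarith
  · constructor <;> nlinarith [mul_self_nonneg x, mul_self_nonneg y]

def rho : FreeGroup (Fin 2) →* SL(2, ℤ) := FreeGroup.lift gen

lemma rho_inj : Function.Injective rho := by
  apply FreeGroup.injective_lift_of_ping_pong gen XX YY
  · intro i
    fin_cases i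
    · exact ⟨1, by simp [XX]⟩
    · exact ⟨gen 1, by simp [XX, gen]⟩
  · intro i j hij
    fin_cases i <;> fin_cases j <;> simp [Function.onFun, XX, Set.disjoint_left] at hij ⊢ <;>
      intro a h1 h2 <;> linarith
  · intro i j hij
    fin_cases i <;> fin_cases j <;> simp [Function.onFun, YY, Set.disjoint_left] at hij ⊢ <;>
      intro a h1 h2 <;> linarith
  · intro i j
    fin_cases i <;> fin_cases j <;> simp [XX, YY, Set.disjoint_left]
    · intro a h; nlinarith [mul_self_nonneg (a 1 0)]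
    · intro a h h'; nlinarith [mul_self_nonneg (a 1 0)]
    · intro a h h'; nlinarith [mul_self_nonneg (a 1 0)]
    · intro a h h' h''; nlinarith [mul_self_nonneg (a 1 0)]
  · intro i
    rintro _ ⟨M, hM, rfl⟩
    fin_cases i
    · simp only [YY, XX, smul_eq_mul] at hM ⊢
      simp at hM ⊢
      have := g0 M
      simp only [Matrix.SpecialLinearGroup.coe_mul] at this
      rw [this.1, this.2]
      nlinarith
    · have h := ar1 (M 0 0) (M 1 0) (col_ne M) (by simpa [YY] using hM)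
      have := g1 M
      simp only [XX, smul_eq_mul]
      simp only [Fin.mk_one, Matrix.cons_val_one, Matrix.cons_val_zero, Set.mem_ofPred_eq]
      rw [this.1, this.2]
      exact h
  · intro i
    rintro _ ⟨M, hM, rfl⟩
    fin_cases i
    · have := g0' M
      simp only [YY, XX, smul_eq_mul, Pi.inv_apply] at hM ⊢
      simp only [Fin.zero_eta, Matrix.cons_val_zero, Set.mem_ofPred_eq, Set.mem_compl_iff] at hM ⊢
      rw [this.1, this.2]
      nlinarith
    · have h := ar2 (M 0 0) (M 1 0) (col_ne M) (by simpa [XX] using hM)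
      have := g1' M
      simp only [YY, smul_eq_mul, Pi.inv_apply]
      simp only [Fin.mk_one, Matrix.cons_val_one, Matrix.cons_val_zero, Set.mem_ofPred_eq]
      rw [this.1, this.2]
      exact h

def TT : Matrix (Fin 2) (Fin 2) ℤ := !![2, -1; 8, -3]

lemma TT_cancel_right {A B : Matrix (Fin 2) (Fin 2) ℤ} (h : A * TT = B * TT) : A = B := by
  have h2 : TT * !![-3, 1; -8, 2] = (2 : ℤ) • (1 : Matrix (Fin 2) (Fin 2) ℤ) := by decide
  have := congrArg (· * !![-3, 1; -8, 2]) h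
  simp only [Matrix.mul_assoc, h2, Matrix.mul_smul, Matrix.mul_one] at this
  exact smul_right_injective _ (by norm_num) this

lemma TT_cancel_left {A B : Matrix (Fin 2) (Fin 2) ℤ} (h : TT * A = TT * B) : A = B := by
  have h2 : !![-3, 1; -8, 2] * TT = (2 : ℤ) • (1 : Matrix (Fin 2) (Fin 2) ℤ) := by decide
  have := congrArg (!![-3, 1; -8, 2] * ·) h
  simp only [← Matrix.mul_assoc, h2, Matrix.smul_mul, Matrix.one_mul] at this
  exact smul_right_injective _ (by norm_num) this

def Rel (w w' : FreeGroup (Fin 2)) : Prop :=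
  TT * (rho w : Matrix (Fin 2) (Fin 2) ℤ) = (rho w' : Matrix (Fin 2) (Fin 2) ℤ) * TT

lemma Rel.mul {a a' b b' : FreeGroup (Fin 2)} (h : Rel a a') (h' : Rel b b') :
    Rel (a * b) (a' * b') := by
  unfold Rel at *
  simp only [map_mul, Matrix.SpecialLinearGroup.coe_mul]
  rw [← Matrix.mul_assoc, h, Matrix.mul_assoc, h', Matrix.mul_assoc]

lemma Rel.one : Rel 1 1 := by simp [Rel]

lemma Rel.uniq {a b c : FreeGroup (Fin 2)} (h : Rel a b) (h' : Rel a c) : b = c := by
  apply rho_inj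
  apply Subtype.ext
  apply TT_cancel_right
  unfold Rel at *
  rw [← h, h']

lemma Rel.uniq' {a b c : FreeGroup (Fin 2)} (h : Rel a c) (h' : Rel b c) : a = b := by
  apply rho_inj
  apply Subtype.ext
  apply TT_cancel_left
  unfold Rel at *
  rw [h, h']

lemma Rel.inv {a a' : FreeGroup (Fin 2)} (h : Rel a a') : Rel a⁻¹ a'⁻¹ := by
  unfold Rel at *
  have h1 : ((rho a'⁻¹ : SL(2, ℤ)) : Matrix (Fin 2) (Fin 2) ℤ) * (rho a' : SL(2, ℤ)) = 1 := by
    rw [← Matrix.SpecialLinearGroup.coe_mul, ← map_mul]; simp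
  have h2 : ((rho a : SL(2, ℤ)) : Matrix (Fin 2) (Fin 2) ℤ) * (rho a⁻¹ : SL(2, ℤ)) = 1 := by
    rw [← Matrix.SpecialLinearGroup.coe_mul, ← map_mul]; simp
  calc TT * (rho a⁻¹ : SL(2, ℤ))
      = ((rho a'⁻¹ : SL(2, ℤ)) * (rho a' : SL(2, ℤ))) * TT * (rho a⁻¹ : SL(2, ℤ)) := by
        rw [h1, Matrix.one_mul]
    _ = (rho a'⁻¹ : SL(2, ℤ)) * (TT * (rho a : SL(2, ℤ))) * (rho a⁻¹ : SL(2, ℤ)) := by
        rw [h, Matrix.mul_assoc ((rho a'⁻¹ : SL(2, ℤ)) : Matrix (Fin 2) (Fin 2) ℤ)]
    _ = (rho a'⁻¹ : SL(2, ℤ)) * TT := by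
        rw [Matrix.mul_assoc, Matrix.mul_assoc, h2, Matrix.mul_one]

def SS : Subgroup (FreeGroup (Fin 2)) where
  carrier := {w | ∃ w', Rel w w'}
  one_mem' := ⟨1, Rel.one⟩
  mul_mem' := by rintro a b ⟨a', h⟩ ⟨b', h'⟩; exact ⟨_, h.mul h'⟩
  inv_mem' := by rintro a ⟨a', h⟩; exact ⟨_, h.inv⟩

noncomputable def ff : SS →* FreeGroup (Fin 2) :=
  MonoidHom.mk' (fun x => x.2.choose) (fun x y =>
    ((x * y).2.choose_spec).uniq (x.2.choose_spec.mul y.2.choose_spec))

lemma ff_rel (x : SS) : Rel x (ff x) := x.2.choose_spec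

lemma ff_inj : Function.Injective ff := by
  intro x y h
  apply Subtype.ext
  exact (ff_rel x).uniq' (h ▸ ff_rel y)

abbrev aa : FreeGroup (Fin 2) := FreeGroup.of 0
abbrev bb : FreeGroup (Fin 2) := FreeGroup.of 1

lemma rho_a : ((rho aa : SL(2, ℤ)) : Matrix (Fin 2) (Fin 2) ℤ) = !![1, 1; 0, 1] := by
  simp [rho, gen]
lemma rho_b : ((rho bb : SL(2, ℤ)) : Matrix (Fin 2) (Fin 2) ℤ) = !![1, 0; 4, 1] := by
  simp [rho, gen]
lemma rho_a' : ((rho aa⁻¹ : SL(2, ℤ)) : Matrix (Fin 2) (Fin 2) ℤ) = !![1, -1; 0, 1] := by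
  simp [rho, gen, Matrix.adjugate_fin_two]
lemma rho_b' : ((rho bb⁻¹ : SL(2, ℤ)) : Matrix (Fin 2) (Fin 2) ℤ) = !![1, 0; -4, 1] := by
  simp [rho, gen, Matrix.adjugate_fin_two]

lemma a_mem : aa ∈ SS := ⟨bb * aa * bb⁻¹ * (bb * aa * bb⁻¹), by
  simp only [Rel, map_mul, Matrix.SpecialLinearGroup.coe_mul, rho_a, rho_b, rho_b']; decide⟩
lemma b_mem : bb * bb ∈ SS := ⟨bb * aa⁻¹ * bb * aa * bb⁻¹, by
  simp only [Rel, map_mul, Matrix.SpecialLinearGroup.coe_mul, rho_a, rho_b, rho_b', rho_a']; decide⟩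
lemma c_mem : bb * aa * bb⁻¹ ∈ SS := ⟨bb * aa⁻¹ * (bb * aa⁻¹), by
  simp only [Rel, map_mul, Matrix.SpecialLinearGroup.coe_mul, rho_a, rho_b, rho_b', rho_a']; decide⟩

lemma b_not : bb ∉ SS := by
  rintro ⟨w, h⟩
  unfold Rel at h
  rw [rho_b] at h
  have h1 := congrFun (congrFun h 0) 0
  have h2 := congrFun (congrFun h 1) 0
  have h3 := congrFun (congrFun h 1) 1
  have h4 := congrFun (congrFun h 0) 1
  simp [TT, Matrix.mul_apply, Fin.sum_univ_two] at h1 h2 h3 h4
  have key : ∀ w : FreeGroup (Fin 2), (4 : ℤ) ∣ (rho w : SL(2, ℤ)) 1 0 := by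
    intro w
    induction w using FreeGroup.induction_on with
    | C1 => simp
    | of i => fin_cases i <;> simp [rho, gen]
    | inv_of i _ => fin_cases i <;> simp [rho, gen, Matrix.adjugate_fin_two]
    | mul x y hx hy =>
      simp only [map_mul, Matrix.SpecialLinearGroup.coe_mul, Matrix.mul_apply, Fin.sum_univ_two]
      exact dvd_add (hx.mul_right _) (hy.mul_left _)
  have := key w
  omega

lemma index_two : SS.index = 2 := by
  rw [Subgroup.index_eq_two_iff_exists_notMem_and']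
  refine ⟨bb, b_not, fun w => ?_⟩
  have key : ∀ w x : FreeGroup (Fin 2), (bb * x ∈ SS ∨ x ∈ SS) →
      (bb * (w * x) ∈ SS ∨ w * x ∈ SS) := by
    intro w
    induction w using FreeGroup.induction_on with
    | C1 => simp
    | of i =>
      intro x hx
      fin_cases i
      · rcases hx with hx | hx
        · left; simpa [mul_assoc] using SS.mul_mem c_mem hx
        · right; exact SS.mul_mem a_mem hx
      · rcases hx with hx | hx
        · right; exact hx
        · left; simpa [mul_assoc] using SS.mul_mem b_mem hx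
    | inv_of i _ =>
      intro x hx
      fin_cases i
      · rcases hx with hx | hx
        · left; simpa [mul_assoc] using SS.mul_mem (SS.inv_mem c_mem) hx
        · right; exact SS.mul_mem (SS.inv_mem a_mem) hx
      · rcases hx with hx | hx
        · right; simpa [mul_assoc] using SS.mul_mem (SS.inv_mem b_mem) hx
        · left; simpa using hx
    | mul x y hx hy =>
      intro z hz
      simpa [mul_assoc] using hx _ (hy z hz)
  simpa using key w 1 (Or.inr SS.one_mem)

lemma descent (n : ℕ) : ∀ u w : ℕ → ℤ,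
    (∀ k, -2 * u (k + 1) + 8 * w (k + 1) = 3 * u k - 8 * w k) →
    (∀ k, u (k + 1) - 3 * w (k + 1) = 2 * w k - u k) →
    u 0 ^ 2 - 5 * u 0 * w 0 + 8 * w 0 ^ 2 ≤ n → u 0 = 0 ∧ w 0 = 0 := by
  induction n using Nat.strong_induction_on with
  | _ n ih =>
    intro u w h1 h2 hn
    have hu : ∀ k, 2 ∣ u k := fun k => by have := h1 k; omega
    have hw : ∀ k, 2 ∣ w (k + 1) := fun k => by
      have := h2 k; have := hu k; have := hu (k + 1); omega
    by_cases h0 : n = 0
    · subst h0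
      simp only [Nat.cast_zero] at hn
      have h5 : w 0 ^ 2 = 0 := by nlinarith [sq_nonneg (2 * u 0 - 5 * w 0), sq_nonneg (w 0)]
      have : w 0 = 0 := by simpa using h5
      refine ⟨?_, this⟩
      rw [this] at hn
      have h6 : u 0 ^ 2 = 0 := by nlinarith [sq_nonneg (u 0)]
      simpa using h6
    · obtain ⟨p, hp⟩ := hu 1
      obtain ⟨q, hq⟩ := hw 0
      have e1 := h1 0
      have e2 := h2 0
      simp only [zero_add] at e1 e2 hq
      have hu0 : u 0 = -4 * p + 8 * q := by omega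
      have hw0 : w 0 = - p + q := by omega
      have := ih (n - 1) (by omega) (fun k => u (k + 1) / 2) (fun k => w (k + 1) / 2)
        (fun k => by
          have := h1 (k + 1); have := hu (k + 1); have := hu (k + 2); have := hw k
          have := hw (k + 1)
          simp only [add_assoc] at *
          norm_num at *
          omega)
        (fun k => by
          have := h2 (k + 1); have := hu (k + 1); have := hu (k + 2); have := hw k
          have := hw (k + 1)
          simp only [add_assoc] at *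
          norm_num at *
          omega)
        (by
          have e3 : u (0 + 1) / 2 = p := by simp only [zero_add]; omega
          have e4 : w (0 + 1) / 2 = q := by simp only [zero_add]; omega
          simp only [e3, e4]
          rw [hu0, hw0] at hn
          have : ((n - 1 : ℕ) : ℤ) = n - 1 := by omega
          rw [this]
          have hn1 : (1 : ℤ) ≤ n := by omega
          by_contra hc
          push Not at hc
          nlinarith)
      simp only [zero_add] at this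
      omega

/-- The negation of the preceding statement: For every index-2 subgroup S of the free group on two generators, every subgroup R and every isomorphism f from S onto R, some nontrivial subgroup H inside S satisfies f(H) ⊆ H. -/
theorem result :
    ¬ (∀ (S R : Subgroup (FreeGroup (Fin 2))), S.index = 2 →
      ∀ f : S ≃* R,
        ∃ H : Subgroup (FreeGroup (Fin 2)),
          H ≤ S ∧ H ≠ ⊥ ∧
            ∀ x : S, (x : FreeGroup (Fin 2)) ∈ H → ((f x : R) : FreeGroup (Fin 2)) ∈ H) := by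
  intro H
  obtain ⟨K, hKS, hK, hinv⟩ := H SS ff.range index_two (MonoidHom.ofInjective ff_inj)
  have hinv' : ∀ x : K, ∃ y : K, Rel x y := fun x =>
    ⟨⟨ff ⟨x, hKS x.2⟩, hinv ⟨x, hKS x.2⟩ x.2⟩, ff_rel ⟨x, hKS x.2⟩⟩
  choose nx hnx using hinv'
  obtain ⟨⟨h, hh⟩, hne⟩ := Subgroup.ne_bot_iff_exists_ne_one.mp hK
  let M : ℕ → Matrix (Fin 2) (Fin 2) ℤ := fun k => (rho (nx^[k] ⟨h, hh⟩ : K) : SL(2, ℤ))
  have hM : ∀ k, TT * M k = M (k + 1) * TT := fun k => by
    have := hnx (nx^[k] ⟨h, hh⟩)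
    simp only [M, Function.iterate_succ_apply']
    exact this
  have hent : ∀ k, 2 * M k 0 0 - M k 1 0 = 2 * M (k + 1) 0 0 + 8 * M (k + 1) 0 1 ∧
      2 * M k 0 1 - M k 1 1 = - M (k + 1) 0 0 - 3 * M (k + 1) 0 1 ∧
      8 * M k 0 0 - 3 * M k 1 0 = 2 * M (k + 1) 1 0 + 8 * M (k + 1) 1 1 ∧
      8 * M k 0 1 - 3 * M k 1 1 = - M (k + 1) 1 0 - 3 * M (k + 1) 1 1 := fun k => by
    have h := hM k
    have h1 := congrFun (congrFun h 0) 0
    have h2 := congrFun (congrFun h 0) 1
    have h3 := congrFun (congrFun h 1) 0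
    have h4 := congrFun (congrFun h 1) 1
    simp [TT, Matrix.mul_apply, Fin.sum_univ_two] at h1 h2 h3 h4
    refine ⟨by linarith, by linarith, by linarith, by linarith⟩
  obtain ⟨e1, e2⟩ := descent _ (fun k => 8 * M k 0 1 + M k 1 0)
    (fun k => M k 0 0 + 5 * M k 0 1 - M k 1 1)
    (fun k => by obtain ⟨a, b, c, d⟩ := hent k; linarith)
    (fun k => by obtain ⟨a, b, c, d⟩ := hent k; linarith) (Int.self_le_toNat _)
  have hM0 : M 0 = (rho h : SL(2, ℤ)) := rfl
  have hdet := (rho h).det_coe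
  rw [Matrix.det_fin_two, ← hM0] at hdet
  have hc : M 0 1 0 = -8 * M 0 0 1 := by linarith
  have ha : M 0 0 0 = M 0 1 1 - 5 * M 0 0 1 := by linarith
  rw [hc, ha] at hdet
  have hb : M 0 0 1 = 0 := by
    by_contra hb
    have : 0 < M 0 0 1 ^ 2 := by positivity
    nlinarith [sq_nonneg (2 * M 0 1 1 - 5 * M 0 0 1)]
  have hsq : rho (h ^ 2) = rho 1 := by
    apply Subtype.ext
    rw [sq, map_mul, Matrix.SpecialLinearGroup.coe_mul, ← hM0, map_one]
    rw [hb] at hdet hc ha
    ext i j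
    fin_cases i <;> fin_cases j <;> simp [Matrix.mul_apply, Fin.sum_univ_two, hb, hc, ha] <;>
      linarith
  have := rho_inj hsq
  apply hne
  apply Subtype.ext
  simpa using this

end Pool.Agent.S00840
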