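import Pool.Statements.S00850
import Pool.Agent.H22.Wie5

set_option autoImplicit false
open Pool Pool.MP_1b0854_al

namespace Pool.Agent.S00850

/-- The negation of the preceding statement: Let F be a class of finite groups closed under images, subdirect products, normal subgroups and normal products, and solubly saturated. Then for subnormal H, K of a finite group, the F-residual of the join of H and K is the join of their F-residuals. -/
theorem result :
    ¬ (∀ F : (G : Type) → [Group G] → Prop,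
    (∀ (G : Type) [Group G] [Finite G] (Q : Type) [Group Q] (f : G →* Q),
        Function.Surjective f → F G → F Q) →
    (∀ (G : Type) [Group G] [Finite G] (Q₁ : Type) [Group Q₁] (Q₂ : Type) [Group Q₂]
        (Q : Type) [Group Q] (f₁ : G →* Q₁) (f₂ : G →* Q₂) (f : G →* Q),
        Function.Surjective f₁ → Function.Surjective f₂ → Function.Surjective f →
        f.ker = f₁.ker ⊓ f₂.ker → F Q₁ → F Q₂ → F Q) →
    (∀ (G : Type) [Group G] [Finite G] (N : Subgroup G), N.Normal → F G → F ↥N) →
    (∀ (G : Type) [Group G] [Finite G] (N M : Subgroup G), N.Normal → M.Normal →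
        F ↥N → F ↥M → F ↥(N ⊔ M)) →
    (∀ (G : Type) [Group G] [Finite G] (N : Subgroup G), N.Normal → IsSolvable ↥N →
        (∀ (Q : Type) [Group Q] (f : G →* Q), Function.Surjective f →
            f.ker = (frattini ↥N).map N.subtype → F Q) → F G) →
    ∀ (G : Type) [Group G] [Finite G] (H K : Subgroup G),
      (∃ n : ℕ, ∃ c : ℕ → Subgroup G, c 0 = H ∧ c n = ⊤ ∧
        ∀ i < n, c i ≤ c (i + 1) ∧ ((c i).subgroupOf (c (i + 1))).Normal) →
      (∃ n : ℕ, ∃ c : ℕ → Subgroup G, c 0 = K ∧ c n = ⊤ ∧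
        ∀ i < n, c i ≤ c (i + 1) ∧ ((c i).subgroupOf (c (i + 1))).Normal) →
      (⨅ (N : Subgroup ↥(H ⊔ K)) (_ : N.Normal ∧ ∀ (Q : Type) [Group Q] (f : ↥(H ⊔ K) →* Q),
          Function.Surjective f → f.ker = N → F Q), N).map (H ⊔ K).subtype
        = (⨅ (N : Subgroup ↥H) (_ : N.Normal ∧ ∀ (Q : Type) [Group Q] (f : ↥H →* Q),
            Function.Surjective f → f.ker = N → F Q), N).map H.subtype
          ⊔ (⨅ (N : Subgroup ↥K) (_ : N.Normal ∧ ∀ (Q : Type) [Group Q] (f : ↥K →* Q),
            Function.Surjective f → f.ker = N → F Q), N).map K.subtype) := by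
  intro h
  obtain ⟨G, _, _, U, V, Z, T, e, n, a, b⟩ := H22.Comp.wie
  have k : ∀ K, K = U ∨ K = V → (⨅ (N : Subgroup K) (_ : N.Normal ∧ ∀ (Q : Type) [Group Q] (f : K →* Q),
      Function.Surjective f → f.ker = N → H22.Comp.Fw Q), N).map K.subtype ≤ Z := fun K u => by
    obtain ⟨N, _, c, d⟩ := (a K u).2
    exact (Subgroup.map_mono (iInf₂_le N ⟨‹_›, fun Q _ f s e => c.two c _ _ (QuotientGroup.mk'_surjective N)
      (QuotientGroup.mk'_surjective N) f s (by simp [e])⟩)).trans d
  refine n (le_trans ?_ ((h H22.Comp.Fw (fun _ _ _ _ _ f s h => h.surj f s)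
    (fun _ _ _ _ _ _ _ _ _ f g φ u v w e a b => a.two b f g u v φ w e.ge) (fun _ _ _ N _ h => h.sub N)
    (fun _ _ _ N M _ _ a b => H22.Comp.fw_sup (N.subgroupOf _) (M.subgroupOf _)
      (a.surj (Subgroup.subgroupOfEquivOfLe le_sup_left).symm.toMonoidHom (MulEquiv.surjective _))
      (b.surj (Subgroup.subgroupOfEquivOfLe le_sup_right).symm.toMonoidHom (MulEquiv.surjective _))
      (by rw [← Subgroup.subgroupOf_sup le_sup_left le_sup_right, Subgroup.subgroupOf_self]))
    (fun G _ _ N _ hs c => ?_) G U V (a U (Or.inl rfl)).1 (a V (Or.inr rfl)).1).le.trans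
      (sup_le (k U (Or.inl rfl)) (k V (Or.inr rfl)))))
  · rw [← Subgroup.map_subgroupOf_eq_of_le (le_top.trans e.ge : T ≤ U ⊔ V)]
    refine Subgroup.map_mono (le_iInf₂ fun N ⟨_, c⟩ => ?_)
    simpa using b _ _ (QuotientGroup.mk'_surjective N) (c _ _ (QuotientGroup.mk'_surjective N)
      (QuotientGroup.ker_mk' N))
  · have : ((frattini N).map N.subtype).Normal := ConjAct.normal_of_characteristic_of_normal
    have : Group.IsSolvable N := hs
    exact (c _ _ (QuotientGroup.mk'_surjective _) (QuotientGroup.ker_mk' _)).sol _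
      (QuotientGroup.mk'_surjective _) N (by simpa using Subgroup.map_subtype_le _)

end Pool.Agent.S00850
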