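import Pool.Statements.S00865

set_option autoImplicit false
open Pool Pool.MP_1d00e6_al

namespace Pool.Agent.S00865

section wr
variable {X : Type}

/-- The unrestricted wreath product of an abelian group `M` with all permutations of `X`. -/
@[ext] structure Wr (X M : Type) where
  v : X → M
  π : Equiv.Perm X

variable {M : Type} [AddCommGroup M]

instance : Mul (Wr X M) := ⟨fun g h => ⟨fun x => g.v x + h.v (g.π⁻¹ x), g.π * h.π⟩⟩
instance : One (Wr X M) := ⟨⟨0, 1⟩⟩
instance : Inv (Wr X M) := ⟨fun g => ⟨fun x => - g.v (g.π x), g.π⁻¹⟩⟩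
@[simp] lemma mul_π (g h : Wr X M) : (g * h).π = g.π * h.π := rfl
@[simp] lemma mul_v (g h : Wr X M) (x : X) : (g * h).v x = g.v x + h.v (g.π⁻¹ x) := rfl
@[simp] lemma one_π : (1 : Wr X M).π = 1 := rfl
@[simp] lemma one_v (x : X) : (1 : Wr X M).v x = 0 := rfl
@[simp] lemma inv_π (g : Wr X M) : g⁻¹.π = g.π⁻¹ := rfl
@[simp] lemma inv_v (g : Wr X M) (x : X) : g⁻¹.v x = - g.v (g.π x) := rfl

instance : Group (Wr X M) := Group.ofLeftAxioms
  (fun a b c => Wr.ext (funext fun x => by simp [add_assoc]) (mul_assoc _ _ _))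
  (fun a => Wr.ext (funext fun x => by simp) (one_mul _))
  (fun a => Wr.ext (funext fun x => by simp) (inv_mul_cancel _))

def piH : Wr X M →* Equiv.Perm X where
  toFun := Wr.π
  map_one' := rfl
  map_mul' _ _ := rfl

lemma pow_π (g : Wr X M) (n : ℕ) : (g ^ n).π = g.π ^ n := map_pow piH g n

lemma pow_v {g : Wr X M} (h : g.π = 1) (n : ℕ) (x : X) : (g ^ n).v x = n • g.v x := by
  induction n with
  | zero => simp
  | succ n ih => rw [pow_succ', mul_v, h, inv_one, Equiv.Perm.one_apply, ih, succ_nsmul']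

lemma pow_eq_one {g : Wr X M} {k m : ℕ} (h : g.π ^ k = 1) (hm : ∀ a : M, m • a = 0) :
    g ^ (k * m) = 1 := by
  rw [pow_mul]
  have h1 : (g ^ k).π = 1 := by rw [pow_π, h]
  exact Wr.ext (funext fun x => by rw [pow_v h1, hm]; rfl) (by rw [pow_π, h1, one_pow]; rfl)

def base : Multiplicative (X → M) →* Wr X M where
  toFun f := ⟨f.toAdd, 1⟩
  map_one' := rfl
  map_mul' _ _ := rfl

lemma solv_of (Q : Subgroup (Equiv.Perm X)) (hQ : Group.IsSolvable Q) :
    Group.IsSolvable (Q.comap (piH (M := M))) := by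
  refine Group.isSolvable_of_ker_le_range
    (base.codRestrict (Q.comap piH) (fun f => Q.one_mem))
    ((piH.comp (Q.comap piH).subtype).codRestrict Q (fun g => g.2)) ?_
  intro g hg
  have h : g.1.π = 1 := congrArg Subtype.val hg
  exact ⟨Multiplicative.ofAdd g.1.v, Subtype.ext (Wr.ext rfl h.symm)⟩

def act (g : Wr X M) (w : X → M) : X → M := fun x => g.v x + w (g.π⁻¹ x)

lemma act_one (w : X → M) : act (1 : Wr X M) w = w := by funext x; simp [act]
lemma act_mul (g h : Wr X M) (w : X → M) : act (g * h) w = act g (act h w) := by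
  funext x; simp [act, add_assoc]

def Stab (w : X → M) : Subgroup (Wr X M) where
  carrier := {g | act g w = w}
  one_mem' := act_one w
  mul_mem' := by
    intro g h hg hh
    show act (g * h) w = w
    rw [act_mul, hh, hg]
  inv_mem' := by
    intro g hg
    show act g⁻¹ w = w
    conv_lhs => rw [← hg]
    rw [← act_mul, inv_mul_cancel, act_one]

lemma Stab_pow {w : X → M} {g : Wr X M} (hg : g ∈ Stab w) {k : ℕ} (h : g.π ^ k = 1) :
    g ^ k = 1 := by
  have h1 : (g ^ k).π = 1 := by rw [pow_π, h]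
  have h2 : act (g ^ k) w = w := (Stab w).pow_mem hg k
  refine Wr.ext (funext fun x => ?_) h1
  have := congrFun h2 x
  simpa [act, h1] using this

end wr

lemma solv_le {G : Type} [Group G] {H K : Subgroup G} (h : H ≤ K) (hK : Group.IsSolvable K) :
    Group.IsSolvable H :=
  Group.isSolvable_of_isSolvable_injective (Subgroup.inclusion_injective h)

lemma solv_map {G G' : Type} [Group G] [Group G'] (f : G →* G') (H : Subgroup G)
    (hH : Group.IsSolvable H) : Group.IsSolvable (H.map f) :=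
  Group.isSolvable_of_surjective (f.subgroupMap_surjective H)

section lim
variable {Γ : Type} [Group Γ] (phi : Γ →* Γ)

abbrev Gm (Γ : Type) : Type := Filter.Germ (Filter.atTop : Filter ℕ) Γ

def phiN : ℕ → (Γ →* Γ)
  | 0 => MonoidHom.id _
  | n + 1 => (phiN n).comp phi

lemma phiN_inj (h : Function.Injective phi) : ∀ n, Function.Injective (phiN phi n)
  | 0 => Function.injective_id
  | n + 1 => (phiN_inj h n).comp h

def io (i : ℕ) : Γ →* Gm Γ :=
  (Filter.Germ.coeMulHom Filter.atTop).comp (Pi.monoidHom fun n => phiN phi (n - i))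

lemma io_phi (i : ℕ) (g : Γ) : io phi (i + 1) (phi g) = io phi i g := by
  refine Filter.Germ.coe_eq.2 ?_
  filter_upwards [Filter.eventually_ge_atTop (i + 1)] with n hn
  obtain ⟨m, rfl⟩ := Nat.exists_eq_add_of_le hn
  show phiN phi (i + 1 + m - (i + 1)) (phi g) = phiN phi (i + 1 + m - i) g
  rw [show i + 1 + m - (i + 1) = m by omega, show i + 1 + m - i = m + 1 by omega]
  rfl

lemma io_inj (h : Function.Injective phi) (i : ℕ) : Function.Injective (io phi i) := by
  intro a b hab
  obtain ⟨n, hn⟩ := (Filter.Germ.coe_eq.1 hab).exists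
  exact phiN_inj phi h _ hn

lemma mono_of (S : ℕ → Subgroup Γ) (hS : ∀ i, ∀ g ∈ S i, phi g ∈ S (i + 1)) :
    Monotone fun i => (S i).map (io phi i) := by
  refine monotone_nat_of_le_succ fun i => ?_
  rintro _ ⟨g, hg, rfl⟩
  exact ⟨phi g, hS i g hg, io_phi phi i g⟩

def lim (S : ℕ → Subgroup Γ) : Subgroup (Gm Γ) := ⨆ i, (S i).map (io phi i)

lemma mem_lim (S : ℕ → Subgroup Γ) (hS : ∀ i, ∀ g ∈ S i, phi g ∈ S (i + 1)) (x : Gm Γ) :
    x ∈ lim phi S ↔ ∃ i, ∃ g ∈ S i, io phi i g = x :=
  Subgroup.mem_iSup_of_directed (mono_of phi S hS).directed_le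

lemma lim_solv (S : ℕ → Subgroup Γ) (hS : ∀ i, ∀ g ∈ S i, phi g ∈ S (i + 1))
    (hs : ∀ i, Group.IsSolvable (S i)) (T : Finset (lim phi S)) :
    Group.IsSolvable (Subgroup.closure (T : Set (lim phi S))) := by
  have : ∃ i, ∀ s ∈ T, (s : Gm Γ) ∈ (S i).map (io phi i) := by
    classical
    have hm := mono_of phi S hS
    induction T using Finset.induction_on with
    | empty => exact ⟨0, by simp⟩
    | insert s T _ ih =>
      obtain ⟨i, hi⟩ := ih
      obtain ⟨j, hj⟩ := (mem_lim phi S hS _).1 s.2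
      refine ⟨max i j, fun t ht => ?_⟩
      rcases Finset.mem_insert.1 ht with rfl | ht
      · exact hm (le_max_right i j) hj
      · exact hm (le_max_left i j) (hi t ht)
  obtain ⟨i, hi⟩ := this
  have hle : Subgroup.closure (T : Set (lim phi S)) ≤
      ((S i).map (io phi i)).subgroupOf (lim phi S) := by
    rw [Subgroup.closure_le]; exact hi
  refine solv_le hle ?_
  have := solv_map (io phi i) _ (hs i)
  refine Group.isSolvable_of_isSolvable_injective
    (f := ((lim phi S).subtype.comp (Subgroup.subtype _)).codRestrict ((S i).map (io phi i))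
      (fun x => x.2)) ?_
  intro a b hab
  have h5 := congrArg Subtype.val hab
  exact Subtype.ext (Subtype.ext h5)

end lim

section main
variable (n q : ℕ)

abbrev X : Type := List (ZMod n)
abbrev Γ : Type := Wr (X n) (ZMod q)

variable {n}

def sm (g : Wr (X n) (ZMod n)) : X n → X n
  | [] => []
  | c :: x => (c + g.v (g.π x)) :: g.π x

lemma sm_one (x : X n) : sm 1 x = x := by cases x <;> simp [sm]
lemma sm_mul (g h : Wr (X n) (ZMod n)) (x : X n) : sm (g * h) x = sm g (sm h x) := by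
  cases x <;> simp [sm, add_comm, add_left_comm]

def psi : Wr (X n) (ZMod n) →* Equiv.Perm (X n) where
  toFun g := ⟨sm g, sm g⁻¹, fun x => by rw [← sm_mul, inv_mul_cancel, sm_one],
    fun x => by rw [← sm_mul, mul_inv_cancel, sm_one]⟩
  map_one' := Equiv.ext sm_one
  map_mul' g h := Equiv.ext (sm_mul g h)

lemma psi_apply (g : Wr (X n) (ZMod n)) (x : X n) : psi g x = sm g x := rfl

def top : Equiv.Perm (X n) →* Wr (X n) (ZMod n) where
  toFun σ := ⟨0, σ⟩
  map_one' := rfl
  map_mul' _ _ := Wr.ext (funext fun _ => by simp) rfl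

def lf : Equiv.Perm (X n) →* Equiv.Perm (X n) := psi.comp top

lemma lf_nil (σ : Equiv.Perm (X n)) : lf σ [] = [] := rfl
lemma lf_cons (σ : Equiv.Perm (X n)) (c : ZMod n) (x : X n) : lf σ (c :: x) = c :: σ x := by
  show (c + 0) :: σ x = _
  rw [add_zero]

def Q : ℕ → Subgroup (Equiv.Perm (X n))
  | 0 => ⊥
  | i + 1 => ((Q i).comap piH).map psi

lemma Q_solv : ∀ i, Group.IsSolvable (Q (n := n) i)
  | 0 => inferInstanceAs (Group.IsSolvable (⊥ : Subgroup (Equiv.Perm (X n))))
  | i + 1 => solv_map _ _ (solv_of _ (Q_solv i))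

lemma Q_pow : ∀ i, ∀ σ ∈ Q (n := n) i, σ ^ n ^ i = 1
  | 0, σ, h => by simpa [Q] using h
  | i + 1, _, ⟨g, hg, rfl⟩ => by
    rw [← map_pow, pow_succ, pow_eq_one (Q_pow i _ hg) (fun a => by simp), map_one]

def L (v : X n → ZMod q) : X n → ZMod q
  | [] => 0
  | c :: x => if c.val < q then v x else 0

def Phi (v : X n → ZMod q) : X n → ZMod q
  | [] => 0
  | c :: x => if c.val < q then v x + c.val else 0

def phi : Γ n q →* Γ n q where
  toFun g := ⟨L q g.v, lf g.π⟩
  map_one' := Wr.ext (funext fun x => by cases x <;> simp [L]) (map_one lf)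
  map_mul' g h := Wr.ext (funext fun x => by
    simp only [mul_v, ← map_inv]
    cases x with
    | nil => simp only [L, lf_nil, add_zero]
    | cons c x =>
      simp only [L, lf_cons, mul_v]
      split_ifs <;> simp) (map_mul lf _ _)

lemma phi_inj (hq : 0 < q) : Function.Injective (phi (n := n) q) := by
  rw [injective_iff_map_eq_one]
  intro g hg
  refine Wr.ext (funext fun x => ?_) (Equiv.ext fun x => ?_)
  · have : L q g.v (0 :: x) = 0 := congrArg (fun z : Γ n q => z.v (0 :: x)) hg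
    simpa [L, hq] using this
  · have : lf g.π (0 :: x) = 0 :: x := congrArg (fun z : Γ n q => z.π (0 :: x)) hg
    rw [lf_cons] at this
    exact (List.cons.inj this).2

lemma act_phi (g : Γ n q) (w : X n → ZMod q) : act (phi q g) (Phi q w) = Phi q (act g w) := by
  funext x
  show L q g.v x + Phi q w ((lf g.π)⁻¹ x) = _
  rw [← map_inv]
  cases x with
  | nil => simp only [L, Phi, lf_nil, add_zero]
  | cons c x =>
    simp only [L, Phi, lf_cons, act]
    split_ifs <;> simp [add_assoc]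

def ee : ℕ → X n → ZMod q
  | 0 => 0
  | i + 1 => Phi q (ee i)

def GS (i : ℕ) : Subgroup (Γ n q) := (Q i).comap piH
def AS (i : ℕ) : Subgroup (Γ n q) := GS q i ⊓ Stab 0
def BS (i : ℕ) : Subgroup (Γ n q) := GS q i ⊓ Stab (ee q i)

lemma GS_phi (i : ℕ) (g : Γ n q) (h : g ∈ GS q i) : phi q g ∈ GS q (i + 1) :=
  ⟨top g.π, h, rfl⟩

lemma AS_phi (i : ℕ) (g : Γ n q) (h : g ∈ AS q i) : phi q g ∈ AS q (i + 1) := by
  refine ⟨GS_phi q i g h.1, funext fun x => ?_⟩
  have h0 : g.v = 0 := by
    funext y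
    simpa [act] using congrFun (show act g 0 = 0 from h.2) y
  show L q g.v x + 0 = 0
  rw [h0]
  cases x <;> simp [L]

lemma BS_phi (i : ℕ) (g : Γ n q) (h : g ∈ BS q i) : phi q g ∈ BS q (i + 1) := by
  refine ⟨GS_phi q i g h.1, ?_⟩
  show act (phi q g) (Phi q (ee q i)) = Phi q (ee q i)
  rw [act_phi, show act g (ee q i) = ee q i from h.2]

def lab (s c : ℕ) : ℕ := if c < q then (if s + c < q then s + c else s + c - q) else 0

lemma Phi_val [NeZero q] (v : X n → ZMod q) (c : ZMod n) (x : X n) :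
    (Phi q v (c :: x)).val = lab q (v x).val c.val := by
  simp only [Phi, lab]
  split_ifs with h1 h2
  · rw [ZMod.val_add, ZMod.val_natCast, Nat.mod_eq_of_lt h1, Nat.mod_eq_of_lt h2]
  · have := ZMod.val_lt (v x)
    rw [ZMod.val_add, ZMod.val_natCast, Nat.mod_eq_of_lt h1, Nat.mod_eq_sub_mod (by omega),
      Nat.mod_eq_of_lt (by omega)]
  · simp

lemma merge [NeZero q] [NeZero n] (hqn : q ≤ n) (k : ℕ) : ∀ i, ∀ g ∈ GS (n := n) q i,
    (∀ x, ee q i x = act g (ee q i) x ∨ ((ee q i x).val ≤ k ∧ (act g (ee q i) x).val ≤ k)) →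
    ∃ a ∈ lim (phi q) (AS (n := n) q), ∃ b ∈ lim (phi q) (BS (n := n) q),
      io (phi q) i g = a * b := by
  induction k with
  | zero =>
    intro i g hg h
    refine ⟨1, Subgroup.one_mem _, _, (mem_lim _ _ (BS_phi q) _).2 ⟨i, g, ⟨hg, ?_⟩, rfl⟩,
      (one_mul _).symm⟩
    funext x
    rcases h x with h | h
    · exact h.symm
    · exact ZMod.val_injective q (by omega)
  | succ k ih =>
    intro i g hg h
    set u := ee (n := n) q i with hu
    set w := act g u with hw
    let r : X n → ZMod n := fun x => ((u x).val : ZMod n) - (w x).val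
    let a : Γ n q := ⟨0, psi ⟨r, 1⟩⟩
    have ha : a ∈ AS q (i + 1) :=
      ⟨⟨⟨r, 1⟩, (Q i).one_mem, rfl⟩, funext fun x => by simp [act, a]⟩
    obtain ⟨a', ha', b, hb, e⟩ := ih (i + 1) (a⁻¹ * phi q g)
      ((GS q _).mul_mem ((GS q _).inv_mem ha.1) (GS_phi q i g hg)) (by
        intro x
        have e1 : act (a⁻¹ * phi q g) (ee q (i + 1)) x = Phi q w (psi ⟨r, 1⟩ x) := by
          rw [act_mul, show ee q (i + 1) = Phi q u from rfl, act_phi]
          simp [act, a, hw]
        rw [e1, show ee q (i + 1) = Phi q u from rfl, psi_apply]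
        cases x with
        | nil => left; rfl
        | cons c x =>
          simp only [sm, Equiv.Perm.one_apply]
          rcases h x with h | h
          · left
            simp [Phi, r, h]
          · have h1 := ZMod.val_lt c
            have h2 := ZMod.val_lt (c + r x)
            have h3 := ZMod.val_lt (u x)
            have h4 := ZMod.val_lt (w x)
            have h5 : (((w x).val + (c + r x).val : ℕ) : ZMod n) = ((u x).val + c.val : ℕ) := by
              push_cast
              simp only [ZMod.natCast_val, ZMod.cast_id', id_eq, r]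
              ring
            obtain ⟨m, hm⟩ := (Nat.modEq_iff_dvd.1 ((ZMod.natCast_eq_natCast_iff _ _ _).1 h5))
            have h6 : m = 0 ∨ m = 1 ∨ m = -1 := by
              have : m < 2 := by
                by_contra hc
                have : (n : ℤ) * 2 ≤ n * m := mul_le_mul_of_nonneg_left (by omega) (by omega)
                omega
              have : -2 < m := by
                by_contra hc
                have : (n : ℤ) * m ≤ n * (-2) := mul_le_mul_of_nonneg_left (by omega) (by omega)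
                omega
              omega
            have key : lab q (u x).val c.val = lab q (w x).val (c + r x).val ∨
                (lab q (u x).val c.val ≤ k ∧ lab q (w x).val (c + r x).val ≤ k) := by
              simp only [lab]
              rcases h6 with rfl | rfl | rfl <;> split_ifs <;> omega
            rw [← Phi_val, ← Phi_val] at key
            exact key.imp_left fun hh => ZMod.val_injective q hh)
    refine ⟨io (phi q) (i + 1) a * a',
      Subgroup.mul_mem _ ((mem_lim _ _ (AS_phi q) _).2 ⟨i + 1, a, ha, rfl⟩) ha', b, hb, ?_⟩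
    rw [mul_assoc, ← e, ← map_mul, mul_inv_cancel_left, io_phi]

end main


/-- For all distinct primes p, q there is a torsion group whose element orders are of the form p^a q^b, which is neither a p-group nor a q-group, whose finitely generated subgroups are solvable, and which equals AB for two p-subgroups A, B. -/
theorem result :
    ∀ p q : ℕ, p.Prime → q.Prime → p ≠ q →
      ∃ (G : Type) (_ : Group G),
        Monoid.IsTorsion G ∧
        (∀ g : G, ∃ a b : ℕ, orderOf g = p ^ a * q ^ b) ∧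
        ¬ IsPGroup p G ∧ ¬ IsPGroup q G ∧
        (∀ s : Finset G, IsSolvable (Subgroup.closure (s : Set G))) ∧
        ∃ A B : Subgroup G, IsPGroup p A ∧ IsPGroup p B ∧
          ∀ g : G, ∃ a ∈ A, ∃ b ∈ B, g = a * b := by
  intro p q hp hq hpq
  have : NeZero q := ⟨hq.ne_zero⟩
  have : NeZero (p ^ q) := ⟨pow_ne_zero _ hp.ne_zero⟩
  have hlt : q < p ^ q := Nat.lt_pow_self hp.one_lt
  have hcop : ∀ a b, Nat.Coprime (p ^ a) (q ^ b) := fun a b =>
    Nat.Coprime.pow a b ((Nat.coprime_primes hp hq).2 hpq)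
  let GG := lim (phi (n := p ^ q) q) (GS q)
  have hinj := io_inj (phi (n := p ^ q) q) (phi_inj q hq.pos)
  have hpow : ∀ g : GG, ∃ k, g ^ (p ^ k * q) = 1 := by
    intro g
    obtain ⟨i, x, hx, e⟩ := (mem_lim _ _ (GS_phi q) _).1 g.2
    refine ⟨q * i, Subtype.ext ?_⟩
    rw [SubmonoidClass.coe_pow, ← e, ← map_pow, pow_mul p,
      pow_eq_one (Q_pow i _ hx) (fun a => by simp), map_one]
    rfl
  have hP : ∀ (S : ℕ → Subgroup (Γ (p ^ q) q)) (w : ℕ → X (p ^ q) → ZMod q),
      (∀ i, S i = GS q i ⊓ Stab (w i)) → (∀ i, ∀ g ∈ S i, phi q g ∈ S (i + 1)) →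
      IsPGroup p ((lim (phi q) S).subgroupOf GG) := by
    intro S w h1 h2 g
    obtain ⟨i, x, hx, e⟩ := (mem_lim _ _ h2 _).1 g.2
    rw [h1] at hx
    refine ⟨q * i, Subtype.ext (Subtype.ext ?_)⟩
    have e' : io (phi q) i x = ((g : GG) : Gm (Γ (p ^ q) q)) := e
    rw [SubmonoidClass.coe_pow, SubmonoidClass.coe_pow, ← e', ← map_pow, pow_mul,
      Stab_pow hx.2 (Q_pow i _ hx.1), map_one]
    rfl
  refine ⟨GG, inferInstance, fun g => ?_, fun g => ?_, fun h => ?_, fun h => ?_,
    lim_solv _ _ (GS_phi q) (fun i => solv_of _ (Q_solv i)),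
    (lim (phi q) (AS q)).subgroupOf GG, (lim (phi q) (BS q)).subgroupOf GG,
    hP _ (fun _ => 0) (fun _ => rfl) (AS_phi q), hP _ (ee q) (fun _ => rfl) (BS_phi q),
    fun g => ?_⟩
  · obtain ⟨k, hk⟩ := hpow g
    exact isOfFinOrder_iff_pow_eq_one.2 ⟨_, Nat.mul_pos (pow_pos hp.pos k) hq.pos, hk⟩
  · obtain ⟨k, hk⟩ := hpow g
    obtain ⟨d1, d2, h1, h2, h3⟩ := (Nat.dvd_mul).1 (orderOf_dvd_of_pow_eq_one hk)
    obtain ⟨a, -, rfl⟩ := (Nat.dvd_prime_pow hp).1 h1
    obtain ⟨b, -, rfl⟩ := (Nat.dvd_prime_pow hq (m := 1)).1 (by simpa using h2)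
    exact ⟨a, b, h3.symm⟩
  · let g0 : Γ (p ^ q) q := ⟨fun _ => 1, 1⟩
    obtain ⟨k, hk⟩ := h ⟨io (phi q) 0 g0, (mem_lim _ _ (GS_phi q) _).2
      ⟨0, g0, (Q 0).one_mem, rfl⟩⟩
    have h2 : g0 ^ p ^ k = 1 := hinj 0 (by rw [map_pow, map_one]; exact congrArg Subtype.val hk)
    have h3 : g0 ^ q ^ 1 = 1 := by
      have := pow_eq_one (g := g0) (k := 1) (m := q) rfl (fun a => by simp)
      simpa using this
    have h4 : g0 = 1 := by
      rw [← orderOf_eq_one_iff]
      exact Nat.eq_one_of_dvd_coprimes (hcop k 1) (orderOf_dvd_of_pow_eq_one h2)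
        (orderOf_dvd_of_pow_eq_one h3)
    have : Fact (1 < q) := ⟨hq.one_lt⟩
    exact one_ne_zero (congrArg (fun z : Γ (p ^ q) q => z.v []) h4)
  · let g0 : Γ (p ^ q) q := ⟨0, psi ⟨fun _ => 1, 1⟩⟩
    have hg0 : g0 ∈ AS q 1 :=
      ⟨⟨⟨fun _ => 1, 1⟩, (Q 0).one_mem, rfl⟩, funext fun x => by simp [act, g0]⟩
    obtain ⟨k, hk⟩ := h ⟨io (phi q) 1 g0, (mem_lim _ _ (GS_phi q) _).2 ⟨1, g0, hg0.1, rfl⟩⟩
    have h2 : g0 ^ q ^ k = 1 := hinj 1 (by rw [map_pow, map_one]; exact congrArg Subtype.val hk)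
    have h3 : g0 ^ p ^ (q * 1) = 1 := by
      rw [pow_mul]; exact Stab_pow hg0.2 (Q_pow 1 _ hg0.1)
    have h4 : g0 = 1 := by
      rw [← orderOf_eq_one_iff]
      exact Nat.eq_one_of_dvd_coprimes (hcop _ k) (orderOf_dvd_of_pow_eq_one h3)
        (orderOf_dvd_of_pow_eq_one h2)
    have : Fact (1 < p ^ q) := ⟨by have := hq.pos; omega⟩
    have h5 : [(0 : ZMod (p ^ q)) + 1] = [0] := congrArg (fun z : Γ (p ^ q) q => z.π [0]) h4
    simp at h5
  · obtain ⟨i, x, hx, e⟩ := (mem_lim _ _ (GS_phi q) _).1 g.2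
    obtain ⟨a, ha, b, hb, hab⟩ := merge q hlt.le q i x hx
      (fun y => Or.inr ⟨(ZMod.val_lt _).le, (ZMod.val_lt _).le⟩)
    have hle : ∀ S : ℕ → Subgroup (Γ (p ^ q) q), (∀ i, S i ≤ GS q i) → lim (phi q) S ≤ GG :=
      fun S hS => iSup_mono fun i => Subgroup.map_mono (hS i)
    exact ⟨⟨a, hle _ (fun _ => inf_le_left) ha⟩, ha, ⟨b, hle _ (fun _ => inf_le_left) hb⟩, hb,
      Subtype.ext (e.symm.trans hab)⟩

end Pool.Agent.S00865
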