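import Pool.Statements.S00882

set_option autoImplicit false
open Pool Pool.MP_1e7c77_al

namespace Pool.Agent.S00882

def u (p : ℤ × ℚ) : ℤ × ℚ :=
  if p.1 % 2 = 0 then (p.1, p.2 + 1) else if p.2 < 1 then (p.1, p.2 / (1 - p.2))
    else (p.1 + 1, 1 - 1 / p.2)

def d (p : ℤ × ℚ) : ℤ × ℚ := if p.1 % 2 = 0 then (p.1, 2 * p.2) else (p.1, p.2 / 2)

def b (p : ℤ × ℚ) : ℤ × ℚ := (p.1 + 1, p.2)

theorem u0 {k : ℤ} (s : ℚ) (h : k % 2 = 0) : u (k, s) = (k, s + 1) := by simp [u, h]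
theorem u1 {k : ℤ} {s : ℚ} (h : k % 2 = 1) (h' : s < 1) : u (k, s) = (k, s / (1 - s)) := by
  simp [u, h, h']
theorem u2 {k : ℤ} {s : ℚ} (h : k % 2 = 1) (h' : 1 ≤ s) : u (k, s) = (k + 1, 1 - 1 / s) := by
  simp [u, h, h'.not_gt]
theorem d0 {k : ℤ} (s : ℚ) (h : k % 2 = 0) : d (k, s) = (k, 2 * s) := by simp [d, h]
theorem d1 {k : ℤ} (s : ℚ) (h : k % 2 = 1) : d (k, s) = (k, s / 2) := by simp [d, h]

theorem r1 (p : ℤ × ℚ) : d (b (d p)) = b p := by
  obtain ⟨k, s⟩ := p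
  rcases Int.emod_two_eq_zero_or_one k with h | h
  · rw [d0 _ h, b, d1 _ (by omega)]; simp [b]
  · rw [d1 _ h, b, d0 _ (by omega)]; simp [b]; ring

theorem r2 (p : ℤ × ℚ) : d (u p) = u (u (d p)) := by
  obtain ⟨k, s⟩ := p
  rcases Int.emod_two_eq_zero_or_one k with h | h
  · rw [u0 _ h, d0 _ h, d0 _ h, u0 _ h, u0 _ h]; congr 1; ring
  · rw [d1 _ h]
    rcases lt_or_ge s 1 with h1 | h1
    · have : 0 < 1 - s / 2 := by linarith
      have : 0 < 1 - s := by linarith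
      have : 0 < 2 - s := by linarith
      rw [u1 h h1, d1 _ h, u1 h (by linarith), u1 h (by rw [div_lt_one ‹_›]; linarith)]
      congr 1
      have e : 1 - s / 2 / (1 - s / 2) = (1 - s) / (1 - s / 2) := by field_simp; ring
      rw [e]; field_simp
    · rw [u2 h h1, d0 _ (by omega)]
      rcases lt_or_ge s 2 with h2 | h2
      · have : 0 < 1 - s / 2 := by linarith
        rw [u1 h (by linarith), u2 h (by rw [one_le_div ‹_›]; linarith)]
        congr 1; field_simp; ring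
      · rw [u2 h (by linarith), u0 _ (by omega)]
        congr 1; field_simp; ring

theorem b0 (k : ℤ) (s : ℚ) : b (k, s) = (k + 1, s) := rfl

theorem r3 (p : ℤ × ℚ) (hp : 0 ≤ p.2) : b (u (b (u (b (u p))))) = b (b (b (b p))) := by
  obtain ⟨k, s⟩ := p
  simp only at hp
  rcases Int.emod_two_eq_zero_or_one k with h | h
  · have : 0 < 1 / (s + 1) := by positivity
    rw [u0 _ h, b0 k, u2 (k := k + 1) (s := s + 1) (by omega) (by linarith), b0 (k + 1 + 1),
      u1 (k := k + 1 + 1 + 1) (s := 1 - 1 / (s + 1)) (by omega) (by linarith)]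
    simp only [b0]
    congr 1; field_simp; ring
  · rcases lt_or_ge s 1 with h1 | h1
    · have : 0 < 1 - s := by linarith
      have : 0 ≤ s / (1 - s) := by positivity
      rw [u1 h h1, b0 k, u0 (k := k + 1) _ (by omega), b0 (k + 1),
        u2 (k := k + 1 + 1) (s := s / (1 - s) + 1) (by omega) (by linarith)]
      simp only [b0]
      congr 1
      have e : s / (1 - s) + 1 = 1 / (1 - s) := by field_simp; ring
      rw [e]; simp
    · have : 0 < 1 / s := by positivity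
      rw [u2 h h1, b0 (k + 1), u1 (k := k + 1 + 1) (s := 1 - 1 / s) (by omega) (by linarith),
        b0 (k + 1 + 1), u0 (k := k + 1 + 1 + 1) _ (by omega)]
      simp only [b0]
      congr 1; field_simp; ring

theorem r4 (p : ℤ × ℚ) : d (b (b p)) = b (b (d p)) := by
  obtain ⟨k, s⟩ := p
  have : (k + 1 + 1) % 2 = k % 2 := by omega
  simp only [d, b, this]
  split_ifs <;> rfl

theorem r5 (p : ℤ × ℚ) : u (b (b p)) = b (b (u p)) := by
  obtain ⟨k, s⟩ := p
  have : (k + 1 + 1) % 2 = k % 2 := by omega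
  simp only [u, b, this]
  split_ifs <;> rfl

abbrev X := {p : ℤ ×ₗ ℚ // 0 ≤ (ofLex p).2}

theorem X_lt (p q : X) : p < q ↔
    (ofLex p.1).1 < (ofLex q.1).1 ∨ (ofLex p.1).1 = (ofLex q.1).1 ∧ (ofLex p.1).2 < (ofLex q.1).2 :=
  Prod.Lex.lt_iff

def bb : X → X := fun p => ⟨toLex (b (ofLex p.1)), p.2⟩

def dd : X → X := fun p => ⟨toLex (d (ofLex p.1)), by
  have := p.2
  simp only [ofLex_toLex, d]
  split_ifs <;> positivity⟩

def uu : X → X := fun p => ⟨toLex (u (ofLex p.1)), by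
  have := p.2
  simp only [ofLex_toLex, u]
  split_ifs with h1 h2
  · positivity
  · exact div_nonneg this (by linarith)
  · exact sub_nonneg.2 ((div_le_one (by linarith)).2 (by linarith))⟩

theorem bb_surj : Function.Surjective bb := fun p =>
  ⟨⟨toLex ((ofLex p.1).1 - 1, (ofLex p.1).2), p.2⟩, Subtype.ext (by simp [bb, b])⟩

theorem bb_mono : StrictMono bb := fun p q h => by
  rw [X_lt] at *
  simpa [bb, b] using h

theorem dd_mono : StrictMono dd := by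
  rintro ⟨⟨k, s⟩, hs⟩ ⟨⟨k', s'⟩, hs'⟩ h
  rw [X_lt] at *
  change k < k' ∨ k = k' ∧ s < s' at h
  change (d (k, s)).1 < (d (k', s')).1 ∨ (d (k, s)).1 = (d (k', s')).1 ∧
    (d (k, s)).2 < (d (k', s')).2
  simp only [d]
  rcases h with h | ⟨rfl, h⟩
  · left; split_ifs <;> exact h
  · right; split_ifs <;> exact ⟨rfl, by simp only; linarith⟩

theorem uu_mono : StrictMono uu := by
  rintro ⟨⟨k, s⟩, hs⟩ ⟨⟨k', s'⟩, hs'⟩ h
  rw [X_lt] at *
  change k < k' ∨ k = k' ∧ s < s' at h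
  change 0 ≤ s at hs
  change 0 ≤ s' at hs'
  change (u (k, s)).1 < (u (k', s')).1 ∨ (u (k, s)).1 = (u (k', s')).1 ∧
    (u (k, s)).2 < (u (k', s')).2
  simp only [u]
  rcases h with h | ⟨rfl, h⟩
  · split_ifs with a1 a2 a3 a4 a5 a6 a7 a8 <;> try (left; simp only; omega)
    have : 0 < 1 / s := one_div_pos.2 (by linarith)
    rcases (show k + 1 < k' ∨ k + 1 = k' by omega) with e | e
    · exact Or.inl e
    · exact Or.inr ⟨e, by simp only; linarith⟩
  · split_ifs with a1 a2 a3 a4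
    · exact Or.inr ⟨rfl, by simp only; linarith⟩
    · exact Or.inr ⟨rfl, by
        simp only; rw [div_lt_div_iff₀ (by linarith) (by linarith)]; linarith⟩
    · exact Or.inl (by simp)
    · linarith
    · exact Or.inr ⟨rfl, sub_lt_sub_left (one_div_lt_one_div_of_lt (by linarith) h) _⟩

noncomputable def B : X ≃o X := bb_mono.orderIsoOfSurjective _ bb_surj

noncomputable def D : X ≃o X := dd_mono.orderIsoOfSurjective _ fun p => by
  obtain ⟨q, rfl⟩ := bb_surj p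
  exact ⟨bb (dd q), Subtype.ext (congrArg toLex (r1 _))⟩

noncomputable def U : X ≃o X := uu_mono.orderIsoOfSurjective _ fun p => by
  obtain ⟨q, rfl⟩ := (bb_surj.comp (bb_surj.comp bb_surj)) p
  exact ⟨bb (uu (bb (uu q))), bb_mono.injective (Subtype.ext (congrArg toLex (r3 _ q.2)))⟩

abbrev Γ := Subgroup.centralizer ({B * B} : Set (X ≃o X))

theorem memΓ {f : X ≃o X} (h : ∀ p, f (bb (bb p)) = bb (bb (f p))) : f ∈ Γ := by
  rintro _ rfl
  exact RelIso.ext fun p => (h p).symm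

noncomputable def B' : Γ := ⟨B, memΓ fun _ => rfl⟩
noncomputable def D' : Γ := ⟨D, memΓ fun _ => Subtype.ext (congrArg toLex (r4 _))⟩
noncomputable def U' : Γ := ⟨U, memΓ fun _ => Subtype.ext (congrArg toLex (r5 _))⟩
noncomputable def z : Γ := B' * B'

theorem zc (g : Γ) : Commute z g := Subtype.ext (g.2 _ rfl)

theorem R1 : D' * B' * D' = B' :=
  Subtype.ext (RelIso.ext fun _ => Subtype.ext (congrArg toLex (r1 _)))
theorem R2 : D' * U' = U' * U' * D' :=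
  Subtype.ext (RelIso.ext fun _ => Subtype.ext (congrArg toLex (r2 _)))
theorem R3 : B' * U' * B' * U' * B' * U' = B' * B' * B' * B' :=
  Subtype.ext (RelIso.ext fun p => Subtype.ext (congrArg toLex (r3 _ p.2)))

def Cone {G : Type} [Group G] (P : Set G) : Prop :=
  (∀ a ∈ P, ∀ b ∈ P, a * b ∈ P) ∧ (1 : G) ∉ P ∧ (∀ a : G, a ≠ 1 → (a ∈ P ↔ a⁻¹ ∉ P))

theorem coneΓ : ∃ P : Set Γ, Cone P ∧ z ∈ P := by
  let r : X → X → Prop := WellOrderingRel
  let P : Set Γ := {f | ∃ x, x < f.1 x ∧ ∀ y, r y x → f.1 y = y}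
  have hm : ∀ a ∈ P, ∀ b ∈ P, a * b ∈ P := by
    rintro f ⟨x, h1, h2⟩ g ⟨y, h3, h4⟩
    rcases trichotomous_of r x y with h | rfl | h
    · exact ⟨x, by simpa [h4 x h] using h1, fun w hw => by
        simp [h4 w (trans_of r hw h), h2 w hw]⟩
    · exact ⟨x, h1.trans (f.1.strictMono h3), fun w hw => by simp [h4 w hw, h2 w hw]⟩
    · exact ⟨y, (h2 y h).ge.trans_lt (f.1.strictMono h3), fun w hw => by
        simp [h4 w hw, h2 w (trans_of r hw h)]⟩
  have h1 : (1 : Γ) ∉ P := by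
    rintro ⟨x, h, -⟩
    exact lt_irrefl x h
  have key : ∀ f : Γ, f ≠ 1 → ∃ x, f.1 x ≠ x ∧ ∀ y, r y x → f.1 y = y := by
    intro f hf
    have : {x | f.1 x ≠ x}.Nonempty := by
      by_contra h
      exact hf (Subtype.ext (RelIso.ext fun x => by
        by_contra h'; exact h ⟨x, h'⟩))
    obtain ⟨x, hx, h⟩ := (IsWellFounded.wf (r := r)).has_min _ this
    exact ⟨x, hx, fun y hy => by by_contra h'; exact h y h' hy⟩
  refine ⟨P, ⟨hm, h1, fun a ha => ⟨fun h h' => h1 (by simpa using hm _ h _ h'), fun h => ?_⟩⟩, ?_⟩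
  · obtain ⟨x, h2, h3⟩ := key a ha
    rcases h2.lt_or_gt with h4 | h4
    · refine (h ⟨x, ?_, fun y hy => ?_⟩).elim
      · exact a.1.lt_symm_apply.2 h4
      · exact a.1.symm_apply_eq.2 (h3 y hy).symm
    · exact ⟨x, h4, h3⟩
  · have hz : ∀ x, x < z.1 x := fun x => (X_lt _ _).2 (Or.inl (by
      change _ < (ofLex x.1).1 + 1 + 1; omega))
    obtain ⟨x, -, h3⟩ := key z fun h => by
      have := hz ⟨toLex (0, 0), le_rfl⟩
      rw [h] at this
      exact lt_irrefl _ this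
    exact ⟨x, hz x, h3⟩

theorem core {H : Type} [Group H] {R : Set H} (hR : Cone R) {w x β δ υ : H} (hw : w ∈ R)
    (wc : ∀ g, Commute w g) (xc : ∀ g, Commute x g) (h0 : β * β * (x * x) = w)
    (h1 : δ * β * δ = β) (h2 : δ * υ = υ * υ * δ) (h3 : β * υ * β * υ * β * υ = β * β * β * β) :
    ∃ m : ℕ, (β * β)⁻¹ * w ^ m ∈ R := by
  have hm : ∀ a b : H, (∃ m : ℕ, a⁻¹ * w ^ m ∈ R) → (∃ m : ℕ, b⁻¹ * w ^ m ∈ R) →
      ∃ m : ℕ, (a * b)⁻¹ * w ^ m ∈ R := by
    rintro a b ⟨m, h⟩ ⟨n, h'⟩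
    refine ⟨n + m, ?_⟩
    have := hR.1 _ h' _ h
    rwa [mul_assoc, ← mul_assoc (w ^ n), ((wc _).pow_left n).eq, mul_assoc, ← pow_add,
      ← mul_assoc, ← mul_inv_rev] at this
  have hs : ∀ a : H, (∃ m : ℕ, (a * a)⁻¹ * w ^ m ∈ R) → ∃ m : ℕ, a⁻¹ * w ^ m ∈ R := by
    rintro a ⟨m, h⟩
    by_cases e : a = 1
    · exact ⟨1, by simpa [e] using hw⟩
    by_cases e' : a⁻¹ ∈ R
    · exact ⟨1, by simpa using hR.1 _ e' _ hw⟩
    · exact ⟨m, by simpa [mul_assoc] using hR.1 _ ((hR.2.2 a e).2 e') _ h⟩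
  let C : Subgroup H :=
    { carrier := {a | (∃ m : ℕ, a⁻¹ * w ^ m ∈ R) ∧ ∃ m : ℕ, a⁻¹⁻¹ * w ^ m ∈ R}
      one_mem' := ⟨⟨1, by simpa using hw⟩, ⟨1, by simpa using hw⟩⟩
      mul_mem' := fun {a b} ha hb => ⟨hm _ _ ha.1 hb.1, by
        rw [mul_inv_rev]; exact hm _ _ hb.2 ha.2⟩
      inv_mem' := fun {a} ha => ⟨ha.2, by rw [inv_inv a]; exact ha.1⟩ }
  let π := QuotientGroup.mk' C.normalCore
  have sq : ∀ a : H, π a * π a = 1 → π a = 1 := by
    intro a ha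
    rw [← map_mul] at ha
    refine (QuotientGroup.eq_one_iff _).2 fun g => ?_
    have := (QuotientGroup.eq_one_iff _).1 ha g
    have e : g * (a * a) * g⁻¹ = (g * a * g⁻¹) * (g * a * g⁻¹) := by group
    rw [e] at this
    exact ⟨hs _ this.1, hs _ (by rw [← mul_inv_rev]; exact this.2)⟩
  have pw : π w = 1 := (QuotientGroup.eq_one_iff _).2 fun g => by
    rw [← (wc g).eq, mul_inv_cancel_right]
    exact ⟨⟨2, by simpa [pow_two] using hw⟩, ⟨0, by simpa using hw⟩⟩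
  have e1 : π (β * x) = 1 := sq _ (by
    rw [← map_mul, ← pw, ← h0, mul_assoc, mul_assoc, ← mul_assoc x, (xc β).eq, mul_assoc])
  have e2 : π δ = 1 := sq _ (by
    have a1 := congrArg π h1
    have a2 := congrArg π (xc δ).eq
    rw [map_mul, mul_eq_one_iff_eq_inv] at e1
    simp only [map_mul, e1] at a1 a2
    calc π δ * π δ = π δ * (π x)⁻¹ * (π x * π δ) := by group
      _ = π δ * (π x)⁻¹ * π δ * π x := by rw [a2, ← mul_assoc]
      _ = 1 := by rw [a1]; simp)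
  have e3 : π υ = 1 := by simpa [e2] using congrArg π h2
  have e4 : π β = 1 := by simpa [e3] using congrArg π h3
  have : β * β ∈ C := C.normalCore_le ((QuotientGroup.eq_one_iff _).1
    (show π _ = 1 by simp [e4]))
  exact this.1

@[ext] structure GG where
  g : Γ
  i : ℤ
  j : ℤ

noncomputable instance : Mul GG :=
  ⟨fun a c => ⟨a.g * c.g * z ^ (a.j * c.i), a.i + c.i, a.j + c.j⟩⟩
instance : One GG := ⟨⟨1, 0, 0⟩⟩
noncomputable instance : Inv GG := ⟨fun a => ⟨a.g⁻¹ * z ^ (a.j * a.i), -a.i, -a.j⟩⟩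

theorem GG.mul_def (a c : GG) :
  a * c = ⟨a.g * c.g * z ^ (a.j * c.i), a.i + c.i, a.j + c.j⟩ := rfl
theorem GG.one_def : (1 : GG) = ⟨1, 0, 0⟩ := rfl
theorem GG.inv_def (a : GG) : a⁻¹ = ⟨a.g⁻¹ * z ^ (a.j * a.i), -a.i, -a.j⟩ := rfl

theorem zz (n : ℤ) (g h : Γ) : z ^ n * (g * h) = g * (z ^ n * h) := by
  rw [← mul_assoc, ((zc g).zpow_left n).eq, mul_assoc]

noncomputable instance : Group GG := Group.ofLeftAxioms
  (fun a c e => by
    simp only [GG.mul_def, mul_assoc, add_assoc, zz _ e.g, ← zpow_add]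
    congr 3; ring)
  (fun a => by simp [GG.mul_def, GG.one_def])
  (fun a => by simp [GG.mul_def, GG.one_def, GG.inv_def, mul_assoc, zz _ a.g])

@[ext] structure HH where
  n : ℚ
  i : ℚ
  j : ℚ

instance : Mul HH := ⟨fun a c => ⟨a.n + c.n + a.j * c.i, a.i + c.i, a.j + c.j⟩⟩
instance : One HH := ⟨⟨0, 0, 0⟩⟩
instance : Inv HH := ⟨fun a => ⟨-a.n + a.j * a.i, -a.i, -a.j⟩⟩

theorem HH.mul_def (a c : HH) : a * c = ⟨a.n + c.n + a.j * c.i, a.i + c.i, a.j + c.j⟩ := rfl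
theorem HH.one_def : (1 : HH) = ⟨0, 0, 0⟩ := rfl
theorem HH.inv_def (a : HH) : a⁻¹ = ⟨-a.n + a.j * a.i, -a.i, -a.j⟩ := rfl

instance : Group HH := Group.ofLeftAxioms
  (fun a c e => by simp only [HH.mul_def]; congr 1 <;> ring)
  (fun a => by simp [HH.mul_def, HH.one_def])
  (fun a => by simp [HH.mul_def, HH.one_def, HH.inv_def])

theorem HH.pow_def (a : HH) (m : ℕ) :
    a ^ m = ⟨m * a.n + m * (m - 1) / 2 * (a.j * a.i), m * a.i, m * a.j⟩ := by
  induction m with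
  | zero => simp [HH.one_def]
  | succ m ih => rw [pow_succ, ih, HH.mul_def]; push_cast; congr 1 <;> ring

theorem HH.nil : Group.IsNilpotent HH := by
  let f : HH →* Multiplicative (ℚ × ℚ) :=
    MonoidHom.mk' (fun a => Multiplicative.ofAdd (a.i, a.j)) fun _ _ => rfl
  refine Subgroup.isNilpotent_of_ker_le_center f
    (fun a ha => Subgroup.mem_center_iff.2 fun c => ?_)
  obtain ⟨h1, h2⟩ : a.i = 0 ∧ a.j = 0 := Prod.ext_iff.1 ha
  simp [HH.mul_def, h1, h2, add_comm]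

noncomputable def e (g : Γ) : ℤ := (ofLex (g.1 ⟨toLex (0, 0), le_rfl⟩).1).1 / 2

theorem e_z (n : ℤ) : e (z ^ n) = n := by
  have : ∀ p : X, (ofLex ((z ^ n).1 p).1).1 = (ofLex p.1).1 + 2 * n := by
    induction n using Int.induction_on with
    | zero => simp
    | succ n ih =>
      intro p
      rw [zpow_add_one]
      exact (ih (z.1 p)).trans (by change (ofLex p.1).1 + 1 + 1 + _ = _; ring)
    | pred n ih =>
      intro p
      obtain ⟨p, rfl⟩ := z.1.surjective p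
      have : (z ^ (-(n : ℤ) - 1)).1 (z.1 p) = (z ^ (-(n : ℤ) - 1) * z).1 p := rfl
      rw [this, ← zpow_add_one, sub_add_cancel, ih]
      change _ = (ofLex p.1).1 + 1 + 1 + _
      ring
  rw [e, this]
  simp

def NN : Subgroup GG where
  carrier := {a | ∃ n : ℤ, z ^ n = a.g}
  one_mem' := ⟨0, rfl⟩
  mul_mem' := by
    rintro a c ⟨n, h⟩ ⟨m, h'⟩
    exact ⟨n + m + a.j * c.i, by rw [zpow_add, zpow_add, h, h']; rfl⟩
  inv_mem' := by
    rintro a ⟨n, h⟩
    exact ⟨-n + a.j * a.i, by rw [zpow_add, zpow_neg, h]; rfl⟩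

theorem NN_ex (a : NN) : ∃ n i j : ℤ, a = ⟨⟨z ^ n, i, j⟩, n, rfl⟩ := by
  obtain ⟨n, h⟩ := a.2
  exact ⟨n, a.1.i, a.1.j, Subtype.ext (GG.ext h.symm rfl rfl)⟩

noncomputable def ι : NN →* HH := MonoidHom.mk' (fun a => ⟨e a.1.g, a.1.i, a.1.j⟩) (by
  intro a c
  obtain ⟨n, i, j, rfl⟩ := NN_ex a
  obtain ⟨n', i', j', rfl⟩ := NN_ex c
  simp [GG.mul_def, HH.mul_def, ← zpow_add, e_z])

theorem ι_def (n i j : ℤ) : ι ⟨⟨z ^ n, i, j⟩, n, rfl⟩ = ⟨n, i, j⟩ := by simp [ι, e_z]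

theorem ι_inj : Function.Injective ι := by
  intro a c h
  obtain ⟨n, i, j, rfl⟩ := NN_ex a
  obtain ⟨n', i', j', rfl⟩ := NN_ex c
  have := (ι_def n i j).symm.trans (h.trans (ι_def n' i' j'))
  simp only [HH.mk.injEq, Int.cast_inj] at this
  obtain ⟨rfl, rfl, rfl⟩ := this
  rfl

theorem cone_of {G : Type} [Group G] {P : Set G} (h1 : ∀ a ∈ P, ∀ b ∈ P, a * b ∈ P)
    (h2 : (1 : G) ∉ P) (h3 : ∀ a : G, a⁻¹ ∉ P → a ∉ P → a = 1) : Cone P :=
  ⟨h1, h2, fun a ha => ⟨fun h h' => h2 (by simpa using h1 _ h _ h'), fun h => by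
    by_contra h'; exact ha (h3 a h h')⟩⟩

/-- The negation of the preceding statement: Take a group G with a right-order cone P, a nilpotent subgroup N, its minimal divisible completion N# with a cone extending P∩N, and g in N#. Then the cone on N cut out by the g-conjugate of that cone is the restriction of some right-order cone on G. -/
theorem result :
    ¬ (∀ (G : Type) [Group G] (N : Subgroup G), Group.IsNilpotent N →
    ∀ (P : Set G),
      ((∀ a ∈ P, ∀ b ∈ P, a * b ∈ P) ∧ (1 : G) ∉ P ∧ (∀ a : G, a ≠ 1 → (a ∈ P ↔ a⁻¹ ∉ P))) →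
    ∀ (H : Type) [Group H], Group.IsNilpotent H →
      (∀ h : H, ∀ n : ℕ, 0 < n → ∃ x : H, x ^ n = h) →
    ∀ (ι : N →* H), Function.Injective ι →
      (∀ h : H, ∃ n : ℕ, 0 < n ∧ h ^ n ∈ ι.range) →
    ∀ (Q : Set H),
      ((∀ a ∈ Q, ∀ b ∈ Q, a * b ∈ Q) ∧ (1 : H) ∉ Q ∧ (∀ a : H, a ≠ 1 → (a ∈ Q ↔ a⁻¹ ∉ Q))) →
      (∀ x : N, ι x ∈ Q ↔ (x : G) ∈ P) →
    ∀ g : H, ∃ R : Set G,
      ((∀ a ∈ R, ∀ b ∈ R, a * b ∈ R) ∧ (1 : G) ∉ R ∧ (∀ a : G, a ≠ 1 → (a ∈ R ↔ a⁻¹ ∉ R))) ∧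
      (∀ x : N, (x : G) ∈ R ↔ g⁻¹ * ι x * g ∈ Q)) := by
  intro h
  obtain ⟨P, hP, hz⟩ := coneΓ
  have zp : ∀ n : ℕ, z ^ ((n : ℤ) + 1) ∈ P := by
    intro n
    induction n with
    | zero => simpa using hz
    | succ n ih => push_cast; rw [zpow_add_one]; exact hP.1 _ ih _ hz
  have z1 : ∀ n : ℤ, z ^ n = 1 ↔ n = 0 := fun n =>
    ⟨fun h => by rw [← e_z n, h, ← zpow_zero z, e_z], fun h => by simp [h]⟩
  have zP : ∀ n : ℤ, z ^ n ∈ P ↔ 0 < n := by
    intro n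
    refine ⟨fun h => ?_, fun h => ?_⟩
    · by_contra h'
      have := hP.1 _ h _ (zp (-n).toNat)
      have h2 := (hP.2.2 _ (fun e => hP.2.1 (e ▸ h))).1 h
      rcases (not_lt.1 h').lt_or_eq with h3 | rfl
      · apply h2
        convert zp (-n - 1).toNat using 1
        rw [← zpow_neg]; congr 1; omega
      · exact hP.2.1 (by simpa using h)
    · convert zp (n - 1).toNat using 2; omega
  have := HH.nil
  refine (h GG NN
    (Subgroup.isNilpotent_of_ker_le_center ι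
      (by rw [(MonoidHom.ker_eq_bot_iff _).2 ι_inj]; exact bot_le))
    {a | 0 < a.j ∨ a.j = 0 ∧ (a.g ∈ P ∨ a.g = 1 ∧ 0 < a.i)} (cone_of ?_ ?_ ?_) HH HH.nil ?_ ι ι_inj
    ?_ {a | 0 < a.j ∨ a.j = 0 ∧ (0 < a.n ∨ a.n = 0 ∧ 0 < a.i)} (cone_of ?_ ?_ ?_) ?_
    ⟨0, 0, 1 / 2⟩).elim fun R ⟨hR, hx⟩ => ?_
  rotate_right
  · let ψ : Γ × Multiplicative ℤ →* GG := MonoidHom.mk' (fun a => ⟨a.1, a.2.toAdd, 0⟩)
      fun a c => by simp [GG.mul_def]
    have hψ : Function.Injective ψ := fun a c h =>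
      Prod.ext (congrArg GG.g h) (congrArg GG.i h)
    have key : ∀ n i : ℤ, ψ (z ^ n, Multiplicative.ofAdd i) ∈ R ↔
        0 < 2 * n - i ∨ 2 * n - i = 0 ∧ 0 < i := by
      intro n i
      refine (hx ⟨⟨z ^ n, i, 0⟩, n, rfl⟩).trans ?_
      rw [ι_def]
      have a1 : (0 : ℚ) < n + -(2⁻¹ * i) ↔ 0 < 2 * n - i := by
        rw [← Int.cast_pos (R := ℚ)]; push_cast
        constructor <;> intro <;> linarith
      have a2 : (n : ℚ) + -(2⁻¹ * i) = 0 ↔ 2 * n - i = 0 := by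
        rw [← Int.cast_inj (α := ℚ)]; push_cast
        constructor <;> intro <;> linarith
      simp only [HH.mul_def, HH.inv_def, Set.mem_ofPred_eq]
      simp [-lt_add_neg_iff_add_lt, a1, a2]
    obtain ⟨m, hm⟩ := core (R := ψ ⁻¹' R) (w := (z ^ (1 : ℤ), Multiplicative.ofAdd 2))
      (x := (1, Multiplicative.ofAdd 1)) (β := (B', 1)) (δ := (D', 1)) (υ := (U', 1))
      ⟨fun a ha c hc => by simpa using hR.1 _ ha _ hc, by simpa using hR.2.1, fun a ha => by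
        simpa using hR.2.2 (ψ a) fun e => ha (hψ (e.trans ψ.map_one.symm))⟩
      ((key 1 2).2 (by simp)) (fun g => Prod.ext ((zc g.1).zpow_left 1).eq (mul_comm _ _))
      (fun g => Prod.ext (by simp) (mul_comm _ _)) (Prod.ext (by simp [z]) rfl)
      (Prod.ext R1 rfl) (Prod.ext R2 rfl) (Prod.ext R3 rfl)
    have : ((B', 1) * (B', 1) : Γ × Multiplicative ℤ)⁻¹ *
        (z ^ (1 : ℤ), Multiplicative.ofAdd 2) ^ m =
          (z ^ (-1 + m : ℤ), Multiplicative.ofAdd (m * 2 : ℤ)) := by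
      refine Prod.ext ?_ ?_
      · rw [zpow_add]; simp [z]
      · apply Multiplicative.toAdd.injective
        simp [mul_comm]
    rw [this] at hm
    have := (key _ _).1 hm
    omega
  · rintro a (ha | ⟨ha, ha'⟩) c (hc | ⟨hc, hc'⟩)
    · exact Or.inl (add_pos ha hc)
    · exact Or.inl (by simpa [GG.mul_def, hc] using ha)
    · exact Or.inl (by simpa [GG.mul_def, ha] using hc)
    · refine Or.inr ⟨by simp [GG.mul_def, ha, hc], ?_⟩
      simp only [GG.mul_def, ha, zero_mul, zpow_zero, mul_one]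
      rcases ha' with h1 | ⟨h1, h2⟩ <;> rcases hc' with h3 | ⟨h3, h4⟩
      · exact Or.inl (hP.1 _ h1 _ h3)
      · exact Or.inl (by rwa [h3, mul_one])
      · exact Or.inl (by rwa [h1, one_mul])
      · exact Or.inr ⟨by rw [h1, h3, one_mul], add_pos h2 h4⟩
  · simpa [GG.one_def] using hP.2.1
  · rintro ⟨g, i, j⟩ h1 h2
    simp only [GG.inv_def, Set.mem_ofPred_eq, not_or, not_and] at h1 h2
    obtain rfl : j = 0 := by omega
    have h3 := h1.2 rfl
    have h4 := h2.2 rfl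
    simp only [zero_mul, zpow_zero, mul_one] at h3
    obtain rfl : g = 1 := by
      by_contra e
      exact h4.1 ((hP.2.2 g e).2 h3.1)
    have := h3.2 inv_one
    have := h4.2 rfl
    obtain rfl : i = 0 := by omega
    rfl
  · intro a n hn
    have : (n : ℚ) ≠ 0 := by positivity
    refine ⟨⟨(a.n - n * (n - 1) / 2 * (a.j / n * (a.i / n))) / n, a.i / n, a.j / n⟩, ?_⟩
    rw [HH.pow_def]
    ext <;> field_simp
    ring
  · intro a
    obtain ⟨c, hc, n, i, j, h1, h2, h3⟩ : ∃ c : ℕ, 0 < c ∧ ∃ n i j : ℤ,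
        c * a.n = n ∧ c * a.i = i ∧ c * a.j = j :=
      ⟨a.n.den * a.i.den * a.j.den, by positivity, a.n.num * a.i.den * a.j.den,
        a.n.den * a.i.num * a.j.den, a.n.den * a.i.den * a.j.num,
        by push_cast; rw [← Rat.mul_den_eq_num]; ring,
        by push_cast; rw [← Rat.mul_den_eq_num]; ring,
        by push_cast; rw [← Rat.mul_den_eq_num]; ring⟩
    refine ⟨2 * c * c, by positivity, ⟨⟨z ^ (2 * c * n + (2 * c * c - 1) * (j * i)), 2 * c * i,
      2 * c * j⟩, _, rfl⟩, ?_⟩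
    rw [ι_def, HH.pow_def]
    push_cast
    rw [← h1, ← h2, ← h3]
    congr 1 <;> ring
  · rintro a (ha | ⟨ha, ha'⟩) c (hc | ⟨hc, hc'⟩)
    · exact Or.inl (add_pos ha hc)
    · exact Or.inl (by simpa [HH.mul_def, hc] using ha)
    · exact Or.inl (by simpa [HH.mul_def, ha] using hc)
    · refine Or.inr ⟨by simp [HH.mul_def, ha, hc], ?_⟩
      simp only [HH.mul_def, ha, zero_mul, add_zero]
      rcases ha' with h1 | ⟨h1, h2⟩ <;> rcases hc' with h3 | ⟨h3, h4⟩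
      · exact Or.inl (add_pos h1 h3)
      · exact Or.inl (by rwa [h3, add_zero])
      · exact Or.inl (by rwa [h1, zero_add])
      · exact Or.inr ⟨by rw [h1, h3, add_zero], add_pos h2 h4⟩
  · simp [HH.one_def]
  · rintro ⟨n, i, j⟩ h1 h2
    simp only [HH.inv_def, Set.mem_ofPred_eq, not_or, not_and, not_lt] at h1 h2
    obtain rfl : j = 0 := by linarith [h1.1, h2.1]
    have h3 := h1.2 rfl
    have h4 := h2.2 rfl
    obtain rfl : n = 0 := by linarith [h3.1, h4.1]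
    obtain rfl : i = 0 := by linarith [h3.2 (by simp), h4.2 rfl]
    rfl
  · intro a
    obtain ⟨n, i, j, rfl⟩ := NN_ex a
    refine (iff_of_eq (congrArg (· ∈ _) (ι_def n i j))).trans ?_
    simp [zP, z1]

end Pool.Agent.S00882
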