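import Pool.Statements.S00960
import Pool.Agent.H22.Tod

set_option autoImplicit false
open Pool Pool.MP_2475ca_al

namespace Pool.Agent.S00960

/-- The negation of the preceding statement: There exist M < G acting on n points with M transitive, and a partition of ordered distinct pairs into k ≥ 2 classes, G-invariant, G-transitive, each fixed by M, with G inducing a non-cyclic group on the classes and some prime part of n not ≡ 1 mod k. -/
theorem result :
    ¬ (∃ (n k : ℕ) (M G : Subgroup (Equiv.Perm (Fin n))) (c : Fin n → Fin n → Fin k),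
    2 ≤ k ∧ M < G ∧
    (∀ a b : Fin n, ∃ m ∈ M, m a = b) ∧
    (∀ i : Fin k, ∃ a b : Fin n, a ≠ b ∧ c a b = i) ∧
    (∀ g ∈ G, ∃ σ : Equiv.Perm (Fin k),
      ∀ a b : Fin n, a ≠ b → c (g a) (g b) = σ (c a b)) ∧
    (∀ i j : Fin k, ∃ g ∈ G,
      ∀ a b : Fin n, a ≠ b → c a b = i → c (g a) (g b) = j) ∧
    (∀ m ∈ M, ∀ a b : Fin n, a ≠ b → c (m a) (m b) = c a b) ∧
    (¬ ∃ τ : Equiv.Perm (Fin k), ∀ g ∈ G, ∃ z : ℤ,
      ∀ a b : Fin n, a ≠ b → c (g a) (g b) = (τ ^ z) (c a b)) ∧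
    (∃ r : ℕ, r.Prime ∧ r ∣ n ∧ ¬ Nat.ModEq k (r ^ (n.factorization r)) 1)) := by
  rintro ⟨n, k, M, G, c, hk, hMG, hM, hs, hσ, hT, hMc, -, r, hr, hrn, hne⟩
  choose σ hσ using hσ
  have uniq : ∀ τ τ' : Equiv.Perm (Fin k), (∀ a b : Fin n, a ≠ b → τ (c a b) = τ' (c a b)) →
      τ = τ' := fun τ τ' h => Equiv.ext fun i => by
    obtain ⟨a, b, hab, rfl⟩ := hs i
    exact h a b hab
  let φ : G →* Equiv.Perm (Fin k) := MonoidHom.mk' (fun g => σ g.1 g.2) fun g h =>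
    uniq _ _ fun a b hab => by
      rw [← hσ _ _ a b hab, Equiv.Perm.mul_apply, ← hσ _ _ a b hab,
        ← hσ _ _ _ _ (h.1.injective.ne hab)]
      rfl
  let _ : MulAction G (Fin k) := MulAction.compHom _ φ
  have : MulAction.IsPretransitive G (Fin k) := ⟨fun i j => by
    obtain ⟨g, hg, h⟩ := hT i j
    obtain ⟨a, b, hab, rfl⟩ := hs i
    exact ⟨⟨g, hg⟩, (hσ g hg a b hab).symm.trans (h a b hab rfl)⟩⟩
  obtain ⟨a0, -⟩ := hs ⟨0, by omega⟩
  have : Nonempty (Fin n) := ⟨a0⟩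
  have : Fact r.Prime := ⟨hr⟩
  have := Pool.Agent.H22.Tod.main (Γ := G) c (fun g a b hab => hσ g.1 g.2 a b hab) (fun a b => by
    obtain ⟨m, hm, h⟩ := hM a b
    exact ⟨⟨m, hMG.le hm⟩, uniq _ _ fun a b hab =>
      (hσ m (hMG.le hm) a b hab).symm.trans (hMc m hm a b hab), h⟩) r
  simp only [Nat.card_eq_fintype_card, Fintype.card_fin] at this
  exact hne this

end Pool.Agent.S00960
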