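import Pool.Statements.S00977
import Pool.Agent.H22.FitX

set_option autoImplicit false
open Pool Pool.MP_25c7a1_al

namespace Pool.Agent.S00977

/-- Every Fitting class of finite soluble groups that contains each soluble group G=AB with A, B abnormal subgroups lying in the class is a formation, i.e. is closed under quotients and under subdirect products. -/
theorem result :
    ∀ F : (G : Type) → [Group G] → Prop,
      (∀ (G : Type) [Group G], F G → Finite G ∧ IsSolvable G) →
      (∀ (G H : Type) [Group G] [Group H], Nonempty (G ≃* H) → F G → F H) →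
      (∀ (G : Type) [Group G] (N : Subgroup G), N.Normal → F G → F ↥N) →
      (∀ (G : Type) [Group G] [Finite G] (N M : Subgroup G), N.Normal → M.Normal →
          F ↥N → F ↥M → F ↥(N ⊔ M)) →
      (∀ (G : Type) [Group G] [Finite G], IsSolvable G →
          ∀ A B : Subgroup G,
            (∀ g : G, g ∈ A ⊔ A.map (MulAut.conj g).toMonoidHom) →
            (∀ g : G, g ∈ B ⊔ B.map (MulAut.conj g).toMonoidHom) →
            F ↥A → F ↥B →
            (∀ g : G, ∃ a ∈ A, ∃ b ∈ B, a * b = g) → F G) →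
      ((∀ (G : Type) [Group G] (N : Subgroup G) [N.Normal], F G → F (G ⧸ N)) ∧
       (∀ (G : Type) [Group G] [Finite G] (N M : Subgroup G) [N.Normal] [M.Normal],
          N ⊓ M = ⊥ → F (G ⧸ N) → F (G ⧸ M) → F G)) := by
  intro F h1 h2 h3 h4 h5
  have key : ∀ (A : Type) [Group A], F A → Pool.Agent.H22.Fit.IsFit F := fun A _ hA =>
    ⟨h1, h2 _ _ ⟨MulEquiv.ofUnique⟩ (h3 A ⊥ inferInstance hA), fun G H _ _ e => h2 G H ⟨e⟩, h3, h4⟩
  have hA : Pool.Agent.H22.Fit.AF F := fun G _ _ s A B a b c d e =>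
    ⟨⊤, inferInstance, h2 _ _ ⟨Subgroup.topEquiv.symm⟩ (h5 G s A B a b c d e), le_top⟩
  refine ⟨fun G _ N _ h => Pool.Agent.H22.Fit.quotient (key G h) hA N h,
    fun G _ _ N M _ _ e a b => Pool.Agent.H22.Fit.subdirect (key _ a) hA (QuotientGroup.mk' N)
      (QuotientGroup.mk' M) (fun x u v => ?_) a b⟩
  exact e.le ⟨(QuotientGroup.eq_one_iff x).1 u, (QuotientGroup.eq_one_iff x).1 v⟩

end Pool.Agent.S00977
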