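import Pool.Statements.S00995

set_option autoImplicit false
open Pool Pool.MP_271f28_al

namespace Pool.Agent.S00995

theorem pigeon {S M : Type} (θ : S → S) (hθ : Function.Surjective θ) (D : S → M)
    (hD : (Set.range D).Finite) (A : Set S) (hA : A.Finite)
    (h : ∀ k l, (∀ a ∈ A, D (θ^[k] a) = D (θ^[l] a)) → ∀ x, D (θ^[k] x) = D (θ^[l] x)) :
    ∃ m, ∀ x, D (θ^[m + 1] x) = D x := by
  have := hD.to_subtype
  have := hA.to_subtype
  obtain ⟨k, l, hkl, e⟩ := Finite.exists_ne_map_eq_of_infinite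
    (fun (k : ℕ) (a : A) => (⟨D (θ^[k] a), _, rfl⟩ : Set.range D))
  wlog hlt : k < l generalizing k l
  · exact this l k hkl.symm e.symm (by omega)
  obtain ⟨m, rfl⟩ := Nat.exists_eq_add_of_lt hlt
  refine ⟨m, fun x => ?_⟩
  obtain ⟨x, rfl⟩ := hθ.iterate k x
  rw [← Function.iterate_add_apply, h k _ (fun a ha => congrArg Subtype.val (congrFun e ⟨a, ha⟩))]
  congr 2; omega

section
variable {S : Type} [Semigroup S] (T : Subsemigroup S)

def R (x y : S) : Prop := y = x ∨ ∃ t ∈ T, y = x * t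
def L (x y : S) : Prop := y = x ∨ ∃ t ∈ T, y = t * x
def E (x y : S) : Prop := R T x y ∧ R T y x ∧ L T x y ∧ L T y x

variable {T}

theorem R.trans {x y z : S} : R T x y → R T y z → R T x z := by
  rintro (rfl | ⟨t, ht, rfl⟩) (rfl | ⟨u, hu, rfl⟩)
  exacts [Or.inl rfl, Or.inr ⟨u, hu, rfl⟩, Or.inr ⟨t, ht, rfl⟩,
    Or.inr ⟨_, T.mul_mem ht hu, mul_assoc ..⟩]

theorem L.trans {x y z : S} : L T x y → L T y z → L T x z := by
  rintro (rfl | ⟨t, ht, rfl⟩) (rfl | ⟨u, hu, rfl⟩)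
  exacts [Or.inl rfl, Or.inr ⟨u, hu, rfl⟩, Or.inr ⟨t, ht, rfl⟩,
    Or.inr ⟨_, T.mul_mem hu ht, (mul_assoc ..).symm⟩]

theorem R.mul {x y : S} (s : S) : R T x y → R T (s * x) (s * y) := by
  rintro (rfl | ⟨t, ht, rfl⟩)
  exacts [Or.inl rfl, Or.inr ⟨t, ht, (mul_assoc ..).symm⟩]

theorem L.mul {x y : S} (s : S) : L T x y → L T (x * s) (y * s) := by
  rintro (rfl | ⟨t, ht, rfl⟩)
  exacts [Or.inl rfl, Or.inr ⟨t, ht, mul_assoc ..⟩]

theorem R.mem {x y : S} (hx : x ∈ T) : R T x y → y ∈ T := by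
  rintro (rfl | ⟨t, ht, rfl⟩)
  exacts [hx, T.mul_mem hx ht]

theorem L.mem {x y : S} (hx : x ∈ T) : L T x y → y ∈ T := by
  rintro (rfl | ⟨t, ht, rfl⟩)
  exacts [hx, T.mul_mem ht hx]

theorem E.refl (x : S) : E T x x := ⟨Or.inl rfl, Or.inl rfl, Or.inl rfl, Or.inl rfl⟩
theorem E.symm {x y : S} (h : E T x y) : E T y x := ⟨h.2.1, h.1, h.2.2.2, h.2.2.1⟩
theorem E.trans {x y z : S} (h : E T x y) (h' : E T y z) : E T x z :=
  ⟨h.1.trans h'.1, h'.2.1.trans h.2.1, h.2.2.1.trans h'.2.2.1, h'.2.2.2.trans h.2.2.2⟩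

theorem E.map {f : S → S} (hf : ∀ a b, f (a * b) = f a * f b) (hT : ∀ t ∈ T, f t ∈ T) {x y : S}
    (h : E T x y) : E T (f x) (f y) := by
  have r : ∀ {x y}, R T x y → R T (f x) (f y) := by
    rintro x y (rfl | ⟨t, ht, rfl⟩)
    exacts [Or.inl rfl, Or.inr ⟨_, hT t ht, hf ..⟩]
  have l : ∀ {x y}, L T x y → L T (f x) (f y) := by
    rintro x y (rfl | ⟨t, ht, rfl⟩)
    exacts [Or.inl rfl, Or.inr ⟨_, hT t ht, hf ..⟩]
  exact ⟨r h.1, r h.2.1, l h.2.2.1, l h.2.2.2⟩

theorem E.eq {x y : S} (h : E T x y) : {z | E T x z} = {z | E T y z} :=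
  Set.ext fun _ => ⟨h.symm.trans, h.trans⟩

theorem cls (x : S) : {y : S |
    insert x ((fun t => x * t) '' (T : Set S)) = insert y ((fun t => y * t) '' (T : Set S)) ∧
    insert x ((fun t => t * x) '' (T : Set S)) = insert y ((fun t => t * y) '' (T : Set S))} =
    {y | E T x y} := by
  have r : ∀ x : S, insert x ((fun t => x * t) '' (T : Set S)) = {y | R T x y} := fun x => by
    ext y; simp [R, eq_comm]
  have l : ∀ x : S, insert x ((fun t => t * x) '' (T : Set S)) = {y | L T x y} := fun x => by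
    ext y; simp [L, eq_comm]
  ext y
  simp only [r, l, Set.mem_ofPred_eq]
  exact ⟨fun h => ⟨h.1.ge (Or.inl rfl), h.1.le (Or.inl rfl), h.2.ge (Or.inl rfl),
    h.2.le (Or.inl rfl)⟩, fun h => ⟨Set.ext fun _ => ⟨h.2.1.trans, h.1.trans⟩,
      Set.ext fun _ => ⟨h.2.2.2.trans, h.2.2.1.trans⟩⟩⟩

theorem green {h t : S} (ht : t ∈ T) (e : E T h (h * t)) :
    (fun h => h * t) '' {y | E T h y} = {y | E T h y} := by
  ext g
  constructor
  · rintro ⟨h', e', rfl⟩
    refine ⟨e'.1.trans (Or.inr ⟨t, ht, rfl⟩), R.trans ?_ e'.2.1, e.2.2.1.trans (e'.2.2.1.mul t),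
      (e'.2.2.2.mul t).trans e.2.2.2⟩
    rcases e'.2.2.1 with rfl | ⟨s, -, rfl⟩
    · exact e.2.1
    · simpa only [mul_assoc] using e.2.1.mul s
  · intro e'
    rcases e.2.2.2.trans e'.2.2.1 with rfl | ⟨s, hs, rfl⟩
    · exact ⟨h, E.refl h, rfl⟩
    refine ⟨s * h, ⟨e'.1.trans (e.2.1.mul s), R.trans (Or.inr ⟨t, ht, (mul_assoc ..).symm⟩) e'.2.1,
      Or.inr ⟨s, hs, rfl⟩, ?_⟩, mul_assoc ..⟩
    rcases e.2.1 with h1 | ⟨u, -, h1⟩
    · simpa only [← h1] using e'.2.2.2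
    · have := (e'.2.2.2.trans e.2.2.1).mul u
      rwa [mul_assoc, ← h1] at this

theorem reps (hf : Set.Finite {C : Set S | ∃ x : S, x ∉ T ∧ C = {y | E T x y}}) :
    ∃ A : Set S, A.Finite ∧ ∀ x ∉ T, ∃ a ∈ A, E T a x := by
  have := hf.to_subtype
  choose r hr using fun C : {C : Set S | ∃ x : S, x ∉ T ∧ C = {y | E T x y}} => C.2
  exact ⟨Set.range r, Set.finite_range r, fun x hx =>
    ⟨_, ⟨⟨_, x, hx, rfl⟩, rfl⟩, (hr ⟨_, x, hx, rfl⟩).2.le (E.refl x)⟩⟩

theorem stage1 {F : Finset S} (hF : Subsemigroup.closure (F : Set S) = T) {A : Set S}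
    (hA : A.Finite) (hr : ∀ x ∉ T, ∃ a ∈ A, E T a x) (θ : S →ₙ* S) (hθ : Function.Surjective θ) :
    ∃ m, ∀ x, θ^[m + 1] x ∈ T ↔ x ∈ T := by
  let q : S → Set S := fun u => {y | u * y ∈ T}
  have hq : (Set.range q).Finite := by
    refine ((hA.image q).union (hA.finite_subsets.image
      fun B => {y | y ∈ T ∨ ∃ a ∈ B, E T a y})).subset ?_
    rintro _ ⟨u, rfl⟩
    by_cases hu : u ∈ T
    · refine Or.inr ⟨A ∩ q u, Set.inter_subset_left, Set.ext fun y => ⟨?_, fun h => ?_⟩⟩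
      · rintro (h | ⟨a, ha, h⟩)
        exacts [T.mul_mem hu h, (h.1.mul u).mem ha.2]
      · by_cases hy : y ∈ T
        · exact Or.inl hy
        · obtain ⟨a, ha, e⟩ := hr y hy
          exact Or.inr ⟨a, ⟨ha, (e.2.1.mul u).mem h⟩, e⟩
    · obtain ⟨a, ha, e⟩ := hr u hu
      exact Or.inl ⟨a, ha, Set.ext fun y => ⟨(e.2.2.1.mul y).mem, (e.2.2.2.mul y).mem⟩⟩
  let Q : Set (Set S) := insert (T : Set S) (Set.range q)
  have : Finite Q := (hq.insert _).to_subtype
  let φ : S → Q → Q := fun x p => ⟨{y | x * y ∈ p.1}, by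
    rcases p.2 with h | ⟨u, h⟩
    · exact Or.inr ⟨x, by rw [h]; rfl⟩
    · exact Or.inr ⟨u * x, by rw [← h]; simp [q, mul_assoc]⟩⟩
  let D : S → (Q → Q) × (Q → Prop) := fun x => (φ x, fun p => x ∈ p.1)
  have hD : ∀ x y x' y', D x = D x' → D y = D y' → D (x * y) = D (x' * y') := by
    have : ∀ x y, D (x * y) = ((D y).1 ∘ (D x).1, (D y).2 ∘ (D x).1) := fun x y =>
      Prod.ext (funext fun p => Subtype.ext (by simp [D, φ, mul_assoc])) rfl
    intro x y x' y' h h'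
    rw [this, this, h, h']
  obtain ⟨m, hm⟩ := pigeon θ hθ D (Set.toFinite _) (F ∪ A) (F.finite_toSet.union hA) (by
    intro k l h
    have hT : ∀ x ∈ T, D (θ^[k] x) = D (θ^[l] x) := by
      intro x hx
      rw [← hF] at hx
      induction hx using Subsemigroup.closure_induction with
      | mem x hx => exact h x (Or.inl hx)
      | mul x y _ _ hx hy => rw [iterate_map_mul, iterate_map_mul]; exact hD _ _ _ _ hx hy
    intro x
    by_cases hx : x ∈ T
    · exact hT x hx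
    obtain ⟨a, ha, rfl | ⟨t, ht, rfl⟩, -⟩ := hr x hx
    · exact h _ (Or.inr ha)
    · rw [iterate_map_mul, iterate_map_mul]
      exact hD _ _ _ _ (h a (Or.inr ha)) (hT t ht))
  exact ⟨m, fun x => iff_of_eq (congrFun (congrArg Prod.snd (hm x)) ⟨T, Or.inl rfl⟩)⟩

theorem stage2 (hf : Set.Finite {C : Set S | ∃ x : S, x ∉ T ∧ C = {y | E T x y}}) {A : Set S}
    (hA : A.Finite) (hr : ∀ x ∉ T, ∃ a ∈ A, E T a x) (θ : S →ₙ* S) (hθ : Function.Surjective θ)
    (hT : ∀ x, θ x ∈ T ↔ x ∈ T) :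
    ∃ m, (∀ x, θ^[m + 1] x ∈ T ↔ x ∈ T) ∧ ∀ x ∉ T, E T x (θ^[m + 1] x) := by
  classical
  have hk : ∀ k x, θ^[k] x ∈ T ↔ x ∈ T := by
    intro k
    induction k with
    | zero => exact fun _ => Iff.rfl
    | succ k ih => exact fun x => (ih _).trans (hT x)
  obtain ⟨m, hm⟩ := pigeon θ hθ (fun x => if x ∈ T then ∅ else {y | E T x y})
    ((hf.insert ∅).subset (by
      rintro _ ⟨x, rfl⟩
      by_cases hx : x ∈ T
      · exact Or.inl (if_pos hx)
      · exact Or.inr ⟨x, hx, if_neg hx⟩)) A hA (by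
    intro k l h x
    by_cases hx : x ∈ T
    · simp [hk, hx]
    obtain ⟨a, ha, e⟩ := hr x hx
    have := h a ha
    have ha' : a ∉ T := fun h => hx (e.1.mem h)
    simp only [hk, hx, ha', if_false] at this ⊢
    rw [← (e.map (iterate_map_mul θ k) fun t => (hk k t).2).eq, this,
      (e.map (iterate_map_mul θ l) fun t => (hk l t).2).eq])
  refine ⟨m, hk _, fun x hx => ?_⟩
  have := hm x
  simp only [hk, hx, if_false] at this
  exact this.le (E.refl _)

end

/-- If T is a finitely generated hopfian subsemigroup of S with finitely many relative H-classes outside T, and every relative Schützenberger group of such a class is hopfian, then every surjective endomorphism of S is injective. -/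
theorem result :
  ∀ (S : Type) [Semigroup S] (T : Subsemigroup S),
    (∃ F : Finset S, Subsemigroup.closure (↑F : Set S) = T) →
    Set.Finite {C : Set S | ∃ x : S, x ∉ T ∧ C = {y : S |
        insert x ((fun t => x * t) '' (T : Set S)) = insert y ((fun t => y * t) '' (T : Set S)) ∧
        insert x ((fun t => t * x) '' (T : Set S)) = insert y ((fun t => t * y) '' (T : Set S))}} →
    (∀ f : T →ₙ* T, Function.Surjective f → Function.Injective f) →
    (∀ H : Set S, (∃ x : S, x ∉ T ∧ H = {y : S |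
        insert x ((fun t => x * t) '' (T : Set S)) = insert y ((fun t => y * t) '' (T : Set S)) ∧
        insert x ((fun t => t * x) '' (T : Set S)) = insert y ((fun t => t * y) '' (T : Set S))}) →
      ∀ f : (conGen (fun a b : ↥(Submonoid.closure {u : WithOne S | u = 1 ∨
                ∃ t ∈ T, u = (t : WithOne S) ∧ (fun h => h * t) '' H = H}) =>
              ∀ h ∈ H, (h : WithOne S) * (a : WithOne S) = (h : WithOne S) * (b : WithOne S))).Quotient →*
            (conGen (fun a b : ↥(Submonoid.closure {u : WithOne S | u = 1 ∨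
                ∃ t ∈ T, u = (t : WithOne S) ∧ (fun h => h * t) '' H = H}) =>
              ∀ h ∈ H, (h : WithOne S) * (a : WithOne S) = (h : WithOne S) * (b : WithOne S))).Quotient,
        Function.Surjective f → Function.Injective f) →
    ∀ f : S →ₙ* S, Function.Surjective f → Function.Injective f := by
  rintro S _ T ⟨F, hF⟩ hf hT hΓ θ hθ
  simp only [cls] at hf hΓ
  obtain ⟨A, hA, hr⟩ := reps hf
  obtain ⟨m, hm⟩ := stage1 hF hA hr θ hθ
  let θ₁ : S →ₙ* S := ⟨θ^[m + 1], iterate_map_mul θ _⟩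
  obtain ⟨n, h1, h2⟩ := stage2 hf hA hr θ₁ (hθ.iterate _) hm
  let ψ : S →ₙ* S := ⟨θ₁^[n + 1], iterate_map_mul θ₁ _⟩
  have hψ : Function.Surjective ψ := Function.Surjective.iterate (hθ.iterate _) _
  suffices Function.Injective ψ from
    Function.Injective.of_comp (f := θ^[m]) (Function.Injective.of_comp (f := θ₁^[n]) this)
  change ∀ x, ψ x ∈ T ↔ x ∈ T at h1
  change ∀ x ∉ T, E T x (ψ x) at h2
  generalize ψ = ψ at *
  intro x y e
  by_cases hx : x ∈ T
  · have hy : y ∈ T := (h1 y).1 (e ▸ (h1 x).2 hx)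
    refine congrArg Subtype.val (hT ⟨fun t => ⟨ψ t, (h1 _).2 t.2⟩, fun a b =>
      Subtype.ext (map_mul ψ a.1 b.1)⟩ (fun t => ?_) (a₁ := ⟨x, hx⟩) (a₂ := ⟨y, hy⟩)
        (Subtype.ext e))
    obtain ⟨u, hu⟩ := hψ t
    exact ⟨⟨u, (h1 u).1 (hu ▸ t.2)⟩, Subtype.ext hu⟩
  have hy : y ∉ T := fun h => hx ((h1 x).1 (e ▸ (h1 y).2 h))
  have exy : E T x y := (h2 x hx).trans (e ▸ (h2 y hy).symm)
  specialize hΓ _ ⟨x, hx, rfl⟩
  set H := {y | E T x y} with hH
  have nT : ∀ h ∈ H, h ∉ T := fun h hh h' => hx (hh.2.1.mem h')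
  have back : ∀ z, ψ z ∈ H → z ∈ H := fun z hz =>
    E.trans hz (h2 z fun h => nT _ hz ((h1 z).2 h)).symm
  have gr : ∀ t ∈ T, ∀ h ∈ H, h * t ∈ H → (fun h => h * t) '' H = H := fun t ht h hh h' => by
    rw [hH, E.eq hh]; exact green ht (E.trans (E.symm hh) h')
  set St := Submonoid.closure {u : WithOne S | u = 1 ∨
    ∃ t ∈ T, u = (t : WithOne S) ∧ (fun h => h * t) '' H = H} with hSt
  have st : ∀ a ∈ St, ∀ h ∈ H, ∃ h' ∈ H, (h : WithOne S) * a = h' := by
    intro a ha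
    induction ha using Submonoid.closure_induction with
    | mem u hu =>
      rcases hu with rfl | ⟨t, -, rfl, e⟩
      · exact fun h hh => ⟨h, hh, mul_one _⟩
      · exact fun h hh => ⟨h * t, e.le ⟨h, hh, rfl⟩, rfl⟩
    | one => exact fun h hh => ⟨h, hh, mul_one _⟩
    | mul a b _ _ ha hb =>
      intro h hh
      obtain ⟨h', hh', e⟩ := ha h hh
      rw [← mul_assoc, e]
      exact hb h' hh'
  let c : Con St :=
    { r := fun a b => ∀ h ∈ H, (h : WithOne S) * (a : WithOne S) = h * (b : WithOne S)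
      iseqv := ⟨fun _ _ _ => rfl, fun h _ hh => (h _ hh).symm,
        fun h h' _ hh => (h _ hh).trans (h' _ hh)⟩
      mul' := fun {a b a' b'} h h' z hz => by
        obtain ⟨z', hz', e⟩ := st b b.2 z hz
        rw [Submonoid.coe_mul, Submonoid.coe_mul, ← mul_assoc, ← mul_assoc, h z hz, e, h' z' hz'] }
  have hc : conGen (fun a b : St => ∀ h ∈ H, (h : WithOne S) * (a : WithOne S) =
      h * (b : WithOne S)) = c := Con.conGen_of_con c
  rw [hc] at hΓ
  have fw : ∀ h ∈ H, ψ h ∈ H := fun h hh => E.trans hh (h2 h (nT h hh))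
  let g : St →* St := ((WithOne.mapMulHom ψ).comp St.subtype).codRestrict St (by
    rintro ⟨a, ha⟩
    refine (Submonoid.closure_le (S := St.comap (WithOne.mapMulHom ψ))).2 ?_ ha
    rintro _ (rfl | ⟨t, ht, rfl, e⟩)
    · exact one_mem (St.comap _)
    · refine Submonoid.subset_closure (Or.inr ⟨ψ t, (h1 t).2 ht, rfl, gr _ ((h1 t).2 ht) _
        (fw x (E.refl x)) ?_⟩)
      rw [← map_mul]
      exact fw _ (e.le ⟨x, E.refl x, rfl⟩))
  have gs : Function.Surjective g := by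
    rintro ⟨a, ha⟩
    induction ha using Submonoid.closure_induction with
    | mem u hu =>
      rcases hu with rfl | ⟨t, ht, rfl, e⟩
      · exact ⟨1, map_one g⟩
      · obtain ⟨t, rfl⟩ := hψ t
        refine ⟨⟨t, Submonoid.subset_closure (Or.inr ⟨t, (h1 t).1 ht, rfl,
          gr _ ((h1 t).1 ht) _ (E.refl x) (back _ ?_)⟩)⟩, rfl⟩
        rw [map_mul]
        exact e.le ⟨_, fw x (E.refl x), rfl⟩
    | one => exact ⟨1, map_one g⟩
    | mul a b _ _ ha hb =>
      obtain ⟨a', ha⟩ := ha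
      obtain ⟨b', hb⟩ := hb
      exact ⟨a' * b', by rw [map_mul, ha, hb]; rfl⟩
  have inj := hΓ (c.lift (c.mk'.comp g) fun a b h => (Con.ker_rel _).2 (c.eq.2 fun z hz => by
      obtain ⟨z, rfl⟩ := hψ z
      simpa [g] using congrArg (WithOne.mapMulHom ψ) (h z (back z hz))))
    (Con.lift_surjective_of_surjective _ (c.mk'_surjective.comp gs))
  rcases exy.1 with rfl | ⟨t, ht, rfl⟩
  · rfl
  have := @inj (c.mk' ⟨t, Submonoid.subset_closure
    (Or.inr ⟨t, ht, rfl, gr t ht x (E.refl x) exy⟩)⟩) (c.mk' 1) (c.eq.2 fun z hz => by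
      change (z : WithOne S) * (ψ t : S) = z * (WithOne.mapMulHom ψ 1)
      rw [map_one, mul_one, ← WithOne.coe_mul, WithOne.coe_inj]
      rcases (E.trans (fw x (E.refl x)).symm hz).2.2.1 with rfl | ⟨s, -, rfl⟩
      · rw [← map_mul, ← e]
      · rw [mul_assoc, ← map_mul, ← e])
  exact WithOne.coe_inj.1 ((mul_one _).symm.trans (c.eq.1 this x (E.refl x)).symm)

end Pool.Agent.S00995
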