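import Pool.Statements.S01012

set_option autoImplicit false
open Pool Pool.MP_293fae_al

namespace Pool.Agent.S01012

open Polynomial

lemma exists_m : ∃ m : Ideal GaussianInt[X], m.IsMaximal ∧
    m = Ideal.span {C (1 + Zsqrtd.sqrtd), X} ∧ ∀ s, s ∉ m → s - 1 ∈ m := by
  let F : GaussianInt[X] →+* ZMod 2 := eval₂RingHom (Zsqrtd.lift ⟨1, by decide⟩) 0
  refine ⟨RingHom.ker F, RingHom.ker_isMaximal_of_surjective F (ZMod.ringHom_surjective F), ?_, ?_⟩
  · apply le_antisymm
    · intro s hs
      obtain ⟨b, hb⟩ := X_dvd_sub_C (p := s)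
      have h : ((s.coeff 0).re + (s.coeff 0).im : ℤ) = (0 : ZMod 2) := by
        simpa [F, eval₂_at_zero] using hs
      obtain ⟨c, hc⟩ := (ZMod.intCast_zmod_eq_zero_iff_dvd _ 2).1 h
      have e : s.coeff 0 = ⟨c, (s.coeff 0).im - c⟩ * (1 + Zsqrtd.sqrtd) := by
        ext <;> simp
        push_cast at hc
        linarith
      refine Ideal.mem_span_pair.2 ⟨C ⟨c, (s.coeff 0).im - c⟩, b, ?_⟩
      rw [← C_mul, ← e]
      linear_combination -hb
    · rw [Ideal.span_le]
      rintro _ (rfl | rfl)
      · simp [F]; decide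
      · simp [F]
  · intro s hs
    rw [RingHom.mem_ker] at hs ⊢
    rw [map_sub, map_one]
    revert hs
    generalize F s = a
    revert a
    decide

lemma two {R : Type} [CommRing R] [IsDomain R] [CharZero R] (i : R) (ii : i * i = -1)
    (H : ∀ (K : Type) [Field K] [Algebra R K] [IsFractionRing R K], ∀ n : ℕ,
      ((∀ x : R, IsSumSq x → ∃ f : Fin n → R, x = ∑ i, f i ^ 2) ↔
        (∀ x : K, IsSumSq x → ∃ f : Fin n → K, x = ∑ i, f i ^ 2))) :
    ∀ x : R, IsSumSq x → ∃ f : Fin 2 → R, x = ∑ i, f i ^ 2 := by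
  refine (H (FractionRing R) 2).2 fun x _ => ?_
  refine ⟨![(x + 1) / 2, algebraMap R _ i * ((x - 1) / 2)], ?_⟩
  have := congrArg (algebraMap R (FractionRing R)) ii
  rw [map_mul, map_neg, map_one] at this
  simp only [Fin.sum_univ_two, Matrix.cons_val_zero, Matrix.cons_val_one]
  linear_combination (-((x - 1) / 2) ^ 2) * this

theorem result :
    ¬ (∀ (R : Type) [CommRing R] [IsDomain R] [IsLocalRing R] [IsNoetherianRing R],
      ringKrullDim R = 2 →
      (∃ a b : R, IsLocalRing.maximalIdeal R = Ideal.span {a, b}) →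
      ∀ (K : Type) [Field K] [Algebra R K] [IsFractionRing R K],
      ∀ n : ℕ,
        ((∀ x : R, IsSumSq x → ∃ f : Fin n → R, x = ∑ i, f i ^ 2) ↔
          (∀ x : K, IsSumSq x → ∃ f : Fin n → K, x = ∑ i, f i ^ 2))) := by
  intro h
  obtain ⟨m, hm, h1, h2⟩ := exists_m
  let R := Localization.AtPrime m
  have hi : Function.Injective (algebraMap GaussianInt[X] R) :=
    IsLocalization.injective R m.primeCompl_le_nonZeroDivisors
  have hnf : ¬ IsField GaussianInt := by
    intro hf
    obtain ⟨b, hb⟩ := hf.mul_inv_cancel (show (2 : GaussianInt) ≠ 0 by decide)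
    have := congrArg Zsqrtd.re hb
    simp at this
    omega
  have hdim : ringKrullDim R = 2 := by
    have : (m.under GaussianInt).IsMaximal := by
      refine Ideal.IsPrime.isMaximal inferInstance fun h0 => ?_
      have : (1 + Zsqrtd.sqrtd : GaussianInt) ∈ m.under GaussianInt := by
        rw [h1]; exact Ideal.subset_span (Or.inl rfl)
      rw [h0] at this
      exact absurd (Ideal.mem_bot.1 this) (by decide)
    rw [IsLocalization.AtPrime.ringKrullDim_eq_height m R,
      height_eq_height_add_one (m.under GaussianInt) m,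
      IsPrincipalIdealRing.height_eq_one_of_isMaximal _ hnf]
    rfl
  have hmax : IsLocalRing.maximalIdeal R = Ideal.span
      {algebraMap GaussianInt[X] R (C (1 + Zsqrtd.sqrtd)), algebraMap GaussianInt[X] R X} := by
    rw [← Localization.AtPrime.map_eq_maximalIdeal]
    conv_lhs => rw [show Ideal.map (algebraMap GaussianInt[X] R) m = Ideal.map _ (Ideal.span _) from
      congrArg _ h1]
    rw [Ideal.map_span, Set.image_pair]
  let i : R := algebraMap GaussianInt[X] R (C Zsqrtd.sqrtd)
  have ii : i * i = -1 := by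
    rw [← map_mul, ← C_mul, Zsqrtd.dmuld]; simp
  have hc : CharZero R := charZero_of_injective_ringHom hi
  have hK := two i ii (h R hdim ⟨_, _, hmax⟩)
  obtain ⟨f, hf⟩ := hK (1 * 1 + (1 * 1 + ((1 + i) * (1 + i) + 0)))
    (.sq_add _ (.sq_add _ (.sq_add _ .zero)))
  let w : QuadraticAlgebra (ZMod 4) (-1) 0 := ⟨0, 1⟩
  let F : GaussianInt[X] →+* QuadraticAlgebra (ZMod 4) (-1) 0 :=
    eval₂RingHom (Zsqrtd.lift ⟨w, QuadraticAlgebra.ext (by decide) (by decide)⟩) 0
  have hF : ∀ s : m.primeCompl, IsUnit (F s) := by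
    rintro ⟨s, hs⟩
    obtain ⟨a, b, hab⟩ := Ideal.mem_span_pair.1 (h1 ▸ h2 s hs)
    have : F s = 1 + F a * (1 + w) := by
      rw [← sub_eq_iff_eq_add', ← map_one F, ← map_sub, ← hab]
      simp [F]
    simp only [this]
    exact IsNilpotent.isUnit_one_add ((Commute.all _ _).isNilpotent_mul_left
      ⟨4, QuadraticAlgebra.ext (by decide) (by decide)⟩)
  let G : R →+* _ := IsLocalization.lift hF
  have hG : G i = w := by
    rw [IsLocalization.lift_eq]; simp [F]
  have := congrArg G hf
  simp only [map_add, map_mul, map_one, map_zero, hG, Fin.sum_univ_two, sq] at this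
  generalize G (f 0) = a, G (f 1) = b at this
  obtain ⟨a, a'⟩ := a
  obtain ⟨b, b'⟩ := b
  have e1 := congrArg QuadraticAlgebra.re this
  have e2 := congrArg QuadraticAlgebra.im this
  simp only [QuadraticAlgebra.re_add, QuadraticAlgebra.re_mul, QuadraticAlgebra.im_add,
    QuadraticAlgebra.im_mul, w, QuadraticAlgebra.re_one, QuadraticAlgebra.im_one,
    QuadraticAlgebra.re_zero, QuadraticAlgebra.im_zero] at e1 e2
  clear this
  revert a a' b b'
  decide

end Pool.Agent.S01012
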