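import Pool.Statements.S01019
import Pool.Agent.H33.PS1

set_option autoImplicit false
open scoped Pointwise
open Pool Pool.MP_29ab50_al

namespace Pool.Agent.S01019

open Pool.Agent.H33.PS

lemma pow_idem {M : Type} [CommMonoid M] (x : M) (h : (Set.range fun n : ℕ => x ^ (n + 1)).Finite) :
    ∃ n, 0 < n ∧ IsIdempotentElem (x ^ n) := by
  have hni : ¬ Function.Injective fun n : ℕ => x ^ (n + 1) := fun hi =>
    Set.infinite_range_of_injective hi h
  obtain ⟨i, j, hij, hne⟩ := Function.not_injective_iff.1 hni
  wlog hlt : i < j generalizing i j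
  · exact this j i hij.symm hne.symm (by omega)
  obtain ⟨p, rfl⟩ := Nat.exists_eq_add_of_lt hlt
  have h1 : ∀ k : ℕ, x ^ (i + 1 + k * (p + 1)) = x ^ (i + 1) := by
    intro k
    induction k with
    | zero => simp
    | succ k ih =>
      have e : i + 1 + (k + 1) * (p + 1) = (i + p + 1 + 1) + k * (p + 1) := by ring
      rw [e, pow_add, ← hij, ← pow_add, ih]
  refine ⟨(i + 1) * (p + 1), by positivity, ?_⟩
  have e : (i + 1) * (p + 1) + (i + 1) * (p + 1) = (i + 1 + (i + 1) * (p + 1)) + (i + 1) * p := by
    ring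
  have e2 : (i + 1) * (p + 1) = (i + 1) + (i + 1) * p := by ring
  show _ * _ = _
  rw [← pow_add, e, pow_add, h1, ← pow_add, ← e2]
theorem result :
    ∀ (S : Type) [CommSemigroup S],
      (∀ x : S, (Subsemigroup.closure ({x} : Set S) : Set S).Finite) →
      ∃ (G : Type) (_ : CommGroup G), Monoid.IsTorsion G ∧
        ∃ f : S →ₙ* Set G, Function.Injective f ∧ ∀ s : S, (f s).Nonempty := by
  intro S _ hS
  have key : ∀ x : WithOne S, ∃ n, 0 < n ∧ IsIdempotentElem (x ^ n) := by
    intro x
    apply pow_idem
    induction x using WithOne.recOneCoe with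
    | one => simp
    | coe a =>
      refine ((hS a).image (fun s : S => (s : WithOne S))).subset ?_
      rintro _ ⟨n, rfl⟩
      induction n with
      | zero => exact ⟨a, Subsemigroup.subset_closure rfl, by simp⟩
      | succ n ih =>
        obtain ⟨b, hb, e⟩ := ih
        refine ⟨b * a, Subsemigroup.mul_mem _ hb (Subsemigroup.subset_closure rfl), ?_⟩
        simp only at e ⊢
        rw [pow_succ, ← e, WithOne.coe_mul]
  choose om hom using key
  obtain ⟨f, hf, hne⟩ := main hom
  refine ⟨Multiplicative (G (WithOne S)), inferInstance, fun g => ?_,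
    f.comp WithOne.coeMulHom, hf.comp WithOne.coe_injective, fun s => hne _⟩
  exact (isOfFinOrder_ofAdd_iff (x := g.toAdd)).2 (g_tor g.toAdd)

end Pool.Agent.S01019
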