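import Pool.Statements.S01061

set_option autoImplicit false
open Pool Pool.MP_2d5453_al

namespace Pool.Agent.S01061

abbrev NN : Type := ℕ → ZMod 4

def sg (s : Bool) (n : NN) : NN := cond s (-n) n

@[simp] lemma sg_true (n : NN) : sg true n = -n := rfl
@[simp] lemma sg_false (n : NN) : sg false n = n := rfl

/-- The affine maps `(n, e) ↦ (± n + a, e + f n)` of `NN × ZMod 2`. -/
@[ext] structure GG where
  f : NN → ZMod 2
  a : NN
  s : Bool

lemma z2 (x : ZMod 2) : x + x = 0 := by revert x; decide

lemma n4 (n : NN) : n + n + n + n = 0 := by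
  funext i
  have : ∀ x : ZMod 4, x + x + x + x = 0 := by decide
  exact this _

instance : Mul GG := ⟨fun x y => ⟨fun n => y.f n + x.f (sg y.s n + y.a), sg x.s y.a + x.a, xor x.s y.s⟩⟩
instance : One GG := ⟨⟨0, 0, false⟩⟩
instance : Inv GG := ⟨fun x => ⟨fun n => x.f (sg x.s (n - x.a)), sg x.s (- x.a), x.s⟩⟩

@[simp] lemma mul_f (x y : GG) (n : NN) : (x * y).f n = y.f n + x.f (sg y.s n + y.a) := rfl
@[simp] lemma mul_a (x y : GG) : (x * y).a = sg x.s y.a + x.a := rfl
@[simp] lemma mul_s (x y : GG) : (x * y).s = xor x.s y.s := rfl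
@[simp] lemma one_f (n : NN) : (1 : GG).f n = 0 := rfl
@[simp] lemma one_a : (1 : GG).a = 0 := rfl
@[simp] lemma one_s : (1 : GG).s = false := rfl
@[simp] lemma inv_f (x : GG) (n : NN) : (x⁻¹).f n = x.f (sg x.s (n - x.a)) := rfl
@[simp] lemma inv_a (x : GG) : (x⁻¹).a = sg x.s (- x.a) := rfl
@[simp] lemma inv_s (x : GG) : (x⁻¹).s = x.s := rfl

instance : Group GG := Group.ofLeftAxioms
  (by
    rintro ⟨f, a, s⟩ ⟨g, b, t⟩ ⟨h, c, u⟩
    ext n
    · cases s <;> cases t <;> cases u <;> simp [add_assoc, add_comm, add_left_comm]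
    · cases s <;> cases t <;> cases u <;> simp [add_assoc, add_comm, add_left_comm]
    · cases s <;> cases t <;> cases u <;> simp)
  (by
    rintro ⟨f, a, s⟩
    ext n <;> simp)
  (by
    rintro ⟨f, a, s⟩
    ext n
    · cases s <;> simp [z2]
    · cases s <;> simp
    · cases s <;> simp)

def Phi (y z : GG) : GG := z⁻¹ * y⁻¹ * z * y

lemma Phi_mid (y z : GG) (hs : z.s = false) (hc : z.a + z.a = 0) :
    Phi y z = ⟨fun n => y.f n + y.f (n + z.a) + (z.f n + z.f (sg y.s n + y.a)), 0, false⟩ := by
  obtain ⟨w, b, t⟩ := y
  obtain ⟨f, c, s⟩ := z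
  simp only at hs hc
  subst hs
  have hneg : -c = c := neg_eq_of_add_eq_zero_left hc
  ext n
  · cases t
    · simp only [Phi, mul_f, mul_a, mul_s, inv_f, inv_a, inv_s, sg_false, Bool.xor_false]
      have e1 : n + b + c - b = n + c := by abel
      have e2 : n + b + c + -b - c = n := by abel
      rw [e1, e2]; abel
    · simp only [Phi, mul_f, mul_a, mul_s, inv_f, inv_a, inv_s, sg_false, sg_true]
      have e1 : -(-n + b + c - b) = n + c := by
        have : -(-n + b + c - b) = n + -c := by abel
        rw [this, hneg]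
      have e2 : -(-n + b + c) + - -b - c = n := by
        have : -(-n + b + c) + - -b - c = n - (c + c) := by abel
        rw [this, hc, sub_zero]
      rw [e1, e2]; abel
  · cases t
    · simp [Phi]
    · simp only [Phi, mul_a, mul_s, inv_a, inv_s, sg_false, sg_true, Bool.xor_false,
        Bool.false_xor]
      have : -b + (-c + (- -b + -c)) = -(c + c) := by abel
      rw [this, hc]; simp
  · cases t <;> simp [Phi]

lemma Phi_low (y : GG) (f : NN → ZMod 2) :
    Phi y ⟨f, 0, false⟩ = ⟨fun n => f n + f (sg y.s n + y.a), 0, false⟩ := by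
  rw [Phi_mid y _ rfl (by simp)]
  simp [z2]

lemma Phi_top (y x : GG) : (Phi y x).s = false ∧ (Phi y x).a + (Phi y x).a = 0 ∧
    (y.s = true ∨ (Phi y x).a = 0 ∨ (Phi y x).a = y.a + y.a) := by
  obtain ⟨w, b, t⟩ := y
  obtain ⟨f, c, s⟩ := x
  refine ⟨by cases s <;> cases t <;> simp [Phi], ?_, ?_⟩
  · cases s <;> cases t <;>
      simp only [Phi, mul_a, mul_s, inv_a, inv_s, sg_false, sg_true, Bool.xor_false,
        Bool.false_xor, Bool.xor_true, Bool.not_true, Bool.not_false]
    · abel
    · have := n4 c
      linear_combination (exp := 1) (-1 : NN) * this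
    · have := n4 b
      linear_combination (exp := 1) this
    · have h1 := n4 b
      have h2 := n4 c
      linear_combination (exp := 1) (-1 : NN) * h1 + h2
  · cases t
    · right
      cases s
      · left; simp [Phi]
      · right; simp [Phi]
    · left; rfl

lemma engel (x y : GG) : (Phi y)^[5] x = 1 := by
  obtain ⟨h1, h2, h3⟩ := Phi_top y x
  have : (Phi y)^[5] x = Phi y (Phi y (Phi y (Phi y (Phi y x)))) := rfl
  rw [this, Phi_mid y (Phi y x) h1 h2, Phi_low, Phi_low, Phi_low]
  generalize Phi y x = z at h1 h2 h3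
  obtain ⟨w, b, t⟩ := y
  obtain ⟨f, c, s⟩ := z
  simp only at h1 h2 h3
  ext n
  · cases t
    · simp only [sg_false, one_f]
      have e4 : n + b + b + b + b = n := by linear_combination (exp := 1) n4 b
      rcases h3 with h | h | h
      · simp at h
      · subst h
        simp only [add_zero, e4]
        generalize w n = a0; generalize w (n + b) = a1; generalize w (n + b + b) = a2
        generalize w (n + b + b + b) = a3
        generalize f n = b0; generalize f (n + b) = b1; generalize f (n + b + b) = b2
        generalize f (n + b + b + b) = b3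
        revert a0 a1 a2 a3 b0 b1 b2 b3; decide
      · subst h
        simp only [← add_assoc, e4]
        generalize w n = a0; generalize w (n + b) = a1; generalize w (n + b + b) = a2
        generalize w (n + b + b + b) = a3
        generalize f n = b0; generalize f (n + b) = b1; generalize f (n + b + b) = b2
        generalize f (n + b + b + b) = b3
        revert a0 a1 a2 a3 b0 b1 b2 b3; decide
    · simp only [sg_true, one_f]
      have e2 : -(-n + b) + b = n := by abel
      simp only [e2]
      generalize w n = a0; generalize w (-n + b) = a1; generalize w (n + c) = a2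
      generalize w (-n + b + c) = a3
      generalize f n = b0; generalize f (-n + b) = b1
      revert a0 a1 a2 a3 b0 b1; decide
  · simp
  · simp

def K1 : Subgroup GG where
  carrier := {x | x.s = false}
  one_mem' := rfl
  mul_mem' := by intro a b ha hb; simp_all
  inv_mem' := by intro a ha; simp_all

def K2 : Subgroup GG where
  carrier := {x | x.s = false ∧ x.a = 0}
  one_mem' := ⟨rfl, rfl⟩
  mul_mem' := by rintro a b ⟨ha, ha'⟩ ⟨hb, hb'⟩; constructor <;> simp_all
  inv_mem' := by rintro a ⟨ha, ha'⟩; constructor <;> simp_all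

lemma solv : IsSolvable GG := by
  have h1 : derivedSeries GG 1 ≤ K1 := by
    rw [derivedSeries_succ, Subgroup.commutator_le]
    intro x _ y _
    rw [commutatorElement_def]
    show (x * y * x⁻¹ * y⁻¹).s = false
    cases hx : x.s <;> cases hy : y.s <;> simp [hx, hy]
  have h2 : derivedSeries GG 2 ≤ K2 := by
    rw [derivedSeries_succ, Subgroup.commutator_le]
    intro x hx y hy
    have hx' : x.s = false := h1 hx
    have hy' : y.s = false := h1 hy
    rw [commutatorElement_def]
    show (x * y * x⁻¹ * y⁻¹).s = false ∧ (x * y * x⁻¹ * y⁻¹).a = 0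
    simp [hx', hy']
  refine ⟨⟨3, ?_⟩⟩
  rw [eq_bot_iff, derivedSeries_succ, Subgroup.commutator_le]
  intro x hx y hy
  obtain ⟨hx1, hx2⟩ : x.s = false ∧ x.a = 0 := h2 hx
  obtain ⟨hy1, hy2⟩ : y.s = false ∧ y.a = 0 := h2 hy
  rw [Subgroup.mem_bot, commutatorElement_eq_one_iff_mul_comm]
  ext n <;> simp [hx1, hx2, hy1, hy2, add_comm]

lemma pgrp : IsPGroup 2 GG := by
  intro g
  refine ⟨3, ?_⟩
  have e : g ^ 2 ^ 3 = ((g * g) * (g * g)) * ((g * g) * (g * g)) := by
    norm_num [pow_succ, mul_assoc]
  rw [e]
  have h1 : ((g * g) * (g * g)).s = false := by simp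
  have h2 : ((g * g) * (g * g)).a = 0 := by
    cases hs : g.s
    · simp only [mul_a, mul_s, hs, sg_false, Bool.xor_false]
      linear_combination (exp := 1) n4 g.a
    · simp [hs]
  generalize (g * g) * (g * g) = h at h1 h2
  ext n <;> simp [h1, h2, z2]

def ee (i : ℕ) : NN := Pi.single i 1

lemma notfit (N : Subgroup GG) (hN : N.Normal) (hnil : Group.IsNilpotent N)
    (hx : (⟨0, 0, true⟩ : GG) ∈ N) : False := by
  classical
  have hu : ∀ i, (⟨0, ee i + ee i, false⟩ : GG) ∈ N := by
    intro i
    have h := N.mul_mem (hN.conj_mem _ hx ⟨0, ee i, false⟩) hx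
    convert h using 1
    ext n <;> simp
  have key : ∀ k : ℕ, ∃ g : NN → ZMod 2, (⟨g, 0, false⟩ : GG) ∈ N.lowerCentralSeries k ∧
      g (ee 0) = 1 ∧ ∀ n, g n ≠ 0 → ∀ j, k < j → n j = 0 := by
    intro k
    induction k with
    | zero =>
      refine ⟨fun n => (if n = ee 0 then 1 else 0) + (if -n = ee 0 then 1 else 0), ?_, ?_, ?_⟩
      · have h := N.mul_mem (hN.conj_mem _ hx ⟨fun n => if n = ee 0 then 1 else 0, 0, false⟩) hx
        rw [Subgroup.lowerCentralSeries_zero]
        convert h using 1
        ext n <;> simp [add_comm]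
      · have : -ee 0 ≠ ee 0 := by
          intro h
          have := congrFun h 0
          simp [ee] at this
          exact absurd this (by decide)
        simp [this]
      · intro n hn j hj
        by_cases h1 : n = ee 0
        · subst h1; simp [ee, Pi.single_apply]; omega
        · by_cases h2 : -n = ee 0
          · have : n = -ee 0 := by rw [← h2]; simp
            subst this; simp [ee, Pi.single_apply]; omega
          · simp [h1, h2] at hn
    | succ k ih =>
      obtain ⟨g, h1, h2, h3⟩ := ih
      have hcc : (ee (k+1) + ee (k+1)) + (ee (k+1) + ee (k+1)) = 0 := by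
        linear_combination (exp := 1) n4 (ee (k+1))
      refine ⟨fun n => g n + g (n + (ee (k+1) + ee (k+1))), ?_, ?_, ?_⟩
      · rw [Subgroup.lowerCentralSeries_succ]
        have h := Subgroup.commutator_mem_commutator h1 (hu (k+1))
        convert h using 1
        rw [commutatorElement_def]
        have hneg : -(ee (k+1) + ee (k+1)) = ee (k+1) + ee (k+1) :=
          neg_eq_of_add_eq_zero_left hcc
        generalize ee (k+1) + ee (k+1) = c at hcc hneg
        ext n
        · simp only [mul_f, mul_a, mul_s, inv_f, inv_a, inv_s, sg_false, Bool.xor_false,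
            Pi.zero_apply, hneg]
          have e1 : n + c + -0 + c = n := by linear_combination (exp := 1) hcc
          rw [e1]; simp [add_comm]
        · simp
        · simp
      · have : g (ee 0 + (ee (k+1) + ee (k+1))) = 0 := by
          by_contra h
          have := h3 _ h (k+1) (by omega)
          simp [ee] at this
          exact absurd this (by decide)
        simp [h2, this]
      · intro n hn j hj
        by_cases h4 : g n = 0
        · have h5 : g (n + (ee (k+1) + ee (k+1))) ≠ 0 := by
            intro h; simp [h4, h] at hn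
          have := h3 _ h5 j (by omega)
          have hj' : j ≠ k + 1 := by omega
          simpa [ee, Pi.single_apply, hj'] using this
        · exact h3 n h4 j (by omega)
  obtain ⟨k, hk⟩ := (Subgroup.isNilpotent_iff_lowerCentralSeries N).1 hnil
  obtain ⟨g, h1, h2, -⟩ := key k
  rw [hk, Subgroup.mem_bot] at h1
  have := congrArg (fun z : GG => z.f (ee 0)) h1
  simp [h2] at this

/-- There is a soluble group in which every element has 2-power order and every commutator [x,y,y,y,y,y] is trivial, but some element lies in no normal nilpotent subgroup, so the group is not a Fitting group. -/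
theorem result :
    ∃ (G : Type) (_ : Group G),
      IsSolvable G ∧
      IsPGroup 2 G ∧
      (∀ x y : G, (fun z : G => z⁻¹ * y⁻¹ * z * y)^[5] x = 1) ∧
      ¬ (∀ g : G, ∃ N : Subgroup G, N.Normal ∧ Group.IsNilpotent N ∧ g ∈ N) := by
  refine ⟨GG, inferInstance, solv, pgrp, fun x y => engel x y, fun h => ?_⟩
  obtain ⟨N, h1, h2, h3⟩ := h ⟨0, 0, true⟩
  exact notfit N h1 h2 h3

end Pool.Agent.S01061
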