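import Pool.Statements.S01079
import Pool.Agent.H23.GTop2

set_option autoImplicit false
open Pool Pool.MP_2f4300_al

namespace Pool.Agent.S01079

theorem result :
    ∃ (G : Type) (_ : Group G), Countable G ∧ Infinite G ∧
      (∃ t : GroupTopology G, @T2Space G t.toTopologicalSpace ∧ t.toTopologicalSpace ≠ ⊥) ∧
      ∃ (k : ℕ) (τ : Fin (k + 1) → GroupTopology G),
        (∀ i : Fin k, τ i.castSucc ⋖ τ i.succ) ∧
        (∀ i : Fin (k + 1), @T2Space G (τ i).toTopologicalSpace) ∧
        ∃ S : Set (GroupTopology G), S.Infinite ∧ IsChain (· ≤ ·) S ∧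
          ∀ s ∈ S, τ 0 < s ∧ s < τ (Fin.last k) := by
  exact Pool.Agent.H23.GTop.main

end Pool.Agent.S01079
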