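import Pool.Statements.S01084
import Pool.Agent.H22.Fpl3

set_option autoImplicit false
universe u
open Pool Pool.MP_2fcc64_al

namespace Pool.Agent.S01084

/-- The negation of the preceding statement: For any field k and Lie algebra L over k, any two free product decompositions of L (nonzero subalgebras with the coproduct universal property) have refinements, indexed compatibly with a bijection, whose corresponding factors are isomorphic Lie algebras. -/
theorem result :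
    ¬ (∀ (k : Type u) [Field k] (L : Type u) [LieRing L] [LieAlgebra k L]
    (I : Type u) (A : I → LieSubalgebra k L) (I' : Type u) (A' : I' → LieSubalgebra k L),
    ((∀ i, A i ≠ ⊥) ∧ ∃ h : ∀ i, A i ≤ (⊤ : LieSubalgebra k L),
      ∀ (M : Type u) [LieRing M] [LieAlgebra k M] (f : ∀ i, ↥(A i) →ₗ⁅k⁆ M),
        ∃! g : ↥(⊤ : LieSubalgebra k L) →ₗ⁅k⁆ M,
          ∀ i, g.comp (LieSubalgebra.inclusion (h i)) = f i) →
    ((∀ i, A' i ≠ ⊥) ∧ ∃ h : ∀ i, A' i ≤ (⊤ : LieSubalgebra k L),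
      ∀ (M : Type u) [LieRing M] [LieAlgebra k M] (f : ∀ i, ↥(A' i) →ₗ⁅k⁆ M),
        ∃! g : ↥(⊤ : LieSubalgebra k L) →ₗ⁅k⁆ M,
          ∀ i, g.comp (LieSubalgebra.inclusion (h i)) = f i) →
    ∃ (J : Type u) (B : J → LieSubalgebra k L) (p : J → I)
      (J' : Type u) (B' : J' → LieSubalgebra k L) (p' : J' → I'),
      (∀ i : I, (∀ j : {j : J // p j = i}, B j.1 ≠ ⊥) ∧
        ∃ h : ∀ j : {j : J // p j = i}, B j.1 ≤ A i,
          ∀ (M : Type u) [LieRing M] [LieAlgebra k M]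
            (f : ∀ j : {j : J // p j = i}, ↥(B j.1) →ₗ⁅k⁆ M),
            ∃! g : ↥(A i) →ₗ⁅k⁆ M,
              ∀ j, g.comp (LieSubalgebra.inclusion (h j)) = f j) ∧
      (∀ i : I', (∀ j : {j : J' // p' j = i}, B' j.1 ≠ ⊥) ∧
        ∃ h : ∀ j : {j : J' // p' j = i}, B' j.1 ≤ A' i,
          ∀ (M : Type u) [LieRing M] [LieAlgebra k M]
            (f : ∀ j : {j : J' // p' j = i}, ↥(B' j.1) →ₗ⁅k⁆ M),
            ∃! g : ↥(A' i) →ₗ⁅k⁆ M,
              ∀ j, g.comp (LieSubalgebra.inclusion (h j)) = f j) ∧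
      ∃ σ : J ≃ J', ∀ j : J, Nonempty (↥(B j) ≃ₗ⁅k⁆ ↥(B' (σ j)))) := by
  intro H
  have : CharZero (ULift.{u} ℚ) := ⟨fun a b e => by simpa using congrArg ULift.down e⟩
  exact H22.Fpl.main (H (ULift.{u} ℚ))

end Pool.Agent.S01084
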