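import Pool.Statements.S01104
import Pool.Agent.H22.Part3

set_option autoImplicit false
open Pointwise
open Pool Pool.MP_317811_al

namespace Pool.Agent.S01104

/-- The negation of the preceding statement: For every group G and every partition of G into n cells A_1,…,A_n, some cell A_i and some finite set F of at most n elements satisfy A_i⁻¹·A_i·F = G. -/
theorem result :
    ¬ (∀ (G : Type) [Group G] (n : ℕ) (A : Fin n → Set G),
      Pairwise (fun i j => Disjoint (A i) (A j)) →
      (⋃ i, A i) = Set.univ →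
      ∃ i : Fin n, ∃ F : Finset G, F.card ≤ n ∧
        (A i)⁻¹ * A i * (F : Set G) = Set.univ) := by
  classical
  intro h
  obtain ⟨χ, h1, _⟩ := H22.Part.exists_partition
  obtain ⟨i, F, hF, hU⟩ := h H22.Part.Γ 9 (fun i => {z | χ z⁻¹ = i})
    (fun i j hij => Set.disjoint_left.2 fun z hz hz' => hij (hz.symm.trans hz'))
    (Set.eq_univ_of_forall fun z => Set.mem_iUnion.2 ⟨χ z⁻¹, rfl⟩)
  obtain ⟨g, hg⟩ := h1 i (insert 1 (F.image (·⁻¹))) ((Finset.card_insert_le _ _).trans (by
    have h2 := Finset.card_image_le (s := F) (f := (·⁻¹))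
    omega))
  have := hU ▸ Set.mem_univ g
  obtain ⟨_, ⟨a, ha, b, hb, rfl⟩, f, hf, rfl⟩ := this
  have ha' : χ a⁻¹⁻¹ = i := ha
  rw [inv_inv] at ha'
  exact hg 1 (Finset.mem_insert_self _ _) f⁻¹
    (Finset.mem_insert_of_mem (Finset.mem_image_of_mem (·⁻¹) hf)) a b⁻¹ ha' hb (by simp)

end Pool.Agent.S01104
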