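import Pool.Statements.S01117
import Pool.Agent.H33.Bar

set_option autoImplicit false
open Pool Pool.MP_32c87b_al

namespace Pool.Agent.S01117

open Pool.Agent.H33.Bar
theorem result :
    ∀ (G : Type) [Group G] [Lattice G] [MulLeftMono G] [MulRightMono G],
      ∃ (Ω : Type) (_ : PartialOrder Ω) (φ : G → (Ω ≃o Ω)),
        Function.Bijective φ ∧
        (∀ a b : G, φ (a * b) = (φ b).trans (φ a)) ∧
        (∀ a b : G, a ≤ b ↔ ∀ x : Ω, φ a x ≤ φ b x) := by
  intro G _ _ _ _
  classical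
  haveI : Nonempty (WO G) := ⟨(1 : G)⟩
  let W := WO G ×ₗ ℕ
  haveI : Nonempty W := ⟨toLex ((1 : G), 0)⟩
  obtain ⟨w0, -, h0⟩ := (wellFounded_lt (α := W)).has_min Set.univ Set.univ_nonempty
  have h0' : ∀ w, w0 ≤ w := fun w => not_lt.1 (h0 w trivial)
  have hz : (ofLex w0).2 = 0 := by
    have := h0' (toLex ((ofLex w0).1, 0))
    rw [Prod.Lex.le_iff] at this
    simpa using this
  let l : W → W → G := fun w v =>
    if (ofLex v).2 = 1 ∧ (ofLex w).2 = 2 then (ofLex w).1 else 1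
  refine main (l := l) w0 h0' (fun w => ?_) (fun w => ?_) (fun g => ?_)
  · simp [l, hz]
  · simp only [l]
    rw [if_neg]
    omega
  · refine ⟨toLex (g, 2), toLex (g, 1), ?_, by simp [l]⟩
    rw [Prod.Lex.le_iff]
    simp

end Pool.Agent.S01117
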