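import Pool.Statements.S01138
import Pool.Agent.H22.SL3b

set_option autoImplicit false
open Pool Pool.MP_3384ed_al

namespace Pool.Agent.S01138

/-- The negation of the preceding statement: For a finite group G whose only composition series 1◁G1◁G2◁G has factors Z_p, a non-abelian simple X, and Z_q (p, q prime), the formation generated by G has infinitely many subformations iff p = q. -/
theorem result :
    ¬ (∀ (G : Type) [Group G] [Finite G] (p q : ℕ) (G1 G2 : Subgroup G),
    p.Prime → q.Prime →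
    G1 ≤ G2 →
    ∀ [(G1.subgroupOf G2).Normal] [G2.Normal],
    Nat.card G1 = p →
    IsSimpleGroup (G2 ⧸ G1.subgroupOf G2) →
    (¬ ∀ a b : G2 ⧸ G1.subgroupOf G2, a * b = b * a) →
    Nat.card (G ⧸ G2) = q →
    (∀ (A B : Subgroup G) [(A.subgroupOf B).Normal] [B.Normal], A ≤ B →
        IsSimpleGroup A → IsSimpleGroup (B ⧸ A.subgroupOf B) → IsSimpleGroup (G ⧸ B) →
        A = G1 ∧ B = G2) →
    (Set.Infinite {F : ∀ (H : Type) [Group H], Prop |
        (∀ (H : Type) [Group H], F H → ∃ n : ℕ, ∃ S : Subgroup (Fin n → G),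
            (∀ (i : Fin n) (g : G), ∃ s ∈ S, s i = g) ∧
            ∃ f : S →* H, Function.Surjective f) ∧
        (∀ (H K : Type) [Group H] [Group K] (f : H →* K),
            Function.Surjective f → F H → F K) ∧
        (∀ (H : Type) [Group H] (N1 N2 : Subgroup H) [N1.Normal] [N2.Normal],
            F (H ⧸ N1) → F (H ⧸ N2) → F (H ⧸ (N1 ⊓ N2)))} ↔ p = q)) := by
  intro h
  obtain ⟨G, _, _, d, c, i⟩ := H22.Comp.ex
  refine (h G 3 3 _ d.K Nat.prime_three Nat.prime_three d.le c d.simp.1 d.simp.2 i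
    (d.uniq c i)).2 rfl (d.fin.subset ?_)
  rintro F ⟨a, b, e⟩
  exact ⟨H22.GLS.mk_form (fun H _ u => (H22.Comp.InF.fin (a H u)).1) (fun G H _ _ => b G H)
    fun G _ _ N L _ _ k u v => b _ _ ((QuotientGroup.quotientMulEquivOfEq k).trans
      QuotientGroup.quotientBot).toMonoidHom (MulEquiv.surjective _) (e G N L u v), a⟩

end Pool.Agent.S01138
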