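import Pool.Statements.S01146
import Pool.Agent.H22.Part3

set_option autoImplicit false
open Pointwise
open Pool Pool.MP_34521c_al

namespace Pool.Agent.S01146

/-- The negation of the preceding statement: For every group G partitioned into n nonempty cells that pairwise commute as sets, some cell A has the property that at most n translates of A·A⁻¹ cover G. -/
theorem result :
    ¬ (∀ (G : Type) [Group G] (n : ℕ) (A : Fin n → Set G),
      (∀ i, (A i).Nonempty) →
      Pairwise (fun i j => Disjoint (A i) (A j)) →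
      (⋃ i, A i) = Set.univ →
      (∀ i j, A i * A j = A j * A i) →
      ∃ i : Fin n, ∃ F : Finset G, F.card ≤ n ∧
        (F : Set G) * (A i * (A i)⁻¹) = Set.univ) := by
  classical
  intro h
  obtain ⟨χ, h1, h2⟩ := H22.Part.exists_partition
  have hm : ∀ i j : Fin 9, {z | χ z = i} * {z | χ z = j} = Set.univ := by
    intro i j
    refine Set.eq_univ_of_forall fun g => ?_
    obtain ⟨a, b, ha, hb, rfl⟩ := h2 i j g
    exact Set.mul_mem_mul ha hb
  obtain ⟨i, F, hF, hU⟩ := h H22.Part.Γ 9 (fun i => {z | χ z = i})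
    (fun i => by
      obtain ⟨a, _, ha, _⟩ := h2 i i 1
      exact ⟨a, ha⟩)
    (fun i j hij => Set.disjoint_left.2 fun z hz hz' => hij (hz.symm.trans hz'))
    (Set.eq_univ_of_forall fun z => Set.mem_iUnion.2 ⟨χ z, rfl⟩)
    (fun i j => by rw [hm, hm])
  obtain ⟨g, hg⟩ := h1 i (insert 1 F) ((Finset.card_insert_le _ _).trans (by omega))
  have := hU ▸ Set.mem_univ g
  obtain ⟨f, hf, _, ⟨a, ha, b, hb, rfl⟩, rfl⟩ := this
  exact hg f (Finset.mem_insert_of_mem hf) 1 (Finset.mem_insert_self _ _) a b⁻¹ ha hb
    (by simp [mul_assoc])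

end Pool.Agent.S01146
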