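import Pool.Statements.S01178
import Pool.Agent.H33.Kos

set_option autoImplicit false
open Pool Pool.MP_36bee5_al

namespace Pool.Agent.S01178

open MvPolynomial Pool.Agent.H33.Kos

noncomputable abbrev v (i : Fin 4) : S ⧸ J := Ideal.Quotient.mk J (X i)
noncomputable abbrev sp (i : Fin 4) : Ideal (S ⧸ J) := Ideal.span {v i}

noncomputable def E : Fin 6 → S :=
  ![X 0 * X 1, X 0 * X 3, X 2 * X 1, X 2 * X 3, X 0 ^ 2 - X 1 ^ 2, X 2 ^ 2 - X 3 ^ 2]

lemma hE (k : Fin 6) : (E k).IsHomogeneous 2 := by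
  have x := fun i => isHomogeneous_X ℚ (σ := Fin 4) i
  fin_cases k
  exacts [(x 0).mul (x 1), (x 0).mul (x 3), (x 2).mul (x 1), (x 2).mul (x 3),
    ((x 0).pow 2).sub ((x 1).pow 2), ((x 2).pow 2).sub ((x 3).pow 2)]

lemma pt (f : S) (hf : f ∈ J) (a b c d : ℚ) (h1 : a ^ 2 = b ^ 2) (h2 : c ^ 2 = d ^ 2) :
    eval ![a, b, c, d] f = 0 := kill (eval ![a, b, c, d]) (by simpa using h1) (by simpa using h2) f hf

lemma dual : ∃ (T : Type) (_ : CommRing T) (_ : Algebra ℚ T) (x t : T),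
    x ^ 2 = 0 ∧ t ^ 2 = 0 ∧ x * t ≠ 0 := by
  refine ⟨DualNumber (DualNumber ℚ), inferInstance, inferInstance, TrivSqZeroExt.inl DualNumber.eps,
    DualNumber.eps, by ext <;> simp [sq], by simp, fun h => ?_⟩
  simpa using congrArg (fun q => q.snd.snd) h

lemma nolin (m n : ℕ) (g : Fin m → S ⧸ J) (A : Matrix (Fin m) (Fin n) (S ⧸ J))
    (hg : ∀ j, ∃ p : S, p.IsHomogeneous 2 ∧ Ideal.Quotient.mk J p = g j)
    (hA : ∀ a c, ∃ p : S, p.IsHomogeneous 1 ∧ Ideal.Quotient.mk J p = A a c)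
    (hs : Ideal.span (Set.range g) = (sp 0 ⊔ sp 2) * (sp 1 ⊔ sp 3))
    (hx : ∀ u : Fin m → S ⧸ J, ∑ j, u j * g j = 0 ↔ ∃ w, A.mulVec w = u) : False := by
  choose p hp hpg using hg
  choose a ha haA using hA
  have eJ : ∀ k, Ideal.span {Ideal.Quotient.mk J (E k)} ≤
      (Ideal.span (Set.range E)).map (Ideal.Quotient.mk J) := fun k =>
    (Ideal.span_singleton_le_iff_mem _).2 (Ideal.mem_map_of_mem _ (Ideal.subset_span ⟨k, rfl⟩))
  have h1 : ∀ j, p j ∈ Ideal.span (Set.range E) := by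
    intro j
    have : g j ∈ (Ideal.span (Set.range E)).map (Ideal.Quotient.mk J) := by
      refine (show Ideal.span (Set.range g) ≤ _ from ?_) (Ideal.subset_span ⟨j, rfl⟩)
      rw [hs, Ideal.sup_mul, Ideal.mul_sup, Ideal.mul_sup]
      simp only [Ideal.span_singleton_mul_span_singleton, ← map_mul]
      exact sup_le (sup_le (eJ 0) (eJ 1)) (sup_le (eJ 2) (eJ 3))
    rw [← hpg, Ideal.mem_quotient_iff_mem_sup] at this
    refine (sup_le le_rfl (Ideal.span_mono ?_) : _ ⊔ J ≤ _) this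
    rintro _ (rfl | rfl)
    exacts [⟨4, rfl⟩, ⟨5, rfl⟩]
  choose c hc using fun j => const E hE (p j) (hp j) (h1 j)
  have h2 : ∀ i k, v i * v k ∈ (sp 0 ⊔ sp 2) * (sp 1 ⊔ sp 3) →
      ∃ u : Fin m → ℚ, X i * X k - ∑ j, C (u j) * p j ∈ J := by
    intro i k h
    rw [← hs, ← funext hpg, ← map_mul, Set.range_comp' (Ideal.Quotient.mk J) p, ← Ideal.map_span,
      Ideal.mem_quotient_iff_mem_sup] at h
    obtain ⟨u, hu⟩ := const (Sum.elim p ![E 4, E 5]) (by
        rintro (j | j)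
        · exact hp j
        · fin_cases j
          exacts [hE 4, hE 5]) _ ((isHomogeneous_X ℚ i).mul (isHomogeneous_X ℚ k)) (by
      rw [Set.Sum.elim_range, Ideal.span_union, Matrix.range_cons, Matrix.range_cons,
        Matrix.range_empty, Set.union_empty, Set.singleton_union]
      exact h)
    refine ⟨fun j => u (.inl j), ?_⟩
    rw [hu, Fintype.sum_sum_type, Fin.sum_univ_two]
    simp only [Sum.elim_inl, Sum.elim_inr, add_sub_cancel_left]
    exact Ideal.mem_span_pair.2 ⟨_, _, rfl⟩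
  have ms := fun i => Ideal.mem_span_singleton_self (v i)
  obtain ⟨u, hu⟩ := h2 0 3 (Ideal.mul_mem_mul (Ideal.mem_sup_left (ms 0)) (Ideal.mem_sup_right (ms 3)))
  obtain ⟨u', hu'⟩ := h2 2 1 (Ideal.mul_mem_mul (Ideal.mem_sup_right (ms 2)) (Ideal.mem_sup_left (ms 1)))
  have h3 : ∑ j, u j * c j 1 = 1 := by
    have e := fun a b c d h1 h2 => pt _ hu a b c d h1 h2
    simp only [hc, map_sub, map_sum, map_mul, eval_C, eval_X, Fin.sum_univ_six, map_add, E] at e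
    have e1 := e 1 1 1 1 rfl rfl
    have e2 := e 1 (-1) 1 1 (by ring) rfl
    have e3 := e 0 0 1 1 rfl rfl
    simp [mul_add, Finset.sum_add_distrib] at e1 e2 e3
    linarith
  have h4 : ∀ k, ∃ α : Fin m → Fin 4 → ℚ, (∀ j, a j k = ∑ i, C (α j i) * X i) ∧
      ∑ j, α j 0 * c j 1 = 0 ∧ ∑ j, α j 3 * c j 1 = 0 := by
    intro k
    choose α hα using fun j => lin (a j k) (ha j k)
    have h := (hx _).2 ⟨Pi.single k 1, rfl⟩
    simp only [Matrix.mulVec_single_one, Matrix.col_apply, ← haA, ← hpg, ← map_mul, ← map_sum,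
      Ideal.Quotient.eq_zero_iff_mem] at h
    let L : Fin 4 → Fin 6 → ℚ := fun i l => ∑ j, α j i * c j l
    have e : ∀ x y z t : ℚ, x ^ 2 = y ^ 2 → z ^ 2 = t ^ 2 →
        (L 0 0 * x + L 1 0 * y + L 2 0 * z + L 3 0 * t) * (x * y) +
        (L 0 1 * x + L 1 1 * y + L 2 1 * z + L 3 1 * t) * (x * t) +
        (L 0 2 * x + L 1 2 * y + L 2 2 * z + L 3 2 * t) * (z * y) +
        (L 0 3 * x + L 1 3 * y + L 2 3 * z + L 3 3 * t) * (z * t) = 0 := by
      intro x y z t h1 h2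
      rw [← pt _ h x y z t h1 h2, map_sum]
      simp only [L, Finset.sum_mul, ← Finset.sum_add_distrib]
      refine Finset.sum_congr rfl fun j _ => ?_
      simp [hα, hc, Fin.sum_univ_six, Fin.sum_univ_four, E, h1, h2]
      ring
    have e1 := e 1 1 1 1 (by ring) (by ring)
    have e2 := e 1 (-1) 1 1 (by ring) (by ring)
    have e3 := e 1 1 1 (-1) (by ring) (by ring)
    have e4 := e 1 (-1) 1 (-1) (by ring) (by ring)
    have e5 := e (-1) 1 1 1 (by ring) (by ring)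
    have e6 := e (-1) (-1) 1 1 (by ring) (by ring)
    have e7 := e (-1) 1 1 (-1) (by ring) (by ring)
    have e8 := e (-1) (-1) 1 (-1) (by ring) (by ring)
    have e9 := e 0 0 1 1 (by ring) (by ring)
    have e10 := e 0 0 1 (-1) (by ring) (by ring)
    have e11 := e 1 1 0 0 (by ring) (by ring)
    have e12 := e 1 (-1) 0 0 (by ring) (by ring)
    exact ⟨α, hα, show L 0 1 = 0 by linarith, show L 3 1 = 0 by linarith⟩
  choose α hα h5 h6 using h4
  have hv : ∀ (u : Fin m → ℚ) i k, X i * X k - ∑ j, C (u j) * p j ∈ J →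
      ∑ j, Ideal.Quotient.mk J (C (u j)) * g j = v i * v k := by
    intro u i k h
    simp only [← hpg, ← map_mul, ← map_sum]
    exact (Ideal.Quotient.eq.2 h).symm
  obtain ⟨w, hw⟩ := (hx fun j => v 0 * v 3 * Ideal.Quotient.mk J (C (u j)) -
      v 2 * v 1 * Ideal.Quotient.mk J (C (u' j))).1 (by
    simp only [sub_mul, Finset.sum_sub_distrib, mul_assoc, ← Finset.mul_sum, hv _ _ _ hu, hv _ _ _ hu']
    have a := hy
    have b := ht
    rw [io0] at a
    rw [io1] at b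
    linear_combination v 0 ^ 2 * b - v 2 ^ 2 * a)
  obtain ⟨T, _, _, x, t, hx, ht, hxt⟩ := dual
  let F : S →+* T := (aeval ![x, 0, 0, t]).toRingHom
  have hF := kill F (by simp [F, hx]) (by simp [F, ht])
  have hC : ∀ q, F (C q) = algebraMap ℚ _ q := fun q => by simp [F]
  have hX : ∀ i, F (X i) = ![x, 0, 0, t] i := fun q => by simp [F]
  have : ∑ j, Ideal.Quotient.lift J F hF (A.mulVec w j) * algebraMap ℚ _ (c j 1) = 0 := by
    simp only [Matrix.mulVec, dotProduct, map_sum, Finset.sum_mul, map_mul]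
    rw [Finset.sum_comm]
    refine Finset.sum_eq_zero fun k _ => ?_
    have : ∀ j, Ideal.Quotient.lift J F hF (A j k) * Ideal.Quotient.lift J F hF (w k) *
        algebraMap ℚ _ (c j 1) = Ideal.Quotient.lift J F hF (w k) *
          (algebraMap ℚ _ (α k j 0 * c j 1) * x + algebraMap ℚ _ (α k j 3 * c j 1) * t) := by
      intro j
      rw [← haA, Ideal.Quotient.lift_mk, hα]
      simp [Fin.sum_univ_four, hC, hX]
      ring
    simp only [this, ← Finset.mul_sum, Finset.sum_add_distrib, ← Finset.sum_mul, ← map_sum, h5, h6]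
    simp
  simp only [hw, map_sub, map_mul, Ideal.Quotient.lift_mk, hC, hX] at this
  simp [mul_assoc, ← map_mul, ← Finset.mul_sum, ← map_sum, h3] at this
  exact hxt this

def Gen (I : Ideal (S ⧸ J)) : Prop := I = Ideal.span {y | y ∈ I ∧
  ∃ p : S, p.IsHomogeneous 1 ∧ Ideal.Quotient.mk J p = y}

lemma linv (i : Fin 4) : ∃ p : S, p.IsHomogeneous 1 ∧ Ideal.Quotient.mk J p = v i :=
  ⟨X i, isHomogeneous_X _ _, rfl⟩

lemma gen_sp (i : Fin 4) : Gen (sp i) :=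
  le_antisymm (Ideal.span_mono (by
    rintro _ rfl; exact ⟨Ideal.mem_span_singleton_self _, linv i⟩)) (Ideal.span_le.2 fun _ h => h.1)

lemma gen_sup {I K : Ideal (S ⧸ J)} (hI : Gen I) (hK : Gen K) : Gen (I ⊔ K) :=
  le_antisymm (sup_le (hI.le.trans (Ideal.span_mono fun _ h => ⟨Ideal.mem_sup_left h.1, h.2⟩))
    (hK.le.trans (Ideal.span_mono fun _ h => ⟨Ideal.mem_sup_right h.1, h.2⟩)))
    (Ideal.span_le.2 fun _ h => h.1)

lemma colon {R : Type} [CommRing R] (I : Ideal R) (l r : R) :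
    (∀ y ∈ I ⊔ Ideal.span {l}, r * y ∈ I) ↔ r * l ∈ I := by
  refine ⟨fun h => h _ (Ideal.mem_sup_right (Ideal.mem_span_singleton_self _)), fun h y hy => ?_⟩
  obtain ⟨a, ha, b, hb, rfl⟩ := Submodule.mem_sup.1 hy
  obtain ⟨c, rfl⟩ := Ideal.mem_span_singleton'.1 hb
  rw [mul_add, mul_left_comm]
  exact I.add_mem (I.mul_mem_left _ ha) (I.mul_mem_left _ h)

lemma msup {R : Type} [CommRing R] (I : Ideal R) (l r : R) :
    r ∈ I ⊔ Ideal.span {l} ↔ ∃ a ∈ I, ∃ b, a + b * l = r := by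
  simp [Submodule.mem_sup, Ideal.mem_span_singleton']

theorem result :
    ¬ (∀ (K : Type) [Field K] (n : ℕ) (J : Ideal (MvPolynomial (Fin n) K)),
      (∀ p ∈ J, ∀ i : ℕ, MvPolynomial.homogeneousComponent i p ∈ J) →
      ∀ (F : Set (Ideal (MvPolynomial (Fin n) K ⧸ J))),
        (∀ I ∈ F, I = Ideal.span {y : MvPolynomial (Fin n) K ⧸ J | y ∈ I ∧
            ∃ p : MvPolynomial (Fin n) K, p.IsHomogeneous 1 ∧ Ideal.Quotient.mk J p = y}) →
        (⊥ ∈ F) →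
        (Ideal.span {y : MvPolynomial (Fin n) K ⧸ J |
            ∃ p : MvPolynomial (Fin n) K, p.IsHomogeneous 1 ∧ Ideal.Quotient.mk J p = y} ∈ F) →
        (∀ I ∈ F, I ≠ ⊥ → ∃ I' ∈ F, I' ≤ I ∧
            (∃ x : MvPolynomial (Fin n) K ⧸ J,
              (∃ p : MvPolynomial (Fin n) K, p.IsHomogeneous 1 ∧ Ideal.Quotient.mk J p = x) ∧
              I = I' ⊔ Ideal.span {x}) ∧
            ∃ C ∈ F, ∀ r : MvPolynomial (Fin n) K ⧸ J, r ∈ C ↔ ∀ y ∈ I, r * y ∈ I') →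
        ∀ (d : ℕ), 1 ≤ d → ∀ (I : Fin d → Ideal (MvPolynomial (Fin n) K ⧸ J)),
          (∀ k, I k ∈ F) → (∏ k, I k) ≠ ⊥ →
          ∃ b : ℕ → ℕ, ∃ g : Fin (b 0) → MvPolynomial (Fin n) K ⧸ J,
            ∃ A : (i : ℕ) → Matrix (Fin (b i)) (Fin (b (i + 1))) (MvPolynomial (Fin n) K ⧸ J),
              (∀ j, ∃ p : MvPolynomial (Fin n) K, p.IsHomogeneous d ∧ Ideal.Quotient.mk J p = g j) ∧
              (∀ i a c, ∃ p : MvPolynomial (Fin n) K, p.IsHomogeneous 1 ∧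
                  Ideal.Quotient.mk J p = A i a c) ∧
              Ideal.span (Set.range g) = ∏ k, I k ∧
              (∀ v : Fin (b 0) → MvPolynomial (Fin n) K ⧸ J,
                  ∑ j, v j * g j = 0 ↔ ∃ w, (A 0).mulVec w = v) ∧
              (∀ (i : ℕ) (v : Fin (b (i + 1)) → MvPolynomial (Fin n) K ⧸ J),
                  (A i).mulVec v = 0 ↔ ∃ w, (A (i + 1)).mulVec w = v)) := by
  intro h
  have hJ : ∀ p ∈ J, ∀ i : ℕ, homogeneousComponent i p ∈ J := by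
    let _ := MvPolynomial.gradedAlgebra (σ := Fin 4) (R := ℚ)
    have h : J.IsHomogeneous (homogeneousSubmodule (Fin 4) ℚ) := by
      apply Ideal.homogeneous_span
      rintro _ (rfl | rfl)
      exacts [⟨_, hE 4⟩, ⟨_, hE 5⟩]
    exact fun f hf d => homogeneousComponent_mem_of_mem h hf d
  have ms := fun i => Ideal.mem_span_singleton_self (v i)
  have hy2 : v 1 * v 1 = v 0 * v 0 := by rw [← sq, hy, io0, sq]
  have ht2 : v 3 * v 3 = v 2 * v 2 := by rw [← sq, ht, io1, sq]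
  obtain ⟨b, g, A, h1, h2, h3, h4, -⟩ := h ℚ 4 J hJ
    {⊥, sp 0, sp 1, sp 0 ⊔ sp 2, sp 1 ⊔ sp 3, sp 0 ⊔ sp 2 ⊔ sp 1, sp 0 ⊔ sp 2 ⊔ sp 1 ⊔ sp 3}
    (by
      rintro _ (rfl | rfl | rfl | rfl | rfl | rfl | rfl)
      · exact le_antisymm bot_le (Ideal.span_le.2 fun _ h => h.1)
      exacts [gen_sp 0, gen_sp 1, gen_sup (gen_sp 0) (gen_sp 2), gen_sup (gen_sp 1) (gen_sp 3),
        gen_sup (gen_sup (gen_sp 0) (gen_sp 2)) (gen_sp 1),
        gen_sup (gen_sup (gen_sup (gen_sp 0) (gen_sp 2)) (gen_sp 1)) (gen_sp 3)])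
    (by simp)
    (by
      suffices Ideal.span {y | ∃ p : S, p.IsHomogeneous 1 ∧ Ideal.Quotient.mk J p = y} =
        sp 0 ⊔ sp 2 ⊔ sp 1 ⊔ sp 3 by simp [this]
      refine le_antisymm (Ideal.span_le.2 ?_) (sup_le (sup_le (sup_le ?_ ?_) ?_) ?_)
      · rintro _ ⟨p, hp, rfl⟩
        obtain ⟨c, rfl⟩ := lin p hp
        simp only [SetLike.mem_coe, msup, Ideal.mem_span_singleton', Fin.sum_univ_four, map_add, map_mul]
        exact ⟨_, ⟨_, ⟨_, ⟨_, rfl⟩, _, rfl⟩, _, rfl⟩, _, by rw [add_right_comm (_ * v 0)]⟩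
      all_goals exact Ideal.span_mono (by rintro _ rfl; exact linv _))
    (by
      rintro _ (rfl | rfl | rfl | rfl | rfl | rfl | rfl) h0
      · exact absurd rfl h0
      · refine ⟨⊥, by simp, bot_le, ⟨_, linv 0, by simp⟩, ⊥, by simp, fun r => ?_⟩
        rw [← bot_sup_eq (sp 0), colon]
        exact ⟨fun h => by simp [Ideal.mem_bot.1 h], fun h => c1 io _ _ nf key r (io0 ▸ h)⟩
      · refine ⟨⊥, by simp, bot_le, ⟨_, linv 1, by simp⟩, ⊥, by simp, fun r => ?_⟩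
        rw [← bot_sup_eq (sp 1), colon]
        exact ⟨fun h => by simp [Ideal.mem_bot.1 h], fun h => c2 io _ _ hy nf key r h⟩
      · refine ⟨sp 0, by simp, le_sup_left, ⟨_, linv 2, rfl⟩, sp 0, by simp, fun r => ?_⟩
        rw [colon]
        refine ⟨Ideal.mul_mem_right _ _, fun h => ?_⟩
        simp only [Ideal.mem_span_singleton', ← io0, ← io1] at h ⊢
        obtain ⟨s, hs⟩ := h
        exact c3 io _ _ nf key r s hs
      · refine ⟨sp 1, by simp, le_sup_left, ⟨_, linv 3, rfl⟩, sp 1, by simp, fun r => ?_⟩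
        rw [colon]
        refine ⟨Ideal.mul_mem_right _ _, fun h => ?_⟩
        simp only [Ideal.mem_span_singleton'] at h ⊢
        obtain ⟨s, hs⟩ := h
        exact c4 io _ _ hy ht nf key r s hs
      · refine ⟨sp 0 ⊔ sp 2, by simp, le_sup_left, ⟨_, linv 1, rfl⟩, sp 0 ⊔ sp 2 ⊔ sp 1, by simp,
          fun r => ?_⟩
        rw [colon]
        simp only [msup, Ideal.mem_span_singleton']
        constructor
        · rintro ⟨_, ⟨_, ⟨a, rfl⟩, b, rfl⟩, c, rfl⟩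
          exact ⟨_, ⟨a * v 1 + c * v 0, rfl⟩, b * v 1, by linear_combination (-c) * hy2⟩
        · rintro ⟨_, ⟨a, rfl⟩, b, h⟩
          obtain ⟨a, b, c, rfl⟩ := c5 io _ _ hy nf key r a b (by rw [io0, io1]; exact h)
          exact ⟨_, ⟨_, ⟨a, rfl⟩, b, rfl⟩, c, by rw [io0, io1]⟩
      · refine ⟨sp 0 ⊔ sp 2 ⊔ sp 1, by simp, le_sup_left, ⟨_, linv 3, rfl⟩,
          sp 0 ⊔ sp 2 ⊔ sp 1 ⊔ sp 3, by simp, fun r => ?_⟩
        rw [colon]
        simp only [msup, Ideal.mem_span_singleton']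
        constructor
        · rintro ⟨_, ⟨_, ⟨_, ⟨a, rfl⟩, b, rfl⟩, c, rfl⟩, d, rfl⟩
          exact ⟨_, ⟨_, ⟨a * v 3, rfl⟩, b * v 3 + d * v 2, rfl⟩, c * v 3,
            by linear_combination (-d) * ht2⟩
        · rintro ⟨_, ⟨_, ⟨a, rfl⟩, b, rfl⟩, c, h⟩
          obtain ⟨a, b, c, d, rfl⟩ := c6 io _ _ hy ht nf key r a b c (by rw [io0, io1]; exact h)
          exact ⟨_, ⟨_, ⟨_, ⟨a, rfl⟩, b, rfl⟩, c, rfl⟩, d, by rw [io0, io1]⟩)
    2 (by norm_num) ![sp 0 ⊔ sp 2, sp 1 ⊔ sp 3] (by intro k; fin_cases k <;> simp)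
    (by
      intro h0
      rw [Fin.prod_univ_two] at h0
      have : v 0 * v 1 ∈ (⊥ : Ideal (S ⧸ J)) :=
        h0 ▸ Ideal.mul_mem_mul (Ideal.mem_sup_left (ms 0)) (Ideal.mem_sup_left (ms 1))
      exact X_ne_zero _ (key 0 (X 0) 0 0 (by simpa [io0] using this)).2.1)
  rw [Fin.prod_univ_two] at h3
  exact nolin _ _ g (A 0) h1 (h2 0) h3 h4

end Pool.Agent.S01178
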