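import Pool.Statements.S01194
import Pool.Agent.H21.Hayashi

set_option autoImplicit false
open Pool Pool.MP_37d31d_al

namespace Pool.Agent.S01194

theorem result :
    ¬ (∀ (X : Type) [Quandle X] [Fintype X],
      (∀ a b : X, ∃ g ∈ Subgroup.closure (Set.range (Rack.act' : X → Equiv.Perm X)), g a = b) →
      ∀ x : X, ∃ z : X, ∀ y : X,
        Function.minimalPeriod (Shelf.act x) y ∣ Function.minimalPeriod (Shelf.act x) z) := by
  intro h
  haveI : Fintype Pool.Agent.H21.Hayashi.X := Fintype.ofFinite _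
  exact Pool.Agent.H21.Hayashi.no_regular
    (h Pool.Agent.H21.Hayashi.X Pool.Agent.H21.Hayashi.conn1 Pool.Agent.H21.Hayashi.c0)

end Pool.Agent.S01194
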