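import Pool.Statements.S01235
import Pool.Agent.H22.Img6

set_option autoImplicit false
open Polynomial
open Pool Pool.MP_3bbc5b_al

namespace Pool.Agent.S01235

/-- For the Hermite, Laguerre and Jacobi operators (α, β > −1), the polynomials lying in the image of ℂ[t] form a Mathieu subspace: if every power a^m (m ≥ 1) is in it, then b·a^m is in it for all large m, for every polynomial b. -/
theorem result :
    (∀ a b : Polynomial ℂ,
      (∀ m : ℕ, 1 ≤ m → ∃ f : Polynomial ℂ, a ^ m = derivative f - 2 * X * f) →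
      ∃ N : ℕ, ∀ m : ℕ, N ≤ m → ∃ f : Polynomial ℂ, b * a ^ m = derivative f - 2 * X * f) ∧
    (∀ α : ℝ, -1 < α → ∀ a b : Polynomial ℂ,
      (∀ m : ℕ, 1 ≤ m → ∃ f : Polynomial ℂ,
        X * a ^ m = X * derivative f + (C (α : ℂ) - X) * f) →
      ∃ N : ℕ, ∀ m : ℕ, N ≤ m → ∃ f : Polynomial ℂ,
        X * (b * a ^ m) = X * derivative f + (C (α : ℂ) - X) * f) ∧
    (∀ α β : ℝ, -1 < α → -1 < β → ∀ a b : Polynomial ℂ,
      (∀ m : ℕ, 1 ≤ m → ∃ f : Polynomial ℂ,
        (1 - X ^ 2) * a ^ m = (1 - X ^ 2) * derivative f - C (α : ℂ) * (1 + X) * f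
          + C (β : ℂ) * (1 - X) * f) →
      ∃ N : ℕ, ∀ m : ℕ, N ≤ m → ∃ f : Polynomial ℂ,
        (1 - X ^ 2) * (b * a ^ m) = (1 - X ^ 2) * derivative f - C (α : ℂ) * (1 + X) * f
          + C (β : ℂ) * (1 - X) * f) := by
  have pos : ∀ x : ℝ, 0 < x → ∀ n : ℕ, (x : ℂ) + n ≠ 0 := fun x hx n => by
    exact_mod_cast (by positivity : x + n ≠ 0)
  refine ⟨fun a b h => ?_, fun α hα a b h => ?_, fun α β hα hβ a b h => ?_⟩
  · obtain ⟨N, hN⟩ := H22.Img.main 1 (2 * X) a b fun m hm => (h m hm).imp fun f e => by simp [e]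
    exact ⟨N, fun m hm => (hN m hm).imp fun f e => by simp [← e]⟩
  · rcases eq_or_ne α 0 with rfl | h0
    · obtain ⟨N, hN⟩ := H22.Img.main 1 1 a b fun m hm => (h m hm).imp fun f e =>
        mul_left_cancel₀ X_ne_zero (by rw [e]; simp; ring)
      exact ⟨N, fun m hm => (hN m hm).imp fun f e => by rw [← e]; simp; ring⟩
    · obtain rfl | ⟨k, hk⟩ := H22.Img.gen (σ := X) (τ := C (α + 1 : ℂ) - X) (f := a) (fun ρ e => by
          rw [eval_X] at e
          have := pos (α + 1) (by linarith)
          simpa [e] using this) fun m hm => by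
        obtain ⟨f, e⟩ := h m hm
        obtain ⟨k, rfl⟩ : X ∣ f := by
          have := congrArg (eval 0) e
          rw [X_dvd_iff, coeff_zero_eq_eval_zero]
          simpa [h0] using this
        refine ⟨k, mul_left_cancel₀ X_ne_zero ?_⟩
        rw [e]; simp; ring
      · exact ⟨1, fun m hm => ⟨0, by simp [show m ≠ 0 by omega]⟩⟩
      · exact (H22.Img.nodeg (by simp) (by compute_degree) (by simp [coeff_X, coeff_one]) hk).elim
  · have ha := pos (α + 1) (by linarith)
    have hb := pos (β + 1) (by linarith)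
    rcases eq_or_ne α 0 with rfl | h0
    · refine ⟨0, fun m _ => ?_⟩
      obtain ⟨k, e⟩ := H22.Img.surj1 (-1) _ hb (b * a ^ m)
      exact ⟨(1 + X) * k, by rw [← e]; simp; ring⟩
    rcases eq_or_ne β 0 with rfl | h1
    · refine ⟨0, fun m _ => ?_⟩
      obtain ⟨k, e⟩ := H22.Img.surj1 1 _ ha (b * a ^ m)
      exact ⟨(X - 1) * k, by rw [← e]; simp; ring⟩
    have z : (1 - X ^ 2 : ℂ[X]) ≠ 0 := fun e => by simpa using congrArg (eval 0) e
    obtain rfl | ⟨k, hk⟩ := H22.Img.gen (σ := 1 - X ^ 2)
      (τ := C (β - α : ℂ) - C (α + β + 2 : ℂ) * X) (f := a) (fun ρ e => by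
        have : ρ = 1 ∨ ρ = -1 := by
          simp only [eval_sub, eval_one, eval_pow, eval_X] at e
          exact mul_self_eq_one_iff.1 (by linear_combination -e)
        rcases this with rfl | rfl
        · refine ⟨by simp, fun j z => ha j ?_⟩
          simp at z
          push_cast
          linear_combination (-1 / 2) * z
        · refine ⟨by simp, fun j z => hb j ?_⟩
          simp at z
          push_cast
          linear_combination (1 / 2) * z) fun m hm => by
      obtain ⟨f, e⟩ := h m hm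
      obtain ⟨k, rfl⟩ : (X - C 1) * (X - C (-1)) ∣ f := by
        refine (isCoprime_X_sub_C_of_isUnit_sub (by norm_num)).mul_dvd
          (dvd_iff_isRoot.2 ?_) (dvd_iff_isRoot.2 ?_)
        · simpa [h0] using congrArg (eval 1) e
        · simpa [h1] using congrArg (eval (-1)) e
      refine ⟨-k, mul_left_cancel₀ z ?_⟩
      rw [e]; simp [map_ofNat]; ring
    · exact ⟨1, fun m hm => ⟨0, by simp [show m ≠ 0 by omega]⟩⟩
    · refine (H22.Img.nodeg (by compute_degree) (by compute_degree) (fun n e => pos (α + β + 2)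
        (by linarith) n ?_) hk).elim
      simp [coeff_X, coeff_one, coeff_X_pow] at e
      push_cast
      linear_combination -e

end Pool.Agent.S01235
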