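import Pool.Statements.S01258
import Pool.Agent.H33.UA2

set_option autoImplicit false
open Pool Pool.MP_3dd297_al

namespace Pool.Agent.S01258

open Pool.Agent.H33.UA
theorem result :
    ¬ (∀ (G : Type) [AddCommGroup G] [Lattice G] [IsOrderedAddMonoid G],
      (∃ (I : Type) (f : G →+ (I → ℤ)),
        Function.Injective f ∧
        (∀ x y : G, f (x ⊔ y) = f x ⊔ f y) ∧
        (∀ x y : G, f (x ⊓ y) = f x ⊓ f y) ∧
        (∀ i : I, Function.Surjective (fun x : G => f x i))) →
      ∀ op : G → G → G,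
        (∀ a b c : G, op (op a b) c = op a (op b c)) →
        (∀ a : G, op 0 a = a ∧ op a 0 = a) →
        (∀ a : G, ∃ b : G, op a b = 0 ∧ op b a = 0) →
        (∀ a b c : G, a ≤ b → op c a ≤ op c b ∧ op a c ≤ op b c) →
        ∀ x y : G, op x y = x + y) := by
  intro h
  have key := h GG ⟨D, emb, emb_inj, fun x y => funext fun d => ?_, fun x y => funext fun d => ?_,
    fun d n => ?_⟩ (fun x y => Phi.symm (Phi x + Phi y)) (fun a b c => ?_) (fun a => ?_)
    (fun a => ?_) (fun a b c hab => ?_) (cst a0) (cst a0)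
  · have h1 : Phi (cst a0) = cst a0 := Phi_cst fun d => by simp [LL]
    have h2 : Phi (cst (a0 + a0)) = cst (a0 + a0 + a0) := Phi_cst fun d => by simp [LL]
    rw [OrderIso.symm_apply_eq, h1] at key
    have h3 : cst a0 + cst a0 = cst (a0 + a0) := rfl
    rw [h3, h2] at key
    obtain ⟨d⟩ := D_ne
    have h4 : a0 + a0 = a0 + a0 + a0 := congrArg (fun f : GG => toA (f.1 d)) key
    exact a0_ne (by simpa using h4)
  · exact Monotone.map_sup (f := fun a : B d => d.1 (toA a)) (fun _ _ h => chi_mono h) _ _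
  · exact Monotone.map_inf (f := fun a : B d => d.1 (toA a)) (fun _ _ h => chi_mono h) _ _
  · obtain ⟨a, ha⟩ := d.2 n
    exact ⟨cst a, ha⟩
  · simp [add_assoc]
  · have h0 : Phi 0 = 0 := Phi_cst (a := 0) (b := 0) fun d => by simp [LL]
    simp [h0]
  · have h0 : Phi 0 = 0 := Phi_cst (a := 0) (b := 0) fun d => by simp [LL]
    refine ⟨Phi.symm (-Phi a), ?_, ?_⟩ <;> simp [OrderIso.symm_apply_eq, h0]
  · have := Phi.monotone hab
    constructor <;> apply Phi.symm.monotone <;> gcongr

end Pool.Agent.S01258
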