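import Pool.Statements.S01339
import Pool.Agent.H22.FormLat

set_option autoImplicit false
open Pool Pool.MP_44c8f1_al

namespace Pool.Agent.S01339

/-- Let H ⊆ F1, F2 ⊆ M be formations of finite groups, with H and M saturated (equivalently local). If F1 ∩ F2 = H and the formation generated by F1 ∪ F2 is M, then F1 and F2 are both saturated (local). -/
theorem result :
    ∀ (Form Sat : ((G : Type) → [Group G] → Prop) → Prop),
      (∀ F : (G : Type) → [Group G] → Prop,
        Form F ↔
          ((∀ (G : Type) [Group G], F G → Finite G) ∧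
           (∀ (G K : Type) [Group G] [Group K], Nonempty (G ≃* K) → F G → F K) ∧
           (∀ (G : Type) [Group G] (N : Subgroup G) [N.Normal], F G → F (G ⧸ N)) ∧
           (∀ (G : Type) [Group G] [Finite G] (N L : Subgroup G) [N.Normal] [L.Normal],
              N ⊓ L = ⊥ → F (G ⧸ N) → F (G ⧸ L) → F G))) →
      (∀ F : (G : Type) → [Group G] → Prop,
        Sat F ↔ (∀ (G : Type) [Group G] [Finite G], F (G ⧸ frattini G) → F G)) →
      ∀ (H M F₁ F₂ : (G : Type) → [Group G] → Prop),
        Form H → Sat H → Form M → Sat M → Form F₁ → Form F₂ →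
        (∀ (G : Type) [Group G], H G → F₁ G) →
        (∀ (G : Type) [Group G], H G → F₂ G) →
        (∀ (G : Type) [Group G], F₁ G → M G) →
        (∀ (G : Type) [Group G], F₂ G → M G) →
        (∀ (G : Type) [Group G], F₁ G → F₂ G → H G) →
        (∀ X : (G : Type) → [Group G] → Prop, Form X →
          (∀ (G : Type) [Group G], F₁ G → X G) →
          (∀ (G : Type) [Group G], F₂ G → X G) →
          (∀ (G : Type) [Group G], M G → X G)) →
        Sat F₁ ∧ Sat F₂ := by
  intro Form Sat hForm hSat H M F₁ F₂ hH sH _ sM h1 h2 a1 a2 b1 b2 hI hJ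
  rw [hForm] at hH h1 h2
  rw [hSat] at sH sM
  rw [hSat, hSat]
  constructor
  · exact Pool.Agent.H22.FormLat.main hH sH sM h1 h2 a1 b1 hI
      fun X hX c d => hJ X ((hForm X).2 hX) c d
  · exact Pool.Agent.H22.FormLat.main hH sH sM h2 h1 a2 b2 (fun G _ x y => hI G y x)
      fun X hX c d => hJ X ((hForm X).2 hX) d c

end Pool.Agent.S01339
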