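import Pool.Statements.S01402

set_option autoImplicit false
open Pool Pool.MP_4c94d3_al
open scoped Pointwise

namespace Pool.Agent.S01402

abbrev G := FreeGroup Bool
abbrev Wd := List (Bool × Bool)
abbrev X := ℤ × ℤ × (ℤ → G)
def a : G := FreeGroup.of true
def b : G := FreeGroup.of false

def pa : Equiv.Perm X where
  toFun s := (s.1 + 1, s.2.1, Function.update s.2.2 s.2.1 (a * s.2.2 s.2.1))
  invFun s := (s.1 - 1, s.2.1, Function.update s.2.2 s.2.1 (a⁻¹ * s.2.2 s.2.1))
  left_inv s := by simp
  right_inv s := by simp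

def pb : Equiv.Perm X where
  toFun s := if s.1 = 0 then (s.1, s.2.1 + 1, s.2.2)
    else (s.1, s.2.1, Function.update s.2.2 s.2.1 (b * s.2.2 s.2.1))
  invFun s := if s.1 = 0 then (s.1, s.2.1 - 1, s.2.2)
    else (s.1, s.2.1, Function.update s.2.2 s.2.1 (b⁻¹ * s.2.2 s.2.1))
  left_inv s := by by_cases h : s.1 = 0 <;> simp [h, Prod.ext_iff]
  right_inv s := by by_cases h : s.1 = 0 <;> simp [h, Prod.ext_iff]

def ρ : G →* Equiv.Perm X := FreeGroup.lift (fun i => if i then pa else pb)
theorem ρa : ρ a = pa := by simp [ρ, a]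
theorem ρb : ρ b = pb := by simp [ρ, b]

def Act (g : G) (n m : ℤ) : Prop :=
  ∀ k x, ρ g (n, k, x) = (m, k, Function.update x k (g * x k))

theorem Act.mul {g h : G} {n m l : ℤ} (hg : Act g m l) (hh : Act h n m) : Act (g * h) n l := by
  intro k x
  rw [map_mul, Equiv.Perm.mul_apply, hh, hg]
  simp [mul_assoc]

theorem Act.inv {g : G} {n m : ℤ} (hg : Act g n m) : Act g⁻¹ m n := by
  intro k x
  rw [map_inv, Equiv.Perm.inv_def, Equiv.symm_apply_eq, hg]
  simp

theorem Act.one (n : ℤ) : Act 1 n n := by intro k x; simp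

theorem act_a (n : ℤ) : Act a n (n + 1) := by intro k x; rw [ρa]; rfl
theorem act_b (n : ℤ) (h : n ≠ 0) : Act b n n := by
  intro k x; rw [ρb]; simp [pb, h]

theorem act_pow (m : ℕ) : Act (a ^ m) 0 m := by
  induction m with
  | zero => simpa using Act.one 0
  | succ m ih => rw [pow_succ']; push_cast; exact (act_a _).mul ih

def H : Subgroup G where
  carrier := {g | Act g 0 0}
  one_mem' := Act.one 0
  mul_mem' := fun h1 h2 => Act.mul h1 h2
  inv_mem' := fun h => Act.inv h

def lh (p : Bool × Bool) : ℤ := if p.1 then (if p.2 then 1 else -1) else 0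
def ht (w : Wd) : ℤ := (w.map lh).sum

theorem ht_abs (w : Wd) : |ht w| ≤ w.length := by
  induction w with
  | nil => simp [ht]
  | cons p w ih =>
    have : ht (p :: w) = lh p + ht w := by simp [ht]
    rw [this, List.length_cons]
    rw [abs_le] at ih ⊢
    rcases p with ⟨_ | _, _ | _⟩ <;> simp [lh] <;> omega

theorem mk_cons (p : Bool × Bool) (w : Wd) :
    FreeGroup.mk (p :: w) = FreeGroup.mk [p] * FreeGroup.mk w := by simp [FreeGroup.mul_mk]

theorem mk_tt : FreeGroup.mk [(true, true)] = a := rfl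
theorem mk_tf : FreeGroup.mk [(true, false)] = a⁻¹ := rfl
theorem mk_ft : FreeGroup.mk [(false, true)] = b := rfl
theorem mk_ff : FreeGroup.mk [(false, false)] = b⁻¹ := rfl

theorem act_word (w : Wd) (n : ℤ) (h : (w.length : ℤ) ≤ n) :
    Act (FreeGroup.mk w) n (n + ht w) := by
  induction w with
  | nil => simpa [ht] using (show Act (FreeGroup.mk []) n n from Act.one n)
  | cons p w ih =>
    have h1 : ht (p :: w) = lh p + ht w := by simp [ht]
    have h2 := ht_abs w
    rw [abs_le] at h2
    rw [List.length_cons] at h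
    push_cast at h
    rw [mk_cons, h1]
    refine Act.mul ?_ (ih (by omega))
    rcases p with ⟨_ | _, _ | _⟩
    · rw [mk_ff]; simpa [lh] using (act_b _ (by omega)).inv
    · rw [mk_ft]; simpa [lh] using act_b _ (by omega)
    · rw [mk_tf]
      have := (act_a (n + (-1 + ht w))).inv
      rwa [show n + (-1 + ht w) + 1 = n + ht w by ring] at this
    · rw [mk_tt]
      have := act_a (n + ht w)
      rwa [show n + ht w + 1 = n + (1 + ht w) by ring] at this

theorem conj_mem (w : Wd) (R : ℕ) (h : w.length ≤ R) (h0 : ht w = 0) :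
    (a ^ R)⁻¹ * FreeGroup.mk w * a ^ R ∈ H := by
  have := act_word w R (by exact_mod_cast h)
  rw [h0, add_zero] at this
  exact ((act_pow R).inv.mul this).mul (act_pow R)

def nf {M : Type} [Monoid M] (ι : H → M) (t : M) : H → List H → M
  | h, [] => ι h
  | h, h' :: l => ι h * (t * nf ι t h' l)

theorem st (h : H) (l : List H) : ∃ x : ℤ → G, ρ (nf (fun h => h.1) b h l) (0, 0, 1) =
    (0, (l.length : ℤ), x) ∧ x l.length = h ∧ ∀ i, (l.length : ℤ) < i → x i = 1 := by
  induction l generalizing h with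
  | nil =>
    refine ⟨_, h.2 0 1, by simp, fun i hi => ?_⟩
    rw [Function.update_of_ne (by simp at hi; omega)]; rfl
  | cons h' l ih =>
    obtain ⟨x, h1, -, h3⟩ := ih h'
    refine ⟨Function.update x (l.length + 1) (h * x (l.length + 1)), ?_, ?_, fun i hi => ?_⟩
    · simp only [nf, map_mul, Equiv.Perm.mul_apply, h1, ρb]
      have : pb (0, (l.length : ℤ), x) = (0, (l.length : ℤ) + 1, x) := by simp [pb]
      rw [this, h.2]
      simp
    · simp [h3]
    · simp only [List.length_cons] at hi
      push_cast at hi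
      rw [Function.update_of_ne (by omega), h3 _ (by omega)]

theorem nf_inj (h k : H) (l m : List H)
    (e : nf (fun h => h.1) b h l = nf (fun h => h.1) b k m) : h = k ∧ l = m := by
  induction l generalizing h k m with
  | nil =>
    obtain ⟨x, h1, h2, -⟩ := st h []
    obtain ⟨y, k1, k2, -⟩ := st k m
    rw [e, k1] at h1
    simp only [Prod.mk.injEq, true_and, List.length_nil, Nat.cast_inj,
      List.length_eq_zero_iff] at h1
    obtain ⟨rfl, rfl⟩ := h1
    exact ⟨Subtype.ext (h2.symm.trans k2), rfl⟩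
  | cons h' l ih =>
    obtain ⟨x, h1, h2, -⟩ := st h (h' :: l)
    obtain ⟨y, k1, k2, -⟩ := st k m
    rw [e, k1] at h1
    simp only [Prod.mk.injEq, true_and, Nat.cast_inj] at h1
    obtain ⟨h3, rfl⟩ := h1
    rw [h3] at k2
    obtain rfl : h = k := Subtype.ext (h2.symm.trans k2)
    rcases m with _ | ⟨k', m⟩
    · simp at h3
    · simp only [nf, mul_right_inj] at e
      obtain ⟨rfl, rfl⟩ := ih _ _ _ e
      exact ⟨rfl, rfl⟩

def emb : Monoid.Coprod (↥H) (Multiplicative ℕ) →* G :=
  Monoid.Coprod.lift H.subtype (powersHom G b)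

theorem nf_surj (z : Monoid.Coprod (↥H) (Multiplicative ℕ)) : ∃ h l,
    z = nf (fun h => Monoid.Coprod.inl h) (Monoid.Coprod.inr (Multiplicative.ofAdd 1)) h l := by
  induction z using Monoid.Coprod.induction_on' with
  | one => exact ⟨1, [], by simp [nf]⟩
  | inl_mul m z ih =>
    obtain ⟨h, l, rfl⟩ := ih
    refine ⟨m * h, l, ?_⟩
    cases l <;> simp [nf, mul_assoc]
  | inr_mul n z ih =>
    induction n using Multiplicative.rec with
    | ofAdd n =>
      induction n with
      | zero => simpa using ih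
      | succ n ih2 =>
        obtain ⟨h, l, e⟩ := ih2
        refine ⟨1, h :: l, ?_⟩
        rw [add_comm, ofAdd_add, map_mul, mul_assoc, e]
        simp [nf]

theorem emb_nf (h : H) (l : List H) :
    emb (nf (fun h => Monoid.Coprod.inl h) (Monoid.Coprod.inr (Multiplicative.ofAdd 1)) h l) =
      nf (fun h => h.1) b h l := by
  induction l generalizing h with
  | nil => simp [nf, emb]
  | cons h' l ih =>
    simp only [nf, map_mul, ih]
    simp [emb]

theorem emb_inj : Function.Injective emb := by
  intro z w e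
  obtain ⟨h, l, rfl⟩ := nf_surj z
  obtain ⟨k, m, rfl⟩ := nf_surj w
  rw [emb_nf, emb_nf] at e
  obtain ⟨rfl, rfl⟩ := nf_inj _ _ _ _ e
  rfl

def B : Bool × Bool := (false, true)
def Gd (w : Wd) : Prop := FreeGroup.IsReduced w ∧ w.head? = some B ∧ w.getLast? = some B
def ch (o : Option (Bool × Bool)) : Bool × Bool :=
  if o = some (true, false) then (true, false) else (true, true)
def pad (w : Wd) : Wd := [B, ch w.head?] ++ w ++ [ch w.getLast?, B]
def fl (p : Bool × Bool) : Bool × Bool := (p.1, if p.1 then !p.2 else p.2)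

theorem pad_gd (w : Wd) (h : FreeGroup.IsReduced w) : Gd (pad w) := by
  refine ⟨?_, by simp [pad], by rw [pad, List.getLast?_append_of_ne_nil _ (by simp)]; rfl⟩
  rcases w with _ | ⟨p, w⟩
  · simp [pad, ch, B, FreeGroup.IsReduced]
  · refine List.IsChain.append (List.IsChain.append ?_ h ?_) ?_ ?_
    · simp [B, ch]; split_ifs <;> simp
    · rcases p with ⟨_ | _, _ | _⟩ <;> simp [ch]
    · simp [B, ch]; split_ifs <;> simp
    · intro x hx y hy
      rw [List.getLast?_append_of_ne_nil _ (by simp)] at hx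
      simp only [List.head?_cons, Option.mem_def, Option.some.injEq] at hy hx
      rw [← hy, hx]
      rcases x with ⟨_ | _, _ | _⟩ <;> simp [ch]

theorem fl_gd (w : Wd) (h : Gd w) : Gd (w.map fl) := by
  refine ⟨?_, by simp [h.2.1, B, fl], by simp [List.getLast?_map, h.2.2, B, fl]⟩
  refine List.isChain_map_of_isChain fl ?_ h.1
  rintro ⟨_ | _, _ | _⟩ ⟨_ | _, _ | _⟩ <;> simp [fl]

theorem fl_ht (w : Wd) : ht (w.map fl) = - ht w := by
  induction w with
  | nil => simp [ht]
  | cons p w ih =>
    simp only [ht, List.map_cons, List.sum_cons] at ih ⊢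
    rw [ih]
    rcases p with ⟨_ | _, _ | _⟩ <;> simp [lh, fl] <;> ring

theorem fl_inj : Function.Injective fl := by
  rintro ⟨_ | _, _ | _⟩ ⟨_ | _, _ | _⟩ <;> simp [fl]

theorem gd_append (u v : Wd) (hu : Gd u) (hv : Gd v) : Gd (u ++ v) := by
  refine ⟨List.IsChain.append hu.1 hv.1 ?_, by simp [List.head?_append, hu.2.1],
    by simp [List.getLast?_append, hv.2.2]⟩
  simp [hu.2.2, hv.2.1]

theorem red_flatten (c : List Wd) (h : ∀ u ∈ c, Gd u) :
    FreeGroup.IsReduced c.flatten ∧ ∀ y ∈ c.flatten.head?, y = B := by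
  induction c with
  | nil => simp
  | cons u c ih =>
    have hu := h u (by simp)
    obtain ⟨h1, h2⟩ := ih fun v hv => h v (by simp [hv])
    refine ⟨List.IsChain.append hu.1 h1 ?_, by simp [List.head?_append, hu.2.1]⟩
    intro x hx y hy
    rw [h2 y hy]
    simp only [hu.2.2, Option.mem_def, Option.some.injEq] at hx
    simp [hx]

theorem flatten_inj (m : ℕ) (c d : List Wd) (hc : ∀ u ∈ c, u.length = m) (hd : ∀ u ∈ d, u.length = m)
    (hl : c.length = d.length) (e : c.flatten = d.flatten) : c = d := by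
  induction c generalizing d with
  | nil => exact (List.length_eq_zero_iff.mp hl.symm).symm
  | cons u c ih =>
    rcases d with _ | ⟨v, d⟩
    · simp at hl
    · simp only [List.flatten_cons] at e
      obtain ⟨rfl, e2⟩ := List.append_inj e ((hc u (by simp)).trans (hd v (by simp)).symm)
      rw [ih d (fun w hw => hc w (by simp [hw])) (fun w hw => hd w (by simp [hw]))
        (by simpa using hl) e2]

theorem flatten_mem (R : ℕ) (c : List Wd) (h : ∀ u ∈ c, u.length ≤ R ∧ ht u = 0) :
    (a ^ R)⁻¹ * FreeGroup.mk c.flatten * a ^ R ∈ H := by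
  induction c with
  | nil =>
    have : FreeGroup.mk ([] : List Wd).flatten = 1 := rfl
    rw [this]; simp
  | cons u c ih =>
    have h1 := conj_mem u R (h u (by simp)).1 (h u (by simp)).2
    have := H.mul_mem h1 (ih fun v hv => h v (by simp [hv]))
    rw [List.flatten_cons, ← FreeGroup.mul_mk]
    simpa only [mul_assoc, mul_inv_cancel_left] using this

def S : Finset G := {a, b}

theorem gen : Subgroup.closure (S : Set G) = ⊤ := by
  rw [← FreeGroup.closure_range_of Bool]
  congr 1
  ext x
  simp only [S, a, b, Finset.coe_insert, Finset.coe_singleton, Set.mem_insert_iff,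
    Set.mem_singleton_iff, Set.mem_range, Bool.exists_bool]
  tauto

def ball (n : ℕ) : Set G :=
  {g : G | ∃ l : List G, l.length ≤ n ∧ (∀ x ∈ l, x ∈ S ∨ x⁻¹ ∈ S) ∧ l.prod = g}

theorem mk_mem (w : Wd) (n : ℕ) (h : w.length ≤ n) : FreeGroup.mk w ∈ ball n := by
  refine ⟨w.map fun p => FreeGroup.mk [p], by simpa using h, ?_, ?_⟩
  · intro x hx
    obtain ⟨p, -, rfl⟩ := List.mem_map.mp hx
    rcases p with ⟨_ | _, _ | _⟩ <;> simp [mk_tt, mk_tf, mk_ft, mk_ff, S]
  · clear h
    induction w with
    | nil => rfl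
    | cons p w ih => rw [List.map_cons, List.prod_cons, ih, ← mk_cons]

theorem mem_ball (g : G) (n : ℕ) : g ∈ ball n ↔ g.norm ≤ n := by
  constructor
  · rintro ⟨l, hl, hS, rfl⟩
    refine le_trans ?_ hl
    clear hl
    induction l with
    | nil => simp
    | cons x l ih =>
      have h1 : x.norm = 1 := by
        rcases hS x (by simp) with h | h
        · simp only [S, Finset.mem_insert, Finset.mem_singleton] at h
          rcases h with rfl | rfl <;> simp [a, b]
        · rw [← FreeGroup.norm_inv_eq]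
          simp only [S, Finset.mem_insert, Finset.mem_singleton] at h
          rcases h with h | h <;> simp [h, a, b]
      have h2 := FreeGroup.norm_mul_le x l.prod
      have h3 := ih fun y hy => hS y (by simp [hy])
      rw [List.prod_cons, List.length_cons]
      omega
  · intro h
    have := mk_mem g.toWord n h
    rwa [FreeGroup.mk_toWord] at this

def T : Finset G := {1, a, b, a⁻¹, b⁻¹}

theorem ball_sub (n : ℕ) : ball n ⊆ ((T ^ n : Finset G) : Set G) := by
  rintro _ ⟨l, hl, hS, rfl⟩
  rw [Finset.coe_pow]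
  refine Set.pow_subset_pow_right (s := (T : Set G)) (by simp [T]) hl ?_
  clear hl
  induction l with
  | nil => simp
  | cons x l ih =>
    rw [List.length_cons, pow_succ', List.prod_cons]
    refine Set.mul_mem_mul ?_ (ih fun y hy => hS y (by simp [hy]))
    rcases hS x (by simp) with h | h <;> simp only [S, Finset.mem_insert, Finset.mem_singleton] at h
    · rcases h with h | h <;> simp [T, h]
    · rcases h with h | h <;> rw [inv_eq_iff_eq_inv] at h <;> simp [T, h]

theorem ball_fin (n : ℕ) : (ball n).Finite := (Finset.finite_toSet _).subset (ball_sub n)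

theorem ball_card (n : ℕ) : (ball n).ncard ≤ 5 ^ n := by
  refine (Set.ncard_le_ncard (ball_sub n) (Finset.finite_toSet _)).trans ?_
  rw [Set.ncard_coe_finset]
  exact Finset.card_pow_le.trans (Nat.pow_le_pow_left Finset.card_le_five n)

def hb (n : ℕ) : Set G := {g : G | g ∈ H ∧ g ∈ ball n}

theorem hb_fin (n : ℕ) : (hb n).Finite := (ball_fin n).subset fun _ h => h.2

theorem blocks (V : Finset Wd) (m : ℕ) (hV : ∀ u ∈ V, Gd u ∧ u.length = m ∧ ht u = 0) (j N : ℕ)
    (hN : j * m + 2 * m ≤ N) : V.card ^ j ≤ (hb N).ncard := by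
  haveI : Finite (hb N) := hb_fin N
  have hc : ∀ c : Fin j → V, ∀ u ∈ List.ofFn (fun i => (c i).1), u ∈ V := by
    intro c u hu
    obtain ⟨i, rfl⟩ := List.mem_ofFn.mp hu
    exact (c i).2
  have := Nat.card_le_card_of_injective (α := Fin j → V) (β := hb N)
    (fun c => ⟨(a ^ m)⁻¹ * FreeGroup.mk (List.ofFn fun i => (c i).1).flatten * a ^ m,
      flatten_mem m _ fun u hu => ⟨(hV u (hc c u hu)).2.1.le, (hV u (hc c u hu)).2.2⟩, by
        rw [mem_ball]
        have h1 := FreeGroup.norm_mul_le
          ((a ^ m)⁻¹ * FreeGroup.mk (List.ofFn fun i => (c i).1).flatten) (a ^ m)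
        have h2 := FreeGroup.norm_mul_le (a ^ m)⁻¹
          (FreeGroup.mk (List.ofFn fun i => (c i).1).flatten)
        have h3 : (a ^ m).norm = m := FreeGroup.norm_of_pow _ _
        have h4 := FreeGroup.norm_mk_le (L₁ := (List.ofFn fun i => (c i).1).flatten)
        have h5 : (List.ofFn fun i => (c i).1).flatten.length = j * m := by
          rw [List.length_flatten, List.map_ofFn, List.sum_ofFn]
          simp [fun i => (hV _ (c i).2).2.1]
        rw [FreeGroup.norm_inv_eq] at h2
        omega⟩)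
    (fun c d e => by
      have e1 := congrArg Subtype.val e
      simp only [mul_left_inj, mul_right_inj] at e1
      have e2 := congrArg FreeGroup.toWord e1
      rw [FreeGroup.toWord_mk, FreeGroup.toWord_mk,
        (red_flatten _ fun u hu => (hV u (hc c u hu)).1).1.reduce_eq,
        (red_flatten _ fun u hu => (hV u (hc d u hu)).1).1.reduce_eq] at e2
      have e3 := flatten_inj m _ _ (fun u hu => (hV u (hc c u hu)).2.1)
        (fun u hu => (hV u (hc d u hu)).2.1) (by simp) e2
      funext i
      exact Subtype.ext (congrFun (List.ofFn_injective e3) i))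
  simpa [Nat.card_coe_set_eq] using this

theorem pad_len (w : Wd) : (pad w).length = w.length + 4 := by simp [pad]

theorem pad_inj (u v : Wd) (e : pad u = pad v) : u = v := by
  have h := congrArg List.length e
  rw [pad_len, pad_len] at h
  have e1 := (List.append_inj e (by simp; omega)).1
  exact (List.append_inj e1 (by simp)).2

theorem main (n : ℕ) : ∃ u : ℕ, (ball n).ncard ≤ (n + 1) * (2 * n + 9) * u ∧
    ∀ j, u ^ (2 * j) ≤ (hb ((j + 2) * (2 * n + 8))).ncard := by
  classical
  obtain ⟨⟨l, h⟩, hl, hU⟩ := Finset.exists_max_image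
    (Finset.range (n + 1) ×ˢ Finset.Icc (-(n + 4 : ℤ)) (n + 4))
    (fun y => ((ball_fin n).toFinset.filter fun g => (g.norm, ht (pad g.toWord)) = y).card)
    ⟨(0, 0), by simp; omega⟩
  have h1 := Finset.card_le_mul_card_image_of_maps_to (s := (ball_fin n).toFinset)
    (f := fun g => (g.norm, ht (pad g.toWord))) (by
      intro g hg
      rw [Set.Finite.mem_toFinset, mem_ball] at hg
      have h2 := ht_abs (pad g.toWord)
      rw [pad_len, abs_le] at h2
      have h3 : g.toWord.length = g.norm := rfl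
      simp only [Finset.mem_product, Finset.mem_range, Finset.mem_Icc]
      omega) _ hU
  set U := ((ball_fin n).toFinset.filter fun g => (g.norm, ht (pad g.toWord)) = (l, h)) with hUd
  refine ⟨U.card, ?_, fun j => ?_⟩
  · rw [Set.ncard_eq_toFinset_card _ (ball_fin n), mul_comm]
    refine h1.trans (le_of_eq ?_)
    simp only [Finset.card_product, Finset.card_range, Int.card_Icc]
    congr 2
    omega
  · have hl2 : l ≤ n := by
      simp only [Finset.mem_product, Finset.mem_range] at hl
      omega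
    have hU2 : ∀ g ∈ U, (pad g.toWord).length = l + 4 ∧ ht (pad g.toWord) = h := by
      intro g hg
      simp only [hUd, Finset.mem_filter, Prod.mk.injEq] at hg
      exact ⟨by rw [pad_len, ← hg.2.1]; rfl, hg.2.2⟩
    have h2 := blocks ((U ×ˢ U).image fun p => pad p.1.toWord ++ (pad p.2.toWord).map fl)
      (2 * l + 8) (by
        intro u hu
        obtain ⟨⟨g, k⟩, hp, rfl⟩ := Finset.mem_image.mp hu
        rw [Finset.mem_product] at hp
        refine ⟨gd_append _ _ (pad_gd _ FreeGroup.isReduced_toWord)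
          (fl_gd _ (pad_gd _ FreeGroup.isReduced_toWord)), ?_, ?_⟩
        · rw [List.length_append, List.length_map, (hU2 _ hp.1).1, (hU2 _ hp.2).1]; ring
        · have e : ∀ u v : Wd, ht (u ++ v) = ht u + ht v := fun u v => by simp [ht]
          rw [e, fl_ht, (hU2 _ hp.1).2, (hU2 _ hp.2).2]; ring) j ((j + 2) * (2 * n + 8))
      (by nlinarith)
    rw [Finset.card_image_of_injOn, Finset.card_product, ← pow_two, ← pow_mul] at h2
    · exact h2
    · rintro ⟨g, k⟩ hp ⟨g', k'⟩ hp' e
      simp only [Finset.coe_product, Set.mem_prod, Finset.mem_coe] at hp hp'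
      obtain ⟨e1, e2⟩ := List.append_inj e ((hU2 _ hp.1).1.trans (hU2 _ hp'.1).1.symm)
      have e3 := List.map_injective_iff.mpr fl_inj e2
      exact Prod.ext (FreeGroup.toWord_injective (pad_inj _ _ e1))
        (FreeGroup.toWord_injective (pad_inj _ _ e3))

theorem step (r : ℝ) (hr : 1 ≤ r) (M : ℕ) (hM : ∀ m ≥ M, ((hb m).ncard : ℝ) ≤ r ^ m) (n : ℕ) :
    ((ball n).ncard : ℝ) ≤ (n + 1) * (2 * n + 9) * r ^ (n + 4) := by
  obtain ⟨u, h1, h2⟩ := main n
  have h3 : (u : ℝ) ≤ r ^ (n + 4) := by
    by_contra hc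
    push Not at hc
    have hpos : (0 : ℝ) < r ^ (n + 4) := by positivity
    have h4 : 1 < (u / r ^ (n + 4)) ^ 2 := one_lt_pow₀ ((one_lt_div hpos).mpr hc) (by norm_num)
    obtain ⟨j, hj, hjM⟩ := (((tendsto_pow_atTop_atTop_of_one_lt h4).eventually_gt_atTop
      ((r ^ (n + 4)) ^ 4)).and (Filter.eventually_ge_atTop M)).exists
    have h5 := hM ((j + 2) * (2 * n + 8)) (by nlinarith)
    have h6 : (u : ℝ) ^ (2 * j) ≤ r ^ ((j + 2) * (2 * n + 8)) :=
      le_trans (by exact_mod_cast h2 j) h5
    rw [← pow_mul (u / r ^ (n + 4)), div_pow, lt_div_iff₀ (by positivity), ← pow_add, ← pow_mul] at hj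
    rw [show (j + 2) * (2 * n + 8) = (n + 4) * (4 + 2 * j) by ring] at h6
    linarith
  have h7 : ((ball n).ncard : ℝ) ≤ (n + 1) * (2 * n + 9) * u := by exact_mod_cast h1
  exact h7.trans (mul_le_mul_of_nonneg_left h3 (by positivity))

theorem final : ¬ (Filter.limsup (fun n : ℕ => ((hb n).ncard : ℝ) ^ ((1 : ℝ) / (n : ℝ))) Filter.atTop <
    Filter.limsup (fun n : ℕ => ((ball n).ncard : ℝ) ^ ((1 : ℝ) / (n : ℝ))) Filter.atTop) := by
  intro hlt
  obtain ⟨r, hr1, hr2⟩ := exists_between hlt
  obtain ⟨s, hs1, hs2⟩ := exists_between hr2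
  have hbd : Filter.IsBoundedUnder (· ≤ ·) Filter.atTop
      (fun n : ℕ => ((hb n).ncard : ℝ) ^ ((1 : ℝ) / (n : ℝ))) := by
    refine Filter.isBoundedUnder_of_eventually_le (a := 5) ?_
    filter_upwards [Filter.eventually_gt_atTop 0] with n hn
    have h1 : ((hb n).ncard : ℝ) ≤ 5 ^ n := by
      exact_mod_cast (Set.ncard_le_ncard (s := hb n) (fun _ h => h.2) (ball_fin n)).trans (ball_card n)
    rw [one_div]
    exact (Real.rpow_inv_le_iff_of_pos (by positivity) (by norm_num) (by positivity)).mpr
      (by rwa [Real.rpow_natCast])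
  have h1 := Filter.eventually_lt_of_limsup_lt hr1 hbd
  obtain ⟨M, hM⟩ := Filter.eventually_atTop.mp (h1.and (Filter.eventually_gt_atTop 0))
  have hr : 1 ≤ r := by
    refine le_trans (Real.one_le_rpow ?_ (by positivity)) (hM M le_rfl).1.le
    have : 0 < (hb M).ncard := (Set.ncard_pos (hb_fin M)).mpr
      ⟨1, H.one_mem, (mem_ball _ _).mpr (by simp)⟩
    exact_mod_cast this
  have h2 := step r hr M (fun m hm => by
    have := (hM m hm).1.le
    have h0 := (hM m hm).2
    rw [one_div, Real.rpow_inv_le_iff_of_pos (by positivity) (by positivity) (by positivity),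
      Real.rpow_natCast] at this
    exact this)
  have h3 := Filter.frequently_lt_of_lt_limsup
    (Filter.isCoboundedUnder_le_of_le Filter.atTop (x := 0) (fun n => by positivity)) hs2
  have hq : 1 < s / r := (one_lt_div (by positivity)).mpr hs1
  have h4 := (tendsto_pow_const_div_const_pow_of_one_lt 2 hq).eventually
    (gt_mem_nhds (show (0 : ℝ) < 1 / (22 * r ^ 4) by positivity))
  obtain ⟨n, h5, h6, h7⟩ := (h3.and_eventually (h4.and (Filter.eventually_gt_atTop 0))).exists
  have hs0 : 0 < s := by linarith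
  rw [one_div, Real.lt_rpow_inv_iff_of_pos hs0.le (by positivity) (by positivity),
    Real.rpow_natCast] at h5
  have h8 := h5.trans_le (h2 n)
  rw [div_lt_div_iff₀ (by positivity) (by positivity), one_mul, div_pow,
    lt_div_iff₀ (by positivity)] at h6
  have h9 : (1 : ℝ) ≤ n := by exact_mod_cast h7
  have h10 : ((n : ℝ) + 1) * (2 * n + 9) ≤ 22 * n ^ 2 := by nlinarith
  have h11 := mul_le_mul_of_nonneg_right h10 (show 0 ≤ r ^ (n + 4) by positivity)
  rw [pow_add] at h8 h11
  nlinarith

theorem result :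
    ¬ (∀ (G : Type) [Group G] (H : Subgroup G), H ≠ ⊥ →
      (∃ f : Monoid.Coprod (↥H) (Multiplicative ℕ) →* G,
          Function.Injective f ∧ f.comp Monoid.Coprod.inl = H.subtype) →
      ∀ S : Finset G, Subgroup.closure (S : Set G) = ⊤ →
        Filter.limsup
            (fun n : ℕ =>
              ((Set.ncard {g : G | g ∈ H ∧ ∃ l : List G, l.length ≤ n ∧
                  (∀ x ∈ l, x ∈ S ∨ x⁻¹ ∈ S) ∧ l.prod = g} : ℕ) : ℝ) ^ ((1 : ℝ) / (n : ℝ)))
            Filter.atTop
          <
        Filter.limsup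
            (fun n : ℕ =>
              ((Set.ncard {g : G | ∃ l : List G, l.length ≤ n ∧
                  (∀ x ∈ l, x ∈ S ∨ x⁻¹ ∈ S) ∧ l.prod = g} : ℕ) : ℝ) ^ ((1 : ℝ) / (n : ℝ)))
            Filter.atTop) := by
  intro h
  refine final (h G H ?_ ⟨emb, emb_inj, by ext x; simp [emb]⟩ S gen)
  intro hH
  have h1 := conj_mem [(false, true)] 1 (by simp) (by simp [ht, lh])
  rw [hH, Subgroup.mem_bot, mk_ft] at h1
  have h2 : b = 1 := by
    have := congrArg (fun g => a ^ 1 * g * (a ^ 1)⁻¹) h1
    simpa [mul_assoc] using this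
  have h3 := congrArg FreeGroup.norm h2
  simp [b] at h3

end Pool.Agent.S01402
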