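import Pool.Statements.S01406
import Pool.Agent.H20.Tor

set_option autoImplicit false
open Pool Pool.MP_4d7bfe_al

namespace Pool.Agent.S01406

theorem result :
    ¬ (∃ (G H : Type) (_ : Group G) (_ : Group H) (S : Finset G) (T : Finset H),
      Subgroup.closure (S : Set G) = ⊤ ∧ Subgroup.closure (T : Set H) = ⊤ ∧
      (1 : G) ∉ S ∧ (1 : H) ∉ T ∧
      (∀ x ∈ S, x⁻¹ ∈ S) ∧ (∀ y ∈ T, y⁻¹ ∈ T) ∧
      Monoid.IsTorsion G ∧ ¬ Monoid.IsTorsion H ∧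
      ∃ e : G ≃ H, ∀ g h : G, g⁻¹ * h ∈ S ↔ (e g)⁻¹ * (e h) ∈ T) :=
  Pool.Agent.H20.Tor.result

end Pool.Agent.S01406
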