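import Pool.Statements.S01419
import Pool.Agent.H22.Len4

set_option autoImplicit false
open Pool Pool.MP_4f47f1_al

namespace Pool.Agent.S01419

/-- For every soluble formation of finite groups with a chain of at most 4 maximal-subformation steps from the empty class, its subformations satisfy A ∩ (B ∨ C) ⊆ (A ∩ B) ∨ (A ∩ C), with ∨ meaning the generated formation. -/
theorem result :
  ∀ Φ : (∀ (G : Type) [Group G], Prop) → Prop,
    (∀ X : (∀ (G : Type) [Group G], Prop), Φ X ↔
      ((∀ (G : Type) [Group G], X G → Finite G) ∧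
       (∀ (G H : Type) [Group G] [Group H] (f : G →* H),
          Function.Surjective f → X G → X H) ∧
       (∀ (G : Type) [Group G] (N₁ N₂ : Subgroup G) [N₁.Normal] [N₂.Normal],
          N₁ ⊓ N₂ = ⊥ → X (G ⧸ N₁) → X (G ⧸ N₂) → X G))) →
    ∀ F : (∀ (G : Type) [Group G], Prop), Φ F →
      (∀ (G : Type) [Group G], F G → IsSolvable G) →
      (∃ t : ℕ, t ≤ 4 ∧ ∃ c : ℕ → (∀ (G : Type) [Group G], Prop),
         (∀ (G : Type) [Group G], ¬ c 0 G) ∧
         (∀ (G : Type) [Group G], c t G ↔ F G) ∧
         ∀ i : ℕ, i < t →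
           Φ (c i) ∧ Φ (c (i + 1)) ∧
           (∀ (G : Type) [Group G], c i G → c (i + 1) G) ∧
           (∃ G : Type, ∃ inst : Group G, c (i + 1) G ∧ ¬ c i G) ∧
           ∀ K : (∀ (G : Type) [Group G], Prop), Φ K →
             (∀ (G : Type) [Group G], c i G → K G) →
             (∀ (G : Type) [Group G], K G → c (i + 1) G) →
             ((∀ (G : Type) [Group G], K G → c i G) ∨
              (∀ (G : Type) [Group G], c (i + 1) G → K G))) →
      ∀ A B C : (∀ (G : Type) [Group G], Prop), Φ A → Φ B → Φ C →
        (∀ (G : Type) [Group G], A G → F G) →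
        (∀ (G : Type) [Group G], B G → F G) →
        (∀ (G : Type) [Group G], C G → F G) →
        ∀ (G : Type) [Group G], A G →
          (∀ K : (∀ (X : Type) [Group X], Prop), Φ K →
            (∀ (X : Type) [Group X], B X → K X) →
            (∀ (X : Type) [Group X], C X → K X) → K G) →
          ∀ K : (∀ (X : Type) [Group X], Prop), Φ K →
            (∀ (X : Type) [Group X], A X → B X → K X) →
            (∀ (X : Type) [Group X], A X → C X → K X) → K G := by
  intro Φ hΦ F hF hs ⟨t, ht, c, c0, ct, hc⟩ A B C hA hB hC aF bF cF G _ a j K hK k1 k2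
  have e : ∀ X, Φ X ↔ H22.FormLat.IsForm X := fun X => (hΦ X).trans
    ⟨fun h => H22.GLS.mk_form h.1 h.2.1 fun G _ _ N L _ _ => h.2.2 G N L,
      fun h => ⟨h.1, fun G H _ _ f hf => H22.FormLat.surj h f hf, fun G _ N L _ _ u v w => by
        have := h.1 _ v
        have := h.1 _ w
        have : Finite G := Finite.of_injective
          (fun x : G => ((x : G ⧸ N), (x : G ⧸ L))) fun x y e =>
            H22.GLS.two_q u (congrArg Prod.fst e) (congrArg Prod.snd e)
        exact h.2.2.2 G N L u v w⟩⟩
  have key : ∀ i ≤ t, ∀ X n, H22.GLS.Dp X n → H22.GLS.Le X (c i) → n ≤ i := by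
    intro i
    induction i with
    | zero =>
      intro _ X n h l
      cases h with
      | zero => exact le_rfl
      | step Y _ n _ _ _ u => exact (u fun G _ h => absurd (l G h) (c0 G)).elim
    | succ i ih =>
      intro hi X n h l
      obtain ⟨u, v, w, -, m⟩ := hc i hi
      cases n with
      | zero => exact Nat.zero_le _
      | succ n => exact Nat.succ_le_succ (ih (by omega) _ n (h.drop ((e _).1 u) ((e _).1 v) w
          (fun K k => m K ((e K).2 k)) l) fun _ _ h => h.2)
  exact H22.GLS.distrib ((e F).1 hF) hs (fun d => by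
      have := key t le_rfl F 5 d fun G _ h => (ct G).2 h
      omega) ((e A).1 hA) ((e B).1 hB) ((e C).1 hC) aF bF cF ((e K).1 hK)
    (fun X _ h => k1 X h.1 h.2) (fun X _ h => k2 X h.1 h.2) a fun L l => j L ((e L).2 l)

end Pool.Agent.S01419
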