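import Pool.Statements.S01438
import Pool.Agent.H22.PriEx

set_option autoImplicit false
open Pool Pool.MP_503320_al

namespace Pool.Agent.S01438

/-- The negation of the preceding statement: In every prime ring whose right ideals are all principal, every two-sided ideal equals a finite product of prime two-sided ideals (the empty product being the whole ring). -/
theorem result :
    ¬ (∀ (R : Type) [Ring R], Nontrivial R →
      (∀ a b : R, (∀ r : R, a * r * b = 0) → a = 0 ∨ b = 0) →
      (∀ I : AddSubmonoid R, (∀ x r : R, x ∈ I → x * r ∈ I) →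
          ∃ a : R, ∀ x : R, x ∈ I ↔ ∃ r : R, x = a * r) →
      ∀ I : AddSubmonoid R, (∀ x r : R, x ∈ I → r * x ∈ I ∧ x * r ∈ I) →
        ∃ L : List (AddSubmonoid R),
          (∀ P ∈ L, (∀ x r : R, x ∈ P → r * x ∈ P ∧ x * r ∈ P) ∧ (1 : R) ∉ P ∧
              ∀ a b : R, (∀ r : R, a * r * b ∈ P) → a ∈ P ∨ b ∈ P) ∧
          L.foldr (fun P J => AddSubmonoid.closure {x : R | ∃ a ∈ P, ∃ b ∈ J, x = a * b}) ⊤ = I) := by
  intro h
  open Pool.Agent.H22.PriEx Pool.Agent.H22.SkewR in
  obtain ⟨L, hL, h1⟩ := h RR RR_nontrivial RR_prime (pri sg poly_pri sg_inj sg_unit) II II_ideal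
  open Pool.Agent.H22.PriEx Pool.Agent.H22.SkewR in
  exact not_prod (x sg) (ι sg a0) _ (fun f => x_cancel sg) (x_normal sg) hp hxa ha hd II
    (fun f => Iff.rfl) L hL h1

end Pool.Agent.S01438
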