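import Pool.Statements.S01449
import Pool.Agent.H25.RefS

set_option autoImplicit false
open Pool Pool.MP_5131b0_al

namespace Pool.Agent.S01449

/-- There is an uncountable dense subgroup G of the torus power T^ℝ, zero-dimensional, with every countable subgroup closed and every uncountable subgroup dense, whose evaluation map into its double Pontryagin dual is a topological group isomorphism. -/
theorem result :
    ∃ H : Subgroup (ℝ → Circle),
      Dense (H : Set (ℝ → Circle)) ∧
      ¬ (H : Set (ℝ → Circle)).Countable ∧
      (∀ f : H → ℝ, Continuous f →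
        ∃ U : Set H, IsClopen U ∧ f ⁻¹' {0} ⊆ U ∧ Disjoint U (f ⁻¹' {1})) ∧
      (∀ K : Subgroup H, (K : Set H).Countable → IsClosed (K : Set H)) ∧
      (∀ K : Subgroup H, ¬ (K : Set H).Countable → Dense (K : Set H)) ∧
      (∃ e : H ≃ₜ* PontryaginDual (PontryaginDual H),
        ∀ (g : H) (χ : PontryaginDual H), e g χ = χ g) := by
  exact H25.RefS.main

end Pool.Agent.S01449
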