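import Pool.Statements.S01469
import Pool.Agent.H20.Lm5

set_option autoImplicit false
open Pool Pool.MP_5314be_al

namespace Pool.Agent.S01469

theorem result :
    ∃ (K : Type) (_ : Field K) (L : Type) (_ : LieRing L) (_ : LieAlgebra K L),
      (¬ ∃ s : Set L, s.Finite ∧ LieSubalgebra.lieSpan K L s = ⊤) ∧
      ∀ H : LieSubalgebra K L, H ≠ ⊤ →
        ∃ s : Set L, s.Finite ∧ LieSubalgebra.lieSpan K L s = H :=
  Pool.Agent.H20.Lm.t2

end Pool.Agent.S01469
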