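import Pool.Statements.S01479
import Pool.Agent.H22.Prim3

set_option autoImplicit false
open Pool Pool.MP_540292_al

namespace Pool.Agent.S01479

/-- There is a variety of groups, ranks 0<r<n and h in the relatively free group of rank r such that no automorphism sends a basis element to h, but in rank n (via the standard inclusion) some automorphism sends a basis element to h. -/
theorem result :
    ∃ (W : Set (FreeGroup ℕ)) (r n : ℕ) (hrn : r < n) (w : FreeGroup (Fin r)),
      0 < r ∧
      (¬ ∃ (φ : (FreeGroup (Fin r) ⧸ Subgroup.normalClosure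
              {x : FreeGroup (Fin r) | ∃ u ∈ W, ∃ g : ℕ → FreeGroup (Fin r), FreeGroup.lift g u = x}) ≃*
            (FreeGroup (Fin r) ⧸ Subgroup.normalClosure
              {x : FreeGroup (Fin r) | ∃ u ∈ W, ∃ g : ℕ → FreeGroup (Fin r), FreeGroup.lift g u = x}))
          (i : Fin r),
          φ (QuotientGroup.mk (FreeGroup.of i) : FreeGroup (Fin r) ⧸ Subgroup.normalClosure
              {x : FreeGroup (Fin r) | ∃ u ∈ W, ∃ g : ℕ → FreeGroup (Fin r), FreeGroup.lift g u = x})
            = (QuotientGroup.mk w : FreeGroup (Fin r) ⧸ Subgroup.normalClosure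
              {x : FreeGroup (Fin r) | ∃ u ∈ W, ∃ g : ℕ → FreeGroup (Fin r), FreeGroup.lift g u = x})) ∧
      (∃ (ψ : (FreeGroup (Fin n) ⧸ Subgroup.normalClosure
              {x : FreeGroup (Fin n) | ∃ u ∈ W, ∃ g : ℕ → FreeGroup (Fin n), FreeGroup.lift g u = x}) ≃*
            (FreeGroup (Fin n) ⧸ Subgroup.normalClosure
              {x : FreeGroup (Fin n) | ∃ u ∈ W, ∃ g : ℕ → FreeGroup (Fin n), FreeGroup.lift g u = x}))
          (j : Fin n),
          ψ (QuotientGroup.mk (FreeGroup.of j) : FreeGroup (Fin n) ⧸ Subgroup.normalClosure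
              {x : FreeGroup (Fin n) | ∃ u ∈ W, ∃ g : ℕ → FreeGroup (Fin n), FreeGroup.lift g u = x})
            = (QuotientGroup.mk (FreeGroup.map (Fin.castLE hrn.le) w) : FreeGroup (Fin n) ⧸
              Subgroup.normalClosure
              {x : FreeGroup (Fin n) | ∃ u ∈ W, ∃ g : ℕ → FreeGroup (Fin n), FreeGroup.lift g u = x})) := by
  obtain ⟨h, a, b, hh, h1, h2, h3⟩ := H22.Prim.stable
  refine ⟨H22.Prim.Laws, 2, 3, by norm_num, h, by norm_num, ?_, ?_⟩
  · rintro ⟨φ, i, e⟩
    exact H22.Prim.nonprim _ H22.Prim.ncl2 h hh φ i e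
  · refine ⟨MonoidHom.toMulEquiv
      (QuotientGroup.map _ _ (FreeGroup.lift a) (H22.Prim.desc _ a))
      (QuotientGroup.map _ _ (FreeGroup.lift b) (H22.Prim.desc _ b)) ?_ ?_, 0, ?_⟩
    · ext j
      simp only [MonoidHom.comp_apply, QuotientGroup.mk'_apply, QuotientGroup.map_mk,
        FreeGroup.lift_apply_of, MonoidHom.id_apply]
      rw [QuotientGroup.eq]
      apply H22.Prim.ncl3
      intro f
      simp [h1]
    · ext j
      simp only [MonoidHom.comp_apply, QuotientGroup.mk'_apply, QuotientGroup.map_mk,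
        FreeGroup.lift_apply_of, MonoidHom.id_apply]
      rw [QuotientGroup.eq]
      apply H22.Prim.ncl3
      intro f
      simp [h2]
    · simp only [MonoidHom.toMulEquiv_apply, QuotientGroup.map_mk, FreeGroup.lift_apply_of]
      rw [QuotientGroup.eq]
      apply H22.Prim.ncl3
      intro f
      rw [map_mul, map_inv, h3]
      exact inv_mul_cancel _

end Pool.Agent.S01479
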