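import Pool.Statements.S01558
import Pool.Agent.H22.BsStab

set_option autoImplicit false
open Pool Pool.MP_5939ed_al

namespace Pool.Agent.S01558

/-- The negation of the preceding statement: For every n≥2, the group ⟨a,b,c ∣ b⁻¹ab=aⁿ, a⁻¹ca=cⁿ⟩ (two BS(1,n) amalgamated via x₁=t₂) is stable in permutations: almost-solutions in Sym(N), in normalized Hamming distance, are uniformly close to exact solutions. -/
theorem result :
    ¬ (∀ n : ℕ, 2 ≤ n → ∀ ε : ℝ, 0 < ε → ∃ δ : ℝ, 0 < δ ∧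
      ∀ N : ℕ, ∀ a b c : Equiv.Perm (Fin N),
        ((Finset.univ.filter (fun i => (b⁻¹ * a * b) i ≠ (a ^ n) i)).card : ℝ) / N < δ →
        ((Finset.univ.filter (fun i => (a⁻¹ * c * a) i ≠ (c ^ n) i)).card : ℝ) / N < δ →
        ∃ a' b' c' : Equiv.Perm (Fin N),
          b'⁻¹ * a' * b' = a' ^ n ∧ a'⁻¹ * c' * a' = c' ^ n ∧
          ((Finset.univ.filter (fun i => a i ≠ a' i)).card : ℝ) / N < ε ∧
          ((Finset.univ.filter (fun i => b i ≠ b' i)).card : ℝ) / N < ε ∧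
          ((Finset.univ.filter (fun i => c i ≠ c' i)).card : ℝ) / N < ε) := by
  intro h
  obtain ⟨δ, hδ, H⟩ := h 2 le_rfl (1 / 32) (by norm_num)
  obtain ⟨N, a, b, c, h1, h2, h3⟩ := Pool.Agent.H22.BsStab.main 2 le_rfl δ hδ
  obtain ⟨a', b', c', r1, r2, d1, d2, d3⟩ := H N a b c h1 h2
  exact h3 a' b' c' r1 r2 d1 d2 d3

end Pool.Agent.S01558
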