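import Pool.Statements.S01567
import Pool.Agent.H21.LoopSN2

set_option autoImplicit false
open Pool Pool.MP_5a0037_al

namespace Pool.Agent.S01567

theorem result :
    ∃ g : ℕ → ℕ, ∀ (Q : Type) [MulOneClass Q],
      (∀ a : Q, Function.Bijective (fun x : Q => a * x)) →
      (∀ a : Q, Function.Bijective (fun x : Q => x * a)) →
      ∀ c n : ℕ,
      upperCentralSeries (↥(Subgroup.closure
          {σ : Equiv.Perm Q | ∃ a : Q, ((⇑σ) = fun x : Q => a * x) ∨ ((⇑σ) = fun x : Q => x * a)})) c = ⊤ →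
      (∀ (m : ℕ) (p : (Fin n → Fin m → Q) → (Fin m → Q) → Q),
        (∀ S : Set ((Fin n → Fin m → Q) → (Fin m → Q) → Q),
          (∀ (i : Fin n) (j : Fin m), (fun (x : Fin n → Fin m → Q) (_ : Fin m → Q) => x i j) ∈ S) →
          (∀ j : Fin m, (fun (_ : Fin n → Fin m → Q) (y : Fin m → Q) => y j) ∈ S) →
          (∀ q : Q, (fun (_ : Fin n → Fin m → Q) (_ : Fin m → Q) => q) ∈ S) →
          (∀ f ∈ S, ∀ h ∈ S, (fun (x : Fin n → Fin m → Q) (y : Fin m → Q) => f x y * h x y) ∈ S) →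
          (∀ f ∈ S, ∀ h ∈ S, ∀ r : (Fin n → Fin m → Q) → (Fin m → Q) → Q,
            (∀ x y, f x y * r x y = h x y) → r ∈ S) →
          (∀ f ∈ S, ∀ h ∈ S, ∀ r : (Fin n → Fin m → Q) → (Fin m → Q) → Q,
            (∀ x y, r x y * f x y = h x y) → r ∈ S) →
          p ∈ S) →
        ∀ (a b : Fin n → Fin m → Q) (u v : Fin m → Q),
          (∀ s : Fin n → Bool, s ≠ (fun _ => true) →
            p (fun i => if s i then b i else a i) u = p (fun i => if s i then b i else a i) v) →
          p b u = p b v) →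
      (∀ (m : ℕ) (p : (Fin (g c) → Fin m → Q) → (Fin m → Q) → Q),
        (∀ S : Set ((Fin (g c) → Fin m → Q) → (Fin m → Q) → Q),
          (∀ (i : Fin (g c)) (j : Fin m), (fun (x : Fin (g c) → Fin m → Q) (_ : Fin m → Q) => x i j) ∈ S) →
          (∀ j : Fin m, (fun (_ : Fin (g c) → Fin m → Q) (y : Fin m → Q) => y j) ∈ S) →
          (∀ q : Q, (fun (_ : Fin (g c) → Fin m → Q) (_ : Fin m → Q) => q) ∈ S) →
          (∀ f ∈ S, ∀ h ∈ S, (fun (x : Fin (g c) → Fin m → Q) (y : Fin m → Q) => f x y * h x y) ∈ S) →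
          (∀ f ∈ S, ∀ h ∈ S, ∀ r : (Fin (g c) → Fin m → Q) → (Fin m → Q) → Q,
            (∀ x y, f x y * r x y = h x y) → r ∈ S) →
          (∀ f ∈ S, ∀ h ∈ S, ∀ r : (Fin (g c) → Fin m → Q) → (Fin m → Q) → Q,
            (∀ x y, r x y * f x y = h x y) → r ∈ S) →
          p ∈ S) →
        ∀ (a b : Fin (g c) → Fin m → Q) (u v : Fin m → Q),
          (∀ s : Fin (g c) → Bool, s ≠ (fun _ => true) →
            p (fun i => if s i then b i else a i) u = p (fun i => if s i then b i else a i) v) →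
          p b u = p b v) := by
  refine ⟨fun c => Pool.Agent.H21.Cube.dd c * 2 ^ c, ?_⟩
  intro Q _ h1 h2 c n hc _ m p hp a b u v e
  have h : Pool.Agent.H21.Loop.IsLoop Q := ⟨h1, h2⟩
  have hP := hp {f | Pool.Agent.H21.Cube.Pol (Pool.Agent.H21.Loop.toLD h)
      (fun s : Fin (Pool.Agent.H21.Cube.dd c * 2 ^ c + 1) → Bool =>
        f (fun i => if s i.succ then b i else a i) (if s 0 then v else u))}
    (fun i j => by
      have := Pool.Agent.H21.Cube.Pol.jun (D := Pool.Agent.H21.Loop.toLD h) i.succ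
        (fun t => (if t then b i else a i) j)
      exact this)
    (fun j => by
      have := Pool.Agent.H21.Cube.Pol.jun (D := Pool.Agent.H21.Loop.toLD h)
        (0 : Fin (Pool.Agent.H21.Cube.dd c * 2 ^ c + 1)) (fun t => (if t then v else u) j)
      exact this)
    (fun q => Pool.Agent.H21.Cube.Pol.const q)
    (fun f hf g hg => Pool.Agent.H21.Loop.pol_mul h hf hg)
    (fun f hf g hg r e => Pool.Agent.H21.Loop.pol_ldiv h hf hg (fun s => e _ _))
    (fun f hf g hg r e => Pool.Agent.H21.Loop.pol_rdiv h hf hg (fun s => e _ _))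
  have := Pool.Agent.H21.Loop.cube_tc h hc le_rfl _ hP (fun s hs => by simpa using e s hs)
  simpa using this

end Pool.Agent.S01567
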