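import Pool.Statements.S01585
import Pool.Agent.H22.Jus2

set_option autoImplicit false
open Pool Pool.MP_5c00b6_al

namespace Pool.Agent.S01585

/-- For every ε>0 there is a nonempty finite set V of triples (a,b,c) of positive integers such that the pairs (a,b), (b,c), (a+b,c), (a,b+c) from V have at least (1−ε)∣V∣ elements in common. -/
theorem result :
    ∀ ε : ℝ, 0 < ε →
      ∃ V : Finset (ℕ × ℕ × ℕ),
        V.Nonempty ∧
        (∀ x ∈ V, 0 < x.1 ∧ 0 < x.2.1 ∧ 0 < x.2.2) ∧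
        (1 - ε) * (V.card : ℝ) ≤
          ((V.image (fun x : ℕ × ℕ × ℕ => (x.1, x.2.1)) ∩
            V.image (fun x : ℕ × ℕ × ℕ => (x.2.1, x.2.2)) ∩
            V.image (fun x : ℕ × ℕ × ℕ => (x.1 + x.2.1, x.2.2)) ∩
            V.image (fun x : ℕ × ℕ × ℕ => (x.1, x.2.1 + x.2.2))).card : ℝ) := by
  intro ε hε
  obtain ⟨t, ht⟩ := exists_nat_gt (16 / ε)
  obtain ⟨V, I, h1, h2, h3, h4⟩ := H22.Jus.nat (t + 1) (by omega)
  refine ⟨V, h1, h2, ?_⟩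
  have hs : I ⊆ V.image (fun x : ℕ × ℕ × ℕ => (x.1, x.2.1)) ∩
      V.image (fun x : ℕ × ℕ × ℕ => (x.2.1, x.2.2)) ∩
      V.image (fun x : ℕ × ℕ × ℕ => (x.1 + x.2.1, x.2.2)) ∩
      V.image (fun x : ℕ × ℕ × ℕ => (x.1, x.2.1 + x.2.2)) := by
    intro y hy
    simp only [Finset.mem_inter, Finset.mem_image]
    obtain ⟨a, b, c, d⟩ := h4 y hy
    exact ⟨⟨⟨a, b⟩, c⟩, d⟩
  refine le_trans ?_ (Nat.cast_le.2 (Finset.card_le_card hs))
  have h5 : (V.card : ℝ) * ((t : ℝ) + 1) ^ 16 ≤ I.card * ((t : ℝ) + 1 + 1) ^ 16 := by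
    exact_mod_cast h3
  have t0 : (0 : ℝ) ≤ t := Nat.cast_nonneg t
  have t2 : (0 : ℝ) < (t : ℝ) + 1 + 1 := by linarith
  have h6 : 1 + (16 : ℕ) * (-(1 / ((t : ℝ) + 1 + 1))) ≤ (1 + -(1 / ((t : ℝ) + 1 + 1))) ^ 16 := by
    apply one_add_mul_le_pow
    have : 1 / ((t : ℝ) + 1 + 1) ≤ 1 := by
      rw [div_le_one t2]
      linarith
    linarith
  have h7 : (1 + -(1 / ((t : ℝ) + 1 + 1))) = ((t : ℝ) + 1) / ((t : ℝ) + 1 + 1) := by
    field_simp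
    ring
  rw [h7, div_pow] at h6
  have h8 : 16 * (1 / ((t : ℝ) + 1 + 1)) ≤ ε := by
    rw [div_lt_iff₀ hε] at ht
    rw [mul_one_div, div_le_iff₀ t2]
    nlinarith
  have h9 : 1 - ε ≤ ((t : ℝ) + 1) ^ 16 / ((t : ℝ) + 1 + 1) ^ 16 := by
    push_cast at h6
    linarith
  refine le_trans (mul_le_mul_of_nonneg_right h9 (Nat.cast_nonneg _)) ?_
  rw [div_mul_eq_mul_div, div_le_iff₀ (by positivity), mul_comm]
  exact h5

end Pool.Agent.S01585
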