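import Pool.Statements.S01587
import Pool.Agent.H24.Munn8

set_option autoImplicit false
open Pool Pool.MP_5c1719_al

namespace Pool.Agent.S01587

/-- For every finite alphabet there is a computable procedure that, given a finite automaton presenting a rational subset of the free inverse monoid (via Munn trees), decides whether that subset is recognizable, i.e. has finitely many residuals. -/
theorem result :
    ∀ n : ℕ, ∃ f : List (ℕ × Option (Fin n ⊕ Fin n) × ℕ) × List ℕ → Bool, Computable f ∧
      ∀ A : List (ℕ × Option (Fin n ⊕ Fin n) × ℕ) × List ℕ,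
        (f A = true ↔
          (Set.range (fun u : List (Fin n ⊕ Fin n) =>
            {w : List (Fin n ⊕ Fin n) | ∃ v : List (Fin n ⊕ Fin n),
              (∃ l : List (ℕ × Option (Fin n ⊕ Fin n) × ℕ),
                (∀ t ∈ l, t ∈ A.1) ∧
                (∀ i : ℕ, i + 1 < l.length →
                  (l[i]?).map (fun t => t.2.2) = (l[i+1]?).map (fun t => t.1)) ∧
                ((l.head?).map (fun t => t.1)).getD 0 = 0 ∧
                ((l.getLast?).map (fun t => t.2.2)).getD 0 ∈ A.2 ∧
                l.filterMap (fun t => t.2.1) = v) ∧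
              ((u ++ w).map (Sum.elim (fun i : Fin n => FreeGroup.of i)
                  (fun i : Fin n => (FreeGroup.of i)⁻¹))).prod =
                (v.map (Sum.elim (fun i : Fin n => FreeGroup.of i)
                  (fun i : Fin n => (FreeGroup.of i)⁻¹))).prod ∧
              {g : FreeGroup (Fin n) | ∃ k : ℕ, (((u ++ w).take k).map
                  (Sum.elim (fun i : Fin n => FreeGroup.of i)
                    (fun i : Fin n => (FreeGroup.of i)⁻¹))).prod = g} =
                {g : FreeGroup (Fin n) | ∃ k : ℕ, ((v.take k).map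
                  (Sum.elim (fun i : Fin n => FreeGroup.of i)
                    (fun i : Fin n => (FreeGroup.of i)⁻¹))).prod = g}})).Finite) := by
  intro n
  obtain ⟨f, hf, h⟩ := H24.Munn.ex_test (k := n)
  refine ⟨f, hf.to_comp, fun A => (h A).trans ?_⟩
  have hs : Function.Surjective (List.map (H24.Munn.cv (k := n))) :=
    List.map_surjective_iff.2 H24.Munn.cv_surj
  rw [← Set.finite_image_iff (Set.preimage_injective.2 hs).injOn, ← Set.range_comp,
    ← hs.range_comp]
  refine iff_of_eq (congrArg _ (congrArg _ (funext fun u => Set.ext fun w => ?_)))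
  simp only [H24.Munn.prod_cv]
  simp only [List.map_take, Set.mem_ofPred_eq, Function.comp, Set.mem_preimage,
    H24.Munn.res, ← List.map_append]
  constructor
  · rintro ⟨v, q, a, b, c, d⟩
    obtain ⟨g, h1, l, h2, h3, rfl⟩ := (H24.Munn.run_E A v _).1 ⟨q, a, b⟩
    obtain ⟨k1, k2, k3⟩ := (H24.Munn.st_iff _ _ _).1 h3
    rw [H24.Munn.fm_eq] at c d
    exact ⟨_, ⟨l, h2, k1, k2, k3 ▸ h1, rfl⟩, d.symm, (H24.Munn.pre_eq d.symm).2 c.symm⟩
  · rintro ⟨_, ⟨l, h2, k1, k2, k3, rfl⟩, d, c⟩
    obtain ⟨q, a, b⟩ := (H24.Munn.run_E A _ (H24.Munn.autE A).s).2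
      ⟨_, k3, l, h2, (H24.Munn.st_iff _ _ _).2 ⟨k1, k2, rfl⟩, H24.Munn.fm_eq l⟩
    exact ⟨_, q, a, b, ((H24.Munn.pre_eq d).1 c).symm, d.symm⟩

end Pool.Agent.S01587
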