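import Pool.Statements.S01642
import Pool.Agent.H18.EngW2

set_option autoImplicit false
open Pool Pool.MP_5f1296_al

namespace Pool.Agent.S01642

/-- The negation of the preceding statement: In every group with an ascending series with abelian factors, an element is right n-Engel for some n iff for some n ≥ 1 every cyclic subgroup ⟨x⟩ is subnormal of defect ≤ n in ⟨x⟩ times the normal closure of that element. -/
theorem result :
    ¬ (∀ (G : Type) [Group G],
      (∃ (β : Ordinal.{0}) (S : Ordinal.{0} → Subgroup G),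
        S 0 = ⊥ ∧ S β = ⊤ ∧
        (∀ α < β, S α ≤ S (Order.succ α) ∧
          (∀ g ∈ S (Order.succ α), ∀ h ∈ S α, g * h * g⁻¹ ∈ S α) ∧
          (∀ x ∈ S (Order.succ α), ∀ y ∈ S (Order.succ α), x * y * x⁻¹ * y⁻¹ ∈ S α)) ∧
        (∀ l ≤ β, Order.IsSuccLimit l → S l = ⨆ (α : Ordinal.{0}) (_ : α < l), S α)) →
      ∀ a : G,
        (∃ n : ℕ, ∀ x : G, (fun y : G => y⁻¹ * x⁻¹ * y * x)^[n] a = 1) ↔
        (∃ n : ℕ, 1 ≤ n ∧ ∀ x : G, ∃ H : ℕ → Subgroup G,
           H 0 = Subgroup.zpowers x ∧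
           H n = Subgroup.zpowers x ⊔ Subgroup.normalClosure {a} ∧
           ∀ i < n, H i ≤ H (i + 1) ∧ ∀ g ∈ H (i + 1), ∀ h ∈ H i, g * h * g⁻¹ ∈ H i)) := by
  intro h
  have h1 := h (H18.EngW.W H18.EngW.M) H18.EngW.series ⟨1, 1, true⟩
  obtain ⟨n, -, hn⟩ := h1.1 ⟨145, fun g => H18.EngW.engel _ g⟩
  obtain ⟨K, h0, h2, hK⟩ := hn ⟨1, 1, true⟩
  refine H18.EngW.not_chain ⟨1, 1, true⟩ rfl n 1 K h0 ?_ hK
  rw [h2]
  have := H18.EngW.Has_down 0 (Subgroup.normalClosure {⟨1, 1, true⟩}) ⊤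
    (fun a _ b hb => Subgroup.normalClosure_normal.conj_mem b hb a) ⟨1, 1, true⟩
    (Subgroup.subset_normalClosure rfl) rfl H18.EngW.Has_top
  exact fun p q hpq r hr => Subgroup.mem_sup_right (this p q hpq r hr)

end Pool.Agent.S01642
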