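import Pool.Statements.S01683
import Pool.Agent.H24.Munn4

set_option autoImplicit false
open Pool Pool.MP_61c0e4_al

namespace Pool.Agent.S01683

/-- For every k ≥ 2 there is an algorithm that, given two finite automata over k letters and their inverses, decides whether the image of the first language in the free inverse monoid is contained in the image of the second. -/
theorem result :
    ∀ k : ℕ, 2 ≤ k →
      ComputablePred
        (fun p : (List (ℕ × (Fin k × Bool) × ℕ) × ℕ × List ℕ) ×
            (List (ℕ × (Fin k × Bool) × ℕ) × ℕ × List ℕ) =>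
          ∀ w : List (Fin k × Bool),
            (∃ s : List ℕ, s.length = w.length + 1 ∧ s.getD 0 0 = p.1.2.1 ∧
              s.getD w.length 0 ∈ p.1.2.2 ∧
              ∀ (i : ℕ) (a : Fin k × Bool), w[i]? = some a →
                (s.getD i 0, a, s.getD (i + 1) 0) ∈ p.1.1) →
            ∃ w' : List (Fin k × Bool),
              (∃ s : List ℕ, s.length = w'.length + 1 ∧ s.getD 0 0 = p.2.2.1 ∧
                s.getD w'.length 0 ∈ p.2.2.2 ∧
                ∀ (i : ℕ) (a : Fin k × Bool), w'[i]? = some a →
                  (s.getD i 0, a, s.getD (i + 1) 0) ∈ p.2.1) ∧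
              conGen
                (fun a b : FreeMonoid (Fin k × Bool) =>
                  (∃ u : FreeMonoid (Fin k × Bool),
                    a = u * FreeMonoid.ofList
                          (((FreeMonoid.toList u).map (fun x => (x.1, !x.2))).reverse) * u ∧
                    b = u) ∨
                  (∃ u v : FreeMonoid (Fin k × Bool),
                    a = u * FreeMonoid.ofList
                          (((FreeMonoid.toList u).map (fun x => (x.1, !x.2))).reverse) *
                        v * FreeMonoid.ofList
                          (((FreeMonoid.toList v).map (fun x => (x.1, !x.2))).reverse) ∧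
                    b = v * FreeMonoid.ofList
                          (((FreeMonoid.toList v).map (fun x => (x.1, !x.2))).reverse) *
                        u * FreeMonoid.ofList
                          (((FreeMonoid.toList u).map (fun x => (x.1, !x.2))).reverse)))
                (FreeMonoid.ofList w) (FreeMonoid.ofList w')) := by
  intro k _
  refine ComputablePred.computable_iff.2 ⟨Pool.Agent.H24.Munn.test,
    Pool.Agent.H24.Munn.test_prim.to_comp, funext fun p => propext ?_⟩
  rw [Pool.Agent.H24.Munn.test_iff]
  simp only [Pool.Agent.H24.Munn.acc_list, ← Pool.Agent.H24.Munn.munn]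
  refine forall_congr' fun w => imp_congr_right fun _ => exists_congr fun w' =>
    and_congr_right fun _ => iff_of_eq (congrArg (fun c : Con (FreeMonoid (Fin k × Bool)) =>
      c (FreeMonoid.ofList w) (FreeMonoid.ofList w')) (congrArg conGen ?_))
  funext a b
  refine propext ⟨?_, ?_⟩
  · rintro (⟨u, h1, h2⟩ | ⟨u, v, h1, h2⟩)
    · exact Or.inl ⟨u, h1, h2⟩
    · exact Or.inr (Or.inl ⟨u, v, h1.trans (mul_assoc _ _ _), h2.trans (mul_assoc _ _ _)⟩)
  · rintro (⟨u, h1, h2⟩ | ⟨u, v, h1, h2⟩ | ⟨r, hr, _⟩)
    · exact Or.inl ⟨u, h1, h2⟩
    · exact Or.inr ⟨u, v, h1.trans (mul_assoc (FreeMonoid.ofList (u ++ FreeGroup.invRev u))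
        (FreeMonoid.ofList v) (FreeMonoid.ofList (FreeGroup.invRev v))).symm,
        h2.trans (mul_assoc (FreeMonoid.ofList (v ++ FreeGroup.invRev v))
        (FreeMonoid.ofList u) (FreeMonoid.ofList (FreeGroup.invRev u))).symm⟩
    · simp at hr

end Pool.Agent.S01683
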