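import Pool.Statements.S01712
import Pool.Agent.H22.SemiLin

set_option autoImplicit false
open Pool Pool.MP_63a718_al

namespace Pool.Agent.S01712

/-- The negation of the preceding statement: For every group G and every right-invariant, upward-directed partial order on G whose positive cone is a chain, there is a right-invariant total order on G that contains it. -/
theorem result :
    ¬ (∀ (G : Type) [Group G] (r : G → G → Prop),
      (∀ a : G, r a a) →
      (∀ a b : G, r a b → r b a → a = b) →
      (∀ a b c : G, r a b → r b c → r a c) →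
      (∀ a b c : G, r a b → r (a * c) (b * c)) →
      (∀ a b : G, ∃ c : G, r a c ∧ r b c) →
      (∀ a b : G, r 1 a → r 1 b → r a b ∨ r b a) →
      ∃ s : G → G → Prop,
        (∀ a : G, s a a) ∧
        (∀ a b : G, s a b → s b a → a = b) ∧
        (∀ a b c : G, s a b → s b c → s a c) ∧
        (∀ a b : G, s a b ∨ s b a) ∧
        (∀ a b c : G, s a b → s (a * c) (b * c)) ∧
        (∀ a b : G, r a b → s a b)) := by
  intro h
  obtain ⟨r, h1, h2, h3, h4, h5, h6, h7⟩ := Pool.Agent.H22.SemiLin.main
  obtain ⟨s, -, s2, s3, s4, s5, s6⟩ := h _ r h1 h2 h3 h4 h5 h6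
  exact h7 s s2 s3 s4 s5 s6

end Pool.Agent.S01712
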