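import Pool.Statements.S01748
import Pool.Agent.H20.Word

set_option autoImplicit false
open scoped Pointwise
open Pool Pool.MP_674247_al
open Pool.Agent.H20.Word

namespace Pool.Agent.S01748

theorem struct (Z : Type) [CommGroup Z] [Group.FG Z] :
    ∃ (J : Type) (_ : Fintype J) (Φ : Z → J → ℤ), (∀ a b, Φ (a * b) = Φ a + Φ b) ∧
      Function.Surjective Φ ∧ ∀ B : ℤ, {z | ∀ j, |Φ z j| ≤ B}.Finite := by
  obtain ⟨ι, J, hι, hJ, p, hp, e, ⟨f⟩⟩ := CommGroup.equiv_free_prod_prod_multiplicative_zmod Z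
  refine ⟨J, hJ, fun z j => Multiplicative.toAdd ((f z).1 j), fun a b => ?_, fun v => ?_, fun B => ?_⟩
  · funext j; simp
  · exact ⟨f.symm (fun j => Multiplicative.ofAdd (v j), 1), by funext j; simp⟩
  · haveI : ∀ i, NeZero (p i ^ e i) := fun i => ⟨pow_ne_zero _ (hp i).ne_zero⟩
    have h1 : (Set.pi Set.univ (fun _ : J => Multiplicative.ofAdd '' Set.Icc (-B) B)).Finite :=
      Set.Finite.pi' (fun _ => (Set.finite_Icc _ _).image _) |>.subset (fun x hx j => hx j trivial)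
    have h2 := h1.prod (Set.finite_univ (α := (i : ι) → Multiplicative (ZMod (p i ^ e i))))
    refine (h2.preimage (f := f) f.injective.injOn).subset ?_
    intro z hz
    refine ⟨fun j _ => ⟨Multiplicative.toAdd ((f z).1 j), ?_, rfl⟩, trivial⟩
    exact abs_le.mp (hz j)

theorem hom_bound {Z : Type} [Group Z] (φ : Z → ℤ) (hφ : ∀ a b, φ (a * b) = φ a + φ b)
    (S : Finset Z) : ∃ L : ℕ, ∀ (n : ℕ) z, z ∈ (S : Set Z) ^ n → φ z ≤ L * n := by
  refine ⟨S.sup (fun s => (φ s).natAbs), fun n => ?_⟩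
  induction n with
  | zero =>
    intro z hz
    have : z = 1 := by simpa using hz
    have h1 := hφ 1 1
    rw [mul_one] at h1
    rw [this]; simp; omega
  | succ n ih =>
    intro z hz
    rw [pow_succ] at hz
    obtain ⟨x, hx, y, hy, rfl⟩ := hz
    have h1 := ih x hx
    have h2 : (φ y).natAbs ≤ S.sup (fun s => (φ s).natAbs) :=
      Finset.le_sup (f := fun s => (φ s).natAbs) hy
    show φ (x * y) ≤ _
    rw [hφ]
    push_cast
    generalize S.sup (fun s => (φ s).natAbs) = L at *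
    have : φ y ≤ L := by omega
    linarith

theorem mcshane {Z E : Type} [Group Z] [Group E] (ι : Z →* E) (S : Set E)
    (hS : ∀ x ∈ S, x⁻¹ ∈ S) (hc : Subgroup.closure S = ⊤) (φ : Z → ℤ)
    (hφ : ∀ a b, φ (a * b) = φ a + φ b) (L D : ℕ) (hL : ∀ z, φ z ≤ L * len S (ι z) + D) :
    ∃ F : E → ℤ, (∀ w e, F (ι w * e) = φ w + F e) ∧ ∀ e s, |F (e * s) - F e| ≤ L * len S s := by
  have hb : ∀ e : E, BddAbove (Set.range fun z => φ z - L * len S (e⁻¹ * ι z)) := by
    intro e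
    refine ⟨L * len S e + D, ?_⟩
    rintro _ ⟨z, rfl⟩
    have h1 := hL z
    have h2 := len_mul hS hc e (e⁻¹ * ι z)
    rw [mul_inv_cancel_left] at h2
    have h3 : (L : ℤ) * len S (ι z) ≤ L * (len S e + len S (e⁻¹ * ι z)) :=
      mul_le_mul_of_nonneg_left (by exact_mod_cast h2) (by positivity)
    show φ z - _ ≤ _
    linarith
  have key : ∀ w e, φ w + (⨆ z, φ z - L * len S (e⁻¹ * ι z)) ≤
      ⨆ z, φ z - L * len S ((ι w * e)⁻¹ * ι z) := by
    intro w e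
    rw [← le_sub_iff_add_le']
    refine ciSup_le fun z => ?_
    have := le_ciSup (hb (ι w * e)) (w * z)
    simp only [hφ, map_mul, mul_inv_rev, mul_assoc, inv_mul_cancel_left] at this ⊢
    linarith
  have key2 : ∀ e s, (⨆ z, φ z - L * len S (e⁻¹ * ι z)) ≤
      (⨆ z, φ z - L * len S ((e * s)⁻¹ * ι z)) + L * len S s := by
    intro e s
    refine ciSup_le fun z => ?_
    have h1 := le_ciSup (hb (e * s)) z
    have h2 := len_mul hS hc s⁻¹ (e⁻¹ * ι z)
    rw [len_inv hS hc, ← mul_assoc, ← mul_inv_rev] at h2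
    have h3 : (L : ℤ) * len S ((e * s)⁻¹ * ι z) ≤ L * (len S s + len S (e⁻¹ * ι z)) :=
      mul_le_mul_of_nonneg_left (by exact_mod_cast h2) (by positivity)
    linarith
  refine ⟨fun e => ⨆ z, φ z - L * len S (e⁻¹ * ι z), fun w e => ?_, fun e s => ?_⟩
  · apply le_antisymm _ (key w e)
    have h1 := key w⁻¹ (ι w * e)
    have h2 : ι w⁻¹ * (ι w * e) = e := by simp
    rw [h2] at h1
    have h3 := hφ w w⁻¹
    have h4 := hφ 1 1
    rw [mul_one] at h4
    rw [mul_inv_cancel] at h3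
    show (⨆ z, φ z - L * len S ((ι w * e)⁻¹ * ι z)) ≤ _
    linarith
  · rw [abs_le]
    have h1 := key2 e s
    have h2 := key2 (e * s) s⁻¹
    rw [mul_inv_cancel_right, len_inv hS hc] at h2
    constructor <;> linarith

theorem result :
    ¬ (∃ (Z E G : Type) (_ : Group Z) (_ : Group E) (_ : Group G) (ι : Z →* E) (π : E →* G),
    Function.Injective ι ∧ Function.Surjective π ∧ ι.range = π.ker ∧
    ι.range ≤ Subgroup.center E ∧
    ∃ (SZ : Finset Z) (SE : Finset E) (SP : Finset (Z × G)),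
      Subgroup.closure (SZ : Set Z) = ⊤ ∧ (1 : Z) ∈ SZ ∧ (∀ x ∈ SZ, x⁻¹ ∈ SZ) ∧
      Subgroup.closure (SE : Set E) = ⊤ ∧ (1 : E) ∈ SE ∧ (∀ x ∈ SE, x⁻¹ ∈ SE) ∧
      Subgroup.closure (SP : Set (Z × G)) = ⊤ ∧ (1 : Z × G) ∈ SP ∧ (∀ x ∈ SP, x⁻¹ ∈ SP) ∧
      (∃ C : ℕ, ∀ (z : Z) (n : ℕ),
          ι z ∈ (SE : Set E) ^ n → z ∈ (SZ : Set Z) ^ (C * n + C)) ∧
      ¬ ∃ (f : Z × G → E) (C : ℕ), (∀ p : Z × G, π (f p) = p.2) ∧
          (∀ (p q : Z × G) (n : ℕ), p⁻¹ * q ∈ (SP : Set (Z × G)) ^ n →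
              (f p)⁻¹ * f q ∈ (SE : Set E) ^ (C * n + C)) ∧
          (∀ (p q : Z × G) (n : ℕ), (f p)⁻¹ * f q ∈ (SE : Set E) ^ n →
              p⁻¹ * q ∈ (SP : Set (Z × G)) ^ (C * n + C)) ∧
          (∀ e : E, ∃ p : Z × G, (f p)⁻¹ * e ∈ (SE : Set E) ^ C)) := by
  rintro ⟨Z, E, G, gZ, gE, gG, ι, π, hinj, hsurj, hker, hcen, SZ, SE, SP, hZ, hZ1, hZi, hE, hE1, hEi,
    hP, hP1, hPi, ⟨C, hC⟩, hno⟩
  apply hno
  have hcomm : ∀ z e, e * ι z = ι z * e := fun z e =>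
    Subgroup.mem_center_iff.mp (hcen ⟨z, rfl⟩) e
  letI cZ : CommGroup Z := { gZ with mul_comm := fun a b => hinj (by rw [map_mul, map_mul, hcomm]) }
  haveI : Group.FG Z := ⟨⟨SZ, hZ⟩⟩
  obtain ⟨J, hJ, Φ, hΦ, hΦs, hΦf⟩ := struct Z
  have hF : ∀ j, ∃ (L : ℕ) (F : E → ℤ), (∀ w e, F (ι w * e) = Φ w j + F e) ∧
      ∀ e s, |F (e * s) - F e| ≤ L * len SE s := by
    intro j
    obtain ⟨L, hL⟩ := hom_bound (fun z => Φ z j) (fun a b => by simp [hΦ]) SZ
    refine ⟨L * C, mcshane ι SE hEi hE _ (fun a b => by simp [hΦ]) (L * C) (L * C) fun z => ?_⟩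
    have := hL _ z (hC z _ (mem_len hEi hE (ι z)))
    push_cast at this ⊢
    linarith
  choose L F hF1 hF2 using hF
  have hπι : ∀ z, π (ι z) = 1 := fun z => by
    have : ι z ∈ π.ker := hker ▸ ⟨z, rfl⟩
    exact this
  have hs : ∀ g : G, ∃ e, π e = g ∧ ∀ j, F j e = 0 := by
    intro g
    obtain ⟨e, he⟩ := hsurj g
    obtain ⟨w, hw⟩ := hΦs (fun j => -F j e)
    exact ⟨ι w * e, by simp [hπι, he], fun j => by rw [hF1, hw]; simp⟩
  choose s hs1 hs2 using hs
  have hz : ∀ e : E, ∃ z, ι z * s (π e) = e := by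
    intro e
    have : e * (s (π e))⁻¹ ∈ ι.range := by
      rw [hker, MonoidHom.mem_ker]; simp [hs1]
    obtain ⟨z, hz⟩ := this
    exact ⟨z, by rw [hz]; simp⟩
  choose c hc using hz
  have hcF : ∀ e j, Φ (c e) j = F j e := by
    intro e j
    have := hF1 j (c e) (s (π e))
    rw [hc, hs2] at this
    linarith
  have hΦinv : ∀ a b j, Φ (a⁻¹ * b) j = Φ b j - Φ a j := by
    intro a b j
    have := congrFun (hΦ a (a⁻¹ * b)) j
    rw [mul_inv_cancel_left] at this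
    simp only [Pi.add_apply] at this
    linarith
  set M : ℕ := Finset.univ.sup L with hM
  have hF3 : ∀ e t j, |F j (e * t) - F j e| ≤ M * len SE t := fun e t j =>
    (hF2 j e t).trans (mul_le_mul_of_nonneg_right
      (by exact_mod_cast Finset.le_sup (f := L) (Finset.mem_univ j)) (by positivity))
  obtain ⟨C1, hC1⟩ := lip (S := (SP : Set (Z × G))) (T := (SE : Set E)) hEi hE hE1
    (fun p : Z × G => ι p.1 * s p.2)
    (A := ⋃ σ ∈ SP, (fun z => ι (σ.1 * z⁻¹) * s σ.2) '' {z | ∀ j, |Φ z j| ≤ M * len SE (s σ.2)})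
    (Set.Finite.biUnion SP.finite_toSet fun σ _ => (hΦf _).image _) (by
      intro p σ hσ
      simp only [Set.mem_iUnion]
      refine ⟨σ, hσ, c (s p.2 * s σ.2), fun j => ?_, ?_⟩
      · rw [hcF]
        have := hF3 (s p.2) (s σ.2) j
        rwa [hs2, sub_zero] at this
      · have h1 := hc (s p.2 * s σ.2)
        rw [map_mul, hs1, hs1] at h1
        have h2 : s (p.2 * σ.2) = (ι (c (s p.2 * s σ.2)))⁻¹ * (s p.2 * s σ.2) := by
          rw [eq_inv_mul_iff_mul_eq, h1]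
        simp only [Prod.fst_mul, Prod.snd_mul, h2, map_mul, map_inv, mul_inv_rev, mul_assoc,
          inv_mul_cancel_left]
        rw [← map_inv, ← mul_assoc (ι σ.1) _ (s p.2 * _), ← map_mul, ← mul_assoc (s p.2)⁻¹, hcomm,
          mul_assoc, inv_mul_cancel_left, map_mul, mul_assoc])
  obtain ⟨C2, hC2⟩ := lip (S := (SE : Set E)) (T := (SP : Set (Z × G))) hPi hP hP1
    (fun e : E => (c e, π e))
    (A := {z | ∀ j, |Φ z j| ≤ M} ×ˢ (π '' SE))
    ((hΦf _).prod (SE.finite_toSet.image _)) (by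
      intro e σ hσ
      refine ⟨fun j => ?_, σ, hσ, by simp⟩
      simp only [Prod.fst_mul, Prod.fst_inv]
      rw [hΦinv, hcF, hcF]
      have h1 := hF3 e σ j
      have h2 : (M : ℤ) * len SE σ ≤ M * 1 :=
        mul_le_mul_of_nonneg_left (by exact_mod_cast len_gen hσ) (by positivity)
      linarith)
  have hback : ∀ p : Z × G, (c (ι p.1 * s p.2), π (ι p.1 * s p.2)) = p := by
    intro p
    have h1 : π (ι p.1 * s p.2) = p.2 := by simp [hπι, hs1]
    have h2 := hc (ι p.1 * s p.2)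
    rw [h1] at h2
    rw [h1, hinj (mul_right_cancel h2)]
  refine ⟨fun p => ι p.1 * s p.2, C1 + C2, fun p => by simp [hπι, hs1], fun p q n h => ?_,
    fun p q n h => ?_, fun e => ⟨(c e, π e), ?_⟩⟩
  · exact mono_pow hE1 (by nlinarith) (hC1 p q n h)
  · have := hC2 _ _ n h
    simp only [hback] at this
    exact mono_pow hP1 (by nlinarith) this
  · simp only [hc, inv_mul_cancel]
    exact mono_pow hE1 (Nat.zero_le _) (by simp)

end Pool.Agent.S01748
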