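import Pool.Statements.S01806
import Pool.Agent.H22.LocFit

set_option autoImplicit false
open Pool Pool.MP_6b3431_al

namespace Pool.Agent.S01806

/-- The negation of the preceding statement: If F is the smallest Hartley-local Fitting class containing a finite group G, F is soluble, F equals the Fitting product MH of Fitting classes M (nonempty) and H, and M differs from F, then H is a local Fitting class. -/
theorem result :
    ¬ (∀ (Fit : ((G : Type) → [Group G] → Prop) → Prop)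
    (Prod : ((G : Type) → [Group G] → Prop) → ((G : Type) → [Group G] → Prop) →
      (G : Type) → [Group G] → Prop)
    (Loc : ((G : Type) → [Group G] → Prop) → Prop),
  (∀ C : (G : Type) → [Group G] → Prop, Fit C ↔
      ((∀ (G K : Type) [Group G] [Group K], Nonempty (G ≃* K) → C G → C K) ∧
       (∀ (G : Type) [Group G] [Finite G] (N : Subgroup G), N.Normal → C G → C ↥N) ∧
       (∀ (G : Type) [Group G] [Finite G] (N K : Subgroup G),
          N.Normal → K.Normal → C ↥N → C ↥K → C ↥(N ⊔ K)))) →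
  (∀ (C D : (G : Type) → [Group G] → Prop) (G : Type) [Group G], Prod C D G ↔
      ∀ (N : Subgroup G) [N.Normal],
        (C ↥N ∧ ∀ K : Subgroup G, K.Normal → C ↥K → K ≤ N) → D (G ⧸ N)) →
  (∀ C : (G : Type) → [Group G] → Prop, Loc C ↔
      ∃ f : ℕ → ((G : Type) → [Group G] → Prop), (∀ p, Fit (f p)) ∧
        ∀ (G : Type) [Group G] [Finite G], C G ↔
          ((∀ p : ℕ, p.Prime → p ∣ Nat.card G →
              ∃ (K : Type) (_ : Group K) (_ : Finite K), f p K) ∧
           ∀ p : ℕ, p.Prime → (∃ (K : Type) (_ : Group K) (_ : Finite K), f p K) →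
             Prod (f p)
               (fun (Q : Type) [Group Q] =>
                 ∃ P : Subgroup Q, P.Normal ∧ IsPGroup p ↥P ∧ Nat.Coprime P.index p) G)) →
  ∀ (F M H : (G : Type) → [Group G] → Prop) (G₀ : Type) [Group G₀] [Finite G₀],
    Fit M → Fit H → (∃ (K : Type) (_ : Group K) (_ : Finite K), M K) →
    Loc F → F G₀ →
    (∀ C : (G : Type) → [Group G] → Prop, Loc C → C G₀ →
      ∀ (G : Type) [Group G] [Finite G], F G → C G) →
    (∀ (G : Type) [Group G] [Finite G], F G → IsSolvable G) →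
    (∀ (G : Type) [Group G] [Finite G], F G ↔ Prod M H G) →
    (∃ (G : Type) (_ : Group G) (_ : Finite G), ¬ (M G ↔ F G)) →
    Loc H) := by
  intro h
  open Pool.Agent.H22.Fit in
  have n23 : (3 : ℕ) ≠ 2 := by norm_num
  obtain ⟨f, hf, e⟩ := h H22.Fit.WFit H22.Fit.Prd
    (fun C => ∃ f : ℕ → H22.Fit.Cls, (∀ p, H22.Fit.WFit (f p)) ∧
      ∀ (G : Type) [Group G] [Finite G], C G ↔ H22.Fit.LR f G)
    (fun _ => Iff.rfl) (fun _ _ _ _ => Iff.rfl) (fun _ => Iff.rfl)
    (fun G _ => H22.Fit.PQ 3 2 G) (fun G _ => IsPGroup 3 G)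
    (fun G _ => H22.Fit.PQ 3 2 G ∧ H22.Fit.Zc 3 G) (Equiv.Perm (Fin 3))
    (H22.Fit.wfit_pgrp 3) (H22.Fit.wfit_H Nat.prime_three Nat.prime_two n23)
    ⟨Unit, inferInstance, inferInstance, IsPGroup.of_subsingleton _ _⟩
    ⟨H22.Fit.f0, H22.Fit.f0_fit, H22.Fit.f0_iff⟩ H22.Fit.S3
    (by
      rintro C ⟨f, hf, e⟩ hC G _ _ hG
      exact (e G).2 (H22.Fit.allPQ hf Nat.prime_three Nat.prime_two n23 H22.Fit.S3 ((e _).1 hC)
        (x := Equiv.swap 0 1) (y := finRotate 3) ⟨1, by decide⟩ ⟨1, by decide⟩ (by decide) hG))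
    (fun G _ _ hG => by
      have := Fact.mk Nat.prime_three
      exact hG.solv)
    H22.Fit.prd_iff
    ⟨Equiv.Perm (Fin 3), inferInstance, inferInstance, fun e => by
      have h1 : H22.Fit.pel 3 (Equiv.swap (0 : Fin 3) 1) := e.2 H22.Fit.S3 _
      exact absurd (h1.two Nat.prime_three Nat.prime_two n23 ⟨1, by decide⟩) (by decide)⟩
  exact H22.Fit.S3' ((e _).2 (H22.Fit.allPQ hf Nat.prime_three Nat.prime_two n23 H22.Fit.T.mem.1
    ((e _).1 H22.Fit.T.mem) H22.Fit.T.two (H22.Fit.T.pel 1 0 0) H22.Fit.T.nc H22.Fit.S3)).2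

end Pool.Agent.S01806
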