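import Pool.Statements.S01898
import Pool.Agent.H22.TopLat

set_option autoImplicit false
open Pool Pool.MP_72b122_al

namespace Pool.Agent.S01898

/-- The negation of the preceding statement: Let G be a topological lattice-ordered group with closed normal ℓ-subgroups A, B such that multiplication A×B→G is an ℓ-isomorphism. Then this map is a homeomorphism from the product topology onto G. -/
theorem result :
    ¬ (∀ (G : Type) [Group G] [Lattice G] [MulLeftMono G] [MulRightMono G]
      [TopologicalSpace G] [IsTopologicalGroup G] [TopologicalLattice G]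
      (A B : Subgroup G),
      A.Normal → B.Normal →
      IsClosed (A : Set G) → IsClosed (B : Set G) →
      (∀ x ∈ A, ∀ y ∈ A, x ⊔ y ∈ A ∧ x ⊓ y ∈ A) →
      (∀ x ∈ B, ∀ y ∈ B, x ⊔ y ∈ B ∧ x ⊓ y ∈ B) →
      ∀ φ : (↥A × ↥B) → G, (∀ p, φ p = (p.1 : G) * (p.2 : G)) →
      Function.Bijective φ →
      (∀ p q : ↥A × ↥B, p ≤ q ↔ φ p ≤ φ q) →
      ∃ e : (↥A × ↥B) ≃ₜ G, ∀ p, e p = φ p) := by
  intro H
  refine Pool.Agent.H22.TopLat.no_homeo
    (H Pool.Agent.H22.TopLat.G Pool.Agent.H22.TopLat.A Pool.Agent.H22.TopLat.B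
      inferInstance inferInstance Pool.Agent.H22.TopLat.closed_A Pool.Agent.H22.TopLat.closed_B
      ?_ ?_ Pool.Agent.H22.TopLat.phi (fun _ => rfl) Pool.Agent.H22.TopLat.phi_bij
      Pool.Agent.H22.TopLat.phi_le)
  · intro x hx y hy
    refine ⟨fun n => ?_, fun n => ?_⟩
    · rw [Pool.Agent.H22.TopLat.snd_sup, hx n, hy n, max_self]
    · rw [Pool.Agent.H22.TopLat.snd_inf, hx n, hy n, min_self]
  · intro x hx y hy
    refine ⟨fun n => ?_, fun n => ?_⟩
    · rw [Pool.Agent.H22.TopLat.fst_sup, hx n, hy n, max_self]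
    · rw [Pool.Agent.H22.TopLat.fst_inf, hx n, hy n, min_self]

end Pool.Agent.S01898
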