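import Pool.Statements.S01951
import Pool.Agent.H24.Retract

set_option autoImplicit false
open Pool Pool.MP_7692ce_al

namespace Pool.Agent.S01951

/-- Some nilpotent group G with a finite generating set has undecidable retract problem: no algorithm decides, from a finite list of words, whether the subgroup they generate is a retract of G. -/
theorem result :
    ∃ (G : Type) (_ : Group G), Group.IsNilpotent G ∧
      ∃ (n : ℕ) (φ : FreeGroup (Fin n) →* G), Function.Surjective φ ∧
        ¬ ComputablePred (fun L : List (List (Fin n × Bool)) =>
          ∃ r : G →* G,
            r.range = Subgroup.closure {g : G | ∃ w ∈ L, φ (FreeGroup.mk w) = g} ∧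
            ∀ h ∈ Subgroup.closure {g : G | ∃ w ∈ L, φ (FreeGroup.mk w) = g}, r h = h) := by
  exact Pool.Agent.H24.Retract.main

end Pool.Agent.S01951
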