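import Pool.Statements.S01968

set_option autoImplicit false
open scoped Pointwise
open Pool Pool.MP_77870d_al

namespace Pool.Agent.S01968

open Multiplicative

def Per (N : ℕ) (A : Set (Multiplicative ℤ)) : Prop := ∀ z ∈ A, ∀ c : ℤ, z * ofAdd (c * N) ∈ A

def Sg (A : Set (Multiplicative ℤ)) : Prop := ∃ n : ℕ, A = {ofAdd ((n : ℤ) + 1)}

theorem Per.mul {N : ℕ} {A : Set (Multiplicative ℤ)} (h : Per N A) (B : Set (Multiplicative ℤ)) :
    Per N (B * A) := by
  rintro _ ⟨b, hb, a, ha, rfl⟩ c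
  exact ⟨b, hb, _, h a ha c, (mul_assoc _ _ _).symm⟩

def SN (p : ℕ → Prop) (hp : ∃ N, p N) : Subsemigroup (Set (Multiplicative ℤ)) where
  carrier := {A | Sg A ∨ ∃ N, p N ∧ Per N A}
  mul_mem' := by
    rintro A B (⟨n, rfl⟩ | ⟨N, h, hA⟩) (⟨m, rfl⟩ | ⟨M, h', hB⟩)
    · exact Or.inl ⟨n + m + 1, by
        rw [Set.singleton_mul_singleton, ← ofAdd_add]; push_cast; congr 2; ring⟩
    · exact Or.inr ⟨M, h', hB.mul _⟩
    · exact Or.inr ⟨N, h, mul_comm _ A ▸ hA.mul _⟩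
    · exact Or.inr ⟨M, h', hB.mul _⟩

abbrev S := SN (0 < ·) ⟨1, one_pos⟩

abbrev GN (N : ℕ) := Multiplicative (ℕ →₀ ZMod N)

def A0 (N : ℕ) : Set (GN N) := Set.range fun i => ofAdd (Finsupp.single i 1)

theorem A0_mono (N m c : ℕ) : A0 N ^ m ⊆ A0 N ^ (m + c * N) := by
  intro g hg
  rw [pow_add]
  refine ⟨g, hg, _, Set.pow_mem_pow (n := c * N) ⟨0, rfl⟩, ?_⟩
  simp [← ofAdd_nsmul]

theorem A0_mem {N m : ℕ} {g : GN N} (hg : g ∈ A0 N ^ m) :
    g.toAdd.support.card ≤ m ∧ g.toAdd.sum (fun _ c => c) = m := by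
  induction m generalizing g with
  | zero => obtain rfl : g = 1 := hg; simp
  | succ m ih =>
    rw [pow_succ] at hg
    obtain ⟨g, hg, _, ⟨i, rfl⟩, rfl⟩ := hg
    simp only [toAdd_mul, toAdd_ofAdd]
    refine ⟨(Finset.card_le_card Finsupp.support_add).trans ((Finset.card_union_le _ _).trans
      (add_le_add (ih hg).1 ((Finset.card_le_card Finsupp.support_single_subset).trans
        (by simp)))), ?_⟩
    rw [Finsupp.sum_add_index' (by simp) (by simp), (ih hg).2]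
    simp

theorem A0_ex (N m : ℕ) [Fact (1 < N)] : ∃ g ∈ A0 N ^ m, g.toAdd.support = Finset.range m := by
  induction m with
  | zero => exact ⟨1, rfl, by simp⟩
  | succ m ih =>
    obtain ⟨g, hg, e⟩ := ih
    refine ⟨g * ofAdd (Finsupp.single m 1), pow_succ (A0 N) m ▸ ⟨g, hg, _, ⟨m, rfl⟩, rfl⟩, ?_⟩
    rw [toAdd_mul, toAdd_ofAdd, Finsupp.support_add_eq] <;>
      rw [e, Finsupp.support_single_ne_zero _ one_ne_zero]
    · rw [Finset.range_add_one, Finset.insert_eq, Finset.union_comm]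
    · simp

def φ (N : ℕ) (A : Set (Multiplicative ℤ)) : Set (GN N) :=
  {g | ∃ m : ℕ, ofAdd (m : ℤ) ∈ A ∧ g ∈ A0 N ^ m}

theorem up {N : ℕ} (hN : 0 < N) {A : Set (Multiplicative ℤ)} (hA : Per N A) {z : ℤ}
    (hz : ofAdd z ∈ A) (b : ℕ) : ∃ m c : ℕ, b ≤ m ∧ (m : ℤ) = z + c * N ∧ ofAdd (m : ℤ) ∈ A := by
  have : (b : ℤ) ≤ z + (z.natAbs + b : ℕ) * N := by
    have : -z ≤ z.natAbs := by omega
    push_cast at *
    nlinarith [abs_nonneg z]
  obtain ⟨m, hm⟩ := Int.eq_ofNat_of_zero_le ((Int.natCast_nonneg b).trans this)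
  exact ⟨m, _, by omega, hm.symm, by rw [← hm, ofAdd_add]; exact hA _ hz _⟩

theorem φ_mul {N : ℕ} (hN : 0 < N) {A B : Set (Multiplicative ℤ)} (hA : Sg A ∨ Per N A)
    (hB : Sg B ∨ Per N B) : φ N (A * B) = φ N A * φ N B := by
  have key : ∀ {A : Set (Multiplicative ℤ)}, Sg A ∨ Per N A → ∀ z, ofAdd z ∈ A →
      ∃ m c : ℕ, (m : ℤ) = z + c * N ∧ ofAdd (m : ℤ) ∈ A := by
    rintro A (⟨n, rfl⟩ | hA) z hz
    · exact ⟨n + 1, 0, by simpa using (ofAdd.injective hz).symm, rfl⟩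
    · obtain ⟨m, c, -, h⟩ := up hN hA hz 0
      exact ⟨m, c, h⟩
  ext g
  constructor
  · rintro ⟨m, ⟨a, ha, b, hb, e⟩, hg⟩
    obtain ⟨i, c, h1, h2⟩ := key hA a.toAdd ha
    obtain ⟨j, d, h3, h4⟩ := key hB b.toAdd hb
    have e1 : a.toAdd + b.toAdd = m := congrArg toAdd e
    have := A0_mono N m (c + d) hg
    rw [show m + (c + d) * N = i + j by zify; linarith, pow_add] at this
    obtain ⟨u, hu, v, hv, rfl⟩ := this
    exact ⟨u, ⟨i, h2, hu⟩, v, ⟨j, h4, hv⟩, rfl⟩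
  · rintro ⟨u, ⟨i, h2, hu⟩, v, ⟨j, h4, hv⟩, rfl⟩
    exact ⟨i + j, ⟨_, h2, _, h4, by simp [ofAdd_add]⟩, pow_add (A0 N) i j ▸ ⟨u, hu, v, hv, rfl⟩⟩

theorem φ_le {N : ℕ} [h : Fact (1 < N)] {A B : Set (Multiplicative ℤ)} (hA : Sg A ∨ Per N A)
    (hB : Sg B ∨ Per N B) (e : φ N A = φ N B) : A ⊆ B := by
  have hN : 0 < N := one_pos.trans h.out
  have k1 : ∀ {A B : Set (Multiplicative ℤ)}, φ N A = φ N B → ∀ m : ℕ, ofAdd (m : ℤ) ∈ A →
      ∃ m' : ℕ, m ≤ m' ∧ (m : ZMod N) = m' ∧ ofAdd (m' : ℤ) ∈ B := by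
    intro A B e m hm
    obtain ⟨g, hg, e1⟩ := A0_ex N m
    obtain ⟨m', h1, h2⟩ := e.le ⟨m, hm, hg⟩
    exact ⟨m', by simpa [e1] using (A0_mem h2).1, (A0_mem hg).2.symm.trans (A0_mem h2).2, h1⟩
  have k2 : ∀ {A : Set (Multiplicative ℤ)} (n : ℕ), Per N A →
      φ N A = φ N {ofAdd ((n : ℤ) + 1)} → False := by
    intro A n hA e
    obtain ⟨m, -, -, h⟩ := k1 e.symm (n + 1) rfl
    obtain ⟨m', c, h1, -, h2⟩ := up hN hA h (n + 2)
    obtain ⟨m'', h3, -, h4⟩ := k1 e m' h2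
    have := ofAdd.injective h4
    omega
  rcases hA with ⟨n, rfl⟩ | hA <;> rcases hB with ⟨n', rfl⟩ | hB
  · obtain ⟨m, h1, -, h2⟩ := k1 e (n + 1) rfl
    obtain ⟨m', h3, -, h4⟩ := k1 e.symm (n' + 1) rfl
    have := ofAdd.injective h2
    have := ofAdd.injective h4
    obtain rfl : n = n' := by omega
    rfl
  · exact (k2 n hB e.symm).elim
  · exact (k2 n' hA e).elim
  · intro z hz
    obtain ⟨m, c, -, h1, h2⟩ := up hN hA (z := z.toAdd) hz 0
    obtain ⟨m', -, h3, h4⟩ := k1 e m h2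
    obtain ⟨d, hd⟩ := (ZMod.natCast_eq_natCast_iff _ _ _).1 h3 |>.dvd
    have := hB _ h4 (-d - c)
    rwa [← ofAdd_add, show (m' : ℤ) + (-d - c) * N = z.toAdd by linarith] at this

/-- The negation of the preceding statement: For every semigroup S: if each finitely generated subsemigroup of S embeds into the semigroup of all subsets of some torsion group, then S itself embeds into the semigroup of all subsets of some torsion group. -/
theorem result :
    ¬ (∀ (S : Type) [Semigroup S],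
      (∀ T : Subsemigroup S, (∃ F : Finset S, Subsemigroup.closure (F : Set S) = T) →
        ∃ (G : Type) (_ : Group G), Monoid.IsTorsion G ∧
          ∃ f : T →ₙ* Set G, Function.Injective f) →
      ∃ (G : Type) (_ : Group G), Monoid.IsTorsion G ∧
        ∃ f : S →ₙ* Set G, Function.Injective f) := by
  intro h
  obtain ⟨G, _, hG, f, hf⟩ := h S (by
    rintro _ ⟨F, rfl⟩
    obtain ⟨N, hN, hF⟩ : ∃ N, 1 < N ∧ ∀ A ∈ F, Sg A.1 ∨ Per N A.1 := by
      classical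
      induction F using Finset.induction_on with
      | empty => exact ⟨2, by simp⟩
      | insert A F _ ih =>
        obtain ⟨N, hN, h⟩ := ih
        rcases A.2 with hA | ⟨M, hM, hA⟩
        · exact ⟨N, hN, by simpa [hA] using h⟩
        · refine ⟨M * N, by nlinarith, Finset.forall_mem_insert .. |>.2
            ⟨Or.inr fun z hz c => ?_, fun B hB => (h B hB).imp_right fun hB z hz c => ?_⟩⟩
          · convert hA z hz (c * N) using 3; push_cast; ring
          · convert hB z hz (c * M) using 3; push_cast; ring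
    have := Fact.mk hN
    have key : ∀ A : Subsemigroup.closure (F : Set S), Sg A.1.1 ∨ Per N A.1.1 := fun A => by
      have : A.1 ∈ (SN (· = N) ⟨N, rfl⟩).comap (MulMemClass.subtype S) :=
        Subsemigroup.closure_le.2 (fun B hB => (hF B hB).imp_right fun h => ⟨N, rfl, h⟩) A.2
      exact this.imp_right (by rintro ⟨_, rfl, h⟩; exact h)
    refine ⟨GN N, inferInstance, fun g => isOfFinOrder_iff_pow_eq_one.2 ⟨N, by omega, ?_⟩,
      ⟨fun A => φ N A.1.1, fun A B => φ_mul (by omega) (key A) (key B)⟩, fun A B e =>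
        Subtype.ext (Subtype.ext ((φ_le (key A) (key B) e).antisymm
          (φ_le (key B) (key A) e.symm)))⟩
    apply toAdd.injective
    ext
    simp)
  let a : ℕ → S := fun n => ⟨_, Or.inl ⟨n, rfl⟩⟩
  have ha : ∀ n, a (n + 1) = a n * a 0 := fun n => Subtype.ext (by
    simp [a, ← ofAdd_add])
  obtain ⟨g, hg⟩ : (f (a 0)).Nonempty := by
    by_contra h
    rw [Set.not_nonempty_iff_eq_empty] at h
    have : a 1 = a 0 := hf (by rw [ha, map_mul, h, Set.mul_empty])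
    simpa [a] using congrArg Subtype.val this
  have hn : ∀ n, g ^ (n + 1) ∈ f (a n) := by
    intro n
    induction n with
    | zero => simpa using hg
    | succ n ih => rw [ha, map_mul, pow_succ]; exact ⟨_, ih, _, hg, rfl⟩
  obtain ⟨n, h0, h1⟩ := isOfFinOrder_iff_pow_eq_one.1 (hG g)
  obtain ⟨n, rfl⟩ := Nat.exists_eq_succ_of_ne_zero h0.ne'
  have h2 : ∀ x, f x ⊆ f (x * a n) := fun x u hu => by
    rw [map_mul]; exact ⟨u, hu, 1, h1 ▸ hn n, mul_one u⟩
  let x : S := ⟨{z | 2 * ((n : ℤ) + 1) ∣ z.toAdd}, Or.inr ⟨2 * (n + 1), by omega,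
    fun z hz c => dvd_add hz (by simp)⟩⟩
  have h3 : x * a n * a n = x := Subtype.ext (by
    ext z
    simp only [x, a, MulMemClass.coe_mul, Set.mul_singleton, Set.image_mul_right, Set.mem_preimage,
      Set.mem_ofPred_eq, toAdd_mul, toAdd_inv, toAdd_ofAdd]
    rw [add_assoc, ← two_mul, mul_neg, ← sub_eq_add_neg, dvd_sub_self_right])
  have h4 : x = x * a n := hf ((h2 x).antisymm (h3 ▸ h2 (x * a n) :))
  have h5 : (1 : Multiplicative ℤ) ∈ (x * a n).1 := h4 ▸ (dvd_zero _ : 1 ∈ x.1)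
  obtain ⟨z, hz, _, rfl, e⟩ := h5
  have e1 : z.toAdd + (n + 1) = 0 := congrArg toAdd e
  obtain ⟨c, hc⟩ := hz
  have : ((n : ℤ) + 1) * (2 * c + 1) = 0 := by linarith
  rcases mul_eq_zero.1 this with h | h <;> omega

end Pool.Agent.S01968
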