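import Pool.Statements.S01974
import Pool.Agent.H2.QT4

set_option autoImplicit false
open Pool Pool.MP_77f213_al

namespace Pool.Agent.S01974

/-- The negation of the preceding statement: Whenever a group acts geometrically on two nonempty proper geodesic Gromov-hyperbolic spaces, among all (L,c)-quasi-isometries between them (L ≥ 1, not necessarily equivariant) some map attains the least possible multiplicative constant L. -/
theorem result :
    ¬ (∀ (G X₀ X₁ : Type) [Group G] [MetricSpace X₀] [MetricSpace X₁]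
      [ProperSpace X₀] [ProperSpace X₁] [Nonempty X₀] [Nonempty X₁]
      [MulAction G X₀] [MulAction G X₁] [IsIsometricSMul G X₀] [IsIsometricSMul G X₁]
      [ProperlyDiscontinuousSMul G X₀] [ProperlyDiscontinuousSMul G X₁],
      (∀ x y : X₀, ∃ γ : ℝ → X₀, γ 0 = x ∧ γ (dist x y) = y ∧
        ∀ s ∈ Set.Icc (0:ℝ) (dist x y), ∀ t ∈ Set.Icc (0:ℝ) (dist x y),
          dist (γ s) (γ t) = |s - t|) →
      (∀ x y : X₁, ∃ γ : ℝ → X₁, γ 0 = x ∧ γ (dist x y) = y ∧
        ∀ s ∈ Set.Icc (0:ℝ) (dist x y), ∀ t ∈ Set.Icc (0:ℝ) (dist x y),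
          dist (γ s) (γ t) = |s - t|) →
      (∃ K : Set X₀, IsCompact K ∧ ∀ x : X₀, ∃ g : G, g • x ∈ K) →
      (∃ K : Set X₁, IsCompact K ∧ ∀ x : X₁, ∃ g : G, g • x ∈ K) →
      (∃ δ : ℝ, ∀ x y z w : X₀,
        min ((dist x w + dist y w - dist x y) / 2) ((dist y w + dist z w - dist y z) / 2) - δ
          ≤ (dist x w + dist z w - dist x z) / 2) →
      (∃ δ : ℝ, ∀ x y z w : X₁,
        min ((dist x w + dist y w - dist x y) / 2) ((dist y w + dist z w - dist y z) / 2) - δ
          ≤ (dist x w + dist z w - dist x z) / 2) →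
      ∃ L : ℝ, 1 ≤ L ∧
        (∃ f : X₀ → X₁, ∃ c : ℝ,
          (∀ x y : X₀, dist x y / L - c ≤ dist (f x) (f y) ∧
              dist (f x) (f y) ≤ L * dist x y + c) ∧
          ∀ z : X₁, ∃ x : X₀, dist (f x) z ≤ c) ∧
        ∀ L' : ℝ, 1 ≤ L' →
          (∃ f : X₀ → X₁, ∃ c : ℝ,
            (∀ x y : X₀, dist x y / L' - c ≤ dist (f x) (f y) ∧
                dist (f x) (f y) ≤ L' * dist x y + c) ∧
            ∀ z : X₁, ∃ x : X₀, dist (f x) z ≤ c) →
          L ≤ L') := by
  intro h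
  obtain ⟨L, h1, ⟨f, c, hf, -⟩, h3⟩ := h H2.QT.G (H2.QT.T H2.QT.W0) (H2.QT.T H2.QT.W1)
    (H2.QT.geo_all _) (H2.QT.geo_all _) (H2.QT.cocompact _) (H2.QT.cocompact _)
    (H2.QT.hyperbolic _) (H2.QT.hyperbolic _)
  rcases h1.eq_or_lt with e | e
  · subst e
    exact H2.QT.no_rough f c fun x y => by simpa using hf x y
  · have := h3 ((1 + L) / 2) (by linarith)
      (H2.QT.exists_qi H2.QT.ent0 H2.QT.ent1 (by linarith))
    linarith

end Pool.Agent.S01974
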