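import Pool.Statements.S01976

set_option autoImplicit false
open Pool Pool.MP_783016_al

namespace Pool.Agent.S01976

open MvPolynomial

abbrev AA := MvPolynomial (Fin 2) (ZMod 2)

def SS (n : ℕ) : Set (Fin 2 →₀ ℕ) := {d | n ≤ d 0 / 3 + d 1 / 3}

noncomputable def KK (n : ℕ) : Ideal AA :=
  Ideal.span ((fun s => monomial s (1 : ZMod 2)) '' SS n)

lemma mem_KK {n : ℕ} {g : AA} : g ∈ KK n ↔ ∀ d ∈ g.support, n ≤ d 0 / 3 + d 1 / 3 := by
  unfold KK
  rw [mem_ideal_span_monomial_image]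
  refine forall₂_congr fun d _ => ⟨?_, fun h => ⟨d, h, le_rfl⟩⟩
  rintro ⟨s, hs, hsd⟩
  have h0 : s 0 ≤ d 0 := hsd 0
  have h1 : s 1 ≤ d 1 := hsd 1
  have : n ≤ s 0 / 3 + s 1 / 3 := hs
  omega

lemma mono_mem {n : ℕ} {d : Fin 2 →₀ ℕ} (h : n ≤ d 0 / 3 + d 1 / 3) :
    (monomial d (1 : ZMod 2) : AA) ∈ KK n :=
  Ideal.subset_span ⟨d, h, rfl⟩

lemma KK_mul (n : ℕ) : KK n * KK 1 = KK (n + 1) := by
  apply le_antisymm
  · conv_lhs => unfold KK
    rw [Ideal.span_mul_span', Ideal.span_le]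
    rintro _ ⟨_, ⟨a, ha, rfl⟩, _, ⟨b, hb, rfl⟩, rfl⟩
    simp only [monomial_mul, mul_one, SetLike.mem_coe]
    apply mono_mem
    have h1 : n ≤ a 0 / 3 + a 1 / 3 := ha
    have h2 : 1 ≤ b 0 / 3 + b 1 / 3 := hb
    simp only [Finsupp.add_apply]
    omega
  · conv_lhs => unfold KK
    rw [Ideal.span_le]
    rintro _ ⟨d, hd, rfl⟩
    have h1 : n + 1 ≤ d 0 / 3 + d 1 / 3 := hd
    simp only [SetLike.mem_coe]
    by_cases h : 3 ≤ d 0
    · have e : d = (d - Finsupp.single 0 3) + Finsupp.single 0 3 := by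
        ext i; fin_cases i <;> simp; omega
      rw [e, ← mul_one (1 : ZMod 2), ← monomial_mul]
      refine Ideal.mul_mem_mul (mono_mem ?_) (mono_mem ?_)
      · simp; omega
      · simp
    · have e : d = (d - Finsupp.single 1 3) + Finsupp.single 1 3 := by
        ext i; fin_cases i <;> simp; omega
      rw [e, ← mul_one (1 : ZMod 2), ← monomial_mul]
      refine Ideal.mul_mem_mul (mono_mem ?_) (mono_mem ?_)
      · simp; omega
      · simp

lemma KK_pow (n : ℕ) : KK 1 ^ n = KK n := by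
  induction n with
  | zero =>
    rw [pow_zero, Ideal.one_eq_top, eq_comm, Ideal.eq_top_iff_one, mem_KK]
    intros; omega
  | succ n ih => rw [pow_succ, ih, KK_mul]

noncomputable def JJ : Ideal AA := Ideal.span {X 0 + X 1}

def VV (m : ℕ) : Set ℕ := {n | ∀ i ≤ m, Odd (m.choose i) → n ≤ i / 3 + (m - i) / 3}

lemma VV_eq (m : ℕ) : {n : ℕ | JJ ^ m ≤ KK 1 ^ n} = VV m := by
  ext n
  simp only [JJ, KK_pow, Ideal.span_singleton_pow, Ideal.span_singleton_le_iff_mem, mem_KK,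
    Set.mem_ofPred_eq, VV, mem_support_iff, coeff_add_pow]
  constructor
  · intro h i hi ho
    have := h (Finsupp.single 0 i + Finsupp.single 1 (m - i)) (by
      simp only [Finsupp.add_apply]
      simp only [Finsupp.single_eq_same, Finsupp.single_apply]
      simp only [Fin.zero_eq_one_iff, Fin.one_eq_zero_iff]
      norm_num
      refine ⟨by omega, ?_⟩
      rw [ZMod.natCast_eq_zero_iff_even, Nat.not_even_iff_odd]
      exact ho)
    simpa using this
  · intro h d hd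
    split_ifs at hd with h1
    · have h1 : d 0 + d 1 = m := by simpa using h1
      have := h (d 0) (by omega) (by
        rw [← Nat.not_even_iff_odd, ← ZMod.natCast_eq_zero_iff_even]; exact hd)
      have e : m - d 0 = d 1 := by omega
      rwa [e] at this
    · exact absurd rfl hd

lemma VV_le {m n : ℕ} (h : n ∈ VV m) : n ≤ m / 3 := by
  simpa using h 0 (Nat.zero_le _) (by simp)

lemma VV_bdd (m : ℕ) : BddAbove (VV m) := ⟨m / 3, fun _ h => VV_le h⟩

lemma VV_low (m : ℕ) : m / 3 - 1 ∈ VV m := by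
  intro i hi _
  omega

lemma v_le (m : ℕ) : sSup (VV m) ≤ m / 3 :=
  VV_le (Nat.sSup_mem ⟨_, VV_low m⟩ (VV_bdd m))

lemma v_ge (m : ℕ) : m / 3 - 1 ≤ sSup (VV m) := le_csSup (VV_bdd m) (VV_low m)

lemma v_pow (a : ℕ) : sSup (VV (2 ^ a)) = 2 ^ a / 3 := by
  apply le_antisymm (v_le _)
  apply le_csSup (VV_bdd _)
  intro i hi ho
  by_cases h0 : i = 0
  · simp [h0]
  by_cases h1 : i = 2 ^ a
  · simp [h1]
  exact absurd (even_iff_two_dvd.mpr (Nat.prime_two.dvd_choose_pow h0 h1))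
    (Nat.not_even_iff_odd.mpr ho)

lemma choose_odd (r j u : ℕ) (hr : r < 2 ^ j) (hu : Odd u) :
    Odd ((r + 2 ^ j * u).choose (2 ^ j)) := by
  have : Fact (Nat.Prime 2) := ⟨Nat.prime_two⟩
  have h := Choose.choose_modEq_choose_mul_prod_range_choose (p := 2) (n := r + 2 ^ j * u)
    (k := 2 ^ j) j
  have e1 : (r + 2 ^ j * u) / 2 ^ j = u := by
    rw [Nat.add_mul_div_left _ _ (by positivity), Nat.div_eq_of_lt hr, zero_add]
  have e2 : 2 ^ j / 2 ^ j = 1 := Nat.div_self (by positivity)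
  have e3 : ∏ i ∈ Finset.range j, ((r + 2 ^ j * u) / 2 ^ i % 2).choose (2 ^ j / 2 ^ i % 2) = 1 := by
    apply Finset.prod_eq_one
    intro i hi
    rw [Finset.mem_range] at hi
    have : 2 ^ j / 2 ^ i % 2 = 0 := by
      rw [Nat.pow_div hi.le (by norm_num)]
      obtain ⟨c, hc⟩ : ∃ c, j - i = c + 1 := ⟨j - i - 1, by omega⟩
      rw [hc, pow_succ]; simp
    rw [this, Nat.choose_zero_right]
  rw [e1, e2, e3, Nat.choose_one_right] at h
  unfold Int.ModEq at h
  rw [Nat.odd_iff] at hu ⊢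
  push_cast at h
  omega

lemma two_pow_mod (k : ℕ) : 2 ^ (2 * k) % 3 = 1 := by
  rw [pow_mul]; simp [Nat.pow_mod]

lemma v_bad (a j u : ℕ) (h : a ≤ j) (hu : Odd u) (h3 : 3 ∣ u) :
    sSup (VV (2 ^ (2 * a) + 2 ^ (2 * j + 1) * u)) + 1 ≤ (2 ^ (2 * a) + 2 ^ (2 * j + 1) * u) / 3 := by
  have hm := Nat.sSup_mem ⟨_, VV_low (2 ^ (2 * a) + 2 ^ (2 * j + 1) * u)⟩ (VV_bdd _)
  have hupos : 1 ≤ u := hu.pos
  have hle : 2 ^ (2 * j + 1) ≤ 2 ^ (2 * j + 1) * u := Nat.le_mul_of_pos_right _ hupos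
  have := hm (2 ^ (2 * j + 1)) (hle.trans (Nat.le_add_left _ _))
    (choose_odd _ _ _ (Nat.pow_lt_pow_right (by norm_num) (by omega)) hu)
  have h1 := two_pow_mod a
  have h2 : 2 ^ (2 * j + 1) % 3 = 2 := by
    have := two_pow_mod j
    rw [pow_succ]; omega
  have h4 : 3 ∣ 2 ^ (2 * j + 1) * u := Dvd.dvd.mul_left h3 _
  generalize 2 ^ (2 * j + 1) * u = x at *
  generalize 2 ^ (2 * j + 1) = y at *
  generalize 2 ^ (2 * a) = z at *
  omega


/-- The negation of the preceding statement: Let A be Noetherian, J ⊆ rad I, I not nilpotent, ⋂ Iⁿ = 0, J not nilpotent, and v(m) the largest n with Jᵐ ⊆ Iⁿ. Then some t > 0 satisfies v(m+1+t) − v(m+t) = v(m+1) − v(m) for all large m. -/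
theorem result :
    ¬ (∀ (A : Type) [CommRing A] [IsNoetherianRing A] (I J : Ideal A),
      J ≤ I.radical → (∀ n : ℕ, I ^ n ≠ ⊥) → (⨅ n : ℕ, I ^ n) = ⊥ →
      (∀ m : ℕ, J ^ m ≠ ⊥) →
      ∃ t : ℕ, 0 < t ∧ ∃ M : ℕ, ∀ m : ℕ, M ≤ m →
        ((sSup {n : ℕ | J ^ (m + 1 + t) ≤ I ^ n} : ℕ) : ℤ)
            - ((sSup {n : ℕ | J ^ (m + t) ≤ I ^ n} : ℕ) : ℤ)
          = ((sSup {n : ℕ | J ^ (m + 1) ≤ I ^ n} : ℕ) : ℤ)
            - ((sSup {n : ℕ | J ^ m ≤ I ^ n} : ℕ) : ℤ)) := by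
  intro H
  have hX : ∀ i : Fin 2, (X i : AA) ∈ (KK 1).radical := fun i => ⟨3, by
    rw [X_pow_eq_monomial]
    apply mono_mem
    fin_cases i <;> simp⟩
  obtain ⟨t, ht, M, hM⟩ := H AA (KK 1) JJ
    (by rw [JJ, Ideal.span_singleton_le_iff_mem]; exact Ideal.add_mem _ (hX 0) (hX 1))
    (fun n hn => by
      have : (monomial (Finsupp.single 0 (3 * n)) (1 : ZMod 2) : AA) ∈ KK n := mono_mem (by simp)
      rw [KK_pow] at hn
      rw [hn] at this
      simp at this)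
    (by
      rw [eq_bot_iff]
      intro g hg
      rw [Ideal.mem_iInf] at hg
      rw [Ideal.mem_bot, ← support_eq_empty, Finset.eq_empty_iff_forall_notMem]
      intro d hd
      have := hg (d 0 / 3 + d 1 / 3 + 1)
      rw [KK_pow, mem_KK] at this
      have := this d hd
      omega)
    (fun m hm => by
      rw [JJ, Ideal.span_singleton_pow, Ideal.span_singleton_eq_bot] at hm
      have := congrArg (coeff (Finsupp.single 1 m)) hm
      rw [coeff_add_pow] at this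
      simp at this)
  simp only [VV_eq] at hM
  set v : ℕ → ℤ := fun m => ((sSup (VV m) : ℕ) : ℤ) with hv
  have hM' : ∀ m, M ≤ m → v (m + 1 + t) - v (m + t) = v (m + 1) - v m := hM
  have hc : ∀ m, M ≤ m → v (m + t) - v m = v (M + t) - v M := by
    intro m hm
    induction m, hm using Nat.le_induction with
    | base => rfl
    | succ m hm ih => have := hM' m hm; linarith
  have hk : ∀ m, M ≤ m → ∀ k : ℕ, v (m + k * t) = v m + k * (v (M + t) - v M) := by
    intro m hm k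
    induction k with
    | zero => simp
    | succ k ih =>
      have := hc (m + k * t) (by omega)
      have e : m + (k + 1) * t = m + k * t + t := by ring
      rw [e]; push_cast; linarith
  have hb : ∀ m : ℕ, (m : ℤ) - 5 ≤ 3 * v m ∧ 3 * v m ≤ m := fun m => by
    have h1 := v_le m
    have h2 := v_ge m
    simp only [hv]
    omega
  have h3 : 3 * (v (M + t) - v M) = t := by
    have h1 := hk M le_rfl 6
    have h2 := hb M
    have h4 := hb (M + 6 * t)
    push_cast at h1 h4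
    omega
  obtain ⟨e, u, hu, hte⟩ := Nat.exists_eq_two_pow_mul_odd (n := t) ht.ne'
  have hbad := v_bad M (M + e) (3 * u) (by omega) (Odd.mul (by decide) hu) ⟨u, rfl⟩
  have hMle : M ≤ 2 ^ (2 * M) := by
    have := Nat.lt_two_pow_self (n := 2 * M); omega
  have h5 := hk (2 ^ (2 * M)) hMle (3 * 2 ^ (2 * M + e + 1))
  have e1 : 2 ^ (2 * M) + 3 * 2 ^ (2 * M + e + 1) * t
      = 2 ^ (2 * M) + 2 ^ (2 * (M + e) + 1) * (3 * u) := by rw [hte]; ring
  have e2 : (2 ^ (2 * M) + 2 ^ (2 * (M + e) + 1) * (3 * u)) / 3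
      = 2 ^ (2 * M) / 3 + 2 ^ (2 * M + e + 1) * t := by
    rw [← e1, mul_assoc, Nat.add_mul_div_left _ _ (by norm_num)]
  rw [e1] at h5
  rw [e2] at hbad
  have h6 : v (2 ^ (2 * M)) = ((2 ^ (2 * M) / 3 : ℕ) : ℤ) := by simp only [hv]; rw [v_pow]
  have h7 : ((3 * 2 ^ (2 * M + e + 1) : ℕ) : ℤ) * (v (M + t) - v M)
      = ((2 ^ (2 * M + e + 1) * t : ℕ) : ℤ) := by
    push_cast; rw [← h3]; ring
  rw [h6, h7] at h5
  simp only [hv] at h5
  omega

end Pool.Agent.S01976
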