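import Pool.Statements.S01978
import Pool.Agent.H20.FitD

set_option autoImplicit false
open Pool Pool.MP_783189_al

namespace Pool.Agent.S01978

theorem result :
    ¬ (∀ (G : Type) [Group G],
    (∃ (n : ℕ) (s : Fin (n + 1) → Subgroup G), s 0 = ⊥ ∧ s (Fin.last n) = ⊤ ∧
      ∀ i : Fin n, s i.castSucc ≤ s i.succ ∧
        ((s i.castSucc).subgroupOf (s i.succ)).Normal ∧
        (s i.castSucc).subgroupOf (s i.succ) ≠ ⊤ ∧
        ∀ M : Subgroup ↥(s i.succ), M.Normal →
          (s i.castSucc).subgroupOf (s i.succ) ≤ M →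
            M = (s i.castSucc).subgroupOf (s i.succ) ∨ M = ⊤) →
    Set.Finite {F : (H : Type) → Group H → Prop |
      ((∀ (H K : Type) (iH : Group H) (iK : Group K), Nonempty (H ≃* K) → F H iH → F K iK) ∧
       (∀ (H : Type) (iH : Group H) (N : Subgroup H), N.Normal → F H iH →
          F (↥N) inferInstance) ∧
       (∀ (H : Type) (iH : Group H) (N M : Subgroup H), N.Normal → M.Normal →
          F (↥N) inferInstance → F (↥M) inferInstance → F (↥(N ⊔ M)) inferInstance)) ∧
      ∀ (K : Type) (iK : Group K), F K iK →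
        ∀ E : (H : Type) → Group H → Prop,
          ((∀ (H K : Type) (iH : Group H) (iK : Group K), Nonempty (H ≃* K) → E H iH → E K iK) ∧
           (∀ (H : Type) (iH : Group H) (N : Subgroup H), N.Normal → E H iH →
              E (↥N) inferInstance) ∧
           (∀ (H : Type) (iH : Group H) (N M : Subgroup H), N.Normal → M.Normal →
              E (↥N) inferInstance → E (↥M) inferInstance → E (↥(N ⊔ M)) inferInstance)) →
          E G inferInstance → E K iK}) := by
  classical
  intro hall
  obtain ⟨Y, B, hB, hlt⟩ := H20.FitD.exY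
  haveI : Infinite Y := Cardinal.aleph0_le_mk_iff.1 ((hB 0).trans (Cardinal.mk_set_le _))
  have hfin := hall (H20.FitC.G (H20.FitD.al Y)) (H20.FitC.series H20.FitD.al_sq H20.FitD.al_not)
  refine Set.infinite_of_injective_forall_mem
    (f := fun (n : ℕ) (K : Type) (iK : Group K) =>
      H20.FitA.W (H20.FitB.A (Y × Bool × Bool)) (Cardinal.mk (B n)) K iK ∧
      ∀ E : (H : Type) → Group H → Prop,
          ((∀ (H K : Type) (iH : Group H) (iK : Group K), Nonempty (H ≃* K) → E H iH → E K iK) ∧
           (∀ (H : Type) (iH : Group H) (N : Subgroup H), N.Normal → E H iH →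
              E (↥N) inferInstance) ∧
           (∀ (H : Type) (iH : Group H) (N M : Subgroup H), N.Normal → M.Normal →
              E (↥N) inferInstance → E (↥M) inferInstance → E (↥(N ⊔ M)) inferInstance)) →
          E (H20.FitC.G (H20.FitD.al Y)) inferInstance → E K iK) ?_ ?_ hfin
  · apply Function.Injective.of_lt_imp_ne
    intro n m hnm he
    have h1 := congrFun (congrFun he (H20.FitC.G (H20.FitD.ga (B m)))) inferInstance
    have h2 := h1.mpr ⟨H20.FitC.W_G (H20.FitD.ga_sq _) (hB m) (H20.FitD.ga_supp _ (hB m)).le,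
      fun E hE hG => H20.FitC.fit_step E hE.1 hE.2.1 hE.2.2 _ _ (H20.FitD.al_comm _) hG⟩
    exact H20.FitC.not_W_G (hB n) (by rw [H20.FitD.ga_supp _ (hB m)]; exact hlt n m hnm) h2.1
  · intro n
    refine ⟨⟨?_, ?_, ?_⟩, fun K iK h => h.2⟩
    · intro H K iH iK he h
      exact ⟨H20.FitA.W_iso H K iH iK he h.1, fun E hE hG => hE.1 H K iH iK he (h.2 E hE hG)⟩
    · intro H iH N hN h
      exact ⟨H20.FitA.W_normal H iH N hN h.1, fun E hE hG => hE.2.1 H iH N hN (h.2 E hE hG)⟩
    · intro H iH N M hN hM h1 h2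
      exact ⟨H20.FitA.W_sup H20.FitB.A_perfect (hB n) H iH N M hN hM h1.1 h2.1,
        fun E hE hG => hE.2.2 H iH N M hN hM (h1.2 E hE hG) (h2.2 E hE hG)⟩

end Pool.Agent.S01978
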