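import Pool.Statements.S02007
import Pool.Agent.H19.ParaSol

set_option autoImplicit false
open Pool Pool.MP_79c14d_al

namespace Pool.Agent.S02007
open Pool.Agent.H19.ParaSol in
theorem solv (j : ℕ) : Group.IsSolvable (Q j) := ⟨⟨j, der_Q j⟩⟩

/-- There exist a free group F of finite rank, a residually soluble non-free group Γ, and a homomorphism ψ from F to Γ inducing a bijection F/D^j(F) → Γ/D^j(Γ) for every j ≥ 1, where D^j is the j-th derived subgroup. -/
theorem result :
    ∃ (n : ℕ) (Γ : Type) (_ : Group Γ) (ψ : FreeGroup (Fin n) →* Γ),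
      (∀ g : Γ, g ≠ 1 →
        ∃ (S : Type) (_ : Group S) (_ : IsSolvable S) (f : Γ →* S), f g ≠ 1) ∧
      ¬ IsFreeGroup Γ ∧
      ∀ j : ℕ, 1 ≤ j →
        (derivedSeries Γ j).comap ψ = derivedSeries (FreeGroup (Fin n)) j ∧
        ∀ γ : Γ, ∃ x : FreeGroup (Fin n), (ψ x)⁻¹ * γ ∈ derivedSeries Γ j := by
  open Pool.Agent.H19.ParaSol in
  refine ⟨2, Gam, inferInstance, psi, fun g hg => ?_, fun h => uncountable (countable_of_free h),
    fun j _ => ⟨comap_eq j, surj j⟩⟩
  obtain ⟨j, hj⟩ := Pool.Agent.H19.ParaSol.res g hg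
  exact ⟨_, inferInstance, solv j, Pool.Agent.H19.ParaSol.co j, hj⟩

end Pool.Agent.S02007
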