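import Pool.Statements.S02025
import Pool.Agent.H22.Noeth

set_option autoImplicit false
open Pool Pool.MP_7ab5f9_al

namespace Pool.Agent.S02025

/-- For every finite group G, every nonempty formation of finite groups contained in the formation generated by G is itself generated by a single finite group K, i.e. on finite groups it equals the smallest formation containing K. -/
theorem result :
    ∀ (G : Type) [Group G] [Finite G] (F : ∀ (X : Type), [Group X] → Prop),
      (∀ (X Y : Type) [Group X] [Group Y] [Finite X], F X →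
          ∀ f : X →* Y, Function.Surjective f → F Y) →
      (∀ (X : Type) [Group X] [Finite X] (N₁ N₂ : Subgroup X) [N₁.Normal] [N₂.Normal],
          F (X ⧸ N₁) → F (X ⧸ N₂) → F (X ⧸ (N₁ ⊓ N₂))) →
      (∃ (X : Type) (inst : Group X), Finite X ∧ @F X inst) →
      (∀ (H : Type) [Group H] [Finite H], F H →
        ∀ (E : ∀ (X : Type), [Group X] → Prop),
          (∀ (X Y : Type) [Group X] [Group Y] [Finite X], E X →
              ∀ f : X →* Y, Function.Surjective f → E Y) →
          (∀ (X : Type) [Group X] [Finite X] (N₁ N₂ : Subgroup X) [N₁.Normal] [N₂.Normal],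
              E (X ⧸ N₁) → E (X ⧸ N₂) → E (X ⧸ (N₁ ⊓ N₂))) →
          E G → E H) →
      ∃ (K : Type) (instK : Group K), Finite K ∧
        ∀ (H : Type) [Group H] [Finite H],
          (F H ↔
            ∀ (E : ∀ (X : Type), [Group X] → Prop),
              (∀ (X Y : Type) [Group X] [Group Y] [Finite X], E X →
                  ∀ f : X →* Y, Function.Surjective f → E Y) →
              (∀ (X : Type) [Group X] [Finite X] (N₁ N₂ : Subgroup X) [N₁.Normal] [N₂.Normal],
                  E (X ⧸ N₁) → E (X ⧸ N₂) → E (X ⧸ (N₁ ⊓ N₂))) →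
              @E K instK → E H) := by
  intro G _ _ F a b ⟨X, _, _, c⟩ d
  have k : ∀ E : H22.FormLat.Cls, (∀ (X Y : Type) [Group X] [Group Y] [Finite X], E X →
        ∀ f : X →* Y, Function.Surjective f → E Y) →
      (∀ (X : Type) [Group X] [Finite X] (N₁ N₂ : Subgroup X) [N₁.Normal] [N₂.Normal],
        E (X ⧸ N₁) → E (X ⧸ N₂) → E (X ⧸ (N₁ ⊓ N₂))) →
      H22.FormLat.IsForm fun H _ => Finite H ∧ E H := fun E a b =>
    H22.GLS.mk_form (fun _ _ h => h.1) (fun G H _ _ f hf ⟨_, h⟩ =>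
      ⟨Finite.of_surjective f hf, a G H h f hf⟩) fun G _ _ N L _ _ e u v => ⟨‹_›, a _ _ (b G N L u.2 v.2)
        ((QuotientGroup.quotientMulEquivOfEq e).trans QuotientGroup.quotientBot).toMonoidHom
        (MulEquiv.surjective _)⟩
  have m : ∀ E : H22.FormLat.Cls, H22.FormLat.IsForm E → (∀ (X Y : Type) [Group X] [Group Y] [Finite X],
        E X → ∀ f : X →* Y, Function.Surjective f → E Y) ∧
      ∀ (X : Type) [Group X] [Finite X] (N₁ N₂ : Subgroup X) [N₁.Normal] [N₂.Normal],
        E (X ⧸ N₁) → E (X ⧸ N₂) → E (X ⧸ (N₁ ⊓ N₂)) := fun E e =>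
    ⟨fun _ _ _ _ _ h f hf => H22.FormLat.surj e f hf h, fun X _ _ N L _ _ u v =>
      ((H22.FormLat.Fq.mk N u).inf e (H22.FormLat.Fq.mk L v)).quot e _ le_rfl⟩
  obtain ⟨K, _, _, e⟩ := H22.Comp.one_gen (G := G) ⟨k F a b, H22.GLS.triv_mem (k F a b) ⟨‹_›, c⟩⟩
    fun H _ ⟨_, h⟩ => ⟨‹_›, fun E u => d H h E (m E u).1 (m E u).2⟩
  refine ⟨K, inferInstance, ‹_›, fun H _ _ => ⟨fun h E u v w => ?_, fun h => ?_⟩⟩
  · exact (((congrFun₂ e H _).mp ⟨‹_›, h⟩).2 _ (k E u v) ⟨‹_›, w⟩).2
  · exact ((congrFun₂ e H _).mpr ⟨‹_›, fun E u => h E (m E u).1 (m E u).2⟩).2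

end Pool.Agent.S02025
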