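import Pool.Statements.S02054
import Pool.Agent.H21.SqF

set_option autoImplicit false
open Pool Pool.MP_7ddd63_al

namespace Pool.Agent.S02054

theorem result :
    ¬ (∀ (A : Type) (R : Set (List A × List A)) (w : List A),
    (∀ p ∈ R, p.1 ≠ [] ∧ p.2 ≠ []) → w ≠ [] →
    ∀ (src tgt : List A × (List A × List A) × List A × Bool → List A),
    (∀ (x u v y : List A) (b : Bool), src (x, (u, v), y, b) = x ++ (if b then u else v) ++ y) →
    (∀ (x u v y : List A) (b : Bool), tgt (x, (u, v), y, b) = x ++ (if b then v else u) ++ y) →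
    ∀ (path : List (List A × (List A × List A) × List A × Bool) → Prop),
    (∀ l, path l ↔ ((∀ s ∈ l, s.2.1 ∈ R) ∧
        ∀ (i : ℕ) (s t : List A × (List A × List A) × List A × Bool),
          l[i]? = some s → l[i+1]? = some t → tgt s = src t)) →
    ∀ (loop : List (List A × (List A × List A) × List A × Bool) → Prop),
    (∀ l, loop l ↔ (path l ∧ (∀ s ∈ l.head?, src s = w) ∧ (∀ s ∈ l.getLast?, tgt s = w))) →
    ∀ (move : List (List A × (List A × List A) × List A × Bool) →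
        List (List A × (List A × List A) × List A × Bool) → Prop),
    (∀ a b, move a b ↔ (path a ∧ path b ∧
       ((∃ (p q : List (List A × (List A × List A) × List A × Bool)) (x u v y : List A) (c : Bool),
            a = p ++ q ∧ b = p ++ [(x, (u, v), y, c), (x, (u, v), y, !c)] ++ q) ∨
        (∃ (p q : List (List A × (List A × List A) × List A × Bool)) (x u₁ v₁ y u₂ v₂ z : List A),
            a = p ++ [(x, (u₁, v₁), y ++ u₂ ++ z, true), (x ++ v₁ ++ y, (u₂, v₂), z, true)] ++ q ∧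
            b = p ++ [(x ++ u₁ ++ y, (u₂, v₂), z, true), (x, (u₁, v₁), y ++ v₂ ++ z, true)] ++ q)))) →
    ((∃ (V : Type) (Γ : SimpleGraph V)
        (f : List (List A × (List A × List A) × List A × Bool) →
          PresentedGroup {r : FreeGroup V | ∃ s t, Γ.Adj s t ∧
            r = FreeGroup.of s * FreeGroup.of t * (FreeGroup.of s)⁻¹ * (FreeGroup.of t)⁻¹}),
        (∀ p q, loop p → loop q → f (p ++ q) = f p * f q) ∧
        (∀ p q, loop p → loop q → (f p = f q ↔ Quot.mk move p = Quot.mk move q)))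
     ↔ ¬ ∃ g : SemidirectProduct (Multiplicative (ℤ →₀ ℤ)) (Multiplicative ℤ)
            (zpowersHom (MulAut (Multiplicative (ℤ →₀ ℤ)))
              (AddEquiv.toMultiplicative
                (Finsupp.domCongr (Equiv.addRight (1 : ℤ)) : (ℤ →₀ ℤ) ≃+ (ℤ →₀ ℤ)))) →
            List (List A × (List A × List A) × List A × Bool),
          (∀ a, loop (g a)) ∧
          (∀ a b, Quot.mk move (g (a * b)) = Quot.mk move (g a ++ g b)) ∧
          (∀ a b, Quot.mk move (g a) = Quot.mk move (g b) → a = b))) := by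
  intro H
  open Pool.Agent.H21 Pool.Agent.H21.Sq in
  obtain ⟨f, T, X, Z, hf, hv, hX, hn⟩ := main
  let move : List (Edge (Fin 3)) → List (Edge (Fin 3)) → Prop := fun a b =>
    Pa R0 a ∧ Pa R0 b ∧ Move a b
  have hl : ∀ l, Pth R0 (o 0) l (o 0) ↔ Pa R0 l ∧ (∀ s ∈ l.head?, src s = o 0) ∧
      (∀ s ∈ l.getLast?, tgt s = o 0) := fun l => by simp [pth_iff]
  have k1 : ∀ p q, Quot.mk move p = Quot.mk move q → val p = val q := fun p q h =>
    congrArg (Quot.lift val fun a b (h : move a b) => h.2.2.val h.2.1.1) h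
  let J : D R0 (o 0) → Quot move := Quot.lift (fun p => Quot.mk move p.1) fun a b h =>
    Quot.sound ⟨((hl _).1 a.2).1, ((hl _).1 b.2).1, h⟩
  have k2 : ∀ p q hp hq, val p = val q → mk p hp = mk (R := R0) (u := o 0) (v := o 0) q hq :=
    fun p q hp hq h => hf (by rw [hv, hv, h])
  have := H (Fin 3) R0 (o 0) (fun p h => ⟨(valid.2 _ _ h).1, (valid.2 _ _ h).2.1⟩) valid.1 src tgt
    (fun _ _ _ _ _ => rfl) (fun _ _ _ _ _ => rfl) (Pa R0) (fun _ => Iff.rfl)
    (fun l => Pth R0 (o 0) l (o 0)) hl move fun a b => and_congr_right' (and_congr_right' ⟨?_, ?_⟩)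
  · obtain ⟨V, Γ, F, h1, h2⟩ := this.2 fun ⟨g, g1, g2, g3⟩ =>
      no_wr (MonoidHom.mk' (fun a => val (g a)) fun a b => (k1 _ _ (g2 a b)).trans (val_app _ _))
        fun a b h => g3 a b (congrArg J (k2 _ _ (g1 a) (g1 b) h))
    let F' : D R0 (o 0) →* RAAG.A Γ := MonoidHom.mk' (Quot.lift (fun p => F p.1) fun a b h =>
      (h2 _ _ a.2 b.2).2 (congrArg J (Quot.sound h))) (by rintro ⟨a⟩ ⟨b⟩; exact h1 _ _ a.2 b.2)
    have h3 : Function.Injective F' := by
      rintro ⟨a⟩ ⟨b⟩ h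
      exact k2 _ _ a.2 b.2 (k1 _ _ ((h2 _ _ a.2 b.2).1 h))
    exact hn (Commute.of_map h3 (by simpa using raag (ZZ.kill_map hX F')))
  · rintro (⟨p, q, ⟨x, ⟨u, v⟩, y, c⟩⟩ | ⟨p, q, x, u₁, v₁, y, u₂, v₂, z⟩)
    · exact .inl ⟨p, q, x, u, v, y, c, rfl, rfl⟩
    · exact .inr ⟨p, q, x, u₁, v₁, y, u₂, v₂, z, rfl, rfl⟩
  · rintro (⟨p, q, x, u, v, y, c, rfl, rfl⟩ | ⟨p, q, x, u₁, v₁, y, u₂, v₂, z, rfl, rfl⟩)
    · exact .cancel p q (x, (u, v), y, c)
    · exact .square ..

end Pool.Agent.S02054
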