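import Pool.Statements.S02070
import Pool.Agent.H19.OnnDim

set_option autoImplicit false
open Pool Pool.MP_7ed69f_al

namespace Pool.Agent.S02070

/-- The negation of the preceding statement: For all N,r ≥ 2 there is a finite set of integer polynomials of degree ≤ C(N,2)·r whose values at q are exactly the dimensions of irreducible complex reps of GL_N(o/p^r) nontrivial on the level-(r−1) kernel, for every compact DVR o. -/
theorem result :
    ¬ (∀ N r : ℕ, 2 ≤ N → 2 ≤ r →
    ∃ P : Finset (Polynomial ℤ), (∀ d ∈ P, d.natDegree ≤ N.choose 2 * r) ∧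
    ∀ (R : Type) [CommRing R] [IsDomain R] [IsDiscreteValuationRing R]
      [Finite (IsLocalRing.ResidueField R)]
      [IsAdicComplete (IsLocalRing.maximalIdeal R) R],
    {z : ℤ | ∃ (V : Type) (_ : AddCommGroup V) (_ : Module ℂ V)
        (ρ : Representation ℂ
          (Matrix.GeneralLinearGroup (Fin N) (R ⧸ IsLocalRing.maximalIdeal R ^ r)) V),
        FiniteDimensional ℂ V ∧ Nontrivial V ∧
        (∀ W : Submodule ℂ V, (∀ g v, v ∈ W → ρ g v ∈ W) → W = ⊥ ∨ W = ⊤) ∧
        (∃ g : Matrix.GeneralLinearGroup (Fin N) (R ⧸ IsLocalRing.maximalIdeal R ^ r),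
          (∀ i j, ∃ a ∈ IsLocalRing.maximalIdeal R ^ (r - 1),
            g.val i j
              - (1 : Matrix (Fin N) (Fin N) (R ⧸ IsLocalRing.maximalIdeal R ^ r)) i j
              = Ideal.Quotient.mk (IsLocalRing.maximalIdeal R ^ r) a) ∧ ρ g ≠ 1) ∧
        (Module.finrank ℂ V : ℤ) = z}
    = (fun d : Polynomial ℤ => d.eval (Nat.card (IsLocalRing.ResidueField R) : ℤ)) ''
        (P : Set (Polynomial ℤ))) := by
  intro h
  obtain ⟨P, -, hP⟩ := h 3 2 (by norm_num) le_rfl
  have fin : ∀ (p : ℕ) [Fact p.Prime], Finite (IsLocalRing.ResidueField ℤ_[p]) := fun p _ =>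
    Finite.of_equiv _ (PadicInt.residueField (p := p)).toEquiv.symm
  have crd : ∀ (p : ℕ) [Fact p.Prime], Nat.card (IsLocalRing.ResidueField ℤ_[p]) = p :=
    fun p _ => by rw [Nat.card_congr (PadicInt.residueField (p := p)).toEquiv, Nat.card_zmod]
  let f : Polynomial ℤ := Polynomial.X ^ 3 * (Polynomial.X + 1) *
    (Polynomial.X ^ 2 + Polynomial.X + 1)
  have h1 : ∀ p : ℕ, p.Prime → p ≠ 2 → ∃ d ∈ P, d.eval (p : ℤ) = f.eval (p : ℤ) := by
    intro p hp hp2
    have := Fact.mk hp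
    have := fin p
    obtain ⟨π, hπ⟩ := Pool.Agent.H19.OnnDim.good_padic p
    obtain ⟨V, _, _, ρ, a1, a2, a3, a4, a5⟩ := Pool.Agent.H19.OnnDim.large hπ hp2
    obtain ⟨d, hd, e⟩ := (hP ℤ_[p]).le ⟨V, _, _, ρ, a1, a2, a3, ⟨_, fun i j =>
      ⟨p * (Matrix.single 1 1 1 : Matrix (Fin 3) (Fin 3) ℤ_[p]) i j, by
        rw [show 2 - 1 = 1 from rfl, pow_one, PadicInt.maximalIdeal_eq_span_p]
        exact Ideal.mul_mem_right _ _ (Ideal.mem_span_singleton_self _), by
        simp only [Pool.Agent.H19.OnnDim.Good.u, Matrix.add_apply, add_sub_cancel_left,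
          Matrix.smul_apply, smul_eq_mul, map_mul, map_natCast, Matrix.single_apply]
        split_ifs <;> simp⟩, a4⟩, rfl⟩
    refine ⟨d, hd, ?_⟩
    simp only [crd] at e
    rw [e]
    have p1 : 1 < p := hp.one_lt
    have b1 : 1 ≤ p ^ 3 := Nat.one_le_pow _ _ hp.pos
    have b2 : p ≤ p ^ 3 := Nat.le_self_pow (by norm_num) p
    have b3 : p ^ 2 ≤ p ^ 3 := Nat.pow_le_pow_right hp.pos (by norm_num)
    zify [b1, b2, b3, p1.le] at a5
    have n0 : ((p : ℤ) - 1) ^ 3 ≠ 0 := pow_ne_zero _ (by omega)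
    refine mul_right_cancel₀ n0 (a5.trans ?_)
    simp only [f, Polynomial.eval_mul, Polynomial.eval_add, Polynomial.eval_pow, Polynomial.eval_X,
      Polynomial.eval_one]
    ring
  have h2 : f ∈ P := by
    by_contra hf
    have a : {x : ℤ | ∃ d ∈ P, d.eval x = f.eval x}.Finite := by
      have : {x : ℤ | ∃ d ∈ P, d.eval x = f.eval x} =
          ⋃ d ∈ (P : Set (Polynomial ℤ)), {x | d.eval x = f.eval x} := by
        ext x
        simp
      rw [this]
      refine P.finite_toSet.biUnion fun d hd => ?_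
      by_contra hi
      exact hf (Polynomial.eq_of_infinite_eval_eq d f hi ▸ hd)
    refine ((Nat.infinite_setOf_prime.diff (Set.finite_singleton 2)).image
      (Nat.cast_injective (R := ℤ)).injOn) (a.subset ?_)
    rintro _ ⟨p, ⟨hp, hp2⟩, rfl⟩
    exact h1 p hp hp2
  have := fin 2
  obtain ⟨π, hπ⟩ := Pool.Agent.H19.OnnDim.good_padic 2
  obtain ⟨V, _, _, ρ, a1, a2, a3, -, a5⟩ := (hP ℤ_[2]).ge ⟨f, h2, rfl⟩
  have := Pool.Agent.H19.OnnDim.small hπ ρ a3
  simp only [crd, f, Polynomial.eval_mul, Polynomial.eval_add, Polynomial.eval_pow,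
    Polynomial.eval_X, Polynomial.eval_one] at a5
  omega

end Pool.Agent.S02070
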