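import Pool.Statements.S02098

set_option autoImplicit false
open Pool Pool.MP_81db1e_al

namespace Pool.Agent.S02098

open Polynomial in
/-- Over every field of characteristic zero, `k[X] × k[X]` has no such envelope. -/
theorem aux (k : Type) [Field k] [CharZero k] :
    ∃ (φ φ' : k[X] × k[X] →ₐ[k] RatFunc k × RatFunc k), Function.Injective φ ∧
      Function.Injective φ' ∧
      ¬ LinearIndependent (RatFunc k) (fun i => φ (![1, (X, X)] i)) ∧
      ¬ LinearIndependent (RatFunc k) (fun i => φ' (![1, (X, -X)] i)) ∧
      ∀ (F : Type) [Field F] (A : Type) [Ring A] [Algebra F A] [Algebra k A]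
        (ψ : k[X] × k[X] →ₐ[k] A), Function.Injective ψ →
        ¬ LinearIndependent F (fun i => ψ (![1, (X, X)] i)) →
        ¬ LinearIndependent F (fun i => ψ (![1, (X, -X)] i)) → False := by
  let j : k[X] →ₐ[k] RatFunc k := IsScalarTower.toAlgHom k k[X] (RatFunc k)
  have hj : Function.Injective j := RatFunc.algebraMap_injective k
  have dep : ∀ v : Fin 2 → RatFunc k × RatFunc k, v 0 = 1 → v 1 = (j X, j X) →
      ¬ LinearIndependent (RatFunc k) v := fun v h0 h1 h => by
    have := Fintype.linearIndependent_iff.1 h ![j X, -1] (by simp [h0, h1, Prod.ext_iff]) 1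
    simp at this
  refine ⟨j.prodMap j, j.prodMap (j.comp (algEquivAevalNegX (R := k)).toAlgHom), hj.prodMap hj,
    hj.prodMap (hj.comp (algEquivAevalNegX (R := k)).injective), dep _ (by simp) rfl,
    dep _ (by simp) (by simp [AlgHom.prodMap]), fun F _ A _ _ _ ψ hψ h1 h2 => ?_⟩
  have : Nontrivial A := hψ.nontrivial
  have key : ∀ r : k[X] × k[X], ¬ LinearIndependent F (fun i => ψ (![1, r] i)) →
      ∃ c : F, ψ r = algebraMap F A c := fun r h => by
    have e : (fun i => ψ (![1, r] i)) = ![1, ψ r] := by
      funext i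
      fin_cases i <;> simp
    rw [e, LinearIndependent.pair_iff' one_ne_zero] at h
    push Not at h
    obtain ⟨c, hc⟩ := h
    exact ⟨c, by rw [← hc, Algebra.algebraMap_eq_smul_one]⟩
  obtain ⟨a, ha⟩ := key _ h1
  obtain ⟨b, hb⟩ := key _ h2
  have e1 : ψ (X + X, 0) = algebraMap F A (a + b) := by
    rw [map_add, ← ha, ← hb, ← map_add]
    simp
  have e2 : ψ (0, X + X) = algebraMap F A (a - b) := by
    rw [map_sub, ← ha, ← hb, ← map_sub]
    simp
  have e3 : (a + b) * (a - b) = 0 := (algebraMap F A).injective (by
    rw [map_mul, ← e1, ← e2, ← map_mul, map_zero, ← map_zero ψ]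
    congr 1
    simp [Prod.ext_iff])
  have hX : (X + X : k[X]) ≠ 0 := by
    rw [← two_mul]
    exact mul_ne_zero two_ne_zero X_ne_zero
  rcases mul_eq_zero.1 e3 with h | h
  · rw [h, map_zero, ← map_zero ψ] at e1
    exact hX (congrArg Prod.fst (hψ e1))
  · rw [h, map_zero, ← map_zero ψ] at e2
    exact hX (congrArg Prod.snd (hψ e2))

/-- The negation of the preceding statement: For every char-0 field k and k-algebra R with some finite-dimensional representation, there is one finite-dimensional representation (F,A) in which every family of R that is dependent in some finite-dimensional representation is already dependent. -/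
theorem result :
    ¬ (∀ (k : Type) [Field k] [CharZero k] (R : Type) [Ring R] [Algebra k R],
      (∃ (F : Type) (_ : Field F) (_ : Algebra k F) (A : Type) (_ : Ring A)
          (_ : Algebra F A) (_ : Algebra k A) (_ : IsScalarTower k F A)
          (_ : FiniteDimensional F A) (φ : R →ₐ[k] A), Function.Injective φ) →
      ∃ (F : Type) (_ : Field F) (_ : Algebra k F) (A : Type) (_ : Ring A)
          (_ : Algebra F A) (_ : Algebra k A) (_ : IsScalarTower k F A)
          (_ : FiniteDimensional F A) (φ : R →ₐ[k] A),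
        Function.Injective φ ∧
        ∀ (F' : Type) [Field F'] [Algebra k F'] (A' : Type) [Ring A'] [Algebra F' A']
          [Algebra k A'] [IsScalarTower k F' A'] [FiniteDimensional F' A']
          (φ' : R →ₐ[k] A'), Function.Injective φ' →
          ∀ (ι : Type) (r : ι → R),
            ¬ LinearIndependent F' (fun i => φ' (r i)) →
            ¬ LinearIndependent F (fun i => φ (r i))) := by
  intro h
  obtain ⟨φ, φ', h1, h2, h3, h4, h5⟩ := aux ℝ
  obtain ⟨F, _, _, A, _, _, _, _, _, ψ, hψ, H⟩ := h ℝ (Polynomial ℝ × Polynomial ℝ)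
    ⟨RatFunc ℝ, inferInstance, inferInstance, RatFunc ℝ × RatFunc ℝ, inferInstance, inferInstance,
      inferInstance, inferInstance, inferInstance, φ, h1⟩
  exact h5 F A ψ hψ (H (RatFunc ℝ) (RatFunc ℝ × RatFunc ℝ) φ h1 _ _ h3)
    (H (RatFunc ℝ) (RatFunc ℝ × RatFunc ℝ) φ' h2 _ _ h4)

end Pool.Agent.S02098
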