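import Pool.Statements.S02194
import Pool.Agent.H22.BaireProd

set_option autoImplicit false
open Pool Pool.MP_8999af_al

namespace Pool.Agent.S02194

/-- The negation of the preceding statement: In a complete metric non-commutative topological group G, if U1,...,Un are homomorphisms G→G and x ↦ U1(x)⋯Un(x) is of some Baire class (iterated pointwise sequential limits of continuous maps), then that map is continuous. -/
theorem result :
    ¬ (∀ (G : Type) [Group G] [MetricSpace G] [IsTopologicalGroup G] [CompleteSpace G],
      (∃ a b : G, a * b ≠ b * a) →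
      ∀ (n : ℕ) (U : Fin n → G →* G),
        (∀ S : Set (G → G),
          (∀ f : G → G, Continuous f → f ∈ S) →
          (∀ (f : ℕ → G → G) (g : G → G), (∀ k, f k ∈ S) →
            (∀ x, Filter.Tendsto (fun k => f k x) Filter.atTop (nhds (g x))) → g ∈ S) →
          (fun x => (List.ofFn (fun i => U i x)).prod) ∈ S) →
        Continuous (fun x => (List.ofFn (fun i => U i x)).prod)) := by
  intro H
  have key := H Pool.Agent.H22.BaireProd.G
    ⟨(1, Pool.Agent.H22.BaireProd.f), (1, Pool.Agent.H22.BaireProd.g), fun h =>
      Pool.Agent.H22.BaireProd.fg_ne (congrArg Prod.snd h)⟩ 4 Pool.Agent.H22.BaireProd.U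
  simp only [Pool.Agent.H22.BaireProd.prod_eq] at key
  exact Pool.Agent.H22.BaireProd.not_cont (key fun S h1 h2 =>
    h2 Pool.Agent.H22.BaireProd.approx _
      (fun k => h1 _ (Pool.Agent.H22.BaireProd.approx_cont k))
      Pool.Agent.H22.BaireProd.approx_tendsto)

end Pool.Agent.S02194
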