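import Pool.Statements.S02219
import Pool.Agent.H19.Palin

set_option autoImplicit false
open Pool Pool.MP_8bc403_al

namespace Pool.Agent.S02219

/-- There is a group with finite generating sets X and Y such that every element is a product of boundedly many palindromes over X, but no such bound exists for palindromes over Y. -/
theorem result :
    ∃ (G : Type) (_ : Group G) (X Y : Finset G),
      Subgroup.closure (X : Set G) = ⊤ ∧ Subgroup.closure (Y : Set G) = ⊤ ∧
      (∃ N : ℕ, ∀ g : G, ∃ ps : List G, ps.length ≤ N ∧ ps.prod = g ∧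
        ∀ p ∈ ps, ∃ w : List G, (∀ x ∈ w, x ∈ X ∨ x⁻¹ ∈ X) ∧ w.reverse = w ∧ w.prod = p) ∧
      ¬ (∃ N : ℕ, ∀ g : G, ∃ ps : List G, ps.length ≤ N ∧ ps.prod = g ∧
        ∀ p ∈ ps, ∃ w : List G, (∀ x ∈ w, x ∈ Y ∨ x⁻¹ ∈ Y) ∧ w.reverse = w ∧ w.prod = p) := by
  classical
  have hY : Subgroup.closure
      ((({FreeGroup.of true, FreeGroup.of false} : Finset (FreeGroup Bool))) :
        Set (FreeGroup Bool)) = ⊤ := by
    rw [← FreeGroup.closure_range_of]
    congr 1
    ext x
    simp [eq_comm, or_comm]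
  obtain ⟨X, hX, N, hN⟩ := Pool.Agent.H19.Palin.exists_finite_width (FreeGroup Bool) _ hY
  refine ⟨FreeGroup Bool, inferInstance, X, {FreeGroup.of true, FreeGroup.of false}, ?_, hY,
    ⟨N, fun g => ?_⟩, ?_⟩
  · rw [eq_top_iff, ← hY]
    exact Subgroup.closure_mono hX
  · obtain ⟨ws, h1, h2, h3⟩ := hN g
    refine ⟨_, by simpa using h1, h3, ?_⟩
    intro p hp
    obtain ⟨w, hw, rfl⟩ := List.mem_map.mp hp
    refine ⟨_, ?_, ?_, rfl⟩
    · intro x hx
      obtain ⟨⟨a, b⟩, _, rfl⟩ := List.mem_map.mp hx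
      cases b <;> simp
    · rw [← List.map_reverse, (h2 w hw).2]
  · rintro ⟨M, hM⟩
    obtain ⟨g, hg⟩ := Pool.Agent.H19.Palin.unbounded M
    obtain ⟨ps, h1, h2, h3⟩ := hM g
    have := hg ps ?_ h2
    · omega
    intro p hp
    obtain ⟨w, hw1, hw2, rfl⟩ := h3 p hp
    have key : ∀ w : List (FreeGroup Bool),
        (∀ x ∈ w, x ∈ ({FreeGroup.of true, FreeGroup.of false} : Finset (FreeGroup Bool)) ∨
          x⁻¹ ∈ ({FreeGroup.of true, FreeGroup.of false} : Finset (FreeGroup Bool))) →
        Pool.Agent.H19.Palin.rev w.prod = w.reverse.prod := by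
      intro w hw
      induction w with
      | nil => simp [Pool.Agent.H19.Palin.rev_one]
      | cons x w ih =>
        rw [List.prod_cons, Pool.Agent.H19.Palin.rev_mul,
          ih (fun y hy => hw y (List.mem_cons_of_mem _ hy)), List.reverse_cons, List.prod_append,
          List.prod_singleton]
        congr 1
        have hx := hw x List.mem_cons_self
        simp only [Finset.mem_insert, Finset.mem_singleton, inv_eq_iff_eq_inv] at hx
        rcases hx with (rfl | rfl) | (rfl | rfl) <;>
          simp [Pool.Agent.H19.Palin.rev_of, Pool.Agent.H19.Palin.rev_inv]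
    rw [key w hw1, hw2]

end Pool.Agent.S02219
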