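import Pool.Statements.S02240
import Pool.Agent.H22.Comp2

set_option autoImplicit false
open Pool Pool.MP_8ef39f_al

namespace Pool.Agent.S02240

/-- The negation of the preceding statement: For every finite group G, there are only finitely many formations of finite groups closed under subnormal (equivalently, normal) subgroups that are contained in the formation generated by G. -/
theorem result :
    ¬ (∀ (G : Type) [Group G] [Finite G],
      Set.Finite
        {F : ∀ (H : Type) [Group H], Prop |
          (∀ (H : Type) [Group H], F H → Finite H) ∧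
          (∀ (H K : Type) [Group H] [Group K], (H ≃* K) → F H → F K) ∧
          (∀ (H : Type) [Group H] (N : Subgroup H) [N.Normal], F H → F (H ⧸ N)) ∧
          (∀ (H : Type) [Group H] (N₁ N₂ : Subgroup H) [N₁.Normal] [N₂.Normal],
              F (H ⧸ N₁) → F (H ⧸ N₂) → F (H ⧸ (N₁ ⊓ N₂))) ∧
          (∀ (H : Type) [Group H] (N : Subgroup H), N.Normal → F H → F N) ∧
          (∀ (H : Type) [Group H], F H →
              ∀ F' : ∀ (K : Type) [Group K], Prop,
                (∀ (K : Type) [Group K], F' K → Finite K) →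
                (∀ (K L : Type) [Group K] [Group L], (K ≃* L) → F' K → F' L) →
                (∀ (K : Type) [Group K] (N : Subgroup K) [N.Normal], F' K → F' (K ⧸ N)) →
                (∀ (K : Type) [Group K] (N₁ N₂ : Subgroup K) [N₁.Normal] [N₂.Normal],
                    F' (K ⧸ N₁) → F' (K ⧸ N₂) → F' (K ⧸ (N₁ ⊓ N₂))) →
                F' G → F' H)}) := by
  intro h
  obtain ⟨G, _, _, F, i, k⟩ := H22.Comp.main
  refine Set.infinite_of_injective_forall_mem i (fun r => ?_) (h G)
  obtain ⟨a, b, c⟩ := k r
  refine ⟨a.1, fun H K _ _ e => a.2.1 H K ⟨e⟩, a.2.2.1, fun H _ N L _ _ u v => ?_, b,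
    fun H _ u F' f1 f2 f3 f4 => (c H u).2 F' ⟨f1, fun G K _ _ ⟨e⟩ => f2 G K e, f3,
      fun G _ _ N L _ _ e u v => f2 _ _ ((QuotientGroup.quotientMulEquivOfEq e).trans
        QuotientGroup.quotientBot) (f4 G N L u v)⟩⟩
  have := a.1 _ u
  have := a.1 _ v
  let f := QuotientGroup.map (N ⊓ L) N (MonoidHom.id H) inf_le_left
  let g := QuotientGroup.map (N ⊓ L) L (MonoidHom.id H) inf_le_right
  have j : ∀ x, f x = 1 → g x = 1 → x = 1 := fun x => x.inductionOn' fun x s t =>
    (QuotientGroup.eq_one_iff x).2 ⟨(QuotientGroup.eq_one_iff x).1 s, (QuotientGroup.eq_one_iff x).1 t⟩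
  have : Finite (H ⧸ (N ⊓ L)) := Finite.of_injective (f.prod g) ((injective_iff_map_eq_one _).2
    fun x e => j x (congrArg Prod.fst e) (congrArg Prod.snd e))
  exact H22.GLS.sub2 a f (fun x => x.inductionOn' fun x => ⟨x, rfl⟩) g
    (fun x => x.inductionOn' fun x => ⟨x, rfl⟩) (MonoidHom.id _) Function.surjective_id j u v

end Pool.Agent.S02240
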