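import Pool.Statements.S02284
import Pool.Agent.H18.Lsim3

set_option autoImplicit false
open Pool Pool.MP_918b6a_al

namespace Pool.Agent.S02284

/-- The negation of the preceding statement: In any lattice-ordered group whose only normal convex sublattice-subgroups are trivial or everything, every normal convex subgroup is also trivial or everything. -/
theorem result :
    ¬ (∀ (G : Type) [Group G] [Lattice G] [MulLeftMono G] [MulRightMono G],
      (∀ H : Subgroup G, H.Normal →
          (∀ a b g : G, a ∈ H → b ∈ H → a ≤ g → g ≤ b → g ∈ H) →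
          (∀ a b : G, a ∈ H → b ∈ H → a ⊔ b ∈ H ∧ a ⊓ b ∈ H) →
          H = ⊥ ∨ H = ⊤) →
      ∀ H : Subgroup G, H.Normal →
        (∀ a b g : G, a ∈ H → b ∈ H → a ≤ g → g ≤ b → g ∈ H) →
        H = ⊥ ∨ H = ⊤) := by
  intro h
  rcases h H18.Lsim.G H18.Lsim.simple H18.Lsim.NN0 H18.Lsim.NN0_normal H18.Lsim.NN0_convex with h | h
  · exact H18.Lsim.NN0_ne_bot h
  · exact H18.Lsim.NN0_ne_top h

end Pool.Agent.S02284
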