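import Pool.Statements.S02397

set_option autoImplicit false
open Pool Pool.MP_977c67_al

namespace Pool.Agent.S02397

/-! ### A linear rewriting system describing the zero ideal -/

def RR (q : Fin 9) (l : Option Bool) (q' : Fin 9) (r : Option Bool) : Prop :=
  (q.val = 7 ∧ q'.val = 7) ∨ (q.val = 7 ∧ q'.val = 3 ∧ l = none ∧ r = none) ∨
  ((q.val = 0 ∨ q.val = 6) ∧ q'.val = 8 ∧ l = none ∧ r = none) ∨ (q.val = 8 ∧ q'.val = 8) ∨
  (1 ≤ q.val ∧ q.val ≤ 5 ∧ l = some false ∧ r = none ∧ q'.val = q.val + 1) ∨
  (1 ≤ q.val ∧ q.val ≤ 5 ∧ l = some true ∧ ∃ b, r = some b ∧ q'.val + b.toNat = q.val)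

inductive Lin : Fin 9 → List Bool → Prop
  | fin : Lin 8 []
  | step {q l q' r w} : RR q l q' r → Lin q' w → Lin q (l.toList ++ w ++ r.toList)

lemma lin_any (w : List Bool) : Lin 8 w := by
  induction w with
  | nil => exact Lin.fin
  | cons a w ih => simpa using Lin.step (q := 8) (l := some a) (r := none) (by simp [RR]) ih

lemma lin_left (a : List Bool) {w : List Bool} (h : Lin 7 w) : Lin 7 (a ++ w) := by
  induction a with
  | nil => exact h
  | cons x a ih => simpa using Lin.step (q := 7) (l := some x) (r := none) (by simp [RR]) ih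

lemma lin_right (a : List Bool) {w : List Bool} (h : Lin 7 w) : Lin 7 (w ++ a) := by
  induction a using List.reverseRecOn with
  | nil => simpa using h
  | append_singleton a x ih =>
    simpa using Lin.step (q := 7) (l := none) (r := some x) (by simp [RR]) ih

lemma lin_mid (m u : List Bool) : ∀ (q : Fin 9) (v : List Bool), q.val ≤ 6 →
    v.length = u.count true →
    (q.val + u.count false ≤ v.count true ∨ v.count true + 6 ≤ q.val + u.count false) →
    Lin q (u ++ m ++ v) := by
  have hend : ∀ (q : Fin 9) w, (q.val = 0 ∨ q.val = 6) → Lin q w := fun q w h => by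
    simpa using Lin.step (q := q) (l := none) (r := none) (Or.inr (Or.inr (Or.inl ⟨h, rfl, rfl, rfl⟩))) (lin_any w)
  induction u with
  | nil =>
    intro q v hq hv h
    apply hend
    have : v = [] := by simpa using hv
    subst this
    simp at h
    omega
  | cons a u ih =>
    intro q v hq hv h
    by_cases h0 : q.val = 0 ∨ q.val = 6
    · exact hend q _ h0
    cases a with
    | false =>
      have := ih ⟨q.val + 1, by omega⟩ v (by simp; omega) (by simpa using hv)
        (by simp at h ⊢; omega)
      simpa using Lin.step (q := q) (l := some false) (r := none)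
        (by simp [RR]; omega) this
    | true =>
      obtain ⟨v, b, rfl⟩ : ∃ v' b, v = v' ++ [b] := by
        rcases List.eq_nil_or_concat v with rfl | ⟨v', b, rfl⟩
        · simp at hv
        · exact ⟨v', b, by simp⟩
      have hb : b.toNat ≤ 1 := Bool.toNat_le b
      have := ih ⟨q.val - b.toNat, by omega⟩ v (by simp; omega) (by simpa using hv)
        (by cases b <;> simp at h ⊢ <;> omega)
      simpa using Lin.step (q := q) (l := some true) (r := some b)
        (by simp [RR]; omega) this

def Mid (d : ℕ) (w : List Bool) : Prop :=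
  ∃ u m v, w = u ++ m ++ v ∧ v.length = u.count true ∧
    (d + u.count false = v.count true ∨ d + u.count false = v.count true + 6)

lemma lin_inv {q : Fin 9} {w : List Bool} (h : Lin q w) :
    (q.val = 7 → ∃ p x s, w = p ++ x ++ s ∧ Mid 3 x) ∧ (q.val ≤ 6 → Mid q.val w) := by
  induction h with
  | fin => simp
  | @step q l q' r w hR _ ih =>
    rcases hR with ⟨h1, h2⟩ | ⟨h1, h2, rfl, rfl⟩ | ⟨h1, h2, rfl, rfl⟩ | ⟨h1, h2⟩ |
      ⟨h1, h2, rfl, rfl, h3⟩ | ⟨h1, h2, rfl, b, rfl, h3⟩
    · refine ⟨fun _ => ?_, fun h => by omega⟩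
      obtain ⟨p, x, s, rfl, hx⟩ := ih.1 h2
      exact ⟨l.toList ++ p, x, s ++ r.toList, by simp, hx⟩
    · refine ⟨fun _ => ?_, fun h => by omega⟩
      exact ⟨[], w, [], by simp, h2 ▸ ih.2 (by omega)⟩
    · refine ⟨fun h => by omega, fun _ => ?_⟩
      exact ⟨[], w, [], by simp, by simp, by simpa using h1⟩
    · exact ⟨fun h => by omega, fun h => by omega⟩
    · refine ⟨fun h => by omega, fun _ => ?_⟩
      obtain ⟨u, m, v, rfl, h4, h5⟩ := ih.2 (by omega)
      exact ⟨false :: u, m, v, by simp, by simpa using h4, by simp; omega⟩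
    · refine ⟨fun h => by omega, fun _ => ?_⟩
      obtain ⟨u, m, v, rfl, h4, h5⟩ := ih.2 (by omega)
      exact ⟨true :: u, m, v ++ [b], by simp, by simpa using h4,
        by cases b <;> simp at h3 ⊢ <;> omega⟩

/-! ### Powers fall into the ideal -/

def rep (k : ℕ) (w : List Bool) : List Bool := (List.replicate k w).flatten

lemma rep_add (i j : ℕ) (w : List Bool) : rep (i + j) w = rep i w ++ rep j w := by
  rw [rep, List.replicate_add, List.flatten_append]; rfl

lemma rep_length (k : ℕ) (w : List Bool) : (rep k w).length = k * w.length := by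
  simp [rep]

lemma rep_count (k : ℕ) (w : List Bool) (b : Bool) : (rep k w).count b = k * w.count b := by
  induction k with
  | zero => simp [rep]
  | succ k ih => rw [rep_add, List.count_append, ih]; simp [rep]; ring

lemma golden (a : ℕ) : ∀ b : ℕ, (a + b) * b = a * a → a + b = 0 := by
  induction a using Nat.strong_induction_on with
  | _ a ih =>
    intro b h
    by_cases hb : b = 0
    · subst hb; simpa using h
    · have hlt : b < a := by
        by_contra hc
        have : 0 < b := Nat.pos_of_ne_zero hb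
        nlinarith [not_lt.mp hc]
      obtain ⟨c, rfl⟩ : ∃ c, a = b + c := ⟨a - b, by omega⟩
      have := ih b hlt c (by nlinarith)
      omega

lemma count_tf (w : List Bool) : w.count true + w.count false = w.length := by
  induction w with
  | nil => simp
  | cons a w ih => cases a <;> simp <;> omega

lemma rep_bad (w : List Bool) (hw : w ≠ []) : ∃ K, 1 ≤ K ∧ ∀ k, K ≤ k → Lin 7 (rep k w) := by
  have hl : 0 < w.length := List.length_pos_iff.mpr hw
  refine ⟨3 * w.length + 3 * w.count true, by omega, fun k hk => ?_⟩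
  obtain ⟨c, rfl⟩ := Nat.exists_eq_add_of_le hk
  rw [rep_add, rep_add]
  apply lin_right
  have h := lin_mid [] (rep (3 * w.length) w) 3 (rep (3 * w.count true) w) (by simp)
    (by rw [rep_length, rep_count]; ring) (by
      rw [rep_count, rep_count]
      have h1 := count_tf w
      have h2 := mt (golden (w.count true) (w.count false)) (by omega)
      rw [h1] at h2
      have e : ((3 : Fin 9) : ℕ) = 3 := rfl
      rw [e, mul_assoc, mul_assoc]
      omega)
  simpa using Lin.step (q := 7) (l := none) (r := none) (by simp [RR]) h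

/-! ### The golden mechanical word avoids the ideal -/

noncomputable def al : ℝ := (√5 - 1) / 2

lemma al_sq : al * al + al = 1 := by
  have : √5 * √5 = (5 : ℝ) := Real.mul_self_sqrt (by norm_num)
  unfold al; nlinarith

lemma al_pos : 0 < al := by
  have : (1 : ℝ) < √5 := by rw [Real.lt_sqrt] <;> norm_num
  unfold al; linarith

lemma al_lt : al < 1 := by nlinarith [al_sq, al_pos]

noncomputable def xx (i : ℕ) : Bool := decide (⌊((i : ℝ) + 1) * al⌋ = ⌊(i : ℝ) * al⌋ + 1)

noncomputable def seg (i n : ℕ) : List Bool := (List.range' i n).map xx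

lemma seg_length (i n : ℕ) : (seg i n).length = n := by simp [seg]

lemma seg_add (i a b : ℕ) : seg i (a + b) = seg i a ++ seg (i + a) b := by
  simp [seg, ← List.map_append, List.range'_append_1]

lemma seg_split {i n : ℕ} {p s : List Bool} (h : seg i n = p ++ s) :
    p = seg i p.length ∧ s = seg (i + p.length) s.length := by
  have hn : n = p.length + s.length := by rw [← seg_length i n, h]; simp
  rw [hn, seg_add] at h
  have := List.append_inj h (by simp [seg_length])
  exact ⟨this.1.symm, this.2.symm⟩

lemma seg_count (n : ℕ) : ∀ i : ℕ,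
    (((seg i n).count true : ℕ) : ℤ) = ⌊((i : ℝ) + n) * al⌋ - ⌊(i : ℝ) * al⌋ := by
  induction n with
  | zero => simp [seg]
  | succ n ih =>
    intro i
    rw [seg_add, List.count_append]
    push_cast
    rw [ih]
    have h1 : ⌊((i : ℝ) + n) * al⌋ ≤ ⌊((i : ℝ) + n + 1) * al⌋ :=
      Int.floor_le_floor (by nlinarith [al_pos])
    have h2 : ⌊((i : ℝ) + n + 1) * al⌋ ≤ ⌊((i : ℝ) + n) * al⌋ + 1 := by
      rw [← Int.floor_add_one]
      exact Int.floor_le_floor (by nlinarith [al_lt])
    have e : seg (i + n) 1 = [xx (i + n)] := by simp [seg]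
    rw [e, ← add_assoc]
    unfold xx
    push_cast
    by_cases h : ⌊((i : ℝ) + n + 1) * al⌋ = ⌊((i : ℝ) + n) * al⌋ + 1
    · simp [h]; ring
    · simp [h]; omega

lemma seg_bal (i n : ℕ) : (((seg i n).count true : ℕ) : ℝ) - n * al < 1 ∧
    -1 < (((seg i n).count true : ℕ) : ℝ) - n * al := by
  have h := seg_count n i
  have h' : (((seg i n).count true : ℕ) : ℝ) = ⌊((i : ℝ) + n) * al⌋ - ⌊(i : ℝ) * al⌋ := by
    exact_mod_cast h
  have h1 := Int.floor_le (((i : ℝ) + n) * al)
  have h2 := Int.lt_floor_add_one (((i : ℝ) + n) * al)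
  have h3 := Int.floor_le ((i : ℝ) * al)
  have h4 := Int.lt_floor_add_one ((i : ℝ) * al)
  rw [h']
  constructor <;> nlinarith

lemma seg_good (n : ℕ) : ¬ Lin 7 (seg 0 n) := by
  intro h
  obtain ⟨p, x, s, h1, u, m, v, rfl, h2, h3⟩ := (lin_inv h).1 rfl
  have a1 := (seg_split h1).1
  have a2 := (seg_split a1.symm).2
  have a3 := seg_split a2.symm
  have hu := (seg_split a3.1.symm).1
  have hv := a3.2
  have b1 := seg_bal (0 + p.length) u.length
  have b2 := seg_bal (0 + p.length + (u ++ m).length) v.length
  rw [← hu] at b1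
  rw [← hv, h2] at b2
  have c1 : ((u.count true : ℕ) : ℝ) + u.count false = u.length := by exact_mod_cast count_tf u
  have k1 := al_sq
  have k2 := al_pos
  have k3 := al_lt
  rw [← c1] at b1
  generalize ((u.count true : ℕ) : ℝ) = a at *
  rcases h3 with h3 | h3
  · have h4 : (3 : ℝ) + u.count false = v.count true := by exact_mod_cast h3
    generalize ((u.count false : ℕ) : ℝ) = b at *
    rw [← h4] at b2
    have e : b = (1 + al) * ((a + b) * al) - a := by linear_combination (-(a + b)) * k1
    nlinarith [b1.1, b1.2, b2.1, b2.2]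
  · have h4 : (3 : ℝ) + u.count false = v.count true + 6 := by exact_mod_cast h3
    generalize ((u.count false : ℕ) : ℝ) = b at *
    have h5 : ((v.count true : ℕ) : ℝ) = b - 3 := by linarith
    rw [h5] at b2
    have e : b = (1 + al) * ((a + b) * al) - a := by linear_combination (-(a + b)) * k1
    nlinarith [b1.1, b1.2, b2.1, b2.2]

/-! ### The grammar -/

abbrev TT := Option Bool
abbrev NN := Bool ⊕ (Bool × Fin 9)
abbrev Sy := Symbol TT NN

def tm (w : List Bool) : List Sy := (w.map some).map Symbol.terminal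

def ruleSet : Set (ContextFreeRule TT NN) :=
  {⟨.inl false, [.nonterminal (.inl true)]⟩,
   ⟨.inl false, [.nonterminal (.inr (false, 7)), .terminal none, .nonterminal (.inr (true, 7))]⟩} ∪
  Set.range (fun a : Bool =>
    ⟨.inl true, [.terminal (some a), .nonterminal (.inl true), .terminal (some a)]⟩) ∪
  Set.range (fun a : Bool =>
    ⟨.inl true, [.terminal (some a), .terminal none, .terminal (some a)]⟩) ∪
  Set.range (fun s : Bool => ⟨.inr (s, 8), []⟩) ∪
  (fun x : Fin 9 × Option Bool × Fin 9 × Option Bool =>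
    ⟨.inr (false, x.1), tm x.2.1.toList ++ [.nonterminal (.inr (false, x.2.2.1))] ++
      tm x.2.2.2.toList⟩) '' {x | RR x.1 x.2.1 x.2.2.1 x.2.2.2} ∪
  (fun x : Fin 9 × Option Bool × Fin 9 × Option Bool =>
    ⟨.inr (true, x.1), tm x.2.2.2.toList ++ [.nonterminal (.inr (true, x.2.2.1))] ++
      tm x.2.1.toList⟩) '' {x | RR x.1 x.2.1 x.2.2.1 x.2.2.2}

lemma ruleSet_finite : ruleSet.Finite := by
  unfold ruleSet
  refine ((((((Set.toFinite _).union (Set.finite_range _)).union (Set.finite_range _)).union
    (Set.finite_range _)).union ((Set.toFinite _).image _)).union ((Set.toFinite _).image _))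

@[reducible] noncomputable def gg : ContextFreeGrammar TT := ⟨NN, .inl false, ruleSet_finite.toFinset⟩

def Pal : Language TT := {w | ∃ u : List Bool, u ≠ [] ∧ w = u.map some ++ [none] ++ u.reverse.map some}

def sem : NN → Language TT
  | .inl false => {w | w ∈ Pal ∨ ∃ u v : List Bool, Lin 7 u ∧ Lin 7 v ∧
      w = u.map some ++ [none] ++ v.reverse.map some}
  | .inl true => Pal
  | .inr (false, q) => {w | ∃ u : List Bool, Lin q u ∧ w = u.map some}
  | .inr (true, q) => {w | ∃ u : List Bool, Lin q u ∧ w = u.reverse.map some}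

def symSem : Sy → Language TT
  | .terminal t => {[t]}
  | .nonterminal A => sem A

def lsem (α : List Sy) : Language TT := (α.map symSem).prod

lemma lsem_append (α β : List Sy) : lsem (α ++ β) = lsem α * lsem β := by simp [lsem]

lemma lsem_term (w : List TT) : lsem (w.map Symbol.terminal) = {w} := by
  induction w with
  | nil => simp [lsem, Language.one_def]; rfl
  | cons a w ih =>
    have : lsem ((a :: w).map Symbol.terminal) = {[a]} * lsem (w.map Symbol.terminal) := by
      simp [lsem, symSem]
    rw [this, ih]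
    ext x
    rw [Language.mem_mul]
    constructor
    · rintro ⟨_, rfl, _, rfl, rfl⟩; rfl
    · rintro rfl; exact ⟨_, rfl, _, rfl, rfl⟩

lemma lsem_nt (A : NN) : lsem [.nonterminal A] = sem A := by simp [lsem, symSem]

lemma lsem_three {a b : List TT} {β : List Sy} {w : List TT}
    (h : w ∈ lsem (a.map Symbol.terminal ++ β ++ b.map Symbol.terminal)) :
    ∃ x ∈ lsem β, w = a ++ x ++ b := by
  rw [lsem_append, lsem_append, lsem_term, lsem_term] at h
  obtain ⟨_, ⟨_, rfl, x, hx, rfl⟩, _, rfl, rfl⟩ := h
  exact ⟨x, hx, rfl⟩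

lemma optrev (l : Option Bool) : l.toList.reverse = l.toList := by cases l <;> simp

lemma rule_sound {r : ContextFreeRule TT NN} (hr : r ∈ ruleSet) : lsem r.output ≤ sem r.input := by
  intro w hw
  rcases hr with ((((((rfl | rfl) | ⟨a, rfl⟩) | ⟨a, rfl⟩) | ⟨s, rfl⟩) | ⟨⟨q, l, q', r⟩, hR, rfl⟩) |
    ⟨⟨q, l, q', r⟩, hR, rfl⟩)
  · rw [lsem_nt] at hw
    exact Or.inl hw
  · have : lsem [.nonterminal (.inr (false, 7)), .terminal none, .nonterminal (.inr (true, 7))]
        = sem (.inr (false, 7)) * ({[none]} * sem (.inr (true, 7))) := by simp [lsem, symSem]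
    simp only [this] at hw
    obtain ⟨_, ⟨u, hu, rfl⟩, _, ⟨_, rfl, _, ⟨v, hv, rfl⟩, rfl⟩, rfl⟩ := hw
    exact Or.inr ⟨u, v, hu, hv, by simp⟩
  · obtain ⟨x, hx, rfl⟩ := lsem_three (a := [some a]) (b := [some a])
      (β := [.nonterminal (.inl true)]) hw
    rw [lsem_nt] at hx
    obtain ⟨u, hu, rfl⟩ := hx
    exact ⟨a :: u, by simp, by simp⟩
  · have := lsem_term [some a, none, some a]
    simp only [List.map] at this
    simp only [this] at hw
    obtain rfl : w = [some a, none, some a] := hw
    exact ⟨[a], by simp, by simp⟩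
  · have : w = [] := hw
    subst this
    cases s
    · exact ⟨[], Lin.fin, rfl⟩
    · exact ⟨[], Lin.fin, rfl⟩
  · obtain ⟨x, hx, rfl⟩ := lsem_three hw
    rw [lsem_nt] at hx
    obtain ⟨u, hu, rfl⟩ := hx
    exact ⟨_, Lin.step hR hu, by simp⟩
  · obtain ⟨x, hx, rfl⟩ := lsem_three hw
    rw [lsem_nt] at hx
    obtain ⟨u, hu, rfl⟩ := hx
    exact ⟨_, Lin.step hR hu, by simp [optrev]⟩

lemma derives_sound {α β : List Sy} (h : gg.Derives α β) : lsem β ≤ lsem α := by
  induction h with
  | refl => exact le_rfl
  | tail _ last ih =>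
    refine le_trans ?_ ih
    obtain ⟨r, hr, hrw⟩ := last
    obtain ⟨p, q, rfl, rfl⟩ := hrw.exists_parts
    have hr' : r ∈ ruleSet := ruleSet_finite.mem_toFinset.mp hr
    have := rule_sound hr'
    rw [lsem_append, lsem_append, lsem_append, lsem_append, lsem_nt]
    rintro _ ⟨_, ⟨a, ha, b, hb, rfl⟩, c, hc, rfl⟩
    exact ⟨_, ⟨a, ha, b, this hb, rfl⟩, c, hc, rfl⟩

lemma rule_step {A : NN} {β : List Sy} (h : (⟨A, β⟩ : ContextFreeRule TT NN) ∈ ruleSet) :
    gg.Derives [.nonterminal A] β :=
  ContextFreeGrammar.Produces.single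
    ⟨⟨A, β⟩, ruleSet_finite.mem_toFinset.mpr h, ContextFreeRule.Rewrites.input_output⟩

lemma tm_append (a b : List Bool) : tm (a ++ b) = tm a ++ tm b := by simp [tm]

lemma lin_derives {q : Fin 9} {u : List Bool} (h : Lin q u) :
    gg.Derives [.nonterminal (.inr (false, q))] (tm u) ∧
      gg.Derives [.nonterminal (.inr (true, q))] (tm u.reverse) := by
  induction h with
  | fin =>
    exact ⟨rule_step (Or.inl (Or.inl (Or.inr ⟨false, rfl⟩))),
      rule_step (Or.inl (Or.inl (Or.inr ⟨true, rfl⟩)))⟩
  | @step q l q' r w hR _ ih =>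
    constructor
    · refine (rule_step (Or.inl (Or.inr ⟨(q, l, q', r), hR, rfl⟩))).trans ?_
      rw [tm_append, tm_append]
      exact (ih.1.append_left _).append_right _
    · refine (rule_step (Or.inr ⟨(q, l, q', r), hR, rfl⟩)).trans ?_
      rw [List.reverse_append, List.reverse_append, optrev, optrev, ← List.append_assoc,
        tm_append, tm_append]
      exact (ih.2.append_left _).append_right _

lemma pal_derives (u : List Bool) (hu : u ≠ []) :
    gg.Derives [.nonterminal (.inl true)] (tm u ++ [.terminal none] ++ tm u.reverse) := by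
  induction u with
  | nil => exact absurd rfl hu
  | cons a u ih =>
    by_cases h : u = []
    · subst h
      exact rule_step (Or.inl (Or.inl (Or.inl (Or.inr ⟨a, rfl⟩))))
    · refine (rule_step (Or.inl (Or.inl (Or.inl (Or.inl (Or.inr ⟨a, rfl⟩)))))).trans ?_
      have := ((ih h).append_left [.terminal (some a)]).append_right [.terminal (some a)]
      simpa [tm] using this

lemma gg_language : gg.language = sem (.inl false) := by
  ext w
  rw [ContextFreeGrammar.mem_language_iff]
  constructor
  · intro h
    have := derives_sound h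
    rw [lsem_term] at this
    have h2 := this (show w ∈ ({w} : Language TT) from rfl)
    exact (lsem_nt (.inl false)) ▸ h2
  · rintro (⟨u, hu, rfl⟩ | ⟨u, v, hu, hv, rfl⟩)
    · refine (rule_step (Or.inl (Or.inl (Or.inl (Or.inl (Or.inl (Or.inl rfl))))))).trans ?_
      simpa [tm] using pal_derives u hu
    · refine (rule_step (Or.inl (Or.inl (Or.inl (Or.inl (Or.inl (Or.inr rfl))))))).trans ?_
      have h1 := (lin_derives hu).1.append_right
        [.terminal none, .nonterminal (.inr (true, 7))]
      have h2 := (lin_derives hv).2.append_left (tm u ++ [.terminal none])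
      refine ContextFreeGrammar.Derives.trans h1 ?_
      simpa [tm] using h2

/-! ### The semigroup -/

abbrev NE := {l : List Bool // l ≠ []}

instance : Semigroup NE where
  mul a b := ⟨a.1 ++ b.1, by simp [a.2]⟩
  mul_assoc a b c := Subtype.ext (List.append_assoc _ _ _)

lemma NE_mul (a b : NE) : (a * b).1 = a.1 ++ b.1 := rfl

def cc : Con NE where
  r a b := a = b ∨ (Lin 7 a.1 ∧ Lin 7 b.1)
  iseqv := ⟨fun _ => Or.inl rfl, fun h => h.imp Eq.symm And.symm, by
    rintro a b c (rfl | h) (rfl | h')
    · exact Or.inl rfl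
    · exact Or.inr h'
    · exact Or.inr h
    · exact Or.inr ⟨h.1, h'.2⟩⟩
  mul' := by
    rintro a b c d (rfl | h) (rfl | h')
    · exact Or.inl rfl
    · exact Or.inr ⟨lin_left _ h'.1, lin_left _ h'.2⟩
    · exact Or.inr ⟨lin_right _ h.1, lin_right _ h.2⟩
    · exact Or.inr ⟨lin_left _ h'.1, lin_left _ h'.2⟩

def mk (a : NE) : cc.Quotient := (a : cc.Quotient)

lemma mk_mul (a b : NE) : mk (a * b) = mk a * mk b := rfl

lemma mk_eq {a b : NE} : mk a = mk b ↔ a = b ∨ (Lin 7 a.1 ∧ Lin 7 b.1) := Con.eq cc

lemma mk_surj (x : cc.Quotient) : ∃ a, mk a = x := Quotient.exists_rep x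

def ff (a : Bool) : cc.Quotient := mk ⟨[a], by simp⟩

lemma prod_eq (u : List Bool) (hu : u ≠ []) :
    (u.map (fun a => ((ff a : cc.Quotient) : WithOne cc.Quotient))).prod = (mk ⟨u, hu⟩ : cc.Quotient) := by
  induction u with
  | nil => exact absurd rfl hu
  | cons a u ih =>
    by_cases h : u = []
    · subst h; simp [ff]
    · rw [List.map_cons, List.prod_cons, ih h, ← WithOne.coe_mul, ff, ← mk_mul]
      rfl

lemma lin_ne {u : List Bool} (h : Lin 7 u) : u ≠ [] := by
  rintro rfl
  exact seg_good 0 h


/-- There is an infinite semigroup, every element generating a finite subsemigroup, with a finite generating set for which the language of words u#reverse(v), u and v nonempty and equal in the semigroup, is context-free. -/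
theorem result :
    ∃ (S : Type) (_ : Semigroup S) (α : Type) (_ : Fintype α) (f : α → S),
      Infinite S ∧
      (∀ x : S, (Subsemigroup.closure ({x} : Set S) : Set S).Finite) ∧
      Subsemigroup.closure (Set.range f) = ⊤ ∧
      Language.IsContextFree
        ({w : List (Option α) | ∃ u v : List α, u ≠ [] ∧ v ≠ [] ∧
            (u.map (fun a => ((f a : S) : WithOne S))).prod =
              (v.map (fun a => ((f a : S) : WithOne S))).prod ∧
            w = u.map some ++ [none] ++ v.reverse.map some} : Language (Option α)) := by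
  refine ⟨cc.Quotient, inferInstance, Bool, inferInstance, ff, ?_, ?_, ?_, gg, ?_⟩
  · refine Infinite.of_injective (fun n : ℕ => mk ⟨seg 0 (n + 1), by
      rw [← List.length_pos_iff, seg_length]; omega⟩) ?_
    intro a b h
    rcases mk_eq.mp h with h | h
    · have := congrArg (fun x : NE => x.1.length) h
      simpa [seg_length] using this
    · exact absurd h.1 (seg_good _)
  · intro x
    obtain ⟨⟨w, hw⟩, rfl⟩ := mk_surj x
    obtain ⟨K, hK, hbad⟩ := rep_bad w hw
    have hne : ∀ k, rep (k + 1) w ≠ [] := fun k => by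
      rw [← List.length_pos_iff, rep_length]
      exact Nat.mul_pos (by omega) (List.length_pos_iff.mpr hw)
    let F : ℕ → cc.Quotient := fun k => mk ⟨rep (k + 1) w, hne k⟩
    refine ((Set.finite_Iic K).image F).subset ?_
    intro y hy
    induction hy using Subsemigroup.closure_induction with
    | mem y hy =>
      obtain rfl : y = mk ⟨w, hw⟩ := hy
      exact ⟨0, by simp, by simp [F, rep]⟩
    | mul y z _ _ hy hz =>
      obtain ⟨i, hi, rfl⟩ := hy
      obtain ⟨j, hj, rfl⟩ := hz
      have e : F i * F j = F (i + j + 1) := by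
        simp only [F, ← mk_mul]
        congr 1
        apply Subtype.ext
        rw [NE_mul, ← rep_add]
        congr 1
        ring
      rw [e]
      by_cases h : i + j + 1 ≤ K
      · exact ⟨_, h, rfl⟩
      · exact ⟨K, by simp, mk_eq.mpr (Or.inr ⟨hbad _ (by omega), hbad _ (by omega)⟩)⟩
  · rw [eq_top_iff]
    intro x _
    obtain ⟨⟨w, hw⟩, rfl⟩ := mk_surj x
    induction w with
    | nil => exact absurd rfl hw
    | cons a w ih =>
      by_cases h : w = []
      · subst h; exact Subsemigroup.subset_closure ⟨a, rfl⟩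
      · exact Subsemigroup.mul_mem _ (Subsemigroup.subset_closure (s := Set.range ff) ⟨a, rfl⟩)
          (ih h trivial)
  · rw [gg_language]
    ext w
    constructor
    · rintro (⟨u, hu, rfl⟩ | ⟨u, v, hu, hv, rfl⟩)
      · exact ⟨u, u, hu, hu, rfl, rfl⟩
      · refine ⟨u, v, lin_ne hu, lin_ne hv, ?_, rfl⟩
        rw [prod_eq u (lin_ne hu), prod_eq v (lin_ne hv), WithOne.coe_inj, mk_eq]
        exact Or.inr ⟨hu, hv⟩
    · rintro ⟨u, v, hu, hv, h, rfl⟩
      rw [prod_eq u hu, prod_eq v hv, WithOne.coe_inj, mk_eq] at h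
      rcases h with h | h
      · obtain rfl : u = v := congrArg Subtype.val h
        exact Or.inl ⟨u, hu, rfl⟩
      · exact Or.inr ⟨u, v, h.1, h.2, rfl⟩

end Pool.Agent.S02397
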