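import Pool.Statements.S02419
import Pool.Agent.H19.Chain

set_option autoImplicit false
open scoped Pointwise
open Pool Pool.MP_9865ab_al

namespace Pool.Agent.S02419

open Cardinal Ordinal Pool.Agent.H19.Chain

lemma packing {G : Type} (φ : G → Finset G) (hφ : ∀ y, (φ y).Nonempty) :
    ∃ Y : Set G, Y.PairwiseDisjoint φ ∧ ∀ g, ∃ y ∈ Y, ∃ a, a ∈ φ g ∧ a ∈ φ y := by
  obtain ⟨Y, hY⟩ := zorn_subset {Y : Set G | Y.PairwiseDisjoint φ} (fun c hc hch =>
    ⟨⋃₀ c, (hch.pairwiseDisjoint_sUnion φ).mpr fun s hs => hc hs,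
      fun s hs => Set.subset_sUnion_of_mem hs⟩)
  refine ⟨Y, hY.prop, fun g => ?_⟩
  by_contra hcon
  push Not at hcon
  have h1 : (insert g Y).PairwiseDisjoint φ :=
    hY.prop.insert fun y hy _ => Finset.disjoint_left.mpr (hcon y hy)
  have h2 : g ∈ Y := hY.le_of_ge h1 (Set.subset_insert _ _) (Set.mem_insert _ _)
  obtain ⟨a, ha⟩ := hφ g
  exact hcon g h2 a ha ha

lemma countable_case (G : Type) [Group G] [Infinite G] : ∃ χ : G → ℕ, ∀ n,
    (∃ F : Set G, F.Finite ∧ ∀ g, ∃ f ∈ F, ∃ a, χ a = n ∧ g = f * a) ∧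
    (∃ F : Set G, F.Finite ∧ ∀ g, ∃ f ∈ F, ∃ a, χ a = n ∧ g = a * f) := by
  classical
  choose T hT using fun m : ℕ => Infinite.exists_subset_card_eq G (2 ^ (m + 1))
  let φ : ℕ → G → Finset G := fun m y =>
    if m % 2 = 0 then (T m).image (· * y) else (T m).image (y * ·)
  have hcard : ∀ m y, (φ m y).card = 2 ^ (m + 1) := fun m y => by
    simp only [φ]
    split_ifs
    · rw [Finset.card_image_of_injective _ (mul_left_injective y), hT]
    · rw [Finset.card_image_of_injective _ (mul_right_injective y), hT]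
  choose Y hY1 hY2 using fun m => packing (φ m)
    (fun y => Finset.card_pos.mp (by rw [hcard]; positivity))
  let ι := {x : ℕ × G // x.2 ∈ Y x.1}
  let t : ι → Finset G := fun x => φ x.1.1 x.1.2
  obtain ⟨r, hr1, hr2⟩ := (Finset.all_card_le_biUnion_card_iff_exists_injective t).mp (by
    intro s
    have h1 : ∀ m, ((s.filter (fun x => x.1.1 = m)).card : ℝ) ≤
        (s.biUnion t).card / 2 / 2 ^ m := fun m => by
      have h2 : ((s.filter (fun x => x.1.1 = m)).biUnion t).card ≤ (s.biUnion t).card :=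
        Finset.card_le_card (Finset.biUnion_subset_biUnion_of_subset_left _ (Finset.filter_subset _ _))
      rw [Finset.card_biUnion, Finset.sum_congr rfl (g := fun _ => 2 ^ (m + 1))] at h2
      · rw [Finset.sum_const, _root_.smul_eq_mul] at h2
        rw [div_div, le_div_iff₀ (by positivity), ← pow_succ']
        exact_mod_cast h2
      · intro x hx
        rw [hcard, (Finset.mem_filter.mp hx).2]
      · rintro ⟨⟨m1, y1⟩, h11⟩ hx ⟨⟨m2, y2⟩, h22⟩ hy hxy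
        obtain rfl : m1 = m := (Finset.mem_filter.mp hx).2
        obtain rfl : m2 = m1 := (Finset.mem_filter.mp hy).2
        exact hY1 m2 h11 h22 fun h => hxy (by subst h; rfl)
    have h3 := Finset.card_eq_sum_card_image (fun x : ι => x.1.1) s
    have h4 : (s.card : ℝ) ≤ (s.biUnion t).card := by
      rw [h3]
      push_cast
      refine (Finset.sum_le_sum fun m _ => h1 m).trans ?_
      refine ((summable_geometric_two' _).sum_le_tsum _ fun m _ => by positivity).trans ?_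
      rw [tsum_geometric_two']
    exact_mod_cast h4)
  refine ⟨Function.extend r (fun x => x.1.1 / 2) 0, fun n => ⟨?_, ?_⟩⟩
  · refine ⟨(((T (2 * n))⁻¹ * T (2 * n) * (T (2 * n))⁻¹ : Finset G) : Set G),
      Finset.finite_toSet _, fun g => ?_⟩
    obtain ⟨y, hy, a, ha1, ha2⟩ := hY2 (2 * n) g
    have ha3 := hr2 ⟨(2 * n, y), hy⟩
    simp only [t, φ, Nat.mul_mod_right, if_true, Finset.mem_image] at ha1 ha2 ha3
    obtain ⟨t1, h1, rfl⟩ := ha1
    obtain ⟨t2, h2, e2⟩ := ha2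
    obtain ⟨t3, h3, e3⟩ := ha3
    refine ⟨t1⁻¹ * t2 * t3⁻¹, Finset.mem_coe.mpr (Finset.mul_mem_mul
      (Finset.mul_mem_mul (Finset.inv_mem_inv h1) h2) (Finset.inv_mem_inv h3)),
      r ⟨(2 * n, y), hy⟩, ?_, ?_⟩
    · rw [hr1.extend_apply]; simp
    · rw [← e3, mul_assoc, inv_mul_cancel_left, mul_assoc, e2, inv_mul_cancel_left]
  · refine ⟨(((T (2 * n + 1))⁻¹ * T (2 * n + 1) * (T (2 * n + 1))⁻¹ : Finset G) : Set G),
      Finset.finite_toSet _, fun g => ?_⟩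
    obtain ⟨y, hy, a, ha1, ha2⟩ := hY2 (2 * n + 1) g
    have ha3 := hr2 ⟨(2 * n + 1, y), hy⟩
    have hodd : ¬ ((2 * n + 1) % 2 = 0) := by omega
    simp only [t, φ, hodd, if_false, Finset.mem_image] at ha1 ha2 ha3
    obtain ⟨t1, h1, rfl⟩ := ha1
    obtain ⟨t2, h2, e2⟩ := ha2
    obtain ⟨t3, h3, e3⟩ := ha3
    refine ⟨t3⁻¹ * t2 * t1⁻¹, Finset.mem_coe.mpr (Finset.mul_mem_mul
      (Finset.mul_mem_mul (Finset.inv_mem_inv h3) h2) (Finset.inv_mem_inv h1)),
      r ⟨(2 * n + 1, y), hy⟩, ?_, ?_⟩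
    · rw [hr1.extend_apply]; simp only; omega
    · rw [← e3, ← mul_assoc, ← mul_assoc, mul_inv_cancel_right, e2, mul_inv_cancel_right]

lemma assemble {G I : Type} [Group G] (κ : Cardinal.{0}) (χ : G → I) (hI : #I = κ)
    (h : ∀ i, (∃ F : Set G, #F < κ ∧ ∀ g, ∃ f ∈ F, ∃ a, χ a = i ∧ g = f * a) ∧
      (∃ F : Set G, #F < κ ∧ ∀ g, ∃ f ∈ F, ∃ a, χ a = i ∧ g = a * f)) :
    ∃ P : Set (Set G), Setoid.IsPartition P ∧ Cardinal.mk P = κ ∧ ∀ A ∈ P,
      (∃ F : Set G, Cardinal.mk F < κ ∧ F * A = Set.univ) ∧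
      (∃ F : Set G, Cardinal.mk F < κ ∧ A * F = Set.univ) := by
  have hs : ∀ i, ∃ a, χ a = i := fun i => by
    obtain ⟨F, -, hF⟩ := (h i).1
    obtain ⟨-, -, a, ha, -⟩ := hF 1
    exact ⟨a, ha⟩
  refine ⟨Set.range (fun i => χ ⁻¹' {i}), ⟨?_, fun a => ?_⟩, ?_, ?_⟩
  · rintro ⟨i, hi⟩
    obtain ⟨a, ha⟩ := hs i
    have : a ∈ χ ⁻¹' {i} := ha
    simp only at hi
    rw [hi] at this
    exact this
  · refine ⟨χ ⁻¹' {χ a}, ⟨⟨_, rfl⟩, rfl⟩, ?_⟩
    rintro _ ⟨⟨i, rfl⟩, hi⟩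
    have : χ a = i := hi
    rw [this]
  · rw [mk_range_eq _ fun i j hij => ?_, hI]
    obtain ⟨a, ha⟩ := hs i
    have h1 : a ∈ χ ⁻¹' {i} := ha
    have h2 : a ∈ χ ⁻¹' {j} := hij ▸ h1
    exact ha.symm.trans h2
  · rintro _ ⟨i, rfl⟩
    obtain ⟨⟨F, h1, h2⟩, ⟨F', h3, h4⟩⟩ := h i
    refine ⟨⟨F, h1, Set.eq_univ_of_forall fun g => ?_⟩, ⟨F', h3, Set.eq_univ_of_forall fun g => ?_⟩⟩
    · obtain ⟨f, hf, a, ha, rfl⟩ := h2 g
      exact Set.mul_mem_mul hf ha
    · obtain ⟨f, hf, a, ha, rfl⟩ := h4 g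
      exact Set.mul_mem_mul ha hf


/-- For every infinite group G and infinite cardinal κ ≤ ∣G∣, G splits into exactly κ nonempty disjoint cells, each with G = FA and G = AF for some sets F of size less than κ. -/
theorem result : ∀ (G : Type) [Group G], Infinite G → ∀ κ : Cardinal.{0}, Cardinal.aleph0 ≤ κ → κ ≤ Cardinal.mk G → ∃ P : Set (Set G), Setoid.IsPartition P ∧ Cardinal.mk P = κ ∧ ∀ A ∈ P, (∃ F : Set G, Cardinal.mk F < κ ∧ F * A = Set.univ) ∧ (∃ F : Set G, Cardinal.mk F < κ ∧ A * F = Set.univ) := by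
  intro G _ hG κ hκ0 hκ
  classical
  obtain ⟨χ0, hχ0⟩ := countable_case G
  rcases hκ0.eq_or_lt with h0 | h0
  · subst h0
    refine assemble _ χ0 mk_nat fun n => ?_
    obtain ⟨⟨F, h1, h2⟩, ⟨F', h3, h4⟩⟩ := hχ0 n
    exact ⟨⟨F, h1.lt_aleph0, h2⟩, ⟨F', h3.lt_aleph0, h4⟩⟩
  obtain ⟨FL, hL1, hL2⟩ := (hχ0 0).1
  obtain ⟨FR, hR1, hR2⟩ := (hχ0 1).2
  obtain ⟨τ, hinj, -, hc⟩ := exists_tau G
  set K := FL ∪ FR with hK
  have hKc : #K < κ := (hL1.union hR1).lt_aleph0.trans h0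
  have hK0 : ∀ f ∈ K, ∀ α, f ∈ H K τ α := fun f hf α => Subgroup.subset_closure (Or.inl hf)
  have hord : κ.ord ≤ (#G).ord := ord_le_ord.mpr hκ
  let J : Set G := {g | τ g < κ.ord ∧ g ∉ H K τ (τ g)}
  have hJ : #J = κ := by
    apply le_antisymm
    · have : #J ≤ #{g | τ g < κ.ord} := mk_le_mk_of_subset fun g hg => hg.1
      rwa [hc _ hord, card_ord] at this
    · have h1 : ∀ α, ∀ g, τ g = α → τ g < κ.ord → g ∈ Subgroup.closure (K ∪ J) := by
        intro α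
        induction α using WellFoundedLT.induction with
        | _ α ih =>
          rintro g rfl hg
          by_cases h : g ∈ H K τ (τ g)
          · refine (Subgroup.closure_le _).mpr ?_ h
            rintro x (hx | hx)
            · exact Subgroup.subset_closure (Or.inl hx)
            · exact ih _ hx x rfl (lt_trans hx hg)
          · exact Subgroup.subset_closure (Or.inr ⟨hg, h⟩)
      have h2 : #{g | τ g < κ.ord} ≤ #(Subgroup.closure (K ∪ J)) :=
        mk_le_mk_of_subset (t := (Subgroup.closure (K ∪ J) : Set G)) fun g hg => h1 _ g rfl hg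
      rw [hc _ hord, card_ord] at h2
      have h3 := h2.trans ((card_closure_le _).trans (max_le_max le_rfl (mk_union_le _ _)))
      by_contra hcon
      exact absurd h3 (not_le.mpr (max_lt h0 (add_lt_of_lt hκ0 hKc (not_le.mp hcon))))
  have hne : Nonempty J := mk_ne_zero_iff.mp (by rw [hJ]; exact (aleph0_pos.trans h0).ne')
  let c : Ordinal.{0} → J := Function.invFun (fun i : J => τ i)
  have hcτ : ∀ i : J, c (τ i) = i :=
    Function.leftInverse_invFun (f := fun i : J => τ i) (hinj.comp Subtype.val_injective)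
  refine assemble κ (fun g => if χ0 g = 0 then c (col K τ g⁻¹) else c (col K τ g)) hJ fun i => ?_
  have hlim := isSuccLimit_ord hκ0
  have hi1 : τ i + 1 < κ.ord := hlim.add_one_lt i.2.1
  have hF : #(H K τ (τ i + 1)) < κ := (card_H_le K τ _).trans_lt (max_lt h0
    (add_lt_of_lt hκ0 hKc (by rw [hc _ (hi1.le.trans hord)]; exact lt_ord.mp hi1)))
  have hz1 : (i : G) ∈ H K τ (τ i + 1) := mem_H_of_lt K τ (Order.lt_add_one_iff.mpr le_rfl)
  refine ⟨⟨H K τ (τ i + 1), hF, fun g => ?_⟩, ⟨H K τ (τ i + 1), hF, fun g => ?_⟩⟩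
  · obtain ⟨u, hu, -, hcol⟩ := col_large K τ hz1 i.2.2 g⁻¹
    obtain ⟨f, hf, v, hv, e⟩ := hL2 (u⁻¹ * g)
    refine ⟨u * f, mul_mem hu (hK0 f (Or.inl hf) _), v, ?_, by rw [mul_assoc, ← e]; simp⟩
    have e2 : v⁻¹ = g⁻¹ * u * f := by
      rw [show g⁻¹ * u = (u⁻¹ * g)⁻¹ by simp, e]; simp
    simp only [hv, if_true]
    rw [e2, col_mul K τ (hK0 f (Or.inl hf) 0), hcol, hcτ]
  · obtain ⟨u, hu, -, hcol⟩ := col_large K τ hz1 i.2.2 g
    obtain ⟨f, hf, v, hv, e⟩ := hR2 (g * u)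
    refine ⟨f * u⁻¹, mul_mem (hK0 f (Or.inr hf) _) (inv_mem hu), v, ?_,
      by rw [← mul_assoc, ← e]; simp⟩
    have e2 : v = g * u * f⁻¹ := by rw [e]; simp
    simp only [hv, one_ne_zero, if_false]
    rw [e2, col_mul K τ (inv_mem (hK0 f (Or.inr hf) 0)), hcol, hcτ]

end Pool.Agent.S02419
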