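import Pool.Statements.S02438
import Pool.Agent.H19.NilRep

set_option autoImplicit false
open Pool Pool.MP_99e35a_al

namespace Pool.Agent.S02438

open Pool.Agent.H19.NilRep in
theorem aux0 {K : Type} [Field K] [CharZero K] {lam : Fin 3 → K} (V : Type) [AddCommGroup V]
    [Module K V] [Module (FA K) V] [IsScalarTower K (FA K) V] [IsSimpleModule (FA K) V]
    (hZ : Algebra.lsmul K K V (ZZ lam) ≠ 0)
    (nil : ∀ a ∈ BB (K := K), IsNilpotent (Algebra.lsmul K K V a))
    (H : ∀ (G : Type) [Group G] (ρ : Representation K G V),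
      Nontrivial V →
      (∀ W : Submodule K V, (∀ g : G, ∀ v ∈ W, ρ g v ∈ W) → W = ⊥ ∨ W = ⊤) →
      (∀ g : G, ∀ v : V, ∃ n : ℕ, ((ρ g - 1) ^ n) v = 0) →
      ∀ g : G, ρ g = 1) : False := by
  set A : FA K →ₐ[K] Module.End K V := Algebra.lsmul K K V with hA
  let G : Subgroup (Module.End K V)ˣ :=
    { carrier := {g | ∃ a ∈ BB, g.1 = 1 + A a}
      one_mem' := ⟨0, zero_mem _, by simp⟩
      mul_mem' := by
        rintro g h ⟨a, ha, e⟩ ⟨b, hb, e'⟩
        refine ⟨a + b + a * b, add_mem (add_mem ha hb) (BB_mul ha hb), ?_⟩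
        rw [Units.val_mul, e, e', map_add, map_add, map_mul]
        noncomm_ring
      inv_mem' := by
        rintro g ⟨a, ha, e⟩
        have h1 : (1 + A a) * (g⁻¹).1 = 1 := by rw [← e]; simp
        have key : ∀ k : ℕ, ∃ c ∈ BB, (g⁻¹).1 - 1 = A c + A (-a) ^ k * ((g⁻¹).1 - 1) := by
          intro k
          induction k with
          | zero => exact ⟨0, zero_mem _, by simp⟩
          | succ k ih =>
            obtain ⟨c, hc, e2⟩ := ih
            refine ⟨-a + -a * c, add_mem (neg_mem ha) (BB_mul (neg_mem ha) hc), ?_⟩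
            rw [pow_succ', mul_assoc, map_add, map_mul, add_assoc, ← mul_add, ← e2, map_neg]
            rw [add_mul, one_mul] at h1
            rw [mul_sub, neg_mul, neg_mul, mul_one, eq_sub_of_add_eq' h1]
            abel
        obtain ⟨n, hn⟩ := nil _ (neg_mem ha)
        obtain ⟨c, hc, e2⟩ := key n
        rw [hn, zero_mul, add_zero] at e2
        exact ⟨c, hc, by rw [← e2]; abel⟩ }
  have gen : ∀ i, ∃ g : G, g.1.1 = 1 + A (FreeAlgebra.ι K i) := by
    intro i
    have hi : FreeAlgebra.ι K i ∈ BB (K := K) :=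
      Submodule.subset_span ⟨[i], by simp, by simp [word]⟩
    obtain ⟨u, hu⟩ := (nil _ hi).isUnit_one_add
    exact ⟨⟨u, _, hi, hu⟩, hu⟩
  have triv := H G ((Units.coeHom _).comp G.subtype)
    (IsSimpleModule.nontrivial (FA K) _) ?_ ?_
  · apply hZ
    rw [ZZ, map_sum]
    refine Finset.sum_eq_zero fun i _ => ?_
    obtain ⟨g, hg⟩ := gen i
    have : g.1.1 = 1 := triv g
    rw [map_smul, add_eq_left.1 (hg.symm.trans this), smul_zero]
  · intro W hW
    have inv : ∀ r : FA K, ∀ v ∈ W, A r v ∈ W := by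
      intro r
      induction r using FreeAlgebra.induction with
      | grade0 c => intro v hv; rw [AlgHom.commutes]; exact W.smul_mem c hv
      | grade1 i =>
        intro v hv
        obtain ⟨g, hg⟩ := gen i
        have h1 : g.1.1 v ∈ W := hW g v hv
        rw [hg] at h1
        simpa using sub_mem h1 hv
      | mul a b ha hb => intro v hv; rw [map_mul]; exact ha _ (hb v hv)
      | add a b ha hb => intro v hv; rw [map_add]; exact add_mem (ha v hv) (hb v hv)
    let W' : Submodule (FA K) V :=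
      { toAddSubmonoid := W.toAddSubmonoid, smul_mem' := fun r v hv => inv r v hv }
    rcases eq_bot_or_eq_top W' with h | h
    · exact Or.inl (eq_bot_iff.2 fun v hv => (h.le (show v ∈ W' from hv) :))
    · exact Or.inr (eq_top_iff.2 fun v _ => (h.ge (Submodule.mem_top (x := v)) :))
  · rintro ⟨g, a, ha, e⟩ v
    obtain ⟨n, hn⟩ := nil a ha
    refine ⟨n, ?_⟩
    have : ((Units.coeHom _).comp G.subtype) ⟨g, a, ha, e⟩ - 1 = A a := by
      show g.1 - 1 = _
      rw [e]; abel
    rw [this, hn]; rfl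

open Pool.Agent.H19.NilRep in
theorem aux {K : Type} [Field K] [CharZero K] {lam : Fin 3 → K} (hl : Ind lam) (h0 : lam 0 ≠ 0)
    (H : ∀ (G : Type) [Group G]
      (V : Type) [AddCommGroup V] [Module K V] (ρ : Representation K G V),
      Nontrivial V →
      (∀ W : Submodule K V, (∀ g : G, ∀ v ∈ W, ρ g v ∈ W) → W = ⊥ ∨ W = ⊤) →
      (∀ g : G, ∀ v : V, ∃ n : ℕ, ((ρ g - 1) ^ n) v = 0) →
      ∀ g : G, ρ g = 1) : False := by
  obtain ⟨I, hI, hZ, hN⟩ := ideal hl h0
  obtain ⟨m, hm, hle⟩ := Ideal.exists_le_maximal I hI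
  have hs : IsSimpleModule (FA K) (FA K ⧸ m) := isSimpleModule_iff_isCoatom.2 hm.out
  have hA : ∀ a t : FA K, Algebra.lsmul K K (FA K ⧸ m) a (Submodule.Quotient.mk t) =
    Submodule.Quotient.mk (a * t) := fun a t => rfl
  refine aux0 (lam := lam) (FA K ⧸ m) (fun h1 => ?_) (fun a ha => ?_) fun G _ => H G _
  · have h2 := hA (ZZ lam) 1
    rw [h1, mul_one] at h2
    have h3 := add_mem (hle hZ) ((Submodule.Quotient.mk_eq_zero _).1 h2.symm)
    rw [sub_add_cancel] at h3
    exact hm.ne_top ((Ideal.eq_top_iff_one _).2 h3)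
  · obtain ⟨n, hn⟩ := hN a ha
    refine ⟨n, LinearMap.ext fun v => ?_⟩
    obtain ⟨t, rfl⟩ := Submodule.Quotient.mk_surjective _ v
    rw [← map_pow, hA]
    exact (Submodule.Quotient.mk_eq_zero _).2 (hle (hn t))

/-- The negation of the preceding statement: For any group G and char-0 field k, any nonzero k-representation V with no invariant subspaces besides 0 and V, in which each g−1 is nilpotent on each vector, has G acting as the identity. -/
theorem result :
    ¬ (∀ (k : Type) [Field k] [CharZero k] (G : Type) [Group G]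
      (V : Type) [AddCommGroup V] [Module k V] (ρ : Representation k G V),
      Nontrivial V →
      (∀ W : Submodule k V, (∀ g : G, ∀ v ∈ W, ρ g v ∈ W) → W = ⊥ ∨ W = ⊤) →
      (∀ g : G, ∀ v : V, ∃ n : ℕ, ((ρ g - 1) ^ n) v = 0) →
      ∀ g : G, ρ g = 1) := by
  intro h
  exact aux Pool.Agent.H19.NilRep.lamK_li (by simp [Pool.Agent.H19.NilRep.lamK])
    (h Pool.Agent.H19.NilRep.KK)

end Pool.Agent.S02438
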