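import Pool.Statements.S02443
import Pool.Agent.H21.Rev2

set_option autoImplicit false
open Pool Pool.MP_9aaefc_al

namespace Pool.Agent.S02443

/-- For every n, if an invertible formal map F in n variables over ℂ satisfies F∘H∘F = H for some invertible formal map H, then some formal map K of finite compositional order also satisfies F∘K∘F = K. -/
theorem result :
    ∀ (n : ℕ) (F H : Fin n → MvPowerSeries (Fin n) ℂ),
      (∀ i, F i 0 = 0) →
      (∃ G : Fin n → MvPowerSeries (Fin n) ℂ, (∀ i, G i 0 = 0) ∧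
          (∀ i, MvPowerSeries.subst G (F i) = MvPowerSeries.X i) ∧
          (∀ i, MvPowerSeries.subst F (G i) = MvPowerSeries.X i)) →
      (∀ i, H i 0 = 0) →
      (∃ G : Fin n → MvPowerSeries (Fin n) ℂ, (∀ i, G i 0 = 0) ∧
          (∀ i, MvPowerSeries.subst G (H i) = MvPowerSeries.X i) ∧
          (∀ i, MvPowerSeries.subst H (G i) = MvPowerSeries.X i)) →
      (∀ i, MvPowerSeries.subst (fun j => MvPowerSeries.subst F (H j)) (F i) = H i) →
      ∃ K : Fin n → MvPowerSeries (Fin n) ℂ, (∀ i, K i 0 = 0) ∧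
        (∃ k : ℕ, 1 ≤ k ∧
          (fun M : Fin n → MvPowerSeries (Fin n) ℂ => fun i => MvPowerSeries.subst M (K i))^[k]
              (fun i => MvPowerSeries.X i) = (fun i => MvPowerSeries.X i)) ∧
        (∀ i, MvPowerSeries.subst (fun j => MvPowerSeries.subst F (K j)) (F i) = K i) := by
  rintro n F H hF ⟨G, hG, f1, f2⟩ hH ⟨G', hG', g1, -⟩ h
  classical
  have hs {M : Fin n → MvPowerSeries (Fin n) ℂ} (h : ∀ i, M i 0 = 0) : MvPowerSeries.HasSubst M :=
    MvPowerSeries.hasSubst_of_constantCoeff_zero h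
  have sp (s : Finset (Fin n)) : ∀ g : MvPowerSeries (Fin n) ℂ, (∀ d : Fin n →₀ ℕ, (∀ j ∈ s, d j = 0) →
      MvPowerSeries.coeff d g = 0) → g ∈ Ideal.span (Set.range MvPowerSeries.X) := by
    induction s using Finset.induction_on with
    | empty => intro g hg; rw [show g = 0 from MvPowerSeries.ext fun d => hg d (by simp)]; exact zero_mem _
    | insert i s _ ih =>
      intro g hg
      let u : MvPowerSeries (Fin n) ℂ := fun d => if d i = 0 then g d else 0
      have hu (d) : MvPowerSeries.coeff d u = if d i = 0 then MvPowerSeries.coeff d g else 0 := rfl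
      obtain ⟨w, hw⟩ := (MvPowerSeries.X_dvd_iff (s := i) (φ := g - u)).2 fun d hd => by simp [hu, hd]
      rw [eq_add_of_sub_eq hw]
      refine add_mem (Ideal.mul_mem_right _ _ (Ideal.subset_span ⟨i, rfl⟩)) (ih u fun d hd => ?_)
      rw [hu]; split_ifs with e
      exacts [hg d (by simpa [e] using hd), rfl]
  have mem (g : MvPowerSeries (Fin n) ℂ) : g ∈ Ideal.span (Set.range MvPowerSeries.X) ↔ g 0 = 0 :=
    ⟨fun hg => (Ideal.span_le (I := RingHom.ker MvPowerSeries.constantCoeff)).2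
      (by rintro _ ⟨i, rfl⟩; simp) hg, fun hg => sp Finset.univ g fun d hd => by
        rwa [show d = 0 from Finsupp.ext fun j => hd j (Finset.mem_univ _)]⟩
  have cc {M N : Fin n → MvPowerSeries (Fin n) ℂ} (hM : ∀ i, M i 0 = 0) (hN : ∀ i, N i 0 = 0)
      (g : MvPowerSeries (Fin n) ℂ) : MvPowerSeries.subst N (MvPowerSeries.subst M g) =
        MvPowerSeries.subst (fun i => MvPowerSeries.subst N (M i)) g :=
    MvPowerSeries.subst_comp_subst_apply (hs hM) (hs hN) g
  have c0 {M N : Fin n → MvPowerSeries (Fin n) ℂ} (hM : ∀ i, M i 0 = 0) (hN : ∀ i, N i 0 = 0) (i) :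
      MvPowerSeries.subst N (M i) 0 = 0 := MvPowerSeries.constantCoeff_subst_eq_zero (hs hN) hN (hM i)
  have sX {M : Fin n → MvPowerSeries (Fin n) ℂ} (hM : ∀ i, M i 0 = 0) (i) :
      MvPowerSeries.substAlgHom (R := ℂ) (hs hM) (MvPowerSeries.X i) ∈ Ideal.span (Set.range MvPowerSeries.X) := by
    rw [MvPowerSeries.substAlgHom_X]; exact (mem _).2 (hM i)
  have inv {M N : Fin n → MvPowerSeries (Fin n) ℂ} (hM : ∀ i, M i 0 = 0) (hN : ∀ i, N i 0 = 0)
      (e : ∀ i, MvPowerSeries.subst N (M i) = MvPowerSeries.X i) (g : MvPowerSeries (Fin n) ℂ) :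
      MvPowerSeries.substAlgHom (hs hN) (MvPowerSeries.substAlgHom (hs hM) g) = g := by
    simp only [MvPowerSeries.substAlgHom_apply, cc hM hN, e]; exact congr($MvPowerSeries.subst_self g)
  obtain ⟨K, hK, hΦ⟩ := H21.Rev.main (x := MvPowerSeries.X) rfl
    (fun g => ⟨g 0, (mem _).2 (sub_eq_zero.2 (MvPowerSeries.coeff_zero_C (σ := Fin n) (g 0)).symm)⟩)
    (sX hF) (sX hG) (sX hH) (sX hG') (inv hG hF f2) (inv hF hG f1) (inv hH hG' g1) fun g => by
      simp only [MvPowerSeries.substAlgHom_apply]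
      rw [cc hH hF, cc hF (c0 hH hF)]; simp only [h]
  replace hK := fun i => (mem _).1 (hK i)
  obtain ⟨⟨N, hN, h1⟩, h2⟩ := hΦ (MvPowerSeries.substAlgHom (hs hK)) (MvPowerSeries.substAlgHom_X _)
  refine ⟨K, hK, ⟨N, hN, ?_⟩, fun i => ?_⟩
  · have (j : ℕ) : (∀ i, (fun M : Fin n → MvPowerSeries (Fin n) ℂ => fun i => MvPowerSeries.subst M (K i))^[j]
        (fun i => MvPowerSeries.X i) i 0 = 0) ∧ ∀ g, MvPowerSeries.subst ((fun M : Fin n → MvPowerSeries (Fin n) ℂ =>
          fun i => MvPowerSeries.subst M (K i))^[j] (fun i => MvPowerSeries.X i)) g =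
          (MvPowerSeries.substAlgHom (R := ℂ) (hs hK))^[j] g := by
      induction j with
      | zero => exact ⟨fun i => MvPowerSeries.constantCoeff_X i, fun g => congr($MvPowerSeries.subst_self g)⟩
      | succ j ih =>
        rw [Function.iterate_succ_apply']
        exact ⟨c0 hK ih.1, fun g => by
          rw [← cc hK ih.1, ih.2, Function.iterate_succ_apply, MvPowerSeries.substAlgHom_apply]⟩
    funext i
    rw [← h1 (MvPowerSeries.X i), ← (this N).2, MvPowerSeries.subst_X (hs (this N).1)]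
  · have := h2 (MvPowerSeries.X i)
    simp only [MvPowerSeries.substAlgHom_apply, MvPowerSeries.subst_X (hs hF), MvPowerSeries.subst_X (hs hK)] at this
    rwa [cc hK hF] at this

end Pool.Agent.S02443
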