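import Pool.Statements.S02454
import Pool.Agent.H20.Retreat
import Pool.Agent.H20.Baum

set_option autoImplicit false
open Pool Pool.MP_9b0338_al

namespace Pool.Agent.S02454

open Pool.Agent.H20

theorem result :
    ¬ (∀ (G : Type) [Group G],
      (∃ n : ℕ, ∃ f : FreeGroup (Fin n) →* G, Function.Surjective f ∧
        ∃ r : Finset (FreeGroup (Fin n)), f.ker = Subgroup.normalClosure (r : Set (FreeGroup (Fin n)))) →
      ∀ S T : Finset G,
        Subgroup.closure (S : Set G) = ⊤ →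
        Subgroup.closure (T : Set G) = ⊤ →
        ((∃ D : ℕ, ∀ g : G, ∀ R : ℕ, ∃ h : G,
            R ≤ (SimpleGraph.fromRel (fun a b : G => a⁻¹ * b ∈ S)).dist 1 h ∧
            ∃ p : (SimpleGraph.fromRel (fun a b : G => a⁻¹ * b ∈ S)).Walk g h,
              ∀ v ∈ p.support,
                (SimpleGraph.fromRel (fun a b : G => a⁻¹ * b ∈ S)).dist 1 g ≤
                  (SimpleGraph.fromRel (fun a b : G => a⁻¹ * b ∈ S)).dist 1 v + D) ↔
         (∃ D : ℕ, ∀ g : G, ∀ R : ℕ, ∃ h : G,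
            R ≤ (SimpleGraph.fromRel (fun a b : G => a⁻¹ * b ∈ T)).dist 1 h ∧
            ∃ p : (SimpleGraph.fromRel (fun a b : G => a⁻¹ * b ∈ T)).Walk g h,
              ∀ v ∈ p.support,
                (SimpleGraph.fromRel (fun a b : G => a⁻¹ * b ∈ T)).dist 1 g ≤
                  (SimpleGraph.fromRel (fun a b : G => a⁻¹ * b ∈ T)).dist 1 v + D))) := by
  intro h
  have hfp : Group.IsFinitelyPresented (Baum.G × Baum.G) := Retreat.fp_prod Baum.S_fin Baum.S_top
  obtain ⟨n, f, h1, r, h2, h3⟩ := hfp.out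
  have f1 : (Retreat.perp Baum.S).Finite :=
    (Baum.S_fin.prod (Set.toFinite _)).union ((Set.toFinite _).prod Baum.S_fin)
  have f2 : (Baum.S ×ˢ Baum.S).Finite := Baum.S_fin.prod Baum.S_fin
  have := h (Baum.G × Baum.G) ⟨n, f, h1, h2.toFinset, by simp [h3]⟩ f1.toFinset f2.toFinset
    (by simpa using Retreat.perp_top Baum.S_symm Baum.S_top Baum.S_one)
    (by simpa using Retreat.vee_top Baum.S_symm Baum.S_top Baum.S_one)
  have e1 : (fun a b : Baum.G × Baum.G => a⁻¹ * b ∈ f1.toFinset) =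
      fun a b => a⁻¹ * b ∈ Retreat.perp Baum.S := by simp
  have e2 : (fun a b : Baum.G × Baum.G => a⁻¹ * b ∈ f2.toFinset) =
      fun a b => a⁻¹ * b ∈ Baum.S ×ˢ Baum.S := by simp only [Set.Finite.mem_toFinset]
  rw [e1, e2] at this
  exact Retreat.perp_unbdd Baum.S_symm Baum.S_top Baum.S_one Baum.pocket
    (this.mpr (Retreat.vee_bdd Baum.S_symm Baum.S_top Baum.S_one Baum.far))

end Pool.Agent.S02454
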