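import Pool.Statements.S02470
import Pool.Agent.H22.LatF

set_option autoImplicit false
open Pool Pool.MP_9bf990_al

namespace Pool.Agent.S02470

/-- The negation of the preceding statement: There exists a nonempty, isomorphism-closed, quotient- and subdirect-product-closed, Frattini-saturated class F of finite groups that is not subgroup-closed, such that in every finite group the F-subnormal subgroups (maximal chains from G with each step containing the F-residual) are closed under ⊓ -/
theorem result :
    ¬ (∃ F : (G : Type) → [Group G] → Prop,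
      (∀ (G : Type) [Group G], F G → Finite G) ∧
      (∀ (G H : Type) [Group G] [Group H], Nonempty (G ≃* H) → F G → F H) ∧
      F Unit ∧
      (∀ (G : Type) [Group G] [Finite G] (N : Subgroup G) [N.Normal], F G → F (G ⧸ N)) ∧
      (∀ (G : Type) [Group G] [Finite G] (N₁ N₂ : Subgroup G) [N₁.Normal] [N₂.Normal],
          F (G ⧸ N₁) → F (G ⧸ N₂) → F (G ⧸ (N₁ ⊓ N₂))) ∧
      (∀ (G : Type) [Group G] [Finite G], F (G ⧸ frattini G) → F G) ∧
      ¬ (∀ (G : Type) [Group G] [Finite G], F G → ∀ H : Subgroup G, F H) ∧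
      (∀ (G : Type) [Group G] [Finite G] (T : Set (Subgroup G)),
        T = {H : Subgroup G | ∀ S : Set (Subgroup G), ⊤ ∈ S →
              (∀ K ∈ S, ∀ L : Subgroup G, L < K →
                (∀ M : Subgroup G, L ≤ M → M ≤ K → M = L ∨ M = K) →
                (∃ N : Subgroup K, ∃ _ : N.Normal, F (K ⧸ N) ∧ N ≤ L.subgroupOf K) →
                L ∈ S) →
              H ∈ S} →
        ∀ A ∈ T, ∀ B ∈ T, A ⊓ B ∈ T ∧ A ⊔ B ∈ T)) := by
  rintro ⟨F, h1, h2, -, h4, h5, h6, h7, h8⟩
  have hF : H22.FormLat.IsForm F := by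
    refine ⟨h1, h2, fun G _ N _ h => ?_, fun G _ _ N L _ _ e a b => ?_⟩
    · have := h1 G h
      exact h4 G N h
    · exact h2 _ _ ⟨(QuotientGroup.quotientMulEquivOfEq e).trans QuotientGroup.quotientBot⟩
        (h5 G N L a b)
  refine h7 fun G _ _ hG K => H22.GLS.hered hF h6 (fun G _ _ A B a b => ?_) hG K
  refine h8 G {H | H22.GLS.Sn F H} (Set.ext fun H => ⟨fun h S s1 s2 => ?_, fun h =>
    h {H | H22.GLS.Sn F H} H22.GLS.Sn.top fun K k L u v w => H22.GLS.Sn.step K L k u v w⟩) A a B b
  induction h with
  | top => exact s1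
  | step K L _ u v w ih => exact s2 K ih L u v w

end Pool.Agent.S02470
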