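import Pool.Statements.S02504

set_option autoImplicit false
open Pool Pool.MP_9f8f27_al
open Polynomial
open scoped Pointwise

namespace Pool.Agent.S02504

instance : Fact (Nat.Prime 2) := ⟨Nat.prime_two⟩

abbrev F (m : ℕ) := GaloisField 2 (m + 1)
abbrev Y (m : ℕ) := (F m)ˣ × F m
abbrev P := (m : ℕ) → Equiv.Perm (Y m)

noncomputable def a : P := fun _ =>
  ⟨fun x => (x.1, x.2 + 1), fun x => (x.1, x.2 - 1), fun x => by simp, fun x => by simp⟩
noncomputable def b : P := fun _ =>
  ⟨fun x => (x.1, x.1 * x.2), fun x => (x.1, x.1⁻¹ * x.2), fun x => by simp, fun x => by simp⟩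

def Inv (n : ℕ) (g : P) : Prop := ∃ (u : ℕ) (f : (ZMod 2)[X]), u ≤ 2 * n ∧ f.natDegree ≤ 2 * n ∧
  ∀ m (x : Y m), (g m x).1 = x.1 ∧
    (x.1 : F m) ^ n * (g m x).2 = (x.1 : F m) ^ u * x.2 + aeval (x.1 : F m) f

theorem inv_step (n : ℕ) (g s : P) (hs : s = a ∨ s = b ∨ s = a⁻¹ ∨ s = b⁻¹) (h : Inv n g) :
    Inv (n + 1) (s * g) := by
  obtain ⟨u, f, hu, hf, h⟩ := h
  rcases hs with rfl | rfl | rfl | rfl
  · refine ⟨u + 1, X * f + X ^ (n + 1), by omega, ?_, fun m x => ⟨(h m x).1, ?_⟩⟩
    · refine (natDegree_add_le _ _).trans (max_le (natDegree_mul_le.trans ?_) ?_)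
      · simp; omega
      · simp
    · have := (h m x).2
      show _ * ((g m x).2 + 1) = _
      simp only [map_add, map_mul, map_pow, aeval_X]
      linear_combination (x.1 : F m) * this
  · refine ⟨u + 2, X * (X * f), by omega, ?_, fun m x => ⟨(h m x).1, ?_⟩⟩
    · have h1 : (X * f).natDegree ≤ _ := natDegree_mul_le
      have h2 : (X * (X * f)).natDegree ≤ _ := natDegree_mul_le
      simp only [natDegree_X] at h1 h2
      omega
    · have := (h m x).2
      show _ * (((g m x).1 : F m) * (g m x).2) = _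
      simp only [map_mul, aeval_X, (h m x).1]
      linear_combination (x.1 : F m) ^ 2 * this
  · refine ⟨u + 1, X * f - X ^ (n + 1), by omega, ?_, fun m x => ⟨(h m x).1, ?_⟩⟩
    · refine (natDegree_sub_le _ _).trans (max_le (natDegree_mul_le.trans ?_) ?_)
      · simp; omega
      · simp
    · have := (h m x).2
      show _ * ((g m x).2 - 1) = _
      simp only [map_sub, map_mul, map_pow, aeval_X]
      linear_combination (x.1 : F m) * this
  · refine ⟨u, f, by omega, by omega, fun m x => ⟨(h m x).1, ?_⟩⟩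
    have := (h m x).2
    show _ * ((((g m x).1⁻¹ : (F m)ˣ) : F m) * (g m x).2) = _
    rw [(h m x).1, ← this, pow_succ, mul_assoc, Units.mul_inv_cancel_left]

theorem inv_list (l : List P) (hl : ∀ s ∈ l, s = a ∨ s = b ∨ s = a⁻¹ ∨ s = b⁻¹) :
    Inv l.length l.prod := by
  induction l with
  | nil => exact ⟨0, 0, by simp, by simp, fun m x => by simp⟩
  | cons s l ih =>
    rw [List.prod_cons, List.length_cons]
    exact inv_step _ _ _ (hl s (by simp)) (ih fun t ht => hl t (by simp [ht]))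

noncomputable instance (m : ℕ) : Fintype (F m) := Fintype.ofFinite _
noncomputable instance (m : ℕ) : DecidableEq (F m) := Classical.decEq _

theorem cardF (m : ℕ) : Fintype.card (F m) = 2 ^ (m + 1) := by
  rw [← Nat.card_eq_fintype_card]; exact GaloisField.card 2 (m + 1) (by omega)

theorem roots (m : ℕ) (h : (ZMod 2)[X]) (h0 : h ≠ 0) :
    (Finset.univ.filter fun ξ : (F m)ˣ => aeval (ξ : F m) h = 0).card ≤ h.natDegree := by
  have h1 := Polynomial.card_roots' (h.map (algebraMap (ZMod 2) (F m)))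
  rw [natDegree_map] at h1
  refine le_trans ?_ ((Multiset.toFinset_card_le _).trans h1)
  refine Finset.card_le_card_of_injOn (fun ξ => (ξ : F m)) ?_ (fun x _ y _ h => Units.ext h)
  intro ξ hξ
  simp only [Finset.coe_filter, Finset.mem_univ, true_and, Set.mem_ofPred_eq] at hξ
  simp only [Multiset.mem_toFinset, Finset.mem_coe]
  rw [mem_roots (Polynomial.map_ne_zero h0), IsRoot, eval_map_algebraMap]
  exact hξ

theorem fix_bound (n : ℕ) (g : P) (hg : g ≠ 1) (h : Inv n g) (m : ℕ) :
    (Finset.univ.filter fun x : Y m => g m x = x).card ≤ (2 * n + 1) * 2 ^ (m + 1) := by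
  obtain ⟨u, f, hu, hf, h⟩ := h
  obtain ⟨r, hr0, hr, hfix⟩ : ∃ r : (ZMod 2)[X], r ≠ 0 ∧ r.natDegree ≤ 2 * n ∧ ∀ x : Y m, g m x = x →
      aeval (x.1 : F m) r = 0 ∨ x.2 = aeval (x.1 : F m) f / aeval (x.1 : F m) r := by
    by_cases hun : u = n
    · refine ⟨f, ?_, hf, fun x hx => Or.inl ?_⟩
      · rintro rfl
        apply hg
        funext k
        refine Equiv.ext fun x => Prod.ext (h k x).1 ?_
        have := (h k x).2
        rw [hun] at this
        simpa using this
      · have := (h m x).2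
        rw [hx, hun] at this
        simpa using this
    · refine ⟨X ^ n - X ^ u, ?_, ?_, fun x hx => ?_⟩
      · intro h0
        have := congrArg natDegree (sub_eq_zero.mp h0)
        simp at this
        exact hun this.symm
      · refine (natDegree_sub_le _ _).trans (max_le ?_ ?_) <;> simp <;> omega
      · have := (h m x).2
        rw [hx] at this
        by_cases h0 : aeval (x.1 : F m) (X ^ n - X ^ u : (ZMod 2)[X]) = 0
        · exact Or.inl h0
        · right
          rw [eq_div_iff h0]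
          simp only [map_sub, map_pow, aeval_X]
          linear_combination this
  have h1 : (Finset.univ.filter fun x : Y m => g m x = x) ⊆
      ((Finset.univ.filter fun ξ : (F m)ˣ => aeval (ξ : F m) r = 0) ×ˢ Finset.univ) ∪
      (Finset.univ.image fun ξ : (F m)ˣ => (ξ, aeval (ξ : F m) f / aeval (ξ : F m) r)) := by
    intro x hx
    simp only [Finset.mem_filter, Finset.mem_univ, true_and] at hx
    rcases hfix x hx with h2 | h2
    · exact Finset.mem_union_left _ (by simp [h2])
    · exact Finset.mem_union_right _ (Finset.mem_image.mpr ⟨x.1, by simp, Prod.ext rfl h2.symm⟩)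
  refine (Finset.card_le_card h1).trans ((Finset.card_union_le _ _).trans ?_)
  have h2 := Finset.card_image_le (s := Finset.univ)
    (f := fun ξ : (F m)ˣ => (ξ, aeval (ξ : F m) f / aeval (ξ : F m) r))
  rw [Finset.card_product]
  simp only [Finset.card_univ, Fintype.card_units, cardF] at h2 ⊢
  have h3 := Nat.mul_le_mul_right (2 ^ (m + 1)) ((roots m r hr0).trans hr)
  rw [add_mul]
  omega

noncomputable def G : Subgroup P := Subgroup.closure {a, b}
noncomputable def a' : G := ⟨a, Subgroup.subset_closure (by simp)⟩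
noncomputable def b' : G := ⟨b, Subgroup.subset_closure (by simp)⟩
noncomputable instance : DecidableEq G := Classical.decEq _
noncomputable def S : Finset G := {a', b'}

theorem gen : Subgroup.closure (S : Set G) = ⊤ := by
  have := Subgroup.closure_closure_coe_preimage (k := ({a, b} : Set P))
  refine Eq.trans ?_ this
  congr 1
  ext x
  simp [S, a', b', Subtype.ext_iff]
  rfl

theorem inv_ball (l : List G) (hl : ∀ x ∈ l, x ∈ S ∨ x⁻¹ ∈ S) : Inv l.length (l.prod : G) := by
  have := inv_list (l.map G.subtype) (by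
    intro s hs
    obtain ⟨x, hx, rfl⟩ := List.mem_map.mp hs
    rcases hl x hx with h | h <;> simp only [S, Finset.mem_insert, Finset.mem_singleton] at h
    · rcases h with rfl | rfl
      · exact Or.inl rfl
      · exact Or.inr (Or.inl rfl)
    · rcases h with h | h <;> rw [inv_eq_iff_eq_inv] at h <;> subst h
      · exact Or.inr (Or.inr (Or.inl rfl))
      · exact Or.inr (Or.inr (Or.inr rfl)))
  rwa [List.length_map, ← map_list_prod] at this

theorem approx (n : ℕ) : ∃ d : ℕ, 0 < d ∧ d ≤ 4 * (n * (2 * n + 1) + 1) ^ 2 ∧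
    ∃ φ : G → Equiv.Perm (Fin d),
        φ 1 = 1 ∧
        (∀ g h : G,
          (∃ l : List G, l.length ≤ n ∧ (∀ x ∈ l, x ∈ S ∨ x⁻¹ ∈ S) ∧ l.prod = g) →
          (∃ l : List G, l.length ≤ n ∧ (∀ x ∈ l, x ∈ S ∨ x⁻¹ ∈ S) ∧ l.prod = h) →
          ((Finset.univ.filter (fun i : Fin d => φ (g * h) i ≠ (φ g * φ h) i)).card : ℝ)
              / (d : ℝ) ≤ 1 / (n : ℝ)) ∧
        (∀ g : G,
          (∃ l : List G, l.length ≤ n ∧ (∀ x ∈ l, x ∈ S ∨ x⁻¹ ∈ S) ∧ l.prod = g) →
          g ≠ 1 →
          1 - 1 / (n : ℝ) ≤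
            ((Finset.univ.filter (fun i : Fin d => φ g i ≠ i)).card : ℝ) / (d : ℝ)) := by
  obtain ⟨N, hN⟩ : ∃ N, N = n * (2 * n + 1) + 1 := ⟨_, rfl⟩
  obtain ⟨m, hm1, hm2⟩ : ∃ m, 2 ^ m ≤ N ∧ N < 2 ^ (m + 1) :=
    ⟨Nat.log 2 N, Nat.pow_log_le_self 2 (by omega), Nat.lt_pow_succ_log_self (by norm_num) N⟩
  obtain ⟨q, hq⟩ : ∃ q, q + 1 = 2 ^ (m + 1) := ⟨2 ^ (m + 1) - 1, by omega⟩
  have hd : Fintype.card (Y m) = q * (q + 1) := by
    rw [Fintype.card_prod, Fintype.card_units, cardF, ← hq]; simp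
  have hqN : N ≤ q := by omega
  have hq0 : 0 < q := by omega
  let e : Y m ≃ Fin (q * (q + 1)) := Fintype.equivFinOfCardEq hd
  refine ⟨q * (q + 1), by positivity, ?_, fun g => e.permCongr (g.1 m), ?_, ?_, ?_⟩
  · rw [← hN]
    have : q + 1 ≤ 2 * N := by rw [hq, pow_succ]; omega
    nlinarith
  · ext x; simp
  · intro g h _ _
    have : (Finset.univ.filter (fun i : Fin (q * (q + 1)) =>
        e.permCongr ((g * h).1 m) i ≠ (e.permCongr (g.1 m) * e.permCongr (h.1 m)) i)) = ∅ := by
      simp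
    rw [this]
    simp
  · rintro g ⟨l, hl, hS, rfl⟩ hg
    have hn : 0 < n := by
      rcases l with _ | ⟨x, l⟩
      · exact absurd rfl hg
      · simp at hl; omega
    have h1 := fix_bound _ _ (fun h => hg (Subtype.ext h)) (inv_ball l hS) m
    have h2 : (Finset.univ.filter fun x : Y m => (l.prod : G).1 m x = x).card =
        (Finset.univ.filter (fun i : Fin (q * (q + 1)) => e.permCongr (l.prod.1 m) i = i)).card := by
      refine Finset.card_bijective e e.bijective fun x => ?_
      simp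
    have h3 := Finset.card_filter_add_card_filter_not (s := Finset.univ)
      (fun i : Fin (q * (q + 1)) => e.permCongr (l.prod.1 m) i = i)
    rw [← h2, Finset.card_univ, Fintype.card_fin] at h3
    simp only [ne_eq]
    generalize (Finset.univ.filter fun x : Y m => (l.prod : G).1 m x = x).card = A at *
    generalize (Finset.univ.filter
      (fun i : Fin (q * (q + 1)) => ¬ e.permCongr (l.prod.1 m) i = i)).card = B at *
    have h4 : n * A ≤ q * (q + 1) := by
      rw [← hq] at h1
      calc n * A ≤ n * ((2 * n + 1) * (q + 1)) :=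
            Nat.mul_le_mul_left _ (h1.trans (Nat.mul_le_mul_right _ (by omega)))
        _ = (n * (2 * n + 1)) * (q + 1) := by ring
        _ ≤ q * (q + 1) := Nat.mul_le_mul_right _ (by omega)
    generalize q * (q + 1) = d at *
    have hd0 : 0 < d := by rw [← hd]; exact Fintype.card_pos
    have h5 : (A : ℝ) + B = d := by exact_mod_cast h3
    have h6 : (n : ℝ) * A ≤ d := by exact_mod_cast h4
    have h7 : (0 : ℝ) < n := by exact_mod_cast hn
    have h8 : (0 : ℝ) < d := by exact_mod_cast hd0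
    rw [le_div_iff₀ h8, sub_mul, one_mul, div_mul_eq_mul_div, one_mul, sub_le_comm, le_div_iff₀ h7]
    nlinarith

noncomputable def W : List Bool → List G
  | [] => []
  | c :: l => if c then a' :: b' :: W l else b' :: W l

noncomputable def Q : List Bool → (ZMod 2)[X]
  | [] => 0
  | c :: l => C (if c then 1 else 0) + X * Q l

theorem W_len (l : List Bool) : (W l).length ≤ 2 * l.length := by
  induction l with
  | nil => simp [W]
  | cons c l ih => cases c <;> simp [W] <;> omega

theorem W_mem (l : List Bool) : ∀ x ∈ W l, x ∈ S ∨ x⁻¹ ∈ S := by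
  induction l with
  | nil => simp [W]
  | cons c l ih =>
    intro x hx
    cases c <;> simp [W] at hx
    · rcases hx with rfl | hx
      · simp [S]
      · exact ih x hx
    · rcases hx with rfl | rfl | hx
      · simp [S]
      · simp [S]
      · exact ih x hx

theorem W_val (l : List Bool) (m : ℕ) (ξ : (F m)ˣ) :
    (W l).prod.1 m (ξ, 0) = (ξ, aeval (ξ : F m) (Q l)) := by
  induction l with
  | nil => simp [W, Q]
  | cons c l ih =>
    cases c
    · simp only [W, Q, Bool.false_eq_true, if_false, List.prod_cons, Subgroup.coe_mul, Pi.mul_apply,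
        Equiv.Perm.mul_apply, ih]
      simp [b', b]
    · simp only [W, Q, if_true, List.prod_cons, Subgroup.coe_mul, Pi.mul_apply,
        Equiv.Perm.mul_apply, ih]
      simp [b', b, a', a, add_comm]

theorem Q_deg (l : List Bool) : (Q l).natDegree ≤ l.length := by
  induction l with
  | nil => simp [Q]
  | cons c l ih =>
    refine (natDegree_add_le _ _).trans (max_le ?_ (natDegree_mul_le.trans ?_))
    · rw [natDegree_C]; omega
    · simp; omega

theorem Q_inj (l l' : List Bool) (h : l.length = l'.length) (hQ : Q l = Q l') : l = l' := by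
  induction l generalizing l' with
  | nil => exact (List.length_eq_zero_iff.mp h.symm).symm
  | cons c l ih =>
    rcases l' with _ | ⟨c', l'⟩
    · simp at h
    · have h0 := congrArg (fun p => coeff p 0) hQ
      simp only [Q, coeff_add, coeff_C_zero, coeff_X_mul_zero, add_zero] at h0
      have hc : c = c' := by
        cases c <;> cases c' <;> simp at h0 ⊢
      subst hc
      simp only [Q, add_right_inj] at hQ
      rw [ih l' (by simpa using h) (mul_left_cancel₀ X_ne_zero hQ)]

theorem W_inj (l l' : List Bool) (h : l.length = l'.length) (hW : (W l).prod = (W l').prod) :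
    l = l' := by
  apply Q_inj l l' h
  by_contra hne
  have h1 := roots l.length _ (sub_ne_zero.mpr hne)
  rw [Finset.filter_true_of_mem (by
    intro ξ _
    have h2 := W_val l l.length ξ
    rw [hW, W_val] at h2
    rw [map_sub, (Prod.mk.inj h2).2, sub_self])] at h1
  rw [Finset.card_univ, Fintype.card_units, cardF] at h1
  have h2 := natDegree_sub_le (Q l) (Q l')
  have h3 := Q_deg l
  have h4 := Q_deg l'
  have h5 := Nat.lt_two_pow_self (n := l.length)
  rw [pow_succ] at h1
  omega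

theorem ball_finite (n : ℕ) :
    Finite {g : G // ∃ l : List G, l.length ≤ n ∧ (∀ x ∈ l, x ∈ S ∨ x⁻¹ ∈ S) ∧ l.prod = g} := by
  have hT : (({1} ∪ ((S : Set G) ∪ (S : Set G)⁻¹)) ^ n : Set G).Finite := by
    induction n with
    | zero => simp
    | succ n ih =>
      rw [pow_succ]
      exact ih.mul ((Set.finite_singleton _).union (S.finite_toSet.union S.finite_toSet.inv))
  refine (hT.subset ?_ : Set.Finite
    {g : G | ∃ l : List G, l.length ≤ n ∧ (∀ x ∈ l, x ∈ S ∨ x⁻¹ ∈ S) ∧ l.prod = g})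
  rintro _ ⟨l, hl, hS, rfl⟩
  refine Set.pow_subset_pow_right (s := ({1} ∪ ((S : Set G) ∪ (S : Set G)⁻¹))) (Or.inl rfl) hl ?_
  clear hl hT
  induction l with
  | nil => simp
  | cons x l ih =>
    rw [List.length_cons, pow_succ', List.prod_cons]
    exact Set.mul_mem_mul (Or.inr (hS x (by simp))) (ih fun y hy => hS y (by simp [hy]))

theorem growth (k : ℕ) : 2 ^ k ≤
    Nat.card {g : G // ∃ l : List G, l.length ≤ 2 * k ∧ (∀ x ∈ l, x ∈ S ∨ x⁻¹ ∈ S) ∧ l.prod = g} := by
  haveI := ball_finite (2 * k)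
  have := Nat.card_le_card_of_injective (α := Fin k → Bool)
    (β := {g : G // ∃ l : List G, l.length ≤ 2 * k ∧ (∀ x ∈ l, x ∈ S ∨ x⁻¹ ∈ S) ∧ l.prod = g})
    (fun c => ⟨(W (List.ofFn c)).prod, W (List.ofFn c), by simpa using W_len (List.ofFn c),
      W_mem _, rfl⟩)
    (fun c c' h => List.ofFn_injective (W_inj _ _ (by simp) (congrArg Subtype.val h)))
  simpa using this

theorem result :
    ¬ (∀ (G : Type) [Group G] (S : Finset G), Subgroup.closure (S : Set G) = ⊤ →
      (∀ n : ℕ, ∃ d : ℕ, 0 < d ∧ ∃ φ : G → Equiv.Perm (Fin d),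
        φ 1 = 1 ∧
        (∀ g h : G,
          (∃ l : List G, l.length ≤ n ∧ (∀ x ∈ l, x ∈ S ∨ x⁻¹ ∈ S) ∧ l.prod = g) →
          (∃ l : List G, l.length ≤ n ∧ (∀ x ∈ l, x ∈ S ∨ x⁻¹ ∈ S) ∧ l.prod = h) →
          ((Finset.univ.filter (fun i : Fin d => φ (g * h) i ≠ (φ g * φ h) i)).card : ℝ)
              / (d : ℝ) ≤ 1 / (n : ℝ)) ∧
        (∀ g : G,
          (∃ l : List G, l.length ≤ n ∧ (∀ x ∈ l, x ∈ S ∨ x⁻¹ ∈ S) ∧ l.prod = g) →
          g ≠ 1 →
          1 - 1 / (n : ℝ) ≤
            ((Finset.univ.filter (fun i : Fin d => φ g i ≠ i)).card : ℝ) / (d : ℝ))) →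
      ∃ C : ℕ, 0 < C ∧ ∀ n d : ℕ, 0 < d →
        (∃ φ : G → Equiv.Perm (Fin d),
          φ 1 = 1 ∧
          (∀ g h : G,
            (∃ l : List G, l.length ≤ C * n ∧ (∀ x ∈ l, x ∈ S ∨ x⁻¹ ∈ S) ∧ l.prod = g) →
            (∃ l : List G, l.length ≤ C * n ∧ (∀ x ∈ l, x ∈ S ∨ x⁻¹ ∈ S) ∧ l.prod = h) →
            ((Finset.univ.filter (fun i : Fin d => φ (g * h) i ≠ (φ g * φ h) i)).card : ℝ)
                / (d : ℝ) ≤ 1 / ((C * n : ℕ) : ℝ)) ∧
          (∀ g : G,
            (∃ l : List G, l.length ≤ C * n ∧ (∀ x ∈ l, x ∈ S ∨ x⁻¹ ∈ S) ∧ l.prod = g) →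
            g ≠ 1 →
            1 - 1 / ((C * n : ℕ) : ℝ) ≤
              ((Finset.univ.filter (fun i : Fin d => φ g i ≠ i)).card : ℝ) / (d : ℝ))) →
        Nat.card {g : G // ∃ l : List G, l.length ≤ n ∧ (∀ x ∈ l, x ∈ S ∨ x⁻¹ ∈ S) ∧ l.prod = g}
          ≤ C * d) := by
  intro h
  obtain ⟨C, hC, h⟩ := h G S gen (fun n => by
    obtain ⟨d, h1, -, h2⟩ := approx n
    exact ⟨d, h1, h2⟩)
  have hlim := tendsto_pow_const_div_const_pow_of_one_lt 4 (r := 2) (by norm_num)
  have hpos : (0 : ℝ) < 1 / (1000 * C ^ 5) := by positivity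
  obtain ⟨k, hk, hk1⟩ := ((hlim.eventually (gt_mem_nhds hpos)).and (Filter.eventually_ge_atTop 1)).exists
  obtain ⟨d, h1, h2, h3⟩ := approx (C * (2 * k))
  have h4 := (growth k).trans (h (2 * k) d h1 h3)
  have h5 : 1000 * C ^ 5 * k ^ 4 < 2 ^ k := by
    rw [div_lt_div_iff₀ (by positivity) (by positivity)] at hk
    have : ((1000 * C ^ 5 * k ^ 4 : ℕ) : ℝ) < ((2 ^ k : ℕ) : ℝ) := by push_cast; linarith
    exact_mod_cast this
  obtain ⟨t, ht⟩ : ∃ t, t = C * k := ⟨_, rfl⟩
  have ht1 : 1 ≤ t := by rw [ht]; exact Nat.mul_pos hC hk1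
  have h6 : C * (2 * k) = 2 * t := by rw [ht]; ring
  rw [h6] at h2
  have h7 : 2 * t * (2 * (2 * t) + 1) + 1 ≤ 11 * t ^ 2 := by nlinarith
  have h8 : d ≤ 4 * (11 * t ^ 2) ^ 2 := h2.trans (Nat.mul_le_mul_left _ (Nat.pow_le_pow_left h7 2))
  have h9 : C * d ≤ C * (4 * (11 * t ^ 2) ^ 2) := Nat.mul_le_mul_left _ h8
  have h10 : C * (4 * (11 * t ^ 2) ^ 2) = 484 * (C ^ 5 * k ^ 4) := by rw [ht]; ring
  rw [mul_assoc] at h5
  omega

end Pool.Agent.S02504
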