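import Pool.Statements.S02538

set_option autoImplicit false
open Pool Pool.MP_a19302_al

namespace Pool.Agent.S02538

def K : Type := ℚ

instance : Field K := inferInstanceAs (Field ℚ)

abbrev W := ℕ × ℕ × ℤ → K

def x : Module.End K W := LinearMap.funLeft K K fun p => (p.1, p.2.1, p.2.2 + 1)

def y : Module.End K W where
  toFun f := fun p => if p.2.2 = p.2.1 * p.1 ∧ p.2.1 < p.1 then f (p.1, p.2.1 + 1, p.2.2) else 0
  map_add' f g := by ext p; simp only [Pi.add_apply]; split_ifs <;> simp
  map_smul' f g := by ext p; simp only [Pi.smul_apply]; split_ifs <;> simp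

theorem y_app (f : W) (m a : ℕ) (s : ℤ) :
    y f (m, a, s) = if s = a * m ∧ a < m then f (m, a + 1, s) else 0 := rfl

theorem x_pow (i : ℕ) (f : W) (m a : ℕ) (s : ℤ) : (x ^ i) f (m, a, s) = f (m, a, s + i) := by
  induction i generalizing s with
  | zero => simp
  | succ i ih =>
    rw [pow_succ', Module.End.mul_apply]
    exact (ih (s + 1)).trans (by push_cast; rw [add_assoc, add_comm 1])

theorem yxy (i : ℕ) (f : W) (m a : ℕ) (s : ℤ) (h : m ≠ i) : y ((x ^ i) (y f)) (m, a, s) = 0 := by
  rw [y_app, x_pow, y_app]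
  split_ifs with h1 h2
  · exfalso
    have := h2.1
    rw [h1.1] at this
    push_cast at this
    exact h (by exact_mod_cast (by linarith : (m : ℤ) = i))
  all_goals rfl

theorem rel (i j : ℕ) (h : i ≠ j) : y * x ^ i * y * x ^ j * y = 0 := by
  ext f ⟨m, a, s⟩
  simp only [Module.End.mul_apply, LinearMap.zero_apply, Pi.zero_apply]
  by_cases e : m = i
  · rw [y_app, x_pow, yxy _ _ _ _ _ (e ▸ h), ite_self]
  · exact yxy _ _ _ _ _ e

abbrev A := Algebra.adjoin K ({x, y} : Set (Module.End K W))

def x' : A := ⟨x, Algebra.subset_adjoin (by simp)⟩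
def y' : A := ⟨y, Algebra.subset_adjoin (by simp)⟩

theorem pres (S : Submodule K W) (hx : ∀ f ∈ S, x f ∈ S) (hy : ∀ f ∈ S, y f ∈ S) (t : A) :
    ∀ f ∈ S, t.1 f ∈ S := by
  obtain ⟨t, ht⟩ := t
  induction ht using Algebra.adjoin_induction with
  | mem z hz => rcases hz with rfl | rfl <;> assumption
  | algebraMap r => exact fun f hf => S.smul_mem r hf
  | add a b _ _ ha hb => exact fun f hf => S.add_mem (ha f hf) (hb f hf)
  | mul a b _ _ ha hb => exact fun f hf => ha _ (hb f hf)

def FF (n l : ℕ) : Submodule K W where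
  carrier := {f | ∀ a s, l ≤ a → a ≤ n → f (n, a, s) = 0}
  add_mem' hf hg a s h h' := by simp [hf a s h h', hg a s h h']
  zero_mem' _ _ _ _ := rfl
  smul_mem' c f hf a s h h' := by simp [hf a s h h']

def GG (n l : ℕ) : Submodule K W where
  carrier := {f | ∀ m a s, m ≠ n ∨ l ≤ a → f (m, a, s) = 0}
  add_mem' hf hg m a s h := by simp [hf m a s h, hg m a s h]
  zero_mem' _ _ _ _ := rfl
  smul_mem' c f hf m a s h := by simp [hf m a s h]

theorem presF (n l : ℕ) (t : A) : ∀ f ∈ FF n l, t.1 f ∈ FF n l :=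
  pres (FF n l) (fun f hf a s h h' => hf a _ h h') (fun f hf a s h h' => by
    rw [y_app]
    split_ifs with e
    · exact hf _ _ (by omega) (by omega)
    · rfl) t

theorem presG (n l : ℕ) (t : A) : ∀ f ∈ GG n l, t.1 f ∈ GG n l :=
  pres (GG n l) (fun f hf m a s h => hf m a _ h) (fun f hf m a s h => by
    rw [y_app, hf _ _ _ (by omega), ite_self]) t

def II (n : ℕ) : TwoSidedIdeal A := TwoSidedIdeal.mk'
  {t | ∀ l, ∀ f ∈ FF n (l + 1), t.1 f ∈ GG n l} (fun _ _ _ => zero_mem _)
  (fun ha hb l f hf => add_mem (ha l f hf) (hb l f hf)) (fun ha l f hf => neg_mem (ha l f hf))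
  (fun {a _} hb l f hf => presG n l a _ (hb l f hf))
  (fun {_ b} ha l f hf => ha l _ (presF n _ b f hf))

theorem II_nil (n : ℕ) (g : Fin (n + 1) → A) (hg : ∀ i, g i ∈ II n) : (List.ofFn g).prod = 0 := by
  have key : ∀ L : List A, (∀ t ∈ L, t ∈ II n) → ∀ l, L.length + l = n + 1 →
      ∀ f, L.prod.1 f ∈ FF n l := by
    intro L
    induction L with
    | nil => intro _ l hl f a s h h'; simp at hl; omega
    | cons t L ih =>
      intro h l hl f a s h1 _
      have := h t (by simp)
      rw [II, TwoSidedIdeal.mem_mk'] at this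
      exact this l _ (ih (fun t ht => h t (by simp [ht])) (l + 1) (by simp at hl; omega) f) n a s
        (Or.inr h1)
  rw [List.ofFn_succ, List.prod_cons]
  have := hg 0
  rw [II, TwoSidedIdeal.mem_mk'] at this
  ext f ⟨m, a, s⟩
  exact this 0 _ (key _ (by simp [List.mem_ofFn, hg]) 1 (by simp) f) m a s (Or.inr (by omega))

theorem II_mem (n : ℕ) : y' * x' ^ n * y' ∈ II n := by
  rw [II, TwoSidedIdeal.mem_mk']
  intro l f hf m a s h
  change y ((x' ^ n).1 (y f)) (m, a, s) = 0
  rw [SubmonoidClass.coe_pow]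
  by_cases e : m = n
  · subst e
    change y ((x ^ m) (y f)) (m, a, s) = 0
    rw [y_app, x_pow, y_app]
    split_ifs with h1 h2
    · exact hf _ _ (by omega) (by omega)
    all_goals rfl
  · exact yxy _ _ _ _ _ e

theorem nz (n j : ℕ) : ∀ a, a + j ≤ n → ((y * x ^ n) ^ j) 1 (n, a, a * n) = 1 := by
  induction j with
  | zero => intro a _; rfl
  | succ j ih =>
    intro a h
    rw [pow_succ', Module.End.mul_apply, Module.End.mul_apply, y_app, if_pos ⟨rfl, by omega⟩,
      x_pow, ← ih (a + 1) (by omega)]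
    congr 1
    push_cast
    rw [add_mul, one_mul]

noncomputable def gen (p : Bool × ℕ × ℕ × ℕ × ℕ) : A :=
  if p.1 then x' ^ p.2.1 else x' ^ p.2.1 * (y' * x' ^ p.2.2.1) ^ p.2.2.2.1 * y' * x' ^ p.2.2.2.2

open Classical Finset in
noncomputable def SS (m : ℕ) : Finset A :=
  (univ ×ˢ range (m + 1) ×ˢ range (m + 1) ×ˢ range (m + 1) ×ˢ range (m + 1)).image gen

theorem mem_SS (m : ℕ) (t : A) : t ∈ SS m ↔ ∃ c a n j b, a ≤ m ∧ n ≤ m ∧ j ≤ m ∧ b ≤ m ∧
    gen (c, a, n, j, b) = t := by
  simp [SS, Nat.lt_succ_iff, and_assoc, -Bool.exists_bool]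

theorem pow_le (m : ℕ) :
    Submodule.span K ({1, x', y'} : Set A) ^ m ≤ Submodule.span K (SS m : Set A) := by
  induction m with
  | zero =>
    rw [pow_zero, Submodule.one_le]
    exact Submodule.subset_span ((mem_SS _ _).2 ⟨true, 0, 0, 0, 0, by simp [gen]⟩)
  | succ m ih =>
    rw [pow_succ]
    refine (mul_le_mul_left ih _).trans ?_
    rw [Submodule.span_mul_span, Submodule.span_le]
    rintro _ ⟨t, ht, v, hv, rfl⟩
    obtain ⟨c, a, n, j, b, h1, h2, h3, h4, rfl⟩ := (mem_SS _ _).1 ht
    have key : ∀ c a n j b, a ≤ m + 1 → n ≤ m + 1 → j ≤ m + 1 → b ≤ m + 1 → ∀ t,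
        gen (c, a, n, j, b) = t → t ∈ Submodule.span K (SS (m + 1) : Set A) :=
      fun c a n j b h1 h2 h3 h4 t h =>
        Submodule.subset_span ((mem_SS _ _).2 ⟨c, a, n, j, b, h1, h2, h3, h4, h⟩)
    rcases hv with rfl | rfl | rfl
    · exact key c a n j b (by omega) (by omega) (by omega) (by omega) _ (mul_one _).symm
    · cases c
      · exact key false a n j (b + 1) (by omega) (by omega) (by omega) (by omega) _
          (by simp [gen, pow_succ, mul_assoc])
      · exact key true (a + 1) n j b (by omega) (by omega) (by omega) (by omega) _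
          (by simp [gen, pow_succ])
    · cases c
      · rcases j with _ | j
        · exact key false a b 1 0 (by omega) (by omega) (by omega) (by omega) _
            (by simp [gen, mul_assoc])
        by_cases e : n = b
        · exact key false a n (j + 2) 0 (by omega) (by omega) (by omega) (by omega) _
            (by simp [gen, pow_succ, mul_assoc, e])
        · have r : y' * (x' ^ n * (y' * (x' ^ b * y'))) = 0 :=
            Subtype.ext (by simpa [x', y', mul_assoc] using rel n b e)
          have : gen (false, a, n, j + 1, b) * y' = 0 := by simp [gen, pow_succ, mul_assoc, r]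
          beta_reduce
          rw [this]
          exact zero_mem _
      · exact key false a 0 0 0 (by omega) (by omega) (by omega) (by omega) _ (by simp [gen])

theorem top : Algebra.adjoin K ({x', y'} : Set A) = ⊤ := by
  refine eq_top_iff.2 ((Algebra.adjoin_adjoin_coe_preimage).ge.trans (Algebra.adjoin_mono ?_))
  rintro t (h | h)
  · exact Or.inl (Subtype.ext h)
  · exact Or.inr (Subtype.ext h)

theorem ft : Algebra.FiniteType K A := by
  classical
  exact ⟨⟨{x', y'}, by rw [Finset.coe_pair]; exact top⟩⟩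

theorem fin : ({1, x', y'} : Set A).Finite := ((Set.finite_singleton _).insert _).insert _

theorem top2 : Algebra.adjoin K (Submodule.span K ({1, x', y'} : Set A) : Set A) = ⊤ :=
  eq_top_iff.2 (top.ge.trans (Algebra.adjoin_mono
    ((Set.subset_insert _ _).trans Submodule.subset_span)))

theorem growth (n : ℕ) :
    Module.finrank K ↥(Submodule.span K ({1, x', y'} : Set A) ^ n) ≤ 2 * (n + 1) ^ 4 := by
  classical
  refine (Submodule.finrank_mono (pow_le n)).trans ((finrank_span_finset_le_card _).trans ?_)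
  refine Finset.card_image_le.trans (le_of_eq ?_)
  simp only [Finset.card_product, Finset.card_range, Finset.card_univ, Fintype.card_bool]
  ring

theorem fin2 (m : ℕ) :
    (List.ofFn fun _ : Fin m => y' * x' ^ (2 * m) * y' * x' ^ (2 * m)).prod ≠ 0 := by
  intro this
  have h2 := nz (2 * m) (2 * m) 0 (by omega)
  rw [List.ofFn_const, List.prod_replicate, mul_assoc, ← pow_two, ← pow_mul] at this
  have e : (y * x ^ (2 * m)) ^ (2 * m) = 0 := by simpa [x', y'] using congrArg Subtype.val this
  simp [e] at h2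

/-- The negation of the preceding statement: Every finitely generated associative algebra over a field with polynomially bounded growth (finite GK dimension) has a nilpotent two-sided ideal containing every nilpotent two-sided ideal. -/
theorem result :
    ¬ (∀ (k : Type) [Field k] (A : Type) [Ring A] [Algebra k A],
      Algebra.FiniteType k A →
      (∃ V : Submodule k A, FiniteDimensional k V ∧ (1 : A) ∈ V ∧
          Algebra.adjoin k (V : Set A) = ⊤ ∧
          ∃ C d : ℕ, ∀ n : ℕ, Module.finrank k ↥(V ^ n) ≤ C * (n + 1) ^ d) →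
      ∃ N : TwoSidedIdeal A,
        (∃ m : ℕ, ∀ f : Fin m → A, (∀ i, f i ∈ N) → (List.ofFn f).prod = 0) ∧
        ∀ I : TwoSidedIdeal A,
          (∃ m : ℕ, ∀ f : Fin m → A, (∀ i, f i ∈ I) → (List.ofFn f).prod = 0) → I ≤ N) := by
  intro h
  obtain ⟨N, ⟨m, hm⟩, hN⟩ := h K A ft ⟨Submodule.span K ({1, x', y'} : Set A),
    FiniteDimensional.span_of_finite K fin, Submodule.subset_span (Set.mem_insert _ _), top2, 2, 4,
    fun n => by convert growth n⟩
  exact fin2 m (hm (fun _ => y' * x' ^ (2 * m) * y' * x' ^ (2 * m)) fun _ =>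
    N.mul_mem_right _ _ (hN _ ⟨_, II_nil _⟩ (II_mem _)))

end Pool.Agent.S02538
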