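import Pool.Statements.S02542
-- import your own Pool.Agent.* helpers here

set_option autoImplicit false
open Matrix
open Pool Pool.MP_a20134_al

namespace Pool.Agent.S02542

def A : Matrix (Fin 5) (Fin 5) ℝ :=
  !![8, 5, 1, 1, 5; 5, 8, 5, 1, 1; 1, 5, 8, 5, 1; 1, 1, 5, 8, 5; 5, 1, 1, 5, 8]

/-- circulant matrix with columns `(x, x + z, z)` -/
def Bm (x y z : ℝ) : Matrix (Fin 5) (Fin 5) ℝ :=
  !![x, 0, 0, z, y; y, x, 0, 0, z; z, y, x, 0, 0; 0, z, y, x, 0; 0, 0, z, y, x]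

lemma horn (a b c d e : ℝ) (ha : 0 ≤ a) (hb : 0 ≤ b) (hc : 0 ≤ c) (hd : 0 ≤ d) (he : 0 ≤ e) :
    0 ≤ a * a + b * b + c * c + d * d + e * e - 2 * (a * b + b * c + c * d + d * e + e * a)
      + 2 * (a * c + b * d + c * e + d * a + e * b) := by
  rcases le_total d e with h | h
  · nlinarith [sq_nonneg (a - b + c + d - e), mul_nonneg hb hd, mul_nonneg hc (sub_nonneg.2 h)]
  · nlinarith [sq_nonneg (a - b + c - d + e), mul_nonneg hb he, mul_nonneg ha (sub_nonneg.2 h)]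

lemma A_fac : A = Bm ((√5 + 1) / 2) √5 ((√5 - 1) / 2) * (Bm ((√5 + 1) / 2) √5 ((√5 - 1) / 2))ᵀ := by
  have h : √5 * √5 = 5 := Real.mul_self_sqrt (by norm_num)
  ext i j
  fin_cases i <;> fin_cases j <;>
    simp [A, Bm, Matrix.mul_apply, Fin.sum_univ_five] <;> nlinarith [h]

lemma B_nonneg : ∀ i j, 0 ≤ Bm ((√5 + 1) / 2) √5 ((√5 - 1) / 2) i j := by
  have h1 : (1 : ℝ) ≤ √5 := Real.one_le_sqrt.2 (by norm_num)
  have h2 : (0 : ℝ) ≤ (√5 + 1) / 2 := by linarith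
  have h3 : (0 : ℝ) ≤ (√5 - 1) / 2 := by linarith
  intro i j
  fin_cases i <;> fin_cases j <;> simp [Bm, h2, h3]

lemma A_pd : A.PosDef := by
  refine Matrix.PosDef.of_dotProduct_mulVec_pos ?_ ?_
  · ext i j
    fin_cases i <;> fin_cases j <;> simp [A]
  · intro x hx
    have h1 : 0 < ∑ i, x i ^ 2 := by
      obtain ⟨i, hi⟩ := Function.ne_iff.1 hx
      exact Finset.sum_pos' (fun j _ => sq_nonneg _) ⟨i, Finset.mem_univ _, sq_pos_of_ne_zero hi⟩
    have h2 : star x ⬝ᵥ A *ᵥ x = (1 / 2) * ∑ i, x i ^ 2 + ((15/2) * ((1) * x 0 + (2/3) * x 1 + (2/15) * x 2 + (2/15) * x 3 + (2/3) * x 4) ^ 2 + (25/6) * ((1) * x 1 + (26/25) * x 2 + (2/25) * x 3 + (-14/25) * x 4) ^ 2 + (143/50) * ((1) * x 2 + (226/143) * x 3 + (138/143) * x 4) ^ 2 + (281/1430) * ((1) * x 3 + (226/281) * x 4) ^ 2 + (39/562) * ((1) * x 4) ^ 2) := by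
      simp [A, Matrix.mulVec, dotProduct, Fin.sum_univ_five]
      ring
    rw [h2]
    positivity

/-- The negation of the preceding statement: Take a rational 5x5 positive definite, entrywise positive, completely positive matrix on the boundary of the completely positive cone. Then for every nonnegative 5x5 B with A = BBᵀ, each rank-one term b_j b_jᵀ from a column of B has rational entries. -/
theorem result :
    ¬ (∀ A : Matrix (Fin 5) (Fin 5) ℝ,
      (∀ i j, ∃ q : ℚ, A i j = (q : ℝ)) →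
      A.PosDef →
      (∀ i j, 0 < A i j) →
      (∃ m : ℕ, ∃ C : Matrix (Fin 5) (Fin m) ℝ, (∀ i j, 0 ≤ C i j) ∧ A = C * Cᵀ) →
      (∀ ε : ℝ, 0 < ε → ∃ S : Matrix (Fin 5) (Fin 5) ℝ, Sᵀ = S ∧
          (∀ i j, |S i j - A i j| < ε) ∧
          ¬ ∃ m : ℕ, ∃ C : Matrix (Fin 5) (Fin m) ℝ, (∀ i j, 0 ≤ C i j) ∧ S = C * Cᵀ) →
      ∀ B : Matrix (Fin 5) (Fin 5) ℝ, (∀ i j, 0 ≤ B i j) → A = B * Bᵀ →
        ∀ j i l : Fin 5, ∃ r : ℚ, B i j * B l j = (r : ℝ)) := by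
  intro H
  have h := H A ?_ A_pd ?_ ⟨5, _, B_nonneg, A_fac⟩ ?_ _ B_nonneg A_fac 0 0 0
  · obtain ⟨r, hr⟩ := h
    have h5 : √5 * √5 = 5 := Real.mul_self_sqrt (by norm_num)
    have hi : Irrational √5 := by
      have := Nat.Prime.irrational_sqrt (p := 5) (by norm_num)
      simpa using this
    refine hi ⟨2 * r - 3, ?_⟩
    simp [Bm] at hr
    push_cast
    nlinarith
  · intro i j
    refine ⟨(!![8, 5, 1, 1, 5; 5, 8, 5, 1, 1; 1, 5, 8, 5, 1; 1, 1, 5, 8, 5; 5, 1, 1, 5, 8] :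
      Matrix (Fin 5) (Fin 5) ℚ) i j, ?_⟩
    fin_cases i <;> fin_cases j <;> simp [A]
  · intro i j
    fin_cases i <;> fin_cases j <;> simp [A]
  · intro ε hε
    refine ⟨A - (ε / 2) • 1, ?_, ?_, ?_⟩
    · ext i j
      fin_cases i <;> fin_cases j <;> simp [A]
    · intro i j
      by_cases hij : i = j
      · subst hij
        simp [abs_of_pos (half_pos hε), hε]
      · simp [hij, hε]
    · rintro ⟨m, C, hC, hS⟩
      have e : ∀ i j, (A - (ε / 2) • (1 : Matrix (Fin 5) (Fin 5) ℝ)) i j = ∑ k, C i k * C j k := by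
        intro i j
        rw [hS, Matrix.mul_apply]
        rfl
      have h0 := Finset.sum_nonneg fun k (_ : k ∈ Finset.univ) =>
        horn (C 0 k) (C 1 k) (C 2 k) (C 3 k) (C 4 k) (hC _ _) (hC _ _) (hC _ _) (hC _ _) (hC _ _)
      simp only [Finset.sum_add_distrib, Finset.sum_sub_distrib, ← Finset.mul_sum, ← e] at h0
      simp [A] at h0
      linarith

end Pool.Agent.S02542
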