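import Pool.Statements.S02628
import Pool.Agent.H22.FitX

set_option autoImplicit false
open Pool Pool.MP_a9d502_al

namespace Pool.Agent.S02628

/-- The negation of the preceding statement: There is a class F of finite soluble groups with these properties. It contains the trivial group, is closed under isomorphism, normal subgroups and joins of normal F-subgroups, and is not closed under both quotients and subdirect products. For every finite soluble G = AB, the F-radicals satisfy A_F -/
theorem result :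
    ¬ (∃ F : (G : Type) → [Group G] → Prop,
    (∀ (G : Type) [Group G], F G → Finite G ∧ IsSolvable G) ∧
    F Unit ∧
    (∀ (G H : Type) [Group G] [Group H], (G ≃* H) → F G → F H) ∧
    (∀ (G : Type) [Group G] (N : Subgroup G), N.Normal → F G → F ↥N) ∧
    (∀ (G : Type) [Group G] [Finite G] (N M : Subgroup G),
        N.Normal → M.Normal → F ↥N → F ↥M → F ↥(N ⊔ M)) ∧
    ¬ ((∀ (G : Type) [Group G] [Finite G] (N : Subgroup G) [N.Normal],
          F G → F (G ⧸ N)) ∧
       (∀ (G : Type) [Group G] [Finite G] (N M : Subgroup G) [N.Normal] [M.Normal],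
          F (G ⧸ N) → F (G ⧸ M) → F (G ⧸ (N ⊓ M)))) ∧
    (∀ (G : Type) [Group G] [Finite G], IsSolvable G →
      ∀ A B : Subgroup G, (∀ g : G, ∃ a ∈ A, ∃ b ∈ B, g = a * b) →
        (sSup {N : Subgroup ↥A | N.Normal ∧ F ↥N}).map A.subtype ⊓
          (sSup {N : Subgroup ↥B | N.Normal ∧ F ↥N}).map B.subtype ≤
          sSup {N : Subgroup G | N.Normal ∧ F ↥N})) := by
  rintro ⟨F, h1, h0, h2, h3, h4, hn, h5⟩
  have hF : Pool.Agent.H22.Fit.IsFit F := ⟨h1, h0, h2, h3, h4⟩
  have hA : Pool.Agent.H22.Fit.AF F := fun G _ _ s A B _ _ c d e => by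
    obtain ⟨R, r1, r2, r3⟩ := hF.rad G
    refine ⟨R, r1, r2, le_trans ?_ ((h5 G s A B fun g => ?_).trans
      (sSup_le fun N hN => r3 N hN.1.isSubnormal hN.2))⟩
    · have key : ∀ K : Subgroup G, F K →
          K ≤ (sSup {N : Subgroup K | N.Normal ∧ F N}).map K.subtype := fun K hK x hx =>
        ⟨⟨x, hx⟩, (le_sSup (s := {N : Subgroup K | N.Normal ∧ F N}) (a := ⊤)
          ⟨inferInstance, h2 _ _ Subgroup.topEquiv.symm hK⟩) (Subgroup.mem_top _), rfl⟩
      exact inf_le_inf (key A c) (key B d)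
    · obtain ⟨a, ha, b, hb, e⟩ := e g
      exact ⟨a, ha, b, hb, e.symm⟩
  refine hn ⟨fun G _ _ N _ h => Pool.Agent.H22.Fit.quotient hF hA N h,
    fun G _ _ N M _ _ a b => Pool.Agent.H22.Fit.subdirect hF hA
      (QuotientGroup.map (N ⊓ M) N (MonoidHom.id G) inf_le_left)
      (QuotientGroup.map (N ⊓ M) M (MonoidHom.id G) inf_le_right) (fun x u v => ?_) a b⟩
  obtain ⟨x, rfl⟩ := QuotientGroup.mk_surjective x
  exact (QuotientGroup.eq_one_iff x).2
    ⟨(QuotientGroup.eq_one_iff x).1 u, (QuotientGroup.eq_one_iff x).1 v⟩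

end Pool.Agent.S02628
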