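import Pool.Statements.S02629
import Pool.Agent.H19.ACRel

set_option autoImplicit false
open Pool Pool.MP_a9e0e5_al

namespace Pool.Agent.S02629

/-- For finite G with operator group Ω and k = minimal number of Ω-normal generators ≥ 2, two normally generating k-tuples are AC-equivalent (with conjugation by G and Ω) iff their images in G/[G,G] are AC-equivalent (with Ω-action). -/
theorem result :
    ∀ (G Ω : Type) [Group G] [Finite G] [Group Ω] [MulDistribMulAction Ω G] (k : ℕ),
      2 ≤ k →
      (∃ u : Fin k → G, ∀ H : Subgroup G, H.Normal → (∀ ω : Ω, ∀ h ∈ H, ω • h ∈ H) →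
          (∀ i, u i ∈ H) → H = ⊤) →
      (∀ m : ℕ, m < k → ∀ u : Fin m → G, ¬ (∀ H : Subgroup G, H.Normal →
          (∀ ω : Ω, ∀ h ∈ H, ω • h ∈ H) → (∀ i, u i ∈ H) → H = ⊤)) →
      ∀ U V : Fin k → G,
        (∀ H : Subgroup G, H.Normal → (∀ ω : Ω, ∀ h ∈ H, ω • h ∈ H) →
          (∀ i, U i ∈ H) → H = ⊤) →
        (∀ H : Subgroup G, H.Normal → (∀ ω : Ω, ∀ h ∈ H, ω • h ∈ H) →
          (∀ i, V i ∈ H) → H = ⊤) →
        (Relation.ReflTransGen
            (fun a b : Fin k → G =>
              (∃ i j : Fin k, i ≠ j ∧
                (b = Function.update a i (a i * a j) ∨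
                 b = Function.update a i (a i * (a j)⁻¹) ∨
                 b = Function.update a i (a j * a i) ∨
                 b = Function.update a i ((a j)⁻¹ * a i))) ∨
              (∃ i : Fin k, b = Function.update a i (a i)⁻¹) ∨
              (∃ (i : Fin k) (g : G), b = Function.update a i (g⁻¹ * a i * g)) ∨
              (∃ (i : Fin k) (ω : Ω), b = Function.update a i (ω • a i)))
            U V ↔
          Relation.ReflTransGen
            (fun a b : Fin k → Abelianization G =>
              (∃ i j : Fin k, i ≠ j ∧
                (b = Function.update a i (a i * a j) ∨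
                 b = Function.update a i (a i * (a j)⁻¹) ∨
                 b = Function.update a i (a j * a i) ∨
                 b = Function.update a i ((a j)⁻¹ * a i))) ∨
              (∃ i : Fin k, b = Function.update a i (a i)⁻¹) ∨
              (∃ (i : Fin k) (ω : Ω) (g : G), Abelianization.of g = a i ∧
                b = Function.update a i (Abelianization.of (ω • g))))
            (fun i => Abelianization.of (U i)) (fun i => Abelianization.of (V i))) := by
  intro G Ω _ _ _ _ k hk _ _ U V hU hV
  have key : ∀ (u : Fin k → G) (i : Fin k) (x : G),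
      (fun l => Abelianization.of (Function.update u i x l)) =
        Function.update (fun i => Abelianization.of (u i)) i (Abelianization.of x) := by
    intro u i x
    funext l
    by_cases hl : l = i
    · subst hl; simp
    · simp [Function.update_of_ne hl]
  constructor
  · intro h
    induction h with
    | refl => exact Relation.ReflTransGen.refl
    | @tail b c h1 h2 ih =>
      have ih := ih (H19.ACRel.reach_gen h1 hU)
      rcases h2 with ⟨i, j, hij, h | h | h | h⟩ | ⟨i, h⟩ | ⟨i, g, h⟩ | ⟨i, ω, h⟩
      · exact ih.tail (Or.inl ⟨i, j, hij, Or.inl (by rw [h, key]; simp)⟩)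
      · exact ih.tail (Or.inl ⟨i, j, hij, Or.inr (Or.inl (by rw [h, key]; simp))⟩)
      · exact ih.tail (Or.inl ⟨i, j, hij, Or.inr (Or.inr (Or.inl (by rw [h, key]; simp)))⟩)
      · exact ih.tail (Or.inl ⟨i, j, hij, Or.inr (Or.inr (Or.inr (by rw [h, key]; simp)))⟩)
      · exact ih.tail (Or.inr (Or.inl ⟨i, by rw [h, key]; simp⟩))
      · have : (fun l => Abelianization.of (c l)) = fun l => Abelianization.of (b l) := by
          rw [h, key]
          have : Abelianization.of (g⁻¹ * b i * g) = Abelianization.of (b i) := by
            rw [map_mul, map_mul, mul_right_comm, ← map_mul]; simp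
          rw [this]
          exact Function.update_eq_self i (fun l => Abelianization.of (b l))
        rw [this]; exact ih
      · exact ih.tail (Or.inr (Or.inr ⟨i, ω, b i, rfl, by rw [h, key]⟩))
  · intro h
    have lift : ∀ w : Fin k → Abelianization G, Relation.ReflTransGen
            (fun a b : Fin k → Abelianization G =>
              (∃ i j : Fin k, i ≠ j ∧
                (b = Function.update a i (a i * a j) ∨
                 b = Function.update a i (a i * (a j)⁻¹) ∨
                 b = Function.update a i (a j * a i) ∨
                 b = Function.update a i ((a j)⁻¹ * a i))) ∨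
              (∃ i : Fin k, b = Function.update a i (a i)⁻¹) ∨
              (∃ (i : Fin k) (ω : Ω) (g : G), Abelianization.of g = a i ∧
                b = Function.update a i (Abelianization.of (ω • g))))
            (fun i => Abelianization.of (U i)) w →
          ∃ u', H19.ACRel.Reach Ω U u' ∧ (fun i => Abelianization.of (u' i)) = w := by
      intro w hw
      induction hw with
      | refl => exact ⟨U, Relation.ReflTransGen.refl, rfl⟩
      | tail _ h2 ih =>
        obtain ⟨u, h3, rfl⟩ := ih
        rcases h2 with ⟨i, j, hij, h | h | h | h⟩ | ⟨i, h⟩ | ⟨i, ω, g, hg, h⟩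
        · exact ⟨_, h3.tail (Or.inl ⟨i, j, hij, Or.inl rfl⟩), by rw [key, h]; simp⟩
        · exact ⟨_, h3.tail (Or.inl ⟨i, j, hij, Or.inr (Or.inl rfl)⟩), by rw [key, h]; simp⟩
        · exact ⟨_, h3.tail (Or.inl ⟨i, j, hij, Or.inr (Or.inr (Or.inl rfl))⟩),
            by rw [key, h]; simp⟩
        · exact ⟨_, h3.tail (Or.inl ⟨i, j, hij, Or.inr (Or.inr (Or.inr rfl))⟩),
            by rw [key, h]; simp⟩
        · exact ⟨_, h3.tail (Or.inr (Or.inl ⟨i, rfl⟩)), by rw [key, h]; simp⟩
        · refine ⟨_, h3.tail (Or.inr (Or.inr (Or.inr ⟨i, ω, rfl⟩))), ?_⟩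
          rw [key, h]
          congr 1
          have h5 : Abelianization.map (MulDistribMulAction.toMonoidHom G ω)
              (Abelianization.of g) = Abelianization.map (MulDistribMulAction.toMonoidHom G ω)
              (Abelianization.of (u i)) := by rw [hg]
          simpa using h5.symm
    obtain ⟨u', h1, h2⟩ := lift _ h
    refine Relation.ReflTransGen.trans h1
      (H19.ACRel.main hk _ G rfl u' V (H19.ACRel.reach_gen h1 hU) hV fun l => ?_)
    rw [← Abelianization.ker_of, MonoidHom.mem_ker, map_mul, map_inv, congrFun h2 l]
    simp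

end Pool.Agent.S02629
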