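import Pool.Statements.S02634

set_option autoImplicit false
open Pool Pool.MP_aa6e24_al

namespace Pool.Agent.S02634

/-- The negation of the preceding statement: For all finite groups G and t of order 2: if every element of D (conjugates of t, or order-2 products of two conjugates) misses some Sylow 2-subgroup, and for each d∈D commuting with t, t lies in every Sylow 2-subgroup of C_G(d), then every order-2 product of two conjugates of t is a conjugate of t. -/
theorem result :
    ¬ (∀ (G : Type) [Group G] [Finite G] (t : G), orderOf t = 2 →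
      (∀ d : G, ((∃ x : G, d = x * t * x⁻¹) ∨
          (∃ x y : G, d = x * t * x⁻¹ * (y * t * y⁻¹) ∧ orderOf d = 2)) →
        ∃ P : Sylow 2 G, d ∉ (P : Subgroup G)) →
      (∀ d : G, ((∃ x : G, d = x * t * x⁻¹) ∨
          (∃ x y : G, d = x * t * x⁻¹ * (y * t * y⁻¹) ∧ orderOf d = 2)) →
        d * t = t * d →
        ∀ P : Sylow 2 (Subgroup.centralizer ({d} : Set G)),
          t ∈ (P : Subgroup (Subgroup.centralizer ({d} : Set G))).map
                (Subgroup.centralizer ({d} : Set G)).subtype) →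
      ∀ x y : G, orderOf (x * t * x⁻¹ * (y * t * y⁻¹)) = 2 →
        ∃ z : G, x * t * x⁻¹ * (y * t * y⁻¹) = z * t * z⁻¹) := by
  intro h
  let A := alternatingGroup (Fin 5)
  let G := Multiplicative (ZMod 2) × A
  let s : A := ⟨Equiv.swap 0 1 * Equiv.swap 2 3, Equiv.Perm.mem_alternatingGroup.2 (by decide)⟩
  let t : G := (Multiplicative.ofAdd 1, s)
  have k1 : ∀ a : Equiv.Perm (Fin 5), Equiv.Perm.sign a = 1 → a * a = 1 → a ≠ 1 →
      ∃ x : Equiv.Perm (Fin 5), Equiv.Perm.sign x = 1 ∧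
        (a * (x * a * x⁻¹)) * (a * (x * a * x⁻¹)) * (a * (x * a * x⁻¹)) = 1 ∧
          a * (x * a * x⁻¹) ≠ 1 := by decide +kernel
  have k2 : ∀ a : Equiv.Perm (Fin 5), Equiv.Perm.sign a = 1 → a * a = 1 → a ≠ 1 →
      ∀ c : Equiv.Perm (Fin 5), Equiv.Perm.sign c = 1 → a * c = c * a → c * c = 1 := by
    decide +kernel
  have k3 : ∀ a : Multiplicative (ZMod 2), a * a = 1 := by decide
  have ht : orderOf t = 2 := orderOf_eq_prime (by decide) (by decide)
  have hD : ∀ d : G, ((∃ x : G, d = x * t * x⁻¹) ∨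
      (∃ x y : G, d = x * t * x⁻¹ * (y * t * y⁻¹) ∧ orderOf d = 2)) →
      d.2.1 * d.2.1 = 1 ∧ d.2.1 ≠ 1 := by
    rintro d (⟨x, rfl⟩ | ⟨x, y, rfl, ho⟩)
    · constructor
      · have e : x.2.1 * s.1 * x.2.1⁻¹ * (x.2.1 * s.1 * x.2.1⁻¹) = x.2.1 * (s.1 * s.1) * x.2.1⁻¹ := by
          group
        have e2 : s.1 * s.1 = 1 := by decide
        rw [e2, mul_one, mul_inv_cancel] at e
        exact e
      · intro e
        have e' : x.2.1 * s.1 * x.2.1⁻¹ = 1 := e
        rw [mul_inv_eq_one, mul_eq_left] at e'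
        exact absurd e' (by decide)
    · have e1 := pow_orderOf_eq_one (x * t * x⁻¹ * (y * t * y⁻¹))
      rw [ho, pow_two] at e1
      refine ⟨congrArg (fun g : G => g.2.1) e1, fun e => ?_⟩
      have e3 : x * t * x⁻¹ * (y * t * y⁻¹) = 1 := by
        refine Prod.ext ?_ (Subtype.ext e)
        show x.1 * Multiplicative.ofAdd 1 * x.1⁻¹ * (y.1 * Multiplicative.ofAdd 1 * y.1⁻¹) = 1
        rw [mul_inv_cancel_comm, mul_inv_cancel_comm]
        exact k3 _
      rw [e3, orderOf_one] at ho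
      exact absurd ho (by decide)
  have := h G t ht (fun d hd => ?_) (fun d hd hc P => ?_) 1
    (1, ⟨Equiv.swap 1 2 * Equiv.swap 1 3, Equiv.Perm.mem_alternatingGroup.2 (by decide)⟩) (orderOf_eq_prime (by decide) (by decide))
  · obtain ⟨z, hz⟩ := this
    have e := congrArg Prod.fst hz
    have e2 : (z * t * z⁻¹).1 = Multiplicative.ofAdd 1 := mul_inv_cancel_comm z.1 _
    rw [e2] at e
    exact absurd e (by decide)
  · obtain ⟨a, b⟩ := hD d hd
    obtain ⟨x, hx, h3, h1⟩ := k1 d.2.1 d.2.2 a b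
    by_contra hc
    push Not at hc
    let P : Sylow 2 G := default
    let g : G := (1, ⟨x, hx⟩)
    have m1 : g * d * g⁻¹ ∈ (P : Subgroup G) := by
      have := hc (g⁻¹ • P)
      rw [Sylow.coe_subgroup_smul, Subgroup.mem_pointwise_smul_iff_inv_smul_mem] at this
      simpa [inv_inv g] using this
    obtain ⟨n, hn⟩ := P.2 ⟨_, mul_mem (hc P) m1⟩
    have e : (d.2.1 * (x * d.2.1 * x⁻¹)) ^ 2 ^ n = 1 := congrArg (fun u : P => u.1.2.1) hn
    rw [← pow_three'] at h3
    have c : Nat.Coprime (2 ^ n) 3 := Nat.Coprime.pow_left n (by decide)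
    have := pow_gcd_eq_one.2 ⟨e, h3⟩
    rw [c, pow_one] at this
    exact h1 this
  · obtain ⟨a, b⟩ := hD d hd
    have hp : IsPGroup 2 (⊤ : Subgroup (Subgroup.centralizer ({d} : Set G))) := by
      rintro ⟨⟨c, hc⟩, -⟩
      refine ⟨1, Subtype.ext (Subtype.ext ?_)⟩
      have e := Subgroup.mem_centralizer_singleton_iff.1 hc
      have e2 := k2 d.2.1 d.2.2 a b c.2.1 c.2.2 (congrArg (fun g : G => g.2.1) e).symm
      show c ^ 2 ^ 1 = 1
      rw [pow_one, pow_two]
      exact Prod.ext (k3 _) (Subtype.ext e2)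
    have := P.3 hp le_top
    refine ⟨⟨t, Subgroup.mem_centralizer_singleton_iff.2 hc.symm⟩, ?_, rfl⟩
    rw [← this]
    trivial

end Pool.Agent.S02634
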