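import Pool.Statements.S02659
import Pool.Agent.H22.Gle

set_option autoImplicit false
open Filter Topology
open Pool Pool.MP_ab8afa_al

namespace Pool.Agent.S02659

/-- There exist positive integers p_n and reals a_n with a_1=1 strictly decreasing to 0, a_n(p_{n+1}/p_n-1)≥1, and gcd-1 tails, and a split of ℤ into nonempty X and its complement Y, such that for x_i in X and y_i in Y the three N-series are never all convergent. -/
theorem result :
    ∃ p : ℕ → ℕ, ∃ a : ℕ → ℝ,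
      a 0 = 1 ∧ StrictAnti a ∧ Tendsto a atTop (𝓝 0) ∧
      (∀ n, 0 < p n) ∧
      (∀ n, 1 ≤ a n * ((p (n + 1) : ℝ) / (p n : ℝ) - 1)) ∧
      (∀ m : ℕ, ∃ s : Finset ℕ, (∀ n ∈ s, m < n) ∧ s.gcd p = 1) ∧
      ∃ X : Set ℤ, X.Nonempty ∧ Xᶜ.Nonempty ∧
        ∀ N : ℤ → ℝ,
          (∀ z : ℤ, N z = sInf {r : ℝ | ∃ k : ℕ →₀ ℤ,
              (k.sum (fun i c => c * (p i : ℤ))) = z ∧
              r = k.sum (fun i c => |(c : ℝ)| * a i)}) →
          ∀ x y : ℕ → ℤ, (∀ i, x i ∈ X) → (∀ i, y i ∈ Xᶜ) →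
            ¬ (Summable (fun i => N (x i - x (i + 1))) ∧
               Summable (fun i => N (y i - y (i + 1))) ∧
               Summable (fun i => N (x i - y i))) := by
  refine ⟨H22.Gle.p, H22.Gle.a, by simp [H22.Gle.a], ?_, ?_, H22.Gle.p_pos, ?_, ?_,
    H22.Gle.X, ⟨0, H22.Gle.zero_X⟩, ⟨1, H22.Gle.one_X⟩, ?_⟩
  · apply strictAnti_nat_of_succ_lt
    intro n
    unfold H22.Gle.a
    apply one_div_lt_one_div_of_lt (by positivity)
    push_cast
    linarith
  · exact tendsto_one_div_add_atTop_nhds_zero_nat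
  · intro n
    have h : (0 : ℝ) < H22.Gle.p n := Nat.cast_pos.2 (H22.Gle.p_pos n)
    have h0 : (0 : ℝ) ≤ n := Nat.cast_nonneg n
    unfold H22.Gle.a
    rw [one_div, inv_mul_eq_div, le_div_iff₀ (by positivity), le_sub_iff_add_le, le_div_iff₀ h]
    simp only [H22.Gle.p]
    push_cast
    nlinarith [mul_nonneg h0 h.le, mul_nonneg (mul_nonneg h0 h0) h.le]
  · intro m
    refine ⟨{m + 1, m + 2}, by simp, ?_⟩
    rw [Finset.gcd_insert, Finset.gcd_singleton]
    have : H22.Gle.p (m + 2) = 2 * (m + 1 + 1) ^ 2 * H22.Gle.p (m + 1) + 1 := rfl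
    rw [this]
    simp [gcd_eq_nat_gcd]
  · rintro N hN x y hx hy ⟨s1, -, s2⟩
    exact H22.Gle.main N hN x y hx hy s1 s2

end Pool.Agent.S02659
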