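import Pool.Statements.S02686
import Pool.Agent.H22.Part3

set_option autoImplicit false
open Pool Pool.MP_adca84_al

namespace Pool.Agent.S02686

/-- The negation of the preceding statement: For every group G and every partition of G into n cells, some cell A and some set F of at most n pairs (x,y) in G×G satisfy: every element of G equals x·a·b⁻¹·y for some (x,y) in F and a,b in A. -/
theorem result :
    ¬ (∀ (G : Type) [Group G] (n : ℕ) (A : Fin n → Set G),
      (∀ g : G, ∃ i, g ∈ A i) →
      (∀ i j, i ≠ j → Disjoint (A i) (A j)) →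
      ∃ i : Fin n, ∃ F : Finset (G × G), F.card ≤ n ∧
        ∀ g : G, ∃ p ∈ F, ∃ a ∈ A i, ∃ b ∈ A i, g = p.1 * a * b⁻¹ * p.2) := by
  classical
  intro h
  obtain ⟨χ, h1, _⟩ := H22.Part.exists_partition
  obtain ⟨i, F, hF, hU⟩ := h H22.Part.Γ 9 (fun i => {z | χ z = i}) (fun z => ⟨χ z, rfl⟩)
    (fun i j hij => Set.disjoint_left.2 fun z hz hz' => hij (hz.symm.trans hz'))
  obtain ⟨g, hg⟩ := h1 i (F.image Prod.fst ∪ F.image (fun p => p.2⁻¹))
    ((Finset.card_union_le _ _).trans (by
      have h2 := Finset.card_image_le (s := F) (f := Prod.fst)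
      have h3 := Finset.card_image_le (s := F) (f := fun p => p.2⁻¹)
      omega))
  obtain ⟨p, hp, a, ha, b, hb, hgp⟩ := hU g
  exact hg p.1 (Finset.mem_union_left _ (Finset.mem_image_of_mem _ hp)) p.2⁻¹
    (Finset.mem_union_right _ (Finset.mem_image_of_mem (fun p => p.2⁻¹) hp)) a b ha hb
    (by rw [inv_inv]; exact hgp)

end Pool.Agent.S02686
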