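import Pool.Statements.S02714
import Pool.Agent.H22.Fir2

set_option autoImplicit false
open Pool Pool.MP_afddf0_al

namespace Pool.Agent.S02714

/-- The negation of the preceding statement: Over a field of prime characteristic p, for any finite-dimensional space of derivations of a free associative algebra closed under commutators and p-th powers, the common kernel of those derivations is itself a free algebra. -/
theorem result :
    ¬ (∀ (p : ℕ) (k : Type) [Field k] [CharP k p], p.Prime →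
    ∀ (X : Type) (L : Submodule k (Module.End k (FreeAlgebra k X))),
      FiniteDimensional k L →
      (∀ D ∈ L, ∀ a b : FreeAlgebra k X, D (a * b) = D a * b + a * D b) →
      (∀ D₁ ∈ L, ∀ D₂ ∈ L, D₁ * D₂ - D₂ * D₁ ∈ L) →
      (∀ D ∈ L, D ^ p ∈ L) →
      ∃ (Y : Type) (f : FreeAlgebra k Y →ₐ[k] FreeAlgebra k X),
        Function.Injective f ∧ Set.range f = {a | ∀ D ∈ L, D a = 0}) := by
  intro H
  let F := FreeAlgebra (ZMod 2) (Fin 4)
  let a : F := FreeAlgebra.ι _ 0
  let b : F := FreeAlgebra.ι _ 1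
  let u : F := FreeAlgebra.ι _ 2
  let v : F := FreeAlgebra.ι _ 3
  obtain ⟨D, d1, d2, d3⟩ := H22.Fir.ex_der (AlgHom.id (ZMod 2) F) ![a * a, 1, -(u * a), -(a * v)]
  have da : D a = a * a := d1 0
  have db : D b = 1 := d1 1
  have du : D u = -(u * a) := d1 2
  have dv : D v = -(a * v) := d1 3
  replace d3 : ∀ x y, D (x * y) = x * D y + D x * y := d3
  have two : ∀ x : F, x + x = 0 := fun x => by
    rw [← two_smul (ZMod 2), show (2 : ZMod 2) = 0 from rfl, zero_smul]
  have p0 : D (u * a) = 0 := by rw [d3, da, du]; noncomm_ring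
  have q0 : D (a * v) = 0 := by rw [d3, da, dv]; noncomm_ring
  have dd : D * D = 0 := LinearMap.ext fun x => by
    show D (D x) = 0
    induction x using FreeAlgebra.induction with
    | grade0 r => rw [Algebra.algebraMap_eq_smul_one, map_smul, d2, smul_zero, map_zero]
    | grade1 x =>
      rw [d1]
      fin_cases x
      · simpa [d3, da, mul_assoc] using two _
      · exact d2
      · simpa using p0
      · simpa using q0
    | mul x y s t => rw [d3, map_add, d3, d3, s, t]; simpa using two _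
    | add x y s t => rw [map_add, map_add, s, t, add_zero]
  obtain ⟨Y, f, f1, f2⟩ := H 2 (ZMod 2) Nat.prime_two (Fin 4) (Submodule.span _ {D}) inferInstance
    (fun E hE x y => by
      obtain ⟨c, rfl⟩ := Submodule.mem_span_singleton.1 hE
      simp [d3, add_comm])
    (fun E hE E' hE' => by
      obtain ⟨c, rfl⟩ := Submodule.mem_span_singleton.1 hE
      obtain ⟨c', rfl⟩ := Submodule.mem_span_singleton.1 hE'
      simp [dd])
    fun E hE => by
      obtain ⟨c, rfl⟩ := Submodule.mem_span_singleton.1 hE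
      simp [sq, dd]
  have m : ∀ x, D x = 0 ↔ x ∈ Set.range f := fun x => by
    rw [f2]
    refine ⟨fun h E hE => ?_, fun h => h D (Submodule.mem_span_singleton_self D)⟩
    obtain ⟨c, rfl⟩ := Submodule.mem_span_singleton.1 hE
    simp [h]
  obtain ⟨p, hp⟩ := (m _).1 p0
  obtain ⟨q, hq⟩ := (m _).1 q0
  obtain ⟨r, hr⟩ := (m (u + u * a * b)).1 (by rw [map_add, d3, p0, du, db]; simp)
  obtain ⟨t, ht⟩ := (m (v + b * (a * v))).1 (by rw [map_add, d3, q0, dv, db]; simp)
  have a0 : a ≠ 0 := FreeAlgebra.ι_ne_zero _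
  have u0 : u ≠ 0 := FreeAlgebra.ι_ne_zero _
  have v0 : v ≠ 0 := FreeAlgebra.ι_ne_zero _
  obtain ⟨i, hi⟩ := H22.Fir.fl_ex p
  obtain ⟨j, hj⟩ := H22.Fir.fl_ex r
  obtain ⟨d, ⟨x, y, e1⟩, ⟨α, e2⟩, ⟨β, e3⟩⟩ := H22.Fir.gcd2 _ p r t q i j le_rfl hi hj
    (f1 (by rw [map_mul, map_mul, hp, hq, hr, ht]; noncomm_ring))
    (.inr fun z => mul_ne_zero a0 v0 (by rw [← hq, z, map_zero]))
  obtain ⟨g, hg⟩ : ∃ g, f d = u * g :=
    ⟨a * f x + (1 + a * b) * f y, by rw [e1, map_add, map_mul, map_mul, hp, hr]; noncomm_ring⟩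
  have e4 : g * (f β - f α * b) = 1 := mul_left_cancel₀ u0 (by
    rw [← mul_assoc, ← hg, mul_sub, ← mul_assoc, ← map_mul, ← map_mul, ← e2, ← e3, hp, hr]; simp)
  have e5 := (m _).2 ⟨d, rfl⟩
  rw [hg, d3, H22.Fir.unit_c e4, Algebra.algebraMap_eq_smul_one, map_smul, d2, du,
    ← Algebra.algebraMap_eq_smul_one, ← H22.Fir.unit_c e4] at e5
  simp [a0, u0, left_ne_zero_of_mul_eq_one e4] at e5

end Pool.Agent.S02714
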