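import Pool.Statements.S02738
import Pool.Agent.H21.Sep

set_option autoImplicit false
open Filter
open Pool Pool.MP_b1d060_al

namespace Pool.Agent.S02738

theorem result :
    ¬ (∀ (n : ℕ), 3 < n → ∀ (G : Type) [Group G] (S : Finset G),
      Subgroup.closure (S : Set G) = ⊤ →
      ∀ Γ : SimpleGraph G, Γ = SimpleGraph.fromRel (fun g h : G => g⁻¹ * h ∈ S) →
      (¬ ∀ r : ℕ, ∃ (ι : Type) (U : ι → Set G) (D : ℕ),
          (∀ x : G, ∃ i, x ∈ U i) ∧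
          (∀ i, ∀ x ∈ U i, ∀ y ∈ U i, Γ.dist x y ≤ D) ∧
          ∀ x : G, {i : ι | ∃ y ∈ U i, Γ.dist x y ≤ r}.encard ≤ (n : ℕ∞)) →
      (∃ f : (Fin (n - 2) → ℤ) → G,
          (∃ ρ : ℕ → ℕ, ∀ a b, Γ.dist (f a) (f b) ≤ ρ (∑ i, |a i - b i|).toNat) ∧
          (∃ ρ : ℕ → ℕ, Tendsto ρ atTop atTop ∧
              ∀ a b, ρ (∑ i, |a i - b i|).toNat ≤ Γ.dist (f a) (f b)) ∧
          (∃ L : ℕ, ∀ D : ℕ, ∃ x y : G,
              (∀ z, L + D < Γ.dist x (f z)) ∧ (∀ z, L + D < Γ.dist y (f z)) ∧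
              ¬ ∃ p : Γ.Walk x y, ∀ v ∈ p.support, ∀ z, L < Γ.dist v (f z))) →
      ∃ (T : Type) (Γt : SimpleGraph T) (ρ : G →* Equiv.Perm T),
        Γt.IsTree ∧
        (∀ g u v, Γt.Adj u v → Γt.Adj (ρ g u) (ρ g v)) ∧
        (∀ g u v, Γt.Adj u v → ¬ (ρ g u = v ∧ ρ g v = u)) ∧
        (∀ v, ∃ g, ρ g v ≠ v) ∧
        ∀ u v, Γt.Adj u v → ∀ H : Subgroup G, (∀ g, g ∈ H ↔ (ρ g u = u ∧ ρ g v = v)) →
          ∃ K : Subgroup G, K ≤ H ∧ (K.subgroupOf H).index ≠ 0 ∧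
            Nonempty (K ≃* Multiplicative (Fin (n - 2) → ℤ))) := by
  intro H
  open Pool.Agent.H21 Pool.Agent.H21.Sep in
  obtain ⟨T, Γ, ρ, h1, h2, -, h3, h4⟩ := H 4 (by omega) G S top _ rfl (Leb.asd top 4 z π πz)
    ⟨f, (Leb.emb top f _ f1 f2).1, (Leb.emb top f _ f1 f2).2, 0, sep⟩
  open Pool.Agent.H21 Pool.Agent.H21.Sep in
  have : Infinite (SemidirectProduct.rightHom (φ := φ)).ker := Infinite.of_injective
    (fun m => ⟨.inl m, rfl⟩) fun a b h => SemidirectProduct.inl_injective (congrArg Subtype.val h)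
  open Pool.Agent.H21 Pool.Agent.H21.Sep in
  obtain ⟨v, h⟩ := TreeAct.nosplit h1 ρ h2 z (Function.LeftInverse.injective πz)
    (SemidirectProduct.rightHom (φ := φ)).ker (fun m h => by
      rw [← SemidirectProduct.range_inl_eq_ker_rightHom] at h
      obtain ⟨m, rfl⟩ := h
      rw [← map_pow, map_eq_one_iff _ SemidirectProduct.inl_injective]
      ext x
      simp [two_nsmul, CharTwo.add_self_eq_zero]) (fun m h a k => by
      rw [← SemidirectProduct.range_inl_eq_ker_rightHom] at h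
      obtain ⟨m, rfl⟩ := h
      simpa [j] using cz k (.inl m)) h4
  exact (h3 v).elim fun g k => k (h g)

end Pool.Agent.S02738
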