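import Pool.Statements.S02743
import Pool.Agent.H22.SupRad

set_option autoImplicit false
open Pool Pool.MP_b21f3c_al

namespace Pool.Agent.S02743

/-- Among saturated subgroup-closed formations of finite groups that contain all supersoluble groups and in which joins of two normal supersoluble subgroups stay supersoluble, there is one containing all the others. -/
theorem result :
    ∀ (U : (G : Type) → [Group G] → Prop),
      (∀ (G : Type) [Group G], U G ↔
        ∃ (n : ℕ) (s : Fin (n + 1) → Subgroup G), s 0 = ⊥ ∧ s (Fin.last n) = ⊤ ∧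
          (∀ i, (s i).Normal) ∧
          ∀ i : Fin n, s i.castSucc ≤ s i.succ ∧
            ∃ g ∈ s i.succ, ∀ x ∈ s i.succ, ∃ k : ℤ, x * (g ^ k)⁻¹ ∈ s i.castSucc) →
      ∀ (Mem : ((G : Type) → [Group G] → Prop) → Prop),
        (∀ H : (G : Type) → [Group G] → Prop, Mem H ↔
          ((∀ (G G' : Type) [Group G] [Group G'], Finite G → Nonempty (G ≃* G') → H G → H G') ∧
           (∀ (G : Type) [Group G] [Finite G] (N : Subgroup G) [N.Normal], H G → H (G ⧸ N)) ∧
           (∀ (G : Type) [Group G] [Finite G] (N₁ N₂ : Subgroup G) [N₁.Normal] [N₂.Normal],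
              N₁ ⊓ N₂ = ⊥ → H (G ⧸ N₁) → H (G ⧸ N₂) → H G) ∧
           (∀ (G : Type) [Group G] [Finite G] (K : Subgroup G), H G → H ↥K) ∧
           (∀ (G : Type) [Group G] [Finite G], H (G ⧸ frattini G) → H G) ∧
           (∀ (G : Type) [Group G] [Finite G], U G → H G) ∧
           (∀ (G : Type) [Group G] [Finite G], H G → ∀ A B : Subgroup G, A.Normal → B.Normal →
              U ↥A → U ↥B → U ↥(A ⊔ B)))) →
        ∃ H : (G : Type) → [Group G] → Prop, Mem H ∧
          ∀ H' : (G : Type) → [Group G] → Prop, Mem H' →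
            ∀ (G : Type) [Group G] [Finite G], H' G → H G := by
  intro U hU Mem hM
  have u : ∀ (G : Type) [Group G], U G ↔ H22.GLS.SS G := fun G _ => (hU G).trans H22.GLS.ss_iff.symm
  refine ⟨fun G _ => H22.GLS.H0 G, (hM _).2 ⟨?_, ?_, ?_, ?_, ?_, ?_, ?_⟩, fun H hH G _ _ hG => ?_⟩
  · exact fun G G' _ _ _ ⟨e⟩ h => h.surj e.toMonoidHom e.surjective
  · exact fun G _ _ N _ h => h.surj _ (QuotientGroup.mk'_surjective N)
  · exact fun G _ _ N L _ _ e a b p q hp hq d => (a p q hp hq d).two (QuotientGroup.mk' N)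
      (QuotientGroup.mk' L) (fun x h1 h2 => e.le
        ⟨(QuotientGroup.eq_one_iff x).1 h1, (QuotientGroup.eq_one_iff x).1 h2⟩) (b p q hp hq d)
  · exact fun G _ _ K h p q hp hq d => (h p q hp hq d).inj _ K.subtype_injective
  · exact fun G _ _ h p q hp hq d => (h p q hp hq d).sat hp hq (H22.GLS.ne_of_dvd hp d)
      (QuotientGroup.mk' _) (QuotientGroup.ker_mk' _).le
  · exact fun G _ _ h p q hp hq d => ((u G).1 h).hp hp hq (H22.GLS.ne_of_dvd hp d)
  · exact fun G _ _ h A B _ _ a b => (u _).2 (h.rad ((u _).1 a) ((u _).1 b))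
  obtain ⟨h1, h2, h3, h4, h5, -, h7⟩ := (hM H).1 hH
  refine H22.GLS.max_hp (F := fun G _ => H G ∧ Finite G) ⟨fun _ _ h => h.2, ?_, ?_, ?_⟩ ?_ ?_ ?_
    ⟨hG, ‹_›⟩
  · exact fun G K _ _ ⟨e⟩ ⟨a, b⟩ => ⟨h1 G K b ⟨e⟩ a, Finite.of_surjective _ e.surjective⟩
  · exact fun G _ N _ ⟨a, _⟩ => ⟨h2 G N a, inferInstance⟩
  · exact fun G _ _ N L _ _ e a b => ⟨h3 G N L e a.1 b.1, ‹_›⟩
  · exact fun G _ _ a => ⟨h5 G a.1, ‹_›⟩
  · exact fun G _ K ⟨a, _⟩ => ⟨h4 G K a, inferInstance⟩
  · exact fun G _ _ a M N b c d e => (u _).1 (h7 G a.1 M N b c ((u _).2 d) ((u _).2 e))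

end Pool.Agent.S02743
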