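import Pool.Statements.S02756
import Pool.Agent.H19.TDPair

set_option autoImplicit false
open Pool Pool.MP_b29e0e_al

namespace Pool.Agent.S02756

/-- The negation of the preceding statement: For any tridiagonal pair A, A* on a finite-dimensional space over an algebraically closed field satisfying the tridiagonal relations with β=q²+q⁻², q not a root of unity, V carries an irreducible q-tetrahedron algebra module with A in span(x01,x12,I), A* in span(x23,x30,I). -/
theorem result :
    ¬ (∀ (K : Type) [Field K] [IsAlgClosed K] (V : Type) [AddCommGroup V] [Module K V]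
      [FiniteDimensional K V] (A As : Module.End K V) (q : K),
      q ≠ 0 → (∀ n : ℕ, 0 < n → q ^ n ≠ 1) →
      Nontrivial V →
      (∃ d : ℕ, ∃ θ : Fin (d + 1) → K, Function.Injective θ ∧
        (∀ i, Module.End.eigenspace A (θ i) ≠ ⊥) ∧
        (⨆ i, Module.End.eigenspace A (θ i)) = ⊤ ∧
        ∀ i : Fin (d + 1), Submodule.map As (Module.End.eigenspace A (θ i)) ≤
          ⨆ (j : Fin (d + 1)) (_ : (j : ℕ) ≤ (i : ℕ) + 1 ∧ (i : ℕ) ≤ (j : ℕ) + 1),
            Module.End.eigenspace A (θ j)) →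
      (∃ d : ℕ, ∃ θ : Fin (d + 1) → K, Function.Injective θ ∧
        (∀ i, Module.End.eigenspace As (θ i) ≠ ⊥) ∧
        (⨆ i, Module.End.eigenspace As (θ i)) = ⊤ ∧
        ∀ i : Fin (d + 1), Submodule.map A (Module.End.eigenspace As (θ i)) ≤
          ⨆ (j : Fin (d + 1)) (_ : (j : ℕ) ≤ (i : ℕ) + 1 ∧ (i : ℕ) ≤ (j : ℕ) + 1),
            Module.End.eigenspace As (θ j)) →
      (∀ W : Submodule K V, (∀ v ∈ W, A v ∈ W) → (∀ v ∈ W, As v ∈ W) → W = ⊥ ∨ W = ⊤) →
      (∃ γ γs ϱ ϱs : K,
        A * (A ^ 2 * As - (q ^ 2 + q⁻¹ ^ 2) • (A * As * A) + As * A ^ 2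
              - γ • (A * As + As * A) - ϱ • As)
          = (A ^ 2 * As - (q ^ 2 + q⁻¹ ^ 2) • (A * As * A) + As * A ^ 2
              - γ • (A * As + As * A) - ϱ • As) * A ∧
        As * (As ^ 2 * A - (q ^ 2 + q⁻¹ ^ 2) • (As * A * As) + A * As ^ 2
              - γs • (A * As + As * A) - ϱs • A)
          = (As ^ 2 * A - (q ^ 2 + q⁻¹ ^ 2) • (As * A * As) + A * As ^ 2
              - γs • (A * As + As * A) - ϱs • A) * As) →
      ∃ X : ZMod 4 → ZMod 4 → Module.End K V,
        (∀ i j : ZMod 4, j - i = 2 → X i j * X j i = 1) ∧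
        (∀ i j k : ZMod 4,
          ((j - i = 1 ∧ k - j = 1) ∨ (j - i = 1 ∧ k - j = 2) ∨ (j - i = 2 ∧ k - j = 1)) →
          q • (X i j * X j k) - q⁻¹ • (X j k * X i j) = (q - q⁻¹) • (1 : Module.End K V)) ∧
        (∀ i j k l : ZMod 4, j - i = 1 → k - j = 1 → l - k = 1 →
          X i j ^ 3 * X k l - (q ^ 2 + 1 + q⁻¹ ^ 2) • (X i j ^ 2 * X k l * X i j)
            + (q ^ 2 + 1 + q⁻¹ ^ 2) • (X i j * X k l * X i j ^ 2) - X k l * X i j ^ 3 = 0) ∧
        (∀ W : Submodule K V,
          (∀ i j : ZMod 4, (j - i = 1 ∨ j - i = 2) → ∀ v ∈ W, X i j v ∈ W) →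
          W = ⊥ ∨ W = ⊤) ∧
        (∃ a b c : K, A = a • X 0 1 + b • X 1 2 + c • (1 : Module.End K V)) ∧
        (∃ a b c : K, As = a • X 2 3 + b • X 3 0 + c • (1 : Module.End K V))) := by
  intro h
  open Pool.Agent.H19.TDPair in
  obtain ⟨X, -, hW, hS, -, ⟨a, b, c, hA⟩, a', b', c', hB⟩ := h ℂ (Fin 3 → ℂ)
    (Matrix.toLin' MA) (Matrix.toLin' MB) 2 two_ne_zero
    (fun n hn h => by
      have : (2 : ℕ) ^ n = 1 := by exact_mod_cast h
      exact absurd this (Nat.one_lt_two_pow hn.ne').ne')
    inferInstance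
    (cond _ _ ![15, 0, -15] ![![3, 5, 5], ![12, 0, -5], ![3, -5, 5]]
      (by
        intro i j hij
        fin_cases i <;> fin_cases j <;> first | rfl | (norm_num at hij))
      (by
        intro i
        fin_cases i <;> simp only [A_apply, ext3, Pi.smul_apply] <;> simp <;> try norm_num)
      (by
        intro i
        fin_cases i <;> simp [ext3])
      (by
        intro i u hu
        fin_cases i
        · refine ⟨u 2 / 5, ?_⟩
          simp only [A_apply, ext3, Pi.smul_apply] at hu ⊢
          simp at hu ⊢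
          grind
        · refine ⟨u 0 / 12, ?_⟩
          simp only [A_apply, ext3, Pi.smul_apply] at hu ⊢
          simp at hu ⊢
          grind
        · refine ⟨u 2 / 5, ?_⟩
          simp only [A_apply, ext3, Pi.smul_apply] at hu ⊢
          simp at hu ⊢
          grind)
      (by
        intro u
        refine ⟨(5 * u 0 + 15 * u 1 + 12 * u 2) / 150, (5 * u 0 - 3 * u 2) / 75,
          (5 * u 0 - 15 * u 1 + 12 * u 2) / 150, ?_⟩
        simp only [ext3, Pi.smul_apply, Pi.add_apply]
        simp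
        refine ⟨?_, ?_, ?_⟩ <;> ring)
      ⟨4, 3, by simp only [B_apply, ext3, Pi.smul_apply, Pi.add_apply]; simp; try norm_num⟩
      ⟨3, 4, by simp only [B_apply, ext3, Pi.smul_apply, Pi.add_apply]; simp; try norm_num⟩)
    (cond _ _ ![16, 4, 1] ![![1, 0, 0], ![0, 1, 0], ![0, 0, 1]]
      (by
        intro i j hij
        fin_cases i <;> fin_cases j <;> first | rfl | (norm_num at hij))
      (by
        intro i
        fin_cases i <;> simp only [B_apply, ext3, Pi.smul_apply] <;> simp <;> try norm_num)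
      (by
        intro i
        fin_cases i <;> simp [ext3])
      (by
        intro i u hu
        refine ⟨u i, ?_⟩
        fin_cases i <;> simp only [B_apply, ext3, Pi.smul_apply] at hu ⊢ <;> simp at hu ⊢ <;> grind)
      (by
        intro u
        refine ⟨u 0, u 1, u 2, ?_⟩
        simp only [ext3, Pi.smul_apply, Pi.add_apply]
        simp)
      ⟨0, 5, by simp only [A_apply, ext3, Pi.smul_apply, Pi.add_apply]; simp; try norm_num⟩
      ⟨12, 0, by simp only [A_apply, ext3, Pi.smul_apply, Pi.add_apply]; simp; try norm_num⟩)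
    irr
    ⟨0, 0, 225, 0, by
      constructor <;>
      · refine LinearMap.ext fun u => ?_
        simp only [pow_two, Module.End.mul_apply, LinearMap.add_apply, LinearMap.sub_apply,
          LinearMap.smul_apply, map_add, map_sub, map_smul, A_apply, B_apply, ext3,
          Pi.smul_apply, Pi.add_apply, Pi.sub_apply]
        simp
        refine ⟨?_, ?_, ?_⟩ <;> ring⟩
  let e := (LinearMap.toMatrixAlgEquiv' : Module.End ℂ (Fin 3 → ℂ) ≃ₐ[ℂ] _)
  have w : ∀ i j k : ZMod 4, j - i = 1 → k - j = 1 →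
      Pool.Agent.H19.TDPair.Wy (e (X i j)) (e (X j k)) = 0 := fun i j k h1 h2 => by
    have := congrArg e (hW i j k (Or.inl ⟨h1, h2⟩))
    simp only [map_sub, map_smul, map_mul, map_one] at this
    unfold Pool.Agent.H19.TDPair.Wy
    linear_combination (norm := module) (2 : ℂ) • this
  have s : ∀ i j k l : ZMod 4, j - i = 1 → k - j = 1 → l - k = 1 →
      Pool.Agent.H19.TDPair.Se (e (X i j)) (e (X k l)) = 0 := fun i j k l h1 h2 h3 => by
    have := congrArg e (hS i j k l h1 h2 h3)
    simp only [map_sub, map_add, map_smul, map_mul, map_zero, pow_succ, pow_zero, one_mul,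
      ← mul_assoc] at this
    unfold Pool.Agent.H19.TDPair.Se
    linear_combination (norm := module) (4 : ℂ) • this
  refine Pool.Agent.H19.TDPair.core (e (X 0 1)) (e (X 1 2)) (e (X 2 3)) (e (X 3 0)) a b c a' b' c'
    (w 1 2 3 rfl rfl) (w 2 3 0 rfl rfl) (w 3 0 1 rfl rfl) (s 2 3 0 1 rfl rfl rfl)
    (s 3 0 1 2 rfl rfl rfl) ?_ ?_
  · have := congrArg e hA
    simp only [map_add, map_smul, map_one] at this
    rw [← this]
    exact (LinearMap.toMatrix'_toLin' _).symm
  · have := congrArg e hB
    simp only [map_add, map_smul, map_one] at this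
    rw [← this]
    exact (LinearMap.toMatrix'_toLin' _).symm

end Pool.Agent.S02756
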