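import Pool.Statements.S02766
import Pool.Agent.H18.EngW

set_option autoImplicit false
open Pool Pool.MP_b39e30_al

namespace Pool.Agent.S02766

/-- The negation of the preceding statement: In every radical group (ascending series with locally nilpotent factors), an element is a bounded left Engel element exactly when it lies in the subgroup generated by all elements generating subnormal cyclic subgroups, i.e. the Baer radical. -/
theorem result :
    ¬ (∀ (G : Type) [Group G],
      (∃ S : Ordinal.{0} → Subgroup G,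
        Monotone S ∧
        (∀ α : Ordinal.{0}, ∀ g : G, g ∈ S α →
          g = 1 ∨ ∃ β : Ordinal.{0}, β < α ∧ g ∈ S (Order.succ β)) ∧
        (∀ α : Ordinal.{0}, ∀ a : G, a ∈ S (Order.succ α) →
          ∀ b : G, b ∈ S α → a * b * a⁻¹ ∈ S α) ∧
        (∀ α : Ordinal.{0}, ∀ F : Set G, F.Finite →
          F ⊆ (S (Order.succ α) : Set G) →
          ∃ n : ℕ, ∀ h0 : G, h0 ∈ Subgroup.closure F →
            ∀ hs : List G, hs.length = n →
              (∀ b : G, b ∈ hs → b ∈ Subgroup.closure F) →
                hs.foldl (fun a b : G => a⁻¹ * b⁻¹ * a * b) h0 ∈ S α) ∧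
        (∃ β : Ordinal.{0}, S β = ⊤)) →
      ∀ x : G,
        (∃ n : ℕ, ∀ g : G, (fun y : G => y⁻¹ * x⁻¹ * y * x)^[n] g = 1) ↔
          x ∈ Subgroup.closure
            {y : G | ∃ n : ℕ, ∃ K : ℕ → Subgroup G,
              K 0 = Subgroup.zpowers y ∧ K n = ⊤ ∧
              ∀ i : ℕ, i < n → (K i ≤ K (i + 1) ∧
                ∀ a : G, a ∈ K (i + 1) → ∀ b : G, b ∈ K i → a * b * a⁻¹ ∈ K i)}) := by
  intro h
  classical
  have h1 := h (H18.EngW.W H18.EngW.M) ⟨fun α => if α = 0 then ⊥ else ⊤, ?_, ?_, ?_, ?_, ?_⟩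
    ⟨1, 1, true⟩
  · have h2 := h1.1 ⟨145, fun g => H18.EngW.engel g _⟩
    have h3 := (Subgroup.closure_le (H18.EngW.U ⊤)).2 ?_ h2
    · exact absurd h3.1 (by decide)
    · rintro y ⟨n, K, h0, hn, hK⟩
      refine ⟨?_, Subgroup.mem_top _, Subgroup.mem_top _⟩
      by_contra hs
      exact H18.EngW.not_chain y (by simpa using hs) n 0 K h0 (hn ▸ H18.EngW.Has_top) hK
  · intro α β hab
    by_cases ha : α = 0
    · simp [ha]
    · have hb : β ≠ 0 := by
        rintro rfl
        exact ha (le_antisymm hab zero_le)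
      simp [ha, hb]
  · intro α g hg
    by_cases ha : α = 0
    · left; simpa [ha] using hg
    · right
      exact ⟨0, pos_iff_ne_zero.2 ha, by simp⟩
  · intro α a _ b hb
    by_cases ha : α = 0
    · have : b = 1 := by simpa [ha] using hb
      simp [this]
    · simp [ha]
  · intro α F hF _
    obtain ⟨s, rfl⟩ := hF.exists_finset_coe
    refine ⟨2 * (36 * s.card) + 1, fun h0 hh l hl hm => ?_⟩
    rw [H18.EngW.loc_nil s _ le_rfl h0 hh l hl hm]
    exact Subgroup.one_mem _
  · exact ⟨1, by simp⟩

end Pool.Agent.S02766
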