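import Pool.Statements.S02774

set_option autoImplicit false
open Pool Pool.MP_b442e4_al

namespace Pool.Agent.S02774

def SS : Set (FreeGroup ℕ) :=
  {FreeGroup.of 0 ^ 6,
   FreeGroup.of 0 ^ 2 * FreeGroup.of 1 ^ 2 * (FreeGroup.of 0 ^ 2)⁻¹ * (FreeGroup.of 1 ^ 2)⁻¹}

lemma laws_iff (A : Type) [Group A] :
    (∀ w ∈ SS, ∀ f : ℕ → A, FreeGroup.lift f w = 1) ↔
      (∀ a : A, a ^ 6 = 1) ∧ ∀ a b : A, a ^ 2 * b ^ 2 = b ^ 2 * a ^ 2 := by
  constructor
  · intro h
    refine ⟨fun a => ?_, fun a b => ?_⟩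
    · simpa using h _ (Or.inl rfl) (fun _ => a)
    · have := h _ (Or.inr rfl) (fun n => if n = 0 then a else b)
      simp only [map_mul, map_inv, map_pow, FreeGroup.lift_apply_of] at this
      simp only [if_true, one_ne_zero, if_false] at this
      rw [mul_inv_eq_one, mul_inv_eq_iff_eq_mul] at this
      exact this
  · rintro ⟨h1, h2⟩ w (rfl | rfl) f
    · simp [h1]
    · simp only [map_mul, map_inv, map_pow, FreeGroup.lift_apply_of]
      rw [h2]; group

abbrev PP : Type := Multiplicative (ZMod 2) × Multiplicative (ℝ →₀ ZMod 3)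

noncomputable def tau : PP := (Multiplicative.ofAdd 1, 1)
noncomputable def ee (r : ℝ) : PP := (1, Multiplicative.ofAdd (Finsupp.single r 1))

lemma tau_sq : tau ^ 2 = 1 := by
  ext
  · show (Multiplicative.ofAdd (1 : ZMod 2)) ^ 2 = 1
    decide
  · simp [tau]

lemma ee_cube (r : ℝ) : ee r ^ 3 = 1 := by
  refine Prod.ext (by simp [ee]) ?_
  show (Multiplicative.ofAdd (Finsupp.single r (1 : ZMod 3))) ^ 3 = 1
  rw [← ofAdd_nsmul, Finsupp.smul_single]
  have : (3 • (1 : ZMod 3)) = 0 := by decide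
  rw [this]; simp

lemma hom_ext {B : Type} [Group B] (f g : PP →* B) (h1 : f tau = g tau)
    (h2 : ∀ r, f (ee r) = g (ee r)) : f = g := by
  have hL : ∀ x : Multiplicative (ZMod 2), f (x, 1) = g (x, 1) := by
    intro x
    have : ∀ x : Multiplicative (ZMod 2), x = 1 ∨ x = Multiplicative.ofAdd 1 := by decide
    rcases this x with rfl | rfl
    · rw [show ((1, 1) : PP) = 1 from rfl, map_one, map_one]
    · exact h1
  have hR : ∀ v : ℝ →₀ ZMod 3, f (1, Multiplicative.ofAdd v) = g (1, Multiplicative.ofAdd v) := by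
    intro v
    induction v using Finsupp.induction_linear with
    | zero => rw [show ((1, Multiplicative.ofAdd (0 : ℝ →₀ ZMod 3)) : PP) = 1 from rfl, map_one, map_one]
    | add a b ha hb =>
      have : ((1, Multiplicative.ofAdd (a + b)) : PP) =
          (1, Multiplicative.ofAdd a) * (1, Multiplicative.ofAdd b) := by
        ext <;> simp
      rw [this, map_mul, map_mul, ha, hb]
    | single r c =>
      have : ((1, Multiplicative.ofAdd (Finsupp.single r c)) : PP) = ee r ^ c.val := by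
        refine Prod.ext (by simp [ee]) ?_
        show _ = (Multiplicative.ofAdd (Finsupp.single r (1 : ZMod 3))) ^ c.val
        rw [← ofAdd_nsmul, Finsupp.smul_single]
        simp
      rw [this, map_pow, map_pow, h2]
  ext1 x
  obtain ⟨x, v⟩ := x
  have : ((x, v) : PP) = (x, 1) * (1, Multiplicative.ofAdd v.toAdd) := by ext <;> simp
  rw [this, map_mul, map_mul, hL, hR]

lemma exists_zmod {C : Type} [CommGroup C] (n : ℕ) (t : C) (ht : t ^ n = 1) :
    ∃ f : ZMod n →+ Additive C, f 1 = Additive.ofMul t := by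
  refine ⟨ZMod.lift n ⟨zmultiplesHom (Additive C) (Additive.ofMul t), ?_⟩, ?_⟩
  · simp only [zmultiplesHom_apply, natCast_zsmul]
    rw [← ofMul_pow, ht]; rfl
  · have := ZMod.lift_coe n (⟨zmultiplesHom (Additive C) (Additive.ofMul t), by
      simp only [zmultiplesHom_apply, natCast_zsmul]
      rw [← ofMul_pow, ht]; rfl⟩ : {f : ℤ →+ Additive C // f n = 0}) 1
    simpa using this

lemma exists_hom {C : Type} [CommGroup C] (t : C) (b : ℝ → C) (ht : t ^ 2 = 1)
    (hb : ∀ r, b r ^ 3 = 1) : ∃ ψ : PP →* C, ψ tau = t ∧ ∀ r, ψ (ee r) = b r := by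
  obtain ⟨f, hf⟩ := exists_zmod 2 t ht
  choose g hg using fun r => exists_zmod 3 (b r) (hb r)
  refine ⟨MonoidHom.coprod (AddMonoidHom.toMultiplicativeLeft f)
    (AddMonoidHom.toMultiplicativeLeft (Finsupp.liftAddHom g)), ?_, fun r => ?_⟩
  · simp [tau, hf]
  · simp [ee, hg]

lemma proj (A B : Type) [Group A] [Group B]
    (hA : ∀ w ∈ SS, ∀ f : ℕ → A, FreeGroup.lift f w = 1)
    (π : A →* B) (hπ : Function.Surjective π) (φ : PP →* B) :
    ∃ ψ : PP →* A, π.comp ψ = φ := by
  obtain ⟨h6, hc⟩ := (laws_iff A).1 hA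
  obtain ⟨t0, ht0⟩ := hπ (φ tau)
  choose a ha using fun r => hπ (φ (ee r))
  set t : A := t0 ^ 3 with htdef
  have ht2 : t ^ 2 = 1 := by rw [htdef, ← pow_mul]; exact h6 t0
  have hπt : π t = φ tau := by
    rw [htdef, map_pow, ht0, ← map_pow, pow_succ, tau_sq, one_mul]
  have e4 : ∀ r, ee r ^ 4 = ee r := fun r => by rw [pow_succ, ee_cube, one_mul]
  set b : ℝ → A := fun r => (a r ^ 4 * (t * a r ^ 4 * t⁻¹)) ^ 2 with hbdef
  have hπb : ∀ r, π (b r) = φ (ee r) := by
    intro r
    simp only [hbdef, map_pow, map_mul, map_inv, ha, hπt]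
    simp only [← map_pow, ← map_mul, ← map_inv]
    congr 1
    rw [e4, mul_inv_cancel_comm, ← pow_two, ← pow_mul, e4]
  have hb3 : ∀ r, b r ^ 3 = 1 := fun r => by
    simp only [hbdef]; rw [← pow_mul]; exact h6 _
  have htinv : t⁻¹ = t := by
    rw [inv_eq_iff_mul_eq_one, ← pow_two, ht2]
  have htb : ∀ r, t * b r = b r * t := by
    intro r
    have h1 : a r ^ 4 * (t * a r ^ 4 * t⁻¹) = (t * a r ^ 4 * t⁻¹) * a r ^ 4 := by
      have := hc (a r ^ 2) (t * a r ^ 2 * t⁻¹)
      rw [conj_pow, ← pow_mul] at this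
      exact this
    have h2 : Commute t (a r ^ 4 * (t * a r ^ 4 * t⁻¹)) := by
      have htt : t * t = 1 := by rw [← pow_two, ht2]
      unfold Commute SemiconjBy
      conv_lhs => rw [h1]
      rw [htinv]
      simp only [← mul_assoc, htt, one_mul]
      rw [mul_assoc _ t t, htt, mul_one]
    exact (h2.pow_right 2).eq
  have hcomm : ∀ x ∈ ({t} ∪ Set.range b : Set A), ∀ y ∈ ({t} ∪ Set.range b : Set A),
      x * y = y * x := by
    rintro x (rfl | ⟨r, rfl⟩) y (rfl | ⟨s, rfl⟩)
    · rfl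
    · exact htb s
    · exact (htb r).symm
    · exact hc _ _
  letI : CommGroup (Subgroup.closure ({t} ∪ Set.range b : Set A)) :=
    Subgroup.closureCommGroupOfComm hcomm
  obtain ⟨ψ, h1, h2⟩ := exists_hom (C := Subgroup.closure ({t} ∪ Set.range b : Set A))
    ⟨t, Subgroup.subset_closure (Or.inl rfl)⟩
    (fun r => ⟨b r, Subgroup.subset_closure (Or.inr ⟨r, rfl⟩)⟩)
    (Subtype.ext ht2) (fun r => Subtype.ext (hb3 r))
  refine ⟨(Subgroup.subtype _).comp ψ, hom_ext _ _ ?_ fun r => ?_⟩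
  · show π (ψ tau).1 = φ tau
    rw [h1]; exact hπt
  · show π (ψ (ee r)).1 = φ (ee r)
    rw [h2]; exact hπb r

lemma countable_of_closure {H : Type} [Group H] (s : Set H) (hs : s.Countable)
    (h : Subgroup.closure s = ⊤) : Countable H := by
  haveI : Countable s := hs
  have : Function.Surjective (FreeGroup.lift (fun x : s => (x : H))) := by
    rw [← MonoidHom.range_eq_top, FreeGroup.range_lift_eq_closure, Subtype.range_coe, h]
  exact this.countable

lemma exists_avoid (T : Set PP) (hT : T.Countable) : ∃ r : ℝ, ∀ x ∈ T, x.2.toAdd r = 0 := by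
  have hc : (⋃ x ∈ T, ((x.2.toAdd.support : Finset ℝ) : Set ℝ)).Countable :=
    hT.biUnion fun x _ => (Finset.finite_toSet _).countable
  by_contra hcon
  push Not at hcon
  apply Cardinal.not_countable_real
  refine hc.mono fun r _ => ?_
  obtain ⟨x, hx, hr⟩ := hcon r
  simp only [Set.mem_iUnion]
  exact ⟨x, hx, by simpa using hr⟩

def chi0 : Multiplicative (ZMod 2) →* Equiv.Perm (Fin 3) where
  toFun x := Equiv.swap 0 1 ^ x.toAdd.val
  map_one' := by decide
  map_mul' := by decide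

def lam0 : Multiplicative (ZMod 3) →* Equiv.Perm (Fin 3) where
  toFun x := (Equiv.swap 0 1 * Equiv.swap 1 2) ^ x.toAdd.val
  map_one' := by decide
  map_mul' := by decide

noncomputable def chi : PP →* Equiv.Perm (Fin 3) := chi0.comp (MonoidHom.fst _ _)

noncomputable def lam (r : ℝ) : PP →* Equiv.Perm (Fin 3) :=
  lam0.comp ((AddMonoidHom.toMultiplicative (Finsupp.applyAddHom r)).comp (MonoidHom.snd _ _))

lemma lam_apply (r : ℝ) (x : PP) : lam r x = lam0 (Multiplicative.ofAdd (x.2.toAdd r)) := rfl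

lemma lawsPP : ∀ w ∈ SS, ∀ f : ℕ → PP, FreeGroup.lift f w = 1 := by
  rw [laws_iff]
  refine ⟨fun a => ?_, fun a b => mul_comm _ _⟩
  have : (powMonoidHom 6 : PP →* PP) = 1 := by
    refine hom_ext _ _ ?_ fun r => ?_
    · show tau ^ (2 * 3) = 1
      rw [pow_mul, tau_sq, one_pow]
    · show ee r ^ (3 * 2) = 1
      rw [pow_mul, ee_cube, one_pow]
  exact DFunLike.congr_fun this a

lemma lawsS3 : ∀ w ∈ SS, ∀ f : ℕ → Equiv.Perm (Fin 3), FreeGroup.lift f w = 1 := by
  rw [laws_iff]
  constructor <;> decide +kernel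


/-- The negation of the preceding statement: For every group variety given by laws, every projective group of the variety that is not finitely generated is the coproduct in the variety (the 𝔐-free product) of a family of countably generated projective groups of the variety. -/
theorem result :
    ¬ (∀ (S : Set (FreeGroup ℕ)) (G : Type) [Group G],
    (∀ w ∈ S, ∀ f : ℕ → G, FreeGroup.lift f w = 1) →
    (∀ (A B : Type) [Group A] [Group B],
      (∀ w ∈ S, ∀ f : ℕ → A, FreeGroup.lift f w = 1) →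
      (∀ w ∈ S, ∀ f : ℕ → B, FreeGroup.lift f w = 1) →
      ∀ (π : A →* B), Function.Surjective π →
        ∀ (φ : G →* B), ∃ ψ : G →* A, π.comp ψ = φ) →
    ¬ Group.FG G →
    ∃ (I : Type) (H : I → Type) (_ : ∀ i, Group (H i)) (ι : ∀ i, H i →* G),
      (∀ i,
        (∀ w ∈ S, ∀ f : ℕ → H i, FreeGroup.lift f w = 1) ∧
        (∃ s : Set (H i), s.Countable ∧ Subgroup.closure s = ⊤) ∧
        (∀ (A B : Type) [Group A] [Group B],
          (∀ w ∈ S, ∀ f : ℕ → A, FreeGroup.lift f w = 1) →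
          (∀ w ∈ S, ∀ f : ℕ → B, FreeGroup.lift f w = 1) →
          ∀ (π : A →* B), Function.Surjective π →
            ∀ (φ : H i →* B), ∃ ψ : H i →* A, π.comp ψ = φ)) ∧
      (∀ (K : Type) [Group K],
        (∀ w ∈ S, ∀ f : ℕ → K, FreeGroup.lift f w = 1) →
        ∀ g : ∀ i, H i →* K, ∃! θ : G →* K, ∀ i, θ.comp (ι i) = g i)) := by
  intro h
  classical
  have hnfg : ¬ Group.FG PP := by
    intro hfg
    obtain ⟨s, hs, hfin⟩ := Group.fg_iff.1 hfg
    haveI := countable_of_closure s hfin.countable hs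
    obtain ⟨r, hr⟩ := exists_avoid Set.univ Set.countable_univ
    have := hr (ee r) trivial
    simp [ee] at this
  obtain ⟨I, H, _, ι, h1, h2⟩ := h SS PP lawsPP (fun A B _ _ hA _ π hπ φ => proj A B hA π hπ φ) hnfg
  have huniq : ∀ θ : PP →* Equiv.Perm (Fin 3), (∀ i, θ.comp (ι i) = 1) → θ = 1 := by
    intro θ hθ
    exact (h2 _ lawsS3 (fun _ => 1)).unique hθ (fun i => by ext1; simp)
  have hchi : chi ≠ 1 := by
    intro hh
    have := DFunLike.congr_fun hh tau
    revert this
    show chi0 (Multiplicative.ofAdd 1) = 1 → False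
    decide
  obtain ⟨i0, hi0⟩ : ∃ i, chi.comp (ι i) ≠ 1 := by
    by_contra hcon
    push Not at hcon
    exact hchi (huniq _ hcon)
  obtain ⟨s, hs, hcl⟩ := (h1 i0).2.1
  haveI := countable_of_closure s hs hcl
  obtain ⟨r, hr⟩ := exists_avoid (Set.range (ι i0)) (Set.countable_range _)
  have hlam : lam r ≠ 1 := by
    intro hh
    have := DFunLike.congr_fun hh (ee r)
    rw [lam_apply] at this
    simp only [ee, toAdd_ofAdd, Finsupp.single_eq_same, MonoidHom.one_apply] at this
    revert this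
    decide
  obtain ⟨j, hj⟩ : ∃ i, (lam r).comp (ι i) ≠ 1 := by
    by_contra hcon
    push Not at hcon
    exact hlam (huniq _ hcon)
  have hji : j ≠ i0 := by
    rintro rfl
    apply hj
    ext1 x
    rw [MonoidHom.comp_apply, lam_apply, hr _ ⟨x, rfl⟩]
    simp
  obtain ⟨θ, hθ, -⟩ := h2 _ lawsS3
    (fun i => if i = i0 then chi.comp (ι i) else (lam r).comp (ι i))
  have e1 := hθ i0
  have e2 := hθ j
  rw [if_pos rfl] at e1
  rw [if_neg hji] at e2
  obtain ⟨x, hx⟩ : ∃ x, chi (ι i0 x) ≠ 1 := by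
    by_contra hcon
    push Not at hcon
    exact hi0 (MonoidHom.ext hcon)
  obtain ⟨y, hy⟩ : ∃ y, lam r (ι j y) ≠ 1 := by
    by_contra hcon
    push Not at hcon
    exact hj (MonoidHom.ext hcon)
  have e3 : θ (ι i0 x) = chi (ι i0 x) := DFunLike.congr_fun e1 x
  have e4 : θ (ι j y) = lam r (ι j y) := DFunLike.congr_fun e2 y
  have e5 : chi (ι i0 x) * lam r (ι j y) = lam r (ι j y) * chi (ι i0 x) := by
    rw [← e3, ← e4, ← map_mul, ← map_mul, mul_comm]
  have key : ∀ (u : Multiplicative (ZMod 2)) (v : Multiplicative (ZMod 3)),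
      chi0 u ≠ 1 → lam0 v ≠ 1 → chi0 u * lam0 v ≠ lam0 v * chi0 u := by decide
  exact key _ _ hx hy e5

end Pool.Agent.S02774
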