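import Pool.Statements.S02856
import Pool.Agent.H21.LatDet

set_option autoImplicit false
open Pool Pool.MP_b97972_al

namespace Pool.Agent.S02856

theorem result :
    ¬ (∀ (n : ℕ), 0 < n → ∀ (L : Fin n → Fin n → Fin n),
    (∀ i, Function.Bijective (L i)) →
    (∀ j, Function.Bijective (fun i => L i j)) →
    (∃ (k : ℕ) (P : Fin k → MvPolynomial (Fin n) ℂ) (c : ℂ), c ≠ 0 ∧
      (∀ j, Irreducible (P j)) ∧
      (∀ i j, i ≠ j → ¬ Associated (P i) (P j)) ∧
      (Matrix.of (fun i j => (MvPolynomial.X (L i j) : MvPolynomial (Fin n) ℂ))).det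
        = MvPolynomial.C c * ∏ j, P j ^ (P j).totalDegree) →
    ∃ (G : Type) (_ : Group G) (a : Fin n ≃ G) (b : Fin n ≃ G) (e : G ≃ Fin n),
      ∀ i j, L i j = e (a i * b j)) := by
  intro H
  open Pool.Agent.H21.LatDet in
  obtain ⟨G, _, a, b, e, h⟩ := H 16 (by omega) L (by decide) (by decide)
    ⟨10, P, 1, one_ne_zero, irr, fun i j k h => (pt2 i j k).elim (nd h.symm.dvd) (nd h.dvd), by
      simpa [deg] using dL MvPolynomial.X fun h => by
        simpa [N] using congrArg (MvPolynomial.eval fun i : Fin 16 => if i = 0 then (1 : ℂ) else 0) h⟩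
  have h1 := e.injective ((h 0 9).symm.trans (h 1 0))
  have h2 := e.injective ((h 3 9).symm.trans (h 2 0))
  have h3 := e.injective ((h 0 13).symm.trans (h 1 4))
  refine absurd ((h 3 13).trans ((congrArg e ?_).trans (h 2 4).symm)) (by decide)
  calc a 3 * b 13 = a 3 * b 9 * (a 0 * b 9)⁻¹ * (a 0 * b 13) := by group
    _ = _ := by rw [h1, h2, h3]; group

end Pool.Agent.S02856
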