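import Pool.Statements.S02886
import Pool.Agent.H22.PiLen

set_option autoImplicit false
open Pool Pool.MP_bbd7c2_al

namespace Pool.Agent.S02886

/-- The negation of the preceding statement: For a finite π-soluble group G with Hall π-subgroup H of nilpotent length ≤ a and p-length ≤ b for all p in π, G has a normal series with π′ factors and at most a−1+b nilpotent π-factors. -/
theorem result :
    ¬ (∀ (G : Type) [Group G] [Finite G] (π : Set ℕ), (∀ p ∈ π, p.Prime) →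
    (∃ (k : ℕ) (s : ℕ → Subgroup G), s 0 = ⊥ ∧ s k = ⊤ ∧ (∀ i ≤ k, (s i).Normal) ∧
      (∀ i < k, s i ≤ s (i + 1)) ∧
      ∀ i < k, (∀ q : ℕ, q.Prime → q ∣ Nat.card (s (i + 1)) / Nat.card (s i) → q ∉ π) ∨
        ∃ p ∈ π, ∃ e : ℕ, Nat.card (s (i + 1)) / Nat.card (s i) = p ^ e) →
    ∀ (H : Subgroup G), (∀ q : ℕ, q.Prime → q ∣ Nat.card H → q ∈ π) →
      (∀ q : ℕ, q.Prime → q ∣ H.index → q ∉ π) →
    ∀ (a b : ℕ),
      (∃ t : ℕ → Subgroup H, t 0 = ⊥ ∧ t a = ⊤ ∧ (∀ i ≤ a, (t i).Normal) ∧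
        (∀ i < a, t i ≤ t (i + 1)) ∧
        ∀ i < a, ∃ c : ℕ, (fun K : Subgroup H => ⁅K, t (i + 1)⁆)^[c] (t (i + 1)) ≤ t i) →
      (∀ p ∈ π, ∃ (k : ℕ) (s : ℕ → Subgroup G) (T : Finset ℕ), T.card ≤ b ∧
        s 0 = ⊥ ∧ s k = ⊤ ∧ (∀ i ≤ k, (s i).Normal) ∧ (∀ i < k, s i ≤ s (i + 1)) ∧
        ∀ i < k, (¬ p ∣ Nat.card (s (i + 1)) / Nat.card (s i)) ∨
          (i ∈ T ∧ ∃ e : ℕ, Nat.card (s (i + 1)) / Nat.card (s i) = p ^ e)) →
      ∃ (k : ℕ) (s : ℕ → Subgroup G) (T : Finset ℕ), T.card ≤ a - 1 + b ∧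
        s 0 = ⊥ ∧ s k = ⊤ ∧ (∀ i ≤ k, (s i).Normal) ∧ (∀ i < k, s i ≤ s (i + 1)) ∧
        ∀ i < k, (∀ q : ℕ, q.Prime → q ∣ Nat.card (s (i + 1)) / Nat.card (s i) → q ∉ π) ∨
          (i ∈ T ∧ (∀ q : ℕ, q.Prime → q ∣ Nat.card (s (i + 1)) / Nat.card (s i) → q ∈ π) ∧
            ∃ c : ℕ, (fun K : Subgroup G => ⁅K, s (i + 1)⁆)^[c] (s (i + 1)) ≤ s i)) := by
  open Pool.Agent.H22.PiLen in
  intro h
  have pl : ∀ (p : ℕ) (T : Finset ℕ), p.Prime → T.card ≤ 2 →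
      (∀ i < 6, (pr i).Prime ∧ (pr i = p → i ∈ T)) →
      ∃ (k : ℕ) (s : ℕ → Subgroup G6) (T : Finset ℕ), T.card ≤ 2 ∧
        s 0 = ⊥ ∧ s k = ⊤ ∧ (∀ i ≤ k, (s i).Normal) ∧ (∀ i < k, s i ≤ s (i + 1)) ∧
        ∀ i < k, (¬ p ∣ Nat.card (s (i + 1)) / Nat.card (s i)) ∨
          (i ∈ T ∧ ∃ e : ℕ, Nat.card (s (i + 1)) / Nat.card (s i) = p ^ e) := by
    intro p T hp hT hi
    refine ⟨6, ser, T, hT, ser0, ser6, serN, serLe, fun i h6 => ?_⟩
    obtain ⟨e, he⟩ := serR i h6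
    by_cases e' : pr i = p
    · exact Or.inr ⟨(hi i h6).2 e', e, e' ▸ he⟩
    · rw [he]
      exact Or.inl fun d =>
        e' ((Nat.prime_dvd_prime_iff_eq hp (hi i h6).1).1 (hp.dvd_of_dvd_pow d)).symm
  refine notLen (h G6 {2, 3} ?_ ⟨6, ser, ser0, ser6, serN, serLe, fun i h6 => ?_⟩ H6 hall1 hall2 2 2
    ⟨tt, rfl, rfl, fun i hi => ?_, fun i hi => ?_, fun i hi => ?_⟩ ?_)
  · rintro p (rfl | rfl) <;> norm_num
  · obtain ⟨e, he⟩ := serR i h6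
    by_cases h5 : pr i = 5
    · refine Or.inl fun q hq d => ?_
      rw [he, h5] at d
      have := (Nat.prime_dvd_prime_iff_eq hq (by norm_num)).1 (hq.dvd_of_dvd_pow d)
      subst this
      simp
    · refine Or.inr ⟨pr i, ?_, e, he⟩
      interval_cases i <;> simp [pr] at h5 ⊢
  · interval_cases i
    exacts [Subgroup.normal_bot, MonoidHom.normal_ker _, Subgroup.normal_top]
  · interval_cases i
    exacts [bot_le, le_top]
  · simp only [it_eq]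
    interval_cases i
    exacts [nil0, nil1]
  · rintro p (rfl | rfl)
    · exact pl 2 {3, 5} (by norm_num) (by simp) fun i hi => by
        interval_cases i <;> simp [pr] <;> norm_num
    · exact pl 3 {0, 2} (by norm_num) (by simp) fun i hi => by
        interval_cases i <;> simp [pr] <;> norm_num

end Pool.Agent.S02886
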