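import Pool.Statements.S02888
import Pool.Agent.H19.FactSimple

set_option autoImplicit false
open Pool Pool.MP_bc5942_al

namespace Pool.Agent.S02888

open Pool.Agent.H19.FactSimple

lemma series_of_simple {G : Type} [Group G] (A : Subgroup G) (hA : IsSimpleGroup A) :
    ∃ n : ℕ, ∃ s : Fin (n+1) → Subgroup G, s 0 = ⊥ ∧ s (Fin.last n) = A ∧
      ∀ i : Fin n, s i.castSucc ≤ s i.succ ∧
        ((s i.castSucc).subgroupOf (s i.succ)).Normal ∧
        (s i.castSucc).subgroupOf (s i.succ) ≠ ⊤ ∧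
        ∀ M : Subgroup (s i.succ), M.Normal →
          (s i.castSucc).subgroupOf (s i.succ) ≤ M →
          M = (s i.castSucc).subgroupOf (s i.succ) ∨ M = ⊤ := by
  refine ⟨1, ![⊥, A], rfl, rfl, fun i => ?_⟩
  obtain rfl : i = 0 := Subsingleton.elim _ _
  show (⊥ : Subgroup G) ≤ A ∧ ((⊥ : Subgroup G).subgroupOf A).Normal ∧
    (⊥ : Subgroup G).subgroupOf A ≠ ⊤ ∧ ∀ M : Subgroup A, M.Normal →
      (⊥ : Subgroup G).subgroupOf A ≤ M → M = (⊥ : Subgroup G).subgroupOf A ∨ M = ⊤
  rw [Subgroup.bot_subgroupOf]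
  exact ⟨bot_le, inferInstance, bot_ne_top, fun M hM _ => hA.eq_bot_or_eq_top_of_normal M hM⟩


/-- The negation of the preceding statement: For every group G and subgroups A, B with every element of G equal to a·b (a in A, b in B): if A and B each have a composition series (finite subnormal chain with simple nontrivial factors), then G has one. -/
theorem result :
    ¬ (∀ (G : Type) [Group G] (A B : Subgroup G),
    (∀ g : G, ∃ a ∈ A, ∃ b ∈ B, g = a * b) →
    (∃ n : ℕ, ∃ s : Fin (n+1) → Subgroup G, s 0 = ⊥ ∧ s (Fin.last n) = A ∧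
      ∀ i : Fin n, s i.castSucc ≤ s i.succ ∧
        ((s i.castSucc).subgroupOf (s i.succ)).Normal ∧
        (s i.castSucc).subgroupOf (s i.succ) ≠ ⊤ ∧
        ∀ M : Subgroup (s i.succ), M.Normal →
          (s i.castSucc).subgroupOf (s i.succ) ≤ M →
          M = (s i.castSucc).subgroupOf (s i.succ) ∨ M = ⊤) →
    (∃ n : ℕ, ∃ s : Fin (n+1) → Subgroup G, s 0 = ⊥ ∧ s (Fin.last n) = B ∧
      ∀ i : Fin n, s i.castSucc ≤ s i.succ ∧
        ((s i.castSucc).subgroupOf (s i.succ)).Normal ∧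
        (s i.castSucc).subgroupOf (s i.succ) ≠ ⊤ ∧
        ∀ M : Subgroup (s i.succ), M.Normal →
          (s i.castSucc).subgroupOf (s i.succ) ≤ M →
          M = (s i.castSucc).subgroupOf (s i.succ) ∨ M = ⊤) →
    (∃ n : ℕ, ∃ s : Fin (n+1) → Subgroup G, s 0 = ⊥ ∧ s (Fin.last n) = ⊤ ∧
      ∀ i : Fin n, s i.castSucc ≤ s i.succ ∧
        ((s i.castSucc).subgroupOf (s i.succ)).Normal ∧
        (s i.castSucc).subgroupOf (s i.succ) ≠ ⊤ ∧
        ∀ M : Subgroup (s i.succ), M.Normal →
          (s i.castSucc).subgroupOf (s i.succ) ≤ M →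
          M = (s i.castSucc).subgroupOf (s i.succ) ∨ M = ⊤)) := by
  intro h
  obtain ⟨n, s, h0, h1, hs⟩ := h GG iB.range iA.range factor (series_of_simple _ simpleB)
    (series_of_simple _ simpleA)
  refine no_chain n s h0 h1 U U_strict (fun i => (hs i).1) fun k i => ?_
  obtain ⟨-, hn, -, hmax⟩ := hs i
  haveI := U_normal k
  haveI := hn
  rcases hmax ((U k).subgroupOf (s i.succ) ⊔ (s i.castSucc).subgroupOf (s i.succ))
    inferInstance le_sup_right with h2 | h2
  · left
    intro x hx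
    have : (⟨x, hx.2⟩ : s i.succ) ∈ (s i.castSucc).subgroupOf (s i.succ) := by
      rw [← h2]; exact Subgroup.mem_sup_left hx.1
    exact this
  · right
    intro x hx
    have : (⟨x, hx⟩ : s i.succ) ∈
        (U k).subgroupOf (s i.succ) ⊔ (s i.castSucc).subgroupOf (s i.succ) := by
      rw [h2]; trivial
    obtain ⟨u, hu, y, hy, e⟩ := Subgroup.mem_sup_of_normal_left.1 this
    refine ⟨u, hu, ?_⟩
    have e' : (u : GG) * y = x := congrArg Subtype.val e
    rw [← e', inv_mul_cancel_left]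
    exact hy

end Pool.Agent.S02888
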