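import Pool.Statements.S02924
import Pool.Agent.H18.Kov

set_option autoImplicit false
open Pool Pool.MP_be2783_al

namespace Pool.Agent.S02924

/-- The negation of the preceding statement: For all groups A and B, if some subgroup of A×B maps onto the dihedral group of order 18, then some subgroup of A or some subgroup of B maps onto that dihedral group. -/
theorem result :
    ¬ (∀ (A B : Type) [Group A] [Group B],
      (∃ H : Subgroup (A × B), ∃ f : H →* DihedralGroup 9, Function.Surjective f) →
      ((∃ H : Subgroup A, ∃ f : H →* DihedralGroup 9, Function.Surjective f) ∨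
       (∃ H : Subgroup B, ∃ f : H →* DihedralGroup 9, Function.Surjective f))) := by
  intro h
  rcases h Pool.Agent.H18.Kov.A Pool.Agent.H18.Kov.B
    ⟨Pool.Agent.H18.Kov.H, Pool.Agent.H18.Kov.f0, Pool.Agent.H18.Kov.f0_surj⟩ with
    ⟨S, f, hf⟩ | ⟨S, f, hf⟩
  · refine Pool.Agent.H18.Kov.no_sec (Pool.Agent.H18.Kov.A.subtype.comp S.subtype)
      (Subtype.val_injective.comp Subtype.val_injective) f hf ?_
    intro x hx hm
    apply hx
    have h1 : Pool.Agent.H18.Kov.ph x.1.1.m = Pool.Agent.H18.Kov.pr x.1.1.u := x.1.2
    have h2 : x.1.1.m = 0 := hm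
    rw [h2, map_zero] at h1
    exact h1.symm
  · refine Pool.Agent.H18.Kov.no_sec (Pool.Agent.H18.Kov.B.subtype.comp S.subtype)
      (Subtype.val_injective.comp Subtype.val_injective) f hf ?_
    intro x hx
    exact absurd x.1.2 hx

end Pool.Agent.S02924
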