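import Pool.Statements.S02941
import Pool.Agent.H22.RealClosure

set_option autoImplicit false
open Pool Pool.MP_bfcf3a_al

namespace Pool.Agent.S02941

/-- For every finite set Ω with at least 3 points and every permutation group G on Ω, the permutations preserving every G-invariant real subspace of ℝ^Ω are exactly those mapping each 2-subset into its G-orbit. -/
theorem result :
    ∀ (Ω : Type) [Fintype Ω], 3 ≤ Fintype.card Ω →
      ∀ G : Subgroup (Equiv.Perm Ω),
        ({σ : Equiv.Perm Ω |
            ∀ W : Submodule ℝ (Ω → ℝ),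
              (∀ g ∈ G, ∀ f ∈ W, (fun x => f (g x)) ∈ W) →
                ∀ f ∈ W, (fun x => f (σ x)) ∈ W} : Set (Equiv.Perm Ω)) =
        ({σ : Equiv.Perm Ω |
            ∀ a b : Ω, a ≠ b →
              ∃ g ∈ G, ({g a, g b} : Set Ω) = {σ a, σ b}} : Set (Equiv.Perm Ω)) := by
  intro Ω _ h3 G
  ext σ
  constructor
  · intro h a b _
    exact Pool.Agent.H22.RealClosure.real_to_strong G σ h a b
  · intro h W hW f hf
    exact Pool.Agent.H22.RealClosure.strong_to_real h3 G σ h W hW f hf

end Pool.Agent.S02941
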