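import Pool.Statements.S02958

set_option autoImplicit false
open Pool Pool.MP_c12e41_al

namespace Pool.Agent.S02958

@[ext] structure G where
  k : ℤ
  φ : ℕ → ℤ → ℤˣ
  ev : ∀ n, ∃ B, ∀ N ≥ B, φ N n = 1

instance : Mul G := ⟨fun a b => ⟨a.k + b.k, fun N n => a.φ N n * b.φ N (n - a.k), fun n => by
  obtain ⟨B, hB⟩ := a.ev n
  obtain ⟨C, hC⟩ := b.ev (n - a.k)
  exact ⟨max B C, fun N hN => by
    rw [hB N (le_of_max_le_left hN), hC N (le_of_max_le_right hN), mul_one]⟩⟩⟩
instance : One G := ⟨⟨0, fun _ _ => 1, fun _ => ⟨0, fun _ _ => rfl⟩⟩⟩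
instance : Inv G := ⟨fun a => ⟨-a.k, fun N n => a.φ N (n + a.k), fun n => a.ev _⟩⟩

@[simp] theorem mul_k (a b : G) : (a * b).k = a.k + b.k := rfl
@[simp] theorem mul_φ (a b : G) (N n) : (a * b).φ N n = a.φ N n * b.φ N (n - a.k) := rfl
@[simp] theorem one_k : (1 : G).k = 0 := rfl
@[simp] theorem one_φ (N n) : (1 : G).φ N n = 1 := rfl
@[simp] theorem inv_k (a : G) : (a⁻¹).k = -a.k := rfl
@[simp] theorem inv_φ (a : G) (N n) : (a⁻¹).φ N n = a.φ N (n + a.k) := rfl

instance : Group G := Group.ofLeftAxioms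
  (fun a b c => by
    refine G.ext (by simp [add_assoc]) (funext fun N => funext fun n => ?_)
    simp [mul_assoc, sub_sub])
  (fun a => G.ext (by simp) (funext fun N => funext fun n => by simp))
  (fun a => G.ext (by simp) (funext fun N => funext fun n => by simp))

def lin (c : ℤ → ℤˣ) (k : ℤ) : (ℤ → ℚ) →ₗ[ℚ] (ℤ → ℚ) where
  toFun f := fun n => ((c n : ℤ) : ℚ) * f (n - k)
  map_add' f g := by funext n; simp [mul_add]
  map_smul' r f := by funext n; simp; ring

@[simp] theorem lin_apply (c k f n) : lin c k f n = ((c n : ℤ) : ℚ) * f (n - k) := rfl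

def rho (N : ℕ) : Representation ℚ G (ℤ → ℚ) where
  toFun g := lin (g.φ N) g.k
  map_one' := by ext f n; simp
  map_mul' a b := by
    refine LinearMap.ext fun f => funext fun n => ?_
    simp [mul_assoc, sub_sub]

def rinf : Representation ℚ G (ℤ → ℚ) where
  toFun g := lin 1 g.k
  map_one' := by ext f n; simp
  map_mul' a b := by
    refine LinearMap.ext fun f => funext fun n => ?_
    simp [sub_sub]

@[simp] theorem rho_apply (N g f n) : rho N g f n = ((g.φ N n : ℤ) : ℚ) * f (n - g.k) := rfl
@[simp] theorem rinf_apply (g f n) : rinf g f n = f (n - g.k) := by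
  change lin 1 g.k f n = _
  simp

def del : ℤ → ℚ := fun n => if n = 0 then 1 else 0
def heav : ℤ → ℚ := fun n => if 0 ≤ n then 1 else 0

theorem claimA (x : MonoidAlgebra ℚ G) :
    ∃ B, ∀ N ≥ B, (rho N).asAlgebraHom x del = rinf.asAlgebraHom x del := by
  induction x using MonoidAlgebra.induction_linear with
  | zero => exact ⟨0, fun N _ => by simp⟩
  | add x y hx hy =>
    obtain ⟨B, hB⟩ := hx
    obtain ⟨C, hC⟩ := hy
    exact ⟨max B C, fun N hN => by
      simp [hB N (le_of_max_le_left hN), hC N (le_of_max_le_right hN)]⟩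
  | single g r =>
    obtain ⟨B, hB⟩ := g.ev g.k
    refine ⟨B, fun N hN => ?_⟩
    funext n
    simp only [Representation.asAlgebraHom_single, LinearMap.smul_apply, Pi.smul_apply, rho_apply,
      rinf_apply]
    by_cases h : n = g.k
    · rw [h, hB N hN]; simp
    · have : del (n - g.k) = 0 := by simp [del, sub_eq_zero, h]
      simp [this]

def τ (j : ℤ) : G := ⟨j, fun _ _ => 1, fun _ => ⟨0, fun _ _ => rfl⟩⟩
def a (M : ℤ) : G := ⟨0, fun N n => if (N : ℤ) < |n - M| then -1 else 1, fun n =>
  ⟨(n - M).natAbs, fun N hN => by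
    rw [if_neg]
    rw [Int.abs_eq_natAbs]
    omega⟩⟩

noncomputable abbrev o (g : G) : MonoidAlgebra ℚ G := MonoidAlgebra.of ℚ G g

theorem tt (i j : ℤ) : τ i * τ j = τ (i + j) :=
  G.ext rfl (funext fun N => funext fun n => by simp [τ])
theorem aa (M : ℤ) : a M * a M = 1 :=
  G.ext rfl (funext fun N => funext fun n => by simp [a]; split_ifs <;> simp)
theorem acomm (M L : ℤ) : a M * a L = a L * a M :=
  G.ext rfl (funext fun N => funext fun n => by simp [a, mul_comm])
theorem ta (M : ℤ) : τ M * a 0 = a M * τ M :=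
  G.ext (by simp [a]) (funext fun N => funext fun n => by simp [a, τ])

noncomputable def α : MonoidAlgebra ℚ G := (1 - o (τ 1)) * (1 + o (a 0))
noncomputable def S (M : ℕ) : MonoidAlgebra ℚ G := ∑ j ∈ Finset.range M, o (τ j)
noncomputable def β (M : ℕ) : MonoidAlgebra ℚ G := (1 - o (a 0)) * ((1 - o (a M)) * S M)

theorem geom (M : ℕ) : S M * (1 - o (τ 1)) = 1 - o (τ M) := by
  induction M with
  | zero =>
    have : τ 0 = 1 := rfl
    simp [S, this, MonoidAlgebra.one_def]
  | succ M ih =>
    have h : S (M + 1) = S M + o (τ M) := by simp [S, Finset.sum_range_succ]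
    rw [h, add_mul, ih, mul_sub, mul_one, ← map_mul, tt]
    push_cast
    abel

theorem βα (M : ℕ) : β M * α = 0 := by
  have h1 : o (a 0) * o (a 0) = 1 := by rw [← map_mul, aa, map_one]
  have h2 : o (a M) * o (a M) = 1 := by rw [← map_mul, aa, map_one]
  have h3 : o (a M) * o (a 0) = o (a 0) * o (a M) := by rw [← map_mul, acomm, map_mul]
  have h4 : o (τ M) * o (a 0) = o (a M) * o (τ M) := by rw [← map_mul, ta, map_mul]
  have h5 : β M * α = (1 - o (a 0)) * ((1 - o (a M)) * ((S M * (1 - o (τ 1))) * (1 + o (a 0)))) := by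
    simp only [β, α, mul_assoc]
  rw [h5, geom]
  generalize o (a 0) = x at *
  generalize o (a M) = y at *
  generalize o (τ M) = t at *
  have h6 : (1 - y) * ((1 - t) * (1 + x)) = (1 + x) * (1 - y) := by
    have e1 : (1 - y) * ((1 - t) * (1 + x)) =
        1 + x - t - t * x - y - y * x + y * t + y * (t * x) := by noncomm_ring
    rw [e1, h4, h3, ← mul_assoc, h2]
    noncomm_ring
  rw [h6, ← mul_assoc]
  have h7 : (1 - x) * (1 + x) = 0 := by
    have : (1 - x) * (1 + x) = 1 - x * x := by noncomm_ring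
    rw [this, h1, sub_self]
  rw [h7, zero_mul]

theorem claimB (x : MonoidAlgebra ℚ G) (h : x * α = 0) : rinf.asAlgebraHom x del = 0 := by
  have h1 : rinf.asAlgebraHom α heav = (2 : ℚ) • del := by
    funext n
    simp only [α, map_mul, map_sub, map_add, map_one, Representation.asAlgebraHom_of,
      Module.End.mul_apply, LinearMap.add_apply, LinearMap.sub_apply, Module.End.one_apply,
      Pi.add_apply, Pi.sub_apply, rinf_apply, Pi.smul_apply, τ, a, heav, del]
    split_ifs <;> first | omega | norm_num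
  have h2 : rinf.asAlgebraHom (x * α) heav = 0 := by rw [h]; simp
  rw [map_mul, Module.End.mul_apply, h1, map_smul] at h2
  simpa using h2

theorem claimC (N : ℕ) : (rho N).asAlgebraHom (β (2 * N + 2)) del (N + 1) = 4 := by
  have h1 : (rho N).asAlgebraHom (S (2 * N + 2)) del (N + 1) = 1 := by
    simp only [S, map_sum, Representation.asAlgebraHom_of, LinearMap.sum_apply, Finset.sum_apply,
      rho_apply, τ, del]
    rw [Finset.sum_eq_single (N + 1)]
    · simp
    · intro j _ hj
      rw [if_neg (by omega)]; simp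
    · intro h; exact absurd (Finset.mem_range.mpr (by omega)) h
  have h2 : (a 0).φ N (N + 1) = -1 := by
    simp only [a]; rw [if_pos]; rw [Int.abs_eq_natAbs]; omega
  have h3 : (a ((2 * N + 2 : ℕ) : ℤ)).φ N (N + 1) = -1 := by
    simp only [a]; rw [if_pos]; rw [Int.abs_eq_natAbs]; omega
  have h4 : ∀ M, (a M).k = 0 := fun _ => rfl
  simp only [β, map_mul, map_sub, map_one, Representation.asAlgebraHom_of,
      Module.End.mul_apply, LinearMap.sub_apply, Module.End.one_apply,
      Pi.sub_apply, rho_apply, h2, h3, h4, sub_zero, h1]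
  norm_num

theorem result :
    ¬ (∀ (K : Type) [Field K] (G : Type) [Group G] (a : MonoidAlgebra K G),
      ∃ s : Finset (MonoidAlgebra K G),
        ((Submodule.span (MonoidAlgebra K G) (s : Set (MonoidAlgebra K G)) :
            Set (MonoidAlgebra K G)) = {x : MonoidAlgebra K G | x * a = 0})) := by
  intro h
  obtain ⟨s, hs⟩ := h ℚ G α
  choose B hB using claimA
  have key : ∀ x ∈ Submodule.span (MonoidAlgebra ℚ G) (s : Set (MonoidAlgebra ℚ G)),
      (rho (s.sup B)).asAlgebraHom x del = 0 := by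
    intro x hx
    induction hx using Submodule.span_induction with
    | mem x hx =>
      rw [hB x _ (Finset.le_sup hx)]
      apply claimB
      have : x ∈ {x : MonoidAlgebra ℚ G | x * α = 0} := by
        rw [← hs]; exact Submodule.subset_span hx
      exact this
    | zero => simp
    | add x y _ _ hx hy => simp [hx, hy]
    | smul c x _ hx => rw [smul_eq_mul, map_mul, Module.End.mul_apply, hx, map_zero]
  have h1 : β (2 * s.sup B + 2) ∈ {x : MonoidAlgebra ℚ G | x * α = 0} := βα _
  rw [← hs] at h1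
  have h2 := claimC (s.sup B)
  rw [key _ h1] at h2
  simp at h2

end Pool.Agent.S02958
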