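import Pool.Statements.S03016
import Pool.Agent.H21.Hayashi

set_option autoImplicit false
open Pool Pool.MP_c8c3c9_al

namespace Pool.Agent.S03016

theorem result :
    ¬ (∀ (X : Type) [Rack X] [Finite X],
      (∀ y z : X, Relation.EqvGen (fun a b : X => ∃ x : X, Shelf.act x a = b) y z) →
      ∀ x : X, ∃ w : X, ∀ z : X,
        Function.minimalPeriod (Shelf.act x) z ∣ Function.minimalPeriod (Shelf.act x) w) := by
  intro h
  exact Pool.Agent.H21.Hayashi.no_regular
    (h Pool.Agent.H21.Hayashi.X Pool.Agent.H21.Hayashi.conn2 Pool.Agent.H21.Hayashi.c0)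

end Pool.Agent.S03016
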