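import Pool.Statements.S03022
import Pool.Agent.H22.Part3

set_option autoImplicit false
open scoped Pointwise
open Pool Pool.MP_c8ecde_al

namespace Pool.Agent.S03022

/-- The negation of the preceding statement: For every group G and every partition of G into n cells, some cell A satisfies G = F·A·A⁻¹·F⁻¹ for some finite set F ⊆ G with at most n elements. -/
theorem result :
    ¬ (∀ (G : Type) [Group G] (n : ℕ) (A : Fin n → Set G),
      (∀ i j, i ≠ j → Disjoint (A i) (A j)) →
      (⋃ i, A i) = Set.univ →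
      ∃ i : Fin n, ∃ F : Finset G, F.card ≤ n ∧
        (F : Set G) * A i * (A i)⁻¹ * (F : Set G)⁻¹ = Set.univ) := by
  classical
  intro h
  obtain ⟨χ, h1, _⟩ := H22.Part.exists_partition
  obtain ⟨i, F, hF, hU⟩ := h H22.Part.Γ 9 (fun i => {z | χ z = i})
    (fun i j hij => Set.disjoint_left.2 fun z hz hz' => hij (hz.symm.trans hz'))
    (Set.eq_univ_of_forall fun z => Set.mem_iUnion.2 ⟨χ z, rfl⟩)
  obtain ⟨g, hg⟩ := h1 i F (by omega)
  have := hU ▸ Set.mem_univ g
  obtain ⟨_, ⟨_, ⟨f, hf, a, ha, rfl⟩, b, hb, rfl⟩, f', hf', rfl⟩ := this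
  exact hg f hf f'⁻¹ hf' a b⁻¹ ha hb (by simp)

end Pool.Agent.S03022
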