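import Pool.Statements.S03041
import Pool.Agent.H20.Cext

set_option autoImplicit false
open Pool Pool.MP_c9c98b_al

namespace Pool.Agent.S03041

open Pool.Agent.H20.Cext

theorem result :
    ∃ (G : Type) (hG : Group G),
      (∀ (E : Type) (hE : Group E) (f : E →* G), Function.Surjective f →
        f.ker ≤ Subgroup.center E →
        ∀ g : E, g ≠ 1 →
          ∃ (H : Type) (hH : Group H) (φ : E →* H), Group.IsNilpotent H ∧ φ g ≠ 1) ∧
      ∃ (E₁ : Type) (h₁ : Group E₁) (f₁ : E₁ →* G)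
        (E₂ : Type) (h₂ : Group E₂) (f₂ : E₂ →* E₁),
        Function.Surjective f₁ ∧ f₁.ker ≤ Subgroup.center E₁ ∧
        Function.Surjective f₂ ∧ f₂.ker ≤ Subgroup.center E₂ ∧
        ∃ g : E₂, g ≠ 1 ∧
          ∀ (H : Type) (hH : Group H) (φ : E₂ →* H), Group.IsNilpotent H → φ g = 1 := by
  have hle : Z2 ≤ F2.ker := by
    rintro _ ⟨w, rfl⟩
    rfl
  refine ⟨G, inferInstance, fun E _ f hf hk g hg => main f hf hk g hg,
    E2 ⧸ Z2, inferInstance, QuotientGroup.lift Z2 F2 hle, E2, inferInstance, QuotientGroup.mk' Z2,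
    QuotientGroup.lift_surjective_of_surjective _ _ F2_surj _, ?_, QuotientGroup.mk'_surjective _,
    by rw [QuotientGroup.ker_mk']; exact Z2_cen, SemidirectProduct.inl ⟨1, 0, 1⟩, fun e => ?_,
    fun H _ φ h => kill φ h⟩
  · intro x hx
    obtain ⟨⟨⟨n, a, w⟩, k⟩, rfl⟩ := QuotientGroup.mk_surjective x
    obtain rfl : n = 1 := congrArg SemidirectProduct.left hx
    obtain rfl : k = 1 := congrArg SemidirectProduct.right hx
    rw [Subgroup.mem_center_iff]
    intro y
    obtain ⟨g, rfl⟩ := QuotientGroup.mk_surjective y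
    have := congrArg (QuotientGroup.mk' Z2) (conj2 g a w)
    rw [map_mul _ (SemidirectProduct.inl _) (_ * _), show QuotientGroup.mk' Z2 _ = 1 from
      (QuotientGroup.eq_one_iff (SemidirectProduct.inl ⟨1, 0, -(2 * a * g.left.n.v)⟩)).mpr ⟨_, rfl⟩,
      one_mul] at this
    exact this
  · exact absurd (congrArg (fun g : E2 => g.left.w) e) (by decide)

end Pool.Agent.S03041
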