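import Pool.Statements.S03052
import Pool.Agent.H20.UL3

set_option autoImplicit false
open Pool Pool.MP_cacfbf_al

namespace Pool.Agent.S03052

open Pool.Agent.H20.UL3

attribute [local instance 100] LieRing.ofAssociativeRing

theorem result :
    ¬ (∀ (p : ℕ), p.Prime → ∀ (F : Type) [Field F] [CharP F p] (L : Type) [LieRing L] [LieAlgebra F L]
    (f : L → L),
    (∀ (a : F) (x : L), f (a • x) = a ^ p • f x) →
    (∀ x y : L, (LieAlgebra.ad F L x ^ p) y = ⁅f x, y⁆) →
    (∀ x y : L,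
      UniversalEnvelopingAlgebra.ι F (f (x + y)) - UniversalEnvelopingAlgebra.ι F (f x)
        - UniversalEnvelopingAlgebra.ι F (f y)
      = (UniversalEnvelopingAlgebra.ι F x + UniversalEnvelopingAlgebra.ι F y) ^ p
        - UniversalEnvelopingAlgebra.ι F x ^ p - UniversalEnvelopingAlgebra.ι F y ^ p) →
    ∀ R : NonUnitalSubalgebra F (RingQuot (fun a b : UniversalEnvelopingAlgebra F L =>
        ∃ x : L, a = UniversalEnvelopingAlgebra.ι F x ^ p ∧ b = UniversalEnvelopingAlgebra.ι F (f x))),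
    (∃ m : ℕ, ∃ φ : FreeAlgebra F (Fin m), φ ≠ 0 ∧
      ∀ r : Fin m → RingQuot (fun a b : UniversalEnvelopingAlgebra F L =>
        ∃ x : L, a = UniversalEnvelopingAlgebra.ι F x ^ p ∧ b = UniversalEnvelopingAlgebra.ι F (f x)),
        (∀ i, r i ∈ R) → FreeAlgebra.lift F r φ = 0) →
    ∀ n : ℕ, 1 ≤ n →
      (∃ t : ℕ, 1 ≤ t ∧
        ∀ r : Fin (2 * n) → RingQuot (fun a b : UniversalEnvelopingAlgebra F L =>
          ∃ x : L, a = UniversalEnvelopingAlgebra.ι F x ^ p ∧ b = UniversalEnvelopingAlgebra.ι F (f x)),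
          (∀ i, r i ∈ R) →
          (∑ σ : Equiv.Perm (Fin (2 * n)),
            ((Equiv.Perm.sign σ : ℤˣ) : ℤ) • (List.ofFn fun i => r (σ i)).prod) ^ t = 0) →
      (∀ m : ℕ, 1 ≤ m → m < n →
        ¬ ∃ t : ℕ, 1 ≤ t ∧
          ∀ r : Fin (2 * m) → RingQuot (fun a b : UniversalEnvelopingAlgebra F L =>
            ∃ x : L, a = UniversalEnvelopingAlgebra.ι F x ^ p ∧ b = UniversalEnvelopingAlgebra.ι F (f x)),
            (∀ i, r i ∈ R) →
            (∑ σ : Equiv.Perm (Fin (2 * m)),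
              ((Equiv.Perm.sign σ : ℤˣ) : ℤ) • (List.ofFn fun i => r (σ i)).prod) ^ t = 0) →
      ∃ k : ℕ, n = p ^ k) := by
  intro H
  obtain ⟨a, b, h1, h2, h3, h4, h5⟩ := exists_ab
  let ψ := psi a b h1 h2 h3 h4
  have hψ : ∀ M : M2, ψ M = M 0 0 • (a * b) + M 0 1 • a + M 1 0 • b + M 1 1 • (b * a) :=
    fun _ => rfl
  have hmem : ∀ {ι : Type} (r : ι → UU), (∀ i, r i ∈ NonUnitalAlgHom.range ψ) →
      ∃ M : ι → M2, r = fun i => ψ (M i) := fun r hr => by
    choose M hM using hr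
    exact ⟨M, funext fun i => (hM i).symm⟩
  obtain ⟨k, hk⟩ := H 3 Nat.prime_three F L (fun x => x ^ 3) (fun a x => smul_pow a x 3)
    (fun x y => by
      have : (LieAlgebra.ad F L x ^ 3) y = x ^ 3 * y - y * x ^ 3 -
          3 * (x * x * y * x - x * y * x * x) := by
        simp only [pow_succ, pow_zero, one_mul, Module.End.mul_apply, LieAlgebra.ad_apply,
          LieRing.of_associative_ring_bracket]
        noncomm_ring
      rw [this, three]
      simp [LieRing.of_associative_ring_bracket])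
    (fun x y => by
      rw [cube three, ← map_sub, ← map_sub, cube three, map_add, iota_lie, iota_lie, iota_lie,
        iota_lie])
    (NonUnitalAlgHom.range ψ)
    ⟨3, (FreeAlgebra.ι F 0 * FreeAlgebra.ι F 1 - FreeAlgebra.ι F 1 * FreeAlgebra.ι F 0) *
        (FreeAlgebra.ι F 0 * FreeAlgebra.ι F 1 - FreeAlgebra.ι F 1 * FreeAlgebra.ι F 0) *
        FreeAlgebra.ι F 2 - FreeAlgebra.ι F 2 *
        ((FreeAlgebra.ι F 0 * FreeAlgebra.ι F 1 - FreeAlgebra.ι F 1 * FreeAlgebra.ι F 0) *
        (FreeAlgebra.ι F 0 * FreeAlgebra.ι F 1 - FreeAlgebra.ι F 1 * FreeAlgebra.ι F 0)),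
      fun h => by
        have := congrArg (FreeAlgebra.lift F
          (![!![0, 1, 0; 0, 0, 0; 0, 0, 0], !![0, 0, 0; 1, 0, 0; 0, 0, 0], xM] : Fin 3 → L)) h
        simp only [map_sub, map_mul, FreeAlgebra.lift_ι_apply, map_zero] at this
        revert this
        decide,
      fun r hr => by
        obtain ⟨M, rfl⟩ := hmem r hr
        simp only [map_sub, map_mul, FreeAlgebra.lift_ι_apply]
        simp only [← map_mul, ← map_sub]
        rw [hall, map_zero]⟩
    2 (by norm_num)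
    ⟨1, le_rfl, fun r hr => by
      obtain ⟨M, rfl⟩ := hmem r hr
      have := congrArg ψ (s4 M)
      rw [map_zero, map_sum] at this
      rw [pow_one, ← this]
      refine Finset.sum_congr rfl fun σ _ => ?_
      rw [map_zsmul]
      congr 1
      simp [List.ofFn_succ]⟩
    (fun m hm hm2 => by
      obtain rfl : m = 1 := by omega
      rintro ⟨t, _, ht⟩
      have ha : a ∈ NonUnitalAlgHom.range ψ := ⟨!![0, 1; 0, 0], (hψ _).trans (by simp)⟩
      have hb : b ∈ NonUnitalAlgHom.range ψ := ⟨!![0, 0; 1, 0], (hψ _).trans (by simp)⟩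
      have := ht (![a, b] : Fin 2 → UU) (fun i => by fin_cases i <;> assumption)
      apply h5 t
      rw [← this]
      congr 1
      show _ = ∑ σ : Equiv.Perm (Fin 2), ((Equiv.Perm.sign σ : ℤˣ) : ℤ) •
        (List.ofFn fun i => (![a, b] : Fin 2 → UU) (σ i)).prod
      rw [show (Finset.univ : Finset (Equiv.Perm (Fin 2))) = {1, Equiv.swap 0 1} by decide,
        Finset.sum_pair (by decide)]
      simp [List.ofFn_succ, sub_eq_add_neg])
  clear H
  rcases k with _ | k
  · omega
  · rw [pow_succ] at hk; omega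

end Pool.Agent.S03052
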