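import Pool.Statements.S03082
import Pool.Agent.H21.Lim1

set_option autoImplicit false
open CategoryTheory CategoryTheory.Limits
open Pool Pool.MP_cd2797_al

namespace Pool.Agent.S03082

/-- The negation of the preceding statement: For any ring and any class C of modules, if the class of direct limits of modules from C is closed under direct summands, then it is closed under direct limits over directed sets. -/
theorem result :
    ¬ (∀ (R : Type) [Ring R] (C : Set (ModuleCat.{0} R)) (L : ModuleCat.{0} R → Prop),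
    (∀ M : ModuleCat.{0} R, L M ↔
      ∃ (ι : Type) (_ : Preorder ι) (_ : IsDirected ι (· ≤ ·)) (_ : Nonempty ι)
        (F : ι ⥤ ModuleCat.{0} R) (c : Cocone F),
        Nonempty (IsColimit c) ∧ Nonempty (c.pt ≅ M) ∧ ∀ i, F.obj i ∈ C) →
    (∀ (M N : ModuleCat.{0} R) (s : N ⟶ M) (r : M ⟶ N), s ≫ r = 𝟙 N → L M → L N) →
    ∀ (ι : Type) (_ : Preorder ι) (_ : IsDirected ι (· ≤ ·)) (_ : Nonempty ι)
      (F : ι ⥤ ModuleCat.{0} R) (c : Cocone F),
      Nonempty (IsColimit c) → (∀ i, L (F.obj i)) → L c.pt) := by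
  open Pool.Agent.H21.Lim in
  intro h
  have hA : ∀ n, ∃ (ι : Type) (_ : Preorder ι) (_ : IsDirected ι (· ≤ ·)) (_ : Nonempty ι)
      (F : ι ⥤ ModuleCat.{0} R) (c : Cocone F), Nonempty (IsColimit c) ∧
      Nonempty (c.pt ≅ ModuleCat.of R (W {x | x.1 ≤ n})) ∧ ∀ i, F.obj i ∈ C := fun n => by
    obtain ⟨F, c, h1, h2, h3⟩ := chain (fun m => W (A n m))
      (fun a b hab => W_mono fun x hx => hx.imp id fun h => ⟨h.1, h.2.trans hab⟩)
      (W {x | x.1 ≤ n}) (fun m => W_mono fun x hx => hx.elim le_of_eq fun h => h.1.le)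
      (fun v hv => (bound v Prod.snd).imp fun m hm x hx => by
        by_cases h : x.1 ≤ n
        · simp only [A, Set.mem_setOf_eq] at hx
          exact hm x (by omega)
        · exact hv x h)
    refine ⟨ℕ, inferInstance, inferInstance, inferInstance, F, c, h1, ⟨eqToIso h2⟩, fun m => ?_⟩
    rw [h3]
    exact ⟨(W (A n m)).subtype, Subtype.val_injective, .inr ⟨n, m, Submodule.range_subtype _⟩⟩
  obtain ⟨F, c, h1, h2, h3⟩ := chain (fun n => W {x | x.1 ≤ n})
    (fun a b hab => W_mono fun x hx => le_trans hx hab) ⊤ (fun _ => le_top)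
    (fun v _ => (bound v Prod.fst).imp fun m hm x hx => hm x (not_le.1 hx))
  obtain ⟨ι, _, _, _, G, d, ⟨hd⟩, ⟨e⟩, hG⟩ := h R C _ (fun _ => Iff.rfl) (by
    rintro M N s r hs ⟨ι, _, _, _, G, d, ⟨hd⟩, ⟨e⟩, hG⟩
    have hsr : ∀ n, r.hom (s.hom n) = n := fun n => ConcreteCategory.congr_hom hs n
    rcases subsingleton_or_nontrivial N with hN | hN
    · obtain ⟨F, c, h1, h2, h3⟩ := chain (R := R) (V := N) (fun _ => ⊤) monotone_const ⊤
        (fun _ => le_rfl) fun _ _ => ⟨0, trivial⟩
      refine ⟨ℕ, inferInstance, inferInstance, inferInstance, F, c, h1,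
        ⟨eqToIso h2 ≪≫ Submodule.topEquiv.toModuleIso⟩, fun m => ?_⟩
      rw [h3]
      exact ⟨0, Function.injective_of_subsingleton _, .inl rfl⟩
    · refine ⟨ι, inferInstance, inferInstance, inferInstance, G, d, ⟨hd⟩, ⟨e ≪≫
        (LinearEquiv.ofBijective r.hom ⟨?_, fun n => ⟨_, hsr n⟩⟩).toModuleIso⟩, hG⟩
      rw [injective_iff_map_eq_zero]
      intro m hm
      by_contra h0
      obtain ⟨n, hn⟩ := exists_ne (0 : N)
      let f := e.toLinearEquiv
      obtain ⟨a, b, h5, h6⟩ := uniform hd hG (f.symm m) (f.symm (s.hom n)) (by simpa using h0)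
        (by
          rw [Ne, LinearEquiv.map_eq_zero_iff]
          intro h
          apply hn
          rw [← hsr n, h, map_zero])
      rw [← map_smul, ← map_smul, f.symm.injective.eq_iff] at h5
      have h7 := congrArg r.hom h5
      rw [map_smul, hm, smul_zero, map_smul, hsr] at h7
      apply h6
      rw [← map_smul, h5, ← map_smul, ← h7, map_zero, map_zero])
    ℕ inferInstance inferInstance inferInstance F c h1 fun n => by rw [h3]; exact hA n
  let f := (e ≪≫ eqToIso h2).toLinearEquiv.trans Submodule.topEquiv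
  exact not_lim hd hG f.toLinearMap f.surjective

end Pool.Agent.S03082
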