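import Pool.Statements.S03098
import Pool.Agent.H23.CoH4

set_option autoImplicit false
open Pool Pool.MP_ce123d_al

namespace Pool.Agent.S03098

theorem result :
    ¬ (∀ (S : Type) [Semigroup S] (T : Subsemigroup S),
      (∃ G : Finset S, Subsemigroup.closure (G : Set S) = T) →
      (∃ F : Finset S, ∀ u : S, u ∉ T → ∃ v ∈ F, v ∉ T ∧
        ((u = v ∨ ∃ t ∈ T, u = v * t) ∧ (v = u ∨ ∃ t ∈ T, v = u * t)) ∧
        ((u = v ∨ ∃ t ∈ T, u = t * v) ∧ (v = u ∨ ∃ t ∈ T, v = t * u))) →
      (∀ f : T →ₙ* T, Function.Injective f → Function.Surjective f) →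
      ∀ f : S →ₙ* S, Function.Injective f → Function.Surjective f) := by
  exact Pool.Agent.H23.CoH.main1

end Pool.Agent.S03098
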