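import Pool.Statements.S03116
import Pool.Agent.H22.Part3

set_option autoImplicit false
open Pointwise
open Pool Pool.MP_cfdc37_al

namespace Pool.Agent.S03116

/-- The negation of the preceding statement: For every n ≥ 1: any partition of any group into n cells has a cell A with G = F·A·A⁻¹ for some finite F of size at most n, and some group has an n-cell partition where every such F needs at least n elements. -/
theorem result :
    ¬ (∀ n : ℕ, 1 ≤ n →
    (∀ (G : Type) [Group G] (A : Fin n → Set G),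
      (⋃ i, A i) = Set.univ → Pairwise (fun i j => Disjoint (A i) (A j)) →
      ∃ i : Fin n, ∃ F : Finset G, F.card ≤ n ∧ (F : Set G) * A i * (A i)⁻¹ = Set.univ) ∧
    (∃ (G : Type) (_ : Group G), ∃ A : Fin n → Set G,
      (⋃ i, A i) = Set.univ ∧ Pairwise (fun i j => Disjoint (A i) (A j)) ∧
      ∀ i : Fin n, ∀ F : Finset G, (F : Set G) * A i * (A i)⁻¹ = Set.univ → n ≤ F.card)) := by
  classical
  intro h
  obtain ⟨χ, h1, _⟩ := H22.Part.exists_partition
  obtain ⟨i, F, hF, hU⟩ := (h 9 (by omega)).1 H22.Part.Γ (fun i => {z | χ z = i})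
    (Set.eq_univ_of_forall fun z => Set.mem_iUnion.2 ⟨χ z, rfl⟩)
    (fun i j hij => Set.disjoint_left.2 fun z hz hz' => hij (hz.symm.trans hz'))
  obtain ⟨g, hg⟩ := h1 i (insert 1 F) ((Finset.card_insert_le _ _).trans (by omega))
  have := hU ▸ Set.mem_univ g
  obtain ⟨_, ⟨f, hf, a, ha, rfl⟩, b, hb, rfl⟩ := this
  exact hg f (Finset.mem_insert_of_mem hf) 1 (Finset.mem_insert_self _ _) a b⁻¹ ha hb
    (by simp)

end Pool.Agent.S03116
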