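import Pool.Statements.S03160

set_option autoImplicit false
open Pool Pool.MP_d30538_al
open scoped commutatorElement

namespace Pool.Agent.S03160

abbrev Ω := Fin 9 × Fin 3
abbrev C := Fin 3 × Fin 3 × Fin 3
abbrev F := FreeGroup Bool

def sel (c : C) (p : Fin 9) : Fin 3 :=
  if p.val % 3 = 0 then c.1 else if p.val % 3 = 1 then c.2.1 else c.2.2
def up (a : Fin 3) : Fin 9 := if a = 0 then 0 else if a = 1 then 3 else 6
def f3 (c : C) (q : Ω) : Ω := (q.1, q.2 + sel c q.1)
def f1 (c : C) (q : Ω) : Ω :=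
  ((1 + up (2 * (c.1 + c.2.1 + c.2.2))) * q.1 + up (c.2.1 + 2 * c.2.2), q.2 + sel c q.1)
def gx (q : Ω) : Ω := (2 * q.1, q.2 + sel (1, 0, 0) q.1)
def gx' (q : Ω) : Ω := (5 * q.1, q.2 + sel (2, 0, 0) q.1)
def gy (q : Ω) : Ω := (q.1 + 1, q.2)
def gy' (q : Ω) : Ω := (q.1 + 8, q.2)
def pX : Equiv.Perm Ω := ⟨gx, gx', by decide +kernel, by decide +kernel⟩
def pY : Equiv.Perm Ω := ⟨gy, gy', by decide +kernel, by decide +kernel⟩
def θ : F →* Equiv.Perm Ω := FreeGroup.lift (fun b => if b then pX else pY)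
def x : F := FreeGroup.of true
def y : F := FreeGroup.of false
theorem θx : θ x = pX := by simp [θ, x]
theorem θy : θ y = pY := by simp [θ, y]

def add (c d : C) : C := (c.1 + d.1, c.2.1 + d.2.1, c.2.2 + d.2.2)
def neg (c : C) : C := (2 * c.1, 2 * c.2.1, 2 * c.2.2)
def sx (c : C) : C := (c.1, c.2.2, c.2.1)
def sy (c : C) : C := (c.2.2, c.1, c.2.1)
def sy' (c : C) : C := (c.2.1, c.2.2, c.1)

def Good (f : C → Ω → Ω) : Prop :=
  (∀ q, f (0, 0, 0) q = q) ∧ (∀ c d q, f c (f d q) = f (add c d) q) ∧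
  (∀ c q, f (neg c) (f c q) = q) ∧ (∀ c q, gx (f c (gx' q)) = f (sx c) q) ∧
  (∀ c q, gx' (f c (gx q)) = f (sx c) q) ∧ (∀ c q, gy (f c (gy' q)) = f (sy c) q) ∧
  (∀ c q, gy' (f c (gy q)) = f (sy' c) q)

theorem good1 : Good f1 := by unfold Good; decide +kernel
theorem good3 : Good f3 := by unfold Good; decide +kernel

def N (f : C → Ω → Ω) (h : Good f) : Subgroup F where
  carrier := {v | ∃ c, ∀ q, θ v q = f c q}
  one_mem' := ⟨(0, 0, 0), fun q => by simp [h.1]⟩
  mul_mem' := by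
    rintro a b ⟨c, hc⟩ ⟨d, hd⟩
    exact ⟨add c d, fun q => by rw [map_mul, Equiv.Perm.mul_apply, hd, hc, h.2.1]⟩
  inv_mem' := by
    rintro a ⟨c, hc⟩
    refine ⟨neg c, fun q => ?_⟩
    obtain ⟨q, rfl⟩ := (θ a).surjective q
    rw [map_inv, Equiv.Perm.inv_def, Equiv.symm_apply_apply, hc, h.2.2.1]

theorem N_normal (f : C → Ω → Ω) (h : Good f) : (N f h).Normal := by
  refine ⟨fun v hv g => ?_⟩
  induction g using FreeGroup.induction_on generalizing v with
  | C1 => simpa using hv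
  | of b =>
    obtain ⟨c, hc⟩ := hv
    cases b
    · refine ⟨sy c, fun q => ?_⟩
      rw [← h.2.2.2.2.2.1, ← hc]
      simp only [map_mul, map_inv]
      rw [show θ (FreeGroup.of false) = pY from θy]
      rfl
    · refine ⟨sx c, fun q => ?_⟩
      rw [← h.2.2.2.1, ← hc]
      simp only [map_mul, map_inv]
      rw [show θ (FreeGroup.of true) = pX from θx]
      rfl
  | inv_of b _ =>
    obtain ⟨c, hc⟩ := hv
    cases b
    · refine ⟨sy' c, fun q => ?_⟩
      rw [← h.2.2.2.2.2.2, ← hc]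
      simp only [map_mul, map_inv, inv_inv]
      rw [show θ (FreeGroup.of false) = pY from θy]
      rfl
    · refine ⟨sx c, fun q => ?_⟩
      rw [← h.2.2.2.2.1, ← hc]
      simp only [map_mul, map_inv, inv_inv]
      rw [show θ (FreeGroup.of true) = pX from θx]
      rfl
  | mul g k hg hk =>
    have := hg _ (hk v hv)
    simpa [mul_assoc] using this

def r3 : F := x * y * x⁻¹ * y⁻¹ * y⁻¹
abbrev R (r : F) : Subgroup F := Subgroup.normalClosure {r}

theorem R1_le : R (x * x) ≤ N f1 good1 := by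
  haveI := N_normal f1 good1
  refine Subgroup.normalClosure_le_normal ?_
  rintro _ rfl
  refine ⟨(2, 0, 0), fun q => ?_⟩
  rw [map_mul, θx]
  show gx (gx q) = _
  revert q
  decide +kernel

theorem R3_le : R r3 ≤ N f3 good3 := by
  haveI := N_normal f3 good3
  refine Subgroup.normalClosure_le_normal ?_
  rintro _ rfl
  refine ⟨(1, 0, 2), fun q => ?_⟩
  simp only [r3, map_mul, map_inv, θx, θy]
  show gx (gy (gx' (gy' (gy' q)))) = _
  revert q
  decide +kernel

theorem comm13 (g h : F) (hg : g ∈ R (x * x)) (hh : h ∈ R r3) : θ g * θ h = θ h * θ g := by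
  obtain ⟨c, hc⟩ := R1_le hg
  obtain ⟨d, hd⟩ := R3_le hh
  refine Equiv.ext fun q => ?_
  simp only [Equiv.Perm.mul_apply, hc, hd]
  revert c d q
  have : ∀ c d q, f1 c (f3 d q) = f3 d (f1 c q) := by decide +kernel
  intro c _ d _ q
  exact this c d q

theorem central (g h : F) (h1 : h ∈ R (x * x)) (h3 : h ∈ R r3) : θ g * θ h = θ h * θ g := by
  obtain ⟨c, hc⟩ := R1_le h1
  obtain ⟨d, hd⟩ := R3_le h3
  have key : ∀ c d, (∀ q, f1 c q = f3 d q) →
      ∀ q, gx (f3 d q) = f3 d (gx q) ∧ gy (f3 d q) = f3 d (gy q) := by decide +kernel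
  have k := key c d (fun q => (hc q).symm.trans (hd q))
  show Commute (θ g) (θ h)
  induction g using FreeGroup.induction_on with
  | C1 => simp
  | of b =>
    cases b
    · rw [show θ (FreeGroup.of false) = pY from θy]
      refine Equiv.ext fun q => ?_
      simp only [Equiv.Perm.mul_apply, hd]
      exact (k q).2
    · rw [show θ (FreeGroup.of true) = pX from θx]
      refine Equiv.ext fun q => ?_
      simp only [Equiv.Perm.mul_apply, hd]
      exact (k q).1
  | inv_of b ih => rw [map_inv]; exact ih.inv_left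
  | mul g k hg hk => rw [map_mul]; exact hg.mul_left hk

def D : Subgroup F := ⁅R (x * x), R x ⊓ R r3⁆ ⊔ ⁅R x, R (x * x) ⊓ R r3⁆ ⊔ ⁅R r3, R (x * x) ⊓ R x⁆

instance : D.Normal := by unfold D; infer_instance

theorem D_le : D ≤ θ.ker := by
  refine sup_le (sup_le ?_ ?_) ?_ <;> rw [Subgroup.commutator_le] <;> intro g hg h hh <;>
    rw [MonoidHom.mem_ker, map_commutatorElement, commutatorElement_eq_one_iff_mul_comm]
  · exact comm13 g h hg hh.2
  · exact central g h hh.1 hh.2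
  · exact (comm13 h g hh.1 hg).symm

def b : F := x * x * y * (x * x)⁻¹ * y⁻¹
def w : F := b * y * b⁻¹ * y⁻¹

theorem w_not : w ∉ D := by
  intro h
  have h1 : θ w (0, 0) = (0, 0) := by rw [D_le h]; rfl
  simp only [w, b, map_mul, map_inv, θx, θy, mul_inv_rev, inv_inv] at h1
  have h2 : gx (gx (gy (gx' (gx' (gy' (gy (gy (gx (gx (gy' (gx' (gx' (gy' (0, 0)))))))))))))) =
      (0, 0) := h1
  revert h2
  decide +kernel

theorem mem_R (r : F) : r ∈ R r := Subgroup.subset_normalClosure rfl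

theorem comm_mem (K : Subgroup F) [hK : K.Normal] (g h : F) (hg : g ∈ K) : g * h * g⁻¹ * h⁻¹ ∈ K := by
  have := K.mul_mem hg (hK.conj_mem _ (K.inv_mem hg) h)
  simpa [mul_assoc] using this

theorem b1 : b ∈ R (x * x) := comm_mem _ _ _ (mem_R _)
theorem b2 : b ∈ R x := comm_mem _ _ _ ((R x).mul_mem (mem_R _) (mem_R _))
theorem w1 : w ∈ R (x * x) := comm_mem _ _ _ b1
theorem w2 : w ∈ R x := comm_mem _ _ _ b2

theorem by3 : b⁻¹ * y ^ 3 ∈ R r3 := by
  rw [← QuotientGroup.eq_one_iff]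
  have h : ((x * y * x⁻¹ * y⁻¹ * y⁻¹ : F) : F ⧸ R r3) = 1 :=
    (QuotientGroup.eq_one_iff r3).mpr (mem_R r3)
  simp only [b, QuotientGroup.mk_mul, QuotientGroup.mk_inv, QuotientGroup.mk_pow] at h ⊢
  generalize (x : F ⧸ R r3) = X at *
  generalize (y : F ⧸ R r3) = Y at *
  have h1 : X * Y * X⁻¹ = Y * Y := by
    rw [mul_inv_eq_one, mul_inv_eq_iff_eq_mul] at h; exact h
  have h2 : X * X * Y * (X * X)⁻¹ = Y * Y * (Y * Y) := by
    calc X * X * Y * (X * X)⁻¹ = X * (X * Y * X⁻¹) * X⁻¹ := by group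
      _ = X * (Y * Y) * X⁻¹ := by rw [h1]
      _ = (X * Y * X⁻¹) * (X * Y * X⁻¹) := by group
      _ = _ := by rw [h1]
  rw [h2]
  group

theorem w3 : w ∈ R r3 := by
  have h := (QuotientGroup.eq_one_iff _).mpr by3
  rw [← QuotientGroup.eq_one_iff]
  simp only [w, QuotientGroup.mk_mul, QuotientGroup.mk_inv, QuotientGroup.mk_pow] at h ⊢
  rw [inv_mul_eq_one.mp h]
  group

theorem w_cube : w ^ 3 ∈ D := by
  have c2 : ∀ g ∈ R x, ∀ h ∈ R (x * x) ⊓ R r3, Commute (g : F ⧸ D) h := by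
    intro g hg h hh
    have : ⁅g, h⁆ ∈ D := Subgroup.mem_sup_left (Subgroup.mem_sup_right
      (Subgroup.commutator_mem_commutator hg hh))
    rw [← QuotientGroup.eq_one_iff] at this
    exact commutatorElement_eq_one_iff_commute.mp this
  have c3 : ∀ g ∈ R r3, ∀ h ∈ R (x * x) ⊓ R x, Commute (g : F ⧸ D) h := by
    intro g hg h hh
    have : ⁅g, h⁆ ∈ D := Subgroup.mem_sup_right (Subgroup.commutator_mem_commutator hg hh)
    rw [← QuotientGroup.eq_one_iff] at this
    exact commutatorElement_eq_one_iff_commute.mp this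
  have h1 := c2 _ (comm_mem _ x y (mem_R x)) w ⟨w1, w3⟩
  have h2 := c3 _ (mem_R r3) w ⟨w1, w2⟩
  have h3 := c3 _ by3 b ⟨b1, b2⟩
  have h4 : Commute (y : F ⧸ D) w := by
    have := h2.inv_left.mul_left h1
    rw [← QuotientGroup.mk_inv, ← QuotientGroup.mk_mul] at this
    have e : r3⁻¹ * (x * y * x⁻¹ * y⁻¹) = y := by rw [r3]; group
    rwa [e] at this
  rw [← QuotientGroup.eq_one_iff]
  have h5 : (w : F ⧸ D) * y = b * y * (b : F ⧸ D)⁻¹ := by
    simp only [w, QuotientGroup.mk_mul, QuotientGroup.mk_inv]; group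
  simp only [QuotientGroup.mk_mul, QuotientGroup.mk_inv, QuotientGroup.mk_pow] at h3 ⊢
  generalize (w : F ⧸ D) = W at *
  generalize (y : F ⧸ D) = Y at *
  generalize (b : F ⧸ D) = B at *
  have h6 : W ^ 3 * Y ^ 3 = B * Y ^ 3 * B⁻¹ := by
    rw [← h4.symm.mul_pow, h5, conj_pow]
  have h7 : Commute (Y ^ 3) B := by
    have := (Commute.refl B).mul_left h3
    simpa using this
  rw [← h7.eq, mul_inv_cancel_right] at h6
  simpa using h6

theorem result :
    ¬ (∀ (α : Type) (r₁ r₂ r₃ x : FreeGroup α) (n : ℕ), 0 < n →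
      x ∈ Subgroup.normalClosure ({r₁} : Set (FreeGroup α)) ⊓
          Subgroup.normalClosure ({r₂} : Set (FreeGroup α)) ⊓
          Subgroup.normalClosure ({r₃} : Set (FreeGroup α)) →
      x ^ n ∈
        (⁅Subgroup.normalClosure ({r₁} : Set (FreeGroup α)),
            Subgroup.normalClosure ({r₂} : Set (FreeGroup α)) ⊓
              Subgroup.normalClosure ({r₃} : Set (FreeGroup α))⁆ ⊔
          ⁅Subgroup.normalClosure ({r₂} : Set (FreeGroup α)),
            Subgroup.normalClosure ({r₁} : Set (FreeGroup α)) ⊓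
              Subgroup.normalClosure ({r₃} : Set (FreeGroup α))⁆ ⊔
          ⁅Subgroup.normalClosure ({r₃} : Set (FreeGroup α)),
            Subgroup.normalClosure ({r₁} : Set (FreeGroup α)) ⊓
              Subgroup.normalClosure ({r₂} : Set (FreeGroup α))⁆) →
      x ∈
        (⁅Subgroup.normalClosure ({r₁} : Set (FreeGroup α)),
            Subgroup.normalClosure ({r₂} : Set (FreeGroup α)) ⊓
              Subgroup.normalClosure ({r₃} : Set (FreeGroup α))⁆ ⊔
          ⁅Subgroup.normalClosure ({r₂} : Set (FreeGroup α)),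
            Subgroup.normalClosure ({r₁} : Set (FreeGroup α)) ⊓
              Subgroup.normalClosure ({r₃} : Set (FreeGroup α))⁆ ⊔
          ⁅Subgroup.normalClosure ({r₃} : Set (FreeGroup α)),
            Subgroup.normalClosure ({r₁} : Set (FreeGroup α)) ⊓
              Subgroup.normalClosure ({r₂} : Set (FreeGroup α))⁆)) := by
  intro h
  exact w_not (h Bool (x * x) x r3 w 3 (by norm_num) ⟨⟨w1, w2⟩, w3⟩ w_cube)

end Pool.Agent.S03160
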