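import Pool.Statements.S03180

set_option autoImplicit false
open Pool Pool.MP_d4d493_al

namespace Pool.Agent.S03180
abbrev I := Σ n : ℕ, Fin n × Bool
abbrev V := I →₀ ℂ
abbrev C := ℂ × (I × I → ℂ)

noncomputable def b1 : V →ₗ[ℂ] V →ₗ[ℂ] ℂ :=
  Finsupp.lsum ℂ fun p => if p.2.2 then
    LinearMap.smulRight LinearMap.id (Finsupp.lapply (⟨p.1, p.2.1, false⟩ : I)) else 0

noncomputable def B (x y : V) : C :=
  (b1 x y - b1 y x, fun pq => if pq.1.1 = pq.2.1 then 0 else x pq.1 * y pq.2 - y pq.1 * x pq.2)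

def L : Type := V × C

noncomputable instance : AddCommGroup L := inferInstanceAs (AddCommGroup (V × C))
noncomputable instance : Module ℂ L := inferInstanceAs (Module ℂ (V × C))

noncomputable instance : Bracket L L := ⟨fun x y => ((0, B x.1 y.1) : V × C)⟩

lemma br (x y : L) : ⁅x, y⁆ = ((0, B x.1 y.1) : V × C) := rfl

lemma B_add_left (x y z : V) : B (x + y) z = B x z + B y z := by
  refine Prod.ext ?_ (funext fun pq => ?_)
  · simp [B]; ring
  · simp only [B, Finsupp.add_apply, Prod.snd_add, Pi.add_apply]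
    split_ifs <;> ring

lemma B_add_right (x y z : V) : B x (y + z) = B x y + B x z := by
  refine Prod.ext ?_ (funext fun pq => ?_)
  · simp [B]; ring
  · simp only [B, Finsupp.add_apply, Prod.snd_add, Pi.add_apply]
    split_ifs <;> ring

lemma B_smul (t : ℂ) (x y : V) : B x (t • y) = t • B x y := by
  refine Prod.ext ?_ (funext fun pq => ?_)
  · simp [B]; ring
  · simp only [B, Finsupp.smul_apply, Prod.smul_snd, Pi.smul_apply, smul_eq_mul]
    split_ifs <;> ring

lemma B_self (x : V) : B x x = 0 := by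
  refine Prod.ext ?_ (funext fun pq => ?_) <;> simp [B]

lemma B_zl (x : V) : B 0 x = 0 := by
  refine Prod.ext ?_ (funext fun pq => ?_) <;> simp [B]

lemma B_zr (x : V) : B x 0 = 0 := by
  refine Prod.ext ?_ (funext fun pq => ?_) <;> simp [B]

noncomputable instance : LieRing L where
  add_lie x y z := Prod.ext (add_zero _).symm (B_add_left _ _ _)
  lie_add x y z := Prod.ext (add_zero _).symm (B_add_right _ _ _)
  lie_self x := Prod.ext rfl (B_self _)
  leibniz_lie x y z := Prod.ext (add_zero _).symm (by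
    change B x.1 0 = B 0 z.1 + B y.1 0
    simp [B_zl, B_zr])

noncomputable instance : LieAlgebra ℂ L where
  lie_smul t x y := Prod.ext (smul_zero _).symm (B_smul _ _ _)

noncomputable def iv : V →ₗ[ℂ] L := LinearMap.inl ℂ V C

noncomputable def zz : L := ((0, 1, 0) : V × C)

lemma pair (n : ℕ) (i j : Fin n) :
    ⁅iv (Finsupp.single ⟨n, i, true⟩ 1), iv (Finsupp.single ⟨n, j, false⟩ 1)⁆ =
      (if i = j then (1 : ℂ) else 0) • zz := by
  refine Prod.ext (smul_zero _).symm (Prod.ext ?_ (funext fun pq => ?_))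
  · change b1 (Finsupp.single _ 1) (Finsupp.single _ 1) -
      b1 (Finsupp.single _ 1) (Finsupp.single _ 1) = (if i = j then (1 : ℂ) else 0) • (1 : ℂ)
    simp only [b1, Finsupp.lsum_single]
    by_cases h : i = j
    · simp [h]
    · simp [h, Ne.symm h]
  · change (B (Finsupp.single _ 1) (Finsupp.single _ 1)).2 pq =
      (if i = j then (1 : ℂ) else 0) • (0 : ℂ)
    simp only [B, Finsupp.single_apply, smul_zero]
    split_ifs with h h1 h2 h3 h4 <;> simp_all <;> grind

/-- The negation of the preceding statement: Let L be a 2-step nilpotent Lie algebra over an algebraically closed field, where each non-central element's centralizer lies in a finite-dimensional subspace plus the center. Then every nonzero element lies outside some Lie ideal of finite codimension. -/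
theorem result :
    ¬ (∀ (K : Type) (L : Type) [Field K] [IsAlgClosed K] [LieRing L] [LieAlgebra K L],
      (∀ x y z : L, ⁅x, ⁅y, z⁆⁆ = 0) →
      (∀ x : L, (∃ y : L, ⁅x, y⁆ ≠ 0) →
        ∃ W : Submodule K L, FiniteDimensional K W ∧
          ∀ y : L, ⁅x, y⁆ = 0 →
            ∃ w ∈ W, ∃ z : L, (∀ u : L, ⁅z, u⁆ = 0) ∧ y = w + z) →
      ∀ x : L, x ≠ 0 →
        ∃ I : LieIdeal K L, x ∉ I ∧ FiniteDimensional K (L ⧸ (I : Submodule K L))) := by
  intro h
  obtain ⟨J, hz, hfin⟩ := h ℂ L (fun x y z => Prod.ext rfl (B_zr _)) (by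
    rintro x ⟨y0, hy0⟩
    have hx : x.1 ≠ 0 := fun h0 => hy0 (by rw [br, h0, B_zl]; rfl)
    obtain ⟨p, hp⟩ := Finsupp.ne_iff.mp hx
    have hS : {q : I | q.1 = p.1 ∨ q ∈ x.1.support}.Finite := by
      refine Set.Finite.union (s := {q : I | q.1 = p.1}) ?_ (Finset.finite_toSet _)
      refine (Set.finite_range fun a : Fin p.1 × Bool => (⟨p.1, a⟩ : I)).subset ?_
      rintro ⟨m, a⟩ (rfl : m = p.1)
      exact ⟨a, rfl⟩
    have := hS.to_subtype
    have : FiniteDimensional ℂ (Finsupp.supported ℂ ℂ {q : I | q.1 = p.1 ∨ q ∈ x.1.support}) :=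
      (Finsupp.supportedEquivFinsupp _).symm.finiteDimensional
    refine ⟨(Finsupp.supported ℂ ℂ {q : I | q.1 = p.1 ∨ q ∈ x.1.support}).map iv,
      inferInstance, fun y hy => ⟨iv y.1, ⟨y.1, ?_, rfl⟩, ((0, y.2) : V × C),
        fun u => Prod.ext rfl (B_zl _), Prod.ext (add_zero _).symm (zero_add _).symm⟩⟩
    intro q hq
    by_contra hn
    simp only [Set.mem_ofPred_eq, not_or, Finsupp.mem_support_iff, not_not] at hn
    have h1 := congrFun (congrArg (fun w : V × C => w.2.2) hy) (p, q)
    simp only [br, B, if_neg (Ne.symm hn.1), hn.2, mul_zero, sub_zero] at h1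
    exact mul_ne_zero hp (Finsupp.mem_support_iff.mp hq) h1)
    zz (fun h0 => one_ne_zero (congrArg (fun w : V × C => w.2.1) h0))
  have hli : ∀ n, LinearIndependent ℂ fun i : Fin n =>
      (J : Submodule ℂ L).mkQ (iv (Finsupp.single ⟨n, i, true⟩ 1)) := by
    intro n
    rw [Fintype.linearIndependent_iff]
    intro g hg j
    simp only [← map_smul (Submodule.mkQ _), ← map_sum] at hg
    have h1 : ∑ i, g i • iv (Finsupp.single ⟨n, i, true⟩ 1) ∈ J :=
      (Submodule.Quotient.mk_eq_zero _).mp hg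
    have h2 := lie_mem_left ℂ L J _ (iv (Finsupp.single ⟨n, j, false⟩ 1)) h1
    simp only [sum_lie, smul_lie, pair, smul_smul, mul_ite, mul_one, mul_zero, ← Finset.sum_smul,
      Finset.sum_ite_eq', Finset.mem_univ, if_true] at h2
    by_contra hj
    apply hz
    have := J.toSubmodule.smul_mem (g j)⁻¹ h2
    rwa [smul_smul, inv_mul_cancel₀ hj, one_smul] at this
  have key : ∀ n, n ≤ _ := fun n => (Fintype.card_fin n).symm.le.trans
    (hli n).fintype_card_le_finrank
  exact absurd (key (_ + 1)) (Nat.not_succ_le_self _)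

end Pool.Agent.S03180
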