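import Pool.Statements.S03188

set_option autoImplicit false
open scoped Pointwise Classical
open Pool Pool.MP_d581c5_al

namespace Pool.Agent.S03188

abbrev G := FreeGroup Bool
abbrev Wd := List (Bool × Bool)

def c : Bool → Wd → ℕ
  | _, [] => 0
  | x, y :: l => (if x = y.2 then 0 else 1) + c y.2 l

theorem c_le (x y : Bool) (l : Wd) : c x l ≤ (if x = y then 0 else 1) + c y l := by
  rcases l with _ | ⟨⟨z, _ | _⟩, l⟩ <;> cases x <;> cases y <;> simp [c] <;> omega

theorem c_sub {l₁ l₂ : Wd} (h : l₁.Sublist l₂) (x : Bool) : c x l₁ ≤ c x l₂ := by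
  induction h generalizing x with
  | slnil => exact le_rfl
  | cons y _ ih => exact (c_le x y.2 _).trans (Nat.add_le_add_left (ih _) _)
  | cons_cons y _ ih => exact Nat.add_le_add_left (ih _) _

theorem c_append (x : Bool) (u v : Wd) : c x (u ++ v) ≤ c x u + max (c true v) (c false v) := by
  induction u generalizing x with
  | nil => cases x <;> simp [c]
  | cons y u ih =>
    have := ih y.2
    simp only [List.cons_append, c]
    omega

theorem c_const (x : Bool) (p q : Wd) (h : c x (p ++ q) = c x p) : ∃ y, ∀ e ∈ q, e.2 = y := by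
  induction p generalizing x with
  | nil =>
    refine ⟨x, ?_⟩
    induction q with
    | nil => simp
    | cons e q ih =>
      simp only [List.nil_append, c, Nat.add_eq_zero_iff, ite_eq_left_iff, one_ne_zero, imp_false,
        not_not] at h ih
      intro f hf
      rcases List.mem_cons.mp hf with rfl | hf
      · exact h.1.symm
      · exact ih (h.1 ▸ h.2) f hf
  | cons y p ih =>
    simp only [List.cons_append, c, Nat.add_left_cancel_iff] at h
    exact ih _ h

theorem c_of_const (y : Bool) (q : Wd) (h : ∀ e ∈ q, e.2 = y) (x : Bool) : c x q ≤ 1 := by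
  have : c y q = 0 := by
    induction q with
    | nil => rfl
    | cons e q ih => simp [c, h e (by simp), ih fun f hf => h f (by simp [hf])]
  have h2 := c_le x y q
  split_ifs at h2 <;> omega

def M (g : G) : ℕ := max (c true g.toWord) (c false g.toWord)

theorem M_mul (g h : G) : M (g * h) ≤ M g + M h := by
  have h1 := fun x => (c_sub (FreeGroup.toWord_mul_sublist g h) x).trans (c_append x _ _)
  have h2 := h1 true
  have h3 := h1 false
  unfold M
  omega

def hom : G →* Multiplicative ℤ := FreeGroup.lift fun _ => Multiplicative.ofAdd 1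
def ht (g : G) : ℤ := Multiplicative.toAdd (hom g)
theorem ht_mul (g h : G) : ht (g * h) = ht g + ht h := by simp [ht]
theorem ht_inv (g : G) : ht g⁻¹ = -ht g := by simp [ht]
theorem ht_one : ht 1 = 0 := by simp [ht]

theorem ht_const (y : Bool) (q : Wd) (h : ∀ e ∈ q, e.2 = y) :
    ht (FreeGroup.mk q) = if y then (q.length : ℤ) else -q.length := by
  induction q with
  | nil => have : ht (FreeGroup.mk []) = 0 := ht_one
           simp [this]
  | cons e q ih =>
    have h1 : FreeGroup.mk (e :: q) = FreeGroup.mk [e] * FreeGroup.mk q := by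
      simp [FreeGroup.mul_mk]
    have h2 := h e (by simp)
    rw [h1, ht_mul, ih fun f hf => h f (by simp [hf])]
    rcases e with ⟨e, s⟩
    simp only at h2
    subst h2
    cases s <;> simp [ht, hom] <;> ring

noncomputable def L (g : G) : ℝ := (M g + M g⁻¹ : ℕ) + |(ht g : ℝ)| + Real.log (1 + g.norm)

theorem log_nonneg' (g : G) : 0 ≤ Real.log (1 + g.norm) :=
  Real.log_nonneg (by have : (0 : ℝ) ≤ g.norm := by positivity
                      linarith)

theorem L_nonneg (g : G) : 0 ≤ L g := by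
  have := log_nonneg' g
  unfold L
  positivity

theorem L_one : L 1 = 0 := by simp [L, M, ht_one, c]

theorem L_inv (g : G) : L g⁻¹ = L g := by simp [L, ht_inv, add_comm]

theorem L_mul (g h : G) : L (g * h) ≤ L g + L h := by
  have h1 : ((M (g * h) + M (g * h)⁻¹ : ℕ) : ℝ) ≤ (M g + M g⁻¹ : ℕ) + (M h + M h⁻¹ : ℕ) := by
    have h1 := M_mul g h
    have h2 := M_mul h⁻¹ g⁻¹
    rw [← mul_inv_rev] at h2
    exact_mod_cast (by omega : M (g * h) + M (g * h)⁻¹ ≤ M g + M g⁻¹ + (M h + M h⁻¹))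
  have h2 : |(ht (g * h) : ℝ)| ≤ |(ht g : ℝ)| + |(ht h : ℝ)| := by
    rw [ht_mul]; push_cast; exact abs_add_le _ _
  have h3 : Real.log (1 + (g * h).norm) ≤ Real.log (1 + g.norm) + Real.log (1 + h.norm) := by
    rw [← Real.log_mul (by positivity) (by positivity)]
    apply Real.log_le_log (by positivity)
    have : ((g * h).norm : ℝ) ≤ g.norm + h.norm := by exact_mod_cast FreeGroup.norm_mul_le g h
    have h0 : (0 : ℝ) ≤ (g.norm : ℝ) * h.norm := by positivity
    nlinarith
  unfold L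
  linarith

theorem word_of_norm (p q : G) (h : (p * q).norm = p.norm + q.norm) :
    (p * q).toWord = p.toWord ++ q.toWord :=
  (FreeGroup.toWord_mul_sublist p q).eq_of_length (by rw [List.length_append]; exact h)

theorem dichotomy (g q : G) (e : Bool × Bool) (t : Wd) (hq : q.toWord = e :: t) :
    (g * q).norm = g.norm + q.norm ∨ (g * FreeGroup.mk [e]).norm + 1 ≤ g.norm := by
  by_cases h : FreeGroup.IsReduced (g.toWord ++ q.toWord)
  · left
    have : g * q = FreeGroup.mk (g.toWord ++ q.toWord) := by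
      rw [← FreeGroup.mul_mk, FreeGroup.mk_toWord, FreeGroup.mk_toWord]
    rw [this, FreeGroup.norm, FreeGroup.toWord_mk, h.reduce_eq, List.length_append]
    rfl
  · right
    rw [FreeGroup.IsReduced, List.isChain_append] at h
    have h1 : ¬ ∀ x ∈ g.toWord.getLast?, ∀ y ∈ q.toWord.head?, x.1 = y.1 → x.2 = y.2 :=
      fun h2 => h ⟨FreeGroup.isReduced_toWord, FreeGroup.isReduced_toWord, h2⟩
    push Not at h1
    obtain ⟨x, hx, y, hy, h2, h3⟩ := h1
    rw [hq] at hy
    obtain rfl : e = y := by simpa using hy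
    obtain ⟨u, hu⟩ := List.getLast?_eq_some_iff.mp hx
    have h4 : FreeGroup.mk [x] * FreeGroup.mk [e] = 1 := by
      rcases x with ⟨x, s⟩
      rcases e with ⟨e, s'⟩
      simp only at h2 h3
      subst h2
      rw [mul_eq_one_iff_eq_inv, FreeGroup.inv_mk]
      cases s <;> cases s' <;> simp_all [FreeGroup.invRev]
    have h5 : g * FreeGroup.mk [e] = FreeGroup.mk u := by
      rw [← FreeGroup.mk_toWord (x := g), hu, ← FreeGroup.mul_mk, mul_assoc, h4, mul_one]
    have h6 := FreeGroup.norm_mk_le (L₁ := u)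
    have h7 : g.norm = u.length + 1 := by rw [FreeGroup.norm, hu]; simp
    rw [h5]
    omega

theorem median (S : Finset G) : ∃ z : G, ∀ x : G,
    S.card ≤ 2 * (S.filter fun s => (s * x).norm = (s * z).norm + (z⁻¹ * x).norm).card := by
  obtain ⟨z, hz⟩ := exists_minimalFor_of_wellFoundedLT (fun _ : G => True)
    (fun z => ∑ s ∈ S, (s * z).norm) ⟨1, trivial⟩
  refine ⟨z, fun x => ?_⟩
  rcases hq : (z⁻¹ * x).toWord with _ | ⟨e, t⟩
  · have h1 : z⁻¹ * x = 1 := FreeGroup.toWord_eq_nil_iff.mp hq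
    have h2 : z = x := inv_mul_eq_one.mp h1
    rw [Finset.filter_true_of_mem (by simp [h2])]
    omega
  · have h1 : ∑ s ∈ S, (s * z).norm ≤ ∑ s ∈ S, (s * (z * FreeGroup.mk [e])).norm :=
      hz.le trivial
    have h2 := Finset.card_filter_add_card_filter_not (s := S)
      (fun s => (s * x).norm = (s * z).norm + (z⁻¹ * x).norm)
    have h3 : ∑ s ∈ S, ((s * (z * FreeGroup.mk [e])).norm +
        if ¬ (s * x).norm = (s * z).norm + (z⁻¹ * x).norm then 1 else 0) ≤
        ∑ s ∈ S, ((s * z).norm +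
        if (s * x).norm = (s * z).norm + (z⁻¹ * x).norm then 1 else 0) := by
      refine Finset.sum_le_sum fun s _ => ?_
      have h4 := dichotomy (s * z) (z⁻¹ * x) e t hq
      have h5 := FreeGroup.norm_mul_le (s * z) (FreeGroup.mk [e])
      have h6 : (FreeGroup.mk [e]).norm ≤ 1 := FreeGroup.norm_mk_le
      rw [mul_assoc, mul_inv_cancel_left] at h4
      rw [← mul_assoc]
      split_ifs <;> omega
    rw [Finset.sum_add_distrib, Finset.sum_add_distrib, Finset.sum_boole, Finset.sum_boole] at h3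
    simp only [Nat.cast_id] at h3
    omega

theorem pre_unique (p p' q q' : G) (e : p * q = p' * q') (h : (p * q).norm = p.norm + q.norm)
    (h' : (p' * q').norm = p'.norm + q'.norm) (hc : c true p.toWord = c true p'.toWord)
    (hh : ht p = ht p') : p = p' := by
  have key : ∀ p p' : G, p.toWord <+: p'.toWord → c true p.toWord = c true p'.toWord →
      ht p = ht p' → p = p' := by
    rintro p p' ⟨t, ht'⟩ hc hh
    obtain ⟨y, hy⟩ := c_const true p.toWord t (by rw [ht', hc])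
    have h1 : p' = p * FreeGroup.mk t := by
      rw [← FreeGroup.mk_toWord (x := p'), ← ht', ← FreeGroup.mul_mk, FreeGroup.mk_toWord]
    rw [h1, ht_mul, ht_const y t hy] at hh
    have h2 : t = [] := by
      rw [← List.length_eq_zero_iff]
      split_ifs at hh <;> omega
    rw [h1, h2]
    exact (mul_one p).symm
  have h1 := word_of_norm p q h
  have h2 := word_of_norm p' q' h'
  rw [← e] at h2
  rcases List.prefix_or_prefix_of_prefix ⟨_, h1.symm⟩ ⟨_, h2.symm⟩ with h3 | h3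
  · exact key _ _ h3 hc hh
  · exact (key _ _ h3 hc.symm hh.symm).symm

theorem RE_nat [DecidableEq G] (R : ℕ) (S X : Finset G) (hS : ∀ s ∈ S, M s + M s⁻¹ ≤ R ∧ |ht s| ≤ R) :
    S.card * X.card ≤ 2 * ((2 * R + 1) * (2 * R + 1) * (S * X).card) := by
  obtain ⟨z, hz⟩ := median S
  have hM : ∀ s ∈ S, c true (s * z).toWord ≤ 2 * R := by
    intro s hs
    have h1 := hz s⁻¹
    have h2 : 0 < S.card := Finset.card_pos.mpr ⟨s, hs⟩
    obtain ⟨s', hs'⟩ := Finset.card_pos.mp (by omega :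
      0 < (S.filter fun s' => (s' * s⁻¹).norm = (s' * z).norm + (z⁻¹ * s⁻¹).norm).card)
    rw [Finset.mem_filter] at hs'
    have h3 : (s * z * (s' * z)⁻¹).norm = (s * z).norm + ((s' * z)⁻¹).norm := by
      rw [FreeGroup.norm_inv_eq, ← FreeGroup.norm_inv_eq (x := s * z), ← FreeGroup.norm_inv_eq]
      simp only [mul_inv_rev, inv_inv, mul_assoc, mul_inv_cancel_left]
      rw [hs'.2, add_comm]
    have h4 := word_of_norm _ _ h3
    have h5 := c_sub (List.sublist_append_left (s * z).toWord (s' * z)⁻¹.toWord) true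
    rw [← h4] at h5
    have h6 : s * z * (s' * z)⁻¹ = s * s'⁻¹ := by simp [mul_assoc]
    rw [h6] at h5
    have h7 := M_mul s s'⁻¹
    have h8 := (hS s hs).1
    have h9 := (hS s' hs'.1).1
    have h10 : c true (s * s'⁻¹).toWord ≤ M (s * s'⁻¹) := le_max_left _ _
    omega
  set Γ := (S ×ˢ X).filter fun p => (p.1 * p.2).norm = (p.1 * z).norm + (z⁻¹ * p.2).norm with hΓ
  have h1 : S.card * X.card ≤ 2 * Γ.card := by
    have : Γ.card = ∑ x ∈ X,
        (S.filter fun s => (s * x).norm = (s * z).norm + (z⁻¹ * x).norm).card := by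
      simp only [hΓ, Finset.card_filter]
      rw [Finset.sum_product_right]
    rw [this, Finset.mul_sum, mul_comm, ← smul_eq_mul, ← Finset.sum_const]
    exact Finset.sum_le_sum fun x _ => hz x
  refine h1.trans (Nat.mul_le_mul_left _ ?_)
  refine Finset.card_le_mul_card_image_of_maps_to (f := fun p => p.1 * p.2) (fun p hp => ?_) _
    (fun g _ => ?_)
  · rw [hΓ, Finset.mem_filter, Finset.mem_product] at hp
    exact Finset.mul_mem_mul hp.1.1 hp.1.2
  · have : (Finset.range (2 * R + 1) ×ˢ Finset.Icc (-(R : ℤ)) R).card = (2 * R + 1) * (2 * R + 1) := by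
      simp only [Finset.card_product, Finset.card_range, Int.card_Icc]
      congr 1
      omega
    rw [← this]
    refine Finset.card_le_card_of_injOn (fun p => (c true (p.1 * z).toWord, ht p.1)) ?_ ?_
    · intro p hp
      simp only [hΓ, Finset.coe_filter, Finset.mem_filter, Finset.mem_product, Set.mem_ofPred_eq] at hp
      have h2 := hM _ hp.1.1.1
      have h3 := abs_le.mp (hS _ hp.1.1.1).2
      simp only [Finset.coe_product, Set.mem_prod, Finset.mem_coe, Finset.mem_range, Finset.mem_Icc]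
      omega
    · rintro ⟨s, x⟩ hp ⟨s', x'⟩ hp' e
      simp only [hΓ, Finset.coe_filter, Finset.mem_filter, Finset.mem_product,
        Set.mem_ofPred_eq, Prod.mk.injEq] at hp hp' e
      have h2 : s * z = s' * z := pre_unique (s * z) (s' * z) (z⁻¹ * x) (z⁻¹ * x')
        (by simp [mul_assoc, hp.2, hp'.2]) (by simpa [mul_assoc] using hp.1.2)
        (by simpa [mul_assoc] using hp'.1.2) e.1 (by rw [ht_mul, ht_mul, e.2])
      obtain rfl : s = s' := mul_right_cancel h2
      rw [mul_left_cancel (hp.2.trans hp'.2.symm)]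

theorem RE [DecidableEq G] (r : ℝ) (hr : 0 ≤ r) (S X : Finset G) (hS : ∀ s ∈ S, L s ≤ r) :
    (S.card : ℝ) * (X.card : ℝ) ≤ 8 * (1 + r) ^ 2 * ((S * X).card : ℝ) := by
  have h1 := RE_nat ⌊r⌋₊ S X (fun s hs => by
    have h1 := hS s hs
    have h2 := log_nonneg' s
    have h3 : (0 : ℝ) ≤ (M s + M s⁻¹ : ℕ) := by positivity
    have h4 := abs_nonneg (ht s : ℝ)
    unfold L at h1
    refine ⟨Nat.le_floor (by linarith), ?_⟩
    have h5 : (ht s).natAbs ≤ ⌊r⌋₊ := Nat.le_floor (by
      rw [Nat.cast_natAbs]; push_cast; linarith)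
    rw [Int.abs_eq_natAbs]
    exact_mod_cast h5)
  have h2 : (S.card : ℝ) * X.card ≤ 2 * ((2 * ⌊r⌋₊ + 1) * (2 * ⌊r⌋₊ + 1) * (S * X).card) := by
    exact_mod_cast h1
  have h3 := Nat.floor_le hr
  have h4 : (0 : ℝ) ≤ ⌊r⌋₊ := by positivity
  have h5 : 2 * ((2 * ⌊r⌋₊ + 1) * (2 * ⌊r⌋₊ + 1) : ℝ) ≤ 8 * (1 + r) ^ 2 := by nlinarith
  have h6 := mul_le_mul_of_nonneg_right h5 (show (0 : ℝ) ≤ (S * X).card by positivity)
  linarith

def pw {r : ℕ} (u : Fin r → Bool) : Wd := List.ofFn fun i => (u i, true)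
def pos {r : ℕ} (u : Fin r → Bool) : G := FreeGroup.mk (pw u)

theorem pw_true {r : ℕ} (u : Fin r → Bool) : ∀ e ∈ pw u, e.2 = true := by
  intro e he
  obtain ⟨i, rfl⟩ := List.mem_ofFn.mp he
  rfl

theorem pos_word {r : ℕ} (u : Fin r → Bool) : (pos u).toWord = pw u := by
  rw [pos, FreeGroup.toWord_mk]
  apply FreeGroup.IsReduced.reduce_eq
  refine List.Pairwise.isChain (List.pairwise_of_forall_mem_list ?_)
  intro x hx y hy _
  rw [pw_true u x hx, pw_true u y hy]

theorem pos_inj {r : ℕ} : Function.Injective (pos (r := r)) := by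
  intro u v e
  have := congrArg FreeGroup.toWord e
  rw [pos_word, pos_word] at this
  funext i
  exact congrArg Prod.fst (congrFun (List.ofFn_injective this) i)

theorem pos_cons {r : ℕ} (x : Bool) (u : Fin r → Bool) :
    pos (Fin.cons x u : Fin (r + 1) → Bool) = FreeGroup.of x * pos u := by
  simp [pos, pw, List.ofFn_succ, FreeGroup.of, FreeGroup.mul_mk]

abbrev T (r : ℕ) := Fin r → Bool
abbrev E (r : ℕ) := {q : (T r × T r) × (T r × T r) //
  pos q.1.1 * (pos q.2.1)⁻¹ = pos q.1.2 * (pos q.2.2)⁻¹}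

theorem E_step (r : ℕ) : 4 * Nat.card (E r) + 2 * (2 ^ r * 2 ^ r) ≤ Nat.card (E (r + 1)) := by
  have := Nat.card_le_card_of_injective
    (α := (Bool × Bool × E r) ⊕ (Bool × T r × T r)) (β := E (r + 1))
    (Sum.elim
      (fun q => ⟨((Fin.cons q.1 q.2.2.1.1.1, Fin.cons q.1 q.2.2.1.1.2),
        (Fin.cons q.2.1 q.2.2.1.2.1, Fin.cons q.2.1 q.2.2.1.2.2)), by
          simp only [pos_cons, mul_inv_rev, mul_assoc, mul_right_inj]
          rw [← mul_assoc, ← mul_assoc, q.2.2.2]⟩)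
      (fun q => ⟨((Fin.cons q.1 q.2.1, Fin.cons (!q.1) q.2.2),
        (Fin.cons q.1 q.2.1, Fin.cons (!q.1) q.2.2)), by simp⟩))
    (by
      rintro (⟨x, y, ⟨⟨u, u'⟩, v, v'⟩, h⟩ | ⟨x, u, u'⟩) (⟨x2, y2, ⟨⟨u2, u2'⟩, v2, v2'⟩, h2⟩ | ⟨x2, u2, u2'⟩) e <;>
        simp only [Sum.elim_inl, Sum.elim_inr, Subtype.mk.injEq, Prod.mk.injEq, Fin.cons_inj,
          Sum.inl.injEq, Sum.inr.injEq, reduceCtorEq] at e ⊢
      · tauto
      · exact absurd (e.1.1.1.symm.trans e.1.2.1) (by cases x2 <;> decide)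
      · exact absurd (e.1.1.1.trans e.1.2.1.symm) (by cases x <;> decide)
      · tauto)
  simp only [Nat.card_sum, Nat.card_prod, Nat.card_eq_fintype_card (α := Bool), Fintype.card_bool,
    Nat.card_fun, Nat.card_eq_fintype_card (α := Fin r), Fintype.card_fin] at this
  omega

theorem E_bound (r : ℕ) : r * (2 ^ r * 2 ^ r) ≤ 2 * Nat.card (E r) := by
  induction r with
  | zero => simp
  | succ r ih =>
    have := E_step r
    rw [pow_succ]
    nlinarith

theorem M_pos {r : ℕ} (u : T r) : M (pos u) ≤ 1 ∧ M (pos u)⁻¹ ≤ 1 := by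
  constructor
  · rw [M, pos_word]
    exact max_le (c_of_const _ _ (pw_true u) _) (c_of_const _ _ (pw_true u) _)
  · have : ∀ e ∈ FreeGroup.invRev (pw u), e.2 = false := by
      intro e he
      simp only [FreeGroup.invRev, List.mem_reverse, List.mem_map] at he
      obtain ⟨f, hf, rfl⟩ := he
      simp [pw_true u f hf]
    rw [M, FreeGroup.toWord_inv, pos_word]
    exact max_le (c_of_const _ _ this _) (c_of_const _ _ this _)

theorem L_bound (k : ℕ) (u v : T (2 ^ k)) : L (pos u * (pos v)⁻¹) ≤ 6 + k := by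
  have h1 := M_mul (pos u) (pos v)⁻¹
  have h2 := M_mul (pos v) (pos u)⁻¹
  have h3 := M_pos u
  have h4 := M_pos v
  have h5 : ht (pos u * (pos v)⁻¹) = 0 := by
    rw [ht_mul, ht_inv, pos, pos, ht_const true _ (pw_true u), ht_const true _ (pw_true v)]
    simp [pw]
  have h6 := FreeGroup.norm_mul_le (pos u) (pos v)⁻¹
  rw [FreeGroup.norm_inv_eq] at h6
  have h7 : ∀ w : T (2 ^ k), (pos w).norm = 2 ^ k := fun w => by
    rw [FreeGroup.norm, pos_word]; simp [pw]
  rw [h7, h7] at h6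
  have h8 : Real.log (1 + (pos u * (pos v)⁻¹).norm) ≤ k + 2 := by
    rw [Real.log_le_iff_le_exp (by positivity)]
    have h9 : 1 + (pos u * (pos v)⁻¹).norm ≤ 2 ^ (k + 2) := by
      have := Nat.one_le_two_pow (n := k)
      rw [pow_add]; omega
    have h10 : (2 : ℝ) ^ (k + 2) ≤ Real.exp 1 ^ (k + 2) :=
      pow_le_pow_left₀ (by norm_num) (by have := Real.add_one_le_exp 1; linarith) _
    rw [← Real.exp_nat_mul, mul_one] at h10
    have h11 : (1 : ℝ) + (pos u * (pos v)⁻¹).norm ≤ 2 ^ (k + 2) := by exact_mod_cast h9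
    push_cast at h10
    linarith
  have h12 : ((M (pos u * (pos v)⁻¹) + M (pos u * (pos v)⁻¹)⁻¹ : ℕ) : ℝ) ≤ 4 := by
    rw [mul_inv_rev, inv_inv]
    exact_mod_cast (by omega : M (pos u * (pos v)⁻¹) + M (pos v * (pos u)⁻¹) ≤ 4)
  unfold L
  rw [h5]
  simp only [Int.cast_zero, abs_zero]
  linarith

theorem result :
    ¬ (∀ (G : Type) [Group G] (L : G → ℝ),
      (∀ g, 0 ≤ L g) → L 1 = 0 → (∀ g, L g⁻¹ = L g) →
      (∀ g h, L (g * h) ≤ L g + L h) →
      (∃ C : ℝ, 0 < C ∧ ∃ d : ℕ, ∀ r : ℝ, 0 ≤ r → ∀ S X : Finset G,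
          (∀ s ∈ S, L s ≤ r) →
          (S.card : ℝ) * (X.card : ℝ) ≤ C * (1 + r) ^ d * ((S * X).card : ℝ)) →
      ∃ C : ℝ, 0 < C ∧ ∃ d : ℕ, ∀ r : ℝ, 0 ≤ r →
        ∀ (A B : Finset G) (f g : G → ℂ), (∀ y ∈ A, L y ≤ r) →
          ∑ x ∈ A * B, ‖∑ p ∈ (A ×ˢ B).filter (fun p => p.1 * p.2 = x), f p.1 * g p.2‖ ^ 2
            ≤ (C * (1 + r) ^ d) ^ 2 * (∑ y ∈ A, ‖f y‖ ^ 2) * (∑ z ∈ B, ‖g z‖ ^ 2)) := by
  intro h
  obtain ⟨C, hC, d, h⟩ := h G L L_nonneg L_one L_inv L_mul ⟨8, by norm_num, 2, @RE (fun _ _ => Classical.propDecidable _)⟩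
  letI : DecidableEq G := fun _ _ => Classical.propDecidable _
  have hlim := tendsto_pow_const_div_const_pow_of_one_lt (2 * d) (r := 2) (by norm_num)
  have hpos : (0 : ℝ) < 1 / (2 * C ^ 2 * 8 ^ (2 * d)) := by positivity
  obtain ⟨k, hk, hk1⟩ :=
    ((hlim.eventually (gt_mem_nhds hpos)).and (Filter.eventually_ge_atTop 1)).exists
  let o : G := pos (fun _ : Fin (2 ^ k) => true)
  let A : Finset G := Finset.univ.image fun u : T (2 ^ k) => pos u * o⁻¹
  let B : Finset G := Finset.univ.image fun u : T (2 ^ k) => o * (pos u)⁻¹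
  have h1 := h (6 + k) (by positivity) A B (fun _ => 1) (fun _ => 1) (by
    intro y hy
    obtain ⟨u, -, rfl⟩ := Finset.mem_image.mp hy
    exact L_bound k u _)
  have h2 : Nat.card (E (2 ^ k)) ≤ Finset.mulEnergy A B := by
    rw [Finset.mulEnergy, ← Nat.card_eq_finsetCard]
    refine Nat.card_le_card_of_injective (fun q => ⟨((pos q.1.1.1 * o⁻¹, pos q.1.1.2 * o⁻¹),
      (o * (pos q.1.2.1)⁻¹, o * (pos q.1.2.2)⁻¹)), ?_⟩) ?_
    · simp only [Finset.mem_filter, Finset.mem_product, A, B, mul_assoc, inv_mul_cancel_left]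
      exact ⟨⟨⟨Finset.mem_image_of_mem _ (Finset.mem_univ _),
        Finset.mem_image_of_mem _ (Finset.mem_univ _)⟩,
        Finset.mem_image_of_mem _ (Finset.mem_univ _),
        Finset.mem_image_of_mem _ (Finset.mem_univ _)⟩, q.2⟩
    · rintro ⟨⟨⟨u, u'⟩, v, v'⟩, hq⟩ ⟨⟨⟨u2, u2'⟩, v2, v2'⟩, hq2⟩ e
      simpa [pos_inj.eq_iff] using e
  rw [Finset.mulEnergy_eq_sum_sq'] at h2
  have h3 := (E_bound (2 ^ k)).trans (Nat.mul_le_mul_left 2 h2)
  have hA : A.card ≤ 2 ^ 2 ^ k := Finset.card_image_le.trans (by simp)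
  have hB : B.card ≤ 2 ^ 2 ^ k := Finset.card_image_le.trans (by simp)
  simp only [mul_one, Finset.sum_const, nsmul_eq_mul, Complex.norm_natCast, norm_one, one_pow] at h1
  have hN : 0 < 2 ^ 2 ^ k := by positivity
  generalize 2 ^ 2 ^ k = N at h3 hA hB hN
  have h4 : (2 : ℝ) ^ k * (N * N) ≤ 2 * ∑ a ∈ A * B,
      (((A ×ˢ B).filter (fun p => p.1 * p.2 = a)).card : ℝ) ^ 2 := by exact_mod_cast h3
  have hA' : (A.card : ℝ) ≤ N := by exact_mod_cast hA
  have hB' : (B.card : ℝ) ≤ N := by exact_mod_cast hB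
  have hN' : (0 : ℝ) < N := by exact_mod_cast hN
  have h5 : (C * (1 + (6 + k)) ^ d) ^ 2 * (A.card : ℝ) * B.card ≤
      (C * (1 + (6 + k)) ^ d) ^ 2 * (N * N) := by
    rw [mul_assoc]; gcongr
  have h6 : (2 : ℝ) ^ k * (N * N) ≤ 2 * (C * (1 + (6 + k)) ^ d) ^ 2 * (N * N) := by linarith
  have h7 := le_of_mul_le_mul_right h6 (by positivity)
  have hk2 : (1 : ℝ) ≤ k := by exact_mod_cast hk1
  have h8 : (1 + (6 + k) : ℝ) ^ d ≤ (8 * k) ^ d := pow_le_pow_left₀ (by positivity) (by linarith) _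
  have h9 : (C * (1 + (6 + k)) ^ d) ^ 2 ≤ (C * (8 * k) ^ d) ^ 2 := by gcongr
  rw [div_lt_div_iff₀ (by positivity) (by positivity), one_mul] at hk
  have h10 : (C * (8 * k) ^ d) ^ 2 * 2 = k ^ (2 * d) * (2 * C ^ 2 * 8 ^ (2 * d)) := by
    rw [mul_pow, mul_pow, mul_pow, ← pow_mul, ← pow_mul, mul_comm d 2]; ring
  linarith

end Pool.Agent.S03188
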