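import Pool.Statements.S03208
import Pool.Agent.H33.Adj

set_option autoImplicit false
open Pool Pool.MP_d7a7a6_al

namespace Pool.Agent.S03208

open Pool.Agent.H33.Adj

lemma unit_of {U A : Type} [Ring U] (t : A → U) (a : A) (n : ℕ)
    (h : tw t (List.replicate n a) = 0) : IsUnit (1 + t a) :=
  IsNilpotent.isUnit_one_add ⟨n, by simpa [tw] using h⟩
theorem result :
    ¬ (∃ f : ℕ → ℕ, ∀ (F : Type) [Field F] (R : Type) [NonUnitalRing R] [Module F R]
      [IsScalarTower F R R] [SMulCommClass F R R],
      (∃ n : ℕ, ∀ x : Fin n → R,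
        (List.ofFn (fun i => (Unitization.inr (x i) : Unitization F R))).prod = 0) →
      ∀ d : ℕ, ∀ g : Fin d → (Unitization F R)ˣ,
        (∀ i, ∃ r : R, ((g i : (Unitization F R)ˣ) : Unitization F R) = 1 + Unitization.inr r) →
        (∀ r : R, ∃ u ∈ Subgroup.closure (Set.range g),
          (u : Unitization F R) = 1 + Unitization.inr r) →
        Module.rank F R ≤ (f d : Cardinal)) := by
  rintro ⟨f, hf⟩
  obtain ⟨N, hN⟩ : ∃ N, N = f (Fintype.card L) + 1 := ⟨_, rfl⟩
  have hu : ∀ a : L, IsUnit (1 + tU N a) := fun a => by
    have h := long0 N (List.replicate (N + 1) a) (by simp)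
    exact unit_of (tU N) a (N + 1) h
  have h := hf F (R N) ⟨N + 1, fun x => J_bot (long0 N) (by
      have := prod_mem (t := tU N) (List.ofFn fun i => (Unitization.inr (x i) : Unitization F (R N)))
        (fun y hy => by
          obtain ⟨i, rfl⟩ := (List.mem_ofFn' _ _).1 hy
          exact inr_mem N _)
      rwa [List.length_ofFn] at this)⟩
    (Fintype.card L) (fun i => (hu ((Fintype.equivFin L).symm i)).unit)
    (fun i => ⟨tR N _, rfl⟩) (fun r => by
      have := gen (fun a => (hu a).unit) (fun a => rfl) (all_mem N) (long0 N)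
        (fun u h2 => by
          obtain ⟨k, hk⟩ := T_rot N u h2
          refine ⟨k, tU_zero N _ ?_ hk⟩
          intro h3
          have := congrArg List.length h3
          rw [List.length_rotate] at this
          simp only [List.length_nil] at this
          omega) (inr_mem N r)
      rwa [← (Fintype.equivFin L).symm.surjective.range_comp] at this)
  have h2 := (rank_ge N).trans h
  norm_cast at h2
  omega

end Pool.Agent.S03208
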