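import Pool.Statements.S03215
import Pool.Agent.H21.Rot

set_option autoImplicit false
open Pool Pool.MP_d888c1_al

namespace Pool.Agent.S03215

theorem result :
    ∃ n : ℕ, 1 < n ∧
      ∃ (a : Equiv.Perm (Set.Icc (0 : Fin (n - 1) → ℝ) 1))
        (t : Fin n → Equiv.Perm (Set.Icc (0 : Fin (n - 1) → ℝ) 1)),
        (∀ g : Equiv.Perm (Set.Icc (0 : Fin (n - 1) → ℝ) 1),
            (g = a ∨ ∃ i, g = t i) →
              Continuous ⇑g ∧ Continuous ⇑g.symm ∧
              ∃ (k : ℕ) (S : Fin k → Finset (Fin (n - 1) → ℝ))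
                (A : Fin k → ((Fin (n - 1) → ℝ) →ᵃ[ℝ] (Fin (n - 1) → ℝ))),
                (∀ x : Set.Icc (0 : Fin (n - 1) → ℝ) 1,
                    ∃ i, x.1 ∈ convexHull ℝ (↑(S i) : Set (Fin (n - 1) → ℝ))) ∧
                (∀ i, ∀ x : Set.Icc (0 : Fin (n - 1) → ℝ) 1,
                    x.1 ∈ convexHull ℝ (↑(S i) : Set (Fin (n - 1) → ℝ)) →
                      (g x).1 = A i x.1)) ∧
        (∀ i j, t i * t j = t j * t i) ∧
        (∀ v w : Fin n → ℤ,
            Commute
              ((List.ofFn fun i => t i ^ v i).prod * a * ((List.ofFn fun i => t i ^ v i).prod)⁻¹)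
              ((List.ofFn fun i => t i ^ w i).prod * a * ((List.ofFn fun i => t i ^ w i).prod)⁻¹)) ∧
        (∀ (l : List ((Fin n → ℤ) × ℤ)) (v : Fin n → ℤ),
            (l.map Prod.fst).Nodup →
            (l.map (fun p : (Fin n → ℤ) × ℤ =>
                ((List.ofFn fun i => t i ^ p.1 i).prod * a *
                  ((List.ofFn fun i => t i ^ p.1 i).prod)⁻¹) ^ p.2)).prod *
              (List.ofFn fun i => t i ^ v i).prod = 1 →
            v = 0 ∧ ∀ p ∈ l, p.2 = 0) := by
  open Pool.Agent.H21 Pool.Agent.H21.PLT Pool.Agent.H21.Rot in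
  obtain ⟨ψ, h1, h2⟩ := main 5 ((Equiv.smulRight (two_ne_zero' ℝ)).trans (Equiv.subRight 1))
    ((T.id.smul 2).sub .const) ((T.id.add .const).smul 2⁻¹) (Set.Icc 0 1) (· ≤ 1) le_rfl fun x => by
      simp only [pi_norm_le_iff_of_nonneg zero_le_one, Set.mem_Icc, Pi.le_def, ← forall_and]
      refine forall_congr' fun i => ?_
      simp [abs_le]
      grind
  have hp : ∀ v, (List.ofFn fun i => ψ (Wa.t i) ^ v i).prod = ψ (.inr (.ofAdd v)) := fun v => by
    rw [← Wa.prod_t, map_list_prod, List.map_ofFn]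
    simp [Function.comp_def]
  have hc : ∀ v, ψ (.inr (.ofAdd v)) * ψ (Wa.a _) * (ψ (.inr (.ofAdd v)))⁻¹ =
      ψ (.inl (.ofAdd (Finsupp.single v 1))) := fun v => by simp [← Wa.conj_a]
  refine ⟨5, by norm_num, ψ (Wa.a _), fun i => ψ (Wa.t i), fun g hg => ?_, fun i j => ?_,
    fun v w => ?_, fun l v hl h => ?_⟩
  · obtain ⟨g, rfl⟩ : ∃ g', ψ g' = g := hg.elim (⟨_, ·.symm⟩) fun ⟨_, h⟩ => ⟨_, h.symm⟩
    obtain ⟨c, f, h3, h4⟩ := h2 g
    obtain ⟨k, s, A, h5, h6⟩ := h3.box 0 1
    exact ⟨c, by simpa using (h2 g⁻¹).1, k, s, A, fun x => h5 _ x.2,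
      fun i x h => (h4 x).trans (h6 i _ h)⟩
  · exact (((Commute.all _ _).map SemidirectProduct.inr).map ψ).eq
  · rw [hp, hp, hc, hc]
    exact ((Commute.all _ _).map SemidirectProduct.inl).map ψ
  · have : ∀ l : List ((Fin 5 → ℤ) × ℤ), (l.map fun p => ψ (.inl (.ofAdd (Finsupp.single p.1 1))) ^
        p.2).prod = ψ (.inl (.ofAdd (l.map fun p => Finsupp.single p.1 p.2).sum)) := fun l => by
      induction l with
      | nil => simp
      | cons p l ih =>
        rw [List.map_cons, List.prod_cons, ih, List.map_cons, List.sum_cons, ofAdd_add, map_mul, map_mul]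
        simp [← map_zpow, ← ofAdd_zsmul]
    simp only [hp, hc] at h
    rw [this, ← map_mul, map_eq_one_iff _ h1] at h
    refine ⟨by simpa using congrArg (·.right) h, fun p hp => ?_⟩
    have h : (l.map fun p => Finsupp.single p.1 p.2).sum = 0 :=
      by simpa [-ofAdd_list_prod] using congrArg (·.left) h
    obtain ⟨a, b, rfl⟩ := List.append_of_mem hp
    have k : ∀ l : List ((Fin 5 → ℤ) × ℤ), p.1 ∉ l.map Prod.fst →
        (l.map fun p => Finsupp.single p.1 p.2).sum p.1 = 0 := fun l => by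
      induction l with
      | nil => simp
      | cons q l ih =>
        intro h
        rw [List.map_cons, List.mem_cons, not_or] at h
        simp [ih h.2, Finsupp.single_eq_of_ne h.1]
    have := congrArg (· p.1) h
    rw [List.map_append, List.map_cons, List.nodup_middle, List.nodup_cons, List.mem_append,
      not_or] at hl
    simpa [k a hl.1.1, k b hl.1.2] using this

end Pool.Agent.S03215
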