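import Pool.Statements.S03236
import Pool.Agent.H24.ThF4

set_option autoImplicit false
open Pool Pool.MP_da3691_al

namespace Pool.Agent.S03236

/-- The negation of the preceding statement: Satisfiability of a single equation over Thompson's group F = ⟨x0,x1 : [x0x1⁻¹, x0⁻¹x1x0], [x0x1⁻¹, x0⁻²x1x0²]⟩ is decidable. Equations are words in unknowns and the generators, with signs. -/
theorem result :
    ¬ (∀ rels : Set (FreeGroup Bool),
      rels = {(FreeGroup.of false * (FreeGroup.of true)⁻¹) *
                ((FreeGroup.of false)⁻¹ * FreeGroup.of true * FreeGroup.of false) *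
                (FreeGroup.of false * (FreeGroup.of true)⁻¹)⁻¹ *
                ((FreeGroup.of false)⁻¹ * FreeGroup.of true * FreeGroup.of false)⁻¹,
              (FreeGroup.of false * (FreeGroup.of true)⁻¹) *
                ((FreeGroup.of false)⁻¹ * (FreeGroup.of false)⁻¹ * FreeGroup.of true *
                  FreeGroup.of false * FreeGroup.of false) *
                (FreeGroup.of false * (FreeGroup.of true)⁻¹)⁻¹ *
                ((FreeGroup.of false)⁻¹ * (FreeGroup.of false)⁻¹ * FreeGroup.of true *
                  FreeGroup.of false * FreeGroup.of false)⁻¹} →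
      ComputablePred (fun w : List ((ℕ ⊕ Bool) × Bool) =>
        ∃ σ : ℕ → PresentedGroup rels,
          (w.map (fun p : (ℕ ⊕ Bool) × Bool =>
            (if p.2 then
                Sum.elim σ (fun b : Bool => (PresentedGroup.of b : PresentedGroup rels)) p.1
              else
                (Sum.elim σ (fun b : Bool => (PresentedGroup.of b : PresentedGroup rels)) p.1)⁻¹ :
              PresentedGroup rels))).prod = 1)) := by
  intro h
  exact Pool.Agent.H24.ThF.undec (h Pool.Agent.H24.ThF.rels rfl)

end Pool.Agent.S03236
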