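import Pool.Statements.S03273
import Pool.Agent.H22.Simp2

set_option autoImplicit false
open Pool Pool.MP_dd6327_al

namespace Pool.Agent.S03273

/-- There is a possibly non-unital simple ring without zero divisors that is not a division ring and is ring-isomorphic to each of its nonzero left ideals L satisfying L·L = L. -/
theorem result :
    ∃ (R : Type) (inst : NonUnitalRing R),
      IsSimpleRing R ∧ NoZeroDivisors R ∧
      (¬ ∃ e : R, (∀ x : R, e * x = x ∧ x * e = x) ∧
          ∀ x : R, x ≠ 0 → ∃ y : R, x * y = e ∧ y * x = e) ∧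
      ∀ L : NonUnitalSubring R, L ≠ ⊥ →
        (∀ r x : R, x ∈ L → r * x ∈ L) →
        AddSubgroup.closure {z : R | ∃ a ∈ L, ∃ b ∈ L, z = a * b} = L.toAddSubgroup →
        Nonempty (L ≃+* R) := by
  classical
  obtain ⟨D, inst, γ, hmul, hst, hadd, hneg, hone, haff⟩ := H22.Simp.exists_D
  let A : ∀ c : ℝ, 0 ≤ c → NonUnitalSubring D := fun c hc =>
    { carrier := {x | x ≠ 0 → c < γ x 0}
      zero_mem' := fun h => absurd rfl h
      add_mem' := by
        intro x y hx hy hxy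
        by_cases h1 : x = 0
        · subst h1; rw [zero_add] at hxy ⊢; exact hy hxy
        by_cases h2 : y = 0
        · subst h2; rw [add_zero]; exact hx h1
        exact lt_of_lt_of_le (lt_min (hx h1) (hy h2)) (hadd x y h1 h2 hxy 0)
      neg_mem' := by
        intro x hx h
        have h1 : x ≠ 0 := neg_ne_zero.1 h
        rw [hneg x h1]; exact hx h1
      mul_mem' := by
        intro x y hx hy hxy
        have h1 := left_ne_zero_of_mul hxy
        have h2 := right_ne_zero_of_mul hxy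
        rw [hmul x y h1 h2]
        exact lt_of_lt_of_le (hy h2) ((hst y h2).monotone (hc.trans (hx h1).le)) }
  have hA : ∀ c hc x, x ∈ A c hc ↔ (x ≠ 0 → c < γ x 0) := fun _ _ _ => Iff.rfl
  have hdiv : ∀ y l : D, l ≠ 0 → (y ≠ 0 → γ l 1 < γ y 0) → y * l⁻¹ ∈ A 1 zero_le_one := by
    intro y l hl h hy
    have h1 := left_ne_zero_of_mul hy
    have := hmul _ l hy hl 0
    rw [inv_mul_cancel_right₀ hl] at this
    exact (hst l hl).lt_iff_lt.1 (this ▸ h h1)
  obtain ⟨z0, hz0, hz0'⟩ := haff 1 2 one_pos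
  have hz0A : z0 ∈ A 1 zero_le_one := fun _ => by rw [hz0']; norm_num
  have hnt : Nontrivial (A 1 zero_le_one) :=
    ⟨⟨⟨z0, hz0A⟩, 0, fun h => hz0 (congrArg Subtype.val h)⟩⟩
  refine ⟨A 1 zero_le_one, inferInstance, ?_, inferInstance, ?_, ?_⟩
  · refine IsSimpleRing.of_eq_bot_or_eq_top fun I => ?_
    by_cases hI : I = ⊥
    · exact Or.inl hI
    right
    obtain ⟨a, ha, ha0⟩ : ∃ a ∈ I, a ≠ 0 := by
      by_contra hc
      push Not at hc
      exact hI (eq_bot_iff.2 fun a ha => (TwoSidedIdeal.mem_bot _).2 (hc a ha))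
    have ha1 : a.1 ≠ 0 := fun h => ha0 (Subtype.ext h)
    refine eq_top_iff.2 fun y _ => ?_
    by_cases hy : y.1 = 0
    · rw [show y = 0 from Subtype.ext hy]; exact I.zero_mem
    have hβ : 1 < γ y.1 0 := y.2 hy
    have hα : 1 < γ a.1 1 := (a.2 ha1).trans (hst _ ha1 zero_lt_one)
    obtain ⟨z, hz, hz'⟩ := haff ((γ y.1 0 - 1) / (4 * γ a.1 1)) ((1 + γ y.1 0) / 2)
      (div_pos (by linarith) (by linarith))
    have hzA : z ∈ A 1 zero_le_one := fun _ => by rw [hz']; linarith
    have hx := hdiv y.1 (a.1 * z) (mul_ne_zero ha1 hz) fun _ => by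
      rw [hmul _ _ ha1 hz, hz']
      have : (γ y.1 0 - 1) / (4 * γ a.1 1) * γ a.1 1 = (γ y.1 0 - 1) / 4 := by
        field_simp
      rw [this]; linarith
    have : y = ⟨_, hx⟩ * (a * ⟨z, hzA⟩) :=
      Subtype.ext (inv_mul_cancel_right₀ (mul_ne_zero ha1 hz) y.1).symm
    rw [this]
    exact I.mul_mem_left _ _ (I.mul_mem_right _ _ ha)
  · rintro ⟨e, he, _⟩
    have h1 : e.1 * z0 = z0 := congrArg Subtype.val (he ⟨z0, hz0A⟩).1
    have h2 : e.1 = 1 := mul_right_cancel₀ hz0 (h1.trans (one_mul z0).symm)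
    have h3 := e.2 (h2 ▸ one_ne_zero)
    rw [h2, hone] at h3
    linarith
  · intro L hL hleft hid
    obtain ⟨l0, hl0, hl0'⟩ : ∃ l ∈ L, l.1 ≠ 0 := by
      by_contra hc
      push Not at hc
      exact hL (eq_bot_iff.2 fun a ha => NonUnitalSubring.mem_bot.2 (Subtype.ext (hc a ha)))
    let S : Set ℝ := {r | ∃ l ∈ L, l.1 ≠ 0 ∧ r = γ l.1 1}
    have hS1 : ∀ r ∈ S, 1 ≤ r := by
      rintro _ ⟨l, _, h, rfl⟩
      exact ((l.2 h).trans (hst _ h zero_lt_one)).le
    have hSn : S.Nonempty := ⟨_, l0, hl0, hl0', rfl⟩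
    have hc1 : 1 ≤ sInf S := le_csInf hSn hS1
    have hc0 : 0 ≤ sInf S := zero_le_one.trans hc1
    have hmem : ∀ x : A 1 zero_le_one, x ∈ L ↔ x.1 ∈ A (sInf S) hc0 := by
      intro x
      constructor
      · intro hx
        have hx' : x ∈ L.toAddSubgroup := hx
        rw [← hid] at hx'
        clear hx
        induction hx' using AddSubgroup.closure_induction with
        | mem z hz =>
          obtain ⟨a, ha, b, hb, rfl⟩ := hz
          intro hab
          have h1 : a.1 ≠ 0 := left_ne_zero_of_mul hab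
          have h2 : b.1 ≠ 0 := right_ne_zero_of_mul hab
          show _ < γ (a.1 * b.1) 0
          rw [hmul _ _ h1 h2]
          exact lt_of_le_of_lt (csInf_le ⟨1, hS1⟩ ⟨b, hb, h2, rfl⟩) (hst _ h2 (a.2 h1))
        | zero => exact zero_mem _
        | add a b _ _ ia ib => exact add_mem ia ib
        | neg a _ ia => exact neg_mem ia
      · intro hx
        by_cases h0 : x.1 = 0
        · rw [show x = 0 from Subtype.ext h0]; exact zero_mem _
        obtain ⟨_, ⟨l, hl, hl', rfl⟩, hlt⟩ := exists_lt_of_csInf_lt hSn (hx h0)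
        have : x = ⟨_, hdiv x.1 l.1 hl' fun _ => hlt⟩ * l :=
          Subtype.ext (inv_mul_cancel_right₀ hl' x.1).symm
        rw [this]
        exact hleft _ _ hl
    obtain ⟨u, hu, hu'⟩ := haff (sInf S) 0 (by linarith)
    have hui : γ u⁻¹ 0 = 0 := by
      have := hmul u u⁻¹ hu (inv_ne_zero hu) 0
      rw [mul_inv_cancel₀ hu, hone, hu'] at this
      simpa using this.symm
    have hconj : ∀ x : D, x ≠ 0 → γ (u⁻¹ * x * u) 0 = sInf S * γ x 0 := by
      intro x hx
      rw [hmul _ _ (mul_ne_zero (inv_ne_zero hu) hx) hu, hmul _ _ (inv_ne_zero hu) hx, hui, hu',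
        add_zero]
    have k1 : ∀ x : D, x ∈ A 1 zero_le_one → u⁻¹ * x * u ∈ A (sInf S) hc0 := by
      intro x hx h
      have h1 : x ≠ 0 := right_ne_zero_of_mul (left_ne_zero_of_mul h)
      rw [hconj x h1]
      have := hx h1
      nlinarith
    have k2 : ∀ x : D, x ∈ A (sInf S) hc0 → u * x * u⁻¹ ∈ A 1 zero_le_one := by
      intro x hx h
      have h1 : x ≠ 0 := right_ne_zero_of_mul (left_ne_zero_of_mul h)
      have h2 := hconj _ h
      have h3 : u⁻¹ * (u * x * u⁻¹) * u = x := by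
        rw [← mul_assoc, ← mul_assoc, inv_mul_cancel₀ hu, one_mul, inv_mul_cancel_right₀ hu]
      rw [h3] at h2
      have := hx h1
      by_contra hc
      nlinarith
    have k3 : ∀ x : D, x ∈ A (sInf S) hc0 → x ∈ A 1 zero_le_one :=
      fun x hx h => lt_of_le_of_lt hc1 (hx h)
    exact ⟨{
      toFun := fun l => ⟨u * l.1.1 * u⁻¹, k2 _ ((hmem l.1).1 l.2)⟩
      invFun := fun x => ⟨⟨u⁻¹ * x.1 * u, k3 _ (k1 _ x.2)⟩, (hmem _).2 (k1 _ x.2)⟩
      left_inv := fun l => Subtype.ext (Subtype.ext (by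
        show u⁻¹ * (u * l.1.1 * u⁻¹) * u = l.1.1
        rw [← mul_assoc, ← mul_assoc, inv_mul_cancel₀ hu, one_mul, inv_mul_cancel_right₀ hu]))
      right_inv := fun x => Subtype.ext (by
        show u * (u⁻¹ * x.1 * u) * u⁻¹ = x.1
        rw [← mul_assoc, ← mul_assoc, mul_inv_cancel₀ hu, one_mul, mul_inv_cancel_right₀ hu])
      map_mul' := fun a b => Subtype.ext (by
        show u * (a.1.1 * b.1.1) * u⁻¹ = u * a.1.1 * u⁻¹ * (u * b.1.1 * u⁻¹)
        simp only [mul_assoc, inv_mul_cancel_left₀ hu])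
      map_add' := fun a b => Subtype.ext (by
        show u * (a.1.1 + b.1.1) * u⁻¹ = u * a.1.1 * u⁻¹ + u * b.1.1 * u⁻¹
        rw [mul_add, add_mul]) }⟩

end Pool.Agent.S03273
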