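import Pool.Statements.S03284
import Pool.Agent.H19.BigCell

set_option autoImplicit false
open Pool Pool.MP_debbfb_al

namespace Pool.Agent.S03284

open RegularWreathProduct

structure St where
  H : Type
  Q : Type
  [gH : Group H]
  [gQ : Group Q]
  [fH : Finite H]
  [fQ : Finite Q]
  pQ : IsPGroup 3 Q
  π : H →* Q
  α : Q →* H
  β : Q →* H
  hα : ∀ q, π (α q) = q
  hβ : ∀ q, π (β q) = q

attribute [instance] St.gH St.gQ St.fH St.fQ

def wmap {D D' Q : Type} [Group D] [Group D'] [Group Q] (f : D →* D') :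
    RegularWreathProduct D Q →* RegularWreathProduct D' Q where
  toFun a := ⟨fun x => f (a.left x), a.right⟩
  map_one' := RegularWreathProduct.ext (funext fun _ => by simp) rfl
  map_mul' a b := RegularWreathProduct.ext (funext fun _ => by simp) rfl

lemma wp {D Q : Type} [Group D] [Group Q] [Finite D] [Finite Q] (hD : IsPGroup 3 D)
    (hQ : IsPGroup 3 Q) : IsPGroup 3 (RegularWreathProduct D Q) := by
  haveI : Fact (Nat.Prime 3) := ⟨by norm_num⟩
  obtain ⟨a, ha⟩ := IsPGroup.iff_card.1 hD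
  obtain ⟨b, hb⟩ := IsPGroup.iff_card.1 hQ
  refine IsPGroup.of_card (n := a * 3 ^ b + b) ?_
  rw [RegularWreathProduct.card, ha, hb, pow_add, pow_mul]

lemma pp {D Q : Type} [Group D] [Group Q] [Finite D] [Finite Q] (hD : IsPGroup 3 D)
    (hQ : IsPGroup 3 Q) : IsPGroup 3 (D × Q) := by
  haveI : Fact (Nat.Prime 3) := ⟨by norm_num⟩
  obtain ⟨a, ha⟩ := IsPGroup.iff_card.1 hD
  obtain ⟨b, hb⟩ := IsPGroup.iff_card.1 hQ
  refine IsPGroup.of_card (n := a + b) ?_
  rw [Nat.card_prod, ha, hb, pow_add]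

def Good (S T : St) (φ : S.H →* T.H) : Prop :=
  Function.Injective φ ∧ (∀ q, φ (S.α q) ∈ T.α.range) ∧ (∀ q, φ (S.β q) ∈ T.β.range) ∧
    ∀ h, ∃ a b, φ h = T.α a * T.β b

def kk (S : St) {K P : Type} [Group K] [Group P] (θ : S.H →* K) :
    S.H →* RegularWreathProduct (K × P) S.Q where
  toFun h := ⟨fun x => (θ ((S.α x)⁻¹ * h * S.α ((S.π h)⁻¹ * x)), 1), S.π h⟩
  map_one' := RegularWreathProduct.ext (funext fun _ => by simp) (by simp)
  map_mul' a b := RegularWreathProduct.ext (funext fun x => by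
    refine Prod.ext ?_ (by simp)
    show θ _ = θ _ * θ _
    rw [← map_mul]
    congr 1
    simp only [map_mul, mul_inv_rev, map_inv]
    group) (by simp)

theorem step (S : St) : ∃ (T : St) (φ : S.H →* T.H), Good S T φ := by
  obtain ⟨K, _, _, θ, P1, P2, hθ, h1, h2, hP⟩ := Pool.Agent.H19.BigCell.star S.H
  let j1 : P1 × P2 →* K × (P1 × P2) := (P1.subtype.comp (MonoidHom.fst _ _)).prod (MonoidHom.id _)
  let j2 : P1 × P2 →* K × (P1 × P2) := (P2.subtype.comp (MonoidHom.snd _ _)).prod (MonoidHom.id _)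
  let e : S.Q → S.H := fun x => (S.α x)⁻¹ * S.β x
  let E : RegularWreathProduct (K × (P1 × P2)) S.Q := ⟨fun x => (θ (e x), 1), 1⟩
  let T : St :=
    { H := RegularWreathProduct (K × (P1 × P2)) S.Q
      Q := RegularWreathProduct (P1 × P2) S.Q
      pQ := wp (pp h1 h2) S.pQ
      π := wmap (MonoidHom.snd _ _)
      α := wmap j1
      β := (MulAut.conj E).toMonoidHom.comp (wmap j2)
      hα := fun q => rfl
      hβ := fun q => by
        have hE : wmap (MonoidHom.snd _ _) E = 1 := rfl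
        show wmap (MonoidHom.snd _ _) (E * wmap j2 q * E⁻¹) = q
        rw [map_mul, map_mul, map_inv, hE, one_mul, inv_one, mul_one]
        rfl }
  refine ⟨T, kk S θ, ?_, fun q => ⟨⟨1, q⟩, ?_⟩, fun q => ⟨⟨1, q⟩, ?_⟩, fun h => ?_⟩
  · rw [injective_iff_map_eq_one]
    intro h hh
    have a1 : S.π h = 1 := congrArg RegularWreathProduct.right hh
    have a2 : θ ((S.α 1)⁻¹ * h * S.α ((S.π h)⁻¹ * 1)) = 1 :=
      congrArg (fun w : RegularWreathProduct (K × (P1 × P2)) S.Q => (w.left 1).1) hh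
    rw [a1] at a2
    apply hθ
    simpa using a2
  · refine RegularWreathProduct.ext (funext fun x => Prod.ext ?_ rfl) (S.hα q).symm
    show (1 : K) = θ _
    rw [S.hα]
    simp
  · refine RegularWreathProduct.ext (funext fun x => Prod.ext ?_ ?_) ?_
    · show θ (e x) * 1 * (θ (e (1 * ((1 * q)⁻¹ * x))))⁻¹ = θ _
      rw [S.hβ, ← map_inv, mul_one, ← map_mul]
      congr 1
      simp only [e, inv_one, one_mul, map_mul, map_inv]
      group
    · show (1 : P1 × P2) * 1 * 1⁻¹ = 1
      simp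
    · show 1 * q * 1⁻¹ = S.π (S.β q)
      rw [S.hβ]; simp
  · choose a ha b hb hab using hP
    let n : S.Q → S.H := fun x => (S.α x)⁻¹ * h * S.α ((S.π h)⁻¹ * x)
    let f : S.Q → P1 × P2 := fun x =>
      (⟨a (n x * e ((S.π h)⁻¹ * x)) * (a (e ((S.π h)⁻¹ * x)))⁻¹, P1.mul_mem (ha _) (P1.inv_mem (ha _))⟩,
       ⟨(b (n x * e ((S.π h)⁻¹ * x)))⁻¹ * b (e ((S.π h)⁻¹ * x)), P2.mul_mem (P2.inv_mem (hb _)) (hb _)⟩)
    refine ⟨⟨f, S.π h⟩, ⟨fun y => (f (S.π h * y))⁻¹, 1⟩, ?_⟩
    refine RegularWreathProduct.ext (funext fun x => Prod.ext ?_ ?_) ?_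
    · show θ (n x) = ((f x).1 : K) * (θ (e ((S.π h)⁻¹ * x)) *
        (((f (S.π h * (1⁻¹ * ((S.π h)⁻¹ * x)))).2 : K))⁻¹ *
        (θ (e (1 * ((1 * 1)⁻¹ * ((S.π h)⁻¹ * x)))))⁻¹)
      simp only [inv_one, one_mul, mul_inv_cancel_left, f]
      have e1 := hab (n x * e ((S.π h)⁻¹ * x))
      have e2 := hab (e ((S.π h)⁻¹ * x))
      rw [map_mul, ← eq_mul_inv_iff_mul_eq] at e1
      rw [e1, e2]
      group
    · show (1 : P1 × P2) = f x * (1 * (f (S.π h * (1⁻¹ * ((S.π h)⁻¹ * x))))⁻¹ * 1⁻¹)
      simp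
    · show S.π h = S.π h * (1 * 1 * 1⁻¹)
      simp

def S0 : St where
  H := Equiv.Perm (Fin 5)
  Q := Unit
  pQ := fun g => ⟨0, rfl⟩
  π := 1
  α := 1
  β := 1
  hα := fun _ => rfl
  hβ := fun _ => rfl

noncomputable def ch : ℕ → St
  | 0 => S0
  | n + 1 => (step (ch n)).choose

noncomputable def st (n : ℕ) : (ch n).H →* (ch (n + 1)).H := (step (ch n)).choose_spec.choose

lemma st_good (n : ℕ) : Good (ch n) (ch (n + 1)) (st n) := (step (ch n)).choose_spec.choose_spec

noncomputable def le (m n : ℕ) (h : m ≤ n) : (ch m).H →* (ch n).H :=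
  Nat.leRecOn h (fun {k} φ => (st k).comp φ) (MonoidHom.id _)

lemma le_self (n : ℕ) : le n n le_rfl = MonoidHom.id _ := Nat.leRecOn_self _

lemma le_succ (m n : ℕ) (h : m ≤ n) (h' : m ≤ n + 1) :
    le m (n + 1) h' = (st n).comp (le m n h) := Nat.leRecOn_succ h _

lemma le_trans' (i j k : ℕ) (h : i ≤ j) (h' : j ≤ k) :
    (le j k h').comp (le i j h) = le i k (h.trans h') := by
  induction k, h' using Nat.le_induction with
  | base => rw [le_self]; rfl
  | succ k hk ih => rw [le_succ j k hk, le_succ i k (h.trans hk), ← ih]; rfl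

lemma le_inj (i j : ℕ) (h : i ≤ j) : Function.Injective (le i j h) := by
  induction j, h using Nat.le_induction with
  | base => rw [le_self]; exact Function.injective_id
  | succ k hk ih => rw [le_succ i k hk]; exact (st_good k).1.comp ih

instance : DirectedSystem (fun n => (ch n).H) (le · · ·) :=
  ⟨fun i x => by simp only [le_self]; rfl,
    fun k j i h h' x => by simp only [← le_trans' i j k h h']; rfl⟩

abbrev LG : Type := DirectLimit (fun n => (ch n).H) le

noncomputable def oG (n : ℕ) : (ch n).H →* LG where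
  toFun x := ⟦⟨n, x⟩⟧
  map_one' := (DirectLimit.one_def n).symm
  map_mul' _ _ := (DirectLimit.mul_def ..).symm

lemma oG_inj (n : ℕ) : Function.Injective (oG n) := DirectLimit.mk_injective le le_inj n

lemma oG_st (n : ℕ) (x : (ch n).H) : oG (n + 1) (st n x) = oG n x := by
  have h : le n (n + 1) (Nat.le_succ n) = st n := by rw [le_succ n n le_rfl, le_self]; rfl
  rw [← h]
  exact DirectLimit.mk_apply (F := fun n => (ch n).H) (f := le) n (n + 1) x (Nat.le_succ n)

lemma oG_ex (x : LG) : ∃ n y, oG n y = x := by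
  obtain ⟨i, x, rfl⟩ := DirectLimit.exists_eq_mk _ x
  exact ⟨i, x, rfl⟩

lemma fin_le {G : Type} [Group G] (R : ℕ → Subgroup G) (hm : Monotone R) (s : Finset G)
    (hs : ∀ x ∈ s, ∃ n, x ∈ R n) : ∃ n, Subgroup.closure (s : Set G) ≤ R n := by
  classical
  have : ∃ n, ∀ x ∈ s, x ∈ R n := by
    induction s using Finset.induction_on with
    | empty => exact ⟨0, by simp⟩
    | insert a T _ ih =>
      obtain ⟨i, hi⟩ := ih fun x hx => hs x (Finset.mem_insert_of_mem hx)
      obtain ⟨j, hj⟩ := hs a (Finset.mem_insert_self _ _)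
      refine ⟨max i j, fun t ht => ?_⟩
      rcases Finset.mem_insert.1 ht with rfl | ht
      · exact hm (le_max_right i j) hj
      · exact hm (le_max_left i j) (hi t ht)
  obtain ⟨n, hn⟩ := this
  exact ⟨n, (Subgroup.closure_le _).2 hn⟩

lemma nil_of (γ : ∀ n, (ch n).Q →* (ch n).H) (hγ : ∀ n q, st n (γ n q) ∈ (γ (n + 1)).range) :
    Monotone (fun n => ((oG n).comp (γ n)).range) ∧ ∀ s : Finset LG,
      (s : Set LG) ⊆ ((⨆ n, ((oG n).comp (γ n)).range : Subgroup LG) : Set LG) →
      Group.IsNilpotent (Subgroup.closure (s : Set LG)) := by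
  have hm : Monotone (fun n => ((oG n).comp (γ n)).range) := by
    refine monotone_nat_of_le_succ fun n => ?_
    rintro _ ⟨q, rfl⟩
    obtain ⟨r, hr⟩ := hγ n q
    exact ⟨r, by rw [MonoidHom.comp_apply, hr, oG_st]; rfl⟩
  refine ⟨hm, fun s hs => ?_⟩
  obtain ⟨n, hn⟩ := fin_le _ hm s fun x hx =>
    (Subgroup.mem_iSup_of_directed hm.directed_le).1 (hs hx)
  haveI : Fact (Nat.Prime 3) := ⟨by norm_num⟩
  have hp : IsPGroup 3 ((oG n).comp (γ n)).range :=
    (ch n).pQ.of_surjective _ (MonoidHom.rangeRestrict_surjective _)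
  haveI : Finite ((oG n).comp (γ n)).range :=
    Finite.of_surjective _ (MonoidHom.rangeRestrict_surjective _)
  haveI : Finite (Subgroup.closure (s : Set LG)) :=
    Finite.of_injective _ (Subgroup.inclusion_injective hn)
  exact (hp.to_le hn).isNilpotent

noncomputable def o0 : Equiv.Perm (Fin 5) →* LG := oG 0

/-- The negation of the preceding statement: If a group whose finitely generated subgroups are all finite equals AB for two subgroups A, B whose finitely generated subgroups are nilpotent, then every finitely generated subgroup of the group is solvable. -/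
theorem result :
    ¬ (∀ (G : Type) [Group G],
      (∀ s : Finset G, Finite (Subgroup.closure (s : Set G))) →
      ∀ A B : Subgroup G,
        (∀ s : Finset G, (s : Set G) ⊆ (A : Set G) →
          Group.IsNilpotent (Subgroup.closure (s : Set G))) →
        (∀ s : Finset G, (s : Set G) ⊆ (B : Set G) →
          Group.IsNilpotent (Subgroup.closure (s : Set G))) →
        (∀ g : G, ∃ a ∈ A, ∃ b ∈ B, g = a * b) →
        ∀ s : Finset G, IsSolvable (Subgroup.closure (s : Set G))) := by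
  intro h
  have hm : Monotone (fun n => (oG n).range) := by
    refine monotone_nat_of_le_succ fun n => ?_
    rintro _ ⟨q, rfl⟩
    exact ⟨st n q, oG_st n q⟩
  obtain ⟨mA, hA⟩ := nil_of (fun n => (ch n).α) fun n => (st_good n).2.1
  obtain ⟨mB, hB⟩ := nil_of (fun n => (ch n).β) fun n => (st_good n).2.2.1
  classical
  have hs := h LG (fun s => by
    obtain ⟨n, hn⟩ := fin_le _ hm s fun x _ => oG_ex x
    haveI : Finite (oG n).range := Finite.of_surjective _ (MonoidHom.rangeRestrict_surjective _)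
    exact Finite.of_injective _ (Subgroup.inclusion_injective hn)) _ _ hA hB (fun g => by
    obtain ⟨n, y, rfl⟩ := oG_ex g
    obtain ⟨a, b, hab⟩ := (st_good n).2.2.2 y
    refine ⟨oG (n + 1) ((ch (n + 1)).α a), Subgroup.mem_iSup_of_mem (n + 1) ⟨a, rfl⟩,
      oG (n + 1) ((ch (n + 1)).β b), Subgroup.mem_iSup_of_mem (n + 1) ⟨b, rfl⟩, ?_⟩
    rw [← map_mul, ← hab, oG_st])
    ((Finset.univ : Finset (Equiv.Perm (Fin 5))).image o0)
  have hs' : Group.IsSolvable (Subgroup.closure
      (((Finset.univ : Finset (Equiv.Perm (Fin 5))).image o0 : Finset LG) : Set LG)) := hs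
  refine Equiv.Perm.not_isSolvable_fin_5 (Group.isSolvable_of_isSolvable_injective
    (f := o0.codRestrict (Subgroup.closure
      (((Finset.univ : Finset (Equiv.Perm (Fin 5))).image o0 : Finset LG) : Set LG))
      (fun x => Subgroup.subset_closure (Finset.mem_coe.2
        (Finset.mem_image_of_mem _ (Finset.mem_univ x))))) ?_)
  intro a b hab
  exact oG_inj 0 (congrArg Subtype.val hab)

end Pool.Agent.S03284
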