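import Pool.Statements.S03302
import Pool.Agent.H20.Form

set_option autoImplicit false
open Pool Pool.MP_e00c87_al

namespace Pool.Agent.S03302

open Pool.Agent.H20.Form

theorem result :
    ¬ (∀ (F : ∀ (H : Type) [Group H], Prop),
    (∀ (H K : Type) [Group H] [Group K] [Finite H] (f : H →* K),
        Function.Surjective f → F H → F K) →
    (∀ (H K₁ K₂ : Type) [Group H] [Group K₁] [Group K₂] [Finite H]
        (f₁ : H →* K₁) (f₂ : H →* K₂),
        Function.Surjective f₁ → Function.Surjective f₂ → F K₁ → F K₂ →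
        F ↥(f₁.prod f₂).range) →
    (∀ (H K : Type) [Group H] [Group K] [Finite H] (f : H →* K),
        Function.Surjective f → (∀ M : Subgroup H, IsCoatom M → f.ker ≤ M) →
        F K → F H) →
    ∀ (G : Type) [Group G] [Finite G],
      IsSolvable G → ¬ F G → (∀ K : Subgroup G, K ≠ ⊤ → F ↥K) →
      ∀ (p : ℕ) [Fact p.Prime] (R : Subgroup G),
        R = sInf {K : Subgroup G | ∃ (H : Type) (_ : Group H) (_ : Finite H),
              F H ∧ ∃ f : G →* H, Function.Surjective f ∧ f.ker = K} →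
        (∃ P : Sylow p G, (P : Subgroup G) = R) →
        ∃ n : ℕ, 0 < n ∧
          ∃ φ : GaloisField p (2 * n) × GaloisField p (2 * n) → G,
            (∀ x : GaloisField p (2 * n) × GaloisField p (2 * n),
                x.2 + x.2 ^ (p ^ n) + x.1 ^ (p ^ n + 1) = 0 → φ x ∈ R) ∧
            (∀ g ∈ R, ∃ x : GaloisField p (2 * n) × GaloisField p (2 * n),
                x.2 + x.2 ^ (p ^ n) + x.1 ^ (p ^ n + 1) = 0 ∧ φ x = g) ∧
            (∀ x y : GaloisField p (2 * n) × GaloisField p (2 * n),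
                x.2 + x.2 ^ (p ^ n) + x.1 ^ (p ^ n + 1) = 0 →
                y.2 + y.2 ^ (p ^ n) + y.1 ^ (p ^ n + 1) = 0 →
                φ (x.1 + y.1, x.2 + y.2 - x.1 * y.1 ^ (p ^ n)) = φ x * φ y)) := by
  intro h
  haveI := pP.isNilpotent
  obtain ⟨n, hn, φ, h1, h2, h3⟩ := h (fun H _ => F H) (fun H K _ _ _ f hf => F_quot H K f hf)
    (fun H K₁ K₂ _ _ _ _ f₁ f₂ _ _ a b => F_sub _ (F_prod a b)) F_sat G
    (Group.isSolvable_of_ker_le_range SemidirectProduct.inl SemidirectProduct.rightHom R_eq.le)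
    (fun hF => by
      have := kill' hF (MonoidHom.id _)
        (show (SemidirectProduct.inl ⟨1, 0, 0, 0, 0, 0⟩ : G) ∈ R from rfl)
      exact absurd (congrArg SemidirectProduct.left this) (by decide))
    proper 3 R
    (le_antisymm (le_sInf (by rintro _ ⟨H, _, _, hF, f, -, rfl⟩; exact kill' hF f))
      (sInf_le ⟨C, inferInstance, inferInstance, F_C, _, SemidirectProduct.rightHom_surjective, rfl⟩))
    ⟨⟨R, pR, fun {Q} hQ hle => le_antisymm (fun x hx => by
      obtain ⟨k, hk⟩ := hQ ⟨x, hx⟩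
      have e1 : SemidirectProduct.rightHom x ^ 3 ^ k = 1 := by
        rw [← map_pow, show x ^ 3 ^ k = 1 from congrArg Subtype.val hk, map_one]
      have e2 : SemidirectProduct.rightHom x ^ 16 = 1 := by
        generalize SemidirectProduct.rightHom x = c
        revert c; decide
      have := pow_gcd_eq_one.mpr ⟨e1, e2⟩
      rwa [Nat.Coprime.gcd_eq_one (Nat.Coprime.pow_left _ (by norm_num)), pow_one] at this) hle⟩, rfl⟩
  set q := 3 ^ n with hq
  have hq0 : q ≠ 0 := by positivity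
  have hadd : ∀ x y : GaloisField 3 (2 * n), (x + y) ^ q = x ^ q + y ^ q := fun x y =>
    add_pow_char_pow x y 3 n
  have hsub : ∀ x y : GaloisField 3 (2 * n), (x - y) ^ q = x ^ q - y ^ q := fun x y =>
    sub_pow_char_pow x y n
  have hneg : ∀ x : GaloisField 3 (2 * n), (-x) ^ q = -x ^ q := fun x => by
    simpa [zero_pow hq0] using hsub 0 x
  have hqq : ∀ x : GaloisField 3 (2 * n), (x ^ q) ^ q = x := fun x => by
    haveI := Fintype.ofFinite (GaloisField 3 (2 * n))
    rw [← pow_mul, hq, ← pow_add, ← two_mul, ← GaloisField.card 3 (2 * n) (by omega),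
      Nat.card_eq_fintype_card, FiniteField.pow_card]
  have h30 : (3 : GaloisField 3 (2 * n)) = 0 := CharP.cast_eq_zero _ 3
  have hc : ∀ x y : GaloisField 3 (2 * n) × GaloisField 3 (2 * n),
      x.2 + x.2 ^ q + x.1 ^ (q + 1) = 0 → y.2 + y.2 ^ q + y.1 ^ (q + 1) = 0 →
      φ x * φ y = φ (0, y.1 * x.1 ^ q - x.1 * y.1 ^ q) * (φ y * φ x) := fun x y hx hy => by
    rw [← h3 x y hx hy, ← h3 y x hy hx, ← h3]
    · congr 1
      ext <;> simp only <;> ring
    · simp only [hsub, mul_pow, hqq]; ring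
    · simp only [pow_succ, hsub, hadd, mul_pow, hqq] at hx hy ⊢
      linear_combination hx + hy
  have h00 : φ (0, 0) = 1 := by
    have := h3 (0, 0) (0, 0) (by simp [hq0]) (by simp [hq0])
    simpa using this
  obtain ⟨x, hx, ex⟩ := h2 (SemidirectProduct.inl ⟨1, 0, 0, 0, 0, 0⟩) rfl
  by_cases h0 : x.1 = 0
  · obtain ⟨y, hy, ey⟩ := h2 (SemidirectProduct.inl ⟨0, 1, 0, 0, 0, 0⟩) rfl
    have := hc x y hx hy
    rw [h0, zero_pow hq0, mul_zero, zero_mul, sub_zero, h00, one_mul, ex, ey, ← map_mul,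
      ← map_mul] at this
    exact absurd (SemidirectProduct.inl_injective this) (by decide)
  obtain ⟨y, hy, ey⟩ := h2 (SemidirectProduct.inl ⟨0, 0, 1, 0, 0, 0⟩) rfl
  obtain ⟨w, hw, ew⟩ := h2 (SemidirectProduct.inl ⟨0, 0, 0, 1, 0, 0⟩) rfl
  have e1 := hc y w hy hw
  set c := w.1 * y.1 ^ q - y.1 * w.1 ^ q with hcc
  have hcq : c ^ q = -c := by simp only [hcc, hsub, mul_pow, hqq]; ring
  set z := -c / x.1 ^ q with hz
  have hs : (z, z ^ (q + 1)).2 + (z, z ^ (q + 1)).2 ^ q + (z, z ^ (q + 1)).1 ^ (q + 1) = 0 := by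
    simp only [pow_succ, mul_pow, hqq]
    linear_combination (z ^ q * z) * h30
  have e2 := hc x _ hx hs
  have e3 : z * x.1 ^ q - x.1 * z ^ q = c := by
    rw [hz, div_pow, hneg, hcq, hqq]
    field_simp
    linear_combination (-c) * h30
  have e4 := h1 _ hs
  rw [R_eq] at e4
  obtain ⟨v, e4⟩ := e4
  simp only at e2
  rw [e3, ex, ← e4] at e2
  rw [ey, ew] at e1
  rw [← mul_inv_eq_iff_eq_mul] at e1 e2
  rw [← e1] at e2
  simp only [← map_mul, ← map_inv] at e2
  have e5 := SemidirectProduct.inl_injective e2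
  clear e2 e4
  revert v
  decide +kernel

end Pool.Agent.S03302
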