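import Pool.Statements.S03304
import Pool.Agent.H20.CB5

set_option autoImplicit false
open Pool Pool.MP_e032dc_al

namespace Pool.Agent.S03304

/-- The negation of the preceding statement: Let G be a transitive p-group of finitarily supported permutations of an infinite set, with every finite set inside a finite block and every cycle support a block. Then G has a subgroup that is not FC but all of whose proper subgroups are FC. -/
theorem result :
    ¬ (∀ (Ω : Type) [Infinite Ω] (p : ℕ), p.Prime →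
      ∀ G : Subgroup (Equiv.Perm Ω),
        (∀ g ∈ G, {x : Ω | g x ≠ x}.Finite) →
        (∀ g ∈ G, ∃ n : ℕ, g ^ (p ^ n) = 1) →
        (∀ x y : Ω, ∃ g ∈ G, g x = y) →
        (∀ F : Set Ω, F.Finite → ∃ B : Set Ω, F ⊆ B ∧ B.Finite ∧
            ∀ h ∈ G, (⇑h '' B = B ∨ Disjoint (⇑h '' B) B)) →
        (∀ g ∈ G, ∀ x : Ω, ∀ h ∈ G,
            (⇑h '' Set.range (fun n : ℤ => (g ^ n) x) = Set.range (fun n : ℤ => (g ^ n) x) ∨
             Disjoint (⇑h '' Set.range (fun n : ℤ => (g ^ n) x))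
               (Set.range (fun n : ℤ => (g ^ n) x)))) →
        ∃ H : Subgroup (Equiv.Perm Ω), H ≤ G ∧
          ¬ (∀ a ∈ H, {b : Equiv.Perm Ω | ∃ c ∈ H, b = c * a * c⁻¹}.Finite) ∧
          ∀ K : Subgroup (Equiv.Perm Ω), K < H →
            ∀ a ∈ K, {b : Equiv.Perm Ω | ∃ c ∈ K, b = c * a * c⁻¹}.Finite) := by
  intro h
  obtain ⟨H, hH, h1, h2⟩ := h ℕ 2 Nat.prime_two H20.CB.G H20.CB.G_fin (fun g hg => H20.CB.pw hg)
    H20.CB.G_trans
    (fun F hF => by
      obtain ⟨n, hn⟩ := hF.bddAbove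
      refine ⟨{y | H20.CB.lv n y = H20.CB.lv n 0}, fun x hx => ?_, H20.CB.blk_fin n 0,
        fun h hh => H20.CB.blk hh n 0⟩
      change H20.CB.lv n x = H20.CB.lv n 0
      rw [H20.CB.lv_zero', H20.CB.lv_eq_zero]
      exact lt_of_le_of_lt (hn hx) Nat.lt_two_pow_self)
    (fun g hg x h hh => by
      obtain ⟨k, hk⟩ := H20.CB.cyc hg x
      rw [hk]
      exact H20.CB.blk hh k x)
  obtain ⟨K, hK, ht⟩ := H20.CB.no_bt hH (H20.CB.trans_of_not_fc hH h1)
  exact H20.CB.not_fc (hK.le.trans hH) ht (h2 K hK)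

end Pool.Agent.S03304
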