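import Pool.Statements.S03355
import Pool.Agent.H2.BT4

set_option autoImplicit false
open Pool Pool.MP_e4245d_al

namespace Pool.Agent.S03355

/-- There is a bounded-degree graph on ℕ with finite components whose Laplacian has a uniform spectral gap in every *-representation of finite-propagation operators killing ghosts, yet has no spectral gap on ℓ², i.e. is not an expander. -/
theorem result :
  ∃ G : SimpleGraph ℕ,
    (∃ D : ℕ, ∀ x : ℕ, (G.neighborSet x).Finite ∧ (G.neighborSet x).ncard ≤ D) ∧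
    (∀ x : ℕ, {y : ℕ | G.Reachable x y}.Finite) ∧
    ∃ L : lp (fun _ : ℕ => ℂ) 2 →L[ℂ] lp (fun _ : ℕ => ℂ) 2,
      (∀ x : ℕ, inner ℂ (lp.single 2 x (1 : ℂ) : lp (fun _ : ℕ => ℂ) 2)
          (L (lp.single 2 x (1 : ℂ) : lp (fun _ : ℕ => ℂ) 2)) = ((G.neighborSet x).ncard : ℂ)) ∧
      (∀ x y : ℕ, G.Adj x y → inner ℂ (lp.single 2 y (1 : ℂ) : lp (fun _ : ℕ => ℂ) 2)
          (L (lp.single 2 x (1 : ℂ) : lp (fun _ : ℕ => ℂ) 2)) = -1) ∧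
      (∀ x y : ℕ, x ≠ y → ¬ G.Adj x y → inner ℂ (lp.single 2 y (1 : ℂ) : lp (fun _ : ℕ => ℂ) 2)
          (L (lp.single 2 x (1 : ℂ) : lp (fun _ : ℕ => ℂ) 2)) = 0) ∧
      (∀ P Gh : Set (lp (fun _ : ℕ => ℂ) 2 →L[ℂ] lp (fun _ : ℕ => ℂ) 2),
        (∀ T, T ∈ P ↔ ∃ R : ℕ, ∀ x y : ℕ,
            inner ℂ (lp.single 2 y (1 : ℂ) : lp (fun _ : ℕ => ℂ) 2)
              (T (lp.single 2 x (1 : ℂ) : lp (fun _ : ℕ => ℂ) 2)) ≠ 0 →
            G.edist x y ≤ (R : ℕ∞)) →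
        (∀ T, T ∈ Gh ↔ ∀ ε : ℝ, 0 < ε → ∃ F : Finset ℕ, ∀ x y : ℕ, x ∉ F →
            ‖inner ℂ (lp.single 2 y (1 : ℂ) : lp (fun _ : ℕ => ℂ) 2)
              (T (lp.single 2 x (1 : ℂ) : lp (fun _ : ℕ => ℂ) 2))‖ < ε) →
        ∃ c : ℝ, 0 < c ∧
          ∀ (H : Type) [NormedAddCommGroup H] [InnerProductSpace ℂ H] [CompleteSpace H]
            (π : (lp (fun _ : ℕ => ℂ) 2 →L[ℂ] lp (fun _ : ℕ => ℂ) 2) → (H →L[ℂ] H)),
            (∀ S ∈ P, ∀ T ∈ P, π (S + T) = π S + π T ∧ π (S * T) = π S * π T) →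
            (∀ a : ℂ, ∀ T ∈ P, π (a • T) = a • π T) →
            (∀ T ∈ P, π (star T) = star (π T)) →
            (∀ T ∈ P, T ∈ Gh → π T = 0) →
            spectrum ℂ (π L) ⊆ {z : ℂ | z = 0 ∨ (z.im = 0 ∧ c ≤ z.re)}) ∧
      ¬ ∃ c : ℝ, 0 < c ∧ spectrum ℂ L ⊆ {z : ℂ | z = 0 ∨ (z.im = 0 ∧ c ≤ z.re)} := by
  open Pool.Agent.H2.BT in
  have hs := gen_inv x0_rel σ_sq
  refine ⟨gr (gen x0 σ0), ⟨13, fun v => ?_⟩, fun v => (lev_fin (lev v)).subset fun w hw =>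
    (reach_lev hs lev lev_gen hw).le, ∑ i, (1 - U (gen x0 σ0 i)), entry_diag hs gen_inj,
    entry_adj hs gen_inj, entry_off hs, fun P Gh hP hG => ⟨1 / 2, by norm_num,
      fun H _ _ _ π h1 h2 h3 h4 => ?_⟩, nogap x0 σ0 g0 x0_rel σ_sq g0_mem g0_gh x0_cut⟩
  · rw [gr_nb hs]
    refine ⟨(Finset.finite_toSet _).image _, (Set.ncard_image_le (Finset.finite_toSet _)).trans ?_⟩
    rw [Set.ncard_coe_finset]
    exact (Finset.card_le_univ _).trans (by simp)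
  · obtain rfl : P = PS (gr (gen x0 σ0)) := Set.ext hP
    refine boundary _ x0 σ0 g0 x0_rel σ_sq g0_mem (mem_WS hs) g0_gh H π h1 h2 h3
      fun T hT ⟨F, hF⟩ => h4 T hT ((hG T).2 fun ε hε => ⟨F, fun x y hx => ?_⟩)
    rw [hF x hx]
    simpa using hε

end Pool.Agent.S03355
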