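import Pool.Statements.S03384
import Pool.Agent.H22.Lim2

set_option autoImplicit false
open CategoryTheory
open Pool Pool.MP_e6182f_al

namespace Pool.Agent.S03384

/-- The negation of the preceding statement: For every ring R, class D of R-modules and module N: N is a direct limit of summands of finite direct sums of modules in D iff N is a direct limit of summands of arbitrary direct sums of modules in D. -/
theorem result :
    ¬ (∀ (R : Type) [Ring R] (D : ModuleCat.{0} R → Prop) (N : ModuleCat.{0} R),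
      (∃ (J : Type) (_ : SmallCategory J) (_ : IsFiltered J) (F : J ⥤ ModuleCat.{0} R),
        (∀ j : J, ∃ (n : ℕ) (M : Fin n → ModuleCat.{0} R), (∀ i, D (M i)) ∧
          ∃ (f : (F.obj j : Type) →ₗ[R] DirectSum (Fin n) (fun i => (M i : Type)))
            (g : DirectSum (Fin n) (fun i => (M i : Type)) →ₗ[R] (F.obj j : Type)),
            g ∘ₗ f = LinearMap.id) ∧
        ∃ c : Limits.Cocone F, Nonempty (Limits.IsColimit c) ∧ Nonempty (c.pt ≅ N)) ↔
      (∃ (J : Type) (_ : SmallCategory J) (_ : IsFiltered J) (F : J ⥤ ModuleCat.{0} R),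
        (∀ j : J, ∃ (ι : Type) (M : ι → ModuleCat.{0} R), (∀ i, D (M i)) ∧
          ∃ (f : (F.obj j : Type) →ₗ[R] DirectSum ι (fun i => (M i : Type)))
            (g : DirectSum ι (fun i => (M i : Type)) →ₗ[R] (F.obj j : Type)),
            g ∘ₗ f = LinearMap.id) ∧
        ∃ c : Limits.Cocone F, Nonempty (Limits.IsColimit c) ∧ Nonempty (c.pt ≅ N))) := by
  classical
  intro h
  let G : ℕ → Type := fun k => H22.Lim.A k
  let f : ∀ i j : ℕ, i ≤ j → G i →ₗ[H22.Lim.R] G j := fun i j hij =>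
    Submodule.inclusion (H22.Lim.A_mono hij)
  have : DirectedSystem G (fun i j h => f i j h) := ⟨fun _ _ => rfl, fun _ _ _ _ _ _ => rfl⟩
  let D : ModuleCat.{0} H22.Lim.R → Prop := fun Y => ∃ t, Y = ModuleCat.of _ (H22.Lim.M t)
  obtain ⟨J, _, _, F, hF, c, ⟨hc⟩, ⟨e⟩⟩ := (h H22.Lim.R D (ModuleCat.directLimitCocone G f).pt).2
    ⟨ℕ, inferInstance, inferInstance, ModuleCat.directLimitDiagram G f, fun k =>
      ⟨H22.Lim.Lv k, fun t => ModuleCat.of _ (H22.Lim.M t.1), fun t => ⟨t.1, rfl⟩,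
        (LinearEquiv.ofBijective _ (H22.Lim.sm_bij k)).symm.toLinearMap,
        (LinearEquiv.ofBijective _ (H22.Lim.sm_bij k)).toLinearMap,
        LinearMap.ext fun x => (LinearEquiv.ofBijective _ (H22.Lim.sm_bij k)).apply_symm_apply x⟩,
      _, ⟨ModuleCat.directLimitIsColimit G f⟩, ⟨Iso.refl _⟩⟩
  let Λ0 : Module.DirectLimit G f →ₗ[H22.Lim.R] H22.Lim.Φ :=
    Module.DirectLimit.lift _ _ G f (fun k => (H22.Lim.A k).subtype) (fun _ _ _ _ => rfl)
  have hΛ : ∀ k (x : G k), Λ0 (Module.DirectLimit.of _ _ G f k x) = x.1 := fun k x =>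
    Module.DirectLimit.lift_of _ _ _
  refine H22.Lim.not_lim F (fun j => ?_) c hc (Λ0 ∘ₗ e.hom.hom) (fun z => ?_) ?_ (fun k z => ?_)
  · obtain ⟨n, M, hM, f, g, hfg⟩ := hF j
    choose t ht using hM
    obtain rfl : M = fun i => ModuleCat.of _ (H22.Lim.M (t i)) := funext ht
    exact ⟨n, t, f, g, hfg⟩
  · obtain ⟨k, x, hx⟩ := Module.DirectLimit.exists_of (f := f) (e.hom.hom z)
    refine ⟨k, ?_⟩
    show Λ0 (e.hom.hom z) ∈ _
    rw [← hx, hΛ]
    exact x.2
  · refine ⟨e.inv.hom (Module.DirectLimit.of _ _ G f 0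
      ⟨H22.Lim.χ ([], {0}), Submodule.subset_span ⟨_, rfl, rfl⟩⟩), ?_⟩
    show Λ0 (e.hom.hom (e.inv.hom _)) ≠ 0
    rw [e.inv_hom_id_apply, hΛ]
    exact H22.Lim.χ_ne
  · obtain ⟨l, x, hx⟩ := Module.DirectLimit.exists_of (f := f) (e.hom.hom z)
    rw [← e.hom_inv_id_apply z]
    refine H22.Lim.deep_map e.inv.hom ?_
    show e.hom.hom z ∈ _
    rw [← hx, ← Module.DirectLimit.of_f (hij := le_max_left l (k + 1))]
    exact H22.Lim.deep_map _ (H22.Lim.deep_A (lt_of_lt_of_le (Nat.lt_succ_self k)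
      (le_max_right _ _)) _)

end Pool.Agent.S03384
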