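import Pool.Statements.S03452

set_option autoImplicit false
open Pool Pool.MP_ead43b_al

namespace Pool.Agent.S03452

/-- The infinite dihedral group, acting on `ℤ` by `u ↦ ± u + 2 k`. -/
@[ext] structure D where
  e : Bool
  k : ℤ

def sg (e : Bool) (u : ℤ) : ℤ := cond e (-u) u
@[simp] lemma sg_true (u : ℤ) : sg true u = -u := rfl
@[simp] lemma sg_false (u : ℤ) : sg false u = u := rfl

instance : Mul D := ⟨fun a b => ⟨xor a.e b.e, sg a.e b.k + a.k⟩⟩
instance : One D := ⟨⟨false, 0⟩⟩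
instance : Inv D := ⟨fun a => ⟨a.e, - sg a.e a.k⟩⟩
@[simp] lemma D.mul_e (a b : D) : (a * b).e = xor a.e b.e := rfl
@[simp] lemma D.mul_k (a b : D) : (a * b).k = sg a.e b.k + a.k := rfl
@[simp] lemma D.one_e : (1 : D).e = false := rfl
@[simp] lemma D.one_k : (1 : D).k = 0 := rfl
@[simp] lemma D.inv_e (a : D) : a⁻¹.e = a.e := rfl
@[simp] lemma D.inv_k (a : D) : a⁻¹.k = - sg a.e a.k := rfl

instance : Group D := Group.ofLeftAxioms
  (by
    rintro ⟨a, k⟩ ⟨b, l⟩ ⟨c, m⟩
    ext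
    · cases a <;> cases b <;> cases c <;> simp
    · cases a <;> cases b <;> simp <;> ring)
  (by rintro ⟨a, k⟩; ext <;> simp)
  (by rintro ⟨a, k⟩; ext <;> cases a <;> simp)

/-- The image of the point `1`. -/
def D.val (a : D) : ℤ := sg a.e 1 + 2 * a.k

def J : Type := {j : ℤ // -4 ≤ j ∧ j < 4}

/-- The action on the half-integers `r + 1/2`. -/
def wl (a : D) (r : ℤ) : ℤ := cond a.e (-r - 1) r + 2 * a.k

def actJ (a : D) (j : J) : J := ⟨(wl a j.1 + 4) % 8 - 4, by omega⟩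

def fl (j : J) : Bool := decide (0 < j.1)

def coc (a : D) (j : J) : D :=
  ⟨xor (fl (actJ a j)) (xor a.e (fl j)), sg (fl (actJ a j)) ((wl a j.1 + 4) / 8)⟩

lemma actJ_one (j : J) : actJ 1 j = j := by
  obtain ⟨j, h⟩ := j
  apply Subtype.ext
  simp only [actJ, wl, D.one_e, D.one_k, cond_false]; omega

lemma actJ_mul (a b : D) (j : J) : actJ (a * b) j = actJ a (actJ b j) := by
  obtain ⟨j, h⟩ := j
  obtain ⟨e, k⟩ := a
  obtain ⟨f, l⟩ := b
  apply Subtype.ext
  cases e <;> cases f <;> simp [actJ, wl] <;> omega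

lemma coc_one (j : J) : coc 1 j = 1 := by
  ext
  · simp [coc, actJ_one]
  · obtain ⟨j, h⟩ := j
    have : (wl 1 j + 4) / 8 = 0 := by simp only [wl, D.one_e, D.one_k, cond_false]; omega
    simp only [coc, this, D.one_k]
    cases fl _ <;> simp

lemma coc_mul (a b : D) (j : J) : coc (a * b) j = coc a (actJ b j) * coc b j := by
  ext
  · simp only [coc, actJ_mul, D.mul_e]
    cases fl (actJ a (actJ b j)) <;> cases a.e <;> cases b.e <;> cases fl (actJ b j) <;>
      cases fl j <;> rfl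
  · have key : (wl (a * b) j.1 + 4) / 8 =
        sg a.e ((wl b j.1 + 4) / 8) + (wl a (actJ b j).1 + 4) / 8 := by
      obtain ⟨j, h⟩ := j
      obtain ⟨e, k⟩ := a
      obtain ⟨f, l⟩ := b
      cases e <;> cases f <;> simp [actJ, wl] <;> omega
    simp only [coc, actJ_mul, D.mul_k, key]
    cases fl (actJ a (actJ b j)) <;> cases a.e <;> cases fl (actJ b j) <;> simp <;> ring

lemma coc_k_zero (a : D) (h : a.k = 0) (j : J) : (coc a j).k = 0 := by
  obtain ⟨j, hj⟩ := j
  obtain ⟨e, k⟩ := a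
  have : (wl ⟨e, k⟩ j + 4) / 8 = 0 := by
    simp only at h
    cases e <;> simp [wl] <;> omega
  simp only [coc, this]
  cases fl _ <;> simp

lemma coc_val (a : D) (j : J) (C : ℤ) (hC : 1 ≤ C) (h1 : -(C + 1) ≤ a.val) (h2 : a.val ≤ C + 1) :
    (-C ≤ (coc a j).val ∧ (coc a j).val ≤ C) ∧ (a.val = 1 → (coc a j).val = 1) := by
  obtain ⟨j, hj⟩ := j
  obtain ⟨e, k⟩ := a
  simp only [D.val, coc, fl, actJ] at *
  by_cases h3 : 0 < (wl ⟨e, k⟩ j + 4) % 8 - 4 <;> by_cases h4 : 0 < j <;> cases e <;>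
    simp only [h3, h4, decide_true, decide_false] <;> simp [wl] at * <;> omega

lemma coc_inj (a : D) (h : ∀ j, actJ a j = j ∧ coc a j = 1) : a = 1 := by
  obtain ⟨e, k⟩ := a
  have h0 := congrArg Subtype.val (h ⟨0, by omega⟩).1
  have h1 := congrArg D.k (h ⟨0, by omega⟩).2
  have h2 : fl (actJ ⟨e, k⟩ ⟨0, by omega⟩) = false := by rw [(h _).1]; rfl
  simp only [coc, h2] at h1
  cases e <;> simp [actJ, wl] at h0 h1
  · ext
    · rfl
    · simp; omega
  · omega

lemma actJ_pow8 (a : D) (j : J) : actJ (a ^ 8) j = j := by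
  obtain ⟨e, k⟩ := a
  obtain ⟨j, hj⟩ := j
  apply Subtype.ext
  cases e <;> simp [actJ, wl, pow_succ] <;> omega

abbrev X : Type := List J

/-- The unrestricted wreath product of `D` with all permutations of `X`. -/
@[ext] structure Γ where
  π : Equiv.Perm X
  d : X → D

instance : Mul Γ := ⟨fun g h => ⟨g.π * h.π, fun x => g.d (h.π x) * h.d x⟩⟩
instance : One Γ := ⟨⟨1, fun _ => 1⟩⟩
instance : Inv Γ := ⟨fun g => ⟨g.π⁻¹, fun x => (g.d (g.π⁻¹ x))⁻¹⟩⟩
@[simp] lemma mul_π (g h : Γ) : (g * h).π = g.π * h.π := rfl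
@[simp] lemma mul_d (g h : Γ) (x : X) : (g * h).d x = g.d (h.π x) * h.d x := rfl
@[simp] lemma one_π : (1 : Γ).π = 1 := rfl
@[simp] lemma one_d (x : X) : (1 : Γ).d x = 1 := rfl
@[simp] lemma inv_π (g : Γ) : g⁻¹.π = g.π⁻¹ := rfl
@[simp] lemma inv_d (g : Γ) (x : X) : g⁻¹.d x = (g.d (g.π⁻¹ x))⁻¹ := rfl

instance : Group Γ := Group.ofLeftAxioms
  (fun a b c => Γ.ext (mul_assoc _ _ _) (funext fun x => by simp [mul_assoc]))
  (fun a => Γ.ext (one_mul _) (funext fun x => by simp))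
  (fun a => Γ.ext (inv_mul_cancel _) (funext fun x => by simp))

def piH : Γ →* Equiv.Perm X where
  toFun := Γ.π
  map_one' := rfl
  map_mul' _ _ := rfl

def sm (g : Γ) : X → X
  | [] => []
  | j :: x => actJ (g.d x) j :: g.π x

lemma sm_one (x : X) : sm 1 x = x := by cases x <;> simp [sm, actJ_one]
lemma sm_mul (g h : Γ) (x : X) : sm (g * h) x = sm g (sm h x) := by
  cases x <;> simp [sm, actJ_mul]

def psi : Γ →* Equiv.Perm X where
  toFun g := ⟨sm g, sm g⁻¹, fun x => by rw [← sm_mul, inv_mul_cancel, sm_one],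
    fun x => by rw [← sm_mul, mul_inv_cancel, sm_one]⟩
  map_one' := Equiv.ext sm_one
  map_mul' g h := Equiv.ext (sm_mul g h)

@[simp] lemma psi_apply (g : Γ) (x : X) : psi g x = sm g x := rfl

def cd (g : Γ) : X → D
  | [] => 1
  | j :: x => coc (g.d x) j

def phi : Γ →* Γ where
  toFun g := ⟨psi g, cd g⟩
  map_one' := Γ.ext (map_one psi) (funext fun x => by cases x <;> simp [cd, coc_one])
  map_mul' g h := Γ.ext (map_mul psi g h) (funext fun x => by
    cases x <;> simp [cd, coc_mul, sm])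

lemma phi_π (g : Γ) : (phi g).π = psi g := rfl
lemma phi_d (g : Γ) : (phi g).d = cd g := rfl

lemma phi_inj : Function.Injective phi := by
  rw [injective_iff_map_eq_one]
  intro g hg
  have h1 : ∀ j x, actJ (g.d x) j :: g.π x = j :: x := fun j x =>
    congrArg (fun z : Γ => z.π (j :: x)) hg
  have h2 : ∀ j x, coc (g.d x) j = 1 := fun j x => congrArg (fun z : Γ => z.d (j :: x)) hg
  refine Γ.ext (Equiv.ext fun x => ?_) (funext fun x => coc_inj _ fun j => ⟨?_, h2 j x⟩)
  · exact (List.cons.inj (h1 ⟨0, by omega⟩ x)).2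
  · exact (List.cons.inj (h1 j x)).1

def Bd (C : ℤ) (g : Γ) : Prop := ∀ x, -C ≤ (g.d x).val ∧ (g.d x).val ≤ C

def BdS : Subgroup Γ where
  carrier := {g | ∃ C : ℕ, Bd C g}
  one_mem' := ⟨1, fun x => by simp [D.val]⟩
  mul_mem' := by
    rintro g h ⟨C, hC⟩ ⟨C', hC'⟩
    refine ⟨C + C' + 1, fun x => ?_⟩
    have h1 := hC (h.π x)
    have h2 := hC' x
    simp only [mul_d, D.val, D.mul_e, D.mul_k] at *
    generalize g.d (h.π x) = a at *
    generalize h.d x = b at *
    obtain ⟨e, k⟩ := a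
    obtain ⟨f, l⟩ := b
    cases e <;> cases f <;> simp at * <;> omega
  inv_mem' := by
    rintro g ⟨C, hC⟩
    refine ⟨C + 2, fun x => ?_⟩
    have h1 := hC (g.π⁻¹ x)
    simp only [inv_d, D.val, D.inv_e, D.inv_k] at *
    generalize g.d (g.π⁻¹ x) = a at *
    obtain ⟨e, k⟩ := a
    cases e <;> simp at * <;> omega

lemma Bd.phi {C : ℤ} {g : Γ} (hC : 1 ≤ C) (h : Bd (C + 1) g) : Bd C (phi g) := by
  intro x
  cases x with
  | nil => simp [phi_d, cd, D.val]; omega
  | cons j x => exact (coc_val _ j C hC (h x).1 (h x).2).1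

def A0 : Subgroup Γ where
  carrier := {g | ∀ x, (g.d x).k = 0}
  one_mem' := fun _ => rfl
  mul_mem' := by
    intro g h hg hh x
    simp only [mul_d, D.mul_k, hg _, hh x]
    cases (g.d _).e <;> simp
  inv_mem' := by
    intro g hg x
    simp only [inv_d, D.inv_k, hg _]
    cases (g.d _).e <;> simp

def B0 : Subgroup Γ where
  carrier := {g | ∀ x, (g.d x).val = 1}
  one_mem' := fun _ => rfl
  mul_mem' := by
    intro g h hg hh x
    have h1 := hg (h.π x)
    have h2 := hh x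
    simp only [mul_d, D.val, D.mul_e, D.mul_k] at *
    generalize g.d (h.π x) = a at *
    generalize h.d x = b at *
    obtain ⟨e, k⟩ := a
    obtain ⟨f, l⟩ := b
    cases e <;> cases f <;> simp at * <;> omega
  inv_mem' := by
    intro g hg x
    have h1 := hg (g.π⁻¹ x)
    simp only [inv_d, D.val, D.inv_e, D.inv_k] at *
    generalize g.d (g.π⁻¹ x) = a at *
    obtain ⟨e, k⟩ := a
    cases e <;> simp at * <;> omega

lemma A0_phi {g : Γ} (h : g ∈ A0) : phi g ∈ A0 := by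
  intro x
  cases x with
  | nil => rfl
  | cons j x => exact coc_k_zero _ (h x) j

lemma B0_phi {g : Γ} (h : g ∈ B0) : phi g ∈ B0 := by
  intro x
  cases x with
  | nil => rfl
  | cons j x => exact (coc_val _ j 1 le_rfl (by rw [h x]; omega) (by rw [h x]; omega)).2 (h x)

def GS : ℕ → Subgroup Γ
  | 0 => BdS ⊓ piH.ker
  | i + 1 => BdS ⊓ ((GS i).map psi).comap piH

lemma GS_bd {i : ℕ} {g : Γ} (h : g ∈ GS i) : g ∈ BdS := by cases i <;> exact h.1

lemma GS_ker {i : ℕ} {g : Γ} (h : g ∈ BdS) (h1 : g.π = 1) : g ∈ GS i := by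
  cases i
  · exact ⟨h, h1⟩
  · refine ⟨h, ?_⟩
    show g.π ∈ (GS _).map psi
    rw [h1]; exact Subgroup.one_mem _

lemma GS_phi {i : ℕ} {g : Γ} (h : g ∈ GS i) : phi g ∈ GS (i + 1) := by
  refine ⟨?_, g, h, rfl⟩
  obtain ⟨C, hC⟩ := GS_bd h
  refine ⟨C + 1, Bd.phi (by omega) fun x => ?_⟩
  have := hC x
  push_cast; omega

lemma pow_d {g : Γ} (h : g.π = 1) (n : ℕ) (x : X) : (g ^ n).d x = g.d x ^ n := by
  induction n with
  | zero => rfl
  | succ n ih => rw [pow_succ, mul_d, h, Equiv.Perm.one_apply, ih, pow_succ]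

lemma GS_tor : ∀ i, ∀ g ∈ GS i, IsOfFinOrder g.π := by
  intro i
  induction i with
  | zero =>
    intro g hg
    have : g.π = 1 := hg.2
    rw [this]; exact IsOfFinOrder.one
  | succ i ih =>
    rintro g ⟨-, h, hh, e⟩
    have e' : psi h = g.π := e
    rw [← e']
    obtain ⟨n, hn, h1⟩ := isOfFinOrder_iff_pow_eq_one.1 (ih h hh)
    refine isOfFinOrder_iff_pow_eq_one.2 ⟨n * 8, by omega, ?_⟩
    have h2 : (h ^ n).π = 1 := by rw [← h1]; exact map_pow piH h n
    have h3 : ((h ^ n) ^ 8).π = 1 := by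
      have := map_pow piH (h ^ n) 8
      rw [show piH (h ^ n) = 1 from h2, one_pow] at this
      exact this
    rw [← map_pow, pow_mul]
    ext1 x
    cases x with
    | nil => rfl
    | cons j x =>
      show actJ (((h ^ n) ^ 8).d x) j :: ((h ^ n) ^ 8).π x = j :: x
      rw [pow_d h2, actJ_pow8, h3]; rfl

lemma tor_of (S : Subgroup Γ) (hS : ∀ g ∈ S, ∀ x, g.d x * g.d x = 1) {g : Γ} (hg : g ∈ S)
    (h : IsOfFinOrder g.π) : IsOfFinOrder g := by
  obtain ⟨n, hn, h1⟩ := isOfFinOrder_iff_pow_eq_one.1 h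
  have h2 : (g ^ n).π = 1 := by rw [← h1]; exact map_pow piH g n
  refine isOfFinOrder_iff_pow_eq_one.2 ⟨n * 2, by omega, ?_⟩
  rw [pow_mul, pow_two]
  refine Γ.ext (by simp [h2]) (funext fun x => ?_)
  rw [mul_d, h2, Equiv.Perm.one_apply, hS _ (S.pow_mem hg n)]; rfl

lemma A0_sq : ∀ g ∈ A0, ∀ x, g.d x * g.d x = 1 := by
  intro g hg x
  have := hg x
  generalize g.d x = a at *
  obtain ⟨e, k⟩ := a
  ext <;> cases e <;> simp_all

lemma B0_sq : ∀ g ∈ B0, ∀ x, g.d x * g.d x = 1 := by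
  intro g hg x
  have := hg x
  generalize g.d x = a at *
  obtain ⟨e, k⟩ := a
  ext <;> cases e <;> simp_all [D.val]

lemma solvD : Group.IsSolvable D := by
  have h1 : ∀ x ∈ derivedSeries D 1, x.e = false := by
    let K : Subgroup D :=
      { carrier := {x | x.e = false}
        one_mem' := rfl
        mul_mem' := by intro a b ha hb; simp_all
        inv_mem' := by intro a ha; simp_all }
    have : derivedSeries D 1 ≤ K := by
      rw [derivedSeries_succ, Subgroup.commutator_le]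
      intro x _ y _
      rw [commutatorElement_def]
      show (x * y * x⁻¹ * y⁻¹).e = false
      cases hx : x.e <;> cases hy : y.e <;> simp [hx, hy]
    exact this
  refine ⟨⟨2, ?_⟩⟩
  rw [eq_bot_iff, derivedSeries_succ, Subgroup.commutator_le]
  intro x hx y hy
  rw [Subgroup.mem_bot, commutatorElement_eq_one_iff_mul_comm]
  ext <;> simp [h1 x hx, h1 y hy, add_comm]

lemma solvPi : Group.IsSolvable (X → D) := by
  obtain ⟨n, hn⟩ := solvD.solvable
  refine ⟨⟨n, ?_⟩⟩
  rw [eq_bot_iff]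
  intro f hf
  rw [Subgroup.mem_bot]
  funext x
  have := map_derivedSeries_le_derivedSeries (Pi.evalMonoidHom (fun _ : X => D) x) n ⟨f, hf, rfl⟩
  rw [hn] at this
  exact this

def base : (X → D) →* Γ where
  toFun f := ⟨1, f⟩
  map_one' := rfl
  map_mul' _ _ := rfl

lemma solv_of (Q : Subgroup (Equiv.Perm X)) (hQ : Group.IsSolvable Q) : Group.IsSolvable (Q.comap piH) := by
  haveI := solvPi
  refine Group.isSolvable_of_ker_le_range
    (base.codRestrict (Q.comap piH) (fun f => Q.one_mem))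
    ((piH.comp (Q.comap piH).subtype).codRestrict Q (fun g => g.2)) ?_
  intro g hg
  have h : g.1.π = 1 := congrArg Subtype.val hg
  exact ⟨g.1.d, Subtype.ext (Γ.ext h.symm rfl)⟩

lemma solv_le {G : Type} [Group G] {H K : Subgroup G} (h : H ≤ K) (hK : Group.IsSolvable K) :
    Group.IsSolvable H :=
  Group.isSolvable_of_isSolvable_injective (Subgroup.inclusion_injective h)

lemma solv_map {G G' : Type} [Group G] [Group G'] (f : G →* G') (H : Subgroup G)
    (hH : Group.IsSolvable H) : Group.IsSolvable (H.map f) :=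
  Group.isSolvable_of_surjective (f.subgroupMap_surjective H)

lemma GS_solv : ∀ i, Group.IsSolvable (GS i) := by
  intro i
  induction i with
  | zero => exact solv_le inf_le_right (solv_of ⊥ inferInstance)
  | succ i ih => exact solv_le inf_le_right (solv_of _ (solv_map _ _ ih))

lemma factor {i : ℕ} {h : Γ} (hh : h ∈ GS i) (hb : Bd 1 h) :
    ∃ a ∈ GS i ⊓ A0, ∃ b ∈ GS i ⊓ B0, h = a * b := by
  let a : Γ := ⟨1, fun y => ⟨decide ((h.d (h.π⁻¹ y)).val ≠ 1), 0⟩⟩
  have ha : a ∈ GS i := GS_ker ⟨1, fun x => by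
    simp only [a]
    generalize decide ((h.d (h.π⁻¹ x)).val ≠ 1) = c
    cases c <;> simp [D.val]⟩ rfl
  refine ⟨a, ⟨ha, fun _ => rfl⟩, a⁻¹ * h, ⟨(GS i).mul_mem ((GS i).inv_mem ha) hh, fun x => ?_⟩,
    by simp⟩
  have := hb x
  have e0 : h.π⁻¹ (h.π x) = x := h.π.symm_apply_apply x
  simp only [a, mul_d, inv_d, inv_one, Equiv.Perm.one_apply, e0]
  generalize h.d x = b at *
  obtain ⟨e, k⟩ := b
  by_cases hv : D.val ⟨e, k⟩ = 1
  · simp only [hv, ne_eq, not_true_eq_false, decide_false]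
    simpa [D.val] using hv
  · simp only [hv, ne_eq, not_false_eq_true, decide_true]
    cases e <;> simp [D.val] at * <;> omega

abbrev Gm : Type := Filter.Germ (Filter.atTop : Filter ℕ) Γ

def phiN : ℕ → (Γ →* Γ)
  | 0 => MonoidHom.id _
  | n + 1 => (phiN n).comp phi

lemma phiN_inj : ∀ n, Function.Injective (phiN n)
  | 0 => Function.injective_id
  | n + 1 => (phiN_inj n).comp phi_inj

def io (i : ℕ) : Γ →* Gm :=
  (Filter.Germ.coeMulHom Filter.atTop).comp (Pi.monoidHom fun n => phiN (n - i))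

lemma io_phi (i : ℕ) (g : Γ) : io (i + 1) (phi g) = io i g := by
  refine Filter.Germ.coe_eq.2 ?_
  filter_upwards [Filter.eventually_ge_atTop (i + 1)] with n hn
  obtain ⟨m, rfl⟩ := Nat.exists_eq_add_of_le hn
  show phiN (i + 1 + m - (i + 1)) (phi g) = phiN (i + 1 + m - i) g
  rw [show i + 1 + m - (i + 1) = m by omega, show i + 1 + m - i = m + 1 by omega]
  rfl

lemma io_inj (i : ℕ) : Function.Injective (io i) := by
  intro a b h
  obtain ⟨n, hn⟩ := (Filter.Germ.coe_eq.1 h).exists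
  exact phiN_inj _ hn

lemma mono_of (S : ℕ → Subgroup Γ) (hS : ∀ i, ∀ g ∈ S i, phi g ∈ S (i + 1)) :
    Monotone fun i => (S i).map (io i) := by
  refine monotone_nat_of_le_succ fun i => ?_
  rintro _ ⟨g, hg, rfl⟩
  exact ⟨phi g, hS i g hg, io_phi i g⟩

lemma mem_lim (S : ℕ → Subgroup Γ) (hS : ∀ i, ∀ g ∈ S i, phi g ∈ S (i + 1)) (x : Gm) :
    x ∈ ⨆ i, (S i).map (io i) ↔ ∃ i, ∃ g ∈ S i, io i g = x :=
  Subgroup.mem_iSup_of_directed (mono_of S hS).directed_le

def GG : Subgroup Gm := ⨆ i, (GS i).map (io i)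
def AA : Subgroup Gm := ⨆ i, (GS i ⊓ A0).map (io i)
def BB : Subgroup Gm := ⨆ i, (GS i ⊓ B0).map (io i)

lemma mem_GG (x : Gm) : x ∈ GG ↔ ∃ i, ∃ g ∈ GS i, io i g = x := mem_lim GS (fun _ _ => GS_phi) x
lemma mem_AA (x : Gm) : x ∈ AA ↔ ∃ i, ∃ g ∈ GS i ⊓ A0, io i g = x :=
  mem_lim (fun i => GS i ⊓ A0) (fun _ _ h => ⟨GS_phi h.1, A0_phi h.2⟩) x
lemma mem_BB (x : Gm) : x ∈ BB ↔ ∃ i, ∃ g ∈ GS i ⊓ B0, io i g = x :=
  mem_lim (fun i => GS i ⊓ B0) (fun _ _ h => ⟨GS_phi h.1, B0_phi h.2⟩) x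

lemma shrink (C : ℕ) : ∀ i, ∀ g ∈ GS i, Bd (C + 1) g →
    ∃ j, ∃ h ∈ GS j, Bd 1 h ∧ io j h = io i g := by
  induction C with
  | zero => exact fun i g hg hb => ⟨i, g, hg, by simpa using hb, rfl⟩
  | succ C ih =>
    intro i g hg hb
    obtain ⟨j, h, h1, h2, h3⟩ := ih (i + 1) (phi g) (GS_phi hg)
      (Bd.phi (by omega) (by simpa using hb))
    exact ⟨j, h, h1, h2, h3.trans (io_phi i g)⟩


/-- The negation of the preceding statement: Suppose every finitely generated subgroup of a group G is soluble, and every element of G is a product ab with a, b taken from two periodic subgroups A and B. Then every element of G has finite order. -/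
theorem result :
    ¬ (∀ (G : Type) [Group G],
      (∀ S : Finset G, IsSolvable (Subgroup.closure (S : Set G))) →
      ∀ A B : Subgroup G,
        (∀ a ∈ A, IsOfFinOrder a) →
        (∀ b ∈ B, IsOfFinOrder b) →
        (∀ g : G, ∃ a ∈ A, ∃ b ∈ B, g = a * b) →
        Monoid.IsTorsion G) := by
  intro h
  have ht := h GG ?_ (AA.subgroupOf GG) (BB.subgroupOf GG) ?_ ?_ ?_
  · let g0 : Γ := ⟨1, fun _ => ⟨false, 1⟩⟩
    have hg0 : g0 ∈ GS 0 := GS_ker ⟨3, fun x => by simp [g0, D.val]⟩ rfl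
    obtain ⟨n, hn, h1⟩ := isOfFinOrder_iff_pow_eq_one.1
      (ht ⟨io 0 g0, (mem_GG _).2 ⟨0, g0, hg0, rfl⟩⟩)
    have h2 : io 0 (g0 ^ n) = io 0 1 := by
      rw [map_pow, map_one]; exact congrArg Subtype.val h1
    have h3 := congrArg (fun z : Γ => (z.d []).k) (io_inj 0 h2)
    simp only [pow_d (show g0.π = 1 from rfl), one_d, D.one_k] at h3
    have h4 : ∀ m : ℕ, ((⟨false, 1⟩ : D) ^ m).k = m := by
      intro m
      induction m with
      | zero => rfl
      | succ m ih => rw [pow_succ', D.mul_k, ih]; simp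
    rw [h4] at h3
    omega
  · intro S
    have : ∃ i, ∀ s ∈ S, (s : Gm) ∈ (GS i).map (io i) := by
      classical
      have hm := mono_of GS (fun _ _ => GS_phi)
      induction S using Finset.induction_on with
      | empty => exact ⟨0, by simp⟩
      | insert s S _ ih =>
        obtain ⟨i, hi⟩ := ih
        obtain ⟨j, hj⟩ := (mem_GG _).1 s.2
        refine ⟨max i j, fun t ht => ?_⟩
        rcases Finset.mem_insert.1 ht with rfl | ht
        · exact hm (le_max_right i j) hj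
        · exact hm (le_max_left i j) (hi t ht)
    obtain ⟨i, hi⟩ := this
    have hle : Subgroup.closure (S : Set GG) ≤ ((GS i).map (io i)).subgroupOf GG := by
      rw [Subgroup.closure_le]; exact hi
    refine solv_le hle ?_
    haveI := solv_map (io i) _ (GS_solv i)
    refine Group.isSolvable_of_isSolvable_injective
      (f := (GG.subtype.comp (Subgroup.subtype _)).codRestrict ((GS i).map (io i))
        (fun x => x.2)) ?_
    intro a b hab
    have h5 := congrArg Subtype.val hab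
    exact Subtype.ext (Subtype.ext h5)
  · intro a ha
    obtain ⟨i, g, hg, e⟩ := (mem_AA _).1 ha
    have := (io i).isOfFinOrder (tor_of A0 A0_sq hg.2 (GS_tor i g hg.1))
    rw [e] at this
    exact GG.subtype_injective.isOfFinOrder_iff.1 this
  · intro a ha
    obtain ⟨i, g, hg, e⟩ := (mem_BB _).1 ha
    have := (io i).isOfFinOrder (tor_of B0 B0_sq hg.2 (GS_tor i g hg.1))
    rw [e] at this
    exact GG.subtype_injective.isOfFinOrder_iff.1 this
  · intro x
    obtain ⟨i, g, hg, e⟩ := (mem_GG _).1 x.2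
    obtain ⟨C, hC⟩ := GS_bd hg
    obtain ⟨j, k, h1, h2, h3⟩ := shrink C i g hg (fun x => by have := hC x; omega)
    obtain ⟨a, ha, b, hb, hab⟩ := factor h1 h2
    refine ⟨⟨io j a, (mem_GG _).2 ⟨j, a, ha.1, rfl⟩⟩, (mem_AA _).2 ⟨j, a, ha, rfl⟩,
      ⟨io j b, (mem_GG _).2 ⟨j, b, hb.1, rfl⟩⟩, (mem_BB _).2 ⟨j, b, hb, rfl⟩, Subtype.ext ?_⟩
    show (x : Gm) = io j a * io j b
    rw [← map_mul, ← hab, h3, e]

end Pool.Agent.S03452
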