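import Pool.Statements.S03482
import Pool.Agent.H24.ThV2

set_option autoImplicit false
open Pool Pool.MP_ed747a_al

namespace Pool.Agent.S03482

/-- The negation of the preceding statement: Satisfiability of finite systems of equations with constants in Thompson's group V (Cantor-space permutations acting by finite prefix replacements, constants given by prefix tables) is a computable predicate. -/
theorem result :
    ¬ (ComputablePred (fun S : List (List ((ℕ ⊕ List (List Bool × List Bool)) × Bool)) =>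
      ∃ σ : ℕ → Equiv.Perm (ℕ → Bool),
      ∃ τ : List (List Bool × List Bool) → Equiv.Perm (ℕ → Bool),
        (∀ n : ℕ, ∃ D : List (List Bool × List Bool),
            (∀ w : ℕ → Bool, ∃ p ∈ D, ∀ i : ℕ, ∀ h : i < p.1.length, w i = p.1.get ⟨i, h⟩) ∧
            ∀ p ∈ D, ∀ w : ℕ → Bool,
              σ n (fun k => if h : k < p.1.length then p.1.get ⟨k, h⟩ else w (k - p.1.length)) =
                (fun k => if h : k < p.2.length then p.2.get ⟨k, h⟩ else w (k - p.2.length))) ∧
        (∀ e ∈ S, ∀ x ∈ e, ∀ D : List (List Bool × List Bool), x.1 = Sum.inr D →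
            (∀ w : ℕ → Bool, ∃ p ∈ D, ∀ i : ℕ, ∀ h : i < p.1.length, w i = p.1.get ⟨i, h⟩) ∧
            ∀ p ∈ D, ∀ w : ℕ → Bool,
              τ D (fun k => if h : k < p.1.length then p.1.get ⟨k, h⟩ else w (k - p.1.length)) =
                (fun k => if h : k < p.2.length then p.2.get ⟨k, h⟩ else w (k - p.2.length))) ∧
        ∀ e ∈ S,
          (e.map (fun x => if x.2 then Sum.elim σ τ x.1 else (Sum.elim σ τ x.1)⁻¹)).prod = 1)) := by
  intro hc
  apply Pool.Agent.H24.ThV.undec
  convert hc using 2 with S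
  open Pool.Agent.H24.ThV in
  constructor
  · rintro ⟨σ, h⟩
    refine ⟨fun i => σ i, τ0, fun n => (mem_V_iff _).1 (σ n).2, fun a ha x hx D hD => ?_,
      fun a ha => (h a ha).2⟩
    obtain ⟨g, hg⟩ := (h a ha).1 x hx D hD
    rw [τ0_eq hg]
    exact hg
  · rintro ⟨σ, τ, h1, h2, h3⟩
    refine ⟨fun i => ⟨σ i, (mem_V_iff _).2 (h1 i)⟩, fun a ha =>
      ⟨fun x hx D hD => ⟨τ D, h2 a ha x hx D hD⟩, ?_⟩⟩
    rw [← h3 a ha, ev]
    congr 1
    refine List.map_congr_left fun x hx => ?_
    rcases x with ⟨x | D, b⟩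
    · rfl
    · have : τ0 D = τ D := τ0_eq (h2 a ha _ hx D rfl)
      simp [this]

end Pool.Agent.S03482
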