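import Pool.Statements.S03487
import Pool.Agent.H20.Ret

set_option autoImplicit false
open scoped Pointwise
open Pool Pool.MP_ee01d4_al

namespace Pool.Agent.S03487

theorem result :
    ∀ (G : Type) [Group G] [DecidableEq G],
      (∃ σ : Finset G → G,
          (∀ g : G, σ {g} = g) ∧
          ∀ X Y : Finset G, X.Nonempty → Y.Nonempty → σ (X * Y) = σ X * σ Y) →
      UniqueProds G :=
  Pool.Agent.H20.Ret.main

end Pool.Agent.S03487
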