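import Pool.Statements.S03495
import Pool.Agent.H20.Kn

set_option autoImplicit false
open Pool Pool.MP_ef54ea_al

namespace Pool.Agent.S03495

theorem result :
    ∃ (K : Type) (_ : Field K) (L : Type) (_ : LieRing L) (_ : LieAlgebra K L),
      LieAlgebra.IsSimple K L ∧
      ∀ a : L, ∀ V : Submodule K L, FiniteDimensional K V →
        (∀ v ∈ V, ⁅a, v⁆ ∈ V) → ∀ v ∈ V, ⁅a, v⁆ = 0 :=
  Pool.Agent.H20.Kn.final

end Pool.Agent.S03495
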