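import Pool.Statements.S03501
import Pool.Agent.H18.Sw3

set_option autoImplicit false
open Pool Pool.MP_f0391a_al

namespace Pool.Agent.S03501

/-- The orbit algebra over ℚ of the switching-automorphism group of the random graph is generated by an algebraically independent family of homogeneous elements, i.e. it is a polynomial ring. -/
theorem result :
  ∀ K : Ideal (MvPowerSeries ℕ ℚ),
    K = Ideal.span {f : MvPowerSeries ℕ ℚ |
      ∀ s : ℕ →₀ ℕ, (∀ i, s i ≤ 1) → MvPowerSeries.coeff s f = 0} →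
  ∀ T : Set (MvPowerSeries ℕ ℚ),
    T = {f : MvPowerSeries ℕ ℚ |
      (∀ σ : Equiv.Perm ℕ,
        (∃ S : Set ℕ, ∀ i j : ℕ, i ≠ j →
          ((Nat.testBit (σ j) (σ i) = true ∨ Nat.testBit (σ i) (σ j) = true) ↔
            ((Nat.testBit j i = true ∨ Nat.testBit i j = true) ↔ (i ∈ S ↔ j ∈ S)))) →
        ∀ s : ℕ →₀ ℕ,
          MvPowerSeries.coeff (Finsupp.equivMapDomain σ s) f = MvPowerSeries.coeff s f) ∧
      ∃ N : ℕ, ∀ s : ℕ →₀ ℕ, N ≤ s.sum (fun _ e => e) → MvPowerSeries.coeff s f = 0} →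
  ∃ (ι : Type) (x : ι → MvPowerSeries ℕ ℚ ⧸ K),
    (∀ i, ∃ d : ℕ, ∃ f ∈ T, Ideal.Quotient.mk K f = x i ∧
        ∀ s : ℕ →₀ ℕ, MvPowerSeries.coeff s f ≠ 0 → s.sum (fun _ e => e) = d) ∧
    AlgebraicIndependent ℚ x ∧
    Algebra.adjoin ℚ (Set.range x) = Algebra.adjoin ℚ (Ideal.Quotient.mk K '' T) := by
  intro K hK T hT
  rw [Pool.Agent.H18.Sw.span_KI] at hK
  subst hK
  have hx : ∀ c, Pool.Agent.H18.Sw.xx c ∈ T := by
    intro c
    rw [hT]
    refine ⟨fun σ hσ s => Pool.Agent.H18.Sw.y_inv (Pool.Agent.H18.Sw.rep c).ev hσ s,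
      (Pool.Agent.H18.Sw.rep c).n + 1, fun s hs => ?_⟩
    by_contra h
    have := Pool.Agent.H18.Sw.y_deg _ s h
    rw [Fintype.card_fin] at this
    omega
  refine ⟨Pool.Agent.H18.Sw.Ix, fun c => Ideal.Quotient.mk _ (Pool.Agent.H18.Sw.xx c),
    fun c => ⟨_, _, hx c, rfl, fun s hs => Pool.Agent.H18.Sw.y_deg _ s hs⟩, ?_, ?_⟩
  · rw [algebraicIndependent_iff]
    intro p hp
    apply Pool.Agent.H18.Sw.indep p
    have h1 : Ideal.Quotient.mkₐ ℚ Pool.Agent.H18.Sw.KI (MvPolynomial.aeval Pool.Agent.H18.Sw.xx p)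
        = 0 := by
      rw [← hp, ← AlgHom.comp_apply, MvPolynomial.comp_aeval]
      rfl
    exact Ideal.Quotient.eq_zero_iff_mem.mp h1
  · apply le_antisymm
    · apply Algebra.adjoin_mono
      rintro _ ⟨c, rfl⟩
      exact ⟨_, hx c, rfl⟩
    · rw [Algebra.adjoin_le_iff]
      rintro _ ⟨f, hf, rfl⟩
      rw [hT] at hf
      obtain ⟨h1, N, h2⟩ := hf
      obtain ⟨g, hg, hfg⟩ := Pool.Agent.H18.Sw.span_all (f := f) h1 N h2
      have e : Ideal.Quotient.mk Pool.Agent.H18.Sw.KI f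
          = Ideal.Quotient.mkₐ ℚ Pool.Agent.H18.Sw.KI g := by
        apply Ideal.Quotient.eq.mpr
        intro s hs
        rw [map_sub, hfg s hs, sub_self]
      rw [e]
      have h3 := Subalgebra.mem_map.mpr ⟨g, hg, (rfl : Ideal.Quotient.mkₐ ℚ Pool.Agent.H18.Sw.KI g = _)⟩
      rw [AlgHom.map_adjoin, ← Set.range_comp] at h3
      exact h3

end Pool.Agent.S03501
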