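import Pool.Statements.S03530
import Pool.Agent.H21.BiOrd

set_option autoImplicit false
open Pool Pool.MP_f345de_al

namespace Pool.Agent.S03530

theorem result :
    ¬ (∀ (α : Type) (H : Subgroup (FreeGroup α)) [H.Normal],
      (∃ o : LinearOrder (FreeGroup α ⧸ H),
          ∀ a b c : FreeGroup α ⧸ H, a ≤ b → a * c ≤ b * c) →
      ∃ o : LinearOrder (FreeGroup α ⧸ ⁅H, H⁆),
        (∀ a b c : FreeGroup α ⧸ ⁅H, H⁆, a ≤ b → c * a ≤ c * b) ∧
        (∀ a b c : FreeGroup α ⧸ ⁅H, H⁆, a ≤ b → a * c ≤ b * c)) := by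
  intro H
  open Pool.Agent.H21.BiOrd Subgroup in
  obtain ⟨o, h1, h2⟩ := H _ ψ.ker (ro ψ)
  open Pool.Agent.H21.BiOrd Subgroup in
  choose w hw r hr e using fun i => mem_sup_of_normal_right.1 (perf i)
  have : MulLeftMono _ := ⟨fun c a b => h1 a b c⟩
  have : MulRightMono _ := ⟨fun c a b => h2 a b c⟩
  open Pool.Agent.H21.BiOrd Subgroup in
  let π := QuotientGroup.mk' ⁅ψ.ker, ψ.ker⁆
  open Pool.Agent.H21.BiOrd Subgroup in
  have : (ψ.ker.map π).Normal := .map inferInstance _ (QuotientGroup.mk'_surjective _)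
  open Pool.Agent.H21.BiOrd Subgroup in
  obtain ⟨S, h3, h4⟩ := pf (ψ.ker.map π) (by rw [← map_commutator, QuotientGroup.map_mk'_self])
    (π ∘ w) (π ∘ r) (fun i => map_commutator_eq _ π ▸ commutator_mono le_top le_top <| mem_map_of_mem π (hw i))
    (fun i => mem_map_of_mem π (hr i)) (by
      simp only [Function.comp, ← map_mul, e]
      rw [show (Set.range fun i => π (.of i)) = π '' .range .of from Set.range_comp _ _,
        ← MonoidHom.map_closure, FreeGroup.closure_range_of,
        map_top_of_surjective _ (QuotientGroup.mk'_surjective _)])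
  open Pool.Agent.H21.BiOrd Subgroup in
  have := DFunLike.congr_fun (show ψ (.of 3) = 1 from e 3 ▸ mul_mem (commutator_le_left _ _
    ((QuotientGroup.eq_one_iff _).1 (np S h4 _ (h3 3)))) (hr 3)) 0
  open Pool.Agent.H21.BiOrd in
  simp [ψ, iso, lift, c] at this

end Pool.Agent.S03530
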