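import Pool.Statements.S03547
import Pool.Agent.H19.ChainU

set_option autoImplicit false
universe u
open Pool Pool.MP_f49b6d_al

namespace Pool.Agent.S03547

open Cardinal Ordinal Pool.Agent.H19.ChainU

lemma hull {X : Type u} (Op : X → X → Set X) (hOp : ∀ x y, (Op x y).Countable)
    (μ : Cardinal.{u}) (hμ : ℵ₀ ≤ μ) (S : Set X) (hS : #S ≤ μ) :
    ∃ M : Set X, S ⊆ M ∧ #M ≤ μ ∧ ∀ x ∈ M, ∀ y ∈ M, Op x y ⊆ M := by
  let step : Set X → Set X := fun T => T ∪ ⋃ p ∈ T ×ˢ T, Op p.1 p.2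
  have hstep : ∀ T : Set X, #T ≤ μ → #(step T) ≤ μ := fun T hT => by
    refine (mk_union_le _ _).trans (add_le_of_le hμ hT ?_)
    refine (mk_biUnion_le _ _).trans (mul_le_of_le hμ ?_ ?_)
    · rw [mk_setProd]; exact mul_le_of_le hμ hT hT
    · exact ciSup_le' fun p => (hOp _ _).le_aleph0.trans hμ
  have hn : ∀ n, #(step^[n] S) ≤ μ := fun n => by
    induction n with
    | zero => exact hS
    | succ n ih => rw [Function.iterate_succ_apply']; exact hstep _ ih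
  have hmono : Monotone fun n => step^[n] S := monotone_nat_of_le_succ fun n => by
    rw [Function.iterate_succ_apply']; exact Set.subset_union_left
  refine ⟨⋃ n, step^[n] S, Set.subset_iUnion (fun n => step^[n] S) 0, ?_, ?_⟩
  · have := mk_iUnion_le_lift (fun n => step^[n] S)
    simp only [Cardinal.lift_uzero, mk_nat, lift_aleph0] at this
    exact this.trans (mul_le_of_le hμ hμ (ciSup_le' hn))
  · intro x hx y hy z hz
    obtain ⟨a, ha⟩ := Set.mem_iUnion.mp hx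
    obtain ⟨b, hb⟩ := Set.mem_iUnion.mp hy
    refine Set.mem_iUnion.mpr ⟨max a b + 1, ?_⟩
    rw [Function.iterate_succ_apply']
    exact Or.inr (Set.mem_biUnion (x := (x, y))
      ⟨hmono (le_max_left a b) ha, hmono (le_max_right a b) hb⟩ hz)

variable {G : Type u} [Group G]

lemma exists_tauK (K : Subgroup G) : ∃ τ : G → Ordinal.{u},
    (∀ y ∈ K, τ y < (#K).ord) ∧ ∀ α < (#K).ord, #{g | τ g < α} ≤ α.card := by
  classical
  obtain ⟨τ, -, h1, h2⟩ := exists_tau K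
  refine ⟨fun g => if h : g ∈ K then τ ⟨g, h⟩ else (#K).ord, fun y hy => by simp [hy, h1],
    fun α hα => ?_⟩
  rw [← h2 α hα.le]
  refine le_trans (mk_le_mk_of_subset (t := Subtype.val '' {g : K | τ g < α}) ?_) mk_image_le
  intro g hg
  by_cases h : g ∈ K
  · exact ⟨⟨g, h⟩, by simpa [h] using hg, rfl⟩
  · simp only [Set.mem_ofPred_eq, h, dif_neg, not_false_eq_true] at hg
    exact absurd hg (not_lt.mpr hα.le)

noncomputable def tau (K : Subgroup G) : G → Ordinal.{u} := (exists_tauK K).choose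

noncomputable def lo (K : Subgroup G) (y : G) : Subgroup G := H ∅ (tau K) (lev ∅ (tau K) y)
noncomputable def child (K : Subgroup G) (y : G) : Subgroup G :=
  H ∅ (tau K) (lev ∅ (tau K) y + 1)

lemma card_child {K : Subgroup G} {y : G} (hy : y ∈ K) (hK : ℵ₀ < #K) : #(child K y) < #K := by
  obtain ⟨h1, h2⟩ := (exists_tauK K).choose_spec
  have h3 : lev ∅ (tau K) y ≤ tau K y :=
    lev_le _ _ (mem_H_of_lt _ _ (Order.lt_add_one_iff.mpr le_rfl))
  have h4 : lev ∅ (tau K) y + 1 < (#K).ord :=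
    (isSuccLimit_ord hK.le).add_one_lt (h3.trans_lt (h1 y hy))
  refine (card_H_le ∅ (tau K) _).trans_lt (max_lt hK ?_)
  rw [Cardinal.mk_eq_zero, zero_add]
  exact (h2 _ h4).trans_lt (lt_ord.mp h4)

open Classical in
noncomputable def dep (K : Subgroup G) (y : G) : ℕ :=
  if _h : y ∈ K ∧ ℵ₀ < #K then dep (child K y) y + 1 else 0
termination_by #K
decreasing_by exact card_child _h.1 _h.2

structure Model (G : Type u) [Group G] where
  N : Subgroup G
  C : Set (Subgroup G)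
  c2 : ∀ K ∈ C, ∀ k ∈ N, lo K k ∈ C ∧ child K k ∈ C
  c3 : ∀ K ∈ C, #K ≤ ℵ₀ → K ≤ N

def Sees (M M' : Model G) : Prop :=
  ∀ L ∈ M.C, ∀ x ∈ M.N, (∃ w ∈ M'.N, x * w ∈ L) → ∃ w ∈ M'.N, w ∈ M.N ∧ x * w ∈ L

def Rel (y : G) (M M' : Model G) : Prop :=
  Sees M M' ∧ ∃ x ∈ M.N, ∃ w ∈ M'.N, x * w = y

lemma two_models {M M' : Model G} {K : Subgroup G} (hK : K ∈ M.C) (hK' : K ∈ M'.C) {y : G}
    (hy : y ∉ M.N) (h : Rel y M M') : child K y ∈ M.C ∨ child K y ∈ M'.C := by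
  obtain ⟨hs, x, hx, w, hw, hxw⟩ := h
  have hy0 : y ∉ H ∅ (tau K) 0 := fun h => hy (by
    have : H ∅ (tau K) 0 = ⊥ := by simp [H]
    rw [this, Subgroup.mem_bot] at h
    rw [h]; exact one_mem _)
  have hy1 := not_mem_lev _ _ hy0
  have hy2 := mem_lev ∅ (tau K) y
  induction hm : mu ∅ (tau K) x using WellFoundedLT.induction generalizing x w with
  | _ α ih =>
    by_cases h1 : x ∈ H ∅ (tau K) (lev ∅ (tau K) y + 1)
    · by_cases h2 : x ∈ H ∅ (tau K) (lev ∅ (tau K) y)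
      · have h3 : w ∈ H ∅ (tau K) (lev ∅ (tau K) y + 1) := by
          rw [← hxw] at hy2
          rw [← hxw] at h1 ⊢
          exact ((H ∅ (tau K) _).mul_mem_cancel_left h1).mp hy2
        have h4 : w ∉ H ∅ (tau K) (lev ∅ (tau K) y) := fun h => hy1 (by
          have := mul_mem h2 h
          rwa [hxw] at this)
        right
        have := (M'.c2 K hK' w hw).2
        rwa [child, lev_eq _ _ h3 h4] at this
      · left
        have := (M.c2 K hK x hx).2
        rwa [child, lev_eq _ _ h1 h2] at this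
    · have h2 : y ∈ lo K x := H_mono _ _ (le_lev _ _ h1) hy2
      obtain ⟨w0, hw0, hw0', h3⟩ := hs _ (M.c2 K hK x hx).1 x hx ⟨w, hw, hxw ▸ h2⟩
      refine ih _ ?_ (x * w0) (mul_mem hx hw0') (w0⁻¹ * w) (mul_mem (inv_mem hw0) hw)
        (by rw [← hxw]; group) rfl
      have hx0 : x ∉ H ∅ (tau K) 0 := fun h => h1 (H_mono _ _ zero_le h)
      have h5 : mu ∅ (tau K) (x * w0) ≤ lev ∅ (tau K) x := csInf_le' h3
      have h6 : x ∈ H ∅ (tau K) (mu ∅ (tau K) x) :=
        csInf_mem (s := {α | x ∈ H ∅ (tau K) α}) ⟨_, mem_lev _ _ x⟩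
      rw [← hm]
      exact h5.trans_lt (not_le.mp fun hc => not_mem_lev _ _ hx0 (H_mono _ _ hc h6))

lemma filter_len {α : Type*} (p : α → Prop) [DecidablePred p] (l : List α)
    (h : l.Pairwise fun a b => p a ∨ p b) : l.length ≤ (l.filter p).length + 1 := by
  induction l with
  | nil => simp
  | cons a l ih =>
    rw [List.pairwise_cons] at h
    by_cases ha : p a
    · simpa [ha] using ih h.2
    · have : l.filter p = l := List.filter_eq_self.mpr fun b hb => by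
        simpa [ha] using h.1 b hb
      simp [ha, this]

lemma main_lemma (y : G) (K : Subgroup G) : ∀ Ms : List (Model G), y ∈ K →
    (∀ M ∈ Ms, K ∈ M.C ∧ y ∉ M.N) → Ms.Pairwise (Rel y) → Ms.length ≤ dep K y := by
  classical
  induction hm : #K using WellFoundedLT.induction generalizing K with
  | _ c ih =>
    intro Ms hy hM hP
    by_cases hK : ℵ₀ < #K
    · rw [dep, dif_pos ⟨hy, hK⟩]
      have h1 : Ms.Pairwise fun M M' => child K y ∈ M.C ∨ child K y ∈ M'.C :=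
        hP.imp_of_mem fun ha hb h => two_models (hM _ ha).1 (hM _ hb).1 (hM _ ha).2 h
      refine (filter_len _ _ h1).trans (Nat.succ_le_succ ?_)
      refine ih _ (hm ▸ card_child hy hK) _ rfl _ (mem_lev _ _ y) (fun M hM' => ?_)
        (hP.sublist List.filter_sublist)
      rw [List.mem_filter] at hM'
      exact ⟨by simpa using hM'.2, (hM M hM'.1).2⟩
    · cases Ms with
      | nil => simp
      | cons M Ms =>
        obtain ⟨h1, h2⟩ := hM M (by simp)
        exact absurd (M.c3 K h1 (not_lt.mp hK) hy) h2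

lemma exists_model (Ms : List (Model G)) (μ : Cardinal.{u}) (hμ : ℵ₀ ≤ μ) (S : Set G)
    (hS : #S ≤ μ) : ∃ M : Model G, S ⊆ M.N ∧ #M.N ≤ μ ∧ ⊤ ∈ M.C ∧ ∀ M' ∈ Ms, Sees M M' := by
  classical
  let W : Model G → G → Subgroup G → G := fun M' x L =>
    if h : ∃ w ∈ M'.N, x * w ∈ L then h.choose else 1
  let Op : G ⊕ Subgroup G → G ⊕ Subgroup G → Set (G ⊕ Subgroup G) := fun a b =>
    match a, b with
    | .inl a, .inl b => {.inl (a * b⁻¹)}
    | .inl _, .inr K => if #K ≤ ℵ₀ then Sum.inl '' (K : Set G) else ∅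
    | .inr K, .inl k => {.inr (lo K k), .inr (child K k)} ∪
        (fun M' => .inl (W M' k K)) '' {M' | M' ∈ Ms}
    | .inr _, .inr _ => ∅
  obtain ⟨M, h1, h2, h3⟩ := hull Op (by
    rintro (a | K) (b | L)
    · exact Set.countable_singleton _
    · simp only [Op]
      split_ifs with h
      · exact (le_aleph0_iff_set_countable.mp h).image _
      · exact Set.countable_empty
    · exact ((Set.toFinite _).union ((List.finite_toSet Ms).image _)).countable
    · exact Set.countable_empty) μ hμ ({.inl 1, .inr ⊤} ∪ Sum.inl '' S) (by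
      refine (mk_union_le _ _).trans (add_le_of_le hμ ?_ (mk_image_le.trans hS))
      exact (Set.toFinite _).lt_aleph0.le.trans hμ)
  have e1 : Sum.inl 1 ∈ M := h1 (Or.inl (Or.inl rfl))
  have hinv : ∀ a, Sum.inl a ∈ M → Sum.inl a⁻¹ ∈ M := fun a ha => by
    simpa using h3 _ e1 _ ha (Set.mem_singleton _)
  let N : Subgroup G :=
    { carrier := Sum.inl ⁻¹' M
      one_mem' := e1
      inv_mem' := hinv _
      mul_mem' := fun {a b} ha hb => by
        simpa using h3 _ ha _ (hinv b hb) (Set.mem_singleton _) }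
  refine ⟨⟨N, Sum.inr ⁻¹' M, fun K hK k hk => ⟨h3 _ hK _ hk (Or.inl (Or.inl rfl)),
    h3 _ hK _ hk (Or.inl (Or.inr rfl))⟩, fun K hK hc k hk => h3 _ e1 _ hK ?_⟩,
    fun s hs => h1 (Or.inr ⟨s, hs, rfl⟩), ?_, h1 (Or.inl (Or.inr rfl)), ?_⟩
  · simp only [Op, hc, if_true]
    exact ⟨k, hk, rfl⟩
  · exact (mk_preimage_of_injective _ _ Sum.inl_injective).trans h2
  · intro M' hM' L hL x hx h
    have : Sum.inl (W M' x L) ∈ M := h3 _ hL _ hx (Or.inr ⟨M', hM', rfl⟩)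
    simp only [W, dif_pos h] at this
    exact ⟨_, h.choose_spec.1, this, h.choose_spec.2⟩

lemma build (U : Subgroup G) (E : Set G) (k : ℕ) : ∀ μ : Cardinal.{u}, ℵ₀ ≤ μ → #E ≤ μ →
    Order.succ^[k] μ ≤ #U → ∃ (Ms : List (Model G)) (y : G), Ms.length = k ∧ y ∈ U ∧
      (∀ M ∈ Ms, ⊤ ∈ M.C ∧ E ⊆ M.N ∧ y ∉ M.N) ∧ Ms.Pairwise (Rel y) ∧
      μ ≤ #{v | v ∈ U ∧ ∀ M ∈ Ms, v ∈ M.N} := by
  induction k with
  | zero =>
    intro μ _ _ h
    exact ⟨[], 1, rfl, one_mem _, by simp, by simp, by simpa using h⟩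
  | succ k ih =>
    intro μ hμ hE h
    obtain ⟨Ms, y, h1, h2, h3, h4, h5⟩ := ih (Order.succ μ) (hμ.trans (Order.le_succ μ))
      (hE.trans (Order.le_succ μ)) h
    obtain ⟨T, hT1, hT2⟩ := le_mk_iff_exists_subset.mp ((Order.le_succ μ).trans h5)
    obtain ⟨M, m1, m2, m3, m4⟩ := exists_model Ms μ hμ (insert y (E ∪ T)) (by
      refine mk_insert_le.trans (add_le_of_le hμ ?_ (one_le_aleph0.trans hμ))
      exact (mk_union_le _ _).trans (add_le_of_le hμ hE hT2.le))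
    obtain ⟨x, hx1, hx2⟩ : ∃ x, (x ∈ U ∧ ∀ M ∈ Ms, x ∈ M.N) ∧ x ∉ M.N := by
      by_contra hcon
      push Not at hcon
      have : #{v | v ∈ U ∧ ∀ M ∈ Ms, v ∈ M.N} ≤ #M.N :=
        mk_le_mk_of_subset (t := (M.N : Set G)) fun v hv => hcon v hv
      exact absurd (h5.trans (this.trans m2)) (not_le.mpr (Order.lt_succ μ))
    have hyM : y ∈ M.N := m1 (Or.inl rfl)
    refine ⟨M :: Ms, y * x, by simp [h1], mul_mem h2 hx1.1, ?_, ?_, ?_⟩
    · intro M' hM'
      rcases List.mem_cons.mp hM' with rfl | hM'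
      · exact ⟨m3, fun e he => m1 (Or.inr (Or.inl he)),
          fun hc => hx2 ((M'.N.mul_mem_cancel_left hyM).mp hc)⟩
      · exact ⟨(h3 M' hM').1, (h3 M' hM').2.1,
          fun hc => (h3 M' hM').2.2 ((M'.N.mul_mem_cancel_right (hx1.2 M' hM')).mp hc)⟩
    · refine List.pairwise_cons.mpr ⟨fun M' hM' => ⟨m4 M' hM', y, hyM, x, hx1.2 M' hM', rfl⟩,
        h4.imp_of_mem ?_⟩
      rintro a b ha hb ⟨r1, p, hp, q, hq, rfl⟩
      exact ⟨r1, p, hp, q * x, mul_mem hq (hx1.2 b hb), by rw [mul_assoc]⟩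
    · rw [← hT2]
      refine mk_le_mk_of_subset fun v hv => ⟨(hT1 hv).1, fun M' hM' => ?_⟩
      rcases List.mem_cons.mp hM' with rfl | hM'
      · exact m1 (Or.inr (Or.inr hv))
      · exact (hT1 hv).2 M' hM'

lemma deep (U : Subgroup G) (E : Set G) (k : ℕ) (μ : Cardinal.{u}) (hμ : ℵ₀ ≤ μ) (hE : #E ≤ μ)
    (h : Order.succ^[k] μ ≤ #U) : ∃ y ∈ U, ∀ a ∈ E, ∀ b ∈ E, k ≤ dep ⊤ (a * y * b) := by
  obtain ⟨Ms, y, h1, h2, h3, h4, -⟩ := build U E k μ hμ hE h
  refine ⟨y, h2, fun a ha b hb => h1 ▸ main_lemma _ ⊤ Ms trivial (fun M hM => ?_)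
    (h4.imp_of_mem ?_)⟩
  · obtain ⟨m1, m2, m3⟩ := h3 M hM
    exact ⟨m1, fun hc => m3 ((M.N.mul_mem_cancel_left (m2 ha)).mp
      ((M.N.mul_mem_cancel_right (m2 hb)).mp hc))⟩
  · rintro M M' hM hM' ⟨r1, p, hp, q, hq, rfl⟩
    exact ⟨r1, a * p, mul_mem ((h3 M hM).2.1 ha) hp, q * b, mul_mem hq ((h3 M' hM').2.1 hb),
      by group⟩

lemma low_part (τ : G → Ordinal.{u}) (β : Ordinal.{u}) (w : G) :
    ∃ v ∈ H ∅ τ β, ∀ h ∈ H ∅ τ β, len ∅ τ (v * h) ≤ len ∅ τ (w * h) := by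
  induction w using strip_induction ∅ τ with
  | h w ih =>
    by_cases hw : w ∈ H ∅ τ β
    · exact ⟨w, hw, fun _ _ => le_rfl⟩
    · obtain ⟨v, hv, h⟩ := ih fun h => hw (H_mono _ _ zero_le h)
      exact ⟨v, hv, fun g hg => by rw [len_mul _ _ hw hg]; exact (h g hg).trans (Nat.le_succ _)⟩

lemma key (G : Type u) [Group G] [Infinite G] :
    ∃ χ : G → ℕ, ∀ (n : ℕ) (F : Set G), #F < #G →
      (∃ U : Set G, #U < #G ∧ ∀ g, ∃ v ∈ U, ∀ f ∈ F, χ (f * v * g) ≠ n) ∧
      (∃ U : Set G, #U < #G ∧ ∀ g, ∃ v ∈ U, ∀ f ∈ F, χ (g * v * f) ≠ n) := by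
  rcases (aleph0_le_mk G).eq_or_lt with h0 | h0
  · have : Countable G := mk_le_aleph0_iff.mp h0.ge
    obtain ⟨l, hl⟩ := exists_injective_nat G
    refine ⟨l, fun k F hF => ?_⟩
    have h1 : Order.succ #F < #G := by
      rw [← h0] at hF ⊢
      exact isSuccLimit_aleph0.succ_lt hF
    obtain ⟨U, hU⟩ := le_mk_iff_exists_set.mp h1.le
    refine ⟨⟨U, hU ▸ h1, fun g => ?_⟩, ⟨U, hU ▸ h1, fun g => ?_⟩⟩ <;>
    · by_contra hcon
      push Not at hcon
      choose! φ h2 h3 using hcon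
      have : #U ≤ #F := mk_le_of_injective (f := fun v : U => (⟨φ v, h2 v v.2⟩ : F)) (by
        intro a b hab
        have e : φ a = φ b := congrArg Subtype.val hab
        have := hl ((h3 a a.2).trans (h3 b b.2).symm)
        rw [e] at this
        exact Subtype.ext (by simpa using this))
      exact absurd (hU ▸ this) (not_le.mpr (Order.lt_succ _))
  by_cases hreg : (#G).IsRegular
  · obtain ⟨τ, -, hτ, hc⟩ := exists_tau G
    have hH : ∀ α < (#G).ord, #(H ∅ τ α) < #G := fun α hα => by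
      have : #(H ∅ τ α) ≤ max ℵ₀ α.card := by simpa [hc α hα.le] using card_H_le ∅ τ α
      exact this.trans_lt (max_lt h0 (lt_ord.mp hα))
    have hlim := isSuccLimit_ord (aleph0_le_mk G)
    have Q : ∀ (k : ℕ), ∀ γ < (#G).ord, ∃ y, ∀ h ∈ H ∅ τ γ, k ≤ len ∅ τ (y * h) := by
      intro k γ hγ
      induction k with
      | zero => exact ⟨1, fun _ _ => Nat.zero_le _⟩
      | succ k ih =>
        obtain ⟨y, hy⟩ := ih
        have hδ : max γ (τ y + 1) < (#G).ord := max_lt hγ (hlim.add_one_lt (hτ y))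
        have h1 := hH _ hδ
        obtain ⟨z, hz⟩ : ∃ z, z ∉ H ∅ τ (max γ (τ y + 1)) := by
          by_contra hcon
          push Not at hcon
          have : #G ≤ #(H ∅ τ (max γ (τ y + 1))) :=
            mk_le_of_injective (f := fun g => ⟨g, hcon g⟩) fun a b h => congrArg Subtype.val h
          exact absurd h1 (not_lt.mpr this)
        have hz0 : z ∉ H ∅ τ 0 := fun h => hz (H_mono _ _ zero_le h)
        have hle := le_lev ∅ τ hz
        refine ⟨z * (strip ∅ τ z)⁻¹ * y, fun h hh => ?_⟩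
        have hm : (strip ∅ τ z)⁻¹ * (y * h) ∈ H ∅ τ (lev ∅ τ z) :=
          mul_mem (inv_mem (strip_mem _ _ z)) (H_mono _ _ hle (mul_mem
            (mem_H_of_lt _ _ (lt_max_of_lt_right (Order.lt_add_one_iff.mpr le_rfl)))
            (H_mono _ _ (le_max_left _ _) hh)))
        have := len_mul ∅ τ (not_mem_lev ∅ τ hz0) hm
        rw [mul_inv_cancel_left] at this
        rw [mul_assoc, mul_assoc, this]
        exact Nat.succ_le_succ (hy h hh)
    have R : ∀ (k : ℕ) (F : Set G), #F < #G → ∃ U : Subgroup G, #U < #G ∧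
        ∀ g, ∃ v ∈ U, ∀ f ∈ F, k ≤ len ∅ τ (g * v * f) ∧ k ≤ len ∅ τ (g * v * f⁻¹) := by
      intro k F hF
      have hγ : ⨆ f : F, (τ f + 1) < (#G).ord :=
        Ordinal.iSup_lt_of_lt_cof (by rwa [hreg.cof_ord]) fun f => hlim.add_one_lt (hτ f)
      obtain ⟨y, hy⟩ := Q k _ hγ
      have hδ : max (⨆ f : F, (τ f + 1)) (τ y + 1) < (#G).ord :=
        max_lt hγ (hlim.add_one_lt (hτ y))
      refine ⟨_, hH _ hδ, fun g => ?_⟩
      obtain ⟨v, hv, h⟩ := low_part τ (max (⨆ f : F, (τ f + 1)) (τ y + 1)) g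
      have hy' : y ∈ H ∅ τ (max (⨆ f : F, (τ f + 1)) (τ y + 1)) :=
        mem_H_of_lt _ _ (lt_max_of_lt_right (Order.lt_add_one_iff.mpr le_rfl))
      have hvy := mul_mem (inv_mem hv) hy'
      have h2 : ∀ f ∈ H ∅ τ (⨆ f : F, (τ f + 1)), k ≤ len ∅ τ (g * (v⁻¹ * y) * f) :=
        fun f hf => by
          have := h _ (mul_mem hvy (H_mono _ _ (le_max_left _ _) hf))
          rw [mul_assoc g]
          refine le_trans ?_ this
          rw [mul_assoc, mul_inv_cancel_left]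
          exact hy f hf
      refine ⟨v⁻¹ * y, hvy, fun f hf => ?_⟩
      have hf' : f ∈ H ∅ τ (⨆ f : F, (τ f + 1)) := mem_H_of_lt _ _
        ((Order.lt_add_one_iff.mpr le_rfl).trans_le
          (Ordinal.le_iSup (fun f : F => τ f + 1) ⟨f, hf⟩))
      exact ⟨h2 f hf', h2 _ (inv_mem hf')⟩
    refine ⟨fun g => len ∅ τ g + len ∅ τ g⁻¹, fun n F hF => ?_⟩
    obtain ⟨U, hU, h⟩ := R (n + 1) F hF
    refine ⟨⟨U, hU, fun g => ?_⟩, ⟨U, hU, fun g => ?_⟩⟩
    · obtain ⟨v, hv, h1⟩ := h g⁻¹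
      refine ⟨v⁻¹, inv_mem hv, fun f hf => ?_⟩
      have := (h1 f hf).2
      simp only [mul_inv_rev, inv_inv, ← mul_assoc]
      omega
    · obtain ⟨v, hv, h1⟩ := h g
      refine ⟨v, hv, fun f hf => ?_⟩
      have := (h1 f hf).1
      simp only
      omega
  · have hsucc : ∀ μ, ℵ₀ ≤ μ → μ < #G → Order.succ μ < #G := fun μ h1 h2 =>
      (Order.succ_le_of_lt h2).lt_of_ne fun h => hreg (h ▸ isRegular_succ h1)
    have hit : ∀ (k : ℕ) μ, ℵ₀ ≤ μ → μ < #G → ℵ₀ ≤ Order.succ^[k] μ ∧ Order.succ^[k] μ < #G := by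
      intro k
      induction k with
      | zero => exact fun μ h1 h2 => ⟨h1, h2⟩
      | succ k ih => exact fun μ h1 h2 => ih _ (h1.trans (Order.le_succ μ)) (hsucc μ h1 h2)
    refine ⟨dep ⊤, fun n F hF => ?_⟩
    obtain ⟨h1, h2⟩ := hit (n + 1) (max ℵ₀ #F) (le_max_left _ _) (max_lt h0 hF)
    obtain ⟨S, hS⟩ := le_mk_iff_exists_set.mp h2.le
    have h3 : #(Subgroup.closure S) < #G :=
      (card_closure_le S).trans_lt (max_lt h0 (hS ▸ h2))
    have h4 : Order.succ^[n + 1] (max ℵ₀ #F) ≤ #(Subgroup.closure S) :=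
      hS ▸ mk_le_mk_of_subset (t := (Subgroup.closure S : Set G)) Subgroup.subset_closure
    have h5 := fun g => deep (Subgroup.closure S) (insert g F) (n + 1) (max ℵ₀ #F)
      (le_max_left _ _) (mk_insert_le.trans (add_le_of_le (le_max_left _ _) (le_max_right _ _)
        (one_le_aleph0.trans (le_max_left _ _)))) h4
    refine ⟨⟨Subgroup.closure S, h3, fun g => ?_⟩, ⟨Subgroup.closure S, h3, fun g => ?_⟩⟩
    · obtain ⟨y, hy, h⟩ := h5 g
      exact ⟨y, hy, fun f hf => by have := h f (Or.inr hf) g (Or.inl rfl); omega⟩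
    · obtain ⟨y, hy, h⟩ := h5 g
      exact ⟨y, hy, fun f hf => by have := h g (Or.inl rfl) f (Or.inr hf); omega⟩


/-- Every infinite group G has a coloring by natural numbers whose color classes are all ∣G∣-small. A class A is ∣G∣-small if, whenever fewer than ∣G∣ left (right) translates of L cover G, fewer than ∣G∣ left (right) translates of L minus A also cover G. -/
theorem result :
    ∀ (G : Type u) [Group G] [Infinite G],
      ∃ f : G → ℕ, ∀ n : ℕ,
        (∀ L : Set G,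
          (∃ F : Set G, Cardinal.mk F < Cardinal.mk G ∧
              ∀ g : G, ∃ x ∈ F, ∃ y ∈ L, g = x * y) →
          (∃ F : Set G, Cardinal.mk F < Cardinal.mk G ∧
              ∀ g : G, ∃ x ∈ F, ∃ y ∈ L, f y ≠ n ∧ g = x * y)) ∧
        (∀ L : Set G,
          (∃ F : Set G, Cardinal.mk F < Cardinal.mk G ∧
              ∀ g : G, ∃ x ∈ F, ∃ y ∈ L, g = y * x) →
          (∃ F : Set G, Cardinal.mk F < Cardinal.mk G ∧
              ∀ g : G, ∃ x ∈ F, ∃ y ∈ L, f y ≠ n ∧ g = y * x)) := by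
  intro G _ hG
  obtain ⟨χ, hχ⟩ := key G
  refine ⟨χ, fun n => ⟨?_, ?_⟩⟩
  · rintro L ⟨F, hF, hL⟩
    obtain ⟨U, hU, h⟩ := (hχ n ((fun f => f⁻¹) '' F) (mk_image_le.trans_lt hF)).1
    refine ⟨Set.image2 (fun v f => v⁻¹ * f) U F,
      mk_image2_le.trans_lt (mul_lt_of_lt (aleph0_le_mk G) hU hF), fun g => ?_⟩
    obtain ⟨v, hv, h1⟩ := h g
    obtain ⟨f, hf, l, hl, e⟩ := hL (v * g)
    refine ⟨_, ⟨v, hv, f, hf, rfl⟩, l, hl, ?_, by rw [mul_assoc, ← e]; simp⟩
    have := h1 _ ⟨f, hf, rfl⟩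
    rwa [mul_assoc, e, inv_mul_cancel_left] at this
  · rintro L ⟨F, hF, hL⟩
    obtain ⟨U, hU, h⟩ := (hχ n ((fun f => f⁻¹) '' F) (mk_image_le.trans_lt hF)).2
    refine ⟨Set.image2 (fun v f => f * v⁻¹) U F,
      mk_image2_le.trans_lt (mul_lt_of_lt (aleph0_le_mk G) hU hF), fun g => ?_⟩
    obtain ⟨v, hv, h1⟩ := h g
    obtain ⟨f, hf, l, hl, e⟩ := hL (g * v)
    refine ⟨_, ⟨v, hv, f, hf, rfl⟩, l, hl, ?_, by rw [← mul_assoc, ← e]; simp⟩
    have := h1 _ ⟨f, hf, rfl⟩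
    rwa [e, mul_inv_cancel_right] at this

end Pool.Agent.S03547
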