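import Pool.Statements.S03646
import Pool.Agent.H22.Tn5

set_option autoImplicit false
open Pool Pool.MP_fedac3_al

namespace Pool.Agent.S03646

/-- The negation of the preceding statement: For every finite soluble group G, only finitely many Fitting classes are contained in the smallest Fitting class containing G, so the lattice of Fitting subclasses of the Fitting class generated by G is finite. -/
theorem result :
    ¬ (∀ (G : Type) [Group G] [Finite G], IsSolvable G →
      {F : (H : Type) → [Group H] → Prop |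
        ((∀ (H : Type) [Group H], F H → Finite H) ∧
         (∀ (H K : Type) [Group H] [Group K], Nonempty (H ≃* K) → F H → F K) ∧
         (∀ (H : Type) [Group H] (N : Subgroup H), N.Normal → F H → F ↥N) ∧
         (∀ (H : Type) [Group H] (N M : Subgroup H), N.Normal → M.Normal →
            F ↥N → F ↥M → F ↥(N ⊔ M))) ∧
        ∀ Q : (H : Type) → [Group H] → Prop,
          ((∀ (H : Type) [Group H], Q H → Finite H) ∧
           (∀ (H K : Type) [Group H] [Group K], Nonempty (H ≃* K) → Q H → Q K) ∧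
           (∀ (H : Type) [Group H] (N : Subgroup H), N.Normal → Q H → Q ↥N) ∧
           (∀ (H : Type) [Group H] (N M : Subgroup H), N.Normal → M.Normal →
              Q ↥N → Q ↥M → Q ↥(N ⊔ M))) →
          Q G → ∀ (H : Type) [Group H], F H → Q H}.Finite) := by
  intro h
  have hs : Group.IsSolvable (H22.Tn.Dh (ZMod 3)) := H22.Tn.dh_pq.solv
  refine (h _ hs).not_infinite (Set.infinite_of_injective_forall_mem (f := fun (k : ℕ) (H : Type) [Group H] =>
    (∀ Q : (H : Type) → [Group H] → Prop,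
      ((∀ (H : Type) [Group H], Q H → Finite H) ∧
       (∀ (H K : Type) [Group H] [Group K], Nonempty (H ≃* K) → Q H → Q K) ∧
       (∀ (H : Type) [Group H] (N : Subgroup H), N.Normal → Q H → Q ↥N) ∧
       (∀ (H : Type) [Group H] (N M : Subgroup H), N.Normal → M.Normal →
          Q ↥N → Q ↥M → Q ↥(N ⊔ M))) → Q (H22.Tn.Dh (ZMod 3)) → Q H) ∧ H22.Tn.St (3 ^ (k + 1)) H)
    (fun k j e => ?_) (fun k => ⟨⟨fun _ _ a => a.2.1, fun _ _ _ _ ⟨e⟩ a =>
      ⟨fun Q q b => q.2.1 _ _ ⟨e⟩ (a.1 Q q b), a.2.iso e⟩, fun _ _ N _ a =>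
      ⟨fun Q q b => q.2.2.1 _ N ‹_› (a.1 Q q b), a.2.sub (Nat.one_le_pow _ _ (by norm_num)) N⟩,
      fun H _ N M _ _ a b => ?_⟩, fun Q q b _ _ a => a.1 Q q b⟩))
  · have c := GaloisField.card 3 (k + 1) k.succ_ne_zero
    have s := Function.surjective_id (α := GaloisField 3 (k + 1))
    have := (congrFun (congrFun e (H22.Tn.Ts (AddMonoidHom.id (GaloisField 3 (k + 1)))))
      inferInstance).mp (And.intro (fun Q q b => (H22.Tn.ts_mem (C := fun G _ => Q G ∧ H22.Fit.PQ 3 2 G)
        ⟨fun G _ a => have := q.1 G a.1; ⟨this, a.2.solv⟩, ⟨q.2.1 _ _ ⟨MulEquiv.ofUnique⟩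
          (q.2.2.1 _ ⊥ inferInstance b), ⊥, inferInstance, IsPGroup.of_bot,
          fun _ => ⟨0, Subsingleton.elim _ _⟩⟩,
        fun _ _ _ _ e a => ⟨q.2.1 _ _ ⟨e⟩ a.1, a.2.surj e.toMonoidHom e.surjective⟩,
        fun _ _ N n a => ⟨q.2.2.1 _ N n a.1, a.2.inj _ N.subtype_injective⟩,
        fun _ _ _ N M n m a b => ⟨q.2.2.2 _ N M n m a.1 b.1, H22.Tn.pq_sup a.2 b.2⟩⟩
        ⟨b, H22.Tn.dh_pq⟩ _).1) (c ▸ H22.Tn.st_ts s))
    have := (H22.Tn.st_eq s this.2).trans c
    exact (Nat.succ_injective (Nat.pow_right_injective (by norm_num) this)).symm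
  · have := a.2.1
    have := b.2.1
    have : Finite ↥(N ⊔ M) := Set.Finite.to_subtype (s := ((N ⊔ M : Subgroup H) : Set H))
      (Subgroup.normal_mul N M ▸ Set.Finite.mul (Set.toFinite _) (Set.toFinite _))
    exact ⟨fun Q q c => q.2.2.2 _ N M ‹_› ‹_› (a.1 Q q c) (b.1 Q q c), a.2.sup b.2⟩

end Pool.Agent.S03646
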