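import Pool.Statements.S03650
import Pool.Agent.H19.Palin

set_option autoImplicit false
open Pool Pool.MP_feeeae_al

namespace Pool.Agent.S03650

open Pool.Agent.H19.Palin Filter Topology
open FreeGroup hiding map_mul map_inv map_one

lemma psi_mul' (g h : FreeGroup Bool) : |psi h - psi (g * h) + psi g| ≤ 3 := by
  obtain ⟨u, c, v, e1, e2, hr⟩ := decomp g.toWord h.toWord isReduced_toWord isReduced_toWord
  have e : g * h = mk (u ++ v) := by
    rw [← mk_toWord (x := g), ← mk_toWord (x := h), e1, e2, ← mul_mk, ← mul_mk, ← mul_mk,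
      ← inv_mk]
    group
  unfold psi
  rw [e, toWord_mk, hr.reduce_eq, e1, e2, cnt_append, cnt_append, cnt_append, cnt_invRev]
  have := jn_abs u v
  have := jn_abs u c
  have := jn_abs (invRev c) v
  rw [abs_le]
  omega

lemma no_hom (φ : FreeGroup Bool → ℝ) (hφ : ∀ g h, φ (g * h) = φ g + φ h) (C : ℝ)
    (hC : ∀ g, |(psi g : ℝ) - φ g| ≤ C) : False := by
  let φ' : FreeGroup Bool →* Multiplicative ℝ :=
    MonoidHom.mk' (fun g => Multiplicative.ofAdd (φ g)) fun g h => by rw [hφ]; rfl
  have h1 : ∀ b, φ (of b) = 0 := by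
    intro b
    by_contra hb
    obtain ⟨n, hn⟩ := exists_nat_gt (C / |φ (of b)|)
    have h2 : φ (of b ^ n) = n * φ (of b) := by
      have := congrArg Multiplicative.toAdd (map_pow φ' (of b) n)
      simpa [φ'] using this
    have h3 : psi (of b ^ n) = 0 := psi_pal (by
      have := rev_zpow (of b) n
      rwa [rev_of, zpow_natCast] at this)
    have := hC (of b ^ n)
    rw [h3, h2, Int.cast_zero, zero_sub, abs_neg, abs_mul, Nat.abs_cast] at this
    rw [div_lt_iff₀ (abs_pos.2 hb)] at hn
    linarith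
  have h2 : φ' = 1 := FreeGroup.ext_hom _ _ fun b => by simp [φ', h1]
  obtain ⟨n, hn⟩ := exists_nat_gt C
  have h3 : φ (mk (ww n)) = 0 := congrArg Multiplicative.toAdd (DFunLike.congr_fun h2 (mk (ww n)))
  have := hC (mk (ww n))
  rw [h3, psi, toWord_mk, (ww_red _).reduce_eq, ww_cnt, sub_zero] at this
  have h4 := le_abs_self (((2 * (n : ℤ) : ℤ)) : ℝ)
  push_cast at this h4
  have : (0 : ℝ) ≤ n := Nat.cast_nonneg n
  linarith

abbrev K : Type := ℕ → Bool

def p : K := fun _ => false

section
variable (e : ℕ ≃ FreeGroup Bool)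

def T : FreeGroup Bool →* (K ≃ₜ K) where
  toFun γ :=
    { toFun := fun z i => z (e.symm (γ⁻¹ * e i))
      invFun := fun z i => z (e.symm (γ * e i))
      left_inv := fun z => by funext i; simp
      right_inv := fun z => by funext i; simp
      continuous_toFun := continuous_pi fun i => continuous_apply _
      continuous_invFun := continuous_pi fun i => continuous_apply _ }
  map_one' := Homeomorph.ext fun z => by funext i; simp
  map_mul' a b := Homeomorph.ext fun z => by funext i; simp [mul_assoc]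

lemma T_apply (γ : FreeGroup Bool) (z : K) (i : ℕ) : T e γ z i = z (e.symm (γ⁻¹ * e i)) := rfl

lemma ht : Tendsto (fun k : ℕ => (fun i => decide (i = k) : K)) atTop (𝓝 p) := by
  rw [tendsto_pi_nhds]
  intro i
  refine tendsto_const_nhds.congr' ?_
  filter_upwards [eventually_gt_atTop i] with k hk
  simp [p, hk.ne]

lemma dense_p : Dense ({p}ᶜ : Set K) := by
  intro x
  by_cases h : x = p
  · rw [h]
    refine mem_closure_of_tendsto ht (Eventually.of_forall fun k h => ?_)
    simpa [p] using congrFun h k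
  · exact subset_closure h

lemma T_inj {a b : FreeGroup Bool} (h : (T e a : K → K) =ᶠ[𝓝 p] T e b) : a = b := by
  obtain ⟨k, hk⟩ := (ht.eventually h).exists
  have := congrFun hk (e.symm (a * e k))
  simp only [T_apply, Equiv.apply_symm_apply, inv_mul_cancel_left, Equiv.symm_apply_apply,
    decide_true] at this
  have h2 := of_decide_eq_true this.symm
  rw [Equiv.symm_apply_eq, inv_mul_eq_iff_eq_mul] at h2
  exact mul_right_cancel h2

lemma germ_mul {g h : K ≃ₜ K} {a b : FreeGroup Bool} (hg : (g : K → K) =ᶠ[𝓝 p] T e a)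
    (hh : (h : K → K) =ᶠ[𝓝 p] T e b) : ((g * h : K ≃ₜ K) : K → K) =ᶠ[𝓝 p] T e (a * b) := by
  have h1 : h p = p := hh.eq_of_nhds
  have h2 : Tendsto h (𝓝 p) (𝓝 p) := by simpa [h1] using h.continuous.tendsto p
  filter_upwards [h2.eventually hg, hh] with z h3 h4
  rw [map_mul]
  show g (h z) = T e a (T e b z)
  rw [h3, h4]

def GG : Subgroup (K ≃ₜ K) where
  carrier := {g | ∃ γ, (g : K → K) =ᶠ[𝓝 p] T e γ}
  one_mem' := ⟨1, by rw [map_one]⟩
  mul_mem' := fun ⟨a, ha⟩ ⟨b, hb⟩ => ⟨a * b, germ_mul e ha hb⟩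
  inv_mem' := by
    rintro g ⟨a, ha⟩
    refine ⟨a⁻¹, ?_⟩
    have h1 : g p = p := ha.eq_of_nhds
    have h1' : g.symm p = p := by rw [Homeomorph.symm_apply_eq, h1]
    have h2 : Tendsto g.symm (𝓝 p) (𝓝 p) := by simpa [h1'] using g.symm.continuous.tendsto p
    filter_upwards [h2.eventually ha] with z h3
    rw [map_inv]
    show g.symm z = (T e a).symm z
    rw [eq_comm, Homeomorph.symm_apply_eq, ← h3, Homeomorph.apply_symm_apply]

lemma fix_p {g : K ≃ₜ K} (hg : g ∈ GG e) : g p = p := hg.choose_spec.eq_of_nhds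

noncomputable def gm (g : GG e) : FreeGroup Bool := g.2.choose

lemma gm_mul (g h : GG e) : gm e (g * h) = gm e g * gm e h :=
  T_inj e ((g * h).2.choose_spec.symm.trans (germ_mul e g.2.choose_spec h.2.choose_spec))

def TG (γ : FreeGroup Bool) : GG e := ⟨T e γ, γ, EventuallyEq.rfl⟩

lemma gm_TG (γ : FreeGroup Bool) : gm e (TG e γ) = γ := T_inj e (TG e γ).2.choose_spec.symm

lemma TG_mul (a b : FreeGroup Bool) : TG e (a * b) = TG e a * TG e b := Subtype.ext (map_mul _ _ _)

end

lemma ex_swap (E : Set K) (hE : E.Finite) (x y : K) (hx : x ∉ E) (hy : y ∉ E) :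
    ∃ g : K ≃ₜ K, g x = y ∧ ∀ z ∈ E, (g : K → K) =ᶠ[𝓝 z] id := by
  classical
  have sep : ∀ u : K, u ∉ E → ∃ N, ∀ z ∈ E, ∃ i < N, z i ≠ u i := by
    intro u hu
    have : ∀ z : E, ∃ i, z.1 i ≠ u i := fun z => Function.ne_iff.1 fun h => hu (h ▸ z.2)
    choose i hi using this
    have := hE.to_subtype
    obtain ⟨N, hN⟩ := (Set.finite_range i).bddAbove
    exact ⟨N + 1, fun z hz => ⟨i ⟨z, hz⟩, Nat.lt_succ_of_le (hN ⟨_, rfl⟩), hi ⟨z, hz⟩⟩⟩
  obtain ⟨N1, h1⟩ := sep x hx
  obtain ⟨N2, h2⟩ := sep y hy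
  let r : K → (Fin (N1 + N2) → Bool) := fun z i => z i
  have hr : Continuous r := continuous_pi fun i => continuous_apply _
  let f : K → K := fun z i => if r z = r x ∨ r z = r y then xor (z i) (xor (x i) (y i)) else z i
  have hf : Function.Involutive f := by
    intro z
    by_cases h : r z = r x ∨ r z = r y
    · have : r (f z) = r x ∨ r (f z) = r y := by
        rcases h with h | h
        · right; funext i
          have h' : z i = x i := congrFun h i
          simp [r, f, h', show r z = r x from h]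
        · left; funext i
          have h' : z i = y i := congrFun h i
          simp only [r, f, h', show r z = r y from h, or_true, if_true]
          cases x i <;> cases y i <;> rfl
      funext i
      simp only [f] at this ⊢
      rw [if_pos this, if_pos h]
      cases z i <;> cases x i <;> cases y i <;> rfl
    · have : f z = z := funext fun i => if_neg h
      rw [this, this]
  have hc : Continuous f := continuous_pi fun i =>
    (continuous_of_discreteTopology (f := fun q : (Fin (N1 + N2) → Bool) × Bool =>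
      if q.1 = r x ∨ q.1 = r y then xor q.2 (xor (x i) (y i)) else q.2)).comp
      (hr.prodMk (continuous_apply i))
  refine ⟨⟨hf.toPerm, hc, hc⟩, funext fun i => by simp [f], fun z hz => ?_⟩
  have : ∀ᶠ w in 𝓝 z, r w = r z :=
    hr.continuousAt.eventually (p := fun s => s = r z) (by simp [nhds_discrete])
  filter_upwards [this] with w hw
  refine funext fun i => if_neg ?_
  rw [hw]
  rintro (h | h)
  · obtain ⟨i, hi, h'⟩ := h1 z hz
    exact h' (congrFun h ⟨i, by omega⟩)
  · obtain ⟨i, hi, h'⟩ := h2 z hz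
    exact h' (congrFun h ⟨i, by omega⟩)

lemma htrans (e : ℕ ≃ FreeGroup Bool) (n : ℕ) : ∀ a b : Fin n → K, Function.Injective a →
    Function.Injective b → (∀ i, a i ∈ ({p}ᶜ : Set K)) → (∀ i, b i ∈ ({p}ᶜ : Set K)) →
    ∃ g ∈ GG e, ∀ i, g (a i) = b i := by
  induction n with
  | zero => exact fun _ _ _ _ _ _ => ⟨1, one_mem _, fun i => i.elim0⟩
  | succ n ih =>
    intro a b ha hb haS hbS
    obtain ⟨g, hg, h⟩ := ih (fun i => a i.succ) (fun i => b i.succ) (ha.comp (Fin.succ_injective _))
      (hb.comp (Fin.succ_injective _)) (fun i => haS _) (fun i => hbS _)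
    obtain ⟨k, hk, hk'⟩ := ex_swap (insert p (Set.range fun i : Fin n => b i.succ))
      ((Set.finite_range _).insert p) (g (a 0)) (b 0) (by
        rintro (h1 | ⟨i, h1⟩)
        · exact haS 0 (g.injective (h1.trans (fix_p e hg).symm))
        · exact Fin.succ_ne_zero i (ha (g.injective ((h i).trans h1)))) (by
        rintro (h1 | ⟨i, h1⟩)
        · exact hbS 0 h1
        · exact Fin.succ_ne_zero i (hb h1))
    refine ⟨k * g, mul_mem ⟨1, by rw [map_one]; exact hk' p (Or.inl rfl)⟩ hg, fun i => ?_⟩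
    show k (g (a i)) = b i
    refine Fin.cases hk (fun i => ?_) i
    rw [h i]
    exact (hk' _ (Or.inr ⟨i, rfl⟩)).eq_of_nhds

/-- The negation of the preceding statement: If G is the topological full group of a group of homeomorphisms of the Cantor set and G acts highly transitively on a dense invariant set, then every bounded real cocycle of positive degree on G is the coboundary of a bounded cochain. -/
theorem result :
    ¬ (∀ (Γ G : Subgroup ((ℕ → Bool) ≃ₜ (ℕ → Bool))) (S : Set (ℕ → Bool)),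
      (∀ g : (ℕ → Bool) ≃ₜ (ℕ → Bool), g ∈ G ↔
          ∀ x : ℕ → Bool, ∃ U : Set (ℕ → Bool), IsClopen U ∧ x ∈ U ∧
            ∃ γ ∈ Γ, ∀ y ∈ U, g y = γ y) →
      Dense S →
      (∀ g ∈ G, ∀ x ∈ S, g x ∈ S) →
      (∀ (n : ℕ) (a b : Fin n → (ℕ → Bool)), Function.Injective a → Function.Injective b →
          (∀ i, a i ∈ S) → (∀ i, b i ∈ S) → ∃ g ∈ G, ∀ i, g (a i) = b i) →
      ∀ (n : ℕ) (f : (Fin (n + 1) → G) → ℝ), (∃ C : ℝ, ∀ x, |f x| ≤ C) →
        (∀ g : Fin (n + 1 + 1) → G,
            f (fun i => g i.succ) +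
              ∑ j : Fin (n + 1 + 1), (-1 : ℝ) ^ (j.val + 1) *
                f (Fin.contractNth j (fun a b => a * b) g) = 0) →
        ∃ h : (Fin n → G) → ℝ, (∃ C : ℝ, ∀ x, |h x| ≤ C) ∧
          ∀ g : Fin (n + 1) → G,
            h (fun i => g i.succ) +
              ∑ j : Fin (n + 1), (-1 : ℝ) ^ (j.val + 1) *
                h (Fin.contractNth j (fun a b => a * b) g) = f g) := by
  intro H
  obtain ⟨e⟩ : Nonempty (ℕ ≃ FreeGroup Bool) := nonempty_equiv_of_countable
  let Q : GG e → ℝ := fun g => psi (gm e g)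
  obtain ⟨h, ⟨C, hC⟩, hh⟩ := H (GG e) (GG e) {p}ᶜ
    (fun g => ⟨fun hg x => ⟨Set.univ, isClopen_univ, trivial, g, hg, fun _ _ => rfl⟩, fun hg => by
      obtain ⟨U, hU, hp, γ, ⟨a, ha⟩, h⟩ := hg p
      refine ⟨a, EventuallyEq.trans ?_ ha⟩
      filter_upwards [hU.isOpen.mem_nhds hp] with z hz using h z hz⟩)
    dense_p
    (fun g hg x hx h => hx (g.injective (Eq.trans h (fix_p e hg).symm)))
    (htrans e) 1 (fun g => Q (g 1) - Q (g 0 * g 1) + Q (g 0))
    ⟨3, fun g => by
      have := psi_mul' (gm e (g 0)) (gm e (g 1))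
      simp only [Q, gm_mul]
      exact_mod_cast this⟩
    (fun g => by
      simp [Fin.sum_univ_succ, Fin.contractNth, mul_assoc]
      ring)
  refine no_hom (fun γ => psi γ - h (fun _ => TG e γ)) (fun a b => ?_) C fun γ => by simpa using hC _
  have := hh ![TG e a, TG e b]
  simp only [Fin.sum_univ_succ, Q, Matrix.cons_val_one, Matrix.cons_val_zero, ← TG_mul, gm_TG,
    Matrix.cons_val_fin_one] at this
  have e1 : (fun i : Fin 1 => ![TG e a, TG e b] i.succ) = fun _ => TG e b := by
    funext i; fin_cases i; rfl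
  have e2 : Fin.contractNth (0 : Fin 2) (fun a b => a * b) ![TG e a, TG e b] =
      fun _ => TG e (a * b) := by
    funext i; fin_cases i; simp [Fin.contractNth, TG_mul]
  have e3 : Fin.contractNth (Fin.succ 0 : Fin 2) (fun a b => a * b) ![TG e a, TG e b] =
      fun _ => TG e a := by
    funext i; fin_cases i; simp [Fin.contractNth]
  rw [e1, e2, e3] at this
  simp at this
  linarith

end Pool.Agent.S03650
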