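import Pool.Statements.S03678


set_option autoImplicit false
open Pool Pool.MP_01e6d0_an

namespace Pool.Agent.S03678

open scoped InnerProductSpace

section abstract

variable {H : Type} [NormedAddCommGroup H] [InnerProductSpace ℝ H] (ev : H →ₗ[ℝ] ℝ)

lemma peak (hp : ∀ η : ℝ, 0 < η → ∃ p : H, ev p = 1 ∧ ‖p‖ ≤ η) (K : Submodule ℝ H)
    [FiniteDimensional ℝ K] (η : ℝ) (hη : 0 < η) : ∃ p : H, ev p = 1 ∧ p ∈ Kᗮ ∧ ‖p‖ ≤ η := by
  obtain ⟨C, hC0, hC⟩ := (LinearMap.toContinuousLinearMap (ev.comp K.subtype)).bound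
  obtain ⟨p, hp1, hp2⟩ := hp (min (η / 2) (1 / (2 * C))) (by positivity)
  have h1 : ‖K.starProjection p‖ ≤ ‖p‖ := K.norm_starProjection_apply_le p
  have h2 : |ev (K.starProjection p)| ≤ 1 / 2 := by
    have := hC ⟨K.starProjection p, K.starProjection_apply_mem p⟩
    refine le_trans this ?_
    have h3 : ‖K.starProjection p‖ ≤ 1 / (2 * C) := h1.trans (hp2.trans (min_le_right _ _))
    calc _ ≤ C * (1 / (2 * C)) := mul_le_mul_of_nonneg_left h3 hC0.le
      _ = 1 / 2 := by field_simp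
  have h3 : ‖p - K.starProjection p‖ ≤ ‖p‖ := by
    rw [← Submodule.starProjection_orthogonal_val]
    exact Kᗮ.norm_starProjection_apply_le p
  have h4 : 1 / 2 ≤ ev (p - K.starProjection p) := by
    rw [map_sub, hp1]
    linarith [le_abs_self (ev (K.starProjection p))]
  refine ⟨(ev (p - K.starProjection p))⁻¹ • (p - K.starProjection p), ?_,
    Submodule.smul_mem _ _ (K.sub_starProjection_mem_orthogonal p), ?_⟩
  · rw [map_smul, smul_eq_mul, inv_mul_cancel₀ (by linarith)]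
  · rw [norm_smul, Real.norm_of_nonneg (inv_nonneg.2 (by linarith)),
      inv_mul_le_iff₀ (by linarith)]
    have := hp2.trans (min_le_left _ _)
    nlinarith

lemma flat (hp : ∀ η : ℝ, 0 < η → ∃ p : H, ev p = 1 ∧ ‖p‖ ≤ η) (K : Submodule ℝ H)
    [FiniteDimensional ℝ K] : ∃ q : H, ev q = 0 ∧ q ∈ Kᗮ ∧ q ≠ 0 := by
  obtain ⟨p, h1, h2, -⟩ := peak ev hp K 1 one_pos
  obtain ⟨p', h3, h4, -⟩ := peak ev hp (K ⊔ ℝ ∙ p) 1 one_pos
  have h5 : p' ∈ Kᗮ := Submodule.orthogonal_le le_sup_left h4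
  have h6 : ⟪p, p'⟫_ℝ = 0 :=
    h4 p (Submodule.mem_sup_right (Submodule.mem_span_singleton_self p))
  refine ⟨p - p', by rw [map_sub, h1, h3, sub_self], Submodule.sub_mem _ h2 h5, fun h => ?_⟩
  rw [← sub_eq_zero.1 h, inner_self_eq_zero] at h6
  rw [h6, map_zero] at h1
  exact zero_ne_one h1

lemma step (hp : ∀ η : ℝ, 0 < η → ∃ p : H, ev p = 1 ∧ ‖p‖ ≤ η) (N : H → ℝ)
    (hN : ∀ (t : ℝ) (q : H), N (t • q) = |t| * N q) (hN0 : ∀ q, 0 ≤ N q) (f : H)
    (K : Submodule ℝ H) [FiniteDimensional ℝ K] (g : H) (ε : ℝ) (hε : 0 < ε) :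
    ∃ v w : H, v ≠ 0 ∧ w ≠ 0 ∧ ev v = 0 ∧ ⟪f, w⟫_ℝ = 0 ∧ ⟪v, w⟫_ℝ = 0 ∧ v ∈ Kᗮ ∧ w ∈ Kᗮ ∧
      ∃ u ∈ K, ∃ a b : ℝ, N (g - (u + a • v + b • w)) < ε := by
  set g' := g - K.starProjection g with hg'
  have hg1 : g' ∈ Kᗮ := K.sub_starProjection_mem_orthogonal g
  obtain ⟨q, q1, q2, q3⟩ := flat ev hp ((K ⊔ ℝ ∙ f) ⊔ ℝ ∙ g')
  have hq : 0 < ‖q‖ := norm_pos_iff.2 q3
  set a := ev g' with ha
  have hNq := hN0 q
  set δ : ℝ := ε / (2 * |a| * N q + 1) with hδ
  have hδ0 : 0 < δ := by positivity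
  obtain ⟨p, p1, p2, p3⟩ := peak ev hp (((K ⊔ ℝ ∙ f) ⊔ ℝ ∙ g') ⊔ ℝ ∙ q) (δ * ‖q‖) (by positivity)
  have p4 : p ∈ ((K ⊔ ℝ ∙ f) ⊔ ℝ ∙ g')ᗮ := Submodule.orthogonal_le le_sup_left p2
  have p5 : ⟪q, p⟫_ℝ = 0 := p2 q (Submodule.mem_sup_right (Submodule.mem_span_singleton_self q))
  set w := p + δ • q with hw
  have w1 : w ∈ ((K ⊔ ℝ ∙ f) ⊔ ℝ ∙ g')ᗮ := Submodule.add_mem _ p4 (Submodule.smul_mem _ _ q2)
  have w2 : w ∈ Kᗮ := Submodule.orthogonal_le (le_sup_left.trans le_sup_left) w1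
  have w3 : ⟪f, w⟫_ℝ = 0 := w1 f (Submodule.mem_sup_left
    (Submodule.mem_sup_right (Submodule.mem_span_singleton_self f)))
  have w4 : ⟪g', w⟫_ℝ = 0 := w1 g' (Submodule.mem_sup_right (Submodule.mem_span_singleton_self _))
  have w5 : ev w = 1 := by rw [hw, map_add, map_smul, p1, q1]; simp
  have w6 : w ≠ 0 := fun h => by rw [h, map_zero] at w5; exact zero_ne_one w5
  have w7 : ⟪q, w⟫_ℝ = δ * ‖q‖ ^ 2 := by
    rw [hw, inner_add_right, p5, inner_smul_right, real_inner_self_eq_norm_sq]; ring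
  have w8 : ⟪w, w⟫_ℝ = ‖p‖ ^ 2 + δ ^ 2 * ‖q‖ ^ 2 := by
    conv_lhs => rw [hw, inner_add_left, real_inner_smul_left, ← hw, w7, hw, inner_add_right,
      real_inner_smul_right, real_inner_comm q p, p5, real_inner_self_eq_norm_sq]
    ring
  set t : ℝ := a * ⟪w, w⟫_ℝ / (δ * ‖q‖ ^ 2) with ht
  set v := g' - a • w + t • q with hv
  have v1 : ev v = 0 := by
    rw [hv, map_add, map_sub, map_smul, map_smul, w5, q1]; simp [ha]
  have v2 : ⟪v, w⟫_ℝ = 0 := by
    rw [hv, inner_add_left, inner_sub_left, w4, real_inner_smul_left, real_inner_smul_left, w7, ht]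
    field_simp
    ring
  have v3 : v ∈ Kᗮ := Submodule.add_mem _ (Submodule.sub_mem _ hg1 (Submodule.smul_mem _ _ w2))
    (Submodule.smul_mem _ _ (Submodule.orthogonal_le (le_sup_left.trans le_sup_left) q2))
  have hest : N (g - (K.starProjection g + v + a • w)) < ε := by
    have e : g - (K.starProjection g + v + a • w) = (-t) • q := by
      rw [hv, hg']; module
    rw [e, hN, abs_neg]
    have h1 : |t| ≤ 2 * |a| * δ := by
      rw [ht, w8, abs_div, abs_mul, abs_of_pos (by positivity : 0 < δ * ‖q‖ ^ 2),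
        abs_of_nonneg (by positivity : 0 ≤ ‖p‖ ^ 2 + δ ^ 2 * ‖q‖ ^ 2), div_le_iff₀ (by positivity)]
      have h2 : ‖p‖ ^ 2 ≤ (δ * ‖q‖) ^ 2 := pow_le_pow_left₀ (norm_nonneg _) p3 2
      have h3 := mul_le_mul_of_nonneg_left h2 (abs_nonneg a)
      nlinarith
    have h2 : δ * (2 * |a| * N q + 1) = ε := by rw [hδ]; field_simp
    have h3 := mul_le_mul_of_nonneg_right h1 hNq
    nlinarith
  by_cases hv0 : v = 0
  · obtain ⟨v', h1, h2, h3⟩ := flat ev hp (K ⊔ ℝ ∙ w)
    refine ⟨v', w, h3, w6, h1, w3, ?_, Submodule.orthogonal_le le_sup_left h2, w2,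
      K.starProjection g, K.starProjection_apply_mem g, 0, a, ?_⟩
    · rw [real_inner_comm]
      exact h2 w (Submodule.mem_sup_right (Submodule.mem_span_singleton_self _))
    · rw [hv0] at hest
      simpa using hest
  · exact ⟨v, w, hv0, w6, v1, w3, v2, v3, w2, K.starProjection g, K.starProjection_apply_mem g,
      1, a, by simpa using hest⟩

lemma srec {α : Type} (R : (n : ℕ) → (Fin n → α) → α → Prop) (h : ∀ n prev, ∃ y, R n prev y) :
    ∃ a : ℕ → α, ∀ n, R n (fun i => a i) (a n) := by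
  choose F hF using h
  let a : ℕ → α := fun n => Nat.strongRecOn n (fun n ih => F n (fun i => ih i i.2))
  refine ⟨a, fun n => ?_⟩
  have : a n = F n (fun i => a i) := by
    simp only [a]
    rw [Nat.strongRecOn_eq]
  rw [this]
  exact hF n _

lemma system (hp : ∀ η : ℝ, 0 < η → ∃ p : H, ev p = 1 ∧ ‖p‖ ≤ η) (N : H → ℝ)
    (hN : ∀ (t : ℝ) (q : H), N (t • q) = |t| * N q) (hN0 : ∀ q, 0 ≤ N q) (f : H) (d : ℕ → H) :
    ∃ φ : ℕ → H, (∀ n, φ n ≠ 0) ∧ (∀ m n, m ≠ n → ⟪φ m, φ n⟫_ℝ = 0) ∧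
      (∀ n, ev (φ n) = 0 ∨ ⟪f, φ n⟫_ℝ = 0) ∧
      ∀ (k : ℕ) (ε : ℝ), 0 < ε → ∃ u ∈ Submodule.span ℝ (Set.range φ), N (d k - u) < ε := by
  obtain ⟨A, hA⟩ := srec (α := H × H) (fun n prev y =>
    y.1 ≠ 0 ∧ y.2 ≠ 0 ∧ ev y.1 = 0 ∧ ⟪f, y.2⟫_ℝ = 0 ∧ ⟪y.1, y.2⟫_ℝ = 0 ∧
      y.1 ∈ (Submodule.span ℝ (Set.range (fun i => (prev i).1) ∪ Set.range (fun i => (prev i).2)))ᗮ ∧
      y.2 ∈ (Submodule.span ℝ (Set.range (fun i => (prev i).1) ∪ Set.range (fun i => (prev i).2)))ᗮ ∧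
      ∃ u ∈ Submodule.span ℝ (Set.range (fun i => (prev i).1) ∪ Set.range (fun i => (prev i).2)),
        ∃ a b : ℝ, N (d n.unpair.1 - (u + a • y.1 + b • y.2)) < 1 / ((n.unpair.2 : ℝ) + 1))
    (fun n prev => by
      haveI := FiniteDimensional.span_of_finite ℝ
        ((Set.finite_range (fun i => (prev i).1)).union (Set.finite_range (fun i => (prev i).2)))
      obtain ⟨v, w, h⟩ := step ev hp N hN hN0 f (Submodule.span ℝ
        (Set.range (fun i => (prev i).1) ∪ Set.range (fun i => (prev i).2))) (d n.unpair.1)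
        (1 / ((n.unpair.2 : ℝ) + 1)) (by positivity)
      exact ⟨(v, w), h⟩)
  let φ : ℕ → H := fun n => if n % 2 = 0 then (A (n / 2)).1 else (A (n / 2)).2
  have e1 : ∀ k, φ (2 * k) = (A k).1 := fun k => by simp [φ]
  have e2 : ∀ k, φ (2 * k + 1) = (A k).2 := fun k => by
    have : (2 * k + 1) / 2 = k := by omega
    simp [φ, this]
  have hlt : ∀ m n, m < n → ⟪φ m, φ n⟫_ℝ = 0 := by
    intro m n hmn
    obtain ⟨-, -, -, -, h5, h6, h7, -⟩ := hA (n / 2)
    rcases lt_or_ge (m / 2) (n / 2) with h | h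
    · have hm : φ m ∈ Submodule.span ℝ (Set.range (fun i : Fin (n / 2) => (A i).1) ∪
          Set.range (fun i : Fin (n / 2) => (A i).2)) := by
        apply Submodule.subset_span
        simp only [φ]
        split_ifs
        · exact Or.inl ⟨⟨m / 2, h⟩, rfl⟩
        · exact Or.inr ⟨⟨m / 2, h⟩, rfl⟩
      by_cases h2 : n % 2 = 0
      · rw [show φ n = (A (n / 2)).1 from if_pos h2]
        exact h6 _ hm
      · rw [show φ n = (A (n / 2)).2 from if_neg h2]
        exact h7 _ hm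
    · have h1 : m = 2 * (n / 2) := by omega
      have h2 : n = 2 * (n / 2) + 1 := by omega
      rw [h1, e1]
      conv_lhs => rw [h2, e2, show (2 * (n / 2) + 1) / 2 = n / 2 by omega]
      exact h5
  refine ⟨φ, fun n => ?_, fun m n hmn => ?_, fun n => ?_, fun k ε hε => ?_⟩
  · simp only [φ]
    split_ifs
    · exact (hA _).1
    · exact (hA _).2.1
  · rcases lt_or_gt_of_ne hmn with h | h
    · exact hlt m n h
    · rw [real_inner_comm]; exact hlt n m h
  · simp only [φ]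
    split_ifs
    · exact Or.inl (hA _).2.2.1
    · exact Or.inr (hA _).2.2.2.1
  · obtain ⟨j, hj⟩ := exists_nat_one_div_lt hε
    obtain ⟨-, -, -, -, -, -, -, u, hu, a, b, h⟩ := hA (Nat.pair k j)
    rw [Nat.unpair_pair] at h
    refine ⟨_, ?_, h.trans hj⟩
    refine Submodule.add_mem _ (Submodule.add_mem _ ?_ (Submodule.smul_mem _ _
      (Submodule.subset_span ⟨_, e1 _⟩))) (Submodule.smul_mem _ _ (Submodule.subset_span ⟨_, e2 _⟩))
    refine Submodule.span_mono ?_ hu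
    rintro _ (⟨i, rfl⟩ | ⟨i, rfl⟩)
    · exact ⟨_, e1 _⟩
    · exact ⟨_, e2 _⟩

end abstract

abbrev E : Type := C(Set.Icc (0 : ℝ) 1, ℝ)

noncomputable def ex (g : E) : ℝ → ℝ := Set.IccExtend zero_le_one g

lemma ex_cont (g : E) : Continuous (ex g) := g.continuous.Icc_extend'

lemma ex_mem (g : E) {t : ℝ} (ht : t ∈ Set.Icc (0 : ℝ) 1) : ex g t = g ⟨t, ht⟩ :=
  Set.IccExtend_of_mem _ _ ht

def H : Type := E

instance : AddCommGroup H := inferInstanceAs (AddCommGroup E)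
instance : Module ℝ H := inferInstanceAs (Module ℝ E)

noncomputable def ip (g h : E) : ℝ := ∫ t in (0 : ℝ)..1, ex g t * ex h t

@[instance_reducible] noncomputable def core : InnerProductSpace.Core ℝ H where
  inner g h := ip g h
  conj_inner_symm g h := by simp [ip, mul_comm]
  re_inner_nonneg g := intervalIntegral.integral_nonneg zero_le_one (fun t _ => mul_self_nonneg _)
  add_left g h k := by
    unfold ip
    rw [← intervalIntegral.integral_add (((ex_cont g).fun_mul (ex_cont k)).intervalIntegrable _ _)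
      (((ex_cont h).fun_mul (ex_cont k)).intervalIntegrable _ _)]
    congr 1
    ext t
    exact add_mul _ _ _
  smul_left g h r := by
    unfold ip
    rw [conj_trivial, ← intervalIntegral.integral_const_mul]
    congr 1
    ext t
    exact mul_assoc _ _ _
  definite g hg := by
    by_contra hne
    obtain ⟨x, hx⟩ : ∃ x, (show E from g) x ≠ 0 := by
      by_contra h
      push Not at h
      exact hne (ContinuousMap.ext h)
    have := intervalIntegral.integral_pos (f := fun t => ex g t * ex g t) zero_lt_one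
      ((ex_cont g).mul (ex_cont g)).continuousOn (fun t _ => mul_self_nonneg _)
      ⟨x, x.2, by rw [ex_mem g x.2]; exact mul_self_pos.2 hx⟩
    exact this.ne' hg

noncomputable instance : NormedAddCommGroup H :=
  @InnerProductSpace.Core.toNormedAddCommGroup ℝ H _ _ _ core

noncomputable instance : InnerProductSpace ℝ H := InnerProductSpace.ofCore core.toCore

lemma inner_def (g h : H) : ⟪g, h⟫_ℝ = ip g h := rfl

def ev : H →ₗ[ℝ] ℝ where
  toFun g := (show E from g) ⟨1, zero_le_one, le_rfl⟩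
  map_add' _ _ := rfl
  map_smul' _ _ := rfl

lemma peaks (η : ℝ) (hη : 0 < η) : ∃ p : H, ev p = 1 ∧ ‖p‖ ≤ η := by
  obtain ⟨n, hn⟩ := exists_nat_one_div_lt (show 0 < η ^ 2 by positivity)
  let p : E := ⟨fun x => (x : ℝ) ^ n, by fun_prop⟩
  refine ⟨p, one_pow n, ?_⟩
  rw [← sq_le_sq₀ (norm_nonneg _) hη.le, ← real_inner_self_eq_norm_sq, inner_def]
  have : ip p p = ∫ t in (0 : ℝ)..1, t ^ (n + n) := by
    refine intervalIntegral.integral_congr (fun t ht => ?_)
    rw [Set.uIcc_of_le zero_le_one] at ht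
    simp only [ex_mem p ht, pow_add]
    rfl
  rw [this, integral_pow]
  refine le_trans ?_ hn.le
  simp only [one_pow, ne_eq, Nat.add_eq_zero_iff, one_ne_zero, and_false, not_false_eq_true,
    zero_pow, sub_zero]
  apply one_div_le_one_div_of_le (by positivity)
  push_cast
  linarith [Nat.cast_nonneg (α := ℝ) n]


/-- The negation of the preceding statement: For every system of nonzero continuous functions on [0,1] that is L²-orthogonal and uniformly dense in C[0,1], each continuous f is a uniform limit of finite combinations of those φ_n with nonzero Fourier coefficient of f. -/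
theorem result :
    ¬ (∀ φ : ℕ → ℝ → ℝ,
      (∀ n, ContinuousOn (φ n) (Set.Icc (0:ℝ) 1)) →
      (∀ n, ∃ t ∈ Set.Icc (0:ℝ) 1, φ n t ≠ 0) →
      (∀ m n : ℕ, m ≠ n → ∫ t in (0:ℝ)..1, φ m t * φ n t = 0) →
      (∀ g : ℝ → ℝ, ContinuousOn g (Set.Icc (0:ℝ) 1) → ∀ ε : ℝ, ε > 0 →
        ∃ s : Finset ℕ, ∃ c : ℕ → ℝ,
          ∀ t ∈ Set.Icc (0:ℝ) 1, |g t - ∑ i ∈ s, c i * φ i t| < ε) →
      ∀ f : ℝ → ℝ, ContinuousOn f (Set.Icc (0:ℝ) 1) → ∀ ε : ℝ, ε > 0 →
        ∃ s : Finset ℕ, (∀ i ∈ s, ∫ t in (0:ℝ)..1, f t * φ i t ≠ 0) ∧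
          ∃ c : ℕ → ℝ, ∀ t ∈ Set.Icc (0:ℝ) 1, |f t - ∑ i ∈ s, c i * φ i t| < ε) := by
  intro h
  obtain ⟨φ, h1, h2, h3, h4⟩ := system ev peaks (fun g => ‖(show E from g)‖)
    (fun t q => norm_smul t (show E from q)) (fun q => norm_nonneg (show E from q))
    (show E from 1) (TopologicalSpace.denseSeq E)
  obtain ⟨s, hs, c, hc⟩ := h (fun n => ex (φ n)) (fun n => (ex_cont _).continuousOn)
    (fun n => by
      by_contra hh
      push Not at hh
      refine h1 n (ContinuousMap.ext (fun x => ?_))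
      have := hh x x.2
      rw [ex_mem _ x.2] at this
      exact this) h2 (fun g hg ε hε => by
      let g' : E := ⟨_, hg.restrict⟩
      obtain ⟨k, hk⟩ := (TopologicalSpace.denseRange_denseSeq E).exists_dist_lt g'
        (show 0 < ε / 2 by positivity)
      obtain ⟨u, hu, hu2⟩ := h4 k (ε / 2) (by positivity)
      obtain ⟨c, rfl⟩ := Finsupp.mem_span_range_iff_exists_finsupp.1 hu
      refine ⟨c.support, c, fun t ht => ?_⟩
      have e : ∑ i ∈ c.support, c i * ex (φ i) t =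
          (show E from c.sum (fun i a => a • φ i)) ⟨t, ht⟩ := by
        change _ = (∑ i ∈ c.support, c i • (show E from φ i)) ⟨t, ht⟩
        rw [ContinuousMap.sum_apply]
        refine Finset.sum_congr rfl (fun i _ => ?_)
        rw [ex_mem _ ht]
        rfl
      rw [e]
      have h5 := ContinuousMap.norm_coe_le_norm
        (g' - (show E from c.sum (fun i a => a • φ i))) ⟨t, ht⟩
      have h6 := dist_triangle g' (TopologicalSpace.denseSeq E k)
        (show E from c.sum (fun i a => a • φ i))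
      rw [dist_eq_norm g' (show E from c.sum (fun i a => a • φ i)),
        dist_eq_norm (TopologicalSpace.denseSeq E k)] at h6
      have h7 : ‖TopologicalSpace.denseSeq E k - (show E from c.sum (fun i a => a • φ i))‖
        < ε / 2 := hu2
      exact lt_of_le_of_lt h5 (by linarith))
    (fun _ => 1) continuousOn_const 1 one_pos
  have h5 := hc 1 ⟨zero_le_one, le_rfl⟩
  rw [Finset.sum_eq_zero (fun i hi => ?_)] at h5
  · simp at h5
  · rcases h3 i with h6 | h6
    · rw [ex_mem _ ⟨zero_le_one, le_rfl⟩]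
      exact mul_eq_zero_of_right _ h6
    · exact absurd h6 (hs i hi)

end Pool.Agent.S03678
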