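import Pool.Statements.S03752
import Pool.Agent.H5.BallCover2

set_option autoImplicit false
open Pool Pool.MP_097dd0_an

namespace Pool.Agent.S03752

/-- The negation of the preceding statement: There is a family of closed balls of positive radius in the Hilbert space of square-summable real families indexed by ℝ that covers the whole space, with each point lying in only finitely many balls. -/
theorem result :
    ¬ (∃ S : Set (lp (fun _ : ℝ => ℝ) (2 : ENNReal) × ℝ),
      (∀ p ∈ S, 0 < p.2) ∧
      (∀ x : lp (fun _ : ℝ => ℝ) (2 : ENNReal), ∃ p ∈ S, x ∈ Metric.closedBall p.1 p.2) ∧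
      (∀ x : lp (fun _ : ℝ => ℝ) (2 : ENNReal),
        {p ∈ S | x ∈ Metric.closedBall p.1 p.2}.Finite)) := by
  rintro ⟨S, h1, h2, h3⟩
  have hH : ¬ FiniteDimensional ℝ (lp (fun _ : ℝ => ℝ) (2 : ENNReal)) := by
    intro h
    exact Module.Finite.not_linearIndependent_of_infinite _
      (default : HilbertBasis ℝ ℝ (lp (fun _ : ℝ => ℝ) (2 : ENNReal))).orthonormal.linearIndependent
  refine Pool.Agent.H5.BallCover.no_cover hH (ι := S) (fun k => k.1.1) (fun k => k.1.2)
    (fun k => h1 k.1 k.2) (fun x => ?_) (fun x => ?_)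
  · obtain ⟨p, hp, hx⟩ := h2 x
    exact ⟨⟨p, hp⟩, by simpa [dist_eq_norm] using hx⟩
  · refine ((h3 x).preimage (f := (Subtype.val : S → _))
      Subtype.val_injective.injOn).subset fun k hk => ?_
    exact ⟨k.2, by simpa [dist_eq_norm] using hk⟩

end Pool.Agent.S03752
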