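import Pool.Statements.S03759

set_option autoImplicit false
open Pool Pool.MP_09f91e_an

namespace Pool.Agent.S03759

abbrev Mat := Matrix (Fin 3) (Fin 3) ℝ

noncomputable def comb (A B : List (ℝ × ℝ × Mat)) (t : ℝ) (EA EB : Mat) : List (ℝ × ℝ × Mat) :=
  A.map (fun p => (t * p.1, p.2.1, p.2.2 * EA)) ++ B.map (fun p => ((1 - t) * p.1, p.2.1, p.2.2 * EB))

noncomputable def a1 : Mat := !![1 / 51, 0, 0; 0, 1, 0; 0, 0, 1]
noncomputable def b1 : Mat := !![101 / 51, 0, 0; 0, 1, 0; 0, 0, 1]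
noncomputable def a2 : Mat := !![26 / 51, 25 / 51, 0; 25 / 51, 26 / 51, 0; 0, 0, 1]
noncomputable def b2 : Mat := !![76 / 51, -25 / 51, 0; -25 / 51, 76 / 51, 0; 0, 0, 1]
noncomputable def a3 : Mat := !![57 / 32, 75 / 32, 0; -25 / 64, -11 / 64, 0; 0, 0, 1]
noncomputable def b3 : Mat := !![263 / 288, -25 / 96, 0; 25 / 576, 217 / 192, 0; 0, 0, 1]

noncomputable def LA : List (ℝ × ℝ × Mat) := comb [(1, 101, 1)] [(1, 1, 1)] (1 / 2) a1 b1
noncomputable def LB : List (ℝ × ℝ × Mat) := comb [(1, 101, 1)] [(1, 1, 1)] (1 / 2) a2 b2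

lemma sA : (LA.map (fun p => (p.1 * p.2.1) • p.2.2)).sum =
    !![101 / 51, 0, 0; 0, 51, 0; 0, 0, 51] := by
  ext i j
  fin_cases i <;> fin_cases j <;> simp [LA, comb, a1, b1] <;> norm_num

lemma sB : (LB.map (fun p => (p.1 * p.2.1) • p.2.2)).sum =
    !![1351 / 51, 1250 / 51, 0; 1250 / 51, 1351 / 51, 0; 0, 0, 51] := by
  ext i j
  fin_cases i <;> fin_cases j <;> simp [LB, comb, a2, b2] <;> norm_num

/-- There are two positive isotropic conductivities and a 3D multiple rank laminate of them whose normalized field matrix has cofactor trace strictly positive on one cell and strictly negative on another. -/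
theorem result :
    ∃ s1 s2 : ℝ, 0 < s1 ∧ 0 < s2 ∧
    ∃ L : List (ℝ × ℝ × Matrix (Fin 3) (Fin 3) ℝ),
      (∀ P : List (ℝ × ℝ × Matrix (Fin 3) (Fin 3) ℝ) → Prop,
        P [((1 : ℝ), s1, (1 : Matrix (Fin 3) (Fin 3) ℝ))] →
        P [((1 : ℝ), s2, (1 : Matrix (Fin 3) (Fin 3) ℝ))] →
        (∀ A B : List (ℝ × ℝ × Matrix (Fin 3) (Fin 3) ℝ), P A → P B →
          ∀ t : ℝ, 0 < t → t < 1 →
          ∀ n : Fin 3 → ℝ, n ≠ 0 →
          ∀ EA EB : Matrix (Fin 3) (Fin 3) ℝ,
            t • EA + (1 - t) • EB = 1 →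
            (∃ c : Fin 3 → ℝ, EA - EB = Matrix.vecMulVec n c) →
            Matrix.vecMul n
              ((A.map (fun p => (p.1 * p.2.1) • p.2.2)).sum * EA
                - (B.map (fun p => (p.1 * p.2.1) • p.2.2)).sum * EB) = 0 →
            P (A.map (fun p => (t * p.1, p.2.1, p.2.2 * EA))
                ++ B.map (fun p => ((1 - t) * p.1, p.2.1, p.2.2 * EB)))) →
        P L) ∧
      ∃ a ∈ L, ∃ b ∈ L,
        0 < (Matrix.adjugate a.2.2).trace ∧ (Matrix.adjugate b.2.2).trace < 0 := by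
  refine ⟨1, 101, by norm_num, by norm_num, comb LA LB (1 / 10) a3 b3, ?_, ?_⟩
  · intro P h1 h2 hs
    have hA : P LA := by
      refine hs _ _ h2 h1 (1 / 2) (by norm_num) (by norm_num) ![1, 0, 0] ?_ a1 b1 ?_
        ⟨![-100 / 51, 0, 0], ?_⟩ ?_
      · intro h; simpa using congrFun h 0
      · ext i j
        fin_cases i <;> fin_cases j <;> simp [a1, b1] <;> norm_num
      · ext i j
        fin_cases i <;> fin_cases j <;> simp [a1, b1, Matrix.vecMulVec] <;> norm_num
      · ext j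
        fin_cases j <;> simp [a1, b1, Matrix.vecMul, dotProduct, Fin.sum_univ_three] <;> norm_num
    have hB : P LB := by
      refine hs _ _ h2 h1 (1 / 2) (by norm_num) (by norm_num) ![1, -1, 0] ?_ a2 b2 ?_
        ⟨![-50 / 51, 50 / 51, 0], ?_⟩ ?_
      · intro h; simpa using congrFun h 0
      · ext i j
        fin_cases i <;> fin_cases j <;> simp [a2, b2] <;> norm_num
      · ext i j
        fin_cases i <;> fin_cases j <;> simp [a2, b2, Matrix.vecMulVec] <;> norm_num
      · ext j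
        fin_cases j <;> simp [a2, b2, Matrix.vecMul, dotProduct, Fin.sum_univ_three] <;> norm_num
    refine hs _ _ hA hB (1 / 10) (by norm_num) (by norm_num) ![2, -1, 0] ?_ a3 b3 ?_
        ⟨![125 / 288, 125 / 96, 0], ?_⟩ ?_
    · intro h; simpa using congrFun h 0
    · ext i j
      fin_cases i <;> fin_cases j <;> simp [a3, b3] <;> norm_num
    · ext i j
      fin_cases i <;> fin_cases j <;> simp [a3, b3, Matrix.vecMulVec] <;> norm_num
    · rw [sA, sB]
      ext j
      fin_cases j <;> simp [a3, b3, Matrix.vecMul, dotProduct, Fin.sum_univ_three] <;> norm_num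
  · refine ⟨(1 / 10 * ((1 - 1 / 2) * 1), 1, 1 * b1 * a3), by simp [comb, LA],
      (1 / 10 * (1 / 2 * 1), 101, 1 * a1 * a3), by simp [comb, LA], ?_, ?_⟩
    · simp [b1, a3, Matrix.adjugate_fin_three, Matrix.trace_fin_three]
      norm_num
    · simp [a1, a3, Matrix.adjugate_fin_three, Matrix.trace_fin_three]
      norm_num

end Pool.Agent.S03759
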