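import Pool.Statements.S03774
import Pool.Agent.H28.DimCount

set_option autoImplicit false
open Matrix
open Pool Pool.MP_0ac5c2_an

namespace Pool.Agent.S03774

open Pool.Agent.H28.DimCount

theorem eig_peak {n : ℕ} (H : Fin n → Fin n → ℝ) (ε : ℝ) (hH : ∀ a b, |H a b| ≤ 2 * ε)
    (x : Fin n → ℂ) (hx : x ≠ 0) (a : ℂ)
    (h : (diagonal (fun a : Fin n => ((a : ℕ) : ℂ)) + Matrix.of (fun a b => Complex.I * (H a b : ℂ))) *ᵥ x
      = a • x) :
    ∃ i, 0 < ‖x i‖ ∧ (∀ k, ‖x k‖ ≤ ‖x i‖) ∧ ∀ k, k ≠ i → ‖x k‖ ≤ 4 * n * ε * ‖x i‖ := by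
  obtain ⟨k0, hk0⟩ := Function.ne_iff.1 hx
  haveI : Nonempty (Fin n) := ⟨k0⟩
  obtain ⟨i, hi⟩ := Finite.exists_max (fun k => ‖x k‖)
  have hr : 0 < ‖x i‖ := lt_of_lt_of_le (norm_pos_iff.2 hk0) (hi k0)
  have hε : 0 ≤ ε := by have := (abs_nonneg _).trans (hH i i); linarith
  have key : ∀ k : Fin n, ‖((k : ℕ) : ℂ) - a‖ * ‖x k‖ ≤ 2 * n * ε * ‖x i‖ := by
    intro k
    have h1 := congrFun h k
    rw [add_mulVec, Pi.add_apply, mulVec_diagonal] at h1
    simp only [mulVec, dotProduct, of_apply, Pi.smul_apply, smul_eq_mul] at h1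
    have h2 : (((k : ℕ) : ℂ) - a) * x k = -∑ l, Complex.I * (H k l : ℂ) * x l := by
      linear_combination h1
    rw [← norm_mul, h2, norm_neg]
    refine (norm_sum_le _ _).trans ?_
    calc ∑ l, ‖Complex.I * (H k l : ℂ) * x l‖ ≤ ∑ _l : Fin n, 2 * ε * ‖x i‖ := by
          refine Finset.sum_le_sum (fun l _ => ?_)
          rw [norm_mul, norm_mul, Complex.norm_I, one_mul, Complex.norm_real, Real.norm_eq_abs]
          exact mul_le_mul (hH k l) (hi l) (norm_nonneg _) (by linarith)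
      _ = 2 * n * ε * ‖x i‖ := by simp; ring
  refine ⟨i, hr, hi, fun k hk => ?_⟩
  have h1 : ‖((i : ℕ) : ℂ) - a‖ ≤ 2 * n * ε := le_of_mul_le_mul_right (key i) hr
  have h2 : (1 : ℝ) ≤ ‖((k : ℕ) : ℂ) - ((i : ℕ) : ℂ)‖ := by
    have e : ((k : ℕ) : ℂ) - ((i : ℕ) : ℂ) = ((((k : ℕ) : ℤ) - ((i : ℕ) : ℤ) : ℤ) : ℂ) := by push_cast; ring
    rw [e, Complex.norm_intCast]
    have : ((k : ℕ) : ℤ) - ((i : ℕ) : ℤ) ≠ 0 := by
      intro h0; apply hk; ext; omega
    exact_mod_cast Int.one_le_abs this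
  have h3 : ‖((k : ℕ) : ℂ) - ((i : ℕ) : ℂ)‖ ≤ ‖((k : ℕ) : ℂ) - a‖ + ‖((i : ℕ) : ℂ) - a‖ := by
    have e : ((k : ℕ) : ℂ) - ((i : ℕ) : ℂ) = (((k : ℕ) : ℂ) - a) - (((i : ℕ) : ℂ) - a) := by ring
    rw [e]; exact norm_sub_le _ _
  have h4 := key k
  have h5 := hi k
  have h6 : 0 ≤ 2 * n * ε := by positivity
  have h7 := norm_nonneg (x k)
  have h8 : ‖x k‖ ≤ (‖((k : ℕ) : ℂ) - a‖ + 2 * n * ε) * ‖x k‖ := by nlinarith
  nlinarith

theorem no_orth (m : ℕ) [NeZero m] (y : Fin m × Fin m → ℝ) (ε : ℝ) (hε : 0 < ε)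
    (hsmall : 8 * ((m + m : ℕ) : ℝ) ^ 3 * ε < 1) (hy : ∀ b, ε ^ 2 < y b ∧ y b < 4 * ε ^ 2) :
    ¬ ∃ x z : Fin (m + m) → ℂ, ∃ a b : ℂ, x ≠ 0 ∧ z ≠ 0 ∧
          AA m y *ᵥ x = a • x ∧ AA m y *ᵥ z = b • z ∧ star x ⬝ᵥ z = 0 := by
  rintro ⟨x, z, a, b, hx, hz, hxa, hzb, horth⟩
  have hlo : ∀ k l, ε ≤ HH m y k l := fun k l => Real.le_sqrt_of_sq_le (hy _).1.le
  have hup : ∀ k l, |HH m y k l| ≤ 2 * ε := fun k l => by
    rw [abs_of_nonneg (hε.le.trans (hlo k l))]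
    unfold HH
    apply Real.sqrt_le_iff.2 ⟨by positivity, ?_⟩
    nlinarith [(hy (Fin.ofNat m (min (k : ℕ) l), Fin.ofNat m (max (k : ℕ) l))).2]
  obtain ⟨i, hi0, hi1, hi2⟩ := eig_peak (HH m y) ε hup x hx a hxa
  obtain ⟨j, hj0, hj1, hj2⟩ := eig_peak (HH m y) ε hup z hz b hzb
  have e1 : star x ⬝ᵥ (AA m y *ᵥ z) = 0 := by rw [hzb, dotProduct_smul, horth, smul_zero]
  have e2 : star x ⬝ᵥ ((AA m y)ᴴ *ᵥ z) = 0 := by
    rw [dotProduct_mulVec, ← star_mulVec, hxa, star_smul, smul_dotProduct, horth, smul_zero]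
  have e3 : star x ⬝ᵥ ((AA m y - (AA m y)ᴴ) *ᵥ z) = 0 := by
    rw [sub_mulVec, dotProduct_sub, e1, e2, sub_zero]
  rw [AA_sub] at e3
  simp only [mulVec, dotProduct, of_apply, Finset.mul_sum, Pi.star_apply] at e3
  rw [← Finset.sum_product', Finset.univ_product_univ,
    ← Finset.add_sum_erase _ _ (Finset.mem_univ (i, j))] at e3
  set N : ℝ := ((m + m : ℕ) : ℝ) with hN
  have hN0 : 0 ≤ N := by positivity
  have hterm : ∀ k l, ‖star (x k) * (2 * Complex.I * (HH m y k l : ℂ) * z l)‖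
      = 2 * |HH m y k l| * (‖x k‖ * ‖z l‖) := by
    intro k l
    simp only [norm_mul, norm_star, Complex.norm_I, Complex.norm_real, Real.norm_eq_abs,
      Complex.norm_ofNat]
    ring
  have hmain : 2 * ε * (‖x i‖ * ‖z j‖) ≤ ‖star (x i) * (2 * Complex.I * (HH m y i j : ℂ) * z j)‖ := by
    rw [hterm]
    have := (hlo i j).trans (le_abs_self _)
    gcongr
  have hrest : ‖∑ p ∈ (Finset.univ : Finset (Fin (m + m) × Fin (m + m))).erase (i, j),
      star (x p.1) * (2 * Complex.I * (HH m y p.1 p.2 : ℂ) * z p.2)‖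
      ≤ N ^ 2 * (2 * (2 * ε) * (4 * N * ε * (‖x i‖ * ‖z j‖))) := by
    refine (norm_sum_le _ _).trans ?_
    refine (Finset.sum_le_card_nsmul _ _ (2 * (2 * ε) * (4 * N * ε * (‖x i‖ * ‖z j‖))) ?_).trans ?_
    · intro p hp
      rw [hterm]
      have hp' := (Finset.mem_erase.1 hp).1
      have hb : ‖x p.1‖ * ‖z p.2‖ ≤ 4 * N * ε * (‖x i‖ * ‖z j‖) := by
        by_cases h1 : p.1 = i
        · have h2 : p.2 ≠ j := fun h2 => hp' (Prod.ext h1 h2)
          calc ‖x p.1‖ * ‖z p.2‖ ≤ ‖x i‖ * (4 * N * ε * ‖z j‖) :=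
                mul_le_mul (hi1 _) (hj2 _ h2) (norm_nonneg _) (norm_nonneg _)
            _ = _ := by ring
        · calc ‖x p.1‖ * ‖z p.2‖ ≤ (4 * N * ε * ‖x i‖) * ‖z j‖ :=
                mul_le_mul (hi2 _ h1) (hj1 _) (norm_nonneg _) (by positivity)
            _ = _ := by ring
      have := hup p.1 p.2
      gcongr
    · rw [nsmul_eq_mul]
      have hc : (((Finset.univ : Finset (Fin (m + m) × Fin (m + m))).erase (i, j)).card : ℝ) ≤ N ^ 2 := by
        have := Finset.card_erase_le (s := (Finset.univ : Finset (Fin (m + m) × Fin (m + m)))) (a := (i, j))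
        rw [Finset.card_univ, Fintype.card_prod, Fintype.card_fin] at this
        rw [hN, sq]
        exact_mod_cast this
      gcongr
  rw [eq_neg_of_add_eq_zero_left e3, norm_neg] at hmain
  have hpos : 0 < ε * (‖x i‖ * ‖z j‖) := by positivity
  have := hmain.trans hrest
  nlinarith

/-- the Krylov matrix -/
noncomputable def kry {n : ℕ} (T : Matrix (Fin n) (Fin n) ℂ) (k : Fin n → ℂ) :
    Matrix (Fin n) (Fin n) ℂ := Matrix.of (fun i j => ((T ^ (j : ℕ)) *ᵥ k) i)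

open ComplexOrder in
theorem kry_det {n : ℕ} (T : Matrix (Fin n) (Fin n) ℂ) (k : Fin n → ℂ)
    (h1 : 1 - T * Tᴴ = Matrix.vecMulVec k (star k))
    (h2 : ∀ μ : ℂ, ∀ x : Fin n → ℂ, x ≠ 0 → T *ᵥ x = μ • x → ‖μ‖ < 1) : (kry T k).det ≠ 0 := by
  intro hdet
  obtain ⟨w0, hw0, hw⟩ := Matrix.exists_vecMul_eq_zero_iff.2 hdet
  obtain ⟨i0, -⟩ := Function.ne_iff.1 hw0
  haveI : Nonempty (Fin n) := ⟨i0⟩
  have hlt : ∀ j < n, w0 ⬝ᵥ ((T ^ j) *ᵥ k) = 0 := fun j hj => congrFun hw ⟨j, hj⟩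
  have hall : ∀ j, w0 ⬝ᵥ ((T ^ j) *ᵥ k) = 0 := by
    intro j
    rw [Matrix.pow_eq_aeval_mod_charpoly]
    have hd : (Polynomial.X ^ j %ₘ T.charpoly).natDegree < n := by
      have h3 := Polynomial.natDegree_modByMonic_lt (Polynomial.X ^ j : Polynomial ℂ) T.charpoly_monic
        (by
          intro h
          have := congrArg Polynomial.natDegree h
          rw [Matrix.charpoly_natDegree_eq_dim] at this
          simp at this
          have := i0.2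
          omega)
      rwa [Matrix.charpoly_natDegree_eq_dim, Fintype.card_fin] at h3
    rw [Polynomial.aeval_eq_sum_range' hd, Matrix.sum_mulVec, dotProduct_sum]
    refine Finset.sum_eq_zero (fun l hl => ?_)
    rw [Matrix.smul_mulVec, dotProduct_smul, hlt l (Finset.mem_range.1 hl), smul_zero]
  let W : Submodule ℂ (Fin n → ℂ) :=
    { carrier := {w | ∀ j, w ⬝ᵥ ((T ^ j) *ᵥ k) = 0}
      add_mem' := fun {a b} ha hb j => by rw [add_dotProduct, ha j, hb j, add_zero]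
      zero_mem' := fun j => by simp
      smul_mem' := fun c a ha j => by rw [smul_dotProduct, ha j, smul_zero] }
  have hinv : ∀ w ∈ W, Matrix.toLin' Tᵀ w ∈ W := by
    intro w hw j
    rw [Matrix.toLin'_apply, mulVec_transpose, ← dotProduct_mulVec, mulVec_mulVec, ← pow_succ']
    exact hw _
  haveI : Nontrivial W := ⟨⟨⟨w0, hall⟩, 0, fun h => hw0 (congrArg Subtype.val h)⟩⟩
  obtain ⟨μ, hμ⟩ := Module.End.exists_eigenvalue ((Matrix.toLin' Tᵀ).restrict hinv)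
  obtain ⟨w, hw⟩ := hμ.exists_hasEigenvector
  have hw1 : (w : Fin n → ℂ) ≠ 0 := fun h => hw.2 (Subtype.ext h)
  have hw2 : (w : Fin n → ℂ) ᵥ* T = μ • (w : Fin n → ℂ) := by
    have := congrArg Subtype.val hw.apply_eq_smul
    rw [LinearMap.restrict_coe_apply, Matrix.toLin'_apply, mulVec_transpose] at this
    exact this
  have hw3 : (w : Fin n → ℂ) ⬝ᵥ k = 0 := by simpa using w.2 0
  generalize (w : Fin n → ℂ) = v at hw1 hw2 hw3
  have hdet2 : (T - μ • (1 : Matrix (Fin n) (Fin n) ℂ)).det = 0 := by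
    apply Matrix.exists_vecMul_eq_zero_iff.1
    refine ⟨v, hw1, ?_⟩
    rw [vecMul_sub, hw2, vecMul_smul, vecMul_one, sub_self]
  obtain ⟨x, hx, hx2⟩ := Matrix.exists_mulVec_eq_zero_iff.2 hdet2
  have hlt1 := h2 μ x hx (by
    rw [sub_mulVec, smul_mulVec, one_mulVec] at hx2
    exact sub_eq_zero.1 hx2)
  have e1 : v ⬝ᵥ ((1 - T * Tᴴ) *ᵥ star v) = 0 := by
    rw [h1, dotProduct_mulVec, vecMul_vecMulVec, hw3, zero_smul, zero_dotProduct]
  rw [sub_mulVec, one_mulVec, dotProduct_sub, ← mulVec_mulVec, dotProduct_mulVec, hw2,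
    ← star_vecMul, hw2, star_smul, smul_dotProduct, dotProduct_smul] at e1
  have e2 : v ⬝ᵥ star v ≠ 0 := fun h => hw1 (dotProduct_self_star_eq_zero.1 h)
  have e3 : μ * star μ = 1 := by
    apply mul_right_cancel₀ e2
    simp only [smul_eq_mul] at e1
    linear_combination -e1
  have e4 := congrArg norm e3
  rw [norm_mul, norm_star, norm_one] at e4
  nlinarith [norm_nonneg μ]

/-- the nilpotent shift -/
noncomputable def sh (n : ℕ) : Matrix (Fin n) (Fin n) ℂ :=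
  Matrix.of (fun a b => if (a : ℕ) = b + 1 then 1 else 0)

theorem sh_pow (n : ℕ) : sh n ^ n = 0 := by
  have : ∀ j : ℕ, ∀ a b : Fin n, (a : ℕ) < b + j → (sh n ^ j) a b = 0 := by
    intro j
    induction j with
    | zero =>
      intro a b h
      rw [pow_zero, Matrix.one_apply_ne]
      intro h'; subst h'; omega
    | succ j ih =>
      intro a b h
      rw [pow_succ', Matrix.mul_apply]
      refine Finset.sum_eq_zero (fun c _ => ?_)
      by_cases hc : (a : ℕ) = c + 1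
      · rw [ih c b (by omega), mul_zero]
      · simp [sh, hc]
  ext a b
  exact this n a b (by have := a.2; omega)

theorem kry_shift {n : ℕ} (T : Matrix (Fin n) (Fin n) ℂ) (k : Fin n → ℂ) :
    T * kry T k = kry T k * sh n
      + vecMulVec ((T ^ n) *ᵥ k) (fun b : Fin n => if (b : ℕ) + 1 = n then 1 else 0) := by
  ext a b
  have e1 : (T * kry T k) a b = ((T ^ ((b : ℕ) + 1)) *ᵥ k) a := by
    rw [pow_succ', ← mulVec_mulVec]
    rfl
  rw [e1, Matrix.add_apply, vecMulVec_apply, Matrix.mul_apply]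
  by_cases h : (b : ℕ) + 1 = n
  · rw [if_pos h, h, mul_one, Finset.sum_eq_zero, zero_add]
    intro c _
    have : (c : ℕ) ≠ b + 1 := by have := c.2; omega
    simp [sh, this]
  · have hb : (b : ℕ) + 1 < n := by have := b.2; omega
    rw [if_neg h, mul_zero, add_zero, Finset.sum_eq_single ⟨b + 1, hb⟩]
    · simp [sh, kry]
    · intro c _ hc
      have : (c : ℕ) ≠ b + 1 := fun h' => hc (Fin.ext h')
      simp [sh, this]
    · simp

/-- matrices of displacement rank at most four -/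
noncomputable def disp {n : ℕ} (f g : Fin 4 → Fin n → ℂ) : Matrix (Fin n) (Fin n) ℂ :=
  ∑ j ∈ Finset.range n, sh n ^ j * (∑ l, vecMulVec (f l) (g l)) * (sh n)ᴴ ^ j

theorem disp_ex {n : ℕ} (T K Ki M : Matrix (Fin n) (Fin n) ℂ) (h1 : Ki * K = 1) (h2 : K * Ki = 1)
    (g e a b c d : Fin n → ℂ) (hTK : T * K = K * sh n + vecMulVec g e)
    (hM : M - T * M * Tᴴ = vecMulVec a b + vecMulVec c d) :
    ∃ f g : Fin 4 → Fin n → ℂ, Ki * M * Kiᴴ = disp f g := by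
  set X := Ki * M * Kiᴴ with hX
  set C := Ki * T * K with hC
  have hC2 : C = sh n + vecMulVec (Ki *ᵥ g) e := by
    rw [hC, Matrix.mul_assoc, hTK, Matrix.mul_add, ← Matrix.mul_assoc, h1, Matrix.one_mul,
      mul_vecMulVec]
  have h2' : Kiᴴ * Kᴴ = 1 := by rw [← conjTranspose_mul, h2, conjTranspose_one]
  have e1 : C * X * Cᴴ = Ki * (T * M * Tᴴ) * Kiᴴ := by
    calc C * X * Cᴴ = Ki * T * (K * Ki) * M * (Kiᴴ * Kᴴ) * Tᴴ * Kiᴴ := by
          simp only [hC, hX, conjTranspose_mul, Matrix.mul_assoc]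
      _ = _ := by rw [h2, h2']; simp only [Matrix.mul_one, Matrix.mul_assoc, Matrix.one_mul]
  have e2 : X - C * X * Cᴴ = vecMulVec (Ki *ᵥ a) (b ᵥ* Kiᴴ) + vecMulVec (Ki *ᵥ c) (d ᵥ* Kiᴴ) := by
    rw [e1, hX, ← Matrix.sub_mul, ← Matrix.mul_sub, hM, Matrix.mul_add, Matrix.add_mul,
      mul_vecMulVec, mul_vecMulVec, vecMulVec_mul, vecMulVec_mul]
  have e3 : C * X * Cᴴ = sh n * X * (sh n)ᴴ + vecMulVec ((sh n * X) *ᵥ star e) (star (Ki *ᵥ g))
      + vecMulVec (Ki *ᵥ g) (e ᵥ* (X * Cᴴ)) := by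
    rw [← mul_vecMulVec, ← conjTranspose_vecMulVec, ← Matrix.mul_add, ← conjTranspose_add, ← hC2,
      ← vecMulVec_mul, Matrix.mul_assoc (sh n), ← Matrix.add_mul, ← hC2, Matrix.mul_assoc]
  refine ⟨![Ki *ᵥ a, Ki *ᵥ c, (sh n * X) *ᵥ star e, Ki *ᵥ g],
    ![b ᵥ* Kiᴴ, d ᵥ* Kiᴴ, star (Ki *ᵥ g), e ᵥ* (X * Cᴴ)], ?_⟩
  have e4 : (∑ l, vecMulVec (![Ki *ᵥ a, Ki *ᵥ c, (sh n * X) *ᵥ star e, Ki *ᵥ g] l)
      (![b ᵥ* Kiᴴ, d ᵥ* Kiᴴ, star (Ki *ᵥ g), e ᵥ* (X * Cᴴ)] l)) = X - sh n * X * (sh n)ᴴ := by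
    rw [Fin.sum_univ_four]
    simp only [Matrix.cons_val_zero, Matrix.cons_val_one, Matrix.cons_val]
    rw [← e2, e3]
    abel
  unfold disp
  rw [e4]
  have e5 : ∀ j : ℕ, sh n ^ j * (X - sh n * X * (sh n)ᴴ) * (sh n)ᴴ ^ j
      = sh n ^ j * X * (sh n)ᴴ ^ j - sh n ^ (j + 1) * X * (sh n)ᴴ ^ (j + 1) := by
    intro j
    rw [Matrix.mul_sub, Matrix.sub_mul, pow_succ, pow_succ']
    simp only [Matrix.mul_assoc]
  simp only [e5]
  rw [Finset.sum_range_sub' (fun j => sh n ^ j * X * (sh n)ᴴ ^ j), sh_pow]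
  simp

theorem disp_sm {n : ℕ} (o : Bool) : Sm (fun x : ((Bool × Bool × Fin 4) × Fin n) → ℂ =>
    disp (fun l i => x ((o, false, l), i)) (fun l i => x ((o, true, l), i))) := by
  unfold disp
  refine Sm.sum _ (fun j => ((Sm.const _).mul (Sm.sum _ (fun l => ?_))).mul (Sm.const _))
  intro a b
  simp only [vecMulVec_apply]
  exact (contDiff_apply ℝ ℂ _).mul (contDiff_apply ℝ ℂ _)

theorem par_ex {n : ℕ} (f0 g0 f1 g1 : Fin 4 → Fin n → ℂ) :
    ∃ x : ((Bool × Bool × Fin 4) × Fin n) → ℂ, (fun l i => x ((false, false, l), i)) = f0 ∧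
      (fun l i => x ((false, true, l), i)) = g0 ∧ (fun l i => x ((true, false, l), i)) = f1 ∧
      (fun l i => x ((true, true, l), i)) = g1 :=
  ⟨fun z => (cond z.1.1 (cond z.1.2.1 g1 f1) (cond z.1.2.1 g0 f0)) z.1.2.2 z.2, rfl, rfl, rfl, rfl⟩


/-- The negation of the preceding statement: For n at least 4, every complex symmetric n×n matrix with no two orthogonal nonzero eigenvectors is unitarily equivalent to a truncated Toeplitz operator, encoded via the compressed-shift model and Sarason's rank-two criterion M − TMT* = u⊗k + k⊗v. -/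
theorem result :
    ¬ (∀ n : ℕ, 4 ≤ n → ∀ M : Matrix (Fin n) (Fin n) ℂ, Mᵀ = M →
      (¬ ∃ x y : Fin n → ℂ, ∃ a b : ℂ, x ≠ 0 ∧ y ≠ 0 ∧
          M *ᵥ x = a • x ∧ M *ᵥ y = b • y ∧ star x ⬝ᵥ y = 0) →
      ∃ T : Matrix (Fin n) (Fin n) ℂ, ∃ k u v : Fin n → ℂ,
        1 - T * Tᴴ = Matrix.vecMulVec k (star k) ∧
        (∀ μ : ℂ, ∀ x : Fin n → ℂ, x ≠ 0 → T *ᵥ x = μ • x → ‖μ‖ < 1) ∧
        M - T * M * Tᴴ = Matrix.vecMulVec u (star k) + Matrix.vecMulVec k (star v)) := by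
  intro H
  obtain ⟨ε, hε, hsmall⟩ : ∃ ε : ℝ, 0 < ε ∧ 8 * ((70 + 70 : ℕ) : ℝ) ^ 3 * ε < 1 :=
    ⟨1 / 10 ^ 9, by norm_num, by norm_num⟩
  refine dim_obstruction (α := Unit) (κ := Fin (70 + 70))
    (fun _ => Fin (70 + 70)) (fun _ => rfl)
    (fun _ => (Bool × Bool × Fin 4) × Fin (70 + 70))
    (fun _ x => disp (fun l i => x ((false, false, l), i)) (fun l i => x ((false, true, l), i)))
    (fun _ x => disp (fun l i => x ((true, false, l), i)) (fun l i => x ((true, true, l), i)))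
    (fun _ => disp_sm _) (fun _ => disp_sm _)
    (β := Fin 70 × Fin 70) (fun b => LL (Fin.castAdd 70 b.1)) (fun b => LL (Fin.natAdd 70 b.2)) ?_
    (fun b => -4 * cc (Fin.castAdd 70 b.1) * cc (Fin.natAdd 70 b.2)) ?_
    (Set.pi Set.univ (fun _ => Set.Ioo (ε ^ 2) (4 * ε ^ 2))) (fun _ => 2 * ε ^ 2) ?_
    (fun y => AA 70 y) ?_ ?_
  · intro a
    simp only [Fintype.card_prod, Fintype.card_fin, Fintype.card_bool]
    norm_num
  · intro b
    exact mul_ne_zero (mul_ne_zero (by norm_num) (cc_ne _)) (cc_ne _)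
  · have : 0 < ε ^ 2 := by positivity
    exact set_pi_mem_nhds Set.finite_univ (fun _ _ => Ioo_mem_nhds (by linarith) (by linarith))
  · intro y hy b
    rw [tinv_AA 70 y (fun b => le_trans (sq_nonneg ε) (hy b trivial).1.le) b.1 b.2,
      Complex.ofReal_re]
  · intro y hy
    obtain ⟨T, k, u, v, h1, h2, h3⟩ := H (70 + 70) (by norm_num) (AA 70 y) (AA_transpose 70 y)
      (no_orth 70 y ε hε hsmall (fun b => hy b trivial))
    have hdet := kry_det T k h1 h2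
    have hu : IsUnit (kry T k).det := isUnit_iff_ne_zero.2 hdet
    have i1 := Matrix.nonsing_inv_mul _ hu
    have i2 := Matrix.mul_nonsing_inv _ hu
    obtain ⟨f0, g0, e0⟩ := disp_ex T _ _ 1 i1 i2 _ _ k (star k) 0 0 (kry_shift T k) (by simpa using h1)
    obtain ⟨f1, g1, e1⟩ := disp_ex T _ _ (AA 70 y) i1 i2 _ _ _ _ _ _ (kry_shift T k) h3
    obtain ⟨x, x0, x1, x2, x3⟩ := par_ex f0 g0 f1 g1
    rw [Matrix.mul_one] at e0
    refine ⟨(), x, ((kry T k)⁻¹)ᴴ, ?_, ?_, ?_⟩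
    · simp only [x0, x1]
      rw [← e0]
      have : (kry T k)⁻¹ * ((kry T k)⁻¹)ᴴ * ((kry T k)ᴴ * kry T k) = 1 := by
        rw [Matrix.mul_assoc, ← Matrix.mul_assoc _ _ (kry T k), ← conjTranspose_mul, i2,
          conjTranspose_one, Matrix.one_mul, i1]
      intro h0
      have h5 := congrArg Matrix.det this
      rw [Matrix.det_mul, h0, zero_mul, Matrix.det_one] at h5
      exact zero_ne_one h5
    · simp only [x0, x1]
      rw [conjTranspose_conjTranspose, e0]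
    · simp only [x2, x3]
      rw [conjTranspose_conjTranspose, e1]

end Pool.Agent.S03774
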