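import Pool.Statements.S03785
import Pool.Agent.H27.BisymC

set_option autoImplicit false
open Pool Pool.MP_0bc80f_an

namespace Pool.Agent.S03785

/-- For a<b and n≥2, every map F from [a,b]^n to [a,b] that is reflexive, bisymmetric and strictly increasing in each variable (not assumed symmetric) is continuous. -/
theorem result :
    ∀ (a b : ℝ), a < b → ∀ (n : ℕ), 2 ≤ n →
      ∀ F : (Fin n → Set.Icc a b) → Set.Icc a b,
        (∀ x : Set.Icc a b, F (fun _ => x) = x) →
        (∀ M : Fin n → Fin n → Set.Icc a b,
            F (fun i => F (M i)) = F (fun j => F (fun i => M i j))) →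
        (∀ (x : Fin n → Set.Icc a b) (i : Fin n),
            StrictMono (fun t : Set.Icc a b => F (Function.update x i t))) →
        Continuous F := by
  intro a b hab n hn F h1 h2 h3
  exact Pool.Agent.H27.Bisym.nary hab hn F h1 h2 h3

end Pool.Agent.S03785
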