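import Pool.Statements.S03845
import Pool.Agent.H1.AtomA

set_option autoImplicit false
open Filter Topology
open Pool Pool.MP_10e324_an

namespace Pool.Agent.S03845

/-- A non-constant analytic map α on the unit disk has the property every analytic f such that α has the L-property on each sequence tending to the boundary where f has it factors as φ∘α with φ analytic on α(disk) exactly when α is injective on the disk. -/
theorem result :
    ∀ α : ℂ → ℂ, AnalyticOnNhd ℂ α (Metric.ball (0:ℂ) 1) →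
      (∃ a ∈ Metric.ball (0:ℂ) 1, ∃ b ∈ Metric.ball (0:ℂ) 1, α a ≠ α b) →
      ((∀ f : ℂ → ℂ, AnalyticOnNhd ℂ f (Metric.ball (0:ℂ) 1) →
          (∀ z : ℕ → ℂ, (∀ n, z n ∈ Metric.ball (0:ℂ) 1) →
            Tendsto (fun n => ‖z n‖) atTop (𝓝 1) →
            (∀ K : Set ℂ, K ⊆ f '' Metric.ball (0:ℂ) 1 → IsCompact K →
              {n : ℕ | f (z n) ∈ K}.Finite) →
            (∀ K : Set ℂ, K ⊆ α '' Metric.ball (0:ℂ) 1 → IsCompact K →
              {n : ℕ | α (z n) ∈ K}.Finite)) →
          ∃ φ : ℂ → ℂ, AnalyticOnNhd ℂ φ (α '' Metric.ball (0:ℂ) 1) ∧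
            ∀ w ∈ Metric.ball (0:ℂ) 1, f w = φ (α w))
        ↔ Set.InjOn α (Metric.ball (0:ℂ) 1)) := by
  intro α hα hn
  refine ⟨fun H x hx y hy hxy => ?_, fun hi f hf _ => ?_⟩
  · obtain ⟨χ, hχ, hu⟩ := Pool.Agent.H1.Atom.chi hα hn
    have hβ : AnalyticOnNhd ℂ (fun z => χ (α z)) (Metric.ball 0 1) :=
      hχ.comp hα (Set.mapsTo_image _ _)
    obtain ⟨E, hE, hs⟩ := Pool.Agent.H1.Atom.surj hβ hu
    obtain ⟨φ, -, hφ⟩ := H (fun z => E (χ (α z)) + z)
      (fun z hz => ((hE.analyticAt _).comp (hβ z hz)).add analyticAt_id) (fun z hz _ h K hK hc => by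
        obtain ⟨M, hM⟩ := hc.exists_bound_of_continuousOn
          (hE.continuous.comp_continuousOn (hχ.continuousOn.mono hK))
        refine (h (Metric.closedBall 0 (M + 1)) (fun t _ => hs t)
          (isCompact_closedBall _ _)).subset fun n hn => mem_closedBall_zero_iff.2 ?_
        exact (norm_add_le _ _).trans (add_le_add (hM _ hn) (mem_ball_zero_iff.1 (hz n)).le))
    have := (hφ x hx).trans (hxy ▸ (hφ y hy).symm)
    rwa [hxy, add_right_inj] at this
  · have h := Pool.Agent.H1.Atom.inv_an Metric.isOpen_ball (convex_ball 0 1).isPreconnected hα hn hi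
    refine ⟨fun w => f (Function.invFunOn α (Metric.ball 0 1) w),
      hf.comp h fun w hw => Function.invFunOn_mem hw, fun w hw => ?_⟩
    simp only [hi.leftInvOn_invFunOn hw]

end Pool.Agent.S03845
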