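import Pool.Statements.S03851
import Pool.Agent.H28.FHC

set_option autoImplicit false
open Pool Pool.MP_115f17_an

namespace Pool.Agent.S03851

open Pool.Agent.H28.FHC Filter Topology

noncomputable def w : X := mix (mk0 u u_tend) 0

lemma w_odd (n : ℕ) (h : Nat.log 2 n % 2 ≠ 0) : w n = 0 := by
  unfold w
  rw [mix_ne _ _ _ h]
  simp

lemma iter (k : ℕ) (x : X) : (⇑T)^[k] x = (T ^ k) x := by
  induction k with
  | zero => rfl
  | succ k ih => rw [Function.iterate_succ_apply', ih, pow_succ']; rfl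


/-- Some bounded operator on a real or complex Banach space has a frequently hypercyclic vector x and a nonempty open U such that no subset of the visit set of x in U has a natural density that exists and is positive. -/
theorem result :
    ∃ (𝕜 : Type) (_ : RCLike 𝕜) (X : Type) (_ : NormedAddCommGroup X)
      (_ : NormedSpace 𝕜 X) (_ : CompleteSpace X) (T : X →L[𝕜] X) (x : X),
      (∀ U : Set X, IsOpen U → U.Nonempty →
        ∃ δ : ℝ, 0 < δ ∧ ∀ᶠ n : ℕ in Filter.atTop,
          δ * (n : ℝ) ≤ (({k : ℕ | k < n ∧ (⇑T)^[k] x ∈ U}.ncard : ℕ) : ℝ)) ∧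
      ∃ U : Set X, IsOpen U ∧ U.Nonempty ∧
        ∀ A : Set ℕ, A ⊆ {k : ℕ | (⇑T)^[k] x ∈ U} →
          ¬ ∃ d : ℝ, 0 < d ∧
            Filter.Tendsto
              (fun n : ℕ => (({k : ℕ | k < n ∧ k ∈ A}.ncard : ℕ) : ℝ) / (n : ℝ))
              Filter.atTop (nhds d) := by
  refine ⟨ℝ, inferInstance, X, inferInstance, inferInstance, inferInstance, T, w, ?_,
    {x : X | 0 < x 0}, ?_, ?_, ?_⟩
  · simp only [iter]
    exact fhc w 0 (by norm_num) (mix_eq _ 0)
  · refine isOpen_lt continuous_const ?_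
    refine (LipschitzWith.of_dist_le_mul (K := 1) (fun x y => ?_)).continuous
    rw [Real.dist_eq, dist_eq_norm]
    simpa using abs_le_norm (x - y) 0
  · exact ⟨mk0 (fun k => 1 / ((k : ℝ) + 1)) tendsto_one_div_add_atTop_nhds_zero_nat, by simp⟩
  · rintro A hA ⟨d, hd, h⟩
    have hs : ∀ j : ℕ, {k : ℕ | k < 2 ^ (2 * j + 2) ∧ k ∈ A} = {k : ℕ | k < 2 ^ (2 * j + 1) ∧ k ∈ A} := by
      intro j
      ext k
      constructor
      · rintro ⟨h1, h2⟩
        refine ⟨?_, h2⟩
        by_contra h3
        have h4 : Nat.log 2 k = 2 * j + 1 :=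
          Nat.log_eq_of_pow_le_of_lt_pow (not_lt.1 h3) h1
        have h5 := hA h2
        simp only [Set.mem_setOf_eq, iter, T_pow, add_zero] at h5
        rw [w_odd k (by omega)] at h5
        simp at h5
      · rintro ⟨h1, h2⟩
        exact ⟨h1.trans_le (Nat.pow_le_pow_right (by norm_num) (by omega)), h2⟩
    have t1 : Tendsto (fun j : ℕ => 2 ^ (2 * j + 1)) atTop atTop :=
      tendsto_atTop_mono (fun j => ((by omega : j ≤ 2 * j + 1).trans Nat.lt_two_pow_self.le))
        tendsto_id
    have t2 : Tendsto (fun j : ℕ => 2 ^ (2 * j + 2)) atTop atTop :=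
      tendsto_atTop_mono (fun j => ((by omega : j ≤ 2 * j + 2).trans Nat.lt_two_pow_self.le))
        tendsto_id
    have h1 := (h.comp t1).div_const 2
    have h2 := h.comp t2
    have h3 : d = d / 2 := by
      refine tendsto_nhds_unique h2 (h1.congr (fun j => ?_))
      simp only [Function.comp, hs j]
      push_cast
      rw [div_div, ← pow_succ]
    linarith

end Pool.Agent.S03851
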