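import Pool.Statements.S03896

set_option autoImplicit false
open Polynomial
open Pool Pool.MP_15266c_an

namespace Pool.Agent.S03896

noncomputable def PP : ℂ[X] := (X + 1) ^ 7 * (X - 1) * (45 * X ^ 2 - 45 * X + 14)

noncomputable def QQ : ℂ[X] := C (8 / 7) * (X ^ 2 - 1)

lemma PP_deg : PP.natDegree = 10 := by
  unfold PP
  compute_degree!

lemma QQ_deg : QQ.natDegree = 2 := by
  unfold QQ
  compute_degree!

lemma PP_der : derivative PP =
    C 450 * ((X - C (-1)) ^ 6 * ((X - C (3 / 10)) * ((X - C (1 / 3)) * (X - C (13 / 15))))) := by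
  apply Polynomial.funext
  intro z
  unfold PP
  simp [derivative_pow]
  ring

lemma roots_der : (derivative PP).roots =
    6 • ({-1} : Multiset ℂ) + ({3 / 10} + ({1 / 3} + {13 / 15})) := by
  rw [PP_der, roots_C_mul _ (by norm_num), roots_mul, roots_mul, roots_mul, roots_pow,
    roots_X_sub_C, roots_X_sub_C, roots_X_sub_C, roots_X_sub_C]
  · exact mul_ne_zero (X_sub_C_ne_zero _) (X_sub_C_ne_zero _)
  · exact mul_ne_zero (X_sub_C_ne_zero _) (mul_ne_zero (X_sub_C_ne_zero _) (X_sub_C_ne_zero _))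
  · exact mul_ne_zero (pow_ne_zero _ (X_sub_C_ne_zero _))
      (mul_ne_zero (X_sub_C_ne_zero _) (mul_ne_zero (X_sub_C_ne_zero _) (X_sub_C_ne_zero _)))

lemma QQ_eval (z : ℂ) : QQ.eval z = 8 / 7 * (z ^ 2 - 1) := by
  unfold QQ
  simp

lemma zeros_in (z : ℂ) (hz : z ∈ PP.roots) : ‖QQ.eval z‖ ≤ 1 := by
  have h := (mem_roots'.1 hz).2
  rw [IsRoot.def] at h
  unfold PP at h
  simp only [eval_mul, eval_pow, eval_add, eval_sub, eval_X, eval_one, eval_ofNat,
    mul_eq_zero] at h
  rw [QQ_eval]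
  rcases h with (h | h) | h
  · have : z = -1 := by
      have := pow_eq_zero_iff (n := 7) (by norm_num) |>.1 h
      linear_combination this
    rw [this]; norm_num
  · have : z = 1 := by linear_combination h
    rw [this]; norm_num
  · have e : 8 / 7 * (z ^ 2 - 1) = 8 / 7 * (z - 59 / 45) := by linear_combination (8 / 315) * h
    have h1 := congrArg Complex.re h
    have h2 := congrArg Complex.im h
    simp [pow_two] at h1 h2
    have h3 : z.im * (2 * z.re - 1) = 0 := by linarith
    have h4 : z.re = 1 / 2 := by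
      rcases mul_eq_zero.1 h3 with h5 | h5
      · rw [h5] at h1
        nlinarith [sq_nonneg (z.re - 1 / 2)]
      · linarith
    have h5 : z.im * z.im = 11 / 180 := by
      rw [h4] at h1
      linarith
    rw [e, ← sq_le_one_iff₀ (norm_nonneg _), Complex.sq_norm, Complex.normSq_apply]
    simp
    rw [h4]
    nlinarith

/-- The negation of the preceding statement: For complex polynomials Q of degree m ≥ 1 and P of degree n > m with Q dividing P and all zeros of P in {∣Q∣ ≤ 1}, the derivative P′ has at least n − m zeros (with multiplicity) in {∣Q∣ ≤ 1}. -/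
theorem result :
    ¬ (∀ (P Q : Polynomial ℂ), 1 ≤ Q.natDegree → Q.natDegree < P.natDegree → Q ∣ P →
      (∀ z ∈ P.roots, ‖Q.eval z‖ ≤ 1) →
      P.natDegree - Q.natDegree ≤
        (Multiset.filter (fun z => ‖Q.eval z‖ ≤ 1) (Polynomial.derivative P).roots).card) := by
  intro h
  have hd : QQ ∣ PP := by
    refine ⟨C (7 / 8) * ((X + 1) ^ 6 * (45 * X ^ 2 - 45 * X + 14)), ?_⟩
    apply Polynomial.funext
    intro z
    unfold PP QQ
    simp
    ring
  have h1 := h PP QQ (by rw [QQ_deg]; norm_num) (by rw [QQ_deg, PP_deg]; norm_num) hd zeros_in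
  have a1 : ¬ ‖QQ.eval (3 / 10 : ℂ)‖ ≤ 1 := by
    rw [QQ_eval, show (8 / 7 * ((3 / 10) ^ 2 - 1) : ℂ) = ((-26 / 25 : ℝ) : ℂ) by push_cast; norm_num,
      Complex.norm_real]
    norm_num
  have a2 : ¬ ‖QQ.eval (1 / 3 : ℂ)‖ ≤ 1 := by
    rw [QQ_eval, show (8 / 7 * ((1 / 3) ^ 2 - 1) : ℂ) = ((-64 / 63 : ℝ) : ℂ) by push_cast; norm_num,
      Complex.norm_real]
    norm_num
  rw [PP_deg, QQ_deg, roots_der, Multiset.filter_add, Multiset.filter_add, Multiset.filter_add,
    Multiset.filter_singleton (a := (3 / 10 : ℂ)), Multiset.filter_singleton (a := (1 / 3 : ℂ)),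
    if_neg a1, if_neg a2] at h1
  have b1 := Multiset.card_le_card (Multiset.filter_le (fun z => ‖QQ.eval z‖ ≤ 1)
    (6 • ({-1} : Multiset ℂ)))
  have b2 := Multiset.card_le_card (Multiset.filter_le (fun z => ‖QQ.eval z‖ ≤ 1)
    ({13 / 15} : Multiset ℂ))
  simp only [Multiset.card_add, Multiset.card_nsmul, Multiset.card_singleton,
    Multiset.empty_eq_zero, Multiset.card_zero] at h1 b1 b2
  omega

end Pool.Agent.S03896
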