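import Pool.Statements.S03926
import Pool.Agent.H26.Adj

set_option autoImplicit false
open Pool Pool.MP_171342_an

namespace Pool.Agent.S03926

open Pool.Agent.H26.Subsum Pool.Agent.H26.Adj Set Filter Topology

noncomputable def x : ℕ → ℝ
  | 0 => 63 / 4
  | n + 1 => y n

lemma x_pos (n : ℕ) : 0 < x n := by
  cases n with
  | zero => norm_num [x]
  | succ n => exact y_pos n

lemma x_sum : Summable x := (summable_nat_add_iff 1).mp y_sum

lemma E_iff (s : ℝ) : s ∈ Es x ↔ s ∈ Es y ∨ s - 63 / 4 ∈ Es y := by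
  rw [Es_step x x_sum]
  constructor
  · rintro ⟨t, ht, rfl | rfl⟩
    · exact Or.inl ht
    · right; simpa [x] using ht
  · rintro (h | h)
    · exact ⟨s, h, Or.inl rfl⟩
    · exact ⟨_, h, Or.inr (by simp [x])⟩

lemma gap1 (s : ℝ) (h1 : 21 / 8 < s) (h2 : s < 3) : s ∉ Es y := by
  intro hs
  obtain ⟨f, hf, u, hu, e⟩ := (Y_iff _).mp hs
  have hb := Y_bd u hu
  rcases FY_cases f hf with h | h | h | h | h | h | h <;> linarith [h, hb.1, hb.2]

lemma L1 (s : ℝ) (hs : s ∈ Es y) (h2 : s < 3) : 9 * s ∈ Es y := by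
  obtain ⟨f, hf, u, hu, e⟩ := (Y_iff _).mp hs
  have hb := Y_bd u hu
  rcases FY_cases f hf with h | h | h | h | h | h | h
  · rwa [show 9 * s = u by linarith]
  all_goals linarith [h, hb.1]

lemma L2 (s : ℝ) (hs : s ∈ Es y) (h1 : 3 ≤ s) (h2 : s ≤ 45 / 8) : 9 * (s - 3) ∈ Es y := by
  obtain ⟨f, hf, u, hu, e⟩ := (Y_iff _).mp hs
  have hb := Y_bd u hu
  rcases FY_cases f hf with h | h | h | h | h | h | h
  · linarith [hb.2]
  · rwa [show 9 * (s - 3) = u by linarith]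
  · rw [show 9 * (s - 3) = 18 + u by linarith]
    exact up u hu (by linarith)
  all_goals linarith [h, hb.1]

lemma q_bd (k : ℕ) : 0 < (1 / 9 : ℝ) ^ k ∧ (1 / 9 : ℝ) ^ k ≤ 1 :=
  ⟨by positivity, pow_le_one₀ (by norm_num) (by norm_num)⟩

lemma N0 (k : ℕ) : 14 / 5 * (1 / 9 : ℝ) ^ k ∉ Es y := by
  induction k with
  | zero => exact gap1 _ (by norm_num) (by norm_num)
  | succ k ih =>
    intro h
    have hq := q_bd k
    rw [pow_succ] at h
    have := L1 _ h (by linarith [hq.2])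
    exact ih (by rwa [show 9 * (14 / 5 * ((1 / 9 : ℝ) ^ k * (1 / 9))) = 14 / 5 * (1 / 9) ^ k by ring]
      at this)

lemma N1 (g : ℝ) (g0 : 0 ≤ g) (g1 : g ≤ 45 / 8) (hg : 45 / 8 - g ∉ Es y) (k : ℕ) :
    45 / 8 - g * (1 / 9 : ℝ) ^ k ∉ Es y := by
  induction k with
  | zero => simpa using hg
  | succ k ih =>
    intro h
    have hq := q_bd k
    have h1 : 0 ≤ g * (1 / 9) ^ k := mul_nonneg g0 hq.1.le
    have h2 : g * (1 / 9) ^ k ≤ 45 / 8 := by nlinarith [hq.2]
    rw [pow_succ, ← mul_assoc] at h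
    have a1 := down _ (L2 _ h (by linarith) (by linarith)) (by linarith)
    exact ih (by rwa [show 9 * (45 / 8 - g * (1 / 9 : ℝ) ^ k * (1 / 9) - 3) - 18 =
      45 / 8 - g * (1 / 9) ^ k by ring] at a1)

lemma N2 (k : ℕ) : 27 / 8 - 85 / 144 * (1 / 9 : ℝ) ^ k ∉ Es y := by
  induction k with
  | zero => exact gap1 _ (by norm_num) (by norm_num)
  | succ k ih =>
    intro h
    have hq := q_bd k
    rw [pow_succ] at h
    have a1 := L2 _ h (by linarith [hq.2]) (by linarith [hq.1])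
    exact ih (by rwa [show 9 * (27 / 8 - 85 / 144 * ((1 / 9 : ℝ) ^ k * (1 / 9)) - 3) =
      27 / 8 - 85 / 144 * (1 / 9) ^ k by ring] at a1)

lemma M2 (k : ℕ) : 27 / 8 - 95 / 36 * (1 / 9 : ℝ) ^ k ∈ Es y := by
  induction k with
  | zero =>
    exact (Y_iff _).mpr ⟨0, FX_sub _ (by simp [FX]), 53 / 8, mid ⟨by norm_num, by norm_num⟩,
      by norm_num⟩
  | succ k ih => exact (Y_iff _).mpr ⟨3, FX_sub _ (by simp [FX]), _, ih, by rw [pow_succ]; ring⟩

lemma N3 (k : ℕ) : 45 / 8 - 85 / 144 * (1 / 9 : ℝ) ^ k ∉ Es y := by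
  have := N1 (85 / 16) (by norm_num) (by norm_num) (fun h => gap1 _ (by norm_num) (by norm_num)
    (L1 _ h (by norm_num))) (k + 1)
  rwa [show (85 / 16 : ℝ) * (1 / 9) ^ (k + 1) = 85 / 144 * (1 / 9) ^ k by rw [pow_succ]; ring] at this

lemma small (δ : ℝ) (hδ : 0 < δ) : ∃ k : ℕ, (1 / 9 : ℝ) ^ k < δ :=
  exists_pow_lt_of_lt_one hδ (by norm_num)

lemma FY_fin : FY.Finite := by
  refine (toFinite ({0, 3, 5, 6, 7, 8, 9, 10, 11, 12, 13, 14, 15, 16, 18, 21} : Set ℝ)).subset ?_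
  rintro _ ⟨a, b, c, d, rfl | rfl, rfl | rfl, rfl | rfl, rfl | rfl, rfl⟩ <;> norm_num

lemma levels (k : ℕ) : ∃ F : Set ℝ, F.Finite ∧ ∀ s, s ∈ Es x ↔
    ∃ f ∈ F, ∃ u ∈ Es y, s = f + (1 / 9) ^ k * u := by
  induction k with
  | zero =>
    refine ⟨{0, 63 / 4}, toFinite _, fun s => ?_⟩
    rw [E_iff]
    constructor
    · rintro (h | h)
      · exact ⟨0, by simp, s, h, by simp⟩
      · exact ⟨63 / 4, by simp, _, h, by simp⟩
    · rintro ⟨f, rfl | rfl, u, hu, rfl⟩
      · left; simpa using hu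
      · right; simpa using hu
  | succ k ih =>
    obtain ⟨F, hF, h⟩ := ih
    refine ⟨image2 (fun f g => f + (1 / 9) ^ k * g) F FY, hF.image2 _ FY_fin, fun s => ?_⟩
    rw [h]
    constructor
    · rintro ⟨f, hf, u, hu, rfl⟩
      obtain ⟨g, hg, v, hv, rfl⟩ := (Y_iff _).mp hu
      exact ⟨_, ⟨f, hf, g, hg, rfl⟩, v, hv, by rw [pow_succ]; ring⟩
    · rintro ⟨_, ⟨f, hf, g, hg, rfl⟩, v, hv, rfl⟩
      exact ⟨f, hf, _, (Y_iff _).mpr ⟨g, hg, v, hv, rfl⟩, by rw [pow_succ]; ring⟩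

lemma isol (F : Set ℝ) (hF : F.Finite) (w : ℝ) : ∃ η > 0, ∀ f ∈ F, |f - w| < η → f = w := by
  have h1 : IsOpen (F \ {w})ᶜ := (hF.subset diff_subset).isClosed.isOpen_compl
  obtain ⟨η, hη, h2⟩ := Metric.isOpen_iff.mp h1 w (by simp)
  refine ⟨η, hη, fun f hf h3 => ?_⟩
  by_contra hne
  exact h2 (show f ∈ Metric.ball w η from h3) ⟨hf, hne⟩

lemma right_iso (w z : ℝ) (hz : z < w) (hgap : ∀ s ∈ Es x, z < s → w ≤ s) (η : ℝ) (hη : 0 < η) :
    ¬ Icc w (w + η) ⊆ Es x := by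
  intro hI
  obtain ⟨k, hk⟩ := small ((w - z) / 24) (by linarith)
  obtain ⟨F, hF, h⟩ := levels k
  obtain ⟨η', hη', hiso⟩ := isol F hF w
  obtain ⟨j, hj⟩ := small (min η η' / 3) (by positivity)
  have a1 := min_le_left η η'
  have a2 := min_le_right η η'
  have qk := q_bd k
  have qj := q_bd j
  have a3 : (1 / 9 : ℝ) ^ k * (1 / 9) ^ j ≤ (1 / 9) ^ j := by nlinarith
  have a4 : 0 < (1 / 9 : ℝ) ^ k * (1 / 9) ^ j := mul_pos qk.1 qj.1
  obtain ⟨f, hf, u, hu, e⟩ := (h _).mp (hI (show w + 14 / 5 * ((1 / 9) ^ k * (1 / 9) ^ j) ∈ _ from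
    ⟨by linarith, by linarith⟩))
  have hb := Y_bd u hu
  have b1 : 0 ≤ (1 / 9 : ℝ) ^ k * u := mul_nonneg qk.1.le hb.1
  have b2 : (1 / 9 : ℝ) ^ k * u ≤ (1 / 9) ^ k * (189 / 8) := mul_le_mul_of_nonneg_left hb.2 qk.1.le
  have b3 := hgap f ((h f).mpr ⟨f, hf, 0, Es_zero y, by simp⟩) (by linarith)
  have b4 := hiso f hf (by rw [abs_lt]; constructor <;> linarith)
  refine N0 j ?_
  rwa [show 14 / 5 * (1 / 9 : ℝ) ^ j = u from mul_left_cancel₀ qk.1.ne' (by linarith)]

lemma left_iso (w z : ℝ) (hz : w < z) (hgap : ∀ s ∈ Es x, s < z → s ≤ w) (η : ℝ) (hη : 0 < η) :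
    ¬ Icc (w - η) w ⊆ Es x := by
  intro hI
  obtain ⟨k, hk⟩ := small ((z - w) / 24) (by linarith)
  obtain ⟨F, hF, h⟩ := levels k
  obtain ⟨η', hη', hiso⟩ := isol F hF (w - (1 / 9) ^ k * (189 / 8))
  obtain ⟨j, hj⟩ := small (min η η' / 3) (by positivity)
  have a1 := min_le_left η η'
  have a2 := min_le_right η η'
  have qk := q_bd k
  have qj := q_bd j
  have a3 : (1 / 9 : ℝ) ^ k * (1 / 9) ^ j ≤ (1 / 9) ^ j := by nlinarith
  have a4 : 0 < (1 / 9 : ℝ) ^ k * (1 / 9) ^ j := mul_pos qk.1 qj.1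
  obtain ⟨f, hf, u, hu, e⟩ := (h _).mp (hI (show w - 14 / 5 * ((1 / 9) ^ k * (1 / 9) ^ j) ∈ _ from
    ⟨by linarith, by linarith⟩))
  have hb := Y_bd u hu
  have b1 : 0 ≤ (1 / 9 : ℝ) ^ k * u := mul_nonneg qk.1.le hb.1
  have b2 : (1 / 9 : ℝ) ^ k * u ≤ (1 / 9) ^ k * (189 / 8) := mul_le_mul_of_nonneg_left hb.2 qk.1.le
  have top : (18 + 45 / 8 : ℝ) ∈ Es y := up _ (mid ⟨le_rfl, by norm_num⟩) le_rfl
  have b3 := hgap _ ((h _).mpr ⟨f, hf, _, top, rfl⟩) (by linarith)
  have b4 := hiso f hf (by rw [abs_lt]; constructor <;> linarith)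
  have b5 : u = 189 / 8 - 14 / 5 * (1 / 9 : ℝ) ^ j := mul_left_cancel₀ qk.1.ne' (by linarith)
  refine N1 (14 / 5) (by norm_num) (by norm_num) (gap1 _ (by norm_num) (by norm_num)) j ?_
  have := down u hu (by linarith [qj.2])
  rwa [show u - 18 = 45 / 8 - 14 / 5 * (1 / 9 : ℝ) ^ j by linarith] at this

lemma one_point (E : Set ℝ) (w : ℝ) (hw : w ∈ E) (h1 : ∀ η > 0, ¬ Icc (w - η) w ⊆ E)
    (h2 : ∀ η > 0, ¬ Icc w (w + η) ⊆ E) : connectedComponentIn E w = {w} := by
  refine eq_singleton_iff_unique_mem.mpr ⟨mem_connectedComponentIn hw, fun z hz => ?_⟩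
  have oc := (isPreconnected_connectedComponentIn (F := E) (x := w)).ordConnected
  rcases lt_trichotomy z w with h | h | h
  · refine absurd ?_ (h1 (w - z) (by linarith))
    rw [sub_sub_cancel]
    exact (oc.out hz (mem_connectedComponentIn hw)).trans (connectedComponentIn_subset _ _)
  · exact h
  · refine absurd ?_ (h2 (z - w) (by linarith))
    rw [add_sub_cancel]
    exact (oc.out (mem_connectedComponentIn hw) hz).trans (connectedComponentIn_subset _ _)

lemma E_cpt : IsCompact (Es x) :=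
  (isCompact_Icc (a := 0) (b := ∑' n, x n)).of_isClosed_subset (Es_closed x x_sum)
    fun s hs => Es_bound x x_sum (fun n => (x_pos n).le) s hs

lemma ends (p : ℝ) (hp : p ∈ Es x) :
    sInf (connectedComponentIn (Es x) p) ∈
      closure {y ∈ Es x | connectedComponentIn (Es x) y = {y}} ∧
    sSup (connectedComponentIn (Es x) p) ∈
      closure {y ∈ Es x | connectedComponentIn (Es x) y = {y}} := by
  have hsub := connectedComponentIn_subset (Es x) p
  have hne : (connectedComponentIn (Es x) p).Nonempty := ⟨p, mem_connectedComponentIn hp⟩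
  have hcl : closure (connectedComponentIn (Es x) p) ⊆ Es x :=
    closure_minimal hsub E_cpt.isClosed
  have hpc := (isPreconnected_connectedComponentIn (F := Es x) (x := p)).closure
  have bb := E_cpt.bddBelow.mono hsub
  have ba := E_cpt.bddAbove.mono hsub
  constructor
  · have hu := csInf_mem_closure hne bb
    rw [Metric.mem_closure_iff]
    intro ε hε
    have h1 : ¬ Icc (sInf (connectedComponentIn (Es x) p) - ε / 2)
        (sInf (connectedComponentIn (Es x) p)) ⊆ Es x := by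
      intro hI
      have h2 := (hpc.union _ hu (right_mem_Icc.mpr (by linarith)) isPreconnected_Icc
        ).subset_connectedComponentIn (Or.inl (subset_closure (mem_connectedComponentIn hp)))
        (union_subset hcl hI)
      have := csInf_le bb (h2 (Or.inr (left_mem_Icc.mpr (by linarith))))
      linarith
    obtain ⟨z, ⟨z1, z2⟩, hz⟩ := not_subset.mp h1
    obtain ⟨w, ⟨hw, hzw⟩, hmin⟩ := (E_cpt.inter_right (isClosed_Ici (a := z))).exists_isLeast
      ⟨_, hcl hu, z2⟩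
    have hzw' : z < w := lt_of_le_of_ne hzw fun e => hz (e ▸ hw)
    have hwu := hmin ⟨hcl hu, z2⟩
    refine ⟨w, ⟨hw, one_point _ w hw (fun η hη hI => ?_)
      (right_iso w z hzw' fun s hs h => hmin ⟨hs, h.le⟩)⟩, ?_⟩
    · have a1 := le_max_left z (w - η)
      have a2 := le_max_right z (w - η)
      have a3 : max z (w - η) < w := max_lt hzw' (by linarith)
      exact absurd (hmin ⟨hI ⟨a2, a3.le⟩, a1⟩) (not_le.mpr a3)
    · rw [Real.dist_eq, abs_lt]; constructor <;> linarith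
  · have hu := csSup_mem_closure hne ba
    rw [Metric.mem_closure_iff]
    intro ε hε
    have h1 : ¬ Icc (sSup (connectedComponentIn (Es x) p))
        (sSup (connectedComponentIn (Es x) p) + ε / 2) ⊆ Es x := by
      intro hI
      have h2 := (hpc.union _ hu (left_mem_Icc.mpr (by linarith)) isPreconnected_Icc
        ).subset_connectedComponentIn (Or.inl (subset_closure (mem_connectedComponentIn hp)))
        (union_subset hcl hI)
      have := le_csSup ba (h2 (Or.inr (right_mem_Icc.mpr (by linarith))))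
      linarith
    obtain ⟨z, ⟨z1, z2⟩, hz⟩ := not_subset.mp h1
    obtain ⟨w, ⟨hw, hzw⟩, hmax⟩ := (E_cpt.inter_right (isClosed_Iic (a := z))).exists_isGreatest
      ⟨_, hcl hu, z1⟩
    have hzw' : w < z := lt_of_le_of_ne hzw fun e => hz (e ▸ hw)
    have hwu := hmax ⟨hcl hu, z1⟩
    refine ⟨w, ⟨hw, one_point _ w hw (left_iso w z hzw' fun s hs h => hmax ⟨hs, h.le⟩)
      (fun η hη hI => ?_)⟩, ?_⟩
    · have a1 := min_le_left z (w + η)
      have a2 := min_le_right z (w + η)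
      have a3 : w < min z (w + η) := lt_min hzw' (by linarith)
      exact absurd (hmax ⟨hI ⟨a3.le, a2⟩, a1⟩) (not_le.mpr a3)
    · rw [Real.dist_eq, abs_lt]; constructor <;> linarith

lemma aff (A B : Set ℝ) (f q : ℝ) (hq : 0 < q) (h : ∀ u ∈ A, f + q * u ∈ B) (k : ℝ)
    (hk : k ∈ closure (interior A)) : f + q * k ∈ closure (interior B) := by
  refine map_mem_closure (f := fun t => f + q * t) (by fun_prop) hk fun z hz => ?_
  rw [mem_interior_iff_mem_nhds, Metric.mem_nhds_iff] at hz ⊢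
  obtain ⟨η, hη, hb⟩ := hz
  refine ⟨q * η, mul_pos hq hη, fun t ht => ?_⟩
  rw [show t = f + q * ((t - f) / q) by field_simp; ring]
  refine h _ (hb ?_)
  rw [Metric.mem_ball, Real.dist_eq] at ht ⊢
  rw [show (t - f) / q - z = (t - (f + q * z)) / q by field_simp; ring, abs_div, abs_of_pos hq,
    div_lt_iff₀ hq]
  linarith

lemma regY : Es y ⊆ closure (interior (Es y)) := by
  have step : ∀ f ∈ FY, ∀ k ∈ closure (interior (Es y)),
      f + 1 / 9 * k ∈ closure (interior (Es y)) := fun f hf k hk =>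
    aff _ _ f (1 / 9) (by norm_num) (fun u hu => (Y_iff _).mpr ⟨f, hf, u, hu, rfl⟩) k hk
  have h10 : ∀ k : ℕ, 10 * (1 / 9 : ℝ) ^ k ∈ closure (interior (Es y)) := by
    intro k
    induction k with
    | zero =>
      exact subset_closure (interior_maximal (Ioo_subset_Icc_self.trans mid) isOpen_Ioo
        ⟨by norm_num, by norm_num⟩)
    | succ k ih =>
      have := step 0 (FX_sub _ (by simp [FX])) _ ih
      rwa [show 0 + 1 / 9 * (10 * (1 / 9 : ℝ) ^ k) = 10 * (1 / 9) ^ (k + 1) by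
        rw [pow_succ]; ring] at this
  have h0 : (0 : ℝ) ∈ closure (interior (Es y)) := by
    have h1 : Tendsto (fun k : ℕ => 10 * (1 / 9 : ℝ) ^ k) atTop (𝓝 (10 * 0)) :=
      (tendsto_pow_atTop_nhds_zero_of_lt_one (by norm_num) (by norm_num)).const_mul _
    rw [mul_zero] at h1
    exact isClosed_closure.mem_of_tendsto h1 (Eventually.of_forall h10)
  refine attract _ _ FY (1 / 9) 100 (by norm_num) (by norm_num) isClosed_closure h0 step
    (fun s hs => ?_) fun s hs => (Y_iff s).mp hs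
  have := Y_bd s hs
  rw [abs_le]; constructor <;> linarith

lemma regE : closure (interior (Es x)) = Es x := by
  refine Subset.antisymm (closure_minimal interior_subset E_cpt.isClosed) fun s hs => ?_
  rcases (E_iff s).mp hs with h | h
  · simpa using aff (Es y) (Es x) 0 1 one_pos
      (fun u hu => (E_iff _).mpr (Or.inl (by simpa using hu))) s (regY h)
  · simpa using aff (Es y) (Es x) (63 / 4) 1 one_pos
      (fun u hu => (E_iff _).mpr (Or.inr (by simpa using hu))) _ (regY h)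

/-- The negation of the preceding statement: For a positive summable sequence whose set of subsums E is a Cantorval, and distinct left endpoints a, b of interval components of E, there is ε>0 such that E∩[a−ε,a] is a translate of E∩[b−ε,b]. -/
theorem result :
    ¬ (∀ x : ℕ → ℝ, (∀ n, 0 < x n) → Summable x →
    ∀ E : Set ℝ, E = {s | ∃ A : Set ℕ, s = ∑' n, A.indicator x n} →
    (E.Nonempty ∧ IsCompact E ∧ closure (interior E) = E ∧
      ∀ p ∈ E, (connectedComponentIn E p).Nontrivial →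
        sInf (connectedComponentIn E p) ∈ closure {y ∈ E | connectedComponentIn E y = {y}} ∧
        sSup (connectedComponentIn E p) ∈ closure {y ∈ E | connectedComponentIn E y = {y}}) →
    ∀ a b : ℝ, a ≠ b →
      (∃ c, a < c ∧ Set.Icc a c ⊆ E) → (∀ y, y < a → ¬ Set.Icc y a ⊆ E) →
      (∃ c, b < c ∧ Set.Icc b c ⊆ E) → (∀ y, y < b → ¬ Set.Icc y b ⊆ E) →
      ∃ ε : ℝ, ε > 0 ∧ ∃ t : ℝ,
        E ∩ Set.Icc (a - ε) a = (fun z => z + t) '' (E ∩ Set.Icc (b - ε) b)) := by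
  intro H
  have hb : ∀ s, s ∈ Es x → s < 63 / 4 → s ∈ Es y := fun s hs h =>
    ((E_iff s).mp hs).resolve_right fun h1 => by linarith [(Y_bd _ h1).1]
  have ia : Icc (171 / 8 : ℝ) 30 ⊆ Es x := fun s hs =>
    (E_iff s).mpr (Or.inr (mid ⟨by linarith [hs.1], by linarith [hs.2]⟩))
  have ib : Icc (45 / 8 : ℝ) 18 ⊆ Es x := fun s hs => (E_iff s).mpr (Or.inl (mid hs))
  obtain ⟨ε, hε, t, ht⟩ := H x x_pos x_sum (Es x) rfl
    ⟨⟨0, Es_zero x⟩, E_cpt, regE, fun p hp _ => ends p hp⟩ (171 / 8) (45 / 8) (by norm_num)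
    ⟨30, by norm_num, ia⟩ (fun z hz hI => by
      obtain ⟨k, hk⟩ := small (171 / 8 - z) (by linarith)
      have qk := q_bd k
      rcases (E_iff _).mp (hI (show 171 / 8 - 85 / 144 * (1 / 9 : ℝ) ^ k ∈ _ from
        ⟨by linarith, by linarith⟩)) with h | h
      · have := down _ h (by linarith)
        exact N2 k (by rwa [show 171 / 8 - 85 / 144 * (1 / 9 : ℝ) ^ k - 18 =
          27 / 8 - 85 / 144 * (1 / 9) ^ k by ring] at this)
      · exact N3 k (by rwa [show 171 / 8 - 85 / 144 * (1 / 9 : ℝ) ^ k - 63 / 4 =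
          45 / 8 - 85 / 144 * (1 / 9) ^ k by ring] at h))
    ⟨18, by norm_num, ib⟩ (fun z hz hI => by
      obtain ⟨k, hk⟩ := small (45 / 8 - z) (by linarith)
      have qk := q_bd k
      exact N3 k (hb _ (hI ⟨by linarith, by linarith⟩) (by linarith)))
  have t1 : (171 / 8 : ℝ) ∈ Es x ∩ Icc (171 / 8 - ε) (171 / 8) :=
    ⟨ia ⟨le_rfl, by norm_num⟩, by linarith, le_rfl⟩
  have t2 : 45 / 8 + t ∈ Es x ∩ Icc (171 / 8 - ε) (171 / 8) :=
    ht ▸ ⟨45 / 8, ⟨ib ⟨le_rfl, by norm_num⟩, by linarith, le_rfl⟩, rfl⟩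
  rw [ht] at t1
  obtain ⟨z, ⟨-, -, z2⟩, z3⟩ := t1
  have t3 : t = 63 / 4 := by
    have := t2.2.2
    simp only at z3
    linarith
  obtain ⟨k, hk⟩ := small (ε / 3) (by linarith)
  have qk := q_bd k
  have t4 : 18 + (27 / 8 - 95 / 36 * (1 / 9 : ℝ) ^ k) ∈ Es x ∩ Icc (171 / 8 - ε) (171 / 8) :=
    ⟨(E_iff _).mpr (Or.inl (up _ (M2 k) (by linarith))), by linarith, by linarith⟩
  rw [ht] at t4
  obtain ⟨v, ⟨v1, -, v2⟩, v3⟩ := t4
  refine N1 (95 / 36) (by norm_num) (by norm_num) (gap1 _ (by norm_num) (by norm_num)) k ?_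
  simp only at v3
  rw [show 45 / 8 - 95 / 36 * (1 / 9 : ℝ) ^ k = v by linarith]
  exact hb v v1 (by linarith)

end Pool.Agent.S03926
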