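import Pool.Statements.S03935
import Pool.Agent.H33.Zem

set_option autoImplicit false
open Pool Pool.MP_17a4eb_an

namespace Pool.Agent.S03935

open Pool.Agent.H33.Zem
theorem result :
    ∀ (A : Type) [NormedRing A] [NormedAlgebra ℂ A] [CompleteSpace A] (a : A),
      (∃ b : A, b * a = 1) →
      (∀ z : ℂ, ‖z‖ < 1 → ∃ b : A, b * (a - algebraMap ℂ A z) = 1) →
      (∀ α : ℝ, 1 < α → ∃ z : ℂ, ‖z‖ < α ∧ ∀ b : A, b * (a - algebraMap ℂ A z) ≠ 1) →
      ∀ K : Set ℂ, IsCompact K → K ⊆ Metric.ball (0 : ℂ) 1 →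
        ∃ U : Set ℂ, IsOpen U ∧ K ⊆ U ∧
          ∃ g : ℂ → A, DifferentiableOn ℂ g U ∧
            (∀ z ∈ K, g z * (a - algebraMap ℂ A z) = 1) ∧
            (∀ z ∈ K, ∀ w ∈ K, g z - g w = (z - w) • (g z * g w)) := by
  intro A _ _ _ a ⟨b, hb⟩ h1 _ K hK hs
  obtain ⟨R, hR, hs⟩ := exists_lt_subset_ball hK.isClosed hs
  obtain ⟨w, w1, w2⟩ := main a b hb (max R 0) (le_max_right _ _) fun l hl =>
    h1 l (hl.trans_lt (max_lt hR one_pos))
  have w3 : ∀ l ∈ K, IsUnit (w - l • b) := fun l hl =>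
    w2 l ((mem_ball_zero_iff.1 (hs hl)).le.trans (le_max_left _ _))
  refine ⟨{l | IsUnit (w - l • b)}, Units.isOpen.preimage (f := fun l : ℂ => w - l • b) (by fun_prop),
    w3, fun l => b * Ring.inverse (w - l • b), fun l hl => ?_, fun l hl => ?_, fun l hl m hm => ?_⟩
  · exact (((differentiableAt_inverse hl).comp l (f := fun l : ℂ => w - l • b)
      (by fun_prop)).const_mul b).differentiableWithinAt
  · have : a - algebraMap ℂ A l = (w - l • b) * a := by
      rw [sub_mul, w1, smul_mul_assoc, hb, Algebra.algebraMap_eq_smul_one]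
    rw [this, mul_assoc, Ring.inverse_mul_cancel_left _ _ (w3 l hl), hb]
  · have e : (l - m) • b = (w - m • b) - (w - l • b) := by module
    simp only
    rw [mul_assoc, ← mul_smul_comm, ← mul_smul_comm, ← smul_mul_assoc, e, sub_mul, mul_sub,
      Ring.mul_inverse_cancel _ (w3 m hm), mul_one, Ring.inverse_mul_cancel_left _ _ (w3 l hl),
      mul_sub]

end Pool.Agent.S03935
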