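import Pool.Statements.S03944
import Pool.Agent.H15.RD4

set_option autoImplicit false
open Pool Pool.MP_18663b_an

namespace Pool.Agent.S03944

theorem result :
    ¬ (∀ r : ℕ, 2 ≤ r →
    ∀ D : ℝ → Prop,
      (∀ y : ℝ, D y ↔
        ∀ ε : ℝ, 0 < ε → ∃ K : ℕ, ∃ N₀ : ℕ, ∀ N : ℕ, N₀ ≤ N →
          ∃ k : ℕ, 1 ≤ k ∧ k ≤ K ∧
            (∑ w : Fin k → Fin r,
                Real.negMulLog
                  ((((Finset.range N).filter (fun n : ℕ =>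
                      ∀ i : Fin k,
                        ⌊(r : ℝ) ^ (n + i.val + 1) * y⌋ % (r : ℤ) = ((w i : ℕ) : ℤ))).card : ℝ)
                    / (N : ℝ))) / (k : ℝ) < ε) →
      ∀ x : ℝ, x ≠ 0 → D x → D x⁻¹) := by
  intro h
  obtain ⟨x, x0, h1, h2⟩ := Pool.Agent.H15.RD.final
  exact h2 (h 2 le_rfl (fun y => ∀ ε : ℝ, 0 < ε → ∃ K : ℕ, ∃ N₀ : ℕ, ∀ N : ℕ, N₀ ≤ N →
      ∃ k : ℕ, 1 ≤ k ∧ k ≤ K ∧ Pool.Agent.H15.RD.Ent k N y / (k : ℝ) < ε) (fun _ => Iff.rfl) x x0 h1)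

end Pool.Agent.S03944
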