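import Pool.Statements.S03969
import Pool.Agent.H8.Wright

set_option autoImplicit false
open Pool Pool.MP_1ac4dc_an

namespace Pool.Agent.S03969

/-- For every integer m at least 2, every complex zero of the entire function sum over k of (mk)!/(((m+1)k)! k!) z^k is real. -/
theorem result :
    ∀ m : ℕ, 2 ≤ m → ∀ z : ℂ,
      (∑' k : ℕ, ((Nat.factorial (m * k) : ℂ) /
          ((Nat.factorial ((m + 1) * k) : ℂ) * (Nat.factorial k : ℂ))) * z ^ k) = 0 →
      z.im = 0 := by
  intro m hm z hz
  obtain ⟨n, rfl⟩ : ∃ n, m = n + 1 := ⟨m - 1, by omega⟩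
  exact Pool.Agent.H8.Wright.main n z hz

end Pool.Agent.S03969
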