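import Pool.Statements.S03988

set_option autoImplicit false
open Pool Pool.MP_1c6fe5_an

namespace Pool.Agent.S03988

open Filter Topology

abbrev XX : Type := OnePoint ℕ

def SS : Subsemigroup (Function.End XX) where
  carrier := {s | Continuous s}
  mul_mem' ha hb := Continuous.comp ha hb

def cc (d : XX) : SS := ⟨fun _ => d, continuous_const⟩

def thr {Y : Type} [TopologicalSpace Y] (p q : Y) (n : ℕ) : C(XX, Y) :=
  OnePoint.continuousMapMkNat (fun m => if m ≤ n then p else q) q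
    (tendsto_const_nhds.congr' ((eventually_gt_atTop n).mono fun _ hm => (if_neg hm.not_ge).symm))

lemma wap (f : SS → ℝ) (K : Set (WeakSpace ℝ (lp (fun _ : SS => ℝ) ⊤))) (hK : IsCompact K)
    (F : lp (fun _ : SS => ℝ) ⊤) (hF : ∀ t, F t = f t)
    (h : ∀ G : lp (fun _ : SS => ℝ) ⊤, (∃ s : SS, ∀ t, G t = f (s * t)) → toWeakSpace ℝ _ G ∈ K)
    (p q : XX) : f (cc p) = f (cc q) := by
  let U : Ultrafilter ℕ := Ultrafilter.of atTop
  have hU : (U : Filter ℕ) ≤ atTop := Ultrafilter.of_le _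
  have ex : ∀ G : lp (fun _ : SS => ℝ) ⊤, ∃ a, Tendsto (fun m : ℕ => G (cc m)) U (𝓝 a) := by
    intro G
    obtain ⟨a, _, ha⟩ := (isCompact_closedBall (0 : ℝ) ‖G‖).ultrafilter_le_nhds
      (U.map fun m : ℕ => G (cc m)) (by
        rw [Ultrafilter.coe_map, le_principal_iff, mem_map]
        exact univ_mem' fun m => mem_closedBall_zero_iff.2 (lp.norm_apply_le_norm (by simp) G _))
    exact ⟨a, ha⟩
  choose L hL using ex
  let Λ : lp (fun _ : SS => ℝ) ⊤ →L[ℝ] ℝ := LinearMap.mkContinuous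
    { toFun := L
      map_add' := fun a b => tendsto_nhds_unique (hL _) ((hL a).add (hL b))
      map_smul' := fun c a => tendsto_nhds_unique (hL _) ((hL a).const_mul c) } 1 fun G => by
      rw [one_mul]
      exact le_of_tendsto' (hL G).norm fun m => lp.norm_apply_le_norm (by simp) G _
  let Φ : WeakSpace ℝ (lp (fun _ : SS => ℝ) ⊤) → ℝ × (ℕ → ℝ) := fun G =>
    (Λ ((toWeakSpace ℝ _).symm G), fun m => (toWeakSpace ℝ _).symm G (cc m))
  have hΦ : Continuous Φ :=
    (WeakBilin.eval_continuous (topDualPairing ℝ _).flip Λ).prodMk (continuous_pi fun m =>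
      WeakBilin.eval_continuous (topDualPairing ℝ _).flip
        (lp.evalCLM ℝ (fun _ : SS => ℝ) ⊤ (cc m)))
  let s : ℕ → SS := fun n => ⟨fun x => thr p q n x, (thr p q n).continuous⟩
  let G : ℕ → lp (fun _ : SS => ℝ) ⊤ := fun n => ⟨fun t => f (s n * t), memℓp_infty ⟨‖F‖, by
    rintro _ ⟨t, rfl⟩
    have := lp.norm_apply_le_norm (by simp) F (s n * t)
    rwa [hF] at this⟩⟩
  have hG : ∀ n m : ℕ, G n (cc m) = f (cc (if m ≤ n then p else q)) := fun n m => rfl
  have h1 : Tendsto (fun n => Φ (toWeakSpace ℝ _ (G n))) atTop (𝓝 (f (cc q), fun _ => f (cc p))) := by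
    refine Tendsto.prodMk_nhds (tendsto_const_nhds.congr fun n => ?_) (tendsto_pi_nhds.2 fun m => ?_)
    · refine tendsto_nhds_unique (Tendsto.mono_left (tendsto_const_nhds.congr' ?_) hU) (hL (G n))
      exact (eventually_gt_atTop n).mono fun m hm => ((hG n m).trans (by rw [if_neg hm.not_ge])).symm
    · refine tendsto_const_nhds.congr' ((eventually_ge_atTop m).mono fun n hn => ?_)
      show _ = G n (cc m)
      rw [hG, if_pos hn]
  obtain ⟨H, -, hH⟩ := (hK.image hΦ).isClosed.mem_of_tendsto h1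
    (Eventually.of_forall fun n => ⟨_, h _ ⟨s n, fun _ => rfl⟩, rfl⟩)
  have h2 : L ((toWeakSpace ℝ _).symm H) = f (cc q) := congrArg Prod.fst hH
  rw [← h2]
  exact tendsto_nhds_unique (tendsto_const_nhds.congr fun m =>
    (congrFun (congrArg Prod.snd hH) m).symm) (hL _)

noncomputable def ind (n : ℕ) : C(XX, ℝ) :=
  OnePoint.continuousMapMkNat (fun m => if m = n then 1 else 0) 0
    (tendsto_const_nhds.congr' ((eventually_gt_atTop n).mono fun _ hm => (if_neg hm.ne').symm))

lemma sum_ind (a : ℕ → ℝ) (F : Finset ℕ) (m : ℕ) :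
    (∑ n ∈ F, a n • ind n) (m : XX) = if m ∈ F then a m else 0 := by
  rw [ContinuousMap.sum_apply]
  show ∑ n ∈ F, a n * (if m = n then 1 else 0) = _
  simp

lemma sum_ind' (a : ℕ → ℝ) (F : Finset ℕ) : (∑ n ∈ F, a n • ind n) OnePoint.infty = 0 := by
  rw [ContinuousMap.sum_apply]
  show ∑ n ∈ F, a n * 0 = _
  simp

lemma sep (C : Set (StrongDual ℝ C(XX, ℝ))) : TopologicalSpace.IsSeparable C := by
  let δ : XX → StrongDual ℝ C(XX, ℝ) := fun x => ContinuousMap.evalCLM ℝ x
  have : Countable XX := inferInstanceAs (Countable (Option ℕ))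
  refine ((Set.countable_range δ).isSeparable.span (R := ℝ)).closure.mono fun φ _ => ?_
  have h1 : Summable fun n => |φ (ind n)| := by
    refine summable_of_sum_le (c := ‖φ‖) (fun _ => abs_nonneg _) fun F => ?_
    have h1 : ∑ x ∈ F, |φ (ind x)| = φ (∑ x ∈ F, (SignType.sign (φ (ind x)) : ℝ) • ind x) := by
      rw [map_sum]
      refine Finset.sum_congr rfl fun x _ => ?_
      rw [map_smul, smul_eq_mul, sign_mul_self]
    rw [h1]
    refine (le_abs_self _).trans ((φ.le_of_opNorm_le_of_le le_rfl (b := 1)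
      ((ContinuousMap.norm_le _ zero_le_one).2 fun t => ?_)).trans (by rw [mul_one]))
    induction t using OnePoint.rec with
    | infty => rw [sum_ind']; simp
    | coe m =>
      rw [sum_ind]
      split_ifs
      · rcases (SignType.sign (φ (ind m))).trichotomy with h | h | h <;> simp [h]
      · simp
  have hδ : ∀ x, ‖δ x‖ ≤ 1 := fun x => ContinuousLinearMap.opNorm_le_bound _ zero_le_one fun f => by
    rw [one_mul]; exact f.norm_coe_le_norm x
  have h2 : Summable fun n : ℕ => φ (ind n) • (δ n - δ OnePoint.infty) := by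
    refine Summable.of_norm_bounded (E := StrongDual ℝ C(XX, ℝ)) (h1.mul_right 2) fun n => ?_
    refine (ContinuousLinearMap.opNorm_smul_le _ _).trans ?_
    exact mul_le_mul_of_nonneg_left ((norm_sub_le (δ n) (δ OnePoint.infty)).trans (by
      linarith [hδ n, hδ OnePoint.infty])) (norm_nonneg _)
  have h3 := h2.hasSum.tendsto_sum_nat.add_const (φ 1 • δ OnePoint.infty)
  have h4 : ∑' n : ℕ, φ (ind n) • (δ n - δ OnePoint.infty) + φ 1 • δ OnePoint.infty = φ := by
    ext f
    have t1 : Tendsto (fun N => ∑ n ∈ Finset.range N, (f n - f OnePoint.infty) • ind n +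
        f OnePoint.infty • (1 : C(XX, ℝ))) atTop (𝓝 f) := by
      refine Metric.tendsto_atTop.2 fun ε hε => ?_
      obtain ⟨N, hN⟩ := Metric.tendsto_atTop.1 ((OnePoint.continuous_iff_from_nat f).1 f.continuous)
        ε hε
      refine ⟨N, fun M hM => (ContinuousMap.dist_lt_iff hε).2 fun t => ?_⟩
      rw [ContinuousMap.add_apply]
      induction t using OnePoint.rec with
      | infty => rw [sum_ind']; simpa using hε
      | coe m =>
        rw [sum_ind]
        split_ifs with h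
        · simpa using hε
        · have := hN m (hM.trans (not_lt.1 fun h' => h (Finset.mem_range.2 h')))
          rw [dist_comm] at this
          simpa using this
    refine tendsto_nhds_unique (((ContinuousLinearMap.apply ℝ ℝ f).continuous.tendsto _).comp h3)
      (((φ.continuous.tendsto _).comp t1).congr fun N => ?_)
    simp [δ, mul_comm, ContinuousMap.evalCLM]
  rw [h4] at h3
  refine mem_closure_of_tendsto h3 (Eventually.of_forall fun N => ?_)
  have h5 : ∀ x, δ x ∈ Submodule.span ℝ (Set.range δ) := fun x => Submodule.subset_span ⟨x, rfl⟩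
  exact Submodule.add_mem _ (Submodule.sum_mem _ fun n _ => Submodule.smul_mem _ _
    (Submodule.sub_mem _ (h5 _) (h5 _))) (Submodule.smul_mem _ _ (h5 _))

noncomputable def AA (s : SS) : C(XX, ℝ) →L[ℝ] C(XX, ℝ) where
  toFun f := f.comp ⟨s.1, s.2⟩
  map_add' _ _ := rfl
  map_smul' _ _ := rfl
  cont := ContinuousMap.continuous_precomp _

theorem result :
    ¬ (∀ (S : Type) [Semigroup S] (W : (S → ℝ) → Prop),
      (∀ f : S → ℝ, W f ↔
        ∃ F : lp (fun _ : S => ℝ) ⊤, (∀ t, F t = f t) ∧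
          IsCompact (closure (toWeakSpace ℝ (lp (fun _ : S => ℝ) ⊤) ''
            {G : lp (fun _ : S => ℝ) ⊤ | ∃ s : S, ∀ t : S, G t = f (s * t)}))) →
      (∃ m : (S → ℝ) → ℝ,
        (∀ f g : S → ℝ, W f → W g → m (f + g) = m f + m g) ∧
        (∀ (c : ℝ) (f : S → ℝ), W f → m (c • f) = c * m f) ∧
        (∀ f : S → ℝ, W f → (∀ t, 0 ≤ f t) → 0 ≤ m f) ∧
        m (fun _ => 1) = 1 ∧
        (∀ (s : S) (f : S → ℝ), W f → m (fun t => f (s * t)) = m f)) →
      ∀ (X : Type) [NormedAddCommGroup X] [NormedSpace ℝ X] [CompleteSpace X]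
        (C : Set (StrongDual ℝ X)) (T : S → StrongDual ℝ X → StrongDual ℝ X),
        C.Nonempty → Convex ℝ C → TopologicalSpace.IsSeparable C →
        IsCompact (StrongDual.toWeakDual '' C) →
        (∀ s, Set.MapsTo (T s) C C) →
        (∀ s t : S, ∀ φ ∈ C, T (s * t) φ = T s (T t φ)) →
        (∀ s : S, ∀ φ ∈ C, ∀ ψ ∈ C, ‖T s φ - T s ψ‖ ≤ ‖φ - ψ‖) →
        (∀ s : S, ContinuousOn
          (fun ω => StrongDual.toWeakDual (T s (StrongDual.toWeakDual.symm ω)))
          (StrongDual.toWeakDual '' C)) →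
        ∃ φ ∈ C, ∀ s : S, T s φ = φ) := by
  intro H
  have hA : ∀ (s : SS) (φ : StrongDual ℝ C(XX, ℝ)), ‖φ.comp (AA s)‖ ≤ ‖φ‖ := fun s φ =>
    ContinuousLinearMap.opNorm_le_bound _ (norm_nonneg φ) fun f => φ.le_of_opNorm_le_of_le le_rfl
      ((ContinuousMap.norm_le _ (norm_nonneg _)).2 fun t => f.norm_coe_le_norm _)
  obtain ⟨φ, ⟨-, h1⟩, h2⟩ := H SS _ (fun _ => Iff.rfl) ⟨fun f => f (cc OnePoint.infty),
      fun _ _ _ _ => rfl, fun _ _ _ => rfl, fun f _ h => h _, rfl, fun s f ⟨F, hF, hK⟩ =>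
        wap f _ hK F hF (fun G hG => subset_closure ⟨G, hG, rfl⟩) (s.1 OnePoint.infty) _⟩
    C(XX, ℝ) {φ | ‖φ‖ ≤ 1 ∧ φ 1 = 1} (fun s φ => φ.comp (AA s))
    ⟨ContinuousMap.evalCLM ℝ OnePoint.infty, ContinuousLinearMap.opNorm_le_bound _ zero_le_one
      fun f => by rw [one_mul]; exact f.norm_coe_le_norm _, rfl⟩
    (fun a ha b hb x y hx hy hxy => ⟨by
      have := convex_closedBall (0 : StrongDual ℝ C(XX, ℝ)) 1 (mem_closedBall_zero_iff.2 ha.1)
        (mem_closedBall_zero_iff.2 hb.1) hx hy hxy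
      exact mem_closedBall_zero_iff.1 this, by
      show x * a 1 + y * b 1 = 1
      rw [ha.2, hb.2, mul_one, mul_one, hxy]⟩) (sep _)
    (by
      have := (WeakDual.isCompact_closedBall (𝕜 := ℝ) (E := C(XX, ℝ)) 0 1).inter_right
        (isClosed_eq (WeakDual.eval_continuous 1) (continuous_const (y := (1 : ℝ))))
      convert this using 1
      ext ω
      exact ⟨fun ⟨a, ha, e⟩ => e ▸ ⟨mem_closedBall_zero_iff.2 ha.1, ha.2⟩,
        fun h => ⟨ω, ⟨mem_closedBall_zero_iff.1 h.1, h.2⟩, rfl⟩⟩)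
    (fun s φ h => ⟨(hA s φ).trans h.1, h.2⟩) (fun _ _ _ _ => rfl)
    (fun s φ _ ψ _ => by
      have := hA s (φ - ψ)
      rwa [ContinuousLinearMap.sub_comp] at this)
    (fun s => (WeakDual.continuous_of_continuous_eval fun f =>
      WeakDual.eval_continuous (AA s f)).continuousOn)
  have k : ∀ x : XX, ind 0 x = φ (ind 0) := fun x => by
    rw [← h2 (cc x)]
    show _ = φ (AA (cc x) (ind 0))
    have : AA (cc x) (ind 0) = ind 0 x • 1 := by ext t; simp [AA, cc]
    rw [this, map_smul, h1, smul_eq_mul, mul_one]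
  have k1 : (if (0 : ℕ) = 0 then (1 : ℝ) else 0) = 0 := (k (0 : ℕ)).trans (k OnePoint.infty).symm
  simp at k1

end Pool.Agent.S03988
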