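import Pool.Statements.S04011
import Pool.Agent.H27.Dust2

set_option autoImplicit false
open Filter Topology
open Pool Pool.MP_1f345d_an

namespace Pool.Agent.S04011

/-- For every four-corner Cantor dust of ratio 1/4 on a square in the open positive quadrant, some pair (x,y) in c0×c0 has a dense orbit under e^λB × e^μB for every (λ,μ) in the dust. -/
theorem result :
    ∀ a b h : ℝ, 0 < a → 0 < b → 0 < h →
      ∃ x y : ℕ → ℂ, Tendsto x atTop (𝓝 0) ∧ Tendsto y atTop (𝓝 0) ∧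
        ∀ lam mu : ℝ,
          (∃ ε : ℕ → Bool, lam = a + h * ∑' m : ℕ, (if ε m then (3/4 : ℝ) * (1/4 : ℝ) ^ m else 0)) →
          (∃ δ : ℕ → Bool, mu = b + h * ∑' m : ℕ, (if δ m then (3/4 : ℝ) * (1/4 : ℝ) ^ m else 0)) →
          ∀ u v : ℕ → ℂ, Tendsto u atTop (𝓝 0) → Tendsto v atTop (𝓝 0) →
            ∀ η : ℝ, 0 < η → ∃ k : ℕ, ∀ n : ℕ,
              ‖((Real.exp ((k : ℝ) * lam) : ℝ) : ℂ) * x (n + k) - u n‖ < η ∧
              ‖((Real.exp ((k : ℝ) * mu) : ℝ) : ℂ) * y (n + k) - v n‖ < η := by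
  intro a b h a0 b0 h0
  have g : HasSum (fun m : ℕ => (3/4 : ℝ) * (1/4 : ℝ) ^ m) 1 := by
    have := (hasSum_geometric_of_lt_one (r := 1 / 4) (by norm_num) (by norm_num)).mul_left (3 / 4)
    rwa [show (3 / 4 : ℝ) * (1 - 1 / 4)⁻¹ = 1 by norm_num] at this
  have b1 : ∀ (ε : ℕ → Bool) m, 0 ≤ (if ε m then (3/4 : ℝ) * (1/4 : ℝ) ^ m else 0) :=
    fun ε m => by positivity
  have b2 : ∀ (ε : ℕ → Bool) m, (if ε m then (3/4 : ℝ) * (1/4 : ℝ) ^ m else 0) ≤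
      (3/4 : ℝ) * (1/4 : ℝ) ^ m := fun ε m => by
    split_ifs
    exacts [le_rfl, by positivity]
  have sm := fun ε => Summable.of_nonneg_of_le (b1 ε) (b2 ε) g.summable
  obtain ⟨x, x0, hx⟩ := H27.Dust.main (K := Set.range fun ε : ℕ → Bool =>
      ∑' m : ℕ, (if ε m then (3/4 : ℝ) * (1/4 : ℝ) ^ m else 0)) (by
    rintro _ ⟨ε, rfl⟩
    refine ⟨tsum_nonneg (b1 ε), ((sm ε).tsum_le_tsum (b2 ε) g.summable).trans_eq g.tsum_eq, ε 0,
      _, ⟨fun m => ε (m + 1), rfl⟩, ?_⟩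
    simp only
    rw [(sm ε).tsum_eq_zero_add, ← tsum_div_const]
    congr 1
    · simp
    · refine tsum_congr fun m => ?_
      split_ifs <;> ring) (lt_min a0 b0) h0 (c := fun i => if i then a else b)
      (fun i => by cases i <;> simp)
  refine ⟨x true, x false, x0 _, x0 _, ?_⟩
  rintro lam mu ⟨ε, h1⟩ ⟨δ, h2⟩ u v hu hv η η0
  obtain ⟨k, hk⟩ := hx (fun i => if i then lam else mu) (fun i => by
    cases i
    exacts [⟨_, ⟨δ, rfl⟩, h2⟩, ⟨_, ⟨ε, rfl⟩, h1⟩]) (fun i => if i then u else v)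
    (fun i => by cases i <;> assumption) η η0
  exact ⟨k, fun n => ⟨hk true n, hk false n⟩⟩

end Pool.Agent.S04011
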