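import Pool.Statements.S04016
import Pool.Agent.H33.Ritt

set_option autoImplicit false
open Pool Pool.MP_1fc4c0_an

namespace Pool.Agent.S04016

open Pool.Agent.H33.Ritt

theorem result :
    ¬ (∀ p : ℤ → ℝ, (∀ n, 0 ≤ p n) → Summable p → ∑' n, p n = 1 →
      (∀ t : ℝ, t ∈ Set.Ioo 0 (2 * Real.pi) →
        ‖∑' n : ℤ, (p n : ℂ) * Complex.exp (Complex.I * (t : ℂ) * (n : ℂ))‖ < 1) →
      ((∃ C : ℝ, ∀ t : ℝ, t ∈ Set.Ioo 0 (2 * Real.pi) →
          ‖1 - ∑' n : ℤ, (p n : ℂ) * Complex.exp (Complex.I * (t : ℂ) * (n : ℂ))‖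
            ≤ C * (1 - ‖∑' n : ℤ, (p n : ℂ) * Complex.exp (Complex.I * (t : ℂ) * (n : ℂ))‖)) ↔
       (∃ C : ℝ, ∀ n : ℕ,
          (n : ℝ) * ∑' k : ℤ,
            |((fun f : ℤ → ℝ => fun m : ℤ => ∑' j : ℤ, f j * p (m - j))^[n]
                (fun m : ℤ => if m = 0 then (1 : ℝ) else 0)) k
              - ((fun f : ℤ → ℝ => fun m : ℤ => ∑' j : ℤ, f j * p (m - j))^[n + 1]
                (fun m : ℤ => if m = 0 then (1 : ℝ) else 0)) k| ≤ C))) := by
  intro H
  obtain ⟨p, p0, hp⟩ := exists_p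
  have p1 : HasSum p 1 := by
    have := hp 1 (by simp)
    simp only [Pi.one_apply, mul_one, show ∀ x : ℂ, x / 2 * (1 + 1) = x from fun x => by ring,
      ← Complex.ofReal_tsum, w_sum.tsum_eq] at this
    exact Complex.hasSum_ofReal.1 (by norm_num at this ⊢; exact this)
  have key : ∀ t : ℝ, t ∈ Set.Ioo 0 (2 * Real.pi) → ∃ r : ℝ, 0 ≤ r ∧ r < 1 ∧
      ∑' n : ℤ, (p n : ℂ) * Complex.exp (Complex.I * (t : ℂ) * (n : ℂ)) = r := by
    intro t ht
    have c : ∀ k, |w k * Real.cos (t * N k)| ≤ w k := fun k => by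
      rw [abs_mul, abs_of_pos (w_pos k)]
      exact mul_le_of_le_one_right (w_pos k).le (Real.abs_cos_le_one _)
    have s : Summable fun k => w k * Real.cos (t * N k) := .of_norm_bounded w_sum.summable c
    refine ⟨1 / 2 + ∑' k, w k * Real.cos (t * N k), ?_, ?_, ?_⟩
    · have := hasSum_le (fun k => (abs_le.1 (c k)).1) w_sum.neg s.hasSum
      linarith
    · have := hasSum_lt (i := 0) (fun k => (abs_le.1 (c k)).2) (by
        have := (Real.cos_eq_one_iff_of_lt_of_lt (x := t) (by linarith [ht.1, ht.2]) ht.2).not.2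
          ht.1.ne'
        have := (Real.cos_le_one t).lt_of_ne this
        simp only [N, Nat.cast_one, mul_one]
        nlinarith [w_pos 0]) s.hasSum w_sum
      linarith
    · rw [(hp (fun n => Complex.exp (Complex.I * (t : ℂ) * (n : ℂ))) fun n => by
        rw [Complex.norm_exp]; simp).tsum_eq]
      push_cast
      congr 1
      · simp
      · refine tsum_congr fun k => ?_
        rw [Complex.cos]
        ring_nf
  obtain ⟨C, hC⟩ := (H p p0 p1.summable p1.tsum_eq fun t ht => by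
    obtain ⟨r, a, b, c⟩ := key t ht
    rwa [c, Complex.norm_real, Real.norm_of_nonneg a]).1 ⟨1, fun t ht => by
    obtain ⟨r, a, b, c⟩ := key t ht
    rw [c, ← Complex.ofReal_one, ← Complex.ofReal_sub, Complex.norm_real, Complex.norm_real,
      Real.norm_of_nonneg a, Real.norm_of_nonneg (by linarith), one_mul]⟩
  obtain ⟨m, hm⟩ := exists_nat_gt (max 2 (4 * (C + 1)))
  obtain ⟨m2, mC⟩ := max_lt_iff.1 hm
  have m0 : (0 : ℝ) < m := by linarith
  have m1 : 0 < m := by exact_mod_cast m0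
  let z : ℂ := ⟨1 - 1 / m ^ 2, 1 / m⟩
  have hz : ‖z‖ ≤ 1 - 1 / (4 * m ^ 2) := by
    have a : (1 : ℝ) / m ^ 2 ≤ 1 / 4 := one_div_le_one_div_of_le (by norm_num) (by nlinarith)
    have b : (0 : ℝ) < 1 / m ^ 2 := by positivity
    have c : (1 : ℝ) / (4 * m ^ 2) = 1 / m ^ 2 / 4 := by field_simp
    refine (abs_le_of_sq_le_sq' ?_ (by linarith)).2
    rw [Complex.sq_norm, Complex.normSq_mk, c, show (1 : ℝ) / m * (1 / m) = 1 / m ^ 2 by field_simp]
    nlinarith
  obtain ⟨φ, h1, h0, h⟩ := eigen (84 * m ^ 6) (by positivity) z _ (by positivity) hz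
  push_cast at h
  obtain ⟨c, hc⟩ : ∃ c : ℝ, c = 1 / (4 * (84 * m ^ 6)) := ⟨_, rfl⟩
  have c0 : 0 < c := by rw [hc]; positivity
  have c1 : c ≤ 1 := by
    rw [hc, div_le_one (by positivity)]
    nlinarith [one_le_pow₀ (show (1 : ℝ) ≤ m by linarith) (n := 6)]
  have e : (1 : ℂ) / (4 * (84 * m ^ 6)) = c := by rw [hc]; push_cast; ring
  rw [e] at h
  have z1 : ‖z‖ ≤ 1 := hz.trans (sub_le_self _ (by positivity))
  have := drift p p0 p1 (fun n => (fun f : ℤ → ℝ => fun m : ℤ => ∑' j : ℤ, f j * p (m - j))^[n]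
    (fun m : ℤ => if m = 0 then (1 : ℝ) else 0)) rfl
    (fun n m => by rw [Function.iterate_succ_apply']) φ h1 h0 (1 - c * (1 - z)) (by
      rw [show 1 - c * (1 - z) = ((1 - c : ℝ) : ℂ) + c * z by push_cast; ring]
      refine (norm_add_le _ _).trans ?_
      rw [norm_mul, Complex.norm_real, Complex.norm_real, Real.norm_of_nonneg c0.le,
        Real.norm_of_nonneg (by linarith)]
      nlinarith) _ (fun x => by
      rw [(hp (fun y => φ (x + y)) fun y => h1 _).tsum_eq, add_zero]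
      exact h x) (168 * m ^ 8)
  have hC := (mul_le_mul_of_nonneg_left this (Nat.cast_nonneg _)).trans (hC _)
  have a1 : c / m ≤ ‖1 - (1 - c * (1 - z))‖ := by
    refine le_trans ?_ ((neg_le_abs _).trans (Complex.abs_im_le_norm _))
    simp [z, div_eq_mul_inv]
  have a2 : 1 - c / m ^ 2 ≤ ‖1 - c * (1 - z)‖ := by
    refine le_trans ?_ (Complex.re_le_norm _)
    simp [z, div_eq_mul_inv]
  have a0 : c / m ^ 2 ≤ 1 := by
    rw [div_le_one (by positivity)]; nlinarith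
  have a3 : 1 / 2 ≤ ‖1 - c * (1 - z)‖ ^ (168 * m ^ 8) := by
    refine le_trans ?_ (pow_le_pow_left₀ (by linarith) a2 _)
    refine le_trans (le_of_eq ?_) (one_add_mul_le_pow (a := -(c / m ^ 2)) (by linarith) _)
    rw [hc]; push_cast; field_simp; ring
  have a4 := mul_le_mul a1 a3 (by norm_num) (norm_nonneg _)
  have a5 : (168 * m ^ 8 : ℝ) * (c / m * (1 / 2)) = m / 4 := by rw [hc]; field_simp; ring
  have a6 : (168 * m ^ 8 : ℝ) * ((2 * (168 * m ^ 8) + 1) *
      (3 / (84 * m ^ 6) ^ 4 + 1 / ((84 * m ^ 6) ^ 3 * (1 / (4 * m ^ 2))))) ≤ 1 := by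
    have b1 : (1 : ℝ) ≤ m ^ 8 := one_le_pow₀ (by linarith)
    have b2 : (3 : ℝ) / (84 * m ^ 6) ^ 4 ≤ 3 / (84 ^ 3 * m ^ 16) := by
      refine div_le_div_of_nonneg_left (by norm_num) (by positivity) ?_
      nlinarith [pow_pos m0 16]
    have b3 : (1 : ℝ) / ((84 * m ^ 6) ^ 3 * (1 / (4 * m ^ 2))) = 4 / (84 ^ 3 * m ^ 16) := by
      field_simp
    rw [b3]
    calc _ ≤ (168 * m ^ 8 : ℝ) * ((3 * (168 * m ^ 8)) *
          (3 / (84 ^ 3 * m ^ 16) + 4 / (84 ^ 3 * m ^ 16))) := by gcongr; linarith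
      _ = 1 := by field_simp; ring
  push_cast at hC
  nlinarith [mul_le_mul_of_nonneg_left a4 (show (0 : ℝ) ≤ 168 * m ^ 8 by positivity)]

end Pool.Agent.S04016
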