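import Pool.Statements.S04018
import Pool.Agent.H28.KoebeChain

set_option autoImplicit false
open Pool Pool.MP_1fc8c4_an

namespace Pool.Agent.S04018

open Pool.Agent.H28.Growth Pool.Agent.H28.KoebeChain Filter Topology Metric

/-- The negation of the preceding statement: Here S^0 is the class of maps of the unit ball of C^2 with parametric representation. If f in S^0 maximizes Re L over S^0 for some continuous linear functional L not constant on S^0, then any two normal Loewner chains starting at f coincide. -/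
theorem result :
    ¬ (∀ (S0 : Set (EuclideanSpace ℂ (Fin 2) → EuclideanSpace ℂ (Fin 2)))
    (NLC : Set (EuclideanSpace ℂ (Fin 2) → ℝ → EuclideanSpace ℂ (Fin 2))),
  (∀ g, g ∈ S0 ↔ ∃ (h : EuclideanSpace ℂ (Fin 2) → ℝ → EuclideanSpace ℂ (Fin 2))
      (v : EuclideanSpace ℂ (Fin 2) → ℝ → EuclideanSpace ℂ (Fin 2)),
      (∀ t : ℝ, DifferentiableOn ℂ (fun z => h z t) (Metric.ball (0 : EuclideanSpace ℂ (Fin 2)) 1) ∧
        h 0 t = 0 ∧
        fderiv ℂ (fun z => h z t) 0 = ContinuousLinearMap.id ℂ (EuclideanSpace ℂ (Fin 2)) ∧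
        ∀ z ∈ Metric.ball (0 : EuclideanSpace ℂ (Fin 2)) 1, z ≠ 0 → 0 < (inner ℂ z (h z t)).re) ∧
      (∀ z ∈ Metric.ball (0 : EuclideanSpace ℂ (Fin 2)) 1,
        MeasureTheory.StronglyMeasurable (fun t : ℝ => h z t)) ∧
      (∀ z ∈ Metric.ball (0 : EuclideanSpace ℂ (Fin 2)) 1,
        (∀ t : ℝ, 0 ≤ t → v z t ∈ Metric.ball (0 : EuclideanSpace ℂ (Fin 2)) 1 ∧
          IntervalIntegrable (fun s => h (v z s) s) MeasureTheory.volume 0 t ∧
          v z t = z - ∫ s in (0:ℝ)..t, h (v z s) s) ∧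
        Filter.Tendsto (fun t : ℝ => ((Real.exp t : ℝ) : ℂ) • v z t) Filter.atTop (nhds (g z)))) →
  (∀ F, F ∈ NLC ↔
      (∀ t : ℝ, 0 ≤ t →
        DifferentiableOn ℂ (fun z => F z t) (Metric.ball (0 : EuclideanSpace ℂ (Fin 2)) 1) ∧
        Set.InjOn (fun z => F z t) (Metric.ball (0 : EuclideanSpace ℂ (Fin 2)) 1) ∧
        F 0 t = 0 ∧
        fderiv ℂ (fun z => F z t) 0 =
          ((Real.exp t : ℝ) : ℂ) • ContinuousLinearMap.id ℂ (EuclideanSpace ℂ (Fin 2))) ∧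
      (∀ s t : ℝ, 0 ≤ s → s ≤ t →
        (fun z => F z s) '' Metric.ball (0 : EuclideanSpace ℂ (Fin 2)) 1 ⊆
          (fun z => F z t) '' Metric.ball (0 : EuclideanSpace ℂ (Fin 2)) 1) ∧
      (∀ r : ℝ, r < 1 → ∃ M : ℝ, ∀ t : ℝ, 0 ≤ t → ∀ z : EuclideanSpace ℂ (Fin 2),
        ‖z‖ ≤ r → ‖F z t‖ ≤ M * Real.exp t)) →
  ∀ f ∈ S0,
    (∃ L : (EuclideanSpace ℂ (Fin 2) → EuclideanSpace ℂ (Fin 2)) → ℂ,
      (∀ g1 g2 : EuclideanSpace ℂ (Fin 2) → EuclideanSpace ℂ (Fin 2),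
        DifferentiableOn ℂ g1 (Metric.ball (0 : EuclideanSpace ℂ (Fin 2)) 1) →
        DifferentiableOn ℂ g2 (Metric.ball (0 : EuclideanSpace ℂ (Fin 2)) 1) →
        ∀ a b : ℂ, L (a • g1 + b • g2) = a * L g1 + b * L g2) ∧
      (∃ K : Set (EuclideanSpace ℂ (Fin 2)), K ⊆ Metric.ball (0 : EuclideanSpace ℂ (Fin 2)) 1 ∧
        IsCompact K ∧ ∃ C : ℝ, ∀ g : EuclideanSpace ℂ (Fin 2) → EuclideanSpace ℂ (Fin 2),
          DifferentiableOn ℂ g (Metric.ball (0 : EuclideanSpace ℂ (Fin 2)) 1) →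
          ∀ M : ℝ, (∀ z ∈ K, ‖g z‖ ≤ M) → ‖L g‖ ≤ C * M) ∧
      (∀ g ∈ S0, (L g).re ≤ (L f).re) ∧
      (∃ g ∈ S0, L g ≠ L f)) →
    ∀ F1 ∈ NLC, ∀ F2 ∈ NLC,
      (∀ z ∈ Metric.ball (0 : EuclideanSpace ℂ (Fin 2)) 1, F1 z 0 = f z) →
      (∀ z ∈ Metric.ball (0 : EuclideanSpace ℂ (Fin 2)) 1, F2 z 0 = f z) →
      ∀ t : ℝ, 0 ≤ t → ∀ z ∈ Metric.ball (0 : EuclideanSpace ℂ (Fin 2)) 1, F1 z t = F2 z t) := by
  intro H
  have key := H {g | _} {F | _} (fun g => Iff.rfl) (fun F => Iff.rfl) fK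
    ⟨fun z _ => hK z, vK, fun _ => ⟨hK_diff, ext2 (by simp [hK]) (by simp [hK]), hK_fd,
        fun z hz hz0 => hK_pos hz hz0⟩,
      fun z _ => MeasureTheory.stronglyMeasurable_const,
      fun z hz => ⟨fun t ht => ⟨vK_mem hz ht, ode hK_diff.continuousOn (vK_zero hz)
        (fun t ht => vK_mem hz ht) (fun t ht => vK_deriv hz ht) ht⟩, vK_lim hz⟩⟩
    ⟨fun g => g (pt (1 / 2) 0) 0, ?_, ?_, ?_, ?_⟩ (ch 0) ?_ (ch (1 / 2)) ?_
    (fun z _ => ch_zero _ z) (fun z _ => ch_zero _ z) 1 zero_le_one (pt 0 (1 / 2))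
    (by rw [mem_ball_zero_iff, half_mem _ _ (by norm_num)]; norm_num)
  · exact ch_ne key
  · intro g1 g2 _ _ a b
    simp
  · refine ⟨{pt (1 / 2) 0}, ?_, isCompact_singleton, 1, fun g _ M hM => ?_⟩
    · rintro _ rfl
      rw [mem_ball_zero_iff, half_mem _ _ (by norm_num)]; norm_num
    · rw [one_mul]
      exact (c_le _ 0).trans (hM _ rfl)
  · rintro g ⟨h, v, h1, -, h3⟩
    have hn : ‖pt (1 / 2) 0‖ = 1 / 2 := half_mem _ _ (by norm_num)
    have hz : pt (1 / 2) 0 ∈ ball (0 : E) 1 := by rw [mem_ball_zero_iff, hn]; norm_num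
    obtain ⟨h4, h5⟩ := h3 _ hz
    have hb : ‖g (pt (1 / 2) 0)‖ ≤ 2 := by
      refine le_of_tendsto h5.norm ?_
      filter_upwards [eventually_ge_atTop 0] with T hT
      have := growth (H := fun s => h (v (pt (1 / 2) 0) s) s) (v := v (pt (1 / 2) 0))
        (z := pt (1 / 2) 0)
        (fun t ht => ⟨mem_ball_zero_iff.1 (h4 t ht).1, (h4 t ht).2⟩)
        (fun t ht hne => harnack (h1 t).1 (h1 t).2.1 (h1 t).2.2.1 (h1 t).2.2.2
          (mem_ball_zero_iff.1 (h4 t ht).1) hne) hT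
      rw [norm_smul, Complex.norm_real, Real.norm_of_nonneg (Real.exp_pos _).le]
      rw [hn] at this
      norm_num at this ⊢
      exact this
    have e : (fK (pt (1 / 2) 0) 0).re = 2 := by
      simp only [fK, pt0]
      norm_num
    simp only
    rw [e]
    exact (Complex.re_le_norm _).trans ((c_le _ 0).trans hb)
  · refine ⟨fun z => z, ⟨fun z _ => z, fun z t => ((Real.exp (-t) : ℝ) : ℂ) • z,
      fun _ => ⟨differentiableOn_id, rfl, fderiv_id', fun z _ hz0 => ?_⟩,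
      fun z _ => MeasureTheory.stronglyMeasurable_const, fun z hz => ?_⟩, ?_⟩
    · rw [inner_self_eq_norm_sq_to_K]
      simp only [Complex.coe_algebraMap, ← Complex.ofReal_pow, Complex.ofReal_re]
      positivity
    · have hm : ∀ t : ℝ, 0 ≤ t → ((Real.exp (-t) : ℝ) : ℂ) • z ∈ ball (0 : E) 1 := by
        intro t ht
        rw [mem_ball_zero_iff, norm_smul, Complex.norm_real,
          Real.norm_of_nonneg (Real.exp_pos _).le]
        exact (mul_le_of_le_one_left (norm_nonneg _)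
          (Real.exp_le_one_iff.2 (by linarith))).trans_lt (mem_ball_zero_iff.1 hz)
      refine ⟨fun t ht => ⟨hm t ht, ode (h := fun z => z) continuousOn_id (by simp) hm
        (fun t _ => ?_) ht⟩, tendsto_const_nhds.congr fun t => ?_⟩
      · simpa using (exp_d 1 t).smul_const z
      · rw [smul_smul, ← Complex.ofReal_mul, ← Real.exp_add]; simp
    · simp only [fK, pt0]
      norm_num
  · exact ⟨fun t ht => ch_basic le_rfl (by norm_num) ht,
      fun s t hs hst => ch_mono le_rfl (by norm_num) hs hst,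
      fun r hr => ⟨_, fun t ht z hz => ch_bdd le_rfl (by norm_num) hr ht hz⟩⟩
  · exact ⟨fun t ht => ch_basic (by norm_num) le_rfl ht,
      fun s t hs hst => ch_mono (by norm_num) le_rfl hs hst,
      fun r hr => ⟨_, fun t ht z hz => ch_bdd (by norm_num) le_rfl hr ht hz⟩⟩

end Pool.Agent.S04018
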