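import Pool.Statements.S04054
import Pool.Agent.H1.UcA

set_option autoImplicit false
open Pool Pool.MP_22f2dc_an

namespace Pool.Agent.S04054

/-- The negation of the preceding statement: Take nonconstant C1 weak solutions u, v of div(A grad u)=0 on a connected open set in R^n, n≥2, with A symmetric, uniformly elliptic and Lipschitz. If u vanishes on a connected smooth hypersurface S and v on a nonempty open proper piece of S, then v vanishes on all of S. -/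
theorem result :
    ¬ (∀ (n : ℕ), 2 ≤ n →
  ∀ (Ω : Set (EuclideanSpace ℝ (Fin n))), IsOpen Ω → IsConnected Ω →
  ∀ (A : EuclideanSpace ℝ (Fin n) → Matrix (Fin n) (Fin n) ℝ) (K E : ℝ), 0 < K →
    (∀ x ∈ Ω, ∀ i j, A x i j = A x j i) →
    (∀ x ∈ Ω, ∀ ξ : EuclideanSpace ℝ (Fin n),
        K⁻¹ * ‖ξ‖ ^ 2 ≤ ∑ i, ∑ j, A x i j * ξ i * ξ j ∧
        ∑ i, ∑ j, A x i j * ξ i * ξ j ≤ K * ‖ξ‖ ^ 2) →
    (∀ x ∈ Ω, ∀ y ∈ Ω, ∀ i j, |A x i j - A y i j| ≤ E * dist x y) →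
  ∀ (u v : EuclideanSpace ℝ (Fin n) → ℝ),
    ContDiffOn ℝ 1 u Ω → ContDiffOn ℝ 1 v Ω →
    (¬ ∃ c : ℝ, ∀ x ∈ Ω, u x = c) →
    (¬ ∃ c : ℝ, ∀ x ∈ Ω, v x = c) →
    (∀ φ : EuclideanSpace ℝ (Fin n) → ℝ,
        ContDiff ℝ ((⊤ : ℕ∞) : WithTop ℕ∞) φ → HasCompactSupport φ → tsupport φ ⊆ Ω →
        ∫ x, ∑ i, ∑ j, A x i j * fderiv ℝ u x (EuclideanSpace.single j 1)
            * fderiv ℝ φ x (EuclideanSpace.single i 1) = 0) →
    (∀ φ : EuclideanSpace ℝ (Fin n) → ℝ,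
        ContDiff ℝ ((⊤ : ℕ∞) : WithTop ℕ∞) φ → HasCompactSupport φ → tsupport φ ⊆ Ω →
        ∫ x, ∑ i, ∑ j, A x i j * fderiv ℝ v x (EuclideanSpace.single j 1)
            * fderiv ℝ φ x (EuclideanSpace.single i 1) = 0) →
  ∀ (S Sig : Set (EuclideanSpace ℝ (Fin n))),
    S ⊆ Ω → IsConnected S →
    (∀ p ∈ S, ∃ (U : Set (EuclideanSpace ℝ (Fin n))) (f : EuclideanSpace ℝ (Fin n) → ℝ),
        IsOpen U ∧ p ∈ U ∧ ContDiff ℝ ((⊤ : ℕ∞) : WithTop ℕ∞) f ∧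
        (∀ x ∈ U, fderiv ℝ f x ≠ 0) ∧ S ∩ U = {x | x ∈ U ∧ f x = 0}) →
    Sig ⊆ S → Sig.Nonempty → Sig ≠ S →
    (∃ O : Set (EuclideanSpace ℝ (Fin n)), IsOpen O ∧ Sig = S ∩ O) →
    (∀ x ∈ S, u x = 0) →
    (∀ x ∈ Sig, v x = 0) →
    ∀ x ∈ S, v x = 0) := by
  intro h
  have hC : ∀ {φ : H1.Uc.E → ℝ}, ContDiff ℝ ((⊤ : ℕ∞) : WithTop ℕ∞) φ → ContDiff ℝ 1 φ :=
    fun hφ => hφ.of_le (WithTop.coe_le_coe.2 (le_top : (1 : ℕ∞) ≤ ⊤))
  have hp := H1.Uc.p2_one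
  have hv : H1.Uc.v (EuclideanSpace.single 0 1) = H1.Uc.p2 1 := by simp [H1.Uc.v]
  have key := h 3 (by norm_num) Set.univ isOpen_univ isConnected_univ H1.Uc.A 2 1 (by norm_num)
    (fun x _ i j => by fin_cases i <;> fin_cases j <;> simp [H1.Uc.A])
    (fun x _ ξ => by
      have hb := H1.Uc.p_mem (x 0)
      rw [EuclideanSpace.real_norm_sq_eq]
      simp only [Fin.sum_univ_three, H1.Uc.A]
      simp
      constructor <;>
        nlinarith [sq_nonneg (ξ 0), sq_nonneg (ξ 1 - ξ 2), sq_nonneg (ξ 1 + ξ 2), hb.1, hb.2,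
          mul_nonneg hb.1 (sq_nonneg (ξ 1 - ξ 2)), mul_nonneg hb.1 (sq_nonneg (ξ 1 + ξ 2)),
          mul_nonneg (sub_nonneg.2 hb.2) (sq_nonneg (ξ 1 - ξ 2)),
          mul_nonneg (sub_nonneg.2 hb.2) (sq_nonneg (ξ 1 + ξ 2))])
    (fun x _ y _ i j => by
      have h1 := H1.Uc.p_lip (x 0) (y 0)
      have h2 : |x 0 - y 0| ≤ dist x y := by
        rw [← Real.dist_eq]; exact PiLp.dist_apply_le x y 0
      have h3 : |-H1.Uc.p (x 0) / 2 - -H1.Uc.p (y 0) / 2| ≤ dist x y := by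
        rw [abs_le] at h1 ⊢
        constructor <;> linarith [h1.1, h1.2, abs_nonneg (x 0 - y 0)]
      fin_cases i <;> fin_cases j <;> simp [H1.Uc.A, h3])
    H1.Uc.u H1.Uc.v (by unfold H1.Uc.u; fun_prop)
    (by
      have := H1.Uc.p2_C1
      unfold H1.Uc.v; fun_prop)
    (by
      rintro ⟨c, hc⟩
      have h1 := hc 0 trivial
      have h2 := hc (EuclideanSpace.single 2 1) trivial
      simp [H1.Uc.u] at h1 h2
      linarith)
    (by
      rintro ⟨c, hc⟩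
      have h1 := hc 0 trivial
      have h2 := hc (EuclideanSpace.single 0 1) trivial
      rw [hv] at h2
      simp [H1.Uc.v, H1.Uc.p2_zero le_rfl] at h1
      linarith)
    (fun φ hφ hK _ => H1.Uc.weak_u φ (hC hφ) hK) (fun φ hφ hK _ => H1.Uc.weak_v φ (hC hφ) hK)
    {x | x 2 = 0} ({x | x 2 = 0} ∩ {x | x 0 < 0}) (Set.subset_univ _)
    (by
      refine ⟨⟨0, by simp⟩, Convex.isPreconnected ?_⟩
      intro x hx y hy a b _ _ _
      simp only [Set.mem_ofPred_eq] at hx hy ⊢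
      simp [hx, hy])
    (fun q _ => ⟨Set.univ, H1.Uc.u, isOpen_univ, trivial, by unfold H1.Uc.u; fun_prop,
      fun x _ hx => by
        rw [H1.Uc.u_fderiv] at hx
        have := congrArg (fun L => L (EuclideanSpace.single 2 1)) hx
        simp at this, by ext x; simp [H1.Uc.u]⟩)
    Set.inter_subset_left ⟨EuclideanSpace.single 0 (-1), by simp, by simp⟩
    (fun he => by
      have : (0 : H1.Uc.E) ∈ ({x | x 2 = 0} ∩ {x | x 0 < 0} : Set H1.Uc.E) := by rw [he]; simp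
      simp at this)
    ⟨{x | x 0 < 0}, isOpen_lt (by fun_prop) continuous_const, rfl⟩ (fun x hx => hx)
    (fun x hx => by
      have h1 : x 2 = 0 := hx.1
      have h2 : x 0 < 0 := hx.2
      simp [H1.Uc.v, h1, H1.Uc.p2_zero h2.le])
    (EuclideanSpace.single 0 1) (by simp)
  rw [hv] at key
  linarith

end Pool.Agent.S04054
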