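import Pool.Statements.S04080


set_option autoImplicit false
open Pool Pool.MP_24fbf1_an

namespace Pool.Agent.S04080

open NormedSpace Filter Topology

section alg

variable {𝔸 : Type} [CStarAlgebra 𝔸]

lemma key (A B R S : 𝔸) (hR : R ∈ skewAdjoint 𝔸) (hS : S ∈ skewAdjoint 𝔸) (c : ℂ)
    (hc : ‖c‖ = 1) (h1 : A * R = c • 1) (h1' : R * A = c • 1) (h2 : S * B = c • 1)
    (h2' : B * S = c • 1) :
    ‖A * exp R * B - A * exp S * B‖ ≤ ‖A - B‖ := by
  let +nondep : NormedAlgebra ℚ 𝔸 := .restrictScalars ℚ ℂ 𝔸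
  have hd : ∀ t : ℝ, HasDerivAt (fun t : ℝ => A * (exp (t • R) * exp ((1 - t) • S)) * B)
      (A * (exp (t • R) * R * exp ((1 - t) • S) + exp (t • R) * -(S * exp ((1 - t) • S))) * B) t := by
    intro t
    have e1 := hasDerivAt_exp_smul_const (𝕂 := ℝ) R t
    have e2 := (hasDerivAt_exp_smul_const' (𝕂 := ℝ) S (1 - t)).scomp t
      ((hasDerivAt_id t).const_sub 1)
    simp only [neg_smul, one_smul] at e2
    exact ((e1.mul e2).const_mul A).mul_const B
  have hb := norm_image_sub_le_of_norm_deriv_le_segment_01' (C := ‖A - B‖)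
    (fun t _ => (hd t).hasDerivWithinAt) (fun t _ => by
      have u1 : exp (t • R) ∈ unitary 𝔸 :=
        exp_mem_unitary_of_mem_skewAdjoint (skewAdjoint.smul_mem t hR)
      have u2 : exp ((1 - t) • S) ∈ unitary 𝔸 :=
        exp_mem_unitary_of_mem_skewAdjoint (skewAdjoint.smul_mem (1 - t) hS)
      have c1 : Commute A (exp (t • R)) :=
        Commute.exp_right (Commute.smul_right (h1.trans h1'.symm) t)
      have c2 : Commute B (exp ((1 - t) • S)) :=
        Commute.exp_right (Commute.smul_right (h2'.trans h2.symm) (1 - t))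
      have : A * (exp (t • R) * R * exp ((1 - t) • S) + exp (t • R) * -(S * exp ((1 - t) • S))) * B
          = exp (t • R) * (c • (B - A)) * exp ((1 - t) • S) := by
        calc _ = (A * exp (t • R)) * (R - S) * (exp ((1 - t) • S) * B) := by noncomm_ring
          _ = (exp (t • R) * A) * (R - S) * (B * exp ((1 - t) • S)) := by rw [c1.eq, c2.eq]
          _ = exp (t • R) * ((A * R) * B - A * (S * B)) * exp ((1 - t) • S) := by noncomm_ring
          _ = _ := by rw [h1, h2]; simp [smul_sub]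
      rw [this, CStarRing.norm_mul_mem_unitary _ u2, CStarRing.norm_mem_unitary_mul _ u1,
        norm_smul, hc, one_mul, norm_sub_rev])
  simpa using hb

lemma key2 (A B R S : 𝔸) (hR : R ∈ skewAdjoint 𝔸) (hS : S ∈ skewAdjoint 𝔸) (c : ℂ)
    (hc : ‖c‖ = 1) (h1 : A * R = c • 1) (h1' : R * A = c • 1) (h2 : S * B = c • 1)
    (h2' : B * S = c • 1) (hA : ‖A‖ ≤ 2) (hB : ‖B‖ ≤ 2) :
    ‖A * exp R * A - B * exp S * B‖ ≤ 5 * ‖A - B‖ := by
  let +nondep : NormedAlgebra ℚ 𝔸 := .restrictScalars ℚ ℂ 𝔸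
  have h := key A B R S hR hS c hc h1 h1' h2 h2'
  have u1 : exp R ∈ unitary 𝔸 := exp_mem_unitary_of_mem_skewAdjoint hR
  have u2 : exp S ∈ unitary 𝔸 := exp_mem_unitary_of_mem_skewAdjoint hS
  have e : A * exp R * A - B * exp S * B = A * exp R * (A - B) + (A * exp R * B - A * exp S * B)
      + (A - B) * exp S * B := by noncomm_ring
  have b1 : ‖A * exp R * (A - B)‖ ≤ 2 * ‖A - B‖ := by
    refine (norm_mul_le _ _).trans ?_
    rw [CStarRing.norm_mul_mem_unitary _ u1]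
    exact mul_le_mul_of_nonneg_right hA (norm_nonneg _)
  have b2 : ‖(A - B) * exp S * B‖ ≤ ‖A - B‖ * 2 := by
    refine (norm_mul_le _ _).trans ?_
    rw [CStarRing.norm_mul_mem_unitary _ u2]
    exact mul_le_mul_of_nonneg_left hB (norm_nonneg _)
  rw [e]
  have := norm_add₃_le (a := A * exp R * (A - B)) (b := A * exp R * B - A * exp S * B)
    (c := (A - B) * exp S * B)
  linarith

lemma cfc_sin (R : 𝔸) (hR : IsSelfAdjoint R) :
    cfc Real.sin R = (Complex.I / 2) • (exp ((-Complex.I) • R) - exp (Complex.I • R)) := by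
  have hn := hR.isStarNormal
  rw [cfc_real_eq_complex Real.sin hR, ← CFC.complex_exp_eq_normedSpace_exp,
    ← CFC.complex_exp_eq_normedSpace_exp, ← cfc_comp_const_mul _ _ R, ← cfc_comp_const_mul _ _ R,
    ← cfc_sub _ _ R, ← cfc_const_mul _ _ R]
  refine cfc_congr (fun z hz => ?_)
  have hz' := hR.mem_spectrum_eq_re hz
  simp only [Complex.ofReal_sin]
  rw [← hz', Complex.sin]
  ring_nf

noncomputable def h (x : ℝ) : ℝ := x * Real.sin x⁻¹ * x

lemma h_deriv {x : ℝ} (hx : x ≠ 0) :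
    HasDerivAt h (2 * x * Real.sin x⁻¹ - Real.cos x⁻¹) x := by
  have := ((hasDerivAt_id x).mul ((hasDerivAt_inv hx).sin)).mul (hasDerivAt_id x)
  refine HasDerivAt.congr_deriv (f := h) this ?_
  simp only [id, Pi.mul_apply]
  field_simp
  ring

lemma h_deriv0 : HasDerivAt h 0 0 := by
  rw [hasDerivAt_iff_tendsto_slope_zero]
  refine squeeze_zero_norm' (a := fun t : ℝ => |t|) ?_ ?_
  · filter_upwards [self_mem_nhdsWithin] with t ht
    have ht' : t ≠ 0 := ht
    simp only [h, zero_add, mul_zero, sub_zero, smul_eq_mul]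
    rw [show t⁻¹ * (t * Real.sin t⁻¹ * t) = Real.sin t⁻¹ * t by field_simp, Real.norm_eq_abs,
      abs_mul]
    exact mul_le_of_le_one_left (abs_nonneg _) (Real.abs_sin_le_one _)
  · have : Tendsto (fun t : ℝ => |t|) (𝓝 0) (𝓝 |0|) := continuous_abs.tendsto 0
    rw [abs_zero] at this
    exact this.mono_left nhdsWithin_le_nhds

lemma h_cont : Continuous h := by
  rw [continuous_iff_continuousAt]
  intro x
  by_cases hx : x = 0
  · rw [hx]; exact h_deriv0.continuousAt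
  · exact (h_deriv hx).continuousAt

lemma shift_repr (A : 𝔸) (hA : IsSelfAdjoint A) (hs : spectrum ℝ A ⊆ Set.Icc 0 1) (ε : ℝ)
    (h0 : 0 < ε) (h1 : ε ≤ 1) : ∃ R : 𝔸, IsSelfAdjoint R ∧
      (A + algebraMap ℝ 𝔸 ε) * R = 1 ∧ R * (A + algebraMap ℝ 𝔸 ε) = 1 ∧
      ‖A + algebraMap ℝ 𝔸 ε‖ ≤ 2 ∧
      cfc (fun x => h (x + ε)) A =
        (A + algebraMap ℝ 𝔸 ε) * cfc Real.sin R * (A + algebraMap ℝ 𝔸 ε) := by
  have e1 : A + algebraMap ℝ 𝔸 ε = cfc (fun x : ℝ => x + ε) A := by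
    rw [cfc_add_const ε (fun x => x) A, cfc_id' ℝ A]
  have hne : ∀ x ∈ spectrum ℝ A, x + ε ≠ 0 := fun x hx => by
    have := (hs hx).1
    positivity
  have hc : ContinuousOn (fun x : ℝ => (x + ε)⁻¹) (spectrum ℝ A) :=
    ContinuousOn.inv₀ (by fun_prop) hne
  have hc0 : ContinuousOn (fun x : ℝ => x + ε) (spectrum ℝ A) := by fun_prop
  refine ⟨cfc (fun x : ℝ => (x + ε)⁻¹) A, cfc_predicate _ _, ?_, ?_, ?_, ?_⟩
  · rw [e1, ← cfc_mul _ _ A hc0 hc, ← cfc_one ℝ A]
    exact cfc_congr (fun x hx => mul_inv_cancel₀ (hne x hx))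
  · rw [e1, ← cfc_mul _ _ A hc hc0, ← cfc_one ℝ A]
    exact cfc_congr (fun x hx => inv_mul_cancel₀ (hne x hx))
  · rw [e1]
    refine norm_cfc_le (by norm_num) (fun x hx => ?_)
    have := hs hx
    rw [Real.norm_eq_abs, abs_le]
    constructor <;> linarith [this.1, this.2]
  · have hc2 : ContinuousOn (fun x : ℝ => Real.sin (x + ε)⁻¹) (spectrum ℝ A) :=
      Real.continuous_sin.comp_continuousOn hc
    rw [e1, ← cfc_comp' Real.sin _ A Real.continuous_sin.continuousOn hc hA,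
      ← cfc_mul _ _ A hc0 hc2, ← cfc_mul _ _ A (hc0.fun_mul hc2) hc0]
    rfl

lemma h_shift (A B : 𝔸) (hA : IsSelfAdjoint A) (hB : IsSelfAdjoint B)
    (hsA : spectrum ℝ A ⊆ Set.Icc 0 1) (hsB : spectrum ℝ B ⊆ Set.Icc 0 1) (ε : ℝ)
    (h0 : 0 < ε) (h1 : ε ≤ 1) :
    ‖cfc (fun x => h (x + ε)) A - cfc (fun x => h (x + ε)) B‖ ≤ 5 * ‖A - B‖ := by
  obtain ⟨R, hR, r1, r2, r3, r4⟩ := shift_repr A hA hsA ε h0 h1
  obtain ⟨S, hS, s1, s2, s3, s4⟩ := shift_repr B hB hsB ε h0 h1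
  set A' := A + algebraMap ℝ 𝔸 ε with hA'
  set B' := B + algebraMap ℝ 𝔸 ε with hB'
  have e : A' - B' = A - B := by rw [hA', hB']; abel
  have k : ∀ c : ℂ, c ∈ skewAdjoint ℂ → ‖c‖ = 1 →
      ‖A' * exp (c • R) * A' - B' * exp (c • S) * B'‖ ≤ 5 * ‖A - B‖ := by
    intro c hc hn
    rw [← e]
    exact key2 A' B' _ _ (hR.smul_mem_skewAdjoint hc) (hS.smul_mem_skewAdjoint hc) c hn
      (by rw [mul_smul_comm, r1]) (by rw [smul_mul_assoc, r2]) (by rw [smul_mul_assoc, s2])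
      (by rw [mul_smul_comm, s1]) r3 s3
  have k1 := k Complex.I Complex.conj_I Complex.norm_I
  have k2 := k (-Complex.I) (neg_mem (show Complex.I ∈ skewAdjoint ℂ from Complex.conj_I))
    (by simp)
  rw [r4, s4, cfc_sin R hR, cfc_sin S hS]
  have : A' * (Complex.I / 2) • (exp ((-Complex.I) • R) - exp (Complex.I • R)) * A' -
      B' * (Complex.I / 2) • (exp ((-Complex.I) • S) - exp (Complex.I • S)) * B' =
      (Complex.I / 2) • ((A' * exp ((-Complex.I) • R) * A' - B' * exp ((-Complex.I) • S) * B') -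
        (A' * exp (Complex.I • R) * A' - B' * exp (Complex.I • S) * B')) := by
    simp only [mul_smul_comm, smul_mul_assoc, ← smul_sub]
    congr 1
    noncomm_ring
  rw [this, norm_smul]
  have h3 := norm_sub_le (A' * exp ((-Complex.I) • R) * A' - B' * exp ((-Complex.I) • S) * B')
    (A' * exp (Complex.I • R) * A' - B' * exp (Complex.I • S) * B')
  have h4 : ‖Complex.I / 2‖ = 1 / 2 := by simp
  rw [h4]
  linarith

lemma h_OL (A B : 𝔸) (hA : IsSelfAdjoint A) (hB : IsSelfAdjoint B)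
    (hsA : spectrum ℝ A ⊆ Set.Icc 0 1) (hsB : spectrum ℝ B ⊆ Set.Icc 0 1) :
    ‖cfc h A - cfc h B‖ ≤ 5 * ‖A - B‖ := by
  refine le_of_forall_pos_le_add (fun η hη => ?_)
  have huc := (isCompact_Icc (a := (0 : ℝ)) (b := 2)).uniformContinuousOn_of_continuous
    h_cont.continuousOn
  obtain ⟨δ, hδ, hd⟩ := Metric.uniformContinuousOn_iff_le.1 huc (η / 2) (by positivity)
  have hε0 : 0 < min δ 1 := by positivity
  have hε1 : min δ 1 ≤ 1 := min_le_right _ _
  have hc := h_cont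
  have k : ∀ C : 𝔸, IsSelfAdjoint C → spectrum ℝ C ⊆ Set.Icc 0 1 →
      ‖cfc h C - cfc (fun x => h (x + min δ 1)) C‖ ≤ η / 2 := by
    intro C hC hs
    rw [← cfc_sub _ _ C]
    refine norm_cfc_le (by positivity) (fun x hx => ?_)
    have := hs hx
    rw [← dist_eq_norm]
    refine hd x ⟨this.1, by linarith [this.2]⟩ _ ⟨by linarith [this.1], by linarith [this.2]⟩ ?_
    rw [Real.dist_eq, show x - (x + min δ 1) = -(min δ 1) by ring, abs_neg, abs_of_pos hε0]
    exact min_le_left _ _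
  have k1 := k A hA hsA
  have k2 := k B hB hsB
  have k3 := h_shift A B hA hB hsA hsB _ hε0 hε1
  have e : cfc h A - cfc h B = (cfc h A - cfc (fun x => h (x + min δ 1)) A) +
      (cfc (fun x => h (x + min δ 1)) A - cfc (fun x => h (x + min δ 1)) B) -
      (cfc h B - cfc (fun x => h (x + min δ 1)) B) := by abel
  rw [e]
  refine (norm_sub_le _ _).trans ?_
  have := norm_add_le (cfc h A - cfc (fun x => h (x + min δ 1)) A)
    (cfc (fun x => h (x + min δ 1)) A - cfc (fun x => h (x + min δ 1)) B)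
  linarith

noncomputable def f (x : ℝ) : ℝ := x + 2 * (x * x) + h x

lemma f_OL (A B : 𝔸) (hA : IsSelfAdjoint A) (hB : IsSelfAdjoint B)
    (hsA : spectrum ℝ A ⊆ Set.Icc 0 1) (hsB : spectrum ℝ B ⊆ Set.Icc 0 1) :
    ‖cfc f A - cfc f B‖ ≤ 10 * ‖A - B‖ := by
  have hc := h_cont
  have k : ∀ C : 𝔸, IsSelfAdjoint C → spectrum ℝ C ⊆ Set.Icc 0 1 →
      cfc f C = C + (2 : ℝ) • (C * C) + cfc h C ∧ ‖C‖ ≤ 1 := by
    intro C hC hs
    constructor
    · unfold f
      rw [cfc_add C _ _, cfc_add C _ _, cfc_const_mul _ _ C, cfc_mul _ _ C, cfc_id' ℝ C]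
    · rw [← cfc_id' ℝ C]
      refine norm_cfc_le (by norm_num) (fun x hx => ?_)
      have := hs hx
      rw [Real.norm_eq_abs, abs_le]
      constructor <;> linarith [this.1, this.2]
  obtain ⟨a1, a2⟩ := k A hA hsA
  obtain ⟨b1, b2⟩ := k B hB hsB
  have e : cfc f A - cfc f B = (A - B) + (2 : ℝ) • (A * (A - B) + (A - B) * B) +
      (cfc h A - cfc h B) := by
    rw [a1, b1, show A * (A - B) + (A - B) * B = A * A - B * B by noncomm_ring, smul_sub]
    abel
  rw [e]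
  have k1 := h_OL A B hA hB hsA hsB
  have k2 : ‖A * (A - B)‖ ≤ ‖A - B‖ :=
    (norm_mul_le _ _).trans (mul_le_of_le_one_left (norm_nonneg _) a2)
  have k3 : ‖(A - B) * B‖ ≤ ‖A - B‖ :=
    (norm_mul_le _ _).trans (mul_le_of_le_one_right (norm_nonneg _) b2)
  have k4 := norm_add_le (A * (A - B)) ((A - B) * B)
  have k5 := norm_add₃_le (a := A - B) (b := (2 : ℝ) • (A * (A - B) + (A - B) * B))
    (c := cfc h A - cfc h B)
  rw [norm_smul, Real.norm_two] at k5
  linarith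

end alg

lemma f_deriv {x d : ℝ} (hx : HasDerivAt h d x) : HasDerivAt f (1 + 4 * x + d) x := by
  have := ((hasDerivAt_id x).add (((hasDerivAt_id x).mul (hasDerivAt_id x)).const_mul 2)).add hx
  refine HasDerivAt.congr_deriv (f := f) this ?_
  simp only [id]
  ring

lemma f_cont : Continuous f := by
  have := h_cont
  unfold f
  fun_prop

lemma f_mem {x : ℝ} (h0 : 0 ≤ x) (h1 : x ≤ 1 / 2) : f x ∈ Set.uIcc (f 0) (f 1) := by
  have e0 : f 0 = 0 := by simp [f, h]
  have e1 : 2 ≤ f 1 := by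
    simp only [f, h]
    linarith [Real.neg_one_le_sin (1 : ℝ)⁻¹]
  rw [Set.uIcc_of_le (by linarith), e0]
  have s1 := Real.neg_one_le_sin x⁻¹
  have s2 := Real.sin_le_one x⁻¹
  have s3 : 0 ≤ x * x := mul_nonneg h0 h0
  have s4 : x * x ≤ 1 / 4 := by nlinarith
  have e2 : f x = x + 2 * (x * x) + (x * x) * Real.sin x⁻¹ := by simp only [f, h]; ring
  rw [e2]
  constructor <;> nlinarith


/-- The negation of the preceding statement: If f is operator Lipschitz on [a,b] (uniform bound on ‖f(A)−f(B)‖ by C‖A−B‖ for self-adjoint A,B with spectrum in [a,b]) and has nonzero derivative at every point of [a,b], then its inverse is operator Lipschitz on the interval between f(a) and f(b). -/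
theorem result :
    ¬ (∀ (f : ℝ → ℝ) (a b : ℝ),
      (ContinuousOn f (Set.Icc a b) ∧
        ∃ C : ℝ, ∀ (H : Type) [NormedAddCommGroup H] [InnerProductSpace ℂ H] [CompleteSpace H],
          ∀ A B : H →L[ℂ] H, IsSelfAdjoint A → IsSelfAdjoint B →
            spectrum ℝ A ⊆ Set.Icc a b → spectrum ℝ B ⊆ Set.Icc a b →
              ‖cfc f A - cfc f B‖ ≤ C * ‖A - B‖) →
      (∀ x ∈ Set.Icc a b, ∃ d : ℝ, d ≠ 0 ∧ HasDerivWithinAt f d (Set.Icc a b) x) →
      ∃ g : ℝ → ℝ, (∀ x ∈ Set.Icc a b, g (f x) = x) ∧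
        (ContinuousOn g (Set.uIcc (f a) (f b)) ∧
          ∃ C : ℝ, ∀ (H : Type) [NormedAddCommGroup H] [InnerProductSpace ℂ H] [CompleteSpace H],
            ∀ A B : H →L[ℂ] H, IsSelfAdjoint A → IsSelfAdjoint B →
              spectrum ℝ A ⊆ Set.uIcc (f a) (f b) → spectrum ℝ B ⊆ Set.uIcc (f a) (f b) →
                ‖cfc g A - cfc g B‖ ≤ C * ‖A - B‖)) := by
  intro H
  obtain ⟨g, hg, -, C, hC⟩ := H f 0 1 ⟨f_cont.continuousOn, 10, fun H _ _ _ A B hA hB hsA hsB =>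
    f_OL A B hA hB hsA hsB⟩ (fun x hx => by
      rcases eq_or_lt_of_le hx.1 with h0 | h0
      · rw [← h0]
        exact ⟨_, by norm_num, (f_deriv h_deriv0).hasDerivWithinAt⟩
      · refine ⟨_, ne_of_gt ?_, (f_deriv (h_deriv h0.ne')).hasDerivWithinAt⟩
        have s1 := Real.neg_one_le_sin x⁻¹
        have s2 := Real.cos_le_one x⁻¹
        nlinarith)
  have hL : ∀ x y : ℝ, x ∈ Set.Icc (0 : ℝ) (1 / 2) → y ∈ Set.Icc (0 : ℝ) (1 / 2) →
      |x - y| ≤ C * |f x - f y| := by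
    intro x y hx hy
    have k := hC ℂ (algebraMap ℝ (ℂ →L[ℂ] ℂ) (f x)) (algebraMap ℝ (ℂ →L[ℂ] ℂ) (f y))
      (cfc_predicate_algebraMap _) (cfc_predicate_algebraMap _)
      ((CFC.spectrum_algebraMap_subset _).trans (Set.singleton_subset_iff.2 (f_mem hx.1 hx.2)))
      ((CFC.spectrum_algebraMap_subset _).trans (Set.singleton_subset_iff.2 (f_mem hy.1 hy.2)))
    rw [cfc_algebraMap, cfc_algebraMap, ← map_sub, ← map_sub, norm_algebraMap', norm_algebraMap',
      hg x ⟨hx.1, by linarith [hx.2]⟩, hg y ⟨hy.1, by linarith [hy.2]⟩] at k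
    exact k
  obtain ⟨n, hn⟩ := exists_nat_gt (|C| + 1)
  have hn0 : (1 : ℝ) < n := by linarith [abs_nonneg C]
  set x : ℝ := ((n : ℝ) * (2 * Real.pi))⁻¹ with hx
  have hpi := Real.pi_gt_three
  have hx0 : 0 < x := by positivity
  have hx1 : x * ((n : ℝ) * (2 * Real.pi)) = 1 := inv_mul_cancel₀ (by positivity)
  have hx2 : x * n * 6 < 1 := by nlinarith [mul_pos hx0 (lt_trans one_pos hn0)]
  have hx3 : x < 1 / 2 := by nlinarith
  have hd := f_deriv (h_deriv hx0.ne')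
  have e1 : Real.sin x⁻¹ = 0 := by
    rw [hx, inv_inv, show (n : ℝ) * (2 * Real.pi) = ((2 * n : ℕ) : ℝ) * Real.pi by push_cast; ring]
    exact Real.sin_nat_mul_pi _
  have e2 : Real.cos x⁻¹ = 1 := by
    rw [hx, inv_inv]
    exact Real.cos_nat_mul_two_pi n
  rw [e1, e2, show 1 + 4 * x + (2 * x * 0 - 1) = 4 * x by ring,
    hasDerivAt_iff_tendsto_slope] at hd
  have h1 : (1 : ℝ) ≤ C * |4 * x| := by
    refine ge_of_tendsto (hd.abs.const_mul C) ?_
    have hm : ∀ᶠ y in 𝓝[≠] x, y ∈ Set.Ioo (0 : ℝ) (1 / 2) :=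
      mem_nhdsWithin_of_mem_nhds (Ioo_mem_nhds hx0 hx3)
    filter_upwards [hm, self_mem_nhdsWithin] with y hy hyx
    have hne : y - x ≠ 0 := sub_ne_zero.2 hyx
    have k := hL y x ⟨hy.1.le, hy.2.le⟩ ⟨hx0.le, hx3.le⟩
    rw [slope_def_field, abs_div, ← mul_div_assoc, le_div_iff₀ (abs_pos.2 hne), one_mul]
    exact k
  rw [abs_of_pos (by positivity)] at h1
  have h2 := le_abs_self C
  nlinarith [abs_nonneg C]

end Pool.Agent.S04080
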