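import Pool.Statements.S04108


set_option autoImplicit false
open Pool Pool.MP_275f89_an

namespace Pool.Agent.S04108

theorem result :
    ¬ (∀ D : Set (ℝ → ℝ),
      D = {F : ℝ → ℝ | Monotone F ∧ (∀ x, 0 ≤ F x ∧ F x ≤ 1) ∧ (∀ x : ℝ, x ≤ 0 → F x = 0) ∧
            ∀ x : ℝ, ContinuousWithinAt F (Set.Iio x) x} →
      ∀ τ : (ℝ → ℝ) → (ℝ → ℝ) → (ℝ → ℝ),
        (∀ F ∈ D, ∀ G ∈ D, τ F G ∈ D) →
        (∀ F ∈ D, ∀ G ∈ D, τ F G = τ G F) →
        (∀ F ∈ D, ∀ G ∈ D, ∀ H ∈ D, τ (τ F G) H = τ F (τ G H)) →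
        (∀ F ∈ D, τ F (fun x : ℝ => if 0 < x then (1 : ℝ) else 0) = F) →
        (∀ F₁ ∈ D, ∀ F₂ ∈ D, ∀ G ∈ D, F₁ ≤ F₂ → τ F₁ G ≤ τ F₂ G) →
        ∀ a : ℝ, 0 < a →
          ∀ F₁ ∈ D, ∀ F₂ ∈ D, ∀ G₁ ∈ D, ∀ G₂ ∈ D,
            (∀ x : ℝ, x ≤ a → F₁ x ≤ F₂ x) →
            (∀ x : ℝ, x ≤ a → G₁ x ≤ G₂ x) →
            ∀ x : ℝ, x ≤ a → τ F₁ G₁ x ≤ τ F₂ G₂ x) := by
  intro h
  have key := h _ rfl
    (fun F G x => if x ≤ 2 then min (min (F x) (G x)) (F 2 * G 2) else min (F x) (G x))
    (by
      rintro F ⟨hF1, hF2, hF3, hF4⟩ G ⟨hG1, hG2, hG3, hG4⟩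
      refine ⟨?_, ?_, ?_, ?_⟩
      · intro x y hxy
        have h1 := hF1 hxy
        have h2 := hG1 hxy
        have h3 : min (F x) (G x) ≤ min (F y) (G y) := min_le_min h1 h2
        dsimp only
        split_ifs with ha hb hb
        · exact min_le_min h3 le_rfl
        · exact (min_le_left _ _).trans h3
        · exact absurd (hxy.trans hb) ha
        · exact h3
      · intro x
        have h1 := hF2 x
        have h2 := hG2 x
        have h3 : 0 ≤ F 2 * G 2 := mul_nonneg (hF2 2).1 (hG2 2).1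
        dsimp only
        split_ifs
        · exact ⟨le_min (le_min h1.1 h2.1) h3,
            ((min_le_left _ _).trans (min_le_left _ _)).trans h1.2⟩
        · exact ⟨le_min h1.1 h2.1, (min_le_left _ _).trans h1.2⟩
      · intro x hx
        have h3 : 0 ≤ F 2 * G 2 := mul_nonneg (hF2 2).1 (hG2 2).1
        dsimp only
        rw [if_pos (by linarith), hF3 x hx, hG3 x hx]
        simp [h3]
      · intro x
        by_cases hx : x ≤ 2
        · have h1 : ContinuousWithinAt (fun y => min (min (F y) (G y)) (F 2 * G 2))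
              (Set.Iio x) x := ((hF4 x).min (hG4 x)).min continuousWithinAt_const
          refine h1.congr ?_ ?_
          · intro y hy
            exact if_pos (le_trans (le_of_lt hy) hx)
          · exact if_pos hx
        · have h1 : ContinuousWithinAt (fun y => min (F y) (G y))
              (Set.Iio x) x := (hF4 x).min (hG4 x)
          refine h1.congr_of_eventuallyEq ?_ ?_
          · have : ∀ᶠ y in nhdsWithin x (Set.Iio x), 2 < y :=
              nhdsWithin_le_nhds (lt_mem_nhds (not_le.mp hx))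
            filter_upwards [this] with y hy
            exact if_neg (not_le.mpr hy)
          · exact if_neg hx)
    (by
      intro F _ G _
      funext x
      simp only [min_comm (F x) (G x), mul_comm (F 2) (G 2)])
    (by
      rintro F ⟨hF1, hF2, hF3, hF4⟩ G ⟨hG1, hG2, hG3, hG4⟩ H ⟨hH1, hH2, hH3, hH4⟩
      have e : ∀ a b : ℝ, 0 ≤ a → a ≤ 1 → 0 ≤ b → b ≤ 1 → min (min a b) (a * b) = a * b := by
        intro a b ha ha1 hb hb1
        apply min_eq_right
        apply le_min <;> nlinarith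
      have a0 := hF2 2
      have b0 := hG2 2
      have c0 := hH2 2
      funext x
      simp only [le_refl, if_true]
      rw [e _ _ a0.1 a0.2 b0.1 b0.2, e _ _ b0.1 b0.2 c0.1 c0.2]
      split_ifs
      · have h1 : F 2 * G 2 * H 2 ≤ F 2 * G 2 := by
          have := mul_nonneg a0.1 b0.1
          nlinarith [c0.2]
        have h2 : F 2 * G 2 * H 2 ≤ G 2 * H 2 := by
          have := mul_nonneg b0.1 c0.1
          nlinarith [a0.2]
        rw [← mul_assoc]
        apply le_antisymm
        · simp only [le_min_iff, min_le_iff, le_refl, true_or, or_true, and_true, true_and, h2]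
        · simp only [le_min_iff, min_le_iff, le_refl, true_or, or_true, and_true, true_and, h1]
      · rw [min_assoc])
    (by
      rintro F ⟨hF1, hF2, hF3, hF4⟩
      funext x
      have h0 : min (F x) (if 0 < x then (1 : ℝ) else 0) = F x := by
        split_ifs with hx
        · exact min_eq_left (hF2 x).2
        · rw [hF3 x (not_lt.mp hx)]
          simp
      dsimp only
      rw [h0, if_pos (by norm_num : (0 : ℝ) < 2), mul_one]
      split_ifs with hx
      · exact min_eq_left (hF1 hx)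
      · rfl)
    (by
      rintro F₁ _ F₂ _ G ⟨hG1, hG2, hG3, hG4⟩ hle x
      have h1 : min (F₁ x) (G x) ≤ min (F₂ x) (G x) := min_le_min (hle x) le_rfl
      dsimp only
      split_ifs
      · exact min_le_min h1 (mul_le_mul_of_nonneg_right (hle 2) (hG2 2).1)
      · exact h1)
    1 one_pos
  have hstep : ∀ (a x : ℝ), ContinuousWithinAt (fun y : ℝ => if a < y then (1 / 2 : ℝ) else 0)
      (Set.Iio x) x := by
    intro a x
    by_cases hx : a < x
    · refine (continuousWithinAt_const (b := (1 / 2 : ℝ))).congr_of_eventuallyEq ?_ (if_pos hx)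
      have : ∀ᶠ y in nhdsWithin x (Set.Iio x), a < y := nhdsWithin_le_nhds (lt_mem_nhds hx)
      filter_upwards [this] with y hy
      exact if_pos hy
    · refine (continuousWithinAt_const (b := (0 : ℝ))).congr ?_ (if_neg hx)
      intro y hy
      exact if_neg (by
        have : y < x := hy
        linarith [not_lt.mp hx])
  have hmono : ∀ a : ℝ, Monotone (fun y : ℝ => if a < y then (1 / 2 : ℝ) else 0) := by
    intro a x y hxy
    dsimp only
    split_ifs with h1 h2 h2
    · exact le_rfl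
    · exact absurd (h1.trans_le hxy) h2
    · norm_num
    · exact le_rfl
  have m1 : (fun y : ℝ => (if 0 < y then (1 / 2 : ℝ) else 0) + (if 1 < y then (1 / 2 : ℝ) else 0))
      ∈ {F : ℝ → ℝ | Monotone F ∧ (∀ x, 0 ≤ F x ∧ F x ≤ 1) ∧ (∀ x : ℝ, x ≤ 0 → F x = 0) ∧
            ∀ x : ℝ, ContinuousWithinAt F (Set.Iio x) x} := by
    refine ⟨(hmono 0).add (hmono 1), ?_, ?_, fun x => (hstep 0 x).add (hstep 1 x)⟩
    · intro x
      dsimp only
      split_ifs <;> norm_num
    · intro x hx
      dsimp only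
      rw [if_neg (by linarith), if_neg (by linarith)]
      simp
  have m2 : (fun y : ℝ => (if 0 < y then (1 / 2 : ℝ) else 0))
      ∈ {F : ℝ → ℝ | Monotone F ∧ (∀ x, 0 ≤ F x ∧ F x ≤ 1) ∧ (∀ x : ℝ, x ≤ 0 → F x = 0) ∧
            ∀ x : ℝ, ContinuousWithinAt F (Set.Iio x) x} := by
    refine ⟨hmono 0, ?_, ?_, fun x => hstep 0 x⟩
    · intro x
      dsimp only
      split_ifs <;> norm_num
    · intro x hx
      dsimp only
      rw [if_neg (by linarith)]
  have hle : ∀ x : ℝ, x ≤ 1 →
      (if 0 < x then (1 / 2 : ℝ) else 0) + (if 1 < x then (1 / 2 : ℝ) else 0) ≤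
        (if 0 < x then (1 / 2 : ℝ) else 0) := by
    intro x hx
    rw [if_neg (not_lt.mpr hx)]
    simp
  have := key _ m1 _ m2 _ m1 _ m2 hle hle 1 le_rfl
  norm_num at this

end Pool.Agent.S04108
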