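import Pool.Statements.S04125
import Pool.Agent.H33.Gab

set_option autoImplicit false
open MeasureTheory
open Pool Pool.MP_288ee9_an

namespace Pool.Agent.S04125

open Pool.Agent.H33.Gab ComplexConjugate

def F : Finset (ℤ × ℤ) := {(-2, -1), (2, -1), (-2, 0), (2, 0), (-3, 1), (-1, 1), (-3, 3), (-1, 3),
  (0, -2), (1, -2), (0, 2), (1, 2)}

noncomputable def W (c : ℤ × ℤ) : ℂ := if c ∈ F then 1 else 0

lemma hW : ∀ c ∉ F, W c = 0 := fun _ hc => if_neg hc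

lemma mE : MeasurableSet (cl ⁻¹' F) := mcl F.measurableSet

lemma volE : volume (cl ⁻¹' F) < ⊤ := by
  rw [← Set.biUnion_preimage_singleton]
  refine measure_biUnion_lt_top F.finite_toSet fun c _ => ?_
  rw [← measure_preimage_add_right volume (v c), show (fun x => x + v c) ⁻¹' (cl ⁻¹' {c}) = Q by
    ext x; simp [Q, cl_add], torus.2.1]
  simp

lemma expE (G : ℤ × ℤ → ℂ) (ξ η : ℝ) : ∫ x in cl ⁻¹' F, G (cl x) * e (ξ * x 0 + η * x 1) =
    (∑ c ∈ F, G c * e (ξ * c.1 + η * c.2)) * ∫ x in Q, e (ξ * x 0 + η * x 1) := by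
  have := decE F (fun c => W c * G c) (fun c hc => by rw [hW c hc, zero_mul]) 0 ξ η
  rw [Finset.sum_congr rfl fun c hc => by rw [W, if_pos hc, one_mul]] at this
  simp only [sub_zero, Prod.fst_zero, Prod.snd_zero, Int.cast_zero, mul_zero, add_zero, e_zero,
    one_mul] at this
  rw [← this, ← integral_indicator mE]
  refine integral_congr_ae (.of_forall fun x => ?_)
  by_cases h : cl x ∈ F <;> simp [W, h]

lemma k0 : ∫ x in Q, e (0 * x 0 + 0 * x 1) = 1 := by simpa using torus.1 0 0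

lemma innL {μ : Measure V} {f g : V → ℂ} (hf : MemLp f 2 μ) (hg : MemLp g 2 μ) :
    inner ℂ hf.toLp hg.toLp = ∫ x, g x * conj (f x) ∂μ := by
  rw [L2.inner_def]
  refine integral_congr_ae ?_
  filter_upwards [hf.coeFn_toLp, hg.coeFn_toLp] with x a b
  rw [a, b, RCLike.inner_apply]

lemma nonspec (B : Set V)
    (h1 : ∀ b ∈ B, ∀ b' ∈ B, b ≠ b' → ∫ x in cl ⁻¹' F, e (-b 0 * x 0 + -b 1 * x 1) *
      conj (e (-b' 0 * x 0 + -b' 1 * x 1)) = 0)
    (h2 : ∀ f : V → ℂ, MemLp f 2 (volume.restrict (cl ⁻¹' F)) → (∀ b ∈ B, ∫ x in cl ⁻¹' F, f x *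
      conj (e (-b 0 * x 0 + -b 1 * x 1)) = 0) → f =ᵐ[volume.restrict (cl ⁻¹' F)] 0) : False := by
  classical
  have : IsFiniteMeasure (volume.restrict (cl ⁻¹' F)) := ⟨by simpa using volE⟩
  obtain ⟨k, k1, k2⟩ : ∃ k : ℝ, ‖(k : ℂ)‖ ≤ 1 ∧ (k : ℂ) * k * 12 = 1 := by
    have : (√12)⁻¹ * (√12)⁻¹ * 12 = (1 : ℝ) := by
      rw [← mul_inv, Real.mul_self_sqrt] <;> norm_num
    refine ⟨(√12)⁻¹, ?_, by exact_mod_cast this⟩
    rw [Complex.norm_real, Real.norm_of_nonneg (by positivity)]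
    nlinarith
  obtain ⟨X, J, I⟩ : ∃ X : (G : ℤ × ℤ → ℂ) → (∀ c, ‖G c‖ ≤ 1) → V →
      Lp ℂ 2 (volume.restrict (cl ⁻¹' F)), (∀ G hG b y, inner ℂ (X G hG b) y =
      ∫ x in cl ⁻¹' F, y x * conj (G (cl x) * e (-b 0 * x 0 + -b 1 * x 1))) ∧
      ∀ G G' hG hG' b b', inner ℂ (X G hG b) (X G' hG' b') =
      (∑ c ∈ F, G' c * conj (G c) * e ((b 0 - b' 0) * c.1 + (b 1 - b' 1) * c.2)) *
        ∫ x in Q, e ((b 0 - b' 0) * x 0 + (b 1 - b' 1) * x 1) := by
    refine ⟨fun G hG b => (emem (-b 0) (-b 1) _ G hG).toLp, fun G hG b y => ?_, fun G G' _ _ b b' => ?_⟩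
    · exact (congrArg _ (Lp.toLp_coeFn y (Lp.memLp y)).symm).trans (innL _ _)
    rw [innL, ← expE fun c => G' c * conj (G c)]
    refine integral_congr_ae (.of_forall fun x => ?_)
    simp only [map_mul, e_conj]
    rw [mul_mul_mul_comm, ← e_add]
    ring_nf
  have O : ∀ b ∈ B, ∀ b' ∈ B, (∑ c ∈ F, e ((b 0 - b' 0) * c.1 + (b 1 - b' 1) * c.2)) *
      ∫ x in Q, e ((b 0 - b' 0) * x 0 + (b 1 - b' 1) * x 1) = if b = b' then 12 else 0 := by
    intro b hb b' hb'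
    split_ifs with h
    · simp only [h, sub_self, k0]
      simp [e_zero, show F.card = 12 by decide]
    have := expE 1 (b 0 - b' 0) (b 1 - b' 1)
    simp only [Pi.one_apply, one_mul] at this
    rw [← this, ← h1 b' hb' b hb (Ne.symm h)]
    simp only [e_conj, ← e_add]
    ring_nf
  let u : B → Lp ℂ 2 (volume.restrict (cl ⁻¹' F)) := fun b => X (fun _ => k) (fun _ => k1) b
  have hu : Orthonormal ℂ u := orthonormal_iff_ite.2 fun b b' => by
    simp only [u, I, Complex.conj_ofReal, ← Finset.mul_sum, mul_assoc, O _ b.2 _ b'.2, Subtype.ext_iff]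
    split_ifs
    · rw [← mul_assoc, k2]
    · simp
  have hs : (Submodule.span ℂ (Set.range u))ᗮ = ⊥ := (Submodule.eq_bot_iff _).2 fun y hy => by
    refine Lp.eq_zero_iff_ae_eq_zero.2 (h2 y (Lp.memLp y) fun b hb => ?_)
    have := hy _ (Submodule.subset_span ⟨⟨b, hb⟩, rfl⟩)
    simp only [u, J, map_mul, Complex.conj_ofReal, mul_left_comm _ (k : ℂ), integral_const_mul] at this
    exact (mul_eq_zero.1 this).resolve_left fun h => by simp [h] at k2
  obtain ⟨b0, hb0⟩ : B.Nonempty := by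
    by_contra h
    have a := integral_congr_ae (h2 1 (memLp_const 1) fun b hb => absurd ⟨b, hb⟩ h)
    have := expE 1 0 0
    rw [k0] at this
    simp [e_zero, show F.card = 12 by decide] at this a
    simp [a] at this
  have g : ∀ c d : ℤ × ℤ, ‖(if d = c then 1 else 0 : ℂ)‖ ≤ 1 := fun c d => by split_ifs <;> simp
  have P : ∀ c ∈ F, HasSum (fun b : B => k * k * conj (∫ x in Q, e ((b0 0 - b.1 0) * x 0 +
      (b0 1 - b.1 1) * x 1)) * (e ((b0 0 - b.1 0) * c.1 + (b0 1 - b.1 1) * c.2) *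
      ∫ x in Q, e ((b0 0 - b.1 0) * x 0 + (b0 1 - b.1 1) * x 1))) 0 := fun c hc => by
    obtain ⟨y, y1, y2, y3⟩ := (by decide : ∀ c ∈ F, ∃ y ∈ F, c + y ∈ F ∧ c + y ≠ y) c hc
    have := (HilbertBasis.mkOfOrthogonalEqBot hu hs).hasSum_inner_mul_inner
      (X _ (g (c + y)) b0) (X _ (g y) b0)
    rw [I, Finset.sum_eq_zero fun d _ => by split_ifs <;> simp_all, zero_mul,
      HilbertBasis.coe_mkOfOrthogonalEqBot] at this
    refine Eq.mp (congrArg (HasSum · 0) (funext fun b => ?_)) this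
    rw [← inner_conj_symm (u b)]
    simp only [u, I, apply_ite conj, map_one, map_zero, mul_ite, ite_mul, mul_one, mul_zero, zero_mul,
      Finset.sum_ite_eq', y1, y2, if_true, map_mul, Complex.conj_ofReal, e_conj]
    rw [show (b0 0 - b.1 0) * c.1 + (b0 1 - b.1 1) * c.2 = (b0 0 - b.1 0) * (c + y).1 + (b0 1 - b.1 1) *
      (c + y).2 + -((b0 0 - b.1 0) * y.1 + (b0 1 - b.1 1) * y.2) by
        push_cast [Prod.fst_add, Prod.snd_add]; ring, e_add _ (-_)]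
    ring
  have := hasSum_sum P
  simp only [← Finset.mul_sum, ← Finset.sum_mul, O _ hb0 _ (Subtype.prop _), Finset.sum_const_zero] at this
  have := this.unique (hasSum_single ⟨b0, hb0⟩ fun b hb => by
    rw [if_neg fun h => hb (Subtype.ext h.symm), mul_zero])
  simp only [sub_self, k0, map_one, mul_one, if_true, k2] at this
  exact zero_ne_one this

lemma sF (g : ℤ × ℤ → ℂ) : ∑ c ∈ F, g c = g (-2, -1) + g (2, -1) + g (-2, 0) + g (2, 0) + g (-3, 1) +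
    g (-1, 1) + g (-3, 3) + g (-1, 3) + g (0, -2) + g (1, -2) + g (0, 2) + g (1, 2) := by
  simp [F, add_assoc]

lemma col (p : ℤ) (hp : p ∈ Finset.Icc (-3 : ℤ) 2) (g : ℤ × ℤ → ℂ) :
    ∑ i ∈ Finset.range 6, ∑ c ∈ F, g c * e (i * ((c.1 - p : ℤ) / (6 : ℕ))) =
      6 * ∑ c ∈ F.filter (·.1 = p), g c := by
  rw [Finset.sum_comm, Finset.sum_filter, Finset.mul_sum]
  refine Finset.sum_congr rfl fun c hc => ?_
  have := (by decide : ∀ c ∈ F, -3 ≤ c.1 ∧ c.1 ≤ 2) c hc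
  have := Finset.mem_Icc.1 hp
  rw [← Finset.mul_sum, geo 6 (by norm_num)]
  split_ifs <;> first | omega | simp [mul_comm]

lemma orth (a b i j a' b' i' j' : ℤ) (h : ¬ (a = a' ∧ b = b' ∧ i = i' ∧ j = j')) :
    ∫ x : V, W (cl (x - v (a, 6 * b))) * e (-(i / 6) * x 0 + -(a / 8 + j) * x 1) *
      conj (W (cl (x - v (a', 6 * b'))) * e (-(i' / 6) * x 0 + -(a' / 8 + j') * x 1)) = 0 := by
  rw [ip F W hW]
  by_cases h0 : ∃ c ∈ F, c + ((a, 6 * b) - (a', 6 * b')) ∈ F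
  swap
  · rw [Finset.sum_eq_zero fun c hc => by rw [hW (c + _) fun h => h0 ⟨c, hc, h⟩]; simp, zero_mul]
  obtain ⟨c, c1, c2⟩ := h0
  have := (by decide : ∀ c ∈ F, ∀ d ∈ F, 6 ∣ d.2 - c.2 → d.2 - c.2 = 0 ∧
    d.1 - c.1 ∈ [0, 1, -1, 2, -2, 4, -4]) c c1 _ c2 ⟨b - b', by simp; ring⟩
  simp only [Prod.mk_sub_mk, Prod.fst_add, Prod.snd_add, add_sub_cancel_left] at this ⊢
  obtain ⟨h1, h2⟩ := this
  obtain ⟨d, rfl⟩ : ∃ d, a = a' + d := ⟨a - a', by ring⟩
  obtain ⟨m, rfl⟩ : ∃ m, j' = j + m := ⟨j' - j, by ring⟩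
  obtain ⟨n, rfl⟩ : ∃ n, i' = i + n := ⟨i' - i, by ring⟩
  rw [h1, show -((i : ℝ) / 6) - -((i + n : ℤ) / 6) = n / 6 by push_cast; ring,
    show -(((a' + d : ℤ) : ℝ) / 8 + j) - -(a' / 8 + (j + m : ℤ)) = m - d / 8 by push_cast; ring]
  rw [add_sub_cancel_left] at h2 ⊢
  have s : ∀ q β : ℤ, d * β = 4 ∨ d * β = -4 → e ((m - d / 8) * (q + β : ℤ)) = -e ((m - d / 8) * q) := by
    rintro q β (hb | hb)
    · have : (d : ℝ) * β = 4 := by exact_mod_cast hb
      rw [← mul_neg_one, ← e_half (m * β - 1), ← e_add]; congr 1; push_cast; linarith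
    · have : (d : ℝ) * β = -4 := by exact_mod_cast hb
      rw [← mul_neg_one, ← e_half (m * β), ← e_add]; congr 1; push_cast; linarith
  have s1 := s (-1) 1
  have s2 := s 1 2
  have s4 := s (-2) 4
  simp only [List.mem_cons, List.not_mem_nil, or_false] at h2
  rcases h2 with rfl | h2
  · by_cases h6 : 6 ∣ n
    · obtain ⟨n, rfl⟩ := h6
      have := torus.1 n m
      rw [if_neg (by omega)] at this
      rw [show ((6 * n : ℤ) : ℝ) / 6 = n by push_cast; ring]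
      simp [this]
    have := geo 6 (by norm_num) n
    rw [if_neg (by exact h6)] at this
    have e1 : ∀ p q : ℤ, e (n / 6 * p + (m - (0 : ℤ) / 8) * q) = e (n / 6 * -3) * e ((p + 3) * (n / 6)) :=
      fun p q => by rw [← mul_one (e _ * _), ← e_int (m * q), ← e_add, ← e_add]; congr 1; push_cast; ring
    simp only [sF, e1]
    simp [Finset.sum_range_succ] at this
    simp [W, F]
    refine Or.inl ?_
    norm_num
    linear_combination 2 * e (-(n / 6 * 3)) * this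
  simp only [sF, e_add]
  rcases h2 with rfl | rfl | rfl | rfl | rfl | rfl <;> simp [W, F] at s1 s2 s4 ⊢ <;> simp [*]

theorem result :
    ∃ (d : ℕ) (E : Set (EuclideanSpace ℝ (Fin d))),
      0 < d ∧ MeasurableSet E ∧ volume E < ⊤ ∧
      (¬ ∃ B : Set (EuclideanSpace ℝ (Fin d)),
          (∀ b ∈ B, ∀ b' ∈ B, b ≠ b' →
            ∫ x in E, Complex.exp (-2 * (Real.pi : ℂ) * Complex.I * ((inner ℝ x b : ℝ) : ℂ)) *
              starRingEnd ℂ (Complex.exp (-2 * (Real.pi : ℂ) * Complex.I * ((inner ℝ x b' : ℝ) : ℂ))) = 0) ∧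
          (∀ f : EuclideanSpace ℝ (Fin d) → ℂ, MemLp f 2 (volume.restrict E) →
            (∀ b ∈ B, ∫ x in E, f x *
              starRingEnd ℂ (Complex.exp (-2 * (Real.pi : ℂ) * Complex.I * ((inner ℝ x b : ℝ) : ℂ))) = 0) →
            f =ᵐ[volume.restrict E] 0)) ∧
      ∃ S : Set (EuclideanSpace ℝ (Fin d) × EuclideanSpace ℝ (Fin d)),
        (∀ p ∈ S, ∀ q ∈ S, p ≠ q →
          ∫ x, (E.indicator (fun _ => (1 : ℂ)) (x - p.1) *
                Complex.exp (-2 * (Real.pi : ℂ) * Complex.I * ((inner ℝ x p.2 : ℝ) : ℂ))) *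
              starRingEnd ℂ (E.indicator (fun _ => (1 : ℂ)) (x - q.1) *
                Complex.exp (-2 * (Real.pi : ℂ) * Complex.I * ((inner ℝ x q.2 : ℝ) : ℂ))) = 0) ∧
        (∀ f : EuclideanSpace ℝ (Fin d) → ℂ, MemLp f 2 volume →
          (∀ p ∈ S, ∫ x, f x *
              starRingEnd ℂ (E.indicator (fun _ => (1 : ℂ)) (x - p.1) *
                Complex.exp (-2 * (Real.pi : ℂ) * Complex.I * ((inner ℝ x p.2 : ℝ) : ℂ))) = 0) →
          f =ᵐ[volume] 0) := by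
  have ee : ∀ (b x : V), Complex.exp (-2 * (Real.pi : ℂ) * Complex.I * ((inner ℝ x b : ℝ) : ℂ)) =
      e (-b 0 * x 0 + -b 1 * x 1) := fun b x => by rw [inn, e]; congr 1; push_cast; ring
  have ei : ∀ x, (cl ⁻¹' F).indicator (fun _ => (1 : ℂ)) x = W (cl x) := fun x => by
    by_cases h : cl x ∈ F <;> simp [W, h]
  refine ⟨2, cl ⁻¹' F, two_pos, mE, volE, fun ⟨B, h1, h2⟩ => nonspec B (by simpa only [ee] using h1)
    (by simpa only [ee] using h2), Set.range fun p : ℤ × ℤ × ℤ × ℤ =>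
      (v (p.1, 6 * p.2.1), !₂[p.2.2.1 / 6, p.1 / 8 + p.2.2.2]), ?_, fun f hf h => zero f ?_⟩
  · rintro _ ⟨⟨a, b, i, j⟩, rfl⟩ _ ⟨⟨a', b', i', j'⟩, rfl⟩ h
    simp only [ee, ei]
    refine orth a b i j a' b' i' j' ?_
    rintro ⟨rfl, rfl, rfl, rfl⟩
    exact h rfl
  have := ae_all_iff.2 fun p : ℤ × ℤ × ℕ => comp' f hf F W hW (p.1, 6 * p.2.1) (p.2.2 / 6) (p.1 / 8)
    fun m n => by
      have := h _ ⟨(p.1, p.2.1, p.2.2 + 6 * m, n), rfl⟩
      simp only [ee, ei] at this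
      rw [← this]
      simp
      ring_nf
  filter_upwards [this] with x hx
  have k : ∀ a b p q q' : ℤ, p ∈ Finset.Icc (-3 : ℤ) 2 → q ≠ q' → F.filter (·.1 = p) = {(p, q), (p, q')} →
      f (x + v (p + a, q + 6 * b)) + f (x + v (p + a, q' + 6 * b)) * e (a * (q' - q) / 8) = 0 := by
    intro a b p q q' hp hq hF
    have := col p hp fun c => f (x + v (c + (a, 6 * b))) * e (a * (c.2 - q) / 8)
    rw [hF, Finset.sum_pair (by simp [hq]), Finset.sum_eq_zero fun i _ => ?_] at this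
    · simpa [e_zero] using this
    have := congrArg (· * e (-(i * (p + a) / 6 + a * (q + 6 * b) / 8))) (hx (a, b, i))
    simp only [Finset.sum_mul, zero_mul] at this
    refine Eq.trans (Finset.sum_congr rfl fun c hc => ?_) this
    simp only [W, if_pos hc, map_one, one_mul, mul_assoc, ← e_add]
    congr 2
    push_cast [Prod.fst_add, Prod.snd_add]
    ring
  rintro ⟨z, w⟩
  obtain ⟨b, q, hq, rfl⟩ : ∃ b, ∃ q ∈ Finset.Icc (-2 : ℤ) 3, w = q + 6 * b :=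
    ⟨(w + 2) / 6, (w + 2) % 6 - 2, Finset.mem_Icc.2 (by omega), by omega⟩
  obtain ⟨p, p1, p', p2, q', -, h1, h2, h3, h4⟩ := (by decide : ∀ q ∈ Finset.Icc (-2 : ℤ) 3,
    ∃ p ∈ Finset.Icc (-3 : ℤ) 2, ∃ p' ∈ Finset.Icc (-3 : ℤ) 2, ∃ q' ∈ Finset.Icc (-2 : ℤ) 3, q ≠ q' ∧
    (p - p') * (q' - q) = 4 ∧ F.filter (·.1 = p) = {(p, q), (p, q')} ∧
    F.filter (·.1 = p') = {(p', q), (p', q')}) q hq
  have a1 := k (z - p) b p q q' p1 h1 h3
  have a2 := k (z - p') b p' q q' p2 h1 h4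
  have : ((p : ℝ) - p') * (q' - q) = 4 := by exact_mod_cast h2
  rw [add_sub_cancel] at a1 a2
  rw [show ((z - p' : ℤ) : ℝ) * (q' - q) / 8 = (z - p : ℤ) * (q' - q) / 8 + ((0 : ℤ) + 1 / 2) by
    push_cast; linarith, e_add, e_half] at a2
  linear_combination a1 / 2 + a2 / 2

end Pool.Agent.S04125
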