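import Pool.Statements.S04150
import Pool.Agent.H28.L2Ops

set_option autoImplicit false
open Pool Pool.MP_299699_an

namespace Pool.Agent.S04150

open Pool.Agent.H28.L2Ops Filter Topology

abbrev E : Type := L2 ℝ

lemma refl : Function.Surjective (NormedSpace.inclusionInDoubleDual ℝ (E × ℝ)) := by
  intro Φ
  let ψ : E →L[ℝ] StrongDual ℝ (E × ℝ) :=
    ((ContinuousLinearMap.compL ℝ (E × ℝ) E ℝ).flip (ContinuousLinearMap.fst ℝ E ℝ)).comp
      (innerSL ℝ)
  have hψ : ∀ (u : E) (x : E × ℝ), ψ u x = inner ℝ u x.1 := fun u x => rfl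
  obtain ⟨a, ha⟩ := (InnerProductSpace.toDual ℝ E).surjective (Φ.comp ψ)
  refine ⟨(a, Φ (ContinuousLinearMap.snd ℝ E ℝ)), ?_⟩
  ext f
  obtain ⟨u, hu⟩ := (InnerProductSpace.toDual ℝ E).surjective
    (f.comp (ContinuousLinearMap.inl ℝ E ℝ))
  have hu' : ∀ v : E, inner ℝ u v = f (v, 0) := fun v => by
    have := congrArg (fun g : StrongDual ℝ E => g v) hu
    simpa using this
  have hf : ∀ x : E × ℝ, f x = inner ℝ u x.1 + f (0, 1) * x.2 := by
    rintro ⟨v, t⟩
    have : ((v, t) : E × ℝ) = (v, 0) + t • ((0 : E), (1 : ℝ)) := by simp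
    rw [this, map_add, map_smul, hu']
    simp [mul_comm]
  have hf2 : f = ψ u + f (0, 1) • ContinuousLinearMap.snd ℝ E ℝ := by
    refine ContinuousLinearMap.ext (fun x => ?_)
    rw [hf x]
    rfl
  have ha' : inner ℝ a u = Φ (ψ u) := by
    have := congrArg (fun g : StrongDual ℝ E => g u) ha
    simpa using this
  rw [NormedSpace.dual_def, hf]
  conv_rhs => rw [hf2, map_add, map_smul, ← ha', real_inner_comm]
  simp

def C : Set (E × ℝ) := {x | ‖x.1‖ ≤ 1 ∧ x.2 = 0}

lemma C_closed : IsClosed C :=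
  IsClosed.inter (isClosed_le (f := fun x : E × ℝ => ‖x.1‖) (by fun_prop) continuous_const)
    (isClosed_eq continuous_snd continuous_const)

lemma C_convex : Convex ℝ C := by
  intro x hx y hy a b ha hb hab
  refine ⟨?_, by simp [hx.2, hy.2]⟩
  have := convex_closedBall (0 : E) 1 (mem_closedBall_zero_iff.2 hx.1)
    (mem_closedBall_zero_iff.2 hy.1) ha hb hab
  exact mem_closedBall_zero_iff.1 this

lemma C_bdd : Bornology.IsBounded C := by
  refine (Metric.isBounded_closedBall (x := (0 : E × ℝ)) (r := 1)).subset (fun x hx => ?_)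
  rw [mem_closedBall_zero_iff, Prod.norm_def, hx.2]
  simp [hx.1]

lemma C_wc : IsCompact ((toWeakSpace ℝ (E × ℝ)) '' C) := by
  have h := NormedSpace.isCompact_closure_of_isBounded ℝ (E × ℝ)
    ((toWeakSpace ℝ (E × ℝ)) '' C) (by
      rw [Set.preimage_image_eq _ (toWeakSpace ℝ (E × ℝ)).injective]
      exact C_bdd) (by
      intro Φ _
      obtain ⟨x, hx⟩ := refl (WeakDual.toStrongDual Φ)
      refine ⟨toWeakSpace ℝ _ x, ?_⟩
      apply WeakDual.toStrongDual.injective
      rw [← hx]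
      rfl)
  rw [← C_convex.toWeakSpace_closure ℝ, C_closed.closure_eq] at h
  exact h

lemma distC {x y : E × ℝ} (hx : x ∈ C) (hy : y ∈ C) : dist x y = ‖x.1 - y.1‖ := by
  rw [Prod.dist_eq, hx.2, hy.2, dist_self, dist_eq_norm]
  exact max_eq_left (norm_nonneg _)

lemma normal (K : Set (E × ℝ)) (hK : K ⊆ C) (hc : Convex ℝ K) (h : ∃ a ∈ K, ∃ b ∈ K, a ≠ b) :
    ∃ x ∈ K, ∃ r : ℝ, r < Metric.diam K ∧ ∀ y ∈ K, dist x y ≤ r := by
  obtain ⟨a, ha, b, hb, hab⟩ := h
  have hb' : Bornology.IsBounded K := C_bdd.subset hK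
  have hm : (1 / 2 : ℝ) • a + (1 / 2 : ℝ) • b ∈ K :=
    hc ha hb (by norm_num) (by norm_num) (by norm_num)
  have h0 : 0 < dist a b := dist_pos.2 hab
  have h1 : dist a b ≤ Metric.diam K := Metric.dist_le_diam_of_mem hb' ha hb
  refine ⟨_, hm, Real.sqrt (Metric.diam K ^ 2 - dist a b ^ 2 / 4), ?_, fun y hy => ?_⟩
  · rw [Real.sqrt_lt' (by linarith)]
    nlinarith
  · apply Real.le_sqrt_of_sq_le
    have h2 : dist a y ≤ Metric.diam K := Metric.dist_le_diam_of_mem hb' ha hy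
    have h3 : dist b y ≤ Metric.diam K := Metric.dist_le_diam_of_mem hb' hb hy
    rw [distC (hK hm) (hK hy), distC (hK ha) (hK hb)]
    rw [distC (hK ha) (hK hy)] at h2
    rw [distC (hK hb) (hK hy)] at h3
    have h4 := parallelogram_law_with_norm ℝ (a.1 - y.1) (b.1 - y.1)
    have h5 : ((1 / 2 : ℝ) • a + (1 / 2 : ℝ) • b).1 - y.1
        = (1 / 2 : ℝ) • ((a.1 - y.1) + (b.1 - y.1)) := by
      simp only [Prod.fst_add, Prod.smul_fst]
      module
    rw [h5, norm_smul]
    rw [show a.1 - y.1 - (b.1 - y.1) = a.1 - b.1 by abel] at h4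
    have h6 := pow_le_pow_left₀ (norm_nonneg _) h2 2
    have h7 := pow_le_pow_left₀ (norm_nonneg _) h3 2
    rw [Real.norm_eq_abs, abs_of_pos (by norm_num : (0 : ℝ) < 1 / 2)]
    nlinarith

noncomputable def e (n : ℕ) : E := lp.single 2 n (1 : ℝ)

lemma norm_e (n : ℕ) : ‖e n‖ = 1 := by
  unfold e
  rw [lp.norm_single (by norm_num)]; simp

def S : Set E := Set.range (fun n : ℕ => (1 + 1 / ((n : ℝ) + 1)) • e n)

lemma g_pos (x : E) (hx : ‖x‖ ≤ 1) : 0 < Metric.infDist x S := by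
  have h1 : Tendsto (fun n => ‖x n‖ ^ 2) atTop (𝓝 0) := (summ x).tendsto_atTop_zero
  obtain ⟨N, hN⟩ := eventually_atTop.1 (h1.eventually (gt_mem_nhds (by norm_num : (0 : ℝ) < 1 / 4)))
  refine lt_of_lt_of_le (b := 1 / ((N : ℝ) + 2)) (by positivity) ?_
  refine (Metric.le_infDist (s := S) (Set.range_nonempty _)).2 ?_
  rintro _ ⟨n, rfl⟩
  have h2 := lp.norm_apply_le_norm (by norm_num) (x - (1 + 1 / ((n : ℝ) + 1)) • e n) n
  have h3 : (x - (1 + 1 / ((n : ℝ) + 1)) • e n) n = x n - (1 + 1 / ((n : ℝ) + 1)) := by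
    simp [e]
  rw [h3, Real.norm_eq_abs] at h2
  rw [dist_eq_norm]
  refine le_trans ?_ h2
  have h4 : |x n| ≤ 1 := (lp.norm_apply_le_norm (by norm_num) x n).trans hx
  have h5 : (0 : ℝ) < 1 / ((n : ℝ) + 1) := by positivity
  rw [abs_sub_comm]
  refine le_trans ?_ (le_abs_self _)
  have h6 : 1 / ((N : ℝ) + 2) ≤ 1 / 2 :=
    one_div_le_one_div_of_le (by norm_num) (by linarith [Nat.cast_nonneg (α := ℝ) N])
  rcases le_or_gt N n with h | h
  · have h7 := hN n h
    rw [Real.norm_eq_abs, sq_abs] at h7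
    nlinarith
  · have h7 : 1 / ((N : ℝ) + 2) ≤ 1 / ((n : ℝ) + 1) := by
      apply one_div_le_one_div_of_le (by positivity)
      have : (n : ℝ) ≤ N := by exact_mod_cast h.le
      linarith
    linarith [le_abs_self (x n)]

lemma g_e (n : ℕ) : Metric.infDist (e n) S ≤ 1 / ((n : ℝ) + 1) := by
  have hm : (1 + 1 / ((n : ℝ) + 1)) • e n ∈ S := ⟨n, rfl⟩
  refine (Metric.infDist_le_dist_of_mem hm).trans (le_of_eq ?_)
  rw [dist_eq_norm]
  have : e n - (1 + 1 / ((n : ℝ) + 1)) • e n = (-(1 / ((n : ℝ) + 1))) • e n := by module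
  rw [this, norm_smul, norm_e, mul_one, norm_neg, Real.norm_of_nonneg (by positivity)]


/-- The negation of the preceding statement: In every reflexive real Banach space, if C is closed, convex, weakly compact with normal structure and f is nonexpansive on C, then the set of values x minus f(x) for x in C is closed. -/
theorem result :
    ¬ (∀ (X : Type) [NormedAddCommGroup X] [NormedSpace ℝ X] [CompleteSpace X],
    Function.Surjective (NormedSpace.inclusionInDoubleDual ℝ X) →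
    ∀ (C : Set X), IsClosed C → Convex ℝ C → IsCompact ((toWeakSpace ℝ X) '' C) →
    (∀ K : Set X, K ⊆ C → Convex ℝ K → (∃ a ∈ K, ∃ b ∈ K, a ≠ b) →
        ∃ x ∈ K, ∃ r : ℝ, r < Metric.diam K ∧ ∀ y ∈ K, dist x y ≤ r) →
    ∀ f : X → X, (∀ x ∈ C, ∀ y ∈ C, dist (f x) (f y) ≤ dist x y) →
    IsClosed {z : X | ∃ x ∈ C, z = x - f x}) := by
  intro h
  have h1 := h (E × ℝ) refl C C_closed C_convex C_wc normal
    (fun x => (x.1, Metric.infDist x.1 S)) (fun x hx y hy => by
      rw [distC hx hy, Prod.dist_eq, max_le_iff]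
      refine ⟨le_of_eq (dist_eq_norm _ _), ?_⟩
      have := (Metric.lipschitz_infDist_pt S).dist_le_mul x.1 y.1
      simpa [dist_eq_norm] using this)
  have h2 : Tendsto (fun n : ℕ => (((e n, 0) : E × ℝ) - (e n, Metric.infDist (e n) S))) atTop
      (𝓝 0) := by
    rw [tendsto_zero_iff_norm_tendsto_zero]
    refine squeeze_zero (fun n => norm_nonneg _) (fun n => ?_)
      tendsto_one_div_add_atTop_nhds_zero_nat
    rw [Prod.norm_def]
    simp only [Prod.fst_sub, sub_self, norm_zero, Prod.snd_sub, zero_sub, norm_neg]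
    rw [Real.norm_of_nonneg Metric.infDist_nonneg]
    exact max_le (by positivity) (g_e n)
  obtain ⟨x, hx, hx2⟩ := h1.mem_of_tendsto h2 (Eventually.of_forall (fun n =>
    ⟨(e n, 0), ⟨(norm_e n).le, rfl⟩, rfl⟩))
  have h3 := congrArg Prod.snd hx2
  have h4 := g_pos x.1 hx.1
  simp only [Prod.snd_zero, Prod.snd_sub, hx.2] at h3
  linarith

end Pool.Agent.S04150
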