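import Pool.Statements.S04204
import Pool.Agent.H1.ViscA

set_option autoImplicit false
open Pool Pool.MP_2d773b_an

namespace Pool.Agent.S04204

/-- The negation of the preceding statement: For all T>0, n,d≥1 and continuous b,σ,g,h with Lipschitz/bounded coefficients and growth bounds G1, G2, some u continuous on [0,T]×ℝⁿ with u(T,·)=h is a viscosity sub- and supersolution of ∂ₜu+Lu+g(t,x,u,σ*∇u)=0 on (0,T)×ℝⁿ. -/
theorem result :
    ¬ (∀ (T : ℝ), 0 < T → ∀ (n d : ℕ), 1 ≤ n → 1 ≤ d →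
  ∀ (b : ℝ → EuclideanSpace ℝ (Fin n) → EuclideanSpace ℝ (Fin n))
    (σ : ℝ → EuclideanSpace ℝ (Fin n) → Fin n → Fin d → ℝ)
    (g : ℝ → EuclideanSpace ℝ (Fin n) → ℝ → (Fin d → ℝ) → ℝ)
    (h : EuclideanSpace ℝ (Fin n) → ℝ)
    (K k α p : ℝ),
    ContinuousOn (fun q : ℝ × EuclideanSpace ℝ (Fin n) => b q.1 q.2)
      (Set.Icc (0:ℝ) T ×ˢ (Set.univ : Set (EuclideanSpace ℝ (Fin n)))) →
    ContinuousOn (fun q : ℝ × EuclideanSpace ℝ (Fin n) => σ q.1 q.2)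
      (Set.Icc (0:ℝ) T ×ˢ (Set.univ : Set (EuclideanSpace ℝ (Fin n)))) →
    ContinuousOn
      (fun q : ℝ × EuclideanSpace ℝ (Fin n) × ℝ × (Fin d → ℝ) => g q.1 q.2.1 q.2.2.1 q.2.2.2)
      (Set.Icc (0:ℝ) T ×ˢ (Set.univ : Set (EuclideanSpace ℝ (Fin n) × ℝ × (Fin d → ℝ)))) →
    Continuous h →
    0 < K → 0 ≤ k → 1 < α → α ≤ 2 → 1 ≤ p → p < α / (α - 1) →
    (∀ t ∈ Set.Icc (0:ℝ) T, ∀ x x' : EuclideanSpace ℝ (Fin n),
      ‖b t 0‖ + Real.sqrt (∑ i, ∑ j, (σ t x i j) ^ 2) ≤ K ∧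
      ‖b t x - b t x'‖ + Real.sqrt (∑ i, ∑ j, (σ t x i j - σ t x' i j) ^ 2) ≤ K * ‖x - x'‖) →
    (∀ t ∈ Set.Icc (0:ℝ) T, ∀ (x : EuclideanSpace ℝ (Fin n)) (y : ℝ) (z : Fin d → ℝ),
      Real.sign y * g t x y z
        ≤ k * (1 + ‖x‖ ^ p + |y| + (Real.sqrt (∑ j, z j ^ 2)) ^ α)) →
    (∀ t ∈ Set.Icc (0:ℝ) T, ∀ (x : EuclideanSpace ℝ (Fin n)) (y : ℝ) (z : Fin d → ℝ),
      |g t x y z| + |h x|
        ≤ k * (1 + ‖x‖ ^ p + Real.exp (k * |y| ^ (2 / (α / (α - 1)))) + ∑ j, z j ^ 2)) →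
    ∃ u : ℝ → EuclideanSpace ℝ (Fin n) → ℝ,
      ContinuousOn (fun q : ℝ × EuclideanSpace ℝ (Fin n) => u q.1 q.2)
        (Set.Icc (0:ℝ) T ×ˢ (Set.univ : Set (EuclideanSpace ℝ (Fin n)))) ∧
      (∀ x, u T x = h x) ∧
      ∀ φ : ℝ → EuclideanSpace ℝ (Fin n) → ℝ,
        ContDiff ℝ ((⊤ : ℕ∞) : WithTop ℕ∞)
          (fun q : ℝ × EuclideanSpace ℝ (Fin n) => φ q.1 q.2) →
        ∀ t0 ∈ Set.Ioo (0:ℝ) T, ∀ x0 : EuclideanSpace ℝ (Fin n),
          (IsLocalMin (fun q : ℝ × EuclideanSpace ℝ (Fin n) => u q.1 q.2 - φ q.1 q.2) (t0, x0) →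
            deriv (fun s => φ s x0) t0 + fderiv ℝ (φ t0) x0 (b t0 x0)
              + (1 / 2) * ∑ i, ∑ j, (∑ l, σ t0 x0 i l * σ t0 x0 j l)
                  * fderiv ℝ (fun y => fderiv ℝ (φ t0) y) x0
                      (EuclideanSpace.single i (1:ℝ)) (EuclideanSpace.single j (1:ℝ))
              + g t0 x0 (u t0 x0)
                  (fun j => ∑ i, σ t0 x0 i j * fderiv ℝ (φ t0) x0 (EuclideanSpace.single i (1:ℝ)))
              ≤ 0) ∧
          (IsLocalMax (fun q : ℝ × EuclideanSpace ℝ (Fin n) => u q.1 q.2 - φ q.1 q.2) (t0, x0) →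
            0 ≤ deriv (fun s => φ s x0) t0 + fderiv ℝ (φ t0) x0 (b t0 x0)
              + (1 / 2) * ∑ i, ∑ j, (∑ l, σ t0 x0 i l * σ t0 x0 j l)
                  * fderiv ℝ (fun y => fderiv ℝ (φ t0) y) x0
                      (EuclideanSpace.single i (1:ℝ)) (EuclideanSpace.single j (1:ℝ))
              + g t0 x0 (u t0 x0)
                  (fun j => ∑ i, σ t0 x0 i j * fderiv ℝ (φ t0) x0 (EuclideanSpace.single i (1:ℝ))))) := by
  intro H
  obtain ⟨u, hu, huT, hv⟩ := H 1 one_pos 1 1 le_rfl le_rfl (fun _ _ => 0) (fun _ _ _ _ => 0)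
    (fun _ _ y _ => Pool.Agent.H1.Visc.g y) (fun x => x 0) 1 1 2 1 continuousOn_const
    continuousOn_const (Pool.Agent.H1.Visc.g_cont.comp (by fun_prop)).continuousOn (by fun_prop)
    one_pos zero_le_one (by norm_num) le_rfl le_rfl (by norm_num) (by simp) (by
      intro t _ x y z
      have h1 := Pool.Agent.H1.Visc.g_abs y
      have h2 : Real.sign y * Pool.Agent.H1.Visc.g y ≤ 1 := by
        rw [abs_le] at h1
        rcases Real.sign_apply_eq y with h | h | h <;> rw [h] <;> linarith [h1.1, h1.2]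
      have h3 : 0 ≤ ‖x‖ ^ (1 : ℝ) := by positivity
      have h4 : 0 ≤ (Real.sqrt (∑ j, z j ^ 2)) ^ (2 : ℝ) := by positivity
      linarith [abs_nonneg y]) (by
      intro t _ x y z
      have h1 := Pool.Agent.H1.Visc.g_abs y
      have h2 : |x 0| ≤ ‖x‖ := by simpa using PiLp.norm_apply_le x 0
      have h3 := Real.exp_pos (1 * |y| ^ (2 / ((2 : ℝ) / (2 - 1))))
      have h4 : 0 ≤ ∑ j, z j ^ 2 := by positivity
      rw [Real.rpow_one]
      linarith)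
  have hp : ∀ x : EuclideanSpace ℝ (Fin 1), 0 < x 0 → 1 / 64 < u (1 / 2) x := fun x hx =>
    Pool.Agent.H1.Visc.key u hu (fun φ hφ t0 ht0 x0 hl => by
      simpa using (hv φ hφ t0 ht0 x0).1 hl) x (by rw [huT]; exact hx)
  have hn : ∀ x : EuclideanSpace ℝ (Fin 1), x 0 < 0 → 1 / 64 < -u (1 / 2) x := fun x hx =>
    Pool.Agent.H1.Visc.key (fun t x => -u t x) hu.neg (fun φ hφ t0 ht0 x0 hl => by
      have h1 := (hv (fun t x => -φ t x) hφ.neg t0 ht0 x0).2 (by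
        have := hl.neg
        refine this.congr (Filter.Eventually.of_forall fun q => ?_)
        simp only; ring)
      rw [Pool.Agent.H1.Visc.g_neg]
      simp at h1
      linarith) x (by rw [huT]; simpa using hx)
  have hc : Continuous fun s : ℝ => u (1 / 2) (s • EuclideanSpace.single 0 1) := by
    have : Continuous fun s : ℝ => ((1 / 2 : ℝ),
        (s • EuclideanSpace.single 0 1 : EuclideanSpace ℝ (Fin 1))) := by fun_prop
    exact hu.comp_continuous this fun s => ⟨by norm_num, trivial⟩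
  have h1 : 1 / 64 ≤ u (1 / 2) ((0 : ℝ) • EuclideanSpace.single 0 1) :=
    ge_of_tendsto (hc.continuousAt.tendsto.mono_left (nhdsWithin_le_nhds (s := Set.Ioi 0))) (by
      filter_upwards [self_mem_nhdsWithin] with s hs
      exact (hp _ (by simpa using hs)).le)
  have h2 : 1 / 64 ≤ -u (1 / 2) ((0 : ℝ) • EuclideanSpace.single 0 1) :=
    ge_of_tendsto (hc.neg.continuousAt.tendsto.mono_left
      (nhdsWithin_le_nhds (s := Set.Iio 0))) (by
      filter_upwards [self_mem_nhdsWithin] with s hs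
      exact (hn _ (by simpa using hs)).le)
  linarith

end Pool.Agent.S04204
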