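import Pool.Statements.S04216
import Pool.Agent.H1.HeatC

set_option autoImplicit false
open Pool Pool.MP_2e654e_an

namespace Pool.Agent.S04216

/-- The negation of the preceding statement: For every even real entire f of order 1 and maximal type whose zeros lie in a strip ∣Im z∣<Δ, and every λ>0, the function sum over k of (-λ)^k/k! f^(2k) has only finitely many zeros that are non-real or multiple. -/
theorem result :
    ¬ (∀ f : ℂ → ℂ, Differentiable ℂ f →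
      (∀ x : ℝ, (f (x : ℂ)).im = 0) →
      (∀ z : ℂ, f (-z) = f z) →
      (∀ ε : ℝ, 0 < ε → ∃ R : ℝ, ∀ z : ℂ, R ≤ ‖z‖ → ‖f z‖ ≤ Real.exp (‖z‖ ^ (1 + ε))) →
      (∀ C R : ℝ, ∃ z : ℂ, R ≤ ‖z‖ ∧ Real.exp (C * ‖z‖) < ‖f z‖) →
      ∀ Δ : ℝ, 0 < Δ → (∀ z : ℂ, f z = 0 → |z.im| < Δ) →
      ∀ lam : ℝ, 0 < lam →
      ∀ g : ℂ → ℂ,
        (∀ z : ℂ, g z = ∑' k : ℕ,
          (-(lam : ℂ)) ^ k / ((Nat.factorial k : ℕ) : ℂ) * iteratedDeriv (2 * k) f z) →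
        {z : ℂ | g z = 0 ∧ (z.im ≠ 0 ∨ deriv g z = 0)}.Finite) := by
  intro h
  have h1 := h H1.HeatC.f H1.HeatC.f_diff
    (fun x => by
      simp [H1.HeatC.f, H1.HeatB.P_real, Complex.cos_ofReal_im])
    (fun z => by simp [H1.HeatC.f, H1.HeatB.P_even])
    H1.HeatC.f_up H1.HeatC.f_low 3 (by norm_num) H1.HeatC.f_zero (1 / 30) (by norm_num)
    (fun z => ∑' n, H1.HeatA.tm H1.HeatC.f n z) (fun z => rfl)
  exact H1.HeatC.main (h1.subset fun z hz => ⟨hz.1, Or.inl hz.2⟩)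

end Pool.Agent.S04216
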