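import Pool.Statements.S04226


set_option autoImplicit false
open Pool Pool.MP_2eee10_an

namespace Pool.Agent.S04226

open Filter Topology

def V (u v w : ℝ) : ℝ := 21 * u ^ 2 + 14 * v ^ 2 + 3 * w ^ 2 + 2 * u * v - 6 * u * w - 10 * v * w

lemma V_lower (u v w : ℝ) : (u ^ 2 + v ^ 2 + w ^ 2) / 2 ≤ V u v w := by
  unfold V
  nlinarith [sq_nonneg (u + (2 / 41) * v + (-6 / 41) * w), sq_nonneg (v + (-398 / 1103) * w),
    sq_nonneg w]

lemma V_upper (u v w : ℝ) : V u v w ≤ 30 * (u ^ 2 + v ^ 2 + w ^ 2) := by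
  unfold V
  nlinarith [sq_nonneg (u + (-1 / 9) * v + (1 / 3) * w), sq_nonneg (v + (48 / 143) * w),
    sq_nonneg w]

lemma V_key (u v w e : ℝ) (h : e ^ 2 ≤ ((10 * w - 15 * u - 15 * v) / 32) ^ 2 / 250000) :
    V ((10 * w - 15 * u - 15 * v) / 32 + e) u v ≤ 19 / 20 * V u v w := by
  unfold V
  nlinarith [sq_nonneg (u + (4033 / 23233) * v + (-122 / 3319) * w + (90560 / 23233) * e),
    sq_nonneg (v + (-334054 / 1301271) * w + (5254640 / 1301271) * e),
    sq_nonneg (w + (-86778040 / 15866219) * e), sq_nonneg e]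

lemma V_step (a b c : ℝ) (h : V (a - 1) (b - 1) (c - 1) ≤ 1 / 2000000) :
    V ((21 + 11 * c) / (1 + 15 * a + 15 * b + c) - 1) (a - 1) (b - 1)
      ≤ 19 / 20 * V (a - 1) (b - 1) (c - 1) := by
  obtain ⟨u, rfl⟩ : ∃ u, a = u + 1 := ⟨a - 1, by ring⟩
  obtain ⟨v, rfl⟩ : ∃ v, b = v + 1 := ⟨b - 1, by ring⟩
  obtain ⟨w, rfl⟩ : ∃ w, c = w + 1 := ⟨c - 1, by ring⟩
  simp only [add_sub_cancel_right] at h ⊢
  have h1 := V_lower u v w
  have hu : |u| ≤ 1 / 1000 := abs_le_of_sq_le_sq' (by nlinarith [sq_nonneg v, sq_nonneg w])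
    (by norm_num) |> abs_le.2
  have hv : |v| ≤ 1 / 1000 := abs_le_of_sq_le_sq' (by nlinarith [sq_nonneg u, sq_nonneg w])
    (by norm_num) |> abs_le.2
  have hw : |w| ≤ 1 / 1000 := abs_le_of_sq_le_sq' (by nlinarith [sq_nonneg u, sq_nonneg v])
    (by norm_num) |> abs_le.2
  obtain ⟨hu1, hu2⟩ := abs_le.1 hu
  obtain ⟨hv1, hv2⟩ := abs_le.1 hv
  obtain ⟨hw1, hw2⟩ := abs_le.1 hw
  set s := 15 * u + 15 * v + w with hs
  have hD : 0 < 32 + s := by linarith
  set L := (10 * w - 15 * u - 15 * v) / 32 with hL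
  have e1 : (21 + 11 * (w + 1)) / (1 + 15 * (u + 1) + 15 * (v + 1) + (w + 1)) - 1
      = L + (-s / (32 + s)) * L := by
    have : 1 + 15 * (u + 1) + 15 * (v + 1) + (w + 1) = 32 + s := by rw [hs]; ring
    rw [this, hL]
    field_simp
    rw [hs]
    ring
  rw [e1]
  apply V_key
  rw [← hL, mul_pow]
  have h3 : (-s / (32 + s)) ^ 2 ≤ 1 / 250000 := by
    rw [div_pow, div_le_iff₀ (by positivity)]
    nlinarith
  nlinarith [sq_nonneg L]

def Rec (x : ℕ → ℝ) : Prop :=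
  ∀ n, x (n + 3) = (21 + 11 * x n) / (1 + 15 * x (n + 2) + 15 * x (n + 1) + x n)

lemma decay (x : ℕ → ℝ) (hx : Rec x) (h0 : V (x 2 - 1) (x 1 - 1) (x 0 - 1) ≤ 1 / 2000000) (n : ℕ) :
    V (x (n + 2) - 1) (x (n + 1) - 1) (x n - 1)
      ≤ (19 / 20) ^ n * V (x 2 - 1) (x 1 - 1) (x 0 - 1) := by
  have hV0 : 0 ≤ V (x 2 - 1) (x 1 - 1) (x 0 - 1) := le_trans (by positivity) (V_lower _ _ _)
  induction n with
  | zero => simp
  | succ n ih =>
    have hp : (19 / 20 : ℝ) ^ n ≤ 1 := pow_le_one₀ (by norm_num) (by norm_num)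
    have h1 := V_step (x (n + 2)) (x (n + 1)) (x n) (ih.trans (by nlinarith))
    rw [← hx n] at h1
    calc _ ≤ _ := h1
      _ ≤ 19 / 20 * ((19 / 20) ^ n * V (x 2 - 1) (x 1 - 1) (x 0 - 1)) := by gcongr
      _ = _ := by ring

lemma bound (x : ℕ → ℝ) (hx : Rec x) (d : ℝ) (hd : d ≤ 1 / 20000)
    (h : ∀ i, i < 3 → |x i - 1| < d) (n : ℕ) : (x n - 1) ^ 2 ≤ (19 / 20) ^ n * (180 * d ^ 2) := by
  have h0 := h 0 (by norm_num)
  have hd0 : 0 < d := lt_of_le_of_lt (abs_nonneg _) h0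
  have e0 := sq_lt_sq' (abs_lt.1 h0).1 (abs_lt.1 h0).2
  have e1 := sq_lt_sq' (abs_lt.1 (h 1 (by norm_num))).1 (abs_lt.1 (h 1 (by norm_num))).2
  have e2 := sq_lt_sq' (abs_lt.1 (h 2 (by norm_num))).1 (abs_lt.1 (h 2 (by norm_num))).2
  have hV : V (x 2 - 1) (x 1 - 1) (x 0 - 1) ≤ 90 * d ^ 2 := by
    linarith [V_upper (x 2 - 1) (x 1 - 1) (x 0 - 1)]
  have h1 := decay x hx (hV.trans (by nlinarith)) n
  have h2 := V_lower (x (n + 2) - 1) (x (n + 1) - 1) (x n - 1)
  have h3 : (19 / 20 : ℝ) ^ n * V (x 2 - 1) (x 1 - 1) (x 0 - 1) ≤ (19 / 20) ^ n * (90 * d ^ 2) := by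
    gcongr
  nlinarith [sq_nonneg (x (n + 2) - 1), sq_nonneg (x (n + 1) - 1)]

noncomputable def sol (y : ℕ → ℝ) : ℕ → ℝ
  | 0 => y 0
  | 1 => y 1
  | 2 => y 2
  | n + 3 => (21 + 11 * sol y n) / (1 + 15 * sol y (n + 2) + 15 * sol y (n + 1) + sol y n)

lemma sol_pos (y : ℕ → ℝ) (h : ∀ i, i < 3 → 0 < y i) (n : ℕ) : 0 < sol y n := by
  induction n using Nat.strong_induction_on with
  | _ n ih =>
    match n, ih with
    | 0, _ => exact h 0 (by norm_num)
    | 1, _ => exact h 1 (by norm_num)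
    | 2, _ => exact h 2 (by norm_num)
    | n + 3, ih =>
      have h0 := ih n (by omega)
      have h1 := ih (n + 1) (by omega)
      have h2 := ih (n + 2) (by omega)
      rw [sol]
      positivity


/-- The negation of the preceding statement: For any k ≥ 1 and nonnegative parameters where all positive initial values give positive, bounded solutions of the rational recurrence, any locally asymptotically stable equilibrium attracts every positive solution. -/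
theorem result :
    ¬ (∀ (k : ℕ), 1 ≤ k → ∀ (α A : ℝ) (β B : Fin k → ℝ), 0 ≤ α → 0 ≤ A →
    (∀ j, 0 ≤ β j) → (∀ j, 0 ≤ B j) →
    ∀ S : (ℕ → ℝ) → Prop,
      (∀ x : ℕ → ℝ, S x ↔ ((∀ n, 0 < x n) ∧
        ∀ n : ℕ, k ≤ n →
          (0 < A + ∑ j : Fin k, B j * x (n - 1 - (j : ℕ)) ∧
           x n = (α + ∑ j : Fin k, β j * x (n - 1 - (j : ℕ))) /
                 (A + ∑ j : Fin k, B j * x (n - 1 - (j : ℕ)))))) →
      (∀ y : ℕ → ℝ, (∀ i : ℕ, i < k → 0 < y i) →
        ∃ x : ℕ → ℝ, S x ∧ ∀ i : ℕ, i < k → x i = y i) →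
      (∀ x : ℕ → ℝ, S x → ∃ M : ℝ, ∀ n, x n ≤ M) →
      ∀ xbar : ℝ, 0 ≤ xbar →
        xbar * (A + ∑ j : Fin k, B j * xbar) = α + ∑ j : Fin k, β j * xbar →
        (∀ ε : ℝ, 0 < ε → ∃ δ : ℝ, 0 < δ ∧ ∀ x : ℕ → ℝ, S x →
          (∀ i : ℕ, i < k → |x i - xbar| < δ) → ∀ n : ℕ, k ≤ n → |x n - xbar| < ε) →
        (∃ γ : ℝ, 0 < γ ∧ ∀ x : ℕ → ℝ, S x →
          (∀ i : ℕ, i < k → |x i - xbar| < γ) →
          Filter.Tendsto x Filter.atTop (nhds xbar)) →
        ∀ x : ℕ → ℝ, S x → Filter.Tendsto x Filter.atTop (nhds xbar)) := by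
  intro H
  have key := H 3 (by norm_num) 21 1 ![0, 0, 11] ![15, 15, 1] (by norm_num) (by norm_num)
    (fun j => by fin_cases j <;> simp) (fun j => by fin_cases j <;> simp)
    (fun x => (∀ n, 0 < x n) ∧ Rec x) ?_ ?_ ?_ 1 (by norm_num) ?_ ?_ ?_
    (fun n => if n % 3 = 0 then 6 else 1 / 4) ⟨?_, ?_⟩
  · have h2 := key.comp (tendsto_id.const_mul_atTop' (show 0 < 3 by norm_num))
    have h3 : ((fun n : ℕ => if n % 3 = 0 then (6 : ℝ) else 1 / 4) ∘ fun x => 3 * id x)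
        = fun _ => 6 := by
      funext n
      simp
    rw [h3] at h2
    have := tendsto_nhds_unique h2 tendsto_const_nhds
    norm_num at this
  · intro x
    apply and_congr_right
    intro hp
    constructor
    · intro h n hn
      obtain ⟨m, rfl⟩ : ∃ m, n = m + 3 := ⟨n - 3, by omega⟩
      have h0 := hp m
      have h1 := hp (m + 1)
      have h2 := hp (m + 2)
      simp only [Fin.sum_univ_three]
      simp
      refine ⟨by positivity, ?_⟩
      rw [h m]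
      congr 1
      ring
    · intro h m
      have := (h (m + 3) (by omega)).2
      simp only [Fin.sum_univ_three] at this
      simp at this
      rw [this]
      congr 1
      ring
  · intro y hy
    refine ⟨sol y, ⟨sol_pos y hy, fun n => by rw [sol]⟩, fun i hi => ?_⟩
    interval_cases i <;> simp [sol]
  · rintro x ⟨hp, hx⟩
    refine ⟨21 + x 0 + x 1 + x 2, fun n => ?_⟩
    have h0 := hp 0
    have h1 := hp 1
    have h2 := hp 2
    match n with
    | 0 => linarith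
    | 1 => linarith
    | 2 => linarith
    | n + 3 =>
      have k0 := hp n
      have k1 := hp (n + 1)
      have k2 := hp (n + 2)
      have : x (n + 3) ≤ 21 := by
        rw [hx n, div_le_iff₀ (by positivity)]
        linarith
      linarith
  · simp [Fin.sum_univ_three]
    norm_num
  · intro ε hε
    refine ⟨min (ε / 14) (1 / 20000), by positivity, fun x hx h n _ => ?_⟩
    have h1 := bound x hx.2 _ (min_le_right _ _) h n
    have hp : (19 / 20 : ℝ) ^ n ≤ 1 := pow_le_one₀ (by norm_num) (by norm_num)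
    have h2 : (min (ε / 14) (1 / 20000)) ^ 2 ≤ (ε / 14) ^ 2 := by
      gcongr
      exact min_le_left _ _
    apply abs_lt_of_sq_lt_sq _ hε.le
    have h3 : (19 / 20 : ℝ) ^ n * (180 * (min (ε / 14) (1 / 20000)) ^ 2)
        ≤ 1 * (180 * (ε / 14) ^ 2) := by gcongr
    nlinarith [sq_pos_of_pos hε]
  · refine ⟨1 / 20000, by norm_num, fun x hx h => ?_⟩
    have h1 := bound x hx.2 _ le_rfl h
    have h2 : Tendsto (fun n => (x n - 1) ^ 2) atTop (𝓝 0) := by
      refine squeeze_zero (fun n => sq_nonneg _) h1 ?_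
      have := (tendsto_pow_atTop_nhds_zero_of_lt_one (r := (19 / 20 : ℝ)) (by norm_num)
        (by norm_num)).mul_const (180 * (1 / 20000) ^ 2)
      simpa using this
    have h3 := h2.sqrt
    simp only [Real.sqrt_sq_eq_abs, Real.sqrt_zero] at h3
    rw [tendsto_iff_norm_sub_tendsto_zero]
    exact h3
  · intro n
    split_ifs <;> norm_num
  · intro n
    have h4 : n % 3 = 0 ∨ n % 3 = 1 ∨ n % 3 = 2 := by omega
    rcases h4 with h | h | h <;> simp [Nat.add_mod, h] <;> norm_num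

end Pool.Agent.S04226
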