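import Pool.Statements.S04342


set_option autoImplicit false
open Pool Pool.MP_3789da_an

namespace Pool.Agent.S04342

open scoped symmDiff

def Tr : Type := List Bool

instance : DecidableEq Tr := inferInstanceAs (DecidableEq (List Bool))

def anc : List Bool → Finset (List Bool)
  | [] => {[]}
  | b :: x => insert (b :: x) (anc x)

lemma self_mem (x : List Bool) : x ∈ anc x := by
  cases x <;> simp [anc]

lemma len_le {z x : List Bool} (h : z ∈ anc x) : z.length ≤ x.length := by
  induction x with
  | nil => simp [anc] at h; simp [h]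
  | cons b x ih =>
    simp only [anc, Finset.mem_insert] at h
    rcases h with h | h
    · rw [h]
    · have := ih h
      simp only [List.length_cons]; omega

lemma eq_of_len {z u x : List Bool} (hz : z ∈ anc x) (hu : u ∈ anc x)
    (h : z.length = u.length) : z = u := by
  induction x with
  | nil => simp [anc] at hz hu; rw [hz, hu]
  | cons b x ih =>
    simp only [anc, Finset.mem_insert] at hz hu
    rcases hz with hz | hz <;> rcases hu with hu | hu
    · rw [hz, hu]
    · have := len_le hu
      rw [hz] at h; simp only [List.length_cons] at h; omega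
    · have := len_le hz
      rw [hu] at h; simp only [List.length_cons] at h; omega
    · exact ih hz hu

lemma cons_not_mem (b : Bool) (x : List Bool) : b :: x ∉ anc x := by
  intro h
  have := len_le h
  simp only [List.length_cons] at this; omega

lemma anc_inj {x y : List Bool} (h : anc x = anc y) : x = y := by
  have h1 : x ∈ anc y := h ▸ self_mem x
  have h2 : y ∈ anc x := h.symm ▸ self_mem y
  exact eq_of_len h1 (self_mem y) (le_antisymm (len_le h1) (len_le h2))

noncomputable def w (z : List Bool) : ℝ := 1 / ((z.length : ℝ) + 1)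

lemma w_pos (z : List Bool) : 0 < w z := by unfold w; positivity

noncomputable def dd (x y : List Bool) : ℝ := ∑ z ∈ anc x ∆ anc y, w z

lemma le_dd {x y z : List Bool} (h : z ∈ anc x ∆ anc y) : w z ≤ dd x y :=
  Finset.single_le_sum (fun i _ => (w_pos i).le) h

lemma nonempty_of_ne {x y : List Bool} (h : x ≠ y) : (anc x ∆ anc y).Nonempty := by
  rw [Finset.nonempty_iff_ne_empty]
  intro h2
  exact h (anc_inj (symmDiff_eq_bot.1 h2))

noncomputable instance : MetricSpace Tr where
  dist x y := dd x y
  dist_self x := by simp [dd]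
  dist_comm x y := by simp [dd, symmDiff_comm]
  dist_triangle x y z := by
    unfold dd
    have h1 : anc x ∆ anc z ⊆ (anc x ∆ anc y) ∪ (anc y ∆ anc z) := symmDiff_triangle _ _ _
    refine (Finset.sum_le_sum_of_subset_of_nonneg h1 (fun i _ _ => (w_pos i).le)).trans ?_
    rw [← Finset.sum_union_inter]
    have : 0 ≤ ∑ i ∈ (anc x ∆ anc y) ∩ (anc y ∆ anc z), w i :=
      Finset.sum_nonneg (fun i _ => (w_pos i).le)
    linarith
  eq_of_dist_eq_zero := by
    intro x y h
    by_contra hne
    obtain ⟨z, hz⟩ := nonempty_of_ne hne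
    have := le_dd hz
    have := w_pos z
    linarith

lemma dist_def (x y : Tr) : dist x y = dd x y := rfl

lemma sum_anc (x : List Bool) :
    ∑ z ∈ anc x, w z = ∑ k ∈ Finset.range (x.length + 1), 1 / ((k : ℝ) + 1) := by
  induction x with
  | nil => simp [anc, w]
  | cons b x ih =>
    rw [anc, Finset.sum_insert (cons_not_mem b x), ih, List.length_cons,
      Finset.sum_range_succ _ (x.length + 1)]
    simp [w, add_comm]

lemma sum_le (x y : List Bool) : ∑ z ∈ anc x, w z ≤ ∑ z ∈ anc y, w z + dd x y := by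
  unfold dd
  have h1 : anc x ⊆ anc y ∪ (anc x ∆ anc y) := by
    intro z hz
    by_cases h : z ∈ anc y
    · exact Finset.mem_union_left _ h
    · exact Finset.mem_union_right _ (Finset.mem_symmDiff.2 (Or.inl ⟨hz, h⟩))
  refine (Finset.sum_le_sum_of_subset_of_nonneg h1 (fun i _ _ => (w_pos i).le)).trans ?_
  rw [← Finset.sum_union_inter]
  have : 0 ≤ ∑ i ∈ anc y ∩ (anc x ∆ anc y), w i :=
    Finset.sum_nonneg (fun i _ => (w_pos i).le)
  linarith

lemma sep (c : Tr) (R : ℝ) : ∃ δ : ℝ, 0 < δ ∧ ∀ u v : Tr, dist u c ≤ R → dist v c ≤ R →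
    dist u v < δ → u = v := by
  have ht := Real.tendsto_sum_range_one_div_nat_succ_atTop
  obtain ⟨N, hN⟩ := Filter.eventually_atTop.1
    (ht.eventually_gt_atTop (∑ z ∈ anc c, w z + R))
  have hl : ∀ u : Tr, dist u c ≤ R → List.length u ≤ N := by
    intro u hu
    by_contra hh
    have h1 := hN (List.length u + 1) (by omega)
    have h2 := sum_le u c
    rw [sum_anc u] at h2
    rw [dist_def] at hu
    linarith
  refine ⟨1 / ((N : ℝ) + 1), by positivity, fun u v hu hv huv => ?_⟩
  by_contra hne
  obtain ⟨z, hz⟩ := nonempty_of_ne hne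
  have h1 := le_dd hz
  have h2 : z.length ≤ N := by
    rcases Finset.mem_symmDiff.1 hz with h | h
    · exact (len_le h.1).trans (hl u hu)
    · exact (len_le h.1).trans (hl v hv)
  have h3 : 1 / ((N : ℝ) + 1) ≤ w z := by
    unfold w
    apply one_div_le_one_div_of_le (by positivity)
    have : (z.length : ℝ) ≤ N := by exact_mod_cast h2
    linarith
  rw [dist_def] at huv
  linarith

instance : CompleteSpace Tr := by
  refine Metric.complete_of_cauchySeq_tendsto (fun u hu => ?_)
  obtain ⟨R, -, hR⟩ := cauchySeq_bdd hu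
  obtain ⟨δ, hδ, h⟩ := sep (u 0) R
  obtain ⟨N, hN⟩ := Metric.cauchySeq_iff'.1 hu δ hδ
  refine ⟨u N, tendsto_const_nhds.congr' ?_⟩
  filter_upwards [Filter.eventually_ge_atTop N] with n hn
  exact (h _ _ (hR _ _).le (hR _ _).le (hN n hn)).symm

lemma all_open (s : Set Tr) : IsOpen s := by
  rw [Metric.isOpen_iff]
  intro c hc
  obtain ⟨δ, hδ, h⟩ := sep c 1
  refine ⟨min δ 1, by positivity, fun u hu => ?_⟩
  rw [Metric.mem_ball, lt_min_iff] at hu
  rw [h u c hu.2.le (by simp) hu.1]
  exact hc

def TT (x : Tr) : Set Tr := {z | (z : List Bool) ∉ anc x}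

lemma dd_cons (b : Bool) (z : List Bool) : dd z (b :: z) = 1 / ((z.length : ℝ) + 2) := by
  have : anc z ∆ anc (b :: z) = {b :: z} := by
    ext u
    simp only [anc, Finset.mem_symmDiff, Finset.mem_insert, Finset.mem_singleton]
    have := cons_not_mem b z
    constructor
    · rintro (⟨h1, h2⟩ | ⟨h1 | h1, h2⟩)
      · exact absurd (Or.inr h1) h2
      · exact h1
      · exact absurd h1 h2
    · rintro rfl
      exact Or.inr ⟨Or.inl rfl, this⟩
  unfold dd
  rw [this, Finset.sum_singleton]
  simp only [w, List.length_cons]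
  push_cast
  ring_nf

lemma half (x y : Tr) (m : ℕ) (hm : ∀ z ∈ anc x ∆ anc y, m ≤ List.length z) :
    ∀ z ∈ TT x, ∃ u ∈ TT y, edist z u ≤ ENNReal.ofReal (1 / ((m : ℝ) + 2)) := by
  intro z hz
  by_cases h : (z : List Bool) ∈ anc y
  · have h1 : m ≤ List.length z := hm z (Finset.mem_symmDiff.2 (Or.inr ⟨h, hz⟩))
    have h2 : ∃ b : Bool, b :: z ∉ anc y := by
      by_contra hh
      push Not at hh
      have := eq_of_len (hh true) (hh false) rfl
      exact absurd (List.cons.inj this).1 (by decide)
    obtain ⟨b, hb⟩ := h2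
    have key : ∀ u : Tr, edist z u = ENNReal.ofReal (dd z u) := fun u => edist_dist z u
    refine ⟨b :: z, hb, (key (b :: z)).le.trans ?_⟩
    rw [dd_cons]
    apply ENNReal.ofReal_le_ofReal
    apply one_div_le_one_div_of_le (by positivity)
    have : (m : ℝ) ≤ List.length z := by exact_mod_cast h1
    linarith
  · exact ⟨z, h, by simp⟩

noncomputable def ph (t : ℝ) : ℝ := 1 / (⌈1 / t⌉₊ : ℝ)


/-- The negation of the preceding statement: Every multivalued map on a nonempty complete metric space with nonempty closed values, whose Hausdorff distance H(Tx,Ty) is less than φ(d(x,y)) for x≠y with φ an L-function, has a point x with x in Tx. -/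
theorem result :
    ¬ (∀ (X : Type) [MetricSpace X] [CompleteSpace X] [Nonempty X]
      (T : X → Set X) (φ : ℝ → ℝ),
      (∀ x, (T x).Nonempty ∧ IsClosed (T x)) →
      φ 0 = 0 →
      (∀ s : ℝ, 0 < s → 0 < φ s) →
      (∀ s : ℝ, 0 < s → ∃ δ : ℝ, 0 < δ ∧ ∀ t ∈ Set.Icc s (s + δ), φ t ≤ s) →
      (∀ x y : X, x ≠ y →
        EMetric.hausdorffEdist (T x) (T y) < ENNReal.ofReal (φ (dist x y))) →
      ∃ x : X, x ∈ T x) := by
  intro h
  haveI : Nonempty Tr := ⟨([] : List Bool)⟩
  obtain ⟨x, hx⟩ := h Tr TT ph (fun x => ⟨⟨true :: x, cons_not_mem true x⟩,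
      ⟨all_open _⟩⟩) (by simp [ph]) (fun s hs => by
      have : 0 < ⌈1 / s⌉₊ := Nat.ceil_pos.2 (by positivity)
      unfold ph
      positivity) (fun s hs => by
      have h0 : 0 < ⌈1 / s⌉₊ := Nat.ceil_pos.2 (by positivity)
      have h1 : ((⌈1 / s⌉₊ - 1 : ℕ) : ℝ) < 1 / s := Nat.lt_ceil.1 (by omega)
      have hc : ContinuousAt (fun t : ℝ => 1 / t) s := continuousAt_const.div continuousAt_id hs.ne'
      have h2 := hc.eventually (lt_mem_nhds h1)
      obtain ⟨ε, hε, h3⟩ := Metric.eventually_nhds_iff.1 h2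
      refine ⟨ε / 2, by positivity, fun t ht => ?_⟩
      have h4 : ((⌈1 / s⌉₊ - 1 : ℕ) : ℝ) < 1 / t := h3 (by
        rw [Real.dist_eq, abs_lt]; constructor <;> linarith [ht.1, ht.2])
      have h5 : ⌈1 / s⌉₊ ≤ ⌈1 / t⌉₊ := by
        have := Nat.lt_ceil.2 h4
        omega
      have h6 : (1 / s : ℝ) ≤ ⌈1 / t⌉₊ := (Nat.le_ceil _).trans (by exact_mod_cast h5)
      unfold ph
      rw [one_div_le (lt_of_lt_of_le (by positivity) h6) hs]
      exact h6) (fun x y hxy => by
      obtain ⟨z, hz, hmin⟩ := Finset.exists_min_image _ List.length (nonempty_of_ne hxy)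
      have h1 : EMetric.hausdorffEdist (TT x) (TT y) ≤
          ENNReal.ofReal (1 / ((List.length z : ℝ) + 2)) :=
        Metric.hausdorffEDist_le_of_mem_edist (half x y _ hmin)
          (half y x _ (by rw [symmDiff_comm]; exact hmin))
      refine lt_of_le_of_lt h1 ?_
      have h2 := le_dd hz
      have hd : 0 < dd x y := lt_of_lt_of_le (w_pos z) h2
      have h3 : ⌈1 / dd x y⌉₊ ≤ List.length z + 1 := by
        rw [Nat.ceil_le]
        unfold w at h2
        rw [one_div_le (by positivity) hd] at h2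
        push_cast
        exact h2
      have h4 : 0 < ⌈1 / dd x y⌉₊ := Nat.ceil_pos.2 (by positivity)
      have h5 : 1 / ((List.length z : ℝ) + 2) < ph (dist x y) := by
        rw [dist_def]
        unfold ph
        apply one_div_lt_one_div_of_lt (by exact_mod_cast h4)
        have : (⌈1 / dd x y⌉₊ : ℝ) ≤ (List.length z : ℝ) + 1 := by exact_mod_cast h3
        linarith
      exact (ENNReal.ofReal_lt_ofReal_iff (lt_trans (by positivity) h5)).2 h5)
  exact hx (self_mem x)

end Pool.Agent.S04342
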