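import Pool.Statements.S04348

set_option autoImplicit false
open MeasureTheory
open scoped ENNReal
open Pool Pool.MP_37b4fc_an

namespace Pool.Agent.S04348

open Filter Topology unitInterval

abbrev CC : Type := C(I, ℝ)

def S0 : Submodule ℝ CC where
  carrier := {y | y 0 = 0}
  add_mem' ha hb := by
    show _ + _ = (0 : ℝ)
    rw [ha, hb, add_zero]
  zero_mem' := rfl
  smul_mem' c _ ha := by
    show c * _ = (0 : ℝ)
    rw [ha, mul_zero]

abbrev C0 : Type := S0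

lemma compl0 : CompleteSpace C0 :=
  (isClosed_eq (continuous_eval_const (0 : I)) continuous_const :
    IsClosed (S0 : Set CC)).completeSpace_coe

noncomputable def idf : CC := ⟨fun τ => τ, continuous_subtype_val⟩

noncomputable def io : C0 →L[ℝ] CC := (ContinuousLinearMap.mul ℝ CC idf).comp (Submodule.subtypeL _)

lemma io_apply (y : C0) (τ : I) : io y τ = τ * y.1 τ := rfl

lemma z0 (y : C0) : y.1 0 = 0 := y.2

lemma io_inj : Function.Injective io := by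
  intro y z h
  ext τ
  by_cases h0 : τ = 0
  · rw [h0, z0, z0]
  · exact mul_left_cancel₀ (fun e => h0 (Subtype.ext e)) (DFunLike.congr_fun h τ)

noncomputable def UU (x : ℝ × CC) : CC := ⟨fun τ => min |x.2 τ| |x.1|, by fun_prop⟩

lemma cont_V : Continuous fun p : (ℝ × C0) × I => min |p.1.2.1 p.2| (|p.1.1| / p.2) := by
  have h1 : Continuous fun p : (ℝ × C0) × I => |p.1.2.1 p.2| := by fun_prop
  refine continuous_iff_continuousAt.2 fun p => ?_
  by_cases h0 : p.2 = 0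
  · have h2 := h1.tendsto p
    show Tendsto _ _ (𝓝 (min |p.1.2.1 p.2| (|p.1.1| / p.2)))
    rw [h0, z0, abs_zero] at h2
    rw [h0, z0, abs_zero, min_eq_left (by simp)]
    exact squeeze_zero (fun q => le_min (abs_nonneg _) (div_nonneg (abs_nonneg _) q.2.2.1))
      (fun q => min_le_left _ _) h2
  · refine h1.continuousAt.min (ContinuousAt.div (by fun_prop) (by fun_prop)
      fun e => h0 (Subtype.ext e))

noncomputable def VV (y : ℝ × C0) : C0 :=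
  ⟨ContinuousMap.curry ⟨_, cont_V⟩ y, by
    show min |y.2.1 0| (|y.1| / (0 : I)) = 0
    rw [z0]; simp⟩

lemma up {f : ℝ → ℝ} {C : ℝ} (h : ∀ t, 0 < t → 0 ≤ f t ∧ f t ≤ C * √t) :
    eLpNorm (fun t : ℝ => t ^ (-(1 / 2 : ℝ)) * f t) ∞
      ((volume.restrict (Set.Ioi (0:ℝ))).withDensity (fun t => ENNReal.ofReal t⁻¹)) ≤
      ENNReal.ofReal C := by
  rw [eLpNorm_exponent_top]
  refine eLpNormEssSup_le_of_ae_bound ((withDensity_absolutelyContinuous _ _).ae_le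
    ((ae_restrict_mem measurableSet_Ioi).mono fun t ht => ?_))
  have ht : 0 < t := ht
  have h1 := Real.sqrt_pos.2 ht
  rw [Real.rpow_neg ht.le, ← Real.sqrt_eq_rpow, Real.norm_eq_abs,
    abs_of_nonneg (mul_nonneg (by positivity) (h t ht).1), inv_mul_le_iff₀ h1, mul_comm]
  exact (h t ht).2

noncomputable def sq : CC := ⟨fun τ => √τ, by fun_prop⟩

noncomputable def iA : (ℝ × C0) →L[ℝ] (ℝ × CC) := (ContinuousLinearMap.id ℝ ℝ).prodMap io

lemma bb (a : ℝ × CC) {t : ℝ} (ht : 0 < t) :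
    BddBelow (Set.range fun y : ℝ × C0 => ‖a - iA y‖ + t * ‖y‖) :=
  ⟨0, by rintro _ ⟨y, rfl⟩; positivity⟩

lemma n0 : ‖(0 : ℝ × C0)‖ = 0 := norm_zero

lemma K1 {s : ℝ} (h0 : 0 ≤ s) (h1 : s ≤ 1) (t : ℝ) (ht : 0 < t) :
    0 ≤ ⨅ y : ℝ × C0, (‖(s, sq) - iA y‖ + t * ‖y‖) ∧
      ⨅ y : ℝ × C0, (‖(s, sq) - iA y‖ + t * ‖y‖) ≤ 2 * √t := by
  refine ⟨Real.iInf_nonneg fun y => by positivity, ?_⟩
  have hs := Real.sqrt_pos.2 ht
  have hss := Real.mul_self_sqrt ht.le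
  rcases le_total 1 t with h | h
  · refine (ciInf_le (bb _ ht) 0).trans ?_
    have h2 : 1 ≤ √t := Real.one_le_sqrt.2 h
    have h3 : ‖(s, sq)‖ ≤ 1 := norm_prod_le_iff.2 ⟨by rwa [Real.norm_of_nonneg h0],
      (ContinuousMap.norm_le _ zero_le_one).2 fun τ => by
        show ‖√τ‖ ≤ 1
        rw [Real.norm_of_nonneg (Real.sqrt_nonneg _)]; exact Real.sqrt_le_one.2 τ.2.2⟩
    simp only [map_zero, sub_zero, n0, mul_zero, add_zero]
    linarith
  · have h2 : √t ≤ 1 := Real.sqrt_le_one.2 h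
    let y : C0 := ⟨⟨fun τ => √τ / max (τ : ℝ) t, Continuous.div (by fun_prop) (by fun_prop)
      fun τ => (lt_max_of_lt_right ht).ne'⟩, by
        show √((0 : I) : ℝ) / _ = 0
        simp⟩
    refine (ciInf_le (bb _ ht) (s, y)).trans ?_
    have h3 : ‖(s, y)‖ ≤ (√t)⁻¹ := norm_prod_le_iff.2 ⟨by
      rw [Real.norm_of_nonneg h0]; exact h1.trans ((one_le_inv₀ hs).2 h2),
      (ContinuousMap.norm_le y.1 (by positivity)).2 fun τ => by
        show ‖√τ / max (τ : ℝ) t‖ ≤ _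
        have h4 : 0 < max (τ : ℝ) t := lt_max_of_lt_right ht
        rw [Real.norm_of_nonneg (by positivity), div_le_iff₀ h4, le_inv_mul_iff₀ hs,
          ← Real.sqrt_mul ht.le]
        refine Real.sqrt_le_iff.2 ⟨h4.le, ?_⟩
        rw [pow_two]
        exact mul_le_mul (le_max_right _ _) (le_max_left _ _) τ.2.1 h4.le⟩
    have h4 : ‖(s, sq) - iA (s, y)‖ ≤ √t := norm_prod_le_iff.2 ⟨by simp [iA],
      (ContinuousMap.norm_le _ hs.le).2 fun τ => by
        show ‖√τ - τ * (√τ / max (τ : ℝ) t)‖ ≤ _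
        rcases le_total (τ : ℝ) t with h5 | h5
        · have h6 := Real.sqrt_le_sqrt h5
          have h7 : 0 ≤ τ * (√τ / t) := mul_nonneg τ.2.1 (by positivity)
          have h8 : τ * (√τ / t) ≤ √τ := by
            rw [← mul_div_assoc, div_le_iff₀ ht, mul_comm]
            exact mul_le_mul_of_nonneg_left h5 (Real.sqrt_nonneg _)
          rw [max_eq_right h5, Real.norm_of_nonneg (by linarith)]
          linarith
        · rw [max_eq_left h5, mul_div_cancel₀ _ (ht.trans_le h5).ne', sub_self, norm_zero]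
          exact hs.le⟩
    have h5 : t * ‖(s, y)‖ ≤ √t := by
      refine (mul_le_mul_of_nonneg_left h3 ht.le).trans (le_of_eq ?_)
      field_simp; linarith
    linarith

lemma K2 {s : ℝ} (h0 : 0 ≤ s) (t : ℝ) (ht : 0 < t) :
    0 ≤ ⨅ y : ℝ × C0, (‖((s, sq) - (0, sq)) - iA y‖ + t * ‖y‖) ∧
      ⨅ y : ℝ × C0, (‖((s, sq) - (0, sq)) - iA y‖ + t * ‖y‖) ≤ s * √t := by
  refine ⟨Real.iInf_nonneg fun y => by positivity, ?_⟩
  have hss := Real.mul_self_sqrt ht.le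
  have hs := Real.sqrt_pos.2 ht
  rcases le_total 1 t with h | h
  · refine (ciInf_le (bb _ ht) 0).trans ?_
    have h2 : 1 ≤ √t := Real.one_le_sqrt.2 h
    simp [abs_of_nonneg h0, h0, n0]
    nlinarith
  · refine (ciInf_le (bb _ ht) (s, 0)).trans ?_
    have h2 : √t ≤ 1 := Real.sqrt_le_one.2 h
    simp [iA, abs_of_nonneg h0, h0]
    nlinarith [mul_nonneg h0 hs.le]

lemma L1 (a b : ℝ × CC) : ‖UU a - UU b‖ ≤ 1 * ‖a - b‖ := by
  rw [one_mul]
  refine (ContinuousMap.norm_le _ (norm_nonneg _)).2 fun τ => ?_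
  refine (abs_min_sub_min_le_max _ _ _ _).trans (max_le ?_ ?_)
  · exact (abs_abs_sub_abs_le_abs_sub _ _).trans
      (((a - b).2.norm_coe_le_norm τ).trans (norm_snd_le _))
  · exact (abs_abs_sub_abs_le_abs_sub _ _).trans (norm_fst_le (a - b))

lemma L2 (x : ℝ × C0) : UU (iA x) = io (VV x) := by
  ext τ
  show min |τ * x.2.1 τ| |x.1| = τ * min |x.2.1 τ| (|x.1| / τ)
  by_cases h0 : (τ : ℝ) = 0
  · simp [h0]
  · rw [mul_min_of_nonneg _ _ τ.2.1, mul_div_cancel₀ _ h0, abs_mul, abs_of_nonneg τ.2.1]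

lemma L3 (x : ℝ × C0) : ‖VV x‖ ≤ 1 * ‖x‖ := by
  rw [one_mul]
  refine (ContinuousMap.norm_le (VV x).1 (norm_nonneg x)).2 fun τ => ?_
  show |min |x.2.1 τ| (|x.1| / τ)| ≤ _
  rw [abs_of_nonneg (le_min (abs_nonneg _) (div_nonneg (abs_nonneg _) τ.2.1))]
  exact (min_le_left _ _).trans ((x.2.1.norm_coe_le_norm τ).trans (norm_snd_le x))

lemma L4 : Continuous VV := Continuous.subtype_mk (ContinuousMap.continuous _) _

lemma L5 {s t : ℝ} (s0 : 0 < s) (s1 : s ≤ 1) (ht : t ∈ Set.Ioo 0 (s * s)) :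
    √t ≤ ⨅ z : C0, (‖(UU (s, sq) - UU (0, sq)) - io z‖ + t * ‖z‖) := by
  have h5 := Real.sqrt_pos.2 ht.1
  have h6 : √t ≤ s := Real.sqrt_le_iff.2 ⟨s0.le, by nlinarith [ht.2]⟩
  refine le_ciInf fun z => ?_
  let τ : I := ⟨t, ht.1.le, by nlinarith [ht.2]⟩
  have a1 : |min |√t| |s| - min |√t| |0| - t * z.1 τ| ≤ _ :=
    ((UU (s, sq) - UU (0, sq)) - io z).norm_coe_le_norm τ
  have a2 : |z.1 τ| ≤ ‖z‖ := z.1.norm_coe_le_norm τ
  rw [abs_of_pos h5, abs_of_pos s0, min_eq_left h6, abs_zero, min_eq_right h5.le] at a1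
  have a3 := mul_le_mul_of_nonneg_left ((le_abs_self _).trans a2) ht.1.le
  linarith [le_abs_self (√t - 0 - t * z.1 τ)]

lemma low {f : ℝ → ℝ} {r : ℝ} (hr : 0 < r) (h : ∀ t ∈ Set.Ioo 0 r, √t ≤ f t) :
    ¬ eLpNorm (fun t : ℝ => t ^ (-(1 / 2 : ℝ)) * f t) ∞
      ((volume.restrict (Set.Ioi (0:ℝ))).withDensity (fun t => ENNReal.ofReal t⁻¹)) < 1 := by
  intro h1
  rw [eLpNorm_exponent_top] at h1
  have h2 := (withDensity_absolutelyContinuous' (μ := volume.restrict (Set.Ioi (0:ℝ)))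
    (f := fun t => ENNReal.ofReal t⁻¹) (by fun_prop)
    ((ae_restrict_mem measurableSet_Ioi).mono fun t ht =>
      (ENNReal.ofReal_pos.2 (inv_pos.2 ht)).ne')).ae_le
    (ae_le_eLpNormEssSup.mono fun _ h => h.trans_lt h1)
  have h3 : ∀ᵐ t : ℝ, t ∉ Set.Ioo 0 r := by
    filter_upwards [(ae_restrict_iff' measurableSet_Ioi).1 h2] with t h4 ht
    have h5 := Real.sqrt_pos.2 ht.1
    have h8 := h4 ht.1
    rw [Real.rpow_neg ht.1.le, ← Real.sqrt_eq_rpow, ← ofReal_norm_eq_enorm,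
      ENNReal.ofReal_lt_one] at h8
    have h9 := (le_abs_self _).trans_lt h8
    rw [inv_mul_lt_iff₀ h5] at h9
    linarith [h t ht]
  have h4 : volume (Set.Ioo 0 r) = 0 := measure_eq_zero_iff_ae_notMem.2 h3
  rw [Real.volume_Ioo, ENNReal.ofReal_eq_zero] at h4
  linarith

theorem result :
    ¬ (∀ (E0 E1 F0 F1 : Type)
      [NormedAddCommGroup E0] [NormedSpace ℝ E0] [CompleteSpace E0]
      [NormedAddCommGroup E1] [NormedSpace ℝ E1] [CompleteSpace E1]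
      [NormedAddCommGroup F0] [NormedSpace ℝ F0] [CompleteSpace F0]
      [NormedAddCommGroup F1] [NormedSpace ℝ F1] [CompleteSpace F1]
      (ιA : E1 →L[ℝ] E0) (ιB : F1 →L[ℝ] F0),
      Function.Injective ιA → Function.Injective ιB →
      ∀ (U : E0 → F0) (V : E1 → F1) (M0 M1 : ℝ),
        (∀ a b : E0, ‖U a - U b‖ ≤ M0 * ‖a - b‖) →
        (∀ x : E1, U (ιA x) = ιB (V x)) →
        (∀ x : E1, ‖V x‖ ≤ M1 * ‖x‖) →
        Continuous V →
        ∀ θ : ℝ, 0 < θ → θ < 1 → ∀ p : ℝ≥0∞, 1 ≤ p →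
        ∀ a : E0,
          eLpNorm (fun t : ℝ => t ^ (-θ) * ⨅ y : E1, (‖a - ιA y‖ + t * ‖y‖)) p
            ((volume.restrict (Set.Ioi (0:ℝ))).withDensity (fun t => ENNReal.ofReal t⁻¹)) < ∞ →
          ∀ ε : ℝ≥0∞, 0 < ε → ∃ δ : ℝ≥0∞, 0 < δ ∧ ∀ b : E0,
            eLpNorm (fun t : ℝ => t ^ (-θ) * ⨅ y : E1, (‖b - ιA y‖ + t * ‖y‖)) p
              ((volume.restrict (Set.Ioi (0:ℝ))).withDensity (fun t => ENNReal.ofReal t⁻¹)) < ∞ →
            eLpNorm (fun t : ℝ => t ^ (-θ) * ⨅ y : E1, (‖(b - a) - ιA y‖ + t * ‖y‖)) p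
              ((volume.restrict (Set.Ioi (0:ℝ))).withDensity (fun t => ENNReal.ofReal t⁻¹)) < δ →
            eLpNorm (fun t : ℝ => t ^ (-θ) * ⨅ z : F1, (‖(U b - U a) - ιB z‖ + t * ‖z‖)) p
              ((volume.restrict (Set.Ioi (0:ℝ))).withDensity (fun t => ENNReal.ofReal t⁻¹)) < ε) := by
  intro H
  have := compl0
  have h0 := H (ℝ × CC) (ℝ × C0) CC C0 iA io
    (Function.injective_id.prodMap io_inj) io_inj UU VV 1 1 L1 L2 L3 L4
    (1 / 2) (by norm_num) (by norm_num) ∞ le_top (0, sq)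
  obtain ⟨δ, hδ, h⟩ := h0 ((up (K1 le_rfl zero_le_one)).trans_lt ENNReal.ofReal_lt_top) 1 one_pos
  obtain ⟨s, s0, s1, s2⟩ : ∃ s : ℝ, 0 < s ∧ s ≤ 1 ∧ ENNReal.ofReal s < δ := by
    obtain ⟨r, r0, r1, r2⟩ := ENNReal.lt_iff_exists_real_btwn.1 hδ
    exact ⟨min r 1, lt_min (ENNReal.ofReal_pos.1 r1) one_pos, min_le_right _ _,
      (ENNReal.ofReal_le_ofReal (min_le_left _ _)).trans_lt r2⟩
  exact low (mul_pos s0 s0) (fun t ht => L5 s0 s1 ht) (h (s, sq)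
    ((up (K1 s0.le s1)).trans_lt ENNReal.ofReal_lt_top) ((up (K2 s0.le)).trans_lt s2))

end Pool.Agent.S04348
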