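import Pool.Statements.S04353
import Pool.Agent.H2.Id2

set_option autoImplicit false
open Pool Pool.MP_38279d_an

namespace Pool.Agent.S04353

/-- There are at least continuum many distinct closed subspaces of bounded operators from ℓ1 to c0, each stable under composition with bounded operators on ℓ1 on the right and on c0 on the left. -/
theorem result :
    ∃ f : Set ℕ → Submodule ℝ
        (lp (fun _ : ℕ => ℝ) (1 : ENNReal) →L[ℝ] ZeroAtInftyContinuousMap ℕ ℝ),
      Function.Injective f ∧
      ∀ s : Set ℕ,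
        IsClosed (f s : Set (lp (fun _ : ℕ => ℝ) (1 : ENNReal) →L[ℝ]
            ZeroAtInftyContinuousMap ℕ ℝ)) ∧
        ∀ T ∈ f s,
          ∀ A : lp (fun _ : ℕ => ℝ) (1 : ENNReal) →L[ℝ] lp (fun _ : ℕ => ℝ) (1 : ENNReal),
          ∀ B : ZeroAtInftyContinuousMap ℕ ℝ →L[ℝ] ZeroAtInftyContinuousMap ℕ ℝ,
            B.comp (T.comp A) ∈ f s := by
  open Pool.Agent.H2.Id Filter Topology in
  obtain ⟨T, F, h1, h2, h3⟩ := ops
  let f : Set ℕ → Submodule ℝ (L1 →L[ℝ] ZeroAtInftyContinuousMap ℕ ℝ) := fun s =>
    { carrier := {S | ∀ A B, ∀ a ∉ s,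
        Tendsto (fun j => F (Nat.pair a j) (B ∘L S ∘L A)) atTop (𝓝 0)}
      add_mem' := fun h h' A B a k => by
        simpa [ContinuousLinearMap.add_comp, ContinuousLinearMap.comp_add] using
          (h A B a k).add (h' A B a k)
      zero_mem' := fun A B a _ => by simp
      smul_mem' := fun z S h A B a k => by
        simpa [ContinuousLinearMap.smul_comp, ContinuousLinearMap.comp_smul] using
          (h A B a k).const_mul z }
  have k1 : ∀ s, T {n | n.unpair.1 ∈ s} ∈ f s := fun s A B a k => by
    refine squeeze_zero_norm (fun j => ?_)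
      ((tendsto_one_div_add_atTop_nhds_zero_nat.const_mul (8 * ‖A‖ * ‖B‖)).trans (by simp))
    refine (h3 _ _ (by simpa) A B).trans ?_
    rw [mul_one_div]
    gcongr
    exact Nat.right_le_pair a j
  have k2 : ∀ s t, f s = f t → s ⊆ t := fun s t h a ha => by
    by_contra c
    have := (h ▸ k1 s : _ ∈ f t) (.id ℝ _) (.id ℝ _) a c
    simp only [ContinuousLinearMap.comp_id, ContinuousLinearMap.id_comp] at this
    rw [funext fun j => h2 _ (Nat.pair a j) (by simpa)] at this
    simp at this
  refine ⟨f, fun s t h => (k2 s t h).antisymm (k2 t s h.symm), fun s => ⟨?_, fun S h A B A' B' => ?_⟩⟩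
  · simp only [f, Submodule.coe_set_mk, AddSubmonoid.coe_set_mk, AddSubsemigroup.coe_set_mk,
      Set.setOf_forall]
    refine isClosed_iInter fun A => isClosed_iInter fun B => isClosed_iInter fun a =>
      isClosed_iInter fun _ => ?_
    refine ((LipschitzWith.uniformEquicontinuous (fun j S => F (Nat.pair a j) S) 1 fun j =>
      LipschitzWith.of_dist_le_mul fun S S' => ?_).equicontinuous.isClosed_setOfPred_tendsto
        continuous_const).preimage (f := fun S => B ∘L S ∘L A) (by fun_prop)
    rw [Real.dist_eq, ← map_sub, NNReal.coe_one, one_mul]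
    exact (h1 _ _).trans_eq (dist_eq_norm S S').symm
  · exact h (A ∘L A') (B' ∘L B)

end Pool.Agent.S04353
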