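import Pool.Statements.S04368
import Pool.Agent.H28.L2Ops

set_option autoImplicit false
open Filter Topology
open Pool Pool.MP_393faa_an

namespace Pool.Agent.S04368

open Pool.Agent.H28.L2Ops

noncomputable def lw (n : ℕ) : ℂ := if n = 0 then 2 else if n = 1 then 1 / 2 else 1
noncomputable def li (n : ℕ) : ℂ := if n = 0 then 1 / 2 else if n = 1 then 2 else 1
noncomputable def mw (n : ℕ) : ℂ := if n = 0 then 2 else if n = 1 then 1 else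
  if n % 2 = 0 then 1 else 2
noncomputable def mi (n : ℕ) : ℂ := if n = 0 then 1 / 2 else if n = 1 then 1 else
  if n % 2 = 0 then 1 else 1 / 2

lemma hlw (n : ℕ) : ‖lw n‖ ≤ 2 := by
  unfold lw; split_ifs <;> norm_num
lemma hli (n : ℕ) : ‖li n‖ ≤ 2 := by
  unfold li; split_ifs <;> norm_num
lemma hmw (n : ℕ) : ‖mw n‖ ≤ 2 := by
  unfold mw; split_ifs <;> norm_num
lemma hmi (n : ℕ) : ‖mi n‖ ≤ 1 := by
  unfold mi; split_ifs <;> norm_num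

noncomputable def LL : (L2 ℂ →L[ℂ] L2 ℂ)ˣ where
  val := diag lw 2 hlw
  inv := diag li 2 hli
  val_inv := by
    ext x n
    change lw n * (li n * x n) = x n
    unfold lw li; split_ifs <;> ring
  inv_val := by
    ext x n
    change li n * (lw n * x n) = x n
    unfold lw li; split_ifs <;> ring

noncomputable def MM : (L2 ℂ →L[ℂ] L2 ℂ)ˣ where
  val := diag mw 2 hmw
  inv := diag mi 1 hmi
  val_inv := by
    ext x n
    change mw n * (mi n * x n) = x n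
    unfold mw mi; split_ifs <;> ring
  inv_val := by
    ext x n
    change mi n * (mw n * x n) = x n
    unfold mw mi; split_ifs <;> ring

noncomputable def SS : L2 ℂ →L[ℂ] L2 ℂ := shift * shift

lemma SS0 (x : L2 ℂ) : SS x 0 = 0 := rfl
lemma SS1 (x : L2 ℂ) : SS x 1 = 0 := rfl
lemma SS2 (x : L2 ℂ) (n : ℕ) : SS x (n + 2) = x n := rfl

lemma normSS (x : L2 ℂ) : ‖SS x‖ = ‖x‖ := by
  change ‖shift (shift x)‖ = _
  rw [norm_shift, norm_shift]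

lemma LiS (x : L2 ℂ) : (LL⁻¹ : (L2 ℂ →L[ℂ] L2 ℂ)ˣ).val (SS x) = SS x := by
  ext n
  change li n * SS x n = SS x n
  match n with
  | 0 => rw [SS0]; simp
  | 1 => rw [SS1]; simp
  | n + 2 => simp [li]

lemma LS (x : L2 ℂ) : LL.val (SS x) = SS x := by
  ext n
  change lw n * SS x n = SS x n
  match n with
  | 0 => rw [SS0]; simp
  | 1 => rw [SS1]; simp
  | n + 2 => simp [lw]

noncomputable def TT : L2 ℂ →L[ℂ] L2 ℂ := (LL⁻¹ : (L2 ℂ →L[ℂ] L2 ℂ)ˣ).val * SS * LL.val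

lemma TT_apply (x : L2 ℂ) : TT x = SS (LL.val x) := LiS _

lemma TT_pow (x : L2 ℂ) (n : ℕ) : ∃ y, (TT ^ (n + 1)) x = SS y ∧ ‖y‖ = ‖LL.val x‖ := by
  induction n with
  | zero => exact ⟨LL.val x, by simpa using TT_apply x, rfl⟩
  | succ n ih =>
    obtain ⟨y, hy, hn⟩ := ih
    refine ⟨SS y, ?_, by rw [normSS, hn]⟩
    rw [pow_succ', ContinuousLinearMap.mul_apply, hy, TT_apply, LS]

lemma TT_M : TT = (MM⁻¹ : (L2 ℂ →L[ℂ] L2 ℂ)ˣ).val * SS * MM.val := by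
  ext x n
  rw [TT_apply]
  change SS (LL.val x) n = mi n * SS (MM.val x) n
  match n with
  | 0 => rw [SS0, SS0]; simp
  | 1 => rw [SS1, SS1]; simp
  | n + 2 =>
    rw [SS2, SS2]
    change lw n * x n = mi (n + 2) * (mw n * x n)
    unfold lw mi mw
    have : (n + 2) % 2 = n % 2 := by omega
    rw [this]
    split_ifs <;> first | contradiction | omega | ring


/-- The negation of the preceding statement: On a complex Hilbert space, if T = L⁻¹SL with S an isometry and ‖Lx‖ = lim ‖Tⁿx‖ for all x, then ‖L‖‖L⁻¹‖ equals the infimum of ‖M‖‖M⁻¹‖ over all similarities M of T to an isometry. -/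
theorem result :
    ¬ (∀ (H : Type) [NormedAddCommGroup H] [InnerProductSpace ℂ H] [CompleteSpace H]
      (T S : H →L[ℂ] H) (L : (H →L[ℂ] H)ˣ),
      (∀ x : H, ‖S x‖ = ‖x‖) →
      T = (↑L⁻¹ : H →L[ℂ] H) * S * (↑L : H →L[ℂ] H) →
      (∀ x : H, Tendsto (fun n : ℕ => ‖(T ^ n) x‖) atTop (𝓝 ‖(↑L : H →L[ℂ] H) x‖)) →
      ‖(↑L : H →L[ℂ] H)‖ * ‖(↑L⁻¹ : H →L[ℂ] H)‖ =
        sInf {r : ℝ | ∃ (M : (H →L[ℂ] H)ˣ) (S' : H →L[ℂ] H),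
          (∀ x : H, ‖S' x‖ = ‖x‖) ∧
          T = (↑M⁻¹ : H →L[ℂ] H) * S' * (↑M : H →L[ℂ] H) ∧
          r = ‖(↑M : H →L[ℂ] H)‖ * ‖(↑M⁻¹ : H →L[ℂ] H)‖}) := by
  intro h
  have h1 := h (L2 ℂ) TT SS LL normSS rfl (fun x => by
    rw [← tendsto_add_atTop_iff_nat 1]
    refine tendsto_const_nhds.congr (fun n => ?_)
    obtain ⟨y, hy, hn⟩ := TT_pow x n
    rw [hy, normSS, hn])
  have h2 : (2 : ℝ) ≤ ‖LL.val‖ := by
    have := le_norm_diag lw 2 hlw 0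
    rw [show ‖lw 0‖ = 2 by simp [lw]] at this
    exact this
  have h3 : (2 : ℝ) ≤ ‖(LL⁻¹ : (L2 ℂ →L[ℂ] L2 ℂ)ˣ).val‖ := by
    have := le_norm_diag li 2 hli 1
    rw [show ‖li 1‖ = 2 by simp [li]] at this
    exact this
  have h4 : ‖MM.val‖ ≤ 2 := norm_diag_le mw 2 hmw
  have h5 : ‖(MM⁻¹ : (L2 ℂ →L[ℂ] L2 ℂ)ˣ).val‖ ≤ 1 := norm_diag_le mi 1 hmi
  have h6 := csInf_le (s := {r : ℝ | ∃ (M : (L2 ℂ →L[ℂ] L2 ℂ)ˣ) (S' : L2 ℂ →L[ℂ] L2 ℂ),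
          (∀ x : L2 ℂ, ‖S' x‖ = ‖x‖) ∧
          TT = (↑M⁻¹ : L2 ℂ →L[ℂ] L2 ℂ) * S' * (↑M : L2 ℂ →L[ℂ] L2 ℂ) ∧
          r = ‖(↑M : L2 ℂ →L[ℂ] L2 ℂ)‖ * ‖(↑M⁻¹ : L2 ℂ →L[ℂ] L2 ℂ)‖})
    ⟨0, by
      rintro r ⟨M, S', -, -, rfl⟩
      positivity⟩ ⟨MM, SS, normSS, TT_M, rfl⟩
  rw [← h1] at h6
  have h7 : ‖MM.val‖ * ‖(MM⁻¹ : (L2 ℂ →L[ℂ] L2 ℂ)ˣ).val‖ ≤ 2 * 1 :=
    mul_le_mul h4 h5 (norm_nonneg _) (by norm_num)
  have h8 : (2 : ℝ) * 2 ≤ ‖LL.val‖ * ‖(LL⁻¹ : (L2 ℂ →L[ℂ] L2 ℂ)ˣ).val‖ :=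
    mul_le_mul h2 h3 (by norm_num) (norm_nonneg _)
  linarith

end Pool.Agent.S04368
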