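import Pool.Statements.S04380
-- import your own Pool.Agent.* helpers here

set_option autoImplicit false
open Pool Pool.MP_39f9da_an

namespace Pool.Agent.S04380
open Finset

lemma anti (f : ℤ → ZMod 2) : ∃ F : ℤ → ZMod 2, F 0 = 0 ∧ ∀ n, F (n + 1) = F n + f n := by
  refine ⟨fun n => ∑ k ∈ Ico 0 n, f k - ∑ k ∈ Ico n 0, f k, by simp, fun n => ?_⟩
  rcases le_or_gt 0 n with h | h
  · simp only [Ico_eq_empty_of_le h, Ico_eq_empty_of_le (show 0 ≤ n + 1 by omega)]
    rw [← insert_Ico_right_eq_Ico_add_one h, sum_insert (by simp)]; ring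
  · simp only [Ico_eq_empty_of_le h.le, Ico_eq_empty_of_le (show n + 1 ≤ 0 by omega)]
    rw [← insert_Ico_add_one_left_eq_Ico h, sum_insert (by simp)]; ring

lemma poin (u v : ℤ → ℤ → ZMod 2) (h : ∀ i j, u i j + v (i + 1) j = u i (j + 1) + v i j) :
    ∃ t : ℤ → ℤ → ZMod 2, ∀ i j, t (i + 1) j = t i j + u i j ∧ t i (j + 1) = t i j + v i j := by
  choose I I0 I1 using anti
  refine ⟨fun i j => I (u · 0) i + I (v i) j, fun i j => ⟨?_, by simp [I1, add_assoc]⟩⟩
  induction j with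
  | zero => simp [I0, I1]
  | succ j ih => simp only [I1] at ih ⊢; linear_combination ih + h i j
  | pred j ih =>
    have a := I1 (v i) (-j - 1)
    have b := I1 (v (i + 1)) (-j - 1)
    have c := h i (-j - 1)
    simp only [sub_add_cancel] at a b c
    linear_combination ih - c + a - b

lemma main {G : Type} [Group G] (a b t : G) (hab : Commute a b) (ha : t * a = a ^ 2 * t)
    (hb : t * b = b ^ 2 * t) (fr : ∀ i j : ℤ, a ^ i * b ^ j = 1 → i = 0 ∧ j = 0) :
    ∃ X : Set (G → ZMod 2 × ZMod 2), (∃ (S : Finset G) (P : Set (S → ZMod 2 × ZMod 2)),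
        X = {x | ∀ g : G, (fun s : S => x (s.1 * g)) ∈ P}) ∧
      (∃ Δ : Finset G, ∀ Ω₁ Ω₂ : Finset G, (∀ d ∈ Δ, ∀ w ∈ Ω₁, d * w ∉ Ω₂) →
        ∀ x₁ ∈ X, ∀ x₂ ∈ X, ∃ z ∈ X, (∀ w ∈ Ω₁, z w = x₁ w) ∧ (∀ w ∈ Ω₂, z w = x₂ w)) ∧
      X.Nonempty ∧ ∀ y ∈ X, ¬(Set.range (fun g : G => fun h : G => y (h * g))).Finite := by
  classical
  have cm : ∀ i j : ℤ, b ^ j * a ^ i = a ^ i * b ^ j := fun i j => (hab.zpow_zpow i j).eq.symm
  have mu : ∀ i j k l : ℤ, a ^ i * b ^ j * (a ^ k * b ^ l) = a ^ (i + k) * b ^ (j + l) :=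
    fun i j k l => by rw [mul_assoc, ← mul_assoc (b ^ j), cm, zpow_add, zpow_add]; group
  let s : Setoid G := ⟨fun g h => ∃ i j : ℤ, g = a ^ i * b ^ j * h, fun g => ⟨0, 0, by simp⟩,
    fun ⟨i, j, e⟩ => ⟨-i, -j, by rw [e, ← mul_assoc, mu]; simp⟩,
    fun ⟨i, j, e⟩ ⟨k, l, f⟩ => ⟨i + k, j + l, by rw [e, f, ← mul_assoc, mu]⟩⟩
  let r : G → G := fun g => (Quotient.mk s g).out
  choose I J e using fun g => (s.symm (Quotient.mk_out (s := s) g) : ∃ i j : ℤ, g = a ^ i * b ^ j * r g)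
  have k : ∀ (i j : ℤ) (g : G), r (a ^ i * b ^ j * g) = r g ∧ I (a ^ i * b ^ j * g) = i + I g ∧
      J (a ^ i * b ^ j * g) = j + J g := fun i j g => by
    have r1 : r (a ^ i * b ^ j * g) = r g := congrArg Quotient.out (Quotient.sound (s := s) ⟨i, j, rfl⟩)
    have e1 := e (a ^ i * b ^ j * g)
    rw [r1] at e1
    nth_rewrite 1 [e g] at e1
    rw [← mul_assoc, mu, mul_left_inj] at e1
    have := fr (i + I g + -I (a ^ i * b ^ j * g)) (j + J g + -J (a ^ i * b ^ j * g)) (by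
      rw [← mu, e1, mu]; simp)
    exact ⟨r1, by omega, by omega⟩
  have ka := k 1 0
  have kb := k 0 1
  simp only [zpow_one, zpow_zero, mul_one, one_mul, zero_add] at ka kb
  refine ⟨{x | ∀ g, (x g).1 + (x (a * g)).2 = (x (b * g)).1 + (x g).2 + 1},
    ⟨{1, a, b}, {p | (p ⟨1, by simp⟩).1 + (p ⟨a, by simp⟩).2 =
      (p ⟨b, by simp⟩).1 + (p ⟨1, by simp⟩).2 + 1}, by simp⟩,
    ⟨image₂ (fun c d => c⁻¹ * d) {1, a, b} {1, a, b}, fun O P h x hx y hy => ?_⟩,
    ⟨fun g => (0, I g), fun g => by simp [ka, add_comm]⟩, fun y hy hf => ?_⟩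
  · choose T hT using fun q : G => poin
      (fun i j => (x (a ^ i * b ^ j * q)).1 - (y (a ^ i * b ^ j * q)).1)
      (fun i j => (x (a ^ i * b ^ j * q)).2 - (y (a ^ i * b ^ j * q)).2) fun i j => by
        have c := hx (a ^ i * b ^ j * q)
        have d := hy (a ^ i * b ^ j * q)
        have e1 : a * (a ^ i * b ^ j * q) = a ^ (i + 1) * b ^ j * q := by group
        have e2 : b * (a ^ i * b ^ j * q) = a ^ i * b ^ (j + 1) * q := by
          simpa [← mul_assoc, add_comm] using congrArg (· * q) (mu 0 1 i j)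
        rw [e1, e2] at c d
        linear_combination c - d
    let θ := fun g => if ∃ c ∈ ({1, a, b} : Finset G), ∃ w ∈ O, g = c * w then
      T (r g) (I g) (J g) else 0
    refine ⟨fun g => y g + (θ (a * g) - θ g, θ (b * g) - θ g), fun g => ?_, fun w hw => ?_,
      fun w hw => ?_⟩
    · have := hy g
      simp only [Prod.fst_add, Prod.snd_add, ← mul_assoc, hab.eq]
      linear_combination this
    · have c := hT (r w) (I w) (J w)
      rw [← e] at c
      simp only [θ, if_pos (⟨1, by simp, w, hw, by simp⟩ : ∃ c ∈ ({1, a, b} : Finset G), ∃ v ∈ O,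
        w = c * v), if_pos (⟨a, by simp, w, hw, rfl⟩ : ∃ c ∈ ({1, a, b} : Finset G), ∃ v ∈ O,
        a * w = c * v), if_pos (⟨b, by simp, w, hw, rfl⟩ : ∃ c ∈ ({1, a, b} : Finset G), ∃ v ∈ O,
        b * w = c * v), ka, kb, add_comm (1 : ℤ), c]
      ext <;> simp
    · have : ∀ c ∈ ({1, a, b} : Finset G), θ (c * w) = 0 := fun c hc => if_neg fun ⟨d, hd, v, hv, f⟩ =>
        h _ (mem_image₂_of_mem hc hd) v hv (by rwa [mul_assoc, ← f, inv_mul_cancel_left])
      have o := this 1 (by simp)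
      rw [one_mul] at o
      simp [o, this a, this b]
  letI : MulAction G (G → ZMod 2 × ZMod 2) :=
    { smul := fun g y h => y (h * g)
      one_smul := fun y => funext fun h => congrArg y (mul_one h)
      mul_smul := fun g h y => funext fun k => congrArg y (mul_assoc _ _ _).symm }
  haveI : Finite (MulAction.orbit G y) := hf
  let ρ := MulAction.toPermHom G (MulAction.orbit G y)
  have od : ∀ c : G, t * c = c ^ 2 * t → ∃ m, Odd m ∧ ∀ g, y (c ^ m * g) = y g := fun c hc => by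
    refine ⟨orderOf (ρ c), ?_, fun g => ?_⟩
    · have o : orderOf (ρ c) = orderOf (ρ c ^ 2) := (show SemiconjBy (ρ t) _ _ by
        rw [SemiconjBy, ← map_pow, ← map_mul, hc, map_mul]).orderOf_eq _
      rw [orderOf_pow, eq_comm, Nat.div_eq_self] at o
      exact Nat.coprime_two_right.1 (o.resolve_left (orderOf_pos _).ne')
    · have := congrArg (fun σ : Equiv.Perm _ => (σ ⟨_, MulAction.mem_orbit y g⟩).1 1)
        ((map_pow ρ c _).trans (pow_orderOf_eq_one (ρ c)))
      change y (1 * _ * g) = y (1 * g) at this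
      simpa using this
  obtain ⟨m, m1, m2⟩ := od a ha
  obtain ⟨n, n1, n2⟩ := od b hb
  have c : ∑ i ∈ range m, ∑ j ∈ range n, (((y (a ^ (i + 1) * b ^ j)).2 - (y (a ^ i * b ^ j)).2) -
      ((y (b ^ (j + 1) * a ^ i)).1 - (y (b ^ j * a ^ i)).1)) = ∑ i ∈ range m, ∑ j ∈ range n, 1 :=
    sum_congr rfl fun i _ => sum_congr rfl fun j _ => by
      have := hy (a ^ i * b ^ j)
      rw [pow_succ', pow_succ', mul_assoc, mul_assoc, ← (hab.pow_pow i j).eq]
      linear_combination this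
  rw [sum_congr rfl fun i _ => (sum_sub_distrib _ _).trans (congrArg _
    (sum_range_sub (fun j => (y (b ^ j * a ^ i)).1) n)), sum_sub_distrib, sum_comm,
    sum_congr rfl fun j _ => sum_range_sub (fun i => (y (a ^ i * b ^ j)).2) m] at c
  simp only [m2, n2] at c
  simp [m1.natCast_zmod_two, n1.natCast_zmod_two] at c

abbrev Q := (k : ℕ) → Equiv.Perm (ZMod (2 * k + 1) × ZMod (2 * k + 1))

def qa : Q := fun _ => Equiv.addLeft (1, 0)
def qb : Q := fun _ => Equiv.addLeft (0, 1)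
def qt : Q := fun k => MulAction.toPerm (ZMod.unitOfCoprime 2 (n := 2 * k + 1) (by simp))

/-- The negation of the preceding statement: For every residually finite group G and finite alphabet, every strongly irreducible subshift of finite type X over G has its finite-orbit configurations dense: any point of X can be matched on any finite set by a periodic point of X. -/
theorem result :
    ¬ (∀ (G : Type) [Group G],
    (∀ g : G, g ≠ 1 → ∃ H : Subgroup G, H.FiniteIndex ∧ g ∉ H) →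
    ∀ (A : Type) [Fintype A] (X : Set (G → A)),
      (∃ (S : Finset G) (P : Set (S → A)),
        X = {x | ∀ g : G, (fun s : S => x (s.1 * g)) ∈ P}) →
      (∃ Δ : Finset G, ∀ Ω₁ Ω₂ : Finset G,
        (∀ d ∈ Δ, ∀ w ∈ Ω₁, d * w ∉ Ω₂) →
        ∀ x₁ ∈ X, ∀ x₂ ∈ X, ∃ z ∈ X,
          (∀ w ∈ Ω₁, z w = x₁ w) ∧ (∀ w ∈ Ω₂, z w = x₂ w)) →
      ∀ x ∈ X, ∀ F : Finset G, ∃ y ∈ X,
        (Set.range (fun g : G => fun h : G => y (h * g))).Finite ∧
        ∀ h ∈ F, y h = x h) := by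
  intro H
  let G := Subgroup.closure ({qa, qb, qt} : Set Q)
  obtain ⟨X, h1, h2, ⟨x, hx⟩, h3⟩ := main (G := G) ⟨qa, Subgroup.subset_closure (by simp)⟩
    ⟨qb, Subgroup.subset_closure (by simp)⟩ ⟨qt, Subgroup.subset_closure (by simp)⟩
    (Subtype.ext (by ext k v <;> simp [qa, qb]))
    (Subtype.ext (by ext k v <;> simp [qa, qt, sq, Units.smul_def]; ring))
    (Subtype.ext (by ext k v <;> simp [qb, qt, sq, Units.smul_def]; ring)) fun i j h => by
      have := congrArg (fun g : G => g.1 (i.natAbs + j.natAbs) 0) h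
      simp [qa, qb, ZMod.intCast_zmod_eq_zero_iff_dvd, -Nat.cast_natAbs] at this
      exact ⟨Int.eq_zero_of_dvd_of_natAbs_lt_natAbs this.1 (by omega),
        Int.eq_zero_of_dvd_of_natAbs_lt_natAbs this.2 (by omega)⟩
  obtain ⟨y, hy, h, -⟩ := H G (fun g hg => by
    obtain ⟨k, hk⟩ := Function.ne_iff.1 fun e => hg (Subtype.ext e)
    exact ⟨((Pi.evalMonoidHom _ k).comp G.subtype).ker, inferInstance, hk⟩) _ X h1 h2 x hx ∅
  exact h3 y hy h

end Pool.Agent.S04380
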