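import Pool.Statements.S04402
import Pool.Agent.H26.IID

set_option autoImplicit false
open MeasureTheory Filter Topology
open Pool Pool.MP_3c0e9a_an

namespace Pool.Agent.S04402

open ProbabilityTheory Pool.Agent.H26.IID

noncomputable def pp (m : ℕ) : ℝ := (1 / 2 : ℝ) ^ m / 4

lemma pp_pos (m : ℕ) : 0 < pp m := by unfold pp; positivity

lemma pp_le (m : ℕ) : pp m ≤ 1 := by
  unfold pp
  have : (1 / 2 : ℝ) ^ m ≤ 1 := pow_le_one₀ (by norm_num) (by norm_num)
  linarith

lemma pp_anti {m k : ℕ} (h : k ≤ m) : pp m ≤ pp k :=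
  div_le_div_of_nonneg_right (pow_le_pow_of_le_one (by norm_num) (by norm_num) h) (by norm_num)

lemma mu_Ioc {c : ℝ} (h1 : c ≤ 1) : mu (Set.Ioc 0 c) = ENNReal.ofReal c := by
  rw [mu, Measure.restrict_apply measurableSet_Ioc,
    Set.inter_eq_left.2 (Set.Ioc_subset_Icc_self.trans (Set.Icc_subset_Icc_right h1))]
  simp

noncomputable def ps (m : ℕ) (v : ℝ) : ℝ :=
  (Set.Ioc 0 (pp m)).indicator (fun _ => (pp m)⁻¹) v - 1

lemma ps_meas (m : ℕ) : Measurable (ps m) :=
  (measurable_const.indicator measurableSet_Ioc).sub_const _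

lemma ps_bd (m : ℕ) (v : ℝ) : |ps m v| ≤ (pp m)⁻¹ + 1 := by
  have := inv_pos.2 (pp_pos m)
  unfold ps
  rw [abs_le, Set.indicator_apply]
  split_ifs <;> constructor <;> linarith

lemma ind_int (m : ℕ) : ∫ v, (Set.Ioc 0 (pp m)).indicator (fun _ => (pp m)⁻¹) v ∂mu = 1 := by
  rw [integral_indicator_const _ measurableSet_Ioc, measureReal_def, mu_Ioc (pp_le m),
    ENNReal.toReal_ofReal (pp_pos m).le, smul_eq_mul, mul_inv_cancel₀ (pp_pos m).ne']

lemma ind_intg (m : ℕ) : Integrable ((Set.Ioc 0 (pp m)).indicator (fun _ => (pp m)⁻¹)) mu :=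
  (integrable_const _).indicator measurableSet_Ioc

lemma lev_iff (k : ℕ) (u : ℝ) : k + 1 ≤ ⌊1 / u⌋₊ ↔ u ∈ Set.Ioc 0 (1 / ((k : ℝ) + 1)) := by
  rw [Nat.le_floor_iff' (by omega), Set.mem_Ioc]
  push_cast
  have hk : (0 : ℝ) < k + 1 := by positivity
  constructor
  · intro h
    have hu : 0 < u := one_div_pos.1 (hk.trans_le h)
    exact ⟨hu, (le_one_div hk hu).1 h⟩
  · rintro ⟨hu, h⟩
    exact (le_one_div hk hu).2 h


/-- The negation of the preceding statement: Every sequence of measurable maps from [0,1] into real L^1[0,1], uniformly essentially bounded, with every functional of it tending to 0 in measure, has a subsequence with every functional of it tending to 0 almost everywhere. -/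
theorem result :
    ¬ (∀ f : ℕ → ℝ → MeasureTheory.Lp ℝ 1 (MeasureTheory.volume.restrict (Set.Icc (0:ℝ) 1)),
      (∀ n, MeasureTheory.AEStronglyMeasurable (f n)
          (MeasureTheory.volume.restrict (Set.Icc (0:ℝ) 1))) →
      (∃ C : ℝ, ∀ n, ∀ᵐ t ∂(MeasureTheory.volume.restrict (Set.Icc (0:ℝ) 1)), ‖f n t‖ ≤ C) →
      (∀ x : MeasureTheory.Lp ℝ 1 (MeasureTheory.volume.restrict (Set.Icc (0:ℝ) 1)) →L[ℝ] ℝ,
          MeasureTheory.TendstoInMeasure (MeasureTheory.volume.restrict (Set.Icc (0:ℝ) 1))
            (fun n t => x (f n t)) atTop (fun _ => (0:ℝ))) →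
      ∃ φ : ℕ → ℕ, StrictMono φ ∧
        ∀ x : MeasureTheory.Lp ℝ 1 (MeasureTheory.volume.restrict (Set.Icc (0:ℝ) 1)) →L[ℝ] ℝ,
          ∀ᵐ t ∂(MeasureTheory.volume.restrict (Set.Icc (0:ℝ) 1)),
            Tendsto (fun k => x (f (φ k) t)) atTop (𝓝 (0:ℝ))) := by
  intro H
  obtain ⟨U, hU, hind⟩ := exists_iid mu
  have hm : ∀ n m, Measurable fun s => ps m (U n s) := fun n m => (ps_meas m).comp (hU n).measurable
  have hX : ∀ m n, MemLp (fun s => ps m (U n s)) 1 mu := fun m n =>
    MemLp.of_bound (hm n m).aestronglyMeasurable _ (Eventually.of_forall fun s => ps_bd m _)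
  have hI : ∀ m n, ∫ s, (Set.Ioc 0 (pp m)).indicator (fun _ => (pp m)⁻¹) (U n s) ∂mu = 1 := by
    intro m n
    rw [← ind_int m, ← integral_map (hU n).measurable.aemeasurable
      (measurable_const.indicator measurableSet_Ioc).aestronglyMeasurable, (hU n).map_eq]
  have hI' : ∀ m n, Integrable
      (fun s => (Set.Ioc 0 (pp m)).indicator (fun _ => (pp m)⁻¹) (U n s)) mu :=
    fun m n => (hU n).integrable_comp_of_integrable (ind_intg m)
  have h0 : ∀ m n, ∫ s, ps m (U n s) ∂mu = 0 := by
    intro m n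
    simp only [ps]
    rw [integral_sub (hI' m n) (integrable_const _), hI]
    simp
  let Φ : ℕ → ℕ → Lp ℝ 1 mu := fun n m => (hX m n).toLp _
  have hlev : Measurable fun u : ℝ => ⌊1 / u⌋₊ := (measurable_const.div measurable_id).nat_floor
  have hpre : ∀ n k : ℕ, mu (U n ⁻¹' Set.Ioc 0 (1 / ((k : ℝ) + 1))) =
      ENNReal.ofReal (1 / ((k : ℝ) + 1)) := by
    intro n k
    rw [(hU n).measure_preimage measurableSet_Ioc.nullMeasurableSet, mu_Ioc]
    rw [div_le_one (by positivity)]
    linarith [(Nat.cast_nonneg k : (0 : ℝ) ≤ k)]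
  obtain ⟨φ, hφ, hφ'⟩ := H (fun n t => Φ n ⌊1 / U n t⌋₊)
    (fun n => ((StronglyMeasurable.of_discrete (f := Φ n)).comp_measurable
      (hlev.comp (hU n).measurable)).aestronglyMeasurable)
    ⟨2, fun n => Eventually.of_forall fun t => by
      generalize ⌊1 / U n t⌋₊ = m
      rw [L1.norm_eq_integral_norm,
        integral_congr_ae ((hX m n).coeFn_toLp.mono fun ω h => by rw [h])]
      calc ∫ s, ‖ps m (U n s)‖ ∂mu
          ≤ ∫ s, ((Set.Ioc 0 (pp m)).indicator (fun _ => (pp m)⁻¹) (U n s) + 1) ∂mu := by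
            refine integral_mono (memLp_one_iff_integrable.1 (hX m n)).norm
              ((hI' m n).add (integrable_const _)) fun s => ?_
            have := inv_pos.2 (pp_pos m)
            simp only [ps, Real.norm_eq_abs, abs_le, Set.indicator_apply]
            split_ifs <;> constructor <;> linarith
        _ = 2 := by
            rw [integral_add (hI' m n) (integrable_const _), hI]
            norm_num⟩
    (fun x => by
      rw [tendstoInMeasure_iff_norm]
      intro ε hε
      have hw : ∀ m, ∀ᶠ n in atTop, |x (Φ n m)| < ε := fun m => by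
        have := weak_null (fun n s => ps m (U n s)) (fun n => hm n m) _ (fun n s => ps_bd m _)
          (h0 m) (fun i j hij => (hind.indepFun hij).comp (ps_meas m) (ps_meas m)) (hX m) x
        exact this.abs.eventually (gt_mem_nhds (by simpa using hε))
      rw [ENNReal.tendsto_nhds_zero]
      intro δ hδ
      have h1 : Tendsto (fun k : ℕ => ENNReal.ofReal (1 / ((k : ℝ) + 1))) atTop (𝓝 0) := by
        simpa using ENNReal.tendsto_ofReal tendsto_one_div_add_atTop_nhds_zero_nat
      obtain ⟨k, hk⟩ := ((ENNReal.tendsto_nhds_zero.1 h1) δ hδ).exists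
      filter_upwards [(eventually_all_finset (Finset.range (k + 1))).2 fun m _ => hw m] with n hn
      refine le_trans (measure_mono fun t ht => ?_) ((hpre n k).trans_le hk)
      rw [Set.mem_preimage, ← lev_iff]
      by_contra hc
      have := hn _ (Finset.mem_range.2 (not_le.1 hc))
      simp only [sub_zero, Real.norm_eq_abs, Set.mem_ofPred_eq] at ht
      linarith)
  set P : Set ℝ := ⋃ k, U (φ k) ⁻¹' Set.Ioc 0 (pp k) with hP
  have hPm : MeasurableSet P :=
    MeasurableSet.iUnion fun k => (hU _).measurable measurableSet_Ioc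
  have hPle : mu.real P ≤ 1 / 2 := by
    refine ENNReal.toReal_le_of_le_ofReal (by norm_num) ((measure_iUnion_le _).trans ?_)
    have e : ∀ k, mu (U (φ k) ⁻¹' Set.Ioc 0 (pp k)) = ENNReal.ofReal (pp k) := fun k => by
      rw [(hU _).measure_preimage measurableSet_Ioc.nullMeasurableSet, mu_Ioc (pp_le k)]
    simp only [e]
    have hs : HasSum pp (2 / 4) := hasSum_geometric_two.div_const 4
    rw [← ENNReal.ofReal_tsum_of_nonneg (fun k => (pp_pos k).le) hs.summable, hs.tsum_eq]
    norm_num
  let x : Lp ℝ 1 mu →L[ℝ] ℝ := LinearMap.mkContinuous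
    { toFun := fun f => ∫ s in P, f s ∂mu
      map_add' := fun f g => by
        rw [← integral_add (L1.integrable_coeFn f).integrableOn (L1.integrable_coeFn g).integrableOn]
        exact integral_congr_ae (ae_restrict_of_ae (Lp.coeFn_add f g))
      map_smul' := fun c f => by
        rw [RingHom.id_apply, ← integral_smul]
        exact integral_congr_ae (ae_restrict_of_ae (Lp.coeFn_smul c f)) } 1 (fun f => by
      rw [one_mul, L1.norm_eq_integral_norm]
      exact (norm_integral_le_integral_norm _).trans (setIntegral_le_integral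
        (L1.integrable_coeFn f).norm (Eventually.of_forall fun _ => norm_nonneg _)))
  have hx : ∀ k m, k ≤ m → 1 / 2 ≤ x (Φ (φ k) m) := by
    intro k m hkm
    have e1 : x (Φ (φ k) m) = ∫ s in P, ps m (U (φ k) s) ∂mu :=
      integral_congr_ae (ae_restrict_of_ae (hX m (φ k)).coeFn_toLp)
    rw [e1]
    simp only [ps]
    rw [integral_sub (hI' m _).integrableOn (integrable_const _),
      setIntegral_eq_integral_of_forall_compl_eq_zero, hI]
    · simp only [integral_const, MeasurableSet.univ, measureReal_restrict_apply, Set.univ_inter,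
        smul_eq_mul, mul_one]
      linarith
    · intro s hs
      refine Set.indicator_of_notMem (fun h => hs (Set.mem_iUnion.2 ⟨k, ?_⟩)) _
      exact ⟨h.1, h.2.trans (pp_anti hkm)⟩
  let C : ℕ → Set ℝ := fun k => U (φ k) ⁻¹' Set.Ioc 0 (1 / ((k : ℝ) + 1))
  have hCm : ∀ k, MeasurableSet (C k) := fun k => (hU _).measurable measurableSet_Ioc
  have hCi : iIndepSet C mu := by
    rw [iIndepSet_iff_meas_biInter hCm]
    intro s
    exact (hind.precomp hφ.injective).measure_inter_preimage_eq_mul s
      (sets := fun k => Set.Ioc 0 (1 / ((k : ℝ) + 1))) fun _ _ => measurableSet_Ioc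
  have hlim := measure_limsup_eq_one hCm hCi (by
    simp only [C, hpre]
    by_contra hc
    have := ENNReal.summable_toReal hc
    simp only [ENNReal.toReal_ofReal (Nat.one_div_pos_of_nat (α := ℝ)).le] at this
    exact Real.not_summable_one_div_natCast ((summable_nat_add_iff 1).1 (by simpa using this)))
  have hz : mu (limsup C atTop) = 0 := by
    refine measure_mono_null (fun t ht => ?_) (ae_iff.1 (hφ' x))
    intro hc
    rw [mem_limsup_iff_frequently_mem] at ht
    obtain ⟨k, hk1, hk2⟩ := (ht.and_eventually (hc.eventually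
      (gt_mem_nhds (show (0 : ℝ) < 1 / 2 by norm_num)))).exists
    have := hx k _ ((Nat.le_succ k).trans ((lev_iff k _).2 hk1))
    linarith
  rw [hz] at hlim
  exact zero_ne_one hlim

end Pool.Agent.S04402
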