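import Pool.Statements.S04412
import Pool.Agent.H27.NSD3

set_option autoImplicit false
open Filter Topology
open Pool Pool.MP_3d1c33_an

namespace Pool.Agent.S04412

/-- The negation of the preceding statement: Every real or complex Banach space that has a Schauder decomposition (nonzero blocks, ordered convergent unique expansions) also has one whose coordinate projections each have operator norm exactly 1 in the given norm. -/
theorem result :
    ¬ (∀ (𝕜 : Type) [RCLike 𝕜] (E : Type) [NormedAddCommGroup E] [NormedSpace 𝕜 E]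
      [CompleteSpace E],
      (∃ v : ℕ → (E →L[𝕜] E),
        (∀ n, v n ≠ 0) ∧
        (∀ n m, (v n).comp (v m) = if n = m then v n else 0) ∧
        (∀ x : E, Tendsto (fun N => ∑ n ∈ Finset.range N, v n x) atTop (𝓝 x))) →
      ∃ w : ℕ → (E →L[𝕜] E),
        (∀ n, w n ≠ 0) ∧
        (∀ n m, (w n).comp (w m) = if n = m then w n else 0) ∧
        (∀ x : E, Tendsto (fun N => ∑ n ∈ Finset.range N, w n x) atTop (𝓝 x)) ∧
        (∀ n, ‖w n‖ = 1)) := by
  obtain ⟨X, i1, i2, i3, h1, h2⟩ := Pool.Agent.H27.NSD.main
  exact fun h => h2 (h ℝ X h1)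

end Pool.Agent.S04412
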