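import Pool.Statements.S04442
import Pool.Agent.H15.SW3

set_option autoImplicit false
open Filter Topology NNReal
open Pool Pool.MP_3fe7c1_an

namespace Pool.Agent.S04442

theorem result :
    ¬ (∀ (X : Type) [NormedAddCommGroup X] [NormedSpace ℂ X] [CompleteSpace X]
      (T : ℝ≥0 → (X →L[ℂ] X)),
      T 0 = 1 →
      (∀ s t : ℝ≥0, T (s + t) = T s * T t) →
      (∀ x : X, Continuous (fun t : ℝ≥0 => T t x)) →
      (∀ (x : X) (y : X →L[ℂ] ℂ), Tendsto (fun t : ℝ≥0 => y (T t x)) atTop (𝓝 0)) →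
      (¬ ∃ M ω : ℝ, 0 < ω ∧ ∀ t : ℝ≥0, ‖T t‖ ≤ M * Real.exp (-ω * (t : ℝ))) →
      ∀ a : ℝ≥0 → ℝ, (∀ t, 0 < a t) → Antitone a → Tendsto a atTop (𝓝 0) →
        ∃ (x : X) (y : X →L[ℂ] ℂ), ∀ t : ℝ≥0, a t ≤ ‖y (T t x)‖) := by
  intro h
  obtain ⟨x, y, hxy⟩ := h Pool.Agent.H15.SW3.HH Pool.Agent.H15.SW3.TT Pool.Agent.H15.SW3.TT_zero
    Pool.Agent.H15.SW3.TT_add Pool.Agent.H15.SW3.TT_cont Pool.Agent.H15.SW3.weak
    Pool.Agent.H15.SW3.not_exp (fun t => 1 / (1 + (t : ℝ))) (fun t => by positivity)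
    (fun s t hst => one_div_le_one_div_of_le (by positivity) (by
      have : (s : ℝ) ≤ t := hst
      linarith))
    (by
      simp only [one_div]
      exact tendsto_inv_atTop_zero.comp
        (tendsto_atTop_add_const_left _ 1 (NNReal.tendsto_coe_atTop.mpr tendsto_id)))
  obtain ⟨c, hc, he⟩ := Pool.Agent.H15.SW3.orbit x y
  obtain ⟨t, ht, hlt⟩ := Pool.Agent.H15.SW2.main c hc
  have h1 := hxy ⟨t, ht⟩
  rw [he] at h1
  exact absurd hlt (not_lt.mpr h1)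

end Pool.Agent.S04442
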