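import Pool.Statements.S04455
import Pool.Agent.H27.Er4

set_option autoImplicit false
open Pool Pool.MP_410a69_an

namespace Pool.Agent.S04455

/-- If w≥0 is bounded on [-1,1] with support [-1,1] and the monic orthogonal polynomials' L²(w dx)-norms have k-th roots tending to 1/2, then removing Lebesgue measure ≤ε from {w>0} leaves a set whose log capacity tends to 1/2 as ε→0. -/
theorem result :
    ∀ w : ℝ → ℝ, Measurable w → (∀ x, 0 ≤ w x) → (∃ M : ℝ, ∀ x, w x ≤ M) →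
      (∀ a b : ℝ, -1 ≤ a → a < b → b ≤ 1 → 0 < ∫ x in a..b, w x) →
      Filter.Tendsto
        (fun k : ℕ =>
          (sInf {t : ℝ | ∃ q : Polynomial ℝ, q.Monic ∧ q.natDegree = k ∧
              t = Real.sqrt (∫ x in (-1:ℝ)..1, (q.eval x) ^ 2 * w x)}) ^ ((1:ℝ) / k))
        Filter.atTop (nhds (1 / 2)) →
      ∀ η : ℝ, 0 < η → ∃ ε : ℝ, 0 < ε ∧
        ∀ E : Set ℝ, MeasurableSet E →
          E ⊆ {x : ℝ | x ∈ Set.Icc (-1:ℝ) 1 ∧ 0 < w x} →
          MeasureTheory.volume ({x : ℝ | x ∈ Set.Icc (-1:ℝ) 1 ∧ 0 < w x} \ E) ≤ ENNReal.ofReal ε →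
          1 / 2 - η ≤ sSup {c : ℝ | ∃ F : Set ℝ, IsCompact F ∧ F ⊆ E ∧
            c = sInf {s : ℝ | ∃ n : ℕ, 1 ≤ n ∧
              s = (sInf {t : ℝ | ∃ q : Polynomial ℝ, q.Monic ∧ q.natDegree = n ∧
                    t = sSup ((fun x => |q.eval x|) '' F)}) ^ ((1:ℝ) / n)}} := by
  intro w mw w0 ⟨M, hM⟩ hs reg η η0
  have hw : IntervalIntegrable w MeasureTheory.volume (-1) 1 :=
    (intervalIntegrable_const (c := M)).mono_fun mw.aestronglyMeasurable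
      (MeasureTheory.ae_of_all _ fun x => by
        simp only [Real.norm_of_nonneg (w0 x)]; exact (hM x).trans (le_abs_self M))
  by_contra! hn
  have nn : ∀ (F : Set ℝ) (n : ℕ), ∀ t ∈ {t : ℝ | ∃ q : Polynomial ℝ, q.Monic ∧ q.natDegree = n ∧
      t = sSup ((fun x => |q.eval x|) '' F)}, 0 ≤ t := by
    rintro F n t ⟨q, -, -, rfl⟩
    exact Real.sSup_nonneg (by rintro _ ⟨x, -, rfl⟩; exact abs_nonneg _)
  have key : ∀ ε, 0 < ε → 0 < 1 / 2 - η ∧ ∃ F B : Set ℝ, MeasurableSet B ∧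
      MeasureTheory.volume B ≤ ENNReal.ofReal ε ∧
      (∀ x ∈ Set.Icc (-1 : ℝ) 1, 0 < w x → x ∉ B → x ∈ F) ∧ ∃ T : Polynomial ℝ, T.Monic ∧
      0 < T.natDegree ∧ ∀ x ∈ F, x ∈ Set.Icc (-1 : ℝ) 1 ∧ |T.eval x| ≤ (1 / 2 - η) ^ T.natDegree := by
    intro ε ε0
    obtain ⟨E, mE, sE, vE, hE⟩ := hn (ε / 2) (half_pos ε0)
    obtain ⟨F, FE, cF, vF⟩ := mE.exists_isCompact_sdiff_lt (μ := MeasureTheory.volume)
      (ne_top_of_le_ne_top (by simp) (MeasureTheory.measure_mono (t := Set.Icc (-1 : ℝ) 1)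
        fun x hx => (sE hx).1)) (ENNReal.ofReal_pos.2 (half_pos ε0)).ne'
    have := lt_of_le_of_lt (le_csSup ⟨1, by
      rintro _ ⟨F, -, FE, rfl⟩
      refine le_trans (csInf_le ⟨0, ?_⟩ (by exact ⟨1, le_rfl, rfl⟩)) ?_
      · rintro _ ⟨n, -, rfl⟩
        exact Real.rpow_nonneg (Real.sInf_nonneg (nn F n)) _
      · norm_num
        refine le_trans (csInf_le ⟨0, nn F 1⟩ ⟨Polynomial.X, Polynomial.monic_X, by simp, rfl⟩)
          (Real.sSup_le ?_ zero_le_one)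
        rintro _ ⟨x, hx, rfl⟩
        simpa using abs_le.2 (sE (FE hx)).1⟩ (by exact ⟨F, cF, FE, rfl⟩)) hE
    obtain ⟨_, ⟨n, n1, rfl⟩, h1⟩ := exists_lt_of_csInf_lt (by exact ⟨_, 1, le_rfl, rfl⟩) this
    have t0 := Real.sInf_nonneg (nn F n)
    have h2 := pow_lt_pow_left₀ h1 (Real.rpow_nonneg t0 _) (show n ≠ 0 by omega)
    rw [one_div (n : ℝ), Real.rpow_inv_natCast_pow t0 (by omega)] at h2
    obtain ⟨_, ⟨T, Tm, Td, rfl⟩, h3⟩ := exists_lt_of_csInf_lt (by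
      exact ⟨_, Polynomial.X ^ n, Polynomial.monic_X_pow n, by simp, rfl⟩) h2
    refine ⟨(Real.rpow_nonneg t0 _).trans_lt h1, F,
      ({x : ℝ | x ∈ Set.Icc (-1:ℝ) 1 ∧ 0 < w x} \ E) ∪ (E \ F), ((measurableSet_Icc.inter
        (measurableSet_lt measurable_const mw)).diff mE).union (mE.diff cF.measurableSet),
      (MeasureTheory.measure_union_le _ _).trans ((add_le_add vE vF.le).trans_eq ?_),
      fun x hx h0 hB => ?_, T, Tm, by omega, fun x hx => ⟨(sE (FE hx)).1, ?_⟩⟩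
    · rw [← ENNReal.ofReal_add (half_pos ε0).le (half_pos ε0).le, add_halves]
    · by_contra hF
      exact hB ((em (x ∈ E)).elim (fun h => Or.inr ⟨h, hF⟩) fun h => Or.inl ⟨⟨hx, h0⟩, h⟩)
    · rw [Td]
      exact le_trans (le_csSup (cF.image (by fun_prop)).bddAbove (by exact ⟨x, hx, rfl⟩)) h3.le
  refine H27.Er.contra hw w0 (M := M + 1) (by linarith [w0 0, hM 0]) (fun x => by linarith [hM x])
    (fun q => H27.Er.pd hw w0 hs) (fun σ σ1 => ?_) (key 1 one_pos).1 (by linarith)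
    fun ε ε0 => (key ε ε0).2
  filter_upwards [reg.eventually (lt_mem_nhds (show (2 * σ)⁻¹ < 1 / 2 by
    rw [one_div]; gcongr; linarith)), Filter.eventually_ne_atTop 0] with n h1 n0 q qm qd
  have s0 : ∀ t ∈ {t : ℝ | ∃ q : Polynomial ℝ, q.Monic ∧ q.natDegree = n ∧
      t = Real.sqrt (∫ x in (-1:ℝ)..1, (q.eval x) ^ 2 * w x)}, 0 ≤ t := by
    rintro _ ⟨q, -, -, rfl⟩
    exact Real.sqrt_nonneg _
  have h2 := pow_le_pow_left₀ (by positivity) h1.le n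
  rw [one_div (n : ℝ), Real.rpow_inv_natCast_pow (Real.sInf_nonneg s0) n0] at h2
  exact h2.trans (csInf_le ⟨0, s0⟩ ⟨q, qm, qd, rfl⟩)

end Pool.Agent.S04455
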