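import Pool.Statements.S04462
import Pool.Agent.H33.Cog3

set_option autoImplicit false
open Filter Topology
open Pool Pool.MP_413ec1_an

namespace Pool.Agent.S04462

open Pool.Agent.H33.Cog
theorem result :
    ¬ (∀ (E : Type) [NormedAddCommGroup E] [NormedSpace ℂ E] [CompleteSpace E]
      (T S : ℝ → E →L[ℂ] E),
      T 0 = 1 → S 0 = 1 →
      (∀ s t : ℝ, 0 ≤ s → 0 ≤ t → T (s + t) = T s * T t) →
      (∀ s t : ℝ, 0 ≤ s → 0 ≤ t → S (s + t) = S s * S t) →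
      (∀ x : E, ContinuousOn (fun t : ℝ => T t x) (Set.Ici 0)) →
      (∀ x : E, ContinuousOn (fun t : ℝ => S t x) (Set.Ici 0)) →
      (∃ M : ℝ, ∀ t : ℝ, 0 ≤ t → ‖T t‖ ≤ M) →
      (∃ M : ℝ, ∀ t : ℝ, 0 ≤ t → ‖S t‖ ≤ M) →
      (∀ x y : E,
        Tendsto (fun t : ℝ => t⁻¹ • (T t x - x)) (𝓝[>] 0) (𝓝 y) ↔
          Tendsto (fun t : ℝ => t⁻¹ • (S t y - y)) (𝓝[>] 0) (𝓝 x)) →
      ∀ V : E →L[ℂ] E,
        (∀ x y : E, Tendsto (fun t : ℝ => t⁻¹ • (T t x - x)) (𝓝[>] 0) (𝓝 y) →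
          V (y - x) = y + x) →
        ∃ C : ℝ, ∀ n : ℕ, ‖V ^ n‖ ≤ C) := by
  intro h
  apply unbdd
  refine h XX (sg AA) (sg BB) (sg_zero _) (sg_zero _) (fun s t _ _ => sg_add _ s t)
    (fun s t _ _ => sg_add _ s t) (fun x => (sg_cont _ x).continuousOn)
    (fun x => (sg_cont _ x).continuousOn) ⟨1, fun t _ => by rw [sgA]; exact ts_norm _⟩
    ⟨1, fun t _ => by rw [sgB]; exact ts_norm _⟩ (fun x y => ?_) VV (fun x y hxy => ?_)
  · rw [sg_gen, sg_gen]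
    constructor
    · rintro rfl
      have := congrArg (fun P : XX →L[ℂ] XX => P x) BA
      simpa using this.symm
    · rintro rfl
      have := congrArg (fun P : XX →L[ℂ] XX => P y) AB
      simpa using this.symm
  · rw [sg_gen] at hxy
    rw [hxy]; exact VV_A x

end Pool.Agent.S04462
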