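import Pool.Statements.S04474
import Pool.Agent.H15.GB2

set_option autoImplicit false
open MeasureTheory
open Pool Pool.MP_41f43f_an

namespace Pool.Agent.S04474

theorem result :
    ¬ (∀ n : ℕ, 1 ≤ n →
  ∀ g : ℝ → ℂ, MemLp g 2 volume →
    Integrable g volume →
    Integrable (fun p : ℝ × ℝ => ∫ t : ℝ, g t
        * Complex.exp (-(Real.pi : ℂ) * (((t - p.1) ^ 2 : ℝ) : ℂ))
        * Complex.exp (-2 * (Real.pi : ℂ) * Complex.I * (p.2 : ℂ) * (t : ℂ)))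
      (volume : Measure (ℝ × ℝ)) →
    (∀ t : ℝ, g (-t) = -g t) →
  ∀ Γ : Set (ℝ × ℝ),
    (∃ C : ℕ, ∀ z : ℝ × ℝ,
      (Γ ∩ (Set.Ico z.1 (z.1 + 1) ×ˢ Set.Ico z.2 (z.2 + 1))).Finite ∧
      (Γ ∩ (Set.Ico z.1 (z.1 + 1) ×ˢ Set.Ico z.2 (z.2 + 1))).ncard ≤ C) →
    Filter.liminf (fun R : ℝ => ⨅ z : ℝ × ℝ,
        ((Γ ∩ (Set.Ico z.1 (z.1 + R) ×ˢ Set.Ico z.2 (z.2 + R))).ncard : ℝ) / R ^ 2)
      Filter.atTop = ((n : ℝ) + 1) / (n : ℝ) →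
    ¬ ∃ A B : ℝ, 0 < A ∧ 0 < B ∧ ∀ f : ℝ → ℂ, MemLp f 2 volume →
      Summable (fun γ : Γ => ‖∫ t : ℝ, f t * (starRingEnd ℂ)
          (Complex.exp (2 * (Real.pi : ℂ) * Complex.I * (((γ : ℝ × ℝ).2 : ℝ) : ℂ) * (t : ℂ))
            * g (t - (γ : ℝ × ℝ).1))‖ ^ 2) ∧
      A * (∫ t : ℝ, ‖f t‖ ^ 2) ≤ (∑' γ : Γ, ‖∫ t : ℝ, f t * (starRingEnd ℂ)
          (Complex.exp (2 * (Real.pi : ℂ) * Complex.I * (((γ : ℝ × ℝ).2 : ℝ) : ℂ) * (t : ℂ))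
            * g (t - (γ : ℝ × ℝ).1))‖ ^ 2) ∧
      (∑' γ : Γ, ‖∫ t : ℝ, f t * (starRingEnd ℂ)
          (Complex.exp (2 * (Real.pi : ℂ) * Complex.I * (((γ : ℝ × ℝ).2 : ℝ) : ℂ) * (t : ℂ))
            * g (t - (γ : ℝ × ℝ).1))‖ ^ 2) ≤ B * (∫ t : ℝ, ‖f t‖ ^ 2)) := by
  intro h
  refine h 1 le_rfl Pool.Agent.H15.GB.gg Pool.Agent.H15.GB.gg_memLp Pool.Agent.H15.GB.gg_integrable
    Pool.Agent.H15.GB.stft_integrable Pool.Agent.H15.GB.gg_odd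
    (Pool.Agent.H15.GB.Gam 0 ∪ Pool.Agent.H15.GB.Gam (1/4)) ⟨8, fun z => ⟨?_, ?_⟩⟩ ?_
    ⟨1/10000, 2, by norm_num, by norm_num, fun f hf => ?_⟩
  · exact Pool.Agent.H15.GB.box2_fin _ _ _
  · have := (Pool.Agent.H15.GB.box2_card z.1 z.2 1 le_rfl).2
    have h8 : (2 : ℝ) * (1 + 1) ^ 2 = ((8 : ℕ) : ℝ) := by norm_num
    rw [h8] at this
    exact_mod_cast this
  · rw [Pool.Agent.H15.GB.density]
    norm_num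
  · have := Pool.Agent.H15.GB.frame f hf
    unfold Pool.Agent.H15.GB.FF at this
    exact this

end Pool.Agent.S04474
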