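import Pool.Statements.S04492
import Pool.Agent.H2.Cov3

set_option autoImplicit false
open scoped Classical
open Pool Pool.MP_42dd51_an

namespace Pool.Agent.S04492

/-- The negation of the preceding statement: For all uniformly locally finite metric spaces X, Y, if the uniform Roe algebra of X embeds into that of Y via an injective (not necessarily unital) *-homomorphism, then there is a coarse map X → Y whose fibers have uniformly bounded size. -/
theorem result :
    ¬ (∀ (X Y : Type) [MetricSpace X] [MetricSpace Y],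
      (∀ r : ℝ, 0 < r → ∃ N : ℕ, ∀ x : X, (Metric.closedBall x r).encard ≤ (N : ℕ∞)) →
      (∀ r : ℝ, 0 < r → ∃ N : ℕ, ∀ y : Y, (Metric.closedBall y r).encard ≤ (N : ℕ∞)) →
      (∃ φ : ↥((StarAlgebra.adjoin ℂ
                {a : lp (fun _ : X => ℂ) 2 →L[ℂ] lp (fun _ : X => ℂ) 2 |
                  ∃ r : ℝ, ∀ x x' : X, r < dist x x' →
                    inner ℂ (lp.single 2 x (1 : ℂ) : lp (fun _ : X => ℂ) 2)
                      (a (lp.single 2 x' (1 : ℂ) : lp (fun _ : X => ℂ) 2)) = 0}).topologicalClosure)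
            →⋆ₙₐ[ℂ]
            ↥((StarAlgebra.adjoin ℂ
                {b : lp (fun _ : Y => ℂ) 2 →L[ℂ] lp (fun _ : Y => ℂ) 2 |
                  ∃ r : ℝ, ∀ y y' : Y, r < dist y y' →
                    inner ℂ (lp.single 2 y (1 : ℂ) : lp (fun _ : Y => ℂ) 2)
                      (b (lp.single 2 y' (1 : ℂ) : lp (fun _ : Y => ℂ) 2)) = 0}).topologicalClosure),
          Function.Injective φ) →
      ∃ f : X → Y,
        (∀ r : ℝ, 0 < r → ∃ s : ℝ, 0 < s ∧
            ∀ x x' : X, dist x x' ≤ r → dist (f x) (f x') ≤ s) ∧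
        ∃ N : ℕ, ∀ y : Y, (f ⁻¹' {y}).encard ≤ (N : ℕ∞)) := by
  open Pool.Agent.H2.Cov in
  intro h
  have u : ∀ c, ∀ r : ℝ, 0 < r → ∃ N : ℕ, ∀ x : Z c, (Metric.closedBall x r).encard ≤ (N : ℕ∞) :=
    fun c r _ => (ulf' r).imp fun N h x => by
      rw [← (h x).1.cast_ncard_eq]; exact_mod_cast (h x).2
  have e : ∀ c, {a : H (Z c) →L[ℂ] H (Z c) | ∃ r : ℝ, ∀ x x', r < dist x x' →
      inner ℂ (dl x) (a (dl x')) = 0} = FP (Z c) := fun c => Set.ext fun a =>
    exists_congr fun r => by
      simp only [inner_dl]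
      exact ⟨fun k x y d => k y x (dist_comm x y ▸ d), fun k x y d => k y x (dist_comm x y ▸ d)⟩
  have := h (Z 0) (Z 1) (u 0) (u 1)
  rw [e, e] at this
  have k : ∀ a ∈ FP (Z 0), Ph a ∈ (StarAlgebra.adjoin ℂ (FP (Z 1))).topologicalClosure :=
    fun a ha => closure_mono (StarAlgebra.subset_adjoin ℂ _) (Ph_FP ha)
  have m : ∀ a ∈ (StarAlgebra.adjoin ℂ (FP (Z 0))).topologicalClosure,
      Ph a ∈ (StarAlgebra.adjoin ℂ (FP (Z 1))).topologicalClosure :=
    Set.MapsTo.closure_left (fun a ha => by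
      induction ha using StarAlgebra.adjoin_induction with
      | mem a ha => exact k a ha
      | algebraMap z =>
        rw [Algebra.algebraMap_eq_smul_one, Ph_smul]
        refine SMulMemClass.smul_mem z (k 1 ⟨0, fun x y d => ?_⟩)
        exact lp.single_apply_ne _ _ _ (dist_pos.1 d).symm
      | add a b _ _ ha hb => rw [Ph_add]; exact add_mem ha hb
      | mul a b _ _ ha hb => rw [Ph_mul]; exact mul_mem ha hb
      | star a _ ha => rw [Ph_star]; exact star_mem ha) Ph_cont isClosed_closure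
  obtain ⟨f, f1, N, f2⟩ := this ⟨
    { toFun a := ⟨Ph a, m a a.2⟩
      map_smul' z a := Subtype.ext (Ph_smul z a)
      map_zero' := Subtype.ext (by simp [Ph])
      map_add' a b := Subtype.ext (Ph_add a b)
      map_mul' a b := Subtype.ext (Ph_mul a b)
      map_star' a := Subtype.ext (Ph_star a) },
    fun a b h => Subtype.ext (Ph_inj (congrArg Subtype.val h))⟩
  refine no_map f ((f1 2 two_pos).imp fun _ h => h.2) ⟨N, fun y => ?_⟩
  have := Set.finite_of_encard_le_coe (f2 y)
  exact ⟨this, by have k := f2 y; rw [← this.cast_ncard_eq] at k; exact_mod_cast k⟩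

end Pool.Agent.S04492
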