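import Pool.Statements.S04505
import Pool.Agent.H29.Mono5

set_option autoImplicit false
open Filter Topology
open Pool Pool.MP_438bde_an

namespace Pool.Agent.S04505

/-- On a reflexive real Banach space, if T is maximal monotone and T0 is bounded, finitely continuous and T-pseudomonotone, and T+T0 is coercive, then every functional equals y+T0(x) for some x and some y in T(x). -/
theorem result :
  ∀ (X : Type) [NormedAddCommGroup X] [NormedSpace ℝ X] [CompleteSpace X],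
    (∀ φ : (X →L[ℝ] ℝ) →L[ℝ] ℝ, ∃ x : X, ∀ f : X →L[ℝ] ℝ, φ f = f x) →
    ∀ (T : X → Set (X →L[ℝ] ℝ)) (T0 : X → (X →L[ℝ] ℝ)),
      (∀ x y : X, ∀ f ∈ T x, ∀ g ∈ T y, 0 ≤ (f - g) (x - y)) →
      (∀ (x : X) (f : X →L[ℝ] ℝ),
          (∀ y : X, ∀ g ∈ T y, 0 ≤ (f - g) (x - y)) → f ∈ T x) →
      (∀ R : ℝ, ∃ M : ℝ, ∀ x : X, ‖x‖ ≤ R → ‖T0 x‖ ≤ M) →
      (∀ F : Submodule ℝ X, FiniteDimensional ℝ F →
          ∀ φ : (X →L[ℝ] ℝ) →L[ℝ] ℝ, Continuous (fun x : F => φ (T0 (x : X)))) →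
      (∀ (u : ℕ → X) (v : X) (y : ℕ → (X →L[ℝ] ℝ)),
          (∀ f : X →L[ℝ] ℝ, Tendsto (fun j => f (u j)) atTop (𝓝 (f v))) →
          (∀ j, y j ∈ T (u j)) →
          (∃ C : ℝ, ∀ j, ‖y j‖ ≤ C) →
          (∀ ε : ℝ, 0 < ε → ∀ᶠ j in atTop, (T0 (u j)) (u j - v) ≤ ε) →
          ((∀ φ : (X →L[ℝ] ℝ) →L[ℝ] ℝ,
              Tendsto (fun j => φ (T0 (u j))) atTop (𝓝 (φ (T0 v)))) ∧
            Tendsto (fun j => (T0 (u j)) (u j - v)) atTop (𝓝 0))) →
      (∀ M : ℝ, ∃ R : ℝ, ∀ x : X, ∀ y ∈ T x, R ≤ ‖x‖ → M * ‖x‖ ≤ (y + T0 x) x) →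
      ∀ f : X →L[ℝ] ℝ, ∃ x : X, ∃ y ∈ T x, y + T0 x = f := by
  intro X _ _ _ hX T T0 hm hM hb _ hp hc f
  obtain ⟨R, hR⟩ := hc (1 + ‖f‖)
  obtain ⟨x, y, hy, e⟩ := H29.Mono.main (T := T) (T0 := fun x => T0 x - f) hX hm hM
    (fun r => by
      obtain ⟨M, h⟩ := hb r
      exact ⟨M + ‖f‖, fun x hx => (norm_sub_le _ _).trans (add_le_add_left (h x hx) _)⟩)
    (fun u v y h1 h2 h3 h4 => by
      have k : Tendsto (fun j => f (u j - v)) atTop (𝓝 0) := by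
        simpa only [map_sub] using tendsto_sub_nhds_zero_iff.2 (h1 f)
      obtain ⟨k1, k2⟩ := hp u v y h1 h2 h3 fun ε hε => by
        filter_upwards [h4 _ (half_pos hε), k.eventually (gt_mem_nhds (half_pos hε))] with j a b
        rw [ContinuousLinearMap.sub_apply] at a
        linarith
      refine ⟨fun φ => ?_, ?_⟩
      · simpa only [map_sub] using (k1 φ).sub_const (φ f)
      · simpa only [sub_zero, ContinuousLinearMap.sub_apply] using k2.sub k)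
    (le_max_left 1 R) fun x y hy hx => by
      have h1 := hR x y hy ((le_max_right _ _).trans hx)
      have h2 := f.le_opNorm x
      simp only [ContinuousLinearMap.add_apply, ContinuousLinearMap.sub_apply] at h1 ⊢
      linarith [le_of_abs_le h2]
  exact ⟨x, y, hy, by rw [← sub_eq_zero, add_sub_assoc, e]⟩

end Pool.Agent.S04505
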