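import Pool.Statements.S04518
import Pool.Agent.H1.BmA

set_option autoImplicit false
open MeasureTheory
open scoped Pointwise
open Pool Pool.MP_4442a2_an

namespace Pool.Agent.S04518

/-- The negation of the preceding statement: For N≥2, 0<α<N, with α-Riesz capacity = inverse of minimal energy ∬∣x−y∣^{α−N} over probability measures on K, Cap^{1/(N−α)} is concave under Minkowski combinations of convex bodies in ℝ^N. -/
theorem result :
    ¬ (∀ (N : ℕ) (α : ℝ), 2 ≤ N → 0 < α → α < (N : ℝ) →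
    ∀ Cap : Set (EuclideanSpace ℝ (Fin N)) → ENNReal,
      (∀ K : Set (EuclideanSpace ℝ (Fin N)),
        Cap K = (⨅ (μ : Measure (EuclideanSpace ℝ (Fin N)))
                  (_ : IsProbabilityMeasure μ) (_ : μ Kᶜ = 0),
                  ∫⁻ x, ∫⁻ y, (edist x y) ^ (α - (N : ℝ)) ∂μ ∂μ)⁻¹) →
      ∀ K₀ K₁ : Set (EuclideanSpace ℝ (Fin N)),
        IsCompact K₀ → Convex ℝ K₀ → (interior K₀).Nonempty →
        IsCompact K₁ → Convex ℝ K₁ → (interior K₁).Nonempty →
        ∀ t : ℝ, 0 ≤ t → t ≤ 1 →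
          ENNReal.ofReal t * Cap K₁ ^ (1 / ((N : ℝ) - α))
            + ENNReal.ofReal (1 - t) * Cap K₀ ^ (1 / ((N : ℝ) - α))
            ≤ Cap (t • K₁ + (1 - t) • K₀) ^ (1 / ((N : ℝ) - α))) := by
  intro H
  obtain ⟨M, hM⟩ := ENNReal.exists_nat_gt (ENNReal.mul_ne_top (a := 220) (by simp) Pool.Agent.H1.Bm.D_fin)
  set N := M + 2 with hN
  have n2 : (2 : ℝ) ≤ N := by rw [hN]; push_cast; linarith [M.cast_nonneg (α := ℝ)]
  have hD : 220 * Pool.Agent.H1.Bm.D ≤ N := hM.le.trans (by exact_mod_cast Nat.le_add_right M 2)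
  set K := Pool.Agent.H1.Bm.K N with hK
  have kc : ∀ σ, IsCompact (K σ) := fun σ => (isCompact_closedBall 0 1).of_isClosed_subset
    (Pool.Agent.H1.Bm.K_closed N σ) Set.inter_subset_right
  have kv : ∀ σ, Convex ℝ (K σ) := fun σ => by
    refine Convex.inter (fun x hx y hy a b ha hb _ i => ?_) (convex_closedBall 0 1)
    have := hx i
    have := hy i
    simp only [PiLp.add_apply, PiLp.smul_apply, smul_eq_mul]
    nlinarith [mul_nonneg ha (hx i), mul_nonneg hb (hy i)]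
  have ki : ∀ σ : ℝ, σ ^ 2 = 1 → (interior (K σ)).Nonempty := fun σ hσ => by
    have ho : IsOpen ({x : EuclideanSpace ℝ (Fin N) | ∀ i, 0 < σ * x i} ∩ Metric.ball 0 1) := by
      refine IsOpen.inter ?_ Metric.isOpen_ball
      rw [Set.ofPred_forall]
      exact isOpen_iInter_of_finite fun i => isOpen_lt continuous_const (by fun_prop)
    refine ⟨WithLp.toLp 2 fun _ => σ / N, interior_maximal (fun x hx =>
      And.intro (fun i => (hx.1 i).le) (Metric.ball_subset_closedBall hx.2)) ho ⟨fun i => ?_, ?_⟩⟩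
    · simp only [mul_div_assoc', ← sq, hσ]; positivity
    · rw [mem_ball_zero_iff, ← sq_lt_one_iff₀ (norm_nonneg _), EuclideanSpace.real_norm_sq_eq]
      simp only [div_pow, hσ, Finset.sum_const, Finset.card_univ, Fintype.card_fin, nsmul_eq_mul]
      rw [mul_one_div, div_lt_one (by positivity)]; nlinarith
  have h := H N (N - 1 / 2) (by omega) (by linarith) (by linarith) _ (fun _ => rfl) (K (-1)) (K 1)
    (kc _) (kv _) (ki _ (by norm_num)) (kc _) (kv _) (ki _ (by norm_num)) (1 / 2) (by norm_num)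
    (by norm_num)
  rw [show (N : ℝ) - 1 / 2 - N = -(1 / 2) by ring, show 1 / ((N : ℝ) - (N - 1 / 2)) = 2 by norm_num,
    show (1 : ℝ) - 1 / 2 = 1 / 2 by norm_num] at h
  have u : ∀ σ : ℝ, σ ^ 2 = 1 → ENNReal.ofReal (22 / 21) ≤ (⨅ (μ : Measure (EuclideanSpace ℝ (Fin N)))
      (_ : IsProbabilityMeasure μ) (_ : μ (K σ)ᶜ = 0),
      ∫⁻ x, ∫⁻ y, (edist x y) ^ (-(1 / 2) : ℝ) ∂μ ∂μ)⁻¹ ^ (2 : ℝ) := fun σ hσ => by
    obtain ⟨μ, h1, h2, h3⟩ := Pool.Agent.H1.Bm.up hD (by omega) hσ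
    refine le_trans ?_ (ENNReal.rpow_le_rpow (ENNReal.inv_le_inv.2
      (((iInf₂_le μ h1).trans (iInf_le _ h2)).trans h3)) zero_le_two)
    rw [← ENNReal.ofReal_inv_of_pos (by norm_num), ENNReal.ofReal_rpow_of_pos (by norm_num)]
    exact ENNReal.ofReal_le_ofReal (by norm_num)
  have h := ((add_le_add (mul_le_mul_right (u 1 (by norm_num)) _)
    (mul_le_mul_right (u (-1) (by norm_num)) _)).trans h).trans
    (ENNReal.rpow_le_one (ENNReal.inv_le_one.2 (le_iInf fun ν => le_iInf fun _ => le_iInf fun hν =>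
      Pool.Agent.H1.Bm.low ν (Filter.Eventually.mono hν ?_))) zero_le_two)
  · rw [← ENNReal.ofReal_mul (by norm_num), ← ENNReal.ofReal_add (by norm_num) (by norm_num),
      ENNReal.ofReal_le_one] at h
    norm_num at h
  · rintro _ ⟨_, ⟨x, hx, rfl⟩, _, ⟨y, hy, rfl⟩, rfl⟩
    have h1 := mem_closedBall_zero_iff.1 hx.2
    have h2 := mem_closedBall_zero_iff.1 hy.2
    have h3 : inner ℝ x y ≤ 0 := by
      rw [Pool.Agent.H1.Iso.inner_eq]
      exact Finset.sum_nonpos fun i _ => by nlinarith [mul_nonneg (hx.1 i) (hy.1 i)]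
    simp only [← smul_add, norm_smul, mul_pow, norm_add_sq_real, Real.norm_eq_abs, sq_abs]
    nlinarith [norm_nonneg x, norm_nonneg y]

end Pool.Agent.S04518
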