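import Pool.Statements.S04527

set_option autoImplicit false
open Pointwise
open Pool Pool.MP_449b18_an

namespace Pool.Agent.S04527

open Finset

lemma one_fiber {Γ : Type} [Group Γ] [DecidableEq Γ] (H : Finset Γ) (a b : Γ) (c : ℝ) (hc : 0 ≤ c) :
    ∑ z ∈ H, (if a * z * b = 1 then c else 0) ≤ c := by
  have : ∀ z, a * z * b = 1 ↔ z = a⁻¹ * b⁻¹ := fun z => by
    rw [mul_eq_one_iff_eq_inv, eq_inv_mul_iff_mul_eq]
  simp only [this, sum_ite_eq']
  split_ifs <;> simp [hc]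

lemma level {Γ : Type} (G : Finset Γ) (g : Γ → ℝ) (j : ℤ) :
    (2 : ℝ) ^ j * 2 ^ j * (G.filter fun y => 0 < g y ∧ Int.log 2 (g y) = j).card ≤
      ∑ y ∈ G, if Int.log 2 (g y) = j then g y ^ 2 else 0 := by
  rw [card_filter, Nat.cast_sum, mul_sum]
  refine sum_le_sum fun y _ => ?_
  by_cases h : 0 < g y ∧ Int.log 2 (g y) = j
  · have := Int.zpow_log_le_self (b := 2) (by norm_num) h.1
    rw [h.2, Nat.cast_ofNat] at this
    have h2 : (0 : ℝ) < 2 ^ j := by positivity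
    simp only [h, and_self, if_true, Nat.cast_one, mul_one]
    nlinarith
  · rw [if_neg h]
    split_ifs <;> simp [sq_nonneg]

lemma fibers {Γ : Type} (G : Finset Γ) (g : Γ → ℝ) (J : Finset ℤ) (d : ℤ) :
    ∑ j ∈ J, ∑ y ∈ G, (if Int.log 2 (g y) = j + d then g y ^ 2 else 0) ≤ ∑ y ∈ G, g y ^ 2 := by
  rw [sum_comm]
  refine sum_le_sum fun y _ => ?_
  simp only [← sub_eq_iff_eq_add, sum_ite_eq]
  split_ifs <;> simp [sq_nonneg]

lemma point (a b c : ℝ) (ha : 0 ≤ a) (ha1 : a ≤ 1) (hb : 0 ≤ b) (hc : 0 ≤ c) (L : ℕ) :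
    a * b * c ≤ (b ^ 2 + c ^ 2) / 2 ^ L ∨ (0 < a ∧ 0 < b ∧ 0 < c ∧ Int.log 2 a ∈ Icc (-L : ℤ) 0 ∧
      Int.log 2 c - Int.log 2 b ∈ Icc (-L - 1 : ℤ) (L + 1)) := by
  have hM : (0 : ℝ) < 2 ^ L := by positivity
  rw [le_div_iff₀ hM, or_iff_not_imp_left, not_le]
  intro h
  have hbc := mul_nonneg hb hc
  have h1 : 1 < a * 2 ^ L := by
    by_contra h1
    nlinarith [mul_le_mul_of_nonneg_left (not_lt.1 h1) hbc, sq_nonneg (b - c)]
  have h0 : a * b * c * 2 ^ L ≤ b * c * 2 ^ L := by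
    have := mul_le_mul_of_nonneg_right ha1 (mul_nonneg hbc hM.le)
    nlinarith
  have b0 : 0 < b := hb.lt_of_ne fun e => by rw [← e] at h; nlinarith [sq_nonneg c]
  have c0 : 0 < c := hc.lt_of_ne fun e => by rw [← e] at h; nlinarith [sq_nonneg b]
  have a0 : 0 < a := ha.lt_of_ne fun e => by rw [← e] at h1; nlinarith
  have h2 : b < c * 2 ^ L := by nlinarith [sq_nonneg c]
  have h3 : c < b * 2 ^ L := by nlinarith [sq_nonneg b]
  have key : ∀ s t : ℝ, 0 < s → s < t * 2 ^ L → Int.log 2 s ≤ Int.log 2 t + L := by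
    intro s t hs h
    have e1 := Int.zpow_log_le_self (b := 2) (by norm_num) hs
    have e2 := Int.lt_zpow_succ_log_self (b := 2) (by norm_num) t
    rw [Nat.cast_ofNat] at e1 e2
    have : (2 : ℝ) ^ Int.log 2 s < 2 ^ (Int.log 2 t + 1 + L) := by
      rw [zpow_add₀ two_ne_zero, zpow_natCast]
      nlinarith
    have := (zpow_lt_zpow_iff_right₀ one_lt_two).1 this
    omega
  have k1 := key 1 a one_pos h1
  have k2 := key b c b0 h2
  have k3 := key c b c0 h3
  have k4 : Int.log 2 a ≤ Int.log 2 (1 : ℝ) := Int.log_mono_right a0 ha1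
  rw [Int.log_one_right] at k1 k4
  refine ⟨a0, b0, c0, ?_, ?_⟩ <;> rw [mem_Icc] <;> omega

lemma core {Γ : Type} [Group Γ] [DecidableEq Γ] (F G H : Finset Γ) (f g h : Γ → ℝ)
    (f0 : ∀ x, 0 ≤ f x) (g0 : ∀ x, 0 ≤ g x) (h0 : ∀ x, 0 ≤ h x) (hf : ∑ x ∈ F, f x ^ 2 ≤ 1)
    (hg : ∑ x ∈ G, g x ^ 2 ≤ 1) (hh : ∑ x ∈ H, h x ^ 2 ≤ 1) (p : ℝ) (hp : 0 ≤ p) (L : ℕ)
    (hL : F.card ≤ 2 ^ L) (T : ∀ A ⊆ F, ∀ B C : Finset Γ,
      (((A ×ˢ B ×ˢ C).filter (fun t => t.1 * t.2.1 * t.2.2 = 1)).card : ℝ)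
        ≤ p * Real.sqrt ((A.card : ℝ) * B.card * C.card)) :
    ∑ x ∈ F, ∑ y ∈ G, ∑ z ∈ H, (if x * y * z = 1 then f x * g y * h z else 0) ≤
      2 + 8 * p * ((L + 1) * (2 * L + 3)) := by
  classical
  let J := G.image fun y => Int.log 2 (g y)
  let K := Icc (-L : ℤ) 0 ×ˢ Icc (-L - 1 : ℤ) (L + 1) ×ˢ J
  let A := fun i => F.filter fun y => 0 < f y ∧ Int.log 2 (f y) = i
  let B := fun i => G.filter fun y => 0 < g y ∧ Int.log 2 (g y) = i
  let C := fun i => H.filter fun y => 0 < h y ∧ Int.log 2 (h y) = i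
  let W : ℤ × ℤ × ℤ → ℝ := fun k => 8 * (2 ^ k.1 * 2 ^ k.2.2 * 2 ^ (k.2.2 + k.2.1))
  have hW : ∀ k, 0 ≤ W k := fun k => by positivity
  have lt : ∀ t : ℝ, t ≤ 2 * 2 ^ Int.log 2 t := fun t => by
    have := Int.lt_zpow_succ_log_self (b := 2) (by norm_num) t
    rw [Nat.cast_ofNat, zpow_add_one₀ two_ne_zero] at this
    linarith
  have s1 : ∀ x ∈ F, ∀ y ∈ G, ∀ z ∈ H, (if x * y * z = 1 then f x * g y * h z else 0) ≤
      ((if x * y * z * 1 = 1 then g y ^ 2 / 2 ^ L else 0) +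
        (if x * y * z = 1 then h z ^ 2 / 2 ^ L else 0)) +
      ∑ k ∈ K, (if x ∈ A k.1 ∧ y ∈ B k.2.2 ∧ z ∈ C (k.2.2 + k.2.1) ∧ x * y * z = 1 then W k
        else 0) := by
    intro x hx y hy z hz
    have n : ∀ k ∈ K, 0 ≤ (if x ∈ A k.1 ∧ y ∈ B k.2.2 ∧ z ∈ C (k.2.2 + k.2.1) ∧ x * y * z = 1
      then W k else 0) := fun k _ => by split_ifs <;> simp [hW]
    rw [mul_one]
    split_ifs with e
    · have f1 : f x ≤ 1 := by
        have := (single_le_sum (f := fun x => f x ^ 2) (fun _ _ => sq_nonneg _) hx).trans hf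
        nlinarith [f0 x]
      rcases point _ _ _ (f0 x) f1 (g0 y) (h0 z) L with q | ⟨a, b, c, q1, q2⟩
      · rw [← add_div]; linarith [sum_nonneg n]
      · have := single_le_sum n (a := (Int.log 2 (f x), Int.log 2 (h z) - Int.log 2 (g y),
          Int.log 2 (g y))) (by
            simp only [K, mem_product]; exact ⟨q1, q2, mem_image_of_mem _ hy⟩)
        rw [if_pos (by simp [A, B, C, *])] at this
        simp only [W, add_sub_cancel] at this
        have := mul_le_mul (mul_le_mul (lt (f x)) (lt (g y)) b.le (by positivity)) (lt (h z)) c.le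
          (by positivity)
        have : 0 ≤ g y ^ 2 / 2 ^ L + h z ^ 2 / 2 ^ L := by positivity
        linarith
    · linarith [sum_nonneg n]
  have s2 : ∀ k ∈ K, ∑ x ∈ F, ∑ y ∈ G, ∑ z ∈ H,
      (if x ∈ A k.1 ∧ y ∈ B k.2.2 ∧ z ∈ C (k.2.2 + k.2.1) ∧ x * y * z = 1 then W k else 0) ≤
      4 * p * ((∑ y ∈ G, if Int.log 2 (g y) = k.2.2 + 0 then g y ^ 2 else 0) +
        ∑ y ∈ H, if Int.log 2 (h y) = k.2.2 + k.2.1 then h y ^ 2 else 0) := by
    rintro ⟨i, d, j⟩ -
    have e : ∑ x ∈ F, ∑ y ∈ G, ∑ z ∈ H,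
        (if x ∈ A i ∧ y ∈ B j ∧ z ∈ C (j + d) ∧ x * y * z = 1 then W (i, d, j) else 0) =
        W (i, d, j) * ((A i ×ˢ B j ×ˢ C (j + d)).filter fun t => t.1 * t.2.1 * t.2.2 = 1).card := by
      have a : F ∩ A i = A i := inter_eq_right.2 (filter_subset _ _)
      have b : G ∩ B j = B j := inter_eq_right.2 (filter_subset _ _)
      have c : H ∩ C (j + d) = C (j + d) := inter_eq_right.2 (filter_subset _ _)
      simp only [ite_and, sum_ite_irrel, sum_const_zero, sum_ite_mem, a, b, c, card_filter,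
        Nat.cast_sum, mul_sum, sum_product, Nat.cast_ite, Nat.cast_one, Nat.cast_zero, mul_ite,
        mul_one, mul_zero]
    rw [e, add_zero]
    have l1 := (level F f i).trans ((sum_le_sum fun y _ => by
      split_ifs <;> simp [sq_nonneg]).trans hf)
    have l2 := level G g j
    have l3 := level H h (j + d)
    refine (mul_le_mul_of_nonneg_left (T _ (filter_subset _ _) _ _) (hW _)).trans ?_
    simp only [W]
    generalize (∑ y ∈ G, if Int.log 2 (g y) = j then g y ^ 2 else 0) = u at l2 ⊢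
    generalize (∑ y ∈ H, if Int.log 2 (h y) = j + d then h y ^ 2 else 0) = v at l3 ⊢
    have : (2 : ℝ) ^ i * 2 ^ j * 2 ^ (j + d) * √((A i).card * (B j).card * (C (j + d)).card) ≤
        (u + v) / 2 := by
      have u0 : 0 ≤ u := le_trans (by positivity) l2
      have v0 : 0 ≤ v := le_trans (by positivity) l3
      refine (abs_le_of_sq_le_sq' ?_ (by positivity)).2
      rw [mul_pow, Real.sq_sqrt (by positivity)]
      have := mul_le_mul (mul_le_mul l1 l2 (by positivity) zero_le_one) l3 (by positivity)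
        (by positivity)
      simp only [A, B, C]
      nlinarith [sq_nonneg (u - v)]
    nlinarith
  have s3 : ∀ x, ∑ y ∈ G, ∑ z ∈ H, ((if x * y * z * 1 = 1 then g y ^ 2 / 2 ^ L else 0) +
        (if x * y * z = 1 then h z ^ 2 / 2 ^ L else 0)) ≤ (2 : ℝ) / 2 ^ L := by
    intro x
    simp only [sum_add_distrib]
    rw [sum_comm (s := G) (f := fun y z => if x * y * z = 1 then h z ^ 2 / 2 ^ L else 0)]
    have a := sum_le_sum (s := G) fun y _ => one_fiber H (x * y) 1 (g y ^ 2 / 2 ^ L) (by positivity)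
    have b := sum_le_sum (s := H) fun z _ => one_fiber G x z (h z ^ 2 / 2 ^ L) (by positivity)
    rw [← sum_div] at a b
    have c := div_le_div_of_nonneg_right (add_le_add hg hh) (show (0 : ℝ) ≤ 2 ^ L by positivity)
    rw [add_div, one_add_one_eq_two] at c
    linarith
  refine (sum_le_sum fun x hx => sum_le_sum fun y hy => sum_le_sum fun z hz =>
    s1 x hx y hy z hz).trans ?_
  simp only [sum_add_distrib (f := fun z => _ + _)]
  simp only [sum_add_distrib (f := fun y => ∑ z ∈ H, (_ + _))]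
  refine (sum_add_distrib.le).trans (add_le_add ((sum_le_sum fun x _ => s3 x).trans ?_) ?_)
  · rw [sum_const, nsmul_eq_mul, mul_div_assoc', div_le_iff₀ (by positivity)]
    have : (F.card : ℝ) ≤ 2 ^ L := by exact_mod_cast hL
    linarith
  · simp only [sum_comm (t := K)]
    refine (sum_le_sum s2).trans ?_
    rw [← mul_sum]
    simp only [K, sum_product]
    refine (mul_le_mul_of_nonneg_left (sum_le_sum (g := fun _ => ∑ d ∈ Icc (-L - 1 : ℤ) (L + 1),
      ((1 : ℝ) + 1)) fun i _ => sum_le_sum fun d _ => ?_) (by positivity)).trans ?_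
    · rw [sum_add_distrib]
      exact add_le_add ((fibers G g J 0).trans hg) ((fibers H h J d).trans hh)
    simp only [sum_const, Int.card_Icc, nsmul_eq_mul]
    rw [show (0 + 1 - -L : ℤ).toNat = L + 1 by omega,
      show (L + 1 + 1 - (-L - 1) : ℤ).toNat = 2 * L + 3 by omega]
    push_cast
    exact le_of_eq (by ring)

theorem result :
    ∀ (Γ : Type) [Group Γ] [DecidableEq Γ] (S : Finset Γ),
      Subgroup.closure (S : Set Γ) = ⊤ →
      ((∃ P : Polynomial ℝ, ∀ (r : ℕ) (F G H : Finset Γ) (f g h : Γ → ℂ),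
          F ⊆ (insert 1 (S ∪ S⁻¹)) ^ r →
          ‖∑ x ∈ F, ∑ y ∈ G, ∑ z ∈ H, (if x * y * z = 1 then f x * g y * h z else 0)‖
            ≤ P.eval (r : ℝ) *
              (Real.sqrt (∑ x ∈ F, ‖f x‖ ^ 2) * Real.sqrt (∑ y ∈ G, ‖g y‖ ^ 2) *
                Real.sqrt (∑ z ∈ H, ‖h z‖ ^ 2)))
        ↔
       (∃ P : Polynomial ℝ, ∀ (r : ℕ) (A B C : Finset Γ),
          A ⊆ (insert 1 (S ∪ S⁻¹)) ^ r →
          (((A ×ˢ B ×ˢ C).filter (fun t => t.1 * t.2.1 * t.2.2 = 1)).card : ℝ)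
            ≤ P.eval (r : ℝ) * Real.sqrt ((A.card : ℝ) * B.card * C.card))) := by
  intro Γ _ _ S _
  refine ⟨fun ⟨P, hP⟩ => ⟨P, fun r A B C hA => ?_⟩, fun ⟨P, hP⟩ => ?_⟩
  · have := hP r A B C 1 1 1 hA
    simp only [Pi.one_apply, mul_one, norm_one, one_pow, sum_const, nsmul_eq_mul] at this
    rw [Real.sqrt_mul (by positivity), Real.sqrt_mul (by positivity), ← Complex.norm_natCast,
      card_filter]
    simpa only [Nat.cast_sum, sum_product, Nat.cast_ite, Nat.cast_one, Nat.cast_zero] using this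
  · let D := (insert 1 (S ∪ S⁻¹)).card
    refine ⟨2 + 8 * P * (((D : Polynomial ℝ) * .X + 1) * (2 * ((D : Polynomial ℝ) * .X) + 3)),
      fun r F G H f g h hF => ?_⟩
    have hp : 0 ≤ P.eval (r : ℝ) := by
      have := hP r {1} {1} {1} (by simpa using one_mem_pow (mem_insert_self 1 _))
      simp only [card_singleton, Nat.cast_one, mul_one, Real.sqrt_one] at this
      exact le_trans (by positivity) this
    have hL : F.card ≤ 2 ^ (D * r) := (card_le_card hF).trans (card_pow_le.trans (by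
      rw [pow_mul]; exact Nat.pow_le_pow_left Nat.lt_two_pow_self.le r))
    have nz : ∀ (F : Finset Γ) (f : Γ → ℂ), ∑ x ∈ F, (‖f x‖ / √(∑ x ∈ F, ‖f x‖ ^ 2)) ^ 2 ≤ 1 ∧
        ∀ x ∈ F, ‖f x‖ = ‖f x‖ / √(∑ x ∈ F, ‖f x‖ ^ 2) * √(∑ x ∈ F, ‖f x‖ ^ 2) := by
      intro F f
      have n : 0 ≤ ∑ x ∈ F, ‖f x‖ ^ 2 := sum_nonneg fun _ _ => sq_nonneg _
      refine ⟨?_, fun x hx => ?_⟩
      · simp only [div_pow, ← sum_div, Real.sq_sqrt n]
        exact div_self_le_one _
      · by_cases e : √(∑ x ∈ F, ‖f x‖ ^ 2) = 0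
        · rw [e, mul_zero]
          rw [Real.sqrt_eq_zero n, sum_eq_zero_iff_of_nonneg fun _ _ => sq_nonneg _] at e
          simpa using e x hx
        · rw [div_mul_cancel₀ _ e]
    have := core F G H _ _ _ (fun _ => by positivity) (fun _ => by positivity)
      (fun _ => by positivity) (nz F f).1 (nz G g).1 (nz H h).1 _ hp _ hL
      fun A hA B C => hP r A B C (hA.trans hF)
    refine le_trans ?_ ((mul_le_mul_of_nonneg_right this (show 0 ≤ √(∑ x ∈ F, ‖f x‖ ^ 2) *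
      √(∑ x ∈ G, ‖g x‖ ^ 2) * √(∑ x ∈ H, ‖h x‖ ^ 2) by positivity)).trans (le_of_eq ?_))
    · simp only [sum_mul]
      refine norm_sum_le_of_le _ fun x hx => norm_sum_le_of_le _ fun y hy =>
        norm_sum_le_of_le _ fun z hz => ?_
      split_ifs
      · rw [norm_mul, norm_mul]
        conv_lhs => rw [(nz F f).2 x hx, (nz G g).2 y hy, (nz H h).2 z hz]
        exact le_of_eq (by ring)
      · simp
    · simp

end Pool.Agent.S04527
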