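import Pool.Statements.S04536

set_option autoImplicit false
open Pool Pool.MP_45d43b_an

namespace Pool.Agent.S04536

open Filter Topology

abbrev Y := ZeroAtInftyContinuousMap ℕ ℝ

lemma le_norm (f : Y) (p : ℕ) : ‖f p‖ ≤ ‖f‖ := f.toBCF.norm_coe_le_norm p

lemma norm_le (f : Y) {C : ℝ} (hC : 0 ≤ C) (h : ∀ p, ‖f p‖ ≤ C) : ‖f‖ ≤ C :=
  (BoundedContinuousFunction.norm_le (f := f.toBCF) hC).2 h

def mk (f : ℕ → ℝ) (h : Tendsto f atTop (𝓝 0)) : Y :=
  ⟨⟨f, continuous_of_discreteTopology⟩, by rwa [cocompact_eq_cofinite, Nat.cofinite_eq_atTop]⟩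

lemma tends (f : Y) : Tendsto f atTop (𝓝 0) := by
  have := f.zero_at_infty'
  rwa [cocompact_eq_cofinite, Nat.cofinite_eq_atTop] at this

noncomputable def F (x : Y) : Y :=
  mk (fun n => Nat.casesOn n (1 - ‖x‖) (fun k => x k)) ((tendsto_add_atTop_iff_nat 1).1 (tends x))

lemma F_lip : LipschitzWith 1 F := LipschitzWith.of_dist_le_mul fun x y => by
  rw [dist_eq_norm, dist_eq_norm, NNReal.coe_one, one_mul]
  refine norm_le _ (norm_nonneg _) fun p => ?_
  cases p with
  | zero =>
    change ‖(1 - ‖x‖) - (1 - ‖y‖)‖ ≤ _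
    rw [show (1 - ‖x‖) - (1 - ‖y‖) = ‖y‖ - ‖x‖ by ring, norm_sub_rev x]
    exact abs_norm_sub_norm_le y x
  | succ k => exact le_norm (x - y) k

noncomputable def e (n : ℕ) : Y := mk (fun k => if k = n then 1 else 0)
  (tendsto_const_nhds.congr' ((eventually_gt_atTop n).mono fun k hk => by simp [hk.ne']))

lemma e_apply (n k : ℕ) : e n k = if k = n then 1 else 0 := rfl

lemma norm_e (n : ℕ) : ‖e n‖ = 1 := by
  refine le_antisymm (norm_le _ zero_le_one fun p => ?_) (by simpa [e_apply] using le_norm (e n) n)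
  rw [e_apply]
  split_ifs <;> simp

lemma F_e (n : ℕ) : F (e n) = e (n + 1) := by
  ext k
  cases k with
  | zero =>
    change 1 - ‖e n‖ = _
    simp [norm_e, e_apply]
  | succ k =>
    change e n k = _
    simp [e_apply]

lemma iter (n : ℕ) : F^[n] (e 0) = e n := by
  induction n with
  | zero => rfl
  | succ n ih => rw [Function.iterate_succ_apply', ih, F_e]

lemma no_fix (x : Y) : F x ≠ x := fun h => by
  have h1 : ∀ n, x n = x 0 := fun n => by
    induction n with
    | zero => rfl
    | succ n ih => rw [← ih]; exact (congrArg (fun y : Y => y (n + 1)) h).symm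
  have h2 : x 0 = 0 := tendsto_nhds_unique (tendsto_const_nhds.congr fun n => (h1 n).symm) (tends x)
  have h3 : x = 0 := by
    ext n
    rw [h1, h2]
    rfl
  have h4 : 1 - ‖x‖ = x 0 := congrArg (fun y : Y => y 0) h
  rw [h2, h3] at h4
  simp at h4

lemma sum_apply (s : Finset ℕ) (g : ℕ → Y) (k : ℕ) : (∑ n ∈ s, g n) k = ∑ n ∈ s, g n k := by
  induction s using Finset.induction_on with
  | empty => rfl
  | insert a s ha ih => rw [Finset.sum_insert ha, Finset.sum_insert ha, ← ih]; rfl

lemma weak (φ : Y →L[ℝ] ℝ) : Tendsto (fun n => φ (e n)) atTop (𝓝 0) := by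
  have hs : Summable fun n => |φ (e n)| := by
    refine summable_of_sum_range_le (c := ‖φ‖) (fun n => abs_nonneg _) fun N => ?_
    let x : Y := ∑ n ∈ Finset.range N, (SignType.sign (φ (e n)) : ℝ) • e n
    have h1 : ‖x‖ ≤ 1 := norm_le _ zero_le_one fun p => by
      rw [sum_apply]
      simp only [ZeroAtInftyContinuousMap.smul_apply, e_apply, smul_eq_mul, mul_ite, mul_one,
        mul_zero, Finset.sum_ite_eq]
      split_ifs
      · rcases lt_trichotomy (φ (e p)) 0 with h | h | h <;> simp [h]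
      · simp
    have h2 : φ x = ∑ n ∈ Finset.range N, |φ (e n)| := by
      simp only [x, map_sum, map_smul, smul_eq_mul, sign_mul_self]
    rw [← h2]
    exact (le_abs_self _).trans ((φ.le_opNorm x).trans (mul_le_of_le_one_right (norm_nonneg _) h1))
  exact tendsto_zero_iff_abs_tendsto_zero _ |>.2 hs.tendsto_atTop_zero

lemma wk : Tendsto (fun n => toWeakSpace ℝ Y (e n)) atTop (𝓝 0) := by
  have hI : IsInducing fun (x : WeakSpace ℝ Y) (φ : StrongDual ℝ Y) =>
      (topDualPairing ℝ Y).flip x φ := ⟨rfl⟩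
  refine hI.tendsto_nhds_iff.2 (tendsto_pi_nhds.2 fun φ => ?_)
  have := weak φ
  rw [← map_zero φ] at this
  exact this

/-- The negation of the preceding statement: In real c_0, if a commutative semigroup acts on a nonempty closed convex set C by nonexpansive maps and some orbit is relatively weakly compact, then some point of C is fixed by every map. -/
theorem result :
    ¬ (∀ (S : Type) [CommSemigroup S] (C : Set (ZeroAtInftyContinuousMap ℕ ℝ))
      (T : S → ZeroAtInftyContinuousMap ℕ ℝ → ZeroAtInftyContinuousMap ℕ ℝ),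
      C.Nonempty → IsClosed C → Convex ℝ C →
      (∀ s, Set.MapsTo (T s) C C) →
      (∀ s, LipschitzOnWith 1 (T s) C) →
      (∀ s t, ∀ x ∈ C, T (s * t) x = T s (T t x)) →
      (∃ c ∈ C, IsCompact (closure
        (toWeakSpace ℝ (ZeroAtInftyContinuousMap ℕ ℝ) '' Set.range (fun s => T s c)))) →
      ∃ x ∈ C, ∀ s, T s x = x) := by
  intro h
  obtain ⟨x, -, hx⟩ := h (Multiplicative ℕ) Set.univ (fun s => F^[s.toAdd]) Set.univ_nonempty
    isClosed_univ convex_univ (fun _ => Set.mapsTo_univ _ _)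
    (fun s => by simpa using F_lip.iterate s.toAdd)
    (fun s t x _ => by rw [toAdd_mul, Function.iterate_add_apply])
    ⟨e 0, trivial, wk.isCompact_insert_range.closure_of_subset (by
      rintro _ ⟨_, ⟨s, rfl⟩, rfl⟩
      exact Or.inr ⟨s.toAdd, by simp only [iter]⟩)⟩
  exact no_fix x (hx (Multiplicative.ofAdd 1))

end Pool.Agent.S04536
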