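import Pool.Statements.S04558
import Pool.Agent.H1.BouD

set_option autoImplicit false
open Pool Pool.MP_48d627_an

namespace Pool.Agent.S04558

/-- The negation of the preceding statement: For every analytic selfmap φ of the unit disc with no fixed point in the disc, and every μ, the map C_φ − μ on H² is bijective exactly when it is Fredholm. That is, the spectrum of C_φ on H² equals its essential spectrum. -/
theorem result :
    ¬ (∀ φ : ℂ → ℂ, DifferentiableOn ℂ φ (Metric.ball (0:ℂ) 1) →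
      Set.MapsTo φ (Metric.ball (0:ℂ) 1) (Metric.ball (0:ℂ) 1) →
      (∀ z ∈ Metric.ball (0:ℂ) 1, φ z ≠ z) →
      ∀ H : Set (ℂ → ℂ),
        (∀ f : ℂ → ℂ, f ∈ H ↔
          (DifferentiableOn ℂ f (Metric.ball (0:ℂ) 1) ∧
           (∀ z : ℂ, z ∉ Metric.ball (0:ℂ) 1 → f z = 0) ∧
           ∃ M : ℝ, ∀ r : ℝ, 0 ≤ r → r < 1 →
             intervalIntegral
               (fun θ : ℝ => ‖f ((r:ℂ) * Complex.exp ((θ:ℂ) * Complex.I))‖ ^ 2)
               0 (2 * Real.pi) MeasureTheory.volume ≤ M)) →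
      ∀ μ : ℂ,
        (∀ g ∈ H, ∃! f : ℂ → ℂ, f ∈ H ∧
            (Metric.ball (0:ℂ) 1).indicator (f ∘ φ) - μ • f = g) ↔
        ((∃ n : ℕ, ∃ e : Fin n → ℂ → ℂ, ∀ f ∈ H,
            (Metric.ball (0:ℂ) 1).indicator (f ∘ φ) = μ • f →
            ∃ c : Fin n → ℂ, f = ∑ i, c i • e i) ∧
         (∃ n : ℕ, ∃ e : Fin n → ℂ → ℂ, ∀ g ∈ H, ∃ c : Fin n → ℂ, ∃ f ∈ H,
            g = (Metric.ball (0:ℂ) 1).indicator (f ∘ φ) - μ • f + ∑ i, c i • e i))) := by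
  intro h
  obtain ⟨f, -, hf⟩ := (h H1.Bou.ph H1.Bou.ph_diff H1.Bou.ph_maps H1.Bou.ph_ne {f | H1.Bou.InH f}
    (fun _ => Iff.rfl) (Complex.exp (-1))).2 ⟨⟨1, fun _ => H1.Bou.f0, fun f hf h1 => by
      obtain ⟨c, hc⟩ := H1.Bou.ker1 hf h1
      exact ⟨fun _ => c, by simpa using hc⟩⟩, 0, Fin.elim0, fun g hg => by
      obtain ⟨f, h1, h2⟩ := H1.Bou.surj hg
      exact ⟨Fin.elim0, f, h1, by simpa using h2⟩⟩ 0 H1.Bou.zero_in
  exact H1.Bou.f0_ne ((hf _ ⟨H1.Bou.f0_in, H1.Bou.f0_eig⟩).trans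
    (hf 0 ⟨H1.Bou.zero_in, by funext z; simp⟩).symm)

end Pool.Agent.S04558
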