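import Pool.Statements.S04563
import Pool.Agent.H29.Surj

set_option autoImplicit false
open Pool Pool.MP_498e64_an

namespace Pool.Agent.S04563

theorem result :
    ∀ (M : Type) [Monoid M],
      (∀ N : Submonoid M, N.FG →
        ∀ (A : Type) [Fintype A] (S : Finset N) (μ : (↥S → A) → A),
          Function.Injective (fun (x : N → A) (m : N) => μ (fun s => x (s.1 * m))) →
          Function.Surjective (fun (x : N → A) (m : N) => μ (fun s => x (s.1 * m)))) →
      ∀ (A : Type) [Fintype A] (S : Finset M) (μ : (↥S → A) → A),
        Function.Injective (fun (x : M → A) (m : M) => μ (fun s => x (s.1 * m))) →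
        Function.Surjective (fun (x : M → A) (m : M) => μ (fun s => x (s.1 * m))) := by
  intro M _ h A _ S μ
  exact Pool.Agent.H29.Surj.local_global M h A S μ

end Pool.Agent.S04563
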