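import Pool.Statements.S04566


set_option autoImplicit false
open Pool Pool.MP_4998f1_an

namespace Pool.Agent.S04566

open Filter Topology BoundedContinuousFunction WeakDual

noncomputable section

abbrev Y := {z : ℂ // 1 / 2 ≤ ‖z‖ ∧ ‖z‖ ≤ 2}

abbrev Bd := {z : ℂ // ‖z‖ = 1 / 2 ∨ ‖z‖ = 2}

def Om := Y ⊕ (Bd × ℤ)

instance : TopologicalSpace Om := ⊥

instance : DiscreteTopology Om := ⟨rfl⟩

def m1 : Y := ⟨-1, by norm_num⟩

def il (z : Y) : Om := Sum.inl z

def ir (p : Bd × ℤ) : Om := Sum.inr p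

instance : Nonempty Om := ⟨il m1⟩

def X := Om →ᵇ ℂ

instance : NormedCommRing X := inferInstanceAs (NormedCommRing (Om →ᵇ ℂ))

instance : NormedAlgebra ℂ X := inferInstanceAs (NormedAlgebra ℂ (Om →ᵇ ℂ))

instance : CompleteSpace X := inferInstanceAs (CompleteSpace (Om →ᵇ ℂ))

instance : NormOneClass X := inferInstanceAs (NormOneClass (Om →ᵇ ℂ))

instance : Nontrivial X := NormOneClass.nontrivial

def X.fn (f : X) (w : Om) : ℂ := (show Om →ᵇ ℂ from f) w

instance : CoeFun X fun _ => Om → ℂ := ⟨X.fn⟩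

@[ext] lemma X_ext {f g : X} (h : ∀ w, f w = g w) : f = g := BoundedContinuousFunction.ext h

@[simp] lemma X_add (f g : X) (w : Om) : (f + g) w = f w + g w := rfl

@[simp] lemma X_sub (f g : X) (w : Om) : (f - g) w = f w - g w := rfl

@[simp] lemma X_neg (f : X) (w : Om) : (-f) w = -f w := rfl

@[simp] lemma X_mul (f g : X) (w : Om) : (f * g) w = f w * g w := rfl

@[simp] lemma X_smul (c : ℂ) (g : X) (w : Om) : (c • g) w = c * g w := rfl

@[simp] lemma X_one (w : Om) : (1 : X) w = 1 := rfl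

@[simp] lemma X_zero (w : Om) : (0 : X) w = 0 := rfl

@[simp] lemma X_alg (c : ℂ) (w : Om) : (algebraMap ℂ X c) w = c := by
  rw [Algebra.algebraMap_eq_smul_one, X_smul, X_one, mul_one]

lemma X_le (f : X) (w : Om) : ‖f w‖ ≤ ‖f‖ := norm_coe_le_norm (show Om →ᵇ ℂ from f) w

lemma X_norm_le (f : X) {C : ℝ} (h : ∀ w, ‖f w‖ ≤ C) : ‖f‖ ≤ C :=
  (norm_le (f := show Om →ᵇ ℂ from f) ((norm_nonneg _).trans (h (il m1)))).2 h

lemma X_cont (w : Om) : Continuous fun f : X => f w :=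
  (continuous_eval_const w : Continuous fun f : Om →ᵇ ℂ => f w)

def mk (f : Om → ℂ) (C : ℝ) (h : ∀ w, ‖f w‖ ≤ C) : X := ofNormedAddCommGroupDiscrete f C h

@[simp] lemma mk_apply (f C h) (w : Om) : mk f C h w = f w := rfl

def cs {β : Type} (f : Y → β) (g : Bd × ℤ → β) : Om → β := Sum.elim f g

@[simp] lemma cs_il {β : Type} (f : Y → β) (g : Bd × ℤ → β) (z : Y) : cs f g (il z) = f z := rfl

@[simp] lemma cs_ir {β : Type} (f : Y → β) (g : Bd × ℤ → β) (p : Bd × ℤ) :
    cs f g (ir p) = g p := rfl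

@[elab_as_elim]
lemma Om_ind {P : Om → Prop} (h1 : ∀ z, P (il z)) (h2 : ∀ p, P (ir p)) (w : Om) : P w := by
  rcases w with z | p
  · exact h1 z
  · exact h2 p

def sh (k : Bd → ℤ) : Om → Om := cs il fun p => ir (p.1, p.2 + k p.1)

@[simp] lemma sh_il (k : Bd → ℤ) (z : Y) : sh k (il z) = il z := rfl

@[simp] lemma sh_ir (k : Bd → ℤ) (p : Bd × ℤ) : sh k (ir p) = ir (p.1, p.2 + k p.1) := rfl

def wc (u : Om → ℂ) (φ : Om → Om) (C : ℝ) (hu : ∀ w, ‖u w‖ ≤ C) : X →L[ℂ] X :=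
  LinearMap.mkContinuous
    { toFun := fun f => mk (fun w => u w * f (φ w)) (C * ‖f‖)
        fun w => by
          rw [norm_mul]
          exact mul_le_mul (hu w) (X_le f _) (norm_nonneg _)
            ((norm_nonneg _).trans (hu w))
      map_add' := fun f g => by ext w; simp [mul_add]
      map_smul' := fun c f => by ext w; simp [mul_left_comm] } C fun f => by
    have h0 : 0 ≤ C := (norm_nonneg _).trans (hu (il m1))
    refine X_norm_le _ fun w => ?_
    change ‖u w * f (φ w)‖ ≤ _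
    rw [norm_mul]
    exact mul_le_mul (hu w) (X_le f _) (norm_nonneg _) h0

@[simp] lemma wc_apply (u φ C hu) (f : X) (w : Om) : wc u φ C hu f w = u w * f (φ w) := rfl

lemma wc_norm (u φ C hu) : ‖wc u φ C hu‖ ≤ C :=
  LinearMap.mkContinuous_norm_le _ ((norm_nonneg _).trans (hu (il m1))) _

lemma Y_ne (z : Y) : (z : ℂ) ≠ 0 := norm_pos_iff.1 (by linarith [z.2.1])

lemma Bd_le (z : Bd) : 1 / 2 ≤ ‖(z : ℂ)‖ ∧ ‖(z : ℂ)‖ ≤ 2 := by
  rcases z.2 with h | h <;> rw [h] <;> norm_num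

lemma Bd_ne (z : Bd) : (z : ℂ) ≠ 0 := norm_pos_iff.1 (by linarith [(Bd_le z).1])

def U : (X →L[ℂ] X)ˣ where
  val := wc (cs (fun z => (‖(z : ℂ)‖ : ℂ) / z) fun _ => 1) (sh fun _ => 1) 1
    (Om_ind (fun z => by simp [div_self_le_one]) fun p => by simp)
  inv := wc (cs (fun z => (z : ℂ) / (‖(z : ℂ)‖ : ℂ)) fun _ => 1) (sh fun _ => -1) 1
    (Om_ind (fun z => by simp [div_self_le_one]) fun p => by simp)
  val_inv := by
    ext f w
    refine Om_ind (fun z => ?_) (fun p => by simp) w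
    have := Y_ne z
    have h2 : (‖(z : ℂ)‖ : ℂ) ≠ 0 := by simpa using this
    simp only [ContinuousLinearMap.mul_apply, wc_apply, cs_il, sh_il,
      ContinuousLinearMap.one_apply]
    field_simp
  inv_val := by
    ext f w
    refine Om_ind (fun z => ?_) (fun p => by simp) w
    have := Y_ne z
    have h2 : (‖(z : ℂ)‖ : ℂ) ≠ 0 := by simpa using this
    simp only [ContinuousLinearMap.mul_apply, wc_apply, cs_il, sh_il,
      ContinuousLinearMap.one_apply]
    field_simp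

lemma U_norm : ‖U.val‖ ≤ 1 ∧ ‖U.inv‖ ≤ 1 := by
  unfold U
  dsimp only
  constructor <;> apply wc_norm

lemma U_spec : spectrum ℂ U.val ⊆ Metric.sphere (0 : ℂ) 1 := by
  intro μ hμ
  have h1 : ‖μ‖ ≤ 1 := (spectrum.norm_le_norm_of_mem hμ).trans U_norm.1
  have h0 : μ ≠ 0 := by
    rintro rfl
    exact spectrum.zero_notMem ℂ U.isUnit hμ
  have h2 : ‖μ⁻¹‖ ≤ 1 := by
    have := (spectrum.inv_mem_iff (r := Units.mk0 μ h0) (a := U)).1 hμ
    simpa using (spectrum.norm_le_norm_of_mem this).trans U_norm.2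
  rw [norm_inv, inv_le_one₀ (norm_pos_iff.2 h0)] at h2
  simpa using le_antisymm h1 h2

def Mu : X →ₐ[ℂ] (X →L[ℂ] X) where
  toFun f := ContinuousLinearMap.mul ℂ X f
  map_one' := by ext g w; simp
  map_mul' f g := by ext h w; simp [mul_assoc]
  map_zero' := by ext g w; simp
  map_add' f g := by ext h w; simp
  commutes' c := by ext g w; simp

@[simp] lemma Mu_apply (f g : X) (w : Om) : Mu f g w = f w * g w := rfl

lemma Mu_norm (f : X) : ‖Mu f‖ = ‖f‖ := ContinuousLinearMap.opNorm_mul_apply ℂ X f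

def za : Om → ℂ := cs (fun z => z) fun p => p.1

lemma za_le (w : Om) : 1 / 2 ≤ ‖za w‖ ∧ ‖za w‖ ≤ 2 :=
  Om_ind (P := fun w => 1 / 2 ≤ ‖za w‖ ∧ ‖za w‖ ≤ 2) (fun z => z.2) (fun p => Bd_le p.1) w

def fa : X := mk za 2 fun w => (za_le w).2

lemma fi_le (w : Om) : ‖(za w)⁻¹‖ ≤ 2 := by
  rw [norm_inv]
  exact inv_le_of_inv_le₀ (by norm_num) (by simpa using (za_le w).1)

def fi : X := mk (fun w => (za w)⁻¹) 2 fi_le

open Classical in
def fe (p : Bd × ℤ) : X :=
  mk (fun w => if w = ir p then 1 else 0) 1 fun w => by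
    split_ifs <;> simp

lemma fe_self (p : Bd × ℤ) : fe p (ir p) = 1 := if_pos rfl

lemma fe_ne {p : Bd × ℤ} {w : Om} (h : w ≠ ir p) : fe p w = 0 := if_neg h

lemma fe_il (p : Bd × ℤ) (z : Y) : fe p (il z) = 0 := fe_ne Sum.inl_ne_inr

lemma fe_mul (p : Bd × ℤ) (f : X) : fe p * f = f (ir p) • fe p := by
  ext w
  by_cases h : w = ir p
  · simp [h, fe_self]
  · simp [fe_ne h]

def gens : Set X := {fa, fi} ∪ Set.range fe

def AA : Subalgebra ℂ X := (Algebra.adjoin ℂ gens).topologicalClosure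

lemma AA_closed : IsClosed (AA : Set X) := Subalgebra.isClosed_topologicalClosure _

lemma gens_mem {f : X} (h : f ∈ gens) : f ∈ AA :=
  Subalgebra.le_topologicalClosure _ (Algebra.subset_adjoin h)

lemma fa_mem : fa ∈ AA := gens_mem (Or.inl (Or.inl rfl))

lemma fi_mem : fi ∈ AA := gens_mem (Or.inl (Or.inr rfl))

lemma fe_mem (p : Bd × ℤ) : fe p ∈ AA := gens_mem (Or.inr ⟨p, rfl⟩)

lemma AA_le (B : Subalgebra ℂ X) (hB : IsClosed (B : Set X)) (h1 : fa ∈ B) (h2 : fi ∈ B)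
    (h3 : ∀ p, fe p ∈ B) : AA ≤ B :=
  Subalgebra.topologicalClosure_minimal (Algebra.adjoin_le (by
    rintro _ ((rfl | rfl) | ⟨p, rfl⟩)
    exacts [h1, h2, h3 p])) hB

def Tk (k : ℤ) : X →ₐ[ℂ] X where
  toFun := wc (fun _ => 1) (sh fun _ => k) 1 (by simp)
  map_one' := by ext w; simp
  map_mul' f g := by ext w; simp
  map_zero' := by ext w; simp
  map_add' f g := by ext w; simp
  commutes' c := by ext w; simp

@[simp] lemma Tk_apply (k : ℤ) (f : X) (w : Om) : Tk k f w = f (sh (fun _ => k) w) :=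
  one_mul _

lemma Tk_mem (k : ℤ) (f : X) (hf : f ∈ AA) : Tk k f ∈ AA := by
  refine AA_le (AA.comap (Tk k)) (AA_closed.preimage
    (wc (fun _ => 1) (sh fun _ => k) 1 (by simp)).continuous) ?_ ?_ (fun p => ?_) hf
  · have : Tk k fa = fa := by
      ext w
      rw [Tk_apply]
      exact Om_ind (P := fun w => fa (sh (fun _ => k) w) = fa w) (fun _ => rfl) (fun _ => rfl) w
    rw [Subalgebra.mem_comap, this]
    exact fa_mem
  · have : Tk k fi = fi := by
      ext w
      rw [Tk_apply]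
      exact Om_ind (P := fun w => fi (sh (fun _ => k) w) = fi w) (fun _ => rfl) (fun _ => rfl) w
    rw [Subalgebra.mem_comap, this]
    exact fi_mem
  · have : Tk k (fe p) = fe (p.1, p.2 - k) := by
      ext w
      rw [Tk_apply]
      refine Om_ind (P := fun w => fe p (sh (fun _ => k) w) = fe (p.1, p.2 - k) w)
        (fun z => by simp [fe_il]) (fun q => ?_) w
      by_cases h : q = (p.1, p.2 - k)
      · simp [h, fe_self]
      · rw [fe_ne (w := ir q) fun h' => h (Sum.inr_injective h'), sh_ir, fe_ne]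
        intro h'
        apply h
        rw [← Sum.inr_injective h']
        simp
    rw [Subalgebra.mem_comap, this]
    exact fe_mem _

lemma U_conj (f : X) : U.val * Mu f * U.inv = Mu (Tk 1 f) := by
  have : U.val * Mu f = Mu (Tk 1 f) * U.val := by
    ext g w
    simp [U, mul_left_comm]
  rw [this, mul_assoc, U.val_inv, mul_one]

lemma U_conj' (f : X) : U.inv * Mu f * U.val = Mu (Tk (-1) f) := by
  have : U.inv * Mu f = Mu (Tk (-1) f) * U.inv := by
    ext g w
    simp [U, mul_left_comm]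
  rw [this, mul_assoc, U.inv_val, mul_one]

lemma U_pow_conj (n : ℕ) (f : X) : (U ^ n).val * Mu f * (U ^ n).inv = Mu (Tk n f) := by
  induction n with
  | zero =>
    have : Tk ((0 : ℕ) : ℤ) f = f := by
      ext w
      rw [Tk_apply]
      exact Om_ind (P := fun w => f (sh (fun _ => ((0 : ℕ) : ℤ)) w) = f w) (fun _ => rfl)
        (fun _ => by simp) w
    rw [this]
    simp
  | succ n ih =>
    have : Tk ((n + 1 : ℕ) : ℤ) f = Tk 1 (Tk n f) := by
      ext w
      simp only [Tk_apply]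
      exact Om_ind (P := fun w => f (sh (fun _ => ((n + 1 : ℕ) : ℤ)) w) =
        f (sh (fun _ => (n : ℤ)) (sh (fun _ => 1) w))) (fun _ => rfl)
        (fun _ => by simp only [sh_ir]; push_cast; rw [add_assoc, add_comm (1 : ℤ)]) w
    rw [this, ← U_conj, ← ih, pow_succ']
    simp only [Units.inv_eq_val_inv, mul_inv_rev, Units.val_mul, mul_assoc]

lemma char_eq (χ : AA →ₐ[ℂ] ℂ) (hχ : Continuous χ) : ∃ w, ∀ f : AA, χ f = (f : X) w := by
  have : CompleteSpace AA := AA_closed.completeSpace_coe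
  by_cases h : ∃ p, χ ⟨fe p, fe_mem p⟩ ≠ 0
  · obtain ⟨p, hp⟩ := h
    refine ⟨ir p, fun f => mul_left_cancel₀ hp ?_⟩
    rw [← map_mul, mul_comm (χ _), ← smul_eq_mul (α := ℂ), ← map_smul]
    congr 1
    exact Subtype.ext (fe_mul p f)
  push Not at h
  have hn : ∀ f : AA, ‖(f : X)‖ ≤ 2 → ‖χ f‖ ≤ 2 := fun f hf =>
    (AlgHom.norm_apply_le_self_mul_norm_one χ f).trans (by
      have : ‖(1 : AA)‖ = 1 := norm_one (α := X)
      rw [this, mul_one]
      exact hf)
  have h1 := hn ⟨fa, fa_mem⟩ (X_norm_le _ fun w => (za_le w).2)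
  have h2 := hn ⟨fi, fi_mem⟩ (X_norm_le _ fi_le)
  have h3 : χ ⟨fa, fa_mem⟩ * χ ⟨fi, fi_mem⟩ = 1 := by
    rw [← map_mul, ← map_one χ]
    congr 1
    ext w
    exact mul_inv_cancel₀ (a := za w) (norm_pos_iff.1 (by linarith [(za_le w).1]))
  have h4 := congrArg norm h3
  rw [norm_mul, norm_one] at h4
  set z : Y := ⟨χ ⟨fa, fa_mem⟩, by nlinarith [norm_nonneg (χ ⟨fa, fa_mem⟩)], h1⟩
  let ev : AA →ₐ[ℂ] ℂ :=
    { toFun := fun f => (f : X) (il z)
      map_one' := rfl
      map_mul' := fun _ _ => rfl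
      map_zero' := rfl
      map_add' := fun _ _ => rfl
      commutes' := fun c => by simp }
  let B : Subalgebra ℂ X := (AlgHom.equalizer χ ev).map AA.val
  have hB : IsClosed (B : Set X) := by
    refine AA_closed.isClosedEmbedding_subtypeVal.isClosedMap _ (isClosed_eq hχ ?_)
    exact (X_cont (il z)).comp continuous_subtype_val
  have := AA_le B hB ⟨⟨fa, fa_mem⟩, rfl, rfl⟩
    ⟨⟨fi, fi_mem⟩, (eq_inv_of_mul_eq_one_right h3 :), rfl⟩
    fun p => ⟨⟨fe p, fe_mem p⟩, (h p).trans (fe_il p z).symm, rfl⟩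
  refine ⟨il z, fun f => ?_⟩
  obtain ⟨g, hg, hgf⟩ := this f.2
  obtain rfl : g = f := Subtype.ext hgf
  exact hg

lemma max_mod (f : X) (hf : f ∈ AA) (C : ℝ) (hC : ∀ p, ‖f (ir p)‖ ≤ C) (w : Om) : ‖f w‖ ≤ C := by
  have poly : ∀ g ∈ Algebra.adjoin ℂ gens, ∃ G : ℂ → ℂ, DifferentiableOn ℂ G {0}ᶜ ∧
      (∀ z, g (il z) = G z) ∧ ∀ ζ : Bd, ∀ᶠ n in atTop, g (ir (ζ, n)) = G ζ := by
    intro g hg
    induction hg using Algebra.adjoin_induction with
    | mem x hx =>
      rcases hx with (rfl | rfl) | ⟨p, rfl⟩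
      · exact ⟨id, differentiableOn_id, fun _ => rfl, fun _ => Eventually.of_forall fun _ => rfl⟩
      · exact ⟨fun z => z⁻¹, differentiableOn_inv, fun _ => rfl,
          fun _ => Eventually.of_forall fun _ => rfl⟩
      · refine ⟨fun _ => 0, differentiableOn_const _, fe_il p, fun ζ => ?_⟩
        filter_upwards [eventually_gt_atTop p.2] with n hn
        exact fe_ne fun h => hn.ne' (congrArg Prod.snd (Sum.inr_injective h))
    | algebraMap r =>
      exact ⟨fun _ => r, differentiableOn_const _, by simp, by simp⟩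
    | add x y _ _ hx hy =>
      obtain ⟨G, h1, h2, h3⟩ := hx
      obtain ⟨G', h1', h2', h3'⟩ := hy
      refine ⟨G + G', h1.add h1', fun z => by simp [h2, h2'], fun ζ => ?_⟩
      filter_upwards [h3 ζ, h3' ζ] with n a b
      simp [a, b]
    | mul x y _ _ hx hy =>
      obtain ⟨G, h1, h2, h3⟩ := hx
      obtain ⟨G', h1', h2', h3'⟩ := hy
      refine ⟨G * G', h1.mul h1', fun z => by simp [h2, h2'], fun ζ => ?_⟩
      filter_upwards [h3 ζ, h3' ζ] with n a b
      simp [a, b]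
  refine Om_ind (P := fun w => ‖f w‖ ≤ C) (fun z => ?_) hC w
  refine le_of_forall_pos_le_add fun ε hε => ?_
  obtain ⟨g, hg, hd⟩ := Metric.mem_closure_iff.1 hf (ε / 2) (by linarith)
  have hfg : ∀ w, ‖f w - g w‖ ≤ ε / 2 := fun w => by
    rw [dist_eq_norm] at hd
    exact (X_le (f - g) w).trans hd.le
  obtain ⟨G, h1, h2, h3⟩ := poly g hg
  set K : Set ℂ := Metric.closedBall 0 2 ∩ (Metric.ball 0 (1 / 2))ᶜ with hK
  have hKc : IsClosed K := Metric.isClosed_closedBall.inter Metric.isOpen_ball.isClosed_compl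
  have h4 : ‖G z‖ ≤ C + ε / 2 := by
    refine Complex.norm_le_of_forall_mem_frontier_norm_le (U := K)
      (Metric.isBounded_closedBall.subset Set.inter_subset_left)
      (DifferentiableOn.diffContOnCl ?_) (fun ζ hζ => ?_) (subset_closure ?_)
    · rw [hKc.closure_eq]
      refine h1.mono fun y hy h0 => hy.2 ?_
      rw [Set.mem_singleton_iff.1 h0]
      simp
    · have hb : ‖ζ‖ = 1 / 2 ∨ ‖ζ‖ = 2 := by
        rcases frontier_inter_subset _ _ hζ with h | h
        · right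
          simpa using Metric.frontier_closedBall_subset_sphere h.1
        · left
          have := h.2
          rw [frontier_compl] at this
          simpa using Metric.frontier_ball_subset_sphere this
      obtain ⟨n, hn⟩ := (h3 ⟨ζ, hb⟩).exists
      rw [← hn]
      have a1 := hC (⟨ζ, hb⟩, n)
      have a2 := hfg (ir (⟨ζ, hb⟩, n))
      linarith [norm_le_insert (f (ir (⟨ζ, hb⟩, n))) (g (ir (⟨ζ, hb⟩, n)))]
    · exact ⟨by simpa using z.2.2, by simpa using z.2.1⟩
  have a2 := hfg (il z)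
  rw [← h2] at h4
  linarith [norm_le_insert' (f (il z)) (g (il z))]

def A : Subalgebra ℂ (X →L[ℂ] X) := AA.map Mu

lemma A_closed : IsClosed (A : Set (X →L[ℂ] X)) :=
  (AddMonoidHomClass.isometry_of_norm Mu Mu_norm).isClosedEmbedding.isClosedMap _ AA_closed

def ev (w : Om) : characterSpace ℂ A :=
  ⟨StrongDual.toWeakDual
    { toFun := fun b : A => (b : X →L[ℂ] X) 1 w
      map_add' := fun _ _ => rfl
      map_smul' := fun _ _ => rfl
      cont := (X_cont w).comp (by fun_prop) }, fun h => by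
      have : ((1 : A) : X →L[ℂ] X) 1 w = 0 := congrArg (fun φ : WeakDual ℂ A => φ 1) h
      simp at this, by
    rintro ⟨_, f, hf, rfl⟩ ⟨_, g, hg, rfl⟩
    change (Mu f * Mu g) 1 w = Mu f 1 w * Mu g 1 w
    simp⟩

def mA (f : X) (hf : f ∈ AA) : A := ⟨Mu f, f, hf, rfl⟩

lemma ev_apply (w : Om) (f : X) (hf : f ∈ AA) : ev w (mA f hf) = f w := mul_one _

lemma ev_cont (a : A) : Continuous fun χ : characterSpace ℂ A => χ a :=
  (WeakDual.eval_continuous a).comp continuous_subtype_val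

lemma eq_ev (χ : characterSpace ℂ A) (p : Bd × ℤ) (h : χ (mA _ (fe_mem p)) ≠ 0) :
    χ = ev (ir p) := by
  ext ⟨_, f, hf, rfl⟩
  change χ (mA f hf) = ev (ir p) (mA f hf)
  refine mul_left_cancel₀ h ?_
  rw [ev_apply, ← map_mul, mul_comm (χ _), ← smul_eq_mul (α := ℂ), ← map_smul]
  congr 1
  apply Subtype.ext
  change Mu _ * Mu _ = f (ir p) • Mu _
  rw [← map_mul, fe_mul, map_smul]

def II : Set (characterSpace ℂ A) := Set.range fun p => ev (ir p)

lemma II_open : IsOpen II := by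
  have : II = ⋃ p, {χ | χ (mA _ (fe_mem p)) ≠ 0} := by
    ext χ
    simp only [II, Set.mem_range, Set.mem_iUnion, Set.mem_setOf_eq]
    refine exists_congr fun p => ⟨?_, fun h => (eq_ev χ p h).symm⟩
    rintro rfl
    rw [ev_apply, fe_self]
    exact one_ne_zero
  rw [this]
  exact isOpen_iUnion fun p => isOpen_ne_fun (ev_cont _) continuous_const

lemma gen1 {B : Type} [NormedRing B] [NormedAlgebra ℂ B] [CompleteSpace B] :
    CompactSpace (characterSpace ℂ B) := inferInstance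

lemma gen2 {B : Type} [NormedRing B] [NormedAlgebra ℂ B] [CompleteSpace B]
    (ψ : characterSpace ℂ B) (a : B) : ‖ψ a‖ ≤ ‖a‖ * ‖(1 : B)‖ :=
  AlgHom.norm_apply_le_self_mul_norm_one ψ a

lemma II_bd (a : A) : ∃ χ ∈ closure II, ∀ ψ : characterSpace ℂ A, ‖ψ a‖ ≤ ‖χ a‖ := by
  have : CompleteSpace A := A_closed.completeSpace_coe
  have : CompactSpace (characterSpace ℂ A) := gen1 (B := A)
  obtain ⟨χ, hχ, hm⟩ := isClosed_closure.isCompact.exists_isMaxOn (s := closure II)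
    ⟨_, subset_closure ⟨(⟨2, by simp⟩, 0), rfl⟩⟩ (ev_cont a).norm.continuousOn
  refine ⟨χ, hχ, fun ψ => ?_⟩
  obtain ⟨_, f, hf, rfl⟩ := a
  refine (gen2 (B := A) ψ _).trans ?_
  have h1 : ‖(1 : A)‖ = 1 := norm_one (α := X →L[ℂ] X)
  rw [h1, mul_one]
  change ‖Mu f‖ ≤ _
  rw [Mu_norm]
  refine X_norm_le _ (max_mod f hf _ fun p => ?_)
  rw [← ev_apply _ f hf]
  exact hm (subset_closure ⟨p, rfl⟩)

lemma inv_closed (a : X →L[ℂ] X) (ha : a ∈ A) (hu : IsUnit a) : IsUnit (⟨a, ha⟩ : A) := by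
  have : CompleteSpace AA := AA_closed.completeSpace_coe
  obtain ⟨f, hf, rfl⟩ := ha
  have h1 : IsUnit (⟨f, hf⟩ : AA) := by
    by_contra hn
    obtain ⟨χ, hχ⟩ := CharacterSpace.exists_apply_eq_zero hn
    obtain ⟨w, hw⟩ := char_eq (CharacterSpace.toAlgHom χ) (map_continuous χ)
    have h0 : f w = 0 := (hw ⟨f, hf⟩).symm.trans hχ
    obtain ⟨b, hb⟩ := hu.exists_right_inv
    have : (Mu f * b) 1 w = (1 : X →L[ℂ] X) 1 w := congrArg (fun T : X →L[ℂ] X => T 1 w) hb
    simp [h0] at this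
  obtain ⟨g, hg⟩ := h1.exists_right_inv
  have hg' : f * g = 1 := congrArg Subtype.val hg
  refine ⟨⟨mA f hf, mA g g.2, Subtype.ext ?_, Subtype.ext ?_⟩, rfl⟩
  · change Mu _ * Mu _ = 1
    rw [← map_mul, hg', map_one]
  · change Mu _ * Mu _ = 1
    rw [← map_mul, mul_comm, hg', map_one]

open Classical in
def V : (X →L[ℂ] X)ˣ where
  val := wc (cs (fun z => -((‖(z : ℂ)‖ : ℂ) + 1)) fun p => if ‖(p.1 : ℂ)‖ = 2 then -p.1 else -1)
    (sh fun ζ => if ‖(ζ : ℂ)‖ = 2 then 1 else 0) 3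
    (Om_ind (fun z => by
        simp only [cs_il, norm_neg]
        refine (norm_add_le _ _).trans ?_
        simp only [Complex.norm_real, norm_norm, norm_one]
        linarith [z.2.2])
      fun p => by
        simp only [cs_ir]
        split_ifs with h
        · rw [norm_neg, h]; norm_num
        · simp)
  inv := wc (cs (fun z => -((‖(z : ℂ)‖ : ℂ) + 1)⁻¹)
      fun p => if ‖(p.1 : ℂ)‖ = 2 then -(p.1 : ℂ)⁻¹ else -1)
    (sh fun ζ => if ‖(ζ : ℂ)‖ = 2 then -1 else 0) 1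
    (Om_ind (fun z => by
        simp only [cs_il, norm_neg, norm_inv]
        refine inv_le_one_of_one_le₀ ?_
        rw [← Complex.ofReal_one, ← Complex.ofReal_add, Complex.norm_real,
          Real.norm_of_nonneg (by positivity)]
        linarith [norm_nonneg (z : ℂ)])
      fun p => by
        simp only [cs_ir]
        split_ifs with h
        · rw [norm_neg, norm_inv, h]; norm_num
        · simp)
  val_inv := by
    ext f w
    refine Om_ind (fun z => ?_) (fun p => ?_) w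
    · have h2 : (‖(z : ℂ)‖ : ℂ) + 1 ≠ 0 := by exact_mod_cast (by positivity)
      simp only [ContinuousLinearMap.mul_apply, wc_apply, cs_il, sh_il,
        ContinuousLinearMap.one_apply]
      field_simp
    · have := Bd_ne p.1
      by_cases h : ‖(p.1 : ℂ)‖ = 2 <;> simp [h, this]
  inv_val := by
    ext f w
    refine Om_ind (fun z => ?_) (fun p => ?_) w
    · have h2 : (‖(z : ℂ)‖ : ℂ) + 1 ≠ 0 := by exact_mod_cast (by positivity)
      simp only [ContinuousLinearMap.mul_apply, wc_apply, cs_il, sh_il,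
        ContinuousLinearMap.one_apply]
      field_simp
    · have := Bd_ne p.1
      by_cases h : ‖(p.1 : ℂ)‖ = 2 <;> simp [h, this]

open Classical in
def tt : X →L[ℂ] X :=
  wc (cs (fun _ => 0) fun p => if ‖(p.1 : ℂ)‖ = 2 then -(p.1 : ℂ)⁻¹ else -p.1)
    (sh fun ζ => if ‖(ζ : ℂ)‖ = 2 then -1 else 1) (1 / 2)
    (Om_ind (fun z => by simp) fun p => by
        simp only [cs_ir]
        split_ifs with h
        · rw [norm_neg, norm_inv, h]; norm_num
        · rw [norm_neg, p.1.2.resolve_right h])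

lemma not_spec : (-1 : ℂ) ∉ spectrum ℂ (Mu fa * U.val) := by
  rw [spectrum.notMem_iff]
  have h1 : ‖tt‖ < 1 := (wc_norm _ _ _ _).trans_lt (by norm_num)
  refine ⟨V * Units.oneSub tt h1, ?_⟩
  ext f w
  have e1 : ∀ z, fa (il z) = z := fun _ => rfl
  have e2 : ∀ p, fa (ir p) = p.1 := fun _ => rfl
  refine Om_ind (fun z => ?_) (fun p => ?_) w
  · have := Y_ne z
    simp [V, U, tt, e1, Algebra.algebraMap_eq_smul_one]
    field_simp
    ring
  · have := Bd_ne p.1
    by_cases h : ‖(p.1 : ℂ)‖ = 2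
    · simp [V, U, tt, e2, Algebra.algebraMap_eq_smul_one, h]
      field_simp
      ring
    · simp [V, U, tt, e2, Algebra.algebraMap_eq_smul_one, h]

end


/-- The negation of the preceding statement: For a closed commutative operator algebra A on a Banach space with ‖a²‖=‖a‖², and invertible U with UAU⁻¹=A, if periodic characters are meagre in the Shilov boundary, σ(U) lies in the unit circle, and A is inverse-closed, then σ(aU) on X equals the spectrum of b↦a·UbU⁻¹ on A. -/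
theorem result :
    ¬ (∀ (X : Type) [NormedAddCommGroup X] [NormedSpace ℂ X] [CompleteSpace X]
    (A : Subalgebra ℂ (X →L[ℂ] X)) (U : (X →L[ℂ] X)ˣ)
    (S : Set (WeakDual.characterSpace ℂ A)) (P : Set (WeakDual.characterSpace ℂ A)),
    IsClosed (A : Set (X →L[ℂ] X)) →
    (∀ a ∈ A, ∀ b ∈ A, a * b = b * a) →
    (∀ a ∈ A, ‖a * a‖ = ‖a‖ ^ 2) →
    (∀ a ∈ A, U.val * a * U.inv ∈ A) →
    (∀ a ∈ A, U.inv * a * U.val ∈ A) →
    S = ⋂₀ {K : Set (WeakDual.characterSpace ℂ A) | IsClosed K ∧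
          ∀ a : A, ∃ χ ∈ K, ∀ ψ : WeakDual.characterSpace ℂ A, ‖ψ a‖ ≤ ‖χ a‖} →
    P = {χ : WeakDual.characterSpace ℂ A | ∃ n : ℕ, 0 < n ∧
          ∀ (a : X →L[ℂ] X) (ha : a ∈ A) (b : X →L[ℂ] X) (hb : b ∈ A),
            b = (U ^ n).val * a * (U ^ n).inv → χ (⟨b, hb⟩ : A) = χ (⟨a, ha⟩ : A)} →
    IsMeagre {x : S | x.val ∈ P} →
    spectrum ℂ U.val ⊆ Metric.sphere (0 : ℂ) 1 →
    (∀ (a : X →L[ℂ] X) (ha : a ∈ A), IsUnit a → IsUnit (⟨a, ha⟩ : A)) →
    ∀ a ∈ A, ∀ μ : ℂ,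
      (μ ∈ spectrum ℂ (a * U.val) ↔
        ¬ ∀ c ∈ A, ∃! b, b ∈ A ∧ c = μ • b - a * (U.val * b * U.inv))) := by
  intro h
  refine not_spec ((h X A U _ _ A_closed ?_ ?_ ?_ ?_ rfl rfl ?_ U_spec inv_closed (Mu fa)
    ⟨fa, fa_mem, rfl⟩ (-1)).2 fun hc => ?_)
  · rintro _ ⟨f, -, rfl⟩ _ ⟨g, -, rfl⟩
    change Mu f * Mu g = Mu g * Mu f
    rw [← map_mul, ← map_mul, mul_comm]
  · rintro _ ⟨f, -, rfl⟩
    change ‖Mu f * Mu f‖ = ‖Mu f‖ ^ 2
    rw [← map_mul, Mu_norm, Mu_norm]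
    refine le_antisymm ((norm_mul_le _ _).trans_eq (sq _).symm) ?_
    rw [← Real.le_sqrt (norm_nonneg _) (norm_nonneg _)]
    refine X_norm_le _ fun w => ?_
    refine Real.le_sqrt_of_sq_le ?_
    rw [sq, ← norm_mul]
    exact X_le (f * f) w
  · rintro _ ⟨f, hf, rfl⟩
    exact ⟨_, Tk_mem 1 f hf, (U_conj f).symm⟩
  · rintro _ ⟨f, hf, rfl⟩
    exact ⟨_, Tk_mem (-1) f hf, (U_conj' f).symm⟩
  · refine Filter.mem_of_superset (residual_of_dense_open
      (II_open.preimage continuous_subtype_val) (Subtype.dense_iff.2 fun χ hχ => ?_)) ?_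
    · refine closure_mono ?_ (hχ _ ⟨isClosed_closure, II_bd⟩)
      rintro _ ⟨p, rfl⟩
      refine ⟨⟨ev (ir p), ?_⟩, ⟨p, rfl⟩, rfl⟩
      rintro K ⟨-, hK⟩
      obtain ⟨χ, h1, h2⟩ := hK (mA _ (fe_mem p))
      have h3 := h2 (ev (ir p))
      rw [ev_apply, fe_self, norm_one] at h3
      rwa [← eq_ev χ p (norm_pos_iff.1 (one_pos.trans_le h3))]
    · rintro ⟨_, hS⟩ ⟨p, rfl⟩ ⟨n, hn, hp⟩
      have := hp _ (mA _ (fe_mem p)).2 _ (mA _ (Tk_mem n _ (fe_mem p))).2 (U_pow_conj n _).symm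
      change ev (ir p) (mA _ (Tk_mem n _ (fe_mem p))) = ev (ir p) (mA _ (fe_mem p)) at this
      rw [ev_apply, ev_apply, fe_self, Tk_apply, sh_ir, fe_ne] at this
      · exact zero_ne_one this
      · intro h'
        have := congrArg Prod.snd (Sum.inr_injective h')
        simp only at this
        omega
  · obtain ⟨_, ⟨⟨g, -, rfl⟩, e⟩, -⟩ := hc 1 A.one_mem
    change 1 = (-1 : ℂ) • Mu g - Mu fa * (U.val * Mu g * U.inv) at e
    rw [U_conj] at e
    have := congrArg (fun T : X →L[ℂ] X => T 1 (il m1)) e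
    have e1 : fa (il m1) = -1 := rfl
    simp [e1] at this

end Pool.Agent.S04566
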