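import Pool.Statements.S04585
import Pool.Agent.H26.Tsi

set_option autoImplicit false
open MeasureTheory Filter Topology
open Pool Pool.MP_4a5259_an

namespace Pool.Agent.S04585

open Pool.Agent.H26.Tsi
open scoped ENNReal

lemma count (p : ℕ → ℕ) (hp : Monotone p) (hk : ∀ k, k ≤ p k) (y : Y) (s : ℝ) (n : ℕ)
    (hn : 0 < n) (hs : 2 * ‖y‖ ≤ n * s) (F : Finset ℕ)
    (hF : ∀ k ∈ F, s < ‖pr (Set.Ico (p k) (p (k + 1))) y‖) : F.card ≤ 2 * n := by
  have h1 : (F.filter fun k => k < n).card ≤ n := by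
    refine (Finset.card_le_card fun k hk => ?_).trans (Finset.card_range n).le
    exact Finset.mem_range.2 (Finset.mem_filter.1 hk).2
  have h2 : (F.filter fun k => ¬ k < n).card ≤ n := by
    by_contra hc
    obtain ⟨S, hS, hS'⟩ := Finset.exists_subset_card_eq (not_le.1 hc).le
    have h3 := lower S p hp (fun j hj => by
      have := (Finset.mem_filter.1 (hS hj)).2
      have := hk j
      omega) y
    have h4 := Finset.sum_lt_sum_of_nonempty (Finset.card_pos.1 (by omega : 0 < S.card))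
      fun j hj => hF j (Finset.mem_filter.1 (hS hj)).1
    rw [Finset.sum_const, hS', nsmul_eq_mul] at h4
    linarith
  have := Finset.card_filter_add_card_filter_not (s := F) fun k => k < n
  omega

lemma dyad (x : ℝ) (hx : 0 ≤ x) (J : ℕ) :
    ∑ j ∈ Finset.range J, (if (2 : ℝ) ^ j < x then (2 : ℝ) ^ j else 0) ≤ 2 ^ J ∧
    ∑ j ∈ Finset.range J, (if (2 : ℝ) ^ j < x then (2 : ℝ) ^ j else 0) ≤ 2 * x := by
  induction J with
  | zero => simp [hx]
  | succ J ih =>
    rw [Finset.sum_range_succ, pow_succ]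
    have : (0 : ℝ) < 2 ^ J := by positivity
    split_ifs with h <;> constructor <;> linarith [ih.1, ih.2]

lemma layer {X : Type} [NormedAddCommGroup X] (μ : Measure ℝ) (f : ℝ → X)
    (hf : StronglyMeasurable f) (J : ℕ) :
    ∑ j ∈ Finset.range J, 2 ^ j * μ {t | (2 : ℝ) ^ j < ‖f t‖} ≤ 2 * eLpNorm f 1 μ := by
  have hm : ∀ j : ℕ, MeasurableSet {t | (2 : ℝ) ^ j < ‖f t‖} :=
    fun j => measurableSet_lt measurable_const hf.norm.measurable
  rw [eLpNorm_one_eq_lintegral_enorm, ← lintegral_const_mul' _ _ (by simp)]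
  simp only [← lintegral_indicator_const (hm _)]
  rw [← lintegral_finsetSum _ fun j _ => measurable_const.indicator (hm j)]
  refine lintegral_mono fun t => ?_
  have := ENNReal.ofReal_le_ofReal (dyad ‖f t‖ (norm_nonneg _) J).2
  rw [ENNReal.ofReal_sum_of_nonneg (fun j _ => by positivity), ENNReal.ofReal_mul zero_le_two,
    ofReal_norm_eq_enorm, ENNReal.ofReal_ofNat] at this
  refine le_trans (le_of_eq (Finset.sum_congr rfl fun j _ => ?_)) this
  simp only [Set.indicator_apply, Set.mem_ofPred_eq]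
  split_ifs
  · rw [ENNReal.ofReal_pow zero_le_two, ENNReal.ofReal_ofNat]
  · simp

lemma sg_norm (i : ℕ) : ‖ev (sg i)‖ ≤ 1 :=
  ContinuousLinearMap.opNorm_le_bound _ zero_le_one fun y => by
    rw [one_mul, Real.norm_eq_abs]; exact ev_abs _ _

lemma geo_fin (c : ℝ≥0∞) (hc : c ≠ ⊤) : ∑' k : ℕ, c * 2⁻¹ ^ k ≠ ⊤ := by
  rw [ENNReal.tsum_mul_left, ENNReal.tsum_geometric_two]
  exact ENNReal.mul_ne_top hc (by simp)


/-- Some reflexive infinite-dimensional real Banach space X has this property: every L^1-bounded sequence of strongly measurable f_n:[0,1]→X that tends scalarly to 0 in measure has a subsequence tending scalarly to 0 almost everywhere. -/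
theorem result :
    ∃ (X : Type) (_ : NormedAddCommGroup X) (_ : NormedSpace ℝ X) (_ : CompleteSpace X),
      Function.Surjective (NormedSpace.inclusionInDoubleDual ℝ X) ∧
      ¬ FiniteDimensional ℝ X ∧
      ∀ f : ℕ → ℝ → X,
        (∀ n, StronglyMeasurable (f n)) →
        (∃ C : NNReal, ∀ n, eLpNorm (f n) 1 (volume.restrict (Set.Icc (0 : ℝ) 1)) ≤ (C : ENNReal)) →
        (∀ φ : StrongDual ℝ X,
          TendstoInMeasure (volume.restrict (Set.Icc (0 : ℝ) 1))
            (fun n t => φ (f n t)) atTop (fun _ => (0 : ℝ))) →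
        ∃ g : ℕ → ℕ, StrictMono g ∧
          ∀ φ : StrongDual ℝ X,
            ∀ᵐ t ∂(volume.restrict (Set.Icc (0 : ℝ) 1)),
              Tendsto (fun k => φ (f (g k) t)) atTop (𝓝 0) := by
  refine ⟨Y →L[ℝ] ℝ, inferInstance, inferInstance, inferInstance, fun Ψ => ?_, fun hf => ?_, ?_⟩
  · refine ⟨Ψ.comp (NormedSpace.inclusionInDoubleDual ℝ Y), ?_⟩
    ext ξ
    obtain ⟨y, hy⟩ := refl_Y ξ
    have : ξ = NormedSpace.inclusionInDoubleDual ℝ Y y := by
      ext φ; exact hy φ
    rw [NormedSpace.dual_def, hy, this]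
    rfl
  · have : LinearIndependent ℝ fun i => ev (sg i) :=
      LinearIndependent.of_pairwise_dual_eq_zero_one _
        (fun i => (NormedSpace.inclusionInDoubleDual ℝ Y (e i)).toLinearMap)
        (fun i j hij => by simp [NormedSpace.dual_def, ev_e, sg, hij])
        (fun i => by simp [NormedSpace.dual_def, ev_e, sg])
    exact not_finite_iff_infinite.2 inferInstance this.finite
  rintro f hf ⟨C, hC⟩ hs
  set μ : Measure ℝ := volume.restrict (Set.Icc (0 : ℝ) 1) with hμ
  have : IsProbabilityMeasure μ := ⟨by simp [hμ]⟩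
  let m : ℕ → ℕ → ℝ≥0∞ := fun n j => μ {t | (2 : ℝ) ^ j < ‖f n t‖}
  have hm1 : ∀ n J, ∑ j ∈ Finset.range J, 2 ^ j * m n j ≤ 2 * C :=
    fun n J => (layer μ (f n) (hf n) J).trans (by gcongr; exact hC n)
  let β : ℕ → ℝ≥0∞ := fun j => ((hyperfilter ℕ).map fun n => m n j).lim
  have hβ : ∀ j, Tendsto (fun n => m n j) (hyperfilter ℕ) (𝓝 (β j)) :=
    fun j => Ultrafilter.le_nhds_lim ((hyperfilter ℕ).map fun n => m n j)
  have hβ1 : ∀ j, β j ≠ ⊤ := fun j =>
    ((le_of_tendsto' (hβ j) fun n => prob_le_one).trans_lt ENNReal.one_lt_top).ne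
  have hβ2 : ∑' j, 2 ^ j * β j ≤ 2 * C := ENNReal.tsum_le_of_sum_range_le fun J =>
    le_of_tendsto' (tendsto_finsetSum _ fun j _ =>
      ENNReal.Tendsto.const_mul (hβ j) (Or.inr (by simp))) fun n => hm1 n J
  have hle : (hyperfilter ℕ : Filter ℕ) ≤ atTop := Nat.hyperfilter_le_atTop
  have hpos : ∀ k : ℕ, (0 : ℝ≥0∞) < 2⁻¹ ^ k := fun k => ENNReal.pow_pos (by simp) k
  have hB : ∀ (p : ℕ) (ε : ℝ), 0 < ε → Tendsto
      (fun n => μ {t | ε ≤ ‖(f n t).comp (pr (Set.Iio p))‖}) atTop (𝓝 0) := by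
    intro p ε hε
    have h1 := tendsto_finsetSum (Finset.range p) fun i _ => tendstoInMeasure_iff_norm.1
      (hs (NormedSpace.inclusionInDoubleDual ℝ Y (e i))) (ε / (p + 1)) (by positivity)
    rw [Finset.sum_const_zero] at h1
    refine tendsto_of_tendsto_of_tendsto_of_le_of_le tendsto_const_nhds h1 (fun _ => zero_le)
      fun n => le_trans (measure_mono fun t ht => ?_) (measure_biUnion_finset_le _ _)
    by_contra hc
    simp only [Set.mem_iUnion, Set.mem_ofPred_eq, sub_zero, NormedSpace.dual_def, not_exists,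
      not_le] at hc ht
    rw [comp_pr] at ht
    have h2 := ht.trans ((norm_sum_le _ _).trans (Finset.sum_le_sum (g := fun _ => ε / (p + 1))
      fun i hi => by
        rw [norm_smul]
        exact (mul_le_of_le_one_right (norm_nonneg _) (sg_norm i)).trans (hc i hi).le))
    rw [Finset.sum_const, Finset.card_range, nsmul_eq_mul, ← mul_div_assoc,
      le_div_iff₀ (by positivity)] at h2
    nlinarith
  have hD : ∀ (n : ℕ) (ε : ℝ), 0 < ε → Tendsto
      (fun p => μ {t | ε ≤ ‖(f n t).comp (pr (Set.Iio p)) - f n t‖}) atTop (𝓝 0) := by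
    intro n
    refine tendstoInMeasure_iff_norm.1 (tendstoInMeasure_of_tendsto_ae (fun p => ?_)
      (Eventually.of_forall fun t => shrink (f n t)))
    exact ((continuous_id.clm_comp continuous_const).comp_stronglyMeasurable
      (hf n)).aestronglyMeasurable
  have step : ∀ (k : ℕ) (q : ℕ × ℕ), ∃ q' : ℕ × ℕ, q.1 < q'.1 ∧ q.2 < q'.2 ∧
      (∀ j ∈ Finset.range (k + 1), m q'.1 j ≤ β j + 2⁻¹ ^ k) ∧
      μ {t | (1 / 2 : ℝ) ^ k ≤ ‖(f q'.1 t).comp (pr (Set.Iio q.2))‖} ≤ 2⁻¹ ^ k ∧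
      μ {t | (1 / 2 : ℝ) ^ k ≤ ‖(f q'.1 t).comp (pr (Set.Iio q'.2)) - f q'.1 t‖} ≤ 2⁻¹ ^ k := by
    intro k q
    have h1 : ∀ᶠ n in (hyperfilter ℕ : Filter ℕ), ∀ j ∈ Finset.range (k + 1),
        m n j ≤ β j + 2⁻¹ ^ k := (eventually_all_finset _).2 fun j _ =>
      ((hβ j).eventually (gt_mem_nhds (ENNReal.lt_add_right (hβ1 j) (hpos k).ne'))).mono
        fun n hn => hn.le
    have h2 := ENNReal.tendsto_nhds_zero.1 (hB q.2 ((1 / 2 : ℝ) ^ k) (by positivity)) _ (hpos k)
    obtain ⟨n, h3, h4, h5⟩ := (h1.and (hle (h2.and (eventually_gt_atTop q.1)))).exists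
    obtain ⟨p, h6, h7⟩ := ((ENNReal.tendsto_nhds_zero.1 (hD n ((1 / 2 : ℝ) ^ k) (by positivity)) _
      (hpos k)).and (eventually_gt_atTop q.2)).exists
    exact ⟨(n, p), h5, h7, h3, h4, h6⟩
  choose nx h1 h2 h3 h4 h5 using step
  let st : ℕ → ℕ × ℕ := fun k => Nat.rec (0, 0) nx k
  have hst : ∀ k, st (k + 1) = nx k (st k) := fun _ => rfl
  let g : ℕ → ℕ := fun k => (st (k + 1)).1
  let p : ℕ → ℕ := fun k => (st k).2
  have hp : StrictMono p := strictMono_nat_of_lt_succ fun k => h2 k (st k)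
  refine ⟨g, strictMono_nat_of_lt_succ fun k => h1 (k + 1) (st (k + 1)), fun ξ => ?_⟩
  have hm2 : ∀ k j, m (g k) j ≤ β j + (1 + 2 * C) * 2⁻¹ ^ k := by
    intro k j
    by_cases hj : j ≤ k
    · refine (h3 k (st k) j (Finset.mem_range.2 (by omega))).trans ?_
      gcongr
      exact le_mul_of_one_le_left zero_le le_self_add
    · have a1 : m (g k) j ≤ m (g k) k := measure_mono fun t ht =>
        show (2 : ℝ) ^ k < _ from lt_of_le_of_lt (pow_le_pow_right₀ one_le_two (not_le.1 hj).le) ht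
      have a2 : 2 ^ k * m (g k) k ≤ 2 * C := le_trans (Finset.single_le_sum
        (f := fun j => 2 ^ j * m (g k) j) (fun _ _ => zero_le)
        (Finset.self_mem_range_succ k)) (hm1 _ _)
      have a3 : m (g k) k = 2 ^ k * m (g k) k * 2⁻¹ ^ k := by
        rw [mul_right_comm, ← mul_pow, ENNReal.mul_inv_cancel (by simp) (by simp), one_pow, one_mul]
      refine a1.trans (le_trans ?_ le_add_self)
      rw [a3]
      gcongr
      exact a2.trans le_add_self
  have key : ∀ y : Y, ∀ᵐ t ∂μ, ∀ᶠ k in atTop,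
      ‖f (g k) t‖ * ‖pr (Set.Ico (p k) (p (k + 1))) y‖ ≤ 1 := by
    intro y
    set a : ℕ → ℝ := fun k => ‖pr (Set.Ico (p k) (p (k + 1))) y‖ with ha
    obtain ⟨L, hL⟩ := exists_nat_gt (2 * ‖y‖)
    have hL0 : 0 < L := by exact_mod_cast (lt_of_le_of_lt (by positivity) hL : (0 : ℝ) < L)
    have c1 : ∀ᶠ k in atTop, a k ≤ 1 := by
      rw [← Nat.cofinite_eq_atTop, eventually_cofinite]
      by_contra hc
      obtain ⟨F, hF, hF'⟩ := Set.Infinite.exists_subset_card_eq hc (2 * L + 1)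
      have := count p hp.monotone hp.id_le y 1 L hL0 (by linarith) F
        fun k hk => not_le.1 (hF hk)
      omega
    have c2 : ∀ j, ∑' k, (if (1 / 2 : ℝ) ^ (j + 1) < a k then β j else 0) ≤
        4 * L * (2 ^ j * β j) := fun j => ENNReal.tsum_le_of_sum_range_le fun K => by
      rw [← Finset.sum_filter, Finset.sum_const, nsmul_eq_mul, ← mul_assoc]
      gcongr
      have := count p hp.monotone hp.id_le y ((1 / 2 : ℝ) ^ (j + 1)) (L * 2 ^ (j + 1))
        (by positivity) (by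
          push_cast
          rw [mul_assoc, ← mul_pow]
          norm_num
          exact hL.le) _ fun k hk => (Finset.mem_filter.1 hk : k ∈ Finset.range K ∧ _).2
      have e : 2 * (L * 2 ^ (j + 1)) = 4 * L * 2 ^ j := by ring
      rw [e] at this
      exact_mod_cast this
    have c3 : ∀ k, μ {t | a k ≤ 1 ∧ 1 < ‖f (g k) t‖ * a k} ≤
        (∑' j, if (1 / 2 : ℝ) ^ (j + 1) < a k then β j else 0) + (1 + 2 * C) * 2⁻¹ ^ k := by
      intro k
      by_cases hk : 0 < a k ∧ a k ≤ 1
      · obtain ⟨j, hj1, hj2⟩ := exists_nat_pow_near_of_lt_one hk.1 hk.2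
          (by norm_num : (0 : ℝ) < 1 / 2) (by norm_num)
        refine le_trans (measure_mono fun t ht => ?_) ((hm2 k j).trans ?_)
        · have b1 := ht.2.trans_le (mul_le_mul_of_nonneg_left hj2 (norm_nonneg _))
          rw [one_div, inv_pow, ← div_eq_mul_inv, lt_div_iff₀ (by positivity), one_mul] at b1
          exact b1
        · gcongr
          refine le_trans ?_ (ENNReal.le_tsum j)
          rw [if_pos hj1]
      · refine le_trans (le_of_eq (measure_mono_null (fun t ht => ?_) measure_empty)) zero_le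
        refine hk ⟨lt_of_le_of_ne (norm_nonneg _) fun h0 => ?_, ht.1⟩
        have := ht.2
        rw [← h0, mul_zero] at this
        linarith
    have c4 : ∑' k, μ {t | a k ≤ 1 ∧ 1 < ‖f (g k) t‖ * a k} ≠ ⊤ := by
      refine ne_top_of_le_ne_top ?_ (ENNReal.tsum_le_tsum c3)
      rw [ENNReal.tsum_add, ENNReal.tsum_comm]
      refine ENNReal.add_ne_top.2 ⟨ne_top_of_le_ne_top ?_ (ENNReal.tsum_le_tsum c2),
        geo_fin _ (by finiteness)⟩
      rw [ENNReal.tsum_mul_left]
      exact ENNReal.mul_ne_top (by finiteness) (ne_top_of_le_ne_top (by finiteness) hβ2)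
    filter_upwards [ae_eventually_notMem c4] with t ht
    filter_upwards [ht, c1] with k h6 h7
    exact not_lt.1 fun h8 => h6 ⟨h7, h8⟩
  obtain ⟨y, hy⟩ := refl_Y ξ
  have g1 := geo_fin 1 (by simp)
  simp only [one_mul] at g1
  have d1 := ae_eventually_notMem (ne_top_of_le_ne_top g1
    (ENNReal.tsum_le_tsum fun k => h4 k (st k)))
  have d2 := ae_eventually_notMem (ne_top_of_le_ne_top g1
    (ENNReal.tsum_le_tsum fun k => h5 k (st k)))
  filter_upwards [d1, d2, ae_all_iff.2 fun l : ℕ => key (((l : ℝ) + 1) • y)] with t t1 t2 t3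
  have t4 : Tendsto (fun k => ‖f (g k) t‖ * ‖pr (Set.Ico (p k) (p (k + 1))) y‖) atTop (𝓝 0) := by
    rw [Metric.tendsto_nhds]
    intro ε hε
    obtain ⟨l, hl⟩ := exists_nat_one_div_lt hε
    filter_upwards [t3 l] with k hk
    rw [dist_zero_right, Real.norm_of_nonneg (by positivity)]
    refine lt_of_le_of_lt ?_ hl
    rw [map_smul, norm_smul, Real.norm_of_nonneg (by positivity)] at hk
    rw [le_div_iff₀ (by positivity)]
    linarith
  have t5 : Tendsto (fun k : ℕ => (1 / 2 : ℝ) ^ k * ‖y‖) atTop (𝓝 0) := by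
    simpa using (tendsto_pow_atTop_nhds_zero_of_lt_one (r := (1 / 2 : ℝ)) (by norm_num)
      (by norm_num)).mul_const ‖y‖
  refine squeeze_zero_norm' ?_ (by simpa using (t5.add t4).add t5)
  filter_upwards [t1, t2] with k k1 k2
  simp only [not_le] at k1 k2
  set φ := f (g k) t with hφ
  have e1 : ξ φ = φ.comp (pr (Set.Iio (p k))) y + φ (pr (Set.Ico (p k) (p (k + 1))) y) -
      (φ.comp (pr (Set.Iio (p (k + 1)))) - φ) y := by
    rw [hy, pr_Ico (hp.monotone (Nat.le_succ k))]
    simp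
  have e2 := ((φ.comp (pr (Set.Iio (p k)))).le_opNorm y).trans
    (mul_le_mul_of_nonneg_right k1.le (norm_nonneg _))
  have e3 := ((φ.comp (pr (Set.Iio (p (k + 1)))) - φ).le_opNorm y).trans
    (mul_le_mul_of_nonneg_right k2.le (norm_nonneg _))
  have e4 := φ.le_opNorm (pr (Set.Ico (p k) (p (k + 1))) y)
  rw [e1]
  refine (norm_sub_le _ _).trans (add_le_add ((norm_add_le _ _).trans (add_le_add ?_ e4)) ?_)
  · simpa using e2
  · simpa using e3

end Pool.Agent.S04585
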