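import Pool.Statements.S04624

set_option autoImplicit false
open MeasureTheory
open Pool Pool.MP_4d58d7_an

namespace Pool.Agent.S04624

lemma gap {C ε s t : ℝ} (h : C * ε ≤ 1 / 100000) (hs : 1 + 1 / 10201 ≤ s) (ht : t = 1) :
    ¬ √s ≤ (1 + C * ε) * √t := by
  rw [ht, Real.sqrt_one, mul_one, not_le]
  refine Real.lt_sqrt_of_sq_lt (lt_of_lt_of_le ?_ hs) |> fun h' => lt_of_le_of_lt
    (show 1 + C * ε ≤ 1 + 1 / 100000 by linarith) h'
  norm_num

/-- The negation of the preceding statement: There are constants C and c₀>0 such that, for any isotropic n×k random matrix Ω that is a dimension-d OSI with injectivity 1−ε and failure 0.01, sketch-and-solve has error at most (1+Cε)·OPT with probability at least c₀. -/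
theorem result :
    ¬ (∃ C : ℝ, ∃ c₀ : ℝ, 0 < c₀ ∧
    ∀ (n d p k : ℕ), 0 < n → 0 < d → 0 < p → 0 < k →
    ∀ ε : ℝ, 0 < ε → ε < 1 →
    ∀ (A : Matrix (Fin n) (Fin d) ℝ), A.rank = d →
    ∀ (B : Matrix (Fin n) (Fin p) ℝ),
    ∀ (μ : Measure (Fin n → Fin k → ℝ)) [IsProbabilityMeasure μ],
      (∀ x : Fin n → ℝ, ∫ ω, (∑ j, (∑ i, ω i j * x i) ^ 2) ∂μ = ∑ i, x i ^ 2) →
      (∀ V : Submodule ℝ (Fin n → ℝ), Module.finrank ℝ V = d →
         ENNReal.ofReal (99 / 100) ≤
           μ {ω | ∀ x ∈ V, (1 - ε) * ∑ i, x i ^ 2 ≤ ∑ j, (∑ i, ω i j * x i) ^ 2}) →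
      ENNReal.ofReal c₀ ≤ μ {ω | ∀ G : Matrix (Fin d) (Fin k) ℝ,
          (Matrix.transpose (Matrix.of ω) * A) * G * (Matrix.transpose (Matrix.of ω) * A)
              = Matrix.transpose (Matrix.of ω) * A →
          G * (Matrix.transpose (Matrix.of ω) * A) * G = G →
          Matrix.transpose ((Matrix.transpose (Matrix.of ω) * A) * G)
              = (Matrix.transpose (Matrix.of ω) * A) * G →
          Matrix.transpose (G * (Matrix.transpose (Matrix.of ω) * A))
              = G * (Matrix.transpose (Matrix.of ω) * A) →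
          ∀ X : Matrix (Fin d) (Fin p) ℝ,
            Real.sqrt (∑ i, ∑ j, ((A * (G * Matrix.transpose (Matrix.of ω) * B) - B) i j) ^ 2) ≤
              (1 + C * ε) * Real.sqrt (∑ i, ∑ j, ((A * X - B) i j) ^ 2)}) := by
  rintro ⟨C, c, hc, H⟩
  set P : Fin 2 → Fin 3 → ℝ := ![![1, 0, 1 / 10], ![0, 1, 1 / 10]] with hP
  set Q : Fin 2 → Fin 3 → ℝ := ![![1, 0, 1 / 10], ![0, 1, -1 / 10]] with hQ
  set μ : Measure (Fin 2 → Fin 3 → ℝ) := ENNReal.ofReal (50 / 101) • Measure.dirac P +
    ENNReal.ofReal (50 / 101) • Measure.dirac Q + ENNReal.ofReal (1 / 101) • Measure.dirac 0 with hμ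
  have : IsProbabilityMeasure μ := ⟨by
    simp only [hμ, Measure.add_apply, Measure.smul_apply, measure_univ, smul_eq_mul, mul_one]
    rw [← ENNReal.ofReal_add (by norm_num) (by norm_num),
      ← ENNReal.ofReal_add (by norm_num) (by norm_num)]
    norm_num⟩
  have hC : 0 < |C| + 1 := by positivity
  have he : C * (1 / (100000 * (|C| + 1))) ≤ 1 / 100000 := by
    rw [mul_one_div, div_le_div_iff₀ (by positivity) (by norm_num)]
    linarith [le_abs_self C]
  have he0 : 0 < 1 / (100000 * (|C| + 1)) := by positivity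
  have key := H 2 1 1 3 (by norm_num) (by norm_num) (by norm_num) (by norm_num)
    (1 / (100000 * (|C| + 1))) he0
    ((div_lt_one (by positivity)).mpr (by linarith [abs_nonneg C])) !![1; 0] (by
      refine le_antisymm (Matrix.rank_le_width _) ?_
      have := Matrix.rank_mul_le_right (!![1, 0] : Matrix (Fin 1) (Fin 2) ℝ)
        (!![1; 0] : Matrix (Fin 2) (Fin 1) ℝ)
      rwa [show (!![1, 0] : Matrix (Fin 1) (Fin 2) ℝ) * (!![1; 0] : Matrix (Fin 2) (Fin 1) ℝ) = 1 by
        ext i j; fin_cases i; fin_cases j; simp, Matrix.rank_one] at this)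
    !![1; 1] μ (fun x => by
      have hi : ∀ (r : ℝ) (a : Fin 2 → Fin 3 → ℝ), Integrable
          (fun ω : Fin 2 → Fin 3 → ℝ => ∑ j, (∑ i, ω i j * x i) ^ 2)
            (ENNReal.ofReal r • Measure.dirac a) :=
        fun r a => (integrable_dirac (by simp)).smul_measure ENNReal.ofReal_ne_top
      rw [hμ, integral_add_measure ((hi _ _).add_measure (hi _ _)) (hi _ _),
        integral_add_measure (hi _ _) (hi _ _)]
      simp only [integral_smul_measure, integral_dirac]
      rw [ENNReal.toReal_ofReal (by norm_num), ENNReal.toReal_ofReal (by norm_num)]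
      simp [hP, hQ, Fin.sum_univ_succ]
      ring) (fun V _ => by
      simp only [hμ, Measure.add_apply, Measure.smul_apply, smul_eq_mul]
      rw [Measure.dirac_apply_of_mem (a := P), Measure.dirac_apply_of_mem (a := Q), mul_one,
        ← ENNReal.ofReal_add (by norm_num) (by norm_num)]
      · exact le_add_right (ENNReal.ofReal_le_ofReal (by norm_num))
      all_goals
        intro x _
        have h1 : 0 ≤ 1 / (100000 * (|C| + 1)) * ∑ i, x i ^ 2 := by positivity
        rw [sub_mul]
        refine (sub_le_self _ h1).trans ?_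
        simp [hP, hQ, Fin.sum_univ_succ]
        positivity)
  refine absurd key (not_le.mpr (lt_of_eq_of_lt ?_ (ENNReal.ofReal_pos.mpr hc)))
  simp only [hμ, Measure.add_apply, Measure.smul_apply, smul_eq_mul, Measure.dirac_apply]
  rw [Set.indicator_of_notMem, Set.indicator_of_notMem, Set.indicator_of_notMem]
  · simp
  · refine fun h => gap he ?_ ?_ (h 0 (by simp) (by simp) (by simp) (by simp) !![1])
    · simp [Fin.sum_univ_succ]
      norm_num
    · simp [Fin.sum_univ_succ, Matrix.mul_apply]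
  all_goals
    refine fun h => gap he ?_ ?_ (h !![100 / 101, 0, 10 / 101] ?_ ?_ ?_ ?_ !![1])
    · simp only [hP, hQ, Fin.sum_univ_succ, Matrix.mul_apply, Matrix.sub_apply,
        Matrix.transpose_apply, Matrix.of_apply]
      simp
      norm_num
    · simp [Fin.sum_univ_succ, Matrix.mul_apply]
    all_goals
      ext i j
      simp only [hP, hQ, Fin.sum_univ_succ, Matrix.mul_apply, Matrix.transpose_apply,
        Matrix.of_apply]
      fin_cases i <;> fin_cases j <;> simp <;> norm_num

end Pool.Agent.S04624
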