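import Pool.Statements.S04649
import Pool.Agent.H27.Lac3

set_option autoImplicit false
open Pool Pool.MP_5053af_an

namespace Pool.Agent.S04649

/-- For every sequence of positive integers with n_{k+1} ≥ q n_k for some q>1, the set of x in [0,2π) at which the partial sums of cos(n_k x) come arbitrarily close to every real number infinitely often has Lebesgue measure 2π. -/
theorem result :
    ∀ (n : ℕ → ℕ) (q : ℝ), 1 < q → (∀ k, 0 < n k) →
      (∀ k, q * (n k : ℝ) ≤ (n (k + 1) : ℝ)) →
      MeasureTheory.volume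
        {x : ℝ | x ∈ Set.Ico 0 (2 * Real.pi) ∧
          ∀ ξ : ℝ, ∀ ε : ℝ, 0 < ε →
            ∃ᶠ m in Filter.atTop,
              |(∑ k ∈ Finset.range m, Real.cos ((n k : ℝ) * x)) - ξ| < ε}
        = ENNReal.ofReal (2 * Real.pi) := by
  intro n q q1 n0 h
  have a := (MeasureTheory.ae_restrict_iff' measurableSet_Ico).1 (by
    simpa only [zero_add, ← MeasureTheory.restrict_Ico_eq_restrict_Ioc] using H27.Lac.main q1 n0 h)
  rw [MeasureTheory.measure_congr (t := Set.Ico 0 (2 * Real.pi)) ?_, Real.volume_Ico, sub_zero]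
  filter_upwards [a] with x hx
  exact propext ⟨fun h => h.1, fun h => ⟨h, hx h⟩⟩

end Pool.Agent.S04649
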