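import Pool.Statements.S04674


set_option autoImplicit false
open Pool Pool.MP_51da40_an

namespace Pool.Agent.S04674

theorem sub_itv (r : ℝ → ℝ) (α β A B : ℝ) (hαβ : α ≤ β) (hr : ContinuousOn r (Set.Icc α β))
    (hA : r α ≤ A) (hB : B ≤ r β) (hAB : A ≤ B) :
    ∃ p q, α ≤ p ∧ p ≤ q ∧ q ≤ β ∧ r p = A ∧ r q = B ∧ ∀ t ∈ Set.Icc p q, A ≤ r t ∧ r t ≤ B := by
  have h1 : IsCompact (Set.Icc α β ∩ r ⁻¹' {B}) :=
    isCompact_Icc.of_isClosed_subset
      (hr.preimage_isClosed_of_isClosed isClosed_Icc isClosed_singleton) Set.inter_subset_left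
  obtain ⟨q, ⟨hq1, hq2⟩, hq3⟩ := h1.exists_isLeast (by
    obtain ⟨t, ht, ht'⟩ := intermediate_value_Icc hαβ hr ⟨hA.trans hAB, hB⟩
    exact ⟨t, ht, ht'⟩)
  have hq2 : r q = B := hq2
  have hr' : ContinuousOn r (Set.Icc α q) := hr.mono (Set.Icc_subset_Icc le_rfl hq1.2)
  have h2 : IsCompact (Set.Icc α q ∩ r ⁻¹' {A}) :=
    isCompact_Icc.of_isClosed_subset
      (hr'.preimage_isClosed_of_isClosed isClosed_Icc isClosed_singleton) Set.inter_subset_left
  obtain ⟨p, ⟨hp1, hp2⟩, hp3⟩ := h2.exists_isGreatest (by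
    obtain ⟨t, ht, ht'⟩ := intermediate_value_Icc hq1.1 hr' ⟨hA, hAB.trans hq2.ge⟩
    exact ⟨t, ht, ht'⟩)
  have hp2 : r p = A := hp2
  refine ⟨p, q, hp1.1, hp1.2, hq1.2, hp2, hq2, fun t ht => ⟨?_, ?_⟩⟩
  · by_contra hlt
    push Not at hlt
    obtain ⟨u, hu, hu'⟩ := intermediate_value_Icc ht.2
      (hr'.mono (Set.Icc_subset_Icc (hp1.1.trans ht.1) le_rfl)) ⟨hlt.le, hAB.trans hq2.ge⟩
    have h3 : u ≤ p := hp3 ⟨⟨hp1.1.trans (ht.1.trans hu.1), hu.2⟩, hu'⟩
    have h4 : t = p := le_antisymm (hu.1.trans h3) ht.1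
    rw [h4, hp2] at hlt
    exact lt_irrefl _ hlt
  · by_contra hlt
    push Not at hlt
    obtain ⟨u, hu, hu'⟩ := intermediate_value_Icc (hp1.1.trans ht.1)
      (hr'.mono (Set.Icc_subset_Icc le_rfl ht.2)) ⟨hA.trans hAB, hlt.le⟩
    have h3 : q ≤ u := hq3 ⟨⟨hu.1, hu.2.trans (ht.2.trans hq1.2)⟩, hu'⟩
    have h4 : t = q := le_antisymm ht.2 (h3.trans hu.2)
    rw [h4, hq2] at hlt
    exact lt_irrefl _ hlt

open Real in
theorem curve (θ : ℝ) (h1 : π < θ) (h2 : θ < 33 / 10) :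
    ∃ C : Set ℂ, IsPreconnected C ∧ ∃ η : ℝ, 0 < η ∧
      (∀ z ∈ C, ∃ ρ : ℝ, η ≤ ρ ∧ ρ ≤ 1 ∧
        z ^ 2 * (z - 1 / 2) = ρ * Complex.exp (θ * Complex.I)) ∧
      ∃ z1 ∈ C, ∃ z2 ∈ C, 1 + 1 / 100 < dist z1 z2 := by
  have hpi := Real.pi_gt_d2
  let α := (θ - π) / 2
  let β := (θ - 1 / 10) / 3
  have hα : 0 < α := by simp only [α]; linarith
  have hαβ : α ≤ β := by simp only [α, β]; linarith
  have hs : ∀ φ ∈ Set.Icc α β, 0 < sin (θ - 3 * φ) := by
    intro φ hφ
    have := hφ.1; have := hφ.2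
    apply sin_pos_of_pos_of_lt_pi <;> simp only [α, β] at * <;> linarith
  let r : ℝ → ℝ := fun φ => sin (θ - 2 * φ) / (2 * sin (θ - 3 * φ))
  have hr : ContinuousOn r (Set.Icc α β) := by
    apply ContinuousOn.div (by fun_prop) (by fun_prop)
    intro φ hφ
    have := hs φ hφ
    positivity
  obtain ⟨p, q, hp, hpq, hq, hrp, hrq, hrt⟩ := sub_itv r α β (1 / 200) (102 / 100) hαβ hr (by
      have : θ - 2 * α = π := by simp only [α]; ring
      simp only [r, this, sin_pi, zero_div]; norm_num) (by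
      have e1 : θ - 3 * β = 1 / 10 := by simp only [β]; ring
      have e2 := hs β ⟨hαβ, le_rfl⟩
      simp only [r]
      rw [le_div_iff₀ (by positivity), e1]
      have e3 : sin (1 / 10) ≤ 1 / 10 := sin_le (by norm_num)
      have e4 : 2 / π * (θ - 2 * β) ≤ sin (θ - 2 * β) := by
        apply mul_le_sin <;> simp only [β] <;> linarith
      have e5 : 1 / 2 ≤ 2 / π := by
        rw [div_le_div_iff₀ (by norm_num) pi_pos]; linarith [pi_le_four]
      have e6 : 1 ≤ θ - 2 * β := by simp only [β]; linarith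
      nlinarith) (by norm_num)
  let γ : ℝ → ℂ := fun φ => r φ * Complex.exp (φ * Complex.I)
  let ρ : ℝ → ℝ := fun φ => r φ ^ 2 * (sin φ / (2 * sin (θ - 3 * φ)))
  have hsub : Set.Icc p q ⊆ Set.Icc α β := Set.Icc_subset_Icc hp hq
  have hnγ : ∀ φ ∈ Set.Icc p q, ‖γ φ‖ = r φ := by
    intro φ hφ
    have := (hrt φ hφ).1
    simp only [γ, norm_mul, Complex.norm_exp_ofReal_mul_I, mul_one, Complex.norm_real]
    exact Real.norm_of_nonneg (by linarith)
  have hγa : ∀ φ ∈ Set.Icc p q, γ φ - 1 / 2 = (sin φ / (2 * sin (θ - 3 * φ)) : ℝ) *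
      Complex.exp (((θ - 2 * φ : ℝ) : ℂ) * Complex.I) := by
    intro φ hφ
    have e1 := (hs φ (hsub hφ)).ne'
    have e2 : sin (θ - 3 * φ) = sin (θ - 2 * φ) * cos φ - cos (θ - 2 * φ) * sin φ := by
      rw [← sin_sub]; congr 1; ring
    apply Complex.ext
    · simp only [γ, r, Complex.sub_re, Complex.re_ofReal_mul, Complex.exp_ofReal_mul_I_re]
      have : (1 / 2 : ℂ).re = 1 / 2 := by norm_num
      rw [this]
      generalize sin (θ - 3 * φ) = S at e1 e2
      field_simp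
      rw [e2]; ring
    · simp only [γ, r, Complex.sub_im, Complex.im_ofReal_mul, Complex.exp_ofReal_mul_I_im]
      have : (1 / 2 : ℂ).im = 0 := by norm_num
      rw [this]
      field_simp
      ring
  have hρpos : ∀ φ ∈ Set.Icc p q, 0 < ρ φ := by
    intro φ hφ
    have e1 := hs φ (hsub hφ)
    have e2 := (hrt φ hφ).1
    have e3 : 0 < sin φ := by
      have := (hsub hφ).1; have := (hsub hφ).2
      apply sin_pos_of_pos_of_lt_pi <;> simp only [α, β] at * <;> linarith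
    have e4 : 0 < r φ := by linarith
    positivity
  have hh : ∀ φ ∈ Set.Icc p q, γ φ ^ 2 * (γ φ - 1 / 2) = ρ φ * Complex.exp (θ * Complex.I) := by
    intro φ hφ
    rw [hγa φ hφ]
    have : Complex.exp (θ * Complex.I) = Complex.exp (φ * Complex.I) ^ 2 *
        Complex.exp (((θ - 2 * φ : ℝ) : ℂ) * Complex.I) := by
      rw [← Complex.exp_nat_mul, ← Complex.exp_add]; congr 1; push_cast; ring
    rw [this]
    simp only [γ, ρ]
    push_cast
    ring
  have hρc : ContinuousOn ρ (Set.Icc p q) := by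
    apply ((hr.mono hsub).pow 2).mul
    apply ContinuousOn.div (by fun_prop) (by fun_prop)
    intro φ hφ
    have := hs φ (hsub hφ)
    positivity
  obtain ⟨φ0, hφ0, hmin⟩ := isCompact_Icc.exists_isMinOn (Set.nonempty_Icc.2 hpq) hρc
  refine ⟨γ '' Set.Icc p q, isPreconnected_Icc.image _ ?_, ρ φ0, hρpos φ0 hφ0, ?_,
    γ q, ⟨q, ⟨hpq, le_rfl⟩, rfl⟩, γ p, ⟨p, ⟨le_rfl, hpq⟩, rfl⟩, ?_⟩
  · exact (Complex.continuous_ofReal.comp_continuousOn (hr.mono hsub)).mul (by fun_prop)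
  · rintro _ ⟨φ, hφ, rfl⟩
    refine ⟨ρ φ, hmin hφ, ?_, hh φ hφ⟩
    have e1 : ρ φ = r φ ^ 2 * ‖γ φ - 1 / 2‖ := by
      have := congrArg norm (hh φ hφ)
      rw [norm_mul, norm_mul, norm_pow, hnγ φ hφ, Complex.norm_exp_ofReal_mul_I, mul_one,
        Complex.norm_real, Real.norm_of_nonneg (hρpos φ hφ).le] at this
      exact this.symm
    have e2 : ‖γ φ - 1 / 2‖ ^ 2 = r φ ^ 2 - r φ * cos φ + 1 / 4 := by
      rw [Complex.sq_norm, Complex.normSq_apply]
      simp only [γ, Complex.sub_re, Complex.sub_im, Complex.re_ofReal_mul, Complex.im_ofReal_mul,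
        Complex.exp_ofReal_mul_I_re, Complex.exp_ofReal_mul_I_im]
      have e3 : (1 / 2 : ℂ).re = 1 / 2 := by norm_num
      have e4 : (1 / 2 : ℂ).im = 0 := by norm_num
      rw [e3, e4]
      nlinarith [sin_sq_add_cos_sq φ]
    have e3 : 39 / 100 ≤ cos φ := by
      have := one_sub_sq_div_two_le_cos (x := φ)
      have h3 := (hsub hφ).1; have h4 := (hsub hφ).2
      have h5 : φ ≤ 11 / 10 := by simp only [β] at h4; linarith
      nlinarith
    obtain ⟨e4, e5⟩ := hrt φ hφ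
    have e6 : ‖γ φ - 1 / 2‖ ^ 2 ≤ (95 / 100) ^ 2 := by rw [e2]; nlinarith
    have e7 : ‖γ φ - 1 / 2‖ ≤ 95 / 100 := (pow_le_pow_iff_left₀ (norm_nonneg _) (by norm_num) two_ne_zero).1 e6
    have e8 : r φ ^ 2 ≤ (102 / 100) ^ 2 := by nlinarith
    rw [e1]
    calc _ ≤ (102 / 100) ^ 2 * (95 / 100 : ℝ) := by gcongr
      _ ≤ 1 := by norm_num
  · have := norm_sub_norm_le (γ q) (γ p)
    rw [hnγ q ⟨hpq, le_rfl⟩, hnγ p ⟨le_rfl, hpq⟩, hrp, hrq] at this
    rw [dist_eq_norm]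
    linarith


/-- The negation of the preceding statement: For every c>0 and ε>0, for all large n, every monic complex polynomial of degree n has at most εn connected components of {∣f∣≤1} with diameter greater than 1+c. -/
theorem result :
    ¬ (∀ c : ℝ, 0 < c → ∀ ε : ℝ, 0 < ε → ∃ N : ℕ, ∀ n : ℕ, N ≤ n →
      ∀ f : Polynomial ℂ, f.Monic → f.natDegree = n →
        ∀ s : Finset (Set ℂ),
          (∀ C ∈ s, (∃ z : ℂ, ‖f.eval z‖ ≤ 1 ∧
              connectedComponentIn {w : ℂ | ‖f.eval w‖ ≤ 1} z = C) ∧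
            1 + c < Metric.diam C) →
          (s.card : ℝ) ≤ ε * (n : ℝ)) := by
  intro H
  obtain ⟨M0, hM⟩ := H (1 / 100) (by norm_num) (1 / 1000) (by norm_num)
  classical
  obtain ⟨M, hMdef⟩ : ∃ M, M = M0 + 1 := ⟨_, rfl⟩
  obtain ⟨N, hN⟩ : ∃ N, N = 200 * M := ⟨_, rfl⟩
  haveI : NeZero M := ⟨by omega⟩
  have hN0 : (0:ℝ) < N := by exact_mod_cast (by omega : 0 < N)
  have hNM : (N:ℝ) = 200 * M := by rw [hN]; push_cast; ring
  let θ : ℕ → ℝ := fun i => Real.pi + (2 * i + 1) * Real.pi / N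
  have hex : ∀ i : Fin M, _ := fun i => curve (θ i) (by
      have := Real.pi_pos
      simp only [θ, lt_add_iff_pos_right]; positivity) (by
      have h1 := Real.pi_lt_d2
      have h2 : ((i:ℕ):ℝ) + 1 ≤ M := by exact_mod_cast i.2
      have h3 : (2 * ((i:ℕ):ℝ) + 1) * Real.pi / N ≤ 4 / 100 := by
        rw [div_le_iff₀ hN0, hNM]
        have := Real.pi_pos
        nlinarith
      simp only [θ]; linarith)
  choose C hC η hη hρ z1 hz1 z2 hz2 hd using hex
  obtain ⟨e, he0, he1, he⟩ : ∃ e : ℝ, 0 < e ∧ e ≤ 1 ∧ ∀ i, e ≤ η i ^ N := by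
    obtain ⟨i, -, hi⟩ := Finset.exists_min_image Finset.univ (fun i => η i ^ N) ⟨0, Finset.mem_univ _⟩
    exact ⟨min 1 (η i ^ N), lt_min one_pos (pow_pos (hη i) N), min_le_left _ _,
      fun j => (min_le_right _ _).trans (hi j (Finset.mem_univ _))⟩
  let h : Polynomial ℂ := Polynomial.X ^ 2 * (Polynomial.X - Polynomial.C (1 / 2))
  have hm : h.Monic := (Polynomial.monic_X_pow 2).mul (Polynomial.monic_X_sub_C _)
  have hdeg : h.natDegree = 3 := by
    rw [(Polynomial.monic_X_pow 2).natDegree_mul (Polynomial.monic_X_sub_C _)]; simp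
  let f : Polynomial ℂ := h ^ N + Polynomial.C ((1 + e : ℝ) : ℂ)
  have hdeg2 : (h ^ N).natDegree = 3 * N := by rw [hm.natDegree_pow, hdeg, mul_comm]
  have hf : ∀ z, f.eval z = (z ^ 2 * (z - 1 / 2)) ^ N + ((1 + e : ℝ) : ℂ) := by
    intro z; simp [f, h]
  set E := {w : ℂ | ‖f.eval w‖ ≤ 1} with hE
  have hCE : ∀ i, C i ⊆ E := by
    intro i z hz
    obtain ⟨ρ, h1, h2, h3⟩ := hρ i z hz
    have h4 : Complex.exp (θ i * Complex.I) ^ N = -1 := by
      rw [← Complex.exp_nat_mul]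
      have : (N:ℂ) * (θ i * Complex.I) =
          ((100 * M + i : ℕ) : ℂ) * (2 * Real.pi * Complex.I) + Real.pi * Complex.I := by
        have h5 : (N:ℂ) ≠ 0 := by exact_mod_cast hN0.ne'
        have h6 : (N:ℂ) = 200 * M := by exact_mod_cast hNM
        simp only [θ]
        push_cast
        field_simp
        rw [h6]; ring
      rw [this, Complex.exp_add, Complex.exp_nat_mul_two_pi_mul_I, Complex.exp_pi_mul_I, one_mul]
    show ‖f.eval z‖ ≤ 1
    rw [hf, h3, mul_pow, h4]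
    have : (ρ:ℂ) ^ N * -1 + ((1 + e : ℝ) : ℂ) = ((1 + e - ρ ^ N : ℝ) : ℂ) := by push_cast; ring
    rw [this, Complex.norm_real, Real.norm_eq_abs, abs_le]
    have h5 : η i ^ N ≤ ρ ^ N := pow_le_pow_left₀ (hη i).le h1 N
    have h6 : ρ ^ N ≤ 1 := pow_le_one₀ ((hη i).le.trans h1) h2
    have := he i
    constructor <;> linarith
  have hEb : Bornology.IsBounded E := by
    rw [isBounded_iff_forall_norm_le]
    refine ⟨3, fun z hz => ?_⟩
    by_contra hlt
    push Not at hlt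
    have h1 : ‖f.eval z‖ ≤ 1 := hz
    rw [hf] at h1
    have h2 : 2 ≤ ‖z - 1 / 2‖ := by
      have := norm_sub_norm_le z (1 / 2)
      have h3 : ‖(1 / 2 : ℂ)‖ = 1 / 2 := by simp
      linarith
    have h3 : 4 ≤ ‖z ^ 2 * (z - 1 / 2)‖ := by rw [norm_mul, norm_pow]; nlinarith
    have h4 : ‖z ^ 2 * (z - 1 / 2)‖ ≤ ‖(z ^ 2 * (z - 1 / 2)) ^ N‖ := by
      rw [norm_pow]
      exact le_self_pow₀ (by linarith) (by omega)
    have h5 := norm_sub_le ((z ^ 2 * (z - 1 / 2)) ^ N + ((1 + e : ℝ) : ℂ)) ((1 + e : ℝ) : ℂ)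
    rw [add_sub_cancel_right, Complex.norm_real, Real.norm_of_nonneg (by linarith)] at h5
    linarith
  have hsep : ∀ i k : Fin M, i < k →
      connectedComponentIn E (z1 i) ≠ connectedComponentIn E (z1 k) := by
    intro i k hik heq
    let b : ℝ := Real.pi + 2 * k * Real.pi / N
    let G : ℂ → ℝ := fun z => (z ^ 2 * (z - 1 / 2) * Complex.exp (((-b : ℝ) : ℂ) * Complex.I)).im
    have hG : ∀ j : Fin M, ∃ ρ : ℝ, 0 < ρ ∧ G (z1 j) = ρ * Real.sin (θ j - b) := by
      intro j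
      obtain ⟨ρ, h1, -, h3⟩ := hρ j _ (hz1 j)
      refine ⟨ρ, (hη j).trans_le h1, ?_⟩
      simp only [G]
      rw [h3, mul_assoc, ← Complex.exp_add, ← add_mul, ← Complex.ofReal_add,
        Complex.im_ofReal_mul, Complex.exp_ofReal_mul_I_im]
      rfl
    have hpi := Real.pi_pos
    have hk : ((k:ℕ):ℝ) + 1 ≤ M := by exact_mod_cast k.2
    have hik' : ((i:ℕ):ℝ) + 1 ≤ (k:ℕ) := by exact_mod_cast hik
    have hi0 : (0:ℝ) ≤ (i:ℕ) := Nat.cast_nonneg _
    have h1 : G (z1 i) ≤ 0 := by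
      obtain ⟨ρ, h1, h2⟩ := hG i
      rw [h2]
      apply mul_nonpos_of_nonneg_of_nonpos h1.le
      have : θ i - b = (2 * i + 1 - 2 * k) * Real.pi / N := by simp only [θ, b]; ring
      rw [this]
      apply Real.sin_nonpos_of_nonpos_of_neg_pi_le
      · apply div_nonpos_of_nonpos_of_nonneg _ hN0.le; nlinarith
      · rw [le_div_iff₀ hN0, hNM]; nlinarith
    have h2 : 0 ≤ G (z1 k) := by
      obtain ⟨ρ, h1, h2⟩ := hG k
      rw [h2]
      apply mul_nonneg h1.le
      have : θ k - b = Real.pi / N := by simp only [θ, b]; ring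
      rw [this]
      apply Real.sin_nonneg_of_nonneg_of_le_pi (by positivity)
      rw [div_le_iff₀ hN0, hNM]; nlinarith
    obtain ⟨z, hz, hz0⟩ := (isPreconnected_connectedComponentIn (F := E) (x := z1 k)).intermediate_value
      (heq ▸ mem_connectedComponentIn (hCE i (hz1 i))) (mem_connectedComponentIn (hCE k (hz1 k)))
      (f := G) (by fun_prop) ⟨h1, h2⟩
    have hzE : ‖f.eval z‖ ≤ 1 := connectedComponentIn_subset E _ hz
    set w := z ^ 2 * (z - 1 / 2) * Complex.exp (((-b : ℝ) : ℂ) * Complex.I) with hw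
    have hw1 : w = (w.re : ℂ) := by
      apply Complex.ext
      · simp
      · simpa using hz0
    have h4 : Complex.exp (((-b : ℝ) : ℂ) * Complex.I) ^ N = 1 := by
      rw [← Complex.exp_nat_mul]
      have : (N:ℂ) * (((-b : ℝ) : ℂ) * Complex.I) =
          ((-(100 * M + k) : ℤ) : ℂ) * (2 * Real.pi * Complex.I) := by
        have h5 : (N:ℂ) ≠ 0 := by exact_mod_cast hN0.ne'
        have h6 : (N:ℂ) = 200 * M := by exact_mod_cast hNM
        simp only [b]
        push_cast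
        field_simp
        rw [h6]; ring
      rw [this, Complex.exp_int_mul_two_pi_mul_I]
    have h5 : (z ^ 2 * (z - 1 / 2)) ^ N = ((w.re ^ N : ℝ) : ℂ) := by
      rw [Complex.ofReal_pow, ← hw1, hw, mul_pow _ (Complex.exp _), h4, mul_one]
    rw [hf, h5, ← Complex.ofReal_add, Complex.norm_real] at hzE
    have h6 : 0 ≤ w.re ^ N := Even.pow_nonneg ⟨100 * M, by omega⟩ _
    have := (le_abs_self _).trans hzE
    linarith
  have := hM (3 * N) (by omega) f
    ((hm.pow N).add_of_left (by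
      apply lt_of_le_of_lt Polynomial.degree_C_le
      rw [← Polynomial.natDegree_pos_iff_degree_pos, hdeg2]; omega))
    (by rw [Polynomial.natDegree_add_C, hdeg2])
    (Finset.univ.image (fun i : Fin M => connectedComponentIn E (z1 i))) (by
      intro D hD
      obtain ⟨i, -, rfl⟩ := Finset.mem_image.1 hD
      refine ⟨⟨z1 i, hCE i (hz1 i), rfl⟩, (hd i).trans_le ?_⟩
      have hsub := (hC i).subset_connectedComponentIn (hz1 i) (hCE i)
      exact Metric.dist_le_diam_of_mem (hEb.subset (connectedComponentIn_subset E _))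
        (hsub (hz1 i)) (hsub (hz2 i)))
  rw [Finset.card_image_of_injective _ (by
    intro i k hik
    rcases lt_trichotomy i k with h1 | h1 | h1
    · exact absurd hik (hsep i k h1)
    · exact h1
    · exact absurd hik.symm (hsep k i h1))] at this
  simp only [Finset.card_univ, Fintype.card_fin] at this
  push_cast at this
  have h7 : (0:ℝ) < M := by exact_mod_cast (by omega : 0 < M)
  rw [hNM] at this
  linarith

end Pool.Agent.S04674
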