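import Pool.Statements.S04676


set_option autoImplicit false
open Pool Pool.MP_529e31_an

namespace Pool.Agent.S04676

def RR : ℕ → ℕ
  | 0 => 1
  | n + 1 => (8 * RR n ^ 2 + RR n + 1).factorial

theorem RR_lt (n : ℕ) : RR n < RR (n + 1) := by
  have := Nat.self_le_factorial (8 * RR n ^ 2 + RR n + 1)
  simp only [RR]
  omega

theorem RR_mono : StrictMono RR := strictMono_nat_of_lt_succ RR_lt

theorem RR_pos (n : ℕ) : 1 ≤ RR n := RR_mono.monotone (Nat.zero_le n)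

theorem pow_le (m : ℕ) (x : ℝ) (hx : 0 ≤ x) : x ^ m ≤ m.factorial * Real.exp x := by
  have := Real.pow_div_factorial_le_exp x hx m
  rwa [div_le_iff₀ (by positivity), mul_comm] at this


/-- The negation of the preceding statement: For every ρ>0 and S in ℂ: if each entire f of order ρ finite type is bounded on S iff bounded on ℂ, then for each weight k in K_ρ there are k' in K_ρ and C>0 with ∣f∣≤k' on S implying ∣f∣≤Ck on ℂ (S sufficient). -/
theorem result :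
    ¬ (∀ ρ : ℝ, 0 < ρ → ∀ S : Set ℂ,
      (∀ f : ℂ → ℂ, Differentiable ℂ f →
        (∃ A B : ℝ, 0 < A ∧ 0 < B ∧ ∀ z : ℂ, ‖f z‖ ≤ B * Real.exp (A * ‖z‖ ^ ρ)) →
        (Bornology.IsBounded (f '' S) ↔ Bornology.IsBounded (Set.range f))) →
      ∀ k : ℂ → ℝ, Continuous k → (∀ z : ℂ, 0 < k z) →
        (∀ A : ℝ, 0 < A →
          Asymptotics.IsLittleO (Filter.cocompact ℂ) (fun z : ℂ => Real.exp (A * ‖z‖ ^ ρ)) k) →
        ∃ k' : ℂ → ℝ, Continuous k' ∧ (∀ z : ℂ, 0 < k' z) ∧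
          (∀ A : ℝ, 0 < A →
            Asymptotics.IsLittleO (Filter.cocompact ℂ) (fun z : ℂ => Real.exp (A * ‖z‖ ^ ρ)) k') ∧
          ∃ C : ℝ, 0 < C ∧
            ∀ f : ℂ → ℂ, Differentiable ℂ f →
              (∃ A B : ℝ, 0 < A ∧ 0 < B ∧ ∀ z : ℂ, ‖f z‖ ≤ B * Real.exp (A * ‖z‖ ^ ρ)) →
              (∀ z ∈ S, ‖f z‖ ≤ k' z) → ∀ z : ℂ, ‖f z‖ ≤ C * k z) := by
  intro H
  let S : Set ℂ := {z | ∃ n, ‖z‖ = RR n}
  have hS : ∀ f : ℂ → ℂ, Differentiable ℂ f →
      (Bornology.IsBounded (f '' S) ↔ Bornology.IsBounded (Set.range f)) := by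
    intro f hf
    refine ⟨fun h => ?_, fun h => h.subset (Set.image_subset_range _ _)⟩
    obtain ⟨M, hM⟩ := isBounded_iff_forall_norm_le.1 h
    rw [isBounded_iff_forall_norm_le]
    refine ⟨M, ?_⟩
    rintro _ ⟨z, rfl⟩
    obtain ⟨n, hn⟩ := exists_nat_gt ‖z‖
    have h1 : (n : ℝ) ≤ RR n := by exact_mod_cast RR_mono.le_apply
    have h2 : (0:ℝ) < RR n := by exact_mod_cast RR_pos n
    apply Complex.norm_le_of_forall_mem_frontier_norm_le (U := Metric.ball 0 (RR n))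
      Metric.isBounded_ball hf.diffContOnCl
    · intro w hw
      rw [frontier_ball _ h2.ne'] at hw
      exact hM _ ⟨w, ⟨n, by simpa using hw⟩, rfl⟩
    · apply subset_closure
      simp only [Metric.mem_ball, dist_zero_right]
      linarith
  obtain ⟨k', hk1, hk2, hk3, C, hC, hk⟩ := H 1 one_pos S (fun f hf _ => hS f hf)
    (fun z => Real.exp (‖z‖ ^ 2)) (by fun_prop) (fun z => Real.exp_pos _) (by
      intro A hA
      rw [Real.isLittleO_exp_comp_exp_comp]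
      have h1 : Filter.Tendsto (fun x : ℝ => x * (x - A)) Filter.atTop Filter.atTop :=
        Filter.tendsto_id.atTop_mul_atTop₀ (Filter.tendsto_atTop_add_const_right _ (-A) Filter.tendsto_id)
      have := h1.comp (tendsto_norm_cocompact_atTop (E := ℂ))
      convert this using 1
      funext z
      simp only [Function.comp, Real.rpow_one]
      ring)
  obtain ⟨δ, hδ, hδk⟩ : ∃ δ : ℝ, 0 < δ ∧ ∀ z : ℂ, δ * Real.exp ‖z‖ ≤ k' z := by
    have h1 := (hk3 1 one_pos).bound one_pos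
    rw [Filter.eventually_iff_exists_mem] at h1
    obtain ⟨V, hV, hV'⟩ := h1
    obtain ⟨K, hK, hKV⟩ := Filter.mem_cocompact.1 hV
    have hc : Continuous (fun z : ℂ => k' z / Real.exp ‖z‖) :=
      hk1.div (by fun_prop) (fun z => (Real.exp_pos _).ne')
    obtain ⟨z0, -, hz0⟩ := (hK.insert 0).exists_isMinOn (Set.insert_nonempty _ _) hc.continuousOn
    refine ⟨min 1 (k' z0 / Real.exp ‖z0‖), lt_min one_pos (div_pos (hk2 _) (Real.exp_pos _)),
      fun z => ?_⟩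
    by_cases hz : z ∈ K
    · have h2 : k' z0 / Real.exp ‖z0‖ ≤ k' z / Real.exp ‖z‖ := hz0 (Set.mem_insert_of_mem _ hz)
      rw [← le_div_iff₀ (Real.exp_pos _)]
      exact (min_le_right _ _).trans h2
    · have h2 := hV' z (hKV hz)
      simp only [one_mul, Real.rpow_one, Real.norm_eq_abs, abs_of_pos (hk2 z),
        abs_of_pos (Real.exp_pos _)] at h2
      calc _ ≤ 1 * Real.exp ‖z‖ := by gcongr; exact min_le_left _ _
        _ ≤ _ := by linarith
  obtain ⟨n, hn⟩ := exists_nat_gt (C / δ)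
  set R := RR n with hR
  have hR1 : (1:ℝ) ≤ R := by exact_mod_cast RR_pos n
  have hRn : (n:ℝ) ≤ R := by exact_mod_cast RR_mono.le_apply
  set m := 8 * R ^ 2 + R with hm
  have hnorm : ∀ z : ℂ, ‖((δ / (R:ℝ) ^ m : ℝ) : ℂ) * z ^ m‖ = δ / (R:ℝ) ^ m * ‖z‖ ^ m := by
    intro z
    rw [norm_mul, norm_pow, Complex.norm_real, Real.norm_of_nonneg (by positivity)]
  have := hk (fun z => ((δ / (R:ℝ) ^ m : ℝ) : ℂ) * z ^ m) (by fun_prop)
    ⟨1, δ / (R:ℝ) ^ m * m.factorial, one_pos, by positivity, fun z => by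
      rw [hnorm, one_mul, Real.rpow_one, mul_assoc]
      gcongr
      exact pow_le m _ (norm_nonneg z)⟩
    (by
      rintro z ⟨j, hj⟩
      refine le_trans ?_ (hδk z)
      rw [hnorm, div_mul_eq_mul_div, mul_div_assoc]
      gcongr
      rw [div_le_iff₀ (by positivity)]
      rcases le_or_gt j n with h | h
      · have h1 : ‖z‖ ≤ R := by rw [hj]; exact_mod_cast RR_mono.monotone h
        have h2 : 1 ≤ Real.exp ‖z‖ := Real.one_le_exp (norm_nonneg z)
        calc ‖z‖ ^ m ≤ 1 * (R:ℝ) ^ m := by rw [one_mul]; gcongr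
          _ ≤ _ := by gcongr
      · have h1 : ((m + 1).factorial : ℝ) ≤ ‖z‖ := by
          rw [hj]; exact_mod_cast RR_mono.monotone (Nat.succ_le_of_lt h)
        have h2 := pow_le (m + 1) ‖z‖ (norm_nonneg z)
        have h3 : (0:ℝ) < (m + 1).factorial := by positivity
        have h4 : ‖z‖ ^ m ≤ Real.exp ‖z‖ := by
          rw [pow_succ] at h2
          have : ‖z‖ ^ m * (m + 1).factorial ≤ ‖z‖ ^ m * ‖z‖ := by gcongr
          nlinarith
        calc ‖z‖ ^ m ≤ Real.exp ‖z‖ * 1 := by linarith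
          _ ≤ _ := by gcongr; exact one_le_pow₀ hR1)
    (((2 * R : ℝ)) : ℂ)
  rw [hnorm, Complex.norm_real, Real.norm_of_nonneg (by positivity), mul_pow] at this
  have e1 : δ / (R:ℝ) ^ m * (2 ^ m * (R:ℝ) ^ m) = δ * 2 ^ m := by field_simp
  rw [e1] at this
  have e2 : Real.exp ((2 * (R:ℝ)) ^ 2) ≤ 2 ^ (8 * R ^ 2) := by
    have : (2 * (R:ℝ)) ^ 2 = ((4 * R ^ 2 : ℕ) : ℝ) * 1 := by push_cast; ring
    rw [this, Real.exp_nat_mul, show 8 * R ^ 2 = 2 * (4 * R ^ 2) by ring, pow_mul (2:ℝ) 2 (4 * R ^ 2)]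
    apply pow_le_pow_left₀ (Real.exp_pos _).le
    have := Real.exp_one_lt_d9
    norm_num at this ⊢
    linarith
  have e3 : (R:ℝ) < 2 ^ R := by exact_mod_cast Nat.lt_two_pow_self
  rw [hm, pow_add] at this
  rw [div_lt_iff₀ hδ] at hn
  have e4 : (0:ℝ) < 2 ^ (8 * R ^ 2) := by positivity
  have e5 : C * Real.exp ((2 * (R:ℝ)) ^ 2) ≤ C * 2 ^ (8 * R ^ 2) := by gcongr
  have e6 : C < δ * 2 ^ R := by nlinarith
  nlinarith

end Pool.Agent.S04676
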