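import Pool.Statements.S04677
import Pool.Agent.H29.Comp

set_option autoImplicit false
open Pool Pool.MP_52d740_an

namespace Pool.Agent.S04677

theorem result :
    ∃ (k : ℕ) (X Y : Set (ℤ → ℕ)) (π : (ℤ → ℕ) → (ℤ → ℕ)),
      X.Nonempty ∧ IsClosed X ∧ (∀ x : ℤ → ℕ, x ∈ X ↔ (fun m : ℤ => x (m + 1)) ∈ X) ∧
      (∀ x ∈ X, ∀ i : ℤ, x i < k) ∧
      Y.Nonempty ∧ IsClosed Y ∧ (∀ y : ℤ → ℕ, y ∈ Y ↔ (fun m : ℤ => y (m + 1)) ∈ Y) ∧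
      (∀ y ∈ Y, ∀ i : ℤ, y i < k) ∧
      ContinuousOn π X ∧ Set.MapsTo π X Y ∧ Set.SurjOn π X Y ∧
      (∀ x ∈ X, π (fun m : ℤ => x (m + 1)) = (fun m : ℤ => π x (m + 1))) ∧
      ¬ ∃ F : (ℤ → ℕ) → ℝ, ContinuousOn F X ∧
        ∀ φ : (ℤ → ℕ) → ℝ, ContinuousOn φ Y →
          ∃ L : ℝ,
          Filter.Tendsto (fun n : ℕ => Real.log (∑ w : Fin n → Fin k,
            sSup ((fun x : ℤ → ℕ => Real.exp (∑ j ∈ Finset.range n,
              φ ((fun (z : ℤ → ℕ) (m : ℤ) => z (m + 1))^[j] x))) ''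
              {x : ℤ → ℕ | x ∈ Y ∧ ∀ i : Fin n, x ((i : ℕ) : ℤ) = ((w i : ℕ))})) / (n : ℝ))
            Filter.atTop (nhds L) ∧
          Filter.Tendsto (fun n : ℕ => Real.log (∑ w : Fin n → Fin k,
            sSup ((fun x : ℤ → ℕ => Real.exp (∑ j ∈ Finset.range n,
              (φ (π ((fun (z : ℤ → ℕ) (m : ℤ) => z (m + 1))^[j] x))
                + F ((fun (z : ℤ → ℕ) (m : ℤ) => z (m + 1))^[j] x)))) ''
              {x : ℤ → ℕ | x ∈ X ∧ ∀ i : Fin n, x ((i : ℕ) : ℤ) = ((w i : ℕ))})) / (n : ℝ))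
            Filter.atTop (nhds L) := by
  open Pool.Agent.H29.Comp in
  refine ⟨3, XX, pi '' XX, pi, ⟨_, per_mem []⟩, isClosed_closure, fun x => ⟨sh_mem 1, fun h => ?_⟩,
    fun x hx => X_lt hx, ⟨_, _, per_mem [], rfl⟩, (X_compact.image pi_cont).isClosed,
    fun y => ⟨?_, ?_⟩, ?_, pi_cont.continuousOn, Set.mapsTo_image _ _, Set.surjOn_image _ _,
    fun _ _ => rfl, ?_⟩
  · have := sh_mem (-1) (x := sh 1 x) h
    simpa [sh_sh, sh_zero] using this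
  · rintro ⟨x, hx, rfl⟩
    exact ⟨sh 1 x, sh_mem 1 hx, rfl⟩
  · rintro ⟨x, hx, h⟩
    refine ⟨sh (-1) x, sh_mem _ hx, ?_⟩
    rw [pi_sh, h]
    funext i
    simp [sh]
  · rintro _ ⟨x, -, rfl⟩ i
    unfold pi
    split_ifs <;> norm_num
  · simp only [iter_eq]
    exact main

end Pool.Agent.S04677
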