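import Pool.Statements.S04693
import Pool.Agent.H27.PiB

set_option autoImplicit false
open Pool Pool.MP_53fbd4_an

namespace Pool.Agent.S04693

/-- For every real Banach space with a 1-unconditional basis, the closed unit ball in the relative weak topology has a countable family of nonempty relatively open sets such that every nonempty relatively open subset of the ball contains one of them. -/
theorem result :
    ∀ (X : Type) [NormedAddCommGroup X] [NormedSpace ℝ X] [CompleteSpace X] (e : ℕ → X),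
      (∀ x : X, ∃! a : ℕ → ℝ, HasSum (fun n => a n • e n) x) →
      (∀ (s : Finset ℕ) (a ε : ℕ → ℝ), (∀ n, ε n = 1 ∨ ε n = -1) →
          ‖∑ n ∈ s, (ε n * a n) • e n‖ ≤ ‖∑ n ∈ s, a n • e n‖) →
      ∃ U : ℕ → Set (WeakSpace ℝ X),
        (∀ n, IsOpen (U n) ∧
            (U n ∩ (toWeakSpace ℝ X) '' Metric.closedBall (0 : X) 1).Nonempty) ∧
        ∀ V : Set (WeakSpace ℝ X), IsOpen V →
          (V ∩ (toWeakSpace ℝ X) '' Metric.closedBall (0 : X) 1).Nonempty →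
            ∃ n, U n ∩ (toWeakSpace ℝ X) '' Metric.closedBall (0 : X) 1 ⊆ V := by
  intro X _ _ _ e hb hu
  obtain ⟨c, hc, hc1, hc2⟩ := Pool.Agent.H27.PiB.coords hb hu
  let C : WeakSpace ℝ X → ℕ → ℝ := fun x n => c n ((toWeakSpace ℝ X).symm x)
  have hC : Continuous C :=
    continuous_pi fun n => WeakBilin.eval_continuous (topDualPairing ℝ X).flip (c n)
  have hB := TopologicalSpace.isBasis_countableBasis (ℕ → ℝ)
  let 𝓑 : Set (Set (ℕ → ℝ)) := {B | B ∈ TopologicalSpace.countableBasis (ℕ → ℝ) ∧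
    (C ⁻¹' B ∩ (toWeakSpace ℝ X) '' Metric.closedBall (0 : X) 1).Nonempty}
  have h1 : 𝓑.Countable := (TopologicalSpace.countable_countableBasis _).mono fun B h => h.1
  have key : ∀ V : Set (WeakSpace ℝ X), IsOpen V →
      (V ∩ (toWeakSpace ℝ X) '' Metric.closedBall (0 : X) 1).Nonempty →
      ∃ B ∈ 𝓑, C ⁻¹' B ∩ (toWeakSpace ℝ X) '' Metric.closedBall (0 : X) 1 ⊆ V := by
    rintro V hV ⟨_, hx, x0, hx0, rfl⟩
    obtain ⟨I, ε, hε, hI⟩ := Pool.Agent.H27.PiB.weak_nhds hV hx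
    obtain ⟨y, hy, O, hO, hyO, h⟩ := Pool.Agent.H27.PiB.main hu hc hc1 hc2 (fun f : I => f.1)
      (mem_closedBall_zero_iff.1 hx0) hε
    obtain ⟨B, hB1, hB2, hB3⟩ := hB.exists_subset_of_mem_open hyO hO
    refine ⟨B, ⟨hB1, toWeakSpace ℝ X y, hB2, y, mem_closedBall_zero_iff.2 hy, rfl⟩, ?_⟩
    rintro _ ⟨hx1, x, hx2, rfl⟩
    exact hI x fun f hf => h x (mem_closedBall_zero_iff.1 hx2) (hB3 hx1) ⟨f, hf⟩
  obtain ⟨B0, hB0, -⟩ := key Set.univ isOpen_univ ⟨_, trivial, 0, by simp, rfl⟩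
  obtain ⟨g, hg⟩ := h1.exists_eq_range ⟨B0, hB0⟩
  have hg' : ∀ n, g n ∈ 𝓑 := fun n => hg ▸ Set.mem_range_self n
  refine ⟨fun n => C ⁻¹' g n, fun n => ⟨(hB.isOpen (hg' n).1).preimage hC, (hg' n).2⟩,
    fun V hV hne => ?_⟩
  obtain ⟨B, hB1, hB2⟩ := key V hV hne
  rw [hg] at hB1
  obtain ⟨n, rfl⟩ := hB1
  exact ⟨n, hB2⟩

end Pool.Agent.S04693
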