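import Pool.Statements.S04698
import Pool.Agent.H5.Tiling

set_option autoImplicit false
open Pool Pool.MP_541d58_an

namespace Pool.Agent.S04698

/-- The negation of the preceding statement: There is a family of pairwise disjoint, bounded, closed convex sets with nonempty interior whose union is the whole real Hilbert space ℓ²(ℝ), i.e. ℓ₂ of continuum density. -/
theorem result :
    ¬ (∃ 𝒯 : Set (Set (lp (fun _ : ℝ => ℝ) (2 : ENNReal))),
      (∀ C ∈ 𝒯, IsClosed C ∧ Convex ℝ C ∧ (interior C).Nonempty ∧ Bornology.IsBounded C) ∧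
      𝒯.PairwiseDisjoint id ∧
      ⋃₀ 𝒯 = Set.univ) := by
  rintro ⟨T, h1, h2, h3⟩
  have hT : Pool.Agent.H5.Tiling.IsTiling T :=
    ⟨fun C hC => (h1 C hC).1, fun C hC => (h1 C hC).2.1, fun C hC => (h1 C hC).2.2.1, h2,
      fun x => by
        have : x ∈ ⋃₀ T := h3 ▸ Set.mem_univ x
        exact this⟩
  have hb := (h1 _ (Pool.Agent.H5.Tiling.univ_mem hT)).2.2.2
  obtain ⟨R, hR⟩ := hb.exists_norm_le
  have h4 := hR (lp.single 2 (0 : ℝ) (|R| + 1)) (Set.mem_univ _)
  rw [lp.norm_single (by norm_num), Real.norm_eq_abs] at h4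
  have h5 := le_abs_self (|R| + 1)
  have h6 := le_abs_self R
  linarith

end Pool.Agent.S04698
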