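import Pool.Statements.S04707
import Pool.Agent.H26.Subsum

set_option autoImplicit false
open Pool Pool.MP_555292_an

namespace Pool.Agent.S04707

open Pool.Agent.H26.Subsum Set

noncomputable def x (n : ℕ) : ℝ := (if n % 2 = 0 then 18 else 3) * (1 / 9) ^ (n / 2)

noncomputable def y (n : ℕ) : ℝ :=
  (if n % 4 = 0 then 7 else if n % 4 = 1 then 6 else if n % 4 = 2 then 5 else 3) * (1 / 9) ^ (n / 4)

lemma x_pos (n : ℕ) : 0 < x n := by unfold x; split_ifs <;> positivity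

lemma y_pos (n : ℕ) : 0 < y n := by unfold y; split_ifs <;> positivity

lemma x_shift (n : ℕ) : x (n + 1 + 1) = 1 / 9 * x n := by
  unfold x
  rw [show (n + 1 + 1) % 2 = n % 2 by omega, show (n + 1 + 1) / 2 = n / 2 + 1 by omega, pow_succ]
  ring

lemma y_shift (n : ℕ) : y (n + 1 + 1 + 1 + 1) = 1 / 9 * y n := by
  unfold y
  rw [show (n + 1 + 1 + 1 + 1) % 4 = n % 4 by omega,
    show (n + 1 + 1 + 1 + 1) / 4 = n / 4 + 1 by omega, pow_succ]
  ring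

lemma geo_sum : Summable fun n : ℕ => (1 / 9 : ℝ) ^ (n / 4) := by
  refine Summable.of_nonneg_of_le (fun n => by positivity) (fun n => ?_)
    ((summable_geometric_of_lt_one (show (0 : ℝ) ≤ 2 / 3 by norm_num) (by norm_num)).mul_left 4)
  have h1 : (1 / 9 : ℝ) ^ (n / 4) ≤ ((2 / 3) ^ 4) ^ (n / 4) :=
    pow_le_pow_left₀ (by norm_num) (by norm_num) _
  have h2 : (2 / 3 : ℝ) ^ (4 * (n / 4) + 3) ≤ (2 / 3) ^ n :=
    pow_le_pow_of_le_one (by norm_num) (by norm_num) (by omega)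
  rw [← pow_mul] at h1
  rw [pow_add] at h2
  have h3 : (0 : ℝ) < (2 / 3) ^ (4 * (n / 4)) := by positivity
  linarith

lemma x_sum : Summable x := by
  refine Summable.of_nonneg_of_le (fun n => (x_pos n).le) (fun n => ?_) (geo_sum.mul_left 18)
  have h1 : (1 / 9 : ℝ) ^ (n / 2) ≤ (1 / 9) ^ (n / 4) :=
    pow_le_pow_of_le_one (by norm_num) (by norm_num) (by omega)
  have h3 : (0 : ℝ) < (1 / 9) ^ (n / 2) := by positivity
  unfold x
  split_ifs <;> linarith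

lemma y_sum : Summable y := by
  refine Summable.of_nonneg_of_le (fun n => (y_pos n).le) (fun n => ?_) (geo_sum.mul_left 18)
  have h3 : (0 : ℝ) < (1 / 9) ^ (n / 4) := by positivity
  unfold y
  split_ifs <;> linarith

def FX : Set ℝ := {f | f = 0 ∨ f = 3 ∨ f = 18 ∨ f = 21}

def FY : Set ℝ := {f | ∃ a b c d : ℝ, (a = 0 ∨ a = 7) ∧ (b = 0 ∨ b = 6) ∧ (c = 0 ∨ c = 5) ∧
  (d = 0 ∨ d = 3) ∧ f = a + b + c + d}

lemma X_iff (s : ℝ) : s ∈ Es x ↔ ∃ f ∈ FX, ∃ s' ∈ Es x, s = f + 1 / 9 * s' := by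
  have s1 := (summable_nat_add_iff 1).mpr x_sum
  have e0 : x 0 = 18 := by norm_num [x]
  have e1 : x (0 + 1) = 3 := by norm_num [x]
  simp only [Es_step x x_sum s, Es_step _ s1, x_shift, Es_scale, e0, e1]
  constructor
  · rintro ⟨_, ⟨_, ⟨t, ht, rfl⟩, rfl | rfl⟩, rfl | rfl⟩
    · exact ⟨0, by simp [FX], t, ht, by ring⟩
    · exact ⟨18, by simp [FX], t, ht, by ring⟩
    · exact ⟨3, by simp [FX], t, ht, by ring⟩
    · exact ⟨21, by simp [FX], t, ht, by ring⟩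
  · rintro ⟨f, rfl | rfl | rfl | rfl, t, ht, rfl⟩
    · exact ⟨_, ⟨_, ⟨t, ht, rfl⟩, Or.inl rfl⟩, Or.inl (by ring)⟩
    · exact ⟨_, ⟨_, ⟨t, ht, rfl⟩, Or.inr rfl⟩, Or.inl (by ring)⟩
    · exact ⟨_, ⟨_, ⟨t, ht, rfl⟩, Or.inl rfl⟩, Or.inr (by ring)⟩
    · exact ⟨_, ⟨_, ⟨t, ht, rfl⟩, Or.inr rfl⟩, Or.inr (by ring)⟩

lemma or_iff (s t c : ℝ) : (s = t ∨ s = c + t) ↔ ∃ a, (a = 0 ∨ a = c) ∧ s = a + t := by
  constructor
  · rintro (h | h)
    · exact ⟨0, Or.inl rfl, by rw [h, zero_add]⟩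
    · exact ⟨c, Or.inr rfl, h⟩
  · rintro ⟨a, rfl | rfl, h⟩
    · left; rw [h, zero_add]
    · right; exact h

lemma Y_iff (s : ℝ) : s ∈ Es y ↔ ∃ f ∈ FY, ∃ s' ∈ Es y, s = f + 1 / 9 * s' := by
  have s1 := (summable_nat_add_iff 1).mpr y_sum
  have s2 := (summable_nat_add_iff 1).mpr s1
  have s3 := (summable_nat_add_iff 1).mpr s2
  have e0 : y 0 = 7 := by norm_num [y]
  have e1 : y (0 + 1) = 6 := by norm_num [y]
  have e2 : y (0 + 1 + 1) = 5 := by norm_num [y]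
  have e3 : y (0 + 1 + 1 + 1) = 3 := by norm_num [y]
  simp only [Es_step y y_sum s, Es_step _ s1, Es_step _ s2, Es_step _ s3, y_shift, Es_scale,
    e0, e1, e2, e3, or_iff]
  constructor
  · rintro ⟨_, ⟨_, ⟨_, ⟨_, ⟨t, ht, rfl⟩, d, hd, rfl⟩, c, hc, rfl⟩, b, hb, rfl⟩, a, ha, rfl⟩
    exact ⟨_, ⟨a, b, c, d, ha, hb, hc, hd, rfl⟩, t, ht, by ring⟩
  · rintro ⟨_, ⟨a, b, c, d, ha, hb, hc, hd, rfl⟩, t, ht, rfl⟩
    exact ⟨_, ⟨_, ⟨_, ⟨_, ⟨t, ht, rfl⟩, d, hd, rfl⟩, c, hc, rfl⟩, b, hb, rfl⟩, a, ha, by ring⟩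

lemma FY_cases (f : ℝ) (hf : f ∈ FY) :
    f = 0 ∨ f = 3 ∨ f = 5 ∨ (6 ≤ f ∧ f ≤ 15) ∨ f = 16 ∨ f = 18 ∨ f = 21 := by
  obtain ⟨a, b, c, d, rfl | rfl, rfl | rfl, rfl | rfl, rfl | rfl, rfl⟩ := hf <;> norm_num

lemma FX_sub (f : ℝ) (hf : f ∈ FX) : f ∈ FY := by
  rcases hf with rfl | rfl | rfl | rfl
  · exact ⟨0, 0, 0, 0, by simp, by simp, by simp, by simp, by norm_num⟩
  · exact ⟨0, 0, 0, 3, by simp, by simp, by simp, by simp, by norm_num⟩
  · exact ⟨7, 6, 5, 0, by simp, by simp, by simp, by simp, by norm_num⟩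
  · exact ⟨7, 6, 5, 3, by simp, by simp, by simp, by simp, by norm_num⟩

lemma FY_mid (k : ℕ) (h1 : 5 ≤ k) (h2 : k ≤ 16) : (k : ℝ) ∈ FY := by
  interval_cases k
  · exact ⟨0, 0, 5, 0, by simp, by simp, by simp, by simp, by norm_num⟩
  · exact ⟨0, 6, 0, 0, by simp, by simp, by simp, by simp, by norm_num⟩
  · exact ⟨7, 0, 0, 0, by simp, by simp, by simp, by simp, by norm_num⟩
  · exact ⟨0, 0, 5, 3, by simp, by simp, by simp, by simp, by norm_num⟩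
  · exact ⟨0, 6, 0, 3, by simp, by simp, by simp, by simp, by norm_num⟩
  · exact ⟨7, 0, 0, 3, by simp, by simp, by simp, by simp, by norm_num⟩
  · exact ⟨0, 6, 5, 0, by simp, by simp, by simp, by simp, by norm_num⟩
  · exact ⟨7, 0, 5, 0, by simp, by simp, by simp, by simp, by norm_num⟩
  · exact ⟨7, 6, 0, 0, by simp, by simp, by simp, by simp, by norm_num⟩
  · exact ⟨0, 6, 5, 3, by simp, by simp, by simp, by simp, by norm_num⟩
  · exact ⟨7, 0, 5, 3, by simp, by simp, by simp, by simp, by norm_num⟩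
  · exact ⟨7, 6, 0, 3, by simp, by simp, by simp, by simp, by norm_num⟩

lemma y_tot : ∑' n, y n = 189 / 8 := by
  have h := y_sum.sum_add_tsum_nat_add 4
  have e : ∑' n, y (n + 4) = 1 / 9 * ∑' n, y n := by
    rw [← tsum_mul_left]; exact tsum_congr fun n => y_shift n
  have e2 : ∑ i ∈ Finset.range 4, y i = 21 := by norm_num [Finset.sum_range_succ, y]
  rw [e, e2] at h
  linarith

lemma Y_bd (s : ℝ) (hs : s ∈ Es y) : 0 ≤ s ∧ s ≤ 189 / 8 :=
  y_tot ▸ Es_bound y y_sum (fun n => (y_pos n).le) s hs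

lemma toY (S : Set ℝ) (hM : ∀ s ∈ S, |s| ≤ 100)
    (hS : ∀ s ∈ S, ∃ f ∈ FY, ∃ s' ∈ S, s = f + 1 / 9 * s') : S ⊆ Es y :=
  attract (Es y) S FY (1 / 9) 100 (by norm_num) (by norm_num) (Es_closed y y_sum) (Es_zero y)
    (fun f hf k hk => (Y_iff _).mpr ⟨f, hf, k, hk, rfl⟩) hM hS

lemma up (s : ℝ) (hs : s ∈ Es y) (h : s ≤ 45 / 8) : 18 + s ∈ Es y := by
  refine toY (Es y ∪ {t | t - 18 ∈ Es y ∧ t - 18 ≤ 45 / 8}) ?_ ?_ (Or.inr ⟨by simpa, by simpa⟩)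
  · rintro t (ht | ⟨ht, -⟩) <;> have := Y_bd _ ht <;> rw [abs_le] <;> constructor <;> linarith
  · rintro t (ht | ⟨ht, ht'⟩)
    · obtain ⟨f, hf, u, hu, e⟩ := (Y_iff _).mp ht
      exact ⟨f, hf, u, Or.inl hu, e⟩
    · obtain ⟨f, hf, u, hu, e⟩ := (Y_iff _).mp ht
      have hb := Y_bd u hu
      rcases FY_cases f hf with h1 | h1 | h1 | h1 | h1 | h1 | h1
      · exact ⟨18, FX_sub _ (by simp [FX]), u, Or.inl hu, by linarith⟩
      · exact ⟨21, FX_sub _ (by simp [FX]), u, Or.inl hu, by linarith⟩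
      · exact ⟨21, FX_sub _ (by simp [FX]), 18 + u, Or.inr ⟨by simpa, by linarith⟩, by linarith⟩
      all_goals linarith [h1, hb.1]

lemma down (s : ℝ) (hs : s ∈ Es y) (h : 18 ≤ s) : s - 18 ∈ Es y := by
  refine toY (Es y ∪ {t | t + 18 ∈ Es y ∧ 0 ≤ t}) ?_ ?_ (Or.inr ⟨by simpa, by simpa⟩)
  · rintro t (ht | ⟨ht, -⟩) <;> have := Y_bd _ ht <;> rw [abs_le] <;> constructor <;> linarith
  · rintro t (ht | ⟨ht, ht'⟩)
    · obtain ⟨f, hf, u, hu, e⟩ := (Y_iff _).mp ht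
      exact ⟨f, hf, u, Or.inl hu, e⟩
    · obtain ⟨f, hf, u, hu, e⟩ := (Y_iff _).mp ht
      have hb := Y_bd u hu
      rcases FY_cases f hf with h1 | h1 | h1 | h1 | h1 | h1 | h1
      · linarith [hb.2]
      · linarith [hb.2]
      · linarith [hb.2]
      · linarith [hb.2, h1.2]
      · exact ⟨0, FX_sub _ (by simp [FX]), u - 18, Or.inr ⟨by simpa, by linarith⟩, by linarith⟩
      · exact ⟨0, FX_sub _ (by simp [FX]), u, Or.inl hu, by linarith⟩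
      · exact ⟨3, FX_sub _ (by simp [FX]), u, Or.inl hu, by linarith⟩

lemma mid : Icc (45 / 8 : ℝ) 18 ⊆ Es y := by
  refine toY _ (fun s hs => by rw [abs_le]; constructor <;> linarith [hs.1, hs.2]) ?_
  intro s hs
  have h0 : (0 : ℝ) ≤ s - 5 / 8 := by linarith [hs.1]
  have h1 := Nat.floor_le h0
  have h2 := Nat.lt_floor_add_one (s - 5 / 8)
  have h3 : 5 ≤ ⌊s - 5 / 8⌋₊ := Nat.le_floor (by push_cast; linarith [hs.1])
  by_cases h4 : ⌊s - 5 / 8⌋₊ ≤ 16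
  · exact ⟨_, FY_mid _ h3 h4, 9 * (s - ⌊s - 5 / 8⌋₊), ⟨by linarith, by linarith⟩, by ring⟩
  · have h5 : (17 : ℝ) ≤ ⌊s - 5 / 8⌋₊ := by exact_mod_cast (by omega : 17 ≤ ⌊s - 5 / 8⌋₊)
    exact ⟨_, FY_mid 16 (by norm_num) le_rfl, 9 * (s - 16),
      ⟨by linarith, by linarith [hs.2]⟩, by push_cast; ring⟩

noncomputable def r (n : ℕ) : ℝ := ∑' k, x (n + 1 + k)

lemma r_shift (n : ℕ) : r (n + 1 + 1) = 1 / 9 * r n := by
  unfold r
  rw [← tsum_mul_left]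
  refine tsum_congr fun k => ?_
  rw [← x_shift]; congr 1; ring

lemma r_step (n : ℕ) : r n = x (n + 1) + r (n + 1) := by
  have h : Summable fun k => x (n + 1 + k) := by
    simpa only [add_comm] using (summable_nat_add_iff (n + 1)).mpr x_sum
  unfold r
  rw [h.tsum_eq_zero_add]
  congr 1
  exact tsum_congr fun k => by congr 1; ring

lemma r01 : r 0 = 45 / 8 ∧ r 1 = 21 / 8 := by
  have h0 := r_step 0
  have h1 := r_step 1
  have h2 := r_shift 0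
  have e1 : x (0 + 1) = 3 := by norm_num [x]
  have e2 : x (1 + 1) = 2 := by norm_num [x]
  rw [e1] at h0
  rw [e2] at h1
  norm_num at h0 h1 h2
  constructor <;> linarith

lemma fast (n : ℕ) : r n < x n ∧ r (n + 1) < x (n + 1) := by
  induction n with
  | zero =>
    have e0 : x 0 = 18 := by norm_num [x]
    have e1 : x (0 + 1) = 3 := by norm_num [x]
    rw [e0, e1, zero_add, r01.1, r01.2]; norm_num
  | succ n ih => exact ⟨ih.2, by rw [r_shift, x_shift]; linarith [ih.1]⟩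

def G (n : ℕ) : Set ℝ := {t | ∃ p ∈ Ps x n, p + r n < t ∧ t < p + x n}

lemma P_iff (n : ℕ) (p : ℝ) :
    p ∈ Ps x (n + 1 + 1) ↔ ∃ f ∈ FX, ∃ p' ∈ Ps x n, p = f + 1 / 9 * p' := by
  have e0 : x 0 = 18 := by norm_num [x]
  have e1 : x (0 + 1) = 3 := by norm_num [x]
  simp only [Ps_step, x_shift, Ps_scale, e0, e1]
  constructor
  · rintro ⟨_, ⟨_, ⟨t, ht, rfl⟩, rfl | rfl⟩, rfl | rfl⟩
    · exact ⟨0, by simp [FX], t, ht, by ring⟩
    · exact ⟨18, by simp [FX], t, ht, by ring⟩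
    · exact ⟨3, by simp [FX], t, ht, by ring⟩
    · exact ⟨21, by simp [FX], t, ht, by ring⟩
  · rintro ⟨f, rfl | rfl | rfl | rfl, t, ht, rfl⟩
    · exact ⟨_, ⟨_, ⟨t, ht, rfl⟩, Or.inl rfl⟩, Or.inl (by ring)⟩
    · exact ⟨_, ⟨_, ⟨t, ht, rfl⟩, Or.inr rfl⟩, Or.inl (by ring)⟩
    · exact ⟨_, ⟨_, ⟨t, ht, rfl⟩, Or.inl rfl⟩, Or.inr (by ring)⟩
    · exact ⟨_, ⟨_, ⟨t, ht, rfl⟩, Or.inr rfl⟩, Or.inr (by ring)⟩

lemma G_iff (n : ℕ) (t : ℝ) :
    t ∈ G (n + 1 + 1) ↔ ∃ f ∈ FX, ∃ t' ∈ G n, t = f + 1 / 9 * t' := by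
  constructor
  · rintro ⟨p, hp, h1, h2⟩
    obtain ⟨f, hf, p', hp', rfl⟩ := (P_iff n p).mp hp
    rw [r_shift] at h1
    rw [x_shift] at h2
    exact ⟨f, hf, 9 * (t - f), ⟨p', hp', by linarith, by linarith⟩, by ring⟩
  · rintro ⟨f, hf, t', ⟨p', hp', h1, h2⟩, rfl⟩
    refine ⟨_, (P_iff n _).mpr ⟨f, hf, p', hp', rfl⟩, ?_, ?_⟩
    · rw [r_shift]; linarith
    · rw [x_shift]; linarith

lemma G_zero (t : ℝ) : t ∈ G 0 ↔ 45 / 8 < t ∧ t < 18 := by
  have e0 : x 0 = 18 := by norm_num [x]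
  constructor
  · rintro ⟨_, ⟨F, hF, rfl⟩, h1, h2⟩
    rw [Finset.range_zero, Finset.subset_empty] at hF
    rw [hF, Finset.sum_empty, zero_add] at h1 h2
    rw [r01.1] at h1
    rw [e0] at h2
    exact ⟨h1, h2⟩
  · rintro ⟨h1, h2⟩
    exact ⟨0, ⟨∅, by simp, by simp⟩, by rw [r01.1]; linarith, by rw [e0]; linarith⟩

lemma G_sub (j : ℕ) : G (2 * j) ⊆ Es y := by
  induction j with
  | zero => intro t ht; exact mid ⟨((G_zero t).mp ht).1.le, ((G_zero t).mp ht).2.le⟩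
  | succ j ih =>
    intro t ht
    obtain ⟨f, hf, t', ht', rfl⟩ := (G_iff (2 * j) t).mp ht
    exact (Y_iff _).mpr ⟨f, FX_sub f hf, t', ih ht', rfl⟩

lemma main : Es y = Es x ∪ {t | ∃ n, Even n ∧ t ∈ G n} := by
  apply Subset.antisymm
  · have key : Es y \ {t | ∃ n, Even n ∧ t ∈ G n} ⊆ Es x := by
      refine attract (Es x) _ FX (1 / 9) 100 (by norm_num) (by norm_num) (Es_closed x x_sum)
        (Es_zero x) (fun f hf k hk => (X_iff _).mpr ⟨f, hf, k, hk, rfl⟩) ?_ ?_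
      · rintro s ⟨hs, -⟩
        have := Y_bd s hs
        rw [abs_le]; constructor <;> linarith
      · rintro s ⟨hs, hG⟩
        have h0 : ¬ (45 / 8 < s ∧ s < 18) := fun h => hG ⟨0, Even.zero, (G_zero s).mpr h⟩
        have h1 : ∃ f ∈ FX, ∃ s' ∈ Es y, s = f + 1 / 9 * s' := by
          obtain ⟨f, hf, u, hu, e⟩ := (Y_iff _).mp hs
          have hb := Y_bd u hu
          rcases FY_cases f hf with h1 | h1 | h1 | h1 | h1 | h1 | h1
          · exact ⟨f, by simp [FX, h1], u, hu, e⟩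
          · exact ⟨f, by simp [FX, h1], u, hu, e⟩
          · refine ⟨3, by simp [FX], 18 + u, up u hu ?_, by linarith⟩
            by_contra h2
            exact h0 ⟨by linarith, by linarith [hb.2]⟩
          · exact absurd ⟨by linarith [h1.1, hb.1], by linarith [h1.2, hb.2]⟩ h0
          · refine ⟨18, by simp [FX], u - 18, down u hu ?_, by linarith⟩
            by_contra h2
            exact h0 ⟨by linarith [hb.1], by linarith⟩
          · exact ⟨f, by simp [FX, h1], u, hu, e⟩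
          · exact ⟨f, by simp [FX, h1], u, hu, e⟩
        obtain ⟨f, hf, u, hu, e⟩ := h1
        refine ⟨f, hf, u, ⟨hu, ?_⟩, e⟩
        rintro ⟨n, hn, hun⟩
        exact hG ⟨n + 1 + 1, hn.add_one.add_one, (G_iff n s).mpr ⟨f, hf, u, hun, e⟩⟩
    intro s hs
    by_cases h : s ∈ {t | ∃ n, Even n ∧ t ∈ G n}
    · exact Or.inr h
    · exact Or.inl (key ⟨hs, h⟩)
  · rintro s (hs | ⟨n, ⟨j, rfl⟩, hs⟩)
    · refine toY (Es x) (fun t ht => ?_) (fun t ht => ?_) hs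
      · have h1 := Es_bound x x_sum (fun n => (x_pos n).le) t ht
        have h2 := x_sum.tsum_eq_zero_add
        have e0 : x 0 = 18 := by norm_num [x]
        have h3 : ∑' b, x (b + 1) = r 0 := tsum_congr fun k => by congr 1; ring
        rw [h3, r01.1, e0] at h2
        rw [abs_le]; constructor <;> linarith [h1.1, h1.2]
      · obtain ⟨f, hf, u, hu, e⟩ := (X_iff _).mp ht
        exact ⟨f, FX_sub f hf, u, hu, e⟩
    · rw [← two_mul] at hs
      exact G_sub j hs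

/-- There is a positive summable x with each term exceeding its tail sum, such that the set of all its subsums together with the gaps removed at odd construction steps equals the set of all subsums of some positive summable sequence. -/
theorem result :
    ∃ x : ℕ → ℝ, (∀ n, 0 < x n) ∧ Summable x ∧
      (∀ n, ∑' k, x (n + 1 + k) < x n) ∧
      ∃ y : ℕ → ℝ, (∀ n, 0 < y n) ∧ Summable y ∧
        {s : ℝ | ∃ A : Set ℕ, s = ∑' n, A.indicator y n} =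
          {s : ℝ | ∃ A : Set ℕ, s = ∑' n, A.indicator x n} ∪
          {t : ℝ | ∃ n : ℕ, Even n ∧ ∃ F : Finset ℕ, F ⊆ Finset.range n ∧
              (∑ i ∈ F, x i) + (∑' k, x (n + 1 + k)) < t ∧
              t < (∑ i ∈ F, x i) + x n} := by
  refine ⟨x, x_pos, x_sum, fun n => (fast n).1, y, y_pos, y_sum, ?_⟩
  refine main.trans ?_
  congr 1
  ext t
  constructor
  · rintro ⟨n, hn, _, ⟨F, hF, rfl⟩, h1, h2⟩
    exact ⟨n, hn, F, hF, h1, h2⟩
  · rintro ⟨n, hn, F, hF, h1, h2⟩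
    exact ⟨n, hn, _, ⟨F, hF, rfl⟩, h1, h2⟩

end Pool.Agent.S04707
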