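import Pool.Statements.S04713
import Pool.Agent.H29.Trop

set_option autoImplicit false
open Pool Pool.MP_561634_an

namespace Pool.Agent.S04713

theorem result :
    ∀ p : ℕ, 3 ≤ p → ∀ f : Polynomial ℝ,
      (((∑ n ∈ f.support,
            Polynomial.C (f.coeff n * Real.exp (-((n : ℝ) ^ p))) * Polynomial.X ^ n).map
            (algebraMap ℝ ℂ)).roots.filter (fun z : ℂ => z.im ≠ 0)).card
        ≤ ((f.map (algebraMap ℝ ℂ)).roots.filter (fun z : ℂ => z.im ≠ 0)).card := by
  intro p hp f
  refine Pool.Agent.H29.Trop.czds (fun k => Real.exp (-((k : ℝ) ^ p))) (fun k => Real.exp_pos _)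
    (Pool.Agent.H29.Trop.exp_ratio p hp) f _ (fun k => ?_)
  simp only [Polynomial.finset_sum_coeff, Polynomial.coeff_C_mul, Polynomial.coeff_X_pow, mul_ite,
    mul_one, mul_zero, Finset.sum_ite_eq, Polynomial.mem_support_iff]
  split_ifs with h
  · ring
  · simp [not_not.mp h]

end Pool.Agent.S04713
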