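import Pool.Statements.S04719
import Pool.Agent.H29.Surj

set_option autoImplicit false
open Pool Pool.MP_565f87_an

namespace Pool.Agent.S04719

theorem result :
    ∀ (M : Type) [Monoid M],
      (∀ s : Finset M, (Submonoid.closure (s : Set M) : Set M).Finite) →
      ∀ (k : ℕ) (τ : (M → Fin k) → (M → Fin k)),
        (∃ S : Finset M, ∃ μ : ({a : M // a ∈ S} → Fin k) → Fin k,
          ∀ (x : M → Fin k) (m : M), τ x m = μ (fun s => x (m * s.1))) →
        Function.Injective τ → Function.Surjective τ := by
  classical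
  intro M _ hM k τ ⟨S, μ, hτ⟩ hinj
  have hs : Pool.Agent.H29.Surj.Surjunctive Mᵐᵒᵖ := by
    apply Pool.Agent.H29.Surj.local_global
    rintro N ⟨s, rfl⟩
    have h1 := hM (s.image MulOpposite.unop)
    have h2 : (Submonoid.closure (s : Set Mᵐᵒᵖ) : Set Mᵐᵒᵖ).Finite := by
      refine (h1.image MulOpposite.op).subset ?_
      intro x hx
      refine ⟨x.unop, ?_, rfl⟩
      induction hx using Submonoid.closure_induction with
      | mem y hy => exact Submonoid.subset_closure (by simpa using hy)
      | one => exact Submonoid.one_mem _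
      | mul a b _ _ ha hb => exact Submonoid.mul_mem _ hb ha
    have : Finite (Submonoid.closure (s : Set Mᵐᵒᵖ)) := h2
    exact Pool.Agent.H29.Surj.finite_surj _
  let S' : Finset Mᵐᵒᵖ := S.image MulOpposite.op
  let μ' : (↥S' → Fin k) → Fin k := fun z =>
    μ (fun s => z ⟨MulOpposite.op s.1, Finset.mem_image_of_mem _ s.2⟩)
  have key : ∀ x : Mᵐᵒᵖ → Fin k, Pool.Agent.H29.Surj.ca S' μ' x =
      fun m => τ (fun a => x (MulOpposite.op a)) m.unop := by
    intro x
    funext m
    rw [hτ]
    rfl
  have h3 := hs (Fin k) S' μ' (by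
    intro x y hxy
    rw [key, key] at hxy
    have : (fun a => x (MulOpposite.op a)) = fun a => y (MulOpposite.op a) := by
      apply hinj
      funext m
      exact congrFun hxy (MulOpposite.op m)
    funext m
    exact congrFun this m.unop)
  intro y
  obtain ⟨x, hx⟩ := h3 (fun m => y m.unop)
  refine ⟨fun a => x (MulOpposite.op a), ?_⟩
  funext m
  rw [key] at hx
  exact congrFun hx (MulOpposite.op m)

end Pool.Agent.S04719
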