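import Pool.Statements.S04722
import Pool.Agent.H33.Gab

set_option autoImplicit false
open MeasureTheory Real ComplexConjugate
open Pool Pool.MP_5691a6_an

namespace Pool.Agent.S04722

open Pool.Agent.H33.Gab

def A : Finset (ℤ × ℤ) := {(0, 0), (1, 0), (0, 1), (1, 1)}

noncomputable def W (c : ℤ × ℤ) : ℂ := if c ∈ A then if c = (1, 1) then -1 / 2 else 1 / 2 else 0

lemma hW : ∀ c ∉ A, W c = 0 := fun c hc => if_neg hc

lemma sA (g : ℤ × ℤ → ℂ) : ∑ c ∈ A, g c = g (0, 0) + g (1, 0) + g (0, 1) + g (1, 1) := by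
  simp [A, add_assoc]

lemma key (a b i j a' b' i' j' : ℤ) :
    ∫ x : V, W (cl (x - v (a, 2 * b))) * e (i / 2 * x 0 + j * x 1) *
      conj (W (cl (x - v (a', 2 * b'))) * e (i' / 2 * x 0 + j' * x 1)) =
      if a = a' ∧ b = b' ∧ i = i' ∧ j = j' then 1 else 0 := by
  rw [ip A W hW, sA]
  have e1 := e_int (j - j')
  push_cast at e1
  simp only [Prod.mk_sub_mk, Prod.mk_add_mk, Int.cast_zero, Int.cast_one, mul_zero, mul_one, zero_add,
    add_zero, e_add, e_zero, e1]
  by_cases hb : b = b'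
  swap
  · rw [hW (a - a', _), hW (1 + _, 2 * b - _), hW (_, 1 + _), hW (1 + _, 1 + _)] <;>
      simp [A, hb] <;> omega
  subst hb
  by_cases ha : a = a'
  · subst ha
    obtain ⟨k, hk | hk⟩ := Int.even_or_odd' (i - i')
    · have := torus.1 k (j - j')
      have e2 : (i : ℝ) / 2 - i' / 2 = k := by
        have : (i : ℝ) - i' = 2 * k := by exact_mod_cast hk
        linarith
      simp only [e_add, Int.cast_sub] at this
      rw [e2, this, e_int]
      split_ifs with h1 h2 h2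
      · simp [W, A, h1.1, h2.2.2.2, e_zero, map_ofNat]; norm_num
      · omega
      · omega
      · simp
    · have e2 : (i : ℝ) / 2 - i' / 2 = k + 1 / 2 := by
        have : (i : ℝ) - i' = 2 * k + 1 := by exact_mod_cast hk
        linarith
      rw [e2, e_half, if_neg (by omega)]
      simp [W, A, map_ofNat]; norm_num
  rw [if_neg (by omega)]
  by_cases h1 : a - a' = 1
  · simp [W, A, h1, map_ofNat]; norm_num
  by_cases h2 : a - a' = -1
  · simp [W, A, h2, map_ofNat]; exact Or.inl (by ring)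
  rw [hW (a - a', _), hW (1 + _, 2 * b - _), hW (_, 1 + _), hW (1 + _, 1 + _)] <;>
    simp [A] <;> omega

theorem result :
    ¬ (∀ (d : ℕ), 0 < d →
    ∀ (g : EuclideanSpace ℝ (Fin d) → ℂ) (T S : Set (EuclideanSpace ℝ (Fin d))),
      MemLp g 2 volume → HasCompactSupport g →
      (∀ t₁ ∈ T, ∀ s₁ ∈ S, ∀ t₂ ∈ T, ∀ s₂ ∈ S, (t₁ ≠ t₂ ∨ s₁ ≠ s₂) →
        ∫ x, (g (x - t₁) * Complex.exp (2 * π * Complex.I * ((@inner ℝ _ _ s₁ x : ℝ) : ℂ))) *
          conj (g (x - t₂) * Complex.exp (2 * π * Complex.I * ((@inner ℝ _ _ s₂ x : ℝ) : ℂ))) = 0) →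
      (∀ t ∈ T, ∀ s ∈ S,
        ∫ x, (g (x - t) * Complex.exp (2 * π * Complex.I * ((@inner ℝ _ _ s x : ℝ) : ℂ))) *
          conj (g (x - t) * Complex.exp (2 * π * Complex.I * ((@inner ℝ _ _ s x : ℝ) : ℂ))) = 1) →
      (∀ f : EuclideanSpace ℝ (Fin d) → ℂ, MemLp f 2 volume →
        (∀ t ∈ T, ∀ s ∈ S,
          ∫ x, f x * conj (g (x - t) * Complex.exp (2 * π * Complex.I * ((@inner ℝ _ _ s x : ℝ) : ℂ))) = 0) →
        f =ᵐ[volume] 0) →
      ∃ Ω : Set (EuclideanSpace ℝ (Fin d)),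
        MeasurableSet Ω ∧ 0 < volume Ω ∧ volume Ω < ⊤ ∧
        (∀ᵐ x ∂volume, ‖g x‖ = (volume Ω).toReal ^ (-(1 / 2 : ℝ)) * Ω.indicator (fun _ => (1 : ℝ)) x) ∧
        (∀ᵐ x ∂volume, ∃! l, l ∈ T ∧ x - l ∈ Ω) ∧
        (∀ l ∈ S, ∀ m ∈ S, l ≠ m →
          ∫ x in Ω, Complex.exp (2 * π * Complex.I * ((@inner ℝ _ _ l x : ℝ) : ℂ)) *
            conj (Complex.exp (2 * π * Complex.I * ((@inner ℝ _ _ m x : ℝ) : ℂ))) = 0) ∧
        (∀ f : EuclideanSpace ℝ (Fin d) → ℂ, MemLp f 2 (volume.restrict Ω) →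
          (∀ l ∈ S, ∫ x in Ω, f x * conj (Complex.exp (2 * π * Complex.I * ((@inner ℝ _ _ l x : ℝ) : ℂ))) = 0) →
          f =ᵐ[volume.restrict Ω] 0)) := by
  intro H
  have ee : ∀ (i j : ℤ) (x : V), Complex.exp (2 * π * Complex.I * ((@inner ℝ _ _
    (!₂[(i : ℝ) / 2, j] : V) x : ℝ) : ℂ)) = e (i / 2 * x 0 + j * x 1) := fun i j x => by rw [inn]; rfl
  have hc : HasCompactSupport fun x => W (cl x) :=
    HasCompactSupport.intro (isCompact_closedBall (0 : V) 2) fun x hx => hW _ fun h => hx (by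
      have : (⌈x 0⌉ = 0 ∨ ⌈x 0⌉ = 1) ∧ (⌈x 1⌉ = 0 ∨ ⌈x 1⌉ = 1) := by
        simp only [A, cl, Finset.mem_insert, Finset.mem_singleton, Prod.mk.injEq] at h; omega
      simp only [Int.ceil_eq_iff] at this
      rw [mem_closedBall_zero_iff, EuclideanSpace.norm_eq, Real.sqrt_le_iff]
      simp only [Fin.sum_univ_two, Real.norm_eq_abs, sq_abs]
      push_cast at this
      obtain ⟨h1 | h1, h2 | h2⟩ := this <;> exact ⟨by norm_num, by nlinarith⟩)
  obtain ⟨Ω, -, -, -, h1, h2, -⟩ := H 2 two_pos (fun x => W (cl x))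
    (Set.range fun p : ℤ × ℤ => v (p.1, 2 * p.2)) (Set.range fun p : ℤ × ℤ => !₂[(p.1 : ℝ) / 2, p.2])
    (hc.memLp_of_bound ((measurable_of_countable W).comp mcl).aestronglyMeasurable 1
      (.of_forall fun x => by unfold W; split_ifs <;> norm_num)) hc
    (by
      rintro _ ⟨⟨a, b⟩, rfl⟩ _ ⟨⟨i, j⟩, rfl⟩ _ ⟨⟨a', b'⟩, rfl⟩ _ ⟨⟨i', j'⟩, rfl⟩ h
      simp only [ee, key]
      refine if_neg ?_
      rintro ⟨rfl, rfl, rfl, rfl⟩
      simp at h)
    (by
      rintro _ ⟨⟨a, b⟩, rfl⟩ _ ⟨⟨i, j⟩, rfl⟩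
      simp only [ee, key, and_self, if_true])
    (fun f hf h => zero f (by
      have := ae_all_iff.2 fun p : ℤ × ℤ × ℤ => comp' f hf A W hW (p.1, 2 * p.2.1) (p.2.2 / 2) 0
        fun m n => by
          have := h _ ⟨(p.1, p.2.1), rfl⟩ _ ⟨(-(p.2.2 + 2 * m), -n), rfl⟩
          simp only [ee] at this
          rw [← this]
          push_cast
          ring_nf
      filter_upwards [this] with x hx
      have k : ∀ a b : ℤ, f (x + v (a, 2 * b)) + f (x + v (a, 1 + 2 * b)) = 0 ∧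
          f (x + v (1 + a, 2 * b)) - f (x + v (1 + a, 1 + 2 * b)) = 0 := fun a b => by
        have h0 := hx (a, b, 0)
        have h1 := hx (a, b, 1)
        have h2 := e_half 0
        have h3 : e (1 / 2 * a) ≠ 0 := Complex.exp_ne_zero _
        simp only [sA, Prod.mk_add_mk, zero_add, Int.cast_zero, zero_div, zero_mul, e_zero, Int.cast_one,
          add_zero, Int.cast_add, mul_add, mul_one, e_add] at h0 h1 h2
        rw [h2] at h1
        simp [W, A, map_ofNat] at h0 h1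
        simp only [one_div] at h3
        constructor <;> apply mul_left_cancel₀ h3
        · linear_combination e (2⁻¹ * a) * h0 + h1
        · linear_combination e (2⁻¹ * a) * h0 - h1
      rintro ⟨a, b⟩
      obtain ⟨c, rfl | rfl⟩ := Int.even_or_odd' b
      all_goals
        have h1 := (k a c).1
        have h2 := (k (a - 1) c).2
        rw [add_sub_cancel] at h2
      · linear_combination h1 / 2 + h2 / 2
      · rw [add_comm (2 * c)]
        linear_combination h1 / 2 - h2 / 2))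
  have h3 : ∀ᵐ x, cl x ∈ A → x ∈ Ω := h1.mono fun x hx hA => by
    by_contra h
    rw [Set.indicator_of_notMem h, mul_zero, norm_eq_zero, W, if_pos hA] at hx
    split_ifs at hx <;> norm_num at hx
  have h4 := ae_all_iff.2 fun c =>
    (measurePreserving_sub_right volume (v c)).quasiMeasurePreserving.ae h3
  have : ∀ᵐ x, x ∉ Q := by
    filter_upwards [h2, h4] with x a b hx
    have hx : cl x = 0 := hx
    have := a.unique ⟨⟨(0, 0), rfl⟩, b _ (by simp [cl_sub, hx, A])⟩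
      ⟨⟨(-1, 0), rfl⟩, b _ (by simp [cl_sub, hx, A])⟩
    simpa [v] using congrArg (fun y : V => y 0) this
  simpa [torus.2.1] using measure_eq_zero_iff_ae_notMem.2 this

end Pool.Agent.S04722
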