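import Pool.Statements.S04734
import Pool.Agent.H1.HillE

set_option autoImplicit false
open Pool Pool.MP_5876d3_an

namespace Pool.Agent.S04734

/-- The negation of the preceding statement: For any locally integrable complex a-periodic q, if the zero order of (tr M)^2-4 at z exceeds the sum of the minimal (over base points in [0,a]) Dirichlet and Neumann zero orders at z, then that sum is 0. -/
theorem result :
    ¬ (∀ (a : ℝ), 0 < a → ∀ q : ℝ → ℂ, Function.Periodic q a →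
    MeasureTheory.LocallyIntegrable q MeasureTheory.volume →
    ∀ c dc s ds : ℝ → ℂ → ℝ → ℂ,
    (∀ (x₀ : ℝ) (z : ℂ), Continuous (c x₀ z) ∧ Continuous (dc x₀ z) ∧
      Continuous (s x₀ z) ∧ Continuous (ds x₀ z) ∧
      ∀ x : ℝ,
        (c x₀ z x = 1 + ∫ t in x₀..x, dc x₀ z t) ∧
        (dc x₀ z x = ∫ t in x₀..x, (q t - z) * c x₀ z t) ∧
        (s x₀ z x = ∫ t in x₀..x, ds x₀ z t) ∧
        (ds x₀ z x = 1 + ∫ t in x₀..x, (q t - z) * s x₀ z t)) →
    ∀ z : ℂ,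
      (⨅ x₀ ∈ Set.Icc (0 : ℝ) a, analyticOrderAt (fun w : ℂ => s x₀ w (x₀ + a)) z) +
        (⨅ x₀ ∈ Set.Icc (0 : ℝ) a, analyticOrderAt (fun w : ℂ => dc x₀ w (x₀ + a)) z)
        < analyticOrderAt (fun w : ℂ => (c 0 w a + ds 0 w a) ^ 2 - 4) z →
      (⨅ x₀ ∈ Set.Icc (0 : ℝ) a, analyticOrderAt (fun w : ℂ => s x₀ w (x₀ + a)) z) +
        (⨅ x₀ ∈ Set.Icc (0 : ℝ) a, analyticOrderAt (fun w : ℂ => dc x₀ w (x₀ + a)) z) = 0) := by
  intro H
  open Pool.Agent.H1.Hill in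
  have hp : (0 : ℝ) < 4 * Real.pi := by positivity
  open Pool.Agent.H1.Hill in
  have h1 : (⨅ x₀ ∈ Set.Icc (0 : ℝ) (4 * Real.pi),
      analyticOrderAt (fun w : ℂ => S1.s x₀ w (x₀ + 4 * Real.pi)) 0) = 1 := by
    refine le_antisymm (iInf₂_le_of_le 0 ⟨le_rfl, hp.le⟩ (S1.s_order γ_ne (y1_ne 0)).le) ?_
    exact le_iInf₂ fun x _ => (S1.s_order γ_ne (y1_ne x)).ge
  open Pool.Agent.H1.Hill in
  have h2 : (⨅ x₀ ∈ Set.Icc (0 : ℝ) (4 * Real.pi),
      analyticOrderAt (fun w : ℂ => S1.dc x₀ w (x₀ + 4 * Real.pi)) 0) ≤ 1 :=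
    iInf₂_le_of_le Real.pi ⟨Real.pi_pos.le, by linarith [Real.pi_pos]⟩ (S1.dc_order γ_ne d1_ne).le
  open Pool.Agent.H1.Hill in
  have h3 : analyticOrderAt (fun w : ℂ => (S1.c 0 w (4 * Real.pi) + S1.ds 0 w (4 * Real.pi)) ^ 2 - 4)
      0 = 3 := by
    have := S1.D_order γ_ne (x0 := 0) (by rw [R21_val]; simp)
    simpa [S1] using this
  open Pool.Agent.H1.Hill in
  have h := H (4 * Real.pi) hp q q_per q_cont.locallyIntegrable S1.c S1.dc S1.s S1.ds
    S1.integral_form 0 (by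
      rw [h1, h3]
      exact lt_of_le_of_lt (add_le_add le_rfl h2) (by norm_num))
  rw [h1] at h
  simp at h

end Pool.Agent.S04734
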