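import Pool.Statements.S04738


set_option autoImplicit false
open scoped Topology
open Pool Pool.MP_5915c0_an

namespace Pool.Agent.S04738

open Complex in
lemma nsq (a b : ℂ) : ‖(a • EuclideanSpace.single (0 : Fin 2) (1 : ℂ) + b • EuclideanSpace.single (1 : Fin 2) (1 : ℂ) : EuclideanSpace ℂ (Fin 2))‖ ^ 2 = ‖a‖ ^ 2 + ‖b‖ ^ 2 := by
  rw [EuclideanSpace.norm_sq_eq, Fin.sum_univ_two]
  simp

noncomputable def den (w : Fin 2 → ℂ) : ℂ := w 0 * w 1 + Complex.I * (w 0 + w 1)
noncomputable def num (w : Fin 2 → ℂ) : ℂ := w 0 * w 1 - Complex.I * (w 0 + w 1)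
noncomputable def e0 : EuclideanSpace ℂ (Fin 2) := EuclideanSpace.single (0 : Fin 2) (1 : ℂ)
noncomputable def e1 : EuclideanSpace ℂ (Fin 2) := EuclideanSpace.single (1 : Fin 2) (1 : ℂ)
noncomputable def pp (w : Fin 2 → ℂ) : EuclideanSpace ℂ (Fin 2) :=
  (Complex.I * den w) • e0 + (w 0 * num w) • e1
noncomputable def qq (w : Fin 2 → ℂ) : ℂ := (Complex.I + w 0) * den w
noncomputable def gg (w : Fin 2 → ℂ) : EuclideanSpace ℂ (Fin 2) :=
  (Complex.I / (Complex.I + w 0)) • e0 + (w 0 * num w / ((Complex.I + w 0) * den w)) • e1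
noncomputable def rho : (Fin 2 → ℂ) →L[ℝ] (Fin 2 → ℝ) :=
  ContinuousLinearMap.pi (fun i => Complex.imCLM.comp (ContinuousLinearMap.proj (R := ℝ) (φ := fun _ : Fin 2 => ℂ) i))

lemma rho_apply (w : Fin 2 → ℂ) (i : Fin 2) : rho w i = (w i).im := by simp [rho]

lemma an_coord (i : Fin 2) (x : Fin 2 → ℂ) : AnalyticAt ℂ (fun w : Fin 2 → ℂ => w i) x :=
  (ContinuousLinearMap.proj (R := ℂ) (φ := fun _ : Fin 2 => ℂ) i).analyticAt x

lemma an_den (x : Fin 2 → ℂ) : AnalyticAt ℂ den x :=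
  ((an_coord 0 x).mul (an_coord 1 x)).add (analyticAt_const.mul ((an_coord 0 x).add (an_coord 1 x)))

lemma an_num (x : Fin 2 → ℂ) : AnalyticAt ℂ num x :=
  ((an_coord 0 x).mul (an_coord 1 x)).sub (analyticAt_const.mul ((an_coord 0 x).add (an_coord 1 x)))

lemma an_gg (x : Fin 2 → ℂ) (h1 : Complex.I + x 0 ≠ 0) (h2 : den x ≠ 0) : AnalyticAt ℂ gg x := by
  have a1 : AnalyticAt ℂ (fun w : Fin 2 → ℂ => Complex.I + w 0) x := analyticAt_const.add (an_coord 0 x)
  have a2 : AnalyticAt ℂ (fun w : Fin 2 → ℂ => Complex.I / (Complex.I + w 0)) x :=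
    analyticAt_const.div a1 h1
  have a3 : AnalyticAt ℂ (fun w : Fin 2 → ℂ => w 0 * num w / ((Complex.I + w 0) * den w)) x :=
    ((an_coord 0 x).mul (an_num x)).div (a1.mul (an_den x)) (mul_ne_zero h1 h2)
  exact (a2.smul analyticAt_const).add (a3.smul analyticAt_const)

lemma diff_sq (w : Fin 2 → ℂ) :
    ‖den w‖ ^ 2 - ‖num w‖ ^ 2 = 4 * (‖w 0‖ ^ 2 * (w 1).im + ‖w 1‖ ^ 2 * (w 0).im) := by
  simp only [Complex.sq_norm, Complex.normSq_apply, den, num]
  simp
  ring

lemma add_sq (z : ℂ) : ‖Complex.I + z‖ ^ 2 = 1 + 2 * z.im + ‖z‖ ^ 2 := by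
  simp only [Complex.sq_norm, Complex.normSq_apply]
  simp
  ring

lemma ne_of_im (z : ℂ) (h : 0 ≤ z.im) : Complex.I + z ≠ 0 := by
  intro h0
  have := congrArg Complex.im h0
  simp at this
  linarith

lemma num_lt (w : Fin 2 → ℂ) (h0 : 0 < (w 0).im) (h1 : 0 < (w 1).im) : ‖num w‖ ^ 2 < ‖den w‖ ^ 2 := by
  have := diff_sq w
  have a0 : w 0 ≠ 0 := by intro h; rw [h] at h0; simp at h0
  have a1 : w 1 ≠ 0 := by intro h; rw [h] at h1; simp at h1
  have b0 : 0 < ‖w 0‖ ^ 2 := by positivity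
  have b1 : 0 < ‖w 1‖ ^ 2 := by positivity
  nlinarith [mul_pos b0 h1, mul_pos b1 h0]

lemma den_ne (w : Fin 2 → ℂ) (h0 : 0 < (w 0).im) (h1 : 0 < (w 1).im) : den w ≠ 0 := by
  intro h
  have := num_lt w h0 h1
  rw [h] at this
  simp at this
  nlinarith [sq_nonneg ‖num w‖]

lemma gg_sq (w : Fin 2 → ℂ) :
    ‖gg w‖ ^ 2 = (1 + ‖w 0‖ ^ 2 * (‖num w‖ ^ 2 / ‖den w‖ ^ 2)) / ‖Complex.I + w 0‖ ^ 2 := by
  unfold gg e0 e1
  rw [nsq]
  simp only [norm_div, norm_mul, Complex.norm_I, div_pow, mul_pow]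
  rw [add_div, one_pow]
  congr 1
  rw [mul_div_assoc', div_div, mul_comm (‖den w‖ ^ 2)]

lemma gg_lt (w : Fin 2 → ℂ) (h0 : 0 < (w 0).im) (h1 : 0 < (w 1).im) : ‖gg w‖ < 1 := by
  have h2 : ‖gg w‖ ^ 2 < 1 := by
    rw [gg_sq, add_sq]
    have hd : 0 < ‖den w‖ ^ 2 := by have := den_ne w h0 h1; positivity
    have : ‖num w‖ ^ 2 / ‖den w‖ ^ 2 ≤ 1 := by
      rw [div_le_one hd]; exact (num_lt w h0 h1).le
    rw [div_lt_one (by positivity)]
    nlinarith [sq_nonneg ‖w 0‖]
  nlinarith [norm_nonneg (gg w)]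

lemma gg_ge (w : Fin 2 → ℂ) : ‖Complex.I + w 0‖⁻¹ ≤ ‖gg w‖ := by
  have h2 : (‖Complex.I + w 0‖⁻¹) ^ 2 ≤ ‖gg w‖ ^ 2 := by
    rw [gg_sq, inv_pow, ← one_div]
    gcongr
    have : 0 ≤ ‖w 0‖ ^ 2 * (‖num w‖ ^ 2 / ‖den w‖ ^ 2) := by positivity
    linarith
  exact (pow_le_pow_iff_left₀ (by positivity) (by positivity) two_ne_zero).1 h2

lemma gg_one (m : Fin 2 → ℂ) (h0 : (m 0).im = 0) (h1 : (m 1).im = 0) (hd : den m ≠ 0) :
    ‖gg m‖ = 1 := by
  have h2 : ‖gg m‖ ^ 2 = 1 := by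
    have h3 := diff_sq m
    rw [h0, h1] at h3
    have h4 : ‖num m‖ ^ 2 = ‖den m‖ ^ 2 := by linarith
    have hd' : 0 < ‖den m‖ ^ 2 := by positivity
    rw [gg_sq, add_sq, h4, h0, div_self hd'.ne']
    have : 0 < 1 + ‖m 0‖ ^ 2 := by positivity
    rw [div_eq_one_iff_eq (by linarith)]
    ring
  nlinarith [norm_nonneg (gg m)]

lemma den_real (m : Fin 2 → ℂ) (h0 : (m 0).im = 0) (h1 : (m 1).im = 0) (hd : den m = 0) :
    m 0 = 0 := by
  have a := congrArg Complex.re hd
  have b := congrArg Complex.im hd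
  simp [den, h0, h1] at a b
  apply Complex.ext
  · simp only [Complex.zero_re]
    rcases a with a | a
    · exact a
    · linarith
  · simpa using h0


/-- The negation of the preceding statement: M near z is a real-analytic generic submanifold cut out by ρ, and W = {ρ ∈ Γ} a wedge on M. If p/q is holomorphic on W with norm below 1 tending to 1 at M, it extends holomorphically to a neighbourhood of z. -/
theorem result :
    ¬ (∀ (n d N : ℕ) (z : Fin n → ℂ) (U : Set (Fin n → ℂ)) (ρ : (Fin n → ℂ) → (Fin d → ℝ))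
    (Γ : Set (Fin d → ℝ)) (p : (Fin n → ℂ) → EuclideanSpace ℂ (Fin N)) (q : (Fin n → ℂ) → ℂ)
    (g : (Fin n → ℂ) → EuclideanSpace ℂ (Fin N)),
    IsOpen U → z ∈ U → AnalyticOnNhd ℝ ρ U → ρ z = 0 →
    Function.Surjective (fderiv ℝ ρ z) →
    (∀ v : Fin n → ℂ, ∃ a b : Fin n → ℂ,
      fderiv ℝ ρ z a = 0 ∧ fderiv ℝ ρ z b = 0 ∧ v = a + Complex.I • b) →
    IsOpen Γ → Convex ℝ Γ → Γ.Nonempty → (0 : Fin d → ℝ) ∉ Γ →
    (∀ x ∈ Γ, ∀ t : ℝ, 0 < t → t • x ∈ Γ) →
    AnalyticOnNhd ℂ p U → AnalyticOnNhd ℂ q U → ¬ (∀ᶠ w in 𝓝 z, q w = 0) →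
    AnalyticOnNhd ℂ g {w | w ∈ U ∧ ρ w ∈ Γ} →
    (∀ w ∈ U, ρ w ∈ Γ → q w • g w = p w) →
    (∀ w ∈ U, ρ w ∈ Γ → ‖g w‖ < 1) →
    (∀ m ∈ U, ρ m = 0 →
      Filter.Tendsto (fun w => ‖g w‖) (𝓝[{w | w ∈ U ∧ ρ w ∈ Γ}] m) (𝓝 1)) →
    ∃ V ∈ 𝓝 z, ∃ F : (Fin n → ℂ) → EuclideanSpace ℂ (Fin N),
      AnalyticOnNhd ℂ F V ∧ ∀ w ∈ V, w ∈ U → ρ w ∈ Γ → F w = g w) := by
  intro H
  have hG : ∀ w : Fin 2 → ℂ, rho w ∈ {x : Fin 2 → ℝ | ∀ i, 0 < x i} ↔
      (0 < (w 0).im ∧ 0 < (w 1).im) := by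
    intro w
    simp [rho_apply, Fin.forall_fin_two]
  obtain ⟨V, hV, F, hF, hFg⟩ := H 2 2 2 0 Set.univ rho {x : Fin 2 → ℝ | ∀ i, 0 < x i} pp qq gg
    isOpen_univ (Set.mem_univ _) (fun x _ => rho.analyticAt x) (by simp)
    (by
      rw [rho.fderiv]
      intro y
      refine ⟨fun i => (y i : ℂ) * Complex.I, ?_⟩
      ext i
      simp [rho_apply])
    (by
      intro v
      rw [rho.fderiv]
      refine ⟨fun i => ((v i).re : ℂ), fun i => ((v i).im : ℂ), ?_, ?_, ?_⟩
      · ext i; simp [rho_apply]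
      · ext i; simp [rho_apply]
      · ext i
        simp only [Pi.add_apply, Pi.smul_apply, smul_eq_mul]
        rw [mul_comm]
        exact (Complex.re_add_im (v i)).symm)
    (by
      have : {x : Fin 2 → ℝ | ∀ i, 0 < x i} = ⋂ i, {x : Fin 2 → ℝ | 0 < x i} := by
        ext x; simp
      rw [this]
      exact isOpen_iInter_of_finite (fun i => isOpen_lt continuous_const (continuous_apply i)))
    (by
      intro x hx y hy a b ha hb hab i
      simp only [Pi.add_apply, Pi.smul_apply, smul_eq_mul]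
      have h1 := hx i
      have h2 := hy i
      rcases ha.eq_or_lt with ha | ha
      · subst ha
        have : b = 1 := by linarith
        subst this
        simpa using h2
      · nlinarith [mul_pos ha h1, mul_nonneg hb h2.le])
    ⟨fun _ => 1, fun _ => one_pos⟩
    (by intro h; simpa using h 0)
    (by intro x hx t ht i; simpa using mul_pos ht (hx i))
    (fun x _ => ((analyticAt_const.mul (an_den x)).smul analyticAt_const).add
      (((an_coord 0 x).mul (an_num x)).smul analyticAt_const))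
    (fun x _ => (analyticAt_const.add (an_coord 0 x)).mul (an_den x))
    (by
      intro h
      have hc : Filter.Tendsto (fun t : ℝ => (fun _ : Fin 2 => (t : ℂ) * Complex.I)) (𝓝[>] 0)
          (𝓝 (0 : Fin 2 → ℂ)) := by
        apply Filter.Tendsto.mono_left _ nhdsWithin_le_nhds
        have : Continuous (fun t : ℝ => (fun _ : Fin 2 => (t : ℂ) * Complex.I)) := by fun_prop
        have h2 := this.tendsto 0
        have h3 : (fun _ : Fin 2 => (((0 : ℝ) : ℂ) * Complex.I)) = 0 := by funext i; simp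
        rwa [h3] at h2
      obtain ⟨t, ht, ht0⟩ := ((hc.eventually h).and self_mem_nhdsWithin).exists
      have ht0' : 0 < t := ht0
      refine (mul_ne_zero (ne_of_im _ ?_) (den_ne _ ?_ ?_)) ht
      · simpa using ht0'.le
      · simpa using ht0'
      · simpa using ht0')
    (by
      intro x hx
      have := (hG x).1 hx.2
      exact an_gg x (ne_of_im _ this.1.le) (den_ne x this.1 this.2))
    (by
      intro w _ hw
      have := (hG w).1 hw
      have h1 := ne_of_im _ this.1.le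
      have h2 := den_ne w this.1 this.2
      unfold qq gg pp
      rw [smul_add, smul_smul, smul_smul]
      congr 2
      · field_simp
      · field_simp)
    (by
      intro w _ hw
      have := (hG w).1 hw
      exact gg_lt w this.1 this.2)
    (by
      intro m _ hm
      have h0 : (m 0).im = 0 := by rw [← rho_apply, hm]; rfl
      have h1 : (m 1).im = 0 := by rw [← rho_apply, hm]; rfl
      by_cases hd : den m = 0
      · have hm0 := den_real m h0 h1 hd
        have hl : Filter.Tendsto (fun w : Fin 2 → ℂ => ‖Complex.I + w 0‖⁻¹) (𝓝 m) (𝓝 1) := by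
          have c1 : ContinuousAt (fun w : Fin 2 → ℂ => ‖Complex.I + w 0‖⁻¹) m := by
            apply ContinuousAt.inv₀
            · exact (continuous_const.add (continuous_apply (0 : Fin 2))).norm.continuousAt
            · simp [hm0]
          have := c1.tendsto
          simpa [hm0] using this
        refine tendsto_of_tendsto_of_tendsto_of_le_of_le' (hl.mono_left nhdsWithin_le_nhds)
          tendsto_const_nhds (Filter.Eventually.of_forall gg_ge) ?_
        filter_upwards [self_mem_nhdsWithin] with w hw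
        have := (hG w).1 hw.2
        exact (gg_lt w this.1 this.2).le
      · have c1 := (an_gg m (ne_of_im _ h0.ge) hd).continuousAt.norm.tendsto
        rw [gg_one m h0 h1 hd] at c1
        exact c1.mono_left nhdsWithin_le_nhds)
  obtain ⟨r, hr, hrV⟩ := Metric.mem_nhds_iff.1 hV
  set K : (Fin 2 → ℂ) → ℂ := fun w => qq w * (F w) 1 - w 0 * num w with hK
  have hKa : AnalyticOnNhd ℂ K (Metric.ball 0 r) := by
    intro x hx
    have a1 : AnalyticAt ℂ (fun w => (F w) 1) x :=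
      ((EuclideanSpace.proj (𝕜 := ℂ) (1 : Fin 2)).analyticAt (F x)).comp (hF x (hrV hx))
    exact (((analyticAt_const.add (an_coord 0 x)).mul (an_den x)).mul a1).sub
      ((an_coord 0 x).mul (an_num x))
  have hx0 : (fun _ : Fin 2 => ((r / 2 : ℝ) : ℂ) * Complex.I) ∈ Metric.ball (0 : Fin 2 → ℂ) r := by
    rw [mem_ball_zero_iff, pi_norm_lt_iff hr]
    intro i
    rw [norm_mul, Complex.norm_I, Complex.norm_real, Real.norm_of_nonneg (by positivity)]
    linarith
  have hev : K =ᶠ[𝓝 (fun _ : Fin 2 => ((r / 2 : ℝ) : ℂ) * Complex.I)] 0 := by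
    have o1 : IsOpen {w : Fin 2 → ℂ | 0 < (w 0).im ∧ 0 < (w 1).im} :=
      (isOpen_lt continuous_const (Complex.continuous_im.comp (continuous_apply (0 : Fin 2)))).inter
        (isOpen_lt continuous_const (Complex.continuous_im.comp (continuous_apply (1 : Fin 2))))
    have m1 : (fun _ : Fin 2 => ((r / 2 : ℝ) : ℂ) * Complex.I) ∈
        {w : Fin 2 → ℂ | 0 < (w 0).im ∧ 0 < (w 1).im} := by
      constructor <;> simpa using hr
    filter_upwards [o1.mem_nhds m1, Metric.isOpen_ball.mem_nhds hx0] with w hw hwb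
    have e := hFg w (hrV hwb) (Set.mem_univ _) ((hG w).2 hw)
    have h1 := ne_of_im _ hw.1.le
    have h2 := den_ne w hw.1 hw.2
    simp only [hK, e, gg, e0, e1, qq, Pi.zero_apply]
    simp
    field_simp
    ring
  have hz := hKa.eqOn_zero_of_preconnected_of_eventuallyEq_zero
    (convex_ball (0 : Fin 2 → ℂ) r).isPreconnected hx0 hev
  set t : ℂ := ((r / 2 : ℝ) : ℂ) with ht
  have ht0 : t ≠ 0 := by rw [ht]; exact_mod_cast (by positivity : r / 2 ≠ 0)
  have hti : Complex.I + t ≠ 0 := ne_of_im _ (by simp [ht])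
  have hnt : ‖t‖ = r / 2 := by rw [ht, Complex.norm_real, Real.norm_of_nonneg (by positivity)]
  have hn1 : 1 ≤ ‖Complex.I + t‖ := by
    have := Complex.abs_im_le_norm (Complex.I + t)
    simpa [ht] using this
  have hy : (![t, -Complex.I * t / (Complex.I + t)] : Fin 2 → ℂ) ∈ Metric.ball (0 : Fin 2 → ℂ) r := by
    rw [mem_ball_zero_iff, pi_norm_lt_iff hr, Fin.forall_fin_two]
    constructor
    · simp only [Matrix.cons_val_zero]
      rw [hnt]; linarith
    · simp only [Matrix.cons_val_one, Matrix.cons_val_zero]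
      rw [norm_div, norm_mul, norm_neg, Complex.norm_I, one_mul, hnt, div_lt_iff₀ (by linarith)]
      nlinarith
  have e := hz hy
  have hd : den ![t, -Complex.I * t / (Complex.I + t)] = 0 := by
    simp only [den, Matrix.cons_val_zero, Matrix.cons_val_one]
    field_simp
    ring_nf
  have hn : num ![t, -Complex.I * t / (Complex.I + t)] = 2 * t * (-Complex.I * t / (Complex.I + t)) := by
    simp only [den, Matrix.cons_val_zero, Matrix.cons_val_one] at hd
    simp only [num, Matrix.cons_val_zero, Matrix.cons_val_one]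
    linear_combination (-1 : ℂ) * hd
  simp only [hK, qq, hd, hn, Matrix.cons_val_zero, Pi.zero_apply] at e
  simp [ht0, hti] at e

end Pool.Agent.S04738
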