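import Pool.Statements.S04808
import Pool.Agent.H26.Harnack

set_option autoImplicit false
open Pool Pool.MP_5e6479_an

namespace Pool.Agent.S04808

open Complex Metric Set Filter Topology Pool.Agent.H26

def EE : Set ℂ := {z | z.re ≤ 0} ∪ {z | z.im ∈ range ((↑) : ℤ → ℝ)}

lemma bdd (h : ℂ → ℂ) (hh : Differentiable ℂ h) (M δ : ℝ) (hM : ∀ z ∈ EE, ‖h z‖ ≤ M)
    (hδ : 0 < δ) (hl : ∀ z ∉ EE, δ ≤ ‖h z‖) (z : ℂ) : ‖h z‖ ≤ M * Real.exp (2 * (M / δ)) := by
  have hM0 : 0 ≤ M := (norm_nonneg _).trans (hM 0 (Or.inl (by simp)))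
  have hME : ∀ z ∈ EE, ‖h z‖ ≤ M * Real.exp (2 * (M / δ)) := fun z hz =>
    (hM z hz).trans (le_mul_of_one_le_right hM0 (Real.one_le_exp (by positivity)))
  have hlow : ∀ z : ℂ, 0 < z.re → δ ≤ ‖h z‖ := by
    intro z hz
    by_cases hzE : z ∈ EE
    · obtain ⟨k, hk⟩ := hzE.resolve_left (by simpa using hz)
      have hc : Continuous (fun t : ℝ => ‖h (z + t * I)‖) := by
        have := hh.continuous
        fun_prop
      have ht := (hc.tendsto 0).mono_left (nhdsWithin_le_nhds (s := Ioi 0))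
      simp only [ofReal_zero, zero_mul, add_zero] at ht
      refine ge_of_tendsto ht ?_
      filter_upwards [Ioo_mem_nhdsGT one_pos] with t ht
      apply hl
      rintro (h1 | ⟨m, hm⟩)
      · simp at h1
        linarith
      · simp only [add_im, mul_im, ofReal_re, I_im, mul_one, ofReal_im, I_re, mul_zero,
          add_zero, ← hk] at hm
        have h1 : (k : ℝ) < m := by linarith [ht.1]
        have h2 : (m : ℝ) < k + 1 := by linarith [ht.2]
        have h3 : k < m := by exact_mod_cast h1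
        have h4 : m < k + 1 := by exact_mod_cast h2
        omega
    · exact hl z hzE
  have hfar : ∀ z : ℂ, 2 ≤ z.re → ‖h z‖ ≤ M * Real.exp (2 * (M / δ)) := by
    intro z hz
    apply harnack h ⟨z.re, ⌊z.im⌋⟩ z.re δ M (by linarith) hδ hh.differentiableOn
    · intro w hw
      apply hlow
      have h1 := abs_re_le_norm (w - ⟨z.re, ⌊z.im⌋⟩)
      rw [mem_ball, dist_eq_norm] at hw
      have h2 := (abs_lt.1 (lt_of_le_of_lt h1 hw)).1
      simp at h2
      linarith
    · exact hM _ (Or.inr ⟨⌊z.im⌋, rfl⟩)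
    · refine (norm_le_abs_re_add_abs_im _).trans ?_
      have h1 := Int.floor_le z.im
      have h2 := Int.lt_floor_add_one z.im
      simp only [sub_re, sub_self, abs_zero, sub_im, zero_add]
      rw [abs_of_nonneg (by linarith)]
      linarith
  rcases le_total z.re 0 with h0 | h0
  · exact hME z (Or.inl h0)
  rcases le_total 2 z.re with h2 | h2
  · exact hfar z h2
  have hk : ((⌊z.im⌋ : ℤ) : ℝ) < ⌊z.im⌋ + 1 := by linarith
  refine norm_le_of_forall_mem_frontier_norm_le
    (U := Ioo (0 : ℝ) 2 ×ℂ Ioo ((⌊z.im⌋ : ℤ) : ℝ) (⌊z.im⌋ + 1))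
    ((isBounded_Ioo _ _).reProdIm (isBounded_Ioo _ _)) hh.diffContOnCl ?_ ?_
  · intro w hw
    rw [frontier_reProdIm, frontier_Ioo hk, frontier_Ioo (by norm_num)] at hw
    rcases hw with ⟨_, h1 | h1⟩ | ⟨h1 | h1, _⟩
    · exact hME w (Or.inr ⟨⌊z.im⌋, h1.symm⟩)
    · exact hME w (Or.inr ⟨⌊z.im⌋ + 1, by push_cast; exact h1.symm⟩)
    · exact hME w (Or.inl (le_of_eq h1))
    · exact hfar w (le_of_eq h1.symm)
  · rw [closure_reProdIm, closure_Ioo hk.ne, closure_Ioo (by norm_num)]
    exact ⟨⟨h0, h2⟩, Int.floor_le _, (Int.lt_floor_add_one _).le⟩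


/-- The negation of the preceding statement: For every closed set E in ℂ: if some non-polynomial entire function is bounded on E and some non-polynomial entire function has modulus at least a positive constant off E, then a single non-polynomial entire function does both. -/
theorem result :
    ¬ (∀ E : Set ℂ, IsClosed E →
      (∃ f : ℂ → ℂ, Differentiable ℂ f ∧
          (¬ ∃ p : Polynomial ℂ, ∀ z, f z = p.eval z) ∧
          ∃ M : ℝ, ∀ z ∈ E, ‖f z‖ ≤ M) →
      (∃ g : ℂ → ℂ, Differentiable ℂ g ∧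
          (¬ ∃ p : Polynomial ℂ, ∀ z, g z = p.eval z) ∧
          ∃ δ : ℝ, 0 < δ ∧ ∀ z ∉ E, δ ≤ ‖g z‖) →
      ∃ h : ℂ → ℂ, Differentiable ℂ h ∧
          (¬ ∃ p : Polynomial ℂ, ∀ z, h z = p.eval z) ∧
          (∃ M : ℝ, ∀ z ∈ E, ‖h z‖ ≤ M) ∧
          ∃ δ : ℝ, 0 < δ ∧ ∀ z ∉ E, δ ≤ ‖h z‖) := by
  intro H
  have key := H EE ?_ ?_ ?_
  · obtain ⟨h, hh, hnp, ⟨M, hM⟩, δ, hδ, hl⟩ := key
    obtain ⟨c, hc⟩ := hh.exists_eq_const_of_bounded (isBounded_iff_forall_norm_le.2
      ⟨_, by rintro _ ⟨z, rfl⟩; exact bdd h hh M δ hM hδ hl z⟩)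
    exact hnp ⟨Polynomial.C c, fun z => by simp [hc]⟩
  · exact (isClosed_le continuous_re continuous_const).union
      (Int.isClosedEmbedding_coe_real.isClosed_range.preimage continuous_im)
  · refine ⟨fun z => exp (-exp (2 * Real.pi * z)), by fun_prop,
      not_poly _ (fun z => exp_ne_zero _) 0 (I / 2) ?_, Real.exp 1, ?_⟩
    · have e : (2 * Real.pi * (I / 2) : ℂ) = Real.pi * I := by ring
      simp only [mul_zero, exp_zero, e, exp_pi_mul_I, neg_neg]
      intro h
      have := congrArg (fun w : ℂ => ‖w‖) h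
      simp only [norm_exp, neg_re, one_re, Real.exp_eq_exp] at this
      norm_num at this
    · intro z hz
      rw [norm_exp, Real.exp_le_exp, neg_re]
      rcases hz with h | ⟨k, hk⟩
      · have h1 := abs_re_le_norm (exp (2 * Real.pi * z))
        rw [norm_exp] at h1
        have h2 : Real.exp (2 * Real.pi * z : ℂ).re ≤ 1 := by
          apply Real.exp_le_one_iff.2
          have := Real.pi_pos
          have h' : z.re ≤ 0 := h
          simp
          nlinarith
        linarith [(abs_le.1 (h1.trans h2)).1]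
      · rw [exp_re]
        have e : (2 * Real.pi * z : ℂ).im = k * (2 * Real.pi) := by
          simp [← hk]
          ring
        rw [e, Real.cos_int_mul_two_pi, mul_one]
        linarith [Real.exp_pos (2 * Real.pi * z : ℂ).re]
  · refine ⟨exp, by fun_prop, not_poly _ exp_ne_zero 0 (Real.pi * I) ?_, 1, one_pos, ?_⟩
    · rw [exp_zero, exp_pi_mul_I]
      norm_num
    · intro z hz
      rw [norm_exp]
      apply Real.one_le_exp
      by_contra h
      exact hz (Or.inl (le_of_lt (not_le.1 h)))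

end Pool.Agent.S04808
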