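import Pool.Statements.S04822
import Pool.Agent.H28.Supp

set_option autoImplicit false
open Pool Pool.MP_5fe217_an

namespace Pool.Agent.S04822

open Pool.Agent.H28.Growth Pool.Agent.H28.KoebeChain Pool.Agent.H28.Supp Filter Topology Metric

/-- The negation of the preceding statement: For n at least 2, A with max eigenvalue real part below twice min Re(Az,z) on the sphere, and f normalized spirallike w.r.t. A on the ball: f is a support point of that family iff h = Df^{-1} A f is a support point of N_A. -/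
theorem result :
    ¬ (∀ n : ℕ, 2 ≤ n →
  ∀ A : EuclideanSpace ℂ (Fin n) →L[ℂ] EuclideanSpace ℂ (Fin n),
  (∃ c : ℝ, (∀ z : EuclideanSpace ℂ (Fin n), ‖z‖ = 1 → c ≤ (inner ℂ z (A z)).re) ∧
     ∀ μ : ℂ, Module.End.HasEigenvalue A.toLinearMap μ → μ.re < 2 * c) →
  ∀ f : EuclideanSpace ℂ (Fin n) → EuclideanSpace ℂ (Fin n),
  (DifferentiableOn ℂ f (Metric.ball 0 1) ∧ Set.InjOn f (Metric.ball 0 1) ∧ f 0 = 0 ∧
     fderiv ℂ f 0 = ContinuousLinearMap.id ℂ (EuclideanSpace ℂ (Fin n)) ∧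
     ∀ z ∈ Metric.ball (0 : EuclideanSpace ℂ (Fin n)) 1, z ≠ 0 →
       0 < (inner ℂ z ((fderiv ℂ f z).inverse (A (f z)))).re) →
  ((∃ L : (EuclideanSpace ℂ (Fin n) → EuclideanSpace ℂ (Fin n)) → ℂ,
      ((∀ g₁ g₂ : EuclideanSpace ℂ (Fin n) → EuclideanSpace ℂ (Fin n),
          DifferentiableOn ℂ g₁ (Metric.ball 0 1) → DifferentiableOn ℂ g₂ (Metric.ball 0 1) →
          L (g₁ + g₂) = L g₁ + L g₂) ∧
       (∀ (c : ℂ) (g : EuclideanSpace ℂ (Fin n) → EuclideanSpace ℂ (Fin n)),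
          DifferentiableOn ℂ g (Metric.ball 0 1) → L (c • g) = c * L g) ∧
       ∃ K : Set (EuclideanSpace ℂ (Fin n)), IsCompact K ∧ K ⊆ Metric.ball 0 1 ∧
         ∃ C : ℝ, ∀ g : EuclideanSpace ℂ (Fin n) → EuclideanSpace ℂ (Fin n),
           DifferentiableOn ℂ g (Metric.ball 0 1) →
           ∀ M : ℝ, (∀ x ∈ K, ‖g x‖ ≤ M) → ‖L g‖ ≤ C * M) ∧
      (∃ g₁ g₂ : EuclideanSpace ℂ (Fin n) → EuclideanSpace ℂ (Fin n),
        (DifferentiableOn ℂ g₁ (Metric.ball 0 1) ∧ Set.InjOn g₁ (Metric.ball 0 1) ∧ g₁ 0 = 0 ∧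
          fderiv ℂ g₁ 0 = ContinuousLinearMap.id ℂ (EuclideanSpace ℂ (Fin n)) ∧
          ∀ z ∈ Metric.ball (0 : EuclideanSpace ℂ (Fin n)) 1, z ≠ 0 →
            0 < (inner ℂ z ((fderiv ℂ g₁ z).inverse (A (g₁ z)))).re) ∧
        (DifferentiableOn ℂ g₂ (Metric.ball 0 1) ∧ Set.InjOn g₂ (Metric.ball 0 1) ∧ g₂ 0 = 0 ∧
          fderiv ℂ g₂ 0 = ContinuousLinearMap.id ℂ (EuclideanSpace ℂ (Fin n)) ∧
          ∀ z ∈ Metric.ball (0 : EuclideanSpace ℂ (Fin n)) 1, z ≠ 0 →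
            0 < (inner ℂ z ((fderiv ℂ g₂ z).inverse (A (g₂ z)))).re) ∧
        (L g₁).re ≠ (L g₂).re) ∧
      ∀ g : EuclideanSpace ℂ (Fin n) → EuclideanSpace ℂ (Fin n),
        (DifferentiableOn ℂ g (Metric.ball 0 1) ∧ Set.InjOn g (Metric.ball 0 1) ∧ g 0 = 0 ∧
          fderiv ℂ g 0 = ContinuousLinearMap.id ℂ (EuclideanSpace ℂ (Fin n)) ∧
          ∀ z ∈ Metric.ball (0 : EuclideanSpace ℂ (Fin n)) 1, z ≠ 0 →
            0 < (inner ℂ z ((fderiv ℂ g z).inverse (A (g z)))).re) →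
        (L g).re ≤ (L f).re) ↔
   (∃ L : (EuclideanSpace ℂ (Fin n) → EuclideanSpace ℂ (Fin n)) → ℂ,
      ((∀ g₁ g₂ : EuclideanSpace ℂ (Fin n) → EuclideanSpace ℂ (Fin n),
          DifferentiableOn ℂ g₁ (Metric.ball 0 1) → DifferentiableOn ℂ g₂ (Metric.ball 0 1) →
          L (g₁ + g₂) = L g₁ + L g₂) ∧
       (∀ (c : ℂ) (g : EuclideanSpace ℂ (Fin n) → EuclideanSpace ℂ (Fin n)),
          DifferentiableOn ℂ g (Metric.ball 0 1) → L (c • g) = c * L g) ∧
       ∃ K : Set (EuclideanSpace ℂ (Fin n)), IsCompact K ∧ K ⊆ Metric.ball 0 1 ∧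
         ∃ C : ℝ, ∀ g : EuclideanSpace ℂ (Fin n) → EuclideanSpace ℂ (Fin n),
           DifferentiableOn ℂ g (Metric.ball 0 1) →
           ∀ M : ℝ, (∀ x ∈ K, ‖g x‖ ≤ M) → ‖L g‖ ≤ C * M) ∧
      (∃ g₁ g₂ : EuclideanSpace ℂ (Fin n) → EuclideanSpace ℂ (Fin n),
        (DifferentiableOn ℂ g₁ (Metric.ball 0 1) ∧ g₁ 0 = 0 ∧ fderiv ℂ g₁ 0 = A ∧
          ∀ z ∈ Metric.ball (0 : EuclideanSpace ℂ (Fin n)) 1, z ≠ 0 → 0 < (inner ℂ z (g₁ z)).re) ∧
        (DifferentiableOn ℂ g₂ (Metric.ball 0 1) ∧ g₂ 0 = 0 ∧ fderiv ℂ g₂ 0 = A ∧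
          ∀ z ∈ Metric.ball (0 : EuclideanSpace ℂ (Fin n)) 1, z ≠ 0 → 0 < (inner ℂ z (g₂ z)).re) ∧
        (L g₁).re ≠ (L g₂).re) ∧
      ∀ g : EuclideanSpace ℂ (Fin n) → EuclideanSpace ℂ (Fin n),
        (DifferentiableOn ℂ g (Metric.ball 0 1) ∧ g 0 = 0 ∧ fderiv ℂ g 0 = A ∧
          ∀ z ∈ Metric.ball (0 : EuclideanSpace ℂ (Fin n)) 1, z ≠ 0 → 0 < (inner ℂ z (g z)).re) →
        (L g).re ≤ (L (fun z => (fderiv ℂ f z).inverse (A (f z)))).re))) := by
  intro H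
  have hn : ‖pt (1 / 2) 0‖ = 1 / 2 := half_mem _ _ (by norm_num)
  have hz : pt (1 / 2) 0 ∈ ball (0 : E) 1 := by rw [mem_ball_zero_iff, hn]; norm_num
  have hz' : -pt (1 / 2) 0 ∈ ball (0 : E) 1 := by rw [mem_ball_zero_iff, norm_neg, hn]; norm_num
  have hne : pt (1 / 2) 0 ≠ 0 := by
    intro h; rw [h] at hn; norm_num at hn
  set z0 : E := pt (1 / 2) 0 with hz0
  have key := (H 2 le_rfl (ContinuousLinearMap.id ℂ E) ⟨1, ?_, ?_⟩ f0 f0_star).2
    ⟨fun g => -inner ℂ z0 (g z0 - g (-z0)), ⟨?_, ?_, {z0, -z0}, ?_, ?_, 1, ?_⟩,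
      ⟨fun z => z, hK, ⟨differentiableOn_id, rfl, fderiv_id', ?_⟩,
        ⟨hK_diff, ext2 (by simp [hK]) (by simp [hK]), hK_fd, fun z hz hz0 => hK_pos hz hz0⟩, ?_⟩,
      ?_⟩
  · obtain ⟨L, ⟨h1, h2, K, hK, hKb, C, hC⟩, ⟨g₁, g₂, s1, s2, hne⟩, hmax⟩ := key
    exact hne ((not_supp h1 h2 hK hKb hC hmax s1).trans (not_supp h1 h2 hK hKb hC hmax s2).symm)
  · intro z hz
    rw [ContinuousLinearMap.id_apply, inner_self_eq_norm_sq_to_K, hz]
    simp
  · intro μ hμ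
    obtain ⟨v, hv⟩ := hμ.exists_hasEigenvector
    have h1 : v = μ • v := hv.apply_eq_smul
    have h2 : (1 - μ) • v = 0 := by rw [sub_smul, one_smul, ← h1, sub_self]
    have h3 : μ = 1 := by
      rcases smul_eq_zero.1 h2 with h | h
      · exact (sub_eq_zero.1 h).symm
      · exact absurd h hv.2
    rw [h3]; norm_num
  · intro g₁ g₂ _ _
    simp only [Pi.add_apply, inner_sub_right, inner_add_right]
    ring
  · intro c g _
    simp only [Pi.smul_apply, inner_sub_right, inner_smul_right]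
    ring
  · exact (Set.toFinite _).isCompact
  · rintro _ (rfl | rfl)
    · exact hz
    · exact hz'
  · intro g _ M hM
    have a1 := hM z0 (by simp)
    have a2 := hM (-z0) (by simp)
    have a3 := norm_inner_le_norm (𝕜 := ℂ) z0 (g z0 - g (-z0))
    have a4 := norm_sub_le (g z0) (g (-z0))
    rw [norm_neg]
    rw [hn] at a3
    linarith
  · intro z _ hz0
    rw [inner_self_eq_norm_sq_to_K]
    simp only [Complex.coe_algebraMap, ← Complex.ofReal_pow, Complex.ofReal_re]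
    positivity
  · simp only [PiLp.inner_apply, Fin.sum_univ_two, hK, hz0, PiLp.sub_apply, PiLp.neg_apply, pt0,
      pt1, RCLike.inner_apply]
    norm_num
  · rintro g ⟨h1, h2, h3, h4⟩
    have hneg : ∀ z ∈ ball (0 : E) 1, -z ∈ ball (0 : E) 1 := fun z hz => by simpa using hz
    have := harnack_odd (h := fun z => (2⁻¹ : ℂ) • (g z - g (-z)))
      ((h1.sub (h1.comp differentiableOn_id.neg hneg)).const_smul (2⁻¹ : ℂ)) (by simp [h2])
      (by
        have d1 : HasFDerivAt g (ContinuousLinearMap.id ℂ E) 0 :=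
          h3 ▸ (h1.differentiableAt (ball_mem_nhds _ one_pos)).hasFDerivAt
        have d2 : HasFDerivAt g (ContinuousLinearMap.id ℂ E) (-0) := by rwa [neg_zero]
        have d3 := (d1.sub (d2.comp 0 (hasFDerivAt_id (0 : E)).neg)).const_smul (2⁻¹ : ℂ)
        refine d3.fderiv.trans ?_
        ext v : 1
        simp only [ContinuousLinearMap.smul_apply, ContinuousLinearMap.sub_apply,
          ContinuousLinearMap.comp_apply, ContinuousLinearMap.id_apply,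
          ContinuousLinearMap.neg_apply]
        module)
      (fun z => by rw [neg_neg, ← smul_neg, neg_sub])
      (fun z hz hz0 => by
        have a1 := h4 z hz hz0
        have a2 := h4 (-z) (hneg z hz) (neg_ne_zero.2 hz0)
        rw [inner_neg_left, Complex.neg_re] at a2
        rw [inner_smul_right, inner_sub_right]
        simp only [Complex.mul_re, Complex.sub_re, Complex.sub_im]
        norm_num
        linarith) (mem_ball_zero_iff.1 hz) hne
    rw [hn, inner_smul_right] at this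
    have e1 : ∀ z ∈ ball (0 : E) 1, (fderiv ℂ f0 z).inverse (ContinuousLinearMap.id ℂ E (f0 z)) =
        pt (z 0 * ((1 - z 0 ^ 2) / (1 + z 0 ^ 2))) (z 1) := by
      intro z hz
      obtain ⟨a1, a2, a3, -⟩ := phi_d (c_lt hz 0)
      rw [← a3]
      exact prod_inv a1 a2
    simp only
    rw [e1 _ hz, e1 _ hz']
    have e2 : (-inner ℂ z0 (pt (z0 0 * ((1 - z0 0 ^ 2) / (1 + z0 0 ^ 2))) (z0 1) -
        pt ((-z0) 0 * ((1 - (-z0) 0 ^ 2) / (1 + (-z0) 0 ^ 2))) ((-z0) 1))).re = -(3 / 10) := by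
      simp only [PiLp.inner_apply, Fin.sum_univ_two, hz0, PiLp.sub_apply, PiLp.neg_apply, pt0,
        pt1, RCLike.inner_apply]
      norm_num
    rw [e2, Complex.neg_re]
    simp only [Complex.mul_re] at this
    norm_num at this
    linarith

end Pool.Agent.S04822
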