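import Pool.Statements.S04862
import Pool.Agent.H32.NoCrit

set_option autoImplicit false
open Pool Pool.MP_63a02b_an

namespace Pool.Agent.S04862

/-- The negation of the preceding statement: Every operator on a real or complex separable F-space that is chaotic, topologically mixing and frequently hypercyclic admits a dense set X0 and a self-map S of X0 with the series of T^n x and S^n x unconditionally convergent and TSx = x on X0. -/
theorem result :
    ¬ (∀ (𝕂 : Type) [RCLike 𝕂] (X : Type) [AddCommGroup X] [Module 𝕂 X] [UniformSpace X]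
      [IsUniformAddGroup X] [CompleteSpace X] [TopologicalSpace.MetrizableSpace X]
      [TopologicalSpace.SeparableSpace X] [ContinuousSMul 𝕂 X] (T : X →L[𝕂] X),
      ((∃ x : X, Dense (Set.range (fun n : ℕ => (T ^ n) x))) ∧
        Dense {x : X | ∃ n : ℕ, 0 < n ∧ (T ^ n) x = x}) →
      (∀ U V : Set X, IsOpen U → IsOpen V → U.Nonempty → V.Nonempty →
        ∃ N : ℕ, ∀ n : ℕ, N ≤ n → ((⇑(T ^ n)) ⁻¹' V ∩ U).Nonempty) →
      (∃ x : X, ∀ U : Set X, IsOpen U → U.Nonempty →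
        ∃ δ : ℝ, 0 < δ ∧ ∃ N₀ : ℕ, ∀ N : ℕ, N₀ ≤ N →
          δ * (N : ℝ) ≤ (Nat.card {n : ℕ // n < N ∧ (T ^ n) x ∈ U} : ℝ)) →
      ∃ X₀ : Set X, Dense X₀ ∧ ∃ S : X → X, (∀ x ∈ X₀, S x ∈ X₀) ∧
        ∀ x ∈ X₀, Summable (fun n : ℕ => (T ^ n) x) ∧
          Summable (fun n : ℕ => S^[n] x) ∧ T (S x) = x) := by
  intro H
  obtain ⟨x, hx⟩ := Pool.Agent.H32.NC.fhc
  have hd : Dense (Set.range fun n : ℕ => (Pool.Agent.H32.NC.T ^ n) x) :=
    dense_iff_inter_open.2 fun U hU hne => by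
      obtain ⟨δ, h1, N, h2⟩ := hx U hU hne
      obtain ⟨n, -, h3⟩ := (Nat.card_pos_iff.1 (Nat.cast_pos.1 ((mul_pos h1
        (Nat.cast_pos.2 N.succ_pos)).trans_le (h2 _ N.le_succ)))).1
      exact ⟨_, h3, n, rfl⟩
  have := TopologicalSpace.SeparableSpace.of_denseRange _ hd
  obtain ⟨X₀, h1, S, h2, h3⟩ := H ℝ _ Pool.Agent.H32.NC.T ⟨⟨x, hd⟩, Pool.Agent.H32.NC.periodic⟩
    Pool.Agent.H32.NC.mixing ⟨x, hx⟩
  have h4 : ∀ t, (0 : ℕ) + 1 ≤ t → (Pi.single 0 1 : ℕ → ℝ) t = 0 := fun t h =>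
    Pi.single_eq_of_ne (by omega) _
  have h5 := (isClosed_eq ((Pool.Agent.H32.NC.cont (0, 0)).comp continuous_subtype_val)
    continuous_const).closure_subset (closure_mono (fun y hy => Pool.Agent.H32.NC.no_null
      (x := fun n => S^[n] y) (fun n => by
        rw [Function.iterate_succ_apply']
        exact (h3 _ (Set.MapsTo.iterate h2 n hy)).2.2) (h3 y hy).2.1.tendsto_atTop_zero)
    (h1 ⟨Pool.Agent.H32.FR.mk _ (Pool.Agent.H32.NC.fin_c0 h4),
      subset_closure ⟨_, ⟨_, h4⟩, fun _ => rfl⟩⟩))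
  change Pool.Agent.H32.NC.F _ _ = 0 at h5
  simp [Pool.Agent.H32.NC.F, Pool.Agent.H32.NC.D] at h5

end Pool.Agent.S04862
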