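import Pool.Statements.S04875
import Pool.Agent.H1.TauD

set_option autoImplicit false
open Pool Pool.MP_64ccd3_an

namespace Pool.Agent.S04875

/-- Suppose a power series has radius 1, its partial sums are uniformly bounded on its singular set E, and E has positive measure on the circle. Then at every circle point outside E the series converges to the value of the local analytic continuation. -/
theorem result :
  ∀ (a : ℕ → ℂ) (E : Set ℂ),
    (FormalMultilinearSeries.ofScalars ℂ a).radius = 1 →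
    E = {ξ : ℂ | ‖ξ‖ = 1 ∧ ¬ ∃ r : ℝ, 0 < r ∧ ∃ g : ℂ → ℂ,
          DifferentiableOn ℂ g (Metric.ball ξ r) ∧
          ∀ w ∈ Metric.ball ξ r, ‖w‖ < 1 → g w = ∑' n, a n * w ^ n} →
    (∃ M : ℝ, ∀ ξ ∈ E, ∀ N : ℕ, ‖∑ n ∈ Finset.range (N + 1), a n * ξ ^ n‖ ≤ M) →
    0 < MeasureTheory.volume
          {θ : ℝ | θ ∈ Set.Ioc 0 (2 * Real.pi) ∧ Complex.exp ((θ : ℂ) * Complex.I) ∈ E} →
    ∀ z : ℂ, ‖z‖ = 1 → z ∉ E →
      ∃ L : ℂ, Filter.Tendsto (fun N : ℕ => ∑ n ∈ Finset.range N, a n * z ^ n)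
            Filter.atTop (nhds L) ∧
        ∃ r : ℝ, 0 < r ∧ ∃ g : ℂ → ℂ, DifferentiableOn ℂ g (Metric.ball z r) ∧
          (∀ w ∈ Metric.ball z r, ‖w‖ < 1 → g w = ∑' n, a n * w ^ n) ∧ g z = L := by
  open Filter Topology Set Complex Metric Pool.Agent.H1.Tau in
  rintro a E - rfl ⟨M, hM⟩ hv z hz hE
  obtain ⟨R, R0, g, hg, he⟩ := not_not.1 (not_and.1 hE hz)
  refine ⟨g z, riesz ?_ hz R0 hg he, R, R0, g, hg, he, rfl⟩
  obtain ⟨p, -, hp⟩ := MeasureTheory.nonempty_of_measure_ne_zero hv.ne'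
  set O : Set ℂ := {ξ | ∃ r : ℝ, 0 < r ∧ ∃ g : ℂ → ℂ, DifferentiableOn ℂ g (ball ξ r) ∧
    ∀ w ∈ ball ξ r, ‖w‖ < 1 → g w = ∑' n, a n * w ^ n}
  have hO : IsOpen O := Metric.isOpen_iff.2 fun ξ ⟨r, r0, g, h1, h2⟩ => ⟨r, r0, fun w hw => by
    obtain ⟨s, s0, hs⟩ := exists_ball_subset_ball hw
    exact ⟨s, s0, g, h1.mono hs, fun v hv => h2 v (hs hv)⟩⟩
  have hc : ∀ α ∈ {θ : ℝ | exp (θ * I) ∉ O}, ∀ k,
      ‖∑ n ∈ Finset.range k, a n * exp (α * I) ^ n‖ ≤ M := fun α hα k => by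
    have := hM _ ⟨norm_exp_ofReal_mul_I α, hα⟩
    cases k with
    | zero => simpa using (norm_nonneg _).trans (this 0)
    | succ k => exact this k
  have ab : ∀ n, ‖a n‖ ≤ M + M := fun n => by
    have := (norm_sub_le _ _).trans (add_le_add (hc p hp.2 (n + 1)) (hc p hp.2 n))
    rwa [Finset.sum_range_succ, add_sub_cancel_left, norm_mul, norm_pow, norm_exp_ofReal_mul_I,
      one_pow, mul_one] at this
  refine to_zero (hO.isClosed_compl.preimage (f := fun θ : ℝ => exp (θ * I)) (by fun_prop)) hp.2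
    (fun h => hp.2 ?_) hc fun δ δ0 => ?_
  · beta_reduce at h
    rwa [ofReal_add, add_mul, exp_add, show ((2 * Real.pi : ℝ) : ℂ) * I = 2 * Real.pi * I by simp,
      exp_two_pi_mul_I, mul_one] at h
  have cK : IsCompact (Icc p (p + 2 * Real.pi) ∩ ⋂ z ∈ {θ : ℝ | exp (θ * I) ∉ O}, {θ | δ ≤ |θ - z|}) :=
    isCompact_Icc.inter_right (isClosed_biInter fun z _ => isClosed_le (by fun_prop) (by fun_prop))
  obtain ⟨B, hB⟩ := cK.induction_on (p := fun S => ∃ B, ∀ᶠ r : ℝ in 𝓝[<] 1, ∀ θ ∈ S,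
      ‖∑' n, a n * (r * exp (θ * I)) ^ n‖ ≤ B) ⟨0, by simp⟩
    (fun s t st ⟨B, h⟩ => ⟨B, h.mono fun r hr θ hθ => hr θ (st hθ)⟩)
    (fun s t ⟨B, h⟩ ⟨C, k⟩ => ⟨max B C, (h.and k).mono fun r hr θ hθ => hθ.elim
      (fun u => le_max_of_le_left (hr.1 θ u)) fun u => le_max_of_le_right (hr.2 θ u)⟩) fun θ hθ => by
    obtain ⟨s, s0, f, f1, f2⟩ : exp (θ * I) ∈ O := by_contra fun h => by
      have : δ ≤ |θ - θ| := mem_iInter₂.1 hθ.2 θ h
      simp at this; linarith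
    have c : Tendsto (fun x : ℝ × ℝ => x.1 * exp (x.2 * I)) (𝓝 1 ×ˢ 𝓝 θ) (𝓝 (exp (θ * I))) := by
      rw [← nhds_prod_eq]
      exact Continuous.tendsto' (by fun_prop) _ _ (by simp)
    obtain ⟨P, hP, Q, hQ, h⟩ := eventually_prod_iff.1 ((c.eventually (ball_mem_nhds _ s0)).and
      (((f1.continuousOn.continuousAt (ball_mem_nhds _ s0)).tendsto.comp c).norm.eventually_le_const
        (lt_add_one _)))
    refine ⟨_, mem_nhdsWithin_of_mem_nhds hQ, ‖f (exp (θ * I))‖ + 1, ?_⟩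
    filter_upwards [mem_nhdsWithin_of_mem_nhds hP, Ioo_mem_nhdsLT (zero_lt_one' ℝ)] with r r1 r2 y hy
    rw [← f2 _ (h r1 hy).1 (by simpa [abs_of_pos r2.1] using r2.2)]
    exact (h r1 hy).2
  refine ⟨B + 1, ?_⟩
  filter_upwards [hB, Ioo_mem_nhdsLT (zero_lt_one' ℝ)] with r r1 r2
  filter_upwards [(((tendsto_pow_atTop_nhds_zero_of_lt_one r2.1.le r2.2).const_mul (M + M)).mul_const
    (1 - r)⁻¹).eventually_le_const (u := 1) (by simp)] with K hK θ h1 h2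
  have n : ‖r * exp (θ * I)‖ = r := by simp [abs_of_pos r2.1]
  have := tail (N := K) (fun n _ => ab n) (n.trans_lt r2.2)
  rw [n, norm_sub_rev] at this
  have e : F a r K θ = ∑ n ∈ Finset.range K, a n * (r * exp (θ * I)) ^ n :=
    Finset.sum_congr rfl fun n _ => by ring
  rw [e]
  linarith [norm_sub_norm_le (∑ n ∈ Finset.range K, a n * (r * exp (θ * I)) ^ n)
    (∑' n, a n * (r * exp (θ * I)) ^ n), r1 θ ⟨h1, mem_iInter₂.2 h2⟩]

end Pool.Agent.S04875
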