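import Pool.Statements.S04889


set_option autoImplicit false
open Pool Pool.MP_65dae3_an

namespace Pool.Agent.S04889

open Set

noncomputable def w (j : ℕ) : ℝ := (1 / 10) ^ j

lemma w_pos (j : ℕ) : 0 < w j := by unfold w; positivity

lemma w_sum : Summable w := summable_geometric_of_lt_one (by norm_num) (by norm_num)

def p1 (j : ℕ) : ℕ := (Nat.unpair (j / 2)).1

def p2 (j : ℕ) : ℕ := (Nat.unpair (j / 2)).2

def c1 (j : ℕ) : ℤ := if Nat.sqrt (p1 j) = Nat.sqrt (p2 j) then 0 else 1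

def c2 (j : ℕ) : ℤ := if Nat.sqrt (p1 j) = Nat.sqrt (p2 j) then 0 else if j % 2 = 0 then 1 else -1

def e (b : Bool) : ℤ := if b = true then 1 else 0

def U (ε : ℕ → Bool) (j : ℕ) : ℤ :=
  e (ε (2 * j)) + e (ε (2 * p1 j + 1)) * c1 j + e (ε (2 * p2 j + 1)) * c2 j

noncomputable def fib (p : ℕ → ℕ) (c : ℕ → ℤ) (i : ℕ) : ℝ := ∑' j : p ⁻¹' {i}, (c j : ℝ) * w j

noncomputable def x (n : ℕ) : ℝ :=
  if n % 2 = 0 then w (n / 2) else fib p1 c1 (n / 2) + fib p2 c2 (n / 2)

lemma sum_bd (d : ℕ → ℤ) (M : ℤ) (hd : ∀ j, |d j| ≤ M) : Summable fun j => (d j : ℝ) * w j := by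
  refine Summable.of_norm_bounded (w_sum.mul_left (M : ℝ)) fun j => ?_
  rw [Real.norm_eq_abs, abs_mul, abs_of_pos (w_pos j)]
  have : |(d j : ℝ)| ≤ M := by exact_mod_cast hd j
  exact mul_le_mul_of_nonneg_right this (w_pos j).le

lemma e_bd (b : Bool) : 0 ≤ e b ∧ e b ≤ 1 := by cases b <;> simp [e]

lemma c1_bd (j : ℕ) : |c1 j| ≤ 1 := by unfold c1; split_ifs <;> simp

lemma c2_bd (j : ℕ) : |c2 j| ≤ 1 := by unfold c2; split_ifs <;> simp

lemma ec_bd (b : Bool) (c : ℤ) (hc : |c| ≤ 1) : |e b * c| ≤ 1 := by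
  cases b
  · simp [e]
  · simpa [e] using hc

lemma fib_sum (p : ℕ → ℕ) (c : ℕ → ℤ) (hc : ∀ j, |c j| ≤ 1) (η : ℕ → Bool) :
    HasSum (fun i => (e (η i) : ℝ) * fib p c i) (∑' j, ((e (η (p j)) * c j : ℤ) : ℝ) * w j) := by
  have h := (sum_bd (fun j => e (η (p j)) * c j) 1 fun j => ec_bd _ _ (hc j)).hasSum.tsum_fiberwise p
  have e1 : (fun i => (e (η i) : ℝ) * fib p c i) =
      fun i => ∑' j : p ⁻¹' {i}, ((e (η (p j)) * c j : ℤ) : ℝ) * w j := by
    funext i
    unfold fib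
    rw [← tsum_mul_left]
    refine tsum_congr fun j => ?_
    have : p j = i := j.2
    rw [this]; push_cast; ring
  rw [e1]; exact h

lemma f_sum (ε : ℕ → Bool) :
    HasSum (fun n => if ε n = true then x n else 0) (∑' j, (U ε j : ℝ) * w j) := by
  have s0 := sum_bd (fun j => e (ε (2 * j))) 1 fun j => by
    rw [abs_of_nonneg (e_bd _).1]; exact (e_bd _).2
  have s1 := sum_bd (fun j => e (ε (2 * p1 j + 1)) * c1 j) 1 fun j => ec_bd _ _ (c1_bd j)
  have s2 := sum_bd (fun j => e (ε (2 * p2 j + 1)) * c2 j) 1 fun j => ec_bd _ _ (c2_bd j)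
  have h1 := (fib_sum p1 c1 c1_bd fun i => ε (2 * i + 1)).add
    (fib_sum p2 c2 c2_bd fun i => ε (2 * i + 1))
  have e0 : ∑' j, (U ε j : ℝ) * w j = ∑' j, (e (ε (2 * j)) : ℝ) * w j +
      (∑' j, ((e (ε (2 * p1 j + 1)) * c1 j : ℤ) : ℝ) * w j +
        ∑' j, ((e (ε (2 * p2 j + 1)) * c2 j : ℤ) : ℝ) * w j) := by
    rw [← s1.tsum_add s2, ← s0.tsum_add (s1.add s2)]
    refine tsum_congr fun j => ?_
    unfold U; push_cast; ring
  rw [e0]
  refine HasSum.even_add_odd ?_ ?_
  · have e1 : (fun k => if ε (2 * k) = true then x (2 * k) else 0) =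
        fun j => (e (ε (2 * j)) : ℝ) * w j := by
      funext k
      have : x (2 * k) = w k := by
        unfold x; rw [if_pos (by omega), show 2 * k / 2 = k by omega]
      rw [this]; unfold e; split_ifs <;> simp
    rw [e1]; exact s0.hasSum
  · have e1 : (fun k => if ε (2 * k + 1) = true then x (2 * k + 1) else 0) =
        fun i => (e (ε (2 * i + 1)) : ℝ) * fib p1 c1 i + (e (ε (2 * i + 1)) : ℝ) * fib p2 c2 i := by
      funext k
      have : x (2 * k + 1) = fib p1 c1 k + fib p2 c2 k := by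
        unfold x; rw [if_neg (by omega), show (2 * k + 1) / 2 = k by omega]
      rw [this]; unfold e; split_ifs <;> simp
    rw [e1]; exact h1

lemma U_bd (ε : ℕ → Bool) (j : ℕ) : -1 ≤ U ε j ∧ U ε j ≤ 3 := by
  unfold U c1 c2 e
  split_ifs <;> simp

lemma digits (d : ℕ → ℤ) (hd : ∀ j, |d j| ≤ 4) (h : ∑' j, (d j : ℝ) * w j = 0) (j : ℕ) :
    d j = 0 := by
  induction j using Nat.strong_induction_on with
  | _ j ih =>
    have s := sum_bd d 4 hd
    have h1 := s.sum_add_tsum_nat_add (j + 1)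
    rw [h, Finset.sum_range_succ, Finset.sum_eq_zero (fun i hi => by
      rw [ih i (Finset.mem_range.mp hi)]; simp), zero_add] at h1
    have g : HasSum (fun i : ℕ => 4 * w (i + (j + 1))) (4 / 9 * w j) := by
      have := (hasSum_geometric_of_lt_one (show (0 : ℝ) ≤ 1 / 10 by norm_num)
        (by norm_num)).mul_left (4 / 10 * w j)
      have e1 : (fun i : ℕ => 4 * w (i + (j + 1))) = fun i : ℕ => 4 / 10 * w j * (1 / 10) ^ i := by
        funext i; unfold w; rw [pow_add, pow_succ]; ring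
      rw [e1, show 4 / 9 * w j = 4 / 10 * w j * (1 - 1 / 10)⁻¹ by ring]
      exact this
    have h2 := tsum_of_norm_bounded g (f := fun i => (d (i + (j + 1)) : ℝ) * w (i + (j + 1)))
      fun i => by
        rw [Real.norm_eq_abs, abs_mul, abs_of_pos (w_pos _)]
        have : |(d (i + (j + 1)) : ℝ)| ≤ 4 := by exact_mod_cast hd _
        exact mul_le_mul_of_nonneg_right this (w_pos _).le
    by_contra hne
    have h3 : (1 : ℝ) ≤ |(d j : ℝ)| := by exact_mod_cast Int.one_le_abs hne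
    have h4 : ∑' i, (d (i + (j + 1)) : ℝ) * w (i + (j + 1)) = -((d j : ℝ) * w j) := by linarith
    rw [h4, norm_neg, Real.norm_eq_abs, abs_mul, abs_of_pos (w_pos j)] at h2
    have := w_pos j
    nlinarith

lemma U_eq (ε ε' : ℕ → Bool)
    (h : ∑' n, (if ε n = true then x n else 0) = ∑' n, (if ε' n = true then x n else 0)) (j : ℕ) :
    U ε j = U ε' j := by
  rw [(f_sum ε).tsum_eq, (f_sum ε').tsum_eq] at h
  have b : ∀ (η : ℕ → Bool) j, |U η j| ≤ 3 := fun η j => by
    have := U_bd η j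
    rw [abs_le]; omega
  have := digits (fun j => U ε j - U ε' j) (fun j => by
    have h1 := U_bd ε j
    have h2 := U_bd ε' j
    rw [abs_le]; omega) (by
      rw [← sub_eq_zero, ← (sum_bd _ 3 (b ε)).tsum_sub (sum_bd _ 3 (b ε'))] at h
      rw [← h]
      exact tsum_congr fun j => by push_cast; ring) j
  omega

lemma two (ε ε' : ℕ → Bool) (h : ∀ j, U ε j = U ε' j) (i i' : ℕ) (hg : Nat.sqrt i ≠ Nat.sqrt i') :
    ε (2 * i + 1) = ε' (2 * i + 1) ∨ ε (2 * i' + 1) = ε' (2 * i' + 1) := by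
  have h0 := h (2 * Nat.pair i i')
  have h1 := h (2 * Nat.pair i i' + 1)
  have a0 : 2 * Nat.pair i i' / 2 = Nat.pair i i' := by omega
  have a1 : (2 * Nat.pair i i' + 1) / 2 = Nat.pair i i' := by omega
  have a2 : 2 * Nat.pair i i' % 2 = 0 := by omega
  have a3 : (2 * Nat.pair i i' + 1) % 2 ≠ 0 := by omega
  simp only [U, c1, c2, p1, p2, a0, a1, a2, a3, Nat.unpair_pair, hg, if_false, if_true] at h0 h1
  have b1 := e_bd (ε (2 * (2 * Nat.pair i i')))
  have b2 := e_bd (ε' (2 * (2 * Nat.pair i i')))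
  have b3 := e_bd (ε (2 * (2 * Nat.pair i i' + 1)))
  have b4 := e_bd (ε' (2 * (2 * Nat.pair i i' + 1)))
  revert h0 h1
  generalize e (ε (2 * (2 * Nat.pair i i'))) = u1 at b1
  generalize e (ε' (2 * (2 * Nat.pair i i'))) = u2 at b2
  generalize e (ε (2 * (2 * Nat.pair i i' + 1))) = u3 at b3
  generalize e (ε' (2 * (2 * Nat.pair i i' + 1))) = u4 at b4
  cases ε (2 * i + 1) <;> cases ε' (2 * i + 1) <;> cases ε (2 * i' + 1) <;>
    cases ε' (2 * i' + 1) <;> simp [e] <;> omega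

lemma ext_odd (ε ε' : ℕ → Bool) (h : ∀ j, U ε j = U ε' j)
    (ho : ∀ i, ε (2 * i + 1) = ε' (2 * i + 1)) : ε = ε' := by
  funext n
  obtain ⟨k, rfl | rfl⟩ := Nat.even_or_odd' n
  · have := h k
    unfold U at this
    rw [ho, ho] at this
    revert this
    cases ε (2 * k) <;> cases ε' (2 * k) <;> simp [e]
  · exact ho k

lemma fin (t : ℝ) : Finite {ε : ℕ → Bool // ∑' n, (if ε n = true then x n else 0) = t} := by
  rcases isEmpty_or_nonempty {ε : ℕ → Bool // ∑' n, (if ε n = true then x n else 0) = t} with h | h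
  · infer_instance
  obtain ⟨ε0⟩ := h
  have hU : ∀ ε ε' : {ε : ℕ → Bool // ∑' n, (if ε n = true then x n else 0) = t},
      ∀ j, U ε.1 j = U ε'.1 j := fun ε ε' => U_eq _ _ (ε.2.trans ε'.2.symm)
  obtain ⟨k, hk⟩ : ∃ k, ∀ ε : {ε : ℕ → Bool // ∑' n, (if ε n = true then x n else 0) = t},
      ∀ i, Nat.sqrt i ≠ k → ε.1 (2 * i + 1) = ε0.1 (2 * i + 1) := by
    by_contra hcon
    push Not at hcon
    obtain ⟨ε1, i1, -, h1⟩ := hcon 0
    obtain ⟨ε2, i2, hg, h2⟩ := hcon (Nat.sqrt i1)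
    have a1 := (two _ _ (hU ε1 ε0) i2 i1 hg).resolve_right h1
    have a2 := (two _ _ (hU ε2 ε0) i2 i1 hg).resolve_left h2
    rcases two _ _ (hU ε1 ε2) i2 i1 hg with a3 | a3
    · exact h2 (a3 ▸ a1)
    · exact h1 (a3.trans a2)
  refine Finite.of_injective (fun ε (i : Fin ((k + 1) * (k + 1))) => ε.1 (2 * i + 1)) ?_
  intro ε ε' hh
  refine Subtype.ext (ext_odd _ _ (hU ε ε') fun i => ?_)
  by_cases hi : Nat.sqrt i = k
  · have hlt : i < (k + 1) * (k + 1) := hi ▸ Nat.lt_succ_sqrt i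
    exact congrFun hh ⟨i, hlt⟩
  · rw [hk ε i hi, hk ε' i hi]

def u (N j : ℕ) : ℤ := if j % 2 = 0 ∨ Nat.sqrt (p1 j) = N then 1 else 0

def el (N m : ℕ) (n : ℕ) : Bool :=
  if n % 2 = 0 then decide (u N (n / 2) - e (decide (p1 (n / 2) = N * N + m)) * c1 (n / 2) -
    e (decide (p2 (n / 2) = N * N + m)) * c2 (n / 2) = 1) else decide (n / 2 = N * N + m)

lemma el_odd (N m i : ℕ) : el N m (2 * i + 1) = decide (i = N * N + m) := by
  unfold el; rw [if_neg (by omega), show (2 * i + 1) / 2 = i by omega]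

lemma U_el (N m : ℕ) (hm : m < N) (j : ℕ) : U (el N m) j = u N j := by
  have hs : Nat.sqrt (N * N + m) = N := Nat.sqrt_add_eq N (by omega)
  unfold U
  rw [el_odd, el_odd]
  unfold el
  rw [if_pos (by omega), show 2 * j / 2 = j by omega]
  unfold u c1 c2 e
  by_cases h1 : p1 j = N * N + m <;> by_cases h2 : p2 j = N * N + m <;>
    by_cases h3 : j % 2 = 0 <;> by_cases h4 : Nat.sqrt (p1 j) = Nat.sqrt (p2 j) <;>
    by_cases h5 : Nat.sqrt (p1 j) = N <;> simp_all

/-- There is an absolutely convergent real series such that, counting 0-1 sequences whose subsum equals t, some t gives arbitrarily large finite counts, and no t gives countably infinitely many or continuum many. -/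
theorem result :
    ∃ x : ℕ → ℝ, Summable (fun n => |x n|) ∧
      (∀ N : ℕ, ∃ t : ℝ, ∃ k : ℕ, N ≤ k ∧
        Cardinal.mk {ε : ℕ → Bool // ∑' n, (if ε n = true then x n else 0) = t} = (k : Cardinal)) ∧
      (∀ t : ℝ,
        Cardinal.mk {ε : ℕ → Bool // ∑' n, (if ε n = true then x n else 0) = t} ≠ Cardinal.aleph0 ∧
        Cardinal.mk {ε : ℕ → Bool // ∑' n, (if ε n = true then x n else 0) = t} ≠ Cardinal.continuum) := by
  refine ⟨x, ?_, fun N => ?_, fun t => ?_⟩
  · have := (f_sum fun _ => true).summable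
    simpa using this.abs
  · refine ⟨∑' j, (u N j : ℝ) * w j, ?_⟩
    have := fin (∑' j, (u N j : ℝ) * w j)
    refine ⟨Nat.card _, ?_, Nat.cast_card.symm⟩
    have key := Nat.card_le_card_of_injective (fun m : Fin N =>
      (⟨el N m, by rw [(f_sum _).tsum_eq]; exact tsum_congr fun j => by rw [U_el N m m.2]⟩ :
        {ε : ℕ → Bool // ∑' n, (if ε n = true then x n else 0) = ∑' j, (u N j : ℝ) * w j})) (by
      intro m m' h
      have h1 := congrFun (congrArg Subtype.val h) (2 * (N * N + m) + 1)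
      simp only [el_odd] at h1
      exact Fin.ext (by simpa using h1))
    simpa using key
  · have := fin t
    have h1 := Cardinal.lt_aleph0_of_finite
      {ε : ℕ → Bool // ∑' n, (if ε n = true then x n else 0) = t}
    exact ⟨h1.ne, (lt_of_lt_of_le h1 Cardinal.aleph0_le_continuum).ne⟩

end Pool.Agent.S04889
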