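import Pool.Statements.S04934
import Pool.Agent.H27.Dd

set_option autoImplicit false
open Pool Pool.MP_6ac155_an

namespace Pool.Agent.S04934

/-- The negation of the preceding statement: There is a real Banach space with the diametral local diameter two property (slices of the unit ball) that fails the diametral diameter two property (relatively weakly open subsets of the unit ball). -/
theorem result :
    ¬ (∃ (X : Type) (_ : NormedAddCommGroup X) (_ : NormedSpace ℝ X) (_ : CompleteSpace X),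
      (∀ (f : X →L[ℝ] ℝ) (α : ℝ), 0 < α → ∀ x : X, ‖x‖ = 1 → ‖f‖ - α < f x →
        ∀ ε : ℝ, 0 < ε → ∃ y : X, ‖y‖ ≤ 1 ∧ ‖f‖ - α < f y ∧ 2 - ε < ‖x - y‖) ∧
      ¬ (∀ (n : ℕ) (g : Fin n → (X →L[ℝ] ℝ)) (δ : ℝ), 0 < δ → ∀ x : X, ‖x‖ = 1 →
        ∀ ε : ℝ, 0 < ε → ∃ y : X, ‖y‖ ≤ 1 ∧ (∀ i, |g i (y - x)| < δ) ∧ 2 - ε < ‖x - y‖)) := by
  rintro ⟨X, _, _, _, h, h'⟩
  refine h' fun n g δ hδ x hx ε hε => Pool.Agent.H27.Dd.dd (J := LinearMap.id)
    (fun φ x hx τ hτ => ?_) g hδ hx hε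
  have h1 : φ x ≤ ‖φ‖ := (le_abs_self _).trans (by simpa [hx] using φ.le_opNorm x)
  obtain ⟨y, y1, y2, y3⟩ := h φ (‖φ‖ - φ x + τ) (by linarith) x hx (by linarith) τ hτ
  exact ⟨y, y1, show φ x - τ < φ y by linarith, y3⟩

end Pool.Agent.S04934
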