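import Pool.Statements.S04955
import Pool.Agent.H29.BR1

set_option autoImplicit false
open Pool Pool.MP_6c2b6a_an

namespace Pool.Agent.S04955

/-- Every nonreflexive real Banach space has a maximally monotone operator (graph in X×X*) that fails type (BR): some (x,x*), α,β>0 with inf over the graph of ⟨a−x,a*−x*⟩ above −αβ, yet no graph point within α of x and β of x*. -/
theorem result :
    ∀ (X : Type) [NormedAddCommGroup X] [NormedSpace ℝ X] [CompleteSpace X],
      (∃ φ : (X →L[ℝ] ℝ) →L[ℝ] ℝ, ∀ x : X, ∃ f : X →L[ℝ] ℝ, φ f ≠ f x) →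
      ∃ A : Set (X × (X →L[ℝ] ℝ)),
        (∀ p ∈ A, ∀ q ∈ A, 0 ≤ (p.2 - q.2) (p.1 - q.1)) ∧
        (∀ z : X × (X →L[ℝ] ℝ), (∀ p ∈ A, 0 ≤ (z.2 - p.2) (z.1 - p.1)) → z ∈ A) ∧
        ∃ (x : X) (xs : X →L[ℝ] ℝ) (α β : ℝ), 0 < α ∧ 0 < β ∧
          (∃ c : ℝ, -(α * β) < c ∧ ∀ p ∈ A, c ≤ (p.2 - xs) (p.1 - x)) ∧
          ∀ p ∈ A, ¬ (‖p.1 - x‖ < α ∧ ‖p.2 - xs‖ < β) := by
  rintro X _ _ _ ⟨φ, hφ⟩
  obtain ⟨u, f, C, C0, nu, nf, u0, fu, P⟩ := H29.BR.james φ hφ
  let Y := (Submodule.span ℝ (Set.range u)).topologicalClosure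
  have uY : ∀ n, u n ∈ Y := fun n =>
    Submodule.le_topologicalClosure _ (Submodule.subset_span ⟨n, rfl⟩)
  have ev : ∀ z ∈ Submodule.span ℝ (Set.range u), ∀ᶠ N in Filter.atTop, f N z = 0 ∧
      ∑ m ∈ Finset.range N, f m z • (u (m + 1) - u m) = z := fun z hz => by
    induction hz using Submodule.span_induction with
    | mem x hx =>
      obtain ⟨n, rfl⟩ := hx
      filter_upwards [Filter.eventually_ge_atTop n] with N hN
      refine ⟨by rw [fu, if_neg hN.not_gt], ?_⟩
      rw [← Finset.sum_subset (Finset.range_mono hN) fun m _ h => by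
        rw [fu, if_neg (mt Finset.mem_range.2 h), zero_smul],
        Finset.sum_congr rfl fun m h => by rw [fu, if_pos (Finset.mem_range.1 h), one_smul],
        Finset.sum_range_sub, u0, sub_zero]
    | zero => simp
    | add x y _ _ h1 h2 =>
      filter_upwards [h1, h2] with N a b
      simp only [map_add, add_smul, Finset.sum_add_distrib, a, b, add_zero, and_self]
    | smul c x _ h =>
      filter_upwards [h] with N a
      simp only [map_smul, smul_eq_mul, mul_smul, ← Finset.smul_sum, a, mul_zero, and_self]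
  have pos : ∀ x ∈ Y, ∀ y : X →L[ℝ] ℝ, (∀ m, f m x = y (u (m + 1)) + y (u m)) → 0 ≤ y x :=
    fun x hx y h => by
      have cl : ∀ N, IsClosed {x : X | ‖∑ m ∈ Finset.range N, f m x • (u (m + 1) - u m)‖ ≤
        C * ‖x‖} := fun N => isClosed_le (by fun_prop) (by fun_prop)
      refine le_of_forall_pos_le_add fun ε hε => ?_
      obtain ⟨z, hz, d⟩ := Metric.mem_closure_iff.1 hx (ε / ((‖y‖ + 1) * (C + 1))) (by positivity)
      rw [dist_eq_norm, lt_div_iff₀ (by positivity)] at d
      obtain ⟨N, -, e⟩ := (ev z hz).exists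
      have b := closure_minimal (P N) (cl N)
        (Y.sub_mem hx (Submodule.le_topologicalClosure _ hz))
      have s : y (∑ m ∈ Finset.range N, f m x • (u (m + 1) - u m)) = y (u N) ^ 2 := by
        rw [map_sum, Finset.sum_congr rfl (g := fun m => y (u (m + 1)) ^ 2 - y (u m) ^ 2)
          fun m _ => by rw [map_smul, map_sub, h, smul_eq_mul]; ring,
          Finset.sum_range_sub fun m => y (u m) ^ 2, u0]
        simp
      have b1 := le_of_abs_le (y.le_of_opNorm_le_of_le le_rfl b)
      have b2 := neg_le_of_abs_le (y.le_opNorm (x - z))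
      simp only [map_sub (f _), sub_smul, Finset.sum_sub_distrib, e] at b1
      rw [map_sub, s] at b1
      rw [map_sub] at b2
      nlinarith [sq_nonneg (y (u N)), norm_nonneg (x - z), norm_nonneg y]
  refine ⟨{p | p.1 ∈ Y ∧ ∀ m, f m p.1 = p.2 (u (m + 1)) + p.2 (u m)}, fun p hp q hq =>
    pos _ (Y.sub_mem hp.1 hq.1) _ fun m => ?_, ?_, u 1, -f 0, 2 * C, C⁻¹, by positivity,
    by positivity, ⟨-1, ?_, fun p hp => ?_⟩, fun p hp h => ?_⟩
  · simp only [map_sub, ContinuousLinearMap.sub_apply, hp.2 m, hq.2 m]; ring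
  · rintro ⟨x, y⟩ h
    have hx : x ∈ Y := by
      by_contra hx
      obtain ⟨w, r, h1, h2⟩ := geometric_hahn_banach_closed_point Y.convex
        (Submodule.isClosed_topologicalClosure _) hx
      have k : ∀ z ∈ Y, w z = 0 := fun z hz => H29.BR.zero_of_le (b := r) fun t => by
        have := h1 _ (Y.smul_mem t hz)
        rw [map_smul] at this
        exact this.le
      have h3 := h1 0 Y.zero_mem
      have h4 : w x = 0 := H29.BR.zero_of_le (b := y x) fun t => by
        have := h (0, t • w) ⟨Y.zero_mem, fun m => by simp [k _ (uY _)]⟩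
        simpa using this
      rw [map_zero] at h3
      linarith
    have st : ∀ m, f (m + 1) x - y (u (m + 2)) - y (u (m + 1)) =
        f m x - y (u (m + 1)) - y (u m) := fun m => by
      have := H29.BR.zero_of_le (a := y (u (m + 2)) - y (u m) + (f m x - f (m + 1) x))
        (b := y x) fun t => by
          have := h (t • (u (m + 2) - u m), t • (f m - f (m + 1)))
            ⟨Y.smul_mem t (Y.sub_mem (uY _) (uY _)), fun j => by
              simp only [map_smul, map_sub, ContinuousLinearMap.smul_apply,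
                ContinuousLinearMap.sub_apply, fu, smul_eq_mul]
              split_ifs <;> first | ring1 | omega⟩
          simp only [map_smul, map_sub, ContinuousLinearMap.smul_apply,
            ContinuousLinearMap.sub_apply, fu, smul_eq_mul] at this
          rw [if_pos (by omega), if_pos (by omega), if_neg (by omega), if_neg (by omega)] at this
          linarith
      linarith
    obtain ⟨c, hc⟩ : ∃ c, ∀ m, f m x - y (u (m + 1)) - y (u m) = 2 * c :=
      ⟨(f 0 x - y (u 1) - y (u 0)) / 2, fun m => by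
        induction m with
        | zero => ring
        | succ m ih => rw [st, ih]⟩
    have := h (x - c • u 1, y + c • f 0) ⟨Y.sub_mem hx (Y.smul_mem c (uY 1)), fun m => by
      have := hc m
      simp only [map_smul, map_sub, ContinuousLinearMap.smul_apply,
        ContinuousLinearMap.add_apply, fu, smul_eq_mul]
      split_ifs <;> first | linarith | omega⟩
    simp [fu] at this
    have c0 : c = 0 := mul_self_eq_zero.1 (le_antisymm this (mul_self_nonneg c))
    exact ⟨hx, fun m => by have := hc m; rw [c0] at this; show f m x = y _ + y _; linarith⟩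
  · rw [mul_assoc, mul_inv_cancel₀ C0.ne']; norm_num
  · have h1 := pos _ hp.1 _ hp.2
    have h2 := hp.2 0
    rw [u0, map_zero] at h2
    simp only [map_sub, sub_neg_eq_add, ContinuousLinearMap.add_apply, fu, zero_add] at h2 ⊢
    norm_num
    linarith
  · obtain ⟨ε, hε, e⟩ : ∃ ε, 0 < ε ∧ ‖p.2 - -f 0‖ * C + ε = 1 :=
      ⟨1 - ‖p.2 - -f 0‖ * C, by
        have := mul_lt_mul_of_pos_right h.2 C0
        rw [inv_mul_cancel₀ C0.ne'] at this
        linarith, by ring⟩
    obtain ⟨z, hz, d⟩ := Metric.mem_closure_iff.1 hp.1 (ε / C) (by positivity)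
    rw [dist_eq_norm, lt_div_iff₀ C0] at d
    obtain ⟨N, ⟨h1, -⟩, h2⟩ := ((ev z hz).and (Filter.eventually_gt_atTop 0)).exists
    have b1 := neg_le_of_abs_le ((f N).le_of_opNorm_le (nf N) (p.1 - z))
    have b2 := le_of_abs_le ((p.2 - -f 0).le_of_opNorm_le_of_le le_rfl (nu N))
    have b3 := le_of_abs_le ((p.2 - -f 0).le_of_opNorm_le_of_le le_rfl (nu (N + 1)))
    rw [map_sub, h1, hp.2] at b1
    rw [ContinuousLinearMap.sub_apply, ContinuousLinearMap.neg_apply, fu, if_pos (by omega)]
      at b2 b3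
    linarith

end Pool.Agent.S04955
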