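import Pool.Statements.S04961
import Pool.Agent.H28.Wieg2

set_option autoImplicit false
open MeasureTheory
open Pool Pool.MP_6c36f4_an

namespace Pool.Agent.S04961

open Set Pool.Agent.H27.Rein Pool.Agent.H28.Wieg
open scoped ComplexConjugate

lemma e2 : MemLp (fun z : Fin 2 → ℂ => z 1) 2 (volume.restrict Om) := by
  simpa using memLp_w (p := 2) (by norm_num) (by norm_num)

lemma iN : Integrable (fun z : Fin 2 → ℂ => ‖z 1‖ ^ 2) (volume.restrict Om) :=
  (memLp_two_iff_integrable_sq_norm e2.1).1 e2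

lemma cK (n : ℕ) : IsCompact (K2 n) := cpt_box (cpt_sh _ _) (cpt_sh _ _)

lemma sK (n : ℕ) : K2 n ⊆ Om := fun _ hz => (K2_sub n hz).1

lemma V_pos (n : ℕ) : 0 < volume.real (K2 n) :=
  lt_of_lt_of_le (by have := dl_pos n; positivity) (vol_K2 n)

lemma I_ge (n : ℕ) : volume.real (K2 n) * (2 ^ n / 4) ^ 2 ≤ ∫ z in K2 n, ‖z 1‖ ^ 2 := by
  have : ∫ _ in K2 n, ((2 : ℝ) ^ n / 4) ^ 2 ≤ ∫ z in K2 n, ‖z 1‖ ^ 2 :=
    setIntegral_mono_on (integrableOn_const (cK n).measure_lt_top.ne)
      (IntegrableOn.mono_set iN (sK n)) (cK n).measurableSet fun z hz =>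
      pow_le_pow_left₀ (by positivity) hz.2.1 2
  simpa using this

lemma N_pos : 0 < ∫ z in Om, ‖z 1‖ ^ 2 := by
  have h1 : ∫ z in K2 0, ‖z 1‖ ^ 2 ≤ ∫ z in Om, ‖z 1‖ ^ 2 :=
    setIntegral_mono_set iN (ae_of_all _ fun z => by positivity) (sK 0).eventuallyLE
  have h2 := I_ge 0
  have h3 := V_pos 0
  have : 0 < volume.real (K2 0) * (2 ^ 0 / 4) ^ 2 := by positivity
  linarith

lemma ind_const {p : ℝ} (hp : 0 < p) (n : ℕ) {c : ℝ} (hc : 0 ≤ c) :
    eLpNorm ((K2 n).indicator fun _ => c) (ENNReal.ofReal p) (volume.restrict Om) =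
      ENNReal.ofReal (c * volume.real (K2 n) ^ (1 / p)) := by
  rw [eLpNorm_indicator_const (cK n).measurableSet (by simpa using hp) ENNReal.ofReal_ne_top,
    Measure.restrict_apply (cK n).measurableSet, inter_eq_left.2 (sK n),
    ENNReal.toReal_ofReal hp.le, ENNReal.ofReal_mul hc,
    ← ENNReal.ofReal_rpow_of_nonneg measureReal_nonneg (by positivity), measureReal_def,
    ENNReal.ofReal_toReal (cK n).measure_lt_top.ne, Real.enorm_of_nonneg hc]

lemma low {p : ℝ} (hp : 0 < p) (m : ℕ) :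
    ENNReal.ofReal (2 ^ m / 4 * volume.real (K2 m) ^ (1 / p)) ≤
      eLpNorm (fun z : Fin 2 → ℂ => z 1) (ENNReal.ofReal p) (volume.restrict Om) := by
  rw [← ind_const hp m (by positivity)]
  refine eLpNorm_mono fun z => ?_
  by_cases hz : z ∈ K2 m
  · rw [indicator_of_mem hz, Real.norm_of_nonneg (by positivity)]; exact hz.2.1
  · rw [indicator_of_notMem hz]; simp

lemma upp {p : ℝ} (hp : 0 < p) (n : ℕ) :
    eLpNorm ((K2 n).indicator fun z : Fin 2 → ℂ => z 1) (ENNReal.ofReal p) (volume.restrict Om) ≤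
      ENNReal.ofReal (2 ^ n / 2 * volume.real (K2 n) ^ (1 / p)) := by
  rw [← ind_const hp n (by positivity)]
  refine eLpNorm_mono fun z => ?_
  by_cases hz : z ∈ K2 n
  · rw [indicator_of_mem hz, indicator_of_mem hz, Real.norm_of_nonneg (by positivity)]; exact hz.2.2
  · rw [indicator_of_notMem hz]; simp

lemma cc (z : ℂ) : z * conj z = ((‖z‖ ^ 2 : ℝ) : ℂ) := by
  rw [Complex.mul_conj']; simp

lemma pair {f : (Fin 2 → ℂ) → ℂ} (hf : MemLp f 2 (volume.restrict Om)) (c : ℂ) :
    ∫ z in Om, (f z - c * z 1) * conj (z 1) =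
      (∫ z in Om, f z * conj (z 1)) - c * ((∫ z in Om, ‖z 1‖ ^ 2 : ℝ) : ℂ) := by
  have i1 : Integrable (fun z : Fin 2 → ℂ => f z * conj (z 1)) (volume.restrict Om) :=
    hf.integrable_mul (e2.of_le (Complex.continuous_conj.comp
      (continuous_apply (1 : Fin 2))).aestronglyMeasurable (ae_of_all _ fun z => by simp))
  have i2 : Integrable (fun z : Fin 2 → ℂ => c * ((‖z 1‖ ^ 2 : ℝ) : ℂ)) (volume.restrict Om) :=
    iN.ofReal.const_mul c
  rw [← integral_complex_ofReal, ← integral_const_mul, ← integral_sub i1 i2]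
  refine integral_congr_ae (ae_of_all _ fun z => ?_)
  simp only [← cc]
  ring

lemma rp {V t B s : ℝ} (hs : 0 < s) (hV : 0 < V) (ht : 0 < t) (h : t * V ^ (1 / s) ≤ B) :
    V * t ^ s ≤ B ^ s := by
  have := Real.rpow_le_rpow (by positivity) h hs.le
  rwa [Real.mul_rpow ht.le (by positivity), ← Real.rpow_mul hV.le, one_div_mul_cancel hs.ne',
    Real.rpow_one, mul_comm] at this


/-- There is a domain in ℂⁿ (n ≥ 1) and reals 1 < a < b such that, for p > 1, its Bergman projection satisfies ‖Pf‖_p ≤ C‖f‖_p on L² ∩ Lᵖ exactly when a ≤ p ≤ b. -/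
theorem result : ∃ n : ℕ, 1 ≤ n ∧ ∃ Ω : Set (Fin n → ℂ), IsOpen Ω ∧ IsConnected Ω ∧
    ∃ a b : ℝ, 1 < a ∧ a < b ∧ ∀ p : ℝ, 1 < p →
      ((∃ C : ℝ, ∀ f g : (Fin n → ℂ) → ℂ,
          MemLp f 2 (volume.restrict Ω) →
          MemLp f (ENNReal.ofReal p) (volume.restrict Ω) →
          DifferentiableOn ℂ g Ω →
          MemLp g 2 (volume.restrict Ω) →
          (∀ h : (Fin n → ℂ) → ℂ, DifferentiableOn ℂ h Ω → MemLp h 2 (volume.restrict Ω) →
              ∫ z in Ω, (f z - g z) * (starRingEnd ℂ) (h z) = 0) →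
          eLpNorm g (ENNReal.ofReal p) (volume.restrict Ω)
            ≤ ENNReal.ofReal C * eLpNorm f (ENNReal.ofReal p) (volume.restrict Ω))
        ↔ (a ≤ p ∧ p ≤ b)) := by
  refine ⟨2, by norm_num, Om, open_Om, conn_Om, 3 / 2, 3, by norm_num, by norm_num,
    fun p hp => ⟨?_, ?_⟩⟩
  · rintro ⟨C, hC⟩
    have p0 : 0 < p := by linarith
    have N0 := N_pos
    set N : ℝ := ∫ z in Om, ‖z 1‖ ^ 2 with hN
    have key : ∀ n m : ℕ, volume.real (K2 n) * (2 ^ n / 4) ^ 2 / N *
        (2 ^ m / 4 * volume.real (K2 m) ^ (1 / p)) ≤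
        |C| * (2 ^ n / 2 * volume.real (K2 n) ^ (1 / p)) := by
      intro n m
      set I : ℝ := ∫ z in K2 n, ‖z 1‖ ^ 2 with hI
      have ms := (cK n).measurableSet
      have f2 : MemLp ((K2 n).indicator fun z : Fin 2 → ℂ => z 1) 2 (volume.restrict Om) :=
        e2.indicator ms
      have h1 := hC ((K2 n).indicator fun z : Fin 2 → ℂ => z 1) (fun z => ((I / N : ℝ) : ℂ) * z 1)
        f2 ⟨f2.1, (upp p0 n).trans_lt ENNReal.ofReal_lt_top⟩
        (by fun_prop) (e2.const_mul _) (by
          intro h hh h2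
          obtain ⟨a, ha⟩ := span hh h2
          have : ∫ z in Om, ((K2 n).indicator (fun z : Fin 2 → ℂ => z 1) z -
              ((I / N : ℝ) : ℂ) * z 1) * conj (h z) = conj a * ∫ z in Om,
              ((K2 n).indicator (fun z : Fin 2 → ℂ => z 1) z - ((I / N : ℝ) : ℂ) * z 1) *
                conj (z 1) := by
            rw [← integral_const_mul]
            refine integral_congr_ae ((ae_mem open_Om).mono fun z hz => ?_)
            simp only [ha z hz, map_mul]
            ring
          rw [this, pair f2]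
          have e : ∫ z in Om, (K2 n).indicator (fun z : Fin 2 → ℂ => z 1) z * conj (z 1) = I := by
            rw [hI, ← integral_complex_ofReal, ← Measure.restrict_restrict_of_subset (sK n),
              ← integral_indicator ms]
            refine integral_congr_ae (ae_of_all _ fun z => ?_)
            by_cases hz : z ∈ K2 n
            · simp only [indicator_of_mem hz, cc]
            · simp [indicator_of_notMem hz]
          rw [e, ← hN, ← Complex.ofReal_mul, div_mul_cancel₀ _ N0.ne', sub_self, mul_zero])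
      have I0 : 0 ≤ I := integral_nonneg fun z => by positivity
      have h2 : eLpNorm (fun z : Fin 2 → ℂ => ((I / N : ℝ) : ℂ) * z 1) (ENNReal.ofReal p)
          (volume.restrict Om) = ENNReal.ofReal (I / N) *
          eLpNorm (fun z : Fin 2 → ℂ => z 1) (ENNReal.ofReal p) (volume.restrict Om) := by
        have := eLpNorm_const_smul ((I / N : ℝ) : ℂ) (fun z : Fin 2 → ℂ => z 1) (ENNReal.ofReal p)
          (volume.restrict Om)
        rw [← ofReal_norm_eq_enorm, Complex.norm_real, Real.norm_of_nonneg (by positivity)] at this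
        exact this
      rw [h2] at h1
      have h3 : ENNReal.ofReal (I / N) * ENNReal.ofReal (2 ^ m / 4 * volume.real (K2 m) ^ (1 / p)) ≤
          ENNReal.ofReal |C| * ENNReal.ofReal (2 ^ n / 2 * volume.real (K2 n) ^ (1 / p)) :=
        (mul_le_mul' le_rfl (low p0 m)).trans (h1.trans
          (mul_le_mul' (ENNReal.ofReal_le_ofReal (le_abs_self C)) (upp p0 n)))
      rw [← ENNReal.ofReal_mul (by positivity), ← ENNReal.ofReal_mul (abs_nonneg C),
        ENNReal.ofReal_le_ofReal_iff (by have := V_pos n; positivity)] at h3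
      refine le_trans ?_ h3
      have := V_pos m
      gcongr
      exact I_ge n
    have V0 := V_pos 0
    constructor
    · by_contra hlt
      push Not at hlt
      set q : ℝ := p / (p - 1) with hq
      have q3 : 3 < q := by rw [hq, lt_div_iff₀ (by linarith)]; linarith
      set E : ℝ := 2 ^ 0 / 4 * volume.real (K2 0) ^ (1 / p) with hE
      have E0 : 0 < E := by positivity
      obtain ⟨n, -, hn⟩ := big q3 ((8 * |C| * N / E) ^ q)
      refine hn.not_ge (rp (by linarith) (V_pos n) (by positivity) ?_)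
      have k := key n 0
      rw [← hE] at k
      have Vn := V_pos n
      have e : volume.real (K2 n) = volume.real (K2 n) ^ (1 / q) * volume.real (K2 n) ^ (1 / p) := by
        rw [← Real.rpow_add Vn, hq, show 1 / (p / (p - 1)) + 1 / p = 1 by field_simp; ring,
          Real.rpow_one]
      set X := volume.real (K2 n) ^ (1 / q)
      set Y := volume.real (K2 n) ^ (1 / p)
      have Y0 : 0 < Y := by positivity
      have t0 : (0 : ℝ) < 2 ^ n := by positivity
      rw [e, div_mul_eq_mul_div, div_le_iff₀ N0] at k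
      rw [le_div_iff₀ E0]
      refine le_of_mul_le_mul_right ?_ (mul_pos Y0 t0)
      nlinarith
    · by_contra hlt
      push Not at hlt
      set D : ℝ := volume.real (K2 0) * (2 ^ 0 / 4) ^ 2 / N with hD
      have D0 : 0 < D := by positivity
      obtain ⟨m, -, hm⟩ := big hlt
        ((4 * (|C| * (2 ^ 0 / 2 * volume.real (K2 0) ^ (1 / p))) / D) ^ p)
      refine hm.not_ge (rp p0 (V_pos m) (by positivity) ?_)
      have k := key 0 m
      rw [← hD] at k
      rw [le_div_iff₀ D0]
      nlinarith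
  · rintro ⟨h1, h3⟩
    have p0 : 0 < p := by linarith
    have N0 := N_pos
    set N : ℝ := ∫ z in Om, ‖z 1‖ ^ 2 with hN
    have hpq : p.HolderConjugate (p / (p - 1)) := Real.HolderConjugate.conjExponent hp
    set q : ℝ := p / (p - 1) with hq
    have mp := memLp_w h1 h3
    have mq := memLp_w (p := q) (by rw [hq, le_div_iff₀ (by linarith)]; linarith)
      (by rw [hq, div_le_iff₀ (by linarith)]; linarith)
    set Ep := eLpNorm (fun z : Fin 2 → ℂ => z 1) (ENNReal.ofReal p) (volume.restrict Om)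
    set Eq := eLpNorm (fun z : Fin 2 → ℂ => z 1) (ENNReal.ofReal q) (volume.restrict Om)
    refine ⟨(Ep * Eq).toReal / N, fun f g f2 fp gd g2 ho => ?_⟩
    obtain ⟨a, ha⟩ := span gd g2
    have ga : g =ᵐ[volume.restrict Om] fun z => a * z 1 := (ae_mem open_Om).mono fun z hz => ha z hz
    have o1 := ho (fun z => z 1) (by fun_prop) e2
    have o2 : ∫ z in Om, (f z - a * z 1) * conj (z 1) = 0 := by
      rw [← o1]
      exact integral_congr_ae (ga.mono fun z hz => by simp only [hz])
    rw [pair f2, ← hN, sub_eq_zero] at o2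
    haveI := hpq.ennrealOfReal
    have o3 : ‖a‖ₑ * ENNReal.ofReal N ≤ eLpNorm f (ENNReal.ofReal p) (volume.restrict Om) * Eq := by
      have : ‖a‖ₑ * ENNReal.ofReal N = ‖∫ z in Om, f z * conj (z 1)‖ₑ := by
        rw [o2, enorm_mul, ← ofReal_norm_eq_enorm (N : ℂ), Complex.norm_real,
          Real.norm_of_nonneg N0.le]
      rw [this]
      refine (enorm_integral_le_lintegral_enorm _).trans ?_
      have h4 := eLpNorm_smul_le_mul_eLpNorm (p := ENNReal.ofReal p) (q := ENNReal.ofReal q) (r := 1)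
        e2.1 f2.1
      rw [eLpNorm_one_eq_lintegral_enorm] at h4
      refine le_trans (le_of_eq (lintegral_congr fun z => ?_)) h4
      simp [enorm_mul, enorm]
    have o4 : eLpNorm g (ENNReal.ofReal p) (volume.restrict Om) = ‖a‖ₑ * Ep := by
      rw [eLpNorm_congr_ae ga]
      exact eLpNorm_const_smul a (fun z : Fin 2 → ℂ => z 1) _ _
    have N1 : ENNReal.ofReal N ≠ 0 := by simpa using N0
    rw [o4, ENNReal.ofReal_div_of_pos N0, ENNReal.ofReal_toReal (ENNReal.mul_ne_top mp.2.ne mq.2.ne),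
      ENNReal.div_eq_inv_mul, mul_assoc, ← ENNReal.div_eq_inv_mul,
      ENNReal.le_div_iff_mul_le (Or.inl N1) (Or.inl ENNReal.ofReal_ne_top)]
    calc ‖a‖ₑ * Ep * ENNReal.ofReal N = Ep * (‖a‖ₑ * ENNReal.ofReal N) := by ring
      _ ≤ Ep * (eLpNorm f (ENNReal.ofReal p) (volume.restrict Om) * Eq) := by gcongr
      _ = _ := by ring

end Pool.Agent.S04961
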