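import Pool.Statements.S04970
import Pool.Agent.H33.Sq2

set_option autoImplicit false
open Pool Pool.MP_6d7699_an

namespace Pool.Agent.S04970

open Pool.Agent.H33.Sq Finset

theorem result :
    ¬ (∀ μ : ℤ → ℝ, (∀ k, 0 ≤ μ k) → HasSum μ 1 →
      (∀ t : ℝ, 0 < |t| → |t| ≤ Real.pi →
        ‖∑' k : ℤ, (μ k : ℂ) * Complex.exp (((t * (k : ℝ) : ℝ) : ℂ) * Complex.I)‖ < 1) →
      (∃ C : ℝ, ∀ t : ℝ, 0 < |t| → |t| ≤ Real.pi →
        ‖1 - ∑' k : ℤ, (μ k : ℂ) * Complex.exp (((t * (k : ℝ) : ℝ) : ℂ) * Complex.I)‖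
          ≤ C * (1 - ‖∑' k : ℤ, (μ k : ℂ) * Complex.exp (((t * (k : ℝ) : ℝ) : ℂ) * Complex.I)‖)) →
      ∃ A : ℝ, 0 < A ∧ ∀ f : ℤ → ℝ, Summable (fun k => |f k|) → ∀ lam : ℝ, 0 < lam →
        MeasureTheory.Measure.count
          {k : ℤ | ENNReal.ofReal (lam ^ 2) <
            ∑' n : ℕ, ENNReal.ofReal (((n : ℝ) + 1) *
              (∑' j : ℤ,
                (Nat.iterate (fun g : ℤ → ℝ => fun m => ∑' i : ℤ, μ i * g (m - i)) (n + 1)
                    (fun m => if m = 0 then (1 : ℝ) else 0) j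
                  - Nat.iterate (fun g : ℤ → ℝ => fun m => ∑' i : ℤ, μ i * g (m - i)) (n + 2)
                    (fun m => if m = 0 then (1 : ℝ) else 0) j) * f (k - j)) ^ 2)}
          ≤ ENNReal.ofReal (A * (∑' k : ℤ, |f k|) / lam)) := by
  intro H
  obtain ⟨p, p0, hp⟩ := exists_p
  have p1 : HasSum p 1 := by
    have := hp ℝ 1 (by simp)
    simpa only [Pi.one_apply, smul_eq_mul, mul_one, show ∀ x : ℝ, x / 2 * (1 + 1) = x from
      fun x => by ring, sub_add_cancel] using this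
  have key : ∀ t : ℝ, 0 < |t| → |t| ≤ Real.pi → ∃ r : ℝ, 0 ≤ r ∧ r < 1 ∧
      ∑' k : ℤ, (p k : ℂ) * Complex.exp (((t * (k : ℝ) : ℝ) : ℂ) * Complex.I) = r := by
    intro t h0 ht
    have c : ∀ k, |w k * Real.cos (t * N k)| ≤ w k := fun k => by
      rw [abs_mul, abs_of_pos (w_pos k)]
      exact mul_le_of_le_one_right (w_pos k).le (Real.abs_cos_le_one _)
    have s : Summable fun k => w k * Real.cos (t * N k) := .of_norm_bounded w_sum.1 c
    refine ⟨1 - ∑' k, w k + ∑' k, w k * Real.cos (t * N k), ?_, ?_, ?_⟩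
    · have := hasSum_le (fun k => (abs_le.1 (c k)).1) w_sum.1.hasSum.neg s.hasSum
      linarith [w_sum.2]
    · have := hasSum_lt (i := 0) (fun k => (abs_le.1 (c k)).2) (by
        have a := abs_le.1 ht
        have := (Real.cos_eq_one_iff_of_lt_of_lt (x := t) (by linarith [Real.pi_pos])
          (by linarith [Real.pi_pos])).not.2 (abs_pos.1 h0)
        have := (Real.cos_le_one t).lt_of_ne this
        simp only [N, Nat.cast_one, mul_one]
        nlinarith [w_pos 0]) s.hasSum w_sum.1.hasSum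
      linarith
    · have := (hp ℂ (fun k => Complex.exp (((t * (k : ℝ) : ℝ) : ℂ) * Complex.I)) fun n => by
        rw [Complex.norm_exp_ofReal_mul_I]).tsum_eq
      simp only [Complex.real_smul] at this
      rw [this]
      push_cast
      congr 1
      · simp
      · refine tsum_congr fun k => ?_
        rw [Complex.cos]
        ring_nf
  obtain ⟨A, A0, hA⟩ := H p p0 p1 (fun t h0 ht => by
    obtain ⟨r, a, b, c⟩ := key t h0 ht
    rwa [c, Complex.norm_real, Real.norm_of_nonneg a]) ⟨1, fun t h0 ht => by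
    obtain ⟨r, a, b, c⟩ := key t h0 ht
    rw [c, ← Complex.ofReal_one, ← Complex.ofReal_sub, Complex.norm_real, Complex.norm_real,
      Real.norm_of_nonneg a, Real.norm_of_nonneg (by linarith), one_mul]⟩
  obtain ⟨L, hL⟩ := exists_nat_gt (2 ^ 25 * A)
  have L0 : (0 : ℝ) < L := lt_trans (by positivity) hL
  have L1 : 0 < L := by exact_mod_cast L0
  obtain ⟨q, hq⟩ : ∃ q, q = 4 ^ L ^ 2 := ⟨_, rfl⟩
  have q1 : 1 < q := hq ▸ Nat.one_lt_pow (by positivity) (by norm_num)
  obtain ⟨K, hK⟩ : ∃ K, K = q ^ 2 := ⟨_, rfl⟩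
  have qK : q < K := by nlinarith
  have K1 : 0 < K := by omega
  have K0 : (0 : ℝ) < K := by exact_mod_cast K1
  obtain ⟨n, n1, n2, r1, r2⟩ := params L q (4 * K ^ 2) hq (by positivity)
  obtain ⟨n, rfl⟩ : ∃ m, n = m + 1 := Nat.exists_eq_succ_of_ne_zero (lt_of_lt_of_le (by positivity) n1).ne'
  obtain ⟨D, hD⟩ : ∃ D, D = 2 * (4 * K ^ 2) := ⟨_, rfl⟩
  obtain ⟨v, hv⟩ : ∃ v : ℝ, v = 1 / (16 * K ^ 2) := ⟨_, rfl⟩
  have v0 : 0 < v := by rw [hv]; positivity
  have ev : D * (2 * v) = 1 := by rw [hv, hD]; push_cast; field_simp; norm_num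
  rw [show (1 : ℝ) / (2 * (4 * K ^ 2 : ℕ)) = 2 * v by rw [hv]; push_cast; field_simp; norm_num] at r1 r2
  rw [← hD] at n1 n2
  let I := Ico (K - 1) (2 * K - 1)
  have hI : I.card = K := by rw [Nat.card_Ico]; omega
  have Kv : K * (2 * v) ≤ 1 := by
    rw [← ev]; gcongr; nlinarith
  have hw : ∀ l ∈ I, K ≤ l + 1 ∧ w l = v := fun l hl => by
    have := mem_Ico.1 hl
    have e : K = 2 ^ (4 * L ^ 2) := by rw [hK, hq, ← pow_mul, show 4 = 2 ^ 2 from rfl, ← pow_mul]; ring_nf
    refine ⟨by omega, ?_⟩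
    rw [w, Nat.log_eq_of_pow_le_of_lt_pow (m := 4 * L ^ 2) (by omega) (by rw [pow_succ]; omega), hv, e]
    norm_num
  let u : ℕ → ℤ → ℝ := fun n => Nat.iterate (fun g : ℤ → ℝ => fun m => ∑' i : ℤ, p i * g (m - i)) n
    (fun m => if m = 0 then (1 : ℝ) else 0)
  have us : ∀ n m, u (n + 1) m = ∑' j, p j * u n (m - j) := fun n m => by
    simp only [u, Function.iterate_succ_apply']
  have hu := mass p p0 p1 u rfl us
  obtain ⟨T1, t1⟩ := tail _ (hu (n + 1)).1 (hu _).2.summable (1 / 2048) (2 ^ K) (by norm_num) (by positivity)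
  obtain ⟨T2, t2⟩ := tail _ (hu (n + 1 + D)).1 (hu _).2.summable (1 / 2048) (2 ^ K) (by norm_num)
    (by positivity)
  obtain ⟨Q, hQ⟩ : ∃ Q, Q = 2 * (T1 + T2 + 1) * N (2 * K) := ⟨_, rfl⟩
  have Q1 : T1 + T2 + 1 ≤ Q := by nlinarith [Npos (2 * K)]
  have Q0 : (0 : ℝ) < Q := by exact_mod_cast (show 0 < Q by omega)
  have hQ' : ∀ j, ∀ l ∈ I, 0 < l ∧ ∃ M : ℕ, j * Q = 2 * M * N l := fun j l hl => by
    have := mem_Ico.1 hl
    obtain ⟨M, -, hM⟩ := Ndvd (show l < 2 * K by omega)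
    exact ⟨by omega, j * (T1 + T2 + 1) * 4 * M, by rw [hQ, hM]; ring⟩
  have h1 := hQ' 1
  simp only [one_mul] at h1
  have hc := core q Q (by omega) I (hI.trans hK) h1
    (fun s => (1 - s * (2 * v)) ^ (n + 1) - (1 - s * (2 * v)) ^ (n + 1 + D)) _ r1 r2 (by simp)
    (fun s hs => by
      have a : (s : ℝ) * (2 * v) ≤ K * (2 * v) := by gcongr; omega
      have b : 0 ≤ 1 - s * (2 * v) := by linarith
      have c : (1 : ℝ) ≤ K := by exact_mod_cast (show 1 ≤ K by omega)
      refine ⟨sub_nonneg.2 (pow_le_pow_of_le_one b (sub_le_self _ (by positivity)) (by omega)),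
        (sub_le_self _ (by positivity)).trans ?_⟩
      rw [← pow_mul, mul_comm (n + 1), pow_mul]
      refine pow_le_pow_left₀ b ?_ _
      have := one_add_mul_le_pow (a := -(2 * v)) (by nlinarith) s
      rwa [mul_neg, ← sub_eq_add_neg, ← sub_eq_add_neg] at this) (by
      have a := one_add_mul_le_pow (a := 2 * v) (by linarith) D
      have c : (1 : ℝ) ≤ K := by exact_mod_cast (show 1 ≤ K by omega)
      have b : 0 ≤ 1 - 2 * v := by nlinarith
      have d : (1 - 2 * v) ^ D * (1 + 2 * v) ^ D ≤ 1 := by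
        rw [← mul_pow]; exact pow_le_one₀ (by positivity) (by nlinarith)
      have e : (1 - 2 * v) ^ D ≤ 1 / 2 := by nlinarith [pow_nonneg b D]
      rw [Nat.cast_one, one_mul, pow_add _ (n + 1)]
      nlinarith [pow_nonneg b (n + 1)])
  let F : ℤ → ℝ := fun x => ∏ l ∈ I, (1 + c l x)
  have F0 : ∀ x, 0 ≤ F x := fun x => prod_nonneg fun l _ => by
    linarith [show -1 ≤ c l x from Real.neg_one_le_cos _]
  have F1 : ∀ x, |F x| ≤ 2 ^ K := fun x => by
    rw [abs_of_nonneg (F0 x), ← hI, ← prod_const]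
    exact prod_le_prod (fun l _ => by linarith [show -1 ≤ c l x from Real.neg_one_le_cos _])
      fun l _ => by linarith [show c l x ≤ 1 from Real.cos_le_one _]
  let f : ℤ → ℝ := fun x => if x ∈ (range (3 * Q)).image (fun y : ℕ => (y : ℤ)) then F x else 0
  have f1 : ∀ x, |f x| ≤ 2 ^ K := fun x => by
    simp only [f]; split_ifs
    exacts [F1 x, by simp]
  have hf : HasSum (fun x => |f x|) (3 * Q) := by
    have := hasSum_sum_of_ne_finset_zero (s := (range (3 * Q)).image fun y : ℕ => (y : ℤ))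
      (f := fun x => |f x|) (L := .unconditional _) fun x hx => by simp only [f, if_neg hx, abs_zero]
    rw [sum_congr rfl fun x hx => show |f x| = F x by simp only [f, if_pos hx, abs_of_nonneg (F0 x)],
      sum_image Nat.cast_injective.injOn] at this
    have e := rindep (3 * Q) 1 1 0 I (hQ' 3)
    simp only [Pi.one_apply, Pi.zero_apply, one_mul, zero_mul, add_zero, zero_div, prod_const_one,
      mul_one, Nat.cast_mul, Nat.cast_ofNat] at e
    rwa [e] at this
  have := hA f hf.summable (L * (1 / 512)) (by positivity)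
  rw [hf.tsum_eq] at this
  have h2 := (MeasureTheory.measure_mono (s := ↑(((range Q).filter fun x : ℕ => 1 / 256 <
    |∑ S ∈ I.powerset, ((1 - S.card * (2 * v)) ^ (n + 1) - (1 - S.card * (2 * v)) ^ (n + 1 + D)) *
      ∏ l ∈ S, c l x|).image fun x : ℕ => (x : ℤ) + Q)) ?_).trans this
  · rw [MeasureTheory.Measure.count_apply_finset, card_image_of_injective _ fun a b h => by simpa using h,
      ← ENNReal.ofReal_natCast, ENNReal.ofReal_le_ofReal_iff (by positivity)] at h2
    have := hc.trans h2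
    rw [div_le_div_iff₀ (by norm_num) (by positivity)] at this
    nlinarith
  intro k hk
  obtain ⟨x, hx, rfl⟩ := mem_image.1 hk
  obtain ⟨hx, h3⟩ := mem_filter.1 hx
  have hx := mem_range.1 hx
  have := tele (fun m => ∑' j, u m j * f (x + Q - j)) n D L (by rw [hD]; positivity) L0
    (by exact_mod_cast n1) (1 / 512) (by norm_num) ?_
  · refine this.trans_le (le_of_eq (tsum_congr fun m => ?_))
    simp only [sub_mul]
    rw [(bdd (hu _).2.summable _ fun j => f1 _).tsum_sub (bdd (hu _).2.summable _ fun j => f1 _)]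
  have per : ∀ S ∈ I.powerset, ∏ l ∈ S, c l (x + Q) = ∏ l ∈ S, c l x := fun S hS =>
    prod_congr rfl fun l hl => by
      obtain ⟨-, M, hM⟩ := h1 l (mem_powerset.1 hS hl)
      rw [hM]; push_cast; exact c_per _ _ _
  have fin : ∀ m T : ℕ, m ≤ n + 1 + D → T ≤ Q → (∀ g : ℤ → ℝ, (∀ j, |g j| ≤ 2 ^ K) →
      (∀ j : ℤ, |j| ≤ T → g j = 0) → |∑' j, u m j * g j| ≤ 1 / 2048) →
      |∑' j, u m j * f (x + Q - j) - ∑ S ∈ I.powerset, (1 - S.card * (2 * v)) ^ m * ∏ l ∈ S, c l x| ≤
        1 / 1024 := fun m T hm hT ht => by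
    have a1 := approx p p0 p1 (hp ℝ) u rfl us K (by omega) I v hw v0.le (by rwa [hI]) (x + Q) m
    have a2 := ht (fun j => F (x + Q - j) - f (x + Q - j)) (fun j => by
      simp only [f]; split_ifs
      exacts [by simp, by simpa using F1 _]) fun j hj => by
      have := abs_le.1 hj
      have : x + Q - j ∈ (range (3 * Q)).image (fun y : ℕ => (y : ℤ)) :=
        mem_image.2 ⟨(x + Q - j).toNat, mem_range.2 (by omega), by omega⟩
      simp only [f, if_pos this, sub_self]
    simp only [mul_sub] at a2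
    rw [(bdd (hu _).2.summable _ fun j => F1 _).tsum_sub (bdd (hu _).2.summable _ fun j => f1 _)] at a2
    rw [sum_congr rfl fun S hS => by rw [per S hS], hI] at a1
    have a3 : (2 : ℝ) ^ K * (m * (K * (1 / B K))) ≤ 1 / 2048 := by
      have : m ≤ 32 * K ^ 3 := by nlinarith
      have : (m : ℝ) ≤ 32 * K ^ 3 := by exact_mod_cast this
      unfold B
      push_cast
      field_simp
      linarith
    have a4 := abs_le.1 (a1.trans a3)
    have a5 := abs_le.1 a2
    exact abs_le.2 ⟨by linarith, by linarith⟩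
  have b1 := abs_le.1 (fin _ T1 (by omega) (by omega) t1)
  have b2 := abs_le.1 (fin _ T2 le_rfl (by omega) t2)
  simp only [sub_mul, sum_sub_distrib] at h3
  rcases lt_abs.1 h3 with h | h
  · exact lt_abs.2 (Or.inl (by linarith))
  · exact lt_abs.2 (Or.inr (by linarith))

end Pool.Agent.S04970
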