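import Pool.Statements.S04981
import Pool.Agent.H26.BasicSeq

set_option autoImplicit false
open Filter Topology
open Pool Pool.MP_6df72f_an

namespace Pool.Agent.S04981

open Pool.Agent.H26.BasicSeq in

/-- For real or complex scalars, every basic sequence of functionals on a closed subspace G of a Banach space E extends termwise to a sequence of functionals on E that is itself a basic sequence in the dual of E. -/
theorem result :
    ∀ (𝕂 : Type) [RCLike 𝕂] (E : Type) [NormedAddCommGroup E] [NormedSpace 𝕂 E]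
      [CompleteSpace E] (G : Submodule 𝕂 E), IsClosed (G : Set E) →
      ∀ φ : ℕ → (G →L[𝕂] 𝕂),
        ((∀ n, φ n ≠ 0) ∧
          ∀ y ∈ (Submodule.span 𝕂 (Set.range φ)).topologicalClosure,
            ∃! a : ℕ → 𝕂,
              Tendsto (fun N => ∑ i ∈ Finset.range N, a i • φ i) atTop (𝓝 y)) →
        ∃ f : ℕ → (E →L[𝕂] 𝕂),
          (∀ n, (f n).comp G.subtypeL = φ n) ∧
          (∀ n, f n ≠ 0) ∧
          ∀ y ∈ (Submodule.span 𝕂 (Set.range f)).topologicalClosure,
            ∃! a : ℕ → 𝕂,
              Tendsto (fun N => ∑ i ∈ Finset.range N, a i • f i) atTop (𝓝 y) := by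
  intro 𝕂 _ E _ _ _ G hG φ ⟨h0, h1⟩
  by_cases hq : FiniteDimensional 𝕂 (E ⧸ G)
  · obtain ⟨P, hP⟩ := Submodule.ClosedComplemented.of_finiteDimensional_quotient hG
    let R : (E →L[𝕂] 𝕂) →L[𝕂] (G →L[𝕂] 𝕂) :=
      (ContinuousLinearMap.compL 𝕂 G E 𝕂).flip G.subtypeL
    let S : (G →L[𝕂] 𝕂) →L[𝕂] (E →L[𝕂] 𝕂) := (ContinuousLinearMap.compL 𝕂 E G 𝕂).flip P
    have hRS : ∀ ψ, R (S ψ) = ψ := fun ψ => by ext x; simp [R, S, hP]
    refine ⟨fun n => S (φ n), fun n => hRS _, fun n h => h0 n (by rw [← hRS (φ n), show S (φ n) = 0 from h, map_zero]),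
      fun y hy => ?_⟩
    have h2 : R y ∈ (Submodule.span 𝕂 (Set.range φ)).topologicalClosure ∧ S (R y) = y := by
      have : (Submodule.span 𝕂 (Set.range fun n => S (φ n))).topologicalClosure ≤
          (Submodule.span 𝕂 (Set.range φ)).topologicalClosure.comap R.toLinearMap ⊓
            (S.comp R - ContinuousLinearMap.id 𝕂 _).ker := by
        refine Submodule.topologicalClosure_minimal _ (Submodule.span_le.2 ?_)
          (((Submodule.isClosed_topologicalClosure _).preimage R.continuous).inter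
            (ContinuousLinearMap.isClosed_ker _))
        rintro _ ⟨n, rfl⟩
        refine ⟨?_, by simp [hRS]⟩
        change R (S (φ n)) ∈ (Submodule.span 𝕂 (Set.range φ)).topologicalClosure
        rw [hRS]
        exact Submodule.le_topologicalClosure _ (Submodule.subset_span ⟨n, rfl⟩)
      exact ⟨(this hy).1, by simpa [sub_eq_zero] using (this hy).2⟩
    obtain ⟨a, ha, ha'⟩ := h1 _ h2.1
    refine ⟨a, ?_, fun b hb => ha' b ?_⟩
    · have := (S.continuous.tendsto _).comp ha
      simpa only [Function.comp_def, map_sum, map_smul, h2.2] using this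
    · have := (R.continuous.tendsto _).comp hb
      simpa only [Function.comp_def, map_sum, map_smul, hRS] using this
  · let R : (E →L[𝕂] 𝕂) →L[𝕂] (G →L[𝕂] 𝕂) :=
      (ContinuousLinearMap.compL 𝕂 G E 𝕂).flip G.subtypeL
    have hW : ¬ FiniteDimensional 𝕂 R.ker := by
      intro hf
      let T : (E ⧸ G →L[𝕂] 𝕂) →ₗ[𝕂] R.ker := LinearMap.codRestrict _
        ((ContinuousLinearMap.compL 𝕂 E (E ⧸ G) 𝕂).flip G.mkQL).toLinearMap fun ψ => by
          ext x
          simp [R, (Submodule.Quotient.mk_eq_zero G).2 x.2]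
      have hT : Function.Injective T := by
        refine (injective_iff_map_eq_zero T).2 fun ψ h => ?_
        ext x
        obtain ⟨z, rfl⟩ := Submodule.Quotient.mk_surjective G x
        exact congrArg (fun u : R.ker => (u : E →L[𝕂] 𝕂) z) h
      have : FiniteDimensional 𝕂 (E ⧸ G →L[𝕂] 𝕂) :=
        FiniteDimensional.of_injective (V := E ⧸ G →L[𝕂] 𝕂) (V₂ := R.ker) T hT
      exact hq (FiniteDimensional.of_injective (V := E ⧸ G)
        (V₂ := StrongDual 𝕂 (StrongDual 𝕂 (E ⧸ G)))
        (NormedSpace.inclusionInDoubleDualLi 𝕂 (E := E ⧸ G)).toLinearMap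
        (NormedSpace.inclusionInDoubleDualLi 𝕂 (E := E ⧸ G)).injective)
    choose g hg _ using fun n => exists_extension_norm_eq G (φ n)
    obtain ⟨f, hf, hK⟩ := exists_basic R.ker hW g
    have h2 : ∀ n, (f n).comp G.subtypeL = φ n := fun n => by
      ext x
      have := congrArg (fun u : G →L[𝕂] 𝕂 => u x) (hf n)
      simpa [R, hg, sub_eq_zero] using this
    have h3 : ∀ n, f n ≠ 0 := fun n h => h0 n (by rw [← h2 n, h]; simp)
    exact ⟨f, h2, h3, grunblum f h3 2 hK⟩

end Pool.Agent.S04981
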