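import Pool.Statements.S04985

set_option autoImplicit false
open Pool Pool.MP_6eb165_an

namespace Pool.Agent.S04985

/-- the hyperplane of sum zero in `ℓ∞³(ℂ)` -/
def E : Submodule ℂ (Fin 3 → ℂ) where
  carrier := {x | ∑ i, x i = 0}
  add_mem' := by
    intro x y hx hy
    simp only [Set.mem_setOf_eq, Pi.add_apply, Finset.sum_add_distrib] at *
    rw [hx, hy, add_zero]
  zero_mem' := by simp
  smul_mem' := by
    intro t x hx
    simp only [Set.mem_setOf_eq, Pi.smul_apply, smul_eq_mul, ← Finset.mul_sum] at *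
    rw [hx, mul_zero]

lemma co_le (x : E) (i : Fin 3) : ‖x.1 i‖ ≤ ‖x‖ := norm_le_pi_norm x.1 i

lemma nle (x : E) (r : ℝ) (h : ∀ i, ‖x.1 i‖ ≤ r) : ‖x‖ ≤ r :=
  (pi_norm_le_iff_of_nonneg ((norm_nonneg _).trans (h 0))).2 h

noncomputable def dir (k l : Fin 3) : E :=
  ⟨Pi.single k 1 - Pi.single l 1, by
    change ∑ i, _ = 0
    simp [Finset.sum_sub_distrib]⟩

lemma step (g : E → E) (hg : Differentiable ℂ g) (k l : Fin 3) (hkl : k ≠ l) (y : E)
    (hy : ‖y‖ ≤ 1) : ∃ x : E, ‖x‖ ≤ 1 ∧ (∀ m, m ≠ k → m ≠ l → x.1 m = y.1 m) ∧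
      (‖x.1 k‖ = 1 ∨ ‖x.1 l‖ = 1) ∧ ‖g y‖ ≤ ‖g x‖ := by
  set h : ℂ → ℝ := fun t => max ‖y.1 k + t‖ ‖y.1 l - t‖ with hh
  have hc : Continuous h := by fun_prop
  have two : ∀ a b : ℝ, max a b = 1 → a = 1 ∨ b = 1 := fun a b e => by
    rcases max_choice a b with e' | e' <;> [left; right] <;> rw [← e', e]
  by_cases h0 : h 0 < 1
  · have hb : Bornology.IsBounded {t | h t < 1} := by
      refine (Metric.isBounded_ball (x := -y.1 k) (r := 1)).subset fun t ht => ?_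
      rw [mem_ball_iff_norm, sub_neg_eq_add, add_comm]
      exact (le_max_left _ _).trans_lt (show h t < 1 from ht)
    obtain ⟨z, hz, hm⟩ := Complex.exists_mem_frontier_isMaxOn_norm
      (f := fun t : ℂ => g (y + t • dir k l)) hb ⟨0, h0⟩
      (Differentiable.diffContOnCl (by fun_prop))
    have e : h z = 1 := frontier_lt_subset_eq hc continuous_const hz
    have ek : (y + z • dir k l).1 k = y.1 k + z := by simp [dir, hkl]
    have el : (y + z • dir k l).1 l = y.1 l - z := by simp [dir, hkl.symm, sub_eq_add_neg]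
    have em : ∀ m, m ≠ k → m ≠ l → (y + z • dir k l).1 m = y.1 m := fun m a b => by
      simp [dir, a, b]
    refine ⟨y + z • dir k l, nle _ _ fun i => ?_, em, by rw [ek, el]; exact two _ _ e, ?_⟩
    · by_cases a : i = k
      · rw [a, ek, ← e]; exact le_max_left _ _
      by_cases b : i = l
      · rw [b, el, ← e]; exact le_max_right _ _
      rw [em i a b]; exact (co_le y i).trans hy
    · simpa using hm (subset_closure h0)
  · refine ⟨y, hy, fun _ _ _ => rfl, two _ _ (le_antisymm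
      (max_le ((co_le y k).trans hy) ((co_le y l).trans hy)) ?_), le_rfl⟩
    simpa [hh] using not_lt.1 h0

lemma two_active (g : E → E) (hg : Differentiable ℂ g) (y : E) (hy : ‖y‖ ≤ 1) :
    ∃ x : E, ‖x‖ = 1 ∧ ∃ j k, j ≠ k ∧ ‖x.1 j‖ = 1 ∧ ‖x.1 k‖ = 1 ∧ ‖g y‖ ≤ ‖g x‖ := by
  obtain ⟨x, hx, -, ha, h1⟩ := step g hg 1 2 (by decide) y hy
  obtain ⟨j, k, l, hj, a, b, c⟩ : ∃ j k l : Fin 3, ‖x.1 j‖ = 1 ∧ k ≠ l ∧ j ≠ k ∧ j ≠ l := by
    rcases ha with ha | ha
    · exact ⟨1, 0, 2, ha, by decide, by decide, by decide⟩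
    · exact ⟨2, 0, 1, ha, by decide, by decide, by decide⟩
  obtain ⟨z, hz, hm, hb, h2⟩ := step g hg k l a x hx
  rw [← hm j b c] at hj
  refine ⟨z, le_antisymm hz (hj ▸ co_le z j), ?_⟩
  rcases hb with hb | hb
  · exact ⟨j, k, b, hj, hb, h1.trans h2⟩
  · exact ⟨j, l, c, hj, hb, h1.trans h2⟩

lemma norming (x : E) (hx : ‖x‖ = 1) (j : Fin 3) (hj : ‖x.1 j‖ = 1) :
    ∃ f : E →L[ℂ] ℂ, ‖f‖ = 1 ∧ f x = 1 ∧ ∀ y, ‖f y‖ = ‖y.1 j‖ := by
  set f : E →L[ℂ] ℂ :=
    (starRingEnd ℂ (x.1 j)) • (ContinuousLinearMap.proj j).comp E.subtypeL with hf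
  have h1 : ∀ y, ‖f y‖ = ‖y.1 j‖ := fun y => by simp [hf, hj]
  refine ⟨f, le_antisymm (f.opNorm_le_bound zero_le_one fun y => ?_) ?_, ?_, h1⟩
  · rw [h1, one_mul]; exact co_le y j
  · simpa [h1, hj, hx] using f.le_opNorm x
  · simp [hf, Complex.conj_mul', hj]

abbrev M (k : ℕ) := ContinuousMultilinearMap ℂ (fun _ : Fin k => E) E

noncomputable def rad {k : ℕ} (A : M k) : ℝ :=
  ⨆ p : {p : E × (E →L[ℂ] ℂ) // ‖p.1‖ = 1 ∧ ‖p.2‖ = 1 ∧ p.2 p.1 = 1}, ‖p.1.2 (A fun _ => p.1.1)‖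

lemma le_rad {k : ℕ} (A : M k) (x : E) (f : E →L[ℂ] ℂ) (a : ‖x‖ = 1) (b : ‖f‖ = 1)
    (c : f x = 1) : ‖f (A fun _ => x)‖ ≤ rad A := by
  refine le_ciSup (f := fun p : {p : E × (E →L[ℂ] ℂ) // ‖p.1‖ = 1 ∧ ‖p.2‖ = 1 ∧ p.2 p.1 = 1} =>
    ‖p.1.2 (A fun _ => p.1.1)‖) ⟨‖A‖, ?_⟩ ⟨(x, f), a, b, c⟩
  rintro _ ⟨⟨⟨y, g⟩, hy, hg, -⟩, rfl⟩
  have h1 := g.le_opNorm (A fun _ => y)
  have h2 := A.le_opNorm fun _ => y
  simp only at hy hg
  simp only [hy, hg, Finset.prod_const_one, one_mul, mul_one] at h1 h2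
  exact h1.trans h2

lemma rad_nonneg {k : ℕ} (A : M k) : 0 ≤ rad A := Real.iSup_nonneg fun _ => norm_nonneg _

lemma diff {k : ℕ} (A : M k) : Differentiable ℂ fun x : E => A fun _ => x :=
  ((A.contDiff (n := 1)).differentiable one_ne_zero).comp
    (differentiable_pi.2 fun _ => differentiable_id)

def S (k : ℕ) : Set ℝ :=
  {c | 0 ≤ c ∧ ∀ (A : M k) (y : E), ‖y‖ ≤ 1 → c * ‖A fun _ => y‖ ≤ rad A}

lemma half (k : ℕ) : (1 / 2 : ℝ) ∈ S k := by
  refine ⟨by norm_num, fun A y hy => ?_⟩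
  obtain ⟨x, hx, j, l, hjl, hj, hl, h⟩ := two_active _ (diff A) y hy
  obtain ⟨f, f1, f2, f3⟩ := norming x hx j hj
  obtain ⟨g, g1, g2, g3⟩ := norming x hx l hl
  have a := le_rad A x f hx f1 f2
  have b := le_rad A x g hx g1 g2
  rw [f3] at a
  rw [g3] at b
  have r := rad_nonneg A
  have : ‖A fun _ => x‖ ≤ 2 * rad A := nle _ _ fun i => by
    by_cases c : i = j
    · rw [c]; linarith
    by_cases d : i = l
    · rw [d]; linarith
    have u : (Finset.univ : Finset (Fin 3)) = {i, j, l} := by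
      clear * - c d hjl
      revert i j l; decide
    have s : ∑ m, (A fun _ => x).1 m = 0 := (A fun _ => x).2
    rw [u, Finset.sum_insert (by simp [c, d]), Finset.sum_pair hjl] at s
    rw [eq_neg_of_add_eq_zero_left s, norm_neg]
    linarith [norm_add_le ((A fun _ => x).1 j) ((A fun _ => x).1 l)]
  linarith

lemma anti (k : ℕ) : S (k + 1) ⊆ S k := by
  rintro c ⟨c0, hc⟩
  refine ⟨c0, fun A y hy => ?_⟩
  obtain ⟨x, hx, j, -, -, hj, -, h⟩ := two_active _ (diff A) y hy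
  obtain ⟨f, f1, f2, -⟩ := norming x hx j hj
  set B : M (k + 1) := ContinuousLinearMap.uncurryLeft (Ei := fun _ : Fin (k + 1) => E)
    (f.smulRight A) with hB
  have e : ∀ z : E, (B fun _ => z) = f z • A fun _ => z := fun z => rfl
  have h1 := hc B x hx.le
  rw [e, f2, one_smul] at h1
  refine ((mul_le_mul_of_nonneg_left h c0).trans h1).trans (Real.iSup_le ?_ (rad_nonneg A))
  rintro ⟨⟨z, g⟩, a, b, d⟩
  simp only at a b d ⊢
  rw [e, map_smul, norm_smul]
  have := f.le_opNorm z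
  rw [f1, a, one_mul] at this
  exact (mul_le_of_le_one_left (norm_nonneg _) this).trans (le_rad A z g a b d)

noncomputable def T : E →L[ℂ] E := LinearMap.toContinuousLinearMap
  { toFun := fun x => ⟨fun i => x.1 (i + 1) - x.1 (i + 2), by
      change ∑ i, _ = 0
      simp [Fin.sum_univ_three]; ring⟩
    map_add' := fun x y => by ext i; simp; ring
    map_smul' := fun t x => by ext i; simp; ring }

lemma T_app (x : E) (i : Fin 3) : (T x).1 i = x.1 (i + 1) - x.1 (i + 2) := rfl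

lemma upper : ∀ c ∈ S 1, c ≤ 7 / 8 := by
  rintro c ⟨c0, hc⟩
  have h1 := hc (ContinuousMultilinearMap.ofSubsingleton ℂ E E (0 : Fin 1) T) (dir 1 2)
    (nle _ _ fun i => by fin_cases i <;> simp [dir])
  have h2 : 2 ≤ ‖T (dir 1 2)‖ := by
    refine le_trans ?_ (co_le _ 0)
    rw [T_app]; simp [dir]; norm_num
  have h3 : rad (ContinuousMultilinearMap.ofSubsingleton ℂ E E (0 : Fin 1) T) ≤ 7 / 4 := by
    refine Real.iSup_le ?_ (by norm_num)
    rintro ⟨⟨x, f⟩, a, b, d⟩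
    simp only at a b d
    change ‖f (T x)‖ ≤ 7 / 4
    obtain ⟨w, w1, hw⟩ := Complex.exists_norm_eq_mul_self (f (T x))
    have h4 := f.le_opNorm (x + w • T x)
    rw [b, one_mul, map_add, map_smul, d, smul_eq_mul, ← hw] at h4
    have h5 : ‖x + w • T x‖ ≤ 11 / 4 := nle _ _ fun i => by
      have s : x.1 (i + 1) + x.1 (i + 2) = -x.1 i := by
        have s : ∑ m, x.1 m = 0 := x.2
        rw [Fin.sum_univ_three] at s
        fin_cases i <;> simp <;> linear_combination s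
      have p := parallelogram_law_with_norm ℝ (x.1 (i + 1)) (x.1 (i + 2))
      rw [s, norm_neg] at p
      have q0 := a ▸ co_le x i
      have q1 := a ▸ co_le x (i + 1)
      have q2 := a ▸ co_le x (i + 2)
      have : ‖(x + w • T x).1 i‖ ≤ ‖x.1 i‖ + ‖x.1 (i + 1) - x.1 (i + 2)‖ := by
        change ‖x.1 i + w * (T x).1 i‖ ≤ _
        refine (norm_add_le _ _).trans ?_
        rw [norm_mul, w1, one_mul, T_app]
      have n0 := norm_nonneg (x.1 i)
      have n1 := norm_nonneg (x.1 (i + 1))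
      have n2 := norm_nonneg (x.1 (i + 2))
      have : ‖x.1 (i + 1) - x.1 (i + 2)‖ ≤ 11 / 4 - ‖x.1 i‖ :=
        (abs_le_of_sq_le_sq' (by nlinarith) (by linarith)).2
      linarith
    have h6 : ‖(1 : ℂ) + (‖f (T x)‖ : ℝ)‖ = 1 + ‖f (T x)‖ := by
      rw [← Complex.ofReal_one, ← Complex.ofReal_add, Complex.norm_real, Real.norm_eq_abs,
        abs_of_nonneg (by positivity)]
    linarith
  change c * ‖T (dir 1 2)‖ ≤ _ at h1
  nlinarith

/-- There is a real or complex Banach space X whose polynomial numerical indices n^(k)(X) (best constant c with c‖P‖ ≤ numerical radius of P, over k-homogeneous polynomials P on X) converge to a limit different from 0 and 1. -/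
theorem result :
    ∃ (𝕂 : Type) (_ : RCLike 𝕂) (X : Type) (_ : NormedAddCommGroup X)
      (_ : NormedSpace 𝕂 X) (_ : CompleteSpace X) (L : ℝ),
      Filter.Tendsto
        (fun k : ℕ => sSup {c : ℝ | 0 ≤ c ∧
          ∀ (A : ContinuousMultilinearMap 𝕂 (fun _ : Fin k => X) X) (y : X), ‖y‖ ≤ 1 →
            c * ‖A (fun _ => y)‖ ≤
              ⨆ p : {p : X × (X →L[𝕂] 𝕂) // ‖p.1‖ = 1 ∧ ‖p.2‖ = 1 ∧ p.2 p.1 = 1},
                ‖p.1.2 (A (fun _ => p.1.1))‖})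
        Filter.atTop (nhds L) ∧ L ≠ 0 ∧ L ≠ 1 := by
  have sub : ∀ k, S (k + 1) ⊆ S 1 := fun k => by
    induction k with
    | zero => exact subset_rfl
    | succ k ih => exact (anti _).trans ih
  have bd : ∀ k, BddAbove (S (k + 1)) := fun k => ⟨7 / 8, fun c hc => upper c (sub k hc)⟩
  have lo : ∀ k, 1 / 2 ≤ sSup (S (k + 1)) := fun k => le_csSup (bd k) (half _)
  have bb : BddBelow (Set.range fun k => sSup (S (k + 1))) := ⟨1 / 2, by
    rintro _ ⟨k, rfl⟩; exact lo k⟩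
  have an : Antitone fun k => sSup (S (k + 1)) :=
    antitone_nat_of_succ_le fun k => csSup_le_csSup (bd k) ⟨_, half _⟩ (anti _)
  have l1 : 1 / 2 ≤ ⨅ k, sSup (S (k + 1)) := le_ciInf lo
  have l2 : ⨅ k, sSup (S (k + 1)) ≤ 7 / 8 :=
    (ciInf_le bb 0).trans (csSup_le ⟨_, half _⟩ upper)
  refine ⟨ℂ, inferInstance, E, inferInstance, inferInstance, FiniteDimensional.complete ℂ E,
    ⨅ k, sSup (S (k + 1)), ?_, by linarith, by linarith⟩
  exact (Filter.tendsto_add_atTop_iff_nat (f := fun k => sSup (S k)) 1).1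
    (tendsto_atTop_ciInf an bb)

end Pool.Agent.S04985
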