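import Pool.Statements.S04999
import Pool.Agent.H27.Arg5

set_option autoImplicit false
open Pool Pool.MP_6fa8f6_an

namespace Pool.Agent.S04999

/-- There is a real Banach space with a convex, weakly compact, non-metrizable subset K, and a compact Hausdorff totally disconnected space L, such that C(K) and C(L) are isomorphic as Banach spaces. -/
theorem result :
    ∃ (E : Type) (_ : NormedAddCommGroup E) (_ : NormedSpace ℝ E) (_ : CompleteSpace E)
      (K : Set (WeakSpace ℝ E)),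
      Convex ℝ K ∧ IsCompact K ∧ ¬ TopologicalSpace.MetrizableSpace (↥K) ∧
      ∃ (L : Type) (_ : TopologicalSpace L) (_ : CompactSpace L) (_ : T2Space L),
        TotallyDisconnectedSpace L ∧ Nonempty (C(↥K, ℝ) ≃L[ℝ] C(L, ℝ)) := by
  classical
  obtain ⟨D, hDc, ⟨x0, hx0⟩, hDU, hf⟩ := Pool.Agent.H27.Arg.exists_fix
  haveI : CompactSpace D := isCompact_iff_compactSpace.1 hDc.isCompact
  obtain ⟨K, hK, ⟨e⟩⟩ := Pool.Agent.H27.Arg.embed
    (fun l => Pool.Agent.H27.Arg.W l • Pool.Agent.H27.Arg.mono D l)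
    (fun l => smul_nonneg (Pool.Agent.H27.Arg.W_pos l).le (Pool.Agent.H27.Arg.mono_nonneg D l))
    (Pool.Agent.H27.Arg.bdM hDU) (Pool.Agent.H27.Arg.sepW hDU)
  haveI : CompactSpace K := e.compactSpace
  obtain ⟨f⟩ := Pool.Agent.H27.Arg.iso_main hDU hf ⟨x0, hx0⟩
  obtain ⟨g⟩ := Pool.Agent.H27.Arg.iso_homeo e
  refine ⟨lp (fun _ : List Pool.Agent.H27.Arg.I => ℝ) 2, inferInstance, inferInstance, inferInstance,
    K, hK, isCompact_iff_compactSpace.2 inferInstance, fun h => ?_, Pool.Agent.H27.Arg.L D,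
    inferInstance, inferInstance, inferInstance, inferInstance, ⟨g.trans f⟩⟩
  exact Pool.Agent.H27.Arg.not_metr ⟨x0, hx0⟩ e.isEmbedding.metrizableSpace

end Pool.Agent.S04999
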