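import Pool.Statements.S05004
import Pool.Agent.H29.Tail4

set_option autoImplicit false
open Pool Pool.MP_700ccb_an

namespace Pool.Agent.S05004

/-- The negation of the preceding statement: For every real Banach space X, every continuous linear A from X to its dual with A x x ≥ 0, and every maximally monotone set-valued B from X to the dual, the operator x ↦ A x + B x is maximally monotone. -/
theorem result :
    ¬ (∀ (X : Type) [NormedAddCommGroup X] [NormedSpace ℝ X] [CompleteSpace X]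
      (A : X →L[ℝ] (X →L[ℝ] ℝ)) (B : X → Set (X →L[ℝ] ℝ)),
      (∀ x : X, 0 ≤ A x x) →
      (∀ (x y : X) (u v : X →L[ℝ] ℝ), u ∈ B x → v ∈ B y → 0 ≤ (u - v) (x - y)) →
      (∀ (x : X) (u : X →L[ℝ] ℝ),
          (∀ (y : X) (v : X →L[ℝ] ℝ), v ∈ B y → 0 ≤ (u - v) (x - y)) → u ∈ B x) →
      ((∀ (x y : X) (u v : X →L[ℝ] ℝ), u ∈ B x → v ∈ B y →
          0 ≤ ((A x + u) - (A y + v)) (x - y)) ∧
        (∀ (x : X) (w : X →L[ℝ] ℝ),
          (∀ (y : X) (v : X →L[ℝ] ℝ), v ∈ B y → 0 ≤ (w - (A y + v)) (x - y)) →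
            ∃ u ∈ B x, w = A x + u))) := by
  intro H
  obtain ⟨A, mo, mx, gp, -, -, -, x, g, h⟩ := H29.Tail.gap
  obtain ⟨u, hu, -⟩ := (H _ H29.Tail.ell A (fun p => mul_self_nonneg p.2) mo mx).2 _ g h
  have := gp _ _ hu
  norm_num at this

end Pool.Agent.S05004
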