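import Pool.Statements.S05050
import Pool.Agent.H32.ACB

set_option autoImplicit false
open Pool Pool.MP_7364f6_an

namespace Pool.Agent.S05050

/-- The negation of the preceding statement: For every continuous linear operator T on a real or complex Fréchet space X, the set of vectors whose orbit returns to each of their neighbourhoods along a set of positive lower density is either all of X or a meager set. -/
theorem result :
    ¬ (∀ (𝕜 : Type) [RCLike 𝕜] (X : Type) [AddCommGroup X] [Module 𝕜 X] [Module ℝ X]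
      [IsScalarTower ℝ 𝕜 X] [UniformSpace X] [IsUniformAddGroup X] [CompleteSpace X]
      [TopologicalSpace.MetrizableSpace X] [ContinuousSMul 𝕜 X] [LocallyConvexSpace ℝ X]
      (T : X →L[𝕜] X),
      {x : X | ∀ U ∈ nhds x, ∃ δ : ℝ, 0 < δ ∧ ∃ N : ℕ, ∀ n : ℕ, N ≤ n →
          δ * (n : ℝ) ≤ ((Set.ncard {k : ℕ | k < n ∧ (T ^ k) x ∈ U} : ℕ) : ℝ)} = Set.univ ∨
      IsMeagre {x : X | ∀ U ∈ nhds x, ∃ δ : ℝ, 0 < δ ∧ ∃ N : ℕ, ∀ n : ℕ, N ≤ n →
          δ * (n : ℝ) ≤ ((Set.ncard {k : ℕ | k < n ∧ (T ^ k) x ∈ U} : ℕ) : ℝ)}) := by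
  intro h
  obtain ⟨T, h0, h1, h2⟩ := H32.ACB.main
  have hr := H32.ACB.residual_frec T h1 h2
  rcases h ℝ H32.ACB.X T with h | h
  · have hne : H32.ACB.e none ≠ 0 := fun e => by simpa [e] using H32.ACB.norm_e none
    obtain ⟨δ, hδ, N, hN⟩ := Set.eq_univ_iff_forall.1 h (H32.ACB.e none) {0}ᶜ
      (isOpen_compl_singleton.mem_nhds hne)
    obtain ⟨n, hn⟩ := exists_nat_gt (1 / δ)
    have k1 := hN (N + n) (by omega)
    have k2 := Set.ncard_le_ncard (t := {0}) (s := {k : ℕ | k < N + n ∧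
      (T ^ k) (H32.ACB.e none) ∈ ({0}ᶜ : Set H32.ACB.X)}) (fun k hk => by
        cases k with
        | zero => rfl
        | succ k => exact absurd (by simp [pow_succ, h0]) hk.2) (Set.finite_singleton _)
    rw [Set.ncard_singleton] at k2
    have k3 := k1.trans (Nat.cast_le.2 k2)
    rw [div_lt_iff₀ hδ] at hn
    push_cast at k3
    have : (0 : ℝ) ≤ N := by positivity
    nlinarith
  · obtain ⟨x, hx⟩ := (dense_of_mem_residual (Filter.inter_mem hr h)).nonempty
    exact hx.2 hx.1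

end Pool.Agent.S05050
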