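import Pool.Statements.S05072


set_option autoImplicit false
open Pool Pool.MP_75b936_an

namespace Pool.Agent.S05072

open Set Filter Topology

noncomputable def φ (x : ℝ) : ℝ := max 0 (min 1 (4 - 4 * |x - 3 / 4|))

lemma φ_cont : Continuous φ := by unfold φ; fun_prop

lemma φ_one (x : ℝ) (h1 : 0 ≤ x) (h2 : x ≤ 3 / 2) : φ x = 1 := by
  have : |x - 3 / 4| ≤ 3 / 4 := by rw [abs_le]; constructor <;> linarith
  unfold φ
  rw [min_eq_left (by linarith), max_eq_right zero_le_one]

lemma φ_zero (x : ℝ) (h : x ≤ -1 / 4 ∨ 7 / 4 ≤ x) : φ x = 0 := by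
  have : 1 ≤ |x - 3 / 4| := by
    rcases h with h | h
    · exact le_abs'.mpr (Or.inl (by linarith))
    · exact le_abs'.mpr (Or.inr (by linarith))
  unfold φ
  exact max_eq_left (min_le_of_right_le (by linarith))

noncomputable def patch (g : ℤ → ℝ → ℝ) (x : ℝ) : ℝ := ∑ᶠ i : ℤ, φ (x - 2 * i) * g i x

lemma patch_cont (g : ℤ → ℝ → ℝ) (hg : ∀ i, Continuous (g i)) : Continuous (patch g) := by
  refine continuous_finsum (fun i => (φ_cont.comp (by fun_prop)).mul (hg i)) fun x => ?_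
  refine ⟨Ioo (x - 1) (x + 1), Ioo_mem_nhds (by linarith) (by linarith),
    (finite_Icc (⌊x / 2⌋ - 3) (⌊x / 2⌋ + 3)).subset ?_⟩
  rintro i ⟨y, hy, h1, h2⟩
  have h3 : ¬ (y - 2 * i ≤ -1 / 4 ∨ 7 / 4 ≤ y - 2 * i) := fun h => hy (by simp [φ_zero _ h])
  push Not at h3
  have a1 := Int.floor_le (x / 2)
  have a2 := Int.lt_floor_add_one (x / 2)
  have b1 : ((⌊x / 2⌋ - 3 : ℤ) : ℝ) ≤ i := by push_cast; linarith [h3.2]
  have b2 : (i : ℝ) ≤ ((⌊x / 2⌋ + 3 : ℤ) : ℝ) := by push_cast; linarith [h3.1]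
  exact ⟨by exact_mod_cast b1, by exact_mod_cast b2⟩

lemma patch_eval (g : ℤ → ℝ → ℝ) (i : ℤ) (x : ℝ) (h1 : 2 * i ≤ x) (h2 : x ≤ 2 * i + 3 / 2) :
    patch g x = g i x := by
  unfold patch
  rw [finsum_eq_single _ i, φ_one _ (by linarith) (by linarith), one_mul]
  intro j hj
  rw [φ_zero, zero_mul]
  rcases lt_or_gt_of_ne hj with h | h
  · have : (j : ℝ) + 1 ≤ i := by exact_mod_cast h
    right; linarith
  · have : (i : ℝ) + 1 ≤ j := by exact_mod_cast h
    left; linarith

noncomputable def χ : ℝ → ℝ := patch fun i x => max 0 (5 / 8 - |x - 2 * i - 3 / 4|)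

lemma χ_nonneg (x : ℝ) : 0 ≤ χ x :=
  finsum_nonneg fun _ => mul_nonneg (le_max_left _ _) (le_max_left _ _)

lemma χ_supp (x : ℝ) (h : χ x ≠ 0) : ∃ i : ℤ, 2 * i ≤ x ∧ x ≤ 2 * i + 3 / 2 := by
  by_contra hcon
  refine h (finsum_eq_zero_of_forall_eq_zero fun i => ?_)
  have h1 : 3 / 4 ≤ |x - 2 * i - 3 / 4| := by
    by_contra h2
    rw [not_le, abs_lt] at h2
    exact hcon ⟨i, by linarith [h2.1], by linarith [h2.2]⟩
  simp only
  rw [max_eq_left (by linarith), mul_zero]

lemma χ_pos (x : ℝ) : 0 < χ x + χ (x - 1) := by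
  have key : ∀ (y : ℝ) (i : ℤ), 2 * i + 1 / 4 ≤ y → y ≤ 2 * i + 5 / 4 → 0 < χ y := by
    intro y i h1 h2
    unfold χ
    rw [patch_eval _ i y (by linarith) (by linarith)]
    have : |y - 2 * i - 3 / 4| ≤ 1 / 2 := by rw [abs_le]; constructor <;> linarith
    exact lt_max_of_lt_right (by linarith)
  have a1 := Int.floor_le ((x - 1 / 4) / 2)
  have a2 := Int.lt_floor_add_one ((x - 1 / 4) / 2)
  by_cases h : x ≤ 2 * (⌊(x - 1 / 4) / 2⌋ : ℝ) + 5 / 4
  · linarith [key x _ (by linarith) h, χ_nonneg (x - 1)]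
  · linarith [key (x - 1) ⌊(x - 1 / 4) / 2⌋ (by linarith) (by linarith), χ_nonneg x]

open Classical in
noncomputable def Hh (p Q : ℝ → ℝ) (q : ℝ) (b : Bool) (x : ℝ) : ℝ :=
  if ∀ t ∈ uIcc q x, Q t ≠ 0 then
    |Q x| * ((if b = true then ∫ t in q..x, p t / Q t else 1) / (1 + |∫ t in q..x, p t / Q t|))
  else 0

lemma deriv_int (p Q : ℝ → ℝ) (hp : Continuous p) (hQ : Continuous Q) (q x : ℝ)
    (h : ∀ t ∈ uIcc q x, Q t ≠ 0) :
    HasDerivAt (fun u => ∫ t in q..u, p t / Q t) (p x / Q x) x :=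
  intervalIntegral.integral_hasDerivAt_right
    (hp.continuousOn.div hQ.continuousOn h).intervalIntegrable
    (hp.measurable.div hQ.measurable).stronglyMeasurable.stronglyMeasurableAtFilter
    (hp.continuousAt.div hQ.continuousAt (h x right_mem_uIcc))

lemma Hh_cont (p Q : ℝ → ℝ) (hp : Continuous p) (hQ : Continuous Q) (q : ℝ) (b : Bool) :
    Continuous (Hh p Q q b) := by
  rw [continuous_iff_continuousAt]
  intro x
  by_cases h0 : Q x = 0
  · have e : Hh p Q q b x = 0 := if_neg fun h => h x right_mem_uIcc h0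
    rw [ContinuousAt, e]
    have h1 : Tendsto (fun y => |Q y|) (𝓝 x) (𝓝 0) := by
      simpa [h0] using (hQ.abs.tendsto x)
    refine squeeze_zero_norm (fun y => ?_) h1
    unfold Hh
    split_ifs
    · rw [Real.norm_eq_abs, abs_mul, abs_abs, abs_div, abs_of_pos (a := 1 + _) (by positivity)]
      exact mul_le_of_le_one_right (abs_nonneg _) (div_le_one_of_le₀ (by linarith) (by positivity))
    · rw [Real.norm_eq_abs, abs_mul, abs_abs, abs_div, abs_of_pos (a := 1 + _) (by positivity),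
        abs_one]
      exact mul_le_of_le_one_right (abs_nonneg _)
        (div_le_one_of_le₀ (le_add_of_nonneg_right (abs_nonneg _)) (by positivity))
    · simp
  · obtain ⟨δ, hδ, hb⟩ := Metric.eventually_nhds_iff.mp (hQ.continuousAt.eventually_ne h0)
    have near : ∀ y, dist y x < δ → ∀ t ∈ uIcc x y, Q t ≠ 0 := fun y hy t ht =>
      hb (lt_of_le_of_lt (by
        rw [dist_comm t x, dist_comm y x]; exact Real.dist_left_le_of_mem_uIcc ht) hy)
    by_cases hW : ∀ t ∈ uIcc q x, Q t ≠ 0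
    · have hI := (deriv_int p Q hp hQ q x hW).continuousAt
      have h1 : ContinuousAt (fun y => |Q y| * ((if b = true then ∫ t in q..y, p t / Q t else 1) /
          (1 + |∫ t in q..y, p t / Q t|))) x := by
        refine hQ.abs.continuousAt.mul (ContinuousAt.div ?_ (continuousAt_const.add hI.abs)
          (by positivity))
        split_ifs
        · exact hI
        · exact continuousAt_const
      refine h1.congr (Metric.eventually_nhds_iff.mpr ⟨δ, hδ, fun y hy => ?_⟩)
      refine (if_pos fun t ht => ?_).symm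
      rcases uIcc_subset_uIcc_union_uIcc (b := x) ht with h2 | h2
      · exact hW t h2
      · exact near y hy t h2
    · refine (continuousAt_const (y := (0 : ℝ))).congr
        (Metric.eventually_nhds_iff.mpr ⟨δ, hδ, fun y hy => ?_⟩)
      refine (if_neg fun h => hW fun t ht => ?_).symm
      rcases uIcc_subset_uIcc_union_uIcc (b := y) ht with h2 | h2
      · exact h t h2
      · exact near y hy t (uIcc_comm y x ▸ h2)

lemma Hh_congr (p Q p' Q' : ℝ → ℝ) (q : ℝ) (b : Bool) (x : ℝ)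
    (hp : ∀ t ∈ uIcc q x, p t = p' t) (hQ : ∀ t ∈ uIcc q x, Q t = Q' t) :
    Hh p Q q b x = Hh p' Q' q b x := by
  have e : ∫ t in q..x, p t / Q t = ∫ t in q..x, p' t / Q' t :=
    intervalIntegral.integral_congr fun t ht => by simp only [hp t ht, hQ t ht]
  have e2 : (∀ t ∈ uIcc q x, Q t ≠ 0) ↔ ∀ t ∈ uIcc q x, Q' t ≠ 0 :=
    forall₂_congr fun t ht => by rw [hQ t ht]
  unfold Hh
  rw [e, hQ x right_mem_uIcc]
  by_cases h : ∀ t ∈ uIcc q x, Q t ≠ 0
  · rw [if_pos h, if_pos (e2.mp h)]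
  · rw [if_neg h, if_neg (mt e2.mpr h)]

def ι (k : ℕ) (j : ℤ) : ℕ := Nat.pair k (Nat.pair (j.toNat + 2) (-j).toNat)

def jj (i : ℕ) : ℤ := (Nat.unpair (Nat.unpair i).2).1 - 2 - (Nat.unpair (Nat.unpair i).2).2

lemma jj_ι (k : ℕ) (j : ℤ) : jj (ι k j) = j := by
  simp only [jj, ι, Nat.unpair_pair]; omega

noncomputable def B : ℝ → ℝ := patch fun j x => x - 2 * j + 2 * ι 0 j

noncomputable def T : ℝ → ℝ :=
  patch fun i x => x - 2 * i + 2 * Nat.pair ((Nat.unpair i.toNat).1 + 1) (Nat.unpair i.toNat).2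

lemma TB (k : ℕ) (j : ℤ) (x : ℝ) (h1 : 2 * j ≤ x) (h2 : x ≤ 2 * j + 3 / 2) :
    T^[k] (B x) = x - 2 * j + 2 * ι k j := by
  induction k with
  | zero => exact patch_eval (fun j x => x - 2 * j + 2 * ι 0 j) j x h1 h2
  | succ k ih =>
    rw [Function.iterate_succ_apply', ih]
    unfold T
    rw [patch_eval _ (ι k j) _ (by push_cast; linarith) (by push_cast; linarith)]
    simp only [Int.toNat_natCast, ι, Nat.unpair_pair]
    push_cast; ring

noncomputable def gens (G : ℝ → ℝ) : Fin 6 → ℝ → ℝ := ![fun _ => 1, fun x => x - 1, χ, B, T, G]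

lemma gens_cont (G : ℝ → ℝ) (hG : Continuous G) (i : Fin 6) : Continuous (gens G i) := by
  fin_cases i
  · exact continuous_const
  · exact continuous_id.sub continuous_const
  · exact patch_cont _ fun i => by fun_prop
  · exact patch_cont _ fun i => by fun_prop
  · exact patch_cont _ fun i => by fun_prop
  · exact hG

noncomputable def ev (G : ℝ → ℝ) (P : MvPolynomial (Fin 6) ℤ) (x : ℝ) : ℝ :=
  MvPolynomial.aeval (fun i => gens G i x) P

lemma ev_cont (G : ℝ → ℝ) (hG : Continuous G) (P : MvPolynomial (Fin 6) ℤ) :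
    Continuous (ev G P) := by
  unfold ev
  induction P using MvPolynomial.induction_on with
  | C a => simpa using continuous_const
  | add p q hp hq => simp only [map_add]; exact hp.add hq
  | mul_X p i hp => simp only [map_mul, MvPolynomial.aeval_X]; exact hp.mul (gens_cont G hG i)

lemma ev_congr (G G' : ℝ → ℝ) (P : MvPolynomial (Fin 6) ℤ) (x : ℝ) (h : G x = G' x) :
    ev G P x = ev G' P x := by
  have : (fun i => gens G i x) = fun i => gens G' i x := by
    funext i
    fin_cases i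
    all_goals first | rfl | exact h
  unfold ev
  rw [this]

abbrev Data := MvPolynomial (Fin 6) ℤ × MvPolynomial (Fin 6) ℤ × ℚ × Bool × Bool

lemma ex_dec : ∃ d : ℕ → Data, Function.Surjective d := by
  have : Countable (MvPolynomial (Fin 6) ℤ) := by
    rw [← Cardinal.mk_le_aleph0_iff, MvPolynomial.cardinalMk_eq_max]
    exact sup_le (sup_le Cardinal.mk_le_aleph0 Cardinal.mk_le_aleph0) le_rfl
  exact exists_surjective_nat Data

noncomputable def dec (i : ℕ) : Data := ex_dec.choose (Nat.unpair (Nat.unpair i).1).1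

noncomputable def Enc (G : ℝ → ℝ) (i : ℕ) (x : ℝ) : ℝ :=
  Hh (ev G (dec i).1) (ev G (dec i).2.1) (dec i).2.2.1 (dec i).2.2.2.1
    (x - 2 * i + 2 * jj i + if (dec i).2.2.2.2 = true then 1 else 0)

noncomputable def g (n : ℕ) : ℝ → ℝ :=
  Enc (patch fun i => if _h : 0 ≤ i ∧ i.toNat < n then g i.toNat else 0) n
termination_by n
decreasing_by exact _h.2

lemma g_cont (n : ℕ) : Continuous (g n) := by
  induction n using Nat.strong_induction_on with
  | _ n ih =>
    rw [g]
    have h : Continuous (patch fun i => if _ : 0 ≤ i ∧ i.toNat < n then g i.toNat else 0) :=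
      patch_cont _ fun i => by
        split_ifs with h
        · exact ih _ h.2
        · exact continuous_const
    exact (Hh_cont _ _ (ev_cont _ h _) (ev_cont _ h _) _ _).comp (by fun_prop)

noncomputable def f : ℝ → ℝ := patch fun i => if 0 ≤ i then g i.toNat else 0

lemma f_cont : Continuous f := patch_cont _ fun i => by
  split_ifs
  · exact g_cont _
  · exact continuous_const

lemma trunc (n : ℕ) (x : ℝ) (hx : x ≤ 2 * n - 1 / 4) :
    patch (fun i => if _ : 0 ≤ i ∧ i.toNat < n then g i.toNat else 0) x = f x := by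
  refine finsum_congr fun i => ?_
  by_cases h0 : 0 ≤ i
  · by_cases h1 : i.toNat < n
    · simp only [h0, h1, and_self, dif_pos, if_true]
    · have : (n : ℝ) ≤ i := by exact_mod_cast (by omega : (n : ℤ) ≤ i)
      rw [φ_zero _ (Or.inl (by linarith)), zero_mul, zero_mul]
  · simp only [h0, false_and, dif_neg, not_false_eq_true, if_false]

lemma code (P Q : MvPolynomial (Fin 6) ℤ) (q : ℚ) (b s : Bool) : ∃ k : ℕ, ∀ x : ℝ,
    χ x * f (T^[k] (B x)) = χ x * Hh (ev f P) (ev f Q) q b (x + if s = true then 1 else 0) := by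
  obtain ⟨m, hm⟩ := ex_dec.choose_spec (P, Q, q, b, s)
  refine ⟨Nat.pair m (⌈(q : ℝ)⌉₊ + 1), fun x => ?_⟩
  by_cases h : χ x = 0
  · rw [h, zero_mul, zero_mul]
  obtain ⟨j, h1, h2⟩ := χ_supp x h
  congr 1
  obtain ⟨k, hk⟩ : ∃ k, k = Nat.pair m (⌈(q : ℝ)⌉₊ + 1) := ⟨_, rfl⟩
  rw [← hk, TB k j x h1 h2]
  have hd : dec (ι k j) = (P, Q, q, b, s) := by
    simp only [dec, ι, hk, Nat.unpair_pair]; exact hm
  have a1 : k ≤ ι k j := Nat.left_le_pair _ _
  have a2 : j.toNat + 2 ≤ ι k j := (Nat.left_le_pair _ _).trans (Nat.right_le_pair _ _)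
  have a3 : ⌈(q : ℝ)⌉₊ + 1 ≤ k := hk ▸ Nat.right_le_pair _ _
  have a4 : (j : ℝ) + 2 ≤ ι k j := by exact_mod_cast (by omega : j + 2 ≤ (ι k j : ℤ))
  have a5 : (⌈(q : ℝ)⌉₊ : ℝ) + 1 ≤ ι k j := by exact_mod_cast a3.trans a1
  have a6 := Nat.le_ceil (q : ℝ)
  have a7 : (0 : ℝ) ≤ ⌈(q : ℝ)⌉₊ := Nat.cast_nonneg _
  unfold f
  rw [patch_eval _ (ι k j) _ (by push_cast; linarith) (by push_cast; linarith),
    if_pos (Int.natCast_nonneg _), Int.toNat_natCast, g, Enc, hd, jj_ι]
  simp only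
  rw [show x - 2 * (j : ℝ) + 2 * (ι k j : ℝ) - 2 * (ι k j : ℝ) + 2 * (j : ℝ) = x by ring]
  have loc : ∀ t ∈ uIcc (q : ℝ) (x + if s = true then 1 else 0), t ≤ 2 * (ι k j : ℝ) - 1 / 4 := by
    intro t ht
    refine ht.2.trans (max_le (by linarith) ?_)
    split_ifs <;> linarith
  exact Hh_congr _ _ _ _ _ _ _ (fun t ht => ev_congr _ _ _ _ (trunc _ t (loc t ht)))
    (fun t ht => ev_congr _ _ _ _ (trunc _ t (loc t ht)))

lemma fold (k : ℕ) (l : List (Fin 6)) (x : ℝ) :
    (List.replicate k (4 : Fin 6) ++ l).foldr (fun j y => gens f j y) x =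
      T^[k] (l.foldr (fun j y => gens f j y) x) := by
  induction k with
  | zero => rfl
  | succ k ih =>
    rw [List.replicate_succ, List.cons_append, List.foldr_cons, ih, Function.iterate_succ_apply']
    rfl

lemma poly (P Q : MvPolynomial (Fin 6) ℤ) (q : ℚ) (b : Bool) :
    ∃ S : MvPolynomial (Fin 6 × List (Fin 6)) ℤ, MvPolynomial.constantCoeff S = 0 ∧ ∀ x : ℝ,
      MvPolynomial.aeval (fun v : Fin 6 × List (Fin 6) =>
        gens f v.1 (v.2.foldr (fun j y => gens f j y) x)) S =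
        (χ x + χ (x - 1)) * Hh (ev f P) (ev f Q) q b x := by
  obtain ⟨k0, h0⟩ := code P Q q b false
  obtain ⟨k1, h1⟩ := code P Q q b true
  refine ⟨MvPolynomial.X (2, []) * MvPolynomial.X (5, List.replicate k0 4 ++ [3]) +
    MvPolynomial.X (2, [1]) * MvPolynomial.X (5, List.replicate k1 4 ++ [3, 1]), by simp,
    fun x => ?_⟩
  have a0 := h0 x
  have a1 := h1 (x - 1)
  simp only [map_add, map_mul, MvPolynomial.aeval_X, fold]
  simp only [Bool.false_eq_true, if_false, if_true, add_zero, sub_add_cancel] at a0 a1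
  rw [add_mul, ← a0, ← a1]
  rfl

/-- The negation of the preceding statement: For any continuous f_1..f_n not all zero there are a rational combination R of them, defined on an open interval I, such that no antiderivative of R on I equals on I a rational combination of superpositions of the f_i. -/
theorem result :
    ¬ (∀ n : ℕ, ∀ f : Fin n → ℝ → ℝ, (∀ i, Continuous (f i)) → (∃ i x, f i x ≠ 0) →
      ∃ (R : ℝ → ℝ) (I : Set ℝ), IsOpen I ∧ I.OrdConnected ∧ I.Nonempty ∧
        (∃ P Q : MvPolynomial (Fin n) ℤ, MvPolynomial.constantCoeff P = 0 ∧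
          ((∀ x ∈ I, R x = MvPolynomial.aeval (fun i => f i x) P) ∨
           (MvPolynomial.constantCoeff Q = 0 ∧
             ∀ x ∈ I, MvPolynomial.aeval (fun i => f i x) Q ≠ 0 ∧
               R x = MvPolynomial.aeval (fun i => f i x) P /
                 MvPolynomial.aeval (fun i => f i x) Q))) ∧
        ¬ ∃ F : ℝ → ℝ, (∀ x ∈ I, HasDerivAt F (R x) x) ∧
          ∃ P Q : MvPolynomial (Fin n × List (Fin n)) ℤ, MvPolynomial.constantCoeff P = 0 ∧
            ((∀ x ∈ I, F x =
                MvPolynomial.aeval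
                  (fun v : Fin n × List (Fin n) => f v.1 (v.2.foldr (fun j y => f j y) x)) P) ∨
             (MvPolynomial.constantCoeff Q = 0 ∧
               ∀ x ∈ I,
                 MvPolynomial.aeval
                   (fun v : Fin n × List (Fin n) => f v.1 (v.2.foldr (fun j y => f j y) x)) Q ≠ 0 ∧
                 F x =
                   MvPolynomial.aeval
                     (fun v : Fin n × List (Fin n) => f v.1 (v.2.foldr (fun j y => f j y) x)) P /
                   MvPolynomial.aeval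
                     (fun v : Fin n × List (Fin n) => f v.1 (v.2.foldr (fun j y => f j y) x)) Q))) := by
  intro H
  obtain ⟨R, I, hI, hoc, ⟨x0, hx0⟩, ⟨P, Q0, -, hR⟩, hno⟩ := H 6 (gens f) (gens_cont f f_cont)
    ⟨0, 0, one_ne_zero⟩
  obtain ⟨Q, hQ⟩ : ∃ Q : MvPolynomial (Fin 6) ℤ,
      ∀ x ∈ I, ev f Q x ≠ 0 ∧ R x = ev f P x / ev f Q x := by
    rcases hR with h | ⟨-, h⟩
    · exact ⟨1, fun x hx => by simpa [ev] using h x hx⟩
    · exact ⟨Q0, h⟩
  obtain ⟨q, hq⟩ := Rat.denseRange_cast.exists_mem_open hI ⟨x0, hx0⟩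
  have hW : ∀ x ∈ I, ∀ t ∈ uIcc (q : ℝ) x, ev f Q t ≠ 0 := fun x hx t ht =>
    (hQ t (hoc.uIcc_subset hq hx ht)).1
  obtain ⟨S1, c1, e1⟩ := poly P Q q true
  obtain ⟨S2, c2, e2⟩ := poly P Q q false
  refine hno ⟨fun u => ∫ t in (q : ℝ)..u, ev f P t / ev f Q t, fun x hx => ?_, S1, S2, c1,
    Or.inr ⟨c2, fun x hx => ?_⟩⟩
  · rw [(hQ x hx).2]
    exact deriv_int _ _ (ev_cont f f_cont P) (ev_cont f f_cont Q) q x (hW x hx)
  · rw [e1, e2]
    unfold Hh
    rw [if_pos (hW x hx), if_pos (hW x hx), if_pos rfl, if_neg Bool.false_ne_true]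
    have a1 := χ_pos x
    have a2 := abs_pos.mpr (hQ x hx).1
    refine ⟨by positivity, ?_⟩
    field_simp

end Pool.Agent.S05072
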