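import Pool.Statements.S05086
import Pool.Agent.H29.Karp

set_option autoImplicit false
open Pool Pool.MP_7697ea_an

namespace Pool.Agent.S05086

theorem result :
    ¬ (∀ (n : ℕ) (f : ℕ → ℝ), f n ≠ 0 →
      (∀ z : ℂ, ∑ k ∈ Finset.range (n + 1), (f k : ℂ) * z ^ k = 0 → z.im = 0 ∧ z.re < 0) →
      ∀ r : ℕ, 2 ≤ r →
        (∃ w : ℂ, ∑ k ∈ Finset.Nat.antidiagonalTuple r n,
            (Nat.multinomial Finset.univ k : ℂ) * (∏ i, (f (k i) : ℂ)) *
              Matrix.det (Matrix.of (fun i j : Fin r =>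
                (ascPochhammer ℂ (k i)).eval (w + ((j : ℕ) : ℂ) - ((i : ℕ) : ℂ)))) ≠ 0) →
        ∀ z : ℂ, ∑ k ∈ Finset.Nat.antidiagonalTuple r n,
            (Nat.multinomial Finset.univ k : ℂ) * (∏ i, (f (k i) : ℂ)) *
              Matrix.det (Matrix.of (fun i j : Fin r =>
                (ascPochhammer ℂ (k i)).eval (z + ((j : ℕ) : ℂ) - ((i : ℕ) : ℂ)))) = 0 →
          z.im = 0 ∧ z.re < 0) := by
  intro h
  have h1 := h 11 (fun k => (Nat.choose 11 k : ℝ)) (by norm_num) (by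
    intro z hz
    have e : ∑ k ∈ Finset.range (11 + 1), (((Nat.choose 11 k : ℕ) : ℝ) : ℂ) * z ^ k =
        (z + 1) ^ 11 := by
      rw [add_pow]
      refine Finset.sum_congr rfl fun k _ => ?_
      push_cast
      ring
    rw [e] at hz
    have : z = -1 := by
      have := pow_eq_zero_iff (by norm_num) |>.mp hz
      linear_combination this
    rw [this]
    norm_num) 3 (by norm_num) ⟨0, by
      rw [Pool.Agent.H29.Karp.P11]
      norm_num⟩
  obtain ⟨z, hz, him⟩ := Pool.Agent.H29.Laguerre.exists_nonreal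
    (883 * Polynomial.X ^ 3 + 5349 * Polynomial.X ^ 2 + 9926 * Polynomial.X + 5880) (-7 / 5)
    (by
      simp
      norm_num)
  apply him
  refine (h1 z ?_).1
  rw [Pool.Agent.H29.Karp.P11]
  have : 883 * z ^ 3 + 5349 * z ^ 2 + 9926 * z + 5880 = 0 := by
    simpa [map_ofNat] using hz
  rw [this]
  simp

end Pool.Agent.S05086
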