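import Pool.Statements.S05106
-- import your own Pool.Agent.* helpers here

set_option autoImplicit false
open Pool Pool.MP_7987d1_an

namespace Pool.Agent.S05106

/-- The negation of the preceding statement: For 1≤n≤8, every C² solution of Δu−u_t=u³−u for t<0 with ∣u∣≤1, ∂u/∂x_n>0 and u_t≥0 has the form u(x,t)=g(ν·x) for a unit vector ν, i.e. is one-dimensional and time-independent. -/
theorem result :
    ¬ (∀ m : ℕ, m + 1 ≤ 8 → ∀ u : EuclideanSpace ℝ (Fin (m + 1)) × ℝ → ℝ,
    ContDiffOn ℝ 2 u {p | p.2 < 0} →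
    (∀ x : EuclideanSpace ℝ (Fin (m + 1)), ∀ t : ℝ, t < 0 →
      |u (x, t)| ≤ 1 ∧
      (∑ i : Fin (m + 1), iteratedFDeriv ℝ 2 (fun y => u (y, t)) x
          (fun _ => EuclideanSpace.single i (1 : ℝ)))
        - deriv (fun s => u (x, s)) t = u (x, t) ^ 3 - u (x, t) ∧
      0 < fderiv ℝ (fun y => u (y, t)) x (EuclideanSpace.single (Fin.last m) (1 : ℝ)) ∧
      0 ≤ deriv (fun s => u (x, s)) t) →
    ∃ ν : EuclideanSpace ℝ (Fin (m + 1)), ‖ν‖ = 1 ∧
      ∃ g : ℝ → ℝ, ∀ x : EuclideanSpace ℝ (Fin (m + 1)), ∀ t : ℝ, t < 0 →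
        u (x, t) = g (inner ℝ ν x)) := by
  intro h
  have hs : ∀ y : ℝ, HasDerivAt Real.sigmoid (Real.sigmoid y * (1 - Real.sigmoid y)) y :=
    Real.hasDerivAt_sigmoid
  have hsm : ContDiff ℝ 2 Real.sigmoid := contDiff_sigmoid.of_le le_top
  set a : ℝ := √2 / 2 with ha
  have ha2 : a * a = 1 / 2 := by
    rw [ha]; nlinarith [Real.mul_self_sqrt (show (0 : ℝ) ≤ 2 by norm_num)]
  have ha0 : 0 < a := by positivity
  have hfd : ∀ (t : ℝ) (x e : EuclideanSpace ℝ (Fin 1)),
      fderiv ℝ (fun y : EuclideanSpace ℝ (Fin 1) => Real.sigmoid (a * y 0 + 3 / 2 * t)) x e =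
        Real.sigmoid (a * x 0 + 3 / 2 * t) * (1 - Real.sigmoid (a * x 0 + 3 / 2 * t))
          * (a * e 0) := by
    intro t x e
    have h0 := (((EuclideanSpace.proj (𝕜 := ℝ) (0 : Fin 1)).hasFDerivAt (x := x)).const_mul
      a).add_const (3 / 2 * t)
    have h1 : fderiv ℝ (fun y : EuclideanSpace ℝ (Fin 1) => Real.sigmoid (a * y 0 + 3 / 2 * t)) x
      = _ := ((hs _).comp_hasFDerivAt x h0).fderiv
    rw [h1]; simp
  have hdt : ∀ (c t : ℝ), deriv (fun s => Real.sigmoid (c + 3 / 2 * s)) t =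
      Real.sigmoid (c + 3 / 2 * t) * (1 - Real.sigmoid (c + 3 / 2 * t)) * (3 / 2) := by
    intro c t
    have h0 := ((hasDerivAt_id' t).const_mul (3 / 2 : ℝ)).const_add c
    have := ((hs _).comp t h0).deriv
    simpa [Function.comp_def] using this
  obtain ⟨ν, -, g, hg⟩ := h 0 (by norm_num)
    (fun p => Real.sigmoid (a * p.1 0 + 3 / 2 * p.2)) (by fun_prop) (by
      intro x t _
      have p1 := Real.sigmoid_pos (a * x 0 + 3 / 2 * t)
      have p2 := Real.sigmoid_lt_one (a * x 0 + 3 / 2 * t)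
      refine ⟨abs_le.2 ⟨by linarith, p2.le⟩, ?_, ?_, ?_⟩
      · simp only [Nat.reduceAdd, Finset.univ_unique, Finset.sum_singleton]
        rw [hdt, iteratedFDeriv_two_apply]
        have hd : DifferentiableAt ℝ (fderiv ℝ (fun y : EuclideanSpace ℝ (Fin 1) =>
            Real.sigmoid (a * y 0 + 3 / 2 * t))) x := by
          have : ContDiff ℝ 2 (fun y : EuclideanSpace ℝ (Fin 1) =>
            Real.sigmoid (a * y 0 + 3 / 2 * t)) := by fun_prop
          exact ((this.fderiv_right (m := 1) (by norm_num)).differentiable (by norm_num)) x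
        set e : EuclideanSpace ℝ (Fin 1) := EuclideanSpace.single default 1 with he
        have he0 : e 0 = 1 := by simp [he]
        have e1 := fderiv_clm_apply hd (differentiableAt_const e)
        have e2 : fderiv ℝ (fderiv ℝ (fun y : EuclideanSpace ℝ (Fin 1) =>
            Real.sigmoid (a * y 0 + 3 / 2 * t))) x e e = fderiv ℝ (fun z =>
            fderiv ℝ (fun y : EuclideanSpace ℝ (Fin 1) =>
              Real.sigmoid (a * y 0 + 3 / 2 * t)) z e) x e := by
          rw [e1]; simp
        rw [e2]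
        simp only [hfd]
        have hF : DifferentiableAt ℝ (fun y : EuclideanSpace ℝ (Fin 1) =>
            Real.sigmoid (a * y 0 + 3 / 2 * t)) x := by
          have : ContDiff ℝ 2 (fun y : EuclideanSpace ℝ (Fin 1) =>
            Real.sigmoid (a * y 0 + 3 / 2 * t)) := by fun_prop
          exact (this.differentiable (by norm_num)) x
        rw [fderiv_mul_const (hF.fun_mul (hF.const_sub 1)), fderiv_fun_mul hF (hF.const_sub 1),
          fderiv_const_sub]
        simp only [smul_apply, add_apply, neg_apply, hfd, he0, smul_eq_mul]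
        generalize Real.sigmoid (a * x 0 + 3 / 2 * t) = σ
        linear_combination (σ * (1 - σ) * (1 - 2 * σ)) * ha2
      · rw [hfd]
        have : (EuclideanSpace.single (Fin.last 0) (1 : ℝ) : EuclideanSpace ℝ (Fin 1)) 0 = 1 := by
          simp
        rw [this]
        have : 0 < 1 - Real.sigmoid (a * x 0 + 3 / 2 * t) := by linarith
        positivity
      · simp only
        rw [hdt]
        have : 0 < 1 - Real.sigmoid (a * x 0 + 3 / 2 * t) := by linarith
        positivity)
  have h1 := hg 0 (-1) (by norm_num)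
  have h2 := hg 0 (-2) (by norm_num)
  have h3 := Real.sigmoid_injective (h1.trans h2.symm)
  norm_num at h3

end Pool.Agent.S05106
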