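import Pool.Statements.S05124
import Pool.Agent.H32.FROp

set_option autoImplicit false
open Topology
open Pool Pool.MP_7b2682_an

namespace Pool.Agent.S05124

/-- The negation of the preceding statement: For every real or complex Banach space X and bounded operator T, if the vectors whose return sets to each neighbourhood have positive lower density are dense, then some dense linear subspace consists entirely of such vectors. -/
theorem result :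
    ¬ (∀ (𝕜 : Type) [RCLike 𝕜] (X : Type) [NormedAddCommGroup X] [NormedSpace 𝕜 X]
      [CompleteSpace X] (T : X →L[𝕜] X),
      Dense {x : X | ∀ U ∈ 𝓝 x, ∃ δ : ℝ, 0 < δ ∧ ∃ N₀ : ℕ, ∀ N : ℕ, N₀ ≤ N →
          δ * (N : ℝ) ≤ (({n : ℕ | 1 ≤ n ∧ n ≤ N ∧ (T ^ n) x ∈ U}.ncard : ℕ) : ℝ)} →
      ∃ M : Submodule 𝕜 X, Dense (M : Set X) ∧
        (M : Set X) ⊆ {x : X | ∀ U ∈ 𝓝 x, ∃ δ : ℝ, 0 < δ ∧ ∃ N₀ : ℕ, ∀ N : ℕ, N₀ ≤ N →
          δ * (N : ℝ) ≤ (({n : ℕ | 1 ≤ n ∧ n ≤ N ∧ (T ^ n) x ∈ U}.ncard : ℕ) : ℝ)}) := by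
  intro H
  obtain ⟨M, h1, h2⟩ := H ℝ _ (Pool.Agent.H32.FR.T ℝ) Pool.Agent.H32.FR.dense_frec
  obtain ⟨x, h3, h4⟩ := Pool.Agent.H32.FR.exists_mem h1
  refine Pool.Agent.H32.FR.not_ufrec h4 fun W hW => ?_
  obtain ⟨δ, h5, N, h6⟩ := h2 h3 W hW
  exact ⟨δ, h5, fun K => ⟨N + K + 1, by omega, h6 _ (by omega)⟩⟩

end Pool.Agent.S05124
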