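import Pool.Statements.S05134
import Pool.Agent.H15.AC4

set_option autoImplicit false
open MeasureTheory
open Pool Pool.MP_7c1d9a_an

namespace Pool.Agent.S05134

theorem result :
    ¬ (∃ c : ℝ, 0 < c ∧
      ∀ f : ℝ → ℝ, (∀ x, 0 ≤ f x) → MemLp f 1 volume → MemLp f 2 volume →
        eLpNorm (fun x : ℝ => ∫ t : ℝ, f t * f (x - t)) 2 volume ^ 2 ≤
          ENNReal.ofReal (1 - c) *
            eLpNorm (fun x : ℝ => ∫ t : ℝ, f t * f (x - t)) 1 volume *
            eLpNorm (fun x : ℝ => ∫ t : ℝ, f t * f (x - t)) ⊤ volume) := by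
  exact Pool.Agent.H15.AC.main

end Pool.Agent.S05134
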