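import Pool.Statements.S05170
import Pool.Agent.H5.Hagler

set_option autoImplicit false
open Filter Topology
open Pool Pool.MP_7de1bc_an

namespace Pool.Agent.S05170

open Pool.Agent.H5 Pool.Agent.H5.Hagler

abbrev W : Type := ℕ → Bool × I

def br (ω : W) : B := fun i => (ω i).1

noncomputable def y (ω : W) (n : ℕ) : X :=
  ∑ k ∈ Finset.range n, ((ω k).2 : ℝ) • E (fl (br ω) k) (k + 1)

lemma y_succ (ω : W) (n : ℕ) : y ω (n + 1) = y ω n + ((ω n).2 : ℝ) • E (fl (br ω) n) (n + 1) :=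
  Finset.sum_range_succ _ _

lemma y_congr {ω ω' : W} {n : ℕ} (h : ∀ i < n, ω' i = ω i) : y ω' n = y ω n := by
  refine Finset.sum_congr rfl fun k hk => ?_
  have hk' := Finset.mem_range.1 hk
  rw [h k hk', E_congr (b := fl (br ω) k) fun i hi => ?_]
  by_cases h1 : i = k
  · subst h1
    simp [fl, br, h i hk']
  · simp [fl, br, Function.update_of_ne h1, h i (by omega)]

def Ex (ω : W) (n : ℕ) : Set X := {x | ∃ ω' n', n ≤ n' ∧ (∀ i < n, ω' i = ω i) ∧ x = y ω' n'}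

lemma Ex_mono {ω ω' : W} {n n' : ℕ} (h1 : n ≤ n') (h2 : ∀ i < n, ω' i = ω i) :
    Ex ω' n' ⊆ Ex ω n := by
  rintro _ ⟨ω1, n1, h3, h4, rfl⟩
  exact ⟨ω1, n1, h1.trans h3, fun i hi => (h4 i (hi.trans_le h1)).trans (h2 i hi), rfl⟩

lemma Ex_norm {ω : W} {n : ℕ} {x : X} (h : x ∈ Ex ω n) : ‖x‖ ≤ 2 := by
  obtain ⟨ω1, n1, -, -, rfl⟩ := h
  exact comb _ _ (fun k => abs_le.2 (ω1 k).2.2) _

lemma Ex_refl {ω : W} {n : ℕ} {x : X} (h : x ∈ Ex ω n) : y ω n + y ω n - x ∈ Ex ω n := by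
  obtain ⟨ω1, n1, h1, h2, rfl⟩ := h
  let ω2 : W := fun i => if i < n then ω1 i else
    ((ω1 i).1, ⟨-(ω1 i).2, by constructor <;> linarith [(ω1 i).2.2.1, (ω1 i).2.2.2]⟩)
  have hb : br ω2 = br ω1 := funext fun i => by
    by_cases hi : i < n <;> simp [br, ω2, hi]
  have h3 : ∀ i < n, ω2 i = ω i := fun i hi => by simp [ω2, hi, h2 i hi]
  refine ⟨ω2, n1, h1, h3, ?_⟩
  induction n1, h1 using Nat.le_induction with
  | base => rw [y_congr h2, y_congr h3, add_sub_cancel_right]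
  | succ m hm ih =>
    have h4 : ((ω2 m).2 : ℝ) = -(ω1 m).2 := by simp [ω2, hm.not_gt]
    rw [y_succ, y_succ, ← ih, hb, h4, neg_smul]
    abel

lemma Ex_tip (ω : W) (n : ℕ) (s : I) : y ω n + (s : ℝ) • E (br ω) (n + 1) ∈ Ex ω n := by
  have h1 : ∀ i < n, Function.update ω n (!(ω n).1, s) i = ω i := fun i hi =>
    Function.update_of_ne hi.ne _ _
  refine ⟨Function.update ω n (!(ω n).1, s), n + 1, n.le_succ, h1, ?_⟩
  rw [y_succ, y_congr h1, Function.update_self,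
    E_congr (c := fl (br (Function.update ω n (!(ω n).1, s))) n) (b := br ω) fun i hi => ?_]
  by_cases h2 : i = n
  · subst h2
    simp [fl, br]
  · simp [fl, br, Function.update_of_ne h2]

lemma τ_y (ω : W) (n : ℕ) : τ 0 (br ω) (y ω n) = 0 := by
  rw [y, map_sum]
  refine Finset.sum_eq_zero fun k _ => ?_
  rw [map_smul, τ_E, if_neg, smul_zero]
  intro h
  have := h.2 k k.lt_succ_self
  simp [fl] at this

lemma climb (p : Seminorm ℝ X) {b : ℝ} (hb : ∀ x, p x ≤ b * ‖x‖) (hb0 : 0 < b) :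
    ∃ (ω : W) (n : ℕ → ℕ) (M : ℕ → ℝ), StrictMono n ∧ Antitone M ∧
      (∀ k, ∀ x ∈ Ex ω (n k), p x ≤ M k) ∧
      ∀ k, M k - 1 / ((k : ℝ) + 1) < p (y ω (n (k + 1))) := by
  let M : W → ℕ → ℝ := fun ω n => sSup (p '' Ex ω n)
  have hbd : ∀ ω n, BddAbove (p '' Ex ω n) := fun ω n => ⟨b * 2, by
    rintro _ ⟨x, hx, rfl⟩
    exact (hb x).trans (by gcongr; exact Ex_norm hx)⟩
  have hne : ∀ ω n, (p '' Ex ω n).Nonempty := fun ω n =>
    ⟨_, y ω n, ⟨ω, n, le_rfl, fun _ _ => rfl, rfl⟩, rfl⟩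
  have step : ∀ (k : ℕ) (s : W × ℕ), ∃ s' : W × ℕ, s.2 < s'.2 ∧ (∀ i < s.2, s'.1 i = s.1 i) ∧
      M s.1 s.2 - 1 / ((k : ℝ) + 1) < p (y s'.1 s'.2) := fun k s => by
    obtain ⟨_, ⟨_, ⟨ω1, n1, h1, h2, rfl⟩, rfl⟩, h3⟩ := exists_lt_of_lt_csSup (hne s.1 s.2)
      (sub_lt_self (M s.1 s.2) (show (0 : ℝ) < 1 / ((k : ℝ) + 1) by positivity))
    have h4 : ∀ i < n1, Function.update ω1 n1 (false, ⟨0, by norm_num⟩) i = ω1 i := fun i hi =>
      Function.update_of_ne hi.ne _ _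
    refine ⟨(Function.update ω1 n1 (false, ⟨0, by norm_num⟩), n1 + 1), Nat.lt_succ_of_le h1,
      fun i hi => (h4 i (hi.trans_le h1)).trans (h2 i hi), ?_⟩
    simp only [y_succ, y_congr h4, Function.update_self, zero_smul, add_zero]
    exact h3
  choose G hG1 hG2 hG3 using step
  let s : ℕ → W × ℕ := fun k =>
    Nat.rec (fun _ => (false, ⟨0, by norm_num⟩), 0) (fun k s => G k s) k
  have hn : StrictMono fun k => (s k).2 := strictMono_nat_of_lt_succ fun k => hG1 k (s k)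
  have h1 : ∀ k j, k ≤ j → ∀ i < (s k).2, (s j).1 i = (s k).1 i := fun k j h => by
    induction j, h using Nat.le_induction with
    | base => exact fun _ _ => rfl
    | succ j hj ih => exact fun i hi => (hG2 j (s j) i (hi.trans_le (hn.monotone hj))).trans (ih i hi)
  let ω : W := fun i => (s (i + 1)).1 i
  have h2 : ∀ k, ∀ i < (s k).2, ω i = (s k).1 i := fun k i hi => by
    have h3 : i < (s (i + 1)).2 := (Nat.lt_succ_self i).trans_le (hn.id_le (i + 1))
    exact (h1 (i + 1) (max k (i + 1)) (le_max_right _ _) i h3).symm.trans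
      (h1 k _ (le_max_left _ _) i hi)
  refine ⟨ω, fun k => (s k).2, fun k => M ω (s k).2, hn, fun j k hjk => ?_,
    fun k x hx => le_csSup (hbd _ _) ⟨x, hx, rfl⟩, fun k => ?_⟩
  · exact csSup_le_csSup (hbd _ _) (hne _ _)
      (Set.image_mono (Ex_mono (hn.monotone hjk) fun _ _ => rfl))
  · have h3 : M ω (s k).2 ≤ M (s k).1 (s k).2 :=
      csSup_le_csSup (hbd _ _) (hne _ _) (Set.image_mono (Ex_mono le_rfl (h2 k)))
    have h4 := hG3 k (s k)
    rw [y_congr (h2 (k + 1))]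
    exact lt_of_le_of_lt (by linarith) h4

/-- The negation of the preceding statement: A separable real Banach space has no isomorphic copy of ℓ1 iff it has an equivalent norm in which every unit-sphere sequence with norm of (x_n + x_m) tending to 2 is weakly Cauchy. -/
theorem result :
    ¬ (∀ (X : Type) [NormedAddCommGroup X] [NormedSpace ℝ X] [CompleteSpace X]
      [TopologicalSpace.SeparableSpace X],
      (¬ ∃ (T : lp (fun _ : ℕ => ℝ) (1 : ENNReal) →L[ℝ] X) (c : ℝ),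
          0 < c ∧ ∀ y, c * ‖y‖ ≤ ‖T y‖) ↔
      ∃ (p : Seminorm ℝ X) (a b : ℝ), 0 < a ∧ 0 < b ∧
        (∀ x : X, a * ‖x‖ ≤ p x ∧ p x ≤ b * ‖x‖) ∧
        ∀ u : ℕ → X, (∀ n, p (u n) = 1) →
          Tendsto (fun k : ℕ × ℕ => p (u k.1 + u k.2)) atTop (𝓝 2) →
          ∀ f : X →L[ℝ] ℝ, CauchySeq (fun n => f (u n))) := by
  intro hall
  obtain ⟨p, a, b, ha, hb, hab, hW⟩ := (hall X).1 (NoL1.no_ell_one no_ind)
  obtain ⟨ω, n, M, hn, hM, hM1, hM2⟩ := climb p (fun x => (hab x).2) hb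
  let z : ℕ → X := fun k => y ω (n k) + ((-1 : ℝ) ^ k) • E (br ω) (n k + 1)
  have hz : ∀ k j, k ≤ j → z j ∈ Ex ω (n k) := fun k j h =>
    Ex_mono (hn.monotone h) (fun _ _ => rfl) (Ex_tip ω (n j) ⟨(-1) ^ j, abs_le.1 (by simp)⟩)
  have hτ : ∀ k, τ 0 (br ω) (z k) = (-1) ^ k := fun k => by
    simp only [z, map_add, map_smul, τ_y, τ_E]
    rw [if_pos ⟨Nat.zero_le _, fun _ _ => rfl⟩]
    simp
  have hpz : ∀ k, a ≤ p (z k) := fun k => by
    have h1 : |τ 0 (br ω) (z k)| ≤ ‖z k‖ := ev_le _ _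
    rw [hτ] at h1
    simp only [abs_pow, abs_neg, abs_one, one_pow] at h1
    nlinarith [(hab (z k)).1]
  have hMa : ∀ k, a ≤ M k := fun k => (hpz k).trans (hM1 k _ (hz k k le_rfl))
  have hML := tendsto_atTop_ciInf hM ⟨a, by rintro _ ⟨k, rfl⟩; exact hMa k⟩
  set L := ⨅ k, M k
  have hL : 0 < L := ha.trans_le (ge_of_tendsto' hML hMa)
  have hLM : ∀ k, L ≤ M k := fun k => hM.le_of_tendsto hML k
  have low : ∀ k i j : ℕ, k + 1 ≤ i → k + 1 ≤ j →
      2 * L - 4 * (1 / ((k : ℝ) + 1)) ≤ p (z i + z j) := fun k i j hi hj => by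
    have h1 := hM1 _ _ (Ex_refl (hz _ _ hi))
    have h2 := hM1 _ _ (Ex_refl (hz _ _ hj))
    have h3 := hM2 k
    have h4 := hM k.le_succ
    generalize y ω (n (k + 1)) = x at h1 h2 h3
    have h5 : (4 : ℝ) • x = (z i + z j) + ((x + x - z i) + (x + x - z j)) := by module
    have h6 := map_smul_eq_mul p 4 x
    rw [h5] at h6
    have h7 := map_add_le_add p (z i + z j) ((x + x - z i) + (x + x - z j))
    have h8 := map_add_le_add p (x + x - z i) (x + x - z j)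
    have h9 : ‖(4 : ℝ)‖ = 4 := by norm_num
    rw [h9] at h6
    linarith [hLM k]
  have low' : ∀ ε > 0, ∀ᶠ q : ℕ × ℕ in atTop, 2 * L - ε < p (z q.1 + z q.2) := fun ε hε => by
    obtain ⟨k, hk⟩ := exists_nat_one_div_lt (show 0 < ε / 4 by positivity)
    filter_upwards [eventually_ge_atTop (k + 1, k + 1)] with q hq
    linarith [low k q.1 q.2 hq.1 hq.2]
  have hpL : Tendsto (fun k => p (z k)) atTop (𝓝 L) := by
    refine tendsto_order.2 ⟨fun r hr => ?_, fun r hr => ?_⟩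
    · obtain ⟨N, hN⟩ := eventually_atTop.1 (low' (L - r) (by linarith))
      filter_upwards [eventually_ge_atTop (max N.1 N.2)] with k hk
      have h1 := hN (k, k) ⟨le_of_max_le_left hk, le_of_max_le_right hk⟩
      have h2 := map_add_le_add p (z k) (z k)
      simp only at h1
      linarith
    · filter_upwards [hML.eventually (gt_mem_nhds hr)] with k hk
      exact (hM1 k _ (hz k k le_rfl)).trans_lt hk
  have hp0 : ∀ k, 0 < p (z k) := fun k => ha.trans_le (hpz k)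
  have hu : ∀ k, p ((p (z k))⁻¹ • z k) = 1 := fun k => by
    rw [map_smul_eq_mul, norm_inv, Real.norm_of_nonneg (hp0 k).le, inv_mul_cancel₀ (hp0 k).ne']
  have hC := hW (fun k => (p (z k))⁻¹ • z k) hu (by
    refine tendsto_order.2 ⟨fun r hr => ?_, fun r hr => Eventually.of_forall fun q => ?_⟩
    · have hε : 0 < (2 - r) * L / 3 := by have := sub_pos.2 hr; positivity
      have h1 := Metric.tendsto_nhds.1 hpL _ hε
      have h2 : ∀ᶠ q : ℕ × ℕ in atTop, dist (p (z q.1)) L < (2 - r) * L / 3 ∧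
          dist (p (z q.2)) L < (2 - r) * L / 3 := by
        rw [← prod_atTop_atTop_eq]
        exact h1.prod_mk h1
      filter_upwards [low' _ hε, h2] with q h3 h4
      have h5 : ∀ k, z k = L • (p (z k))⁻¹ • z k + (p (z k) - L) • (p (z k))⁻¹ • z k := fun k => by
        rw [← add_smul, add_sub_cancel, smul_inv_smul₀ (hp0 k).ne']
      have h6 : ∀ k, p ((p (z k) - L) • (p (z k))⁻¹ • z k) = dist (p (z k)) L := fun k => by
        rw [map_smul_eq_mul, hu, mul_one, dist_eq_norm]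
      have h7 : z q.1 + z q.2 = L • ((p (z q.1))⁻¹ • z q.1 + (p (z q.2))⁻¹ • z q.2) +
          ((p (z q.1) - L) • (p (z q.1))⁻¹ • z q.1 + (p (z q.2) - L) • (p (z q.2))⁻¹ • z q.2) := by
        rw [smul_add]
        exact (congrArg₂ (· + ·) (h5 q.1) (h5 q.2)).trans (add_add_add_comm _ _ _ _)
      rw [h7] at h3
      have h8 := h3.trans_le ((map_add_le_add p _ _).trans
        (add_le_add le_rfl (map_add_le_add p _ _)))
      rw [h6, h6, map_smul_eq_mul, Real.norm_of_nonneg hL.le] at h8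
      refine lt_of_mul_lt_mul_left (a := L) ?_ hL.le
      linarith [h4.1, h4.2]
    · have h1 := map_add_le_add p ((p (z q.1))⁻¹ • z q.1) ((p (z q.2))⁻¹ • z q.2)
      rw [hu, hu] at h1
      linarith) (τ 0 (br ω))
  have hM0 : 0 < M 0 := ha.trans_le (hMa 0)
  obtain ⟨N, hN⟩ := Metric.cauchySeq_iff.1 hC (M 0)⁻¹ (inv_pos.2 hM0)
  have h1 := hN (2 * N) (by omega) (2 * N + 1) (by omega)
  simp only [map_smul, hτ, smul_eq_mul, Real.dist_eq] at h1
  rw [pow_succ, pow_mul] at h1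
  have h2 := (abs_lt.1 h1).2
  have h3 : (M 0)⁻¹ ≤ (p (z (2 * N)))⁻¹ := inv_anti₀ (hp0 _) (hM1 0 _ (hz 0 _ (Nat.zero_le _)))
  have h4 := inv_pos.2 (hp0 (2 * N + 1))
  norm_num at h2
  linarith

end Pool.Agent.S05170
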