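import Pool.Statements.S05209
import Pool.Agent.H1.KrD

set_option autoImplicit false
open MeasureTheory
open Pool Pool.MP_8048c5_an

namespace Pool.Agent.S05209

/-- For finite A>0, every measurable f on (-A,A) defining a bounded functional on exponential sums with frequencies in (-A,A) (sup norm on ℝ) extends to a measurable g on ℝ defining a bounded such functional for all real frequencies. -/
theorem result :
    ∀ A : ℝ, 0 < A → ∀ f : ℝ → ℂ,
      AEMeasurable f (volume.restrict (Set.Ioo (-A) A)) →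
      (∃ C : ℝ, ∀ s : Finset ℝ, (∀ x ∈ s, x ∈ Set.Ioo (-A) A) →
        ∀ c : ℝ → ℂ, ∀ M : ℝ,
          (∀ t : ℝ, ‖∑ x ∈ s, c x * Complex.exp (Complex.I * (x : ℂ) * (t : ℂ))‖ ≤ M) →
          ‖∑ x ∈ s, c x * f x‖ ≤ C * M) →
      ∃ g : ℝ → ℂ, (∀ x ∈ Set.Ioo (-A) A, g x = f x) ∧ AEMeasurable g volume ∧
        ∃ C : ℝ, ∀ s : Finset ℝ, ∀ c : ℝ → ℂ, ∀ M : ℝ,
          (∀ t : ℝ, ‖∑ x ∈ s, c x * Complex.exp (Complex.I * (x : ℂ) * (t : ℂ))‖ ≤ M) →
          ‖∑ x ∈ s, c x * g x‖ ≤ C * M := by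
  intro A _ f hf h
  obtain ⟨g, h1, h2, h3, -⟩ := Pool.Agent.H1.Kr.extend isOpen_Ioo hf h
  obtain ⟨C, hC⟩ := h3
  exact ⟨g, h1, h2, C, fun s c M hM => hC s (fun _ _ => trivial) c M hM⟩

end Pool.Agent.S05209
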