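import Pool.Statements.S05212
import Pool.Agent.H33.Pair

set_option autoImplicit false
open Real
open Pool Pool.MP_807847_an

namespace Pool.Agent.S05212

open Pool.Agent.H33.Pair Finset Filter Topology MeasureTheory

lemma sym (b : ℕ → ℝ) (e : ℤ → ℂ) (C : ℕ → ℝ) (h0 : e 0 = C 0) (h : ∀ n : ℕ, e n + e (-n) = 2 * C n)
    (N : ℕ) : ∑ n ∈ Icc (-(N : ℤ)) N, ((if n = 0 then 2 else 1) * b n.natAbs : ℝ) * e n =
      (2 * ∑ n ∈ range (N + 1), b n * C n : ℝ) := by
  induction N with
  | zero => simp [h0, mul_assoc]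
  | succ N ih =>
    rw [show Icc (-((N + 1 : ℕ) : ℤ)) (N + 1 : ℕ) = insert ((N + 1 : ℕ) : ℤ) (insert (-(N + 1 : ℕ) : ℤ)
      (Icc (-(N : ℤ)) N)) by ext; simp; omega, sum_insert (by simp; omega), sum_insert (by simp), ih,
      sum_range_succ _ (N + 1), if_neg (by omega), if_neg (by omega), Int.natAbs_neg, Int.natAbs_natCast]
    have := h (N + 1)
    push_cast at this ⊢
    linear_combination b (N + 1) * this

lemma four (n : ℤ) (s : ℝ) : fourier n (s : AddCircle (2 * π)) = Complex.exp (n * s * Complex.I) := by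
  rw [fourier_coe_apply]
  congr 1
  have : (π : ℂ) ≠ 0 := by simp
  push_cast
  field_simp

lemma four2 (n : ℤ) (s : ℝ) : fourier n (s : AddCircle (2 * π)) + fourier (-n) (s : AddCircle (2 * π)) =
    2 * Real.cos (n * s) := by
  rw [four, four]; push_cast; rw [Complex.two_cos]; ring_nf

lemma meas : ∃ p T : ℤ → ℝ, (∀ i, 0 ≤ p i) ∧ Summable p ∧ Tendsto T cofinite (𝓝 0) ∧
    (∀ i, T i = 0 ∨ ∃ k, T i = t k ∨ T i = -t k) ∧
    ∀ n : ℤ, HasSum (fun i => p i * Complex.exp ((-n : ℤ) * T i * Complex.I)) (m n.natAbs) := by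
  have xs : Summable fun k => c k * -x k := cs _ fun k => abs_le.2 ⟨by linarith [hx k], by linarith [hx k]⟩
  have c1 : Summable c := by simpa using cs 1 (by simp)
  have t0 : Tendsto t atTop (𝓝 0) := tendsto_const_nhds.div_atTop (tendsto_natCast_atTop_atTop.comp
    (tendsto_atTop_mono (fun k => le_trans (Nat.le_add_left k 257) (q_ge k)) tendsto_id))
  refine ⟨Int.rec (Nat.rec (∑' k, c k * -x k) fun k _ => c k / 2) fun k => c k / 2,
    Int.rec (Nat.rec 0 fun k _ => t k) fun k => -t k, ?_,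
    Summable.int_rec ((summable_nat_add_iff 1).1 (c1.div_const 2)) (c1.div_const 2), ?_, ?_, fun n => ?_⟩
  · rintro ((_ | k) | k)
    · exact tsum_nonneg fun k => mul_nonneg (hc k).1.le (by linarith [hx k])
    all_goals exact (half_pos (hc k).1).le
  · rw [Int.cofinite_eq, tendsto_sup, ← Nat.map_cast_int_atTop, ← map_neg_atTop, ← Nat.map_cast_int_atTop]
    exact ⟨(tendsto_add_atTop_iff_nat 1).1 (neg_zero (G := ℝ) ▸ t0.neg :), (tendsto_add_atTop_iff_nat 1).1 t0⟩
  · rintro ((_ | k) | k)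
    exacts [Or.inl rfl, Or.inr ⟨k, Or.inl rfl⟩, Or.inr ⟨k, Or.inr rfl⟩]
  have s : ∀ u : ℕ → ℝ, Summable fun k => (c k / 2 : ℝ) * Complex.exp ((-n : ℤ) * u k * Complex.I) :=
    fun u => .of_norm_bounded (c1.div_const 2) fun k => by
      rw [norm_mul, ← Complex.ofReal_intCast, ← Complex.ofReal_mul, Complex.norm_exp_ofReal_mul_I,
        mul_one, Complex.norm_real, Real.norm_of_nonneg (half_pos (hc k).1).le]
  have h := (HasSum.zero_add (f := Nat.rec ((∑' k, c k * -x k : ℝ) : ℂ) fun k _ =>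
    (c k / 2 : ℝ) * Complex.exp ((-n : ℤ) * t k * Complex.I)) (s t).hasSum).int_rec
    (s fun k => -t k).hasSum
  have e : ∀ k, (c k / 2 : ℝ) * Complex.exp ((-n : ℤ) * t k * Complex.I) + (c k / 2 : ℝ) *
      Complex.exp ((-n : ℤ) * (-t k : ℝ) * Complex.I) = (c k * Real.cos (n.natAbs * t k) : ℝ) := fun k => by
    rw [Nat.cast_natAbs, Int.cast_abs, ← abs_of_pos (show 0 < t k by
      have := q_pos k; unfold t; positivity), ← abs_mul, Real.cos_abs, abs_of_pos (show 0 < t k by
      have := q_pos k; unfold t; positivity)]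
    push_cast
    rw [Complex.cos]
    ring_nf
  rw [add_assoc, ← (s t).tsum_add (s _)] at h
  simp only [e, ← Complex.ofReal_tsum, Nat.rec_zero, ← Complex.ofReal_add] at h
  rw [← xs.tsum_add (cs _ fun k => (Real.abs_cos_le_one _).trans one_le_two),
    tsum_congr (f := fun k => c k * -x k + _) (g := fun k => c k * (Real.cos (n.natAbs * t k) - x k))
      fun k => by ring] at h
  refine Eq.mp (congrArg (HasSum · _) (funext ?_)) h
  rintro ((_ | k) | k)
  · simp
  all_goals rfl

theorem result :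
    ¬ (∀ (a : ℤ → ℂ) (F : Set (AddCircle (2 * π))) (μ : MeasureTheory.Measure (AddCircle (2 * π))),
      Filter.Tendsto a Filter.cofinite (nhds 0) →
      IsClosed F →
      (∀ t ∈ F, Filter.Tendsto
        (fun N : ℕ => ∑ n ∈ Finset.Icc (-(N : ℤ)) (N : ℤ), a n * fourier n t)
        Filter.atTop (nhds 0)) →
      MeasureTheory.IsFiniteMeasure μ →
      μ Fᶜ = 0 →
      Summable (fun n : ℤ => ‖∫ t, fourier (-n) t ∂μ‖ * ‖a (-n)‖) →
      ∑' n : ℤ, (∫ t, fourier (-n) t ∂μ) * a (-n) = 0) := by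
  intro H
  obtain ⟨b, b1, b2, b3, b4⟩ := main
  obtain ⟨p, T, p0, ps, hT, T1, hp⟩ := meas
  let μ : Measure (AddCircle (2 * π)) :=
    .sum fun i : ℤ => ENNReal.ofReal (p i) • Measure.dirac (QuotientAddGroup.mk (T i))
  have hm : ∀ n : ℤ, ∫ s, fourier (-n) s ∂μ = m n.natAbs := fun n => by
    rw [integral_sum_dirac fun _ => ENNReal.ofReal_ne_top]
    simp only [ENNReal.toReal_ofReal (p0 _), four, Complex.real_smul, (hp n).tsum_eq]
  have sm : Summable fun n : ℤ => ‖∫ s, fourier (-n) s ∂μ‖ *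
      ‖(((if -n = 0 then 2 else 1) * b (-n).natAbs : ℝ) : ℂ)‖ := by
    refine .of_nonneg_of_le (fun _ => by positivity) (f := fun n => 2 * (|b n.natAbs| * |m n.natAbs|))
      (fun n => ?_) (.of_nat_of_neg (by simpa using b3.mul_left 2) (by simpa using b3.mul_left 2))
    rw [hm, Complex.norm_real, Complex.norm_real, norm_mul, Int.natAbs_neg]
    have := mul_nonneg (abs_nonneg (b n.natAbs)) (abs_nonneg (m n.natAbs))
    split_ifs <;> simp <;> linarith
  have := H (fun n => ((if n = 0 then 2 else 1) * b n.natAbs : ℝ))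
    (insert ((0 : ℝ) : AddCircle (2 * π)) (Set.range fun i => ((T i : ℝ) : AddCircle (2 * π)))) μ ?_
    (((AddCircle.continuous_mk' _).tendsto 0).comp hT).isCompact_insert_range_of_cofinite.isClosed ?_ ?_ ?_ sm
  · have h := (Summable.of_norm (sm.congr fun n => (norm_mul _ _).symm)).hasSum.comp tendsto_Icc_neg
    rw [this] at h
    refine b4 ((tendsto_add_atTop_iff_nat 1).1 ?_)
    simp only [Function.comp_def, hm, neg_eq_zero, Int.natAbs_neg, mul_comm (m _ : ℂ),
      sym b (fun n => m n.natAbs) m rfl fun n => by simp [two_mul]] at h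
    rw [← Complex.ofReal_zero, tendsto_ofReal_iff] at h
    simpa using h.div_const 2
  · refine squeeze_zero_norm (a := fun n => 2 * |b n.natAbs|) (fun n => ?_) ?_
    · rw [Complex.norm_real, norm_mul]
      split_ifs <;> simp <;> linarith [abs_nonneg (b n.natAbs)]
    · simpa using ((b1.comp ((Tendsto.cofinite_of_finite_preimage_singleton (f := Int.natAbs) fun k =>
        (Set.toFinite {(k : ℤ), -(k : ℤ)}).subset fun n hn => by simp at hn ⊢; omega).mono_right
        Nat.cofinite_eq_atTop.le)).abs.const_mul 2)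
  · have : ∀ s : ℝ, Tendsto (S b s) atTop (𝓝 0) → Tendsto (fun N : ℕ => ∑ n ∈ Icc (-(N : ℤ)) N,
        ((if n = 0 then 2 else 1) * b n.natAbs : ℝ) * fourier n (s : AddCircle (2 * π))) atTop (𝓝 0) := by
      intro s hs
      simp only [sym b (fun n => fourier n (s : AddCircle (2 * π))) (fun n => Real.cos (n * s)) (by simp) fun n => by exact_mod_cast four2 n s]
      simpa [S] using tendsto_ofReal_iff.2 (((tendsto_add_atTop_iff_nat 1).2 hs).const_mul 2)
    rintro _ (rfl | ⟨i, rfl⟩)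
    · exact this _ (b2 _ (Or.inl rfl))
    rcases T1 i with h | ⟨k, h | h⟩
    · exact this _ (b2 _ (Or.inl h))
    · exact this _ (b2 _ (Or.inr ⟨k, h⟩))
    · exact this _ ((b2 _ (Or.inr ⟨k, rfl⟩)).congr fun M => by simp [S, h])
  · refine ⟨?_⟩
    simp only [μ, Measure.sum_apply _ MeasurableSet.univ, Measure.smul_apply, measure_univ, smul_eq_mul,
      mul_one]
    exact ps.tsum_ofReal_lt_top
  · refine Measure.sum_apply_eq_zero.2 fun i => ?_
    simp [Measure.dirac_apply]

end Pool.Agent.S05212
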