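import Pool.Statements.S05232
import Pool.Agent.H29.Tail4

set_option autoImplicit false
open Pool Pool.MP_826cdb_an

namespace Pool.Agent.S05232

/-- The negation of the preceding statement: For every real Banach space X and maximally monotone operators A, B from X to its dual with dom A meeting the interior of dom B, the sum operator A+B is maximally monotone. -/
theorem result :
    ¬ (∀ (X : Type) [NormedAddCommGroup X] [NormedSpace ℝ X] [CompleteSpace X]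
      (A B : Set (X × (X →L[ℝ] ℝ))),
      (∀ (x y : X) (a b : X →L[ℝ] ℝ), (x, a) ∈ A → (y, b) ∈ A → 0 ≤ (a - b) (x - y)) →
      (∀ (z : X) (c : X →L[ℝ] ℝ),
          (∀ (x : X) (a : X →L[ℝ] ℝ), (x, a) ∈ A → 0 ≤ (c - a) (z - x)) → (z, c) ∈ A) →
      (∀ (x y : X) (a b : X →L[ℝ] ℝ), (x, a) ∈ B → (y, b) ∈ B → 0 ≤ (a - b) (x - y)) →
      (∀ (z : X) (c : X →L[ℝ] ℝ),
          (∀ (x : X) (a : X →L[ℝ] ℝ), (x, a) ∈ B → 0 ≤ (c - a) (z - x)) → (z, c) ∈ B) →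
      ({x : X | ∃ a : X →L[ℝ] ℝ, (x, a) ∈ A} ∩
          interior {x : X | ∃ b : X →L[ℝ] ℝ, (x, b) ∈ B}).Nonempty →
      (∀ (x y : X) (a b a' b' : X →L[ℝ] ℝ),
          (x, a) ∈ A → (x, b) ∈ B → (y, a') ∈ A → (y, b') ∈ B →
          0 ≤ ((a + b) - (a' + b')) (x - y)) ∧
      (∀ (z : X) (c : X →L[ℝ] ℝ),
          (∀ (x : X) (a b : X →L[ℝ] ℝ), (x, a) ∈ A → (x, b) ∈ B →
              0 ≤ (c - (a + b)) (z - x)) →
          ∃ (a b : X →L[ℝ] ℝ), (z, a) ∈ A ∧ (z, b) ∈ B ∧ c = a + b)) := by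
  intro H
  obtain ⟨A, mo, mx, gp, ⟨y, f, h1⟩, -, -, x, g, h⟩ := H29.Tail.gap
  obtain ⟨u, -, hu, -⟩ := (H _ {z | z.2 ∈ A z.1} {z | z.2 = H29.Tail.ell z.1} mo mx
    (fun p q a b ha hb => by
      rw [show a = _ from ha, show b = _ from hb]; exact H29.Tail.ell_mono p q)
    (fun p a ha => H29.Tail.ell_max fun q => ha q _ rfl)
    ⟨(y, -1), ⟨f, h1⟩, by simp⟩).2 (x, 1 / 2) g fun q a b ha hb => by
      rw [show b = _ from hb, add_comm]; exact h q a ha
  have := gp _ _ hu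
  norm_num at this

end Pool.Agent.S05232
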