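import Pool.Statements.S05247
import Pool.Agent.H2.Cov3

set_option autoImplicit false
open Classical
open Pool Pool.MP_832ffe_an

namespace Pool.Agent.S05247

/-- There exist uniformly locally finite metric spaces X, Y with an injective, compact-preserving ⋆-homomorphism from the uniform Roe algebra of X into that of Y, but no bornologous map X→Y whose fibres are uniformly bounded in size. -/
theorem result :
  ∃ (X Y : Type) (_ : MetricSpace X) (_ : MetricSpace Y),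
    (∀ r : ℝ, ∃ N : ℕ, ∀ x : X,
        (Metric.closedBall x r).Finite ∧ (Metric.closedBall x r).ncard ≤ N) ∧
    (∀ r : ℝ, ∃ N : ℕ, ∀ y : Y,
        (Metric.closedBall y r).Finite ∧ (Metric.closedBall y r).ncard ≤ N) ∧
    (∃ Φ : (lp (fun _ : X => ℂ) 2 →L[ℂ] lp (fun _ : X => ℂ) 2) →
        (lp (fun _ : Y => ℂ) 2 →L[ℂ] lp (fun _ : Y => ℂ) 2),
      (∀ a ∈ closure {T : lp (fun _ : X => ℂ) 2 →L[ℂ] lp (fun _ : X => ℂ) 2 |
              ∃ r : ℝ, ∀ x x' : X, r < dist x x' → (T (lp.single 2 x (1 : ℂ))) x' = 0},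
        ∀ b ∈ closure {T : lp (fun _ : X => ℂ) 2 →L[ℂ] lp (fun _ : X => ℂ) 2 |
              ∃ r : ℝ, ∀ x x' : X, r < dist x x' → (T (lp.single 2 x (1 : ℂ))) x' = 0},
        ∀ c : ℂ,
          Φ (a + b) = Φ a + Φ b ∧ Φ (c • a) = c • Φ a ∧
          Φ (a * b) = Φ a * Φ b ∧ Φ (star a) = star (Φ a)) ∧
      Set.InjOn Φ (closure {T : lp (fun _ : X => ℂ) 2 →L[ℂ] lp (fun _ : X => ℂ) 2 |
              ∃ r : ℝ, ∀ x x' : X, r < dist x x' → (T (lp.single 2 x (1 : ℂ))) x' = 0}) ∧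
      (∀ a ∈ closure {T : lp (fun _ : X => ℂ) 2 →L[ℂ] lp (fun _ : X => ℂ) 2 |
              ∃ r : ℝ, ∀ x x' : X, r < dist x x' → (T (lp.single 2 x (1 : ℂ))) x' = 0},
        Φ a ∈ closure {S : lp (fun _ : Y => ℂ) 2 →L[ℂ] lp (fun _ : Y => ℂ) 2 |
              ∃ r : ℝ, ∀ y y' : Y, r < dist y y' → (S (lp.single 2 y (1 : ℂ))) y' = 0}) ∧
      (∀ a ∈ closure {T : lp (fun _ : X => ℂ) 2 →L[ℂ] lp (fun _ : X => ℂ) 2 |
              ∃ r : ℝ, ∀ x x' : X, r < dist x x' → (T (lp.single 2 x (1 : ℂ))) x' = 0},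
        IsCompactOperator a → IsCompactOperator (Φ a))) ∧
    ¬ ∃ f : X → Y,
        (∀ r : ℝ, ∃ s : ℝ, ∀ x x' : X, dist x x' ≤ r → dist (f x) (f x') ≤ s) ∧
        (∃ N : ℕ, ∀ y : Y, (f ⁻¹' {y}).Finite ∧ (f ⁻¹' {y}).ncard ≤ N) := by
  open Pool.Agent.H2.Cov in
  exact ⟨Z 0, Z 1, inferInstance, inferInstance, ulf', ulf', ⟨Ph, fun a _ b _ c =>
    ⟨Ph_add a b, Ph_smul c a, Ph_mul a b, Ph_star a⟩, Ph_inj.injOn,
    Set.MapsTo.closure_left (fun _ => Ph_FP) Ph_cont isClosed_closure, fun _ _ => Ph_cpt⟩,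
    fun ⟨f, h, k⟩ => no_map f (h 2) k⟩

end Pool.Agent.S05247
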