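import Pool.Statements.S05328


set_option autoImplicit false
open Filter Topology
open Pool Pool.MP_8ba4a6_an

namespace Pool.Agent.S05328

noncomputable def psi (y : ℝ) : ℝ := (3 + 13 * y ^ 2) / (y ^ 2 * (13 + 3 * y ^ 2))

lemma psi_pos (y : ℝ) (hy : 0 < y) : 0 < psi y := by unfold psi; positivity

lemma psi_anti (a b : ℝ) (ha : 0 < a) (hab : a < b) : psi b < psi a := by
  have hb : 0 < b := ha.trans hab
  unfold psi
  rw [div_lt_div_iff₀ (by positivity) (by positivity)]
  have h : a ^ 2 < b ^ 2 := by nlinarith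
  have h1 : 0 < a ^ 2 := by positivity
  have h2 : 0 < (b ^ 2 - a ^ 2) * (39 + 9 * (a ^ 2 + b ^ 2) + 39 * (a ^ 2 * b ^ 2)) := by
    have : 0 < b ^ 2 - a ^ 2 := by linarith
    positivity
  nlinarith

lemma psi_one : psi 1 = 1 := by unfold psi; norm_num

lemma psi_contr (y : ℝ) (hy : |y - 1| ≤ 1 / 20) : |psi y - 1| ≤ 9 / 10 * |y - 1| := by
  obtain ⟨h1, h2⟩ := abs_le.1 hy
  have hy0 : 0 < y := by linarith
  have hd : 0 < y ^ 2 * (13 + 3 * y ^ 2) := by positivity
  have e : psi y - 1 = -(3 * (y + 1) * (y ^ 2 + 1) / (y ^ 2 * (13 + 3 * y ^ 2))) * (y - 1) := by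
    unfold psi
    field_simp
    ring
  rw [e, abs_mul, abs_neg, abs_of_pos (by positivity)]
  apply mul_le_mul_of_nonneg_right _ (abs_nonneg _)
  rw [div_le_iff₀ hd]
  obtain ⟨t, rfl⟩ : ∃ t, y = 19 / 20 + t := ⟨y - 19 / 20, by ring⟩
  have ht : 0 ≤ t := by linarith
  nlinarith [pow_nonneg ht 2, pow_nonneg ht 3, pow_nonneg ht 4]

lemma step (x : ℕ → ℝ) (h0 : 0 < x 0) (h1 : 0 < x 1)
    (h : ∀ n : ℕ, x (n + 2) = x (n + 1) * (psi (x n) / x (n + 1))) :
    ∀ n, x (n + 2) = psi (x n) := by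
  have hp : ∀ n, 0 < x n ∧ 0 < x (n + 1) := by
    intro n
    induction n with
    | zero => exact ⟨h0, h1⟩
    | succ n ih =>
      refine ⟨ih.2, ?_⟩
      rw [h n]
      have := psi_pos _ ih.1
      have := ih.2
      positivity
  intro n
  rw [h n]
  have := (hp n).2
  field_simp

lemma decay (x : ℕ → ℝ) (h : ∀ n, x (n + 2) = psi (x n)) (d : ℝ) (hd : d ≤ 1 / 20)
    (h0 : |x 0 - 1| ≤ d) (h1 : |x 1 - 1| ≤ d) :
    ∀ n, |x n - 1| ≤ d * (19 / 20) ^ n * (20 / 19) ∧ |x n - 1| ≤ d := by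
  have hd0 : 0 ≤ d := (abs_nonneg _).trans h0
  intro n
  induction n using Nat.twoStepInduction with
  | zero => exact ⟨by simp; nlinarith, h0⟩
  | one => exact ⟨by simp; nlinarith, h1⟩
  | more n ih _ =>
    rw [h n]
    have := psi_contr (x n) (ih.2.trans hd)
    have hp : (0 : ℝ) ≤ d * (19 / 20) ^ n := by positivity
    constructor
    · have e : d * (19 / 20) ^ (n + 2) * (20 / 19) = (d * (19 / 20) ^ n) * (19 / 20) := by ring
      rw [e]
      nlinarith [ih.1]
    · nlinarith [ih.2, abs_nonneg (x n - 1)]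


/-- The negation of the preceding statement: If f>0 is continuous on the positive quadrant, nonincreasing in x, strictly decreasing in y, x·f(x,x) strictly decreasing, and the unique positive equilibrium of x_{n+1}=x_n f(x_n,x_{n-1}) is locally asymptotically stable, then every positive solution converges to it. -/
theorem result :
    ¬ (∀ (f : ℝ → ℝ → ℝ) (xbar : ℝ),
      ContinuousOn (fun p : ℝ × ℝ => f p.1 p.2) (Set.Ioi (0:ℝ) ×ˢ Set.Ioi (0:ℝ)) →
      (∀ x y : ℝ, 0 < x → 0 < y → 0 < f x y) →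
      (∀ x₁ x₂ y : ℝ, 0 < x₁ → x₁ ≤ x₂ → 0 < y → f x₂ y ≤ f x₁ y) →
      (∀ x y₁ y₂ : ℝ, 0 < x → 0 < y₁ → y₁ < y₂ → f x y₂ < f x y₁) →
      (∀ x₁ x₂ : ℝ, 0 < x₁ → x₁ < x₂ → x₂ * f x₂ x₂ < x₁ * f x₁ x₁) →
      0 < xbar →
      f xbar xbar = 1 →
      (∀ y : ℝ, 0 < y → f y y = 1 → y = xbar) →
      (∀ ε : ℝ, 0 < ε → ∃ δ : ℝ, 0 < δ ∧
        ∀ x : ℕ → ℝ, 0 < x 0 → 0 < x 1 →
          (∀ n : ℕ, x (n + 2) = x (n + 1) * f (x (n + 1)) (x n)) →
          |x 0 - xbar| + |x 1 - xbar| < δ →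
          ∀ n : ℕ, |x n - xbar| < ε) →
      (∃ γ : ℝ, 0 < γ ∧
        ∀ x : ℕ → ℝ, 0 < x 0 → 0 < x 1 →
          (∀ n : ℕ, x (n + 2) = x (n + 1) * f (x (n + 1)) (x n)) →
          |x 0 - xbar| + |x 1 - xbar| < γ →
          Tendsto x atTop (𝓝 xbar)) →
      ∀ x : ℕ → ℝ, 0 < x 0 → 0 < x 1 →
        (∀ n : ℕ, x (n + 2) = x (n + 1) * f (x (n + 1)) (x n)) →
        Tendsto x atTop (𝓝 xbar)) := by
  intro H
  have key := H (fun x y => psi y / x) 1 ?_ ?_ ?_ ?_ ?_ one_pos ?_ ?_ ?_ ?_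
    (fun n => if n % 4 < 2 then 3 else 1 / 3) (by norm_num) (by norm_num) ?_
  · have h2 := key.comp (tendsto_id.const_mul_atTop' (show 0 < 4 by norm_num))
    have h3 : ((fun n : ℕ => if n % 4 < 2 then (3 : ℝ) else 1 / 3) ∘ fun x => 4 * id x)
        = fun _ => 3 := by
      funext n
      simp
    rw [h3] at h2
    have := tendsto_nhds_unique h2 tendsto_const_nhds
    norm_num at this
  · unfold psi
    apply ContinuousOn.div
    · apply ContinuousOn.div (by fun_prop) (by fun_prop)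
      rintro ⟨a, b⟩ ⟨_, hb⟩
      have : 0 < b := hb
      positivity
    · fun_prop
    · rintro ⟨a, b⟩ ⟨ha, _⟩
      exact ne_of_gt ha
  · intro x y hx hy
    exact div_pos (psi_pos y hy) hx
  · intro a b y ha hab hy
    exact div_le_div_of_nonneg_left (psi_pos y hy).le ha hab
  · intro x a b hx ha hab
    exact div_lt_div_of_pos_right (psi_anti a b ha hab) hx
  · intro a b ha hab
    have hb : 0 < b := ha.trans hab
    have := psi_anti a b ha hab
    field_simp
    exact this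
  · simp [psi_one]
  · intro y hy h
    have h' : psi y = y := by
      field_simp at h
      exact h
    rcases lt_trichotomy y 1 with h1 | h1 | h1
    · have := psi_anti y 1 hy h1
      rw [psi_one] at this
      linarith
    · exact h1
    · have := psi_anti 1 y one_pos h1
      rw [psi_one] at this
      linarith
  · intro ε hε
    refine ⟨min ε (1 / 20), by positivity, fun x h0 h1 h hd n => ?_⟩
    have hs := step x h0 h1 h
    have := (decay x hs (|x 0 - 1| + |x 1 - 1|) (hd.le.trans (min_le_right _ _))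
      (by linarith [abs_nonneg (x 1 - 1)]) (by linarith [abs_nonneg (x 0 - 1)]) n).2
    exact lt_of_le_of_lt this (lt_of_lt_of_le hd (min_le_left _ _))
  · refine ⟨1 / 20, by norm_num, fun x h0 h1 h hd => ?_⟩
    have hs := step x h0 h1 h
    have hb := fun n => (decay x hs (1 / 20) le_rfl
      (by linarith [abs_nonneg (x 1 - 1)]) (by linarith [abs_nonneg (x 0 - 1)]) n).1
    rw [tendsto_iff_norm_sub_tendsto_zero]
    refine squeeze_zero (fun n => norm_nonneg _) hb ?_
    have := ((tendsto_pow_atTop_nhds_zero_of_lt_one (r := (19 / 20 : ℝ)) (by norm_num)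
      (by norm_num)).const_mul (1 / 20)).mul_const (20 / 19)
    simpa using this
  · intro n
    have h4 : n % 4 = 0 ∨ n % 4 = 1 ∨ n % 4 = 2 ∨ n % 4 = 3 := by omega
    rcases h4 with h | h | h | h
    · simp [Nat.add_mod, h, psi]; norm_num
    · simp [Nat.add_mod, h, psi]; norm_num
    · simp [Nat.add_mod, h, psi]; norm_num
    · simp [Nat.add_mod, h, psi]; norm_num

end Pool.Agent.S05328
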