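import Pool.Statements.S05340
import Pool.Agent.H5.Kink

set_option autoImplicit false
open Pool Pool.MP_8cad90_an

namespace Pool.Agent.S05340

/-- The negation of the preceding statement: Every infinite-dimensional real or complex Banach space E has a subspace G of dimension at least 2 and a nonzero x in E with ‖g + αx‖ ≥ ‖g‖ for all g in G and all scalars α. -/
theorem result :
    ¬ (∀ (𝕜 : Type) [RCLike 𝕜] (E : Type) [NormedAddCommGroup E] [NormedSpace 𝕜 E]
      [CompleteSpace E], ¬ FiniteDimensional 𝕜 E →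
      ∃ G : Submodule 𝕜 E, 2 ≤ Module.rank 𝕜 G ∧
        ∃ x : E, x ≠ 0 ∧ ∀ g ∈ G, ∀ α : 𝕜, ‖g‖ ≤ ‖g + α • x‖) := by
  intro h
  let H := lp (fun _ : ℕ => ℝ) (2 : ENNReal)
  let b : HilbertBasis ℕ ℝ H := default
  have hH : ¬ FiniteDimensional ℝ H := fun _ =>
    Module.Finite.not_linearIndependent_of_infinite _ b.orthonormal.linearIndependent
  haveI : TopologicalSpace.SeparableSpace H := by
    rw [← TopologicalSpace.isSeparable_univ_iff, ← Submodule.top_coe (R := ℝ), ← b.dense_span]
    exact (Set.countable_range b).isSeparable.span.closure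
  let e := TopologicalSpace.denseSeq H
  let F : ℕ → H →L[ℝ] ℝ := fun k => (k : ℝ) • innerSL ℝ (e (Nat.log 4 k))
  have h1 : ∀ (y : H) (k : ℕ), ‖H5.Kink.wt F k • (y, F k y)‖ =
      H5.Kink.wt F k * H5.Kink.term (F k) y := fun y k => by
    rw [norm_smul, Real.norm_of_nonneg (H5.Kink.wt_pos F k).le, Prod.norm_def]
    rfl
  let T : H →ₗ[ℝ] lp (fun _ : ℕ => H × ℝ) (1 : ENNReal) :=
    { toFun := fun y => ⟨fun k => H5.Kink.wt F k • (y, F k y), memℓp_gen (by
        simpa only [h1, ENNReal.toReal_one, Real.rpow_one] using H5.Kink.summable_term F y)⟩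
      map_add' := fun y z => by
        ext1; funext k
        show _ = H5.Kink.wt F k • (y, F k y) + H5.Kink.wt F k • (z, F k z)
        rw [← smul_add, Prod.mk_add_mk, ← map_add]
      map_smul' := fun c y => by
        ext1; funext k
        show H5.Kink.wt F k • (c • y, F k (c • y)) = c • H5.Kink.wt F k • (y, F k y)
        rw [smul_comm, map_smul]
        rfl }
  have hT : ∀ y, ‖T y‖ = H5.Kink.nrm F y := fun y => by
    rw [lp.norm_eq_tsum_rpow (by simp)]
    simp only [ENNReal.toReal_one, Real.rpow_one, div_one]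
    exact tsum_congr fun k => h1 y k
  have hlow : ∀ y, ‖y‖ ≤ (1 / H5.Kink.wt F 0) * ‖T y‖ := fun y => by
    have h2 := lp.norm_apply_le_norm (by simp) (T y) 0
    have h3 : ‖T y 0‖ = _ := h1 y 0
    have h4 := H5.Kink.wt_pos F 0
    have h5 : ‖y‖ ≤ H5.Kink.term (F 0) y := le_max_left _ _
    rw [one_div, ← div_eq_inv_mul, le_div_iff₀ h4]
    nlinarith
  have hup : ∀ y, ‖T y‖ ≤ (1 + H5.Kink.wt F 0) * ‖y‖ := fun y => by
    rw [hT, H5.Kink.nrm, ← (H5.Kink.summable_term F y).sum_add_tsum_nat_add 1,
      Finset.sum_range_one]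
    have h3 := hasSum_le (fun k => ?_)
      ((summable_nat_add_iff 1).2 (H5.Kink.summable_term F y)).hasSum
      ((hasSum_geometric_two' (H5.Kink.wt F 0)).mul_right ‖y‖)
    · have h4 := H5.Kink.term_lip (F 0) y 0
      have h5 : H5.Kink.wt F 0 * (1 + ‖F 0‖) = 1 := by
        rw [H5.Kink.wt]; field_simp
      have h6 := H5.Kink.wt_pos F 0
      simp only [H5.Kink.term, norm_zero, map_zero, abs_zero, max_self, zero_add, sub_zero] at h4
      have h7 : H5.Kink.wt F 0 * H5.Kink.term (F 0) y ≤
          H5.Kink.wt F 0 * ((1 + ‖F 0‖) * ‖y‖) := mul_le_mul_of_nonneg_left h4 h6.le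
      rw [← mul_assoc, h5] at h7
      linarith
    · have h4 := H5.Kink.term_lip (F (k + 1)) y 0
      have h5 := H5.Kink.wt_tail F 0 k
      have h6 := H5.Kink.wt_pos F (k + 1)
      simp only [H5.Kink.term, norm_zero, map_zero, abs_zero, max_self, zero_add, sub_zero]
        at h4 h5 ⊢
      calc _ ≤ H5.Kink.wt F (k + 1) * ((1 + ‖F (k + 1)‖) * ‖y‖) := by gcongr
        _ ≤ _ := by rw [← mul_assoc]; gcongr
  have hinj : Function.Injective T := by
    rw [injective_iff_map_eq_zero]
    intro y hy
    have := hlow y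
    rw [hy, norm_zero, mul_zero] at this
    exact norm_le_zero_iff.1 this
  have hcl : IsClosed (LinearMap.range T : Set (lp (fun _ : ℕ => H × ℝ) (1 : ENNReal))) :=
    ((T.mkContinuous _ hup).antilipschitz_of_bound
      (K := ⟨1 / H5.Kink.wt F 0, (one_div_pos.2 (H5.Kink.wt_pos F 0)).le⟩) hlow).isClosed_range
      (T.mkContinuous _ hup).uniformContinuous
  haveI := hcl.completeSpace_coe
  let U := LinearEquiv.ofInjective T hinj
  obtain ⟨G, hG, x, hx, hGx⟩ := h ℝ (LinearMap.range T) fun _ => hH U.symm.finiteDimensional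
  refine H5.Kink.no_strong e (TopologicalSpace.denseRange_denseSeq H) (G.comap U.toLinearMap)
    (fun f => ?_) (U.symm x) (by simpa using hx) fun g hg α => ?_
  · by_contra h2
    push Not at h2
    have h3 := LinearMap.rank_le_of_injective
      (f.toLinearMap ∘ₗ U.symm.toLinearMap ∘ₗ G.subtype) (by
        rw [injective_iff_map_eq_zero]
        intro w hw
        by_contra h4
        exact h2 (U.symm w.1) (by simp) (by simpa using h4) hw)
    rw [Module.rank_self] at h3
    exact absurd (hG.trans h3) (by norm_num)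
  · have h2 := hGx (U g) hg α
    rw [← hT, ← hT]
    have h3 : U g + α • x = U (g + α • U.symm x) := by simp
    rw [h3] at h2
    exact h2

end Pool.Agent.S05340
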