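import Pool.Statements.S05355
import Pool.Agent.H27.Uz3

set_option autoImplicit false
open Pool Pool.MP_8d66ab_an

namespace Pool.Agent.S05355

/-- For every everywhere-differentiable g from the reals to the reals there is a twice everywhere-differentiable f such that the set of points where f equals g is uncountable. -/
theorem result :
    ∀ g : ℝ → ℝ, Differentiable ℝ g →
      ∃ f : ℝ → ℝ, Differentiable ℝ f ∧ Differentiable ℝ (deriv f) ∧
        ¬ Set.Countable {x : ℝ | f x = g x} := by
  intro g hg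
  obtain ⟨l, hl⟩ : ∃ l : ℝ, 0 < g 1 + g 0 - 2 * g (1 / 2) + l / 2 :=
    ⟨2 * (1 - (g 1 + g 0 - 2 * g (1 / 2))), by linarith⟩
  have hG : Differentiable ℝ fun x => g x + l * x ^ 2 := by fun_prop
  obtain ⟨S, h1, h2⟩ := Pool.Agent.H27.Uz.exS hG (by linarith)
  obtain ⟨F, h3, h4, h5⟩ := Pool.Agent.H27.Uz.core hG.continuous h2 h1
  have hd : ∀ x, HasDerivAt (fun x => F x - l * x ^ 2) (deriv F x - l * (2 * x)) x := fun x =>
    ((h3 x).hasDerivAt.sub (((hasDerivAt_id x).pow 2).const_mul l)).congr_deriv (by simp)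
  refine ⟨fun x => F x - l * x ^ 2, fun x => (hd x).differentiableAt, ?_,
    fun h => h5 (h.mono fun x hx => ?_)⟩
  · rw [show deriv (fun x => F x - l * x ^ 2) = _ from funext fun x => (hd x).deriv]
    exact h4.sub (by fun_prop)
  · have : F x = g x + l * x ^ 2 := hx
    show F x - l * x ^ 2 = g x
    linarith

end Pool.Agent.S05355
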