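import Pool.Statements.S05388
import Pool.Agent.H33.KB2

set_option autoImplicit false
open Pool Pool.MP_90e313_an

namespace Pool.Agent.S05388

open H33.KB

lemma aux {S : Set ℝ} {a : ℝ} (h : a ∈ S) (h0 : 0 ≤ a) : sInf S ≤ a := by
  by_cases hb : BddBelow S
  · exact csInf_le hb h
  · rw [Real.sInf_of_not_bddBelow hb]; exact h0
theorem result :
    ¬ (∀ (𝕜 : Type) [RCLike 𝕜] (E : Type) [NormedAddCommGroup E] [NormedSpace 𝕜 E] [CompleteSpace E],
      (∃ e : ℕ → E, ∀ x : E, ∃! a : ℕ → 𝕜,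
          Filter.Tendsto (fun n : ℕ => ∑ i ∈ Finset.range n, a i • e i) Filter.atTop (nhds x)) →
      ∃ e : ℕ → E,
        (∀ x : E, ∃! a : ℕ → 𝕜,
          Filter.Tendsto (fun n : ℕ => ∑ i ∈ Finset.range n, a i • e i) Filter.atTop (nhds x)) ∧
        ∀ (a : ℕ → 𝕜) (m n : ℕ), m ≤ n →
          ‖∑ i ∈ Finset.range m, a i • e i‖ ≤
            sInf {K : ℝ | ∃ f : ℕ → E,
                (∀ x : E, ∃! b : ℕ → 𝕜,
                  Filter.Tendsto (fun k : ℕ => ∑ i ∈ Finset.range k, b i • f i) Filter.atTop (nhds x)) ∧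
                ∀ (b : ℕ → 𝕜) (p q : ℕ), p ≤ q →
                  ‖∑ i ∈ Finset.range p, b i • f i‖ ≤ K * ‖∑ i ∈ Finset.range q, b i • f i‖} *
              ‖∑ i ∈ Finset.range n, a i • e i‖) := by
  intro h
  obtain ⟨X, _, _, _, U, hU⟩ := exists_space FF
  obtain ⟨e, he, hm⟩ := h ℝ X ⟨fun i => U (ee ((1 : Equiv.Perm ℕ) i)), basis_perm U 1⟩
  refine no_mono U hU e he fun a m n hmn => (hm a m n hmn).trans ?_
  refine mul_le_of_le_one_left (norm_nonneg _) ?_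
  refine le_of_forall_pos_le_add fun δ hδ => ?_
  obtain ⟨σ, hσ⟩ := basis_const U hU δ hδ
  exact aux ⟨fun i => U (ee (σ i)), basis_perm U σ, hσ⟩ (by linarith)

end Pool.Agent.S05388
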