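import Pool.Statements.S05428
import Pool.Agent.H33.Lfin

set_option autoImplicit false
open Pool Pool.MP_935ebb_an

namespace Pool.Agent.S05428

open Pool.Agent.H33.Lfin
theorem result :
    ¬ (∀ (G : Type) [Group G],
      (∃ μ : Set G → ℝ, (∀ A, 0 ≤ μ A) ∧ μ Set.univ = 1 ∧
        (∀ A B : Set G, Disjoint A B → μ (A ∪ B) = μ A + μ B) ∧
        (∀ (g : G) (A : Set G), μ ((fun x => g * x) '' A) = μ A)) →
      ∀ I : Submodule ℂ (lp (fun _ : G => ℂ) 1),
        IsClosed (I : Set (lp (fun _ : G => ℂ) 1)) →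
        (∀ f g : lp (fun _ : G => ℂ) 1, g ∈ I → ∀ h : lp (fun _ : G => ℂ) 1,
          (∀ x : G, h x = ∑' y : G, f y * g (y⁻¹ * x)) → h ∈ I) →
        (∀ f g : lp (fun _ : G => ℂ) 1, g ∈ I → ∀ h : lp (fun _ : G => ℂ) 1,
          (∀ x : G, h x = ∑' y : G, g y * f (y⁻¹ * x)) → h ∈ I) →
        (∀ H : Subgroup G, (∀ a ∈ H, ∀ b ∈ H, a * b = b * a) →
          ∃ s : Finset (lp (fun _ : G => ℂ) 1),
            (∀ v ∈ s, ∀ x : G, x ∉ H → v x = 0) ∧
            ∀ f : lp (fun _ : G => ℂ) 1, (∀ x : G, x ∉ H → f x = 0) →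
              f ∈ I ⊔ Submodule.span ℂ (s : Set (lp (fun _ : G => ℂ) 1))) →
        FiniteDimensional ℂ (lp (fun _ : G => ℂ) 1 ⧸ I)) := by
  intro h
  classical
  let Φ : L →ₗ[ℂ] (ℕ → ℂ) := LinearMap.pi fun i => (chi i).toLinearMap
  have mem : ∀ f, f ∈ LinearMap.ker Φ ↔ ∀ i, chi i f = 0 := fun f => funext_iff
  have cs : ∀ i y, chi i (lp.single 1 y 1) = sg (y.v i) := fun i y => pairing_single _ _ y
  have := h G (amen locfin) (LinearMap.ker Φ) ?_ ?_ ?_ ?_
  · have h1 := (LinearMap.quotKerEquivRange Φ).finiteDimensional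
    have h2 : ∀ i : ℕ, Pi.single i (1 : ℂ) ∈ LinearMap.range Φ := fun i => by
      refine ⟨(1 / 2 : ℂ) • (lp.single 1 1 1 - lp.single 1 ⟨Pi.single i 1, 0⟩ 1), funext fun j => ?_⟩
      change chi j _ = _
      rw [map_smul, map_sub, cs, cs]
      by_cases e : j = i <;> simp [sg, e]
      norm_num
    have h3 : LinearIndependent ℂ fun i : ℕ => (⟨_, h2 i⟩ : LinearMap.range Φ) :=
      LinearIndependent.of_comp (LinearMap.range Φ).subtype (Pi.linearIndependent_single_one ℕ ℂ)
    exact Module.Finite.not_linearIndependent_of_infinite _ h3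
  · have : (LinearMap.ker Φ : Set L) = ⋂ i, {f | chi i f = 0} := by ext f; simp [mem]
    exact this ▸ isClosed_iInter fun i => isClosed_eq (chi i).continuous continuous_const
  · intro f g hg k e
    exact (mem k).2 fun i => by rw [chi_conv i f g k e, (mem g).1 hg, mul_zero]
  · intro f g hg k e
    exact (mem k).2 fun i => by rw [chi_conv i g f k e, (mem g).1 hg, zero_mul]
  · intro H hH
    obtain ⟨x, hx, h0⟩ : ∃ x ∈ H, ∀ y ∈ H, y.v = 0 ∨ y.v = x.v := by
      by_cases e : ∃ x ∈ H, x.v ≠ 0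
      · obtain ⟨x, hx, e⟩ := e
        exact ⟨x, hx, fun y hy => comm (hH x hx y hy) e⟩
      · push Not at e
        exact ⟨1, H.one_mem, fun y hy => Or.inl (e y hy)⟩
    refine ⟨{lp.single 1 1 1, lp.single 1 x 1}, fun v hv y hy => ?_, fun f hf => ?_⟩
    · simp only [Finset.mem_insert, Finset.mem_singleton] at hv
      rcases hv with rfl | rfl
      · exact lp.single_apply_ne _ _ _ fun e => hy (e ▸ H.one_mem)
      · exact lp.single_apply_ne _ _ _ fun e => hy (e ▸ hx)
    · have b0 : ∀ y : G, ‖(if y.v = 0 then 1 else 0 : ℂ)‖ ≤ 1 := fun y => by split_ifs <;> simp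
      have b1 : ∀ y : G, ‖(if y.v = 0 then 0 else 1 : ℂ)‖ ≤ 1 := fun y => by split_ifs <;> simp
      let w : L := pairing _ b0 f • lp.single 1 1 1 + pairing _ b1 f • lp.single 1 x 1
      rw [← sub_add_cancel f w]
      refine Submodule.add_mem_sup ((mem _).2 fun i => ?_) (Submodule.add_mem _
        (Submodule.smul_mem _ _ (Submodule.subset_span (by simp)))
        (Submodule.smul_mem _ _ (Submodule.subset_span (by simp))))
      rw [map_sub, map_add, map_smul, map_smul, cs, cs, sub_eq_zero]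
      simp only [chi, pairing_apply, smul_eq_mul, ← tsum_mul_right]
      rw [← ((sn' f _ b0).of_norm.mul_right _).tsum_add ((sn' f _ b1).of_norm.mul_right _)]
      refine tsum_congr fun y => ?_
      by_cases hy : y ∈ H
      · by_cases e : y.v = 0
        · simp [e]
        · rw [if_neg e, if_neg e, (h0 y hy).resolve_left e]; simp
      · simp [hf y hy]

end Pool.Agent.S05428
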