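import Pool.Statements.S05460


set_option autoImplicit false
open Pool Pool.MP_95bae3_an

namespace Pool.Agent.S05460

open BoundedContinuousFunction Equiv

def GG : Subgroup (Perm ℕ) where
  carrier := {σ | ∃ N, ∀ n, N ≤ n → σ n = n}
  mul_mem' := by
    rintro a b ⟨N, hN⟩ ⟨M, hM⟩
    exact ⟨N + M, fun n hn => by rw [Perm.mul_apply, hM n (by omega), hN n (by omega)]⟩
  one_mem' := ⟨0, fun _ _ => rfl⟩
  inv_mem' := by
    rintro a ⟨N, hN⟩
    exact ⟨N, fun n hn => by rw [Perm.inv_eq_iff_eq, hN n hn]⟩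

def lev (N : ℕ) : Set GG := {σ | ∀ n, N ≤ n → (σ : Perm ℕ) n = n}

lemma lev_fin (N : ℕ) : (lev N).Finite := by
  have key : ∀ σ ∈ lev N, ∀ i, i < N → (σ : Perm ℕ) i < N := by
    intro σ hσ i hi
    by_contra hc
    have := (σ : Perm ℕ).injective (hσ _ (not_lt.1 hc))
    omega
  refine Set.Finite.of_finite_image (f := fun (σ : GG) (i : Fin N) => (σ : Perm ℕ) i) ?_ ?_
  · refine (Set.Finite.pi' (fun _ : Fin N => Set.finite_Iio N)).subset ?_
    rintro _ ⟨σ, hσ, rfl⟩ i
    exact key σ hσ i i.2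
  · intro σ hσ τ hτ h
    ext n
    by_cases hn : n < N
    · exact congrFun h ⟨n, hn⟩
    · rw [hσ n (not_lt.1 hn), hτ n (not_lt.1 hn)]

instance : Countable GG := by
  rw [← Set.countable_univ_iff]
  refine (Set.countable_iUnion fun N => (lev_fin N).countable).mono ?_
  rintro ⟨σ, N, hN⟩ -
  exact Set.mem_iUnion.2 ⟨N, hN⟩

lemma folner (F : Finset GG) (ε : ℝ) (hε : 0 < ε) : ∃ A : Set GG, A.Finite ∧ A.Nonempty ∧
    ∀ g ∈ F, ((symmDiff ((fun x => g * x) '' A) A).ncard : ℝ) < ε * (A.ncard : ℝ) := by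
  choose M hM using fun g : GG => g.2
  have hne : (lev (F.sup M)).Nonempty := ⟨1, fun _ _ => rfl⟩
  refine ⟨lev (F.sup M), lev_fin _, hne, fun g hg => ?_⟩
  have hg' : ∀ n, F.sup M ≤ n → (g : Perm ℕ) n = n :=
    fun n hn => hM g n ((Finset.le_sup hg).trans hn)
  have : (fun x => g * x) '' lev (F.sup M) = lev (F.sup M) := by
    ext σ
    constructor
    · rintro ⟨τ, hτ, rfl⟩ n hn
      simp [hτ n hn, hg' n hn]
    · intro hσ
      refine ⟨g⁻¹ * σ, fun n hn => ?_, by simp⟩
      simp only [Subgroup.coe_mul, Subgroup.coe_inv, Perm.mul_apply, hσ n hn]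
      rw [Perm.inv_eq_iff_eq, hg' n hn]
  rw [this, symmDiff_self]
  have := (Set.ncard_pos (lev_fin _)).2 hne
  simp only [Set.bot_eq_empty, Set.ncard_empty, Nat.cast_zero]
  positivity

noncomputable def act (g : GG) : (ℕ →ᵇ ℝ) →L[ℝ] (ℕ →ᵇ ℝ) :=
  compContinuousCLM ℝ ℝ ⟨((g⁻¹ : GG) : Perm ℕ), continuous_of_discreteTopology⟩

lemma act_apply (g : GG) (f : ℕ →ᵇ ℝ) (n : ℕ) : act g f n = f (((g⁻¹ : GG) : Perm ℕ) n) := rfl

lemma act_mul (g h : GG) (f : ℕ →ᵇ ℝ) : act (g * h) f = act g (act h f) := by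
  ext n; simp [act_apply]

lemma act_one (f : ℕ →ᵇ ℝ) : act 1 f = f := by
  ext n; simp [act_apply]

lemma act_norm (g : GG) (f : ℕ →ᵇ ℝ) : ‖act g f‖ ≤ ‖f‖ := norm_compContinuous_le _ _

noncomputable def ev (c : ℝ) : ℕ →ᵇ ℝ :=
  ofNormedAddCommGroupDiscrete (fun n => if n = 0 then c else if n % 2 = 0 then 1 else 0)
    (|c| + 1) (fun n => by
      have := abs_nonneg c
      split_ifs <;> simp <;> linarith)

lemma ev_apply (c : ℝ) (n : ℕ) :
    ev c n = if n = 0 then c else if n % 2 = 0 then 1 else 0 := rfl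

noncomputable def XX : Submodule ℝ (ℕ →ᵇ ℝ) :=
  (Submodule.span ℝ (Set.range fun p : GG × ℚ => act p.1 (ev p.2))).topologicalClosure

lemma act_mem (g : GG) {f : ℕ →ᵇ ℝ} (hf : f ∈ XX) : act g f ∈ XX := by
  have : XX ≤ XX.comap (act g).toLinearMap := by
    refine Submodule.topologicalClosure_minimal _ (Submodule.span_le.2 ?_)
      ((Submodule.isClosed_topologicalClosure _).preimage (act g).continuous)
    rintro _ ⟨p, rfl⟩
    refine Submodule.le_topologicalClosure _ (Submodule.subset_span ⟨(g * p.1, p.2), ?_⟩)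
    exact act_mul _ _ _
  exact this hf

lemma ev_mem (c : ℚ) : ev c ∈ XX :=
  Submodule.le_topologicalClosure _ (Submodule.subset_span ⟨(1, c), act_one _⟩)

noncomputable def rho1 (g : GG) : XX ≃ₗᵢ[ℝ] XX where
  toFun f := ⟨act g f, act_mem g f.2⟩
  invFun f := ⟨act g⁻¹ f, act_mem _ f.2⟩
  map_add' f h := Subtype.ext (map_add _ _ _)
  map_smul' c f := Subtype.ext (map_smul _ _ _)
  left_inv f := Subtype.ext (by simp only [← act_mul, inv_mul_cancel, act_one])
  right_inv f := Subtype.ext (by simp only [← act_mul, mul_inv_cancel, act_one])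
  norm_map' f := by
    refine le_antisymm (act_norm g f) ?_
    have := act_norm g⁻¹ (act g f)
    rw [← act_mul, inv_mul_cancel, act_one] at this
    exact this

noncomputable def rho : GG →* (XX ≃ₗᵢ[ℝ] XX) where
  toFun := rho1
  map_one' := by ext f : 1; exact Subtype.ext (act_one _)
  map_mul' g h := by ext f : 1; exact Subtype.ext (act_mul _ _ _)

def sw (k : ℕ) : GG := ⟨swap 0 k, k + 1, fun n hn => swap_apply_of_ne_of_ne (by omega) (by omega)⟩

lemma sum_norm (v m : XX) (s : ℕ → ℕ) (hs : Function.Injective s)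
    (h : ∀ j p, |(v : ℕ →ᵇ ℝ) p - act (sw (s j)) m p| ≤ if p = s j then 1 else 0) (n : ℕ) :
    ‖∑ j ∈ Finset.range n, (v - rho (sw (s j)) m)‖ ≤ 1 := by
  rw [← Submodule.norm_coe, Submodule.coe_sum]
  refine (norm_le zero_le_one).2 fun p => ?_
  rw [BoundedContinuousFunction.sum_apply]
  refine (norm_sum_le _ _).trans ((Finset.sum_le_sum fun j _ => h j p).trans ?_)
  rw [Finset.sum_boole]
  norm_cast
  refine Finset.card_le_one.2 fun a ha b hb => hs ?_
  rw [← (Finset.mem_filter.1 ha).2, ← (Finset.mem_filter.1 hb).2]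


/-- The negation of the preceding statement: Every countable group satisfying the Følner condition, acting by linear isometries on a separable real Banach space, admits an equivalent norm that is invariant under the action and strictly convex. -/
theorem result :
    ¬ (∀ (G : Type) [Group G] [Countable G],
      (∀ (F : Finset G) (ε : ℝ), 0 < ε → ∃ A : Set G, A.Finite ∧ A.Nonempty ∧
          ∀ g ∈ F, ((symmDiff ((fun x => g * x) '' A) A).ncard : ℝ) < ε * (A.ncard : ℝ)) →
      ∀ (X : Type) [NormedAddCommGroup X] [NormedSpace ℝ X] [CompleteSpace X]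
        [TopologicalSpace.SeparableSpace X] (ρ : G →* (X ≃ₗᵢ[ℝ] X)),
      ∃ N : X → ℝ,
        (∀ x y : X, N (x + y) ≤ N x + N y) ∧
        (∀ (c : ℝ) (x : X), N (c • x) = |c| * N x) ∧
        (∃ a b : ℝ, 0 < a ∧ 0 < b ∧ ∀ x : X, a * ‖x‖ ≤ N x ∧ N x ≤ b * ‖x‖) ∧
        (∀ (g : G) (x : X), N (ρ g x) = N x) ∧
        (∀ x y : X, N x = 1 → N y = 1 → x ≠ y → N ((1 / 2 : ℝ) • (x + y)) < 1)) := by
  intro H
  have hc : CompleteSpace XX := (Submodule.isClosed_topologicalClosure _).completeSpace_coe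
  have hsep : TopologicalSpace.SeparableSpace XX :=
    ((Set.countable_range _).isSeparable.span.closure).separableSpace
  obtain ⟨N, h1, h2, ⟨a, b, ha, hb, h3⟩, h4, h5⟩ := H GG folner XX rho
  clear H
  have h0 : N 0 = 0 := by simpa using h2 0 0
  have hsum : ∀ (n : ℕ) (u : ℕ → XX),
      N (∑ j ∈ Finset.range n, u j) ≤ ∑ j ∈ Finset.range n, N (u j) := fun n u =>
    Finset.le_sum_of_subadditive N h0.le h1 _ _
  have key : ∀ (v m : XX) (s : ℕ → ℕ), Function.Injective s →
      (∀ j p, |(v : ℕ →ᵇ ℝ) p - act (sw (s j)) m p| ≤ if p = s j then 1 else 0) → N v ≤ N m := by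
    intro v m s hs h
    refine le_of_forall_pos_le_add fun ε hε => ?_
    obtain ⟨n, hn⟩ := exists_nat_gt (b / ε)
    have hn0 : (0 : ℝ) < n := lt_trans (by positivity) hn
    have e : (n : ℝ) • v = ∑ j ∈ Finset.range n, (v - rho (sw (s j)) m) +
        ∑ j ∈ Finset.range n, rho (sw (s j)) m := by
      rw [← Finset.sum_add_distrib]
      have : ∀ w : XX, v - w + w = v := fun w => Subtype.ext (sub_add_cancel _ _)
      simp [Nat.cast_smul_eq_nsmul, this]
    have k1 := h1 (∑ j ∈ Finset.range n, (v - rho (sw (s j)) m))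
      (∑ j ∈ Finset.range n, rho (sw (s j)) m)
    rw [← e, h2, abs_of_pos hn0] at k1
    have k2 := hsum n fun j => rho (sw (s j)) m
    simp only [h4, Finset.sum_const, Finset.card_range, nsmul_eq_mul] at k2
    have k3 := (h3 (∑ j ∈ Finset.range n, (v - rho (sw (s j)) m))).2
    have k4 := mul_le_mul_of_nonneg_left (sum_norm v m s hs h n) hb.le
    rw [div_lt_iff₀ hε] at hn
    have : n * N v ≤ n * (N m + ε) := by linarith
    exact le_of_mul_le_mul_left this hn0
  let x : XX := ⟨ev (1 : ℚ), ev_mem 1⟩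
  let y : XX := ⟨ev (0 : ℚ), ev_mem 0⟩
  let m : XX := ⟨ev (1 / 2 : ℚ), ev_mem _⟩
  have hm : m = (1 / 2 : ℝ) • (x + y) := by
    refine Subtype.ext (BoundedContinuousFunction.ext fun p => ?_)
    simp only [m, x, y, Submodule.coe_smul, Submodule.coe_add, BoundedContinuousFunction.smul_apply,
      BoundedContinuousFunction.add_apply, ev_apply]
    split_ifs <;> norm_num
  have hx : N x ≤ N m := key x m (fun j => 2 * j + 2) (fun i j h => by simpa using h) fun j p => by
    simp only [x, m, act_apply, sw, Subgroup.coe_inv, swap_inv, ev_apply, swap_apply_def]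
    split_ifs <;> first | omega | contradiction | norm_num
  have hy : N y ≤ N m := key y m (fun j => 2 * j + 1) (fun i j h => by simpa using h) fun j p => by
    simp only [y, m, act_apply, sw, Subgroup.coe_inv, swap_inv, ev_apply, swap_apply_def]
    split_ifs <;> first | omega | contradiction | norm_num
  have hxy : N m ≤ 1 / 2 * (N x + N y) := by
    rw [hm, h2, abs_of_pos (by norm_num)]
    linarith [h1 x y]
  have hne : x ≠ y := fun h => by
    have := congrArg (fun f : XX => (f : ℕ →ᵇ ℝ) 0) h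
    simp [x, y, ev_apply] at this
  have hx0 : x ≠ 0 := fun h => by
    have := congrArg (fun f : XX => (f : ℕ →ᵇ ℝ) 0) h
    simp [x, ev_apply] at this
  have hpos : 0 < N x := lt_of_lt_of_le (mul_pos ha ((norm_pos_iff (E := XX)).2 hx0)) (h3 x).1
  have hi : 0 < (N x)⁻¹ := inv_pos.2 hpos
  have := h5 ((N x)⁻¹ • x) ((N x)⁻¹ • y) (by rw [h2, abs_of_pos hi]; field_simp)
    (by rw [h2, abs_of_pos hi, show N y = N x by linarith]; field_simp)
    (fun h => hne (smul_right_injective _ hi.ne' h))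
  rw [← smul_add, smul_comm, ← hm, h2, abs_of_pos hi, show N m = N x by linarith,
    inv_mul_cancel₀ hpos.ne'] at this
  exact lt_irrefl _ this

end Pool.Agent.S05460
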