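import Pool.Statements.S05490
import Pool.Agent.H33.KB2

set_option autoImplicit false
open Filter Topology
open Pool Pool.MP_97ee8d_an

namespace Pool.Agent.S05490

open H33.KB
theorem result :
    ¬ (∀ (𝕜 : Type) [RCLike 𝕜] (E : Type) [NormedAddCommGroup E] [NormedSpace 𝕜 E]
      [CompleteSpace E],
      (∃ P : ℕ → E →L[𝕜] E,
          (∀ n, FiniteDimensional 𝕜 (LinearMap.range (P n : E →ₗ[𝕜] E))) ∧
          (∀ n m, (P n).comp (P m) = P (min n m)) ∧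
          (∀ x : E, Tendsto (fun n => P n x) atTop (𝓝 x))) →
      ∃ P : ℕ → E →L[𝕜] E,
        ((∀ n, FiniteDimensional 𝕜 (LinearMap.range (P n : E →ₗ[𝕜] E))) ∧
          (∀ n m, (P n).comp (P m) = P (min n m)) ∧
          (∀ x : E, Tendsto (fun n => P n x) atTop (𝓝 x))) ∧
        ∀ Q : ℕ → E →L[𝕜] E,
          ((∀ n, FiniteDimensional 𝕜 (LinearMap.range (Q n : E →ₗ[𝕜] E))) ∧
            (∀ n m, (Q n).comp (Q m) = Q (min n m)) ∧
            (∀ x : E, Tendsto (fun n => Q n x) atTop (𝓝 x))) →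
          ∀ c : ℝ, (∀ m, ‖Q m‖ ≤ c) → ∀ n, ‖P n‖ ≤ c) := by
  intro h
  obtain ⟨X, _, _, _, U, hU⟩ := exists_space FF
  have hQ : ∀ M, (∀ n, FiniteDimensional ℝ
        (LinearMap.range (QQ U (Finset.range (n + M)) : X →ₗ[ℝ] X))) ∧
      (∀ n m, (QQ U (Finset.range (n + M))).comp (QQ U (Finset.range (m + M)))
        = QQ U (Finset.range (min n m + M))) ∧
      (∀ x : X, Tendsto (fun n => QQ U (Finset.range (n + M)) x) atTop (𝓝 x)) := fun M =>
    ⟨fun n => QQ_fd U _, fun n m => by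
      rw [QQ_comp, Finset.range_inter_range, min_add_add_right], QQ_tend U M⟩
  obtain ⟨P, ⟨h1, h2, h3⟩, h4⟩ := h ℝ X ⟨_, hQ 0⟩
  have h5 : ∀ n, ‖P n‖ ≤ 1 := fun n => le_of_forall_pos_le_add fun δ hδ => by
    obtain ⟨M, hM⟩ := QQ_norm U hU δ hδ
    exact h4 _ (hQ M) _ hM n
  have h6 : ∀ x : X, ∀ᶠ n in atTop, ‖P n x - x‖ ≤ 1 / 4 := fun x =>
    (tendsto_iff_norm_sub_tendsto_zero.mp (h3 x)).eventually (ge_mem_nhds (by norm_num))
  obtain ⟨n, a, b⟩ := ((h6 (U (ee 0))).and (h6 (U (ee 1)))).exists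
  exact no_proj U hU (P n) (h1 n) (by simpa using h2 n n) (h5 n) a b

end Pool.Agent.S05490
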