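import Pool.Statements.S05524
import Pool.Agent.H26.InvSC

set_option autoImplicit false
open Pool Pool.MP_9b0ce4_an

namespace Pool.Agent.S05524

open Pool.Agent.H26.InvSC in

/-- The negation of the preceding statement: There is a separable real Banach space with a surjective linear isometry T such that no equivalent norm on the space is both T-invariant and strictly convex. -/
theorem result :
    ¬ (∃ (X : Type) (_ : NormedAddCommGroup X) (_ : NormedSpace ℝ X),
      CompleteSpace X ∧ TopologicalSpace.SeparableSpace X ∧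
      ∃ T : X ≃ₗᵢ[ℝ] X,
        ¬ ∃ N : X → ℝ,
          (∀ x y : X, N (x + y) ≤ N x + N y) ∧
          (∀ (r : ℝ) (x : X), N (r • x) = |r| * N x) ∧
          (∃ c C : ℝ, 0 < c ∧ 0 < C ∧ ∀ x : X, c * ‖x‖ ≤ N x ∧ N x ≤ C * ‖x‖) ∧
          (∀ x : X, N (T x) = N x) ∧
          (∀ x y : X, N x = 1 → N y = 1 → x ≠ y → N (x + y) < 2)) := by
  rintro ⟨X, _, _, _, _, T, hT⟩
  apply hT
  let A : Set (X →L[ℝ] X) := {(T : X →L[ℝ] X), (T.symm : X →L[ℝ] X)}
  have hA : ∀ S ∈ A, ∀ S' ∈ A, S * S' = S' * S := by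
    rintro S (rfl | rfl) S' (rfl | rfl) <;> ext z <;> simp
  have hn : ∀ S ∈ A, ‖S‖ ≤ 1 := by
    rintro S (rfl | rfl)
    · exact ContinuousLinearMap.opNorm_le_bound _ zero_le_one fun z => by simp
    · exact ContinuousLinearMap.opNorm_le_bound _ zero_le_one fun z => by simp
  obtain ⟨N, h1, h2, h3, h4, h5⟩ := build (X := X)
    (fun q => (∀ z, q z ≤ ‖z‖) ∧ (∀ S ∈ A, ∀ z, q (S z) ≤ q z)) ⟨fun z => by simp, fun _ _ _ => by simp⟩
    (fun q hq => hq.1) (fun x y h => by
      obtain ⟨q, a, b, c⟩ := separate A hA hn x y h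
      exact ⟨q, ⟨a, b⟩, c⟩)
  refine ⟨N, h1, h2, ⟨1, 2, one_pos, two_pos, fun x => by simpa using h3 x⟩, fun x => ?_, h5⟩
  refine h4 _ _ (by simp) fun q hq => le_antisymm (hq.2 _ (Or.inl rfl) x) ?_
  simpa using hq.2 _ (Or.inr rfl) (T x)

end Pool.Agent.S05524
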