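import Pool.Statements.S05534
import Pool.Agent.H29.Tail6

set_option autoImplicit false
open Pool Pool.MP_9c3653_an

namespace Pool.Agent.S05534

/-- The negation of the preceding statement: In every real Banach space, each maximally monotone operator with convex domain is of type (FPV). That is, for any open convex U meeting its domain, any pair (x,f) with x in U that is monotonically related to the graph over U already lies in the graph. -/
theorem result :
    ¬ (∀ (X : Type) [NormedAddCommGroup X] [NormedSpace ℝ X] [CompleteSpace X]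
      (A : X → Set (X →L[ℝ] ℝ)),
      (∀ x y : X, ∀ f ∈ A x, ∀ g ∈ A y, 0 ≤ (f - g) (x - y)) →
      (∀ (x : X) (f : X →L[ℝ] ℝ),
          (∀ y : X, ∀ g ∈ A y, 0 ≤ (f - g) (x - y)) → f ∈ A x) →
      Convex ℝ {x : X | (A x).Nonempty} →
      ∀ U : Set X, IsOpen U → Convex ℝ U →
        (U ∩ {x : X | (A x).Nonempty}).Nonempty →
        ∀ x ∈ U, ∀ f : X →L[ℝ] ℝ,
          (∀ y ∈ U, ∀ g ∈ A y, 0 ≤ (f - g) (x - y)) → f ∈ A x) := by
  intro H
  obtain ⟨A, φ, mo, mx, cv, -, ⟨q, f, h1, h2⟩, p, g, h3, h4, h5⟩ := H29.Tail.conv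
  exact h5 g (H _ A (fun p q g hg h hh => mo p q g h hg hh) (fun p g h => mx p g h) cv
    {p | 0 < φ p} (isOpen_lt continuous_const φ.continuous)
    (convex_halfSpace_gt φ.toLinearMap.isLinear _) ⟨q, h2, f, h1⟩ p h3 g
    fun q hq h hh => h4 q h hq hh)

end Pool.Agent.S05534
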