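import Pool.Statements.S05544
import Pool.Agent.H29.Tail4

set_option autoImplicit false
open Pool Pool.MP_9cd69f_an

namespace Pool.Agent.S05544

/-- The negation of the preceding statement: On a real Banach space, take A a maximally monotone operator into the dual whose graph is a linear subspace, and B maximally monotone, with the positive cone of dom A minus dom B equal to the whole space; then A+B is maximally monotone. -/
theorem result :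
    ¬ (∀ (X : Type) [NormedAddCommGroup X] [NormedSpace ℝ X] [CompleteSpace X]
    (A B : X → Set (X →L[ℝ] ℝ)),
    (∃ S : Submodule ℝ (X × (X →L[ℝ] ℝ)), ∀ (x : X) (f : X →L[ℝ] ℝ), f ∈ A x ↔ (x, f) ∈ S) →
    ((∀ (x y : X) (f g : X →L[ℝ] ℝ), f ∈ A x → g ∈ A y → 0 ≤ (f - g) (x - y)) ∧
      (∀ (x : X) (f : X →L[ℝ] ℝ),
        (∀ (y : X) (g : X →L[ℝ] ℝ), g ∈ A y → 0 ≤ (f - g) (x - y)) → f ∈ A x)) →
    ((∀ (x y : X) (f g : X →L[ℝ] ℝ), f ∈ B x → g ∈ B y → 0 ≤ (f - g) (x - y)) ∧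
      (∀ (x : X) (f : X →L[ℝ] ℝ),
        (∀ (y : X) (g : X →L[ℝ] ℝ), g ∈ B y → 0 ≤ (f - g) (x - y)) → f ∈ B x)) →
    (∀ z : X, ∃ t : ℝ, 0 < t ∧ ∃ a b : X, (A a).Nonempty ∧ (B b).Nonempty ∧ z = t • (a - b)) →
    ((∀ (x y : X) (f g : X →L[ℝ] ℝ),
        (∃ f₁ ∈ A x, ∃ f₂ ∈ B x, f = f₁ + f₂) →
        (∃ g₁ ∈ A y, ∃ g₂ ∈ B y, g = g₁ + g₂) → 0 ≤ (f - g) (x - y)) ∧
      (∀ (x : X) (f : X →L[ℝ] ℝ),
        (∀ (y : X) (g : X →L[ℝ] ℝ), (∃ g₁ ∈ A y, ∃ g₂ ∈ B y, g = g₁ + g₂) →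
          0 ≤ (f - g) (x - y)) →
        ∃ f₁ ∈ A x, ∃ f₂ ∈ B x, f = f₁ + f₂))) := by
  intro H
  obtain ⟨A, mo, mx, gp, ⟨y, f, h1⟩, -, -, x, g, h⟩ := H29.Tail.gap
  obtain ⟨-, -, u, hu, -⟩ := (H _ (fun p => {H29.Tail.ell p}) A
    ⟨H29.Tail.ell.toLinearMap.graph, fun p a => (LinearMap.mem_graph_iff _ (p, a)).symm⟩
    ⟨fun p q a b ha hb => by
      rw [show a = _ from ha, show b = _ from hb]; exact H29.Tail.ell_mono p q,
      fun p a ha => H29.Tail.ell_max fun q => ha q _ rfl⟩ ⟨mo, mx⟩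
    fun z => ⟨1, one_pos, z + (y, -1), (y, -1), ⟨_, rfl⟩, ⟨f, h1⟩, by simp⟩).2 (x, 1 / 2) g (by
      rintro q _ ⟨_, rfl, b, hb, rfl⟩
      exact h q b hb)
  have := gp _ _ hu
  norm_num at this

end Pool.Agent.S05544
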