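import Pool.Statements.S05635
import Pool.Agent.H1.MY3

set_option autoImplicit false
open scoped ContDiff
open Pool Pool.MP_a1b43b_an

namespace Pool.Agent.S05635

/-- There is a C^∞ vector field F on R^3 with F(0)=0, all complex eigenvalues of its Jacobian at every point having negative real part, and a non-constant periodic solution of x' = F(x). -/
theorem result :
    ∃ F : (Fin 3 → ℝ) → (Fin 3 → ℝ),
      ContDiff ℝ ∞ F ∧ F 0 = 0 ∧
      (∀ (x : Fin 3 → ℝ) (z : ℂ),
        Polynomial.aeval z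
            (LinearMap.toMatrix' (fderiv ℝ F x).toLinearMap).charpoly = 0 →
          z.re < 0) ∧
      ∃ γ : ℝ → (Fin 3 → ℝ), ∃ T : ℝ, 0 < T ∧
        (∀ t : ℝ, HasDerivAt γ (F (γ t)) t) ∧
        (∀ t : ℝ, γ (t + T) = γ t) ∧
        ∃ t : ℝ, γ t ≠ γ 0 := by
  open Pool.Agent.H1.MY3 in
  exact ⟨F, smooth, F0, eig, gam, 2 * Real.pi / om, div_pos Real.two_pi_pos om_pos, gam_deriv,
    gam_per, _, gam_ne⟩

end Pool.Agent.S05635
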