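import Pool.Statements.S05651
import Pool.Agent.H15.WF5

set_option autoImplicit false
open MeasureTheory Filter
open Pool Pool.MP_a2ac39_an

namespace Pool.Agent.S05651

theorem result :
  ∃ (μ : Measure ℂ) (K : Set ℂ) (ν : Measure ℂ),
    IsProbabilityMeasure μ ∧ NoAtoms μ ∧
    IsCompact K ∧ μ Kᶜ = 0 ∧
    (∀ U : Set ℂ, IsOpen U → (U ∩ K).Nonempty → 0 < μ U) ∧
    IsProbabilityMeasure ν ∧ ν Kᶜ = 0 ∧ NoAtoms ν ∧
    Integrable (fun p : ℂ × ℂ => Real.log ‖p.1 - p.2‖) (ν.prod ν) ∧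
    (∀ ρ : Measure ℂ, IsProbabilityMeasure ρ → ρ Kᶜ = 0 → NoAtoms ρ →
      Integrable (fun p : ℂ × ℂ => Real.log ‖p.1 - p.2‖) (ρ.prod ρ) →
      ∫ p, Real.log ‖p.1 - p.2‖ ∂(ρ.prod ρ) ≤ ∫ p, Real.log ‖p.1 - p.2‖ ∂(ν.prod ν)) ∧
    μ.MutuallySingular ν ∧
    ∃ c : ℝ, 0 < c ∧ ∀ᶠ n : ℕ in atTop,
      c ≤ (⨅ P : {P : Polynomial ℂ // P.Monic ∧ P.natDegree = n},
            Real.sqrt (∫ z, ‖P.1.eval z‖ ^ 2 ∂μ)) /
          Real.exp (∫ p, Real.log ‖p.1 - p.2‖ ∂(ν.prod ν)) ^ n := by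
  have n1 := Pool.Agent.H15.WF5.mes_noAtoms Pool.Agent.H15.WF3.s1 Pool.Agent.H15.WF3.cnt1
  have n2 := Pool.Agent.H15.WF5.mes_noAtoms Pool.Agent.H15.WF3.s2 Pool.Agent.H15.WF3.cnt2'
  have hc := Pool.Agent.H15.WF5.cross (Pool.Agent.H15.WF5.mes Pool.Agent.H15.WF3.s2)
    (Pool.Agent.H15.WF5.mes_compl _)
  refine ⟨Pool.Agent.H15.WF5.mes Pool.Agent.H15.WF3.s1, Pool.Agent.H15.WF5.KK,
    Pool.Agent.H15.WF5.mes Pool.Agent.H15.WF3.s2, inferInstance, n1,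
    Pool.Agent.H15.WF5.KK_compact, Pool.Agent.H15.WF5.mes_compl _, Pool.Agent.H15.WF5.mes_supp,
    inferInstance, Pool.Agent.H15.WF5.mes_compl _, n2, hc.1, ?_, Pool.Agent.H15.WF5.sing,
    1, zero_lt_one, Eventually.of_forall fun n => ?_⟩
  · intro ρ h1 h2 h3 h4
    have h5 : NullSingletonClass ρ := h3
    rw [hc.2]
    exact Pool.Agent.H15.WF5.maxi ρ h2 h4
  · rw [hc.2, Real.exp_zero, one_pow, div_one]
    have : Nonempty {P : Polynomial ℂ // P.Monic ∧ P.natDegree = n} :=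
      ⟨⟨Polynomial.X ^ n, Polynomial.monic_X_pow n, Polynomial.natDegree_X_pow n⟩⟩
    exact le_ciInf fun P => Pool.Agent.H15.WF5.wid P.1 P.2.1

end Pool.Agent.S05651
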