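import Pool.Statements.S05654
import Pool.Agent.H27.Kap2

set_option autoImplicit false
open Filter Topology
open Pool Pool.MP_a2b00d_an

namespace Pool.Agent.S05654

/-- The negation of the preceding statement: Every ℓ¹-null sequence in the augmentation ideal of ℓ¹ of the countably generated free group factors as one ideal element a convolved with an ℓ¹-null sequence from the ideal. -/
theorem result :
    ¬ (∀ x : ℕ → FreeGroup ℕ → ℂ,
      (∀ n, Summable (fun g => ‖x n g‖) ∧ ∑' g, x n g = 0) →
      Tendsto (fun n => ∑' g, ‖x n g‖) atTop (𝓝 0) →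
      ∃ a : FreeGroup ℕ → ℂ, Summable (fun g => ‖a g‖) ∧ ∑' g, a g = 0 ∧
        ∃ y : ℕ → FreeGroup ℕ → ℂ,
          (∀ n, Summable (fun g => ‖y n g‖) ∧ ∑' g, y n g = 0) ∧
          Tendsto (fun n => ∑' g, ‖y n g‖) atTop (𝓝 0) ∧
          ∀ n g, x n g = ∑' h, a h * y n (h⁻¹ * g)) := by
  intro H
  classical
  have hd : ∀ k : FreeGroup ℕ, HasSum (fun g => Pool.Agent.H27.Kap.dl k g) 1 := fun k => by
    simp only [Pool.Agent.H27.Kap.dl_apply]
    exact hasSum_ite_eq k (1 : ℂ)
  have hn : ∀ k : FreeGroup ℕ, Summable (fun g => ‖Pool.Agent.H27.Kap.dl k g‖) := fun k =>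
    summable_norm_iff.2 (hd k).summable
  obtain ⟨a, ha, ha0, y, hy, -, h⟩ := H (fun n g => if n < 5 then
      Pool.Agent.H27.Kap.dl (1 : FreeGroup ℕ) g - Pool.Agent.H27.Kap.dl (FreeGroup.of n) g else 0)
    (fun n => by
      by_cases hn5 : n < 5
      · simp only [hn5, if_true]
        exact ⟨summable_norm_iff.2 ((hd 1).sub (hd _)).summable,
          ((hd 1).sub (hd _)).tsum_eq.trans (sub_self _)⟩
      · simp [hn5, summable_zero])
    (by
      refine tendsto_const_nhds.congr' ?_
      filter_upwards [eventually_ge_atTop 5] with n hn5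
      simp [not_lt.2 hn5])
  refine Pool.Agent.H27.Kap.no_factor a ha ha0 y (fun i => (hy i).1) fun i hi g => ?_
  have := h i g
  simp only [hi, if_true] at this
  exact this

end Pool.Agent.S05654
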