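import Pool.Statements.S05680
import Pool.Agent.H1.CatA

set_option autoImplicit false
open Pool Pool.MP_a50f86_an

namespace Pool.Agent.S05680

/-- The negation of the preceding statement: For every bounded convex smoothly bounded domain in R^n (n≥3), point p and nonzero conformal frame (u,v), there is a conformal harmonic disc with maximal scaling at p, unique on the disc, and it is an injective immersion proper into the domain. -/
theorem result :
    ¬ (∀ n : ℕ, 3 ≤ n → ∀ Ω : Set (EuclideanSpace ℝ (Fin n)),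
    IsOpen Ω → Bornology.IsBounded Ω → Convex ℝ Ω →
    (∃ U : Set (EuclideanSpace ℝ (Fin n)), ∃ ρ : EuclideanSpace ℝ (Fin n) → ℝ,
        IsOpen U ∧ closure Ω ⊆ U ∧ ContDiffOn ℝ ((⊤ : ℕ∞) : WithTop ℕ∞) ρ U ∧
        Ω = {x | x ∈ U ∧ ρ x < 0} ∧ ∀ x ∈ frontier Ω, fderiv ℝ ρ x ≠ 0) →
    ∀ p ∈ Ω, ∀ u v : EuclideanSpace ℝ (Fin n),
      ‖u‖ = ‖v‖ → inner ℝ u v = 0 → u ≠ 0 →
      ∃ f : ℂ → EuclideanSpace ℝ (Fin n),
        (∃ r : ℝ, 0 < r ∧
          (ContDiffOn ℝ 2 f (Metric.ball (0 : ℂ) 1) ∧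
            (∀ z ∈ Metric.ball (0 : ℂ) 1, f z ∈ Ω) ∧
            (∀ z ∈ Metric.ball (0 : ℂ) 1,
              ‖fderiv ℝ f z (1 : ℂ)‖ = ‖fderiv ℝ f z Complex.I‖ ∧
              inner ℝ (fderiv ℝ f z (1 : ℂ)) (fderiv ℝ f z Complex.I) = 0) ∧
            (∀ z ∈ Metric.ball (0 : ℂ) 1,
              fderiv ℝ (fun w => fderiv ℝ f w (1 : ℂ)) z (1 : ℂ) +
                fderiv ℝ (fun w => fderiv ℝ f w Complex.I) z Complex.I = 0)) ∧
          f 0 = p ∧ fderiv ℝ f 0 (1 : ℂ) = r • u ∧ fderiv ℝ f 0 Complex.I = r • v ∧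
          ∀ g : ℂ → EuclideanSpace ℝ (Fin n), ∀ s : ℝ, 0 < s →
            (ContDiffOn ℝ 2 g (Metric.ball (0 : ℂ) 1) ∧
              (∀ z ∈ Metric.ball (0 : ℂ) 1, g z ∈ Ω) ∧
              (∀ z ∈ Metric.ball (0 : ℂ) 1,
                ‖fderiv ℝ g z (1 : ℂ)‖ = ‖fderiv ℝ g z Complex.I‖ ∧
                inner ℝ (fderiv ℝ g z (1 : ℂ)) (fderiv ℝ g z Complex.I) = 0) ∧
              (∀ z ∈ Metric.ball (0 : ℂ) 1,
                fderiv ℝ (fun w => fderiv ℝ g w (1 : ℂ)) z (1 : ℂ) +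
                  fderiv ℝ (fun w => fderiv ℝ g w Complex.I) z Complex.I = 0)) →
            g 0 = p → fderiv ℝ g 0 (1 : ℂ) = s • u → fderiv ℝ g 0 Complex.I = s • v →
            s ≤ r) ∧
        (∀ h : ℂ → EuclideanSpace ℝ (Fin n),
          (∃ r : ℝ, 0 < r ∧
            (ContDiffOn ℝ 2 h (Metric.ball (0 : ℂ) 1) ∧
              (∀ z ∈ Metric.ball (0 : ℂ) 1, h z ∈ Ω) ∧
              (∀ z ∈ Metric.ball (0 : ℂ) 1,
                ‖fderiv ℝ h z (1 : ℂ)‖ = ‖fderiv ℝ h z Complex.I‖ ∧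
                inner ℝ (fderiv ℝ h z (1 : ℂ)) (fderiv ℝ h z Complex.I) = 0) ∧
              (∀ z ∈ Metric.ball (0 : ℂ) 1,
                fderiv ℝ (fun w => fderiv ℝ h w (1 : ℂ)) z (1 : ℂ) +
                  fderiv ℝ (fun w => fderiv ℝ h w Complex.I) z Complex.I = 0)) ∧
            h 0 = p ∧ fderiv ℝ h 0 (1 : ℂ) = r • u ∧ fderiv ℝ h 0 Complex.I = r • v ∧
            ∀ g : ℂ → EuclideanSpace ℝ (Fin n), ∀ s : ℝ, 0 < s →
              (ContDiffOn ℝ 2 g (Metric.ball (0 : ℂ) 1) ∧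
                (∀ z ∈ Metric.ball (0 : ℂ) 1, g z ∈ Ω) ∧
                (∀ z ∈ Metric.ball (0 : ℂ) 1,
                  ‖fderiv ℝ g z (1 : ℂ)‖ = ‖fderiv ℝ g z Complex.I‖ ∧
                  inner ℝ (fderiv ℝ g z (1 : ℂ)) (fderiv ℝ g z Complex.I) = 0) ∧
                (∀ z ∈ Metric.ball (0 : ℂ) 1,
                  fderiv ℝ (fun w => fderiv ℝ g w (1 : ℂ)) z (1 : ℂ) +
                    fderiv ℝ (fun w => fderiv ℝ g w Complex.I) z Complex.I = 0)) →
              g 0 = p → fderiv ℝ g 0 (1 : ℂ) = s • u → fderiv ℝ g 0 Complex.I = s • v →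
              s ≤ r) →
          Set.EqOn h f (Metric.ball (0 : ℂ) 1)) ∧
        Set.InjOn f (Metric.ball (0 : ℂ) 1) ∧
        (∀ z ∈ Metric.ball (0 : ℂ) 1, fderiv ℝ f z (1 : ℂ) ≠ 0) ∧
        (∀ K : Set (EuclideanSpace ℝ (Fin n)), IsCompact K → K ⊆ Ω →
          IsCompact (Metric.ball (0 : ℂ) 1 ∩ f ⁻¹' K))) := by
  open Pool.Agent.H1.Cat Complex in
  intro H
  set R := 2 * (1 + Real.cosh 2) ^ 2
  have i1 : ∀ x : E, |x 2| < Real.pi / 2 → x 0 ^ 2 + x 1 ^ 2 ≤ R → x ∈ {x | ρ R x < 0} :=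
    fun x h1 h2 => by
      have := sq_lt_sq' (abs_lt.1 h1).1 (abs_lt.1 h1).2
      simp only [Set.mem_ofPred_eq, ρ, (χ0 _).2 (sub_nonpos.2 h2)]; linarith
  have i2 : ∀ x ∈ {x | ρ R x < 0}, |x 2| < Real.pi / 2 := fun x hx => by
    have := (χ0 (x 0 ^ 2 + x 1 ^ 2 - R)).1
    simp only [Set.mem_ofPred_eq, ρ] at hx
    exact abs_lt_of_sq_lt_sq (by linarith) (by positivity)
  have h0 := i1 0 (by simp [Real.pi_pos]) (by simp; positivity)
  obtain ⟨f, -, h, -⟩ := H 3 le_rfl {x | ρ R x < 0} (isOpen_lt (ρs R).continuous continuous_const)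
    (ρb R) (by simpa using (ρc R).convex_lt 0) ⟨Set.univ, ρ R, isOpen_univ, Set.subset_univ _,
      (ρs R).contDiffOn, by simp, fun x hx => ρd h0 (frontier_lt_subset_eq (ρs R).continuous
        continuous_const hx)⟩ 0 h0 (EuclideanSpace.single 0 1) (EuclideanSpace.single 2 1)
    (by simp) (by simp [EuclideanSpace.inner_single_left]) (by simp)
  have key : ∀ a : ℝ, a ^ 2 = 1 → Set.EqOn (fun z => L (Φ a z)) f (Metric.ball 0 1) := fun a ha =>
    h _ ⟨2, two_pos, cat i1 ha, by ext i; fin_cases i <;> simp [L_ap, Φ, W],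
      by rw [fd (Φd a W0)]; ext i; fin_cases i <;> simp [L_ap, W],
      by rw [fd (Φd a W0)]; ext i; fin_cases i <;> simp [L_ap, W], fun g s _ hg g0 _ e => by
        simpa [e] using schwarz hg i2 g0⟩
  have m : ((1 / 2 : ℝ) : ℂ) ∈ Metric.ball (0 : ℂ) 1 := by simp; norm_num
  have e := congrArg (· 1) ((key 1 (by simp) m).trans (key (-1) (by simp) m).symm)
  have w : W (1 / 2 : ℝ) = Real.log 3 := by
    rw [W, ofReal_log (by norm_num)]; norm_num
  simp only [L_ap, Φ, w, Matrix.cons_val_one, Matrix.cons_val_zero, re_ofReal_mul, sub_re, one_re,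
    cos_ofReal_re] at e
  have := Real.cos_lt_cos_of_nonneg_of_le_pi le_rfl (show Real.log 3 ≤ Real.pi by
    linarith [Real.log_le_sub_one_of_pos (show (0 : ℝ) < 3 by norm_num), Real.pi_gt_three])
    (Real.log_pos (by norm_num))
  rw [Real.cos_zero] at this
  linarith

end Pool.Agent.S05680
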