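import Pool.Statements.S05690
import Pool.Agent.H33.KB2

set_option autoImplicit false
open Pool Pool.MP_a56edf_an

namespace Pool.Agent.S05690

open H33.KB Filter Topology
theorem result :
    ¬ (∀ (𝕜 : Type) [RCLike 𝕜] (E : Type) [NormedAddCommGroup E] [NormedSpace 𝕜 E]
      [CompleteSpace E] [TopologicalSpace.SeparableSpace E] (lam : ℝ), 1 ≤ lam →
      (∀ δ : ℝ, 0 < δ → ∀ Q : Set E, IsCompact Q → ∀ ε : ℝ, 0 < ε →
        ∃ u : E →L[𝕜] E, FiniteDimensional 𝕜 (LinearMap.range (u : E →ₗ[𝕜] E)) ∧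
          u.comp u = u ∧ ‖u‖ ≤ lam + δ ∧ ∀ x ∈ Q, ‖u x - x‖ ≤ ε) →
      (∀ Q : Set E, IsCompact Q → ∀ ε : ℝ, 0 < ε →
        ∃ u : E →L[𝕜] E, FiniteDimensional 𝕜 (LinearMap.range (u : E →ₗ[𝕜] E)) ∧
          u.comp u = u ∧ ‖u‖ ≤ lam ∧ ∀ x ∈ Q, ‖u x - x‖ ≤ ε)) := by
  intro h
  obtain ⟨X, _, _, _, U, hU⟩ := exists_space FF
  haveI : TopologicalSpace.SeparableSpace L2 := by
    let b : HilbertBasis ℕ ℝ L2 := default
    rw [← TopologicalSpace.isSeparable_univ_iff, ← Submodule.top_coe (R := ℝ), ← b.dense_span]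
    exact (Set.countable_range b).isSeparable.span.closure
  haveI : TopologicalSpace.SeparableSpace X := U.surjective.denseRange.separableSpace U.continuous
  obtain ⟨u, h1, h2, h3, h4⟩ := h ℝ X 1 le_rfl (fun δ hδ Q hQ ε hε => by
    obtain ⟨M, hM⟩ := QQ_norm U hU δ hδ
    have : ∀ᶠ n in atTop, ∀ x ∈ Q, ‖QQ U (Finset.range (n + M)) x - x‖ ≤ ε := by
      refine hQ.induction_on (p := fun S => ∀ᶠ n in atTop, ∀ x ∈ S,
        ‖QQ U (Finset.range (n + M)) x - x‖ ≤ ε) (by simp)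
        (fun s t hst ht => ht.mono fun n hn x hx => hn x (hst hx))
        (fun s t hs ht => (hs.and ht).mono fun n hn x hx => hx.elim (hn.1 x) (hn.2 x)) ?_
      intro x0 _
      refine ⟨Metric.closedBall x0 (ε / 2 / (2 + δ)), mem_nhdsWithin_of_mem_nhds
        (Metric.closedBall_mem_nhds _ (by positivity)), ?_⟩
      filter_upwards [(tendsto_iff_norm_sub_tendsto_zero.mp (QQ_tend U M x0)).eventually
        (ge_mem_nhds (half_pos hε))] with n hn x hx
      rw [mem_closedBall_iff_norm, le_div_iff₀ (by positivity)] at hx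
      have e : QQ U (Finset.range (n + M)) x - x = QQ U (Finset.range (n + M)) (x - x0)
          + (QQ U (Finset.range (n + M)) x0 - x0) - (x - x0) := by rw [map_sub]; abel
      have a1 := (QQ U (Finset.range (n + M))).le_of_opNorm_le (hM n) (x - x0)
      rw [e]
      refine (norm_sub_le _ _).trans ((add_le_add_left (norm_add_le _ _) _).trans ?_)
      linarith
    obtain ⟨n, hn⟩ := this.exists
    exact ⟨_, QQ_fd U _, by rw [QQ_comp, Finset.inter_self], hM n, hn⟩)
    {U (ee 0), U (ee 1)} (Set.toFinite _).isCompact (1 / 4) (by norm_num)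
  exact no_proj U hU u h1 h2 h3 (h4 _ (by simp)) (h4 _ (by simp))

end Pool.Agent.S05690
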