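import Pool.Statements.S05776
import Pool.Agent.H1.PerE

set_option autoImplicit false
open Pool Pool.MP_ab96c2_an

namespace Pool.Agent.S05776

/-- The negation of the preceding statement: For every bounded simply connected planar domain, the number of critical points of its torsion function (Δv=−2, v=0 on the boundary) is at most 2m−1, where m is the number of components of the set of local maxima of the distance to the boundary. -/
theorem result :
    ¬ (∀ (Ω : Set ℂ), IsOpen Ω → Bornology.IsBounded Ω → SimplyConnectedSpace Ω →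
    ∀ (v : ℂ → ℝ), ContDiffOn ℝ 2 v Ω →
      (∀ z ∈ Ω, fderiv ℝ (fun w => fderiv ℝ v w (1 : ℂ)) z (1 : ℂ)
          + fderiv ℝ (fun w => fderiv ℝ v w Complex.I) z Complex.I = -2) →
      ContinuousOn v (closure Ω) →
      (∀ z ∈ frontier Ω, v z = 0) →
      Set.encard {z : ℂ | z ∈ Ω ∧ fderiv ℝ v z = 0}
        ≤ 2 * ENat.card (ConnectedComponents
              {z : ℂ | z ∈ Ω ∧ IsLocalMax (fun w : ℂ => Metric.infDist w Ωᶜ) z}) - 1) := by
  intro H
  obtain ⟨v, h1, h2, h3, h4, h5⟩ := Pool.Agent.H1.Tor.main
  have h := H _ Pool.Agent.H1.Tor.Om_open Pool.Agent.H1.Tor.Om_bdd inferInstance v h1 h2 h3 h4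
  have h6 := Pool.Agent.H1.Tor.card_le
  have h7 := h5.trans (h.trans (tsub_le_tsub_right (mul_le_mul_right h6 2) 1))
  revert h7
  decide

end Pool.Agent.S05776
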