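import Pool.Statements.S05779
import Pool.Agent.H28.FHC

set_option autoImplicit false
open Pool Pool.MP_abc713_an

namespace Pool.Agent.S05779

open Pool.Agent.H28.FHC


/-- There is a bounded operator T on a nonzero separable real or complex Banach space such that every vector is a sum of two vectors whose orbits visit each nonempty open set with positive lower density. -/
theorem result :
    ∃ (𝕜 : Type) (_ : RCLike 𝕜) (X : Type) (_ : NormedAddCommGroup X)
      (_ : NormedSpace 𝕜 X) (_ : CompleteSpace X)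
      (_ : TopologicalSpace.SeparableSpace X) (_ : Nontrivial X)
      (T : X →L[𝕜] X),
      ∀ x : X, ∃ y z : X, x = y + z ∧
        (∀ U : Set X, IsOpen U → U.Nonempty →
          ∃ δ : ℝ, 0 < δ ∧ ∀ᶠ N : ℕ in Filter.atTop,
            δ * (N : ℝ) ≤ (({n : ℕ | n < N ∧ (T ^ n) y ∈ U}.ncard : ℕ) : ℝ)) ∧
        (∀ U : Set X, IsOpen U → U.Nonempty →
          ∃ δ : ℝ, 0 < δ ∧ ∀ᶠ N : ℕ in Filter.atTop,
            δ * (N : ℝ) ≤ (({n : ℕ | n < N ∧ (T ^ n) z ∈ U}.ncard : ℕ) : ℝ)) := by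
  have h0 := fhc (mix 0 0) 0 (by norm_num) (mix_eq 0 0)
  have hsep : TopologicalSpace.SeparableSpace X := by
    refine ⟨⟨Set.range (fun n : ℕ => (T ^ n) (mix 0 0)), Set.countable_range _, ?_⟩⟩
    rw [dense_iff_inter_open]
    intro U hU hne
    obtain ⟨δ, hδ, h⟩ := h0 U hU hne
    obtain ⟨m, hm, hm1⟩ := (h.and (Filter.eventually_ge_atTop 1)).exists
    have h1 : (0 : ℝ) < δ * m := mul_pos hδ (by exact_mod_cast hm1)
    have h2 : {n : ℕ | n < m ∧ (T ^ n) (mix 0 0) ∈ U}.ncard ≠ 0 := by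
      intro h3
      rw [h3] at hm
      simp only [Nat.cast_zero] at hm
      linarith
    obtain ⟨n, hn⟩ := Set.nonempty_of_ncard_ne_zero h2
    exact ⟨_, hn.2, n, rfl⟩
  have hnt : Nontrivial X := by
    refine ⟨⟨mk0 (fun k => 1 / ((k : ℝ) + 1)) tendsto_one_div_add_atTop_nhds_zero_nat, 0, ?_⟩⟩
    intro h
    have := congrArg (fun x : X => x 0) h
    simp at this
  refine ⟨ℝ, inferInstance, X, inferInstance, inferInstance, inferInstance, hsep, hnt, T,
    fun x => ⟨mix x 0, mix x 1, ?_, fhc _ 0 (by norm_num) (mix_eq x 0),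
      fhc _ 1 (by norm_num) (mix_eq x 1)⟩⟩
  ext n
  rw [ZeroAtInftyContinuousMap.add_apply]
  rcases Nat.mod_two_eq_zero_or_one (Nat.log 2 n) with h | h
  · rw [mix_eq x 0 n h, mix_ne x 1 n (by omega)]; ring
  · rw [mix_eq x 1 n h, mix_ne x 0 n (by omega)]; ring

end Pool.Agent.S05779
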