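import Pool.Statements.S05808

set_option autoImplicit false
open Pool Pool.MP_ae5379_an

namespace Pool.Agent.S05808

open Filter Topology

abbrev Z : Type := BoundedContinuousFunction (ℕ × ℝ) ℝ

noncomputable def q (n : ℕ) : ℝ := (Denumerable.ofNat ℚ n : ℚ)

noncomputable def S : Submodule ℝ Z where
  carrier := {h | ∀ n, h (n + 1, 1) - h (n + 1, 0) = (1 / 2) ^ n * h (0, q n)}
  add_mem' := fun {a b} ha hb n => by
    have h1 := ha n
    have h2 := hb n
    simp only [BoundedContinuousFunction.add_apply]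
    linarith
  zero_mem' := fun n => by simp
  smul_mem' := fun c a ha n => by
    have h1 := ha n
    simp only [BoundedContinuousFunction.smul_apply, smul_eq_mul]
    linear_combination c * h1

lemma S_closed : IsClosed (S : Set Z) := by
  have : (S : Set Z) = ⋂ n, {h : Z | h (n + 1, 1) - h (n + 1, 0) = (1 / 2) ^ n * h (0, q n)} := by
    ext h
    rw [Set.mem_iInter]
    rfl
  rw [this]
  exact isClosed_iInter fun n => isClosed_eq (by fun_prop) (by fun_prop)

def X : Type := S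

noncomputable instance : NormedAddCommGroup X := inferInstanceAs (NormedAddCommGroup S)
noncomputable instance : NormedSpace ℝ X := inferInstanceAs (NormedSpace ℝ S)
instance : CompleteSpace X := S_closed.completeSpace_coe

noncomputable def val (x : X) : Z := Subtype.val x

noncomputable def ev (κ : ℕ × ℝ) : X →L[ℝ] ℝ := LinearMap.mkContinuous
  { toFun := fun x => val x κ
    map_add' := fun _ _ => rfl
    map_smul' := fun _ _ => rfl } 1 fun x => by
      rw [one_mul]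
      exact (val x).norm_coe_le_norm κ

lemma ev_le (κ : ℕ × ℝ) (x : X) : |ev κ x| ≤ ‖x‖ := (val x).norm_coe_le_norm κ

lemma norm_le {x : X} {C : ℝ} (hC : 0 ≤ C) (h : ∀ κ, |ev κ x| ≤ C) : ‖x‖ ≤ C :=
  (BoundedContinuousFunction.norm_le (f := val x) hC).2 h

lemma ev_cont (x : X) : Continuous fun κ => ev κ x := (val x).continuous

lemma mk (g : ℕ × ℝ → ℝ) (hg : ∀ n, Continuous fun r => g (n, r)) (C : ℝ) (hC : ∀ κ, |g κ| ≤ C)
    (h : ∀ n, g (n + 1, 1) - g (n + 1, 0) = (1 / 2) ^ n * g (0, q n)) :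
    ∃ x : X, ∀ κ, ev κ x = g κ :=
  ⟨(⟨BoundedContinuousFunction.ofNormedAddCommGroup g (continuous_prod_of_discrete_left.2 hg) C hC,
    h⟩ : S), fun _ => rfl⟩

/-- an almost peaking function at an irrational point -/
lemma bump (n : ℕ) {t : ℝ} (ht : Irrational t) (z : X) {η : ℝ} (hη : 0 < η) :
    ∃ b : X, ev (n, t) b = 1 ∧ ∀ κ, |ev κ b| ≤ η / 2 ∨
      (0 ≤ ev κ b ∧ ev κ b ≤ 1 - |ev κ z - ev (n, t) z| / η) := by
  obtain ⟨M, hM⟩ := exists_pow_lt_of_lt_one (half_pos hη) (show (1 / 2 : ℝ) < 1 by norm_num)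
  have h0 : ∀ r : ℚ, ∀ᶠ δ in 𝓝[>] (0 : ℝ), δ ≤ |(r : ℝ) - t| := fun r =>
    mem_nhdsWithin_of_mem_nhds (Iic_mem_nhds (abs_pos.2 (sub_ne_zero.2 (ht.ne_rat r).symm)))
  obtain ⟨δ, ⟨h1, h2, h3⟩, hδ⟩ := ((((Finset.range M).eventually_all.2 fun m _ =>
    h0 (Denumerable.ofNat ℚ m)).and ((h0 0).and (h0 1))).and self_mem_nhdsWithin).exists
  have hδ0 : 0 < δ := hδ
  let β : ℕ × ℝ → ℝ := fun κ => if κ.1 = n then
    max 0 (1 - |κ.2 - t| / δ - |ev κ z - ev (n, t) z| / η) else 0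
  have hβ0 : ∀ κ, 0 ≤ β κ := fun κ => by
    simp only [β]
    split_ifs
    · exact le_max_left _ _
    · exact le_rfl
  have hβ1 : ∀ κ, β κ = 0 ∨ β κ ≤ 1 - |ev κ z - ev (n, t) z| / η := fun κ => by
    simp only [β]
    split_ifs
    · rcases max_cases 0 (1 - |κ.2 - t| / δ - |ev κ z - ev (n, t) z| / η) with h | h
      · exact Or.inl h.1
      · refine Or.inr (h.1.trans_le ?_)
        linarith [div_nonneg (abs_nonneg (κ.2 - t)) hδ0.le]
    · exact Or.inl rfl
  have hβ2 : ∀ κ, β κ ≤ 1 := fun κ => by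
    rcases hβ1 κ with h | h
    · linarith
    · linarith [div_nonneg (abs_nonneg (ev κ z - ev (n, t) z)) hη.le]
  have hβ3 : ∀ k r, δ ≤ |r - t| → β (k, r) = 0 := fun k r h => by
    simp only [β]
    split_ifs
    · refine max_eq_left ?_
      linarith [div_nonneg (abs_nonneg (ev (k, r) z - ev (n, t) z)) hη.le,
        (one_le_div hδ0).2 h]
    · rfl
  let γ : ℕ × ℝ → ℝ := fun κ =>
    if κ.1 = 0 then 0 else (1 / 2) ^ (κ.1 - 1) * β (0, q (κ.1 - 1)) * min |κ.2| 1
  have hγ : ∀ κ, |γ κ| ≤ η / 2 := fun κ => by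
    simp only [γ]
    split_ifs
    · rw [abs_zero]; positivity
    · by_cases hm : κ.1 - 1 < M
      · rw [hβ3 0 (q (κ.1 - 1)) (h1 _ (Finset.mem_range.2 hm))]
        simp only [mul_zero, zero_mul, abs_zero]
        positivity
      · have h4 : (1 / 2 : ℝ) ^ (κ.1 - 1) ≤ (1 / 2) ^ M :=
          pow_le_pow_of_le_one (by norm_num) (by norm_num) (not_lt.1 hm)
        have h5 := hβ0 (0, q (κ.1 - 1))
        have h6 : 0 ≤ min |κ.2| 1 := le_min (abs_nonneg _) zero_le_one
        rw [abs_of_nonneg (by positivity)]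
        calc _ ≤ (1 / 2 : ℝ) ^ M * 1 * 1 := by
              gcongr
              · exact hβ2 _
              · exact min_le_right _ _
          _ ≤ η / 2 := by linarith
  have hγ0 : ∀ κ : ℕ × ℝ, κ.1 = n → γ κ = 0 := fun κ h => by
    simp only [γ]
    split_ifs with h4
    · rfl
    · have h5 : β (0, q (κ.1 - 1)) = 0 := if_neg (by simp only; omega)
      rw [h5, mul_zero, zero_mul]
  obtain ⟨b, hb⟩ := mk (fun κ => β κ + γ κ) (fun k => by
      have h4 : Continuous fun r => ev (k, r) z := (ev_cont z).comp (by fun_prop)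
      simp only [β, γ]
      split_ifs <;> fun_prop) (1 + η / 2) (fun κ => by
      refine (abs_add_le _ _).trans (add_le_add ?_ (hγ κ))
      rw [abs_of_nonneg (hβ0 κ)]
      exact hβ2 κ) (fun k => by
      rw [hβ3 _ 1 (by simpa using h3), hβ3 _ 0 (by simpa using h2)]
      simp [γ])
  refine ⟨b, by rw [hb, hγ0 _ rfl]; simp [β], fun κ => ?_⟩
  rw [hb]
  rcases hβ1 κ with h | h
  · rw [h, zero_add]
    exact Or.inl (hγ κ)
  · by_cases h4 : κ.1 = n
    · rw [hγ0 κ h4, add_zero]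
      exact Or.inr ⟨hβ0 κ, h⟩
    · have h5 : β κ = 0 := if_neg h4
      rw [h5, zero_add]
      exact Or.inl (hγ κ)

lemma spear (n : ℕ) {t : ℝ} (ht : Irrational t) (φ : X →L[ℝ] ℝ) {r : ℝ} (hr : r < ‖φ‖) :
    ∃ (y : X) (s : ℝ), ‖y‖ ≤ 1 ∧ (s = 1 ∨ s = -1) ∧ ev (n, t) y = s ∧ r < |φ y| := by
  obtain ⟨z, hz, hφ⟩ := φ.exists_lt_apply_of_lt_opNorm hr
  obtain ⟨η, hη, hzη⟩ : ∃ η : ℝ, 0 < η ∧ ‖z‖ ≤ 1 - η := ⟨1 - ‖z‖, by linarith, by linarith⟩
  obtain ⟨b, hb1, hb2⟩ := bump n ht z hη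
  have ha := abs_le.1 ((ev_le (n, t) z).trans hzη)
  have key : ∀ s : ℝ, (s = 1 ∨ s = -1) → ‖z + (s - ev (n, t) z) • b‖ ≤ 1 := fun s hs => by
    refine norm_le zero_le_one fun κ => ?_
    have h1 := abs_le.1 ((ev_le κ z).trans hzη)
    rw [map_add, map_smul, smul_eq_mul]
    rcases hb2 κ with h | ⟨h2, h3⟩
    · have h2 := abs_le.1 h
      rw [abs_le]
      rcases hs with rfl | rfl <;> constructor <;> nlinarith
    · have h4 : |ev κ z - ev (n, t) z| ≤ η * (1 - ev κ b) := by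
        rw [← div_le_iff₀' hη]; linarith
      have h5 := abs_le.1 h4
      have h6 : 0 ≤ 1 - ev κ b := by
        linarith [div_nonneg (abs_nonneg (ev κ z - ev (n, t) z)) hη.le]
      rw [abs_le]
      rcases hs with rfl | rfl <;> constructor <;> nlinarith
  have h1 : ∀ s : ℝ, ev (n, t) (z + (s - ev (n, t) z) • b) = s := fun s => by
    rw [map_add, map_smul, hb1]; simp
  by_contra hcon
  push Not at hcon
  have h2 := abs_le.1 (hcon _ 1 (key 1 (Or.inl rfl)) (Or.inl rfl) (h1 1))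
  have h3 := abs_le.1 (hcon _ (-1) (key (-1) (Or.inr rfl)) (Or.inr rfl) (h1 (-1)))
  rw [map_add, map_smul, smul_eq_mul] at h2 h3
  refine absurd hφ (not_lt.2 (abs_le.2 ⟨?_, ?_⟩)) <;> nlinarith

/-- The negation of the preceding statement: For every real or complex Banach space with numerical index 1 (every operator's numerical radius equals its norm), every extreme point f of the dual unit ball and every extreme point x of the unit ball satisfy ∣f(x)∣ = 1. -/
theorem result :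
    ¬ (∀ (𝕜 : Type) [RCLike 𝕜] (X : Type) [NormedAddCommGroup X] [NormedSpace 𝕜 X] [CompleteSpace X],
    (∀ T : X →L[𝕜] X, ∀ ε : ℝ, 0 < ε →
      ∃ (x : X) (f : X →L[𝕜] 𝕜), ‖x‖ = 1 ∧ ‖f‖ = 1 ∧ f x = 1 ∧ ‖T‖ - ε < ‖f (T x)‖) →
    ∀ (f : X →L[𝕜] 𝕜) (x : X),
      (‖f‖ ≤ 1 ∧ ∀ g : X →L[𝕜] 𝕜, ‖f + g‖ ≤ 1 → ‖f - g‖ ≤ 1 → g = 0) →
      (‖x‖ ≤ 1 ∧ ∀ y : X, ‖x + y‖ ≤ 1 → ‖x - y‖ ≤ 1 → y = 0) →
      ‖f x‖ = 1) := by
  intro hall
  obtain ⟨x, hx⟩ := mk (fun κ => if κ.1 = 0 then 0 else 1)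
    (fun k => continuous_const (y := if k = 0 then 0 else 1)) 1
    (fun κ => by split_ifs <;> simp) (fun k => by simp)
  have hev : ∀ κ, ‖ev κ‖ ≤ 1 := fun κ => LinearMap.mkContinuous_norm_le _ zero_le_one _
  have h := hall ℝ X (fun T ε hε => by
    obtain ⟨n, t, ht, h1⟩ : ∃ n t, Irrational t ∧ ‖T‖ - ε < ‖(ev (n, t)).comp T‖ := by
      by_contra hcon
      push Not at hcon
      have h0 : 0 ≤ ‖T‖ - ε := (norm_nonneg _).trans (hcon 0 _ irrational_sqrt_two)
      have h1 : ‖T‖ ≤ ‖T‖ - ε := T.opNorm_le_bound h0 fun z => norm_le (by positivity) fun κ => by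
        have h2 : Continuous fun r => |ev (κ.1, r) (T z)| :=
          ((ev_cont (T z)).comp (by fun_prop)).abs
        refine dense_irrational.induction (P := fun r => |ev (κ.1, r) (T z)| ≤ (‖T‖ - ε) * ‖z‖)
          (fun r hr => ?_) (isClosed_le h2 continuous_const) κ.2
        exact (((ev (κ.1, r)).comp T).le_opNorm z).trans
          (mul_le_mul_of_nonneg_right (hcon _ r hr) (norm_nonneg z))
      linarith
    obtain ⟨y, s, hy, hs, h2, h3⟩ := spear n ht _ h1
    have h4 : (s • ev (n, t)) y = 1 := by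
      rw [smul_apply, h2]
      rcases hs with rfl | rfl <;> norm_num
    have h5 : ‖s‖ = 1 := by rcases hs with rfl | rfl <;> norm_num
    have h6 : ‖s • ev (n, t)‖ ≤ 1 := by rw [norm_smul, h5, one_mul]; exact hev _
    have h7 := (s • ev (n, t)).le_opNorm y
    rw [h4, norm_one] at h7
    refine ⟨y, s • ev (n, t), le_antisymm hy ?_, le_antisymm h6 ?_, h4, ?_⟩
    · nlinarith [norm_nonneg y]
    · nlinarith [norm_nonneg (s • ev (n, t))]
    · rw [smul_apply, norm_smul, h5, one_mul]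
      exact h3) (ev (0, √2)) x ⟨hev _, fun g h1 h2 => by
      by_contra hg
      obtain ⟨y, s, hy, hs, h3, h4⟩ := spear 0 irrational_sqrt_two g (norm_pos_iff.2 hg)
      have h5 := abs_le.1 (((ev (0, √2) + g).le_opNorm y).trans
        (mul_le_one₀ h1 (norm_nonneg _) hy))
      have h6 := abs_le.1 (((ev (0, √2) - g).le_opNorm y).trans
        (mul_le_one₀ h2 (norm_nonneg _) hy))
      rw [add_apply, h3] at h5
      rw [sub_apply, h3] at h6
      refine (abs_pos.1 h4) ?_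
      rcases hs with rfl | rfl <;> linarith [h5.1, h5.2, h6.1, h6.2]⟩
    ⟨norm_le zero_le_one fun κ => by rw [hx]; split_ifs <;> simp, fun y h1 h2 => by
      have h3 : ∀ k r, ev (k + 1, r) y = 0 := fun k r => by
        have h4 := abs_le.1 ((ev_le (k + 1, r) _).trans h1)
        have h5 := abs_le.1 ((ev_le (k + 1, r) _).trans h2)
        rw [map_add, hx, if_neg (by simp)] at h4
        rw [map_sub, hx, if_neg (by simp)] at h5
        linarith [h4.2, h5.2]
      have h4 : ∀ r : ℚ, ev (0, r) y = 0 := fun r => by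
        obtain ⟨k, rfl⟩ : ∃ k, Denumerable.ofNat ℚ k = r := ⟨_, Denumerable.ofNat_encode r⟩
        have h5 : ev (k + 1, 1) y - ev (k + 1, 0) y = (1 / 2) ^ k * ev (0, q k) y :=
          (show S from y).2 _
        rw [h3, h3, sub_zero] at h5
        exact (mul_eq_zero.1 h5.symm).resolve_left (by positivity)
      refine norm_le_zero_iff.1 (norm_le le_rfl fun κ => ?_)
      obtain ⟨k, r⟩ := κ
      rcases k with _ | k
      · have h5 : Continuous fun r => |ev (0, r) y| := ((ev_cont y).comp (by fun_prop)).abs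
        exact Rat.denseRange_cast.induction_on (p := fun r : ℝ => |ev (0, r) y| ≤ 0) r
          (isClosed_le h5 continuous_const) fun r => by rw [h4, abs_zero]
      · rw [h3, abs_zero]⟩
  rw [hx] at h
  simp at h

end Pool.Agent.S05808
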