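import Pool.Statements.S05816
import Pool.Agent.H15.RJ5

set_option autoImplicit false
open Filter Topology
open Pool Pool.MP_ae9c87_an

namespace Pool.Agent.S05816

theorem result :
    ¬ (∀ (H : Type) [NormedAddCommGroup H] [InnerProductSpace ℂ H] [CompleteSpace H]
      (T : ℝ → H →L[ℂ] H),
      T 0 = 1 →
      (∀ s t : ℝ, 0 ≤ s → 0 ≤ t → T (s + t) = T s * T t) →
      (∀ x : H, ContinuousOn (fun t : ℝ => T t x) (Set.Ici 0)) →
      (∀ t : ℝ, 0 ≤ t → ‖T t‖ ≤ 1) →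
      ((∀ x y : H, Tendsto (fun t : ℝ => inner ℂ (T t x) y) atTop (𝓝 0)) ↔
        (∀ x y : H, Tendsto (fun n : ℕ =>
            inner ℂ ((fun z : H => z - (2 : ℂ) •
              ∫ t in Set.Ioi (0 : ℝ), ((Real.exp (-t) : ℝ) : ℂ) • T t z)^[n] x) y)
            atTop (𝓝 0)))) := by
  intro h
  have h1 := h Pool.Agent.H15.RJ5.HH
    (fun t => Pool.Agent.H15.RJ5.Mul (Pool.Agent.H15.RJ5.EE t))
    (by rw [Pool.Agent.H15.RJ5.EE_zero, Pool.Agent.H15.RJ5.Mul_one])
    (by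
      intro s t _ _
      rw [Pool.Agent.H15.RJ5.EE_add, Pool.Agent.H15.RJ5.Mul_mul])
    (by
      intro x
      have := Pool.Agent.H15.RJ5.EE_cont
      apply Continuous.continuousOn
      fun_prop)
    (fun t _ => Pool.Agent.H15.RJ5.T_norm t)
  have h2 := h1.mp Pool.Agent.H15.RJ5.weak
  have e := funext Pool.Agent.H15.RJ5.cog
  refine Pool.Agent.H15.RJ5.not_weak ?_
  rw [← e]
  exact h2 _ _

end Pool.Agent.S05816
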