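import Pool.Statements.S05845
import Pool.Agent.H32.BoxIFS

set_option autoImplicit false
open Pool Pool.MP_b07b06_an

namespace Pool.Agent.S05845

/-- There exist finitely many differentiable contractions of some R^d whose attractor K (nonempty compact, K = union of images) has log N(δ)/(-log δ) with no limit as δ→0+, N(δ) the least number of δ-balls covering K. -/
theorem result :
    ∃ (d n : ℕ) (f : Fin n → EuclideanSpace ℝ (Fin d) → EuclideanSpace ℝ (Fin d))
      (K : Set (EuclideanSpace ℝ (Fin d))),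
      (∀ i, Differentiable ℝ (f i)) ∧
      (∀ i, ∃ c : NNReal, ContractingWith c (f i)) ∧
      K.Nonempty ∧ IsCompact K ∧ K = ⋃ i, f i '' K ∧
      ¬ ∃ L : ℝ, Filter.Tendsto
        (fun δ : ℝ =>
          Real.log ((sInf {m : ℕ | ∃ s : Finset (EuclideanSpace ℝ (Fin d)),
              s.card = m ∧ K ⊆ ⋃ x ∈ s, Metric.closedBall x δ} : ℕ) : ℝ)
            / (-Real.log δ))
        (nhdsWithin 0 (Set.Ioi 0)) (nhds L) := by
  classical
  choose f hf1 hf2 hf3 using H32.BoxIFS.exists_f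
  let E := (OrthonormalBasis.singleton (Fin 1) ℝ).repr
  let X : H32.BoxIFS.Ω → EuclideanSpace ℝ (Fin 1) := fun ω => E (H32.BoxIFS.x ω)
  refine ⟨1, 3, fun i => E ∘ f i ∘ E.symm, Set.range X, fun i =>
    E.toContinuousLinearEquiv.differentiable.comp ((hf1 i).comp
      E.symm.toContinuousLinearEquiv.differentiable), fun i => ⟨9 / 10, by norm_num, ?_⟩,
    Set.range_nonempty _, isCompact_range (E.continuous.comp H32.BoxIFS.hc), ?_, ?_⟩
  · have := E.lipschitz.comp ((hf2 i).comp E.symm.lipschitz)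
    rw [one_mul, mul_one] at this
    exact this
  · ext y
    simp only [Set.mem_iUnion, Set.mem_image, Set.mem_range, exists_exists_eq_and, X,
      Function.comp, LinearIsometryEquiv.symm_apply_apply, hf3]
    refine ⟨fun ⟨ω, h⟩ => ⟨ω 0, fun n => ω (n + 1), ?_⟩, fun ⟨i, ω, h⟩ => ⟨_, h⟩⟩
    rw [← h]
    congr 2
    funext n
    cases n <;> rfl
  rintro ⟨l, hl⟩
  set NN : ℝ → ℕ := fun δ => sInf {m : ℕ | ∃ s : Finset (EuclideanSpace ℝ (Fin 1)),
    s.card = m ∧ Set.range X ⊆ ⋃ x ∈ s, Metric.closedBall x δ} with hNN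
  have cov : ∀ n δ, (∀ ω, 5 * H32.BoxIFS.L ω n ≤ δ) → ∃ m ≤ 3 ^ n,
      m ∈ {m : ℕ | ∃ s : Finset (EuclideanSpace ℝ (Fin 1)),
        s.card = m ∧ Set.range X ⊆ ⋃ x ∈ s, Metric.closedBall x δ} := by
    intro n δ h
    obtain ⟨s, h1, h2⟩ := H32.BoxIFS.cover n h
    refine ⟨_, Finset.card_image_le.trans h1, s.image E, rfl, ?_⟩
    rintro - ⟨ω, rfl⟩
    obtain ⟨y, hy, h3⟩ := h2 ω
    refine Set.mem_biUnion (Finset.mem_coe.2 (Finset.mem_image_of_mem _ hy)) ?_
    exact (E.dist_map _ _).le.trans h3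
  have tn : ∀ (c : ℝ) (k : ℕ), 0 < c → 0 < k → Filter.Tendsto
      (fun j => c * (1 / 16 : ℝ) ^ (k * H32.BoxIFS.N j)) Filter.atTop (nhdsWithin 0 (Set.Ioi 0)) := by
    intro c k hc hk
    refine tendsto_nhdsWithin_iff.2 ⟨?_, Filter.Eventually.of_forall fun j => by
      simp only [Set.mem_Ioi]; positivity⟩
    have := ((tendsto_pow_atTop_nhds_zero_of_lt_one (r := (1 / 16 : ℝ)) (by norm_num)
      (by norm_num)).comp (Filter.tendsto_atTop_mono (g := fun j => k * H32.BoxIFS.N j) (fun j => by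
        have := H32.BoxIFS.N_ge j
        change j ≤ k * H32.BoxIFS.N j
        nlinarith) Filter.tendsto_id)).const_mul c
    rwa [mul_zero] at this
  have l2 : 0 < Real.log 2 := Real.log_pos one_lt_two
  have l16 : Real.log (1 / 16) = -4 * Real.log 2 := by
    rw [one_div, Real.log_inv, show (16 : ℝ) = 2 ^ 4 by norm_num, Real.log_pow]
    push_cast
    ring
  have l4 : Real.log 4 = 2 * Real.log 2 := by
    rw [show (4 : ℝ) = 2 ^ 2 by norm_num, Real.log_pow]
    push_cast
    ring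
  have l8 : Real.log 8 = 3 * Real.log 2 := by
    rw [show (8 : ℝ) = 2 ^ 3 by norm_num, Real.log_pow]
    push_cast
    ring
  have hN : ∀ j, (21 : ℝ) ≤ H32.BoxIFS.N j := fun j => by
    have := H32.BoxIFS.N_ge j
    exact_mod_cast (by omega : 21 ≤ H32.BoxIFS.N j)
  have up := le_of_tendsto' (b := 1 / 15) (hl.comp (tn 8 8 (by norm_num) (by norm_num))) fun j => by
    obtain ⟨m, h1, h2⟩ := cov (H32.BoxIFS.N j) (8 * (1 / 16 : ℝ) ^ (8 * H32.BoxIFS.N j)) fun ω => by
      rw [H32.BoxIFS.L, H32.BoxIFS.e_N, mul_zero, Nat.sub_zero]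
      gcongr
      norm_num
    have h3 : ((NN (8 * (1 / 16 : ℝ) ^ (8 * H32.BoxIFS.N j)) : ℕ) : ℝ) ≤ 4 ^ H32.BoxIFS.N j := by
      exact_mod_cast ((Nat.sInf_le h2).trans h1).trans (Nat.pow_le_pow_left (by norm_num) _)
    have h4 : Real.log (NN (8 * (1 / 16 : ℝ) ^ (8 * H32.BoxIFS.N j)) : ℕ) ≤
        H32.BoxIFS.N j * (2 * Real.log 2) := by
      rw [← l4, ← Real.log_pow]
      rcases (Nat.cast_nonneg (α := ℝ) (NN (8 * (1 / 16 : ℝ) ^ (8 * H32.BoxIFS.N j)))).eq_or_lt
        with h | h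
      · rw [← h, Real.log_zero]
        exact Real.log_nonneg (one_le_pow₀ (by norm_num))
      · exact Real.log_le_log h h3
    have := hN j
    change Real.log (NN _ : ℕ) / _ ≤ _
    rw [Real.log_mul (by norm_num) (by positivity), Real.log_pow, l16, l8,
      div_le_iff₀ (by push_cast; nlinarith)]
    push_cast
    nlinarith
  have lo := ge_of_tendsto' (b := 1 / 11) (hl.comp (tn (1 / 4) 27 (by norm_num) (by norm_num)))
    fun j => by
    obtain ⟨m, -, h2⟩ := cov (27 * H32.BoxIFS.N j + 2)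
      (1 / 4 * (1 / 16 : ℝ) ^ (27 * H32.BoxIFS.N j)) fun ω => by
        have := H32.BoxIFS.L_le ω (27 * H32.BoxIFS.N j + 2)
        have h0 : (0 : ℝ) < (1 / 16) ^ (27 * H32.BoxIFS.N j) := by positivity
        rw [pow_add] at this
        linarith
    obtain ⟨s, h3, h4⟩ := Nat.sInf_mem ⟨m, h2⟩
    obtain ⟨φ, hφ⟩ := H32.BoxIFS.pack j
    have h5 : ∀ u, ∃ y ∈ s, dist (X (φ u)) y ≤ 1 / 4 * (1 / 16 : ℝ) ^ (27 * H32.BoxIFS.N j) :=
      fun u => by simpa using h4 ⟨φ u, rfl⟩
    choose c hc1 hc2 using h5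
    have h6 := Finset.card_le_card_of_injOn c (s := Finset.univ) (t := s) (fun u _ => hc1 u)
      fun u _ u' _ h => by
        by_contra hne
        have k1 := hφ u u' hne
        have k2 := dist_triangle_right (X (φ u)) (X (φ u')) (c u)
        have k3 := hc2 u
        have k4 := hc2 u'
        rw [← h] at k4
        rw [show dist (X (φ u)) (X (φ u')) = _ from E.dist_map _ _, Real.dist_eq] at k2
        have h0 : (0 : ℝ) < (1 / 16) ^ (27 * H32.BoxIFS.N j) := by positivity
        linarith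
    rw [h3] at h6
    have h7 : (2 : ℝ) ^ (10 * H32.BoxIFS.N j) ≤
        (NN (1 / 4 * (1 / 16 : ℝ) ^ (27 * H32.BoxIFS.N j)) : ℕ) := by
      simp only [Finset.card_univ, Fintype.card_fun, Fintype.card_fin] at h6
      exact_mod_cast h6
    have h8 := Real.log_le_log (by positivity) h7
    have := hN j
    change _ ≤ Real.log (NN _ : ℕ) / _
    rw [Real.log_pow] at h8
    rw [Real.log_mul (by norm_num) (by positivity), Real.log_pow, l16, one_div (4 : ℝ), Real.log_inv,
      l4, le_div_iff₀ (by push_cast; nlinarith)]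
    push_cast at h8 ⊢
    rw [← one_div (4 : ℝ)]
    nlinarith
  linarith

end Pool.Agent.S05845
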