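import Pool.Statements.S05866
import Pool.Agent.H27.Alt

set_option autoImplicit false
open Pool Pool.MP_b372c7_an

namespace Pool.Agent.S05866
open scoped RealInnerProductSpace

abbrev H := lp (fun _ : ℕ => ℝ) 2

noncomputable def b : HilbertBasis ℕ ℝ H := default

instance : Fact (1 ≤ (4 : ENNReal)) := ⟨by norm_num⟩

noncomputable def F : WithLp 4 (H × ℝ) →L[ℝ] ℝ :=
  WithLp.sndL 4 ℝ H ℝ - (innerSL ℝ (b 0)).comp (WithLp.fstL 4 ℝ H ℝ)

noncomputable def E : Submodule ℝ (WithLp 4 (H × ℝ)) := LinearMap.ker F.toLinearMap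

instance : CompleteSpace E := F.isClosed_ker.completeSpace_coe

noncomputable def p : E →L[ℝ] H := (WithLp.fstL 4 ℝ H ℝ).comp E.subtypeL

lemma snd_eq (x : E) : x.1.snd = ⟪b 0, p x⟫ := sub_eq_zero.1 x.2

noncomputable def s : H →L[ℝ] E :=
  ((WithLp.prodContinuousLinearEquiv 4 ℝ H ℝ).symm.toContinuousLinearMap.comp
    ((ContinuousLinearMap.id ℝ H).prod (innerSL ℝ (b 0)))).codRestrict E
    fun _ => sub_eq_zero.2 rfl

lemma ps (h : H) : p (s h) = h := rfl

lemma sp (x : E) : s (p x) = x := by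
  apply Subtype.ext
  change WithLp.toLp 4 (x.1.fst, ⟪b 0, p x⟫) = x.1
  rw [← snd_eq]; rfl

lemma hN (x : E) : ‖x‖ ^ 4 = ‖p x‖ ^ 4 + ⟪b 0, p x⟫ ^ 4 := by
  change ‖x.1‖ ^ 4 = _
  rw [WithLp.prod_norm_eq_of_nat 4 (by norm_num), one_div,
    Real.rpow_inv_natCast_pow (by positivity) (by norm_num), snd_eq, Real.norm_eq_abs,
    Even.pow_abs (by norm_num)]
  rfl

/-- The negation of the preceding statement: Every infinite-dimensional real or complex Banach space that is reflexive, strictly convex and admits the alternating method for metric projections satisfies the parallelogram law, i.e. its norm comes from an inner product. -/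
theorem result :
    ¬ (∀ (𝕜 : Type) [RCLike 𝕜] (E : Type) [NormedAddCommGroup E] [NormedSpace 𝕜 E] [CompleteSpace E],
    ¬ FiniteDimensional 𝕜 E →
    Function.Surjective (NormedSpace.inclusionInDoubleDual 𝕜 E) →
    (∀ x y : E, ‖x‖ = 1 → ‖y‖ = 1 → x ≠ y → ‖x + y‖ < 2) →
    (∀ (G₁ G₂ : Submodule 𝕜 E), IsClosed (G₁ : Set E) → IsClosed (G₂ : Set E) →
      ∀ r : ℕ → E,
        (∀ k : ℕ, r (2 * k) - r (2 * k + 1) ∈ G₁ ∧
            ‖r (2 * k + 1)‖ = Metric.infDist (r (2 * k)) (G₁ : Set E)) →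
        (∀ k : ℕ, r (2 * k + 1) - r (2 * k + 2) ∈ G₂ ∧
            ‖r (2 * k + 2)‖ = Metric.infDist (r (2 * k + 1)) (G₂ : Set E)) →
        ∃ y : E, Filter.Tendsto r Filter.atTop (nhds y) ∧
          r 0 - y ∈ (G₁ ⊔ G₂).topologicalClosure ∧
          ‖y‖ = Metric.infDist (r 0) ((G₁ ⊔ G₂).topologicalClosure : Set E)) →
    ∀ x y : E, ‖x + y‖ ^ 2 + ‖x - y‖ ^ 2 = 2 * (‖x‖ ^ 2 + ‖y‖ ^ 2)) := by
  intro h
  have on := b.orthonormal
  have he : ‖b 0‖ = 1 := on.1 0
  have key := h ℝ E ?_ ?_ ?_ (fun G₁ G₂ _ _ r h1 h2 => H27.Alt.alt hN he G₁ G₂ r h1 h2)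
    (s (b 0)) (s (b 1))
  · have i01 : ⟪b 0, b 1⟫ = 0 := on.2 (by norm_num)
    have h1 : ‖b 1‖ = 1 := on.1 1
    have a1 := hN (s (b 0))
    have a2 := hN (s (b 1))
    have a3 := hN (s (b 0) + s (b 1))
    have a4 := hN (s (b 0) - s (b 1))
    rw [map_add, ps, ps, show ‖b 0 + b 1‖ ^ 4 = (‖b 0 + b 1‖ ^ 2) ^ 2 by ring, norm_add_sq_real,
      inner_add_right] at a3
    rw [map_sub, ps, ps, show ‖b 0 - b 1‖ ^ 4 = (‖b 0 - b 1‖ ^ 2) ^ 2 by ring, norm_sub_sq_real,
      inner_sub_right] at a4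
    simp only [ps, i01, he, h1, real_inner_self_eq_norm_sq] at a1 a2 a3 a4
    have c1 : 14 / 10 ≤ ‖s (b 0)‖ ^ 2 := by
      by_contra c; nlinarith [sq_nonneg ‖s (b 0)‖]
    have c2 : 1 ≤ ‖s (b 1)‖ ^ 2 := by
      by_contra c; nlinarith [sq_nonneg ‖s (b 1)‖]
    have c3 : ‖s (b 0) + s (b 1)‖ ^ 2 ≤ 23 / 10 := by
      by_contra c; nlinarith
    have c4 : ‖s (b 0) - s (b 1)‖ ^ 2 ≤ 23 / 10 := by
      by_contra c; nlinarith
    linarith
  · intro hf
    have : FiniteDimensional ℝ H := Module.Finite.of_surjective p.toLinearMap fun x => ⟨s x, rfl⟩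
    haveI : Finite ℕ := on.linearIndependent.finite
    exact not_finite ℕ
  · intro Ψ
    set L : H →L[ℝ] StrongDual ℝ E := (ContinuousLinearMap.precomp ℝ p).comp (innerSL ℝ)
    obtain ⟨h0, e0⟩ := (InnerProductSpace.toDual ℝ H).surjective (Ψ.comp L)
    refine ⟨s h0, ContinuousLinearMap.ext fun f => ?_⟩
    obtain ⟨h1, e1⟩ := (InnerProductSpace.toDual ℝ H).surjective (f.comp s)
    have e2 : f = L h1 := ContinuousLinearMap.ext fun x => by
      have := congrArg (fun φ : StrongDual ℝ H => φ (p x)) e1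
      simp only [ContinuousLinearMap.comp_apply, sp] at this
      exact this.symm
    have e3 := congrArg (fun φ : StrongDual ℝ H => φ h1) e0
    have e4 := congrArg (fun φ : StrongDual ℝ H => φ h0) e1
    simp only [ContinuousLinearMap.comp_apply, InnerProductSpace.toDual_apply_apply] at e3 e4
    rw [NormedSpace.dual_def, ← e4, e2, ← e3, real_inner_comm]
  · intro x y hx hy hxy
    have c := H27.Alt.clark hN ((1 / 2 : ℝ) • (x + y)) ((1 / 2 : ℝ) • (x - y))
    rw [show (1 / 2 : ℝ) • (x + y) + (1 / 2 : ℝ) • (x - y) = x by module,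
      show (1 / 2 : ℝ) • (x + y) - (1 / 2 : ℝ) • (x - y) = y by module, hx, hy, norm_smul,
      mul_pow, Real.norm_eq_abs, abs_of_pos (by norm_num)] at c
    have l := H27.Alt.le_p hN he ((1 / 2 : ℝ) • (x - y))
    have : 0 < ‖(1 / 2 : ℝ) • (x - y)‖ ^ 4 :=
      pow_pos (norm_pos_iff.2 (smul_ne_zero (by norm_num) (sub_ne_zero.2 hxy))) 4
    exact lt_of_pow_lt_pow_left₀ 4 (by norm_num) (by linarith)

end Pool.Agent.S05866
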