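import Pool.Statements.S05873
import Pool.Agent.H8.OrdGrp
-- import your own Pool.Agent.* helpers here

set_option autoImplicit false
open Pool Pool.MP_b405c8_an

namespace Pool.Agent.S05873

/-- In a unital C*-algebra, if some operation makes the positive invertible elements a commutative group whose translations preserve the usual order, then the algebra's own multiplication is commutative. -/
theorem result :
    ∀ (A : Type) [CStarAlgebra A] [PartialOrder A] [StarOrderedRing A],
    ∀ (op : A → A → A),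
      (∀ a b : A, (0 ≤ a ∧ IsUnit a) → (0 ≤ b ∧ IsUnit b) →
          (0 ≤ op a b ∧ IsUnit (op a b))) →
      (∀ a b c : A, (0 ≤ a ∧ IsUnit a) → (0 ≤ b ∧ IsUnit b) → (0 ≤ c ∧ IsUnit c) →
          op (op a b) c = op a (op b c)) →
      (∀ a b : A, (0 ≤ a ∧ IsUnit a) → (0 ≤ b ∧ IsUnit b) → op a b = op b a) →
      (∃ e : A, (0 ≤ e ∧ IsUnit e) ∧
          (∀ a : A, (0 ≤ a ∧ IsUnit a) → op e a = a) ∧
          (∀ a : A, (0 ≤ a ∧ IsUnit a) → ∃ b : A, (0 ≤ b ∧ IsUnit b) ∧ op a b = e)) →
      (∀ a b c : A, (0 ≤ a ∧ IsUnit a) → (0 ≤ b ∧ IsUnit b) → (0 ≤ c ∧ IsUnit c) →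
          a ≤ b → op a c ≤ op b c) →
      ∀ x y : A, x * y = y * x := by
  intro A _ _ _ op hcl hass hcom ⟨e, he, hid, hinv⟩ hord x y
  exact Pool.Agent.H8.OrdGrp.main op hcl hass hcom e he hid hinv hord x y

end Pool.Agent.S05873
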