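import Pool.Statements.S05912


set_option autoImplicit false
open Filter Topology
open Pool Pool.MP_b82e9e_an

namespace Pool.Agent.S05912

abbrev Z : Type := ℕ × ℕ × ℕ × Bool

noncomputable def Hs (n : ℕ) : ℝ := ∑ i ∈ Finset.range n, 1 / ((i : ℝ) + 1)

lemma exists_T (k : ℕ) : ∃ n, 2 * (((k : ℝ) + 2) * (k + 1)) ≤ Hs n :=
  (Real.tendsto_sum_range_one_div_nat_succ_atTop.eventually_ge_atTop _).exists

noncomputable def T (k : ℕ) : ℕ := (exists_T k).choose

lemma T_spec (k : ℕ) : 2 * (((k : ℝ) + 2) * (k + 1)) ≤ Hs (T k) := (exists_T k).choose_spec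

noncomputable def N (k : ℕ) : ℕ := (k + 1) * T k + 1

inductive Step : Z → Z → Prop
  | wait (k l c : ℕ) (b : Bool) : Step (k, l, c, b) (k, l, c + (k + 1), false)
  | switch (k l c : ℕ) : Step (k, l + 1, c, false) (k, l, c, true)
  | collect (k l c : ℕ) : Step (k, l, c + 1, true) (k, l, c, true)
  | free (k l c : ℕ) (b : Bool) : N k ≤ c → Step (k, l, c, b) (k, l, c, true)

noncomputable def lev (k l : ℕ) : ℝ := min ((l : ℝ) / (k + 1)) 1

noncomputable def level (z : Z) : ℝ := lev z.1 z.2.1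

noncomputable def r (z : Z) : ℝ := if z.2.2.2 then level z else 0

lemma lev_nonneg (k l : ℕ) : 0 ≤ lev k l := le_min (by positivity) zero_le_one

lemma lev_le (k l : ℕ) : lev k l ≤ 1 := min_le_right _ _

lemma lev_succ (k l : ℕ) : lev k l ≤ lev k (l + 1) ∧ lev k (l + 1) - 1 / (k + 1) ≤ lev k l := by
  unfold lev
  have h : ((l + 1 : ℕ) : ℝ) / (k + 1) = l / (k + 1) + 1 / (k + 1) := by push_cast; ring
  have h1 : (0 : ℝ) < 1 / (k + 1) := by positivity
  rw [h]
  refine ⟨min_le_min_right _ (by linarith), le_min ?_ ?_⟩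
  · linarith [min_le_left ((l : ℝ) / (k + 1) + 1 / (k + 1)) 1]
  · linarith [min_le_right ((l : ℝ) / (k + 1) + 1 / (k + 1)) 1]

lemma r_bd (z : Z) : 0 ≤ r z ∧ r z ≤ level z := by
  unfold r
  split_ifs
  · exact ⟨lev_nonneg _ _, le_rfl⟩
  · exact ⟨le_rfl, lev_nonneg _ _⟩

lemma step_level {a b : Z} (h : Step a b) : level b ≤ level a := by
  cases h with
  | wait => exact le_rfl
  | switch k l c => exact (lev_succ k l).1
  | collect => exact le_rfl
  | free => exact le_rfl

def vals (θ : ℕ → ℝ) (z : Z) : Set ℝ :=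
  {x : ℝ | ∃ s : ℕ → Z, s 0 = z ∧ (∀ t, s (t + 1) ∈ {b | Step (s t) b}) ∧
    x = ∑' t, θ t * r (s (t + 1))}

lemma summ (θ : ℕ → ℝ) (h0 : ∀ t, 0 ≤ θ t) (h1 : HasSum θ 1) (s : ℕ → Z) :
    Summable (fun t => θ t * r (s (t + 1))) :=
  Summable.of_nonneg_of_le (fun t => mul_nonneg (h0 t) (r_bd _).1)
    (fun t => mul_le_of_le_one_right (h0 t) ((r_bd _).2.trans (lev_le _ _))) h1.summable

lemma vals_le (θ : ℕ → ℝ) (h0 : ∀ t, 0 ≤ θ t) (h1 : HasSum θ 1) (z : Z) :
    ∀ x ∈ vals θ z, x ≤ level z := by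
  rintro _ ⟨s, rfl, hs, rfl⟩
  have hl : ∀ t, level (s t) ≤ level (s 0) := by
    intro t
    induction t with
    | zero => exact le_rfl
    | succ t ih => exact (step_level (hs t)).trans ih
  have h2 := h1.mul_right (level (s 0))
  rw [one_mul] at h2
  exact hasSum_le (fun t => mul_le_mul_of_nonneg_left ((r_bd _).2.trans (hl _)) (h0 t))
    (summ θ h0 h1 s).hasSum h2

lemma val_le (θ : ℕ → ℝ) (h0 : ∀ t, 0 ≤ θ t) (h1 : HasSum θ 1) (z : Z) :
    sSup (vals θ z) ≤ level z := Real.sSup_le (vals_le θ h0 h1 z) (lev_nonneg _ _)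

lemma le_val (θ : ℕ → ℝ) (h0 : ∀ t, 0 ≤ θ t) (h1 : HasSum θ 1) (s : ℕ → Z)
    (hs : ∀ t, Step (s t) (s (t + 1))) (m : ℕ) (a : ℝ) (ha : a ≤ 1)
    (h : ∀ t, m ≤ t → θ t ≠ 0 → a ≤ r (s (t + 1))) :
    a - ∑ t ∈ Finset.range m, θ t ≤ sSup (vals θ (s 0)) := by
  refine le_trans ?_ (le_csSup ⟨_, vals_le θ h0 h1 _⟩ ⟨s, rfl, hs, rfl⟩)
  have h2 := h1.mul_right a
  rw [one_mul] at h2
  have h3 : HasSum (fun t => if t ∈ Finset.range m then θ t else 0)
      (∑ t ∈ Finset.range m, θ t) := by
    have := hasSum_sum_of_ne_finset_zero (L := SummationFilter.unconditional ℕ)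
      (f := fun t => if t ∈ Finset.range m then θ t else 0)
      (s := Finset.range m) (fun b hb => if_neg hb)
    rwa [Finset.sum_congr rfl (fun t ht => if_pos ht)] at this
  refine hasSum_le (fun t => ?_) (h2.sub h3) (summ θ h0 h1 s).hasSum
  split_ifs with ht
  · have := mul_nonneg (h0 t) (r_bd (s (t + 1))).1
    nlinarith [h0 t]
  · by_cases hz : θ t = 0
    · simp [hz]
    · rw [sub_zero]
      exact mul_le_mul_of_nonneg_left (h t (by simpa using ht) hz) (h0 t)

lemma play_free (θ : ℕ → ℝ) (h0 : ∀ t, 0 ≤ θ t) (h1 : HasSum θ 1) (z : Z) :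
    level z - ∑ t ∈ Finset.range (N z.1), θ t ≤ sSup (vals θ z) := by
  obtain ⟨k, l, c, b⟩ := z
  have hN : 0 < N k := Nat.succ_pos _
  have hfree : N k ≤ c + N k * (k + 1) := by nlinarith
  have := le_val θ h0 h1 (fun t => if t ≤ N k then (k, l, c + t * (k + 1), if t = 0 then b else false)
    else (k, l, c + N k * (k + 1), true)) ?_ (N k) (lev k l) (lev_le _ _) ?_
  · simpa [level] using this
  · intro t
    rcases lt_trichotomy t (N k) with h | h | h
    · rw [if_pos h.le, if_pos (Nat.succ_le_of_lt h), if_neg (Nat.succ_ne_zero t),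
        show c + (t + 1) * (k + 1) = c + t * (k + 1) + (k + 1) by ring]
      exact Step.wait _ _ _ _
    · rw [if_pos h.le, if_neg (show ¬ t + 1 ≤ N k by omega), h]
      exact Step.free _ _ _ _ hfree
    · rw [if_neg (by omega), if_neg (by omega)]
      exact Step.free _ _ _ _ hfree
  · intro t ht _
    rw [if_neg (by omega)]
    simp [r, level]

lemma play_switch (θ : ℕ → ℝ) (h0 : ∀ t, 0 ≤ θ t) (h1 : HasSum θ 1) (k l c : ℕ) (b : Bool)
    (m : ℕ) (hm : 0 < m) (hθ : ∀ t, m * (k + 1) ≤ t → θ t = 0) :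
    lev k l - ∑ t ∈ Finset.range m, θ t ≤ sSup (vals θ (k, l + 1, c, b)) := by
  obtain ⟨C, hC⟩ : ∃ C, C = c + m * (k + 1) := ⟨_, rfl⟩
  have := le_val θ h0 h1 (fun t => if t ≤ m then
      (k, l + 1, c + t * (k + 1), if t = 0 then b else false)
    else if t ≤ m + 1 + C then (k, l, m + 1 + C - t, true)
    else (k, l, (t - (m + 1 + C)) * (k + 1), false)) ?_ m (lev k l) (lev_le _ _) ?_
  · simpa using this
  · intro t
    rcases lt_trichotomy t m with h | h | h
    · rw [if_pos h.le, if_pos (Nat.succ_le_of_lt h), if_neg (Nat.succ_ne_zero t),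
        show c + (t + 1) * (k + 1) = c + t * (k + 1) + (k + 1) by ring]
      exact Step.wait _ _ _ _
    · rw [if_pos h.le, if_neg (show ¬ (t + 1 ≤ m) by omega), if_pos (show t + 1 ≤ m + 1 + C by omega),
        if_neg (show ¬ t = 0 by omega), h, ← hC, show m + 1 + C - (m + 1) = C by omega]
      exact Step.switch _ _ _
    · rw [if_neg (show ¬ (t ≤ m) by omega), if_neg (show ¬ (t + 1 ≤ m) by omega)]
      rcases lt_trichotomy t (m + 1 + C) with h' | h' | h'
      · rw [if_pos h'.le, if_pos (Nat.succ_le_of_lt h'),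
          show m + 1 + C - t = m + 1 + C - (t + 1) + 1 by omega]
        exact Step.collect _ _ _
      · rw [if_pos h'.le, if_neg (by omega), show m + 1 + C - t = 0 by omega,
          show t + 1 - (m + 1 + C) = 1 by omega, show 1 * (k + 1) = 0 + (k + 1) by ring]
        exact Step.wait _ _ _ _
      · rw [if_neg (by omega), if_neg (by omega),
          show t + 1 - (m + 1 + C) = t - (m + 1 + C) + 1 by omega, add_mul, one_mul]
        exact Step.wait _ _ _ _
  · intro t ht hz
    have : t < m * (k + 1) := by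
      by_contra h
      exact hz (hθ t (by omega))
    rw [if_neg (by omega), if_pos (by omega)]
    simp [r, level]

noncomputable def ces (n t : ℕ) : ℝ := if t < n + 1 then 1 / ((n : ℝ) + 1) else 0

lemma ces_nonneg (n t : ℕ) : 0 ≤ ces n t := by
  unfold ces
  split_ifs
  · positivity
  · exact le_rfl

lemma ces_sum (n : ℕ) : HasSum (ces n) 1 := by
  have := hasSum_sum_of_ne_finset_zero (L := SummationFilter.unconditional ℕ) (f := ces n)
    (s := Finset.range (n + 1)) (fun b hb => if_neg (by simpa using hb))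
  rw [Finset.sum_congr rfl (f := ces n) (g := fun _ => 1 / ((n : ℝ) + 1))
    (fun t ht => if_pos (by simpa using ht))] at this
  simp only [Finset.sum_const, Finset.card_range, nsmul_eq_mul, Nat.cast_add, Nat.cast_one] at this
  rwa [mul_one_div_cancel (by positivity)] at this

lemma ces_part (n m : ℕ) : ∑ t ∈ Finset.range m, ces n t ≤ m / ((n : ℝ) + 1) := by
  have : ∑ t ∈ Finset.range m, ces n t ≤ ∑ t ∈ Finset.range m, 1 / ((n : ℝ) + 1) := by
    apply Finset.sum_le_sum
    intro t _
    unfold ces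
    split_ifs
    · exact le_rfl
    · positivity
  simpa [div_eq_mul_inv] using this

lemma ces_conv : TendstoUniformly (fun n z => sSup (vals (ces n) z)) level atTop := by
  rw [Metric.tendstoUniformly_iff]
  intro ε hε
  obtain ⟨K, hK⟩ := exists_nat_one_div_lt (show 0 < ε / 4 by positivity)
  have hB : Tendsto (fun n : ℕ => ((∑ k ∈ Finset.range K, N k + 1 : ℕ) : ℝ) * (1 / ((n : ℝ) + 1)))
      atTop (𝓝 0) := by
    simpa using tendsto_one_div_add_atTop_nhds_zero_nat.const_mul
      ((∑ k ∈ Finset.range K, N k + 1 : ℕ) : ℝ)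
  filter_upwards [hB.eventually (gt_mem_nhds (show 0 < ε / 4 by positivity))] with n hn z
  have hu := val_le _ (ces_nonneg n) (ces_sum n) z
  rw [Real.dist_eq, abs_of_nonneg (by linarith)]
  rw [mul_one_div] at hn
  obtain ⟨k, l, c, b⟩ := z
  have hn0 : (0 : ℝ) < n + 1 := by positivity
  rcases lt_or_ge k K with hk | hk
  · have h1 := play_free _ (ces_nonneg n) (ces_sum n) (k, l, c, b)
    have h2 := ces_part n (N k)
    have h3 : N k ≤ ∑ k ∈ Finset.range K, N k + 1 :=
      (Finset.single_le_sum (f := N) (fun _ _ => Nat.zero_le _) (Finset.mem_range.2 hk)).trans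
        (Nat.le_succ _)
    have h4 : (N k : ℝ) / (n + 1) ≤ ((∑ k ∈ Finset.range K, N k + 1 : ℕ) : ℝ) / (n + 1) := by
      gcongr
    dsimp only at h1
    linarith
  · cases l with
    | zero =>
      have h1 : 0 ≤ sSup (vals (ces n) (k, 0, c, b)) := by
        apply Real.sSup_nonneg
        rintro _ ⟨s, _, _, rfl⟩
        exact tsum_nonneg (fun t => mul_nonneg (ces_nonneg _ _) (r_bd _).1)
      have h2 : level (k, 0, c, b) = 0 := by simp [level, lev]
      linarith
    | succ l =>
      have h1 := play_switch _ (ces_nonneg n) (ces_sum n) k l c b ((n + 1) / (k + 1) + 1)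
        (Nat.succ_pos _) (fun t ht => if_neg (by
          have := Nat.lt_div_mul_add (a := n + 1) (Nat.succ_pos k)
          rw [add_mul, one_mul] at ht
          simp only [Nat.succ_eq_add_one] at this
          omega))
      have h2 := ces_part n ((n + 1) / (k + 1) + 1)
      have h3 : (((n + 1) / (k + 1) + 1 : ℕ) : ℝ) / (n + 1) ≤ 1 / (k + 1) + 1 / (n + 1) := by
        have h5 : (((n + 1) / (k + 1) : ℕ) : ℝ) ≤ (n + 1) / (k + 1) := by
          have := Nat.cast_div_le (α := ℝ) (m := n + 1) (n := k + 1)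
          simpa using this
        rw [Nat.cast_add, Nat.cast_one, add_div]
        refine add_le_add ?_ le_rfl
        rw [div_le_iff₀ hn0]
        refine h5.trans (le_of_eq ?_)
        ring
      have h4 : (1 : ℝ) / (k + 1) ≤ 1 / (K + 1) := by gcongr
      have h6 : (1 : ℝ) / (n + 1) ≤ ((∑ k ∈ Finset.range K, N k + 1 : ℕ) : ℝ) / (n + 1) := by
        gcongr
        exact_mod_cast Nat.le_add_left 1 _
      have h7 := (lev_succ k l).2
      have h8 : level (k, l + 1, c, b) = lev k (l + 1) := rfl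
      linarith

noncomputable def lw (k t : ℕ) : ℝ := if t < T k then 1 / ((t : ℝ) + 1) / Hs (T k) else 0

lemma Hs_ge (k : ℕ) : (k : ℝ) + 1 ≤ Hs (T k) := by
  have := T_spec k
  have h : (0 : ℝ) ≤ k := Nat.cast_nonneg k
  nlinarith

lemma Hs_pos (k : ℕ) : 0 < Hs (T k) := lt_of_lt_of_le (by positivity) (Hs_ge k)

lemma lw_nonneg (k t : ℕ) : 0 ≤ lw k t := by
  have := Hs_pos k
  unfold lw
  split_ifs
  · positivity
  · exact le_rfl

lemma lw_le (k t : ℕ) : lw k t ≤ 1 / ((k : ℝ) + 1) := by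
  have h1 := Hs_ge k
  unfold lw
  split_ifs
  · have h2 : (0 : ℝ) ≤ t := Nat.cast_nonneg t
    gcongr
    rw [div_le_one (by positivity)]
    linarith
  · positivity

lemma lw_sum (k : ℕ) : HasSum (lw k) 1 := by
  have := hasSum_sum_of_ne_finset_zero (L := SummationFilter.unconditional ℕ) (f := lw k)
    (s := Finset.range (T k)) (fun b hb => if_neg (by simpa using hb))
  rw [Finset.sum_congr rfl (f := lw k) (g := fun t : ℕ => 1 / ((t : ℝ) + 1) / Hs (T k))
    (fun t ht => if_pos (by simpa using ht)), ← Finset.sum_div] at this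
  rwa [show ∑ t ∈ Finset.range (T k), 1 / ((t : ℝ) + 1) = Hs (T k) from rfl,
    div_self (Hs_pos k).ne'] at this

lemma lw_tv (k : ℕ) : ∑' t, |lw k (t + 1) - lw k t| ≤ 1 / ((k : ℝ) + 1) := by
  have hanti : ∀ t, lw k (t + 1) ≤ lw k t := by
    intro t
    by_cases h : t + 1 < T k
    · have := Hs_pos k
      unfold lw
      rw [if_pos h, if_pos (by omega)]
      gcongr
      linarith
    · have : lw k (t + 1) = 0 := if_neg h
      rw [this]
      exact lw_nonneg _ _
  rw [tsum_eq_sum (s := Finset.range (T k))]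
  · rw [Finset.sum_congr rfl (g := fun t => lw k t - lw k (t + 1))
      (fun t _ => by rw [abs_sub_comm, abs_of_nonneg (sub_nonneg.2 (hanti t))]),
      Finset.sum_range_sub']
    linarith [lw_le k 0, lw_nonneg k (T k)]
  · intro t ht
    have h : ¬ t < T k := by simpa using ht
    unfold lw
    rw [if_neg h, if_neg (by omega)]
    simp

lemma invar (k : ℕ) (s : ℕ → Z) (h0 : s 0 = (k, k + 1, 0, false))
    (hs : ∀ t, Step (s t) (s (t + 1))) (t : ℕ) (ht : t ≤ T k) :
    (s t).1 = k ∧ (s t).2.2.1 ≤ (k + 1) * t ∧ ((s t).2.2.2 = true → 0 < t) ∧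
      ∑ u ∈ Finset.range t, 1 / ((u : ℝ) + 1) * r (s (u + 1))
        + (if (s t).2.2.2 then ((s t).2.2.1 : ℝ) / t else 0) + ((k : ℝ) + 2) * (s t).2.1
        ≤ ((k : ℝ) + 2) * (k + 1) := by
  induction t with
  | zero => simp [h0]
  | succ t ih =>
    obtain ⟨h1, h2, h3, h4⟩ := ih (by omega)
    have hst := hs t
    rw [Finset.sum_range_succ]
    generalize s t = a at *
    generalize s (t + 1) = b at *
    generalize ∑ u ∈ Finset.range t, 1 / ((u : ℝ) + 1) * r (s (u + 1)) = S at *
    have ht0 : (0 : ℝ) ≤ t := Nat.cast_nonneg t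
    cases hst with
    | wait k' l c b =>
      dsimp only at *
      subst h1
      refine ⟨rfl, by nlinarith, by simp, ?_⟩
      have : (0 : ℝ) ≤ if b = true then (c : ℝ) / t else 0 := by
        split_ifs
        · positivity
        · exact le_rfl
      simp only [r, Bool.false_eq_true, if_false]
      linarith
    | switch k' l c =>
      dsimp only at *
      subst h1
      refine ⟨rfl, by nlinarith, by simp, ?_⟩
      simp only [r, Bool.false_eq_true, if_false, if_true, level] at h4 ⊢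
      have e1 : 1 / ((t : ℝ) + 1) * lev k' l ≤ 1 := by
        apply mul_le_one₀ _ (lev_nonneg _ _) (lev_le _ _)
        rw [div_le_one (by positivity)]
        linarith
      have e2 : (c : ℝ) / ((t + 1 : ℕ) : ℝ) ≤ k' + 1 := by
        rw [div_le_iff₀ (by positivity)]
        have : (c : ℝ) ≤ (k' + 1) * t := by exact_mod_cast h2
        push_cast
        nlinarith [Nat.cast_nonneg (α := ℝ) k']
      push_cast at h4 e2 ⊢
      linarith
    | collect k' l c =>
      dsimp only at *
      subst h1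
      refine ⟨rfl, by nlinarith, by simp, ?_⟩
      simp only [r, if_true, level] at h4 ⊢
      have ht1 : (0 : ℝ) < t := by exact_mod_cast h3 rfl
      have e1 : 1 / ((t : ℝ) + 1) * lev k' l ≤ 1 / ((t : ℝ) + 1) :=
        mul_le_of_le_one_right (by positivity) (lev_le _ _)
      have e2 : ((c : ℝ) + 1) / (t + 1) ≤ (c + 1) / t := by
        gcongr
        linarith
      have e3 : ((c : ℝ) + 1) / (t + 1) = 1 / (t + 1) + c / (t + 1) := by ring
      push_cast at h4 ⊢
      linarith
    | free k' l c b hN =>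
      dsimp only at *
      subst h1
      exfalso
      unfold N at hN
      have : (k' + 1) * t ≤ (k' + 1) * T k' := Nat.mul_le_mul_left _ (by omega)
      omega

lemma lw_val (k : ℕ) : sSup (vals (lw k) (k, k + 1, 0, false)) ≤ 1 / 2 := by
  apply Real.sSup_le _ (by norm_num)
  rintro _ ⟨s, h0, hs, rfl⟩
  have h1 := (invar k s h0 hs (T k) le_rfl).2.2.2
  have h2 : (0 : ℝ) ≤ if (s (T k)).2.2.2 then ((s (T k)).2.2.1 : ℝ) / T k else 0 := by
    split_ifs
    · positivity
    · exact le_rfl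
  have h3 : (0 : ℝ) ≤ ((k : ℝ) + 2) * (s (T k)).2.1 := by positivity
  rw [tsum_eq_sum (s := Finset.range (T k))]
  · rw [Finset.sum_congr rfl (g := fun t : ℕ => 1 / ((t : ℝ) + 1) * r (s (t + 1)) / Hs (T k)),
      ← Finset.sum_div, div_le_iff₀ (Hs_pos k)]
    · linarith [T_spec k]
    · intro t ht
      unfold lw
      rw [if_pos (by simpa using ht)]
      ring
  · intro t ht
    unfold lw
    rw [if_neg (by simpa using ht), zero_mul]


/-- The negation of the preceding statement: For any type Z, nonempty-valued F, r∈[0,1]: if the Cesàro values v_{n+1}(z)=sup over plays of (1/(n+1))Σ_{t≤n} r(s(t+1)) converge uniformly, then for any probability weights θ^k with Σ∣θ^k_{t+1}-θ^k_t∣→0, the values sup over plays of Σ θ^k_t r(s(t+1)) converge uniformly to some w. -/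
theorem result :
    ¬ (∀ (Z : Type) (F : Z → Set Z) (r : Z → ℝ),
      (∀ z, (F z).Nonempty) →
      (∀ z, 0 ≤ r z ∧ r z ≤ 1) →
      (∃ w : Z → ℝ, TendstoUniformly
          (fun (n : ℕ) (z : Z) =>
            sSup {x : ℝ | ∃ s : ℕ → Z, s 0 = z ∧ (∀ t, s (t + 1) ∈ F (s t)) ∧
              x = ∑' t, (if t < n + 1 then 1 / ((n : ℝ) + 1) else 0) * r (s (t + 1))})
          w atTop) →
      ∀ θ : ℕ → ℕ → ℝ,
        (∀ k t, 0 ≤ θ k t) →
        (∀ k, HasSum (θ k) 1) →
        Tendsto (fun k => ∑' t, |θ k (t + 1) - θ k t|) atTop (𝓝 0) →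
        ∃ w : Z → ℝ, TendstoUniformly
          (fun (k : ℕ) (z : Z) =>
            sSup {x : ℝ | ∃ s : ℕ → Z, s 0 = z ∧ (∀ t, s (t + 1) ∈ F (s t)) ∧
              x = ∑' t, θ k t * r (s (t + 1))})
          w atTop) := by
  intro H
  obtain ⟨w, hw⟩ := H Z (fun a => {b | Step a b}) r
    (fun ⟨k, l, c, b⟩ => ⟨_, Step.wait k l c b⟩)
    (fun z => ⟨(r_bd z).1, (r_bd z).2.trans (lev_le _ _)⟩) ⟨level, ces_conv⟩ lw lw_nonneg lw_sum
    (squeeze_zero (fun k => tsum_nonneg (fun t => abs_nonneg _)) lw_tv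
      tendsto_one_div_add_atTop_nhds_zero_nat)
  change TendstoUniformly (fun k z => sSup (vals (lw k) z)) w atTop at hw
  have h1 : ∀ z, level z ≤ w z := by
    intro z
    have h2 : Tendsto (fun k : ℕ => level z - (N z.1 : ℝ) * (1 / ((k : ℝ) + 1))) atTop
        (𝓝 (level z)) := by
      simpa using (tendsto_one_div_add_atTop_nhds_zero_nat.const_mul (N z.1 : ℝ)).const_sub
        (level z)
    refine le_of_tendsto_of_tendsto' h2 (hw.tendsto_at z) (fun k => ?_)
    refine le_trans ?_ (play_free _ (lw_nonneg k) (lw_sum k) z)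
    have := Finset.sum_le_sum (s := Finset.range (N z.1)) (fun t _ => lw_le k t)
    simp only [Finset.sum_const, Finset.card_range, nsmul_eq_mul] at this
    linarith
  obtain ⟨k, hk⟩ := ((Metric.tendstoUniformly_iff.1 hw) (1 / 2) (by norm_num)).exists
  have h3 := hk (k, k + 1, 0, false)
  have h4 := h1 (k, k + 1, 0, false)
  have h5 : level (k, k + 1, 0, false) = 1 := by
    simp only [level, lev]
    rw [Nat.cast_add, Nat.cast_one, div_self (by positivity), min_self]
  have h6 := lw_val k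
  rw [Real.dist_eq] at h3
  linarith [(abs_lt.1 h3).2]

end Pool.Agent.S05912
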