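import Pool.Statements.S05958
import Pool.Agent.H29.Width

set_option autoImplicit false
open Polynomial Filter
open Pool Pool.MP_bcdbe1_an

namespace Pool.Agent.S05958

theorem result :
    ¬ (∀ W : Polynomial ℂ → ℝ,
      (∀ q : Polynomial ℂ,
        W q = sSup {x : ℝ | ∃ z ∈ q.roots, ∃ w ∈ q.roots, x = z.re - w.re}) →
      ∀ p : Polynomial ℂ,
        AntitoneOn
          (fun l : ℝ =>
            W ((p.comp (X + C (l : ℂ)) - p.comp (X - C (l : ℂ))) * C (1 / (2 * (l : ℂ)))))
          (Set.Ioi (W (derivative p))) ∧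
        Tendsto
          (fun l : ℝ =>
            W ((p.comp (X + C (l : ℂ)) - p.comp (X - C (l : ℂ))) * C (1 / (2 * (l : ℂ)))))
          atTop (nhds 0)) := by
  intro h
  have h1 := (h (fun q => sSup (Pool.Agent.H29.Width.S q)) (fun q => rfl)
    (Pool.Agent.H29.Width.P Pool.Agent.H29.Width.a0 Pool.Agent.H29.Width.b0
      Pool.Agent.H29.Width.c0)).1
  have hd := Pool.Agent.H29.Width.Wd
  have h2 := h1 (a := (1 : ℝ)) (by show _ < (1 : ℝ); linarith) (b := (11 / 10 : ℝ))
    (by show _ < (11 / 10 : ℝ); linarith) (by norm_num)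
  have h3 := Pool.Agent.H29.Width.W1
  have h4 := Pool.Agent.H29.Width.W2
  simp only at h2
  linarith

end Pool.Agent.S05958
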