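import Pool.Statements.S05971
import Pool.Agent.H29.BorelCenter

set_option autoImplicit false
open Pool Pool.MP_bdf9ed_an

namespace Pool.Agent.S05971

theorem result :
    ∀ A : Set ℝ, MeasurableSet A → (0 : ℝ) ∈ A → A ⊆ Set.Ici (0 : ℝ) →
      ∃ B : Set ℝ, MeasurableSet B ∧
        {α : ℝ | 0 ≤ α ∧ ∀ x ∈ B, ∃ y ∈ B, |x - y| = α} = A := by
  intro A hA h0 hsub
  exact Pool.Agent.H29.BorelCenter.main A hA h0 hsub

end Pool.Agent.S05971
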