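import Pool.Statements.S05980
import Pool.Agent.H5.StarFin

set_option autoImplicit false
open Pool Pool.MP_be6c88_an

namespace Pool.Agent.S05980

/-- The negation of the preceding statement: There is an infinite-dimensional real Banach space whose norm is Fréchet differentiable away from 0 and which is covered by closed balls of positive radius, each meeting only finitely many balls of the covering. -/
theorem result :
    ¬ (∃ (X : Type) (_ : NormedAddCommGroup X) (_ : NormedSpace ℝ X),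
      CompleteSpace X ∧ ¬ FiniteDimensional ℝ X ∧
      (∀ x : X, x ≠ 0 → DifferentiableAt ℝ (fun y : X => ‖y‖) x) ∧
      ∃ 𝒞 : Set (Set X),
        (∀ B ∈ 𝒞, ∃ c : X, ∃ r : ℝ, 0 < r ∧ B = Metric.closedBall c r) ∧
        ⋃₀ 𝒞 = Set.univ ∧
        ∀ B ∈ 𝒞, {B' ∈ 𝒞 | (B ∩ B').Nonempty}.Finite) := by
  rintro ⟨X, _, _, _, hX, hdiff, C, hball, hcov, hstar⟩
  choose c r hr hB using hball
  obtain ⟨k, hk, η, hη, t0, ht0, h⟩ := Pool.Agent.H5.StarFin.rough_piece hX (ι := C)
    (fun B => c B.1 B.2) (fun B => r B.1 B.2) (fun B => hr B.1 B.2)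
    (fun x => by
      obtain ⟨B, hB1, hx⟩ : x ∈ ⋃₀ C := hcov ▸ Set.mem_univ x
      exact ⟨⟨B, hB1⟩, hB B hB1 ▸ hx⟩)
    (fun B => by
      refine ((hstar B.1 B.2).preimage (f := (Subtype.val : C → _))
        Subtype.val_injective.injOn).subset fun D hD => ⟨D.2, ?_⟩
      rw [hB B.1 B.2, hB D.1 D.2]
      exact hD)
  have hk0 : k ≠ 0 := norm_pos_iff.1 (by rw [hk]; norm_num)
  obtain ⟨f, hf⟩ := hdiff k hk0
  have h1 := (hasFDerivAt_iff_isLittleO_nhds_zero.1 hf).def (c := 1 / 2) (by norm_num)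
  obtain ⟨τ, hτ, h2⟩ := Metric.eventually_nhds_iff.1 h1
  set t := min t0 (τ / 2) with ht
  have htpos : 0 < t := lt_min ht0 (by positivity)
  obtain ⟨v, hv, h3, h4⟩ := h k hk (by simpa using hη) t htpos.le (min_le_left _ _) (t / 4)
    (by positivity)
  have h5 := Pool.Agent.H5.StarFin.norm_smul_le' hv htpos.le
  have h6 : t ≤ τ / 2 := min_le_right _ _
  have h7 := h2 (y := t • v) (by rw [dist_zero_right]; linarith)
  have h8 := h2 (y := -(t • v)) (by rw [dist_zero_right, norm_neg]; linarith)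
  rw [map_neg, norm_neg, ← sub_eq_add_neg, hk, Real.norm_eq_abs] at h8
  rw [hk, Real.norm_eq_abs] at h7
  have h9 := (abs_le.1 h7).2
  have h10 := (abs_le.1 h8).2
  linarith

end Pool.Agent.S05980
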