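import Pool.Statements.S05991

set_option autoImplicit false
open Pool Pool.MP_bf1b21_an

namespace Pool.Agent.S05991

open Cardinal Set

section
variable {G : Type}

/-- the Rademacher coordinate -/
noncomputable def rad (γ : G) : C(G → Bool, ℝ) :=
  ⟨fun t => if t γ then 1 else -1,
    (continuous_of_discreteTopology (f := fun b : Bool => if b then (1 : ℝ) else -1)).comp
      (continuous_apply γ)⟩

open Classical in
/-- the coordinates on which a function depends -/
def dep (f : C(G → Bool, ℝ)) : Set G := {γ | ∃ t b, f (Function.update t γ b) ≠ f t}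

open Classical in
lemma not_mem_dep {f : C(G → Bool, ℝ)} {γ : G} :
    γ ∉ dep f ↔ ∀ t b, f (Function.update t γ b) = f t := by
  simp [dep]

lemma rad_not_dep {γ δ : G} (h : δ ≠ γ) : δ ∉ dep (rad γ) := by
  classical
  rw [not_mem_dep]
  intro t b
  simp [rad, Function.update_of_ne h.symm]

lemma dep_finite {f : C(G → Bool, ℝ)} (hf : f ∈ Algebra.adjoin ℝ (range (rad (G := G)))) :
    (dep f).Finite := by
  induction hf using Algebra.adjoin_induction with
  | mem x hx =>
    obtain ⟨γ, rfl⟩ := hx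
    refine (finite_singleton γ).subset fun δ hδ => ?_
    by_contra h
    exact rad_not_dep h hδ
  | algebraMap r =>
    refine finite_empty.subset fun δ hδ => ?_
    exact (not_mem_dep.2 fun t b => by simp) hδ
  | add x y _ _ hx hy =>
    refine (hx.union hy).subset fun δ hδ => ?_
    by_contra h
    rw [mem_union, not_or, not_mem_dep, not_mem_dep] at h
    exact (not_mem_dep.2 fun t b => by simp [h.1 t b, h.2 t b]) hδ
  | mul x y _ _ hx hy =>
    refine (hx.union hy).subset fun δ hδ => ?_
    by_contra h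
    rw [mem_union, not_or, not_mem_dep, not_mem_dep] at h
    exact (not_mem_dep.2 fun t b => by simp [h.1 t b, h.2 t b]) hδ

lemma exists_seq (f : C(G → Bool, ℝ)) :
    ∃ u : ℕ → Algebra.adjoin ℝ (range (rad (G := G))),
      Filter.Tendsto (fun n => (u n : C(G → Bool, ℝ))) Filter.atTop (nhds f) := by
  have h1 : (Algebra.adjoin ℝ (range (rad (G := G)))).SeparatesPoints := by
    intro x y hxy
    obtain ⟨γ, hγ⟩ := Function.ne_iff.1 hxy
    refine ⟨rad γ, ⟨rad γ, Algebra.subset_adjoin ⟨γ, rfl⟩, rfl⟩, ?_⟩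
    simp only [rad, ContinuousMap.coe_mk]
    cases hx : x γ <;> cases hy : y γ <;> simp_all <;> norm_num
  have h2 := ContinuousMap.subalgebra_topologicalClosure_eq_top_of_separatesPoints _ h1
  have h3 : f ∈ closure (Algebra.adjoin ℝ (range (rad (G := G))) : Set C(G → Bool, ℝ)) := by
    have : f ∈ (Algebra.adjoin ℝ (range (rad (G := G)))).topologicalClosure := by
      rw [h2]; trivial
    exact this
  obtain ⟨u, hu, hlim⟩ := mem_closure_iff_seq_limit.1 h3
  exact ⟨fun n => ⟨u n, hu n⟩, hlim⟩

lemma dep_countable (f : C(G → Bool, ℝ)) : (dep f).Countable := by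
  classical
  obtain ⟨u, hu⟩ := exists_seq f
  refine (countable_iUnion fun n => (dep_finite (u n).2).countable).mono fun δ hδ => ?_
  by_contra h
  rw [mem_iUnion, not_exists] at h
  refine (not_mem_dep.2 fun t b => ?_) hδ
  have h1 : ∀ s, Filter.Tendsto (fun n => (u n : C(G → Bool, ℝ)) s) Filter.atTop (nhds (f s)) :=
    fun s => ((continuous_eval_const s).tendsto f).comp hu
  refine tendsto_nhds_unique (h1 _) ((h1 t).congr fun n => ?_)
  exact (not_mem_dep.1 (h n) t b).symm

lemma card_le (hG : #G ≤ 𝔠) : #C(G → Bool, ℝ) ≤ 𝔠 := by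
  choose u hu using exists_seq (G := G)
  have h1 : Function.Injective u := fun f g h => tendsto_nhds_unique (hu f) (h ▸ hu g)
  have h2 : #(Algebra.adjoin ℝ (range (rad (G := G)))) ≤ 𝔠 := by
    refine (Algebra.cardinalMk_adjoin_le ℝ _).trans ?_
    refine sup_le (sup_le mk_real.le (mk_range_le.trans hG)) aleph0_le_continuum
  refine (mk_le_of_injective h1).trans ?_
  rw [← power_def, mk_nat]
  calc _ ≤ 𝔠 ^ ℵ₀ := power_le_power_right h2
    _ = 𝔠 := continuum_power_aleph0

lemma norm_rad (γ : G) : ‖rad γ‖ ≤ 1 := by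
  rw [ContinuousMap.norm_le _ zero_le_one]
  intro t
  simp only [rad, ContinuousMap.coe_mk]
  split_ifs <;> simp

lemma norm_add_rad {g : C(G → Bool, ℝ)} {γ : G} (h : γ ∉ dep g) (hg : 1 < ‖g‖) :
    2 < ‖g + rad γ‖ := by
  classical
  obtain ⟨t, ht⟩ : ∃ t, 1 < |g t| := by
    by_contra hc
    push Not at hc
    exact absurd ((ContinuousMap.norm_le _ zero_le_one).2 hc) (not_le.2 hg)
  rw [not_mem_dep] at h
  rcases lt_abs.1 ht with h1 | h1
  · refine lt_of_lt_of_le ?_ ((g + rad γ).norm_coe_le_norm (Function.update t γ true))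
    simp only [ContinuousMap.add_apply, h, rad, ContinuousMap.coe_mk, Function.update_self,
      if_true, Real.norm_eq_abs]
    exact lt_abs.2 (Or.inl (by linarith))
  · refine lt_of_lt_of_le ?_ ((g + rad γ).norm_coe_le_norm (Function.update t γ false))
    simp only [ContinuousMap.add_apply, h, rad, ContinuousMap.coe_mk, Function.update_self,
      Real.norm_eq_abs]
    exact lt_abs.2 (Or.inr (by simp; linarith))

end

lemma exists_active {I : Type} [LinearOrder I] [WellFoundedLT I] (R : I → I → Prop) :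
    ∃ A : I → Prop, ∀ β, A β ↔ ∀ α, α < β → A α → R α β := by
  refine ⟨WellFounded.fix (C := fun _ => Prop) wellFounded_lt
    (fun β ih => ∀ α (h : α < β), ih α h → R α β), fun β => ?_⟩
  rw [WellFounded.fix_eq]

/-- There is an infinite compact Hausdorff space K such that C(K) with the sup norm is covered by closed balls of positive radius, each of which meets only finitely many balls of the cover. -/
theorem result :
    ∃ (K : Type) (_ : TopologicalSpace K) (_ : CompactSpace K) (_ : T2Space K),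
      Infinite K ∧
      ∃ 𝓑 : Set (Set C(K, ℝ)),
        (∀ B ∈ 𝓑, ∃ (x : C(K, ℝ)) (r : ℝ), 0 < r ∧ B = Metric.closedBall x r) ∧
        ⋃₀ 𝓑 = Set.univ ∧
        ∀ B ∈ 𝓑, {B' : Set C(K, ℝ) | B' ∈ 𝓑 ∧ (B ∩ B').Nonempty}.Finite := by
  classical
  let I : Type := (𝔠 : Cardinal.{0}).ord.ToType
  have hI : #I = 𝔠 := by simp [I]
  have hG : #(I × ℝ) ≤ 𝔠 := by simp [hI, mk_real]
  obtain ⟨e, he⟩ : ∃ e : I → C(I × ℝ → Bool, ℝ), Function.Surjective e := by
    obtain ⟨f⟩ := (card_le hG).trans hI.ge
    exact ⟨Function.invFun f, Function.invFun_surjective f.injective⟩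
  have hfresh : ∀ β : I, ∃ j : ℝ, ∀ α ≤ β, (β, j) ∉ dep (e α) := by
    intro β
    have h1 : #(⋃ α : Iic β, {j : ℝ | (β, j) ∈ dep (e α)}) < #ℝ := by
      refine (mk_iUnion_le _).trans_lt ?_
      rw [mk_real]
      refine mul_lt_of_lt aleph0_le_continuum ?_ ?_
      · rw [← Iio_insert]
        refine mk_insert_le.trans_lt (add_lt_of_lt aleph0_le_continuum
          (mk_Iio_toType_ord_lt β) (one_lt_aleph0.trans aleph0_lt_continuum))
      · refine lt_of_le_of_lt (ciSup_le' fun α => ?_) aleph0_lt_continuum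
        exact le_aleph0_iff_set_countable.2
          ((dep_countable (e α)).preimage (f := fun j : ℝ => (β, j)) (Prod.mk_right_injective β))
    by_contra hc
    push Not at hc
    have h2 : (⋃ α : Iic β, {j : ℝ | (β, j) ∈ dep (e α)}) = Set.univ := by
      refine eq_univ_of_forall fun j => ?_
      obtain ⟨α, h3, h4⟩ := hc j
      exact mem_iUnion.2 ⟨⟨α, h3⟩, h4⟩
    rw [h2, mk_univ] at h1
    exact lt_irrefl _ h1
  choose j hj using hfresh
  let c : I → C(I × ℝ → Bool, ℝ) := fun β => e β + rad (β, j β)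
  obtain ⟨A, hA⟩ := exists_active (fun α β : I => 1 < ‖e β - c α‖)
  have hsep : ∀ α β, α < β → A α → A β → 2 < ‖c β - c α‖ := by
    intro α β hlt hα hβ
    have h1 := (hA β).1 hβ α hlt hα
    have h2 : c β - c α = (e β - c α) + rad (β, j β) := by simp only [c]; abel
    rw [h2]
    refine norm_add_rad ?_ h1
    have h3 := not_mem_dep.1 (hj β β le_rfl)
    have h4 := not_mem_dep.1 (hj β α hlt.le)
    have h5 := not_mem_dep.1 (rad_not_dep (γ := (α, j α)) (δ := (β, j β))
      (fun h => hlt.ne' (congrArg Prod.fst h)))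
    rw [not_mem_dep]
    intro t b
    simp only [c, ContinuousMap.sub_apply, ContinuousMap.add_apply, h3, h4, h5]
  haveI : Infinite I := infinite_iff.2 (hI ▸ aleph0_le_continuum)
  refine ⟨I × ℝ → Bool, inferInstance, inferInstance, inferInstance, inferInstance,
    {B | ∃ β, A β ∧ B = Metric.closedBall (c β) 1}, ?_, ?_, ?_⟩
  · rintro B ⟨β, -, rfl⟩
    exact ⟨_, 1, one_pos, rfl⟩
  · refine eq_univ_of_forall fun f => ?_
    obtain ⟨β, rfl⟩ := he f
    by_cases hβ : A β
    · refine ⟨_, ⟨β, hβ, rfl⟩, ?_⟩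
      rw [Metric.mem_closedBall, dist_eq_norm]
      simpa [c] using norm_rad (β, j β)
    · rw [hA] at hβ
      push Not at hβ
      obtain ⟨α, -, h1, h2⟩ := hβ
      exact ⟨_, ⟨α, h1, rfl⟩, by rw [Metric.mem_closedBall, dist_eq_norm]; exact h2⟩
  · rintro B ⟨β, hβ, rfl⟩
    refine (finite_singleton (Metric.closedBall (c β) 1)).subset ?_
    rintro B' ⟨⟨α, hα, rfl⟩, x, hx1, hx2⟩
    rw [Metric.mem_closedBall] at hx1 hx2
    have h1 : dist (c β) (c α) ≤ 2 := by
      have := dist_triangle_left (c β) (c α) x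
      linarith
    rcases lt_trichotomy α β with h | h | h
    · have := hsep α β h hα hβ
      rw [dist_eq_norm] at h1
      linarith
    · rw [h]; rfl
    · have := hsep β α h hβ hα
      rw [dist_comm, dist_eq_norm] at h1
      linarith

end Pool.Agent.S05991
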