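import Pool.Statements.S05997
import Pool.Agent.H27.BisymC

set_option autoImplicit false
open Pool Pool.MP_bfe0f8_an

namespace Pool.Agent.S05997

open Set Filter Topology Pool.Agent.H27.Bisym

lemma onIcc (I : Set ℝ) (hI : I.OrdConnected) (F : ℝ → ℝ → ℝ)
    (hidem : ∀ x ∈ I, F x x = x)
    (hmed : ∀ x ∈ I, ∀ y ∈ I, ∀ u ∈ I, ∀ v ∈ I, F (F x y) (F u v) = F (F x u) (F y v))
    (hR : ∀ x ∈ I, StrictMonoOn (F x) I) (hL : ∀ y ∈ I, StrictMonoOn (fun x => F x y) I)
    {a b : ℝ} (ha : a ∈ I) (hb : b ∈ I) :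
    ContinuousOn (Function.uncurry F) (Icc a b ×ˢ Icc a b) := by
  rcases lt_or_ge a b with hab | hab
  · have hs : ∀ x : Icc a b, (x : ℝ) ∈ I := fun x => hI.out ha hb x.2
    have hmono : ∀ x y u v : Icc a b, x ≤ u → y ≤ v → F x y ≤ F u v := fun x y u v h1 h2 =>
      ((hR x (hs x)).monotoneOn (hs y) (hs v) h2).trans
        ((hL v (hs v)).monotoneOn (hs x) (hs u) h1)
    have hmem : ∀ x y : Icc a b, F x y ∈ Icc a b := by
      intro x y
      constructor
      · have := hmono ⟨a, left_mem_Icc.2 hab.le⟩ ⟨a, left_mem_Icc.2 hab.le⟩ x y x.2.1 y.2.1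
        rwa [hidem a ha] at this
      · have := hmono x y ⟨b, right_mem_Icc.2 hab.le⟩ ⟨b, right_mem_Icc.2 hab.le⟩ x.2.2 y.2.2
        rwa [hidem b hb] at this
    let D : Dat (Icc a b) :=
      { op := fun x y => ⟨F x y, hmem x y⟩
        a := ⟨a, left_mem_Icc.2 hab.le⟩
        b := ⟨b, right_mem_Icc.2 hab.le⟩
        med := fun x y u v => Subtype.ext (hmed x (hs x) y (hs y) u (hs u) v (hs v))
        idem := fun x => Subtype.ext (hidem x (hs x))
        monoL := fun y x x' h => hL y (hs y) (hs x) (hs x') h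
        monoR := fun x y y' h => hR x (hs x) (hs y) (hs y') h
        bot := fun x => x.2.1
        top := fun x => x.2.2
        lt := hab }
    have hc : Continuous fun v : Fin 2 → Icc a b => D.op (v 0) (v 1) :=
      cont_of_comm D _ (fun v w h => hmono _ _ _ _ (h 0) (h 1)) D.idem
        (fun x y => D.med _ _ _ _)
    rw [continuousOn_iff_continuous_domRestrict]
    have h2 : Continuous fun p : (Icc a b ×ˢ Icc a b : Set (ℝ × ℝ)) =>
        (![⟨p.1.1, p.2.1⟩, ⟨p.1.2, p.2.2⟩] : Fin 2 → Icc a b) := by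
      refine continuous_pi fun i => ?_
      fin_cases i
      · exact Continuous.subtype_mk (continuous_fst.comp continuous_subtype_val) _
      · exact Continuous.subtype_mk (continuous_snd.comp continuous_subtype_val) _
    exact continuous_subtype_val.comp (hc.comp h2)
  · apply Set.Subsingleton.continuousOn
    have h := subsingleton_Icc_of_ge hab
    exact fun p hp q hq => Prod.ext (h hp.1 hq.1) (h hp.2 hq.2)

lemma nbhd (I : Set ℝ) {x y : ℝ} (hx : x ∈ I) (hy : y ∈ I) :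
    ∃ a ∈ I, ∃ b ∈ I, Icc a b ∈ 𝓝[I] x ∧ Icc a b ∈ 𝓝[I] y := by
  have hlo : ∃ a ∈ I, Ici a ∈ 𝓝[I] x ∧ Ici a ∈ 𝓝[I] y := by
    by_cases h : ∃ a ∈ I, a < min x y
    · obtain ⟨a, ha, h⟩ := h
      exact ⟨a, ha, mem_nhdsWithin_of_mem_nhds (Ici_mem_nhds (h.trans_le (min_le_left _ _))),
        mem_nhdsWithin_of_mem_nhds (Ici_mem_nhds (h.trans_le (min_le_right _ _)))⟩
    · push Not at h
      have hm : min x y ∈ I := by rcases min_choice x y with e | e <;> rwa [e]
      exact ⟨_, hm, mem_of_superset self_mem_nhdsWithin h, mem_of_superset self_mem_nhdsWithin h⟩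
  have hhi : ∃ b ∈ I, Iic b ∈ 𝓝[I] x ∧ Iic b ∈ 𝓝[I] y := by
    by_cases h : ∃ a ∈ I, max x y < a
    · obtain ⟨a, ha, h⟩ := h
      exact ⟨a, ha, mem_nhdsWithin_of_mem_nhds (Iic_mem_nhds ((le_max_left _ _).trans_lt h)),
        mem_nhdsWithin_of_mem_nhds (Iic_mem_nhds ((le_max_right _ _).trans_lt h))⟩
    · push Not at h
      have hm : max x y ∈ I := by rcases max_choice x y with e | e <;> rwa [e]
      exact ⟨_, hm, mem_of_superset self_mem_nhdsWithin h, mem_of_superset self_mem_nhdsWithin h⟩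
  obtain ⟨a, ha, h1, h2⟩ := hlo
  obtain ⟨b, hb, h3, h4⟩ := hhi
  exact ⟨a, ha, b, hb, inter_mem h1 h3, inter_mem h2 h4⟩

/-- For every real interval I, any binary operation on I that is reflexive, bisymmetric, and strictly increasing in each variable is continuous on I×I. -/
theorem result :
    ∀ (I : Set ℝ), I.OrdConnected → ∀ F : ℝ → ℝ → ℝ,
      (∀ x ∈ I, ∀ y ∈ I, F x y ∈ I) →
      (∀ x ∈ I, F x x = x) →
      (∀ x ∈ I, ∀ y ∈ I, ∀ u ∈ I, ∀ v ∈ I,
        F (F x y) (F u v) = F (F x u) (F y v)) →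
      (∀ x ∈ I, StrictMonoOn (F x) I) →
      (∀ y ∈ I, StrictMonoOn (fun x => F x y) I) →
      ContinuousOn (Function.uncurry F) (I ×ˢ I) := by
  intro I hI F _ hidem hmed hR hL p hp
  obtain ⟨a, ha, b, hb, h1, h2⟩ := nbhd I hp.1 hp.2
  have hc := onIcc I hI F hidem hmed hR hL ha hb
  have hp' : p ∈ Icc a b ×ˢ Icc a b :=
    ⟨mem_of_mem_nhdsWithin hp.1 h1, mem_of_mem_nhdsWithin hp.2 h2⟩
  refine (hc p hp').mono_of_mem_nhdsWithin ?_
  rw [nhdsWithin_prod_eq]
  exact prod_mem_prod h1 h2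

end Pool.Agent.S05997
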