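import Pool.Statements.S06000
import Pool.Agent.H5.VecRange

set_option autoImplicit false
open Pool Pool.MP_c0175c_an

namespace Pool.Agent.S06000

/-- The negation of the preceding statement: Every weakly compact subset of the real sequence space c_0 is contained in the range of some countably additive c_0-valued vector measure on some measurable space. -/
theorem result :
    ¬ (∀ K : Set (ZeroAtInftyContinuousMap ℕ ℝ),
      IsCompact ((toWeakSpace ℝ (ZeroAtInftyContinuousMap ℕ ℝ)) '' K) →
      ∃ (α : Type) (_ : MeasurableSpace α)
        (μ : MeasureTheory.VectorMeasure α (ZeroAtInftyContinuousMap ℕ ℝ)),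
        K ⊆ Set.range (fun s : Set α => μ s)) := by
  exact H5.VecRange.main

end Pool.Agent.S06000
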