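import Pool.Statements.S06006

set_option autoImplicit false
open MeasureTheory
open Pool Pool.MP_c09e54_an

namespace Pool.Agent.S06006

open Set in
lemma dense_pre {U : Set ℝ} (hq : range ((↑) : ℚ → ℝ) ⊆ U) {f : ℝ → ℝ} (hf : Isometry f) :
    Dense (f ⁻¹' U) := by
  refine dense_of_exists_between fun a b hab => ?_
  have hc : IsPreconnected (f '' Ioo a b) := isPreconnected_Ioo.image f hf.continuous.continuousOn
  obtain ⟨c, hc1, hc2⟩ := exists_between hab
  obtain ⟨d, hd1, hd2⟩ := exists_between hc2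
  have m1 : f c ∈ f '' Ioo a b := ⟨c, ⟨hc1, hc2⟩, rfl⟩
  have m2 : f d ∈ f '' Ioo a b := ⟨d, ⟨hc1.trans hd1, hd2⟩, rfl⟩
  have key : ∀ x y, x ∈ f '' Ioo a b → y ∈ f '' Ioo a b → x < y → ∃ z ∈ f ⁻¹' U, a < z ∧ z < b := by
    intro x y hx hy hxy
    obtain ⟨q, h1, h2⟩ := exists_rat_btwn hxy
    obtain ⟨z, hz, hz'⟩ := hc.Icc_subset hx hy ⟨h1.le, h2.le⟩
    exact ⟨z, by rw [mem_preimage, hz']; exact hq ⟨q, rfl⟩, hz⟩
  rcases lt_or_gt_of_ne (hf.injective.ne hd1.ne) with h | h
  · exact key _ _ m1 m2 h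
  · exact key _ _ m2 m1 h

/-- The negation of the preceding statement: Any two bounded Lebesgue measurable subsets of the reals of equal measure become, after deleting null sets, equidecomposable: finitely many disjoint measurable pieces of one, moved by isometries of the line, exactly tile the other. -/
theorem result :
    ¬ (∀ A B : Set ℝ, NullMeasurableSet A volume → NullMeasurableSet B volume →
      Bornology.IsBounded A → Bornology.IsBounded B → volume A = volume B →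
      ∃ E₁ E₂ : Set ℝ, volume E₁ = 0 ∧ volume E₂ = 0 ∧
        ∃ (n : ℕ) (P : Fin n → Set ℝ) (f : Fin n → ℝ → ℝ),
          (∀ i, NullMeasurableSet (P i) volume) ∧
          (∀ i, Isometry (f i)) ∧
          Pairwise (fun i j => Disjoint (P i) (P j)) ∧
          Pairwise (fun i j => Disjoint (f i '' P i) (f j '' P j)) ∧
          (⋃ i, P i) = A \ E₁ ∧
          (⋃ i, f i '' P i) = B \ E₂) := by
  intro h
  obtain ⟨U, hq, hU, hv⟩ := Set.exists_isOpen_lt_of_lt (μ := volume)
    (Set.range ((↑) : ℚ → ℝ)) 1 (by rw [(Set.countable_range _).measure_zero]; exact one_pos)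
  have hfin : volume (Set.Icc (0 : ℝ) 2 \ U) ≠ ⊤ :=
    ((measure_mono Set.diff_subset).trans_lt measure_Icc_lt_top).ne
  have hpos : volume (Set.Icc (0 : ℝ) 2 \ U) ≠ 0 := fun h0 => by
    have h1 := measure_mono_ae (μ := volume) (ae_le_set.2 h0)
    have h2 := h1.trans_lt hv
    simp at h2
  obtain ⟨E₁, E₂, h1, -, n, P, f, -, hf, -, -, hP, hB⟩ :=
    h (Set.Icc 0 (volume (Set.Icc (0 : ℝ) 2 \ U)).toReal) (Set.Icc 0 2 \ U)
    measurableSet_Icc.nullMeasurableSet
    (measurableSet_Icc.diff hU.measurableSet).nullMeasurableSet (Metric.isBounded_Icc _ _)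
    ((Metric.isBounded_Icc _ _).subset Set.diff_subset)
    (by rw [Real.volume_Icc, sub_zero, ENNReal.ofReal_toReal hfin])
  have hd : Dense (⋂ i, f i ⁻¹' U) :=
    dense_iInter_of_isOpen (fun i => hU.preimage (hf i).continuous) fun i => dense_pre hq (hf i)
  have ho : IsOpen (⋂ i, f i ⁻¹' U) :=
    isOpen_iInter_of_finite fun i => hU.preimage (hf i).continuous
  have hne := hd.inter_open_nonempty _ isOpen_Ioo
    (Set.nonempty_Ioo.2 (ENNReal.toReal_pos hpos hfin))
  refine ((isOpen_Ioo.inter ho).measure_pos volume hne).ne' (measure_mono_null ?_ h1)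
  rintro x ⟨hx1, hx2⟩
  by_contra hx
  have h3 : x ∈ ⋃ i, P i := hP ▸ ⟨Set.Ioo_subset_Icc_self hx1, hx⟩
  obtain ⟨i, hi⟩ := Set.mem_iUnion.1 h3
  have h4 : f i x ∈ ⋃ i, f i '' P i := Set.mem_iUnion.2 ⟨i, x, hi, rfl⟩
  rw [hB] at h4
  exact h4.1.2 (Set.mem_iInter.1 hx2 i)

end Pool.Agent.S06006
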