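import Pool.Statements.S06045
import Pool.Agent.H8.KelA
import Pool.Agent.H8.KelB

set_option autoImplicit false
open Filter Topology
open Pool Pool.MP_c3b115_an

namespace Pool.Agent.S06045

open Set Metric MeasureTheory Pool.Agent.H8

lemma arc {R : ℝ} (hR : 5 ≤ R) : Real.exp (R / 2) / (2 * R) ≤
    ∫ θ in (0 : ℝ)..2 * Real.pi, max (-(Complex.exp (circleMap 0 R θ)).re) 0 := by
  have hπ := Real.pi_gt_three
  have hπ' := Real.pi_lt_d2
  have R0 : 0 < R := by linarith
  have hc : Continuous fun θ : ℝ => max (-(Complex.exp (circleMap 0 R θ)).re) 0 := by fun_prop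
  have h34 : 3 / R ≤ 4 / R := by gcongr; norm_num
  have h41 : 4 / R ≤ 1 := (div_le_one R0).mpr (by linarith)
  refine le_trans ?_ (intervalIntegral.integral_mono_interval (a := 3 / R) (b := 4 / R)
    (by positivity) h34 (by linarith) (Eventually.of_forall fun θ => le_max_right _ _)
    (hc.intervalIntegrable _ _))
  refine le_trans (le_of_eq ?_) (intervalIntegral.integral_mono_on (f := fun _ => Real.exp (R / 2) / 2)
    h34 intervalIntegrable_const (hc.intervalIntegrable _ _) fun θ hθ => le_max_of_le_left ?_)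
  · rw [intervalIntegral.integral_const, smul_eq_mul]
    field_simp
    norm_num
  · have t0 : 0 < θ := lt_of_lt_of_le (by positivity) hθ.1
    have t1 : θ ≤ 1 := hθ.2.trans h41
    have t3 : 3 ≤ R * θ := by rw [mul_comm]; exact (div_le_iff₀ R0).mp hθ.1
    have t4 : R * θ ≤ 4 := by rw [mul_comm]; exact (le_div_iff₀ R0).mp hθ.2
    have s1 := mul_le_mul_of_nonneg_left (Real.sin_le t0.le) R0.le
    have s2 := mul_le_mul_of_nonneg_left (Real.sin_gt_sub_cube t0).le R0.le
    have s3 : θ ≤ 4 / 5 := hθ.2.trans (by gcongr)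
    have s4 : R * θ * θ ^ 2 ≤ 4 * (4 / 5) ^ 2 := by gcongr
    have c1 := Real.one_sub_sq_div_two_le_cos (x := θ)
    have c2 := Real.one_sub_sq_div_two_le_cos (x := R * Real.sin θ - Real.pi)
    rw [Real.cos_sub_pi] at c2
    have c3 : (R * Real.sin θ - Real.pi) ^ 2 ≤ 1 := by
      rw [sq_le_one_iff_abs_le_one, abs_le]
      have e : R * (θ - θ ^ 3 / 6) = R * θ - R * θ * θ ^ 2 / 6 := by ring
      constructor <;> linarith
    have c4 : Real.exp (R / 2) ≤ Real.exp (R * Real.cos θ) :=
      Real.exp_le_exp.mpr (by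
        have : θ ^ 2 ≤ 1 := pow_le_one₀ t0.le t1
        have := mul_le_mul_of_nonneg_left (show 1 / 2 ≤ Real.cos θ by linarith) R0.le
        linarith)
    rw [Complex.exp_re, circleMap_zero_re, circleMap_zero_im]
    have := mul_le_mul c4 (show 1 / 2 ≤ -Real.cos (R * Real.sin θ) by linarith) (by norm_num)
      (Real.exp_pos _).le
    linarith

lemma growth {G : ℂ → ℂ} (hG : Differentiable ℂ G) {a : ℂ} {R : ℝ} (hR : 5 ≤ R)
    (hs : ∀ z ∈ sphere (0 : ℂ) R, G z ≠ a)
    (hI : (∫ θ in (0 : ℝ)..2 * Real.pi, ‖G (circleMap 0 R θ) - a‖⁻¹) / R ≤ 1) :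
    Real.exp (R / 2) / (16 * R) - R ≤ ValueDistribution.characteristic
      (fun z => (G z - a) ^ 2 / Complex.exp (Complex.exp z)) ⊤ R := by
  have hπ := Real.pi_gt_three
  have hπ' := Real.pi_le_four
  have R0 : 0 < R := by linarith
  have hc := hG.continuous
  have hne : ∀ θ, 0 < ‖G (circleMap 0 R θ) - a‖ := fun θ => norm_pos_iff.mpr
    (sub_ne_zero.mpr (hs _ (circleMap_mem_sphere 0 R0.le θ)))
  have c1 : Continuous fun θ : ℝ => max (-(Complex.exp (circleMap 0 R θ)).re) 0 := by fun_prop
  have c2 : Continuous fun θ : ℝ => ‖G (circleMap 0 R θ) - a‖⁻¹ :=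
    Continuous.inv₀ (by fun_prop) fun θ => (hne θ).ne'
  have c3 : Continuous fun θ : ℝ => Real.posLog ‖(G (circleMap 0 R θ) - a) ^ 2 /
      Complex.exp (Complex.exp (circleMap 0 R θ))‖ :=
    Real.continuous_posLog.comp (Continuous.div (by fun_prop) (by fun_prop)
      fun θ => Complex.exp_ne_zero _).norm
  have h1 := intervalIntegral.integral_mono_on (μ := volume) (a := 0) (b := 2 * Real.pi)
    (f := fun θ : ℝ => max (-(Complex.exp (circleMap 0 R θ)).re) 0 -
      2 * ‖G (circleMap 0 R θ) - a‖⁻¹) (by positivity) ((c1.sub (c2.const_mul 2)).intervalIntegrable _ _) (c3.intervalIntegrable _ _)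
    fun θ _ => by
      have h2 := hne θ
      have h3 := Real.one_sub_inv_le_log_of_pos h2
      have h4 : 0 < ‖G (circleMap 0 R θ) - a‖⁻¹ := by positivity
      rw [Real.posLog_apply, norm_div, norm_pow, Complex.norm_exp,
        Real.log_div (by positivity) (Real.exp_pos _).ne', Real.log_pow, Real.log_exp,
        sub_le_iff_le_add]
      push_cast
      exact max_le (by linarith [le_max_right 0 (2 * Real.log ‖G (circleMap 0 R θ) - a‖ -
        (Complex.exp (circleMap 0 R θ)).re)]) (by positivity)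
  rw [intervalIntegral.integral_sub (c1.intervalIntegrable _ _)
    ((c2.const_mul 2).intervalIntegrable _ _), intervalIntegral.integral_const_mul] at h1
  have h2 := arc hR
  rw [div_le_one R0] at hI
  refine le_trans ?_ (le_add_of_nonneg_right (ValueDistribution.logCounting_nonneg (by linarith)))
  rw [ValueDistribution.proximity_top, Real.circleAverage_def, smul_eq_mul,
    le_inv_mul_iff₀ (by positivity)]
  have h3 : 2 * Real.pi * (Real.exp (R / 2) / (16 * R)) ≤ Real.exp (R / 2) / (2 * R) := by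
    refine (mul_le_mul_of_nonneg_right (show 2 * Real.pi ≤ 8 by linarith) (by positivity)).trans
      (le_of_eq ?_)
    field_simp
    norm_num
  have h4 := mul_le_mul_of_nonneg_right (show 2 ≤ 2 * Real.pi by linarith) R0.le
  rw [mul_sub]
  linarith

/-- There exist complex sequences c, t with t nonzero, t tending to infinity, and sum ∣c_n∣/∣t_n∣^2 finite, such that f(z)=sum c_n/(z-t_n)^2 has infinite Nevanlinna order and only finitely many zeros. -/
theorem result :
    ∃ (c t : ℕ → ℂ), (∀ n, t n ≠ 0) ∧ Tendsto t atTop (cocompact ℂ) ∧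
      Summable (fun n => ‖c n‖ / ‖t n‖ ^ 2) ∧
      (∀ ρ : ℝ, ∀ R : ℝ, ∃ r > R,
        r ^ ρ < ValueDistribution.characteristic
          (fun z : ℂ => ∑' n, c n / (z - t n) ^ 2) ⊤ r) ∧
      {z : ℂ | 0 < meromorphicOrderAt (fun w : ℂ => ∑' n, c n / (w - t n) ^ 2) z}.Finite := by
  classical
  obtain ⟨G, hG, c0, hsum⟩ := KelB.main
  have hd : Differentiable ℂ G := fun z => (hG z).differentiableAt
  obtain ⟨a, ha, h0, hsph, hlim⟩ := KelA.good hd c0
  have hcod : ∀ z, ∀ᶠ w in 𝓝[≠] z, G w ≠ a := fun z => by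
    by_cases h : G z = a
    · exact (hG z).eventually_ne (Complex.exp_ne_zero _)
    · exact nhdsWithin_le_nhds (hd.continuous.continuousAt.eventually_ne h)
  have hcod' : ∀ᶠ w in codiscrete ℂ, G w ≠ a := mem_codiscrete.mpr fun z =>
    disjoint_principal_right.mpr (by rw [compl_compl]; exact hcod z)
  set Z : Set ℂ := {w | G w = a} ∪ range fun n : ℕ => (n : ℂ) + 1 with hZ
  have hfin : ∀ K : Set ℂ, IsCompact K → (Z ∩ K).Finite := fun K hK => by
    rw [hZ, union_inter_distrib_right]
    refine Finite.union ((hK.finite_sdiff_of_mem_codiscreteWithin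
      (codiscreteWithin_mono (subset_univ K) hcod')).subset fun w hw => ⟨hw.2, fun h => h hw.1⟩) ?_
    obtain ⟨B, hB⟩ := hK.isBounded.exists_norm_le
    refine ((finite_le_nat ⌈B⌉₊).image fun n : ℕ => (n : ℂ) + 1).subset ?_
    rintro _ ⟨⟨n, rfl⟩, h⟩
    refine ⟨n, ?_, rfl⟩
    have h1 := (Complex.re_le_norm _).trans (hB _ h)
    simp only [Complex.add_re, Complex.natCast_re, Complex.one_re] at h1
    have h2 : (n : ℝ) ≤ ⌈B⌉₊ := by linarith [Nat.le_ceil B]
    exact_mod_cast h2
  have : Countable Z := by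
    refine (countable_iUnion fun n : ℕ => (hfin _ (isCompact_closedBall 0 n)).countable).mono
      fun w hw => mem_iUnion.mpr ⟨⌈‖w‖⌉₊, mem_inter hw (mem_closedBall_zero_iff.mpr (Nat.le_ceil _))⟩
  have : Infinite Z := ((infinite_range_of_injective fun m n h => by
    simpa using h).mono subset_union_right).to_subtype
  obtain ⟨e⟩ : Nonempty (ℕ ≃ Z) := nonempty_equiv_of_countable
  set t : ℕ → ℂ := fun n => (e n).1 with ht
  have tinj : Function.Injective t := Subtype.val_injective.comp e.injective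
  have tfin : ∀ K : Set ℂ, IsCompact K → (t ⁻¹' K).Finite := fun K hK =>
    ((hfin K hK).preimage tinj.injOn).subset fun n hn => ⟨(e n).2, hn⟩
  have ttend : Tendsto t atTop (cocompact ℂ) := by
    rw [← Nat.cofinite_eq_atTop]
    exact hasBasis_cocompact.tendsto_right_iff.mpr fun K hK =>
      eventually_cofinite.mpr ((tfin K hK).subset fun n hn => not_not.mp hn)
  set c : ℕ → ℂ := fun n => if G (t n) = a then (Complex.exp (Complex.exp (t n)))⁻¹ else 0 with hc
  have csum : Summable fun n => ‖c n‖ / ‖t n‖ ^ 2 := by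
    refine (((summable_subtype_iff_indicator (s := {w | G w = a})
      (f := fun w => ‖(Complex.exp (Complex.exp w))⁻¹‖ / ‖w‖ ^ 2)).mp
        (hsum a ha)).comp_injective tinj).congr fun n => ?_
    by_cases h : G (t n) = a
    · rw [Function.comp, indicator_of_mem (s := {w | G w = a}) h, hc]
      simp only [if_pos h]
    · rw [Function.comp, indicator_of_notMem (s := {w | G w = a}) h, hc]
      simp [if_neg h]
  have p2 : Tendsto (fun k : ℕ => (2 : ℝ) ^ k) atTop atTop :=
    tendsto_pow_atTop_atTop_of_one_lt one_lt_two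
  have hrep : ∀ z, G z ≠ a → ∑' n, c n / (z - t n) ^ 2 =
      ((G z - a) ^ 2 / Complex.exp (Complex.exp z))⁻¹ := fun z hz => by
    have s1 : Summable fun n => c n / (z - t n) ^ 2 := by
      refine Summable.of_norm_bounded_eventually_nat (csum.mul_left 4) ?_
      filter_upwards [(tendsto_norm_cocompact_atTop.comp ttend).eventually_ge_atTop
        (2 * ‖z‖ + 1)] with n hn
      have h1 := norm_sub_norm_le (t n) z
      have h2 : 2 * ‖z‖ + 1 ≤ ‖t n‖ := hn
      have h3 := norm_nonneg z
      rw [norm_div, norm_pow, norm_sub_rev, ← mul_div_assoc,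
        div_le_div_iff₀ (pow_pos (by linarith) 2) (pow_pos (by linarith) 2)]
      have h4 : ‖t n‖ ^ 2 ≤ (2 * ‖t n - z‖) ^ 2 := pow_le_pow_left₀ (norm_nonneg _) (by linarith) 2
      have h5 := mul_le_mul_of_nonneg_left h4 (norm_nonneg (c n))
      linarith
    have f1 : ∀ k : ℕ, {n | ‖t n‖ < 2 ^ k}.Finite := fun k =>
      (tfin _ (isCompact_closedBall 0 (2 ^ k))).subset fun n hn =>
        mem_closedBall_zero_iff.mpr (le_of_lt hn)
    have s2 : Tendsto (fun k => (f1 k).toFinset) atTop atTop :=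
      tendsto_atTop.mpr fun s => ((eventually_all_finset s).mpr fun n _ =>
        p2.eventually_gt_atTop ‖t n‖).mono fun k hk n hn => (f1 k).mem_toFinset.mpr (hk n hn)
    refine tendsto_nhds_unique (s1.hasSum.comp s2) ?_
    rw [tendsto_iff_norm_sub_tendsto_zero, inv_div]
    refine squeeze_zero' (Eventually.of_forall fun _ => norm_nonneg _) ?_ hlim
    filter_upwards [p2.eventually_ge_atTop (2 * ‖z‖)] with k hk
    refine le_trans (le_of_eq ?_) (KelA.rep hG (fun _ => Complex.exp_ne_zero _) (by positivity)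
      (((f1 k).toFinset.filter fun n => G (t n) = a).image t) (fun w => ?_) (hsph k) hk hz)
    · rw [Finset.sum_image tinj.injOn, Finset.sum_filter, Function.comp]
      congr 2
      refine Finset.sum_congr rfl fun n _ => ?_
      simp only [hc]
      split_ifs <;> simp
    · simp only [Finset.mem_image, Finset.mem_filter, Finite.mem_toFinset, mem_ofPred_eq]
      refine ⟨?_, fun h => ⟨e.symm ⟨w, Or.inl h.1⟩, ?_⟩⟩
      · rintro ⟨n, ⟨h1, h2⟩, rfl⟩
        exact ⟨h2, h1⟩
      · simp [ht, h.1, h.2]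
  have hφ : Differentiable ℂ fun z => (G z - a) ^ 2 / Complex.exp (Complex.exp z) :=
    Differentiable.div (by fun_prop) (by fun_prop) fun z => Complex.exp_ne_zero _
  refine ⟨c, t, fun n h => ?_, ttend, csum, fun ρ R => ?_, ?_⟩
  · rcases (e n).2 with h1 | ⟨m, h1⟩
    · exact h0 (h ▸ h1)
    · exact Nat.cast_add_one_ne_zero m (h1.trans h)
  · obtain ⟨K, hK⟩ : ∃ K : ℝ, ∀ r, |ValueDistribution.characteristic
        (fun z => (G z - a) ^ 2 / Complex.exp (Complex.exp z)) ⊤ r - ValueDistribution.characteristic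
        (fun z => (G z - a) ^ 2 / Complex.exp (Complex.exp z))⁻¹ ⊤ r| ≤ K :=
      ⟨_, fun r => ValueDistribution.characteristic_sub_characteristic_inv_le
        fun z => (hφ.analyticAt z).meromorphicAt⟩
    obtain ⟨k, ⟨⟨⟨k1, k2⟩, k3⟩, k4⟩, k5⟩ := (((((p2.eventually_gt_atTop R).and
      (p2.eventually_ge_atTop 5)).and (p2.eventually_ge_atTop K)).and
      (hlim.eventually (ge_mem_nhds one_pos))).and
      (((tendsto_exp_mul_div_rpow_atTop (max ρ 1 + 1) (1 / 2) (by norm_num)).comp
        p2).eventually_gt_atTop 48)).exists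
    refine ⟨2 ^ k, k1, ?_⟩
    rw [ValueDistribution.characteristic_congr_codiscrete
      (g := (fun z => (G z - a) ^ 2 / Complex.exp (Complex.exp z))⁻¹) (hcod'.mono hrep)
      (by positivity)]
    have g1 := growth hd k2 (hsph k) k4
    have g2 := (abs_le.mp (hK (2 ^ k))).2
    set x : ℝ := 2 ^ k
    have x0 : 0 < x := by linarith
    have g3 : x ^ ρ ≤ x ^ max ρ 1 := Real.rpow_le_rpow_of_exponent_le (by linarith) (le_max_left _ _)
    have g4 : x ≤ x ^ max ρ 1 := by
      simpa using Real.rpow_le_rpow_of_exponent_le (x := x) (by linarith) (le_max_right ρ 1)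
    have g5 : 3 * x ^ max ρ 1 < Real.exp (x / 2) / (16 * x) := by
      have g6 : 48 < Real.exp (1 / 2 * x) / x ^ (max ρ 1 + 1) := k5
      rw [Real.rpow_add_one x0.ne', lt_div_iff₀ (by positivity), one_div_mul_eq_div] at g6
      rw [lt_div_iff₀ (by positivity)]
      linarith
    linarith
  · refine finite_empty.subset fun z hz => ?_
    have h1 := (tendsto_zero_of_meromorphicOrderAt_pos hz).mul
      ((hφ.continuous.tendsto z).mono_left nhdsWithin_le_nhds)
    rw [zero_mul] at h1
    refine zero_ne_one (tendsto_nhds_unique (h1.congr' ?_) tendsto_const_nhds)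
    filter_upwards [hcod z] with w hw
    rw [hrep w hw]
    exact inv_mul_cancel₀ (div_ne_zero (pow_ne_zero 2 (sub_ne_zero.mpr hw)) (Complex.exp_ne_zero _))

end Pool.Agent.S06045
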