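import Pool.Statements.S06057


set_option autoImplicit false
open Pool Pool.MP_c42e77_an

namespace Pool.Agent.S06057

open Set Filter Topology

lemma split (K : Set (ℕ → Bool)) (hK : ¬ K.Countable) :
    ∃ j, ∀ b, ¬ (K ∩ {ε | ε j = b}).Countable := by
  by_contra hcon
  push Not at hcon
  choose b hb using hcon
  refine hK (((countable_iUnion hb).insert (fun j => !b j)).mono fun ε hε => ?_)
  by_cases h : ∃ j, ε j = b j
  · obtain ⟨j, hj⟩ := h
    exact Or.inr (mem_iUnion.mpr ⟨j, hε, hj⟩)
  · left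
    funext j
    have : ε j ≠ b j := fun e => h ⟨j, e⟩
    revert this
    cases ε j <;> cases b j <;> simp

lemma closed_coord (j : ℕ) (b : Bool) : IsClosed {ε : ℕ → Bool | ε j = b} :=
  isClosed_eq (continuous_apply j) continuous_const

lemma unc : ¬ (univ : Set (ℕ → Bool)).Countable := by
  rw [countable_univ_iff, ← Cardinal.mk_le_aleph0_iff, not_le]
  simpa using Cardinal.aleph0_lt_continuum

lemma HL (K : Set (ℕ → Bool)) (hc : IsClosed K) (hK : ¬ K.Countable) :
    ∃ (b : Bool) (S : Set ℕ), S.Infinite ∧ ¬ (K ∩ {ε | ∀ i ∈ S, ε i = b}).Countable := by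
  by_cases h : ∃ A : Set (ℕ → Bool), (IsClosed A ∧ A ⊆ K ∧ ¬ A.Countable) ∧
      {i | (A ∩ {ε | ε i = true}).Countable}.Infinite
  · obtain ⟨A, ⟨-, hAK, hA⟩, hS⟩ := h
    refine ⟨false, _, hS, fun hcount => hA ?_⟩
    refine (hcount.union ((to_countable {i | (A ∩ {ε | ε i = true}).Countable}).biUnion
      (t := fun i _ => A ∩ {ε | ε i = true}) fun i hi => hi)).mono fun ε hε => ?_
    by_cases h1 : ∀ i ∈ {i | (A ∩ {ε | ε i = true}).Countable}, ε i = false
    · exact Or.inl ⟨hAK hε, h1⟩
    · push Not at h1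
      obtain ⟨i, hi, h2⟩ := h1
      exact Or.inr (mem_iUnion₂.mpr ⟨i, hi, hε, by simpa using h2⟩)
  push Not at h
  have hnx : ∀ (𝒜 : Set (Set (ℕ → Bool))) (m : ℕ), 𝒜.Finite →
      (∀ A ∈ 𝒜, IsClosed A ∧ A ⊆ K ∧ ¬ A.Countable) →
      ∃ i, m ≤ i ∧ ∀ A ∈ 𝒜, ¬ (A ∩ {ε | ε i = true}).Countable := by
    intro 𝒜 m hfin hg
    have h1 : (⋃ A ∈ 𝒜, {i | (A ∩ {ε | ε i = true}).Countable}).Finite :=
      hfin.biUnion fun A hA => h A (hg A hA)
    obtain ⟨M, hM⟩ := h1.bddAbove
    refine ⟨max m (M + 1), le_max_left _ _, fun A hA hcount => ?_⟩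
    have := hM (mem_iUnion₂.mpr ⟨A, hA, hcount⟩)
    have := le_max_right m (M + 1)
    omega
  choose! nx hnx1 hnx2 using hnx
  choose! sp hsp using split
  let F : ℕ → (ℕ → Bool) → Set (ℕ → Bool) := fun k => Nat.rec (fun _ => K)
    (fun k G a => (G a ∩ {ε | ε (nx (range G) k) = true}) ∩
      {ε | ε (sp (G a ∩ {ε | ε (nx (range G) k) = true})) = a k}) k
  have Fs : ∀ k a, F (k + 1) a = (F k a ∩ {ε | ε (nx (range (F k)) k) = true}) ∩
      {ε | ε (sp (F k a ∩ {ε | ε (nx (range (F k)) k) = true})) = a k} := fun _ _ => rfl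
  have inv : ∀ k, (range (F k)).Finite ∧
      ∀ A ∈ range (F k), IsClosed A ∧ A ⊆ K ∧ ¬ A.Countable := by
    intro k
    induction k with
    | zero =>
      refine ⟨(finite_singleton K).subset ?_, ?_⟩
      · rintro _ ⟨a, rfl⟩; rfl
      · rintro _ ⟨a, rfl⟩; exact ⟨hc, Subset.rfl, hK⟩
    | succ k ih =>
      refine ⟨((ih.1.prod (finite_univ (α := Bool))).image fun p =>
        (p.1 ∩ {ε | ε (nx (range (F k)) k) = true}) ∩
          {ε | ε (sp (p.1 ∩ {ε | ε (nx (range (F k)) k) = true})) = p.2}).subset ?_, ?_⟩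
      · rintro _ ⟨a, rfl⟩
        exact ⟨(F k a, a k), ⟨mem_range_self a, mem_univ _⟩, rfl⟩
      · rintro _ ⟨a, rfl⟩
        have h1 := ih.2 _ (mem_range_self a)
        rw [Fs]
        exact ⟨(h1.1.inter (closed_coord _ _)).inter (closed_coord _ _),
          fun ε hε => h1.2.1 hε.1.1, hsp _ (hnx2 _ k ih.1 ih.2 _ (mem_range_self a)) _⟩
  have loc : ∀ a a' k, (∀ j, j < k → a j = a' j) → F k a = F k a' := by
    intro a a' k
    induction k with
    | zero => intro _; rfl
    | succ k ih =>
      intro hh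
      rw [Fs, Fs, ih fun j hj => hh j (by omega), hh k (by omega)]
  have ne : ∀ a, (⋂ k, F k a).Nonempty := fun a =>
    IsCompact.nonempty_iInter_of_sequence_nonempty_isCompact_isClosed (fun k => F k a)
      (fun k => by rw [Fs]; exact fun ε hε => hε.1.1)
      (fun k => nonempty_iff_ne_empty.mpr fun e =>
        ((inv k).2 _ (mem_range_self a)).2.2 (e ▸ countable_empty))
      hc.isCompact (fun k => ((inv k).2 _ (mem_range_self a)).1)
  choose φ hφ using ne
  have hφ' : ∀ a k, φ a ∈ F k a := fun a k => mem_iInter.mp (hφ a) k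
  have inj : Function.Injective φ := by
    intro a a' e
    by_contra hne
    have hex : ∃ n, a n ≠ a' n := Function.ne_iff.mp hne
    have e1 := loc a a' (Nat.find hex) fun i hi => not_not.mp (Nat.find_min hex hi)
    have h1 := hφ' a (Nat.find hex + 1)
    have h2 := hφ' a' (Nat.find hex + 1)
    rw [Fs] at h1 h2
    rw [← e1, ← e] at h2
    exact Nat.find_spec hex (h1.2.symm.trans h2.2)
  refine ⟨true, range fun k => nx (range (F k)) k, ?_, fun hcount => unc ?_⟩
  · refine infinite_of_forall_exists_gt fun m => ⟨_, mem_range_self (m + 1), ?_⟩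
    exact hnx1 _ _ (inv (m + 1)).1 (inv (m + 1)).2
  · refine (hcount.preimage_of_injOn inj.injOn).mono fun a _ => ?_
    refine ⟨hφ' a 0, ?_⟩
    rintro _ ⟨k, rfl⟩
    have h1 := hφ' a (k + 1)
    rw [Fs] at h1
    exact h1.1.2

lemma cont (y : ℕ → ℝ) (hy : Summable y) :
    Continuous fun ε : ℕ → Bool => ∑' i, (if ε i = true then y i else 0) := by
  refine continuous_tsum (fun i => ?_) hy.norm (fun i ε => ?_)
  · exact (continuous_of_discreteTopology
      (f := fun t : Bool => if t = true then y i else 0)).comp (continuous_apply i)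
  · split_ifs
    · exact le_rfl
    · simp

lemma sm (y : ℕ → ℝ) (hy : Summable y) (ε : ℕ → Bool) :
    Summable fun i => if ε i = true then y i else 0 := by
  refine Summable.of_norm_bounded hy.norm fun i => ?_
  split_ifs
  · exact le_rfl
  · simp

lemma inj_sparse (y : ℕ → ℝ) (hy : Summable y) (h0 : ∀ n, 0 < y n)
    (h3 : ∀ n, y (n + 1) ≤ y n / 3) :
    Function.Injective fun ε : ℕ → Bool => ∑' i, (if ε i = true then y i else 0) := by
  intro a a' e
  by_contra hne
  have hex : ∃ n, a n ≠ a' n := Function.ne_iff.mp hne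
  obtain ⟨k, hk, hmin⟩ : ∃ k, a k ≠ a' k ∧ ∀ i, i < k → a i = a' i :=
    ⟨Nat.find hex, Nat.find_spec hex, fun i hi => not_not.mp (Nat.find_min hex hi)⟩
  have t1 : Summable fun i => y (i + (k + 1)) := (summable_nat_add_iff (k + 1)).mpr hy
  have t2 : ∑' i, y (i + (k + 1)) ≤ y k / 2 := by
    have a1 := t1.tsum_eq_zero_add
    have a2 : ∑' i, y (i + 1 + (k + 1)) ≤ ∑' i, y (i + (k + 1)) / 3 :=
      ((summable_nat_add_iff 1).mpr t1).tsum_le_tsum (fun i => by
        rw [show i + 1 + (k + 1) = i + (k + 1) + 1 by ring]; exact h3 _) (t1.div_const 3)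
    rw [tsum_div_const] at a2
    rw [zero_add] at a1
    have := h3 k
    linarith
  have bd : ∀ c : ℕ → Bool, 0 ≤ ∑' i, (if c (i + (k + 1)) = true then y (i + (k + 1)) else 0) ∧
      ∑' i, (if c (i + (k + 1)) = true then y (i + (k + 1)) else 0) ≤ y k / 2 := fun c => by
    refine ⟨tsum_nonneg fun i => ?_, le_trans ((sm _ t1 fun i => c (i + (k + 1))).tsum_le_tsum
      (fun i => ?_) t1) t2⟩
    · split_ifs
      · exact (h0 _).le
      · exact le_rfl
    · split_ifs
      · exact le_rfl
      · exact (h0 _).le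
  have s1 := (sm y hy a).sum_add_tsum_nat_add (k + 1)
  have s2 := (sm y hy a').sum_add_tsum_nat_add (k + 1)
  rw [Finset.sum_range_succ] at s1 s2
  have s3 : ∑ i ∈ Finset.range k, (if a i = true then y i else 0) =
      ∑ i ∈ Finset.range k, (if a' i = true then y i else 0) :=
    Finset.sum_congr rfl fun i hi => by rw [hmin i (Finset.mem_range.mp hi)]
  have b1 := bd a
  have b2 := bd a'
  have b3 := h0 k
  simp only at e
  revert s1 s2 hk
  cases a k <;> cases a' k <;> simp <;> intro s1 s2 <;> linarith [b1.1, b1.2, b2.1, b2.2]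

/-- For every summable sequence of positive reals, the set of reals t that arise as a subsum in continuum-many ways is either empty or contains a subset homeomorphic to the Cantor space. -/
theorem result :
    ∀ x : ℕ → ℝ, (∀ n, 0 < x n) → Summable x →
      ({t : ℝ | Cardinal.mk (↥{ε : ℕ → Bool | (∑' n, if ε n then x n else 0) = t})
            = Cardinal.continuum} = ∅ ∨
        ∃ C : Set ℝ,
          C ⊆ {t : ℝ | Cardinal.mk (↥{ε : ℕ → Bool | (∑' n, if ε n then x n else 0) = t})
                = Cardinal.continuum} ∧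
          Nonempty (C ≃ₜ (ℕ → Bool))) := by
  intro x hx hs
  rw [or_iff_not_imp_left]
  intro hne
  obtain ⟨t, ht⟩ := nonempty_iff_ne_empty.mpr hne
  have hcl : IsClosed {ε : ℕ → Bool | (∑' n, if ε n then x n else 0) = t} :=
    isClosed_eq (cont x hs) continuous_const
  have hun : ¬ {ε : ℕ → Bool | (∑' n, if ε n then x n else 0) = t}.Countable := by
    rw [← Cardinal.le_aleph0_iff_set_countable, not_le, mem_ofPred_eq.mp ht]
    exact Cardinal.aleph0_lt_continuum
  obtain ⟨b, S, hS, hKS⟩ := HL _ hcl hun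
  have hcl2 : IsClosed ({ε : ℕ → Bool | (∑' n, if ε n then x n else 0) = t} ∩
      {ε | ∀ i ∈ S, ε i = b}) := by
    refine hcl.inter ?_
    simp only [ofPred_forall]
    exact isClosed_iInter fun i => isClosed_iInter fun _ => closed_coord i b
  have : PolishSpace (ℕ → Bool) := PolishSpace.mk
  obtain ⟨ψ, hψ, -, ψinj⟩ := hcl2.exists_nat_bool_injection_of_not_countable hKS
  have hnext : ∀ m : ℕ, ∃ i, i ∈ S ∧ m < i ∧ x i ≤ x m / 3 := by
    intro m
    have h1 := hs.tendsto_atTop_zero.eventually (ge_mem_nhds (show 0 < x m / 3 by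
      have := hx m; positivity))
    obtain ⟨M, hM⟩ := eventually_atTop.mp h1
    obtain ⟨i, hi, h2⟩ := hS.exists_gt (max m M)
    exact ⟨i, hi, lt_of_le_of_lt (le_max_left _ _) h2, hM i (le_trans (le_max_right _ _) h2.le)⟩
  choose nx n1 n2 n3 using hnext
  let s : ℕ → ℕ := fun n => nx^[n + 1] 0
  have ss : ∀ n, s (n + 1) = nx (s n) := fun n => Function.iterate_succ_apply' _ _ _
  have sS : ∀ n, s n ∈ S := fun n => by
    simp only [s, Function.iterate_succ_apply']; exact n1 _
  have sinj : Function.Injective s :=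
    (strictMono_nat_of_lt_succ fun n => by rw [ss]; exact n2 _).injective
  have ys : Summable fun n => x (s n) := hs.comp_injective sinj
  let g : (ℕ → Bool) → ℝ := fun a => ∑' n, (if a n = true then x (s n) else 0)
  have gc : Continuous g := cont _ ys
  have gi : Function.Injective g := inj_sparse _ ys (fun n => hx _) fun n => by
    rw [ss]; exact n3 _
  have dec : ∀ η : ℕ → Bool, (∑' n, if η n then x n else 0) =
      g (fun n => η (s n)) + ∑' i : ↥(range s)ᶜ, (if η i = true then x i else 0) := by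
    intro η
    have h1 := sm x hs η
    rw [← (h1.subtype (range s)).tsum_add_tsum_compl (h1.subtype _)]
    congr 1
    exact tsum_range (fun i => if η i = true then x i else 0) sinj
  have hemb : IsEmbedding fun a => g a + (t - g fun _ => b) :=
    ((gc.add continuous_const).isClosedEmbedding fun a a' e => gi (add_right_cancel e)).isEmbedding
  refine ⟨range fun a => g a + (t - g fun _ => b), ?_, ⟨hemb.toHomeomorph.symm⟩⟩
  rintro _ ⟨a, rfl⟩
  refine le_antisymm ((Cardinal.mk_set_le _).trans (by simp)) ?_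
  have key : ∀ c, (∑' n, if Function.extend s a (ψ c) n then x n else 0) =
      g a + (t - g fun _ => b) := by
    intro c
    have h1 := hψ (mem_range_self c)
    have h2 := dec (ψ c)
    rw [mem_ofPred_eq.mp h1.1, show (fun n => ψ c (s n)) = fun _ => b from
      funext fun n => h1.2 _ (sS n)] at h2
    rw [dec, show (fun n => Function.extend s a (ψ c) (s n)) = a from
      funext fun n => sinj.extend_apply _ _ n]
    congr 1
    rw [h2, add_sub_cancel_left]
    exact tsum_congr fun i => by rw [Function.extend_apply' _ _ _ i.2]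
  have := Cardinal.mk_le_of_injective (f := fun c : ℕ → Bool =>
    (⟨Function.extend s a (ψ c), key c⟩ : ↥{ε : ℕ → Bool | (∑' n, if ε n then x n else 0) =
      g a + (t - g fun _ => b)})) (by
    intro c c' e
    have e1 := congrArg Subtype.val e
    refine ψinj (funext fun i => ?_)
    by_cases hi : ∃ n, s n = i
    · obtain ⟨n, rfl⟩ := hi
      rw [(hψ (mem_range_self c)).2 _ (sS n), (hψ (mem_range_self c')).2 _ (sS n)]
    · have e2 := congrFun e1 i
      simp only [Function.extend_apply' _ _ _ hi] at e2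
      exact e2)
  exact le_of_eq_of_le (by simp) this

end Pool.Agent.S06057
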