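import Pool.Statements.S06070
import Pool.Agent.H29.Tail4

set_option autoImplicit false
open Pool Pool.MP_c4dd1f_an

namespace Pool.Agent.S06070

/-- The negation of the preceding statement: For every real Banach space X and every maximally monotone set-valued map A from X to its continuous dual, the closure of the domain of A (points where A is nonempty) is a convex set. -/
theorem result :
    ¬ (∀ (X : Type) [NormedAddCommGroup X] [NormedSpace ℝ X] [CompleteSpace X]
      (A : X → Set (X →L[ℝ] ℝ)),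
      (∀ (x y : X) (xs ys : X →L[ℝ] ℝ), xs ∈ A x → ys ∈ A y → 0 ≤ (xs - ys) (x - y)) →
      (∀ (x : X) (xs : X →L[ℝ] ℝ),
          (∀ (y : X) (ys : X →L[ℝ] ℝ), ys ∈ A y → 0 ≤ (xs - ys) (x - y)) → xs ∈ A x) →
      Convex ℝ (closure {x : X | (A x).Nonempty})) := by
  intro H
  obtain ⟨A, mo, mx, gp, ⟨x, g, h1⟩, ⟨x', g', h2⟩, -⟩ := H29.Tail.gap
  have hc := H _ A mo mx (subset_closure ⟨g, h1⟩) (subset_closure ⟨g', h2⟩)
    (by norm_num : (0:ℝ) ≤ 1 / 2) (by norm_num : (0:ℝ) ≤ 1 / 2) (by norm_num)
  have cl : IsClosed {p : H29.Tail.E × ℝ | p.2 ≤ 0 ∨ 1 ≤ p.2} :=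
    (isClosed_le continuous_snd continuous_const).union
      (isClosed_le continuous_const continuous_snd)
  have := cl.closure_subset_iff.2
    (fun p (hp : (A p).Nonempty) => (gp p _ hp.some_mem).imp le_of_lt le_of_lt) hc
  simp only [Set.mem_setOf_eq, Prod.snd_add, Prod.smul_snd, smul_eq_mul] at this
  norm_num at this

end Pool.Agent.S06070
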