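import Pool.Statements.S06071
import Pool.Agent.H5.FinSub

set_option autoImplicit false
open Pool Pool.MP_c4f5bb_an

namespace Pool.Agent.S06071

/-- For every real Banach space X and n ≥ 2, some map sends nonempty sets of at most n points to nonempty sets of at most n−1 points, fixes the latter, and is Lipschitz for the Hausdorff distance. -/
theorem result :
    ∀ (X : Type) [NormedAddCommGroup X] [NormedSpace ℝ X] [CompleteSpace X] (n : ℕ), 2 ≤ n →
      ∃ (r : Set X → Set X) (L : ℝ),
        (∀ S : Set X, S.Nonempty → S.Finite → S.ncard ≤ n →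
          (r S).Nonempty ∧ (r S).Finite ∧ (r S).ncard ≤ n - 1) ∧
        (∀ S : Set X, S.Nonempty → S.Finite → S.ncard ≤ n - 1 → r S = S) ∧
        (∀ S T : Set X, S.Nonempty → S.Finite → S.ncard ≤ n →
          T.Nonempty → T.Finite → T.ncard ≤ n →
          Metric.hausdorffDist (r S) (r T) ≤ L * Metric.hausdorffDist S T) := by
  intro X _ _ _ n hn
  classical
  haveI : Nontrivial (Fin n) := Fin.nontrivial_iff_two_le.2 hn
  obtain ⟨C, hC, hC1, hC2⟩ := H5.FinSub.exists_const (ι := Fin n) (X := X)
  have h1 : ∀ S : Set X, S.ncard = n → ∃ x : Fin n → X, Function.Injective x ∧ Set.range x = S := by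
    intro S hS
    have hf : S.Finite := Set.finite_of_ncard_pos (by omega)
    haveI := hf.to_subtype
    let e := (Finite.equivFinOfCardEq (α := S) (n := n) (by rwa [Nat.card_coe_set_eq])).symm
    refine ⟨Subtype.val ∘ e, Subtype.val_injective.comp e.injective, ?_⟩
    rw [e.surjective.range_comp, Subtype.range_coe]
  choose en hen hen' using h1
  let r : Set X → Set X := fun S => if h : S.ncard = n then Set.range (H5.FinSub.R (en S h)) else S
  have hr : ∀ x : Fin n → X, Function.Injective x → r (Set.range x) = Set.range (H5.FinSub.R x) := by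
    intro x hx
    have h : (Set.range x).ncard = n := by rw [Set.ncard_range_of_injective hx]; simp
    simp only [r, dif_pos h]
    exact H5.FinSub.range_R (hen _ h) hx (hen' _ h)
  have hrange : ∀ (x y : Fin n → X) (d : ℝ), 0 ≤ d → (∀ i, ‖x i - y i‖ ≤ d) →
      Metric.hausdorffDist (Set.range x) (Set.range y) ≤ d := by
    intro x y d hd h
    refine Metric.hausdorffDist_le_of_mem_dist hd ?_ ?_
    · rintro _ ⟨i, rfl⟩
      exact ⟨y i, ⟨i, rfl⟩, by rw [dist_eq_norm]; exact h i⟩
    · rintro _ ⟨i, rfl⟩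
      exact ⟨x i, ⟨i, rfl⟩, by rw [dist_comm, dist_eq_norm]; exact h i⟩
  have hA : ∀ S : Set X, S.Nonempty → S.Finite → S.ncard ≤ n →
      (r S).Nonempty ∧ (r S).Finite ∧ (r S).ncard ≤ n - 1 := by
    intro S h1 h2 h3
    by_cases h : S.ncard = n
    · simp only [r, dif_pos h]
      exact ⟨Set.range_nonempty _, Set.finite_range _, by simpa using H5.FinSub.card_R (hen S h)⟩
    · simp only [r, dif_neg h]
      exact ⟨h1, h2, by omega⟩
  have hne : ∀ S T : Set X, S.Nonempty → S.Finite → T.Nonempty → T.Finite →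
      Metric.hausdorffEDist S T ≠ ⊤ := fun S T h1 h2 h3 h4 =>
    Metric.hausdorffEDist_ne_top_of_nonempty_of_bounded h1 h3 h2.isBounded h4.isBounded
  have hclose : ∀ S T : Set X, S.Nonempty → S.Finite → T.Nonempty → T.Finite → T.ncard ≤ n →
      S.ncard = n → Metric.hausdorffDist S T ≤ S.infsep / 4 →
      Metric.hausdorffDist (r S) (r T) ≤ C * Metric.hausdorffDist S T := by
    intro S T h1 h2 h3 h4 h5 h6 h7
    obtain ⟨x, hx, rfl⟩ : ∃ x : Fin n → X, Function.Injective x ∧ Set.range x = S :=
      ⟨_, hen S h6, hen' S h6⟩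
    have h8 : ∀ i, ∃ y ∈ T, ‖x i - y‖ ≤ Metric.hausdorffDist (Set.range x) T := fun i => by
      obtain ⟨y, hy, h9⟩ := h4.isCompact.exists_infDist_eq_dist h3 (x i)
      refine ⟨y, hy, ?_⟩
      rw [← dist_eq_norm, ← h9]
      exact Metric.infDist_le_hausdorffDist_of_mem ⟨i, rfl⟩ (hne _ _ h1 h2 h3 h4)
    choose y hy hy' using h8
    have h0 := H5.FinSub.infsep_pos hx
    have hinj : Function.Injective y := fun i j hij => by
      by_contra h9
      have h10 := Set.infsep_le_dist_of_mem (Set.mem_range_self (f := x) i) (Set.mem_range_self j)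
        (hx.ne h9)
      have h11 := dist_triangle_right (x i) (x j) (y i)
      have h12 := hy' i
      have h13 := hy' j
      rw [← hij] at h13
      rw [← dist_eq_norm] at h12 h13
      linarith
    have h9 : Set.range y = T := Set.eq_of_subset_of_ncard_le (Set.range_subset_iff.2 hy)
      (by rw [Set.ncard_range_of_injective hinj]; simpa using h5) h4
    have h10 := hC2 x y hx hinj _ hy' h7
    rw [hr x hx]
    conv_lhs => rw [← h9, hr y hinj]
    exact hrange _ _ _ (mul_nonneg hC Metric.hausdorffDist_nonneg) h10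
  have hfar : ∀ (S : Set X) (d : ℝ), 0 ≤ d → ¬ (S.ncard = n ∧ d ≤ S.infsep / 4) →
      Metric.hausdorffDist (r S) S ≤ 4 * C * d := by
    intro S d hd h
    by_cases h1 : S.ncard = n
    · obtain ⟨x, hx, rfl⟩ : ∃ x : Fin n → X, Function.Injective x ∧ Set.range x = S :=
        ⟨_, hen S h1, hen' S h1⟩
      rw [hr x hx]
      refine hrange _ _ _ (by positivity) fun i => (hC1 x hx i).trans ?_
      have h2 : (Set.range x).infsep / 4 < d := not_le.1 fun h3 => h ⟨h1, h3⟩
      nlinarith
    · simp only [r, dif_neg h1, Metric.hausdorffDist_self_zero]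
      positivity
  refine ⟨r, 1 + 8 * C, hA, fun S _ _ h => dif_neg (by omega), fun S T h1 h2 h3 h4 h5 h6 => ?_⟩
  have hd := Metric.hausdorffDist_nonneg (s := S) (t := T)
  have hCd := mul_nonneg hC hd
  by_cases h7 : S.ncard = n ∧ Metric.hausdorffDist S T ≤ S.infsep / 4
  · linarith [hclose S T h1 h2 h4 h5 h6 h7.1 h7.2]
  by_cases h8 : T.ncard = n ∧ Metric.hausdorffDist S T ≤ T.infsep / 4
  · have := hclose T S h4 h5 h1 h2 h3 h8.1 (by rw [Metric.hausdorffDist_comm]; exact h8.2)
    rw [Metric.hausdorffDist_comm, Metric.hausdorffDist_comm (s := T)] at this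
    linarith
  have h9 := hfar S _ hd h7
  have h10 := hfar T _ hd h8
  obtain ⟨h11, h12, -⟩ := hA S h1 h2 h3
  obtain ⟨h13, h14, -⟩ := hA T h4 h5 h6
  have h15 := Metric.hausdorffDist_triangle (s := r S) (t := S) (u := r T) (hne _ _ h11 h12 h1 h2)
  have h16 := Metric.hausdorffDist_triangle (s := S) (t := T) (u := r T) (hne _ _ h1 h2 h4 h5)
  rw [Metric.hausdorffDist_comm] at h10
  linarith

end Pool.Agent.S06071
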