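import Pool.Statements.S06082
import Pool.Agent.H27.NumIdx

set_option autoImplicit false
open scoped ENNReal
open Pool Pool.MP_c5b4b2_an

namespace Pool.Agent.S06082

/-- The negation of the preceding statement: For every 1<p<∞, the numerical index of complex 2-dimensional l_p (inf over norm-one operators T of the sup of ∣f(Tx)∣ with ‖x‖=‖f‖=f(x)=1) equals 1/(p^(1/p) q^(1/q)), where q=p/(p-1). -/
theorem result :
    ¬ (∀ (p : ℝ≥0∞) [Fact (1 ≤ p)], 1 < p → p ≠ ⊤ →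
      sInf {c : ℝ | ∃ T : PiLp p (fun _ : Fin 2 => ℂ) →L[ℂ] PiLp p (fun _ : Fin 2 => ℂ),
          ‖T‖ = 1 ∧
          c = sSup {s : ℝ | ∃ (x : PiLp p (fun _ : Fin 2 => ℂ))
                (f : PiLp p (fun _ : Fin 2 => ℂ) →L[ℂ] ℂ),
                ‖x‖ = 1 ∧ ‖f‖ = 1 ∧ f x = 1 ∧ s = ‖f (T x)‖}}
        = 1 / (p.toReal ^ (1 / p.toReal) *
            (p.toReal / (p.toReal - 1)) ^ ((p.toReal - 1) / p.toReal))) := by
  intro h
  haveI : Fact ((1 : ℝ≥0∞) ≤ 3) := ⟨by norm_num⟩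
  have h3 := h 3 (by norm_num) (by norm_num)
  have hpq : (3 : ℝ).HolderConjugate (3 / 2) := by
    rw [Real.holderConjugate_iff]; norm_num
  have nr : ∀ x : PiLp 3 (fun _ : Fin 2 => ℂ), ‖x‖ ^ (3 : ℝ) = ‖x 0‖ ^ (3 : ℝ) + ‖x 1‖ ^ (3 : ℝ) := by
    intro x
    rw [PiLp.norm_eq_sum (by norm_num), Fin.sum_univ_two]
    simp only [ENNReal.toReal_ofNat]
    rw [← Real.rpow_mul (by positivity)]; norm_num
  obtain ⟨φ, w, c, n1, c0, c1, hc⟩ := Pool.Agent.H27.NumIdx.main (𝕜 := ℂ) hpq (by norm_num)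
    (πa := PiLp.proj 3 (fun _ : Fin 2 => ℂ) 0) (πb := PiLp.proj 3 (fun _ : Fin 2 => ℂ) 1)
    (ea := WithLp.toLp 3 ![1, 0]) (eb := WithLp.toLp 3 ![0, 1])
    (fun x u => by rw [nr, nr]; simp; ring) (fun x u => by rw [nr, nr]; simp)
    (by simp) (by simp) (by simp) (by simp)
  have k : Pool.Agent.H27.NumIdx.kap 3 (3 / 2) = 1 / ((3 : ℝ≥0∞).toReal ^ (1 / (3 : ℝ≥0∞).toReal) *
      ((3 : ℝ≥0∞).toReal / ((3 : ℝ≥0∞).toReal - 1)) ^
        (((3 : ℝ≥0∞).toReal - 1) / (3 : ℝ≥0∞).toReal)) := by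
    simp only [Pool.Agent.H27.NumIdx.kap, ENNReal.toReal_ofNat]; norm_num
  rw [← k] at h3
  refine absurd h3 (ne_of_lt (lt_of_le_of_lt ?_ c1))
  refine le_trans (csInf_le ⟨0, ?_⟩ (by exact ⟨_, n1, rfl⟩)) (Real.sSup_le ?_ c0)
  · rintro _ ⟨T, -, rfl⟩
    apply Real.sSup_nonneg
    rintro _ ⟨x, f, -, -, -, rfl⟩
    exact norm_nonneg _
  · rintro _ ⟨x, f, a, b, d, rfl⟩
    exact hc x f a b d

end Pool.Agent.S06082
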