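import Pool.Statements.S06089
import Pool.Agent.H28.Geno3

set_option autoImplicit false
open Pool Pool.MP_c64be7_an

namespace Pool.Agent.S06089

open Pool.Agent.H28.Geno

lemma cos_eq (k : ℕ) : Real.cos ((k : ℝ) * Real.pi / (2 * (k : ℝ) + 1)) =
    Real.sin (Real.pi / (2 * (2 * k + 1))) := by
  rw [← Real.cos_pi_div_two_sub]
  congr 1
  field_simp
  ring


/-- For integer delay k≥2 and β>0, the equilibrium 1/2 of y' = y e^{β(1−2y_{delayed})}/(1−y+y e^{β(1−2y_{delayed})}) with initial values in (0,1) is globally asymptotically stable iff β ≤ 4cos(kπ/(2k+1)). -/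
theorem result :
    ∀ k : ℕ, 2 ≤ k → ∀ β : ℝ, 0 < β →
      (((∀ ε : ℝ, 0 < ε → ∃ δ : ℝ, 0 < δ ∧
          ∀ y : ℕ → ℝ, (∀ i, i ≤ k → 0 < y i ∧ y i < 1) →
            (∀ n : ℕ, y (n + k + 1) =
                y (n + k) * Real.exp (β * (1 - 2 * y n)) /
                  (1 - y (n + k) + y (n + k) * Real.exp (β * (1 - 2 * y n)))) →
            (∀ i, i ≤ k → |y i - 1 / 2| < δ) →
            ∀ n : ℕ, |y n - 1 / 2| < ε) ∧
        (∀ y : ℕ → ℝ, (∀ i, i ≤ k → 0 < y i ∧ y i < 1) →
            (∀ n : ℕ, y (n + k + 1) =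
                y (n + k) * Real.exp (β * (1 - 2 * y n)) /
                  (1 - y (n + k) + y (n + k) * Real.exp (β * (1 - 2 * y n)))) →
            Filter.Tendsto y Filter.atTop (nhds (1 / 2))))
        ↔ β ≤ 4 * Real.cos ((k : ℝ) * Real.pi / (2 * (k : ℝ) + 1))) := by
  intro k hk β hβ
  rw [cos_eq]
  set s := Real.sin (Real.pi / (2 * (2 * k + 1))) with hs
  have k2 : (2 : ℝ) ≤ k := by exact_mod_cast hk
  have s0 : 0 < s := by
    refine Real.sin_pos_of_pos_of_lt_pi (by have := Real.pi_pos; positivity) ?_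
    rw [div_lt_iff₀ (by positivity)]; nlinarith [Real.pi_pos]
  constructor
  · rintro ⟨hst, -⟩
    by_contra hlt
    push Not at hlt
    obtain ⟨l, hl, hl0⟩ := root (k := k) (by omega) (K := β / 2) (by linarith)
    obtain ⟨ε, ε0, hε⟩ := unstable (k := k) (by omega) hl hl0
    obtain ⟨δ, δ0, hδ⟩ := hst (ε / 2) (by positivity)
    set t := min (δ / 2) (1 / 4) with ht
    have t0 : 0 < t := lt_min (by positivity) (by norm_num)
    have t1 : t ≤ δ / 2 := min_le_left _ _
    have t2 : t ≤ 1 / 4 := min_le_right _ _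
    set y := sol k (fun a b => a * Real.exp (β * (1 - 2 * b)) / (1 - a + a * Real.exp (β * (1 - 2 * b))))
      (fun i => if i = k then 1 / 2 + t else 1 / 2) with hy
    have y0 : ∀ i, i ≤ k → y i = if i = k then 1 / 2 + t else 1 / 2 := fun i hi => sol_init _ _ _ hi
    have y1 : ∀ i, i ≤ k → 0 < y i ∧ y i < 1 := fun i hi => by
      rw [y0 i hi]; split_ifs <;> constructor <;> linarith
    have y2 : ∀ n : ℕ, y (n + k + 1) = y (n + k) * Real.exp (β * (1 - 2 * y n)) /
        (1 - y (n + k) + y (n + k) * Real.exp (β * (1 - 2 * y n))) := fun n => sol_rec _ _ _ n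
    have h1 := hδ y y1 y2 fun i hi => by
      rw [y0 i hi, abs_lt]; split_ifs <;> constructor <;> linarith
    have h2 := hε (fun n => 2 * y n - 1) (fun n => by
      have := abs_lt.1 (h1 n)
      rw [abs_lt]; constructor <;> linarith [this.1, this.2]) (conv y1 y2).2
      (fun i hi => by rw [y0 i hi.le, if_neg hi.ne]; norm_num)
    simp only [y0 k le_rfl, if_true] at h2
    linarith
  · intro hle
    have hγ : β * (1 / (2 * s)) ≤ 2 := by
      rw [mul_one_div, div_le_iff₀ (by positivity)]; linarith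
    have hb := fun (d : ℝ) (y : ℕ → ℝ) h0 hr => bound (k := k) (d := d) hβ (by positivity) hγ
      (show 0 ≤ 1 / (4 * k * s ^ 2) by positivity) (fun ω => FF_nonneg hk hs)
      (v := fun n => 2 * y n - 1) (conv (β := β) h0 hr).1 (conv h0 hr).2
    refine ⟨fun ε ε0 => ?_, fun y h0 hr => ?_⟩
    · obtain ⟨δ, δ0, hδ⟩ := Metric.tendsto_nhds_nhds.1
        (CC_cont k β (1 / (2 * s)) (1 / (4 * k * s ^ 2))) ((2 * ε) ^ 4 / 2) (by positivity)
      refine ⟨min ε (δ / 4), lt_min ε0 (by positivity), fun y h0 hr hi n => ?_⟩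
      rcases le_or_gt n k with h | h
      · exact (hi n h).trans_le (min_le_left _ _)
      have hd : ∀ i ≤ k, |2 * y i - 1| ≤ δ / 2 := fun i h => by
        have := abs_lt.1 ((hi i h).trans_le (min_le_right _ _))
        rw [abs_le]; constructor <;> linarith [this.1, this.2]
      have h1 := hb (δ / 2) y h0 hr hd (n - (k + 1) + 1)
      have h2 := Finset.single_le_sum (f := fun j => (2 * y (k + 1 + j) - 1) ^ 4 / 2)
        (fun j _ => by positivity) (Finset.self_mem_range_succ (n - (k + 1)))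
      have h3 := hδ (x := (2 * y k - 1, δ / 2)) (by
        rw [Prod.dist_eq, max_lt_iff, Real.dist_eq, Real.dist_eq, sub_zero, sub_zero,
          abs_of_pos (half_pos δ0)]
        exact ⟨(hd k le_rfl).trans_lt (half_lt_self δ0), half_lt_self δ0⟩)
      rw [Real.dist_eq, sub_zero] at h3
      simp only [show k + 1 + (n - (k + 1)) = n by omega] at h2
      have h4 : |2 * y n - 1| ^ 4 < (2 * ε) ^ 4 := by
        rw [← abs_pow, abs_of_nonneg (by positivity)]
        linarith [(abs_lt.1 h3).2]
      have h5 := abs_lt.1 (lt_of_pow_lt_pow_left₀ 4 (by positivity) h4)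
      rw [abs_lt]; constructor <;> linarith [h5.1, h5.2]
    · have h1 := summable_of_sum_range_le (fun j => by positivity)
        (hb 1 y h0 hr fun i _ => ((conv h0 hr).1 i).le)
      rw [← Filter.tendsto_add_atTop_iff_nat (k + 1), Metric.tendsto_nhds]
      intro ε ε0
      filter_upwards [h1.tendsto_atTop_zero.eventually
        (gt_mem_nhds (show 0 < (2 * ε) ^ 4 / 2 by positivity))] with j hj
      have h4 : |2 * y (j + (k + 1)) - 1| ^ 4 < (2 * ε) ^ 4 := by
        rw [← abs_pow, abs_of_nonneg (by positivity), add_comm j]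
        linarith
      have h5 := abs_lt.1 (lt_of_pow_lt_pow_left₀ 4 (by positivity) h4)
      rw [Real.dist_eq, abs_lt]; constructor <;> linarith [h5.1, h5.2]

end Pool.Agent.S06089
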