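import Pool.Statements.S06121
-- import your own Pool.Agent.* helpers here

set_option autoImplicit false
open Pool Pool.MP_c8dc36_an

namespace Pool.Agent.S06121

open Filter Topology in
lemma key {A : Type} [NonUnitalCStarAlgebra A] [PartialOrder A] [StarOrderedRing A] {a b s : A}
    (ha : 0 ≤ a) (hb : 0 ≤ b) (hs : 0 ≤ s) (w : ℝ × ℝ × ℝ)
    (hx : ¬w.1 • a + w.2.1 • b + w.2.2 • s ≤ 0) : ∃ (y : A) (D : ℝ × ℝ × ℝ →L[ℝ] ℝ), 0 ≤ y ∧ 0 < D w ∧
      ∀ v : ℝ × ℝ × ℝ, Tendsto (fun M : ℝ => ‖M • y + (v.1 • a + v.2.1 • b + v.2.2 • s)‖ - ‖M • y‖)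
        atTop (𝓝 (D v)) := by
  obtain ⟨L, hL⟩ : ∃ L : ℝ × ℝ × ℝ →L[ℝ] A, ∀ v, L v = v.1 • a + v.2.1 • b + v.2.2 • s :=
    ⟨(ContinuousLinearMap.toSpanSingleton ℝ a).coprod ((ContinuousLinearMap.toSpanSingleton ℝ b).coprod
      (ContinuousLinearMap.toSpanSingleton ℝ s)), fun v => by simp [add_assoc]⟩
  simp only [← hL] at hx ⊢
  have sa : IsSelfAdjoint (L w) := by
    rw [hL]
    exact (((IsSelfAdjoint.all _).smul ha.isSelfAdjoint).add
      ((IsSelfAdjoint.all _).smul hb.isSelfAdjoint)).add ((IsSelfAdjoint.all _).smul hs.isSelfAdjoint)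
  have p0 : 0 < ‖(L w)⁺‖ := norm_pos_iff.2 (mt (CFC.posPart_eq_zero_iff _ sa).1 hx)
  obtain ⟨t, t0, ht⟩ : ∃ t : ℝ, 0 < t ∧ ‖(L w)⁺ - t • L w‖ < ‖(L w)⁺‖ := by
    have n0 := norm_nonneg (L w)⁻
    have t1 : ‖(L w)⁺‖ / (‖(L w)⁺‖ + ‖(L w)⁻‖ + 1) < 1 := (div_lt_one (by positivity)).2 (by linarith)
    have t2 : ‖(L w)⁺‖ / (‖(L w)⁺‖ + ‖(L w)⁻‖ + 1) * ‖(L w)⁻‖ < ‖(L w)⁺‖ := by
      rw [div_mul_eq_mul_div, div_lt_iff₀ (by positivity)]
      nlinarith
    have t0 : 0 < ‖(L w)⁺‖ / (‖(L w)⁺‖ + ‖(L w)⁻‖ + 1) := by positivity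
    generalize ‖(L w)⁺‖ / (‖(L w)⁺‖ + ‖(L w)⁻‖ + 1) = t at *
    refine ⟨t, t0, ?_⟩
    have e : (L w)⁺ - t • L w = (1 - t) • (L w)⁺ + t • (L w)⁻ := by
      conv_lhs => rw [← congrArg (t • ·) (CFC.posPart_sub_negPart _ sa)]
      module
    rw [e, IsSelfAdjoint.norm_add_eq_max
      ((IsSelfAdjoint.all _).smul (CFC.posPart_nonneg _).isSelfAdjoint)
      ((IsSelfAdjoint.all _).smul (CFC.negPart_nonneg _).isSelfAdjoint)
      (by simp [smul_mul_assoc, mul_smul_comm, CFC.posPart_mul_negPart]), norm_smul, norm_smul,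
      Real.norm_of_nonneg (by linarith), Real.norm_of_nonneg t0.le]
    exact max_lt (by nlinarith) t2
  have lip : LipschitzWith (1 * (0 + ‖L‖₊)) fun v => ‖(L w)⁺ + L v‖ :=
    lipschitzWith_one_norm.comp ((LipschitzWith.const _).add L.lipschitz)
  obtain ⟨v, hv, v1, v2, v3, v4⟩ := (MeasureTheory.Measure.dense_of_ae
    (lip.ae_differentiableAt (μ := MeasureTheory.Measure.addHaar))).exists_mem_open
    (U := {v | 0 < v.1 ∧ 0 < v.2.1 ∧ 0 < v.2.2 ∧ 2 * ‖L v‖ < ‖(L w)⁺‖ - ‖(L w)⁺ - t • L w‖})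
    (by
      refine IsOpen.and ?_ (IsOpen.and ?_ (IsOpen.and ?_ ?_)) <;>
        exact isOpen_lt (by fun_prop) (by fun_prop)) (by
    have : ∀ᶠ r : ℝ in 𝓝 0, 2 * ‖L (r, r, r)‖ < ‖(L w)⁺‖ - ‖(L w)⁺ - t • L w‖ :=
      ContinuousAt.eventually_lt (by fun_prop) (by fun_prop) (by
        rw [show ((0, 0, 0) : ℝ × ℝ × ℝ) = 0 from rfl, map_zero, norm_zero]; linarith)
    obtain ⟨r, r1, r2⟩ := ((this.filter_mono (nhdsWithin_le_nhds (s := Set.Ioi 0))).and
      self_mem_nhdsWithin).exists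
    exact ⟨(r, r, r), r2, r2, r2, r1⟩)
  have lim : ∀ u, Tendsto (fun M : ℝ => ‖M • ((L w)⁺ + L v) + L u‖ - ‖M • ((L w)⁺ + L v)‖) atTop
      (𝓝 (fderiv ℝ (fun v => ‖(L w)⁺ + L v‖) v u)) := fun u => by
    refine (hv.hasFDerivAt.lim u tendsto_norm_atTop_atTop).congr' ?_
    filter_upwards [eventually_gt_atTop 0] with M hM
    have e : M • ((L w)⁺ + L v) + L u = M • ((L w)⁺ + L (v + M⁻¹ • u)) := by
      simp [smul_smul, hM.ne', add_assoc]
    rw [e, norm_smul, norm_smul, Real.norm_of_nonneg hM.le, smul_eq_mul, mul_sub]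
  refine ⟨_, _, add_nonneg (CFC.posPart_nonneg _) (by rw [hL]; positivity), ?_, lim⟩
  have := le_of_tendsto (lim (-t • w)) (b := ‖(L w)⁺ + L v - t • L w‖ - ‖(L w)⁺ + L v‖) (by
    filter_upwards [eventually_ge_atTop 1] with M hM
    have e : M • ((L w)⁺ + L v) + L (-t • w) =
        (M - 1) • ((L w)⁺ + L v) + ((L w)⁺ + L v - t • L w) := by
      rw [map_smul]
      module
    have := norm_add_le ((M - 1) • ((L w)⁺ + L v)) ((L w)⁺ + L v - t • L w)
    rw [norm_smul, Real.norm_of_nonneg (by linarith)] at this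
    rw [e, norm_smul, Real.norm_of_nonneg (by linarith)]
    linarith)
  have h1 := norm_add_le ((L w)⁺ - t • L w) (L v)
  have h2 := norm_sub_le ((L w)⁺ + L v) (L v)
  rw [add_sub_cancel_right] at h2
  rw [sub_add_eq_add_sub] at h1
  rw [map_smul, smul_eq_mul] at this
  nlinarith

/-- For any two C*-algebras, a map from the positive cone of the first onto the positive cone of the second with ‖T f + T g‖ = ‖T(f+g)‖ for all positive f, g must satisfy T(f+g) = T f + T g on positive elements. -/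
theorem result :
    ∀ (A₁ A₂ : Type) [NonUnitalCStarAlgebra A₁] [PartialOrder A₁] [StarOrderedRing A₁]
      [NonUnitalCStarAlgebra A₂] [PartialOrder A₂] [StarOrderedRing A₂] (T : A₁ → A₂),
      (∀ a : A₁, 0 ≤ a → 0 ≤ T a) →
      (∀ b : A₂, 0 ≤ b → ∃ a : A₁, 0 ≤ a ∧ T a = b) →
      (∀ f g : A₁, 0 ≤ f → 0 ≤ g → ‖T f + T g‖ = ‖T (f + g)‖) →
      ∀ f g : A₁, 0 ≤ f → 0 ≤ g → T (f + g) = T f + T g := by
  intro A₁ A₂ _ _ _ _ _ _ T h0 hs hn
  have D3 : ∀ (D : ℝ × ℝ × ℝ →L[ℝ] ℝ) (x y z : ℝ),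
      D (x, y, z) = x * D (1, 0, 0) + y * D (0, 1, 0) + z * D (0, 0, 1) := fun D x y z => by
    simp only [← smul_eq_mul, ← map_smul, ← map_add]
    simp
  have st1 : ∀ f g : A₁, 0 ≤ f → 0 ≤ g → T (f + g) ≤ T f + T g := fun f g hf hg => by
    by_contra hc
    obtain ⟨y, D, y0, d0, lim⟩ := key (h0 f hf) (h0 g hg) (h0 _ (add_nonneg hf hg)) (-1, -1, 1)
      (fun h => hc (sub_nonpos.1 (le_of_eq_of_le (by simp only []; module) h)))
    have k1 : ∀ K : ℝ, 1 ≤ K →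
        K * (D (0, 0, 1) - D (1, 0, 0)) ≤ D (0, K, 0) - D (1, 0, 0) + ‖T f‖ := fun K hK => by
      refine le_of_tendsto_of_tendsto (((lim _).sub (lim _)).const_mul K)
        (((lim _).sub (lim _)).add_const _) ?_
      filter_upwards [Filter.eventually_ge_atTop 0] with M hM
      obtain ⟨h, hh, e⟩ := hs (M • y) (smul_nonneg hM y0)
      obtain ⟨k, hk, e'⟩ := hs (K • T g) (smul_nonneg (by linarith) (h0 g hg))
      have a1 : ‖T h + T (f + g)‖ = ‖T (f + h) + T g‖ := by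
        rw [hn _ _ hh (add_nonneg hf hg), hn _ _ (add_nonneg hf hh) hg]; congr 2; abel
      have a2 : ‖T h + T f‖ = ‖T (f + h)‖ := by rw [hn _ _ hh hf, add_comm]
      have a3 : ‖T (f + h) + T k‖ ≤ ‖T f‖ + ‖T h + T k‖ := by
        rw [hn _ _ (add_nonneg hf hh) hk, hn _ _ hh hk, add_assoc, ← hn _ _ hf (add_nonneg hh hk)]
        exact norm_add_le _ _
      have a4 := norm_add_le (T (f + h) + T k) ((K - 1) • T (f + h))
      rw [show T (f + h) + T k + (K - 1) • T (f + h) = K • (T (f + h) + T g) by rw [e']; module,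
        norm_smul, norm_smul, Real.norm_of_nonneg (by linarith),
        Real.norm_of_nonneg (by linarith)] at a4
      simp only [zero_smul, one_smul, zero_add, add_zero, ← e, ← e', a1, a2]
      linarith
    rw [D3] at d0
    obtain ⟨K, hK⟩ := exists_nat_gt ((‖T f‖ - D (1, 0, 0)) / (-1 * D (1, 0, 0) + -1 * D (0, 1, 0) +
      1 * D (0, 0, 1)))
    rw [div_lt_iff₀ d0] at hK
    have := k1 (K + 1) (by linarith [K.cast_nonneg (α := ℝ)])
    rw [D3 D 0 (K + 1) 0] at this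
    linarith
  refine fun f g hf hg => le_antisymm (st1 f g hf hg) ?_
  by_contra hc
  obtain ⟨y, D, y0, d0, lim⟩ := key (h0 f hf) (h0 g hg) (h0 _ (add_nonneg hf hg)) (1, 1, -1)
    (by simpa [← sub_eq_add_neg] using hc)
  have k1 : 2 * D (1, 0, 0) ≤ D (0, 0, 1) + D (1, -1, 0) := by
    refine le_of_tendsto_of_tendsto ((lim _).const_mul 2) ((lim _).add (lim _)) ?_
    filter_upwards [Filter.eventually_ge_atTop 0] with M hM
    obtain ⟨h, hh, e⟩ := hs (M • y) (smul_nonneg hM y0)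
    have a1 : ‖T h + T (f + g)‖ = ‖T (f + h) + T g‖ := by
      rw [hn _ _ hh (add_nonneg hf hg), hn _ _ (add_nonneg hf hh) hg]; congr 2; abel
    have a2 : ‖T h + T f‖ = ‖T (f + h)‖ := by rw [hn _ _ hh hf, add_comm]
    have z0 := h0 _ (add_nonneg hf hh)
    have a3 := (CStarAlgebra.norm_le_norm_of_nonneg_of_le (add_nonneg z0 z0)
      (b := T (f + h) + T g + (T h + (T f + -T g))) (by
        rw [show T (f + h) + T g + (T h + (T f + -T g)) = T (f + h) + (T f + T h) by abel]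
        exact add_le_add_right (st1 f h hf hh) _)).trans (norm_add_le _ _)
    rw [← two_smul ℝ, norm_smul, Real.norm_two] at a3
    simp only [zero_smul, one_smul, neg_smul, zero_add, add_zero, ← e, a1, a2]
    linarith
  rw [D3] at d0
  rw [D3 D 1 (-1) 0] at k1
  linarith

end Pool.Agent.S06121
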