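import Pool.Statements.S06128
import Pool.Agent.H1.KoeA

set_option autoImplicit false
open Pool Pool.MP_c979e5_an

namespace Pool.Agent.S06128

/-- The negation of the preceding statement: For each N ≥ 1, every degree-N complex polynomial z+… univalent on the unit disk covers the disk of radius 1/(4cos²(π/(N+2))). Such a polynomial covers no larger disk exactly when it is a rotation of the stated Chebyshev-coefficient polynomial F. -/
theorem result :
    ¬ (∀ N : ℕ, 1 ≤ N →
    (∀ p : Polynomial ℂ, p.natDegree = N → p.coeff 0 = 0 → p.coeff 1 = 1 →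
        Set.InjOn (fun z => p.eval z) (Metric.ball (0 : ℂ) 1) →
        Metric.ball (0 : ℂ) (1 / (4 * Real.cos (Real.pi / ((N : ℝ) + 2)) ^ 2)) ⊆
          (fun z => p.eval z) '' Metric.ball (0 : ℂ) 1) ∧
    (∀ p : Polynomial ℂ,
      (p.natDegree = N ∧ p.coeff 0 = 0 ∧ p.coeff 1 = 1 ∧
        Set.InjOn (fun z => p.eval z) (Metric.ball (0 : ℂ) 1) ∧
        Metric.ball (0 : ℂ) (1 / (4 * Real.cos (Real.pi / ((N : ℝ) + 2)) ^ 2)) ⊆
          (fun z => p.eval z) '' Metric.ball (0 : ℂ) 1 ∧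
        ∀ r : ℝ, 1 / (4 * Real.cos (Real.pi / ((N : ℝ) + 2)) ^ 2) < r →
          ¬ (Metric.ball (0 : ℂ) r ⊆ (fun z => p.eval z) '' Metric.ball (0 : ℂ) 1))
      ↔
      ∃ α : ℝ, ∀ z : ℂ, p.eval z =
        Complex.exp (-((α : ℂ) * Complex.I)) *
          ∑ j ∈ Finset.Icc 1 N,
            (((Polynomial.derivative (Polynomial.Chebyshev.U ℝ ((N : ℤ) - (j : ℤ) + 1))).eval
                  (Real.cos (Real.pi / ((N : ℝ) + 2))) *
                (Polynomial.Chebyshev.U ℝ ((j : ℤ) - 1)).eval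
                  (Real.cos (Real.pi / ((N : ℝ) + 2))) /
                (Polynomial.derivative (Polynomial.Chebyshev.U ℝ (N : ℤ))).eval
                  (Real.cos (Real.pi / ((N : ℝ) + 2))) : ℝ) : ℂ) *
              (z * Complex.exp ((α : ℂ) * Complex.I)) ^ j)) := by
  open Pool.Agent.H1.Koe Complex Polynomial in
  intro H
  have hi := inj (a := ⟨89 / 100, 1 / 10⟩) (b := ⟨27 / 100, 7 / 100⟩)
    (fun e => by simpa using congrArg re e) fun u u0 u4 => ⟨by
      have : ‖(⟨27 / 100, 7 / 100⟩ : ℂ)‖ ≤ 1 / 3 := by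
        rw [← sq_le_sq₀ (norm_nonneg _) (by norm_num), Complex.sq_norm, normSq_mk]; norm_num
      have : |u - 1| ≤ 3 := abs_le.2 ⟨by linarith, by linarith⟩
      nlinarith [abs_nonneg (u - 1), norm_nonneg (⟨27 / 100, 7 / 100⟩ : ℂ)], by
      simp [normSq_apply]
      have := sub_nonneg.2 u4
      nlinarith [mul_nonneg (sq_nonneg (u - 263 / 100)) this,
        mul_nonneg (mul_nonneg (sq_nonneg (u - 263 / 100)) this) this, sq_nonneg (u - 263 / 100)]⟩
  set a : ℂ := ⟨89 / 100, 1 / 10⟩ with ha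
  set b : ℂ := ⟨27 / 100, 7 / 100⟩ with hb
  have b0 : b ≠ 0 := fun e => by simpa [hb] using congrArg re e
  have e : (fun z => (X + C a * X ^ 2 + C b * X ^ 3).eval z) = fun z => z + a * z ^ 2 + b * z ^ 3 := by
    ext; simp
  have := (H 3 (by norm_num)).1 (X + C a * X ^ 2 + C b * X ^ 3) (by compute_degree!) (by simp)
    (by simp [coeff_X_pow]) (e ▸ hi.mono Metric.ball_subset_closedBall)
  rw [e] at this
  obtain ⟨z, hz, k⟩ := this (a := -1 + a * (-1) ^ 2 + b * (-1) ^ 3) (by
    have s := Real.sq_sqrt (show (0 : ℝ) ≤ 5 by norm_num)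
    have s0 := Real.sqrt_nonneg 5
    have : ‖-1 + a * (-1) ^ 2 + b * (-1) ^ 3‖ < 3812 / 10000 := by
      rw [← sq_lt_sq₀ (norm_nonneg _) (by norm_num), Complex.sq_norm, normSq_apply]
      norm_num [ha, hb]
    rw [mem_ball_zero_iff, show ((3 : ℕ) : ℝ) + 2 = 5 by norm_num, Real.cos_pi_div_five]
    refine this.trans ((lt_div_iff₀ (by positivity)).2 ?_)
    have : √5 < 224 / 100 := by nlinarith
    nlinarith)
  rw [hi (Metric.ball_subset_closedBall hz) (by simp) k] at hz
  simp at hz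

end Pool.Agent.S06128
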