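import Pool.Statements.S06172


set_option autoImplicit false
open Pool Pool.MP_cc91a5_an

namespace Pool.Agent.S06172

def T (x : ℕ → Bool) : ℕ → Bool := fun i => x (i + 1)

def cons (c : Bool) (x : ℕ → Bool) : ℕ → Bool := fun i => Nat.casesOn i c x

def sg (s : Bool) : ℝ := if s then 1 else -1

def g : ℕ → Bool → (ℕ → Bool) → ℝ
  | 0, _, _ => 0
  | n + 1, s, x => if x 0 = true then sg s + g n true (T x) else g n (!s) (T x)

def R : ℕ → (ℕ → Bool) → (ℕ → Bool)
  | 0, x => cons true x
  | k + 1, x => cons false (R k x)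

def z : ℕ → Bool := fun _ => false

lemma T_cons (c : Bool) (x : ℕ → Bool) : T (cons c x) = x := rfl

lemma cons_zero (c : Bool) (x : ℕ → Bool) : cons c x 0 = c := rfl

lemma T_cont : Continuous T := continuous_pi fun i => continuous_apply (i + 1)

lemma cons_cont (c : Bool) : Continuous (cons c) := by
  refine continuous_pi fun i => ?_
  cases i with
  | zero => exact continuous_const
  | succ i => exact continuous_apply i

lemma R_cont (k : ℕ) : Continuous (R k) := by
  induction k with
  | zero => exact cons_cont true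
  | succ k ih => exact (cons_cont false).comp ih

lemma g_cont (n : ℕ) : ∀ s, Continuous (g n s) := by
  induction n with
  | zero => intro s; exact continuous_const
  | succ n ih =>
    intro s
    have h : Continuous (fun p : Bool × (ℕ → Bool) =>
        if p.1 = true then sg s + g n true (T p.2) else g n (!s) (T p.2)) := by
      rw [continuous_prod_of_discrete_left]
      intro a
      cases a with
      | false =>
        have h1 : Continuous fun x => g n (!s) (T x) := (ih (!s)).comp T_cont
        simpa using h1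
      | true =>
        have h1 : Continuous fun x => sg s + g n true (T x) :=
          continuous_const.add ((ih true).comp T_cont)
        simpa using h1
    have h2 : Continuous fun x : ℕ → Bool => (x 0, x) :=
      (continuous_apply 0).prodMk continuous_id
    exact h.comp h2

lemma g_diff (n : ℕ) : ∀ s s' x, |g n s x - g n s' x| ≤ 2 := by
  induction n with
  | zero => intro s s' x; simp [g]
  | succ n ih =>
    intro s s' x
    by_cases h : x 0 = true
    · simp only [g, h, if_true]
      cases s <;> cases s' <;> simp [sg] <;> norm_num [abs_le]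
    · simp only [g, h]
      exact ih _ _ _

lemma g_add (n m : ℕ) : ∀ s x, ∃ s', g (n + m) s x = g n s x + g m s' (T^[n] x) := by
  induction n with
  | zero => intro s x; exact ⟨s, by simp [g]⟩
  | succ n ih =>
    intro s x
    rw [show n + 1 + m = (n + m) + 1 by ring]
    by_cases h : x 0 = true
    · obtain ⟨s', hs'⟩ := ih true (T x)
      refine ⟨s', ?_⟩
      simp only [g, h, if_true, hs', Function.iterate_succ_apply]
      ring
    · obtain ⟨s', hs'⟩ := ih (!s) (T x)
      refine ⟨s', ?_⟩
      simp only [g, h, hs', Function.iterate_succ_apply]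
      simp

lemma g_loc (n : ℕ) : ∀ s x y, (∀ k, k < n → (T^[k] x) 0 = (T^[k] y) 0) → g n s x = g n s y := by
  induction n with
  | zero => intro s x y _; rfl
  | succ n ih =>
    intro s x y h
    have h0 : x 0 = y 0 := h 0 (Nat.succ_pos n)
    have h1 : ∀ k, k < n → (T^[k] (T x)) 0 = (T^[k] (T y)) 0 := fun k hk => by
      have := h (k + 1) (Nat.succ_lt_succ hk)
      simpa only [Function.iterate_succ_apply] using this
    simp only [g, h0, ih _ _ _ h1]

lemma T_R (k : ℕ) (x : ℕ → Bool) : T^[k + 1] (R k x) = x := by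
  induction k with
  | zero => rfl
  | succ k ih => rw [Function.iterate_succ_apply]; exact ih

lemma g_R (k n : ℕ) (x : ℕ → Bool) :
    ∀ s, g (k + 1 + n) s (R k x) = (-1) ^ k * sg s + g n true x := by
  induction k with
  | zero =>
    intro s
    rw [show 0 + 1 + n = n + 1 by ring]
    simp [g, R, cons_zero, T_cons]
  | succ k ih =>
    intro s
    rw [show k + 1 + 1 + n = (k + 1 + n) + 1 by ring]
    simp only [g, R, cons_zero, T_cons, ih]
    cases s <;> simp [sg, pow_succ]

lemma g_z (n : ℕ) : ∀ s, g n s z = 0 := by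
  induction n with
  | zero => intro s; rfl
  | succ n ih => intro s; simp only [g]; exact ih _

lemma T_z (k : ℕ) : T^[k] z = z := by
  induction k with
  | zero => rfl
  | succ k ih => rw [Function.iterate_succ_apply]; exact ih

lemma R_z (k : ℕ) : ∀ i, i < k → R k z i = false := by
  induction k with
  | zero => intro i hi; omega
  | succ k ih =>
    intro i hi
    cases i with
    | zero => rfl
    | succ i => exact ih i (by omega)

lemma R_lim : Filter.Tendsto (fun k => R k z) Filter.atTop (nhds z) := by
  rw [tendsto_pi_nhds]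
  intro i
  refine tendsto_const_nhds.congr' ?_
  filter_upwards [Filter.eventually_gt_atTop i] with k hk
  exact (R_z k i hk).symm

noncomputable def S (G : (ℕ → Bool) → ℝ) (n : ℕ) (x : ℕ → Bool) : ℝ :=
  ∑ k ∈ Finset.range n, G (T^[k] x)

lemma S_add (G : (ℕ → Bool) → ℝ) (n m : ℕ) (x : ℕ → Bool) :
    S G (n + m) x = S G n x + S G m (T^[n] x) := by
  unfold S
  rw [Finset.sum_range_add]
  congr 1
  refine Finset.sum_congr rfl fun k _ => ?_
  rw [add_comm, Function.iterate_add_apply]

lemma S_cont (G : (ℕ → Bool) → ℝ) (hG : Continuous G) (n : ℕ) : Continuous (S G n) :=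
  continuous_finsetSum _ fun k _ => hG.comp (T_cont.iterate k)

lemma key (G : (ℕ → Bool) → ℝ) (hG : Continuous G) (hz : G z = 0) (m : ℕ) :
    ∃ φ ψ : (ℕ → Bool) → (ℕ → Bool), Continuous φ ∧ Continuous ψ ∧ ∃ p q : ℕ,
      (∀ x, T^[p] (φ x) = x) ∧ (∀ x, T^[q] (ψ x) = x) ∧
      (∀ n x, g (p + n) true (φ x) = m + g n true x) ∧
      (∀ n x, g (q + n) true (ψ x) = -m + g n true x) ∧
      |S G p (φ z) - S G q (ψ z)| ≤ m := by
  induction m with
  | zero =>
    exact ⟨id, id, continuous_id, continuous_id, 0, 0, fun _ => rfl, fun _ => rfl,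
      fun n x => by simp, fun n x => by simp, by simp⟩
  | succ m ih =>
    obtain ⟨φ, ψ, hφ, hψ, p, q, hp, hq, gp, gq, hS⟩ := ih
    have e2 : Filter.Tendsto (fun j : ℕ => 2 * j) Filter.atTop Filter.atTop :=
      Filter.tendsto_atTop_mono (fun j => by simp only [id]; omega) Filter.tendsto_id
    have e3 : Filter.Tendsto (fun j : ℕ => 2 * j + 1) Filter.atTop Filter.atTop :=
      Filter.tendsto_atTop_mono (fun j => by simp only [id]; omega) Filter.tendsto_id
    have l1 := (((S_cont G hG p).comp hφ).tendsto z).comp (R_lim.comp e2)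
    have l2 := (((S_cont G hG q).comp hψ).tendsto z).comp (R_lim.comp e3)
    have l3 := (hG.tendsto z).comp (R_lim.comp e3)
    have l4 := ((l1.sub l2).sub l3).abs
    have hlt : |(S G p ∘ φ) z - (S G q ∘ ψ) z - G z| < (m : ℝ) + 1 := by
      simp only [Function.comp, hz, sub_zero]; linarith
    obtain ⟨j, hj⟩ := (l4.eventually (gt_mem_nhds hlt)).exists
    simp only [Function.comp] at hj
    refine ⟨φ ∘ R (2 * j), ψ ∘ R (2 * j + 1), hφ.comp (R_cont _), hψ.comp (R_cont _),
      p + (2 * j + 1), q + (2 * j + 1 + 1), fun x => ?_, fun x => ?_, fun n x => ?_,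
      fun n x => ?_, ?_⟩
    · rw [add_comm p, Function.iterate_add_apply, Function.comp, hp, T_R]
    · rw [add_comm q, Function.iterate_add_apply, Function.comp, hq, T_R]
    · rw [add_assoc p, Function.comp, gp, g_R]
      simp [sg, pow_mul]; ring
    · rw [add_assoc q, Function.comp, gq, g_R]
      simp [sg, pow_succ, pow_mul]; ring
    · simp only [Function.comp]
      rw [S_add, S_add G q, hp, hq, show 2 * j + 1 + 1 = 1 + (2 * j + 1) by ring, S_add G 1]
      have h1 : S G 1 (R (2 * j + 1) z) = G (R (2 * j + 1) z) := by simp [S]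
      have h2 : T^[1] (R (2 * j + 1) z) = R (2 * j) z := rfl
      rw [h1, h2]
      push_cast
      refine le_of_lt (lt_of_eq_of_lt ?_ hj)
      congr 1; ring

/-- The negation of the preceding statement: For every continuous self-map T of a compact metric space and every almost additive sequence of continuous functions with bounded variations in the Bowen metric, some continuous g has Birkhoff sums uniformly within bounded distance of f_n. -/
theorem result :
    ¬ (∀ (X : Type) [MetricSpace X] [CompactSpace X] (T : X → X), Continuous T →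
      ∀ f : ℕ → X → ℝ, (∀ n, Continuous (f n)) →
        (∃ C : ℝ, ∀ n m : ℕ, 1 ≤ n → 1 ≤ m → ∀ x : X,
            |f (n + m) x - f n x - f m (T^[n] x)| ≤ C) →
        (∃ ε : ℝ, 0 < ε ∧ ∃ K : ℝ, ∀ n : ℕ, 1 ≤ n → ∀ x y : X,
            (∀ k : ℕ, k < n → dist (T^[k] x) (T^[k] y) < ε) →
              |f n x - f n y| ≤ K) →
        ∃ g : X → ℝ, Continuous g ∧ ∃ B : ℝ, ∀ n : ℕ, 1 ≤ n → ∀ x : X,
            |f n x - ∑ k ∈ Finset.range n, g (T^[k] x)| ≤ B) := by
  intro H
  letI : MetricSpace (ℕ → Bool) := PiNat.metricSpace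
  haveI : CompactSpace (ℕ → Bool) := Pi.compactSpace
  obtain ⟨G, hG, B, hB⟩ := H (ℕ → Bool) T T_cont (fun n => g n true) (fun n => g_cont n true)
    ⟨2, fun n m _ _ x => by
      obtain ⟨s', hs'⟩ := g_add n m true x
      simp only [hs', add_sub_cancel_left]
      exact g_diff _ _ _ _⟩
    ⟨1, one_pos, 0, fun n _ x y h => by
      rw [g_loc n true x y fun k hk => ?_]
      · simp
      · exact PiNat.apply_eq_of_dist_lt (n := 0) (by simpa using h k hk) le_rfl⟩
  have hz : G z = 0 := by
    by_contra hne
    have hpos : 0 < |G z| := abs_pos.mpr hne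
    obtain ⟨n, hn⟩ := exists_nat_gt (B / |G z|)
    have h := hB (n + 1) (by omega) z
    simp only [g_z, T_z, Finset.sum_const, Finset.card_range, nsmul_eq_mul, zero_sub, abs_neg,
      abs_mul] at h
    rw [div_lt_iff₀ hpos] at hn
    rw [abs_of_nonneg (by positivity)] at h
    push_cast at h
    nlinarith
  obtain ⟨m, hm⟩ := exists_nat_gt (2 * B)
  obtain ⟨φ, ψ, -, -, p, q, hp, hq, gp, gq, hS⟩ := key G hG hz m
  have h1 := hB (p + 1) (by omega) (φ z)
  have h2 := hB (q + 1) (by omega) (ψ z)
  have s1 : S G 1 z = 0 := by simp [S, hz]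
  change |g (p + 1) true (φ z) - S G (p + 1) (φ z)| ≤ B at h1
  change |g (q + 1) true (ψ z) - S G (q + 1) (ψ z)| ≤ B at h2
  rw [gp, g_z, S_add, hp, s1] at h1
  rw [gq, g_z, S_add, hq, s1] at h2
  rw [abs_le] at h1 h2 hS
  linarith [h1.1, h1.2, h2.1, h2.2, hS.1, hS.2]

end Pool.Agent.S06172
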