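import Pool.Statements.S06198
import Pool.Agent.H29.Hurwitz

set_option autoImplicit false
open Pool Pool.MP_cea7e0_an

namespace Pool.Agent.S06198

theorem result :
    ¬ (∀ (n r d : ℕ), 2 ≤ r → r ≤ d → ∀ f : ℤ → ℝ,
      (∀ k : ℤ, (k < 0 ∨ (n : ℤ) < k) → f k = 0) →
      0 < f 0 → 0 < f (n : ℤ) →
      (∀ m : ℕ, m ≤ d → ∀ a b : Fin m → ℤ, StrictMono a → StrictMono b →
          0 ≤ (Matrix.of fun s t => f (a s - b t)).det) →
      ∀ P : Polynomial ℝ,
        P = ∑ k ∈ Finset.Nat.antidiagonalTuple r n,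
          Polynomial.C ((Nat.multinomial Finset.univ k : ℝ) * ∏ i, f ((k i : ℕ) : ℤ)) *
          (Matrix.of fun (i j : Fin r) => (ascPochhammer ℝ (k i)).comp
              (Polynomial.X + Polynomial.C (((j : ℕ) : ℝ) - ((i : ℕ) : ℝ)))).det →
        P ≠ 0 →
        (∀ z : ℂ, Polynomial.aeval z P = 0 → z.re < 0) ∧
        (∀ i : ℕ, i ≤ P.natDegree → 0 < P.coeff i)) := by
  intro h
  have h1 := (h 16 2 2 le_rfl le_rfl Pool.Agent.H29.Hurwitz.f
    (by
      intro k hk
      unfold Pool.Agent.H29.Hurwitz.f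
      rw [if_neg (by push_cast at hk; omega)])
    (by norm_num [Pool.Agent.H29.Hurwitz.f, Pool.Agent.H29.Hurwitz.F])
    (by
      rw [Pool.Agent.H29.Hurwitz.f_nat 16 le_rfl]
      norm_num [Pool.Agent.H29.Hurwitz.F])
    (by
      intro m hm a b ha hb
      interval_cases m
      · simp
      · simp [Pool.Agent.H29.Hurwitz.f_nonneg]
      · rw [Matrix.det_fin_two]
        simp only [Matrix.of_apply]
        have h1 : a 0 < a 1 := ha (by decide)
        have h2 : b 0 < b 1 := hb (by decide)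
        have := Pool.Agent.H29.Hurwitz.f_lc (a 0 - b 1) (a 0 - b 0) (a 1 - b 1) (a 1 - b 0)
          (by omega) (by omega) (by omega)
        linarith)
    _ rfl (by
      intro h0
      have := Pool.Agent.H29.Hurwitz.P16 0
      rw [h0] at this
      norm_num at this)).1
  have h2 := Pool.Agent.H29.Hurwitz.refl_aux _ (Polynomial.map (algebraMap ℝ ℂ) _) rfl
    (fun z hz => h1 z (by rwa [Polynomial.eval_map_algebraMap] at hz)) (4 / 5) (63 / 10)
    (by norm_num)
  rw [Polynomial.eval_map_algebraMap, Polynomial.eval_map_algebraMap,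
    Pool.Agent.H29.Hurwitz.P16, Pool.Agent.H29.Hurwitz.P16] at h2
  rw [Pool.Agent.H29.Hurwitz.valA _ rfl, Pool.Agent.H29.Hurwitz.valB _ rfl] at h2
  norm_num at h2

end Pool.Agent.S06198
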