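import Pool.Statements.S06207


set_option autoImplicit false
open Pool Pool.MP_ced77a_an

namespace Pool.Agent.S06207

open scoped Pointwise

variable {X : Type} [NormedAddCommGroup X] [NormedSpace ℂ X]

lemma dense_range (S : X →L[ℂ] X) (h : ∀ φ : X →L[ℂ] ℂ, φ.comp S = 0 → φ = 0) :
    Dense (Set.range S) := by
  by_contra hd
  rw [dense_iff_closure_eq, Set.eq_univ_iff_forall] at hd
  push Not at hd
  obtain ⟨y, hy⟩ := hd
  have hc : Convex ℝ (Set.range S) := by
    rintro _ ⟨a, rfl⟩ _ ⟨b, rfl⟩ s t _ _ _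
    exact ⟨s • a + t • b, by simp⟩
  obtain ⟨f, u, h1, h2⟩ := RCLike.geometric_hahn_banach_closed_point (𝕜 := ℂ) hc.closure
    isClosed_closure hy
  have h0 : 0 < u := by simpa using h1 0 (subset_closure ⟨0, by simp⟩)
  have h3 : f.comp S = 0 := by
    ext a
    by_contra hne
    have hne' : f (S a) ≠ 0 := hne
    have := h1 (S (((u : ℂ) / f (S a)) • a)) (subset_closure ⟨_, rfl⟩)
    rw [map_smul, map_smul, smul_eq_mul, div_mul_cancel₀ _ hne'] at this
    simp at this
  rw [h f h3] at h2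
  simp at h2
  linarith

def Syn (_q : Seminorm ℂ X) : Type := X

instance (q : Seminorm ℂ X) : AddCommGroup (Syn q) := inferInstanceAs (AddCommGroup X)
instance (q : Seminorm ℂ X) : Module ℂ (Syn q) := inferInstanceAs (Module ℂ X)

noncomputable instance (q : Seminorm ℂ X) : SeminormedAddCommGroup (Syn q) :=
  AddGroupSeminorm.toSeminormedAddCommGroup (E := Syn q) q.toAddGroupSeminorm

noncomputable instance (q : Seminorm ℂ X) : NormedSpace ℂ (Syn q) where
  norm_smul_le a x := (map_smul_eq_mul q a x).le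

noncomputable instance (q : Seminorm ℂ X) : NormedAddCommGroup (StrongDual ℂ (Syn q)) :=
  NormedAddCommGroup.ofSeparation (fun f hf => by
    ext w
    have := f.le_opNorm w
    rw [hf, zero_mul] at this
    exact norm_le_zero_iff.1 this)

noncomputable def lift (q : Seminorm ℂ X) (U : X →L[ℂ] X) (K : ℝ) (h : ∀ w, q (U w) ≤ K * q w) :
    Syn q →L[ℂ] Syn q :=
  LinearMap.mkContinuous (show Syn q →ₗ[ℂ] Syn q from (U : X →ₗ[ℂ] X)) K h

noncomputable def dualOp (q : Seminorm ℂ X) (U : X →L[ℂ] X) (K : ℝ)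
    (h : ∀ w, q (U w) ≤ K * q w) : StrongDual ℂ (Syn q) →L[ℂ] StrongDual ℂ (Syn q) :=
  (ContinuousLinearMap.compL ℂ (Syn q) (Syn q) ℂ).flip (lift q U K h)

lemma dualOp_apply (q : Seminorm ℂ X) (U : X →L[ℂ] X) (K : ℝ)
    (h : ∀ w, q (U w) ≤ K * q w) (f : StrongDual ℂ (Syn q)) (w : Syn q) :
    dualOp q U K h f w = f (U w) := rfl

lemma norm_dualOp (q : Seminorm ℂ X) (U : X →L[ℂ] X) (K : ℝ) (hK : 0 ≤ K)
    (h : ∀ w, q (U w) ≤ K * q w) : ‖dualOp q U K h‖ ≤ K := by
  refine ContinuousLinearMap.opNorm_le_bound _ hK (fun f => ?_)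
  refine ContinuousLinearMap.opNorm_le_bound _ (by positivity) (fun w => ?_)
  rw [dualOp_apply]
  refine (f.le_opNorm _).trans ?_
  rw [mul_comm K, mul_assoc]
  exact mul_le_mul_of_nonneg_left (h w) (norm_nonneg _)

lemma abstract (T : X →L[ℂ] X) (x : X) (q : Seminorm ℂ X) (K : ℝ) (hK : 0 < K)
    (hq : ∃ w, q w ≠ 0)
    (hU : ∀ U : X →L[ℂ] X, Commute U T → ∀ w, q (U w) ≤ K * ‖U x‖ * q w)
    (hd : Dense {y | ∃ U : X →L[ℂ] X, Commute U T ∧ y = U x})
    (hT : ∀ (c : ℂ) (φ : X →L[ℂ] ℂ), φ.comp T = c • φ → φ = 0) : False := by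
  obtain ⟨w0, hw0⟩ := hq
  obtain ⟨g, -, hg⟩ := exists_dual_vector'' ℂ (E := Syn q) w0
  have hg0 : g ≠ 0 := by
    intro h
    rw [h] at hg
    apply hw0
    have : ((‖(show Syn q from w0)‖ : ℝ) : ℂ) = 0 := by simpa using hg.symm
    exact_mod_cast this
  haveI : Nontrivial (StrongDual ℂ (Syn q)) := ⟨⟨g, 0, hg0⟩⟩
  obtain ⟨c, hc⟩ := spectrum.nonempty (dualOp q T _ (hU T (Commute.refl T)))
  have hS : Dense (Set.range (c • (1 : X →L[ℂ] X) - T)) := by
    refine dense_range _ (fun φ hφ => hT c φ ?_)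
    ext a
    have := congrArg (fun ψ : X →L[ℂ] ℂ => ψ a) hφ
    simp only [ContinuousLinearMap.comp_apply, ContinuousLinearMap.sub_apply,
      ContinuousLinearMap.smul_apply, ContinuousLinearMap.one_apply, map_sub, map_smul,
      ContinuousLinearMap.zero_apply] at this
    simp only [ContinuousLinearMap.comp_apply, ContinuousLinearMap.smul_apply]
    exact (sub_eq_zero.1 this).symm
  have hS2 : Dense ((c • (1 : X →L[ℂ] X) - T) '' {y | ∃ U : X →L[ℂ] X, Commute U T ∧ y = U x}) :=
    DenseRange.dense_image hS (c • (1 : X →L[ℂ] X) - T).continuous hd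
  obtain ⟨_, ⟨_, ⟨U, hUT, rfl⟩, rfl⟩, hlt⟩ := hS2.exists_dist_lt x (show 0 < 1 / K by positivity)
  have hG : Commute (1 - (c • (1 : X →L[ℂ] X) - T) * U) T := by
    refine Commute.sub_left (Commute.one_left T) (Commute.mul_left ?_ hUT)
    exact Commute.sub_left (Commute.smul_left (Commute.one_left T) c) (Commute.refl T)
  have hn : ‖dualOp q _ _ (hU _ hG)‖ < 1 := by
    refine lt_of_le_of_lt (norm_dualOp q _ _ (by positivity) _) ?_
    rw [dist_eq_norm, lt_div_iff₀ hK, mul_comm] at hlt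
    exact hlt
  have hunit : IsUnit (1 - dualOp q _ _ (hU _ hG)) :=
    (Units.oneSub (R := StrongDual ℂ (Syn q) →L[ℂ] StrongDual ℂ (Syn q))
      (dualOp q _ _ (hU _ hG)) hn).isUnit
  apply hc
  set B := algebraMap ℂ (StrongDual ℂ (Syn q) →L[ℂ] StrongDual ℂ (Syn q)) c -
    dualOp q T _ (hU T (Commute.refl T)) with hB
  set E := dualOp q U _ (hU U hUT) with hE
  have hBf : ∀ (f : StrongDual ℂ (Syn q)) (w : Syn q), B f w = c * f w - f (T w) := fun f w => rfl
  have hEf : ∀ (f : StrongDual ℂ (Syn q)) (w : Syn q), E f w = f (U w) := fun f w => rfl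
  have hcm : ∀ w : X, U (T w) = T (U w) := fun w =>
    congrArg (fun A : X →L[ℂ] X => A w) hUT.eq
  have hGf : ∀ (f : StrongDual ℂ (Syn q)) (w : Syn q),
      (1 - dualOp q _ _ (hU _ hG)) f w = c * f (U w) - f (T (U w)) := by
    intro f w
    change f w - f (w - (c • (show Syn q from U w) - (show Syn q from T (U w)))) = _
    rw [map_sub, map_sub, map_smul]
    simp
  have e1 : B * E = 1 - dualOp q _ _ (hU _ hG) := by
    ext f w
    rw [hGf]
    change B (E f) w = _
    rw [hBf, hEf, hEf]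
    exact congrArg (fun t : X => c * f (U w) - f t) (hcm w)
  have e2 : E * B = 1 - dualOp q _ _ (hU _ hG) := by
    ext f w
    rw [hGf]
    rfl
  have hcomm : Commute B E := e1.trans e2.symm
  rw [← e1] at hunit
  exact (hcomm.isUnit_mul_iff.1 hunit).1

lemma hull_repr (T : X →L[ℂ] X) (x : X) {p : X}
    (hp : p ∈ convexHull ℝ (Set.range (fun n : ℕ => (T ^ n) x))) :
    ∃ D : X →L[ℂ] X, p = D x ∧ (∀ U : X →L[ℂ] X, Commute U T → Commute U D) ∧
      ∀ w ∈ closure (convexHull ℝ (Set.range (fun n : ℕ => (T ^ n) x))),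
        D w ∈ closure (convexHull ℝ (Set.range (fun n : ℕ => (T ^ n) x))) := by
  set C := closure (convexHull ℝ (Set.range (fun n : ℕ => (T ^ n) x))) with hC
  have hCc : Convex ℝ C := (convex_convexHull ℝ _).closure
  refine convexHull_min (t := {p | ∃ D : X →L[ℂ] X, p = D x ∧
    (∀ U : X →L[ℂ] X, Commute U T → Commute U D) ∧ ∀ w ∈ C, D w ∈ C}) ?_ ?_ hp
  · rintro _ ⟨n, rfl⟩
    refine ⟨T ^ n, rfl, fun U hU => hU.pow_right n, fun w hw => ?_⟩
    refine map_mem_closure (T ^ n).continuous hw (fun v hv => ?_)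
    refine convexHull_min (t := {v | (T ^ n) v ∈ convexHull ℝ
      (Set.range (fun n : ℕ => (T ^ n) x))}) ?_ ?_ hv
    · rintro _ ⟨m, rfl⟩
      exact subset_convexHull ℝ _ ⟨n + m, by simp [pow_add]⟩
    · intro a ha b hb s t hs ht hst
      have := convex_convexHull ℝ _ ha hb hs ht hst
      rw [Set.mem_setOf_eq, map_add, ContinuousLinearMap.map_smul_of_tower, ContinuousLinearMap.map_smul_of_tower]
      exact this
  · rintro _ ⟨D, rfl, hD1, hD2⟩ _ ⟨E, rfl, hE1, hE2⟩ s t hs ht hst
    exact ⟨s • D + t • E, rfl, fun U hU =>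
      ((hD1 U hU).smul_right s).add_right ((hE1 U hU).smul_right t),
      fun w hw => hCc (hD2 w hw) (hE2 w hw) hs ht hst⟩


/-- For every complex Banach space X and bounded operator T whose adjoint has no eigenvalues, and every x, if the closed convex hull of the orbit of x has nonempty interior then it is all of X. -/
theorem result :
    ∀ (X : Type) [NormedAddCommGroup X] [NormedSpace ℂ X] [CompleteSpace X]
      (T : X →L[ℂ] X),
      (∀ (c : ℂ) (φ : X →L[ℂ] ℂ), φ.comp T = c • φ → φ = 0) →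
      ∀ x : X,
        (interior (closure (convexHull ℝ (Set.range (fun n : ℕ => (T ^ n) x))))).Nonempty →
        closure (convexHull ℝ (Set.range (fun n : ℕ => (T ^ n) x))) = Set.univ := by
  intro X _ _ _ T hT x hint
  by_contra hne
  set C := closure (convexHull ℝ (Set.range (fun n : ℕ => (T ^ n) x))) with hC
  have hCc : Convex ℝ C := (convex_convexHull ℝ _).closure
  have hCcl : IsClosed C := isClosed_closure
  obtain ⟨z0, hz0⟩ := hint
  obtain ⟨z, hz1, hz2⟩ := mem_closure_iff.1 (interior_subset hz0) _ isOpen_interior hz0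
  obtain ⟨r, hr, hball⟩ := Metric.nhds_basis_closedBall.mem_iff.1 (mem_interior_iff_mem_nhds.1 hz1)
  have hb : ∀ y : X, ‖y‖ ≤ r → z + y ∈ C := fun y hy =>
    hball (by simpa [Metric.mem_closedBall, dist_eq_norm] using hy)
  obtain ⟨V, hV1, hV2, -⟩ := hull_repr T x hz2
  have hVT : Commute V T := (hV2 T (Commute.refl T)).symm
  set W : Set X := {w | ∀ θ : ℂ, ‖θ‖ ≤ 1 → z + θ • w ∈ C} with hW
  have hWb : Balanced ℂ W := by
    rintro a ha _ ⟨w, hw, rfl⟩ θ hθ
    simp only [smul_smul]
    exact hw _ (by rw [norm_mul]; exact mul_le_one₀ hθ (norm_nonneg _) ha)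
  have hWc : Convex ℝ W := by
    intro a ha b hb s t hs ht hst θ hθ
    have := hCc (ha θ hθ) (hb θ hθ) hs ht hst
    convert this using 1
    rw [smul_add, smul_add, smul_add, smul_comm s θ, smul_comm t θ]
    conv_lhs => rw [← one_smul ℝ z, ← hst, add_smul]
    abel
  have hWball : Metric.ball (0 : X) r ⊆ W := by
    intro w hw θ hθ
    refine hb _ ?_
    rw [norm_smul]
    have := (mem_ball_zero_iff.1 hw).le
    nlinarith [norm_nonneg θ, norm_nonneg w]
  have hWa : Absorbent ℝ W := absorbent_nhds_zero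
    (Filter.mem_of_superset (Metric.ball_mem_nhds 0 hr) hWball)
  have key1 : ∀ U : X →L[ℂ] X, Commute U T → ‖U x‖ ≤ r → ∀ w ∈ C, V w + U w ∈ C := by
    intro U hU hUx w hw
    refine hCcl.closure_subset (map_mem_closure (f := fun w => V w + U w) (by fun_prop) hw
      (fun v hv => ?_))
    obtain ⟨D, rfl, hD1, hD2⟩ := hull_repr T x hv
    have e1 : V (D x) = D (V x) := congrArg (fun A : X →L[ℂ] X => A x) (hD1 V hVT).eq
    have e2 : U (D x) = D (U x) := congrArg (fun A : X →L[ℂ] X => A x) (hD1 U hU).eq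
    change V (D x) + U (D x) ∈ C
    rw [e1, e2, ← map_add, ← hV1]
    exact hD2 _ (hb _ hUx)
  obtain ⟨t, ht0, ht1, ht2⟩ : ∃ t : ℝ, 0 < t ∧ t < 1 ∧ t / (1 - t) * ‖z - V z‖ ≤ r := by
    have hn := norm_nonneg (z - V z)
    refine ⟨r / (r + ‖z - V z‖ + 1), by positivity, (div_lt_one (by positivity)).2 (by linarith), ?_⟩
    have : r / (r + ‖z - V z‖ + 1) / (1 - r / (r + ‖z - V z‖ + 1)) = r / (‖z - V z‖ + 1) := by
      have h1 : 1 - r / (r + ‖z - V z‖ + 1) = (‖z - V z‖ + 1) / (r + ‖z - V z‖ + 1) := by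
        field_simp
        ring
      rw [h1]
      field_simp
    rw [this, div_mul_eq_mul_div, div_le_iff₀ (by positivity)]
    nlinarith
  have key2 : ∀ U : X →L[ℂ] X, Commute U T → ‖U x‖ ≤ r → ∀ w ∈ W, t • U w ∈ W := by
    intro U hU hUx w hw θ hθ
    have hθU : ‖(θ • U) x‖ ≤ r := by
      rw [ContinuousLinearMap.smul_apply, norm_smul]
      nlinarith [norm_nonneg θ, norm_nonneg (U x)]
    have a1 := key1 (θ • U) (hU.smul_left θ) hθU _ (hw 1 (by simp))
    have a2 := key1 (-(θ • U)) (hU.smul_left θ).neg_left (by simpa using hθU) _ (hw (-1) (by simp))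
    have a3 := hCc a1 a2 (a := 1 / 2) (b := 1 / 2) (by norm_num) (by norm_num) (by norm_num)
    have a4 := hb ((t / (1 - t)) • (z - V z)) (by
      rw [norm_smul, Real.norm_of_nonneg (div_nonneg ht0.le (by linarith))]; exact ht2)
    have a5 := hCc a4 a3 (a := 1 - t) (b := t) (by linarith) ht0.le (by ring)
    convert a5 using 1
    have h1t : (1 - t) ≠ 0 := by linarith
    rw [smul_add (1 - t), smul_smul (1 - t), mul_div_cancel₀ _ h1t]
    simp only [one_smul, neg_smul, map_add, map_neg, ContinuousLinearMap.neg_apply,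
      ContinuousLinearMap.smul_apply, smul_comm θ t]
    module
  refine abstract T x (gaugeSeminorm hWb hWc hWa) (1 / (r * t)) (by positivity) ?_ ?_ ?_ hT
  · by_contra h
    push Not at h
    apply hne
    rw [Set.eq_univ_iff_forall]
    intro y
    have h1 : gauge W (y - z) < 1 := by
      have := h (y - z)
      simp only [gaugeSeminorm_toFun] at this
      rw [this]; norm_num
    have h2 := setOfPred_gauge_lt_one_subset_self hWc hWa.zero_mem hWa h1 1 (by simp)
    simpa using h2
  · intro U hU w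
    change gauge W (U w) ≤ 1 / (r * t) * ‖U x‖ * gauge W w
    have h3 : ∀ a b : ℝ, gauge W w < a → ‖U x‖ < b → gauge W (U w) ≤ 1 / (r * t) * b * a := by
      intro a b ha hb'
      obtain ⟨a', ha0, ha1, w', hw', rfl⟩ := exists_lt_of_gauge_lt hWa ha
      have hb0 : 0 < b := lt_of_le_of_lt (norm_nonneg _) hb'
      have h4 := key2 ((r / b) • U) (hU.smul_left _) (by
        rw [ContinuousLinearMap.smul_apply, norm_smul, Real.norm_of_nonneg (by positivity),
          div_mul_eq_mul_div, div_le_iff₀ hb0]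
        exact mul_le_mul_of_nonneg_left hb'.le hr.le) w' hw'
      refine le_trans (gauge_le_of_mem (a := 1 / (r * t) * b * a') (by positivity) ⟨_, h4, ?_⟩) ?_
      · simp only [ContinuousLinearMap.smul_apply, smul_smul,
          ContinuousLinearMap.map_smul_of_tower]
        congr 1
        field_simp
      · exact mul_le_mul_of_nonneg_left ha1.le (by positivity)
    have h5 : Filter.Tendsto (fun e : ℝ => 1 / (r * t) * (‖U x‖ + e) * (gauge W w + e))
        (nhdsWithin 0 (Set.Ioi 0)) (nhds (1 / (r * t) * (‖U x‖ + 0) * (gauge W w + 0))) := by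
      refine Filter.Tendsto.mono_left (Continuous.tendsto (by fun_prop) 0) nhdsWithin_le_nhds
    rw [add_zero, add_zero] at h5
    refine ge_of_tendsto h5 ?_
    filter_upwards [self_mem_nhdsWithin] with e he
    have he' : 0 < e := he
    exact h3 _ _ (by linarith) (by linarith)
  · rw [Metric.dense_iff]
    intro y ε hε
    set s : ℝ := r / (‖y‖ + 1) with hs
    have hs0 : 0 < s := by positivity
    have h1 := hb (s • y) (by
      rw [norm_smul, Real.norm_of_nonneg hs0.le, hs, div_mul_eq_mul_div,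
        div_le_iff₀ (by positivity)]
      nlinarith)
    obtain ⟨p, hp, hd⟩ := Metric.mem_closure_iff.1 h1 (s * ε) (by positivity)
    obtain ⟨D, rfl, hD1, -⟩ := hull_repr T x hp
    refine ⟨_, ?_, s⁻¹ • (D - V), ((hD1 T (Commute.refl T)).symm.sub_left hVT).smul_left _, rfl⟩
    rw [Metric.mem_ball, dist_eq_norm]
    rw [dist_eq_norm, norm_sub_rev] at hd
    have e : (s⁻¹ • (D - V)) x - y = s⁻¹ • (D x - (z + s • y)) := by
      rw [hV1]
      simp only [ContinuousLinearMap.smul_apply, ContinuousLinearMap.sub_apply, smul_sub, smul_add,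
        smul_smul, inv_mul_cancel₀ hs0.ne', one_smul]
      abel
    rw [e, norm_smul, Real.norm_of_nonneg (by positivity), inv_mul_lt_iff₀ hs0]
    exact hd

end Pool.Agent.S06207
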