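import Pool.Statements.S06250
import Pool.Agent.H33.Sm3

set_option autoImplicit false
open Pool Pool.MP_d219ff_an

namespace Pool.Agent.S06250

open Pool.Agent.H33.Sm in
theorem result :
    ¬ (∀ (X : Type) [TopologicalSpace X] [CompactSpace X] (f : X ≃ₜ X),
      (∃ (d : X → X → ℝ) (ε lam : ℝ) (br : X → X → X),
        (∀ x y, d x y = d y x) ∧ (∀ x y, d x y = 0 ↔ x = y) ∧
        (∀ x y z, d x z ≤ d x y + d y z) ∧
        (∀ U : Set X, IsOpen U ↔ ∀ x ∈ U, ∃ r > 0, ∀ y, d x y < r → y ∈ U) ∧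
        0 < ε ∧ 0 < lam ∧ lam < 1 ∧
        ContinuousOn (fun p : X × X => br p.1 p.2) {p | d p.1 p.2 ≤ ε} ∧
        (∀ x, br x x = x) ∧
        (∀ x y z, d y z ≤ ε → d x (br y z) ≤ ε → d x z ≤ ε → br x (br y z) = br x z) ∧
        (∀ x y z, d x y ≤ ε → d (br x y) z ≤ ε → d x z ≤ ε → br (br x y) z = br x z) ∧
        (∀ x y, d x y ≤ ε → d (f x) (f y) ≤ ε → f (br x y) = br (f x) (f y)) ∧
        (∀ x y z, d x y ≤ ε → br y x = x → d x z ≤ ε → br z x = x →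
          d (f y) (f z) ≤ lam * d y z) ∧
        (∀ x y z, d x y ≤ ε → br x y = x → d x z ≤ ε → br x z = x →
          d (f.symm y) (f.symm z) ≤ lam * d y z)) →
      (∀ τ : X → X, Continuous τ → (∀ x, τ (f x) = f (τ x)) →
        Function.Injective τ → Function.Surjective τ) →
      ∃ (Y : Type) (_ : TopologicalSpace Y) (_ : CompactSpace Y) (g : Y ≃ₜ Y),
        (∃ (d : Y → Y → ℝ) (ε lam : ℝ) (br : Y → Y → Y),
          (∀ x y, d x y = d y x) ∧ (∀ x y, d x y = 0 ↔ x = y) ∧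
          (∀ x y z, d x z ≤ d x y + d y z) ∧
          (∀ U : Set Y, IsOpen U ↔ ∀ x ∈ U, ∃ r > 0, ∀ y, d x y < r → y ∈ U) ∧
          0 < ε ∧ 0 < lam ∧ lam < 1 ∧
          ContinuousOn (fun p : Y × Y => br p.1 p.2) {p | d p.1 p.2 ≤ ε} ∧
          (∀ x, br x x = x) ∧
          (∀ x y z, d y z ≤ ε → d x (br y z) ≤ ε → d x z ≤ ε → br x (br y z) = br x z) ∧
          (∀ x y z, d x y ≤ ε → d (br x y) z ≤ ε → d x z ≤ ε → br (br x y) z = br x z) ∧
          (∀ x y, d x y ≤ ε → d (g x) (g y) ≤ ε → g (br x y) = br (g x) (g y)) ∧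
          (∀ x y z, d x y ≤ ε → br y x = x → d x z ≤ ε → br z x = x →
            d (g y) (g z) ≤ lam * d y z) ∧
          (∀ x y z, d x y ≤ ε → br x y = x → d x z ≤ ε → br x z = x →
            d (g.symm y) (g.symm z) ≤ lam * d y z)) ∧
        (∀ U : Set Y, IsOpen U → U.Nonempty →
          ∃ n : ℕ, 1 ≤ n ∧ ((⇑g)^[n] '' U ∩ U).Nonempty) ∧
        ∃ (A : Type) (_ : Fintype A) (_ : TopologicalSpace A) (_ : DiscreteTopology A)
          (F : Finset (List A)) (Z : Set (ℤ → A)),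
          Z = {x : ℤ → A | ∀ w ∈ F, ∀ i : ℤ, ∃ j : Fin w.length, x (i + (j : ℤ)) ≠ w.get j} ∧
          Z.Countable ∧
          derivedSet (derivedSet Z) = derivedSet (derivedSet (derivedSet Z)) ∧
          ∃ σZ : Z → Z, (∀ z : Z, ((σZ z : Z) : ℤ → A) = fun i => (z : ℤ → A) (i + 1)) ∧
            ∃ h : X ≃ₜ (Y ⊕ Z), ∀ x : X, h (f x) = Sum.map (⇑g) σZ (h x)) := by
  intro H
  have := compact_X
  obtain ⟨Y, _, _, g, -, hw, A, _, _, _, F, Z, -, hZ, -, σ, -, h, hh⟩ := H X f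
    ⟨d, 1 / 64, 8 / 9, br, d_comm, d_eq, d_tri, d_top, by norm_num, by norm_num, by norm_num,
      br_cont, br_self, br_right, fun x y z _ _ _ => br_left x y z, br_f, stable, unstable⟩ surj
  have := hZ.to_subtype
  exact wander g σ h hh hw

end Pool.Agent.S06250
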