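import Pool.Statements.S06274
import Pool.Agent.H5.Wcr

set_option autoImplicit false
open Filter Topology
open Pool Pool.MP_d4a912_an

namespace Pool.Agent.S06274

open Pool.Agent.H5 Pool.Agent.H5.Wcr

lemma gap (u v : V) (hu : P u = 1) (hv : P v = 1) :
    H (u - v) ≤ 4 - P (u + v) ∧ 2 * Q u + 2 * Q v - Q (u + v) ≤ 4 - P (u + v) := by
  have h1 := H_para u v
  have h2 : Q (u + v) ≤ 2 * Q u + 2 * Q v := Q_le fun a => by
    linarith [q_para a u v, q_nonneg a (u - v), le_Q a u, le_Q a v]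
  have h3 := H_nonneg (u - v)
  unfold P at *
  constructor <;> linarith

lemma coord_cauchy (x : ℕ → V) (hx : ∀ n, P (x n) = 1)
    (hD : ∀ ρ > 0, ∃ N, ∀ m ≥ N, ∀ n ≥ N, 4 - P (x m + x n) < ρ) (e : I) :
    CauchySeq fun n => (x n).2 e := by
  rw [Metric.cauchySeq_iff]
  intro ε hε
  obtain ⟨N, hN⟩ := hD (lam e * ε ^ 2) (mul_pos (lam_pos e) (by positivity))
  refine ⟨N, fun m hm n hn => ?_⟩
  have h1 := (le_H (x m - x n) e).trans ((gap _ _ (hx m) (hx n)).1)
  have h2 := lt_of_mul_lt_mul_left (h1.trans_lt (hN m hm n hn)) (lam_pos e).le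
  rw [Real.dist_eq]
  exact abs_lt_of_sq_lt_sq h2 hε.le

lemma zero_cauchy (x : ℕ → V) (hx : ∀ n, P (x n) = 1)
    (hD : ∀ ρ > 0, ∃ N, ∀ m ≥ N, ∀ n ≥ N, 4 - P (x m + x n) < ρ) :
    CauchySeq fun n => (x n).1 := by
  by_contra hc
  rw [Metric.cauchySeq_iff] at hc
  push Not at hc
  obtain ⟨δ, hδ, hc⟩ := hc
  have hQ1 : ∀ n, Q (x n) ≤ 1 := fun n => by
    have := hx n
    unfold P at this
    linarith [H_nonneg (x n)]
  have hQ2 : ∀ n, 10 / 11 ≤ Q (x n) := fun n => by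
    have := hx n
    unfold P at this
    linarith [H_le (x n)]
  have hfar : ∀ n, ∃ᶠ m in atTop, δ ^ 2 / 4 ≤ ((x n).1 - (x m).1) ^ 2 := fun n => by
    rw [frequently_atTop]
    intro N
    obtain ⟨m, hm, k, hk, h⟩ := hc N
    rw [Real.dist_eq] at h
    by_cases h1 : δ / 2 ≤ |(x n).1 - (x m).1|
    · refine ⟨m, hm, ?_⟩
      have := pow_le_pow_left₀ (by positivity) h1 2
      rw [sq_abs] at this
      linarith
    · refine ⟨k, hk, ?_⟩
      have h2 := abs_sub_le (x m).1 (x n).1 (x k).1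
      rw [abs_sub_comm (x m).1 (x n).1] at h2
      have h3 : δ / 2 ≤ |(x n).1 - (x k).1| := by linarith [not_le.1 h1]
      have := pow_le_pow_left₀ (by positivity) h3 2
      rw [sq_abs] at this
      linarith
  have claim : ∀ K : ℕ, ∃ e : I, K ≤ min e.1 e.2 ∧ ∀ᶠ m in atTop, 3 / 4 < (x m).2 e ^ 2 := by
    intro K
    obtain ⟨η, hη, hη1, hη2⟩ : ∃ η : ℝ, 0 < η ∧ η ≤ 1 / 20 ∧ η ≤ 1 / ((K : ℝ) + 1) :=
      ⟨min (1 / 20) (1 / ((K : ℝ) + 1)), by positivity, min_le_left _ _, min_le_right _ _⟩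
    obtain ⟨ρ, hρ, hρ1, hρ2⟩ : ∃ ρ : ℝ, 0 < ρ ∧ ρ ≤ 1 / 20 ∧ ρ ≤ η * δ ^ 2 / 8 :=
      ⟨min (1 / 20) (η * δ ^ 2 / 8), by positivity, min_le_left _ _, min_le_right _ _⟩
    obtain ⟨n, hn⟩ := hD ρ hρ
    have step : ∀ m ≥ n, δ ^ 2 / 4 ≤ ((x n).1 - (x m).1) ^ 2 → ∃ e : I, 1 / 2 ≤ |(x n).2 e| ∧
        K ≤ min e.1 e.2 ∧ 4 / 5 ≤ (x m).2 e ^ 2 := by
      intro m hm hf
      have h1 := ((gap _ _ (hx n) (hx m)).2).trans_lt (hn n le_rfl m hm)
      obtain ⟨a, ha⟩ := exists_lt_of_lt_ciSup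
        (show 2 * Q (x n) + 2 * Q (x m) - ρ < ⨆ a, q a (x n + x m) by
          change _ < Q (x n + x m)
          linarith)
      have h2 := q_para a (x n) (x m)
      have h3 := le_Q a (x n)
      have h4 := le_Q a (x m)
      have h5 := q_nonneg a (x n - x m)
      have h6 : q a (x n - x m) < ρ := by linarith
      have h7 : Q (x n) - ρ < q a (x n) := by linarith
      have h8 : Q (x m) - ρ < q a (x m) := by linarith
      have hδ2 : 0 < δ ^ 2 := by positivity
      rcases a with e | p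
      · simp only [q, Prod.fst_sub] at h6 h7 h8
        have hw : w e < η := by
          have h9 : w e * (δ ^ 2 / 4) ≤ w e * ((x n).1 - (x m).1) ^ 2 := by
            gcongr; exact (w_pos e).le
          have h10 : w e * δ ^ 2 < η * δ ^ 2 := by
            nlinarith [sq_nonneg ((x n - x m).2 e), mul_pos hη hδ2]
          exact lt_of_mul_lt_mul_right h10 hδ2.le
        have hs : ∀ k, w e * (x k).1 ^ 2 ≤ 1 / 20 := fun k => by
          have h9 : (x k).1 ^ 2 ≤ 1 := (sq1Q _).trans (hQ1 k)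
          have h10 : w e * (x k).1 ^ 2 ≤ w e * 1 := by gcongr; exact (w_pos e).le
          linarith
        refine ⟨e, ?_, ?_, by linarith [hs m, hQ2 m]⟩
        · have h9 : (1 / 2 : ℝ) ^ 2 ≤ (x n).2 e ^ 2 := by linarith [hs n, hQ2 n]
          have := sq_le_sq.1 h9
          rwa [abs_of_pos (by norm_num)] at this
        · have h9 : w e < 1 / ((K : ℝ) + 1) := hw.trans_le hη2
          unfold w at h9
          have h10 := lt_of_one_div_lt_one_div (by positivity) h9
          have h11 : (K : ℝ) < ((min e.1 e.2 : ℕ) : ℝ) := by linarith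
          exact (Nat.cast_lt.1 h11).le
      · simp only [q, Prod.fst_sub] at h6
        have h9 : η * δ ^ 2 ≤ 1 / 20 * δ ^ 2 := by gcongr
        nlinarith [sq_nonneg ((x n - x m).2 p.1.1), sq_nonneg ((x n - x m).2 p.1.2)]
    by_contra hno
    push Not at hno
    have hev : ∀ᶠ m in atTop, ∀ e ∈ {e | 1 / 2 ≤ |(x n).2 e|}, K ≤ min e.1 e.2 →
        (x m).2 e ^ 2 < 4 / 5 := by
      rw [eventually_all_finite (fin_large (x n).2 (by norm_num))]
      intro e _
      by_cases hK : K ≤ min e.1 e.2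
      · obtain ⟨L, hL⟩ := cauchySeq_tendsto_of_complete (coord_cauchy x hx hD e)
        have h1 : L ^ 2 ≤ 3 / 4 := le_of_tendsto_of_frequently (hL.pow 2) (hno e hK)
        filter_upwards [(hL.pow 2).eventually (gt_mem_nhds (show L ^ 2 < 4 / 5 by linarith))]
          with m hm _
        exact hm
      · exact Eventually.of_forall fun m h => absurd h hK
    obtain ⟨m, hm1, hm2, hm3⟩ := ((hfar n).and_eventually (hev.and (eventually_ge_atTop n))).exists
    obtain ⟨e, h1, h2, h3⟩ := step m hm3 hm1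
    linarith [hm2 e h1 h2]
  obtain ⟨e1, -, h1⟩ := claim 0
  obtain ⟨e2, h2, h3⟩ := claim (max e1.1 e1.2 + 1)
  obtain ⟨m, h4, h5⟩ := (h1.and h3).exists
  have h6 := le_Q (.inr ⟨(e1, e2), h2⟩) (x m)
  simp only [q] at h6
  linarith [hQ1 m, sq_nonneg (x m).1]

/-- finite part of the star at `n` -/
noncomputable def st (n k : ℕ) : c0 where
  toFun e := if (e.1 = n ∨ e.2 = n) ∧ e.1 ≤ k ∧ e.2 ≤ k then 1 - w e else 0
  continuous_toFun := continuous_of_discreteTopology
  zero_at_infty' := by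
    rw [cocompact_eq_cofinite]
    refine tendsto_const_nhds.congr' ?_
    rw [EventuallyEq, eventually_cofinite]
    refine ((Set.finite_Iic k).prod (Set.finite_Iic k)).subset fun e he => ?_
    by_contra h
    apply he
    rw [if_neg fun h' => h ⟨h'.2.1, h'.2.2⟩]

lemma st_apply (n k : ℕ) (e : I) :
    st n k e = if (e.1 = n ∨ e.2 = n) ∧ e.1 ≤ k ∧ e.2 ≤ k then 1 - w e else 0 := rfl

noncomputable def hh (n : ℕ) : ℝ := ∑' e : I, lam e * if e.1 = n ∨ e.2 = n then 1 else 0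

lemma hh_sum (n : ℕ) : Summable fun e : I => lam e * if e.1 = n ∨ e.2 = n then (1 : ℝ) else 0 :=
  Summable.of_nonneg_of_le (fun e => mul_nonneg (lam_pos e).le (by split_ifs <;> norm_num))
    (fun e => by split_ifs <;> simp [(lam_pos e).le]) lam_sum

lemma hh_lim : Tendsto hh atTop (𝓝 0) := by
  have h := tendsto_tsum_of_dominated_convergence (𝓕 := atTop)
    (f := fun (n : ℕ) (e : I) => lam e * if e.1 = n ∨ e.2 = n then (1 : ℝ) else 0)
    (g := fun _ => 0) lam_sum (fun e => by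
      refine tendsto_const_nhds.congr' ?_
      filter_upwards [eventually_gt_atTop (max e.1 e.2)] with n hn
      rw [if_neg (by omega), mul_zero])
    (Eventually.of_forall fun n e => by
      rw [Real.norm_eq_abs]
      split_ifs <;> simp [(lam_pos e).le, abs_of_pos (lam_pos e)])
  rw [tsum_zero] at h
  exact h

lemma st_sq (n k : ℕ) (e : I) : st n k e ^ 2 ≤ if e.1 = n ∨ e.2 = n then 1 - w e else 0 := by
  have h1 := w_pos e
  have h2 := w_le e
  rw [st_apply]
  split_ifs with h3 h4 h4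
  · nlinarith
  · exact absurd h3.1 h4
  · nlinarith
  · norm_num

lemma P_st (n k : ℕ) : P ((-1) ^ n, st n k) ≤ 1 + hh n := by
  have h0 : ((-1 : ℝ) ^ n) ^ 2 = 1 := by rw [← pow_mul, mul_comm, pow_mul]; norm_num
  have h1 : Q ((-1) ^ n, st n k) ≤ 1 := Q_le fun a => by
    rcases a with e | ⟨⟨e, e'⟩, hp⟩
    · have h2 := st_sq n k e
      simp only [q, h0]
      split_ifs at h2 <;> linarith [w_le e]
    · have h2 := st_sq n k e
      have h3 := st_sq n k e'
      simp only [q, h0]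
      simp only at hp
      split_ifs at h2 h3
      · omega
      · linarith [w_pos e]
      · linarith [w_pos e']
      · linarith
  have h2 : H ((-1) ^ n, st n k) ≤ hh n := (H_sum _).tsum_le_tsum (fun e => by
    have h3 := st_sq n k e
    refine mul_le_mul_of_nonneg_left (h3.trans ?_) (lam_pos e).le
    split_ifs <;> linarith [w_pos e]) (hh_sum n)
  unfold P
  linarith

lemma hh_nonneg (n : ℕ) : 0 ≤ hh n :=
  tsum_nonneg fun e => mul_nonneg (lam_pos e).le (by split_ifs <;> norm_num)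

lemma w_lim : Tendsto w atTop (𝓝 0) := by
  have h : Tendsto (fun e : I => min e.1 e.2) atTop atTop := by
    rw [tendsto_atTop]
    intro b
    filter_upwards [eventually_ge_atTop (b, b)] with e he
    exact le_min he.1 he.2
  exact tendsto_one_div_add_atTop_nhds_zero_nat.comp h

/-- The negation of the preceding statement: For every real Banach space X: unit-sphere sequences with norm of x_n+x_m tending to 2 are always weakly Cauchy in X iff the same holds in the bidual X** with w*-Cauchy (tested on X*) in place of weakly Cauchy. -/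
theorem result :
    ¬ (∀ (X : Type) [NormedAddCommGroup X] [NormedSpace ℝ X] [CompleteSpace X],
      (∀ x : ℕ → X, (∀ n, ‖x n‖ = 1) →
        Tendsto (fun p : ℕ × ℕ => ‖x p.1 + x p.2‖) atTop (𝓝 2) →
        ∀ f : X →L[ℝ] ℝ, CauchySeq (fun n => f (x n))) ↔
      (∀ F : ℕ → ((X →L[ℝ] ℝ) →L[ℝ] ℝ), (∀ n, ‖F n‖ = 1) →
        Tendsto (fun p : ℕ × ℕ => ‖F p.1 + F p.2‖) atTop (𝓝 2) →
        ∀ f : X →L[ℝ] ℝ, CauchySeq (fun n => F n f))) := by
  intro hall
  obtain ⟨X, i1, i2, i3, T, hT⟩ := space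
  have hP : ∀ z : X, P (T.symm z) = ‖z‖ ^ 2 := fun z => by rw [← hT, T.apply_symm_apply]
  have hN : ∀ z : X, ‖T.symm z‖ ≤ ‖z‖ := fun z => by
    have h1 := hP z
    have h2 := norm_le_Q (T.symm z)
    have h3 := H_nonneg (T.symm z)
    unfold P at h1
    exact le_of_sq_le_sq (by linarith) (norm_nonneg _)
  have hW := (hall X).1 (by
    intro x hx hlim f
    have h1 : ∀ n, P (T.symm (x n)) = 1 := fun n => by rw [hP, hx n]; norm_num
    have hD : ∀ ρ > 0, ∃ N, ∀ m ≥ N, ∀ n ≥ N, 4 - P (T.symm (x m) + T.symm (x n)) < ρ := by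
      intro ρ hρ
      have h2 := (hlim.pow 2).eventually (lt_mem_nhds (show 4 - ρ < (2 : ℝ) ^ 2 by linarith))
      obtain ⟨N, hN'⟩ := eventually_atTop.1 h2
      refine ⟨max N.1 N.2, fun m hm n hn => ?_⟩
      have h3 := hN' (m, n) ⟨le_of_max_le_left hm, le_of_max_le_right hn⟩
      rw [← map_add, hP]
      simp only at h3
      linarith
    obtain ⟨L, hL⟩ := cauchySeq_tendsto_of_complete (zero_cauchy _ h1 hD)
    obtain ⟨L', hL'⟩ := cauchySeq_tendsto_of_complete (weak_cauchy (fun n => (T.symm (x n)).2)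
      (fun n => (norm_snd_le _).trans ((hN _).trans (hx n).le)) (coord_cauchy _ h1 hD)
      ((f.comp T.toContinuousLinearMap).comp (ContinuousLinearMap.inr ℝ ℝ c0)))
    refine (((hL.mul_const (f (T (1, 0)))).add hL').congr fun n => ?_).cauchySeq
    have h2 : x n = (T.symm (x n)).1 • T (1, 0) + T (0, (T.symm (x n)).2) := by
      rw [← map_smul, ← map_add]
      simp
    conv_rhs => rw [h2, map_add, map_smul]
    rfl)
  let y : ℕ → ℕ → X := fun n k => T ((-1) ^ n, st n k)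
  let r : ℕ → ℝ := fun n => √(1 + hh n)
  have hr : ∀ n, 0 < r n := fun n => Real.sqrt_pos.2 (by linarith [hh_nonneg n])
  have hy : ∀ n k, ‖y n k‖ ≤ r n := fun n k =>
    Real.le_sqrt_of_sq_le ((hT _).trans_le (P_st n k))
  have hrl : Tendsto (fun n => (r n)⁻¹) atTop (𝓝 1) := by
    have h1 := ((hh_lim.const_add 1).sqrt).inv₀ (by norm_num)
    simpa using h1
  choose G hG1 hG2 using fun n => Simons.ulim
    (fun k => (r n)⁻¹ • NormedSpace.inclusionInDoubleDual ℝ X (y n k)) (fun k => by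
      rw [norm_smul, norm_inv, Real.norm_of_nonneg (hr n).le, inv_mul_le_iff₀ (hr n), mul_one]
      exact (NormedSpace.double_dual_bound ℝ X _).trans (hy n k))
  have hG3 : ∀ n (φ : X →L[ℝ] ℝ) (c : ℝ), (∀ᶠ k in atTop, φ (y n k) = c) →
      G n φ = (r n)⁻¹ * c := fun n φ c h => by
    refine tendsto_nhds_unique (hG2 n φ) (tendsto_const_nhds.congr' ?_)
    filter_upwards [Nat.hyperfilter_le_atTop h] with k hk
    rw [← hk]
    rfl
  let p0 : X →L[ℝ] ℝ := (ContinuousLinearMap.fst ℝ ℝ c0).comp T.symm.toContinuousLinearMap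
  have hp0 : ∀ n, G n p0 = (r n)⁻¹ * (-1) ^ n := fun n =>
    hG3 n p0 _ (Eventually.of_forall fun k => by simp [p0, y])
  have hp : ∀ e : I, ∃ φ : X →L[ℝ] ℝ, ‖φ‖ ≤ 1 ∧ ∀ z, φ z = (T.symm z).2 e := fun e =>
    ⟨LinearMap.mkContinuous
      { toFun := fun z => (T.symm z).2 e
        map_add' := fun a b => by simp
        map_smul' := fun c a => by simp } 1 fun z => by
          rw [one_mul]
          exact (abs_le_norm _ e).trans ((norm_snd_le _).trans (hN z)),
      LinearMap.mkContinuous_norm_le _ zero_le_one _, fun z => rfl⟩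
  choose π hπ1 hπ2 using hp
  have hπ : ∀ n (e : I), (e.1 = n ∨ e.2 = n) → G n (π e) = (r n)⁻¹ * (1 - w e) := fun n e he =>
    hG3 n _ _ (by
      filter_upwards [eventually_ge_atTop (max e.1 e.2)] with k hk
      rw [hπ2]
      simp only [y, ContinuousLinearEquiv.symm_apply_apply]
      rw [st_apply, if_pos ⟨he, le_of_max_le_left hk, le_of_max_le_right hk⟩])
  have hG0 : ∀ n, 0 < ‖G n‖ := fun n => by
    rw [norm_pos_iff]
    intro h
    have h1 := hp0 n
    rw [h] at h1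
    exact (mul_ne_zero (inv_pos.2 (hr n)).ne' (pow_ne_zero n (by norm_num))) h1.symm
  have hG4 : ∀ n, (r n)⁻¹ ≤ ‖G n‖⁻¹ * (r n)⁻¹ := fun n =>
    le_mul_of_one_le_left (inv_pos.2 (hr n)).le ((one_le_inv₀ (hG0 n)).2 (hG1 n))
  have hF1 : ∀ n, ‖‖G n‖⁻¹ • G n‖ = 1 := fun n => by
    rw [norm_smul, norm_inv, norm_norm, inv_mul_cancel₀ (hG0 n).ne']
  have hC := hW (fun n => ‖G n‖⁻¹ • G n) hF1 (by
    have h1 : Tendsto (fun p : ℕ × ℕ => ((r p.1)⁻¹ + (r p.2)⁻¹) * (1 - w p)) atTop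
        (𝓝 ((1 + 1) * (1 - 0))) :=
      ((hrl.comp (by rw [← prod_atTop_atTop_eq]; exact tendsto_fst)).add
        (hrl.comp (by rw [← prod_atTop_atTop_eq]; exact tendsto_snd))).mul (w_lim.const_sub 1)
    have h2 : ((1 : ℝ) + 1) * (1 - 0) = 2 := by norm_num
    rw [h2] at h1
    refine tendsto_of_tendsto_of_tendsto_of_le_of_le h1 tendsto_const_nhds (fun p => ?_)
      (fun p => ?_)
    · have h3 := (‖G p.1‖⁻¹ • G p.1 + ‖G p.2‖⁻¹ • G p.2).le_opNorm (π p)
      have h4 : (‖G p.1‖⁻¹ • G p.1 + ‖G p.2‖⁻¹ • G p.2) (π p) =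
          (‖G p.1‖⁻¹ * (r p.1)⁻¹ + ‖G p.2‖⁻¹ * (r p.2)⁻¹) * (1 - w p) := by
        show ‖G p.1‖⁻¹ * G p.1 (π p) + ‖G p.2‖⁻¹ * G p.2 (π p) = _
        rw [hπ p.1 p (Or.inl rfl), hπ p.2 p (Or.inr rfl)]
        ring
      rw [h4, Real.norm_eq_abs] at h3
      have h5 := mul_le_mul_of_nonneg_right (add_le_add (hG4 p.1) (hG4 p.2))
        (sub_nonneg.2 (w_le p))
      have h6 := mul_le_mul_of_nonneg_left (hπ1 p)
        (norm_nonneg (‖G p.1‖⁻¹ • G p.1 + ‖G p.2‖⁻¹ • G p.2))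
      exact h5.trans ((le_abs_self _).trans (h3.trans (h6.trans_eq (mul_one _))))
    · have h3 := norm_add_le (‖G p.1‖⁻¹ • G p.1) (‖G p.2‖⁻¹ • G p.2)
      rw [hF1, hF1] at h3
      exact h3.trans (by norm_num)) p0
  obtain ⟨N, hN1⟩ := Metric.cauchySeq_iff.1 hC 1 one_pos
  obtain ⟨M, hM⟩ := eventually_atTop.1 (hrl.eventually (lt_mem_nhds (show (1 : ℝ) / 2 < 1 by
    norm_num)))
  have h1 := hN1 (2 * (M + N)) (by omega) (2 * (M + N) + 1) (by omega)
  have h2 : ∀ n, (‖G n‖⁻¹ • G n) p0 = ‖G n‖⁻¹ * (r n)⁻¹ * (-1) ^ n := fun n => by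
    show ‖G n‖⁻¹ * G n p0 = _
    rw [hp0, mul_assoc]
  rw [Real.dist_eq, h2, h2, pow_succ, pow_mul] at h1
  have h3 := (abs_lt.1 h1).2
  have h4 := (hM (2 * (M + N)) (by omega)).trans_le (hG4 _)
  have h5 := (hM (2 * (M + N) + 1) (by omega)).trans_le (hG4 _)
  norm_num at h3
  linarith

end Pool.Agent.S06274
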