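import Pool.Statements.S06280


set_option autoImplicit false
open Pool Pool.MP_d4c9a2_an

namespace Pool.Agent.S06280

open Filter Topology Complex

abbrev E : Type := Fin 3 → ℂ

lemma hom_ne (φ : E → ℂ) (hφ : ContDiff ℂ ⊤ φ) (r : ℕ) (h : ∀ (t : ℂ) (w : E), φ (t • w) = t ^ r * φ w)
    (m : ℕ) (hm : m ≠ r) : iteratedFDeriv ℂ m φ 0 = 0 := by
  have h1 := ((2 : ℂ) • ContinuousLinearMap.id ℂ E).iteratedFDeriv_comp_right hφ 0 (i := m) le_top
  have h2 : φ ∘ ((2 : ℂ) • ContinuousLinearMap.id ℂ E) = fun w => (2 : ℂ) ^ r • φ w := by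
    ext w
    exact h 2 w
  rw [h2, iteratedFDeriv_const_smul_apply' (hφ.contDiffAt.of_le le_top), map_zero] at h1
  ext v
  have h3 := congrArg (fun A => A v) h1
  simp only [ContinuousMultilinearMap.smul_apply,
    ContinuousMultilinearMap.compContinuousLinearMap_apply, ContinuousLinearMap.smul_apply,
    ContinuousLinearMap.id_apply, ContinuousMultilinearMap.map_smul_univ, Finset.prod_const,
    Finset.card_univ, Fintype.card_fin, smul_eq_mul] at h3
  have h4 : (2 : ℂ) ^ r ≠ 2 ^ m := by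
    intro h5
    have h6 : (2 : ℕ) ^ r = 2 ^ m := by exact_mod_cast h5
    exact hm (Nat.pow_right_injective le_rfl h6).symm
  exact (mul_eq_mul_right_iff.1 h3).resolve_left h4

lemma hom_eq (φ : E → ℂ) (hφ : ContDiff ℂ ⊤ φ) (r : ℕ) (h : ∀ (t : ℂ) (w : E), φ (t • w) = t ^ r * φ w)
    (h1 : φ 1 = 1) : iteratedFDeriv ℂ r φ 0 ≠ 0 := by
  intro h0
  have h2 := (ContinuousLinearMap.toSpanSingleton ℂ (1 : E)).iteratedFDeriv_comp_right hφ 0
    (i := r) le_top
  have h3 : φ ∘ (ContinuousLinearMap.toSpanSingleton ℂ (1 : E)) = fun t : ℂ => t ^ r := by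
    ext t
    simp only [Function.comp, ContinuousLinearMap.toSpanSingleton_apply]
    rw [h, h1, mul_one]
  rw [h3, map_zero, h0] at h2
  have h4 := iteratedDeriv_fun_pow_zero (𝕜 := ℂ) (n := r) (m := r)
  rw [iteratedDeriv_eq_iteratedFDeriv, h2, if_pos rfl] at h4
  simp only [ContinuousMultilinearMap.compContinuousLinearMap_apply,
    ContinuousMultilinearMap.zero_apply] at h4
  exact Nat.factorial_ne_zero r (by exact_mod_cast h4.symm)

lemma order (g : E → E) (hg : ContDiff ℂ ⊤ g) (r : Fin 3 → ℕ)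
    (h : ∀ (t : ℂ) (w : E) (i : Fin 3), g (t • w) i = t ^ r i * g w i) (h1 : g 1 = 1) (m : ℕ) :
    iteratedFDeriv ℂ m g 0 ≠ 0 ↔ ∃ i, m = r i := by
  have k : ∀ i : Fin 3, iteratedFDeriv ℂ m (fun w => g w i) 0 =
      (ContinuousLinearMap.proj i : E →L[ℂ] ℂ).compContinuousMultilinearMap
        (iteratedFDeriv ℂ m g 0) := fun i =>
    (ContinuousLinearMap.proj i : E →L[ℂ] ℂ).iteratedFDeriv_comp_left hg.contDiffAt le_top
  constructor
  · intro h0
    by_contra hn
    push Not at hn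
    apply h0
    ext v i
    have := hom_ne (fun w => g w i) (contDiff_pi.1 hg i) (r i) (fun t w => h t w i) m (hn i)
    rw [k i] at this
    exact congrArg (fun A => A v) this
  · rintro ⟨i, rfl⟩ h0
    refine hom_eq (fun w => g w i) (contDiff_pi.1 hg i) (r i) (fun t w => h t w i)
      (by rw [h1]; rfl) ?_
    rw [k i, h0]
    ext v
    simp

def f (z : E) : E := ![z 1 * z 2, z 0 ^ 3, z 1 ^ 4 * z 2]

lemma f_smooth : ContDiff ℂ ⊤ f := by
  rw [contDiff_pi]
  intro i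
  fin_cases i
  · change ContDiff ℂ ⊤ (fun z : E => z 1 * z 2); fun_prop
  · change ContDiff ℂ ⊤ (fun z : E => z 0 ^ 3); fun_prop
  · change ContDiff ℂ ⊤ (fun z : E => z 1 ^ 4 * z 2); fun_prop

def v : ℕ → Fin 3 → ℕ
  | 0 => fun _ => 1
  | k + 1 => ![v k 1 + v k 2, 3 * v k 0, 4 * v k 1 + v k 2]

lemma it_smooth (k : ℕ) : ContDiff ℂ ⊤ f^[k] := by
  induction k with
  | zero => exact contDiff_id
  | succ k ih => rw [Function.iterate_succ']; exact f_smooth.comp ih

lemma it_one (k : ℕ) : f^[k] 1 = 1 := by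
  apply Function.iterate_fixed
  ext i
  fin_cases i <;> simp [f]

lemma it_hom (k : ℕ) (t : ℂ) (w : E) (i : Fin 3) : f^[k] (t • w) i = t ^ v k i * f^[k] w i := by
  induction k generalizing i with
  | zero => simp [v]
  | succ k ih =>
    rw [Function.iterate_succ_apply', Function.iterate_succ_apply']
    fin_cases i <;> simp [f, v, ih] <;> ring

lemma v02 (k : ℕ) : v k 0 ≤ v k 2 := by
  cases k <;> simp [v]
  omega

lemma ord (k : ℕ) : sInf {m : ℕ | iteratedFDeriv ℂ m (f^[k]) 0 ≠ 0} = min (v k 0) (v k 1) := by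
  have h := order f^[k] (it_smooth k) (v k) (it_hom k) (it_one k)
  refine IsLeast.csInf_eq ⟨?_, fun m hm => ?_⟩
  · rw [Set.mem_setOf_eq, h]
    rcases le_total (v k 0) (v k 1) with h1 | h1
    · exact ⟨0, min_eq_left h1⟩
    · exact ⟨1, min_eq_right h1⟩
  · obtain ⟨i, rfl⟩ := (h m).1 hm
    fin_cases i
    · exact min_le_left _ _
    · exact min_le_right _ _
    · exact (min_le_left _ _).trans (v02 k)

lemma f_deriv (z w : E) : fderiv ℂ f z w =
    ![z 1 * w 2 + z 2 * w 1, 3 * z 0 ^ 2 * w 0, z 1 ^ 4 * w 2 + z 2 * (4 * z 1 ^ 3 * w 1)] := by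
  have hd : DifferentiableAt ℂ f z := (f_smooth.differentiable (by simp)) z
  have p : ∀ i : Fin 3, HasFDerivAt (fun z : E => z i) (ContinuousLinearMap.proj i : E →L[ℂ] ℂ) z :=
    fun i => (ContinuousLinearMap.proj i : E →L[ℂ] ℂ).hasFDerivAt
  ext i
  have k := hasFDerivAt_pi'.1 hd.hasFDerivAt i
  fin_cases i
  · have := congrArg (fun A => A w) (k.unique ((p 1).mul (p 2)))
    simpa using this
  · have := congrArg (fun A => A w) (k.unique ((p 0).pow 3))
    simpa using this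
  · have := congrArg (fun A => A w) (k.unique (((p 1).pow 4).mul (p 2)))
    simpa using this

noncomputable def μ : ℂ := ⟨-1, √2⟩

noncomputable def D (w : ℂ) : ℝ := w.im / √2

lemma s2 : (0 : ℝ) < √2 := by positivity

lemma mu_sq : μ ^ 2 = -2 * μ - 3 := by
  apply Complex.ext <;> simp [μ, sq]
  · norm_num
  · ring

def d (k : ℕ) : ℤ := (v k 1 : ℤ) - v k 0

lemma d_rec (k : ℕ) : d (k + 2) = -2 * d (k + 1) - 3 * d k := by
  simp [d, v]
  ring

lemma d_eq (k : ℕ) : (d k : ℝ) = D (μ ^ k) := by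
  induction k using Nat.twoStepInduction with
  | zero => simp [d, v, D]
  | one =>
    simp [d, v, D, μ]
  | more k h1 h2 =>
    rw [d_rec]
    push_cast
    rw [h1, h2, pow_add μ k 2, mu_sq, pow_succ]
    have : μ ^ k * (-2 * μ - 3) = ((-2 : ℝ) : ℂ) * (μ ^ k * μ) - ((3 : ℝ) : ℂ) * μ ^ k := by
      push_cast; ring
    rw [this]
    simp only [D, Complex.sub_im, Complex.im_ofReal_mul]
    ring

lemma d_mod (k : ℕ) : d (k + 1) % 3 = 1 := by
  induction k with
  | zero => simp [d, v]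
  | succ k ih => rw [d_rec]; omega

lemma im_ne (k : ℕ) (hk : 0 < k) : (μ ^ k).im ≠ 0 := by
  intro h
  have h1 := d_eq k
  rw [D, h, zero_div] at h1
  have h2 : d k = 0 := by exact_mod_cast h1
  obtain ⟨j, rfl⟩ := Nat.exists_eq_succ_of_ne_zero hk.ne'
  have := d_mod j
  rw [Nat.succ_eq_add_one] at h2
  omega

lemma ell (k : ℕ) : 2 * v k 0 + 2 * v k 1 + v k 2 = 5 * 3 ^ k := by
  induction k with
  | zero => simp [v]
  | succ k ih =>
    simp only [v, Matrix.cons_val_zero, Matrix.cons_val_one, Matrix.cons_val]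
    rw [pow_succ]; omega

noncomputable def φ (w : ℂ) : ℝ := D (μ * w) + 2 * D w - 3 * |D w|

lemma c_eq (k : ℕ) : 6 * ((min (v k 0) (v k 1) : ℕ) : ℝ) = 5 * 3 ^ k + φ (μ ^ k) := by
  unfold φ
  rw [← pow_succ', ← d_eq, ← d_eq]
  have h1 : (6 * ((min (v k 0) (v k 1) : ℕ) : ℤ)) = 5 * 3 ^ k + (d (k + 1) + 2 * d k - 3 * |d k|) := by
    have h2 : (2 * v k 0 + 2 * v k 1 + v k 2 : ℤ) = 5 * 3 ^ k := by exact_mod_cast ell k
    rw [← h2]
    simp only [d, v, Matrix.cons_val_zero, Matrix.cons_val_one]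
    push_cast
    rcases le_total (v k 0 : ℤ) (v k 1) with h | h
    · rw [min_eq_left h, abs_of_nonneg (by linarith)]; ring
    · rw [min_eq_right h, abs_of_nonpos (by linarith)]; ring
  exact_mod_cast h1

lemma mu_ne : μ ≠ 0 := by
  intro h
  have := congrArg Complex.re h
  simp [μ] at this

lemma vanish (G : ℂ → ℝ) (hG : Continuous G) (hh : ∀ (t : ℝ) (w : ℂ), 0 ≤ t → G (t * w) = t * G w)
    (K : ℕ) (h : ∀ k, K ≤ k → G (μ ^ k) = 0) (w : ℂ) : G w = 0 := by
  haveI : Fact (0 < 2 * Real.pi) := ⟨by positivity⟩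
  have hΦ : ∀ x : ℝ, ((AddCircle.toCircle (x : AddCircle (2 * Real.pi)) : Circle) : ℂ) =
      Complex.exp (x * I) := by
    intro x
    rw [AddCircle.toCircle_apply_mk, div_self (by positivity), one_mul, Circle.coe_exp]
  set a : AddCircle (2 * Real.pi) := ((μ.arg : ℝ) : AddCircle (2 * Real.pi)) with ha
  have h1 : ∀ n : ℕ, μ ^ n = ((‖μ‖ ^ n : ℝ) : ℂ) * (AddCircle.toCircle (n • a) : Circle) := by
    intro n
    rw [AddCircle.toCircle_nsmul, Circle.coe_pow, ha, hΦ]
    push_cast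
    rw [← mul_pow, Complex.norm_mul_exp_arg_mul_I]
  have h2 : addOrderOf a = 0 := by
    rw [addOrderOf_eq_zero_iff']
    intro n hn h0
    apply im_ne n hn
    rw [h1, h0]
    simp only [AddCircle.toCircle_zero, Circle.coe_one, mul_one, Complex.ofReal_im]
  have h3 := denseRange_zsmul_iff_nsmul.1 (AddCircle.denseRange_zsmul_iff.2 h2)
  have h4 : ∀ x : AddCircle (2 * Real.pi), G (μ ^ K * (AddCircle.toCircle x : Circle)) = 0 := by
    intro x
    refine h3.induction_on x (isClosed_eq ?_ continuous_const) (fun n => ?_)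
    · exact hG.comp (continuous_const.mul
        (continuous_subtype_val.comp AddCircle.continuous_toCircle))
    · have h5 := h (K + n) (by omega)
      have h6 : (0 : ℝ) < ‖μ‖ ^ n := pow_pos (norm_pos_iff.2 mu_ne) n
      rw [pow_add, h1 n, mul_left_comm, hh _ _ h6.le] at h5
      exact (mul_eq_zero.1 h5).resolve_left h6.ne'
  have h5 : w = ((‖w / μ ^ K‖ : ℝ) : ℂ) * (μ ^ K *
      (AddCircle.toCircle (((w / μ ^ K).arg : ℝ) : AddCircle (2 * Real.pi)) : Circle)) := by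
    rw [hΦ, mul_left_comm, Complex.norm_mul_exp_arg_mul_I, mul_div_cancel₀ _ (pow_ne_zero _ mu_ne)]
  rw [h5, hh _ _ (norm_nonneg _), h4, mul_zero]

lemma φ_cont : Continuous φ := by
  unfold φ D
  fun_prop

lemma φ_hom (t : ℝ) (w : ℂ) (ht : 0 ≤ t) : φ (t * w) = t * φ w := by
  unfold φ D
  rw [mul_left_comm, Complex.im_ofReal_mul, Complex.im_ofReal_mul, mul_div_assoc, mul_div_assoc,
    abs_mul, abs_of_nonneg ht]
  ring

lemma second (w : ℂ) (t : ℝ) : φ (w * (1 + t * I)) + φ (w * (1 - t * I)) - 2 * φ w =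
    -3 * (|w.im + t * w.re| + |w.im - t * w.re| - 2 * |w.im|) / √2 := by
  unfold φ D
  simp only [abs_div, abs_of_pos s2]
  simp only [Complex.mul_im, Complex.mul_re, Complex.add_re, Complex.add_im, Complex.sub_re,
    Complex.sub_im, Complex.one_re, Complex.one_im, Complex.ofReal_re, Complex.ofReal_im,
    Complex.I_re, Complex.I_im]
  ring_nf

lemma second0 (w : ℂ) (hw : w.im ≠ 0) : ∀ᶠ t : ℝ in 𝓝 0,
    φ (w * (1 + t * I)) + φ (w * (1 - t * I)) - 2 * φ w = 0 := by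
  have h : Tendsto (fun t : ℝ => |t * w.re|) (𝓝 0) (𝓝 |0 * w.re|) :=
    Continuous.tendsto (by fun_prop) 0
  rw [zero_mul, abs_zero] at h
  filter_upwards [h.eventually (gt_mem_nhds (abs_pos.2 hw))] with t ht
  rw [second]
  have : |w.im + t * w.re| + |w.im - t * w.re| - 2 * |w.im| = 0 := by
    rw [abs_lt] at ht
    rcases lt_or_gt_of_ne hw with h1 | h1
    · rw [abs_of_neg h1] at ht ⊢
      rw [abs_of_neg (by linarith), abs_of_neg (by linarith)]; ring
    · rw [abs_of_pos h1] at ht ⊢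
      rw [abs_of_pos (by linarith), abs_of_pos (by linarith)]; ring
  rw [this]; simp


/-- The negation of the preceding statement: For every holomorphic germ f of ℂⁿ fixing 0 that is non-invertible and dominant, the orders of vanishing c(f^k) of its iterates at 0 eventually satisfy a linear recursion with integer coefficients. -/
theorem result :
    ¬ (∀ (n : ℕ) (f : (Fin n → ℂ) → (Fin n → ℂ)),
      AnalyticAt ℂ f 0 → f 0 = 0 →
      (fderiv ℂ f 0).det = 0 →
      (∀ ε : ℝ, 0 < ε → ∃ z : Fin n → ℂ, ‖z‖ < ε ∧ (fderiv ℂ f z).det ≠ 0) →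
      ∃ (d : ℕ) (a : Fin d → ℤ) (K : ℕ), ∀ k : ℕ, K ≤ k →
        ((sInf {m : ℕ | iteratedFDeriv ℂ m (f^[k + d]) 0 ≠ 0} : ℕ) : ℤ) =
          ∑ i : Fin d, a i *
            ((sInf {m : ℕ | iteratedFDeriv ℂ m (f^[k + (i : ℕ)]) 0 ≠ 0} : ℕ) : ℤ)) := by
  intro h
  obtain ⟨n, a, K, hK⟩ := h 3 f (f_smooth.contDiffAt.analyticAt) (by
      ext i; fin_cases i <;> simp [f]) (by
      have : fderiv ℂ f 0 = 0 := by
        ext1 w
        rw [f_deriv]
        ext i; fin_cases i <;> simp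
      rw [this]
      simp [ContinuousLinearMap.det]) (fun ε hε => by
      refine ⟨fun _ => ((ε / 2 : ℝ) : ℂ), ?_, ?_⟩
      · rw [pi_norm_const, Complex.norm_real, Real.norm_of_nonneg (by positivity)]
        linarith
      · have he : ((ε / 2 : ℝ) : ℂ) ≠ 0 := by exact_mod_cast (by positivity : ε / 2 ≠ 0)
        generalize ((ε / 2 : ℝ) : ℂ) = e at he
        rw [ContinuousLinearMap.det, Ne, LinearMap.det_eq_zero_iff_ker_ne_bot, not_not,
          LinearMap.ker_eq_bot']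
        intro w hw
        have hw' : fderiv ℂ f (fun _ => e) w = 0 := hw
        rw [f_deriv] at hw'
        have h0 := congrFun hw' 0
        have h1 := congrFun hw' 1
        have h2 := congrFun hw' 2
        simp only [Matrix.cons_val_zero, Matrix.cons_val_one, Matrix.cons_val,
          Pi.zero_apply] at h0 h1 h2
        have k0 : w 0 = 0 := by simpa [he] using h1
        have k1 : w 1 = 0 := by
          have : 3 * e ^ 4 * w 1 = 0 := by linear_combination h2 - e ^ 3 * h0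
          simpa [he] using this
        have k2 : w 2 = 0 := by simpa [he, k1] using h0
        ext i; fin_cases i <;> simp [k0, k1, k2])
  simp only [ord] at hK
  have h1 : ∀ k, K ≤ k → φ (μ ^ n * μ ^ k) - ∑ i : Fin n, a i * φ (μ ^ (i : ℕ) * μ ^ k) =
      -5 * 3 ^ k * (3 ^ n - ∑ i : Fin n, (a i : ℝ) * 3 ^ (i : ℕ)) := by
    intro k hk
    have h2 : ((min (v (k + n) 0) (v (k + n) 1) : ℕ) : ℝ) =
        ∑ i : Fin n, a i * ((min (v (k + i) 0) (v (k + i) 1) : ℕ) : ℝ) := by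
      exact_mod_cast hK k hk
    have h3 : 6 * ((min (v (k + n) 0) (v (k + n) 1) : ℕ) : ℝ) =
        ∑ i : Fin n, a i * (6 * ((min (v (k + i) 0) (v (k + i) 1) : ℕ) : ℝ)) := by
      rw [h2, Finset.mul_sum]
      exact Finset.sum_congr rfl (fun i _ => by ring)
    simp only [c_eq, mul_add, Finset.sum_add_distrib] at h3
    simp only [← pow_add, add_comm _ k]
    have h4 : ∑ i : Fin n, (a i : ℝ) * (5 * 3 ^ (k + i)) =
        5 * 3 ^ k * ∑ i : Fin n, (a i : ℝ) * 3 ^ (i : ℕ) := by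
      rw [Finset.mul_sum]
      exact Finset.sum_congr rfl (fun i _ => by ring)
    rw [h4, pow_add (3 : ℝ)] at h3
    linarith
  set H : ℂ → ℝ := fun w => φ (μ ^ n * w) - ∑ i : Fin n, a i * φ (μ ^ (i : ℕ) * w) with hH
  have hc := φ_cont
  have hHh : ∀ (t : ℝ) (w : ℂ), 0 ≤ t → H (t * w) = t * H w := by
    intro t w ht
    simp only [hH, mul_left_comm _ (t : ℂ), φ_hom t _ ht, mul_sub, Finset.mul_sum]
    congr 1
    exact Finset.sum_congr rfl (fun i _ => by ring)
  have h2 := vanish (fun w => H (μ * w) - 3 * H w) (by simp only [hH]; fun_prop)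
    (fun t w ht => by
      simp only [mul_left_comm _ (t : ℂ), hHh t _ ht]; ring) K (fun k hk => by
      have e1 := h1 k hk
      have e2 := h1 (k + 1) (by omega)
      simp only [hH, ← pow_succ']
      rw [e1, e2]; ring)
  have h3 : ∀ j, j ≤ n → (μ ^ j * (μ ^ (n + 1))⁻¹).im ≠ 0 := by
    intro j hj
    have e : μ ^ j * (μ ^ (n + 1))⁻¹ = (μ ^ (n + 1 - j))⁻¹ := by
      rw [show μ ^ (n + 1) = μ ^ j * μ ^ (n + 1 - j) by rw [← pow_add]; congr 1; omega, mul_inv,
        mul_inv_cancel_left₀ (pow_ne_zero _ mu_ne)]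
    rw [e, Complex.inv_im]
    exact div_ne_zero (neg_ne_zero.2 (im_ne _ (by omega)))
      (Complex.normSq_pos.2 (pow_ne_zero _ mu_ne)).ne'
  set w0 : ℂ := (μ ^ (n + 1))⁻¹ with hw0
  have h4 : ∀ᶠ t : ℝ in 𝓝 0, ∀ j : Fin (n + 1), φ (μ ^ (j : ℕ) * w0 * (1 + t * I)) +
      φ (μ ^ (j : ℕ) * w0 * (1 - t * I)) - 2 * φ (μ ^ (j : ℕ) * w0) = 0 :=
    eventually_all.2 (fun j => second0 _ (h3 j (by omega)))
  obtain ⟨t, ht, ht0⟩ := ((h4.filter_mono nhdsWithin_le_nhds).and
    (self_mem_nhdsWithin (s := Set.Ioi (0 : ℝ)))).exists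
  have ht1 : 0 < t := ht0
  have h5 := second 1 t
  have e0 : ∀ x : ℂ, μ ^ n * (μ * (w0 * x)) = 1 * x := fun x => by
    rw [← mul_assoc, ← pow_succ, ← mul_assoc, hw0, mul_inv_cancel₀ (pow_ne_zero _ mu_ne)]
  have e1 : ∀ (i : Fin n) (x : ℂ), μ ^ (i : ℕ) * (μ * (w0 * x)) =
      μ ^ ((i.succ : Fin (n + 1)) : ℕ) * w0 * x := fun i x => by
    rw [Fin.val_succ]; ring
  have e2 : ∀ (i : Fin n) (x : ℂ), μ ^ (i : ℕ) * (w0 * x) =
      μ ^ ((i.castSucc : Fin (n + 1)) : ℕ) * w0 * x := fun i x => by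
    rw [Fin.val_castSucc]; ring
  have e3 : ∀ x : ℂ, μ ^ n * (w0 * x) = μ ^ ((Fin.last n : Fin (n + 1)) : ℕ) * w0 * x :=
    fun x => by rw [Fin.val_last]; ring
  have g1 := h2 (w0 * (1 + t * I))
  have g2 := h2 (w0 * (1 - t * I))
  have g3 := h2 (w0 * 1)
  simp only [hH, e0, e1] at g1 g2 g3
  simp only [e2, e3, mul_one] at g1 g2 g3
  have s1 : ∀ u : Fin n → Fin (n + 1), ∑ i : Fin n, a i * φ (μ ^ (u i : ℕ) * w0 * (1 + t * I)) +
      ∑ i : Fin n, a i * φ (μ ^ (u i : ℕ) * w0 * (1 - t * I)) -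
      2 * ∑ i : Fin n, a i * φ (μ ^ (u i : ℕ) * w0) = 0 := by
    intro u
    rw [Finset.mul_sum, ← Finset.sum_add_distrib, ← Finset.sum_sub_distrib]
    refine Finset.sum_eq_zero (fun i _ => ?_)
    linear_combination (a i : ℝ) * ht (u i)
  have s2' := s1 Fin.succ
  have s3 := s1 Fin.castSucc
  have s4 := ht (Fin.last n)
  simp only [Fin.val_last, Fin.val_castSucc] at g1 g2 g3 s3 s4
  have h6 : φ (1 * (1 + t * I)) + φ (1 * (1 - t * I)) - 2 * φ 1 = 0 := by
    linarith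
  rw [h5] at h6
  simp only [Complex.one_im, Complex.one_re, mul_one, zero_add, zero_sub, abs_neg, abs_zero,
    abs_of_pos ht1] at h6
  have h7 := s2
  rw [div_eq_zero_iff] at h6
  rcases h6 with h6 | h6 <;> linarith

end Pool.Agent.S06280
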