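import Pool.Statements.S06331
import Pool.Agent.H8.VelB

set_option autoImplicit false
open Filter Topology
open Pool Pool.MP_d75d7a_an

namespace Pool.Agent.S06331

open Finset Pool.Agent.H8 ZeroAtInfty

lemma blocks (σ : Equiv.Perm ℕ) (h : ∀ b : ℕ → ℝ,
    (∃ M : ℝ, Tendsto (fun n => ∑ i ∈ range n, b i) atTop (𝓝 M)) →
    ∃ M : ℝ, Tendsto (fun n => ∑ i ∈ range n, b (σ i)) atTop (𝓝 M)) :
    ∃ C : ℕ, ∀ n, ∃ B : Finset ℕ, #B ≤ C ∧ ∀ j, ¬ (σ.symm j < n ↔ σ.symm (j + 1) < n) → j ∈ B := by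
  classical
  let ev : ℕ → C₀(ℕ, ℝ) →L[ℝ] ℝ := fun j => LinearMap.mkContinuous
    { toFun := fun f => f j, map_add' := fun _ _ => rfl, map_smul' := fun _ _ => rfl } 1
    fun f => by simpa using f.toBCF.norm_coe_le_norm j
  obtain ⟨C, hC⟩ := banach_steinhaus (g := fun n => ∑ i ∈ range n, (ev (σ i + 1) - ev (σ i)))
    fun f => by
      obtain ⟨M, hM⟩ := h (fun i => f (i + 1) - f i) ⟨0 - f 0, by
        simp only [sum_range_sub]
        refine Tendsto.sub_const ?_ _
        simpa [Nat.cofinite_eq_atTop] using f.zero_at_infty'⟩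
      obtain ⟨C, hC⟩ := hM.norm.bddAbove_range
      exact ⟨C, fun n => hC ⟨n, by simp [ev]⟩⟩
  refine ⟨⌈C⌉₊, fun n => ?_⟩
  obtain ⟨m, hm⟩ : ∃ m, ∀ j, m ≤ j → n ≤ σ.symm j :=
    eventually_atTop.mp (σ.symm.injective.nat_tendsto_atTop.eventually_ge_atTop n)
  set χ : ℕ → ℝ := fun j => if σ.symm j < n then 1 else 0 with hχ
  set s : ℕ → ℝ := fun j => if j = 0 then 0 else χ (j - 1) - χ j with hs
  have hz : ∀ j, m ≤ j → χ j = 0 := fun j hj => if_neg (hm j hj).not_gt
  let f : C₀(ℕ, ℝ) := ⟨⟨s, continuous_of_discreteTopology⟩, by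
    rw [cocompact_eq_cofinite, Nat.cofinite_eq_atTop]
    refine tendsto_const_nhds.congr' (eventually_atTop.mpr ⟨m + 1, fun j hj => ?_⟩)
    simp only [hs, if_neg (show j ≠ 0 by omega), hz j (by omega), hz (j - 1) (by omega), sub_self]⟩
  have h1 : ‖f‖ ≤ 1 := (BoundedContinuousFunction.norm_le (f := f.toBCF) zero_le_one).mpr fun j => by
    change ‖s j‖ ≤ 1
    simp only [hs, hχ]
    split_ifs <;> simp
  have h2 := ((∑ i ∈ range n, (ev (σ i + 1) - ev (σ i))).le_of_opNorm_le_of_le (hC n) h1)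
  have h3 : ∀ k, ∑ j ∈ range k, χ j * (s (j + 1) - s j) =
      ∑ j ∈ range k, (χ j - χ (j + 1)) ^ 2 + χ k * s k := fun k => by
    induction k with
    | zero => simp [hs]
    | succ k ih =>
      have : s (k + 1) = χ k - χ (k + 1) := by simp [hs]
      rw [sum_range_succ, sum_range_succ, ih, this]
      ring
  have h4 : (∑ i ∈ range n, (ev (σ i + 1) - ev (σ i))) f =
      ∑ j ∈ range m, χ j * (s (j + 1) - s j) := by
    simp only [hχ, ite_mul, one_mul, zero_mul, ← sum_filter, _root_.sum_apply]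
    refine sum_equiv σ (fun i => ?_) fun i _ => rfl
    simp only [mem_range, mem_filter, Equiv.symm_apply_apply, iff_and_self]
    intro hi
    by_contra h5
    simpa [hi.not_ge] using hm _ (not_lt.mp h5)
  refine ⟨{j ∈ range m | ¬ (σ.symm j < n ↔ σ.symm (j + 1) < n)}, ?_, fun j hj => ?_⟩
  · rw [h4, h3, hz m le_rfl, zero_mul, add_zero, mul_one] at h2
    refine Nat.cast_le (α := ℝ).mp (le_trans ?_ ((le_abs_self _).trans (h2.trans (Nat.le_ceil C))))
    rw [card_filter, Nat.cast_sum]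
    refine sum_le_sum fun j _ => ?_
    simp only [hχ]
    split_ifs <;> simp_all
  · refine mem_filter.mpr ⟨mem_range.mpr ?_, hj⟩
    by_contra h5
    have := hm j (by omega)
    have := hm (j + 1) (by omega)
    omega

/-- There is a divergent real series, convergent under some rearrangement, such that some real number is a sum of it under a λ-permutation and some real number is not. -/
theorem result :
    ∃ a : ℕ → ℝ,
      (¬ ∃ L : ℝ, Tendsto (fun n => ∑ i ∈ Finset.range n, a i) atTop (𝓝 L)) ∧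
      (∃ τ : Equiv.Perm ℕ, ∃ L : ℝ,
        Tendsto (fun n => ∑ i ∈ Finset.range n, a (τ i)) atTop (𝓝 L)) ∧
      (∃ L : ℝ, ∃ σ : Equiv.Perm ℕ,
        ((∀ b : ℕ → ℝ,
            (∃ M : ℝ, Tendsto (fun n => ∑ i ∈ Finset.range n, b i) atTop (𝓝 M)) →
            ∃ M : ℝ, Tendsto (fun n => ∑ i ∈ Finset.range n, b (σ i)) atTop (𝓝 M)) ∧
          (∃ b : ℕ → ℝ,
            (¬ ∃ M : ℝ, Tendsto (fun n => ∑ i ∈ Finset.range n, b i) atTop (𝓝 M)) ∧
            ∃ M : ℝ, Tendsto (fun n => ∑ i ∈ Finset.range n, b (σ i)) atTop (𝓝 M))) ∧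
        Tendsto (fun n => ∑ i ∈ Finset.range n, a (σ i)) atTop (𝓝 L)) ∧
      (∃ L : ℝ, ¬ ∃ σ : Equiv.Perm ℕ,
        ((∀ b : ℕ → ℝ,
            (∃ M : ℝ, Tendsto (fun n => ∑ i ∈ Finset.range n, b i) atTop (𝓝 M)) →
            ∃ M : ℝ, Tendsto (fun n => ∑ i ∈ Finset.range n, b (σ i)) atTop (𝓝 M)) ∧
          (∃ b : ℕ → ℝ,
            (¬ ∃ M : ℝ, Tendsto (fun n => ∑ i ∈ Finset.range n, b i) atTop (𝓝 M)) ∧
            ∃ M : ℝ, Tendsto (fun n => ∑ i ∈ Finset.range n, b (σ i)) atTop (𝓝 M))) ∧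
        Tendsto (fun n => ∑ i ∈ Finset.range n, a (σ i)) atTop (𝓝 L)) := by
  classical
  obtain ⟨W, S, hS, S0, SW, hd, hH⟩ := VelA.main
  choose R hR using fun i => VelA.between (u := S) (k := i) (by omega) (i + 1) hS.le_apply
  have Ru : ∀ i r, S r ≤ i → i < S (r + 1) → R i = r := fun i r h1 h2 => by
    have a1 := hS.lt_iff_lt.mp (h1.trans_lt (hR i).2.2)
    have a2 := hS.lt_iff_lt.mp ((hR i).2.1.trans_lt h2)
    omega
  have Rm : Monotone R := fun i j h =>
    Nat.lt_succ_iff.mp (hS.lt_iff_lt.mp (((hR i).2.1.trans h).trans_lt (hR j).2.2))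
  have Rt : Tendsto R atTop atTop := tendsto_atTop_atTop_of_monotone Rm fun r =>
    ⟨S r, (Ru _ _ le_rfl (hS r.lt_succ_self)).ge⟩
  set f : Bool × ℕ → ℕ := fun x => S (R x.2 + if x.1 then 1 else 0) + x.2 with hf
  have fb : Function.Bijective f := by
    refine ⟨fun x y h => ?_, fun n => ?_⟩
    · obtain ⟨b, i⟩ := x
      obtain ⟨c, j⟩ := y
      have a1 := (hR i).2
      have a2 := (hR j).2
      have a3 := hS (R i).lt_succ_self
      have a4 := hS (R j).lt_succ_self
      simp only [Nat.succ_eq_add_one] at a3 a4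
      have a5 : R i = R j := by
        rcases lt_trichotomy (R i) (R j) with d | d | d
        · have : S (R i + 1) ≤ S (R j) := hS.monotone d
          cases b <;> cases c <;> simp [hf] at h <;> omega
        · exact d
        · have : S (R j + 1) ≤ S (R i) := hS.monotone d
          cases b <;> cases c <;> simp [hf] at h <;> omega
      rw [a5] at a1
      cases b <;> cases c <;> simp [hf, a5] at h ⊢ <;> omega
    · obtain ⟨r, -, a1, a2⟩ := VelA.between (u := fun r => 2 * S r) (k := n) (by simp [S0]) (n + 1)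
        (by have := hS.le_apply (x := n + 1); omega)
      by_cases h : n < S r + S (r + 1)
      · exact ⟨(false, n - S r), by simp [hf, Ru (n - S r) r (by omega) (by omega)]; omega⟩
      · exact ⟨(true, n - S (r + 1)), by
          simp [hf, Ru (n - S (r + 1)) r (by omega) (by omega)]; omega⟩
  set F := Equiv.ofBijective f fb
  set σ : Equiv.Perm ℕ := Equiv.boolProdNatEquivNat.symm.trans F
  have s0 : ∀ i, σ (2 * i) = S (R i) + i := fun i => by simp [σ, F, hf]
  have s1 : ∀ i, σ (2 * i + 1) = S (R i + 1) + i := fun i => by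
    simp [σ, F, hf, Nat.div2_val, Nat.add_div]
  have T1 : ∀ (c : ℕ → ℝ) r i, S r ≤ i → i ≤ S (r + 1) →
      ∑ j ∈ range (2 * S r), c (σ j) = ∑ j ∈ range (S r + S r), c j →
      ∑ j ∈ range (2 * i), c (σ j) = ∑ j ∈ range (S r + i), c j + ∑ j ∈ range (S (r + 1) + i), c j -
        ∑ j ∈ range (S (r + 1) + S r), c j := fun c r i h1 h2 h3 => by
    induction i, h1 using Nat.le_induction with
    | base => rw [h3, add_sub_cancel_right]
    | succ i hi ih =>
      rw [mul_add, mul_one, sum_range_succ, sum_range_succ, ih (by omega), s0, s1, Ru i r hi h2,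
        ← add_assoc, ← add_assoc, sum_range_succ, sum_range_succ]
      ring
  have T2 : ∀ (c : ℕ → ℝ) r, ∑ j ∈ range (2 * S r), c (σ j) = ∑ j ∈ range (S r + S r), c j :=
    fun c r => by
      induction r with
      | zero => simp [S0]
      | succ r ih =>
        rw [T1 c r _ (hS r.lt_succ_self).le le_rfl ih, add_comm (S r), add_sub_cancel_left]
  have T3 : ∀ (c : ℕ → ℝ) (M : ℝ), Tendsto (fun i => c (σ (2 * i))) atTop (𝓝 0) →
      Tendsto (fun i => ∑ j ∈ range (2 * i), c (σ j)) atTop (𝓝 M) →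
      Tendsto (fun n => ∑ j ∈ range n, c (σ j)) atTop (𝓝 M) := fun c M h1 h2 => by
    have h3 : Tendsto (fun n : ℕ => n / 2) atTop atTop := Nat.tendsto_div_const_atTop two_ne_zero
    refine (h2.comp h3).congr_dist (squeeze_zero (fun _ => dist_nonneg) (fun n => ?_)
      (by simpa using (h1.comp h3).abs))
    obtain ⟨i, rfl | rfl⟩ := Nat.even_or_odd' n
    · simp
    · simp [sum_range_succ, Nat.add_div, Real.dist_eq]
  set a : ℕ → ℝ := fun n => (if (F.symm n).1 then -1 else 1) *
    (W ((F.symm n).2 + 1) - W (F.symm n).2) with ha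
  have aF : ∀ x, a (F x) = (if x.1 then -1 else 1) * (W (x.2 + 1) - W x.2) := fun x => by
    simp only [ha, Equiv.symm_apply_apply]
  have a0 : ∀ i, a (σ (2 * i)) = W (i + 1) - W i := fun i => by
    simpa [s0, F, hf] using aF (false, i)
  have a1 : ∀ i, a (σ (2 * i + 1)) = -(W (i + 1) - W i) := fun i => by
    simpa [s1, F, hf] using aF (true, i)
  have a2 : ∀ i, ∑ j ∈ range (2 * i), a (σ j) = 0 := fun i => by
    induction i with
    | zero => simp
    | succ i ih => rw [mul_add, mul_one, sum_range_succ, sum_range_succ, ih, a0, a1]; ring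
  have a3 : Tendsto (fun n => ∑ j ∈ range n, a (σ j)) atTop (𝓝 0) :=
    T3 a 0 (by simpa only [a0] using hd) (by simp only [a2]; exact tendsto_const_nhds)
  have St := hS.tendsto_atTop
  have a4 : ¬ ∃ L : ℝ, Tendsto (fun n => ∑ i ∈ range n, a i) atTop (𝓝 L) := by
    rintro ⟨L, hL⟩
    have b1 : ∀ r i, S r ≤ i → i ≤ S (r + 1) → ∑ j ∈ range (S r + i), a j = W i - W (S r) := by
      intro r i h1 h2
      induction i, h1 using Nat.le_induction with
      | base => rw [← T2, a2, sub_self]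
      | succ i hi ih =>
        have := a0 i
        rw [s0, Ru i r hi h2] at this
        rw [← add_assoc, sum_range_succ, ih (by omega), this]
        ring
    have b2 := tendsto_nhds_unique (hL.comp (Tendsto.atTop_add_atTop St St)) (tendsto_const_nhds.congr
      fun r => ((b1 r _ le_rfl (hS r.lt_succ_self).le).trans (sub_self _)).symm)
    have b3 := tendsto_nhds_unique (hL.comp (Tendsto.atTop_add_atTop St (St.comp (tendsto_add_atTop_nat 1))))
      (tendsto_const_nhds.congr fun r => ((b1 r _ (hS r.lt_succ_self).le le_rfl).trans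
        (by rw [SW, add_sub_cancel_left])).symm)
    exact zero_ne_one (b2.symm.trans b3)
  refine ⟨a, a4, ⟨σ, 0, a3⟩, ⟨0, σ, ⟨fun c ⟨M, hM⟩ => ⟨M + M - M, T3 c _ ?_ ?_⟩, a, a4, 0, a3⟩, a3⟩,
    1, fun ⟨τ, ⟨h1, _⟩, h2⟩ => ?_⟩
  · have h1 : Tendsto c atTop (𝓝 0) := by
      simpa [sum_range_succ] using (hM.comp (tendsto_add_atTop_nat 1)).sub hM
    exact h1.comp (Function.Injective.nat_tendsto_atTop fun i j h => by
      simpa using σ.injective h)
  · have h1 := St.comp Rt
    have h2 := St.comp ((tendsto_add_atTop_nat 1).comp Rt)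
    refine (((hM.comp (Tendsto.atTop_add_atTop h1 tendsto_id)).add
      (hM.comp (Tendsto.atTop_add_atTop h2 tendsto_id))).sub
        (hM.comp (Tendsto.atTop_add_atTop h2 h1))).congr fun i => ?_
    exact (T1 c (R i) i (hR i).2.1 (hR i).2.2.le (T2 c _)).symm
  · obtain ⟨C, hC⟩ := blocks τ h1
    set G := F.trans τ.symm
    refine one_ne_zero (VelB.main (t := fun b i => G (b, i)) (K := 2 * C) hH
      (fun b i b' i' h => (Prod.mk.inj (G.injective h)).2) (fun n A hA => ?_) (fun n Y hY => ?_) h2)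
    · obtain ⟨B, b1, b2⟩ := hC n
      have fm : ∀ b, StrictMono fun i => f (b, i) := fun b i j h =>
        add_lt_add_of_le_of_lt (hS.monotone (add_le_add_left (Rm h.le) _)) h
      have hz : ∀ i ∈ A, ∃ x : Bool × ℕ, x.2 ∈ B ∧ f (x.1, i) ≤ x.2 ∧ x.2 < f (x.1, i + 1) := by
        intro i hi
        obtain ⟨b, hb⟩ := hA i hi
        by_contra H
        push Not at H
        refine hb (VelB.const (t := fun _ j => τ.symm j) b (fm b i.lt_succ_self).le
          fun z z1 z2 ⟨_, z3⟩ => ?_)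
        exact (H (b, z) (b2 z z3) z1).not_gt z2
      choose! x x1 x2 x3 using hz
      refine (card_le_card_of_injOn x (t := univ ×ˢ B) (fun i hi => by simpa using x1 i hi)
        fun i hi j hj e => ?_).trans (by simpa using b1)
      have c1 := (fm _).lt_iff_lt.mp ((x2 i hi).trans_lt (e ▸ x3 j hj))
      have c2 := (fm _).lt_iff_lt.mp ((x2 j hj).trans_lt (e ▸ x3 i hi))
      omega
    · have : ∑ i ∈ range n, a (τ i) = ∑ x ∈ univ ×ˢ range Y with G x < n, a (F x) := by
        refine (sum_equiv G (fun x => ?_) fun x _ => by simp [G]).symm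
        simp only [mem_filter, mem_product, mem_univ, mem_range, true_and, and_iff_right_iff_imp]
        exact hY x.1 x.2
      rw [this, sum_filter, sum_product, Fintype.sum_bool, ← sum_add_distrib, range_eq_Ico]
      refine sum_congr rfl fun i _ => ?_
      simp only [aF, VelB.g, Nat.zero_le, true_and]
      split_ifs <;> simp_all

end Pool.Agent.S06331
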