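import Pool.Statements.S06344
import Pool.Agent.H33.EP2

set_option autoImplicit false
open Pool Pool.MP_d85bbb_an

namespace Pool.Agent.S06344

open H33.EP
theorem result :
    ¬ (∀ (X : Type) [NormedAddCommGroup X] [NormedSpace ℝ X] [CompleteSpace X],
      Function.Surjective (NormedSpace.inclusionInDoubleDual ℝ X) →
      (∀ x : X, x ≠ 0 → ∃ f : X →L[ℝ] ℝ,
          ∀ v : X, HasLineDerivAt ℝ (fun y : X => ‖y‖) (f v) x v) →
      ∀ E : Subspace ℝ X, IsClosed (E : Set X) →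
        (∀ ε : ℝ, 0 < ε →
          ∀ (K : Type) [TopologicalSpace K] [CompactSpace K] [T2Space K]
            (T : ↥E →L[ℝ] C(K, ℝ)),
            ∃ S : X →L[ℝ] C(K, ℝ), (∀ e : ↥E, S (e : X) = T e) ∧ ‖S‖ ≤ (1 + ε) * ‖T‖) →
        ∀ (K : Type) [TopologicalSpace K] [CompactSpace K] [T2Space K]
          (T : ↥E →L[ℝ] C(K, ℝ)),
          ∃ S : X →L[ℝ] C(K, ℝ), (∀ e : ↥E, S (e : X) = T e) ∧ ‖S‖ ≤ ‖T‖) := by
  intro h
  obtain ⟨Z, _, _, U, hU⟩ := exists_Y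
  obtain ⟨X, _, _, _, ⟨Φ⟩⟩ := exists_X Z
  obtain ⟨T, hT⟩ := noext U Φ hU
  exact hT (h X (reflX U Φ) (smoothX U Φ hU) (EE U Φ) (io U Φ).isClosed_ker (approx U Φ hU) _ T)

end Pool.Agent.S06344
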