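import Pool.Statements.S06346

set_option autoImplicit false
open Pool Pool.MP_d890fe_an

namespace Pool.Agent.S06346

def SS : Subsemigroup (Function.End ℝ) where
  carrier := {s | Function.Injective s ∨ ∀ x y, s x = s y}
  mul_mem' := by
    rintro a b (ha | ha) (hb | hb)
    · exact Or.inl (ha.comp hb)
    · exact Or.inr fun x y => congrArg a (hb x y)
    · exact Or.inr fun x y => ha _ _
    · exact Or.inr fun x y => ha _ _

def cc (d : ℝ) : SS := ⟨fun _ => d, Or.inr fun _ _ => rfl⟩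

lemma bdd (g : SS → ℝ) (h : ∀ t, |g t| ≤ 1) : Memℓp g ⊤ :=
  memℓp_infty ⟨1, by rintro _ ⟨t, rfl⟩; exact h t⟩

open Classical in
noncomputable def hh (x : ℝ) : lp (fun _ : SS => ℝ) ⊤ :=
  ⟨fun t => if t.1 0 = x then 1 else 0, bdd _ fun t => by split_ifs <;> simp⟩

open Classical in
lemma hh_apply (x : ℝ) (t : SS) : hh x t = if t.1 0 = x then 1 else 0 := rfl

lemma hh_pos {x : ℝ} {t : SS} (h : t.1 0 = x) : hh x t = 1 := if_pos h

lemma hh_neg {x : ℝ} {t : SS} (h : t.1 0 ≠ x) : hh x t = 0 := if_neg h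

open Filter Topology in
lemma hh_lim : Tendsto (fun x => toWeakSpace ℝ _ (hh x)) cofinite (𝓝 (toWeakSpace ℝ _ 0)) := by
  refine (WeakBilin.tendsto_iff_forall_eval_tendsto (topDualPairing ℝ _).flip ?_).2 fun φ => ?_
  · intro a b hab
    exact SeparatingDual.eq_iff_forall_dual_eq (R := ℝ) |>.2 fun φ => LinearMap.congr_fun hab φ
  · show Tendsto (fun x => φ (hh x)) cofinite (𝓝 (φ 0))
    rw [map_zero]
    refine Summable.tendsto_cofinite_zero (Summable.of_abs (summable_of_sum_le (c := ‖φ‖)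
      (fun _ => abs_nonneg _) fun F => ?_))
    have h1 : ∑ x ∈ F, |φ (hh x)| = φ (∑ x ∈ F, (SignType.sign (φ (hh x)) : ℝ) • hh x) := by
      rw [map_sum]
      refine Finset.sum_congr rfl fun x _ => ?_
      rw [map_smul, smul_eq_mul, sign_mul_self]
    rw [h1]
    refine (le_abs_self _).trans ((φ.le_of_opNorm_le_of_le le_rfl (b := 1)
      (lp.norm_le_of_forall_le zero_le_one fun t => ?_)).trans (by rw [mul_one]))
    classical
    rw [lp.coeFn_sum, Finset.sum_apply]
    simp only [lp.coeFn_smul, Pi.smul_apply, hh_apply, smul_eq_mul, mul_ite, mul_one, mul_zero,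
      Finset.sum_ite_eq]
    split_ifs
    · rcases (SignType.sign (φ (hh (t.1 0)))).trichotomy with h | h | h <;> simp [h]
    · simp

theorem result :
    ¬ (∀ (S : Type) [Semigroup S] [Nonempty S],
    (∀ (E : Type) [NormedAddCommGroup E] [NormedSpace ℝ E] [CompleteSpace E]
       (C : Set (WeakDual ℝ E)) (T : S → WeakDual ℝ E → WeakDual ℝ E),
       C.Nonempty → Convex ℝ C → IsCompact C →
       (∃ D : Set (WeakDual ℝ E), D.Countable ∧ D ⊆ C ∧
          ∀ x ∈ C, ∀ ε : ℝ, 0 < ε → ∃ d ∈ D, ∀ e : E, |x e - d e| ≤ ε * ‖e‖) →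
       (∀ s : S, Set.MapsTo (T s) C C) →
       (∀ s t : S, ∀ x ∈ C, T (s * t) x = T s (T t x)) →
       (∀ s : S, ∀ x ∈ C, ∀ y ∈ C, ∀ r : ℝ,
          (∀ e : E, |x e - y e| ≤ r * ‖e‖) →
          ∀ e : E, |T s x e - T s y e| ≤ r * ‖e‖) →
       (∀ s : S, ContinuousOn (T s) C) →
       ∃ x ∈ C, ∀ s : S, T s x = x) →
    ∃ m : lp (fun _ : S => ℝ) ⊤ →L[ℝ] ℝ,
      m 1 = 1 ∧
      (∀ g : lp (fun _ : S => ℝ) ⊤, (∀ t : S, 0 ≤ g t) → 0 ≤ m g) ∧
      ∀ f : lp (fun _ : S => ℝ) ⊤,
        (∃ K : Set (WeakSpace ℝ (lp (fun _ : S => ℝ) ⊤)), IsCompact K ∧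
          ∀ g : lp (fun _ : S => ℝ) ⊤, (∃ s : S, ∀ t : S, g t = f (s * t)) →
            toWeakSpace ℝ (lp (fun _ : S => ℝ) ⊤) g ∈ K) →
        ∀ s : S, ∀ g : lp (fun _ : S => ℝ) ⊤, (∀ t : S, g t = f (s * t)) → m g = m f) := by
  intro H
  obtain ⟨m, m1, -, m2⟩ := @H SS _ ⟨cc 0⟩ (by
    intro E _ _ _ C T ⟨x0, h0⟩ _ _ ⟨D, D1, _, D3⟩ h1 h2 h3 _
    have a1 : ∀ (s : SS) d, T s (T (cc d) x0) = T (cc (s.1 d)) x0 := fun s d => by
      rw [← h2 _ _ _ h0]; rfl
    have a2 : ∀ e e' : ℝ, T (cc e) x0 = T (cc e') x0 := by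
      intro e e'
      by_cases he : e = e'
      · rw [he]
      have a3 : ∀ ε : ℝ, 0 < ε → ∀ v : E, |T (cc e) x0 v - T (cc e') x0 v| ≤ (2 * ε) * ‖v‖ := by
        intro ε hε
        choose p p1 p2 using fun d : ℝ => D3 _ (h1 (cc d) h0) ε hε
        obtain ⟨d, d', hd, hne⟩ : ∃ d d', p d = p d' ∧ d ≠ d' := by
          by_contra hc
          have := D1.to_subtype
          refine not_countable (α := ℝ) (Function.Injective.countable
            (f := fun d => (⟨p d, p1 d⟩ : D)) fun d d' h => ?_)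
          by_contra hn
          exact hc ⟨d, d', congrArg Subtype.val h, hn⟩
        have b1 : d' - d ≠ 0 := sub_ne_zero.2 hne.symm
        have b2 : e' - e ≠ 0 := sub_ne_zero.2 (Ne.symm he)
        let s : SS := ⟨fun x => e + (x - d) * ((e' - e) / (d' - d)), Or.inl fun x y h =>
          sub_left_injective (mul_right_cancel₀ (div_ne_zero b2 b1) (add_left_cancel h))⟩
        have s1 : s.1 d = e := by
          show e + (d - d) * _ = e
          ring
        have s2 : s.1 d' = e' := by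
          show e + (d' - d) * ((e' - e) / (d' - d)) = e'
          field_simp; ring
        have := h3 s _ (h1 (cc d) h0) _ (h1 (cc d') h0) (2 * ε) fun v => by
          have c1 := p2 d v
          have c2 := p2 d' v
          rw [hd] at c1
          rw [abs_le] at *
          constructor <;> linarith [c1.1, c1.2, c2.1, c2.2]
        rwa [a1, a1, s1, s2] at this
      refine DFunLike.ext _ _ fun v => sub_eq_zero.1 (abs_nonpos_iff.1 ?_)
      refine le_of_forall_pos_le_add fun ε hε => ?_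
      have := a3 (ε / (2 * (‖v‖ + 1))) (by positivity) v
      refine this.trans ?_
      rw [zero_add, ← mul_div_assoc, mul_div_mul_left _ _ two_ne_zero, div_mul_eq_mul_div,
        div_le_iff₀ (by positivity)]
      nlinarith
    exact ⟨_, h1 (cc 0) h0, fun s => by rw [a1]; exact a2 _ _⟩)
  have key := m2 (hh 0) ⟨insert (toWeakSpace ℝ _ 1) (insert (toWeakSpace ℝ _ 0)
      (Set.range fun x => toWeakSpace ℝ _ (hh x))),
    hh_lim.isCompact_insert_range_of_cofinite.insert _, by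
      rintro g ⟨s, hs⟩
      by_cases h0 : ∃ x, s.1 x = 0
      · obtain ⟨x, hx⟩ := h0
        rcases s.2 with h | h
        · refine Or.inr (Or.inr ⟨x, congrArg _ (lp.ext (funext fun t => ?_))⟩)
          rw [hs, hh_apply, hh_apply]
          exact if_congr ⟨fun e => (congrArg s.1 e).trans hx, fun e => h (Eq.trans e hx.symm)⟩ rfl rfl
        · refine Or.inl (congrArg _ (lp.ext (funext fun t => ?_)))
          exact (hs t).trans (hh_pos ((h _ x).trans hx))
      · refine Or.inr (Or.inl (congrArg _ (lp.ext (funext fun t => ?_))))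
        exact (hs t).trans (hh_neg fun e => h0 ⟨_, e⟩)⟩
  have k1 := key (cc 0) 1 fun t => (hh_pos (t := cc 0 * t) rfl).symm
  have k2 := key (cc 1) 0 fun t => (hh_neg (t := cc 1 * t) one_ne_zero).symm
  rw [← k1, m1, map_zero] at k2
  exact zero_ne_one k2

end Pool.Agent.S06346
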