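import Pool.Statements.S06418
import Pool.Agent.H26.Subsum

set_option autoImplicit false
open Pool Pool.MP_def338_an

namespace Pool.Agent.S06418

open Pool.Agent.H26.Subsum Set Filter Topology

noncomputable def a (n : ℕ) : ℝ := if n % 2 = 0 then 29 / 99 else 13 / 35

noncomputable def t (n : ℕ) : ℝ := (∏ i ∈ Finset.range n, (1 - a i) / 2) * (1 - (1 - a n) / 2)

lemma t_shift (n : ℕ) : t (n + 1 + 1) = 1 / 9 * t n := by
  unfold t
  rw [Finset.prod_range_succ, Finset.prod_range_succ]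
  unfold a
  rcases Nat.mod_two_eq_zero_or_one n with h | h
  · rw [show (n + 1 + 1) % 2 = 0 by omega, show (n + 1) % 2 = 1 by omega, h]; norm_num; ring
  · rw [show (n + 1 + 1) % 2 = 1 by omega, show (n + 1) % 2 = 0 by omega, h]; norm_num; ring

lemma t0 : t 0 = 64 / 99 := by norm_num [t, a]

lemma t1 : t (0 + 1) = 24 / 99 := by norm_num [t, a]

lemma t_bd (n : ℕ) : (0 < t n ∧ t n ≤ (1 / 3) ^ n) ∧ (0 < t (n + 1) ∧ t (n + 1) ≤ (1 / 3) ^ (n + 1)) := by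
  induction n with
  | zero => rw [t0, t1]; norm_num
  | succ n ih =>
    refine ⟨ih.2, ?_⟩
    rw [t_shift, pow_succ, pow_succ]
    constructor <;> linarith [ih.1.1, ih.1.2]

lemma t_sum : Summable t :=
  Summable.of_nonneg_of_le (fun n => (t_bd n).1.1.le) (fun n => (t_bd n).1.2)
    (summable_geometric_of_lt_one (by norm_num) (by norm_num))

lemma t_tot : ∑' n, t n = 1 := by
  have h := t_sum.sum_add_tsum_nat_add 2
  have e : ∑' n, t (n + 2) = 1 / 9 * ∑' n, t n := by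
    rw [← tsum_mul_left]; exact tsum_congr fun n => t_shift n
  have e2 : ∑ i ∈ Finset.range 2, t i = 8 / 9 := by
    rw [Finset.sum_range_succ, Finset.sum_range_succ, Finset.sum_range_zero, t0, t1]; norm_num
  rw [e, e2] at h
  linarith

lemma C_bd (s : ℝ) (hs : s ∈ Es t) : 0 ≤ s ∧ s ≤ 1 :=
  t_tot ▸ Es_bound t t_sum (fun n => (t_bd n).1.1.le) s hs

def F : Set ℝ := {f | f = 0 ∨ f = 24 / 99 ∨ f = 64 / 99 ∨ f = 88 / 99}

lemma C_iff (s : ℝ) : s ∈ Es t ↔ ∃ f ∈ F, ∃ s' ∈ Es t, s = f + 1 / 9 * s' := by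
  have s1 := (summable_nat_add_iff 1).mpr t_sum
  simp only [Es_step t t_sum s, Es_step _ s1, t_shift, Es_scale, t0, t1]
  constructor
  · rintro ⟨_, ⟨_, ⟨t, ht, rfl⟩, rfl | rfl⟩, rfl | rfl⟩
    · exact ⟨0, by simp [F], t, ht, by ring⟩
    · exact ⟨64 / 99, by simp [F], t, ht, by ring⟩
    · exact ⟨24 / 99, by simp [F], t, ht, by ring⟩
    · exact ⟨88 / 99, by simp [F], t, ht, by ring⟩
  · rintro ⟨f, rfl | rfl | rfl | rfl, t, ht, rfl⟩
    · exact ⟨_, ⟨_, ⟨t, ht, rfl⟩, Or.inl rfl⟩, Or.inl (by ring)⟩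
    · exact ⟨_, ⟨_, ⟨t, ht, rfl⟩, Or.inr rfl⟩, Or.inl (by ring)⟩
    · exact ⟨_, ⟨_, ⟨t, ht, rfl⟩, Or.inl rfl⟩, Or.inr (by ring)⟩
    · exact ⟨_, ⟨_, ⟨t, ht, rfl⟩, Or.inr rfl⟩, Or.inr (by ring)⟩

def D : Set ℝ := {z : ℝ | ∃ u ∈ Es t, ∃ v ∈ Es t, z = u - v}

lemma D_closed : IsClosed D := by
  have hc : IsCompact (Es t) :=
    (isCompact_Icc (a := 0) (b := 1)).of_isClosed_subset (Es_closed t t_sum) fun s hs => C_bd s hs
  have e : D = (fun p : ℝ × ℝ => p.1 - p.2) '' (Es t ×ˢ Es t) := by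
    ext z
    constructor
    · rintro ⟨u, hu, v, hv, rfl⟩; exact ⟨(u, v), ⟨hu, hv⟩, rfl⟩
    · rintro ⟨p, hp, rfl⟩; exact ⟨p.1, hp.1, p.2, hp.2, rfl⟩
  rw [e]
  exact ((hc.prod hc).image (by fun_prop)).isClosed

lemma gap (k : ℕ) : 4 / 33 * (1 / 9 : ℝ) ^ k ∉ D := by
  induction k with
  | zero =>
    rintro ⟨u, hu, v, hv, e⟩
    obtain ⟨f, hf, u', hu', rfl⟩ := (C_iff u).mp hu
    obtain ⟨g, hg, v', hv', rfl⟩ := (C_iff v).mp hv
    have h1 := C_bd u' hu'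
    have h2 := C_bd v' hv'
    rw [pow_zero] at e
    rcases hf with rfl | rfl | rfl | rfl <;> rcases hg with rfl | rfl | rfl | rfl <;>
      linarith [h1.1, h1.2, h2.1, h2.2]
  | succ k ih =>
    rintro ⟨u, hu, v, hv, e⟩
    obtain ⟨f, hf, u', hu', rfl⟩ := (C_iff u).mp hu
    obtain ⟨g, hg, v', hv', rfl⟩ := (C_iff v).mp hv
    have h1 := C_bd u' hu'
    have h2 := C_bd v' hv'
    have q0 : 0 < (1 / 9 : ℝ) ^ k := by positivity
    have q1 : (1 / 9 : ℝ) ^ k ≤ 1 := pow_le_one₀ (by norm_num) (by norm_num)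
    rw [pow_succ] at e
    have hfg : f = g := by
      rcases hf with rfl | rfl | rfl | rfl <;> rcases hg with rfl | rfl | rfl | rfl <;>
        linarith [h1.1, h1.2, h2.1, h2.2]
    exact ih ⟨u', hu', v', hv', by rw [hfg] at e; linarith⟩

lemma res (m : ℤ) : ∃ m' : ℤ, ∃ f ∈ F, ∃ g ∈ F, 8 / 99 * (m : ℝ) = 8 / 11 * m' + f - g := by
  obtain ⟨q, r, h0, h1, rfl⟩ : ∃ q r : ℤ, 0 ≤ r ∧ r < 9 ∧ m = 9 * q + r :=
    ⟨m / 9, m % 9, by omega, by omega, by omega⟩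
  interval_cases r
  · exact ⟨q, 0, by simp [F], 0, by simp [F], by push_cast; ring⟩
  · exact ⟨q + 1, 0, by simp [F], 64 / 99, by simp [F], by push_cast; ring⟩
  · exact ⟨q - 1, 88 / 99, by simp [F], 0, by simp [F], by push_cast; ring⟩
  · exact ⟨q, 24 / 99, by simp [F], 0, by simp [F], by push_cast; ring⟩
  · exact ⟨q + 1, 24 / 99, by simp [F], 64 / 99, by simp [F], by push_cast; ring⟩
  · exact ⟨q, 64 / 99, by simp [F], 24 / 99, by simp [F], by push_cast; ring⟩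
  · exact ⟨q + 1, 0, by simp [F], 24 / 99, by simp [F], by push_cast; ring⟩
  · exact ⟨q + 2, 0, by simp [F], 88 / 99, by simp [F], by push_cast; ring⟩
  · exact ⟨q, 64 / 99, by simp [F], 0, by simp [F], by push_cast; ring⟩

lemma grid (k : ℕ) (n : ℤ) : ∃ m : ℤ, n * (8 / 11 * (1 / 9 : ℝ) ^ k) - 8 / 11 * m ∈ D := by
  induction k with
  | zero => exact ⟨n, 0, Es_zero t, 0, Es_zero t, by ring⟩
  | succ k ih =>
    obtain ⟨m, u, hu, v, hv, e⟩ := ih
    obtain ⟨m', f, hf, g, hg, e'⟩ := res m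
    refine ⟨m', _, (C_iff _).mpr ⟨f, hf, u, hu, rfl⟩, _, (C_iff _).mpr ⟨g, hg, v, hv, rfl⟩, ?_⟩
    rw [pow_succ]
    linarith

lemma cover (s : ℝ) : ∃ m : ℤ, s - 8 / 11 * m ∈ D := by
  obtain ⟨M, hM⟩ := exists_nat_ge (2 * (|s| + 2))
  have hcl : IsClosed (⋃ m ∈ Icc (-(M : ℤ)) M, {z : ℝ | z - 8 / 11 * m ∈ D}) :=
    (finite_Icc _ _).isClosed_biUnion fun m _ => D_closed.preimage (by fun_prop)
  have h : s ∈ ⋃ m ∈ Icc (-(M : ℤ)) M, {z : ℝ | z - 8 / 11 * m ∈ D} := by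
    rw [← hcl.closure_eq, Metric.mem_closure_iff]
    intro ε hε
    obtain ⟨k, hk⟩ := exists_pow_lt_of_lt_one hε (show (1 / 9 : ℝ) < 1 by norm_num)
    have q0 : 0 < (1 / 9 : ℝ) ^ k := by positivity
    have q1 : (1 / 9 : ℝ) ^ k ≤ 1 := pow_le_one₀ (by norm_num) (by norm_num)
    have a1 := Int.floor_le (s / (8 / 11 * (1 / 9 : ℝ) ^ k))
    have a2 := Int.lt_floor_add_one (s / (8 / 11 * (1 / 9 : ℝ) ^ k))
    rw [le_div_iff₀ (by positivity)] at a1
    rw [div_lt_iff₀ (by positivity)] at a2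
    obtain ⟨m, hm⟩ := grid k ⌊s / (8 / 11 * (1 / 9 : ℝ) ^ k)⌋
    refine ⟨_, mem_iUnion₂.mpr ⟨m, ?_, hm⟩, by rw [Real.dist_eq, abs_lt]; constructor <;> linarith⟩
    obtain ⟨u, hu, v, hv, e⟩ := hm
    have h1 := C_bd u hu
    have h2 := C_bd v hv
    have h3 := le_abs_self s
    have h4 := neg_abs_le s
    have b1 : -(M : ℝ) ≤ m := by linarith [h1.1, h1.2, h2.1, h2.2]
    have b2 : (m : ℝ) ≤ M := by linarith [h1.1, h1.2, h2.1, h2.2]
    exact ⟨by exact_mod_cast b1, by exact_mod_cast b2⟩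
  obtain ⟨m, -, hm⟩ := mem_iUnion₂.mp h
  exact ⟨m, hm⟩

lemma int_ne : (interior D).Nonempty := by
  obtain ⟨m, z, hz⟩ := nonempty_interior_of_iUnion_of_closed
    (f := fun m : ℤ => {z : ℝ | z - 8 / 11 * m ∈ D}) (fun m => D_closed.preimage (by fun_prop))
    (eq_univ_of_forall fun s => mem_iUnion.mpr (cover s))
  refine ⟨z - 8 / 11 * m, ?_⟩
  rw [mem_interior_iff_mem_nhds, Metric.mem_nhds_iff] at hz ⊢
  obtain ⟨η, hη, hb⟩ := hz
  refine ⟨η, hη, fun w hw => ?_⟩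
  have := hb (show w + 8 / 11 * m ∈ Metric.ball z η by
    rw [Metric.mem_ball, Real.dist_eq] at hw ⊢
    rwa [show w + 8 / 11 * m - z = w - (z - 8 / 11 * m) by ring])
  simpa using this

/-- The negation of the preceding statement: For every sequence a with 0<a_n<1, if the difference set C−C of the central Cantor set C(a) (the set of sums of subseries of x_n = λ_0⋯λ_{n−1}(1−λ_n), with λ_n=(1−a_n)/2) has nonempty interior, then 0 lies in that interior. -/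
theorem result :
    ¬ (∀ a : ℕ → ℝ, (∀ n, 0 < a n ∧ a n < 1) →
      ∀ C : Set ℝ,
        C = Set.range (fun ε : ℕ → Bool =>
          ∑' n, if ε n = true then
            (∏ i ∈ Finset.range n, (1 - a i) / 2) * (1 - (1 - a n) / 2) else 0) →
        (interior {z : ℝ | ∃ u ∈ C, ∃ v ∈ C, z = u - v}).Nonempty →
        (0 : ℝ) ∈ interior {z : ℝ | ∃ u ∈ C, ∃ v ∈ C, z = u - v}) := by
  intro H
  classical
  have e : Es t = range fun ε : ℕ → Bool => ∑' i, (if ε i = true then t i else 0) := by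
    ext s
    constructor
    · rintro ⟨A, rfl⟩
      exact ⟨fun i => decide (i ∈ A), tsum_congr fun i => by simp [indicator_apply]⟩
    · rintro ⟨ε, rfl⟩
      exact ⟨{i | ε i = true}, tsum_congr fun i => by simp only [indicator_apply, mem_ofPred_eq]⟩
  have h := H a (fun n => by unfold a; split_ifs <;> norm_num) (Es t) e int_ne
  rw [mem_interior_iff_mem_nhds, Metric.mem_nhds_iff] at h
  obtain ⟨η, hη, hb⟩ := h
  obtain ⟨k, hk⟩ := exists_pow_lt_of_lt_one hη (show (1 / 9 : ℝ) < 1 by norm_num)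
  have q0 : 0 < (1 / 9 : ℝ) ^ k := by positivity
  refine gap k (hb ?_)
  rw [Metric.mem_ball, Real.dist_eq, abs_lt]
  constructor <;> linarith

end Pool.Agent.S06418
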