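import Pool.Statements.S06442

set_option autoImplicit false
open Pool Pool.MP_e07177_an

namespace Pool.Agent.S06442

open Filter Topology

abbrev L1 : Type := lp (fun _ : ℕ => ℝ) 1

lemma func (w : ℕ → ℝ) (C : ℝ) (hw : ∀ m, |w m| ≤ C) :
    ∃ φ : L1 →L[ℝ] ℝ, ∀ y : L1, HasSum (fun m => w m * y m) (φ y) := by
  have h1 : ∀ y : L1, HasSum (fun m => ‖y m‖) ‖y‖ := fun y => by
    simpa using lp.hasSum_norm (p := 1) (by simp) y
  have h2 : ∀ (y : L1) m, ‖w m * y m‖ ≤ C * ‖y m‖ := fun y m => by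
    rw [norm_mul]; exact mul_le_mul_of_nonneg_right (hw m) (norm_nonneg _)
  have h3 : ∀ y : L1, Summable fun m => w m * y m := fun y =>
    Summable.of_norm_bounded ((h1 y).summable.mul_left C) (h2 y)
  let L : L1 →ₗ[ℝ] ℝ :=
    { toFun := fun y => ∑' m, w m * y m
      map_add' := fun y z => by
        rw [← (h3 y).tsum_add (h3 z)]; simp only [lp.coeFn_add, Pi.add_apply, mul_add]
      map_smul' := fun c y => by
        simp only [lp.coeFn_smul, Pi.smul_apply, smul_eq_mul, RingHom.id_apply, mul_left_comm _ c,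
          tsum_mul_left] }
  exact ⟨L.mkContinuous C fun y => tsum_of_norm_bounded ((h1 y).mul_left C) (h2 y),
    fun y => (h3 y).hasSum⟩

noncomputable def e (m : ℕ) : L1 := lp.single 1 m (1 : ℝ)

lemma e_apply (m i : ℕ) : e m i = if i = m then 1 else 0 := by
  rw [e, lp.single_apply, Pi.single_apply]

lemma e_norm (m : ℕ) : ‖e m‖ = 1 := by rw [e, lp.norm_single (by norm_num), norm_one]

def K (n : ℕ) : ℕ := (Nat.unpair n).1
def r (n : ℕ) : ℕ := Nat.pair (K n) 0

lemma K_r (n : ℕ) : K (r n) = K n := by simp [K, r]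
lemma r_eq {m n : ℕ} : r m = r n ↔ K m = K n := by simp [r, Nat.pair_eq_pair]
lemma r_r (n : ℕ) : r (r n) = r n := r_eq.mpr (K_r n)

noncomputable def x (n : ℕ) : L1 := e (r n) + if r n = n then 0 else ((K n : ℝ) + 1)⁻¹ • e n

noncomputable def w (n m : ℕ) : ℝ :=
  if r n = n then (if m = n then 1 else if r m = n then -((K n : ℝ) + 1) else 0)
  else if m = n then (K n : ℝ) + 1 else 0

lemma core (f : ℕ → L1 →L[ℝ] ℝ) (hf : ∀ i j : ℕ, f i (x j) = if i = j then (1 : ℝ) else 0)
    (c p : ℕ → ℕ) (hc : StrictMono c) (hp : StrictMono p)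
    (h : ∀ v ∈ (Submodule.span ℝ (Set.range (fun i => x (c i)))).topologicalClosure, ∃ t : ℕ → ℝ,
      Tendsto (fun k => ∑ i ∈ Finset.range (p k), t i • x (c i)) atTop (nhds v)) :
    ∃ C : ℝ, ∀ k : ℕ, {i | K (c i) = k}.Infinite → (k : ℝ) + 1 ≤ C := by
  set F := (Submodule.span ℝ (Set.range (fun i => x (c i)))).topologicalClosure
  haveI : CompleteSpace F := (Submodule.isClosed_topologicalClosure _).completeSpace_coe
  let s : ℕ → F →L[ℝ] L1 := fun k =>
    (∑ i ∈ Finset.range (p k), (f (c i)).smulRight (x (c i))).comp F.subtypeL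
  have hs : ∀ k (v : F), s k v = ∑ i ∈ Finset.range (p k), f (c i) v • x (c i) := fun k v => by
    simp [s]
  obtain ⟨C, hC⟩ := banach_steinhaus (g := s) fun v => by
    obtain ⟨t, ht⟩ := h v v.2
    have : ∀ i, t i = f (c i) v := fun i => by
      refine tendsto_nhds_unique (tendsto_const_nhds.congr' ?_) (((f (c i)).continuous.tendsto _).comp ht)
      filter_upwards [eventually_gt_atTop i] with n hn
      simp [map_sum, hf, hc.injective.eq_iff, hn.trans_le (hp.le_apply (x := n))]
    obtain ⟨C, hC⟩ := ht.norm.bddAbove_range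
    exact ⟨C, fun k => hC ⟨k, by simp only [hs, this]⟩⟩
  refine ⟨2 * C, fun k hk => ?_⟩
  obtain ⟨i, hi⟩ := hk.nonempty
  obtain ⟨j, hj, hij⟩ := hk.exists_gt (p (i + 1))
  have hi' : i < p (i + 1) := (Nat.lt_succ_self i).trans_le hp.le_apply
  have hm : ∀ i, x (c i) ∈ F := fun i =>
    Submodule.le_topologicalClosure _ (Submodule.subset_span ⟨i, rfl⟩)
  have h1 := (s (i + 1)).le_of_opNorm_le (hC (i + 1)) ⟨_, F.sub_mem (hm i) (hm j)⟩
  have h2 : s (i + 1) ⟨_, F.sub_mem (hm i) (hm j)⟩ = x (c i) := by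
    rw [hs, Finset.sum_eq_single i]
    · simp [hf, hc.injective.eq_iff, (hi'.trans hij).ne]
    · intro l hl hli
      have := Finset.mem_range.mp hl
      simp [hf, hc.injective.eq_iff, hli, (this.trans hij).ne]
    · intro h; exact absurd (Finset.mem_range.mpr hi') h
  have h3 : 1 ≤ ‖x (c i)‖ := by
    refine le_trans (le_of_eq ?_) (lp.norm_apply_le_norm one_ne_zero (x (c i)) (r (c i)))
    rw [x, lp.coeFn_add, Pi.add_apply, e_apply]
    split_ifs with a b
    · simp
    · simp [e_apply, b]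
    all_goals exact absurd rfl a
  have h4 : ∀ n, K n = k → ‖(if r n = n then 0 else ((K n : ℝ) + 1)⁻¹ • e n : L1)‖
      ≤ ((k : ℝ) + 1)⁻¹ := fun n hn => by
    split_ifs
    · rw [norm_zero]; positivity
    · rw [norm_smul, e_norm, mul_one, hn, Real.norm_of_nonneg (by positivity)]
  have h5 : ‖x (c i) - x (c j)‖ ≤ 2 * ((k : ℝ) + 1)⁻¹ := by
    rw [x, x, r_eq.mpr (hi.trans hj.symm), add_sub_add_left_eq_sub, two_mul]
    rw [← r_eq.mpr (hi.trans hj.symm)]
    refine (norm_sub_le _ _).trans (add_le_add (h4 _ hi) ?_)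
    rw [r_eq.mpr (hi.trans hj.symm)]; exact h4 _ hj
  rw [h2] at h1
  have h6 : 1 ≤ C * (2 * ((k : ℝ) + 1)⁻¹) :=
    h3.trans (h1.trans (mul_le_mul_of_nonneg_left h5 ((ContinuousLinearMap.opNorm_nonneg _).trans (hC 0))))
  rwa [← mul_assoc, ← div_eq_mul_inv, le_div_iff₀ (by positivity), one_mul, mul_comm] at h6
theorem result :
    ¬ (∀ (𝕜 : Type) [RCLike 𝕜] (E : Type) [NormedAddCommGroup E] [NormedSpace 𝕜 E]
      [CompleteSpace E] (x : ℕ → E),
      ((∃ f : ℕ → (E →L[𝕜] 𝕜),
          (∀ i j : ℕ, f i (x j) = if i = j then (1 : 𝕜) else 0) ∧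
          (∀ v : E, (∀ n : ℕ, f n v = 0) → v = 0)) ∧
        Dense ((Submodule.span 𝕜 (Set.range x) : Submodule 𝕜 E) : Set E)) →
      ∃ a b : ℕ → ℕ, StrictMono a ∧ StrictMono b ∧
        (∀ n : ℕ, (∃ k, a k = n) ↔ ¬ ∃ k, b k = n) ∧
        ∀ c : ℕ → ℕ, (c = a ∨ c = b) →
          ∃ p : ℕ → ℕ, StrictMono p ∧
            ∀ v ∈ (Submodule.span 𝕜 (Set.range (fun i => x (c i)))).topologicalClosure,
              ∃! t : ℕ → 𝕜,
                Filter.Tendsto
                  (fun k => ∑ i ∈ Finset.range (p k), t i • x (c i))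
                  Filter.atTop (nhds v)) := by
  intro H
  choose f hf using fun n => func (w n) (K n + 1) fun m => by
    have : (0 : ℝ) ≤ K n := Nat.cast_nonneg _
    unfold w
    split_ifs <;> exact abs_le.mpr ⟨by linarith, by linarith⟩
  have fe : ∀ n m, f n (e m) = w n m := fun n m =>
    (hf n (e m)).unique (by
      simpa [e_apply] using hasSum_single (f := fun i => w n i * e m i) m fun i hi => by
        simp [e_apply, hi])
  have hb : ∀ i j : ℕ, f i (x j) = if i = j then (1 : ℝ) else 0 := fun i j => by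
    have p1 : (K j : ℝ) + 1 ≠ 0 := by positivity
    have q1 := r_r j
    have q2 := K_r j
    rw [x, map_add, fe]
    by_cases h1 : r j = j
    · rw [if_pos h1, map_zero, add_zero, h1, w, h1]
      by_cases h2 : i = j
      · simp [h2, h1]
      · simp [h2, Ne.symm h2]
    · rw [if_neg h1, map_smul, fe, w, w, q1, smul_eq_mul]
      by_cases h2 : i = j
      · simp [h2, h1, p1]
      · by_cases h3 : r j = i
        · subst h3; simp [h1, q1, q2, Ne.symm h1, p1]; field_simp; ring
        · simp [h2, Ne.symm h2, h3]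
  obtain ⟨a, b, ha, hb', hab, h⟩ := H ℝ L1 x ⟨⟨f, hb, fun v hv => by
    have h1 : ∀ n, r n ≠ n → v n = 0 := fun n hn => by
      have := (hf n v).unique (hasSum_single n fun i hi => by simp [w, hn, hi])
      rw [hv] at this
      simp only [w, hn, if_false, if_true] at this
      exact (mul_eq_zero.mp this.symm).resolve_left (by positivity)
    refine lp.ext (funext fun n => ?_)
    by_cases hn : r n = n
    · have := (hf n v).unique (hasSum_single n fun i hi => by
        by_cases h2 : r i = i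
        · simp [w, hn, hi, h2]
        · simp [h1 i h2])
      rw [hv] at this
      simpa [w, hn] using this.symm
    · simpa using h1 n hn⟩, fun v => by
    have h1 : ∀ n, r n = n → x n = e n := fun n hn => by simp [x, hn]
    have h2 : ∀ n, e n ∈ Submodule.span ℝ (Set.range x) := fun n => by
      by_cases hn : r n = n
      · exact h1 n hn ▸ Submodule.subset_span ⟨n, rfl⟩
      · have : e n = ((K n : ℝ) + 1) • (x n - x (r n)) := by
          rw [h1 _ (r_r n), x, if_neg hn, add_sub_cancel_left, smul_smul,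
            mul_inv_cancel₀ (by positivity), one_smul]
        rw [this]
        exact Submodule.smul_mem _ _ (Submodule.sub_mem _ (Submodule.subset_span ⟨_, rfl⟩)
          (Submodule.subset_span ⟨_, rfl⟩))
    refine mem_closure_of_tendsto (lp.hasSum_single (p := 1) (by simp) v)
      (Eventually.of_forall fun s => Submodule.sum_mem _ fun i _ => ?_)
    have : lp.single 1 i (v i) = v i • e i := by rw [e, ← lp.single_smul, smul_eq_mul, mul_one]
    rw [this]; exact Submodule.smul_mem _ _ (h2 i)⟩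
  obtain ⟨p, hp, h1⟩ := h a (Or.inl rfl)
  obtain ⟨q, hq, h2⟩ := h b (Or.inr rfl)
  obtain ⟨C, hC⟩ := core f hb a p ha hp fun v hv => (h1 v hv).exists
  obtain ⟨D, hD⟩ := core f hb b q hb' hq fun v hv => (h2 v hv).exists
  obtain ⟨k, hk⟩ := exists_nat_gt (max C D)
  have h3 : {i | K (a i) = k}.Finite := by
    by_contra h; linarith [hC k h, le_max_left C D]
  have h4 : {i | K (b i) = k}.Finite := by
    by_contra h; linarith [hD k h, le_max_right C D]
  refine Set.infinite_of_injective_forall_mem (f := fun j => Nat.pair k j)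
    (fun i j hij => (Nat.pair_eq_pair.mp hij).2) (fun j => ?_) ((h3.image a).union (h4.image b))
  have hK : K (Nat.pair k j) = k := by simp [K]
  by_cases h5 : ∃ i, b i = Nat.pair k j
  · obtain ⟨i, hi⟩ := h5
    exact Or.inr ⟨i, by simp [hi, hK], hi⟩
  · obtain ⟨i, hi⟩ := (hab _).mpr h5
    exact Or.inl ⟨i, by simp [hi, hK], hi⟩

end Pool.Agent.S06442
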