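import Pool.Statements.S06452
import Pool.Agent.H29.Czds

set_option autoImplicit false
open Pool Pool.MP_e12d7b_an

namespace Pool.Agent.S06452

theorem result :
    ¬ (∀ γ : ℕ → ℝ, (∀ k, 0 < γ k) →
      (∀ k, 4 * γ k * γ (k + 2) < γ (k + 1) ^ 2) →
      ∀ p q : Polynomial ℝ, (∀ k, q.coeff k = γ k * p.coeff k) →
        q.natDegree - q.roots.card ≤ p.natDegree - p.roots.card) := by
  intro h
  have h1 := h _ Pool.Agent.H29.Czds.g_pos Pool.Agent.H29.Czds.g_ratio _ _
    Pool.Agent.H29.Czds.coeff_rel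
  have h2 := Pool.Agent.H29.Czds.p_deg
  have h3 := Pool.Agent.H29.Czds.p_roots
  have h4 := Pool.Agent.H29.Czds.q_roots
  have h5 := Polynomial.le_natDegree_of_ne_zero Pool.Agent.H29.Czds.q_coeff
  omega

end Pool.Agent.S06452
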