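import Pool.Statements.S06470
import Pool.Agent.H29.Center

set_option autoImplicit false
open Pool Pool.MP_e29dfb_an

namespace Pool.Agent.S06470

theorem result :
    ¬ (∀ C : Set ℝ, IsCompact C → (0 : ℝ) ∈ C → C ⊆ Set.Ici (0 : ℝ) →
      ∃ K : Set ℝ, IsCompact K ∧
        {α : ℝ | 0 ≤ α ∧ ∀ x ∈ K, ∃ y ∈ K, |x - y| = α} = C) := by
  intro h
  obtain ⟨K, hK, hC⟩ := h Pool.Agent.H29.Center.C0 Pool.Agent.H29.Center.C0_compact
    (Or.inl ⟨le_rfl, zero_le_one⟩) (by
      rintro x (hx | hx | ⟨n, rfl⟩)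
      · exact hx.1
      · rw [hx]; norm_num
      · simp only [Set.mem_Ici]; positivity)
  exact Pool.Agent.H29.Center.not_center K hK hC

end Pool.Agent.S06470
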