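import Pool.Statements.S06483
import Pool.Agent.H1.RbA

set_option autoImplicit false
open Pool Pool.MP_e3b298_an

namespace Pool.Agent.S06483

/-- For all integers n≥1, reals β≥1, ∣x∣=1 and ∣z∣<1, the Hadamard product of P_n^β with (1+xz)(1−z)^(−β), written as its finite coefficient sum, is nonzero at z; that is, P_n^β lies in T(1,β). -/
theorem result :
    ∀ n : ℕ, 1 ≤ n → ∀ β : ℝ, 1 ≤ β → ∀ x : ℂ, ‖x‖ = 1 → ∀ z : ℂ, ‖z‖ < 1 →
      (∑ k ∈ Finset.range (n + 1),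
          (((n.descFactorial k : ℝ) / (ascPochhammer ℝ k).eval (β + (n : ℝ)) : ℝ) : ℂ) *
          ((((ascPochhammer ℝ k).eval β / (k.factorial : ℝ)) : ℝ) : ℂ) * z ^ k)
      + x * (∑ k ∈ Finset.range n,
          (((n.descFactorial (k + 1) : ℝ) / (ascPochhammer ℝ (k + 1)).eval (β + (n : ℝ)) : ℝ) : ℂ) *
          ((((ascPochhammer ℝ k).eval β / (k.factorial : ℝ)) : ℝ) : ℂ) * z ^ (k + 1)) ≠ 0 := by
  intro n hn β hβ x hx z hz
  have h := Pool.Agent.H1.RbA.main hn (show 0 < β by linarith) x hx z hz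
  have e : z * Pool.Agent.H1.RbA.H n β z = ∑ k ∈ Finset.range n,
      ((Pool.Agent.H1.RbA.c n β (k + 1) : ℝ) : ℂ) * ((Pool.Agent.H1.RbA.A β k : ℝ) : ℂ) *
        z ^ (k + 1) := by
    rw [Pool.Agent.H1.RbA.H, Finset.sum_range_succ, Pool.Agent.H1.RbA.c_top]
    simp only [Complex.ofReal_zero, zero_mul, add_zero, Finset.mul_sum]
    exact Finset.sum_congr rfl fun k _ => by ring
  rw [e] at h
  exact h

end Pool.Agent.S06483
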