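import Pool.Statements.S06493
import Pool.Agent.H8.Curse

set_option autoImplicit false
open Pool Pool.MP_e46b3e_an

namespace Pool.Agent.S06493

open MeasureTheory Set Pool.Agent.H8.Curse

/-- For every finite p>1 there are C,τ,ε₀>0 such that for infinitely many d, any real-weighted quadrature rule whose L_p-discrepancy is at most ε₀ times the initial one uses at least C(1+τ)^d points. -/
theorem result :
  ∀ p : ℝ, 1 < p →
    ∃ C : ℝ, 0 < C ∧ ∃ τ : ℝ, 0 < τ ∧ ∃ ε₀ : ℝ, 0 < ε₀ ∧
      ∀ D : ℕ, ∃ d : ℕ, D ≤ d ∧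
        ∀ ε : ℝ, 0 < ε → ε ≤ ε₀ →
        ∀ n : ℕ, ∀ x : Fin n → Fin d → ℝ, ∀ a : Fin n → ℝ,
          (∀ j, x j ∈ Set.Icc (0 : Fin d → ℝ) 1) →
          (∫ t in Set.Icc (0 : Fin d → ℝ) 1,
              |(∏ i, t i) - ∑ j, a j *
                  Set.indicator {y : Fin d → ℝ | ∀ i, x j i < y i} (fun _ => (1 : ℝ)) t| ^ p)
            ≤ ε ^ p * ∫ t in Set.Icc (0 : Fin d → ℝ) 1, |∏ i, t i| ^ p →
          C * (1 + τ) ^ d ≤ (n : ℝ) := by
  classical
  intro p hp
  have hp0 : 0 < p := by linarith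
  have hpq := Real.HolderConjugate.conjExponent hp
  set q := Real.conjExponent p
  obtain ⟨e, he⟩ : ∃ e : ℕ, q ≤ (e + 1 : ℕ) := ⟨⌈q⌉₊, (Nat.le_ceil q).trans (by push_cast; linarith)⟩
  obtain ⟨a, b, δ, θ, h0, h1, t0, t1, I1, I2, I3⟩ := setup hp e
  have hg : 1 < θ ^ (-((e + 1 : ℕ) : ℝ)⁻¹) :=
    Real.one_lt_rpow_of_pos_of_lt_one_of_neg t0 t1 (neg_neg_of_pos (by positivity))
  have hg2 : (θ ^ (-((e + 1 : ℕ) : ℝ)⁻¹)) ^ (e + 1) * θ = 1 := by
    rw [← Real.rpow_natCast, ← Real.rpow_mul t0.le, neg_mul, inv_mul_cancel₀ (by positivity),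
      Real.rpow_neg_one, inv_mul_cancel₀ t0.ne']
  set g := θ ^ (-((e + 1 : ℕ) : ℝ)⁻¹)
  set l : ℝ := 1 / (8 * 2 ^ e) with hl
  have hl0 : 0 < l := by positivity
  have hle : l * 2 ^ e = 1 / 8 := by rw [hl]; field_simp
  have hl1 : l ≤ 1 := by
    have : (1 : ℝ) ≤ 2 ^ e := one_le_pow₀ (by norm_num)
    nlinarith
  refine ⟨1 / 2, by norm_num, g - 1, by linarith, l / 4, by positivity, fun d => ⟨d, le_rfl, ?_⟩⟩
  intro ε hε0 hε n x c _ hmain
  rw [add_sub_cancel]
  by_contra hlt
  push Not at hlt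
  have hn0 : (0 : ℝ) ≤ n := Nat.cast_nonneg n
  have hθd : 0 < θ ^ d := by positivity
  have hn1 : (n : ℝ) ^ (e + 1) * θ ^ d ≤ 1 / 2 := by
    refine (mul_le_mul_of_nonneg_right (pow_le_pow_left₀ hn0 hlt.le _) hθd.le).trans ?_
    rw [mul_pow, ← pow_mul, mul_comm d, pow_mul, mul_assoc, ← mul_pow, hg2, one_pow, mul_one]
    exact pow_le_of_le_one (by norm_num) (by norm_num) (by omega)
  have hn2 : (n : ℝ) * θ ^ d ≤ 1 / 2 := by
    refine le_trans (mul_le_mul_of_nonneg_right ?_ hθd.le) hn1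
    exact_mod_cast Nat.le_self_pow (by omega) n
  have hI0 : IntegrableOn (fun t : ℝ => t ^ p) (Icc 0 1) :=
    (Real.continuous_rpow_const hp0.le).continuousOn.integrableOn_Icc
  have hV0 : ∫ t in Icc (0 : ℝ) 1, t ^ p = 1 / (p + 1) := by
    rw [integral_Icc_eq_integral_Ioc, ← intervalIntegral.integral_of_le zero_le_one,
      integral_rpow (Or.inl (by linarith)), Real.zero_rpow (by linarith), Real.one_rpow, sub_zero]
  obtain ⟨A0, A0'⟩ := cube (d := d) (fun _ t => t ^ p) fun _ => hI0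
  simp only [hV0, Finset.prod_const, Finset.card_univ, Fintype.card_fin] at A0'
  set N : ℝ := (1 / (p + 1)) ^ d with hN
  have hN0 : 0 < N := by positivity
  have hB : ∀ (f : ℕ) (j : Fin n), (∀ (L : Prop) [Decidable L],
      ∫ t in Icc (0 : ℝ) 1, t ^ p * β a b δ f L t ≤ θ / (p + 1)) →
      IntegrableOn (fun t : Fin d → ℝ => ∏ i, t i ^ p * β a b δ f (x j i < a) (t i)) (Icc 0 1) ∧
      ∫ t in Icc (0 : Fin d → ℝ) 1, ∏ i, t i ^ p * β a b δ f (x j i < a) (t i) ≤ θ ^ d * N := by
    intro f j hf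
    obtain ⟨B1, B2⟩ := cube (d := d) (fun i t => t ^ p * β a b δ f (x j i < a) t)
      fun i => β_int hp0.le a b δ f _
    refine ⟨B1, ?_⟩
    rw [B2, hN, ← mul_pow, mul_one_div]
    refine (Finset.prod_le_prod (g := fun _ => θ / (p + 1)) (fun i _ => ?_)
      fun i _ => hf _).trans (by simp [div_pow])
    exact setIntegral_nonneg measurableSet_Icc fun t ht =>
      mul_nonneg (Real.rpow_nonneg ht.1 _) (β_nonneg h0 h1 _ _ _)
  set R := Finset.univ.filter (fun r : Fin d → Fin 3 => ∀ j, r ∉ Fintype.piFinset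
          fun i => ({0, if x j i < a then 1 else 2} : Finset (Fin 3))) with hR
  have hZ : ∀ (j : Fin n) (r : Fin d → Fin 3),
      IntegrableOn (fun t : Fin d → ℝ =>
        ∏ i, t i ^ (p - 1) * (k a b δ (r i) (t i) * if x j i < t i then 1 else 0)) (Icc 0 1) ∧
      (r ∈ R → ∫ t in Icc (0 : Fin d → ℝ) 1,
        ∏ i, t i ^ (p - 1) * (k a b δ (r i) (t i) * if x j i < t i then 1 else 0) = 0) := by
    intro j r
    obtain ⟨B1, B2⟩ := cube (d := d)
      (fun i t => t ^ (p - 1) * (k a b δ (r i) t * if x j i < t then 1 else 0)) fun i => by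
        obtain ⟨C, hC⟩ := k_bdd a b δ (r i)
        refine int_mul (C := C) (by linarith) ((k_meas a b δ (r i)).mul
          (Measurable.ite measurableSet_Ioi measurable_const measurable_const)) (fun t => ?_) _ _
        change |k a b δ (r i) t * if x j i < t then 1 else 0| ≤ C
        split_ifs
        · rw [mul_one]; exact hC t
        · rw [mul_zero, abs_zero]; exact (abs_nonneg _).trans (hC t)
    refine ⟨B1, fun hr => ?_⟩
    have h2 := (Finset.mem_filter.mp hr).2 j
    rw [Fintype.mem_piFinset] at h2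
    push Not at h2
    obtain ⟨i, hi⟩ := h2
    rw [B2]
    exact Finset.prod_eq_zero (Finset.mem_univ i) (I3 _ _ hi)
  have hD : IntegrableOn (fun t : Fin d → ℝ => |(∏ i, t i) - ∑ j, c j *
      Set.indicator {y : Fin d → ℝ | ∀ i, x j i < y i} (fun _ => (1 : ℝ)) t| ^ p) (Icc 0 1) := by
    refine Measure.integrableOn_of_bounded (M := (1 + ∑ j, |c j|) ^ p) measure_Icc_lt_top.ne
      (Measurable.aestronglyMeasurable ?_) ?_
    · refine Measurable.pow_const (Measurable.abs (Measurable.sub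
        (Finset.measurable_prod _ fun i _ => measurable_pi_apply i)
        (Finset.measurable_sum _ fun j _ => Measurable.const_mul
          (Measurable.indicator measurable_const ?_) _))) _
      rw [ofPred_forall]
      exact MeasurableSet.iInter fun i => measurableSet_lt measurable_const (measurable_pi_apply i)
    · rw [ae_restrict_iff' measurableSet_Icc]
      refine Filter.Eventually.of_forall fun t ht => ?_
      rw [Real.norm_eq_abs, abs_of_nonneg (by positivity)]
      refine Real.rpow_le_rpow (abs_nonneg _) ((abs_sub _ _).trans (add_le_add ?_ ?_)) hp0.le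
      · rw [abs_of_nonneg (Finset.prod_nonneg fun i _ => ht.1 i)]
        exact Finset.prod_le_one (fun i _ => ht.1 i) fun i _ => ht.2 i
      · refine (Finset.abs_sum_le_sum_abs _ _).trans (Finset.sum_le_sum fun j _ => ?_)
        rw [abs_mul]
        apply mul_le_of_le_one_right (abs_nonneg _)
        simp only [Set.indicator]
        split_ifs <;> simp
  have i1 := hD.const_mul (l⁻¹ ^ p)
  have i2 := integrable_finsetSum Finset.univ fun j _ => (hB 1 j I1).1
  have i3' := integrable_finsetSum Finset.univ fun j _ => (hB (e + 1) j I2).1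
  have i3'' := i3'.const_mul ((n : ℝ) ^ e)
  have i3 := (A0.add i3'').const_mul (l * 2 ^ e)
  have i4' := fun j => integrable_finsetSum R fun r _ => (hZ j r).1
  have i4 := integrable_finsetSum Finset.univ fun j _ => (i4' j).const_mul (c j)
  have i12 := i1.add i2
  have i123 := i12.add i3
  have key := setIntegral_mono_on A0 (i123.add i4) measurableSet_Icc
    fun t ht => point hpq he h0 h1 x c hl0 hl1 t ht.1
  rw [integral_add' i123 i4, integral_add' i12 i3, integral_add' i1 i2, integral_const_mul,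
    integral_const_mul, integral_add' A0 i3'', integral_const_mul, A0',
    integral_finsetSum _ fun j _ => (hB 1 j I1).1,
    integral_finsetSum _ fun j _ => (hB (e + 1) j I2).1,
    integral_finsetSum _ fun j _ => (i4' j).const_mul (c j)] at key
  have z4 : ∑ j, ∫ t in Icc (0 : Fin d → ℝ) 1, c j * ∑ r ∈ R,
      ∏ i, t i ^ (p - 1) * (k a b δ (r i) (t i) * if x j i < t i then 1 else 0) = 0 := by
    apply Finset.sum_eq_zero
    intro j _
    rw [integral_const_mul, integral_finsetSum _ fun r _ => (hZ j r).1,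
      Finset.sum_eq_zero fun r hr => (hZ j r).2 hr, mul_zero]
  have z2 := Finset.sum_le_sum (s := Finset.univ) fun j _ => (hB 1 j I1).2
  have z3 := Finset.sum_le_sum (s := Finset.univ) fun j _ => (hB (e + 1) j I2).2
  simp only [Finset.sum_const, Finset.card_univ, Fintype.card_fin, nsmul_eq_mul] at z2 z3
  have z0 : ∫ t in Icc (0 : Fin d → ℝ) 1, |∏ i, t i| ^ p = N := by
    rw [← A0']
    refine setIntegral_congr_fun measurableSet_Icc fun t ht => ?_
    rw [abs_of_nonneg (Finset.prod_nonneg fun i _ => ht.1 i),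
      Real.finsetProd_rpow _ _ (fun i _ => ht.1 i)]
  rw [z0] at hmain
  have z1 : l⁻¹ ^ p * ε ^ p ≤ 1 / 4 := by
    rw [← Real.mul_rpow (by positivity) hε0.le]
    have : l⁻¹ * ε ≤ 1 / 4 := by
      rw [inv_mul_le_iff₀ hl0]
      linarith
    exact (Real.rpow_le_self_of_le_one (by positivity) (by linarith) hp.le).trans this
  rw [z4, hle] at key
  have w1 := mul_le_mul_of_nonneg_left hmain (show 0 ≤ l⁻¹ ^ p by positivity)
  have w2 := mul_le_mul_of_nonneg_right z1 hN0.le
  have w3 := mul_le_mul_of_nonneg_left z3 (show (0 : ℝ) ≤ n ^ e by positivity)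
  have w4 := mul_le_mul_of_nonneg_right hn1 hN0.le
  have w5 := mul_le_mul_of_nonneg_right hn2 hN0.le
  rw [pow_succ] at w4
  nlinarith

end Pool.Agent.S06493
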