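import Pool.Statements.S06510
import Pool.Agent.H1.MarB

set_option autoImplicit false
open Pool Pool.MP_e6ddea_an

namespace Pool.Agent.S06510

/-- The negation of the preceding statement: For every non-simply-connected plane domain D with Green function g at z₀ and every normalized minimal positive harmonic K on D, some maximal Green line of g leaving z₀ has K equal to the Harnack function at each of its points. -/
theorem result :
    ¬ (∀ (D : Set ℂ), IsOpen D → IsConnected D → ¬ SimplyConnectedSpace D →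
    ∀ z₀ ∈ D, ∀ g : ℂ → ℝ,
      (InnerProductSpace.HarmonicOnNhd g (D \ {z₀}) ∧
        (∀ z ∈ D \ {z₀}, 0 < g z) ∧
        (∃ h : ℂ → ℝ, InnerProductSpace.HarmonicOnNhd h D ∧
          ∀ z ∈ D \ {z₀}, h z = g z + Real.log ‖z - z₀‖) ∧
        (∀ u : ℂ → ℝ,
          (InnerProductSpace.HarmonicOnNhd u (D \ {z₀}) ∧
            (∀ z ∈ D \ {z₀}, 0 < u z) ∧
            (∃ h : ℂ → ℝ, InnerProductSpace.HarmonicOnNhd h D ∧
              ∀ z ∈ D \ {z₀}, h z = u z + Real.log ‖z - z₀‖)) →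
          ∀ z ∈ D \ {z₀}, g z ≤ u z)) →
    ∀ K : ℂ → ℝ,
      (InnerProductSpace.HarmonicOnNhd K D ∧ (∀ z ∈ D, 0 < K z) ∧ K z₀ = 1 ∧
        ∀ u : ℂ → ℝ, InnerProductSpace.HarmonicOnNhd u D →
          (∀ z ∈ D, 0 < u z ∧ u z ≤ K z) →
          ∃ c : ℝ, ∀ z ∈ D, u z = c * K z) →
    ∃ (m : ℝ) (γ : ℝ → ℂ),
      (∀ s : ℝ, m < s →
        γ s ∈ D ∧ γ s ≠ z₀ ∧ gradient g (γ s) ≠ 0 ∧ g (γ s) = s ∧
        HasDerivAt γ ((‖gradient g (γ s)‖ ^ 2)⁻¹ • gradient g (γ s)) s) ∧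
      Filter.Tendsto γ Filter.atTop (nhds z₀) ∧
      (¬ ∃ (m' : ℝ) (γ' : ℝ → ℂ), m' < m ∧ (∀ s : ℝ, m < s → γ' s = γ s) ∧
        ∀ s : ℝ, m' < s →
          γ' s ∈ D ∧ γ' s ≠ z₀ ∧ gradient g (γ' s) ≠ 0 ∧
          HasDerivAt γ' ((‖gradient g (γ' s)‖ ^ 2)⁻¹ • gradient g (γ' s)) s) ∧
      ∀ s : ℝ, m < s →
        ∀ u : ℂ → ℝ, InnerProductSpace.HarmonicOnNhd u D → (∀ z ∈ D, 0 < u z) →
          u z₀ ≤ 1 → u (γ s) ≤ K (γ s)) := by
  intro H
  open Pool.Agent.H1.Mar in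
  obtain ⟨m, γ, h1, h2, -, h3⟩ := H D D_open D_conn D_nsc 0 (by simp [D])
    (fun z => -Real.log ‖z‖) ⟨fun z hz => (AnalyticAt.harmonicAt_log_norm (f := fun z => z)
      (by fun_prop) hz.2).neg, fun z hz => neg_pos.2 (Real.log_neg (norm_pos_iff.2 hz.2)
        (mem_ball_zero_iff.1 hz.1.1)), ⟨fun _ => 0, by simp, fun z _ => by simp⟩,
      fun u ⟨_, hu, h, hh, he⟩ => green_min u h hu hh he⟩
    (P 1) ⟨P_harm norm_one, fun z hz => P_pos norm_one hz.1, P_zero norm_one, P_min⟩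
  obtain ⟨s, hs, hm⟩ := ((h2.eventually (Metric.ball_mem_nhds 0 (show (0 : ℝ) < 1 / 8 by
    norm_num))).and (Filter.eventually_gt_atTop m)).exists
  exact Pool.Agent.H1.Mar.no_touch (h1 s hm).2.1 (mem_ball_zero_iff.1 hs) (h3 s hm)

end Pool.Agent.S06510
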