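import Pool.Statements.S06546


set_option autoImplicit false
open Pool Pool.MP_e9d911_an

namespace Pool.Agent.S06546

open Polynomial

def cl : List ℕ := [389, 4766, 26268, 85162, 177268, 239694, 196196, 71786, 2574, 71786, 196196,
  239694, 177268, 85162, 26268, 4766, 389]

noncomputable def aa (j : ℕ) : ℂ := (cl.getD j 0 : ℕ)

lemma aa_zero (j : ℕ) (h : j ∉ Finset.range 17) : aa j = 0 := by
  have : cl.length ≤ j := by simpa [cl] using h
  simp [aa, List.getElem?_eq_none this]

noncomputable def ze : ℂ := ⟨340 / 389, 189 / 389⟩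
noncomputable def ze' : ℂ := ⟨340 / 389, -189 / 389⟩

noncomputable def pp : ℂ[X] := C 389 * ((X + C 1) ^ 14 * ((X - C ze) * (X - C ze')))

lemma pp_mahler : pp.mahlerMeasure = 389 := by
  have h1 : ‖ze‖ = 1 := by
    rw [Complex.norm_eq_sqrt_sq_add_sq]
    simp [ze]
    norm_num
  have h2 : ‖ze'‖ = 1 := by
    rw [Complex.norm_eq_sqrt_sq_add_sq]
    simp [ze']
    norm_num
  have h3 : ∀ n : ℕ, ((X + C 1 : ℂ[X]) ^ n).mahlerMeasure = 1 := by
    intro n
    induction n with
    | zero => simp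
    | succ n ih => rw [pow_succ, mahlerMeasure_mul, ih, mahlerMeasure_X_add_C]; simp
  unfold pp
  rw [mahlerMeasure_mul, mahlerMeasure_mul, mahlerMeasure_mul, h3, mahlerMeasure_X_sub_C,
    mahlerMeasure_X_sub_C, h1, h2, mahlerMeasure_const]
  simp

lemma pp_eval (z : ℂ) : ∑' j, aa j * z ^ j = pp.eval z := by
  rw [tsum_eq_sum (s := Finset.range 17) (fun j hj => by rw [aa_zero j hj, zero_mul])]
  have h1 : ze + ze' = 680 / 389 := by
    apply Complex.ext <;> simp [ze, ze'] <;> norm_num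
  have h2 : ze * ze' = 1 := by
    apply Complex.ext <;> simp [ze, ze'] <;> norm_num
  have h3 : (z - ze) * (z - ze') = z ^ 2 - 680 / 389 * z + 1 := by
    rw [← h1, ← h2]; ring
  simp only [pp, eval_mul, eval_C, eval_pow, eval_add, eval_X, eval_sub, h3]
  simp [Finset.sum_range_succ, aa, cl]
  ring

lemma aa_sum : ∑' j, ‖aa j‖ = 1605632 := by
  rw [tsum_eq_sum (s := Finset.range 17) (fun j hj => by rw [aa_zero j hj, norm_zero])]
  simp [Finset.sum_range_succ, aa, cl]
  norm_num


/-- The negation of the preceding statement: For 0<d<1, k≥0 and the n with ∑_{j≤k}C(n,j)/2^n ≤ d < ∑_{j≤k}C(n-1,j)/2^{n-1}, the infimum of J(f) over nonzero f with ∑_{j≤k}∣a_j∣ ≥ d∑∣a_j∣ equals log(ρ/((ρ+1)2^{n-1})), with ρ as defined. -/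
theorem result :
    ¬ (∀ (d : ℝ) (k n : ℕ), 0 < d → d < 1 → 0 < n →
    (∑ j ∈ Finset.range (k+1), (n.choose j : ℝ)) / 2 ^ n ≤ d →
    d < (∑ j ∈ Finset.range (k+1), ((n-1).choose j : ℝ)) / 2 ^ (n-1) →
    IsGLB {x : ℝ | ∃ a : ℕ → ℂ, Summable (fun j => ‖a j‖) ∧ a ≠ 0 ∧
        d * (∑' j, ‖a j‖) ≤ ∑ j ∈ Finset.range (k+1), ‖a j‖ ∧
        x = (1 / (2 * Real.pi)) *
              (∫ θ in (0:ℝ)..(2 * Real.pi),
                Real.log ‖∑' j, a j * Complex.exp ((θ : ℂ) * Complex.I) ^ j‖)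
            - Real.log (∑' j, ‖a j‖)}
      (Real.log
        ((((n-1).choose k : ℝ) /
            ((∑ j ∈ Finset.range (k+1), ((n-1).choose j : ℝ)) - d * 2 ^ (n-1)) - 1) /
          (((((n-1).choose k : ℝ) /
            ((∑ j ∈ Finset.range (k+1), ((n-1).choose j : ℝ)) - d * 2 ^ (n-1)) - 1) + 1)
            * 2 ^ (n-1))))) := by
  intro H
  have key := (H (13 / 4096) 1 12 (by norm_num) (by norm_num) (by norm_num)
    (by simp [Finset.sum_range_succ]; norm_num) (by simp [Finset.sum_range_succ]; norm_num)).1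
    ⟨aa, summable_of_ne_finset_zero (s := Finset.range 17)
      (fun j hj => by rw [aa_zero j hj, norm_zero]), ?_, ?_, rfl⟩
  · simp only [pp_eval, aa_sum] at key
    have h1 : (1 / (2 * Real.pi)) * (∫ θ in (0 : ℝ)..(2 * Real.pi),
        Real.log ‖pp.eval (Complex.exp ((θ : ℂ) * Complex.I))‖) = Real.log 389 := by
      rw [← pp_mahler, ← logMahlerMeasure_eq_log_MahlerMeasure, logMahlerMeasure_def,
        Real.circleAverage_def]
      simp [circleMap]
    rw [h1, ← Real.log_div (by norm_num) (by norm_num),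
      Real.log_le_log_iff (by simp [Finset.sum_range_succ]; norm_num) (by norm_num)] at key
    simp [Finset.sum_range_succ] at key
    norm_num at key
  · intro h
    have := congrFun h 0
    simp [aa, cl] at this
  · rw [aa_sum]
    simp [Finset.sum_range_succ, aa, cl]
    norm_num

end Pool.Agent.S06546
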