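import Pool.Statements.S06568
import Pool.Agent.H32.FROp

set_option autoImplicit false
open Pool Pool.MP_eb85b6_an

namespace Pool.Agent.S06568

/-- The negation of the preceding statement: For every real or complex Banach space X and bounded operator T: if the vectors whose return sets to each neighbourhood have positive upper density are dense, then some dense linear subspace consists entirely of such vectors. -/
theorem result :
    ¬ (∀ (𝕂 : Type) [RCLike 𝕂] (X : Type) [NormedAddCommGroup X] [NormedSpace 𝕂 X]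
      [CompleteSpace X] (T : X →L[𝕂] X),
      Dense {x : X | ∀ U ∈ nhds x, ∃ ε : ℝ, 0 < ε ∧ ∀ N₀ : ℕ, ∃ N : ℕ, N₀ < N ∧
          ε * (N : ℝ) ≤ (({n : ℕ | 1 ≤ n ∧ n ≤ N ∧ (⇑T)^[n] x ∈ U}.ncard : ℕ) : ℝ)} →
      ∃ M : Submodule 𝕂 X, Dense (M : Set X) ∧
        ∀ x ∈ M, ∀ U ∈ nhds x, ∃ ε : ℝ, 0 < ε ∧ ∀ N₀ : ℕ, ∃ N : ℕ, N₀ < N ∧
          ε * (N : ℝ) ≤ (({n : ℕ | 1 ≤ n ∧ n ≤ N ∧ (⇑T)^[n] x ∈ U}.ncard : ℕ) : ℝ)) := by
  intro H
  simp only [← FunLike.coe_pow_eq_iterate] at H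
  obtain ⟨M, h1, h2⟩ := H ℝ _ (Pool.Agent.H32.FR.T ℝ) ((Pool.Agent.H32.FR.dense_frec (𝕜 := ℝ)).mono fun x hx W hW => by
    obtain ⟨δ, h5, N, h6⟩ := hx W hW
    exact ⟨δ, h5, fun K => ⟨N + K + 1, by omega, h6 _ (by omega)⟩⟩)
  obtain ⟨x, h3, h4⟩ := Pool.Agent.H32.FR.exists_mem h1
  exact Pool.Agent.H32.FR.not_ufrec h4 (h2 x h3)

end Pool.Agent.S06568
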