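import Pool.Statements.S06576
import Pool.Agent.H15.QG5

set_option autoImplicit false
open scoped ENNReal
open Pool Pool.MP_ec23a5_an

namespace Pool.Agent.S06576

theorem result :
    ¬ (∀ (p : ℝ≥0∞) [Fact (1 ≤ p)], 1 < p → p ≠ 2 → p ≠ ⊤ →
      ∀ (x : ℕ → lp (fun _ : ℕ => ℝ) p) (f : ℕ → (lp (fun _ : ℕ => ℝ) p →L[ℝ] ℝ)),
        (∀ m n : ℕ, f m (x n) = if m = n then 1 else 0) →
        Dense (Submodule.span ℝ (Set.range x) : Set (lp (fun _ : ℕ => ℝ) p)) →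
        (∃ M : ℝ, ∀ n : ℕ, ‖x n‖ ≤ M ∧ ‖f n‖ ≤ M) →
        (∃ C : ℝ, ∀ (y : lp (fun _ : ℕ => ℝ) p) (A : Finset ℕ),
            (∀ n ∈ A, ∀ k ∉ A, |f k y| ≤ |f n y|) →
            ‖∑ n ∈ A, f n y • x n‖ ≤ C * ‖y‖) →
        (∃ C : ℝ, ∀ (g : lp (fun _ : ℕ => ℝ) p →L[ℝ] ℝ) (A : Finset ℕ),
            (∀ n ∈ A, ∀ k ∉ A, |g (x k)| ≤ |g (x n)|) →
            ‖∑ n ∈ A, g (x n) • f n‖ ≤ C * ‖g‖)) := by
  exact Pool.Agent.H15.QG.main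

end Pool.Agent.S06576
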