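import Pool.Statements.S06580
import Pool.Agent.H15.RS1

set_option autoImplicit false
open Filter Topology MeasureTheory
open Pool Pool.MP_ec63c8_an

namespace Pool.Agent.S06580

theorem result :
    ¬ (∀ (X : Type) [NormedAddCommGroup X] [NormedSpace ℂ X] [CompleteSpace X]
      (T : ℝ → (X →L[ℂ] X)),
      T 0 = 1 →
      (∀ s t : ℝ, 0 ≤ s → 0 ≤ t → T (s + t) = T s * T t) →
      (∀ x : X, ContinuousOn (fun t : ℝ => T t x) (Set.Ici (0 : ℝ))) →
      (∃ M : ℝ, ∀ t : ℝ, 0 ≤ t → ‖T t‖ ≤ M) →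
      ∀ x : X,
        (Tendsto (fun t : ℝ => T t x) atTop (𝓝 0) ↔
          Tendsto
            (fun a : ℝ => ENNReal.ofReal a *
              ∫⁻ s : ℝ,
                ((‖∫ t in Set.Ioi (0 : ℝ),
                    Complex.exp (-(((a : ℂ) + (s : ℂ) * Complex.I) * (t : ℂ))) • T t x‖₊ : ENNReal)) ^ 2)
            (𝓝[>] (0 : ℝ)) (𝓝 0))) := by
  intro h
  have h1 := h C(Pool.Agent.H15.RS1.KK, ℂ)
    (fun t => ContinuousLinearMap.mul ℂ _ (Pool.Agent.H15.RS1.EE t))
    (by ext1 f; simp [Pool.Agent.H15.RS1.EE_zero])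
    (by
      intro s t _ _
      ext1 f
      simp [Pool.Agent.H15.RS1.EE_add, mul_assoc])
    (by
      intro x
      have := Pool.Agent.H15.RS1.cont_EE
      apply Continuous.continuousOn
      show Continuous (fun t : ℝ => Pool.Agent.H15.RS1.EE t * x)
      fun_prop)
    ⟨1, fun t ht => le_trans (ContinuousLinearMap.opNorm_mul_apply_le ℂ _ _)
      (Pool.Agent.H15.RS1.norm_EE_le t ht)⟩
    Pool.Agent.H15.RS1.x0
  have h2 := h1.mp Pool.Agent.H15.RS1.orbit_tendsto
  have h3 : (ENNReal.ofReal (1 / 4) : ENNReal) ≤ 0 := by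
    refine ge_of_tendsto h2 ?_
    filter_upwards [Ioc_mem_nhdsGT (zero_lt_one' ℝ)] with a ha
    exact Pool.Agent.H15.RS1.final_lower a ha.1 ha.2
  simp at h3

end Pool.Agent.S06580
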