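import Pool.Statements.S06599
import Pool.Agent.H1.EqnA

set_option autoImplicit false
open Complex Filter Topology Metric
open Pool Pool.MP_ed6c6b_an

namespace Pool.Agent.S06599

/-- For every non-inner holomorphic selfmap φ of the unit disc fixing ω with ‖φ^[n] − ω‖_{H²}^{1/n} → 0, the composition operator C_φ on H² (coefficient model ℓ²) has essential spectral radius zero. -/
theorem result :
    ∀ (φ : ℂ → ℂ) (ω : ℂ),
      DifferentiableOn ℂ φ (ball (0 : ℂ) 1) →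
      Set.MapsTo φ (ball (0 : ℂ) 1) (ball (0 : ℂ) 1) →
      ω ∈ ball (0 : ℂ) 1 →
      φ ω = ω →
      (¬ ∀ᵐ θ : ℝ, Tendsto (fun r : ℝ => ‖φ ((r : ℂ) * exp ((θ : ℂ) * I))‖) (𝓝[<] (1 : ℝ)) (𝓝 1)) →
      ∀ T : lp (fun _ : ℕ => ℂ) 2 →L[ℂ] lp (fun _ : ℕ => ℂ) 2,
        (∀ a : lp (fun _ : ℕ => ℂ) 2, ∀ z ∈ ball (0 : ℂ) 1,
          ∑' n : ℕ, (T a) n * z ^ n = ∑' n : ℕ, a n * (φ z) ^ n) →
        Tendsto (fun n : ℕ =>
            ‖(T ^ n) (lp.single 2 1 (1 : ℂ) : lp (fun _ : ℕ => ℂ) 2)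
              - ω • (lp.single 2 0 (1 : ℂ) : lp (fun _ : ℕ => ℂ) 2)‖ ^ ((n : ℝ)⁻¹))
          atTop (𝓝 0) →
        Tendsto (fun n : ℕ =>
            (⨅ K : {K : lp (fun _ : ℕ => ℂ) 2 →L[ℂ] lp (fun _ : ℕ => ℂ) 2 // IsCompactOperator (⇑K)},
              ‖T ^ n - K.1‖) ^ ((n : ℝ)⁻¹))
          atTop (𝓝 0) := by
  intro φ ω h1 h2 h3 _ _ T hT h
  exact Pool.Agent.H1.Sat.eqn h1 h2 h3 T hT h

end Pool.Agent.S06599
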