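import Pool.Statements.S06629
import Pool.Agent.H29.Surj

set_option autoImplicit false
open Pool Pool.MP_efaf6a_an

namespace Pool.Agent.S06629

theorem result :
    ∀ (M : Type) [CommMonoid M] (A : Type) [Finite A] (S : Finset M) (μ : (S → A) → A),
      Function.Injective (fun (x : M → A) (m : M) => μ (fun s : S => x (m * s.1))) →
      Function.Surjective (fun (x : M → A) (m : M) => μ (fun s : S => x (m * s.1))) := by
  intro M _ A _ S μ
  have := Fintype.ofFinite A
  have h := Pool.Agent.H29.Surj.comm_surj M A S μ
  have e : Pool.Agent.H29.Surj.ca S μ =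
      (fun (x : M → A) (m : M) => μ (fun s : S => x (m * s.1))) := by
    funext x m
    simp [Pool.Agent.H29.Surj.ca, mul_comm]
  rwa [e] at h

end Pool.Agent.S06629
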