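import Pool.Statements.S06633
import Pool.Agent.H8.Polar

set_option autoImplicit false
open Filter Topology
open scoped ENNReal
open Pool Pool.MP_efb919_an

namespace Pool.Agent.S06633

open Set MeasureTheory Metric Pool.Agent.H8.Polar

/-- For every nonempty compact perfect nowhere dense K in [0,1] of positive Lebesgue measure and every s>1, the N-point Riesz s-polarization constant of K divided by N^s converges to a finite limit as N tends to infinity. -/
theorem result :
    ∀ K : Set ℝ, K ⊆ Set.Icc (0 : ℝ) 1 → K.Nonempty → IsCompact K → Perfect K →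
      IsNowhereDense K → 0 < MeasureTheory.volume K →
      ∀ s : ℝ, 1 < s →
        ∃ L : ℝ≥0∞, L ≠ ⊤ ∧
          Tendsto
            (fun N : ℕ =>
              (⨆ (x : Fin N → ℝ) (_ : ∀ i, x i ∈ K),
                  ⨅ y ∈ K, ∑ j, (ENNReal.ofReal |y - x j|) ^ (-s)) /
                ((N : ℝ≥0∞) ^ s))
            atTop (𝓝 L) := by
  intro K h1 hne hK _ _ hl s hs
  have s0 : 0 ≤ s := by linarith
  have l0 : 0 < volume.real K := ENNReal.toReal_pos hl.ne' hK.measure_lt_top.ne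
  obtain ⟨C, hC, hC'⟩ := fin_bound hs
  set σ : ℝ≥0∞ := ⨆ (N : ℕ) (_ : 0 < N) (x : Fin N → ℝ),
    (⨅ y ∈ Icc (0 : ℝ) 1, ∑ j, ENNReal.ofReal |y - x j| ^ (-s)) / (N : ℝ≥0∞) ^ s with hσ
  have σt : σ ≠ ⊤ := ne_top_of_le_ne_top hC (iSup₂_le fun N hN => iSup_le fun x =>
    ENNReal.div_le_of_le_mul (hC' N hN x))
  have p0 : ∀ c : ℝ, 0 < c → ENNReal.ofReal c ^ s ≠ 0 := fun c hc =>
    (ENNReal.rpow_pos (by simpa using hc) (by simp)).ne'
  have p1 : ∀ c : ℝ, ENNReal.ofReal c ^ s ≠ ⊤ := fun c => ENNReal.rpow_ne_top_of_nonneg s0 (by simp)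
  have n0 : ∀ N : ℕ, 0 < N → (N : ℝ≥0∞) ^ s ≠ 0 := fun N hN => by
    simpa using p0 N (by exact_mod_cast hN)
  have n1 : ∀ N : ℕ, (N : ℝ≥0∞) ^ s ≠ ⊤ := fun N => by simpa using p1 N
  refine ⟨σ / ENNReal.ofReal (volume.real K) ^ s, ENNReal.div_ne_top σt (p0 _ l0),
    tendsto_order.2 ⟨fun a ha => ?_, fun a ha => ?_⟩⟩
  · have at' : a ≠ ⊤ := ha.ne_top
    rw [ENNReal.lt_div_iff_mul_lt (Or.inl (p0 _ l0)) (Or.inl (p1 _)), hσ] at ha
    simp only [lt_iSup_iff] at ha
    obtain ⟨n, hn, x, hx⟩ := ha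
    have n0' : (0 : ℝ) < n := by exact_mod_cast hn
    rw [ENNReal.lt_div_iff_mul_lt (Or.inl (n0 n hn)) (Or.inl (n1 n))] at hx
    obtain ⟨v, v1, v2⟩ := exists_between hx
    set z : Fin n → ℝ := fun j => projIcc 0 1 zero_le_one (x j) with hz
    have hδ : ∀ᶠ δ in 𝓝 (0 : ℝ), ∀ u ∈ Icc (0 : ℝ) 1,
        v < ∑ j, ENNReal.ofReal (|u - z j| + δ) ^ (-s) := by
      refine isCompact_Icc.eventually_forall_of_forall_eventually fun u hu => ?_
      have hc : Continuous fun q : ℝ × ℝ => ∑ j, ENNReal.ofReal (|q.2 - z j| + q.1) ^ (-s) :=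
        continuous_finsetSum _ fun j _ => ENNReal.continuous_rpow_const.comp
          (ENNReal.continuous_ofReal.comp (by fun_prop))
      refine hc.continuousAt.eventually (lt_mem_nhds ((v2.trans_le (iInf₂_le u hu)).trans_le
        (Finset.sum_le_sum fun j _ => ?_)))
      have := abs_projIcc_sub_projIcc zero_le_one (c := u) (d := x j)
      rw [projIcc_of_mem _ hu] at this
      simpa using scale (c := 1) (d := |u - z j|) (d' := |u - x j|) s0 one_pos (by simpa using this)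
    obtain ⟨δ, ⟨d1, d2⟩, d3⟩ := (((hδ.and (ge_mem_nhds (show (0 : ℝ) < 1 / 2 by norm_num))).filter_mono
      nhdsWithin_le_nhds).and (self_mem_nhdsWithin (s := Ioi (0 : ℝ)))).exists
    have hε : ∀ᶠ ε in 𝓝 (0 : ℝ), a * ENNReal.ofReal ((volume.real K + 2 * ε) * n) ^ s < v := by
      have hc : Continuous fun ε : ℝ => a * ENNReal.ofReal ((volume.real K + 2 * ε) * n) ^ s :=
        (ENNReal.continuous_const_mul at').comp (ENNReal.continuous_rpow_const.comp
          (ENNReal.continuous_ofReal.comp (by fun_prop)))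
      refine hc.continuousAt.eventually (gt_mem_nhds (lt_of_eq_of_lt ?_ v1))
      beta_reduce
      rw [mul_zero, add_zero, ENNReal.ofReal_mul l0.le, ENNReal.mul_rpow_of_nonneg _ _ s0,
        ENNReal.ofReal_natCast, mul_assoc]
    obtain ⟨ε, e1, e2⟩ := ((hε.filter_mono nhdsWithin_le_nhds).and
      (self_mem_nhdsWithin (s := Ioi (0 : ℝ)))).exists
    have e0 : 0 < ε := e2
    have b0 : 0 < ((volume.real K + ε) * n)⁻¹ := by positivity
    have t1 : Tendsto (fun N : ℕ => ⌊((volume.real K + ε) * n)⁻¹ * N⌋₊) atTop atTop :=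
      tendsto_nat_floor_atTop.comp (tendsto_natCast_atTop_atTop.const_mul_atTop b0)
    have t2 : Tendsto (fun M : ℕ => (1 + ⌈(2 : ℝ) ^ s⌉₊ / δ) *
        volume.real (cthickening (1 / (M : ℝ)) K \ K)) atTop (𝓝 0) := by
      have := (((ENNReal.tendsto_toReal hK.measure_lt_top.ne).comp
        ((tendsto_measure_cthickening_of_isCompact (μ := volume) hK).comp
          tendsto_one_div_atTop_nhds_zero_nat)).sub_const (volume.real K)).const_mul
        (1 + ⌈(2 : ℝ) ^ s⌉₊ / δ)
      rw [measureReal_def, sub_self, mul_zero] at this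
      refine this.congr fun M => ?_
      rw [measureReal_sdiff (self_subset_cthickening K) hK.measurableSet
        hK.cthickening.measure_lt_top.ne]
      rfl
    have t3 := ((tendsto_nat_floor_mul_div_atTop b0.le).comp tendsto_natCast_atTop_atTop).eventually
      (lt_mem_nhds (show ((volume.real K + 2 * ε) * n)⁻¹ < _ from
        inv_strictAnti₀ (by positivity) (by gcongr; linarith)))
    filter_upwards [t1.eventually_gt_atTop 0, (t2.comp t1).eventually (ge_mem_nhds e0), t3,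
      eventually_gt_atTop 0] with N f1 f2 f3 f4
    have N0 : (0 : ℝ) < N := by exact_mod_cast f4
    have f5 := Nat.floor_le (mul_pos b0 N0).le
    simp only [Function.comp] at f2 f3
    set M := ⌊((volume.real K + ε) * n)⁻¹ * N⌋₊
    rw [le_inv_mul_iff₀ (by positivity)] at f5
    rw [lt_div_iff₀ N0, inv_mul_lt_iff₀ (by positivity)] at f3
    obtain ⟨y, y1, y2⟩ := lower (N := N) hK hne h1 s0 d3 d2 z (fun j => (projIcc _ _ _ _).2)
      (fun u hu => (d1 u hu).le) f1 (le_trans (by rw [mul_assoc, mul_comm]; gcongr) f5)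
    rw [ENNReal.lt_div_iff_mul_lt (Or.inl (n0 N f4)) (Or.inl (n1 N))]
    refine lt_of_lt_of_le ?_ (le_iSup₂_of_le y y1 (le_iInf₂ y2))
    refine lt_of_le_of_lt ?_ (ENNReal.mul_lt_mul_right (n0 M f1) (n1 M) e1)
    rw [mul_left_comm, ← ENNReal.mul_rpow_of_nonneg _ _ s0, ← ENNReal.ofReal_natCast M,
      ← ENNReal.ofReal_mul M.cast_nonneg, ← ENNReal.ofReal_natCast N, mul_comm (M : ℝ)]
    gcongr
  · obtain ⟨φ, φ1, φ2⟩ := collapse hK hne h1 l0
    filter_upwards [eventually_gt_atTop 0] with N hN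
    refine lt_of_le_of_lt (ENNReal.div_le_of_le_mul (iSup₂_le fun x _ => ?_)) ha
    rw [div_eq_mul_inv, mul_right_comm, ← div_eq_mul_inv,
      ENNReal.le_div_iff_mul_le (Or.inl (p0 _ l0)) (Or.inl (p1 _)),
      ← ENNReal.div_le_iff (n0 N hN) (n1 N)]
    refine le_trans ?_ (le_iSup₂_of_le N hN (le_iSup _ fun j => φ (x j)))
    refine ENNReal.div_le_div_right (le_iInf₂ fun u hu => ?_) _
    obtain ⟨y, y1, rfl⟩ := φ2 u hu
    refine (mul_le_mul_left (iInf₂_le y y1) _).trans ?_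
    rw [mul_comm, Finset.mul_sum]
    exact Finset.sum_le_sum fun j _ => scale s0 l0 (φ1 _ _)

end Pool.Agent.S06633
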