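import Pool.Statements.S06658
import Pool.Agent.H29.Tail4

set_option autoImplicit false
open Pool Pool.MP_f1354d_an

namespace Pool.Agent.S06658

/-- The negation of the preceding statement: For every real Banach space X and maximally monotone A from X to subsets of X*, and every open convex U meeting dom A: any (x,x*) with x in U monotonically related to all graph points over U lies in the graph (type FPV). -/
theorem result :
    ¬ (∀ (X : Type) [NormedAddCommGroup X] [NormedSpace ℝ X] [CompleteSpace X]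
      (A : X → Set (X →L[ℝ] ℝ)),
      ((∀ x y : X, ∀ xs ∈ A x, ∀ ys ∈ A y, 0 ≤ (xs - ys) (x - y)) ∧
        (∀ (x : X) (xs : X →L[ℝ] ℝ),
          (∀ y : X, ∀ ys ∈ A y, 0 ≤ (xs - ys) (x - y)) → xs ∈ A x)) →
      ∀ U : Set X, IsOpen U → Convex ℝ U → (∃ y ∈ U, (A y).Nonempty) →
        ∀ x ∈ U, ∀ xs : X →L[ℝ] ℝ,
          (∀ y ∈ U, ∀ ys ∈ A y, 0 ≤ (xs - ys) (x - y)) → xs ∈ A x) := by
  intro H
  obtain ⟨A, mo, mx, gp, ⟨x, g, h1⟩, -, ⟨x', g', h2⟩, -⟩ := H29.Tail.gap
  have := gp _ _ (H _ A ⟨fun p q g hg h hh => mo p q g h hg hh, fun p g h => mx p g h⟩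
    {p | p.2 < 1 / 2} (isOpen_lt continuous_snd continuous_const)
    (convex_halfSpace_lt (LinearMap.snd ℝ H29.Tail.E ℝ).isLinear _)
    ⟨(x, -1), by norm_num, g, h1⟩ (x', 1 / 4) (by norm_num) g' fun q hq h hh => h2 q h hq hh)
  norm_num at this

end Pool.Agent.S06658
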