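import Pool.Statements.S06682
import Pool.Agent.H1.MilA

set_option autoImplicit false
open MeasureTheory
open Pool Pool.MP_f2ff95_an

namespace Pool.Agent.S06682

/-- The negation of the preceding statement: For E a finite union of intervals in [0,1), u_E the bounded harmonic function on the disk minus E (−1 on E, 0 on the circle), admissible r,K: every subharmonic u≤0 with min on each circle ∣z∣=t∈E at most −1 has level-set length ≥ that of u_E, with equality only for rotations of u_E. -/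
theorem result :
    ¬ (∀ (E : Set ℝ), E ⊆ Set.Ico 0 1 →
    (∃ S : Finset (Set ℝ), (∀ I ∈ S, I.OrdConnected) ∧ E = ⋃₀ (S : Set (Set ℝ))) →
    ∀ (F : Set ℂ), F = closure ((fun x : ℝ => (x : ℂ)) '' E) →
    ∀ (uE : ℂ → ℝ),
      ContDiffOn ℝ 2 uE (Metric.ball (0 : ℂ) 1 \ F) →
      (∀ z ∈ Metric.ball (0 : ℂ) 1 \ F,
        iteratedFDeriv ℝ 2 uE z ![(1 : ℂ), 1]
          + iteratedFDeriv ℝ 2 uE z ![Complex.I, Complex.I] = 0) →
      (∃ M : ℝ, ∀ z ∈ Metric.ball (0 : ℂ) 1, |uE z| ≤ M) →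
      (∀ z ∈ Metric.ball (0 : ℂ) 1 ∩ F, uE z = -1) →
      (∀ ζ ∈ Metric.ball (0 : ℂ) 1 ∩ F,
        Filter.Tendsto uE (nhdsWithin ζ (Metric.ball (0 : ℂ) 1 \ F)) (nhds (-1))) →
      (∀ ζ : ℂ, ‖ζ‖ = 1 → ζ ∉ F →
        Filter.Tendsto uE (nhdsWithin ζ (Metric.ball (0 : ℂ) 1 \ F)) (nhds 0)) →
      ∀ r K : ℝ, 0 < r → r < 1 → 0 < K → K < 1 →
      0 < volume {θ : ℝ | θ ∈ Set.Ico 0 (2 * Real.pi) ∧
            uE ((r : ℂ) * Complex.exp ((θ : ℂ) * Complex.I)) < -K} →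
      volume {θ : ℝ | θ ∈ Set.Ico 0 (2 * Real.pi) ∧
            uE ((r : ℂ) * Complex.exp ((θ : ℂ) * Complex.I)) < -K}
          < ENNReal.ofReal (2 * Real.pi) →
      ∀ u : ℂ → EReal,
        UpperSemicontinuousOn u (Metric.ball (0 : ℂ) 1) →
        (∃ z ∈ Metric.ball (0 : ℂ) 1, u z ≠ ⊥) →
        (∀ z ∈ Metric.ball (0 : ℂ) 1, ∃ ε : ℝ, 0 < ε ∧ ∀ ρ : ℝ, 0 < ρ → ρ < ε →
          u z ≤ -((((ENNReal.ofReal (2 * Real.pi))⁻¹ *
            ∫⁻ θ in Set.Ioc 0 (2 * Real.pi),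
              (-u (z + (ρ : ℂ) * Complex.exp ((θ : ℂ) * Complex.I))).toENNReal) : ENNReal) : EReal)) →
        (∀ z ∈ Metric.ball (0 : ℂ) 1, u z ≤ 0) →
        (∀ t ∈ E, (⨅ z ∈ Metric.sphere (0 : ℂ) t, u z) ≤ (-1 : EReal)) →
        volume {θ : ℝ | θ ∈ Set.Ico 0 (2 * Real.pi) ∧
            uE ((r : ℂ) * Complex.exp ((θ : ℂ) * Complex.I)) < -K}
          ≤ volume {θ : ℝ | θ ∈ Set.Ico 0 (2 * Real.pi) ∧
            u ((r : ℂ) * Complex.exp ((θ : ℂ) * Complex.I)) < (((-K : ℝ)) : EReal)} ∧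
        (volume {θ : ℝ | θ ∈ Set.Ico 0 (2 * Real.pi) ∧
            u ((r : ℂ) * Complex.exp ((θ : ℂ) * Complex.I)) < (((-K : ℝ)) : EReal)}
          = volume {θ : ℝ | θ ∈ Set.Ico 0 (2 * Real.pi) ∧
            uE ((r : ℂ) * Complex.exp ((θ : ℂ) * Complex.I)) < -K} →
          ∃ α : ℝ, ∀ z ∈ Metric.ball (0 : ℂ) 1,
            u z = ((uE (Complex.exp ((α : ℂ) * Complex.I) * z) : ℝ) : EReal))) := by
  open Pool.Agent.H1.Mil Pool.Agent.H1.Per Set Metric Filter Topology Real in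
  intro H
  obtain ⟨u, hu, hc, b0, b1, h1, h2, m1, m2⟩ := main
  have e0 := η0
  have e1 := η1
  have hat : ∀ (x : ℝ) (z : ℂ), z ∈ Om → ((1 / 2 : ℝ) : ℂ) * Complex.exp (x * Complex.I) = z →
      Tendsto (fun θ : ℝ => u (((1 / 2 : ℝ) : ℂ) * Complex.exp (θ * Complex.I))) (𝓝[>] x) (𝓝 (u z)) := by
    intro x z hz e
    have : Continuous fun θ : ℝ => ((1 / 2 : ℝ) : ℂ) * Complex.exp (θ * Complex.I) := by fun_prop
    exact ((hu z hz).1.continuousAt.tendsto.comp (e ▸ this.tendsto x)).mono_left nhdsWithin_le_nhds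
  have hpos : 0 < volume {θ : ℝ | θ ∈ Set.Ico 0 (2 * Real.pi) ∧
      u (((1 / 2 : ℝ) : ℂ) * Complex.exp ((θ : ℂ) * Complex.I)) < -(3 / 5)} := by
    obtain ⟨a, ha, h⟩ := (nhdsGT_basis (0 : ℝ)).eventually_iff.1
      (((hat 0 _ m1 (by simp)).eventually (gt_mem_nhds h1)).and (Ioo_mem_nhdsGT two_pi_pos))
    refine lt_of_lt_of_le ?_ (measure_mono (s := Ioo 0 a) fun θ hθ =>
      ⟨Ioo_subset_Ico_self (h hθ).2, (h hθ).1⟩)
    simpa using ha
  have key := H EE (fun t ht => ⟨by linarith [(EE_near ht).2.1], by linarith [(EE_near ht).2.2]⟩)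
    ⟨{Icc (1 / 2 - η - η ^ 2) (1 / 2 - η + η ^ 2), Icc (1 / 2 + η - η ^ 2) (1 / 2 + η + η ^ 2)},
      by simp [ordConnected_Icc], by simp [EE]⟩ FF FF_closed.closure_eq.symm u hu.contDiffOn
    (fun z hz => by
      have h := (hu z hz).2.eq_of_nhds
      rwa [InnerProductSpace.laplacian_eq_iteratedFDeriv_complexPlane] at h)
    (by
      obtain ⟨M, hM⟩ := Om_bdd.isCompact_closure.exists_bound_of_continuousOn hc
      exact ⟨M, fun z hz => hM z (ball_cl hz)⟩)
    (fun z hz => b1 z hz.2)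
    (fun z hz => b1 z hz.2 ▸ (hc z (ball_cl hz.1)).mono subset_closure)
    (fun z hz hz' => by
      by_cases h : z ∈ closure Om
      · have := (hc z h).mono subset_closure
        rwa [ContinuousWithinAt, b0 z (by
          rw [Om_open.frontier_eq]
          exact ⟨h, fun c => by simpa [hz] using mem_ball_zero_iff.1 c.1⟩) hz] at this
      · rw [show nhdsWithin z (ball (0 : ℂ) 1 \ FF) = ⊥ from notMem_closure_iff_nhdsWithin_eq_bot.1 h]
        exact tendsto_bot)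
    (1 / 2) (3 / 5) (by norm_num) (by norm_num) (by norm_num) (by norm_num) hpos
    (by
      obtain ⟨a, ha, h⟩ := (nhdsGT_basis π).eventually_iff.1
        (((hat π _ m2 (by simp)).eventually (lt_mem_nhds h2)).and
          (Ioo_mem_nhdsGT (show π < 2 * π by linarith [pi_pos])))
      have hb : a ≤ 2 * π := by
        by_contra c
        exact lt_irrefl _ (h ⟨by linarith [pi_pos], not_le.1 c⟩).2.2
      refine lt_of_le_of_lt (measure_mono (t := Icc 0 π ∪ Icc a (2 * π)) fun θ hθ => ?_)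
        ((measure_union_le _ _).trans_lt ?_)
      · by_contra c
        simp only [mem_union, mem_Icc, not_or, not_and, not_le] at c
        exact lt_asymm hθ.2 (h ⟨c.1 hθ.1.1, not_le.1 fun d => lt_asymm hθ.1.2 (c.2 d)⟩).1
      · rw [Real.volume_Icc, Real.volume_Icc, ← ENNReal.ofReal_add (by linarith [pi_pos])
          (by linarith), ENNReal.ofReal_lt_ofReal_iff two_pi_pos]
        linarith)
    (fun z => (UU (1 / 2 - η : ℝ) (-(1 / 2 + η) : ℝ) z : EReal))
    ((continuous_coe_real_ereal.comp (UU_cont _ _)).upperSemicontinuous.upperSemicontinuousOn _)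
    ⟨0, by simp, EReal.coe_ne_bot _⟩
    (fun z hz => sub_ereal (UU_cont _ _) hz (fun w hw => by
      unfold UU
      linarith [comp_le (mem_ball_zero_iff.1 hw) (1 / 2 - η) (abs_le.2 ⟨by linarith, by linarith⟩),
        comp_le (mem_ball_zero_iff.1 hw) (-(1 / 2 + η)) (abs_le.2 ⟨by linarith, by linarith⟩)])
      (UU_sub _ _ z))
    (fun w hw => by
      have : UU (1 / 2 - η : ℝ) (-(1 / 2 + η) : ℝ) w ≤ 0 := by
        unfold UU
        linarith [comp_le (mem_ball_zero_iff.1 hw) (1 / 2 - η) (abs_le.2 ⟨by linarith, by linarith⟩),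
          comp_le (mem_ball_zero_iff.1 hw) (-(1 / 2 + η)) (abs_le.2 ⟨by linarith, by linarith⟩)]
      exact_mod_cast this)
    (fun t ht => by
      obtain ⟨z, hz, h⟩ := comp_A ht
      exact (iInf₂_le z hz).trans (EReal.coe_le_coe_iff.2 h))
  refine absurd (hpos.trans_le key.1) (not_lt.2 (le_of_eq ?_))
  convert measure_empty (μ := (volume : Measure ℝ))
  refine eq_empty_of_forall_notMem fun θ hθ => not_le.2 (EReal.coe_lt_coe_iff.1 hθ.2) (comp_big ?_)
  rw [norm_mul, Complex.norm_exp_ofReal_mul_I]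
  norm_num

end Pool.Agent.S06682
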