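import Pool.Statements.S06714
import Pool.Agent.H26.SB155c

set_option autoImplicit false
open Pool Pool.MP_f4a1d1_an

namespace Pool.Agent.S06714

/-- The negation of the preceding statement: For all real Banach spaces X, Y and every bijection U from X to Y that preserves distances on some ball around each point, U preserves all distances (is an isometry). -/
theorem result :
    ¬ (∀ (X Y : Type) [NormedAddCommGroup X] [NormedSpace ℝ X] [CompleteSpace X]
      [NormedAddCommGroup Y] [NormedSpace ℝ Y] [CompleteSpace Y] (U : X → Y),
      Function.Bijective U →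
      (∀ x₀ : X, ∃ r : ℝ, 0 < r ∧ ∀ x ∈ Metric.ball x₀ r, ∀ y ∈ Metric.ball x₀ r,
        dist (U x) (U y) = dist x y) →
      Isometry U) := by
  obtain ⟨_, _, ⟨D⟩⟩ := Pool.Agent.H26.SB155.exists_data
  have : Nonempty Pool.Agent.H26.SB155.G := ⟨Pool.Agent.H26.SB155.G.base⟩
  exact Pool.Agent.H26.SB155.counter D

end Pool.Agent.S06714
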