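import Pool.Statements.S06742
import Pool.Agent.H28.DimCount

set_option autoImplicit false
open Pool Pool.MP_f70052_an

namespace Pool.Agent.S06742

open Matrix Pool.Agent.H28.DimCount

theorem pp_blocks {ι : Type} [Fintype ι] [DecidableEq ι] (L : List ℂ) (X : Matrix ι ι ℂ) :
    pp L (fromBlocks X 0 0 X) = fromBlocks (pp L X) 0 0 (pp L X) := by
  induction L with
  | nil => simp [pp]
  | cons c L ih =>
    have e1 : pp (c :: L) (fromBlocks X 0 0 X)
        = (fromBlocks X 0 0 X - c • (1 : Matrix (ι ⊕ ι) (ι ⊕ ι) ℂ)) * pp L (fromBlocks X 0 0 X) := by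
      simp [pp]
    have e2 : pp (c :: L) X = (X - c • (1 : Matrix ι ι ℂ)) * pp L X := by simp [pp]
    have e3 : fromBlocks X 0 0 X - c • (1 : Matrix (ι ⊕ ι) (ι ⊕ ι) ℂ)
        = fromBlocks (X - c • (1 : Matrix ι ι ℂ)) 0 0 (X - c • (1 : Matrix ι ι ℂ)) := by
      ext (a | a) (b | b) <;> simp [Matrix.one_apply]
    rw [e1, e2, ih, e3, fromBlocks_multiply]
    simp

theorem tinv_blocks {ι : Type} [Fintype ι] [DecidableEq ι] (L1 L2 : List ℂ) (X : Matrix ι ι ℂ) :
    tinv L1 L2 (fromBlocks X 0 0 X) (fromBlocks X 0 0 X)ᴴ = 2 * tinv L1 L2 X Xᴴ := by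
  unfold tinv
  have e1 : fromBlocks X 0 0 X + (fromBlocks X 0 0 X)ᴴ = fromBlocks (X + Xᴴ) 0 0 (X + Xᴴ) := by
    ext (a | a) (b | b) <;> simp
  have e2 : fromBlocks X 0 0 X - (fromBlocks X 0 0 X)ᴴ = fromBlocks (X - Xᴴ) 0 0 (X - Xᴴ) := by
    ext (a | a) (b | b) <;> simp
  rw [e1, e2, pp_blocks, pp_blocks, fromBlocks_multiply, fromBlocks_multiply, fromBlocks_multiply]
  simp [Matrix.trace, Fintype.sum_sum_type]
  ring

noncomputable def toep {r : ℕ} (m : Fin r → ℕ) (p q : (Σ i : Fin r, Fin (m i)) → ℂ) :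
    Matrix (Σ i : Fin r, Fin (m i)) (Σ i : Fin r, Fin (m i)) ℂ :=
  blockDiagonal' (fun i => Matrix.of (fun j k : Fin (m i) =>
    if (j : ℕ) ≤ k then p ⟨i, ⟨k - j, lt_of_le_of_lt (Nat.sub_le _ _) k.2⟩⟩
    else q ⟨i, ⟨j - k, lt_of_le_of_lt (Nat.sub_le _ _) j.2⟩⟩))

theorem toep_eq {r : ℕ} (m : Fin r → ℕ) (f : Fin r → ℂ → ℂ) :
    blockDiagonal' (fun i => Matrix.of (fun j k : Fin (m i) => f i (((k : ℕ) : ℂ) - ((j : ℕ) : ℂ))))
      = toep m (fun s => f s.1 ((s.2 : ℕ) : ℂ)) (fun s => f s.1 (-((s.2 : ℕ) : ℂ))) := by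
  unfold toep
  congr 1
  funext i
  ext j k
  simp only [of_apply]
  split_ifs with h
  · rw [Nat.cast_sub h]
  · rw [Nat.cast_sub (le_of_not_ge h)]; congr 1; ring

theorem toep_sm {r : ℕ} (m : Fin r → ℕ) (u v : Fin 4) :
    Sm (fun x : (Fin 4 × (Σ i : Fin r, Fin (m i))) → ℂ =>
      toep m (fun s => x (u, s)) (fun s => x (v, s))) := by
  rintro ⟨i, j⟩ ⟨i', k⟩
  unfold toep
  by_cases h : i = i'
  · subst h
    simp only [blockDiagonal'_apply_eq, of_apply]
    split_ifs
    · exact contDiff_apply ℝ ℂ _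
    · exact contDiff_apply ℝ ℂ _
  · simp only [blockDiagonal'_apply_ne _ _ _ h]
    exact contDiff_const

theorem gram_inj {m : ℕ} (w : ℝ → ℝ) (hw : Continuous w) (hpos : ∀ t, 0 < w t) (v : Fin m → ℂ)
    (h : ∀ j : Fin m, ∑ k : Fin m, (∫ t in (0:ℝ)..(2 * Real.pi),
      Complex.exp ((((k : ℕ) : ℂ) - ((j : ℕ) : ℂ)) * (t : ℂ) * Complex.I) / ((w t : ℝ) : ℂ)) * v k = 0) :
    v = 0 := by
  set P : ℝ → ℂ := fun t => ∑ k : Fin m, v k * Complex.exp ((t : ℂ) * Complex.I) ^ (k : ℕ) with hP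
  have hPc : Continuous P := by fun_prop
  have hwc : Continuous (fun t => ((w t : ℝ) : ℂ)) := by fun_prop
  have hw0 : ∀ t, ((w t : ℝ) : ℂ) ≠ 0 := fun t => by exact_mod_cast (hpos t).ne'
  have hcont : ∀ j k : Fin m, Continuous (fun t : ℝ =>
      Complex.exp ((((k : ℕ) : ℂ) - ((j : ℕ) : ℂ)) * (t : ℂ) * Complex.I) / ((w t : ℝ) : ℂ)) :=
    fun j k => Continuous.div (by fun_prop) hwc hw0
  have hsum : ∑ j : Fin m, star (v j) * ∑ k : Fin m, (∫ t in (0:ℝ)..(2 * Real.pi),
      Complex.exp ((((k : ℕ) : ℂ) - ((j : ℕ) : ℂ)) * (t : ℂ) * Complex.I) / ((w t : ℝ) : ℂ)) * v k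
      = ((∫ t in (0:ℝ)..(2 * Real.pi), Complex.normSq (P t) / w t : ℝ) : ℂ) := by
    rw [← intervalIntegral.integral_ofReal]
    have e1 : ∀ t : ℝ, ((Complex.normSq (P t) / w t : ℝ) : ℂ) = ∑ j : Fin m, star (v j) *
        ∑ k : Fin m, Complex.exp ((((k : ℕ) : ℂ) - ((j : ℕ) : ℂ)) * (t : ℂ) * Complex.I)
          / ((w t : ℝ) : ℂ) * v k := by
      intro t
      push_cast
      rw [Complex.normSq_eq_conj_mul_self]
      simp only [hP, map_sum, map_mul, map_pow, Finset.sum_mul, Finset.mul_sum, Finset.sum_div]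
      rw [Finset.sum_comm]
      refine Finset.sum_congr rfl (fun j _ => Finset.sum_congr rfl (fun k _ => ?_))
      have e2 : Complex.exp ((((k : ℕ) : ℂ) - ((j : ℕ) : ℂ)) * (t : ℂ) * Complex.I)
          = (starRingEnd ℂ) (Complex.exp ((t : ℂ) * Complex.I)) ^ (j : ℕ)
            * Complex.exp ((t : ℂ) * Complex.I) ^ (k : ℕ) := by
        rw [← Complex.exp_conj, ← Complex.exp_nat_mul, ← Complex.exp_nat_mul, ← Complex.exp_add]
        congr 1
        simp
        ring
      rw [e2]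
      simp only [Complex.star_def]
      ring
    simp only [e1]
    rw [intervalIntegral.integral_finset_sum]
    · refine Finset.sum_congr rfl (fun j _ => ?_)
      rw [intervalIntegral.integral_const_mul, intervalIntegral.integral_finset_sum]
      · congr 1
        refine Finset.sum_congr rfl (fun k _ => ?_)
        rw [intervalIntegral.integral_mul_const]
      · intro k _
        exact ((hcont j k).mul continuous_const).intervalIntegrable _ _
    · intro j _
      exact (continuous_const.mul (continuous_finset_sum _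
        (fun k _ => (hcont j k).mul continuous_const))).intervalIntegrable _ _
  simp only [h, mul_zero, Finset.sum_const_zero] at hsum
  have hint : (∫ t in (0:ℝ)..(2 * Real.pi), Complex.normSq (P t) / w t) = 0 := by
    exact_mod_cast hsum.symm
  have hzero : ∀ t ∈ Set.Icc (0:ℝ) (2 * Real.pi), P t = 0 := by
    intro t ht
    by_contra hne
    have := intervalIntegral.integral_pos (f := fun t => Complex.normSq (P t) / w t)
      (a := 0) (b := 2 * Real.pi) (by positivity)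
      ((Continuous.div (Complex.continuous_normSq.comp hPc) hw (fun t => (hpos t).ne')).continuousOn)
      (fun x _ => div_nonneg (Complex.normSq_nonneg _) (hpos x).le)
      ⟨t, ht, div_pos (Complex.normSq_pos.2 hne) (hpos t)⟩
    linarith
  let q : Polynomial ℂ := ∑ k : Fin m, Polynomial.monomial (k : ℕ) (v k)
  have hq : q = 0 := by
    apply Polynomial.eq_zero_of_infinite_isRoot
    have hinf : (Set.Icc (0:ℝ) 1).Infinite := Set.Icc_infinite (by norm_num)
    have hinj : Set.InjOn (fun t : ℝ => Complex.exp ((t : ℂ) * Complex.I)) (Set.Icc (0:ℝ) 1) := by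
      intro a ha b hb hab
      apply Circle.exp_injOn_Icc (a := 0) (b := 1) (by linarith [Real.pi_gt_three]) ha hb
      ext
      simpa using hab
    refine (hinf.image hinj).mono ?_
    rintro _ ⟨t, ht, rfl⟩
    have := hzero t ⟨ht.1, by linarith [Real.pi_gt_three, ht.2]⟩
    simp only [Set.mem_setOf_eq, Polynomial.IsRoot, q, Polynomial.eval_finset_sum,
      Polynomial.eval_monomial]
    exact this
  funext k
  have := congrArg (fun p => Polynomial.coeff p (k : ℕ)) hq
  simp only [q, Polynomial.finset_sum_coeff, Polynomial.coeff_monomial, Polynomial.coeff_zero] at this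
  rw [Finset.sum_eq_single k] at this
  · simpa using this
  · intro b _ hb
    rw [if_neg (fun h => hb (Fin.ext h))]
  · simp

theorem det_block_ne {r : ℕ} (m : Fin r → ℕ) (B : ∀ i, Matrix (Fin (m i)) (Fin (m i)) ℂ)
    (hB : ∀ i v, B i *ᵥ v = 0 → v = 0) : (blockDiagonal' B).det ≠ 0 := by
  intro hdet
  obtain ⟨v, hv, h0⟩ := Matrix.exists_mulVec_eq_zero_iff.2 hdet
  apply hv
  funext ⟨i, j⟩
  have := hB i (fun k => v ⟨i, k⟩) (by
    funext j'
    have h1 := congrFun h0 ⟨i, j'⟩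
    simp only [mulVec, dotProduct, Pi.zero_apply] at h1 ⊢
    rw [Fintype.sum_sigma, Finset.sum_eq_single i] at h1
    · simpa only [blockDiagonal'_apply_eq] using h1
    · intro i' _ hi'
      simp [blockDiagonal'_apply_ne _ _ _ (Ne.symm hi')]
    · simp)
  exact congrFun this j

theorem four_ex {σ : Type} (a b c d : σ → ℂ) : ∃ x : Fin 4 × σ → ℂ, (fun s => x (0, s)) = a ∧
    (fun s => x (1, s)) = b ∧ (fun s => x (2, s)) = c ∧ (fun s => x (3, s)) = d :=
  ⟨fun z => ![a, b, c, d] z.1 z.2, rfl, rfl, rfl, rfl⟩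


/-- The negation of the preceding statement: For every complex n×n matrix A, A ⊕ Aᵀ is unitarily equivalent to a direct sum of truncated Toeplitz operators with continuous symbols on model spaces of finite Blaschke products, written in the basis z^j/∏(1−conj(a)z). -/
theorem result :
    ¬ (∀ (n : ℕ) (A : Matrix (Fin n) (Fin n) ℂ),
    ∃ (r : ℕ) (m : Fin r → ℕ) (a : (i : Fin r) → Fin (m i) → ℂ) (φ : Fin r → ℝ → ℂ)
      (S : Matrix (Fin n ⊕ Fin n) (Σ i : Fin r, Fin (m i)) ℂ),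
      ∑ i, m i = 2 * n ∧
      (∀ i j, ‖a i j‖ < 1) ∧
      (∀ i, Continuous (φ i)) ∧
      Matrix.conjTranspose S * S = Matrix.blockDiagonal' (fun i => Matrix.of (fun (j k : Fin (m i)) =>
          ∫ t in (0:ℝ)..(2 * Real.pi),
            Complex.exp ((((k : ℕ) : ℂ) - ((j : ℕ) : ℂ)) * (t : ℂ) * Complex.I) /
              ((Complex.normSq (∏ l : Fin (m i),
                  (1 - starRingEnd ℂ (a i l) * Complex.exp ((t : ℂ) * Complex.I))) : ℝ) : ℂ))) ∧
      Matrix.conjTranspose S * Matrix.fromBlocks A 0 0 (Matrix.transpose A) * S =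
        Matrix.blockDiagonal' (fun i => Matrix.of (fun (j k : Fin (m i)) =>
          ∫ t in (0:ℝ)..(2 * Real.pi),
            φ i t * Complex.exp ((((k : ℕ) : ℂ) - ((j : ℕ) : ℂ)) * (t : ℂ) * Complex.I) /
              ((Complex.normSq (∏ l : Fin (m i),
                  (1 - starRingEnd ℂ (a i l) * Complex.exp ((t : ℂ) * Complex.I))) : ℝ) : ℂ)))) := by
  intro H
  let α := {s : (Σ r : ℕ, (Fin r → ℕ)) // ∑ i, s.2 i = 2 * (40 + 40)}
  refine dim_obstruction (α := α) (κ := Fin (40 + 40) ⊕ Fin (40 + 40))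
    (fun a => Σ i : Fin a.1.1, Fin (a.1.2 i)) ?_
    (fun a => Fin 4 × (Σ i : Fin a.1.1, Fin (a.1.2 i)))
    (fun a x => toep a.1.2 (fun s => x (0, s)) (fun s => x (1, s)))
    (fun a x => toep a.1.2 (fun s => x (2, s)) (fun s => x (3, s)))
    (fun a => toep_sm _ _ _) (fun a => toep_sm _ _ _)
    (β := Fin 40 × Fin 40) (fun b => LL (Fin.castAdd 40 b.1)) (fun b => LL (Fin.natAdd 40 b.2)) ?_
    (fun b => -8 * cc (Fin.castAdd 40 b.1) * cc (Fin.natAdd 40 b.2)) ?_
    (Set.pi Set.univ (fun _ => Set.Ioi 0)) (fun _ => 1) ?_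
    (fun y => fromBlocks (AA 40 y) 0 0 (AA 40 y)) ?_ ?_
  · intro a
    rw [Fintype.card_sigma, Fintype.card_sum]
    simp only [Fintype.card_fin]
    rw [a.2]
  · intro a
    rw [Fintype.card_prod, Fintype.card_prod, Fintype.card_sigma]
    simp only [Fintype.card_fin]
    rw [a.2]
    norm_num
  · intro b
    exact mul_ne_zero (mul_ne_zero (by norm_num) (cc_ne _)) (cc_ne _)
  · exact set_pi_mem_nhds Set.finite_univ (fun _ _ => Ioi_mem_nhds one_pos)
  · intro y hy b
    rw [tinv_blocks, tinv_AA 40 y (fun b => le_of_lt (hy b trivial)) b.1 b.2]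
    rw [show (2 : ℂ) = ((2 : ℝ) : ℂ) by norm_num, ← Complex.ofReal_mul, Complex.ofReal_re]
    ring
  · intro y _
    obtain ⟨r, m, a, φ, S, hsum, ha, -, hG, hΦ⟩ := H (40 + 40) (AA 40 y)
    rw [AA_transpose] at hΦ
    let w : Fin r → ℝ → ℝ := fun i t => Complex.normSq (∏ l : Fin (m i),
      (1 - starRingEnd ℂ (a i l) * Complex.exp ((t : ℂ) * Complex.I)))
    let f : Fin r → ℂ → ℂ := fun i c => ∫ t in (0:ℝ)..(2 * Real.pi),
      Complex.exp (c * (t : ℂ) * Complex.I) / ((w i t : ℝ) : ℂ)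
    let g : Fin r → ℂ → ℂ := fun i c => ∫ t in (0:ℝ)..(2 * Real.pi),
      φ i t * Complex.exp (c * (t : ℂ) * Complex.I) / ((w i t : ℝ) : ℂ)
    have hG' := hG.trans (toep_eq m f)
    have hΦ' := hΦ.trans (toep_eq m g)
    have hdet := det_block_ne m (fun i => Matrix.of (fun j k : Fin (m i) =>
      f i (((k : ℕ) : ℂ) - ((j : ℕ) : ℂ)))) (by
        intro i v hv
        apply gram_inj (w i) (Complex.continuous_normSq.comp (by fun_prop)) _ v
        · intro j
          exact congrFun hv j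
        · intro t
          apply Complex.normSq_pos.2
          refine Finset.prod_ne_zero_iff.2 (fun l _ h0 => ?_)
          have h1 : starRingEnd ℂ (a i l) * Complex.exp ((t : ℂ) * Complex.I) = 1 := by
            linear_combination -h0
          have h2 := congrArg norm h1
          rw [norm_mul, Complex.norm_exp_ofReal_mul_I, Complex.norm_conj, mul_one, norm_one] at h2
          linarith [ha i l])
    rw [toep_eq m f] at hdet
    obtain ⟨x, x0, x1, x2, x3⟩ := four_ex (σ := Σ i : Fin r, Fin (m i))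
      (fun s => f s.1 ((s.2 : ℕ) : ℂ)) (fun s => f s.1 (-((s.2 : ℕ) : ℂ)))
      (fun s => g s.1 ((s.2 : ℕ) : ℂ)) (fun s => g s.1 (-((s.2 : ℕ) : ℂ)))
    rw [← x0, ← x1] at hdet hG'
    rw [← x2, ← x3] at hΦ'
    clear x0 x1 x2 x3 hG hΦ
    clear_value f g w
    exact ⟨⟨⟨r, m⟩, hsum⟩, x, S, hdet, hG', hΦ'⟩

end Pool.Agent.S06742
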