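import Pool.Statements.S06808
import Pool.Agent.H28.Daut2

set_option autoImplicit false
open Pool Pool.MP_fc26cf_an

namespace Pool.Agent.S06808

open MvPolynomial Pool.Agent.H28.Daut

noncomputable def PA : MvPolynomial (Fin 2) ℂ := (1 - X 0) ^ 5

noncomputable def PB : MvPolynomial (Fin 2) ℂ :=
  C (3 - Complex.I) - C (1 - Complex.I) * X 0 -
    (C (3 + Complex.I) * X 0 - C (1 + Complex.I)) * (X 0 ^ 2 - C (1 / 16) * (1 - X 0) ^ 4) * X 1

lemma evA (z : Fin 2 → ℂ) : eval z PA = (1 - z 0) ^ 5 := by simp [PA]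

lemma evB (z : Fin 2 → ℂ) : eval z PB = aa (z 0) - NN (z 0) * DD (z 0) * z 1 := by
  simp only [PB, aa, NN, DD, map_sub, map_mul, map_pow, eval_C, eval_X, map_one]

lemma prime1 : Prime (1 - X 0 : MvPolynomial (Fin 2) ℂ) := by
  let f : MvPolynomial (Fin 2) ℂ →ₐ[ℂ] MvPolynomial (Fin 2) ℂ := aeval fun i => 1 - X i
  have hf : f.comp f = AlgHom.id ℂ _ := by
    ext i : 1
    simp [f]
  let e := AlgEquiv.ofAlgHom f f hf hf
  have := (MulEquiv.prime_iff e (p := (X 0 : MvPolynomial (Fin 2) ℂ))).2 X_prime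
  simpa [e, f] using this

lemma rel : IsRelPrime PA PB := by
  refine IsRelPrime.pow_left (prime1.irreducible.isRelPrime_iff_not_dvd.2 ?_)
  rintro ⟨q, hq⟩
  have := congrArg (eval ![1, 0]) hq
  rw [evB] at this
  simp [aa] at this
  norm_num at this


/-- The negation of the preceding statement: For coprime A,B in two variables whose B-zeros in the closed bidisc lie on the torus and are zeros of A, the Taylor coefficients of A/B are absolutely summable iff A/B extends continuously from the open to the closed bidisc. -/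
theorem result :
    ¬ (∀ A B : MvPolynomial (Fin 2) ℂ,
      IsRelPrime A B →
      (∀ z : Fin 2 → ℂ, (∀ i, ‖z i‖ ≤ 1) → MvPolynomial.eval z B = 0 →
        (∀ i, ‖z i‖ = 1) ∧ MvPolynomial.eval z A = 0) →
      ∀ h : ℕ → ℕ → ℂ,
        (∀ z : Fin 2 → ℂ, (∀ i, ‖z i‖ < 1) →
          HasSum (fun p : ℕ × ℕ => h p.1 p.2 * z 0 ^ p.1 * z 1 ^ p.2)
            (MvPolynomial.eval z A / MvPolynomial.eval z B)) →
        (Summable (fun p : ℕ × ℕ => ‖h p.1 p.2‖) ↔
          ∃ F : (Fin 2 → ℂ) → ℂ,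
            ContinuousOn F {z : Fin 2 → ℂ | ∀ i, ‖z i‖ ≤ 1} ∧
            ∀ z : Fin 2 → ℂ, (∀ i, ‖z i‖ < 1) →
              F z = MvPolynomial.eval z A / MvPolynomial.eval z B)) := by
  intro H
  have hz : ∀ z : Fin 2 → ℂ, (∀ i, ‖z i‖ ≤ 1) → eval z PB = 0 → z 0 = 1 := by
    intro z hz h0
    have := B_ge (hz 0) (hz 1)
    rw [← evB, h0, norm_zero] at this
    have h4 : ‖1 - z 0‖ ^ 4 = 0 := le_antisymm (by linarith) (by positivity)
    exact (sub_eq_zero.1 (norm_eq_zero.1 (pow_eq_zero_iff (by norm_num) |>.1 h4))).symm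
  refine not_summable ((H PA PB rel (fun z h1 h0 => ?_) hh (fun z h1 => ?_)).2
    ⟨fun z => eval z PA / eval z PB, ?_, fun _ _ => rfl⟩)
  · have e := hz z h1 h0
    rw [evB, e] at h0
    have e1 : z 1 = 1 := by
      simp only [aa, NN, DD] at h0
      linear_combination (-1 / 2 : ℂ) * h0
    refine ⟨?_, by rw [evA, e]; simp⟩
    rw [Fin.forall_fin_two, e, e1]
    simp
  · rw [evA, evB]
    exact hasSum2 (h1 0) (h1 1)
  · intro z h1
    by_cases h0 : eval z PB = 0
    · have e := hz z h1 h0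
      have b : ∀ w ∈ {z : Fin 2 → ℂ | ∀ i, ‖z i‖ ≤ 1}, ‖eval w PA / eval w PB‖ ≤ 32 * ‖1 - w 0‖ := by
        intro w hw
        rw [norm_div, evA, evB, norm_pow]
        refine div_le_of_le_mul₀ (norm_nonneg _) (by positivity) ?_
        have := mul_le_mul_of_nonneg_left (B_ge (hw 0) (hw 1)) (norm_nonneg (1 - w 0))
        nlinarith
      have c : Filter.Tendsto (fun w : Fin 2 → ℂ => 32 * ‖1 - w 0‖) (nhds z) (nhds 0) := by
        have : Continuous fun w : Fin 2 → ℂ => 32 * ‖1 - w 0‖ :=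
          continuous_const.mul (continuous_const.sub (continuous_apply (0 : Fin 2))).norm
        simpa [e] using this.tendsto z
      unfold ContinuousWithinAt
      simp only [h0, div_zero]
      exact squeeze_zero_norm' (eventually_nhdsWithin_of_forall b) (c.mono_left nhdsWithin_le_nhds)
    · exact ((MvPolynomial.continuous_eval PA).continuousAt.div
        (MvPolynomial.continuous_eval PB).continuousAt h0).continuousWithinAt

end Pool.Agent.S06808
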