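import Pool.Statements.S06826
import Pool.Agent.H29.Tail4

set_option autoImplicit false
open scoped Pointwise
open Pool Pool.MP_fd6009_an

namespace Pool.Agent.S06826

/-- The negation of the preceding statement: In every real Banach space, if A and B are maximally monotone, A is of type (FPV), and dom A meets the interior of dom B, then the pointwise sum A+B is maximally monotone. -/
theorem result :
    ¬ (∀ (X : Type) [NormedAddCommGroup X] [NormedSpace ℝ X] [CompleteSpace X]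
    (A B : X → Set (X →L[ℝ] ℝ)),
    (∀ (x y : X) (a b : X →L[ℝ] ℝ), a ∈ A x → b ∈ A y → 0 ≤ (a - b) (x - y)) →
    (∀ (x : X) (a : X →L[ℝ] ℝ),
        (∀ (y : X) (b : X →L[ℝ] ℝ), b ∈ A y → 0 ≤ (a - b) (x - y)) → a ∈ A x) →
    (∀ (x y : X) (a b : X →L[ℝ] ℝ), a ∈ B x → b ∈ B y → 0 ≤ (a - b) (x - y)) →
    (∀ (x : X) (a : X →L[ℝ] ℝ),
        (∀ (y : X) (b : X →L[ℝ] ℝ), b ∈ B y → 0 ≤ (a - b) (x - y)) → a ∈ B x) →
    ({x : X | (A x).Nonempty} ∩ interior {x : X | (B x).Nonempty}).Nonempty →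
    (∀ U : Set X, IsOpen U → Convex ℝ U → (U ∩ {x : X | (A x).Nonempty}).Nonempty →
      ∀ x ∈ U, ∀ a : X →L[ℝ] ℝ,
        (∀ y ∈ U, ∀ b ∈ A y, 0 ≤ (a - b) (x - y)) → a ∈ A x) →
    ((∀ (x y : X) (a b : X →L[ℝ] ℝ), a ∈ A x + B x → b ∈ A y + B y →
        0 ≤ (a - b) (x - y)) ∧
     (∀ (x : X) (a : X →L[ℝ] ℝ),
        (∀ (y : X) (b : X →L[ℝ] ℝ), b ∈ A y + B y → 0 ≤ (a - b) (x - y)) →
          a ∈ A x + B x))) := by
  intro H
  obtain ⟨A, mo, fp, gp, ⟨y, f, h1⟩, x, g, h2⟩ := H29.Tail.cut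
  let B : H29.Tail.E × ℝ → Set (H29.Tail.E × ℝ →L[ℝ] ℝ) :=
    fun p => {b | p.2 ≤ 0 ∧ ∀ q : H29.Tail.E × ℝ, q.2 ≤ 0 → b (q - p) ≤ 0}
  have B0 : ∀ p : H29.Tail.E × ℝ, p.2 ≤ 0 → 0 ∈ B p := fun p hp => ⟨hp, fun _ _ => le_rfl⟩
  have m1 : ∀ p q a b, a ∈ B p → b ∈ B q → 0 ≤ (a - b) (p - q) := fun p q a b ha hb => by
    have h3 := ha.2 q hb.1
    have h4 := hb.2 p ha.1
    rw [← neg_sub p q, map_neg] at h3
    rw [ContinuousLinearMap.sub_apply]
    linarith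
  have m2 : ∀ p a, (∀ q b, b ∈ B q → 0 ≤ (a - b) (p - q)) → a ∈ B p := fun p a h => by
    refine ⟨not_lt.1 fun hp => ?_, fun q hq => ?_⟩
    · obtain ⟨s, hs⟩ : ∃ s, s = |a (p - (p.1, 0))| / p.2 + 1 := ⟨_, rfl⟩
      have s0 : 0 ≤ s := by rw [hs]; positivity
      have := h (p.1, 0) (s • ContinuousLinearMap.snd ℝ _ ℝ) ⟨le_rfl, fun q hq =>
        mul_nonpos_of_nonneg_of_nonpos s0 (by simpa using hq)⟩
      have h3 : 0 ≤ a (p - (p.1, 0)) - s * (p.2 - 0) := this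
      rw [hs, sub_zero, add_mul, div_mul_cancel₀ _ hp.ne'] at h3
      linarith [le_abs_self (a (p - (p.1, 0)))]
    · have := h q 0 (B0 q hq)
      rw [sub_zero, ← neg_sub q p, map_neg] at this
      linarith
  have m3 : (y, -1) ∈ interior {p | (B p).Nonempty} :=
    mem_interior.2 ⟨{p | p.2 < 0}, fun p hp => ⟨0, B0 p (le_of_lt hp)⟩,
      isOpen_lt continuous_snd continuous_const, by norm_num⟩
  obtain ⟨-, -, b, hb, -⟩ := (H _ A B mo
    (fun p a h => fp _ isOpen_univ p trivial a fun q _ => h q) m1 m2 ⟨(y, -1), ⟨f, h1⟩, m3⟩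
    fun U hU _ _ => fp U hU).2 (x, 1) g (by
      rintro q _ ⟨a, ha, b, hb, rfl⟩
      have q0 : q.2 < 0 := lt_of_le_of_ne hb.1 (gp q a ha)
      have h3 := hb.2 (q + (-q.2 / (1 - q.2)) • ((x, 1) - q)) (by
        show q.2 + -q.2 / (1 - q.2) * (1 - q.2) ≤ 0
        rw [div_mul_cancel₀ _ (by linarith)]; simp)
      rw [add_sub_cancel_left, map_smul] at h3
      have h4 := nonpos_of_mul_nonpos_right h3 (div_pos (by linarith) (by linarith))
      have h5 := mo _ q g a h2 ha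
      show 0 ≤ (g - (a + b)) _
      rw [← sub_sub, ContinuousLinearMap.sub_apply]
      linarith)
  exact absurd hb.1 (by norm_num)

end Pool.Agent.S06826
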