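import Pool.Statements.S06830


set_option autoImplicit false
open Pool Pool.MP_fda7e3_an

namespace Pool.Agent.S06830

open Polynomial Complex

noncomputable def TT : ℂ[X] := C (19201921 / 19200000) * X + C (10803 / 1280000) * X ^ 2
  + C (2401 / 19200000) * X ^ 3 + C (299 / 480000) * X ^ 4 + C (1 / 40000) * X ^ 5

noncomputable def PP (z : ℂ) : ℂ := 19201921 / 19200000 + 10803 / 640000 * z
  + 2401 / 6400000 * z ^ 2 + 299 / 120000 * z ^ 3 + 1 / 8000 * z ^ 4

lemma d1 (z : ℂ) : (derivative TT).eval z = PP z := by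
  simp [TT, PP]
  ring

lemma d2 (z : ℂ) : (derivative (derivative TT)).eval z
    = 1 / 2000 * ((z + 15) * ((z - (1 / 40 + 3 / 2 * I)) * (z - (1 / 40 - 3 / 2 * I)))) := by
  simp [TT]
  linear_combination (9 / 8000 * (z + 15)) * I_sq

lemma normsq (z : ℂ) (a b : ℝ) (ha : z.re = a) (hb : z.im = b) : ‖z‖ ^ 2 = a ^ 2 + b ^ 2 := by
  rw [Complex.sq_norm, normSq_apply, ha, hb]
  ring

lemma seg (t s : ℝ) (h0 : 0 ≤ t) (h1 : t ≤ 1) (hs : s ^ 2 = 1) :
    ‖PP ⟨t - 1, s * t⟩‖ < 1 := by
  have hs3 : s ^ 3 = s := by rw [pow_succ, hs, one_mul]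
  have hs4 : s ^ 4 = 1 := by rw [show s ^ 4 = (s ^ 2) ^ 2 by ring, hs]; norm_num
  have h := normsq (PP ⟨t - 1, s * t⟩)
    (9419797 / 9600000 + 36967 / 1600000 * t - 239 / 60000 * t ^ 3 - 1 / 2000 * t ^ 4)
    (s * (36967 / 1600000 * t - 40639 / 3200000 * t ^ 2 + 239 / 60000 * t ^ 3)) ?_ ?_
  · rw [mul_pow, hs, one_mul] at h
    apply lt_of_pow_lt_pow_left₀ 2 zero_le_one
    rw [h]
    obtain ⟨u, hu⟩ : ∃ u, u = 1 - t := ⟨_, rfl⟩
    have hu0 : 0 ≤ u := by linarith
    have key : 1 ^ 2 - ((9419797 / 9600000 + 36967 / 1600000 * t - 239 / 60000 * t ^ 3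
        - 1 / 2000 * t ^ 4) ^ 2
        + (36967 / 1600000 * t - 40639 / 3200000 * t ^ 2 + 239 / 60000 * t ^ 3) ^ 2)
        = 3427424478791 / 92160000000000 * u ^ 8 + 1162036810097 / 4608000000000 * (t * u ^ 7)
        + 1040919933641 / 1440000000000 * (t ^ 2 * u ^ 6)
        + 13046009254141 / 11520000000000 * (t ^ 3 * u ^ 5)
        + 96138853719121 / 92160000000000 * (t ^ 4 * u ^ 4)
        + 80896323221 / 144000000000 * (t ^ 5 * u ^ 3)
        + 7485036272453 / 46080000000000 * (t ^ 6 * u ^ 2)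
        + 445344761807 / 23040000000000 * (t ^ 7 * u)
        + 4293303947 / 46080000000000 * t ^ 8 := by
      rw [hu]; ring
    have hpos : 0 < u ^ 8 + t ^ 8 := by
      rcases eq_or_lt_of_le h0 with h | h
      · have : u = 1 := by linarith
        rw [this]; positivity
      · positivity
    have := mul_nonneg h0 (pow_nonneg hu0 7)
    have := mul_nonneg (pow_nonneg h0 2) (pow_nonneg hu0 6)
    have := mul_nonneg (pow_nonneg h0 3) (pow_nonneg hu0 5)
    have := mul_nonneg (pow_nonneg h0 4) (pow_nonneg hu0 4)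
    have := mul_nonneg (pow_nonneg h0 5) (pow_nonneg hu0 3)
    have := mul_nonneg (pow_nonneg h0 6) (pow_nonneg hu0 2)
    have := mul_nonneg (pow_nonneg h0 7) hu0
    have := pow_nonneg hu0 8
    have := pow_nonneg h0 8
    linarith
  · simp [PP, pow_succ]
    ring_nf
    rw [hs, hs4]
    ring
  · simp [PP, pow_succ]
    ring_nf
    rw [hs3]
    ring

lemma mem_comp (s : ℝ) (hs : s ^ 2 = 1) :
    (⟨0, s⟩ : ℂ) ∈ connectedComponentIn {u : ℂ | ‖(derivative TT).eval u‖ < 1} (-1) := by
  refine (convex_segment (-1 : ℂ) ⟨0, s⟩).isPreconnected.subset_connectedComponentIn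
    (left_mem_segment ℝ _ _) ?_ (right_mem_segment ℝ _ _)
  rintro _ ⟨a, t, ha, ht, hat, rfl⟩
  have e : a • (-1 : ℂ) + t • (⟨0, s⟩ : ℂ) = ⟨t - 1, s * t⟩ := by
    apply Complex.ext
    · simp; linarith
    · simp; ring
  rw [Set.mem_ofPred_eq, d1, e]
  exact seg t s ht (by linarith) hs

lemma no_crit (z : ℂ) (hz : ‖PP z‖ < 1) : (derivative (derivative TT)).eval z ≠ 0 := by
  rw [d2]
  have hz2 : ‖PP z‖ ^ 2 < 1 := by nlinarith [norm_nonneg (PP z)]
  intro h
  simp only [mul_eq_zero] at h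
  rcases h with h | h | h | h
  · norm_num at h
  · rw [eq_neg_of_add_eq_zero_left h, normsq _ (-11999377 / 9600000) 0
      (by simp [PP, pow_succ]; norm_num) (by simp [PP, pow_succ])] at hz2
    norm_num at hz2
  · rw [sub_eq_zero.1 h, normsq _ (20477737067 / 20480000000) (5409 / 320000)
      (by simp [PP, pow_succ]; norm_num) (by simp [PP, pow_succ]; norm_num)] at hz2
    norm_num at hz2
  · rw [sub_eq_zero.1 h, normsq _ (20477737067 / 20480000000) (-5409 / 320000)
      (by simp [PP, pow_succ]; norm_num) (by simp [PP, pow_succ]; norm_num)] at hz2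
    norm_num at hz2


/-- The negation of the preceding statement: For every complex polynomial T and every connected component D of the set where ∣T'∣ < 1, each value w is taken by conj(z) + T(z) at most r+1 times in D, where r is the number of zeros of T'' in D counted with multiplicity. -/
theorem result :
    ¬ (∀ (T : Polynomial ℂ) (x : ℂ), ‖(Polynomial.derivative T).eval x‖ < 1 →
      ∀ w : ℂ,
        {z : ℂ | z ∈ connectedComponentIn {u : ℂ | ‖(Polynomial.derivative T).eval u‖ < 1} x ∧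
            starRingEnd ℂ z + T.eval z = w}.encard
          ≤ (((∑ᶠ z ∈ connectedComponentIn {u : ℂ | ‖(Polynomial.derivative T).eval u‖ < 1} x,
                (Polynomial.derivative (Polynomial.derivative T)).rootMultiplicity z) + 1 : ℕ) : ℕ∞)) := by
  intro H
  have h0 : ‖(derivative TT).eval (-1)‖ < 1 := by
    have := seg 0 1 le_rfl zero_le_one (by norm_num)
    rw [d1]
    convert this using 3
    apply Complex.ext <;> simp
  have key := H TT (-1) h0 (-30017 / 3840000)
  rw [finsum_mem_of_eqOn_zero] at key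
  · have h2 : ({(⟨0, 1⟩ : ℂ), (⟨0, -1⟩ : ℂ)} : Set ℂ).encard = 2 :=
      Set.encard_pair (fun h => by have := congrArg Complex.im h; norm_num at this)
    have h3 := le_trans (Set.encard_le_encard (s := {(⟨0, 1⟩ : ℂ), (⟨0, -1⟩ : ℂ)}) ?_) key
    · rw [h2] at h3
      norm_num at h3
    · rintro z (rfl | rfl)
      · refine ⟨mem_comp 1 (by norm_num), ?_⟩
        apply Complex.ext <;> simp [TT, pow_succ] <;> norm_num
      · refine ⟨mem_comp (-1) (by norm_num), ?_⟩
        apply Complex.ext <;> simp [TT, pow_succ] <;> norm_num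
  · intro z hz
    have h1 := connectedComponentIn_subset _ _ hz
    rw [Set.mem_ofPred_eq, d1] at h1
    exact rootMultiplicity_eq_zero (no_crit z h1)

end Pool.Agent.S06830
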