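import Pool.Statements.S06890
import Pool.Agent.H2.Vis1

set_option autoImplicit false
open Classical
open Pool Pool.MP_019aa5_co

namespace Pool.Agent.S06890

/-- The negation of the preceding statement: For any field, any convexly realized (d−1)-dim complex in R^(d−1), any generic point x, and any linear system of parameters, the monomials of the visible-vertex sets G_F of the facets form a k-basis of the face ring modulo the parameters. -/
theorem result :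
    ¬ (∀ (k : Type) [Field k] (n d : ℕ) (Δ : Finset (Finset (Fin n)))
      (p : Fin n → EuclideanSpace ℝ (Fin (d - 1))) (x : EuclideanSpace ℝ (Fin (d - 1)))
      (θ : Fin d → MvPolynomial (Fin n) k) (J : Ideal (MvPolynomial (Fin n) k))
      (f : {F : Finset (Fin n) // F ∈ Δ ∧ F.card = d} → MvPolynomial (Fin n) k ⧸ J),
      1 ≤ d →
      (∀ S ∈ Δ, ∀ T : Finset (Fin n), T ⊆ S → T ∈ Δ) →
      (∀ i : Fin n, ({i} : Finset (Fin n)) ∈ Δ) →
      (∀ S ∈ Δ, S.card ≤ d) →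
      (∃ S ∈ Δ, S.card = d) →
      (∀ S ∈ Δ, AffineIndependent ℝ (fun i : (S : Set (Fin n)) => p i)) →
      (∀ S ∈ Δ, ∀ T ∈ Δ,
        convexHull ℝ (p '' (S : Set (Fin n))) ∩ convexHull ℝ (p '' (T : Set (Fin n))) =
          convexHull ℝ (p '' ((S ∩ T : Finset (Fin n)) : Set (Fin n)))) →
      Convex ℝ (⋃ S ∈ Δ, convexHull ℝ (p '' (S : Set (Fin n)))) →
      x ∈ (⋃ S ∈ Δ, convexHull ℝ (p '' (S : Set (Fin n)))) →
      (∀ H ∈ Δ, H.card + 1 = d → x ∉ affineSpan ℝ (p '' (H : Set (Fin n)))) →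
      (∀ i, (θ i).IsHomogeneous 1) →
      J = Ideal.span ((fun S : Finset (Fin n) => ∏ i ∈ S, (MvPolynomial.X i : MvPolynomial (Fin n) k)) ''
              {S : Finset (Fin n) | S ∉ Δ}) ⊔ Ideal.span (Set.range θ) →
      Module.Finite k (MvPolynomial (Fin n) k ⧸ J) →
      (∀ F, f F = Ideal.Quotient.mk J
          (∏ v ∈ F.1.filter (fun v =>
              (affineSpan ℝ (p '' ((F.1.erase v : Finset (Fin n)) : Set (Fin n)))).SOppSide x (p v)),
            (MvPolynomial.X v : MvPolynomial (Fin n) k))) →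
      LinearIndependent k f ∧ Submodule.span k (Set.range f) = ⊤) := by
  intro h
  have key := (h ℚ 6 3 H2.Vis.Δ H2.Vis.p H2.Vis.x H2.Vis.θ H2.Vis.J _ (by norm_num)
    (fun S hS T hT => by
      obtain ⟨F, hF, hSF⟩ := H2.Vis.mem_Δ.1 hS
      exact H2.Vis.mem_Δ.2 ⟨F, hF, hT.trans hSF⟩)
    (by decide) (by decide) ⟨{3, 4, 5}, by decide, by decide⟩ H2.Vis.hindep H2.Vis.hinter
    H2.Vis.hconv H2.Vis.hx H2.Vis.hgen H2.Vis.θ_hom rfl H2.Vis.hfin (fun _ => rfl)).1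
  let F1 : {F : Finset (Fin 6) // F ∈ H2.Vis.Δ ∧ F.card = 3} := ⟨{0, 5, 3}, by decide, by decide⟩
  let F2 : {F : Finset (Fin 6) // F ∈ H2.Vis.Δ ∧ F.card = 3} := ⟨{1, 3, 4}, by decide, by decide⟩
  let F3 : {F : Finset (Fin 6) // F ∈ H2.Vis.Δ ∧ F.card = 3} := ⟨{2, 4, 5}, by decide, by decide⟩
  have e : ∀ (a b c : Fin 6) (F : {F : Finset (Fin 6) // F ∈ H2.Vis.Δ ∧ F.card = 3}), a ≠ b →
      (∀ v, (v ∈ F.1 ∧ (affineSpan ℝ (H2.Vis.p '' ((F.1.erase v : Finset (Fin 6)) :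
        Set (Fin 6)))).SOppSide H2.Vis.x (H2.Vis.p v)) ↔ v ∈ ({a, b} : Finset (Fin 6))) →
      Ideal.Quotient.mk H2.Vis.J (∏ v ∈ F.1.filter (fun v =>
        (affineSpan ℝ (H2.Vis.p '' ((F.1.erase v : Finset (Fin 6)) : Set (Fin 6)))).SOppSide
          H2.Vis.x (H2.Vis.p v)), (MvPolynomial.X v : MvPolynomial (Fin 6) ℚ)) =
        H2.Vis.y a * H2.Vis.y b := by
    intro a b c F hab hv
    rw [show F.1.filter _ = {a, b} from Finset.ext fun v => Finset.mem_filter.trans (hv v),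
      Finset.prod_pair hab, map_mul]
    rfl
  have e1 := e 0 5 3 F1 (by decide) (H2.Vis.vis 0 5 3 (by decide) (by decide) (by decide)
    (by simp [H2.Vis.D, H2.Vis.p, H2.Vis.px, H2.Vis.py, H2.Vis.x]; norm_num)
    (by simp [H2.Vis.D, H2.Vis.p, H2.Vis.px, H2.Vis.py, H2.Vis.x]; norm_num)
    (by simp [H2.Vis.D, H2.Vis.p, H2.Vis.px, H2.Vis.py, H2.Vis.x]; norm_num) _ rfl)
  have e2 := e 1 3 4 F2 (by decide) (H2.Vis.vis 1 3 4 (by decide) (by decide) (by decide)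
    (by simp [H2.Vis.D, H2.Vis.p, H2.Vis.px, H2.Vis.py, H2.Vis.x]; norm_num)
    (by simp [H2.Vis.D, H2.Vis.p, H2.Vis.px, H2.Vis.py, H2.Vis.x]; norm_num)
    (by simp [H2.Vis.D, H2.Vis.p, H2.Vis.px, H2.Vis.py, H2.Vis.x]; norm_num) _ rfl)
  have e3 := e 2 4 5 F3 (by decide) (H2.Vis.vis 2 4 5 (by decide) (by decide) (by decide)
    (by simp [H2.Vis.D, H2.Vis.p, H2.Vis.px, H2.Vis.py, H2.Vis.x]; norm_num)
    (by simp [H2.Vis.D, H2.Vis.p, H2.Vis.px, H2.Vis.py, H2.Vis.x]; norm_num)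
    (by simp [H2.Vis.D, H2.Vis.p, H2.Vis.px, H2.Vis.py, H2.Vis.x]; norm_num) _ rfl)
  have hinj : Function.Injective ![F1, F2, F3] := by decide
  have := Fintype.linearIndependent_iff.1 (key.comp _ hinj) (fun _ => 1) (by
    simp only [Fin.sum_univ_three, one_smul, Function.comp, Matrix.cons_val_zero,
      Matrix.cons_val_one, Matrix.cons_val]
    exact (congrArg₂ (· + ·) (congrArg₂ (· + ·) e1 e2) e3).trans H2.Vis.dep) 0
  exact one_ne_zero this

end Pool.Agent.S06890
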