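import Pool.Statements.S06936

set_option autoImplicit false
open Pool Pool.MP_038631_co

namespace Pool.Agent.S06936

def G2 : SimpleGraph (Bool × Fin 13) where
  Adj x y := x.1 = y.1 ∧ x.2 ≠ y.2
  symm := ⟨fun _ _ h => ⟨h.1.symm, h.2.symm⟩⟩
  loopless := ⟨fun _ h => h.2 rfl⟩

instance : DecidableRel G2.Adj := fun x y => by unfold G2; infer_instance

lemma side {a b : Bool × Fin 13} (p : G2.Walk a b) : ∀ v ∈ p.support, v.1 = a.1 := by
  induction p with
  | nil => simp
  | cons h q ih =>
    intro v hv
    rw [SimpleGraph.Walk.support_cons, List.mem_cons] at hv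
    rcases hv with rfl | hv
    · rfl
    · rw [ih v hv]; exact h.1.symm

lemma two {a b : Bool × Fin 13} (p : G2.Walk a a) (q : G2.Walk b b) (hp : p.IsCycle)
    (hq : q.IsCycle) (h1 : 7 ≤ p.length) (h2 : 7 ≤ q.length) (hab : a.1 = b.1)
    (hd : List.Disjoint p.support q.support) : False := by
  have hn : (p.support.tail ++ q.support.tail).Nodup := by
    rw [List.nodup_append]
    refine ⟨hp.support_nodup, hq.support_nodup, ?_⟩
    intro x hx y hy hxy
    subst hxy
    exact hd (List.mem_of_mem_tail hx) (List.mem_of_mem_tail hy)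
  have hs : ∀ v ∈ p.support.tail ++ q.support.tail, v.1 = a.1 := by
    intro v hv
    rcases List.mem_append.mp hv with h | h
    · exact side p v (List.mem_of_mem_tail h)
    · rw [hab]; exact side q v (List.mem_of_mem_tail h)
  have hn2 : ((p.support.tail ++ q.support.tail).map Prod.snd).Nodup := by
    refine List.Nodup.map_on ?_ hn
    intro x hx y hy h
    exact Prod.ext ((hs x hx).trans (hs y hy).symm) h
  have := hn2.length_le_card
  simp only [List.length_map, List.length_append, List.length_tail,
    SimpleGraph.Walk.length_support, Fintype.card_fin] at this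
  omega

/-- The negation of the preceding statement: For all k ≥ 2 and odd r ≥ 3, every finite simple graph with at least rk vertices and minimum degree at least (r+1)k/2 contains k pairwise vertex-disjoint cycles, each of length at least r. -/
theorem result :
    ¬ (∀ k r : ℕ, 2 ≤ k → 3 ≤ r → Odd r →
      ∀ (V : Type) [Fintype V] (G : SimpleGraph V) [DecidableRel G.Adj],
        r * k ≤ Fintype.card V →
        (∀ v : V, (r + 1) * k ≤ 2 * G.degree v) →
        ∃ (u : Fin k → V) (c : ∀ i : Fin k, G.Walk (u i) (u i)),
          (∀ i : Fin k, (c i).IsCycle ∧ r ≤ (c i).length) ∧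
          ∀ i j : Fin k, i ≠ j → List.Disjoint (c i).support (c j).support) := by
  intro h
  obtain ⟨u, c, h1, h2⟩ := h 3 7 (by norm_num) (by norm_num) (by decide) (Bool × Fin 13) G2
    (by simp) (by decide +kernel)
  have key : ∀ i j : Fin 3, i ≠ j → (u i).1 ≠ (u j).1 := fun i j hij he =>
    two (c i) (c j) (h1 i).1 (h1 j).1 (h1 i).2 (h1 j).2 he (h2 i j hij)
  have a := key 0 1 (by decide)
  have b := key 0 2 (by decide)
  have d := key 1 2 (by decide)
  revert a b d
  cases (u 0).1 <;> cases (u 1).1 <;> cases (u 2).1 <;> simp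

end Pool.Agent.S06936
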