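import Pool.Statements.S07056

set_option autoImplicit false
open Pool Pool.MP_0959cd_co

namespace Pool.Agent.S07056

def tab : List (List ℕ) :=
  [[0, 10, 10, 0, 0, 0, 0, 0, 0, 0, 0, 0, 0, 0, 0, 0, 0, 0],
   [8, 0, 0, 4, 4, 4, 0, 0, 0, 0, 0, 0, 0, 0, 0, 0, 0, 0],
   [8, 0, 0, 0, 0, 0, 4, 4, 4, 0, 0, 0, 0, 0, 0, 0, 0, 0],
   [5, 15, 0, 0, 0, 0, 0, 0, 0, 0, 0, 0, 0, 0, 0, 0, 0, 0],
   [5, 15, 0, 0, 0, 0, 0, 0, 0, 0, 0, 0, 0, 0, 0, 0, 0, 0],
   [5, 15, 0, 0, 0, 0, 0, 0, 0, 0, 0, 0, 0, 0, 0, 0, 0, 0],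
   [5, 0, 15, 0, 0, 0, 0, 0, 0, 0, 0, 0, 0, 0, 0, 0, 0, 0],
   [5, 0, 15, 0, 0, 0, 0, 0, 0, 0, 0, 0, 0, 0, 0, 0, 0, 0],
   [5, 0, 15, 0, 0, 0, 0, 0, 0, 0, 0, 0, 0, 0, 0, 0, 0, 0],
   [0, 0, 0, 0, 0, 0, 0, 0, 0, 0, 8, 8, 5, 5, 5, 5, 5, 5],
   [0, 0, 0, 0, 0, 0, 0, 0, 0, 10, 0, 0, 15, 15, 15, 0, 0, 0],
   [0, 0, 0, 0, 0, 0, 0, 0, 0, 10, 0, 0, 0, 0, 0, 15, 15, 15],
   [0, 0, 0, 20, 0, 0, 0, 0, 0, 0, 4, 0, 0, 0, 0, 0, 0, 0],
   [0, 0, 0, 0, 20, 0, 0, 0, 0, 0, 4, 0, 0, 0, 0, 0, 0, 0],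
   [0, 0, 0, 0, 0, 20, 0, 0, 0, 0, 4, 0, 0, 0, 0, 0, 0, 0],
   [0, 0, 0, 0, 0, 0, 20, 0, 0, 0, 0, 4, 0, 0, 0, 0, 0, 0],
   [0, 0, 0, 0, 0, 0, 0, 20, 0, 0, 0, 4, 0, 0, 0, 0, 0, 0],
   [0, 0, 0, 0, 0, 0, 0, 0, 20, 0, 0, 4, 0, 0, 0, 0, 0, 0]]

def wt (u v : Fin 18) : ℕ := (tab.getD u.val []).getD v.val 0

def ok : ℕ → Fin 18 → Fin 18 → List (Fin 18) → ℕ → Bool
  | 0, _, _, _, _ => false
  | f + 1, s, cur, vis, w =>
    (wt cur s == 0 || decide (w + wt cur s < 20)) &&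
      (List.finRange 18).all (fun v => wt cur v == 0 || vis.contains v || ok f s v (v :: vis) (w + wt cur v))

lemma ok_all : ∀ s : Fin 18, ok 19 s s [s] 0 = true := by decide +kernel

lemma sound (s : Fin 18) : ∀ (m f : ℕ) (vis : List (Fin 18)) (w : ℕ) (d : ℕ → Fin 18),
    ok f s (d 0) vis w = true → (∀ i < m, wt (d i) (d (i + 1)) ≠ 0) → (∀ i < m, d (i + 1) ∉ vis) →
    (∀ i j, i ≤ m → j ≤ m → d i = d j → i = j) → wt (d m) s ≠ 0 →
    w + ∑ i ∈ Finset.range m, wt (d i) (d (i + 1)) + wt (d m) s < 20 := by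
  intro m
  induction m with
  | zero =>
    intro f vis w d h _ _ _ h4
    cases f with
    | zero => simp [ok] at h
    | succ f =>
      simp only [ok, Bool.and_eq_true, Bool.or_eq_true, beq_iff_eq, decide_eq_true_eq] at h
      rcases h.1 with h | h
      · exact absurd h h4
      · simpa using h
  | succ m ih =>
    intro f vis w d h h1 h2 h3 h4
    cases f with
    | zero => simp [ok] at h
    | succ f =>
      simp only [ok, Bool.and_eq_true, Bool.or_eq_true, beq_iff_eq, decide_eq_true_eq,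
        List.all_eq_true] at h
      have h5 := h.2 (d 1) (List.mem_finRange _)
      rcases h5 with (h5 | h5) | h5
      · exact absurd h5 (h1 0 (by omega))
      · exact absurd (by simpa using h5) (h2 0 (by omega))
      · have := ih f (d 1 :: vis) (w + wt (d 0) (d 1)) (fun i => d (i + 1)) h5
          (fun i hi => h1 (i + 1) (by omega))
          (fun i hi hm => by
            rcases List.mem_cons.1 hm with e | e
            · have := h3 _ _ (by omega) (by omega) e; omega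
            · exact h2 (i + 1) (by omega) e)
          (fun i j hi hj e => by have := h3 _ _ (by omega) (by omega) e; omega) h4
        rw [Finset.sum_range_succ']
        simp only [zero_add] at this ⊢
        omega

lemma wt_le : ∀ u v : Fin 18, wt u v ≤ 20 := by decide +kernel
lemma wt_self : ∀ u : Fin 18, wt u u = 0 := by decide +kernel
lemma wt_out : ∀ u : Fin 18, 20 ≤ ∑ v, wt u v := by decide +kernel
lemma wt_in : ∀ u : Fin 18, 20 ≤ ∑ v, wt v u := by decide +kernel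


/-- The negation of the preceding statement: In every finite nonempty loopless digraph with arc weights in [0,1] where each vertex has total out-weight at least 1 and total in-weight at least 1, some directed cycle has total weight at least 1. -/
theorem result :
    ¬ (∀ (V : Type) [Fintype V] [Nonempty V] (G : Digraph V) (p : V → V → ℝ),
      (∀ v, ¬ G.Adj v v) →
      (∀ u v, 0 ≤ p u v ∧ p u v ≤ 1) →
      (∀ u v, ¬ G.Adj u v → p u v = 0) →
      (∀ u, 1 ≤ ∑ v, p u v) →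
      (∀ u, 1 ≤ ∑ v, p v u) →
      ∃ (k : ℕ) (c : Fin (k + 2) → V),
        Function.Injective c ∧
        (∀ i, G.Adj (c i) (c (i + 1))) ∧
        1 ≤ ∑ i, p (c i) (c (i + 1))) := by
  intro H
  obtain ⟨k, c, hinj, hadj, hw⟩ := H (Fin 18) ⟨fun u v => wt u v ≠ 0⟩ (fun u v => (wt u v : ℝ) / 20)
    (fun v h => h (wt_self v))
    (fun u v => ⟨by positivity, by
      have : (wt u v : ℝ) ≤ 20 := by exact_mod_cast wt_le u v
      linarith⟩)
    (fun u v h => by
      have : wt u v = 0 := by simpa using h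
      simp [this])
    (fun u => by
      have : (20 : ℝ) ≤ ∑ v, (wt u v : ℝ) := by exact_mod_cast wt_out u
      rw [← Finset.sum_div]; linarith)
    (fun u => by
      have : (20 : ℝ) ≤ ∑ v, (wt v u : ℝ) := by exact_mod_cast wt_in u
      rw [← Finset.sum_div]; linarith)
  let d : ℕ → Fin 18 := fun i => c (Fin.ofNat (k + 2) i)
  have hs : ∀ i : ℕ, Fin.ofNat (k + 2) i + 1 = Fin.ofNat (k + 2) (i + 1) := by
    intro i
    apply Fin.ext
    simp [Fin.val_add, Fin.ofNat]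
  have hd : ∀ i, wt (d i) (d (i + 1)) ≠ 0 := by
    intro i
    have := hadj (Fin.ofNat (k + 2) i)
    rw [hs] at this
    exact this
  have hdi : ∀ i j, i ≤ k + 1 → j ≤ k + 1 → d i = d j → i = j := by
    intro i j hi hj e
    have := congrArg Fin.val (hinj e)
    simp only [Fin.ofNat] at this
    rwa [Nat.mod_eq_of_lt (by omega), Nat.mod_eq_of_lt (by omega)] at this
  have hlast : d (k + 1 + 1) = d 0 := by
    simp only [d]; congr 1; apply Fin.ext; simp [Fin.ofNat]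
  have key := sound (d 0) (k + 1) 19 [d 0] 0 d (ok_all _) (fun i _ => hd i)
    (fun i hi hm => by
      have := hdi _ _ (by omega) (by omega) (List.mem_singleton.1 hm); omega)
    hdi (by rw [← hlast]; exact hd _)
  have e : ∑ i : Fin (k + 2), wt (c i) (c (i + 1)) =
      ∑ i ∈ Finset.range (k + 2), wt (d i) (d (i + 1)) := by
    rw [← Fin.sum_univ_eq_sum_range (fun i => wt (d i) (d (i + 1)))]
    apply Finset.sum_congr rfl
    intro i _
    have e1 : Fin.ofNat (k + 2) (i : ℕ) = i := Fin.ext (by simp [Fin.ofNat, Nat.mod_eq_of_lt i.2])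
    simp only [d]
    rw [← hs, e1]
  rw [Finset.sum_range_succ, hlast] at e
  rw [← Finset.sum_div] at hw
  have h2 : (∑ i : Fin (k + 2), (wt (c i) (c (i + 1)) : ℝ)) < 20 := by
    have : ∑ i : Fin (k + 2), wt (c i) (c (i + 1)) < 20 := by omega
    exact_mod_cast this
  linarith

end Pool.Agent.S07056
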