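import Pool.Statements.S07058

set_option autoImplicit false
open Pool Pool.MP_095a77_co

namespace Pool.Agent.S07058

/-- jumps of the circulant graph: plus or minus 1..r, and the antipodal jump m when d is odd -/
noncomputable def J (d m : ℕ) : Finset ℤ :=
  (Finset.Icc (-(d / 2 : ℕ) : ℤ) (d / 2 : ℕ)).erase 0 ∪ (if d % 2 = 1 then {(m : ℤ)} else ∅)

lemma mem_J {d m : ℕ} {i : ℤ} : i ∈ J d m ↔
    (i ≠ 0 ∧ -((d / 2 : ℕ) : ℤ) ≤ i ∧ i ≤ (d / 2 : ℕ)) ∨ (d % 2 = 1 ∧ i = m) := by
  unfold J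
  split_ifs with h <;> simp [h, or_comm]

lemma card_J {d m : ℕ} (h : d < m) : (J d m).card = d := by
  unfold J
  have h0 : (0 : ℤ) ∈ Finset.Icc (-(d / 2 : ℕ) : ℤ) (d / 2 : ℕ) := by
    simp only [Finset.mem_Icc]; omega
  rw [Finset.card_union_of_disjoint, Finset.card_erase_of_mem h0, Int.card_Icc]
  · split_ifs with h1
    · rw [Finset.card_singleton]; omega
    · rw [Finset.card_empty]; omega
  · split_ifs with h1
    · rw [Finset.disjoint_singleton_right]
      simp only [Finset.mem_erase, Finset.mem_Icc]; omega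
    · simp

lemma cast_inj {m : ℕ} {i j : ℤ} (hi : -(m : ℤ) < i ∧ i ≤ m) (hj : -(m : ℤ) < j ∧ j ≤ m)
    (h : (i : ZMod (2 * m)) = j) : i = j := by
  rw [ZMod.intCast_eq_intCast_iff_dvd_sub] at h
  obtain ⟨c, hc⟩ := h
  push_cast at hc
  have h1 : c = 0 := by
    by_contra hne
    rcases lt_or_gt_of_ne hne with h2 | h2 <;> nlinarith
  subst h1
  omega

def C (d m : ℕ) (h : d < m) : SimpleGraph (ZMod (2 * m)) where
  Adj x y := ∃ i ∈ J d m, y = x + (i : ZMod (2 * m))
  symm := ⟨by
    rintro x y ⟨i, hi, rfl⟩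
    rcases mem_J.mp hi with h1 | h1
    · exact ⟨-i, mem_J.mpr (Or.inl (by omega)), by push_cast; ring⟩
    · refine ⟨i, hi, ?_⟩
      have : ((2 * m : ℕ) : ZMod (2 * m)) = 0 := ZMod.natCast_self _
      rw [h1.2]
      push_cast at this ⊢
      linear_combination -this⟩
  loopless := ⟨by
    rintro x ⟨i, hi, h1⟩
    have h2 : (i : ZMod (2 * m)) = ((0 : ℤ) : ZMod (2 * m)) := by
      push_cast; linear_combination -h1
    have h3 := mem_J.mp hi
    have := cast_inj (by omega) (by omega) h2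
    omega⟩

/-- number of offsets in the window around x landing in A -/
noncomputable def win (r : ℕ) {n : ℕ} (A : Finset (ZMod n)) (x : ZMod n) : ℕ :=
  ((Finset.Icc (-(r : ℤ)) r).filter (fun i : ℤ => x + (i : ZMod n) ∈ A)).card

lemma win_shift (r : ℕ) {n : ℕ} (A : Finset (ZMod n)) (x : ZMod n) :
    win r A x ≤ win r A (x + 1) + 1 := by
  unfold win
  have : (Finset.Icc (-(r : ℤ)) r).filter (fun i : ℤ => x + (i : ZMod n) ∈ A) ⊆
      insert (-(r : ℤ)) (((Finset.Icc (-(r : ℤ)) r).filter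
        (fun i : ℤ => x + 1 + (i : ZMod n) ∈ A)).image (· + 1)) := by
    intro i hi
    simp only [Finset.mem_filter, Finset.mem_Icc, Finset.mem_insert, Finset.mem_image] at hi ⊢
    by_cases h : i = -(r : ℤ)
    · exact Or.inl h
    · refine Or.inr ⟨i - 1, ⟨by omega, ?_⟩, by ring⟩
      have : x + 1 + ((i - 1 : ℤ) : ZMod n) = x + i := by push_cast; ring
      rw [this]; exact hi.2
  exact (Finset.card_le_card this).trans ((Finset.card_insert_le _ _).trans
    (Nat.succ_le_succ Finset.card_image_le))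

lemma win_compl (r : ℕ) {n : ℕ} [NeZero n] (A : Finset (ZMod n)) (x : ZMod n) :
    win r A x + win r Aᶜ x = 2 * r + 1 := by
  unfold win
  have := Finset.card_filter_add_card_filter_not (s := Finset.Icc (-(r : ℤ)) r)
    (fun i : ℤ => x + (i : ZMod n) ∈ A)
  simp only [Finset.mem_compl]
  rw [this, Int.card_Icc]; omega

open Classical in
lemma own_le (d m : ℕ) (h : d < m) [NeZero (2 * m)] (A : Finset (ZMod (2 * m)))
    (x : ZMod (2 * m)) (hx : x ∈ A) :
    ((C d m h).neighborFinset x ∩ A).card + 1 ≤ win (d / 2) A x + d % 2 := by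
  unfold win
  set S := (Finset.Icc (-((d / 2 : ℕ) : ℤ)) (d / 2 : ℕ)).filter
    (fun i : ℤ => x + (i : ZMod (2 * m)) ∈ A) with hS
  have h0 : (0 : ℤ) ∈ S := by
    simp only [hS, Finset.mem_filter, Finset.mem_Icc]
    exact ⟨by omega, by simpa using hx⟩
  have hsub : (C d m h).neighborFinset x ∩ A ⊆
      (S.erase 0 ∪ (if d % 2 = 1 then {(m : ℤ)} else ∅)).image
        (fun i : ℤ => x + (i : ZMod (2 * m))) := by
    intro y hy
    rw [Finset.mem_inter, SimpleGraph.mem_neighborFinset] at hy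
    obtain ⟨⟨i, hi, rfl⟩, hA⟩ := hy
    refine Finset.mem_image.mpr ⟨i, ?_, rfl⟩
    rcases mem_J.mp hi with h1 | h1
    · apply Finset.mem_union_left
      simp only [hS, Finset.mem_erase, Finset.mem_filter, Finset.mem_Icc]
      exact ⟨h1.1, h1.2, hA⟩
    · apply Finset.mem_union_right
      simp [h1.1, h1.2]
  have h1 := (Finset.card_le_card hsub).trans (Finset.card_image_le.trans (Finset.card_union_le _ _))
  rw [Finset.card_erase_of_mem h0] at h1
  have h2 : 0 < S.card := Finset.card_pos.mpr ⟨0, h0⟩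
  split_ifs at h1 with h3
  · rw [Finset.card_singleton] at h1; omega
  · rw [Finset.card_empty] at h1; omega

open Classical in
lemma C_reg (d m : ℕ) (h : d < m) [NeZero (2 * m)] : (C d m h).IsRegularOfDegree d := by
  intro x
  rw [← SimpleGraph.card_neighborFinset_eq_degree]
  have : (C d m h).neighborFinset x = (J d m).image (fun i : ℤ => x + (i : ZMod (2 * m))) := by
    ext y
    rw [SimpleGraph.mem_neighborFinset, Finset.mem_image]
    exact ⟨fun ⟨i, h1, h2⟩ => ⟨i, h1, h2.symm⟩, fun ⟨i, h1, h2⟩ => ⟨i, h1, h2.symm⟩⟩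
  rw [this, Finset.card_image_of_injOn, card_J h]
  intro i hi j hj hij
  have h1 := mem_J.mp hi
  have h2 := mem_J.mp hj
  exact cast_inj (by omega) (by omega) (add_left_cancel hij)

/-- The negation of the preceding statement: For every integer δ≥1 there are d and n0 so that every d-regular graph on more than n0 vertices splits into two nonempty parts where each vertex has at least d/2+δ neighbours in its own part. -/
theorem result :
    ¬ (∀ δ : ℕ, 1 ≤ δ → ∃ d n₀ : ℕ, ∀ (V : Type) [Fintype V] [DecidableEq V]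
      (G : SimpleGraph V) [DecidableRel G.Adj],
      G.IsRegularOfDegree d → n₀ < Fintype.card V →
      ∃ A : Finset V, A.Nonempty ∧ Aᶜ.Nonempty ∧
        (∀ v ∈ A, (d : ℝ) / 2 + (δ : ℝ) ≤ ((G.neighborFinset v ∩ A).card : ℝ)) ∧
        (∀ v ∈ Aᶜ, (d : ℝ) / 2 + (δ : ℝ) ≤ ((G.neighborFinset v ∩ Aᶜ).card : ℝ))) := by
  intro H
  classical
  obtain ⟨d, n₀, H⟩ := H 1 le_rfl
  have hm : d < d + n₀ + 1 := by omega
  have : NeZero (2 * (d + n₀ + 1)) := ⟨by omega⟩
  obtain ⟨A, ⟨a, ha⟩, ⟨b, hb⟩, h1, h2⟩ := H (ZMod (2 * (d + n₀ + 1))) (C d (d + n₀ + 1) hm)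
    (C_reg d _ hm) (by rw [ZMod.card]; omega)
  have hex : ∃ x ∈ A, x + 1 ∈ Aᶜ := by
    by_contra hne
    push Not at hne
    have hall : ∀ k : ℕ, a + k ∈ A := by
      intro k
      induction k with
      | zero => simpa using ha
      | succ k ih =>
        have := hne _ ih
        rw [Finset.mem_compl, not_not] at this
        push_cast
        rwa [← add_assoc]
    have := hall (b - a).val
    rw [ZMod.natCast_zmod_val, add_sub_cancel] at this
    exact (Finset.mem_compl.mp hb) this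
  obtain ⟨x, hx, hx1⟩ := hex
  have a1 := own_le d _ hm A x hx
  have a2 := own_le d _ hm Aᶜ (x + 1) hx1
  have a3 := win_shift (d / 2) A x
  have a4 := win_compl (d / 2) A (x + 1)
  have b1 := h1 x hx
  have b2 := h2 (x + 1) hx1
  have c1 : d + 2 ≤ 2 * ((C d (d + n₀ + 1) hm).neighborFinset x ∩ A).card := by
    have : (d : ℝ) + 2 ≤ 2 * (((C d (d + n₀ + 1) hm).neighborFinset x ∩ A).card : ℝ) := by
      push_cast at b1; linarith
    exact_mod_cast this
  have c2 : d + 2 ≤ 2 * ((C d (d + n₀ + 1) hm).neighborFinset (x + 1) ∩ Aᶜ).card := by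
    have : (d : ℝ) + 2 ≤ 2 * (((C d (d + n₀ + 1) hm).neighborFinset (x + 1) ∩ Aᶜ).card : ℝ) := by
      push_cast at b2; linarith
    exact_mod_cast this
  omega

end Pool.Agent.S07058
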