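import Pool.Statements.S07065
import Pool.Agent.H12.CF4

set_option autoImplicit false
open Classical
open Pool Pool.MP_098c03_co

namespace Pool.Agent.S07065

/-- There is a nonempty finite set of plane points and lines, each point on exactly 4 of the lines and each line through exactly 4 of the points, whose point-line incidence graph is 3-connected but has no Hamiltonian cycle. -/
theorem result :
    ∃ (P : Finset (EuclideanSpace ℝ (Fin 2)))
      (L : Finset (AffineSubspace ℝ (EuclideanSpace ℝ (Fin 2)))),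
      P.Nonempty ∧
      (∀ l ∈ L, Module.finrank ℝ l.direction = 1) ∧
      (∀ p ∈ P, (L.filter (fun l => p ∈ l)).card = 4) ∧
      (∀ l ∈ L, (P.filter (fun p => p ∈ l)).card = 4) ∧
      ∃ G : SimpleGraph ({p // p ∈ P} ⊕ {l // l ∈ L}),
        G = SimpleGraph.fromRel
          (fun a b : {p // p ∈ P} ⊕ {l // l ∈ L} =>
            ∃ p l, a = Sum.inl p ∧ b = Sum.inr l ∧
              (p : EuclideanSpace ℝ (Fin 2)) ∈
                (l : AffineSubspace ℝ (EuclideanSpace ℝ (Fin 2)))) ∧
        3 < Fintype.card ({p // p ∈ P} ⊕ {l // l ∈ L}) ∧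
        (∀ S : Finset ({p // p ∈ P} ⊕ {l // l ∈ L}), S.card < 3 →
          (G.induce ((↑S : Set ({p // p ∈ P} ⊕ {l // l ∈ L}))ᶜ)).Connected) ∧
        ¬ G.IsHamiltonian := by
  obtain ⟨P, L, h1, h2, h3, h4, G, h5, h6, h7, h8⟩ := Pool.Agent.H12.CF.main
  exact ⟨P, L, h1, h2, h3, h4, G, h5, by convert lt_trans (by norm_num : 3 < 4) h6, fun S hS => h7 S (by omega), h8⟩

end Pool.Agent.S07065
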