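import Pool.Statements.S07079
import Pool.Agent.H10.GammaG
-- import your own Pool.Agent.* helpers here

set_option autoImplicit false
open Pool Pool.MP_09fd01_co

namespace Pool.Agent.S07079

/-- There is a finite graph whose iterated γ-graph sequence (γ-sets as vertices, adjacent when one slides to the other along an edge) eventually repeats up to isomorphism with some period, yet is not eventually constant. -/
theorem result :
    ∃ (k : ℕ → ℕ) (G : ∀ n, SimpleGraph (Fin (k n))),
      (∀ n, ∃ e : Fin (k (n + 1)) ≃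
          {S : Finset (Fin (k n)) //
            (∀ v, v ∈ S ∨ ∃ u ∈ S, (G n).Adj u v) ∧
            ∀ T : Finset (Fin (k n)),
              (∀ v, v ∈ T ∨ ∃ u ∈ T, (G n).Adj u v) → S.card ≤ T.card},
        ∀ a b, (G (n + 1)).Adj a b ↔
          ∃ u v, u ∈ (e a).1 ∧ v ∉ (e a).1 ∧ (G n).Adj u v ∧
            (e b).1 = insert v ((e a).1.erase u)) ∧
      ∃ m p : ℕ, 0 < p ∧ Nonempty (G (m + p) ≃g G m) ∧ IsEmpty (G (m + 1) ≃g G m) := by
  have key : ∀ n : ℕ, H10.GammaG.Step
      (if n % 2 = 0 then H10.GammaG.ofList H10.GammaG.EA else H10.GammaG.ofList H10.GammaG.EB)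
      (if (n + 1) % 2 = 0 then H10.GammaG.ofList H10.GammaG.EA
        else H10.GammaG.ofList H10.GammaG.EB) := by
    intro n
    rcases Nat.mod_two_eq_zero_or_one n with h | h
    · rw [if_pos h, if_neg (by omega)]
      exact H10.GammaG.stepAB
    · rw [if_neg (by omega), if_pos (by omega)]
      exact H10.GammaG.stepBA
  refine ⟨fun _ => 12, fun n => if n % 2 = 0 then H10.GammaG.ofList H10.GammaG.EA
    else H10.GammaG.ofList H10.GammaG.EB, key, 0, 2, by norm_num, ⟨by simp; exact .refl⟩, ?_⟩
  refine ⟨fun φ => H10.GammaG.not_iso.false ?_⟩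
  simpa using φ.symm

end Pool.Agent.S07079
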