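import Pool.Statements.S07094
-- import your own Pool.Agent.* helpers here

set_option autoImplicit false
open Pool Pool.MP_0a7691_co

namespace Pool.Agent.S07094

open SimpleGraph

def G (N q : ℕ) : SimpleGraph (Fin N) where
  Adj i j := i ≠ j ∧ (i.val % q = 0 ∨ j.val % q = 0 ∨ i.val / q = j.val / q)
  symm := ⟨fun _ _ h => ⟨h.1.symm, by rcases h.2 with h | h | h <;> simp [h]⟩⟩
  loopless := ⟨fun _ h => h.1 rfl⟩

theorem succ_cases (q i : ℕ) : (i + 1) % q = 0 ∨ i / q = (i + 1) / q := by
  rw [Nat.succ_div]
  split_ifs with h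
  · exact Or.inl (Nat.mod_eq_zero_of_dvd h)
  · simp

theorem cyc_le (n q : ℕ) : cycleGraph (n + 3) ≤ G (n + 3) q := by
  have key : ∀ u v : Fin (n + 3), (u - v).val = 1 → (G (n + 3) q).Adj u v := by
    intro u v h
    have hu := u.2
    have hv := v.2
    rw [Fin.val_sub] at h
    by_cases e : v.val ≤ u.val
    · rw [show n + 3 - v.val + u.val = (u.val - v.val) + (n + 3) by omega, Nat.add_mod_right,
        Nat.mod_eq_of_lt (by omega)] at h
      refine ⟨fun e' => by rw [e'] at h; omega, ?_⟩
      rw [show u.val = v.val + 1 by omega]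
      rcases succ_cases q v.val with h | h
      · exact Or.inl h
      · exact Or.inr (Or.inr h.symm)
    · rw [Nat.mod_eq_of_lt (by omega)] at h
      refine ⟨fun e' => by rw [e'] at e; omega, Or.inl ?_⟩
      rw [show u.val = 0 by omega]; simp
  intro u v h
  rcases cycleGraph_adj'.1 h with h | h
  · exact key _ _ h
  · exact (key _ _ h).symm

theorem ham (n q : ℕ) : (G (n + 3) q).IsHamiltonian := by
  refine IsHamiltonian.mono (cyc_le n q) (fun _ => ⟨0, cycleGraph.cycle n, ?_⟩)
  rw [Walk.isHamiltonianCycle_iff_isCycle_and_length_eq]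
  exact ⟨cycleGraph.isCycle_cycle, by simp⟩

theorem indep_le (m q : ℕ) (hq : 0 < q) : (G (m * q) q).indepNum ≤ m := by
  obtain ⟨s, hs⟩ := (G (m * q) q).exists_isNIndepSet_indepNum
  rw [← hs.card_eq]
  have := Finset.card_le_card_of_injOn (s := s) (t := Finset.range m) (fun i => i.val / q)
    (fun i _ => by
      simp only [Finset.coe_range, Set.mem_Iio]
      exact (Nat.div_lt_iff_lt_mul hq).2 i.2)
    (fun i hi j hj e => by
      by_contra h
      exact hs.isIndepSet hi hj h ⟨h, Or.inr (Or.inr e)⟩)
  simpa using this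

theorem no_hub_edge (m q : ℕ) (hq : 2 ≤ q) (z : Fin (m * q)) (hz : z.val % q = 0)
    (p : (G (m * q) q).Walk z z) (hp : p.IsHamiltonianCycle) (j : ℕ) (hj : j < p.length)
    (h1 : (p.getVert j).val % q = 0) (h2 : (p.getVert (j + 1)).val % q = 0) : False := by
  have step : ∀ (b d i : ℕ), i + d = p.length → (p.getVert i).val % q ≠ 0 →
      (p.getVert i).val / q = b → ∃ i', i' < p.length ∧ (p.getVert i').val % q ≠ 0 ∧
        (p.getVert i').val / q = b ∧ (p.getVert (i' + 1)).val % q = 0 := by
    intro b d
    induction d with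
    | zero =>
      intro i hi h _
      rw [show i = p.length by omega, Walk.getVert_length] at h
      exact absurd hz h
    | succ d ih =>
      intro i hi h hb
      by_cases e : (p.getVert (i + 1)).val % q = 0
      · exact ⟨i, by omega, h, hb, e⟩
      · rcases (p.adj_getVert_succ (i := i) (by omega)).2 with h' | h' | h'
        · exact absurd h' h
        · exact absurd h' e
        · exact ih (i + 1) (by omega) e (h' ▸ hb)
  have ex : ∀ b : Fin m, ∃ i', i' < p.length ∧ (p.getVert i').val % q ≠ 0 ∧
      (p.getVert i').val / q = b ∧ (p.getVert (i' + 1)).val % q = 0 := by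
    intro b
    have hb : b.val * q + 1 < m * q := by have := b.2; nlinarith
    obtain ⟨i, hi, hl⟩ := Walk.mem_support_iff_exists_getVert.1 (hp.mem_support ⟨_, hb⟩)
    refine step b (p.length - i) i (by omega) ?_ ?_
    · rw [hi]; simp only [Nat.mul_add_mod_self_right]; rw [Nat.mod_eq_of_lt (by omega)]; omega
    · rw [hi]; simp only
      rw [add_comm, Nat.add_mul_div_right _ _ (by omega), Nat.div_eq_of_lt (by omega)]; simp
  choose I hI using ex
  let J : Option (Fin m) → ℕ := fun o => o.elim j I
  have hJ : ∀ o, J o < p.length ∧ (p.getVert (J o + 1)).val % q = 0 := by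
    rintro (_ | b)
    · exact ⟨hj, h2⟩
    · exact ⟨(hI b).1, (hI b).2.2.2⟩
  have hJi : Function.Injective J := by
    rintro (_ | a) (_ | b) e
    · rfl
    · exact absurd h1 ((show j = I b from e) ▸ (hI b).2.1)
    · exact absurd h1 ((show I a = j from e) ▸ (hI a).2.1)
    · have e' : I a = I b := e
      have := (hI a).2.2.1
      rw [e', (hI b).2.2.1] at this
      rw [Fin.ext this]
  have hinj : Function.Injective (fun o => (⟨(p.getVert (J o + 1)).val / q,
      (Nat.div_lt_iff_lt_mul (by omega)).2 (p.getVert _).2⟩ : Fin m)) := by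
    intro a b e
    have e1 : (p.getVert (J a + 1)).val / q = (p.getVert (J b + 1)).val / q := congrArg Fin.val e
    have e2 : p.getVert (J a + 1) = p.getVert (J b + 1) := by
      apply Fin.ext
      rw [← Nat.div_add_mod (p.getVert (J a + 1)).val q, e1, (hJ a).2, ← (hJ b).2,
        Nat.div_add_mod]
    have := hp.isCycle.getVert_injOn (by have := (hJ a).1; constructor <;> omega)
      (by have := (hJ b).1; constructor <;> omega) e2
    exact hJi (by omega)
  have := Fintype.card_le_of_injective _ hinj
  simp at this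

/-- The negation of the preceding statement: There exist k and f such that every k-connected Hamiltonian graph on an odd number n of vertices with n at least f(independence number) has its Hamilton cycles spanning its whole cycle space over GF(2). -/
theorem result :
    ¬ (∃ k : ℕ, ∃ f : ℕ → ℕ,
      ∀ (V : Type) [Fintype V] [DecidableEq V] (G : SimpleGraph V),
        Odd (Fintype.card V) →
        (k < Fintype.card V ∧
          ∀ S : Finset V, S.card < k → (G.induce ((↑S : Set V)ᶜ)).Connected) →
        G.IsHamiltonian →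
        f G.indepNum ≤ Fintype.card V →
        Submodule.span (ZMod 2)
            {x : Sym2 V → ZMod 2 | ∃ (u : V) (p : G.Walk u u),
              p.IsHamiltonianCycle ∧
                x = Set.indicator {e : Sym2 V | e ∈ p.edges} (fun _ => (1 : ZMod 2))} =
          Submodule.span (ZMod 2)
            {x : Sym2 V → ZMod 2 | ∃ (u : V) (p : G.Walk u u),
              p.IsCycle ∧
                x = Set.indicator {e : Sym2 V | e ∈ p.edges} (fun _ => (1 : ZMod 2))}) := by
  rintro ⟨k, f, H⟩
  obtain ⟨m, hm⟩ : ∃ m, m = 2 * k + 3 := ⟨_, rfl⟩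
  obtain ⟨q, hq⟩ : ∃ q, q = 2 * (∑ a ∈ Finset.range (m + 1), f a) + 3 := ⟨_, rfl⟩
  have hmq : m + q ≤ m * q := Nat.add_le_mul (by omega) (by omega)
  have h2q : 2 * q ≤ m * q := by nlinarith
  let z : Fin (m * q) := ⟨0, by omega⟩
  let w : Fin (m * q) := ⟨q, by omega⟩
  let o : Fin (m * q) := ⟨1, by omega⟩
  have hE := H (Fin (m * q)) (G (m * q) q)
    (by rw [Fintype.card_fin]; exact Odd.mul ⟨k + 1, by omega⟩ ⟨(∑ a ∈ Finset.range (m + 1), f a) + 1, by omega⟩)
    ⟨by rw [Fintype.card_fin]; omega, fun S hS => by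
      have : ∃ b : Fin m, (⟨b.val * q, by have := b.2; nlinarith⟩ : Fin (m * q)) ∉ S := by
        by_contra hc
        push Not at hc
        have := Finset.card_le_card_of_injOn (s := Finset.univ) (t := S) _ (fun b _ => hc b)
          (fun a _ b _ e => Fin.ext (Nat.eq_of_mul_eq_mul_right (by omega) (congrArg Fin.val e)))
        simp at this
        omega
      obtain ⟨b, hb⟩ := this
      rw [connected_iff_exists_forall_reachable]
      refine ⟨⟨_, hb⟩, fun v => ?_⟩
      by_cases e : (⟨_, hb⟩ : ((↑S : Set (Fin (m * q)))ᶜ : Set _)) = v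
      · rw [e]
      · exact Adj.reachable ⟨fun h => e (Subtype.ext h), Or.inl (by simp)⟩⟩
    (by
      obtain ⟨n, hn⟩ : ∃ n, m * q = n + 3 := ⟨m * q - 3, by omega⟩
      rw [hn]; exact ham n q)
    (by
      have h1 := indep_le m q (by omega)
      have h2 := Finset.single_le_sum (f := f) (s := Finset.range (m + 1))
        (fun _ _ => Nat.zero_le _) (Finset.mem_range.2 (Nat.lt_succ_of_le h1))
      rw [Fintype.card_fin]; omega)
  have zw : z ≠ w := fun e => by have := congrArg Fin.val e; simp only [z, w] at this; omega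
  have zo : z ≠ o := fun e => by have := congrArg Fin.val e; simp [z, o] at this
  have wo : w ≠ o := fun e => by have := congrArg Fin.val e; simp only [w, o] at this; omega
  have a1 : (G (m * q) q).Adj z w := ⟨zw, Or.inl (by simp [z])⟩
  have a2 : (G (m * q) q).Adj w o := ⟨wo, Or.inl (by simp [w])⟩
  have a3 : (G (m * q) q).Adj o z := ⟨zo.symm, Or.inr (Or.inl (by simp [z]))⟩
  let T : (G (m * q) q).Walk z z := .cons a1 (.cons a2 (.cons a3 .nil))
  have hT : T.IsCycle := by
    simp [T, Walk.isCycle_def, Walk.isTrail_def, zw, zo, wo, zw.symm, zo.symm, wo.symm]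
  have hmem := Submodule.subset_span (R := ZMod 2) (s := {x : Sym2 (Fin (m * q)) → ZMod 2 |
      ∃ (u : Fin (m * q)) (p : (G (m * q) q).Walk u u), p.IsCycle ∧
        x = Set.indicator {e | e ∈ p.edges} (fun _ => (1 : ZMod 2))}) ⟨z, T, hT, rfl⟩
  rw [← hE] at hmem
  have hker := (Submodule.span_le (p := LinearMap.ker (LinearMap.proj (R := ZMod 2)
    (φ := fun _ : Sym2 (Fin (m * q)) => ZMod 2) s(z, w)))).2 (by
      rintro x ⟨u, p, hp, rfl⟩
      simp only [SetLike.mem_coe, LinearMap.mem_ker, LinearMap.proj_apply]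
      apply Set.indicator_of_notMem
      intro he
      have hz := hp.mem_support z
      have he' : s(z, w) ∈ (p.rotate z hz).edges := (p.rotate_edges z hz).mem_iff.2 he
      obtain ⟨j, hj, e⟩ := (Walk.mk_mem_edges_iff_exists _).1 he'
      refine no_hub_edge m q (by omega) z (by simp [z]) _
        ((Walk.isHamiltonianCycle_rotate hz).2 hp) j hj ?_ ?_
      · rcases Sym2.eq_iff.1 e with ⟨h, -⟩ | ⟨h, -⟩ <;> rw [h] <;> simp [z, w]
      · rcases Sym2.eq_iff.1 e with ⟨-, h⟩ | ⟨-, h⟩ <;> rw [h] <;> simp [z, w]) hmem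
  simp only [LinearMap.mem_ker, LinearMap.proj_apply] at hker
  rw [Set.indicator_of_mem (by simp [T])] at hker
  exact one_ne_zero hker

end Pool.Agent.S07094
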