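import Pool.Statements.S07114

set_option autoImplicit false
open Filter Topology
open Pool Pool.MP_0b90e2_co

namespace Pool.Agent.S07114

def g {n : ℕ} (m : ℕ) (f : {v : Fin n // v.val < m} × {v : Fin n // ¬ v.val < m} → Fin 50)
    (a b : Fin n) : Fin 50 :=
  if ha : a.val < m then (if hb : b.val < m then 0 else f (⟨a, ha⟩, ⟨b, hb⟩))
  else (if hb : b.val < m then f (⟨b, hb⟩, ⟨a, ha⟩) else 0)

lemma g_symm {n : ℕ} (m : ℕ) (f : {v : Fin n // v.val < m} × {v : Fin n // ¬ v.val < m} → Fin 50)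
    (a b : Fin n) : g m f a b = g m f b a := by
  unfold g
  by_cases ha : a.val < m <;> by_cases hb : b.val < m <;> simp [ha, hb]

def col {n : ℕ} (m : ℕ) (f : {v : Fin n // v.val < m} × {v : Fin n // ¬ v.val < m} → Fin 50)
    (e : {e : Sym2 (Fin n) // ¬ e.IsDiag}) : Fin 50 :=
  Sym2.lift ⟨g m f, g_symm m f⟩ e.1

lemma col_good {n : ℕ} (m : ℕ)
    (f : {v : Fin n // v.val < m} × {v : Fin n // ¬ v.val < m} → Fin 50)
    (S : Finset (Fin n)) (hS : S.card = 4) :
    ((Finset.univ.filter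
      (fun e : {e : Sym2 (Fin n) // ¬ e.IsDiag} => e.1 ∈ S.sym2)).image (col m f)).card < 6 := by
  have hsub : ((Finset.univ.filter
      (fun e : {e : Sym2 (Fin n) // ¬ e.IsDiag} => e.1 ∈ S.sym2)).image (col m f)) ⊆
      insert 0 (((S.filter (fun v => v.val < m)) ×ˢ (S.filter (fun v => ¬ v.val < m))).image
        (fun p => g m f p.1 p.2)) := by
    intro x hx
    simp only [Finset.mem_image, Finset.mem_filter, Finset.mem_univ, true_and] at hx
    obtain ⟨⟨e, he⟩, hmem, rfl⟩ := hx
    induction e using Sym2.ind with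
    | h a b =>
      simp only [Finset.mk_mem_sym2_iff] at hmem
      simp only [col, Sym2.lift_mk, Finset.mem_insert, Finset.mem_image, Finset.mem_product,
        Finset.mem_filter]
      by_cases ha : a.val < m <;> by_cases hb : b.val < m
      · left; simp [g, ha, hb]
      · right; exact ⟨(a, b), ⟨⟨hmem.1, ha⟩, ⟨hmem.2, hb⟩⟩, rfl⟩
      · right; exact ⟨(b, a), ⟨⟨hmem.2, hb⟩, ⟨hmem.1, ha⟩⟩, g_symm m f b a⟩
      · left; simp [g, ha, hb]
  have h1 := Finset.card_le_card hsub
  have h2 := Finset.card_insert_le (0 : Fin 50)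
    (((S.filter (fun v => v.val < m)) ×ˢ (S.filter (fun v => ¬ v.val < m))).image
        (fun p => g m f p.1 p.2))
  have h3 := Finset.card_image_le (f := fun p : Fin n × Fin n => g m f p.1 p.2)
    (s := (S.filter (fun v => v.val < m)) ×ˢ (S.filter (fun v => ¬ v.val < m)))
  rw [Finset.card_product] at h3
  have h4 := Finset.card_filter_add_card_filter_not (s := S) (fun v : Fin n => v.val < m)
  rw [hS] at h4
  set a := (S.filter (fun v => v.val < m)).card
  set b := (S.filter (fun v => ¬ v.val < m)).card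
  have h5 : a * b ≤ 4 := by
    have ha : a ≤ 4 := by omega
    have hb : b = 4 - a := by omega
    rw [hb]
    interval_cases a <;> simp
  omega

lemma col_inj {n : ℕ} (m : ℕ) : Function.Injective (col (n := n) m) := by
  intro f f' h
  funext p
  obtain ⟨⟨a, ha⟩, ⟨b, hb⟩⟩ := p
  have hne : ¬ (s(a, b) : Sym2 (Fin n)).IsDiag := by
    rw [Sym2.mk_isDiag_iff]
    rintro rfl
    exact hb ha
  have := congrFun h ⟨s(a, b), hne⟩
  simpa [col, g, ha, hb] using this

lemma count_ge (m : ℕ) :
    50 ^ (m * m) ≤ Nat.card {c : {e : Sym2 (Fin (m + m)) // ¬ e.IsDiag} → Fin 50 //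
              ∀ S : Finset (Fin (m + m)), S.card = 4 →
                ((Finset.univ.filter
                    (fun e : {e : Sym2 (Fin (m + m)) // ¬ e.IsDiag} => e.1 ∈ S.sym2)).image c).card < 6} := by
  have hA : Fintype.card {v : Fin (m + m) // v.val < m} = m := by
    rw [Fintype.card_subtype]
    simp [Fin.card_filter_val_lt]
  have hB : Fintype.card {v : Fin (m + m) // ¬ v.val < m} = m := by
    rw [Fintype.card_subtype_compl, hA]
    simp
  have hc : Nat.card ({v : Fin (m + m) // v.val < m} × {v : Fin (m + m) // ¬ v.val < m} → Fin 50)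
      = 50 ^ (m * m) := by
    rw [Nat.card_eq_fintype_card, Fintype.card_fun, Fintype.card_prod, hA, hB]
    simp
  rw [← hc]
  apply Nat.card_le_card_of_injective
    (fun f => ⟨col m f, fun S hS => col_good m f S hS⟩)
  intro f f' h
  exact col_inj m (congrArg Subtype.val h)

/-- Counterexample: k = 4, s = 6, r = 50. -/
theorem result :
    ¬ (∀ k s r : ℕ, 3 ≤ k → 3 ≤ s → s ≤ k.choose 2 → s ≤ r →
      Tendsto
        (fun n : ℕ =>
          (Nat.card {c : {e : Sym2 (Fin n) // ¬ e.IsDiag} → Fin r //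
              ∀ S : Finset (Fin n), S.card = k →
                ((Finset.univ.filter
                    (fun e : {e : Sym2 (Fin n) // ¬ e.IsDiag} => e.1 ∈ S.sym2)).image c).card < s} : ℝ)
            / ((r.choose (s - 1) : ℝ) * ((s : ℝ) - 1) ^ (n.choose 2)))
        atTop (𝓝 1)) := by
  intro h
  have h1 := h 4 6 50 (by norm_num) (by norm_num) (by decide) (by norm_num)
  have h2 := h1.eventually (gt_mem_nhds (show (1 : ℝ) < 2 by norm_num))
  rw [eventually_atTop] at h2
  obtain ⟨N, hN⟩ := h2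
  set m := N + 5 with hm
  have h3 := hN (m + m) (by omega)
  have h4 := count_ge m
  have hch : Nat.choose 50 (6 - 1) = 2118760 := by decide +kernel
  rw [hch] at h3
  have hpos : (0 : ℝ) < ((2118760 : ℕ) : ℝ) * (((6 : ℕ) : ℝ) - 1) ^ ((m + m).choose 2) := by
    have : (((6 : ℕ) : ℝ) - 1) = 5 := by norm_num
    rw [this]; positivity
  rw [div_lt_iff₀ hpos] at h3
  have h5 : (m + m).choose 2 ≤ 2 * (m * m) := by
    rw [Nat.choose_two_right]
    have : (m + m) * (m + m - 1) ≤ (m + m) * (m + m) := Nat.mul_le_mul_left _ (Nat.sub_le _ _)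
    have h' : (m + m) * (m + m) = 4 * (m * m) := by ring
    omega
  have h6 : (((6 : ℕ) : ℝ) - 1) ^ ((m + m).choose 2) ≤ (25 : ℝ) ^ (m * m) := by
    have : (((6 : ℕ) : ℝ) - 1) = 5 := by norm_num
    rw [this]
    calc (5 : ℝ) ^ ((m + m).choose 2) ≤ 5 ^ (2 * (m * m)) :=
          pow_le_pow_right₀ (by norm_num) h5
      _ = 25 ^ (m * m) := by rw [pow_mul]; norm_num
  have h7 : (2 : ℝ) ^ 25 ≤ 2 ^ (m * m) := by
    apply pow_le_pow_right₀ (by norm_num)
    have : 5 ≤ m := by omega
    nlinarith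
  have h8 : ((50 ^ (m * m) : ℕ) : ℝ) = 2 ^ (m * m) * 25 ^ (m * m) := by
    push_cast
    rw [← mul_pow]; norm_num
  have h9 : ((50 ^ (m * m) : ℕ) : ℝ) ≤ _ := Nat.cast_le.mpr h4
  have h10 : (0 : ℝ) < 25 ^ (m * m) := by positivity
  have h11 := lt_of_le_of_lt h9 h3
  rw [h8] at h11
  push_cast at h11 h6
  nlinarith

end Pool.Agent.S07114
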