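import Pool.Statements.S07181
import Pool.Agent.H7.Count

set_option autoImplicit false
open Pool Pool.MP_0dd31c_co

namespace Pool.Agent.S07181

open Finset

theorem core (n : ℕ) (β d : ℝ) (hβ : 0 < β) (hd : 4 * d ≤ (2 - β) * β ^ n)
    (F : Finset (Finset ℕ)) (hF : ∀ A ∈ F, A.card = n + 1)
    (hD : ∀ v : ℕ, ((F.filter (fun A => v ∈ A)).card : ℝ) ≤ d) :
    ∃ R : Finset ℕ, R ⊆ F.biUnion id ∧ R.card = (F.biUnion id).card / 2 ∧
      ∀ A ∈ F, (A ∩ R).Nonempty ∧ ¬ A ⊆ R := by
  classical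
  set V := F.biUnion id with hV
  obtain ⟨ix, hlt, hinj⟩ : ∃ ix : ℕ → ℕ, (∀ x ∈ V, ix x < V.card) ∧ Set.InjOn ix V := by
    refine ⟨fun x => if h : x ∈ V then (V.equivFin ⟨x, h⟩).val else 0, fun x hx => ?_,
      fun x hx y hy e => ?_⟩
    · simp only [hx, dif_pos]; exact Fin.is_lt _
    · have hx' : x ∈ V := hx
      have hy' : y ∈ V := hy
      simp only [hx', hy', dif_pos] at e
      exact congrArg Subtype.val (V.equivFin.injective (Fin.ext e))
  have hAV : ∀ A ∈ F, A ⊆ V := fun A hA => subset_biUnion_of_mem id hA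
  have hd0 : 0 ≤ d := le_trans (Nat.cast_nonneg _) (hD 0)
  obtain ⟨T, hT⟩ := Pool.Agent.H7.Count.exists_good
    ((F.filter (fun A : Finset ℕ => Set.InjOn (fun x => ix x / 2) A)) ×ˢ (range 2))
    (fun k => k.1.image (fun x => ix x / 2))
    (fun k => (k.1.filter (fun x => ix x % 2 = k.2)).image (fun x => ix x / 2)) n β hβ
    (fun k hk => by
      obtain ⟨h1, h2⟩ := mem_filter.1 (mem_product.1 hk).1
      rw [card_image_of_injOn h2, hF _ h1])
    (fun v => by
      refine le_trans ?_ hd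
      have h1 : (V.filter (fun x => ix x / 2 = v)).card ≤ ({2 * v, 2 * v + 1} : Finset ℕ).card :=
        card_le_card_of_injOn ix (fun x hx => by
          have := (mem_filter.1 hx).2
          simp only [coe_insert, coe_singleton, Set.mem_insert_iff, Set.mem_singleton_iff]
          omega) (hinj.mono (fun x hx => (mem_filter.1 hx).1))
      have h2 : ((V.filter (fun x => ix x / 2 = v)).card : ℝ) ≤ 2 := by
        exact_mod_cast h1.trans card_le_two
      have h3 : (((V.filter (fun x => ix x / 2 = v)).biUnion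
          (fun x => F.filter (fun A => x ∈ A))).card : ℝ) ≤ 2 * d := by
        refine le_trans (Nat.cast_le.2 card_biUnion_le) ?_
        push_cast
        refine (sum_le_card_nsmul _ _ d (fun x _ => hD x)).trans ?_
        rw [nsmul_eq_mul]
        exact mul_le_mul_of_nonneg_right h2 hd0
      refine le_trans (Nat.cast_le.2 (card_le_card (t := ((V.filter (fun x => ix x / 2 = v)).biUnion
          (fun x => F.filter (fun A => x ∈ A))) ×ˢ (range 2)) fun k hk => ?_)) ?_
      · obtain ⟨h4, h5⟩ := mem_filter.1 hk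
        obtain ⟨x, hx, e⟩ := mem_image.1 h5
        obtain ⟨h6, h7⟩ := mem_product.1 h4
        have h8 := (mem_filter.1 h6).1
        exact mem_product.2 ⟨mem_biUnion.2 ⟨x, mem_filter.2 ⟨hAV _ h8 hx, e⟩,
          mem_filter.2 ⟨h8, hx⟩⟩, h7⟩
      · rw [card_product, card_range]; push_cast; linarith)
  have key : ∀ r < 2, ∀ A ∈ F, ¬ A ⊆ V.filter (fun x => ix x / 2 ∈ T ↔ ix x % 2 = r) := by
    intro r hr A hA hs
    have hs' : ∀ x ∈ A, (ix x / 2 ∈ T ↔ ix x % 2 = r) := fun x hx => (mem_filter.1 (hs hx)).2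
    refine hT (A, r) (mem_product.2 ⟨mem_filter.2 ⟨hA, fun x hx y hy e => ?_⟩, mem_range.2 hr⟩) ?_
    · have e' : ix x / 2 = ix y / 2 := e
      have h1 := hs' x hx
      have h2 := hs' y hy
      rw [e', h2] at h1
      exact hinj (hAV A hA hx) (hAV A hA hy) (by omega)
    · ext j
      simp only [mem_inter, mem_image, mem_filter]
      constructor
      · rintro ⟨h1, x, hx, rfl⟩
        exact ⟨x, ⟨hx, (hs' x hx).1 h1⟩, rfl⟩
      · rintro ⟨x, ⟨hx, h1⟩, rfl⟩
        exact ⟨(hs' x hx).2 h1, x, hx, rfl⟩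
  have hc : ∀ r < 2, (V.filter (fun x => ix x / 2 ∈ T ↔ ix x % 2 = r)).card ≤ (V.card + 1) / 2 := by
    intro r hr
    rw [← card_range ((V.card + 1) / 2)]
    refine card_le_card_of_injOn (fun x => ix x / 2) (fun x hx => ?_) (fun x hx y hy e => ?_)
    · have := hlt x (mem_filter.1 hx).1
      simp only [coe_range, Set.mem_Iio]; omega
    · have e' : ix x / 2 = ix y / 2 := e
      obtain ⟨h0, h1⟩ := mem_filter.1 hx
      obtain ⟨h3, h2⟩ := mem_filter.1 hy
      rw [e', h2] at h1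
      exact hinj h0 h3 (by omega)
  have hneg : ∀ r < 2, ∀ x, ¬ (ix x / 2 ∈ T ↔ ix x % 2 = r) ↔
      (ix x / 2 ∈ T ↔ ix x % 2 = 1 - r) := by
    intro r hr x
    by_cases h : ix x / 2 ∈ T <;> simp only [h, true_iff, false_iff, not_not] <;> omega
  have fin : ∀ r < 2, ∀ A ∈ F, (A ∩ V.filter (fun x => ix x / 2 ∈ T ↔ ix x % 2 = r)).Nonempty := by
    intro r hr A hA
    by_contra h
    refine key (1 - r) (by omega) A hA (fun x hx => mem_filter.2 ⟨hAV A hA hx, ?_⟩)
    exact (hneg r hr x).1 (fun h' => h ⟨x, mem_inter.2 ⟨hx, mem_filter.2 ⟨hAV A hA hx, h'⟩⟩⟩)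
  have hs := card_filter_add_card_filter_not (s := V) (fun x => ix x / 2 ∈ T ↔ ix x % 2 = 0)
  simp only [hneg 0 (by norm_num)] at hs
  have c0 := hc 0 (by norm_num)
  have c1 := hc 1 (by norm_num)
  by_cases e : (V.filter (fun x => ix x / 2 ∈ T ↔ ix x % 2 = 0)).card = V.card / 2
  · exact ⟨_, filter_subset _ _, e, fun A hA => ⟨fin 0 (by norm_num) A hA, key 0 (by norm_num) A hA⟩⟩
  · exact ⟨_, filter_subset _ _, by simp only [Nat.sub_zero] at hs; omega,
      fun A hA => ⟨fin 1 (by norm_num) A hA, key 1 (by norm_num) A hA⟩⟩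

/-- For every c in (1,2) there is n0 such that for n ≥ n0 every n-uniform finite hypergraph with all degrees at most c^n has a red set of exactly half (floor) of its vertices such that no edge is all red or all blue. -/
theorem result :
    ∀ c : ℝ, 1 < c → c < 2 →
      ∃ n₀ : ℕ, ∀ n : ℕ, n₀ ≤ n →
        ∀ F : Finset (Finset ℕ),
          (∀ A ∈ F, A.card = n) →
          (∀ v : ℕ, ((F.filter (fun A => v ∈ A)).card : ℝ) ≤ c ^ n) →
          ∃ R : Finset ℕ, R ⊆ F.biUnion id ∧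
            R.card = (F.biUnion id).card / 2 ∧
            ∀ A ∈ F, (A ∩ R).Nonempty ∧ ¬ A ⊆ R := by
  intro c h1 h2
  have hβ : 0 < (c + 2) / 2 := by linarith
  have ht := tendsto_pow_atTop_nhds_zero_of_lt_one (r := c / ((c + 2) / 2)) (by positivity)
    (by rw [div_lt_one hβ]; linarith)
  obtain ⟨N, hN⟩ := Filter.eventually_atTop.1 (ht.eventually_le_const
    (show (0 : ℝ) < (2 - (c + 2) / 2) / 8 by linarith))
  refine ⟨N + 1, fun n hn F hF hD => ?_⟩
  obtain ⟨m, rfl⟩ : ∃ m, n = m + 1 := ⟨n - 1, by omega⟩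
  refine core m ((c + 2) / 2) _ hβ ?_ F hF hD
  have h3 := hN m (by omega)
  rw [div_pow, div_le_iff₀ (pow_pos hβ m)] at h3
  have h4 : 0 < c ^ m := by positivity
  rw [pow_succ]
  nlinarith

end Pool.Agent.S07181
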