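import Pool.Statements.S07220
-- import your own Pool.Agent.* helpers here

set_option autoImplicit false
open Pool Pool.MP_0fb6b1_co

namespace Pool.Agent.S07220

def core : Fin 3 → Finset ℕ
  | 0 => {0, 1, 2}
  | 1 => {0, 3, 4}
  | 2 => {1, 5, 6}

def mem (u : ℕ) (x : Fin 3 × ℕ) : Finset ℕ := core x.1 ∪ Finset.Ico (7 + x.2) (7 + x.2 + (u + 1))

lemma core_lt (a : Fin 3) (y : ℕ) (h : y ∈ core a) : y < 7 := by
  fin_cases a <;> simp [core] at h <;> omega

lemma core_card (a : Fin 3) : (core a).card = 3 := by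
  fin_cases a <;> decide

lemma mem_small (u : ℕ) (x : Fin 3 × ℕ) (y : ℕ) (hy : y < 7) : y ∈ mem u x ↔ y ∈ core x.1 := by
  simp only [mem, Finset.mem_union, Finset.mem_Ico]
  constructor
  · rintro (h | h)
    · exact h
    · omega
  · intro h; exact Or.inl h

lemma mem_big (u : ℕ) (x : Fin 3 × ℕ) (y : ℕ) (hy : 7 ≤ y) :
    y ∈ mem u x ↔ 7 + x.2 ≤ y ∧ y < 7 + x.2 + (u + 1) := by
  simp only [mem, Finset.mem_union, Finset.mem_Ico]
  constructor
  · rintro (h | h)
    · have := core_lt _ _ h; omega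
    · exact h
  · intro h; exact Or.inr h

lemma mem_card (u : ℕ) (x : Fin 3 × ℕ) : (mem u x).card = u + 4 := by
  unfold mem
  rw [Finset.card_union_of_disjoint, core_card, Nat.card_Ico]
  · omega
  · rw [Finset.disjoint_left]
    intro y h1 h2
    have := core_lt _ _ h1
    simp only [Finset.mem_Ico] at h2
    omega

lemma mem_inj (u : ℕ) : Function.Injective (mem u) := by
  rintro ⟨a, j⟩ ⟨b, k⟩ h
  have h1 : ∀ y, y < 7 → (y ∈ core a ↔ y ∈ core b) := by
    intro y hy
    have e1 := mem_small u (a, j) y hy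
    have e2 := mem_small u (b, k) y hy
    rw [← e1, ← e2, h]
  have h2 : ∀ y, 7 ≤ y → ((7 + j ≤ y ∧ y < 7 + j + (u + 1)) ↔ (7 + k ≤ y ∧ y < 7 + k + (u + 1))) := by
    intro y hy
    have e1 := mem_big u (a, j) y hy
    have e2 := mem_big u (b, k) y hy
    rw [← e1, ← e2, h]
  have hjk : j = k := by
    have := (h2 (7 + j) (by omega)).1 (by omega)
    have := (h2 (7 + k) (by omega)).2 (by omega)
    omega
  have hab : a = b := by
    have t2 := h1 2 (by omega)
    have t3 := h1 3 (by omega)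
    fin_cases a <;> fin_cases b <;> simp [core] at t2 t3 ⊢
  rw [hjk, hab]

lemma bad (u i j k : ℕ) (x : Fin 3 × ℕ) :
    mem u x ∩ mem u (0, i) ≠ (mem u (1, j) ∩ mem u (0, i)) ∪ (mem u (2, k) ∩ mem u (0, i)) := by
  intro h
  have key : ∀ y, y < 7 → ((y ∈ core x.1 ∧ y ∈ core 0) ↔
      ((y ∈ core 1 ∧ y ∈ core 0) ∨ (y ∈ core 2 ∧ y ∈ core 0))) := by
    intro y hy
    have : y ∈ mem u x ∩ mem u (0, i) ↔
        y ∈ (mem u (1, j) ∩ mem u (0, i)) ∪ (mem u (2, k) ∩ mem u (0, i)) := by rw [h]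
    simpa only [Finset.mem_inter, Finset.mem_union, mem_small u _ y hy] using this
  have k0 := key 0 (by omega)
  have k1 := key 1 (by omega)
  have k2 := key 2 (by omega)
  obtain ⟨a, l⟩ := x
  fin_cases a <;> simp [core] at k0 k1 k2


/-- The negation of the preceding statement: There is a constant K such that, for every family F of w-element sets with at least K^w members, the fraction of triples (S,S1,S2) from F for which some T in F has T∩S=(S1∩S)∪(S2∩S) tends to 1 as w grows, uniformly in F. -/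
theorem result :
    ¬ (∃ K : ℝ, ∀ ε : ℝ, 0 < ε → ∃ W : ℕ, ∀ w : ℕ, W ≤ w →
      ∀ F : Finset (Finset ℕ), (∀ A ∈ F, A.card = w) → K ^ w ≤ (F.card : ℝ) →
        (1 - ε) * (F.card : ℝ) ^ 3 ≤
          (((F ×ˢ F ×ˢ F).filter
            (fun p : Finset ℕ × Finset ℕ × Finset ℕ =>
              ∃ T ∈ F, T ∩ p.1 = (p.2.1 ∩ p.1) ∪ (p.2.2 ∩ p.1))).card : ℝ)) := by
  classical
  rintro ⟨K, hK⟩
  obtain ⟨W, hW⟩ := hK (1 / 54) (by norm_num)
  obtain ⟨M0, hM0⟩ := exists_nat_ge (K ^ (W + 4))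
  set M := M0 + 1 with hM
  set D : Finset (Fin 3 × ℕ) := Finset.univ ×ˢ Finset.range M with hD
  set F : Finset (Finset ℕ) := D.image (mem W) with hF
  have hFc : F.card = 3 * M := by
    rw [hF, Finset.card_image_of_injective _ (mem_inj W), hD, Finset.card_product]
    simp
  have h := hW (W + 4) (by omega) F
    (by
      intro A hA
      obtain ⟨x, -, rfl⟩ := Finset.mem_image.1 hA
      exact mem_card W x)
    (by
      rw [hFc]; push_cast
      have : (0 : ℝ) ≤ M0 := Nat.cast_nonneg _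
      rw [hM]; push_cast; linarith)
  set G := (F ×ˢ F ×ˢ F).filter
            (fun p : Finset ℕ × Finset ℕ × Finset ℕ =>
              ∃ T ∈ F, T ∩ p.1 = (p.2.1 ∩ p.1) ∪ (p.2.2 ∩ p.1)) with hG
  set B : Finset (Finset ℕ × Finset ℕ × Finset ℕ) :=
    (Finset.range M ×ˢ Finset.range M ×ˢ Finset.range M).image
      (fun t => (mem W (0, t.1), mem W (1, t.2.1), mem W (2, t.2.2))) with hB
  have hBc : B.card = M ^ 3 := by
    rw [hB, Finset.card_image_of_injective]
    · simp [Finset.card_product]; ring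
    · rintro ⟨a, b, c⟩ ⟨a', b', c'⟩ e
      simp only [Prod.mk.injEq] at e
      obtain ⟨e1, e2, e3⟩ := e
      have f1 := mem_inj W e1
      have f2 := mem_inj W e2
      have f3 := mem_inj W e3
      simp only [Prod.mk.injEq, true_and] at f1 f2 f3
      rw [f1, f2, f3]
  have hin : ∀ (a : Fin 3) (i : ℕ), i < M → mem W (a, i) ∈ F := by
    intro a i hi
    exact Finset.mem_image.2 ⟨(a, i), by simp [hD, hi], rfl⟩
  have hdisj : Disjoint G B := by
    rw [Finset.disjoint_left]
    intro p hp hpB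
    obtain ⟨⟨i, j, k⟩, -, rfl⟩ := Finset.mem_image.1 hpB
    obtain ⟨-, T, hT, e⟩ := Finset.mem_filter.1 hp
    obtain ⟨x, -, rfl⟩ := Finset.mem_image.1 hT
    exact bad W i j k x e
  have hsub : G ∪ B ⊆ F ×ˢ F ×ˢ F := by
    apply Finset.union_subset (Finset.filter_subset _ _)
    intro p hpB
    obtain ⟨⟨i, j, k⟩, ht, rfl⟩ := Finset.mem_image.1 hpB
    simp only [Finset.mem_product, Finset.mem_range] at ht ⊢
    exact ⟨hin _ _ ht.1, hin _ _ ht.2.1, hin _ _ ht.2.2⟩
  have hle := Finset.card_le_card hsub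
  rw [Finset.card_union_of_disjoint hdisj, hBc, Finset.card_product, Finset.card_product, hFc] at hle
  have hle' : (G.card : ℝ) + (M : ℝ) ^ 3 ≤ (3 * M) * ((3 * M) * (3 * M)) := by exact_mod_cast hle
  rw [hFc] at h
  push_cast at h
  have hMpos : (0 : ℝ) < M := by rw [hM]; positivity
  have : (0 : ℝ) < (M : ℝ) ^ 3 := by positivity
  nlinarith

end Pool.Agent.S07220
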