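import Pool.Statements.S07263
import Pool.Agent.H17.AMM2

set_option autoImplicit false
open Pool Pool.MP_127f79_co

namespace Pool.Agent.S07263

open Pool.Agent.H17.AMM Matrix Finset in
/-- For every connected distance-regular graph other than K2 whose distance-i graphs are all connected, the sum of Schur squares of the adjacency matrix's spectral idempotents has rank equal to the number of vertices. -/
theorem result :
    ∀ (V : Type) [Fintype V] [DecidableEq V] (G : SimpleGraph V) [DecidableRel G.Adj],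
      G.Connected →
      (∀ u v u' v' : V, G.dist u v = G.dist u' v' → ∀ j k : ℕ,
        (Finset.univ.filter (fun w => G.dist u w = j ∧ G.dist v w = k)).card =
        (Finset.univ.filter (fun w => G.dist u' w = j ∧ G.dist v' w = k)).card) →
      (∀ i : ℕ, 1 ≤ i → i ≤ G.diam →
        (SimpleGraph.fromRel (fun u v : V => G.dist u v = i)).Connected) →
      Fintype.card V ≠ 2 →
      ∀ (s : Finset ℝ) (E : ℝ → Matrix V V ℝ),
        (∀ θ ∈ s, E θ * E θ = E θ) →
        (∀ θ ∈ s, ∀ θ' ∈ s, θ ≠ θ' → E θ * E θ' = 0) →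
        (∑ θ ∈ s, E θ) = 1 →
        G.adjMatrix ℝ = ∑ θ ∈ s, θ • E θ →
        (∑ θ ∈ s, Matrix.hadamard (E θ) (E θ)).rank = Fintype.card V := by
  intro V _ _ G _ hc hd hp hn s E h1 h2 h3 h4
  have h := reg_of hc hd
  have S : Sp G s E := ⟨h1, h2, h3, h4⟩
  set M := ∑ θ ∈ s, (E θ).hadamard (E θ) with hM
  have M1 : M ∈ DD h := S.hmem h
  let f : DD h →ₗ[ℝ] DD h := LinearMap.mulLeft ℝ ⟨M, M1⟩
  suffices inj : Function.Injective f by
    obtain ⟨X, hX⟩ := LinearMap.injective_iff_surjective.1 inj 1
    exact rank_of_isUnit _ (IsUnit.of_mul_eq_one X.1 (congrArg Subtype.val hX))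
  rw [injective_iff_map_eq_zero]
  rintro ⟨P, hP⟩ e
  have e0 : M * P = 0 := congrArg Subtype.val e
  by_contra ne
  have sy : ∀ a b, P a b = P b a := fun a b => hP _ _ _ _ G.dist_comm
  have Q1 : P * P ∈ DD h := mul_mem hP hP
  have Q2 : ∀ a b, (P * P) a b = ∑ w, P a w * P b w := fun a b => by
    rw [mul_apply]; exact sum_congr rfl fun w _ => by rw [sy w b]
  have Q3 : ∀ a b, (P * P) a a = (P * P) b b := fun a b => Q1 _ _ _ _ (by simp)
  have Q4 : ∀ (ε : ℝ) a b, ε * ε = 1 → (P * P) a b = ε * (P * P) a a → P b = ε • P a := by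
    intro ε a b h1 h2
    have : ∑ w, (P b w - ε * P a w) ^ 2 = 0 := by
      have : ∀ w, (P b w - ε * P a w) ^ 2 =
          P b w * P b w - 2 * ε * (P a w * P b w) + ε * ε * (P a w * P a w) := fun w => by ring
      simp only [this, sum_add_distrib, sum_sub_distrib, ← mul_sum, ← Q2]
      rw [h2, Q3 b a]
      linear_combination (- (P * P) a a) * h1
    funext w
    have := (sum_eq_zero_iff_of_nonneg fun _ _ => by positivity).1 this w (mem_univ _)
    simpa [sub_eq_zero] using this
  have : Nonempty V := hc.nonempty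
  have dl : ∀ a b, G.dist a b ≤ G.diam := fun a b =>
    SimpleGraph.dist_le_diam (SimpleGraph.connected_iff_ediam_ne_top.1 hc)
  have K : ∀ a b, G.dist a b = G.diam → P b = - P a := fun a b e => by
    have := S.key h Q1 (by rw [← mul_assoc, e0, zero_mul]) a b fun c => e ▸ dl a c
    rw [← neg_one_smul ℝ]
    exact Q4 (-1) a b (by norm_num) (by rw [Q1 a b b a G.dist_comm, this, neg_one_mul])
  have N : ∀ a, P a ≠ 0 := fun a e => ne (Subtype.ext (by
    ext b c
    have h5 : ∑ w, P b w * P b w = 0 := by rw [← Q2, Q3 b a, Q2, e]; simp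
    have := (sum_eq_zero_iff_of_nonneg fun _ _ => mul_self_nonneg _).1 h5 c (mem_univ _)
    simpa using this))
  have N2 : ∀ a, P a ≠ - P a := fun a e => N a (funext fun w => by
    have := congrFun e w
    simp only [Pi.neg_apply, Pi.zero_apply] at this ⊢
    linarith)
  obtain ⟨x, z, hxz⟩ := G.exists_dist_eq_diam
  have d1 : 1 ≤ G.diam := by
    by_contra hc'
    exact N2 x (K x x (by simp; omega))
  have walk : ∀ (i : ℕ) (R : V → V → Prop), 1 ≤ i → i ≤ G.diam → (∀ a, R a a) →
      (∀ a b c, G.dist a b = i → R b c → R a c) → ∀ a b, R a b := by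
    intro i R i1 i2 r1 r2 a b
    obtain ⟨p⟩ := (hp i i1 i2).1 a b
    induction p with
    | nil => exact r1 _
    | cons e _ ih =>
      rw [SimpleGraph.fromRel_adj] at e
      exact r2 _ _ _ (e.2.elim id fun e' => G.dist_comm.trans e') ih
  have pm : ∀ a b, P b = P a ∨ P b = - P a := walk _ _ d1 le_rfl (fun _ => Or.inl rfl)
    fun a b c e r => by
      rw [K a b e, neg_neg] at r; exact r.symm
  have ng : ∀ a b, a ≠ b → P b = - P a := fun a b e => (pm a b).resolve_left fun e' => by
    have := walk (G.dist a b) (fun a b => P b = P a) (hc.pos_dist_of_ne e) (dl a b) (fun _ => rfl)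
      (fun u v c e2 r => by
        rw [r, ← one_smul ℝ (P u)]
        refine Q4 1 u v (by norm_num) ?_
        rw [Q1 u v a b e2, one_mul, Q3 u a, Q2, Q2, e']) x z
    exact N2 x (this.symm.trans (K x z hxz))
  have xz : x ≠ z := fun e => by rw [e] at hxz; simp at hxz; omega
  obtain ⟨w, hw⟩ : ∃ w, w ∉ ({x, z} : Finset V) := by
    by_contra hw
    push Not at hw
    exact hn (by rw [← card_univ, ← eq_univ_iff_forall.2 hw, card_pair xz])
  simp only [mem_insert, mem_singleton, not_or] at hw
  have a1 := ng w x hw.1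
  have a2 := ng w z hw.2
  exact N2 x ((a1.trans a2.symm).trans (ng x z xz))

end Pool.Agent.S07263
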