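import Pool.Statements.S07275
import Pool.Agent.H4.PST2

set_option autoImplicit false
open Pool Pool.MP_12e063_co

namespace Pool.Agent.S07275

/-- There are constants C,k such that arbitrarily large connected simple graphs exist with at most C·diam^k vertices, each having perfect state transfer: for some distinct u,v and time t, the (u,v) entry of exp(-itA) has modulus 1. -/
theorem result :
    ∃ C k : ℕ, ∀ N : ℕ, ∃ (n : ℕ) (G : SimpleGraph (Fin n)) (_ : DecidableRel G.Adj),
      N < n ∧ G.Connected ∧ n ≤ C * G.diam ^ k ∧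
      ∃ (u v : Fin n) (t : ℝ), u ≠ v ∧
        ‖∑' m : ℕ, ((-(t : ℂ) * Complex.I) ^ m / (m.factorial : ℂ)) *
            ((G.adjMatrix ℂ) ^ m) u v‖ = 1 := by
  refine ⟨128, 2, fun N => ?_⟩
  have hn : 1 ≤ N + 1 := by omega
  set n := N + 1 with hndef
  let e := (Fintype.equivFin (Pool.Agent.H4.PST.W n × Bool)).symm
  let G := (Pool.Agent.H4.PST.GG n).comap e
  have hconn : G.Connected :=
    (SimpleGraph.Iso.connected_iff (SimpleGraph.Iso.comap e (Pool.Agent.H4.PST.GG n))).mpr
      (Pool.Agent.H4.PST.GG_connected n hn)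
  have hc := Pool.Agent.H4.PST.GG_card n
  have hle := Pool.Agent.H4.PST.card_W_le n hn
  have hge := Pool.Agent.H4.PST.card_W_ge n
  have hdiam : n ≤ G.diam := by
    have := Pool.Agent.H4.PST.lip_diam G hconn (fun p => Pool.Agent.H4.PST.idx (e p).1)
      (fun u v huv => Pool.Agent.H4.PST.GG_lip n _ _ huv)
      (e.symm (Pool.Agent.H4.PST.rep n (2 * n) (by omega) le_rfl, false))
      (e.symm (Pool.Agent.H4.PST.rep n 1 le_rfl (by omega), false))
    have h1 : Pool.Agent.H4.PST.idx (Pool.Agent.H4.PST.rep n (2 * n) (by omega) le_rfl) = 2 * n := rfl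
    have h2 : Pool.Agent.H4.PST.idx (Pool.Agent.H4.PST.rep n 1 le_rfl (by omega)) = 1 := rfl
    simp only [Equiv.apply_symm_apply, h1, h2] at this
    omega
  refine ⟨Fintype.card (Pool.Agent.H4.PST.W n × Bool), G,
    Classical.decRel _,
    by omega, hconn, ?_, e.symm (Pool.Agent.H4.PST.root n hn, true),
    e.symm (Pool.Agent.H4.PST.root n hn, false), -(Real.pi / 2), by simp, ?_⟩
  · have : n ^ 2 ≤ G.diam ^ 2 := Nat.pow_le_pow_left hdiam 2
    omega
  · have hsub := @Pool.Agent.H4.PST.comap_pow _ _ _ _ _ _ (Pool.Agent.H4.PST.GG n) _ e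
      (Classical.decRel _)
    have hs := Pool.Agent.H4.ExpEigen.hasSum_entry
      (Pool.Agent.H4.PST.cc • (Pool.Agent.H4.PST.GG n).adjMatrix ℂ)
      (Pool.Agent.H4.PST.root n hn, true) (Pool.Agent.H4.PST.root n hn, false)
    have hv := congrFun (Pool.Agent.H4.PST.GG_pst n hn) (Pool.Agent.H4.PST.root n hn, true)
    rw [Matrix.mulVec_single_one, Pi.single_eq_same] at hv
    have hv' : NormedSpace.exp (Pool.Agent.H4.PST.cc • (Pool.Agent.H4.PST.GG n).adjMatrix ℂ)
      (Pool.Agent.H4.PST.root n hn, true) (Pool.Agent.H4.PST.root n hn, false) = Complex.I := hv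
    rw [hv'] at hs
    have hcc : (-(((-(Real.pi / 2) : ℝ)) : ℂ) * Complex.I) = Pool.Agent.H4.PST.cc := by
      unfold Pool.Agent.H4.PST.cc
      push_cast
      ring
    simp only [G, hsub, Equiv.apply_symm_apply, hcc]
    have hfun : (fun m : ℕ => Pool.Agent.H4.PST.cc ^ m / (m.factorial : ℂ) *
          (((Pool.Agent.H4.PST.GG n).adjMatrix ℂ) ^ m) (Pool.Agent.H4.PST.root n hn, true)
            (Pool.Agent.H4.PST.root n hn, false))
        = fun m : ℕ => ((m.factorial : ℂ)⁻¹) *
          ((Pool.Agent.H4.PST.cc • (Pool.Agent.H4.PST.GG n).adjMatrix ℂ) ^ m)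
            (Pool.Agent.H4.PST.root n hn, true) (Pool.Agent.H4.PST.root n hn, false) := by
      funext m
      rw [smul_pow, Matrix.smul_apply, smul_eq_mul]
      ring
    rw [hfun, hs.tsum_eq]
    simp

end Pool.Agent.S07275
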