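import Pool.Statements.S07324

set_option autoImplicit false
open Pool Pool.MP_15691b_co

namespace Pool.Agent.S07324

section gadget

theorem part {X Y : Type} [Inhabited Y] (r : X → Y → Prop) (h : ∀ x y y', r x y → r x y' → y = y')
    (x : X) : ∃ p, ∀ y, r x y → y = p := by
  by_cases hx : ∃ p, r x p
  · obtain ⟨p, hp⟩ := hx
    exact ⟨p, fun y hy => h x y p hy hp⟩
  · exact ⟨default, fun y hy => (hx ⟨y, hy⟩).elim⟩

theorem tri {Y Z : Type} (xy : Y → Prop) (xz : Z → Prop) (yz : Y → Z → Prop)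
    (hxz : ∀ z z', xz z → xz z' → z = z') (hyz : ∀ y y' z, yz y z → yz y' z → y = y')
    (y1 y2 : Y) (z1 z2 : Z) (hy : y1 ≠ y2) (hz : z1 ≠ z2) (n1 : ¬ xy y1) (n2 : ¬ xy y2) :
    ∃ y z, (y = y1 ∨ y = y2) ∧ (z = z1 ∨ z = z2) ∧ ¬ xy y ∧ ¬ xz z ∧ ¬ yz y z := by
  have k : ∀ z, (z = z1 ∨ z = z2) → ¬ xz z →
      ∃ y z, (y = y1 ∨ y = y2) ∧ (z = z1 ∨ z = z2) ∧ ¬ xy y ∧ ¬ xz z ∧ ¬ yz y z := by
    intro z h1 h2
    by_cases h : yz y1 z
    · exact ⟨y2, z, Or.inr rfl, h1, n2, h2, fun h' => hy (hyz _ _ _ h h')⟩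
    · exact ⟨y1, z, Or.inl rfl, h1, n1, h2, h⟩
  by_cases h : xz z1
  · exact k z2 (Or.inr rfl) (fun h' => hz (hxz _ _ h h'))
  · exact k z1 (Or.inl rfl) h

def Bi {X Y : Type} (r : X → Y → Prop) : Prop :=
  (∀ x y y', r x y → r x y' → y = y') ∧ (∀ y x x', r x y → r x' y → x = x')

theorem f42 : ∀ p q : Fin 4, ∃ u v : Fin 4, u ≠ v ∧ u ≠ p ∧ u ≠ q ∧ v ≠ p ∧ v ≠ q := by decide
theorem f43 : ∀ p q r : Fin 4, ∃ u : Fin 4, u ≠ p ∧ u ≠ q ∧ u ≠ r := by decide
theorem f32 : ∀ p q : Fin 3, ∃ u : Fin 3, u ≠ p ∧ u ≠ q := by decide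
theorem f31 : ∀ p : Fin 3, ∃ u v : Fin 3, u ≠ v ∧ u ≠ p ∧ v ≠ p := by decide
theorem f21 : ∀ p : Fin 2, ∃ u : Fin 2, u ≠ p := by decide

theorem gadget (ab : Fin 2 → Fin 2 → Prop) (ac bc : Fin 2 → Fin 3 → Prop) (bd : Fin 2 → Fin 4 → Prop)
    (cd : Fin 3 → Fin 4 → Prop) (ce : Fin 3 → Fin 3 → Prop) (de : Fin 4 → Fin 3 → Prop)
    (dg : Fin 4 → Fin 2 → Prop) (eg : Fin 3 → Fin 2 → Prop)
    (hab : Bi ab) (hac : Bi ac) (hbc : Bi bc) (hbd : Bi bd) (hcd : Bi cd) (hce : Bi ce)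
    (hde : Bi de) (hdg : Bi dg) (heg : Bi eg) :
    ∃ a b c d e g, ¬ ab a b ∧ ¬ ac a c ∧ ¬ bc b c ∧ ¬ bd b d ∧ ¬ cd c d ∧ ¬ ce c e ∧ ¬ de d e ∧
      ¬ dg d g ∧ ¬ eg e g := by
  by_contra hno
  have no : ∀ a b c, ¬ ab a b → ¬ ac a c → ¬ bc b c →
      (∃ d e g, ¬ bd b d ∧ ¬ cd c d ∧ ¬ ce c e ∧ ¬ de d e ∧ ¬ dg d g ∧ ¬ eg e g) → False :=
    fun a b c h1 h2 h3 ⟨d, e, g, h⟩ => hno ⟨a, b, c, d, e, g, h1, h2, h3, h⟩
  obtain ⟨p0, hp0⟩ := part (fun g e => eg e g) heg.2 0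
  obtain ⟨p1, hp1⟩ := part (fun g e => eg e g) heg.2 1
  obtain ⟨e0, k0, k1⟩ := f32 p0 p1
  have E1 : ∀ b c, ¬ ce c e0 →
      ∃ d e g, ¬ bd b d ∧ ¬ cd c d ∧ ¬ ce c e ∧ ¬ de d e ∧ ¬ dg d g ∧ ¬ eg e g := by
    intro b c hc
    obtain ⟨p, hp⟩ := part bd hbd.1 b
    obtain ⟨q, hq⟩ := part cd hcd.1 c
    obtain ⟨u, v, m0, m1, m2, m3, m4⟩ := f42 p q
    obtain ⟨g, d, -, hd, t1, t2, t3⟩ := tri (eg e0) (fun d => de d e0) (fun g d => dg d g)
      (hde.2 e0) (fun g g' d => hdg.1 d g g') 0 1 u v (by decide) m0 (fun h => k0 (hp0 _ h))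
      (fun h => k1 (hp1 _ h))
    refine ⟨d, e0, g, fun h => ?_, fun h => ?_, hc, t2, t3, t1⟩
    · rcases hd with rfl | rfl
      · exact m1 (hp _ h)
      · exact m3 (hp _ h)
    · rcases hd with rfl | rfl
      · exact m2 (hq _ h)
      · exact m4 (hq _ h)
  have E2 : ∀ b c d, ¬ bd b d → ¬ cd c d → ¬ dg d 0 → ¬ dg d 1 →
      ∃ d e g, ¬ bd b d ∧ ¬ cd c d ∧ ¬ ce c e ∧ ¬ de d e ∧ ¬ dg d g ∧ ¬ eg e g := by
    intro b c d h1 h2 h3 h4
    obtain ⟨p, hp⟩ := part ce hce.1 c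
    obtain ⟨u, v, m0, m1, m2⟩ := f31 p
    obtain ⟨g, e, -, he, t1, t2, t3⟩ := tri (dg d) (de d) (fun g e => eg e g)
      (hde.1 d) (fun g g' e => heg.1 e g g') 0 1 u v (by decide) m0 h3 h4
    refine ⟨d, e, g, h1, h2, fun h => ?_, t2, t1, t3⟩
    rcases he with rfl | rfl
    · exact m1 (hp _ h)
    · exact m2 (hp _ h)
  obtain ⟨c0, hc0⟩ := part (fun e c => ce c e) hce.2 e0
  obtain ⟨c1, c2, n0, n1, n2⟩ := f31 c0
  have L : ∀ a b c, (c = c1 ∨ c = c2) → ¬ ab a b → ¬ ac a c → ¬ bc b c → False := by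
    intro a b c hc h1 h2 h3
    refine no a b c h1 h2 h3 (E1 b c fun h => ?_)
    rcases hc with rfl | rfl
    · exact n1 (hc0 _ h)
    · exact n2 (hc0 _ h)
  have LA : ∀ a, ¬ ac a c0 := by
    intro a h
    obtain ⟨c, b, hc, -, t1, t2, t3⟩ := tri (ac a) (ab a) (fun c b => bc b c) (hab.1 a)
      (fun c c' b => hbc.1 b c c') c1 c2 0 1 n0 (by decide) (fun h' => n1 (hac.1 a _ _ h' h))
      (fun h' => n2 (hac.1 a _ _ h' h))
    exact L a b c hc t2 t1 t3
  have LB : ∀ b, ¬ bc b c0 := by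
    intro b h
    obtain ⟨c, a, hc, -, t1, t2, t3⟩ := tri (bc b) (fun a => ab a b) (fun c a => ac a c) (hab.2 b)
      (fun c c' a => hac.1 a c c') c1 c2 0 1 n0 (by decide) (fun h' => n1 (hbc.1 b _ _ h' h))
      (fun h' => n2 (hbc.1 b _ _ h' h))
    exact L a b c hc t2 t3 t1
  obtain ⟨q0, hq0⟩ := part (fun g d => dg d g) hdg.2 0
  obtain ⟨q1, hq1⟩ := part (fun g d => dg d g) hdg.2 1
  obtain ⟨q2, hq2⟩ := part cd hcd.1 c0
  obtain ⟨d, s0, s1, s2⟩ := f43 q0 q1 q2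
  obtain ⟨pb, hpb⟩ := part (fun d b => bd b d) hbd.2 d
  obtain ⟨b, hb⟩ := f21 pb
  obtain ⟨pa, hpa⟩ := part (fun b a => ab a b) hab.2 b
  obtain ⟨a, ha⟩ := f21 pa
  exact no a b c0 (fun h => ha (hpa _ h)) (LA a) (LB b) (E2 b c0 d (fun h => hb (hpb _ h))
    (fun h => s2 (hq2 _ h)) (fun h => s0 (hq0 _ h)) (fun h => s1 (hq1 _ h)))

end gadget

abbrev Idx : Type := Bool → Equiv.Perm (Fin 8)

abbrev V : Type := Bool ⊕ (Idx × Fin 6)

def nb (p : Bool) (v : Fin 6) : Bool := if p then (v == 0 || v == 1 || v == 5) else !(v == 3)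

def ed (u v : Fin 6) : Bool :=
  u.val + 1 == v.val || u.val + 2 == v.val || v.val + 1 == u.val || v.val + 2 == u.val

theorem ed_symm : ∀ u v, ed u v = true → ed v u = true := by decide

theorem ed_irr : ∀ u, ed u u = false := by decide

def grel : V → V → Prop
  | .inl _, .inl _ => False
  | .inl p, .inr r => nb p r.2 = true
  | .inr r, .inl p => nb p r.2 = true
  | .inr r, .inr s => r.1 = s.1 ∧ ed r.2 s.2 = true

def G : SimpleGraph V where
  Adj := grel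
  symm := ⟨by
    rintro (p | r) (q | s) h
    · exact h
    · exact h
    · exact h
    · exact ⟨h.1.symm, ed_symm _ _ h.2⟩⟩
  loopless := ⟨by
    rintro (p | r) h
    · exact h
    · have := h.2
      rw [ed_irr] at this
      exact Bool.false_ne_true this⟩

def mt (u : Fin 6) (i : Fin 8) (v : Fin 6) (j : Fin 8) : Bool :=
  Nat.testBit 94184113889009793034316542957557802193361506843731304991964112794112728306525612600072773177261847112773694196829117322669887263932326535459093600963576292073537614776388613682395030908480444283945363293840182253247558088081859353490960906605311663584547473603256470993545293534340185167409035567828002737224071375659930372158857972585444042348517923404730317144989814575085787300300654135586859031234681828215884721161325428747120177237554267624856495108633446049494533937860282172202636967517654461627802304813816841281021736120061120140185768382775417213549629523858618660791462128347414247524069649804747771572414410377977615214694237642876993839142746828993727182652873623433048448449724100941696725282296350705825704834508001765501393114977117773759258010870231642611545655480575699180598623292744156589640110367167856987087648850176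 ((u.val * 8 + i.val) * 64 + (v.val * 8 + j.val))

theorem mt_symm : ∀ u i v j, mt u i v j = true → mt v j u i = true := by decide +kernel

theorem mt_ed : ∀ u i v j, mt u i v j = true → ed u v = true := by decide +kernel

theorem mt_uniq : ∀ u i v j, mt u i v j = true → ∀ k, mt u i v k = true → j = k := by
  decide +kernel

def ok (u : Fin 6) (i i' : Fin 8) (v : Fin 6) (j j' : Fin 8) : Bool :=
  !(mt u i v j) && !(mt u i v j') && !(mt u i' v j) && !(mt u i' v j')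

def w (n : ℕ) (a a' : Fin 8) : Bool := !(a == a') && decide (a.val < n) && decide (a'.val < n)

theorem w_of (n : ℕ) (a a' : Fin 8) (h : a ≠ a') (h1 : a.val < n) (h2 : a'.val < n) :
    w n a a' = true := by simp [w, h, h1, h2]

theorem blocked : ∀ a a' : Fin 8, w 4 a a' = true →
    ∀ b b' : Fin 8, (w 4 b b' && ok 0 a a' 1 b b') = true →
    ∀ c c' : Fin 8, (w 6 c c' && ok 0 a a' 2 c c' && ok 1 b b' 2 c c') = true →
    ∀ d d' : Fin 8, (w 8 d d' && ok 1 b b' 3 d d' && ok 2 c c' 3 d d') = true →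
    ∀ e e' : Fin 8, (w 6 e e' && ok 2 c c' 4 e e' && ok 3 d d' 4 e e') = true →
    ∀ g g' : Fin 8, (w 4 g g' && ok 3 d d' 5 g g' && ok 4 e e' 5 g g') = false := by
  decide +kernel

def hrel : V × Fin 8 → V × Fin 8 → Prop
  | (.inl _, _), (.inl _, _) => False
  | (.inl p, i), (.inr r, j) => nb p r.2 = true ∧ j = r.1 p i
  | (.inr r, j), (.inl p, i) => nb p r.2 = true ∧ j = r.1 p i
  | (.inr r, i), (.inr s, j) => r.1 = s.1 ∧ mt r.2 i s.2 j = true

def H8 : SimpleGraph (V × Fin 8) where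
  Adj := hrel
  symm := ⟨by
    rintro ⟨p | r, i⟩ ⟨q | s, j⟩ h
    · exact h
    · exact h
    · exact h
    · exact ⟨h.1.symm, mt_symm _ _ _ _ h.2⟩⟩
  loopless := ⟨by
    rintro ⟨p | r, i⟩ h
    · exact h
    · have := mt_ed _ _ _ _ h.2
      rw [ed_irr] at this
      exact Bool.false_ne_true this⟩

theorem perm2 : ∀ s t i j : Fin 8, s ≠ t → i ≠ j →
    (Equiv.swap (Equiv.swap i s j) t) ((Equiv.swap i s) i) = s ∧
    (Equiv.swap (Equiv.swap i s j) t) ((Equiv.swap i s) j) = t := by decide +kernel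

theorem two (s t : Fin 8) (h : s ≠ t) (F : Finset (Fin 8)) (hF : F.card = 2) :
    ∃ σ : Equiv.Perm (Fin 8), (∃ i ∈ F, s = σ i) ∧ (∃ i ∈ F, t = σ i) := by
  obtain ⟨i, j, hij, rfl⟩ := Finset.card_eq_two.1 hF
  obtain ⟨h1, h2⟩ := perm2 s t i j h hij
  exact ⟨(Equiv.swap i s).trans (Equiv.swap (Equiv.swap i s j) t), ⟨i, by simp, h1.symm⟩,
    ⟨j, by simp, h2.symm⟩⟩

theorem bad : ¬ ∃ f : V → Finset (Fin 8), (∀ v, (f v).card = 2) ∧
    ∀ (u v : V), ∀ i ∈ f u, ∀ j ∈ f v, ¬ H8.Adj (u, i) (v, j) := by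
  rintro ⟨f, hf, h⟩
  obtain ⟨σ, ⟨i6, m6, e6⟩, ⟨i7, m7, e7⟩⟩ := two 6 7 (by decide) _ (hf (.inl false))
  obtain ⟨τ, ⟨i4, m4, e4⟩, ⟨i5, m5, e5⟩⟩ := two 4 5 (by decide) _ (hf (.inl true))
  let ρ : Idx := fun p => if p then τ else σ
  have l6 : ∀ v, nb false v = true → ∀ j ∈ f (.inr (ρ, v)), j.val < 6 := by
    intro v hv j hj
    have a1 : j ≠ 6 := fun e => h (.inl false) _ i6 m6 j hj ⟨hv, e.trans e6⟩
    have a2 : j ≠ 7 := fun e => h (.inl false) _ i7 m7 j hj ⟨hv, e.trans e7⟩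
    omega
  have l4 : ∀ v, nb false v = true → nb true v = true → ∀ j ∈ f (.inr (ρ, v)), j.val < 4 := by
    intro v hv hv' j hj
    have a0 := l6 v hv j hj
    have a1 : j ≠ 4 := fun e => h (.inl true) _ i4 m4 j hj ⟨hv', e.trans e4⟩
    have a2 : j ≠ 5 := fun e => h (.inl true) _ i5 m5 j hj ⟨hv', e.trans e5⟩
    omega
  have pr : ∀ v : Fin 6, ∃ a a' : Fin 8, a ≠ a' ∧ a ∈ f (.inr (ρ, v)) ∧ a' ∈ f (.inr (ρ, v)) := by
    intro v
    obtain ⟨i, j, hij, e⟩ := Finset.card_eq_two.1 (hf (.inr (ρ, v)))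
    exact ⟨i, j, hij, by simp [e], by simp [e]⟩
  choose x y hxy hx hy using pr
  have k : ∀ u v, ok u (x u) (y u) v (x v) (y v) = true := by
    intro u v
    have z : ∀ i ∈ f (.inr (ρ, u)), ∀ j ∈ f (.inr (ρ, v)), mt u i v j = false := by
      intro i hi j hj
      by_contra hc
      exact h _ _ i hi j hj ⟨rfl, by simpa using hc⟩
    simp [ok, z _ (hx u) _ (hx v), z _ (hx u) _ (hy v), z _ (hy u) _ (hx v), z _ (hy u) _ (hy v)]
  have w0 := w_of 4 _ _ (hxy 0) (l4 0 rfl rfl _ (hx 0)) (l4 0 rfl rfl _ (hy 0))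
  have w1 := w_of 4 _ _ (hxy 1) (l4 1 rfl rfl _ (hx 1)) (l4 1 rfl rfl _ (hy 1))
  have w2 := w_of 6 _ _ (hxy 2) (l6 2 rfl _ (hx 2)) (l6 2 rfl _ (hy 2))
  have w3 := w_of 8 _ _ (hxy 3) (x 3).isLt (y 3).isLt
  have w4 := w_of 6 _ _ (hxy 4) (l6 4 rfl _ (hx 4)) (l6 4 rfl _ (hy 4))
  have w5 := w_of 4 _ _ (hxy 5) (l4 5 rfl rfl _ (hx 5)) (l4 5 rfl rfl _ (hy 5))
  have := blocked _ _ w0 (x 1) (y 1) (by rw [w1, k]; rfl) (x 2) (y 2) (by rw [w2, k, k]; rfl)
    (x 3) (y 3) (by rw [w3, k, k]; rfl) (x 4) (y 4) (by rw [w4, k, k]; rfl) (x 5) (y 5)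
  rw [w5, k, k] at this
  exact absurd this (by decide)

theorem inj2 : ∀ p q : Fin 4, ∃ e : Fin 2 → Fin 4, (∀ i j, e i = e j → i = j) ∧
    ∀ i, e i ≠ p ∧ e i ≠ q := by decide

theorem inj3 : ∀ p : Fin 4, ∃ e : Fin 3 → Fin 4, (∀ i j, e i = e j → i = j) ∧ ∀ i, e i ≠ p := by
  decide

theorem good (H : SimpleGraph (V × Fin 4)) (h1 : ∀ x y : V × Fin 4, H.Adj x y → G.Adj x.1 y.1)
    (h2 : ∀ (x : V × Fin 4) (v : V) (j k : Fin 4), H.Adj x (v, j) → H.Adj x (v, k) → j = k) :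
    ∃ f : V → Finset (Fin 4), (∀ v, (f v).card = 1) ∧
      ∀ (u v : V), ∀ i ∈ f u, ∀ j ∈ f v, ¬ H.Adj (u, i) (v, j) := by
  have key : ∀ ρ : Idx, ∃ col : Fin 6 → Fin 4,
      (∀ p v, ¬ H.Adj (.inl p, 0) (.inr (ρ, v), col v)) ∧
      ∀ u v, ¬ H.Adj (.inr (ρ, u), col u) (.inr (ρ, v), col v) := by
    intro ρ
    have pp : ∀ (p : Bool) (v : Fin 6), ∃ q, ∀ j, H.Adj (.inl p, 0) (.inr (ρ, v), j) → j = q :=
      fun p v => part (fun (x : V × Fin 4) j => H.Adj x (.inr (ρ, v), j))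
        (fun x j k => h2 x _ j k) _
    choose P hP using pp
    obtain ⟨ea, ia, ha⟩ := inj2 (P false 0) (P true 0)
    obtain ⟨eb, ib, hb⟩ := inj2 (P false 1) (P true 1)
    obtain ⟨ec, ic, hc⟩ := inj3 (P false 2)
    obtain ⟨ee, ie, he⟩ := inj3 (P false 4)
    obtain ⟨eg, ig, hg⟩ := inj2 (P false 5) (P true 5)
    have bi : ∀ (m n : ℕ) (u v : Fin 6) (s : Fin m → Fin 4) (t : Fin n → Fin 4),
        (∀ i j, s i = s j → i = j) → (∀ i j, t i = t j → i = j) →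
        Bi (fun i j => H.Adj (.inr (ρ, u), s i) (.inr (ρ, v), t j)) :=
      fun m n u v s t hs ht => ⟨fun _ _ _ a b => ht _ _ (h2 _ _ _ _ a b),
        fun _ _ _ a b => hs _ _ (h2 _ _ _ _ a.symm b.symm)⟩
    have id4 : ∀ i j : Fin 4, id i = id j → i = j := fun _ _ h => h
    obtain ⟨a, b, c, d, e, g, t1, t2, t3, t4, t5, t6, t7, t8, t9⟩ := gadget _ _ _ _ _ _ _ _ _
      (bi _ _ 0 1 ea eb ia ib) (bi _ _ 0 2 ea ec ia ic) (bi _ _ 1 2 eb ec ib ic)
      (bi _ _ 1 3 eb id ib id4) (bi _ _ 2 3 ec id ic id4) (bi _ _ 2 4 ec ee ic ie)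
      (bi _ _ 3 4 id ee id4 ie) (bi _ _ 3 5 id eg id4 ig) (bi _ _ 4 5 ee eg ie ig)
    refine ⟨![ea a, eb b, ec c, d, ee e, eg g], ?_, ?_⟩
    · intro p v h
      have z1 : nb p v = true := h1 _ _ h
      have z2 := hP _ _ _ h
      cases p <;> fin_cases v
      · exact (ha a).1 z2
      · exact (hb b).1 z2
      · exact hc c z2
      · exact absurd z1 (by decide)
      · exact he e z2
      · exact (hg g).1 z2
      · exact (ha a).2 z2
      · exact (hb b).2 z2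
      · exact absurd z1 (by decide)
      · exact absurd z1 (by decide)
      · exact absurd z1 (by decide)
      · exact (hg g).2 z2
    · intro u v h
      have z1 : ed u v = true := (h1 _ _ h).2
      fin_cases u <;> fin_cases v <;>
        first
        | exact absurd z1 (by decide)
        | exact t1 h | exact t2 h | exact t3 h | exact t4 h | exact t5 h | exact t6 h
        | exact t7 h | exact t8 h | exact t9 h
        | exact t1 h.symm | exact t2 h.symm | exact t3 h.symm | exact t4 h.symm | exact t5 h.symm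
        | exact t6 h.symm | exact t7 h.symm | exact t8 h.symm | exact t9 h.symm
  choose col c1 c2 using key
  refine ⟨fun v => match v with | .inl _ => {0} | .inr r => {col r.1 r.2}, ?_, ?_⟩
  · rintro (p | r) <;> simp
  · rintro (p | ⟨ρ, u⟩) (q | ⟨τ, v⟩) i hi j hj h <;> rw [Finset.mem_singleton] at hi hj <;>
      subst hi hj
    · exact h1 _ _ h
    · exact c1 _ _ _ h
    · exact c1 _ _ _ h.symm
    · obtain rfl : ρ = τ := (h1 _ _ h).1
      exact c2 _ _ _ h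

/-- The negation of the preceding statement: For every finite graph G and all a, b and t ≥ 1: if every a-fold DP cover of G has an independent transversal picking b vertices per fibre, then every at-fold DP cover has one picking bt vertices per fibre. -/
theorem result :
    ¬ (∀ (V : Type) [Fintype V] (G : SimpleGraph V) (a b t : ℕ), 1 ≤ t →
      (∀ H : SimpleGraph (V × Fin a),
          (∀ x y : V × Fin a, H.Adj x y → G.Adj x.1 y.1) →
          (∀ (x : V × Fin a) (v : V) (j k : Fin a), H.Adj x (v, j) → H.Adj x (v, k) → j = k) →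
          ∃ f : V → Finset (Fin a), (∀ v, (f v).card = b) ∧
            ∀ (u v : V), ∀ i ∈ f u, ∀ j ∈ f v, ¬ H.Adj (u, i) (v, j)) →
      (∀ H : SimpleGraph (V × Fin (a * t)),
          (∀ x y : V × Fin (a * t), H.Adj x y → G.Adj x.1 y.1) →
          (∀ (x : V × Fin (a * t)) (v : V) (j k : Fin (a * t)), H.Adj x (v, j) → H.Adj x (v, k) → j = k) →
          ∃ f : V → Finset (Fin (a * t)), (∀ v, (f v).card = b * t) ∧
            ∀ (u v : V), ∀ i ∈ f u, ∀ j ∈ f v, ¬ H.Adj (u, i) (v, j))) := by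
  intro h
  refine bad (h V G 4 1 2 (by norm_num) good H8 ?_ ?_)
  · rintro ⟨p | r, i⟩ ⟨q | s, j⟩ h
    · exact h
    · exact h.1
    · exact h.1
    · exact ⟨h.1, mt_ed _ _ _ _ h.2⟩
  · rintro ⟨p | r, i⟩ (q | s) j k a b
    · exact a.elim
    · exact a.2.trans b.2.symm
    · exact (r.1 q).injective (a.2.symm.trans b.2)
    · exact mt_uniq _ _ _ _ a.2 _ b.2

end Pool.Agent.S07324
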