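import Pool.Statements.S07344
import Pool.Agent.H5.SignRank

set_option autoImplicit false
open Pool Pool.MP_166f70_co

namespace Pool.Agent.S07344

open Pool.Agent.H5.SignRank in
theorem result :
    ¬ (∀ (m n r : ℕ) (A : Matrix (Fin m) (Fin n) SignType),
      3 ≤ r →
      (∃ B : Matrix (Fin m) (Fin n) ℝ,
          (∀ i j, SignType.sign (B i j) = A i j) ∧ B.rank = r) →
      (∀ B : Matrix (Fin m) (Fin n) ℝ,
          (∀ i j, SignType.sign (B i j) = A i j) → r ≤ B.rank) →
      (∀ j : Fin n, (Finset.univ.filter (fun i : Fin m => A i j = 0)).card ≤ r) →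
      ∃ C : Matrix (Fin m) (Fin n) ℚ,
        (∀ i j, SignType.sign (C i j) = A i j) ∧ C.rank = r) := by
  intro h
  exact rat_not (h 10 12 3 A le_rfl real_ex real_ge A_cols)

end Pool.Agent.S07344
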