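import Pool.Statements.S07369
import Pool.Agent.H12.Inv4

set_option autoImplicit false
open Pool Pool.MP_172ed5_co

namespace Pool.Agent.S07369

open Pool.Agent.H12.Inv

/-- There are tournaments D1, D2, each with inversion number equal to its tournament minimum rank (min over vertex orders of GF(2) minimum rank of the backward-arc graph), such that the dijoin D1→D2 has inversion number below inv(D1)+inv(D2). -/
theorem result :
  ∃ (n m : ℕ) (D₁ : Fin n → Fin n → Prop) (D₂ : Fin m → Fin m → Prop),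
    ((∀ u, ¬ D₁ u u) ∧ ∀ u v, u ≠ v → (D₁ u v ↔ ¬ D₁ v u)) ∧
    ((∀ u, ¬ D₂ u u) ∧ ∀ u v, u ≠ v → (D₂ u v ↔ ¬ D₂ v u)) ∧
    sInf {k : ℕ | ∃ X : Fin k → Finset (Fin n), ∃ f : Fin n → ℕ, ∀ u v,
        ((D₁ u v ∧ Even (Finset.univ.filter (fun i => u ∈ X i ∧ v ∈ X i)).card) ∨
         (D₁ v u ∧ Odd (Finset.univ.filter (fun i => u ∈ X i ∧ v ∈ X i)).card)) → f u < f v}
      = sInf {r : ℕ | ∃ f : Fin n → ℕ, Function.Injective f ∧
          ∃ M : Matrix (Fin n) (Fin n) (ZMod 2), M.IsSymm ∧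
            (∀ u v, u ≠ v → (M u v = 1 ↔ ((D₁ u v ∧ f v < f u) ∨ (D₁ v u ∧ f u < f v)))) ∧
            M.rank = r} ∧
    sInf {k : ℕ | ∃ X : Fin k → Finset (Fin m), ∃ f : Fin m → ℕ, ∀ u v,
        ((D₂ u v ∧ Even (Finset.univ.filter (fun i => u ∈ X i ∧ v ∈ X i)).card) ∨
         (D₂ v u ∧ Odd (Finset.univ.filter (fun i => u ∈ X i ∧ v ∈ X i)).card)) → f u < f v}
      = sInf {r : ℕ | ∃ f : Fin m → ℕ, Function.Injective f ∧
          ∃ M : Matrix (Fin m) (Fin m) (ZMod 2), M.IsSymm ∧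
            (∀ u v, u ≠ v → (M u v = 1 ↔ ((D₂ u v ∧ f v < f u) ∨ (D₂ v u ∧ f u < f v)))) ∧
            M.rank = r} ∧
    ∃ J : Fin n ⊕ Fin m → Fin n ⊕ Fin m → Prop,
      (∀ x y, J x y ↔
        ((∃ a b, x = Sum.inl a ∧ y = Sum.inl b ∧ D₁ a b) ∨
         (∃ a b, x = Sum.inr a ∧ y = Sum.inr b ∧ D₂ a b) ∨
         (∃ a b, x = Sum.inl a ∧ y = Sum.inr b))) ∧
      sInf {k : ℕ | ∃ X : Fin k → Finset (Fin n ⊕ Fin m), ∃ f : Fin n ⊕ Fin m → ℕ, ∀ u v,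
          ((J u v ∧ Even (Finset.univ.filter (fun i => u ∈ X i ∧ v ∈ X i)).card) ∨
           (J v u ∧ Odd (Finset.univ.filter (fun i => u ∈ X i ∧ v ∈ X i)).card)) → f u < f v}
        <
      sInf {k : ℕ | ∃ X : Fin k → Finset (Fin n), ∃ f : Fin n → ℕ, ∀ u v,
          ((D₁ u v ∧ Even (Finset.univ.filter (fun i => u ∈ X i ∧ v ∈ X i)).card) ∨
           (D₁ v u ∧ Odd (Finset.univ.filter (fun i => u ∈ X i ∧ v ∈ X i)).card)) → f u < f v}
      + sInf {k : ℕ | ∃ X : Fin k → Finset (Fin m), ∃ f : Fin m → ℕ, ∀ u v,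
          ((D₂ u v ∧ Even (Finset.univ.filter (fun i => u ∈ X i ∧ v ∈ X i)).card) ∨
           (D₂ v u ∧ Odd (Finset.univ.filter (fun i => u ∈ X i ∧ v ∈ X i)).card)) → f u < f v} := by
  obtain ⟨τ, σ, h1, h2, h3, h4, h5, h6, h7⟩ := core_eq
  refine ⟨256, 256, Arc τ, Arc σ, ⟨arc_irrefl τ, arc_tour h1⟩, ⟨arc_irrefl σ, arc_tour h2⟩, ?_, ?_,
    Arc (jn τ σ), arc_jn_ex τ σ, ?_⟩
  · rw [invS_finset h1, tmrS_inj h1]
    exact h3
  · rw [invS_finset h2, tmrS_inj h2]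
    exact h4
  · rw [invS_finset h1, invS_finset h2, invS_finset (tour_jn h1 h2)]
    have c := Nat.sInf_le h7
    omega

end Pool.Agent.S07369
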