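import Pool.Statements.S07453
import Pool.Agent.H3.Udec

set_option autoImplicit false
open Pool Pool.MP_1bb742_co

namespace Pool.Agent.S07453
open Pool.Agent.H3.Udec

/-- For every ε,δ>0 and all large n, any two n-vertex graphs with equal edge counts above εn² can have their edge sets split into at most δn parts each, the i-th parts being isomorphic via a vertex permutation. -/
theorem result :
    ∀ ε : ℝ, 0 < ε → ∀ δ : ℝ, 0 < δ → ∃ N : ℕ, ∀ n : ℕ, N ≤ n →
      ∀ G G' : SimpleGraph (Fin n),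
        G.edgeSet.ncard = G'.edgeSet.ncard →
        ε * (n : ℝ) ^ 2 < (G.edgeSet.ncard : ℝ) →
        ∃ r : ℕ, (r : ℝ) ≤ δ * (n : ℝ) ∧
          ∃ c c' : Sym2 (Fin n) → Fin r,
            ∀ i : Fin r, ∃ σ : Equiv.Perm (Fin n),
              Sym2.map σ '' {e | e ∈ G.edgeSet ∧ c e = i} =
                {e | e ∈ G'.edgeSet ∧ c' e = i} := by
  intro ε hε δ hδ
  classical
  obtain ⟨K, hK⟩ := exists_nat_gt (4 / δ)
  have hK0 : 0 < K := by
    have : (0 : ℝ) < K := lt_trans (by positivity) hK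
    exact_mod_cast this
  obtain ⟨N1, hN1⟩ := exists_nat_gt
    (((K ^ 2 + K ^ 2 * (K ^ 2 + 1) + K + K ^ 4 : ℕ) : ℝ) / ε)
  refine ⟨N1 + 1 + (2 * K ^ 3 + (K ^ 2 * K ^ 2) * (2 * (K ^ 2 * K ^ 2)) * K + K), ?_⟩
  intro n hn G G' hc hd
  have hM1 : n < (n / K ^ 3 + 1) * K ^ 3 := by
    have := Nat.lt_div_mul_add (a := n) (b := K ^ 3) (by positivity)
    nlinarith
  have hM2 : (n / K ^ 3 + 1) * K ^ 3 ≤ n + K ^ 3 := by
    have := Nat.div_mul_le_self n (K ^ 3)
    nlinarith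
  have ht1 : n < (n / K + 1) * K := by
    have := Nat.lt_div_mul_add (a := n) (b := K) hK0
    nlinarith
  have ht2 : (n / K + 1) * K ≤ n + K := by
    have := Nat.div_mul_le_self n K
    nlinarith
  generalize n / K ^ 3 + 1 = M at hM1 hM2
  have ht0 : 0 < n / K + 1 := Nat.succ_pos _
  generalize n / K + 1 = t at ht1 ht2 ht0
  have hcard : ∀ H : SimpleGraph (Fin n), H.edgeSet.ncard = H.edgeFinset.card := fun H => by
    rw [← SimpleGraph.coe_edgeFinset, Set.ncard_coe_finset]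
  have hND : ∀ H : SimpleGraph (Fin n), ND H.edgeFinset := fun H x => by simp
  have hn1 : 1 ≤ n := by omega
  have hmain := main (V := Fin n) (K ^ 2) M t (by positivity) G.edgeFinset G'.edgeFinset (hND G)
    (hND G') (by rw [← hcard, ← hcard, hc]) (by
      rw [Fintype.card_fin, ← hcard]
      have h1 : n * K ^ 2 + K ^ 2 * ((K ^ 2 + 1) * n) + M * (K ^ 2 * K ^ 2) ≤
          (K ^ 2 + K ^ 2 * (K ^ 2 + 1) + K + K ^ 4) * n := by
        have e : M * (K ^ 2 * K ^ 2) = M * K ^ 3 * K := by ring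
        have h2 := Nat.mul_le_mul_right K hM2
        have h3 : K ^ 4 ≤ K ^ 4 * n := Nat.le_mul_of_pos_right _ hn1
        nlinarith
      generalize K ^ 2 + K ^ 2 * (K ^ 2 + 1) + K + K ^ 4 = C at h1 hN1
      rw [div_lt_iff₀ hε] at hN1
      have h4 : (N1 : ℝ) ≤ n := by exact_mod_cast (by omega : N1 ≤ n)
      have h5 : (0 : ℝ) ≤ n := Nat.cast_nonneg _
      have h6 : ((C * n : ℕ) : ℝ) < G.edgeSet.ncard := by
        push_cast
        have : (C : ℝ) ≤ n * ε := by nlinarith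
        nlinarith
      have h7 : C * n < G.edgeSet.ncard := by exact_mod_cast h6
      omega) (by
      rw [Fintype.card_fin]
      have e : M * (K ^ 2 * K ^ 2) * t = (M * K ^ 3) * (t * K) := by ring
      have h2 := Nat.mul_lt_mul'' hM1 ht1
      nlinarith)
  refine ⟨M * (K ^ 2 + K ^ 2) + (K ^ 2 * K ^ 2) * (2 * (K ^ 2 * K ^ 2)) + t, ?_, ?_⟩
  rotate_left
  · obtain ⟨c, c', h⟩ := rel_out (by omega) hmain
    refine ⟨c, c', fun i => ?_⟩
    obtain ⟨σ, hσ⟩ := h i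
    exact ⟨σ, by simpa using hσ⟩
  · have h1 : (M * (K ^ 2 + K ^ 2) + (K ^ 2 * K ^ 2) * (2 * (K ^ 2 * K ^ 2)) + t) * K ≤ 4 * n := by
      have e : (M * (K ^ 2 + K ^ 2) + (K ^ 2 * K ^ 2) * (2 * (K ^ 2 * K ^ 2)) + t) * K =
        2 * (M * K ^ 3) + (K ^ 2 * K ^ 2) * (2 * (K ^ 2 * K ^ 2)) * K + t * K := by ring
      omega
    generalize M * (K ^ 2 + K ^ 2) + (K ^ 2 * K ^ 2) * (2 * (K ^ 2 * K ^ 2)) + t = r at h1 ⊢
    have h2 : (r : ℝ) * K ≤ 4 * n := by exact_mod_cast h1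
    rw [div_lt_iff₀ hδ] at hK
    have h3 : (0 : ℝ) < K := by exact_mod_cast hK0
    have h5 : (0 : ℝ) ≤ n := Nat.cast_nonneg _
    by_contra hcon
    push Not at hcon
    nlinarith

end Pool.Agent.S07453
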