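import Pool.Statements.S07499
import Pool.Agent.H10.Dist

set_option autoImplicit false
open Pool Pool.MP_1d4c69_co

namespace Pool.Agent.S07499

def G : SimpleGraph (Fin 18) where
  Adj a b := a - b = 1 ∨ b - a = 1 ∨ a - b = 9
  symm := ⟨by decide⟩
  loopless := ⟨by decide⟩

instance : DecidableRel G.Adj := fun a b =>
  inferInstanceAs (Decidable (a - b = 1 ∨ b - a = 1 ∨ a - b = 9))

def d (a b : Fin 18) : ℕ :=
  [0, 1, 2, 3, 4, 5, 4, 3, 2, 1, 2, 3, 4, 5, 4, 3, 2, 1].getD (a - b).val 0

theorem h0 : ∀ u v, d u v = 0 → u = v := by decide +kernel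
theorem h1 : ∀ u v, d u v ≠ 0 → ∃ w, G.Adj u w ∧ d w v + 1 = d u v := by decide +kernel
theorem h2 : ∀ v, d v v = 0 := by decide +kernel
theorem h3 : ∀ u w v, G.Adj u w → d u v ≤ d w v + 1 := by decide +kernel

theorem dist_eq (u v : Fin 18) : G.dist u v = d u v :=
  Pool.Agent.H10.Dist.dist_eq G d h0 h1 h2 h3 u v

theorem four : ∀ a b : Fin 18, a < b → ∀ c : Fin 18, b < c → ∀ e : Fin 18, c < e →
    ∃ v : Fin 18, ∃ r : Fin 3,
      r.val + 1 < (({a, b, c, e} : Finset (Fin 18)).filter (fun u => d v u ≤ r.val + 1)).card := by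
  decide +kernel

theorem ball : ∀ v : Fin 18, ∀ r : Fin 5,
    (Finset.univ.filter (fun u => 1 ≤ r.val ∧ d u v ≤ r.val)).card ≤ 4 * r.val := by
  decide +kernel

theorem three : ∀ v : Fin 18, ∀ r : Fin 3, 1 ≤ r.val →
    (({0, 3, 6} : Finset (Fin 18)).filter (fun u => d v u ≤ r.val)).card ≤ r.val := by
  decide +kernel

/-- There is a finite connected graph whose largest multipacking (every radius-r ball holds at most r of its vertices) has exactly 3 vertices, while every dominating broadcast has total cost at least 5. -/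
theorem result :
    ∃ (V : Type) (_ : Fintype V) (G : SimpleGraph V),
      G.Connected ∧
      (∃ M : Finset V, M.card = 3 ∧
        ∀ v : V, ∀ r : ℕ, 1 ≤ r → (M.filter (fun u => G.dist v u ≤ r)).card ≤ r) ∧
      (∀ M : Finset V,
        (∀ v : V, ∀ r : ℕ, 1 ≤ r → (M.filter (fun u => G.dist v u ≤ r)).card ≤ r) →
        M.card ≤ 3) ∧
      (∀ f : V → ℕ, (∀ u : V, ∃ v : V, 1 ≤ f v ∧ G.dist u v ≤ f v) →
        5 ≤ ∑ v, f v) := by
  refine ⟨Fin 18, inferInstance, G, Pool.Agent.H10.Dist.connected G d h0 h1,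
    ⟨{0, 3, 6}, by decide, ?_⟩, ?_, ?_⟩
  · intro v r hr
    simp only [dist_eq]
    by_cases h : r < 3
    · exact three v ⟨r, h⟩ hr
    · exact le_trans (Finset.card_filter_le _ _) (le_trans (by decide) (not_lt.1 h))
  · intro M hM
    simp only [dist_eq] at hM
    by_contra hc
    obtain ⟨S, hS, hcard⟩ := Finset.exists_subset_card_eq (n := 4) (s := M) (by omega)
    let f := S.orderEmbOfFin hcard
    obtain ⟨v, r, hr⟩ := four (f 0) (f 1) (f.strictMono (by decide)) (f 2)
      (f.strictMono (by decide)) (f 3) (f.strictMono (by decide))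
    have hsub : ({f 0, f 1, f 2, f 3} : Finset (Fin 18)) ⊆ M := by
      intro x hx
      simp only [Finset.mem_insert, Finset.mem_singleton] at hx
      rcases hx with rfl | rfl | rfl | rfl <;> exact hS (S.orderEmbOfFin_mem hcard _)
    have h5 := hM v (r.val + 1) (by omega)
    have h6 := Finset.card_le_card (Finset.filter_subset_filter (fun u => d v u ≤ r.val + 1) hsub)
    omega
  · intro f hf
    simp only [dist_eq] at hf
    by_contra hc
    have hle : ∀ v, f v < 5 := fun v =>
      lt_of_le_of_lt (Finset.single_le_sum (f := f) (fun _ _ => Nat.zero_le _)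
        (Finset.mem_univ v)) (by omega)
    have h5 : (Finset.univ : Finset (Fin 18)) ⊆
        Finset.univ.biUnion fun v => Finset.univ.filter (fun u => 1 ≤ f v ∧ d u v ≤ f v) := by
      intro u _
      obtain ⟨v, hv⟩ := hf u
      simp only [Finset.mem_biUnion, Finset.mem_univ, true_and, Finset.mem_filter]
      exact ⟨v, hv⟩
    have h6 := le_trans (Finset.card_le_card h5) Finset.card_biUnion_le
    have h7 : ∑ v, (Finset.univ.filter (fun u => 1 ≤ f v ∧ d u v ≤ f v)).card ≤ ∑ v, 4 * f v :=
      Finset.sum_le_sum fun v _ => ball v ⟨f v, hle v⟩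
    rw [← Finset.mul_sum] at h7
    rw [Finset.card_univ, Fintype.card_fin] at h6
    omega

end Pool.Agent.S07499
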