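import Pool.Statements.S07506

set_option autoImplicit false
open Pool Pool.MP_1d7c98_co

namespace Pool.Agent.S07506

open Finset

def R {T : ℕ} (u v : Fin (T + 1) × Fin 12) : Prop :=
  u ≠ v ∧ (u.1 = v.1 ∨ ((u.1 = 0 ∨ v.1 = 0) ∧ u.2 = v.2 ∧ u.2.val < 7))

instance {T : ℕ} : DecidableRel (R (T := T)) := fun u v => by unfold R; infer_instance

lemma R_symm {T : ℕ} {u v : Fin (T + 1) × Fin 12} (h : R u v) : R v u := by
  obtain ⟨h1, h2⟩ := h
  refine ⟨h1.symm, ?_⟩
  rcases h2 with h2 | ⟨h2, h3, h4⟩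
  · exact Or.inl h2.symm
  · exact Or.inr ⟨h2.symm, h3.symm, h3 ▸ h4⟩

def eqv (T : ℕ) : Fin (T + 1) × Fin 12 ≃ Fin ((T + 1) * 12) := finProdFinEquiv

def G (T : ℕ) : SimpleGraph (Fin ((T + 1) * 12)) where
  Adj u v := R ((eqv T).symm u) ((eqv T).symm v)
  symm := ⟨fun _ _ h => R_symm h⟩
  loopless := ⟨fun _ h => h.1 rfl⟩

instance (T : ℕ) : DecidableRel (G T).Adj := fun u v => by unfold G; infer_instance

lemma conn (T : ℕ) (S : Finset (Fin ((T + 1) * 12))) (hS : S.card + 1 < 8) :
    ((G T).induce ((S : Set (Fin ((T + 1) * 12)))ᶜ)).Connected := by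
  have hex : ∃ i : Fin 12, i.val < 7 ∧ ∀ s ∈ S, ((eqv T).symm s).2 ≠ i := by
    by_contra hcon
    push Not at hcon
    have hsub : (univ.filter (fun i : Fin 12 => i.val < 7)) ⊆
        S.image (fun s => ((eqv T).symm s).2) := by
      intro i hi
      obtain ⟨s, hs, hsi⟩ := hcon i (by simpa using hi)
      exact mem_image.mpr ⟨s, hs, hsi⟩
    have h1 := card_le_card hsub
    have h2 := card_image_le (s := S) (f := fun s => ((eqv T).symm s).2)
    have h3 : (univ.filter (fun i : Fin 12 => i.val < 7)).card = 7 := by decide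
    omega
  obtain ⟨i, hi7, hi⟩ := hex
  have hmem : ∀ b : Fin (T + 1), eqv T (b, i) ∈ ((S : Set (Fin ((T + 1) * 12)))ᶜ) := by
    intro b hb
    exact hi _ hb (by simp)
  have step : ∀ x y : ((S : Set (Fin ((T + 1) * 12)))ᶜ : Set _),
      (((eqv T).symm x.1).1 = ((eqv T).symm y.1).1 ∨
        ((((eqv T).symm x.1).1 = 0 ∨ ((eqv T).symm y.1).1 = 0) ∧
          ((eqv T).symm x.1).2 = ((eqv T).symm y.1).2 ∧ ((eqv T).symm x.1).2.val < 7)) →
      ((G T).induce ((S : Set (Fin ((T + 1) * 12)))ᶜ)).Reachable x y := by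
    intro x y h
    by_cases hxy : x = y
    · rw [hxy]
    · apply SimpleGraph.Adj.reachable
      refine ⟨?_, h⟩
      intro he
      exact hxy (Subtype.ext ((eqv T).symm.injective he))
  have key : ∀ x : ((S : Set (Fin ((T + 1) * 12)))ᶜ : Set _),
      ((G T).induce ((S : Set (Fin ((T + 1) * 12)))ᶜ)).Reachable x ⟨eqv T (0, i), hmem 0⟩ := by
    intro x
    refine (step x ⟨eqv T (((eqv T).symm x.1).1, i), hmem _⟩ (Or.inl (by simp))).trans ?_
    apply step
    right
    simp [hi7]
  rw [SimpleGraph.connected_iff]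
  exact ⟨fun x y => (key x).trans (key y).symm, ⟨⟨_, hmem 0⟩⟩⟩

lemma pig (d : Fin 12 → Fin 8) :
    8 ≤ (univ.filter (fun p : Fin 12 × Fin 12 => p.1 ≠ p.2 ∧ d p.1 = d p.2)).card := by
  have h1 : (univ.filter (fun p : Fin 12 × Fin 12 => d p.1 = d p.2)).card =
      ∑ k : Fin 8, (univ.filter (fun i => d i = k)).card * (univ.filter (fun i => d i = k)).card := by
    rw [card_eq_sum_card_fiberwise (f := fun p : Fin 12 × Fin 12 => d p.1) (t := univ)
      (fun _ _ => mem_univ _)]
    apply sum_congr rfl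
    intro k _
    rw [← card_product]
    congr 1
    ext p
    simp only [mem_filter, mem_univ, true_and, mem_product]
    constructor
    · rintro ⟨h1, h2⟩; exact ⟨h2, h1 ▸ h2⟩
    · rintro ⟨h1, h2⟩; exact ⟨h1.trans h2.symm, h1⟩
  have h2 : ∑ k : Fin 8, (univ.filter (fun i => d i = k)).card = 12 := by
    rw [← card_eq_sum_card_fiberwise (f := d) (s := univ) (t := univ) (fun _ _ => mem_univ _)]
    simp
  have h3 : ∑ k : Fin 8, 3 * (univ.filter (fun i => d i = k)).card ≤
      ∑ k : Fin 8, ((univ.filter (fun i => d i = k)).card * (univ.filter (fun i => d i = k)).card + 2) := by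
    apply sum_le_sum
    intro k _
    generalize (univ.filter (fun i => d i = k)).card = x
    rcases Nat.lt_or_ge x 2 with h | h
    · interval_cases x <;> simp
    · nlinarith
  rw [← mul_sum, h2, sum_add_distrib, ← h1] at h3
  simp only [sum_const, card_univ, Fintype.card_fin, smul_eq_mul] at h3
  have h4 : (univ.filter (fun p : Fin 12 × Fin 12 => d p.1 = d p.2)) ⊆
      (univ.filter (fun p : Fin 12 × Fin 12 => p.1 ≠ p.2 ∧ d p.1 = d p.2)) ∪
        (univ.filter (fun p : Fin 12 × Fin 12 => p.1 = p.2)) := by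
    intro p hp
    simp only [mem_filter, mem_univ, true_and, mem_union] at hp ⊢
    by_cases h : p.1 = p.2
    · exact Or.inr h
    · exact Or.inl ⟨h, hp⟩
  have h5 := (card_le_card h4).trans (card_union_le _ _)
  have h6 : (univ.filter (fun p : Fin 12 × Fin 12 => p.1 = p.2)).card = 12 := by decide +kernel
  omega

lemma mono_ge (T : ℕ) (d : Fin (T + 1) × Fin 12 → Fin 8) :
    (T + 1) * 8 ≤ (univ.filter (fun p : (Fin (T + 1) × Fin 12) × (Fin (T + 1) × Fin 12) =>
      R p.1 p.2 ∧ d p.1 = d p.2)).card := by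
  have h1 : (T + 1) * 8 ≤ (univ.filter (fun q : Fin (T + 1) × (Fin 12 × Fin 12) =>
      q.2.1 ≠ q.2.2 ∧ d (q.1, q.2.1) = d (q.1, q.2.2))).card := by
    rw [card_filter, Fintype.sum_prod_type]
    calc (T + 1) * 8 = ∑ _b : Fin (T + 1), 8 := by simp
      _ ≤ _ := by
        apply sum_le_sum
        intro b _
        have := pig (fun i => d (b, i))
        rw [card_filter] at this
        exact this
  refine h1.trans ?_
  apply card_le_card_of_injOn (fun q => ((q.1, q.2.1), (q.1, q.2.2)))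
  · intro q hq
    simp only [coe_filter, mem_univ, true_and, Set.mem_ofPred_eq] at hq ⊢
    refine ⟨⟨?_, Or.inl rfl⟩, hq.2⟩
    intro h
    exact hq.1 (congrArg Prod.snd h)
  · intro q _ q' _ h
    simp only [Prod.mk.injEq] at h
    exact Prod.ext h.1.1 (Prod.ext h.1.2 h.2.2)

lemma adj_le (T : ℕ) :
    (univ.filter (fun p : (Fin (T + 1) × Fin 12) × (Fin (T + 1) × Fin 12) =>
      R p.1 p.2)).card ≤ (T + 1) * 146 := by
  have hsub : (univ.filter (fun p : (Fin (T + 1) × Fin 12) × (Fin (T + 1) × Fin 12) =>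
      R p.1 p.2)) ⊆
      (((univ : Finset (Fin (T + 1))) ×ˢ (univ : Finset (Fin 12)).offDiag).image
        (fun q => ((q.1, q.2.1), (q.1, q.2.2)))) ∪
      ((((univ : Finset (Fin (T + 1))) ×ˢ (univ.filter (fun i : Fin 12 => i.val < 7))).image
        (fun q => (((0 : Fin (T + 1)), q.2), q))) ∪
       (((univ : Finset (Fin (T + 1))) ×ˢ (univ.filter (fun i : Fin 12 => i.val < 7))).image
        (fun q => (q, ((0 : Fin (T + 1)), q.2))))) := by
    rintro ⟨⟨a, i⟩, ⟨b, j⟩⟩ hp
    have hp' := (mem_filter.mp hp).2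
    obtain ⟨hne, h | ⟨h0, hij, h7⟩⟩ := hp'
    · simp only at h
      subst h
      apply mem_union_left
      refine mem_image.mpr ⟨(a, (i, j)), ?_, rfl⟩
      simp only [mem_product, mem_univ, mem_offDiag, true_and]
      rintro rfl
      exact hne rfl
    · simp only at hij h0 h7
      subst hij
      apply mem_union_right
      rcases h0 with h0 | h0
      · subst h0
        apply mem_union_left
        exact mem_image.mpr ⟨(b, i), by simpa using h7, rfl⟩
      · subst h0
        apply mem_union_right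
        exact mem_image.mpr ⟨(a, i), by simpa using h7, rfl⟩
  have h7 : (univ.filter (fun i : Fin 12 => i.val < 7)).card = 7 := by decide
  have h1 := card_le_card hsub
  refine h1.trans ((card_union_le _ _).trans ?_)
  refine (Nat.add_le_add card_image_le ((card_union_le _ _).trans
    (Nat.add_le_add card_image_le card_image_le))).trans ?_
  simp only [card_product, card_univ, Fintype.card_fin, offDiag_card, h7]
  omega

/-- Counterexample: k = 8, many copies of K12 joined to a central K12 by matchings of size 7. -/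
theorem result :
    ¬ (∀ k : ℕ, 2 ≤ k → ∃ C : ℝ, ∀ n : ℕ, ∀ G : SimpleGraph (Fin n),
      (∀ S : Finset (Fin n), S.card + 1 < k →
          (G.induce ((S : Set (Fin n))ᶜ)).Connected) →
      ∃ c : Fin n → Fin k,
        ((k : ℝ) - 1) / k * (G.edgeSet.ncard : ℝ) + ((k : ℝ) - 1) / (2 * k) * (n : ℝ) - C
          ≤ ({p : Fin n × Fin n | G.Adj p.1 p.2 ∧ c p.1 ≠ c p.2}.ncard : ℝ) / 2) := by
  intro h
  obtain ⟨C, hC⟩ := h 8 (by norm_num)
  obtain ⟨T, hT⟩ := exists_nat_gt (8 * C)
  obtain ⟨c, hc⟩ := hC _ (G T) (conn T)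
  have e1 : (G T).edgeSet.ncard = (G T).edgeFinset.card := by
    rw [← SimpleGraph.coe_edgeFinset, Set.ncard_coe_finset]
  have e2 := SimpleGraph.two_mul_card_edgeFinset (G T)
  have e3 : {p : Fin ((T + 1) * 12) × Fin ((T + 1) * 12) | (G T).Adj p.1 p.2 ∧ c p.1 ≠ c p.2}.ncard
      = (univ.filter (fun p : Fin ((T + 1) * 12) × Fin ((T + 1) * 12) =>
          (G T).Adj p.1 p.2 ∧ ¬ c p.1 = c p.2)).card := by
    rw [← Set.ncard_coe_finset]
    congr 1
    ext p
    simp
  have e4 := card_filter_add_card_filter_not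
    (s := univ.filter (fun p : Fin ((T + 1) * 12) × Fin ((T + 1) * 12) => (G T).Adj p.1 p.2))
    (fun p => c p.1 = c p.2)
  rw [filter_filter, filter_filter] at e4
  have e5 : (univ.filter (fun p : Fin ((T + 1) * 12) × Fin ((T + 1) * 12) =>
      (G T).Adj p.1 p.2)).card =
      (univ.filter (fun p : (Fin (T + 1) × Fin 12) × (Fin (T + 1) × Fin 12) =>
      R p.1 p.2)).card := by
    apply card_equiv ((eqv T).prodCongr (eqv T)).symm
    intro p
    rw [mem_filter, mem_filter]
    simp [G]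
  have e6 : (univ.filter (fun p : Fin ((T + 1) * 12) × Fin ((T + 1) * 12) =>
      (G T).Adj p.1 p.2 ∧ c p.1 = c p.2)).card =
      (univ.filter (fun p : (Fin (T + 1) × Fin 12) × (Fin (T + 1) × Fin 12) =>
      R p.1 p.2 ∧ c (eqv T p.1) = c (eqv T p.2))).card := by
    apply card_equiv ((eqv T).prodCongr (eqv T)).symm
    intro p
    rw [mem_filter, mem_filter]
    simp [G]
  have e7 := mono_ge T (fun v => c (eqv T v))
  have e8 := adj_le T
  rw [← e6] at e7
  rw [← e5] at e8
  rw [e1, e3] at hc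
  have e2' : 2 * (G T).edgeFinset.card = (univ.filter
      (fun p : Fin ((T + 1) * 12) × Fin ((T + 1) * 12) => (G T).Adj p.1 p.2)).card := e2
  generalize (univ.filter (fun p : Fin ((T + 1) * 12) × Fin ((T + 1) * 12) =>
      (G T).Adj p.1 p.2 ∧ c p.1 = c p.2)).card = mono at *
  generalize (univ.filter (fun p : Fin ((T + 1) * 12) × Fin ((T + 1) * 12) =>
      (G T).Adj p.1 p.2 ∧ ¬ c p.1 = c p.2)).card = cut at *
  generalize (univ.filter (fun p : Fin ((T + 1) * 12) × Fin ((T + 1) * 12) =>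
      (G T).Adj p.1 p.2)).card = A at *
  generalize (G T).edgeFinset.card = m at *
  have f1 : (2 : ℝ) * m = A := by exact_mod_cast e2'
  have f2 : (mono : ℝ) + cut = A := by exact_mod_cast e4
  have f3 : ((T : ℝ) + 1) * 8 ≤ mono := by exact_mod_cast e7
  have f4 : (A : ℝ) ≤ ((T : ℝ) + 1) * 146 := by exact_mod_cast e8
  push_cast at hc
  linarith

end Pool.Agent.S07506
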