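import Pool.Statements.S07547
import Pool.Agent.H7.GenPos

set_option autoImplicit false
open Pool Pool.MP_1ea79a_co

namespace Pool.Agent.S07547

/-- For every polyhedral norm N(x)=max_i ∣a_i·x∣ on R^n and every infinite set M in R^n, R^n can be coloured with n+1 colours so that no N-distance-preserving image of M is monochromatic. -/
theorem result :
    ∀ (n m : ℕ) (a : Fin m → Fin n → ℝ),
      (∀ x : Fin n → ℝ, x ≠ 0 → 0 < ⨆ i, |∑ j, a i j * x j|) →
      ∀ M : Set (Fin n → ℝ), M.Infinite →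
        ∃ c : (Fin n → ℝ) → Fin (n + 1),
          ∀ f : (Fin n → ℝ) → (Fin n → ℝ),
            (∀ x ∈ M, ∀ y ∈ M,
              (⨆ i, |∑ j, a i j * (f x j - f y j)|) =
                ⨆ i, |∑ j, a i j * (x j - y j)|) →
            ¬ ∃ k : Fin (n + 1), ∀ x ∈ M, c (f x) = k := by
  intro n m a hpos M hM
  classical
  obtain ⟨x0, -, y0, -, hxy0⟩ := hM.nontrivial
  have hm : Nonempty (Fin m) := by
    by_contra h
    have : IsEmpty (Fin m) := not_nonempty_iff.1 h
    have := hpos (x0 - y0) (sub_ne_zero.2 hxy0)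
    simp at this
  let N : (Fin n → ℝ) → ℝ := fun v => ⨆ i, |∑ j, a i j * v j|
  let A : Fin m × Bool → Fin n → ℝ := fun γ => if γ.2 then a γ.1 else -a γ.1
  have hle : ∀ γ v, A γ ⬝ᵥ v ≤ N v := by
    rintro ⟨i, b⟩ v
    have h1 : |∑ j, a i j * v j| ≤ N v :=
      le_ciSup (f := fun i => |∑ j, a i j * v j|) (Set.finite_range _).bddAbove i
    cases b
    · simp only [A, Bool.false_eq_true, if_false, neg_dotProduct]
      exact (neg_le_abs _).trans h1
    · simp only [A, if_true]
      exact (le_abs_self _).trans h1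
  have hex : ∀ v, ∃ γ, A γ ⬝ᵥ v = N v := by
    intro v
    obtain ⟨i, hi⟩ := exists_eq_ciSup_of_finite (f := fun i => |∑ j, a i j * v j|)
    rcases abs_choice (∑ j, a i j * v j) with h | h
    · exact ⟨(i, true), by simp only [A, if_true]; exact h.symm.trans hi⟩
    · refine ⟨(i, false), ?_⟩
      simp only [A, Bool.false_eq_true, if_false, neg_dotProduct]
      exact h.symm.trans hi
  have htri : ∀ x y z : Fin n → ℝ, N (z - x) ≤ N (y - x) + N (z - y) := by
    intro x y z
    obtain ⟨γ, hγ⟩ := hex (z - x)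
    have h1 := hle γ (y - x)
    have h2 := hle γ (z - y)
    simp only [dotProduct_sub] at hγ h1 h2
    linarith
  obtain ⟨γ0, g, hg⟩ := Pool.Agent.H7.GenPos.subseq
    (fun (γ : Fin m × Bool) (x y : Fin n → ℝ) => A γ ⬝ᵥ (y - x) = N (y - x))
    (fun γ => ⟨fun x y z h1 h2 => by
      have h3 := htri x y z
      have h4 := hle γ (z - x)
      simp only [dotProduct_sub] at h1 h2 h4 ⊢
      linarith⟩)
    (Finset.univ : Finset (Fin m × Bool)).toList
    (fun k => (hM.natEmbedding M k : Fin n → ℝ))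
    (fun p q _ => by
      obtain ⟨γ, hγ⟩ := hex ((hM.natEmbedding M q : Fin n → ℝ) - (hM.natEmbedding M p : Fin n → ℝ))
      exact ⟨γ, by simp, hγ⟩)
  let u : ℕ → Fin n → ℝ := fun k => (hM.natEmbedding M (g k) : Fin n → ℝ)
  have huM : ∀ k, u k ∈ M := fun k => (hM.natEmbedding M (g k)).2
  have huinj : Function.Injective u := fun p q h =>
    g.injective ((hM.natEmbedding M).injective (Subtype.ext h))
  let t : ℕ → ℝ := fun k => A γ0 ⬝ᵥ (u k - u 0)
  have hN0 : N 0 = 0 := by
    obtain ⟨γ, hγ⟩ := hex 0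
    rw [← hγ, dotProduct_zero]
  have hd : ∀ p q, p ≤ q → N (u q - u p) = t q - t p := by
    intro p q hpq
    rcases hpq.eq_or_lt with rfl | h
    · simp [hN0]
    · have := hg p q h
      simp only [t, dotProduct_sub] at this ⊢
      change A γ0 ⬝ᵥ u q - A γ0 ⬝ᵥ u p = N (u q - u p) at this
      linarith
  have ht0 : t 0 = 0 := by simp [t]
  have htm : StrictMono t := by
    intro p q h
    have h1 := hd p q h.le
    have h2 : 0 < N (u q - u p) := hpos _ (sub_ne_zero.2 fun e => h.ne' (huinj e))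
    linarith
  obtain ⟨c, hc⟩ := Pool.Agent.H7.GenPos.colour_real A t htm.injective
  refine ⟨c, fun f hf => ?_⟩
  rintro ⟨k, hk⟩
  have hfd : ∀ p q, p ≤ q → N (f (u q) - f (u p)) = t q - t p := by
    intro p q hpq
    rw [← hd p q hpq]
    exact hf _ (huM q) _ (huM p)
  choose G hG using fun q => hex (f (u q) - f (u 0))
  obtain ⟨γ, hγ⟩ := Finite.exists_infinite_fiber G
  have hinf : (G ⁻¹' {γ}).Infinite := Set.infinite_coe_iff.1 hγ
  obtain ⟨b, hb⟩ := hc k γ (A γ ⬝ᵥ f (u 0))
  refine hb (f (u b)) ?_ (hk _ (huM b))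
  obtain ⟨q, hq, hbq⟩ := hinf.exists_gt b
  have e1 := hG q
  rw [show G q = γ from hq, hfd 0 q (Nat.zero_le _)] at e1
  have e2 := hle γ (f (u q) - f (u b))
  have e3 := hle γ (f (u b) - f (u 0))
  rw [hfd b q hbq.le] at e2
  rw [hfd 0 b (Nat.zero_le _)] at e3
  simp only [dotProduct_sub] at e1 e2 e3
  linarith

end Pool.Agent.S07547
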