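import Pool.Statements.S07574
-- import your own Pool.Agent.* helpers here

set_option autoImplicit false
open Pool Pool.MP_1f8616_co

namespace Pool.Agent.S07574

/-- the disjoint union of finite chains with `1, 2, 3, …` elements -/
def P : Type := {p : ℕ × ℕ // p.2 ≤ p.1}

instance : Countable P := inferInstanceAs (Countable {p : ℕ × ℕ // p.2 ≤ p.1})

instance : PartialOrder P where
  le x y := x.1.1 = y.1.1 ∧ x.1.2 ≤ y.1.2
  le_refl x := ⟨rfl, le_rfl⟩
  le_trans x y z h1 h2 := ⟨h1.1.trans h2.1, h1.2.trans h2.2⟩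
  le_antisymm x y h1 h2 := Subtype.ext (Prod.ext h1.1 (le_antisymm h1.2 h2.2))

theorem le_iff (x y : P) : x ≤ y ↔ x.1.1 = y.1.1 ∧ x.1.2 ≤ y.1.2 := Iff.rfl

theorem chain_finite (C : Set P) (hC : IsChain (· ≤ ·) C) : C.Finite := by
  rcases C.eq_empty_or_nonempty with rfl | ⟨x, hx⟩
  · exact Set.finite_empty
  · have h : ∀ y ∈ C, y.1.1 = x.1.1 := by
      intro y hy
      by_cases e : y = x
      · rw [e]
      · rcases hC hy hx e with h | h
        · exact h.1
        · exact h.1.symm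
    refine Set.Finite.of_finite_image (f := fun y : P => y.1.2)
      ((Set.finite_le_nat x.1.1).subset ?_) ?_
    · rintro _ ⟨y, hy, rfl⟩
      have := y.2
      rw [h y hy] at this
      exact this
    · intro y hy z hz e
      exact Subtype.ext (Prod.ext ((h y hy).trans (h z hz).symm) e)

/-- The negation of the preceding statement: Every countable poset with no saturated chain (or its reverse) that is an ω-indexed linear sum of infinite co-wellfounded chains has, for each k≥2, k disjoint chains and a partition into antichains where each antichain A meets at least min(∣A∣,k) chains. -/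
theorem result :
    ¬ (∀ (α : Type) [PartialOrder α] [Countable α],
    (¬ ∃ C : Set α, IsChain (· ≤ ·) C ∧
        (∀ x, x ∉ C → ∀ y ∈ C, ∀ z ∈ C, y < x → x < z → ¬ IsChain (· ≤ ·) (insert x C)) ∧
        ∃ f : α → ℕ,
          ((∀ x ∈ C, ∀ y ∈ C, x ≤ y → f x ≤ f y) ∧
            ∀ i : ℕ, Set.Infinite {x | x ∈ C ∧ f x = i} ∧
              ¬ ∃ s : ℕ → α, StrictMono s ∧ ∀ n, s n ∈ C ∧ f (s n) = i) ∨
          ((∀ x ∈ C, ∀ y ∈ C, x ≤ y → f y ≤ f x) ∧
            ∀ i : ℕ, Set.Infinite {x | x ∈ C ∧ f x = i} ∧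
              ¬ ∃ s : ℕ → α, StrictAnti s ∧ ∀ n, s n ∈ C ∧ f (s n) = i)) →
    ∀ k : ℕ, 2 ≤ k →
      ∃ C : Fin k → Set α, (∀ j, IsChain (· ≤ ·) (C j)) ∧
        Pairwise (fun i j => Disjoint (C i) (C j)) ∧
        ∃ g : α → ℕ, ∀ i : ℕ, IsAntichain (· ≤ ·) {x | g x = i} ∧
          min (Set.encard {x | g x = i}) (k : ℕ∞) ≤
            Set.encard {j : Fin k | (C j ∩ {x | g x = i}).Nonempty}) := by
  intro h
  obtain ⟨C, hC, -, g, hg⟩ := h P (by
    rintro ⟨C, hC, -, f, ⟨-, h⟩ | ⟨-, h⟩⟩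
    · exact (h 0).1 ((chain_finite C hC).subset (fun x hx => hx.1))
    · exact (h 0).1 ((chain_finite C hC).subset (fun x hx => hx.1))) 2 le_rfl
  have hfin : (g '' ⋃ j, C j).Finite :=
    (Set.finite_iUnion (fun j => chain_finite _ (hC j))).image g
  have hall : ∀ x, g x ∈ g '' ⋃ j, C j := by
    intro x
    have h1 : (1 : ℕ∞) ≤ min (Set.encard {y | g y = g x}) ((2 : ℕ) : ℕ∞) :=
      le_min (Set.one_le_encard_iff_nonempty.2 ⟨x, rfl⟩) (by norm_num)
    obtain ⟨j, y, hy, hy'⟩ := Set.one_le_encard_iff_nonempty.1 (h1.trans (hg (g x)).2)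
    exact ⟨y, Set.mem_iUnion.2 ⟨j, hy⟩, hy'⟩
  set S := hfin.toFinset
  let e : Fin (S.card + 1) → P := fun a => ⟨(S.card, a.val), Nat.lt_succ_iff.1 a.2⟩
  have hinj : Function.Injective (fun a => g (e a)) := by
    intro a b hab
    by_contra hne
    have hne' : e a ≠ e b := fun h => hne (Fin.ext (congrArg (fun p : P => p.1.2) h))
    rcases le_total a b with h | h
    · exact (hg (g (e b))).1 (show e a ∈ {x | g x = g (e b)} from hab) rfl hne' ⟨rfl, h⟩
    · exact (hg (g (e b))).1 rfl (show e a ∈ {x | g x = g (e b)} from hab) hne'.symm ⟨rfl, h⟩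
  have := Finset.card_le_card_of_injOn (s := Finset.univ) (t := S) (fun a => g (e a))
    (fun a _ => Finset.mem_coe.2 (hfin.mem_toFinset.2 (hall _))) hinj.injOn
  simp at this

end Pool.Agent.S07574
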