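import Pool.Statements.S07614

set_option autoImplicit false
open Pool Pool.MP_2117ab_co

namespace Pool.Agent.S07614

/-- colouring of the edges of the complete graph on six vertices -/
def col : Fin 6 → Fin 6 → Fin 3 :=
  ![![0, 0, 0, 0, 1, 2], ![0, 0, 1, 1, 0, 2], ![0, 1, 0, 2, 1, 2], ![0, 1, 2, 0, 2, 0], ![1, 0, 1, 2, 0, 1], ![2, 2, 2, 0, 1, 0]]

def T (i : Fin 3) : SimpleGraph (Fin 6) where
  Adj u v := u ≠ v ∧ col u v = i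
  symm := ⟨by revert i; decide⟩
  loopless := ⟨by revert i; decide⟩

instance (i : Fin 3) : DecidableRel (T i).Adj := fun u v => inferInstanceAs (Decidable (u ≠ v ∧ col u v = i))

lemma T_tree (i : Fin 3) : (T i).IsTree := by
  rw [SimpleGraph.isTree_iff_connected_and_card]
  constructor
  · revert i; decide +kernel
  · rw [Nat.card_eq_fintype_card, Nat.card_eq_fintype_card, ← SimpleGraph.edgeFinset_card]
    revert i; decide +kernel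

lemma core (p : Fin 6 → Fin 3 → ℝ)
    (h : ∀ i u v, (T i).Adj u v → ∀ j, j ≠ i → |p u j - p v j| < |p u i - p v i|) : False := by
  have a0_0 := abs_lt.1 (h 0 0 1 (by decide) 1 (by decide))
  have a0_1 := abs_lt.1 (h 0 0 1 (by decide) 2 (by decide))
  have c0 := abs_choice (p 0 0 - p 1 0)
  have a1_0 := abs_lt.1 (h 0 0 2 (by decide) 1 (by decide))
  have a1_1 := abs_lt.1 (h 0 0 2 (by decide) 2 (by decide))
  have c1 := abs_choice (p 0 0 - p 2 0)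
  have a2_0 := abs_lt.1 (h 0 0 3 (by decide) 1 (by decide))
  have a2_1 := abs_lt.1 (h 0 0 3 (by decide) 2 (by decide))
  have c2 := abs_choice (p 0 0 - p 3 0)
  have a3_0 := abs_lt.1 (h 1 0 4 (by decide) 0 (by decide))
  have a3_1 := abs_lt.1 (h 1 0 4 (by decide) 2 (by decide))
  have c3 := abs_choice (p 0 1 - p 4 1)
  have a4_0 := abs_lt.1 (h 2 0 5 (by decide) 0 (by decide))
  have a4_1 := abs_lt.1 (h 2 0 5 (by decide) 1 (by decide))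
  have c4 := abs_choice (p 0 2 - p 5 2)
  have a5_0 := abs_lt.1 (h 1 1 2 (by decide) 0 (by decide))
  have a5_1 := abs_lt.1 (h 1 1 2 (by decide) 2 (by decide))
  have c5 := abs_choice (p 1 1 - p 2 1)
  have a6_0 := abs_lt.1 (h 1 1 3 (by decide) 0 (by decide))
  have a6_1 := abs_lt.1 (h 1 1 3 (by decide) 2 (by decide))
  have c6 := abs_choice (p 1 1 - p 3 1)
  have a7_0 := abs_lt.1 (h 0 1 4 (by decide) 1 (by decide))
  have a7_1 := abs_lt.1 (h 0 1 4 (by decide) 2 (by decide))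
  have c7 := abs_choice (p 1 0 - p 4 0)
  have a8_0 := abs_lt.1 (h 2 1 5 (by decide) 0 (by decide))
  have a8_1 := abs_lt.1 (h 2 1 5 (by decide) 1 (by decide))
  have c8 := abs_choice (p 1 2 - p 5 2)
  have a9_0 := abs_lt.1 (h 2 2 3 (by decide) 0 (by decide))
  have a9_1 := abs_lt.1 (h 2 2 3 (by decide) 1 (by decide))
  have c9 := abs_choice (p 2 2 - p 3 2)
  have a10_0 := abs_lt.1 (h 1 2 4 (by decide) 0 (by decide))
  have a10_1 := abs_lt.1 (h 1 2 4 (by decide) 2 (by decide))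
  have c10 := abs_choice (p 2 1 - p 4 1)
  have a11_0 := abs_lt.1 (h 2 2 5 (by decide) 0 (by decide))
  have a11_1 := abs_lt.1 (h 2 2 5 (by decide) 1 (by decide))
  have c11 := abs_choice (p 2 2 - p 5 2)
  have a12_0 := abs_lt.1 (h 2 3 4 (by decide) 0 (by decide))
  have a12_1 := abs_lt.1 (h 2 3 4 (by decide) 1 (by decide))
  have c12 := abs_choice (p 3 2 - p 4 2)
  have a13_0 := abs_lt.1 (h 0 3 5 (by decide) 1 (by decide))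
  have a13_1 := abs_lt.1 (h 0 3 5 (by decide) 2 (by decide))
  have c13 := abs_choice (p 3 0 - p 5 0)
  have a14_0 := abs_lt.1 (h 1 4 5 (by decide) 0 (by decide))
  have a14_1 := abs_lt.1 (h 1 4 5 (by decide) 2 (by decide))
  have c14 := abs_choice (p 4 1 - p 5 1)
  rcases c13 with c13 | c13
  · rcases c6 with c6 | c6
    · rcases c12 with c12 | c12
      · rcases c9 with c9 | c9
        · rcases c10 with c10 | c10
          · linarith [c13, a13_0.1, a13_0.2, a13_1.1, a13_1.2, c6, a6_0.1, a6_0.2, a6_1.1, a6_1.2, c12, a12_0.1, a12_0.2, a12_1.1, a12_1.2, c9, a9_0.1, a9_0.2, a9_1.1, a9_1.2, c10, a10_0.1, a10_0.2, a10_1.1, a10_1.2]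
          · linarith [c13, a13_0.1, a13_0.2, a13_1.1, a13_1.2, c6, a6_0.1, a6_0.2, a6_1.1, a6_1.2, c12, a12_0.1, a12_0.2, a12_1.1, a12_1.2, c9, a9_0.1, a9_0.2, a9_1.1, a9_1.2, c10, a10_0.1, a10_0.2, a10_1.1, a10_1.2]
        · rcases c11 with c11 | c11
          · linarith [c13, a13_0.1, a13_0.2, a13_1.1, a13_1.2, c6, a6_0.1, a6_0.2, a6_1.1, a6_1.2, c12, a12_0.1, a12_0.2, a12_1.1, a12_1.2, c9, a9_0.1, a9_0.2, a9_1.1, a9_1.2, c11, a11_0.1, a11_0.2, a11_1.1, a11_1.2]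
          · rcases c5 with c5 | c5
            · rcases c8 with c8 | c8
              · linarith [c13, a13_0.1, a13_0.2, a13_1.1, a13_1.2, c6, a6_0.1, a6_0.2, a6_1.1, a6_1.2, c12, a12_0.1, a12_0.2, a12_1.1, a12_1.2, c9, a9_0.1, a9_0.2, a9_1.1, a9_1.2, c11, a11_0.1, a11_0.2, a11_1.1, a11_1.2, c5, a5_0.1, a5_0.2, a5_1.1, a5_1.2, c8, a8_0.1, a8_0.2, a8_1.1, a8_1.2]
              · rcases c14 with c14 | c14
                · linarith [c13, a13_0.1, a13_0.2, a13_1.1, a13_1.2, c6, a6_0.1, a6_0.2, a6_1.1, a6_1.2, c12, a12_0.1, a12_0.2, a12_1.1, a12_1.2, c9, a9_0.1, a9_0.2, a9_1.1, a9_1.2, c11, a11_0.1, a11_0.2, a11_1.1, a11_1.2, c5, a5_0.1, a5_0.2, a5_1.1, a5_1.2, c8, a8_0.1, a8_0.2, a8_1.1, a8_1.2, c14, a14_0.1, a14_0.2, a14_1.1, a14_1.2]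
                · rcases c7 with c7 | c7
                  · linarith [c13, a13_0.1, a13_0.2, a13_1.1, a13_1.2, c6, a6_0.1, a6_0.2, a6_1.1, a6_1.2, c12, a12_0.1, a12_0.2, a12_1.1, a12_1.2, c9, a9_0.1, a9_0.2, a9_1.1, a9_1.2, c11, a11_0.1, a11_0.2, a11_1.1, a11_1.2, c5, a5_0.1, a5_0.2, a5_1.1, a5_1.2, c8, a8_0.1, a8_0.2, a8_1.1, a8_1.2, c14, a14_0.1, a14_0.2, a14_1.1, a14_1.2, c7, a7_0.1, a7_0.2, a7_1.1, a7_1.2]
                  · linarith [c13, a13_0.1, a13_0.2, a13_1.1, a13_1.2, c6, a6_0.1, a6_0.2, a6_1.1, a6_1.2, c12, a12_0.1, a12_0.2, a12_1.1, a12_1.2, c9, a9_0.1, a9_0.2, a9_1.1, a9_1.2, c11, a11_0.1, a11_0.2, a11_1.1, a11_1.2, c5, a5_0.1, a5_0.2, a5_1.1, a5_1.2, c8, a8_0.1, a8_0.2, a8_1.1, a8_1.2, c14, a14_0.1, a14_0.2, a14_1.1, a14_1.2, c7, a7_0.1, a7_0.2, a7_1.1, a7_1.2]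
            · linarith [c13, a13_0.1, a13_0.2, a13_1.1, a13_1.2, c6, a6_0.1, a6_0.2, a6_1.1, a6_1.2, c12, a12_0.1, a12_0.2, a12_1.1, a12_1.2, c9, a9_0.1, a9_0.2, a9_1.1, a9_1.2, c11, a11_0.1, a11_0.2, a11_1.1, a11_1.2, c5, a5_0.1, a5_0.2, a5_1.1, a5_1.2]
      · rcases c9 with c9 | c9
        · rcases c11 with c11 | c11
          · rcases c5 with c5 | c5
            · rcases c8 with c8 | c8
              · rcases c14 with c14 | c14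
                · linarith [c13, a13_0.1, a13_0.2, a13_1.1, a13_1.2, c6, a6_0.1, a6_0.2, a6_1.1, a6_1.2, c12, a12_0.1, a12_0.2, a12_1.1, a12_1.2, c9, a9_0.1, a9_0.2, a9_1.1, a9_1.2, c11, a11_0.1, a11_0.2, a11_1.1, a11_1.2, c5, a5_0.1, a5_0.2, a5_1.1, a5_1.2, c8, a8_0.1, a8_0.2, a8_1.1, a8_1.2, c14, a14_0.1, a14_0.2, a14_1.1, a14_1.2]
                · rcases c7 with c7 | c7
                  · linarith [c13, a13_0.1, a13_0.2, a13_1.1, a13_1.2, c6, a6_0.1, a6_0.2, a6_1.1, a6_1.2, c12, a12_0.1, a12_0.2, a12_1.1, a12_1.2, c9, a9_0.1, a9_0.2, a9_1.1, a9_1.2, c11, a11_0.1, a11_0.2, a11_1.1, a11_1.2, c5, a5_0.1, a5_0.2, a5_1.1, a5_1.2, c8, a8_0.1, a8_0.2, a8_1.1, a8_1.2, c14, a14_0.1, a14_0.2, a14_1.1, a14_1.2, c7, a7_0.1, a7_0.2, a7_1.1, a7_1.2]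
                  · linarith [c13, a13_0.1, a13_0.2, a13_1.1, a13_1.2, c6, a6_0.1, a6_0.2, a6_1.1, a6_1.2, c12, a12_0.1, a12_0.2, a12_1.1, a12_1.2, c9, a9_0.1, a9_0.2, a9_1.1, a9_1.2, c11, a11_0.1, a11_0.2, a11_1.1, a11_1.2, c5, a5_0.1, a5_0.2, a5_1.1, a5_1.2, c8, a8_0.1, a8_0.2, a8_1.1, a8_1.2, c14, a14_0.1, a14_0.2, a14_1.1, a14_1.2, c7, a7_0.1, a7_0.2, a7_1.1, a7_1.2]
              · linarith [c13, a13_0.1, a13_0.2, a13_1.1, a13_1.2, c6, a6_0.1, a6_0.2, a6_1.1, a6_1.2, c12, a12_0.1, a12_0.2, a12_1.1, a12_1.2, c9, a9_0.1, a9_0.2, a9_1.1, a9_1.2, c11, a11_0.1, a11_0.2, a11_1.1, a11_1.2, c5, a5_0.1, a5_0.2, a5_1.1, a5_1.2, c8, a8_0.1, a8_0.2, a8_1.1, a8_1.2]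
            · linarith [c13, a13_0.1, a13_0.2, a13_1.1, a13_1.2, c6, a6_0.1, a6_0.2, a6_1.1, a6_1.2, c12, a12_0.1, a12_0.2, a12_1.1, a12_1.2, c9, a9_0.1, a9_0.2, a9_1.1, a9_1.2, c11, a11_0.1, a11_0.2, a11_1.1, a11_1.2, c5, a5_0.1, a5_0.2, a5_1.1, a5_1.2]
          · linarith [c13, a13_0.1, a13_0.2, a13_1.1, a13_1.2, c6, a6_0.1, a6_0.2, a6_1.1, a6_1.2, c12, a12_0.1, a12_0.2, a12_1.1, a12_1.2, c9, a9_0.1, a9_0.2, a9_1.1, a9_1.2, c11, a11_0.1, a11_0.2, a11_1.1, a11_1.2]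
        · rcases c10 with c10 | c10
          · linarith [c13, a13_0.1, a13_0.2, a13_1.1, a13_1.2, c6, a6_0.1, a6_0.2, a6_1.1, a6_1.2, c12, a12_0.1, a12_0.2, a12_1.1, a12_1.2, c9, a9_0.1, a9_0.2, a9_1.1, a9_1.2, c10, a10_0.1, a10_0.2, a10_1.1, a10_1.2]
          · linarith [c13, a13_0.1, a13_0.2, a13_1.1, a13_1.2, c6, a6_0.1, a6_0.2, a6_1.1, a6_1.2, c12, a12_0.1, a12_0.2, a12_1.1, a12_1.2, c9, a9_0.1, a9_0.2, a9_1.1, a9_1.2, c10, a10_0.1, a10_0.2, a10_1.1, a10_1.2]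
    · rcases c12 with c12 | c12
      · rcases c9 with c9 | c9
        · rcases c10 with c10 | c10
          · linarith [c13, a13_0.1, a13_0.2, a13_1.1, a13_1.2, c6, a6_0.1, a6_0.2, a6_1.1, a6_1.2, c12, a12_0.1, a12_0.2, a12_1.1, a12_1.2, c9, a9_0.1, a9_0.2, a9_1.1, a9_1.2, c10, a10_0.1, a10_0.2, a10_1.1, a10_1.2]
          · linarith [c13, a13_0.1, a13_0.2, a13_1.1, a13_1.2, c6, a6_0.1, a6_0.2, a6_1.1, a6_1.2, c12, a12_0.1, a12_0.2, a12_1.1, a12_1.2, c9, a9_0.1, a9_0.2, a9_1.1, a9_1.2, c10, a10_0.1, a10_0.2, a10_1.1, a10_1.2]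
        · rcases c11 with c11 | c11
          · linarith [c13, a13_0.1, a13_0.2, a13_1.1, a13_1.2, c6, a6_0.1, a6_0.2, a6_1.1, a6_1.2, c12, a12_0.1, a12_0.2, a12_1.1, a12_1.2, c9, a9_0.1, a9_0.2, a9_1.1, a9_1.2, c11, a11_0.1, a11_0.2, a11_1.1, a11_1.2]
          · rcases c5 with c5 | c5
            · linarith [c13, a13_0.1, a13_0.2, a13_1.1, a13_1.2, c6, a6_0.1, a6_0.2, a6_1.1, a6_1.2, c12, a12_0.1, a12_0.2, a12_1.1, a12_1.2, c9, a9_0.1, a9_0.2, a9_1.1, a9_1.2, c11, a11_0.1, a11_0.2, a11_1.1, a11_1.2, c5, a5_0.1, a5_0.2, a5_1.1, a5_1.2]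
            · rcases c8 with c8 | c8
              · linarith [c13, a13_0.1, a13_0.2, a13_1.1, a13_1.2, c6, a6_0.1, a6_0.2, a6_1.1, a6_1.2, c12, a12_0.1, a12_0.2, a12_1.1, a12_1.2, c9, a9_0.1, a9_0.2, a9_1.1, a9_1.2, c11, a11_0.1, a11_0.2, a11_1.1, a11_1.2, c5, a5_0.1, a5_0.2, a5_1.1, a5_1.2, c8, a8_0.1, a8_0.2, a8_1.1, a8_1.2]
              · rcases c14 with c14 | c14
                · rcases c7 with c7 | c7
                  · linarith [c13, a13_0.1, a13_0.2, a13_1.1, a13_1.2, c6, a6_0.1, a6_0.2, a6_1.1, a6_1.2, c12, a12_0.1, a12_0.2, a12_1.1, a12_1.2, c9, a9_0.1, a9_0.2, a9_1.1, a9_1.2, c11, a11_0.1, a11_0.2, a11_1.1, a11_1.2, c5, a5_0.1, a5_0.2, a5_1.1, a5_1.2, c8, a8_0.1, a8_0.2, a8_1.1, a8_1.2, c14, a14_0.1, a14_0.2, a14_1.1, a14_1.2, c7, a7_0.1, a7_0.2, a7_1.1, a7_1.2]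
                  · linarith [c13, a13_0.1, a13_0.2, a13_1.1, a13_1.2, c6, a6_0.1, a6_0.2, a6_1.1, a6_1.2, c12, a12_0.1, a12_0.2, a12_1.1, a12_1.2, c9, a9_0.1, a9_0.2, a9_1.1, a9_1.2, c11, a11_0.1, a11_0.2, a11_1.1, a11_1.2, c5, a5_0.1, a5_0.2, a5_1.1, a5_1.2, c8, a8_0.1, a8_0.2, a8_1.1, a8_1.2, c14, a14_0.1, a14_0.2, a14_1.1, a14_1.2, c7, a7_0.1, a7_0.2, a7_1.1, a7_1.2]
                · linarith [c13, a13_0.1, a13_0.2, a13_1.1, a13_1.2, c6, a6_0.1, a6_0.2, a6_1.1, a6_1.2, c12, a12_0.1, a12_0.2, a12_1.1, a12_1.2, c9, a9_0.1, a9_0.2, a9_1.1, a9_1.2, c11, a11_0.1, a11_0.2, a11_1.1, a11_1.2, c5, a5_0.1, a5_0.2, a5_1.1, a5_1.2, c8, a8_0.1, a8_0.2, a8_1.1, a8_1.2, c14, a14_0.1, a14_0.2, a14_1.1, a14_1.2]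
      · rcases c9 with c9 | c9
        · rcases c11 with c11 | c11
          · rcases c5 with c5 | c5
            · linarith [c13, a13_0.1, a13_0.2, a13_1.1, a13_1.2, c6, a6_0.1, a6_0.2, a6_1.1, a6_1.2, c12, a12_0.1, a12_0.2, a12_1.1, a12_1.2, c9, a9_0.1, a9_0.2, a9_1.1, a9_1.2, c11, a11_0.1, a11_0.2, a11_1.1, a11_1.2, c5, a5_0.1, a5_0.2, a5_1.1, a5_1.2]
            · rcases c8 with c8 | c8
              · rcases c14 with c14 | c14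
                · rcases c7 with c7 | c7
                  · linarith [c13, a13_0.1, a13_0.2, a13_1.1, a13_1.2, c6, a6_0.1, a6_0.2, a6_1.1, a6_1.2, c12, a12_0.1, a12_0.2, a12_1.1, a12_1.2, c9, a9_0.1, a9_0.2, a9_1.1, a9_1.2, c11, a11_0.1, a11_0.2, a11_1.1, a11_1.2, c5, a5_0.1, a5_0.2, a5_1.1, a5_1.2, c8, a8_0.1, a8_0.2, a8_1.1, a8_1.2, c14, a14_0.1, a14_0.2, a14_1.1, a14_1.2, c7, a7_0.1, a7_0.2, a7_1.1, a7_1.2]
                  · linarith [c13, a13_0.1, a13_0.2, a13_1.1, a13_1.2, c6, a6_0.1, a6_0.2, a6_1.1, a6_1.2, c12, a12_0.1, a12_0.2, a12_1.1, a12_1.2, c9, a9_0.1, a9_0.2, a9_1.1, a9_1.2, c11, a11_0.1, a11_0.2, a11_1.1, a11_1.2, c5, a5_0.1, a5_0.2, a5_1.1, a5_1.2, c8, a8_0.1, a8_0.2, a8_1.1, a8_1.2, c14, a14_0.1, a14_0.2, a14_1.1, a14_1.2, c7, a7_0.1, a7_0.2, a7_1.1, a7_1.2]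
                · linarith [c13, a13_0.1, a13_0.2, a13_1.1, a13_1.2, c6, a6_0.1, a6_0.2, a6_1.1, a6_1.2, c12, a12_0.1, a12_0.2, a12_1.1, a12_1.2, c9, a9_0.1, a9_0.2, a9_1.1, a9_1.2, c11, a11_0.1, a11_0.2, a11_1.1, a11_1.2, c5, a5_0.1, a5_0.2, a5_1.1, a5_1.2, c8, a8_0.1, a8_0.2, a8_1.1, a8_1.2, c14, a14_0.1, a14_0.2, a14_1.1, a14_1.2]
              · linarith [c13, a13_0.1, a13_0.2, a13_1.1, a13_1.2, c6, a6_0.1, a6_0.2, a6_1.1, a6_1.2, c12, a12_0.1, a12_0.2, a12_1.1, a12_1.2, c9, a9_0.1, a9_0.2, a9_1.1, a9_1.2, c11, a11_0.1, a11_0.2, a11_1.1, a11_1.2, c5, a5_0.1, a5_0.2, a5_1.1, a5_1.2, c8, a8_0.1, a8_0.2, a8_1.1, a8_1.2]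
          · linarith [c13, a13_0.1, a13_0.2, a13_1.1, a13_1.2, c6, a6_0.1, a6_0.2, a6_1.1, a6_1.2, c12, a12_0.1, a12_0.2, a12_1.1, a12_1.2, c9, a9_0.1, a9_0.2, a9_1.1, a9_1.2, c11, a11_0.1, a11_0.2, a11_1.1, a11_1.2]
        · rcases c10 with c10 | c10
          · linarith [c13, a13_0.1, a13_0.2, a13_1.1, a13_1.2, c6, a6_0.1, a6_0.2, a6_1.1, a6_1.2, c12, a12_0.1, a12_0.2, a12_1.1, a12_1.2, c9, a9_0.1, a9_0.2, a9_1.1, a9_1.2, c10, a10_0.1, a10_0.2, a10_1.1, a10_1.2]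
          · linarith [c13, a13_0.1, a13_0.2, a13_1.1, a13_1.2, c6, a6_0.1, a6_0.2, a6_1.1, a6_1.2, c12, a12_0.1, a12_0.2, a12_1.1, a12_1.2, c9, a9_0.1, a9_0.2, a9_1.1, a9_1.2, c10, a10_0.1, a10_0.2, a10_1.1, a10_1.2]
  · rcases c6 with c6 | c6
    · rcases c12 with c12 | c12
      · rcases c9 with c9 | c9
        · rcases c10 with c10 | c10
          · linarith [c13, a13_0.1, a13_0.2, a13_1.1, a13_1.2, c6, a6_0.1, a6_0.2, a6_1.1, a6_1.2, c12, a12_0.1, a12_0.2, a12_1.1, a12_1.2, c9, a9_0.1, a9_0.2, a9_1.1, a9_1.2, c10, a10_0.1, a10_0.2, a10_1.1, a10_1.2]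
          · linarith [c13, a13_0.1, a13_0.2, a13_1.1, a13_1.2, c6, a6_0.1, a6_0.2, a6_1.1, a6_1.2, c12, a12_0.1, a12_0.2, a12_1.1, a12_1.2, c9, a9_0.1, a9_0.2, a9_1.1, a9_1.2, c10, a10_0.1, a10_0.2, a10_1.1, a10_1.2]
        · rcases c11 with c11 | c11
          · linarith [c13, a13_0.1, a13_0.2, a13_1.1, a13_1.2, c6, a6_0.1, a6_0.2, a6_1.1, a6_1.2, c12, a12_0.1, a12_0.2, a12_1.1, a12_1.2, c9, a9_0.1, a9_0.2, a9_1.1, a9_1.2, c11, a11_0.1, a11_0.2, a11_1.1, a11_1.2]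
          · rcases c5 with c5 | c5
            · rcases c8 with c8 | c8
              · linarith [c13, a13_0.1, a13_0.2, a13_1.1, a13_1.2, c6, a6_0.1, a6_0.2, a6_1.1, a6_1.2, c12, a12_0.1, a12_0.2, a12_1.1, a12_1.2, c9, a9_0.1, a9_0.2, a9_1.1, a9_1.2, c11, a11_0.1, a11_0.2, a11_1.1, a11_1.2, c5, a5_0.1, a5_0.2, a5_1.1, a5_1.2, c8, a8_0.1, a8_0.2, a8_1.1, a8_1.2]
              · rcases c14 with c14 | c14
                · linarith [c13, a13_0.1, a13_0.2, a13_1.1, a13_1.2, c6, a6_0.1, a6_0.2, a6_1.1, a6_1.2, c12, a12_0.1, a12_0.2, a12_1.1, a12_1.2, c9, a9_0.1, a9_0.2, a9_1.1, a9_1.2, c11, a11_0.1, a11_0.2, a11_1.1, a11_1.2, c5, a5_0.1, a5_0.2, a5_1.1, a5_1.2, c8, a8_0.1, a8_0.2, a8_1.1, a8_1.2, c14, a14_0.1, a14_0.2, a14_1.1, a14_1.2]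
                · rcases c7 with c7 | c7
                  · linarith [c13, a13_0.1, a13_0.2, a13_1.1, a13_1.2, c6, a6_0.1, a6_0.2, a6_1.1, a6_1.2, c12, a12_0.1, a12_0.2, a12_1.1, a12_1.2, c9, a9_0.1, a9_0.2, a9_1.1, a9_1.2, c11, a11_0.1, a11_0.2, a11_1.1, a11_1.2, c5, a5_0.1, a5_0.2, a5_1.1, a5_1.2, c8, a8_0.1, a8_0.2, a8_1.1, a8_1.2, c14, a14_0.1, a14_0.2, a14_1.1, a14_1.2, c7, a7_0.1, a7_0.2, a7_1.1, a7_1.2]
                  · linarith [c13, a13_0.1, a13_0.2, a13_1.1, a13_1.2, c6, a6_0.1, a6_0.2, a6_1.1, a6_1.2, c12, a12_0.1, a12_0.2, a12_1.1, a12_1.2, c9, a9_0.1, a9_0.2, a9_1.1, a9_1.2, c11, a11_0.1, a11_0.2, a11_1.1, a11_1.2, c5, a5_0.1, a5_0.2, a5_1.1, a5_1.2, c8, a8_0.1, a8_0.2, a8_1.1, a8_1.2, c14, a14_0.1, a14_0.2, a14_1.1, a14_1.2, c7, a7_0.1, a7_0.2, a7_1.1, a7_1.2]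
            · linarith [c13, a13_0.1, a13_0.2, a13_1.1, a13_1.2, c6, a6_0.1, a6_0.2, a6_1.1, a6_1.2, c12, a12_0.1, a12_0.2, a12_1.1, a12_1.2, c9, a9_0.1, a9_0.2, a9_1.1, a9_1.2, c11, a11_0.1, a11_0.2, a11_1.1, a11_1.2, c5, a5_0.1, a5_0.2, a5_1.1, a5_1.2]
      · rcases c9 with c9 | c9
        · rcases c11 with c11 | c11
          · rcases c5 with c5 | c5
            · rcases c8 with c8 | c8
              · rcases c14 with c14 | c14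
                · linarith [c13, a13_0.1, a13_0.2, a13_1.1, a13_1.2, c6, a6_0.1, a6_0.2, a6_1.1, a6_1.2, c12, a12_0.1, a12_0.2, a12_1.1, a12_1.2, c9, a9_0.1, a9_0.2, a9_1.1, a9_1.2, c11, a11_0.1, a11_0.2, a11_1.1, a11_1.2, c5, a5_0.1, a5_0.2, a5_1.1, a5_1.2, c8, a8_0.1, a8_0.2, a8_1.1, a8_1.2, c14, a14_0.1, a14_0.2, a14_1.1, a14_1.2]
                · rcases c7 with c7 | c7
                  · linarith [c13, a13_0.1, a13_0.2, a13_1.1, a13_1.2, c6, a6_0.1, a6_0.2, a6_1.1, a6_1.2, c12, a12_0.1, a12_0.2, a12_1.1, a12_1.2, c9, a9_0.1, a9_0.2, a9_1.1, a9_1.2, c11, a11_0.1, a11_0.2, a11_1.1, a11_1.2, c5, a5_0.1, a5_0.2, a5_1.1, a5_1.2, c8, a8_0.1, a8_0.2, a8_1.1, a8_1.2, c14, a14_0.1, a14_0.2, a14_1.1, a14_1.2, c7, a7_0.1, a7_0.2, a7_1.1, a7_1.2]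
                  · linarith [c13, a13_0.1, a13_0.2, a13_1.1, a13_1.2, c6, a6_0.1, a6_0.2, a6_1.1, a6_1.2, c12, a12_0.1, a12_0.2, a12_1.1, a12_1.2, c9, a9_0.1, a9_0.2, a9_1.1, a9_1.2, c11, a11_0.1, a11_0.2, a11_1.1, a11_1.2, c5, a5_0.1, a5_0.2, a5_1.1, a5_1.2, c8, a8_0.1, a8_0.2, a8_1.1, a8_1.2, c14, a14_0.1, a14_0.2, a14_1.1, a14_1.2, c7, a7_0.1, a7_0.2, a7_1.1, a7_1.2]
              · linarith [c13, a13_0.1, a13_0.2, a13_1.1, a13_1.2, c6, a6_0.1, a6_0.2, a6_1.1, a6_1.2, c12, a12_0.1, a12_0.2, a12_1.1, a12_1.2, c9, a9_0.1, a9_0.2, a9_1.1, a9_1.2, c11, a11_0.1, a11_0.2, a11_1.1, a11_1.2, c5, a5_0.1, a5_0.2, a5_1.1, a5_1.2, c8, a8_0.1, a8_0.2, a8_1.1, a8_1.2]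
            · linarith [c13, a13_0.1, a13_0.2, a13_1.1, a13_1.2, c6, a6_0.1, a6_0.2, a6_1.1, a6_1.2, c12, a12_0.1, a12_0.2, a12_1.1, a12_1.2, c9, a9_0.1, a9_0.2, a9_1.1, a9_1.2, c11, a11_0.1, a11_0.2, a11_1.1, a11_1.2, c5, a5_0.1, a5_0.2, a5_1.1, a5_1.2]
          · linarith [c13, a13_0.1, a13_0.2, a13_1.1, a13_1.2, c6, a6_0.1, a6_0.2, a6_1.1, a6_1.2, c12, a12_0.1, a12_0.2, a12_1.1, a12_1.2, c9, a9_0.1, a9_0.2, a9_1.1, a9_1.2, c11, a11_0.1, a11_0.2, a11_1.1, a11_1.2]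
        · rcases c10 with c10 | c10
          · linarith [c13, a13_0.1, a13_0.2, a13_1.1, a13_1.2, c6, a6_0.1, a6_0.2, a6_1.1, a6_1.2, c12, a12_0.1, a12_0.2, a12_1.1, a12_1.2, c9, a9_0.1, a9_0.2, a9_1.1, a9_1.2, c10, a10_0.1, a10_0.2, a10_1.1, a10_1.2]
          · linarith [c13, a13_0.1, a13_0.2, a13_1.1, a13_1.2, c6, a6_0.1, a6_0.2, a6_1.1, a6_1.2, c12, a12_0.1, a12_0.2, a12_1.1, a12_1.2, c9, a9_0.1, a9_0.2, a9_1.1, a9_1.2, c10, a10_0.1, a10_0.2, a10_1.1, a10_1.2]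
    · rcases c12 with c12 | c12
      · rcases c9 with c9 | c9
        · rcases c10 with c10 | c10
          · linarith [c13, a13_0.1, a13_0.2, a13_1.1, a13_1.2, c6, a6_0.1, a6_0.2, a6_1.1, a6_1.2, c12, a12_0.1, a12_0.2, a12_1.1, a12_1.2, c9, a9_0.1, a9_0.2, a9_1.1, a9_1.2, c10, a10_0.1, a10_0.2, a10_1.1, a10_1.2]
          · linarith [c13, a13_0.1, a13_0.2, a13_1.1, a13_1.2, c6, a6_0.1, a6_0.2, a6_1.1, a6_1.2, c12, a12_0.1, a12_0.2, a12_1.1, a12_1.2, c9, a9_0.1, a9_0.2, a9_1.1, a9_1.2, c10, a10_0.1, a10_0.2, a10_1.1, a10_1.2]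
        · rcases c11 with c11 | c11
          · linarith [c13, a13_0.1, a13_0.2, a13_1.1, a13_1.2, c6, a6_0.1, a6_0.2, a6_1.1, a6_1.2, c12, a12_0.1, a12_0.2, a12_1.1, a12_1.2, c9, a9_0.1, a9_0.2, a9_1.1, a9_1.2, c11, a11_0.1, a11_0.2, a11_1.1, a11_1.2]
          · rcases c5 with c5 | c5
            · linarith [c13, a13_0.1, a13_0.2, a13_1.1, a13_1.2, c6, a6_0.1, a6_0.2, a6_1.1, a6_1.2, c12, a12_0.1, a12_0.2, a12_1.1, a12_1.2, c9, a9_0.1, a9_0.2, a9_1.1, a9_1.2, c11, a11_0.1, a11_0.2, a11_1.1, a11_1.2, c5, a5_0.1, a5_0.2, a5_1.1, a5_1.2]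
            · rcases c8 with c8 | c8
              · linarith [c13, a13_0.1, a13_0.2, a13_1.1, a13_1.2, c6, a6_0.1, a6_0.2, a6_1.1, a6_1.2, c12, a12_0.1, a12_0.2, a12_1.1, a12_1.2, c9, a9_0.1, a9_0.2, a9_1.1, a9_1.2, c11, a11_0.1, a11_0.2, a11_1.1, a11_1.2, c5, a5_0.1, a5_0.2, a5_1.1, a5_1.2, c8, a8_0.1, a8_0.2, a8_1.1, a8_1.2]
              · rcases c14 with c14 | c14
                · rcases c7 with c7 | c7
                  · linarith [c13, a13_0.1, a13_0.2, a13_1.1, a13_1.2, c6, a6_0.1, a6_0.2, a6_1.1, a6_1.2, c12, a12_0.1, a12_0.2, a12_1.1, a12_1.2, c9, a9_0.1, a9_0.2, a9_1.1, a9_1.2, c11, a11_0.1, a11_0.2, a11_1.1, a11_1.2, c5, a5_0.1, a5_0.2, a5_1.1, a5_1.2, c8, a8_0.1, a8_0.2, a8_1.1, a8_1.2, c14, a14_0.1, a14_0.2, a14_1.1, a14_1.2, c7, a7_0.1, a7_0.2, a7_1.1, a7_1.2]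
                  · linarith [c13, a13_0.1, a13_0.2, a13_1.1, a13_1.2, c6, a6_0.1, a6_0.2, a6_1.1, a6_1.2, c12, a12_0.1, a12_0.2, a12_1.1, a12_1.2, c9, a9_0.1, a9_0.2, a9_1.1, a9_1.2, c11, a11_0.1, a11_0.2, a11_1.1, a11_1.2, c5, a5_0.1, a5_0.2, a5_1.1, a5_1.2, c8, a8_0.1, a8_0.2, a8_1.1, a8_1.2, c14, a14_0.1, a14_0.2, a14_1.1, a14_1.2, c7, a7_0.1, a7_0.2, a7_1.1, a7_1.2]
                · linarith [c13, a13_0.1, a13_0.2, a13_1.1, a13_1.2, c6, a6_0.1, a6_0.2, a6_1.1, a6_1.2, c12, a12_0.1, a12_0.2, a12_1.1, a12_1.2, c9, a9_0.1, a9_0.2, a9_1.1, a9_1.2, c11, a11_0.1, a11_0.2, a11_1.1, a11_1.2, c5, a5_0.1, a5_0.2, a5_1.1, a5_1.2, c8, a8_0.1, a8_0.2, a8_1.1, a8_1.2, c14, a14_0.1, a14_0.2, a14_1.1, a14_1.2]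
      · rcases c9 with c9 | c9
        · rcases c11 with c11 | c11
          · rcases c5 with c5 | c5
            · linarith [c13, a13_0.1, a13_0.2, a13_1.1, a13_1.2, c6, a6_0.1, a6_0.2, a6_1.1, a6_1.2, c12, a12_0.1, a12_0.2, a12_1.1, a12_1.2, c9, a9_0.1, a9_0.2, a9_1.1, a9_1.2, c11, a11_0.1, a11_0.2, a11_1.1, a11_1.2, c5, a5_0.1, a5_0.2, a5_1.1, a5_1.2]
            · rcases c8 with c8 | c8
              · rcases c14 with c14 | c14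
                · rcases c7 with c7 | c7
                  · linarith [c13, a13_0.1, a13_0.2, a13_1.1, a13_1.2, c6, a6_0.1, a6_0.2, a6_1.1, a6_1.2, c12, a12_0.1, a12_0.2, a12_1.1, a12_1.2, c9, a9_0.1, a9_0.2, a9_1.1, a9_1.2, c11, a11_0.1, a11_0.2, a11_1.1, a11_1.2, c5, a5_0.1, a5_0.2, a5_1.1, a5_1.2, c8, a8_0.1, a8_0.2, a8_1.1, a8_1.2, c14, a14_0.1, a14_0.2, a14_1.1, a14_1.2, c7, a7_0.1, a7_0.2, a7_1.1, a7_1.2]
                  · linarith [c13, a13_0.1, a13_0.2, a13_1.1, a13_1.2, c6, a6_0.1, a6_0.2, a6_1.1, a6_1.2, c12, a12_0.1, a12_0.2, a12_1.1, a12_1.2, c9, a9_0.1, a9_0.2, a9_1.1, a9_1.2, c11, a11_0.1, a11_0.2, a11_1.1, a11_1.2, c5, a5_0.1, a5_0.2, a5_1.1, a5_1.2, c8, a8_0.1, a8_0.2, a8_1.1, a8_1.2, c14, a14_0.1, a14_0.2, a14_1.1, a14_1.2, c7, a7_0.1, a7_0.2, a7_1.1, a7_1.2]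
                · linarith [c13, a13_0.1, a13_0.2, a13_1.1, a13_1.2, c6, a6_0.1, a6_0.2, a6_1.1, a6_1.2, c12, a12_0.1, a12_0.2, a12_1.1, a12_1.2, c9, a9_0.1, a9_0.2, a9_1.1, a9_1.2, c11, a11_0.1, a11_0.2, a11_1.1, a11_1.2, c5, a5_0.1, a5_0.2, a5_1.1, a5_1.2, c8, a8_0.1, a8_0.2, a8_1.1, a8_1.2, c14, a14_0.1, a14_0.2, a14_1.1, a14_1.2]
              · linarith [c13, a13_0.1, a13_0.2, a13_1.1, a13_1.2, c6, a6_0.1, a6_0.2, a6_1.1, a6_1.2, c12, a12_0.1, a12_0.2, a12_1.1, a12_1.2, c9, a9_0.1, a9_0.2, a9_1.1, a9_1.2, c11, a11_0.1, a11_0.2, a11_1.1, a11_1.2, c5, a5_0.1, a5_0.2, a5_1.1, a5_1.2, c8, a8_0.1, a8_0.2, a8_1.1, a8_1.2]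
          · linarith [c13, a13_0.1, a13_0.2, a13_1.1, a13_1.2, c6, a6_0.1, a6_0.2, a6_1.1, a6_1.2, c12, a12_0.1, a12_0.2, a12_1.1, a12_1.2, c9, a9_0.1, a9_0.2, a9_1.1, a9_1.2, c11, a11_0.1, a11_0.2, a11_1.1, a11_1.2]
        · rcases c10 with c10 | c10
          · linarith [c13, a13_0.1, a13_0.2, a13_1.1, a13_1.2, c6, a6_0.1, a6_0.2, a6_1.1, a6_1.2, c12, a12_0.1, a12_0.2, a12_1.1, a12_1.2, c9, a9_0.1, a9_0.2, a9_1.1, a9_1.2, c10, a10_0.1, a10_0.2, a10_1.1, a10_1.2]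
          · linarith [c13, a13_0.1, a13_0.2, a13_1.1, a13_1.2, c6, a6_0.1, a6_0.2, a6_1.1, a6_1.2, c12, a12_0.1, a12_0.2, a12_1.1, a12_1.2, c9, a9_0.1, a9_0.2, a9_1.1, a9_1.2, c10, a10_0.1, a10_0.2, a10_1.1, a10_1.2]

theorem result :
    ¬ (∀ (d : ℕ), 3 ≤ d →
    ∀ (V : Type) [Fintype V] (G : SimpleGraph V) (T : Fin d → SimpleGraph V),
      (∀ i, (T i).IsTree) →
      (∀ i j, i ≠ j → Disjoint (T i) (T j)) →
      G = ⨆ i, T i →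
      ∃ p : V → Fin d → ℝ, ∀ i : Fin d, ∀ u v : V, G.Adj u v →
        ((T i).Adj u v ↔ ∀ j : Fin d, j ≠ i → |p u j - p v j| < |p u i - p v i|)) := by
  intro h
  obtain ⟨p, hp⟩ := h 3 le_rfl (Fin 6) (⨆ i, T i) T T_tree (by
    intro i j hij
    rw [SimpleGraph.disjoint_left]
    intro u v h1 h2
    exact hij (h1.2.symm.trans h2.2)) rfl
  exact core p fun i u v huv => (hp i u v ((le_iSup T i) huv)).1 huv

end Pool.Agent.S07614
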