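import Pool.Statements.S07641
import Pool.Agent.H9.Recon

set_option autoImplicit false
open Pool Pool.MP_229fa6_co

namespace Pool.Agent.S07641

/-- For all large n, any two linear orders on an n-set, and any two distinct points x,y: some alternating composite φ_{z1}, φ_{z2}⁻¹, φ_{z3}, … (odd length) of the point-deleted order isomorphisms is defined at x and y and agrees there with the full isomorphism. -/
theorem result :
  ∃ N : ℕ, ∀ n : ℕ, N ≤ n → ∀ σ τ : Equiv.Perm (Fin n),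
    ∀ R : Fin n → Fin n → Fin n → Prop,
    (∀ z a b : Fin n, R z a b ↔
      (a ≠ z ∧ b ≠ z ∧
        (Finset.univ.filter (fun e : Fin n => e ≠ z ∧ σ e < σ a)).card =
        (Finset.univ.filter (fun e : Fin n => e ≠ z ∧ τ e < τ b)).card)) →
    ∀ x y : Fin n, x ≠ y →
    ∃ k : ℕ, ∃ s : Fin (2 * k + 1) → Fin n, ∃ p q : Fin (2 * k + 1 + 1) → Fin n,
      p 0 = x ∧ q 0 = y ∧
      p (Fin.last (2 * k + 1)) = τ.symm (σ x) ∧
      q (Fin.last (2 * k + 1)) = τ.symm (σ y) ∧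
      ∀ i : Fin (2 * k + 1),
        (Even i.val →
          R (s i) (p i.castSucc) (p i.succ) ∧ R (s i) (q i.castSucc) (q i.succ)) ∧
        (Odd i.val →
          R (s i) (p i.succ) (p i.castSucc) ∧ R (s i) (q i.succ) (q i.castSucc)) := by
  refine ⟨31, fun n hn σ τ R hR x y hxy => ?_⟩
  have hs : ∀ (ρ : Equiv.Perm (Fin n)), ∀ t < n, ∃ z, (fun z => (ρ z).val) z = t :=
    fun ρ t ht => ⟨ρ.symm ⟨t, ht⟩, by simp⟩
  have hi : ∀ (ρ : Equiv.Perm (Fin n)), Function.Injective (fun z => (ρ z).val) :=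
    fun ρ a b h => ρ.injective (Fin.ext h)
  have hD : Pool.Agent.H9.Recon.D (fun z => (σ z).val) (fun z => (τ z).val)
      ((σ x).val, (σ y).val) := by
    have hne : (σ x).val ≠ (σ y).val := fun h => hxy (hi σ h)
    rcases lt_or_gt_of_ne hne with h | h
    · exact Pool.Agent.H9.Recon.main hn (fun z => (σ z).2) (fun z => (τ z).2) (hs σ) (hs τ)
        (hi σ) (hi τ) h (σ y).2
    · exact Pool.Agent.H9.Recon.Dswap (Pool.Agent.H9.Recon.main hn (fun z => (σ z).2)
        (fun z => (τ z).2) (hs σ) (hs τ) (hi σ) (hi τ) h (σ x).2)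
  obtain ⟨P, h1, h2⟩ := hD
  obtain ⟨k, N, e0, e1, hN⟩ := Pool.Agent.H9.Recon.seq h1 h2
  let f : Equiv.Perm (Fin n) → ℕ → Fin n := fun ρ r => if h : r < n then ρ.symm ⟨r, h⟩ else x
  have hf : ∀ (ρ : Equiv.Perm (Fin n)) (r : ℕ), r < n → (ρ (f ρ r)).val = r := fun ρ r h => by simp [f, h]
  have hE : ∀ A B, Pool.Agent.H9.Recon.Edge (fun z => (σ z).val) (fun z => (τ z).val) A B →
      ∃ z, R z (f σ A.1) (f τ B.1) ∧ R z (f σ A.2) (f τ B.2) := by
    rintro A B ⟨z, a1, a2, a3, a4, a5, a6⟩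
    refine ⟨z, (hR _ _ _).2 (Pool.Agent.H9.Recon.rel_iff σ τ _ _ _ ?_),
      (hR _ _ _).2 (Pool.Agent.H9.Recon.rel_iff σ τ _ _ _ ?_)⟩
    · rw [hf σ _ a3, hf τ _ a5]; exact a1
    · rw [hf σ _ a4, hf τ _ a6]; exact a2
  let g : ℕ → Equiv.Perm (Fin n) := fun i => if Even i then σ else τ
  have key : ∀ i : Fin (2 * k + 1), ∃ z,
      (Even i.val → R z (f (g i) (N i).1) (f (g (i + 1)) (N (i + 1)).1) ∧
        R z (f (g i) (N i).2) (f (g (i + 1)) (N (i + 1)).2)) ∧
      (Odd i.val → R z (f (g (i + 1)) (N (i + 1)).1) (f (g i) (N i).1) ∧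
        R z (f (g (i + 1)) (N (i + 1)).2) (f (g i) (N i).2)) := by
    intro i
    rcases Nat.even_or_odd i.val with h | h
    · obtain ⟨z, hz⟩ := hE _ _ ((hN i i.2).1 h)
      have g1 : g i = σ := if_pos h
      have g2 : g (i + 1) = τ := if_neg (by rw [Nat.even_add_one]; exact not_not.2 h)
      rw [g1, g2]
      exact ⟨z, fun _ => hz, fun h' => absurd h (Nat.not_even_iff_odd.2 h')⟩
    · obtain ⟨z, hz⟩ := hE _ _ ((hN i i.2).2 h)
      have g1 : g i = τ := if_neg (Nat.not_even_iff_odd.2 h)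
      have g2 : g (i + 1) = σ := if_pos h.add_one
      rw [g1, g2]
      exact ⟨z, fun h' => absurd h' (Nat.not_even_iff_odd.2 h), fun _ => hz⟩
  choose s hs using key
  have g0 : g 0 = σ := if_pos Even.zero
  have gl : g (2 * k + 1) = τ := if_neg (by rw [Nat.even_add_one]; exact not_not.2 ⟨k, by ring⟩)
  refine ⟨k, s, fun i => f (g i) (N i).1, fun i => f (g i) (N i).2, ?_, ?_, ?_, ?_, fun i => hs i⟩
  · show f (g 0) (N 0).1 = x
    rw [g0, e0]; simp [f]
  · show f (g 0) (N 0).2 = y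
    rw [g0, e0]; simp [f]
  · show f (g (2 * k + 1)) (N (2 * k + 1)).1 = _
    rw [gl, e1]; simp [f]
  · show f (g (2 * k + 1)) (N (2 * k + 1)).2 = _
    rw [gl, e1]; simp [f]

end Pool.Agent.S07641
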