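import Pool.Statements.S07661
import Pool.Agent.H15.UF1

set_option autoImplicit false
open Pool Pool.MP_238aad_co

namespace Pool.Agent.S07661

theorem result :
    ∀ U : Ultrafilter ℕ, (∀ n : ℕ, U ≠ pure n) →
      ∀ f : {s : Set ℕ // s ∈ U} → {s : Set ℕ // s ∈ U}, Monotone f →
        (¬ ∃ y : {s : Set ℕ // s ∈ U}, y ∈ Set.range f ∧
            ∀ c : {s : Set ℕ // s ∈ U},
              (c.1 ≠ Set.univ ∧ ∀ t : {s : Set ℕ // s ∈ U}, c.1 ⊆ t.1 → t.1 = c.1 ∨ t.1 = Set.univ) →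
              y ≤ f c) →
        ∃ g : ↥(Set.range f) → {s : Set ℕ // s ∈ U},
          ∃ h : {s : Set ℕ // s ∈ U} → ↥(Set.range f),
            Monotone g ∧ Monotone h ∧ ∀ x, g (h x) = x := by
  exact Pool.Agent.H15.UF.main

end Pool.Agent.S07661
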