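import Pool.Statements.S07687
import Pool.Agent.H12.ChromAgree

set_option autoImplicit false
open Pool Pool.MP_248d64_co

namespace Pool.Agent.S07687

/-- There is c>0 such that for all t≥3 and n, any finite family of graphs on n labelled vertices in which every pair (G,H), G=H allowed, has G∩H of chromatic number at least t has size at most 2^(C(n,2) − c t²). -/
theorem result :
    ∃ c : ℝ, 0 < c ∧ ∀ t : ℕ, 3 ≤ t → ∀ n : ℕ, ∀ F : Finset (SimpleGraph (Fin n)),
      (∀ G ∈ F, ∀ H ∈ F, (t : ℕ∞) ≤ (G ⊓ H).chromaticNumber) →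
        (F.card : ℝ) ≤ (2 : ℝ) ^ ((n.choose 2 : ℝ) - c * (t : ℝ) ^ 2) := by
  refine ⟨1 / 576, by norm_num, fun t ht n F h => ?_⟩
  refine (Pool.Agent.H12.ChromAgree.family_inf n t (by omega) F h).trans ?_
  refine Real.rpow_le_rpow_of_exponent_le (by norm_num) ?_
  have : (3 : ℝ) ≤ t := by exact_mod_cast ht
  nlinarith

end Pool.Agent.S07687
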