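import Pool.Statements.S07755
import Pool.Agent.H17.Bdry

set_option autoImplicit false
open Matrix
open Pool Pool.MP_284e51_co

namespace Pool.Agent.S07755

open Pool.Agent.H17.Bdry Finset in
/-- For every finite simplicial complex and every k ≥ 1, any constant bounding the squared stretch of the boundary map ∂_k also bounds that of ∂_{k+1}; that is, the largest singular value of ∂_{k+1} is at most that of ∂_k. -/
theorem result :
    ∀ (n : ℕ) (K : Finset (Finset (Fin n))),
      (∀ s ∈ K, ∀ t : Finset (Fin n), t ⊆ s → t.Nonempty → t ∈ K) →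
      ∀ D : ℕ → Matrix (Finset (Fin n)) (Finset (Fin n)) ℝ,
        (∀ (m : ℕ) (t s : Finset (Fin n)),
          D m t s =
            if s ∈ K ∧ s.card = m then
              ∑ v ∈ s, (if t = s.erase v then
                (-1 : ℝ) ^ (Finset.filter (fun w => w < v) s).card else 0)
            else 0) →
        ∀ k : ℕ, 1 ≤ k →
          ∀ c : ℝ,
            (∀ y : Finset (Fin n) → ℝ,
              (D (k + 1) *ᵥ y) ⬝ᵥ (D (k + 1) *ᵥ y) ≤ c * (y ⬝ᵥ y)) →
            ∀ x : Finset (Fin n) → ℝ,
              (D (k + 2) *ᵥ x) ⬝ᵥ (D (k + 2) *ᵥ x) ≤ c * (x ⬝ᵥ x) := by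
  intro n K hK D hD k _ c h x
  have T : ∀ m u, (D m)ᵀ *ᵥ u = fun s => if s ∈ K ∧ #s = m then ∑ v, ep v u s else 0 := by
    intro m u
    funext s
    simp only [mulVec, dotProduct, transpose_apply, hD]
    split_ifs
    · simp only [sum_mul, ite_mul, zero_mul, ep, sum_ite_mem, univ_inter]
      rw [sum_comm]
      simp [sg]
    · simp
  have hc : 0 ≤ c := by
    have := h (Pi.single ∅ 1)
    simp only [single_dotProduct, Pi.single_eq_same, mul_one] at this
    exact le_trans (sum_nonneg fun _ _ => mul_self_nonneg _) this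
  let y : Finset (Fin n) → ℝ := fun s => if s ∈ K ∧ #s = k + 2 then x s else 0
  have Z : D (k + 2) *ᵥ x = fun t => ∑ v, io v y t := by
    funext t
    have : Pi.single t 1 ⬝ᵥ D (k + 2) *ᵥ x = ∑ v, Pi.single t 1 ⬝ᵥ io v y := by
      rw [dotProduct_mulVec, ← mulVec_transpose, T]
      simp only [adj]
      simp only [dotProduct, y, ite_mul, mul_ite, zero_mul, mul_zero, sum_mul]
      rw [sum_comm]
      exact sum_congr rfl fun s _ => by split_ifs <;> simp
    simpa using this
  have := dual (D (k + 2))ᵀ c hc x
  rw [transpose_transpose] at this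
  refine this ?_
  have k1 := key (fun s => s ∈ K ∧ #s = k + 1) (fun s => s ∈ K ∧ #s = k + 2) k c (fun _ e => e.2)
    (fun s e => ⟨e.2, fun w hw => by
      have : #(s.erase w) = k + 1 := by rw [card_erase_of_mem hw, e.2]; rfl
      exact ⟨hK s e.1 _ (erase_subset _ _) (card_pos.1 (by omega)), this⟩⟩)
    (fun u => by simpa only [T, dotProduct, sq] using dual (D (k + 1)) c hc u (h _))
    (D (k + 2) *ᵥ x) (fun t e => by
      rw [Z]
      refine sum_eq_zero fun v _ => ?_
      unfold io
      split_ifs with hv
      · rfl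
      · refine mul_eq_zero_of_right _ (if_neg fun e2 => e ?_)
        have : #t = k + 1 := by have := e2.2; rw [card_insert_of_notMem hv] at this; omega
        exact ⟨hK _ e2.1 _ (subset_insert _ _) (card_pos.1 (by omega)), this⟩)
    (fun t => by
      rw [Z]
      simp only [io_sum]
      have : ∑ w, ∑ v, io w (io v y) t + ∑ w, ∑ v, io v (io w y) t = 0 := by
        simp only [← sum_add_distrib, ioio, sum_const_zero]
      rw [sum_comm (f := fun w v => io v (io w y) t)] at this
      linarith)
  simpa only [T, dotProduct, sq] using k1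

end Pool.Agent.S07755
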