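import Pool.Statements.S07782
import Pool.Agent.H5.AbelMain

set_option autoImplicit false
open Pool Pool.MP_293fea_co

namespace Pool.Agent.S07782

open Pool.Agent.H5.AbelAuto in
theorem result :
    ¬ (∀ k : ℕ, 2 ≤ k → ∀ m : ℕ, ∀ x : ℕ → Fin m,
      {f : ℕ → Fin m | ∃ e r : ℕ, r < k ^ e ∧ f = fun n => x (k ^ e * n + r)}.Finite →
      (Submodule.span ℤ
        {g : ℕ → ℤ | ∃ e r : ℕ, r < k ^ e ∧
          g = fun n =>
            ((Set.ncard {v : Fin m → ℕ | ∃ i : ℕ,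
              v = fun c => ((Finset.range (k ^ e * n + r)).filter
                (fun j => x (i + j) = c)).card} : ℕ) : ℤ)}).FG) := by
  intro h
  have hfg := h 8 (by norm_num) 2 x ker_x
  set M := Submodule.span ℤ
        {g : ℕ → ℤ | ∃ e r : ℕ, r < 8 ^ e ∧
          g = fun n =>
            ((Set.ncard {v : Fin 2 → ℕ | ∃ i : ℕ,
              v = fun c => ((Finset.range (8 ^ e * n + r)).filter
                (fun j => x (i + j) = c)).card} : ℕ) : ℤ)} with hM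
  haveI : Module.Finite ℤ M := Module.Finite.iff_fg.mpr hfg
  have hmem : ∀ e : ℕ, (fun n => ((par (8 ^ e * n)).ncard : ℤ)) ∈ M := fun e =>
    Submodule.subset_span ⟨e, 0, by positivity, rfl⟩
  have hdep := Module.Finite.not_linearIndependent_of_infinite (R := ℤ)
    (fun e : ℕ => (⟨_, hmem e⟩ : M))
  rw [not_linearIndependent_iff] at hdep
  obtain ⟨s, c, hsum, hex⟩ := hdep
  have hrel : ∀ n, ∑ e ∈ s, c e * ((par (8 ^ e * n)).ncard : ℤ) = 0 := by
    intro n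
    have := congrFun (congrArg Subtype.val hsum) n
    simpa [Finset.sum_apply] using this
  classical
  obtain ⟨e0, ⟨he0, hc0⟩, hmin⟩ : ∃ e0, (e0 ∈ s ∧ c e0 ≠ 0) ∧ ∀ e, e ∈ s ∧ c e ≠ 0 → e0 ≤ e :=
    ⟨Nat.find hex, Nat.find_spec hex, fun e he => Nat.find_min' hex he⟩
  have r1 := hrel (8 ^ (e0 + 7) + 8 ^ 1)
  have r2 := hrel (8 ^ (e0 + 7) + 8 ^ (e0 + 5))
  have r3 : ∑ e ∈ s, c e * (((par (8 ^ e * (8 ^ (e0 + 7) + 8 ^ 1))).ncard : ℤ) -
      ((par (8 ^ e * (8 ^ (e0 + 7) + 8 ^ (e0 + 5)))).ncard : ℤ)) = 0 := by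
    simp only [mul_sub, Finset.sum_sub_distrib, r1, r2, sub_zero]
  have f2 : ∀ e, (par (8 ^ e * (8 ^ (e0 + 7) + 8 ^ (e0 + 5)))).ncard = 6 * (e + (e0 + 7)) + 1 := by
    intro e
    rw [mul_add, ← pow_add, ← pow_add]
    exact rho_exact _ _ (by omega) (by omega) (by omega)
  rw [Finset.sum_eq_single e0] at r3
  · have b := rho_big (e0 + 1) (by omega)
    have e1 : 8 ^ e0 * (8 ^ (e0 + 7) + 8 ^ 1) = 8 ^ (2 * (e0 + 1) + 5) + 8 ^ (e0 + 1) := by ring
    rw [f2, e1] at r3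
    rcases mul_eq_zero.1 r3 with g | g
    · exact hc0 g
    · omega
  · intro e he hne
    by_cases g : c e = 0
    · simp [g]
    · have := hmin e ⟨he, g⟩
      have f1 : (par (8 ^ e * (8 ^ (e0 + 7) + 8 ^ 1))).ncard = 6 * (e + (e0 + 7)) + 1 := by
        rw [mul_add, ← pow_add, ← pow_add]
        exact rho_exact _ _ (by omega) (by omega) (by omega)
      rw [f1, f2]; simp
  · intro g; exact absurd he0 g

end Pool.Agent.S07782
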