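import Pool.Statements.S07792
-- import your own Pool.Agent.* helpers here

set_option autoImplicit false
open Pool Pool.MP_29e5d4_co

namespace Pool.Agent.S07792

def M : Fin 12 → ℕ := ![562, 2049, 1032, 388, 321, 833, 432, 72, 632, 3361, 2564, 1538]

def A (a b : Fin 12) : Bool := (M a).testBit b.val

def G : SimpleGraph (Fin 12) where
  Adj a b := A a b = true
  symm := ⟨by decide +kernel⟩
  loopless := ⟨by decide +kernel⟩

instance : DecidableRel G.Adj := fun a b => inferInstanceAs (Decidable (A a b = true))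

def B (a b : Fin 12) : Bool :=
  A a b && !((a == 0 && b == 1) || (a == 1 && b == 0) || (a == 2 && b == 3) || (a == 3 && b == 2))

def F : Finset (Sym2 (Fin 12)) := {s(0, 1), s(2, 3)}

theorem del_adj : ∀ a b : Fin 12, A a b = true → s(a, b) ∉ F → B a b = true := by decide +kernel

def D3 : Fin 12 → Finset (Fin 12) := ![{2, 6, 11}, {2, 6, 9}, {0, 7, 9}, {0, 6, 10}, {3, 5, 11}, {3, 4, 11}, {0, 3, 9}, {0, 8, 10}, {0, 7, 10}, {1, 2, 6}, {1, 3, 8}, {0, 2, 6}]

theorem hD3 : ∀ v, v ∉ D3 v ∧ (D3 v).card = 3 ∧ ∀ w, w ≠ v → w ∈ D3 v ∨ ∃ u ∈ D3 v, G.Adj u w := by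
  decide +kernel

theorem no3 : ∀ a b c : Fin 12, ∃ w, w ≠ a ∧ w ≠ b ∧ w ≠ c ∧
    A a w = false ∧ A b w = false ∧ A c w = false := by decide +kernel

theorem no4 : ∀ a b c d : Fin 12, ∃ w, w ≠ a ∧ w ≠ b ∧ w ≠ c ∧ w ≠ d ∧
    B a w = false ∧ B b w = false ∧ B c w = false ∧ B d w = false := by decide +kernel

theorem low (H : SimpleGraph (Fin 12)) (k : ℕ) (hk : k ≤ 12)
    (h : ∀ T : Finset (Fin 12), T.card = k → ∃ w, w ∉ T ∧ ∀ u ∈ T, ¬ H.Adj u w) :
    k < sInf {n : ℕ | ∃ D : Finset (Fin 12), (↑D : Set (Fin 12)) ⊆ Set.univ ∧ D.card = n ∧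
      ∀ w ∈ (Set.univ : Set (Fin 12)), w ∈ D ∨ ∃ u ∈ D, H.Adj u w} := by
  by_contra hc
  obtain ⟨D, -, hD, hd⟩ := Nat.sInf_mem (s := {n : ℕ | ∃ D : Finset (Fin 12),
    (↑D : Set (Fin 12)) ⊆ Set.univ ∧ D.card = n ∧
      ∀ w ∈ (Set.univ : Set (Fin 12)), w ∈ D ∨ ∃ u ∈ D, H.Adj u w})
    ⟨_, Finset.univ, Set.subset_univ _, rfl, fun w _ => Or.inl (Finset.mem_univ _)⟩
  obtain ⟨T, hT, hc⟩ := Finset.exists_superset_card_eq (s := D) (n := k) (by omega) (by simpa)
  obtain ⟨w, hw, hu⟩ := h T hc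
  rcases hd w trivial with h1 | ⟨u, h1, h2⟩
  · exact hw (hT h1)
  · exact hu u (hT h1) h2

/-- The negation of the preceding statement: For every finite graph G in which deleting any single vertex lowers the domination number, deleting any set of at most δ(G) edges never raises the domination number; that is, the bondage number is at least δ(G)+1. -/
theorem result :
    ¬ (∀ (V : Type) [Fintype V] [DecidableEq V] (G : SimpleGraph V) [DecidableRel G.Adj]
      (γ : SimpleGraph V → Set V → ℕ),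
      (∀ (H : SimpleGraph V) (S : Set V),
        γ H S = sInf {n : ℕ | ∃ D : Finset V, (↑D : Set V) ⊆ S ∧ D.card = n ∧
          ∀ w ∈ S, w ∈ D ∨ ∃ u ∈ D, H.Adj u w}) →
      (∀ v : V, γ G {w | w ≠ v} < γ G Set.univ) →
      ∀ E' : Finset (Sym2 V), (↑E' : Set (Sym2 V)) ⊆ G.edgeSet →
        E'.card ≤ G.minDegree →
        γ (G.deleteEdges (↑E' : Set (Sym2 V))) Set.univ ≤ γ G Set.univ) := by
  intro H
  have h3 := low G 3 (by norm_num) (by
    intro T hT
    obtain ⟨a, b, c, -, -, -, rfl⟩ := Finset.card_eq_three.1 hT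
    obtain ⟨w, h⟩ := no3 a b c
    exact ⟨w, by simp [h], by simp [G, h]⟩)
  have h4 := low (G.deleteEdges (↑F : Set (Sym2 (Fin 12)))) 4 (by norm_num) (by
    intro T hT
    obtain ⟨a, b, c, d, -, -, -, -, -, -, rfl⟩ := Finset.card_eq_four.1 hT
    obtain ⟨w, h⟩ := no4 a b c d
    refine ⟨w, by simp [h], fun u hu hadj => ?_⟩
    rw [SimpleGraph.deleteEdges_adj] at hadj
    have := del_adj u w hadj.1 hadj.2
    simp only [Finset.mem_insert, Finset.mem_singleton] at hu
    rcases hu with rfl | rfl | rfl | rfl <;> simp [h] at this)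
  have h5 := H (Fin 12) G _ (fun _ _ => rfl) (fun v => lt_of_le_of_lt (Nat.sInf_le
      ⟨D3 v, fun w hw (e : w = v) => (hD3 v).1 (e ▸ hw), (hD3 v).2.1, (hD3 v).2.2⟩) h3) F
    (by
      intro e he
      simp only [F, Finset.coe_insert, Finset.coe_singleton, Set.mem_insert_iff,
        Set.mem_singleton_iff] at he
      rcases he with rfl | rfl <;> rw [SimpleGraph.mem_edgeSet] <;> decide +kernel)
    (G.le_minDegree_of_forall_le_degree _ (by decide +kernel))
  have h6 := lt_of_lt_of_le h4 h5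
  refine absurd h6 (not_lt.2 (Nat.sInf_le ⟨{0, 1, 2, 6}, Set.subset_univ _, by decide, ?_⟩))
  have : ∀ w : Fin 12, w ∈ ({0, 1, 2, 6} : Finset (Fin 12)) ∨
      ∃ u ∈ ({0, 1, 2, 6} : Finset (Fin 12)), G.Adj u w := by decide +kernel
  exact fun w _ => this w

end Pool.Agent.S07792
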