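import Pool.Statements.S07891
import Pool.Agent.H10.Dress
-- import your own Pool.Agent.* helpers here

set_option autoImplicit false
open Pool Pool.MP_2e1090_co

namespace Pool.Agent.S07891

open Pool.Agent.H10.Dress

theorem l1 (a : F → ℝ) : ∑ i ∈ ({1, 3, 0} : Finset F), a i + ∑ i ∈ ({2, 5, 0} : Finset F), a i =
    ∑ i ∈ ({1, 2, 0} : Finset F), a i + ∑ i ∈ ({3, 5, 0} : Finset F), a i :=
  (by
      rw [s3 _ _ _ _ (by decide) (by decide) (by decide), s3 _ _ _ _ (by decide) (by decide) (by decide),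
        s3 _ _ _ _ (by decide) (by decide) (by decide), s3 _ _ _ _ (by decide) (by decide) (by decide)]
      ring : ∑ i ∈ ({1, 3, 0} : Finset F), a i + ∑ i ∈ ({2, 5, 0} : Finset F), a i =
        ∑ i ∈ ({1, 2, 0} : Finset F), a i + ∑ i ∈ ({3, 5, 0} : Finset F), a i)

theorem l1' (a : F → ℝ) : ∑ i ∈ ({1, 2, 0} : Finset F), a i + ∑ i ∈ ({3, 5, 0} : Finset F), a i =
    ∑ i ∈ ({1, 5, 0} : Finset F), a i + ∑ i ∈ ({3, 2, 0} : Finset F), a i :=
  (by
      rw [s3 _ _ _ _ (by decide) (by decide) (by decide), s3 _ _ _ _ (by decide) (by decide) (by decide),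
        s3 _ _ _ _ (by decide) (by decide) (by decide), s3 _ _ _ _ (by decide) (by decide) (by decide)]
      ring : ∑ i ∈ ({1, 2, 0} : Finset F), a i + ∑ i ∈ ({3, 5, 0} : Finset F), a i =
        ∑ i ∈ ({1, 5, 0} : Finset F), a i + ∑ i ∈ ({3, 2, 0} : Finset F), a i)

theorem l3 (a : F → ℝ) : ∑ i ∈ ({0, 4, 2} : Finset F), a i + ∑ i ∈ ({1, 5, 2} : Finset F), a i =
    ∑ i ∈ ({0, 1, 2} : Finset F), a i + ∑ i ∈ ({4, 5, 2} : Finset F), a i :=
  (by
      rw [s3 _ _ _ _ (by decide) (by decide) (by decide), s3 _ _ _ _ (by decide) (by decide) (by decide),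
        s3 _ _ _ _ (by decide) (by decide) (by decide), s3 _ _ _ _ (by decide) (by decide) (by decide)]
      ring : ∑ i ∈ ({0, 4, 2} : Finset F), a i + ∑ i ∈ ({1, 5, 2} : Finset F), a i =
        ∑ i ∈ ({0, 1, 2} : Finset F), a i + ∑ i ∈ ({4, 5, 2} : Finset F), a i)

theorem nontriv : ¬ ∃ c : F → ℝ, ∀ B : Finset F, B.card = 3 → ∀ B' : Finset F, B'.card = 3 →
    w B - ∑ i ∈ B, c i ≤ w B' - ∑ i ∈ B', c i := by
  rintro ⟨c, h⟩
  have h1 := h {1, 3, 0} (by decide) {1, 2, 0} (by decide)
  have h2 := h {2, 5, 0} (by decide) {3, 5, 0} (by decide)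
  have := l1 c
  have := d1.1
  linarith

theorem am_eq (v : Finset F → ℝ) (t : ℝ) (a : F → ℝ) (ht : 0 < t)
    (h : ∀ B : Finset F, B.card = 3 → v B = t * w B + ∑ i ∈ B, a i) (c : F → ℝ) :
    Am w c = Am v (fun i => t * c i + a i) := by
  ext B
  refine and_congr_right fun hB => forall₂_congr fun B' hB' => ?_
  rw [h B hB, h B' hB', Finset.sum_add_distrib, Finset.sum_add_distrib, ← Finset.mul_sum,
    ← Finset.mul_sum]
  constructor
  · intro k
    nlinarith
  · intro k
    by_contra k2
    nlinarith [not_le.1 k2]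

theorem rk_le (M : Matroid F) (A B : Finset F) (x : F) (h : A ⊆ insert x B) :
    (M.eRk (A : Set F)).toNat ≤ (M.eRk (B : Set F)).toNat + 1 := by
  have h1 : M.eRk (A : Set F) ≤ M.eRk (B : Set F) + 1 := by
    refine le_trans (M.eRk_mono ?_) (M.eRk_insert_le_add_one x _)
    exact_mod_cast h
  have f : ∀ C : Finset F, M.eRk (C : Set F) ≠ ⊤ := fun C =>
    ne_top_of_le_ne_top (Set.toFinite (C : Set F)).encard_lt_top.ne (M.eRk_le_encard _)
  obtain ⟨p, hp⟩ := ENat.ne_top_iff_exists.1 (f A)
  obtain ⟨q, hq⟩ := ENat.ne_top_iff_exists.1 (f B)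
  rw [← hp, ← hq] at h1 ⊢
  simp only [ENat.toNat_coe]
  exact_mod_cast h1

/-- Some Dressian Dr(d,n) has a tropical Plücker vector inducing a coarsest nontrivial matroid subdivision (a ray) that differs from the subdivision induced by the corank vector of every rank-d matroid on n elements. -/
theorem result :
    ∃ d n : ℕ, ∃ w : Finset (Fin n) → ℝ,
      (∀ (S : Finset (Fin n)) (i j k l : Fin n), S.card + 2 = d →
        i ∉ S → j ∉ S → k ∉ S → l ∉ S →
        i ≠ j → i ≠ k → i ≠ l → j ≠ k → j ≠ l → k ≠ l →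
        ((w (insert i (insert j S)) + w (insert k (insert l S))
            = w (insert i (insert k S)) + w (insert j (insert l S)) ∧
          w (insert i (insert j S)) + w (insert k (insert l S))
            ≤ w (insert i (insert l S)) + w (insert j (insert k S))) ∨
         (w (insert i (insert j S)) + w (insert k (insert l S))
            = w (insert i (insert l S)) + w (insert j (insert k S)) ∧
          w (insert i (insert j S)) + w (insert k (insert l S))
            ≤ w (insert i (insert k S)) + w (insert j (insert l S))) ∨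
         (w (insert i (insert k S)) + w (insert j (insert l S))
            = w (insert i (insert l S)) + w (insert j (insert k S)) ∧
          w (insert i (insert k S)) + w (insert j (insert l S))
            ≤ w (insert i (insert j S)) + w (insert k (insert l S))))) ∧
      (¬ ∃ c : Fin n → ℝ, ∀ B : Finset (Fin n), B.card = d →
          ∀ B' : Finset (Fin n), B'.card = d →
            w B - ∑ i ∈ B, c i ≤ w B' - ∑ i ∈ B', c i) ∧
      (∀ v : Finset (Fin n) → ℝ,
        (∀ (S : Finset (Fin n)) (i j k l : Fin n), S.card + 2 = d →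
          i ∉ S → j ∉ S → k ∉ S → l ∉ S →
          i ≠ j → i ≠ k → i ≠ l → j ≠ k → j ≠ l → k ≠ l →
          ((v (insert i (insert j S)) + v (insert k (insert l S))
              = v (insert i (insert k S)) + v (insert j (insert l S)) ∧
            v (insert i (insert j S)) + v (insert k (insert l S))
              ≤ v (insert i (insert l S)) + v (insert j (insert k S))) ∨
           (v (insert i (insert j S)) + v (insert k (insert l S))
              = v (insert i (insert l S)) + v (insert j (insert k S)) ∧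
            v (insert i (insert j S)) + v (insert k (insert l S))
              ≤ v (insert i (insert k S)) + v (insert j (insert l S))) ∨
           (v (insert i (insert k S)) + v (insert j (insert l S))
              = v (insert i (insert l S)) + v (insert j (insert k S)) ∧
            v (insert i (insert k S)) + v (insert j (insert l S))
              ≤ v (insert i (insert j S)) + v (insert k (insert l S))))) →
        (∀ c : Fin n → ℝ, ∃ c' : Fin n → ℝ,
          {B : Finset (Fin n) | B.card = d ∧ ∀ B' : Finset (Fin n), B'.card = d →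
              w B - ∑ i ∈ B, c i ≤ w B' - ∑ i ∈ B', c i} ⊆
          {B : Finset (Fin n) | B.card = d ∧ ∀ B' : Finset (Fin n), B'.card = d →
              v B - ∑ i ∈ B, c' i ≤ v B' - ∑ i ∈ B', c' i}) →
        (∃ c : Fin n → ℝ, ∀ B : Finset (Fin n), B.card = d →
          ∀ B' : Finset (Fin n), B'.card = d →
            v B - ∑ i ∈ B, c i ≤ v B' - ∑ i ∈ B', c i) ∨
        ((∀ c : Fin n → ℝ, ∃ c' : Fin n → ℝ,
          {B : Finset (Fin n) | B.card = d ∧ ∀ B' : Finset (Fin n), B'.card = d →
              w B - ∑ i ∈ B, c i ≤ w B' - ∑ i ∈ B', c i} =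
          {B : Finset (Fin n) | B.card = d ∧ ∀ B' : Finset (Fin n), B'.card = d →
              v B - ∑ i ∈ B, c' i ≤ v B' - ∑ i ∈ B', c' i}) ∧
         (∀ c : Fin n → ℝ, ∃ c' : Fin n → ℝ,
          {B : Finset (Fin n) | B.card = d ∧ ∀ B' : Finset (Fin n), B'.card = d →
              v B - ∑ i ∈ B, c i ≤ v B' - ∑ i ∈ B', c i} =
          {B : Finset (Fin n) | B.card = d ∧ ∀ B' : Finset (Fin n), B'.card = d →
              w B - ∑ i ∈ B, c' i ≤ w B' - ∑ i ∈ B', c' i}))) ∧
      (¬ ∃ M : Matroid (Fin n), M.E = Set.univ ∧ M.eRank = (d : ℕ∞) ∧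
        (∀ c : Fin n → ℝ, ∃ c' : Fin n → ℝ,
          {B : Finset (Fin n) | B.card = d ∧ ∀ B' : Finset (Fin n), B'.card = d →
              w B - ∑ i ∈ B, c i ≤ w B' - ∑ i ∈ B', c i} =
          {B : Finset (Fin n) | B.card = d ∧ ∀ B' : Finset (Fin n), B'.card = d →
              ((d : ℝ) - ((M.eRk (B : Set (Fin n))).toNat : ℝ)) - ∑ i ∈ B, c' i ≤
              ((d : ℝ) - ((M.eRk (B' : Set (Fin n))).toNat : ℝ)) - ∑ i ∈ B', c' i}) ∧
        (∀ c : Fin n → ℝ, ∃ c' : Fin n → ℝ,
          {B : Finset (Fin n) | B.card = d ∧ ∀ B' : Finset (Fin n), B'.card = d →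
              ((d : ℝ) - ((M.eRk (B : Set (Fin n))).toNat : ℝ)) - ∑ i ∈ B, c i ≤
              ((d : ℝ) - ((M.eRk (B' : Set (Fin n))).toNat : ℝ)) - ∑ i ∈ B', c i} =
          {B : Finset (Fin n) | B.card = d ∧ ∀ B' : Finset (Fin n), B'.card = d →
              w B - ∑ i ∈ B, c' i ≤ w B' - ∑ i ∈ B', c' i})) := by
  refine ⟨3, 9, w, ?_, nontriv, ?_, ?_⟩
  · intro S i j k l hS hi hj hk hl h1 h2 h3 h4 h5 h6
    obtain ⟨s, rfl⟩ := Finset.card_eq_one.1 (show S.card = 1 by omega)
    rw [Finset.mem_singleton] at hi hj hk hl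
    have := plT s i j k l ⟨hi, hj, hk, hl, h1, h2, h3, h4, h5, h6⟩
    rw [w3 i j s h1 hi hj, w3 k l s h6 hk hl, w3 i k s h2 hi hk, w3 j l s h5 hj hl,
      w3 i l s h3 hi hl, w3 j k s h4 hj hk]
    unfold pl at this
    exact_mod_cast this
  · intro v hv H
    obtain ⟨t, a, h⟩ := rigid v H
    rcases lt_trichotomy t 0 with ht | ht | ht
    · exfalso
      have k := hv {0} 1 3 2 5 (by decide) (by decide) (by decide) (by decide) (by decide)
        (by decide) (by decide) (by decide) (by decide) (by decide) (by decide)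
      rw [h {1, 3, 0} (by decide), h {2, 5, 0} (by decide), h {1, 2, 0} (by decide), h {3, 5, 0} (by decide), h {1, 5, 0} (by decide),
        h {3, 2, 0} (by decide)] at k
      have e1 := l1 a
      have e2 := l1' a
      have e3 := congrArg (fun z => t * z) d1.1
      have e4 := congrArg (fun z => t * z) d1.2
      simp only [mul_add, mul_one] at e3 e4
      rcases k with k | k | k <;> linarith [k.1, k.2]
    · refine Or.inl ⟨a, fun B hB B' hB' => ?_⟩
      rw [h B hB, h B' hB', ht]
      simp
    · refine Or.inr ⟨fun c => ⟨_, am_eq v t a ht h c⟩, fun c => ⟨fun i => (c i - a i) / t, ?_⟩⟩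
      have := am_eq v t a ht h (fun i => (c i - a i) / t)
      have e : (fun i => t * ((c i - a i) / t) + a i) = c := by
        funext i; field_simp; ring
      rw [e] at this
      exact this.symm
  · rintro ⟨M, -, -, H1, H2⟩
    obtain ⟨t, a, h⟩ := rigid (fun B => ((3 : ℕ) : ℝ) - ((M.eRk (B : Set F)).toNat : ℝ))
      (fun c => (H1 c).imp fun c' hc => hc.subset)
    have ht : t = 0 := by
      have a0 := h {1, 3, 0} (by decide)
      have a1 := h {2, 5, 0} (by decide)
      have a2 := h {1, 2, 0} (by decide)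
      have a3 := h {3, 5, 0} (by decide)
      have b0 := h {0, 4, 2} (by decide)
      have b1 := h {1, 5, 2} (by decide)
      have b2 := h {0, 1, 2} (by decide)
      have b3 := h {4, 5, 2} (by decide)
      have r1 := rk_le M {0, 4, 2} {0, 1, 2} 4 (by decide)
      have r2 := rk_le M {0, 1, 2} {0, 4, 2} 1 (by decide)
      have r3 := rk_le M {1, 5, 2} {4, 5, 2} 1 (by decide)
      have r4 := rk_le M {4, 5, 2} {1, 5, 2} 4 (by decide)
      have e1 := l1 a
      have e2 := l3 a
      have e3 := congrArg (fun z => t * z) d1.1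
      have e4 := congrArg (fun z => t * z) d3
      simp only [mul_add, mul_one] at e3 e4
      generalize (M.eRk (({1, 3, 0} : Finset F) : Set F)).toNat = x0 at *
      generalize (M.eRk (({2, 5, 0} : Finset F) : Set F)).toNat = x1 at *
      generalize (M.eRk (({1, 2, 0} : Finset F) : Set F)).toNat = x2 at *
      generalize (M.eRk (({3, 5, 0} : Finset F) : Set F)).toNat = x3 at *
      generalize (M.eRk (({0, 4, 2} : Finset F) : Set F)).toNat = y0 at *
      generalize (M.eRk (({1, 5, 2} : Finset F) : Set F)).toNat = y1 at *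
      generalize (M.eRk (({0, 1, 2} : Finset F) : Set F)).toNat = y2 at *
      generalize (M.eRk (({4, 5, 2} : Finset F) : Set F)).toNat = y3 at *
      have k1 : t = (x2 : ℝ) + x3 - x0 - x1 := by linarith
      have k3 : 3 * ((x2 : ℝ) + x3 - x0 - x1) = (y2 : ℝ) + y3 - y0 - y1 := by linarith
      have k4 : 3 * ((x2 : ℤ) + x3 - x0 - x1) = (y2 : ℤ) + y3 - y0 - y1 := by exact_mod_cast k3
      have k5 : (x2 : ℤ) + x3 - x0 - x1 = 0 := by omega
      have k6 : (x2 : ℝ) + x3 - x0 - x1 = 0 := by exact_mod_cast k5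
      rw [k1, k6]
    obtain ⟨c', hc⟩ := H2 a
    refine nontriv ⟨c', fun B hB => ?_⟩
    refine (hc.subset ⟨hB, fun B' hB' => ?_⟩).2
    have k1 := h B hB
    have k2 := h B' hB'
    rw [ht] at k1 k2
    linarith

end Pool.Agent.S07891
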