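import Pool.Statements.S07942
import Pool.Agent.H9.OddCyc

set_option autoImplicit false
open Pool Pool.MP_30ed83_co

namespace Pool.Agent.S07942

/-- The negation of the preceding statement: For every finite graph F with an edge and every r, some finite graph G has chromatic number above r and clique number equal to F's, and every induced subgraph of G with no induced copy of F has chromatic number at most that of F. -/
theorem result :
    ¬ (∀ (n : ℕ) (F : SimpleGraph (Fin n)), F ≠ ⊥ →
      ∀ r : ℕ, ∃ (m : ℕ) (G : SimpleGraph (Fin m)),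
        (r : ℕ∞) < G.chromaticNumber ∧
        G.cliqueNum = F.cliqueNum ∧
        ∀ s : Set (Fin m), ¬ F.IsIndContained (G.induce s) →
          (G.induce s).chromaticNumber ≤ F.chromaticNumber) := by
  intro h
  let F : SimpleGraph (Fin 4) := SimpleGraph.fromRel (fun a _ => a = 0)
  have a1 : F.Adj 0 1 := by simp [F]
  have a2 : F.Adj 0 2 := by simp [F]
  have a3 : F.Adj 0 3 := by simp [F]
  have hF : F.Colorable 2 := ⟨SimpleGraph.Coloring.mk (fun a => if a = 0 then 0 else 1) (by
    intro a b hab
    simp only [F, SimpleGraph.fromRel_adj] at hab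
    revert a b
    decide)⟩
  obtain ⟨m, G, h1, -, h3⟩ := h 4 F (fun e => by simp [e] at a1) 2
  obtain ⟨s, s1, s2⟩ := Pool.Agent.H9.OddCyc.main (G := G)
    (fun c => absurd c.chromaticNumber_le (not_le.2 h1))
  refine s1 (SimpleGraph.chromaticNumber_le_iff_colorable.1 ((h3 s ?_).trans hF.chromaticNumber_le))
  rintro ⟨e⟩
  rcases s2 _ (e 0).2 _ (e 1).2 _ (e 2).2 _ (e 3).2 (e.map_adj_iff.2 a1) (e.map_adj_iff.2 a2)
    (e.map_adj_iff.2 a3) with k | k | k
  all_goals exact absurd (e.injective (Subtype.ext k)) (by decide)

end Pool.Agent.S07942
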