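import Pool.Statements.S07947

set_option autoImplicit false
open Classical
open Pool Pool.MP_31464c_co

namespace Pool.Agent.S07947

/-- disjoint union of a complete graph on 0..3 and a triangle on 4..6 -/
def G : SimpleGraph (Fin 7) where
  Adj a b := a ≠ b ∧ (a.val < 4 ↔ b.val < 4)
  symm := ⟨fun _ _ h => ⟨h.1.symm, h.2.symm⟩⟩
  loopless := ⟨fun _ h => h.1 rfl⟩

instance decG : DecidableRel G.Adj := fun a b =>
  inferInstanceAs (Decidable (a ≠ b ∧ (a.val < 4 ↔ b.val < 4)))

/-- in a path no vertex lies on three different edges -/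
lemma no_three {V : Type} {H : SimpleGraph V} {u w : V} (p : H.Walk u w) (hp : p.IsPath)
    (v a b c : V) (ha : s(v, a) ∈ p.edges) (hb : s(v, b) ∈ p.edges) (hc : s(v, c) ∈ p.edges) :
    a = b ∨ a = c ∨ b = c := by
  have key : ∀ x, s(v, x) ∈ p.edges → ∃ i, i < p.length ∧
      ((p.getVert i = v ∧ p.getVert (i + 1) = x) ∨ (p.getVert i = x ∧ p.getVert (i + 1) = v)) := by
    intro x hx
    have h1 : p.toSubgraph.Adj v x := by
      rw [← SimpleGraph.Subgraph.mem_edgeSet, SimpleGraph.Walk.mem_edges_toSubgraph]; exact hx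
    obtain ⟨i, h2, h3⟩ := (SimpleGraph.Walk.toSubgraph_adj_iff p).mp h1
    exact ⟨i, h3, by simpa using h2⟩
  obtain ⟨i, hi, h1⟩ := key a ha
  obtain ⟨j, hj, h2⟩ := key b hb
  obtain ⟨k, hk, h3⟩ := key c hc
  have inj : ∀ x y, x ≤ p.length → y ≤ p.length → p.getVert x = v → p.getVert y = v → x = y :=
    fun x y hx hy h1 h2 => hp.getVert_injOn hx hy (h1.trans h2.symm)
  rcases h1 with ⟨h1, rfl⟩ | ⟨rfl, h1⟩ <;> rcases h2 with ⟨h2, rfl⟩ | ⟨rfl, h2⟩ <;>
    rcases h3 with ⟨h3, rfl⟩ | ⟨rfl, h3⟩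
  · left; rw [inj i j (by omega) (by omega) h1 h2]
  · left; rw [inj i j (by omega) (by omega) h1 h2]
  · right; left; rw [inj i k (by omega) (by omega) h1 h3]
  · right; right; rw [Nat.succ_injective (inj (j+1) (k+1) (by omega) (by omega) h2 h3)]
  · right; right; rw [inj j k (by omega) (by omega) h2 h3]
  · right; left; rw [Nat.succ_injective (inj (i+1) (k+1) (by omega) (by omega) h1 h3)]
  · left; rw [Nat.succ_injective (inj (i+1) (j+1) (by omega) (by omega) h1 h2)]
  · left; rw [Nat.succ_injective (inj (i+1) (j+1) (by omega) (by omega) h1 h2)]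

/-- a walk without crossing edges stays on one side -/
lemma side {u w : Fin 7} (p : (⊤ : SimpleGraph (Fin 7)).Walk u w)
    (h : ∀ a b : Fin 7, s(a, b) ∈ p.edges → (a.val < 4 ↔ b.val < 4)) :
    ∀ x ∈ p.support, (x.val < 4 ↔ u.val < 4) := by
  induction p with
  | nil => simp
  | @cons a b c hab p ih =>
    intro x hx
    rw [SimpleGraph.Walk.support_cons, List.mem_cons] at hx
    rcases hx with rfl | hx
    · rfl
    · have h1 := ih (fun a b hab => h a b (by simp [hab])) x hx
      have h2 := h a b (by simp)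
      rw [h1, h2]

lemma two (P Q : Sym2 (Fin 7) → Prop)
    (hP : ∀ v a b c, P s(v, a) → P s(v, b) → P s(v, c) → a = b ∨ a = c ∨ b = c)
    (hQ : ∀ v a b c, Q s(v, a) → Q s(v, b) → Q s(v, c) → a = b ∨ a = c ∨ b = c)
    (h : ∀ a b, Xor (P s(a, b)) (Q s(a, b)) ↔ G.Adj a b) :
    (∀ a b : Fin 7, P s(a, b) → (a.val < 4 ↔ b.val < 4)) ∧ ∃ x, P s(0, x) := by
  have tri : ∀ v : Fin 7, v.val < 4 → ∃ a b c, G.Adj v a ∧ G.Adj v b ∧ G.Adj v c ∧
      a ≠ b ∧ a ≠ c ∧ b ≠ c := by decide
  have cross : ∀ v x : Fin 7, v.val < 4 → ¬ x.val < 4 → ¬ P s(v, x) := by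
    intro v x hv hx hp
    have hq : Q s(v, x) := by
      by_contra hq
      have := (h v x).mp (Or.inl ⟨hp, hq⟩)
      exact hx (this.2.mp hv)
    obtain ⟨a, b, c, ha, hb, hc, hab, hac, hbc⟩ := tri v hv
    have xa : x ≠ a := fun e => hx (e ▸ ha.2.mp hv)
    have xb : x ≠ b := fun e => hx (e ▸ hb.2.mp hv)
    have xc : x ≠ c := fun e => hx (e ▸ hc.2.mp hv)
    have p1 := hP v x a b hp
    have p2 := hP v x a c hp
    have p3 := hP v x b c hp
    have q1 := hQ v x a b hq
    have q2 := hQ v x a c hq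
    have q3 := hQ v x b c hq
    have r1 := (h v a).mpr ha
    have r2 := (h v b).mpr hb
    have r3 := (h v c).mpr hc
    simp only [xa, xb, xc, hab, hac, hbc, or_self, imp_false] at p1 p2 p3 q1 q2 q3
    rcases r1 with r1 | r1 <;> rcases r2 with r2 | r2 <;> rcases r3 with r3 | r3 <;>
      first
        | exact p1 r1.1 r2.1 | exact p2 r1.1 r3.1 | exact p3 r2.1 r3.1
        | exact q1 r1.1 r2.1 | exact q2 r1.1 r3.1 | exact q3 r2.1 r3.1
  constructor
  · intro a b hab
    by_contra hne
    by_cases ha : a.val < 4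
    · exact cross a b ha (by tauto) hab
    · exact cross b a (by tauto) ha (by rwa [Sym2.eq_swap])
  · by_contra hne
    push Not at hne
    have r1 := (h 0 1).mpr (by decide)
    have r2 := (h 0 2).mpr (by decide)
    have r3 := (h 0 3).mpr (by decide)
    unfold Xor at r1 r2 r3
    have := hQ 0 1 2 3 (by have := hne 1; tauto) (by have := hne 2; tauto) (by have := hne 3; tauto)
    revert this; decide

lemma notwo {u w u' w' : Fin 7} (p : (⊤ : SimpleGraph (Fin 7)).Walk u w)
    (q : (⊤ : SimpleGraph (Fin 7)).Walk u' w') (hp : p.IsPath) (hq : q.IsPath)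
    (h : ∀ a b, Xor (s(a, b) ∈ p.edges) (s(a, b) ∈ q.edges) ↔ G.Adj a b) : False := by
  obtain ⟨h1, x, h2⟩ := two (· ∈ p.edges) (· ∈ q.edges) (no_three p hp) (no_three q hq) h
  obtain ⟨h3, y, h4⟩ := two (· ∈ q.edges) (· ∈ p.edges) (no_three q hq) (no_three p hp)
    (fun a b => by rw [xor_comm]; exact h a b)
  have a1 := side p h1 0 (p.fst_mem_support_of_mem_edges h2)
  have a2 := side q h3 0 (q.fst_mem_support_of_mem_edges h4)
  rcases (h 4 5).mpr (by decide) with h5 | h5
  · have := side p h1 4 (p.fst_mem_support_of_mem_edges h5.1)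
    revert this a1; simp
  · have := side q h3 4 (q.fst_mem_support_of_mem_edges h5.1)
    revert this a2; simp

/-- There is a finite simple graph G such that no family of k paths in the complete graph on its vertices, with k at most max(number of odd-degree vertices / 2, ceil((max degree + 1)/2)), has symmetric difference of edge sets equal to E(G). -/
theorem result :
    ∃ (n : ℕ) (G : SimpleGraph (Fin n)),
      ∀ k : ℕ,
        k ≤ max ((Finset.univ.filter (fun x : Fin n => Odd (G.degree x))).card / 2)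
                ((G.maxDegree + 2) / 2) →
        ¬ ∃ (u w : Fin k → Fin n)
            (P : ∀ i : Fin k, (⊤ : SimpleGraph (Fin n)).Walk (u i) (w i)),
            (∀ i, (P i).IsPath) ∧
            ∀ e : Sym2 (Fin n),
              (Odd ((Finset.univ.filter (fun i : Fin k => e ∈ (P i).edges)).card)
                ↔ e ∈ G.edgeSet) := by
  refine ⟨7, G, ?_⟩
  intro k hk
  have hk2 : k ≤ 2 := by
    have e1 : (Finset.univ.filter (fun x : Fin 7 => Odd (G.degree x))).card = 4 := by
      have : (@Finset.filter _ (fun x : Fin 7 => Odd (G.degree x)) (fun _ => decidable_of_iff' _ Nat.odd_iff)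
        Finset.univ).card = 4 := by decide +kernel
      convert this
    have e2 : G.maxDegree = 3 := by decide +kernel
    have e3 : max (4 / 2) ((3 + 2) / 2) = 2 := by decide
    rw [← e3, ← e1, ← e2]
    convert hk
  rintro ⟨u, w, P, hP, h⟩
  have nilp : (SimpleGraph.Walk.nil : (⊤ : SimpleGraph (Fin 7)).Walk 0 0).IsPath :=
    SimpleGraph.Walk.IsPath.nil
  interval_cases k
  · have := (h s(0, 1)).mpr (by rw [SimpleGraph.mem_edgeSet]; decide)
    simp at this
  · apply notwo (P 0) SimpleGraph.Walk.nil (hP 0) nilp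
    intro a b
    rw [← SimpleGraph.mem_edgeSet, ← h, Finset.card_filter, Fin.sum_univ_one]
    by_cases h0 : s(a, b) ∈ (P 0).edges <;> simp [h0, Xor]
  · apply notwo (P 0) (P 1) (hP 0) (hP 1)
    intro a b
    rw [← SimpleGraph.mem_edgeSet, ← h, Finset.card_filter, Fin.sum_univ_two]
    by_cases h0 : s(a, b) ∈ (P 0).edges <;> by_cases h1 : s(a, b) ∈ (P 1).edges <;>
      simp [h0, h1, Xor]

end Pool.Agent.S07947
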