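import Pool.Statements.S07958

set_option autoImplicit false
open Pool Pool.MP_31b721_co

namespace Pool.Agent.S07958

/-- parent in the rooted tree on 1..21 (root 1, five children 2..6, each with three leaves) -/
def par (v : ℕ) : ℕ := if v ≤ 6 then 1 else 2 + (v - 7) / 3

/-- one-directional adjacency of the simplex graph of the tree: 0 is the empty clique,
1..21 the vertices, 20+v the edge from v to its parent -/
def e0 (a b : ℕ) : Bool :=
  (a == 0 && 1 ≤ b && b ≤ 21) || (22 ≤ a && (b == a - 20 || b == par (a - 20)))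

def G : SimpleGraph (Fin 42) where
  Adj a b := (e0 a.val b.val || e0 b.val a.val) = true
  symm := ⟨by intro a b h; rw [Bool.or_comm]; exact h⟩
  loopless := ⟨by decide +kernel⟩

instance : DecidableRel G.Adj := fun a b =>
  inferInstanceAs (Decidable ((e0 a.val b.val || e0 b.val a.val) = true))

def emb (a : Fin 42) (i : Fin 21) : Bool :=
  if a.val ≤ 21 then a.val == i.val + 1
  else (a.val - 20 == i.val + 1 || par (a.val - 20) == i.val + 1)

def hd (a b : Fin 42) : ℕ := hammingDist (emb a) (emb b)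

lemma hd_adj : ∀ a b : Fin 42, G.Adj a b → hd a b = 1 := by decide +kernel

lemma hd_step : ∀ a b : Fin 42, a = b ∨ ∃ c, G.Adj a c ∧ hd c b + 1 = hd a b := by decide +kernel

lemma hd_le {a b : Fin 42} (p : G.Walk a b) : hd a b ≤ p.length := by
  induction p with
  | nil => simp [hd]
  | @cons u v w h p ih =>
    have h1 := hd_adj u v h
    have h2 : hd u w ≤ hd u v + hd v w := hammingDist_triangle _ _ _
    simp only [SimpleGraph.Walk.length_cons]
    omega

lemma hd_walk : ∀ (d : ℕ) (a b : Fin 42), hd a b = d → ∃ p : G.Walk a b, p.length = d := by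
  intro d
  induction d with
  | zero =>
    intro a b h
    rcases hd_step a b with rfl | ⟨c, -, h2⟩
    · exact ⟨SimpleGraph.Walk.nil, rfl⟩
    · omega
  | succ d ih =>
    intro a b h
    rcases hd_step a b with rfl | ⟨c, h1, h2⟩
    · simp [hd] at h
    · obtain ⟨p, hp⟩ := ih c b (by omega)
      exact ⟨SimpleGraph.Walk.cons h1 p, by simp [hp]⟩

lemma hd_eq (a b : Fin 42) : hd a b = G.dist a b := by
  obtain ⟨p, hp⟩ := hd_walk _ a b rfl
  apply le_antisymm
  · obtain ⟨q, hq⟩ := p.reachable.exists_walk_length_eq_dist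
    rw [← hq]; exact hd_le q
  · rw [← hp]; exact SimpleGraph.dist_le p

lemma emb_inj : Function.Injective emb := by
  intro a b h
  rcases hd_step a b with h1 | ⟨c, -, h2⟩
  · exact h1
  · simp [hd, h] at h2

lemma spread (c : Sym2 (Fin 42) → ℕ)
    (hint : ∀ (u v w : Fin 42) (k : ℕ), G.Adj u v → G.Adj u w →
      c s(u, v) ≤ k → k ≤ c s(u, w) → ∃ x, G.Adj u x ∧ c s(u, x) = k)
    (u v w : Fin 42) (huv : G.Adj u v) (huw : G.Adj u w) :
    c s(u, w) + 1 ≤ c s(u, v) + G.degree u := by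
  have hsub : Finset.Icc (c s(u, v)) (c s(u, w)) ⊆
      (G.neighborFinset u).image (fun x => c s(u, x)) := by
    intro k hk
    obtain ⟨x, h1, h2⟩ := hint u v w k huv huw (Finset.mem_Icc.mp hk).1 (Finset.mem_Icc.mp hk).2
    exact Finset.mem_image.mpr ⟨x, by simpa using h1, h2⟩
  have h1 := (Finset.card_le_card hsub).trans Finset.card_image_le
  have h2 : 0 < G.degree u := (G.degree_pos_iff_exists_adj u).mpr ⟨v, huv⟩
  rw [Nat.card_Icc, SimpleGraph.card_neighborFinset_eq_degree] at h1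
  omega

lemma shape : ∀ v : Fin 42, G.Adj 0 v → v = 1 ∨
    (G.degree v ≤ 5 ∧ ∃ e, G.Adj v e ∧ G.Adj e 1 ∧ G.degree e ≤ 2) ∨
    (G.degree v ≤ 2 ∧ ∃ e, G.Adj v e ∧ G.degree e ≤ 2 ∧ ∃ p, G.Adj e p ∧ G.degree p ≤ 5 ∧
      ∃ e', G.Adj p e' ∧ G.Adj e' 1 ∧ G.degree e' ≤ 2) := by
  decide +kernel

lemma deg1 : G.degree 1 = 6 := by decide +kernel
lemma deg0 : G.degree 0 = 21 := by decide +kernel
lemma adj01 : G.Adj 0 1 := by decide +kernel

lemma near (c : Sym2 (Fin 42) → ℕ)
    (hint : ∀ (u v w : Fin 42) (k : ℕ), G.Adj u v → G.Adj u w →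
      c s(u, v) ≤ k → k ≤ c s(u, w) → ∃ x, G.Adj u x ∧ c s(u, x) = k)
    (v : Fin 42) (hv : G.Adj 0 v) :
    ∃ x, G.Adj 1 x ∧ c s(0, v) ≤ c s(1, x) + 7 ∧ c s(1, x) ≤ c s(0, v) + 7 := by
  have sp := spread c hint
  rcases shape v hv with rfl | ⟨h1, e, h2, h3, h4⟩ | ⟨h1, e, h2, h3, p, h4, h5, e', h6, h7, h8⟩
  · exact ⟨0, hv.symm, by rw [Sym2.eq_swap]; omega, by rw [Sym2.eq_swap]; omega⟩
  · refine ⟨e, h3.symm, ?_⟩
    have a1 := sp v 0 e hv.symm h2
    have a2 := sp v e 0 h2 hv.symm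
    have a3 := sp e v 1 h2.symm h3
    have a4 := sp e 1 v h3 h2.symm
    rw [Sym2.eq_swap (a := v) (b := 0)] at a1 a2
    rw [Sym2.eq_swap (a := e) (b := v), Sym2.eq_swap (a := e) (b := 1)] at a3 a4
    omega
  · refine ⟨e', h7.symm, ?_⟩
    have a1 := sp v 0 e hv.symm h2
    have a2 := sp v e 0 h2 hv.symm
    have a3 := sp e v p h2.symm h4
    have a4 := sp e p v h4 h2.symm
    have a5 := sp p e e' h4.symm h6
    have a6 := sp p e' e h6 h4.symm
    have a7 := sp e' p 1 h6.symm h7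
    have a8 := sp e' 1 p h7 h6.symm
    rw [Sym2.eq_swap (a := v) (b := 0)] at a1 a2
    rw [Sym2.eq_swap (a := e) (b := v)] at a3 a4
    rw [Sym2.eq_swap (a := p) (b := e)] at a5 a6
    rw [Sym2.eq_swap (a := e') (b := p), Sym2.eq_swap (a := e') (b := 1)] at a7 a8
    omega

/-- The negation of the preceding statement: Every finite graph with an edge that embeds isometrically into a hypercube has a proper edge-coloring using exactly colors 1..t for some t ≥ 1, with each vertex's incident edge colors forming a consecutive integer interval. -/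
theorem result :
    ¬ (∀ (V : Type) [Fintype V] (G : SimpleGraph V),
      (∃ u v : V, G.Adj u v) →
      (∃ (n : ℕ) (f : V → (Fin n → Bool)),
          Function.Injective f ∧ ∀ u v : V, hammingDist (f u) (f v) = G.dist u v) →
      ∃ (t : ℕ) (c : Sym2 V → ℕ),
        1 ≤ t ∧
        (∀ u v : V, G.Adj u v → 1 ≤ c s(u, v) ∧ c s(u, v) ≤ t) ∧
        (∀ k : ℕ, 1 ≤ k → k ≤ t → ∃ u v : V, G.Adj u v ∧ c s(u, v) = k) ∧
        (∀ u v w : V, G.Adj u v → G.Adj u w → v ≠ w → c s(u, v) ≠ c s(u, w)) ∧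
        (∀ (u v w : V) (k : ℕ), G.Adj u v → G.Adj u w →
            c s(u, v) ≤ k → k ≤ c s(u, w) → ∃ x : V, G.Adj u x ∧ c s(u, x) = k)) := by
  intro H
  obtain ⟨t, c, -, -, -, hprop, hint⟩ := H (Fin 42) G ⟨0, 1, adj01⟩ ⟨21, emb, emb_inj, hd_eq⟩
  obtain ⟨v, hv, hmin⟩ := Finset.exists_min_image (G.neighborFinset 0) (fun x => c s(0, x))
    ⟨1, by simpa using adj01⟩
  have hv' : G.Adj 0 v := by simpa using hv
  have hsub : (G.neighborFinset 0).image (fun x => c s(0, x)) ⊆
      Finset.Icc (c s(0, v)) (c s(0, v) + 19) := by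
    intro k hk
    obtain ⟨w, hw, rfl⟩ := Finset.mem_image.mp hk
    have hw' : G.Adj 0 w := by simpa using hw
    obtain ⟨x, h1, h2, h3⟩ := near c hint v hv'
    obtain ⟨y, h4, h5, h6⟩ := near c hint w hw'
    have := spread c hint 1 x y h1 h4
    rw [deg1] at this
    exact Finset.mem_Icc.mpr ⟨hmin w hw, by omega⟩
  have hc := Finset.card_le_card hsub
  rw [Finset.card_image_of_injOn, Nat.card_Icc, SimpleGraph.card_neighborFinset_eq_degree,
    deg0] at hc
  · omega
  · intro a ha b hb hab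
    by_contra hne
    exact hprop 0 a b (by simpa using ha) (by simpa using hb) hne hab

end Pool.Agent.S07958
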