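import Pool.Statements.S08038
import Pool.Agent.H3.Hamm

set_option autoImplicit false
open Pool Pool.MP_349e33_co

namespace Pool.Agent.S08038

/-- The negation of the preceding statement: There is c>0 such that for every finite graph F and every ε>0, for all large Δ, every finite F-free graph of maximum degree Δ has chromatic number at most (c+ε)Δ/log Δ. -/
theorem result :
    ¬ (∃ c : ℝ, 0 < c ∧
      ∀ (k : ℕ) (F : SimpleGraph (Fin k)), ∀ ε : ℝ, 0 < ε →
        ∃ Δ₀ : ℕ, ∀ Δ : ℕ, Δ₀ ≤ Δ →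
          ∀ (V : Type) [Fintype V] (G : SimpleGraph V) [DecidableRel G.Adj],
            F.Free G → G.maxDegree = Δ →
              ∃ n : ℕ, G.Colorable n ∧
                (n : ℝ) ≤ (c + ε) * ((Δ : ℝ) / Real.log (Δ : ℝ))) := by
  rintro ⟨c, hc, H⟩
  classical
  obtain ⟨q, hq⟩ := exists_nat_ge (Real.exp (8 * (c + 1)) + 2)
  have hexp := Real.exp_pos (8 * (c + 1))
  have hq2 : 2 ≤ q := by
    have : (2 : ℝ) ≤ q := by linarith
    exact_mod_cast this
  have hlq : 8 * (c + 1) ≤ Real.log q := by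
    rw [Real.le_log_iff_exp_le (by linarith)]
    linarith
  obtain ⟨D, hD⟩ := H (q + 1) ⊤ 1 one_pos
  obtain ⟨u, hu⟩ : ∃ u, u = D + 1 := ⟨_, rfl⟩
  obtain ⟨col, hcol⟩ := Pool.Agent.H3.Hamm.exists_graph q u hq2
  have hup0 := Pool.Agent.H3.Hamm.deg_le col
  have hfree := Pool.Agent.H3.Hamm.free col (by omega)
  generalize Pool.Agent.H3.Hamm.gr col = G at hcol hup0 hfree
  have hku0 : u < q ^ u := Nat.lt_pow_self (by omega)
  have hlog0 : Real.log ((q ^ u : ℕ) : ℝ) = u * Real.log q := by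
    push_cast; rw [Real.log_pow]
  generalize hk : q ^ u = k at *
  have hlow : k ≤ G.maxDegree := by
    by_contra hlt
    exact hcol (Pool.Agent.H3.Hamm.greedy G k (by omega))
  have hup : G.maxDegree ≤ (2 * u + 1 + 1) * (2 * k) := hup0
  obtain ⟨n, hn, hle⟩ := hD G.maxDegree (by omega) _ G hfree rfl
  have hnk : k < n := by
    by_contra hh
    exact hcol (hn.mono (by omega))
  have hnk' : (k : ℝ) < n := by exact_mod_cast hnk
  have hu1 : (1 : ℝ) ≤ u := by
    have : 1 ≤ u := by omega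
    exact_mod_cast this
  have hk0 : (0 : ℝ) < k := by
    have : 0 < k := by omega
    exact_mod_cast this
  have hup' : (G.maxDegree : ℝ) ≤ 8 * u * k := by
    have : (G.maxDegree : ℝ) ≤ (2 * u + 1 + 1) * (2 * k) := by exact_mod_cast hup
    nlinarith
  have hlog : (u : ℝ) * Real.log q ≤ Real.log (G.maxDegree : ℝ) := by
    rw [← hlog0]
    exact Real.log_le_log hk0 (by exact_mod_cast hlow)
  have hL : (u : ℝ) * (8 * (c + 1)) ≤ Real.log (G.maxDegree : ℝ) := by
    nlinarith
  have hLpos : (0 : ℝ) < (u : ℝ) * (8 * (c + 1)) := by positivity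
  have hdiv : (G.maxDegree : ℝ) / Real.log (G.maxDegree : ℝ) ≤
      (8 * u * k) / ((u : ℝ) * (8 * (c + 1))) :=
    div_le_div₀ (by positivity) hup' hLpos hL
  have heq : (c + 1) * ((8 * u * k) / ((u : ℝ) * (8 * (c + 1)))) = k := by
    field_simp
  have : (c + 1) * ((G.maxDegree : ℝ) / Real.log (G.maxDegree : ℝ)) ≤ k := by
    rw [← heq]
    exact mul_le_mul_of_nonneg_left hdiv (by linarith)
  linarith

end Pool.Agent.S08038
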