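import Pool.Statements.S08046

set_option autoImplicit false
open Classical
open Pool Pool.MP_34e2ea_co

namespace Pool.Agent.S08046

abbrev E := EuclideanSpace ℝ (Fin 4)

/-- a point of the unit circle in the first coordinate plane -/
noncomputable def q (a : ℝ) : E := !₂[a, √(1 - a ^ 2), 0, 0]

/-- a point of the unit circle in the second coordinate plane -/
noncomputable def c (b : ℝ) : E := !₂[0, 0, b, √(1 - b ^ 2)]

lemma dist_sq (x y : E) : dist x y ^ 2 =
    (x 0 - y 0) ^ 2 + (x 1 - y 1) ^ 2 + (x 2 - y 2) ^ 2 + (x 3 - y 3) ^ 2 := by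
  rw [EuclideanSpace.dist_eq, Real.sq_sqrt (Finset.sum_nonneg fun i _ => sq_nonneg _)]
  simp [Fin.sum_univ_four, Real.dist_eq, sq_abs]

lemma norm_sq' (x : E) : ‖x‖ ^ 2 = x 0 ^ 2 + x 1 ^ 2 + x 2 ^ 2 + x 3 ^ 2 := by
  have := dist_sq x 0
  simpa using this

lemma norm_q {a : ℝ} (h0 : 0 ≤ a) (h1 : a ≤ 1) : ‖q a‖ = 1 := by
  have h := norm_sq' (q a)
  have h2 : √(1 - a ^ 2) ^ 2 = 1 - a ^ 2 := Real.sq_sqrt (by nlinarith)
  have h3 : ‖q a‖ ^ 2 = 1 := by
    rw [h]; simp [q, h2]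
  have := norm_nonneg (q a)
  nlinarith

lemma norm_c {a : ℝ} (h0 : 0 ≤ a) (h1 : a ≤ 1) : ‖c a‖ = 1 := by
  have h := norm_sq' (c a)
  have h2 : √(1 - a ^ 2) ^ 2 = 1 - a ^ 2 := Real.sq_sqrt (by nlinarith)
  have h3 : ‖c a‖ ^ 2 = 1 := by
    rw [h]; simp [c, h2]
  have := norm_nonneg (c a)
  nlinarith

lemma dist_qc {a b : ℝ} (h0 : 0 ≤ a) (h1 : a ≤ 1) (h0' : 0 ≤ b) (h1' : b ≤ 1) :
    dist (q a) (c b) = √2 := by
  have h := dist_sq (q a) (c b)
  have h2 : √(1 - a ^ 2) ^ 2 = 1 - a ^ 2 := Real.sq_sqrt (by nlinarith)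
  have h3 : √(1 - b ^ 2) ^ 2 = 1 - b ^ 2 := Real.sq_sqrt (by nlinarith)
  have h4 : dist (q a) (c b) ^ 2 = 2 := by
    rw [h]; simp [q, c, h2, h3]; ring
  rw [← h4, Real.sqrt_sq dist_nonneg]

lemma dist_qq (a b : ℝ) : |a - b| ≤ dist (q a) (q b) := by
  have h := dist_sq (q a) (q b)
  apply abs_le_of_sq_le_sq' _ dist_nonneg |> fun h => abs_le.mpr h
  rw [h]; simp [q]; positivity

lemma dist_cc {a b e : ℝ} (h0 : 0 ≤ a) (h1 : a ≤ e) (h0' : 0 ≤ b) (h1' : b ≤ e) (he : e ≤ 1) :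
    dist (c a) (c b) ≤ 2 * e := by
  have h := dist_sq (c a) (c b)
  have he0 : 0 ≤ e := h0.trans h1
  have key : ∀ t : ℝ, 0 ≤ t → t ≤ e → 1 - e ≤ √(1 - t ^ 2) ∧ √(1 - t ^ 2) ≤ 1 := by
    intro t ht0 ht1
    constructor
    · apply Real.le_sqrt_of_sq_le
      nlinarith
    · apply Real.sqrt_le_one.mpr
      nlinarith
  obtain ⟨a1, a2⟩ := key a h0 h1
  obtain ⟨b1, b2⟩ := key b h0' h1'
  have h5 : (a - b) ^ 2 ≤ e ^ 2 := by
    apply sq_le_sq'
    · linarith
    · linarith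
  have h6 : (√(1 - a ^ 2) - √(1 - b ^ 2)) ^ 2 ≤ e ^ 2 := by
    apply sq_le_sq'
    · linarith
    · linarith
  have h7 : dist (c a) (c b) ^ 2 ≤ (2 * e) ^ 2 := by
    rw [h]; simp only [c]; simp; nlinarith
  exact (abs_le_of_sq_le_sq' h7 (by positivity)).2

lemma c_inj : Function.Injective c := by
  intro a b h
  have := congrArg (fun x : E => x 2) h
  simpa [c] using this

lemma split (K : Set E) (hK : IsCompact K) (hd : Metric.diam K = 1) :
    ∃ f : E → Fin (4 ^ 4), ∀ i, Metric.diam (K ∩ f ⁻¹' {i}) < 1 := by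
  refine ⟨fun x => finFunctionFinEquiv (fun j : Fin 4 =>
    (⟨(⌊3 * x j⌋ % 4).toNat, by omega⟩ : Fin 4)), fun i => ?_⟩
  have : Metric.diam (K ∩ (fun x : E => finFunctionFinEquiv (fun j : Fin 4 =>
    (⟨(⌊3 * x j⌋ % 4).toNat, by omega⟩ : Fin 4))) ⁻¹' {i}) ≤ 2 / 3 := by
    apply Metric.diam_le_of_forall_dist_le (by norm_num)
    rintro x ⟨hx, hxi⟩ y ⟨hy, hyi⟩
    have hxy : dist x y ≤ 1 := hd ▸ Metric.dist_le_diam_of_mem hK.isBounded hx hy
    simp only [Set.mem_preimage, Set.mem_singleton_iff] at hxi hyi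
    have he := finFunctionFinEquiv.injective (hxi.trans hyi.symm)
    have hj : ∀ j : Fin 4, (x j - y j) ^ 2 ≤ 1 / 9 := by
      intro j
      have h1 := congrFun he j
      simp only [Fin.mk.injEq] at h1
      have h2 : dist (x j) (y j) ≤ dist x y := PiLp.dist_apply_le x y j
      rw [Real.dist_eq] at h2
      have h3 := abs_le.mp (h2.trans hxy)
      have a1 := Int.floor_le (3 * x j)
      have a2 := Int.lt_floor_add_one (3 * x j)
      have b1 := Int.floor_le (3 * y j)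
      have b2 := Int.lt_floor_add_one (3 * y j)
      have c1 : ⌊3 * x j⌋ < ⌊3 * y j⌋ + 4 := by
        have : (⌊3 * x j⌋ : ℝ) < ⌊3 * y j⌋ + 4 := by linarith
        exact_mod_cast this
      have c2 : ⌊3 * y j⌋ < ⌊3 * x j⌋ + 4 := by
        have : (⌊3 * y j⌋ : ℝ) < ⌊3 * x j⌋ + 4 := by linarith
        exact_mod_cast this
      have c3 : ⌊3 * x j⌋ = ⌊3 * y j⌋ := by omega
      rw [c3] at a1 a2
      have : (x j - y j) ^ 2 ≤ (1 / 3) ^ 2 := by
        apply sq_le_sq'
        · linarith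
        · linarith
      linarith
    have h7 : dist x y ^ 2 ≤ (2 / 3) ^ 2 := by
      rw [dist_sq]; linarith [hj 0, hj 1, hj 2, hj 3]
    exact (abs_le_of_sq_le_sq' h7 (by positivity)).2
  linarith

noncomputable def Q (i : Fin 257) : E := q ((i : ℝ) / 256)

noncomputable def C (N : ℕ) (j : Fin N) : E := c ((j : ℝ) / (512 * N))

lemma hQ (i : Fin 257) : (0 : ℝ) ≤ (i : ℝ) / 256 ∧ (i : ℝ) / 256 ≤ 1 := by
  have : ((i : ℕ) : ℝ) ≤ 256 := by
    have := i.2
    exact_mod_cast (by omega : (i : ℕ) ≤ 256)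
  constructor
  · positivity
  · linarith

lemma hC (N : ℕ) (j : Fin N) :
    (0 : ℝ) ≤ (j : ℝ) / (512 * N) ∧ (j : ℝ) / (512 * N) ≤ 1 / 512 := by
  have h1 : ((j : ℕ) : ℝ) ≤ N := by exact_mod_cast j.2.le
  have h2 : (0 : ℝ) < N := by exact_mod_cast (lt_of_le_of_lt (Nat.zero_le _) j.2)
  constructor
  · positivity
  · rw [div_le_div_iff₀ (by positivity) (by norm_num)]
    linarith

lemma dQ {i j : Fin 257} (h : i ≠ j) : 1 / 256 ≤ dist (Q i) (Q j) := by
  refine le_trans ?_ (dist_qq _ _)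
  have h1 : (i : ℕ) ≠ j := fun e => h (Fin.ext e)
  rcases lt_or_gt_of_ne h1 with h2 | h2
  · have : ((i : ℕ) : ℝ) + 1 ≤ (j : ℕ) := by exact_mod_cast h2
    rw [le_abs]; right; linarith
  · have : ((j : ℕ) : ℝ) + 1 ≤ (i : ℕ) := by exact_mod_cast h2
    rw [le_abs]; left; linarith

lemma exT' (n : ℕ) (g : Fin n → E) :
    ∃ T : Finset ℝ, (∀ a b, dist (g a) (g b) ∈ T) ∧ T.card ≤ n * n := by
  refine ⟨Finset.univ.image (fun p : Fin n × Fin n => dist (g p.1) (g p.2)), fun a b => ?_, ?_⟩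
  · exact Finset.mem_image.mpr ⟨(a, b), Finset.mem_univ _, rfl⟩
  · refine Finset.card_image_le.trans ?_
    simp

lemma exT : ∃ T : Finset ℝ, (∀ a b, dist (Q a) (Q b) ∈ T) ∧ T.card ≤ 257 * 257 := exT' 257 Q

/-- The negation of the preceding statement: For all d, k there is N such that any set S of at least N points in convex position in R^d has its k-largest-distances graph colorable with m colors, for every m such that every compact diameter-1 set splits into m parts of diameter < 1. -/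
theorem result :
    ¬ (∀ d k : ℕ, ∃ N : ℕ, ∀ S : Finset (EuclideanSpace ℝ (Fin d)),
      N ≤ S.card →
      (∀ x ∈ S, x ∉ convexHull ℝ ((↑S : Set (EuclideanSpace ℝ (Fin d))) \ {x})) →
      ∀ m : ℕ,
        (∀ K : Set (EuclideanSpace ℝ (Fin d)), IsCompact K → Metric.diam K = 1 →
          ∃ f : EuclideanSpace ℝ (Fin d) → Fin m,
            ∀ i : Fin m, Metric.diam (K ∩ f ⁻¹' {i}) < 1) →
        (SimpleGraph.fromRel (fun x y : S =>
          ((S.offDiag.image (fun p => dist p.1 p.2)).filter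
            (fun r => dist (x : EuclideanSpace ℝ (Fin d)) (y : EuclideanSpace ℝ (Fin d)) < r)).card
              < k)).Colorable m) := by
  intro H
  obtain ⟨N, hN⟩ := H 4 (257 * 257 + 2)
  obtain ⟨S, hmem, hQS, hCS⟩ : ∃ S : Finset E, (∀ x ∈ S, (∃ i, Q i = x) ∨ ∃ j, C N j = x) ∧
      (∀ i, Q i ∈ S) ∧ Finset.univ.image (C N) ⊆ S := by
    refine ⟨Finset.univ.image Q ∪ Finset.univ.image (C N), fun x hx => ?_, fun i => ?_,
      Finset.subset_union_right⟩
    · rw [Finset.mem_union, Finset.mem_image, Finset.mem_image] at hx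
      rcases hx with ⟨i, -, h⟩ | ⟨i, -, h⟩
      · exact Or.inl ⟨i, h⟩
      · exact Or.inr ⟨i, h⟩
    · exact Finset.mem_union_left _ (Finset.mem_image_of_mem _ (Finset.mem_univ _))
  have hnorm : ∀ x ∈ S, ‖x‖ = 1 := by
    intro x hx
    rcases hmem x hx with ⟨i, rfl⟩ | ⟨j, rfl⟩
    · exact norm_q (hQ i).1 (hQ i).2
    · exact norm_c (hC N j).1 ((hC N j).2.trans (by norm_num))
  have hCinj : Function.Injective (C N) := by
    intro a b h
    have h1 := c_inj h
    have h2 : (0 : ℝ) < N := by exact_mod_cast (lt_of_le_of_lt (Nat.zero_le _) a.2)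
    have h3 : ((a : ℕ) : ℝ) = (b : ℕ) := by
      field_simp at h1
      exact h1
    exact Fin.ext (by exact_mod_cast h3)
  have hcard : N ≤ S.card := by
    calc N = (Finset.univ.image (C N)).card := by
          rw [Finset.card_image_of_injective _ hCinj]; simp
      _ ≤ S.card := Finset.card_le_card hCS
  have hconv : ∀ x ∈ S, x ∉ convexHull ℝ ((↑S : Set E) \ {x}) := by
    intro x hx hin
    have hsub : ((↑S : Set E) \ {x}) ⊆ {z | inner ℝ x z < 1} := by
      rintro z ⟨hz, hne⟩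
      have hne' : x ≠ z := fun e => hne (by simp [e])
      exact (inner_lt_one_iff_real_of_norm_eq_one (hnorm x hx) (hnorm z hz)).mpr hne'
    have hc : Convex ℝ {z : E | inner ℝ x z < 1} :=
      convex_halfSpace_lt (innerSL ℝ x).toLinearMap.isLinear 1
    have := convexHull_min hsub hc hin
    simp only [Set.mem_ofPred_eq, real_inner_self_eq_norm_sq, hnorm x hx] at this
    norm_num at this
  obtain ⟨col⟩ := hN S hcard hconv (4 ^ 4) split
  obtain ⟨i, j, hij, hcol⟩ := Fintype.exists_ne_map_eq_of_card_lt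
    (fun i : Fin 257 => col ⟨Q i, hQS i⟩) (by simp)
  have hd := dQ hij
  refine col.valid ?_ hcol
  rw [SimpleGraph.fromRel_adj]
  refine ⟨fun e => ?_, Or.inl ?_⟩
  · have : Q i = Q j := congrArg Subtype.val e
    rw [this, dist_self] at hd
    norm_num at hd
  · obtain ⟨T, hT, hTc⟩ := exT
    have hsub : ((S.offDiag.image (fun p => dist p.1 p.2)).filter
        (fun r => dist (Q i) (Q j) < r)) ⊆ insert (√2) T := by
      intro r hr
      rw [Finset.mem_filter, Finset.mem_image] at hr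
      obtain ⟨⟨⟨x, y⟩, hp, rfl⟩, hlt⟩ := hr
      rw [Finset.mem_offDiag] at hp
      rw [Finset.mem_insert]
      rcases hmem x hp.1 with ⟨a, rfl⟩ | ⟨a, rfl⟩ <;> rcases hmem y hp.2.1 with ⟨b, rfl⟩ | ⟨b, rfl⟩
      · exact Or.inr (hT a b)
      · exact Or.inl (dist_qc (hQ a).1 (hQ a).2 (hC N b).1 ((hC N b).2.trans (by norm_num)))
      · left
        rw [dist_comm]
        exact dist_qc (hQ b).1 (hQ b).2 (hC N a).1 ((hC N a).2.trans (by norm_num))
      · exfalso
        have := dist_cc (hC N a).1 (hC N a).2 (hC N b).1 (hC N b).2 (by norm_num)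
        simp only [C] at hlt
        linarith
    refine lt_of_le_of_lt (Finset.card_le_card hsub) ?_
    refine lt_of_le_of_lt (Finset.card_insert_le _ _) ?_
    omega

end Pool.Agent.S08046
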