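import Pool.Statements.S08075
import Pool.Agent.H3.Bip

set_option autoImplicit false
open Pool Pool.MP_35c2eb_co

namespace Pool.Agent.S08075

def Rch {V : Type} (G : SimpleGraph V) (B : Set V) (o : V) : ℕ → V → Prop
  | 0, x => x = o
  | k + 1, x => Rch G B o k x ∨ ∃ y, Rch G B o k y ∧ G.Adj y x ∧ x ∈ B

lemma rch_walk {V : Type} (G : SimpleGraph V) (B : Set V) (o : V) {a b : V} (p : G.Walk a b)
    (hp : ∀ x ∈ p.support, x ∈ B) : ∀ k, Rch G B o k a → Rch G B o (k + p.length) b := by
  induction p with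
  | nil => intro k h; simpa using h
  | @cons u v w huv q ih =>
    intro k h
    have hv : v ∈ B := hp v (by simp)
    have := ih (fun x hx => hp x (by simp [hx])) (k + 1) (Or.inr ⟨u, h, huv, hv⟩)
    rw [SimpleGraph.Walk.length_cons]
    rwa [show k + (q.length + 1) = k + 1 + q.length by omega]

lemma rch_mem {V : Type} (G : SimpleGraph V) (B : Set V) (o : V) (ho : o ∈ B) :
    ∀ k x, Rch G B o k x → x ∈ B := by
  intro k
  induction k with
  | zero => intro x h; rw [show x = o from h]; exact ho
  | succ k ih =>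
    rintro x (h | ⟨y, -, -, h⟩)
    · exact ih x h
    · exact h

lemma layer {V : Type} (G : SimpleGraph V) (B : Set V) (o : V) (ho : o ∈ B) (r : ℕ)
    (h : ∀ u ∈ B, ∃ p : G.Walk o u, p.length ≤ r ∧ ∀ x ∈ p.support, x ∈ B) :
    ∃ δ : V → ℕ, ∀ u ∈ B, δ u ≤ r ∧ (u = o ∨ ∃ y ∈ B, G.Adj y u ∧ δ y < δ u) := by
  refine ⟨fun u => sInf {k | Rch G B o k u}, ?_⟩
  intro u hu
  obtain ⟨p, hp1, hp2⟩ := h u hu
  have h1 : Rch G B o (0 + p.length) u := rch_walk G B o p hp2 0 rfl
  have hne : ({k | Rch G B o k u} : Set ℕ).Nonempty := ⟨_, h1⟩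
  refine ⟨le_trans (Nat.sInf_le h1) (by omega), ?_⟩
  have hm : Rch G B o (sInf {k | Rch G B o k u}) u := Nat.sInf_mem hne
  show u = o ∨ ∃ y ∈ B, G.Adj y u ∧ sInf {k | Rch G B o k y} < sInf {k | Rch G B o k u}
  rcases hk : sInf {k | Rch G B o k u} with _ | k
  · rw [hk] at hm; exact Or.inl hm
  · rw [hk] at hm
    rcases hm with hm | ⟨y, hy, hyu, -⟩
    · have : sInf {k | Rch G B o k u} ≤ k := Nat.sInf_le hm
      omega
    · have : sInf {k | Rch G B o k y} ≤ k := Nat.sInf_le hy
      exact Or.inr ⟨y, rch_mem G B o ho k y hy, hyu, by omega⟩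


/-- If a subgraph-closed graph class has, for each h≥1, a uniform dimension bound for finite posets of height ≤h whose cover graphs lie in it, then for every r its r-shallow minors have edge count at most a constant times vertex count. -/
theorem result :
  ∀ C : ∀ V : Type, SimpleGraph V → Prop,
    (∀ (V W : Type) (G : SimpleGraph V) (H : SimpleGraph W) (f : H →g G),
        Function.Injective f → C V G → C W H) →
    (∀ h : ℕ, 1 ≤ h → ∃ d : ℕ, ∀ (P : Type) [Fintype P] [PartialOrder P],
        (∀ s : Finset P, IsChain (· ≤ ·) (s : Set P) → s.card ≤ h) →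
        C P (SimpleGraph.fromRel (fun x y : P => x ⋖ y)) →
        ∃ f : Fin d → P → ℕ, (∀ i, Function.Injective (f i)) ∧
          ∀ x y : P, x ≤ y ↔ ∀ i, f i x ≤ f i y) →
    ∀ r : ℕ, ∃ c : ℕ, ∀ (V W : Type) [Fintype V] [Fintype W]
        (G : SimpleGraph V) (H : SimpleGraph W),
      C V G →
      (∃ B : W → Set V, (∀ w w', w ≠ w' → Disjoint (B w) (B w')) ∧
        (∀ w, ∃ v ∈ B w, ∀ u ∈ B w, ∃ p : G.Walk v u,
            p.length ≤ r ∧ ∀ x ∈ p.support, x ∈ B w) ∧
        (∀ w w', H.Adj w w' → ∃ u ∈ B w, ∃ u' ∈ B w', G.Adj u u')) →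
      Nat.card H.edgeSet ≤ c * Fintype.card W := by
  classical
  intro C hmono hdim r
  obtain ⟨d, hd⟩ := hdim (2 * r + 2) (by omega)
  obtain ⟨c, hc⟩ := Pool.Agent.H3.Bip.count_bip d
  refine ⟨8 * c, ?_⟩
  rintro V W _ _ G H hG ⟨B, hdisj, hrad, hadj⟩
  choose ρ hρ hwalk using hrad
  choose δ hδ using fun w => layer G (B w) (ρ w) (hρ w) r (hwalk w)
  have huniq : ∀ x w w', x ∈ B w → x ∈ B w' → w = w' := by
    intro x w w' h1 h2
    by_contra hne
    exact Set.disjoint_left.1 (hdisj w w' hne) h1 h2
  set D : Finset (W × W) := Finset.univ.filter (fun p => H.Adj p.1 p.2) with hD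
  obtain ⟨s, hs⟩ := Pool.Agent.H3.Bip.exists_cut D (by
    intro p hp
    exact (Finset.mem_filter.1 hp).2.ne)
  set E := D.filter (fun p => s p.1 = false ∧ s p.2 = true) with hE
  have hEm : ∀ p ∈ E, H.Adj p.1 p.2 ∧ s p.1 = false ∧ s p.2 = true := by
    intro p hp
    rw [hE, Finset.mem_filter, hD, Finset.mem_filter] at hp
    exact ⟨hp.1.2, hp.2⟩
  have hrk : ∃ rk : V → ℕ, (∀ x, rk x ≤ 2 * r + 1) ∧
      ∀ w x, x ∈ B w → rk x = if s w = true then 2 * r + 1 - δ w x else δ w x := by
    refine ⟨fun x => if h : ∃ w, x ∈ B w then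
      (if s h.choose = true then 2 * r + 1 - δ h.choose x else δ h.choose x) else 0, ?_, ?_⟩
    · intro x
      by_cases h : ∃ w, x ∈ B w
      · simp only [dif_pos h]
        have := (hδ _ x h.choose_spec).1
        split_ifs <;> omega
      · simp only [dif_neg h]; omega
    · intro w x hx
      have h : ∃ w, x ∈ B w := ⟨w, hx⟩
      simp only [dif_pos h]
      rw [huniq x _ w h.choose_spec hx]
  obtain ⟨rk, hrk1, hrk2⟩ := hrk
  have key := hc W W E (by
    intro S hS
    let e : V → V → Prop := fun x y => G.Adj x y ∧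
      ((∃ w, s w = false ∧ x ∈ B w ∧ y ∈ B w ∧ δ w x < δ w y) ∨
       (∃ w, s w = true ∧ x ∈ B w ∧ y ∈ B w ∧ δ w y < δ w x) ∨
       (∃ p ∈ S, x ∈ B p.1 ∧ y ∈ B p.2))
    have e_rk : ∀ x y, e x y → rk x < rk y := by
      rintro x y ⟨-, ⟨w, hw, hx, hy, hlt⟩ | ⟨w, hw, hx, hy, hlt⟩ | ⟨p, hp, hx, hy⟩⟩
      · rw [hrk2 w x hx, hrk2 w y hy]; simp [hw, hlt]
      · rw [hrk2 w x hx, hrk2 w y hy]
        have := (hδ w x hx).1
        simp only [hw, if_true]; omega
      · obtain ⟨-, h1, h2⟩ := hEm p (hS hp)
        rw [hrk2 _ x hx, hrk2 _ y hy]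
        have := (hδ _ x hx).1
        have := (hδ _ y hy).1
        simp only [h1, h2, if_true, Bool.false_eq_true, if_false]; omega
    have le_rk : ∀ x y, Relation.ReflTransGen e x y → x = y ∨ rk x < rk y := by
      intro x y h
      induction h with
      | refl => exact Or.inl rfl
      | tail _ h2 ih =>
        have := e_rk _ _ h2
        rcases ih with rfl | ih
        · exact Or.inr this
        · exact Or.inr (ih.trans this)
    letI : PartialOrder V :=
      { le := Relation.ReflTransGen e
        le_refl := fun _ => Relation.ReflTransGen.refl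
        le_trans := fun _ _ _ h1 h2 => h1.trans h2
        le_antisymm := by
          intro x y h1 h2
          rcases le_rk x y h1 with h | h
          · exact h
          · rcases le_rk y x h2 with h' | h'
            · exact h'.symm
            · omega }
    have hle : ∀ x y : V, x ≤ y ↔ Relation.ReflTransGen e x y := fun _ _ => Iff.rfl
    have hcov : ∀ x y : V, x ⋖ y → G.Adj x y := by
      intro x y hxy
      rcases Relation.ReflTransGen.cases_head ((hle x y).1 hxy.le) with h | ⟨z, hxz, hzy⟩
      · exact absurd h hxy.ne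
      · have h1 : x < z := lt_of_le_of_ne ((hle x z).2 (Relation.ReflTransGen.single hxz)) hxz.1.ne
        have h2 : z ≤ y := (hle z y).2 hzy
        have : z = y := by
          by_contra hne
          exact hxy.2 h1 (lt_of_le_of_ne h2 hne)
        rw [← this]; exact hxz.1
    obtain ⟨f, hf1, hf2⟩ := hd V (by
      intro t ht
      have : t.card ≤ (Finset.range (2 * r + 2)).card := by
        apply Finset.card_le_card_of_injOn rk
        · intro x _
          have := hrk1 x
          simp only [Finset.coe_range, Set.mem_Iio]; omega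
        · intro x hx y hy hxy
          by_contra hne
          rcases ht hx hy hne with h | h
          · rcases le_rk x y h with h | h
            · exact hne h
            · omega
          · rcases le_rk y x h with h | h
            · exact hne h.symm
            · omega
      simpa using this) (hmono V V G _ ⟨id, by
        intro x y hxy
        rw [SimpleGraph.fromRel_adj] at hxy
        rcases hxy.2 with h | h
        · exact hcov x y h
        · exact (hcov y x h).symm⟩ Function.injective_id hG)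
    have up : ∀ w, s w = false → ∀ k, ∀ u ∈ B w, δ w u ≤ k → Relation.ReflTransGen e (ρ w) u := by
      intro w hw k
      induction k with
      | zero =>
        intro u hu hk
        rcases (hδ w u hu).2 with h | ⟨y, -, -, h⟩
        · rw [h]
        · omega
      | succ k ih =>
        intro u hu hk
        rcases (hδ w u hu).2 with h | ⟨y, hy, hyu, h⟩
        · rw [h]
        · exact (ih y hy (by omega)).tail ⟨hyu, Or.inl ⟨w, hw, hy, hu, h⟩⟩
    have dn : ∀ w, s w = true → ∀ k, ∀ u ∈ B w, δ w u ≤ k → Relation.ReflTransGen e u (ρ w) := by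
      intro w hw k
      induction k with
      | zero =>
        intro u hu hk
        rcases (hδ w u hu).2 with h | ⟨y, -, -, h⟩
        · rw [h]
        · omega
      | succ k ih =>
        intro u hu hk
        rcases (hδ w u hu).2 with h | ⟨y, hy, hyu, h⟩
        · rw [h]
        · exact Relation.ReflTransGen.head ⟨hyu.symm, Or.inr (Or.inl ⟨w, hw, hu, hy, h⟩)⟩
            (ih y hy (by omega))
    have inv : ∀ w, s w = false → ∀ y, Relation.ReflTransGen e (ρ w) y →
        y ∈ B w ∨ ∃ w', (w, w') ∈ S ∧ y ∈ B w' := by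
      intro w hw y h
      induction h with
      | refl => exact Or.inl (hρ w)
      | @tail y z _ h2 ih =>
        rcases ih with ih | ⟨w', hw', ih⟩
        · rcases h2.2 with ⟨w2, -, hx, hy, -⟩ | ⟨w2, -, hx, hy, -⟩ | ⟨p, hp, hx, hy⟩
          · left; rwa [huniq y w w2 ih hx]
          · left; rwa [huniq y w w2 ih hx]
          · right
            refine ⟨p.2, ?_, hy⟩
            rw [huniq y w p.1 ih hx]; exact hp
        · rcases h2.2 with ⟨w2, -, hx, hy, -⟩ | ⟨w2, -, hx, hy, -⟩ | ⟨p, hp, hx, hy⟩
          · right; exact ⟨w', hw', by rwa [huniq y w' w2 ih hx]⟩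
          · right; exact ⟨w', hw', by rwa [huniq y w' w2 ih hx]⟩
          · exfalso
            have h1 := (hEm _ (hS hw')).2.2
            have h2 := (hEm _ (hS hp)).2.1
            rw [← huniq y w' p.1 ih hx] at h2
            simp only at h1
            rw [h1] at h2
            exact absurd h2 (by simp)
    refine ⟨fun i w => (f i (ρ w) : ℝ), fun i w => (f i (ρ w) : ℝ), ?_⟩
    rintro ⟨w, w'⟩ hp
    obtain ⟨hH, h1, h2⟩ := hEm _ hp
    simp only at hH h1 h2
    have hne : ρ w ≠ ρ w' := by
      intro h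
      exact hH.ne (huniq (ρ w) w w' (hρ w) (h ▸ hρ w'))
    have e1 : (w, w') ∈ S ↔ ρ w ≤ ρ w' := by
      constructor
      · intro hm
        obtain ⟨u, hu, u', hu', huu⟩ := hadj w w' hH
        exact ((up w h1 _ u hu le_rfl).tail ⟨huu, Or.inr (Or.inr ⟨(w, w'), hm, hu, hu'⟩)⟩).trans
          (dn w' h2 _ u' hu' le_rfl)
      · intro hm
        rcases inv w h1 _ hm with h | ⟨w2, hw2, h⟩
        · exact absurd (huniq _ w w' h (hρ w')) hH.ne
        · rwa [huniq _ w' w2 (hρ w') h]
    rw [e1, hf2]
    simp only [Nat.cast_lt]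
    exact forall_congr' (fun i => ⟨fun h => lt_of_le_of_ne h ((hf1 i).ne hne), le_of_lt⟩))
  have hcard : Nat.card H.edgeSet ≤ D.card := by
    rw [Nat.card_eq_fintype_card, ← SimpleGraph.edgeFinset_card]
    refine le_trans (Finset.card_le_card (t := D.image (fun p => s(p.1, p.2))) ?_) Finset.card_image_le
    intro z hz
    induction z using Sym2.ind with
    | _ u v =>
      exact Finset.mem_image.2 ⟨(u, v), by simpa [hD] using hz, rfl⟩
  nlinarith

end Pool.Agent.S08075
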