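import Pool.Statements.S08110
import Pool.Agent.H15.MA1

set_option autoImplicit false
universe u
open Pool Pool.MP_375da3_co

namespace Pool.Agent.S08110

theorem result :
    ¬ (∀ (T : Type u) [DistribLattice T] (ι : Type u) (C : ι → Type u)
      [∀ i, LinearOrder (C i)],
      Nonempty (T ↪o ((i : ι) → C i)) →
        ∃ (D : ι → Type u) (_ : ∀ i, LinearOrder (D i)),
          ∃ f : LatticeHom T ((i : ι) → D i), Function.Injective f) := by
  intro H
  obtain ⟨U, hU⟩ := Pool.Agent.H15.MA1.exists_family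
  have hemb : Nonempty (ULift.{u} Pool.Agent.H15.MA1.MA ↪o
      ((_ : ULift.{u} ℕ) → ULift.{u} ENNReal)) := by
    refine ⟨OrderEmbedding.ofMapLEIff
      (fun a n => ULift.up (Pool.Agent.H15.MA1.mes (U n.down) a.down)) ?_⟩
    intro a b
    rw [← ULift.down_le, ← hU]
    exact ⟨fun h n => h ⟨n⟩, fun h n => h n.down⟩
  obtain ⟨D, inst, f, hf⟩ := H (ULift.{u} Pool.Agent.H15.MA1.MA) (ULift.{u} ℕ)
    (fun _ => ULift.{u} ENNReal) hemb
  obtain ⟨a, b, hab, h⟩ := Pool.Agent.H15.MA1.not_sep (fun n => D ⟨n⟩)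
    (fun n a => f ⟨a⟩ ⟨n⟩)
    (fun n a b => congrFun (map_sup f (ULift.up a) (ULift.up b)) (ULift.up n))
    (fun n a b => congrFun (map_inf f (ULift.up a) (ULift.up b)) (ULift.up n))
  apply hab
  have : (⟨a⟩ : ULift.{u} Pool.Agent.H15.MA1.MA) = ⟨b⟩ := hf (funext fun n => h n.down)
  exact congrArg ULift.down this

end Pool.Agent.S08110
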