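import Pool.Statements.S08141
import Pool.Agent.H12.QMat

set_option autoImplicit false
open Pool Pool.MP_389e9c_co

namespace Pool.Agent.S08141

open Module Submodule Pool.Agent.H12.QMat

def ex1 : List ℕ := [0, 127, 5, 259, 386, 60, 391, 137, 264, 0, 508, 127, 381, 309, 55, 50, 431,
  45, 553, 0, 508, 503, 122, 67, 194, 453, 326]

def ex2 : List ℕ := [0, 127, 7, 261, 642, 84, 141, 649, 395, 0, 762, 127, 381, 585, 712, 324, 197,
  190, 444, 0, 762, 755, 120, 43, 424, 50, 304]

def ty (i : Fin 30) : ℕ := if i.val < 3 then 3 else if i.val < 12 then 0 else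
  if i.val < 22 then 1 else 2

def val (ex : List ℕ) (i : Fin 30) (c : Fin 3) : Option ℕ :=
  if i.val < 3 then (if c.val = i.val then some 0 else none) else if c.val = ty i then some 0
  else if c.val = (ty i + 1) % 3 then some (ex.getD (i.val - 3) 0) else none

def om : Option ℕ → Option ℕ → Option ℕ → Option ℕ
  | some a, some b, some c => some (a + b + c)
  | _, _, _ => none

abbrev R := Option ℕ × Option ℕ × Option ℕ

def L' (a b c : R) : List ℕ :=
  [om a.1 b.2.1 c.2.2, om a.1 b.2.2 c.2.1, om a.2.1 b.1 c.2.2, om a.2.1 b.2.2 c.1,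
    om a.2.2 b.1 c.2.1, om a.2.2 b.2.1 c.1].filterMap id

def row (ex : List ℕ) (i : Fin 30) : R := (val ex i 0, val ex i 1, val ex i 2)

def L (ex : List ℕ) (i j l : Fin 30) : List ℕ := L' (row ex i) (row ex j) (row ex l)

def zp (o : ℕ) : List ℕ → Bool
  | [] => true
  | [a, b] => a % o == b % o
  | _ => false

def dp (i j l : Fin 30) : Bool := zp 635 (L ex1 i j l)

def TT : List (ℕ × R × R) := [
  (0, (some 0, none, none), (some 0, none, none)),
  (1, (none, some 0, none), (none, some 0, none)),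
  (2, (none, none, some 0), (none, none, some 0)),
  (3, (some 0, some 0, none), (some 0, some 0, none)),
  (4, (some 0, some 127, none), (some 0, some 127, none)),
  (5, (some 0, some 5, none), (some 0, some 7, none)),
  (6, (some 0, some 259, none), (some 0, some 261, none)),
  (7, (some 0, some 386, none), (some 0, some 642, none)),
  (8, (some 0, some 60, none), (some 0, some 84, none)),
  (9, (some 0, some 391, none), (some 0, some 141, none)),
  (10, (some 0, some 137, none), (some 0, some 649, none)),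
  (11, (some 0, some 264, none), (some 0, some 395, none)),
  (12, (none, some 0, some 0), (none, some 0, some 0)),
  (13, (none, some 0, some 508), (none, some 0, some 762)),
  (14, (none, some 0, some 127), (none, some 0, some 127)),
  (15, (none, some 0, some 381), (none, some 0, some 381)),
  (16, (none, some 0, some 309), (none, some 0, some 585)),
  (17, (none, some 0, some 55), (none, some 0, some 712)),
  (18, (none, some 0, some 50), (none, some 0, some 324)),
  (19, (none, some 0, some 431), (none, some 0, some 197)),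
  (20, (none, some 0, some 45), (none, some 0, some 190)),
  (21, (none, some 0, some 553), (none, some 0, some 444)),
  (22, (some 0, none, some 0), (some 0, none, some 0)),
  (23, (some 508, none, some 0), (some 762, none, some 0)),
  (24, (some 503, none, some 0), (some 755, none, some 0)),
  (25, (some 122, none, some 0), (some 120, none, some 0)),
  (26, (some 67, none, some 0), (some 43, none, some 0)),
  (27, (some 194, none, some 0), (some 424, none, some 0)),
  (28, (some 453, none, some 0), (some 50, none, some 0)),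
  (29, (some 326, none, some 0), (some 304, none, some 0))]

def good (a b c : ℕ × R × R) : Bool := Nat.beq a.1 b.1 || Nat.beq a.1 c.1 || Nat.beq b.1 c.1 ||
  (Nat.ble (L' a.2.1 b.2.1 c.2.1).length 2 && Nat.ble (L' a.2.2 b.2.2 c.2.2).length 2 &&
    zp 889 (L' a.2.2 b.2.2 c.2.2) == zp 635 (L' a.2.1 b.2.1 c.2.1))

def rowOK (a : ℕ × R × R) : Bool := TT.all fun b => TT.all fun c => good a b c

lemma chk1 : ((TT.drop 0).take 5).all rowOK = true := by decide +kernel

lemma chk2 : ((TT.drop 5).take 5).all rowOK = true := by decide +kernel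

lemma chk3 : ((TT.drop 10).take 5).all rowOK = true := by decide +kernel

lemma chk4 : ((TT.drop 15).take 5).all rowOK = true := by decide +kernel

lemma chk5 : ((TT.drop 20).take 5).all rowOK = true := by decide +kernel

lemma chk6 : ((TT.drop 25).take 5).all rowOK = true := by decide +kernel

lemma chk0 : TT.all rowOK = true := by
  have e : TT = (TT.drop 0).take 5 ++ (TT.drop 5).take 5 ++ (TT.drop 10).take 5 ++
    (TT.drop 15).take 5 ++ (TT.drop 20).take 5 ++ (TT.drop 25).take 5 := rfl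
  rw [e]
  simp only [List.all_append, chk1, chk2, chk3, chk4, chk5, chk6, Bool.and_self]

lemma memT : ∀ i : Fin 30, (i.val, row ex1 i, row ex2 i) ∈ TT := by decide +kernel

lemma chk (i j l : Fin 30) (h1 : i ≠ j) (h2 : i ≠ l) (h3 : j ≠ l) : (L ex1 i j l).length ≤ 2 ∧
    (L ex2 i j l).length ≤ 2 ∧ zp 889 (L ex2 i j l) = dp i j l := by
  have h := List.all_eq_true.1 (List.all_eq_true.1 (List.all_eq_true.1 chk0 _ (memT i)) _ (memT j))
    _ (memT l)
  simpa [good, Fin.val_inj, h1, h2, h3, and_assoc, L, dp] using h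

def ev {k : Type} [Field k] (γ : k) (o : Option ℕ) : k := o.elim 0 (γ ^ ·)

lemma det_zero {k : Type} [Field k] [Algebra F k] (γ : k) (o : ℕ) (ho : orderOf γ = o)
    (h0 : 0 < o) (ex : List ℕ) (r : Fin 3 → Fin 30) (h : (L ex (r 0) (r 1) (r 2)).length ≤ 2) :
    (Matrix.of ((fun i c => ev γ (val ex i c)) ∘ r)).det = 0 ↔
      zp o (L ex (r 0) (r 1) (r 2)) = true := by
  have hc : CharP k 2 := charP_of_injective_algebraMap (algebraMap F k).injective 2
  have hf : IsOfFinOrder γ := orderOf_pos_iff.1 (ho ▸ h0)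
  have hγ : γ ≠ 0 := hf.isUnit.ne_zero
  have e1 : ∀ a b c, ev γ a * ev γ b * ev γ c = ev γ (om a b c) := by
    rintro (_ | a) (_ | b) (_ | c) <;> simp [ev, om, pow_add]
  have e2 : ∀ l : List (Option ℕ), ((l.filterMap id).map (γ ^ ·)).sum = (l.map (ev γ)).sum := by
    intro l
    induction l with
    | nil => rfl
    | cons a l ih => cases a <;> simp [ev] at ih ⊢ <;> exact ih
  have e3 : (Matrix.of ((fun i c => ev γ (val ex i c)) ∘ r)).det =
      ((L ex (r 0) (r 1) (r 2)).map (γ ^ ·)).sum := by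
    rw [L, L', e2, Matrix.det_fin_three]
    simp only [row, Matrix.of_apply, Function.comp, e1, CharTwo.sub_eq_add, List.map_cons,
      List.map_nil, List.sum_cons, List.sum_nil, add_zero, add_assoc]
  rw [e3]
  generalize L ex (r 0) (r 1) (r 2) = l at h
  rcases l with _ | ⟨a, _ | ⟨b, _ | ⟨c, l⟩⟩⟩
  · simp [zp]
  · simp [zp, hγ]
  · simp only [zp, List.map_cons, List.map_nil, List.sum_cons, List.sum_nil, add_zero, beq_iff_eq]
    rw [CharTwo.add_eq_zero, hf.pow_eq_pow_iff_modEq, ho]
    rfl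
  · simp at h

lemma inj3 {i j l : Fin 30} (h1 : i ≠ j) (h2 : i ≠ l) (h3 : j ≠ l) :
    Function.Injective ![i, j, l] := by
  intro a b
  fin_cases a <;> fin_cases b <;> simp [h1, h2, h3, h1.symm, h2.symm, h3.symm]

lemma norep {K : Type} [Field K] [Algebra F K] [Fintype K] (hK : Fintype.card K % 35 = 2)
    (M : Fin 30 → Fin 3 → K) (hb : ∀ a, M (![0, 1, 2] a) = Pi.single a 1)
    (h : ∀ r : Fin 3 → Fin 30, Function.Injective r →
      ((Matrix.of (M ∘ r)).det = 0 ↔ dp (r 0) (r 1) (r 2) = true)) : False := by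
  have hc : CharP K 2 := charP_of_injective_algebraMap (algebraMap F K).injective 2
  have m0 : M 0 = Pi.single 0 1 := hb 0
  have m1 : M 1 = Pi.single 1 1 := hb 1
  have m2 : M 2 = Pi.single 2 1 := hb 2
  have D : ∀ i j l, i ≠ j → i ≠ l → j ≠ l → (M i 0 * M j 1 * M l 2 + M i 0 * M j 2 * M l 1 +
      M i 1 * M j 0 * M l 2 + M i 1 * M j 2 * M l 0 + M i 2 * M j 0 * M l 1 +
      M i 2 * M j 1 * M l 0 = 0 ↔ dp i j l = true) := fun i j l h1 h2 h3 => by
    simpa [Matrix.det_fin_three, CharTwo.sub_eq_add] using h _ (inj3 h1 h2 h3)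
  have t : ∀ i : Fin 30, ty i ≠ 3 → (0 ≠ i ∧ 1 ≠ i ∧ 2 ≠ i) ∧ (dp 1 2 i = true ↔ ty i = 1) ∧
    (dp 0 2 i = true ↔ ty i = 2) ∧ (dp 0 1 i = true ↔ ty i = 0) := by decide
  have z0 : ∀ i, ty i ≠ 3 → (M i 0 = 0 ↔ ty i = 1) := fun i hi => by
    obtain ⟨⟨_, b, c⟩, d, _, _⟩ := t i hi
    simpa [m1, m2, d] using D 1 2 i (by decide) b c
  have z1 : ∀ i, ty i ≠ 3 → (M i 1 = 0 ↔ ty i = 2) := fun i hi => by
    obtain ⟨⟨a, _, c⟩, _, d, _⟩ := t i hi
    simpa [m0, m2, d] using D 0 2 i (by decide) a c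
  have z2 : ∀ i, ty i ≠ 3 → (M i 2 = 0 ↔ ty i = 0) := fun i hi => by
    obtain ⟨⟨a, b, _⟩, _, _, d⟩ := t i hi
    simpa [m0, m1, d] using D 0 1 i (by decide) a b
  obtain ⟨s, hs⟩ : ∃ s : Fin 30 → K, ∀ i, s i = if ty i = 0 then M i 1 / M i 0 else
    if ty i = 1 then M i 2 / M i 1 else M i 0 / M i 2 := ⟨_, fun _ => rfl⟩
  have rel : ∀ i j l, ty i = 0 → ty j = 1 → ty l = 2 → dp i j l = true →
      s i * s j * s l = 1 := by
    intro i j l hi hj hl hd
    have h1 := (D i j l (by rintro rfl; omega) (by rintro rfl; omega) (by rintro rfl; omega)).2 hd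
    have a0 : M i 0 ≠ 0 := fun e => by have := (z0 i (by omega)).1 e; omega
    have a1 : M j 1 ≠ 0 := fun e => by have := (z1 j (by omega)).1 e; omega
    have a2 : M l 2 ≠ 0 := fun e => by have := (z2 l (by omega)).1 e; omega
    rw [(z2 i (by omega)).2 hi, (z0 j (by omega)).2 hj, (z1 l (by omega)).2 hl] at h1
    simp only [mul_zero, zero_mul, add_zero] at h1
    rw [CharTwo.add_eq_zero] at h1
    simp only [hs, hi, hj, hl, if_true, one_ne_zero, if_false, OfNat.ofNat_ne_zero,
      OfNat.ofNat_ne_one]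
    field_simp
    linear_combination -h1
  have e : (s 4 * s 12 * s 23) ^ 16 * (s 4 * s 13 * s 22) ^ 16 * (s 4 * s 17 * s 28) ^ 3 * (s 5 * s 14 * s 24) ^ 8 * (s 6 * s 16 * s 26) ^ 3 * (s 6 * s 18 * s 29) ^ 1 * (s 7 * s 14 * s 25) ^ 8 * (s 8 * s 15 * s 27) ^ 4 * (s 9 * s 21 * s 29) ^ 1 * (s 10 * s 19 * s 26) ^ 1 * (s 11 * s 20 * s 29) ^ 1 * s 3 ^ 35 =
      (s 3 * s 12 * s 22) ^ 16 * (s 3 * s 14 * s 23) ^ 16 * (s 3 * s 16 * s 29) ^ 3 * (s 5 * s 13 * s 25) ^ 8 * (s 6 * s 13 * s 24) ^ 4 * (s 7 * s 15 * s 24) ^ 4 * (s 7 * s 17 * s 27) ^ 3 * (s 7 * s 19 * s 28) ^ 1 * (s 8 * s 13 * s 26) ^ 4 * (s 9 * s 18 * s 27) ^ 1 * (s 10 * s 20 * s 28) ^ 1 * (s 11 * s 21 * s 28) ^ 1 * s 4 ^ 35 := by ring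
  rw [rel 3 12 22 (by decide) (by decide) (by decide) (by decide), rel 3 14 23 (by decide) (by decide) (by decide) (by decide), rel 3 16 29 (by decide) (by decide) (by decide) (by decide), rel 4 12 23 (by decide) (by decide) (by decide) (by decide), rel 4 13 22 (by decide) (by decide) (by decide) (by decide), rel 4 17 28 (by decide) (by decide) (by decide) (by decide), rel 5 13 25 (by decide) (by decide) (by decide) (by decide), rel 5 14 24 (by decide) (by decide) (by decide) (by decide), rel 6 13 24 (by decide) (by decide) (by decide) (by decide), rel 6 16 26 (by decide) (by decide) (by decide) (by decide), rel 6 18 29 (by decide) (by decide) (by decide) (by decide), rel 7 14 25 (by decide) (by decide) (by decide) (by decide), rel 7 15 24 (by decide) (by decide) (by decide) (by decide), rel 7 17 27 (by decide) (by decide) (by decide) (by decide), rel 7 19 28 (by decide) (by decide) (by decide) (by decide), rel 8 13 26 (by decide) (by decide) (by decide) (by decide), rel 8 15 27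 (by decide) (by decide) (by decide) (by decide), rel 9 18 27 (by decide) (by decide) (by decide) (by decide), rel 9 21 29 (by decide) (by decide) (by decide) (by decide), rel 10 19 26 (by decide) (by decide) (by decide) (by decide), rel 10 20 28 (by decide) (by decide) (by decide) (by decide), rel 11 20 29 (by decide) (by decide) (by decide) (by decide), rel 11 21 28 (by decide) (by decide) (by decide) (by decide)] at e
  simp only [one_pow, one_mul] at e
  have a30 : M 3 0 ≠ 0 := fun e => absurd ((z0 3 (by decide)).1 e) (by decide)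
  have a31 : M 3 1 ≠ 0 := fun e => absurd ((z1 3 (by decide)).1 e) (by decide)
  have a40 : M 4 0 ≠ 0 := fun e => absurd ((z0 4 (by decide)).1 e) (by decide)
  have a41 : M 4 1 ≠ 0 := fun e => absurd ((z1 4 (by decide)).1 e) (by decide)
  have s3 : s 3 = M 3 1 / M 3 0 := by rw [hs, if_pos (by decide)]
  have s4 : s 4 = M 4 1 / M 4 0 := by rw [hs, if_pos (by decide)]
  have n3 : s 3 ≠ 0 := s3 ▸ div_ne_zero a31 a30
  have n4 : s 4 ≠ 0 := s4 ▸ div_ne_zero a41 a40
  have b1 : (s 4 / s 3) ^ 35 = 1 := by rw [div_pow, ← e, div_self (pow_ne_zero _ n3)]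
  have b2 := FiniteField.pow_card (s 4 / s 3)
  rw [pow_eq_pow_mod _ b1, hK, sq, mul_eq_left₀ (div_ne_zero n4 n3), div_eq_one_iff_eq n3, s3, s4,
    div_eq_div_iff a40 a30] at b2
  have := (D 3 4 2 (by decide) (by decide) (by decide)).1 (by
    simp only [m2, Pi.single_eq_same, ne_eq, Fin.reduceEq, not_false_eq_true, Pi.single_eq_of_ne,
      mul_zero, mul_one, add_zero]
    rw [CharTwo.add_eq_zero]
    linear_combination b2)
  exact absurd this (by decide)

/-- There is a finite field F, an extension K of degree m>1, and an F-linear code of n×m matrices whose shortened-code dimensions are all divisible by m, such that no matrix over K represents the q-matroid with rank (dim C − dim C(V^⊥))/m. -/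
theorem result :
    ∃ (F K : Type) (_ : Field F) (_ : Fintype F) (_ : Field K) (_ : Algebra F K) (m n : ℕ),
      1 < m ∧ Module.finrank F K = m ∧
      ∃ C : Submodule F (Fin n → Fin m → F),
        (∀ W : Submodule F (Fin n → F),
          m ∣ Module.finrank F ↥(C ⊓ ⨅ j : Fin m, Submodule.comap
            (LinearMap.pi (fun i : Fin n =>
              LinearMap.comp (LinearMap.proj j : (Fin m → F) →ₗ[F] F)
                (LinearMap.proj i : (Fin n → Fin m → F) →ₗ[F] (Fin m → F)))) W)) ∧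
        ¬ ∃ (k : ℕ) (G : Matrix (Fin k) (Fin n) K),
          ∀ V : Submodule F (Fin n → F),
            m * Module.finrank K (Submodule.span K
              ((fun v : Fin n → F => Matrix.mulVec G (fun i => algebraMap F K (v i))) ''
                (V : Set (Fin n → F))))
            = Module.finrank F C - Module.finrank F ↥(C ⊓ ⨅ j : Fin m, Submodule.comap
              (LinearMap.pi (fun i : Fin n =>
                LinearMap.comp (LinearMap.proj j : (Fin m → F) →ₗ[F] F)
                  (LinearMap.proj i : (Fin n → Fin m → F) →ₗ[F] (Fin m → F))))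
              (⨅ (v : Fin n → F) (_ : v ∈ V), LinearMap.ker
                (∑ i : Fin n, v i • (LinearMap.proj i : (Fin n → F) →ₗ[F] F)))) := by
  obtain ⟨N, hN, hN2⟩ : ∃ N : ℕ, 2 ^ 30 ≤ N ∧ N % 12 = 1 := ⟨5 ^ 14, by norm_num, by norm_num⟩
  obtain ⟨k₁, K₁, _, _, _, _, _, _, _, γ₁, t₁, f₁, o₁, l₁⟩ :=
    exists_ext (n := 30) 28 N 635 (by norm_num) hN (by norm_num)
  obtain ⟨k₂, K₂, _, _, _, _, _, _, _, γ₂, t₂, f₂, o₂, l₂⟩ :=
    exists_ext (n := 30) 21 N 889 (by norm_num) hN (by norm_num)
  have ne : ∀ r : Fin 3 → Fin 30, Function.Injective r → r 0 ≠ r 1 ∧ r 0 ≠ r 2 ∧ r 1 ≠ r 2 :=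
    fun r hr => ⟨hr.ne (by decide), hr.ne (by decide), hr.ne (by decide)⟩
  have d₁ : ∀ r : Fin 3 → Fin 30, Function.Injective r →
      ((Matrix.of ((fun i c => ev γ₁ (val ex1 i c)) ∘ r)).det = 0 ↔ dp (r 0) (r 1) (r 2) = true) :=
    fun r hr => det_zero γ₁ 635 o₁ (by norm_num) ex1 r
      (chk _ _ _ (ne r hr).1 (ne r hr).2.1 (ne r hr).2.2).1
  have d₂ : ∀ r : Fin 3 → Fin 30, Function.Injective r →
      ((Matrix.of ((fun i c => ev γ₂ (val ex2 i c)) ∘ r)).det = 0 ↔ dp (r 0) (r 1) (r 2) = true) :=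
    fun r hr => by
      have := chk _ _ _ (ne r hr).1 (ne r hr).2.1 (ne r hr).2.2
      rw [det_zero γ₂ 889 o₂ (by norm_num) ex2 r this.2.1, this.2.2]
  have g₁ := generic _ t₁ l₁ _ d₁
  have g₂ := generic _ t₂ l₂ _ d₂
  have u₁ : ∀ r : Fin 3 → Fin 30, Function.Injective r →
      (LinearIndependent K₁ (phi (fun i a => t₁ i * algebraMap k₁ K₁ (ev γ₁ (val ex1 i a))) ∘
        fun a => Pi.single (r a) 1) ↔ ¬ dp (r 0) (r 1) (r 2) = true) := fun r hr => by
    have e : Matrix.of (phi (fun i a => t₁ i * algebraMap k₁ K₁ (ev γ₁ (val ex1 i a))) ∘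
        fun a => Pi.single (r a) 1) = Matrix.of fun a b => t₁ (r a) *
          (algebraMap k₁ K₁).mapMatrix (Matrix.of ((fun i c => ev γ₁ (val ex1 i c)) ∘ r)) a b := by
      ext a b; simp [phi_single]
    rw [li3, e, Matrix.det_mul_column, ← RingHom.map_det, ← d₁ r hr, mul_ne_zero_iff, map_ne_zero]
    exact and_iff_right (Finset.prod_ne_zero_iff.2 fun a _ => by simpa using l₁.ne_zero {r a})
  generalize (fun i a => t₁ i * algebraMap k₁ K₁ (ev γ₁ (val ex1 i a))) = c₁ at g₁ u₁
  generalize (fun i a => t₂ i * algebraMap k₂ K₂ (ev γ₂ (val ex2 i a))) = c₂ at g₂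
  have i0 : Function.Injective (![0, 1, 2] : Fin 3 → Fin 30) :=
    inj3 (by decide) (by decide) (by decide)
  have b₁ := (u₁ _ i0).2 (by decide)
  have b₂ := (g₂ _).2 ((g₁ _).1 b₁)
  have s₁ : span K₁ (Set.range (phi c₁)) = ⊤ := top_le_iff.1
    ((b₁.span_eq_top_of_card_eq_finrank (by simp)).ge.trans
      (span_mono (Set.range_comp_subset_range _ _)))
  have s₂ : span K₂ (Set.range (phi c₂)) = ⊤ := top_le_iff.1
    ((b₂.span_eq_top_of_card_eq_finrank (by simp)).ge.trans
      (span_mono (Set.range_comp_subset_range _ _)))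
  have hrk : ∀ V, rk c₂ V = rk c₁ V := fun V => le_antisymm
    (rk_le c₂ c₁ s₂ (fun u hu => (g₁ u).2 ((g₂ u).1 hu)) V)
    (rk_le c₁ c₂ s₁ (fun u hu => (g₂ u).2 ((g₁ u).1 hu)) V)
  have h3 : rk c₁ Set.univ = 3 := by rw [rk, Set.image_univ, s₁]; simp
  obtain ⟨m, hm⟩ : ∃ m, m = 49 * N := ⟨_, rfl⟩
  have hm1 : 1 < m := by omega
  obtain ⟨C, hC, hV⟩ := code c₁ c₂ m (by omega) h3 hrk
  refine ⟨F, GaloisField 2 m, inferInstance, inferInstance, inferInstance, inferInstance, m, 30,
    hm1, GaloisField.finrank 2 (by omega), C, fun W => ?_, ?_⟩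
  · have := hV (perp W)
    rw [perp_perp] at this
    exact ⟨_, this⟩
  rintro ⟨k, G, hG⟩
  have hr : ∀ V : Submodule F (Fin 30 → F), rk (fun i a => G a i) V = rk c₁ V := fun V => by
    have h1 := hG V
    have e : (fun v : Fin 30 → F => Matrix.mulVec G fun i => algebraMap F (GaloisField 2 m) (v i)) =
        phi (fun i a => G a i) := by
      funext v a
      simp [phi, Fintype.linearCombination_apply, Matrix.mulVec, dotProduct, Algebra.smul_def,
        mul_comm]
    have h2 : rk c₁ V ≤ 3 := (finrank_le _).trans (by simp)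
    rw [e, hC] at h1
    have h4 : m * rk (fun i a => G a i) V = m * 3 - m * (3 - rk c₁ V) := hV V ▸ h1
    rw [← Nat.mul_sub] at h4
    have := Nat.eq_of_mul_eq_mul_left (by omega) h4
    omega
  have hl : ∀ r : Fin 3 → Fin 30, Function.Injective r →
      (LinearIndependent (GaloisField 2 m) ((fun i a => G a i) ∘ r) ↔
        ¬ dp (r 0) (r 1) (r 2) = true) := fun r hr' => by
    rw [← u₁ r hr', li_iff_rk, ← hr, ← li_iff_rk]
    have : (fun i a => G a i) ∘ r = phi (fun i a => G a i) ∘ fun a => Pi.single (r a) 1 := by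
      funext a; simp [phi_single]
    rw [this]
  obtain ⟨M, hM1, hM2⟩ := coords (fun i a => G a i) ![0, 1, 2] ((hl _ i0).2 (by decide))
    ((hr ⊤).trans h3).le
  have := Fintype.ofFinite (GaloisField 2 m)
  refine norep ?_ M hM1 fun r hr' => not_iff_not.1 ((hM2 r).symm.trans (hl r hr'))
  rw [← Nat.card_eq_fintype_card, GaloisField.card 2 m (by omega)]
  obtain ⟨q, rfl⟩ : ∃ q, m = 12 * q + 1 := ⟨m / 12, by omega⟩
  rw [pow_succ, pow_mul, Nat.mul_mod, Nat.pow_mod]
  simp

end Pool.Agent.S08141
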