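import Pool.Statements.S08224

set_option autoImplicit false
open Pool Pool.MP_3c1ca0_co

namespace Pool.Agent.S08224

/-- parity bit of a binomial coefficient -/
def E (k x : ℕ) : Bool := decide (Nat.choose k x % 2 = 0)

def cell (r : ℕ) (a b : Bool) : Bool :=
  if r = 0 ∨ r = 3 ∨ r = 7 then true else if r = 21 then a else if r = 30 then !a && !b
  else if r = 32 then !a && b else if r = 36 then a && !b else false

/-- the outcome table of the two-heap game -/
def s (x z : ℕ) : Bool := cell (z % 50) (E (z / 50) (x + 1)) (E (z / 50) x)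

def L0 : List ℕ := [1, 2, 6, 9, 10, 11, 12, 13, 16, 22, 24, 26, 28, 34, 35, 37, 39, 40, 45, 49]
def L1 : List ℕ := [9, 15]

def look (r d : ℕ) (a b a' b' k0 : Bool) : Bool :=
  if d ≤ r then cell (r - d) a b else if k0 then false else cell (50 + r - d) a' b'

def chk (r : ℕ) (a b c a' b' c' k0 x0 : Bool) : Bool :=
  (x0 && b) || (k0 && !a) || (!k0 && (a != (a' == b'))) ||
    (cell r a b == ((L0.all fun d => !look r d a b a' b' k0) &&
      (x0 || L1.all fun d => !look r d b c b' c' k0)))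

set_option synthInstance.maxSize 2000 in
lemma fin_check0 : ∀ r < 50, ∀ a b c a' b' c' k0 x0 : Bool,
    chk r a b c a' b' c' k0 x0 = true := by
  decide +kernel

lemma fin_check : ∀ r < 50, ∀ a b c a' b' c' k0 x0 : Bool,
    (x0 = true → b = false) → (k0 = true → a = true) → (k0 = false → a = (a' == b')) →
    cell r a b = ((L0.all fun d => !look r d a b a' b' k0) &&
      (x0 || L1.all fun d => !look r d b c b' c' k0)) := by
  intro r hr a b c a' b' c' k0 x0 h1 h2 h3
  have h := fin_check0 r hr a b c a' b' c' k0 x0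
  unfold chk at h
  simp only [Bool.or_eq_true, beq_iff_eq] at h
  rcases h with ((h | h) | h) | h
  · exfalso; revert h h1; cases x0 <;> cases b <;> simp
  · exfalso; revert h h2; cases k0 <;> cases a <;> simp
  · exfalso; revert h h3; cases k0 <;> cases a <;> cases a' <;> cases b' <;> simp
  · exact h

lemma look_spec (x z d : ℕ) (hd : d ≤ 50) :
    (d ≤ z → s x (z - d) = false) ↔
      look (z % 50) d (E (z / 50) (x + 1)) (E (z / 50) x) (E (z / 50 - 1) (x + 1))
        (E (z / 50 - 1) x) (decide (z / 50 = 0)) = false := by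
  unfold look s
  by_cases h : d ≤ z % 50
  · have h1 : (z - d) % 50 = z % 50 - d := by omega
    have h2 : (z - d) / 50 = z / 50 := by omega
    have h3 : d ≤ z := by omega
    simp [h, h1, h2, h3]
  · by_cases hk : z / 50 = 0
    · have h3 : ¬ d ≤ z := by omega
      simp [h, hk, h3]
    · have h1 : (z - d) % 50 = 50 + z % 50 - d := by omega
      have h2 : (z - d) / 50 = z / 50 - 1 := by omega
      have h3 : d ≤ z := by omega
      simp only [h, h1, h2, h3, hk, if_false, decide_false, forall_true_left]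
      simp

lemma E_succ (k x : ℕ) : E (k + 1) (x + 1) = (E k (x + 1) == E k x) := by
  unfold E
  rw [Nat.choose_succ_succ']
  rcases Nat.mod_two_eq_zero_or_one (k.choose x) with h1 | h1 <;>
    rcases Nat.mod_two_eq_zero_or_one (k.choose (x + 1)) with h2 | h2 <;>
    simp [Nat.add_mod, h1, h2]

lemma s_rec (x z : ℕ) : s x z = true ↔
    (∀ d ∈ L0, d ≤ z → s x (z - d) = false) ∧
      (∀ d ∈ L1, 1 ≤ x → d ≤ z → s (x - 1) (z - d) = false) := by
  have h := fin_check (z % 50) (Nat.mod_lt _ (by norm_num)) (E (z / 50) (x + 1)) (E (z / 50) x)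
    (E (z / 50) (x - 1)) (E (z / 50 - 1) (x + 1)) (E (z / 50 - 1) x) (E (z / 50 - 1) (x - 1))
    (decide (z / 50 = 0)) (decide (x = 0))
    (by intro h; simp only [decide_eq_true_eq] at h; subst h; simp [E])
    (by intro h; simp only [decide_eq_true_eq] at h; rw [h]; simp [E])
    (by
      intro h; simp only [decide_eq_false_iff_not] at h
      obtain ⟨k, hk⟩ := Nat.exists_eq_succ_of_ne_zero h
      rw [hk]; simp [E_succ])
  have b0 : ∀ d ∈ L0, d ≤ 50 := by decide
  have b1 : ∀ d ∈ L1, d ≤ 50 := by decide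
  have e : s x z = cell (z % 50) (E (z / 50) (x + 1)) (E (z / 50) x) := rfl
  rw [e, h, Bool.and_eq_true, Bool.or_eq_true, List.all_eq_true, List.all_eq_true]
  apply and_congr
  · refine forall₂_congr fun d hd => ?_
    rw [look_spec x z d (b0 d hd)]; simp
  · by_cases hx : x = 0
    · simp [hx]
    · have hx1 : x - 1 + 1 = x := by omega
      have hx2 : 1 ≤ x := by omega
      simp only [hx, decide_false, Bool.false_eq_true, false_or, hx2, forall_true_left]
      refine forall₂_congr fun d hd => ?_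
      rw [look_spec (x - 1) z d (b1 d hd), hx1]; simp

def D : Finset (Fin 2 → ℤ) :=
  (L0.map fun d : ℕ => ![0, (d : ℤ)]).toFinset ∪ (L1.map fun d : ℕ => ![1, (d : ℤ)]).toFinset

lemma mem_D (a : Fin 2 → ℤ) : a ∈ D ↔
    (∃ d ∈ L0, a 0 = 0 ∧ a 1 = d) ∨ (∃ d ∈ L1, a 0 = 1 ∧ a 1 = d) := by
  unfold D
  simp only [Finset.mem_union, List.mem_toFinset, List.mem_map]
  apply or_congr <;> refine exists_congr fun d => and_congr_right fun _ => ?_
  all_goals
    constructor
    · rintro rfl; simp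
    · rintro ⟨h0, h1⟩; ext i; fin_cases i <;> simp [h0, h1]

def P : Set (Fin 2 → ℕ) := {v | s (v 0) (v 1) = true}

lemma P_rec (x : Fin 2 → ℕ) : x ∈ P ↔
    ∀ y : Fin 2 → ℕ, (fun i => (x i : ℤ) - (y i : ℤ)) ∈ D → y ∉ P := by
  have : x ∈ P ↔ s (x 0) (x 1) = true := Iff.rfl
  rw [this, s_rec]
  constructor
  · rintro ⟨h0, h1⟩ y hy
    rw [mem_D] at hy
    show ¬ (s (y 0) (y 1) = true)
    rcases hy with ⟨d, hd, e0, e1⟩ | ⟨d, hd, e0, e1⟩
    · have := h0 d hd (by omega)
      have a0 : y 0 = x 0 := by omega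
      have a1 : y 1 = x 1 - d := by omega
      rw [a0, a1, this]; simp
    · have := h1 d hd (by omega) (by omega)
      have a0 : y 0 = x 0 - 1 := by omega
      have a1 : y 1 = x 1 - d := by omega
      rw [a0, a1, this]; simp
  · intro h
    constructor
    · intro d hd hz
      have := h ![x 0, x 1 - d] (by
        rw [mem_D]; left; refine ⟨d, hd, ?_, ?_⟩
        · simp
        · simp only [Matrix.cons_val_one, Matrix.cons_val_zero]; omega)
      simpa [P] using this
    · intro d hd hx hz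
      have := h ![x 0 - 1, x 1 - d] (by
        rw [mem_D]; right; refine ⟨d, hd, ?_, ?_⟩
        · simp only [Matrix.cons_val_zero]; omega
        · simp only [Matrix.cons_val_one, Matrix.cons_val_zero]; omega)
      simpa [P] using this

lemma lucas (n k : ℕ) : Nat.choose n k % 2 = (Nat.choose (n % 2) (k % 2) * Nat.choose (n / 2) (k / 2)) % 2 :=
  haveI : Fact (Nat.Prime 2) := ⟨Nat.prime_two⟩
  Choose.choose_modEq_choose_mod_mul_choose_div_nat (n := n) (k := k) (p := 2)

lemma ch_pow (n a b : ℕ) : Nat.choose (2 ^ n * a) (2 ^ n * b) % 2 = Nat.choose a b % 2 := by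
  induction n with
  | zero => simp
  | succ n ih =>
    rw [lucas]
    have e1 : 2 ^ (n + 1) * a % 2 = 0 := by rw [pow_succ', mul_assoc]; omega
    have e2 : 2 ^ (n + 1) * b % 2 = 0 := by rw [pow_succ', mul_assoc]; omega
    have e3 : 2 ^ (n + 1) * a / 2 = 2 ^ n * a := by rw [pow_succ', mul_assoc]; omega
    have e4 : 2 ^ (n + 1) * b / 2 = 2 ^ n * b := by rw [pow_succ', mul_assoc]; omega
    rw [e1, e2, e3, e4]; simpa using ih

lemma ch_three (M : ℕ) (h : M % 4 = 3) : Nat.choose (3 * M) M % 2 = 0 := by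
  rw [lucas, Nat.mul_mod, lucas (3 * M / 2)]
  have e1 : 3 * M / 2 % 2 = 0 := by omega
  have e2 : M / 2 % 2 = 1 := by omega
  rw [e1, e2]; simp

def v (n : ℕ) : Fin 2 → ℕ := ![2 ^ (n + 1) - 1, 50 * (3 * 2 ^ (n + 1)) + 32]

lemma v_mem (n : ℕ) : v n ∈ P := by
  show s (2 ^ (n + 1) - 1) (50 * (3 * 2 ^ (n + 1)) + 32) = true
  have hp : 0 < 2 ^ n := by positivity
  have e0 : 2 ^ (n + 1) = 2 * 2 ^ n := by ring
  have e1 : (50 * (3 * 2 ^ (n + 1)) + 32) % 50 = 32 := by omega
  have e2 : (50 * (3 * 2 ^ (n + 1)) + 32) / 50 = 3 * 2 ^ (n + 1) := by omega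
  have e3 : 2 ^ (n + 1) - 1 + 1 = 2 ^ (n + 1) := by omega
  have h1 : Nat.choose (3 * 2 ^ (n + 1)) (2 ^ (n + 1)) % 2 = 1 := by
    have := ch_pow (n + 1) 3 1
    rw [mul_one, mul_comm] at this
    rw [this]; decide
  have h2 : Nat.choose (3 * 2 ^ (n + 1)) (2 ^ (n + 1) - 1) % 2 = 0 := by
    rw [lucas]
    have a1 : 3 * 2 ^ (n + 1) % 2 = 0 := by omega
    have a2 : (2 ^ (n + 1) - 1) % 2 = 1 := by omega
    rw [a1, a2]; simp
  unfold s
  rw [e1, e2, e3]
  simp [cell, E, h1, h2]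

lemma pump_not_mem (n n' : ℕ) (h : n < n') (w : Fin 2 → ℕ) (hw : w + v n = v n' + v n') :
    w ∉ P := by
  obtain ⟨d, rfl⟩ := Nat.exists_eq_add_of_lt h
  have h0 := congrFun hw 0
  have h1 := congrFun hw 1
  simp only [v, Pi.add_apply, Matrix.cons_val_zero, Matrix.cons_val_one] at h0 h1
  have hp : 0 < 2 ^ (n + 1) := by positivity
  have hq : 0 < 2 ^ d := by positivity
  obtain ⟨M, hM⟩ : ∃ M, M + 1 = 4 * 2 ^ d := ⟨4 * 2 ^ d - 1, by omega⟩
  have e0 : 2 * 2 ^ (n + d + 1 + 1) = 2 ^ (n + 1) * M + 2 ^ (n + 1) := by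
    have : 2 ^ (n + 1) * M + 2 ^ (n + 1) = 2 ^ (n + 1) * (M + 1) := by ring
    rw [this, hM]; ring
  have hr : 0 < 2 ^ (n + d + 1 + 1) := by positivity
  have a0 : w 0 + 1 = 2 ^ (n + 1) * M := by omega
  have a1 : w 1 = 50 * (3 * (2 ^ (n + 1) * M)) + 32 := by omega
  show ¬ (s (w 0) (w 1) = true)
  have e1 : w 1 % 50 = 32 := by omega
  have e2 : w 1 / 50 = 2 ^ (n + 1) * (3 * M) := by
    have : 2 ^ (n + 1) * (3 * M) = 3 * (2 ^ (n + 1) * M) := by ring
    omega
  have h2 : Nat.choose (2 ^ (n + 1) * (3 * M)) (2 ^ (n + 1) * M) % 2 = 0 := by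
    rw [ch_pow]; exact ch_three M (by omega)
  unfold s
  rw [e1, e2, a0]
  simp [cell, E, h2]

theorem result :
    ¬ (∀ (d : ℕ) (D : Finset (Fin d → ℤ)),
      (∀ a ∈ D, 0 < ∑ i, a i) →
      (∀ a ∈ D, ∀ i, 0 ≤ a i) →
      ∀ P : Set (Fin d → ℕ),
        (∀ x : Fin d → ℕ, x ∈ P ↔
          ∀ y : Fin d → ℕ, (fun i => (x i : ℤ) - (y i : ℤ)) ∈ D → y ∉ P) →
        ∃ (k : ℕ) (b : Fin k → Fin d → ℕ) (m : Fin k → ℕ)
          (p : ∀ i : Fin k, Fin (m i) → Fin d → ℕ),
          P = {x | ∃ i : Fin k, ∃ c : Fin (m i) → ℕ, x = b i + ∑ j, c j • p i j}) := by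
  intro h
  have b0 : ∀ d ∈ L0, 0 < d := by decide
  obtain ⟨k, b, m, p, hP⟩ := h 2 D
    (by
      intro a ha
      rw [mem_D] at ha
      rw [Fin.sum_univ_two]
      rcases ha with ⟨d, hd, e0, e1⟩ | ⟨d, hd, e0, e1⟩
      · have := b0 d hd; omega
      · omega)
    (by
      intro a ha i
      rw [mem_D] at ha
      rcases ha with ⟨d, hd, e0, e1⟩ | ⟨d, hd, e0, e1⟩ <;> fin_cases i <;> simp [e0, e1])
    P P_rec
  have hv : ∀ n, ∃ i : Fin k, ∃ c : Fin (m i) → ℕ, v n = b i + ∑ j, c j • p i j := by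
    intro n
    have := v_mem n
    rw [hP] at this
    exact this
  choose f hf using hv
  obtain ⟨i, hi⟩ := Finite.exists_infinite_fiber f
  have hinf : (f ⁻¹' {i}).Infinite := Set.infinite_coe_iff.mp hi
  have hc : ∀ n, ∃ c : Fin (m i) → ℕ, v (Nat.nth (· ∈ f ⁻¹' {i}) n) = b i + ∑ j, c j • p i j := by
    intro n
    have h1 : f (Nat.nth (· ∈ f ⁻¹' {i}) n) = i := Nat.nth_mem_of_infinite hinf n
    have := hf (Nat.nth (· ∈ f ⁻¹' {i}) n)
    rw [h1] at this
    exact this
  choose c hc using hc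
  obtain ⟨n, n', hlt, hle⟩ := (wellQuasiOrdered_le (α := Fin (m i) → ℕ)) c
  have hlt' : Nat.nth (· ∈ f ⁻¹' {i}) n < Nat.nth (· ∈ f ⁻¹' {i}) n' :=
    Nat.nth_strictMono hinf hlt
  apply pump_not_mem _ _ hlt' (b i + ∑ j, (c n' j + (c n' j - c n j)) • p i j)
  · rw [hc n, hc n']
    have : ∑ j, (c n' j + (c n' j - c n j)) • p i j + ∑ j, c n j • p i j =
        ∑ j, c n' j • p i j + ∑ j, c n' j • p i j := by
      rw [← Finset.sum_add_distrib, ← Finset.sum_add_distrib]
      refine Finset.sum_congr rfl fun j _ => ?_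
      rw [← add_smul, ← add_smul]
      congr 1
      have : c n j ≤ c n' j := hle j
      omega
    calc _ = b i + b i + (∑ j, (c n' j + (c n' j - c n j)) • p i j + ∑ j, c n j • p i j) := by abel
      _ = _ := by rw [this]; abel
  · rw [hP]
    exact ⟨i, _, rfl⟩

end Pool.Agent.S08224
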