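import Pool.Statements.S08258

set_option autoImplicit false
open Pool Pool.MP_3d7919_co

namespace Pool.Agent.S08258

def px : Fin 7 → ℤ := ![1, 6, 0, 2, 2, 4, 3]
def py : Fin 7 → ℤ := ![0, 6, 6, 2, 3, 5, 5]

noncomputable def pt (i : Fin 7) : EuclideanSpace ℝ (Fin 2) := !₂[(px i : ℝ), (py i : ℝ)]

lemma det_of_collinear (a b c : EuclideanSpace ℝ (Fin 2))
    (h : Collinear ℝ ({a, b, c} : Set (EuclideanSpace ℝ (Fin 2)))) :
    (b 0 - a 0) * (c 1 - a 1) - (b 1 - a 1) * (c 0 - a 0) = 0 := by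
  obtain ⟨v, hv⟩ := (collinear_iff_of_mem (p₀ := a) (by simp)).1 h
  obtain ⟨r, hr⟩ := hv b (by simp)
  obtain ⟨t, ht⟩ := hv c (by simp)
  rw [hr, ht]
  simp
  ring

lemma tri (S : Set (EuclideanSpace ℝ (Fin 2))) (hS : Convex ℝ S) (a b c d : Fin 7) (u v w : ℝ)
    (hu : 0 ≤ u) (hv : 0 ≤ v) (hw : 0 ≤ w) (h1 : u + v + w = 1)
    (hx : (px d : ℝ) = u * px a + v * px b + w * px c)
    (hy : (py d : ℝ) = u * py a + v * py b + w * py c)
    (ha : pt a ∈ S) (hb : pt b ∈ S) (hc : pt c ∈ S) : pt d ∈ S := by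
  have h := hS.sum_mem (t := (Finset.univ : Finset (Fin 3))) (w := ![u, v, w])
    (z := ![pt a, pt b, pt c])
    (by intro i _; fin_cases i <;> simpa)
    (by simpa [Fin.sum_univ_three] using h1)
    (by intro i _; fin_cases i <;> simpa)
  have e : pt d = ∑ i : Fin 3, (![u, v, w] i) • (![pt a, pt b, pt c] i) := by
    ext j
    fin_cases j
    · simp [Fin.sum_univ_three, pt, hx]
    · simp [Fin.sum_univ_three, pt, hy]
  rw [e]; exact h

set_option synthInstance.maxSize 2000 in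
set_option synthInstance.maxHeartbeats 2000000 in
/-- The negation of the preceding statement: For every n ≥ 5 and n distinct plane points with no three collinear, labelled 1..n, some subset cut out by a convex set has label sum exactly 2n. -/
theorem result :
    ¬ (∀ n : ℕ, 5 ≤ n →
      ∀ p : Fin n → EuclideanSpace ℝ (Fin 2),
        Function.Injective p →
        (∀ i j k : Fin n, i ≠ j → j ≠ k → i ≠ k →
          ¬ Collinear ℝ ({p i, p j, p k} : Set (EuclideanSpace ℝ (Fin 2)))) →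
        ∃ s : Finset (Fin n),
          (∃ S : Set (EuclideanSpace ℝ (Fin 2)), Convex ℝ S ∧ ∀ i : Fin n, p i ∈ S ↔ i ∈ s) ∧
          ∑ i ∈ s, (i.val + 1) = 2 * n) := by
  intro h
  have hdet : ∀ i j k : Fin 7, i ≠ j → j ≠ k → i ≠ k →
      (px j - px i) * (py k - py i) - (py j - py i) * (px k - px i) ≠ 0 := by decide +kernel
  have hinj : ∀ i j : Fin 7, px i = px j → py i = py j → i = j := by decide +kernel
  obtain ⟨s, ⟨S, hS, hs⟩, hsum⟩ := h 7 (by norm_num) pt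
    (by
      intro i j hij
      have h0 : pt i 0 = pt j 0 := by rw [hij]
      have h1 : pt i 1 = pt j 1 := by rw [hij]
      simp [pt] at h0 h1
      exact hinj i j h0 h1)
    (by
      intro i j k hij hjk hik hc
      have := det_of_collinear _ _ _ hc
      simp only [pt] at this
      simp at this
      apply hdet i j k hij hjk hik
      exact_mod_cast this)
  have f0 : (0 : Fin 7) ∈ s → (5 : Fin 7) ∈ s → (6 : Fin 7) ∈ s → (3 : Fin 7) ∈ s := by
    intro ha hb hc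
    exact (hs _).1 (tri S hS 0 5 6 3 (3/5) (1/5) (1/5) (by norm_num) (by norm_num) (by norm_num)
      (by norm_num) (by simp [px]; norm_num) (by simp [py]; norm_num) ((hs _).2 ha) ((hs _).2 hb) ((hs _).2 hc))
  have f1 : (1 : Fin 7) ∈ s → (4 : Fin 7) ∈ s → (6 : Fin 7) ∈ s → (5 : Fin 7) ∈ s := by
    intro ha hb hc
    exact (hs _).1 (tri S hS 1 4 6 5 (2/5) (1/5) (2/5) (by norm_num) (by norm_num) (by norm_num)
      (by norm_num) (by simp [px]; norm_num) (by simp [py]; norm_num) ((hs _).2 ha) ((hs _).2 hb) ((hs _).2 hc))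
  have f2 : (2 : Fin 7) ∈ s → (3 : Fin 7) ∈ s → (6 : Fin 7) ∈ s → (4 : Fin 7) ∈ s := by
    intro ha hb hc
    exact (hs _).1 (tri S hS 2 3 6 4 (1/10) (7/10) (1/5) (by norm_num) (by norm_num) (by norm_num)
      (by norm_num) (by simp [px]; norm_num) (by simp [py]; norm_num) ((hs _).2 ha) ((hs _).2 hb) ((hs _).2 hc))
  have f3 : (2 : Fin 7) ∈ s → (4 : Fin 7) ∈ s → (5 : Fin 7) ∈ s → (6 : Fin 7) ∈ s := by
    intro ha hb hc
    exact (hs _).1 (tri S hS 2 4 5 6 (1/5) (1/10) (7/10) (by norm_num) (by norm_num) (by norm_num)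
      (by norm_num) (by simp [px]; norm_num) (by simp [py]; norm_num) ((hs _).2 ha) ((hs _).2 hb) ((hs _).2 hc))
  have f4 : (0 : Fin 7) ∈ s → (1 : Fin 7) ∈ s → (6 : Fin 7) ∈ s → (5 : Fin 7) ∈ s := by
    intro ha hb hc
    exact (hs _).1 (tri S hS 0 1 6 5 (1/13) (5/13) (7/13) (by norm_num) (by norm_num) (by norm_num)
      (by norm_num) (by simp [px]; norm_num) (by simp [py]; norm_num) ((hs _).2 ha) ((hs _).2 hb) ((hs _).2 hc))
  have f5 : (0 : Fin 7) ∈ s → (1 : Fin 7) ∈ s → (4 : Fin 7) ∈ s → (3 : Fin 7) ∈ s := by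
    intro ha hb hc
    exact (hs _).1 (tri S hS 0 1 4 3 (4/9) (1/9) (4/9) (by norm_num) (by norm_num) (by norm_num)
      (by norm_num) (by simp [px]; norm_num) (by simp [py]; norm_num) ((hs _).2 ha) ((hs _).2 hb) ((hs _).2 hc))
  have f6 : (0 : Fin 7) ∈ s → (2 : Fin 7) ∈ s → (5 : Fin 7) ∈ s → (4 : Fin 7) ∈ s := by
    intro ha hb hc
    exact (hs _).1 (tri S hS 0 2 5 4 (10/23) (4/23) (9/23) (by norm_num) (by norm_num) (by norm_num)
      (by norm_num) (by simp [px]; norm_num) (by simp [py]; norm_num) ((hs _).2 ha) ((hs _).2 hb) ((hs _).2 hc))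
  have f7 : (1 : Fin 7) ∈ s → (2 : Fin 7) ∈ s → (3 : Fin 7) ∈ s → (5 : Fin 7) ∈ s := by
    intro ha hb hc
    exact (hs _).1 (tri S hS 1 2 3 5 (7/12) (1/6) (1/4) (by norm_num) (by norm_num) (by norm_num)
      (by norm_num) (by simp [px]; norm_num) (by simp [py]; norm_num) ((hs _).2 ha) ((hs _).2 hb) ((hs _).2 hc))
  have key : ∀ s : Finset (Fin 7), ((0 : Fin 7) ∈ s → (5 : Fin 7) ∈ s → (6 : Fin 7) ∈ s → (3 : Fin 7) ∈ s) → ((1 : Fin 7) ∈ s → (4 : Fin 7) ∈ s → (6 : Fin 7) ∈ s → (5 : Fin 7) ∈ s) → ((2 : Fin 7) ∈ s → (3 : Fin 7) ∈ s → (6 : Fin 7) ∈ s → (4 : Fin 7) ∈ s) → ((2 : Fin 7) ∈ s → (4 : Fin 7) ∈ s → (5 : Fin 7) ∈ s → (6 : Fin 7) ∈ s) → ((0 : Fin 7) ∈ s → (1 : Fin 7) ∈ s → (6 : Fin 7) ∈ s → (5 : Fin 7) ∈ s) → ((0 : Fin 7) ∈ s → (1 : Fin 7) ∈ s → (4 : Fin 7) ∈ s → (3 : Fin 7) ∈ s) → ((0 : Fin 7) ∈ s → (2 : Fin 7) ∈ s → (5 : Fin 7) ∈ s → (4 : Fin 7) ∈ s) → ((1 : Fin 7) ∈ s → (2 : Fin 7) ∈ s → (3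 : Fin 7) ∈ s → (5 : Fin 7) ∈ s) →
      ∑ i ∈ s, (i.val + 1) ≠ 2 * 7 := by decide +kernel
  exact key s f0 f1 f2 f3 f4 f5 f6 f7 hsum

end Pool.Agent.S08258
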