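import Pool.Statements.S08274
import Pool.Agent.H17.UM1

set_option autoImplicit false
open Matrix
open Pool Pool.MP_3e2ec7_co

namespace Pool.Agent.S08274

open Pool.Agent.H17.UM Finset Complex in
/-- The negation of the preceding statement: For every finite simple graph and real time τ, if all entries of exp(iτA) have equal absolute value, then every eigenvalue of exp(iτA) is a root of unity. -/
theorem result :
    ¬ (∀ (V : Type) [Fintype V] [DecidableEq V] (G : SimpleGraph V) [DecidableRel G.Adj] (τ : ℝ),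
      (∀ a b c d : V,
        ‖(NormedSpace.exp ((Complex.I * (τ : ℂ)) • G.adjMatrix ℂ)) a b‖ =
          ‖(NormedSpace.exp ((Complex.I * (τ : ℂ)) • G.adjMatrix ℂ)) c d‖) →
      ∀ μ : ℂ, (∃ v : V → ℂ, v ≠ 0 ∧
          (NormedSpace.exp ((Complex.I * (τ : ℂ)) • G.adjMatrix ℂ)) *ᵥ v = μ • v) →
        ∃ k : ℕ, 0 < k ∧ μ ^ k = 1) := by
  intro h
  let G : SimpleGraph W :=
    { Adj := fun a b => b - a ∈ C
      symm := ⟨fun a b e => by simpa using Cneg _ e⟩
      loopless := ⟨fun a e => C0 (by simpa using e)⟩ }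
  let P : Matrix W W ℂ := of fun a y => ψ (dot a y)
  let Q : Matrix W W ℂ := of fun y b => ψ (dot (-b) y) / 625
  have da : ∀ a b y : W, ψ (dot (a + b) y) = ψ (dot a y) * ψ (dot b y) := fun a b y => by
    rw [← AddChar.map_add_eq_mul]
    simp only [dot, Pi.add_apply, add_mul, sum_add_distrib]
  have PQ : P * Q = 1 := by
    ext a b
    simp only [P, Q, mul_apply, of_apply, ← mul_div_assoc, ← da, ← sum_div]
    have : ∀ c y : W, ψ (dot c y) = ∏ j, ψ (c j * y j) := fun c y => by
      simp only [dot, Fin.sum_univ_four, Fin.prod_univ_four, AddChar.map_add_eq_mul]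
    simp only [this]
    rw [← Fintype.piFinset_univ, ← prod_univ_sum (fun _ => univ) fun j z => ψ ((a + -b) j * z)]
    simp only [mul_comm ((a + -b) _), psi_sum, one_apply]
    split_ifs with e
    · simp [e]; norm_num
    · obtain ⟨j, hj⟩ := Function.ne_iff.1 e
      rw [prod_eq_zero (mem_univ j) (if_neg (by simpa [add_neg_eq_zero] using hj)), zero_div]
  have AP : G.adjMatrix ℂ * P = P * diagonal lam := by
    ext a y
    rw [mul_diagonal, mul_apply, ← Equiv.sum_comp (Equiv.addLeft a)]
    simp only [SimpleGraph.adjMatrix_apply, G, Equiv.coe_addLeft, add_sub_cancel_left, P, of_apply,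
      da, lam, mul_sum, ite_mul, one_mul, zero_mul, sum_ite_mem, univ_inter]
  have iP : P⁻¹ = Q := inv_eq_right_inv PQ
  have U : NormedSpace.exp ((I * ((-t0 : ℝ) : ℂ)) • G.adjMatrix ℂ) =
      P * diagonal (fun y => exp (-(I * t0 * lam y))) * Q := by
    have : (I * ((-t0 : ℝ) : ℂ)) • G.adjMatrix ℂ =
        P * diagonal (fun y => -(I * t0 * lam y)) * P⁻¹ := by
      rw [iP, ← mul_one (G.adjMatrix ℂ), ← PQ, ← mul_assoc, AP, ← smul_mul_assoc, ← mul_smul_comm,
        ← diagonal_smul]
      congr 3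
      ext y; simp
    rw [this, exp_conj _ _ (IsUnit.of_mul_eq_one _ PQ), exp_diagonal, iP]
    congr 3
    ext y; rw [Pi.coe_exp, Complex.exp_eq_exp_ℂ]
  have F : ∀ a b, ‖NormedSpace.exp ((I * ((-t0 : ℝ) : ℂ)) • G.adjMatrix ℂ) a b‖ = 25 / 625 := by
    intro a b
    rw [U, mul_apply, ← flat (a + -b)]
    simp only [mul_diagonal, P, Q, of_apply, ← mul_div_assoc, ← sum_div, norm_div, da]
    congr 2
    · exact sum_congr rfl fun y _ => by ring
    · simp
  obtain ⟨k, k0, hk⟩ := h W G (-t0) (fun a b c d => (F a b).trans (F c d).symm)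
    (exp (-(I * t0 * lam e3))) ⟨P *ᵥ Pi.single e3 1, fun e => by
      have := congrArg norm (congrFun e 0)
      simp only [P, mulVec_single_one, col_apply, of_apply, psi_norm] at this
      simp at this, by
      rw [U, mulVec_mulVec, mul_assoc, mul_eq_one_comm.1 PQ, mul_one, ← mulVec_mulVec,
        diagonal_mulVec_single, ← mulVec_smul, ← Pi.single_smul]
      simp⟩
  rw [← exp_nat_mul, exp_eq_one_iff] at hk
  obtain ⟨n, hn⟩ := hk
  refine irr (-25 * n / k) ?_
  have k1 : (k : ℂ) ≠ 0 := by exact_mod_cast k0.ne'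
  have p1 : (Real.pi : ℂ) * I ≠ 0 := mul_ne_zero (by exact_mod_cast Real.pi_ne_zero) I_ne_zero
  simp only [t0] at hn
  push_cast at hn ⊢
  rw [eq_div_iff k1]
  apply mul_left_cancel₀ p1
  linear_combination (-25 / 2) * hn

end Pool.Agent.S08274
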