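import Pool.Statements.S08294
import Pool.Agent.H12.ColPairs

set_option autoImplicit false
open Pool Pool.MP_3ee535_co

namespace Pool.Agent.S08294

/-- complement of a triangle-free graph with 10 edges on 10 vertices -/
def A₁ (s t : ℕ) : Bool := !(([(0, 9), (1, 4), (1, 7), (1, 8), (1, 9), (2, 5), (2, 6), (2, 7), (2, 8), (2, 9)] : List (ℕ × ℕ)).contains (s, t))

/-- complement of another triangle-free graph with 10 edges on 10 vertices -/
def A₂ (s t : ℕ) : Bool := !(([(0, 2), (0, 4), (1, 3), (1, 4), (1, 9), (2, 5), (2, 6), (2, 7), (2, 8), (2, 9)] : List (ℕ × ℕ)).contains (s, t))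

open Pool.Agent.H12.ColCount in
lemma pairs_eq : lsum (fun v => N (Av A₁ v) (10 + 1) (fun _ => 0) 0 0) 10
    = lsum (fun v => N (Av A₂ v) (10 + 1) (fun _ => 0) 0 0) 10 := by decide +kernel

open Pool.Agent.H12.ColCount in
lemma col_ne : ev (N A₁ 10 (fun _ => 0) 0 0) 7 ≠ ev (N A₂ 10 (fun _ => 0) 0 0) 7 := by
  decide +kernel

/-- The negation of the preceding statement: For finite graphs G1, G2: if for every k their k-colouring graphs have equally many edges (counted as ordered pairs of proper colourings differing at exactly one vertex), then for every k they have equally many proper k-colourings. -/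
theorem result :
    ¬ (∀ (n m : ℕ) (G₁ : SimpleGraph (Fin n)) (G₂ : SimpleGraph (Fin m)),
      (∀ k : ℕ,
        Nat.card {p : G₁.Coloring (Fin k) × G₁.Coloring (Fin k) //
            Nat.card {v : Fin n // p.1 v ≠ p.2 v} = 1} =
          Nat.card {p : G₂.Coloring (Fin k) × G₂.Coloring (Fin k) //
            Nat.card {v : Fin m // p.1 v ≠ p.2 v} = 1}) →
      ∀ k : ℕ, Nat.card (G₁.Coloring (Fin k)) = Nat.card (G₂.Coloring (Fin k))) := by
  intro h
  have := h 10 10 (Pool.Agent.H12.ColCount.Gr A₁ 10) (Pool.Agent.H12.ColCount.Gr A₂ 10) (by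
    intro k
    rw [Pool.Agent.H12.ColCount.card_pairs, Pool.Agent.H12.ColCount.card_pairs, pairs_eq]) 7
  rw [Pool.Agent.H12.ColCount.card_col, Pool.Agent.H12.ColCount.card_col] at this
  exact col_ne this

end Pool.Agent.S08294
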