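import Pool.Statements.S08318
-- import your own Pool.Agent.* helpers here

set_option autoImplicit false
open Pool Pool.MP_3fd808_co

namespace Pool.Agent.S08318

def A : Fin 6 → Fin 6 → Bool := ![![false, true, true, true, false, false], ![false, false, true, true, false, false], ![false, false, false, true, true, false], ![false, false, false, false, true, true], ![true, true, false, false, false, true], ![true, true, true, false, false, false]]

def C : Fin 6 → Fin 6 → Fin 4 := ![![0, 0, 1, 0, 0, 0], ![0, 0, 3, 1, 0, 0], ![0, 0, 0, 2, 3, 0], ![0, 0, 0, 0, 0, 2], ![1, 0, 0, 0, 0, 3], ![2, 1, 0, 0, 0, 0]]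

def R : Fin 6 → Fin 4 → Fin 6 → Bool :=
  ![![![false, true, false, true, true, false], ![false, false, true, false, false, false], ![false, false, false, false, false, false], ![false, false, false, false, false, false]],
    ![![false, false, false, false, false, false], ![false, false, false, true, false, false], ![false, false, false, false, false, false], ![false, false, true, false, true, true]],
    ![![false, false, false, false, false, false], ![false, false, false, false, false, false], ![true, false, false, true, false, true], ![false, false, false, false, true, true]],
    ![![false, true, false, false, true, false], ![false, false, false, false, false, false], ![true, false, false, false, false, true], ![false, false, false, false, false, false]],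
    ![![false, true, false, false, false, false], ![true, false, true, false, false, false], ![false, false, false, false, false, false], ![false, false, false, false, false, true]],
    ![![false, false, true, false, false, false], ![false, true, false, true, false, false], ![true, false, false, false, false, false], ![false, false, false, false, false, false]]]

theorem h3 : ∀ a b c : Fin 6, A a b = true → A b c = true → A c a = true →
    C a b = C b c ∨ C a b = C c a ∨ C b c = C c a := by decide +kernel

theorem h4 : ∀ a b c d : Fin 6, A a b = true → A b c = true → A c d = true → A d a = true →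
    C a b = C b c ∨ C a b = C c d ∨ C a b = C d a ∨ C b c = C c d ∨ C b c = C d a ∨
      C c d = C d a := by decide +kernel

theorem r1 : ∀ v w : Fin 6, A v w = true → R v (C v w) w = true := by decide +kernel

theorem r2 : ∀ v x y : Fin 6, A x y = true → R v (C x y) x = true → R v (C x y) y = true := by
  decide +kernel

theorem r3 : ∀ (v : Fin 6) (a : Fin 4), R v a (v + 5) = false := by decide +kernel

theorem reach (v w : Fin 6) (a : ℕ)
    (h : Relation.TransGen (fun x y : Fin 6 => A x y = true ∧ (C x y).val = a) v w) :
    ∃ b : Fin 4, b.val = a ∧ R v b w = true := by
  induction h with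
  | single h => exact ⟨_, h.2, r1 _ _ h.1⟩
  | tail _ h ih =>
    obtain ⟨b, hb, hr⟩ := ih
    have : b = C _ _ := Fin.ext (hb.trans h.2.symm)
    subst this
    exact ⟨_, hb, r2 _ _ _ h.1 hr⟩

/-- The negation of the preceding statement: Every nonempty finite tournament with arcs coloured by naturals has a directed cycle whose arcs all have distinct colours, or a vertex from which every other vertex is reachable by a one-colour directed path. -/
theorem result :
    ¬ (∀ (V : Type) [Fintype V] [Nonempty V] (adj : V → V → Prop) (c : V → V → ℕ),
      (∀ x y : V, adj x y → ¬ adj y x) →
      (∀ x y : V, x ≠ y → adj x y ∨ adj y x) →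
      (∃ (k : ℕ) (f : ℕ → V), 3 ≤ k ∧
          (∀ i j : ℕ, i < k → j < k → f i = f j → i = j) ∧
          (∀ i : ℕ, i < k → adj (f i) (f ((i + 1) % k))) ∧
          (∀ i j : ℕ, i < k → j < k →
            c (f i) (f ((i + 1) % k)) = c (f j) (f ((j + 1) % k)) → i = j)) ∨
      (∃ v : V, ∀ w : V, w ≠ v →
          ∃ a : ℕ, Relation.TransGen (fun x y : V => adj x y ∧ c x y = a) v w)) := by
  intro H
  rcases H (Fin 6) (fun x y => A x y = true) (fun x y => (C x y).val) (by decide +kernel)
    (by decide +kernel) with ⟨k, f, hk, -, ha, hc⟩ | ⟨v, hv⟩
  · have hne : ∀ i j, i < k → j < k → i ≠ j →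
        C (f i) (f ((i + 1) % k)) ≠ C (f j) (f ((j + 1) % k)) :=
      fun i j hi hj hij e => hij (hc i j hi hj (congrArg Fin.val e))
    by_cases e3 : k = 3
    · subst e3
      rcases h3 _ _ _ (ha 0 (by omega)) (ha 1 (by omega)) (ha 2 (by omega)) with h | h | h
      · exact hne 0 1 (by omega) (by omega) (by omega) h
      · exact hne 0 2 (by omega) (by omega) (by omega) h
      · exact hne 1 2 (by omega) (by omega) (by omega) h
    by_cases e4 : k = 4
    · subst e4
      rcases h4 _ _ _ _ (ha 0 (by omega)) (ha 1 (by omega)) (ha 2 (by omega)) (ha 3 (by omega))
        with h | h | h | h | h | h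
      · exact hne 0 1 (by omega) (by omega) (by omega) h
      · exact hne 0 2 (by omega) (by omega) (by omega) h
      · exact hne 0 3 (by omega) (by omega) (by omega) h
      · exact hne 1 2 (by omega) (by omega) (by omega) h
      · exact hne 1 3 (by omega) (by omega) (by omega) h
      · exact hne 2 3 (by omega) (by omega) (by omega) h
    have hinj : Function.Injective
        (fun i : Fin 5 => C (f i.val) (f ((i.val + 1) % k))) := by
      intro i j e
      by_contra hij
      exact hne i j (by omega) (by omega) (fun h => hij (Fin.ext h)) e
    have := Fintype.card_le_of_injective _ hinj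
    simp at this
  · obtain ⟨a, h⟩ := hv (v + 5) (by clear hv; revert v; decide)
    obtain ⟨b, -, hb⟩ := reach _ _ _ h
    rw [r3] at hb
    exact absurd hb (by simp)

end Pool.Agent.S08318
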