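import Pool.Statements.S08353
-- import your own Pool.Agent.* helpers here

set_option autoImplicit false
open Pool Pool.MP_4150d6_co

namespace Pool.Agent.S08353

def P2 : List ℕ := (List.range 16).flatMap fun i => (List.range (i+1)).map fun j => 2^i+2^j

def no3 (g : ℕ) : Bool :=
  (List.range 16).all fun i => (List.range 16).all fun j => (List.range 16).all fun k =>
    2^i+2^j+2^k != g

def clr (g : ℕ) : ℕ := g &&& (g - 1)

def ok (g : ℕ) : Bool := g == 0 || (clr (clr (clr g)) != 0 || no3 g)

theorem clr3 : ∀ i < 16, ∀ j < 16, ∀ k < 16, clr (clr (clr (2^i+2^j+2^k))) = 0 := by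
  decide +kernel

def loopM (p s : ℕ) : ℕ → Bool
  | 0 => true
  | m+1 => (Nat.blt 0 ((65535 * 2^m - p) % s) || ok ((65535 * 2^m - p) / s)) && loopM p s m

theorem loopM_spec (p s : ℕ) : ∀ k, loopM p s k = true → ∀ m < k,
    (Nat.blt 0 ((65535 * 2^m - p) % s) || ok ((65535 * 2^m - p) / s)) = true := by
  intro k
  induction k with
  | zero => intro _ m hm; omega
  | succ k ih =>
    intro h m hm
    rw [loopM, Bool.and_eq_true] at h
    rcases Nat.lt_succ_iff_lt_or_eq.1 hm with h1 | h1
    · exact ih h.2 m h1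
    · subst h1; exact h.1

def chkOn (l : List ℕ) : Bool :=
  l.all fun a => P2.all fun b => loopM (a*b) (a+b) 16

theorem c1 : chkOn (P2.take 34) = true := by decide +kernel
theorem c2 : chkOn ((P2.drop 34).take 34) = true := by decide +kernel
theorem c3 : chkOn (((P2.drop 34).drop 34).take 34) = true := by decide +kernel
theorem c4 : chkOn (((P2.drop 34).drop 34).drop 34) = true := by decide +kernel

theorem chk_true : chkOn P2 = true := by
  have h1 := c1
  have h2 := c2
  have h3 := c3
  have h4 := c4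
  unfold chkOn at *
  rw [← List.take_append_drop 34 P2] 
  rw [← List.take_append_drop 34 (P2.drop 34), ← List.take_append_drop 34 ((P2.drop 34).drop 34)]
  simp only [List.take_append_drop]
  rw [List.all_eq_true] at *
  intro a ha
  rw [← List.take_append_drop 34 P2, ← List.take_append_drop 34 (P2.drop 34),
    ← List.take_append_drop 34 ((P2.drop 34).drop 34)] at ha
  simp only [List.mem_append] at ha
  rcases ha with ha | ha | ha | ha
  exacts [h1 a ha, h2 a ha, h3 a ha, h4 a ha]

theorem mem_P2 (i j : ℕ) (hi : i < 16) (hj : j < 16) : 2^i+2^j ∈ P2 := by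
  unfold P2
  simp only [List.mem_flatMap, List.mem_range, List.mem_map]
  rcases le_total i j with h | h
  · exact ⟨j, hj, i, by omega, by ring⟩
  · exact ⟨i, hi, j, by omega, rfl⟩

theorem key (a1 a2 b1 b2 c1 c2 c3 m : ℕ) (h1 : a1 < 16) (h2 : a2 < 16) (h3 : b1 < 16)
    (h4 : b2 < 16) (h5 : c1 < 16) (h6 : c2 < 16) (h7 : c3 < 16) (hm : m < 16)
    (h : (2^a1+2^a2)*(2^b1+2^b2) + ((2^a1+2^a2)+(2^b1+2^b2))*(2^c1+2^c2+2^c3) = 65535 * 2^m) :
    False := by
  have H := chk_true
  unfold chkOn at H
  simp only [List.all_eq_true] at H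
  have H2 := loopM_spec _ _ _ (H _ (mem_P2 a1 a2 h1 h2) _ (mem_P2 b1 b2 h3 h4)) m hm
  have hpos : 0 < (2^a1+2^a2)+(2^b1+2^b2) := by positivity
  rw [← h, Nat.add_sub_cancel_left, Nat.mul_mod_right, Nat.mul_div_cancel_left _ hpos] at H2
  have h00 : Nat.blt 0 0 = false := rfl
  rw [h00, Bool.false_or] at H2
  have hne : 2^c1+2^c2+2^c3 ≠ 0 := by positivity
  simp only [ok, clr3 c1 h5 c2 h6 c3 h7, bne_self_eq_false, Bool.false_or, Bool.or_eq_true,
    beq_iff_eq, hne, false_or] at H2
  unfold no3 at H2
  simp only [List.all_eq_true, List.mem_range] at H2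
  have := H2 c1 h5 c2 h6 c3 h7
  simp at this

def part : Fin 7 → ℕ := ![0, 0, 1, 1, 2, 2, 2]

def G : SimpleGraph (Fin 7) where
  Adj a b := part a ≠ part b
  symm := ⟨fun _ _ h => h.symm⟩
  loopless := ⟨fun _ h => h rfl⟩

instance : DecidableRel G.Adj := fun a b => inferInstanceAs (Decidable (part a ≠ part b))

def edges : List (Fin 7 × Fin 7) :=
  [(0,2),(0,3),(1,2),(1,3),(0,4),(0,5),(0,6),(1,4),(1,5),(1,6),(2,4),(2,5),(2,6),(3,4),(3,5),(3,6)]

theorem notTree : ¬ G.IsTree := by
  intro h
  have := h.card_edgeFinset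
  revert this
  decide

/-- Some finite simple graph with q ≥ 1 edges is harmonious (vertex labels in Z_q, injective except one repeat allowed for trees, distinct edge sums mod q) but has no sequential labeling (injective labels in 0..q−1, or 0..q for trees, with edge sums exactly q consecutive integers). -/
theorem result :
    ∃ (n : ℕ) (G : SimpleGraph (Fin n)) (q : ℕ),
      Nat.card G.edgeSet = q ∧ 1 ≤ q ∧
      (∃ f : Fin n → ZMod q,
        (Function.Injective f ∨ (G.IsTree ∧ Function.Surjective f)) ∧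
        ∀ a b c d : Fin n, G.Adj a b → G.Adj c d →
          f a + f b = f c + f d → s(a, b) = s(c, d)) ∧
      ¬ (∃ (f : Fin n → ℕ) (m : ℕ),
          Function.Injective f ∧
          ((∀ v, f v < q) ∨ (G.IsTree ∧ ∀ v, f v ≤ q)) ∧
          (∀ a b : Fin n, G.Adj a b → m ≤ f a + f b ∧ f a + f b < m + q) ∧
          ∀ a b c d : Fin n, G.Adj a b → G.Adj c d →
            f a + f b = f c + f d → s(a, b) = s(c, d)) := by
  refine ⟨7, G, 16, ?_, by norm_num, ⟨![0, 9, 1, 2, 3, 7, 13], Or.inl (by decide), by decide⟩, ?_⟩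
  · rw [Nat.card_eq_fintype_card, ← SimpleGraph.edgeFinset_card]
    decide
  · rintro ⟨f, m, -, hlt, hr, hd⟩
    have hlt : ∀ v, f v < 16 := by
      rcases hlt with h | h
      · exact h
      · exact absurd h.1 notTree
    have hadj : ∀ e ∈ edges, G.Adj e.1 e.2 := by decide
    have hnd : (edges.map fun e => f e.1 + f e.2).Nodup := by
      refine List.Nodup.map_on ?_ (by decide)
      intro x hx y hy hxy
      have h1 := hd _ _ _ _ (hadj x hx) (hadj y hy) hxy
      have h2 : ∀ x ∈ edges, ∀ y ∈ edges, s(x.1, x.2) = s(y.1, y.2) → x = y := by decide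
      exact h2 x hx y hy h1
    have hsub : (edges.map fun e => f e.1 + f e.2) ⊆ List.range' m 16 := by
      intro s hs
      obtain ⟨e, he, rfl⟩ := List.mem_map.1 hs
      have := hr _ _ (hadj e he)
      rw [List.mem_range'_1]
      omega
    have hperm : (edges.map fun e => f e.1 + f e.2).Perm (List.range' m 16) :=
      (List.subperm_of_subset hnd hsub).perm_of_length_le (by simp [edges])
    have hsum := (hperm.map (fun s => 2 ^ s)).sum_eq
    have hm : m < 16 := by
      have h0 : m + 15 ∈ edges.map fun e => f e.1 + f e.2 := by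
        rw [hperm.mem_iff, List.mem_range'_1]
        omega
      obtain ⟨e, -, he⟩ := List.mem_map.1 h0
      have h2 := hlt e.1
      have h3 := hlt e.2
      omega
    refine key (f 0) (f 1) (f 2) (f 3) (f 4) (f 5) (f 6) m (hlt _) (hlt _) (hlt _) (hlt _)
      (hlt _) (hlt _) (hlt _) hm ?_
    simp only [edges, List.map_cons, List.map_nil, List.sum_cons, List.sum_nil, List.range',
      pow_add] at hsum
    linarith

end Pool.Agent.S08353
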