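import Pool.Statements.S08412
import Pool.Agent.H9.Cake

set_option autoImplicit false
open MeasureTheory
open Pool Pool.MP_436c60_co

namespace Pool.Agent.S08412

/-- The negation of the preceding statement: For m,n,k ≥ 2 and any n finite measures with densities on a cake of m separated islands, there is an allocation giving each agent at most k intervals, each within one island, worth at least that agent's k-interval maximin share. -/
theorem result :
    ¬ (∀ m n k : ℕ, 2 ≤ m → 2 ≤ n → 2 ≤ k →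
    ∀ μ : Fin n → Measure ℝ, (∀ i, IsFiniteMeasure (μ i)) → (∀ i, μ i ≪ volume) →
    ∃ a b : Fin n → Fin k → ℝ,
      (∀ i l, ∃ j : ℕ, j < m ∧
        Set.Ioo (a i l) (b i l) ⊆ Set.Icc (2 * (j : ℝ)) (2 * (j : ℝ) + 1)) ∧
      (∀ i i', i ≠ i' →
        Disjoint (⋃ l, Set.Ioo (a i l) (b i l)) (⋃ l, Set.Ioo (a i' l) (b i' l))) ∧
      ∀ i, ∀ c d : Fin n → Fin k → ℝ,
        (∀ p l, ∃ j : ℕ, j < m ∧
          Set.Ioo (c p l) (d p l) ⊆ Set.Icc (2 * (j : ℝ)) (2 * (j : ℝ) + 1)) →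
        (∀ p p', p ≠ p' →
          Disjoint (⋃ l, Set.Ioo (c p l) (d p l)) (⋃ l, Set.Ioo (c p' l) (d p' l))) →
        ∃ p, μ i (⋃ l, Set.Ioo (c p l) (d p l)) ≤ μ i (⋃ l, Set.Ioo (a i l) (b i l))) := by
  intro h
  obtain ⟨a, b, h1, h2, h3⟩ := h 12 3 4 (by norm_num) (by norm_num) (by norm_num)
    Pool.Agent.H9.Cake.mu Pool.Agent.H9.Cake.mu_fin Pool.Agent.H9.Cake.mu_ac
  exact Pool.Agent.H9.Cake.main a b h1 h2 h3

end Pool.Agent.S08412
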