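import Pool.Statements.S08443
import Pool.Agent.H4.RM2

set_option autoImplicit false
open Pool Pool.MP_44d0b1_co

namespace Pool.Agent.S08443

/-- For all n and k ≥ 2, let A be the Boolean functions in n variables of degree at most k and B the functions at maximal Hamming distance from A. Then the functions at maximal distance from B are exactly A. -/
theorem result :
    ∀ n k : ℕ, 2 ≤ k →
      ∀ A : Set ((Fin n → ZMod 2) → ZMod 2),
        (∀ f, f ∈ A ↔ ∃ a : Finset (Fin n) → ZMod 2, ∀ x : Fin n → ZMod 2,
            f x = ∑ S ∈ (Finset.univ : Finset (Finset (Fin n))).filter (fun S => S.card ≤ k),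
              a S * ∏ i ∈ S, x i) →
        ∀ B : Set ((Fin n → ZMod 2) → ZMod 2),
          (∀ y, y ∈ B ↔ ∀ z : (Fin n → ZMod 2) → ZMod 2,
              sInf ((fun f => hammingDist z f) '' A) ≤ sInf ((fun f => hammingDist y f) '' A)) →
          ∀ z : (Fin n → ZMod 2) → ZMod 2,
            (∀ w : (Fin n → ZMod 2) → ZMod 2,
                sInf ((fun g => hammingDist w g) '' B) ≤ sInf ((fun g => hammingDist z g) '' B))
              ↔ z ∈ A := by
  intro n k _ A hA B hB z
  have hAR : A = (Pool.Agent.H4.RM.R n (k + 1) : Set (Pool.Agent.H4.RM.F n)) := by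
    ext f
    rw [hA, SetLike.mem_coe, Pool.Agent.H4.RM.mem_R_iff]
    simp only [Nat.lt_succ_iff]
    refine exists_congr (fun a => ?_)
    rw [funext_iff]
    refine forall_congr' (fun x => ?_)
    simp only [Finset.sum_apply, Pi.smul_apply, smul_eq_mul, Pool.Agent.H4.RM.mono]
  subst hAR
  refine Pool.Agent.H4.RM.regular (k + 1) B (fun y => ?_) z
  rw [hB]
  constructor
  · intro h
    apply le_antisymm (Pool.Agent.H4.RM.dd_le_rho _)
    obtain ⟨f, hf⟩ := Pool.Agent.H4.RM.rho_ex n (k + 1)
    rw [← hf]
    exact h f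
  · intro h w
    have h1 := Pool.Agent.H4.RM.dd_le_rho (j := k + 1) w
    rw [← h] at h1
    exact h1

end Pool.Agent.S08443
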