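import Pool.Statements.S08639
import Pool.Agent.H4.SumDiff

set_option autoImplicit false
open Pool Pool.MP_4cf4e3_co

namespace Pool.Agent.S08639

/-- For every colouring of the natural numbers with finitely many colours, there is a strictly increasing sequence a and one colour such that for all n<m, both a_n+a_m and a_m−a_n have that colour. -/
theorem result :
    ∀ (k : ℕ) (c : ℕ → Fin k), ∃ a : ℕ → ℕ, StrictMono a ∧
      ∃ i : Fin k, ∀ n m : ℕ, n < m → c (a n + a m) = i ∧ c (a m - a n) = i := by
  intro k c
  obtain ⟨a, ha, i, h⟩ := Pool.Agent.H4.SumDiff.main k (fun y => c y.toNat)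
  refine ⟨fun n => (a n).toNat, ?_, i, ?_⟩
  · intro n m hnm
    have h1 := (h n m hnm).1
    have h2 := ha n
    show (a n).toNat < (a m).toNat
    omega
  · intro n m hnm
    obtain ⟨h1, h2, h3⟩ := h n m hnm
    have h4 := ha n
    have e1 : (a n).toNat + (a m).toNat = (a m + a n).toNat := by omega
    have e2 : (a m).toNat - (a n).toNat = (a m - a n).toNat := by omega
    exact ⟨by rw [e1]; exact h3, by rw [e2]; exact h2⟩

end Pool.Agent.S08639
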