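import Pool.Statements.S08682

set_option autoImplicit false
open Pool Pool.MP_4e5a55_co

namespace Pool.Agent.S08682

def nb (v : ℕ) : List ℕ := [v, v ^^^ 1, v ^^^ 2, v ^^^ 4, v ^^^ 8, v ^^^ 16]

def mask (c : ℕ) : ℕ :=
  4294967295 ^^^ (2 ^ c ||| 2 ^ (c ^^^ 1) ||| 2 ^ (c ^^^ 2) ||| 2 ^ (c ^^^ 4) ||| 2 ^ (c ^^^ 8)
    ||| 2 ^ (c ^^^ 16))

def srch : ℕ → ℕ → Bool
  | 0, u => u.testBit u.log2 && decide (u.log2 < 32)
  | n + 1, u => u.testBit u.log2 && decide (u.log2 < 32) &&
      (nb u.log2).all (fun c => srch n (u &&& mask c))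

lemma srch_run : srch 6 4294967295 = true := by decide +kernel

lemma nb_lt : ∀ v < 32, ∀ c ∈ nb v, c < 32 := by decide

lemma mask_spec : ∀ c < 32, ∀ v < 32, (mask c).testBit v = true → c ∉ nb v := by decide +kernel

lemma srch_sound : ∀ (n u : ℕ) (C : Finset ℕ), C.card ≤ n →
    (∀ v < 32, u.testBit v = true → ∃ c ∈ C, c ∈ nb v) → srch n u = true → False := by
  intro n
  induction n with
  | zero =>
    intro u C hC hcov h
    simp only [srch, Bool.and_eq_true, decide_eq_true_eq] at h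
    obtain ⟨c, hc, -⟩ := hcov _ h.2 h.1
    have : C = ∅ := Finset.card_eq_zero.1 (Nat.le_zero.1 hC)
    simp [this] at hc
  | succ n ih =>
    intro u C hC hcov h
    simp only [srch, Bool.and_eq_true, decide_eq_true_eq, List.all_eq_true] at h
    obtain ⟨⟨h1, h2⟩, h3⟩ := h
    obtain ⟨c, hc, hcn⟩ := hcov _ h2 h1
    refine ih (u &&& mask c) (C.erase c) ?_ ?_ (h3 c hcn)
    · rw [Finset.card_erase_of_mem hc]; omega
    · intro v hv hb
      rw [Nat.testBit_and, Bool.and_eq_true] at hb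
      obtain ⟨c', hc', hn'⟩ := hcov v hv hb.1
      refine ⟨c', Finset.mem_erase.2 ⟨?_, hc'⟩, hn'⟩
      rintro rfl
      exact mask_spec _ (nb_lt _ h2 _ hcn) v hv hb.2 hn'

def enc (w : Fin 5 → Bool) : ℕ :=
  (w 0).toNat + 2 * (w 1).toNat + 4 * (w 2).toNat + 8 * (w 3).toNat + 16 * (w 4).toNat

def dec (v : ℕ) : Fin 5 → Bool := fun j => v.testBit j

lemma enc_spec : ∀ v < 32, ∀ c : Fin 5 → Bool, hammingDist (dec v) c ≤ 1 → enc c ∈ nb v := by
  decide +kernel

lemma code_lb (C : Finset (Fin 5 → Bool)) (h : ∀ w : Fin 5 → Bool, ∃ c ∈ C, hammingDist w c ≤ 1) :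
    7 ≤ C.card := by
  by_contra hlt
  refine srch_sound 6 4294967295 (C.image enc) ?_ ?_ srch_run
  · have := Finset.card_image_le (s := C) (f := enc)
    omega
  · intro v hv _
    obtain ⟨c, hc, hd⟩ := h (dec v)
    exact ⟨enc c, Finset.mem_image_of_mem _ hc, enc_spec v hv c hd⟩

def st : Fin 6 → Fin 5 → Bool :=
  ![![false, false, false, false, false], ![false, true, false, false, false],
    ![false, false, false, true, false], ![false, true, false, true, false],
    ![true, false, false, false, false], ![true, false, false, false, false]]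

def ord : Fin 6 → Fin 5 → ℕ :=
  ![![0, 1, 2, 3, 4], ![2, 1, 0, 3, 4], ![0, 1, 4, 3, 2], ![4, 1, 0, 3, 2],
    ![1, 2, 3, 4, 0], ![2, 3, 4, 0, 1]]

lemma cover : ∀ w : Fin 5 → Bool, ∃ i : Fin 6, ∃ m : Fin 6, ∀ j : Fin 5,
    w j = (if (m : ℕ) ≤ ord i j then st i j else !st i j) := by decide +kernel

lemma ord_le : ∀ i j, ord i j ≤ 4 := by decide

lemma ord_ex : ∀ i : Fin 6, ∃ j j' : Fin 5, ord i j = 0 ∧ ord i j' = 1 := by decide

noncomputable def sg (i : Fin 6) (j : Fin 5) : ℝ := if st i j then 1 else -1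

noncomputable def base (i : Fin 6) : Fin 5 → ℝ := fun j => 1 / 2 + sg i j * (2 * (ord i j : ℝ))

noncomputable def line (i : Fin 6) : AffineSubspace ℝ (Fin 5 → ℝ) :=
  AffineSubspace.mk' (base i) (Submodule.span ℝ {sg i})

lemma sg_ne (i : Fin 6) : sg i ≠ 0 := by
  intro h
  have := congrFun h 0
  simp only [sg, Pi.zero_apply] at this
  split_ifs at this <;> norm_num at this

lemma mem_line (i : Fin 6) (y : Fin 5 → ℝ) :
    y ∈ line i ↔ ∃ τ : ℝ, ∀ j, y j = 1 / 2 + sg i j * (2 * (ord i j : ℝ) + τ) := by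
  rw [line, AffineSubspace.mem_mk', Submodule.mem_span_singleton]
  constructor
  · rintro ⟨a, ha⟩
    refine ⟨a, fun j => ?_⟩
    have := congrFun ha j
    simp only [Pi.smul_apply, smul_eq_mul, vsub_eq_sub, Pi.sub_apply, base] at this
    linarith
  · rintro ⟨a, ha⟩
    refine ⟨a, funext fun j => ?_⟩
    simp only [Pi.smul_apply, smul_eq_mul, vsub_eq_sub, Pi.sub_apply, base, ha j]
    ring

/-- The negation of the preceding statement: For all d and l<d: the least number of l-dimensional affine subspaces missing the unit d-cube that illuminate all its boundary points equals the least size of a binary length-d code in which every word is within Hamming distance l of a codeword. -/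
theorem result :
    ¬ (∀ d l : ℕ, l < d →
      sInf {n : ℕ | ∃ L : Fin n → AffineSubspace ℝ (Fin d → ℝ),
          (∀ i, Module.finrank ℝ (L i).direction = l ∧
              ∀ y ∈ L i, ¬ (∀ j, 0 ≤ y j ∧ y j ≤ 1)) ∧
          ∀ x : Fin d → ℝ, (∀ j, 0 ≤ x j ∧ x j ≤ 1) → ¬ (∀ j, 0 < x j ∧ x j < 1) →
            ∃ i, ∃ y ∈ L i, ∃ t : ℝ, 0 < t ∧
              ∀ j, 0 < (x + t • (x - y)) j ∧ (x + t • (x - y)) j < 1}
        =
      sInf {n : ℕ | ∃ C : Finset (Fin d → Bool), C.card = n ∧
          ∀ w : Fin d → Bool, ∃ c ∈ C, hammingDist w c ≤ l}) := by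
  intro H
  have h := H 5 1 (by norm_num)
  have hR : 7 ≤ sInf {n : ℕ | ∃ C : Finset (Fin 5 → Bool), C.card = n ∧
          ∀ w : Fin 5 → Bool, ∃ c ∈ C, hammingDist w c ≤ 1} := by
    apply le_csInf
    · exact ⟨_, Finset.univ, rfl, fun w => ⟨w, Finset.mem_univ _, by simp⟩⟩
    · rintro n ⟨C, rfl, hC⟩
      exact code_lb C hC
  rw [← h] at hR
  refine absurd (hR.trans (Nat.sInf_le (m := 6) ⟨line, fun i => ⟨?_, ?_⟩, ?_⟩)) (by norm_num)
  · rw [line, AffineSubspace.direction_mk']
    exact finrank_span_singleton (sg_ne i)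
  · intro y hy hc
    obtain ⟨τ, hτ⟩ := (mem_line i y).1 hy
    obtain ⟨j, j', h0, h1⟩ := ord_ex i
    have a := hc j
    have b := hc j'
    rw [hτ j, h0] at a
    rw [hτ j', h1] at b
    simp only [sg] at a b
    split_ifs at a b <;> push_cast at a b <;> linarith [a.1, a.2, b.1, b.2]
  · intro x hx _
    obtain ⟨i, m, him⟩ := cover (fun j => decide (1 / 2 < x j))
    refine ⟨i, fun j => 1 / 2 + sg i j * (2 * (ord i j : ℝ) + (1 - 2 * ((m : ℕ) : ℝ))),
      (mem_line i _).2 ⟨_, fun j => rfl⟩, 1 / 40, by norm_num, fun j => ?_⟩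
    have hj := him j
    have hx0 := (hx j).1
    have hx1 := (hx j).2
    have ho : (ord i j : ℝ) ≤ 4 := by exact_mod_cast ord_le i j
    have ho0 : (0 : ℝ) ≤ (ord i j : ℝ) := Nat.cast_nonneg _
    have hm : ((m : ℕ) : ℝ) ≤ 5 := by exact_mod_cast Nat.lt_succ_iff.1 m.2
    have hm0 : (0 : ℝ) ≤ ((m : ℕ) : ℝ) := Nat.cast_nonneg _
    simp only [Pi.add_apply, Pi.smul_apply, Pi.sub_apply, smul_eq_mul, sg]
    by_cases hmo : (m : ℕ) ≤ ord i j
    · have hmo' : ((m : ℕ) : ℝ) ≤ (ord i j : ℝ) := by exact_mod_cast hmo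
      rw [if_pos hmo] at hj
      cases hs : st i j
      · rw [hs] at hj
        have : ¬ (1 / 2 < x j) := by simpa using hj
        simp only [Bool.false_eq_true, if_false]
        constructor <;> linarith
      · rw [hs] at hj
        have : 1 / 2 < x j := by simpa using hj
        simp only [if_true]
        constructor <;> linarith
    · have hmo' : (ord i j : ℝ) + 1 ≤ ((m : ℕ) : ℝ) := by
        exact_mod_cast Nat.succ_le_of_lt (Nat.lt_of_not_le hmo)
      rw [if_neg hmo] at hj
      cases hs : st i j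
      · rw [hs] at hj
        have : 1 / 2 < x j := by simpa using hj
        simp only [Bool.false_eq_true, if_false]
        constructor <;> linarith
      · rw [hs] at hj
        have : ¬ (1 / 2 < x j) := by simpa using hj
        simp only [if_true]
        constructor <;> linarith

end Pool.Agent.S08682
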