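import Pool.Statements.S08686

set_option autoImplicit false
open Pool Pool.MP_4e7ec3_co

namespace Pool.Agent.S08686

noncomputable def TT (x : ℝ) : ℝ :=
  if x < 2/11 then 2/11 else if x < 4/11 then 1/11 else if x < 6/11 then 6/11
  else if x < 8/11 then 5/11 else if x < 10/11 then 10/11 else 9/11

noncomputable def FF : Finset ℝ := (Finset.range 12).image (fun i : ℕ => (i : ℝ) / 11)

lemma memF (i : ℕ) (h : i < 12) : ((i : ℝ) / 11) ∈ FF :=
  Finset.mem_image.2 ⟨i, Finset.mem_range.2 h, rfl⟩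

lemma TT_block (j : ℕ) (hj : j < 3) (x : ℝ) (h1 : ((4 * j : ℕ) : ℝ) / 11 ≤ x)
    (h2 : x ≤ ((4 * j + 3 : ℕ) : ℝ) / 11) :
    TT x = ((4 * j + 1 : ℕ) : ℝ) / 11 ∨ TT x = ((4 * j + 2 : ℕ) : ℝ) / 11 := by
  unfold TT
  interval_cases j <;> push_cast at * <;> split_ifs <;> first | (exfalso; linarith) | norm_num

/-- The negation of the preceding statement: There is a constant k such that for every finite F in [0,1] containing 0 and 1, every ε>0, and every T:F→F moving each point by more than ε, some p₀ in F reaches a point at distance at least 1/3 in at most k/ε steps, each step going to T(p) or a neighbour of T(p) in F. -/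
theorem result :
    ¬ (∃ k : ℝ, ∀ (F : Finset ℝ) (ε : ℝ) (T : ℝ → ℝ),
      (∀ p ∈ F, 0 ≤ p ∧ p ≤ 1) → (0 : ℝ) ∈ F → (1 : ℝ) ∈ F → 0 < ε →
      (∀ p ∈ F, T p ∈ F ∧ ε < |p - T p|) →
      ∃ p₀ ∈ F, ∃ n : ℕ, (n : ℝ) ≤ k / ε ∧
        ∃ x : ℕ → ℝ, x 0 = p₀ ∧
          (∀ i < n,
            x (i + 1) = T (x i) ∨
            (x (i + 1) ∈ F ∧ x (i + 1) < T (x i) ∧
              ∀ r ∈ F, r < T (x i) → r ≤ x (i + 1)) ∨
            (x (i + 1) ∈ F ∧ T (x i) < x (i + 1) ∧
              ∀ r ∈ F, T (x i) < r → x (i + 1) ≤ r)) ∧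
          1 / 3 ≤ |x n - p₀|) := by
  rintro ⟨k, hk⟩
  have hF : ∀ p ∈ FF, ∃ i : ℕ, i < 12 ∧ p = (i : ℝ) / 11 := by
    intro p hp
    obtain ⟨i, hi, rfl⟩ := Finset.mem_image.1 hp
    exact ⟨i, Finset.mem_range.1 hi, rfl⟩
  have h0 : (0 : ℝ) ∈ FF := by simpa using memF 0 (by norm_num)
  have h1 : (1 : ℝ) ∈ FF := by simpa using memF 11 (by norm_num)
  obtain ⟨p₀, hp₀, n, -, x, hx0, hstep, hfar⟩ := hk FF (1/12) TT
    (by
      intro p hp
      obtain ⟨i, hi, rfl⟩ := hF p hp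
      have : (i : ℝ) ≤ 11 := by exact_mod_cast Nat.lt_succ_iff.1 hi
      constructor
      · positivity
      · linarith)
    h0 h1 (by norm_num)
    (by
      intro p hp
      obtain ⟨i, hi, rfl⟩ := hF p hp
      have e1 := memF 1 (by norm_num)
      have e2 := memF 2 (by norm_num)
      have e5 := memF 5 (by norm_num)
      have e6 := memF 6 (by norm_num)
      have e9 := memF 9 (by norm_num)
      have e10 := memF 10 (by norm_num)
      push_cast at e1 e2 e5 e6 e9 e10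
      unfold TT
      interval_cases i <;> push_cast <;> split_ifs <;>
        first | (exfalso; linarith) | (refine ⟨by assumption, ?_⟩; norm_num [abs_of_pos, abs_of_neg]))
  obtain ⟨i₀, hi₀, rfl⟩ := hF p₀ hp₀
  set j := i₀ / 4 with hj
  have hj3 : j < 3 := by omega
  have hlo : ((4 * j : ℕ) : ℝ) ≤ (i₀ : ℝ) := by exact_mod_cast (by omega : 4 * j ≤ i₀)
  have hhi : (i₀ : ℝ) ≤ ((4 * j + 3 : ℕ) : ℝ) := by exact_mod_cast (by omega : i₀ ≤ 4 * j + 3)
  have inv : ∀ m, m ≤ n → ((4 * j : ℕ) : ℝ) / 11 ≤ x m ∧ x m ≤ ((4 * j + 3 : ℕ) : ℝ) / 11 := by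
    intro m
    induction m with
    | zero => intro _; rw [hx0]; constructor <;> linarith
    | succ m ih =>
      intro hm
      obtain ⟨a, b⟩ := ih (by omega)
      have ht := TT_block j hj3 _ a b
      have mlo := memF (4 * j) (by omega)
      have mhi := memF (4 * j + 3) (by omega)
      have bnd : ((4 * j : ℕ) : ℝ) / 11 < TT (x m) ∧ TT (x m) < ((4 * j + 3 : ℕ) : ℝ) / 11 := by
        rcases ht with h | h <;> rw [h] <;> push_cast <;> constructor <;> linarith
      rcases hstep m (by omega) with h | ⟨-, h, h'⟩ | ⟨-, h, h'⟩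
      · rw [h]; exact ⟨bnd.1.le, bnd.2.le⟩
      · exact ⟨h' _ mlo bnd.1, by linarith [bnd.2]⟩
      · exact ⟨by linarith [bnd.1], h' _ mhi bnd.2⟩
  obtain ⟨a, b⟩ := inv n le_rfl
  push_cast at a b hlo hhi
  rcases le_abs.1 hfar with h | h <;> linarith

end Pool.Agent.S08686
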