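import Pool.Statements.S08692

set_option autoImplicit false
open Pool Pool.MP_4ee71e_co

namespace Pool.Agent.S08692
open Finset in
noncomputable def ff {d : ℕ} (S : Finset (Fin d)) : ℝ := ∑ i ∈ S, (2 : ℝ) ^ (i : ℕ)

open Finset in
lemma ff_inj {d : ℕ} : Function.Injective (ff (d := d)) := by
  intro S T h
  have h1 : ∑ i ∈ S.map Fin.valEmbedding, 2 ^ i = ∑ i ∈ T.map Fin.valEmbedding, 2 ^ i := by
    rw [sum_map, sum_map]
    have : ((∑ i ∈ S, 2 ^ (i : ℕ) : ℕ) : ℝ) = ((∑ i ∈ T, 2 ^ (i : ℕ) : ℕ) : ℝ) := by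
      push_cast; exact h
    exact_mod_cast this
  exact map_injective _ (geomSum_injective (le_refl 2) h1)

def fl {d : ℕ} (S : Finset (Fin d)) (i : Fin d) : Finset (Fin d) :=
  if i ∈ S then S.erase i else insert i S

lemma mem_fl {d : ℕ} (S : Finset (Fin d)) (i j : Fin d) : j ∈ fl S i ↔ (j ∈ S ↔ j ≠ i) := by
  unfold fl
  by_cases h : j = i
  · subst h; split_ifs with h1 <;> simp [h1]
  · split_ifs with h1 <;> simp [h]

lemma fl_fl {d : ℕ} (S : Finset (Fin d)) (i : Fin d) : fl (fl S i) i = S := by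
  ext j; simp only [mem_fl]; tauto

lemma fl_comm {d : ℕ} (S : Finset (Fin d)) (i j : Fin d) : fl (fl S i) j = fl (fl S j) i := by
  ext k; simp only [mem_fl]; tauto

lemma fl_ne {d : ℕ} (S : Finset (Fin d)) (i : Fin d) : fl S i ≠ S := by
  intro h
  have := mem_fl S i i
  rw [h] at this; tauto

lemma fl_inj {d : ℕ} (S : Finset (Fin d)) : Function.Injective (fl S) := by
  intro i j h
  have h1 := mem_fl S i i
  have h2 := mem_fl S j i
  rw [h] at h1
  by_contra hne
  tauto

lemma ff_fl {d : ℕ} (S : Finset (Fin d)) (i : Fin d) :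
    ff (fl S i) = if i ∈ S then ff S - 2 ^ (i : ℕ) else ff S + 2 ^ (i : ℕ) := by
  unfold fl ff
  split_ifs with h
  · rw [← Finset.add_sum_erase S _ h]; ring
  · rw [Finset.sum_insert h]; ring

lemma abs_fl {d : ℕ} (S : Finset (Fin d)) (i : Fin d) : |ff S - ff (fl S i)| = 2 ^ (i : ℕ) := by
  have : (0 : ℝ) < 2 ^ (i : ℕ) := by positivity
  rw [ff_fl]; split_ifs
  · rw [sub_sub_cancel, abs_of_pos this]
  · rw [sub_add_cancel_left, abs_neg, abs_of_pos this]

lemma par_fl {d : ℕ} (S : Finset (Fin d)) (i : Fin d) : (fl S i).card % 2 ≠ S.card % 2 := by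
  unfold fl
  split_ifs with h
  · have := Finset.card_erase_add_one h; omega
  · rw [Finset.card_insert_of_notMem h]; omega

lemma key {d : ℕ} (S T : Finset (Fin d)) (i : Fin d) (hS : i ∈ S) (hT : i ∉ T)
    (h : |ff S - ff T| = |ff (fl S i) - ff (fl T i)|) : S.card % 2 ≠ T.card % 2 := by
  have h0 : (0 : ℝ) < 2 ^ (i : ℕ) := by positivity
  have h1 := ff_fl T i
  rw [h1, ff_fl, if_pos hS, if_neg hT] at h
  rw [if_neg hT] at h1
  have : ff S = ff (fl T i) := by
    rcases abs_eq_abs.1 h with a | a <;> linarith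
  rw [ff_inj this]
  exact par_fl T i

/-- The negation of the preceding statement: There is c>0 such that every finite simple graph with at least one edge has a subgraph, globally rigid on the line for injective placements, with at least c times edges divided by vertices many vertices. -/
theorem result :
    ¬ (∃ c : ℝ, 0 < c ∧
      ∀ (n : ℕ) (G : SimpleGraph (Fin n)), G.edgeSet.Nonempty →
        ∃ H : G.Subgraph,
          (∀ f g : Fin n → ℝ, Set.InjOn f H.verts → Set.InjOn g H.verts →
            (∀ u v : Fin n, H.Adj u v → |f u - f v| = |g u - g v|) →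
            ∀ u ∈ H.verts, ∀ v ∈ H.verts, |f u - f v| = |g u - g v|) ∧
          c * (G.edgeSet.ncard : ℝ) / (n : ℝ) ≤ (H.verts.ncard : ℝ)) := by
  classical
  rintro ⟨c, hc, H⟩
  obtain ⟨d, hd⟩ := exists_nat_gt (4 / c)
  have hd0 : 0 < d := by
    have : (0 : ℝ) < d := lt_trans (by positivity) hd
    exact_mod_cast this
  let n := Fintype.card (Finset (Fin d))
  let e : Fin n ≃ Finset (Fin d) := (Fintype.equivFin _).symm
  let G : SimpleGraph (Fin n) :=
    { Adj := fun u v => ∃ i, e v = fl (e u) i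
      symm := ⟨fun u v ⟨i, h⟩ => ⟨i, by rw [h, fl_fl]⟩⟩
      loopless := ⟨fun u ⟨i, h⟩ => fl_ne _ _ h.symm⟩ }
  have hn : 0 < n := Fintype.card_pos
  have hdeg : ∀ u, d ≤ G.degree u := by
    intro u
    rw [← SimpleGraph.card_neighborFinset_eq_degree]
    have := Finset.card_le_card_of_injOn (s := Finset.univ) (t := G.neighborFinset u)
      (fun i : Fin d => e.symm (fl (e u) i))
      (fun i _ => by simp only [Finset.mem_coe, SimpleGraph.mem_neighborFinset]; exact ⟨i, by simp⟩)
      (fun i _ j _ h => fl_inj _ (e.symm.injective h))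
    simpa using this
  have hE : n * d ≤ 2 * G.edgeSet.ncard := by
    have := G.sum_degrees_eq_twice_card_edges
    have h2 := Finset.sum_le_sum (s := Finset.univ) (fun u _ => hdeg u)
    rw [this] at h2
    rw [← SimpleGraph.coe_edgeFinset, Set.ncard_coe_finset]
    simpa using h2
  obtain ⟨K, hK, hcard⟩ := H n G (by
    refine ⟨s(e.symm ∅, e.symm (fl ∅ ⟨0, hd0⟩)), ⟨⟨0, hd0⟩, by simp⟩⟩)
  have hpar : Set.InjOn (fun u => (e u).card % 2) K.verts := by
    intro u hu v hv h
    by_contra hne
    have hh : ∀ i, |ff (e u) - ff (e v)| = |ff (fl (e u) i) - ff (fl (e v) i)| := by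
      intro i
      refine hK (fun u => ff (e u)) (fun u => ff (fl (e u) i))
        (fun a _ b _ h => e.injective (ff_inj h)) (fun a _ b _ h => e.injective ?_) ?_ u hu v hv
      · have := congrArg (fun S => fl S i) (ff_inj h)
        simpa [fl_fl] using this
      · intro a b hab
        obtain ⟨j, hj⟩ := K.adj_sub hab
        simp only [hj]
        rw [abs_fl, fl_comm, abs_fl]
    have : ∃ i, ¬ (i ∈ e u ↔ i ∈ e v) := by
      by_contra h3
      push Not at h3
      exact hne (e.injective (Finset.ext h3))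
    obtain ⟨i, hi⟩ := this
    by_cases h1 : i ∈ e u
    · exact key _ _ i h1 (by tauto) (hh i) h
    · exact key _ _ i (by tauto) h1 (by rw [abs_sub_comm, hh i, abs_sub_comm]) h.symm
  have h2 : K.verts.ncard ≤ 2 := by
    have := Set.ncard_le_ncard_of_injOn (t := ({0, 1} : Set ℕ)) _
      (fun u _ => by simp only [Set.mem_insert_iff, Set.mem_singleton_iff]; omega) hpar
    rwa [Set.ncard_pair (by norm_num)] at this
  have h3 : (K.verts.ncard : ℝ) ≤ 2 := by exact_mod_cast h2
  have h4 : (n : ℝ) * d ≤ 2 * G.edgeSet.ncard := by exact_mod_cast hE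
  have h5 : (0 : ℝ) < n := by exact_mod_cast hn
  rw [div_le_iff₀ h5] at hcard
  rw [div_lt_iff₀ hc] at hd
  nlinarith

end Pool.Agent.S08692
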