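import Pool.Statements.S08711
import Pool.Agent.H6.Stieb

set_option autoImplicit false
open Pool Pool.MP_4ffbdc_co

namespace Pool.Agent.S08711

/-- For every k ≥ 4 there is a constant c such that any nonempty finite graph H that is a (not necessarily induced) subgraph of some k-critical graph is also a subgraph of a k-critical graph with at most c times as many vertices as H. -/
theorem result :
    ∀ k : ℕ, 4 ≤ k → ∃ c : ℕ, ∀ n : ℕ, 0 < n → ∀ H : SimpleGraph (Fin n),
      (∃ m : ℕ, ∃ G : SimpleGraph (Fin m),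
        G.chromaticNumber = (k : ℕ∞) ∧
        (∀ v w : Fin m, G.Adj v w →
          (G.deleteEdges {s(v, w)}).chromaticNumber < (k : ℕ∞)) ∧
        (∀ v : Fin m, (G.induce ({v}ᶜ : Set (Fin m))).chromaticNumber < (k : ℕ∞)) ∧
        ∃ f : H →g G, Function.Injective f) →
      ∃ m : ℕ, ∃ G : SimpleGraph (Fin m),
        G.chromaticNumber = (k : ℕ∞) ∧
        (∀ v w : Fin m, G.Adj v w →
          (G.deleteEdges {s(v, w)}).chromaticNumber < (k : ℕ∞)) ∧
        (∀ v : Fin m, (G.induce ({v}ᶜ : Set (Fin m))).chromaticNumber < (k : ℕ∞)) ∧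
        (∃ f : H →g G, Function.Injective f) ∧
        m ≤ c * n := by
  intro k hk
  obtain ⟨K, rfl⟩ : ∃ K, k = K + 1 := ⟨k - 1, by omega⟩
  have lt_iff : ∀ {V : Type} (G : SimpleGraph V),
      G.chromaticNumber < ((K + 1 : ℕ) : ℕ∞) ↔ G.Colorable K := by
    intro V G
    rw [← SimpleGraph.chromaticNumber_le_iff_colorable]
    push_cast
    exact ENat.lt_add_one_iff (ENat.natCast_ne_top K)
  refine ⟨7 + 5 * K, fun n hn H ⟨m, G, g1, g2, g3, f, hf⟩ => ?_⟩
  by_cases hH : H.Colorable K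
  · have hG : ¬ G.Colorable K := by
      rw [← lt_iff, g1]; exact lt_irrefl _
    obtain ⟨m', hm', G', a1, a2, a3, a4⟩ := Pool.Agent.H6.Stieb.main H hn (by omega) hH (by
      intro x y hxy
      obtain ⟨c⟩ := (lt_iff _).1 (g2 _ _ (f.map_adj hxy))
      refine ⟨fun v => c (f v),
        Pool.Agent.H6.Toft.eq_of_col hG c fun u v huv => c.valid huv, fun a b hab hne => ?_⟩
      refine c.valid (SimpleGraph.deleteEdges_adj.2 ⟨f.map_adj hab, fun h => hne ?_⟩)
      exact Sym2.map.injective hf h)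
    refine ⟨m', G', a1, fun v w h => (lt_iff _).2 (a2 v w h), fun v => ?_, a4, hm'⟩
    obtain ⟨w, hw⟩ := a3 v
    refine (lt_iff _).2 (SimpleGraph.Colorable.of_hom ⟨Subtype.val, ?_⟩ (a2 v w hw))
    rintro ⟨a, ha⟩ ⟨b, hb⟩ hab
    refine SimpleGraph.deleteEdges_adj.2 ⟨hab, fun h => ?_⟩
    have h' : s(a, b) = s(v, w) := h
    rcases Sym2.eq_iff.1 h' with ⟨e1, _⟩ | ⟨_, e1⟩
    · exact ha e1
    · exact hb e1
  · refine ⟨m, G, g1, g2, g3, ⟨f, hf⟩, ?_⟩
    have hs : Function.Surjective f := by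
      intro v
      by_contra hv
      push Not at hv
      exact hH (SimpleGraph.Colorable.of_hom (G' := G.induce ({v}ᶜ : Set (Fin m)))
        ⟨fun a => ⟨f a, hv a⟩, fun h => f.map_adj h⟩ ((lt_iff _).1 (g3 v)))
    have := Fintype.card_le_of_surjective f hs
    simp only [Fintype.card_fin] at this
    nlinarith

end Pool.Agent.S08711
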