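import Pool.Statements.S08725
import Pool.Agent.H7.Steklov2

set_option autoImplicit false
open Classical
open Pool Pool.MP_507ed2_co

namespace Pool.Agent.S08725

open Pool.Agent.H7.Steklov Finset

theorem small {V : Type} {G : SimpleGraph V} (M : ℕ)
    (hD : ∀ z (Z : Finset V), (∀ y ∈ Z, G.Adj z y) → Z.card ≤ M) {Ω B : Finset V}
    (hB : Bd G Ω B) (h2 : 2 ≤ B.card) :
    ∃ f : V → ℝ, ∑ x ∈ B, f x = 0 ∧ 0 < ∑ x ∈ B, f x ^ 2 ∧ en G Ω B f ≤ M * ∑ x ∈ B, f x ^ 2 := by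
  obtain ⟨b, hb, b', hb', hne⟩ := one_lt_card.1 h2
  let f : V → ℝ := fun x => (if x = b then 1 else 0) - (if x = b' then 1 else 0)
  have z : ∀ x ∈ Ω, f x = 0 := fun x hx => by
    have a1 : x ≠ b := fun h => ((hB b).1 hb).1 (h ▸ hx)
    have a2 : x ≠ b' := fun h => ((hB b').1 hb').1 (h ▸ hx)
    simp [f, a1, a2]
  refine ⟨f, ?_, ?_, ?_⟩
  · simp [f, sum_sub_distrib, hb, hb']
  · exact sum_pos' (fun _ _ => sq_nonneg _) ⟨b, hb, by simp [f, hne]⟩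
  · unfold en
    rw [sum_eq_zero (fun x hx => sum_eq_zero (fun y hy => by rw [z x hx, z y hy]; simp)),
      zero_div, zero_add, sum_comm, mul_sum]
    refine sum_le_sum (fun y _ => ?_)
    rw [← sum_filter]
    refine (sum_le_card_nsmul _ _ (f y ^ 2) (fun x hx => ?_)).trans ?_
    · rw [z x (mem_filter.1 hx).1]; simp
    · rw [nsmul_eq_mul]
      have := hD y (Ω.filter (fun x => G.Adj x y)) (fun x hx => G.adj_symm (mem_filter.1 hx).2)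
      exact mul_le_mul_of_nonneg_right (by exact_mod_cast this) (sq_nonneg _)

/-- For infinite connected bounded-degree graphs G1, G2 roughly quasi-isometric, if every finite vertex set of G1 with boundary B (∣B∣≥2) has first Steklov eigenvalue ≤ C/∣B∣^α, then some constant gives the same bound with the same α for G2. -/
theorem result :
    ∀ (V₁ V₂ : Type) (G₁ : SimpleGraph V₁) (G₂ : SimpleGraph V₂) (α : ℝ), 0 < α →
      Infinite V₁ → Infinite V₂ → G₁.Connected → G₂.Connected →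
      (∃ D : ℕ, ∀ v : V₁, (G₁.neighborSet v).encard ≤ (D : ℕ∞)) →
      (∃ D : ℕ, ∀ v : V₂, (G₂.neighborSet v).encard ≤ (D : ℕ∞)) →
      (∃ φ : V₁ → V₂, ∃ a b c : ℝ, 1 ≤ a ∧ 0 ≤ b ∧ 0 ≤ c ∧
        (∀ x y : V₁, (G₁.dist x y : ℝ) / a - b ≤ (G₂.dist (φ x) (φ y) : ℝ) ∧
          (G₂.dist (φ x) (φ y) : ℝ) ≤ a * (G₁.dist x y : ℝ) + b) ∧
        ∀ z : V₂, ∃ x : V₁, (G₂.dist (φ x) z : ℝ) ≤ c) →
      (∃ C : ℝ, ∀ Ω B : Finset V₁, (∀ v : V₁, v ∈ B ↔ v ∉ Ω ∧ ∃ u ∈ Ω, G₁.Adj u v) →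
        2 ≤ B.card → ∃ f : V₁ → ℝ, ∑ x ∈ B, f x = 0 ∧ 0 < ∑ x ∈ B, f x ^ 2 ∧
          (∑ x ∈ Ω, ∑ y ∈ Ω, (if G₁.Adj x y then (f x - f y) ^ 2 else 0)) / 2 +
            (∑ x ∈ Ω, ∑ y ∈ B, (if G₁.Adj x y then (f x - f y) ^ 2 else 0))
            ≤ C / (B.card : ℝ) ^ α * ∑ x ∈ B, f x ^ 2) →
      (∃ C : ℝ, ∀ Ω B : Finset V₂, (∀ v : V₂, v ∈ B ↔ v ∉ Ω ∧ ∃ u ∈ Ω, G₂.Adj u v) →
        2 ≤ B.card → ∃ f : V₂ → ℝ, ∑ x ∈ B, f x = 0 ∧ 0 < ∑ x ∈ B, f x ^ 2 ∧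
          (∑ x ∈ Ω, ∑ y ∈ Ω, (if G₂.Adj x y then (f x - f y) ^ 2 else 0)) / 2 +
            (∑ x ∈ Ω, ∑ y ∈ B, (if G₂.Adj x y then (f x - f y) ^ 2 else 0))
            ≤ C / (B.card : ℝ) ^ α * ∑ x ∈ B, f x ^ 2) := by
  rintro V₁ V₂ G₁ G₂ α hα i1 i2 h1 h2 ⟨D₁, hD₁⟩ ⟨D₂, hD₂⟩ ⟨φ, a, b, c, ha, hb, hc, hφ, hψ⟩ ⟨C, hC⟩
  choose ψ hψ using hψ
  have a0 : 0 < a := by linarith
  have lo : ∀ x y, (G₁.dist x y : ℝ) ≤ a * (G₂.dist (φ x) (φ y) + b) := fun x y => by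
    have := (hφ x y).1
    rw [sub_le_iff_le_add, div_le_iff₀ a0] at this
    linarith
  have tri : ∀ u v w, (G₂.dist u w : ℝ) ≤ G₂.dist u v + G₂.dist v w := fun u v w => by
    exact_mod_cast h2.dist_triangle
  have hψ' : ∀ z, (G₂.dist z (φ (ψ z)) : ℝ) ≤ c := fun z => by
    rw [SimpleGraph.dist_comm]; exact hψ z
  obtain ⟨K, hK⟩ := exists_nat_ge (a * (2 * c + 1 + b))
  have up : ∀ r : ℕ, ∃ T : ℕ, ∀ x z, G₁.dist (ψ z) x ≤ r → G₂.dist z (φ x) ≤ T := by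
    intro r
    obtain ⟨T, hT⟩ := exists_nat_ge (a * r + b + c)
    refine ⟨T, fun x z h => ?_⟩
    have t := tri z (φ (ψ z)) (φ x)
    have u := (hφ (ψ z) x).2
    have h' : (G₁.dist (ψ z) x : ℝ) ≤ r := by exact_mod_cast h
    have v := mul_le_mul_of_nonneg_left h' a0.le
    have w := hψ' z
    exact_mod_cast (by linarith : (G₂.dist z (φ x) : ℝ) ≤ T)
  obtain ⟨T, hT⟩ := up (K + 2)
  obtain ⟨L, hL⟩ : ∃ L, K + 2 + K * T ≤ L := ⟨_, le_rfl⟩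
  obtain ⟨T', hT'⟩ := up L
  obtain ⟨M, m1, m2, m3⟩ : ∃ M : ℕ, (D₁ + 1) ^ L ≤ M ∧ (D₂ + 1) ^ T' ≤ M ∧ (D₂ + 1) ^ 1 ≤ M :=
    ⟨(D₁ + 1) ^ L + (D₂ + 1) ^ T' + (D₂ + 1) ^ 1, by omega, by omega, by omega⟩
  have hM1 : ∀ x (Z : Finset V₁), (∀ y ∈ Z, G₁.dist x y ≤ L) → Z.card ≤ M := by
    intro x Z h
    obtain ⟨F, f1, f2⟩ := ball_dist h1 D₁ hD₁ L x
    exact (card_le_card (fun y hy => f2 y (h y hy))).trans (f1.trans m1)
  have hM : ∀ x (Z : Finset V₂), (∀ z ∈ Z, G₁.dist x (ψ z) ≤ L) → Z.card ≤ M := by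
    intro x Z h
    obtain ⟨F, f1, f2⟩ := ball_dist h2 D₂ hD₂ T' (φ x)
    refine (card_le_card (fun y hy => f2 y ?_)).trans (f1.trans m2)
    rw [SimpleGraph.dist_comm]
    exact hT' x y (by rw [SimpleGraph.dist_comm]; exact h y hy)
  have hD : ∀ z (Z : Finset V₂), (∀ y ∈ Z, G₂.Adj z y) → Z.card ≤ M := by
    intro z Z h
    obtain ⟨F, f1, f2⟩ := ball_dist h2 D₂ hD₂ 1 z
    exact (card_le_card (fun y hy => f2 y (SimpleGraph.dist_eq_one_iff_adj.2 (h y hy)).le)).trans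
      (f1.trans m3)
  have M0 : (0 : ℝ) < M := by
    have : 0 < M := lt_of_lt_of_le (by positivity) m3
    exact_mod_cast this
  have Mα : 0 < (M : ℝ) ^ α := Real.rpow_pos_of_pos M0 α
  obtain ⟨A, hA⟩ : ∃ A : ℝ, A = |C| * (M : ℝ) ^ α := ⟨_, rfl⟩
  have A0 : 0 ≤ A := by rw [hA]; positivity
  obtain ⟨Q, hQ⟩ : ∃ Q : ℝ, Q = (M : ℝ) ^ α + 8 * M * L ^ 2 * A := ⟨_, rfl⟩
  have X0 : 0 ≤ 8 * (M : ℝ) * L ^ 2 * A := by positivity
  have Y0 : 0 ≤ 16 * (M : ℝ) ^ 3 * L ^ 2 * A := by positivity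
  refine ⟨M * Q + 16 * M ^ 3 * L ^ 2 * A, fun Ω₂ B₂ hB hc2 => ?_⟩
  have b0 : (0 : ℝ) < B₂.card := by
    have : 0 < B₂.card := by omega
    exact_mod_cast this
  have w0 : 0 < (B₂.card : ℝ) ^ α := Real.rpow_pos_of_pos b0 α
  by_cases hw : (B₂.card : ℝ) ^ α ≤ Q
  · obtain ⟨f, f1, f2, f3⟩ := small M hD hB hc2
    refine ⟨f, f1, f2, le_trans f3 (mul_le_mul_of_nonneg_right ?_ f2.le)⟩
    rw [le_div_iff₀ w0]
    have := mul_le_mul_of_nonneg_left hw M0.le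
    linarith
  push Not at hw
  obtain ⟨Ω₁, B₁, hB₁, hcard, g1, g2⟩ := transfer h1 h2 φ ψ K T M L hL
    (fun r y => (ball_dist h1 D₁ hD₁ r y).imp (fun _ h => h.2))
    (fun z z' h => by
      have t1 := tri (φ (ψ z)) z (φ (ψ z'))
      have t2 := tri z z' (φ (ψ z'))
      rw [SimpleGraph.dist_eq_one_iff_adj.2 h, Nat.cast_one] at t2
      have u1 := hψ z
      have u2 := hψ' z'
      have v := lo (ψ z) (ψ z')
      have w := mul_le_mul_of_nonneg_left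
        (by linarith : (G₂.dist (φ (ψ z)) (φ (ψ z')) : ℝ) + b ≤ 2 * c + 1 + b) a0.le
      exact_mod_cast (by linarith : (G₁.dist (ψ z) (ψ z') : ℝ) ≤ K))
    (fun x => by
      have u1 := hψ (φ x)
      have v := lo (ψ (φ x)) x
      have w := mul_le_mul_of_nonneg_left
        (by linarith : (G₂.dist (φ (ψ (φ x))) (φ x) : ℝ) + b ≤ 2 * c + 1 + b) a0.le
      exact_mod_cast (by linarith : (G₁.dist (ψ (φ x)) x : ℝ) ≤ K))
    hT hM Ω₂ B₂ hB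
  have big : M < B₂.card := by
    have := (Real.rpow_lt_rpow_iff M0.le b0.le hα).1 (by linarith)
    exact_mod_cast this
  have hc1 : 2 ≤ B₁.card := by
    by_contra h
    have := Nat.mul_le_mul_left M (by omega : B₁.card ≤ 1)
    omega
  have b1 : (0 : ℝ) < B₁.card := by
    have : 0 < B₁.card := by omega
    exact_mod_cast this
  have w1 : 0 < (B₁.card : ℝ) ^ α := Real.rpow_pos_of_pos b1 α
  have ww : (B₂.card : ℝ) ^ α ≤ (M : ℝ) ^ α * (B₁.card : ℝ) ^ α := by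
    rw [← Real.mul_rpow M0.le b1.le]
    exact Real.rpow_le_rpow b0.le (by exact_mod_cast hcard) hα.le
  obtain ⟨f, f1, f2, f3⟩ := hC Ω₁ B₁ hB₁ hc1
  obtain ⟨ε, hε⟩ : ∃ ε : ℝ, ε = A / (B₂.card : ℝ) ^ α := ⟨_, rfl⟩
  have ε0 : 0 ≤ ε := by rw [hε]; positivity
  have f4 : en G₁ Ω₁ B₁ f ≤ ε * ∑ x ∈ B₁, f x ^ 2 := by
    refine le_trans f3 (mul_le_mul_of_nonneg_right ?_ f2.le)
    rw [hε, hA, div_le_div_iff₀ w1 w0]
    have := mul_le_mul_of_nonneg_left ww (abs_nonneg C)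
    have := mul_le_mul_of_nonneg_right (le_abs_self C) w0.le
    linarith
  have ε1 : 8 * M * L ^ 2 * ε ≤ 1 := by
    rw [hε, ← mul_div_assoc, div_le_one w0]; linarith
  obtain ⟨m, hm⟩ : ∃ m : ℝ, m = (∑ z ∈ B₂, f (ψ z)) / B₂.card := ⟨_, rfl⟩
  obtain ⟨c1, c2⟩ := compare h1 ψ M L hM1 hM hD hB₁ g1 g2 f m
  have var : ∑ x ∈ B₁, f x ^ 2 ≤ ∑ x ∈ B₁, (f x - m) ^ 2 := by
    have : ∑ x ∈ B₁, (f x - m) ^ 2 =
        ∑ x ∈ B₁, f x ^ 2 - 2 * m * ∑ x ∈ B₁, f x + ∑ _x ∈ B₁, m ^ 2 := by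
      rw [mul_sum, ← sum_sub_distrib, ← sum_add_distrib]
      exact sum_congr rfl (fun _ _ => by ring)
    rw [this, f1]
    have := sum_nonneg (s := B₁) (fun _ _ => sq_nonneg m)
    linarith
  have k1 := mul_le_mul_of_nonneg_left f4 (by positivity : (0 : ℝ) ≤ 4 * M * L ^ 2)
  have k2 := mul_le_mul_of_nonneg_right ε1 f2.le
  have k3 : ∑ x ∈ B₁, f x ^ 2 ≤ 4 * M * ∑ z ∈ B₂, (f (ψ z) - m) ^ 2 := by linarith
  have k4 : 0 < ∑ z ∈ B₂, (f (ψ z) - m) ^ 2 :=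
    (mul_pos_iff_of_pos_left (by positivity)).1 (f2.trans_le k3)
  refine ⟨fun z => f (ψ z) - m, ?_, k4, le_trans c1 ?_⟩
  · rw [sum_sub_distrib, sum_const, nsmul_eq_mul, hm, mul_div_cancel₀ _ b0.ne', sub_self]
  · have k5 := mul_le_mul_of_nonneg_left (f4.trans (mul_le_mul_of_nonneg_left k3 ε0))
      (by positivity : (0 : ℝ) ≤ 4 * M ^ 2 * L ^ 2)
    refine k5.trans ?_
    have k6 : 0 ≤ M * Q / (B₂.card : ℝ) ^ α * ∑ z ∈ B₂, (f (ψ z) - m) ^ 2 := by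
      have : 0 ≤ Q := by linarith
      positivity
    rw [add_div, add_mul, mul_div_assoc (16 * (M : ℝ) ^ 3 * L ^ 2), ← hε]
    linarith

end Pool.Agent.S08725
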