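import Pool.Statements.S08767
import Pool.Agent.H13.Schemes2

set_option autoImplicit false
open Pool Pool.MP_52f1b6_co

namespace Pool.Agent.S08767

/-- There is g(k,l) so that for k<l, n≥g(k,l), any colouring of k-subsets of an n-set using all r colours with exactly r distinct count-vectors on l-sets admits orderings making the colour-by-scheme count matrix upper triangular with nonzero diagonal. -/
theorem result :
    ∃ g : ℕ → ℕ → ℕ, ∀ k l : ℕ, k < l → ∀ n r : ℕ, g k l ≤ n →
      ∀ c : Finset (Fin n) → Fin r,
        (∀ i : Fin r, ∃ K : Finset (Fin n), K.card = k ∧ c K = i) →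
        (((Finset.univ : Finset (Finset (Fin n))).filter (fun L => L.card = l)).image
            (fun L => fun i : Fin r => ((L.powersetCard k).filter (fun K => c K = i)).card)).card = r →
        ∃ e : Fin r ≃ Fin r, ∃ σ : Fin r → Finset (Fin n),
          (∀ j, (σ j).card = l) ∧
          Function.Injective
            (fun j => fun i : Fin r => (((σ j).powersetCard k).filter (fun K => c K = i)).card) ∧
          (∀ i j : Fin r, j < i →
            (((σ j).powersetCard k).filter (fun K => c K = e i)).card = 0) ∧
          (∀ j : Fin r,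
            (((σ j).powersetCard k).filter (fun K => c K = e j)).card ≠ 0) := by
  classical
  have h0 : ∀ k l : ℕ, ∃ N : ℕ, k < l → _ := fun k l => by
    by_cases h : k < l
    · obtain ⟨N, hN⟩ := Pool.Agent.H13.Schemes.build k l h
      exact ⟨N, fun _ => hN⟩
    · exact ⟨0, fun g => absurd g h⟩
  choose g hg using h0
  refine ⟨g, fun k l hk n r hn c h1 h2 => ?_⟩
  obtain ⟨e, σ, a1, a2, a3, a4⟩ := hg k l hk n r hn c h1 h2 r le_rfl
  have hi : Function.Injective (fun i : Fin r => e i) := by
    intro i j h
    rcases lt_trichotomy i j with b | b | b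
    · exact absurd h (a2 i j b j.2)
    · exact b
    · exact absurd h.symm (a2 j i b i.2)
  have z : ∀ i j : Fin r, j < i →
      (((σ j).powersetCard k).filter (fun K => c K = e i)).card = 0 := by
    intro i j hij
    rw [Finset.card_eq_zero, Finset.filter_eq_empty_iff]
    intro P hP h
    obtain ⟨x, b1, b2⟩ := a4 j j.2 P hP
    exact a2 x i (lt_of_le_of_lt b1 hij) i.2 (b2.symm.trans h)
  have nz : ∀ j : Fin r, (((σ j).powersetCard k).filter (fun K => c K = e j)).card ≠ 0 := by
    intro j
    obtain ⟨P, b1, b2⟩ := a3 j j.2
    exact Finset.card_ne_zero.2 ⟨P, Finset.mem_filter.2 ⟨b1, b2⟩⟩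
  refine ⟨Equiv.ofBijective _ (Finite.injective_iff_bijective.1 hi), fun j => σ j,
    fun j => a1 j j.2, fun i j h => ?_, z, nz⟩
  rcases lt_trichotomy i j with b | b | b
  · exact absurd ((congrFun h (e j)).symm.trans (z j i b)) (nz j)
  · exact b
  · exact absurd ((congrFun h (e i)).trans (z i j b)) (nz i)

end Pool.Agent.S08767
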