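import Pool.Statements.S08772
import Pool.Agent.H3.Sep
import Pool.Agent.H3.Box

set_option autoImplicit false
open Pool Pool.MP_537007_co

namespace Pool.Agent.S08772

/-- The negation of the preceding statement: There is f : ℕ → ℕ such that every finite graph whose line graph has boxicity at most k (separation dimension at most k) itself has boxicity at most f(k). -/
theorem result :
    ¬ (∃ f : ℕ → ℕ, ∀ (V : Type) [Fintype V] (G : SimpleGraph V) (k : ℕ),
      (∃ l r : G.edgeSet → Fin k → ℝ, (∀ e i, l e i ≤ r e i) ∧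
        ∀ e₁ e₂ : G.edgeSet, e₁ ≠ e₂ →
          (G.lineGraph.Adj e₁ e₂ ↔ ∀ i, max (l e₁ i) (l e₂ i) ≤ min (r e₁ i) (r e₂ i))) →
      ∃ l r : V → Fin (f k) → ℝ, (∀ v i, l v i ≤ r v i) ∧
        ∀ u v : V, u ≠ v →
          (G.Adj u v ↔ ∀ i, max (l u i) (l v i) ≤ min (r u i) (r v i))) := by
  classical
  rintro ⟨F, hF⟩
  obtain ⟨K, hK⟩ := Pool.Agent.H3.Box.growth (4 * F 4)
  obtain ⟨V, hV, G, f, hcol, hsep⟩ := Pool.Agent.H3.Sep.exists_sep (K + 1)
  cases nonempty_fintype V
  obtain ⟨H, hHG, hne, hdeg⟩ := Pool.Agent.H3.Box.exists_sub G K hcol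
  refine Pool.Agent.H3.Box.count_box H (F 4) K hK hne
    (fun u v huv => le_trans (Nat.le_succ K) (hdeg u v huv)) ?_
  intro J hJ
  have hJG : J ≤ G := hJ.trans hHG
  let lo : Sym2 V → Fin 4 → ℝ := fun e i =>
    Sym2.lift ⟨fun a b => min (f i a) (f i b), fun a b => min_comm _ _⟩ e
  let hi : Sym2 V → Fin 4 → ℝ := fun e i =>
    Sym2.lift ⟨fun a b => max (f i a) (f i b), fun a b => max_comm _ _⟩ e
  have hmem : ∀ (e : Sym2 V) (v : V), v ∈ e → ∀ i, lo e i ≤ f i v ∧ f i v ≤ hi e i := by
    intro e v hv i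
    induction e using Sym2.ind with
    | _ a b =>
      simp only [lo, hi, Sym2.lift_mk]
      rcases Sym2.mem_iff.1 hv with rfl | rfl
      · exact ⟨min_le_left _ _, le_max_left _ _⟩
      · exact ⟨min_le_right _ _, le_max_right _ _⟩
  obtain ⟨l, r, h1, h2⟩ := hF V J 4 ⟨fun e => lo e.1, fun e => hi e.1, by
    rintro ⟨e, he⟩ i
    induction e using Sym2.ind with
    | _ a b =>
      simp only [lo, hi, Sym2.lift_mk]
      exact min_le_max, by
    rintro ⟨e₁, he₁⟩ ⟨e₂, he₂⟩ hne
    rw [SimpleGraph.lineGraph_adj_iff_exists]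
    constructor
    · rintro ⟨-, v, hv1, hv2⟩ i
      obtain ⟨a1, a2⟩ := hmem e₁ v hv1 i
      obtain ⟨a3, a4⟩ := hmem e₂ v hv2 i
      exact le_trans (max_le a1 a3) (le_min a2 a4)
    · intro h
      refine ⟨hne, ?_⟩
      by_contra hno
      induction e₁ using Sym2.ind with
      | _ a b =>
        induction e₂ using Sym2.ind with
        | _ x y =>
          have n1 : a ≠ x := fun e => hno ⟨a, by simp, by simp [e]⟩
          have n2 : a ≠ y := fun e => hno ⟨a, by simp, by simp [e]⟩
          have n3 : b ≠ x := fun e => hno ⟨b, by simp, by simp [e]⟩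
          have n4 : b ≠ y := fun e => hno ⟨b, by simp, by simp [e]⟩
          obtain ⟨i, hi'⟩ := hsep a b x y (hJG he₁) (hJG he₂) n1 n2 n3 n4
          have := h i
          simp only [lo, hi, Sym2.lift_mk] at this
          have t1 := le_trans (le_max_left _ _) (this.trans (min_le_right _ _))
          have t2 := le_trans (le_max_right _ _) (this.trans (min_le_left _ _))
          rcases hi' with hi' | hi'
          · exact absurd hi' (not_lt.2 t2)
          · exact absurd hi' (not_lt.2 t1)⟩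
  exact ⟨l, r, fun u v huv => ⟨h2 u v huv, h1⟩⟩

end Pool.Agent.S08772
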