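import Pool.Statements.S08874

set_option autoImplicit false
open Pool Pool.MP_5833ce_co

namespace Pool.Agent.S08874

/-- fourteen vectors of norm one in a seven-dimensional quadratic space over the field with three
elements -/
def vec : Fin 14 → Fin 7 → ZMod 3 :=
  ![![0, 0, 0, 0, 0, 1, 0],
    ![1, 0, 2, 2, 0, 1, 0],
    ![1, 0, 2, 2, 2, 1, 1],
    ![1, 1, 1, 2, 0, 0, 0],
    ![1, 1, 1, 2, 2, 0, 1],
    ![1, 2, 2, 1, 1, 0, 2],
    ![2, 0, 1, 2, 0, 1, 0],
    ![2, 0, 2, 1, 2, 1, 1],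
    ![2, 1, 0, 2, 2, 1, 2],
    ![2, 2, 1, 1, 1, 0, 2],
    ![2, 2, 2, 0, 0, 1, 0],
    ![2, 2, 2, 0, 2, 0, 0],
    ![2, 2, 2, 2, 0, 0, 0],
    ![2, 2, 2, 2, 2, 0, 2]]

def dia : Fin 7 → ZMod 3 := ![1, 1, 1, 1, 1, 1, 2]

def gram (u v : Fin 14) : ZMod 3 := ∑ i, vec u i * (dia i * vec v i)

def gr : SimpleGraph (Fin 14) where
  Adj u v := u ≠ v ∧ gram u v = 1
  symm := ⟨by decide +kernel⟩
  loopless := ⟨fun _ h => h.1 rfl⟩

instance : DecidableRel gr.Adj := fun u v => inferInstanceAs (Decidable (u ≠ v ∧ gram u v = 1))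

theorem gram_eq : ∀ u v : Fin 14,
    gram u v = (if v = u then 1 else 0) + (if gr.Adj u v then 1 else 0) := by decide +kernel

theorem block : ∀ a b c d e g h : ZMod 3, ∃ v : Fin 14,
    ∑ i, vec v i * ![a, b, c, d, e, g, h] i = 0 := by decide +kernel

/-- The negation of the preceding statement: For every k ≥ 2 and every finite simple graph, some labeling of the vertices by integers mod k makes the sum of labels over each vertex's closed neighbourhood nonzero mod k. -/
theorem result :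
    ¬ (∀ k : ℕ, 2 ≤ k →
      ∀ (V : Type) [Fintype V] (G : SimpleGraph V) [DecidableRel G.Adj],
        ∃ f : V → ZMod k, ∀ v : V, f v + ∑ w ∈ G.neighborFinset v, f w ≠ 0) := by
  intro h
  obtain ⟨f, hf⟩ := h 3 (by norm_num) (Fin 14) gr
  let y : Fin 7 → ZMod 3 := fun i => ∑ w, dia i * vec w i * f w
  obtain ⟨v, hv⟩ := block (y 0) (y 1) (y 2) (y 3) (y 4) (y 5) (y 6)
  have e : ![y 0, y 1, y 2, y 3, y 4, y 5, y 6] = y := by
    funext i; fin_cases i <;> rfl
  rw [e] at hv
  apply hf v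
  rw [← hv]
  have e2 : ∑ i, vec v i * y i = ∑ w, gram v w * f w := by
    simp only [y, gram, Finset.mul_sum, Finset.sum_mul]
    rw [Finset.sum_comm]
    exact Finset.sum_congr rfl (fun _ _ => Finset.sum_congr rfl (fun _ _ => by ring))
  rw [e2]
  simp only [gram_eq, add_mul, Finset.sum_add_distrib, ite_mul, one_mul, zero_mul,
    Finset.sum_ite_eq', Finset.mem_univ, if_true]
  rw [SimpleGraph.neighborFinset_eq_filter, Finset.sum_filter]

end Pool.Agent.S08874
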