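import Pool.Statements.S08910

set_option autoImplicit false
open Pool Pool.MP_598d99_co

namespace Pool.Agent.S08910

/-- Colour 1 = edges of the graph C4 + K6 on ten points: points 0,1 | 2,3 span a complete
bipartite graph, points 4,...,9 span a clique. -/
def col (S : Finset (Fin 10)) : Fin 2 :=
  if (∀ x ∈ S, 4 ≤ x.val) ∨ ((∃ x ∈ S, x.val < 2) ∧ (∃ x ∈ S, 2 ≤ x.val ∧ x.val < 4)) then 1 else 0

theorem result :
    ¬ (∀ (N s m : ℕ) (c : Finset (Fin N) → Fin m) (t : ℕ),
      s ≤ t → 2 * (t + 1) ≤ N →
        (((Finset.univ : Finset (Fin N)).powersetCard t).image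
            (fun T : Finset (Fin N) => fun i : Fin m =>
              ((T.powersetCard s).filter (fun S => c S = i)).card)).card
        ≤
        (((Finset.univ : Finset (Fin N)).powersetCard (t + 1)).image
            (fun T : Finset (Fin N) => fun i : Fin m =>
              ((T.powersetCard s).filter (fun S => c S = i)).card)).card) := by
  intro h
  have h1 := h 10 2 2 col 4 (by norm_num) (by norm_num)
  revert h1
  decide +kernel

end Pool.Agent.S08910
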