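import Pool.Statements.S08929
import Pool.Agent.H9.Sym2

set_option autoImplicit false
open Pool Pool.MP_5a7c5b_co

namespace Pool.Agent.S08929

/-- The free group on two generators can be colored with finitely many colors so that no infinite set A with A = g A⁻¹ g (for some g) is monochromatic. -/
theorem result :
    ∃ k : ℕ, ∃ c : FreeGroup (Fin 2) → Fin k,
      ∀ A : Set (FreeGroup (Fin 2)), A.Infinite →
        (∃ g : FreeGroup (Fin 2), A = (fun a => g * a⁻¹ * g) '' A) →
          ¬ ∃ i : Fin k, ∀ a ∈ A, c a = i := by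
  obtain ⟨c, hc⟩ := Pool.Agent.H9.Sym.main
  refine ⟨_, fun x => Fintype.equivFin _ (c x), ?_⟩
  rintro A hA ⟨g, hg⟩ ⟨i, hi⟩
  obtain ⟨M, hM⟩ := hc g
  obtain ⟨x, hx, hx'⟩ := hA.exists_notMem_finite (Pool.Agent.H9.Sym.fin_len M)
  have hy : g * x⁻¹ * g ∈ A := by rw [hg]; exact ⟨x, hx, rfl⟩
  exact hM x (not_lt.1 hx') ((Fintype.equivFin _).injective ((hi x hx).trans (hi _ hy).symm))

end Pool.Agent.S08929
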