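import Pool.Statements.S09017
import Pool.Agent.H10.Anti6
-- import your own Pool.Agent.* helpers here

set_option autoImplicit false
open Classical
open Pool Pool.MP_5d5585_co

namespace Pool.Agent.S09017

/-- For d≥3 there are c1,c2>0 such that for any finite X in R^d of diameter ≤1 with ∣X∣≥c1·ε1^(-d), the pairs at distance ≤ε1 number at least c2·ε1^d·ε2^(-(d+1)/2) (if ε1≤ε2), else c2·ε1^((d-1)/2), times the pairs at distance ≥1−ε2. -/
theorem result :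
    ∀ d : ℕ, 3 ≤ d →
      ∃ c₁ c₂ : ℝ, 0 < c₁ ∧ 0 < c₂ ∧
        ∀ ε₁ ε₂ : ℝ, 0 < ε₁ → ε₁ < 1 → 0 < ε₂ → ε₂ < 1 →
          ∀ X : Finset (EuclideanSpace ℝ (Fin d)),
            (∀ x ∈ X, ∀ y ∈ X, dist x y ≤ 1) →
            c₁ * ε₁ ^ (-(d : ℝ)) ≤ (X.card : ℝ) →
            (ε₁ ≤ ε₂ →
              c₂ * ε₁ ^ (d : ℝ) * ε₂ ^ (-(((d : ℝ) + 1) / 2)) *
                  ((X.offDiag.filter (fun p => 1 - ε₂ ≤ dist p.1 p.2)).card : ℝ)
                ≤ ((X.offDiag.filter (fun p => dist p.1 p.2 ≤ ε₁)).card : ℝ)) ∧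
            (ε₂ < ε₁ →
              c₂ * ε₁ ^ (((d : ℝ) - 1) / 2) *
                  ((X.offDiag.filter (fun p => 1 - ε₂ ≤ dist p.1 p.2)).card : ℝ)
                ≤ ((X.offDiag.filter (fun p => dist p.1 p.2 ≤ ε₁)).card : ℝ)) := by
  intro d hd
  have hfr : Module.finrank ℝ (EuclideanSpace ℝ (Fin d)) = d := by simp
  obtain ⟨c₁, c₂, h1, h2, h⟩ := Pool.Agent.H10.Anti.core (V := EuclideanSpace ℝ (Fin d))
    (by rw [hfr]; omega)
  rw [hfr] at h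
  refine ⟨c₁, c₂, h1, h2, fun ε₁ ε₂ a1 a2 b1 b2 X hX hn => ⟨fun hle => ?_, fun hlt => ?_⟩⟩
  · convert h ε₁ ε₂ a1 hle b2 X hX hn
  · have h3 := h ε₁ ε₁ a1 le_rfl a2 X hX hn
    have h4 : c₂ * ε₁ ^ (d : ℝ) * ε₁ ^ (-(((d : ℝ) + 1) / 2)) = c₂ * ε₁ ^ (((d : ℝ) - 1) / 2) := by
      rw [mul_assoc, ← Real.rpow_add a1]
      congr 2
      ring
    rw [h4] at h3
    refine le_trans ?_ (by convert h3)
    refine mul_le_mul_of_nonneg_left ?_ (by positivity)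
    have : X.offDiag.filter (fun p => 1 - ε₂ ≤ dist p.1 p.2)
        ⊆ X.offDiag.filter (fun p => 1 - ε₁ ≤ dist p.1 p.2) := by
      intro p hp
      rw [Finset.mem_filter] at hp ⊢
      exact ⟨hp.1, by linarith [hp.2]⟩
    exact_mod_cast Finset.card_le_card this

end Pool.Agent.S09017
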