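import Pool.Statements.S09026
import Pool.Agent.H3.Pet36

set_option autoImplicit false
open scoped Classical
open Pool Pool.MP_5dc923_co

namespace Pool.Agent.S09026

/-- The negation of the preceding statement: In a finite bridgeless graph, if an edge weighting is at least 2 everywhere, has even total at each vertex, and no edge exceeds half its cut's weight, then some finite list of cycles covers each edge exactly its weight times. -/
theorem result :
    ¬ (∀ (V : Type) [Fintype V] (G : SimpleGraph V) (w : Sym2 V → ℕ),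
    (∀ a b : V, G.Adj a b → (G \ SimpleGraph.fromEdgeSet {s(a, b)}).Reachable a b) →
    (∀ a b : V, G.Adj a b → 2 ≤ w s(a, b)) →
    (∀ v : V, Even (∑ u : V, if G.Adj v u then w s(v, u) else 0)) →
    (∀ S : Finset V, ∀ a b : V, a ∈ S → b ∉ S → G.Adj a b →
      2 * w s(a, b) ≤
        ∑ u : V, ∑ v : V, if (u ∈ S ∧ v ∉ S ∧ G.Adj u v) then w s(u, v) else 0) →
    ∃ (n : ℕ) (x : Fin n → V) (p : ∀ i, G.Walk (x i) (x i)),
      (∀ i, (p i).IsCycle) ∧
      ∀ a b : V, G.Adj a b →
        (∑ i : Fin n, if s(a, b) ∈ (p i).edges then 1 else 0) = w s(a, b)) := by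
  intro h
  open Pool.Agent.H3.Pet36 in
  obtain ⟨n, x, p, hc, hw⟩ := h (Fin 10) pet wt bridgeless
    (fun a b _ => wf_ge a b)
    (fun v => by
      have := deg_even v
      convert this using 3 with u
      all_goals rfl)
    (fun S a b ha hb _ => by
      have h1 := cut_ge (fun i => decide (i ∈ S)) a b (by simpa using ha) (by simpa using hb)
      have h2 := wf_le a b
      have h3 : (∑ u : Fin 10, ∑ v : Fin 10,
          if (u ∈ S ∧ v ∉ S ∧ pet.Adj u v) then wt s(u, v) else 0) =
          cutw (fun i => decide (i ∈ S)) := by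
        unfold cutw
        refine Finset.sum_congr rfl (fun u _ => Finset.sum_congr rfl (fun v _ => ?_))
        have : (u ∈ S ∧ v ∉ S ∧ pet.Adj u v) ↔
            ((decide (u ∈ S) && !(decide (v ∈ S)) && adjB u v) = true) := by
          simp [pet, and_assoc]
        by_cases hh : (u ∈ S ∧ v ∉ S ∧ pet.Adj u v)
        · rw [if_pos hh, if_pos (this.1 hh)]; rfl
        · rw [if_neg hh, if_neg (fun q => hh (this.2 q))]
      have h4 : 2 * wt s(a, b) ≤ cutw (fun i => decide (i ∈ S)) := le_trans h2 h1
      rw [← h3] at h4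
      convert h4)
  refine Pool.Agent.H3.Pet36.no_cover n x p hc (fun a b hab => ?_)
  have := hw a b hab
  rw [Pool.Agent.H3.Pet36.wt_mk] at this
  rw [← this]
  refine Finset.sum_congr rfl (fun i _ => ?_)
  unfold Pool.Agent.H3.Pet36.ind
  congr

end Pool.Agent.S09026
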