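import Pool.Statements.S09124
import Pool.Agent.H3.Sep

set_option autoImplicit false
open Pool Pool.MP_6142e4_co

namespace Pool.Agent.S09124

/-- The negation of the preceding statement: There is a constant c such that for every finite graph G, any d vertex orderings separating every pair of disjoint edges satisfy d ≥ log₂ χ(G) − c, i.e. separation dimension ≥ log₂ χ(G) − c. -/
theorem result :
    ¬ (∃ c : ℝ, ∀ (n : ℕ) (G : SimpleGraph (Fin n)) (d : ℕ),
      (∃ f : Fin d → Fin n → ℝ,
        ∀ a b x y : Fin n, G.Adj a b → G.Adj x y →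
          a ≠ x → a ≠ y → b ≠ x → b ≠ y →
          ∃ i : Fin d,
            max (f i a) (f i b) < min (f i x) (f i y) ∨
            max (f i x) (f i y) < min (f i a) (f i b)) →
      Real.logb 2 (G.chromaticNumber.toNat : ℝ) - c ≤ (d : ℝ)) := by
  classical
  rintro ⟨c, hc⟩
  obtain ⟨k, hk⟩ := exists_nat_ge ((2 : ℝ) ^ (c + 4))
  obtain ⟨V, hV, G, f, hcol, hsep⟩ := Pool.Agent.H3.Sep.exists_sep k
  obtain ⟨n, ⟨e⟩⟩ := Finite.exists_equiv_fin V
  let G' : SimpleGraph (Fin n) := G.comap e.symm
  have hcol' : ¬ G'.Colorable k := by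
    rintro ⟨C⟩
    apply hcol
    refine ⟨SimpleGraph.Coloring.mk (fun v => C (e v)) ?_⟩
    intro v w hvw
    apply C.valid
    simpa [G'] using hvw
  have h := hc n G' 4 ⟨fun i v => f i (e.symm v), by
    intro a b x y hab hxy h1 h2 h3 h4
    exact hsep _ _ _ _ hab hxy (e.symm.injective.ne h1) (e.symm.injective.ne h2)
      (e.symm.injective.ne h3) (e.symm.injective.ne h4)⟩
  have hlt : k < G'.chromaticNumber.toNat := by
    by_contra hle
    apply hcol'
    exact G'.colorable_chromaticNumber_of_fintype.mono (not_lt.1 hle)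
  have hlt' : (2 : ℝ) ^ (c + 4) < (G'.chromaticNumber.toNat : ℝ) := by
    have : (k : ℝ) < (G'.chromaticNumber.toNat : ℝ) := by exact_mod_cast hlt
    linarith
  have hpos : (0 : ℝ) < (G'.chromaticNumber.toNat : ℝ) := lt_trans (by positivity) hlt'
  have := (Real.lt_logb_iff_rpow_lt (b := 2) (by norm_num) hpos).2 hlt'
  push_cast at h
  linarith

end Pool.Agent.S09124
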