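import Pool.Statements.S09202
import Pool.Agent.H8.StarDec
import Pool.Agent.H8.StarGen

set_option autoImplicit false
open Classical
open Pool Pool.MP_640286_co

namespace Pool.Agent.S09202

/-- The negation of the preceding statement: For every connected graph H with at least two vertices, the maximum over proper labelings f of 1-1/λ(T_f)^2 is exactly the critical edge density: blow-ups with all densities above it contain H transversally, and below it some blow-up avoids H. -/
theorem result :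
    ¬ (∀ n : ℕ, ∀ H : SimpleGraph (Fin (n+2)), H.Connected →
    ∃ B : ℝ,
      B = sSup {β : ℝ | ∃ f : Equiv.Perm (Fin (n+2)),
        (∀ k : Fin (n+2), (H.induce {v | f.symm v ≤ k}).Connected) ∧
        ∃ P : Finset (Finset (Fin (n+2))),
          P = Finset.univ.filter (fun S : Finset (Fin (n+2)) => (0 : Fin (n+2)) ∈ S ∧
                ∀ a ∈ S, ∀ b ∈ S, a < b → (∀ c ∈ S, ¬ (a < c ∧ c < b)) → H.Adj (f a) (f b)) ∧
          β = 1 - ((sSup {q : ℝ | ∃ x : Finset (Fin (n+2)) → ℝ,
                (∑ S ∈ P, x S ^ 2) = 1 ∧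
                q = ∑ S ∈ P, ∑ T ∈ P,
                  (if ((∃ m : Fin (n+2), m ∉ S ∧ (∀ a ∈ S, a < m) ∧ T = insert m S) ∨
                       (∃ m : Fin (n+2), m ∉ T ∧ (∀ a ∈ T, a < m) ∧ S = insert m T))
                   then x S * x T else 0)}) ^ 2)⁻¹} ∧
      (∀ m : ℕ, ∀ π : Fin m → Fin (n+2), ∀ G : SimpleGraph (Fin m),
        Function.Surjective π →
        (∀ x y, G.Adj x y → H.Adj (π x) (π y)) →
        (∀ i j, H.Adj i j →
          B < (Nat.card {p : Fin m × Fin m // π p.1 = i ∧ π p.2 = j ∧ G.Adj p.1 p.2} : ℝ) /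
            ((Nat.card {x : Fin m // π x = i} : ℝ) * (Nat.card {x : Fin m // π x = j} : ℝ))) →
        ∃ a : Fin (n+2) → Fin m, (∀ i, π (a i) = i) ∧ ∀ i j, H.Adj i j → G.Adj (a i) (a j)) ∧
      (∀ d : ℝ, d < B →
        ∃ m : ℕ, ∃ π : Fin m → Fin (n+2), ∃ G : SimpleGraph (Fin m),
          Function.Surjective π ∧
          (∀ x y, G.Adj x y → H.Adj (π x) (π y)) ∧
          (∀ i j, H.Adj i j →
            d < (Nat.card {p : Fin m × Fin m // π p.1 = i ∧ π p.2 = j ∧ G.Adj p.1 p.2} : ℝ) /
              ((Nat.card {x : Fin m // π x = i} : ℝ) * (Nat.card {x : Fin m // π x = j} : ℝ))) ∧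
          ¬ ∃ a : Fin (n+2) → Fin m, (∀ i, π (a i) = i) ∧ ∀ i j, H.Adj i j → G.Adj (a i) (a j))) := by
  intro h
  obtain ⟨B, hB, h2, -⟩ := h 43 H8.StarDec.H H8.StarDec.conn
  have hle : B ≤ 1 - ((399 / 100 : ℝ) ^ 2)⁻¹ := by
    rw [hB]
    apply H8.StarGen.beta_le (n := 43) H8.StarDec.H (399 / 100) (by norm_num) H8.StarDec.om
      H8.StarDec.om_pos
    intro p hp v hv s hs
    have e : s = Finset.univ.filter (fun u => p v < p u ∧ H8.StarDec.H.Adj v u) := by
      ext u
      simp only [hs, Finset.mem_filter, Finset.mem_univ, true_and]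
    rw [e]
    exact H8.StarDec.key p hp v hv
  apply H8.StarDec.no_trans
  apply h2 106 H8.StarDec.pi H8.StarDec.G H8.StarDec.pi_surj (fun x y h => h.1)
  intro i j hij
  rw [H8.StarDec.dens i j hij]
  exact lt_of_le_of_lt hle (by norm_num)

end Pool.Agent.S09202
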