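import Pool.Statements.S09206
import Pool.Agent.H1.HxE

set_option autoImplicit false
open MeasureTheory
open Pool Pool.MP_642e38_co

namespace Pool.Agent.S09206

/-- The negation of the preceding statement: For every n and r > 2/√3, if n points with pairwise distances ≥ 2 minimise the area of the union of radius-r disks about them among all such configurations, then they lie in a congruent copy of the hexagonal lattice with spacing 2. -/
theorem result :
    ¬ (∀ n : ℕ, ∀ r : ℝ, 2 / Real.sqrt 3 < r →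
      ∀ c : Fin n → EuclideanSpace ℝ (Fin 2),
        (Pairwise fun j k => (2 : ℝ) ≤ dist (c j) (c k)) →
        (∀ x : Fin n → EuclideanSpace ℝ (Fin 2),
            (Pairwise fun j k => (2 : ℝ) ≤ dist (x j) (x k)) →
            volume (⋃ i, Metric.closedBall (c i) r) ≤
              volume (⋃ i, Metric.closedBall (x i) r)) →
        ∃ p u v : EuclideanSpace ℝ (Fin 2),
          ‖u‖ = 1 ∧ ‖v‖ = 1 ∧ ‖u - v‖ = 1 ∧
          ∀ i, ∃ a b : ℤ, c i = p + ((2 : ℝ) * (a : ℝ)) • u + ((2 : ℝ) * (b : ℝ)) • v) := by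
  intro H
  refine Pool.Agent.H1.Hx.main fun n X Y hS hm => ?_
  have h3 := Pool.Agent.H1.Hx.s3a
  have hr : 2 / Real.sqrt 3 < (10:ℝ) ^ 26 := by
    rw [div_lt_iff₀ (by linarith)]; nlinarith
  obtain ⟨p, u, v, hu, hv, huv, hL⟩ := H n (10 ^ 26) hr (fun i => !₂[X i, Y i])
    (fun j k hjk => by
      have h1 := hS j k hjk
      have h2 := Pool.Agent.H1.Hx.dsq (!₂[X j, Y j]) (!₂[X k, Y k])
      refine (abs_le_of_sq_le_sq' ?_ dist_nonneg).2
      rw [h2]
      simpa using (show (2:ℝ) ^ 2 ≤ _ by linarith)) 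
    (fun x hx => by
      rw [Pool.Agent.H1.Hx.tr _ (by norm_num), Pool.Agent.H1.Hx.tr _ (by norm_num)]
      refine hm _ _ fun j k hjk => ?_
      have := hx hjk
      rw [← Pool.Agent.H1.Hx.dsq]
      simp only at this
      nlinarith)
  have nq : ∀ w : EuclideanSpace ℝ (Fin 2), ‖w‖ = 1 → w 0 ^ 2 + w 1 ^ 2 = 1 := fun w hw => by
    have := Pool.Agent.H1.Hx.dsq w 0
    rw [dist_zero_right, hw] at this
    simpa using this.symm
  have e1 := nq u hu
  have e2 := nq v hv
  have e3 := nq _ huv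
  simp only [PiLp.sub_apply] at e3
  refine ⟨p 0, p 1, u 0, u 1, v 0, v 1, e1, e2, by linarith, fun i => ?_⟩
  obtain ⟨a, b, h⟩ := hL i
  exact ⟨a, b, by simpa using congrArg (fun w : EuclideanSpace ℝ (Fin 2) => w 0) h,
    by simpa using congrArg (fun w : EuclideanSpace ℝ (Fin 2) => w 1) h⟩

end Pool.Agent.S09206
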