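import Pool.Statements.S09234

set_option autoImplicit false
open Pool Pool.MP_65fa9f_co

namespace Pool.Agent.S09234

/-- the rook graph on a 3 by 3 board -/
def R : SimpleGraph (Fin 3 × Fin 3) where
  Adj a b := a ≠ b ∧ (a.1 = b.1 ∨ a.2 = b.2)
  symm := ⟨by
    intro a b h
    exact ⟨h.1.symm, h.2.imp Eq.symm Eq.symm⟩⟩
  loopless := ⟨by intro a h; exact h.1 rfl⟩

instance : DecidableRel R.Adj := fun a b =>
  inferInstanceAs (Decidable (a ≠ b ∧ (a.1 = b.1 ∨ a.2 = b.2)))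

def col (p : (Fin 3 × Fin 3) × (Fin 3 × Fin 3)) : Fin 3 × Fin 3 :=
  (p.1.1 + p.2.1 + p.2.2, p.1.2 + p.2.1 + p.2.2 + p.2.2)

def enc (a : Fin 3 × Fin 3) : Fin 9 := ⟨3 * a.1.val + a.2.val, by omega⟩

lemma col_ok : ∀ (i : Fin 9) (a b : Fin 3 × Fin 3),
    enc (col (a, b)) = i ∨ (∃ c, R.Adj a c ∧ enc (col (c, b)) = i) ∨
      (∃ c, R.Adj b c ∧ enc (col (a, c)) = i) := by
  decide +kernel

lemma dom3 : ∀ s : Finset (Fin 3 × Fin 3), (∀ v, v ∈ s ∨ ∃ u, R.Adj v u ∧ u ∈ s) → 3 ≤ s.card := by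
  decide +kernel

lemma small (j : ℕ) (g : Fin 3 × Fin 3 → Fin j)
    (h : ∀ (i : Fin j) v, g v = i ∨ ∃ u, R.Adj v u ∧ g u = i) : j ≤ 3 := by
  have h1 : ∀ i : Fin j, 3 ≤ (Finset.univ.filter (fun v => g v = i)).card := by
    intro i
    apply dom3
    intro v
    simpa using h i v
  have h2 := Finset.card_eq_sum_card_fiberwise (f := g) (s := Finset.univ) (t := Finset.univ)
    (fun _ _ => Finset.mem_univ _)
  have h3 : ∑ i : Fin j, 3 ≤ ∑ i : Fin j, (Finset.univ.filter (fun v => g v = i)).card :=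
    Finset.sum_le_sum (fun i _ => h1 i)
  rw [← h2] at h3
  simp at h3
  omega

/-- The negation of the preceding statement: For finite graphs G, H without isolated vertices: if G□H splits into k dominating sets, then for some j, G or H splits into j dominating sets and k ≤ 2j+1; i.e. d(G□H) ≤ 2max(d(G),d(H))+1. -/
theorem result :
    ¬ (∀ (V W : Type) [Fintype V] [Fintype W] (G : SimpleGraph V) (H : SimpleGraph W),
      (∀ v, ∃ u, G.Adj v u) → (∀ w, ∃ x, H.Adj w x) →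
      ∀ k : ℕ,
        (∃ f : V × W → Fin k, ∀ (i : Fin k) (p : V × W),
            f p = i ∨ ∃ q, (G.boxProd H).Adj p q ∧ f q = i) →
        ∃ j : ℕ,
          ((∃ g : V → Fin j, ∀ (i : Fin j) (v : V), g v = i ∨ ∃ u, G.Adj v u ∧ g u = i) ∨
           (∃ h : W → Fin j, ∀ (i : Fin j) (w : W), h w = i ∨ ∃ x, H.Adj w x ∧ h x = i)) ∧
          k ≤ 2 * j + 1) := by
  intro H
  have hn : ∀ v, ∃ u, R.Adj v u := by decide
  obtain ⟨j, hj, hk⟩ := H _ _ R R hn hn 9 ⟨fun p => enc (col p), by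
    rintro i ⟨a, b⟩
    rcases col_ok i a b with h | ⟨c, h1, h2⟩ | ⟨c, h1, h2⟩
    · exact Or.inl h
    · exact Or.inr ⟨(c, b), by simp [h1], h2⟩
    · exact Or.inr ⟨(a, c), by simp [h1], h2⟩⟩
  rcases hj with ⟨g, hg⟩ | ⟨g, hg⟩
  · have := small j g hg; omega
  · have := small j g hg; omega

end Pool.Agent.S09234
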