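import Pool.Statements.S09347
import Pool.Agent.H6.EdM

set_option autoImplicit false
open Pool Pool.MP_6cb088_co

namespace Pool.Agent.S09347

/-- There is a finite triangle-free graph whose eternal domination number (one guard moves per attack) equals its independence number, which is strictly less than its clique covering number (chromatic number of the complement). -/
theorem result :
  ∃ (V : Type) (_ : Fintype V) (_ : DecidableEq V) (G : SimpleGraph V),
    G.CliqueFree 3 ∧
    (∃ F : Set (Finset V), F.Nonempty ∧ ∀ D ∈ F, D.card = G.indepNum ∧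
        ∀ v : V, ∃ u ∈ D, (u = v ∨ G.Adj u v) ∧ insert v (D.erase u) ∈ F) ∧
    (∀ k : ℕ, k < G.indepNum → ¬ ∃ F : Set (Finset V), F.Nonempty ∧ ∀ D ∈ F, D.card = k ∧
        ∀ v : V, ∃ u ∈ D, (u = v ∨ G.Adj u v) ∧ insert v (D.erase u) ∈ F) ∧
    ((G.indepNum : ℕ∞) < Gᶜ.chromaticNumber) := by
  open Pool.Agent.H6.Ed in
  refine ⟨Fin 27, inferInstance, inferInstance, G, ?_,
    ⟨F, ⟨I, I_mem⟩, fun D h => ⟨h.1.trans alpha.symm, closed D h⟩⟩,
    fun k hk ⟨S, h0, h⟩ => hk.not_ge (ind_le G k S h0 h), ?_⟩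
  · intro s hs
    obtain ⟨a, b, c, h1, h2, h3, -⟩ := SimpleGraph.is3Clique_iff.1 hs
    exact Pool.Agent.H6.Ed.tri a b c h1 h2 h3
  · rw [Pool.Agent.H6.Ed.alpha]
    exact not_le.1 fun h => Pool.Agent.H6.Ed.theta (SimpleGraph.chromaticNumber_le_iff_colorable.1 h)

end Pool.Agent.S09347
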