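import Pool.Statements.S09362
import Pool.Agent.H10.Unital
-- import your own Pool.Agent.* helpers here

set_option autoImplicit false
open Pool Pool.MP_6d5213_co

namespace Pool.Agent.S09362

/-- The negation of the preceding statement: There are constants a, b such that every simple matroid representable over a finite field of size q ≥ 4, with no minor isomorphic to the cycle matroid of K4, has at most (a·q + b)·r elements, where r is its rank. -/
theorem result :
    ¬ (∃ a b : ℝ, ∀ (F : Type) [Field F] [Fintype F], 4 ≤ Fintype.card F →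
      ∀ (α : Type) [Fintype α] (M : Matroid α),
        (∃ (n : ℕ) (v : α → (Fin n → F)),
            ∀ I ⊆ M.E, M.Indep I ↔ LinearIndependent F (fun x : I => v x)) →
        (∀ e ∈ M.E, ∀ f ∈ M.E, M.Indep {e, f}) →
        (¬ ∃ N : Matroid α, Matroid.IsMinor N M ∧
            ∃ φ : α → Sym2 (Fin 4), Set.BijOn φ N.E {s | ¬ s.IsDiag} ∧
              ∀ I ⊆ N.E, N.Indep I ↔ (SimpleGraph.fromEdgeSet (φ '' I)).IsAcyclic) →
        ∀ B : Set α, M.IsBase B →
          (M.E.ncard : ℝ) ≤ (a * (Fintype.card F : ℝ) + b) * (B.ncard : ℝ)) := by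
  rintro ⟨a, b, H⟩
  obtain ⟨p, hp1, hp⟩ := Nat.exists_infinite_primes (⌈3 * (|a| + |b|)⌉₊ + 3)
  haveI : Fact p.Prime := ⟨hp⟩
  have hch : ringChar (ZMod p) ≠ 2 := by rw [ZMod.ringChar_zmod_n]; omega
  obtain ⟨d, hd⟩ := FiniteField.exists_nonsquare hch
  haveI : Fact (∀ r : ZMod p, r ^ 2 ≠ d + 0 * r) := ⟨fun r h => hd ⟨r, by
    rw [zero_mul, add_zero] at h; rw [← h, sq]⟩⟩
  have h2 : (2 : ZMod p) ≠ 0 := Ring.two_ne_zero hch
  letI : Fintype (QuadraticAlgebra (ZMod p) d 0) :=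
    Fintype.ofEquiv _ (QuadraticAlgebra.equivProd d 0).symm
  have hcard : Fintype.card (QuadraticAlgebra (ZMod p) d 0) = p * p := by
    rw [Fintype.ofEquiv_card, Fintype.card_prod, ZMod.card]
  let y : QuadraticAlgebra (ZMod p) d 0 × ZMod p → QuadraticAlgebra (ZMod p) d 0 := fun x => x.1
  let z : QuadraticAlgebra (ZMod p) d 0 × ZMod p → QuadraticAlgebra (ZMod p) d 0 := fun x =>
    ⟨-(x.1.re * x.1.re - d * x.1.im * x.1.im) / 2, x.2⟩
  have hinj : ∀ u v, y u = y v → z u = z v → u = v := by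
    intro u v h1 h3
    exact Prod.ext h1 (congrArg QuadraticAlgebra.im h3)
  have hc : ∀ u, z u + star (z u) + y u * star (y u) = 0 := by
    intro u
    ext
    · simp [y, z]; field_simp; ring
    · simp [y, z]; ring
  obtain ⟨B, hB⟩ := (Pool.Agent.H10.Unital.vecM (QuadraticAlgebra (ZMod p) d 0)
    (Pool.Agent.H10.Unital.pt y z)).exists_isBase
  have h := H (QuadraticAlgebra (ZMod p) d 0) (by rw [hcard]; nlinarith) _ _
    ⟨3, Pool.Agent.H10.Unital.pt y z, fun I _ => Pool.Agent.H10.Unital.vecM_indep I⟩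
    (fun e _ f _ => (Pool.Agent.H10.Unital.vecM_indep _).2
      (Pool.Agent.H10.Unital.pt_pair y z hinj e f))
    (Pool.Agent.H10.Unital.no_minor y z hinj hc) B hB
  have h3 : (B.ncard : ℝ) ≤ 3 := by
    exact_mod_cast Pool.Agent.H10.Unital.card_le y z
      ((Pool.Agent.H10.Unital.vecM_indep _).1 hB.indep)
  rw [Pool.Agent.H10.Unital.vecM_E, Set.ncard_univ, Nat.card_eq_fintype_card, Fintype.card_prod,
    hcard, ZMod.card] at h
  push_cast at h
  have h4 : 3 * (|a| + |b|) + 3 ≤ (p : ℝ) := by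
    have h5 := Nat.le_ceil (3 * (|a| + |b|))
    have h6 : ((⌈3 * (|a| + |b|)⌉₊ + 3 : ℕ) : ℝ) ≤ p := by exact_mod_cast hp1
    push_cast at h6
    linarith
  have ha := le_abs_self a
  have hb := le_abs_self b
  have ha0 := abs_nonneg a
  have hb0 := abs_nonneg b
  have hB0 : (0 : ℝ) ≤ B.ncard := Nat.cast_nonneg _
  have hp1' : (1 : ℝ) ≤ p * p := by nlinarith
  have h7 : a * (p * p) + b ≤ (|a| + |b|) * (p * p) := by nlinarith
  have h8 : (a * (p * p) + b) * (B.ncard : ℝ) ≤ (|a| + |b|) * (p * p) * 3 := by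
    calc _ ≤ (|a| + |b|) * (p * p) * (B.ncard : ℝ) := mul_le_mul_of_nonneg_right h7 hB0
      _ ≤ _ := mul_le_mul_of_nonneg_left h3 (by positivity)
  nlinarith

end Pool.Agent.S09362
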