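import Pool.Statements.S09469
import Pool.Agent.H6.Pelt
import Pool.Agent.H6.CycSTS

set_option autoImplicit false
open Pool Pool.MP_72c5f4_co

namespace Pool.Agent.S09469

open Pool.Agent.H6 in
lemma tor_card (n : ℕ) [NeZero n] (hn : 72 ≤ n) (h : n % 6 = 1 ∨ n % 6 = 3) :
    n ≤ 6 * (n / 6) + (CycSTS.tor n).card ∧
      ((CycSTS.tor n).card = 1 ∨ (CycSTS.tor n).card = 3) := by
  have key : (CycSTS.tor n).card =
      ((Finset.range n).filter fun v => 3 * v = 0 ∨ 3 * v = n ∨ 3 * v = 2 * n).card := by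
    refine Finset.card_bij (fun d _ => d.val) ?_ ?_ ?_
    · intro d hd
      have h1 : 3 * d = 0 := by simpa [CycSTS.tor] using hd
      have h2 : ((3 * d.val : ℕ) : ZMod n) = 0 := by simpa using h1
      obtain ⟨c, hc⟩ := (ZMod.natCast_eq_zero_iff _ _).mp h2
      have h3 := ZMod.val_lt d
      have h4 : c < 3 := by
        by_contra h5
        have : n * 3 ≤ n * c := Nat.mul_le_mul_left n (by omega)
        omega
      simp only [Finset.mem_filter, Finset.mem_range]
      refine ⟨h3, ?_⟩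
      interval_cases c <;> omega
    · intro a _ b _ he
      exact ZMod.val_injective n he
    · intro v hv
      simp only [Finset.mem_filter, Finset.mem_range] at hv
      refine ⟨v, ?_, ZMod.val_cast_of_lt hv.1⟩
      have h2 : ((3 * v : ℕ) : ZMod n) = 0 := by
        rcases hv.2 with h | h | h <;> rw [h] <;> simp
      simpa [CycSTS.tor] using h2
  rw [key]
  rcases h with h | h
  · have : ((Finset.range n).filter fun v => 3 * v = 0 ∨ 3 * v = n ∨ 3 * v = 2 * n) = {0} := by
      ext v
      simp only [Finset.mem_filter, Finset.mem_range, Finset.mem_singleton]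
      omega
    rw [this]
    rw [Finset.card_singleton]
    omega
  · have : ((Finset.range n).filter fun v => 3 * v = 0 ∨ 3 * v = n ∨ 3 * v = 2 * n) =
        {0, n / 3, 2 * (n / 3)} := by
      ext v
      simp only [Finset.mem_filter, Finset.mem_range, Finset.mem_singleton, Finset.mem_insert]
      omega
    rw [this, Finset.card_eq_three.mpr ⟨0, n / 3, 2 * (n / 3), by omega, by omega, by omega, rfl⟩]
    omega

open Pool.Agent.H6 in
lemma df (n : ℕ) [NeZero n] (hn : 72 ≤ n) (h : n % 6 = 1 ∨ n % 6 = 3) :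
    ∃ w : Fin (n / 6) → Fin 3 → ZMod n, CycSTS.DF w := by
  obtain ⟨T, h0, h1, h2⟩ := Pelt.exists_good n hn h
  have lt : ∀ t < n / 6, ∀ j, Pelt.val n (T t) j < n := by
    intro t ht j
    have a := h0 t ht
    have b := (h1 t ht 0).1
    unfold Pelt.val at b ⊢
    simp only [if_true] at b
    split_ifs <;> omega
  refine ⟨fun t j => (Pelt.val n (T t) j : ZMod n), fun t => ?_, fun t j he => ?_,
    fun t j t' j' he => ?_, fun t j t' j' he => ?_, by simpa using tor_card n hn h⟩
  · have a := h0 t t.2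
    have : Pelt.val n (T t) 0 + Pelt.val n (T t) 1 + Pelt.val n (T t) 2 = n := by
      simp only [Pelt.val]
      norm_num
      simp only [Fin.ext_iff]
      norm_num
      omega
    have h3 := congrArg (Nat.cast : ℕ → ZMod n) this
    simpa using h3
  · have h3 : ((3 * Pelt.val n (T t) j : ℕ) : ZMod n) = 0 := by simpa using he
    obtain ⟨c, hc⟩ := (ZMod.natCast_eq_zero_iff _ _).mp h3
    have a := h1 t t.2 j
    have b := lt t t.2 j
    have h4 : c < 3 := by
      by_contra h5
      have : n * 3 ≤ n * c := Nat.mul_le_mul_left n (by omega)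
      omega
    interval_cases c <;> omega
  · have h3 := congrArg ZMod.val he
    simp only [ZMod.val_cast_of_lt (lt t t.2 j), ZMod.val_cast_of_lt (lt t' t'.2 j')] at h3
    have := (h2 t t.2 t' t'.2 j j').1 h3
    exact ⟨Fin.ext this.1, this.2⟩
  · have h3 : ((Pelt.val n (T t) j + Pelt.val n (T t') j' : ℕ) : ZMod n) = 0 := by
      push_cast
      simp only at he
      rw [he, neg_add_cancel]
    obtain ⟨c, hc⟩ := (ZMod.natCast_eq_zero_iff _ _).mp h3
    have a := h1 t t.2 j
    have b := lt t t.2 j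
    have b' := lt t' t'.2 j'
    have e := (h2 t t.2 t' t'.2 j j').2
    have h4 : c < 2 := by
      by_contra h5
      have : n * 2 ≤ n * c := Nat.mul_le_mul_left n (by omega)
      omega
    interval_cases c <;> omega

/-- For every M, all sufficiently large n with n ≡ 1 or 3 mod 6 admit at least M pairwise non-isomorphic cyclic Steiner triple systems on Z/nZ, i.e. the number of cyclic STS(n) up to isomorphism tends to infinity. -/
theorem result :
    ∀ M : ℕ, ∃ N : ℕ, ∀ n : ℕ, N ≤ n → (n % 6 = 1 ∨ n % 6 = 3) →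
      ∃ B : Fin M → Finset (Finset (ZMod n)),
        (∀ i, (∀ b ∈ B i, b.card = 3) ∧
          (∀ x y : ZMod n, x ≠ y → ∃! b : Finset (ZMod n), b ∈ B i ∧ x ∈ b ∧ y ∈ b) ∧
          (∀ b ∈ B i, b.image (fun x => x + 1) ∈ B i)) ∧
        (∀ i j, i ≠ j → ¬ ∃ σ : Equiv.Perm (ZMod n),
          ∀ b : Finset (ZMod n), b ∈ B i ↔ b.map σ.toEmbedding ∈ B j) := by
  intro M
  refine ⟨72 + 12 * (12 * M + 1), fun n hn h => ?_⟩
  have : NeZero n := ⟨by omega⟩
  obtain ⟨w, hw⟩ := df n (by omega) h
  refine Pool.Agent.H6.CycSTS.many hw M ?_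
  rw [Fintype.card_fin]
  have h1 : n / 12 < 2 ^ (n / 12) := Nat.lt_two_pow_self
  have h2 : 2 ^ (n / 12) * 2 ^ (n / 12) ≤ 2 ^ (n / 6) := by
    rw [← pow_add]
    exact Nat.pow_le_pow_right (by norm_num) (by omega)
  have h3 : (n / 12 + 1) * (n / 12 + 1) ≤ 2 ^ (n / 12) * 2 ^ (n / 12) := Nat.mul_le_mul h1 h1
  have h4 : 12 * M ≤ n / 12 + 1 := by omega
  have h5 : n ≤ 12 * (n / 12 + 1) := by omega
  calc M * n ≤ M * (12 * (n / 12 + 1)) := Nat.mul_le_mul_left _ h5
    _ = 12 * M * (n / 12 + 1) := by ring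
    _ ≤ (n / 12 + 1) * (n / 12 + 1) := Nat.mul_le_mul_right _ h4
    _ ≤ _ := h3.trans h2

end Pool.Agent.S09469
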