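import Pool.Statements.S09513
import Pool.Agent.H13.Sim

set_option autoImplicit false
open Pool Pool.MP_743f82_co

namespace Pool.Agent.S09513

open Pool.Agent.H13.Sim

def EL : List (Sym2 (Fin 6)) :=
  [s(0,1), s(0,2), s(0,3), s(0,4), s(0,5), s(1,2), s(1,3), s(1,4), s(1,5), s(2,3), s(2,4),
   s(2,5), s(3,4), s(3,5), s(4,5)]

def edge (i : ℕ) : Sym2 (Fin 6) := EL.getD i s(0,1)

theorem edge_inj : ∀ i < 15, ∀ j < 15, edge i = edge j → i = j := by decide
theorem edge_nd : ∀ i < 15, ¬ (edge i).IsDiag := by decide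
theorem edge_surj (e : Sym2 (Fin 6)) (he : ¬ e.IsDiag) : ∃ i < 15, edge i = e := by
  induction e using Sym2.ind with
  | _ a b =>
    rw [Sym2.mk_isDiag_iff] at he
    revert a b
    decide
theorem edge_swap : ∀ t : Fin 5, ∀ i < 15,
    Sym2.map (Equiv.swap t.castSucc t.succ) (edge i) = edge ((g t).getD i 0) := by decide

def S (m : ℕ) : Finset (Sym2 (Fin 6)) :=
  ((Finset.range 15).filter (fun i => m.testBit i = true)).image edge

theorem mem_S {m : ℕ} {e : Sym2 (Fin 6)} : e ∈ S m ↔ ∃ i < 15, m.testBit i = true ∧ edge i = e := by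
  simp [S, and_assoc]

theorem edge_mem_S {m i : ℕ} (hi : i < 15) : edge i ∈ S m ↔ m.testBit i = true := by
  rw [mem_S]
  constructor
  · rintro ⟨j, hj, h1, h2⟩
    rwa [← edge_inj j hj i hi h2]
  · intro h; exact ⟨i, hi, h, rfl⟩

theorem S_or (m : ℕ) {i : ℕ} (hi : i < 15) : S (m ||| 2 ^ i) = insert (edge i) (S m) := by
  ext e
  simp only [Finset.mem_insert, mem_S, Nat.testBit_or, Nat.testBit_two_pow, Bool.or_eq_true,
    decide_eq_true_eq]
  constructor
  · rintro ⟨j, hj, h1 | h1, h2⟩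
    · exact Or.inr ⟨j, hj, h1, h2⟩
    · left; rw [h1, h2]
  · rintro (h | ⟨j, hj, h1, h2⟩)
    · exact ⟨i, hi, Or.inr rfl, h.symm⟩
    · exact ⟨j, hj, Or.inl h1, h2⟩

theorem S_zero : S 0 = ∅ := by simp [S]

def L : Set (Finset (Sym2 (Fin 6))) := {l | ∃ m < 2 ^ 15, U m = true ∧ l = S m}

theorem safe {a : ℕ} (ha : a < 2 ^ 15) (h : U a = false) : ∀ l ∈ L, ¬ l ⊆ S a := by
  rintro l ⟨m, hm, hU, rfl⟩ hsub
  have := U_mono hm ha (fun i hi hb => (edge_mem_S hi).1 (hsub ((edge_mem_S hi).2 hb))) hU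
  rw [h] at this
  exact Bool.false_ne_true this

theorem L_swap (t : Fin 5) : ∀ l ∈ L, l.image (Sym2.map ⇑(Equiv.swap t.castSucc t.succ)) ∈ L := by
  rintro l ⟨m, hm, hU, rfl⟩
  refine ⟨pm (g t) m, pm_lt t.2 m, by rwa [U_inv t.2 hm], ?_⟩
  apply Finset.ext
  intro e
  rw [Finset.mem_image, mem_S]
  constructor
  · rintro ⟨x, hx, h2⟩
    obtain ⟨i, hi, h1, rfl⟩ := mem_S.1 hx
    refine ⟨(g t).getD i 0, g_lt t t.2 i hi, ?_, ?_⟩
    · rwa [pm_bit t.2 _ (g_lt t t.2 i hi), g_inv t t.2 i hi]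
    · rw [← h2, edge_swap t i hi]
  · rintro ⟨i, hi, h1, rfl⟩
    rw [pm_bit t.2 _ hi] at h1
    refine ⟨_, mem_S.2 ⟨_, g_lt t t.2 i hi, h1, rfl⟩, ?_⟩
    rw [edge_swap t _ (g_lt t t.2 i hi), g_inv t t.2 i hi]

theorem L_perm (σ : Equiv.Perm (Fin 6)) : ∀ l ∈ L, l.image (Sym2.map ⇑σ) ∈ L := by
  have hσ : σ ∈ Submonoid.closure
      (Set.range fun i : Fin 5 => Equiv.swap i.castSucc i.succ) := by
    rw [Equiv.Perm.mclosure_swap_castSucc_succ 5]; trivial
  induction hσ using Submonoid.closure_induction with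
  | mem x hx => obtain ⟨t, rfl⟩ := hx; exact L_swap t
  | one => intro l hl; simpa using hl
  | mul x y _ _ hx hy =>
    intro l hl
    have := hx _ (hy l hl)
    rw [Finset.image_image] at this
    convert this using 2
    ext e : 1
    simp [Sym2.map_map]

theorem result :
  ∃ (n : ℕ) (L : Set (Finset (Sym2 (Fin n)))),
    (∀ ℓ ∈ L, ℓ.Nonempty ∧ ∀ x ∈ ℓ, ¬ x.IsDiag) ∧
    (∀ σ : Equiv.Perm (Fin n), ∀ ℓ ∈ L, ℓ.image (Sym2.map ⇑σ) ∈ L) ∧
    ∃ W : Set (Finset (Sym2 (Fin n)) × Finset (Sym2 (Fin n))),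
      ((∅ : Finset (Sym2 (Fin n))), (∅ : Finset (Sym2 (Fin n)))) ∈ W ∧
      ∀ p ∈ W,
        (p.1.card = p.2.card →
          ∃ e : Sym2 (Fin n), ¬ e.IsDiag ∧ e ∉ p.1 ∧ e ∉ p.2 ∧
            (∀ ℓ ∈ L, ¬ ℓ ⊆ insert e p.1) ∧ (insert e p.1, p.2) ∈ W) ∧
        (p.1.card = p.2.card + 1 →
          (∃ e : Sym2 (Fin n), ¬ e.IsDiag ∧ e ∉ p.1 ∧ e ∉ p.2) ∧
          ∀ e : Sym2 (Fin n), ¬ e.IsDiag → e ∉ p.1 → e ∉ p.2 →
            (∃ ℓ ∈ L, ℓ ⊆ insert e p.2) ∨ (p.1, insert e p.2) ∈ W) := by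
  refine ⟨6, L, ?_, L_perm, {p | ∃ k a b, a < 2 ^ 15 ∧ b < 2 ^ 15 ∧ p = (S a, S b) ∧
    (((S a).card = (S b).card + 1 ∧ WinS k a b) ∨ ((S a).card = (S b).card ∧
      ∃ j < 15, a.testBit j = false ∧ b.testBit j = false ∧ WinS k (a ||| 2 ^ j) b))}, ?_, ?_⟩
  · rintro l ⟨m, hm, hU, rfl⟩
    constructor
    · rw [Finset.nonempty_iff_ne_empty]
      intro h
      have := safe (a := 0) (by norm_num) U_zero (S m) ⟨m, hm, hU, rfl⟩
      exact this (by rw [h]; exact Finset.empty_subset _)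
    · intro x hx
      obtain ⟨i, hi, _, rfl⟩ := mem_S.1 hx
      exact edge_nd i hi
  · exact ⟨7, 0, 0, by norm_num, by norm_num, by rw [S_zero], Or.inr ⟨rfl, 0, by norm_num,
      by simp, by simp, by simpa using start⟩⟩
  · rintro p ⟨k, a, b, ha, hb, rfl, h⟩
    constructor
    · intro hc
      rcases h with ⟨h1, _⟩ | ⟨_, j, hj, hja, hjb, hw⟩
      · simp only at hc; omega
      · have hna : edge j ∉ S a := by rw [edge_mem_S hj]; simp [hja]
        have hnb : edge j ∉ S b := by rw [edge_mem_S hj]; simp [hjb]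
        refine ⟨edge j, edge_nd j hj, hna, hnb, ?_, ?_⟩
        · simp only
          rw [← S_or a hj]
          cases k with
          | zero => exact hw.elim
          | succ k => exact safe (or_lt ha hj) hw.1
        · refine ⟨k, a ||| 2 ^ j, b, or_lt ha hj, hb, by rw [S_or a hj], Or.inl ⟨?_, hw⟩⟩
          rw [S_or a hj, Finset.card_insert_of_notMem hna]
          simp only at hc; omega
    · intro hc
      rcases h with ⟨_, hw⟩ | ⟨h1, _⟩
      · cases k with
        | zero => exact hw.elim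
        | succ k =>
          obtain ⟨_, ⟨i, hi, hia, hib⟩, h3⟩ := hw
          constructor
          · exact ⟨edge i, edge_nd i hi, by rw [edge_mem_S hi]; simp [hia],
              by rw [edge_mem_S hi]; simp [hib]⟩
          · intro e he hea heb
            obtain ⟨i, hi, rfl⟩ := edge_surj e he
            have hia : a.testBit i = false := by simpa [edge_mem_S hi] using hea
            have hib : b.testBit i = false := by simpa [edge_mem_S hi] using heb
            rcases h3 i hi hia hib with h4 | ⟨j, hj, hja, hjb, hw⟩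
            · left
              exact ⟨S (b ||| 2 ^ i), ⟨_, or_lt hb hi, h4, rfl⟩, by rw [S_or b hi]⟩
            · right
              refine ⟨k, a, b ||| 2 ^ i, ha, or_lt hb hi, by rw [S_or b hi],
                Or.inr ⟨?_, j, hj, hja, hjb, hw⟩⟩
              rw [S_or b hi, Finset.card_insert_of_notMem heb]
              exact hc
      · simp only at hc; omega

end Pool.Agent.S09513
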