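import Pool.Statements.S09522
import Pool.Agent.H10.Pebble

set_option autoImplicit false
open Pool Pool.MP_74a576_co

namespace Pool.Agent.S09522

/-- The negation of the preceding statement: There is a constant c such that for every finite connected graph and every t ≥ 1, t times the optimal pebbling number is at most c times the optimal t-pebbling number, i.e. optimal pebbling number ≤ c · fractional optimal pebbling number. -/
theorem result :
    ¬ (∃ c : ℕ, ∀ (V : Type) [Fintype V] [DecidableEq V] (G : SimpleGraph V), G.Connected →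
      ∀ t : ℕ, 1 ≤ t → ∀ D : V → ℕ,
        (∀ r : V, ∃ D' : V → ℕ,
            Relation.ReflTransGen
              (fun A B : V → ℕ => ∃ u v : V, G.Adj u v ∧ 2 ≤ A u ∧
                B = Function.update (Function.update A u (A u - 2)) v (A v + 1)) D D' ∧
            t ≤ D' r) →
        ∃ E : V → ℕ,
          (∀ r : V, ∃ E' : V → ℕ,
              Relation.ReflTransGen
                (fun A B : V → ℕ => ∃ u v : V, G.Adj u v ∧ 2 ≤ A u ∧
                  B = Function.update (Function.update A u (A u - 2)) v (A v + 1)) E E' ∧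
              1 ≤ E' r) ∧
          t * ∑ v, E v ≤ c * ∑ v, D v) := by
  rintro ⟨c, hc⟩
  classical
  obtain ⟨V, hV, σ, v0, hσ, hconn, hfree⟩ := Pool.Agent.H10.Cubic.exists_system (16 * c + 1)
  have := Fintype.ofFinite V
  have hne : ∀ i v, σ i v ≠ v := by
    intro i v h
    have := hfree v [i] [] ⟨by simp, by simp⟩ ⟨by simp, by simp⟩ h
    simp at this
  have hG : (Pool.Agent.H10.Pebble.gr σ hσ).Connected := by
    have : Nonempty V := ⟨v0⟩
    have h1 : ∀ w, (Pool.Agent.H10.Pebble.gr σ hσ).Reachable v0
        (Pool.Agent.H10.Cubic.act σ w v0) := by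
      intro w
      induction w with
      | nil => exact .refl _
      | cons i w ih =>
        exact ih.trans (SimpleGraph.Adj.reachable ⟨(hne i _).symm, i, rfl⟩)
    refine ⟨fun u v => ?_⟩
    obtain ⟨w, rfl⟩ := hconn u
    obtain ⟨w', rfl⟩ := hconn v
    exact (h1 w).symm.trans (h1 w')
  obtain ⟨E, hE, hle⟩ := hc V _ hG ((16 * c + 1 + 1) * 2 ^ (16 * c + 1))
    (Nat.mul_pos (by omega) (by positivity)) (fun _ => 2 ^ (16 * c + 1))
    (Pool.Agent.H10.Pebble.upper (16 * c + 1) σ hσ hne hfree)
  have h2 := Pool.Agent.H10.Pebble.lower σ hσ E hE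
  have h3 : 0 < Fintype.card V := Fintype.card_pos_iff.2 ⟨v0⟩
  simp only [Finset.sum_const, Finset.card_univ, smul_eq_mul] at hle
  have h4 : 0 < 2 ^ (16 * c + 1) := by positivity
  generalize 2 ^ (16 * c + 1) = p at hle h4
  generalize ∑ v, E v = e at hle h2
  generalize Fintype.card V = n at hle h2 h3
  have h5 : (16 * c + 1 + 1) * e ≤ c * n := by
    refine Nat.le_of_mul_le_mul_left ?_ h4
    nlinarith
  nlinarith

end Pool.Agent.S09522
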