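import Pool.Statements.S09566
import Pool.Agent.H10.IEop
-- import your own Pool.Agent.* helpers here

set_option autoImplicit false
open Pool Pool.MP_766cb7_co

namespace Pool.Agent.S09566

/-- The negation of the preceding statement: Let f on subsets of S be increasing, monotone, idempotent and have the exchange property, and satisfy (C) and (H) with independent and spanning defined via f. Then some matroid (B-matroid) on S has closure equal to f. -/
theorem result :
    ¬ (∀ (α : Type) (S : Set α) (f : Set α → Set α),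
      (∀ X, X ⊆ S → f X ⊆ S) →
      (∀ X, X ⊆ S → X ⊆ f X) →
      (∀ X Y, X ⊆ Y → Y ⊆ S → f X ⊆ f Y) →
      (∀ X, X ⊆ S → f (f X) = f X) →
      (∀ X, X ⊆ S → ∀ p ∈ S, ∀ q, q ∈ f (insert p X) → q ∉ f X → p ∈ f (insert q X)) →
      (∀ Y, Y ⊆ S → ∀ p ∈ f Y, ∃ U : Set α,
          Minimal (fun W : Set α => W ⊆ Y ∧ p ∈ f W) U ∧
          ∀ x ∈ U, x ∉ f (U \ {x})) →
      (∀ Y, Y ⊆ S → ∀ p ∈ S, p ∉ f Y → ∃ V : Set α,
          Maximal (fun W : Set α => Y ⊆ W ∧ W ⊆ S ∧ p ∉ f W) V ∧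
          f (insert p V) = S) →
      ∃ M : Matroid α, M.E = S ∧ ∀ X, X ⊆ S → M.closure X = f X) := by
  intro H
  obtain ⟨𝓑, hg, hne, hc, hY, hV⟩ := Pool.Agent.H10.IEop.exists_family
  obtain ⟨M, hE, hcl⟩ := H Pool.Agent.H10.IEop.S Set.univ (Pool.Agent.H10.IEop.op 𝓑)
    (fun _ _ => Set.subset_univ _)
    (fun X _ => Pool.Agent.H10.IEop.op_ext X)
    (fun _ _ h _ => Pool.Agent.H10.IEop.op_mono h)
    (fun X _ => Pool.Agent.H10.IEop.op_idem X)
    (by
      intro X _ p _ q h1 h2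
      have h3 : q ∉ Pool.Agent.H10.IEop.op 𝓑 (insert p X \ {p}) := fun h =>
        h2 (Pool.Agent.H10.IEop.op_mono (by
          rintro y ⟨hy | hy, hy'⟩
          · exact absurd hy hy'
          · exact hy) h)
      obtain ⟨x, hx, hx'⟩ := Pool.Agent.H10.IEop.op_cl4 hg {p} (insert p X) q h1 h3
      obtain rfl : x = p := hx
      refine Pool.Agent.H10.IEop.op_mono (Set.insert_subset_insert ?_) hx'
      rintro y ⟨hy | hy, hy'⟩
      · exact absurd hy hy'
      · exact hy)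
    (fun Y _ p hp => Pool.Agent.H10.IEop.op_C hg hne Y p hp)
    (by
      intro Y _ p _ hp
      obtain ⟨V, h1, h2⟩ := Pool.Agent.H10.IEop.op_H hg hc Y p hp
      refine ⟨V, ?_, h2⟩
      simpa using h1)
  have hcl' : ∀ X, M.closure X = Pool.Agent.H10.IEop.op 𝓑 X := fun X => hcl X (Set.subset_univ _)
  have hind : M.Indep Pool.Agent.H10.IEop.Y0 := by
    rw [Matroid.indep_iff_forall_notMem_closure_sdiff (by rw [hE]; exact Set.subset_univ _)]
    intro e he
    rw [hcl', Pool.Agent.H10.IEop.op_of_nsp]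
    · exact fun h => h.2 rfl
    · rintro ⟨B, hB, h⟩
      exact hY ⟨B, hB, h.trans Set.sdiff_subset⟩
  obtain ⟨I, hI, hYI⟩ := hind.subset_isBasis_of_subset (X := Pool.Agent.H10.IEop.X0)
    (fun x hx => Or.inl hx) (by rw [hE]; exact Set.subset_univ _)
  rcases hV I hYI hI.subset with ⟨x, hx, B, hB, hsub⟩ | h
  · apply hI.indep.notMem_closure_sdiff_of_mem hx
    rw [hcl', Pool.Agent.H10.IEop.op_of_sp ⟨B, hB, hsub⟩]
    trivial
  · have hp : ((0, 0) : Pool.Agent.H10.IEop.S) ∈ Pool.Agent.H10.IEop.Y0 := rfl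
    obtain ⟨h1, h2⟩ := h (0, 0) (Or.inl hp)
    rw [Set.insert_eq_of_mem (hYI hp)] at h1 h2
    apply h2
    have := hI.subset_closure
    rwa [hcl', Pool.Agent.H10.IEop.op_of_nsp h1] at this

end Pool.Agent.S09566
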