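import Pool.Statements.S09613
import Pool.Agent.H13.SqFree

set_option autoImplicit false
open Pool Pool.MP_78b1ee_co Pool.Agent.H13.SqFree

namespace Pool.Agent.S09613

/-- For every N there is a list of distinct rationals of length at least N with no two adjacent order-isomorphic blocks of length at least 2, such that inserting any new value at any position creates such a pair. -/
theorem result :
    ∀ N : ℕ, ∃ w : List ℚ, N ≤ w.length ∧ w.Nodup ∧
      (¬ ∃ i ℓ : ℕ, 2 ≤ ℓ ∧ i + 2 * ℓ ≤ w.length ∧
          ∀ a < ℓ, ∀ b < ℓ,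
            (w.getD (i + a) 0 < w.getD (i + b) 0 ↔
              w.getD (i + ℓ + a) 0 < w.getD (i + ℓ + b) 0)) ∧
      ∀ p : ℕ, p ≤ w.length → ∀ x : ℚ, x ∉ w →
        ∃ i ℓ : ℕ, 2 ≤ ℓ ∧ i + 2 * ℓ ≤ w.length + 1 ∧
          ∀ a < ℓ, ∀ b < ℓ,
            ((w.take p ++ x :: w.drop p).getD (i + a) 0 <
                (w.take p ++ x :: w.drop p).getD (i + b) 0 ↔
              (w.take p ++ x :: w.drop p).getD (i + ℓ + a) 0 <
                (w.take p ++ x :: w.drop p).getD (i + ℓ + b) 0) := by
  intro N
  obtain ⟨s, T, h1, h2⟩ := good N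
  have h3 := Wgood h1 h2
  refine ⟨(List.range (173 + 32 * N)).map (fun i => (W s T (173 + 32 * N) i : ℚ)), ?_, ?_, ?_, ?_⟩
  · simp only [List.length_map, List.length_range]
    omega
  · refine List.Nodup.map_on (fun x hx y hy e => ?_) List.nodup_range
    exact h3.2.1 x (List.mem_range.1 hx) y (List.mem_range.1 hy) (by exact_mod_cast e)
  · rintro ⟨i, l, a1, a2, a3⟩
    simp only [List.length_map, List.length_range] at a2
    refine h3.1 i l a1 a2 (fun a ha b hb => ?_)
    have := a3 a ha b hb
    rw [getD_map _ _ _ (by omega), getD_map _ _ _ (by omega), getD_map _ _ _ (by omega),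
      getD_map _ _ _ (by omega)] at this
    exact_mod_cast this
  · intro p hp x hx
    simp only [List.length_map, List.length_range] at hp ⊢
    obtain ⟨i, l, a1, a2, a3⟩ := extremal h1 h2 p hp x (fun i hi e =>
      hx (List.mem_map.2 ⟨i, List.mem_range.2 hi, e⟩))
    refine ⟨i, l, a1, a2, fun a ha b hb => ?_⟩
    rw [getD_ins _ _ _ _ _ hp (by omega), getD_ins _ _ _ _ _ hp (by omega),
      getD_ins _ _ _ _ _ hp (by omega), getD_ins _ _ _ _ _ hp (by omega)]
    exact a3 a ha b hb

end Pool.Agent.S09613
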