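import Pool.Statements.S09674
import Pool.Agent.H6.Tw

set_option autoImplicit false
open Pool Pool.MP_7c3aa9_co

namespace Pool.Agent.S09674

/-- The negation of the preceding statement: For every graph G of treewidth exactly two, the max number of triples on n points with no copy of the 3-uniform expansion of G is asymptotic to (σ(G)−1)·C(n,2), where σ(G) is the minimum crosscut size of that expansion. -/
theorem result :
    ¬ (∀ (k : ℕ) (G : SimpleGraph (Fin k)),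
    (∃ (m : ℕ) (T : SimpleGraph (Fin m)) (B : Fin m → Finset (Fin k)),
      T.IsTree ∧ (∀ i, (B i).card ≤ 3) ∧ (∀ v, ∃ i, v ∈ B i) ∧
      (∀ u v, G.Adj u v → ∃ i, u ∈ B i ∧ v ∈ B i) ∧
      (∀ v, (T.induce {i | v ∈ B i}).Connected)) →
    ¬ (∃ (m : ℕ) (T : SimpleGraph (Fin m)) (B : Fin m → Finset (Fin k)),
      T.IsTree ∧ (∀ i, (B i).card ≤ 2) ∧ (∀ v, ∃ i, v ∈ B i) ∧
      (∀ u v, G.Adj u v → ∃ i, u ∈ B i ∧ v ∈ B i) ∧
      (∀ v, (T.induce {i | v ∈ B i}).Connected)) →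
    Asymptotics.IsEquivalent Filter.atTop
      (fun n : ℕ => ((sSup {c : ℕ | ∃ H : Finset (Finset (Fin n)),
          (∀ h ∈ H, h.card = 3) ∧
          ¬ (∃ (φ : Fin k → Fin n) (w : Fin k → Fin k → Fin n),
              Function.Injective φ ∧
              (∀ u v, G.Adj u v →
                (∀ x, w u v ≠ φ x) ∧ ({φ u, φ v, w u v} : Finset (Fin n)) ∈ H) ∧
              (∀ u v u' v', G.Adj u v → G.Adj u' v' → w u v = w u' v' →
                (u = u' ∧ v = v') ∨ (u = v' ∧ v = u'))) ∧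
          H.card = c} : ℕ) : ℝ))
      (fun n : ℕ => (((sInf {c : ℕ | ∃ S : Finset (Fin k),
          (∀ u ∈ S, ∀ v ∈ S, ¬ G.Adj u v) ∧
          c = S.card + {e ∈ G.edgeSet | ∀ v ∈ e, v ∉ S}.ncard} : ℕ) : ℝ) - 1)
        * ((n.choose 2 : ℕ) : ℝ))) := by
  intro h
  refine Pool.Agent.H6.Tw.not_equiv _ _ Pool.Agent.H6.Tw.sigma_le (fun a => ?_)
    (h 25 Pool.Agent.H6.Tw.G Pool.Agent.H6.Tw.width2 Pool.Agent.H6.Tw.not_width1)
  refine le_csSup ⟨Fintype.card (Finset (Fin (9 + a + a))), ?_⟩ ⟨Pool.Agent.H6.Tw.tp 9 a, Pool.Agent.H6.Tw.tp_three 9 a,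
    Pool.Agent.H6.Tw.free a, Pool.Agent.H6.Tw.tp_card 9 a⟩
  rintro c ⟨H, -, -, rfl⟩
  exact Finset.card_le_univ H

end Pool.Agent.S09674
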