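import Pool.Statements.S09704
import Pool.Agent.H3.St1
import Pool.Agent.H3.St2

set_option autoImplicit false
open Pool Pool.MP_7de4e5_co

namespace Pool.Agent.S09704

open Pool.Agent.H3.St

noncomputable def cl (a : ℝ) : ℝ := max 0 (min 1 (a / √3))

theorem cl_mem (a : ℝ) : 0 ≤ cl a ∧ cl a ≤ 1 :=
  ⟨le_max_left _ _, max_le zero_le_one (min_le_left _ _)⟩

theorem cl_lip (a b : ℝ) : 3 * (cl a - cl b) ^ 2 ≤ (a - b) ^ 2 := by
  have h3 : (0 : ℝ) < √3 := by positivity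
  have h : |cl a - cl b| ≤ |a / √3 - b / √3| := by
    unfold cl
    refine (abs_max_sub_max_le_max _ _ _ _).trans (max_le (by simp) ?_)
    refine (abs_min_sub_min_le_max _ _ _ _).trans (max_le (by simp) le_rfl)
  have h2 := sq_le_sq.2 h
  rw [← sub_div, div_pow, Real.sq_sqrt (by norm_num)] at h2
  linarith

theorem cl_py (i : ℕ) : cl (√3 * py i) = py i := by
  have h3 : (0 : ℝ) < √3 := by positivity
  unfold cl
  rw [mul_div_cancel_left₀ _ h3.ne', min_eq_right (py_mem i).2, max_eq_right (py_mem i).1]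

noncomputable def pt (i : ℕ) : EuclideanSpace ℝ (Fin 2) := !₂[√3 * py i, px i]

noncomputable def φ (t : ℕ) (z : EuclideanSpace ℝ (Fin 2)) : ℝ := √3 * F t (z 1) (cl (z 0))

theorem φ_lip (V : Finset ℕ) (x z : EuclideanSpace ℝ (Fin 2)) :
    ∑ t ∈ V, (φ t x - φ t z) ≤ dist x z := by
  have h := lip V (x 1) (cl (x 0)) (z 1) (cl (z 0)) (cl_mem _).1 (cl_mem _).2 (cl_mem _).1
    (cl_mem _).2
  unfold φ
  rw [Finset.sum_sub_distrib, ← Finset.mul_sum, ← Finset.mul_sum, ← mul_sub]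
  refine (mul_le_mul_of_nonneg_left h (Real.sqrt_nonneg 3)).trans ?_
  rw [EuclideanSpace.dist_eq, Q, ← Real.sqrt_mul (by norm_num)]
  refine Real.sqrt_le_sqrt ?_
  simp only [Fin.sum_univ_two, Real.dist_eq, sq_abs]
  linarith [cl_lip (x 0) (z 0)]

/-- The negation of the preceding statement: For every ε>0, for all large n, any n points in a √3 by (n−1) rectangle lie in a connected plane set of 1-dimensional Hausdorff measure at most √3(n−1)+ε. -/
theorem result :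
    ¬ (∀ ε : ℝ, 0 < ε → ∃ N : ℕ, ∀ n : ℕ, N ≤ n →
      ∀ P : Fin n → EuclideanSpace ℝ (Fin 2),
        (∀ i, 0 ≤ P i 0 ∧ P i 0 ≤ Real.sqrt 3 ∧ 0 ≤ P i 1 ∧ P i 1 ≤ (n : ℝ) - 1) →
        ∃ S : Set (EuclideanSpace ℝ (Fin 2)), IsConnected S ∧ (∀ i, P i ∈ S) ∧
          MeasureTheory.Measure.hausdorffMeasure 1 S ≤
            ENNReal.ofReal (Real.sqrt 3 * ((n : ℝ) - 1) + ε)) := by
  intro h
  obtain ⟨N, hN⟩ := h (1 / 20) (by norm_num)
  have h3 : (1 : ℝ) < √3 := Real.lt_sqrt_of_sq_lt (by norm_num)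
  obtain ⟨S, hS, hP, hμ⟩ := hN (N + 3) (by omega) (fun i => pt i) (by
    intro i
    have hy := py_mem i
    have hi : ((i : ℕ) : ℝ) + 1 ≤ ((N + 3 : ℕ) : ℝ) := by exact_mod_cast i.2
    have hi0 : (0 : ℝ) ≤ ((i : ℕ) : ℝ) := Nat.cast_nonneg _
    have e0 : pt i 0 = √3 * py i := rfl
    have e1 : pt i 1 = px i := rfl
    rw [e0, e1]
    refine ⟨by nlinarith, by nlinarith, ?_, ?_⟩ <;> unfold px <;> split_ifs <;> linarith)
  have lb := steiner_lb S hS.isPreconnected (pt 0) (hP ⟨0, by omega⟩) (Finset.range (N + 2))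
    (fun t => pt (t + 1)) (fun t ht => hP ⟨t + 1, by simpa using ht⟩) φ φ_lip
  have e : ∑ t ∈ Finset.range (N + 2), (φ t (pt (t + 1)) - φ t (pt 0)) =
      √3 * (N + 2 + 1 / 20) := by
    rw [← total N, Finset.mul_sum]
    refine Finset.sum_congr rfl fun t _ => ?_
    have a0 : ∀ i, pt i 0 = √3 * py i := fun _ => rfl
    have a1 : ∀ i, pt i 1 = px i := fun _ => rfl
    have b0 : px 0 = 0 := by simp [px]
    have b1 : py 0 = 0 := by simp [py]
    simp only [φ, a0, a1, cl_py]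
    rw [b0, b1]
    ring
  rw [e] at lb
  have hN0 : (0 : ℝ) ≤ N := Nat.cast_nonneg _
  have := (ENNReal.ofReal_le_ofReal_iff (by push_cast; nlinarith)).1 (lb.trans hμ)
  push_cast at this
  nlinarith

end Pool.Agent.S09704
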