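import Pool.Statements.S09708

set_option autoImplicit false
open Pool Pool.MP_7e478a_co

namespace Pool.Agent.S09708

def Att {n : ℕ} (x y : Fin 3 → Fin n) : Prop :=
  ∃ t : ℤ, t ≠ 0 ∧ ∃ v : Fin 3 → ℤ, v ≠ 0 ∧ (∀ i, v i = -1 ∨ v i = 0 ∨ v i = 1) ∧
    ∀ i, ((y i : ℕ) : ℤ) - ((x i : ℕ) : ℤ) = t * v i

def g (p : ℕ) (hp : 0 < p) (a b : Fin p) : Fin 3 → Fin p :=
  ![⟨(6 * p - 2 * a - 4 * b) % p, Nat.mod_lt _ hp⟩, a, b]

lemma g_dvd (p : ℕ) (hp : 0 < p) (a b : Fin p) :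
    (p : ℤ) ∣ (g p hp a b 0 : ℕ) + 2 * (a : ℕ) + 4 * (b : ℕ) := by
  have h1 := Nat.mod_add_div (6 * p - 2 * a - 4 * b) p
  have ha := a.2
  have hb := b.2
  have h2 : (6 * p - 2 * a - 4 * b) % p + 2 * a + 4 * b + p * ((6 * p - 2 * a - 4 * b) / p) =
    6 * p := by omega
  refine ⟨6 - ((6 * p - 2 * a - 4 * b) / p : ℕ), ?_⟩
  have h3 := congrArg (Nat.cast : ℕ → ℤ) h2
  simp only [g, Matrix.cons_val_zero]
  simp only [Nat.cast_add, Nat.cast_mul, Nat.cast_ofNat] at h3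
  linear_combination h3

lemma g_na (p : ℕ) (hp : p.Prime) (h11 : 11 ≤ p) (a b a' b' : Fin p) :
    ¬ Att (g p hp.pos a b) (g p hp.pos a' b') := by
  rintro ⟨t, ht, v, hv, hv', h⟩
  have d := (g_dvd p hp.pos a' b').sub (g_dvd p hp.pos a b)
  have h0 := h 0
  have h1 : ((a' : ℕ) : ℤ) - (a : ℕ) = t * v 1 := h 1
  have h2 : ((b' : ℕ) : ℤ) - (b : ℕ) = t * v 2 := h 2
  have e : ((g p hp.pos a' b' 0 : ℕ) : ℤ) + 2 * (a' : ℕ) + 4 * (b' : ℕ) -
      ((g p hp.pos a b 0 : ℕ) + 2 * (a : ℕ) + 4 * (b : ℕ)) = t * (v 0 + 2 * v 1 + 4 * v 2) := by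
    linear_combination h0 + 2 * h1 + 4 * h2
  rw [e] at d
  obtain ⟨i, hi⟩ := Function.ne_iff.1 hv
  have hne : v 0 + 2 * v 1 + 4 * v 2 ≠ 0 := by
    have := hv' 0; have := hv' 1; have := hv' 2
    fin_cases i <;> simp at hi <;> omega
  rcases (Nat.prime_iff_prime_int.1 hp).dvd_or_dvd d with d | d
  · have := Int.le_abs_of_dvd ht d
    have k := h i
    have k1 := (g p hp.pos a' b' i).2
    have k2 := (g p hp.pos a b i).2
    rcases hv' i with q | q | q
    · rw [q] at k; rcases abs_cases t with w | w <;> omega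
    · exact hi q
    · rw [q] at k; rcases abs_cases t with w | w <;> omega
  · have := Int.le_abs_of_dvd hne d
    have := hv' 0; have := hv' 1; have := hv' 2
    rcases abs_cases (v 0 + 2 * v 1 + 4 * v 2) with w | w <;> omega

lemma att_symm {n : ℕ} {x y : Fin 3 → Fin n} (h : Att x y) : Att y x := by
  obtain ⟨t, ht, v, hv, hv', h⟩ := h
  exact ⟨-t, neg_ne_zero.2 ht, v, hv, hv', fun i => by linear_combination -h i⟩

lemma att_axis {n : ℕ} (x y : Fin 3 → Fin n) (i : Fin 3) (h : x i ≠ y i)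
    (h' : ∀ j, j ≠ i → x j = y j) : Att x y := by
  refine ⟨((y i : ℕ) : ℤ) - (x i : ℕ), fun e => h (Fin.ext (by omega)), Pi.single i 1, by simp,
    fun j => by by_cases e : j = i <;> simp [e], fun j => ?_⟩
  by_cases e : j = i
  · simp [e]
  · simp [e, h' j e]

/-- The negation of the preceding statement: For every d ≥ 3 there is c > 0 such that, for all large n, every set of non-attacking queens on the n^d board of size at most n^(d-1)/c extends to a non-attacking set of maximum possible size. -/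
theorem result :
    ¬ (∀ d : ℕ, 3 ≤ d → ∃ c : ℝ, 0 < c ∧ ∃ N : ℕ, ∀ n : ℕ, N ≤ n →
      ∀ Q : Finset (Fin d → Fin n),
        (∀ x ∈ Q, ∀ y ∈ Q, ¬ ∃ t : ℤ, t ≠ 0 ∧ ∃ v : Fin d → ℤ, v ≠ 0 ∧
            (∀ i, v i = -1 ∨ v i = 0 ∨ v i = 1) ∧
            ∀ i, ((y i : ℕ) : ℤ) - ((x i : ℕ) : ℤ) = t * v i) →
        (Q.card : ℝ) ≤ (n : ℝ) ^ (d - 1) / c →
        ∃ P : Finset (Fin d → Fin n), Q ⊆ P ∧
          (∀ x ∈ P, ∀ y ∈ P, ¬ ∃ t : ℤ, t ≠ 0 ∧ ∃ v : Fin d → ℤ, v ≠ 0 ∧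
            (∀ i, v i = -1 ∨ v i = 0 ∨ v i = 1) ∧
            ∀ i, ((y i : ℕ) : ℤ) - ((x i : ℕ) : ℤ) = t * v i) ∧
          ∀ R : Finset (Fin d → Fin n),
            (∀ x ∈ R, ∀ y ∈ R, ¬ ∃ t : ℤ, t ≠ 0 ∧ ∃ v : Fin d → ℤ, v ≠ 0 ∧
              (∀ i, v i = -1 ∨ v i = 0 ∨ v i = 1) ∧
              ∀ i, ((y i : ℕ) : ℤ) - ((x i : ℕ) : ℤ) = t * v i) →
            R.card ≤ P.card) := by
  intro h
  obtain ⟨c, hc, N, hN⟩ := h 3 le_rfl
  obtain ⟨p, hle, hp⟩ := Nat.exists_infinite_primes (N + 11 + ⌈2 * c⌉₊)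
  have h11 : 11 ≤ p := by omega
  let z : Fin p := ⟨0, hp.pos⟩
  let o : Fin p := ⟨1, hp.one_lt⟩
  have hz : ∀ a, a ≠ z → ¬ Att ![z, z, o] (g p hp.pos a z) := by
    rintro a ha ⟨t, ht, v, -, hv', h⟩
    have h0 : ((g p hp.pos a z 0 : ℕ) : ℤ) - (0 : ℕ) = t * v 0 := h 0
    have h1 : ((a : ℕ) : ℤ) - (0 : ℕ) = t * v 1 := h 1
    have h2 : ((0 : ℕ) : ℤ) - (1 : ℕ) = t * v 2 := h 2
    have ha' : (a : ℕ) ≠ 0 := fun e => ha (Fin.ext e)
    have d : (p : ℤ) ∣ (g p hp.pos a z 0 : ℕ) + 2 * (a : ℕ) + 4 * (0 : ℕ) := g_dvd p hp.pos a z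
    have := Int.le_of_dvd (by omega) d
    rcases hv' 0 with q0 | q0 | q0 <;> rcases hv' 1 with q1 | q1 | q1 <;>
      rcases hv' 2 with q2 | q2 | q2 <;> rw [q0] at h0 <;> rw [q1] at h1 <;> rw [q2] at h2 <;> omega
  obtain ⟨P, hQ, hP, hmax⟩ := hN p (by omega)
    (insert ![z, z, o] ((Finset.univ.erase z).image fun a => g p hp.pos a z)) (by
      intro x hx y hy
      simp only [Finset.mem_insert, Finset.mem_image, Finset.mem_erase] at hx hy
      rcases hx with rfl | ⟨a, ha, rfl⟩ <;> rcases hy with rfl | ⟨b, hb, rfl⟩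
      · rintro ⟨t, ht, v, hv, -, h⟩
        exact hv (funext fun i => (mul_eq_zero.1 ((h i).symm.trans (sub_self _))).resolve_left ht)
      · exact hz b hb.1
      · exact fun h => hz a ha.1 (att_symm h)
      · exact g_na p hp h11 _ _ _ _) (by
      have h1 := (Finset.card_insert_le ![z, z, o] _).trans (Nat.add_le_add_right
        ((Finset.card_image_le (s := Finset.univ.erase z) (f := fun a => g p hp.pos a z)).trans
          (Finset.card_le_univ _)) 1)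
      rw [Fintype.card_fin] at h1
      have h2 : 2 * c ≤ p := (Nat.le_ceil _).trans (by exact_mod_cast (by omega))
      have h3 : (11 : ℝ) ≤ p := by exact_mod_cast h11
      refine le_trans (by exact_mod_cast h1 : _ ≤ (p : ℝ) + 1) ?_
      rw [le_div_iff₀ hc]
      norm_num
      nlinarith)
  have h1 := hmax (Finset.univ.image fun a : Fin p × Fin p => g p hp.pos a.1 a.2) (by
    intro x hx y hy
    obtain ⟨a, -, rfl⟩ := Finset.mem_image.1 hx
    obtain ⟨b, -, rfl⟩ := Finset.mem_image.1 hy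
    exact g_na p hp h11 _ _ _ _)
  rw [Finset.card_image_of_injective _ (fun a b e => Prod.ext (congrFun e 1) (congrFun e 2))] at h1
  have hinj : Set.InjOn (fun x : Fin 3 → Fin p => (x 0, x 2)) P := by
    intro x hx y hy e
    obtain ⟨e0, e2⟩ := Prod.ext_iff.1 e
    have k : ∀ j : Fin 3, j ≠ 1 → x j = y j := fun j hj => by
      fin_cases j
      · exact e0
      · exact absurd rfl hj
      · exact e2
    by_contra hne
    refine hP x hx y hy (att_axis x y 1 (fun e1 => hne (funext fun j => ?_)) k)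
    by_cases hj : j = 1
    · rw [hj]; exact e1
    · exact k j hj
  have h2 : P.image (fun x : Fin 3 → Fin p => (x 0, x 2)) = Finset.univ :=
    Finset.eq_univ_of_card _ (le_antisymm (Finset.card_le_univ _)
      (by rw [Finset.card_image_of_injOn hinj]; exact h1))
  obtain ⟨x, hx, e⟩ := Finset.mem_image.1 (h2 ▸ Finset.mem_univ (z, z))
  obtain ⟨e0, e2⟩ := Prod.ext_iff.1 e
  simp only at e0 e2
  by_cases e1 : x 1 = z
  · refine hP x hx _ (hQ (Finset.mem_insert_self _ _)) (att_axis x _ 2 ?_ fun j hj => ?_)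
    · rw [e2]; simp [z, o]
    · fin_cases j
      · exact e0
      · exact e1
      · exact absurd rfl hj
  · refine hP x hx _ (hQ (Finset.mem_insert_of_mem (Finset.mem_image_of_mem _
      (Finset.mem_erase.2 ⟨e1, Finset.mem_univ _⟩)))) (att_axis x _ 0 ?_ fun j hj => ?_)
    · intro e3
      refine g_na p hp h11 z z (x 1) z (att_axis _ _ 1 (fun e => e1 e.symm) fun j hj => ?_)
      fin_cases j
      · refine Eq.trans (Fin.ext ?_) (e0.symm.trans e3)
        simp [g, z]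
      · exact absurd rfl hj
      · rfl
    · fin_cases j
      · exact absurd rfl hj
      · rfl
      · exact e2

end Pool.Agent.S09708
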