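import Pool.Statements.S09751
import Pool.Agent.H15.BU3

set_option autoImplicit false
open Pool Pool.MP_802e1f_co

namespace Pool.Agent.S09751

theorem result :
    ∀ t : ℕ, ∃ C : ℝ, ∀ m n : ℕ, ∀ f : Fin n → Finset (Fin m) → ℝ,
      (∀ i : Fin n, ∀ S : Finset (Fin m), ∀ g : Fin m,
          |f i (insert g S) - f i S| ≤ 1) →
      (∀ g : Fin m,
          {i : Fin n | ∃ S : Finset (Fin m), f i S ≠ f i (insert g S)}.ncard ≤ t) →
      ∃ S : Finset (Fin m), ∀ i : Fin n, |f i S - f i Sᶜ| ≤ C := by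
  intro t
  exact ⟨t, fun m n f hf ht => Pool.Agent.H15.BU.disc_le t m n f hf ht⟩

end Pool.Agent.S09751
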