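import Pool.Statements.S09803
import Pool.Agent.H12.Sts3

set_option autoImplicit false
open Pool Pool.MP_828a2e_co

namespace Pool.Agent.S09803

/-- There is a constant c such that every finite group of order n embeds in the automorphism group of some Steiner triple system on at most n^c points. -/
theorem result :
    ∃ c : ℕ, ∀ (G : Type) [Group G] [Fintype G],
      ∃ (V : Type) (_ : Fintype V) (_ : DecidableEq V) (B : Finset (Finset V)),
        (∀ b ∈ B, b.card = 3) ∧
        (∀ x y : V, x ≠ y → ∃! b, b ∈ B ∧ x ∈ b ∧ y ∈ b) ∧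
        Fintype.card V ≤ (Fintype.card G) ^ c ∧
        ∃ φ : G →* Equiv.Perm V, Function.Injective φ ∧
          ∀ g : G, ∀ b ∈ B, b.image (⇑(φ g)) ∈ B := by
  refine ⟨8, ?_⟩
  intro G _ _
  classical
  by_cases h1 : Fintype.card G ≤ 1
  · refine ⟨Empty, inferInstance, inferInstance, ∅, by simp, fun x => x.elim, by simp, 1, ?_, by simp⟩
    intro g h _
    exact Fintype.card_le_one_iff.mp h1 g h
  · obtain ⟨V, hV, op, ho, hc, φ, hφ, hact⟩ := Pool.Agent.H12.Sts.main G
    obtain ⟨B, b1, b2, b3⟩ := Pool.Agent.H12.Sts.blocks op ho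
    refine ⟨V, hV, inferInstance, B, b1, b2, ?_, φ, hφ, fun g => b3 (φ g) (hact g)⟩
    have h2 : 2 ^ 6 ≤ Fintype.card G ^ 6 := Nat.pow_le_pow_left (by omega) 6
    calc Fintype.card V ≤ 36 * Fintype.card G ^ 2 := hc
      _ ≤ Fintype.card G ^ 6 * Fintype.card G ^ 2 := Nat.mul_le_mul_right _ (by omega)
      _ = Fintype.card G ^ 8 := by ring

end Pool.Agent.S09803
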