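import Pool.Statements.S09824
import Pool.Agent.H9.Contr

set_option autoImplicit false
open Pool Pool.MP_836894_co

namespace Pool.Agent.S09824

/-- The negation of the preceding statement: Every finite connected graph in which contracting any one edge or any two edges yields a graph colourable with fewer colours than the chromatic number of G is a complete graph. -/
theorem result :
    ¬ (∀ (n : ℕ) (G : SimpleGraph (Fin n)), G.Connected →
      (∀ a b c d : Fin n, G.Adj a b → G.Adj c d →
        ∃ k : ℕ, ¬ G.Colorable k ∧
          ∃ col : Fin n → Fin k,
            col a = col b ∧ col c = col d ∧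
            (∀ u v : Fin n, G.Adj u v →
              ¬ Relation.ReflTransGen
                  (fun x y : Fin n =>
                    (x = a ∧ y = b) ∨ (x = b ∧ y = a) ∨ (x = c ∧ y = d) ∨ (x = d ∧ y = c))
                  u v →
              col u ≠ col v)) →
      G = ⊤) := by
  intro h
  refine Pool.Agent.H9.Contr.ne_top (h 15 _ Pool.Agent.H9.Contr.conn fun a b c d h1 h2 => ?_)
  obtain ⟨col, e1, e2, e3⟩ := Pool.Agent.H9.Contr.all a b c d h1 h2
  refine ⟨7, Pool.Agent.H9.Contr.not_col, col, e1, e2, fun u v huv hn e => hn ?_⟩
  rcases e3 u v e huv with h' | ⟨w, h', h''⟩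
  · exact Relation.ReflTransGen.single h'
  · exact (Relation.ReflTransGen.single h').tail h''

end Pool.Agent.S09824
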