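import Pool.Statements.S09850
import Pool.Agent.H7.Lucky

set_option autoImplicit false
open Pool Pool.MP_84c3f1_co

namespace Pool.Agent.S09850

/-- The negation of the preceding statement: There is a constant C such that every finite bipartite graph has a labeling of its vertices by integers 1..C where any two adjacent vertices have different sums of labels over their neighbourhoods. -/
theorem result :
    ¬ (∃ C : ℕ, ∀ (V : Type) [Fintype V] (G : SimpleGraph V) [DecidableRel G.Adj],
      G.Colorable 2 →
        ∃ f : V → ℕ, (∀ v, 1 ≤ f v ∧ f v ≤ C) ∧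
          ∀ u v, G.Adj u v →
            ∑ w ∈ G.neighborFinset u, f w ≠ ∑ w ∈ G.neighborFinset v, f w) := by
  rintro ⟨C, h⟩
  obtain ⟨L, n, m, hm⟩ := H7.Lucky.main C
  obtain ⟨f, hf, hs⟩ := @h _ _ (H7.Lucky.G L n m) (Classical.decRel _) (H7.Lucky.col2 L n m)
  obtain ⟨u, v, huv, e⟩ := hm f hf
  apply hs u v huv
  rw [SimpleGraph.neighborFinset_eq_filter, SimpleGraph.neighborFinset_eq_filter, Finset.sum_filter,
    Finset.sum_filter]
  convert e

end Pool.Agent.S09850
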