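import Pool.Statements.S09866

set_option autoImplicit false
open SimpleGraph
open Pool Pool.MP_85b484_co

namespace Pool.Agent.S09866

/-- adjacency of the ring of four diamonds closed by an edge -/
def adj (u v : Fin 13) : Bool :=
  (v.val == u.val + 1) || (u.val == v.val + 1) || (v.val == u.val + 2 && u.val % 3 != 2) ||
    (u.val == v.val + 2 && v.val % 3 != 2) || (u.val == 0 && v.val == 12) || (u.val == 12 && v.val == 0)

def G : SimpleGraph (Fin 13) where
  Adj u v := adj u v = true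
  symm := ⟨by intro u v; revert u v; decide⟩
  loopless := ⟨by intro u; revert u; decide⟩

instance : DecidableRel G.Adj := fun u v => inferInstanceAs (Decidable (adj u v = true))

def L : List (ℕ × ℕ) := [(1, 4102), (2, 13), (3, 4111), (4, 11), (5, 4111), (6, 15), (7, 4111), (8, 54), (10, 63), (11, 4159), (12, 63), (13, 4159), (14, 63), (16, 104), (24, 126), (26, 127), (28, 127), (32, 88), (40, 126), (42, 127), (44, 127), (48, 120), (56, 126), (64, 432), (80, 504), (88, 510), (96, 504), (104, 510), (112, 504), (128, 832), (192, 1008), (208, 1016), (224, 1016), (256, 704), (320, 1008), (336, 1016), (352, 1016), (384, 960), (448, 1008), (512, 3456), (640, 4032), (704, 4080), (768, 4032), (832, 4080), (896, 4032), (1024, 6656), (1536, 8064), (1664, 8128), (1792, 8128), (2048, 5632), (2560, 8064), (2688, 8128), (2816, 8128), (3072, 7680), (3584, 8064), (4096, 3073), (4097, 7175), (4099, 7183), (4101, 7183), (5120, 7681), (5121, 7687), (5632, 8065), (6144, 7681), (6145,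 7687), (6656, 8065), (7168, 7681)]

def fast (a b : ℕ × ℕ) : Bool := (a.1 &&& b.1 == 0) && (a.2 &&& b.1 != 0)

def F : List (Fin 13) := List.finRange 13

def slow (a b : ℕ × ℕ) : Bool :=
  (F.all fun u => !(a.1.testBit u.val && b.1.testBit u.val)) &&
    (F.any fun u => a.1.testBit u.val && F.any fun v => b.1.testBit v.val && adj u v)

lemma slow_fast : (L.all fun a => L.all fun b => !(slow a b) || fast a b) = true := by
  decide +kernel

lemma no4 : (L.all fun a => L.all fun b => !(fast a b) || L.all fun c =>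
    !(fast a c && fast b c) || L.all fun d => !(fast a d && fast b d && fast c d)) = true := by
  decide +kernel

def ok1 (x y z u : Fin 13) : Bool := (x == y && y == z) || adj u x || adj u y || adj u z

lemma trip : (F.all fun x => F.all fun y => F.all fun z =>
    !(ok1 x y z x && ok1 x y z y && ok1 x y z z) ||
      L.any fun a => F.all fun u => a.1.testBit u.val == (u == x || u == y || u == z)) = true := by
  decide +kernel

lemma memF (u : Fin 13) : u ∈ F := List.mem_finRange u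

lemma small (s : Finset (Fin 13)) (hc : s.card ≤ 3)
    (h : (G.induce ((s : Finset (Fin 13)) : Set (Fin 13))).Connected) :
    ∃ a ∈ L, ∀ u : Fin 13, a.1.testBit u.val = true ↔ u ∈ s := by
  obtain ⟨⟨x0, hx0⟩⟩ := h.nonempty
  have hx0' : x0 ∈ s := hx0
  obtain ⟨x, y, z, hs⟩ : ∃ x y z, s = {x, y, z} := by
    have hpos : 0 < s.card := Finset.card_pos.2 ⟨x0, hx0'⟩
    rcases (by omega : s.card = 1 ∨ s.card = 2 ∨ s.card = 3) with h1 | h1 | h1
    · obtain ⟨a, rfl⟩ := Finset.card_eq_one.1 h1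
      exact ⟨a, a, a, by simp⟩
    · obtain ⟨a, b, -, rfl⟩ := Finset.card_eq_two.1 h1
      exact ⟨a, b, b, by simp⟩
    · obtain ⟨a, b, c, -, -, -, rfl⟩ := Finset.card_eq_three.1 h1
      exact ⟨a, b, c, rfl⟩
  have key : ∀ u ∈ s, ok1 x y z u = true := by
    intro u hu
    by_cases hxyz : x = y ∧ y = z
    · simp [ok1, hxyz.1, hxyz.2]
    · obtain ⟨w, hw, hwu⟩ : ∃ w ∈ s, w ≠ u := by
        by_contra hcon
        push Not at hcon
        have h1 := hcon x (by simp [hs])
        have h2 := hcon y (by simp [hs])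
        have h3 := hcon z (by simp [hs])
        exact hxyz ⟨h1.trans h2.symm, h2.trans h3.symm⟩
      obtain ⟨p⟩ := h.preconnected ⟨u, hu⟩ ⟨w, hw⟩
      cases p with
      | nil => exact absurd rfl hwu
      | @cons _ v _ hadj p =>
        have hv : v.1 ∈ s := v.2
        have ha : adj u v.1 = true := hadj
        generalize v.1 = v' at hv ha
        rw [hs] at hv
        simp only [Finset.mem_insert, Finset.mem_singleton] at hv
        rcases hv with hv | hv | hv <;> rw [hv] at ha <;> simp [ok1, ha]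
  have ht := trip
  simp only [List.all_eq_true] at ht
  have h2 := ht x (memF x) y (memF y) z (memF z)
  rw [key x (by simp [hs]), key y (by simp [hs]), key z (by simp [hs])] at h2
  simp only [Bool.and_self, Bool.not_true, Bool.false_or, List.any_eq_true, List.all_eq_true,
    beq_iff_eq] at h2
  obtain ⟨a, ha, h3⟩ := h2
  refine ⟨a, ha, fun u => ?_⟩
  rw [h3 u (memF u), hs]
  simp [or_assoc]

lemma fast_of (s t : Finset (Fin 13)) (a b : ℕ × ℕ) (ha : a ∈ L) (hb : b ∈ L)
    (h1 : ∀ u : Fin 13, a.1.testBit u.val = true ↔ u ∈ s)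
    (h2 : ∀ u : Fin 13, b.1.testBit u.val = true ↔ u ∈ t)
    (h : Disjoint s t ∧ ∃ u ∈ s, ∃ v ∈ t, G.Adj u v) : fast a b = true := by
  have hs : slow a b = true := by
    obtain ⟨hd, u, hu, v, hv, huv⟩ := h
    simp only [slow, Bool.and_eq_true, List.all_eq_true, List.any_eq_true, Bool.not_eq_true']
    refine ⟨fun w _ => ?_, u, memF u, (h1 u).2 hu, v, memF v, (h2 v).2 hv, huv⟩
    by_contra hcon
    simp only [Bool.not_eq_false, Bool.and_eq_true] at hcon
    exact Finset.disjoint_left.1 hd ((h1 w).1 hcon.1) ((h2 w).1 hcon.2)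
  have := slow_fast
  simp only [List.all_eq_true] at this
  have h3 := this a ha b hb
  rw [hs] at h3
  simpa using h3

lemma dia : ∀ a b c d : Fin 3, a ≠ b → a ≠ c → b ≠ c → b ≠ d → c ≠ d → a = d := by decide

lemma not3 : ¬ (G.induce ((Finset.univ : Finset (Fin 13)) : Set (Fin 13))).Colorable 3 := by
  rintro ⟨C⟩
  let c : Fin 13 → Fin 3 := fun u => C ⟨u, by simp⟩
  have hc : ∀ u v, adj u v = true → c u ≠ c v := fun u v huv => C.valid huv
  have e1 := dia (c 0) (c 1) (c 2) (c 3) (hc _ _ rfl) (hc _ _ rfl) (hc _ _ rfl) (hc _ _ rfl) (hc _ _ rfl)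
  have e2 := dia (c 3) (c 4) (c 5) (c 6) (hc _ _ rfl) (hc _ _ rfl) (hc _ _ rfl) (hc _ _ rfl) (hc _ _ rfl)
  have e3 := dia (c 6) (c 7) (c 8) (c 9) (hc _ _ rfl) (hc _ _ rfl) (hc _ _ rfl) (hc _ _ rfl) (hc _ _ rfl)
  have e4 := dia (c 9) (c 10) (c 11) (c 12) (hc _ _ rfl) (hc _ _ rfl) (hc _ _ rfl) (hc _ _ rfl) (hc _ _ rfl)
  exact hc 0 12 rfl (e1.trans (e2.trans (e3.trans e4)))

lemma big : ∀ S : Finset (Fin 13), S.card ≤ 2 →
    (0 ∉ S ∧ 1 ∉ S ∧ 2 ∉ S) ∨ (3 ∉ S ∧ 4 ∉ S ∧ 5 ∉ S) ∨ (6 ∉ S ∧ 7 ∉ S ∧ 8 ∉ S) := by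
  intro S hS
  by_contra hcon
  have h1 : ∃ a ∈ S, a.val < 3 := by
    by_contra h; push Not at h
    apply hcon; left
    refine ⟨fun h' => ?_, fun h' => ?_, fun h' => ?_⟩ <;> exact absurd (h _ h') (by decide)
  have h2 : ∃ a ∈ S, 3 ≤ a.val ∧ a.val < 6 := by
    by_contra h; push Not at h
    apply hcon; right; left
    refine ⟨fun h' => ?_, fun h' => ?_, fun h' => ?_⟩ <;> exact absurd (h _ h' (by decide)) (by decide)
  have h3 : ∃ a ∈ S, 6 ≤ a.val ∧ a.val < 9 := by
    by_contra h; push Not at h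
    apply hcon; right; right
    refine ⟨fun h' => ?_, fun h' => ?_, fun h' => ?_⟩ <;> exact absurd (h _ h' (by decide)) (by decide)
  obtain ⟨a, ha, ha'⟩ := h1
  obtain ⟨b, hb, hb'⟩ := h2
  obtain ⟨c, hc, hc'⟩ := h3
  have : 2 < S.card := Finset.two_lt_card.2 ⟨a, ha, b, hb, c, hc, by intro h; rw [h] at ha'; omega,
    by intro h; rw [h] at ha'; omega, by intro h; rw [h] at hb'; omega⟩
  omega

lemma notri (k : ℕ) (h5 : 5 ≤ k) (h6 : k ≤ 6) : ∀ x y z : Fin (2 * k + 1),
    (cycleGraph (2 * k + 1)).Adj x y → (cycleGraph (2 * k + 1)).Adj x z →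
    ¬ (cycleGraph (2 * k + 1)).Adj y z := by
  interval_cases k <;> decide +kernel

lemma nohole (k : ℕ) (hk : 3 * 3 ≤ 2 * k) : IsEmpty (cycleGraph (2 * k + 1) ↪g G) := by
  refine ⟨fun e => ?_⟩
  have hcard := Fintype.card_le_of_injective e e.injective
  simp only [Fintype.card_fin] at hcard
  let T : Finset (Fin 13) := Finset.univ.map e.toEmbedding
  have hT : T.card = 2 * k + 1 := by simp [T]
  have hS : Tᶜ.card ≤ 2 := by rw [Finset.card_compl, hT]; simp; omega
  have tri : ∀ a b c : Fin 13, a ∉ Tᶜ → b ∉ Tᶜ → c ∉ Tᶜ → G.Adj a b → G.Adj a c → G.Adj b c → False := by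
    intro a b c ha hb hc hab hac hbc
    simp only [T, Finset.mem_compl, not_not, Finset.mem_map, Finset.mem_univ, true_and] at ha hb hc
    obtain ⟨x, rfl⟩ := ha
    obtain ⟨y, rfl⟩ := hb
    obtain ⟨z, rfl⟩ := hc
    exact notri k (by omega) (by omega) x y z (e.map_adj_iff.1 hab) (e.map_adj_iff.1 hac)
      (e.map_adj_iff.1 hbc)
  rcases big _ hS with h | h | h <;>
    exact tri _ _ _ h.1 h.2.1 h.2.2 (by decide) (by decide) (by decide)

/-- The negation of the preceding statement: For every m ≥ 2 and finite graph G: every induced subgraph has a K_t-model with connected branch sets of size ≤ m for some t it is t-colourable with, iff G has no induced cycle of length 2k+1 with 2k ≥ 3m. -/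
theorem result :
    ¬ (∀ m : ℕ, 2 ≤ m → ∀ (V : Type) [Fintype V] (G : SimpleGraph V),
    (∀ S : Finset V, ∃ t : ℕ, (G.induce (S : Set V)).Colorable t ∧
      ∃ f : Fin t → Finset V,
        (∀ i, f i ⊆ S ∧ (f i).card ≤ m ∧ (G.induce ((f i : Finset V) : Set V)).Connected) ∧
        ∀ i j, i ≠ j → Disjoint (f i) (f j) ∧ ∃ u ∈ f i, ∃ v ∈ f j, G.Adj u v)
    ↔ (∀ k : ℕ, 3 * m ≤ 2 * k → IsEmpty (SimpleGraph.cycleGraph (2 * k + 1) ↪g G))) := by
  intro H
  obtain ⟨t, hcol, f, hf, hff⟩ := (H 3 (by norm_num) (Fin 13) G).2 nohole Finset.univ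
  by_cases ht : t ≤ 3
  · exact not3 (hcol.mono ht)
  · have h0 : 0 < t := by omega
    have h1 : 1 < t := by omega
    have h2 : 2 < t := by omega
    have h3 : 3 < t := by omega
    obtain ⟨a, ha, ha'⟩ := small _ (hf ⟨0, h0⟩).2.1 (hf ⟨0, h0⟩).2.2
    obtain ⟨b, hb, hb'⟩ := small _ (hf ⟨1, h1⟩).2.1 (hf ⟨1, h1⟩).2.2
    obtain ⟨c, hc, hc'⟩ := small _ (hf ⟨2, h2⟩).2.1 (hf ⟨2, h2⟩).2.2
    obtain ⟨d, hd, hd'⟩ := small _ (hf ⟨3, h3⟩).2.1 (hf ⟨3, h3⟩).2.2
    have hab := fast_of _ _ a b ha hb ha' hb' (hff _ _ (by simp))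
    have hac := fast_of _ _ a c ha hc ha' hc' (hff _ _ (by simp))
    have had := fast_of _ _ a d ha hd ha' hd' (hff _ _ (by simp))
    have hbc := fast_of _ _ b c hb hc hb' hc' (hff _ _ (by simp))
    have hbd := fast_of _ _ b d hb hd hb' hd' (hff _ _ (by simp))
    have hcd := fast_of _ _ c d hc hd hc' hd' (hff _ _ (by simp))
    have h := no4
    simp only [List.all_eq_true] at h
    have h' := h a ha b hb
    rw [hab] at h'
    simp only [Bool.not_true, Bool.false_or, List.all_eq_true] at h'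
    have h'' := h' c hc
    rw [hac, hbc] at h''
    simp only [Bool.and_self, Bool.not_true, Bool.false_or, List.all_eq_true] at h''
    have h4 := h'' d hd
    rw [had, hbd, hcd] at h4
    simp at h4

end Pool.Agent.S09866
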