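import Pool.Statements.S09888
import Pool.Agent.H13.Menger

set_option autoImplicit false
open Pool Pool.MP_8697c3_co

namespace Pool.Agent.S09888

/-- The negation of the preceding statement: Every nonempty partial order in which each nonempty chain has a sup and an inf has a cutset A and pairwise disjoint maximal chains F such that each point of A lies in exactly one chain of F and each chain of F contains exactly one point of A. -/
theorem result :
    ¬ (∀ (P : Type) [PartialOrder P] [Nonempty P],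
      (∀ c : Set P, IsChain (· ≤ ·) c → c.Nonempty →
        (∃ a : P, IsLUB c a) ∧ (∃ a : P, IsGLB c a)) →
      ∃ (F : Set (Set P)) (A : Set P),
        (∀ C ∈ F, IsMaxChain (· ≤ ·) C) ∧
        F.PairwiseDisjoint id ∧
        (∀ C : Set P, IsMaxChain (· ≤ ·) C → (A ∩ C).Nonempty) ∧
        (∀ a ∈ A, ∃! C : Set P, C ∈ F ∧ a ∈ C) ∧
        (∀ C ∈ F, ∃! a : P, a ∈ A ∧ a ∈ C)) := by
  intro h
  open Pool.Agent.H13.Menger in
  obtain ⟨F, A, h1, h2, h3, h4, h5⟩ := @h X _ ⟨X.low root⟩
    fun c hc hne => ⟨sup_ok c hc hne, inf_ok c hc hne⟩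
  choose! C hC using fun a ha => (h4 a ha).exists
  have : Nonempty Pool.Agent.H13.Menger.N := ⟨Pool.Agent.H13.Menger.root⟩
  choose! m hm using fun a (ha : a ∈ A) => Pool.Agent.H13.Menger.meets (h1 _ (hC a ha).1)
  refine Pool.Agent.H13.Menger.no_cut h3 (fun k hk => ⟨C k, h1 _ (hC k hk).1, (hC k hk).2,
    fun c hc hne hcA => hne ((h5 _ (hC k hk).1).unique ⟨hcA, hc⟩ ⟨hk, (hC k hk).2⟩)⟩) ?_
  refine Set.MapsTo.countable_of_injOn (f := m) (fun a ha => (hm a ha).1) (fun a ha b hb e => ?_)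
    Pool.Agent.H13.Menger.fin_count
  have : C a = C b := h2.elim (hC a ha).1 (hC b hb).1
    (Set.not_disjoint_iff.2 ⟨_, (hm a ha).2, e ▸ (hm b hb).2⟩)
  exact (h5 _ (hC a ha).1).unique ⟨ha, (hC a ha).2⟩ ⟨hb, this ▸ (hC b hb).2⟩

end Pool.Agent.S09888
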