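import Pool.Statements.S09922
import Pool.Agent.H12.Agree

set_option autoImplicit false
open Classical
open Pool Pool.MP_880652_co

namespace Pool.Agent.S09922

/-- The negation of the preceding statement: For every finite poset with k comparable pairs, let a_i count linear orders of its points agreeing with exactly i comparable pairs; then a_0,…,a_k increases weakly up to some index and decreases weakly after it. -/
theorem result :
    ¬ (∀ (α : Type) [Fintype α] [PartialOrder α] (a : ℕ → ℕ),
      (∀ i : ℕ, a i =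
        (Finset.univ.filter (fun σ : α ≃ Fin (Fintype.card α) =>
          (Finset.univ.filter (fun p : α × α => p.1 < p.2 ∧ σ p.1 < σ p.2)).card = i)).card) →
      ∃ m : ℕ,
        (∀ i j : ℕ, i ≤ j → j ≤ m → a i ≤ a j) ∧
        (∀ i j : ℕ, m ≤ i → i ≤ j →
          j ≤ (Finset.univ.filter (fun p : α × α => p.1 < p.2)).card → a j ≤ a i)) := by
  intro h
  obtain ⟨m, h1, h2⟩ := h H12.Agree.P H12.Agree.A (fun i => by
    unfold H12.Agree.A
    refine H12.Agree.irrel (β := Equiv.Perm (Fin 7)) _ _ _ _ _ _ (fun σ => ?_)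
    unfold H12.Agree.cnt
    refine Eq.congr_left ?_
    exact H12.Agree.irrel (β := Fin 7 × Fin 7) _ _ _ _ _ _ (fun p => Iff.rfl))
  obtain ⟨a4, a5, a6⟩ := H12.Agree.A_vals
  by_cases hm : 5 ≤ m
  · have := h1 4 5 (by norm_num) hm
    omega
  · have := h2 5 6 (by omega) (by norm_num) (by
      refine le_trans (by norm_num : (6 : ℕ) ≤ 10) (le_of_eq (H12.Agree.k_val.symm.trans ?_))
      exact H12.Agree.irrel (β := Fin 7 × Fin 7) _ _ _ _ _ _ (fun p => Iff.rfl))
    omega

end Pool.Agent.S09922
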