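import Pool.Statements.S09946
import Pool.Agent.H11.Girth

set_option autoImplicit false
open Pool Pool.MP_8888ff_co

namespace Pool.Agent.S09946
open Pool.Agent.H11.Girth SimpleGraph
def G4 : SimpleGraph (Fin 4) where
  Adj i j := (i.val + j.val) % 2 = 1
  symm := ⟨fun i j h => by omega⟩
  loopless := ⟨fun i h => by omega⟩

instance : DecidableRel G4.Adj := fun i j => inferInstanceAs (Decidable ((i.val + j.val) % 2 = 1))

lemma cyc_len {k : ℕ} {A : SimpleGraph (Fin k)} {v : Fin k} {w : A.Walk v v} (h : w.IsCycle) :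
    w.length ≤ k := by
  have := h.isPath_tail.length_lt
  have h2 := w.length_tail_add_one h.not_nil
  simp only [Fintype.card_fin] at this
  omega

/-- The negation of the preceding statement: For every graph family whose members all contain a cycle and one is bipartite, some c>0 ensures every graph with min degree δ≥1 and max degree Δ has a spanning F-free subgraph of min degree at least c·ex(K_Δ,F)·δ/Δ². -/
theorem result :
    ¬ (∀ F : Set (Σ k : ℕ, SimpleGraph (Fin k)),
      (∀ p ∈ F, ¬ p.2.IsAcyclic) →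
      (∃ p ∈ F, p.2.Colorable 2) →
      ∃ c : ℝ, 0 < c ∧
        ∀ δ Δ : ℕ, 1 ≤ δ → δ ≤ Δ →
          ∀ n : ℕ, ∀ G : SimpleGraph (Fin n),
            (∀ v, δ ≤ (G.neighborSet v).ncard) →
            (∃ v, (G.neighborSet v).ncard = δ) →
            (∀ v, (G.neighborSet v).ncard ≤ Δ) →
            (∃ v, (G.neighborSet v).ncard = Δ) →
            ∀ T : SimpleGraph (Fin Δ),
              (∀ p ∈ F, ¬ p.2.IsContained T) →
              ∃ H : SimpleGraph (Fin n), H ≤ G ∧
                (∀ p ∈ F, ¬ p.2.IsContained H) ∧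
                ∀ v, c * (T.edgeSet.ncard : ℝ) * (δ : ℝ) / (Δ : ℝ) ^ 2
                  ≤ ((H.neighborSet v).ncard : ℝ)) := by
  classical
  intro H
  choose f T f0 f1 f2 using fun N => exists_dense_girth (N + 1) N
  have f3 : ∀ N, N ≤ f N := by
    intro N
    have a := f2 N
    have b : 2 * (T N).edgeSet.ncard ≤ f N * f N := by
      rw [← coe_edgeFinset, Set.ncard_coe_finset, ← sum_degrees_eq_twice_card_edges]
      refine (Finset.sum_le_card_nsmul _ _ (f N) fun v _ => ?_).trans (by simp)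
      simpa using ((T N).degree_lt_card_verts v).le
    exact Nat.le_of_mul_le_mul_right (a.trans b) (f0 N)
  let N : ℕ → ℕ := fun i => (fun m => f m + 1)^[i] 4
  have hN : ∀ i, N (i + 1) = f (N i) + 1 := fun i => Function.iterate_succ_apply' _ _ _
  have mono : StrictMono N := strictMono_nat_of_lt_succ fun i => by
    rw [hN]; exact Nat.lt_succ_of_le (f3 _)
  obtain ⟨c, hc, H⟩ := H {p | (∃ i, p.1 = N i) ∧ ¬ p.2.IsAcyclic} (fun p hp => hp.2)
    ⟨⟨4, G4⟩, ⟨⟨0, rfl⟩, fun h => by
      have := acyclic_card (by norm_num) h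
      rw [← coe_edgeFinset, Set.ncard_coe_finset] at this
      revert this; decide⟩,
      ⟨Coloring.mk (fun v => (⟨v.val % 2, Nat.mod_lt _ two_pos⟩ : Fin 2)) (by decide)⟩⟩
  obtain ⟨i, hi⟩ := exists_nat_ge (4 / c)
  have hd : ∀ v, ((⊤ : SimpleGraph (Fin (f (N i) + 1))).neighborSet v).ncard = f (N i) := by
    intro v
    rw [neighborSet_top, Set.ncard_compl]; simp
  obtain ⟨K, -, hK, hK2⟩ := H (f (N i)) (f (N i)) (f0 _) le_rfl _ ⊤ (fun v => (hd v).ge)
    ⟨0, hd 0⟩ (fun v => (hd v).le) ⟨0, hd 0⟩ (T (N i)) (by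
      rintro ⟨k, p⟩ ⟨⟨j, hj⟩, hp⟩ ⟨e⟩
      simp only at hj hp e
      have a : k ≤ f (N i) := by simpa using Fintype.card_le_of_injective _ e.injective
      have b : N j ≤ N i := mono.monotone (Nat.lt_succ_iff.1 (mono.lt_iff_lt.1 (by rw [hN]; omega)))
      rw [IsAcyclic] at hp
      push Not at hp
      obtain ⟨v, w, hw⟩ := hp
      have := le_egirth.1 (f1 (N i)) _ _ (hw.map (f := e.toHom) e.injective)
      rw [Walk.length_map] at this
      have l := cyc_len hw
      norm_cast at this
      omega)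
  have ac : K.IsAcyclic := by
    by_contra h
    exact hK ⟨_, K⟩ ⟨⟨i + 1, (hN i).symm⟩, h⟩ (IsContained.refl _)
  have e1 := acyclic_card (Nat.succ_pos _) ac
  have e2 : ∀ v, 2 ≤ K.degree v := by
    intro v
    have a := hK2 v
    rw [← card_neighborFinset_eq_degree, ← Set.ncard_coe_finset, coe_neighborFinset]
    have b : ((N i : ℝ)) * f (N i) ≤ 2 * (T (N i)).edgeSet.ncard := by exact_mod_cast f2 (N i)
    have d : (0 : ℝ) < f (N i) := by exact_mod_cast f0 (N i)
    have e : (i : ℝ) ≤ N i := by exact_mod_cast mono.id_le i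
    rw [div_le_iff₀ hc] at hi
    have : (2 : ℝ) ≤ c * (T (N i)).edgeSet.ncard * f (N i) / (f (N i) : ℝ) ^ 2 := by
      rw [le_div_iff₀ (by positivity)]
      have k : 4 ≤ c * N i := by nlinarith
      have k2 : 4 * (f (N i) : ℝ) ≤ 2 * c * (T (N i)).edgeSet.ncard := by nlinarith
      nlinarith
    exact_mod_cast this.trans a
  have e3 := Finset.card_nsmul_le_sum Finset.univ _ 2 fun v _ => e2 v
  rw [sum_degrees_eq_twice_card_edges, ← Set.ncard_coe_finset K.edgeFinset, coe_edgeFinset] at e3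
  simp at e3
  omega

end Pool.Agent.S09946
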