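import Pool.Statements.S09958
import Pool.Agent.H7.Rewire5

set_option autoImplicit false
open Filter Topology
open Pool Pool.MP_891b03_co

namespace Pool.Agent.S09958

/-- The negation of the preceding statement: For every L ≥ 1 and every Benjamini–Schramm convergent sequence of finite connected graphs of bounded degree, the minimal edges-per-vertex of a connected graph on the same vertices whose metric is L-bi-Lipschitz to the original converges. -/
theorem result :
    ¬ (∀ (D : ℕ) (L : ℝ), 1 ≤ L →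
    ∀ (N : ℕ → ℕ) (G : ∀ n, SimpleGraph (Fin (N n))),
      (∀ n, (G n).Connected) →
      (∀ n (v : Fin (N n)), ((G n).neighborSet v).ncard ≤ D) →
      (∀ (r k : ℕ) (F : SimpleGraph (Fin k)) (o : Fin k), ∃ p : ℝ,
        Tendsto (fun n => (({v : Fin (N n) | ∃ e : {w : Fin (N n) // (G n).dist v w ≤ r} ≃ Fin k,
            (∀ a : {w : Fin (N n) // (G n).dist v w ≤ r}, (a.1 = v ↔ e a = o)) ∧
            (∀ a b : {w : Fin (N n) // (G n).dist v w ≤ r},
              ((G n).Adj a.1 b.1 ↔ F.Adj (e a) (e b)))}.ncard : ℕ) : ℝ) / (N n : ℝ))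
          atTop (𝓝 p)) →
      ∃ c : ℝ, Tendsto (fun n => sInf {x : ℝ | ∃ H : SimpleGraph (Fin (N n)), H.Connected ∧
          (∀ u v : Fin (N n), ((H.dist u v : ℝ) ≤ L * ((G n).dist u v : ℝ)) ∧
            (((G n).dist u v : ℝ) ≤ L * (H.dist u v : ℝ))) ∧
          x = (H.edgeSet.ncard : ℝ) / (N n : ℝ)}) atTop (𝓝 c)) := by
  intro h
  obtain ⟨S, h1, h2, h3, h4⟩ := Pool.Agent.H7.Rewire.exists_seq
  exact h4 (h 12000 2 (by norm_num) (fun m => (S m).1) (fun m => (S m).2) h1 h2 h3)

end Pool.Agent.S09958
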