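import Pool.Statements.S10096
-- import your own Pool.Agent.* helpers here

set_option autoImplicit false
open Pool Pool.MP_8ed634_co

namespace Pool.Agent.S10096

def toF (m : ℕ) : Finset (Fin 11) := Finset.univ.filter fun i => m.testBit i

lemma mem_toF {m : ℕ} {i : Fin 11} : i ∈ toF m ↔ m.testBit i = true := by simp [toF]

def xs : List ℕ := [1104, 642, 1281, 280, 552, 196, 1057, 134, 84, 546, 265]

def ys : List ℕ := [1796, 1548, 1038, 657, 533, 432, 177, 1098, 75, 480, 354, 1936, 1688, 1178,
  155, 31, 1444, 1318, 1196, 820, 310, 55, 1208, 1984, 961, 1858, 835, 837, 1736, 713, 589, 595,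
  868, 1256, 233, 115]

def m00 : ℕ := 167338726245987594688475826379358103917426838263257041269003195674142784324538378506668353625759245214094812663247877902769746728991064064

def m01 : ℕ := 167293298814888375681646318010183475695038684333343247431023230209881935442065122554524679423588137952591394546306372618888550774082633728

def m02 : ℕ := 167338726245987594688475826379358103917426838264276056815648202515785364014005944837862580284650446601270604891269848246344038782014062592

def m10 : ℕ := 164431371348805167126278531147806085780012272821399407668189035394697199448995092881052064024008762376290182522819701658350428239284928512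

def m11 : ℕ := 167247827042735537894119407648745157061293361423798217919581483297282638889480118016299298341338370945450367764870843189891233330766020608

def m12 : ℕ := 167338726159341646089201334917356338655196871148964264697143164488668303349155257583760511514184058009170363203893676387708268379811872768

def tb2 : List (ℕ × List (ℕ × ℕ × List ℕ)) :=
  [(1281, [(0, 165884338993954603306409672560269941276898095135969356225484219883074177969604862133788308429663654949622800217965734260282910050420260864,
     [97, 108, 130, 152, 218, 229, 295, 383, 394, 405, 438, 449]),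
    (8, 167338726202664630717838094198445382290191155398073766463372985007377735246606579955133573525479368107284512323474964146238356886883663872,
     [119, 163, 174, 273, 284, 416]),
    (10, 167338371344266747224163949840793434982909595141115627750798868226831781624396076368269092444160097798841458062113173584821889880719097856,
     [75, 86, 141, 196, 207, 262, 306, 372, 427])]),
   (280, [(3, 167333045045784340815889630466002290782112272861431357435589394062698357879157902527274321818832531510596457889578714406220774625681342464,
     [75, 86, 141, 152, 262, 372, 383, 394, 427, 438]),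
    (4, 144079887068526852078959884029744054987494249179183704096699602052795857287180229237662549345157138783410807755240882794816539420778299392,
     [97, 108, 130, 295, 405, 449]),
    (8, 167338726202664630717838092995404157436915687681494108180065810991897437789490335867577488229389217111465593781662671986694212831523373056,
     [64, 163, 174, 240, 251, 317, 328, 339, 350, 361, 416])]),
   (552, [(3, 167338726245987594688475826379358103917426838264276056823240460032142201530618572161270254610433854165917953237886067430998088806876315648,
     [86, 141, 152, 207, 218, 229]),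
    (5, 120821047891068753693319102674525813718793791178249670342417665776407092367337339662183822609340423527010015303842326898405525853304782848,
     [119, 130, 163, 174, 240, 251, 284, 295, 449]),
    (9, 167338726245945287106473248062942731631161805484551800242677569505742532527345353743500251942933104466368788226370513960893587413549449216,
     [64, 97, 108, 185, 317, 328, 339, 350, 361, 405])]),
   (196, [(2, 167338726245987594688475826379358103917426838264021302934681129468636373088059983884365601827781437903056991328746164472653656993778630656,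
     [64, 75, 86, 108, 229, 251, 273, 284, 295]),
    (6, 74303369536144624250412056980755052614441367661502887494293688532845120527764389741889706413602177199627853030158295271519431336692547584,
     [141, 152, 174, 339, 350, 405, 449]),
    (7, 167338726245987594688475826379358103917426821576877338691130441321041973252744036342705095558777493149558691367381350176902249443179364352,
     [97, 119, 130, 185, 196, 207, 218, 306])]),
   (1057, [(0, 167338726245987512016112372245377712310322988376812620933783794915932415812505148907871424510830958984730371644589139008451875644196782080,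
     [97, 108, 152, 218, 229, 328, 350, 361, 383, 394, 405]),
    (5, 167338726240572224192146109856744013714022377906000770528257025654052685223354498086074457754766857531185045430280343371705172032013467648,
     [119, 163, 174, 273, 284, 416]),
    (10, 167338726245987594688465975877807858548042367127897339018794976275471389123046005694673456138335077060300689393175625452067073887796461568,
     [64, 75, 86, 141, 185, 196, 207, 317, 339, 372])]),
   (134, [(1, 164431371348805001862286333585651758564208542307939395281710873422795857082327956584511395932087212039310117660236202386384507231262474240,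
     [141, 152, 174, 339, 350, 405, 449]),
    (2, 167338726245310673215043994414811215126315666646187683447255324910715662872827255808299116988511758826030207181373620707359532743917568000,
     [64, 75, 108, 273, 361, 394, 416]),
    (7, 167247827042735537891596447939482272994205920151754781007835148648246570296918214707715629186555836315415290048539489433095332243630456832,
     [97, 119, 130, 163, 185, 196, 306, 317, 328, 372, 383, 427, 438])]),
   (84, [(2, 167338726245987594688475826379358103917426838264276056823210802776225810778937801239340329594151620325038413096832965155531349447894106112,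
     [64, 75, 86, 240, 251, 262]),
    (4, 167338726245987594688475826379358103917426836178351217056726707693260714974121680134520898008929123161469317810768641625538158601550430208,
     [97, 119, 130, 185, 196, 207, 218, 306]),
    (6, 167293276644361566290036137159273332872561273285236947606140501941323498145617904747267875205364846207927795181611906939163481921848082432,
     [141, 152, 163, 174, 317, 328, 339, 350, 372, 383, 427, 438])]),
   (546, [(1, 167338726245987594688475826379358103917426838264276056823240460032147380369107793547474215993250123413857615215053779303542702848421658624,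
     [86, 141, 152, 207, 218, 229]),
    (5, 167316001445174580489886721696704867203393469054156597097325715848432489708823180011231476925976252608740718846799973243265988979394084864,
     [119, 130, 163, 240, 262, 306, 427, 438]),
    (9, 167338726245987574020384960442130245641318471793179183422533386684763725292789836729014256439770244927147033958599522987651993977896304640,
     [64, 75, 97, 108, 185, 196, 317, 328, 361, 372, 383, 394])]),
   (265, [(0, 165885048797396298275381079982507225859306051446457784777831656408439528563515202461299724759874396014435834116680383231917509522176868352,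
     [97, 108, 130, 295, 405, 449]),
    (3, 167338723473317900567660889843900567441375922302376365971112010096170065046852574705053090277027196636887012609953460529211982911893405696,
     [75, 86, 141, 196, 207, 262, 306, 372, 427]),
    (8, 167338726202664630717838094198445095602795805053985345988123504762885962895485857879869992971424645527182641091645369029437860700728852480,
     [64, 119, 163, 174, 185, 240, 251, 273, 284, 317, 339, 416])])]

def tb : List (ℕ × List (ℕ × ℕ × List ℕ)) :=
  (1104, [(4, m00,
     [97, 108, 119, 130, 218, 229, 273, 284, 295]),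
    (6, m01,
     [152, 163, 174, 328, 350, 361, 383, 394, 416, 438]),
    (10, m02,
     [64, 75, 86, 240, 251, 262])]) ::
  (642, [(1, m10,
     [86, 141, 152, 174, 229, 251, 284, 295, 449]),
    (7, m11,
     [119, 130, 163, 240, 262, 306, 427, 438]),
    (9, m12,
     [64, 75, 108, 273, 361, 394, 416])]) :: tb2

def st0 : ℕ := 167338726245987594688475826379358103917426838264276056823240460032149106648604200676208869787522213163170835874109683261057574195603439616

def yy (j : ℕ) : ℕ := ys.getD j 0

def dead (st : ℕ) : List ℕ → Bool
  | [] => false
  | j :: r => Nat.beq ((st >>> j) % 2048) 0 || dead st r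

def mix (m : ℕ) : ℕ := m ||| m % 18446744073709551557

def go : List (ℕ × List (ℕ × ℕ × List ℕ)) → ℕ → Bool
  | [], _ => false
  | e :: r, st => e.2.all fun p =>
      Nat.casesOn (motive := fun _ => Bool) (mix (st &&& p.2.1)) true
        fun k => dead (k + 1) p.2.2 || go r (k + 1)

lemma dead_sound (b : ℕ → Fin 11) (st : ℕ) (h : ∀ j < 36, st.testBit (64 + 11 * j + b j) = true) :
    ∀ l : List ℕ, (∀ c ∈ l, ∃ j < 36, c = 64 + 11 * j) → dead st l = false := by
  intro l
  induction l with
  | nil => intro _; rfl
  | cons c r ih =>
    intro hl
    obtain ⟨n, hn, rfl⟩ := hl c List.mem_cons_self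
    rw [dead, ih fun j hj => hl j (List.mem_cons_of_mem _ hj), Bool.or_false, Bool.eq_false_iff]
    intro e
    have e := Nat.eq_of_beq_eq_true e
    have : (st >>> (64 + 11 * n) % 2 ^ 11).testBit (b n) = true := by
      rw [Nat.testBit_mod_two_pow, Nat.testBit_shiftRight, h n hn]
      simp
    rw [show 2 ^ 11 = 2048 by norm_num, e] at this
    simp at this

def Ok (e : ℕ × List (ℕ × ℕ × List ℕ)) : Prop :=
  (∀ v : Fin 11, e.1.testBit v = true → ∃ p ∈ e.2, p.1 = v) ∧
    ∀ p ∈ e.2, (∀ c ∈ p.2.2, ∃ j < 36, c = 64 + 11 * j) ∧ ∀ j < 36, ∀ u : Fin 11, (yy j).testBit u = true →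
      p.2.1.testBit (64 + 11 * j + u) = true ∨ ((u : ℕ) = p.1 ∧ e.1 &&& yy j = 2 ^ p.1)

instance (e : ℕ × List (ℕ × ℕ × List ℕ)) : Decidable (Ok e) := by unfold Ok; infer_instance

lemma single {X Y : ℕ} {v : Fin 11} (h : X &&& Y = 2 ^ (v : ℕ)) : (toF X ∩ toF Y).card ≤ 1 := by
  rw [Finset.card_le_one]
  have aux : ∀ i ∈ toF X ∩ toF Y, i = v := by
    intro i hi
    rw [Finset.mem_inter, mem_toF, mem_toF] at hi
    have : (X &&& Y).testBit i = true := by simp [Nat.testBit_and, hi.1, hi.2]
    rw [h, Nat.testBit_two_pow] at this
    exact Fin.ext (by simpa using this : (v : ℕ) = i).symm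
  intro i hi j hj
  rw [aux i hi, aux j hj]

lemma go_sound (a b : ℕ → Fin 11) (hb : ∀ j < 36, (yy j).testBit (b j) = true) :
    ∀ (l : List (ℕ × List (ℕ × ℕ × List ℕ))) (st : ℕ),
    (∀ e ∈ l, Ok e ∧ e.1.testBit (a e.1) = true ∧
      ∀ j < 36, a e.1 = b j → 1 < (toF e.1 ∩ toF (yy j)).card) →
    (∀ j < 36, st.testBit (64 + 11 * j + b j) = true) → go l st = false := by
  intro l
  induction l with
  | nil => intro _ _ _; rfl
  | cons e r ih =>
    intro st h1 h2
    obtain ⟨⟨o1, o2⟩, k1, k2⟩ := h1 e List.mem_cons_self
    obtain ⟨p, hp, hv⟩ := o1 _ k1
    have key : ∀ j < 36, (mix (st &&& p.2.1)).testBit (64 + 11 * j + b j) = true := by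
      intro j hj
      rw [mix, Nat.testBit_or, Nat.testBit_and, h2 j hj, Bool.true_and, Bool.or_eq_true]
      left
      rcases (o2 p hp).2 j hj (b j) (hb j hj) with k | ⟨k, k'⟩
      · exact k
      · have := k2 j hj (Fin.ext (by omega))
        have := single (v := a e.1) (by rw [k', hv])
        omega
    rw [go, Bool.eq_false_iff]
    intro h
    have := List.all_eq_true.1 h p hp
    generalize mix (st &&& p.2.1) = m at this key
    cases m with
    | zero => simpa using key 0 (by omega)
    | succ k =>
      simp only at this
      rw [dead_sound b _ key _ (o2 p hp).1, ih _ (fun Y hY => h1 Y (List.mem_cons_of_mem _ hY)) key] at this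
      simp at this

lemma go_step (e : ℕ × List (ℕ × ℕ × List ℕ)) (r : List (ℕ × List (ℕ × ℕ × List ℕ))) (st : ℕ)
    (h : ∀ p ∈ e.2, go r (mix (st &&& p.2.1)) = true) : go (e :: r) st = true := by
  rw [go, List.all_eq_true]
  intro p hp
  have := h p hp
  generalize mix (st &&& p.2.1) = m at this
  cases m with
  | zero => rfl
  | succ k => simp [this]

lemma b00 : go tb2 (mix (mix (st0 &&& m00) &&& m10)) = true := by decide +kernel

lemma b01 : go tb2 (mix (mix (st0 &&& m00) &&& m11)) = true := by decide +kernel

lemma b02 : go tb2 (mix (mix (st0 &&& m00) &&& m12)) = true := by decide +kernel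

lemma b10 : go tb2 (mix (mix (st0 &&& m01) &&& m10)) = true := by decide +kernel

lemma b11 : go tb2 (mix (mix (st0 &&& m01) &&& m11)) = true := by decide +kernel

lemma b12 : go tb2 (mix (mix (st0 &&& m01) &&& m12)) = true := by decide +kernel

lemma b20 : go tb2 (mix (mix (st0 &&& m02) &&& m10)) = true := by decide +kernel

lemma b21 : go tb2 (mix (mix (st0 &&& m02) &&& m11)) = true := by decide +kernel

lemma b22 : go tb2 (mix (mix (st0 &&& m02) &&& m12)) = true := by decide +kernel

lemma go_true : go tb st0 = true := by
  apply go_step
  intro p hp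
  apply go_step
  intro q hq
  simp only [List.mem_cons, List.not_mem_nil, or_false] at hp hq
  rcases hp with rfl | rfl | rfl <;> rcases hq with rfl | rfl | rfl
  exacts [b00, b01, b02, b10, b11, b12, b20, b21, b22]

lemma tb_ok : ∀ e ∈ tb, Ok e ∧ e.1 ∈ xs := by decide +kernel

lemma yy_mem : ∀ j < 36, yy j ∈ ys := by decide +kernel

lemma st0_ok : ∀ j < 36, ∀ u : Fin 11, (yy j).testBit u = true →
    st0.testBit (64 + 11 * j + u) = true := by decide +kernel

def CC : Finset (Finset (Fin 11)) := (xs.map toF).toFinset

lemma mem_CC {X : Finset (Fin 11)} : X ∈ CC ↔ ∃ m ∈ xs, toF m = X := by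
  simp only [CC, List.mem_toFinset, List.mem_map]

lemma sub_iff {m k : ℕ} : toF m ⊆ toF k ↔ ∀ i : Fin 11, m.testBit i = true → k.testBit i = true := by
  simp only [Finset.subset_iff, mem_toF]

lemma blk (Y : ℕ) (hY : Y ∈ ys) : (∀ X ∈ CC, (X ∩ toF Y).Nonempty) ∧
    ∀ Z : Finset (Fin 11), Z ⊆ toF Y → (∀ X ∈ CC, (X ∩ Z).Nonempty) → Z = toF Y := by
  have k1 : ∀ Y ∈ ys, ∀ X ∈ xs, ∃ i : Fin 11, X.testBit i = true ∧ Y.testBit i = true := by
    decide +kernel
  have k2 : ∀ Y ∈ ys, ∀ v : Fin 11, Y.testBit v = true → ∃ X ∈ xs, X &&& Y = 2 ^ (v : ℕ) := by
    decide +kernel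
  refine ⟨fun X hX => ?_, fun Z h1 h2 => Finset.Subset.antisymm h1 fun v hv => ?_⟩
  · obtain ⟨m, hm, rfl⟩ := mem_CC.1 hX
    obtain ⟨i, a, b⟩ := k1 Y hY m hm
    exact ⟨i, Finset.mem_inter.2 ⟨mem_toF.2 a, mem_toF.2 b⟩⟩
  · obtain ⟨m, hm, e⟩ := k2 Y hY v (mem_toF.1 hv)
    obtain ⟨i, hi⟩ := h2 _ (mem_CC.2 ⟨m, hm, rfl⟩)
    obtain ⟨a, b⟩ := Finset.mem_inter.1 hi
    have : (m &&& Y).testBit i = true := by
      simp [Nat.testBit_and, mem_toF.1 a, mem_toF.1 (h1 b)]
    rw [e, Nat.testBit_two_pow] at this
    have : v = i := Fin.ext (by simpa using this)
    rw [this]; exact b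

lemma card_CC : CC.card = 11 := by decide +kernel

lemma card_mem : ∀ X ∈ CC, X.card = 3 := by decide +kernel

lemma deg : ∀ v : Fin 11, (CC.filter fun X => v ∈ X).card ≤ 3 := by decide +kernel

/-- The negation of the preceding statement: For every clutter C on a finite set: C is nonideal iff one can pick an element p(X) in each member X and q(Y) in each blocker member Y so that p(X)=q(Y) forces X and Y to share at least two elements. -/
theorem result :
    ¬ (∀ (n : ℕ) (C : Finset (Finset (Fin n))),
      (∀ X ∈ C, ∀ Y ∈ C, X ⊆ Y → X = Y) →
      ((¬ ∀ w : Fin n → ℝ, (∀ v, 0 ≤ w v) →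
          ∀ x : Fin n → ℝ, (∀ v, 0 ≤ x v) → (∀ X ∈ C, 1 ≤ ∑ v ∈ X, x v) →
            ∃ B : Finset (Fin n), (∀ X ∈ C, (X ∩ B).Nonempty) ∧
              ∑ v ∈ B, w v ≤ ∑ v, w v * x v)
        ↔
        ∃ p : Finset (Fin n) → Fin n, ∃ q : Finset (Fin n) → Fin n,
          (∀ X ∈ C, p X ∈ X) ∧
          (∀ Y : Finset (Fin n),
            ((∀ X ∈ C, (X ∩ Y).Nonempty) ∧
              ∀ Z : Finset (Fin n), Z ⊆ Y → (∀ X ∈ C, (X ∩ Z).Nonempty) → Z = Y) →
            q Y ∈ Y) ∧
          (∀ X ∈ C, ∀ Y : Finset (Fin n),
            ((∀ X' ∈ C, (X' ∩ Y).Nonempty) ∧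
              ∀ Z : Finset (Fin n), Z ⊆ Y → (∀ X' ∈ C, (X' ∩ Z).Nonempty) → Z = Y) →
            p X = q Y → 1 < (X ∩ Y).card))) := by
  intro h
  have hc : ∀ X ∈ CC, ∀ Y ∈ CC, X ⊆ Y → X = Y := fun X hX Y hY k =>
    Finset.eq_of_subset_of_card_le k (by rw [card_mem X hX, card_mem Y hY])
  obtain ⟨p, q, h1, h2, h3⟩ := (h 11 CC hc).1 (by
    intro k
    obtain ⟨B, b1, b2⟩ := k (fun _ => 1) (fun _ => zero_le_one) (fun _ => 1 / 3)
      (fun _ => by norm_num) (fun X hX => by simp [card_mem X hX])
    simp only [Finset.sum_const, nsmul_eq_mul, mul_one, one_mul, Finset.card_univ,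
      Fintype.card_fin] at b2
    have b3 : B.card ≤ 3 := by
      have : (B.card : ℝ) < 4 := by push_cast at b2; linarith
      have : B.card < 4 := by exact_mod_cast this
      omega
    have b4 := Finset.sum_card_inter_le (s := B) (B := CC) (n := 3) (fun v _ => deg v)
    have b5 : ∑ _t ∈ CC, 1 ≤ ∑ t ∈ CC, (B ∩ t).card := Finset.sum_le_sum fun t ht => by
      rw [Finset.inter_comm]; exact (b1 t ht).card_pos
    rw [Finset.sum_const, card_CC] at b5
    simp only [smul_eq_mul] at b5
    omega)
  have hb : ∀ j < 36, (yy j).testBit (q (toF (yy j))) = true := fun j hj =>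
    mem_toF.1 (h2 _ (blk _ (yy_mem j hj)))
  have := go_sound (fun X => p (toF X)) (fun j => q (toF (yy j))) hb tb st0
    (fun e he => ⟨(tb_ok e he).1, mem_toF.1 (h1 _ (mem_CC.2 ⟨_, (tb_ok e he).2, rfl⟩)),
      fun j hj k => h3 _ (mem_CC.2 ⟨_, (tb_ok e he).2, rfl⟩) _ (blk _ (yy_mem j hj)) k⟩)
    (fun j hj => st0_ok j hj _ (hb j hj))
  rw [go_true] at this
  exact Bool.noConfusion this

end Pool.Agent.S10096
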