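import Pool.Statements.S10106
import Pool.Agent.H12.BiLip

set_option autoImplicit false
open Pool Pool.MP_8f9b2f_co

namespace Pool.Agent.S10106

/-- The negation of the preceding statement: There exist α<2 and K such that for every n≥1 and all balanced f,g on {0,1}^n, some bijection φ with g∘φ=f has Hamming-Lipschitz constants of φ and φ⁻¹ whose product is at most K·n^α. -/
theorem result :
    ¬ (∃ α : ℝ, α < 2 ∧ ∃ K : ℝ, ∀ n : ℕ, 1 ≤ n → ∀ f g : (Fin n → Bool) → Bool,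
      2 * (Finset.univ.filter (fun x => f x = true)).card = 2 ^ n →
      2 * (Finset.univ.filter (fun x => g x = true)).card = 2 ^ n →
      ∃ φ : (Fin n → Bool) ≃ (Fin n → Bool), (∀ x, g (φ x) = f x) ∧
        ∃ C₁ C₂ : ℝ, 0 ≤ C₁ ∧ 0 ≤ C₂ ∧
          (∀ x y, (hammingDist (φ x) (φ y) : ℝ) ≤ C₁ * (hammingDist x y : ℝ)) ∧
          (∀ x y, (hammingDist (φ.symm x) (φ.symm y) : ℝ) ≤ C₂ * (hammingDist x y : ℝ)) ∧
          C₁ * C₂ ≤ K * (n : ℝ) ^ α) := by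
  rintro ⟨α, hα, K, h⟩
  have ht : Filter.Tendsto (fun N : ℕ => (((2 * (2 * N + 1) + 2 : ℕ) : ℝ)) ^ (2 - α)) Filter.atTop Filter.atTop := by
    apply (tendsto_rpow_atTop (by linarith : 0 < 2 - α)).comp
    apply tendsto_natCast_atTop_atTop.comp
    apply Filter.tendsto_atTop_mono (f := fun N : ℕ => N)
    · intro N; omega
    · exact Filter.tendsto_id
  obtain ⟨N, hN⟩ := (ht.eventually_ge_atTop (256 * K)).exists
  obtain ⟨k, hk⟩ : ∃ k, k = 2 * N + 1 := ⟨_, rfl⟩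
  rw [← hk] at hN
  have hk1 : k % 2 = 1 := by omega
  obtain ⟨φ, hφ, C₁, C₂, hC₁, hC₂, hL₁, hL₂, hK⟩ :=
    h (2 * k + 2) (by omega) (Pool.Agent.H12.BiLip.f k) (fun x => !(Pool.Agent.H12.BiLip.f k x))
      (Pool.Agent.H12.BiLip.bal k hk1) (Pool.Agent.H12.BiLip.bal' k hk1)
  have a1 : (k : ℝ) < 4 * C₁ := by
    refine Pool.Agent.H12.BiLip.lip_lower k φ ?_ (φ.symm (fun _ => false)) (by simp) C₁ hC₁ hL₁
    intro x
    rw [← hφ x]; simp
  have a2 : (k : ℝ) < 4 * C₂ := by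
    refine Pool.Agent.H12.BiLip.lip_lower k φ.symm ?_ (φ (fun _ => false)) (by simp) C₂ hC₂ hL₂
    intro x
    have := hφ (φ.symm x)
    simp only [Equiv.apply_symm_apply] at this
    exact this.symm
  have hn : (0 : ℝ) < ((2 * k + 2 : ℕ) : ℝ) := by positivity
  have e : ((2 * k + 2 : ℕ) : ℝ) ^ (2 - α) * ((2 * k + 2 : ℕ) : ℝ) ^ α = ((2 * k + 2 : ℕ) : ℝ) ^ 2 := by
    rw [← Real.rpow_add hn]
    norm_num
  have hp : (0 : ℝ) < ((2 * k + 2 : ℕ) : ℝ) ^ α := Real.rpow_pos_of_pos hn α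
  have b1 : 256 * K * ((2 * k + 2 : ℕ) : ℝ) ^ α ≤ ((2 * k + 2 : ℕ) : ℝ) ^ 2 := by
    rw [← e]
    exact mul_le_mul_of_nonneg_right hN hp.le
  have hk0 : (1 : ℝ) ≤ k := by
    have : 1 ≤ k := by omega
    exact_mod_cast this
  have b2 : ((2 * k + 2 : ℕ) : ℝ) ^ 2 ≤ 16 * (k : ℝ) ^ 2 := by
    push_cast
    nlinarith
  have b3 : (k : ℝ) * k < (4 * C₁) * (4 * C₂) := mul_lt_mul'' a1 a2 (by positivity) (by positivity)
  nlinarith

end Pool.Agent.S10106
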