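import Pool.Statements.S10114
-- import your own Pool.Agent.* helpers here

set_option autoImplicit false
open Pool Pool.MP_903d4d_co

namespace Pool.Agent.S10114

/-- adjacency of the house graph (complement of the path on five vertices) -/
def adjB (i j : Fin 5) : Bool :=
  (![![false, true, true, false, true], ![true, false, true, false, false],
     ![true, true, false, true, false], ![false, false, true, false, true],
     ![true, false, false, true, false]] : Fin 5 → Fin 5 → Bool) i j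

def house : SimpleGraph (Fin 5) where
  Adj i j := adjB i j = true
  symm := ⟨by decide⟩
  loopless := ⟨by decide⟩

lemma house_adj (i j : Fin 5) : house.Adj i j ↔ adjB i j = true := Iff.rfl

lemma no_diamond : ∀ x y z w : Fin 5, x ≠ y → adjB z w = true → adjB x z = true →
    adjB x w = true → adjB y z = true → adjB y w = true → False := by decide

lemma up (x y : ℝ) (hx : 0 ≤ x) (hy : 0 ≤ y) (h : x ^ 6 ≤ y ^ 5) : x ^ ((6 : ℝ) / 5) ≤ y := by
  have h1 : (x ^ ((6 : ℝ) / 5)) ^ 5 = x ^ 6 := by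
    rw [← Real.rpow_natCast, ← Real.rpow_mul hx]; norm_num
  exact (pow_le_pow_iff_left₀ (Real.rpow_nonneg hx _) hy (by norm_num : (5 : ℕ) ≠ 0)).1 (h1 ▸ h)

lemma low (x y : ℝ) (hx : 0 ≤ x) (hy : 0 ≤ y) (h : y ^ 5 ≤ x ^ 6) : y ≤ x ^ ((6 : ℝ) / 5) := by
  have h1 : (x ^ ((6 : ℝ) / 5)) ^ 5 = x ^ 6 := by
    rw [← Real.rpow_natCast, ← Real.rpow_mul hx]; norm_num
  exact (pow_le_pow_iff_left₀ hy (Real.rpow_nonneg hx _) (by norm_num : (5 : ℕ) ≠ 0)).1 (h1 ▸ h)

/-- the five vectors, as columns -/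
def U : Matrix (Fin 3) (Fin 5) ℝ := !![1, 30, 24, 0, 1; 0, 1, 11, 0, -30; 0, 0, 1, 1, 306]

def A : Matrix (Fin 5) (Fin 5) ℝ :=
  !![1, 30, 24, 0, 1; 30, 901, 731, 0, 0; 24, 731, 698, 1, 0; 0, 0, 1, 1, 306; 1, 0, 0, 306, 94537]

lemma A_eq : A = U.conjTranspose * U := by
  ext i j
  fin_cases i <;> fin_cases j <;>
    simp [A, U, Matrix.mul_apply, Fin.sum_univ_three] <;> norm_num

lemma A_psd : A.PosSemidef := by
  rw [A_eq]; exact Matrix.posSemidef_conjTranspose_mul_self U

lemma A_not : ¬ (A.map (fun x : ℝ => x ^ ((6 : ℝ) / 5))).PosSemidef := by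
  intro h
  have h1 := h.dotProduct_mulVec_nonneg ![52004, -950, 94, -2978, 3]
  have z : (0 : ℝ) ^ ((6 : ℝ) / 5) = 0 := Real.zero_rpow (by norm_num)
  have b12 := low 30 59.23051 (by norm_num) (by norm_num) (by norm_num)
  have b13 := up 24 45.3163 (by norm_num) (by norm_num) (by norm_num)
  have b22 := up 901 3512.933 (by norm_num) (by norm_num) (by norm_num)
  have b23 := low 731 2733.385 (by norm_num) (by norm_num) (by norm_num)
  have b33 := up 698 2585.99 (by norm_num) (by norm_num) (by norm_num)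
  have b45 := low 306 961.31 (by norm_num) (by norm_num) (by norm_num)
  have b55 := up 94537 934808 (by norm_num) (by norm_num) (by norm_num)
  simp [A, Matrix.mulVec, dotProduct, Fin.sum_univ_five, z] at h1
  linarith

/-- The negation of the preceding statement: For every graph with at least 2 vertices, let r be the largest r with K_r minus an edge as a subgraph. Then the Hadamard critical exponent is r-2: all real powers at least r-2 keep every nonnegative PSD G-patterned matrix PSD, and no smaller threshold works. -/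
theorem result :
    ¬ (∀ (V : Type) [Fintype V] [DecidableEq V] (G : SimpleGraph V), 2 ≤ Fintype.card V →
    ∀ r : ℕ,
      ((∃ f : Fin r → V, Function.Injective f ∧ ∃ a b : Fin r, a ≠ b ∧
          ∀ i j : Fin r, i ≠ j → ¬(i = a ∧ j = b) → ¬(i = b ∧ j = a) → G.Adj (f i) (f j)) ∧
       (∀ s : ℕ, (∃ f : Fin s → V, Function.Injective f ∧ ∃ a b : Fin s, a ≠ b ∧
          ∀ i j : Fin s, i ≠ j → ¬(i = a ∧ j = b) → ¬(i = b ∧ j = a) → G.Adj (f i) (f j)) →
          s ≤ r)) →
      ((∀ β : ℝ, 0 < β → (r : ℝ) - 2 ≤ β →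
          ∀ A : Matrix V V ℝ, A.PosSemidef → (∀ i j, 0 ≤ A i j) →
            (∀ i j, i ≠ j → ¬ G.Adj i j → A i j = 0) →
            (A.map (fun x : ℝ => x ^ β)).PosSemidef) ∧
       (∀ α : ℝ, 0 ≤ α → α < (r : ℝ) - 2 →
          ∃ β : ℝ, α ≤ β ∧ 0 < β ∧ ∃ A : Matrix V V ℝ, A.PosSemidef ∧ (∀ i j, 0 ≤ A i j) ∧
            (∀ i j, i ≠ j → ¬ G.Adj i j → A i j = 0) ∧
            ¬ (A.map (fun x : ℝ => x ^ β)).PosSemidef))) := by
  intro H
  have h := (H (Fin 5) house (by simp) 3 ⟨⟨![0, 1, 2], by decide, 0, 1, by decide, ?_⟩, ?_⟩).1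
  · refine A_not (h ((6 : ℝ) / 5) (by norm_num) (by norm_num) A A_psd ?_ ?_)
    · intro i j
      fin_cases i <;> fin_cases j <;> simp [A]
    · intro i j hij hadj
      rw [house_adj] at hadj
      fin_cases i <;> fin_cases j <;> first | (exfalso; revert hij hadj; decide) | simp [A]
  · intro i j
    rw [house_adj]
    revert i j
    decide
  · rintro s ⟨f, hf, a, b, hab, hadj⟩
    by_contra hs
    have hc : 1 < ((Finset.univ : Finset (Fin s)) \ {a, b}).card := by
      rw [Finset.card_sdiff_of_subset (Finset.subset_univ _), Finset.card_pair hab]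
      simp only [Finset.card_univ, Fintype.card_fin]
      omega
    obtain ⟨c, hc1, d, hd1, hcd⟩ := Finset.one_lt_card.1 hc
    simp only [Finset.mem_sdiff, Finset.mem_univ, true_and, Finset.mem_insert,
      Finset.mem_singleton, not_or] at hc1 hd1
    refine no_diamond (f a) (f b) (f c) (f d) (fun e => hab (hf e)) ?_ ?_ ?_ ?_ ?_
    · exact hadj c d hcd (fun e => hc1.1 e.1) (fun e => hc1.2 e.1)
    · exact hadj a c (fun e => hc1.1 e.symm) (fun e => hc1.2 e.2) (fun e => hc1.1 e.2)
    · exact hadj a d (fun e => hd1.1 e.symm) (fun e => hd1.2 e.2) (fun e => hd1.1 e.2)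
    · exact hadj b c (fun e => hc1.2 e.symm) (fun e => hc1.2 e.2) (fun e => hc1.1 e.2)
    · exact hadj b d (fun e => hd1.2 e.symm) (fun e => hd1.2 e.2) (fun e => hd1.1 e.2)

end Pool.Agent.S10114
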