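import Pool.Statements.S10161
import Pool.Agent.H3.Bip

set_option autoImplicit false
open Pool Pool.MP_9219e0_co

namespace Pool.Agent.S10161

/-- For every subgraph-closed class of bipartite graphs whose associated height-2 posets (lower side below adjacent upper vertices) all have dimension at most some d, there is D with every member having at most D times its vertex count edges. -/
theorem result :
    ∀ C : (m : ℕ) → (n : ℕ) → (Fin m → Fin n → Prop) → Prop,
      (∀ (m n : ℕ) (R : Fin m → Fin n → Prop) (m' n' : ℕ) (R' : Fin m' → Fin n' → Prop)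
          (e : Fin m' ↪ Fin m) (g : Fin n' ↪ Fin n),
          C m n R → (∀ a b, R' a b → R (e a) (g b)) → C m' n' R') →
      (∃ d : ℕ, ∀ (m n : ℕ) (R : Fin m → Fin n → Prop), C m n R →
          ∃ f : Fin d → (Fin m ⊕ Fin n) → ℕ,
            (∀ i, Function.Injective (f i)) ∧
            ∀ x y : Fin m ⊕ Fin n, x ≠ y →
              ((∃ a b, x = Sum.inl a ∧ y = Sum.inr b ∧ R a b) ↔ ∀ i, f i x < f i y)) →
      ∃ D : ℕ, ∀ (m n : ℕ) (R : Fin m → Fin n → Prop), C m n R →
        Set.ncard {p : Fin m × Fin n | R p.1 p.2} ≤ D * (m + n) := by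
  classical
  rintro C hmono ⟨d, hd⟩
  obtain ⟨c, hc⟩ := Pool.Agent.H3.Bip.count_bip d
  refine ⟨c, ?_⟩
  intro m n R hR
  have h := hc (Fin m) (Fin n) (Finset.univ.filter (fun p => R p.1 p.2)) (by
    intro S hS
    have hC : C m n (fun a b => (a, b) ∈ S) :=
      hmono m n R m n _ (Function.Embedding.refl _) (Function.Embedding.refl _) hR (by
        intro a b hab
        simpa using hS hab)
    obtain ⟨f, -, hf⟩ := hd m n _ hC
    refine ⟨fun i a => (f i (Sum.inl a) : ℝ), fun i b => (f i (Sum.inr b) : ℝ), ?_⟩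
    rintro ⟨a, b⟩ -
    have := hf (Sum.inl a) (Sum.inr b) (by simp)
    simp only [Nat.cast_lt]
    rw [← this]
    simp)
  simp only [Fintype.card_fin] at h
  have e : {p : Fin m × Fin n | R p.1 p.2} =
      ↑(Finset.univ.filter (fun p : Fin m × Fin n => R p.1 p.2)) := by
    ext p; simp
  rw [e, Set.ncard_coe_finset]
  exact h

end Pool.Agent.S10161
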