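import Pool.Statements.S10196
import Pool.Agent.H7.MisHub

set_option autoImplicit false
open Pool Pool.MP_93ee52_co

namespace Pool.Agent.S10196

/-- The negation of the preceding statement: For every n, every triangle-free simple graph on 10n vertices in which each vertex has degree at least 3 has at most 15^n maximal independent sets (independent sets maximal under inclusion). -/
theorem result :
    ¬ (∀ (n : ℕ) (G : SimpleGraph (Fin (10 * n))) [DecidableRel G.Adj],
      G.CliqueFree 3 →
      (∀ v : Fin (10 * n), 3 ≤ G.degree v) →
      {s : Set (Fin (10 * n)) | Maximal G.IsIndepSet s}.ncard ≤ 15 ^ n) := by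
  intro H
  have h := H 2 Pool.Agent.H7.MisHub.G Pool.Agent.H7.MisHub.tf Pool.Agent.H7.MisHub.deg
  have h' := Pool.Agent.H7.MisHub.many
  exact absurd (h'.trans h) (by norm_num)

end Pool.Agent.S10196
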