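import Pool.Statements.S10198
import Pool.Agent.H11.Hit

set_option autoImplicit false
open Pool Pool.MP_94225f_co

namespace Pool.Agent.S10198
open Pool.Agent.H11

/-- circulant graph on 12 vertices with jumps 1, 2, 5 -/
def eA (a b : ℕ) : Bool :=
  let d := (a + 12 - b) % 12
  d == 1 || d == 11 || d == 2 || d == 10 || d == 5 || d == 7

/-- prism over the circulant graph on 12 vertices with jumps 3, 4, 6 -/
def eB (a b : ℕ) : Bool :=
  let d := (a + 24 - b) % 12
  if a / 12 == b / 12 then d == 3 || d == 9 || d == 4 || d == 8 || d == 6 else d == 0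

def A : SimpleGraph (Fin 12) where
  Adj a b := eA a.val b.val = true
  symm := ⟨by decide +kernel⟩
  loopless := ⟨by decide +kernel⟩

def B : SimpleGraph (Fin 24) where
  Adj a b := eB a.val b.val = true
  symm := ⟨by decide +kernel⟩
  loopless := ⟨by decide +kernel⟩

def col (a : Fin 12) (b : Fin 24) : Fin 12 := ⟨(a.val + b.val) % 12, by omega⟩

lemma col_ok : ∀ (a : Fin 12) (b : Fin 24) (i : Fin 12),
    (∃ c : Fin 12, eA a.val c.val = true ∧ col c b = i) ∨
      (∃ c : Fin 24, eB b.val c.val = true ∧ col a c = i) := by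
  decide +kernel

lemma chkA : hitChk 12 12 (fun u v => u == v || eA v u) 2 [] = true := by decide +kernel
lemma chkB : hitChk 24 24 (fun u v => u == v || eB v u) 4 [] = true := by decide +kernel

/-- The negation of the preceding statement: For finite nonempty graphs G, H without isolated vertices, if the Cartesian product splits into k total dominating sets, then for some m with k ≤ 2m+1, G or H splits into m dominating sets; that is, d_t(G□H) ≤ 2max(d(G),d(H))+1. -/
theorem result :
    ¬ (∀ (V W : Type) [Fintype V] [Fintype W] [Nonempty V] [Nonempty W]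
      (G : SimpleGraph V) (H : SimpleGraph W),
      (∀ v : V, ∃ u : V, G.Adj v u) →
      (∀ w : W, ∃ u : W, H.Adj w u) →
      ∀ k : ℕ,
        (∃ f : V × W → Fin k, ∀ x : V × W, ∀ i : Fin k,
            ∃ y : V × W, (SimpleGraph.boxProd G H).Adj x y ∧ f y = i) →
        ∃ m : ℕ, k ≤ 2 * m + 1 ∧
          ((∃ c : V → Fin m, ∀ v : V, ∀ i : Fin m,
              ∃ u : V, (u = v ∨ G.Adj v u) ∧ c u = i) ∨
           (∃ c : W → Fin m, ∀ w : W, ∀ i : Fin m,
              ∃ u : W, (u = w ∨ H.Adj w u) ∧ c u = i))) := by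
  intro H
  have hA : ∀ v, ∃ u, A.Adj v u := by
    show ∀ v : Fin 12, ∃ u : Fin 12, eA v.val u.val = true
    decide +kernel
  have hB : ∀ v, ∃ u, B.Adj v u := by
    show ∀ v : Fin 24, ∃ u : Fin 24, eB v.val u.val = true
    decide +kernel
  obtain ⟨j, hk, hj⟩ := H _ _ A B hA hB 12 ⟨fun p => col p.1 p.2, by
    rintro ⟨a, b⟩ i
    rcases col_ok a b i with ⟨c, h1, h2⟩ | ⟨c, h1, h2⟩
    · exact ⟨(c, b), by simp [A, h1], h2⟩
    · exact ⟨(a, c), by simp [B, h1], h2⟩⟩
  rcases hj with ⟨g, hg⟩ | ⟨g, hg⟩
  · have := classes_bound (k := 2) g (fun i => hit_card _ chkA _ (fun v => by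
      obtain ⟨u, h1, h2⟩ := hg v i
      refine ⟨u, by simp [h2], ?_⟩
      rcases h1 with h1 | h1
      · simp [h1]
      · simp [show eA v.val u.val = true from h1]))
    omega
  · have := classes_bound (k := 4) g (fun i => hit_card _ chkB _ (fun v => by
      obtain ⟨u, h1, h2⟩ := hg v i
      refine ⟨u, by simp [h2], ?_⟩
      rcases h1 with h1 | h1
      · simp [h1]
      · simp [show eB v.val u.val = true from h1]))
    omega

end Pool.Agent.S10198
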