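import Pool.Statements.S10267
import Pool.Agent.H7.Derived

set_option autoImplicit false
open Pool Pool.MP_96d021_co

namespace Pool.Agent.S10267

/-- There is a positive f such that every finite multi-hypergraph of rank at most r (r ≥ 1) whose derived graphs are all d-colourable has a strong colouring with at most f(d)·r colours. -/
theorem result :
    ∃ f : ℕ → ℝ, (∀ n, 0 < f n) ∧
      ∀ (V ι : Type) [Fintype V] [Fintype ι] (e : ι → Finset V) (d r : ℕ),
        1 ≤ r → (∀ i, (e i).card ≤ r) →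
        (∀ p : ι → V × V,
            (∀ i, 2 ≤ (e i).card →
              (p i).1 ∈ e i ∧ (p i).2 ∈ e i ∧ (p i).1 ≠ (p i).2) →
            (SimpleGraph.fromRel
              (fun u v : V => ∃ i, 2 ≤ (e i).card ∧ p i = (u, v))).Colorable d) →
        ∃ k : ℕ, (k : ℝ) ≤ f d * (r : ℝ) ∧
          ∃ c : V → Fin k, ∀ i, Set.InjOn c ((e i : Finset V) : Set V) := by
  classical
  refine ⟨fun d => (2 * (2 * ((d + 2) ^ 2 * d) * (4 * d + 9)) + 1) *
    (d : ℝ) ^ ((2 * d + 4 + 1) * (2 * d + 4 + 1)) + 1, fun n => by positivity, ?_⟩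
  intro V ι _ _ e d r hr1 hr H
  rcases isEmpty_or_nonempty V with hV | hV
  · exact ⟨0, by push_cast; positivity, isEmptyElim, fun i u _ => isEmptyElim u⟩
  have hcol : Pool.Agent.H7.Derived.Col e d := by
    intro R h1 h2
    have : ∀ i, ∃ p : V × V, (2 ≤ (e i).card → p.1 ∈ e i ∧ p.2 ∈ e i ∧ p.1 ≠ p.2) ∧
        ∀ u v, R i u v → p = (u, v) := by
      intro i
      by_cases h : ∃ u v, R i u v
      · obtain ⟨u, v, h⟩ := h
        exact ⟨(u, v), fun _ => h1 i u v h, fun u' v' h' => Prod.ext (h2 i _ _ _ _ h h').1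
          (h2 i _ _ _ _ h h').2⟩
      by_cases h' : 2 ≤ (e i).card
      · obtain ⟨u, hu, v, hv, huv⟩ := Finset.one_lt_card.1 (show 1 < (e i).card by omega)
        exact ⟨(u, v), fun _ => ⟨hu, hv, huv⟩, fun u v h'' => absurd ⟨u, v, h''⟩ h⟩
      · exact ⟨(Classical.arbitrary V, Classical.arbitrary V), fun h'' => absurd h'' h',
          fun u v h'' => absurd ⟨u, v, h''⟩ h⟩
    choose p hp hp' using this
    obtain ⟨c⟩ := H p hp
    refine ⟨c, fun i u v h => c.valid ?_⟩
    obtain ⟨hu, hv, huv⟩ := h1 i u v h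
    rw [SimpleGraph.fromRel_adj]
    exact ⟨huv, Or.inl ⟨i, Finset.one_lt_card.2 ⟨u, hu, v, hv, huv⟩, hp' i u v h⟩⟩
  obtain ⟨ψ, hψ⟩ := Pool.Agent.H7.Derived.defective e (2 * d + 4) _ r (by omega) hr
    (fun S E s => Pool.Agent.H7.Derived.sparse2 hcol S E s) _ Finset.univ rfl
  simp only [Finset.inter_univ] at hψ
  obtain ⟨c, hc⟩ := Pool.Agent.H7.Derived.strong hcol ψ hψ
  refine ⟨_, ?_, fun v => Fintype.equivFin _ (c v),
    fun i u hu v hv h => hc i hu hv ((Fintype.equivFin _).injective h)⟩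
  simp only [Fintype.card_prod, Fintype.card_fin, Fintype.card_fun]
  push_cast
  have h1 : (1 : ℝ) ≤ r := by exact_mod_cast hr1
  have h2 : (0 : ℝ) ≤ (d : ℝ) ^ ((2 * d + 4 + 1) * (2 * d + 4 + 1)) := by positivity
  nlinarith

end Pool.Agent.S10267
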