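import Pool.Statements.S10340

set_option autoImplicit false
open Pool Pool.MP_9a0e7c_co

namespace Pool.Agent.S10340

open scoped RealInnerProductSpace

noncomputable def emb : EuclideanSpace ℝ (Fin 3) →ₗᵢ[ℝ] EuclideanSpace ℝ (Fin 5) where
  toFun x := !₂[x 0, x 1, x 2, 0, 0]
  map_add' x y := by
    ext i; fin_cases i <;> simp
  map_smul' c x := by
    ext i; fin_cases i <;> simp
  norm_map' x := by
    simp [EuclideanSpace.norm_eq, Fin.sum_univ_succ]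

/-- Four extreme rays of a quadrilateral cone, then its four outer facet normals. -/
noncomputable def P : Fin 8 → EuclideanSpace ℝ (Fin 3) :=
  ![!₂[1, 0, 0], !₂[0, 1, 0], !₂[0, 13/85, 84/85], !₂[104/185, 0, 153/185],
    !₂[0, 0, -1], !₂[-1, 0, 0], !₂[0, -1, 0], !₂[-153/697, -672/697, 104/697]]

/-- The same four rays, then the four inner facet normals (a contraction of `P`). -/
noncomputable def Q : Fin 8 → EuclideanSpace ℝ (Fin 3) :=
  ![!₂[1, 0, 0], !₂[0, 1, 0], !₂[0, 13/85, 84/85], !₂[104/185, 0, 153/185],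
    !₂[0, 0, 1], !₂[1, 0, 0], !₂[0, 1, 0], !₂[153/697, 672/697, -104/697]]

lemma inner3 (x y : EuclideanSpace ℝ (Fin 3)) :
    ⟪x, y⟫ = x 0 * y 0 + x 1 * y 1 + x 2 * y 2 := by
  simp [PiLp.inner_apply, Fin.sum_univ_succ]; ring

lemma norm_of_inner {V : Type*} [NormedAddCommGroup V] [InnerProductSpace ℝ V] (x : V)
    (h : ⟪x, x⟫ = 1) : ‖x‖ = 1 := by
  rw [real_inner_self_eq_norm_sq] at h
  have := norm_nonneg x
  nlinarith

lemma P_norm (i : Fin 8) : ‖P i‖ = 1 := by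
  apply norm_of_inner
  rw [inner3]
  fin_cases i <;> simp [P] <;> norm_num

lemma Q_norm (i : Fin 8) : ‖Q i‖ = 1 := by
  apply norm_of_inner
  rw [inner3]
  fin_cases i <;> simp [Q] <;> norm_num

lemma dist_sq {V : Type*} [NormedAddCommGroup V] [InnerProductSpace ℝ V] (x y : V)
    (hx : ‖x‖ = 1) (hy : ‖y‖ = 1) : dist x y ^ 2 = 2 - 2 * ⟪x, y⟫ := by
  rw [dist_eq_norm, norm_sub_sq_real, hx, hy]; ring

lemma six (a0 a1 a2 a3 a4 a5 a6 a7 : EuclideanSpace ℝ (Fin 5))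
    (h00 : ⟪a0, a0⟫ = 1) (h11 : ⟪a1, a1⟫ = 1) (h22 : ⟪a2, a2⟫ = 1) (h33 : ⟪a3, a3⟫ = 1)
    (h44 : ⟪a4, a4⟫ = 1) (h55 : ⟪a5, a5⟫ = 1) (h66 : ⟪a6, a6⟫ = 1) (h77 : ⟪a7, a7⟫ = 1)
    (h01 : ⟪a0, a1⟫ = 0) (h02 : ⟪a0, a2⟫ = 0) (h03 : ⟪a0, a3⟫ = 104/185)
    (h12 : ⟪a1, a2⟫ = 13/85) (h13 : ⟪a1, a3⟫ = 0) (h23 : ⟪a2, a3⟫ = 84/85 * (153/185))
    (h45 : ⟪a4, a5⟫ = 0) (h46 : ⟪a4, a6⟫ = 0) (h47 : ⟪a4, a7⟫ = -104/697)
    (h56 : ⟪a5, a6⟫ = 0) (h57 : ⟪a5, a7⟫ = 153/697) (h67 : ⟪a6, a7⟫ = 672/697)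
    (h04 : ⟪a0, a4⟫ = 0) (h14 : ⟪a1, a4⟫ = 0) (h15 : ⟪a1, a5⟫ = 0) (h25 : ⟪a2, a5⟫ = 0)
    (h06 : ⟪a0, a6⟫ = 0) (h36 : ⟪a3, a6⟫ = 0) (h27 : ⟪a2, a7⟫ = 0) (h37 : ⟪a3, a7⟫ = 0)
    (h05 : ⟪a0, a5⟫ = 0) : False := by
  have c := fun (x y : EuclideanSpace ℝ (Fin 5)) => real_inner_comm x y
  have r1 : (185 * 84 : ℝ) • a3 - (104 * 84 : ℝ) • a0 - (153 * 85 : ℝ) • a2 + (153 * 13 : ℝ) • a1 = 0 := by
    rw [← inner_self_eq_zero (𝕜 := ℝ)]
    simp only [inner_add_left, inner_add_right, inner_sub_left, inner_sub_right,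
      real_inner_smul_left, real_inner_smul_right]
    rw [c a0 a3, c a2 a3, c a1 a3, c a0 a2, c a0 a1, c a1 a2]
    rw [h00, h11, h22, h33, h01, h02, h03, h12, h13, h23]; norm_num
  have r2 : (697 : ℝ) • a7 - (153 : ℝ) • a5 - (672 : ℝ) • a6 + (104 : ℝ) • a4 = 0 := by
    rw [← inner_self_eq_zero (𝕜 := ℝ)]
    simp only [inner_add_left, inner_add_right, inner_sub_left, inner_sub_right,
      real_inner_smul_left, real_inner_smul_right]
    rw [c a5 a7, c a6 a7, c a4 a7, c a5 a6, c a4 a5, c a4 a6]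
    rw [h44, h55, h66, h77, h45, h46, h47, h56, h57, h67]; norm_num
  have e1 : ∀ y, 185 * 84 * ⟪a3, y⟫ - 104 * 84 * ⟪a0, y⟫ - 153 * 85 * ⟪a2, y⟫
      + 153 * 13 * ⟪a1, y⟫ = (0 : ℝ) := by
    intro y
    have := congrArg (fun v => ⟪v, y⟫) r1
    simpa only [inner_add_left, inner_sub_left, real_inner_smul_left, inner_zero_left] using this
  have e2 : ∀ x, 697 * ⟪x, a7⟫ - 153 * ⟪x, a5⟫ - 672 * ⟪x, a6⟫ + 104 * ⟪x, a4⟫ = (0 : ℝ) := by
    intro x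
    have := congrArg (fun v => ⟪x, v⟫) r2
    simpa only [inner_add_right, inner_sub_right, real_inner_smul_right, inner_zero_right] using this
  have f4 := e1 a4
  have f5 := e1 a5
  have f6 := e1 a6
  have g2 := e2 a2
  have g3 := e2 a3
  have h16 : ⟪a1, a6⟫ = 0 := by linarith
  have h24 : ⟪a2, a4⟫ = 0 := by linarith
  have h26 : ⟪a2, a6⟫ = 0 := by linarith
  have hon : Orthonormal ℝ (![a0, a1, (85/84 : ℝ) • a2 - (13/84 : ℝ) • a1, a4, a5, a6] :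
      Fin 6 → EuclideanSpace ℝ (Fin 5)) := by
    rw [orthonormal_iff_ite]
    have k10 := c a0 a1
    have k20 := c a0 a2
    have k21 := c a1 a2
    have k40 := c a0 a4
    have k41 := c a1 a4
    have k42 := c a2 a4
    have k50 := c a0 a5
    have k51 := c a1 a5
    have k52 := c a2 a5
    have k60 := c a0 a6
    have k61 := c a1 a6
    have k62 := c a2 a6
    have k54 := c a4 a5
    have k64 := c a4 a6
    have k65 := c a5 a6
    intro i j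
    fin_cases i <;> fin_cases j <;>
      simp only [Fin.zero_eta, Fin.mk_one, Fin.reduceFinMk, Matrix.cons_val, Fin.isValue,
        inner_sub_left, inner_sub_right, real_inner_smul_left, real_inner_smul_right,
        Fin.reduceEq, if_true, if_false, reduceIte] <;> linarith
  have := hon.linearIndependent.fintype_card_le_finrank
  simp at this

/-- The negation of the preceding statement: For any two N-point configurations on the 2-sphere, placed in the 4-sphere, there is a continuous piecewise-analytic motion in the 4-sphere from one to the other along which every pairwise distance changes monotonically. -/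
theorem result :
    ¬ (∀ (N : ℕ) (p q : Fin N → EuclideanSpace ℝ (Fin 3)),
    (∀ i, ‖p i‖ = 1) → (∀ i, ‖q i‖ = 1) →
    ∀ ι : EuclideanSpace ℝ (Fin 3) →ₗᵢ[ℝ] EuclideanSpace ℝ (Fin 5),
    ∃ m : ℝ → Fin N → EuclideanSpace ℝ (Fin 5),
      m 0 = (fun i => ι (p i)) ∧ m 1 = (fun i => ι (q i)) ∧
      ContinuousOn m (Set.Icc 0 1) ∧
      (∀ t ∈ Set.Icc (0:ℝ) 1, ∀ i, ‖m t i‖ = 1) ∧
      (∃ (K : ℕ) (s : ℕ → ℝ), s 0 = 0 ∧ s K = 1 ∧ (∀ k < K, s k < s (k+1)) ∧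
         ∀ k < K, AnalyticOn ℝ m (Set.Icc (s k) (s (k+1)))) ∧
      ∀ i j, MonotoneOn (fun t => dist (m t i) (m t j)) (Set.Icc 0 1) ∨
             AntitoneOn (fun t => dist (m t i) (m t j)) (Set.Icc 0 1)) := by
  intro H
  obtain ⟨m, h0, h1, hc, hn, -, hmon⟩ := H 8 P Q P_norm Q_norm emb
  have z0 : (0:ℝ) ∈ Set.Icc (0:ℝ) 1 := ⟨le_refl _, zero_le_one⟩
  have z1 : (1:ℝ) ∈ Set.Icc (0:ℝ) 1 := ⟨zero_le_one, le_refl _⟩
  have g0 : ∀ i j, ⟪m 0 i, m 0 j⟫ = ⟪P i, P j⟫ := by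
    intro i j; rw [h0]; exact emb.inner_map_map _ _
  have g1 : ∀ i j, ⟪m 1 i, m 1 j⟫ = ⟪Q i, Q j⟫ := by
    intro i j; rw [h1]; exact emb.inner_map_map _ _
  have key : ∀ t ∈ Set.Icc (0:ℝ) 1, ∀ i j, ⟪P i, P j⟫ = ⟪Q i, Q j⟫ →
      ⟪m t i, m t j⟫ = ⟪P i, P j⟫ := by
    intro t ht i j hij
    have d0 := dist_sq _ _ (hn 0 z0 i) (hn 0 z0 j)
    have d1 := dist_sq _ _ (hn 1 z1 i) (hn 1 z1 j)
    have dt := dist_sq _ _ (hn t ht i) (hn t ht j)
    rw [g0] at d0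
    rw [g1, ← hij] at d1
    have e01 : dist (m 0 i) (m 0 j) = dist (m 1 i) (m 1 j) := by
      have a := dist_nonneg (x := m 0 i) (y := m 0 j)
      have b := dist_nonneg (x := m 1 i) (y := m 1 j)
      exact (pow_left_inj₀ a b two_ne_zero).1 (by rw [d0, d1])
    have et : dist (m t i) (m t j) = dist (m 0 i) (m 0 j) := by
      rcases hmon i j with h | h
      · have a := h z0 ht ht.1
        have b := h ht z1 ht.2
        simp only at a b
        linarith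
      · have a := h z0 ht ht.1
        have b := h ht z1 ht.2
        simp only at a b
        linarith
    rw [et, d0] at dt
    linarith
  have hcont : ContinuousOn (fun t => ⟪m t 0, m t 5⟫) (Set.Icc (0:ℝ) 1) :=
    ContinuousOn.inner (𝕜 := ℝ) ((continuous_apply 0).comp_continuousOn hc)
      ((continuous_apply 5).comp_continuousOn hc)
  have hivt := intermediate_value_Icc (zero_le_one' ℝ) hcont
  have hz : (0:ℝ) ∈ Set.Icc ⟪m 0 0, m 0 5⟫ ⟪m 1 0, m 1 5⟫ := by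
    rw [g0, g1, inner3, inner3]; simp [P, Q]
  obtain ⟨t, ht, h05⟩ := hivt hz
  have K := key t ht
  refine six (m t 0) (m t 1) (m t 2) (m t 3) (m t 4) (m t 5) (m t 6) (m t 7)
    ?_ ?_ ?_ ?_ ?_ ?_ ?_ ?_ ?_ ?_ ?_ ?_ ?_ ?_ ?_ ?_ ?_ ?_ ?_ ?_ ?_ ?_ ?_ ?_ ?_ ?_ ?_ ?_ h05
  all_goals
    rw [K _ _ (by rw [inner3, inner3]; simp [P, Q] <;> norm_num), inner3]
    simp [P] <;> norm_num

end Pool.Agent.S10340
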