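import Pool.Statements.S10356
import Pool.Agent.H9.Uni

set_option autoImplicit false
open Pool Pool.MP_9adbbf_co

namespace Pool.Agent.S10356

/-- The negation of the preceding statement: For every finite poset with the up-set (Alexandrov) topology in which every order-preserving self-map has a fixed point, the space is connected and any two closed connected sets covering it have connected intersection. -/
theorem result :
    ¬ (∀ (X : Type) [PartialOrder X] [Fintype X] [TopologicalSpace X] [Topology.IsUpperSet X],
      (∀ f : X →o X, ∃ x, f x = x) →
        (ConnectedSpace X ∧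
          ∀ A B : Set X, IsClosed A → IsClosed B → IsConnected A → IsConnected B →
            A ∪ B = Set.univ → IsConnected (A ∩ B))) := by
  intro h
  exact Pool.Agent.H9.Uni.notconn ((h Pool.Agent.H9.Uni.X Pool.Agent.H9.Uni.fpp).2 _ _
    (Pool.Agent.H9.Uni.closedS _ (by decide +kernel))
    (Pool.Agent.H9.Uni.closedS _ (by decide +kernel))
    Pool.Agent.H9.Uni.connA Pool.Agent.H9.Uni.connB Pool.Agent.H9.Uni.cover)

end Pool.Agent.S10356
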