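import Pool.Statements.S10390
import Pool.Agent.H9.Torus

set_option autoImplicit false
open Pool Pool.MP_9c2e29_co

namespace Pool.Agent.S10390

/-- The negation of the preceding statement: For every finite graph that embeds in the torus, any two proper 5-colorings can be transformed into each other by a finite sequence of Kempe chain swaps (swapping two colors on one connected two-colored component). -/
theorem result :
    ¬ (∀ (V : Type) [Fintype V] (G : SimpleGraph V),
      (∃ (p : V → AddCircle (1:ℝ) × AddCircle (1:ℝ))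
         (γ : V → V → C(unitInterval, AddCircle (1:ℝ) × AddCircle (1:ℝ))),
         Function.Injective p ∧
         (∀ u v, G.Adj u v → γ u v 0 = p u ∧ γ u v 1 = p v ∧ Function.Injective (γ u v)) ∧
         (∀ (u v w : V) (t : unitInterval), G.Adj u v → 0 < (t:ℝ) → (t:ℝ) < 1 →
            γ u v t ≠ p w) ∧
         (∀ (u v u' v' : V) (s t : unitInterval), G.Adj u v → G.Adj u' v' →
            ¬ ((u = u' ∧ v = v') ∨ (u = v' ∧ v = u')) →
            0 < (s:ℝ) → (s:ℝ) < 1 → 0 < (t:ℝ) → (t:ℝ) < 1 → γ u v s ≠ γ u' v' t)) →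
      ∀ c₁ c₂ : G.Coloring (Fin 5),
        Relation.ReflTransGen
          (fun c c' : V → Fin 5 => ∃ (a b : Fin 5) (x : V), ∀ v : V,
            ((SimpleGraph.fromRel (fun y z => G.Adj y z ∧ (c y = a ∨ c y = b) ∧
                (c z = a ∨ c z = b))).Reachable x v → c' v = Equiv.swap a b (c v)) ∧
            (¬ (SimpleGraph.fromRel (fun y z => G.Adj y z ∧ (c y = a ∨ c y = b) ∧
                (c z = a ∨ c z = b))).Reachable x v → c' v = c v))
          (⇑c₁) (⇑c₂)) := by
  intro h
  have h1 := h (Fin 10) H9.Torus.G H9.Torus.emb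
    (SimpleGraph.Coloring.mk H9.Torus.c0 fun {u v} e => H9.Torus.c0_valid u v e)
    (SimpleGraph.Coloring.mk H9.Torus.c1 fun {u v} e => H9.Torus.c1_valid u v e)
  have key : ∀ c c' : Fin 10 → Fin 5, Relation.ReflTransGen
      (fun c c' : Fin 10 → Fin 5 => ∃ (a b : Fin 5) (x : Fin 10), ∀ v : Fin 10,
        ((SimpleGraph.fromRel (fun y z => H9.Torus.G.Adj y z ∧ (c y = a ∨ c y = b) ∧
            (c z = a ∨ c z = b))).Reachable x v → c' v = Equiv.swap a b (c v)) ∧
        (¬ (SimpleGraph.fromRel (fun y z => H9.Torus.G.Adj y z ∧ (c y = a ∨ c y = b) ∧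
            (c z = a ∨ c z = b))).Reachable x v → c' v = c v)) c c' →
      (∃ π : Equiv.Perm (Fin 5), ∀ v, c v = π (H9.Torus.c0 v)) →
      ∃ π : Equiv.Perm (Fin 5), ∀ v, c' v = π (H9.Torus.c0 v) := by
    intro c c' hr h0
    induction hr with
    | refl => exact h0
    | tail _ hs ih =>
      obtain ⟨π, hπ⟩ := ih
      obtain ⟨a, b, x, hs⟩ := hs
      exact H9.Torus.step _ _ π hπ a b x hs
  obtain ⟨π, hπ⟩ := key _ _ h1 ⟨Equiv.refl _, fun _ => rfl⟩
  have e : H9.Torus.c1 2 = H9.Torus.c1 3 := (hπ 2).trans (hπ 3).symm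
  exact absurd e (by decide)

end Pool.Agent.S10390
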