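import Pool.Statements.S10399
-- import your own Pool.Agent.* helpers here

set_option autoImplicit false
open scoped BigOperators
open Pool Pool.MP_9cb2a9_co

namespace Pool.Agent.S10399


section Aux
variable {a : ℕ → ℕ → ℤ}

lemma a_nonneg (h01 : a 0 1 = 1) (h0 : ∀ n : ℕ, 1 < n → a 0 n = 0)
    (hz : ∀ i n : ℕ, n < 2 * i → a i n = 0)
    (hr : ∀ i n : ℕ, 1 ≤ i → 1 ≤ n →
        a i (n + 1) = (i : ℤ) * a i n + ((n : ℤ) - 2 * (i : ℤ) + 2) * a (i - 1) n) :
    ∀ m, 1 ≤ m → ∀ j, 0 ≤ a j m := by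
  intro m hm
  induction m, hm using Nat.le_induction with
  | base =>
    intro j
    rcases Nat.eq_zero_or_pos j with rfl | hj
    · rw [h01]; norm_num
    · rw [hz j 1 (by omega)]
  | succ m hm ih =>
    intro j
    rcases Nat.eq_zero_or_pos j with rfl | hj
    · rw [h0 _ (by omega)]
    · by_cases h : m + 1 < 2 * j
      · rw [hz _ _ h]
      · rw [hr j m hj hm]
        have h1 := ih j
        have h2 := ih (j - 1)
        have h3 : (0 : ℤ) ≤ (m : ℤ) - 2 * (j : ℤ) + 2 := by omega
        positivity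

lemma a_step (hpos : ∀ m, 1 ≤ m → ∀ j, 0 ≤ a j m)
    (hz : ∀ i n : ℕ, n < 2 * i → a i n = 0)
    (hr : ∀ i n : ℕ, 1 ≤ i → 1 ≤ n →
        a i (n + 1) = (i : ℤ) * a i n + ((n : ℤ) - 2 * (i : ℤ) + 2) * a (i - 1) n)
    (i m : ℕ) (hm : 1 ≤ m) : (i : ℤ) * a i m ≤ a i (m + 1) := by
  rcases Nat.eq_zero_or_pos i with rfl | hi
  · simpa using hpos (m + 1) (by omega) 0
  · rw [hr i m hi hm]
    by_cases h : m < 2 * (i - 1)
    · rw [hz _ _ h]; simp
    · have h2 := hpos m hm (i - 1)
      have h3 : (0 : ℤ) ≤ (m : ℤ) - 2 * (i : ℤ) + 2 := by omega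
      have := mul_nonneg h3 h2
      linarith

lemma a_pow (hstep : ∀ i m : ℕ, 1 ≤ m → (i : ℤ) * a i m ≤ a i (m + 1))
    (i m : ℕ) (hm : 1 ≤ m) (d : ℕ) : (i : ℤ) ^ d * a i m ≤ a i (m + d) := by
  induction d with
  | zero => simp
  | succ d ih =>
    have h1 := hstep i (m + d) (by omega)
    have h2 : (i : ℤ) * ((i : ℤ) ^ d * a i m) ≤ i * a i (m + d) :=
      mul_le_mul_of_nonneg_left ih (by positivity)
    rw [pow_succ, ← add_assoc]
    linarith

lemma a_words (hpos : ∀ m, 1 ≤ m → ∀ j, 0 ≤ a j m)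
    (hstep : ∀ i m : ℕ, 1 ≤ m → (i : ℤ) * a i m ≤ a i (m + 1))
    (hr : ∀ i n : ℕ, 1 ≤ i → 1 ≤ n →
        a i (n + 1) = (i : ℤ) * a i n + ((n : ℤ) - 2 * (i : ℤ) + 2) * a (i - 1) n)
    (m : ℕ) (hm : 1 ≤ m) (d : ℕ) : ∀ i e : ℕ, m + d = e + 2 * i →
      ∑ k ∈ Finset.range (i + 1), (if k ≤ d then
        (((e + k).descFactorial k * (i - k) ^ (d - k) : ℕ) : ℤ) * a (i - k) m else 0) ≤
        a i (m + d) := by
  induction d with
  | zero =>
    intro i e _
    rw [Finset.sum_eq_single 0]
    · simp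
    · intro k _ hk
      rw [if_neg (by omega)]
    · simp
  | succ d ih =>
    intro i e he
    rcases i with _ | i
    · simpa using hpos (m + (d + 1)) (by omega) 0
    · rw [Finset.sum_range_succ']
      have h1 := ih i (e + 1) (by omega)
      have h2 := a_pow hstep (i + 1) m hm d
      have h3 := hr (i + 1) (m + d) (by omega) (by omega)
      have h4 : ((m + d : ℕ) : ℤ) - 2 * ((i + 1 : ℕ) : ℤ) + 2 = (e : ℤ) + 1 := by omega
      rw [h4, Nat.add_sub_cancel] at h3
      have h5 : ∑ k ∈ Finset.range (i + 1), (if k + 1 ≤ d + 1 then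
          (((e + (k + 1)).descFactorial (k + 1) * (i + 1 - (k + 1)) ^ (d + 1 - (k + 1)) : ℕ) : ℤ) *
            a (i + 1 - (k + 1)) m else 0) = ((e : ℤ) + 1) *
          ∑ k ∈ Finset.range (i + 1), (if k ≤ d then
            (((e + 1 + k).descFactorial k * (i - k) ^ (d - k) : ℕ) : ℤ) * a (i - k) m else 0) := by
        rw [Finset.mul_sum]
        refine Finset.sum_congr rfl fun k _ => ?_
        simp only [Nat.add_le_add_iff_right, Nat.add_sub_add_right]
        split_ifs
        · rw [Nat.descFactorial_succ, show e + (k + 1) - k = e + 1 by omega,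
            show e + (k + 1) = e + 1 + k by omega]
          push_cast; ring
        · simp
      rw [h5, ← add_assoc, h3]
      have h6 := mul_le_mul_of_nonneg_left h1 (show (0 : ℤ) ≤ (e : ℤ) + 1 by positivity)
      have h7 := mul_le_mul_of_nonneg_left h2 (show (0 : ℤ) ≤ ((i + 1 : ℕ) : ℤ) by positivity)
      simp only [Nat.zero_le, if_true, Nat.add_zero, Nat.descFactorial_zero, Nat.sub_zero, one_mul]
      push_cast at h7 h6 ⊢
      rw [pow_succ]
      linarith

lemma fact_bound (s : ℕ) : ∀ k l : ℕ, k + l = s + 4 → 4 * 3 ^ s ≤ k.factorial * l.factorial := by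
  induction s with
  | zero =>
    intro k l h
    have : k ≤ 4 := by omega
    obtain rfl : l = 4 - k := by omega
    interval_cases k <;> decide
  | succ s ih =>
    intro k l h
    by_cases hk : 3 ≤ k
    · obtain ⟨k, rfl⟩ : ∃ k', k = k' + 1 := ⟨k - 1, by omega⟩
      have := Nat.mul_le_mul hk (ih k l (by omega))
      rw [Nat.factorial_succ, pow_succ]
      nlinarith
    · obtain ⟨l, rfl⟩ : ∃ l', l = l' + 1 := ⟨l - 1, by omega⟩
      have h3 : 3 ≤ l + 1 := by omega
      have := Nat.mul_le_mul h3 (ih k l (by omega))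
      rw [Nat.factorial_succ, pow_succ]
      nlinarith

def S (a : ℕ → ℕ → ℤ) (d i e m : ℕ) : ℤ :=
  ∑ k ∈ Finset.range (i + 1),
    ((Nat.choose (e + k) k : ℕ) : ℤ) * (((Nat.choose (i - k) (i - d) : ℕ) : ℤ) * a (i - k) m)

lemma S_big (hpos : ∀ m, 1 ≤ m → ∀ j, 0 ≤ a j m)
    (hstep : ∀ i m : ℕ, 1 ≤ m → (i : ℤ) * a i m ≤ a i (m + 1))
    (hr : ∀ i n : ℕ, 1 ≤ i → 1 ≤ n →
        a i (n + 1) = (i : ℤ) * a i n + ((n : ℤ) - 2 * (i : ℤ) + 2) * a (i - 1) n)
    (m : ℕ) (hm : 1 ≤ m) (d i e c : ℕ) (hd : d ≤ i) (he : m + d = e + 2 * i)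
    (hc : ∀ k l : ℕ, k + l = d → c ≤ k.factorial * l.factorial) :
    (c : ℤ) * S a d i e m ≤ a i (m + d) := by
  refine le_trans ?_ (a_words hpos hstep hr m hm d i e he)
  unfold S
  rw [Finset.mul_sum]
  refine Finset.sum_le_sum fun k hk => ?_
  have hk' := Finset.mem_range.1 hk
  split_ifs with h
  · have h1 : c * ((e + k).choose k * (i - k).choose (i - d)) ≤
        (e + k).descFactorial k * (i - k) ^ (d - k) := by
      have e1 : (i - k).choose (i - d) = (i - k).choose (d - k) := by
        rw [← Nat.choose_symm (show i - d ≤ i - k by omega)]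
        congr 1; omega
      have e2 := Nat.descFactorial_le_pow (i - k) (d - k)
      rw [Nat.descFactorial_eq_factorial_mul_choose] at e2 ⊢
      rw [e1]
      calc c * ((e + k).choose k * (i - k).choose (d - k))
          ≤ (k.factorial * (d - k).factorial) * ((e + k).choose k * (i - k).choose (d - k)) :=
            Nat.mul_le_mul_right _ (hc k (d - k) (by omega))
        _ = k.factorial * (e + k).choose k * ((d - k).factorial * (i - k).choose (d - k)) := by ring
        _ ≤ _ := Nat.mul_le_mul_left _ e2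
    have h2 : ((c * ((e + k).choose k * (i - k).choose (i - d)) : ℕ) : ℤ) ≤
        (((e + k).descFactorial k * (i - k) ^ (d - k) : ℕ) : ℤ) := by exact_mod_cast h1
    have h3 := mul_le_mul_of_nonneg_right h2 (hpos m hm (i - k))
    refine le_trans (le_of_eq ?_) h3
    push_cast; ring
  · rw [Nat.choose_eq_zero_of_lt (show i - k < i - d by omega)]
    simp

lemma S_two (hpos : ∀ m, 1 ≤ m → ∀ j, 0 ≤ a j m)
    (hz : ∀ i n : ℕ, n < 2 * i → a i n = 0)
    (hstep : ∀ i m : ℕ, 1 ≤ m → (i : ℤ) * a i m ≤ a i (m + 1))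
    (hr : ∀ i n : ℕ, 1 ≤ i → 1 ≤ n →
        a i (n + 1) = (i : ℤ) * a i n + ((n : ℤ) - 2 * (i : ℤ) + 2) * a (i - 1) n)
    (m j e : ℕ) (hj : 2 ≤ j) (he : m = e + 2 * j + 2) :
    7 * S a 2 (j + 2) e m ≤ 5 * a (j + 2) (m + 2) := by
  have hS : 2 * S a 2 (j + 2) e m = ((j : ℤ) + 2) * (j + 1) * a (j + 2) m +
      2 * ((e : ℤ) + 1) * (j + 1) * a (j + 1) m + ((e : ℤ) + 2) * (e + 1) * a j m := by
    unfold S
    rw [Finset.sum_range_succ', Finset.sum_range_succ', Finset.sum_range_succ',
      Finset.sum_eq_zero]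
    · have c1 : (((j + 2).choose j : ℕ) : ℤ) * 2 = ((j : ℤ) + 2) * (j + 1) := by
        have := Nat.choose_symm_add (a := j) (b := 2)
        rw [this]
        have h2 := Nat.descFactorial_eq_factorial_mul_choose (j + 2) 2
        simp [Nat.descFactorial_succ, Nat.factorial] at h2
        have h3 : (((j + 1) * (j + 2) : ℕ) : ℤ) = ((2 * (j + 2).choose 2 : ℕ) : ℤ) := by rw [h2]
        push_cast at h3
        linarith
      have c2 : (((e + 2).choose 2 : ℕ) : ℤ) * 2 = ((e : ℤ) + 2) * (e + 1) := by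
        have h2 := Nat.descFactorial_eq_factorial_mul_choose (e + 2) 2
        simp [Nat.descFactorial_succ, Nat.factorial] at h2
        have h3 : (((e + 1) * (e + 2) : ℕ) : ℤ) = ((2 * (e + 2).choose 2 : ℕ) : ℤ) := by rw [h2]
        push_cast at h3
        linarith
      simp only [zero_add, Nat.add_sub_cancel, Nat.sub_zero, Nat.choose_zero_right,
        show j + 2 - 1 = j + 1 by omega, show j + 2 - (1 + 1) = j by omega, Nat.choose_self,
        Nat.choose_one_right, Nat.choose_succ_self_right, show 1 + 1 = 2 from rfl]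
      push_cast
      linear_combination a (j + 2) m * c1 + a j m * c2
    · intro k hk
      have := Finset.mem_range.1 hk
      rw [Nat.choose_eq_zero_of_lt (show j + 2 - (k + 1 + 1 + 1) < j + 2 - 2 by omega)]
      simp
  have r1 := hr (j + 2) (m + 1) (by omega) (by omega)
  have r2 := hr (j + 2) m (by omega) (by omega)
  have r3 := hr (j + 1) m (by omega) (by omega)
  simp only [show j + 2 - 1 = j + 1 by omega, Nat.add_sub_cancel] at r1 r2 r3
  have hm : (m : ℤ) = e + 2 * j + 2 := by omega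
  push_cast at r1 r2 r3
  rw [hm] at r1 r2 r3
  have hA : a (j + 2) (m + 2) = ((j : ℤ) + 2) * (j + 2) * a (j + 2) m +
      (((e : ℤ) + 1) * (j + 1) + (j + 2) * e) * a (j + 1) m + ((e : ℤ) + 2) * (e + 1) * a j m := by
    rw [show m + 2 = m + 1 + 1 from rfl, r1, r2, r3]; ring
  have p0 := hpos m (by omega) j
  have p1 := hpos m (by omega) (j + 1)
  have p2 := hpos m (by omega) (j + 2)
  have hj' : (2 : ℤ) ≤ j := by exact_mod_cast hj
  have q2 : (0 : ℤ) ≤ ((j : ℤ) + 2) * (3 * j + 13) * a (j + 2) m := by positivity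
  rcases Nat.eq_zero_or_pos e with rfl | hpe
  · -- top coefficient
    obtain ⟨m', rfl⟩ : ∃ m', m = m' + 1 := ⟨m - 1, by omega⟩
    have t1 := hr (j + 1) m' (by omega) (by omega)
    have t2 := hstep j m' (by omega)
    rw [hz (j + 1) m' (by omega), Nat.add_sub_cancel] at t1
    have hm' : (m' : ℤ) = 2 * j + 1 := by omega
    rw [hm'] at t1
    push_cast at t1 hS hA
    have t3 : a (j + 1) (m' + 1) = a j m' := by rw [t1]; ring
    rw [← t3] at t2
    have q1 : (0 : ℤ) ≤ ((j : ℤ) - 2) * a (j + 1) (m' + 1) := mul_nonneg (by linarith) p1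
    nlinarith
  · have he' : (1 : ℤ) ≤ e := by exact_mod_cast hpe
    have q0 : (0 : ℤ) ≤ ((e : ℤ) + 2) * (e + 1) * a j m := by positivity
    have q1 : (0 : ℤ) ≤ (10 * ((j : ℤ) + 2) * e - 4 * (e + 1) * (j + 1)) * a (j + 1) m :=
      mul_nonneg (by nlinarith) p1
    nlinarith

end Aux

/-- For the integer sequences a_i(n) and b_i(n) fixed by the given recurrences and initial conditions, b_i(n) ≤ a_i(2n) holds for every n and every i with 2 ≤ i ≤ n. -/
theorem result :
  ∀ a b : ℕ → ℕ → ℤ,
    a 0 1 = 1 → a 1 2 = 1 →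
    (∀ n : ℕ, 1 < n → a 0 n = 0) →
    (∀ i n : ℕ, n < 2 * i → a i n = 0) →
    (∀ i n : ℕ, 1 ≤ i → 1 ≤ n →
        a i (n + 1) = (i : ℤ) * a i n + ((n : ℤ) - 2 * (i : ℤ) + 2) * a (i - 1) n) →
    (∀ n : ℕ, 2 ≤ n → b 2 n = 1) →
    (∀ i n : ℕ, ¬ (2 ≤ i ∧ i ≤ n) → b i n = 0) →
    (∀ i n : ℕ, 3 ≤ i → i ≤ n →
        b i n = ∑ k ∈ Finset.range (i + 1),
          ((Nat.choose (2 * n - 2 * i + k) k : ℕ) : ℤ) *
            ∑ r ∈ Finset.Icc 1 (i / 2),
              (-1 : ℤ) ^ (r - 1) * ((Nat.choose (i - k) (i - 2 * r) : ℕ) : ℤ) * b (i - k) (n - r)) →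
    ∀ n i : ℕ, 2 ≤ i → i ≤ n → b i n ≤ a i (2 * n) := by
  intro a b h01 h12 h0 hz hr hb2 hbz hbr
  have hpos := a_nonneg h01 h0 hz hr
  have hstep := a_step hpos hz hr
  have key : ∀ n : ℕ, 1 ≤ n → ∀ i : ℕ, |b i n| ≤ a i (2 * n) := by
    intro n
    induction n using Nat.strong_induction_on with
    | _ n ih =>
      intro hn i
      by_cases hi : 2 ≤ i ∧ i ≤ n
      swap
      · rw [hbz i n hi, abs_zero]; exact hpos _ (by omega) _
      obtain ⟨hi2, hin⟩ := hi
      rcases Nat.eq_or_lt_of_le hi2 with rfl | hi3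
      · rw [hb2 n hin, abs_one]
        have e3 : a 1 3 = 1 := by
          have := hr 1 2 (by omega) (by omega)
          rw [h12, h0 2 (by omega)] at this
          simpa using this
        have e4 : a 2 4 = 1 := by
          have := hr 2 3 (by omega) (by omega)
          rw [hz 2 3 (by omega)] at this
          norm_num [e3] at this
          exact this
        have := a_pow hstep 2 4 (by omega) (2 * n - 4)
        rw [e4, show 4 + (2 * n - 4) = 2 * n by omega] at this
        refine le_trans ?_ this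
        rw [mul_one]
        exact one_le_pow₀ (by norm_num)
      · have hbound : |b i n| ≤ ∑ r ∈ Finset.Icc 1 (i / 2), S a (2 * r) i (2 * n - 2 * i) (2 * (n - r)) := by
          rw [hbr i n hi3 hin]
          unfold S
          rw [Finset.sum_comm]
          refine le_trans (Finset.abs_sum_le_sum_abs _ _) (Finset.sum_le_sum fun k _ => ?_)
          rw [abs_mul, ← Finset.mul_sum, Nat.abs_cast]
          refine mul_le_mul_of_nonneg_left ?_ (by positivity)
          refine le_trans (Finset.abs_sum_le_sum_abs _ _) (Finset.sum_le_sum fun r hr' => ?_)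
          have hr2 := Finset.mem_Icc.1 hr'
          rw [abs_mul, abs_mul, abs_pow, abs_neg, abs_one, one_pow, one_mul, Nat.abs_cast]
          exact mul_le_mul_of_nonneg_left (ih (n - r) (by omega) (by omega) _) (by positivity)
        refine le_trans hbound ?_
        have hA := hpos (2 * n) (by omega) i
        by_cases h4 : i = 3
        · subst h4
          have := S_big hpos hstep hr (2 * (n - 1)) (by omega) 2 3 (2 * n - 2 * 3) 1 (by omega)
            (by omega) (fun k l _ => Nat.mul_pos k.factorial_pos l.factorial_pos)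
          rw [show 2 * (n - 1) + 2 = 2 * n by omega] at this
          simpa using this
        · have h1 := S_two hpos hz hstep hr (2 * (n - 1)) (i - 2) (2 * n - 2 * i) (by omega)
            (by omega)
          rw [show 2 * (n - 1) + 2 = 2 * n by omega, show i - 2 + 2 = i by omega] at h1
          have h2 : ∀ s : ℕ, s + 1 ≤ i / 2 → 32 * 9 ^ s *
              ∑ r ∈ Finset.Icc 1 (s + 1), S a (2 * r) i (2 * n - 2 * i) (2 * (n - r)) ≤
              32 * 9 ^ s * S a 2 i (2 * n - 2 * i) (2 * (n - 1)) +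
                (9 * 9 ^ s - 9) * a i (2 * n) := by
            intro s
            induction s with
            | zero => intro _; simp
            | succ s ihs =>
              intro hs
              have g1 := ihs (by omega)
              have g2 := S_big hpos hstep hr (2 * (n - (s + 1 + 1))) (by omega) (2 * (s + 1 + 1)) i
                (2 * n - 2 * i) (4 * 3 ^ (2 * s)) (by omega) (by omega)
                (fun k l h => fact_bound (2 * s) k l (by omega))
              rw [show 2 * (n - (s + 1 + 1)) + 2 * (s + 1 + 1) = 2 * n by omega, pow_mul] at g2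
              rw [Finset.sum_Icc_succ_top (by omega), pow_succ]
              push_cast at g2
              nlinarith
          have h3 := h2 (i / 2 - 1) (by omega)
          rw [show i / 2 - 1 + 1 = i / 2 by omega] at h3
          have h5 : (0 : ℤ) < 9 ^ (i / 2 - 1) := by positivity
          generalize (9 : ℤ) ^ (i / 2 - 1) = w at h3 h5
          by_contra hc
          push Not at hc
          nlinarith
  intro n i h2 hin
  exact le_trans (le_abs_self _) (key n (by omega) i)

end Pool.Agent.S10399
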