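import Pool.Statements.S10425
import Pool.Agent.H12.HL3

set_option autoImplicit false
open Pool Pool.MP_9e1b23_co

namespace Pool.Agent.S10425

/-- There is a finite graph H with loops allowed, and numbers α<β, such that some tree on α vertices has fewer H-colorings than the α-vertex path, yet for every n≥β the n-vertex path has at most as many H-colorings as every tree on n vertices. -/
theorem result :
    ∃ (V : Type) (_ : Finite V) (R : V → V → Prop),
      (∀ a b, R a b → R b a) ∧
      ∃ α β : ℕ, α < β ∧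
        (∃ T : SimpleGraph (Fin α), T.IsTree ∧
          Nat.card {f : Fin α → V // ∀ u v, T.Adj u v → R (f u) (f v)} <
            Nat.card {f : Fin α → V //
              ∀ u v, (SimpleGraph.pathGraph α).Adj u v → R (f u) (f v)}) ∧
        ∀ n : ℕ, β ≤ n → ∀ T : SimpleGraph (Fin n), T.IsTree →
          Nat.card {f : Fin n → V //
              ∀ u v, (SimpleGraph.pathGraph n).Adj u v → R (f u) (f v)} ≤
            Nat.card {f : Fin n → V // ∀ u v, T.Adj u v → R (f u) (f v)} := by
  obtain ⟨m, hm⟩ : ∃ m : ℕ, m = 128 * 110 ^ 7 + 1 := ⟨_, rfl⟩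
  refine ⟨(Bool × Fin 110) ⊕ (Fin m × Fin 55), inferInstance, Pool.Agent.H12.HL.RR 110 m,
    Pool.Agent.H12.HL.RR_symm 110 m, 7, m, by omega,
    ⟨Pool.Agent.H12.HL.E7, Pool.Agent.H12.HL.E7_tree, Pool.Agent.H12.HL.small 110 m hm⟩, ?_⟩
  intro n hn T hT
  exact Pool.Agent.H12.HL.large m n hn T hT

end Pool.Agent.S10425
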