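import Pool.Statements.S10454
import Pool.Agent.H10.OddCol
-- import your own Pool.Agent.* helpers here

set_option autoImplicit false
open Pool Pool.MP_9fba86_co

namespace Pool.Agent.S10454

/-- The negation of the preceding statement: Some constant d exists such that every finite 2-connected graph (connected, at least 3 vertices, no cut vertex) of odd order with minimum degree at least d has a 3-edge-colouring where each colour meets each vertex in zero or an odd number of edges. -/
theorem result :
    ¬ (∃ d : ℕ, ∀ (V : Type) [Fintype V] (G : SimpleGraph V),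
      G.Connected →
      3 ≤ Fintype.card V →
      (∀ v : V, (G.induce {w : V | w ≠ v}).Connected) →
      Odd (Fintype.card V) →
      (∀ v : V, d ≤ (G.neighborSet v).ncard) →
      ∃ c : Sym2 V → Fin 3, ∀ (v : V) (i : Fin 3),
        {w : V | G.Adj v w ∧ c s(v, w) = i}.ncard = 0 ∨
          Odd {w : V | G.Adj v w ∧ c s(v, w) = i}.ncard) := by
  rintro ⟨d, h⟩
  have hm : Even (2 * (d + 1)) := even_two_mul _
  obtain ⟨c, hc⟩ := h _ (Pool.Agent.H10.OddCol.G (2 * (d + 1)))
    (Pool.Agent.H10.OddCol.conn_all _ (by omega)) (by simp)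
    (Pool.Agent.H10.OddCol.conn_del _ (by omega))
    (by
      simp only [Fintype.card_sum, Fintype.card_prod, Fintype.card_fin, Nat.odd_iff]
      omega)
    (by
      intro v
      have h1 := Pool.Agent.H10.OddCol.deg (2 * (d + 1)) v
      have h2 : (Pool.Agent.H10.OddCol.G (2 * (d + 1))).neighborSet v =
          ↑(Finset.univ.filter (fun w => (Pool.Agent.H10.OddCol.G (2 * (d + 1))).Adj v w ∧ True)) := by
        ext w; simp
      rw [h2, Set.ncard_coe_finset]
      omega)
  refine Pool.Agent.H10.OddCol.no_colouring _ hm (by omega) c ?_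
  intro v i
  have h1 := hc v i
  have h2 : {w | (Pool.Agent.H10.OddCol.G (2 * (d + 1))).Adj v w ∧ c s(v, w) = i} =
      ↑(Finset.univ.filter
        (fun w => (Pool.Agent.H10.OddCol.G (2 * (d + 1))).Adj v w ∧ c s(v, w) = i)) := by
    ext w; simp
  rwa [h2, Set.ncard_coe_finset] at h1

end Pool.Agent.S10454
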