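import Pool.Statements.S10543
import Pool.Agent.H7.Baton

set_option autoImplicit false
open Pool Pool.MP_a3e24b_co

namespace Pool.Agent.S10543

/-- For every ε>0 there is k such that, for all η>0 and all large n, R^n can be coloured with at most (1+ε+η)^n colours so that no k+1 points at l1-distances ∣i−j∣ from each other, i.e. a unit baton, are all the same colour. -/
theorem result :
    ∀ ε : ℝ, 0 < ε → ∃ k : ℕ, ∀ η : ℝ, 0 < η → ∃ N : ℕ, ∀ n : ℕ, N ≤ n →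
      ∃ m : ℕ, (m : ℝ) ≤ (1 + ε + η) ^ n ∧
        ∃ c : (Fin n → ℝ) → Fin m,
          ∀ f : Fin (k + 1) → (Fin n → ℝ),
            (∀ i j : Fin (k + 1),
              ∑ t : Fin n, |f i t - f j t| = |((i : ℕ) : ℝ) - ((j : ℕ) : ℝ)|) →
            ∃ i j : Fin (k + 1), c (f i) ≠ c (f j) := by
  intro ε hε
  obtain ⟨δ, hδ0, hδ1, hδε⟩ : ∃ δ : ℝ, 0 < δ ∧ δ ≤ 1 ∧ 3 * δ ≤ ε :=
    ⟨min 1 (ε / 3), lt_min one_pos (by linarith), min_le_left _ _, by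
      have := min_le_right 1 (ε / 3); linarith⟩
  obtain ⟨q0, hq0⟩ := pow_unbounded_of_one_lt (((δ / 4) ^ 3)⁻¹) (show (1 : ℝ) < 1 + δ by linarith)
  have hθ : 0 < (δ / 4) ^ 3 := by positivity
  have hq : 1 ≤ (δ / 4) ^ 3 * (1 + δ) ^ (q0 + 1) := by
    have h1 : (1 + δ) ^ q0 ≤ (1 + δ) ^ (q0 + 1) := pow_le_pow_right₀ (by linarith) (Nat.le_succ _)
    have h2 : (δ / 4) ^ 3 * ((δ / 4) ^ 3)⁻¹ = 1 := mul_inv_cancel₀ hθ.ne'
    have h3 := mul_le_mul_of_nonneg_left (hq0.le.trans h1) hθ.le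
    linarith
  refine ⟨(q0 + 1) * (q0 + 1), fun η hη => ?_⟩
  have hr : 1 < (1 + ε + η) / (1 + ε) := by
    rw [lt_div_iff₀ (by linarith)]; linarith
  obtain ⟨N, hN⟩ := pow_unbounded_of_one_lt (2 * ((q0 + 1 : ℕ) : ℝ)) hr
  refine ⟨N + 1, fun n hn => ⟨_, ?_, Pool.Agent.H7.Baton.main n (q0 + 1) (by omega) (by omega)⟩⟩
  have hc := Pool.Agent.H7.Baton.card_ball n (q0 + 1) (by omega) (δ / 4) (1 + δ) (by positivity)
    (by linarith) (by linarith) hq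
  have h1 : ((1 + δ) * (1 + 4 * (δ / 4))) ^ n ≤ (1 + ε) ^ n :=
    pow_le_pow_left₀ (by positivity) (by nlinarith) n
  have h2 : (1 : ℝ) ≤ (1 + ε) ^ n := one_le_pow₀ (by linarith)
  have h3 : ((1 + ε + η) / (1 + ε)) ^ N ≤ ((1 + ε + η) / (1 + ε)) ^ n :=
    pow_le_pow_right₀ hr.le (by omega)
  have h4 : 2 * ((q0 + 1 : ℕ) : ℝ) ≤ (1 + ε + η) ^ n / (1 + ε) ^ n := by
    rw [← div_pow]; linarith
  rw [le_div_iff₀ (by positivity)] at h4
  have h5 : (0 : ℝ) ≤ ((q0 + 1 : ℕ) : ℝ) := Nat.cast_nonneg _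
  rw [Nat.cast_mul, Nat.cast_add ((Pool.Agent.H7.Baton.ball n (q0 + 1)).card), Nat.cast_one]
  nlinarith

end Pool.Agent.S10543
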