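import Pool.Statements.S10582
-- import your own Pool.Agent.* helpers here

set_option autoImplicit false
open Pool Pool.MP_a55b46_co

namespace Pool.Agent.S10582

/-- adjacency: vertices `0..14` form a clique (five blocks of three), vertices `15..39` are
independent (five blocks of five); block `i` of the latter sees blocks `i, i+1` of the former. -/
def adjB (a b : Fin 40) : Bool :=
  if a.val < 15 then
    (if b.val < 15 then a.val != b.val
     else ((b.val - 15) / 5 == a.val / 3 || ((b.val - 15) / 5 + 1) % 5 == a.val / 3))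
  else
    (if b.val < 15 then ((a.val - 15) / 5 == b.val / 3 || ((a.val - 15) / 5 + 1) % 5 == b.val / 3)
     else false)

theorem adjB_symm : ∀ a b : Fin 40, adjB a b = adjB b a := by decide +kernel

theorem adjB_irrefl : ∀ a : Fin 40, adjB a a = false := by decide +kernel

def G : SimpleGraph (Fin 40) where
  Adj a b := adjB a b = true
  symm := ⟨fun a b h => by rw [adjB_symm]; exact h⟩
  loopless := ⟨fun a h => by rw [adjB_irrefl] at h; exact Bool.false_ne_true h⟩

def cq (w : Fin 40) : Finset (Fin 40) := Finset.univ.filter (fun u => u = w ∨ adjB w u = true)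
def kk : Finset (Fin 40) := Finset.univ.filter (fun u => u.val < 15)
def ind (x : Fin 40) : Finset (Fin 40) := Finset.univ.filter (fun u => u = x ∨ adjB x u = false)
def ww : Finset (Fin 40) := Finset.univ.filter (fun u => ¬ u.val < 15)

theorem cq_card : ∀ w : Fin 40, ¬ w.val < 15 → 6 < (cq w).card := by decide +kernel
theorem kk_card : 6 < kk.card := by decide +kernel
theorem ind_card : ∀ x : Fin 40, x.val < 15 → 15 < (ind x).card := by decide +kernel
theorem ww_card : 15 < ww.card := by decide +kernel

theorem nb_w : ∀ w u : Fin 40, ¬ w.val < 15 → adjB w u = true → u.val < 15 := by decide +kernel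
theorem kk_adj : ∀ a b : Fin 40, a.val < 15 → b.val < 15 → a ≠ b → adjB a b = true := by
  decide +kernel
theorem ww_nadj : ∀ a b : Fin 40, ¬ a.val < 15 → ¬ b.val < 15 → adjB a b = false := by
  decide +kernel

theorem cq_clique (w : Fin 40) (hw : ¬ w.val < 15) : G.IsClique (cq w : Set (Fin 40)) := by
  intro a ha b hb hab
  simp only [cq, Finset.coe_filter, Finset.mem_univ, true_and, Set.mem_ofPred_eq] at ha hb
  show adjB a b = true
  rcases ha with rfl | ha
  · rcases hb with rfl | hb
    · exact absurd rfl hab
    · exact hb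
  · rcases hb with rfl | hb
    · rw [adjB_symm]; exact ha
    · exact kk_adj a b (nb_w w a hw ha) (nb_w w b hw hb) hab

theorem kk_clique : G.IsClique (kk : Set (Fin 40)) := by
  intro a ha b hb hab
  simp only [kk, Finset.coe_filter, Finset.mem_univ, true_and, Set.mem_ofPred_eq] at ha hb
  exact kk_adj a b ha hb hab

theorem ind_indep (x : Fin 40) (hx : x.val < 15) : G.IsIndepSet (ind x : Set (Fin 40)) := by
  intro a ha b hb hab
  simp only [ind, Finset.coe_filter, Finset.mem_univ, true_and, Set.mem_ofPred_eq] at ha hb
  show ¬ adjB a b = true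
  have key : ∀ u : Fin 40, u ≠ x → adjB x u = false → ¬ u.val < 15 := by
    intro u hu h hlt
    rw [kk_adj x u hx hlt (Ne.symm hu)] at h
    exact Bool.noConfusion h
  by_cases hax : a = x
  · subst hax
    rcases hb with rfl | hb
    · exact absurd rfl hab
    · rw [hb]; exact Bool.false_ne_true
  · have ha' := ha.resolve_left hax
    by_cases hbx : b = x
    · subst hbx
      rw [adjB_symm, ha']; exact Bool.false_ne_true
    · have hb' := hb.resolve_left hbx
      rw [ww_nadj a b (key a hax ha') (key b hbx hb')]; exact Bool.false_ne_true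

theorem ww_indep : G.IsIndepSet (ww : Set (Fin 40)) := by
  intro a ha b hb _
  simp only [ww, Finset.coe_filter, Finset.mem_univ, true_and, Set.mem_ofPred_eq] at ha hb
  show ¬ adjB a b = true
  rw [ww_nadj a b ha hb]; exact Bool.false_ne_true

theorem cl (s : Finset (Fin 40))
    (hs : Maximal (fun t : Finset (Fin 40) => G.IsClique (t : Set (Fin 40))) s) : 6 < s.card := by
  by_cases h : ∃ w ∈ s, ¬ w.val < 15
  · obtain ⟨w, hw, hw'⟩ := h
    have hsub : s ⊆ cq w := by
      intro u hu
      simp only [cq, Finset.mem_filter, Finset.mem_univ, true_and]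
      by_cases huw : u = w
      · exact Or.inl huw
      · exact Or.inr (hs.1 (Finset.mem_coe.2 hw) (Finset.mem_coe.2 hu) (Ne.symm huw))
    exact lt_of_lt_of_le (cq_card w hw') (Finset.card_le_card (hs.2 (cq_clique w hw') hsub))
  · have hsub : s ⊆ kk := by
      intro u hu
      simp only [kk, Finset.mem_filter, Finset.mem_univ, true_and]
      by_contra hc
      exact h ⟨u, hu, hc⟩
    exact lt_of_lt_of_le kk_card (Finset.card_le_card (hs.2 kk_clique hsub))

theorem id' (s : Finset (Fin 40))
    (hs : Maximal (fun t : Finset (Fin 40) => G.IsIndepSet (t : Set (Fin 40))) s) :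
    15 < s.card := by
  by_cases h : ∃ x ∈ s, x.val < 15
  · obtain ⟨x, hx, hx'⟩ := h
    have hsub : s ⊆ ind x := by
      intro u hu
      simp only [ind, Finset.mem_filter, Finset.mem_univ, true_and]
      by_cases hux : u = x
      · exact Or.inl hux
      · right
        have := hs.1 (Finset.mem_coe.2 hx) (Finset.mem_coe.2 hu) (Ne.symm hux)
        exact Bool.eq_false_iff.2 this
    exact lt_of_lt_of_le (ind_card x hx') (Finset.card_le_card (hs.2 (ind_indep x hx') hsub))
  · have hsub : s ⊆ ww := by
      intro u hu
      simp only [ww, Finset.mem_filter, Finset.mem_univ, true_and]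
      intro hc
      exact h ⟨u, hu, hc⟩
    exact lt_of_lt_of_le ww_card (Finset.card_le_card (hs.2 ww_indep hsub))

/-- The negation of the preceding statement: For 2 ≤ ℓ < ⌊m/2⌋ and any (α,β) in N_m minimizing the gap between αℓ and β, the least order of a graph whose maximal cliques all exceed ℓ vertices and maximal independent sets all exceed m vertices is ℓ+m+β+αℓ, plus 1 if m≠αβ. -/
theorem result :
    ¬ (∀ ℓ m : ℕ, 2 ≤ ℓ → ℓ < m / 2 →
      ∀ α β : ℕ, (0 < α ∧ α ≤ β ∧ α * β ≤ m ∧ m ≤ α * (β + 1)) →
        (∀ a b : ℕ, 0 < a → a ≤ b → a * b ≤ m → m ≤ a * (b + 1) →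
          |((α * ℓ : ℕ) : ℤ) - (β : ℤ)| ≤ |((a * ℓ : ℕ) : ℤ) - (b : ℤ)|) →
        IsLeast
          {n : ℕ | ∃ G : SimpleGraph (Fin n),
            (∀ s : Finset (Fin n),
              Maximal (fun t : Finset (Fin n) => G.IsClique (t : Set (Fin n))) s → ℓ < s.card) ∧
            (∀ s : Finset (Fin n),
              Maximal (fun t : Finset (Fin n) => G.IsIndepSet (t : Set (Fin n))) s → m < s.card)}
          (ℓ + m + β + α * ℓ + (if m = α * β then 0 else 1))) := by
  intro h
  have h1 := h 6 15 (by norm_num) (by norm_num) 2 7 (by norm_num) (by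
    intro a b ha hab h1 h2
    have ha3 : a ≤ 3 := by nlinarith
    interval_cases a
    · have : b = 14 ∨ b = 15 := by omega
      rcases this with rfl | rfl <;> norm_num
    · have : b = 7 := by omega
      subst this; norm_num
    · have : b = 4 ∨ b = 5 := by omega
      rcases this with rfl | rfl <;> norm_num)
  have h2 := h1.2 (show 40 ∈ _ from ⟨G, cl, id'⟩)
  norm_num at h2

end Pool.Agent.S10582
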