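import Pool.Statements.S10592
import Pool.Agent.H9.Brauer

set_option autoImplicit false
open Pool Pool.MP_a5a405_co

namespace Pool.Agent.S10592

/-- The negation of the preceding statement: Fix nonzero integers a_i, b_i, c_i and n ≥ 1. Every finite colouring gives nonzero one-colour x_i, y_i, w_i, z_i with a_i x_i + b_i y_i = c_i w_i z_i^n for all i iff some rational n-th power lies in every set {a_i/c_i, b_i/c_i, (a_i+b_i)/c_i}. -/
theorem result :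
    ¬ (∀ (k : ℕ) (a b c : Fin k → ℤ) (n : ℕ),
      (∀ i, a i ≠ 0 ∧ b i ≠ 0 ∧ c i ≠ 0) → 1 ≤ n →
      ((∀ (r : ℕ) (χ : ℤ → Fin r), ∃ (x y w z : Fin k → ℤ) (col : Fin r),
          ∀ i, x i ≠ 0 ∧ y i ≠ 0 ∧ w i ≠ 0 ∧ z i ≠ 0 ∧
            a i * x i + b i * y i = c i * w i * z i ^ n ∧
            χ (x i) = col ∧ χ (y i) = col ∧ χ (w i) = col ∧ χ (z i) = col) ↔
        ∃ q : ℚ, ∀ i, q ^ n = (a i : ℚ) / (c i : ℚ) ∨ q ^ n = (b i : ℚ) / (c i : ℚ) ∨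
          q ^ n = ((a i : ℚ) + (b i : ℚ)) / (c i : ℚ))) := by
  intro h
  have h1 := (h 2 ![1, 1] ![-1, 2] ![2, 3] 1 (fun i => by fin_cases i <;> simp) le_rfl).1 (by
    intro r χ
    obtain ⟨y, w, z, a1, a2, a3, a4⟩ := Pool.Agent.H9.Brauer.main (fun n : ℕ+ => χ ((n : ℕ) : ℤ))
    refine ⟨![((y + 2 * (z * w) : ℕ+) : ℕ), ((z * w : ℕ+) : ℕ)], ![(y : ℕ), ((z * w : ℕ+) : ℕ)],
      fun _ => (w : ℕ), fun _ => (z : ℕ), χ (z : ℕ), fun i => ?_⟩
    have ne : ∀ n : ℕ+, ((n : ℕ) : ℤ) ≠ 0 := fun n => by exact_mod_cast n.ne_zero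
    fin_cases i
    · refine ⟨ne _, ne _, ne _, ne _, ?_, a4, a1, a2, rfl⟩
      simp; ring
    · refine ⟨ne _, ne _, ne _, ne _, ?_, a3, a3, a2, rfl⟩
      simp; ring)
  obtain ⟨q, hq⟩ := h1
  have h0 := hq 0
  have h2 := hq 1
  simp at h0 h2
  rcases h0 with a | a | a <;> rcases h2 with b | b | b <;> rw [a] at b <;> norm_num at b

end Pool.Agent.S10592
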