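import Pool.Statements.S10606
-- import your own Pool.Agent.* helpers here

set_option autoImplicit false
open Finset
open Pool Pool.MP_a60f11_co

namespace Pool.Agent.S10606

def G (y : Fin 3 → ZMod 4) : Prop := 16 * (y 0).val + 4 * (y 1).val + (y 2).val ∈ [2, 3, 4, 5, 6, 7, 18, 19, 22, 23, 32, 33, 34, 35, 36, 37, 38, 39, 42, 44, 46, 47, 48, 50, 51, 52, 53, 54, 55, 58, 62, 63]

instance : DecidablePred G := fun y => by unfold G; infer_instance

theorem cnt : (univ.filter fun y : Fin 4 → ZMod 4 =>
    G (fun i => y i.castSucc) ∧ ¬ G fun i => y i.succ).card = 97 := by decide +kernel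

theorem fib {n : ℕ} (g : Fin 4 → Fin n) (hg : Function.Injective g) (P : (Fin 4 → ZMod 4) → Prop)
    [DecidablePred P] : (univ.filter fun x : Fin n → ZMod 4 => P (x ∘ g)).card =
      (univ.filter P).card * (univ.filter fun x : Fin n → ZMod 4 => x ∘ g = 0).card := by
  rw [card_eq_sum_card_fiberwise (f := fun x => x ∘ g) (t := univ.filter P) fun x hx => by simpa using hx,
    ← smul_eq_mul, ← sum_const]
  refine sum_congr rfl fun y hy => ?_
  have e : Function.extend g y 0 ∘ g = y := Function.extend_comp hg _ _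
  refine card_bij (fun x _ => x - Function.extend g y 0) (fun x hx => ?_)
    (fun _ _ _ _ h => sub_left_injective h) fun x hx => ⟨x + Function.extend g y 0, ?_, by simp⟩
  · simp only [mem_filter, mem_univ, true_and] at hx ⊢
    rw [Pi.sub_comp, e, hx.2, sub_self]
  · simp only [mem_filter, mem_univ, true_and] at hx hy ⊢
    rw [Pi.add_comp, e, hx, zero_add]; exact ⟨hy, rfl⟩

open Classical in
noncomputable def om {n : ℕ} (x : Fin n → ZMod 4) : Finset (Finset (Fin n)) :=
  univ.filter fun S => ∃ h : Fin 3 → Fin n, StrictMono h ∧ S = univ.image h ∧ G (x ∘ h)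

theorem mem_om {n : ℕ} (x : Fin n → ZMod 4) {h : Fin 3 → Fin n} (hh : StrictMono h) :
    univ.image h ∈ om x ↔ G (x ∘ h) := by
  simp only [om, mem_filter, mem_univ, true_and]
  refine ⟨?_, fun e => ⟨h, hh, rfl, e⟩⟩
  rintro ⟨h', h1, h2, h3⟩
  rwa [(hh.range_inj h1).1 (by simpa using congrArg (fun s : Finset (Fin n) => (s : Set (Fin n))) h2)]

/-- The negation of the preceding statement: f(3)=3/8: for every n≥4 some law of events on 3-subsets of [n] gives each shift pair (A,B) Pr(E_A and not E_B) at least 3/8, and for every ε>0 some n forces a shift pair below 3/8+ε. -/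
theorem result :
    ¬ ((∀ n : ℕ, 4 ≤ n →
      ∃ p : Finset (Finset (Fin n)) → ℝ,
        (∀ ω, 0 ≤ p ω) ∧ (∑ ω, p ω) = 1 ∧
        ∀ g : Fin 4 → Fin n, StrictMono g →
          (3 / 8 : ℝ) ≤ ∑ ω ∈ Finset.univ.filter
            (fun ω : Finset (Finset (Fin n)) =>
              (Finset.univ.image (fun i : Fin 3 => g (Fin.castSucc i))) ∈ ω ∧
              (Finset.univ.image (fun i : Fin 3 => g (Fin.succ i))) ∉ ω), p ω) ∧
    (∀ ε : ℝ, 0 < ε →
      ∃ n : ℕ, 4 ≤ n ∧
        ∀ p : Finset (Finset (Fin n)) → ℝ,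
          (∀ ω, 0 ≤ p ω) → (∑ ω, p ω) = 1 →
          ∃ g : Fin 4 → Fin n, StrictMono g ∧
            (∑ ω ∈ Finset.univ.filter
              (fun ω : Finset (Finset (Fin n)) =>
                (Finset.univ.image (fun i : Fin 3 => g (Fin.castSucc i))) ∈ ω ∧
                (Finset.univ.image (fun i : Fin 3 => g (Fin.succ i))) ∉ ω), p ω)
              < 3 / 8 + ε)) := by
  rintro ⟨-, H⟩
  obtain ⟨n, -, H⟩ := H (1 / 256) (by norm_num)
  have c0 : (0 : ℝ) < (univ : Finset (Fin n → ZMod 4)).card := by exact_mod_cast card_pos.2 univ_nonempty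
  have key : ∀ T : Finset (Finset (Finset (Fin n))),
      ∑ ω ∈ T, ((univ.filter fun x => om x = ω).card : ℝ) / (univ : Finset (Fin n → ZMod 4)).card =
      (univ.filter fun x => om x ∈ T).card / (univ : Finset (Fin n → ZMod 4)).card := fun T => by
    rw [← sum_div, ← Nat.cast_sum, sum_card_fiberwise_eq_card_filter]
  obtain ⟨g, hg, h⟩ := H (fun ω => ((univ.filter fun x => om x = ω).card : ℝ) /
    (univ : Finset (Fin n → ZMod 4)).card) (fun _ => by positivity)
    (by rw [key]; simp only [mem_univ, filter_true]; exact div_self c0.ne')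
  rw [key, div_lt_iff₀ c0] at h
  have a1 : StrictMono fun i : Fin 3 => g i.castSucc := hg.comp Fin.strictMono_castSucc
  have a2 : StrictMono fun i : Fin 3 => g i.succ := hg.comp Fin.strictMono_succ
  simp only [mem_filter, mem_univ, true_and, mem_om _ a1, mem_om _ a2] at h
  have e1 := fib g hg.injective fun y => G (fun i => y i.castSucc) ∧ ¬ G fun i => y i.succ
  have e2 := fib g hg.injective fun _ => True
  rw [cnt] at e1
  simp only [filter_true] at e2
  rw [show (univ : Finset (Fin 4 → ZMod 4)).card = 256 by simp] at e2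
  rw [e2] at h
  erw [e1] at h
  push_cast at h
  linarith

end Pool.Agent.S10606
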