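import Pool.Statements.S10628
-- import your own Pool.Agent.* helpers here

set_option autoImplicit false
open Pool Pool.MP_a76d3a_co

namespace Pool.Agent.S10628

theorem blow {V : Type} [Fintype V] [DecidableEq V] (lam : Fin 3 → ℕ) (n : ℕ)
    (e : Fin n ≃ Σ t : Fin 3, Fin (lam t)) (F : (V → Fin 3) → ℕ) :
    ∑ φ : V → Fin n, F (fun v => (e (φ v)).1) = ∑ ψ : V → Fin 3, (∏ v, lam (ψ v)) * F ψ := by
  let E : (V → Fin n) ≃ (Σ ψ : V → Fin 3, ∀ v, Fin (lam (ψ v))) :=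
    { toFun := fun φ => ⟨fun v => (e (φ v)).1, fun v => (e (φ v)).2⟩
      invFun := fun p v => e.symm ⟨p.1 v, p.2 v⟩
      left_inv := fun φ => by funext v; simp
      right_inv := fun p => by
        obtain ⟨ψ, g⟩ := p
        have h : ∀ v, e (e.symm ⟨ψ v, g v⟩) = ⟨ψ v, g v⟩ := fun v => by simp
        have h1 : (fun v => (e (e.symm ⟨ψ v, g v⟩)).1) = ψ := by funext v; rw [h]
        refine Sigma.ext h1 ?_
        refine Function.hfunext rfl ?_
        intro a b hab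
        cases hab
        have := h a
        exact (Sigma.ext_iff.1 this).2 }
  rw [Fintype.sum_equiv E (fun φ => F (fun v => (e (φ v)).1)) (fun p => F p.1) (fun φ => rfl),
    Fintype.sum_sigma]
  simp

def eL : List (Fin 6 × Fin 6) := [(0,1),(1,2),(2,3),(0,3),(0,4),(1,5)]

def G : SimpleGraph (Fin 6) where
  Adj a b := (a, b) ∈ eL ∨ (b, a) ∈ eL
  symm := ⟨fun _ _ h => h.symm⟩
  loopless := ⟨by decide⟩

instance : DecidableRel G.Adj := fun a b => inferInstanceAs (Decidable ((a, b) ∈ eL ∨ (b, a) ∈ eL))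

def sg (u v : Fin 6) : Bool := (u == 2 && v == 3) || (u == 3 && v == 2)

def H : SimpleGraph (Fin 6 × Bool) where
  Adj a b := G.Adj a.1 b.1 ∧ b.2 = xor a.2 (sg a.1 b.1)
  symm := ⟨by decide⟩
  loopless := ⟨by decide⟩

instance : DecidableRel H.Adj := fun a b =>
  inferInstanceAs (Decidable (G.Adj a.1 b.1 ∧ b.2 = xor a.2 (sg a.1 b.1)))

def B : Fin 3 → Fin 3 → ℕ := ![![10, 10, 0], ![10, 0, 1], ![0, 1, 1000]]

def Bs : Sym2 (Fin 3) → ℕ := Sym2.lift ⟨B, by decide⟩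

def lam : Fin 3 → ℕ := ![1, 1000000, 1]

def psi0 (x : Fin 6 × Bool) : Fin 3 :=
  if x.2 then ![2, 2, 2, 2, 1, 1] x.1 else ![0, 0, 1, 1, 1, 1] x.1

theorem zG : ∑ ψ : Fin 6 → Fin 3, (∏ v, lam (ψ v)) * ∏ e ∈ G.edgeFinset, Bs (Sym2.map ψ e)
    = 7230258666006200001000000 := by decide +kernel

theorem zH : (∏ v, lam (psi0 v)) * ∏ e ∈ H.edgeFinset, Bs (Sym2.map psi0 e) = 10 ^ 50 := by
  decide +kernel

/-- The negation of the preceding statement: For every finite bipartite graph G, every 2-lift H of G, and every nonnegative symmetric weight matrix A, the weighted homomorphism count of H into A is at most that of G squared, i.e. that of two disjoint copies of G. -/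
theorem result :
    ¬ (∀ (V : Type) [Fintype V] [DecidableEq V] (G : SimpleGraph V) [DecidableRel G.Adj],
      G.Colorable 2 →
      ∀ (H : SimpleGraph (V × Bool)) [DecidableRel H.Adj],
        (∃ s : V → V → Bool, (∀ u v, s u v = s v u) ∧
          ∀ u v : V, ∀ i j : Bool,
            H.Adj (u, i) (v, j) ↔ (G.Adj u v ∧ j = xor i (s u v))) →
        ∀ (n : ℕ) (A : Sym2 (Fin n) → ℝ), (∀ z, 0 ≤ A z) →
          (∑ φ : V × Bool → Fin n, ∏ e ∈ H.edgeFinset, A (Sym2.map φ e)) ≤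
            (∑ φ : V → Fin n, ∏ e ∈ G.edgeFinset, A (Sym2.map φ e)) ^ 2) := by
  intro h
  obtain ⟨n, ⟨e⟩⟩ : ∃ n : ℕ, Nonempty (Fin n ≃ Σ t : Fin 3, Fin (lam t)) :=
    ⟨_, ⟨(Fintype.equivFin (Σ t : Fin 3, Fin (lam t))).symm⟩⟩
  have hc : G.Colorable 2 :=
    ⟨SimpleGraph.Coloring.mk ![0, 1, 0, 1, 1, 0] (by decide)⟩
  have h1 := h (Fin 6) G hc H ⟨sg, by decide, fun _ _ _ _ => Iff.rfl⟩ _
    (fun z => (Bs (Sym2.map (fun x => (e x).1) z) : ℝ)) (fun _ => Nat.cast_nonneg _)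
  simp only [Sym2.map_map] at h1
  have h2 := blow lam _ e (fun ψ : Fin 6 → Fin 3 => ∏ z ∈ G.edgeFinset, Bs (Sym2.map ψ z))
  have h3 := blow lam _ e (fun ψ : Fin 6 × Bool → Fin 3 => ∏ z ∈ H.edgeFinset, Bs (Sym2.map ψ z))
  rw [zG] at h2
  have h4 : 10 ^ 50 ≤ ∑ ψ : Fin 6 × Bool → Fin 3,
      (∏ v, lam (ψ v)) * ∏ z ∈ H.edgeFinset, Bs (Sym2.map ψ z) := by
    rw [← zH]
    exact Finset.single_le_sum
      (f := fun ψ : Fin 6 × Bool → Fin 3 =>
        (∏ v, lam (ψ v)) * ∏ z ∈ H.edgeFinset, Bs (Sym2.map ψ z))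
      (fun _ _ => Nat.zero_le _) (Finset.mem_univ psi0)
  rw [← h3] at h4
  have h1' : ((∑ φ : Fin 6 × Bool → Fin n, ∏ z ∈ H.edgeFinset,
      Bs (Sym2.map (fun v => (e (φ v)).1) z) : ℕ) : ℝ) ≤
      (((∑ φ : Fin 6 → Fin n, ∏ z ∈ G.edgeFinset,
      Bs (Sym2.map (fun v => (e (φ v)).1) z)) ^ 2 : ℕ) : ℝ) := by
    push_cast
    exact h1
  have h5 := le_trans h4 (Nat.cast_le.1 h1')
  rw [h2] at h5
  norm_num at h5

end Pool.Agent.S10628
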