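import Pool.Statements.S10644
import Pool.Agent.H6.TriArea

set_option autoImplicit false
open Pool Pool.MP_a813b7_co

namespace Pool.Agent.S10644

open Finset Pool.Agent.H6.NCMatch Pool.Agent.H6.TriArea in
lemma good : ∃ K : ℕ, 0 < K ∧ ∀ (q : ℕ) (_ : 0 < q) (H : ℝ) (W : ℕ) [NeZero (K * W)]
    (_ : 2 * (3 * (4 * q)) ^ 3 < W), ∃ y : Fin (3 * (4 * q)) → Fin (K * W), GP (re y) univ ∧
      ¬ ∃ A : Finset (Fin (3 * (4 * q))), A.card = q ∧
      ∃ M ∈ mats (re y) Aᶜ (4 * q), ∀ a ∈ A, y a ∈ near' (K * W) H (re y) M a ∧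
        (near' (K * W) H (re y) M a).card ≤ W :=
  ⟨2 ^ 565, Nat.pow_pos (by norm_num), fun q hq H W _ hW => exists_good q hq H W hW rfl⟩

open Finset Pool.Agent.H6.NCMatch Pool.Agent.H6.TriArea in
/-- The negation of the preceding statement: For every ε>0 there is N so that for all n≥N (n≥2), any 3n distinct points in the unit square can be split into n triples whose triangles have pairwise disjoint interiors and total area less than ε. -/
theorem result :
    ¬ (∀ ε : ℝ, 0 < ε → ∃ N : ℕ, ∀ n : ℕ, N ≤ n → 2 ≤ n →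
      ∀ p : Fin (3 * n) → ℝ × ℝ, Function.Injective p →
        (∀ k, 0 ≤ (p k).1 ∧ (p k).1 ≤ 1 ∧ 0 ≤ (p k).2 ∧ (p k).2 ≤ 1) →
        ∃ σ : Fin (3 * n) ≃ Fin n × Fin 3,
          (∀ i j : Fin n, i ≠ j →
            Disjoint
              (interior (convexHull ℝ
                ({p (σ.symm (i, 0)), p (σ.symm (i, 1)), p (σ.symm (i, 2))} : Set (ℝ × ℝ))))
              (interior (convexHull ℝ
                ({p (σ.symm (j, 0)), p (σ.symm (j, 1)), p (σ.symm (j, 2))} : Set (ℝ × ℝ))))) ∧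
          (∑ i : Fin n,
            |((p (σ.symm (i, 1))).1 - (p (σ.symm (i, 0))).1) *
                ((p (σ.symm (i, 2))).2 - (p (σ.symm (i, 0))).2) -
              ((p (σ.symm (i, 2))).1 - (p (σ.symm (i, 0))).1) *
                ((p (σ.symm (i, 1))).2 - (p (σ.symm (i, 0))).2)| / 2) < ε) := by
  classical
  intro h
  obtain ⟨K, hK0, hK⟩ := good
  have hK1 : (0 : ℝ) < K := by exact_mod_cast hK0
  obtain ⟨N0, hN0⟩ := h (1 / (192 * K)) (by positivity)
  obtain ⟨q, hq, hq0⟩ : ∃ q, N0 ≤ q ∧ 0 < q := ⟨N0 + 1, by omega, by omega⟩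
  obtain ⟨W, hW1, hW2⟩ : ∃ W : ℕ, 2 * (3 * (4 * q)) ^ 3 < W ∧ 8 * (3 * (4 * q)) ≤ W :=
    ⟨2 * (3 * (4 * q)) ^ 3 + 1 + 8 * (3 * (4 * q)), by omega, by omega⟩
  have hW0 : 0 < W := by omega
  have : NeZero (K * W) := ⟨by positivity⟩
  obtain ⟨y, hg, hy⟩ := hK q hq0 ((W : ℝ) / 16) W hW1
  clear hK h
  apply hy
  have hqr : (0 : ℝ) < q := by exact_mod_cast hq0
  have hWr : (0 : ℝ) < W := by exact_mod_cast hW0
  have hα : (0 : ℝ) < 1 / (12 * q) := by positivity
  have hβ : (0 : ℝ) < 1 / (K * W) := by positivity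
  obtain ⟨σ, hσ1, hσ2⟩ := hN0 (4 * q) (by omega) (by omega)
    (pt (1 / (12 * q)) (1 / (K * W)) (re y)) (fun a b hab => by
      have h1 := mul_left_cancel₀ hα.ne' (congrArg Prod.fst hab)
      exact Fin.ext (by exact_mod_cast h1)) (fun k => by
      have h1 : ((k : ℕ) : ℝ) ≤ (3 * (4 * q) : ℕ) := by exact_mod_cast k.2.le
      have h2 : ((y k : ℕ) : ℝ) ≤ (K * W : ℕ) := by exact_mod_cast (y k).2.le
      push_cast at h1 h2
      simp only [pt, re]
      refine ⟨by positivity, ?_, by positivity, ?_⟩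
      · rw [one_div, inv_mul_le_iff₀ (by positivity)]; linarith
      · rw [one_div, inv_mul_le_iff₀ (by positivity)]; linarith)
  have hne : ∀ (i : Fin (4 * q)) (a b : Fin 3), a ≠ b → σ.symm (i, a) ≠ σ.symm (i, b) :=
    fun i a b hab he => hab (congrArg Prod.snd (σ.symm.injective he))
  choose l m r h1 h2 h3 h4 h5 h6 h7 using fun i : Fin (4 * q) =>
    sort3 (pt (1 / (12 * q)) (1 / (K * W)) (re y)) _ _ _ (hne i 0 1 (by decide))
      (hne i 0 2 (by decide)) (hne i 1 2 (by decide))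
  have hl : ∀ i, (σ (l i)).1 = i := fun i => by rcases h5 i with e | e | e <;> simp [e]
  have hm : ∀ i, (σ (m i)).1 = i := fun i => by rcases h6 i with e | e | e <;> simp [e]
  have hr : ∀ i, (σ (r i)).1 = i := fun i => by rcases h7 i with e | e | e <;> simp [e]
  have minj : Function.Injective m := fun i j e => by rw [← hm i, e, hm j]
  let M : Finset (Fin (3 * (4 * q)) × Fin (3 * (4 * q))) := univ.image fun i => (l i, r i)
  have hM : M.card = 4 * q := by
    rw [card_image_of_injective _ fun i j e => by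
      rw [← hl i, show l i = l j from congrArg Prod.fst e, hl j]]
    simp
  have hMlt : ∀ e ∈ M, e.1 < e.2 := by
    intro e he
    obtain ⟨i, -, rfl⟩ := mem_image.mp he
    exact (h1 i).trans (h2 i)
  let D : Fin (4 * q) → ℝ := fun i =>
    (((r i : ℕ) : ℝ) - (l i : ℕ)) * |re y (m i) - ln (re y) (l i, r i) (m i)|
  have hD0 : ∀ i, 0 ≤ D i := fun i =>
    mul_nonneg (sub_pos.mpr (cast_lt' ((h1 i).trans (h2 i)))).le (abs_nonneg _)
  have hD : ∑ i, D i < (W : ℝ) / 16 * (2 * q) := by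
    have e : ∀ i, |cr (pt (1 / (12 * q)) (1 / (K * W)) (re y) (r i) -
        pt (1 / (12 * q)) (1 / (K * W)) (re y) (l i))
        (pt (1 / (12 * q)) (1 / (K * W)) (re y) (m i) -
        pt (1 / (12 * q)) (1 / (K * W)) (re y) (l i))| / 2 = 1 / (24 * q * K * W) * D i := by
      intro i
      rw [cr_pt _ _ _ ((h1 i).trans (h2 i)), abs_mul, abs_mul (_ - _),
        abs_of_pos (mul_pos hα hβ), abs_of_pos (sub_pos.mpr (cast_lt' ((h1 i).trans (h2 i))))]
      simp only [D]
      field_simp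
      ring
    simp only [h4, e] at hσ2
    rw [← mul_sum, one_div, inv_mul_lt_iff₀ (by positivity)] at hσ2
    refine hσ2.trans_le (le_of_eq ?_)
    field_simp
    norm_num
  have I1 : (univ.filter fun i => ¬ D i ≤ (W : ℝ) / 16).card < 2 * q := by
    have a : ((univ.filter fun i => ¬ D i ≤ (W : ℝ) / 16).card : ℝ) * ((W : ℝ) / 16) ≤
        ∑ i, D i := by
      refine le_trans ?_ (sum_le_sum_of_subset_of_nonneg
        (filter_subset (fun i => ¬ D i ≤ (W : ℝ) / 16) univ) fun i _ _ => hD0 i)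
      rw [← nsmul_eq_mul]
      exact card_nsmul_le_sum _ _ _ fun i hi => (not_le.mp (mem_filter.mp hi).2).le
    have b : ((univ.filter fun i => ¬ D i ≤ (W : ℝ) / 16).card : ℝ) < 2 * q := by
      by_contra hc
      nlinarith [not_lt.mp hc]
    exact_mod_cast b
  have I2 : (univ.filter fun i =>
      ¬ (near' (K * W) ((W : ℝ) / 16) (re y) M (m i)).card ≤ W).card ≤ q := by
    have a := sum_near (L := K * W) ((W : ℝ) / 16) (by positivity) (re y) M hMlt
    have b : ((univ.filter fun i =>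
        ¬ (near' (K * W) ((W : ℝ) / 16) (re y) M (m i)).card ≤ W).card : ℝ) * W ≤
        ∑ a, ((near' (K * W) ((W : ℝ) / 16) (re y) M a).card : ℝ) := by
      rw [← card_image_of_injective _ minj]
      refine le_trans ?_ (sum_le_sum_of_subset_of_nonneg (subset_univ ((univ.filter fun i =>
        ¬ (near' (K * W) ((W : ℝ) / 16) (re y) M (m i)).card ≤ W).image m))
        fun i _ _ => by positivity)
      rw [← nsmul_eq_mul]
      refine card_nsmul_le_sum _ _ _ fun a ha => ?_
      obtain ⟨i, hi, rfl⟩ := mem_image.mp ha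
      exact_mod_cast (not_le.mp (mem_filter.mp hi).2).le
    have c : (8 : ℝ) * (3 * (4 * q)) ≤ W := by exact_mod_cast hW2
    rw [hM] at a
    push_cast at a
    have d : ((univ.filter fun i =>
        ¬ (near' (K * W) ((W : ℝ) / 16) (re y) M (m i)).card ≤ W).card : ℝ) ≤ q := by
      refine le_of_mul_le_mul_right (b.trans (a.trans ?_)) hWr
      nlinarith
    exact_mod_cast d
  have I3 : q ≤ (univ.filter fun i => D i ≤ (W : ℝ) / 16 ∧
      (near' (K * W) ((W : ℝ) / 16) (re y) M (m i)).card ≤ W).card := by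
    have a := card_filter_add_card_filter_not (s := (univ : Finset (Fin (4 * q))))
      fun i => D i ≤ (W : ℝ) / 16 ∧ (near' (K * W) ((W : ℝ) / 16) (re y) M (m i)).card ≤ W
    simp only [not_and_or, filter_or, card_univ, Fintype.card_fin] at a
    have b := card_union_le (univ.filter fun i => ¬ D i ≤ (W : ℝ) / 16)
      (univ.filter fun i => ¬ (near' (K * W) ((W : ℝ) / 16) (re y) M (m i)).card ≤ W)
    omega
  obtain ⟨J, hJ, hJc⟩ := exists_subset_card_eq I3
  refine ⟨J.image m, by rw [card_image_of_injective _ minj, hJc], M,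
    mem_mats.mpr ⟨⟨fun e he => ?_, fun e he f hf hef => ?_⟩, hM⟩, fun a ha => ?_⟩
  · obtain ⟨i, -, rfl⟩ := mem_image.mp he
    refine ⟨mem_compl.mpr fun hc => ?_, mem_compl.mpr fun hc => ?_, (h1 i).trans (h2 i)⟩
    · obtain ⟨j, -, e⟩ := mem_image.mp hc
      have : j = i := by rw [← hm j, e, hl i]
      subst this
      exact (h1 j).ne' e
    · obtain ⟨j, -, e⟩ := mem_image.mp hc
      have : j = i := by rw [← hm j, e, hr i]
      subst this
      exact (h2 j).ne e
  · obtain ⟨i, -, rfl⟩ := mem_image.mp he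
    obtain ⟨j, -, rfl⟩ := mem_image.mp hf
    have hij : i ≠ j := fun e => hef (by rw [e])
    have hd := hσ1 i j hij
    rw [h3 i, h3 j] at hd
    refine nc_of_disjoint hα hβ hg (h1 i) (h2 i) (h1 j) (h2 j) (fun e => hij ?_) (fun e => hij ?_)
      (fun e => hij ?_) (fun e => hij ?_) hd
    · rw [← hl i, e, hl j]
    · rw [← hl i, e, hr j]
    · rw [← hr i, e, hl j]
    · rw [← hr i, e, hr j]
  · obtain ⟨i, hi, rfl⟩ := mem_image.mp ha
    obtain ⟨-, a1, a2⟩ := mem_filter.mp (hJ hi)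
    exact ⟨mem_filter.mpr ⟨mem_univ _, (l i, r i), mem_image_of_mem _ (mem_univ i), h1 i, h2 i, a1⟩,
      a2⟩

end Pool.Agent.S10644
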