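import Pool.Statements.S10670
-- import your own Pool.Agent.* helpers here

set_option autoImplicit false
open Pool Pool.MP_a94970_co

namespace Pool.Agent.S10670

open Finset

def w (k : ℕ) : ℕ := if k = 0 then 0 else (k - 1).factorial * (100 - k).factorial

def fc (n k : ℕ) : ℕ := if k ≤ n then n.factorial / (k.factorial * (n - k).factorial) else 0

theorem fc_eq (n k : ℕ) : n.choose k = fc n k := by
  unfold fc
  split_ifs with h
  · exact Nat.choose_eq_factorial_div_factorial h
  · exact Nat.choose_eq_zero_of_lt (by omega)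

theorem num1 : ∀ s < 101, s * ∑ j ∈ range (100 - s + 1), fc (100 - s) j * w (j + 1) ≤
    Nat.factorial 100 := by decide +kernel

theorem num2 : 500 + 5 * Nat.factorial 100 < ∑ j ∈ range (100 + 1), fc 100 j * w j := by
  decide +kernel

variable (A : Type)

abbrev BB : Type := Σ T : Finset A, Fin (w T.card)

def adj : A ⊕ BB A → A ⊕ BB A → Prop
  | .inl _, .inl _ => False
  | .inl a, .inr b => a ∈ b.1
  | .inr b, .inl a => a ∈ b.1
  | .inr _, .inr _ => False

def G : SimpleGraph (A ⊕ BB A) where
  Adj := adj A
  symm := ⟨by rintro (u | u) (v | v) h <;> exact h⟩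
  loopless := ⟨by rintro (u | u) h <;> exact h⟩

theorem cardB [Fintype A] [DecidableEq A] (hA : Fintype.card A = 100) :
    Fintype.card (BB A) = ∑ j ∈ range (100 + 1), fc 100 j * w j := by
  rw [Fintype.card_sigma]
  simp only [Fintype.card_fin]
  rw [← powerset_univ, sum_powerset_apply_card w, card_univ, hA]
  simp only [fc_eq, smul_eq_mul]

theorem conn [Fintype A] (hA : Fintype.card A = 100) : (G A).Connected := by
  have h0 : 0 < w (univ : Finset A).card := by
    rw [card_univ, hA]
    unfold w
    rw [if_neg (by norm_num)]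
    exact Nat.mul_pos (Nat.factorial_pos _) (Nat.factorial_pos _)
  let z : A ⊕ BB A := .inr ⟨univ, ⟨0, h0⟩⟩
  have h1 : ∀ a : A, (G A).Reachable (.inl a) z := fun a =>
    SimpleGraph.Adj.reachable (show adj A (.inl a) z from mem_univ a)
  have h2 : ∀ v, (G A).Reachable v z := by
    rintro (a | ⟨T, i⟩)
    · exact h1 a
    · have hT : T.Nonempty := by
        rw [← card_pos, Nat.pos_iff_ne_zero]
        intro hc
        have h3 := i.2
        have h4 : w T.card = 0 := by rw [hc]; rfl
        omega
      obtain ⟨a, ha⟩ := hT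
      exact (SimpleGraph.Adj.reachable (show adj A (.inr ⟨T, i⟩) (.inl a) from ha)).trans (h1 a)
  haveI : Nonempty (A ⊕ BB A) := ⟨z⟩
  exact ⟨fun u v => (h2 u).trans (h2 v).symm⟩

theorem count [Fintype A] [DecidableEq A] (hA : Fintype.card A = 100) (S : Finset A) :
    (univ.filter fun b : BB A => (b.1 ∩ S).card = 1).card ≤ Nat.factorial 100 := by
  have h1 : (univ.filter fun b : BB A => (b.1 ∩ S).card = 1) =
      (univ.filter fun T : Finset A => (T ∩ S).card = 1).sigma fun _ => univ := by
    ext b; simp
  rw [h1, card_sigma]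
  simp only [card_univ, Fintype.card_fin]
  have h2 : (univ.filter fun T : Finset A => (T ∩ S).card = 1) ⊆
      (S ×ˢ (univ \ S).powerset).image fun p => insert p.1 p.2 := by
    intro T hT
    simp only [mem_filter, mem_univ, true_and, card_eq_one] at hT
    obtain ⟨x, hx⟩ := hT
    have hx1 : x ∈ T ∩ S := by rw [hx]; simp
    rw [mem_inter] at hx1
    refine mem_image.2 ⟨(x, T.erase x), ?_, insert_erase hx1.1⟩
    simp only [mem_product, mem_powerset]
    refine ⟨hx1.2, fun y hy => ?_⟩
    rw [mem_erase] at hy
    simp only [mem_sdiff, mem_univ, true_and]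
    intro hyS
    have : y ∈ T ∩ S := mem_inter.2 ⟨hy.2, hyS⟩
    rw [hx] at this
    exact hy.1 (by simpa using this)
  refine le_trans (sum_le_sum_of_subset h2) (le_trans (sum_image_le_of_nonneg
    (fun _ _ => Nat.zero_le _)) ?_)
  rw [sum_product]
  have h3 : ∀ x ∈ S, ∑ R ∈ (univ \ S).powerset, w (insert x R).card =
      ∑ j ∈ range (100 - S.card + 1), fc (100 - S.card) j * w (j + 1) := by
    intro x hx
    have h4 : ∀ R ∈ (univ \ S).powerset, w (insert x R).card = w (R.card + 1) := by
      intro R hR
      rw [card_insert_of_notMem]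
      intro hc
      have := mem_powerset.1 hR hc
      simp [hx] at this
    rw [sum_congr rfl h4, sum_powerset_apply_card (fun j => w (j + 1)), card_univ_sdiff, hA]
    simp only [fc_eq, smul_eq_mul]
  rw [sum_congr rfl h3, sum_const, smul_eq_mul]
  refine num1 _ ?_
  have := card_le_univ S
  omega

theorem main (A : Type) [Fintype A] [DecidableEq A] (hA : Fintype.card A = 100)
    (f : A ⊕ BB A → ℕ) (hf : ∀ v, f v = 0 → ∃! u, (G A).Adj v u ∧ f u = 2) :
    4 * Fintype.card (A ⊕ BB A) < 5 * ∑ v, f v := by
  have h1 := count A hA (univ.filter fun a => f (.inl a) = 2)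
  have h2 : (univ.filter fun b : BB A => f (.inr b) = 0) ⊆
      univ.filter fun b : BB A => (b.1 ∩ univ.filter fun a => f (.inl a) = 2).card = 1 := by
    intro b hb
    simp only [mem_filter, mem_univ, true_and] at hb ⊢
    obtain ⟨u, ⟨hu1, hu2⟩, hu3⟩ := hf _ hb
    rcases u with a | c
    · rw [card_eq_one]
      refine ⟨a, ?_⟩
      ext y
      simp only [mem_inter, mem_filter, mem_univ, true_and, mem_singleton]
      constructor
      · intro hy
        exact Sum.inl_injective (hu3 (.inl y) hy)
      · rintro rfl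
        exact ⟨hu1, hu2⟩
    · exact absurd hu1 id
  have h3 := le_trans (card_le_card h2) h1
  have h4 : Fintype.card (BB A) ≤
      (univ.filter fun b : BB A => f (.inr b) = 0).card + ∑ b : BB A, f (.inr b) := by
    rw [card_filter, ← sum_add_distrib, ← card_univ, card_eq_sum_ones]
    refine sum_le_sum fun b _ => ?_
    split_ifs <;> omega
  rw [Fintype.sum_sum_type, Fintype.card_sum, hA]
  have h5 := num2
  rw [← cardB A hA] at h5
  omega

/-- The negation of the preceding statement: Every connected finite simple graph on n ≥ 3 vertices has a 0/1/2 labelling where each 0-vertex has exactly one neighbour labelled 2, with total label sum at most 4n/5. -/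
theorem result :
    ¬ (∀ (V : Type) [Fintype V] (G : SimpleGraph V),
      G.Connected → 3 ≤ Fintype.card V →
      ∃ f : V → ℕ, (∀ v, f v ≤ 2) ∧
        (∀ v, f v = 0 → ∃! u, G.Adj v u ∧ f u = 2) ∧
        5 * (∑ v, f v) ≤ 4 * Fintype.card V) := by
  intro h
  obtain ⟨A, _, _, hA⟩ : ∃ (A : Type) (_ : Fintype A) (_ : DecidableEq A),
      Fintype.card A = 100 := ⟨Fin 100, inferInstance, inferInstance, Fintype.card_fin _⟩
  obtain ⟨f, -, hf, hs⟩ := h (A ⊕ BB A) (G A) (conn A hA)
    (by rw [Fintype.card_sum, hA]; omega)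
  have := main A hA f hf
  omega

end Pool.Agent.S10670
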