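import Pool.Statements.S10688

set_option autoImplicit false
open Pool Pool.MP_aa5d6e_co

namespace Pool.Agent.S10688

open Finset

theorem ext2 (c p q d1 d2 d3 e1 e2 e3 : ℕ) (hd : d1 ≠ d2 ∧ d1 ≠ d3 ∧ d2 ≠ d3)
    (he : e1 ≠ e2 ∧ e1 ≠ e3 ∧ e2 ≠ e3)
    (h : ∀ u ∈ [d1, d2, d3], ∀ w ∈ [e1, e2, e3], u = c ∨ w = c ∨ u = p ∨ w = q ∨ u = w) :
    c ∈ [d1, d2, d3] ∧ p ∈ [d1, d2, d3] ∧ c ∈ [e1, e2, e3] ∧ q ∈ [e1, e2, e3] := by
  simp only [List.forall_mem_cons, List.not_mem_nil, false_imp_iff, implies_true, and_true] at h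
  simp only [List.mem_cons, List.not_mem_nil, or_false]
  grind

theorem one (a1 a2 b1 b2 c1 c2 h0 h1 h2 h3 h4 : ℕ) (ha : a1 ≠ a2) (hb : b1 ≠ b2) (hc : c1 ≠ c2)
    (hh : h1 ≠ h2 ∧ h1 ≠ h3 ∧ h1 ≠ h4 ∧ h2 ≠ h3 ∧ h2 ≠ h4 ∧ h3 ≠ h4)
    (n0 : ∀ q ∈ [a1, a2], ∀ r ∈ [b1, b2], ∀ p ∈ [c1, c2], q = h0 ∨ r = h0 ∨ p = h0 ∨ q = r ∨ r = p)
    (no : ∀ h ∈ [h1, h2, h3, h4], ∀ q ∈ [a1, a2], ∀ r ∈ [b1, b2], ∀ p ∈ [c1, c2],
      q = h ∨ r = h ∨ p = h ∨ q = r ∨ r = p ∨ p ≠ h0) :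
    ((a1 = b1 ∨ a1 = b2) ∧ (a2 = b1 ∨ a2 = b2)) ∧
      ¬ ((c1 = b1 ∨ c1 = b2) ∧ (c2 = b1 ∨ c2 = b2)) := by
  simp only [List.forall_mem_cons, List.not_mem_nil, false_imp_iff, implies_true, and_true] at no n0
  grind (splits := 40)

theorem out (d1 d2 d3 h1 h2 h3 h4 : ℕ)
    (hh : h1 ≠ h2 ∧ h1 ≠ h3 ∧ h1 ≠ h4 ∧ h2 ≠ h3 ∧ h2 ≠ h4 ∧ h3 ≠ h4) :
    ∃ h ∈ [h1, h2, h3, h4], h ∉ [d1, d2, d3] := by
  by_contra hc
  push Not at hc
  simp only [List.forall_mem_cons, List.not_mem_nil, false_imp_iff, implies_true, and_true] at hc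
  simp only [List.mem_cons, List.not_mem_nil, or_false] at hc
  grind

theorem wheel (a1 a2 b1 b2 c1 c2 d1 d2 d3 e1 e2 e3 h1 h2 h3 h4 : ℕ) (ha : a1 ≠ a2) (hb : b1 ≠ b2)
    (hc : c1 ≠ c2) (hd : d1 ≠ d2 ∧ d1 ≠ d3 ∧ d2 ≠ d3) (he : e1 ≠ e2 ∧ e1 ≠ e3 ∧ e2 ≠ e3)
    (hh : h1 ≠ h2 ∧ h1 ≠ h3 ∧ h1 ≠ h4 ∧ h2 ≠ h3 ∧ h2 ≠ h4 ∧ h3 ≠ h4) :
    ∃ h ∈ [h1, h2, h3, h4], ∃ q ∈ [a1, a2], ∃ r ∈ [b1, b2], ∃ p ∈ [c1, c2], ∃ u ∈ [d1, d2, d3],
      ∃ w ∈ [e1, e2, e3], q ≠ h ∧ r ≠ h ∧ p ≠ h ∧ q ≠ r ∧ r ≠ p ∧ u ≠ h ∧ w ≠ h ∧ u ≠ p ∧ w ≠ q ∧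
        u ≠ w := by
  by_contra no
  have k : ∀ h ∈ [h1, h2, h3, h4], ∀ q ∈ [a1, a2], ∀ r ∈ [b1, b2], ∀ p ∈ [c1, c2],
      q = h ∨ r = h ∨ p = h ∨ q = r ∨ r = p ∨
      (h ∈ [d1, d2, d3] ∧ p ∈ [d1, d2, d3] ∧ h ∈ [e1, e2, e3] ∧ q ∈ [e1, e2, e3]) := by
    intro h m1 q m2 r m3 p m4
    by_contra hn
    simp only [not_or] at hn
    obtain ⟨s1, s2, s3, s4, s5, s6⟩ := hn
    refine s6 (ext2 h p q d1 d2 d3 e1 e2 e3 hd he fun u m5 w m6 => ?_)
    by_contra hm
    simp only [not_or] at hm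
    exact no ⟨h, m1, q, m2, r, m3, p, m4, u, m5, w, m6, s1, s2, s3, s4, s5, hm⟩
  obtain ⟨x, mx, hx⟩ := out d1 d2 d3 h1 h2 h3 h4 hh
  obtain ⟨y, my, hy⟩ := out e1 e2 e3 h1 h2 h3 h4 hh
  have X := one a1 a2 b1 b2 c1 c2 x h1 h2 h3 h4 ha hb hc hh
    (fun q m2 r m3 p m4 => by have := k x mx q m2 r m3 p m4; tauto)
    (fun h m1 q m2 r m3 p m4 => by
      have := k h m1 q m2 r m3 p m4
      by_cases e : p = x
      · rw [← e] at hx; tauto
      · tauto)
  have Y := one c1 c2 b1 b2 a1 a2 y h1 h2 h3 h4 hc hb ha hh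
    (fun p m4 r m3 q m2 => by have := k y my q m2 r m3 p m4; tauto)
    (fun h m1 p m4 r m3 q m2 => by
      have := k h m1 q m2 r m3 p m4
      by_cases e : q = y
      · rw [← e] at hy; tauto
      · tauto)
  exact X.2 Y.1

def ed (u v : Fin 6) : Bool :=
  !(u == v) && (u == 5 || v == 5 || (u.val + 1) % 5 == v.val || (v.val + 1) % 5 == u.val)

theorem ed_symm : ∀ u v, ed u v = true → ed v u = true := by decide

theorem ed_irr : ∀ u, ed u u = false := by decide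

def sz : Fin 6 → ℕ := ![2, 2, 2, 3, 3, 4]

theorem wheelF (L : Fin 6 → Finset ℕ) (hL : ∀ v, sz v ≤ (L v).card) :
    ∃ col : Fin 6 → ℕ, (∀ v, col v ∈ L v) ∧ ∀ u v, ed u v = true → col u ≠ col v := by
  have e : ∀ v, ∃ e : Fin (sz v) → ℕ, (∀ i j, i ≠ j → e i ≠ e j) ∧ ∀ i, e i ∈ L v := fun v =>
    ⟨(L v).orderEmbOfCardLe (hL v), fun i j h h' => h (((L v).orderEmbOfCardLe (hL v)).injective h'),
      fun i => orderEmbOfCardLe_mem _ _ i⟩
  obtain ⟨(a : Fin 2 → ℕ), ia, ma⟩ := e 0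
  obtain ⟨(b : Fin 2 → ℕ), ib, mb⟩ := e 1
  obtain ⟨(c : Fin 2 → ℕ), ic, mc⟩ := e 2
  obtain ⟨(d : Fin 3 → ℕ), id, md⟩ := e 3
  obtain ⟨(g : Fin 3 → ℕ), ig, mg⟩ := e 4
  obtain ⟨(h : Fin 4 → ℕ), ih, mh⟩ := e 5
  obtain ⟨z, m1, q, m2, r, m3, p, m4, u, m5, w, m6, t⟩ := wheel (a 0) (a 1) (b 0) (b 1) (c 0) (c 1)
    (d 0) (d 1) (d 2) (g 0) (g 1) (g 2) (h 0) (h 1) (h 2) (h 3) (ia _ _ (by decide))
    (ib _ _ (by decide)) (ic _ _ (by decide))
    ⟨id _ _ (by decide), id _ _ (by decide), id _ _ (by decide)⟩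
    ⟨ig _ _ (by decide), ig _ _ (by decide), ig _ _ (by decide)⟩
    ⟨ih _ _ (by decide), ih _ _ (by decide), ih _ _ (by decide), ih _ _ (by decide),
      ih _ _ (by decide), ih _ _ (by decide)⟩
  simp only [List.mem_cons, List.not_mem_nil, or_false] at m1 m2 m3 m4 m5 m6
  obtain ⟨t1, t2, t3, t4, t5, t6, t7, t8, t9, t10⟩ := t
  refine ⟨![q, r, p, u, w, z], ?_, ?_⟩
  · intro v
    fin_cases v
    · rcases m2 with rfl | rfl <;> exact ma _
    · rcases m3 with rfl | rfl <;> exact mb _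
    · rcases m4 with rfl | rfl <;> exact mc _
    · rcases m5 with rfl | rfl | rfl <;> exact md _
    · rcases m6 with rfl | rfl | rfl <;> exact mg _
    · rcases m1 with rfl | rfl | rfl | rfl <;> exact mh _
  · intro x y hxy
    fin_cases x <;> fin_cases y <;>
      first
      | exact absurd hxy (by decide)
      | assumption
      | exact Ne.symm (by assumption)

abbrev Idx : Type := Bool → {S : Finset (Fin 25) // S.card = 6}

abbrev V : Type := Bool ⊕ (Idx × Fin 6)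

def nb (v : Fin 6) (p : Bool) : Bool := if p then decide (v.val < 3) else decide (v.val < 5)

def grel : V → V → Prop
  | .inl _, .inl _ => False
  | .inl p, .inr r => nb r.2 p = true
  | .inr r, .inl p => nb r.2 p = true
  | .inr r, .inr s => r.1 = s.1 ∧ ed r.2 s.2 = true

def G : SimpleGraph V where
  Adj := grel
  symm := ⟨by
    rintro (p | r) (q | s) h
    · exact h
    · exact h
    · exact h
    · exact ⟨h.1.symm, ed_symm _ _ h.2⟩⟩
  loopless := ⟨by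
    rintro (p | r) h
    · exact h
    · have := h.2
      rw [ed_irr] at this
      exact Bool.false_ne_true this⟩

theorem nbc : ∀ v, sz v + (univ.filter fun p => nb v p = true).card = 4 := by decide

theorem good (L : V → Finset ℕ) (hL : ∀ v, (L v).card = 4) :
    ∃ c : V → ℕ, (∀ v, c v ∈ L v) ∧ ∀ u v, G.Adj u v → c u ≠ c v := by
  have e : ∀ p, ∃ x, x ∈ L (.inl p) := fun p => card_pos.1 (by rw [hL]; norm_num)
  choose cx hx using e
  have key : ∀ ρ : Idx, ∃ col : Fin 6 → ℕ,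
      (∀ v, col v ∈ L (.inr (ρ, v)) \ (univ.filter fun p => nb v p = true).image cx) ∧
      ∀ u v, ed u v = true → col u ≠ col v := by
    intro ρ
    refine wheelF _ fun v => ?_
    have h1 := le_card_sdiff ((univ.filter fun p => nb v p = true).image cx) (L (.inr (ρ, v)))
    have h2 := card_image_le (s := univ.filter fun p => nb v p = true) (f := cx)
    have h3 := nbc v
    rw [hL] at h1
    omega
  choose col c1 c2 using key
  have c3 : ∀ ρ v p, nb v p = true → cx p ≠ col ρ v := fun ρ v p h e =>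
    (mem_sdiff.1 (c1 ρ v)).2 (mem_image.2 ⟨p, by simpa using h, e⟩)
  refine ⟨fun v => match v with | .inl p => cx p | .inr r => col r.1 r.2, ?_, ?_⟩
  · rintro (p | r)
    · exact hx p
    · exact (mem_sdiff.1 (c1 r.1 r.2)).1
  · rintro (p | ⟨ρ, u⟩) (q | ⟨τ, v⟩) h
    · exact h.elim
    · exact c3 _ _ _ h
    · exact (c3 _ _ _ h).symm
    · obtain rfl : ρ = τ := h.1
      exact c2 _ _ _ h.2

def core : Fin 6 → Finset ℕ :=
  ![range 9 ∪ {19, 20, 21, 22}, range 9 ∪ {21, 22, 23, 24}, range 9 ∪ {17, 18, 23, 24},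
    range 19, range 17 ∪ {19, 20}, range 25]

theorem core_sub : ∀ v, core v ⊆ range 25 := by decide +kernel

theorem core_card : ∀ v, (core v).card + (if nb v false = true then 6 else 0) +
    (if nb v true = true then 6 else 0) = 25 := by decide +kernel

theorem cap : ∀ c : Fin 25, ∀ b : Fin 6 → Bool, (∀ v, b v = true → c.val ∈ core v) →
    (∀ u v, ed u v = true → b u = true → b v = false) →
    (∑ v, if b v = true then 1 else 0) ≤ if c.val < 9 then 2 else 1 := by decide +kernel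

def sh (p : Bool) (i : Fin 25) : ℕ := (if p then 200 else 100) + i.val

theorem sh_inj (p : Bool) : Function.Injective (sh p) := fun i j h => by
  unfold sh at h
  exact Fin.ext (by omega)

def part (ρ : Idx) (v : Fin 6) (p : Bool) : Finset ℕ :=
  if nb v p = true then (ρ p).1.image (sh p) else ∅

def LL : V → Finset ℕ
  | .inl p => univ.image (sh p)
  | .inr r => core r.2 ∪ part r.1 r.2 false ∪ part r.1 r.2 true

theorem part_mem (ρ : Idx) (v : Fin 6) (p : Bool) (x : ℕ) (h : x ∈ part ρ v p) :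
    nb v p = true ∧ x ∈ (ρ p).1.image (sh p) := by
  unfold part at h
  split_ifs at h with h'
  · exact ⟨h', h⟩
  · simp at h

theorem part_card (ρ : Idx) (v : Fin 6) (p : Bool) :
    (part ρ v p).card = if nb v p = true then 6 else 0 := by
  unfold part
  split_ifs
  · rw [card_image_of_injective _ (sh_inj p), (ρ p).2]
  · rfl

theorem LL_card : ∀ v, (LL v).card = 25 := by
  rintro (p | ⟨ρ, v⟩)
  · simp [LL, card_image_of_injective _ (sh_inj p)]
  · have b1 : ∀ x ∈ core v, x < 25 := fun x hx => mem_range.1 (core_sub v hx)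
    have b2 : ∀ x ∈ part ρ v false, 100 ≤ x ∧ x < 125 := fun x hx => by
      obtain ⟨i, -, rfl⟩ := mem_image.1 (part_mem _ _ _ _ hx).2
      have := i.isLt
      simp only [sh, Bool.false_eq_true, if_false]
      omega
    have b3 : ∀ x ∈ part ρ v true, 200 ≤ x := fun x hx => by
      obtain ⟨i, -, rfl⟩ := mem_image.1 (part_mem _ _ _ _ hx).2
      simp [sh]
    show (core v ∪ part ρ v false ∪ part ρ v true).card = 25
    rw [card_union_of_disjoint, card_union_of_disjoint, part_card, part_card, core_card]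
    · exact disjoint_left.2 fun x h1 h2 => by have := b1 x h1; have := b2 x h2; omega
    · refine disjoint_left.2 fun x h1 h2 => ?_
      have := b3 x h2
      rcases mem_union.1 h1 with h | h
      · have := b1 x h; omega
      · have := b2 x h; omega

theorem bad : ¬ ∃ f : V → Finset ℕ, (∀ v, f v ⊆ LL v ∧ (f v).card = 6) ∧
    ∀ u v, G.Adj u v → Disjoint (f u) (f v) := by
  rintro ⟨f, hf, h⟩
  have im : ∀ p, (univ.filter fun i => sh p i ∈ f (.inl p)).image (sh p) = f (.inl p) := by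
    intro p
    ext x
    simp only [mem_image, mem_filter, mem_univ, true_and]
    constructor
    · rintro ⟨i, h1, rfl⟩
      exact h1
    · intro hx
      obtain ⟨i, -, rfl⟩ := mem_image.1 ((hf (.inl p)).1 hx)
      exact ⟨i, hx, rfl⟩
  let ρ : Idx := fun p => ⟨univ.filter fun i => sh p i ∈ f (.inl p), by
    rw [← card_image_of_injective _ (sh_inj p), im, (hf _).2]⟩
  have sub : ∀ v, f (.inr (ρ, v)) ⊆ core v := by
    intro v x hx
    have np : ∀ p, x ∉ part ρ v p := fun p hp => by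
      obtain ⟨h1, h2⟩ := part_mem _ _ _ _ hp
      rw [im] at h2
      exact disjoint_left.1 (h (.inl p) (.inr (ρ, v)) h1) h2 hx
    rcases mem_union.1 ((hf _).1 hx) with h1 | h1
    · rcases mem_union.1 h1 with h2 | h2
      · exact h2
      · exact (np _ h2).elim
    · exact (np _ h1).elim
  have cnt : ∀ v, (∑ c : Fin 25, if decide (c.val ∈ f (.inr (ρ, v))) = true then 1 else 0) = 6 := by
    intro v
    rw [Fin.sum_univ_eq_sum_range (fun c => if decide (c ∈ f (.inr (ρ, v))) = true then 1 else 0) 25]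
    simp only [decide_eq_true_eq]
    rw [← sum_filter, filter_mem_eq_inter, inter_eq_right.2 ((sub v).trans (core_sub v)),
      ← card_eq_sum_ones, (hf _).2]
  have tot : (∑ c : Fin 25, ∑ v : Fin 6,
      if decide (c.val ∈ f (.inr (ρ, v))) = true then 1 else 0) = 36 := by
    rw [sum_comm, sum_congr rfl fun v _ => cnt v]
    rfl
  have le : (∑ c : Fin 25, ∑ v : Fin 6,
      if decide (c.val ∈ f (.inr (ρ, v))) = true then 1 else 0) ≤
      ∑ c : Fin 25, if c.val < 9 then 2 else 1 :=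
    sum_le_sum fun c _ => cap c _ (fun v hv => sub v (by simpa using hv)) fun u v huv hu => by
      simpa using disjoint_left.1 (h (.inr (ρ, u)) (.inr (ρ, v)) ⟨rfl, huv⟩) (by simpa using hu)
  rw [tot] at le
  exact absurd le (by decide)

/-- The negation of the preceding statement: For every finite graph G that is k-choosable, and every real r > k and integer m ≥ 1, G is (⌈rm⌉, m)-choosable. Equivalently, the strong fractional choice number of G is at most its choice number. -/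
theorem result :
    ¬ (∀ (V : Type) [Fintype V] (G : SimpleGraph V) (k : ℕ),
    (∀ L : V → Finset ℕ, (∀ v, (L v).card = k) →
        ∃ c : V → ℕ, (∀ v, c v ∈ L v) ∧ ∀ u v, G.Adj u v → c u ≠ c v) →
    ∀ r : ℝ, (k : ℝ) < r → ∀ m : ℕ, 1 ≤ m →
      ∀ L : V → Finset ℕ, (∀ v, (L v).card = ⌈r * (m : ℝ)⌉₊) →
        ∃ f : V → Finset ℕ, (∀ v, f v ⊆ L v ∧ (f v).card = m) ∧
          ∀ u v, G.Adj u v → Disjoint (f u) (f v)) := by
  intro h
  refine bad (h V G 4 good (25 / 6) (by norm_num) 6 (by norm_num) LL fun v => ?_)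
  have : (25 / 6 : ℝ) * ((6 : ℕ) : ℝ) = ((25 : ℕ) : ℝ) := by norm_num
  rw [this, Nat.ceil_natCast, LL_card]

end Pool.Agent.S10688
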