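import Pool.Statements.S10693
import Pool.Agent.H14.Euler2

set_option autoImplicit false
open Pool Pool.MP_aa6e80_co

namespace Pool.Agent.S10693

/-- For every nonnegative log-convex real sequence x, the sequence z_n = sum over k from 0 to n of A(n,k) x_k is log-convex, where A(n,k) counts permutations of n elements with exactly k descents. -/
theorem result :
    ∀ x : ℕ → ℝ, (∀ n, 0 ≤ x n) → (∀ k, x (k + 1) ^ 2 ≤ x k * x (k + 2)) →
      ∀ z : ℕ → ℝ,
        (∀ n, z n = ∑ k ∈ Finset.range (n + 1),
          (((Finset.univ : Finset (Equiv.Perm (Fin n))).filter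
            (fun σ => ((Finset.univ : Finset (Fin n × Fin n)).filter
              (fun p => p.2.val = p.1.val + 1 ∧ σ p.2 < σ p.1)).card = k)).card : ℝ) * x k) →
        ∀ n, z (n + 1) ^ 2 ≤ z n * z (n + 2) := by
  intro x h0 hx z hz n
  have e : ∀ n N, n ≤ N → z n = ∑ k ∈ Finset.range (N + 1), H14.Euler.A n k * x k := by
    intro n N h
    rw [hz, ← H14.Euler.ext n N h, ← H14.Euler.sum_perm, ← Finset.sum_fiberwise_of_maps_to
      (g := fun σ => H14.Euler.des n (H14.Euler.ex σ)) (t := Finset.range (n + 1))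
      fun σ _ => Finset.mem_range.2 (Nat.lt_succ_of_le (H14.Euler.des_le _ _))]
    refine Finset.sum_congr rfl fun k _ => ?_
    simp only [H14.Euler.des_eq]
    rw [Finset.sum_congr rfl fun σ hσ => by rw [(Finset.mem_filter.1 hσ).2]]
    simp
  rw [e _ (n + 2) (by omega), e _ (n + 2) (by omega), e _ (n + 2) le_rfl]
  exact H14.Euler.main x h0 hx n

end Pool.Agent.S10693
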