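import Pool.Statements.S10719
import Pool.Agent.H15.NS1

set_option autoImplicit false
open Pool Pool.MP_aba350_co

namespace Pool.Agent.S10719

theorem result :
    ∀ t n : ℕ, 0 < t → 0 < n →
      ∀ c : Fin ((t - 1) * (n - 1) + 2 * n) → Fin ((t - 1) * (n - 1) + 2 * n) → Fin t,
        ∃ k : Fin t, ∃ a b : Fin n → Fin ((t - 1) * (n - 1) + 2 * n),
          Function.Injective a ∧ Function.Injective b ∧
          (∀ i j, a i < b j) ∧ ∀ i, c (a i) (b i) = k := by
  intro t n ht hn c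
  obtain ⟨k, rfl⟩ : ∃ k, n = k + 1 := ⟨n - 1, by omega⟩
  obtain ⟨s, rfl⟩ : ∃ s, t = s + 1 := ⟨t - 1, by omega⟩
  apply Pool.Agent.H15.NS1.main (s + 1) k _ _ c
  simp only [Nat.add_sub_cancel]
  nlinarith

end Pool.Agent.S10719
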