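import Pool.Statements.S10770

set_option autoImplicit false
open Pool Pool.MP_ad5ca6_co

namespace Pool.Agent.S10770

/-- Blow-up of the directed 6-cycle: vertex i lies in part i / 2; the two vertices of a part are
joined by an arc from the even to the odd one, and every vertex sends arcs to the whole next part. -/
def adj (i j : Fin 12) : Bool :=
  (i.val % 2 == 0 && j.val == i.val + 1) || (j.val / 2 == (i.val / 2 + 1) % 6)

noncomputable def A : Matrix (Fin 12) (Fin 12) ℂ := fun i j => if adj i j then 1 else 0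

noncomputable def vec (i : Fin 12) : ℂ := if i.val % 2 = 0 then (Real.sqrt 2 : ℝ) else 1

lemma adj_of {i j : Fin 12} (h : A i j = 1) : adj i j = true := by
  unfold A at h
  by_contra hc
  simp [hc] at h

lemma no2 : ∀ a b : Fin 12, adj a b = true → adj b a = true → False := by decide +kernel
lemma no3 : ∀ a b : Fin 12, adj a b = true → ∀ c, adj b c = true → adj c a = true → False := by
  decide +kernel
lemma no4 : ∀ a b : Fin 12, adj a b = true → ∀ c, adj b c = true → ∀ d, adj c d = true →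
    adj d a = true → False := by decide +kernel
lemma no5 : ∀ a b : Fin 12, adj a b = true → ∀ c, adj b c = true → ∀ d, adj c d = true →
    ∀ e, adj d e = true → adj e a = true → False := by decide +kernel

lemma sq2 : ((Real.sqrt 2 : ℝ) : ℂ) * ((Real.sqrt 2 : ℝ) : ℂ) = 2 := by
  rw [← Complex.ofReal_mul, Real.mul_self_sqrt (by norm_num)]; norm_num

lemma eig : A.mulVec vec = ((1 + Real.sqrt 2 : ℝ) : ℂ) • vec := by
  have h := sq2
  funext i
  fin_cases i <;>
    simp [Matrix.mulVec, dotProduct, Fin.sum_univ_succ, A, adj, vec] <;>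
    first
      | linear_combination (-1 : ℂ) * h
      | ring

lemma mem_spec : ((1 + Real.sqrt 2 : ℝ) : ℂ) ∈ spectrum ℂ A := by
  rw [← Matrix.spectrum_toLin', ← Module.End.hasEigenvalue_iff_mem_spectrum]
  apply Module.End.hasEigenvalue_of_hasEigenvector (x := vec)
  refine ⟨?_, ?_⟩
  · rw [Module.End.mem_eigenspace_iff, Matrix.toLin'_apply, eig]
  · intro h
    have := congrFun h 1
    simp [vec] at this

/-- The negation of the statement. -/
theorem result :
    ¬ (∀ (n k : ℕ), 0 < k →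
      ∀ (A : Matrix (Fin n) (Fin n) ℂ),
        (∀ i j, A i j = 0 ∨ A i j = 1) →
        (∀ i, A i i = 0) →
        (∃ μ ∈ spectrum ℂ A, (n : ℝ) / (k : ℝ) ≤ ‖μ‖) →
        ∃ m : ℕ, 2 ≤ m ∧ m ≤ k ∧
          ∃ v : Fin m → Fin n, Function.Injective v ∧
            ∀ i : Fin m, A (v i) (v (finRotate m i)) = 1) := by
  intro h
  have h1 : ∀ i j, A i j = 0 ∨ A i j = 1 := by
    intro i j
    unfold A
    split_ifs <;> simp
  have h2 : ∀ i, A i i = 0 := by
    intro i
    have : adj i i = false := by revert i; decide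
    simp [A, this]
  have h3 : ∃ μ ∈ spectrum ℂ A, ((12 : ℕ) : ℝ) / ((5 : ℕ) : ℝ) ≤ ‖μ‖ := by
    refine ⟨_, mem_spec, ?_⟩
    rw [Complex.norm_real, Real.norm_eq_abs]
    have : (1.4 : ℝ) ≤ Real.sqrt 2 := Real.le_sqrt_of_sq_le (by norm_num)
    rw [abs_of_nonneg (by linarith)]
    push_cast
    linarith
  obtain ⟨m, hm2, hm5, v, -, hv⟩ := h 12 5 (by norm_num) A h1 h2 h3
  have hv' : ∀ i : Fin m, adj (v i) (v (finRotate m i)) = true := fun i => adj_of (hv i)
  interval_cases m
  · exact no2 _ _ (hv' 0) (hv' 1)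
  · exact no3 _ _ (hv' 0) _ (hv' 1) (hv' 2)
  · exact no4 _ _ (hv' 0) _ (hv' 1) _ (hv' 2) (hv' 3)
  · exact no5 _ _ (hv' 0) _ (hv' 1) _ (hv' 2) _ (hv' 3) (hv' 4)

end Pool.Agent.S10770
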