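import Pool.Statements.S10849
import Pool.Agent.H6.Skel

set_option autoImplicit false
open Pool Pool.MP_b0e7a9_co

namespace Pool.Agent.S10849

/-- For a nondegenerate d-simplex with vertices in the closed unit ball, 0 ≤ k < d, and x in the simplex: if the open ball of radius ρ at x misses every k-face, then ρ ≤ sqrt((d-k)/(d(k+1))). -/
theorem result :
    ∀ (d k : ℕ), 0 < d → k < d →
    ∀ (p : Fin (d + 1) → EuclideanSpace ℝ (Fin d)), AffineIndependent ℝ p →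
    (∀ i, ‖p i‖ ≤ 1) →
    ∀ (x : EuclideanSpace ℝ (Fin d)), x ∈ convexHull ℝ (Set.range p) →
    ∀ ρ : ℝ,
      Disjoint (Metric.ball x ρ)
        (⋃ (s : Finset (Fin (d + 1))) (_ : s.card = k + 1), convexHull ℝ (p '' (s : Set (Fin (d + 1))))) →
      ρ ≤ Real.sqrt (((d : ℝ) - (k : ℝ)) / ((d : ℝ) * ((k : ℝ) + 1))) := by
  intro d k hd hk p hp hb x hx ρ hdis
  obtain ⟨w, hw0, hw1, hwx⟩ : ∃ w : Fin (d + 1) → ℝ, (∀ i, 0 ≤ w i) ∧ ∑ i, w i = 1 ∧
      ∑ i, w i • p i = x := by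
    rw [convexHull_range_eq_exists_affineCombination] at hx
    obtain ⟨s, w, hw0, hw1, rfl⟩ := hx
    refine ⟨fun i => if i ∈ s then w i else 0, ?_, ?_, ?_⟩
    · intro i
      by_cases hi : i ∈ s
      · simp [hi, hw0 i hi]
      · simp [hi]
    · simp [Finset.sum_ite_mem, hw1]
    · rw [Finset.affineCombination_eq_linear_combination s p w hw1]
      simp [ite_smul, Finset.sum_ite_mem]
  have hW : H6.Skel.WW Finset.univ w := ⟨hw0, fun j hj => absurd (Finset.mem_univ j) hj, hw1⟩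
  have hVx : H6.Skel.VV p w = x := by rw [H6.Skel.VV_apply, hwx]
  obtain ⟨t, ht, w', hw', hle⟩ := H6.Skel.main p hp k (d - k) Finset.univ
    (by simp; omega) w hW (fun i => -2 * inner ℝ x (p i))
  have ea : ∀ u : Fin (d + 1) → ℝ, ∑ i, (-2 * inner ℝ x (p i)) * u i =
      -2 * inner ℝ x (H6.Skel.VV p u) := by
    intro u
    rw [H6.Skel.VV_apply, inner_sum, Finset.mul_sum]
    apply Finset.sum_congr rfl
    intro i _
    rw [real_inner_smul_right]; ring
  rw [ea, ea, hVx, real_inner_self_eq_norm_sq] at hle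
  set z := H6.Skel.VV p w' with hz
  have hc : (((d - k : ℕ) : ℝ) / (((k : ℝ) + (d - k : ℕ)) * ((k : ℝ) + 1))) =
      ((d : ℝ) - (k : ℝ)) / ((d : ℝ) * ((k : ℝ) + 1)) := by
    rw [Nat.cast_sub hk.le]; ring_nf
  rw [hc] at hle
  have hc0 : 0 ≤ ((d : ℝ) - (k : ℝ)) / ((d : ℝ) * ((k : ℝ) + 1)) := by
    rw [← hc]; positivity
  have hPhi : H6.Skel.Phi p w ≤ 1 := by
    have h1 : ∑ j, w j * ‖p j‖ ^ 2 ≤ ∑ j, w j := by
      apply Finset.sum_le_sum
      intro j _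
      have : ‖p j‖ ^ 2 ≤ 1 := pow_le_one₀ (norm_nonneg _) (hb j)
      nlinarith [hw0 j]
    have h2 : H6.Skel.Phi p w = ∑ j, w j * ‖p j‖ ^ 2 - ‖H6.Skel.VV p w‖ ^ 2 := rfl
    nlinarith [sq_nonneg ‖H6.Skel.VV p w‖]
  have hdist : ‖x - z‖ ^ 2 ≤ ((d : ℝ) - (k : ℝ)) / ((d : ℝ) * ((k : ℝ) + 1)) := by
    rw [norm_sub_sq_real]
    nlinarith
  have hzmem : z ∈ convexHull ℝ (p '' (t : Set (Fin (d + 1)))) := by
    have e : z = ∑ i ∈ t, w' i • p i := by
      rw [hz, H6.Skel.VV_apply]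
      exact (Finset.sum_subset (Finset.subset_univ t)
        (fun j _ hj => by simp [hw'.2.1 j hj])).symm
    rw [e]
    apply (convex_convexHull ℝ _).sum_mem (fun i _ => hw'.1 i)
    · rw [← hw'.2.2]
      exact Finset.sum_subset (Finset.subset_univ t) (fun j _ hj => hw'.2.1 j hj)
    · intro i hi
      exact subset_convexHull ℝ _ ⟨i, hi, rfl⟩
  have hnot : z ∉ Metric.ball x ρ := by
    intro hzb
    exact Set.disjoint_left.1 hdis hzb (Set.mem_iUnion₂.2 ⟨t, ht, hzmem⟩)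
  rw [Metric.mem_ball, dist_comm, dist_eq_norm, not_lt] at hnot
  exact hnot.trans (Real.le_sqrt_of_sq_le hdist)

end Pool.Agent.S10849
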