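import Pool.Statements.S10880

set_option autoImplicit false
open Pool Pool.MP_b23e6d_co

namespace Pool.Agent.S10880

/-- Vertices: apexes a j, centres x s, pendant vertices y s j. -/
inductive Vx (N D : ℕ) : Type
  | a : Fin D → Vx N D
  | x : Fin N → Vx N D
  | y : Fin N → Fin D → Vx N D
  deriving DecidableEq, Fintype

def rel {N D : ℕ} : Vx N D → Vx N D → Prop
  | .a i, .a j => i ≠ j
  | .a _, .x _ => True
  | .x _, .a _ => True
  | .a i, .y _ j => i ≤ j
  | .y _ j, .a i => i ≤ j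
  | .x s, .y t _ => s = t
  | .y t _, .x s => s = t
  | .x _, .x _ => False
  | .y _ _, .y _ _ => False

def Gam (N D : ℕ) : SimpleGraph (Vx N D) where
  Adj := rel
  symm := ⟨by
    intro p q h
    cases p <;> cases q <;> simp_all [rel, eq_comm]⟩
  loopless := ⟨by
    intro p h
    cases p <;> simp_all [rel]⟩

lemma two_nbrs {n : ℕ} (G : SimpleGraph (Fin n)) (hn : 3 ≤ n)
    (h2 : ∀ v : Fin n, (G.induce {w | w ≠ v}).Connected) (v u : Fin n) (huv : u ≠ v) :
    ∃ w, w ≠ u ∧ G.Adj v w := by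
  have hc := h2 u
  obtain ⟨z, hzu, hzv⟩ : ∃ z : Fin n, z ≠ u ∧ z ≠ v := by
    by_contra hcon
    push Not at hcon
    have : (Finset.univ : Finset (Fin n)) ⊆ {u, v} := by
      intro z _
      by_cases h : z = u
      · simp [h]
      · simp [hcon z h]
    have h1 := Finset.card_le_card this
    have h3 : ({u, v} : Finset (Fin n)).card ≤ 2 := Finset.card_le_two
    simp at h1
    omega
  obtain ⟨p⟩ := hc.preconnected ⟨v, huv.symm⟩ ⟨z, hzu⟩
  have hne : (⟨v, huv.symm⟩ : {w : Fin n | w ≠ u}) ≠ ⟨z, hzu⟩ := by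
    intro h
    exact hzv (congrArg Subtype.val h).symm
  cases p with
  | nil => exact absurd rfl hne
  | cons h _ =>
    rename_i b _
    exact ⟨b.1, b.2, h⟩

lemma other {n : ℕ} (hn : 3 ≤ n) (v : Fin n) : ∃ u : Fin n, u ≠ v := by
  have : Nontrivial (Fin n) := Fin.nontrivial_iff_two_le.mpr (by omega)
  exact exists_ne v

lemma two_nbrs' {n : ℕ} (G : SimpleGraph (Fin n)) (hn : 3 ≤ n)
    (h2 : ∀ v : Fin n, (G.induce {w | w ≠ v}).Connected) (v : Fin n) :
    ∃ w w', w ≠ w' ∧ G.Adj v w ∧ G.Adj v w' := by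
  obtain ⟨u, hu⟩ := other hn v
  obtain ⟨w, -, hw⟩ := two_nbrs G hn h2 v u hu
  obtain ⟨w', hw1, hw2⟩ := two_nbrs G hn h2 v w hw.ne.symm
  exact ⟨w, w', hw1.symm, hw, hw2⟩

lemma no_good {n N D : ℕ} (G : SimpleGraph (Fin n)) (φ : G ↪g Gam N D) (hn : 3 ≤ n)
    (h2 : ∀ v : Fin n, (G.induce {w | w ≠ v}).Connected)
    (hp : ∀ M : Set (Fin n), (∀ x, x ∉ M → ∀ y ∈ M, ∀ z ∈ M, (G.Adj x y ↔ G.Adj x z)) →
      M.Subsingleton ∨ M = Set.univ) : False := by
  have hadj : ∀ u v, G.Adj u v ↔ rel (φ u) (φ v) := fun u v => φ.map_adj_iff.symm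
  have key : ∀ (w : Fin n) (s : Fin N) (j : Fin D), φ w = .y s j →
      ∃ (u : Fin n) (i : Fin D), φ u = .a i ∧ i ≤ j := by
    intro w s j hw
    obtain ⟨p, q, hpq, h1, h2'⟩ := two_nbrs' G hn h2 w
    rw [hadj, hw] at h1 h2'
    cases hp' : φ p with
    | a i => rw [hp'] at h1; exact ⟨p, i, hp', h1⟩
    | y _ _ => rw [hp'] at h1; exact h1.elim
    | x t =>
      cases hq' : φ q with
      | a i => rw [hq'] at h2'; exact ⟨q, i, hq', h2'⟩
      | y _ _ => rw [hq'] at h2'; exact h2'.elim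
      | x t' =>
        rw [hp'] at h1; rw [hq'] at h2'
        have e1 : t = s := h1
        have e2 : t' = s := h2'
        exfalso
        apply hpq
        apply φ.injective
        change φ p = φ q
        rw [hp', hq', e1, e2]
  have hex : ∃ i : Fin D, ∃ u : Fin n, φ u = .a i := by
    let v : Fin n := ⟨0, by omega⟩
    cases hv : φ v with
    | a i => exact ⟨i, v, hv⟩
    | y s j =>
      obtain ⟨u, i, h, -⟩ := key v s j hv
      exact ⟨i, u, h⟩
    | x s =>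
      obtain ⟨p, -, -, h1, -⟩ := two_nbrs' G hn h2 v
      rw [hadj, hv] at h1
      cases hp' : φ p with
      | a i => exact ⟨i, p, hp'⟩
      | x _ => rw [hp'] at h1; exact h1.elim
      | y t j =>
        obtain ⟨u, i, h, -⟩ := key p t j hp'
        exact ⟨i, u, h⟩
  classical
  obtain ⟨i, ⟨v, hv⟩, hmin⟩ := WellFounded.has_min (wellFounded_lt (α := Fin D))
    {i | ∃ u : Fin n, φ u = .a i} hex
  have hdom : ∀ w, w ≠ v → G.Adj v w := by
    intro w hw
    rw [hadj, hv]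
    cases hw' : φ w with
    | a j =>
      intro e
      apply hw
      apply φ.injective
      change φ w = φ v
      rw [hw', hv, e]
    | x _ => trivial
    | y s j =>
      obtain ⟨u, l, h, hl⟩ := key w s j hw'
      have := hmin l ⟨u, h⟩
      exact le_trans (not_lt.mp this) hl
  rcases hp {w | w ≠ v} (by
      intro x hx y hy z hz
      have : x = v := by simpa using hx
      subst this
      exact ⟨fun _ => hdom z hz, fun _ => hdom y hy⟩) with h | h
  · obtain ⟨p, q, hpq, h1, h2'⟩ := two_nbrs' G hn h2 v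
    exact hpq (h h1.ne.symm h2'.ne.symm)
  · have : v ∈ {w | w ≠ v} := h ▸ Set.mem_univ v
    exact this rfl

lemma pigeon {N D k : ℕ} {I : Type} (U : Vx N D → Prop) (c : Vx N D → Fin k)
    (hc : ∀ p p', U p → U p' → c p = c p' → ∀ q, ¬ U q → (rel p q ↔ rel p' q))
    (T : Finset I) (g : I → Vx N D) (hg : ∀ i ∈ T, U (g i))
    (hd : ∀ i ∈ T, ∀ i' ∈ T, i ≠ i' → ∃ q, ¬ U q ∧ ¬ (rel (g i) q ↔ rel (g i') q)) :
    T.card ≤ k := by
  have : T.card ≤ (Finset.univ : Finset (Fin k)).card := by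
    apply Finset.card_le_card_of_injOn (fun i => c (g i)) (by intro i _; simp)
    intro i hi i' hi' h
    by_contra hne
    obtain ⟨q, hq, hq'⟩ := hd i hi i' hi' hne
    exact hq' (hc _ _ (hg i hi) (hg i' hi') h q hq)
  simpa using this

open Classical in
lemma final {k : ℕ} (U : Vx (3 * (k + 1)) (2 * k + 1) → Prop)
    (c : Vx (3 * (k + 1)) (2 * k + 1) → Fin k)
    (hc : ∀ p p', U p → U p' → c p = c p' → ∀ q, ¬ U q → (rel p q ↔ rel p' q))
    (h1 : k + 1 ≤ (Finset.univ.filter (fun s => U (.x s))).card)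
    (h2 : (Finset.univ.filter (fun s => U (.x s))).card ≤ 2 * (k + 1)) : False := by
  have hcompl := Finset.card_filter_add_card_filter_not (s := Finset.univ) (fun s => U (.x s))
  simp only [Finset.card_univ, Fintype.card_fin] at hcompl
  obtain ⟨s1, hs1⟩ : ∃ s, ∀ j, U (.y s j) := by
    by_contra hcon
    push Not at hcon
    have := pigeon U c hc (Finset.univ.filter (fun s => U (.x s))) (fun s => .x s)
      (by intro i hi; simpa using hi)
      (by
        intro i _ i' _ hne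
        obtain ⟨j, hj⟩ := hcon i
        refine ⟨.y i j, hj, ?_⟩
        simp [rel, hne.symm])
    omega
  obtain ⟨s2, hs2⟩ : ∃ s, ∀ j, ¬ U (.y s j) := by
    by_contra hcon
    push Not at hcon
    choose J hJ using hcon
    have := pigeon U c hc (Finset.univ.filter (fun s => ¬ U (.x s))) (fun s => .y s (J s))
      (by intro i _; exact hJ i)
      (by
        intro i hi i' _ hne
        refine ⟨.x i, by simpa using hi, ?_⟩
        simp [rel, hne])
    omega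
  have h3 := pigeon U c hc (Finset.univ.filter (fun j => U (.a j))) (fun j => .a j)
    (by intro i hi; simpa using hi)
    (by
      intro i _ i' _ hne
      rcases lt_or_gt_of_ne hne with h | h
      · refine ⟨.y s2 i, hs2 i, ?_⟩
        simp [rel, h]
      · refine ⟨.y s2 i', hs2 i', ?_⟩
        simp [rel, h])
  have h4 := pigeon U c hc (Finset.univ.filter (fun j => ¬ U (.a j))) (fun j => .y s1 j)
    (by intro i _; exact hs1 i)
    (by
      intro i hi i' hi' hne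
      rcases lt_or_gt_of_ne hne with h | h
      · refine ⟨.a i', by simpa using hi', ?_⟩
        simp [rel, h]
      · refine ⟨.a i, by simpa using hi, ?_⟩
        simp [rel, h])
  have h5 := Finset.card_filter_add_card_filter_not (s := Finset.univ) (fun j => U (.a j))
  simp only [Finset.card_univ, Fintype.card_fin] at h5
  omega

/-- The invariant carried along a k-expression. -/
def Inv (k m : ℕ) (W : Finset ℕ) (S : Finset ℕ) (H : SimpleGraph ℕ) (l : ℕ → Fin k) : Prop :=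
  (∀ u v, H.Adj u v → u ∈ S) ∧
  (m ≤ (S ∩ W).card → ∃ U : Finset ℕ, U ⊆ S ∧ m ≤ (U ∩ W).card ∧ (U ∩ W).card ≤ 2 * m ∧
    ∃ c : ℕ → Fin k, ∀ u ∈ U, ∀ u' ∈ U, c u = c u' →
      l u = l u' ∧ ∀ z, z ∉ U → (H.Adj u z ↔ H.Adj u' z))

lemma inv_small {k m : ℕ} {W S : Finset ℕ} {H : SimpleGraph ℕ} {l : ℕ → Fin k}
    (h : ∀ u v, H.Adj u v → u ∈ S) (h2 : (S ∩ W).card ≤ 2 * m) : Inv k m W S H l := by
  refine ⟨h, fun hm => ⟨S, subset_rfl, hm, h2, l, ?_⟩⟩
  intro u _ u' _ e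
  refine ⟨e, fun z hz => ?_⟩
  exact ⟨fun a => absurd (h z u a.symm) hz, fun a => absurd (h z u' a.symm) hz⟩

lemma inv_union {k m : ℕ} {W : Finset ℕ} (S₁ S₂ : Finset ℕ) (H₁ H₂ : SimpleGraph ℕ)
    (l₁ l₂ : ℕ → Fin k) (h1 : Inv k m W S₁ H₁ l₁) (h2 : Inv k m W S₂ H₂ l₂)
    (hd : Disjoint S₁ S₂) :
    Inv k m W (S₁ ∪ S₂) (H₁ ⊔ H₂) (fun v => if v ∈ S₁ then l₁ v else l₂ v) := by
  have hs : ∀ u v, (H₁ ⊔ H₂).Adj u v → u ∈ S₁ ∪ S₂ := by
    intro u v h
    rcases h with h | h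
    · exact Finset.mem_union_left _ (h1.1 u v h)
    · exact Finset.mem_union_right _ (h2.1 u v h)
  by_cases c1 : m ≤ (S₁ ∩ W).card
  · obtain ⟨U, hU, a, b, c, hc⟩ := h1.2 c1
    refine ⟨hs, fun _ => ⟨U, hU.trans Finset.subset_union_left, a, b, c, ?_⟩⟩
    intro u hu u' hu' e
    obtain ⟨e1, e2⟩ := hc u hu u' hu' e
    refine ⟨by simp [hU hu, hU hu', e1], fun z hz => ?_⟩
    have n1 : ¬ H₂.Adj u z := fun h => Finset.disjoint_left.mp hd (hU hu) (h2.1 _ _ h)
    have n2 : ¬ H₂.Adj u' z := fun h => Finset.disjoint_left.mp hd (hU hu') (h2.1 _ _ h)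
    simp [n1, n2, e2 z hz]
  by_cases c2 : m ≤ (S₂ ∩ W).card
  · obtain ⟨U, hU, a, b, c, hc⟩ := h2.2 c2
    refine ⟨hs, fun _ => ⟨U, hU.trans Finset.subset_union_right, a, b, c, ?_⟩⟩
    intro u hu u' hu' e
    obtain ⟨e1, e2⟩ := hc u hu u' hu' e
    have m1 : u ∉ S₁ := fun h => Finset.disjoint_left.mp hd h (hU hu)
    have m2 : u' ∉ S₁ := fun h => Finset.disjoint_left.mp hd h (hU hu')
    refine ⟨by simp [m1, m2, e1], fun z hz => ?_⟩
    have n1 : ¬ H₁.Adj u z := fun h => m1 (h1.1 _ _ h)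
    have n2 : ¬ H₁.Adj u' z := fun h => m2 (h1.1 _ _ h)
    simp [n1, n2, e2 z hz]
  · apply inv_small hs
    rw [Finset.union_inter_distrib_right]
    have := Finset.card_union_le (S₁ ∩ W) (S₂ ∩ W)
    omega

lemma inv_join {k m : ℕ} {W : Finset ℕ} (S : Finset ℕ) (H : SimpleGraph ℕ) (l : ℕ → Fin k)
    (a b : Fin k) (h : Inv k m W S H l) :
    Inv k m W S (H ⊔ SimpleGraph.fromRel (fun u v => u ∈ S ∧ v ∈ S ∧ l u = a ∧ l v = b)) l := by
  refine ⟨?_, fun hm => ?_⟩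
  · intro u v huv
    rcases huv with huv | huv
    · exact h.1 u v huv
    · rw [SimpleGraph.fromRel_adj] at huv
      rcases huv.2 with h' | h'
      · exact h'.1
      · exact h'.2.1
  · obtain ⟨U, hU, p, q, c, hc⟩ := h.2 hm
    refine ⟨U, hU, p, q, c, ?_⟩
    intro u hu u' hu' e
    obtain ⟨e1, e2⟩ := hc u hu u' hu' e
    refine ⟨e1, fun z hz => ?_⟩
    have n1 : u ≠ z := fun h' => hz (h' ▸ hu)
    have n2 : u' ≠ z := fun h' => hz (h' ▸ hu')
    simp [SimpleGraph.fromRel_adj, n1, n2, e2 z hz, hU hu, hU hu', e1]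

lemma inv_relabel {k m : ℕ} {W : Finset ℕ} (S : Finset ℕ) (H : SimpleGraph ℕ) (l : ℕ → Fin k)
    (a b : Fin k) (h : Inv k m W S H l) :
    Inv k m W S H (fun v => if l v = a then b else l v) := by
  refine ⟨h.1, fun hm => ?_⟩
  obtain ⟨U, hU, p, q, c, hc⟩ := h.2 hm
  refine ⟨U, hU, p, q, c, ?_⟩
  intro u hu u' hu' e
  obtain ⟨e1, e2⟩ := hc u hu u' hu' e
  exact ⟨by simp [e1], e2⟩

theorem result :
    ¬ (∀ 𝒢 : (n : ℕ) → SimpleGraph (Fin n) → Prop,
      (∀ (n m : ℕ) (G : SimpleGraph (Fin n)) (H : SimpleGraph (Fin m)),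
          Nonempty (SimpleGraph.Embedding H G) → 𝒢 n G → 𝒢 m H) →
      (∃ k : ℕ, ∀ (n : ℕ) (G : SimpleGraph (Fin n)), 𝒢 n G →
          (3 ≤ n ∧ G.Connected ∧ ∀ v : Fin n, (G.induce {w | w ≠ v}).Connected) →
          (3 ≤ n ∧ ∀ M : Set (Fin n),
              (∀ x, x ∉ M → ∀ y ∈ M, ∀ z ∈ M, (G.Adj x y ↔ G.Adj x z)) →
              M.Subsingleton ∨ M = Set.univ) →
          ∃ ℓ : ℕ → Fin k, ∀ P : Finset ℕ → SimpleGraph ℕ → (ℕ → Fin k) → Prop,
            ((∀ ℓ₀ : ℕ → Fin k, P ∅ ⊥ ℓ₀) ∧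
             (∀ (i : ℕ) (ℓ₀ : ℕ → Fin k), P {i} ⊥ ℓ₀) ∧
             (∀ (S₁ S₂ : Finset ℕ) (H₁ H₂ : SimpleGraph ℕ) (ℓ₁ ℓ₂ : ℕ → Fin k),
                P S₁ H₁ ℓ₁ → P S₂ H₂ ℓ₂ → Disjoint S₁ S₂ →
                P (S₁ ∪ S₂) (H₁ ⊔ H₂) (fun v => if v ∈ S₁ then ℓ₁ v else ℓ₂ v)) ∧
             (∀ (S : Finset ℕ) (H : SimpleGraph ℕ) (ℓ₀ : ℕ → Fin k) (a b : Fin k),
                a ≠ b → P S H ℓ₀ →
                P S (H ⊔ SimpleGraph.fromRel
                  (fun u v => u ∈ S ∧ v ∈ S ∧ ℓ₀ u = a ∧ ℓ₀ v = b)) ℓ₀) ∧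
             (∀ (S : Finset ℕ) (H : SimpleGraph ℕ) (ℓ₀ : ℕ → Fin k) (a b : Fin k),
                P S H ℓ₀ → P S H (fun v => if ℓ₀ v = a then b else ℓ₀ v))) →
            P (Finset.range n) (G.map Fin.valEmbedding) ℓ) →
      (∃ k : ℕ, ∀ (n : ℕ) (G : SimpleGraph (Fin n)), 𝒢 n G →
          ∃ ℓ : ℕ → Fin k, ∀ P : Finset ℕ → SimpleGraph ℕ → (ℕ → Fin k) → Prop,
            ((∀ ℓ₀ : ℕ → Fin k, P ∅ ⊥ ℓ₀) ∧
             (∀ (i : ℕ) (ℓ₀ : ℕ → Fin k), P {i} ⊥ ℓ₀) ∧
             (∀ (S₁ S₂ : Finset ℕ) (H₁ H₂ : SimpleGraph ℕ) (ℓ₁ ℓ₂ : ℕ → Fin k),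
                P S₁ H₁ ℓ₁ → P S₂ H₂ ℓ₂ → Disjoint S₁ S₂ →
                P (S₁ ∪ S₂) (H₁ ⊔ H₂) (fun v => if v ∈ S₁ then ℓ₁ v else ℓ₂ v)) ∧
             (∀ (S : Finset ℕ) (H : SimpleGraph ℕ) (ℓ₀ : ℕ → Fin k) (a b : Fin k),
                a ≠ b → P S H ℓ₀ →
                P S (H ⊔ SimpleGraph.fromRel
                  (fun u v => u ∈ S ∧ v ∈ S ∧ ℓ₀ u = a ∧ ℓ₀ v = b)) ℓ₀) ∧
             (∀ (S : Finset ℕ) (H : SimpleGraph ℕ) (ℓ₀ : ℕ → Fin k) (a b : Fin k),
                P S H ℓ₀ → P S H (fun v => if ℓ₀ v = a then b else ℓ₀ v))) →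
            P (Finset.range n) (G.map Fin.valEmbedding) ℓ)) := by
  intro h
  obtain ⟨k, hk⟩ := h (fun n G => ∃ N D : ℕ, Nonempty (G ↪g Gam N D))
    (by
      rintro n m G H ⟨e⟩ ⟨N, D, ⟨f⟩⟩
      exact ⟨N, D, ⟨f.comp e⟩⟩)
    ⟨0, by
      rintro n G ⟨N, D, ⟨f⟩⟩ ⟨hn, -, h2⟩ ⟨-, hp⟩
      exact (no_good G f hn h2 hp).elim⟩
  classical
  let V := Vx (3 * (k + 1)) (2 * k + 1)
  let n := Fintype.card V
  let e : V ≃ Fin n := Fintype.equivFin V
  let G : SimpleGraph (Fin n) := (Gam _ _).comap e.symm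
  obtain ⟨l, hl⟩ := hk n G ⟨_, _, ⟨SimpleGraph.Embedding.comap e.symm.toEmbedding (Gam _ _)⟩⟩
  let f : V → ℕ := fun p => (e p).val
  have hf : Function.Injective f := Fin.val_injective.comp e.injective
  let W : Finset ℕ := Finset.univ.image (fun s => f (.x s))
  have hI := hl (Inv k (k + 1) W)
    ⟨fun l₀ => inv_small (by simp) (by simp),
     fun i l₀ => inv_small (by simp) (by
       have := Finset.card_le_card (Finset.inter_subset_left (s₁ := {i}) (s₂ := W))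
       simp only [Finset.card_singleton] at this
       omega),
     inv_union, fun S H l₀ a b _ hS => inv_join S H l₀ a b hS, inv_relabel⟩
  have hcard : ∀ U : Finset ℕ,
      (U ∩ W).card = (Finset.univ.filter (fun s => f (.x s) ∈ U)).card := by
    intro U
    have : U ∩ W = (Finset.univ.filter (fun s => f (.x s) ∈ U)).image (fun s => f (.x s)) := by
      ext z
      simp only [W, Finset.mem_inter, Finset.mem_image, Finset.mem_univ, true_and,
        Finset.mem_filter]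
      constructor
      · rintro ⟨hz, s, rfl⟩
        exact ⟨s, hz, rfl⟩
      · rintro ⟨s, hz, rfl⟩
        exact ⟨hz, s, rfl⟩
    rw [this, Finset.card_image_of_injective]
    intro s t hst
    have := hf hst
    cases this
    rfl
  obtain ⟨U, -, h1, h2, c, hc⟩ := hI.2 (by
    rw [hcard]
    have : (Finset.univ.filter (fun s : Fin (3 * (k + 1)) => f (.x s) ∈ Finset.range n))
        = Finset.univ := by
      apply Finset.filter_true_of_mem
      intro s _
      simp [f]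
    rw [this]
    simp only [Finset.card_univ, Fintype.card_fin]
    omega)
  rw [hcard] at h1 h2
  have hadj : ∀ p q : V, (G.map Fin.valEmbedding).Adj (f p) (f q) ↔ rel p q := by
    intro p q
    have : (G.map Fin.valEmbedding).Adj (Fin.valEmbedding (e p)) (Fin.valEmbedding (e q)) ↔
        G.Adj (e p) (e q) := SimpleGraph.map_adj_apply
    refine this.trans ?_
    simp [G, Gam]
  apply final (fun p => f p ∈ U) (fun p => c (f p)) ?_ (by convert h1) (by convert h2)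
  intro p p' hp hp' e' q hq
  rw [← hadj, ← hadj]
  exact (hc _ hp _ hp' e').2 _ hq

end Pool.Agent.S10880
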