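import Pool.Statements.S10936
import Pool.Agent.H10.BM2
-- import your own Pool.Agent.* helpers here

set_option autoImplicit false
open Pool Pool.MP_b4c394_co

namespace Pool.Agent.S10936

open Pool.Agent.H10.BM

def i1 (m : ℕ) : Bool := Nat.testBit 7521939906123686617226059147920054546470433427344658286401006352728063 m

def i2 (m : ℕ) : Bool := Nat.testBit 1767467251781410231454781173699183344574540844794231233007825855776292863 m

theorem h1 : chk 8 i1 = true := by decide +kernel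

theorem h2 : chk 8 i2 = true := by decide +kernel

def fn (l : List ℕ) (i : Fin 8) : Fin 8 := Fin.ofNat 8 (l.getD i 0)

def gn (l : List ℕ) (i : ℕ) : ℕ := l.getD i 0

theorem noiso : (allB 8 fun a0 => allB 8 fun a3 => Nat.beq a3 a0 ||
    allB 8 fun a4 => Nat.beq a4 a0 || Nat.beq a4 a3 ||
    allB 8 fun a5 => Nat.beq a5 a0 || Nat.beq a5 a3 || Nat.beq a5 a4 || i2 (2 ^ a0 ||| (2 ^ a3 ||| (2 ^ a4 ||| 2 ^ a5))) ||
    allB 8 fun a1 => Nat.beq a1 a0 || Nat.beq a1 a3 || Nat.beq a1 a4 || Nat.beq a1 a5 ||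
    allB 8 fun a6 => Nat.beq a6 a0 || Nat.beq a6 a3 || Nat.beq a6 a4 || Nat.beq a6 a5 || Nat.beq a6 a1 || i2 (2 ^ a0 ||| (2 ^ a1 ||| (2 ^ a4 ||| 2 ^ a6))) ||
    allB 8 fun a2 => Nat.beq a2 a0 || Nat.beq a2 a3 || Nat.beq a2 a4 || Nat.beq a2 a5 || Nat.beq a2 a1 || Nat.beq a2 a6 || i2 (2 ^ a0 ||| (2 ^ a2 ||| (2 ^ a5 ||| 2 ^ a6))) ||
    allB 8 fun a7 => Nat.beq a7 a0 || Nat.beq a7 a3 || Nat.beq a7 a4 || Nat.beq a7 a5 || Nat.beq a7 a1 || Nat.beq a7 a6 || Nat.beq a7 a2 || i2 (2 ^ a1 ||| (2 ^ a2 ||| (2 ^ a4 ||| 2 ^ a7))) || i2 (2 ^ a1 ||| (2 ^ a3 ||| (2 ^ a5 ||| 2 ^ a7))) || i2 (2 ^ a2 ||| (2 ^ a3 ||| (2 ^ a6 ||| 2 ^ a7))) || i2 (2 ^ a4 ||| (2 ^ a5 ||| (2 ^ a6 ||| 2 ^ a7)))) = true := by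
  decide +kernel

theorem dep4 (f : Fin 8 → Fin 8)
    (hf : ∀ I ⊆ (BM 8 i1 h1).E, ((BM 8 i1 h1).Indep I ↔ (BM 8 i2 h2).Indep (f '' I)))
    (i j k l : Fin 8) (h : i1 (2 ^ (i : ℕ) ||| (2 ^ (j : ℕ) ||| (2 ^ (k : ℕ) ||| 2 ^ (l : ℕ)))) = false) :
    i2 (2 ^ (f i : ℕ) ||| (2 ^ (f j : ℕ) ||| (2 ^ (f k : ℕ) ||| 2 ^ (f l : ℕ)))) = false := by
  have e : ∀ i j k l : Fin 8, S 8 (2 ^ (i : ℕ) ||| (2 ^ (j : ℕ) ||| (2 ^ (k : ℕ) ||| 2 ^ (l : ℕ)))) =
      {i, j, k, l} := by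
    intro i j k l
    rw [S_insert, S_insert, S_insert, S_two_pow]
  have lt : ∀ i j k l : Fin 8,
      (2 ^ (i : ℕ) ||| (2 ^ (j : ℕ) ||| (2 ^ (k : ℕ) ||| 2 ^ (l : ℕ)))) < 2 ^ 8 := fun i j k l =>
    or_lt (pow_lt _) (or_lt (pow_lt _) (or_lt (pow_lt _) (pow_lt _)))
  have := hf {i, j, k, l} (Set.subset_univ _)
  rw [Set.image_insert_eq, Set.image_insert_eq, Set.image_insert_eq, Set.image_singleton,
    ← e, ← e, BM_indep (lt _ _ _ _), BM_indep (lt _ _ _ _), h] at this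
  simpa using this

def P (e : Fin 8) : Prop :=
  (∃ f : Fin 8 → Fin 8, Set.BijOn f ((BM 8 i1 h1).delete {e}).E ((BM 8 i2 h2).delete {e}).E ∧
    ∀ I ⊆ ((BM 8 i1 h1).delete {e}).E,
      (((BM 8 i1 h1).delete {e}).Indep I ↔ ((BM 8 i2 h2).delete {e}).Indep (f '' I))) ∧
  (∃ f : Fin 8 → Fin 8, Set.BijOn f ((BM 8 i1 h1).contract {e}).E ((BM 8 i2 h2).contract {e}).E ∧
    ∀ I ⊆ ((BM 8 i1 h1).contract {e}).E,
      (((BM 8 i1 h1).contract {e}).Indep I ↔ ((BM 8 i2 h2).contract {e}).Indep (f '' I)))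

theorem p0 : P 0 :=
  ⟨⟨fn [0, 1, 2, 4, 3, 5, 6, 7], del_iso (h := h1) (h' := h2) (fn [0, 1, 2, 4, 3, 5, 6, 7]) (gn [0, 1, 2, 4, 3, 5, 6, 7])
      (by decide) (by decide) 0 (by decide) (by decide +kernel)⟩,
    ⟨fn [0, 1, 2, 3, 4, 5, 6, 7], con_iso (h := h1) (h' := h2) (fn [0, 1, 2, 3, 4, 5, 6, 7]) (gn [0, 1, 2, 3, 4, 5, 6, 7])
      (by decide) (by decide) 0 (by decide) (by decide +kernel) (by decide +kernel)
      (by decide +kernel)⟩⟩

theorem p1 : P 1 :=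
  ⟨⟨fn [0, 1, 2, 4, 3, 5, 6, 7], del_iso (h := h1) (h' := h2) (fn [0, 1, 2, 4, 3, 5, 6, 7]) (gn [0, 1, 2, 4, 3, 5, 6, 7])
      (by decide) (by decide) 1 (by decide) (by decide +kernel)⟩,
    ⟨fn [0, 1, 5, 2, 4, 3, 6, 7], con_iso (h := h1) (h' := h2) (fn [0, 1, 5, 2, 4, 3, 6, 7]) (gn [0, 1, 3, 5, 4, 2, 6, 7])
      (by decide) (by decide) 1 (by decide) (by decide +kernel) (by decide +kernel)
      (by decide +kernel)⟩⟩

theorem p2 : P 2 :=
  ⟨⟨fn [0, 6, 2, 3, 4, 5, 1, 7], del_iso (h := h1) (h' := h2) (fn [0, 6, 2, 3, 4, 5, 1, 7]) (gn [0, 6, 2, 3, 4, 5, 1, 7])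
      (by decide) (by decide) 2 (by decide) (by decide +kernel)⟩,
    ⟨fn [0, 1, 2, 4, 3, 5, 6, 7], con_iso (h := h1) (h' := h2) (fn [0, 1, 2, 4, 3, 5, 6, 7]) (gn [0, 1, 2, 4, 3, 5, 6, 7])
      (by decide) (by decide) 2 (by decide) (by decide +kernel) (by decide +kernel)
      (by decide +kernel)⟩⟩

theorem p3 : P 3 :=
  ⟨⟨fn [0, 1, 5, 3, 4, 2, 6, 7], del_iso (h := h1) (h' := h2) (fn [0, 1, 5, 3, 4, 2, 6, 7]) (gn [0, 1, 5, 3, 4, 2, 6, 7])
      (by decide) (by decide) 3 (by decide) (by decide +kernel)⟩,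
    ⟨fn [0, 6, 1, 3, 4, 5, 2, 7], con_iso (h := h1) (h' := h2) (fn [0, 6, 1, 3, 4, 5, 2, 7]) (gn [0, 2, 6, 3, 4, 5, 1, 7])
      (by decide) (by decide) 3 (by decide) (by decide +kernel) (by decide +kernel)
      (by decide +kernel)⟩⟩

theorem p4 : P 4 :=
  ⟨⟨fn [0, 1, 5, 3, 4, 2, 6, 7], del_iso (h := h1) (h' := h2) (fn [0, 1, 5, 3, 4, 2, 6, 7]) (gn [0, 1, 5, 3, 4, 2, 6, 7])
      (by decide) (by decide) 4 (by decide) (by decide +kernel)⟩,
    ⟨fn [0, 6, 2, 3, 4, 5, 1, 7], con_iso (h := h1) (h' := h2) (fn [0, 6, 2, 3, 4, 5, 1, 7]) (gn [0, 6, 2, 3, 4, 5, 1, 7])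
      (by decide) (by decide) 4 (by decide) (by decide +kernel) (by decide +kernel)
      (by decide +kernel)⟩⟩

theorem p5 : P 5 :=
  ⟨⟨fn [0, 4, 2, 3, 6, 5, 1, 7], del_iso (h := h1) (h' := h2) (fn [0, 4, 2, 3, 6, 5, 1, 7]) (gn [0, 6, 2, 3, 1, 5, 4, 7])
      (by decide) (by decide) 5 (by decide) (by decide +kernel)⟩,
    ⟨fn [0, 1, 2, 4, 3, 5, 6, 7], con_iso (h := h1) (h' := h2) (fn [0, 1, 2, 4, 3, 5, 6, 7]) (gn [0, 1, 2, 4, 3, 5, 6, 7])
      (by decide) (by decide) 5 (by decide) (by decide +kernel) (by decide +kernel)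
      (by decide +kernel)⟩⟩

theorem p6 : P 6 :=
  ⟨⟨fn [0, 1, 2, 4, 3, 5, 6, 7], del_iso (h := h1) (h' := h2) (fn [0, 1, 2, 4, 3, 5, 6, 7]) (gn [0, 1, 2, 4, 3, 5, 6, 7])
      (by decide) (by decide) 6 (by decide) (by decide +kernel)⟩,
    ⟨fn [0, 1, 5, 3, 4, 2, 6, 7], con_iso (h := h1) (h' := h2) (fn [0, 1, 5, 3, 4, 2, 6, 7]) (gn [0, 1, 5, 3, 4, 2, 6, 7])
      (by decide) (by decide) 6 (by decide) (by decide +kernel) (by decide +kernel)
      (by decide +kernel)⟩⟩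

theorem p7 : P 7 :=
  ⟨⟨fn [0, 1, 2, 3, 4, 5, 6, 7], del_iso (h := h1) (h' := h2) (fn [0, 1, 2, 3, 4, 5, 6, 7]) (gn [0, 1, 2, 3, 4, 5, 6, 7])
      (by decide) (by decide) 7 (by decide) (by decide +kernel)⟩,
    ⟨fn [0, 1, 2, 4, 3, 5, 6, 7], con_iso (h := h1) (h' := h2) (fn [0, 1, 2, 4, 3, 5, 6, 7]) (gn [0, 1, 2, 4, 3, 5, 6, 7])
      (by decide) (by decide) 7 (by decide) (by decide +kernel) (by decide +kernel)
      (by decide +kernel)⟩⟩

theorem pall (e : Fin 8) : P e := by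
  have : ∀ e : Fin 8, e = 0 ∨ e = 1 ∨ e = 2 ∨ e = 3 ∨ e = 4 ∨ e = 5 ∨ e = 6 ∨ e = 7 := by decide
  rcases this e with rfl | rfl | rfl | rfl | rfl | rfl | rfl | rfl
  exacts [p0, p1, p2, p3, p4, p5, p6, p7]

/-- The negation of the preceding statement: Every finite matroid M with at least two elements is minor reconstructible: any matroid N on the same ground set with N\e isomorphic to M\e and N/e isomorphic to M/e for every element e is isomorphic to M. -/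
theorem result :
    ¬ (∀ (α : Type) (M N : Matroid α), M.Finite → N.E = M.E → 2 ≤ M.E.ncard →
      (∀ e ∈ M.E,
        (∃ f : α → α, Set.BijOn f (M.delete {e}).E (N.delete {e}).E ∧
          ∀ I ⊆ (M.delete {e}).E, ((M.delete {e}).Indep I ↔ (N.delete {e}).Indep (f '' I))) ∧
        (∃ f : α → α, Set.BijOn f (M.contract {e}).E (N.contract {e}).E ∧
          ∀ I ⊆ (M.contract {e}).E, ((M.contract {e}).Indep I ↔ (N.contract {e}).Indep (f '' I)))) →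
      ∃ f : α → α, Set.BijOn f M.E N.E ∧ ∀ I ⊆ M.E, (M.Indep I ↔ N.Indep (f '' I))) := by
  intro H
  obtain ⟨f, hb, hf⟩ := H (Fin 8) (BM 8 i1 h1) (BM 8 i2 h2) ⟨Set.toFinite _⟩ (BM_E.trans BM_E.symm)
    (by rw [BM_E, Set.ncard_univ]; simp) (fun e _ => pall e)
  have hinj : Function.Injective f := Set.injOn_univ.1 hb.injOn
  have ne : ∀ i j : Fin 8, i ≠ j → Nat.beq (f i) (f j) = false := fun i j hij => by
    rw [← Bool.not_eq_true, Nat.beq_eq]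
    exact fun k => hij (hinj (Fin.ext k))
  have d0 := dep4 f hf 0 3 4 5 (by decide +kernel)
  have d1 := dep4 f hf 0 1 4 6 (by decide +kernel)
  have d2 := dep4 f hf 0 2 5 6 (by decide +kernel)
  have d3 := dep4 f hf 1 2 4 7 (by decide +kernel)
  have d4 := dep4 f hf 1 3 5 7 (by decide +kernel)
  have d5 := dep4 f hf 2 3 6 7 (by decide +kernel)
  have d6 := dep4 f hf 4 5 6 7 (by decide +kernel)
  have k := noiso
  simp only [allB_iff, Bool.or_eq_true] at k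
  replace k := k (f 0) (f 0).2
  replace k := k (f 3) (f 3).2
  rw [ne 3 0 (by decide)] at k
  simp only [Bool.false_eq_true, false_or, or_self] at k
  replace k := k (f 4) (f 4).2
  rw [ne 4 0 (by decide), ne 4 3 (by decide)] at k
  simp only [Bool.false_eq_true, false_or, or_self] at k
  replace k := k (f 5) (f 5).2
  rw [ne 5 0 (by decide), ne 5 3 (by decide), ne 5 4 (by decide), d0] at k
  simp only [Bool.false_eq_true, false_or, or_self] at k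
  replace k := k (f 1) (f 1).2
  rw [ne 1 0 (by decide), ne 1 3 (by decide), ne 1 4 (by decide), ne 1 5 (by decide)] at k
  simp only [Bool.false_eq_true, false_or, or_self] at k
  replace k := k (f 6) (f 6).2
  rw [ne 6 0 (by decide), ne 6 3 (by decide), ne 6 4 (by decide), ne 6 5 (by decide), ne 6 1 (by decide), d1] at k
  simp only [Bool.false_eq_true, false_or, or_self] at k
  replace k := k (f 2) (f 2).2
  rw [ne 2 0 (by decide), ne 2 3 (by decide), ne 2 4 (by decide), ne 2 5 (by decide), ne 2 1 (by decide), ne 2 6 (by decide), d2] at k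
  simp only [Bool.false_eq_true, false_or, or_self] at k
  replace k := k (f 7) (f 7).2
  rw [ne 7 0 (by decide), ne 7 3 (by decide), ne 7 4 (by decide), ne 7 5 (by decide), ne 7 1 (by decide), ne 7 6 (by decide), ne 7 2 (by decide), d3, d4, d5, d6] at k
  simp only [Bool.false_eq_true, false_or, or_self] at k

end Pool.Agent.S10936
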