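import Pool.Statements.S10980
import Pool.Agent.H10.VWC

set_option autoImplicit false
open Pool Pool.MP_b6d645_co

namespace Pool.Agent.S10980

open Pool.Agent.H10.VWC in
theorem transfer {V : Type} {n : ℕ} (e : Fin n ≃ V) (H : SimpleGraph V) (s : Finset (Fin n)) :
    (H.comap e).IsIndepSet (s : Set (Fin n)) ↔
      H.IsIndepSet ((s.map e.toEmbedding : Finset V) : Set V) := by
  rw [indep_iff, indep_iff]
  constructor
  · intro h a ha b hb hab
    simp only [Finset.coe_map, Set.mem_image, Equiv.coe_toEmbedding] at ha hb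
    obtain ⟨a, ha, rfl⟩ := ha
    obtain ⟨b, hb, rfl⟩ := hb
    exact h a ha b hb hab
  · intro h a ha b hb hab
    exact h (e a) (by simpa using ha) (e b) (by simpa using hb) hab

theorem transfer_count {V : Type} {n : ℕ} (e : Fin n ≃ V) (H : SimpleGraph V) (k : ℕ) :
    {s : Finset (Fin n) | (H.comap e).IsIndepSet (s : Set (Fin n)) ∧ s.card = k}.ncard =
      {s : Finset V | H.IsIndepSet (s : Set V) ∧ s.card = k}.ncard := by
  refine Set.ncard_congr (fun s _ => s.map e.toEmbedding) ?_ ?_ ?_
  · intro s hs
    exact ⟨(transfer e H s).1 hs.1, by rw [Finset.card_map]; exact hs.2⟩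
  · intro a b _ _ h
    exact Finset.map_injective _ h
  · intro t ht
    have h1 : (t.map e.symm.toEmbedding).map e.toEmbedding = t := by
      ext x; simp
    refine ⟨t.map e.symm.toEmbedding, ⟨?_, ?_⟩, h1⟩
    · rw [transfer, h1]; exact ht.1
    · rw [Finset.card_map]; exact ht.2

set_option linter.constructorNameAsVariable false in
/-- The negation of the preceding statement: Take any graph on n vertices with no isolated vertex in which every maximal independent set has exactly n/2 vertices. Then the counts of independent sets of size k, for k = 0, 1, 2, ..., first weakly increase and then weakly decrease. -/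
theorem result :
    ¬ (∀ (n : ℕ) (G : SimpleGraph (Fin n)),
      (∀ v : Fin n, ∃ w : Fin n, G.Adj v w) →
      (∀ s : Finset (Fin n),
        Maximal (fun t : Finset (Fin n) => G.IsIndepSet (t : Set (Fin n))) s →
          2 * s.card = n) →
      ∃ m : ℕ,
        (∀ i : ℕ, i < m →
          {s : Finset (Fin n) | G.IsIndepSet (s : Set (Fin n)) ∧ s.card = i}.ncard ≤
          {s : Finset (Fin n) | G.IsIndepSet (s : Set (Fin n)) ∧ s.card = i + 1}.ncard) ∧
        (∀ i : ℕ, m ≤ i →
          {s : Finset (Fin n) | G.IsIndepSet (s : Set (Fin n)) ∧ s.card = i + 1}.ncard ≤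
          {s : Finset (Fin n) | G.IsIndepSet (s : Set (Fin n)) ∧ s.card = i}.ncard)) := by
  intro h
  classical
  obtain ⟨e⟩ : Nonempty (Fin 4476 ≃ Pool.Agent.H10.VWC.W0 ⊕ Pool.Agent.H10.VWC.W0) :=
    ⟨(Fintype.equivFinOfCardEq (by simp)).symm⟩
  have hmax := Pool.Agent.H10.VWC.corona_max
    (Pool.Agent.H10.VWC.base (Fin 600) (Fin 117) (Fin 14))
  have h0 := h 4476 (Pool.Agent.H10.VWC.GG.comap e) ?_ ?_
  · obtain ⟨m, h1, h2⟩ := h0
    have h3 := Pool.Agent.H10.VWC.cf1
    have h4 := Pool.Agent.H10.VWC.cf2
    by_cases hm : 1197 < m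
    · have := h1 1197 hm
      rw [transfer_count, transfer_count, Pool.Agent.H10.VWC.GG_count,
        Pool.Agent.H10.VWC.GG_count] at this
      exact absurd h3 (not_lt.2 this)
    · have := h2 1198 (by omega)
      rw [transfer_count, transfer_count, Pool.Agent.H10.VWC.GG_count,
        Pool.Agent.H10.VWC.GG_count] at this
      exact absurd h4 (not_lt.2 this)
  · intro v
    obtain ⟨w, hw⟩ := Pool.Agent.H10.VWC.corona_noiso
      (Pool.Agent.H10.VWC.base (Fin 600) (Fin 117) (Fin 14)) (e v)
    refine ⟨e.symm w, ?_⟩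
    simpa [Pool.Agent.H10.VWC.GG] using hw
  · intro s hs
    have h5 := hmax (s.map e.toEmbedding) ((transfer e _ s).1 hs.1) ?_
    · rw [Finset.card_map] at h5
      rw [h5]
      simp
    · intro v hv hi
      have h6 : (Pool.Agent.H10.VWC.GG.comap e).IsIndepSet
          ((insert (e.symm v) s : Finset (Fin 4476)) : Set (Fin 4476)) := by
        rw [transfer, Finset.map_insert, Finset.coe_insert]
        simpa [Pool.Agent.H10.VWC.GG] using hi
      have h7 := hs.2 h6 (Finset.subset_insert _ _) (Finset.mem_insert_self _ _)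
      exact hv (by simpa using h7)

end Pool.Agent.S10980
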