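import Pool.Statements.S11060
import Pool.Agent.H10.SCC
-- import your own Pool.Agent.* helpers here

set_option autoImplicit false
open Classical
open Pool Pool.MP_ba3dea_co

namespace Pool.Agent.S11060

/-- The negation of the preceding statement: Every finite 3-vertex-connected simple graph has a cycle cover of minimum total length in which each edge lies in at most two of the cycles. -/
theorem result :
    ¬ (∀ (V : Type) [Fintype V] (G : SimpleGraph V),
      (3 < Fintype.card V ∧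
        ∀ S : Finset V, S.card < 3 → (G.induce ((↑S : Set V)ᶜ)).Connected) →
      ∃ F : List (Σ u : V, G.Walk u u),
        ((∀ c ∈ F, c.2.IsCycle) ∧
          ∀ e ∈ G.edgeSet, ∃ c ∈ F, e ∈ c.2.edges) ∧
        (∀ F' : List (Σ u : V, G.Walk u u),
          ((∀ c ∈ F', c.2.IsCycle) ∧
            ∀ e ∈ G.edgeSet, ∃ c ∈ F', e ∈ c.2.edges) →
          (F.map (fun c => c.2.length)).sum ≤ (F'.map (fun c => c.2.length)).sum) ∧
        ∀ e ∈ G.edgeSet, F.countP (fun c => decide (e ∈ c.2.edges)) ≤ 2) := by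
  intro h
  obtain ⟨F, ⟨h1, h2⟩, h3, h4⟩ := h (Fin 60) Pool.Agent.H10.SCC.G
    ⟨by simp, Pool.Agent.H10.SCC.conn⟩
  have h5 := h3 Pool.Agent.H10.SCC.F0 ⟨Pool.Agent.H10.SCC.F0_cyc, Pool.Agent.H10.SCC.F0_cov⟩
  rw [Pool.Agent.H10.SCC.F0_len] at h5
  have key : ∀ (x y : Fin 60) (F : List (Σ u : Fin 60, Pool.Agent.H10.SCC.G.Walk u u)),
      (∀ c ∈ F, c.2.IsCycle) → ∀ p : (Σ u : Fin 60, Pool.Agent.H10.SCC.G.Walk u u) → Bool,
      (∀ c, p c = true ↔ s(x, y) ∈ c.2.edges) → Pool.Agent.H10.SCC.mu F x y = F.countP p := by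
    intro x y F
    induction F with
    | nil => intro _ _ _; rfl
    | cons c F ih =>
      intro hF p hp
      have i := ih (fun d hd => hF d (List.mem_cons_of_mem _ hd)) p hp
      have hc := (hF c List.mem_cons_self).edges_nodup
      unfold Pool.Agent.H10.SCC.mu at i ⊢
      rw [List.map_cons, List.sum_cons, i, List.countP_cons]
      by_cases hm : s(x, y) ∈ c.2.edges
      · rw [List.count_eq_one_of_mem hc hm, if_pos ((hp c).2 hm)]; omega
      · rw [List.count_eq_zero.2 hm, if_neg (fun h' => hm ((hp c).1 h'))]; omega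
  refine absurd (Pool.Agent.H10.SCC.lower F h1 ?_) (by omega)
  intro x y hxy
  have h6 := h4 s(x, y) hxy
  rw [← key x y F h1 _ (fun c => by simp)] at h6
  refine ⟨?_, h6⟩
  rw [key x y F h1 (fun c => decide (s(x, y) ∈ c.2.edges)) (fun c => decide_eq_true_iff)]
  obtain ⟨c, hc, hm⟩ := h2 s(x, y) hxy
  exact List.countP_pos_iff.2 ⟨c, hc, decide_eq_true hm⟩

end Pool.Agent.S11060
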