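import Pool.Statements.S11082
import Pool.Agent.H12.MG3

set_option autoImplicit false
open Pool Pool.MP_bb01b3_co

namespace Pool.Agent.S11082

/-- The negation of the preceding statement: For every graph H with chromatic number p+1, p≥2, whose decomposition family contains a matching: there is C so that for all large n, some H-extremal n-vertex graph is a join of a B(H)-extremal graph on γ−1 vertices with a graph within C edges of T_p(n−γ+1). -/
theorem result :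
    ¬ (∀ (h p : ℕ) (H : SimpleGraph (Fin h)), H.chromaticNumber = ((p + 1 : ℕ) : ℕ∞) → 2 ≤ p →
  ∀ Dec : (m : ℕ) → SimpleGraph (Fin m) → Prop,
    (∀ (m : ℕ) (M : SimpleGraph (Fin m)), Dec m M ↔ ∃ t : ℕ, H.IsContained
      (SimpleGraph.fromRel (fun x y : Fin m ⊕ (Fin p × Fin t) =>
        Sum.elim (fun a => Sum.elim (fun b => M.Adj a b) (fun q => q.1.val ≠ 0) y)
          (fun q => Sum.elim (fun _ => q.1.val ≠ 0) (fun q' => q.1 ≠ q'.1) y) x))) →
  ∀ Mem : (m : ℕ) → SimpleGraph (Fin m) → Prop,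
    (∀ (m : ℕ) (M : SimpleGraph (Fin m)), Mem m M ↔ (Dec m M ∧
      ∀ (m' : ℕ) (M' : SimpleGraph (Fin m')), M'.IsContained M → Dec m' M' → M.IsContained M')) →
  (∃ (m : ℕ) (M : SimpleGraph (Fin m)), Mem m M ∧ ∀ v, ∃! w, M.Adj v w) →
  ∀ γ β : ℕ,
    IsLeast {k : ℕ | ∃ (m : ℕ) (M : SimpleGraph (Fin m)) (S : Finset (Fin m)), Mem m M ∧
      (∀ a b, M.Adj a b → a ∈ S ∨ b ∈ S) ∧ (∀ a ∈ S, ∀ b ∈ S, ¬ M.Adj a b) ∧ S.card = k} γ →
    IsLeast {k : ℕ | ∃ (m : ℕ) (M : SimpleGraph (Fin m)) (S : Finset (Fin m)), Mem m M ∧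
      (∀ a b, M.Adj a b → a ∈ S ∨ b ∈ S) ∧ S.card = k} β →
  ∀ BF : SimpleGraph (Fin (γ - 1)) → Prop,
    (∀ G : SimpleGraph (Fin (γ - 1)), BF G ↔
      ((β = γ → ¬ (⊤ : SimpleGraph (Fin γ)).IsContained G) ∧
       (β ≠ γ → ∀ (m : ℕ) (M : SimpleGraph (Fin m)) (S : Finset (Fin m)), Mem m M →
          (∀ a b, M.Adj a b → a ∈ S ∨ b ∈ S) → S.card < γ →
          ¬ (M.induce (S : Set (Fin m))).IsContained G))) →
  ∃ C N : ℕ, ∀ n ≥ N, ∃ (H1 : SimpleGraph (Fin (γ - 1))) (H2 : SimpleGraph (Fin (n - γ + 1))),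
    BF H1 ∧ (∀ G : SimpleGraph (Fin (γ - 1)), BF G → G.edgeSet.ncard ≤ H1.edgeSet.ncard) ∧
    (symmDiff H2.edgeSet (SimpleGraph.turanGraph (n - γ + 1) p).edgeSet).ncard ≤ C ∧
    ¬ H.IsContained (SimpleGraph.fromRel (fun x y : Fin (γ - 1) ⊕ Fin (n - γ + 1) =>
        Sum.elim (fun a => Sum.elim (fun b => H1.Adj a b) (fun _ => True) y)
          (fun a => Sum.elim (fun _ => True) (fun b => H2.Adj a b) y) x)) ∧
    ∀ G : SimpleGraph (Fin n), ¬ H.IsContained G → G.edgeSet.ncard ≤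
      (SimpleGraph.fromRel (fun x y : Fin (γ - 1) ⊕ Fin (n - γ + 1) =>
        Sum.elim (fun a => Sum.elim (fun b => H1.Adj a b) (fun _ => True) y)
          (fun a => Sum.elim (fun _ => True) (fun b => H2.Adj a b) y) x)).edgeSet.ncard) := by
  intro hall
  obtain ⟨C, N, hCN⟩ := hall 25 2 Pool.Agent.H12.MG.H Pool.Agent.H12.MG.chrom le_rfl
    Pool.Agent.H12.MG.Dec (fun _ _ => Iff.rfl) Pool.Agent.H12.MG.Mem (fun _ _ => Iff.rfl)
    Pool.Agent.H12.MG.has_matching 3 3 Pool.Agent.H12.MG.gamma_three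
    Pool.Agent.H12.MG.beta_three _ (fun _ => Iff.rfl)
  obtain ⟨H1, H2, -, hmx, hD, hfree, hmax⟩ := hCN (N + 52 * (2 * C + 1) + 3) (by omega)
  refine Pool.Agent.H12.MG.main C _ (by omega) H1 H2 ?_ hD hfree hmax
  have h := hmx ⊤ ⟨fun _ hc => ?_, fun hne => absurd rfl hne⟩
  · refine le_trans ?_ h
    have hne : (⊤ : SimpleGraph (Fin (3 - 1))).edgeSet.Nonempty :=
      ⟨s((0 : Fin 2), (1 : Fin 2)), by
        rw [SimpleGraph.mem_edgeSet, SimpleGraph.top_adj]; decide⟩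
    exact (Set.ncard_pos (Set.toFinite _)).mpr hne
  · obtain ⟨φ⟩ := hc
    have := (Pool.Agent.H12.MG.copy_le φ).1
    omega

end Pool.Agent.S11082
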