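import Pool.Statements.S11179
import Pool.Agent.H12.Irr6

set_option autoImplicit false
open Pool Pool.MP_bf8eef_co

namespace Pool.Agent.S11179

/-- For every connected graph F with at least 3 vertices there is a finite graph G with at least 2 vertices in which no two vertices lie in the same number of subgraphs isomorphic to F. -/
theorem result :
    ∀ (n : ℕ) (F : SimpleGraph (Fin n)), 3 ≤ n → F.Connected →
      ∃ (m : ℕ) (G : SimpleGraph (Fin m)), 2 ≤ m ∧
        Function.Injective
          (fun v : Fin m =>
            {H : G.Subgraph | Nonempty (H.coe ≃g F) ∧ v ∈ H.verts}.ncard) := by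
  intro n F hn hF
  by_cases h : F = ⊤
  · subst h
    obtain ⟨k, rfl⟩ : ∃ k, n = k + 1 + 2 := ⟨n - 3, by omega⟩
    refine Pool.Agent.H12.Irr.reduce _ _ ?_ (Pool.Agent.H12.Irr.complete_case k)
    simp
  · obtain ⟨d, m, hm, hD⟩ := Pool.Agent.H12.Irr.noncomplete_case F hF h
    refine Pool.Agent.H12.Irr.reduce _ _ ?_ hD
    rw [Pool.Agent.H12.Irr.card_W]
    omega

end Pool.Agent.S11179
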