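import Pool.Statements.S11222

set_option autoImplicit false
open Pool Pool.MP_c11f96_co

namespace Pool.Agent.S11222

open Finset

lemma chain {V : Type} [DecidableEq V] (T : V → V → Prop)
    (htot : ∀ x y, x ≠ y → T x y ∨ T y x) :
    ∀ k : ℕ, ∀ S : Finset V, 2 ^ k ≤ S.card →
      ∃ l : List V, l.length = k + 1 ∧ l.Pairwise T ∧ ∀ x ∈ l, x ∈ S := by
  classical
  intro k
  induction k with
  | zero =>
    intro S hS
    obtain ⟨v, hv⟩ := card_pos.mp (lt_of_lt_of_le (by norm_num) hS)
    exact ⟨[v], rfl, List.pairwise_singleton _ _, by simpa using hv⟩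
  | succ k ih =>
    intro S hS
    obtain ⟨v, hv⟩ := card_pos.mp (lt_of_lt_of_le (by positivity) hS)
    have h1 := card_filter_add_card_filter_not (s := S.erase v) (fun x => T v x)
    rw [card_erase_of_mem hv] at h1
    have h2 : 2 ^ (k + 1) = 2 * 2 ^ k := by ring
    by_cases hc : 2 ^ k ≤ ((S.erase v).filter (fun x => T v x)).card
    · obtain ⟨l, hl, hp, hm⟩ := ih _ hc
      refine ⟨v :: l, by simp [hl], List.pairwise_cons.mpr ⟨fun x hx => (mem_filter.mp (hm x hx)).2, hp⟩, ?_⟩
      intro x hx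
      rcases List.mem_cons.mp hx with rfl | hx
      · exact hv
      · exact mem_of_mem_erase (mem_filter.mp (hm x hx)).1
    · obtain ⟨l, hl, hp, hm⟩ := ih ((S.erase v).filter (fun x => ¬ T v x)) (by omega)
      refine ⟨l ++ [v], by simp [hl], ?_, ?_⟩
      · rw [List.pairwise_append]
        refine ⟨hp, List.pairwise_singleton _ _, ?_⟩
        intro x hx y hy
        rw [List.mem_singleton] at hy
        subst hy
        have hx' := mem_filter.mp (hm x hx)
        rcases htot x y (ne_of_mem_erase hx'.1) with h | h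
        · exact h
        · exact absurd h hx'.2
      · intro x hx
        rcases List.mem_append.mp hx with hx | hx
        · exact mem_of_mem_erase (mem_filter.mp (hm x hx)).1
        · rw [List.mem_singleton] at hx
          exact hx ▸ hv

def Q (x y : Fin 7) : Prop := y - x = 1 ∨ y - x = 2 ∨ y - x = 4

instance : DecidableRel Q := fun x y => by unfold Q; infer_instance

lemma reg4 : IsGreatest {m : ℕ | ∃ T : Fin m → Fin m → Prop,
          (∀ x, ¬ T x x) ∧
          (∀ x y, x ≠ y → (T x y ↔ ¬ T y x)) ∧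
          (∀ v, Set.ncard {w | T v w} = Set.ncard {w | T w v}) ∧
          ¬ ∃ f : Fin 4 → Fin m, Function.Injective f ∧
              ∀ i j : Fin 4, i < j → T (f i) (f j)} 7 := by
  constructor
  · refine ⟨Q, by decide, by decide, ?_, ?_⟩
    · intro v
      have h1 : {w | Q v w} = ↑(univ.filter (fun w => Q v w)) := by ext; simp
      have h2 : {w | Q w v} = ↑(univ.filter (fun w => Q w v)) := by ext; simp
      rw [h1, h2, Set.ncard_coe_finset, Set.ncard_coe_finset]
      clear h1 h2
      revert v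
      decide
    · rintro ⟨f, -, hf⟩
      have key : ∀ a b c d : Fin 7, ¬ (Q a b ∧ Q a c ∧ Q a d ∧ Q b c ∧ Q b d ∧ Q c d) := by
        decide +kernel
      exact key (f 0) (f 1) (f 2) (f 3) ⟨hf _ _ (by decide), hf _ _ (by decide), hf _ _ (by decide),
        hf _ _ (by decide), hf _ _ (by decide), hf _ _ (by decide)⟩
  · rintro m ⟨T, hirr, htot, -, hno⟩
    by_contra hm
    apply hno
    obtain ⟨l, hl, hp, -⟩ := chain T (fun x y hxy => by
      by_cases h : T y x
      · exact Or.inr h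
      · exact Or.inl ((htot x y hxy).mpr h)) 3 univ (by simp; omega)
    have hT : ∀ i j : Fin 4, i < j →
        T (l.get ⟨i.val, by omega⟩) (l.get ⟨j.val, by omega⟩) := by
      intro i j hij
      exact List.pairwise_iff_get.mp hp ⟨i.val, by omega⟩ ⟨j.val, by omega⟩ hij
    refine ⟨fun i => l.get ⟨i.val, by omega⟩, ?_, hT⟩
    intro i j hij
    by_contra hne
    rcases lt_or_gt_of_ne hne with h | h
    · have := hT i j h
      simp only at hij
      rw [hij] at this
      exact hirr _ this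
    · have := hT j i h
      simp only at hij
      rw [hij] at this
      exact hirr _ this

/-- types: 0 = the filled part, 1..6 = independent parts, 7 = the rest. -/
def T8 (x y : Fin 8) : Bool :=
  if x.val = 7 then (y.val = 3 || y.val = 5 || y.val = 6)
  else if y.val = 7 then (x.val = 1 || x.val = 2 || x.val = 4)
  else ((y.val + 7 - x.val) % 7 = 1 || (y.val + 7 - x.val) % 7 = 2 || (y.val + 7 - x.val) % 7 = 4)

def wt (x : Fin 8) : ℕ := if x.val = 7 then 2 else if x.val = 0 then 1 else 0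

def aty (j : Fin 6) : Fin 8 := ⟨j.val + 1, by omega⟩

abbrev V (t : ℕ) := Fin (28 * t + 1 + 1) ⊕ (Fin 6 × Fin (8 * t + 1))

def wty {t : ℕ} (u : Fin (28 * t + 1 + 1)) : Fin 8 := if u.val < 18 * t + 2 then 0 else 7

def ty {t : ℕ} : V t → Fin 8
  | Sum.inl u => wty u
  | Sum.inr p => aty p.1

def cyc {t : ℕ} (u v : Fin (28 * t + 1 + 1)) : Prop := 1 ≤ (v - u).val ∧ (v - u).val ≤ 14 * t

instance {t : ℕ} : DecidableRel (cyc (t := t)) := fun x y => by unfold cyc; infer_instance

def H {t : ℕ} : V t → V t → Prop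
  | Sum.inl u, Sum.inl v => cyc u v
  | Sum.inl u, Sum.inr q => T8 (wty u) (aty q.1) = true
  | Sum.inr p, Sum.inl v => T8 (aty p.1) (wty v) = true
  | Sum.inr p, Sum.inr q => T8 (aty p.1) (aty q.1) = true

instance {t : ℕ} : DecidableRel (H (t := t)) := fun x y => by
  cases x <;> cases y <;> unfold H <;> infer_instance

lemma T8_asymm : ∀ x y : Fin 8, T8 x y = true → ¬ T8 y x = true := by decide

lemma H_asymm {t : ℕ} (x y : V t) (h : H x y) : ¬ H y x := by
  cases x <;> cases y
  · rename_i u v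
    intro h'
    simp only [H, cyc] at h h'
    have e : u - v = -(v - u) := by abel
    rw [e, Fin.val_neg'] at h'
    have hlt := (v - u).isLt
    rw [Nat.mod_eq_of_lt (by omega)] at h'
    omega
  all_goals exact T8_asymm _ _ h

lemma wty_cases {t : ℕ} (u : Fin (28 * t + 1 + 1)) : wty u = 0 ∨ wty u = 7 := by
  unfold wty; split_ifs <;> simp

lemma H_rel {t : ℕ} (x y : V t) (h : H x y) :
    T8 (ty x) (ty y) = true ∨ (1 ≤ wt (ty x) ∧ 1 ≤ wt (ty y)) := by
  cases x <;> cases y
  · rename_i u v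
    right
    simp only [ty]
    rcases wty_cases u with h1 | h1 <;> rcases wty_cases v with h2 | h2 <;>
      rw [h1, h2] <;> decide
  all_goals exact Or.inl h

def rel (a b : Fin 8) : Prop := T8 a b = true ∨ (1 ≤ wt a ∧ 1 ≤ wt b)

instance : DecidableRel rel := fun x y => by unfold rel; infer_instance

lemma block : ∀ a b c d : Fin 8, rel a b → rel a c → rel a d → rel b c → rel b d → rel c d →
    2 ≤ wt a + wt b + wt c + wt d := by decide +kernel

lemma sumW {t : ℕ} (φ : Fin 8 → ℕ) :
    ∑ u : Fin (28 * t + 1 + 1), φ (wty u) = (18 * t + 2) * φ 0 + (10 * t) * φ 7 := by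
  have h1 : (univ.filter (fun u : Fin (28 * t + 1 + 1) => u.val < 18 * t + 2)).card = 18 * t + 2 := by
    rw [Fin.card_filter_val_lt]; omega
  have h2 := card_filter_add_card_filter_not (s := (univ : Finset (Fin (28 * t + 1 + 1))))
    (fun u => u.val < 18 * t + 2)
  rw [h1, card_univ, Fintype.card_fin] at h2
  have h3 : (univ.filter (fun u : Fin (28 * t + 1 + 1) => ¬ u.val < 18 * t + 2)).card = 10 * t := by
    omega
  simp only [wty, apply_ite φ]
  rw [sum_ite, sum_const, sum_const, h1, h3]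
  simp

lemma sumA {t : ℕ} (φ : Fin 8 → ℕ) :
    ∑ p : Fin 6 × Fin (8 * t + 1), φ (aty p.1) = (8 * t + 1) * ∑ j : Fin 6, φ (aty j) := by
  rw [Fintype.sum_prod_type, mul_sum]
  simp

lemma cyc_card {t : ℕ} : (univ.filter (fun x : Fin (28 * t + 1 + 1) =>
    1 ≤ x.val ∧ x.val ≤ 14 * t)).card = 14 * t := by
  have h1 : (univ.filter (fun u : Fin (28 * t + 1 + 1) => u.val < 14 * t + 1)).card = 14 * t + 1 := by
    rw [Fin.card_filter_val_lt]; omega
  have h2 : (univ.filter (fun x : Fin (28 * t + 1 + 1) => 1 ≤ x.val ∧ x.val ≤ 14 * t)) =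
      (univ.filter (fun u : Fin (28 * t + 1 + 1) => u.val < 14 * t + 1)).erase 0 := by
    ext x
    simp only [mem_filter, mem_univ, true_and, mem_erase, ne_eq, Fin.ext_iff, Fin.val_zero]
    omega
  rw [h2, card_erase_of_mem (by simp), h1]
  simp

lemma out_deg {t : ℕ} (x : V t) : 34 * t + 3 ≤ (univ.filter (fun y => H x y)).card := by
  rw [card_filter, Fintype.sum_sum_type]
  cases x with
  | inl u =>
    have h1 : ∑ v : Fin (28 * t + 1 + 1), (if H (Sum.inl u : V t) (Sum.inl v) then 1 else 0) = 14 * t := by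
      rw [← card_filter, ← cyc_card (t := t)]
      apply card_equiv (Equiv.subRight u)
      intro v
      rw [mem_filter, mem_filter]
      simp [H, cyc]
    have h2 := sumA (t := t) (fun j => if T8 (wty u) j = true then 1 else 0)
    have h3 : ∑ j : Fin 6, (if T8 (wty u) (aty j) = true then 1 else 0) = 3 := by
      rcases wty_cases u with h | h <;> rw [h] <;> decide
    rw [h3] at h2
    have h4 : ∑ p : Fin 6 × Fin (8 * t + 1), (if H (Sum.inl u : V t) (Sum.inr p) then 1 else 0) =
      (8 * t + 1) * 3 := h2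
    rw [h1, h4]; omega
  | inr p =>
    have h1 := sumW (t := t) (fun j => if T8 (aty p.1) j = true then 1 else 0)
    have h2 := sumA (t := t) (fun j => if T8 (aty p.1) j = true then 1 else 0)
    have h1' : ∑ v : Fin (28 * t + 1 + 1), (if H (Sum.inr p : V t) (Sum.inl v) then 1 else 0) = _ := h1
    have h2' : ∑ q : Fin 6 × Fin (8 * t + 1), (if H (Sum.inr p : V t) (Sum.inr q) then 1 else 0) = _ := h2
    rw [h1', h2']
    have key : ∀ j : Fin 6,
        ((if T8 (aty j) 0 = true then 1 else 0) = 1 ∧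
          ∑ i : Fin 6, (if T8 (aty j) (aty i) = true then 1 else 0) = 2) ∨
        ((if T8 (aty j) 7 = true then 1 else 0) = 1 ∧
          ∑ i : Fin 6, (if T8 (aty j) (aty i) = true then 1 else 0) = 3) := by decide
    rcases key p.1 with ⟨h3, h4⟩ | ⟨h3, h4⟩ <;> rw [h3, h4] <;> omega

lemma in_deg {t : ℕ} (x : V t) : 34 * t + 3 ≤ (univ.filter (fun y => H y x)).card := by
  rw [card_filter, Fintype.sum_sum_type]
  cases x with
  | inl u =>
    have h1 : ∑ v : Fin (28 * t + 1 + 1), (if H (Sum.inl v : V t) (Sum.inl u) then 1 else 0) = 14 * t := by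
      rw [← card_filter, ← cyc_card (t := t)]
      apply card_equiv (Equiv.subLeft u)
      intro v
      rw [mem_filter, mem_filter]
      simp [H, cyc]
    have h2 := sumA (t := t) (fun j => if T8 j (wty u) = true then 1 else 0)
    have h3 : ∑ j : Fin 6, (if T8 (aty j) (wty u) = true then 1 else 0) = 3 := by
      rcases wty_cases u with h | h <;> rw [h] <;> decide
    rw [h3] at h2
    have h4 : ∑ p : Fin 6 × Fin (8 * t + 1), (if H (Sum.inr p) (Sum.inl u : V t) then 1 else 0) =
      (8 * t + 1) * 3 := h2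
    rw [h1, h4]; omega
  | inr p =>
    have h1 := sumW (t := t) (fun j => if T8 j (aty p.1) = true then 1 else 0)
    have h2 := sumA (t := t) (fun j => if T8 j (aty p.1) = true then 1 else 0)
    have h1' : ∑ v : Fin (28 * t + 1 + 1), (if H (Sum.inl v) (Sum.inr p : V t) then 1 else 0) = _ := h1
    have h2' : ∑ q : Fin 6 × Fin (8 * t + 1), (if H (Sum.inr q) (Sum.inr p : V t) then 1 else 0) = _ := h2
    rw [h1', h2']
    have key : ∀ j : Fin 6,
        ((if T8 0 (aty j) = true then 1 else 0) = 1 ∧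
          ∑ i : Fin 6, (if T8 (aty i) (aty j) = true then 1 else 0) = 2) ∨
        ((if T8 7 (aty j) = true then 1 else 0) = 1 ∧
          ∑ i : Fin 6, (if T8 (aty i) (aty j) = true then 1 else 0) = 3) := by decide
    rcases key p.1 with ⟨h3, h4⟩ | ⟨h3, h4⟩ <;> rw [h3, h4] <;> omega

lemma total_wt {t : ℕ} : ∑ x : V t, wt (ty x) = 38 * t + 2 := by
  rw [Fintype.sum_sum_type]
  have h1 := sumW (t := t) wt
  have h2 := sumA (t := t) wt
  have h3 : ∑ j : Fin 6, wt (aty j) = 0 := by decide
  have h4 : wt 0 = 1 := by decide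
  have h5 : wt 7 = 2 := by decide
  rw [h3] at h2
  rw [h4, h5] at h1
  simp only [ty]
  rw [h1, h2]; omega

/-- Counterexample for k = 4: minimum semidegree about 17n/38, above 25n/56. -/
theorem result :
    ¬ (∀ k : ℕ, 4 ≤ k → ∀ r : ℕ,
      IsGreatest {m : ℕ | ∃ T : Fin m → Fin m → Prop,
          (∀ x, ¬ T x x) ∧
          (∀ x y, x ≠ y → (T x y ↔ ¬ T y x)) ∧
          (∀ v, Set.ncard {w | T v w} = Set.ncard {w | T w v}) ∧
          ¬ ∃ f : Fin k → Fin m, Function.Injective f ∧
              ∀ i j : Fin k, i < j → T (f i) (f j)} r →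
      ∀ ε : ℝ, 0 < ε → ∃ n0 : ℕ, ∀ n : ℕ, n0 ≤ n → k ∣ n →
        ∀ G : Fin n → Fin n → Prop,
          (∀ x, ¬ G x x) →
          (∀ x y, G x y → ¬ G y x) →
          (∀ v, ((1:ℝ)/2 - ((k:ℝ) - 1) / (2 * (k:ℝ) * (r:ℝ)) + ε) * (n:ℝ)
                  ≤ (Set.ncard {w | G v w} : ℝ) ∧
                ((1:ℝ)/2 - ((k:ℝ) - 1) / (2 * (k:ℝ) * (r:ℝ)) + ε) * (n:ℝ)
                  ≤ (Set.ncard {w | G w v} : ℝ)) →
          ∃ f : Fin (n / k) → Fin k → Fin n,
            Function.Bijective (fun p : Fin (n / k) × Fin k => f p.1 p.2) ∧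
            ∀ t : Fin (n / k), ∀ i j : Fin k, i < j → G (f t i) (f t j)) := by
  intro h
  obtain ⟨n0, hn0⟩ := h 4 le_rfl 7 reg4 (1 / 2000) (by norm_num)
  obtain ⟨t, ht⟩ : ∃ t, t = n0 + 18 := ⟨_, rfl⟩
  have hcard : Fintype.card (V t) = 76 * t + 8 := by
    simp only [V, Fintype.card_sum, Fintype.card_prod, Fintype.card_fin]; omega
  let e : Fin (76 * t + 8) ≃ V t := (Fintype.equivFinOfCardEq hcard).symm
  have hdeg : ∀ (P : V t → Prop) [DecidablePred P], 34 * t + 3 ≤ (univ.filter P).card →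
      ((1:ℝ)/2 - (((4:ℕ):ℝ) - 1) / (2 * ((4:ℕ):ℝ) * ((7:ℕ):ℝ)) + 1 / 2000) * ((76 * t + 8 : ℕ):ℝ)
                  ≤ (Set.ncard {w | P (e w)} : ℝ) := by
    intro P _ hP
    have h1 : {w | P (e w)} = ↑(univ.filter (fun w => P (e w))) := by ext; simp
    have h2 : (univ.filter (fun w => P (e w))).card = (univ.filter P).card := by
      apply card_equiv e
      intro v
      simp
    rw [h1, Set.ncard_coe_finset, h2]
    have h3 : ((34 * t + 3 : ℕ) : ℝ) ≤ ((univ.filter P).card : ℝ) := by exact_mod_cast hP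
    have h4 : (18 : ℝ) ≤ t := by exact_mod_cast (by omega : 18 ≤ t)
    push_cast at h3 ⊢
    linarith
  obtain ⟨f, hbij, hf⟩ := hn0 (76 * t + 8) (by omega) ⟨19 * t + 2, by ring⟩
    (fun u v => H (e u) (e v)) (fun x hx => H_asymm _ _ hx hx) (fun x y hxy => H_asymm _ _ hxy)
    (fun v => ⟨hdeg (fun y => H (e v) y) (out_deg _), hdeg (fun y => H y (e v)) (in_deg _)⟩)
  have h1 : ∑ p : Fin ((76 * t + 8) / 4) × Fin 4, wt (ty (e (f p.1 p.2))) = 38 * t + 2 := by
    rw [← total_wt (t := t)]
    exact Function.Bijective.sum_comp (e.bijective.comp hbij) (fun x => wt (ty x))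
  rw [Fintype.sum_prod_type] at h1
  have h2 : ∑ _s : Fin ((76 * t + 8) / 4), 2 ≤
      ∑ s : Fin ((76 * t + 8) / 4), ∑ i : Fin 4, wt (ty (e (f s i))) := by
    apply sum_le_sum
    intro s _
    rw [Fin.sum_univ_four]
    exact block _ _ _ _ (H_rel _ _ (hf s 0 1 (by decide))) (H_rel _ _ (hf s 0 2 (by decide)))
      (H_rel _ _ (hf s 0 3 (by decide))) (H_rel _ _ (hf s 1 2 (by decide)))
      (H_rel _ _ (hf s 1 3 (by decide))) (H_rel _ _ (hf s 2 3 (by decide)))
  rw [h1] at h2
  simp only [sum_const, card_univ, Fintype.card_fin, smul_eq_mul] at h2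
  omega

end Pool.Agent.S11222
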