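import Pool.Statements.S11236

set_option autoImplicit false
open Pool Pool.MP_c19f90_co

namespace Pool.Agent.S11236

abbrev V := Fin 4 → ZMod 48

def blk (o : ZMod 48) (P Q e : V) (y : ZMod 48) : V :=
  if y = 0 then P else if y = o then Q else e + ![y, 0, 0, 0]

def g0 : ZMod 48 → V := blk 24 ![0, 1, 1, 0] ![1, 1, -1, 0] ![0, 1, 0, 0]
def g1 : ZMod 48 → V := blk 23 ![0, 0, 1, 1] ![0, 0, 1, -1] ![0, 0, 1, 0]
def g2 : ZMod 48 → V := blk 23 ![0, 1, 0, 1] ![0, -1, 0, 1] ![0, 0, 0, 1]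
def bb : Fin 9 → ZMod 48 := ![1, 2, 3, 4, 24, 25, 26, 27, 28]
def g3 (s : Fin 9) : V := ![bb s, 0, 0, 0]

def g : (ZMod 48 ⊕ ZMod 48) ⊕ (ZMod 48 ⊕ Fin 9) → V :=
  Sum.elim (Sum.elim g0 g1) (Sum.elim g2 g3)

def rr (x : V) : (ZMod 48 ⊕ ZMod 48) ⊕ (ZMod 48 ⊕ Fin 9) :=
  if x 1 = 1 ∧ x 3 = 0 then
    Sum.inl (Sum.inl (if x 2 = 1 then 0 else if x 2 = 0 then x 0 else 24))
  else if x 2 = 1 then
    Sum.inl (Sum.inr (if x 3 = 1 then 0 else if x 3 = 0 then x 0 else 23))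
  else if x 3 = 1 then
    Sum.inr (Sum.inl (if x 1 = 1 then 0 else if x 1 = 0 then x 0 else 23))
  else Sum.inr (Sum.inr (Fin.ofNat 9 (if (x 0).val < 5 then (x 0).val - 1 else (x 0).val - 20)))

theorem g_inj : Function.Injective g := by
  apply Function.LeftInverse.injective (g := rr)
  unfold Function.LeftInverse
  decide +kernel

theorem blk_sum (o : ZMod 48) (ho : o ≠ 0) (P Q e : V) (I : Finset (ZMod 48)) :
    ∃ (p q t : ℕ) (σ : ZMod 48), p ≤ 1 ∧ q ≤ 1 ∧ t ≤ 46 ∧ (t = 0 → σ = 0) ∧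
      (t = 46 → σ = 24 - o) ∧ (p = 0 → q = 0 → t = 0 → I = ∅) ∧
      ∑ y ∈ I, blk o P Q e y = p • P + q • Q + t • e + ![σ, 0, 0, 0] := by
  classical
  set T := (I.erase 0).erase o with hT
  set U : Finset (ZMod 48) := (Finset.univ.erase 0).erase o with hU
  have hTU : T ⊆ U := Finset.erase_subset_erase _ (Finset.erase_subset_erase _ (Finset.subset_univ _))
  have hUc : U.card = 46 := by
    rw [hU, Finset.card_erase_of_mem (by simp [ho]), Finset.card_erase_of_mem (by simp)]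
    simp [ZMod.card]
  have hUs : ∑ y ∈ U, y = 24 - o := by
    have h1 : ∑ y : ZMod 48, y = 24 := by decide +kernel
    have h2 := Finset.add_sum_erase (Finset.univ : Finset (ZMod 48)) (fun y => y) (Finset.mem_univ 0)
    have h3 := Finset.add_sum_erase (Finset.univ.erase (0 : ZMod 48)) (fun y => y)
      (show o ∈ Finset.univ.erase (0 : ZMod 48) by simp [ho])
    rw [hU]
    linear_combination h3 + h2 + h1
  refine ⟨if 0 ∈ I then 1 else 0, if o ∈ I then 1 else 0, T.card, ∑ y ∈ T, y, ?_, ?_, ?_, ?_, ?_, ?_, ?_⟩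
  · split_ifs <;> omega
  · split_ifs <;> omega
  · rw [← hUc]; exact Finset.card_le_card hTU
  · intro h; rw [Finset.card_eq_zero.1 h]; simp
  · intro h
    rw [Finset.eq_of_subset_of_card_le hTU (by omega), hUs]
  · intro h1 h2 h3
    have h0 : (0 : ZMod 48) ∉ I := by intro h; simp [h] at h1
    have h4 : o ∉ I := by intro h; simp [h] at h2
    have h5 := Finset.card_eq_zero.1 h3
    rw [hT, Finset.erase_eq_of_notMem h0, Finset.erase_eq_of_notMem h4] at h5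
    exact h5
  · have hA : ∑ y ∈ T, blk o P Q e y = T.card • e + ![∑ y ∈ T, y, 0, 0, 0] := by
      have : ∀ y ∈ T, blk o P Q e y = e + ![y, 0, 0, 0] := by
        intro y hy
        rw [hT, Finset.mem_erase, Finset.mem_erase] at hy
        simp [blk, hy.1, hy.2.1]
      rw [Finset.sum_congr rfl this, Finset.sum_add_distrib, Finset.sum_const]
      congr 1
      funext i
      rw [Finset.sum_apply]
      fin_cases i <;> simp
    have hB : ∑ y ∈ I.erase 0, blk o P Q e y = (if o ∈ I then 1 else 0) • Q + ∑ y ∈ T, blk o P Q e y := by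
      by_cases h : o ∈ I
      · rw [← Finset.add_sum_erase (I.erase 0) _ (show o ∈ I.erase 0 by simp [ho, h])]
        simp [h, blk, ho, hT]
      · rw [hT, Finset.erase_eq_of_notMem (s := I.erase 0) (by simp [h])]
        simp [h]
    have hC : ∑ y ∈ I, blk o P Q e y = (if 0 ∈ I then 1 else 0) • P + ∑ y ∈ I.erase 0, blk o P Q e y := by
      by_cases h : 0 ∈ I
      · rw [← Finset.add_sum_erase I _ h]
        simp [h, blk]
      · rw [Finset.erase_eq_of_notMem h]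
        simp [h]
    rw [hC, hB, hA]
    abel

theorem small : ∀ S : Finset (Fin 9), ∀ e : Fin 4,
    ((e : ℕ) : ZMod 48) + ∑ s ∈ S, bb s = 0 → (e : ℕ) = 0 ∧ S = ∅ := by
  decide +kernel

theorem arith (p0 q0 t0 p1 q1 t1 p2 q2 t2 : ℕ) (hp0 : p0 ≤ 1) (hq0 : q0 ≤ 1) (ht0 : t0 ≤ 46)
    (hp1 : p1 ≤ 1) (hq1 : q1 ≤ 1) (ht1 : t1 ≤ 46) (hp2 : p2 ≤ 1) (hq2 : q2 ≤ 1) (ht2 : t2 ≤ 46)
    (d1 : (48 : ℤ) ∣ (p0 : ℤ) + q0 + t0 + p2 - q2) (d2 : (48 : ℤ) ∣ (p1 : ℤ) + q1 + t1 + p0 - q0)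
    (d3 : (48 : ℤ) ∣ (p2 : ℤ) + q2 + t2 + p1 - q1) :
    (t0 = 0 ∨ t0 = 46) ∧ (t1 = 0 ∨ t1 = 46) ∧ (t2 = 0 ∨ t2 = 46) ∧
      (q0 + t1 / 46 + t2 / 46 = 0 → p0 = 0 ∧ q0 = 0 ∧ t0 = 0 ∧ p1 = 0 ∧ q1 = 0 ∧ t1 = 0 ∧
        p2 = 0 ∧ q2 = 0 ∧ t2 = 0) := by
  have e1 : p0 + q0 + t0 + p2 = q2 ∨ p0 + q0 + t0 + p2 = q2 + 48 := by omega
  have e2 : p1 + q1 + t1 + p0 = q0 ∨ p1 + q1 + t1 + p0 = q0 + 48 := by omega
  have e3 : p2 + q2 + t2 + p1 = q1 ∨ p2 + q2 + t2 + p1 = q1 + 48 := by omega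
  clear d1 d2 d3
  interval_cases p0 <;> interval_cases q0 <;> interval_cases p1 <;> interval_cases q1 <;>
    interval_cases p2 <;> interval_cases q2 <;> omega

theorem key (I0 I1 I2 : Finset (ZMod 48)) (S : Finset (Fin 9))
    (h : ∑ y ∈ I0, g0 y + ∑ y ∈ I1, g1 y + (∑ y ∈ I2, g2 y + ∑ s ∈ S, g3 s) = 0) :
    I0 = ∅ ∧ I1 = ∅ ∧ I2 = ∅ ∧ S = ∅ := by
  obtain ⟨p0, q0, t0, s0, hp0, hq0, ht0, a0, b0, c0, e0⟩ :=
    blk_sum 24 (by decide) ![0, 1, 1, 0] ![1, 1, -1, 0] ![0, 1, 0, 0] I0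
  obtain ⟨p1, q1, t1, s1, hp1, hq1, ht1, a1, b1, c1, e1⟩ :=
    blk_sum 23 (by decide) ![0, 0, 1, 1] ![0, 0, 1, -1] ![0, 0, 1, 0] I1
  obtain ⟨p2, q2, t2, s2, hp2, hq2, ht2, a2, b2, c2, e2⟩ :=
    blk_sum 23 (by decide) ![0, 1, 0, 1] ![0, -1, 0, 1] ![0, 0, 0, 1] I2
  have e3 : ∑ s ∈ S, g3 s = ![∑ s ∈ S, bb s, 0, 0, 0] := by
    funext i
    rw [Finset.sum_apply]
    fin_cases i <;> simp [g3]
  unfold g0 g1 g2 at h
  rw [e0, e1, e2, e3] at h
  have h0 := congrFun h 0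
  have h1 := congrFun h 1
  have h2 := congrFun h 2
  have h3 := congrFun h 3
  simp only [Pi.add_apply, Pi.smul_apply, Pi.zero_apply] at h0 h1 h2 h3
  simp only [Matrix.cons_val_zero, Matrix.cons_val_one,
    Matrix.cons_val, nsmul_eq_mul, mul_zero, mul_one, mul_neg, add_zero, zero_add] at h0 h1 h2 h3
  have d1 : (48 : ℤ) ∣ (p0 : ℤ) + q0 + t0 + p2 - q2 := by
    apply (ZMod.intCast_zmod_eq_zero_iff_dvd _ 48).1
    push_cast
    linear_combination h1
  have d2 : (48 : ℤ) ∣ (p1 : ℤ) + q1 + t1 + p0 - q0 := by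
    apply (ZMod.intCast_zmod_eq_zero_iff_dvd _ 48).1
    push_cast
    linear_combination h2
  have d3 : (48 : ℤ) ∣ (p2 : ℤ) + q2 + t2 + p1 - q1 := by
    apply (ZMod.intCast_zmod_eq_zero_iff_dvd _ 48).1
    push_cast
    linear_combination h3
  have TT := arith p0 q0 t0 p1 q1 t1 p2 q2 t2 hp0 hq0 ht0 hp1 hq1 ht1 hp2 hq2 ht2 d1 d2 d3
  obtain ⟨T0, T1, T2, T3⟩ := TT
  have S0 : s0 = 0 := by
    rcases T0 with h | h
    · exact a0 h
    · rw [b0 h]; simp
  have S1 : s1 = ((t1 / 46 : ℕ) : ZMod 48) := by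
    rcases T1 with h | h
    · rw [a1 h, h]; simp
    · rw [b1 h, h]; decide
  have S2 : s2 = ((t2 / 46 : ℕ) : ZMod 48) := by
    rcases T2 with h | h
    · rw [a2 h, h]; simp
    · rw [b2 h, h]; decide
  have := small S ⟨q0 + t1 / 46 + t2 / 46, by omega⟩ (by
    rw [S0, S1, S2] at h0
    push_cast
    linear_combination h0)
  obtain ⟨h5, h6⟩ := this
  simp only at h5
  obtain ⟨z1, z2, z3, z4, z5, z6, z7, z8, z9⟩ := T3 h5
  exact ⟨c0 z1 z2 z3, c1 z4 z5 z6, c2 z7 z8 z9, h6⟩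


/-- The negation of the preceding statement: For all r ≥ 3 and k ≥ 2, the largest subset of (Z_k)^r with no nonempty subset summing to zero has exactly the size given by the stated lower-bound formula (separate cases for r = 3 and r ≥ 4). -/
theorem result :
    ¬ (∀ r k : ℕ, 3 ≤ r → 2 ≤ k → ∀ n : ℕ,
      n = (if r = 3 then
              (if k ≤ 3 then 3 * (k - 1)
               else 2 * k + ⌊(Real.sqrt (8 * (k : ℝ) - 31) - 1) / 2⌋₊)
           else
              (if k ≤ r + 1 then r * (k - 1)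
               else (r - 1) * k + ⌊(Real.sqrt (8 * ((k : ℝ) - (r : ℝ)) + 1) - 1) / 2⌋₊)) →
      (∃ A : Finset (Fin r → ZMod k), A.card = n ∧
          ∀ B : Finset (Fin r → ZMod k), B ⊆ A → B.Nonempty → ∑ x ∈ B, x ≠ 0) ∧
      (∀ A : Finset (Fin r → ZMod k),
          (∀ B : Finset (Fin r → ZMod k), B ⊆ A → B.Nonempty → ∑ x ∈ B, x ≠ 0) →
          A.card ≤ n)) := by
  intro H
  classical
  have h := (H 4 48 (by norm_num) (by norm_num) _ rfl).2 (Finset.univ.image g) ?_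
  · rw [Finset.card_image_of_injective _ g_inj] at h
    have hs : Real.sqrt (8 * (((48 : ℕ) : ℝ) - ((4 : ℕ) : ℝ)) + 1) < 19 := by
      rw [Real.sqrt_lt' (by norm_num)]; norm_num
    have hf : ⌊(Real.sqrt (8 * (((48 : ℕ) : ℝ) - ((4 : ℕ) : ℝ)) + 1) - 1) / 2⌋₊ < 9 := by
      rw [Nat.floor_lt' (by norm_num)]
      generalize Real.sqrt (8 * (((48 : ℕ) : ℝ) - ((4 : ℕ) : ℝ)) + 1) = x at hs ⊢
      push_cast
      linarith
    simp only [Finset.card_univ, Fintype.card_sum, ZMod.card, Fintype.card_fin] at h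
    rw [if_neg (by norm_num), if_neg (by norm_num)] at h
    omega
  · intro B hB hne hsum
    set I := Finset.univ.filter (fun i => g i ∈ B) with hI
    have hBI : B = I.image g := by
      ext x
      constructor
      · intro hx
        obtain ⟨i, _, rfl⟩ := Finset.mem_image.1 (hB hx)
        exact Finset.mem_image.2 ⟨i, by simp [hI, hx], rfl⟩
      · intro hx
        obtain ⟨i, hi, rfl⟩ := Finset.mem_image.1 hx
        simpa [hI] using hi
    have h1 : ∑ i ∈ I, g i = 0 := by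
      rw [hBI, Finset.sum_image (fun a _ b _ h => g_inj h)] at hsum
      exact hsum
    rw [Finset.sum_sum_eq_sum_toLeft_add_sum_toRight, Finset.sum_sum_eq_sum_toLeft_add_sum_toRight,
      Finset.sum_sum_eq_sum_toLeft_add_sum_toRight] at h1
    obtain ⟨k0, k1, k2, k3⟩ := key _ _ _ _ h1
    obtain ⟨x, hx⟩ := hne
    rw [hBI] at hx
    obtain ⟨i, hi, _⟩ := Finset.mem_image.1 hx
    rcases i with (i | i) | (i | i)
    · have : i ∈ I.toLeft.toLeft := by simpa using hi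
      rw [k0] at this; simp at this
    · have : i ∈ I.toLeft.toRight := by simpa using hi
      rw [k1] at this; simp at this
    · have : i ∈ I.toRight.toLeft := by simpa using hi
      rw [k2] at this; simp at this
    · have : i ∈ I.toRight.toRight := by simpa using hi
      rw [k3] at this; simp at this

end Pool.Agent.S11236
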