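import Pool.Statements.S11238

set_option autoImplicit false
open Pool Pool.MP_c1e4cd_co

namespace Pool.Agent.S11238

/-- The negation of the preceding statement: Some C₀>0 works for all n≥1: if A⊆S_n, c=∣A∣/(n-1)!, and 1_A is within mean-square εc/n of the span of 1-coset indicators, then 1_A is within C₀εc/n of a union of round(c) distinct 1-cosets, and ∣c−round(c)∣≤C₀ε. -/
theorem result :
    ¬ (∃ C₀ : ℝ, 0 < C₀ ∧ ∀ n : ℕ, 1 ≤ n → ∀ A : Finset (Equiv.Perm (Fin n)), ∀ ε : ℝ, 0 ≤ ε →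
    (∃ a : Fin n → Fin n → ℝ,
      (1 / (n.factorial : ℝ)) * ∑ σ : Equiv.Perm (Fin n),
          ((if σ ∈ A then (1:ℝ) else 0) - ∑ i : Fin n, a i (σ i)) ^ 2
        ≤ ε * ((A.card : ℝ) / ((n - 1).factorial : ℝ)) / n) →
    ∃ S : Finset (Fin n × Fin n),
      (S.card : ℤ) = round ((A.card : ℝ) / ((n - 1).factorial : ℝ)) ∧
      (1 / (n.factorial : ℝ)) * ∑ σ : Equiv.Perm (Fin n),
          ((if σ ∈ A then (1:ℝ) else 0) - (if ∃ p ∈ S, σ p.1 = p.2 then (1:ℝ) else 0)) ^ 2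
        ≤ C₀ * ε * ((A.card : ℝ) / ((n - 1).factorial : ℝ)) / n ∧
      |(A.card : ℝ) / ((n - 1).factorial : ℝ)
          - ((round ((A.card : ℝ) / ((n - 1).factorial : ℝ)) : ℤ) : ℝ)| ≤ C₀ * ε) := by
  rintro ⟨C, hC, h⟩
  obtain ⟨N, hN⟩ := exists_nat_gt C
  obtain ⟨m, hm⟩ : 2 ∣ (N + 2).factorial := Nat.dvd_factorial (by omega) (by omega)
  have hcard : Fintype.card (Equiv.Perm (Fin (N + 3))) = (N + 3) * (2 * m) := by
    rw [Fintype.card_perm, Fintype.card_fin, Nat.factorial_succ, hm]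
  have hmpos : 0 < m := by
    have := Nat.factorial_pos (N + 2)
    omega
  obtain ⟨B, -, hB⟩ := Finset.exists_subset_card_eq
    (s := (Finset.univ : Finset (Equiv.Perm (Fin (N + 3))))) (n := m)
    (by rw [Finset.card_univ, hcard]; nlinarith)
  have hA : ((Bᶜ).card : ℝ) = ((N : ℝ) + 3) * (2 * m) - m := by
    rw [Finset.card_compl, hcard, hB, Nat.cast_sub (by nlinarith)]
    push_cast; ring
  have hf1 : (((N + 3 - 1).factorial : ℕ) : ℝ) = 2 * m := by
    rw [show N + 3 - 1 = N + 2 by omega, hm]; push_cast; ring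
  have hf : (((N + 3).factorial : ℕ) : ℝ) = ((N : ℝ) + 3) * (2 * m) := by
    rw [Nat.factorial_succ, hm]; push_cast; ring
  have hm' : (0 : ℝ) < m := by exact_mod_cast hmpos
  have hc : ((Bᶜ).card : ℝ) / (((N + 3 - 1).factorial : ℕ) : ℝ) = (N : ℝ) + 5 / 2 := by
    rw [hA, hf1]; field_simp; ring
  have hN0 : (0 : ℝ) ≤ N := Nat.cast_nonneg N
  obtain ⟨S, -, -, h3⟩ := h (N + 3) (by omega) Bᶜ (1 / (2 * (N : ℝ) + 5)) (by positivity)
    ⟨fun _ _ => 1 / ((N : ℝ) + 3), by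
      rw [hc, hf]
      have e1 : ∀ σ : Equiv.Perm (Fin (N + 3)),
          ((if σ ∈ Bᶜ then (1:ℝ) else 0) - ∑ _i : Fin (N + 3), 1 / ((N : ℝ) + 3)) ^ 2
          = if σ ∈ B then 1 else 0 := by
        intro σ
        have : ∑ _i : Fin (N + 3), 1 / ((N : ℝ) + 3) = 1 := by
          rw [Finset.sum_const, Finset.card_univ, Fintype.card_fin, nsmul_eq_mul]
          push_cast; field_simp
        rw [this]
        by_cases hσ : σ ∈ B <;> simp [hσ]
      rw [Finset.sum_congr rfl (fun σ _ => e1 σ), Finset.sum_ite_mem, Finset.univ_inter,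
        Finset.sum_const, hB, nsmul_eq_mul]
      push_cast
      apply le_of_eq
      field_simp⟩
  rw [hc] at h3
  have h4 : (1 : ℝ) / 2 ≤ |(N : ℝ) + 5 / 2 - ((round ((N : ℝ) + 5 / 2) : ℤ) : ℝ)| := by
    generalize round ((N : ℝ) + 5 / 2) = z
    rcases le_or_gt z ((N : ℤ) + 2) with hz | hz
    · have : (z : ℝ) ≤ (N : ℝ) + 2 := by exact_mod_cast hz
      rw [le_abs]; left; linarith
    · have : (N : ℝ) + 3 ≤ (z : ℝ) := by exact_mod_cast (show (N : ℤ) + 3 ≤ z by omega)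
      rw [le_abs]; right; linarith
  have h5 : C * (1 / (2 * (N : ℝ) + 5)) < 1 / 2 := by
    rw [mul_one_div, div_lt_iff₀ (by positivity)]
    linarith
  linarith

end Pool.Agent.S11238
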