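import Pool.Statements.S11244

set_option autoImplicit false
open Pointwise
open Pool Pool.MP_c21415_co

namespace Pool.Agent.S11244

abbrev NN (m : ℕ) := Multiplicative (ZMod m × ZMod m × ZMod m)

def sg (m : ℕ) : MulAut (NN m) :=
  AddEquiv.toMultiplicative
    { toFun := fun p => (p.2.2, p.1, p.2.1)
      invFun := fun p => (p.2.1, p.2.2, p.1)
      left_inv := fun _ => rfl
      right_inv := fun _ => rfl
      map_add' := fun _ _ => rfl }

abbrev GG (m : ℕ) := SemidirectProduct (NN m) (Multiplicative ℤ) (zpowersHom (MulAut (NN m)) (sg m))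

def el {m : ℕ} (a b c : ZMod m) : GG m := SemidirectProduct.inl (Multiplicative.ofAdd (a, b, c))

def xx (m : ℕ) : GG m := SemidirectProduct.inr (Multiplicative.ofAdd 1)

lemma el_mul {m : ℕ} (a b c a' b' c' : ZMod m) :
    el a b c * el a' b' c' = el (a + a') (b + b') (c + c') := by
  unfold el
  rw [← map_mul]; rfl

lemma xx_el {m : ℕ} (a b c : ZMod m) : xx m * el a b c = el c a b * xx m := by
  unfold xx el
  have := SemidirectProduct.inl_aut (φ := zpowersHom (MulAut (NN m)) (sg m))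
    (Multiplicative.ofAdd (1 : ℤ)) (Multiplicative.ofAdd (a, b, c))
  have e : (zpowersHom (MulAut (NN m)) (sg m)) (Multiplicative.ofAdd (1 : ℤ))
      (Multiplicative.ofAdd (a, b, c)) = Multiplicative.ofAdd (c, a, b) := by
    simp [sg]
  rw [e] at this
  rw [this, map_inv]
  simp

lemma el_inj {m : ℕ} {a b c a' b' c' : ZMod m} (h : el a b c = el a' b' c') :
    (a, b, c) = (a', b', c') :=
  Multiplicative.ofAdd.injective (SemidirectProduct.inl_injective h)


/-- The negation of the preceding statement: There is an absolute constant c such that for any group and finite A, B with ∣AB∣ < α∣A∣ and ∣AbB∣ ≤ α∣A∣ for every b in B, each h ≥ 1 admits a nonempty X ⊆ A with ∣XB^h∣ ≤ α^(ch)∣X∣. -/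
theorem result :
    ¬ (∃ c : ℝ, ∀ (G : Type) [Group G] [DecidableEq G] (A B : Finset G) (α : ℝ),
      (((A * B).card : ℝ) < α * (A.card : ℝ)) →
      (∀ b ∈ B, (((A * {b} * B).card : ℝ) ≤ α * (A.card : ℝ))) →
      ∀ h : ℕ, 1 ≤ h →
        ∃ X : Finset G, X ⊆ A ∧ X.Nonempty ∧
          (((X * B ^ h).card : ℝ) ≤ α ^ (c * (h : ℝ)) * (X.card : ℝ))) := by
  classical
  rintro ⟨c, hc⟩
  obtain ⟨m0, hm0⟩ := exists_nat_gt ((3 : ℝ) ^ (c * ((5 : ℕ) : ℝ)))
  set m := m0 + 1 with hm
  haveI : NeZero m := ⟨by omega⟩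
  let A : Finset (GG m) := Finset.univ.image (fun p : ZMod m × ZMod m => el p.1 p.2 0)
  let B : Finset (GG m) := insert (xx m) (Finset.univ.image (fun a : ZMod m => el a 0 0))
  have hA : ∀ g, g ∈ A ↔ ∃ a b, g = el a b 0 := by
    intro g
    simp only [A, Finset.mem_image, Finset.mem_univ, true_and, Prod.exists]
    exact ⟨fun ⟨a, b, h⟩ => ⟨a, b, h.symm⟩, fun ⟨a, b, h⟩ => ⟨a, b, h.symm⟩⟩
  have hB : ∀ g, g ∈ B ↔ g = xx m ∨ ∃ a, g = el a 0 0 := by
    intro g
    simp only [B, Finset.mem_insert, Finset.mem_image, Finset.mem_univ, true_and]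
    exact ⟨fun h => h.imp id (fun ⟨a, h⟩ => ⟨a, h.symm⟩), fun h => h.imp id (fun ⟨a, h⟩ => ⟨a, h.symm⟩)⟩
  have hAc : A.card = m * m := by
    rw [Finset.card_image_of_injective]
    · simp
    · rintro ⟨a, b⟩ ⟨a', b'⟩ h
      have := el_inj h
      simp only [Prod.mk.injEq] at this ⊢
      exact ⟨this.1, this.2.1⟩
  have two : ∀ (S : Finset (GG m)) (u v : GG m), (∀ g ∈ S, ∃ a b, g = el a b 0 * u ∨ g = el a b 0 * v) →
      S.card ≤ 2 * A.card := by
    intro S u v h
    have : S ⊆ A.image (fun g => g * u) ∪ A.image (fun g => g * v) := by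
      intro g hg
      obtain ⟨a, b, h | h⟩ := h g hg
      · exact Finset.mem_union_left _ (Finset.mem_image.2 ⟨_, (hA _).2 ⟨a, b, rfl⟩, h.symm⟩)
      · exact Finset.mem_union_right _ (Finset.mem_image.2 ⟨_, (hA _).2 ⟨a, b, rfl⟩, h.symm⟩)
    have h1 := Finset.card_le_card this
    have h2 := Finset.card_union_le (A.image (fun g => g * u)) (A.image (fun g => g * v))
    have h3 := Finset.card_image_le (s := A) (f := fun g => g * u)
    have h4 := Finset.card_image_le (s := A) (f := fun g => g * v)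
    omega
  have hApos : (0 : ℝ) < A.card := by
    rw [hAc]; positivity
  have h1 : (A * B).card ≤ 2 * A.card := by
    apply two _ 1 (xx m)
    intro g hg
    obtain ⟨p, hp, q, hq, rfl⟩ := Finset.mem_mul.1 hg
    obtain ⟨a, b, rfl⟩ := (hA p).1 hp
    rcases (hB q).1 hq with rfl | ⟨d, rfl⟩
    · exact ⟨a, b, Or.inr rfl⟩
    · exact ⟨a + d, b, Or.inl (by rw [el_mul]; simp)⟩
  have h2 : ∀ b ∈ B, (A * {b} * B).card ≤ 2 * A.card := by
    intro z hz
    rcases (hB z).1 hz with rfl | ⟨e, rfl⟩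
    · apply two _ (xx m) (xx m * xx m)
      intro g hg
      obtain ⟨p', hp', q, hq, rfl⟩ := Finset.mem_mul.1 hg
      obtain ⟨p, hp, w, hw, rfl⟩ := Finset.mem_mul.1 hp'
      rw [Finset.mem_singleton] at hw
      subst hw
      obtain ⟨a, b, rfl⟩ := (hA p).1 hp
      rcases (hB q).1 hq with rfl | ⟨d, rfl⟩
      · exact ⟨a, b, Or.inr (mul_assoc _ _ _)⟩
      · refine ⟨a, b + d, Or.inl ?_⟩
        rw [mul_assoc, xx_el, ← mul_assoc, el_mul]; simp
    · apply two _ 1 (xx m)
      intro g hg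
      obtain ⟨p', hp', q, hq, rfl⟩ := Finset.mem_mul.1 hg
      obtain ⟨p, hp, w, hw, rfl⟩ := Finset.mem_mul.1 hp'
      rw [Finset.mem_singleton] at hw
      subst hw
      obtain ⟨a, b, rfl⟩ := (hA p).1 hp
      rcases (hB q).1 hq with rfl | ⟨d, rfl⟩
      · exact ⟨a + e, b, Or.inr (by rw [el_mul]; simp)⟩
      · exact ⟨a + e + d, b, Or.inl (by rw [el_mul, el_mul]; simp)⟩
  obtain ⟨X, hXA, ⟨y, hy⟩, hX⟩ := hc (GG m) A B 3
    (by
      have : ((A * B).card : ℝ) ≤ 2 * A.card := by exact_mod_cast h1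
      linarith)
    (by
      intro z hz
      have : ((A * {z} * B).card : ℝ) ≤ 2 * A.card := by exact_mod_cast h2 z hz
      linarith) 5 (by norm_num)
  obtain ⟨a0, b0, rfl⟩ := (hA y).1 (hXA hy)
  have hbig : (Finset.univ : Finset (ZMod m × ZMod m × ZMod m)).card ≤ (X * B ^ 5).card := by
    apply Finset.card_le_card_of_injOn (fun p => el p.1 p.2.1 p.2.2 * (xx m * xx m))
    · rintro ⟨a, b, d⟩ -
      have e : el a b d * (xx m * xx m) =
          el a0 b0 0 * (el (a - a0) 0 0 * xx m * el (b - b0) 0 0 * xx m * el d 0 0) := by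
        rw [mul_assoc (el (a - a0) 0 0) (xx m), xx_el, mul_assoc _ (xx m) (el d 0 0), xx_el]
        simp only [mul_assoc]
        rw [← mul_assoc (xx m) (el 0 d 0), xx_el]
        simp only [← mul_assoc, el_mul]
        simp
      show el a b d * (xx m * xx m) ∈ X * B ^ 5
      rw [e]
      apply Finset.mul_mem_mul hy
      have hx : xx m ∈ B := (hB _).2 (Or.inl rfl)
      have hh : ∀ t, el t 0 0 ∈ B := fun t => (hB _).2 (Or.inr ⟨t, rfl⟩)
      rw [show B ^ 5 = B * B * B * B * B by simp [pow_succ]]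
      exact Finset.mul_mem_mul (Finset.mul_mem_mul (Finset.mul_mem_mul (Finset.mul_mem_mul
        (hh _) hx) (hh _)) hx) (hh _)
    · rintro ⟨a, b, d⟩ - ⟨a', b', d'⟩ - h
      exact el_inj (mul_right_cancel h)
  have hbig' : (m : ℝ) * (m * m) ≤ (X * B ^ 5).card := by
    simp only [Finset.card_univ, Fintype.card_prod, ZMod.card] at hbig
    exact_mod_cast hbig
  have hXc : (X.card : ℝ) ≤ m * m := by
    have := Finset.card_le_card hXA
    rw [hAc] at this
    exact_mod_cast this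
  have hpos : (0 : ℝ) < (3 : ℝ) ^ (c * ((5 : ℕ) : ℝ)) := by positivity
  have hmm : (0 : ℝ) < (m : ℝ) * m := by positivity
  have hm1 : (3 : ℝ) ^ (c * ((5 : ℕ) : ℝ)) < m := by rw [hm]; push_cast; push_cast at hm0; linarith
  nlinarith

end Pool.Agent.S11244
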