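import Pool.Statements.S11254
import Pool.Agent.H12.Inv4

set_option autoImplicit false
open Pool Pool.MP_c24a34_co

namespace Pool.Agent.S11254

open Pool.Agent.H12.Inv

/-- The negation of the preceding statement: For finite oriented graphs D_1..D_k each with inversion number 1 or even, the inversion number of their join (disjoint union plus all arcs from D_i to D_j for i<j) equals the sum of their inversion numbers. -/
theorem result :
    ¬ (∀ (k : ℕ) (n : Fin k → ℕ) (D : (i : Fin k) → Digraph (Fin (n i))),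
    (∀ (i : Fin k) (a b : Fin (n i)), (D i).Adj a b → ¬ (D i).Adj b a) →
    (∀ i : Fin k,
      sInf {m : ℕ | ∃ X : Fin m → Set (Fin (n i)), ∃ f : Fin (n i) → ℕ, ∀ u v : Fin (n i),
        ((D i).Adj u v ∧ Even (Nat.card {j : Fin m // u ∈ X j ∧ v ∈ X j})) ∨
        ((D i).Adj v u ∧ Odd (Nat.card {j : Fin m // u ∈ X j ∧ v ∈ X j})) → f u < f v} = 1 ∨
      Even (sInf {m : ℕ | ∃ X : Fin m → Set (Fin (n i)), ∃ f : Fin (n i) → ℕ, ∀ u v : Fin (n i),
        ((D i).Adj u v ∧ Even (Nat.card {j : Fin m // u ∈ X j ∧ v ∈ X j})) ∨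
        ((D i).Adj v u ∧ Odd (Nat.card {j : Fin m // u ∈ X j ∧ v ∈ X j})) → f u < f v})) →
    sInf {m : ℕ | ∃ X : Fin m → Set (Σ i : Fin k, Fin (n i)),
        ∃ f : (Σ i : Fin k, Fin (n i)) → ℕ, ∀ u v : (Σ i : Fin k, Fin (n i)),
        ((u.1 < v.1 ∨ ∃ (i : Fin k) (a b : Fin (n i)),
            u = ⟨i, a⟩ ∧ v = ⟨i, b⟩ ∧ (D i).Adj a b) ∧
          Even (Nat.card {j : Fin m // u ∈ X j ∧ v ∈ X j})) ∨
        ((v.1 < u.1 ∨ ∃ (i : Fin k) (a b : Fin (n i)),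
            v = ⟨i, a⟩ ∧ u = ⟨i, b⟩ ∧ (D i).Adj a b) ∧
          Odd (Nat.card {j : Fin m // u ∈ X j ∧ v ∈ X j})) → f u < f v}
    = ∑ i : Fin k,
      sInf {m : ℕ | ∃ X : Fin m → Set (Fin (n i)), ∃ f : Fin (n i) → ℕ, ∀ u v : Fin (n i),
        ((D i).Adj u v ∧ Even (Nat.card {j : Fin m // u ∈ X j ∧ v ∈ X j})) ∨
        ((D i).Adj v u ∧ Odd (Nat.card {j : Fin m // u ∈ X j ∧ v ∈ X j})) → f u < f v}) := by
  intro H
  obtain ⟨τ, σ, h1, h2, h3, h4, h5, h6, h7⟩ := core_even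
  let ρ : Fin 2 → Fin 256 → Fin 256 → F := ![τ, σ]
  have hρ : ∀ i, Tour (ρ i) := by
    intro i
    fin_cases i
    · exact h1
    · exact h2
  have h := H 2 (fun _ => 256) (fun i => ⟨Arc (ρ i)⟩)
    (fun i a b hab => (arc_tour (hρ i) a b hab.1).1 hab)
    (by
      intro i
      right
      have e := invS_set (hρ i)
      simp only []
      rw [e]
      fin_cases i
      · exact h3
      · exact h4)
  have e0 := invS_set (hρ 0)
  have e1 := invS_set (hρ 1)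
  simp only [Fin.sum_univ_two] at h
  rw [e0, e1] at h
  rw [← invS_set (tour_jn h1 h2)] at h7
  obtain ⟨X, f, hf⟩ := h7
  let φ : (Σ _ : Fin 2, Fin 256) → Fin 256 ⊕ Fin 256 :=
    fun w => if w.1 = 0 then Sum.inl w.2 else Sum.inr w.2
  have harc : ∀ u v : (Σ _ : Fin 2, Fin 256), (u.1 < v.1 ∨ ∃ (i : Fin 2) (a b : Fin 256),
      u = ⟨i, a⟩ ∧ v = ⟨i, b⟩ ∧ Arc (ρ i) a b) → Arc (jn τ σ) (φ u) (φ v) := by
    rintro ⟨i, a⟩ ⟨j, b⟩ huv
    rcases huv with huv | ⟨k, c, d, e1, e2, huv⟩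
    · fin_cases i <;> fin_cases j <;> simp at huv
      simp [φ, Arc, jn]
    · cases e1
      cases e2
      fin_cases i
      · simpa [φ, Arc, jn, ρ] using huv
      · simpa [φ, Arc, jn, ρ] using huv
  have hle : sInf (InvS (ρ 0)) + sInf (InvS (ρ 1)) ≤ 258 := by
    rw [← h]
    apply Nat.sInf_le
    refine ⟨fun j => φ ⁻¹' X j, fun w => f (φ w), fun u v huv => hf (φ u) (φ v) ?_⟩
    rcases huv with ⟨a, b⟩ | ⟨a, b⟩
    · exact Or.inl ⟨harc u v a, b⟩
    · exact Or.inr ⟨harc v u a, b⟩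
  have a : sInf (InvS (ρ 0)) = sInf (InvS τ) := rfl
  have b : sInf (InvS (ρ 1)) = sInf (InvS σ) := rfl
  omega

end Pool.Agent.S11254
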