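import Pool.Statements.S11268

set_option autoImplicit false
open Pool Pool.MP_c32a86_co

namespace Pool.Agent.S11268

open Finset

theorem comm_nonneg {G : Type} [Group G] [Fintype G] (f : G → ℝ) :
    0 ≤ ∑ a : G, ∑ b : G, ∑ x : G, f x * f (a * b * a⁻¹ * b⁻¹ * x) := by
  let P : G → G → ℝ := fun b y => ∑ a : G, f (a * b * a⁻¹ * y)
  have hP : ∀ c b y : G, P (c * b * c⁻¹) y = P b y := by
    intro c b y
    simp only [P]
    rw [← Equiv.sum_comp (Equiv.mulRight c) (fun a => f (a * b * a⁻¹ * y))]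
    refine Finset.sum_congr rfl (fun a _ => ?_)
    congr 1
    simp only [Equiv.coe_mulRight]
    group
  have h1 : ∑ a : G, ∑ b : G, ∑ x : G, f x * f (a * b * a⁻¹ * b⁻¹ * x)
      = ∑ b : G, ∑ y : G, f (b * y) * P b y := by
    rw [Finset.sum_comm]
    refine Finset.sum_congr rfl (fun b _ => ?_)
    rw [Finset.sum_comm]
    rw [← Equiv.sum_comp (Equiv.mulLeft b)]
    refine Finset.sum_congr rfl (fun y _ => ?_)
    simp only [P, Equiv.coe_mulLeft]
    rw [Finset.mul_sum]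
    refine Finset.sum_congr rfl (fun a _ => ?_)
    congr 2
    group
  have h2 : ∀ c : G, ∑ b : G, ∑ y : G, f (b * y) * P b y
      = ∑ b : G, ∑ y : G, f (c * b * c⁻¹ * y) * P b y := by
    intro c
    rw [← Equiv.sum_comp (MulAut.conj c).toEquiv]
    refine Finset.sum_congr rfl (fun b _ => Finset.sum_congr rfl (fun y _ => ?_))
    show f (c * b * c⁻¹ * y) * P (c * b * c⁻¹) y = _
    rw [hP]
  have h3 : (Fintype.card G : ℝ) * ∑ b : G, ∑ y : G, f (b * y) * P b y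
      = ∑ b : G, ∑ y : G, P b y * P b y := by
    calc (Fintype.card G : ℝ) * ∑ b : G, ∑ y : G, f (b * y) * P b y
        = ∑ _c : G, ∑ b : G, ∑ y : G, f (b * y) * P b y := by simp
      _ = ∑ c : G, ∑ b : G, ∑ y : G, f (c * b * c⁻¹ * y) * P b y :=
          Finset.sum_congr rfl (fun c _ => h2 c)
      _ = ∑ b : G, ∑ y : G, ∑ c : G, f (c * b * c⁻¹ * y) * P b y := by
          rw [Finset.sum_comm]
          exact Finset.sum_congr rfl (fun b _ => Finset.sum_comm)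
      _ = ∑ b : G, ∑ y : G, P b y * P b y := by
          refine Finset.sum_congr rfl (fun b _ => Finset.sum_congr rfl (fun y _ => ?_))
          rw [← Finset.sum_mul]
  have h4 : 0 ≤ ∑ b : G, ∑ y : G, P b y * P b y :=
    Finset.sum_nonneg (fun b _ => Finset.sum_nonneg (fun y _ => mul_self_nonneg _))
  rw [h1]
  have hn : (0 : ℝ) < (Fintype.card G : ℝ) := by exact_mod_cast Fintype.card_pos
  rw [← h3] at h4
  exact (mul_nonneg_iff_of_pos_left hn).1 h4

theorem sq_corr {G : Type} [Group G] [Fintype G] (f : G → ℝ) (hf : ∀ x, f x = 1 ∨ f x = -1) :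
    -2 * (Fintype.card G : ℝ) ^ 2 ≤ 3 * ∑ z : G, ∑ x : G, f (z * z * x) * f x := by
  set n : ℝ := (Fintype.card G : ℝ) with hn
  have hn0 : (0 : ℝ) < n := by rw [hn]; exact_mod_cast Fintype.card_pos
  let t : G → ℝ := fun z => ∑ x : G, f (z * z * x) * f x
  have ht : ∀ z g : G, ∑ x : G, f (z * z * (g * x)) * f (g * x) = t z := by
    intro z g
    exact Equiv.sum_comp (Equiv.mulLeft g) (fun x => f (z * z * x) * f x)
  have key : ∀ a b x : G, f x * f (a * b * a⁻¹ * b⁻¹ * x) ≤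
      2 + f (b⁻¹ * b⁻¹ * x) * f x
        + f ((a⁻¹ * b) * (a⁻¹ * b) * ((b⁻¹ * b⁻¹) * x)) * f ((b⁻¹ * b⁻¹) * x)
        + f (a * a * (((a⁻¹ * b) * (a⁻¹ * b) * (b⁻¹ * b⁻¹)) * x))
          * f (((a⁻¹ * b) * (a⁻¹ * b) * (b⁻¹ * b⁻¹)) * x) := by
    intro a b x
    have e1 : a * a * (((a⁻¹ * b) * (a⁻¹ * b) * (b⁻¹ * b⁻¹)) * x) = a * b * a⁻¹ * b⁻¹ * x := by
      group
    have e2 : (a⁻¹ * b) * (a⁻¹ * b) * ((b⁻¹ * b⁻¹) * x)
        = ((a⁻¹ * b) * (a⁻¹ * b) * (b⁻¹ * b⁻¹)) * x := by group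
    rw [e1, e2]
    rcases hf x with h0 | h0 <;> rcases hf (b⁻¹ * b⁻¹ * x) with h1 | h1 <;>
      rcases hf (((a⁻¹ * b) * (a⁻¹ * b) * (b⁻¹ * b⁻¹)) * x) with h2 | h2 <;>
      rcases hf (a * b * a⁻¹ * b⁻¹ * x) with h3 | h3 <;>
      rw [h0, h1, h2, h3] <;> norm_num
  have hs : ∀ a b : G, ∑ x : G, f x * f (a * b * a⁻¹ * b⁻¹ * x) ≤
      2 * n + t b⁻¹ + t (a⁻¹ * b) + t a := by
    intro a b
    refine (Finset.sum_le_sum (fun x _ => key a b x)).trans (le_of_eq ?_)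
    rw [Finset.sum_add_distrib, Finset.sum_add_distrib, Finset.sum_add_distrib, ht, ht]
    simp [t, hn, mul_comm]
  have hT1 : ∑ b : G, t b⁻¹ = ∑ z : G, t z := Equiv.sum_comp (Equiv.inv G) t
  have hT2 : ∀ a : G, ∑ b : G, t (a⁻¹ * b) = ∑ z : G, t z :=
    fun a => Equiv.sum_comp (Equiv.mulLeft a⁻¹) t
  have h0 := comm_nonneg f
  have h1 : ∑ a : G, ∑ b : G, ∑ x : G, f x * f (a * b * a⁻¹ * b⁻¹ * x) ≤
      ∑ a : G, ∑ b : G, (2 * n + t b⁻¹ + t (a⁻¹ * b) + t a) :=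
    Finset.sum_le_sum (fun a _ => Finset.sum_le_sum (fun b _ => hs a b))
  have h2 : ∑ a : G, ∑ b : G, (2 * n + t b⁻¹ + t (a⁻¹ * b) + t a)
      = n * (2 * n ^ 2 + 3 * ∑ z : G, t z) := by
    have : ∀ a : G, ∑ b : G, (2 * n + t b⁻¹ + t (a⁻¹ * b) + t a)
        = n * (2 * n) + 2 * (∑ z : G, t z) + n * t a := by
      intro a
      rw [Finset.sum_add_distrib, Finset.sum_add_distrib, Finset.sum_add_distrib, hT1, hT2]
      simp only [Finset.sum_const, Finset.card_univ, nsmul_eq_mul, ← hn]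
      ring
    rw [Finset.sum_congr rfl (fun a _ => this a), Finset.sum_add_distrib, ← Finset.mul_sum]
    simp only [Finset.sum_const, Finset.card_univ, nsmul_eq_mul, ← hn]
    ring
  have h3 : 0 ≤ n * (2 * n ^ 2 + 3 * ∑ z : G, t z) := by rw [← h2]; exact h0.trans h1
  have h4 := (mul_nonneg_iff_of_pos_left hn0).1 h3
  show -2 * n ^ 2 ≤ 3 * ∑ z : G, t z
  linarith

theorem result :
    ¬ (∀ ε : ℝ, 0 < ε → ∀ r : ℕ, 1 < r →
      ∃ (G : Type) (_ : Group G) (_ : Fintype G), ∃ χ : G → Fin r,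
        ∀ c : G, ∀ i : Fin r,
          ((Finset.univ.filter (fun x : G => χ x = i ∧ χ (c * x⁻¹ * c) = i)).card : ℝ)
            < ε * (Fintype.card G : ℝ)) := by
  intro h
  obtain ⟨G, _, _, χ, hχ⟩ := h (1 / 12) (by norm_num) 2 (by norm_num)
  classical
  let f : G → ℝ := fun x => if χ x = 0 then 1 else -1
  have hf : ∀ x, f x = 1 ∨ f x = -1 := by
    intro x
    by_cases hx : χ x = 0 <;> simp [f, hx]
  have h1 := sq_corr f hf
  set n : ℝ := (Fintype.card G : ℝ) with hn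
  have hn0 : (0 : ℝ) < n := by rw [hn]; exact_mod_cast Fintype.card_pos
  have h2 : ∑ z : G, ∑ x : G, f (z * z * x) * f x
      = ∑ c : G, ∑ x : G, f (c * x⁻¹ * c) * f x := by
    rw [Finset.sum_comm]
    conv_rhs => rw [Finset.sum_comm]
    refine Finset.sum_congr rfl (fun x _ => ?_)
    rw [← Equiv.sum_comp (Equiv.mulRight x) (fun c => f (c * x⁻¹ * c) * f x)]
    refine Finset.sum_congr rfl (fun z _ => ?_)
    congr 2
    simp only [Equiv.coe_mulRight]
    group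
  have h3 : ∀ c : G, ∑ x : G, f (c * x⁻¹ * c) * f x < -(2 / 3) * n := by
    intro c
    have hx : ∀ x : G, f (c * x⁻¹ * c) * f x
        = 2 * (if χ x = 0 ∧ χ (c * x⁻¹ * c) = 0 then (1 : ℝ) else 0)
          + 2 * (if χ x = 1 ∧ χ (c * x⁻¹ * c) = 1 then (1 : ℝ) else 0) - 1 := by
      intro x
      simp only [f]
      generalize χ x = u
      generalize χ (c * x⁻¹ * c) = v
      fin_cases u <;> fin_cases v <;> norm_num
    rw [Finset.sum_congr rfl (fun x _ => hx x), Finset.sum_sub_distrib, Finset.sum_add_distrib,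
      ← Finset.mul_sum, ← Finset.mul_sum, Finset.sum_boole, Finset.sum_boole]
    have a0 := hχ c 0
    have a1 := hχ c 1
    simp only [Finset.sum_const, Finset.card_univ, nsmul_eq_mul, ← hn]
    linarith
  have h4 : ∑ c : G, ∑ x : G, f (c * x⁻¹ * c) * f x < ∑ _c : G, -(2 / 3) * n :=
    Finset.sum_lt_sum_of_nonempty Finset.univ_nonempty (fun c _ => h3 c)
  simp only [Finset.sum_const, Finset.card_univ, nsmul_eq_mul, ← hn] at h4
  rw [h2] at h1
  nlinarith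

end Pool.Agent.S11268
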