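import Pool.Statements.S11286
-- import your own Pool.Agent.* helpers here

set_option autoImplicit false
open Pool Pool.MP_c40d78_co

namespace Pool.Agent.S11286

def cx : Fin 6 → ℝ := ![0, 0, 0, 132, -220, 132]
def cy : Fin 6 → ℝ := ![0, 0, 0, 176, 0, -176]
def cz : Fin 6 → ℝ := ![21, 0, -21, 0, 0, 0]
def pp : Fin 6 → ℝ := ![21, 20, 21, 200, 200, 200]
def sg : Fin 6 → Fin 6 := ![3, 4, 5, 0, 1, 2]
noncomputable def P (i : Fin 6) : EuclideanSpace ℝ (Fin 3) := !₂[cx i, cy i, cz i]

lemma P_dist (i j : Fin 6) :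
    dist (P i) (P j) = √((cx i - cx j) ^ 2 + (cy i - cy j) ^ 2 + (cz i - cz j) ^ 2) := by
  rw [EuclideanSpace.dist_eq, Fin.sum_univ_three]
  simp [P, Real.dist_eq, sq_abs]

lemma P_le (i j : Fin 6) : dist (P i) (P j) ≤ pp i + pp j := by
  rw [P_dist]
  refine Real.sqrt_le_iff.2 ?_
  fin_cases i <;> fin_cases j <;> (simp only [cx, cy, cz, pp, Fin.zero_eta, Fin.mk_one, Fin.reduceFinMk, Matrix.cons_val, Matrix.cons_val_zero, Matrix.cons_val_one, Fin.isValue]; norm_num)

lemma P_eq (i : Fin 6) : dist (P i) (P (sg i)) = pp i + pp (sg i) := by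
  rw [P_dist, Real.sqrt_eq_iff_mul_self_eq (by positivity)]
  · fin_cases i <;> (simp only [cx, cy, cz, pp, sg, Fin.zero_eta, Fin.mk_one, Fin.reduceFinMk, Matrix.cons_val, Matrix.cons_val_zero, Matrix.cons_val_one, Fin.isValue]; norm_num)
  · fin_cases i <;> (simp only [pp, sg, Fin.zero_eta, Fin.mk_one, Fin.reduceFinMk, Matrix.cons_val, Matrix.cons_val_zero, Matrix.cons_val_one, Fin.isValue]; norm_num)

lemma P_inj : Function.Injective P := by
  intro i j h
  have h0 : cx i = cx j := by simpa [P] using congrArg (fun v => v 0) h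
  have h1 : cy i = cy j := by simpa [P] using congrArg (fun v => v 1) h
  have h2 : cz i = cz j := by simpa [P] using congrArg (fun v => v 2) h
  fin_cases i <;> fin_cases j <;> first | rfl | (exfalso; simp only [cx, cy, cz, Fin.zero_eta, Fin.mk_one, Fin.reduceFinMk, Matrix.cons_val, Matrix.cons_val_zero, Matrix.cons_val_one, Fin.isValue] at h0 h1 h2; linarith)

lemma inball (x : EuclideanSpace ℝ (Fin 3)) (i j : Fin 6)
    (h : dist x (midpoint ℝ (P i) (P j)) < dist (P i) (P j) / 2) :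
    (x 0 - cx i) * (x 0 - cx j) + (x 1 - cy i) * (x 1 - cy j) + (x 2 - cz i) * (x 2 - cz j) < 0 := by
  have h1 := pow_lt_pow_left₀ h dist_nonneg two_ne_zero
  rw [P_dist, div_pow, Real.sq_sqrt (by positivity), EuclideanSpace.dist_eq,
    Real.sq_sqrt (by positivity), Fin.sum_univ_three] at h1
  simp only [midpoint_eq_smul_add, P, Real.dist_eq, sq_abs, PiLp.smul_apply, PiLp.add_apply,
    smul_eq_mul, invOf_eq_inv, Matrix.cons_val, Matrix.cons_val_zero, Matrix.cons_val_one] at h1
  nlinarith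


/-- The negation of the preceding statement: For any dimension d and any 2n distinct points in R^d, every perfect matching maximizing the total Euclidean length of its edges has a point lying in all open balls whose diameters are the matched edges. -/
theorem result :
    ¬ (∀ (d n : ℕ) (p : Fin (2 * n) → EuclideanSpace ℝ (Fin d)), Function.Injective p →
      ∀ σ : Equiv.Perm (Fin (2 * n)), (∀ i, σ (σ i) = i) → (∀ i, σ i ≠ i) →
        (∀ τ : Equiv.Perm (Fin (2 * n)), (∀ i, τ (τ i) = i) → (∀ i, τ i ≠ i) →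
          ∑ i, dist (p i) (p (τ i)) ≤ ∑ i, dist (p i) (p (σ i))) →
        ∃ x : EuclideanSpace ℝ (Fin d), ∀ i,
          dist x (midpoint ℝ (p i) (p (σ i))) < dist (p i) (p (σ i)) / 2) := by
  intro h
  let σ : Equiv.Perm (Fin 6) := ⟨sg, sg, by decide, by decide⟩
  obtain ⟨x, hx⟩ := h 3 3 P P_inj σ (by decide) (by decide) (by
    intro τ _ _
    have e1 : ∑ i, dist (P i) (P (σ i)) = ∑ i, (pp i + pp (σ i)) :=
      Finset.sum_congr rfl fun i _ => P_eq i
    have e2 : ∑ i, dist (P i) (P (τ i)) ≤ ∑ i, (pp i + pp (τ i)) :=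
      Finset.sum_le_sum fun i _ => P_le _ _
    rw [Finset.sum_add_distrib, Equiv.sum_comp σ pp] at e1
    rw [Finset.sum_add_distrib, Equiv.sum_comp τ pp] at e2
    exact e2.trans e1.ge)
  have a0 := inball x 0 3 (hx 0)
  have a1 := inball x 1 4 (hx 1)
  have a2 := inball x 2 5 (hx 2)
  simp only [cx, cy, cz, Matrix.cons_val, Matrix.cons_val_zero, Matrix.cons_val_one] at a0 a1 a2
  nlinarith [sq_nonneg (x 0), sq_nonneg (x 1), sq_nonneg (x 2)]

end Pool.Agent.S11286
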