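import Pool.Statements.S11432
import Pool.Agent.H8.Bowtie

set_option autoImplicit false
open Pool Pool.MP_ca83f8_co

namespace Pool.Agent.S11432

open Finset Pool.Agent.H8.Bowtie

def F : Finset (Finset (Fin 5)) := {{0, 1}, {0, 2}, {1, 2}, {0, 3}, {0, 4}, {3, 4}}

def Free {n : ℕ} (G : Finset (Finset (Fin n))) : Prop :=
  ¬ ∃ φ : Fin 5 ↪ Fin n, ∀ e ∈ F, e.map φ ∈ G

lemma embed {n : ℕ} (G : Finset (Finset (Fin n))) (hG : ∀ e ∈ G, e.card = 2) (v a b c d : Fin n)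
    (h1 : ({v, a} : Finset (Fin n)) ∈ G) (h2 : ({v, b} : Finset (Fin n)) ∈ G)
    (h3 : ({a, b} : Finset (Fin n)) ∈ G) (h4 : ({v, c} : Finset (Fin n)) ∈ G)
    (h5 : ({v, d} : Finset (Fin n)) ∈ G) (h6 : ({c, d} : Finset (Fin n)) ∈ G)
    (n1 : a ≠ c) (n2 : a ≠ d) (n3 : b ≠ c) (n4 : b ≠ d) : ¬ Free G := by
  have ne : ∀ x y : Fin n, ({x, y} : Finset (Fin n)) ∈ G → x ≠ y := by
    intro x y h e
    have := hG _ h
    simp [e] at this
  have m1 := ne _ _ h1
  have m2 := ne _ _ h2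
  have m3 := ne _ _ h3
  have m4 := ne _ _ h4
  have m5 := ne _ _ h5
  have m6 := ne _ _ h6
  intro hf
  apply hf
  refine ⟨⟨![v, a, b, c, d], ?_⟩, ?_⟩
  · clear h1 h2 h3 h4 h5 h6 ne hf hG
    intro i j hij
    fin_cases i <;> fin_cases j <;> simp_all
  · intro e he
    simp only [F, mem_insert, mem_singleton] at he
    rcases he with rfl | rfl | rfl | rfl | rfl | rfl <;> simpa

lemma upper {n : ℕ} (hn : 5 ≤ n) (G : Finset (Finset (Fin n))) (hG : ∀ e ∈ G, e.card = 2)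
    (hf : Free G) : G.card ≤ n ^ 2 / 4 + 1 := by
  have h1 := two_mul_le G hG
  have h2 := bound (fun x y : Fin n => ({x, y} : Finset (Fin n)) ∈ G)
    (fun x y h => by rwa [pair_comm]) (fun x h => by have := hG _ h; simp at this)
    (fun v a b c d h1 h2 h3 h4 h5 h6 n1 n2 n3 n4 =>
      embed G hG v a b c d h1 h2 h3 h4 h5 h6 n1 n2 n3 n4 hf) (n - 5) univ (by simp; omega)
  rw [Nat.sub_add_cancel hn] at h2
  omega

def K (n m : ℕ) : Finset (Finset (Fin n)) :=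
  ((univ.filter (fun x : Fin n => x.val < m)) ×ˢ (univ.filter (fun x : Fin n => ¬ x.val < m))).image
    (fun p => {p.1, p.2})

lemma K_card2 (n m : ℕ) : ∀ e ∈ K n m, e.card = 2 := by
  intro e he
  simp only [K, mem_image, mem_product, mem_filter, mem_univ, true_and] at he
  obtain ⟨p, ⟨h1, h2⟩, rfl⟩ := he
  apply card_pair
  intro h
  exact h2 (h ▸ h1)

lemma K_mem {n m : ℕ} (x y : Fin n) :
    ({x, y} : Finset (Fin n)) ∈ K n m ↔ (x.val < m ↔ ¬ y.val < m) := by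
  simp only [K, mem_image, mem_product, mem_filter, mem_univ, true_and]
  constructor
  · rintro ⟨p, ⟨h1, h2⟩, h⟩
    have a1 : p.1 ∈ ({x, y} : Finset (Fin n)) := h ▸ mem_insert_self _ _
    have a2 : p.2 ∈ ({x, y} : Finset (Fin n)) := h ▸ mem_insert_of_mem (mem_singleton_self _)
    simp only [mem_insert, mem_singleton] at a1 a2
    rcases a1 with a1 | a1 <;> rcases a2 with a2 | a2 <;> rw [a1] at h1 <;> rw [a2] at h2 <;> tauto
  · intro h
    by_cases hx : x.val < m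
    · exact ⟨(x, y), ⟨hx, h.mp hx⟩, rfl⟩
    · exact ⟨(y, x), ⟨by tauto, hx⟩, pair_comm _ _⟩

lemma K_card {n m : ℕ} (h : m ≤ n) : (K n m).card = m * (n - m) := by
  have h1 : (univ.filter (fun x : Fin n => x.val < m)).card = m := by
    rw [Fin.card_filter_val_lt]; omega
  have h2 := card_filter_add_card_filter_not (s := (univ : Finset (Fin n))) (fun x => x.val < m)
  rw [h1, card_univ, Fintype.card_fin] at h2
  have h3 : (univ.filter (fun x : Fin n => ¬ x.val < m)).card = n - m := by omega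
  unfold K
  rw [card_image_of_injOn, card_product, h1, h3]
  intro p hp q hq hpq
  simp only [coe_product, coe_filter, mem_univ, true_and, Set.mem_prod, Set.mem_ofPred_eq] at hp hq
  have a1 : p.1 ∈ ({q.1, q.2} : Finset (Fin n)) := by
    have : ({p.1, p.2} : Finset (Fin n)) = {q.1, q.2} := hpq
    exact this ▸ mem_insert_self _ _
  have a2 : p.2 ∈ ({q.1, q.2} : Finset (Fin n)) := by
    have : ({p.1, p.2} : Finset (Fin n)) = {q.1, q.2} := hpq
    exact this ▸ mem_insert_of_mem (mem_singleton_self _)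
  simp only [mem_insert, mem_singleton] at a1 a2
  rcases a1 with a1 | a1
  · rcases a2 with a2 | a2
    · exact absurd (a2 ▸ hq.1) hp.2
    · exact Prod.ext a1 a2
  · exact absurd (a1 ▸ hp.1) hq.2

lemma two_out {n m : ℕ} (φ : Fin 5 ↪ Fin n) :
    ∃ e ∈ F, ∃ f ∈ F, e ≠ f ∧ e.map φ ∉ K n m ∧ f.map φ ∉ K n m := by
  have t1 : ∃ e ∈ ({{0, 1}, {0, 2}, {1, 2}} : Finset (Finset (Fin 5))), e.map φ ∉ K n m := by
    by_contra hc
    push Not at hc
    have a1 := hc {0, 1} (by simp)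
    have a2 := hc {0, 2} (by simp)
    have a3 := hc {1, 2} (by simp)
    simp only [map_insert, map_singleton, K_mem] at a1 a2 a3
    tauto
  have t2 : ∃ e ∈ ({{0, 3}, {0, 4}, {3, 4}} : Finset (Finset (Fin 5))), e.map φ ∉ K n m := by
    by_contra hc
    push Not at hc
    have a1 := hc {0, 3} (by simp)
    have a2 := hc {0, 4} (by simp)
    have a3 := hc {3, 4} (by simp)
    simp only [map_insert, map_singleton, K_mem] at a1 a2 a3
    tauto
  obtain ⟨e, he, he'⟩ := t1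
  obtain ⟨f, hf, hf'⟩ := t2
  have key : ∀ e ∈ ({{0, 1}, {0, 2}, {1, 2}} : Finset (Finset (Fin 5))),
      ∀ f ∈ ({{0, 3}, {0, 4}, {3, 4}} : Finset (Finset (Fin 5))), e ∈ F ∧ f ∈ F ∧ e ≠ f := by
    decide
  obtain ⟨k1, k2, k3⟩ := key e he f hf
  exact ⟨e, k1, f, k2, k3, he', hf'⟩

lemma K_free (n m : ℕ) : Free (K n m) := by
  rintro ⟨φ, hφ⟩
  obtain ⟨e, he, -, -, -, h, -⟩ := two_out (m := m) φ
  exact h (hφ e he)

noncomputable def ex (n : ℕ) : ℕ := sSup {t : ℕ | ∃ G : Finset (Finset (Fin n)),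
          (∀ e ∈ G, e.card = 2) ∧
          (¬ ∃ φ : Fin 5 ↪ Fin n, ∀ e ∈ F, e.map φ ∈ G) ∧ G.card = t}

lemma ex_le {n : ℕ} (hn : 5 ≤ n) : ex n ≤ n ^ 2 / 4 + 1 := by
  apply csSup_le
  · exact ⟨_, K n 0, K_card2 n 0, K_free n 0, rfl⟩
  · rintro t ⟨G, h1, h2, rfl⟩
    exact upper hn G h1 h2

lemma le_ex {n : ℕ} (hn : 5 ≤ n) : n / 2 * (n - n / 2) ≤ ex n := by
  apply le_csSup
  · refine ⟨n ^ 2 / 4 + 1, ?_⟩
    rintro t ⟨G, h1, h2, rfl⟩
    exact upper hn G h1 h2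
  · exact ⟨K n (n / 2), K_card2 _ _, K_free _ _, K_card (by omega)⟩

/-- Counterexample: k = 2 and F the bow-tie (two triangles sharing a vertex). -/
theorem result :
    ¬ (∀ (k m : ℕ) (F : Finset (Finset (Fin m))) (ex : ℕ → ℕ), 2 ≤ k →
      (∀ e ∈ F, e.card = k) →
      (∀ e ∈ F, ∀ f ∈ F, e ≠ f → (e ∩ f).card ≤ 1) →
      (∀ n : ℕ, ex n = sSup {t : ℕ | ∃ G : Finset (Finset (Fin n)),
          (∀ e ∈ G, e.card = k) ∧
          (¬ ∃ φ : Fin m ↪ Fin n, ∀ e ∈ F, e.map φ ∈ G) ∧ G.card = t}) →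
      (∃ c : ℝ, 0 < c ∧ ∃ N : ℕ, ∀ n ≥ N, c * (n : ℝ) ^ k ≤ (ex n : ℝ)) →
      ∃ r0 : ℕ, ∀ r ≥ r0, ∃ n0 : ℕ, ∀ n ≥ n0, ∀ H : Finset (Finset (Fin n)),
        (∀ e ∈ H, e.card = k) →
        (Nat.card {c : {x // x ∈ H} → Fin r //
            ¬ ∃ φ : Fin m ↪ Fin n, (∀ e ∈ F, e.map φ ∈ H) ∧
              ∀ e ∈ F, ∀ f ∈ F, ∀ x y : {x // x ∈ H},
                x.1 = e.map φ → y.1 = f.map φ → e ≠ f → c x ≠ c y} ≤ r ^ ex n ∧
        (Nat.card {c : {x // x ∈ H} → Fin r //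
            ¬ ∃ φ : Fin m ↪ Fin n, (∀ e ∈ F, e.map φ ∈ H) ∧
              ∀ e ∈ F, ∀ f ∈ F, ∀ x y : {x // x ∈ H},
                x.1 = e.map φ → y.1 = f.map φ → e ≠ f → c x ≠ c y} = r ^ ex n ↔
          ((¬ ∃ φ : Fin m ↪ Fin n, ∀ e ∈ F, e.map φ ∈ H) ∧ H.card = ex n)))) := by
  intro h
  obtain ⟨r0, hr0⟩ := h 2 5 F ex le_rfl (by decide) (by decide) (fun _ => rfl)
    ⟨1 / 8, by norm_num, 5, fun n hn => by
      have h1 := le_ex hn
      have h2 : n ^ 2 ≤ 8 * (n / 2 * (n - n / 2)) := by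
        obtain ⟨q, hq | hq⟩ := Nat.even_or_odd' n
        · have e1 : n / 2 = q := by omega
          have e2 : n - q = q := by omega
          rw [e1, e2, hq]; nlinarith
        · have e1 : n / 2 = q := by omega
          have e2 : n - q = q + 1 := by omega
          have : 2 ≤ q := by omega
          rw [e1, e2, hq]; nlinarith
      have h3 : ((n ^ 2 : ℕ) : ℝ) ≤ ((8 * ex n : ℕ) : ℝ) := Nat.cast_le.mpr (by omega)
      push_cast at h3
      linarith⟩
  obtain ⟨n0, hn0⟩ := hr0 (r0 + 1) (by omega)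
  obtain ⟨m, hm⟩ : ∃ m, m = n0 + 4 := ⟨_, rfl⟩
  let v0 : Fin (m + m) := ⟨0, by omega⟩
  let v1 : Fin (m + m) := ⟨1, by omega⟩
  let v2 : Fin (m + m) := ⟨2, by omega⟩
  let v3 : Fin (m + m) := ⟨3, by omega⟩
  let w : Fin (m + m) := ⟨m, by omega⟩
  let H : Finset (Finset (Fin (m + m))) := insert {v0, v1} (insert {v2, v3} (K (m + m) m))
  have hH : ∀ e ∈ H, e.card = 2 := by
    intro e he
    simp only [H, mem_insert] at he
    rcases he with rfl | rfl | he
    · exact card_pair (by simp [v0, v1])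
    · exact card_pair (by simp [v2, v3])
    · exact K_card2 _ _ e he
  have hKH : ∀ e ∈ K (m + m) m, e ∈ H := fun e he => mem_insert_of_mem (mem_insert_of_mem he)
  obtain ⟨h1, h2⟩ := hn0 (m + m) (by omega) H hH
  have hex : ex (m + m) ≤ m * m + 1 := by
    have := ex_le (n := m + m) (by omega)
    have e1 : (m + m) ^ 2 = 4 * (m * m) := by ring
    rw [e1] at this
    omega
  have hw : ∀ x : Fin (m + m), x.val < m → ({w, x} : Finset (Fin (m + m))) ∈ H := by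
    intro x hx
    apply hKH
    rw [K_mem]
    simp [w, hx]
  have hnot : ¬ Free H := embed H hH w v0 v1 v2 v3 (hw _ (by simp [v0]; omega))
    (hw _ (by simp [v1]; omega)) (mem_insert_self _ _) (hw _ (by simp [v2]; omega))
    (hw _ (by simp [v3]; omega)) (mem_insert_of_mem (mem_insert_self _ _))
    (by simp [v0, v2]) (by simp [v0, v3]) (by simp [v1, v2]) (by simp [v1, v3])
  apply hnot
  refine (h2.mp (le_antisymm h1 ?_)).1
  refine (Nat.pow_le_pow_right (by omega) hex).trans ?_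
  have hc : Nat.card (({x // x ∈ K (m + m) m} → Fin (r0 + 1)) × Fin (r0 + 1)) =
      (r0 + 1) ^ (m * m + 1) := by
    rw [Nat.card_eq_fintype_card, Fintype.card_prod, Fintype.card_fun, Fintype.card_coe,
      K_card (by omega), Fintype.card_fin, Nat.add_sub_cancel, pow_succ]
  rw [← hc]
  let col : (({x // x ∈ K (m + m) m} → Fin (r0 + 1)) × Fin (r0 + 1)) →
      ({x // x ∈ H} → Fin (r0 + 1)) :=
    fun p x => if hx : x.1 ∈ K (m + m) m then p.1 ⟨x.1, hx⟩ else p.2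
  apply Nat.card_le_card_of_injective (fun p => ⟨col p, by
    rintro ⟨φ, hφ, hr⟩
    obtain ⟨e, he, f, hf, hef, he', hf'⟩ := two_out (m := m) φ
    apply hr e he f hf ⟨_, hφ e he⟩ ⟨_, hφ f hf⟩ rfl rfl hef
    simp only [col, dif_neg he', dif_neg hf']⟩)
  intro p q hpq
  have hpq' : col p = col q := congrArg Subtype.val hpq
  apply Prod.ext
  · funext x
    have := congrFun hpq' ⟨x.1, hKH _ x.2⟩
    simpa only [col, dif_pos x.2] using this
  · have hn : ({v0, v1} : Finset (Fin (m + m))) ∉ K (m + m) m := by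
      rw [K_mem]
      simp [v0, v1]
      omega
    have := congrFun hpq' ⟨{v0, v1}, mem_insert_self _ _⟩
    simpa only [col, dif_neg hn] using this

end Pool.Agent.S11432
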