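import Pool.Statements.S11450
import Pool.Agent.H10.BM
-- import your own Pool.Agent.* helpers here

set_option autoImplicit false
open Pool Pool.MP_cb399b_co

namespace Pool.Agent.S11450

open Pool.Agent.H10.BM

def ind (m : ℕ) : Bool := Nat.testBit 2559583515075741853858322446435372803988838563771719447159417068160979635599492143359228165156882643932905471 m

theorem hc : chk 9 ind = true := by decide +kernel

theorem hr : rkChk 9 ind (2 ^ 9 - 1) 23 4 = true := by decide +kernel

theorem key : allB 512 (fun b => !(ind b && Nat.beq (b &&& 447) b && Nat.beq (b &&& 383) b &&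
    ind (447 ^^^ (447 &&& b)) && ind (383 ^^^ (383 &&& b)))) = true := by decide +kernel

theorem other {α : Type} (P : Fin 2 → Set α) (U : Set α)
    (h1 : ∀ i j, i ≠ j → Disjoint (P i) (P j)) (h2 : (⋃ i, P i) = U) (i : Fin 2) :
    P i ⊆ U ∧ ∃ j, P j = U \ P i := by
  have h3 : P 0 ∪ P 1 = U := by
    rw [← h2]; ext z; simp [Fin.exists_fin_two]
  have h4 := h1 0 1 (by decide)
  refine ⟨h2 ▸ Set.subset_iUnion P i, ?_⟩
  fin_cases i
  · exact ⟨1, by rw [← h3]; exact (Set.union_diff_cancel_left (by simpa using h4.le_bot)).symm⟩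
  · exact ⟨0, by rw [← h3]; exact (Set.union_diff_cancel_right (by simpa using h4.le_bot)).symm⟩

theorem split (a b u : ℕ) (x : Fin 9) (ha : a < 2 ^ 9) (hb : b < 2 ^ 9)
    (h1 : ind a = true ∧ pc 9 a = 4) (h2 : ind b = true ∧ pc 9 b = 4) (h3 : a &&& b = 0)
    (h4 : a ||| b = u) (h5 : S 9 u = Set.univ \ {x}) :
    ∃ B : Fin 2 → Set (Fin 9), (∀ i, (BM 9 ind hc).IsBase (B i)) ∧
      (∀ i j, i ≠ j → Disjoint (B i) (B j)) ∧ (⋃ i, B i) = (BM 9 ind hc).E \ {x} := by
  have hd := (S_disjoint b ha).2 h3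
  refine ⟨![S 9 a, S 9 b], ?_, ?_, ?_⟩
  · intro i
    fin_cases i
    · exact (isBase_iff hr ha).2 h1
    · exact (isBase_iff hr hb).2 h2
  · intro i j hij
    fin_cases i <;> fin_cases j
    · exact absurd rfl hij
    · exact hd
    · exact hd.symm
    · exact absurd rfl hij
  · rw [BM_E, ← h5, ← h4, S_or]
    ext z; simp [Fin.exists_fin_two]

theorem e6 : S 9 447 = Set.univ \ {(6 : Fin 9)} := by
  ext i; fin_cases i <;> simp [mem_S] <;> decide

theorem e7 : S 9 383 = Set.univ \ {(7 : Fin 9)} := by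
  ext i; fin_cases i <;> simp [mem_S] <;> decide

/-- The negation of the preceding statement: For a finite matroid of rank r on E with ∣E∣ = kr+1, k ≥ 2, if E minus x and E minus y each split into k disjoint bases, then there are such splittings of both that have a basis in common. -/
theorem result :
    ¬ (∀ (α : Type) (M : Matroid α) (k : ℕ), 2 ≤ k → M.E.Finite →
      M.E.encard = (k : ℕ∞) * M.eRank + 1 →
      ∀ x y : α, x ∈ M.E → y ∈ M.E →
      (∃ B : Fin k → Set α, (∀ i, M.IsBase (B i)) ∧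
          (∀ i j, i ≠ j → Disjoint (B i) (B j)) ∧
          (⋃ i, B i) = M.E \ {x}) →
      (∃ B : Fin k → Set α, (∀ i, M.IsBase (B i)) ∧
          (∀ i j, i ≠ j → Disjoint (B i) (B j)) ∧
          (⋃ i, B i) = M.E \ {y}) →
      ∃ P Q : Fin k → Set α,
        (∀ i, M.IsBase (P i)) ∧ (∀ i j, i ≠ j → Disjoint (P i) (P j)) ∧
          (⋃ i, P i) = M.E \ {x} ∧
        (∀ i, M.IsBase (Q i)) ∧ (∀ i j, i ≠ j → Disjoint (Q i) (Q j)) ∧
          (⋃ i, Q i) = M.E \ {y} ∧
        ∃ i j, P i = Q j) := by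
  intro H
  obtain ⟨P, Q, hP, hP1, hP2, hQ, hQ1, hQ2, i, j, hij⟩ := H (Fin 9) (BM 9 ind hc) 2 le_rfl
    (Set.toFinite _) (by
      rw [eRank_of hr, BM_E, ← S_full, encard_S]
      have : pc 9 (2 ^ 9 - 1) = 9 := by decide +kernel
      rw [this]; rfl) 6 7 (Set.mem_univ _) (Set.mem_univ _)
    (split 135 312 447 6 (by norm_num) (by norm_num) (by decide +kernel) (by decide +kernel)
      (by decide +kernel) (by decide +kernel) e6)
    (split 23 360 383 7 (by norm_num) (by norm_num) (by decide +kernel) (by decide +kernel)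
      (by decide +kernel) (by decide +kernel) e7)
  obtain ⟨h1, i', h2⟩ := other P _ hP1 hP2 i
  obtain ⟨h3, j', h4⟩ := other Q _ hQ1 hQ2 j
  obtain ⟨b, hb, hS⟩ := exists_S (P i)
  rw [BM_E, ← e6] at h1 h2
  rw [BM_E, ← e7, ← hij] at h3 h4
  rw [hS] at h1 h2 h3 h4
  have k0 := (hP i).indep
  have k1 := (hP i').indep
  have k2 := (hQ j').indep
  rw [hS, BM_indep hb] at k0
  rw [h2, ← S_diff, BM_indep (diff_lt b (by norm_num))] at k1
  rw [h4, ← S_diff, BM_indep (diff_lt b (by norm_num))] at k2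
  rw [S_subset _ hb] at h1 h3
  have := (allB_iff _ _).1 key b hb
  simp [k0, k1, k2, h1, h3] at this

end Pool.Agent.S11450
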