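import Pool.Statements.S11510
import Pool.Agent.H3.Qa2

set_option autoImplicit false
open Pool Pool.MP_cde6cd_co

namespace Pool.Agent.S11510

/-- The negation of the preceding statement: For every finite abelian group G, the convex hull of the averages E over x1+x2+x3=g of f1(x2,x3)f2(x1,x3)f3(x1,x2), with complex f_i bounded by 1, equals the convex hull obtained when f3(x1,x2) is replaced by h(x1+x2). -/
theorem result :
    ¬ (∀ (G : Type) [AddCommGroup G] [Fintype G],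
      convexHull ℝ {φ : G → ℂ | ∃ f₁ f₂ f₃ : G → G → ℂ,
          (∀ a b, ‖f₁ a b‖ ≤ 1) ∧ (∀ a b, ‖f₂ a b‖ ≤ 1) ∧ (∀ a b, ‖f₃ a b‖ ≤ 1) ∧
          φ = fun g => ((Fintype.card G : ℂ) ^ 2)⁻¹ *
            ∑ x₁ : G, ∑ x₂ : G, f₁ x₂ (g - x₁ - x₂) * f₂ x₁ (g - x₁ - x₂) * f₃ x₁ x₂}
      = convexHull ℝ {φ : G → ℂ | ∃ f₁ f₂ : G → G → ℂ, ∃ h : G → ℂ,
          (∀ a b, ‖f₁ a b‖ ≤ 1) ∧ (∀ a b, ‖f₂ a b‖ ≤ 1) ∧ (∀ a, ‖h a‖ ≤ 1) ∧
          φ = fun g => ((Fintype.card G : ℂ) ^ 2)⁻¹ *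
            ∑ x₁ : G, ∑ x₂ : G, f₁ x₂ (g - x₁ - x₂) * f₂ x₁ (g - x₁ - x₂) * h (x₁ + x₂)}) := by
  intro H
  have hc : Convex ℝ {φ : Fin 4 → ℂ | (∑ g, (H3.Qa.ps g : ℂ) * φ g).re ≤ 14.7} := by
    refine convex_halfSpace_le ⟨fun x y => ?_, fun c x => ?_⟩ _
    · simp only [Pi.add_apply, mul_add, Finset.sum_add_distrib, Complex.add_re]
    · rw [smul_eq_mul, ← Complex.re_ofReal_mul, Finset.mul_sum]
      congr 1
      refine Finset.sum_congr rfl fun g _ => ?_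
      simp only [Pi.smul_apply, Complex.real_smul]
      ring
  have sc : ∀ T : Fin 4 → ℂ, (∑ g, (H3.Qa.ps g : ℂ) * (((Fintype.card (Fin 4) : ℂ) ^ 2)⁻¹ * T g)).re =
      1 / 16 * (∑ g, (H3.Qa.ps g : ℂ) * T g).re := fun T => by
    rw [← Complex.re_ofReal_mul, Finset.mul_sum]
    congr 1
    refine Finset.sum_congr rfl fun g _ => ?_
    simp only [Fintype.card_fin]
    push_cast
    ring
  have h1 := (H (Fin 4)).subset (subset_convexHull ℝ _ ⟨fun a b => (H3.Qa.F1 a b : ℂ) / 1000,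
    fun a b => (H3.Qa.F2 a b : ℂ) / 1000, fun a b => (H3.Qa.F3 a b : ℂ) / 1000,
    fun a b => H3.Qa.small (H3.Qa.F_norm a b).1, fun a b => H3.Qa.small (H3.Qa.F_norm a b).2.1,
    fun a b => H3.Qa.small (H3.Qa.F_norm a b).2.2, rfl⟩)
  have h2 := convexHull_min (by
    rintro _ ⟨f₁, f₂, h, a, b, c, rfl⟩
    rw [Set.mem_ofPred_eq, sc]
    linarith [H3.Qa.upper f₁ f₂ h a b c]) hc h1
  rw [Set.mem_ofPred_eq, sc, H3.Qa.lower] at h2
  norm_num at h2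

end Pool.Agent.S11510
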