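import Pool.Statements.S11547
import Pool.Agent.H8.Sido

set_option autoImplicit false
open Pool Pool.MP_cfb0df_co

namespace Pool.Agent.S11547

open Finset Pool.Agent.H8.Sido

def src : Fin 12 → Fin 12 := ![0, 0, 3, 4, 1, 5, 6, 7, 7, 10, 7, 11]
def tgt : Fin 12 → Fin 12 := ![1, 3, 4, 2, 5, 6, 2, 9, 10, 8, 11, 8]
def ed (i : Fin 12) : Finset (Fin 12) := {src i, tgt i}

lemma sum_succ {X : Type} [Fintype X] {n : ℕ} (F : (Fin (n + 1) → X) → ℝ) :
    ∑ f, F f = ∑ x, ∑ g : Fin n → X, F (Fin.cons x g) := by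
  rw [← Fintype.sum_prod_type']
  exact (Fintype.sum_equiv (Fin.consEquiv (fun _ => X)) _ _ (fun _ => rfl)).symm

lemma sum_zero {X : Type} [Fintype X] (F : (Fin 0 → X) → ℝ) : ∑ f, F f = F ![] := by
  rw [Fintype.sum_unique]
  exact congrArg F (Subsingleton.elim _ _)

lemma sum12 {X : Type} [Fintype X] (F : (Fin 12 → X) → ℝ) :
    ∑ f, F f = ∑ x0, ∑ x1, ∑ x2, ∑ x3, ∑ x4, ∑ x5, ∑ x6, ∑ x7, ∑ x8, ∑ x9, ∑ x10, ∑ x11,
      F ![x0, x1, x2, x3, x4, x5, x6, x7, x8, x9, x10, x11] := by
  iterate 12 (rw [sum_succ]; refine sum_congr rfl (fun _ _ => ?_))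
  rw [sum_zero]
  rfl

lemma factor {X : Type} [Fintype X] (W : X → X → X → ℝ) :
    ∑ v : Fin 12 → X, ∏ i : Fin 12, U W (v (src i)) (v (tgt i)) = T7 W * TQ W := by
  have h1 : ∑ v : Fin 12 → X, ∏ i : Fin 12, U W (v (src i)) (v (tgt i)) =
      ∑ x0, ∑ x1, ∑ x2, ∑ x3, ∑ x4, ∑ x5, ∑ x6, ∑ x7, ∑ x8, ∑ x9, ∑ x10, ∑ x11,
        (U W x0 x1 * ((U W x0 x3 * (U W x3 x4 * U W x4 x2)) * (U W x1 x5 * (U W x5 x6 * U W x6 x2)))) *
        (U W x7 x9 * ((U W x7 x10 * U W x10 x8) * (U W x7 x11 * U W x11 x8))) := by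
    rw [sum12]
    refine sum_congr rfl (fun x0 _ => sum_congr rfl (fun x1 _ => sum_congr rfl (fun x2 _ =>
      sum_congr rfl (fun x3 _ => sum_congr rfl (fun x4 _ => sum_congr rfl (fun x5 _ =>
      sum_congr rfl (fun x6 _ => sum_congr rfl (fun x7 _ => sum_congr rfl (fun x8 _ =>
      sum_congr rfl (fun x9 _ => sum_congr rfl (fun x10 _ => sum_congr rfl (fun x11 _ => ?_))))))))))))
    simp only [Fin.prod_univ_succ, Fin.prod_univ_zero]
    show U W x0 x1 * (U W x0 x3 * (U W x3 x4 * (U W x4 x2 * (U W x1 x5 * (U W x5 x6 * (U W x6 x2 *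
      (U W x7 x9 * (U W x7 x10 * (U W x10 x8 * (U W x7 x11 * (U W x11 x8 * 1))))))))))) = _
    ring
  rw [h1]
  simp only [T7, TQ, c3, c2, ← mul_sum, ← sum_mul]

lemma six {n : ℕ} (G : Finset (Finset (Fin n))) (hG : ∀ g ∈ G, g.card = 3) :
    6 * G.card ≤ (univ.filter (fun p : Fin n × Fin n × Fin n =>
      ({p.1, p.2.1, p.2.2} : Finset (Fin n)) ∈ G)).card := by
  rw [card_eq_sum_card_fiberwise (f := fun p : Fin n × Fin n × Fin n =>
    ({p.1, p.2.1, p.2.2} : Finset (Fin n))) (t := G) (fun p hp => by simpa using hp)]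
  calc 6 * G.card = ∑ _g ∈ G, 6 := by simp [mul_comm]
    _ ≤ _ := by
      apply sum_le_sum
      intro g hg
      obtain ⟨a, b, c, hab, hac, hbc, rfl⟩ := card_eq_three.mp (hG g hg)
      have hsub : ({(a, b, c), (a, c, b), (b, a, c), (b, c, a), (c, a, b), (c, b, a)} :
          Finset (Fin n × Fin n × Fin n)) ⊆
          ((univ.filter (fun p : Fin n × Fin n × Fin n =>
            ({p.1, p.2.1, p.2.2} : Finset (Fin n)) ∈ G)).filter
            (fun p => ({p.1, p.2.1, p.2.2} : Finset (Fin n)) = {a, b, c})) := by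
        intro p hp
        have : ({p.1, p.2.1, p.2.2} : Finset (Fin n)) = {a, b, c} := by
          simp only [mem_insert, mem_singleton] at hp
          rcases hp with rfl | rfl | rfl | rfl | rfl | rfl <;> ext x <;> simp <;> tauto
        rw [mem_filter, mem_filter, this]
        exact ⟨⟨mem_univ _, hg⟩, rfl⟩
      refine le_trans ?_ (card_le_card hsub)
      have hba := hab.symm
      have hca := hac.symm
      have hcb := hbc.symm
      simp [card_insert_of_notMem, hab, hac, hbc, hba, hca, hcb]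

/-- Witness: the 7-cycle together with a disjoint 4-cycle with a pendant edge, k = 2, r = 3. -/
theorem result :
    ∃ (k r a m : ℕ) (e : Fin m → Finset (Fin a)),
      2 ≤ k ∧ k < r ∧ Function.Injective e ∧ (∀ i, (e i).card = k) ∧
      (¬ ∀ n : ℕ, 0 < n → ∀ G : Finset (Finset (Fin n)), (∀ g ∈ G, g.card = k) →
        (((k.factorial * G.card : ℕ) : ℝ) / (n : ℝ) ^ k) ^ m ≤
          ((Finset.univ.filter
              (fun f : Fin a → Fin n => ∀ i : Fin m, (e i).image f ∈ G)).card : ℝ)
            / (n : ℝ) ^ a) ∧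
      (∀ n : ℕ, 0 < n → ∀ G : Finset (Finset (Fin n)), (∀ g ∈ G, g.card = r) →
        (((r.factorial * G.card : ℕ) : ℝ) / (n : ℝ) ^ r) ^ m ≤
          ((Finset.univ.filter
              (fun f : Fin a ⊕ (Fin m × Fin (r - k)) → Fin n =>
                ∀ i : Fin m,
                  ((e i).image (Sum.inl : Fin a → Fin a ⊕ (Fin m × Fin (r - k))) ∪
                    (Finset.univ : Finset (Fin (r - k))).image
                      (fun j : Fin (r - k) =>
                        (Sum.inr (i, j) : Fin a ⊕ (Fin m × Fin (r - k))))).image f ∈ G)).card : ℝ)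
            / (n : ℝ) ^ (a + m * (r - k))) := by
  refine ⟨2, 3, 12, 12, ed, le_rfl, by norm_num, by decide, by decide, ?_, ?_⟩
  · intro h
    have h1 := h 2 (by norm_num) {univ} (by simp)
    have h2 : (Finset.univ.filter (fun f : Fin 12 → Fin 2 =>
        ∀ i : Fin 12, (ed i).image f ∈ ({univ} : Finset (Finset (Fin 2))))) = ∅ := by
      rw [filter_eq_empty_iff]
      intro f _ hf
      have hne : ∀ i, (f (src i)).val ≠ (f (tgt i)).val := by
        intro i hi
        have h3 := mem_singleton.mp (hf i)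
        have h4 := congrArg card h3
        have h5 : f (src i) = f (tgt i) := Fin.ext hi
        simp [ed, h5] at h4
      have a0 : (f 0).val ≠ (f 1).val := hne 0
      have a1 : (f 0).val ≠ (f 3).val := hne 1
      have a2 : (f 3).val ≠ (f 4).val := hne 2
      have a3 : (f 4).val ≠ (f 2).val := hne 3
      have a4 : (f 1).val ≠ (f 5).val := hne 4
      have a5 : (f 5).val ≠ (f 6).val := hne 5
      have a6 : (f 6).val ≠ (f 2).val := hne 6
      have := (f 0).isLt
      have := (f 1).isLt
      have := (f 2).isLt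
      have := (f 3).isLt
      have := (f 4).isLt
      have := (f 5).isLt
      have := (f 6).isLt
      omega
    rw [h2] at h1
    norm_num at h1
  · intro n hn G hG
    obtain ⟨W, hW⟩ : ∃ W : Fin n → Fin n → Fin n → ℝ,
        W = fun x y z => if ({x, y, z} : Finset (Fin n)) ∈ G then 1 else 0 := ⟨_, rfl⟩
    have hm := main W (fun x y z => by rw [hW]; dsimp only; split_ifs <;> norm_num)
      (fun x y z => by rw [hW]; dsimp only; rw [insert_comm])
      (fun x y z => by rw [hW]; dsimp only; rw [pair_comm y z])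
    have h6 : ((Nat.factorial 3 * G.card : ℕ) : ℝ) ≤ ∑ x, ∑ y, ∑ z, W x y z := by
      have h7 := six G hG
      rw [card_filter] at h7
      have h8 : ((6 * G.card : ℕ) : ℝ) ≤ _ := Nat.cast_le.mpr h7
      simp only [Fintype.sum_prod_type, Nat.cast_sum, Nat.cast_ite, Nat.cast_one, Nat.cast_zero] at h8
      rw [hW]
      exact h8
    have hcount : ((Finset.univ.filter
              (fun f : Fin 12 ⊕ (Fin 12 × Fin (3 - 2)) → Fin n =>
                ∀ i : Fin 12,
                  ((ed i).image (Sum.inl : Fin 12 → Fin 12 ⊕ (Fin 12 × Fin (3 - 2))) ∪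
                    (Finset.univ : Finset (Fin (3 - 2))).image
                      (fun j : Fin (3 - 2) =>
                        (Sum.inr (i, j) : Fin 12 ⊕ (Fin 12 × Fin (3 - 2))))).image f ∈ G)).card : ℝ)
        = T7 W * TQ W := by
      rw [← factor, card_filter, Nat.cast_sum,
        ← (Equiv.sumArrowEquivProdArrow _ _ _).symm.sum_comp, Fintype.sum_prod_type]
      apply sum_congr rfl
      intro v _
      have h1 : ∏ i : Fin 12, U W (v (src i)) (v (tgt i)) =
          ∏ p : Fin 12 × Fin 1, ∑ y, W (v (src p.1)) (v (tgt p.1)) y := by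
        rw [Fintype.prod_prod_type]
        simp [U]
      rw [h1, prod_univ_sum, Fintype.piFinset_univ]
      apply sum_congr rfl
      intro z _
      rw [hW]
      dsimp only
      rw [prod_ite_zero, prod_const_one]
      have h2 : ∀ i : Fin 12, ((ed i).image (Sum.inl : Fin 12 → Fin 12 ⊕ (Fin 12 × Fin (3 - 2))) ∪
                    (Finset.univ : Finset (Fin (3 - 2))).image
                      (fun j : Fin (3 - 2) =>
                        (Sum.inr (i, j) : Fin 12 ⊕ (Fin 12 × Fin (3 - 2))))).image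
            ((Equiv.sumArrowEquivProdArrow _ _ _).symm (v, z)) =
            ({v (src i), v (tgt i), z (i, (0 : Fin 1))} : Finset (Fin n)) := by
        intro i
        have h3 : (Finset.univ : Finset (Fin (3 - 2))) = {(0 : Fin 1)} := rfl
        rw [h3]
        ext x
        simp [ed]
      simp only [h2]
      rw [Nat.cast_ite, Nat.cast_one, Nat.cast_zero]
      congr 1
      apply propext
      constructor
      · rintro h ⟨i, j⟩ _
        have : j = 0 := Subsingleton.elim _ _
        subst this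
        exact h i
      · intro h i
        exact h (i, 0) (mem_univ _)
    rw [hcount]
    have hn' : (0 : ℝ) < n := by exact_mod_cast hn
    have h9 := (pow_le_pow_left₀ (by positivity) h6 12).trans hm
    rw [Fintype.card_fin] at h9
    rw [div_pow, div_le_div_iff₀ (by positivity) (by positivity)]
    calc ((Nat.factorial 3 * G.card : ℕ) : ℝ) ^ 12 * (n : ℝ) ^ (12 + 12 * (3 - 2))
        ≤ ((n : ℝ) ^ 12 * (T7 W * TQ W)) * (n : ℝ) ^ (12 + 12 * (3 - 2)) :=
          mul_le_mul_of_nonneg_right h9 (by positivity)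
      _ = _ := by norm_num; ring

end Pool.Agent.S11547
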