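import Pool.Statements.S11646
import Pool.Agent.H11.PermMu2

set_option autoImplicit false
open Classical
open Pool Pool.MP_d308b2_co

namespace Pool.Agent.S11646

open Pool.Agent.H11.PermMu

/-- The negation of the preceding statement: There is a function f on naturals such that for all permutations σ, τ, the absolute value of the Möbius function μ(σ,τ) of the pattern-containment poset is at most f of the number of occurrences of σ in τ. -/
theorem result :
    ¬ (∃ f : ℕ → ℕ, ∀ m : (Σ n : ℕ, Equiv.Perm (Fin n)) → (Σ n : ℕ, Equiv.Perm (Fin n)) → ℤ,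
      (∀ x, m x x = 1) →
      (∀ x y, (¬ ∃ e : Fin x.1 → Fin y.1, StrictMono e ∧
          ∀ i j, x.2 i < x.2 j ↔ y.2 (e i) < y.2 (e j)) → m x y = 0) →
      (∀ x y, x ≠ y →
        (∃ e : Fin x.1 → Fin y.1, StrictMono e ∧
          ∀ i j, x.2 i < x.2 j ↔ y.2 (e i) < y.2 (e j)) →
        ∑ k ∈ Finset.range (y.1 + 1), ∑ ρ : Equiv.Perm (Fin k),
          (if (∃ e : Fin x.1 → Fin k, StrictMono e ∧
                ∀ i j, x.2 i < x.2 j ↔ ρ (e i) < ρ (e j)) ∧
              (∃ e : Fin k → Fin y.1, StrictMono e ∧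
                ∀ i j, ρ i < ρ j ↔ y.2 (e i) < y.2 (e j))
            then m x ⟨k, ρ⟩ else 0) = 0) →
      ∀ x y, |m x y| ≤
        ((f {e : Fin x.1 → Fin y.1 | StrictMono e ∧
            ∀ i j, x.2 i < x.2 j ↔ y.2 (e i) < y.2 (e j)}.ncard : ℕ) : ℤ)) := by
  rintro ⟨f, hf⟩
  obtain ⟨s, t, h1, h2⟩ := family gad (f 1)
  have := hf mu mu_self (fun x y h => mu_not h) (fun x y h k => by
    have a := sum_I x y (mu x)
    rw [mu_sum h k] at a
    convert a using 4
    rfl) s t
  rw [h1.1.ncard, h2, mu0, abs_of_pos (by positivity)] at this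
  have k : f 1 < 2 ^ f 1 := Nat.lt_two_pow_self
  have k' : ((f 1 : ℕ) : ℤ) < 2 ^ f 1 := by exact_mod_cast k
  rw [pow_succ] at this
  have : (0 : ℤ) < 2 ^ f 1 := by positivity
  omega

end Pool.Agent.S11646
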