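import Pool.Statements.S11816

set_option autoImplicit false
open Pool Pool.MP_daf6f7_co

namespace Pool.Agent.S11816

/-- the stars of the 11 vertices of the Groetzsch graph, as subsets of its 20 edges -/
def ed : Fin 11 → Finset (Fin 20) :=
  ![{0, 4, 9, 11}, {0, 1, 5, 12}, {1, 2, 6, 13}, {2, 3, 7, 14}, {3, 4, 8, 10}, {5, 10, 15}, {6, 11, 16}, {7, 12, 17}, {8, 13, 18}, {9, 14, 19}, {15, 16, 17, 18, 19}]

/-- the maximal independent sets of the Groetzsch graph -/
def mis : List (Finset (Fin 11)) :=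
  [{5, 6, 7, 8, 9}, {0, 2, 5, 7}, {0, 3, 5, 8}, {0, 5, 7, 8}, {1, 3, 6, 8}, {1, 4, 6, 9}, {1, 6, 8, 9}, {2, 4, 7, 9}, {2, 5, 7, 9}, {3, 5, 6, 8}, {4, 6, 7, 9}, {0, 2, 10}, {0, 3, 10}, {1, 3, 10}, {1, 4, 10}, {2, 4, 10}]

lemma mis_ok : ∀ I ∈ mis, ∀ i ∈ I, ∀ j ∈ I, i ≠ j → Disjoint (ed i) (ed j) := by
  decide +kernel

lemma ratio : ∀ S : Finset (Fin 11), ∃ I ∈ mis, S.card ≤ (S ∩ I).card * 3 := by
  decide +kernel

lemma deg : Finset.univ.sup
    (fun v : Fin 20 => (Finset.univ.filter (fun i : Fin 11 => v ∈ ed i)).card) = 2 := by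
  decide +kernel

set_option synthInstance.maxSize 2000 in
lemma nocol : ∀ c0 : Fin 3, ∀ c1 : Fin 3, c0 ≠ c1 → ∀ c2 : Fin 3, c1 ≠ c2 → ∀ c3 : Fin 3, c2 ≠ c3 → ∀ c4 : Fin 3, c0 ≠ c4 → c3 ≠ c4 → ∀ c5 : Fin 3, c1 ≠ c5 → c4 ≠ c5 → ∀ c6 : Fin 3, c0 ≠ c6 → c2 ≠ c6 → ∀ c7 : Fin 3, c1 ≠ c7 → c3 ≠ c7 → ∀ c8 : Fin 3, c2 ≠ c8 → c4 ≠ c8 → ∀ c9 : Fin 3, c0 ≠ c9 → c3 ≠ c9 → ∀ c10 : Fin 3, c5 ≠ c10 → c6 ≠ c10 → c7 ≠ c10 → c8 ≠ c10 → c9 ≠ c10 → False := by
  decide +kernel

lemma nocol' (c : Fin 11 → Fin 3) (h : ∀ i j, i ≠ j → c i = c j → Disjoint (ed i) (ed j)) :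
    False := by
  have hc : ∀ i j, i ≠ j → ¬ Disjoint (ed i) (ed j) → c i ≠ c j :=
    fun i j h1 h2 h3 => h2 (h i j h1 h3)
  exact nocol (c 0)
    (c 1)
    (hc 0 1 (by decide) (by decide))
    (c 2)
    (hc 1 2 (by decide) (by decide))
    (c 3)
    (hc 2 3 (by decide) (by decide))
    (c 4)
    (hc 0 4 (by decide) (by decide))
    (hc 3 4 (by decide) (by decide))
    (c 5)
    (hc 1 5 (by decide) (by decide))
    (hc 4 5 (by decide) (by decide))
    (c 6)
    (hc 0 6 (by decide) (by decide))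
    (hc 2 6 (by decide) (by decide))
    (c 7)
    (hc 1 7 (by decide) (by decide))
    (hc 3 7 (by decide) (by decide))
    (c 8)
    (hc 2 8 (by decide) (by decide))
    (hc 4 8 (by decide) (by decide))
    (c 9)
    (hc 0 9 (by decide) (by decide))
    (hc 3 9 (by decide) (by decide))
    (c 10)
    (hc 5 10 (by decide) (by decide))
    (hc 6 10 (by decide) (by decide))
    (hc 7 10 (by decide) (by decide))
    (hc 8 10 (by decide) (by decide))
    (hc 9 10 (by decide) (by decide))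

/-- The negation of the preceding statement: For any finite hypergraph (edges may repeat) in which every subfamily of edges has a matching of size at least its edge count divided by its max degree plus one, the edges can be colored with max degree plus one colors so same-colored edges are disjoint. -/
theorem result :
    ¬ (∀ (V : Type) [Fintype V] [DecidableEq V] (m : ℕ) (e : Fin m → Finset V),
    (∀ i, (e i).Nonempty) →
    (∀ S : Finset (Fin m), ∃ M ⊆ S,
        (∀ i ∈ M, ∀ j ∈ M, i ≠ j → Disjoint (e i) (e j)) ∧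
        S.card ≤ M.card *
          (Finset.univ.sup (fun v : V => (S.filter (fun i => v ∈ e i)).card) + 1)) →
    ∃ c : Fin m → Fin (Finset.univ.sup
        (fun v : V => (Finset.univ.filter (fun i : Fin m => v ∈ e i)).card) + 1),
      ∀ i j, i ≠ j → c i = c j → Disjoint (e i) (e j)) := by
  intro H
  have h := H (Fin 20) 11 ed (by decide) (by
    intro S
    by_cases hS : ∀ i ∈ S, ∀ j ∈ S, i ≠ j → Disjoint (ed i) (ed j)
    · exact ⟨S, subset_rfl, hS, Nat.le_mul_of_pos_right _ (Nat.succ_pos _)⟩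
    · push Not at hS
      obtain ⟨i, hi, j, hj, hij, hd⟩ := hS
      obtain ⟨v, hv1, hv2⟩ := Finset.not_disjoint_iff.mp hd
      obtain ⟨I, hI, hc⟩ := ratio S
      refine ⟨S ∩ I, Finset.inter_subset_left, fun a ha b hb hab =>
        mis_ok I hI a (Finset.mem_inter.mp ha).2 b (Finset.mem_inter.mp hb).2 hab, ?_⟩
      refine hc.trans (Nat.mul_le_mul_left _ (Nat.succ_le_succ ?_))
      refine le_trans ?_ (Finset.le_sup (f := fun v : Fin 20 =>
        (S.filter (fun i => v ∈ ed i)).card) (Finset.mem_univ v))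
      exact Finset.one_lt_card.mpr ⟨i, by simp [hi, hv1], j, by simp [hj, hv2], hij⟩)
  rw [deg] at h
  obtain ⟨c, hc⟩ := h
  exact nocol' c hc

end Pool.Agent.S11816
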