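import Pool.Statements.S11842
import Pool.Agent.H12.PsdIrr

set_option autoImplicit false
open Pool Pool.MP_dc0d0a_co

namespace Pool.Agent.S11842

/-- The negation of the preceding statement: For every finite graph and rational edge values, if some real positive semidefinite matrix with ones on the diagonal matches the values on edges, then some rational such positive semidefinite matrix also matches them. -/
theorem result :
    ¬ (∀ (n : ℕ) (G : SimpleGraph (Fin n)) (x : Fin n → Fin n → ℚ),
      (∃ X : Matrix (Fin n) (Fin n) ℝ, X.PosSemidef ∧ (∀ i, X i i = 1) ∧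
          ∀ i j, G.Adj i j → X i j = (x i j : ℝ)) →
      ∃ Y : Matrix (Fin n) (Fin n) ℚ,
        (Y.map (fun q : ℚ => (q : ℝ))).PosSemidef ∧ (∀ i, Y i i = 1) ∧
          ∀ i j, G.Adj i j → Y i j = x i j) := by
  intro h
  obtain ⟨Y, h1, h2, h3⟩ := h 10 H12.PsdIrr.G H12.PsdIrr.x H12.PsdIrr.real_completion
  exact H12.PsdIrr.no_rational Y h1 h2 h3

end Pool.Agent.S11842
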