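import Pool.Statements.S11866
import Pool.Agent.H7.Bicycle

set_option autoImplicit false
open Classical
open Pool Pool.MP_dcf9ac_co

namespace Pool.Agent.S11866

/-- The negation of the preceding statement: For r ≥ 2 and k ≥ 3, the least 2-density among graphs on k(r-1) vertices with no independent set of size r is exactly (k+1)/2: every such graph has 2-density at least this, and some such graph attains it. -/
theorem result :
    ¬ (∀ r k : ℕ, 2 ≤ r → 3 ≤ k →
      (∀ G : SimpleGraph (Fin (k * (r - 1))), Gᶜ.CliqueFree r →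
        ∃ S : Finset (Fin (k * (r - 1))), 3 ≤ S.card ∧
          ((k : ℝ) + 1) / 2 ≤
            ((((Finset.univ.filter (fun p : Fin (k * (r - 1)) × Fin (k * (r - 1)) =>
                p.1 ∈ S ∧ p.2 ∈ S ∧ G.Adj p.1 p.2)).card : ℝ) / 2 - 1) /
              ((S.card : ℝ) - 2))) ∧
      (∃ G : SimpleGraph (Fin (k * (r - 1))), Gᶜ.CliqueFree r ∧
        ∀ S : Finset (Fin (k * (r - 1))), 3 ≤ S.card →
          ((((Finset.univ.filter (fun p : Fin (k * (r - 1)) × Fin (k * (r - 1)) =>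
                p.1 ∈ S ∧ p.2 ∈ S ∧ G.Adj p.1 p.2)).card : ℝ) / 2 - 1) /
              ((S.card : ℝ) - 2)) ≤ ((k : ℝ) + 1) / 2)) := by
  intro H
  obtain ⟨S, hS, h⟩ := (H 5 3 (by norm_num) (by norm_num)).1 Pool.Agent.H7.Bicycle.G
    Pool.Agent.H7.Bicycle.cf
  have key := (Pool.Agent.H7.Bicycle.main S (Finset.univ.filter
    (fun p : Fin (3 * (5 - 1)) × Fin (3 * (5 - 1)) =>
      p.1 ∈ S ∧ p.2 ∈ S ∧ Pool.Agent.H7.Bicycle.G.Adj p.1 p.2)) (by simp)).1 hS
  have hs : (3 : ℝ) ≤ (S.card : ℝ) := by exact_mod_cast hS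
  rw [le_div_iff₀ (by linarith)] at h
  have key' : ((Finset.univ.filter
    (fun p : Fin (3 * (5 - 1)) × Fin (3 * (5 - 1)) =>
      p.1 ∈ S ∧ p.2 ∈ S ∧ Pool.Agent.H7.Bicycle.G.Adj p.1 p.2)).card : ℝ) + 6 < 4 * (S.card : ℝ) := by
    exact_mod_cast key
  push_cast at h
  linarith

end Pool.Agent.S11866
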