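import Pool.Statements.S11888

set_option autoImplicit false
open Pool Pool.MP_dd77b8_co

namespace Pool.Agent.S11888

lemma num (d : ℝ) (hd : 15 ≤ d) : 2 * d < Real.exp (d ^ ((4 : ℝ) / 5)) := by
  set x := d ^ ((4 : ℝ) / 5) with hx
  have hd0 : 0 < d := by linarith
  have hx0 : 0 < x := Real.rpow_pos_of_pos hd0 _
  have h5 : x ^ 5 = d ^ 4 := by
    rw [hx, ← Real.rpow_natCast, ← Real.rpow_mul hd0.le, ← Real.rpow_natCast]
    norm_num
  have h2 : 4 * d ≤ x ^ 2 := by
    by_contra h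
    push Not at h
    have h3 : (x ^ 2) ^ 5 < (4 * d) ^ 5 := pow_lt_pow_left₀ h (by positivity) (by norm_num)
    have h4 : (x ^ 2) ^ 5 = d ^ 5 * d ^ 3 := by
      calc (x ^ 2) ^ 5 = (x ^ 5) ^ 2 := by ring
        _ = d ^ 5 * d ^ 3 := by rw [h5]; ring
    have h6 : (15 : ℝ) ^ 3 ≤ d ^ 3 := pow_le_pow_left₀ (by norm_num) hd 3
    have h7 : 0 < d ^ 5 := by positivity
    rw [h4] at h3
    nlinarith
  have := Real.quadratic_le_exp_of_nonneg hx0.le
  linarith

lemma piece {ι : Type} [Fintype ι] (X : Set (EuclideanSpace ℝ ι)) (hX : ∀ f ∈ X, ‖f‖ = 1)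
    (T : ι) (s δ : ℝ) (hs : s ^ 2 = 1) (hδ : 0 < δ) (hδ1 : δ ≤ 1) :
    Metric.diam (X ∩ {f | δ ≤ s * f T}) < 2 := by
  have : Metric.diam (X ∩ {f | δ ≤ s * f T}) ≤ 2 - δ ^ 2 := by
    apply Metric.diam_le_of_forall_dist_le (by nlinarith)
    rintro f ⟨hf, hf'⟩ h ⟨hh, hh'⟩
    simp only [Set.mem_ofPred_eq] at hf' hh'
    have h1 := parallelogram_law_with_norm ℝ f h
    rw [hX f hf, hX h hh] at h1
    have h2 : ‖(f + h) T‖ ≤ ‖f + h‖ := PiLp.norm_apply_le (f + h) T
    have h3 : ((f + h) T) ^ 2 ≤ ‖f + h‖ ^ 2 := by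
      rw [← sq_abs]
      exact pow_le_pow_left₀ (abs_nonneg _) h2 2
    have h4 : (f + h) T = f T + h T := rfl
    have h5 : (2 * δ) ^ 2 ≤ (s * (f T + h T)) ^ 2 :=
      pow_le_pow_left₀ (by positivity) (by linarith) 2
    rw [mul_pow s, hs, one_mul, ← h4] at h5
    rw [dist_eq_norm]
    have h6 : ‖f - h‖ ^ 2 ≤ (2 - δ ^ 2) ^ 2 := by nlinarith [sq_nonneg (δ ^ 2)]
    exact (abs_le_of_sq_le_sq' h6 (by nlinarith)).2
  nlinarith

lemma cover {ι : Type} [Fintype ι] (f : EuclideanSpace ℝ ι) (hf : ‖f‖ = 1) :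
    ∃ T : ι, 1 / (Fintype.card ι : ℝ) ≤ |f T| := by
  by_contra h
  push Not at h
  have h1 : ∑ T, |f T| ^ 2 = 1 := by
    have := EuclideanSpace.norm_sq_eq f
    rw [hf] at this
    simpa using this.symm
  have hne : Nonempty ι := by
    by_contra h0
    rw [not_nonempty_iff] at h0
    simp at h1
  have hc : (1 : ℝ) ≤ Fintype.card ι := by exact_mod_cast Fintype.card_pos
  have h2 : ∑ T, |f T| ^ 2 < ∑ _T : ι, 1 / (Fintype.card ι : ℝ) := by
    apply Finset.sum_lt_sum_of_nonempty Finset.univ_nonempty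
    intro T _
    have a1 := h T
    have a2 : 1 / (Fintype.card ι : ℝ) ≤ 1 := by
      rw [div_le_one (by linarith)]; exact hc
    have a3 := abs_nonneg (f T)
    nlinarith
  rw [h1, Finset.sum_const, Finset.card_univ, nsmul_eq_mul, mul_one_div_cancel (by linarith)] at h2
  exact lt_irrefl _ h2

lemma single_mem {n : ℕ} (T0 : {T : Finset (Fin n) // T.card = 4}) (σ : ℝ) :
    ∃ g : Finset (Fin n) → ℝ, EuclideanSpace.single T0 σ =
      WithLp.toLp 2 (fun T : {T : Finset (Fin n) // T.card = 4} =>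
        ∏ S ∈ T.1.powersetCard 3, g S) := by
  classical
  obtain ⟨S0, hS0, hc⟩ := Finset.exists_subset_card_eq (s := T0.1) (n := 3) (by rw [T0.2]; norm_num)
  refine ⟨fun S => if S ⊆ T0.1 then (if S = S0 then σ else 1) else 0, ?_⟩
  ext T
  by_cases hT : T = T0
  · subst hT
    have : ∏ S ∈ T.1.powersetCard 3, (if S ⊆ T.1 then (if S = S0 then σ else 1) else 0) =
        ∏ S ∈ T.1.powersetCard 3, (if S = S0 then σ else 1) := by
      apply Finset.prod_congr rfl
      intro S hS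
      rw [if_pos (Finset.mem_powersetCard.mp hS).1]
    simp only [this, Finset.prod_ite_eq', Finset.mem_powersetCard, hS0, hc]
    simp
  · have hns : ¬ T.1 ⊆ T0.1 := fun h =>
      hT (Subtype.ext (Finset.eq_of_subset_of_card_le h (by rw [T.2, T0.2])))
    obtain ⟨x, hx, hx0⟩ := Finset.not_subset.mp hns
    obtain ⟨S, h1, h2, h3⟩ := Finset.exists_subsuperset_card_eq (s := {x}) (t := T.1) (n := 3)
      (by simpa using hx) (by simp) (by rw [T.2]; norm_num)
    have : ∏ S ∈ T.1.powersetCard 3, (if S ⊆ T0.1 then (if S = S0 then σ else 1) else 0) = 0 := by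
      apply Finset.prod_eq_zero (i := S) (Finset.mem_powersetCard.mpr ⟨h2, h3⟩)
      rw [if_neg (fun h => hx0 (h (h1 (Finset.mem_singleton_self x))))]
    simp only [this]
    simp [hT]

/-- The negation of the preceding statement: For all large n, any way of writing the unit-norm vectors f_g of U_{4,n} in R^{C(n,4)} as a union of m sets, each of diameter below that of the whole set, needs m ≥ exp(C(n,4)^{4/5}). -/
theorem result :
    ¬ (∃ N : ℕ, ∀ n : ℕ, N ≤ n →
      ∀ X : Set (EuclideanSpace ℝ {T : Finset (Fin n) // T.card = 4}),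
        X = {f | ∃ g : Finset (Fin n) → ℝ,
              f = WithLp.toLp 2 (fun T : {T : Finset (Fin n) // T.card = 4} =>
                    ∏ S ∈ T.1.powersetCard 3, g S) ∧ ‖f‖ = 1} →
        ∀ m : ℕ, ∀ A : Fin m → Set (EuclideanSpace ℝ {T : Finset (Fin n) // T.card = 4}),
          (⋃ i, A i) = X →
          (∀ i, Metric.diam (A i) < Metric.diam X) →
          Real.exp (((n.choose 4 : ℕ) : ℝ) ^ ((4 : ℝ) / 5)) ≤ (m : ℝ)) := by
  rintro ⟨N, hN⟩
  obtain ⟨n, hn, hn6⟩ : ∃ n, N ≤ n ∧ 6 ≤ n := ⟨N + 6, by omega, by omega⟩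
  obtain ⟨X, hX⟩ : ∃ X : Set (EuclideanSpace ℝ {T : Finset (Fin n) // T.card = 4}),
      X = {f | ∃ g : Finset (Fin n) → ℝ,
              f = WithLp.toLp 2 (fun T : {T : Finset (Fin n) // T.card = 4} =>
                    ∏ S ∈ T.1.powersetCard 3, g S) ∧ ‖f‖ = 1} := ⟨_, rfl⟩
  have hcard : Fintype.card {T : Finset (Fin n) // T.card = 4} = n.choose 4 := by
    simp
  have h15 : 15 ≤ n.choose 4 := le_trans (by decide) (Nat.choose_le_choose 4 hn6)
  have h15' : (15 : ℝ) ≤ (n.choose 4 : ℕ) := by exact_mod_cast h15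
  have hnorm : ∀ f ∈ X, ‖f‖ = 1 := by
    intro f hf
    rw [hX] at hf
    obtain ⟨g, -, h⟩ := hf
    exact h
  obtain ⟨T0⟩ : Nonempty {T : Finset (Fin n) // T.card = 4} :=
    Fintype.card_pos_iff.mp (by omega)
  have hsing : ∀ σ : ℝ, |σ| = 1 → EuclideanSpace.single T0 σ ∈ X := by
    intro σ hσ
    obtain ⟨g, hg⟩ := single_mem T0 σ
    rw [hX]
    exact ⟨g, hg, by simp [hσ]⟩
  have hb : Bornology.IsBounded X := by
    refine (Metric.isBounded_closedBall (x := 0) (r := 1)).subset fun f hf => ?_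
    simp [hnorm f hf]
  have hdiam : 2 ≤ Metric.diam X := by
    have := Metric.dist_le_diam_of_mem hb (hsing 1 (by simp)) (hsing (-1) (by simp))
    rw [EuclideanSpace.dist_single_same] at this
    norm_num [Real.dist_eq] at this
    exact this
  let e := (Fintype.equivFin ({T : Finset (Fin n) // T.card = 4} × Bool)).symm
  set δ : ℝ := 1 / (Fintype.card {T : Finset (Fin n) // T.card = 4} : ℝ) with hδ
  have hδ0 : 0 < δ := by rw [hδ, hcard]; positivity
  have hδ1 : δ ≤ 1 := by rw [hδ, hcard, div_le_one (by linarith)]; linarith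
  have key := hN n hn X hX _
    (fun i => X ∩ {f | δ ≤ (if (e i).2 then (1 : ℝ) else -1) * f (e i).1}) ?_ ?_
  · have := num _ h15'
    rw [Fintype.card_prod, hcard, Fintype.card_bool] at key
    push_cast at key
    linarith
  · apply Set.Subset.antisymm
    · exact Set.iUnion_subset fun i => Set.inter_subset_left
    · intro f hf
      obtain ⟨T, hT⟩ := cover f (hnorm f hf)
      rw [Set.mem_iUnion]
      rw [← hδ] at hT
      clear_value δ
      rcases le_abs.mp hT with h | h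
      · exact ⟨e.symm (T, true), hf, by simpa using h⟩
      · exact ⟨e.symm (T, false), hf, by simpa using h⟩
  · intro i
    refine lt_of_lt_of_le (piece X hnorm _ _ δ ?_ hδ0 hδ1) hdiam
    split_ifs <;> norm_num

end Pool.Agent.S11888
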