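import Pool.Statements.S11898
-- import your own Pool.Agent.* helpers here

set_option autoImplicit false
open Pool Pool.MP_ddc6c3_co

namespace Pool.Agent.S11898

abbrev E4 := EuclideanSpace ℝ (Fin 4)

/-- the six facet functionals of a product of two triangles -/
def f (i : Fin 6) (x : E4) : ℝ :=
  ![x 0, x 1, 1 - x 0 - x 1, x 2, x 3, 1 - x 2 - x 3] i

def KK (a : Fin 6) : Set E4 := {x | ∀ b, b ≠ a → 0 ≤ f b x}

def K0 : Set E4 := {x | ∀ b, 0 ≤ f b x}

noncomputable def p (a : Fin 6) : E4 :=
  ![!₂[-3, 2, 1/3, 1/3], !₂[2, -3, 1/3, 1/3], !₂[2, 2, 1/3, 1/3],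
    !₂[1/3, 1/3, -3, 2], !₂[1/3, 1/3, 2, -3], !₂[1/3, 1/3, 2, 2]] a

theorem f_cont (i : Fin 6) : Continuous (f i) := by
  fin_cases i <;> unfold f <;> simp <;> fun_prop

theorem f_comb (i : Fin 6) (x y : E4) (s t : ℝ) (h : s + t = 1) :
    f i (s • x + t • y) = s * f i x + t * f i y := by
  fin_cases i <;> simp [f] <;> linear_combination (-1 : ℝ) * h

theorem f_p (a b : Fin 6) : (b = a → f b (p a) = -3) ∧ (b ≠ a → 0 ≤ f b (p a) ∧ f b (p a) ≤ 2) := by
  fin_cases a <;> fin_cases b <;> simp [f, p] <;> norm_num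

theorem inter_eq : (⋂ b, KK b) = K0 := by
  ext x
  simp only [Set.mem_iInter, KK, K0, Set.mem_setOf_eq]
  constructor
  · intro h b
    exact h (b + 1) b (by fin_cases b <;> decide)
  · intro h a b _
    exact h b

theorem KK_closed (a : Fin 6) : IsClosed (KK a) := by
  have : KK a = ⋂ b, ⋂ (_ : b ≠ a), {x | 0 ≤ f b x} := by ext x; simp [KK]
  rw [this]
  exact isClosed_iInter fun b => isClosed_iInter fun _ => isClosed_le continuous_const (f_cont b)

theorem KK_convex (a : Fin 6) : Convex ℝ (KK a) := by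
  intro x hx y hy s t hs ht h b hb
  rw [f_comb b x y s t h]
  exact add_nonneg (mul_nonneg hs (hx b hb)) (mul_nonneg ht (hy b hb))

theorem p_mem (a : Fin 6) : p a ∈ KK a := fun b hb => ((f_p a b).2 hb).1

theorem p_not (a : Fin 6) : p a ∉ K0 := fun h => by
  have := h a
  rw [(f_p a a).1 rfl] at this
  norm_num at this

/-- The negation of the preceding statement: Consider closed convex sets in R^d whose common intersection is a convex body strictly inside each one, and let n ≥ 2 be least such that any n of them intersect in that body. Then their union is a union of at most (d+1)(n-1) closed convex sets. -/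
theorem result :
    ¬ (∀ (d n : ℕ) (I : Type) (K : I → Set (EuclideanSpace ℝ (Fin d))),
      (∀ α, IsClosed (K α) ∧ Convex ℝ (K α)) →
      IsCompact (⋂ β, K β) →
      Convex ℝ (⋂ β, K β) →
      (interior (⋂ β, K β)).Nonempty →
      (∀ α, (⋂ β, K β) ⊂ K α) →
      2 ≤ n →
      (∀ S : Finset I, S.card = n → (⋂ α ∈ S, K α) = ⋂ β, K β) →
      (∀ m : ℕ, (∀ S : Finset I, S.card = m → (⋂ α ∈ S, K α) = ⋂ β, K β) → n ≤ m) →
      ∃ C : Fin ((d + 1) * (n - 1)) → Set (EuclideanSpace ℝ (Fin d)),
        (∀ i, IsClosed (C i) ∧ Convex ℝ (C i)) ∧ (⋃ i, C i) = ⋃ α, K α) := by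
  intro H
  have hsub : ∀ a, K0 ⊆ KK a := fun a x hx b _ => hx b
  obtain ⟨C, hC, hU⟩ := H 4 2 (Fin 6) KK (fun a => ⟨KK_closed a, KK_convex a⟩)
    (by
      apply Metric.isCompact_of_isClosed_isBounded (isClosed_iInter KK_closed)
      rw [inter_eq]
      refine (Metric.isBounded_closedBall (x := (0 : E4)) (r := 2)).subset ?_
      intro x hx
      have h0 := hx 0
      have h1 := hx 1
      have h2 := hx 2
      have h3 := hx 3
      have h4 := hx 4
      have h5 := hx 5
      simp [f] at h0 h1 h2 h3 h4 h5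
      rw [mem_closedBall_zero_iff, EuclideanSpace.norm_eq, Fin.sum_univ_four]
      apply Real.sqrt_le_iff.mpr
      simp only [Real.norm_eq_abs, sq_abs]
      constructor
      · norm_num
      · nlinarith)
    (convex_iInter KK_convex)
    (by
      rw [inter_eq]
      refine ⟨!₂[1/3, 1/3, 1/3, 1/3], mem_interior_iff_mem_nhds.mpr ?_⟩
      have : K0 = ⋂ b, {x | 0 ≤ f b x} := by ext x; simp [K0]
      rw [this, Filter.iInter_mem]
      intro b
      have h0 : 0 < f b !₂[1/3, 1/3, 1/3, 1/3] := by
        fin_cases b <;> simp [f] <;> norm_num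
      exact Filter.mem_of_superset ((isOpen_lt continuous_const (f_cont b)).mem_nhds h0)
        fun x hx => (le_of_lt (show 0 < f b x from hx) : 0 ≤ f b x))
    (by
      intro a
      rw [inter_eq]
      exact ⟨hsub a, fun h => p_not a (h (p_mem a))⟩)
    le_rfl
    (by
      intro S hS
      obtain ⟨a, b, hab, rfl⟩ := Finset.card_eq_two.mp hS
      rw [inter_eq]
      ext x
      simp only [Finset.mem_insert, Finset.mem_singleton, Set.mem_iInter]
      constructor
      · intro h c
        by_cases hc : c = a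
        · exact h b (Or.inr rfl) c (hc ▸ hab)
        · exact h a (Or.inl rfl) c hc
      · intro h c _
        exact hsub c h)
    (by
      intro m hm
      by_contra hlt
      have : m = 0 ∨ m = 1 := by omega
      rcases this with rfl | rfl
      · have := hm ∅ rfl
        rw [inter_eq] at this
        apply p_not 0
        rw [← this]; simp
      · have := hm {0} rfl
        rw [inter_eq] at this
        apply p_not 0
        rw [← this]; simpa using p_mem 0)
  have hp : ∀ a, ∃ i, p a ∈ C i := fun a =>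
    Set.mem_iUnion.mp (by rw [hU]; exact Set.mem_iUnion.mpr ⟨a, p_mem a⟩)
  choose g hg using hp
  obtain ⟨a, b, hab, hg'⟩ := Fintype.exists_ne_map_eq_of_card_lt g (by simp)
  have hm : (1 / 2 : ℝ) • p a + (1 / 2 : ℝ) • p b ∈ C (g a) :=
    (hC _).2 (hg a) (hg' ▸ hg b) (by norm_num) (by norm_num) (by norm_num)
  have : (1 / 2 : ℝ) • p a + (1 / 2 : ℝ) • p b ∈ ⋃ α, KK α := by
    rw [← hU]; exact Set.mem_iUnion.mpr ⟨_, hm⟩
  obtain ⟨c, hc⟩ := Set.mem_iUnion.mp this
  by_cases hca : a = c
  · have h1 := hc b (fun h => hab (hca.trans h.symm))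
    rw [f_comb b _ _ _ _ (by norm_num), (f_p b b).1 rfl] at h1
    have := ((f_p a b).2 hab.symm).2
    linarith
  · have h1 := hc a hca
    rw [f_comb a _ _ _ _ (by norm_num), (f_p a a).1 rfl] at h1
    have := ((f_p b a).2 hab).2
    linarith

end Pool.Agent.S11898
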