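import Pool.Statements.S11929
import Pool.Agent.H10.QU2
-- import your own Pool.Agent.* helpers here

set_option autoImplicit false
open Pool Pool.MP_debf2a_co

namespace Pool.Agent.S11929

open Pool.Agent.H10.QU

/-- There is a quaternion matrix D, each of whose invertible square submatrices has Study determinant 1, such that the matroid of [I ∣ D] has, over no field, a matrix with the same invertible maximal column subsets. -/
theorem result :
    ∃ (r m : ℕ) (D : Matrix (Fin r) (Fin m) (Quaternion ℝ)),
      (∀ (k : ℕ) (g : Fin k → Fin r) (h : Fin k → Fin m),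
        IsUnit (D.submatrix g h) →
          (Matrix.of fun (p q : Fin k × Fin 2) =>
            (fun x : Quaternion ℝ =>
              !![Complex.mk x.re x.imI, Complex.mk x.imJ x.imK;
                 Complex.mk (-x.imJ) x.imK, Complex.mk x.re (-x.imI)])
              (D (g p.1) (h q.1)) p.2 q.2).det = 1) ∧
      ∀ (F : Type) [Field F], ¬ ∃ E : Matrix (Fin r) (Fin r ⊕ Fin m) F,
        ∀ f : Fin r → Fin r ⊕ Fin m,
          (IsUnit ((Matrix.fromCols (1 : Matrix (Fin r) (Fin r) (Quaternion ℝ)) D).submatrix id f)
            ↔ IsUnit (E.submatrix id f)) := by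
  let eR := (Fintype.equivFin RR).symm
  let eC := (Fintype.equivFin CC).symm
  refine ⟨_, _, (D0 fun _ => G0).submatrix eR eC, ?_, ?_⟩
  · intro k g h hu
    exact (good_D0 k (eR ∘ g) (eC ∘ h) fun _ => Set.mem_univ _).resolve_left (S_ne _ hu)
  · rintro F _ ⟨E, hE⟩
    have h1 : IsUnit (E.submatrix id Sum.inl) := by
      rw [← hE]
      have : (Matrix.fromCols (1 : Matrix (Fin (Fintype.card RR)) (Fin (Fintype.card RR)) (Quaternion ℝ))
          ((D0 fun _ => G0).submatrix eR eC)).submatrix id Sum.inl = 1 := by
        ext1 i j; rfl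
      rw [this]; exact isUnit_one
    obtain ⟨u, hu⟩ := h1
    let D' := (u⁻¹).1 * E.submatrix id Sum.inr
    have h2 : E = u.1 * Matrix.fromCols 1 D' := by
      rw [Matrix.mul_fromCols, Matrix.mul_one, ← Matrix.mul_assoc, Units.mul_inv, Matrix.one_mul,
        hu]
      ext i (j | j) <;> rfl
    refine no_field (D'.submatrix eR.symm eC.symm) ?_
    intro k g h hg
    have hg' : Function.Injective (eR.symm ∘ g) := eR.symm.injective.comp hg
    have h3 := hE (sel (eR.symm ∘ g) (eC.symm ∘ h))
    rw [unit_sel _ _ hg'] at h3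
    have h4 : E.submatrix id (sel (eR.symm ∘ g) (eC.symm ∘ h)) =
        u.1 * (Matrix.fromCols 1 D').submatrix id (sel (eR.symm ∘ g) (eC.symm ∘ h)) := by
      conv_lhs => rw [h2]
      rfl
    rw [h4, Units.isUnit_units_mul, unit_sel _ _ hg', Matrix.isUnit_iff_isUnit_det,
      isUnit_iff_ne_zero] at h3
    have h5 : ((D0 fun _ => G0).submatrix eR eC).submatrix (eR.symm ∘ g) (eC.symm ∘ h) =
        (D0 fun _ => G0).submatrix g h := by
      ext1 i j; simp
    rw [h5] at h3
    exact h3

end Pool.Agent.S11929
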