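import Pool.Statements.S11952
import Pool.Agent.H7.Klein

set_option autoImplicit false
open Pool Pool.MP_dfb409_co

namespace Pool.Agent.S11952

/-- The negation of the preceding statement: Every finite K4-free graph that is not 3-colorable has distinct vertices x,y and two 3-colorable subgraphs containing x,y but not edge xy, one where every 3-coloring separates x,y and one where every 3-coloring equates them. -/
theorem result :
    ¬ (∀ (V : Type) [Fintype V] (G : SimpleGraph V),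
      G.CliqueFree 4 → ¬ G.Colorable 3 →
      ∃ x y : V, x ≠ y ∧
        ∃ G₁ G₂ : G.Subgraph,
        ∃ hx₁ : x ∈ G₁.verts, ∃ hy₁ : y ∈ G₁.verts,
        ∃ hx₂ : x ∈ G₂.verts, ∃ hy₂ : y ∈ G₂.verts,
          ¬ G₁.Adj x y ∧ ¬ G₂.Adj x y ∧
          G₁.coe.Colorable 3 ∧ G₂.coe.Colorable 3 ∧
          (∀ c : G₁.coe.Coloring (Fin 3), c ⟨x, hx₁⟩ ≠ c ⟨y, hy₁⟩) ∧
          (∀ c : G₂.coe.Coloring (Fin 3), c ⟨x, hx₂⟩ = c ⟨y, hy₂⟩)) := by
  intro h
  obtain ⟨x, y, hxy, G₁, G₂, hx₁, hy₁, hx₂, hy₂, n1, -, c1, c2, f1, f2⟩ :=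
    h (Fin 42) H7.Klein.G H7.Klein.cf4 H7.Klein.nc
  rcases lt_or_gt_of_ne hxy with l | l
  · exact H7.Klein.main x y l G₁ G₂ hx₁ hy₁ hx₂ hy₂ n1 c1 c2 f1 f2
  · exact H7.Klein.main y x l G₁ G₂ hy₁ hx₁ hy₂ hx₂ (fun h => n1 h.symm) c1 c2
      (fun c => (f1 c).symm) (fun c => (f2 c).symm)

end Pool.Agent.S11952
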