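import Pool.Statements.S11974
import Pool.Agent.H5.SignRank

set_option autoImplicit false
open Pool Pool.MP_e09a39_co

namespace Pool.Agent.S11974

open Pool.Agent.H5.SignRank in
theorem result :
    ¬ (∀ (m n : ℕ) (A : Matrix (Fin m) (Fin n) SignType),
      (∀ j : Fin n, (Finset.univ.filter (fun i : Fin m => A i j = 0)).card ≤ 3) →
      (∃ B : Matrix (Fin m) (Fin n) ℝ,
          (∀ i j, SignType.sign (B i j) = A i j) ∧ B.rank = 3) →
      (∀ B : Matrix (Fin m) (Fin n) ℝ,
          (∀ i j, SignType.sign (B i j) = A i j) → 3 ≤ B.rank) →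
      ∃ Q : Matrix (Fin m) (Fin n) ℚ,
        (∀ i j, SignType.sign (Q i j) = A i j) ∧ Q.rank = 3) := by
  intro h
  exact rat_not (h 10 12 A A_cols real_ex real_ge)

end Pool.Agent.S11974
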