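import Pool.Statements.S12030
import Pool.Agent.H14.Coset

set_option autoImplicit false
open Pool Pool.MP_e2957e_co

namespace Pool.Agent.S12030

/-- The negation of the preceding statement: There is an absolute C₁>0 such that any A⊂S_n of size c(n−1)! whose transposition-graph edge boundary is at most ∣A∣(n!−∣A∣)/(n−1)!+δn∣A∣ lies within symmetric difference C₁cδ(n−1)! of a union of c distinct 1-cosets {σ: σ(i)=j}. -/
theorem result :
    ¬ (∃ C₁ : ℝ, 0 < C₁ ∧
      ∀ (n : ℕ), 1 ≤ n →
      ∀ (c : ℕ) (δ : ℝ), 0 ≤ δ →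
      ∀ A : Finset (Equiv.Perm (Fin n)),
        A.card = c * Nat.factorial (n - 1) →
        ((((A ×ˢ (Finset.univ.filter (fun p : Fin n × Fin n => p.1 < p.2))).filter
            (fun x => x.1 * Equiv.swap x.2.1 x.2.2 ∉ A)).card : ℕ) : ℝ)
          ≤ (A.card : ℝ) * ((Nat.factorial n : ℝ) - (A.card : ℝ)) / (Nat.factorial (n - 1) : ℝ)
            + δ * (n : ℝ) * (A.card : ℝ) →
        ∃ P : Finset (Fin n × Fin n), P.card = c ∧
          ((symmDiff A (Finset.univ.filter (fun σ : Equiv.Perm (Fin n) => ∃ p ∈ P, σ p.1 = p.2))).card : ℝ)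
            ≤ C₁ * (c : ℝ) * δ * (Nat.factorial (n - 1) : ℝ)) := by
  rintro ⟨C, hC, H⟩
  obtain ⟨m, hm⟩ := exists_nat_gt (4 * C)
  obtain ⟨k, hk⟩ : ∃ k, k = 2 * m + 1 := ⟨_, rfl⟩
  have f0 : (0 : ℝ) < k.factorial := by positivity
  have f1 : ((k + 1).factorial : ℝ) = (k + 1) * k.factorial := by simp [Nat.factorial_succ]
  have f2 : ((k + 2).factorial : ℝ) = (k + 2) * ((k + 1) * k.factorial) := by
    rw [Nat.factorial_succ, Nat.cast_mul, f1]; push_cast; ring
  have f3 : ((k + 3).factorial : ℝ) = (k + 3) * (k + 2).factorial := by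
    rw [Nat.factorial_succ]; push_cast; ring
  obtain ⟨P, hP, h⟩ := H (k + 3) (by omega) (k + 1) (2 / ((k + 3) * (k + 1))) (by positivity) _
    (H14.Coset.cardA k) (by
      refine (Nat.cast_le.2 (H14.Coset.bdry k)).trans_eq ?_
      rw [H14.Coset.cardA, show k + 3 - 1 = k + 2 from rfl]
      push_cast
      rw [f3]
      field_simp
      ring)
  have key : ∀ u : Fin (k + 3), (∀ σ : Equiv.Perm (Fin (k + 3)), σ u = u → H14.Coset.bad σ) →
      (P.filter fun p => u ≠ p.1 ∧ u ≠ p.2).card < m := by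
    intro u hu
    by_contra hc
    obtain ⟨Q, hQ, hq⟩ := Finset.exists_subset_card_eq (not_lt.1 hc)
    have l := H14.Coset.low u Q fun p hp => (Finset.mem_filter.1 (hQ hp)).2
    rw [hq, show k + 3 - 2 = k + 1 from rfl, show k + 3 - 3 = k from rfl] at l
    have l' := (Int.cast_le (R := ℝ)).2 l
    push_cast at l'
    have := l'.trans ((Nat.cast_le.2 (Finset.card_le_card fun σ hσ => ?_)).trans h)
    · rw [show k + 3 - 1 = k + 2 from rfl, f1, f2] at this
      have e : C * ((k + 1 : ℕ) : ℝ) * (2 / ((k + 3) * (k + 1))) * ((k + 2) * ((k + 1) * k.factorial)) ≤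
          2 * C * ((k + 1) * k.factorial) := by
        push_cast
        rw [← sub_nonneg]
        have : 2 * C * ((k + 1) * k.factorial) - C * ((k : ℝ) + 1) * (2 / ((k + 3) * (k + 1))) *
          ((k + 2) * ((k + 1) * k.factorial)) = 2 * C * ((k + 1) * k.factorial) / (k + 3) := by
          field_simp; ring
        rw [this]; positivity
      have hk' : (k : ℝ) = 2 * m + 1 := by exact_mod_cast hk
      have := this.trans e
      rw [hk'] at this
      have m0 : (0 : ℝ) ≤ m := by positivity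
      nlinarith [mul_pos (mul_pos (sub_pos.2 hm) f0) (show (0 : ℝ) < m + 1 by positivity),
        mul_nonneg m0 f0.le]
    · obtain ⟨h1, p, hp, h2⟩ := (Finset.mem_filter.1 hσ).2
      simp only [Finset.mem_symmDiff, Finset.mem_filter, Finset.mem_univ, true_and, not_not]
      exact Or.inr ⟨⟨p, (Finset.mem_filter.1 (hQ hp)).1, h2⟩, hu σ h1⟩
  have k0 := key 0 fun σ h => Or.inl h
  have k1 := key 1 fun σ h => Or.inr (Or.inl h)
  have : P ⊆ (P.filter fun p => 0 ≠ p.1 ∧ 0 ≠ p.2) ∪ (P.filter fun p => 1 ≠ p.1 ∧ 1 ≠ p.2) ∪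
      {(0, 1), (1, 0)} := by
    rintro ⟨i, j⟩ hp
    have := H14.Coset.n01 (k := k)
    simp only [Finset.mem_union, Finset.mem_filter, hp, true_and, Finset.mem_insert,
      Finset.mem_singleton, Prod.mk.injEq]
    grind
  have := (Finset.card_le_card this).trans ((Finset.card_union_le _ _).trans
    (add_le_add (Finset.card_union_le _ _) Finset.card_le_two))
  omega

end Pool.Agent.S12030
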