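import Pool.Statements.S12052
import Pool.Agent.H10.Dowl
-- import your own Pool.Agent.* helpers here

set_option autoImplicit false
open Pool Pool.MP_e385a0_co

namespace Pool.Agent.S12052

open Pool.Agent.H10.Dowl

/-- The negation of the preceding statement: If a finite matroid embeds in the rank-r Dowling geometry over some infinite group, encoded as a gain-graph frame matroid, then it also embeds in the rank-r Dowling geometry over some finite group. -/
theorem result :
    ¬ (∀ (n r : ℕ) (M : Matroid (Fin n)) (A : Type) [Group A], Infinite A →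
      (∃ f : Fin n → Fin r ⊕ (A × {p : Fin r × Fin r // p.1 < p.2}),
        Set.InjOn f M.E ∧
        ∀ X ⊆ M.E, (M.Indep X ↔
          ∀ T : Finset (Fin r ⊕ (A × {p : Fin r × Fin r // p.1 < p.2})),
            (↑T ⊆ f '' X) → T.Nonempty →
              (T.card ≤ (T.biUnion (fun e => Sum.elim (fun i => ({i} : Finset (Fin r)))
                  (fun x => ({x.2.1.1, x.2.1.2} : Finset (Fin r))) e)).card ∧
               (((∀ i : Fin r, Sum.inl i ∉ T) ∧
                  ∃ φ : Fin r → A, ∀ x : A × {p : Fin r × Fin r // p.1 < p.2},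
                    Sum.inr x ∈ T → x.1 = φ x.2.1.1 * (φ x.2.1.2)⁻¹) →
                T.card + 1 ≤ (T.biUnion (fun e => Sum.elim (fun i => ({i} : Finset (Fin r)))
                  (fun x => ({x.2.1.1, x.2.1.2} : Finset (Fin r))) e)).card)))) →
      ∃ (A' : Type) (_ : Group A'), Finite A' ∧
        ∃ f : Fin n → Fin r ⊕ (A' × {p : Fin r × Fin r // p.1 < p.2}),
          Set.InjOn f M.E ∧
          ∀ X ⊆ M.E, (M.Indep X ↔
            ∀ T : Finset (Fin r ⊕ (A' × {p : Fin r × Fin r // p.1 < p.2})),
              (↑T ⊆ f '' X) → T.Nonempty →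
                (T.card ≤ (T.biUnion (fun e => Sum.elim (fun i => ({i} : Finset (Fin r)))
                    (fun x => ({x.2.1.1, x.2.1.2} : Finset (Fin r))) e)).card ∧
                 (((∀ i : Fin r, Sum.inl i ∉ T) ∧
                    ∃ φ : Fin r → A', ∀ x : A' × {p : Fin r × Fin r // p.1 < p.2},
                      Sum.inr x ∈ T → x.1 = φ x.2.1.1 * (φ x.2.1.2)⁻¹) →
                  T.card + 1 ≤ (T.biUnion (fun e => Sum.elim (fun i => ({i} : Finset (Fin r)))
                    (fun x => ({x.2.1.1, x.2.1.2} : Finset (Fin r))) e)).card)))) := by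
  classical
  intro H
  have hinf : Infinite (Equiv.Perm X) := by
    refine Infinite.of_injective (fun q : ℚ =>
      (Equiv.prodCongr (Equiv.addRight q) (Equiv.refl _) : Equiv.Perm X)) ?_
    intro q q' h
    have := congrArg (fun e : Equiv.Perm X => (e (0, 0)).1) h
    simpa using this
  set a := pa with ha
  set t := pt with ht
  set b := t * a * t⁻¹ with hb
  let S : Finset (Equiv.Perm X) := {1, a, a * a, a * a * a, t, b, t * a, t * (a * a), a * b, b * a}
  let Y : Finset (E (Equiv.Perm X)) := Finset.univ.image Sum.inl ∪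
    (S ×ˢ Finset.univ).image Sum.inr
  let f : Fin Y.card → E (Equiv.Perm X) := fun i => (Y.equivFin.symm i).1
  have hf : Function.Injective f := fun i j h => Y.equivFin.symm.injective (Subtype.ext h)
  obtain ⟨B, _, _, f', hf', hI⟩ := H Y.card 3 (mat f hf) (Equiv.Perm X) hinf
    ⟨f, hf.injOn, fun X _ => mat_indep f hf X⟩
  let g : E (Equiv.Perm X) → E B := fun e => if h : e ∈ Y then f' (Y.equivFin ⟨e, h⟩) else Sum.inl 0
  have hgf : ∀ i, g (f i) = f' i := by
    intro i
    simp only [g, f]
    rw [dif_pos (Y.equivFin.symm i).2]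
    simp
  have hsurj : ∀ e ∈ Y, ∃ i, f i = e := fun e he => ⟨Y.equivFin ⟨e, he⟩, by simp [f]⟩
  obtain ⟨ψ, hinj, hmul⟩ := emb (S : Set (Equiv.Perm X)) a (by simp [S]) (by simp [S]) pa_ne
    (Y : Set (E (Equiv.Perm X))) (by intro i; simp [Y]) (by
      intro α hα p
      simp only [Y, Finset.coe_union, Finset.coe_image]
      exact Or.inr ⟨(α, p), by simpa using hα, rfl⟩) g
    (by
      intro x hx y hy h
      obtain ⟨i, rfl⟩ := hsurj x hx
      obtain ⟨j, rfl⟩ := hsurj y hy
      rw [hgf, hgf] at h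
      rw [hf' (Set.mem_univ i) (Set.mem_univ j) h])
    (by
      intro Z hZ
      have h1 : Z = f '' (f ⁻¹' Z) := (Set.image_preimage_eq_of_subset (fun e he =>
        hsurj e (hZ he))).symm
      have h2 : g '' Z = f' '' (f ⁻¹' Z) := by
        conv_lhs => rw [h1, Set.image_image]
        simp only [hgf]
      rw [h2]
      conv_lhs => rw [h1]
      rw [← mat_indep f hf]
      exact hI _ (Set.subset_univ _))
  have m1 : a ∈ (S : Set (Equiv.Perm X)) := by simp [S]
  have m2 : a * a ∈ (S : Set (Equiv.Perm X)) := by simp [S]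
  have m3 : a * a * a ∈ (S : Set (Equiv.Perm X)) := by simp [S]
  have m4 : t ∈ (S : Set (Equiv.Perm X)) := by simp [S]
  have m5 : b ∈ (S : Set (Equiv.Perm X)) := by simp [S]
  have m6 : t * a ∈ (S : Set (Equiv.Perm X)) := by simp [S]
  have m7 : t * (a * a) ∈ (S : Set (Equiv.Perm X)) := by simp [S]
  have m8 : a * b ∈ (S : Set (Equiv.Perm X)) := by simp [S]
  have m9 : b * a ∈ (S : Set (Equiv.Perm X)) := by simp [S]
  have r1 : t * (a * a) = a * a * a * t := rel
  have r2 : t * a = b * t := by rw [hb]; group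
  have e1 : ψ t * (ψ a * ψ a) = ψ a * ψ a * ψ a * ψ t := by
    rw [hmul a m1 a m1 m2, hmul t m4 _ m2 m7, hmul _ m2 a m1 m3, hmul _ m3 t m4 (r1 ▸ m7), r1]
  have e2 : ψ b = ψ t * ψ a * (ψ t)⁻¹ := by
    rw [hmul t m4 a m1 m6, r2, ← hmul b m5 t m4 (r2 ▸ m6)]; group
  have e3 := fin_comm _ _ e1
  rw [← e2, hmul a m1 b m5 m8, hmul b m5 a m1 m9] at e3
  exact ncomm (hinj m8 m9 e3)

end Pool.Agent.S12052
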