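import Pool.Statements.S12060
import Pool.Agent.H3.Link2

set_option autoImplicit false
open Pool Pool.MP_e3c312_co

namespace Pool.Agent.S12060
open Pool.Agent.H3.Link

/-- The negation of the preceding statement: For any Γ-symmetric framework in ℝ^d, every expansive motion tracing one half-branch of a neighbourhood of [p] homeomorphic to an interval in the configuration space mod isometries can be moved by continuous isometries so it stays Γ-symmetric. -/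
theorem result :
    ¬ (∀ (d : ℕ) (V : Type) [Fintype V] (G : SimpleGraph V) (p : V → EuclideanSpace ℝ (Fin d))
    (Γ : Subgroup (EuclideanSpace ℝ (Fin d) ≃ᵢ EuclideanSpace ℝ (Fin d))) [Finite Γ]
    (θ : Γ →* Equiv.Perm V),
    (∀ γ : Γ, ∀ u v : V, G.Adj u v ↔ G.Adj (θ γ u) (θ γ v)) →
    (∀ γ : Γ, ∀ i : V,
      (γ : EuclideanSpace ℝ (Fin d) ≃ᵢ EuclideanSpace ℝ (Fin d)) (p i) = p (θ γ i)) →
    ∀ m : ℝ → V → EuclideanSpace ℝ (Fin d),
      ContinuousOn m (Set.Icc 0 1) → m 0 = p →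
      (∀ t ∈ Set.Icc (0:ℝ) 1, ∀ i j : V, G.Adj i j → dist (m t i) (m t j) = dist (p i) (p j)) →
      (∀ i j : V, MonotoneOn (fun t => dist (m t i) (m t j)) (Set.Icc (0:ℝ) 1)) →
      (∃ t ∈ Set.Icc (0:ℝ) 1, ∃ i j : V, dist (m t i) (m t j) ≠ dist (p i) (p j)) →
      Set.InjOn (fun t => Quot.mk (fun q q' : V → EuclideanSpace ℝ (Fin d) =>
          ∃ T : EuclideanSpace ℝ (Fin d) ≃ᵢ EuclideanSpace ℝ (Fin d), ∀ i, T (q i) = q' i) (m t))
        (Set.Icc (0:ℝ) 1) →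
      (∃ O : Set (Quot (fun q q' : V → EuclideanSpace ℝ (Fin d) =>
          ∃ T : EuclideanSpace ℝ (Fin d) ≃ᵢ EuclideanSpace ℝ (Fin d), ∀ i, T (q i) = q' i)),
        IsOpen O ∧
        ∃ h : ↥(O ∩ {x : Quot (fun q q' : V → EuclideanSpace ℝ (Fin d) =>
              ∃ T : EuclideanSpace ℝ (Fin d) ≃ᵢ EuclideanSpace ℝ (Fin d), ∀ i, T (q i) = q' i) |
              ∃ q : V → EuclideanSpace ℝ (Fin d),
                Quot.mk (fun q q' : V → EuclideanSpace ℝ (Fin d) =>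
                  ∃ T : EuclideanSpace ℝ (Fin d) ≃ᵢ EuclideanSpace ℝ (Fin d), ∀ i, T (q i) = q' i) q = x ∧
                ∀ i j : V, G.Adj i j → dist (q i) (q j) = dist (p i) (p j)}) ≃ₜ ↥(Set.Ioo (0:ℝ) 1),
        ∃ a : Set.Ioo (0:ℝ) 1,
          (h.symm a).1 = Quot.mk (fun q q' : V → EuclideanSpace ℝ (Fin d) =>
            ∃ T : EuclideanSpace ℝ (Fin d) ≃ᵢ EuclideanSpace ℝ (Fin d), ∀ i, T (q i) = q' i) p ∧
          ((∀ t ∈ Set.Ioc (0:ℝ) 1, ∃ b : Set.Ioo (0:ℝ) 1,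
              (h.symm b).1 = Quot.mk (fun q q' : V → EuclideanSpace ℝ (Fin d) =>
                ∃ T : EuclideanSpace ℝ (Fin d) ≃ᵢ EuclideanSpace ℝ (Fin d), ∀ i, T (q i) = q' i) (m t) ∧
              (a : ℝ) < (b : ℝ)) ∨
           (∀ t ∈ Set.Ioc (0:ℝ) 1, ∃ b : Set.Ioo (0:ℝ) 1,
              (h.symm b).1 = Quot.mk (fun q q' : V → EuclideanSpace ℝ (Fin d) =>
                ∃ T : EuclideanSpace ℝ (Fin d) ≃ᵢ EuclideanSpace ℝ (Fin d), ∀ i, T (q i) = q' i) (m t) ∧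
              (b : ℝ) < (a : ℝ)))) →
      ∃ T : ℝ → (EuclideanSpace ℝ (Fin d) ≃ᵢ EuclideanSpace ℝ (Fin d)),
        (∀ x, T 0 x = x) ∧
        (∀ x, ContinuousOn (fun t => T t x) (Set.Icc (0:ℝ) 1)) ∧
        ∀ t ∈ Set.Icc (0:ℝ) 1, ∀ γ : Γ, ∀ i : V,
          (γ : EuclideanSpace ℝ (Fin d) ≃ᵢ EuclideanSpace ℝ (Fin d)) (T t (m t i))
            = T t (m t (θ γ i))) := by
  intro H
  let c : ℝ → ℝ := fun t => max 0 (min t 1) / 2
  have hc : ∀ t, |c t| < 1 := by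
    intro t
    have a : 0 ≤ max 0 (min t 1) := le_max_left _ _
    have b : max 0 (min t 1) ≤ 1 := max_le zero_le_one (min_le_right _ _)
    rw [abs_lt]; constructor <;> simp only [c] <;> linarith
  have hc' : ∀ t ∈ Set.Icc (0 : ℝ) 1, c t = t / 2 := by
    intro t ht
    simp only [c]; rw [min_eq_left ht.2, max_eq_right ht.1]
  have h01 : (1 : ℝ) ∈ Set.Icc (0 : ℝ) 1 := ⟨zero_le_one, le_rfl⟩
  have hv : ∀ t ∈ Set.Icc (0 : ℝ) 1, dq 0 2 (Quot.mk _ (cw (c t))) + dq 1 3 (Quot.mk _ (cw (c t))) =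
      18 + t / 2 := by
    intro t ht
    obtain ⟨-, x, y⟩ := cw_ok (hc t)
    rw [x, y, (xy_ok (hc t)).2.2.2.2.2.2, hc' t ht, abs_of_nonneg (by linarith [ht.1])]
  refine Exists.elim (H 2 (Fin 4) G p0 Γ0 θ0 ?_ ?_ (fun t => cw (c t)) ?_ ?_ ?_ ?_ ?_ ?_
    ⟨OO, OO_open, hh, ⟨1 / 2, by norm_num, by norm_num⟩, ?_, Or.inl ?_⟩) (fun T hT' => ?_)
  rotate_right
  · have hT := hT'.2.2
    have a := hT 1 h01 ⟨γ0, Or.inr rfl⟩ 0
    have b := hT 1 h01 ⟨γ0, Or.inr rfl⟩ 2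
    rw [θ0_γ] at a b
    have e : dist (cw (c 1) 0) (cw (c 1) 2) = dist (cw (c 1) 3) (cw (c 1) 1) := by
      rw [← (T 1).dist_eq, ← γ0.dist_eq, ← (T 1).dist_eq (cw (c 1) 3)]
      exact congrArg₂ dist a b
    obtain ⟨-, x, y⟩ := cw_ok (hc 1)
    have : xw (c 1) = yw (c 1) := by
      rw [← x, ← y]
      show dist _ _ ^ 2 = dist _ _ ^ 2
      rw [e, dist_comm]
    have w := (xy_ok (hc 1)).2.2.2.2.2.1
    rw [this, ww, hc' 1 h01] at w
    norm_num at w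
  · rintro ⟨a, rfl | rfl⟩
    · rw [θ0_one]; simp
    · rw [θ0_γ]; decide
  · rintro ⟨a, rfl | rfl⟩ i
    · rw [θ0_one]; simp
    · rw [θ0_γ, p0_eq]
      simp only [γ0_apply]
      fin_cases i <;> apply ext2 <;> simp [Fin.rev]
  · exact (cont_cfg (f := c) (by fun_prop) hc).continuousOn
  · rw [hc' 0 ⟨le_rfl, zero_le_one⟩, zero_div, cw0]
  · intro t _
    exact (ok_iff _).2 (cw_ok (hc t)).1
  · have m : ∀ s ∈ Set.Icc (0 : ℝ) 1, ∀ t ∈ Set.Icc (0 : ℝ) 1, s ≤ t →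
        dist (cw (c s) 0) (cw (c s) 2) ≤ dist (cw (c t) 0) (cw (c t) 2) ∧
        dist (cw (c s) 1) (cw (c s) 3) ≤ dist (cw (c t) 1) (cw (c t) 3) := by
      intro s hs t ht h
      obtain ⟨-, x, y⟩ := cw_ok (hc s)
      obtain ⟨-, x', y'⟩ := cw_ok (hc t)
      have := mono (s := c s) (t := c t) (by rw [hc' s hs]; linarith [hs.1])
        (by rw [hc' s hs, hc' t ht]; linarith) (by rw [hc' t ht]; linarith [ht.2])
      rw [← x, ← y, ← x', ← y'] at this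
      exact ⟨(pow_le_pow_iff_left₀ dist_nonneg dist_nonneg two_ne_zero).1 this.1,
        (pow_le_pow_iff_left₀ dist_nonneg dist_nonneg two_ne_zero).1 this.2⟩
    intro i j s hs t ht h
    by_cases hij : G.Adj i j
    · exact le_of_eq (((ok_iff _).2 (cw_ok (hc s)).1 i j hij).trans
        ((ok_iff _).2 (cw_ok (hc t)).1 i j hij).symm)
    · obtain ⟨m1, m2⟩ := m s hs t ht h
      have m3 := m1
      have m4 := m2
      rw [dist_comm, dist_comm (cw (c t) _)] at m3 m4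
      fin_cases i <;> fin_cases j <;> first
        | exact absurd (by decide) hij | exact m1 | exact m2 | exact m3 | exact m4 | simp
  · by_contra hne
    push Not at hne
    have a := hv 1 h01
    have b := hv 0 ⟨le_rfl, zero_le_one⟩
    rw [hc' 0 ⟨le_rfl, zero_le_one⟩, zero_div, cw0] at b
    have e : dq 0 2 (Quot.mk _ (cw (c 1))) + dq 1 3 (Quot.mk _ (cw (c 1))) =
        dq 0 2 (Quot.mk _ p0) + dq 1 3 (Quot.mk _ p0) := by
      show dist _ _ ^ 2 + dist _ _ ^ 2 = dist _ _ ^ 2 + dist _ _ ^ 2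
      rw [hne 1 h01, hne 1 h01]
    linarith
  · intro s hs t ht h
    have a := hv s hs
    have b := hv t ht
    simp only at h
    rw [h] at a
    linarith
  · show Quot.mk Rel (cw (2 * (1 / 2) - 1)) = _
    rw [← cw0]; norm_num
  · intro t ht
    refine ⟨⟨(t / 2 + 1) / 2, by linarith [ht.1], by linarith [ht.2]⟩, ?_, by
      show (1 / 2 : ℝ) < (t / 2 + 1) / 2
      linarith [ht.1]⟩
    show Quot.mk Rel (cw (2 * ((t / 2 + 1) / 2) - 1)) = Quot.mk Rel (cw (c t))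
    rw [hc' t ⟨ht.1.le, ht.2⟩]
    congr 2; ring

end Pool.Agent.S12060
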