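import Pool.Statements.S12088
import Pool.Agent.H10.VWC

set_option autoImplicit false
open Pool Pool.MP_e4c5f9_co

namespace Pool.Agent.S12088

set_option linter.constructorNameAsVariable false in
/-- The negation of the preceding statement: For every finite graph with no isolated vertices whose maximal independent sets all have size n/2, the counts s_k of independent sets of size k satisfy s_{k-1}·s_{k+1} ≤ s_k² for all k ≥ 1. -/
theorem result :
    ¬ (∀ (V : Type) [Fintype V] (G : SimpleGraph V),
      (∀ v : V, ∃ w : V, G.Adj v w) →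
      (∀ s t : Finset V,
        (G.IsIndepSet (s : Set V) ∧ ∀ v : V, v ∉ s → ¬ G.IsIndepSet (insert v (s : Set V))) →
        (G.IsIndepSet (t : Set V) ∧ ∀ v : V, v ∉ t → ¬ G.IsIndepSet (insert v (t : Set V))) →
        s.card = t.card) →
      (∃ s : Finset V, G.IsIndepSet (s : Set V) ∧
        (∀ v : V, v ∉ s → ¬ G.IsIndepSet (insert v (s : Set V))) ∧
        2 * s.card = Fintype.card V) →
      ∀ k : ℕ, 1 ≤ k →
        {s : Finset V | G.IsIndepSet (s : Set V) ∧ s.card = k - 1}.ncard *
          {s : Finset V | G.IsIndepSet (s : Set V) ∧ s.card = k + 1}.ncard ≤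
          {s : Finset V | G.IsIndepSet (s : Set V) ∧ s.card = k}.ncard ^ 2) := by
  intro h
  classical
  have hmax := Pool.Agent.H10.VWC.corona_max
    (Pool.Agent.H10.VWC.base (Fin 600) (Fin 117) (Fin 14))
  have h1 := h _ Pool.Agent.H10.VWC.GG (Pool.Agent.H10.VWC.corona_noiso _)
    (fun s t hs ht => by rw [hmax s hs.1 hs.2, hmax t ht.1 ht.2]) ?_ 1198 (by norm_num)
  · rw [Pool.Agent.H10.VWC.GG_count, Pool.Agent.H10.VWC.GG_count,
      Pool.Agent.H10.VWC.GG_count] at h1
    have h2 := Pool.Agent.H10.VWC.cf1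
    have h3 := Pool.Agent.H10.VWC.cf2
    have h4 : 1198 - 1 = 1197 := rfl
    have h5 : 1198 + 1 = 1199 := rfl
    rw [h4, h5] at h1
    nlinarith [Nat.mul_lt_mul'' h2 h3]
  · refine ⟨Finset.univ.map ⟨Sum.inr, Sum.inr_injective⟩, ?_, ?_, ?_⟩
    · rw [Pool.Agent.H10.VWC.indep_iff]
      intro a ha b hb hab
      simp only [Finset.coe_map, Finset.coe_univ, Set.image_univ, Function.Embedding.coeFn_mk,
        Set.mem_range] at ha hb
      obtain ⟨a, rfl⟩ := ha
      obtain ⟨b, rfl⟩ := hb
      exact hab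
    · rintro (v | v) hv hi
      · rw [Pool.Agent.H10.VWC.indep_iff] at hi
        exact hi (.inl v) (Or.inl rfl) (.inr v) (Or.inr (by simp)) rfl
      · exact hv (by simp)
    · simp

end Pool.Agent.S12088
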