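import Pool.Statements.S12093

set_option autoImplicit false
open Pool Pool.MP_e5126b_co

namespace Pool.Agent.S12093

open Finset

theorem sq_inj {G : Type} [Group G] [Fintype G] (h : Odd (Fintype.card G)) {a b : G}
    (hab : a ^ 2 = b ^ 2) : a = b := by
  have hc : (Nat.card G).Coprime 2 := by
    rw [Nat.card_eq_fintype_card]
    exact (Nat.coprime_two_right).2 h
  exact (powCoprime hc).injective hab

theorem mid_inj {G : Type} [Group G] [Fintype G] (h : Odd (Fintype.card G)) (x : G) :
    Function.Injective (fun g : G => g * x⁻¹ * g) := by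
  intro a b hab
  have h1 : (a * x⁻¹) ^ 2 = (b * x⁻¹) ^ 2 := by
    simp only at hab
    rw [pow_two, pow_two, ← mul_assoc, ← mul_assoc, hab]
  exact mul_right_cancel (sq_inj h h1)

theorem result :
    ∀ (G : Type) [Group G] [Fintype G], Odd (Fintype.card G) →
      ∀ r : ℕ, 1 < r → ∀ χ : G → Fin r,
        ∃ (A : Finset G) (g : G) (c : Fin r),
          (∀ a ∈ A, χ a = c) ∧
          (∀ x : G, x ∈ A ↔ g * x⁻¹ * g ∈ A) ∧
          (1 : ℝ) / ((r : ℝ) ^ 2) < (A.card : ℝ) / (Fintype.card G : ℝ) := by
  intro G _ _ hodd r hr χ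
  classical
  set n := Fintype.card G with hn
  have hnpos : 0 < n := Fintype.card_pos
  have hinv : ∀ g x : G, g * (g * x⁻¹ * g)⁻¹ * g = x := by
    intro g x; group
  -- a large colour class
  obtain ⟨c, hc⟩ : ∃ c : Fin r, n ≤ r * (univ.filter (fun x : G => χ x = c)).card := by
    by_contra hcon
    push Not at hcon
    have h1 : ∑ c : Fin r, (univ.filter (fun x : G => χ x = c)).card = n := by
      rw [hn, ← Finset.card_univ]
      exact (Finset.card_eq_sum_card_fiberwise (f := χ) (s := univ) (t := univ)
        (fun _ _ => by simp)).symm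
    have h2 : ∑ c : Fin r, r * (univ.filter (fun x : G => χ x = c)).card < ∑ _c : Fin r, n := by
      haveI : Nonempty (Fin r) := ⟨⟨0, by omega⟩⟩
      exact Finset.sum_lt_sum_of_nonempty univ_nonempty (fun c _ => hcon c)
    rw [← Finset.mul_sum, h1] at h2
    simp at h2
  set C := univ.filter (fun x : G => χ x = c) with hC
  let A : G → Finset G := fun g => univ.filter (fun x : G => χ x = c ∧ χ (g * x⁻¹ * g) = c)
  have hsum : ∑ g : G, (A g).card = C.card * C.card := by
    have h1 : ∀ g : G, (A g).card = ∑ x ∈ C, if χ (g * x⁻¹ * g) = c then 1 else 0 := by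
      intro g
      rw [← Finset.card_filter, hC, Finset.filter_filter]
    rw [Finset.sum_congr rfl (fun g _ => h1 g), Finset.sum_comm]
    have h2 : ∀ x ∈ C, (∑ g : G, if χ (g * x⁻¹ * g) = c then 1 else 0) = C.card := by
      intro x _
      have hb : Function.Bijective (fun g : G => g * x⁻¹ * g) :=
        Finite.injective_iff_bijective.1 (mid_inj hodd x)
      rw [hC, Finset.card_filter]
      exact Fintype.sum_bijective _ hb _ _ (fun g => rfl)
    rw [Finset.sum_congr rfl h2]
    simp
  by_contra hcon
  have hle : ∀ g : G, r ^ 2 * (A g).card ≤ n := by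
    intro g
    by_contra hlt
    push Not at hlt
    apply hcon
    refine ⟨A g, g, c, ?_, ?_, ?_⟩
    · intro a ha
      exact (Finset.mem_filter.1 ha).2.1
    · intro x
      simp only [A, Finset.mem_filter, Finset.mem_univ, true_and, hinv]
      exact and_comm
    · have hr0 : (0 : ℝ) < (r : ℝ) ^ 2 := by positivity
      have hn0 : (0 : ℝ) < (n : ℝ) := by exact_mod_cast hnpos
      rw [div_lt_div_iff₀ hr0 hn0]
      have : ((n : ℕ) : ℝ) < ((r ^ 2 * (A g).card : ℕ) : ℝ) := by exact_mod_cast hlt
      push_cast at this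
      linarith
  have htot : ∑ g : G, r ^ 2 * (A g).card = (r * C.card) * (r * C.card) := by
    rw [← Finset.mul_sum, hsum]; ring
  have hup : ∑ g : G, r ^ 2 * (A g).card ≤ n * n := by
    calc ∑ g : G, r ^ 2 * (A g).card ≤ ∑ _g : G, n := Finset.sum_le_sum (fun g _ => hle g)
      _ = n * n := by simp [hn]
  have hrC : r * C.card = n := by
    apply le_antisymm _ hc
    rw [htot] at hup
    exact Nat.mul_self_le_mul_self_iff.1 hup
  have hall : ∀ g : G, r ^ 2 * (A g).card = n := by
    have h1 : ∑ g : G, r ^ 2 * (A g).card = ∑ _g : G, n := by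
      rw [htot, hrC]; simp [hn]
    intro g
    exact (Finset.sum_eq_sum_iff_of_le (fun g _ => hle g)).1 h1 g (Finset.mem_univ g)
  obtain ⟨g, hg⟩ : ∃ g : G, χ g ≠ c := by
    by_contra h
    push Not at h
    have : C.card = n := by
      rw [hC, Finset.filter_true_of_mem (fun x _ => h x)]; simp [hn]
    rw [this] at hrC
    nlinarith
  have heven : Even (A g).card := by
    have h0 : ∑ _x ∈ A g, (1 : ZMod 2) = 0 := by
      refine Finset.sum_involution (fun x _ => g * x⁻¹ * g) (fun _ _ => by decide) ?_ ?_ ?_
      · intro x hx _ hfix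
        have h1 : g * x⁻¹ * g = x * x⁻¹ * x := by rw [hfix]; group
        have h2 : g = x := mid_inj hodd x h1
        exact hg (h2 ▸ (Finset.mem_filter.1 hx).2.1)
      · intro x hx
        simp only [A, Finset.mem_filter, Finset.mem_univ, true_and, hinv] at hx ⊢
        exact hx.symm
      · intro x _
        exact hinv g x
    simp only [Finset.sum_const, nsmul_eq_mul, mul_one] at h0
    exact (ZMod.natCast_eq_zero_iff_even).1 h0
  have h2 : Even n := by
    rw [← hall g]
    exact heven.mul_left _
  exact (Nat.not_even_iff_odd.2 hodd) h2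

end Pool.Agent.S12093
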