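import Pool.Statements.S12180
import Pool.Agent.H10.BinChar
-- import your own Pool.Agent.* helpers here

set_option autoImplicit false
open Pool Pool.MP_e962e1_co

namespace Pool.Agent.S12180

open Pool.Agent.H10.BinChar

/-- The negation of the preceding statement: For any finite set S of nonzero vectors over GF(2), if its matroid's characteristic polynomial equals (x−1)(x−2)⋯(x−n), then there is a maximal chain of flats of ranks 0,1,…,n, each modular, ending at span S; that is, the matroid is supersolvable. -/
theorem result :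
    ¬ (∀ (m : ℕ) (S : Finset (Fin m → ZMod 2)), (0 : Fin m → ZMod 2) ∉ S →
    ∀ n : ℕ,
      (∑ X ∈ S.powerset, (-1 : Polynomial ℤ) ^ X.card *
          Polynomial.X ^ (Module.finrank (ZMod 2)
              ↥(Submodule.span (ZMod 2) (S : Set (Fin m → ZMod 2))) -
            Module.finrank (ZMod 2)
              ↥(Submodule.span (ZMod 2) (X : Set (Fin m → ZMod 2)))))
        = ∏ i ∈ Finset.range n, (Polynomial.X - Polynomial.C ((i : ℤ) + 1)) →
      ∃ W : ℕ → Submodule (ZMod 2) (Fin m → ZMod 2),
        (∀ i, i ≤ n → Module.finrank (ZMod 2) ↥(W i) = i) ∧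
        (∀ i, i < n → W i ≤ W (i + 1)) ∧
        W n = Submodule.span (ZMod 2) (S : Set (Fin m → ZMod 2)) ∧
        (∀ i, i ≤ n →
          Submodule.span (ZMod 2)
            ((S : Set (Fin m → ZMod 2)) ∩ (W i : Set (Fin m → ZMod 2))) = W i) ∧
        (∀ i, i ≤ n → ∀ U : Submodule (ZMod 2) (Fin m → ZMod 2),
          Submodule.span (ZMod 2)
            ((S : Set (Fin m → ZMod 2)) ∩ (U : Set (Fin m → ZMod 2))) = U →
          Module.finrank (ZMod 2) ↥(W i) + Module.finrank (ZMod 2) ↥U =
            Module.finrank (ZMod 2) ↥(W i ⊔ U) +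
            Module.finrank (ZMod 2)
              ↥(Submodule.span (ZMod 2)
                ((S : Set (Fin m → ZMod 2)) ∩ (W i : Set (Fin m → ZMod 2)) ∩
                  (U : Set (Fin m → ZMod 2)))))) := by
  intro H
  obtain ⟨W, h1, -, -, -, h5⟩ := H 6 S0 zero_S0 6 (by
    rw [← G_S0, span_S0, finrank_top]
    unfold G
    refine Finset.sum_congr rfl fun Y _ => ?_
    rw [bot_sup_eq]
    simp)
  obtain ⟨U, hU, hne⟩ := no_copoint (W 5) (h1 5 (by norm_num))
  exact hne (h5 5 (by norm_num) U hU)

end Pool.Agent.S12180
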