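import Pool.Statements.S12216

set_option autoImplicit false
open Classical
open Pool Pool.MP_eaf560_co

namespace Pool.Agent.S12216

open Polynomial Matrix

/-- Classes of the blow-up of the path on six vertices with class sizes 1, 6, 8, 8, 6, 1. -/
def cls (i : Fin 30) : ℕ :=
  if i.val = 0 then 0 else if i.val ≤ 6 then 1 else if i.val ≤ 14 then 2 else
  if i.val ≤ 22 then 3 else if i.val ≤ 28 then 4 else 5

def adj (e : Bool) (i j : Fin 30) : Bool :=
  (cls i + 1 == cls j) || (cls j + 1 == cls i) ||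
    (e && ((cls i == 0 && cls j == 5) || (cls i == 5 && cls j == 0)))

def G : SimpleGraph (Fin 30) where
  Adj i j := adj false i j = true
  symm := ⟨by decide +kernel⟩
  loopless := ⟨by decide +kernel⟩

def Aq (e : Bool) : Matrix (Fin 30) (Fin 30) ℚ := fun i j => if adj e i j then 1 else 0

def Pm : Matrix (Fin 30) (Fin 3 ⊕ Fin 3) ℚ := fun i k =>
  match k with
  | .inl k => if cls i = k.val ∨ cls i = 5 - k.val then 1 else 0
  | .inr k => if cls i = k.val then 1 else if cls i = 5 - k.val then -1 else 0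

def eps (e : Bool) : ℚ := if e then 1 else 0

def Bm (e : Bool) : Matrix (Fin 3 ⊕ Fin 3) (Fin 3 ⊕ Fin 3) ℚ :=
  fromBlocks !![eps e / 2, 1 / 2, 0; 1 / 2, 0, 1 / 2; 0, 1 / 2, 1 / 2] 0 0
    !![-eps e / 2, 1 / 2, 0; 1 / 2, 0, 1 / 2; 0, 1 / 2, -1 / 2]

def Ms (e : Bool) : Matrix (Fin 3) (Fin 3) ℚ := !![eps e, 6, 0; 1, 0, 8; 0, 6, 8]
def Ma (e : Bool) : Matrix (Fin 3) (Fin 3) ℚ := !![-eps e, 6, 0; 1, 0, 8; 0, 6, -8]

lemma fac (e : Bool) : Aq e = Pm * (Bm e * Pmᵀ) := by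
  cases e <;> decide +kernel

lemma fac' (e : Bool) : (Bm e * Pmᵀ) * Pm = fromBlocks (Ms e) 0 0 (Ma e) := by
  cases e <;> decide +kernel

lemma cp (e : Bool) : (Aq e).charpoly = X ^ 24 * ((Ms e).charpoly * (Ma e).charpoly) := by
  rw [fac, charpoly_mul_comm_of_le _ _ (by simp), fac', charpoly_fromBlocks_zero₁₂]
  simp

lemma cp3 (a b : ℚ) : (!![a, 6, 0; 1, 0, 8; 0, 6, b] : Matrix (Fin 3) (Fin 3) ℚ).charpoly =
    X ^ 3 - C (a + b) * X ^ 2 + C (a * b - 54) * X + C (6 * b + 48 * a) := by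
  rw [charpoly, det_fin_three]
  simp [charmatrix_apply, Matrix.diagonal, map_ofNat]
  ring

lemma vieta (e1 e2 e3 x y z : ℝ) (hxy : x ≠ y) (hxz : x ≠ z) (hyz : y ≠ z)
    (hx : x ^ 3 - e1 * x ^ 2 + e2 * x - e3 = 0) (hy : y ^ 3 - e1 * y ^ 2 + e2 * y - e3 = 0)
    (hz : z ^ 3 - e1 * z ^ 2 + e2 * z - e3 = 0) :
    e1 = x + y + z ∧ e2 = x * y + x * z + y * z ∧ e3 = x * y * z := by
  have a : x ^ 2 + x * y + y ^ 2 - e1 * (x + y) + e2 = 0 := by
    apply mul_left_cancel₀ (sub_ne_zero.mpr hxy)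
    linear_combination hx - hy
  have b : x ^ 2 + x * z + z ^ 2 - e1 * (x + z) + e2 = 0 := by
    apply mul_left_cancel₀ (sub_ne_zero.mpr hxz)
    linear_combination hx - hz
  have c : e1 = x + y + z := by
    apply mul_left_cancel₀ (sub_ne_zero.mpr hyz)
    linear_combination b - a
  have d : e2 = x * y + x * z + y * z := by
    rw [c] at a
    linear_combination a
  refine ⟨c, d, ?_⟩
  rw [c, d] at hx
  linear_combination (-1 : ℝ) * hx

lemma energy (p : ℝ[X]) (x y z : ℝ) (hx : 0 < x) (hy : 0 < y) (hz : 0 < z)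
    (hp : p = X ^ 24 * ((X ^ 3 - C (x + y - z) * X ^ 2 + C (x * y - x * z - y * z) * X
        + C (x * y * z)) *
      (X ^ 3 + C (x + y - z) * X ^ 2 + C (x * y - x * z - y * z) * X - C (x * y * z)))) :
    ((p.roots.filter (fun t => 0 < t)).map (fun t => t ^ (3 : ℝ))).sum = x ^ 3 + y ^ 3 + z ^ 3 := by
  have h : p = ((Multiset.replicate 24 (0 : ℝ) + {x, y, z} + {-x, -y, -z}).map
      (fun a => X - C a)).prod := by
    rw [hp]
    simp only [Multiset.map_add, Multiset.prod_add, Multiset.map_replicate,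
      Multiset.prod_replicate, Multiset.insert_eq_cons, Multiset.map_cons, Multiset.prod_cons,
      Multiset.map_singleton, Multiset.prod_singleton, map_zero, sub_zero, map_add, map_sub,
      map_mul, map_neg]
    ring
  rw [h, roots_multiset_prod_X_sub_C]
  have h1 : Multiset.filter (fun t => 0 < t) (Multiset.replicate 24 (0 : ℝ)) = 0 := by
    rw [Multiset.filter_eq_nil]
    intro a ha
    rw [Multiset.eq_of_mem_replicate ha]
    exact lt_irrefl _
  have h2 : Multiset.filter (fun t => 0 < t) ({x, y, z} : Multiset ℝ) = {x, y, z} := by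
    rw [Multiset.filter_eq_self]
    intro a ha
    simp only [Multiset.insert_eq_cons, Multiset.mem_cons, Multiset.mem_singleton] at ha
    rcases ha with rfl | rfl | rfl <;> assumption
  have h3 : Multiset.filter (fun t => 0 < t) ({-x, -y, -z} : Multiset ℝ) = 0 := by
    rw [Multiset.filter_eq_nil]
    intro a ha
    simp only [Multiset.insert_eq_cons, Multiset.mem_cons, Multiset.mem_singleton] at ha
    rcases ha with rfl | rfl | rfl <;> simp <;> linarith
  rw [Multiset.filter_add, Multiset.filter_add, h1, h2, h3]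
  have r : ∀ t : ℝ, t ^ (3 : ℝ) = t ^ 3 := fun t => by
    rw [← Real.rpow_natCast]; norm_num
  simp [r, add_assoc]

lemma root (e1 e2 e3 a b : ℝ) (hab : a ≤ b)
    (h : (a ^ 3 - e1 * a ^ 2 + e2 * a - e3) * (b ^ 3 - e1 * b ^ 2 + e2 * b - e3) ≤ 0) :
    ∃ x, a ≤ x ∧ x ≤ b ∧ x ^ 3 - e1 * x ^ 2 + e2 * x - e3 = 0 := by
  have hc : ContinuousOn (fun x : ℝ => x ^ 3 - e1 * x ^ 2 + e2 * x - e3) (Set.Icc a b) := by
    fun_prop
  rcases mul_nonpos_iff.mp h with ⟨h1, h2⟩ | ⟨h1, h2⟩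
  · obtain ⟨x, hx, hx'⟩ := intermediate_value_Icc' hab hc ⟨h2, h1⟩
    exact ⟨x, hx.1, hx.2, hx'⟩
  · obtain ⟨x, hx, hx'⟩ := intermediate_value_Icc hab hc ⟨h1, h2⟩
    exact ⟨x, hx.1, hx.2, hx'⟩

lemma adj0 : G.adjMatrix ℝ = (Aq false).map (algebraMap ℚ ℝ) := by
  ext i j
  simp only [SimpleGraph.adjMatrix_apply, Matrix.map_apply, Aq, G]
  split_ifs <;> simp

lemma adj1 : (G ⊔ SimpleGraph.edge 0 29).adjMatrix ℝ = (Aq true).map (algebraMap ℚ ℝ) := by
  ext i j
  have : (G ⊔ SimpleGraph.edge 0 29).Adj i j ↔ adj true i j = true := by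
    rw [SimpleGraph.sup_adj, SimpleGraph.edge_adj]
    change (adj false i j = true ∨ _) ↔ _
    revert i j
    decide +kernel
  simp only [SimpleGraph.adjMatrix_apply, Matrix.map_apply, Aq, this]
  split_ifs <;> simp

lemma cpR (e : Bool) : ((Aq e).map (algebraMap ℚ ℝ)).charpoly =
    X ^ 24 * ((X ^ 3 - C ((eps e : ℝ) + 8) * X ^ 2 + C ((eps e : ℝ) * 8 - 54) * X
      + C (48 + 48 * (eps e : ℝ))) *
      (X ^ 3 + C ((eps e : ℝ) + 8) * X ^ 2 + C ((eps e : ℝ) * 8 - 54) * X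
        - C (48 + 48 * (eps e : ℝ)))) := by
  rw [charpoly_map, cp, Ms, Ma, cp3, cp3]
  simp only [Polynomial.map_mul, Polynomial.map_pow, Polynomial.map_add, Polynomial.map_sub,
    Polynomial.map_X, Polynomial.map_C, eq_ratCast]
  push_cast
  simp only [map_add, map_sub, map_mul, map_neg, map_ofNat]
  ring

theorem result :
    ¬ (∀ p : ℝ, 3 ≤ p → ∀ (n : ℕ) (G : SimpleGraph (Fin n)) (u v : Fin n), u ≠ v → ¬ G.Adj u v →
      ((((G ⊔ SimpleGraph.edge u v).adjMatrix ℝ).charpoly.roots.filter (fun x => 0 < x)).map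
          (fun x => x ^ p)).sum ≥
        (((G.adjMatrix ℝ).charpoly.roots.filter (fun x => 0 < x)).map (fun x => x ^ p)).sum) := by
  intro h
  have h0 := h 3 le_rfl 30 G 0 29 (by decide) (by change ¬ (adj false 0 29 = true); decide)
  obtain ⟨x, x1, x2, hx⟩ := root 8 (-54) (-48) 12.1266 12.1267 (by norm_num) (by norm_num)
  obtain ⟨y, y1, y2, hy⟩ := root 8 (-54) (-48) 0.802 0.803 (by norm_num) (by norm_num)
  obtain ⟨z, z1, z2, hz⟩ := root 8 (-54) (-48) (-4.9296) (-4.9295) (by norm_num) (by norm_num)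
  obtain ⟨x', x1', x2', hx'⟩ := root 9 (-46) (-96) 12.1381 12.1382 (by norm_num) (by norm_num)
  obtain ⟨y', y1', y2', hy'⟩ := root 9 (-46) (-96) 1.651 1.652 (by norm_num) (by norm_num)
  obtain ⟨z', z1', z2', hz'⟩ := root 9 (-46) (-96) (-4.7895) (-4.7894) (by norm_num) (by norm_num)
  obtain ⟨a1, a2, a3⟩ := vieta _ _ _ x y z (by linarith) (by linarith) (by linarith) hx hy hz
  obtain ⟨b1, b2, b3⟩ := vieta _ _ _ x' y' z' (by linarith) (by linarith) (by linarith) hx' hy' hz'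
  have e0 := energy (G.adjMatrix ℝ).charpoly x y (-z) (by linarith) (by linarith) (by linarith)
    (by
      rw [adj0, cpR]
      have c1 : ((eps false : ℚ) : ℝ) + 8 = x + y - -z := by simp [eps]; linarith
      have c2 : ((eps false : ℚ) : ℝ) * 8 - 54 = x * y - x * -z - y * -z := by
        simp [eps]; linarith
      have c3 : 48 + 48 * ((eps false : ℚ) : ℝ) = x * y * -z := by simp [eps]; linarith
      rw [c1, c2, c3])
  have e1 := energy ((G ⊔ SimpleGraph.edge 0 29).adjMatrix ℝ).charpoly x' y' (-z')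
    (by linarith) (by linarith) (by linarith)
    (by
      rw [adj1, cpR]
      have c1 : ((eps true : ℚ) : ℝ) + 8 = x' + y' - -z' := by simp [eps]; linarith
      have c2 : ((eps true : ℚ) : ℝ) * 8 - 54 = x' * y' - x' * -z' - y' * -z' := by
        simp [eps]; linarith
      have c3 : 48 + 48 * ((eps true : ℚ) : ℝ) = x' * y' * -z' := by simp [eps]; linarith
      rw [c1, c2, c3])
  have h1 : x' ^ 3 + y' ^ 3 + (-z') ^ 3 ≥ x ^ 3 + y ^ 3 + (-z) ^ 3 := by
    rw [← e0, ← e1]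
    convert h0
  have p1 : (12.1266 : ℝ) ^ 3 ≤ x ^ 3 := pow_le_pow_left₀ (by norm_num) x1 3
  have p2 : (0.802 : ℝ) ^ 3 ≤ y ^ 3 := pow_le_pow_left₀ (by norm_num) y1 3
  have p3 : (4.9295 : ℝ) ^ 3 ≤ (-z) ^ 3 := pow_le_pow_left₀ (by norm_num) (by linarith) 3
  have q1 : x' ^ 3 ≤ (12.1382 : ℝ) ^ 3 := pow_le_pow_left₀ (by linarith) x2' 3
  have q2 : y' ^ 3 ≤ (1.652 : ℝ) ^ 3 := pow_le_pow_left₀ (by linarith) y2' 3
  have q3 : (-z') ^ 3 ≤ (4.7895 : ℝ) ^ 3 := pow_le_pow_left₀ (by linarith) (by linarith) 3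
  norm_num at p1 p2 p3 q1 q2 q3 h1
  linarith

end Pool.Agent.S12216
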