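import Pool.Statements.S12226

set_option autoImplicit false

namespace Pool.Agent.S12226

def w (h a b : Bool) : ℤ := if h then -2 else if a && b then 4 else if a || b then 1 else 0

set_option synthInstance.maxSize 100000 in
set_option maxRecDepth 100000 in
theorem key : ∀ m0 m1 h01 : Bool, (h01 → m0 ∧ m1) →
    ∀ m2 h02 h12 : Bool, (h02 → m0 ∧ m2) → (h12 → m1 ∧ m2) → ¬ (h01 ∧ h02 ∧ h12) →
    ∀ m3 h03 h13 h23 : Bool, (h03 → m0 ∧ m3) → (h13 → m1 ∧ m3) → (h23 → m2 ∧ m3) →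
      ¬ (h01 ∧ h03 ∧ h13) → ¬ (h02 ∧ h03 ∧ h23) → ¬ (h12 ∧ h13 ∧ h23) →
    ∀ m4 h04 h14 h24 h34 : Bool, (h04 → m0 ∧ m4) → (h14 → m1 ∧ m4) → (h24 → m2 ∧ m4) →
      (h34 → m3 ∧ m4) →
      ¬ (h01 ∧ h04 ∧ h14) → ¬ (h02 ∧ h04 ∧ h24) → ¬ (h12 ∧ h14 ∧ h24) →
      ¬ (h03 ∧ h04 ∧ h34) → ¬ (h13 ∧ h14 ∧ h34) → ¬ (h23 ∧ h24 ∧ h34) →
    ∀ m5 h05 : Bool, (h05 → m0 ∧ m5) →
      0 ≤ w h01 m0 m1 + w h02 m0 m2 + w h12 m1 m2 + w h03 m0 m3 + w h13 m1 m3 + w h23 m2 m3
        + w h04 m0 m4 + w h14 m1 m4 + w h24 m2 m4 + w h34 m3 m4 + w h05 m0 m5 := by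
  decide +kernel

def L : List (Sym2 (Fin 6)) :=
  [s(0,1), s(0,2), s(1,2), s(0,3), s(1,3), s(2,3), s(0,4), s(1,4), s(2,4), s(3,4),
   s(0,5), s(1,5), s(2,5), s(3,5), s(4,5)]

theorem L_nodup : L.Nodup := by decide

theorem L_mem (a b : Fin 6) : s(a, b) ∈ L ↔ a ≠ b := by
  revert a b; decide

end Pool.Agent.S12226

open Classical
open Pool Pool.MP_eb5675_co

namespace Pool.Agent.S12226

noncomputable def x (e : Sym2 (Fin 6)) : ℝ :=
  if (5 : Fin 6) ∈ e then (if (0 : Fin 6) ∈ e then 1 else 0) else 1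

theorem term (V' : Finset (Fin 6)) (H : SimpleGraph (Fin 6)) (a b : Fin 6) :
    (if s(a, b) ∈ H.edgeSet then (-1 : ℝ)
      else if (∀ v ∈ s(a, b), v ∈ V') then 2
      else if (∃ v ∈ s(a, b), v ∈ V') then 1 / 2
      else 0) = ((w (decide (H.Adj a b)) (decide (a ∈ V')) (decide (b ∈ V')) : ℤ) : ℝ) / 2 := by
  by_cases h : H.Adj a b <;> by_cases ha : a ∈ V' <;> by_cases hb : b ∈ V' <;>
    simp [w, h, ha, hb] <;> norm_num

theorem result :
    ¬ (∀ (V : Type) [Fintype V] (G : SimpleGraph V) (x : Sym2 V → ℝ),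
      (∃ c : Finset V → ℝ, (∀ t, 0 ≤ c t) ∧
          ∀ e ∈ G.edgeFinset,
            x e = ∑ t ∈ G.cliqueFinset 3, (if (∀ v ∈ e, v ∈ t) then c t else 0)) ↔
      (∀ (V' : Finset V) (H : SimpleGraph V), H ≤ G →
          (∀ u v, H.Adj u v → u ∈ V' ∧ v ∈ V') → H.CliqueFree 3 →
          0 ≤ ∑ e ∈ G.edgeFinset,
            (if e ∈ H.edgeSet then (-1 : ℝ)
              else if (∀ v ∈ e, v ∈ V') then 2
              else if (∃ v ∈ e, v ∈ V') then 1 / 2
              else 0) * x e)) := by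
  intro h
  have h1 := (h (Fin 6) ⊤ x).2
  have hE : ∀ (inst : Fintype (⊤ : SimpleGraph (Fin 6)).edgeSet),
      @SimpleGraph.edgeFinset _ ⊤ inst = L.toFinset := by
    intro inst
    ext e
    induction e using Sym2.ind with
    | _ a b => simp [L_mem]
  obtain ⟨c, hc0, hc⟩ := h1 (by
    intro V' H _ hV hH
    have htri : ∀ a b d : Fin 6, ¬ (H.Adj a b ∧ H.Adj a d ∧ H.Adj b d) := by
      rintro a b d ⟨h1, h2, h3⟩
      exact hH {a, b, d} (SimpleGraph.is3Clique_triple_iff.2 ⟨h1, h2, h3⟩)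
    rw [hE, List.sum_toFinset _ L_nodup]
    simp only [L, List.map_cons, List.map_nil, List.sum_cons, List.sum_nil]
    have hk := key (decide (0 ∈ V')) (decide (1 ∈ V')) (decide (H.Adj 0 1)) (by simpa using hV 0 1)
      (decide (2 ∈ V')) (decide (H.Adj 0 2)) (decide (H.Adj 1 2))
      (by simpa using hV 0 2) (by simpa using hV 1 2) (by simpa using htri 0 1 2)
      (decide (3 ∈ V')) (decide (H.Adj 0 3)) (decide (H.Adj 1 3)) (decide (H.Adj 2 3))
      (by simpa using hV 0 3) (by simpa using hV 1 3) (by simpa using hV 2 3)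
      (by simpa using htri 0 1 3) (by simpa using htri 0 2 3) (by simpa using htri 1 2 3)
      (decide (4 ∈ V')) (decide (H.Adj 0 4)) (decide (H.Adj 1 4)) (decide (H.Adj 2 4))
      (decide (H.Adj 3 4))
      (by simpa using hV 0 4) (by simpa using hV 1 4) (by simpa using hV 2 4)
      (by simpa using hV 3 4)
      (by simpa using htri 0 1 4) (by simpa using htri 0 2 4) (by simpa using htri 1 2 4)
      (by simpa using htri 0 3 4) (by simpa using htri 1 3 4) (by simpa using htri 2 3 4)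
      (decide (5 ∈ V')) (decide (H.Adj 0 5)) (by simpa using hV 0 5)
    have hk' := (Int.cast_nonneg_iff (R := ℝ)).2 hk
    push_cast at hk'
    have x01 : x s(0,1) = 1 := by simp [x]
    have x02 : x s(0,2) = 1 := by simp [x]
    have x12 : x s(1,2) = 1 := by simp [x]
    have x03 : x s(0,3) = 1 := by simp [x]
    have x13 : x s(1,3) = 1 := by simp [x]
    have x23 : x s(2,3) = 1 := by simp [x]
    have x04 : x s(0,4) = 1 := by simp [x]
    have x14 : x s(1,4) = 1 := by simp [x]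
    have x24 : x s(2,4) = 1 := by simp [x]
    have x34 : x s(3,4) = 1 := by simp [x]
    have x05 : x s(0,5) = 1 := by simp [x]
    have x15 : x s(1,5) = 0 := by simp [x]
    have x25 : x s(2,5) = 0 := by simp [x]
    have x35 : x s(3,5) = 0 := by simp [x]
    have x45 : x s(4,5) = 0 := by simp [x]
    rw [x01, x02, x12, x03, x13, x23, x04, x14, x24, x34, x05, x15, x25, x35, x45]
    have t := term V' H
    have t01 := t 0 1
    have t02 := t 0 2
    have t12 := t 1 2
    have t03 := t 0 3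
    have t13 := t 1 3
    have t23 := t 2 3
    have t04 := t 0 4
    have t14 := t 1 4
    have t24 := t 2 4
    have t34 := t 3 4
    have t05 := t 0 5
    simp only [mul_one, mul_zero, add_zero]
    convert (show (0 : ℝ) ≤ _ / 2 from div_nonneg hk' (by norm_num)) using 1
    simp only [add_div, ← t01, ← t02, ← t12, ← t03, ← t13, ← t23, ← t04, ← t14, ← t24, ← t34, ← t05,
      add_assoc]
    congr)
  have hz : ∀ a : Fin 6, a ≠ 0 → a ≠ 5 → ∀ t ∈ (⊤ : SimpleGraph (Fin 6)).cliqueFinset 3,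
      a ∈ t → (5 : Fin 6) ∈ t → c t = 0 := by
    intro a ha0 ha5 t ht hat h5t
    have h2 := hc s(a, 5) (by simp [ha5])
    have h3 : x s(a, 5) = 0 := by simp [x, ha0.symm]
    rw [h3] at h2
    have h4 := (Finset.sum_eq_zero_iff_of_nonneg (by
      intro t _
      split_ifs
      · exact hc0 t
      · exact le_rfl)).1 h2.symm t (by convert ht)
    rw [if_pos (by simp [hat, h5t])] at h4
    exact h4
  have h2 := hc s(0, 5) (by simp)
  have h3 : x s(0, 5) = 1 := by simp [x]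
  rw [h3, Finset.sum_eq_zero] at h2
  · exact one_ne_zero h2
  intro t ht
  split_ifs with h05
  · have hcard : t.card = 3 := by
      have ht' : t ∈ (⊤ : SimpleGraph (Fin 6)).cliqueFinset 3 := by convert ht
      exact (SimpleGraph.mem_cliqueFinset_iff.1 ht').card_eq
    have : ∃ a ∈ t, a ≠ 0 ∧ a ≠ 5 := by
      by_contra hcon
      push Not at hcon
      have hsub : t ⊆ {0, 5} := by
        intro a ha
        by_cases h0 : a = 0
        · simp [h0]
        · simp [hcon a ha h0]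
      have := Finset.card_le_card hsub
      have h5 : ({0, 5} : Finset (Fin 6)).card ≤ 2 := Finset.card_le_two
      omega
    obtain ⟨a, hat, ha0, ha5⟩ := this
    exact hz a ha0 ha5 t (by convert ht) hat (h05 5 (by simp))
  · rfl

end Pool.Agent.S12226
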