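import Pool.Statements.S12266
import Pool.Agent.H11.IRG

set_option autoImplicit false
open Pool Pool.MP_ed2cb0_co

namespace Pool.Agent.S12266
open Pool.Agent.H11.IRG

lemma adj_iff : ∀ i j : Fin 7,
    (i ≠ j ∧ ((∃ u v, f i \ f j = {u} ∧ f j \ f i = {v} ∧ G.Adj u v) ∨
      (∃ u v, f j \ f i = {u} ∧ f i \ f j = {v} ∧ G.Adj u v))) ↔
    (i.val + 1 = j.val ∨ j.val + 1 = i.val) := by
  decide +kernel

/-- The negation of the preceding statement: Every finite connected claw-free graph isomorphic to the slide IR-graph of some finite graph G is isomorphic to a complete graph or to K_m □ K_k with m, k ≥ 2. -/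
theorem result :
    ¬ (∀ (n : ℕ) (H : SimpleGraph (Fin n)), H.Connected →
    (∀ a b c d : Fin n, H.Adj a b → H.Adj a c → H.Adj a d → b ≠ c → b ≠ d → c ≠ d →
        H.Adj b c ∨ H.Adj b d ∨ H.Adj c d) →
    (∃ (p : ℕ) (G : SimpleGraph (Fin p)),
      Nonempty (H ≃g SimpleGraph.fromRel
        (fun (D E : {D : Finset (Fin p) //
            (∀ v ∈ D, ∃ w : Fin p, (w = v ∨ G.Adj v w) ∧
                ∀ u ∈ D, u ≠ v → ¬ (w = u ∨ G.Adj u w)) ∧
            ∀ F : Finset (Fin p),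
              (∀ v ∈ F, ∃ w : Fin p, (w = v ∨ G.Adj v w) ∧
                  ∀ u ∈ F, u ≠ v → ¬ (w = u ∨ G.Adj u w)) →
              F.card ≤ D.card}) =>
          ∃ u v : Fin p, D.1 \ E.1 = {u} ∧ E.1 \ D.1 = {v} ∧ G.Adj u v))) →
    (∃ k : ℕ, Nonempty (H ≃g (⊤ : SimpleGraph (Fin k)))) ∨
    (∃ m k : ℕ, 2 ≤ m ∧ 2 ≤ k ∧
      Nonempty (H ≃g SimpleGraph.boxProd (⊤ : SimpleGraph (Fin m)) (⊤ : SimpleGraph (Fin k))))) := by
  intro H
  have h := H 7 (SimpleGraph.pathGraph 7) (SimpleGraph.pathGraph_connected 6)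
    (by
      intro a b c d h1 h2 h3 h4 h5 h6
      rw [SimpleGraph.pathGraph_adj] at h1 h2 h3
      have := Fin.val_ne_of_ne h4
      have := Fin.val_ne_of_ne h5
      have := Fin.val_ne_of_ne h6
      omega)
    ⟨9, G, ⟨⟨Equiv.ofBijective g g_bij, by
      intro i j
      rw [SimpleGraph.pathGraph_adj, SimpleGraph.fromRel_adj, ← adj_iff]
      simp only [Equiv.ofBijective_apply, g_ne, g_val]⟩⟩⟩
  rcases h with ⟨k, ⟨e⟩⟩ | ⟨m, k, hm, hk, ⟨e⟩⟩
  · have : (SimpleGraph.pathGraph 7).Adj 0 2 := by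
      rw [← e.map_rel_iff, SimpleGraph.top_adj]
      exact e.injective.ne (by decide)
    rw [SimpleGraph.pathGraph_adj] at this
    revert this; decide
  · have := Fintype.card_congr e.toEquiv
    simp only [Fintype.card_fin, Fintype.card_prod] at this
    have h7 : m ≤ 3 := by nlinarith
    interval_cases m <;> omega

end Pool.Agent.S12266
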