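import Pool.Statements.S12278
-- import your own Pool.Agent.* helpers here

set_option autoImplicit false
open Pool Pool.MP_ee26cf_co

namespace Pool.Agent.S12278

section general
variable {V : Type} [Fintype V] [DecidableEq V]

lemma fp_ext (P Q : Finpartition (Finset.univ : Finset V))
    (h : ∀ a b, b ∈ P.part a ↔ b ∈ Q.part a) : P = Q := by
  have hp : ∀ a, P.part a = Q.part a := fun a => Finset.ext (h a)
  apply Finpartition.ext
  ext t
  constructor
  · intro ht
    obtain ⟨a, -, rfl⟩ := P.part_surjOn ht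
    rw [hp]; exact Q.part_mem.2 (Finset.mem_univ _)
  · intro ht
    obtain ⟨a, -, rfl⟩ := Q.part_surjOn ht
    rw [← hp]; exact P.part_mem.2 (Finset.mem_univ _)

/-- the partition into the fibres of a colouring -/
def ker {k : ℕ} (f : V → Fin k) : Finpartition (Finset.univ : Finset V) :=
  @Finpartition.ofSetoid V _ _ (Setoid.ker f) (fun a b => inferInstanceAs (Decidable (f a = f b)))

lemma mem_ker {k : ℕ} (f : V → Fin k) (a b : V) : b ∈ (ker f).part a ↔ f a = f b := by
  unfold ker
  exact @Finpartition.mem_part_ofSetoid_iff_rel V _ a _ (Setoid.ker f)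
    (fun a b => inferInstanceAs (Decidable (f a = f b))) b

/-- the set counted by the statement -/
def Par (G : SimpleGraph V) (k : ℕ) : Set (Finpartition (Finset.univ : Finset V)) :=
  {P | P.parts.card = k ∧ ∀ s ∈ P.parts, G.IsIndepSet (↑s : Set V)}

lemma upper (G : SimpleGraph V) (k : ℕ) (C : Finset (V → Fin k))
    (hC : ∀ f : V → Fin k, (∀ u v, G.Adj u v → f u ≠ f v) → f ∈ C) :
    (Par G k).ncard ≤ C.card := by
  have hsub : Par G k ⊆ ker '' (C : Set (V → Fin k)) := by
    rintro P ⟨hk, hind⟩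
    let e : P.parts ≃ Fin k := Finset.equivFinOfCardEq hk
    let f : V → Fin k := fun v => e ⟨P.part v, P.part_mem.2 (Finset.mem_univ _)⟩
    have hf : ∀ a b, f a = f b ↔ b ∈ P.part a := by
      intro a b
      rw [P.mem_part_iff_part_eq_part (Finset.mem_univ _) (Finset.mem_univ _)]
      simp only [f, EmbeddingLike.apply_eq_iff_eq, Subtype.mk.injEq]
      exact eq_comm
    refine ⟨f, hC f ?_, fp_ext _ _ fun a b => by rw [mem_ker, hf]⟩
    intro u v huv he
    have h1 : v ∈ P.part u := (hf u v).1 he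
    have h2 : u ∈ P.part u := P.mem_part_self.2 (Finset.mem_univ _)
    exact hind _ (P.part_mem.2 (Finset.mem_univ u)) h2 h1 huv.ne huv
  calc (Par G k).ncard ≤ (ker '' (C : Set (V → Fin k))).ncard :=
        Set.ncard_le_ncard hsub (Set.toFinite _)
    _ ≤ (C : Set (V → Fin k)).ncard := Set.ncard_image_le (Set.toFinite _)
    _ = C.card := Set.ncard_coe_finset _

lemma lower (G : SimpleGraph V) (k : ℕ) (T : V → Finset (Fin k)) (a : Fin k → V)
    (ha : ∀ c, T (a c) = {c}) (hT : ∀ u v, G.Adj u v → Disjoint (T u) (T v)) :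
    ∏ v, (T v).card ≤ (Par G k).ncard := by
  rw [← Fintype.card_piFinset, ← Set.ncard_coe_finset]
  have hac : ∀ f ∈ Fintype.piFinset T, ∀ c, f (a c) = c := by
    intro f hf c
    have := Fintype.mem_piFinset.1 hf (a c)
    rw [ha] at this
    simpa using this
  refine Set.ncard_le_ncard_of_injOn ker ?_ ?_ (Set.toFinite _)
  · intro f hf
    have hf' : f ∈ Fintype.piFinset T := hf
    constructor
    · have : (ker f).parts = Finset.univ.image (fun c => (ker f).part (a c)) := by
        ext t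
        simp only [Finset.mem_image, Finset.mem_univ, true_and]
        constructor
        · intro ht
          obtain ⟨v, -, rfl⟩ := (ker f).part_surjOn ht
          refine ⟨f v, ?_⟩
          ext w
          rw [mem_ker, mem_ker, hac f hf']
        · rintro ⟨c, rfl⟩
          exact (ker f).part_mem.2 (Finset.mem_univ _)
      rw [this, Finset.card_image_of_injective]
      · simp
      · intro c d h
        have h1 : a d ∈ (ker f).part (a d) := (ker f).mem_part_self.2 (Finset.mem_univ _)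
        have h2 : a d ∈ (ker f).part (a c) := by
          have h' : (ker f).part (a c) = (ker f).part (a d) := h
          rw [h']; exact h1
        rw [mem_ker, hac f hf', hac f hf'] at h2
        exact h2
    · intro t ht
      obtain ⟨v, -, rfl⟩ := (ker f).part_surjOn ht
      intro x hx y hy _ hxy
      have hx' := (mem_ker f v x).1 hx
      have hy' := (mem_ker f v y).1 hy
      have h1 := Fintype.mem_piFinset.1 hf' x
      have h2 := Fintype.mem_piFinset.1 hf' y
      rw [← hx'] at h1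
      rw [← hy'] at h2
      exact Finset.disjoint_left.1 (hT x y hxy) h1 h2
  · intro f hf g hg h
    funext v
    have h1 : v ∈ (ker f).part (a (f v)) := by rw [mem_ker, hac f hf]
    rw [h, mem_ker, hac g hg] at h1
    exact h1

end general

/-- the 3-sun: triangle 0,1,2 and 3 ~ 0,1; 4 ~ 1,2; 5 ~ 0,2 -/
def sun (i j : Fin 6) : Bool :=
  (![![false, true, true, true, false, true], ![true, false, true, true, true, false],
     ![true, true, false, false, true, true], ![true, true, false, false, false, false],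
     ![false, true, true, false, false, false], ![true, false, true, false, false, false]] :
     Fin 6 → Fin 6 → Bool) i j

def ty : Fin 15 → Fin 6 := ![0, 0, 0, 1, 1, 1, 2, 2, 2, 3, 3, 4, 4, 5, 5]

abbrev W : Type := Fin 15 × Option (Fin 130)

/-- blow-up of the 3-sun -/
def G : SimpleGraph W where
  Adj u v := sun (ty u.1) (ty v.1) = true
  symm := ⟨fun u v => (by decide : ∀ i j : Fin 6, sun i j = true → sun j i = true) _ _⟩
  loopless := ⟨fun u => (by decide : ∀ i : Fin 6, ¬ sun i i = true) _⟩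

lemma G_adj (u v : W) : G.Adj u v ↔ sun (ty u.1) (ty v.1) = true := Iff.rfl

lemma prodT {k : ℕ} (c : Fin 15 → Fin k) (S : Fin 15 → Finset (Fin k)) :
    ∏ v : W, ((fun v : W => v.2.elim {c v.1} (fun _ => S v.1)) v).card
      = (∏ s, (S s).card) ^ 130 := by
  rw [Fintype.prod_prod_type, ← Finset.prod_pow]
  refine Finset.prod_congr rfl fun s _ => ?_
  rw [Fintype.prod_option]
  simp

lemma lowT {k : ℕ} (c : Fin 15 → Fin k) (S : Fin 15 → Finset (Fin k)) (a : Fin k → Fin 15)
    (h1 : ∀ x, c (a x) = x) (h2 : ∀ s, c s ∈ S s)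
    (h3 : ∀ s t, sun (ty s) (ty t) = true → Disjoint (S s) (S t)) :
    (∏ s, (S s).card) ^ 130 ≤ (Par G k).ncard := by
  rw [← prodT c S]
  refine lower G k _ (fun x => (a x, none)) (fun x => by simp [h1]) ?_
  have hs : ∀ v : W, (v.2.elim {c v.1} (fun _ => S v.1) : Finset (Fin k)) ⊆ S v.1 := by
    rintro ⟨s, _ | i⟩
    · simpa using h2 s
    · simp
  intro u v huv
  exact Finset.disjoint_of_subset_left (hs u) (Finset.disjoint_of_subset_right (hs v)
    (h3 _ _ huv))

lemma low4 : (2 ^ 6) ^ 130 ≤ (Par G 4).ncard := by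
  have := lowT (k := 4) ![0, 0, 0, 1, 1, 1, 2, 2, 2, 3, 3, 3, 3, 3, 3]
    (fun s => (![{0}, {1}, {2}, {2, 3}, {0, 3}, {1, 3}] : Fin 6 → Finset (Fin 4)) (ty s))
    ![0, 3, 6, 9] (by decide) (by decide) (by decide)
  refine le_trans (le_of_eq ?_) this
  congr 1

lemma low6 : (2 ^ 15) ^ 130 ≤ (Par G 6).ncard := by
  have := lowT (k := 6) ![0, 1, 0, 2, 3, 2, 4, 5, 4, 4, 4, 0, 0, 2, 2]
    (fun s => (![{0, 1}, {2, 3}, {4, 5}, {4, 5}, {0, 1}, {2, 3}] : Fin 6 → Finset (Fin 6)) (ty s))
    ![0, 1, 3, 4, 6, 7] (by decide) (by decide) (by decide)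
  refine le_trans (le_of_eq ?_) this
  congr 1

lemma arith : ∀ a b c x y z : Fin 6, a.1 + b.1 + c.1 ≤ 5 → a.1 + b.1 + x.1 ≤ 5 →
    b.1 + c.1 + y.1 ≤ 5 → a.1 + c.1 + z.1 ≤ 5 →
    a.1 ^ 3 * b.1 ^ 3 * c.1 ^ 3 * x.1 ^ 2 * y.1 ^ 2 * z.1 ^ 2 ≤ 1152 := by
  decide +kernel

lemma three (A B C : Finset (Fin 5)) (h1 : Disjoint A B) (h2 : Disjoint A C) (h3 : Disjoint B C) :
    A.card + B.card + C.card ≤ 5 := by
  rw [← Finset.card_union_of_disjoint h1, ← Finset.card_union_of_disjoint
    (Finset.disjoint_union_left.2 ⟨h2, h3⟩)]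
  simpa using Finset.card_le_univ (A ∪ B ∪ C)

lemma patt (S : Fin 6 → Finset (Fin 5)) (h : ∀ i j, sun i j = true → Disjoint (S i) (S j)) :
    ∏ s : Fin 15, (S (ty s)).card ≤ 1152 := by
  have hl : ∀ i, (S i).card < 6 := fun i => by
    have := Finset.card_le_univ (S i)
    simp at this
    omega
  have := arith ⟨_, hl 0⟩ ⟨_, hl 1⟩ ⟨_, hl 2⟩ ⟨_, hl 3⟩ ⟨_, hl 4⟩ ⟨_, hl 5⟩
    (three _ _ _ (h 0 1 rfl) (h 0 2 rfl) (h 1 2 rfl))
    (three _ _ _ (h 0 1 rfl) (h 0 3 rfl) (h 1 3 rfl))
    (three _ _ _ (h 1 2 rfl) (h 1 4 rfl) (h 2 4 rfl))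
    (three _ _ _ (h 0 2 rfl) (h 0 5 rfl) (h 2 5 rfl))
  refine le_trans (le_of_eq ?_) this
  simp [Fin.prod_univ_succ, ty]
  ring

lemma up5 : (Par G 5).ncard ≤ 2 ^ 30 * 1152 ^ 131 := by
  classical
  obtain ⟨Good, hGood⟩ : ∃ Good : Finset (Fin 6 → Finset (Fin 5)), ∀ S, S ∈ Good ↔
      ∀ i j, sun i j = true → Disjoint (S i) (S j) :=
    ⟨Finset.univ.filter fun S => ∀ i j, sun i j = true → Disjoint (S i) (S j), fun S => by
      rw [Finset.mem_filter]; exact and_iff_right (Finset.mem_univ _)⟩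
  refine le_trans (upper G 5 (Good.biUnion fun S => Fintype.piFinset fun v : W => S (ty v.1)) ?_) ?_
  · intro f hf
    rw [Finset.mem_biUnion]
    refine ⟨fun i => (Finset.univ.filter fun v : W => ty v.1 = i).image f, ?_, ?_⟩
    · refine (hGood _).2 fun i j hij => ?_
      rw [Finset.disjoint_left]
      intro c h1 h2
      obtain ⟨u, hu, rfl⟩ := Finset.mem_image.1 h1
      obtain ⟨v, hv, e⟩ := Finset.mem_image.1 h2
      rw [Finset.mem_filter] at hu hv
      have hadj : G.Adj u v := by
        rw [G_adj, hu.2, hv.2]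
        exact hij
      exact hf u v hadj e.symm
    · rw [Fintype.mem_piFinset]
      intro v
      rw [Finset.mem_image]
      refine ⟨v, ?_, rfl⟩
      rw [Finset.mem_filter]
      exact ⟨Finset.mem_univ _, rfl⟩
  · refine le_trans (Finset.card_biUnion_le_card_mul _ _ (1152 ^ 131) ?_) ?_
    · intro S hS
      rw [Fintype.card_piFinset, Fintype.prod_prod_type]
      have h1 : ∀ s : Fin 15, ∏ _i : Option (Fin 130), (S (ty s)).card = (S (ty s)).card ^ 131 := by
        intro s
        rw [Finset.prod_const, Finset.card_univ, Fintype.card_option, Fintype.card_fin]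
      simp only [h1]
      rw [Finset.prod_pow]
      exact Nat.pow_le_pow_left (patt S ((hGood S).1 hS)) _
    · refine Nat.mul_le_mul_right _ (le_trans (Finset.card_le_univ _) (le_of_eq ?_))
      simp [Fintype.card_finset]

/-- The negation of the preceding statement: For every finite graph, let b_j count partitions of the vertex set into j nonempty independent sets (its coefficients in the complete-graph basis); then b_j·b_{j+2} < b_{j+1}^2 whenever b_{j+1} > 0. -/
theorem result :
    ¬ (∀ (V : Type) [Fintype V] [DecidableEq V] (G : SimpleGraph V) (b : ℕ → ℕ),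
      (∀ j : ℕ, b j =
        {P : Finpartition (Finset.univ : Finset V) |
          P.parts.card = j ∧ ∀ s ∈ P.parts, G.IsIndepSet (↑s : Set V)}.ncard) →
      ∀ j : ℕ, 0 < b (j + 1) → b j * b (j + 2) < b (j + 1) ^ 2) := by
  intro H
  have h := H W G (fun j => (Par G j).ncard) (fun j => rfl) 4
  have h4 := low4
  have h6 := low6
  have h5 := up5
  have hnum : (2 ^ 30 * 1152 ^ 131) ^ 2 < (2 ^ 6) ^ 130 * (2 ^ 15) ^ 130 := by decide +kernel
  have hpos : 0 < (Par G 5).ncard := by
    have := lowT (k := 5) ![0, 4, 0, 1, 1, 1, 2, 2, 2, 3, 3, 3, 3, 3, 3]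
      (fun s => (![{0, 4}, {1}, {2}, {2, 3}, {0, 3}, {1, 3}] : Fin 6 → Finset (Fin 5)) (ty s))
      ![0, 3, 6, 9, 1] (by decide) (by decide) (by decide)
    exact lt_of_lt_of_le (pow_pos (by decide) _) this
  have h1 := h hpos
  have h2 : (Par G 5).ncard ^ 2 ≤ (2 ^ 30 * 1152 ^ 131) ^ 2 := Nat.pow_le_pow_left h5 2
  have h3 := Nat.mul_le_mul h4 h6
  exact absurd (lt_of_lt_of_le (lt_of_le_of_lt h2 hnum) h3) (not_lt.2 h1.le)

end Pool.Agent.S12278
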