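import Pool.Statements.S12322
import Pool.Agent.H10.GEL2
-- import your own Pool.Agent.* helpers here

set_option autoImplicit false
open Pool Pool.MP_f027b3_co

namespace Pool.Agent.S12322

/-- The negation of the preceding statement: For each c<4 there is N such that every graph with no isolated vertex, no good edge labeling, good labelings on all proper spanning subgraphs, and average degree below c has at most N vertices. -/
theorem result :
    ¬ (∀ c : ℝ, c < 4 → ∃ N : ℕ, ∀ (n : ℕ) (G : SimpleGraph (Fin n)),
      (∀ v : Fin n, ∃ w : Fin n, G.Adj v w) →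
      (¬ ∃ f : Fin n → Fin n → ℝ, (∀ a b : Fin n, f a b = f b a) ∧
          (∀ x y z w : Fin n, G.Adj x y → G.Adj z w → f x y = f z w →
              (x = z ∧ y = w) ∨ (x = w ∧ y = z)) ∧
          ∀ (u : Fin n) (p : G.Walk u u), p.IsCycle →
            ∃ i j : ℕ, i < p.length ∧ j < p.length ∧ i ≠ j ∧
              f (p.getVert ((i + 1) % p.length)) (p.getVert ((i + 1) % p.length + 1)) <
                f (p.getVert i) (p.getVert (i + 1)) ∧
              f (p.getVert ((i + p.length - 1) % p.length))
                  (p.getVert ((i + p.length - 1) % p.length + 1)) <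
                f (p.getVert i) (p.getVert (i + 1)) ∧
              f (p.getVert ((j + 1) % p.length)) (p.getVert ((j + 1) % p.length + 1)) <
                f (p.getVert j) (p.getVert (j + 1)) ∧
              f (p.getVert ((j + p.length - 1) % p.length))
                  (p.getVert ((j + p.length - 1) % p.length + 1)) <
                f (p.getVert j) (p.getVert (j + 1))) →
      (∀ H : SimpleGraph (Fin n), H < G →
        ∃ f : Fin n → Fin n → ℝ, (∀ a b : Fin n, f a b = f b a) ∧
          (∀ x y z w : Fin n, H.Adj x y → H.Adj z w → f x y = f z w →
              (x = z ∧ y = w) ∨ (x = w ∧ y = z)) ∧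
          ∀ (u : Fin n) (p : H.Walk u u), p.IsCycle →
            ∃ i j : ℕ, i < p.length ∧ j < p.length ∧ i ≠ j ∧
              f (p.getVert ((i + 1) % p.length)) (p.getVert ((i + 1) % p.length + 1)) <
                f (p.getVert i) (p.getVert (i + 1)) ∧
              f (p.getVert ((i + p.length - 1) % p.length))
                  (p.getVert ((i + p.length - 1) % p.length + 1)) <
                f (p.getVert i) (p.getVert (i + 1)) ∧
              f (p.getVert ((j + 1) % p.length)) (p.getVert ((j + 1) % p.length + 1)) <
                f (p.getVert j) (p.getVert (j + 1)) ∧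
              f (p.getVert ((j + p.length - 1) % p.length))
                  (p.getVert ((j + p.length - 1) % p.length + 1)) <
                f (p.getVert j) (p.getVert (j + 1))) →
      2 * (G.edgeSet.ncard : ℝ) < c * (n : ℝ) → n ≤ N) := by
  intro h
  obtain ⟨N, hN⟩ := h (37 / 10) (by norm_num)
  obtain ⟨m, G, h1, h2, h3, h4, h5⟩ := H10.GEL.main N
  have h6 : (5 : ℝ) * G.edgeSet.ncard ≤ 9 * m := by exact_mod_cast h4
  have h7 : (0 : ℝ) < m := by exact_mod_cast (by omega : 0 < m)
  have := hN m G h1 h2 h3 (by linarith)
  omega

end Pool.Agent.S12322
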