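import Pool.Statements.S12385
import Pool.Agent.H7.EvenTree5

set_option autoImplicit false
open Pool Pool.MP_f2fe2b_co

namespace Pool.Agent.S12385

/-- For all 1 ≤ k ≤ n, the even binary tree with n leaves (child leaf-counts differ by at most 1 at every vertex) has at least as many leaf subsets inducing the even tree with k leaves as any rooted binary tree with n leaves. -/
theorem result :
    ∀ k n : ℕ, 1 ≤ k → k ≤ n →
    ∀ (F : Finset (Finset (Fin k))) (E T : Finset (Finset (Fin n))),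
      ((∀ A ∈ F, A.Nonempty) ∧ (Finset.univ ∈ F) ∧ (∀ i : Fin k, ({i} : Finset (Fin k)) ∈ F) ∧
        (∀ A ∈ F, ∀ B ∈ F, A ⊆ B ∨ B ⊆ A ∨ Disjoint A B) ∧
        (∀ A ∈ F, 2 ≤ A.card → ∃ B ∈ F, ∃ D ∈ F, Disjoint B D ∧ B ∪ D = A) ∧
        (∀ A ∈ F, ∀ B ∈ F, B ⊂ A → (∀ D ∈ F, B ⊆ D → D ⊆ A → D = B ∨ D = A) →
          A.card ≤ 2 * B.card + 1 ∧ 2 * B.card ≤ A.card + 1)) →
      ((∀ A ∈ E, A.Nonempty) ∧ (Finset.univ ∈ E) ∧ (∀ i : Fin n, ({i} : Finset (Fin n)) ∈ E) ∧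
        (∀ A ∈ E, ∀ B ∈ E, A ⊆ B ∨ B ⊆ A ∨ Disjoint A B) ∧
        (∀ A ∈ E, 2 ≤ A.card → ∃ B ∈ E, ∃ D ∈ E, Disjoint B D ∧ B ∪ D = A) ∧
        (∀ A ∈ E, ∀ B ∈ E, B ⊂ A → (∀ D ∈ E, B ⊆ D → D ⊆ A → D = B ∨ D = A) →
          A.card ≤ 2 * B.card + 1 ∧ 2 * B.card ≤ A.card + 1)) →
      ((∀ A ∈ T, A.Nonempty) ∧ (Finset.univ ∈ T) ∧ (∀ i : Fin n, ({i} : Finset (Fin n)) ∈ T) ∧
        (∀ A ∈ T, ∀ B ∈ T, A ⊆ B ∨ B ⊆ A ∨ Disjoint A B) ∧
        (∀ A ∈ T, 2 ≤ A.card → ∃ B ∈ T, ∃ D ∈ T, Disjoint B D ∧ B ∪ D = A)) →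
      {L : Finset (Fin n) | ∃ f : Fin k → Fin n, Function.Injective f ∧
          Finset.univ.image f = L ∧
          ∀ B : Finset (Fin k), B ∈ F ↔ (B.Nonempty ∧ ∃ A ∈ T, B.image f = A ∩ L)}.ncard
        ≤
      {L : Finset (Fin n) | ∃ f : Fin k → Fin n, Function.Injective f ∧
          Finset.univ.image f = L ∧
          ∀ B : Finset (Fin k), B ∈ F ↔ (B.Nonempty ∧ ∃ A ∈ E, B.image f = A ∩ L)}.ncard := by
  intro k n _ _ F E T ⟨f1, f2, _, f4, f5, f6⟩ ⟨e1, e2, _, e4, e5, e6⟩ ⟨t1, t2, _, t4, t5⟩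
  have hU := H7.EvenTree.upper (T := T) t4 t1 t5 _ _ t2 rfl k
  have hE := H7.EvenTree.exact_even (T := E) e4 e1 e5 e6 _ _ e2 rfl k
  have hle : (H7.EvenTree.GS T Finset.univ k).card ≤ (H7.EvenTree.GS E Finset.univ k).card := by
    rw [← hE] at hU; exact_mod_cast hU
  refine le_trans ?_ (le_trans hle ?_)
  · rw [← Set.ncard_coe_finset]
    refine Set.ncard_le_ncard ?_ (Finset.finite_toSet _)
    rintro L ⟨f, hf, hL, hc⟩
    refine Finset.mem_coe.2 (H7.EvenTree.mem_GS.2 ⟨Finset.subset_univ _, ?_, ?_⟩)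
    · rw [← hL, Finset.card_image_of_injective _ hf, Finset.card_univ, Fintype.card_fin]
    · have := H7.EvenTree.good_of_copy (F := F) f4 f1 f5 f6 hf (fun B hB => ((hc B).1 hB).2) _ _ f2 rfl
      rwa [hL] at this
  · rw [← Set.ncard_coe_finset]
    refine Set.ncard_le_ncard ?_ (Set.toFinite _)
    intro L hL
    obtain ⟨-, hk, hG⟩ := H7.EvenTree.mem_GS.1 (Finset.mem_coe.1 hL)
    obtain ⟨f, h1, h2, h3⟩ := H7.EvenTree.copy_of_good (F := F) f4 f1 f5 f6 (E := E) e4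
      ⟨_, e2, Finset.mem_univ⟩ hG _ f2 (by rw [hk, Finset.card_univ, Fintype.card_fin])
    exact ⟨f, fun i j hij => h1 (Finset.mem_coe.2 (Finset.mem_univ i))
      (Finset.mem_coe.2 (Finset.mem_univ j)) hij, h2, fun B => h3 B (Finset.subset_univ B)⟩

end Pool.Agent.S12385
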