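import Pool.Statements.S12504
-- import your own Pool.Agent.* helpers here

set_option autoImplicit false
open Pool Pool.MP_f90e5e_co

namespace Pool.Agent.S12504

open SimpleGraph

def mu : Fin 3 → Fin 16 → Fin 16 :=
  ![![6, 7, 3, 2, 5, 4, 0, 1, 14, 15, 11, 10, 13, 12, 8, 9],
    ![5, 4, 7, 6, 1, 0, 3, 2, 13, 12, 15, 14, 9, 8, 11, 10],
    ![7, 2, 1, 4, 3, 6, 5, 0, 15, 10, 9, 12, 11, 14, 13, 8]]

theorem mu_mu : ∀ i v, mu i (mu i v) = v := by decide +kernel
theorem mu_ne : ∀ i v, v ≠ mu i v := by decide +kernel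
theorem mu_inj : ∀ i j v, mu i v = mu j v → i = j := by decide +kernel

def MM (i : Fin 3) : (⊤ : SimpleGraph (Fin 16)).Subgraph where
  verts := Set.univ
  Adj u v := mu i u = v
  adj_sub := fun h => h ▸ mu_ne _ _
  edge_vert := fun _ => trivial
  symm := ⟨fun _ _ h => h ▸ mu_mu _ _⟩

theorem MM_pm (i : Fin 3) : (MM i).IsPerfectMatching :=
  ⟨fun v _ => ⟨mu i v, rfl, fun _ h => Eq.symm h⟩, fun _ => trivial⟩

theorem MM_disj (i j : Fin 3) (h : i ≠ j) : Disjoint (MM i).edgeSet (MM j).edgeSet := by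
  rw [Set.disjoint_left]
  intro e
  induction e using Sym2.ind with
  | _ u v => exact fun h1 h2 => h (mu_inj i j u ((show mu i u = v from h1).trans
      (show mu j u = v from h2).symm))

def G : SimpleGraph (Fin 16) where
  Adj u v := (mu 0 u = v ∨ mu 1 u = v) ∨ mu 2 u = v
  symm := ⟨by decide +kernel⟩
  loopless := ⟨by decide +kernel⟩

instance : DecidableRel G.Adj := fun u v =>
  inferInstanceAs (Decidable ((mu 0 u = v ∨ mu 1 u = v) ∨ mu 2 u = v))

open Classical in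
theorem count (M : G.Subgraph) (i : Fin 3) : (M.edgeSet ∩ (MM i).edgeSet).ncard =
    ∑ v : Fin 16, if v < mu i v then (if M.Adj v (mu i v) then 1 else 0) else 0 := by
  have : M.edgeSet ∩ (MM i).edgeSet = ↑((Finset.univ.filter
      (fun v => v < mu i v ∧ M.Adj v (mu i v))).image (fun v => s(v, mu i v))) := by
    ext e
    induction e using Sym2.ind with
    | _ u v =>
      simp only [Set.mem_inter_iff, Subgraph.mem_edgeSet, Finset.coe_image, Finset.coe_filter,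
        Finset.mem_univ, true_and, Set.mem_image, Set.mem_ofPred_eq]
      constructor
      · rintro ⟨h1, h2⟩
        obtain rfl : mu i u = v := h2
        rcases lt_or_gt_of_ne (mu_ne i u) with h | h
        · exact ⟨u, ⟨h, h1⟩, rfl⟩
        · refine ⟨mu i u, ?_, ?_⟩
          · rw [mu_mu]; exact ⟨h, h1.symm⟩
          · rw [mu_mu, Sym2.eq_swap]
      · rintro ⟨w, ⟨-, h1⟩, h2⟩
        rcases Sym2.eq_iff.1 h2 with ⟨rfl, rfl⟩ | ⟨rfl, rfl⟩
        · exact ⟨h1, rfl⟩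
        · exact ⟨h1.symm, mu_mu _ _⟩
  rw [this, Set.ncard_coe_finset, Finset.card_image_of_injOn, Finset.card_filter]
  · exact Finset.sum_congr rfl (fun v _ => by by_cases v < mu i v <;> simp [*])
  · intro a ha b hb e
    have ha := (Finset.mem_filter.1 ha).2.1
    have hb := (Finset.mem_filter.1 hb).2.1
    rcases Sym2.eq_iff.1 e with ⟨h, -⟩ | ⟨h1, h2⟩
    · exact h
    · rw [h2] at ha; rw [← h1] at hb; exact absurd ha (lt_asymm hb)

theorem half (a b c d e f g h i j k l : ℕ)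
    (h0 : c + f + l ≤ 1) (h1 : d + e + i ≤ 1) (h2 : a + h + i ≤ 1) (h3 : a + g + j ≤ 1)
    (h4 : b + e + j ≤ 1) (h5 : b + f + k ≤ 1) (h6 : c + g + k ≤ 1) (h7 : d + h + l ≤ 1)
    (s1 : a + b + c + d ≤ 3) (s2 : e + f + g + h ≤ 3) (s3 : i + j + k + l ≤ 1) :
    a + b + c + d + (e + f + g + h) + (i + j + k + l) ≤ 3 := by omega

/-- The negation of the preceding statement: If a graph on 2n vertices is the union of three edge-disjoint perfect matchings and has a component not isomorphic to K4, then for all a1+a2+a3=n-1 it has a matching using exactly ai edges from the i-th matching. -/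
theorem result :
    ¬ (∀ (V : Type) [Fintype V] (n : ℕ), Fintype.card V = 2 * n →
    ∀ (M₁ M₂ M₃ : (⊤ : SimpleGraph V).Subgraph),
      M₁.IsPerfectMatching → M₂.IsPerfectMatching → M₃.IsPerfectMatching →
      Disjoint M₁.edgeSet M₂.edgeSet → Disjoint M₁.edgeSet M₃.edgeSet →
      Disjoint M₂.edgeSet M₃.edgeSet →
      ∀ G : SimpleGraph V, G.edgeSet = M₁.edgeSet ∪ M₂.edgeSet ∪ M₃.edgeSet →
      (∃ c : G.ConnectedComponent,
        IsEmpty (G.induce c.supp ≃g (⊤ : SimpleGraph (Fin 4)))) →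
      ∀ a₁ a₂ a₃ : ℕ, a₁ + a₂ + a₃ + 1 = n →
      ∃ M : G.Subgraph, M.IsMatching ∧
        (M.edgeSet ∩ M₁.edgeSet).ncard = a₁ ∧
        (M.edgeSet ∩ M₂.edgeSet).ncard = a₂ ∧
        (M.edgeSet ∩ M₃.edgeSet).ncard = a₃) := by
  intro H
  classical
  obtain ⟨M, hM, c0, c1, c2⟩ := H (Fin 16) 8 (by simp) (MM 0) (MM 1) (MM 2) (MM_pm 0) (MM_pm 1)
    (MM_pm 2) (MM_disj 0 1 (by decide)) (MM_disj 0 2 (by decide)) (MM_disj 1 2 (by decide)) G
    (by
      ext e
      induction e using Sym2.ind with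
      | _ u v => rfl)
    ⟨G.connectedComponentMk 0, ⟨fun e => by
      have r : ∀ v w, G.Adj v w → v ∈ (G.connectedComponentMk 0).supp →
          w ∈ (G.connectedComponentMk 0).supp := fun v w h hv =>
        (ConnectedComponent.connectedComponentMk_eq_of_adj h).symm.trans hv
      have h0 : (0 : Fin 16) ∈ (G.connectedComponentMk 0).supp := rfl
      have h7 := r 0 7 (by decide) h0
      have h1 := r 7 1 (by decide) h7
      have := e.map_rel_iff.1 (show (⊤ : SimpleGraph (Fin 4)).Adj (e ⟨0, h0⟩) (e ⟨1, h1⟩) from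
        fun h => by simpa using e.injective h)
      exact absurd (show G.Adj 0 1 from this) (by decide)⟩⟩ 3 3 1 rfl
  rw [count] at c0 c1 c2
  obtain ⟨x, hx⟩ : ∃ x : Fin 3 → Fin 16 → ℕ,
    ∀ i v, x i v = if M.Adj v (mu i v) then 1 else 0 := ⟨_, fun _ _ => rfl⟩
  simp only [← hx] at c0 c1 c2
  have hs : ∀ i v, x i (mu i v) = x i v := by
    intro i v
    rw [hx, hx, mu_mu]
    exact if_congr (M.adj_comm _ _) rfl rfl
  have hv : ∀ v, x 0 v + x 1 v + x 2 v ≤ 1 := by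
    intro v
    have u : ∀ i j, i ≠ j → M.Adj v (mu i v) → ¬ M.Adj v (mu j v) := fun i j hij h1 h2 =>
      hij (mu_inj i j v ((hM (M.edge_vert h1)).unique h1 h2))
    have u01 := u 0 1 (by decide)
    have u02 := u 0 2 (by decide)
    have u12 := u 1 2 (by decide)
    simp only [hx]
    split_ifs <;> simp_all
  simp [Fin.sum_univ_succ, mu] at c0 c1 c2
  have s0_3 : x 0 3 = x 0 2 := hs 0 2
  have s0_11 : x 0 11 = x 0 10 := hs 0 10
  have s0_5 : x 0 5 = x 0 4 := hs 0 4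
  have s0_13 : x 0 13 = x 0 12 := hs 0 12
  have s0_6 : x 0 6 = x 0 0 := hs 0 0
  have s0_14 : x 0 14 = x 0 8 := hs 0 8
  have s0_7 : x 0 7 = x 0 1 := hs 0 1
  have s0_15 : x 0 15 = x 0 9 := hs 0 9
  have s1_4 : x 1 4 = x 1 1 := hs 1 1
  have s1_12 : x 1 12 = x 1 9 := hs 1 9
  have s1_5 : x 1 5 = x 1 0 := hs 1 0
  have s1_13 : x 1 13 = x 1 8 := hs 1 8
  have s1_6 : x 1 6 = x 1 3 := hs 1 3
  have s1_14 : x 1 14 = x 1 11 := hs 1 11
  have s1_7 : x 1 7 = x 1 2 := hs 1 2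
  have s1_15 : x 1 15 = x 1 10 := hs 1 10
  have s2_2 : x 2 2 = x 2 1 := hs 2 1
  have s2_10 : x 2 10 = x 2 9 := hs 2 9
  have s2_4 : x 2 4 = x 2 3 := hs 2 3
  have s2_12 : x 2 12 = x 2 11 := hs 2 11
  have s2_6 : x 2 6 = x 2 5 := hs 2 5
  have s2_14 : x 2 14 = x 2 13 := hs 2 13
  have s2_7 : x 2 7 = x 2 0 := hs 2 0
  have s2_15 : x 2 15 = x 2 8 := hs 2 8
  have v0 := hv 0
  have v1 := hv 1
  have v2 := hv 2
  have v3 := hv 3
  have v4 := hv 4
  have v5 := hv 5
  have v6 := hv 6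
  have v7 := hv 7
  have v8 := hv 8
  have v9 := hv 9
  have v10 := hv 10
  have v11 := hv 11
  have v12 := hv 12
  have v13 := hv 13
  have v14 := hv 14
  have v15 := hv 15
  simp only [s0_3, s0_11, s0_5, s0_13, s0_6, s0_14, s0_7, s0_15, s1_4, s1_12, s1_5, s1_13, s1_6, s1_14, s1_7, s1_15, s2_2, s2_10, s2_4, s2_12, s2_6, s2_14, s2_7, s2_15] at v0 v1 v2 v3 v4 v5 v6 v7 v8 v9 v10 v11 v12 v13 v14 v15
  have A := half (x 0 2) (x 0 4) (x 0 0) (x 0 1) (x 1 1) (x 1 0) (x 1 3) (x 1 2) (x 2 1) (x 2 3) (x 2 5) (x 2 0)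
    v0 v1 v2 v3 v4 v5 v6 v7
    (by clear * - c0; omega) (by clear * - c1; omega) (by clear * - c2; omega)
  have B := half (x 0 10) (x 0 12) (x 0 8) (x 0 9) (x 1 9) (x 1 8) (x 1 11) (x 1 10) (x 2 9) (x 2 11) (x 2 13) (x 2 8)
    v8 v9 v10 v11 v12 v13 v14 v15
    (by clear * - c0; omega) (by clear * - c1; omega) (by clear * - c2; omega)
  clear * - A B c0 c1 c2
  omega

end Pool.Agent.S12504
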