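import Pool.Statements.S12514
import Pool.Agent.H4.PST2

set_option autoImplicit false
open Pool Pool.MP_f96bdb_co

namespace Pool.Agent.S12514

/-- The negation of the preceding statement: There are k > 3 and c > 0 such that every finite connected graph with perfect state transfer between two distinct vertices (exp(itA)e_u = γe_v, ∣γ∣=1) has edge count at least c·D^k, D its diameter. -/
theorem result :
    ¬ (∃ k : ℝ, 3 < k ∧ ∃ c : ℝ, 0 < c ∧
      ∀ (V : Type) [Fintype V] [DecidableEq V] (G : SimpleGraph V) [DecidableRel G.Adj],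
        G.Connected →
        (∃ u v : V, u ≠ v ∧ ∃ t : ℝ, ∃ γ : ℂ, ‖γ‖ = 1 ∧
          (NormedSpace.exp ((Complex.I * (t : ℂ)) • G.adjMatrix ℂ)).mulVec (Pi.single u 1)
            = Pi.single v γ) →
        c * (G.diam : ℝ) ^ k ≤ (G.edgeFinset.card : ℝ)) := by
  rintro ⟨k, hk, c, hc, h⟩
  have key : ∀ n : ℕ, 1 ≤ n → c * (n : ℝ) ^ (k - 3) ≤ 2112 := by
    intro n hn
    have h1 := h (Pool.Agent.H4.PST.W n × Bool) (Pool.Agent.H4.PST.GG n)
      (Pool.Agent.H4.PST.GG_connected n hn)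
      ⟨(Pool.Agent.H4.PST.root n hn, false), (Pool.Agent.H4.PST.root n hn, true), by simp,
        Real.pi / 2, Complex.I, by simp, Pool.Agent.H4.PST.GG_pst n hn⟩
    have h2 : ((Pool.Agent.H4.PST.GG n).edgeFinset.card : ℝ) ≤ 2112 * (n : ℝ) ^ 3 := by
      exact_mod_cast Pool.Agent.H4.PST.GG_edges n hn
    have h3 : (n : ℝ) ≤ ((Pool.Agent.H4.PST.GG n).diam : ℝ) := by
      exact_mod_cast Pool.Agent.H4.PST.GG_diam n hn
    have hn0 : (0 : ℝ) < n := by exact_mod_cast hn
    have h4 : (n : ℝ) ^ k ≤ ((Pool.Agent.H4.PST.GG n).diam : ℝ) ^ k :=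
      Real.rpow_le_rpow hn0.le h3 (by linarith)
    have h5 : (n : ℝ) ^ k = (n : ℝ) ^ (k - 3) * (n : ℝ) ^ 3 := by
      rw [← Real.rpow_natCast, ← Real.rpow_add hn0]
      congr 1
      push_cast
      ring
    have h6 : c * (n : ℝ) ^ k ≤ 2112 * (n : ℝ) ^ 3 :=
      le_trans (mul_le_mul_of_nonneg_left h4 hc.le) (h1.trans h2)
    rw [h5, ← mul_assoc] at h6
    exact le_of_mul_le_mul_right h6 (by positivity)
  have ht : Filter.Tendsto (fun n : ℕ => c * (n : ℝ) ^ (k - 3)) Filter.atTop Filter.atTop :=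
    Filter.Tendsto.const_mul_atTop hc
      ((tendsto_rpow_atTop (by linarith)).comp tendsto_natCast_atTop_atTop)
  obtain ⟨n, hn1, hn2⟩ := ((ht.eventually_gt_atTop 2112).and (Filter.eventually_ge_atTop 1)).exists
  have := key n hn2
  linarith

end Pool.Agent.S12514
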