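import Pool.Statements.S12526
import Pool.Agent.H11.IRG

set_option autoImplicit false
open Pool Pool.MP_fa3e6d_co

namespace Pool.Agent.S12526
open Pool.Agent.H11.IRG

lemma adj_iff : ∀ i j : Fin 7,
    (i ≠ j ∧ ((∃ v ∈ f i, ∃ v' ∈ f j, G.Adj v v' ∧ f j = insert v' ((f i).erase v)) ∨
      (∃ v ∈ f j, ∃ v' ∈ f i, G.Adj v v' ∧ f i = insert v' ((f j).erase v)))) ↔
    (i.val + 1 = j.val ∨ j.val + 1 = i.val) := by
  decide +kernel

/-- The negation of the preceding statement: For every finite graph G, its slide IR-graph (maximum irredundant sets, adjacent when one is obtained from the other by sliding a vertex along an edge) is not isomorphic to any path on n≥3 vertices nor any cycle on n≥5 vertices. -/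
theorem result :
    ¬ (∀ (m : ℕ) (G : SimpleGraph (Fin m)),
      (∀ n : ℕ, 3 ≤ n →
        IsEmpty (SimpleGraph.pathGraph n ≃g
          SimpleGraph.fromRel
            (fun D D' : {S : Finset (Fin m) //
                (∀ v ∈ S, ∃ w, (w = v ∨ G.Adj v w) ∧ ∀ u ∈ S, u ≠ v → ¬ (w = u ∨ G.Adj u w)) ∧
                ∀ T : Finset (Fin m),
                  (∀ v ∈ T, ∃ w, (w = v ∨ G.Adj v w) ∧ ∀ u ∈ T, u ≠ v → ¬ (w = u ∨ G.Adj u w)) →
                  T.card ≤ S.card} =>
              ∃ v ∈ D.1, ∃ v' ∈ D'.1, G.Adj v v' ∧ D'.1 = insert v' (D.1.erase v)))) ∧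
      (∀ n : ℕ, 5 ≤ n →
        IsEmpty (SimpleGraph.cycleGraph n ≃g
          SimpleGraph.fromRel
            (fun D D' : {S : Finset (Fin m) //
                (∀ v ∈ S, ∃ w, (w = v ∨ G.Adj v w) ∧ ∀ u ∈ S, u ≠ v → ¬ (w = u ∨ G.Adj u w)) ∧
                ∀ T : Finset (Fin m),
                  (∀ v ∈ T, ∃ w, (w = v ∨ G.Adj v w) ∧ ∀ u ∈ T, u ≠ v → ¬ (w = u ∨ G.Adj u w)) →
                  T.card ≤ S.card} =>
              ∃ v ∈ D.1, ∃ v' ∈ D'.1, G.Adj v v' ∧ D'.1 = insert v' (D.1.erase v))))) := by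
  intro H
  refine ((H 9 G).1 7 (by norm_num)).false ⟨Equiv.ofBijective g g_bij, ?_⟩
  intro i j
  rw [SimpleGraph.pathGraph_adj, SimpleGraph.fromRel_adj, ← adj_iff]
  simp only [Equiv.ofBijective_apply, g_ne, g_val]

end Pool.Agent.S12526
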