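import Pool.Statements.S12606
import Pool.Agent.H15.DP1

set_option autoImplicit false
open scoped Classical
open Pool Pool.MP_fd346d_co

namespace Pool.Agent.S12606

theorem result :
    ¬ (∀ (P Q : Type) [PartialOrder P] [PartialOrder Q], Nontrivial P → Nontrivial Q →
      (∃ d : ℕ, ∃ r : Fin d → P → P → Prop,
        (∀ i, (∀ x, r i x x) ∧ (∀ x y z, r i x y → r i y z → r i x z) ∧
          (∀ x y, r i x y → r i y x → x = y) ∧ (∀ x y, r i x y ∨ r i y x)) ∧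
        ∀ x y, x ≤ y ↔ ∀ i, r i x y) →
      (∃ d : ℕ, ∃ r : Fin d → Q → Q → Prop,
        (∀ i, (∀ x, r i x x) ∧ (∀ x y z, r i x y → r i y z → r i x z) ∧
          (∀ x y, r i x y → r i y x → x = y) ∧ (∀ x y, r i x y ∨ r i y x)) ∧
        ∀ x y, x ≤ y ↔ ∀ i, r i x y) →
      ∀ n : ℕ,
        (∃ r : Fin n → P × Q → P × Q → Prop,
          (∀ i, (∀ x, r i x x) ∧ (∀ x y z, r i x y → r i y z → r i x z) ∧
            (∀ x y, r i x y → r i y x → x = y) ∧ (∀ x y, r i x y ∨ r i y x)) ∧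
          ∀ x y, x ≤ y ↔ ∀ i, r i x y) →
        ∃ a c : ℕ,
          a + c ≤ n + ((if (∃ x : P, ∀ y, x ≤ y) ∧ (∃ x : P, ∀ y, y ≤ x) then 0 else 1) +
                       (if (∃ x : Q, ∀ y, x ≤ y) ∧ (∃ x : Q, ∀ y, y ≤ x) then 0 else 1)) ∧
          (∃ r : Fin a → P → P → Prop,
            (∀ i, (∀ x, r i x x) ∧ (∀ x y z, r i x y → r i y z → r i x z) ∧
              (∀ x y, r i x y → r i y x → x = y) ∧ (∀ x y, r i x y ∨ r i y x)) ∧
            ∀ x y, x ≤ y ↔ ∀ i, r i x y) ∧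
          (∃ r : Fin c → Q → Q → Prop,
            (∀ i, (∀ x, r i x x) ∧ (∀ x y z, r i x y → r i y z → r i x z) ∧
              (∀ x y, r i x y → r i y x → x = y) ∧ (∀ x y, r i x y ∨ r i y x)) ∧
            ∀ x y, x ≤ y ↔ ∀ i, r i x y)) := by
  intro H
  obtain ⟨a, c, hac, ⟨r1, h1, h1'⟩, ⟨r2, h2, h2'⟩⟩ :=
    H (Bool × Bool) Pool.Agent.H15.DP1.S3 inferInstance
      ⟨⟨Pool.Agent.H15.DP1.pt 0 false, Pool.Agent.H15.DP1.pt 0 true, by decide⟩⟩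
      ⟨2, fun i x y => Pool.Agent.H15.DP1.k2 i x ≤ Pool.Agent.H15.DP1.k2 i y,
        fun i => ⟨fun _ => le_rfl, fun _ _ _ => le_trans, Pool.Agent.H15.DP1.k2_inj i,
          fun _ _ => le_total _ _⟩, Pool.Agent.H15.DP1.k2_le⟩
      ⟨3, fun i x y => Pool.Agent.H15.DP1.pos i x ≤ Pool.Agent.H15.DP1.pos i y,
        fun i => ⟨fun _ => le_rfl, fun _ _ _ => le_trans, Pool.Agent.H15.DP1.pos_inj i,
          fun _ _ => le_total _ _⟩, Pool.Agent.H15.DP1.pos_le⟩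
      3
      ⟨fun i x y => Pool.Agent.H15.DP1.key i x ≤ Pool.Agent.H15.DP1.key i y,
        fun i => ⟨fun _ => le_rfl, fun _ _ _ => le_trans, Pool.Agent.H15.DP1.key_inj i,
          fun _ _ => le_total _ _⟩, Pool.Agent.H15.DP1.key_le⟩
  have ha := Pool.Agent.H15.DP1.two_le a r1 (fun i => (h1 i).2.2.2) h1'
  have hc := Pool.Agent.H15.DP1.three_le c r2 (fun i => (h2 i).2.1) (fun i => (h2 i).2.2.2) h2'
  have hb : (∃ x : Bool × Bool, ∀ y, x ≤ y) ∧ (∃ x : Bool × Bool, ∀ y, y ≤ x) :=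
    ⟨⟨⊥, fun _ => bot_le⟩, ⟨⊤, fun _ => le_top⟩⟩
  rw [if_pos hb] at hac
  split_ifs at hac <;> omega

end Pool.Agent.S12606
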