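import Pool.Statements.S12612

set_option autoImplicit false
open Pool Pool.MP_fd6c89_co

namespace Pool.Agent.S12612

open Finset Pointwise in
theorem sidon (A : Finset ℕ) (N t : ℕ) (hA : ∀ a ∈ A, a < N)
    (hw : ∀ a ∈ A, ∀ b ∈ A, ∀ c ∈ A, ∀ d ∈ A, a ≠ b → c ≠ d → a + b = c + d →
      (a = c ∧ b = d) ∨ (a = d ∧ b = c)) :
    A.card ^ 2 * t ^ 2 ≤ (N + t) * (A.card * t + (t * t + A.card * t * 2)) := by
  classical
  have h := le_card_add_mul_addEnergy A (range t)
  rw [card_range] at h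
  refine h.trans (Nat.mul_le_mul ?_ ?_)
  · refine (card_le_card (t := range (N + t)) ?_).trans (card_range _).le
    intro x hx
    obtain ⟨a, ha, y, hy, rfl⟩ := mem_add.1 hx
    have := hA a ha
    rw [mem_range] at hy ⊢
    omega
  unfold addEnergy
  set Q := ((A ×ˢ A) ×ˢ range t ×ˢ range t).filter
    (fun x : (ℕ × ℕ) × ℕ × ℕ => x.1.1 + x.2.1 = x.1.2 + x.2.2) with hQ
  have mem : ∀ x ∈ Q, x.1.1 ∈ A ∧ x.1.2 ∈ A ∧ x.2.1 < t ∧ x.2.2 < t ∧
      x.1.1 + x.2.1 = x.1.2 + x.2.2 := by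
    intro x hx
    simp only [hQ, mem_filter, mem_product, mem_range] at hx
    exact ⟨hx.1.1.1, hx.1.1.2, hx.1.2.1, hx.1.2.2, hx.2⟩
  let P0 : (ℕ × ℕ) × ℕ × ℕ → Prop := fun x => x.1.1 = x.1.2
  let P1 : (ℕ × ℕ) × ℕ × ℕ → Prop := fun x => ∃ c ∈ A, x.1.2 + c = 2 * x.1.1
  rw [← card_filter_add_card_filter_not (s := Q) P0,
    ← card_filter_add_card_filter_not (s := Q.filter (fun x => ¬ P0 x)) P1, add_comm #_ #_]
  refine Nat.add_le_add ?_ (Nat.add_le_add ?_ ?_)
  · refine (card_le_card_of_injOn (t := A ×ˢ range t) (fun x => (x.1.1, x.2.1)) ?_ ?_).trans ?_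
    · intro x hx
      have := mem x (mem_filter.1 hx).1
      exact mem_coe.2 (mem_product.2 ⟨this.1, mem_range.2 this.2.2.1⟩)
    · rintro ⟨⟨a, b⟩, x, y⟩ hx ⟨⟨a', b'⟩, x', y'⟩ hx' h
      have m1 := mem _ (mem_filter.1 hx).1
      have m2 := mem _ (mem_filter.1 hx').1
      have e1 : a = b := (mem_filter.1 hx).2
      have e2 : a' = b' := (mem_filter.1 hx').2
      simp only [Prod.mk.injEq] at h m1 m2 ⊢
      omega
    · rw [card_product, card_range]
  · refine (card_le_card_of_injOn (t := range t ×ˢ range t) (fun x => x.2) ?_ ?_).trans ?_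
    · intro x hx
      have := mem x (mem_filter.1 (mem_filter.1 hx).1).1
      exact mem_coe.2 (mem_product.2 ⟨mem_range.2 this.2.2.1, mem_range.2 this.2.2.2.1⟩)
    · rintro ⟨⟨a, b⟩, x, y⟩ hx ⟨⟨a', b'⟩, x', y'⟩ hx' h
      have m1 := mem _ (mem_filter.1 (mem_filter.1 hx).1).1
      have m2 := mem _ (mem_filter.1 (mem_filter.1 hx').1).1
      have e1 : a ≠ b := (mem_filter.1 (mem_filter.1 hx).1).2
      have g1 : ¬ ∃ c ∈ A, b + c = 2 * a := (mem_filter.1 hx).2
      have g2 : ¬ ∃ c ∈ A, b' + c = 2 * a' := (mem_filter.1 hx').2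
      simp only [Prod.mk.injEq] at h m1 m2 ⊢
      have k1 : a ≠ b' := fun k => g1 ⟨a', m2.1, by omega⟩
      have k2 : a' ≠ b := fun k => g2 ⟨a, m1.1, by omega⟩
      have := hw a m1.1 b' m2.2.1 a' m2.1 b m1.2.1 k1 k2 (by omega)
      omega
    · rw [card_product, card_range]
  · refine (card_le_card_of_injOn (t := (A ×ˢ range t) ×ˢ (univ : Finset Bool))
      (fun x => ((x.1.1, x.2.1), decide (x.1.2 < x.1.1))) ?_ ?_).trans ?_
    · intro x hx
      have := mem x (mem_filter.1 (mem_filter.1 hx).1).1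
      exact mem_coe.2 (mem_product.2 ⟨mem_product.2 ⟨this.1, mem_range.2 this.2.2.1⟩, mem_univ _⟩)
    · rintro ⟨⟨a, b⟩, x, y⟩ hx ⟨⟨a', b'⟩, x', y'⟩ hx' h
      have m1 := mem _ (mem_filter.1 (mem_filter.1 hx).1).1
      have m2 := mem _ (mem_filter.1 (mem_filter.1 hx').1).1
      have e1 : a ≠ b := (mem_filter.1 (mem_filter.1 hx).1).2
      have e2 : a' ≠ b' := (mem_filter.1 (mem_filter.1 hx').1).2
      obtain ⟨c, hc, g1⟩ : ∃ c ∈ A, b + c = 2 * a := (mem_filter.1 hx).2
      obtain ⟨c', hc', g2⟩ : ∃ c ∈ A, b' + c = 2 * a' := (mem_filter.1 hx').2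
      simp only [Prod.mk.injEq, decide_eq_decide] at h m1 m2 ⊢
      have := hw b m1.2.1 c hc b' m2.2.1 c' hc' (by omega) (by omega) (by omega)
      omega
    · rw [card_product, card_product, card_range, card_univ, Fintype.card_bool]

/-- vertices of the subdivided complete graph -/
abbrev W : Type := Fin 50 ⊕ {z : Sym2 (Fin 50) // ¬ z.IsDiag}

def adj : W → W → Prop
  | Sum.inl i, Sum.inr z => i ∈ z.1
  | Sum.inr z, Sum.inl i => i ∈ z.1
  | Sum.inl _, Sum.inl _ => False
  | Sum.inr _, Sum.inr _ => False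

def sub : SimpleGraph W where
  Adj := adj
  symm := ⟨fun x y h => by cases x <;> cases y <;> exact h⟩
  loopless := ⟨fun x h => by cases x <;> exact h⟩

theorem distinct (u v : W) (h : u ≠ v) : sub.neighborSet u ≠ sub.neighborSet v := by
  intro e
  have k : ∀ w, adj u w ↔ adj v w := fun w => Set.ext_iff.1 e w
  rcases u with i | z <;> rcases v with j | z'
  · have hij : i ≠ j := fun h' => h (congrArg _ h')
    obtain ⟨l, h1, h2⟩ : ∃ l : Fin 50, i ≠ l ∧ j ≠ l := by
      by_cases a : i ≠ 0 ∧ j ≠ 0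
      · exact ⟨0, a⟩
      by_cases b : i ≠ 1 ∧ j ≠ 1
      · exact ⟨1, b⟩
      exact ⟨2, by omega, by omega⟩
    have := (k (Sum.inr ⟨s(i, l), by simpa using h1⟩)).1 (Sym2.mem_mk_left _ _)
    rcases Sym2.mem_iff.1 this with h3 | h3
    · exact hij h3.symm
    · exact h2 h3
  · exact (k (Sum.inl z'.1.out.1)).2 (Sym2.out_fst_mem _)
  · exact (k (Sum.inl z.1.out.1)).1 (Sym2.out_fst_mem _)
  · exact h (congrArg _ (Subtype.ext (Sym2.ext (fun i => k (Sum.inl i)))))

/-- The negation of the preceding statement: For every finite simple graph, there is a bijective labeling of the vertices by 1..n making all neighbour-label sums distinct if and only if distinct vertices always have distinct open neighbourhoods. -/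
theorem result :
    ¬ (∀ (V : Type) [Fintype V] [DecidableEq V] (G : SimpleGraph V) [DecidableRel G.Adj],
      (∃ f : V ≃ Fin (Fintype.card V),
          Function.Injective
            (fun v : V => ∑ u ∈ G.neighborFinset v, ((f u : ℕ) + 1)))
        ↔ ∀ u v : V, u ≠ v → G.neighborSet u ≠ G.neighborSet v) := by
  classical
  intro h
  obtain ⟨f, hf⟩ := (h W sub).2 distinct
  have hc : Fintype.card W = 1275 := by
    rw [Fintype.card_sum, Sym2.card_subtype_not_diag, Fintype.card_fin]; rfl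
  let a : Fin 50 → ℕ := fun i => f (Sum.inl i)
  have ai : Function.Injective a := fun i j e => Sum.inl.inj (f.injective (Fin.ext e))
  have wt : ∀ i j (hij : i ≠ j), ∑ u ∈ sub.neighborFinset (Sum.inr ⟨s(i, j), by simpa using hij⟩),
      ((f u : ℕ) + 1) = a i + a j + 2 := by
    intro i j hij
    have : sub.neighborFinset (Sum.inr ⟨s(i, j), by simpa using hij⟩) = {Sum.inl i, Sum.inl j} := by
      ext u
      rw [SimpleGraph.mem_neighborFinset]
      rcases u with l | z
      · exact Sym2.mem_iff.trans (by simp)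
      · simp only [Finset.mem_insert, Finset.mem_singleton, reduceCtorEq, or_self]
        exact Iff.rfl
    rw [this, Finset.sum_pair (by simpa using hij)]
    simp only [a]; omega
  have := sidon (Finset.univ.image a) 1275 250 (by
    intro x hx
    obtain ⟨i, -, rfl⟩ := Finset.mem_image.1 hx
    exact hc ▸ (f (Sum.inl i)).2) (by
    simp only [Finset.mem_image, Finset.mem_univ, true_and]
    rintro _ ⟨i, rfl⟩ _ ⟨j, rfl⟩ _ ⟨k, rfl⟩ _ ⟨l, rfl⟩ h1 h2 h3
    have hij : i ≠ j := fun e => h1 (congrArg a e)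
    have hkl : k ≠ l := fun e => h2 (congrArg a e)
    have e := hf (a₁ := Sum.inr ⟨s(i, j), by simpa using hij⟩)
      (a₂ := Sum.inr ⟨s(k, l), by simpa using hkl⟩) (by simp only [wt i j hij, wt k l hkl, h3])
    have e' : s(i, j) = s(k, l) := congrArg Subtype.val (Sum.inr.inj e)
    rcases Sym2.eq_iff.1 e' with ⟨rfl, rfl⟩ | ⟨rfl, rfl⟩
    · exact Or.inl ⟨rfl, rfl⟩
    · exact Or.inr ⟨rfl, rfl⟩)
  rw [Finset.card_image_of_injective _ ai, Finset.card_univ, Fintype.card_fin] at this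
  omega

end Pool.Agent.S12612
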