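import Pool.Statements.S12700
import Pool.Agent.H25.TrInd2

set_option autoImplicit false
open Pool Pool.MP_0764dd_gt

namespace Pool.Agent.S12700

/-- The negation of the preceding statement: If a compact Hausdorff space is a union of countably many subspaces, each having small transfinite inductive dimension trind, then the whole space has small transfinite inductive dimension. -/
theorem result :
    ¬ (∀ (X : Type) [TopologicalSpace X] [CompactSpace X] [T2Space X] (A : ℕ → Set X),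
      (⋃ n, A n) = Set.univ →
      (∀ n, ∃ (𝒮 : Set (Set X)) (f : Set X → Ordinal.{0}), A n ∈ 𝒮 ∧
        ∀ S ∈ 𝒮, ∀ x ∈ S, ∀ V : Set X, IsOpen V → x ∈ V →
          ∃ U : Set X, IsOpen U ∧ x ∈ U ∧ U ∩ S ⊆ V ∧
            ((S ∩ closure (U ∩ S)) \ U) ∈ 𝒮 ∧ f ((S ∩ closure (U ∩ S)) \ U) < f S) →
      ∃ (𝒮 : Set (Set X)) (f : Set X → Ordinal.{0}), (Set.univ : Set X) ∈ 𝒮 ∧
        ∀ S ∈ 𝒮, ∀ x ∈ S, ∀ V : Set X, IsOpen V → x ∈ V →
          ∃ U : Set X, IsOpen U ∧ x ∈ U ∧ U ∩ S ⊆ V ∧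
            ((S ∩ closure (U ∩ S)) \ U) ∈ 𝒮 ∧ f ((S ∩ closure (U ∩ S)) \ U) < f S) := by
  intro h
  obtain ⟨A, hA, hz⟩ := H25.TrInd.pieces
  obtain ⟨𝒮, f, hu, hS⟩ := h H25.TrInd.X A hA (by
    classical
    intro n
    refine ⟨{A n, ∅}, fun S => if S = ∅ then 0 else 1, Or.inl rfl, ?_⟩
    rintro S (rfl | rfl) x hx V hV hxV
    · obtain ⟨W, hW, h1, h2⟩ := hz n ⟨x, hx⟩ (Subtype.val ⁻¹' V)
        ((hV.preimage continuous_subtype_val).mem_nhds hxV)
      obtain ⟨U, hU, hUW⟩ := isOpen_induced_iff.1 hW.isOpen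
      obtain ⟨C, hC, hCW⟩ := isClosed_induced_iff.1 hW.isClosed
      have he : (A n ∩ closure (U ∩ A n)) \ U = ∅ := by
        refine Set.eq_empty_of_forall_notMem fun y hy => hy.2 ?_
        have h3 : y ∈ C := closure_minimal (fun z hz => (show (⟨z, hz.2⟩ : A n) ∈
          Subtype.val ⁻¹' C from hCW ▸ hUW ▸ hz.1)) hC hy.1.2
        exact (show (⟨y, hy.1.1⟩ : A n) ∈ Subtype.val ⁻¹' U from hUW ▸ hCW ▸ h3)
      refine ⟨U, hU, (show (⟨x, hx⟩ : A n) ∈ Subtype.val ⁻¹' U from hUW ▸ h1),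
        fun y hy => h2 (show (⟨y, hy.2⟩ : A n) ∈ W from hUW ▸ hy.1), Or.inr he, ?_⟩
      have hne : A n ≠ ∅ := Set.Nonempty.ne_empty ⟨x, hx⟩
      simp [he, hne]
    · exact hx.elim)
  have key : ∀ α, ∀ S ∈ 𝒮, f S = α → ∀ j : H25.TrInd.X → H25.TrInd.X, Topology.IsInducing j →
      (∀ x, j x ∈ S) → False := by
    intro α
    induction α using WellFoundedLT.induction with
    | ind α ih =>
      intro S hS' hf j hj hjS
      have hc : Continuous fun x : H25.TrInd.X => ((x.1 []).1 : ℝ) :=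
        continuous_subtype_val.comp ((continuous_apply []).comp continuous_subtype_val).fst
      obtain ⟨V, hV, hVW⟩ := hj.isOpen_iff.1 (isOpen_lt hc (continuous_const (y := 1 / 2)))
      have h0 : j ⟨_, H25.TrInd.pt_mem 0⟩ ∈ V := by
        rw [← Set.mem_preimage, hVW]
        show ((0 : unitInterval) : ℝ) < 1 / 2
        norm_num
      obtain ⟨U, hU, h1, h2, h3, h4⟩ := hS S hS' _ (hjS _) V hV h0
      obtain ⟨U', hU', hUU⟩ := isOpen_induced_iff.1 (hU.preimage hj.continuous)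
      have hm : ∀ x : H25.TrInd.X, x.1 ∈ U' ↔ j x ∈ U := fun x => by
        rw [← Set.mem_preimage, hUU]; rfl
      obtain ⟨k, hk, hk'⟩ := H25.TrInd.core hU' ((hm ⟨_, H25.TrInd.pt_mem 0⟩).2 h1) (by
        intro m hm'
        have : j ⟨m, hm'.2⟩ ∈ V := h2 ⟨(hm ⟨m, hm'.2⟩).1 hm'.1, hjS _⟩
        rw [← Set.mem_preimage, hVW] at this
        exact this)
      refine ih _ (hf ▸ h4) _ h3 rfl (j ∘ fun x => ⟨k x.1, (hk' x.1 x.2).1⟩)
        (hj.comp ((hk.comp Topology.IsInducing.subtypeVal).codRestrict _)) fun x => ?_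
      refine ⟨⟨hjS _, ?_⟩, fun hh => (hk' x.1 x.2).2.2 ((hm _).2 hh)⟩
      have h5 : (⟨k x.1, (hk' x.1 x.2).1⟩ : H25.TrInd.X) ∈ closure (Subtype.val ⁻¹' U') := by
        rw [closure_subtype, Subtype.image_preimage_coe, Set.inter_comm]
        exact (hk' x.1 x.2).2.1
      exact map_mem_closure (f := j) hj.continuous h5 fun y hy => ⟨(hm y).1 hy, hjS y⟩
  exact key _ _ hu rfl id Topology.IsInducing.id fun _ => trivial

end Pool.Agent.S12700
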