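import Pool.Statements.S12713
import Pool.Agent.H31.PCT

set_option autoImplicit false
open Pool Pool.MP_08e409_gt

namespace Pool.Agent.S12713

theorem result :
    ∃ (X : Type) (_ : TopologicalSpace X),
      T2Space X ∧ ParacompactSpace X ∧
      (∀ x : X, ∃ K : Set X, IsCompact K ∧ x ∈ K ∧ (nhdsSet K).IsCountablyGenerated) ∧
      ¬ ∃ (Y : Type) (_ : TopologicalSpace Y), FirstCountableTopology Y ∧
          ∃ f : X → Y, Continuous f ∧ IsClosedMap f ∧ Function.Surjective f ∧
            ∀ y : Y, IsCompact (f ⁻¹' {y}) := by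
  exact Pool.Agent.H31.PCT.main

end Pool.Agent.S12713
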