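import Pool.Statements.S12732
import Pool.Agent.H25.BetaOm2

set_option autoImplicit false
open Pool Pool.MP_0b3857_gt

namespace Pool.Agent.S12732

/-- The negation of the preceding statement: For every compact Hausdorff X, the space of continuous real functions on X with the pointwise topology is submetalindelöf. Every open cover has a sequence of open refining covers such that each point lies in only countably many members of at least one of them. -/
theorem result :
    ¬ (∀ (X : Type) [TopologicalSpace X] [CompactSpace X] [T2Space X],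
      ∀ 𝒰 : Set (Set {g : X → ℝ // Continuous g}),
        (∀ U ∈ 𝒰, IsOpen U) → ⋃₀ 𝒰 = Set.univ →
        ∃ 𝒱 : ℕ → Set (Set {g : X → ℝ // Continuous g}),
          (∀ n, ∀ V ∈ 𝒱 n, IsOpen V ∧ ∃ U ∈ 𝒰, V ⊆ U) ∧
          (∀ n, ⋃₀ 𝒱 n = Set.univ) ∧
          ∀ x : {g : X → ℝ // Continuous g}, ∃ n, {V ∈ 𝒱 n | x ∈ V}.Countable) := by
  classical
  intro H
  have hg := Pool.Agent.H25.NSIdealU.good_of_regular (Order.succ (Cardinal.aleph 1))
    (Cardinal.isRegular_succ Cardinal.aleph0_lt_aleph_one.le)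
    (Cardinal.aleph0_lt_aleph_one.trans (Order.lt_succ _))
  set W := (Order.succ (Cardinal.aleph 1 : Cardinal.{0})).ord.ToType
  have hW : ∀ s : Set W, Cardinal.mk s ≤ Cardinal.aleph 1 → ∃ b, ∀ a ∈ s, a < b := fun s hs =>
    Pool.Agent.H25.NSIdealU.bound hg s (lt_of_le_of_lt hs (by simp))
  have : NoMaxOrder W := ⟨fun a => by
    obtain ⟨b, hb⟩ := hW {a} ((Cardinal.le_aleph0_iff_set_countable.2 (Set.countable_singleton a)).trans
      Cardinal.aleph0_lt_aleph_one.le)
    exact ⟨b, hb a rfl⟩⟩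
  open Pool.Agent.H25.UltraFree Pool.Agent.H25.BetaOm2 in
  obtain ⟨𝒱, v1, v2, v3⟩ := H (Ultrafilter W)
    {U | IsOpen U ∧ {ξ : W | χ (Set.Iic ξ) ∈ U}.Subsingleton} (fun U h => h.1)
    (Set.eq_univ_of_forall fun g => by
      obtain ⟨U, a, b, c⟩ := discrete g
      exact ⟨U, ⟨a, c⟩, b⟩)
  open Pool.Agent.H25.UltraFree in
  choose V a1 a2 using fun n (ξ : W) => Set.eq_univ_iff_forall.1 (v2 n) (χ (Set.Iic ξ))
  open Pool.Agent.H25.UltraFree in
  choose G hG using fun n ξ => nb (v1 n _ (a1 n ξ)).1 (a2 n ξ)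
  obtain ⟨A, hA⟩ := Pool.Agent.H25.BetaOm2.core hW G
  obtain ⟨n, hn⟩ := v3 (Pool.Agent.H25.UltraFree.χ A)
  refine hA n ((hn.preimage (f := V n) fun ξ η h => ?_).mono fun ξ hξ =>
    And.intro (a1 n ξ) (hG n ξ _ fun u hu => Pool.Agent.H25.UltraFree.χ_congr (hξ u hu)))
  obtain ⟨U, u1, u2⟩ := (v1 n _ (a1 n ξ)).2
  exact u1.2 (u2 (a2 n ξ)) (u2 (h ▸ a2 n η))

end Pool.Agent.S12732
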