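import Pool.Statements.S12748

set_option autoImplicit false
open Function
open Pool Pool.MP_0eaf94_gt

namespace Pool.Agent.S12748

open Set Filter Topology

lemma lap {Z : Type} [MetricSpace Z] {φ : unitInterval → Z} (hc : Continuous φ)
    (ho : ∀ V, IsOpen V → IsOpen (φ ⁻¹' (φ '' V))) {a b : unitInterval} (hab : a < b)
    (ha : φ a = φ 0) (hb : φ b = φ 0) (s : unitInterval) : ∃ x ∈ Icc a b, φ x = φ s := by
  have hcl : ∀ E, IsClosed E → IsClosed (φ ⁻¹' (φ '' E)) := fun E hE =>
    (hE.isCompact.image hc).isClosed.preimage hc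
  have step : ∀ c, φ c = φ 0 → 0 < c → ∀ s, ∃ x ≤ c, φ x = φ s := by
    intro c h1 h2 s
    have e : φ '' Iic c = φ '' Iio c := by
      refine Subset.antisymm ?_ (image_mono Iio_subset_Iic_self)
      rintro _ ⟨x, hx, rfl⟩
      rcases (show x ≤ c from hx).eq_or_lt with rfl | h
      · exact ⟨0, h2, h1.symm⟩
      · exact ⟨x, h, rfl⟩
    have := (IsClopen.eq_univ ⟨hcl _ isClosed_Iic, e ▸ ho _ isOpen_Iio⟩
      ⟨c, c, self_mem_Iic, rfl⟩).ge (mem_univ s)
    exact this
  by_cases hs : φ s = φ 0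
  · exact ⟨a, left_mem_Icc.2 hab.le, ha.trans hs.symm⟩
  obtain ⟨m, hm, hm'⟩ := (isClosed_eq hc (continuous_const (y := φ s))).isCompact.exists_isLeast
    ⟨s, rfl⟩
  have hm0 : φ m = φ s := hm
  have hle : ∀ c, φ c = φ 0 → 0 < c → m ≤ c := fun c h1 h2 => by
    obtain ⟨x, hx, hx'⟩ := step c h1 h2 s
    exact (hm' hx').trans hx
  obtain ⟨e, ⟨he, hme⟩, he'⟩ := ((isClosed_eq hc (continuous_const (y := φ 0))).inter
    (isClosed_Ici (a := m))).isCompact.exists_isLeast
    ⟨b, hb, hle b hb (unitInterval.nonneg'.trans_lt hab)⟩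
  have he0 : φ e = φ 0 := he
  have hgap : ∀ c ∈ Ioo 0 e, φ c ≠ φ 0 := fun c hc h => (he' ⟨h, hle c h hc.1⟩).not_gt hc.2
  have hmI : m ∈ Ioo 0 e := ⟨lt_of_le_of_ne unitInterval.nonneg' fun h => hs (by rw [← hm0, ← h]),
    lt_of_le_of_ne hme fun h => hs (by rw [← hm0, h, he0])⟩
  rcases isPreconnected_iff_subset_of_disjoint.1 (isPreconnected_Ioo (a := 0) (b := e)) _ _
    (ho _ (isOpen_Ioo (a := a) (b := b))) (hcl _ (isClosed_Icc (a := a) (b := b))).isOpen_compl
    (fun c hc => by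
      by_cases h : c ∈ φ ⁻¹' (φ '' Icc a b)
      · obtain ⟨x, hx, e⟩ := h
        refine Or.inl ⟨x, ⟨lt_of_le_of_ne hx.1 ?_, lt_of_le_of_ne hx.2 ?_⟩, e⟩
        · rintro rfl; exact hgap c hc (e.symm.trans ha)
        · rintro rfl; exact hgap c hc (e.symm.trans hb)
      · exact Or.inr h)
    (eq_empty_of_forall_notMem fun c hc => hc.2.2 (image_mono Ioo_subset_Icc_self hc.2.1))
    with h | h
  · obtain ⟨x, hx, e⟩ := h hmI
    exact ⟨x, Ioo_subset_Icc_self hx, e.trans hm0⟩
  · have h1 : φ '' Ioo a b = {φ 0} := by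
      refine eq_singleton_iff_nonempty_unique_mem.2 ⟨(nonempty_Ioo.2 hab).image _, ?_⟩
      rintro _ ⟨x, hx, rfl⟩
      obtain ⟨x', hx', e'⟩ := step e he0 (hmI.1.trans hmI.2) x
      rcases hx'.eq_or_lt with rfl | h2
      · exact e'.symm.trans he0
      · rcases (unitInterval.nonneg' (t := x')).eq_or_lt with rfl | h3
        · exact e'.symm
        · exact (h ⟨h3, h2⟩ ⟨x, Ioo_subset_Icc_self hx, e'.symm⟩).elim
    have := (IsClopen.eq_univ ⟨isClosed_singleton.preimage hc, h1 ▸ ho _ isOpen_Ioo⟩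
      ⟨0, rfl⟩).ge (mem_univ s)
    exact (hs this).elim

lemma rigid {Z : Type} [MetricSpace Z] {H : unitInterval × unitInterval → Z} (hc : Continuous H)
    (ho : ∀ U, IsOpen U → U ⊆ {p | p.2 < 1} → IsOpen (H '' U))
    (hl : ∀ p q, H p = H q → p.2 = q.2) (h0 : ∀ s, H (s, 0) = H (0, 0)) (s y : unitInterval) :
    H (s, y) = H (0, y) := by
  have lap' : ∀ y < 1, ∀ a b, a ≠ b → H (a, y) = H (0, y) → H (b, y) = H (0, y) → ∀ s,
      ∃ x, dist x a ≤ dist b a ∧ H (x, y) = H (s, y) := by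
    intro y hy a b hab ha hb s
    have h1 : ∀ V, IsOpen V → IsOpen ((fun s => H (s, y)) ⁻¹' ((fun s => H (s, y)) '' V)) := by
      intro V hV
      convert (ho (V ×ˢ Iio 1) (hV.prod isOpen_Iio) fun p hp => hp.2).preimage
        (show Continuous fun s => H (s, y) by fun_prop) using 1
      ext t
      constructor
      · rintro ⟨x, hx, e⟩
        exact ⟨(x, y), ⟨hx, hy⟩, e⟩
      · rintro ⟨⟨x, y'⟩, hx, e⟩
        obtain rfl : y' = y := hl _ _ e
        exact ⟨x, hx.1, e⟩
    rcases lt_or_gt_of_ne hab with h | h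
    · obtain ⟨x, hx, e⟩ := lap (φ := fun s => H (s, y)) (by fun_prop) h1 h ha hb s
      refine ⟨x, ?_, e⟩
      rw [dist_comm x, dist_comm b]
      exact Real.dist_left_le_of_mem_uIcc (Icc_subset_uIcc hx)
    · obtain ⟨x, hx, e⟩ := lap (φ := fun s => H (s, y)) (by fun_prop) h1 h hb ha s
      refine ⟨x, ?_, e⟩
      rw [dist_comm x, dist_comm b]
      exact Real.dist_left_le_of_mem_uIcc (Icc_subset_uIcc' hx)
  let A : ℕ → Set unitInterval := fun k =>
    {y | ∃ t : Fin k → unitInterval, Injective t ∧ ∀ i, H (t i, y) = H (0, y)}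
  have hS : ∀ k y, (∀ s, H (s, y) = H (0, y)) → y ∈ A k := fun k y h => by
    have : Infinite unitInterval := Set.infinite_coe_iff.2 (Icc_infinite zero_lt_one)
    exact ⟨fun i => Infinite.natEmbedding unitInterval i, fun i j e =>
      Fin.ext ((Infinite.natEmbedding unitInterval).injective e), fun i => h _⟩
  have hA : ∀ k, Iio 1 ⊆ A k ∩ Iio 1 := by
    intro k
    refine isPreconnected_Iio.subset_of_closure_inter_subset ?_
      ⟨0, mem_Iio.2 zero_lt_one, hS k 0 h0, mem_Iio.2 zero_lt_one⟩ ?_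
    · refine isOpen_iff_mem_nhds.2 ?_
      rintro y ⟨⟨t, ht, ht'⟩, hy⟩
      have h1 : IsOpen {t : Fin k → unitInterval | Injective t} := by
        have : {t : Fin k → unitInterval | Injective t} =
            ⋂ i, ⋂ j, ⋂ (_ : i ≠ j), {t | t i ≠ t j} := by
          ext t
          simp only [mem_ofPred_eq, mem_iInter]
          exact ⟨fun h i j hij e => hij (h e), fun h i j e => by_contra fun hij => h i j hij e⟩
        rw [this]
        exact isOpen_iInter_of_finite fun i => isOpen_iInter_of_finite fun j =>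
          isOpen_iInter_of_finite fun _ => isOpen_ne_fun (continuous_apply i) (continuous_apply j)
      obtain ⟨δ, hδ, hb⟩ := Metric.isOpen_iff.1 h1 t ht
      have h2 : ∀ᶠ y' in 𝓝 y, ∀ i, ∃ x, dist x (t i) < δ ∧ H (x, y') = H (0, y') := by
        refine eventually_all.2 fun i => ?_
        have := ((ho (Metric.ball (t i) δ ×ˢ Iio 1) (Metric.isOpen_ball.prod isOpen_Iio)
          fun p hp => hp.2).preimage (show Continuous fun y => H (0, y) by fun_prop)).mem_nhds
          (x := y) ⟨(t i, y), ⟨Metric.mem_ball_self hδ, hy⟩, ht' i⟩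
        filter_upwards [this] with y' ⟨⟨x, y''⟩, hx, e⟩
        obtain rfl : y'' = y' := hl _ _ e
        exact ⟨x, hx.1, e⟩
      filter_upwards [h2, isOpen_Iio.mem_nhds hy] with y' h3 h4
      choose x hx hx' using h3
      exact ⟨⟨x, hb ((dist_pi_lt_iff hδ).2 hx), hx'⟩, h4⟩
    · rintro y ⟨hy, hy1⟩
      refine ⟨?_, hy1⟩
      obtain ⟨u, hu, hut⟩ := mem_closure_iff_seq_limit.1 hy
      choose t ht ht' using fun n => (hu n).1
      obtain ⟨τ, ψ, hψ, hτ⟩ := CompactSpace.tendsto_subseq t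
      have h1 : ∀ i, Tendsto (fun n => t (ψ n) i) atTop (𝓝 (τ i)) := fun i =>
        ((continuous_apply i).tendsto τ).comp hτ
      have h2 : Tendsto (fun n => u (ψ n)) atTop (𝓝 y) := hut.comp hψ.tendsto_atTop
      have h3 : ∀ (x : ℕ → unitInterval) (l s : unitInterval), Tendsto x atTop (𝓝 l) →
          (∀ n, H (x n, u (ψ n)) = H (s, u (ψ n))) → H (l, y) = H (s, y) := fun x l s hx h =>
        tendsto_nhds_unique ((hc.tendsto _).comp (hx.prodMk_nhds h2))
          (((hc.tendsto _).comp ((tendsto_const_nhds (x := s)).prodMk_nhds h2)).congr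
            fun n => (h n).symm)
      by_cases hi : Injective τ
      · exact ⟨τ, hi, fun i => h3 _ _ _ (h1 i) fun n => ht' _ _⟩
      · obtain ⟨i, j, e, hij⟩ := not_injective_iff.1 hi
        refine hS k y fun s => ?_
        choose x hx hx' using fun n => lap' (u (ψ n)) (hu _).2 _ _ ((ht (ψ n)).ne hij)
          (ht' _ i) (ht' _ j) s
        have h4 : Tendsto (fun n => dist (t (ψ n) j) (t (ψ n) i)) atTop (𝓝 0) := by
          simpa [e] using (h1 j).dist (h1 i)
        have h5 : Tendsto x atTop (𝓝 (τ i)) :=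
          (h1 i).congr_dist (squeeze_zero (fun _ => dist_nonneg)
            (fun n => (dist_comm _ _).trans_le (hx n)) h4)
        rw [← h3 _ _ _ h5 hx']
        exact h3 _ _ _ (h1 i) fun n => ht' _ _
  have hlt : ∀ y < 1, H (s, y) = H (0, y) := by
    intro y hy
    have hT : IsClosed {x | H (x, y) = H (0, y)} := isClosed_eq (by fun_prop) continuous_const
    have hinf : {x | H (x, y) = H (0, y)}.Infinite := fun hf => by
      obtain ⟨t, ht, ht'⟩ := (hA (hf.toFinset.card + 1) hy).1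
      have := Finset.card_le_card_of_injOn (s := Finset.univ) (t := hf.toFinset) t
        (fun i _ => by simpa using ht' i) ht.injOn
      simp at this
    obtain ⟨a, ha, hacc⟩ := hinf.exists_accPt_of_subset_isCompact hT.isCompact subset_rfl
    have : a ∈ closure {x | H (x, y) = H (s, y)} := by
      refine Metric.mem_closure_iff.2 fun ε hε => ?_
      obtain ⟨b, ⟨hb, hb'⟩, hba⟩ := accPt_iff_nhds.1 hacc _ (Metric.ball_mem_nhds a hε)
      obtain ⟨x, hx, hx'⟩ := lap' y hy a b hba.symm ha hb' s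
      exact ⟨x, hx', (dist_comm _ _).trans_lt (hx.trans_lt hb)⟩
    rw [(isClosed_eq (by fun_prop) continuous_const).closure_eq] at this
    exact this.symm.trans ha
  have : y ∈ closure (Iio (1 : unitInterval)) := by
    rw [closure_Iio' ⟨0, zero_lt_one⟩]
    exact unitInterval.le_one'
  exact closure_minimal hlt (isClosed_eq (by fun_prop) (by fun_prop)) this

def X : Set (ℝ × ℝ × ℝ) := {p | (p.1 = 0 ∨ p.1 = 1) ∧ p.2.2 ∈ Icc 0 1 ∧ 0 ≤ p.2.1 ∧
  ((p.2.1 ≤ 1 ∧ p.2.1 ≤ 3 * p.2.2 + 1 - p.1) ∨ (p.2.2 = 1 ∧ p.2.1 ≤ 2))}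

instance : CompactSpace X := by
  refine isCompact_iff_compactSpace.1 ((isCompact_Icc (a := (0, 0, 0))
    (b := (1, 2, 1))).of_isClosed_subset ?_ ?_)
  · refine IsClosed.and (IsClosed.union (isClosed_eq continuous_fst continuous_const)
      (isClosed_eq continuous_fst continuous_const)) (IsClosed.and
      (isClosed_Icc.preimage (continuous_snd.comp continuous_snd)) (IsClosed.and
      (isClosed_le continuous_const (continuous_fst.comp continuous_snd)) ?_))
    have h1 : IsClosed {p : ℝ × ℝ × ℝ | p.2.1 ≤ 1 ∧ p.2.1 ≤ 3 * p.2.2 + 1 - p.1} :=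
      IsClosed.and (isClosed_le (by fun_prop) (by fun_prop))
        (isClosed_le (by fun_prop) (by fun_prop))
    have h2 : IsClosed {p : ℝ × ℝ × ℝ | p.2.2 = 1 ∧ p.2.1 ≤ 2} :=
      IsClosed.and (isClosed_eq (by fun_prop) (by fun_prop))
        (isClosed_le (by fun_prop) (by fun_prop))
    exact h1.union h2
  · rintro ⟨e, s, y⟩ ⟨h1, h2, h3, h4⟩
    simp only [mem_Icc, Prod.mk_le_mk] at *
    rcases h1 with h1 | h1 <;> rcases h4 with h4 | h4 <;>
      exact ⟨⟨by linarith, h3, h2.1⟩, by linarith, by linarith, h2.2⟩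

def f (x : X) : unitInterval := ⟨x.1.2.2, x.2.2.1⟩

lemma f_c : Continuous f := Continuous.subtype_mk (by fun_prop) _

def j (p : unitInterval × unitInterval) : X :=
  ⟨(0, p.1, p.2), Or.inl rfl, p.2.2, p.1.2.1, Or.inl ⟨p.1.2.2, by
    have := p.1.2.2
    have := p.2.2.1
    simp only
    linarith⟩⟩

lemma j_c : Continuous j := Continuous.subtype_mk (by fun_prop) _

lemma j_open (U : Set (unitInterval × unitInterval)) (hU : IsOpen U)
    (h : ∀ p ∈ U, p.1 < 1 ∨ p.2 < 1) : IsOpen (j '' U) := by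
  let r : X → unitInterval × unitInterval := fun x => (projIcc 0 1 zero_le_one x.1.2.1, f x)
  have hr : Continuous r :=
    ((continuous_projIcc (h := zero_le_one)).comp (by fun_prop)).prodMk f_c
  have hrj : ∀ p, r (j p) = p := fun p => Prod.ext (projIcc_val zero_le_one p.1) rfl
  convert (hU.preimage hr).inter ((isOpen_lt (f := fun x : X => x.1.1) (g := fun _ => 1)
    (by fun_prop) continuous_const).inter
    ((isOpen_lt (f := fun x : X => x.1.2.1) (g := fun _ => 1) (by fun_prop) continuous_const).union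
    (isOpen_lt (f := fun x : X => x.1.2.2) (g := fun _ => 1) (by fun_prop) continuous_const)))
    using 1
  ext x
  constructor
  · rintro ⟨p, hp, rfl⟩
    exact ⟨show r (j p) ∈ U by rwa [hrj], show (0 : ℝ) < 1 from zero_lt_one, h p hp⟩
  · rintro ⟨h1, h2, h3⟩
    refine ⟨r x, h1, Subtype.ext ?_⟩
    obtain ⟨⟨e, s, y⟩, a, b, c, d⟩ := x
    have h4 : s ≤ 1 := by
      rcases d with d | d
      · exact d.1
      · rcases h3 with h3 | h3
        · exact le_of_lt h3
        · exact absurd d.1 (ne_of_lt h3)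
    have h5 : e = 0 := a.resolve_right (ne_of_lt h2)
    simp only [j, r, f, projIcc_of_mem zero_le_one (show s ∈ Icc (0 : ℝ) 1 from ⟨c, h4⟩), h5]

lemma not_MO (Z : Type) [MetricSpace Z] (h : X → Z) (g : Z → unitInterval) (hc : Continuous h)
    (ho : IsOpenMap h) (hg : ∀ y, IsConnected (g ⁻¹' {y})) (hf : ∀ x, g (h x) = f x) : False := by
  have hgj : ∀ p, g (h (j p)) = p.2 := fun p => hf _
  have hQ : IsClopen (h '' {x : X | 1 / 2 < x.1.1}) := by
    refine ⟨(IsClosed.isCompact ?_).image hc |>.isClosed,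
      ho _ (isOpen_lt continuous_const (by fun_prop))⟩
    convert isClosed_eq (f := fun x : X => x.1.1) (g := fun _ => 1) (by fun_prop) continuous_const
      using 1
    ext x
    constructor
    · intro hx
      refine x.2.1.resolve_left fun e => ?_
      have : 1 / 2 < x.1.1 := hx
      linarith
    · intro hx
      show 1 / 2 < x.1.1
      rw [show x.1.1 = 1 from hx]
      norm_num
  let q : X := ⟨(1, 0, 0), Or.inr rfl, by simp, le_rfl, Or.inl (by simp)⟩
  have h0 : ∀ s, h (j (s, 0)) = h q := by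
    intro s
    obtain ⟨⟨⟨e, t, y⟩, a, b, c, d⟩, h1, h2⟩ := (hg 0).2.subset_isClopen hQ
      ⟨h q, hf q, q, by norm_num [q], rfl⟩ (hgj (s, 0))
    have h3 : y = 0 := congrArg Subtype.val ((hf _).symm.trans ((congrArg g h2).trans (hgj _)))
    have h4 : 1 / 2 < e := h1
    have h5 : e = 1 := a.resolve_left fun e0 => by
      have : e = 0 := e0
      linarith
    subst h3 h5
    have h6 : t = 0 := by
      rcases d with d | d
      · exact le_antisymm (by simpa using d.2) c
      · simp at d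
    subst h6
    exact h2.symm
  have hr := rigid (H := fun p => h (j p)) (hc.comp j_c) (fun U hU hU' => by
      rw [← image_image]
      exact ho _ (j_open U hU fun p hp => Or.inr (hU' hp)))
    (fun p q e => by rw [← hgj p, ← hgj q]; exact congrArg g e)
    (fun s => (h0 s).trans (h0 0).symm)
  have h1 : g ⁻¹' {1} ⊆ {h (j (0, 1))} := by
    by_contra hn
    obtain ⟨z, hz, hz'⟩ := not_subset.1 hn
    obtain ⟨_, h2, ⟨_, ⟨⟨s, y⟩, -, rfl⟩, rfl⟩, h3⟩ := (hg 1).2 _ _
      (ho _ (j_open {p | p.1 < 1} (isOpen_lt continuous_fst continuous_const) fun p hp => Or.inl hp))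
      (isOpen_compl_singleton (x := h (j (0, 1)))) (fun w _ => by
        by_cases e : w = h (j (0, 1))
        · exact Or.inl ⟨_, ⟨(0, 1), show (0 : unitInterval) < 1 from zero_lt_one, rfl⟩, e.symm⟩
        · exact Or.inr e) ⟨_, hgj (0, 1), _, ⟨(0, 1), show (0 : unitInterval) < 1 from zero_lt_one, rfl⟩, rfl⟩ ⟨z, hz, hz'⟩
    obtain rfl : y = 1 := (hgj _).symm.trans h2
    exact h3 (hr s 1)
  let w : X := ⟨(0, 2, 1), Or.inl rfl, by simp, by simp, Or.inr (by simp)⟩
  have h2 := ((ho {x : X | 1 < x.1.2.1} (isOpen_lt continuous_const (by fun_prop))).preimage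
    (show Continuous fun y => h (j (0, y)) from hc.comp (j_c.comp (by fun_prop)))).mem_nhds
    (x := 1) ⟨w, by norm_num [w], h1 (hf w)⟩
  have h3 : (1 : unitInterval) ∈ closure (Iio (1 : unitInterval)) := by
    rw [closure_Iio' ⟨0, zero_lt_one⟩]
    exact self_mem_Iic
  obtain ⟨y, ⟨x, hx, e⟩, hy⟩ := mem_closure_iff_nhds.1 h3 _ h2
  have h4 : x.1.2.2 = y := congrArg Subtype.val ((hf x).symm.trans ((congrArg g e).trans (hgj _)))
  have h5 : 1 < x.1.2.1 := hx
  have h6 : (y : ℝ) < 1 := hy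
  rcases x.2.2.2.2 with d | d
  · linarith [d.1]
  · linarith [d.1]

/-- The negation of the preceding statement: For a continuous surjection f between compact metric spaces and open G₁, G₂ covering Y: if each restriction of f over closure(Gᵢ) is an open map followed by a monotone map, then f itself is an open map followed by a monotone map. -/
theorem result :
    ¬ (∀ (X Y : Type) [MetricSpace X] [CompactSpace X] [MetricSpace Y] [CompactSpace Y]
      (f : X → Y), Continuous f → Surjective f →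
      ∀ G₁ G₂ : Set Y, IsOpen G₁ → IsOpen G₂ → G₁ ∪ G₂ = Set.univ →
      (∃ (Z : Type) (_ : MetricSpace Z) (_ : CompactSpace Z)
          (h : ↥(f ⁻¹' closure G₁) → Z) (g : Z → ↥(closure G₁)),
          Continuous h ∧ IsOpenMap h ∧ Surjective h ∧
          Continuous g ∧ Surjective g ∧ (∀ y, IsConnected (g ⁻¹' {y})) ∧
          ∀ x : ↥(f ⁻¹' closure G₁), ((g (h x) : ↥(closure G₁)) : Y) = f x) →
      (∃ (Z : Type) (_ : MetricSpace Z) (_ : CompactSpace Z)
          (h : ↥(f ⁻¹' closure G₂) → Z) (g : Z → ↥(closure G₂)),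
          Continuous h ∧ IsOpenMap h ∧ Surjective h ∧
          Continuous g ∧ Surjective g ∧ (∀ y, IsConnected (g ⁻¹' {y})) ∧
          ∀ x : ↥(f ⁻¹' closure G₂), ((g (h x) : ↥(closure G₂)) : Y) = f x) →
      ∃ (Z : Type) (_ : MetricSpace Z) (_ : CompactSpace Z)
          (h : X → Z) (g : Z → Y),
          Continuous h ∧ IsOpenMap h ∧ Surjective h ∧
          Continuous g ∧ Surjective g ∧ (∀ y, IsConnected (g ⁻¹' {y})) ∧
          ∀ x : X, g (h x) = f x) := by
  intro H
  have m1 : (3 / 5 : ℝ) ∈ unitInterval := by constructor <;> norm_num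
  have m2 : (2 / 5 : ℝ) ∈ unitInterval := by constructor <;> norm_num
  obtain ⟨Z, _, _, h, g, hc, ho, -, -, -, hg, hf⟩ := H X unitInterval f f_c
    (fun y => ⟨j (0, y), rfl⟩) (Iio ⟨3 / 5, m1⟩) (Ioi ⟨2 / 5, m2⟩) isOpen_Iio isOpen_Ioi
    (eq_univ_of_forall fun y => by
      rcases lt_or_ge (y : ℝ) (3 / 5) with h | h
      · exact Or.inl h
      · exact Or.inr (show (2 / 5 : ℝ) < y by linarith)) (by
      have hs : closure (Iio (⟨3 / 5, m1⟩ : unitInterval)) ⊆ Iic ⟨3 / 5, m1⟩ :=
        closure_minimal Iio_subset_Iic_self isClosed_Iic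
      generalize hC : closure (Iio (⟨3 / 5, m1⟩ : unitInterval)) = C at hs
      have hCc : IsClosed C := hC ▸ isClosed_closure
      refine ⟨C, inferInstance, isCompact_iff_compactSpace.1 hCc.isCompact,
        C.restrictPreimage f, id, f_c.restrictPreimage, IsOpenMap.of_sections ?_,
        fun y => ⟨⟨j (0, y), y.2⟩, rfl⟩, continuous_id, surjective_id,
        fun y => isConnected_singleton, fun x => rfl⟩
      rintro ⟨⟨⟨e, s, y⟩, a, b, c, d⟩, hx⟩
      have h1 : y ≤ 3 / 5 := hs hx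
      have h2 : s ≤ 1 ∧ s ≤ 3 * y + 1 - e := d.resolve_right fun d => by
        have : y = 1 := d.1
        linarith
      have h3 : e ≤ 1 := by rcases a with a | a <;> simp only at a <;> linarith
      refine ⟨fun z => ⟨⟨(e, min s (3 * z.1.1 + 1 - e), z.1.1), a, z.1.2,
        le_min c (by linarith [z.1.2.1]), Or.inl ⟨(min_le_left _ _).trans h2.1, min_le_right _ _⟩⟩,
        z.2⟩, Continuous.continuousAt (Continuous.subtype_mk (Continuous.subtype_mk (by fun_prop) _)
        _), Subtype.ext (Subtype.ext (Prod.ext rfl (Prod.ext (min_eq_left h2.2) rfl))),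
        fun z => rfl⟩) (by
      have hs : closure (Ioi (⟨2 / 5, m2⟩ : unitInterval)) ⊆ Ici ⟨2 / 5, m2⟩ :=
        closure_minimal Ioi_subset_Ici_self isClosed_Ici
      generalize hC : closure (Ioi (⟨2 / 5, m2⟩ : unitInterval)) = C at hs
      have hCc : IsClosed C := hC ▸ isClosed_closure
      let mv : ∀ e : ℝ, (e = 0 ∨ e = 1) → f ⁻¹' C → f ⁻¹' C := fun e he x =>
        ⟨⟨(e, x.1.1.2), he, x.1.2.2.1, x.1.2.2.2.1, x.1.2.2.2.2.imp_left fun d => ⟨d.1, by
          have h1 : 2 / 5 ≤ x.1.1.2.2 := hs x.2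
          have h2 := d.1
          rcases he with he | he <;> simp only <;> linarith⟩⟩, x.2⟩
      have hmv : ∀ e he, Continuous (mv e he) := fun e he =>
        Continuous.subtype_mk (Continuous.subtype_mk (by fun_prop) _) _
      have : CompactSpace (f ⁻¹' C) := isCompact_iff_compactSpace.1 (hCc.preimage f_c).isCompact
      refine ⟨{x : f ⁻¹' C | x.1.1.1 = 0}, inferInstance,
        isCompact_iff_compactSpace.1 (isClosed_eq (by fun_prop) continuous_const).isCompact,
        fun x => ⟨mv 0 (Or.inl rfl) x, rfl⟩, fun z => C.restrictPreimage f z.1,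
        (hmv 0 (Or.inl rfl)).subtype_mk _, IsOpenMap.of_sections fun x => ⟨fun z => mv x.1.1.1 x.1.2.1 z.1,
          ((hmv _ x.1.2.1).comp continuous_subtype_val).continuousAt, rfl,
          fun z => Subtype.ext (Subtype.ext (Subtype.ext (Prod.ext z.2.symm rfl)))⟩,
        fun z => ⟨z.1, Subtype.ext (Subtype.ext (Subtype.ext (Prod.ext z.2.symm rfl)))⟩,
        f_c.restrictPreimage.comp continuous_subtype_val,
        fun y => ⟨⟨⟨j (0, y), y.2⟩, rfl⟩, rfl⟩,
        fun y => ⟨⟨⟨⟨j (0, y), y.2⟩, rfl⟩, rfl⟩, ?_⟩, fun x => rfl⟩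
      refine isPreconnected_of_forall ⟨⟨j (0, y), y.2⟩, rfl⟩ ?_
      rintro ⟨⟨⟨⟨e, s, t⟩, a, b, c, d⟩, hx⟩, h0⟩ rfl
      obtain rfl : e = 0 := h0
      let γ : unitInterval → {x : f ⁻¹' C | x.1.1.1 = 0} := fun u =>
        ⟨⟨⟨(0, u * s, t), a, b, mul_nonneg u.2.1 c, by
          have : u * s ≤ s := mul_le_of_le_one_left c u.2.2
          exact d.imp (fun d => ⟨this.trans d.1, this.trans d.2⟩)
            fun d => ⟨d.1, this.trans d.2⟩⟩, hx⟩, rfl⟩
      have hγ : Continuous γ :=
        Continuous.subtype_mk (Continuous.subtype_mk (Continuous.subtype_mk (by fun_prop) _) _) _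
      refine ⟨range γ, ?_, ⟨0, ?_⟩, ⟨1, ?_⟩, isPreconnected_range hγ⟩
      · rintro _ ⟨u, rfl⟩
        rfl
      · exact Subtype.ext (Subtype.ext (Subtype.ext (Prod.ext rfl (Prod.ext (zero_mul s) rfl))))
      · exact Subtype.ext (Subtype.ext (Subtype.ext (Prod.ext rfl (Prod.ext (one_mul s) rfl)))))
  exact not_MO Z h g hc ho hg hf

end Pool.Agent.S12748
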