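import Pool.Statements.S12750
import Pool.Agent.Lead.PiW

set_option autoImplicit false
open TopologicalSpace
open Pool Pool.MP_0eb590_gt

namespace Pool.Agent.S12750

/-- The negation of the preceding statement: For every Tychonoff space X: if C_p(X) (continuous reals on X, pointwise topology) admits a continuous bijection onto a Tychonoff space with a countable π-base, then X is separable. -/
theorem result :
    ¬ (∀ (X : Type) [TopologicalSpace X] [T35Space X],
      (∃ (Y : Type) (τ : TopologicalSpace Y), T35Space Y ∧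
        ∃ g : C(X, ℝ) → Y, Function.Bijective g ∧
          @Continuous C(X, ℝ) Y
            (TopologicalSpace.induced (fun f : C(X, ℝ) => (⇑f : X → ℝ)) Pi.topologicalSpace)
            τ g ∧
          ∃ B : Set (Set Y), B.Countable ∧
            (∀ P ∈ B, IsOpen P ∧ P.Nonempty) ∧
            ∀ U : Set Y, IsOpen U → U.Nonempty → ∃ P ∈ B, P ⊆ U) →
      SeparableSpace X) := by
  intro H
  open Pool.Agent.Lead.PiW in
  have h1 : SeparableSpace DR := by
    refine H DR ?_
    obtain ⟨d, hd⟩ := sep_real
    let τ : TopologicalSpace C(DR, ℝ) :=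
      TopologicalSpace.induced (fun f : C(DR, ℝ) => (⇑f : DR → ℝ)) Pi.topologicalSpace
    have hc : ∀ x : DR, @Continuous _ _ τ _ fun f : C(DR, ℝ) => f x := fun x =>
      (@continuous_pi_iff _ _ _ τ _ _).1 continuous_induced_dom x
    refine @cond _ τ (fun n => ⟨d n, continuous_of_discreteTopology⟩) ?_ (fun f => f (0 : ℝ))
      (hc _) (fun t => ⟨ContinuousMap.const _ t, rfl⟩) fun z w h => ?_
    · refine (@dense_iff_inter_open _ τ _).2 ?_
      rintro _ ⟨O, hO, rfl⟩ ⟨f, hf⟩
      obtain ⟨n, hn⟩ := hd.exists_mem_open hO ⟨_, hf⟩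
      exact ⟨_, hn, Set.mem_range_self n⟩
    · obtain ⟨x, hx⟩ := DFunLike.ne_iff.1 h
      exact ⟨_, hc x, hx⟩
  obtain ⟨s, hs, hs'⟩ := h1.exists_countable_dense
  rw [dense_discrete.1 hs'] at hs
  exact Cardinal.not_countable_real hs

end Pool.Agent.S12750
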