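import Pool.Statements.S12783
import Pool.Agent.Lead.Sok

set_option autoImplicit false
open Pool Pool.MP_133c96_gt

namespace Pool.Agent.S12783

/-- For every scattered compact Hausdorff K, its ω-modification (same set, topology generated by Gδ sets) is Sokolov: for closed F_n ⊆ X^n there is a continuous f: X→X with countable-network image and f^n(F_n) ⊆ F_n for all n. -/
theorem result :
    ∀ (K : Type) [TopologicalSpace K] [CompactSpace K] [T2Space K]
      (X : Type) [tX : TopologicalSpace X] (e : X ≃ K),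
      (∀ S : Set K, S.Nonempty → ∃ x ∈ S, ∃ U : Set K, IsOpen U ∧ U ∩ S = {x}) →
      tX = TopologicalSpace.generateFrom
        {S : Set X | ∃ U : ℕ → Set K, (∀ n, IsOpen (U n)) ∧ S = e ⁻¹' (⋂ n, U n)} →
      ∀ F : (n : ℕ) → Set (Fin n → X), (∀ n, IsClosed (F n)) →
        ∃ f : X → X, Continuous f ∧
          (∃ N : Set (Set X), N.Countable ∧
            ∀ x ∈ Set.range f, ∀ U : Set X, IsOpen U → x ∈ U →
              ∃ A ∈ N, x ∈ A ∧ A ⊆ Set.range f ∩ U) ∧
          ∀ n : ℕ, ∀ x ∈ F n, (fun i => f (x i)) ∈ F n := by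
  intro K _ _ _ X _ e hs ht F hF
  obtain ⟨f, h1, h2, h3⟩ := Pool.Agent.Lead.Sok.sokolov K X e hs ht F hF
  exact ⟨f, h1, Pool.Agent.Lead.Sok.net_of_cnt h2, h3⟩

end Pool.Agent.S12783
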