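import Pool.Statements.S12796
import Pool.Agent.H31.LB

set_option autoImplicit false
open Pool Pool.MP_14c6b5_gt

namespace Pool.Agent.S12796

theorem result :
    ¬ (∀ (L : Type) [LinearOrder L] [TopologicalSpace L] [OrderTopology L],
      (∀ x : L, ¬ IsOpen ({x} : Set L)) →
      ∀ B : Set (Set L), TopologicalSpace.IsTopologicalBasis B →
        ∃ B₀ : Set (Set L), B₀ ⊆ B ∧ TopologicalSpace.IsTopologicalBasis B₀ ∧
          TopologicalSpace.IsTopologicalBasis (B \ B₀)) := by
  exact Pool.Agent.H31.LB.final

end Pool.Agent.S12796
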