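import Pool.Statements.S12810
import Pool.Agent.H31.KDetO

set_option autoImplicit false
open Pool Pool.MP_16af68_gt

namespace Pool.Agent.S12810

theorem result :
    ¬ (∀ (K : (X : Type) → [TopologicalSpace X] → Prop),
    (∀ (X : Type) [TopologicalSpace X], K X → T0Space X) →
    (∀ (X : Type) [TopologicalSpace X] [T0Space X] [QuasiSober X], K X) →
    (∀ (X Y : Type) [TopologicalSpace X] [TopologicalSpace Y],
        Nonempty (X ≃ₜ Y) → K X → K Y) →
    (∀ (Y : Type) [TopologicalSpace Y] [T0Space Y] [QuasiSober Y] (S : Set (Set Y)),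
        (∀ A ∈ S, K ↥A) → K ↥(⋂₀ S)) →
    (∀ (X Y : Type) [TopologicalSpace X] [TopologicalSpace Y] [T0Space X] [QuasiSober X]
        [T0Space Y] [QuasiSober Y] (f : X → Y), Continuous f →
        ∀ B : Set Y, K ↥B → K ↥(f ⁻¹' B)) →
    ∀ (I : Type) (X R : I → Type) [∀ i, TopologicalSpace (X i)] [∀ i, T0Space (X i)]
      [∀ i, TopologicalSpace (R i)] (η : ∀ i, X i → R i),
      (∀ i, Continuous (η i) ∧ K (R i) ∧
        ∀ (Z : Type) [TopologicalSpace Z], K Z → ∀ g : X i → Z, Continuous g →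
          ∃! h : R i → Z, Continuous h ∧ h ∘ η i = g) →
      (Continuous (fun (x : ∀ i, X i) (i : I) => η i (x i)) ∧ K (∀ i, R i) ∧
        ∀ (Z : Type) [TopologicalSpace Z], K Z → ∀ g : (∀ i, X i) → Z, Continuous g →
          ∃! h : (∀ i, R i) → Z, Continuous h ∧
            (h ∘ fun (x : ∀ i, X i) (i : I) => η i (x i)) = g)) := by
  intro h
  obtain ⟨-, -, h3⟩ := h H31.KDet.K (fun _ _ h => h.1)
    (fun X _ h0 h1 => H31.KDet.K_of_sober X h0 h1)
    (fun X Y _ _ e hX => e.elim fun e => H31.KDet.K_homeo X Y e hX)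
    (fun Y _ _ _ S hS => H31.KDet.K_sInter Y S hS)
    (fun X Y _ _ _ _ _ _ f hf B hB => H31.KDet.K_preimage X Y f hf B hB)
    ℕ H31.KDet.X H31.KDet.R H31.KDet.eta
    (fun n => ⟨H31.KDet.cont_eta n, H31.KDet.K_R n, H31.KDet.reflection n⟩)
  obtain ⟨g, ⟨hg, he⟩, -⟩ := h3 H31.KDet.Y H31.KDet.K_Y H31.KDet.iota H31.KDet.cont_iota
  exact H31.KDet.no_ext g hg he

end Pool.Agent.S12810
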