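import Pool.Statements.S12822

set_option autoImplicit false
open Pool Pool.MP_182cc9_gt

namespace Pool.Agent.S12822

open Set Filter Topology

def Dd : Type := unitInterval × ℝ

instance : TopologicalSpace Dd := ⊥
instance : DiscreteTopology Dd := ⟨rfl⟩

abbrev K : Type := unitInterval × OnePoint ℕ

abbrev X : Type := OnePoint Dd × K

noncomputable def q (j : ℕ) : K := (TopologicalSpace.denseSeq unitInterval j.unpair.1, j)

def Z : Set X :=
  {x | (∃ j, x = (OnePoint.infty, q j)) ∨ ∃ d : Dd, x = ((d : OnePoint Dd), (d.1, OnePoint.infty))}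

lemma Z_disc (A : Set X) (hA : A ⊆ Z) : ∃ O, IsOpen O ∧ A = Z ∩ O := by
  have h : ∀ z ∈ Z, ∃ O, IsOpen O ∧ z ∈ O ∧ ∀ w ∈ Z ∩ O, w = z := by
    rintro _ (⟨j, rfl⟩ | ⟨d, rfl⟩)
    · refine ⟨(fun x : X => x.2.2) ⁻¹' ((↑) '' {j}),
        (OnePoint.isOpen_image_coe.2 (isOpen_discrete _)).preimage (by fun_prop), ⟨j, rfl, rfl⟩, ?_⟩
      rintro _ ⟨⟨i, rfl⟩ | ⟨d, rfl⟩, _, rfl, h⟩
      · rw [OnePoint.coe_injective h]
      · exact absurd h (OnePoint.coe_ne_infty _)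
    · refine ⟨(fun x : X => x.1) ⁻¹' ((↑) '' {d}),
        (OnePoint.isOpen_image_coe.2 (isOpen_discrete _)).preimage (by fun_prop), ⟨d, rfl, rfl⟩, ?_⟩
      rintro _ ⟨⟨i, rfl⟩ | ⟨e, rfl⟩, _, rfl, h⟩
      · exact absurd h (OnePoint.coe_ne_infty _)
      · rw [OnePoint.coe_injective h]
  choose! O h1 h2 h3 using h
  refine ⟨⋃ z ∈ A, O z, isOpen_biUnion fun z hz => h1 z (hA hz), Subset.antisymm
    (fun z hz => ⟨hA hz, mem_biUnion hz (h2 z (hA hz))⟩) ?_⟩
  rintro w ⟨hw, hw'⟩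
  obtain ⟨z, hz, hz'⟩ := mem_iUnion₂.1 hw'
  rwa [h3 z (hA hz) w ⟨hw, hz'⟩]

lemma freq (τ : unitInterval) : ∃ᶠ p in 𝓝 ((τ, OnePoint.infty) : K), ∃ j, p = q j := by
  refine frequently_iff.2 fun {W} hW => ?_
  obtain ⟨A, hA, B, hB, hAB⟩ := mem_nhds_prod_iff.1 hW
  obtain ⟨i, hi⟩ := (TopologicalSpace.denseRange_denseSeq unitInterval).mem_nhds hA
  have h1 : Tendsto ((↑) : ℕ → OnePoint ℕ) atTop (𝓝 OnePoint.infty) :=
    (OnePoint.continuous_iff_from_nat id).1 continuous_id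
  obtain ⟨N, hN⟩ := eventually_atTop.1 (h1.eventually hB)
  refine ⟨q (Nat.pair i N), hAB ⟨?_, hN _ (Nat.right_le_pair _ _)⟩, _, rfl⟩
  simpa [q] using hi

lemma good {U : Set X} (hU : IsOpen U) :
    {d : Dd | ∃ j, (OnePoint.infty, q j) ∈ U ∧ ((d : OnePoint Dd), q j) ∉ U}.Countable := by
  rw [ofPred_exists]
  refine countable_iUnion fun j => Finite.countable ?_
  by_cases h : (OnePoint.infty, q j) ∈ U
  · have := ((OnePoint.isOpen_iff_of_mem (s := (fun w => (w, q j)) ⁻¹' U) h).1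
      (hU.preimage (by fun_prop))).2.finite_of_discrete
    exact this.subset fun d hd => hd.2
  · simp [h]

lemma side {U V : Set X} (hU : IsOpen U) (hd : Disjoint U V) (hZ : Z ⊆ U ∪ V) {d : Dd}
    (h : ∀ j, (OnePoint.infty, q j) ∈ V → ((d : OnePoint Dd), q j) ∈ V)
    (h' : ((d : OnePoint Dd), (d.1, OnePoint.infty)) ∈ U) :
    ∀ᶠ p in 𝓝 ((d.1, OnePoint.infty) : K), ∀ j, p = q j → (OnePoint.infty, p) ∈ U := by
  filter_upwards [(hU.preimage (show Continuous fun p : K => ((d : OnePoint Dd), p) by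
    fun_prop)).mem_nhds h'] with p hp j e
  subst e
  exact (hZ (Or.inl ⟨j, rfl⟩)).resolve_right fun h1 => disjoint_left.1 hd hp (h j h1)

lemma no_sep {U V : Set X} (hU : IsOpen U) (hV : IsOpen V) (hd : Disjoint U V) (hZ : Z ⊆ U ∪ V)
    (h0 : ∀ x : X, x.2.1 = 0 → x ∈ U) (h1 : ∀ x : X, x.2.1 = 1 → x ∈ V) : False := by
  have hx : ∀ τ : unitInterval, ∃ d : Dd, d.1 = τ ∧
      (∀ j, (OnePoint.infty, q j) ∈ U → ((d : OnePoint Dd), q j) ∈ U) ∧
      (∀ j, (OnePoint.infty, q j) ∈ V → ((d : OnePoint Dd), q j) ∈ V) := by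
    intro τ
    have := ((good hU).union (good hV)).preimage_of_injOn (f := fun x : ℝ => ((τ, x) : Dd))
      fun a _ b _ e => congrArg Prod.snd e
    obtain ⟨x, hx⟩ := (ne_univ_iff_exists_notMem _).1 (ne_of_apply_ne Set.Countable
      fun e => not_countable_univ (e ▸ this))
    exact ⟨(τ, x), rfl, fun j h => by_contra fun h' => hx (Or.inl ⟨j, h, h'⟩),
      fun j h => by_contra fun h' => hx (Or.inr ⟨j, h, h'⟩)⟩
  have hc : Continuous fun τ : unitInterval => ((τ, OnePoint.infty) : K) := by fun_prop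
  obtain ⟨τ, -, a, b⟩ := isPreconnected_univ (α := unitInterval) _ _
    ((isOpen_setOfPred_eventually_nhds
      (p := fun p : K => ∀ j, p = q j → (OnePoint.infty, p) ∈ U)).preimage hc)
    ((isOpen_setOfPred_eventually_nhds
      (p := fun p : K => ∀ j, p = q j → (OnePoint.infty, p) ∈ V)).preimage hc)
    (fun τ _ => by
      obtain ⟨d, rfl, a, b⟩ := hx τ
      rcases hZ (Or.inr ⟨d, rfl⟩) with h | h
      · exact Or.inl (side hU hd hZ b h)
      · exact Or.inr (side hV hd.symm (union_comm U V ▸ hZ) a h))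
    ⟨0, trivial, by
      obtain ⟨d, e, a, b⟩ := hx 0
      have := side hU hd hZ b (h0 _ e)
      rwa [e] at this⟩
    ⟨1, trivial, by
      obtain ⟨d, e, a, b⟩ := hx 1
      have := side hV hd.symm (union_comm U V ▸ hZ) a (h1 _ e)
      rwa [e] at this⟩
  obtain ⟨p, ⟨j, e⟩, a, b⟩ := ((freq τ).and_eventually (Filter.Eventually.and a b)).exists
  exact disjoint_left.1 hd (a j e) (b j e)

def Dr : ℕ → Set X → Set X → Prop
  | 0, Y, A => A ∩ Y = ∅
  | k + 1, Y, A => (A ∩ Y = ∅ ∨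
          ∀ F G : Set X, (∃ C : Set X, IsClosed C ∧ F = Y ∩ C) →
            (∃ C : Set X, IsClosed C ∧ G = Y ∩ C) → Disjoint F G →
            ∃ S U V : Set X, S ⊆ Y ∧ (∃ C : Set X, IsClosed C ∧ S = Y ∩ C) ∧
              (∃ O : Set X, IsOpen O ∧ U = Y ∩ O) ∧
              (∃ O : Set X, IsOpen O ∧ V = Y ∩ O) ∧
              Disjoint U V ∧ Y \ S = U ∪ V ∧ F ⊆ U ∧ G ⊆ V ∧
              Dr k S (A ∩ S))

/-- The negation of the preceding statement: In every T1 normal space X, for every subset Z and every n ≥ −1: if the large inductive dimension of Z as a space is at most n, then the relative large inductive dimension of Z in X is at most n. -/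
theorem result :
    ¬ (∀ (X : Type) [TopologicalSpace X] [T4Space X] (Z : Set X) (n : ℕ)
      (D : ℕ → Set X → Set X → Prop),
      (∀ Y A : Set X, D 0 Y A ↔ A ∩ Y = ∅) →
      (∀ (k : ℕ) (Y A : Set X), D (k + 1) Y A ↔
        (A ∩ Y = ∅ ∨
          ∀ F G : Set X, (∃ C : Set X, IsClosed C ∧ F = Y ∩ C) →
            (∃ C : Set X, IsClosed C ∧ G = Y ∩ C) → Disjoint F G →
            ∃ S U V : Set X, S ⊆ Y ∧ (∃ C : Set X, IsClosed C ∧ S = Y ∩ C) ∧
              (∃ O : Set X, IsOpen O ∧ U = Y ∩ O) ∧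
              (∃ O : Set X, IsOpen O ∧ V = Y ∩ O) ∧
              Disjoint U V ∧ Y \ S = U ∪ V ∧ F ⊆ U ∧ G ⊆ V ∧
              D k S (A ∩ S))) →
      D n Z Z → D n Set.univ Z) := by
  intro H
  rcases H X Z 1 Dr (fun _ _ => Iff.rfl) (fun _ _ _ => Iff.rfl) (Or.inr (by
    rintro _ _ ⟨C, -, rfl⟩ ⟨C', -, rfl⟩ hd
    exact ⟨∅, Z ∩ C, Z \ (Z ∩ C), empty_subset _, ⟨∅, isClosed_empty, by simp⟩,
      Z_disc _ inter_subset_left, Z_disc _ sdiff_subset, disjoint_sdiff_right, by simp,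
      subset_rfl, subset_sdiff.2 ⟨inter_subset_left, hd.symm⟩, by simp [Dr]⟩)) with h | h
  · exact (eq_empty_iff_forall_notMem.1 h) _ ⟨Or.inl ⟨0, rfl⟩, trivial⟩
  · obtain ⟨S, U, V, -, -, ⟨O, hO, rfl⟩, ⟨O', hO', rfl⟩, hd, hS, h0, h1, hZ⟩ :=
      h {x | x.2.1 = 0} {x | x.2.1 = 1}
        ⟨_, isClosed_eq (by fun_prop) continuous_const, (univ_inter _).symm⟩
        ⟨_, isClosed_eq (by fun_prop) continuous_const, (univ_inter _).symm⟩
        (disjoint_left.2 fun x a b => zero_ne_one (a.symm.trans b))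
    rw [univ_inter, univ_inter] at hd hS
    rw [univ_inter] at h0 h1
    refine no_sep hO hO' hd (fun z hz => hS.le ⟨trivial, fun h => ?_⟩) h0 h1
    exact (eq_empty_iff_forall_notMem.1 hZ) z ⟨⟨hz, h⟩, h⟩

end Pool.Agent.S12822
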