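import Pool.Statements.S12824

set_option autoImplicit false
open Pool Pool.MP_189718_gt

namespace Pool.Agent.S12824

/-- Iterated power sets of the natural numbers. -/
def T : ℕ → Type
  | 0 => ℕ
  | n + 1 => Set (T n)

abbrev I : Type := Σ n, T n

abbrev Y : Type := Σ n, Ultrafilter (T n)

theorem T_lt (n : ℕ) : Cardinal.mk (T n) < Cardinal.mk I := by
  refine lt_of_lt_of_le ?_ (Cardinal.mk_le_of_injective (sigma_mk_injective (β := T) (i := n + 1)))
  show _ < Cardinal.mk (Set (T n))
  rw [Cardinal.mk_set]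
  exact Cardinal.cantor _

theorem I_unc : Cardinal.aleph0 < Cardinal.mk I := by
  simpa [T] using T_lt 0

theorem U_lt (n : ℕ) : Cardinal.mk (Ultrafilter (T n)) < Cardinal.mk I :=
  lt_of_le_of_lt (Cardinal.mk_le_of_injective
    (f := fun u : Ultrafilter (T n) => (show T (n + 2) from {s : Set (T n) | s ∈ u}))
    fun _ _ h => Ultrafilter.ext fun s => Set.ext_iff.1 h s) (T_lt (n + 2))

theorem low_lt (N : ℕ) : Cardinal.mk {y : Y | y.1 < N} < Cardinal.mk I := by
  induction N with
  | zero => simpa using lt_trans Cardinal.aleph0_pos I_unc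
  | succ N ih =>
    have : {y : Y | y.1 < N + 1} ⊆ {y : Y | y.1 < N} ∪ Set.range (Sigma.mk N) := by
      rintro ⟨n, u⟩ h
      rcases Nat.lt_succ_iff_lt_or_eq.1 h with h | rfl
      · exact Or.inl h
      · exact Or.inr ⟨u, rfl⟩
    exact lt_of_le_of_lt ((Cardinal.mk_le_mk_of_subset this).trans (Cardinal.mk_union_le _ _))
      (Cardinal.add_lt_of_lt I_unc.le ih (lt_of_le_of_lt Cardinal.mk_range_le (U_lt N)))

instance : WeaklyLocallyCompactSpace Y :=
  ⟨fun y => ⟨Set.range (Sigma.mk y.1), isCompact_range continuous_sigmaMk,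
    isOpen_range_sigmaMk.mem_nhds ⟨y.2, rfl⟩⟩⟩

theorem fst_cont : Continuous (Sigma.fst : Y → ℕ) := continuous_sigma fun _ => continuous_const

theorem low_compact (N : ℕ) : IsCompact {y : Y | y.1 < N} := by
  have : {y : Y | y.1 < N} = ⋃ n ∈ Set.Iio N, Set.range (Sigma.mk n) := by
    ext ⟨n, u⟩
    simp only [Set.mem_ofPred_eq, Set.mem_iUnion, Set.mem_Iio, Set.mem_range]
    exact ⟨fun h => ⟨n, h, u, rfl⟩, fun ⟨m, h, v, e⟩ => by cases e; exact h⟩
  rw [this]
  exact (Set.finite_Iio N).isCompact_biUnion fun n _ => isCompact_range continuous_sigmaMk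

theorem tend {d : ℕ → Y} (h : Function.Injective fun k => (d k).1) :
    Filter.Tendsto (fun k => (d k : OnePoint Y)) Filter.atTop (nhds OnePoint.infty) := by
  refine OnePoint.tendsto_coe_infty.comp ?_
  rw [Filter.coclosedCompact_eq_cocompact, ← Nat.cofinite_eq_atTop,
    Filter.hasBasis_cocompact.tendsto_right_iff]
  intro C hC
  exact (((hC.image fst_cont).finite_of_discrete).preimage h.injOn).subset fun k hk =>
    ⟨d k, not_not.1 hk, rfl⟩

/-- The negation of the preceding statement: For compact Hausdorff K and uncountable κ: if C_p(K) with the pointwise topology maps continuously onto [0,1]^κ, then K has a discrete subset of size κ on which every bounded continuous real function extends continuously to K. -/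
theorem result :
    ¬ (∀ (K : Type) [TopologicalSpace K] [CompactSpace K] [T2Space K] (ι : Type),
      Cardinal.aleph0 < Cardinal.mk ι →
      (∃ φ : {f : K → ℝ // Continuous f} → (ι → unitInterval),
          Continuous φ ∧ Function.Surjective φ) →
      ∃ D : Set K, DiscreteTopology (↥D) ∧ Cardinal.mk (↥D) = Cardinal.mk ι ∧
        ∀ g : (↥D) → ℝ, Continuous g → (∃ M : ℝ, ∀ x : ↥D, |g x| ≤ M) →
          ∃ G : K → ℝ, Continuous G ∧ ∀ x : ↥D, G (x : K) = g x) := by
  classical
  intro H
  obtain ⟨D, d1, d2, d3⟩ := H (OnePoint Y) I I_unc ⟨fun f i => Set.projIcc 0 1 zero_le_one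
      (((i.1 : ℝ) + 1) * (f.1 (⟨i.1, pure i.2⟩ : Y) - f.1 OnePoint.infty)),
    continuous_pi fun i => continuous_projIcc.comp (continuous_const.mul
      (((continuous_apply _).comp continuous_subtype_val).sub
        ((continuous_apply _).comp continuous_subtype_val))), fun y => by
      let g : Y → ℝ := fun z => (1 / ((z.1 : ℝ) + 1)) *
        (Ultrafilter.extend (fun t => y ⟨z.1, t⟩) z.2 : unitInterval)
      have hg : Continuous g := continuous_sigma fun n =>
        (continuous_const (y := 1 / ((n : ℝ) + 1))).mul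
        (continuous_subtype_val.comp (continuous_ultrafilter_extend (fun t => y ⟨n, t⟩)))
      refine ⟨⟨fun x => Option.elim x 0 g,
        (OnePoint.continuous_iff _).2 ⟨?_, hg⟩⟩, ?_⟩
      · show Filter.Tendsto g _ (nhds 0)
        rw [Filter.coclosedCompact_eq_cocompact, Metric.tendsto_nhds]
        intro ε hε
        obtain ⟨N, hN⟩ := exists_nat_one_div_lt hε
        filter_upwards [(low_compact N).compl_mem_cocompact] with z hz
        have h0 : (0 : ℝ) < 1 / ((z.1 : ℝ) + 1) := Nat.one_div_pos_of_nat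
        have h1 : 1 / ((z.1 : ℝ) + 1) ≤ 1 / ((N : ℝ) + 1) :=
          Nat.one_div_le_one_div (not_lt.1 hz)
        have h2 := (Ultrafilter.extend (fun t => y ⟨z.1, t⟩) z.2).2
        rw [Real.dist_eq, sub_zero, abs_of_nonneg (mul_nonneg h0.le h2.1)]
        exact lt_of_le_of_lt (mul_le_of_le_one_right h0.le h2.2) (h1.trans_lt hN)
      · funext i
        show Set.projIcc 0 1 zero_le_one (((i.1 : ℝ) + 1) * (g ⟨i.1, pure i.2⟩ - 0)) = y i
        have : ((i.1 : ℝ) + 1) * (g ⟨i.1, pure i.2⟩ - 0) = y i := by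
          simp only [g, ultrafilter_extend_pure, sub_zero]
          rw [← mul_assoc, mul_one_div_cancel (by positivity), one_mul]
        rw [this, Set.projIcc_val]⟩
  by_cases hS : {n | ∃ u, ((⟨n, u⟩ : Y) : OnePoint Y) ∈ D}.Finite
  · obtain ⟨N, hN⟩ := hS.bddAbove
    have : D ⊆ insert OnePoint.infty ((fun y : Y => (y : OnePoint Y)) '' {y : Y | y.1 < N + 1}) := by
      intro x hx
      induction x using OnePoint.rec with
      | infty => exact Or.inl rfl
      | coe y => exact Or.inr ⟨y, Nat.lt_succ_of_le (hN ⟨y.2, hx⟩), rfl⟩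
    refine absurd d2 (ne_of_lt (lt_of_le_of_lt ((Cardinal.mk_le_mk_of_subset this).trans
      Cardinal.mk_insert_le) (Cardinal.add_lt_of_lt I_unc.le
        (lt_of_le_of_lt Cardinal.mk_image_le (low_lt _)) (Cardinal.one_lt_aleph0.trans I_unc))))
  · let e := Set.Infinite.natEmbedding _ hS
    choose u hu using fun k => (e k).2
    have he : Function.Injective fun k => (e k).1 := Subtype.val_injective.comp e.injective
    obtain ⟨G, g1, g2⟩ := d3 (fun x => if ∃ k, x.1 = ((⟨e (2 * k), u _⟩ : Y) : OnePoint Y) then 1 else 0)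
      continuous_of_discreteTopology ⟨1, fun x => by split_ifs <;> simp⟩
    have t1 := (g1.tendsto _).comp (tend (d := fun k => ⟨e (2 * k), u _⟩)
      fun a b h => by have := he h; omega)
    have t2 := (g1.tendsto _).comp (tend (d := fun k => ⟨e (2 * k + 1), u _⟩)
      fun a b h => by have := he h; omega)
    have e1 : (G ∘ fun k => ((⟨e (2 * k), u _⟩ : Y) : OnePoint Y)) = fun _ => 1 :=
      funext fun k => (g2 ⟨_, hu _⟩).trans (if_pos ⟨k, rfl⟩)
    have e2 : (G ∘ fun k => ((⟨e (2 * k + 1), u _⟩ : Y) : OnePoint Y)) = fun _ => 0 :=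
      funext fun k => (g2 ⟨_, hu _⟩).trans (if_neg fun ⟨j, h⟩ => by
        have := he (congrArg Sigma.fst (OnePoint.coe_injective h))
        omega)
    rw [e1] at t1
    rw [e2] at t2
    exact one_ne_zero ((tendsto_nhds_unique tendsto_const_nhds t1).trans
      (tendsto_nhds_unique t2 tendsto_const_nhds))

end Pool.Agent.S12824
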