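import Pool.Statements.S12835

set_option autoImplicit false
open Filter Topology
open Pool Pool.MP_1a07a1_gt

namespace Pool.Agent.S12835

lemma exists_delta {V : Type*} [NormedAddCommGroup V] (D : Set V) (hD : IsClosed D) :
    ∃ δ : V → ℝ, LipschitzWith 1 δ ∧ (∀ x, 0 ≤ δ x) ∧ ∀ x, δ x = 0 ↔ x ∈ D := by
  rcases D.eq_empty_or_nonempty with rfl | h
  · exact ⟨fun _ => 1, (LipschitzWith.const 1).weaken zero_le_one, fun _ => zero_le_one,
      fun x => by simp⟩
  · exact ⟨fun x => Metric.infDist x D, Metric.lipschitz_infDist_pt D,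
      fun _ => Metric.infDist_nonneg, fun x => (hD.mem_iff_infDist_zero h).symm⟩

lemma exists_homeo {V : Type*} [NormedAddCommGroup V] [NormedSpace ℝ V] [CompleteSpace V]
    (e : V) (he : ‖e‖ = 1) (δ : V → ℝ) (hδ : LipschitzWith 1 δ) :
    ∃ h : V ≃ₜ V, ∀ x, h x = x + (δ x / 2) • e := by
  have hnt : Nontrivial V := ⟨⟨e, 0, fun h => by simp [h] at he⟩⟩
  have A : ApproximatesLinearOn (fun x => x + (δ x / 2) • e)
      ((ContinuousLinearEquiv.refl ℝ V : V ≃L[ℝ] V) : V →L[ℝ] V) Set.univ (1 / 2) := by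
    intro x _ y _
    have h1 : x + (δ x / 2) • e - (y + (δ y / 2) • e) -
        ((ContinuousLinearEquiv.refl ℝ V : V ≃L[ℝ] V) : V →L[ℝ] V) (x - y) =
        ((δ x - δ y) / 2) • e := by
      simp only [ContinuousLinearEquiv.coe_refl, ContinuousLinearMap.id_apply, sub_div, sub_smul]
      abel
    rw [h1, norm_smul, he, mul_one, Real.norm_eq_abs, abs_div]
    have h2 := hδ.dist_le_mul x y
    rw [Real.dist_eq, dist_eq_norm] at h2
    simp only [NNReal.coe_one, one_mul] at h2
    simp only [NNReal.coe_div, NNReal.coe_one, NNReal.coe_ofNat, abs_two]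
    linarith
  refine ⟨A.toHomeomorph _ (Or.inr ?_), fun x => rfl⟩
  simp only [ContinuousLinearEquiv.refl_symm, ContinuousLinearEquiv.coe_refl,
    ContinuousLinearMap.nnnorm_id, inv_one]
  norm_num

lemma main_onePoint {V : Type*} [NormedAddCommGroup V] [NormedSpace ℝ V] [ProperSpace V]
    (e : V) (he : ‖e‖ = 1) (C : Set (OnePoint V)) (hC : IsClosed C) (hi : OnePoint.infty ∈ C) :
    ∃ H : ℕ → (OnePoint V ≃ₜ OnePoint V),
      (∀ p, ∃ q ∈ C, Tendsto (fun k => H k p) atTop (𝓝 q)) ∧ ∀ q ∈ C, ∀ k, H k q = q := by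
  obtain ⟨δ, hδ, h0, hz⟩ := exists_delta ((fun x : V => (x : OnePoint V)) ⁻¹' C)
    (hC.preimage OnePoint.continuous_coe)
  obtain ⟨h, hh⟩ := exists_homeo e he δ hδ
  let G : ℕ → (V ≃ₜ V) := fun k => Nat.rec (Homeomorph.refl V) (fun _ g => g.trans h) k
  have G0 : ∀ x, G 0 x = x := fun x => rfl
  have Gs : ∀ k x, G (k + 1) x = h (G k x) := fun k x => rfl
  refine ⟨fun k => (G k).onePointCongr, ?_, ?_⟩
  · intro p
    induction p using OnePoint.rec with
    | infty => exact ⟨_, hi, tendsto_const_nhds⟩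
    | coe x =>
      let s : ℕ → ℝ := fun k => Nat.rec 0 (fun _ t => t + δ (x + t • e) / 2) k
      have ss : ∀ k, s (k + 1) = s k + δ (x + s k • e) / 2 := fun k => rfl
      have hs : ∀ k, G k x = x + s k • e := by
        intro k
        induction k with
        | zero => rw [G0]; simp [s]
        | succ k ih => rw [Gs, ih, hh, ss, add_smul, add_assoc]
      have hm : Monotone s := monotone_nat_of_le_succ fun k => by
        rw [ss]; linarith [h0 (x + s k • e)]
      have hG : (fun k => (G k).onePointCongr (x : OnePoint V)) =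
          fun k => ((x + s k • e : V) : OnePoint V) := by
        funext k
        rw [← hs]; rfl
      rw [hG]
      rcases tendsto_atTop_of_monotone hm with ht | ⟨l, ht⟩
      · refine ⟨_, hi, OnePoint.tendsto_coe_infty.comp ?_⟩
        rw [coclosedCompact_eq_cocompact, ← Metric.cobounded_eq_cocompact,
          ← tendsto_norm_atTop_iff_cobounded]
        refine tendsto_atTop_mono (fun k => ?_) (tendsto_atTop_add_const_right _ (-‖x‖) ht)
        have h1 : ‖s k • e‖ ≤ ‖x + s k • e‖ + ‖x‖ := by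
          have := norm_sub_le (x + s k • e) x
          rwa [add_sub_cancel_left] at this
        rw [norm_smul, he, mul_one, Real.norm_eq_abs] at h1
        linarith [le_abs_self (s k)]
      · have h1 : Tendsto (fun k => x + s k • e) atTop (𝓝 (x + l • e)) :=
          tendsto_const_nhds.add (ht.smul_const e)
        refine ⟨((x + l • e : V) : OnePoint V), ?_, (OnePoint.continuous_coe.tendsto _).comp h1⟩
        have h2 : Tendsto (fun k => s (k + 1)) atTop (𝓝 (l + δ (x + l • e) / 2)) := by
          simp only [ss]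
          exact ht.add (((hδ.continuous.tendsto _).comp h1).div_const 2)
        have h3 := tendsto_nhds_unique h2 (ht.comp (tendsto_add_atTop_nat 1))
        exact (hz _).1 (by linarith)
  · intro q hq k
    induction q using OnePoint.rec with
    | infty => rfl
    | coe x =>
      have : G k x = x := by
        induction k with
        | zero => rfl
        | succ k ih => rw [Gs, ih, hh, (hz x).2 hq]; simp
      show ((G k x : V) : OnePoint V) = x
      rw [this]

/-- For every n ≥ 2 and every nonempty closed set C in the unit sphere of ℝⁿ, some sequence of self-homeomorphisms of the sphere converges pointwise everywhere to points of C, with every point of C attained as a limit. -/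
theorem result :
    ∀ n : ℕ, 2 ≤ n →
      ∀ C : Set ↥(Metric.sphere (0 : EuclideanSpace ℝ (Fin n)) (1 : ℝ)),
        IsClosed C → C.Nonempty →
        ∃ H : ℕ → (↥(Metric.sphere (0 : EuclideanSpace ℝ (Fin n)) (1 : ℝ)) ≃ₜ
                    ↥(Metric.sphere (0 : EuclideanSpace ℝ (Fin n)) (1 : ℝ))),
          (∀ p : ↥(Metric.sphere (0 : EuclideanSpace ℝ (Fin n)) (1 : ℝ)),
              ∃ q ∈ C, Tendsto (fun k : ℕ => H k p) atTop (𝓝 q)) ∧
          (∀ q ∈ C, ∃ p : ↥(Metric.sphere (0 : EuclideanSpace ℝ (Fin n)) (1 : ℝ)),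
              Tendsto (fun k : ℕ => H k p) atTop (𝓝 q)) := by
  intro n hn C hC ⟨c, hc⟩
  have hv : ‖(c : EuclideanSpace ℝ (Fin n))‖ = 1 := by simp
  have hv0 : (c : EuclideanSpace ℝ (Fin n)) ≠ 0 := fun h => by simp [h] at hv
  have : Fact (Module.finrank ℝ (EuclideanSpace ℝ (Fin n)) = (n - 1) + 1) := ⟨by simp; omega⟩
  have hr := Submodule.finrank_orthogonal_span_singleton (𝕜 := ℝ) (n := n - 1) hv0
  have hnt : Nontrivial (ℝ ∙ (c : EuclideanSpace ℝ (Fin n)))ᗮ :=
    Module.nontrivial_of_finrank_pos (R := ℝ) (by omega)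
  obtain ⟨e, he⟩ := exists_norm_eq (ℝ ∙ (c : EuclideanSpace ℝ (Fin n)))ᗮ zero_le_one
  let Φ := onePointHyperplaneHomeoUnitSphere hv
  have hΦ : Φ OnePoint.infty = c := rfl
  obtain ⟨H, h1, h2⟩ := main_onePoint e he (Φ ⁻¹' C) (hC.preimage Φ.continuous)
    (by rw [Set.mem_preimage, hΦ]; exact hc)
  refine ⟨fun k => (Φ.symm.trans (H k)).trans Φ, fun p => ?_, fun q hq => ⟨q, ?_⟩⟩
  · obtain ⟨q, hq, ht⟩ := h1 (Φ.symm p)
    exact ⟨Φ q, hq, (Φ.continuous.tendsto q).comp ht⟩
  · have : (fun k => ((Φ.symm.trans (H k)).trans Φ) q) = fun _ => q := by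
      funext k
      show Φ (H k (Φ.symm q)) = q
      rw [h2 _ (by simpa using hq), Φ.apply_symm_apply]
    rw [this]
    exact tendsto_const_nhds

end Pool.Agent.S12835
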