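import Pool.Statements.S12876
import Pool.Agent.H25.ValdRN

set_option autoImplicit false
open Pool Pool.MP_206312_gt

namespace Pool.Agent.S12876

/-- The negation of the preceding statement: There is a compact Hausdorff scattered space embedded in a cube [0,1]^Γ so that points with coordinates tending to zero are dense, and which contains a homeomorphic copy of the ordinal interval [0, ω₂]. -/
theorem result :
    ¬ (∃ (X : Type) (_ : TopologicalSpace X), CompactSpace X ∧ T2Space X ∧
      (∀ A : Set X, A.Nonempty → ∃ x ∈ A, ∃ U : Set X, IsOpen U ∧ U ∩ A = {x}) ∧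
      (∃ (Γ : Type) (e : X → (Γ → ℝ)), Topology.IsEmbedding e ∧
        (∀ x γ, e x γ ∈ Set.Icc (0 : ℝ) 1) ∧
        Dense {x : X | ∀ ε : ℝ, 0 < ε → {γ : Γ | ε ≤ |e x γ|}.Finite}) ∧
      ∃ f : Set.Iic (Cardinal.aleph.{0} 2).ord → X, Topology.IsEmbedding f) := by
  classical
  rintro ⟨X, _, _, _, h1, ⟨Γ, e, h2, -, h3⟩, f, h4⟩
  refine Pool.Agent.H25.ValdRN.main (fun x y => if x = y then 0 else 1) (fun q r hr => ?_)
    (fun x y h => by simp [h]) (fun L hL ε hε => ?_) e h2 (h3.mono fun x hx =>
      (Set.countable_iUnion fun n : ℕ => (hx _ (Nat.one_div_pos_of_nat (n := n))).countable).mono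
        fun γ hγ => ?_) f h4.continuous h4.injective
  · by_cases h : q.1 = q.2
    · refine .of_forall fun s => lt_of_lt_of_le hr ?_
      simp only [Function.uncurry, h, if_true]
      split_ifs <;> norm_num
    · exact ((isOpen_ne_fun continuous_fst continuous_snd).eventually_mem h).mono fun s hs => by
        simpa [Function.uncurry, h, show s.1 ≠ s.2 from hs] using hr
  · obtain ⟨x, -, U, u1, u2⟩ := h1 L hL
    refine ⟨U, u1, by simp [u2], ?_⟩
    simp [u2, hε]
  · obtain ⟨n, hn⟩ := exists_nat_one_div_lt (abs_pos.2 hγ)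
    exact Set.mem_iUnion.2 ⟨n, hn.le⟩

end Pool.Agent.S12876
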