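import Pool.Statements.S12922
import Pool.Agent.H31.CK

set_option autoImplicit false
open Pool Pool.MP_28e94d_gt

namespace Pool.Agent.S12922

theorem result :
    ¬ (∀ (G : Type) [Group G] [TopologicalSpace G] [IsTopologicalGroup G] [T2Space G],
      ((∀ P : (H : Type) → [Group H] → [TopologicalSpace H] → Prop,
          (∀ (H : Type) [Group H] [TopologicalSpace H] [IsTopologicalGroup H] [T2Space H],
              CompactSpace H → TopologicalSpace.SeparableSpace H → P H) →
          (∀ (H : Type) [Group H] [TopologicalSpace H] [IsTopologicalGroup H] [T2Space H],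
              Countable H → P H) →
          (∀ (H₁ : Type) [Group H₁] [TopologicalSpace H₁] [IsTopologicalGroup H₁] [T2Space H₁]
              (H₂ : Type) [Group H₂] [TopologicalSpace H₂] [IsTopologicalGroup H₂] [T2Space H₂],
              P H₁ → P H₂ → P (H₁ × H₂)) →
          (∀ (H : Type) [Group H] [TopologicalSpace H] [IsTopologicalGroup H] [T2Space H]
              (L : Subgroup H), IsClosed (L : Set H) → P H → P L) →
          (∀ (H₁ : Type) [Group H₁] [TopologicalSpace H₁] [IsTopologicalGroup H₁] [T2Space H₁]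
              (H₂ : Type) [Group H₂] [TopologicalSpace H₂] [IsTopologicalGroup H₂] [T2Space H₂]
              (f : H₁ →* H₂), Continuous f → Function.Surjective f → P H₁ → P H₂) →
          P G) ↔
        ∃ K : Subgroup G, CompactSpace K ∧ TopologicalSpace.SeparableSpace K ∧
          Countable (G ⧸ K))) := by
  intro h
  have h1 := (h H31.CK.G).2 H31.CK.CK_G (fun H _ _ => H31.CK.P H)
    (fun H _ _ _ _ hc _ => H31.CK.P_compact H)
    (fun H _ _ _ _ hc => H31.CK.P_countable H)
    (fun H₁ _ _ _ _ H₂ _ _ _ _ h₁ h₂ => H31.CK.P_prod H₁ H₂ h₁ h₂)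
    (fun H _ _ _ _ L hL h => H31.CK.P_sub H L hL h)
    (fun H₁ _ _ _ _ H₂ _ _ _ _ f hf hs h => H31.CK.P_image H₁ H₂ f hf hs h)
  exact H31.CK.not_P_G h1

end Pool.Agent.S12922
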