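import Pool.Statements.S12946
import Pool.Agent.H30.SubAn2

set_option autoImplicit false
open Pool Pool.MP_2beacb_gt

namespace Pool.Agent.S12946

/-- The negation of the preceding statement: There is a Tychonoff space Y that is a continuous image of the irrationals such that the space of continuous real functions on the irrationals, with the pointwise convergence topology, topologically embeds into Y. -/
theorem result :
    ¬ (∃ (Y : Type) (_ : TopologicalSpace Y), T35Space Y ∧
      (∃ g : {x : ℝ // Irrational x} → Y, Continuous g ∧ Function.Surjective g) ∧
      ∃ e : {f : {x : ℝ // Irrational x} → ℝ // Continuous f} → Y,
        Topology.IsEmbedding e) := by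
  exact Pool.Agent.H30.SubAn.final2

end Pool.Agent.S12946
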