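import Pool.Statements.S12952
import Pool.Agent.H31.Co2

set_option autoImplicit false
open Pool Pool.MP_2c91bd_gt

namespace Pool.Agent.S12952

/-- The negation of the preceding statement: For every consonant T0 space X, the space of nonempty closed subsets of X with the lower Vietoris topology is consonant, where consonant means every Scott-open family of opens contains, around each member U, all opens containing some compact K ⊆ U. -/
theorem result :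
    ¬ (∀ (X : Type) [TopologicalSpace X] [T0Space X],
    (∀ 𝓤 : Set (Set X), (∀ U ∈ 𝓤, IsOpen U) →
      (∀ U ∈ 𝓤, ∀ V : Set X, IsOpen V → U ⊆ V → V ∈ 𝓤) →
      (∀ 𝒟 : Set (Set X), 𝒟.Nonempty → DirectedOn (· ⊆ ·) 𝒟 →
          (∀ D ∈ 𝒟, IsOpen D) → ⋃₀ 𝒟 ∈ 𝓤 → ∃ D ∈ 𝒟, D ∈ 𝓤) →
      ∀ U ∈ 𝓤, ∃ K : Set X, IsCompact K ∧ K ⊆ U ∧
        ∀ V : Set X, IsOpen V → K ⊆ V → V ∈ 𝓤) →
    ∀ tH : TopologicalSpace {C : Set X // IsClosed C ∧ C.Nonempty},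
      tH = TopologicalSpace.generateFrom
        {S | ∃ U : Set X, IsOpen U ∧
          S = {C : {C : Set X // IsClosed C ∧ C.Nonempty} | (C.1 ∩ U).Nonempty}} →
      (∀ 𝓤 : Set (Set {C : Set X // IsClosed C ∧ C.Nonempty}),
        (∀ U ∈ 𝓤, @IsOpen _ tH U) →
        (∀ U ∈ 𝓤, ∀ V : Set {C : Set X // IsClosed C ∧ C.Nonempty},
            @IsOpen _ tH V → U ⊆ V → V ∈ 𝓤) →
        (∀ 𝒟 : Set (Set {C : Set X // IsClosed C ∧ C.Nonempty}), 𝒟.Nonempty →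
            DirectedOn (· ⊆ ·) 𝒟 →
            (∀ D ∈ 𝒟, @IsOpen _ tH D) → ⋃₀ 𝒟 ∈ 𝓤 → ∃ D ∈ 𝒟, D ∈ 𝓤) →
        ∀ U ∈ 𝓤, ∃ K : Set {C : Set X // IsClosed C ∧ C.Nonempty},
          @IsCompact _ tH K ∧ K ⊆ U ∧
          ∀ V : Set {C : Set X // IsClosed C ∧ C.Nonempty},
            @IsOpen _ tH V → K ⊆ V → V ∈ 𝓤)) := by
  intro h
  exact Pool.Agent.H31.Co.lower (fun C => IsClosed C ∧ C.Nonempty) (fun _ h h' => ⟨h, h'⟩)
    fun F hF => h Pool.Agent.H31.Co.X (fun F h1 h2 h3 =>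
      Pool.Agent.H31.Co.finCons.cons F ⟨h1, h2, h3⟩) _ rfl F hF.1 hF.2.1 hF.2.2

end Pool.Agent.S12952
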