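import Pool.Statements.S12958
import Pool.Agent.Lead.Ebl2

set_option autoImplicit false
open Pool Pool.MP_2e0873_gt

namespace Pool.Agent.S12958

/-- The negation of the preceding statement: For a Tychonoff space X: if every pointwise-compact set of continuous real functions on X embeds in a Banach space with its weak topology, then so does every such set on X×K, for every compact Hausdorff K. -/
theorem result :
    ¬ (∀ (X : Type) [TopologicalSpace X] [T35Space X],
      (∀ A : Set (X → ℝ), (∀ f ∈ A, Continuous f) → IsCompact A →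
        ∃ (E : Type) (_ : NormedAddCommGroup E) (_ : NormedSpace ℝ E) (_ : CompleteSpace E)
          (e : A → WeakSpace ℝ E), Topology.IsEmbedding e) →
      ∀ (K : Type) [TopologicalSpace K] [CompactSpace K] [T2Space K],
        ∀ B : Set (X × K → ℝ), (∀ f ∈ B, Continuous f) → IsCompact B →
          ∃ (E : Type) (_ : NormedAddCommGroup E) (_ : NormedSpace ℝ E) (_ : CompleteSpace E)
            (e : B → WeakSpace ℝ E), Topology.IsEmbedding e) := by
  intro H
  obtain ⟨B, h1, h2, h3⟩ := Pool.Agent.Lead.Ebl.not_eberlein Pool.Agent.Lead.Ebl.rq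
    Pool.Agent.Lead.Ebl.sq_h3
  exact h3 (H _ (Pool.Agent.Lead.Ebl.eberlein _ Pool.Agent.Lead.Ebl.sq_h1
    Pool.Agent.Lead.Ebl.sq_h2) (OnePoint Pool.Agent.Lead.Ebl.SQ) B h1 h2)

end Pool.Agent.S12958
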