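import Pool.Statements.S12972

set_option autoImplicit false
open Pool Pool.MP_2fc951_gt

namespace Pool.Agent.S12972

open Set Filter

lemma exists_dec (α : Type) [Nonempty α] : ∃ d : Set α → ℕ → α, ∀ (s : Set α) (K : ℕ),
    (∀ t : Finset α, (↑t : Set α) ⊆ s → t.card ≤ K) → ∀ a ∈ s, ∃ i < K, d s i = a := by
  classical
  refine ⟨fun s i => if h : s.Finite then (if hi : i < h.toFinset.card then
    (h.toFinset.equivFin.symm ⟨i, hi⟩ : α) else Classical.arbitrary α) else Classical.arbitrary α,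
    fun s K hs a ha => ?_⟩
  have hf : s.Finite := by
    by_contra hinf
    obtain ⟨t, ht, hc⟩ := Set.Infinite.exists_subset_card_eq hinf (K + 1)
    have := hs t ht
    omega
  have hc := hs hf.toFinset (by simp)
  have ha' : a ∈ hf.toFinset := by simpa using ha
  refine ⟨hf.toFinset.equivFin ⟨a, ha'⟩, (Fin.is_lt _).trans_le hc, ?_⟩
  simp [hf]

def G (σ : ℕ → Equiv.Perm ℕ) : SimpleGraph (ℕ × ℕ) :=
  SimpleGraph.fromRel fun v w => w = (v.1, v.2 + 1) ∨ w = (v.1 + 1, v.2) ∨ w = (v.1, σ v.1 v.2)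

lemma G_adj1 (σ : ℕ → Equiv.Perm ℕ) (n i : ℕ) : (G σ).Adj (n, i) (n, i + 1) := by
  simp [G]

lemma G_adj2 (σ : ℕ → Equiv.Perm ℕ) (n i : ℕ) : (G σ).Adj (n, i) (n + 1, i) := by
  simp [G]

lemma G_conn (σ : ℕ → Equiv.Perm ℕ) : (G σ).Connected := by
  have h : ∀ n i, (G σ).Reachable (0, 0) (n, i) := by
    intro n i
    induction i with
    | zero =>
      induction n with
      | zero => rfl
      | succ n ih => exact ih.trans (G_adj2 σ n 0).reachable
    | succ i ih => exact ih.trans (G_adj1 σ n i).reachable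
  exact ⟨fun v w => (h v.1 v.2).symm.trans (h w.1 w.2)⟩

lemma G_ball (σ : ℕ → Equiv.Perm ℕ) (r : ℕ) : ∀ v, ∃ B : Finset (ℕ × ℕ), B.card ≤ 7 ^ r ∧
    ∀ w, ∀ p : (G σ).Walk v w, p.length ≤ r → w ∈ B := by
  induction r with
  | zero =>
    intro v
    refine ⟨{v}, by simp, fun w p hp => ?_⟩
    rw [Finset.mem_singleton]
    exact (p.eq_of_length_eq_zero (by omega)).symm
  | succ r ih =>
    intro v
    choose B hB hB' using ih
    let nb : Finset (ℕ × ℕ) := {v, (v.1, v.2 + 1), (v.1 + 1, v.2), (v.1, σ v.1 v.2),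
      (v.1, v.2 - 1), (v.1 - 1, v.2), (v.1, (σ v.1).symm v.2)}
    have hnb : nb.card ≤ 7 := by
      refine (Finset.card_insert_le _ _).trans (Nat.succ_le_succ Finset.card_le_six)
    refine ⟨nb.biUnion B, ?_, fun w p hp => ?_⟩
    · refine (Finset.card_biUnion_le_card_mul _ _ _ fun a _ => hB a).trans ?_
      rw [pow_succ']
      exact Nat.mul_le_mul_right _ hnb
    · cases p with
      | nil => exact Finset.mem_biUnion.2 ⟨v, by simp [nb], hB' v v .nil (by simp)⟩
      | @cons _ u _ h q =>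
        refine Finset.mem_biUnion.2 ⟨u, ?_, hB' u w q (by simpa using hp)⟩
        obtain ⟨a, b⟩ := v
        obtain ⟨c, d⟩ := u
        simp only [G, SimpleGraph.fromRel_adj, Prod.mk.injEq] at h
        simp only [nb, Finset.mem_insert, Finset.mem_singleton, Prod.mk.injEq]
        rcases h.2 with (h | h | h) | (h | h | h)
        · simp [h.1, h.2]
        · simp [h.1, h.2]
        · simp [h.1, h.2]
        · simp [h.1, h.2]
        · simp [h.1, h.2]
        · simp [h.1, h.2]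

def Y (_σ : ℕ → Equiv.Perm ℕ) : Type := ℕ × ℕ

noncomputable instance (σ : ℕ → Equiv.Perm ℕ) : MetricSpace (Y σ) where
  dist v w := ((G σ).dist v w : ℝ)
  dist_self v := by simp
  dist_comm v w := by rw [SimpleGraph.dist_comm]
  dist_triangle u v w := by exact_mod_cast (G_conn σ).dist_triangle
  eq_of_dist_eq_zero h := (G_conn σ).dist_eq_zero_iff.1 (by exact_mod_cast h)

lemma Y_dist (σ : ℕ → Equiv.Perm ℕ) (v w : Y σ) : dist v w = ((G σ).dist v w : ℝ) := rfl

lemma Y_ball (σ : ℕ → Equiv.Perm ℕ) (r : ℕ) (y : Y σ) (s : Finset (Y σ))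
    (hs : (↑s : Set (Y σ)) ⊆ Metric.closedBall y r) : s.card ≤ 7 ^ r := by
  obtain ⟨B, hB, hB'⟩ := G_ball σ r y
  refine (Finset.card_le_card (t := B) fun w hw => ?_).trans hB
  obtain ⟨p, hp⟩ := (G_conn σ).exists_walk_length_eq_dist y w
  refine hB' w p ?_
  have := Metric.mem_closedBall'.1 (hs hw)
  rw [Y_dist] at this
  rw [hp]
  exact_mod_cast this

lemma exists_bad {X : Type} [MetricSpace X]
    (hX : ∀ r : ℝ, 0 < r → ∃ N : ℕ, ∀ x : X, ∀ s : Finset X,
        (↑s : Set X) ⊆ Metric.closedBall x r → s.card ≤ N) (x : X) (n R K : ℕ) :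
    ∃ σ : Equiv.Perm ℕ, ∀ p : ℕ → X, dist (p 0) x ≤ n * R → (∀ i, dist (p (i + 1)) (p i) ≤ R) →
      (∀ z, ∀ t : Finset ℕ, (↑t : Set ℕ) ⊆ p ⁻¹' {z} → t.card ≤ K) →
      ¬ ∀ i, dist (p (σ i)) (p i) ≤ R := by
  classical
  have : Nonempty X := ⟨x⟩
  obtain ⟨A, hA⟩ := hX (n * R + 1) (by positivity)
  obtain ⟨N, hN⟩ := hX (R + 1) (by positivity)
  obtain ⟨d, hd⟩ := exists_dec X
  obtain ⟨e, he⟩ := exists_dec ℕ
  obtain ⟨m, hm⟩ := (Nat.eventually_mul_pow_lt_factorial_sub A (N * N * K) 0).exists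
  let path : X → (ℕ → ℕ) → ℕ → X := fun x0 c i =>
    Nat.rec x0 (fun j y => d (Metric.closedBall y (R + 1)) (c j)) i
  let ext : (Fin m → Fin N) → ℕ → ℕ := fun c j => if h : j < m then c ⟨j, h⟩ else 0
  let Φ : Fin A × (Fin m → Fin N × Fin N × Fin K) → Fin m → ℕ := fun c i =>
    let q := path (d (Metric.closedBall x (n * R + 1)) c.1) (ext fun j => (c.2 j).1)
    e {j | j < m ∧ q j = d (Metric.closedBall (q i) (R + 1)) (c.2 i).2.1} (c.2 i).2.2
  by_contra hcon
  push Not at hcon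
  have key : ∀ τ : Equiv.Perm (Fin m), ∃ c, Φ c = fun i => (τ i : ℕ) := by
    intro τ
    obtain ⟨p, h0, h1, h2, h3⟩ := hcon (τ.viaEmbedding Fin.valEmbedding)
    obtain ⟨a, ha, ha'⟩ := hd _ A (hA x) (p 0) (h0.trans (by linarith : (n * R : ℝ) ≤ n * R + 1))
    choose b hb hb' using fun i => hd _ N (hN (p i)) (p (i + 1))
      ((h1 i).trans (by linarith : (R : ℝ) ≤ R + 1))
    choose c hc hc' using fun i => hd _ N (hN (p i)) _
      ((h3 i).trans (by linarith : (R : ℝ) ≤ R + 1))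
    have hτ : ∀ i : Fin m, (τ.viaEmbedding Fin.valEmbedding) i = τ i := fun i =>
      Equiv.Perm.viaEmbedding_apply τ Fin.valEmbedding i
    choose k hk hk' using fun i : Fin m => he {j | j < m ∧ p j = p (τ i)} K
      (fun t ht => h2 (p (τ i)) t fun j hj => (ht hj).2) (τ i) ⟨(τ i).2, rfl⟩
    refine ⟨(⟨a, ha⟩, fun i => (⟨b i, hb i⟩, ⟨c i, hc i⟩, ⟨k i, hk i⟩)), ?_⟩
    have hq : ∀ j ≤ m, path (p 0) (ext fun j => ⟨b j, hb j⟩) j = p j := by
      intro j hj
      induction j with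
      | zero => rfl
      | succ j ih =>
        show d (Metric.closedBall (path (p 0) (ext fun j => ⟨b j, hb j⟩) j) (R + 1))
          (ext (fun j => ⟨b j, hb j⟩) j) = _
        rw [ih (by omega)]
        simp only [ext, dif_pos (show j < m by omega)]
        exact hb' j
    funext i
    simp only [Φ, ha']
    rw [hq i i.2.le, hc', hτ, ← hk' i]
    congr 1
    ext j
    simp only [mem_ofPred_eq]
    refine and_congr_right fun hj => ?_
    rw [hq j hj.le, hk' i]
  choose c hc using key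
  have hinj : Function.Injective c := by
    intro τ τ' h
    have := (hc τ).symm.trans (h ▸ hc τ')
    ext i
    exact congrFun this i
  have := Fintype.card_le_of_injective c hinj
  simp only [Fintype.card_perm, Fintype.card_prod, Fintype.card_fin, Fintype.card_fun] at this
  rw [Nat.sub_zero, mul_assoc] at hm
  omega

/-- The negation of the preceding statement: There is a metric space X of bounded geometry (closed r-balls have uniformly bounded finite size) such that every bounded-geometry metric space Y admits a coarse embedding into X. -/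
theorem result :
    ¬ (∃ (X : Type) (_ : MetricSpace X),
    (∀ r : ℝ, 0 < r → ∃ N : ℕ, ∀ x : X, ∀ s : Finset X,
        (↑s : Set X) ⊆ Metric.closedBall x r → s.card ≤ N) ∧
    ∀ (Y : Type) [MetricSpace Y],
      (∀ r : ℝ, 0 < r → ∃ N : ℕ, ∀ y : Y, ∀ s : Finset Y,
          (↑s : Set Y) ⊆ Metric.closedBall y r → s.card ≤ N) →
      ∃ f : Y → X, ∃ ρm ρp : ℝ → ℝ,
        MonotoneOn ρm (Set.Ici 0) ∧ MonotoneOn ρp (Set.Ici 0) ∧
        (∀ t : ℝ, 0 ≤ t → 0 ≤ ρm t ∧ 0 ≤ ρp t) ∧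
        Filter.Tendsto ρm Filter.atTop Filter.atTop ∧
        ∀ y y' : Y, ρm (dist y y') ≤ dist (f y) (f y') ∧
          dist (f y) (f y') ≤ ρp (dist y y')) := by
  rintro ⟨X, _, hX, H⟩
  have hY : ∀ σ : ℕ → Equiv.Perm ℕ, ∀ r : ℝ, 0 < r → ∃ N : ℕ, ∀ y : Y σ, ∀ s : Finset (Y σ),
      (↑s : Set (Y σ)) ⊆ Metric.closedBall y r → s.card ≤ N := fun σ r _ =>
    ⟨7 ^ ⌈r⌉₊, fun y s hs => Y_ball σ _ y s
      (hs.trans (Metric.closedBall_subset_closedBall (Nat.le_ceil r)))⟩
  obtain ⟨f0, -⟩ := H (Y fun _ => 1) (hY _)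
  have : Nonempty X := ⟨f0 (0, 0)⟩
  have hc : Countable X := by
    rw [← Set.countable_univ_iff, ← Metric.iUnion_closedBall_nat (f0 (0, 0))]
    refine Set.countable_iUnion fun n => Set.Finite.countable ?_
    obtain ⟨N, hN⟩ := hX (n + 1) (by positivity)
    by_contra hinf
    obtain ⟨t, ht, hc⟩ := Set.Infinite.exists_subset_card_eq hinf (N + 1)
    have := hN (f0 (0, 0)) t (ht.trans (Metric.closedBall_subset_closedBall (by linarith)))
    omega
  obtain ⟨E, hE⟩ := exists_surjective_nat (X × ℕ × ℕ)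
  choose σ hσ using fun n => exists_bad hX (E n).1 n (E n).2.1 (E n).2.2
  obtain ⟨f, ρm, ρp, -, hp, h0, ht, hf⟩ := H (Y σ) (hY σ)
  obtain ⟨L, hL⟩ := eventually_atTop.1 (ht.eventually_gt_atTop 0)
  obtain ⟨n, hn⟩ := hE (f (0, 0), ⌈ρp 1⌉₊, 7 ^ ⌈L⌉₊)
  have hadj : ∀ v w : ℕ × ℕ, (G σ).Adj v w ∨ v = w → dist (f w) (f v) ≤ (⌈ρp 1⌉₊ : ℕ) := by
    intro v w h
    rcases h with h | rfl
    · have := (hf w v).2
      rw [Y_dist, SimpleGraph.dist_eq_one_iff_adj.2 h.symm, Nat.cast_one] at this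
      exact this.trans (Nat.le_ceil _)
    · simp
  refine hσ n (fun i => f (n, i)) ?_ ?_ ?_ ?_
  · rw [hn]
    clear hn
    induction n with
    | zero => simp
    | succ n ih =>
      have := dist_triangle (f (n + 1, 0)) (f (n, 0)) (f (0, 0))
      have h2 := hadj _ _ (Or.inl (G_adj2 σ n 0))
      push_cast at ih h2 ⊢
      linarith
  · intro i
    rw [hn]
    exact hadj _ _ (Or.inl (G_adj1 σ n i))
  · intro z t ht'
    rw [hn]
    rcases t.eq_empty_or_nonempty with rfl | ⟨a, ha⟩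
    · simp
    · let g : ℕ ↪ Y σ := ⟨fun i => (n, i), fun i j h => congrArg Prod.snd h⟩
      rw [← Finset.card_map g]
      refine Y_ball σ _ (n, a) _ fun w hw => ?_
      obtain ⟨b, hb, rfl⟩ := Finset.mem_map.1 hw
      rw [Metric.mem_closedBall]
      by_contra hlt
      have h1 := hL _ ((Nat.le_ceil L).trans (not_le.1 hlt).le)
      have h2 := (hf (g b) (n, a)).1
      have h3 : f (g b) = f (n, a) := (ht' hb).trans (ht' ha).symm
      rw [h3, dist_self] at h2
      linarith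
  · intro i
    rw [hn]
    refine hadj _ _ ?_
    by_cases h : i = σ n i
    · right; rw [← h]
    · left; simp [G, h]

end Pool.Agent.S12972
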