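import Pool.Statements.S13000

set_option autoImplicit false
open Pool Pool.MP_34ba9c_gt

namespace Pool.Agent.S13000

open Set Filter Topology

def X : Type := Option ℝ × Option ℕ

def pt (a : Option ℝ) (b : Option ℕ) : X := (a, b)

def Good (f : X → ℝ) : Prop :=
  (∀ r, Tendsto (fun k => f (pt (some r) (some k))) atTop (𝓝 (f (pt (some r) none)))) ∧
  (∀ k, Tendsto (fun r => f (pt (some r) (some k))) cofinite (𝓝 (f (pt none (some k))))) ∧
  Tendsto (fun k => f (pt none (some k))) atTop (𝓝 (f (pt none none)))

instance : TopologicalSpace X :=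
  ⨅ f : {f : X → ℝ // Good f}, TopologicalSpace.induced f.1 inferInstance

lemma cont {f : X → ℝ} (hf : Good f) : Continuous f :=
  continuous_iInf_dom (i := (⟨f, hf⟩ : {f : X → ℝ // Good f})) continuous_induced_dom

lemma tend {α : Type} {l : Filter α} {x : α → X} {p : X}
    (h : ∀ f, Good f → Tendsto (fun a => f (x a)) l (𝓝 (f p))) : Tendsto x l (𝓝 p) := by
  rw [nhds_iInf, tendsto_iInf]
  intro f
  rw [nhds_induced, tendsto_comap_iff]
  exact h f.1 f.2

open Classical in
lemma good_ind (W : Set X)
    (h1 : ∀ r, ∀ᶠ k in atTop, pt (some r) (some k) ∈ W ↔ pt (some r) none ∈ W)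
    (h2 : ∀ k, ∀ᶠ r in cofinite, pt (some r) (some k) ∈ W ↔ pt none (some k) ∈ W)
    (h3 : ∀ᶠ k in atTop, pt none (some k) ∈ W ↔ pt none none ∈ W) : IsClopen W := by
  have h : Good fun x => if x ∈ W then 1 else 0 :=
    ⟨fun r => tendsto_const_nhds.congr' ((h1 r).mono fun _ h => by simp only [h]),
      fun k => tendsto_const_nhds.congr' ((h2 k).mono fun _ h => by simp only [h]),
      tendsto_const_nhds.congr' (h3.mono fun _ h => by simp only [h])⟩
  constructor
  · convert isClosed_eq (cont h) (continuous_const (y := 1)) using 1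
    ext x
    simp
  · convert isOpen_ne_fun (cont h) (continuous_const (y := 0)) using 1
    ext x
    simp

instance : T35Space X := by
  have : CompletelyRegularSpace X :=
    completelyRegularSpace_iInf fun _ => completelyRegularSpace_induced inferInstance _
  have : T0Space X := by
    refine ⟨fun p q h => Prod.ext ?_ ?_⟩
    · have key : ∀ r, p.1 = some r ↔ q.1 = some r := fun r =>
        h.mem_open_iff (good_ind {x | x.1 = some r} (fun _ => .of_forall fun _ => Iff.rfl)
          (fun _ => (eventually_cofinite_ne r).mono fun _ h => by simp [pt, h])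
          (.of_forall fun _ => Iff.rfl)).2
      exact Option.ext key
    · have key : ∀ k, p.2 = some k ↔ q.2 = some k := fun k =>
        h.mem_open_iff (good_ind {x | x.2 = some k}
          (fun _ => (eventually_ne_atTop k).mono fun _ h => by simp [pt, h])
          (fun _ => .of_forall fun _ => Iff.rfl)
          ((eventually_ne_atTop k).mono fun _ h => by simp [pt, h])).2
      exact Option.ext key
  exact {}

lemma seq_cont {Y : Type} [TopologicalSpace Y] [CompletelyRegularSpace Y] {φ : X → Y}
    (h : ∀ (x : ℕ → X) (p : X), Tendsto x atTop (𝓝 p) → Tendsto (fun n => φ (x n)) atTop (𝓝 (φ p))) :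
    Continuous φ := by
  refine continuous_def.2 fun U hU => isOpen_iff_mem_nhds.2 fun p hp => ?_
  obtain ⟨ψ, hψ, h0, h1⟩ := CompletelyRegularSpace.completely_regular_isOpen (φ p) U hU hp
  have hψ' : Continuous fun y => (ψ y : ℝ) := continuous_subtype_val.comp hψ
  have hg : Good fun x => (ψ (φ x) : ℝ) := by
    refine ⟨fun r => (hψ'.tendsto _).comp (h _ _ (tend fun f hf => hf.1 r)), fun k N hN => ?_,
      (hψ'.tendsto _).comp (h _ _ (tend fun f hf => hf.2.2))⟩
    by_contra hinf
    let e := Set.Infinite.natEmbedding _ hinf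
    have he : Tendsto (fun n => (e n : ℝ)) atTop cofinite :=
      Nat.cofinite_eq_atTop ▸ (Subtype.val_injective.comp e.injective).tendsto_cofinite
    obtain ⟨n, hn⟩ := (((hψ'.tendsto _).comp (h (fun n => pt (some (e n)) (some k)) _
      (tend fun f hf => (hf.2.1 k).comp he))).eventually hN).exists
    exact (e n).2 hn
  refine mem_of_superset ((isOpen_ne_fun (cont hg) (continuous_const (y := 1))).mem_nhds
    (by simp [h0])) fun x hx => by_contra fun hx' => hx ?_
  simp [h1 hx']

lemma not_seq : ¬ SequentialSpace X := by
  intro h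
  have h1 : IsClosed (range fun r : ℝ => pt (some r) none) := by
    refine IsSeqClosed.isClosed fun x p hx hp => ?_
    choose s hs using hx
    have key : ∀ N : ℕ, ∃ j, p.1 = some (s j) ∧ ∀ k, p.2 = some k → j + N ≤ k := fun N => by
      refine (good_ind {x | ∃ j, x.1 = some (s j) ∧ ∀ k, x.2 = some k → j + N ≤ k}
        (fun r => ?_) (fun k => ?_) (.of_forall fun _ => by simp [pt])).1.mem_of_tendsto hp
        (.of_forall fun n => ⟨n, by rw [← hs n]; rfl, by rw [← hs n]; simp [pt]⟩)
      · by_cases h : ∃ j, r = s j
        · obtain ⟨j, rfl⟩ := h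
          filter_upwards [eventually_ge_atTop (j + N)] with k hk
          exact iff_of_true ⟨j, rfl, by simpa [pt] using hk⟩ ⟨j, rfl, by simp [pt]⟩
        · exact .of_forall fun k => iff_of_false (fun ⟨j, a, _⟩ => h ⟨j, Option.some.inj a⟩)
            fun ⟨j, a, _⟩ => h ⟨j, Option.some.inj a⟩
      · filter_upwards [((finite_Iic k).image s).compl_mem_cofinite] with r hr
        refine iff_of_false (fun ⟨j, a, b⟩ => hr ⟨j, ?_, (Option.some.inj a).symm⟩) (by simp [pt])
        exact (Nat.le_add_right j N).trans (b k rfl)
    obtain ⟨a, b⟩ := p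
    cases b with
    | none =>
      obtain ⟨j, hj, -⟩ := key 0
      exact ⟨s j, Prod.ext hj.symm rfl⟩
    | some k =>
      obtain ⟨j, -, hj⟩ := key (k + 1)
      have := hj k rfl
      omega
  have : (cocountable : Filter ℝ).NeBot :=
    ⟨fun h => not_countable_univ (α := ℝ) (by
      have : (∅ : Set ℝ) ∈ (cocountable : Filter ℝ) := h ▸ mem_bot
      simpa using mem_cocountable.1 this)⟩
  have h2 : Tendsto (fun r : ℝ => pt (some r) none) cocountable (𝓝 (pt none none)) := by
    refine tend fun f hf => tendsto_const_nhds.congr' (mem_cocountable.2 ?_)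
    refine (countable_iUnion fun k => countable_iUnion fun n : ℕ =>
      Finite.countable ((hf.2.1 k) (Metric.ball_mem_nhds _ (Nat.one_div_pos_of_nat (n := n))))).mono
      fun r hr => by_contra fun hr' => hr ?_
    simp only [mem_iUnion, not_exists, mem_compl_iff, not_not] at hr'
    refine tendsto_nhds_unique hf.2.2 ((hf.1 r).congr fun k => ?_)
    refine eq_of_forall_dist_le fun ε hε => ?_
    obtain ⟨n, hn⟩ := exists_nat_one_div_lt hε
    exact ((hr' k n).trans hn).le
  obtain ⟨r, hr⟩ := h1.mem_of_tendsto h2 (.of_forall mem_range_self)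
  exact Option.some_ne_none _ (congrArg Prod.fst hr)

lemma sgroup {G : Type} [Group G] (i : X → G) : GroupTopology.coinduced i =
    sInf {t : GroupTopology G | ∀ u ∈ {u : ℕ → G | Tendsto u atTop
      (@nhds _ (GroupTopology.coinduced i).toTopologicalSpace 1)},
      Tendsto u atTop (@nhds _ t.toTopologicalSpace 1)} := by
  refine le_antisymm (le_sInf fun t ht => sInf_le ?_) (sInf_le fun _ h => h)
  have key : ∀ (x : ℕ → X) (p : X), Tendsto x atTop (𝓝 p) →
      Tendsto (fun n => i (x n) * (i p)⁻¹) atTop (@nhds _ t.toTopologicalSpace 1) := by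
    intro x p hx
    refine ht _ ?_
    let _ := (GroupTopology.coinduced i).toTopologicalSpace
    have := (GroupTopology.coinduced i).toIsTopologicalGroup
    have h := (((GroupTopology.coinduced_continuous i).tendsto p).comp hx).mul_const (i p)⁻¹
    rwa [mul_inv_cancel] at h
  let _ := t.toTopologicalSpace
  have := t.toIsTopologicalGroup
  have : CompletelyRegularSpace G :=
    .of_exists_uniformSpace ⟨IsTopologicalGroup.rightUniformSpace G, rfl⟩
  refine continuous_iff_coinduced_le.1 (seq_cont fun x p hx => ?_)
  simpa using (key x p hx).mul_const (i p)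

/-- The negation of the preceding statement: For every Tychonoff space X with base point x₀, if the Graev free topological group F(X) is an s-group (its topology is the finest group topology making some set of its null sequences converge to 1), then X is sequential. -/
theorem result :
    ¬ (∀ (X : Type) [TopologicalSpace X] [T35Space X] (x₀ : X)
    (τ : TopologicalSpace
      (FreeGroup X ⧸ Subgroup.normalClosure ({FreeGroup.of x₀} : Set (FreeGroup X)))),
    τ = (GroupTopology.coinduced
          (fun x : X => (QuotientGroup.mk (FreeGroup.of x) :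
            FreeGroup X ⧸ Subgroup.normalClosure ({FreeGroup.of x₀} : Set (FreeGroup X))))).toTopologicalSpace →
    (∃ S : Set (ℕ → FreeGroup X ⧸ Subgroup.normalClosure ({FreeGroup.of x₀} : Set (FreeGroup X))),
      (∀ u ∈ S, Filter.Tendsto u Filter.atTop (@nhds _ τ 1)) ∧
      τ = (sInf {t : GroupTopology
              (FreeGroup X ⧸ Subgroup.normalClosure ({FreeGroup.of x₀} : Set (FreeGroup X))) |
              ∀ u ∈ S, Filter.Tendsto u Filter.atTop (@nhds _ t.toTopologicalSpace 1)}).toTopologicalSpace) →
    SequentialSpace X) := by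
  intro H
  exact not_seq (H X (pt none none) _ rfl ⟨_, fun _ h => h,
    congrArg GroupTopology.toTopologicalSpace (sgroup _)⟩)

end Pool.Agent.S13000
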