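import Pool.Statements.S13003
import Pool.Agent.H30.GulB

set_option autoImplicit false
open Pool Pool.MP_353077_gt

namespace Pool.Agent.S13003

/-- For every compact Hausdorff X, if each subset A of X equals f⁻¹(f(A)) for some continuous f onto a Gul'ko compactum (C_p is Lindelöf Σ), then the same holds for every subset of X×X. -/
theorem result :
  ∀ (X : Type) [TopologicalSpace X] [CompactSpace X] [T2Space X],
    (∀ A : Set X, ∃ (Y : Type) (_ : TopologicalSpace Y), CompactSpace Y ∧ T2Space Y ∧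
      (∃ N : ℕ → Set {g : Y → ℝ // Continuous g},
        ∀ g : {g : Y → ℝ // Continuous g}, ∃ C : Set {g : Y → ℝ // Continuous g},
          IsCompact C ∧ g ∈ C ∧
          ∀ U : Set {g : Y → ℝ // Continuous g}, IsOpen U → C ⊆ U →
            ∃ n : ℕ, C ⊆ N n ∧ N n ⊆ U) ∧
      ∃ f : X → Y, Continuous f ∧ f ⁻¹' (f '' A) = A) →
    (∀ A : Set (X × X), ∃ (Y : Type) (_ : TopologicalSpace Y), CompactSpace Y ∧ T2Space Y ∧
      (∃ N : ℕ → Set {g : Y → ℝ // Continuous g},
        ∀ g : {g : Y → ℝ // Continuous g}, ∃ C : Set {g : Y → ℝ // Continuous g},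
          IsCompact C ∧ g ∈ C ∧
          ∀ U : Set {g : Y → ℝ // Continuous g}, IsOpen U → C ⊆ U →
            ∃ n : ℕ, C ⊆ N n ∧ N n ⊆ U) ∧
      ∃ f : X × X → Y, Continuous f ∧ f ⁻¹' (f '' A) = A) := by
  intro X _ _ _ h A
  have h1 : Pool.Agent.H30.Gul.QQ X := Pool.Agent.H30.Gul.qq_of_split fun A => by
    obtain ⟨Y, tY, _, _, h2, h4⟩ := h A
    exact ⟨Y, tY, Pool.Agent.H30.Gul.qq_of_nw h2, h4⟩
  exact ⟨X × X, inferInstance, inferInstance, inferInstance, h1.sq.nw, id, continuous_id, by simp⟩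

end Pool.Agent.S13003
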