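import Pool.Statements.S13032
import Pool.Agent.H30.LTc

set_option autoImplicit false
open Pool Pool.MP_3a0f08_gt

namespace Pool.Agent.S13032

/-- The negation of the preceding statement: Every compact Hausdorff group whose left translations are continuous carries a Borel probability measure giving positive measure to every nonempty open set. -/
theorem result :
    ¬ (∀ (G : Type) [Group G] [TopologicalSpace G] [CompactSpace G] [T2Space G]
      [MeasurableSpace G] [BorelSpace G],
      (∀ g : G, Continuous (fun x : G => g * x)) →
      ∃ μ : MeasureTheory.Measure G, MeasureTheory.IsProbabilityMeasure μ ∧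
        ∀ U : Set G, IsOpen U → U.Nonempty → 0 < μ U) := by
  intro h
  obtain ⟨S, a, o, hb⟩ := H30.LT.main
  let e := Equiv.ofBijective _ hb
  letI : TopologicalSpace (FreeGroup S) := TopologicalSpace.induced e inferInstance
  let f : FreeGroup S ≃ₜ H30.LT.X := e.toHomeomorphOfIsInducing ⟨rfl⟩
  haveI := f.symm.compactSpace
  haveI := f.symm.t2Space
  letI : MeasurableSpace (FreeGroup S) := borel _
  haveI : BorelSpace (FreeGroup S) := ⟨rfl⟩
  obtain ⟨μ, _, hμ⟩ := h (FreeGroup S) fun g => f.isInducing.continuous_iff.2 (by
    convert (FreeGroup.lift a g).continuous.comp f.continuous using 1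
    funext x
    exact DFunLike.congr_fun (map_mul (FreeGroup.lift a) g x) o)
  have op : ∀ t, IsOpen ((fun g => (f g).1 0) ⁻¹' {H30.LT.iso t}) := fun t =>
    (H30.LT.iso_clopen t).2.preimage (by fun_prop)
  have c := MeasureTheory.Measure.countable_meas_pos_of_disjoint_iUnion (μ := μ)
    (fun t => (op t).measurableSet) fun s t hst => Set.disjoint_left.2 fun g h1 h2 =>
      hst (congrArg (·.1.1) (h1.symm.trans h2))
  haveI : Uncountable H30.LT.H := by
    rw [← Cardinal.aleph0_lt_mk_iff]; simp [Cardinal.aleph0_lt_continuum]
  exact Set.not_countable_univ (c.mono fun t _ =>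
    hμ _ (op t) ⟨f.symm (fun _ => H30.LT.iso t, 1), by simp⟩)

end Pool.Agent.S13032
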