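import Pool.Statements.S13065
import Pool.Agent.H2.Orb3

set_option autoImplicit false
open Pool Pool.MP_3f3325_gt

namespace Pool.Agent.S13065

/-- For some d from 1 to 4 there are finite subgroups of O(d+1), not conjugate in O(d+1), whose invariant harmonic homogeneous polynomials of each degree k have equal dimension, i.e. isospectral non-isometric spherical orbifolds S^d/Γ. -/
theorem result :
  ∃ d : ℕ, 1 ≤ d ∧ d ≤ 4 ∧
  ∃ Γ Γ' : Subgroup (Matrix.orthogonalGroup (Fin (d+1)) ℝ),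
    Finite Γ ∧ Finite Γ' ∧
    (¬ ∃ h : Matrix.orthogonalGroup (Fin (d+1)) ℝ, ∀ g, g ∈ Γ ↔ h * g * h⁻¹ ∈ Γ') ∧
    ∀ k : ℕ,
      Module.finrank ℝ ↥(MvPolynomial.homogeneousSubmodule (Fin (d+1)) ℝ k ⊓
          LinearMap.ker (∑ i : Fin (d+1),
            (MvPolynomial.pderiv i).toLinearMap ∘ₗ (MvPolynomial.pderiv i).toLinearMap) ⊓
          ⨅ g ∈ Γ, LinearMap.ker ((MvPolynomial.aeval (fun i : Fin (d+1) =>
            ∑ j : Fin (d+1), MvPolynomial.C (g.1 i j) * MvPolynomial.X j)).toLinearMap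
              - LinearMap.id))
      =
      Module.finrank ℝ ↥(MvPolynomial.homogeneousSubmodule (Fin (d+1)) ℝ k ⊓
          LinearMap.ker (∑ i : Fin (d+1),
            (MvPolynomial.pderiv i).toLinearMap ∘ₗ (MvPolynomial.pderiv i).toLinearMap) ⊓
          ⨅ g ∈ Γ', LinearMap.ker ((MvPolynomial.aeval (fun i : Fin (d+1) =>
            ∑ j : Fin (d+1), MvPolynomial.C (g.1 i j) * MvPolynomial.X j)).toLinearMap
              - LinearMap.id)) := by
  refine ⟨3, by norm_num, by norm_num, Pool.Agent.H2.Orb.grp _ Pool.Agent.H2.Orb.gA,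
    Pool.Agent.H2.Orb.grp _ Pool.Agent.H2.Orb.gB, Pool.Agent.H2.Orb.grp_finite _ _,
    Pool.Agent.H2.Orb.grp_finite _ _, Pool.Agent.H2.Orb.not_conj, fun k => ?_⟩
  exact Pool.Agent.H2.Orb.final k

end Pool.Agent.S13065
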