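import Pool.Statements.S13094

set_option autoImplicit false
open Pool Pool.MP_440a64_gt

namespace Pool.Agent.S13094

/-- Codes for functions; every code is also a point of the space. -/
inductive T : Type
  | leaf : T
  | node : (ℕ → T) → (ℕ → ℝ) → ℝ → (ℝ → ℝ) → ℕ → T

/-- The space: a discrete real line, a discrete set of codes and one limit point whose
neighbourhoods contain all but countably many codes. -/
inductive X : Type
  | inf : X
  | pt : T → X
  | re : ℝ → X

instance : TopologicalSpace X where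
  IsOpen U := X.inf ∈ U → {t | X.pt t ∉ U}.Countable
  isOpen_univ := fun _ => by simp
  isOpen_inter := fun U V hU hV h => ((hU h.1).union (hV h.2)).mono fun t ht => by
    by_contra hn
    simp only [Set.mem_union, Set.mem_ofPred_eq, not_or, not_not] at hn
    exact ht hn
  isOpen_sUnion := fun S hS ⟨U, hU, h⟩ => (hS U hU h).mono fun t ht h' => ht ⟨U, hU, h'⟩

theorem op_iff {U : Set X} : IsOpen U ↔ (X.inf ∈ U → {t | X.pt t ∉ U}.Countable) := Iff.rfl

theorem cont_iff {Y : Type} [TopologicalSpace Y] {f : X → Y}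
    (h : {t | f (X.pt t) ≠ f X.inf}.Countable) : Continuous f :=
  ⟨fun V _ hV => h.mono fun t ht (h' : f (X.pt t) = f X.inf) =>
    ht (by rw [Set.mem_preimage, h']; exact hV)⟩

theorem supp_count {f : X → ℝ} (hf : Continuous f) : {t | f (X.pt t) ≠ f X.inf}.Countable := by
  refine (Set.countable_iUnion fun n : ℕ => op_iff.1
    ((Metric.isOpen_ball (x := f X.inf) (ε := 1 / ((n : ℝ) + 1))).preimage hf)
    (Metric.mem_ball_self Nat.one_div_pos_of_nat)).mono fun t ht => ?_
  obtain ⟨n, hn⟩ := exists_nat_one_div_lt (dist_pos.2 ht)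
  exact Set.mem_iUnion.2 ⟨n, fun h => lt_asymm hn h⟩

theorem clopen_nhd {U : Set X} (hU : IsOpen U) {x : X} (hx : x ∈ U) :
    ∃ V, IsClopen V ∧ x ∈ V ∧ V ⊆ U := by
  by_cases h : x = X.inf
  · subst h
    exact ⟨U, ⟨⟨fun h' => absurd hx h'⟩, hU⟩, hx, subset_rfl⟩
  · refine ⟨{x}, ⟨⟨fun _ => ?_⟩, fun h' => absurd h'.symm h⟩, rfl, Set.singleton_subset_iff.2 hx⟩
    refine Set.Subsingleton.countable fun a ha b hb => ?_
    simp only [Set.mem_ofPred_eq, Set.mem_compl_iff, not_not, Set.mem_singleton_iff] at ha hb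
    exact X.pt.inj (ha.trans hb.symm)

instance : T0Space X := by
  refine (t0Space_iff_exists_isOpen_xor_mem X).2 fun x y hxy => ?_
  by_cases h : x = X.inf
  · exact ⟨{y}, fun h' => absurd (h.trans h') hxy, Or.inr ⟨rfl, hxy⟩⟩
  · exact ⟨{x}, fun h' => absurd h'.symm h, Or.inl ⟨rfl, fun h' => hxy h'.symm⟩⟩

instance : CompletelyRegularSpace X := by
  classical
  refine ⟨fun x K hK hx => ?_⟩
  obtain ⟨V, v1, v2, v3⟩ := clopen_nhd hK.isOpen_compl hx
  refine ⟨fun z => if z ∈ V then 0 else 1, ?_, by simp [v2], fun z hz => ?_⟩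
  · exact continuous_if (fun a ha => by rw [show {z | z ∈ V} = V from rfl, v1.frontier_eq] at ha; exact ha.elim)
      continuousOn_const continuousOn_const
  · have : z ∉ V := fun h => v3 h hz
    simp [this]

instance : T35Space X where

open Classical in
/-- The function coded by a code. -/
noncomputable def dec : T → X → ℝ
  | .leaf, _ => 0
  | .node _ _ r _ _, .inf => r
  | .node s v r _ _, .pt t => if h : ∃ n, s n = t then v h.choose else r
  | .node _ _ _ w _, .re y => w y

def lev : T → ℕ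
  | .leaf => 0
  | .node _ _ _ _ n => n

theorem dec_supp (c : T) : {t | dec c (X.pt t) ≠ dec c X.inf}.Countable := by
  cases c with
  | leaf => simp [dec]
  | node s v r w n =>
    refine (Set.countable_range s).mono fun t ht => ?_
    by_contra hn
    exact ht (by simp only [dec]; exact dif_neg hn)

theorem dec_surj {f : X → ℝ} (hf : Continuous f) (n : ℕ) : ∃ c, dec c = f ∧ lev c = n := by
  obtain ⟨s, hs⟩ := ((supp_count hf).insert T.leaf).exists_eq_range (Set.insert_nonempty _ _)
  refine ⟨T.node s (fun k => f (X.pt (s k))) (f X.inf) (fun y => f (X.re y)) n, ?_, rfl⟩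
  funext x
  cases x with
  | inf => rfl
  | re y => rfl
  | pt t =>
    simp only [dec]
    split_ifs with h
    · rw [h.choose_spec]
    · by_contra hn
      exact h (hs ▸ Set.mem_insert_of_mem _ (fun h' => hn h'.symm) : t ∈ Set.range s)

open Classical in
/-- The coded function, moved slightly at the point given by the code itself. -/
noncomputable def g (c : T) : C(X, ℝ) :=
  ⟨Function.update (dec c) (X.pt c) (if dec c (X.pt c) = dec c X.inf then
      dec c (X.pt c) + 1 / ((lev c : ℝ) + 1) else dec c (X.pt c)),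
    cont_iff (((dec_supp c).insert c).mono fun t ht => by
      by_contra hn
      simp only [Set.mem_insert_iff, Set.mem_ofPred_eq, not_or, not_not] at hn
      refine ht ?_
      rw [Function.update_of_ne (fun h => hn.1 (X.pt.inj h)), Function.update_of_ne (by simp)]
      exact hn.2)⟩

theorem g_ne (c : T) : g c (X.pt c) ≠ g c X.inf := by
  classical
  simp only [g, ContinuousMap.coe_mk, Function.update_self]
  rw [Function.update_of_ne (by simp)]
  split_ifs with h
  · rw [h]
    have : (0 : ℝ) < 1 / ((lev c : ℝ) + 1) := Nat.one_div_pos_of_nat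
    linarith
  · exact h

theorem g_near (c : T) (x : X) : |dec c x - g c x| ≤ 1 / ((lev c : ℝ) + 1) := by
  classical
  have : (0 : ℝ) < 1 / ((lev c : ℝ) + 1) := Nat.one_div_pos_of_nat
  simp only [g, ContinuousMap.coe_mk]
  by_cases hx : x = X.pt c
  · subst hx
    rw [Function.update_self]
    split_ifs with h
    · rw [abs_le]; constructor <;> linarith
    · simpa using this.le
  · rw [Function.update_of_ne hx]
    simpa using this.le

open Classical in
/-- Indicator functions of subsets of the discrete line. -/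
noncomputable def ind (S : Set ℝ) : C(X, ℝ) :=
  ⟨fun x => match x with
    | .re y => if y ∈ S then 1 else 0
    | _ => 0, cont_iff (by simp)⟩

/-- The negation of the preceding statement: For every Tychonoff X: if C_p(X) has a uniformly dense subspace that is monotonically ω-monolithic (countable monotone σ-continuous external networks on closures of countable sets), then C_p(X) itself is monotonically ω-monolithic. -/
theorem result :
    ¬ (∀ (X : Type) [TopologicalSpace X] [T35Space X] (D : Set C(X, ℝ)),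
      (∀ f : C(X, ℝ), ∀ ε : ℝ, 0 < ε → ∃ g ∈ D, ∀ x : X, |f x - g x| < ε) →
      (∃ N : Set C(X, ℝ) → Set (Set C(X, ℝ)),
        (∀ A : Set C(X, ℝ), A ⊆ D → A.Countable →
          (N A).Countable ∧ (∀ n ∈ N A, n ⊆ D) ∧
          ∀ y ∈ D,
            y ∈ @closure _ (TopologicalSpace.induced (fun f : C(X, ℝ) => (⇑f : X → ℝ)) inferInstance) A →
            ∀ U : Set C(X, ℝ),
              @IsOpen _ (TopologicalSpace.induced (fun f : C(X, ℝ) => (⇑f : X → ℝ)) inferInstance) U →
              y ∈ U → ∃ n ∈ N A, y ∈ n ∧ n ⊆ U) ∧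
        (∀ A B : Set C(X, ℝ), A ⊆ B → B ⊆ D → B.Countable → N A ⊆ N B) ∧
        (∀ A : ℕ → Set C(X, ℝ), Monotone A → (∀ k, A k ⊆ D ∧ (A k).Countable) →
          N (⋃ k, A k) = ⋃ k, N (A k))) →
      (∃ N : Set C(X, ℝ) → Set (Set C(X, ℝ)),
        (∀ A : Set C(X, ℝ), A.Countable →
          (N A).Countable ∧
          ∀ y : C(X, ℝ),
            y ∈ @closure _ (TopologicalSpace.induced (fun f : C(X, ℝ) => (⇑f : X → ℝ)) inferInstance) A →
            ∀ U : Set C(X, ℝ),
              @IsOpen _ (TopologicalSpace.induced (fun f : C(X, ℝ) => (⇑f : X → ℝ)) inferInstance) U →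
              y ∈ U → ∃ n ∈ N A, y ∈ n ∧ n ⊆ U) ∧
        (∀ A B : Set C(X, ℝ), A ⊆ B → B.Countable → N A ⊆ N B) ∧
        (∀ A : ℕ → Set C(X, ℝ), Monotone A → (∀ k, (A k).Countable) →
          N (⋃ k, A k) = ⋃ k, N (A k)))) := by
  classical
  intro H
  have mem_cl : ∀ (A : Set C(X, ℝ)) (y : C(X, ℝ)), y ∈ @closure _
      (TopologicalSpace.induced (fun f : C(X, ℝ) => (⇑f : X → ℝ)) inferInstance) A ↔
      (⇑y : X → ℝ) ∈ closure ((fun f : C(X, ℝ) => (⇑f : X → ℝ)) '' A) := fun A y =>
    closure_induced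
  obtain ⟨N, hN, -, -⟩ := H X (Set.range g) (fun f ε hε => by
      obtain ⟨n, hn⟩ := exists_nat_one_div_lt hε
      obtain ⟨c, c1, c2⟩ := dec_surj f.continuous n
      refine ⟨g c, ⟨c, rfl⟩, fun x => lt_of_le_of_lt ?_ hn⟩
      have := g_near c x
      rwa [c1, c2] at this)
    ⟨fun A => (fun c => {g c}) '' {c | ∃ a ∈ A, a (X.pt c) ≠ a X.inf}, fun A _ hA => ⟨by
      refine Set.Countable.image ?_ _
      refine (hA.biUnion fun a _ => supp_count a.continuous).mono ?_
      rintro c ⟨a, ha, h⟩
      exact Set.mem_biUnion ha h, by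
      rintro _ ⟨c, -, rfl⟩ _ rfl
      exact ⟨c, rfl⟩, by
      rintro _ ⟨c, rfl⟩ hc U _ hU
      refine ⟨_, ⟨c, ?_, rfl⟩, rfl, Set.singleton_subset_iff.2 hU⟩
      by_contra hn
      have hcl : IsClosed {u : X → ℝ | u (X.pt c) = u X.inf} :=
        isClosed_eq (continuous_apply _) (continuous_apply _)
      refine g_ne c (hcl.closure_subset_iff.2 ?_ ((mem_cl _ _).1 hc))
      rintro _ ⟨a, ha, rfl⟩
      by_contra h
      exact hn ⟨a, ha, h⟩⟩,
    fun A B hAB _ _ => Set.image_mono fun c ⟨a, ha, h⟩ => ⟨a, hAB ha, h⟩,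
    fun A _ _ => by
      ext Z
      simp only [Set.mem_iUnion, Set.mem_image, Set.mem_ofPred_eq]
      exact ⟨fun ⟨c, ⟨a, ⟨k, ha⟩, h⟩, e⟩ => ⟨k, c, ⟨a, ha, h⟩, e⟩,
        fun ⟨k, c, ⟨a, ha, h⟩, e⟩ => ⟨c, ⟨a, ⟨k, ha⟩, h⟩, e⟩⟩⟩
  obtain ⟨n1, n2⟩ := hN (Set.range fun p : ℚ × ℚ => ind (Set.Ioo p.1 p.2)) (Set.countable_range _)
  have key : ∀ y : ℝ, ∃ n ∈ N (Set.range fun p : ℚ × ℚ => ind (Set.Ioo p.1 p.2)),
      ind {y} ∈ n ∧ n ⊆ {f | 0 < f (X.re y)} := by
    intro y
    refine n2 (ind {y}) ((mem_cl _ _).2 ?_) _ ?_ (by simp [ind])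
    · rw [mem_closure_iff]
      intro V hV hy
      obtain ⟨J, w, c1, c2⟩ := isOpen_pi_iff.1 hV _ hy
      have h1 : {z | X.re z ∈ J ∧ z ≠ y}.Finite :=
        (J.finite_toSet.preimage fun _ _ _ _ h => X.re.inj h).subset fun z hz => hz.1
      obtain ⟨a, b, ab, hab⟩ := mem_nhds_iff_exists_Ioo_subset.1
        (h1.isClosed.isOpen_compl.mem_nhds (show y ∉ _ from fun h => h.2 rfl))
      obtain ⟨p, p1, p2⟩ := exists_rat_btwn ab.1
      obtain ⟨q, q1, q2⟩ := exists_rat_btwn ab.2
      refine ⟨_, c2 fun x hx => ?_, _, ⟨(p, q), rfl⟩, rfl⟩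
      have : ind (Set.Ioo p q) x = ind {y} x := by
        cases x with
        | inf => rfl
        | pt t => rfl
        | re z =>
          by_cases hz : z = y
          · subst hz
            simp [ind, p2, q1]
          · have : z ∉ Set.Ioo (p : ℝ) q := fun h =>
              hab ⟨p1.trans h.1, h.2.trans q2⟩ ⟨hx, hz⟩
            simp only [ind, ContinuousMap.coe_mk, Set.mem_singleton_iff]
            rw [if_neg this, if_neg hz]
      show ind (Set.Ioo p q) x ∈ w x
      rw [this]
      exact (c1 x hx).2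
    · exact ⟨{f | 0 < f (X.re y)}, isOpen_lt continuous_const (continuous_apply _), rfl⟩
  choose n a1 a2 a3 using key
  have hi : Function.Injective n := fun y z h => by
    have := a3 y (h ▸ a2 z)
    by_contra hn
    simp [ind, hn] at this
  exact Set.not_countable_univ ((n1.preimage hi).mono fun y _ => a1 y)

end Pool.Agent.S13094
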