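import Pool.Statements.S13106
import Pool.Agent.H1.LpB

set_option autoImplicit false
open MeasureTheory
open scoped Pointwise
open Pool Pool.MP_46ea74_gt

namespace Pool.Agent.S13106

/-- The negation of the preceding statement: For n at least 2, p in [0,1], convex bodies K, L in R^n containing 0: with S_p(A) the boundary integral of h_A(normal)^(1-p) against (n-1)-Hausdorff measure, S_p(K+L)^(1/(n-p)) is at least S_p(K)^(1/(n-p)) plus S_p(L)^(1/(n-p)). -/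
theorem result :
    ¬ (∀ n : ℕ, 2 ≤ n → ∀ p : ℝ, 0 ≤ p → p ≤ 1 →
  ∀ K L : Set (EuclideanSpace ℝ (Fin n)),
    Convex ℝ K → IsCompact K → (interior K).Nonempty → (0 : EuclideanSpace ℝ (Fin n)) ∈ K →
    Convex ℝ L → IsCompact L → (interior L).Nonempty → (0 : EuclideanSpace ℝ (Fin n)) ∈ L →
    ∀ Sp : Set (EuclideanSpace ℝ (Fin n)) → ℝ,
      (∀ A : Set (EuclideanSpace ℝ (Fin n)), Sp A =
        ∫ x in frontier A,
          (sSup {t : ℝ | ∃ u : EuclideanSpace ℝ (Fin n), ‖u‖ = 1 ∧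
            (∀ y ∈ A, @inner ℝ _ _ y u ≤ @inner ℝ _ _ x u) ∧ t = @inner ℝ _ _ x u}) ^ (1 - p)
          ∂(μH[(n : ℝ) - 1])) →
      Sp K ^ (1 / ((n : ℝ) - p)) + Sp L ^ (1 / ((n : ℝ) - p))
        ≤ Sp (K + L) ^ (1 / ((n : ℝ) - p))) := by
  intro H
  open Pool.Agent.H1.Lp in
  have := H 2 le_rfl (1 / 2) (by norm_num) (by norm_num) (poly νK hK) (poly νL hL)
    (poly_convex _ _) cK (let ⟨R, hR⟩ := gK.c; ⟨R, mem_int hR⟩) (by norm_num [mK])
    (poly_convex _ _) cL (let ⟨R, hR⟩ := gL.c; ⟨R, mem_int hR⟩) (by norm_num [mL]) Sp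
    (fun A => by
      rw [show ((2 : ℕ) : ℝ) - 1 = 1 by norm_num, show (1 : ℝ) - 1 / 2 = 1 / 2 by norm_num]
      rfl)
  rw [show 1 / (((2 : ℕ) : ℝ) - 1 / 2) = 2 / 3 by norm_num] at this
  exact Pool.Agent.H1.Lp.main this

end Pool.Agent.S13106
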