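import Pool.Statements.S13161
import Pool.Agent.H30.PsB

set_option autoImplicit false
open Pool Pool.MP_51c861_gt

namespace Pool.Agent.S13161

/-- Let X be a pseudocompact Tychonoff space such that every subset A is exactly the full preimage of its image under some continuous map into a compact subset of c0(Γ) with the pointwise topology. Then X is compact and embeds in such a c0(Γ), i.e. X is Eberlein compact. -/
theorem result :
    ∀ (X : Type) [TopologicalSpace X] [T35Space X],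
      (∀ f : X → ℝ, Continuous f → ∃ M : ℝ, ∀ x, |f x| ≤ M) →
      (∀ A : Set X, ∃ (Γ : Type) (K : Set (Γ → ℝ)) (f : X → (Γ → ℝ)),
          IsCompact K ∧
          (∀ y ∈ K, ∀ ε : ℝ, 0 < ε → Set.Finite {γ : Γ | ε ≤ |y γ|}) ∧
          Continuous f ∧ (∀ x, f x ∈ K) ∧ f ⁻¹' (f '' A) = A) →
      CompactSpace X ∧
        ∃ (Γ : Type) (e : X → (Γ → ℝ)), Topology.IsEmbedding e ∧
          ∀ x, ∀ ε : ℝ, 0 < ε → Set.Finite {γ : Γ | ε ≤ |e x γ|} := by
  intro X _ _ h1 h2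
  have h3 : CompactSpace X := Pool.Agent.H30.Spl.compact_of_se (Pool.Agent.H30.Spl.fc_of_pseudo h1)
    fun A => by
      obtain ⟨Γ, K, f, h4, h5, h6, h7, h8⟩ := h2 A
      exact ⟨Γ, K, f, ⟨h4, h5⟩, h6, h7, fun x y hxy => Pool.Agent.H30.Spl.iff_of_split h8 hxy⟩
  obtain ⟨Γ, e, he, -, h4⟩ := Pool.Agent.H30.Spl.eb_of_split (X := X) fun A => by
    obtain ⟨Γ, K, f, -, h5, h6, h7, h8⟩ := h2 A
    exact ⟨Γ, f, h6, fun x ε hε => (h5 _ (h7 x) ε hε).subset fun γ hγ =>
      Set.mem_setOf.2 (le_of_lt (Set.mem_setOf.1 hγ)),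
      fun x y hxy => Pool.Agent.H30.Spl.iff_of_split h8 hxy⟩
  exact ⟨h3, Γ, e, he, fun x ε hε => (h4 x _ (half_pos hε)).subset fun γ hγ =>
    Set.mem_setOf.2 (lt_of_lt_of_le (half_lt_self hε) (Set.mem_setOf.1 hγ))⟩

end Pool.Agent.S13161
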