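import Pool.Statements.S13188
import Pool.Agent.Lead.Ak1

set_option autoImplicit false
open Pool Pool.MP_55e428_gt

namespace Pool.Agent.S13188

/-- The negation of the preceding statement: For every compact subset K of ℝ^Γ lying in c₀(Γ) (i.e. every Eberlein compact), every continuous surjection from C_p(K) (pointwise topology) onto a σ-compact Tychonoff space Y has Y with a countable network. -/
theorem result :
    ¬ (∀ (Γ : Type) (K : Set (Γ → ℝ)), IsCompact K →
      (∀ x ∈ K, ∀ ε : ℝ, 0 < ε → {γ : Γ | ε < |x γ|}.Finite) →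
      ∀ (Y : Type) [TopologicalSpace Y] [T35Space Y] [SigmaCompactSpace Y]
        (φ : {f : K → ℝ // Continuous f} → Y), Continuous φ → Function.Surjective φ →
        ∃ N : Set (Set Y), N.Countable ∧
          ∀ U : Set Y, IsOpen U → ∀ y ∈ U, ∃ A ∈ N, y ∈ A ∧ A ⊆ U) := by
  intro H
  open Pool.Agent.Lead.Ak in
  obtain ⟨φ, h1, h2⟩ := s13188
  open Pool.Agent.Lead.Ak in
  have := isSigmaCompact_iff_sigmaCompactSpace.1 (Fin0_sigma DR)
  open Pool.Agent.Lead.Ak in
  refine Fin0_not_cosmic (H DR _ (isCompact_range sg_cont) ?_ _ φ h1 h2)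
  rintro _ ⟨p, rfl⟩ ε hε
  refine Set.Subsingleton.finite fun a ha b hb => ?_
  have h : ∀ a, ε < |Pool.Agent.Lead.Ak.sg p a| → p = ↑a := fun a ha => by
    by_contra hn
    simp only [Pool.Agent.Lead.Ak.sg, if_neg hn, abs_zero] at ha
    linarith
  exact OnePoint.coe_injective ((h a ha).symm.trans (h b hb))

end Pool.Agent.S13188
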