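import Pool.Statements.S13210
import Pool.Agent.H30.Box

set_option autoImplicit false
open MeasureTheory
open scoped Pointwise
open Pool Pool.MP_598757_gt

namespace Pool.Agent.S13210

open Pool.Agent.H30.Box Set Filter Metric in
theorem result :
    ¬ (∀ (K : Set (EuclideanSpace ℝ (Fin 3))) (c : ℝ),
    IsCompact K → Convex ℝ K → (interior K).Nonempty →
    (∀ u ∈ Metric.sphere (0 : EuclideanSpace ℝ (Fin 3)) 1, ∀ L : ℝ,
      Filter.Tendsto (fun t : ℝ =>
        ((volume ((fun x : EuclideanSpace ℝ (Fin 3) => x - (inner ℝ u x) • u) '' K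
              + Metric.closedBall (0 : EuclideanSpace ℝ (Fin 3)) t)).toReal
          - 2 * t * ((volume (K + segment ℝ (0 : EuclideanSpace ℝ (Fin 3)) u)).toReal
              - (volume K).toReal)) / (Real.pi * t ^ 2))
        (nhdsWithin 0 (Set.Ioi 0)) (nhds L) →
      c ≤ Real.pi * ((volume (K + segment ℝ (0 : EuclideanSpace ℝ (Fin 3)) u)).toReal
              - (volume K).toReal) / L ^ 2) →
    ∀ S : ℝ,
      Filter.Tendsto (fun t : ℝ =>
        ((volume (K + Metric.closedBall (0 : EuclideanSpace ℝ (Fin 3)) t)).toReal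
          - (volume K).toReal) / (2 * t))
        (nhdsWithin 0 (Set.Ioi 0)) (nhds S) →
      c ≤ 9 * Real.pi * (volume K).toReal ^ 2 / (2 * S ^ 3)) := by
  intro H
  let e : OB := EuclideanSpace.basisFun (Fin 3) ℝ
  let B : ℝ → ℝ → ℝ → Set E := fun x y z => Bx e ![-x, -y, -z] ![x, y, z]
  have mem : ∀ x y z p, p ∈ B x y z ↔ |p 0| ≤ x ∧ |p 1| ≤ y ∧ |p 2| ≤ z := fun x y z p => by
    simp [B, Bx, e, Fin.forall_fin_succ, abs_le, EuclideanSpace.inner_single_left]
  have vol : ∀ x y z, 0 ≤ x → 0 ≤ y → 0 ≤ z → volume.real (B x y z) = 8 * x * y * z := fun x y z _ _ _ => by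
    rw [Bx_real _ (fun i => by fin_cases i <;> simp [*])]; simp; ring
  have h3 : ∀ p ∈ B 1 1 (1 / 1000), ‖p‖ ≤ 2 := fun p hp => by
    obtain ⟨a, b, c⟩ := (mem _ _ _ p).1 hp
    rw [EuclideanSpace.norm_eq, Real.sqrt_le_left zero_le_two, Fin.sum_univ_three]
    simp only [Real.norm_eq_abs]
    nlinarith [abs_nonneg (p 0), abs_nonneg (p 1), abs_nonneg (p 2)]
  have h1 : IsCompact (B 1 1 (1 / 1000)) := (isCompact_closedBall 0 2).of_isClosed_subset (Bx_closed _ _ _)
    fun p hp => mem_closedBall_zero_iff.2 (h3 p hp)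
  have h2 : Convex ℝ (B 1 1 (1 / 1000)) := fun p hp q hq s t hs ht hst i => by
    simpa only [inner_add_right, inner_smul_right, smul_eq_mul] using convex_Icc _ _ (hp i) (hq i) hs ht hst
  have cd : ∀ (p : E) i, |p i| ≤ ‖p‖ := fun p i => PiLp.norm_apply_le p i
  have h4 : closedBall (0 : E) (1 / 1000) ⊆ B 1 1 (1 / 1000) := fun p hp => by
    have := mem_closedBall_zero_iff.1 hp
    exact (mem _ _ _ p).2 ⟨by linarith [cd p 0], by linarith [cd p 1], (cd p 2).trans this⟩
  have v0 : (volume (B 1 1 (1 / 1000))).toReal = 1 / 125 :=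
    (vol 1 1 _ zero_le_one zero_le_one (by norm_num)).trans (by norm_num)
  have pi3 := Real.pi_gt_three
  have ev : ∀ᶠ t : ℝ in nhdsWithin 0 (Ioi 0), t ∈ Ioo 0 1 := Ioo_mem_nhdsGT one_pos
  have := H _ (Real.pi / 98000) h1 h2 ⟨0, mem_interior_iff_mem_nhds.2 (mem_of_superset
    (closedBall_mem_nhds 0 (by norm_num)) h4)⟩ (fun u hu L hL => ?_) (4 + 1 / 125) ?_
  · rw [v0, le_div_iff₀ (by norm_num)] at this
    nlinarith
  · obtain ⟨b, rfl⟩ := exb (mem_sphere_zero_iff_norm.1 hu)
    have e1 : (volume (B 1 1 (1 / 1000) + segment ℝ 0 (b 0))).toReal - (volume (B 1 1 (1 / 1000))).toReal =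
        sh (b 0) (B 1 1 (1 / 1000)) := by
      have := fib (b.norm_eq_one 0) h1 h2 zero_le_one
      rw [show segment ℝ 0 (b 0) = Sg (b 0) 0 1 by simp [segment_eq_image', Sg]]
      simp only [Measure.real] at this
      linarith
    rw [e1] at hL ⊢
    have e2 : 1 / 4000 ≤ L := ge_of_tendsto hL (ev.mono fun t ht => by
      have := lower h1 h2 h3 b (by norm_num) h4 ht.1.le
      have e := mul_pos (pow_pos ht.1 2) (sub_pos.2 Real.pi_lt_four)
      rw [le_div_iff₀ (mul_pos Real.pi_pos (pow_pos ht.1 2))]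
      change _ ≤ volume.real (pr (b 0) '' _ + _) - _
      nlinarith)
    have e3 : L ≤ 14 := le_of_tendsto hL (ev.mono fun t ht => by
      have := upper h1 h2 h3 b ht.1.le ht.2.le
      have e := mul_pos (pow_pos ht.1 2) (sub_pos.2 pi3)
      rw [div_le_iff₀ (mul_pos Real.pi_pos (pow_pos ht.1 2))]
      change volume.real (pr (b 0) '' _ + _) - _ ≤ _
      nlinarith [pow_pos ht.1 2])
    have e4 := area h1 h2 h3 b
    rw [Measure.real, v0] at e4
    rw [le_div_iff₀ (by positivity)]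
    have : L ^ 2 ≤ 196 := by nlinarith
    nlinarith
  · have e0 : Tendsto (fun t : ℝ => 4 + 1 / 125 + (9 * t + 4 * t ^ 2)) (nhdsWithin 0 (Ioi 0))
        (nhds (4 + 1 / 125)) := tendsto_nhdsWithin_of_tendsto_nhds
      ((show Continuous fun t : ℝ => 4 + 1 / 125 + (9 * t + 4 * t ^ 2) by fun_prop).tendsto' 0 _ (by simp))
    refine tendsto_of_tendsto_of_tendsto_of_le_of_le' tendsto_const_nhds e0 (ev.mono fun t ht => ?_)
      (ev.mono fun t ht => ?_)
    · have t0 := ht.1
      have fn : ∀ x y z, volume (B x y z) ≠ ⊤ := fun _ _ _ => Bx_ne _ _ _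
      have ms : ∀ x y z, MeasurableSet (B x y z) := fun _ _ _ => (Bx_closed _ _ _).measurableSet
      have a1 := measureReal_union_add_inter (ms 1 (1 + t) (1 / 1000)) (fn (1 + t) 1 (1 / 1000)) (fn _ _ _)
      have a2 := measureReal_union_add_inter (ms 1 1 (1 / 1000 + t)) (measure_union_ne_top
        (fn (1 + t) 1 (1 / 1000)) (fn 1 (1 + t) (1 / 1000))) (fn _ _ _)
      have a3 : volume.real (B (1 + t) 1 (1 / 1000) ∩ B 1 (1 + t) (1 / 1000)) ≤ 1 / 125 :=
        (measureReal_mono (fun p hp => (mem _ _ _ p).2 ⟨((mem _ _ _ p).1 hp.2).1, ((mem _ _ _ p).1 hp.1).2⟩)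
          (fn _ _ _)).trans_eq v0
      have a4 : volume.real ((B (1 + t) 1 (1 / 1000) ∪ B 1 (1 + t) (1 / 1000)) ∩ B 1 1 (1 / 1000 + t)) ≤
          1 / 125 := (measureReal_mono (fun p hp => (mem _ _ _ p).2 ⟨((mem _ _ _ p).1 hp.2).1,
            ((mem _ _ _ p).1 hp.2).2.1, hp.1.elim (fun h => ((mem _ _ _ p).1 h).2.2)
              fun h => ((mem _ _ _ p).1 h).2.2⟩) (fn _ _ _)).trans_eq v0
      have cl : ∀ a x : ℝ, 0 ≤ a → |x| ≤ a + t → ∃ r, |r| ≤ t ∧ |x - r| ≤ a := fun a x ha hx => by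
        rw [abs_le] at hx
        rcases le_total a x with h | h
        · exact ⟨x - a, abs_le.2 ⟨by linarith, by linarith⟩, abs_le.2 ⟨by linarith, by linarith⟩⟩
        rcases le_total (-a) x with h' | h'
        · exact ⟨0, abs_le.2 ⟨by linarith, by linarith⟩, abs_le.2 ⟨by linarith, by linarith⟩⟩
        · exact ⟨x + a, abs_le.2 ⟨by linarith, by linarith⟩, abs_le.2 ⟨by linarith, by linarith⟩⟩
      have sg : ∀ (p : E) i r, |r| ≤ t → p - EuclideanSpace.single i r ∈ B 1 1 (1 / 1000) →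
          p ∈ B 1 1 (1 / 1000) + closedBall (0 : E) t := fun p i r hr hp =>
        ⟨_, hp, _, by simpa using hr, sub_add_cancel _ _⟩
      have a5 : volume.real ((B (1 + t) 1 (1 / 1000) ∪ B 1 (1 + t) (1 / 1000)) ∪ B 1 1 (1 / 1000 + t)) ≤
          volume.real (B 1 1 (1 / 1000) + closedBall (0 : E) t) := by
        refine measureReal_mono ?_ (h1.add (isCompact_closedBall _ _)).measure_ne_top
        rintro p ((hp | hp) | hp) <;> obtain ⟨a, b, c⟩ := (mem _ _ _ p).1 hp
        · obtain ⟨r, r1, r2⟩ := cl _ _ zero_le_one a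
          exact sg p 0 r r1 ((mem _ _ _ _).2 (by simpa using ⟨r2, b, by simpa using c⟩))
        · obtain ⟨r, r1, r2⟩ := cl _ _ zero_le_one b
          exact sg p 1 r r1 ((mem _ _ _ _).2 (by simpa using ⟨a, r2, by simpa using c⟩))
        · obtain ⟨r, r1, r2⟩ := cl _ _ (by norm_num) c
          exact sg p 2 r r1 ((mem _ _ _ _).2 (by simpa using ⟨a, b, by simpa using r2⟩))
      rw [vol _ _ _ (by linarith) (by linarith) (by linarith)] at a1 a2
      rw [vol _ _ _ (by linarith) (by linarith) (by linarith)] at a1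
      rw [v0, le_div_iff₀ (by linarith)]
      change _ ≤ volume.real _ - _
      linarith
    · have t0 := ht.1
      have a1 : volume.real (B 1 1 (1 / 1000) + closedBall (0 : E) t) ≤
          volume.real (B (1 + t) (1 + t) (1 / 1000 + t)) := by
        refine measureReal_mono ?_ (Bx_ne _ _ _)
        rintro _ ⟨p, hp, z, hz, rfl⟩
        obtain ⟨a, b, c⟩ := (mem _ _ _ p).1 hp
        have := fun i => (cd z i).trans (mem_closedBall_zero_iff.1 hz)
        exact (mem _ _ _ _).2 ⟨(abs_add_le _ _).trans (add_le_add a (this 0)),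
          (abs_add_le _ _).trans (add_le_add b (this 1)), (abs_add_le _ _).trans (add_le_add c (this 2))⟩
      rw [vol _ _ _ (by linarith) (by linarith) (by linarith)] at a1
      rw [v0, div_le_iff₀ (by linarith)]
      change volume.real _ - _ ≤ _
      nlinarith [mul_pos t0 t0]

end Pool.Agent.S13210
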