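import Pool.Statements.S13321

set_option autoImplicit false
open Topology
open Pool Pool.MP_6b9469_gt

namespace Pool.Agent.S13321

/-- Every topological space having a σ-disjoint base and a σ-locally countable base also has a single base that is both σ-disjoint and σ-locally countable. -/
theorem result :
    ∀ (X : Type) [TopologicalSpace X],
      (∃ B : Set (Set X), TopologicalSpace.IsTopologicalBasis B ∧
        ∃ F : ℕ → Set (Set X), B = ⋃ n, F n ∧ ∀ n, (F n).PairwiseDisjoint id) →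
      (∃ B : Set (Set X), TopologicalSpace.IsTopologicalBasis B ∧
        ∃ F : ℕ → Set (Set X), B = ⋃ n, F n ∧
          ∀ n, ∀ x : X, ∃ U ∈ 𝓝 x, {S ∈ F n | (S ∩ U).Nonempty}.Countable) →
      ∃ B : Set (Set X), TopologicalSpace.IsTopologicalBasis B ∧
        (∃ F : ℕ → Set (Set X), B = ⋃ n, F n ∧ ∀ n, (F n).PairwiseDisjoint id) ∧
        (∃ G : ℕ → Set (Set X), B = ⋃ n, G n ∧
          ∀ n, ∀ x : X, ∃ U ∈ 𝓝 x, {S ∈ G n | (S ∩ U).Nonempty}.Countable) := by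
  classical
  rintro X _ ⟨B, hB, F, rfl, hF⟩ ⟨B', hB', G, rfl, hG⟩
  let V : ℕ → Set X → Set X := fun m b => ⋃₀ {c | c ∈ G m ∧ c ⊆ b}
  have hV : ∀ m b, V m b ⊆ b := fun m b => Set.sUnion_subset fun c hc => hc.2
  let H : ℕ → Set (Set X) := fun k => V k.unpair.2 '' F k.unpair.1
  refine ⟨⋃ k, H k, ?_, ⟨H, rfl, ?_⟩, ⟨H, rfl, ?_⟩⟩
  · refine TopologicalSpace.isTopologicalBasis_of_isOpen_of_nhds ?_ ?_
    · intro u hu
      obtain ⟨k, b, _, rfl⟩ := Set.mem_iUnion.1 hu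
      exact isOpen_sUnion fun c hc => hB'.isOpen (Set.mem_iUnion.2 ⟨_, hc.1⟩)
    · intro a u ha hu
      obtain ⟨b, hb, hab, hbu⟩ := hB.exists_subset_of_mem_open ha hu
      obtain ⟨c, hc, hac, hcb⟩ := hB'.exists_subset_of_mem_open hab (hB.isOpen hb)
      obtain ⟨n, hn⟩ := Set.mem_iUnion.1 hb
      obtain ⟨m, hm⟩ := Set.mem_iUnion.1 hc
      refine ⟨V m b, Set.mem_iUnion.2 ⟨Nat.pair n m, ?_⟩, ⟨c, ⟨hm, hcb⟩, hac⟩, (hV m b).trans hbu⟩
      simp only [H, Nat.unpair_pair]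
      exact ⟨b, hn, rfl⟩
  · intro k
    rintro _ ⟨b, hb, rfl⟩ _ ⟨b', hb', rfl⟩ hne
    have hbb : b ≠ b' := fun h => hne (by rw [h])
    exact Disjoint.mono (hV _ b) (hV _ b') (hF _ hb hb' hbb)
  · intro k x
    obtain ⟨U, hU, hc⟩ := hG k.unpair.2 x
    refine ⟨U, hU, ?_⟩
    let g : Set X → Set X := fun c =>
      if h : ∃ b ∈ F k.unpair.1, c ⊆ b then V k.unpair.2 h.choose else ∅
    refine (hc.image g).mono ?_
    rintro _ ⟨⟨b, hb, rfl⟩, y, ⟨c, ⟨hcG, hcb⟩, hyc⟩, hyU⟩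
    refine ⟨c, ⟨hcG, y, hyc, hyU⟩, ?_⟩
    have h : ∃ b ∈ F k.unpair.1, c ⊆ b := ⟨b, hb, hcb⟩
    simp only [g, dif_pos h]
    have : h.choose = b := by
      by_contra hne
      have hd := hF _ h.choose_spec.1 hb hne
      exact Set.disjoint_left.1 hd (h.choose_spec.2 hyc) (hcb hyc)
    rw [this]

end Pool.Agent.S13321
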