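import Pool.Statements.S13340
import Pool.Agent.H25.Helly3

set_option autoImplicit false
open Pool Pool.MP_6d476a_gt

namespace Pool.Agent.S13340

/-- The negation of the preceding statement: Every compact set of first-Baire-class real functions on Baire space (pointwise topology) is homeomorphic to a compact set of scatteredly continuous functions on Baire space (pointwise topology). -/
theorem result :
    ¬ (∀ S : Set ((ℕ → ℕ) → ℝ), IsCompact S →
      (∀ f ∈ S, ∃ u : ℕ → (ℕ → ℕ) → ℝ, (∀ n, Continuous (u n)) ∧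
          ∀ x, Filter.Tendsto (fun n => u n x) Filter.atTop (nhds (f x))) →
      ∃ T : Set ((ℕ → ℕ) → ℝ), IsCompact T ∧
        (∀ g ∈ T, ∀ A : Set (ℕ → ℕ), A.Nonempty → ∃ a ∈ A, ContinuousWithinAt g A a) ∧
        Nonempty (S ≃ₜ T)) := by
  intro h
  obtain ⟨π, hπ, hs⟩ := PolishSpace.exists_nat_nat_continuous_surjective ℝ
  let ι : (ℝ → unitInterval) → ((ℕ → ℕ) → ℝ) := fun f a => f (π a)
  have hι : Continuous ι := continuous_pi fun a => continuous_subtype_val.comp (continuous_apply _)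
  have hH : IsClosed {f : ℝ → unitInterval | Monotone f} := isClosed_monotone
  obtain ⟨T, -, hT, ⟨e⟩⟩ := h (ι '' {f | Monotone f}) (hH.isCompact.image hι) (by
    rintro _ ⟨f, hf, rfl⟩
    obtain ⟨u, h1, h2⟩ := Pool.Agent.H25.Helly1.baire1 f hf
    exact ⟨fun n a => u n (π a), fun n => (h1 n).comp hπ, fun a => h2 (π a)⟩)
  have h1 : ∀ b : ℕ → ℕ, ∃ g : C(ℝ → unitInterval, ℝ), ∀ f (hf : Monotone f),
      g f = (e ⟨ι f, f, hf, rfl⟩).1 b := by
    intro b
    obtain ⟨g, hg⟩ := ContinuousMap.exists_restrict_eq hH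
      ⟨fun f => (e ⟨ι f.1, f.1, f.2, rfl⟩).1 b, (continuous_apply b).comp
        (continuous_subtype_val.comp (e.continuous.comp
          ((hι.comp continuous_subtype_val).subtype_mk _)))⟩
    exact ⟨g, fun f hf => DFunLike.congr_fun hg ⟨f, hf⟩⟩
  choose φ hφ using h1
  let _ := TopologicalSpace.pseudoMetrizableSpacePseudoMetric (ℕ → ℕ)
  obtain ⟨f, hf, A, hA, h2⟩ := Pool.Agent.H25.Helly3.main φ (by
    intro f g hf hg hfg
    by_contra hh
    push Not at hh
    have h3 : e ⟨ι f, f, hf, rfl⟩ = e ⟨ι g, g, hg, rfl⟩ :=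
      Subtype.ext (funext fun b => by rw [← hφ b f hf, ← hφ b g hg, hh])
    have h4 : ι f = ι g := congrArg Subtype.val (e.injective h3)
    refine hfg (funext fun t => ?_)
    obtain ⟨a, rfl⟩ := hs t
    exact Subtype.ext (congrFun h4 a))
  obtain ⟨a, ha, h3⟩ := hT _ (e ⟨ι f, f, hf, rfl⟩).2 A hA
  refine h2 a ha ?_
  simp only [hφ _ f hf]
  exact h3

end Pool.Agent.S13340
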