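import Pool.Statements.S13356

set_option autoImplicit false
open Pool Pool.MP_6e1b9b_gt

namespace Pool.Agent.S13356

/-- The negation of the preceding statement: For every continuous surjection f from the cube onto the square, if the set of points whose fiber is just themselves is totally disconnected, then some closed totally disconnected subset of the cube is mapped by f onto the whole square. -/
theorem result :
    ¬ (∀ f : C(Fin 3 → unitInterval, Fin 2 → unitInterval),
      Function.Surjective f →
      IsTotallyDisconnected {x : Fin 3 → unitInterval | ∀ y, f y = f x → y = x} →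
      ∃ K : Set (Fin 3 → unitInterval),
        IsClosed K ∧ IsTotallyDisconnected K ∧ f '' K = Set.univ) := by
  intro H
  let f : C(Fin 3 → unitInterval, Fin 2 → unitInterval) :=
    ⟨fun p => ![p 0, max (p 2) (min (p 1) (unitInterval.symm (p 1)))], by
      refine continuous_pi fun i => ?_
      fin_cases i
      · exact continuous_apply 0
      · exact (continuous_apply 2).max ((continuous_apply 1).min
          (unitInterval.continuous_symm.comp (continuous_apply 1)))⟩
  have f0 : ∀ q : Fin 2 → unitInterval, f ![q 0, 0, q 1] = q := by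
    intro q
    funext i
    fin_cases i
    · rfl
    · simp [f]
  have f1 : ∀ q : Fin 2 → unitInterval, f ![q 0, 1, q 1] = q := by
    intro q
    funext i
    fin_cases i
    · rfl
    · simp [f]
  obtain ⟨K, hKc, hKd, hK⟩ := H f (fun q => ⟨_, f0 q⟩) (by
    intro t ht _ a ha b _
    have h0 := ht ha _ (f0 (f a))
    have h1 := ht ha _ (f1 (f a))
    have := congrFun (h0.trans h1.symm) 1
    simp at this)
  let e : unitInterval → ℝ → (Fin 3 → unitInterval) := fun j t =>
    ![Set.projIcc 0 1 zero_le_one t, j, 0]
  have he : ∀ j, Continuous (e j) := by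
    intro j
    refine continuous_pi fun i => ?_
    fin_cases i
    · exact continuous_projIcc (h := zero_le_one)
    · exact continuous_const
    · exact continuous_const
  have hcov : ∀ t, e 0 t ∈ K ∨ e 1 t ∈ K := by
    intro t
    obtain ⟨p, hp, hfp⟩ : (![Set.projIcc 0 1 zero_le_one t, 0] : Fin 2 → unitInterval) ∈ f '' K := by
      rw [hK]; trivial
    have h0 : p 0 = Set.projIcc 0 1 zero_le_one t := congrFun hfp 0
    have h1 : max (p 2) (min (p 1) (unitInterval.symm (p 1))) = 0 := congrFun hfp 1
    have h2 : p 2 = 0 := le_antisymm (h1 ▸ le_max_left _ _) unitInterval.nonneg'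
    have h3 : min (p 1) (unitInterval.symm (p 1)) = 0 :=
      le_antisymm (h1 ▸ le_max_right _ _) unitInterval.nonneg'
    rcases min_eq_iff.1 h3 with h | h
    · left
      convert hp using 1
      funext i
      fin_cases i
      · exact h0.symm
      · exact h.1.symm
      · exact h2.symm
    · right
      have h4 : p 1 = 1 := unitInterval.symm_eq_zero.1 h.1
      convert hp using 1
      funext i
      fin_cases i
      · exact h0.symm
      · exact h4.symm
      · exact h2.symm
  have key : ∃ j a b, a < b ∧ Set.Ioo a b ⊆ Set.Ioo (0:ℝ) 1 ∧ ∀ t ∈ Set.Ioo a b, e j t ∈ K := by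
    by_cases h : (Set.Ioo (0:ℝ) 1 ∩ (e 0 ⁻¹' K)ᶜ).Nonempty
    · obtain ⟨a, b, hab, hs⟩ := (isOpen_Ioo.inter (hKc.preimage (he 0)).isOpen_compl).exists_Ioo_subset h
      exact ⟨1, a, b, hab, fun t ht => (hs ht).1, fun t ht => (hcov t).resolve_left (hs ht).2⟩
    · refine ⟨0, 0, 1, zero_lt_one, subset_rfl, fun t ht => ?_⟩
      by_contra hn
      exact h ⟨t, ht, hn⟩
  obtain ⟨j, a, b, hab, hs, hk⟩ := key
  have hsub := hKd (e j '' Set.Ioo a b) (by rintro _ ⟨t, ht, rfl⟩; exact hk t ht)
    (isPreconnected_Ioo.image _ (he j).continuousOn)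
  have m1 : (2 * a + b) / 3 ∈ Set.Ioo a b := ⟨by linarith, by linarith⟩
  have m2 : (a + 2 * b) / 3 ∈ Set.Ioo a b := ⟨by linarith, by linarith⟩
  have h := congrFun (hsub ⟨_, m1, rfl⟩ ⟨_, m2, rfl⟩) 0
  have h' : Set.projIcc (0:ℝ) 1 zero_le_one ((2 * a + b) / 3) =
      Set.projIcc 0 1 zero_le_one ((a + 2 * b) / 3) := h
  rw [Set.projIcc_of_mem _ (Set.Ioo_subset_Icc_self (hs m1)),
    Set.projIcc_of_mem _ (Set.Ioo_subset_Icc_self (hs m2))] at h'
  have := congrArg Subtype.val h'
  simp only at this
  linarith

end Pool.Agent.S13356
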