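import Pool.Statements.S13411
import Pool.Agent.H10.JD5
-- import your own Pool.Agent.* helpers here

set_option autoImplicit false
open Pool Pool.MP_79ad04_gt

namespace Pool.Agent.S13411

/-- There is a spanning code of distinct unit vectors with minimal distance d that is jammed but not infinitesimally jammed. Jammed: every nearby code with minimal distance ≥ d is a rotation of it. Not infinitesimally jammed: some tangent motion not shrinking contact distances to first order is not an i -/
theorem result :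
    ∃ (n N : ℕ) (x : Fin N → EuclideanSpace ℝ (Fin n)) (d : ℝ),
      Function.Injective x ∧
      (∀ i, ‖x i‖ = 1) ∧
      0 < d ∧
      (∀ i j, i ≠ j → d ≤ dist (x i) (x j)) ∧
      (∃ i j, i ≠ j ∧ dist (x i) (x j) = d) ∧
      Submodule.span ℝ (Set.range x) = ⊤ ∧
      (∃ ε : ℝ, 0 < ε ∧
        ∀ y : Fin N → EuclideanSpace ℝ (Fin n),
          (∀ i, ‖y i‖ = 1) →
          (∀ i, dist (y i) (x i) < ε) →
          (∀ i j, i ≠ j → d ≤ dist (y i) (y j)) →
          ∃ g : EuclideanSpace ℝ (Fin n) ≃ₗᵢ[ℝ] EuclideanSpace ℝ (Fin n),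
            ∀ i, y i = g (x i)) ∧
      ¬ (∀ v : Fin N → EuclideanSpace ℝ (Fin n),
          (∀ i, inner ℝ (x i) (v i) = 0) →
          (∀ i j, i ≠ j → dist (x i) (x j) = d →
            0 ≤ inner ℝ (x i - x j) (v i - v j)) →
          ∃ A : EuclideanSpace ℝ (Fin n) →ₗ[ℝ] EuclideanSpace ℝ (Fin n),
            (∀ u w, inner ℝ (A u) w = - inner ℝ u (A w)) ∧
            ∀ i, v i = A (x i)) := by
  exact Pool.Agent.H10.JD.main

end Pool.Agent.S13411
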