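import Pool.Statements.S13418
-- import your own Pool.Agent.* helpers here

set_option autoImplicit false
open Pool Pool.MP_79e81e_gt

namespace Pool.Agent.S13418

open Filter

/-- A walk in `Γ` from `1` with prescribed steps. -/
def pth {Γ : Type} [Group Γ] {b N : ℕ} (x : Fin b → Γ) (c : Fin N → Fin b) : ℕ → Γ
  | 0 => 1
  | i + 1 => pth x c i * (if h : i < N then x (c ⟨i, h⟩) else 1)

lemma count (b m : ℕ) (Γ : Type) [Group Γ] (x : Fin b → Γ) :
    ∃ N : ℕ, ∃ σ : Equiv.Perm (Fin N), ∀ γ : ℕ → Γ, γ 0 = 1 →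
      (∀ i, ∃ k, γ (i + 1) = γ i * x k) → (∀ i : Fin N, ∃ k, γ (σ i) = γ i * x k) →
      (∀ (y : Γ) (A : Finset (Fin N)), (∀ j ∈ A, γ j = y) → A.card ≤ m) → False := by
  classical
  obtain ⟨N, hN⟩ := (Nat.eventually_pow_lt_factorial_sub (b * (b * m)) 0).exists
  refine ⟨N, ?_⟩
  by_contra hcon
  push Not at hcon
  let good : Finset (Fin N → Fin b) := Finset.univ.filter fun c =>
    ∀ y : Γ, (Finset.univ.filter fun j : Fin N => pth x c j = y).card ≤ m
  let Fs : (Fin N → Fin b) → Finset (Fin N → Fin N) := fun c =>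
    Fintype.piFinset fun i => Finset.univ.filter fun j : Fin N => ∃ k, pth x c j = pth x c i * x k
  have h1 : ∀ c ∈ good, (Fs c).card ≤ (b * m) ^ N := by
    intro c hc
    have hc' := (Finset.mem_filter.1 hc).2
    simp only [Fs, Fintype.card_piFinset]
    refine (Finset.prod_le_pow_card _ _ (b * m) fun i _ => ?_).trans (by simp)
    have : (Finset.univ.filter fun j : Fin N => ∃ k, pth x c j = pth x c i * x k) ⊆
        (Finset.univ : Finset (Fin b)).biUnion fun k =>
          Finset.univ.filter fun j : Fin N => pth x c j = pth x c i * x k := by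
      intro j hj
      simpa using hj
    refine (Finset.card_le_card this).trans ?_
    refine (Finset.card_biUnion_le_card_mul _ _ m fun k _ => hc' _).trans (by simp)
  have h2 : (good.biUnion Fs).card ≤ (b * (b * m)) ^ N := by
    refine (Finset.card_biUnion_le_card_mul _ _ _ h1).trans ?_
    rw [mul_pow b (b * m)]
    refine Nat.mul_le_mul_right _ ?_
    refine (Finset.card_filter_le _ _).trans (by simp)
  have h3 : (Finset.univ : Finset (Equiv.Perm (Fin N))).card ≤ (good.biUnion Fs).card := by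
    refine Finset.card_le_card_of_injOn (fun σ => (σ : Fin N → Fin N)) ?_ ?_
    · intro σ _
      obtain ⟨γ, h0, hs, hσ, hf, -⟩ := hcon σ
      choose k hk using hs
      let c : Fin N → Fin b := fun i => k i
      have hp : ∀ i, i ≤ N → pth x c i = γ i := by
        intro i
        induction i with
        | zero => intro _; simp [pth, h0]
        | succ i ih =>
          intro hi
          have hi' : i < N := hi
          rw [pth, ih hi'.le, dif_pos hi', hk]
      have hp' : ∀ i : Fin N, pth x c i = γ i := fun i => hp i i.2.le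
      simp only [Finset.coe_biUnion, Set.mem_iUnion, Finset.mem_coe]
      refine ⟨c, ?_, ?_⟩
      · refine Finset.mem_filter.2 ⟨Finset.mem_univ _, fun y => hf y _ fun j hj => ?_⟩
        rw [← hp']
        exact (Finset.mem_filter.1 hj).2
      · refine Fintype.mem_piFinset.2 fun i => Finset.mem_filter.2 ⟨Finset.mem_univ _, ?_⟩
        simpa [hp'] using hσ i
    · intro σ _ τ _ h
      exact DFunLike.coe_injective h
  rw [Finset.card_univ, Fintype.card_perm, Fintype.card_fin] at h3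
  simp only [Nat.sub_zero] at hN
  omega

lemma lifting {Γ Γ' : Type} [Group Γ] [Group Γ'] (B : Set Γ) (s : Γ → Γ') (h1 : (1 : Γ) ∈ B)
    (hrel : ∀ a ∈ B, ∀ b ∈ B, ∀ c ∈ B, ∀ d ∈ B, ∀ e ∈ B, a * b * c = d * e →
      s a * s b * s c = s d * s e)
    (F : ℕ → ℕ → Γ) (H : ℕ → ℕ → ℕ) (H0 : ∀ i, H 0 i = i)
    (Hs : ∀ t i, H (t + 1) i = H t i ∨ H (t + 1) i = H t i + 1 ∨ H (t + 1) i + 1 = H t i)
    (c1 : ∀ i t, (F i t)⁻¹ * F (i + 1) t ∈ B) (c2 : ∀ i t, (F (i + 1) t)⁻¹ * F i t ∈ B)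
    (c3 : ∀ i t, (F i t)⁻¹ * F i (t + 1) ∈ B) (c4 : ∀ i t, (F i t)⁻¹ * F (H t i) t ∈ B) (t : ℕ) :
    ∃ γ : ℕ → Γ', (∀ i, γ (i + 1) = γ i * s ((F i t)⁻¹ * F (i + 1) t)) ∧
      ∀ i, γ (H t i) = γ i * s ((F i t)⁻¹ * F (H t i) t) := by
  have s1 : s 1 = 1 := by
    have := hrel 1 h1 1 h1 1 h1 1 h1 1 h1 (by simp)
    simpa using this
  induction t with
  | zero =>
    refine ⟨fun i => Nat.rec 1 (fun j g => g * s ((F j 0)⁻¹ * F (j + 1) 0)) i, fun i => rfl,
      fun i => ?_⟩
    simp [H0, s1]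
  | succ t ih =>
    obtain ⟨γ, ha, hb⟩ := ih
    have hA : ∀ i, γ (i + 1) * s ((F (i + 1) t)⁻¹ * F (i + 1) (t + 1)) =
        γ i * s ((F i t)⁻¹ * F i (t + 1)) * s ((F i (t + 1))⁻¹ * F (i + 1) (t + 1)) := by
      intro i
      have := hrel _ (c1 i t) _ (c3 (i + 1) t) _ h1 _ (c3 i t) _ (c1 i (t + 1)) (by group)
      rw [s1, mul_one] at this
      rw [ha, mul_assoc, this, mul_assoc]
    refine ⟨fun i => γ i * s ((F i t)⁻¹ * F i (t + 1)), hA, fun i => ?_⟩
    have hnear : (F (H t i) (t + 1))⁻¹ * F (H (t + 1) i) (t + 1) ∈ B ∧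
        γ (H (t + 1) i) * s ((F (H (t + 1) i) t)⁻¹ * F (H (t + 1) i) (t + 1)) =
        γ (H t i) * s ((F (H t i) t)⁻¹ * F (H t i) (t + 1)) *
          s ((F (H t i) (t + 1))⁻¹ * F (H (t + 1) i) (t + 1)) := by
      rcases Hs t i with h | h | h
      · rw [h]
        simp [s1, h1]
      · rw [h]
        exact ⟨c1 _ _, hA _⟩
      · rw [← h]
        refine ⟨c2 _ _, ?_⟩
        rw [hA]
        have := hrel _ (c1 (H (t + 1) i) (t + 1)) _ (c2 (H (t + 1) i) (t + 1)) _ h1 _ h1 _ h1
          (by group)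
        simp only [s1, mul_one] at this
        rw [mul_assoc (γ _ * _), this, mul_one]
    have := hrel _ (c4 i t) _ (c3 (H t i) t) _ hnear.1 _ (c3 i t) _ (c4 i (t + 1)) (by group)
    show γ _ * _ = γ i * _ * _
    rw [hnear.2, hb, mul_assoc (γ i), mul_assoc (γ i), this, mul_assoc]

/-- Relators read off from a finite table of five-term relations. -/
def rels (b : ℕ) (T : Finset (Fin 5 → Fin b)) : Set (FreeGroup (Fin b)) :=
  {r | ∃ v ∈ T, r = FreeGroup.of (v 0) * FreeGroup.of (v 1) * FreeGroup.of (v 2) *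
    (FreeGroup.of (v 3) * FreeGroup.of (v 4))⁻¹}

/-- Moving the end of the chord one step at a time. -/
def mv (q : ℕ → ℕ) (t i : ℕ) : ℕ := max (i - t) (min (q i) (i + t))

/-- The graph. -/
def Gr (q : ℕ → ℕ → ℕ) : SimpleGraph (ℕ × ℕ × ℕ) :=
  SimpleGraph.fromRel fun v w => w = (v.1 + 1, v.2.1, v.2.2) ∨ w = (v.1, v.2.1 + 1, v.2.2) ∨
    w = (v.1, v.2.1, v.2.2 + 1) ∨ w = (v.1, mv (q v.1) v.2.2 v.2.1, v.2.2)

lemma Gr_conn (q : ℕ → ℕ → ℕ) : (Gr q).Connected := by
  have h : ∀ n i t, (Gr q).Reachable (0, 0, 0) (n, i, t) := by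
    intro n i t
    induction t with
    | zero =>
      induction i with
      | zero =>
        induction n with
        | zero => rfl
        | succ n ih => exact ih.trans (SimpleGraph.Adj.reachable (by simp [Gr]))
      | succ i ih => exact ih.trans (SimpleGraph.Adj.reachable (by simp [Gr]))
    | succ t ih => exact ih.trans (SimpleGraph.Adj.reachable (by simp [Gr]))
  exact ⟨fun v w => (h v.1 v.2.1 v.2.2).symm.trans (h w.1 w.2.1 w.2.2)⟩

lemma Gr_nb (q : ℕ → ℕ → ℕ) (hq : ∀ n, Function.Injective (q n)) (v : ℕ × ℕ × ℕ) :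
    ∃ A : Finset (ℕ × ℕ × ℕ), A.card ≤ 11 ∧ v ∈ A ∧ ∀ w, (Gr q).Adj v w → w ∈ A := by
  obtain ⟨n, i, t⟩ := v
  let L : List (ℕ × ℕ × ℕ) := [(n, i, t), (n + 1, i, t), (n - 1, i, t), (n, i + 1, t),
    (n, i - 1, t), (n, i, t + 1), (n, i, t - 1), (n, mv (q n) t i, t), (n, i + t, t),
    (n, i - t, t), (n, Function.invFun (q n) i, t)]
  refine ⟨L.toFinset, (List.toFinset_card_le _).trans (by simp [L]), by simp [L], ?_⟩
  rintro ⟨n', i', t'⟩ h
  simp only [Gr, SimpleGraph.fromRel_adj, Prod.mk.injEq] at h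
  simp only [L, List.mem_toFinset, List.mem_cons, Prod.mk.injEq]
  rcases h.2 with (h | h | h | h) | (h | h | h | h)
  · simp [h.1, h.2.1, h.2.2]
  · simp [h.1, h.2.1, h.2.2]
  · simp [h.1, h.2.1, h.2.2]
  · simp [h.1, h.2.1, h.2.2]
  · simp [h.1, h.2.1, h.2.2]
  · simp [h.1, h.2.1, h.2.2]
  · simp [h.1, h.2.1, h.2.2]
  · obtain ⟨rfl, h2, rfl⟩ := h
    by_cases h3 : i = q n i'
    · have : Function.invFun (q n) i = i' := by
        rw [h3]
        exact Function.leftInverse_invFun (hq n) i'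
      simp [this]
    · have : i' = i + t ∨ i' = i - t := by
        unfold mv at h2
        omega
      rcases this with h | h <;> simp [h]

lemma ball {V : Type} (G : SimpleGraph V) (D : ℕ)
    (h : ∀ v, ∃ A : Finset V, A.card ≤ D ∧ v ∈ A ∧ ∀ w, G.Adj v w → w ∈ A) (r : ℕ) :
    ∀ v, ∃ B : Finset V, B.card ≤ D ^ r ∧ ∀ w, ∀ p : G.Walk v w, p.length ≤ r → w ∈ B := by
  classical
  induction r with
  | zero =>
    intro v
    refine ⟨{v}, by simp, fun w p hp => ?_⟩
    rw [Finset.mem_singleton]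
    exact (p.eq_of_length_eq_zero (by omega)).symm
  | succ r ih =>
    intro v
    choose B hB hB' using ih
    obtain ⟨A, hA, hv, hA'⟩ := h v
    refine ⟨A.biUnion B, ?_, fun w p hp => ?_⟩
    · refine (Finset.card_biUnion_le_card_mul _ _ _ fun a _ => hB a).trans ?_
      rw [pow_succ']
      exact Nat.mul_le_mul_right _ hA
    · cases p with
      | nil => exact Finset.mem_biUnion.2 ⟨v, hv, hB' v v .nil (by simp)⟩
      | @cons _ u _ h q =>
        exact Finset.mem_biUnion.2 ⟨u, hA' u h, hB' u w q (by simpa using hp)⟩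

lemma cay {Γ : Type} [Group Γ] (S : Finset Γ) (hS : Subgroup.closure (S : Set Γ) = ⊤) (K : ℕ) :
    ∃ B : Finset Γ, (1 : Γ) ∈ B ∧ ∀ a c : Γ,
      (SimpleGraph.fromRel (fun a b : Γ => ∃ s ∈ S, b = a * s)).dist a c ≤ K → a⁻¹ * c ∈ B := by
  classical
  set C := SimpleGraph.fromRel (fun a b : Γ => ∃ s ∈ S, b = a * s) with hC
  have hr : ∀ a g : Γ, C.Reachable a (a * g) := by
    intro a g
    have hg : g ∈ Subgroup.closure (S : Set Γ) := by rw [hS]; trivial
    induction hg using Subgroup.closure_induction_right with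
    | one => simp
    | mul_right x _ y hy ih =>
      refine ih.trans ?_
      by_cases e : a * x = a * (x * y)
      · rw [← e]
      · exact SimpleGraph.Adj.reachable ⟨e, Or.inl ⟨y, hy, by group⟩⟩
    | mul_inv_cancel x _ y hy ih =>
      refine ih.trans ?_
      by_cases e : a * x = a * (x * y⁻¹)
      · rw [← e]
      · exact SimpleGraph.Adj.reachable ⟨e, Or.inr ⟨y, hy, by group⟩⟩
  have hw : ∀ r : ℕ, ∃ B : Finset Γ, (1 : Γ) ∈ B ∧ ∀ a c : Γ, ∀ p : C.Walk a c, p.length ≤ r →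
      a⁻¹ * c ∈ B := by
    intro r
    induction r with
    | zero =>
      refine ⟨{1}, by simp, fun a c p hp => ?_⟩
      rw [p.eq_of_length_eq_zero (by omega)]
      simp
    | succ r ih =>
      obtain ⟨B, h1, hB⟩ := ih
      refine ⟨B ∪ (Finset.image₂ (· * ·) S B ∪ Finset.image₂ (fun s g => s⁻¹ * g) S B),
        by simp [h1], fun a c p hp => ?_⟩
      cases p with
      | nil => simp [h1]
      | @cons _ u _ h q =>
        have h2 := hB u c q (by simpa using hp)
        rcases h.2 with ⟨s, hs, e⟩ | ⟨s, hs, e⟩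
        · refine Finset.mem_union_right _ (Finset.mem_union_left _ ?_)
          refine Finset.mem_image₂.2 ⟨s, hs, _, h2, ?_⟩
          rw [e]; group
        · refine Finset.mem_union_right _ (Finset.mem_union_right _ ?_)
          refine Finset.mem_image₂.2 ⟨s, hs, _, h2, ?_⟩
          rw [e]; group
  obtain ⟨B, h1, hB⟩ := hw K
  refine ⟨B, h1, fun a c h => ?_⟩
  have : C.Reachable a c := by simpa using hr a (a⁻¹ * c)
  obtain ⟨p, hp⟩ := this.exists_walk_length_eq_dist
  exact hB a c p (by omega)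

/-- The negation of the preceding statement: Every connected graph of bounded degree coarsely embeds, with its path metric, into the word metric of some group generated by a finite set. -/
theorem result :
    ¬ (∀ (V : Type) (G : SimpleGraph V), G.Connected →
      (∃ D : ℕ, ∀ v : V, (G.neighborSet v).encard ≤ (D : ℕ∞)) →
      ∃ (Γ : Type) (inst : Group Γ) (S : Finset Γ),
        Subgroup.closure (S : Set Γ) = ⊤ ∧
        ∃ f : V → Γ,
          (∀ R : ℕ, ∃ K : ℕ, ∀ x y : V, G.dist x y ≤ R →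
              (SimpleGraph.fromRel (fun a b : Γ => ∃ s ∈ S, b = a * s)).dist (f x) (f y) ≤ K) ∧
          (∀ K : ℕ, ∃ R : ℕ, ∀ x y : V,
              (SimpleGraph.fromRel (fun a b : Γ => ∃ s ∈ S, b = a * s)).dist (f x) (f y) ≤ K →
              G.dist x y ≤ R)) := by
  classical
  intro hall
  obtain ⟨d, hd⟩ := exists_surjective_nat (Σ b : ℕ, Finset (Fin 5 → Fin b) × ℕ)
  choose N σ hσ using fun n => count (d n).1 (d n).2.2 (PresentedGroup (rels (d n).1 (d n).2.1))
    (fun k => PresentedGroup.of k)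
  let q : ℕ → ℕ → ℕ := fun n i => if h : i < N n then (σ n ⟨i, h⟩ : ℕ) else i
  have hq : ∀ n, Function.Injective (q n) := by
    intro n i j hij
    simp only [q] at hij
    split_ifs at hij with h1 h2 h2
    · have := (σ n).injective (Fin.ext hij)
      simpa using this
    · have := (σ n ⟨i, h1⟩).2
      omega
    · have := (σ n ⟨j, h2⟩).2
      omega
    · exact hij
  obtain ⟨Γ, inst, S, hS, f, hf1, hf2⟩ := hall (ℕ × ℕ × ℕ) (Gr q) (Gr_conn q) ⟨11, fun v => by
    obtain ⟨A, hA, -, hA'⟩ := Gr_nb q hq v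
    refine (Set.encard_le_encard (t := (A : Set _)) fun w hw => hA' w hw).trans ?_
    rw [Set.encard_coe_eq_coe_finsetCard]
    exact_mod_cast hA⟩
  obtain ⟨K, hK⟩ := hf1 1
  obtain ⟨R, hR⟩ := hf2 0
  obtain ⟨B, hB1, hB⟩ := cay S hS K
  have hcl : ∀ u v, u = v ∨ (Gr q).Adj u v → (f u)⁻¹ * f v ∈ B := by
    intro u v h
    refine hB _ _ (hK u v ?_)
    rcases h with rfl | h
    · simp
    · rw [SimpleGraph.dist_eq_one_iff_adj.2 h]
  let e : Fin B.card → Γ := fun k => (B.equivFin.symm k : Γ)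
  let T : Finset (Fin 5 → Fin B.card) := Finset.univ.filter fun v =>
    e (v 0) * e (v 1) * e (v 2) = e (v 3) * e (v 4)
  obtain ⟨n, hn⟩ := hd ⟨B.card, T, 11 ^ R⟩
  have key := hσ n
  rw [hn] at key
  dsimp only at key
  let s : Γ → PresentedGroup (rels B.card T) := fun a =>
    if h : a ∈ B then PresentedGroup.of (B.equivFin ⟨a, h⟩) else 1
  have hs : ∀ a ∈ B, ∃ k, s a = PresentedGroup.of k ∧ e k = a := by
    intro a ha
    exact ⟨B.equivFin ⟨a, ha⟩, by simp [s, ha], by simp [e]⟩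
  let p : PresentedGroup (rels B.card T) →* Γ := PresentedGroup.toGroup (f := e) (by
    rintro r ⟨v, hv, rfl⟩
    have := (Finset.mem_filter.1 hv).2
    simp [this])
  have hp : ∀ a ∈ B, p (s a) = a := by
    intro a ha
    obtain ⟨k, h1, h2⟩ := hs a ha
    rw [h1, ← h2]
    simp [p]
  have hrel : ∀ a ∈ (B : Set Γ), ∀ b ∈ (B : Set Γ), ∀ c ∈ (B : Set Γ), ∀ d ∈ (B : Set Γ),
      ∀ e ∈ (B : Set Γ), a * b * c = d * e → s a * s b * s c = s d * s e := by
    intro a1 h1 a2 h2 a3 h3 a4 h4 a5 h5 h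
    obtain ⟨k1, e1, rfl⟩ := hs a1 h1
    obtain ⟨k2, e2, rfl⟩ := hs a2 h2
    obtain ⟨k3, e3, rfl⟩ := hs a3 h3
    obtain ⟨k4, e4, rfl⟩ := hs a4 h4
    obtain ⟨k5, e5, rfl⟩ := hs a5 h5
    rw [e1, e2, e3, e4, e5, ← mul_inv_eq_one]
    have : FreeGroup.of k1 * FreeGroup.of k2 * FreeGroup.of k3 *
        (FreeGroup.of k4 * FreeGroup.of k5)⁻¹ ∈ rels B.card T :=
      ⟨![k1, k2, k3, k4, k5], Finset.mem_filter.2 ⟨Finset.mem_univ _, by simpa using h⟩, by simp⟩
    have h' := PresentedGroup.one_of_mem this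
    simpa [PresentedGroup.of] using h'
  have c1 : ∀ i t, (f (n, i, t))⁻¹ * f (n, i + 1, t) ∈ B := fun i t =>
    hcl _ _ (Or.inr (by simp [Gr]))
  have c4 : ∀ i t, (f (n, i, t))⁻¹ * f (n, mv (q n) t i, t) ∈ B := by
    intro i t
    refine hcl _ _ ?_
    by_cases h : i = mv (q n) t i
    · left; rw [← h]
    · right
      simp [Gr, h]
  obtain ⟨γ, ha, hb⟩ := lifting (B : Set Γ) s hB1 hrel (fun i t => f (n, i, t)) (mv (q n))
    (fun i => by unfold mv; omega) (fun t i => by unfold mv; omega) c1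
    (fun i t => hcl _ _ (Or.inr (by simp [Gr]))) (fun i t => hcl _ _ (Or.inr (by simp [Gr]))) c4
    (N n)
  have hpγ : ∀ i, p (γ i) = p (γ 0) * (f (n, 0, N n))⁻¹ * f (n, i, N n) := by
    intro i
    induction i with
    | zero => simp
    | succ i ih =>
      rw [ha, map_mul, ih, hp _ (c1 _ _)]
      group
  refine key (fun i => (γ 0)⁻¹ * γ i) (by simp) (fun i => ?_) (fun i => ?_) (fun y A hA => ?_)
  · obtain ⟨k, h1, -⟩ := hs _ (c1 i (N n))
    exact ⟨k, by rw [ha, h1, mul_assoc]⟩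
  · obtain ⟨k, h1, -⟩ := hs _ (c4 i (N n))
    have h2 : mv (q n) (N n) i = σ n i := by
      have h3 : q n i = σ n i := by simp [q]
      have h4 := (σ n i).2
      have h5 := i.2
      unfold mv
      omega
    refine ⟨k, ?_⟩
    rw [← h2, hb, h1, mul_assoc]
  · rcases A.eq_empty_or_nonempty with rfl | ⟨j, hj⟩
    · simp
    obtain ⟨C, hC, hC'⟩ := ball (Gr q) 11 (Gr_nb q hq) R (n, j, N n)
    refine le_trans (Finset.card_le_card_of_injOn (fun l : Fin (N n) => (n, (l : ℕ), N n)) ?_ ?_) hC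
    · intro l hl
      have h1 : γ j = γ l := by
        have := (hA j hj).trans (hA l hl).symm
        simpa using this
      have h2 : f (n, j, N n) = f (n, l, N n) := by
        have h3 := hpγ j
        rw [h1, hpγ l] at h3
        simpa using h3.symm
      have h3 := hR (n, j, N n) (n, l, N n) (by rw [h2]; simp)
      obtain ⟨w, hw⟩ := ((Gr_conn q).preconnected (n, j, N n)
        (n, l, N n)).exists_walk_length_eq_dist
      exact hC' _ w (by omega)
    · intro a _ b _ h
      simp only [Prod.mk.injEq, true_and, and_true] at h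
      exact Fin.ext h

end Pool.Agent.S13418
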