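import Pool.Statements.S13478

set_option autoImplicit false
open Pool Pool.MP_8403e4_gt

namespace Pool.Agent.S13478

open Set Filter Topology

instance : (cocountable : Filter ℝ).NeBot :=
  ⟨fun h => not_countable_univ (α := ℝ) (by
    have : (∅ : Set ℝ) ∈ (cocountable : Filter ℝ) := h ▸ mem_bot
    simpa using mem_cocountable.1 this)⟩

instance : CountableInterFilter (cocountable : Filter ℝ) :=
  ⟨fun S hS h => mem_cocountable.2 (by
    rw [compl_sInter, sUnion_image]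
    exact hS.biUnion fun s hs => mem_cocountable.1 (h s hs))⟩

noncomputable def w : Ultrafilter (ℕ × ℝ) := Ultrafilter.of (atTop ×ˢ cocountable)

lemma w_le : (w : Filter (ℕ × ℝ)) ≤ atTop ×ˢ cocountable := Ultrafilter.of_le _

noncomputable def 𝓕 : Filter (ℕ × ℝ) := w ⊔ map (fun r => (0, r)) cocountable

lemma compl_mem {C : Set (ℕ × ℝ)} (hC : C.Countable) : Cᶜ ∈ 𝓕 := by
  refine ⟨w_le (mem_of_superset (prod_mem_prod univ_mem (t := (Prod.snd '' C)ᶜ)
    (mem_cocountable.2 (by simpa using hC.image Prod.snd))) fun a ha h => ha.2 ⟨a, h, rfl⟩), ?_⟩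
  refine mem_map.2 (mem_cocountable.2 ?_)
  rw [← preimage_compl, compl_compl]
  exact hC.preimage_of_injOn fun a _ b _ e => congrArg Prod.snd e

def X : Type := {u : Ultrafilter (ℕ × ℝ) // (∃ C ∈ u, C.Countable) ∨ u = w}

def hat (C : Set (ℕ × ℝ)) : Set X := {u | C ∈ u.1}

def L : Set (Set (ℕ × ℝ)) := {B | B.Countable ∨ B ∈ 𝓕}

instance : TopologicalSpace X := TopologicalSpace.generateFrom (hat '' L)

lemma basis : TopologicalSpace.IsTopologicalBasis (hat '' L) := by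
  refine ⟨?_, eq_univ_of_forall fun u => ⟨_, ⟨univ, Or.inr univ_mem, rfl⟩,
    show univ ∈ u.1 from univ_mem⟩,
    rfl⟩
  rintro _ ⟨A, hA, rfl⟩ _ ⟨B, hB, rfl⟩ u hu
  refine ⟨_, ⟨A ∩ B, ?_, rfl⟩, inter_mem hu.1 hu.2, fun v hv => inter_mem_iff.1 hv⟩
  rcases hA with hA | hA
  · exact Or.inl (hA.mono inter_subset_left)
  · exact hB.imp (fun h => h.mono inter_subset_right) (inter_mem hA)

lemma small (u : X) {A : Set (ℕ × ℝ)} (h1 : A ∈ u.1) (h2 : u.1 = w → A ∈ 𝓕) :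
    hat A ∈ 𝓝 u := by
  rcases u.2 with ⟨C, hC, hC'⟩ | h
  · exact basis.mem_nhds_iff.2 ⟨_, ⟨A ∩ C, Or.inl (hC'.mono inter_subset_right), rfl⟩,
      inter_mem h1 hC, fun v hv => mem_of_superset hv inter_subset_left⟩
  · exact basis.mem_nhds ⟨A, Or.inr (h2 h), rfl⟩ h1

lemma hat_clopen {B : Set (ℕ × ℝ)} (hB : B ∈ L) : IsClopen (hat B) := by
  refine ⟨⟨isOpen_iff_mem_nhds.2 fun u hu => ?_⟩, basis.isOpen ⟨B, hB, rfl⟩⟩
  refine mem_of_superset (small u (Ultrafilter.compl_mem_iff_notMem.2 hu) fun h => ?_)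
    fun v hv => Ultrafilter.compl_mem_iff_notMem.1 hv
  exact compl_mem (hB.resolve_right fun h' => hu (show B ∈ u.1 by rw [h]; exact h'.1))

def pt (a : ℕ × ℝ) : X := ⟨pure a, Or.inl ⟨{a}, rfl, countable_singleton a⟩⟩

noncomputable def ω : X := ⟨w, Or.inr rfl⟩

lemma tendsto_pt (u : X) : Tendsto pt u.1 (𝓝 u) := fun U hU => by
  obtain ⟨_, ⟨B, -, rfl⟩, h1, h2⟩ := basis.mem_nhds_iff.1 hU
  exact mem_of_superset h1 fun a ha => h2 ha

lemma tendsto_F : Tendsto pt 𝓕 (𝓝 ω) := fun U hU => by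
  obtain ⟨_, ⟨B, hB, rfl⟩, h1, h2⟩ := basis.mem_nhds_iff.1 hU
  exact mem_of_superset (hB.resolve_left fun h => w.compl_notMem_iff.2 h1 (compl_mem h).1)
    fun a ha => h2 ha

instance : T35Space X := by
  have : T0Space X := by
    have key : ∀ u v : X, u ≠ v → (∃ C ∈ u.1, C.Countable) → ¬ Inseparable u v := by
      rintro u v h ⟨C, hC, hC'⟩ hi
      refine h (Subtype.ext (Ultrafilter.eq_of_le fun A hA => ?_).symm)
      exact mem_of_superset ((hi.mem_open_iff (basis.isOpen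
        ⟨A ∩ C, Or.inl (hC'.mono inter_subset_right), rfl⟩)).1 (inter_mem hA hC)) inter_subset_left
    refine ⟨fun u v hi => by_contra fun h => ?_⟩
    rcases u.2 with h1 | h1
    · exact key u v h h1 hi
    · rcases v.2 with h2 | h2
      · exact key v u (Ne.symm h) h2 hi.symm
      · exact h (Subtype.ext (h1.trans h2.symm))
  have : CompletelyRegularSpace X := .of_isTopologicalBasis_clopens
    (basis.of_isOpen_of_subset (fun s hs => hs.2) (by rintro _ ⟨B, hB, rfl⟩; exact hat_clopen hB))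
  exact {}

lemma extend {g : ℕ × ℝ → ℝ} {M l : ℝ} (hM : ∀ a, |g a| ≤ M) (hl : Tendsto g 𝓕 (𝓝 l)) :
    ∃ h : X → ℝ, Continuous h ∧ (∀ u, |h u| ≤ M) ∧ ∀ u : X, Tendsto g u.1 (𝓝 (h u)) := by
  choose h h1 h2 using fun u : X => isCompact_iff_ultrafilter_le_nhds.1
    (isCompact_Icc (a := -M) (b := M)) (u.1.map g)
    (le_principal_iff.2 (mem_map.2 (univ_mem' fun a => abs_le.1 (hM a))))
  refine ⟨h, continuous_iff_continuousAt.2 fun u => ?_, fun u => abs_le.2 (h1 u), h2⟩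
  refine (closed_nhds_basis (h u)).tendsto_right_iff.2 fun N hN => ?_
  refine mem_of_superset (small u (A := g ⁻¹' N) (h2 u hN.1) fun e => hl ?_)
    fun v hv => hN.2.mem_of_tendsto (h2 v) hv
  have : Tendsto g u.1 (𝓝 l) := by rw [e]; exact hl.mono_left le_sup_left
  rw [tendsto_nhds_unique this (h2 u)]
  exact hN.1

lemma fspace (f : X → ℝ) (hf : Continuous f) (g : {y : X // f y ≠ 0} → ℝ) (hg : Continuous g)
    {M : ℝ} (hM : ∀ y, |g y| ≤ M) : ∃ h : X → ℝ, Continuous h ∧ (∃ M : ℝ, ∀ y, |h y| ≤ M) ∧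
      ∀ y : {y : X // f y ≠ 0}, h y.1 = g y := by
  classical
  have key : ∀ (g0 : ℕ × ℝ → ℝ), (∀ a, ∀ h : f (pt a) ≠ 0, g0 a = g ⟨pt a, h⟩) →
      ∀ (y : {y : X // f y ≠ 0}) (G : Filter (ℕ × ℝ)), Tendsto pt G (𝓝 y.1) →
        Tendsto g0 G (𝓝 (g y)) := by
    intro g0 h0 y G hG N hN
    obtain ⟨U, hU, hU'⟩ := (mem_nhds_subtype _ _ _).1 (hg.continuousAt hN)
    refine mem_map.2 ?_
    filter_upwards [mem_map.1 (hG hU),
      mem_map.1 (hG ((isOpen_ne_fun hf continuous_const).mem_nhds y.2))] with a h1 h2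
    show g0 a ∈ N
    rw [h0 a h2]
    exact hU' h1
  obtain ⟨g0, M', l, h0, h1, h2⟩ : ∃ (g0 : ℕ × ℝ → ℝ) (M' l : ℝ),
      (∀ a, ∀ h : f (pt a) ≠ 0, g0 a = g ⟨pt a, h⟩) ∧ (∀ a, |g0 a| ≤ M') ∧
      Tendsto g0 𝓕 (𝓝 l) := by
    let g1 : ℕ × ℝ → ℝ := fun a => if h : f (pt a) ≠ 0 then g ⟨pt a, h⟩ else 0
    have b1 : ∀ a, |g1 a| ≤ |M| := fun a => by
      simp only [g1]
      split_ifs
      · exact (hM _).trans (le_abs_self M)
      · simp
    by_cases hw : f ω = 0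
    · obtain ⟨l, hl, hl'⟩ := isCompact_iff_ultrafilter_le_nhds.1
        (isCompact_Icc (a := -|M|) (b := |M|)) (w.map g1)
        (le_principal_iff.2 (mem_map.2 (univ_mem' fun a => abs_le.1 (b1 a))))
      refine ⟨fun a => if a.1 = 0 ∧ f (pt a) = 0 then l else g1 a, |M|, l, fun a h => ?_,
        fun a => ?_, tendsto_sup.2 ⟨?_, ?_⟩⟩
      · simp only [g1, h, and_false, if_false, ne_eq, not_false_eq_true, dif_pos]
      · dsimp only
        split_ifs
        · exact abs_le.2 hl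
        · exact b1 a
      · refine Tendsto.congr' ?_ hl'
        filter_upwards [w_le (prod_mem_prod (Ioi_mem_atTop 0) univ_mem)] with a ha
        exact (if_neg fun h => (ne_of_gt ha.1) h.1).symm
      · refine tendsto_const_nhds.congr' ?_
        have h1 : Tendsto (fun r : ℝ => |f (pt (0, r))|) cocountable (𝓝 0) := by
          have := ((hf.tendsto ω).comp (tendsto_F.mono_left le_sup_right)).abs
          rwa [hw, abs_zero] at this
        have h2 : ∀ᶠ r in cocountable, ∀ n : ℕ, |f (pt (0, r))| < 1 / ((n : ℝ) + 1) :=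
          eventually_countable_forall.2 fun n =>
            h1.eventually (gt_mem_nhds Nat.one_div_pos_of_nat)
        refine mem_map.2 ?_
        filter_upwards [h2] with r hr
        refine (if_pos ⟨rfl, by_contra fun h => ?_⟩).symm
        obtain ⟨n, hn⟩ := exists_nat_one_div_lt (abs_pos.2 h)
        exact (hr n).not_gt hn
    · exact ⟨g1, |M|, _, fun a h => dif_pos h, b1, key g1 (fun a h => dif_pos h) ⟨ω, hw⟩ _ tendsto_F⟩
  obtain ⟨h, a, b, c⟩ := extend h1 h2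
  exact ⟨h, a, ⟨M', b⟩, fun y => tendsto_nhds_unique (c y.1) (key g0 h0 y _ (tendsto_pt _))⟩

/-- The negation of the preceding statement: Any Tychonoff space with a cocompact pretty base of clopen sets that embeds in some Tychonoff F-space is basically disconnected: the closure of any countable union of clopen sets is clopen. -/
theorem result :
    ¬ (∀ (X : Type) [TopologicalSpace X] [T35Space X],
    (∃ 𝓑 : Set (Set X),
      (∀ B ∈ 𝓑, IsClopen B) ∧
      TopologicalSpace.IsTopologicalBasis 𝓑 ∧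
      (∀ C D : Set (Set X), C ⊆ 𝓑 → C.Countable → D ⊆ 𝓑 →
        (∀ U ∈ C, ∀ V ∈ D, Disjoint U V) →
        ∃ W ∈ 𝓑, (∀ U ∈ C, U ⊆ W) ∧ ∀ V ∈ D, Disjoint W V) ∧
      @CompactSpace X (TopologicalSpace.generateFrom ((fun B : Set X => (closure B)ᶜ) '' 𝓑))) →
    (∃ (Y : Type) (_ : TopologicalSpace Y), T35Space Y ∧
      (∀ f : Y → ℝ, Continuous f →
        ∀ g : {y : Y // f y ≠ 0} → ℝ, Continuous g → (∃ M : ℝ, ∀ y, |g y| ≤ M) →
          ∃ h : Y → ℝ, Continuous h ∧ (∃ M : ℝ, ∀ y, |h y| ≤ M) ∧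
            ∀ y : {y : Y // f y ≠ 0}, h y.1 = g y) ∧
      ∃ e : X → Y, Topology.IsEmbedding e) →
    ∀ s : ℕ → Set X, (∀ n, IsClopen (s n)) → IsClopen (closure (⋃ n, s n))) := by
  intro H
  have hs : ∀ n : ℕ, IsClopen (hat {a | a.1 = n + 1}) := fun n => by
    have : {a : ℕ × ℝ | a.1 = n + 1}ᶜ ∈ 𝓕 :=
      ⟨w_le (mem_of_superset (prod_mem_prod (Ioi_mem_atTop (n + 1)) univ_mem)
        fun a ha => ne_of_gt ha.1), mem_map.2 (univ_mem' fun r => n.succ_ne_zero.symm)⟩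
    convert (hat_clopen (Or.inr this)).compl using 1
    ext u
    exact Ultrafilter.compl_notMem_iff.symm
  have h1 := (H X ⟨hat '' L, ?_, basis, ?_, ?_⟩
    ⟨X, inferInstance, inferInstance, fun f hf g hg ⟨_, hM⟩ => fspace f hf g hg hM, id,
      IsEmbedding.id⟩ _ hs).2
  · have h2 : ω ∈ closure (⋃ n : ℕ, hat {a | a.1 = n + 1}) := by
      refine mem_closure_of_tendsto (tendsto_pt ω) ?_
      filter_upwards [w_le (prod_mem_prod (Ioi_mem_atTop 0) univ_mem)] with a ha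
      exact mem_iUnion.2 ⟨a.1 - 1, (Nat.succ_pred_eq_of_pos ha.1).symm⟩
    obtain ⟨r, hr⟩ := Filter.nonempty_of_mem (mem_map.1 (tendsto_F (h1.mem_nhds h2)).2)
    obtain ⟨v, h3, h4⟩ := mem_closure_iff.1 hr _ (hat_clopen (Or.inl (countable_singleton _))).2
      (show pt (0, r) ∈ hat {(0, r)} from rfl)
    obtain ⟨n, hn⟩ := mem_iUnion.1 h4
    obtain ⟨_, rfl, h5⟩ := v.1.nonempty_of_mem (inter_mem h3 hn)
    exact n.succ_ne_zero h5.symm
  · rintro _ ⟨B, hB, rfl⟩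
    exact hat_clopen hB
  · intro C D hC hc hD hd
    have hC' : ∀ c ∈ C, ∃ s ∈ L, hat s = c := fun c h => hC h
    choose! s hs hs' using hC'
    refine ⟨hat (⋃ c ∈ C, s c), ⟨_, ?_, rfl⟩, fun c h u hu => ?_, fun d h => ?_⟩
    · by_cases h : ∀ c ∈ C, (s c).Countable
      · exact Or.inl (hc.biUnion h)
      · push Not at h
        obtain ⟨c, h1, h2⟩ := h
        exact Or.inr (mem_of_superset ((hs c h1).resolve_left h2) (subset_biUnion_of_mem h1))
    · rw [← hs' c h] at hu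
      exact mem_of_superset hu (subset_biUnion_of_mem h)
    · obtain ⟨E, -, rfl⟩ := hD h
      refine disjoint_left.2 fun u h1 h2 => ?_
      obtain ⟨a, ha, ha'⟩ := u.1.nonempty_of_mem (inter_mem h1 h2)
      obtain ⟨c, h3, h4⟩ := mem_iUnion₂.1 ha
      exact disjoint_left.1 (hd c h3 _ h) (show pt a ∈ c by rw [← hs' c h3]; exact h4) ha'
  · refine @CompactSpace.mk X (TopologicalSpace.generateFrom _)
      ((@isCompact_iff_ultrafilter_le_nhds X (TopologicalSpace.generateFrom _) _).2 fun f _ => ?_)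
    simp only [TopologicalSpace.nhds_generateFrom, le_iInf_iff, le_principal_iff]
    let u : Ultrafilter (ℕ × ℝ) := f.bind fun x => x.1
    obtain ⟨x, hx⟩ : ∃ x : X, ∀ B ∈ L, B ∈ u → B ∈ x.1 := by
      by_cases h : ∃ C ∈ u, C.Countable
      · exact ⟨⟨u, Or.inl h⟩, fun _ _ h => h⟩
      · exact ⟨ω, fun B hB h' => (hB.resolve_left fun h1 => h ⟨B, h', h1⟩).1⟩
    refine ⟨x, trivial, ?_⟩
    rintro _ ⟨h3, _, ⟨B, hB, rfl⟩, rfl⟩
    simp only [(hat_clopen hB).1.closure_eq] at h3 ⊢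
    exact Ultrafilter.compl_mem_iff_notMem.2 fun h1 => h3 (hx B hB (mem_bind'.2 h1))

end Pool.Agent.S13478
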