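import Pool.Statements.S13482
import Pool.Agent.H31.KDetO

set_option autoImplicit false
open Pool Pool.MP_8503ce_gt

namespace Pool.Agent.S13482

theorem result :
    ¬ (∀ (K : ∀ (Y : Type) [TopologicalSpace Y], Prop),
    (∀ (Y : Type) [TopologicalSpace Y], K Y → T0Space Y) →
    (∀ (Y : Type) [TopologicalSpace Y], T0Space Y → QuasiSober Y → K Y) →
    ∀ (I : Type) (X : I → Type) [∀ i, TopologicalSpace (X i)] [∀ i, T0Space (X i)]
      (A : ∀ i, Set (X i)),
      (∀ i, ∀ (Y : Type) [TopologicalSpace Y], K Y →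
        ∀ f : X i → Y, Continuous f →
          ∃! y : Y, closure (f '' A i) = closure ({y} : Set Y)) →
      ∀ (Y : Type) [TopologicalSpace Y], K Y →
        ∀ f : (∀ i, X i) → Y, Continuous f →
          ∃! y : Y, closure (f '' Set.pi Set.univ A) = closure ({y} : Set Y)) := by
  intro h
  obtain ⟨y, hy, -⟩ := h H31.KDet.K (fun _ _ h => h.1) H31.KDet.K_of_sober ℕ H31.KDet.X
    (fun _ => Set.univ) (fun n => H31.KDet.det_univ n) H31.KDet.Y H31.KDet.K_Y H31.KDet.iota
    H31.KDet.cont_iota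
  rw [Set.pi_univ, Set.image_univ] at hy
  exact H31.KDet.not_gen_iota y ((H31.KDet.gen_iff _ _).1 hy)

end Pool.Agent.S13482
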