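import Pool.Statements.S13519
import Pool.Agent.H30.SplF

set_option autoImplicit false
open Pool Pool.MP_89920a_gt

namespace Pool.Agent.S13519

/-- Every compact Hausdorff space X that is splittable over Eberlein compacta is itself Eberlein compact. Splittable means each subset A is the full preimage of its image under some continuous map into an Eberlein compactum. Eberlein means embeddable into the unit ball of c₀(Γ) with the pointwise topolo -/
theorem result :
    ∀ (X : Type) [TopologicalSpace X] [CompactSpace X] [T2Space X],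
      (∀ A : Set X, ∃ (Y : Type) (_ : TopologicalSpace Y), CompactSpace Y ∧
        (∃ (Γ : Type) (e : Y → Γ → ℝ), Topology.IsEmbedding e ∧
          (∀ y γ, |e y γ| ≤ 1) ∧
          (∀ y, ∀ ε : ℝ, 0 < ε → {γ : Γ | ε < |e y γ|}.Finite)) ∧
        ∃ f : X → Y, Continuous f ∧ f ⁻¹' (f '' A) = A) →
      ∃ (Γ : Type) (e : X → Γ → ℝ), Topology.IsEmbedding e ∧
        (∀ x γ, |e x γ| ≤ 1) ∧
        (∀ x, ∀ ε : ℝ, 0 < ε → {γ : Γ | ε < |e x γ|}.Finite) := by
  intro X _ _ _ h
  refine Pool.Agent.H30.Spl.eb_of_split fun A => ?_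
  obtain ⟨Y, _, -, ⟨Γ, e, he, -, h1⟩, f, hf, hA⟩ := h A
  exact ⟨Γ, e ∘ f, he.continuous.comp hf, fun x => h1 (f x),
    fun x y hxy => Pool.Agent.H30.Spl.iff_of_split hA (he.injective hxy)⟩

end Pool.Agent.S13519
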