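import Pool.Statements.S13540
import Pool.Agent.Lead.CCl

set_option autoImplicit false
universe u
open Pool Pool.MP_8bbda9_gt

namespace Pool.Agent.S13540

/-- The negation of the preceding statement: For Tychonoff spaces X and Y whose spaces of continuous real functions with the pointwise topology are homeomorphic, if every countable subset of X is closed, then every countable subset of Y is closed. -/
theorem result :
    ¬ (∀ (X Y : Type u) [TopologicalSpace X] [TopologicalSpace Y] [T35Space X] [T35Space Y],
      Nonempty ({f : X → ℝ // Continuous f} ≃ₜ {g : Y → ℝ // Continuous g}) →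
      (∀ s : Set X, s.Countable → IsClosed s) →
      ∀ t : Set Y, t.Countable → IsClosed t) := by
  intro H
  have := LExt.t35_sum (X := CCl.Z.{u}) (Y := PUnit.{u + 1})
  have := LExt.t35_sum (X := {z : CCl.Z.{u} // CCl.rho z = z}) (Y := CCl.D.{u}.P)
  have h := H (CCl.Z.{u} ⊕ PUnit.{u + 1}) ({z : CCl.Z.{u} // CCl.rho z = z} ⊕ CCl.D.{u}.P)
    ⟨(LExt.toUnif _ CCl.D.E_rep CCl.D.Es_rep).toHomeomorph⟩ CCl.cnt_closed_sum
    (Set.range fun n : ℕ => Sum.inr (CCl.D.{u}.qq (FSp.lim CCl.G (Sum.inl (true, n)))))
    (Set.countable_range _)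
  apply CCl.not_closed.{u}
  convert h.preimage continuous_inr using 1
  ext y
  simp

end Pool.Agent.S13540
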