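import Pool.Statements.S13550

set_option autoImplicit false
open Pool Pool.MP_8d6ae8_gt

namespace Pool.Agent.S13550

open Set Filter Topology Function

@[reducible] def top {X : Type} (N : X → ℕ → Set X) (anti : ∀ z, Antitone (N z)) : TopologicalSpace X where
  IsOpen U := ∀ z ∈ U, ∃ m, N z m ⊆ U
  isOpen_univ _ _ := ⟨0, subset_univ _⟩
  isOpen_inter s t hs ht z hz := by
    obtain ⟨a, ha⟩ := hs z hz.1
    obtain ⟨b, hb⟩ := ht z hz.2
    exact ⟨max a b, subset_inter ((anti z (le_max_left a b)).trans ha)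
      ((anti z (le_max_right a b)).trans hb)⟩
  isOpen_sUnion s hs z := fun ⟨u, hu, hz⟩ =>
    (hs u hu z hz).imp fun _ h => h.trans (subset_sUnion_of_mem hu)

abbrev Z : Type := ℕ → ℕ → ℕ∞

def NoTop (x : ℕ → ℕ∞) : Prop := ∀ l, x l ≠ ⊤
def Br (x : ℕ → ℕ∞) : Prop := (∀ l, x l ≠ 0) ∧ NoTop x
def Fn (x : ℕ → ℕ∞) : Prop := ∃ k, ∀ l ≥ k, x l = 0
def cut (k : ℕ) (x : ℕ → ℕ∞) : ℕ → ℕ∞ := fun l => if l < k then x l else 0
noncomputable def rep (j : ℕ) (x : ℕ → ℕ∞) : ℕ → ℕ∞ := fun l => if x l = ⊤ then (j + 1 : ℕ) else x l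

lemma Fn.not_br {x : ℕ → ℕ∞} (h : Fn x) : ¬ Br x := fun h' => h.elim fun k hk => h'.1 k (hk k le_rfl)
lemma cut_fn (k : ℕ) (x : ℕ → ℕ∞) : Fn (cut k x) := ⟨k, fun _ h => if_neg (not_lt.2 h)⟩
lemma cut_nt (k : ℕ) {x : ℕ → ℕ∞} (h : NoTop x) : NoTop (cut k x) := fun l => by
  unfold cut; split_ifs
  · exact h l
  · simp
lemma rep_fn (j : ℕ) {x : ℕ → ℕ∞} (h : Fn x) : Fn (rep j x) :=
  h.imp fun _ hk l hl => by simp [rep, hk l hl]
lemma rep_nt (j : ℕ) (x : ℕ → ℕ∞) : NoTop (rep j x) := fun l => by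
  unfold rep; split_ifs with h
  · exact ENat.natCast_ne_top _
  · exact h

def Lev (z : Z) (n : ℕ) : Prop :=
  (∀ i < n, Br (z i)) ∧ Fn (z n) ∧ ∀ i > n, Fn (z i) ∧ ¬ NoTop (z i)

lemma Lev.uniq {z : Z} {n n' : ℕ} (h : Lev z n) (h' : Lev z n') : n = n' := by
  rcases lt_trichotomy n n' with a | a | a
  · exact (h.2.1.not_br (h'.1 n a)).elim
  · exact a
  · exact (h'.2.1.not_br (h.1 n' a)).elim

def P : Z := fun _ _ => 1

lemma P_br (i : ℕ) : Br (P i) := ⟨fun _ => one_ne_zero, fun _ => ENat.one_ne_top⟩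

def X : Set Z := {z | (∃ n, Lev z n) ∨ z = P}

def R (m : ℕ) (z w : Z) : Prop :=
  w = z ∨ (∃ n, Lev z n ∧ ¬ NoTop (z n) ∧ ((∃ j ≥ m, w = update z n (rep j (z n))) ∨
    ∃ n', n = n' + 1 ∧ ∃ k ≥ m, w = update z n' (cut k (z n')))) ∨
  (z = P ∧ (∀ i < m, Br (w i) ∧ ∀ l < m, w i l = 1) ∧ NoTop (w m))

lemma lev_rep {z : Z} {n : ℕ} (h : Lev z n) (j : ℕ) : Lev (update z n (rep j (z n))) n :=
  ⟨fun i hi => by rw [update_of_ne hi.ne]; exact h.1 i hi, by
    rw [update_self]; exact rep_fn j h.2.1, fun i hi => by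
    rw [update_of_ne hi.ne']; exact h.2.2 i hi⟩

lemma lev_cut {z : Z} {n : ℕ} (h : Lev z (n + 1)) (h' : ¬ NoTop (z (n + 1))) (k : ℕ) :
    Lev (update z n (cut k (z n))) n :=
  ⟨fun i hi => by rw [update_of_ne hi.ne]; exact h.1 i (by omega), by
    rw [update_self]; exact cut_fn _ _, fun i hi => by
    rw [update_of_ne hi.ne']
    rcases (Nat.succ_le_of_lt hi).eq_or_lt with rfl | a
    · exact ⟨h.2.1, h'⟩
    · exact h.2.2 i a⟩

lemma R_iso {z w : Z} {n m : ℕ} (h : Lev z n) (h' : NoTop (z n)) (hw : R m z w) : w = z := by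
  rcases hw with a | ⟨n', a, b, -⟩ | ⟨a, -⟩
  · exact a
  · exact (b (h.uniq a ▸ h')).elim
  · exact (h.2.1.not_br (a ▸ P_br n)).elim

lemma R_anti {z w : Z} {m m' : ℕ} (h : m ≤ m') (hw : R m' z w) : R m z w := by
  rcases hw with a | ⟨n, a, b, c⟩ | ⟨a, b, c⟩
  · exact Or.inl a
  · exact Or.inr (Or.inl ⟨n, a, b, c.imp (fun ⟨j, h1, h2⟩ => ⟨j, h.trans h1, h2⟩)
      fun ⟨n', e, k, h1, h2⟩ => ⟨n', e, k, h.trans h1, h2⟩⟩)
  · refine Or.inr (Or.inr ⟨a, fun i hi => ⟨(b i (by omega)).1, fun l hl =>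
      (b i (by omega)).2 l (by omega)⟩, ?_⟩)
    rcases h.eq_or_lt with rfl | h
    · exact c
    · exact (b m h).1.2

lemma R_low {z w : Z} {n m i : ℕ} (h : Lev z n) (hw : R m z w) :
    (i + 1 < n → w i = z i) ∧ (NoTop (z i) → NoTop (w i)) := by
  rcases hw with rfl | ⟨n', a, b, ⟨j, -, rfl⟩ | ⟨n'', rfl, k, -, rfl⟩⟩ | ⟨a, -⟩
  · exact ⟨fun _ => rfl, id⟩
  · obtain rfl := h.uniq a
    refine ⟨fun hi => update_of_ne (by omega) _ _, fun hi => ?_⟩
    rwa [update_of_ne (by rintro rfl; exact b hi)]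
  · obtain rfl := h.uniq a
    refine ⟨fun hi => update_of_ne (by omega) _ _, fun hi => ?_⟩
    by_cases e : i = n''
    · subst e; rw [update_self]; exact cut_nt _ hi
    · rwa [update_of_ne e]
  · exact (h.2.1.not_br (a ▸ P_br n)).elim

lemma R_op {z w : Z} {m : ℕ} (hX : w ∈ X) (hw : R m z w) : ∃ m', ∀ v, R m' w v → R m z v := by
  rcases hw with rfl | ⟨n, a, b, c⟩ | ⟨a, b, c⟩
  · exact ⟨m, fun _ => id⟩
  · refine ⟨0, fun v hv => ?_⟩
    have : v = w := by
      rcases c with ⟨j, -, rfl⟩ | ⟨n', rfl, k, -, rfl⟩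
      · exact R_iso (lev_rep a j) (by rw [update_self]; exact rep_nt _ _) hv
      · exact R_iso (lev_cut a b k) (by rw [update_self]; exact cut_nt _ (a.1 n' (by omega)).2) hv
    exact this ▸ Or.inr (Or.inl ⟨n, a, b, c⟩)
  · rcases hX with ⟨n, hn⟩ | rfl
    · refine ⟨0, fun v hv => ?_⟩
      by_cases h : NoTop (w n)
      · exact R_iso hn h hv ▸ Or.inr (Or.inr ⟨a, b, c⟩)
      · have h1 : m < n := by
          rcases lt_trichotomy m n with e | rfl | e
          · exact e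
          · exact (h c).elim
          · exact (hn.2.1.not_br (b n e).1).elim
        refine Or.inr (Or.inr ⟨a, fun i hi => ?_, (R_low hn hv).2 c⟩)
        rw [(R_low hn hv).1 (by omega)]
        exact b i hi
    · exact ⟨m, fun _ h => a ▸ h⟩

lemma R_tend {z : Z} {w : ℕ → Z} (h : ∀ m, R m z (w m)) : Tendsto w atTop (𝓝 z) := by
  refine tendsto_pi_nhds.2 fun i => tendsto_pi_nhds.2 fun l => ?_
  have key : ∀ m, i < m → l < m → w m i l = z i l ∨ (z i l = ⊤ ∧ (m : ℕ∞) < w m i l) := by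
    intro m hi hl
    rcases h m with e | ⟨n, -, -, ⟨j, hj, e⟩ | ⟨n', -, k, hk, e⟩⟩ | ⟨a, b, -⟩
    · exact Or.inl (by rw [e])
    · rw [e]
      by_cases h1 : i = n
      · subst h1
        rw [update_self]
        unfold rep
        split_ifs with h2
        · exact Or.inr ⟨h2, by exact_mod_cast Nat.lt_succ_of_le hj⟩
        · exact Or.inl rfl
      · exact Or.inl (by rw [update_of_ne h1])
    · rw [e]
      by_cases h1 : i = n'
      · subst h1
        rw [update_self]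
        exact Or.inl (if_pos (by omega))
      · exact Or.inl (by rw [update_of_ne h1])
    · exact Or.inl (by rw [(b i hi).2 l hl, a]; rfl)
  by_cases h1 : z i l = ⊤
  · rw [h1, ENat.tendsto_nhds_top_iff_natCast_lt]
    intro n
    filter_upwards [eventually_gt_atTop i, eventually_gt_atTop l, eventually_ge_atTop n]
      with m a b c
    rcases key m a b with e | e
    · rw [e, h1]; exact ENat.natCast_lt_top n
    · exact lt_of_le_of_lt (by exact_mod_cast c) e.2
  · refine tendsto_const_nhds.congr' ?_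
    filter_upwards [eventually_gt_atTop i, eventually_gt_atTop l] with m a b
    exact ((key m a b).resolve_right fun e => h1 e.1).symm

lemma R_clos {z : Z} (hz : z ∈ X) (m : ℕ) :
    ∃ K, IsClosed K ∧ (∀ w, R (m + 1) z w → w ∈ K) ∧ ∀ w ∈ X, w ∈ K → R m z w := by
  rcases hz with ⟨n, hn⟩ | rfl
  · by_cases h : NoTop (z n)
    · exact ⟨{z}, isClosed_singleton, fun w hw => R_iso hn h hw, fun w _ hw => Or.inl hw⟩
    · have a1 : ∀ j, R (j + m) z (update z n (rep (j + m) (z n))) := fun j =>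
        Or.inr (Or.inl ⟨n, hn, h, Or.inl ⟨_, le_rfl, rfl⟩⟩)
      have a2 : ∀ k, R (k + m) z (if n = 0 then z else update z (n - 1) (cut (k + m) (z (n - 1)))) :=
        fun k => by
          split_ifs with e
          · exact Or.inl rfl
          · exact Or.inr (Or.inl ⟨n, hn, h, Or.inr ⟨n - 1, by omega, _, le_rfl, rfl⟩⟩)
      refine ⟨_, ((R_tend fun j => R_anti (Nat.le_add_right j m) (a1 j)).isCompact_insert_range.union
        (R_tend fun j => R_anti (Nat.le_add_right j m) (a2 j)).isCompact_insert_range).isClosed,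
        ?_, ?_⟩
      · rintro w (rfl | ⟨n', a, -, ⟨j, hj, rfl⟩ | ⟨n'', rfl, k, hk, rfl⟩⟩ | ⟨a, -⟩)
        · exact Or.inl (Or.inl rfl)
        · obtain rfl := hn.uniq a
          exact Or.inl (Or.inr ⟨j - m, by simp only [show j - m + m = j by omega]⟩)
        · obtain rfl := hn.uniq a
          exact Or.inr (Or.inr ⟨k - m, by simp [show k - m + m = k by omega]⟩)
        · exact (hn.2.1.not_br (a ▸ P_br n)).elim
      · rintro w - ((rfl | ⟨j, rfl⟩) | (rfl | ⟨j, rfl⟩))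
        · exact Or.inl rfl
        · exact R_anti (Nat.le_add_left m j) (a1 j)
        · exact Or.inl rfl
        · exact R_anti (Nat.le_add_left m j) (a2 j)
  · refine ⟨⋂ i ∈ Iio (m + 1), (⋂ l, (fun w : Z => w i l) ⁻¹' {0}ᶜ) ∩
      ⋂ l ∈ Iio (m + 1), {w : Z | w i l = 1}, isClosed_biInter fun i _ =>
        (isClosed_iInter fun l => (ENat.isOpen_singleton ENat.zero_ne_top).isClosed_compl.preimage
          (by fun_prop)).inter
        (isClosed_biInter fun l _ => isClosed_eq (by fun_prop) continuous_const), ?_, ?_⟩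
    · rintro w (rfl | ⟨n, a, -⟩ | ⟨-, b, -⟩)
      · simp [P]
      · exact (a.2.1.not_br (P_br n)).elim
      · exact mem_iInter₂.2 fun i hi => ⟨mem_iInter.2 (b i hi).1.1, mem_iInter₂.2 (b i hi).2⟩
    · intro w hw hK
      have h1 : ∀ i < m + 1, Br (w i) := by
        intro i hi
        have h2 : ¬ Fn (w i) := fun ⟨k, hk⟩ => mem_iInter.1 (mem_iInter₂.1 hK i hi).1 k (hk k le_rfl)
        rcases hw with ⟨n, hn⟩ | rfl
        · rcases lt_trichotomy i n with e | rfl | e
          · exact hn.1 i e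
          · exact (h2 hn.2.1).elim
          · exact (h2 (hn.2.2 i e).1).elim
        · exact P_br i
      exact Or.inr (Or.inr ⟨rfl, fun i hi => ⟨h1 i (by omega), fun l hl =>
        mem_iInter₂.1 (mem_iInter₂.1 hK i (show i < m + 1 by omega)).2 l
          (show l < m + 1 by omega)⟩, (h1 m (by omega)).2⟩)

lemma R_dev {w : Z} (hw : w ∈ X) : ∃ m₀, ∀ m ≥ m₀, ∀ z, R m z w → z = w := by
  rcases hw with ⟨n, hn⟩ | rfl
  · obtain ⟨k₀, hk₀⟩ := hn.2.1
    refine ⟨n + 1 + k₀ + 1 + (Finset.range k₀).sup fun l => (w n l).toNat, fun m hm z h => ?_⟩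
    rcases h with e | ⟨n', a, b, ⟨j, hj, rfl⟩ | ⟨n'', rfl, k, hk, rfl⟩⟩ | ⟨-, b, -⟩
    · exact e.symm
    · obtain rfl := hn.uniq (lev_rep a j)
      exfalso
      obtain ⟨l, hl⟩ := not_forall.1 b
      have h1 : update z n (rep j (z n)) n l = (j + 1 : ℕ) := by
        rw [update_self]; exact if_pos (not_not.1 hl)
      have h2 : l < k₀ := not_le.1 fun h => by
        rw [hk₀ l h] at h1
        exact Nat.succ_ne_zero j (by exact_mod_cast h1.symm)
      have h3 := Finset.le_sup (f := fun l => (update z n (rep j (z n)) n l).toNat)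
        (Finset.mem_range.2 h2)
      simp only [h1, ENat.toNat_natCast] at h3
      omega
    · obtain rfl := hn.uniq (lev_cut a b k)
      exfalso
      have h1 := hk₀ k₀ le_rfl
      rw [update_self, cut, if_pos (by omega)] at h1
      exact (a.1 n (by omega)).1 k₀ h1
    · exact (hn.2.1.not_br (b n (by omega)).1).elim
  · refine ⟨0, fun m _ z h => ?_⟩
    rcases h with e | ⟨n', a, b, ⟨j, hj, e⟩ | ⟨n'', rfl, k, hk, e⟩⟩ | ⟨a, -⟩
    · exact e.symm
    · exact ((lev_rep a j).2.1.not_br (e ▸ P_br _)).elim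
    · exact ((lev_cut a b k).2.1.not_br (e ▸ P_br _)).elim
    · exact a

def Large : ℕ → Set (ℕ → ℕ → ℕ) → Prop
  | 0, E => (fun _ _ => 0) ∈ E
  | j + 1, E => Large j {β | ¬ IsMeagre {b | update β j b ∈ E}}

lemma Large.union {ι : Type} [Countable ι] (j : ℕ) : ∀ (E : Set (ℕ → ℕ → ℕ))
    (F : ι → Set (ℕ → ℕ → ℕ)), Large j E → E ⊆ ⋃ i, F i → ∃ i, Large j (F i) := by
  induction j with
  | zero => exact fun E F h1 h2 => mem_iUnion.1 (h2 h1)
  | succ j ih =>
    refine fun E F h1 h2 => ih _ (fun i => {β | ¬ IsMeagre {b | update β j b ∈ F i}}) h1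
      fun β hβ => by_contra fun hn => hβ ?_
    simp only [mem_iUnion, not_exists, mem_ofPred_eq, not_not] at hn
    exact IsMeagre.mono (fun b hb => by simpa using h2 hb) (isMeagre_iUnion hn)

lemma large_cyl (m j : ℕ) : Large j {β | ∀ i < j, ∀ l < m, β i l = 0} := by
  induction j with
  | zero => exact fun _ _ _ _ => rfl
  | succ j ih =>
    obtain ⟨_, h⟩ := Large.union j _ (fun _ : Unit => {β | ¬ IsMeagre {b | update β j b ∈
      {β : ℕ → ℕ → ℕ | ∀ i < j + 1, ∀ l < m, β i l = 0}}}) ih fun β hβ =>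
      mem_iUnion.2 ⟨(), fun h => not_isMeagre_of_isOpen
        (PiNat.isOpen_cylinder (fun _ => ℕ) (fun _ => 0) m) ⟨_, PiNat.self_mem_cylinder _ _⟩
        (IsMeagre.mono (by
          intro b hb i hi l hl
          by_cases e : i = j
          · subst e; rw [update_self]; exact hb l hl
          · rw [update_of_ne e]; exact hβ i (by omega) l hl) h)⟩
    exact h

def emb (b : ℕ → ℕ) : ℕ → ℕ∞ := fun l => (b l + 1 : ℕ)

lemma emb_br (b : ℕ → ℕ) : Br (emb b) :=
  ⟨fun l => Nat.cast_ne_zero.2 (Nat.succ_ne_zero _), fun _ => ENat.natCast_ne_top _⟩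

def lm (s : Σ k, Fin k → ℕ) : ℕ → ℕ∞ := fun l =>
  if h : l < s.1 then (s.2 ⟨l, h⟩ + 1 : ℕ) else if l = s.1 then ⊤ else 0

lemma lm_A (s : Σ k, Fin k → ℕ) : Fn (lm s) ∧ ¬ NoTop (lm s) :=
  ⟨⟨s.1 + 1, fun l hl => by rw [lm, dif_neg (by omega), if_neg (by omega)]⟩,
    fun h => h s.1 (by simp [lm])⟩

def Pt (j : ℕ) (β : ℕ → ℕ → ℕ) (α : Z) : Z := fun i => if i < j then emb (β i) else α i

lemma Pt_lev (j : ℕ) (β : ℕ → ℕ → ℕ) {α : Z} (h : ∀ i, Fn (α i) ∧ ¬ NoTop (α i)) :
    Lev (Pt j β α) j ∧ ¬ NoTop (Pt j β α j) := by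
  refine ⟨⟨fun i hi => ?_, ?_, fun i hi => ?_⟩, ?_⟩
  · rw [Pt, if_pos hi]; exact emb_br _
  · rw [Pt, if_neg (lt_irrefl j)]; exact (h j).1
  · rw [Pt, if_neg (by omega)]; exact h i
  · rw [Pt, if_neg (lt_irrefl j)]; exact (h j).2

lemma no_fun (g : Z → ℝ) (h1 : ∀ z ∈ X, ∀ r, g z < r → ∃ m, ∀ w ∈ X, R m z w → g w < r)
    (h2 : ∀ z ∈ X, ∀ r, r < g z → ∃ m, ∀ w ∈ X, R m z w → r < g w) (h3 : g P = 0)
    (h4 : ∀ z ∈ X, ¬ NoTop (z 0) → g z = 1) : False := by
  have lim : ∀ z n r, Lev z n → ¬ NoTop (z n) → (∀ j, g (update z n (rep j (z n))) < r) →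
      g z ≤ r := fun z n r a b c => by
    by_contra hn
    obtain ⟨m, hm⟩ := h2 z (Or.inl ⟨n, a⟩) r (not_le.1 hn)
    exact (hm _ (Or.inl ⟨n, lev_rep a m⟩)
      (Or.inr (Or.inl ⟨n, a, b, Or.inl ⟨m, le_rfl, rfl⟩⟩))).not_gt (c m)
  have step : ∀ (j : ℕ) (r r' : ℝ), r < r' → ∀ α : Z, (∀ i, Fn (α i) ∧ ¬ NoTop (α i)) →
      Large (j + 1) {β | g (Pt (j + 1) β α) ≤ r} →
      ∃ α' : Z, (∀ i, Fn (α' i) ∧ ¬ NoTop (α' i)) ∧ Large j {β | g (Pt j β α') ≤ r'} := by
    intro j r r' hr α hα hL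
    have hA : ∀ s i, Fn (update α j (lm s) i) ∧ ¬ NoTop (update α j (lm s) i) := fun s i => by
      by_cases e : i = j
      · subst e; rw [update_self]; exact lm_A s
      · rw [update_of_ne e]; exact hα i
    obtain ⟨s, hs⟩ := Large.union j _ (fun s => {β | g (Pt j β (update α j (lm s))) ≤ r'}) hL
      fun β hβ => by
        have e1 : ∀ b x, update (Pt (j + 1) (update β j b) α) j x = update (Pt j β α) j x := by
          intro b x
          funext i
          by_cases e : i = j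
          · subst e; simp
          · simp only [update_of_ne e, Pt, show i < j + 1 ↔ i < j by omega]
        have e2 : ∀ b, Pt (j + 1) (update β j b) α j = emb b := fun b => by simp [Pt]
        obtain ⟨m, hm⟩ : ∃ m, ¬ IsMeagre
            {b | ∀ k ≥ m, g (update (Pt j β α) j (cut k (emb b))) < r'} := by
          by_contra hn
          push Not at hn
          refine hβ (IsMeagre.mono (fun b hb => ?_) (isMeagre_iUnion hn))
          obtain ⟨a1, a2⟩ := Pt_lev (j + 1) (update β j b) hα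
          obtain ⟨m, hm⟩ := h1 _ (Or.inl ⟨_, a1⟩) r' (lt_of_le_of_lt hb hr)
          refine mem_iUnion.2 ⟨m, fun k hk => ?_⟩
          rw [← e1 b, ← e2 b]
          exact hm _ (Or.inl ⟨j, lev_cut a1 a2 k⟩)
            (Or.inr (Or.inl ⟨_, a1, a2, Or.inr ⟨j, rfl, k, hk, rfl⟩⟩))
        obtain ⟨b, hb⟩ := nonempty_iff_ne_empty.2 fun h => hm (IsNowhereDense.isMeagre h)
        obtain ⟨_, ⟨x, n, rfl⟩, h5, h6⟩ :=
          (PiNat.isTopologicalBasis_cylinders fun _ => ℕ).exists_subset_of_mem_open hb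
            isOpen_interior
        refine mem_iUnion.2 ⟨⟨n + m, fun l => b l⟩, ?_⟩
        obtain ⟨a1, a2⟩ := Pt_lev j β (hA ⟨n + m, fun l => b l⟩)
        refine lim _ j r' a1 a2 fun t => ?_
        obtain ⟨c, h7, h8⟩ := mem_closure_iff.1 (interior_subset (h6 (show update b (n + m) t ∈ _
          from fun i hi => (update_of_ne (by omega) _ _).trans (h5 i hi)))) _
          (PiNat.isOpen_cylinder (fun _ => ℕ) (update b (n + m) t) (n + m + 1))
          (PiNat.self_mem_cylinder _ _)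
        convert h8 (n + m + 1) (by omega) using 2
        funext i
        by_cases e : i = j
        · subst e
          funext l
          simp only [update_self, Pt, lt_irrefl, if_false, rep, cut, lm, emb]
          rcases lt_trichotomy l (n + m) with e | rfl | e
          · rw [dif_pos e, if_neg (ENat.natCast_ne_top _), if_pos (by omega), h7 l (by omega),
              update_of_ne e.ne]
          · rw [dif_neg (lt_irrefl _), if_pos rfl, if_pos rfl, if_pos (by omega), h7 _ (by omega),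
              update_self]
          · rw [dif_neg (by omega), if_neg e.ne', if_neg ENat.zero_ne_top, if_neg (by omega)]
        · simp only [update_of_ne e, Pt]
    exact ⟨_, hA s, hs⟩
  obtain ⟨m, hm⟩ := h1 P (Or.inr rfl) (1 / 2) (by rw [h3]; norm_num)
  have key : ∀ d j, j + d = m → ∃ α : Z, (∀ i, Fn (α i) ∧ ¬ NoTop (α i)) ∧
      Large j {β | g (Pt j β α) ≤ 1 / 2 + 1 / ((j : ℝ) + 3)} := by
    intro d
    induction d with
    | zero =>
      rintro j rfl
      have hα : ∀ i : ℕ, Fn (lm ⟨0, Fin.elim0⟩) ∧ ¬ NoTop (lm ⟨0, Fin.elim0⟩) := fun _ => lm_A _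
      obtain ⟨_, h⟩ := Large.union j _ (fun _ : Unit => {β | g (Pt j β fun _ => lm ⟨0, Fin.elim0⟩)
        ≤ 1 / 2 + 1 / ((j : ℝ) + 3)}) (large_cyl j j) fun β hβ => mem_iUnion.2 ⟨(), by
          obtain ⟨a1, a2⟩ := Pt_lev j β hα
          refine (lim _ j (1 / 2) a1 a2 fun t => hm _ (Or.inl ⟨j, lev_rep a1 t⟩)
            (Or.inr (Or.inr ⟨rfl, fun i hi => ?_, ?_⟩))).trans (le_add_of_nonneg_right (by positivity))
          · have hi' : i < j := hi
            rw [update_of_ne hi'.ne, Pt, if_pos hi']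
            exact ⟨emb_br _, fun l hl => by simp [emb, hβ i hi' l hl]⟩
          · rw [Nat.add_zero, update_self]; exact rep_nt _ _⟩
      exact ⟨_, hα, h⟩
    | succ d ih =>
      intro j hj
      obtain ⟨α, hα, h⟩ := ih (j + 1) (by omega)
      refine step j _ _ ?_ α hα h
      push_cast
      gcongr
      linarith
  obtain ⟨α, hα, h⟩ := key m 0 (zero_add m)
  have h5 : g (Pt 0 (fun _ _ => 0) α) ≤ 1 / 2 + 1 / (((0 : ℕ) : ℝ) + 3) := h
  obtain ⟨a1, a2⟩ := Pt_lev 0 (fun _ _ => 0) hα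
  rw [h4 _ (Or.inl ⟨0, a1⟩) a2] at h5
  norm_num at h5

def N (z : X) (m : ℕ) : Set X := {w | R m z.1 w.1}

lemma N_anti (z : X) : Antitone (N z) := fun _ _ h _ hw => R_anti h hw

lemma N_open (z : X) (m : ℕ) : IsOpen[top N N_anti] (N z m) := fun w hw =>
  (R_op w.2 hw).imp fun _ h v => h v.1

lemma top_le : top N N_anti ≤ instTopologicalSpaceSubtype := by
  intro U hU z hz
  by_contra hn
  push Not at hn
  choose w h1 h2 using fun m => not_subset.1 (hn m)
  have : Tendsto w atTop (𝓝 z) := tendsto_subtype_rng.2 (R_tend h1)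
  obtain ⟨m, hm⟩ := (this.eventually (hU.mem_nhds hz)).exists
  exact h2 m hm

lemma N_clos (z : X) (m : ℕ) : closure (N z (m + 1)) ⊆ N z m := by
  obtain ⟨K, h1, h2, h3⟩ := R_clos z.2 m
  exact (closure_minimal (fun w hw => h2 w.1 hw) (h1.preimage continuous_subtype_val)).trans
    fun w hw => h3 w.1 w.2 hw

/-- The negation of the preceding statement: Every regular developable space X is completely regular if it has a coarser metrizable topology t₂ such that each point p in an open set O has an open D around p whose t₂-closure lies in O. -/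
theorem result :
    ¬ (∀ (X : Type) (t : TopologicalSpace X),
      @RegularSpace X t →
      (∃ G : ℕ → Set (Set X),
          (∀ n : ℕ, ∀ U ∈ G n, @IsOpen X t U) ∧
          (∀ n : ℕ, ⋃₀ G n = Set.univ) ∧
          ∀ x : X, ∀ O : Set X, @IsOpen X t O → x ∈ O →
            ∃ n : ℕ, ⋃₀ {U ∈ G n | x ∈ U} ⊆ O) →
      (∃ t₂ : TopologicalSpace X, t ≤ t₂ ∧
          @TopologicalSpace.MetrizableSpace X t₂ ∧
          ∀ p : X, ∀ O : Set X, @IsOpen X t O → p ∈ O →
            ∃ D : Set X, @IsOpen X t D ∧ p ∈ D ∧ @closure X t₂ D ⊆ O) →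
      @CompletelyRegularSpace X t) := by
  intro H
  classical
  have hreg : ∀ p : X, ∀ O : Set X, IsOpen[top N N_anti] O → p ∈ O →
      ∃ D : Set X, IsOpen[top N N_anti] D ∧ p ∈ D ∧ closure D ⊆ O := fun p O hO hp => by
    obtain ⟨m, hm⟩ := hO p hp
    exact ⟨_, N_open p (m + 1), Or.inl rfl, (N_clos p m).trans hm⟩
  have hcl : ∀ D : Set X, IsClosed[top N N_anti] (closure D) := fun D =>
    isClosed_closure.mono top_le
  have h := H X (top N N_anti) (by
      refine @RegularSpace.of_exists_mem_nhds_isClosed_subset X (top N N_anti) fun x s hs => ?_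
      obtain ⟨O, h1, h2, h3⟩ := (@mem_nhds_iff X (top N N_anti) _ _).1 hs
      obtain ⟨D, a, b, c⟩ := hreg x O h2 h3
      exact ⟨closure D, (@mem_nhds_iff X (top N N_anti) _ _).2 ⟨D, subset_closure, a, b⟩, hcl D,
        c.trans h1⟩)
    ⟨fun n => range fun z => N z n, by rintro n _ ⟨z, rfl⟩; exact N_open z n,
      fun n => eq_univ_of_forall fun z => ⟨_, ⟨z, rfl⟩, Or.inl rfl⟩, fun x O hO hx => by
        obtain ⟨m, hm⟩ := hO x hx
        obtain ⟨m₀, h0⟩ := R_dev x.2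
        refine ⟨m + m₀, sUnion_subset ?_⟩
        rintro _ ⟨⟨z, rfl⟩, hz⟩
        obtain rfl : z = x := Subtype.ext (h0 _ (by omega) _ hz)
        exact (N_anti z (by omega)).trans hm⟩
    ⟨instTopologicalSpaceSubtype, top_le, inferInstance, hreg⟩
  let _ : TopologicalSpace X := top N N_anti
  obtain ⟨f, hf, h0, h1⟩ := h.completely_regular_isOpen ⟨P, Or.inr rfl⟩ {z | NoTop (z.1 0)}
    (fun z hz => ⟨1, fun w hw => by
      rcases z.2 with ⟨n, hn⟩ | e
      · exact (R_low hn hw).2 hz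
      · rcases hw with a | ⟨n, a, -⟩ | ⟨-, a, -⟩
        · exact show NoTop (w.1 0) from a ▸ hz
        · exact (a.2.1.not_br (e ▸ P_br n)).elim
        · exact (a 0 one_pos).1.2⟩) (P_br 0).2
  have hf' : Continuous fun z => (f z : ℝ) := continuous_subtype_val.comp hf
  refine no_fun (fun z => if h : z ∈ X then f ⟨z, h⟩ else 0) (fun z hz r hr => ?_)
    (fun z hz r hr => ?_) ?_ fun z hz h => ?_
  · rw [dif_pos hz] at hr
    obtain ⟨m, hm⟩ := isOpen_lt hf' continuous_const ⟨z, hz⟩ hr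
    exact ⟨m, fun w hw h => by rw [dif_pos hw]; exact hm (a := ⟨w, hw⟩) h⟩
  · rw [dif_pos hz] at hr
    obtain ⟨m, hm⟩ := isOpen_lt continuous_const hf' ⟨z, hz⟩ hr
    exact ⟨m, fun w hw h => by rw [dif_pos hw]; exact hm (a := ⟨w, hw⟩) h⟩
  · simp only [dif_pos (show P ∈ X from Or.inr rfl), h0]
    rfl
  · simp only [dif_pos hz, h1 (x := ⟨z, hz⟩) h]
    rfl

end Pool.Agent.S13550
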