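import Pool.Statements.S13555
import Pool.Agent.H5.Kakeya

set_option autoImplicit false
open Pool Pool.MP_8dda54_gt

namespace Pool.Agent.S13555

open Set Metric Pool.Agent.H5.Kakeya
open scoped RealInnerProductSpace Pointwise

/-- Some d≥3 has a convex compact nonempty S in R^d, not a point, segment or ball, such that in every convex compact K holding a translate of each rotation of S, any two rotated-translated copies of S in K can be moved continuously into each other inside K. -/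
theorem result :
    ∃ d : ℕ, 3 ≤ d ∧ ∃ S : Set (EuclideanSpace ℝ (Fin d)),
      Convex ℝ S ∧ IsCompact S ∧ S.Nonempty ∧
      (¬ ∃ a : EuclideanSpace ℝ (Fin d), S = {a}) ∧
      (¬ ∃ a b : EuclideanSpace ℝ (Fin d), a ≠ b ∧ S = segment ℝ a b) ∧
      (¬ ∃ (c : EuclideanSpace ℝ (Fin d)) (r : ℝ), 0 < r ∧ S = Metric.closedBall c r) ∧
      ∀ K : Set (EuclideanSpace ℝ (Fin d)),
        Convex ℝ K → IsCompact K → K.Nonempty →
        (∀ ρ ∈ Matrix.specialOrthogonalGroup (Fin d) ℝ,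
          ∃ x : EuclideanSpace ℝ (Fin d),
            (fun v => Matrix.toEuclideanLin ρ v + x) '' S ⊆ K) →
        ∀ ρ₀ ρ₁ : Matrix (Fin d) (Fin d) ℝ, ∀ x₀ x₁ : EuclideanSpace ℝ (Fin d),
          ρ₀ ∈ Matrix.specialOrthogonalGroup (Fin d) ℝ →
          ρ₁ ∈ Matrix.specialOrthogonalGroup (Fin d) ℝ →
          (fun v => Matrix.toEuclideanLin ρ₀ v + x₀) '' S ⊆ K →
          (fun v => Matrix.toEuclideanLin ρ₁ v + x₁) '' S ⊆ K →
          ∃ γ : ℝ → Matrix (Fin d) (Fin d) ℝ, ∃ δ : ℝ → EuclideanSpace ℝ (Fin d),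
            Continuous γ ∧ Continuous δ ∧
            γ 0 = ρ₀ ∧ γ 1 = ρ₁ ∧ δ 0 = x₀ ∧ δ 1 = x₁ ∧
            ∀ t ∈ Set.Icc (0 : ℝ) 1,
              γ t ∈ Matrix.specialOrthogonalGroup (Fin d) ℝ ∧
              (fun v => Matrix.toEuclideanLin (γ t) v + δ t) '' S ⊆ K := by
  have mem : ∀ (t : ℝ) (b : E), 0 ≤ t → t ≤ 1 → ‖b‖ ≤ 1 →
      t • e 0 + b ∈ segment ℝ 0 (e 0) + closedBall (0 : E) 1 := fun t b h0 h1 hb =>
    ⟨t • e 0, ⟨1 - t, t, by linarith, h0, by ring, by simp⟩, b, by simpa using hb, rfl⟩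
  have mem' : ∀ z ∈ segment ℝ 0 (e 0) + closedBall (0 : E) 1, ∃ (t : ℝ) (b : E), 0 ≤ t ∧ t ≤ 1 ∧
      ‖b‖ ≤ 1 ∧ z = t • e 0 + b := by
    rintro _ ⟨_, ⟨s, t, hs, ht, hst, rfl⟩, b, hb, rfl⟩
    exact ⟨t, b, ht, by linarith, by simpa using hb, by simp⟩
  have ne : ∀ i, ‖e i‖ = 1 := fun i => by simp [e]
  refine ⟨3, le_rfl, segment ℝ 0 (e 0) + closedBall 0 1,
    (convex_segment _ _).add (convex_closedBall _ _), IsCompact.add ?_ (isCompact_closedBall _ _),
    ⟨_, mem 0 0 le_rfl zero_le_one (by simp)⟩, ?_, ?_, ?_, ?_⟩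
  · rw [segment_eq_image]
    exact isCompact_Icc.image (by fun_prop)
  · rintro ⟨a, h⟩
    have h0 := mem 0 0 le_rfl zero_le_one (by simp)
    have h1 := mem 1 0 zero_le_one le_rfl (by simp)
    rw [h, mem_singleton_iff] at h0 h1
    have := congrArg (fun z : E => z 0) (h0.trans h1.symm)
    simp [e] at this
  · rintro ⟨a, b, -, h⟩
    have h0 := mem 0 (e 1) le_rfl zero_le_one (ne 1).le
    have h1 := mem 0 (-e 1) le_rfl zero_le_one (by rw [norm_neg, ne])
    have h2 := mem 0 (e 2) le_rfl zero_le_one (ne 2).le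
    rw [h, segment_eq_image] at h0 h1 h2
    obtain ⟨s0, -, h0⟩ := h0
    obtain ⟨s1, -, h1⟩ := h1
    obtain ⟨s2, -, h2⟩ := h2
    have a1 := congrArg (fun z : E => z 1) h0
    have a2 := congrArg (fun z : E => z 2) h0
    have b1 := congrArg (fun z : E => z 1) h1
    have b2 := congrArg (fun z : E => z 2) h1
    have c2 := congrArg (fun z : E => z 2) h2
    simp [e] at a1 a2 b1 b2 c2
    have k1 : (s0 - s1) * (b 1 - a 1) = 2 := by linarith
    have k2 : (s0 - s1) * (b 2 - a 2) = 0 := by linarith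
    have k3 : (s2 - s0) * (b 2 - a 2) = 1 := by linarith
    rcases mul_eq_zero.1 k2 with k | k
    · rw [k] at k1; norm_num at k1
    · rw [k] at k3; norm_num at k3
  · rintro ⟨c, r, hr, h⟩
    have h0 := mem 0 (-e 0) le_rfl zero_le_one (by rw [norm_neg, ne])
    have h1 := mem 1 (e 0) zero_le_one le_rfl (ne 0).le
    rw [h, mem_closedBall, dist_eq_norm] at h0 h1
    have a0 := (PiLp.norm_apply_le _ 0).trans h0
    have a1 := (PiLp.norm_apply_le _ 0).trans h1
    have k : ∀ σ : ℝ, |σ| = r → |c 1 + σ| ≤ 1 := fun σ hσ => by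
      obtain ⟨t, b, -, -, hb, hz⟩ := mem' (c + σ • e 1) (by
        rw [h, mem_closedBall, dist_eq_norm, add_sub_cancel_left, norm_smul, ne, mul_one]
        exact hσ.le)
      have := congrArg (fun z : E => z 1) hz
      simp [e] at this
      rw [this]
      exact (PiLp.norm_apply_le b 1).trans hb
    have b0 := abs_le.1 (k r (abs_of_pos hr))
    have b1 := abs_le.1 (k (-r) (by rw [abs_neg, abs_of_pos hr]))
    simp only [e, Real.norm_eq_abs, abs_le] at a0 a1
    simp at a0 a1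
    linarith [a0.1, a1.2, b0.2, b1.1]
  intro K hc hK _ hall ρ₀ ρ₁ x₀ x₁ h₀ h₁ k₀ k₁
  let K' : Set E := {z | ∀ b : E, ‖b‖ ≤ 1 → z + b ∈ K}
  have c' : Convex ℝ K' := fun x hx y hy s t hs ht hst b hb => by
    have := hc (hx b hb) (hy b hb) hs ht hst
    rwa [show s • (x + b) + t • (y + b) = s • x + t • y + (s + t) • b by module, hst, one_smul] at this
  have cK' : IsCompact K' := by
    refine hK.of_isClosed_subset ?_ fun z hz => by simpa using hz 0 (by simp)
    simp only [K', ofPred_forall]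
    exact isClosed_iInter fun b => isClosed_iInter fun _ => hK.isClosed.preimage (by fun_prop)
  have down : ∀ ρ ∈ Matrix.specialOrthogonalGroup (Fin 3) ℝ, ∀ x : E,
      (fun v => Matrix.toEuclideanLin ρ v + x) '' (segment ℝ 0 (e 0) + closedBall 0 1) ⊆ K →
      x ∈ K' ∧ x + Matrix.toEuclideanLin ρ (e 0) ∈ K' := by
    intro ρ hρ x h
    constructor <;> intro b hb <;> obtain ⟨b', rfl⟩ := iso_surj hρ b <;> rw [iso_norm hρ] at hb
    · exact h ⟨_, mem 0 b' le_rfl zero_le_one hb, by simp [add_comm]⟩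
    · exact h ⟨_, mem 1 b' zero_le_one le_rfl hb, by simp only [one_smul, map_add]; abel⟩
  have st : ∀ ρ ∈ Matrix.specialOrthogonalGroup (Fin 3) ℝ, ∀ x : E,
      (fun v => Matrix.toEuclideanLin ρ v + x) '' (segment ℝ 0 (e 0) + closedBall 0 1) ⊆ K →
      ((x, x + Matrix.toEuclideanLin ρ (e 0)), Matrix.toEuclideanLin ρ (e 1)) ∈ St K' := by
    intro ρ hρ x h
    refine ⟨(down ρ hρ x h).1, (down ρ hρ x h).2, ?_, ?_, ?_⟩
    · simp only [add_sub_cancel_left, iso_norm hρ, ne, le_rfl]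
    · simp only [iso_norm hρ, ne]
    · simp only [add_sub_cancel_left, iso hρ]
      simp [e, EuclideanSpace.inner_single_left]
  have kak : ∀ v : E, ‖v‖ = 1 → ∃ x ∈ K', x + v ∈ K' := by
    intro v hv
    obtain ⟨w, w1, w2, -⟩ := ex_perp v v
    obtain ⟨x, hx⟩ := hall _ (M_mem hv w1 w2)
    have := down _ (M_mem hv w1 w2) x hx
    rw [M_e0] at this
    exact ⟨x, this⟩
  obtain ⟨p, hp⟩ := connect cK' c' kak (st ρ₀ h₀ x₀ k₀) (st ρ₁ h₁ x₁ k₁)
  have hq : ∀ t, p.extend t ∈ St K' := fun t => by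
    obtain ⟨s, hs⟩ : p.extend t ∈ range p := p.extend_range ▸ mem_range_self t
    exact hs ▸ hp s
  have cq := p.continuous_extend
  have q0 := p.extend_zero
  have q1 := p.extend_one
  generalize (p.extend : ℝ → (E × E) × E) = q at hq cq q0 q1
  have cv : Continuous fun t => ‖(q t).1.2 - (q t).1.1‖⁻¹ • ((q t).1.2 - (q t).1.1) :=
    (Continuous.inv₀ (f := fun t => ‖(q t).1.2 - (q t).1.1‖) (by fun_prop)
      fun t => by linarith [(hq t).2.2.1]).smul (g := fun t => (q t).1.2 - (q t).1.1) (by fun_prop)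
  refine ⟨fun t => M (‖(q t).1.2 - (q t).1.1‖⁻¹ • ((q t).1.2 - (q t).1.1)) (q t).2, fun t => (q t).1.1,
    ?_, by fun_prop, ?_, ?_, by simp only [q0], by simp only [q1], fun t _ => ?_⟩
  · have : Continuous fun z : E × E => M z.1 z.2 := by
      refine continuous_matrix fun i j => ?_
      fin_cases i <;> fin_cases j <;> simp [M] <;> fun_prop
    exact this.comp (cv.prodMk cq.snd)
  · simp only [q0, add_sub_cancel_left, iso_norm h₀, ne, inv_one, one_smul, M_eq h₀]
  · simp only [q1, add_sub_cancel_left, iso_norm h₁, ne, inv_one, one_smul, M_eq h₁]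
  · obtain ⟨a1, a2, a3, a4, a5⟩ := hq t
    have hv : ‖‖(q t).1.2 - (q t).1.1‖⁻¹ • ((q t).1.2 - (q t).1.1)‖ = 1 :=
      norm_smul_inv_norm (norm_pos_iff.1 (by linarith))
    have hM := M_mem hv a4 (by rw [real_inner_smul_left, a5, mul_zero])
    refine ⟨hM, ?_⟩
    rintro _ ⟨z, hz, rfl⟩
    obtain ⟨s, b, s0, s1, hb, rfl⟩ := mem' z hz
    have i0 : 0 ≤ s * ‖(q t).1.2 - (q t).1.1‖⁻¹ := by positivity
    have i1 : s * ‖(q t).1.2 - (q t).1.1‖⁻¹ ≤ 1 :=
      mul_le_one₀ s1 (by positivity) (inv_le_one_of_one_le₀ a3)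
    have := c' a1 a2 (sub_nonneg.2 i1) i0 (by ring) _ ((iso_norm hM b).trans_le hb)
    simp only [map_add, map_smul, M_e0]
    refine (congrArg (· ∈ K) ?_).mp this
    module

end Pool.Agent.S13555
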