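import Pool.Statements.S13559
import Pool.Agent.H30.SplG

set_option autoImplicit false
open Pool Pool.MP_8e7252_gt

namespace Pool.Agent.S13559

/-- If a compact Hausdorff X is splittable over Eberlein compacta (every subset A is f⁻¹f(A) for some continuous f onto a space embedding in c₀(Γ) pointwise), then so is every Hausdorff continuous image of X. -/
theorem result :
    ∀ (X : Type) [TopologicalSpace X] [CompactSpace X] [T2Space X],
      (∀ A : Set X, ∃ (Y : Type) (_ : TopologicalSpace Y) (f : X → Y),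
        Continuous f ∧ CompactSpace Y ∧
        (∃ (Γ : Type) (e : Y → Γ → ℝ), Topology.IsEmbedding e ∧
          ∀ y : Y, ∀ ε : ℝ, 0 < ε → {γ : Γ | ε ≤ |e y γ|}.Finite) ∧
        f ⁻¹' (f '' A) = A) →
      ∀ (Z : Type) [TopologicalSpace Z] [T2Space Z] (g : X → Z),
        Continuous g → Function.Surjective g →
        ∀ B : Set Z, ∃ (Y : Type) (_ : TopologicalSpace Y) (f : Z → Y),
          Continuous f ∧ CompactSpace Y ∧
          (∃ (Γ : Type) (e : Y → Γ → ℝ), Topology.IsEmbedding e ∧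
            ∀ y : Y, ∀ ε : ℝ, 0 < ε → {γ : Γ | ε ≤ |e y γ|}.Finite) ∧
          f ⁻¹' (f '' B) = B := by
  intro X _ _ _ h Z _ _ g hg hs B
  obtain ⟨Γ, e, he, -, h1⟩ := Pool.Agent.H30.Spl.eb_of_split (X := X) fun A => by
    obtain ⟨Y, _, f, hf, -, ⟨Γ, e, he, h1⟩, hA⟩ := h A
    exact ⟨Γ, e ∘ f, he.continuous.comp hf, fun x ε hε => (h1 (f x) ε hε).subset fun γ hγ =>
      Set.mem_setOf_eq ▸ le_of_lt (show ε < |e (f x) γ| from hγ),
      fun x y hxy => Pool.Agent.H30.Spl.iff_of_split hA (he.injective hxy)⟩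
  have h2 : CompactSpace Z := ⟨by rw [← hs.range_eq]; exact isCompact_range hg⟩
  exact ⟨Z, inferInstance, id, continuous_id, h2, Pool.Agent.H30.Spl.brw e he h1 hg hs, by simp⟩

end Pool.Agent.S13559
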