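import Pool.Statements.S13565
import Pool.Agent.H30.TauA

set_option autoImplicit false
open Pool Pool.MP_8f5cd4_gt

namespace Pool.Agent.S13565

/-- Every set of reals X with S1(Ω,T) also has the Hurewicz property. S1(Ω,T): from each open ω-cover in a sequence one can pick one set so the picks form a τ-cover. Hurewicz: any sequence of open covers has finite pieces eventually covering each point. -/
theorem result :
    ∀ X : Set ℝ,
      (∀ U : ℕ → Set (Set X),
        (∀ n, (∀ V ∈ U n, IsOpen V) ∧ (Set.univ : Set X) ∉ U n ∧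
            ∀ F : Finset X, ∃ V ∈ U n, (↑F : Set X) ⊆ V) →
        ∃ f : ℕ → Set X, (∀ n, f n ∈ U n) ∧
          ((∀ V ∈ Set.range f, IsOpen V) ∧ (Set.univ : Set X) ∉ Set.range f ∧
            (∀ x : X, {W : Set X | W ∈ Set.range f ∧ x ∈ W}.Infinite) ∧
            ∀ x y : X,
              ({W : Set X | W ∈ Set.range f ∧ x ∈ W} \
                  {W : Set X | W ∈ Set.range f ∧ y ∈ W}).Finite ∨
              ({W : Set X | W ∈ Set.range f ∧ y ∈ W} \
                  {W : Set X | W ∈ Set.range f ∧ x ∈ W}).Finite)) →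
      ∀ U : ℕ → Set (Set X),
        (∀ n, (∀ V ∈ U n, IsOpen V) ∧ ⋃₀ U n = Set.univ) →
        ∃ F : ℕ → Finset (Set X), (∀ n, (↑(F n) : Set (Set X)) ⊆ U n) ∧
          ∀ x : X, ∀ᶠ n in Filter.atTop, x ∈ ⋃₀ (↑(F n) : Set (Set X)) := by
  intro X h U hU
  have h1 : Pool.Agent.H30.Tau.S1 (Z := X) Pool.Agent.H30.Tau.Ga Pool.Agent.H30.Tau.Ta := fun 𝒰 h1 => by
    have h0 : Nonempty X := by
      by_contra h0
      have := not_nonempty_iff.1 h0
      exact (h1 0).2.1 (Set.toFinite _)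
    obtain ⟨f, h2, h3, h4, h5, h6⟩ := h 𝒰 fun n =>
      ⟨(h1 n).1.1, (h1 n).1.2.1, fun F => (h1 n).ta.om.2 _ F.finite_toSet⟩
    exact ⟨f, h2, Pool.Agent.H30.Tau.oc_of h3 h4 h5, h5, fun x y => (h6 x y).imp
      (fun e => e.subset fun V hV => ⟨⟨hV.1, hV.2.1⟩, fun e => hV.2.2 e.2⟩)
      fun e => e.subset fun V hV => ⟨⟨hV.1, hV.2.1⟩, fun e => hV.2.2 e.2⟩⟩
  obtain ⟨F, h2, h3⟩ := (Pool.Agent.H30.Tau.gg_of h1).hur U hU
  exact ⟨fun n => (h2 n).1.toFinset, fun n => by simpa using (h2 n).2, fun x => by simpa using h3 x⟩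

end Pool.Agent.S13565
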