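import Pool.Statements.S13580

set_option autoImplicit false
open Pool Pool.MP_925f0d_gt

namespace Pool.Agent.S13580

noncomputable def rot (s : ℝ) (x : Fin 3 → ℝ) : Fin 3 → ℝ :=
  ![Real.cos (s * x 2) * x 0 - Real.sin (s * x 2) * x 1,
    Real.sin (s * x 2) * x 0 + Real.cos (s * x 2) * x 1, x 2]

lemma rot_cont (s : ℝ) : Continuous (rot s) := by
  refine continuous_pi fun i => ?_
  fin_cases i
  · show Continuous fun x : Fin 3 → ℝ => Real.cos (s * x 2) * x 0 - Real.sin (s * x 2) * x 1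
    fun_prop
  · show Continuous fun x : Fin 3 → ℝ => Real.sin (s * x 2) * x 0 + Real.cos (s * x 2) * x 1
    fun_prop
  · show Continuous fun x : Fin 3 → ℝ => x 2
    fun_prop

lemma rot_add (s t : ℝ) (x : Fin 3 → ℝ) : rot s (rot t x) = rot (s + t) x := by
  funext i
  fin_cases i
  · simp [rot, add_mul, Real.cos_add, Real.sin_add]; ring
  · simp [rot, add_mul, Real.cos_add, Real.sin_add]; ring
  · simp [rot]

lemma rot_zero (x : Fin 3 → ℝ) : rot 0 x = x := by
  funext i
  fin_cases i <;> simp [rot]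

lemma rot_smul (s c : ℝ) (x : Fin 3 → ℝ) : rot s (c • x) = c • rot (s * c) x := by
  funext i
  fin_cases i
  · simp [rot, mul_assoc]; ring
  · simp [rot, mul_assoc]; ring
  · simp [rot]

noncomputable def rotH : (Fin 3 → ℝ) ≃ₜ (Fin 3 → ℝ) where
  toFun := rot 1
  invFun := rot (-1)
  left_inv x := by rw [rot_add]; simp [rot_zero]
  right_inv x := by rw [rot_add]; simp [rot_zero]
  continuous_toFun := rot_cont 1
  continuous_invFun := rot_cont (-1)

/-- The negation of the preceding statement: For k≥3, every continuous self-map φ of the one-point compactification of ℝ^k with (1−z)φ(x)=φ(φ(zx)(1−z)/z) for real z≠0,1 is the identity, constant 0, constant ∞, or conjugate by a 1-homogeneous homeomorphism to φ_1 or some φ_∞ with d≠0, Σd=0. -/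
theorem result :
    ¬ (∀ k : ℕ, 3 ≤ k → ∀ φ : OnePoint (Fin k → ℝ) → OnePoint (Fin k → ℝ), Continuous φ →
    (∀ (x : Fin k → ℝ) (z : ℝ), z ≠ 0 → z ≠ 1 →
      (Option.map (fun v : Fin k → ℝ => (1 - z) • v) (φ (OnePoint.some x)) : OnePoint (Fin k → ℝ)) =
        φ (Option.map (fun v : Fin k → ℝ => ((1 - z) / z) • v) (φ (OnePoint.some (z • x))))) →
    (∀ p, φ p = p) ∨ (∀ p, φ p = OnePoint.some 0) ∨ (∀ p, φ p = OnePoint.infty) ∨
    ∃ ℓ : (Fin k → ℝ) ≃ₜ (Fin k → ℝ), (∀ (c : ℝ) (x : Fin k → ℝ), ℓ (c • x) = c • ℓ x) ∧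
      ((∀ x : Fin k → ℝ, φ (OnePoint.some (ℓ x)) =
          if ∑ i, (x i + 1) ^ 2 = 0 then OnePoint.infty
          else OnePoint.some (ℓ (fun j => (∑ i, x i ^ 2 + (k : ℝ) * x j) / ∑ i, (x i + 1) ^ 2))) ∨
       ∃ d : Fin k → ℝ, d ≠ 0 ∧ ∑ i, d i = 0 ∧
         ∀ x : Fin k → ℝ, φ (OnePoint.some (ℓ x)) =
           OnePoint.some (ℓ (fun j => d j * (∑ i, x i) ^ 2 + x j)))) := by
  intro H
  have hφ : ∀ x : Fin 3 → ℝ, rotH.onePointCongr (OnePoint.some x) = OnePoint.some (rot 1 x) :=
    fun x => rfl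
  have hpi : rot 1 ![1 / 2, 0, Real.pi] ≠ ![1 / 2, 0, Real.pi] := by
    intro h
    have := congrFun h 0
    simp [rot] at this
    linarith
  rcases H 3 le_rfl rotH.onePointCongr rotH.onePointCongr.continuous (by
    intro x z hz _
    rw [hφ, hφ]
    show OnePoint.some ((1 - z) • rot 1 x) =
      rotH.onePointCongr (OnePoint.some (((1 - z) / z) • rot 1 (z • x)))
    rw [hφ, rot_smul 1 z, smul_smul, div_mul_cancel₀ _ hz, rot_smul, rot_add]
    congr 3
    ring) with h | h | h | ⟨l, hl, h | ⟨d, hd, _, h⟩⟩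
  · have := h (OnePoint.some ![1 / 2, 0, Real.pi])
    rw [hφ] at this
    exact hpi (OnePoint.coe_injective this)
  · have := h (OnePoint.some ![0, 0, 1])
    rw [hφ] at this
    have := congrFun (OnePoint.coe_injective this) 2
    simp [rot] at this
  · have := h (OnePoint.some 0)
    rw [hφ] at this
    exact OnePoint.coe_ne_infty _ this
  · have := h (fun _ => -1)
    rw [hφ, if_pos (by simp)] at this
    exact OnePoint.coe_ne_infty _ this
  · obtain ⟨x, hx⟩ := l.surjective ![1, 0, 2 * Real.pi]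
    have h1 := h x
    rw [hφ, hx] at h1
    have h2 : rot 1 ![1, 0, 2 * Real.pi] = ![1, 0, 2 * Real.pi] := by
      funext i
      fin_cases i <;> simp [rot]
    rw [h2, ← hx] at h1
    have h3 := l.injective (OnePoint.coe_injective h1)
    have h4 : ∑ i, x i = 0 := by
      by_contra hne
      apply hd
      funext j
      have := congrFun h3 j
      have h5 : d j * (∑ i, x i) ^ 2 = 0 := by linarith
      rcases mul_eq_zero.1 h5 with h6 | h6
      · exact h6
      · exact absurd (pow_eq_zero_iff two_ne_zero |>.1 h6) hne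
    have h5 := h ((1 / 2 : ℝ) • x)
    have h6 : ∑ i, ((1 / 2 : ℝ) • x) i = 0 := by
      simp only [Pi.smul_apply, smul_eq_mul, ← Finset.mul_sum, h4, mul_zero]
    have h7 : (fun j => d j * (∑ i, ((1 / 2 : ℝ) • x) i) ^ 2 + ((1 / 2 : ℝ) • x) j) =
        (1 / 2 : ℝ) • x := by
      funext j
      rw [h6]; simp
    have h8 : l ((1 / 2 : ℝ) • x) = ![1 / 2, 0, Real.pi] := by
      rw [hl, hx]
      funext i
      fin_cases i <;> simp
    rw [h7, hφ, h8] at h5
    exact hpi (OnePoint.coe_injective h5)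

end Pool.Agent.S13580
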