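import Pool.Statements.S13589
import Pool.Agent.H3.St6

set_option autoImplicit false
open Pool Pool.MP_93ef73_gt

namespace Pool.Agent.S13589

open Pool.Agent.H3.St Set MeasureTheory

noncomputable def pA (s : ℝ) : Fin 5 → E :=
  ![pt (300 * s) (300 * s), pt (300 * s + 1) (300 * s + s), pt (-(300 * s)) (300 * s),
    pt (-(300 * s)) (-(300 * s)), pt (300 * s) (-(300 * s))]

noncomputable def pM (s : ℝ) : Fin 5 → E :=
  ![pt (-(300 * s) + 150) (150 * s), pt (300 * s + 2) (300 * s + 2 * s),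
    pt (-(300 * s) - 1) (300 * s + s), pt (-(300 * s) - 1) (-(300 * s) - s),
    pt (300 * s + 1) (-(300 * s) - s)]

noncomputable def SS (s : ℝ) : Set E :=
  tree5 (pt (300 * s + 1) (300 * s + s)) (pt (300 * s) (-(300 * s))) (pt (-(300 * s)) (300 * s))
    (pt (-(300 * s)) (-(300 * s))) (pt (300 * s - 300) 0) (pt (-(300 * s) + 300) 0)

noncomputable def TT (s : ℝ) : Set E :=
  tree5 (pt (300 * s) (300 * s)) (pt (-(300 * s)) (300 * s)) (pt (300 * s) (-(300 * s)))
    (pt (-(300 * s)) (-(300 * s))) (pt 0 (300 * s - 300)) (pt 0 (-(300 * s) + 300)) ∪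
  segment ℝ (pt (300 * s) (300 * s)) (pt (300 * s + 1) (300 * s + s))

theorem SS_len {s : ℝ} (hs : s * s = 3) (hs1 : 173 / 100 < s) :
    Measure.hausdorffMeasure 1 (SS s) ≤ ENNReal.ofReal (1802 + 600 * s) := by
  refine (tree5_len _ _ _ _ _ _).trans (ENNReal.ofReal_le_ofReal ?_)
  rw [dist_pt _ _ _ _ (600 * s - 600) (by linarith) (by ring),
    dist_pt _ _ _ _ 602 (by norm_num) (by linarith), dist_pt _ _ _ _ 600 (by norm_num) (by linarith),
    dist_pt _ _ _ _ 600 (by norm_num) (by linarith), dist_pt _ _ _ _ 600 (by norm_num) (by linarith)]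
  linarith

theorem TT_len {s : ℝ} (hs : s * s = 3) (hs1 : 173 / 100 < s) :
    Measure.hausdorffMeasure 1 (TT s) ≤ ENNReal.ofReal (1802 + 600 * s) := by
  refine (measure_union_le _ _).trans ((add_le_add_left (tree5_len _ _ _ _ _ _) _).trans ?_)
  rw [hausdorffMeasure_segment, edist_dist, ← ENNReal.ofReal_add (by positivity) dist_nonneg]
  refine ENNReal.ofReal_le_ofReal ?_
  rw [dist_pt _ _ _ _ (600 * s - 600) (by linarith) (by ring),
    dist_pt _ _ _ _ 600 (by norm_num) (by linarith), dist_pt _ _ _ _ 600 (by norm_num) (by linarith),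
    dist_pt _ _ _ _ 600 (by norm_num) (by linarith), dist_pt _ _ _ _ 600 (by norm_num) (by linarith),
    dist_pt _ _ _ _ 2 (by norm_num) (by linarith)]
  linarith

theorem A_sub_S (s : ℝ) (i : Fin 5) : pA s i ∈ SS s := by
  obtain ⟨a, b, c, d, -⟩ := tree5_mem (pt (300 * s + 1) (300 * s + s)) (pt (300 * s) (-(300 * s)))
    (pt (-(300 * s)) (300 * s)) (pt (-(300 * s)) (-(300 * s))) (pt (300 * s - 300) 0)
    (pt (-(300 * s) + 300) 0)
  fin_cases i
  · exact Or.inl (Or.inl (Or.inl (Or.inr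
      (seg_mem (300 / 301) (by norm_num) (by norm_num) (by ring) (by ring)))))
  · exact a
  · exact c
  · exact d
  · exact b

theorem A_sub_T (s : ℝ) (i : Fin 5) : pA s i ∈ TT s := by
  obtain ⟨a, b, c, d, -⟩ := tree5_mem (pt (300 * s) (300 * s)) (pt (-(300 * s)) (300 * s))
    (pt (300 * s) (-(300 * s))) (pt (-(300 * s)) (-(300 * s))) (pt 0 (300 * s - 300))
    (pt 0 (-(300 * s) + 300))
  fin_cases i
  · exact Or.inl a
  · exact Or.inr (right_mem_segment ℝ _ _)
  · exact Or.inl b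
  · exact Or.inl d
  · exact Or.inl c

theorem lowA {s : ℝ} (hs : s * s = 3) (hs1 : 173 / 100 < s) (S : Set E) (hS : IsConnected S)
    (h : range (pA s) ⊆ S) : ENNReal.ofReal (1802 + 600 * s) ≤ Measure.hausdorffMeasure 1 S :=
  lbA s hs hs1 S hS (pA s) (fun t => h ⟨t, rfl⟩) (dist_self _).le (dist_self _).le (dist_self _).le
    (dist_self _).le (dist_self _).le

theorem lowM {s : ℝ} (hs : s * s = 3) (hs1 : 173 / 100 < s) (S : Set E) (hc : IsCompact S)
    (hS : IsConnected S) (h : ∀ y ∈ range (pM s), Metric.infDist y S ≤ 2) :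
    ENNReal.ofReal (1802 + 600 * s) ≤ Measure.hausdorffMeasure 1 S := by
  have g : ∀ t, ∃ p ∈ S, dist (pM s t) p ≤ 2 := fun t => by
    obtain ⟨p, hp, e⟩ := hc.exists_infDist_eq_dist hS.nonempty (pM s t)
    exact ⟨p, hp, e ▸ h _ ⟨t, rfl⟩⟩
  choose p hp hd using g
  exact lbM s hs hs1 S hS p hp (hd 0) (hd 1) (hd 2) (hd 3) (hd 4)

theorem cover {s : ℝ} (hs : s * s = 3) (i : Fin 5) : Metric.infDist (pM s i) (SS s) ≤ 2 := by
  fin_cases i
  · have : pt (-(300 * s) + 150) (150 * s) ∈ SS s := Or.inl (Or.inr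
      (seg_mem (1 / 2) (by norm_num) (by norm_num) (by ring) (by ring)))
    exact (Metric.infDist_zero_of_mem this).trans_le (by norm_num)
  · exact (Metric.infDist_le_dist_of_mem (A_sub_S s 1)).trans
      (dist_pt _ _ _ _ 2 (by norm_num) (by linarith)).le
  · exact (Metric.infDist_le_dist_of_mem (A_sub_S s 2)).trans
      (dist_pt _ _ _ _ 2 (by norm_num) (by linarith)).le
  · exact (Metric.infDist_le_dist_of_mem (A_sub_S s 3)).trans
      (dist_pt _ _ _ _ 2 (by norm_num) (by linarith)).le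
  · exact (Metric.infDist_le_dist_of_mem (A_sub_S s 4)).trans
      (dist_pt _ _ _ _ 2 (by norm_num) (by linarith)).le

theorem ne {s : ℝ} (hs1 : 173 / 100 < s) : SS s ≠ TT s := by
  intro h
  have hz : pt (300 * s - 300) 0 ∈ TT s := h ▸ (tree5_mem _ _ _ _ _ _).2.2.2.2
  rcases hz with ((((h | h) | h) | h) | h) | h <;> obtain ⟨t, t0, t1, e0, e1⟩ := mem_seg h <;>
    simp only [pt0, pt1] at e0 e1 <;> nlinarith

theorem inj {s : ℝ} (hs1 : 173 / 100 < s) :
    Function.Injective (pA s) ∧ Function.Injective (pM s) := by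
  constructor <;> intro i j h <;> have h0 := congrArg (fun z : E => z 0) h <;>
    have h1 := congrArg (fun z : E => z 1) h <;> fin_cases i <;> fin_cases j <;>
    first
    | rfl
    | (exfalso; simp only [pA, pM, Matrix.cons_val, Matrix.cons_val_zero, Matrix.cons_val_one,
        Fin.zero_eta, Fin.mk_one, Fin.reduceFinMk, pt0, pt1] at h0 h1; linarith)

theorem coord {x y a : E} (h : a ∈ openSegment ℝ x y) : ∃ u v : ℝ, 0 < u ∧ 0 < v ∧ u + v = 1 ∧
    a 0 = u * x 0 + v * y 0 ∧ a 1 = u * x 1 + v * y 1 := by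
  obtain ⟨u, v, hu, hv, huv, rfl⟩ := h
  exact ⟨u, v, hu, hv, huv, by simp, by simp⟩

theorem extreme (S : Set E) (a b α β : ℝ)
    (h : ∀ z ∈ S, α * z 0 + β * z 1 ≤ α * a + β * b ∧
      (α * a + β * b ≤ α * z 0 + β * z 1 → z 0 = a ∧ z 1 = b)) :
    ¬ ∃ x y : E, x ≠ y ∧ segment ℝ x y ⊆ S ∧ pt a b ∈ openSegment ℝ x y := by
  rintro ⟨x, y, hxy, hs, ho⟩
  obtain ⟨u, v, hu, hv, huv, e0, e1⟩ := coord ho
  obtain ⟨x1, x2⟩ := h x (hs (left_mem_segment ℝ _ _))
  obtain ⟨y1, y2⟩ := h y (hs (right_mem_segment ℝ _ _))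
  simp only [pt0, pt1] at e0 e1
  have e : u * (α * a + β * b - (α * x 0 + β * x 1)) + v * (α * a + β * b - (α * y 0 + β * y 1))
      = 0 := by
    have : α * a + β * b = (u + v) * (α * a + β * b) := by rw [huv, one_mul]
    have h2 : α * a + β * b = α * (u * x 0 + v * y 0) + β * (u * x 1 + v * y 1) := by
      rw [← e0, ← e1]
    linarith
  have a1 := mul_nonneg hu.le (sub_nonneg.2 x1)
  have a2 := mul_nonneg hv.le (sub_nonneg.2 y1)
  have b1 := (mul_eq_zero.1 (show u * (α * a + β * b - (α * x 0 + β * x 1)) = 0 by linarith)).resolve_left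
    hu.ne'
  have b2 := (mul_eq_zero.1 (show v * (α * a + β * b - (α * y 0 + β * y 1)) = 0 by linarith)).resolve_left
    hv.ne'
  obtain ⟨c0, c1⟩ := x2 (by linarith)
  obtain ⟨d0, d1⟩ := y2 (by linarith)
  exact hxy ((eq_pt x a b c0 c1).trans (eq_pt y a b d0 d1).symm)

theorem Tcorner {s : ℝ} (hs1 : 173 / 100 < s) (z : E) (hz : z ∈ TT s) (a : z 1 ≤ z 0) (b : 0 < z 1) :
    z 0 = 300 * s ∧ z 1 = 300 * s := by
  rcases hz with ((((h | h) | h) | h) | h) | h <;> obtain ⟨t, t0, t1, e0, e1⟩ := mem_seg h <;>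
    have k1 := mul_nonneg t0 (sub_nonneg.2 hs1.le) <;>
    have k2 := mul_nonneg (sub_nonneg.2 t1) (sub_nonneg.2 hs1.le)
  · exfalso; linarith
  · have : t = 1 := by linarith
    subst this; constructor <;> linarith
  · exfalso; linarith
  · exfalso; linarith
  · exfalso; linarith
  · have : t = 0 := by linarith
    subst this; constructor <;> linarith

theorem Thalf {s : ℝ} (hs1 : 173 / 100 < s) (w : E)
    (h : segment ℝ (pt (300 * s) (300 * s)) w ⊆ TT s) (a : w 1 ≤ w 0) :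
    w 0 = 300 * s ∧ w 1 = 300 * s := by
  by_cases b : 0 < w 1
  · exact Tcorner hs1 w (h (right_mem_segment ℝ _ _)) a b
  exfalso
  have hd : 0 < 300 * s - w 1 := by linarith
  have t0 : 0 ≤ 150 * s / (300 * s - w 1) := div_nonneg (by linarith) hd.le
  have t1 : 150 * s / (300 * s - w 1) ≤ 1 := (div_le_one hd).2 (by linarith)
  have e : 150 * s / (300 * s - w 1) * (300 * s - w 1) = 150 * s := div_mul_cancel₀ _ hd.ne'
  set t := 150 * s / (300 * s - w 1)
  rw [eq_pt w (w 0) (w 1) rfl rfl] at h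
  have := Tcorner hs1 _ (h (seg_mem t t0 t1 rfl rfl))
    (by simp only [pt0, pt1]; nlinarith [mul_nonneg t0 (sub_nonneg.2 a)])
    (by simp only [pt1]; linarith)
  simp only [pt0, pt1] at this
  linarith [this.2]

theorem Tnot {s : ℝ} (hs1 : 173 / 100 < s) :
    ¬ ∃ x y : E, x ≠ y ∧ segment ℝ x y ⊆ TT s ∧ pt (300 * s) (300 * s) ∈ openSegment ℝ x y := by
  rintro ⟨x, y, hxy, hs, ho⟩
  obtain ⟨u, v, hu, hv, huv, e0, e1⟩ := coord ho
  simp only [pt0, pt1] at e0 e1
  have hq := openSegment_subset_segment ℝ x y ho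
  have e : (300 : ℝ) * s = (u + v) * (300 * s) := by rw [huv, one_mul]
  apply hxy
  rcases le_total (x 1) (x 0) with h | h
  · obtain ⟨a, b⟩ := Thalf hs1 x
      (((convex_segment x y).segment_subset hq (left_mem_segment ℝ _ _)).trans hs) h
    rw [a] at e0; rw [b] at e1
    exact (eq_pt x _ _ a b).trans (eq_pt y _ _ (mul_left_cancel₀ hv.ne' (by linarith))
      (mul_left_cancel₀ hv.ne' (by linarith))).symm
  · have h' : y 1 ≤ y 0 := by
      have := mul_nonneg hu.le (sub_nonneg.2 h)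
      exact le_of_mul_le_mul_left (by linarith) hv
    obtain ⟨a, b⟩ := Thalf hs1 y
      (((convex_segment x y).segment_subset hq (right_mem_segment ℝ _ _)).trans hs) h'
    rw [a] at e0; rw [b] at e1
    exact (eq_pt x _ _ (mul_left_cancel₀ hu.ne' (by linarith))
      (mul_left_cancel₀ hu.ne' (by linarith))).trans (eq_pt y _ _ a b).symm

theorem e1 {s : ℝ} (hs1 : 173 / 100 < s) :
    ¬ ∃ x y : E, x ≠ y ∧ segment ℝ x y ⊆ SS s ∧ pt (300 * s + 1) (300 * s + s) ∈ openSegment ℝ x y := by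
  refine extreme _ _ _ (1) (1) fun z hz => ?_
  rcases hz with (((h | h) | h) | h) | h <;> obtain ⟨t, t0, t1, e0, e1⟩ := mem_seg h <;>
    have k1 := mul_nonneg t0 (sub_nonneg.2 hs1.le) <;>
    have k2 := mul_nonneg (sub_nonneg.2 t1) (sub_nonneg.2 hs1.le) <;>
    refine ⟨by linarith, fun h => ?_⟩ <;> have : t = 1 := by linarith
  all_goals
    subst this
    constructor <;> linarith

theorem e2 {s : ℝ} (hs1 : 173 / 100 < s) :
    ¬ ∃ x y : E, x ≠ y ∧ segment ℝ x y ⊆ SS s ∧ pt (-(300 * s)) (300 * s) ∈ openSegment ℝ x y := by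
  refine extreme _ _ _ (-1) (1) fun z hz => ?_
  rcases hz with (((h | h) | h) | h) | h <;> obtain ⟨t, t0, t1, e0, e1⟩ := mem_seg h <;>
    have k1 := mul_nonneg t0 (sub_nonneg.2 hs1.le) <;>
    have k2 := mul_nonneg (sub_nonneg.2 t1) (sub_nonneg.2 hs1.le) <;>
    refine ⟨by linarith, fun h => ?_⟩ <;> have : t = 1 := by linarith
  all_goals
    subst this
    constructor <;> linarith

theorem e3 {s : ℝ} (hs1 : 173 / 100 < s) :
    ¬ ∃ x y : E, x ≠ y ∧ segment ℝ x y ⊆ SS s ∧ pt (-(300 * s)) (-(300 * s)) ∈ openSegment ℝ x y := by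
  refine extreme _ _ _ (-1) (-1) fun z hz => ?_
  rcases hz with (((h | h) | h) | h) | h <;> obtain ⟨t, t0, t1, e0, e1⟩ := mem_seg h <;>
    have k1 := mul_nonneg t0 (sub_nonneg.2 hs1.le) <;>
    have k2 := mul_nonneg (sub_nonneg.2 t1) (sub_nonneg.2 hs1.le) <;>
    refine ⟨by linarith, fun h => ?_⟩ <;> have : t = 1 := by linarith
  all_goals
    subst this
    constructor <;> linarith

theorem e4 {s : ℝ} (hs1 : 173 / 100 < s) :
    ¬ ∃ x y : E, x ≠ y ∧ segment ℝ x y ⊆ SS s ∧ pt (300 * s) (-(300 * s)) ∈ openSegment ℝ x y := by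
  refine extreme _ _ _ (1) (-1) fun z hz => ?_
  rcases hz with (((h | h) | h) | h) | h <;> obtain ⟨t, t0, t1, e0, e1⟩ := mem_seg h <;>
    have k1 := mul_nonneg t0 (sub_nonneg.2 hs1.le) <;>
    have k2 := mul_nonneg (sub_nonneg.2 t1) (sub_nonneg.2 hs1.le) <;>
    refine ⟨by linarith, fun h => ?_⟩ <;> have : t = 1 := by linarith
  all_goals
    subst this
    constructor <;> linarith

/-- There exist d, a nonempty compact totally disconnected A in R^d with two distinct Steiner trees S, T, no terminal interior to segments in both, and nonempty compact M (∣M∣=∣A∣ if A finite) and r>0 with S an r-minimizer for M. -/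
theorem result :
  ∃ (d : ℕ) (A S T M : Set (EuclideanSpace ℝ (Fin d))) (r : ℝ),
    IsCompact A ∧ A.Nonempty ∧ IsTotallyDisconnected A ∧
    (IsCompact S ∧ IsConnected S ∧ A ⊆ S ∧
      MeasureTheory.Measure.hausdorffMeasure 1 S < ⊤ ∧
      ∀ S' : Set (EuclideanSpace ℝ (Fin d)), IsCompact S' → IsConnected S' → A ⊆ S' →
        MeasureTheory.Measure.hausdorffMeasure 1 S ≤ MeasureTheory.Measure.hausdorffMeasure 1 S') ∧
    (IsCompact T ∧ IsConnected T ∧ A ⊆ T ∧
      MeasureTheory.Measure.hausdorffMeasure 1 T < ⊤ ∧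
      ∀ S' : Set (EuclideanSpace ℝ (Fin d)), IsCompact S' → IsConnected S' → A ⊆ S' →
        MeasureTheory.Measure.hausdorffMeasure 1 T ≤ MeasureTheory.Measure.hausdorffMeasure 1 S') ∧
    S ≠ T ∧
    IsCompact M ∧ M.Nonempty ∧ 0 < r ∧
    (A.Finite → M.Finite ∧ M.ncard = A.ncard) ∧
    (¬ ∃ a ∈ A,
        (∃ x y : EuclideanSpace ℝ (Fin d), x ≠ y ∧ segment ℝ x y ⊆ S ∧ a ∈ openSegment ℝ x y) ∧
        (∃ x y : EuclideanSpace ℝ (Fin d), x ≠ y ∧ segment ℝ x y ⊆ T ∧ a ∈ openSegment ℝ x y)) ∧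
    (∀ y ∈ M, Metric.infDist y S ≤ r) ∧
    ∀ W : Set (EuclideanSpace ℝ (Fin d)), IsCompact W → IsConnected W →
      (∀ y ∈ M, Metric.infDist y W ≤ r) →
        MeasureTheory.Measure.hausdorffMeasure 1 S ≤ MeasureTheory.Measure.hausdorffMeasure 1 W := by
  have hs : √3 * √3 = (3 : ℝ) := Real.mul_self_sqrt (by norm_num)
  have hs1 : (173 / 100 : ℝ) < √3 := Real.lt_sqrt_of_sq_lt (by norm_num)
  refine ⟨2, range (pA √3), SS √3, TT √3, range (pM √3), 2, (finite_range _).isCompact,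
    range_nonempty _, (finite_range _).countable.isTotallyDisconnected,
    ⟨tree5_compact _ _ _ _ _ _, tree5_conn _ _ _ _ _ _, range_subset_iff.2 (A_sub_S _),
      (SS_len hs hs1).trans_lt ENNReal.ofReal_lt_top,
      fun S _ b c => (SS_len hs hs1).trans (lowA hs hs1 S b c)⟩,
    ⟨(tree5_compact _ _ _ _ _ _).union (seg_compact _ _),
      IsConnected.union ⟨_, (tree5_mem _ _ _ _ _ _).1, left_mem_segment ℝ _ _⟩
        (tree5_conn _ _ _ _ _ _) (seg_conn _ _), range_subset_iff.2 (A_sub_T _),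
      (TT_len hs hs1).trans_lt ENNReal.ofReal_lt_top,
      fun S _ b c => (TT_len hs hs1).trans (lowA hs hs1 S b c)⟩,
    ne hs1, (finite_range _).isCompact, range_nonempty _, two_pos,
    fun _ => ⟨finite_range _, ?_⟩, ?_, ?_, fun W a b c => (SS_len hs hs1).trans (lowM hs hs1 W a b c)⟩
  · rw [← image_univ, ← image_univ, ncard_image_of_injective _ (inj hs1).1,
      ncard_image_of_injective _ (inj hs1).2]
  · rintro ⟨a, ⟨i, rfl⟩, h1, h2⟩
    fin_cases i
    · exact Tnot hs1 h2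
    · exact e1 hs1 h1
    · exact e2 hs1 h1
    · exact e3 hs1 h1
    · exact e4 hs1 h1
  · rintro y ⟨i, rfl⟩
    exact cover hs i

end Pool.Agent.S13589
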