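import Pool.Statements.S13596

set_option autoImplicit false
open Pool Pool.MP_94b191_gt

namespace Pool.Agent.S13596

open Set Filter Topology Real

noncomputable def F (c : ℝ × ℝ) : ℝ × ℝ × ℝ :=
  ((1 - max (-c.2) 0) * (c.1 / (1 + |c.1| * max c.2 0)),
    (1 - max (-c.2) 0) * cos (2 * π * max c.2 0), max (-c.2) 0)

lemma F_cont : Continuous F := by
  unfold F
  refine Continuous.prodMk (Continuous.mul (by fun_prop) (Continuous.div (by fun_prop)
    (by fun_prop) fun c => by positivity)) (by fun_prop)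

def U : Set ℝ := insert 0 (range fun k : ℕ => 1 / ((k : ℝ) + 1))

lemma U_comp : IsCompact U := tendsto_one_div_add_atTop_nhds_zero_nat.isCompact_insert_range

def X : Set (ℝ × ℝ × ℝ) := F '' (U ×ˢ Icc (-1) 1)

lemma X_comp : IsCompact X := (U_comp.prod isCompact_Icc).image F_cont

lemma F_neg (u : ℝ) : F (u, -1) = (0, 0, 1) := by simp [F]

def apex : X := ⟨(0, 0, 1), (0, -1), ⟨Or.inl rfl, by norm_num⟩, F_neg 0⟩

noncomputable def loop (u : U) : Path apex apex where
  toFun s := ⟨F (u, 1 - 2 * |2 * (s : ℝ) - 1|), _, ⟨u.2, by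
    have h1 : |2 * (s : ℝ) - 1| ≤ 1 := abs_le.2 ⟨by linarith [s.2.1], by linarith [s.2.2]⟩
    have h2 := abs_nonneg (2 * (s : ℝ) - 1)
    constructor <;> simp only <;> linarith⟩, rfl⟩
  continuous_toFun := Continuous.subtype_mk (F_cont.comp (by fun_prop)) _
  source' := Subtype.ext (by
    show F (u, 1 - 2 * |2 * (0 : ℝ) - 1|) = (0, 0, 1)
    rw [← F_neg u]; norm_num)
  target' := Subtype.ext (by
    show F (u, 1 - 2 * |2 * (1 : ℝ) - 1|) = (0, 0, 1)
    rw [← F_neg u]; norm_num)

lemma loop_cont : Continuous ↿loop := by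
  refine Continuous.subtype_mk (f := fun c : U × unitInterval =>
    F (c.1, 1 - 2 * |2 * (c.2 : ℝ) - 1|)) (F_cont.comp (by fun_prop)) _

lemma loop_cover (p : X) : ∃ u, p ∈ range (loop u) := by
  obtain ⟨_, ⟨u, t⟩, ⟨hu, ht⟩, rfl⟩ := p
  have h1 : -1 ≤ t := ht.1
  have h2 : t ≤ 1 := ht.2
  refine ⟨⟨u, hu⟩, ⟨(t + 1) / 4, by constructor <;> linarith⟩, Subtype.ext ?_⟩
  show F (u, 1 - 2 * |2 * ((t + 1) / 4) - 1|) = F (u, t)
  rw [abs_of_nonpos (by linarith)]
  congr 2
  ring

lemma joined (p : X) : Joined apex p := by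
  obtain ⟨u, h⟩ := loop_cover p
  rw [← Path.extend_range] at h
  exact ((isPathConnected_range (loop u).continuous_extend).joinedIn _
    ⟨0, (loop u).extend_zero⟩ _ h).joined

lemma unif {K Z : Type} [MetricSpace K] [CompactSpace K] [MetricSpace Z] {a b : Z}
    (γ : K → Path a b) (h : Continuous ↿γ) (ε : ℝ) (hε : ε > 0) :
    ∃ n : ℕ, ∀ p ∈ range γ, ∃ t : Fin (n + 1) → unitInterval,
      t 0 = 0 ∧ t (Fin.last n) = 1 ∧ StrictMono t ∧
      ∀ i : Fin n, Metric.diam (⇑p '' Set.Icc (t i.castSucc) (t i.succ)) ≤ ε := by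
  obtain ⟨δ, hδ, hd⟩ := Metric.uniformContinuous_iff.1
    (CompactSpace.uniformContinuous_of_continuous h) ε hε
  obtain ⟨m, hm⟩ := exists_nat_one_div_lt hδ
  refine ⟨m + 1, ?_⟩
  rintro _ ⟨k, rfl⟩
  have hpos : (0 : ℝ) < m + 1 := by positivity
  refine ⟨fun i => ⟨(i : ℝ) / (m + 1), by positivity, (div_le_one hpos).2 (by
    have := Nat.le_of_lt_succ i.2
    exact_mod_cast this)⟩, Subtype.ext (by simp), Subtype.ext (by simp [hpos.ne']), ?_, ?_⟩
  · intro i j hij
    show (i : ℝ) / (m + 1) < (j : ℝ) / (m + 1)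
    exact div_lt_div_of_pos_right (by exact_mod_cast hij) hpos
  · intro i
    refine Metric.diam_le_of_forall_dist_le hε.le ?_
    rintro _ ⟨s, hs, rfl⟩ _ ⟨s', hs', rfl⟩
    refine (hd (a := (k, s)) (b := (k, s')) ?_).le
    have a1 : ((i : ℕ) : ℝ) / (m + 1) ≤ s := hs.1
    have a2 : (s : ℝ) ≤ ((i + 1 : ℕ) : ℝ) / (m + 1) := hs.2
    have a3 : ((i : ℕ) : ℝ) / (m + 1) ≤ s' := hs'.1
    have a4 : (s' : ℝ) ≤ ((i + 1 : ℕ) : ℝ) / (m + 1) := hs'.2
    rw [Nat.cast_add, Nat.cast_one, add_div] at a2 a4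
    rw [Prod.dist_eq, dist_self, max_eq_right dist_nonneg, Subtype.dist_eq, Real.dist_eq, abs_lt]
    constructor <;> linarith

noncomputable def r (p : ℝ × ℝ × ℝ) : ℝ := p.1 / (1 - p.2.2)

lemma ne_apex {p : X} (h : p ≠ apex) : 1 - p.1.2.2 ≠ 0 := by
  obtain ⟨_, c, _, rfl⟩ := p
  intro h0
  apply h
  have h1 : 1 - max (-c.2) 0 = 0 := h0
  refine Subtype.ext ?_
  show F c = (0, 0, 1)
  simp only [F, h1, zero_mul, Prod.mk.injEq, true_and]
  linarith

lemma osc {p : X} (h : p ≠ apex) (j : ℕ) (hj : 0 < j) (hr : r p.1 = 2 / j) :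
    (Even j → 0 ≤ p.1.2.1) ∧ (Odd j → p.1.2.1 = -1) := by
  have h0 := ne_apex h
  obtain ⟨_, ⟨u, t⟩, ⟨hu, ht⟩, rfl⟩ := p
  have h1 : 1 - max (-t) 0 ≠ 0 := h0
  have hj' : (0 : ℝ) < j := by exact_mod_cast hj
  have h2 : u / (1 + |u| * max t 0) = 2 / j := by
    rw [← hr]
    simp only [r, F]
    field_simp
  have ht1 : -1 ≤ t := ht.1
  have hm : 0 ≤ max t 0 := le_max_right _ _
  rcases hu with hu | ⟨k, hu⟩
  · rw [show u = 0 from hu, zero_div] at h2
    exact absurd h2 (by positivity)
  · rw [show u = 1 / ((k : ℝ) + 1) from hu.symm] at h2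
    have h3 : 2 * π * max t 0 = j * π - (k + 1 : ℕ) * (2 * π) := by
      rw [abs_of_pos (by positivity)] at h2
      field_simp at h2
      push_cast
      rw [h2]
      ring
    have h4 : cos (2 * π * max t 0) = (-1) ^ j := by
      rw [h3, cos_sub_nat_mul_two_pi, cos_nat_mul_pi]
    show (Even j → 0 ≤ (1 - max (-t) 0) * cos (2 * π * max t 0)) ∧
      (Odd j → (1 - max (-t) 0) * cos (2 * π * max t 0) = -1)
    refine ⟨fun he => ?_, fun ho => ?_⟩
    · rw [h4, he.neg_one_pow, mul_one, sub_nonneg]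
      exact max_le (by linarith) zero_le_one
    · rw [ho.neg_one_pow] at h4
      rcases le_total t 0 with h5 | h5
      · rw [max_eq_right h5] at h4
        norm_num at h4
      · rw [h4, max_eq_right (by linarith)]
        norm_num

lemma piece {N : ℕ} (t : Fin (N + 1) → unitInterval) (h0 : t 0 = 0) (h1 : t (Fin.last N) = 1)
    (s : unitInterval) : ∃ i : Fin N, s ∈ Icc (t i.castSucc) (t i.succ) := by
  by_contra hc
  push Not at hc
  have h : ∀ i, t i ≤ s := by
    intro i
    induction i using Fin.induction with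
    | zero => rw [h0]; exact unitInterval.nonneg'
    | succ i ih => exact (not_le.1 fun h => hc i ⟨ih, h⟩).le
  cases N with
  | zero => exact zero_ne_one (h0.symm.trans h1)
  | succ N => exact hc (Fin.last N) ⟨h _, by rw [Fin.succ_last, h1]; exact unitInterval.le_one'⟩

noncomputable def g (n : ℕ) (s : ℝ) : ℝ × ℝ × ℝ :=
  ((1 - max (1 - 2 * s) 0) / (n + 2 - (n + 1) * max (2 * s - 1) 0),
    (1 - max (1 - 2 * s) 0) * cos (2 * π * (n + 2 - (n + 1) * max (2 * s - 1) 0)),
    max (1 - 2 * s) 0)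

lemma w_ge (n : ℕ) (s : unitInterval) : (1 : ℝ) ≤ n + 2 - (n + 1) * max (2 * (s : ℝ) - 1) 0 := by
  have h1 : max (2 * (s : ℝ) - 1) 0 ≤ 1 := max_le (by linarith [s.2.2]) zero_le_one
  have h2 : (0 : ℝ) ≤ n := n.cast_nonneg
  nlinarith

lemma g_mem (n : ℕ) (s : unitInterval) : g n s ∈ X := by
  rcases le_total (s : ℝ) (1 / 2) with h | h
  · refine ⟨(1 / ((n + 1 : ℕ) + 1), 2 * s - 1), ⟨Or.inr ⟨n + 1, rfl⟩, by linarith [s.2.1],
      by linarith⟩, ?_⟩
    have : cos (2 * π * (n + 2)) = 1 := by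
      rw [← cos_nat_mul_two_pi (n + 2)]; congr 1; push_cast; ring
    simp only [F, g, neg_sub, max_eq_right (show 2 * (s : ℝ) - 1 ≤ 0 by linarith), mul_zero,
      sub_zero, add_zero, cos_zero, this, div_one, Prod.mk.injEq, and_true]
    push_cast
    rw [mul_one_div]; congr 1; ring
  · have hw := w_ge n s
    simp only [g, max_eq_right (show 1 - 2 * (s : ℝ) ≤ 0 by linarith)]
    generalize (n : ℝ) + 2 - (n + 1) * max (2 * (s : ℝ) - 1) 0 = w at hw
    have h1 := Nat.floor_le (show 0 ≤ w - 1 by linarith)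
    have h2 := Nat.lt_floor_add_one (w - 1)
    generalize ⌊w - 1⌋₊ = k at h1 h2
    refine ⟨(1 / (k + 1), w - 1 - k), ⟨Or.inr ⟨k, rfl⟩, by linarith, by linarith⟩, ?_⟩
    simp only [F, max_eq_right (show -(w - 1 - k) ≤ 0 by linarith),
      max_eq_left (show 0 ≤ w - 1 - k by linarith), Prod.mk.injEq, and_true]
    refine ⟨?_, ?_⟩
    · rw [abs_of_pos (by positivity)]
      have : (0 : ℝ) < k + 1 := by positivity
      have h3 : 1 + 1 / ((k : ℝ) + 1) * (w - 1 - k) = w / (k + 1) := by field_simp; ring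
      rw [h3]
      field_simp
    · rw [← cos_sub_nat_mul_two_pi (2 * π * w) (k + 1)]
      congr 2
      push_cast
      ring

def bb : X := ⟨(1, 1, 0), (1, 0), ⟨Or.inr ⟨0, by simp⟩, by norm_num⟩, by simp [F]⟩

noncomputable def arc (n : ℕ) : Path apex bb where
  toFun s := ⟨g n s, g_mem n s⟩
  continuous_toFun := by
    refine Continuous.subtype_mk ?_ _
    unfold g
    refine Continuous.prodMk (Continuous.div (by fun_prop) (by fun_prop)
      fun s => (zero_lt_one.trans_le (w_ge n s)).ne') (by fun_prop)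
  source' := Subtype.ext (by simp [g, apex])
  target' := Subtype.ext (by
    show g n 1 = (1, 1, 0)
    have : (n : ℝ) + 2 - (n + 1) = 1 := by ring
    norm_num [g, this])

lemma arc_inj (n : ℕ) : Function.Injective (arc n) := by
  intro s s' h
  have h' : g n s = g n s' := congrArg Subtype.val h
  simp only [g, Prod.mk.injEq] at h'
  obtain ⟨h1, -, h3⟩ := h'
  refine Subtype.ext ?_
  rcases lt_or_ge 0 (1 - 2 * (s : ℝ)) with a | a
  · rw [max_eq_left a.le] at h3
    rcases le_total (1 - 2 * (s' : ℝ)) 0 with b | b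
    · rw [max_eq_right b] at h3; linarith
    · rw [max_eq_left b] at h3; linarith
  · rw [← h3, max_eq_right a, sub_zero, one_div, one_div, inv_inj] at h1
    rw [max_eq_right a] at h3
    have b : 1 - 2 * (s' : ℝ) ≤ 0 := h3 ▸ le_max_left _ _
    rw [max_eq_left (by linarith), max_eq_left (by linarith)] at h1
    have h2 : (0 : ℝ) < n + 1 := by positivity
    have := mul_left_cancel₀ h2.ne' (sub_right_inj.1 h1)
    linarith

/-- The negation of the preceding statement: Every continuum in which any two points are joined by a uniform family of paths covering the space has, for any two points, a uniform family of arcs between them covering the union of all arcs joining them. -/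
theorem result :
    ¬ (∀ (X : Type) [MetricSpace X] [CompactSpace X] [ConnectedSpace X],
      (∀ a b : X, ∃ P : Set (Path a b),
          (∀ ε : ℝ, ε > 0 → ∃ n : ℕ, ∀ p ∈ P, ∃ t : Fin (n + 1) → unitInterval,
              t 0 = 0 ∧ t (Fin.last n) = 1 ∧ StrictMono t ∧
              ∀ i : Fin n, Metric.diam (⇑p '' Set.Icc (t i.castSucc) (t i.succ)) ≤ ε) ∧
          (⋃ p ∈ P, Set.range ⇑p) = Set.univ) →
      (∀ a b : X, ∃ P : Set (Path a b),
          (∀ p ∈ P, Function.Injective ⇑p) ∧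
          (∀ ε : ℝ, ε > 0 → ∃ n : ℕ, ∀ p ∈ P, ∃ t : Fin (n + 1) → unitInterval,
              t 0 = 0 ∧ t (Fin.last n) = 1 ∧ StrictMono t ∧
              ∀ i : Fin n, Metric.diam (⇑p '' Set.Icc (t i.castSucc) (t i.succ)) ≤ ε) ∧
          (⋃ p ∈ P, Set.range ⇑p) =
            ⋃ (q : Path a b) (_ : Function.Injective ⇑q), Set.range ⇑q)) := by
  intro H
  have : CompactSpace X := isCompact_iff_compactSpace.1 X_comp
  have : CompactSpace U := isCompact_iff_compactSpace.1 U_comp
  have : PathConnectedSpace X := ⟨⟨apex⟩, fun p q => (joined p).symm.trans (joined q)⟩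
  obtain ⟨P, hinj, hP, hU⟩ := H X (fun a b => by
    let α := (joined a).symm.somePath
    let β := (joined b).somePath
    refine ⟨range fun u => α.trans ((loop u).trans β), unif _ ?_, ?_⟩
    · exact Path.trans_continuous_family (fun _ => α) (α.continuous.comp continuous_snd) _
        (Path.trans_continuous_family _ loop_cont (fun _ => β) (β.continuous.comp continuous_snd))
    · refine eq_univ_of_forall fun p => ?_
      obtain ⟨u, hu⟩ := loop_cover p
      refine mem_biUnion ⟨u, rfl⟩ ?_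
      rw [Path.trans_range, Path.trans_range]
      exact Or.inr (Or.inl hu)) apex bb
  obtain ⟨N, hN⟩ := hP (1 / 2) (by norm_num)
  have hm : arc N ⟨1 / 2, by norm_num, by norm_num⟩ ∈ ⋃ p ∈ P, range ⇑p := by
    rw [hU]
    exact mem_iUnion₂.2 ⟨arc N, arc_inj N, _, rfl⟩
  obtain ⟨q, hq, s₀, hs₀⟩ := mem_iUnion₂.1 hm
  obtain ⟨t, t0, t1, tm, td⟩ := hN q hq
  have hv : (q s₀).1 = g N (1 / 2) := congrArg Subtype.val hs₀
  have hne : ∀ s, s₀ ≤ s → q s ≠ apex := by
    intro s hs h
    have h1 : s = 0 := hinj q hq (h.trans q.source.symm)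
    have h2 : s₀ = 0 := le_antisymm (h1 ▸ hs) unitInterval.nonneg'
    rw [h2, q.source] at hv
    have := congrArg (fun p : ℝ × ℝ × ℝ => p.2.2) hv
    norm_num [g, apex] at this
  have hrc : ContinuousOn (fun s => r (q s).1) (Ici s₀) :=
    ContinuousOn.div (by fun_prop) (by fun_prop) fun s hs => ne_apex (hne s hs)
  have key : ∀ j : ℕ, j ≤ N → ∃ τ, s₀ ≤ τ ∧ r (q τ).1 = 2 / ((2 * N + 4 - j : ℕ) : ℝ) ∧
      ∃ i : Fin N, j ≤ i ∧ τ ∈ Icc (t i.castSucc) (t i.succ) := by
    intro j
    induction j with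
    | zero =>
      intro _
      obtain ⟨i, hi⟩ := piece t t0 t1 s₀
      refine ⟨s₀, le_rfl, ?_, i, Nat.zero_le _, hi⟩
      rw [hv]
      norm_num [r, g]
      field_simp
      ring
    | succ j ih =>
      intro hj
      obtain ⟨τ, h1, h2, i, h3, h4⟩ := ih (by omega)
      obtain ⟨m, hm⟩ : ∃ m, 2 * N + 4 - (j + 1) = m + 2 := ⟨2 * N + 1 - j, by omega⟩
      have hm' : 2 * N + 4 - j = m + 3 := by omega
      rw [hm'] at h2
      rw [hm]
      have hr1 : r (q 1).1 = 1 := by rw [q.target]; simp [r, bb]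
      obtain ⟨τ', h5, h6⟩ := intermediate_value_Icc (unitInterval.le_one' (t := τ))
        (hrc.mono fun s hs => h1.trans hs.1)
        (show 2 / ((m + 2 : ℕ) : ℝ) ∈ Icc (r (q τ).1) (r (q 1).1) by
          rw [h2, hr1]
          have : (0 : ℝ) ≤ m := m.cast_nonneg
          push_cast
          exact ⟨div_le_div_of_nonneg_left (by norm_num) (by positivity) (by linarith),
            (div_le_one (by positivity)).2 (by linarith)⟩)
      obtain ⟨i', hi'⟩ := piece t t0 t1 τ'
      have hd : 1 ≤ dist (q τ) (q τ') := by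
        have o1 := osc (hne τ h1) _ (by omega) h2
        have o2 := osc (hne τ' (h1.trans h5.1)) _ (by omega) h6
        have : dist (q τ).1.2.1 (q τ').1.2.1 ≤ dist (q τ) (q τ') := by
          rw [Subtype.dist_eq, Prod.dist_eq, Prod.dist_eq]
          exact (le_max_left _ _).trans (le_max_right _ _)
        refine le_trans ?_ this
        rw [Real.dist_eq, le_abs]
        rcases Nat.even_or_odd m with he | ho
        · right
          have := o1.2 (he.add_odd (by decide))
          have := o2.1 (he.add (by decide))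
          linarith
        · left
          have := o1.1 (ho.add_odd (by decide))
          have := o2.2 (ho.add_even (by decide))
          linarith
      refine ⟨τ', h1.trans h5.1, h6, i', ?_, hi'⟩
      rcases lt_trichotomy i i' with h | rfl | h
      · exact Nat.succ_le_of_lt (lt_of_le_of_lt h3 h)
      · have := (Metric.dist_le_diam_of_mem Metric.isBounded_of_compactSpace
          (mem_image_of_mem q h4) (mem_image_of_mem q hi')).trans (td i)
        linarith
      · have h7 : τ' ≤ τ := hi'.2.trans ((tm.monotone (Fin.succ_le_castSucc_iff.2 h)).trans h4.1)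
        rw [le_antisymm h7 h5.1, dist_self] at hd
        linarith
  obtain ⟨_, _, _, i, hi, _⟩ := key N le_rfl
  exact absurd i.2 (not_lt.2 hi)

end Pool.Agent.S13596
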