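import Pool.Statements.S13606
import Pool.Agent.H31.KDetO

set_option autoImplicit false
open Pool Pool.MP_958dc4_gt

namespace Pool.Agent.S13606

theorem result :
    ¬ (∀ (K : ∀ (X : Type) [TopologicalSpace X], Prop),
    (∀ (X : Type) [TopologicalSpace X], K X → T0Space X) →
    (∀ (X : Type) [TopologicalSpace X], T0Space X → QuasiSober X → K X) →
    (∀ (X Y : Type) [TopologicalSpace X] [TopologicalSpace Y], (X ≃ₜ Y) → K X → K Y) →
    (∀ (X : Type) [TopologicalSpace X], T0Space X →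
      @K {A : Set X // IsClosed A ∧ ∀ (Y : Type) [TopologicalSpace Y], K Y →
            ∀ f : X → Y, Continuous f → ∃! y : Y, closure (f '' A) = closure {y}}
        (TopologicalSpace.generateFrom
          {S | ∃ U : Set X, IsOpen U ∧ S = {A | (A.1 ∩ U).Nonempty}})) →
    ∀ (I : Type) (X : I → Type) [∀ i, TopologicalSpace (X i)], (∀ i, T0Space (X i)) →
    ∀ (R : I → Type) [∀ i, TopologicalSpace (R i)] (η : ∀ i, X i → R i),
      (∀ i, K (R i) ∧ Continuous (η i) ∧
        ∀ (Y : Type) [TopologicalSpace Y], K Y → ∀ f : X i → Y, Continuous f →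
          ∃! g : R i → Y, Continuous g ∧ g ∘ η i = f) →
      K (∀ i, R i) ∧
      Continuous (fun (x : ∀ i, X i) (i : I) => η i (x i)) ∧
      ∀ (Y : Type) [TopologicalSpace Y], K Y → ∀ f : (∀ i, X i) → Y, Continuous f →
        ∃! g : (∀ i, R i) → Y, Continuous g ∧
          g ∘ (fun (x : ∀ i, X i) (i : I) => η i (x i)) = f) := by
  intro h
  obtain ⟨-, -, h3⟩ := h H31.KDet.K (fun _ _ h => h.1) H31.KDet.K_of_sober
    H31.KDet.K_homeo (fun W _ _ => H31.KDet.adequate W)
    ℕ H31.KDet.X (fun _ => inferInstance) H31.KDet.R H31.KDet.eta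
    (fun n => ⟨H31.KDet.K_R n, H31.KDet.cont_eta n, H31.KDet.reflection n⟩)
  obtain ⟨g, ⟨hg, he⟩, -⟩ := h3 H31.KDet.Y H31.KDet.K_Y H31.KDet.iota H31.KDet.cont_iota
  exact H31.KDet.no_ext g hg he

end Pool.Agent.S13606
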