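import Pool.Statements.S13621
import Pool.Agent.H31.Smirnov

set_option autoImplicit false
open Pool Pool.MP_984099_gt

namespace Pool.Agent.S13621

theorem result :
    ∃ (X : Type) (_ : TopologicalSpace X) (_ : AddAction ℚ X),
      ContinuousVAdd ℚ X ∧ T35Space X ∧
      ¬ ∃ (Y : Type) (_ : TopologicalSpace Y) (_ : AddAction ℚ Y),
          ContinuousVAdd ℚ Y ∧ CompactSpace Y ∧ T2Space Y ∧
          ∃ f : X → Y, Topology.IsEmbedding f ∧ ∀ (q : ℚ) (x : X), f (q +ᵥ x) = q +ᵥ f x := by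
  exact ⟨H31.Smirnov.X, inferInstance, inferInstance, H31.Smirnov.cont_vadd, H31.Smirnov.t35, H31.Smirnov.no_compactification⟩

end Pool.Agent.S13621
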