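import Pool.Statements.S13625
import Pool.Agent.H30.Cont

set_option autoImplicit false
open Pool Pool.MP_98c8dd_gt

namespace Pool.Agent.S13625

open Set Filter Topology Pool.Agent.H30

def SC {X : Type} [TopologicalSpace X] (A : Set X) : Prop :=
  ∀ F : ℕ → Set X, (∀ n, ∃ D : Set X, IsClosed D ∧ F n = D ∩ A) →
    (∀ i j, i ≠ j → Disjoint (F i) (F j)) → (⋃ n, F n) = A →
    ∀ i j, (F i).Nonempty → (F j).Nonempty → i = j

def kap {X : Type} [TopologicalSpace X] (F : Set X) (x : X) : Set X :=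
  {y | ∃ K, K ⊆ Fᶜ ∧ IsCompact K ∧ IsPreconnected K ∧ x ∈ K ∧ y ∈ K}

section
variable {X : Type} [MetricSpace X]

lemma kap_self {F : Set X} {x : X} (hx : x ∉ F) : x ∈ kap F x :=
  ⟨{x}, by simpa using hx, isCompact_singleton, isPreconnected_singleton, rfl, rfl⟩

lemma kap_sub {F : Set X} {x : X} : kap F x ⊆ Fᶜ := fun _ ⟨_, h, _, _, _, hy⟩ => h hy

lemma kap_pre {F : Set X} {x : X} : IsPreconnected (kap F x) :=
  isPreconnected_of_forall x fun _ ⟨K, h1, h2, h3, h4, h5⟩ =>
    ⟨K, fun _ hz => ⟨K, h1, h2, h3, h4, hz⟩, h4, h5, h3⟩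

lemma kap_Fsigma [CompactSpace X] {F : Set X} (hF : IsClosed F) (hne : F.Nonempty) (x : X) :
    ∃ C : ℕ → Set X, (∀ n, IsClosed (C n)) ∧ kap F x = ⋃ n, C n := by
  have hc := Metric.continuous_infDist_pt F
  refine ⟨fun n => connectedComponentIn {w | 1 / ((n : ℝ) + 1) ≤ Metric.infDist w F} x,
    fun n => (isCompact_componentIn (isClosed_le continuous_const hc).isCompact x).isClosed, ?_⟩
  apply Subset.antisymm
  · rintro y ⟨K, h1, h2, h3, h4, h5⟩
    obtain ⟨z, hz, hz'⟩ := h2.exists_isMinOn ⟨x, h4⟩ hc.continuousOn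
    obtain ⟨n, hn⟩ := exists_nat_one_div_lt ((hF.notMem_iff_infDist_pos hne).1 (h1 hz))
    exact mem_iUnion.2 ⟨n, h3.subset_connectedComponentIn h4
      (fun w hw => hn.le.trans (hz' hw)) h5⟩
  · refine iUnion_subset fun n y hy => ⟨_, fun w hw hwF => ?_,
      isCompact_componentIn (isClosed_le continuous_const hc).isCompact x,
      isPreconnected_connectedComponentIn,
      mem_connectedComponentIn (connectedComponentIn_nonempty_iff.1 ⟨y, hy⟩), hy⟩
    have h0 := connectedComponentIn_subset _ _ hw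
    have h : 1 / ((n : ℝ) + 1) ≤ Metric.infDist w F := h0
    rw [Metric.infDist_zero_of_mem hwF] at h
    exact absurd h (not_le.2 Nat.one_div_pos_of_nat)

lemma kap_clos [CompactSpace X] [ConnectedSpace X] {F : Set X} (hF : IsClosed F)
    (hne : F.Nonempty) {x : X} (hx : x ∉ F) : (closure (kap F x) ∩ F).Nonempty := by
  have hc := Metric.continuous_infDist_pt F
  obtain ⟨z, hz, hz'⟩ := (isClosed_closure (s := kap F x)).isCompact.exists_isMinOn
    ⟨x, subset_closure (kap_self hx)⟩ hc.continuousOn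
  refine ⟨z, hz, ?_⟩
  by_contra hn
  have hpos := (hF.notMem_iff_infDist_pos hne).1 hn
  obtain ⟨f, hf⟩ := hne
  have h1 : Metric.infDist z F ≤ Metric.infDist x F := hz' (subset_closure (kap_self hx))
  obtain ⟨w, hw, hw'⟩ := bump isCompact_univ isPreconnected_univ hc (δ := Metric.infDist z F / 2)
    (mem_univ x) (mem_univ f) (by linarith) (by rw [Metric.infDist_zero_of_mem hf]; linarith)
  have hZ := isCompact_univ.inter_right (isClosed_le
    (continuous_const (y := Metric.infDist z F / 2)) hc)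
  have h2 : w ∈ kap F x := ⟨_, fun v hv hvF => by
      have h : Metric.infDist z F / 2 ≤ Metric.infDist v F :=
        (connectedComponentIn_subset _ _ hv).2
      rw [Metric.infDist_zero_of_mem hvF] at h
      linarith, isCompact_componentIn hZ x, isPreconnected_connectedComponentIn,
    mem_connectedComponentIn (connectedComponentIn_nonempty_iff.1 ⟨w, hw⟩), hw⟩
  have h3 : Metric.infDist z F ≤ Metric.infDist w F := hz' (subset_closure h2)
  linarith

lemma same {A : Set X} {F : ℕ → Set X} (h1 : ∀ n, ∃ D : Set X, IsClosed D ∧ F n = D ∩ A)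
    (h2 : ∀ i j, i ≠ j → Disjoint (F i) (F j)) (h3 : (⋃ n, F n) = A) {K : Set X} (hKA : K ⊆ A)
    (hK : IsCompact K) (hc : IsPreconnected K) {x : X} {i : ℕ} (hx : x ∈ K) (hi : x ∈ F i) :
    K ⊆ F i := by
  choose D hD hF using h1
  intro y hy
  obtain ⟨j, hj⟩ := mem_iUnion.1 (h3 ▸ hKA hy)
  have hsub : ∀ n, D n ∩ K ⊆ F n := fun n => hF n ▸ inter_subset_inter_right _ hKA
  have := sierp (A := fun n => D n ∩ K) (fun n => (hD n).inter hK.isClosed)
    (fun i j h => (h2 i j h).mono (hsub i) (hsub j)) hK hc (fun w hw => by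
      obtain ⟨l, hl⟩ := mem_iUnion.1 (h3 ▸ hKA hw)
      exact mem_iUnion.2 ⟨l, (hF l ▸ hl : w ∈ D l ∩ A).1, hw⟩) hx hy
      ⟨(hF i ▸ hi : x ∈ D i ∩ A).1, hx⟩ ⟨(hF j ▸ hj : y ∈ D j ∩ A).1, hy⟩
  exact this ▸ hj

lemma clos {A B : Set X} {F : ℕ → Set X} (h1 : ∀ n, ∃ D : Set X, IsClosed D ∧ F n = D ∩ A)
    {i : ℕ} (hB : B ⊆ F i) {x : X} (hx : x ∈ closure B) (hA : x ∈ A) : x ∈ F i := by
  obtain ⟨D, hD, hF⟩ := h1 i
  rw [hF] at hB ⊢
  exact ⟨closure_minimal (hB.trans inter_subset_left) hD hx, hA⟩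

lemma uniq {A : Set X} {F : ℕ → Set X} (h2 : ∀ i j, i ≠ j → Disjoint (F i) (F j))
    (h3 : (⋃ n, F n) = A) {n : ℕ} (h : A ⊆ F n) (i j : ℕ) (hi : (F i).Nonempty)
    (hj : (F j).Nonempty) : i = j := by
  have key : ∀ i, (F i).Nonempty → i = n := fun i ⟨x, hx⟩ => by
    by_contra hne
    exact disjoint_left.1 (h2 i n hne) hx (h (h3 ▸ mem_iUnion.2 ⟨i, hx⟩))
  rw [key i hi, key j hj]

lemma kap_in {A G : Set X} {F : ℕ → Set X} (h1 : ∀ n, ∃ D : Set X, IsClosed D ∧ F n = D ∩ A)
    (h2 : ∀ i j, i ≠ j → Disjoint (F i) (F j)) (h3 : (⋃ n, F n) = A) {x : X} (hx : x ∉ G)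
    (hA : kap G x ⊆ A) : ∃ i, kap G x ⊆ F i := by
  obtain ⟨i, hi⟩ := mem_iUnion.1 (h3 ▸ hA (kap_self hx))
  exact ⟨i, fun _ ⟨K, a, b, c, d, e⟩ =>
    same h1 h2 h3 (fun _ hz => hA ⟨K, a, b, c, d, hz⟩) b c d hi e⟩

lemma Fsigma_union {A B : Set X} (hA : IsClosed A)
    (hB : ∃ C : ℕ → Set X, (∀ n, IsClosed (C n)) ∧ B = ⋃ n, C n) :
    ∃ C : ℕ → Set X, (∀ n, IsClosed (C n)) ∧ A ∪ B = ⋃ n, C n := by
  obtain ⟨C, hC, rfl⟩ := hB
  exact ⟨fun n => A ∪ C n, fun n => hA.union (hC n), union_iUnion _ _⟩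

lemma kap_open [CompactSpace X] [ConnectedSpace X]
    (H : ∀ A : Set X, (∃ C : ℕ → Set X, (∀ n, IsClosed (C n)) ∧ A = ⋃ n, C n) → SC A →
      ∀ x ∈ A, ∀ y ∈ A, ∃ K : Set X, K ⊆ A ∧ IsCompact K ∧ IsConnected K ∧ x ∈ K ∧ y ∈ K)
    {F : Set X} (hF : IsCompact F) (hc : IsConnected F) {q : X} (hq : q ∉ F) :
    q ∈ interior (kap F q) := by
  by_contra hn
  have h0 : q ∈ closure (Fᶜ ∩ (kap F q)ᶜ) := by
    refine hF.isClosed.isOpen_compl.inter_closure ⟨hq, ?_⟩
    rwa [closure_compl]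
  obtain ⟨y, hy, hyt⟩ := mem_closure_iff_seq_limit.1 h0
  obtain ⟨f, hf⟩ := hc.1
  have hdc := Metric.continuous_infDist_pt F
  obtain ⟨K, hKA, hK, hKc, hqK, hfK⟩ := H (({q} ∪ F) ∪ ⋃ j, kap F (y j))
    (Fsigma_union (isClosed_singleton.union hF.isClosed) (by
      choose C hC hC' using fun j => kap_Fsigma hF.isClosed hc.1 (y j)
      exact ⟨fun n => C n.unpair.1 n.unpair.2, fun n => hC _ _, by
        rw [iUnion_unpair (f := fun i j => C i j)]
        exact iUnion_congr hC'⟩)) (by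
      intro G h1 h2 h3
      obtain ⟨n, hn⟩ := mem_iUnion.1 (h3.ge (Or.inl (Or.inr hf)))
      have a1 : F ⊆ G n := same h1 h2 h3 (fun _ h => Or.inl (Or.inr h)) hF hc.2 hf hn
      have a2 : ∀ j, kap F (y j) ⊆ G n := by
        intro j
        obtain ⟨i, hi⟩ := kap_in h1 h2 h3 (hy j).1 (fun _ h => Or.inr (mem_iUnion.2 ⟨j, h⟩))
        obtain ⟨z, hz, hz'⟩ := kap_clos hF.isClosed hc.1 (hy j).1
        have := clos h1 hi hz (Or.inl (Or.inr hz'))
        by_cases h : i = n
        · exact h ▸ hi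
        · exact (disjoint_left.1 (h2 i n h) this (a1 hz')).elim
      refine uniq h2 h3 (n := n) (union_subset (union_subset ?_ a1) (iUnion_subset a2))
      rw [singleton_subset_iff]
      exact clos h1 (B := range y) (range_subset_iff.2 fun j => a2 j (kap_self (hy j).1))
        (mem_closure_of_tendsto hyt (Eventually.of_forall mem_range_self)) (Or.inl (Or.inl rfl)))
    q (Or.inl (Or.inl rfl)) f (Or.inl (Or.inr hf))
  have hpos := (hF.isClosed.notMem_iff_infDist_pos hc.1).1 hq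
  obtain ⟨w, hw, hw'⟩ := bump hK hKc.2 hdc (δ := Metric.infDist q F / 2) hqK hfK (by linarith)
    (by rw [Metric.infDist_zero_of_mem hf]; linarith)
  have hZ := hK.inter_right (isClosed_le (continuous_const (y := Metric.infDist q F / 2)) hdc)
  have hL : connectedComponentIn (K ∩ {w | Metric.infDist q F / 2 ≤ Metric.infDist w F}) q ⊆ Fᶜ :=
    fun v hv hvF => by
      have h : Metric.infDist q F / 2 ≤ Metric.infDist v F :=
        (connectedComponentIn_subset _ _ hv).2
      rw [Metric.infDist_zero_of_mem hvF] at h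
      linarith
  rcases hKA (connectedComponentIn_subset _ _ hw).1 with (h | h) | h
  · rw [show w = q from h] at hw'
    linarith
  · exact hL hw h
  · obtain ⟨j, K', a, b, c, d, e⟩ := mem_iUnion.1 h
    exact (hy j).2 ⟨_, union_subset hL a, (isCompact_componentIn hZ q).union b,
      isPreconnected_connectedComponentIn.union w hw e c,
      Or.inl (mem_connectedComponentIn (connectedComponentIn_nonempty_iff.1 ⟨w, hw⟩)), Or.inr d⟩

lemma apos [CompactSpace X] [ConnectedSpace X]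
    (H : ∀ A : Set X, (∃ C : ℕ → Set X, (∀ n, IsClosed (C n)) ∧ A = ⋃ n, C n) → SC A →
      ∀ x ∈ A, ∀ y ∈ A, ∃ K : Set X, K ⊆ A ∧ IsCompact K ∧ IsConnected K ∧ x ∈ K ∧ y ∈ K)
    {p q : X} (hpq : p ≠ q) :
    ∃ K : Set X, IsCompact K ∧ IsConnected K ∧ q ∈ interior K ∧ p ∉ K := by
  have hd : 0 < dist p q := dist_pos.2 hpq
  have hφ : Continuous fun w => dist w q := by fun_prop
  set F := connectedComponentIn {w | dist p q / 2 ≤ dist w q} p with hFd
  have hp : p ∈ {w | dist p q / 2 ≤ dist w q} := show dist p q / 2 ≤ dist p q by linarith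
  have hF : IsCompact F := isCompact_componentIn (isClosed_le continuous_const hφ).isCompact p
  have hc : IsConnected F := isConnected_connectedComponentIn_iff.2 hp
  have hq : q ∉ F := fun h => by
    have h0 := connectedComponentIn_subset _ _ h
    have h : dist p q / 2 ≤ dist q q := h0
    rw [dist_self] at h
    linarith
  refine ⟨closure (kap F q), isClosed_closure.isCompact,
    IsConnected.closure ⟨⟨q, kap_self hq⟩, kap_pre⟩,
    interior_mono subset_closure (kap_open H hF hc hq), fun hcl => ?_⟩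
  obtain ⟨K, hKA, hK, hKc, hpK, hqK⟩ := H ({p} ∪ kap F q)
    (Fsigma_union isClosed_singleton (kap_Fsigma hF.isClosed hc.1 q)) (by
      intro G h1 h2 h3
      obtain ⟨i, hi⟩ := kap_in h1 h2 h3 hq subset_union_right
      exact uniq h2 h3 (n := i)
        (union_subset (singleton_subset_iff.2 (clos h1 hi hcl (Or.inl rfl))) hi))
    p (Or.inl rfl) q (Or.inr (kap_self hq))
  obtain ⟨w, hw, hw'⟩ := bump hK hKc.2 hφ (δ := dist p q / 2) hpK hqK hp
    (by rw [dist_self]; linarith)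
  rcases hKA (connectedComponentIn_subset _ _ hw).1 with h | h
  · rw [show w = p from h] at hw'
    linarith
  · exact kap_sub h (connectedComponentIn_mono p inter_subset_right hw)

end

/-- In a metrizable continuum where every σ-connected F_σ subset has any two of its points inside a subcontinuum of that subset, any two distinct points p,q admit a subcontinuum containing one of them in its interior and missing the other. -/
theorem result :
    ∀ (X : Type) [TopologicalSpace X] [TopologicalSpace.MetrizableSpace X]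
      [CompactSpace X] [ConnectedSpace X],
      (∀ A : Set X,
        (∃ C : ℕ → Set X, (∀ n, IsClosed (C n)) ∧ A = ⋃ n, C n) →
        (¬ ∃ F : ℕ → Set X,
            (∀ n, ∃ D : Set X, IsClosed D ∧ F n = D ∩ A) ∧
            (∀ i j, i ≠ j → Disjoint (F i) (F j)) ∧
            (⋃ n, F n) = A ∧
            (∃ i j, i ≠ j ∧ (F i).Nonempty ∧ (F j).Nonempty)) →
        ∀ x ∈ A, ∀ y ∈ A, ∃ K : Set X, K ⊆ A ∧ IsCompact K ∧ IsConnected K ∧ x ∈ K ∧ y ∈ K) →
      ∀ p q : X, p ≠ q →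
        (∃ K : Set X, IsCompact K ∧ IsConnected K ∧ p ∈ interior K ∧ q ∉ K) ∨
        (∃ K : Set X, IsCompact K ∧ IsConnected K ∧ q ∈ interior K ∧ p ∉ K) := by
  intro X _ _ _ _ H p q hpq
  let _ := TopologicalSpace.metrizableSpaceMetric X
  refine Or.inr (apos (fun A h1 h2 => H A h1 ?_) hpq)
  rintro ⟨F, a, b, c, i, j, hij, hi, hj⟩
  exact hij (h2 F a b c i j hi hj)

end Pool.Agent.S13625
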