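import Pool.Statements.S13694
import Pool.Agent.H30.MooD

set_option autoImplicit false
open Pool Pool.MP_a33cdf_gt

namespace Pool.Agent.S13694

/-- The negation of the preceding statement: For every Tychonoff space X and cardinal τ: if every closed subspace of X has a dense subset of size at most τ, then every subspace of X has a dense subset of size at most τ. -/
theorem result :
    ¬ (∀ (X : Type) [TopologicalSpace X] [T35Space X] (τ : Cardinal.{0}),
      (∀ Y : Set X, IsClosed Y → ∃ D ⊆ Y, Y ⊆ closure D ∧ Cardinal.mk ↥D ≤ τ) →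
      ∀ Z : Set X, ∃ D ⊆ Z, Z ⊆ closure D ∧ Cardinal.mk ↥D ≤ τ) := by
  intro h
  obtain ⟨D, h1, h2, h3⟩ := h Pool.Agent.H30.Moo.XX Cardinal.aleph0 (fun Y hY => by
    obtain ⟨D, h1, h2, h3⟩ := Pool.Agent.H30.Moo.closed_sep Y hY
    exact ⟨D, h1, h2, Cardinal.le_aleph0_iff_set_countable.2 h3⟩)
    {z | ∃ β, z.1 = Pool.Agent.H30.Moo.px β β ∅}
  exact Pool.Agent.H30.Moo.not_sep_Z h1 (Cardinal.le_aleph0_iff_set_countable.1 h3) h2

end Pool.Agent.S13694
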