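import Pool.Statements.S13696
import Pool.Agent.Lead.Perf
import Pool.Agent.Lead.LExt

set_option autoImplicit false
open Pool Pool.MP_a4908e_gt

namespace Pool.Agent.S13696

/-- The negation of the preceding statement: For Tychonoff spaces X, Y: if every closed subset of X is a G-delta and the spaces of continuous real functions on X and Y with the pointwise topology are linearly homeomorphic, then every closed subset of Y is a G-delta. -/
theorem result :
    ¬ (∀ (X Y : Type) [TopologicalSpace X] [T35Space X] [TopologicalSpace Y] [T35Space Y],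
      (∀ s : Set X, IsClosed s → IsGδ s) →
      (∃ T : {f : X → ℝ // Continuous f} ≃ₜ {g : Y → ℝ // Continuous g},
        ∀ (a : ℝ) (f g h : {f : X → ℝ // Continuous f}),
          h.1 = a • f.1 + g.1 → (T h).1 = a • (T f).1 + (T g).1) →
      ∀ s : Set Y, IsClosed s → IsGδ s) := by
  intro H
  have := Pool.Agent.Retr.t35_sum (X := Perf.Z) (Y := Unit)
  have := Pool.Agent.Retr.t35_sum (X := Retr.K Perf.rho) (Y := Retr.P Perf.rho)
  have h1 : LExt.Rep (Retr.E Perf.rho Perf.rho_idem Perf.z0) := fun y => by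
    obtain ⟨a, b, c, h⟩ := Retr.E_rep Perf.rho Perf.rho_idem Perf.z0 y
    exact (((LExt.FS.eval a).sub (LExt.FS.eval b)).add (LExt.FS.eval c)).congr h
  have h2 : LExt.Rep (Retr.E Perf.rho Perf.rho_idem Perf.z0).symm := fun y => by
    obtain ⟨a, b, c, h⟩ := Retr.Es_rep Perf.rho Perf.rho_idem Perf.z0 y
    exact (((LExt.FS.eval a).sub (LExt.FS.eval b)).add (LExt.FS.eval c)).congr h
  exact Perf.not_perfect (H (Perf.Z ⊕ Unit) (Retr.K Perf.rho ⊕ Retr.P Perf.rho) Perf.perfect_sum
    ⟨(LExt.toUnif _ h1 h2).toHomeomorph, LExt.toUnif_lin _ h1 h2⟩)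

end Pool.Agent.S13696
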