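import Pool.Statements.S13710

set_option autoImplicit false
open Pool Pool.MP_a6a8af_gt

namespace Pool.Agent.S13710

open Set Filter Topology

abbrev T : Type := AddCircle (1 : ℝ)

lemma unicoh {Y : Type} [MetricSpace Y] [ConnectedSpace Y]
    (H : ∀ g : Y → T, Continuous g → ∃ h : Y → ℝ, Continuous h ∧ ∀ y, (h y : T) = g y)
    {A B : Set Y} (hA : IsClosed A) (hB : IsClosed B) (cA : IsConnected A) (cB : IsConnected B)
    (hu : A ∪ B = univ) : IsConnected (A ∩ B) := by
  classical
  have h0 := isPreconnected_closed_iff.1 isPreconnected_univ A B hA hB hu.ge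
    (by simpa using cA.1) (by simpa using cB.1)
  refine ⟨by simpa using h0, isPreconnected_closed_iff.2 ?_⟩
  rintro P Q hP hQ hs ⟨p, hp, hpP⟩ ⟨q, hq, hqQ⟩
  by_contra hn
  obtain ⟨u, u0, u1, -⟩ := exists_continuous_zero_one_of_isClosed ((hA.inter hB).inter hP)
    ((hA.inter hB).inter hQ) (disjoint_left.2 fun x h h' => hn ⟨x, h.1, h.2, h'.2⟩)
  have hag : ∀ y ∈ A ∩ B, ((u y / 2 : ℝ) : T) = ((-(u y / 2) : ℝ) : T) := by
    intro y hy
    rw [← sub_eq_zero, ← AddCircle.coe_sub, sub_neg_eq_add, add_halves]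
    rcases hs hy with h | h
    · rw [show u y = 0 from u0 ⟨hy, h⟩]; rfl
    · rw [show u y = 1 from u1 ⟨hy, h⟩]; exact AddCircle.coe_period 1
  let g : Y → T := fun y => if y ∈ A then ((u y / 2 : ℝ) : T) else ((-(u y / 2) : ℝ) : T)
  have gA : ∀ y ∈ A, g y = ((u y / 2 : ℝ) : T) := fun y hy => if_pos hy
  have gB : ∀ y ∈ B, g y = ((-(u y / 2) : ℝ) : T) := fun y hy => by
    by_cases h : y ∈ A
    · rw [gA y h, hag y ⟨h, hy⟩]
    · exact if_neg h
  have cc := AddCircle.continuous_mk' (1 : ℝ)
  have hg : Continuous g := by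
    rw [← continuousOn_univ, ← hu]
    exact ContinuousOn.union_of_isClosed
      (((cc.comp (by fun_prop : Continuous fun y => u y / 2)).continuousOn).congr gA)
      (((cc.comp (by fun_prop : Continuous fun y => -(u y / 2))).continuousOn).congr gB) hA hB
  obtain ⟨h, hc, hh⟩ := H g hg
  have k1 := (AddCircle.isCoveringMap_coe (1 : ℝ)).constOn_of_comp (g := fun y => h y - u y / 2)
    cA.2 (by fun_prop) (fun a ha b hb => by
      simp only [AddCircle.coe_sub, hh, gA a ha, gA b hb, sub_self]) hp.1 hq.1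
  have k2 := (AddCircle.isCoveringMap_coe (1 : ℝ)).constOn_of_comp
    (g := fun y => h y - -(u y / 2)) cB.2 (by fun_prop) (fun a ha b hb => by
      simp only [AddCircle.coe_sub, hh, gB a ha, gB b hb, sub_self]) hp.2 hq.2
  have e0 : u p = 0 := u0 ⟨hp, hpP⟩
  have e1 : u q = 1 := u1 ⟨hq, hqQ⟩
  simp only [e0, e1] at k1 k2
  linarith

abbrev X : Type := T × T × T

noncomputable def hf : T := ((1 / 2 : ℝ) : T)

lemma hf_add : hf + hf = 0 := by
  rw [hf, ← AddCircle.coe_add, add_halves]; exact AddCircle.coe_period 1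

lemma hf_neg : -hf = hf := neg_eq_of_add_eq_zero_left hf_add

lemma hf_ne : hf ≠ 0 := fun h => by
  have := (AddCircle.coe_eq_zero_iff_of_mem_Ico (p := (1 : ℝ)) (a := 1 / 2)
    ⟨by norm_num, by norm_num⟩).1 h
  norm_num at this

noncomputable def al (x : X) : X := (x.1 + hf, -x.2.1, -x.2.2)
noncomputable def be (x : X) : X := (-x.1, x.2.1 + hf, -x.2.2 + hf)
noncomputable def ga (x : X) : X := (-x.1 + hf, -x.2.1 + hf, x.2.2 + hf)

lemma al_c : Continuous al := by unfold al; fun_prop
lemma be_c : Continuous be := by unfold be; fun_prop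
lemma ga_c : Continuous ga := by unfold ga; fun_prop

lemma aa (x : X) : al (al x) = x := by simp [al, add_assoc, hf_add]
lemma bb (x : X) : be (be x) = x := by
  refine Prod.ext (neg_neg _) (Prod.ext ?_ ?_)
  · show x.2.1 + hf + hf = _
    rw [add_assoc, hf_add, add_zero]
  · show -(-x.2.2 + hf) + hf = _
    abel
lemma ab (x : X) : al (be x) = ga x := by simp [al, be, ga, add_comm, hf_neg]
lemma ba (x : X) : be (al x) = ga x := by simp [al, be, ga, add_comm, hf_neg]

noncomputable def F0 : C(X × X, ℝ) :=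
  ⟨fun p => dist p.2 p.1 * dist p.2 (al p.1) * dist p.2 (be p.1) * dist p.2 (ga p.1), by
    have := al_c
    have := be_c
    have := ga_c
    fun_prop⟩

noncomputable def F : C(X, C(X, ℝ)) := F0.curry

lemma F_al (x : X) : F (al x) = F x := by
  ext y
  show dist y (al x) * dist y (al (al x)) * dist y (be (al x)) * dist y (ga (al x)) =
    dist y x * dist y (al x) * dist y (be x) * dist y (ga x)
  rw [aa, ba, ← ba (al x), aa]
  ring

lemma F_be (x : X) : F (be x) = F x := by
  ext y
  show dist y (be x) * dist y (al (be x)) * dist y (be (be x)) * dist y (ga (be x)) =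
    dist y x * dist y (al x) * dist y (be x) * dist y (ga x)
  rw [bb, ab, ← ab (be x), bb]
  ring

lemma F_ga (x : X) : F (ga x) = F x := by rw [← ab, F_al, F_be]

lemma F_eq {x y : X} (h : F y = F x) : y = x ∨ y = al x ∨ y = be x ∨ y = ga x := by
  have h1 : F y y = F x y := by rw [h]
  have h2 : dist y y * dist y (al y) * dist y (be y) * dist y (ga y) =
    dist y x * dist y (al x) * dist y (be x) * dist y (ga x) := h1
  rw [dist_self, zero_mul, zero_mul, zero_mul] at h2
  simpa [or_assoc] using h2.symm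

noncomputable def f : X → range F := rangeFactorization F

lemma f_c : Continuous f := F.continuous.rangeFactorization

lemma f_q : IsQuotientMap f := f_c.isClosedMap.isQuotientMap f_c rangeFactorization_surjective

lemma f_open : IsOpenMap f := by
  intro U hU
  rw [← f_q.isOpen_preimage]
  have : f ⁻¹' (f '' U) = U ∪ (al ⁻¹' U ∪ (be ⁻¹' U ∪ ga ⁻¹' U)) := by
    ext x
    constructor
    · rintro ⟨y, hy, e⟩
      rcases F_eq (congrArg Subtype.val e) with rfl | rfl | rfl | rfl
      · exact Or.inl hy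
      · exact Or.inr (Or.inl hy)
      · exact Or.inr (Or.inr (Or.inl hy))
      · exact Or.inr (Or.inr (Or.inr hy))
    · rintro (h | h | h | h)
      · exact ⟨_, h, rfl⟩
      · exact ⟨_, h, Subtype.ext (F_al x)⟩
      · exact ⟨_, h, Subtype.ext (F_be x)⟩
      · exact ⟨_, h, Subtype.ext (F_ga x)⟩
  rw [this]
  exact hU.union ((hU.preimage al_c).union ((hU.preimage be_c).union (hU.preimage ga_c)))

lemma f_lh : IsLocalHomeomorph f := by
  refine isLocalHomeomorph_iff_isOpenEmbedding_restrict.2 fun x => ?_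
  have hW : IsOpen ({p : X × X | p.1 ≠ al p.2} ∩ ({p | p.1 ≠ be p.2} ∩ {p | p.1 ≠ ga p.2})) :=
    (isOpen_ne_fun continuous_fst (al_c.comp continuous_snd)).inter
      ((isOpen_ne_fun continuous_fst (be_c.comp continuous_snd)).inter
        (isOpen_ne_fun continuous_fst (ga_c.comp continuous_snd)))
  obtain ⟨U, hU, hxU, hUW⟩ := exists_nhds_square (hW.mem_nhds (x := (x, x))
    ⟨fun h => hf_ne (by simpa [al] using congrArg (fun p : X => p.1) h),
      fun h => hf_ne (by simpa [be] using congrArg (fun p : X => p.2.1) h),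
      fun h => hf_ne (by simpa [ga] using congrArg (fun p : X => p.2.2) h)⟩)
  refine ⟨U, hU.mem_nhds hxU, .of_continuous_injective_isOpenMap (f_c.comp continuous_subtype_val)
    (fun a b h => Subtype.ext ?_) (f_open.comp hU.isOpenMap_subtype_val)⟩
  have := hUW (mk_mem_prod a.2 b.2)
  rcases F_eq (congrArg Subtype.val h) with h | h | h | h
  · exact h
  · exact absurd h this.1
  · exact absurd h this.2.1
  · exact absurd h this.2.2

def pr (v : ℝ × ℝ × ℝ) : X := (v.1, v.2.1, v.2.2)

lemma pr_q : IsOpenQuotientMap pr :=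
  QuotientAddGroup.isOpenQuotientMap_mk.prodMap
    (QuotientAddGroup.isOpenQuotientMap_mk.prodMap QuotientAddGroup.isOpenQuotientMap_mk)

noncomputable def a (v : ℝ × ℝ × ℝ) : ℝ × ℝ × ℝ := (v.1 + 1 / 2, -v.2.1, -v.2.2)
noncomputable def b (v : ℝ × ℝ × ℝ) : ℝ × ℝ × ℝ := (-v.1, v.2.1 + 1 / 2, -v.2.2 + 1 / 2)

lemma pr_a (v : ℝ × ℝ × ℝ) : pr (a v) = al (pr v) := rfl
lemma pr_b (v : ℝ × ℝ × ℝ) : pr (b v) = be (pr v) := rfl

lemma per {k : ℝ → ℝ} (h : ∀ t, k (t + 1) = k t) {s t : ℝ} (e : (s : T) = t) : k s = k t := by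
  obtain ⟨n, hn⟩ := AddSubgroup.mem_zmultiples_iff.1 (QuotientAddGroup.eq.1 e)
  rw [← (show Function.Periodic k 1 from h).zsmul n s, hn]
  congr 1
  ring

lemma lifts (g : range F → T) (hg : Continuous g) :
    ∃ h : range F → ℝ, Continuous h ∧ ∀ y, (h y : T) = g y := by
  have cov := AddCircle.isCoveringMap_coe (1 : ℝ)
  obtain ⟨e0, he0⟩ : ∃ e0 : ℝ, (e0 : T) = g (f (pr 0)) := QuotientAddGroup.mk_surjective _
  obtain ⟨h, ⟨-, hh⟩, -⟩ := cov.existsUnique_continuousMap_lifts
    ⟨fun v => g (f (pr v)), hg.comp (f_c.comp pr_q.continuous)⟩ 0 e0 he0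
  have hh' : ∀ v, (h v : T) = g (f (pr v)) := fun v => congrFun hh v
  have key : ∀ c : ℝ × ℝ × ℝ → ℝ × ℝ × ℝ, Continuous c → (∀ v, f (pr (c v)) = f (pr v)) →
      ∃ r, ∀ v, h (c v) = h v + r := fun c hc h1 =>
    ⟨h (c 0) - h 0, fun v => by
      have := cov.const_of_comp (g := fun v => h (c v) - h v) (by fun_prop) (fun v w => by
        simp only [AddCircle.coe_sub, hh', h1, sub_self]) v 0
      linarith⟩
  obtain ⟨r, hr⟩ := key a (by unfold a; fun_prop) fun v => Subtype.ext (F_al (pr v))
  obtain ⟨s, hs⟩ := key b (by unfold b; fun_prop) fun v => Subtype.ext (F_be (pr v))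
  have hr0 : r = 0 := by
    have : a (a (b (a (a 0)))) = b 0 := by simp only [a, b]; norm_num
    have := congrArg h this
    simp only [hr, hs] at this
    linarith
  have hs0 : s = 0 := by
    have : b (b (a (b (b 0)))) = a 0 := by simp only [a, b]; norm_num
    have := congrArg h this
    simp only [hr, hs] at this
    linarith
  simp only [hr0, hs0, add_zero] at hr hs
  have h1 : ∀ v w, pr v = pr w → h v = h w := by
    rintro ⟨x, y, z⟩ ⟨x', y', z'⟩ e
    simp only [pr, Prod.mk.injEq] at e
    have e1 : h (x, y, z) = h (x', y, z) := per (k := fun t => h (t, y, z)) (fun t => by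
      have : (t + 1, y, z) = a (a (t, y, z)) := by simp only [a, neg_neg]; congr 1; ring
      simp only [this, hr]) e.1
    have e2 : h (x', y, z) = h (x', y', z) := per (k := fun t => h (x', t, z)) (fun t => by
      have : (x', t + 1, z) = b (b (x', t, z)) := by
        simp only [b, neg_neg, Prod.mk.injEq, true_and]; constructor <;> ring
      simp only [this, hs]) e.2.1
    have e3 : h (x', y', z) = h (x', y', z') := per (k := fun t => h (x', y', t)) (fun t => by
      have : (x', y', t) = a (b (a (b (x', y', t + 1)))) := by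
        simp only [a, b, Prod.mk.injEq]; refine ⟨?_, ?_, ?_⟩ <;> ring
      simp only [this, hs, hr]) e.2.2
    rw [e1, e2, e3]
  have h2 : ∀ v w, f (pr v) = f (pr w) → h v = h w := by
    intro v w e
    rcases F_eq (congrArg Subtype.val e) with e | e | e | e
    · exact h1 _ _ e
    · rw [← hr w]; exact h1 _ _ e
    · rw [← hs w]; exact h1 _ _ e
    · rw [← hs w, ← hr (b w)]; exact h1 _ _ (by rw [e, pr_a, pr_b, ab])
  have hq := f_q.comp pr_q.isQuotientMap
  choose σ hσ using hq.surjective
  refine ⟨fun y => h (σ y), hq.continuous_iff.2 ?_, fun y => ?_⟩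
  · convert h.continuous using 1
    funext v
    exact h2 _ _ (hσ _)
  · rw [hh']
    exact congrArg g (hσ y)

/-- The negation of the preceding statement: If X is a locally connected metric continuum that is a union of two subcontinua with disconnected intersection, and f is a local homeomorphism of X onto a metric space Y, then Y is also such a union. -/
theorem result :
    ¬ (∀ (X Y : Type) [MetricSpace X] [CompactSpace X] [ConnectedSpace X]
      [LocallyConnectedSpace X] [MetricSpace Y] (f : X → Y),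
      IsLocalHomeomorph f → Function.Surjective f →
      (∃ A B : Set X, IsClosed A ∧ IsClosed B ∧ IsConnected A ∧ IsConnected B ∧
          A ∪ B = Set.univ ∧ ¬ IsConnected (A ∩ B)) →
      (∃ A B : Set Y, IsClosed A ∧ IsClosed B ∧ IsConnected A ∧ IsConnected B ∧
          A ∪ B = Set.univ ∧ ¬ IsConnected (A ∩ B))) := by
  intro H
  have : LocallyPathConnectedSpace X := pr_q.isQuotientMap.locallyPathConnectedSpace
  have : ConnectedSpace (range F) := rangeFactorization_surjective.connectedSpace f_c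
  have cc := AddCircle.continuous_mk' (1 : ℝ)
  obtain ⟨A, B, hA, hB, cA, cB, hu, hn⟩ := H X (range F) f f_lh rangeFactorization_surjective
    ⟨((↑) '' Icc (0 : ℝ) (1 / 2)) ×ˢ univ, ((↑) '' Icc (1 / 2 : ℝ) 1) ×ˢ univ,
      (isCompact_Icc.image cc).isClosed.prod isClosed_univ,
      (isCompact_Icc.image cc).isClosed.prod isClosed_univ,
      ((isConnected_Icc (by norm_num)).image _ cc.continuousOn).prod isConnected_univ,
      ((isConnected_Icc (by norm_num)).image _ cc.continuousOn).prod isConnected_univ, by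
        refine eq_univ_of_forall fun x => ?_
        obtain ⟨t, ht, e⟩ := AddCircle.eq_coe_Ico x.1
        rcases le_total t (1 / 2) with h | h
        · exact Or.inl ⟨⟨t, ⟨ht.1, h⟩, e⟩, trivial⟩
        · exact Or.inr ⟨⟨t, ⟨h, ht.2.le⟩, e⟩, trivial⟩, fun h => by
        refine (h.2.image _ continuous_fst.continuousOn).infinite_of_nontrivial
          ⟨hf, ⟨(hf, 0), ⟨⟨⟨1 / 2, by norm_num, rfl⟩, trivial⟩, ⟨⟨1 / 2, by norm_num, rfl⟩, trivial⟩⟩,
            rfl⟩, 0, ⟨(0, 0), ⟨⟨⟨0, by norm_num, rfl⟩, trivial⟩,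
            ⟨⟨1, by norm_num, AddCircle.coe_period 1⟩, trivial⟩⟩, rfl⟩, hf_ne⟩
          ((toFinite {hf, 0}).subset ?_)
        rintro _ ⟨x, ⟨⟨⟨s, hs, e1⟩, -⟩, ⟨⟨t, ht, e2⟩, -⟩⟩, rfl⟩
        rcases ht.2.eq_or_lt with h | h
        · right
          rw [← e2, h]
          exact AddCircle.coe_period 1
        · left
          have := (AddCircle.coe_eq_coe_iff_of_mem_Ico (p := (1 : ℝ)) (a := 0)
            ⟨hs.1, by linarith [hs.2]⟩ ⟨by linarith [ht.1], by linarith⟩).1 (e1.trans e2.symm)
          rw [← e1, show s = 1 / 2 by linarith [hs.2, ht.1]]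
          rfl⟩
  exact hn (unicoh lifts hA hB cA cB hu)

end Pool.Agent.S13710
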