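import Pool.Statements.S13724
import Pool.Agent.H31.VdX

set_option autoImplicit false
open Pool Pool.MP_a8721e_gt

namespace Pool.Agent.S13724

theorem result :
    ¬ (∀ (X : Type) [TopologicalSpace X], T2Space X → CompactSpace X →
      TopologicalSpace.IsTopologicalBasis {s : Set X | IsClopen s} →
      (∀ x y : X, ∃ h : X ≃ₜ X, h x = y) →
      ∀ U : Set (X → X), U ∈ nhds (id : X → X) →
        ∃ F : Set (X → X), F.Finite ∧ (∀ g ∈ F, Continuous g) ∧
          ∀ f : X → X, Continuous f →
            ∃ g ∈ F, ∃ u ∈ U, Continuous u ∧ f = g ∘ u) := by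
  exact Pool.Agent.H31.VdX.neg

end Pool.Agent.S13724
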