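import Pool.Statements.S13772

set_option autoImplicit false
open Pool Pool.MP_b1ea19_gt

namespace Pool.Agent.S13772

open Set Filter Topology Real

def T : Set (ℝ × ℝ) := {p | p.1 ∈ Icc 0 1 ∧ p.2 ∈ Icc (-1) 1 ∧ (0 < p.1 → p.2 = sin p.1⁻¹)}

noncomputable def gr (x : ℝ) : ℝ × ℝ := (x, sin x⁻¹)

lemma gr_cont {x : ℝ} (hx : x ≠ 0) : ContinuousAt gr x :=
  continuousAt_id.prodMk (continuous_sin.continuousAt.comp (continuousAt_inv₀ hx))

lemma isCompact_T : IsCompact T := by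
  have h1 : IsOpen ({p : ℝ × ℝ | 0 < p.1} ∩ (fun p : ℝ × ℝ => p.2 - sin p.1⁻¹) ⁻¹' {0}ᶜ) := by
    refine ContinuousOn.isOpen_inter_preimage ?_ (isOpen_lt continuous_const continuous_fst)
      isOpen_compl_singleton
    intro p hp
    exact (continuousAt_snd.sub (continuous_sin.continuousAt.comp
      (continuousAt_fst.inv₀ (ne_of_gt hp)))).continuousWithinAt
  have h2 := ((isCompact_Icc (a := (0:ℝ)) (b := 1)).prod
    (isCompact_Icc (a := (-1:ℝ)) (b := 1))).inter_right h1.isClosed_compl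
  convert h2 using 1
  ext p
  simp only [T, mem_setOf_eq, mem_inter_iff, mem_prod, mem_compl_iff, mem_preimage,
    mem_singleton_iff, not_and, not_not, sub_eq_zero, and_assoc]

lemma exists_small {y : ℝ} (hy : y ∈ Icc (-1:ℝ) 1) {a : ℝ} (ha : 0 < a) :
    ∃ x ∈ Ioo 0 a, sin x⁻¹ = y := by
  obtain ⟨k, hk⟩ := exists_nat_gt (a⁻¹)
  have h1 := neg_pi_div_two_le_arcsin y
  have h2 := pi_gt_three
  have h3 : 0 < a⁻¹ := inv_pos.2 ha
  have h4 : a⁻¹ < arcsin y + ((k + 1 : ℕ) : ℝ) * (2 * π) := by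
    push_cast
    nlinarith
  refine ⟨(arcsin y + ((k + 1 : ℕ) : ℝ) * (2 * π))⁻¹, ⟨inv_pos.2 (h3.trans h4), ?_⟩, ?_⟩
  · exact (inv_lt_comm₀ (h3.trans h4) ha).2 h4
  · rw [inv_inv, sin_add_nat_mul_two_pi, sin_arcsin' hy]

lemma mem_clos {a b : ℝ} (ha : 0 ≤ a) (hab : a < b) {p : ℝ × ℝ} (hp : p ∈ T) (h1 : a ≤ p.1)
    (h2 : p.1 ≤ b) : p ∈ closure (gr '' Ioo a b) := by
  rcases hp.1.1.eq_or_lt with h | h
  · have ha0 : a = 0 := le_antisymm (h ▸ h1) ha
    subst ha0
    refine Metric.mem_closure_iff.2 fun ε hε => ?_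
    obtain ⟨x, hx, hs⟩ := exists_small hp.2.1 (lt_min hab hε)
    refine ⟨gr x, ⟨x, ⟨hx.1, hx.2.trans_le (min_le_left _ _)⟩, rfl⟩, ?_⟩
    rw [Prod.dist_eq, max_lt_iff]
    refine ⟨?_, ?_⟩
    · show dist p.1 x < ε
      rw [← h, Real.dist_eq, zero_sub, abs_neg, abs_of_pos hx.1]
      exact hx.2.trans_le (min_le_right _ _)
    · show dist p.2 (sin x⁻¹) < ε
      rw [hs, dist_self]; exact hε
  · have : p = gr p.1 := Prod.ext rfl (hp.2.2 h)
    rw [this]
    refine mem_closure_image (gr_cont h.ne') ?_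
    rw [closure_Ioo hab.ne]
    exact ⟨h1, h2⟩

lemma pre_gr {a b : ℝ} (ha : 0 ≤ a) : IsPreconnected (gr '' Ioo a b) :=
  isPreconnected_Ioo.image _ fun _ hx => (gr_cont (ha.trans_lt hx.1).ne').continuousWithinAt

lemma isConnected_T : IsConnected T := by
  refine ⟨⟨(0, 0), by simp [T]⟩, (pre_gr (a := 0) (b := 1) le_rfl).subset_closure ?_ ?_⟩
  · rintro _ ⟨x, hx, rfl⟩
    exact ⟨⟨hx.1.le, hx.2.le⟩, sin_mem_Icc _, fun _ => rfl⟩
  · exact fun p hp => mem_clos le_rfl zero_lt_one hp hp.1.1 hp.1.2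

lemma cut {X : Type*} [TopologicalSpace X] {C : Set X} (hC : IsPreconnected C) {φ : X → ℝ}
    (hφ : Continuous φ) {p u v : X} (hp : p ∈ C) (hu : u ∈ C) (hv : v ∈ C)
    (h : ∀ q ∈ C, φ q = φ p → q = p) (h1 : φ u < φ p) (h2 : φ p < φ v) :
    p ∈ C ∧ ∃ V : Set X, IsOpen V ∧ p ∈ V ∧
      ¬ IsPreconnected (connectedComponentIn (V ∩ C) p \ {p}) := by
  refine ⟨hp, univ, isOpen_univ, trivial, ?_⟩
  rw [univ_inter, hC.connectedComponentIn hp]
  intro hc
  obtain ⟨q, hq, hq'⟩ := hc.intermediate_value (a := u) (b := v)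
    ⟨hu, fun e => h1.ne (congrArg φ e)⟩ ⟨hv, fun e => h2.ne' (congrArg φ e)⟩ hφ.continuousOn
    ⟨h1.le, h2.le⟩
  exact hq.2 (h q hq.1 hq')

lemma no_path (f : ℝ → ℝ × ℝ) (hf : Continuous f) (hT : ∀ t, f t ∈ T) (h0 : (f 0).1 = 0)
    (h1 : (f 1).1 = 1) : False := by
  have hx : Continuous fun t => (f t).1 := continuous_fst.comp hf
  have hK : IsCompact (Icc (0:ℝ) 1 ∩ (fun t => (f t).1) ⁻¹' {0}) :=
    isCompact_Icc.inter_right (isClosed_singleton.preimage hx)
  obtain ⟨t₀, ht₀, hmax⟩ := hK.exists_isGreatest ⟨0, ⟨le_rfl, zero_le_one⟩, h0⟩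
  have ht0 : (f t₀).1 = 0 := ht₀.2
  have hlt : t₀ < 1 := lt_of_le_of_ne ht₀.1.2 fun e => by
    rw [e, h1] at ht0; exact one_ne_zero ht0
  obtain ⟨δ, hδ, ht⟩ := Metric.continuous_iff.1 (continuous_snd.comp hf) t₀ 1 one_pos
  set t₁ := min (t₀ + δ / 2) 1 with ht₁
  have h2 : t₀ < t₁ := lt_min (by linarith) hlt
  have h3 : t₁ ≤ t₀ + δ / 2 := min_le_left _ _
  have ha : 0 < (f t₁).1 := lt_of_le_of_ne (hT t₁).1.1 fun e =>
    (hmax ⟨⟨ht₀.1.1.trans h2.le, min_le_right _ _⟩, e.symm⟩).not_gt h2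
  have key : ∀ y ∈ Icc (-1:ℝ) 1, dist y (f t₀).2 < 1 := by
    intro y hy
    obtain ⟨x, hx', hs⟩ := exists_small hy ha
    obtain ⟨t, ht', e⟩ := intermediate_value_Icc h2.le hx.continuousOn
      (show x ∈ Icc (f t₀).1 (f t₁).1 from ⟨ht0 ▸ hx'.1.le, hx'.2.le⟩)
    have e' : (f t).1 = x := e
    have := ht t (by rw [Real.dist_eq, abs_lt]; constructor <;> linarith [ht'.1, ht'.2])
    have e2 : (f t).2 = y := by rw [(hT t).2.2 (e' ▸ hx'.1), e', hs]
    simpa [e2] using this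
  have k1 := key 1 (by norm_num)
  have k2 := key (-1) (by norm_num)
  rw [Real.dist_eq, abs_lt] at k1 k2
  linarith [k1.2, k2.1]

/-- The negation of the preceding statement: If X is a continuum in which every subcontinuum C has a connected set of local separating points, then any two distinct points of any connected subset of X are joined by an arc lying inside that subset. -/
theorem result :
    ¬ (∀ (X : Type) [MetricSpace X] [CompactSpace X] [ConnectedSpace X],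
      (∀ C : Set X, IsCompact C → IsConnected C →
        IsPreconnected {p : X | p ∈ C ∧ ∃ V : Set X, IsOpen V ∧ p ∈ V ∧
          ¬ IsPreconnected (connectedComponentIn (V ∩ C) p \ {p})}) →
      ∀ A : Set X, IsConnected A → ∀ x ∈ A, ∀ y ∈ A, x ≠ y →
        ∃ f : unitInterval → X, Continuous f ∧ Function.Injective f ∧
          f 0 = x ∧ f 1 = y ∧ Set.range f ⊆ A) := by
  intro H
  haveI : CompactSpace T := isCompact_iff_compactSpace.1 isCompact_T
  haveI : ConnectedSpace T := isConnected_iff_connectedSpace.1 isConnected_T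
  have c1 : Continuous fun p : T => p.1.1 := continuous_fst.comp continuous_subtype_val
  have c2 : Continuous fun p : T => p.1.2 := continuous_snd.comp continuous_subtype_val
  obtain ⟨f, hf, -, h0, h1, -⟩ := H T (by
    intro C hC hc
    obtain ⟨u, hu, hu'⟩ := hC.exists_isMinOn hc.1 c1.continuousOn
    obtain ⟨v, hv, hv'⟩ := hC.exists_isMaxOn hc.1 c1.continuousOn
    rcases (show u.1.1 ≤ v.1.1 from hu' hv).eq_or_lt with e | hlt
    · obtain ⟨u', hu1, hu1'⟩ := hC.exists_isMinOn hc.1 c2.continuousOn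
      obtain ⟨v', hv1, hv1'⟩ := hC.exists_isMaxOn hc.1 c2.continuousOn
      have hx : ∀ q ∈ C, q.1.1 = u.1.1 := fun q hq => le_antisymm (e ▸ hv' hq) (hu' hq)
      rcases (show u'.1.2 ≤ v'.1.2 from hu1' hv1).eq_or_lt with e' | hlt'
      · refine Set.Subsingleton.isPreconnected fun p hp q hq => Subtype.ext (Prod.ext ?_ ?_)
        · rw [hx p hp.1, hx q hq.1]
        · have a1 : u'.1.2 ≤ p.1.2 := hu1' hp.1
          have a2 : p.1.2 ≤ v'.1.2 := hv1' hp.1
          have a3 : u'.1.2 ≤ q.1.2 := hu1' hq.1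
          have a4 : q.1.2 ≤ v'.1.2 := hv1' hq.1
          linarith
      · refine (Topology.IsInducing.subtypeVal.isPreconnected_image).1 ?_
        have cg : Continuous fun y : ℝ => (u.1.1, y) := by fun_prop
        refine ((isPreconnected_Ioo (a := u'.1.2) (b := v'.1.2)).image _
          cg.continuousOn).subset_closure ?_ ?_
        · rintro _ ⟨y, hy, rfl⟩
          obtain ⟨p, hp, hpy⟩ := hc.2.intermediate_value hu1 hv1 c2.continuousOn ⟨hy.1.le, hy.2.le⟩
          have hpy' : p.1.2 = y := hpy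
          refine ⟨p, cut hc.2 c2 hp hu1 hv1 (fun q hq h => Subtype.ext (Prod.ext ?_ h))
            (hpy' ▸ hy.1) (hpy' ▸ hy.2), Prod.ext (hx p hp) hpy⟩
          rw [hx p hp, hx q hq]
        · rintro _ ⟨p, hp, rfl⟩
          have : p.1 = (u.1.1, p.1.2) := Prod.ext (hx p hp.1) rfl
          rw [this]
          refine mem_closure_image cg.continuousAt ?_
          rw [closure_Ioo hlt'.ne]
          exact ⟨hu1' hp.1, hv1' hp.1⟩
    · refine (Topology.IsInducing.subtypeVal.isPreconnected_image).1 ?_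
      refine (pre_gr (a := u.1.1) (b := v.1.1) u.2.1.1).subset_closure ?_ ?_
      · rintro _ ⟨x, hx, rfl⟩
        obtain ⟨p, hp, hpx⟩ := hc.2.intermediate_value hu hv c1.continuousOn ⟨hx.1.le, hx.2.le⟩
        have hpx' : p.1.1 = x := hpx
        have hpos : 0 < p.1.1 := hpx' ▸ u.2.1.1.trans_lt hx.1
        refine ⟨p, cut hc.2 c1 hp hu hv (fun q hq h => Subtype.ext (Prod.ext h ?_))
          (hpx' ▸ hx.1) (hpx' ▸ hx.2), Prod.ext hpx ?_⟩
        · have h' : q.1.1 = p.1.1 := h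
          rw [q.2.2.2 (h' ▸ hpos), p.2.2.2 hpos, h']
        · rw [p.2.2.2 hpos, hpx']; rfl
      · rintro _ ⟨p, hp, rfl⟩
        exact mem_clos u.2.1.1 hlt p.2 (hu' hp.1) (hv' hp.1))
    univ isConnected_univ ⟨(0, 0), by simp [T]⟩ trivial
    ⟨gr 1, ⟨⟨zero_le_one, le_rfl⟩, sin_mem_Icc _, fun _ => rfl⟩⟩ trivial
    (fun h => by
      have := congrArg (fun p : T => p.1.1) h
      simp [gr] at this)
  refine no_path (fun t => (f (projIcc 0 1 zero_le_one t)).1)
    (continuous_subtype_val.comp (hf.comp (continuous_projIcc (h := zero_le_one))))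
    (fun t => (f _).2) ?_ ?_
  · have : projIcc (0:ℝ) 1 zero_le_one 0 = (0 : unitInterval) := projIcc_left _
    simp only [this, h0]
  · have : projIcc (0:ℝ) 1 zero_le_one 1 = (1 : unitInterval) := projIcc_right _
    simp only [this, h1, gr]

end Pool.Agent.S13772
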