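import Pool.Statements.S13822
import Pool.Agent.Lead.Iso2

set_option autoImplicit false
open Pool Pool.MP_ba0d78_gt

namespace Pool.Agent.S13822

open Pool.Agent.Lead.Gro in
theorem result :
    ¬ (∀ (X : Type) [TopologicalSpace X] [T35Space X],
      ((∀ S : Set {f : X → ℝ // Continuous f}, IsClosed S →
          (∀ u : ℕ → {f : X → ℝ // Continuous f}, (∀ n, u n ∈ S) →
            ∃ z ∈ S, MapClusterPt z Filter.atTop u) →
          IsCompact S) ↔
       (∀ A : Set {f : X → ℝ // Continuous f},
          (∀ u : ℕ → {f : X → ℝ // Continuous f}, (∀ n, u n ∈ A) →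
            ∃ z, MapClusterPt z Filter.atTop u) →
          IsCompact (closure A)))) := by
  intro h
  obtain ⟨𝒜, h0, h1, h2, h3⟩ := exists_mad
  refine not_wg_mad h0 h1 h2 h3 (wg_iff.1 fun A hA => ?_)
  refine (h (XX (P0 𝒜) (fun _ => true))).1 ?_ A fun u hu => ?_
  · intro S _ hS
    have hR : RCC (Subtype.val '' S) (Subtype.val '' S) := by
      intro a ha
      choose b hb1 hb2 using ha
      obtain ⟨z, hz1, hz⟩ := hS b hb1
      refine ⟨z.1, ⟨z, hz1, rfl⟩, ?_⟩
      have := hz.continuousAt_comp continuous_subtype_val.continuousAt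
      rwa [show Subtype.val ∘ b = a from funext hb2] at this
    have h4 := iso (Set.countable_range Sum.inl) (P0_H1 𝒜) (P0_H2 𝒜) (P0_H3 𝒜)
      (by rintro _ ⟨g, -, rfl⟩; exact g.2) hR
    have h5 := hR.compact_closure
    rw [h4.antisymm subset_closure] at h5
    exact Topology.IsEmbedding.subtypeVal.isCompact_iff.2 h5
  · obtain ⟨z, -, hz⟩ := ccin_iff.1 hA u hu
    exact ⟨z, hz⟩

end Pool.Agent.S13822
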