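import Pool.Statements.S13830
import Pool.Agent.H31.Co2

set_option autoImplicit false
open Pool Pool.MP_badb58_gt

namespace Pool.Agent.S13830

/-- The negation of the preceding statement: For every consonant T0 space X, the space of nonempty compact saturated subsets of X, with the upper Vietoris topology generated by the sets {K : K ⊆ U} for U open, is again consonant. -/
theorem result :
    ¬ (∀ (Cons : (Y : Type) → TopologicalSpace Y → Prop),
    (∀ (Y : Type) (t : TopologicalSpace Y), Cons Y t ↔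
      ∀ F : Set (Set Y), (∀ U ∈ F, @IsOpen Y t U) →
        (∀ U V : Set Y, U ∈ F → @IsOpen Y t V → U ⊆ V → V ∈ F) →
        (∀ D : Set (Set Y), D.Nonempty → (∀ U ∈ D, @IsOpen Y t U) →
            DirectedOn (· ⊆ ·) D → ⋃₀ D ∈ F → ∃ U ∈ D, U ∈ F) →
        ∀ U ∈ F, ∃ K : Set Y, @IsCompact Y t K ∧ K ⊆ U ∧
          ∀ V : Set Y, @IsOpen Y t V → K ⊆ V → V ∈ F) →
    ∀ (X : Type) [TopologicalSpace X] [T0Space X], Cons X inferInstance →
      Cons {K : Set X // K.Nonempty ∧ IsCompact K ∧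
              ∀ x : X, (∀ U : Set X, IsOpen U → K ⊆ U → x ∈ U) → x ∈ K}
        (TopologicalSpace.generateFrom
          {S | ∃ U : Set X, IsOpen U ∧ S = {K | K.1 ⊆ U}})) := by
  intro h
  have h1 := h (fun Y t => @Pool.Agent.H31.Co.Cons Y t) (fun Y t => ⟨fun h F h1 h2 h3 =>
    h F ⟨h1, fun U hU V => h2 U V hU, fun D h4 h5 h6 => h3 D h4 h6 h5⟩, fun h F hF =>
      h F hF.1 (fun U V hU => hF.2.1 U hU V) fun D h4 h5 h6 => hF.2.2 D h4 h6 h5⟩)
    Pool.Agent.H31.Co.X Pool.Agent.H31.Co.finCons.cons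
  exact Pool.Agent.H31.Co.smyth h1

end Pool.Agent.S13830
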