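import Pool.Statements.S13903

set_option autoImplicit false
open Pool Pool.MP_c502b8_gt

namespace Pool.Agent.S13903

open Set Filter Topology in
/-- In a countably compact space every sequence has a cluster point. -/
theorem cluster {G : Type} [TopologicalSpace G]
    (hG : ∀ U : ℕ → Set G, (∀ n, IsOpen (U n)) → Set.univ ⊆ ⋃ n, U n →
          ∃ s : Finset ℕ, Set.univ ⊆ ⋃ n ∈ s, U n) (g : ℕ → G) :
    ∃ x, ∀ n, x ∈ closure (g '' Ici n) := by
  by_contra hne
  push Not at hne
  obtain ⟨s, hs⟩ := hG (fun n => (closure (g '' Ici n))ᶜ) (fun n => isClosed_closure.isOpen_compl)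
    (fun x _ => by
      obtain ⟨n, hn⟩ := hne x
      exact mem_iUnion.2 ⟨n, hn⟩)
  have := hs (mem_univ (g (s.sup id)))
  simp only [mem_iUnion] at this
  obtain ⟨n, hn, h⟩ := this
  exact h (subset_closure ⟨s.sup id, Finset.le_sup (f := id) hn, rfl⟩)

open Set Filter Topology in
/-- With a countable network on `H`, every set `K` mapped into `H` has a countable subset whose
image is sequentially dense in the image of `K`. -/
theorem seqDense {Z H : Type} [TopologicalSpace H]
    (hH : ∃ N : Set (Set H), N.Countable ∧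
          ∀ (x : H) (U : Set H), IsOpen U → x ∈ U → ∃ A ∈ N, x ∈ A ∧ A ⊆ U)
    (K : Set Z) (p : Z → H) :
    ∃ D ⊆ K, D.Countable ∧ ∀ z ∈ K, ∃ d : ℕ → Z, (∀ n, d n ∈ D) ∧
      Tendsto (fun n => p (d n)) atTop (𝓝 (p z)) := by
  classical
  obtain ⟨N, hNc, hN⟩ := hH
  rcases K.eq_empty_or_nonempty with rfl | ⟨z0, hz0⟩
  · exact ⟨∅, Subset.rfl, countable_empty, fun z hz => absurd hz (notMem_empty z)⟩
  have hne : N.Nonempty := by
    obtain ⟨A, hA, -⟩ := hN (p z0) univ isOpen_univ (mem_univ _)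
    exact ⟨A, hA⟩
  obtain ⟨e, he⟩ := hNc.exists_eq_range hne
  have hch : ∀ s : Finset ℕ, ∃ w ∈ K, (∃ z ∈ K, ∀ i ∈ s, p z ∈ e i) → ∀ i ∈ s, p w ∈ e i := by
    intro s
    by_cases h : ∃ z ∈ K, ∀ i ∈ s, p z ∈ e i
    · obtain ⟨z, hz, h⟩ := h
      exact ⟨z, hz, fun _ => h⟩
    · exact ⟨z0, hz0, fun h' => absurd h' h⟩
  choose w hwK hw using hch
  refine ⟨range w, by rintro _ ⟨s, rfl⟩; exact hwK s, countable_range w, fun z hz => ?_⟩
  refine ⟨fun n => w ((Finset.range n).filter fun i => p z ∈ e i), fun n => mem_range_self _, ?_⟩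
  rw [tendsto_nhds]
  intro U hU hzU
  obtain ⟨A, hA, hzA, hAU⟩ := hN (p z) U hU hzU
  rw [he] at hA
  obtain ⟨i, rfl⟩ := hA
  filter_upwards [eventually_gt_atTop i] with n hn
  exact hAU (hw _ ⟨z, hz, fun j hj => (Finset.mem_filter.1 hj).2⟩ i
    (Finset.mem_filter.2 ⟨Finset.mem_range.2 hn, hzA⟩))

/-- If G is a countably compact topological group whose closed subgroups are all separable, and H is a topological group with a countable network, then every closed subgroup of G × H is separable. -/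
theorem result :
    ∀ (G H : Type) [Group G] [TopologicalSpace G] [IsTopologicalGroup G]
      [Group H] [TopologicalSpace H] [IsTopologicalGroup H],
      (∀ U : ℕ → Set G, (∀ n, IsOpen (U n)) → Set.univ ⊆ ⋃ n, U n →
          ∃ s : Finset ℕ, Set.univ ⊆ ⋃ n ∈ s, U n) →
      (∀ K : Subgroup G, IsClosed (K : Set G) → TopologicalSpace.SeparableSpace ↥K) →
      (∃ N : Set (Set H), N.Countable ∧
          ∀ (x : H) (U : Set H), IsOpen U → x ∈ U → ∃ A ∈ N, x ∈ A ∧ A ⊆ U) →
      ∀ K : Subgroup (G × H), IsClosed (K : Set (G × H)) →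
        TopologicalSpace.SeparableSpace ↥K := by
  intro G H _ _ _ _ _ _ hG hsep hH K hK
  classical
  obtain ⟨D, hDK, hDc, hD⟩ := seqDense hH (K : Set (G × H)) Prod.snd
  let K0 : Subgroup G := K.comap (MonoidHom.inl G H)
  have hK0 : IsClosed (K0 : Set G) :=
    hK.preimage (continuous_id.prodMk continuous_const)
  have := hsep K0 hK0
  -- a countable dense subset of `K0`
  obtain ⟨E0, hE0c, hE0d⟩ := TopologicalSpace.exists_countable_dense K0
  let E : Set (G × H) := (fun g : K0 => (((g : G), 1) : G × H)) '' E0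
  have hEc : E.Countable := hE0c.image _
  have hEK : E ⊆ K := by
    rintro _ ⟨g, -, rfl⟩
    exact g.2
  let M : Set (G × H) := Set.image2 (· * ·) E D
  have hMc : M.Countable := hEc.image2 hDc _
  have hMK : M ⊆ K := by
    rintro _ ⟨a, ha, b, hb, rfl⟩
    exact K.mul_mem (hEK ha) (hDK hb)
  have hKM : (K : Set (G × H)) ⊆ closure M := by
    intro z hz
    obtain ⟨d, hdD, hd⟩ := hD z hz
    obtain ⟨x, hx⟩ := cluster hG (fun n => (d n).1)
    have h1 : (x, z.2) ∈ closure D := by
      rw [mem_closure_iff_nhds]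
      intro t ht
      obtain ⟨u, hu, v, hv, huv⟩ := mem_nhds_prod_iff.1 ht
      obtain ⟨n, hn⟩ := Filter.eventually_atTop.1 (hd hv)
      obtain ⟨_, hy, m, hm, rfl⟩ := mem_closure_iff_nhds.1 (hx n) u hu
      exact ⟨d m, huv ⟨hy, hn m hm⟩, hdD m⟩
    have h2 : (x, z.2) ∈ K := hK.closure_subset_iff.2 hDK h1
    have h3 : z.1 * x⁻¹ ∈ K0 := by
      have := K.mul_mem hz (K.inv_mem h2)
      have h4 : z * (x, z.2)⁻¹ = (z.1 * x⁻¹, 1) := by
        ext <;> simp
      rw [h4] at this
      exact this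
    have h5 : ((z.1 * x⁻¹, 1) : G × H) ∈ closure E := by
      have hc : Continuous (fun g : K0 => (((g : G), 1) : G × H)) :=
        continuous_subtype_val.prodMk continuous_const
      exact image_closure_subset_closure_image hc ⟨⟨_, h3⟩, hE0d _, rfl⟩
    have h6 := map_mem_closure₂ (f := fun a b : G × H => a * b) continuous_mul h5 h1
      (fun a ha b hb => Set.mem_image2_of_mem (f := (· * ·)) ha hb)
    have h7 : ((z.1 * x⁻¹, 1) : G × H) * (x, z.2) = z := by
      ext <;> simp
    rw [h7] at h6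
    exact h6
  refine ⟨⟨Subtype.val ⁻¹' M, hMc.preimage Subtype.val_injective, ?_⟩⟩
  intro z
  rw [closure_subtype]
  have : Subtype.val '' (Subtype.val ⁻¹' M : Set K) = M := by
    ext y
    constructor
    · rintro ⟨a, ha, rfl⟩
      exact ha
    · intro hy
      exact ⟨⟨y, hMK hy⟩, hy, rfl⟩
  rw [this]
  exact hKM z.2

end Pool.Agent.S13903
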