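import Pool.Statements.S13922
import Pool.Agent.H30.SubAn

set_option autoImplicit false
open Pool Pool.MP_c6d701_gt

namespace Pool.Agent.S13922

/-- The negation of the preceding statement: The space of continuous real functions, with the pointwise topology, on the space of continuous real functions on the irrationals (also pointwise) embeds topologically into some Tychonoff space that is a continuous image of the irrationals. -/
theorem result :
    ¬ (∃ (Y : Type) (_ : TopologicalSpace Y),
      T35Space Y ∧ MeasureTheory.AnalyticSet (Set.univ : Set Y) ∧
      ∃ e : {g : {f : {x : ℝ // Irrational x} → ℝ // Continuous f} → ℝ // Continuous g} → Y,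
        Topology.IsEmbedding e) := by
  exact Pool.Agent.H30.SubAn.final

end Pool.Agent.S13922
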