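import Pool.Statements.S13932
import Pool.Agent.H5.Blaschke

set_option autoImplicit false
open Pointwise
open Pool Pool.MP_c7fc41_gt

namespace Pool.Agent.S13932

open Set MeasureTheory Metric Pool.Agent.H5.Blaschke

lemma Pr_convex (I : Finset (Fin 6)) (c : Fin 6 → ℝ) : Convex ℝ (Pr (A I c) (A I c)) := by
  have lin : ∀ (i : Fin 6) (p q : ℝ × ℝ) (s t : ℝ), φ i (s • p + t • q) = s * φ i p + t * φ i q := by
    intro i p q s t
    fin_cases i <;> simp [φ] <;> ring
  rintro x ⟨x1, x2⟩ y ⟨y1, y2⟩ s t hs ht hst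
  have e1 : f1 (s • x + t • y) = s • f1 x + t • f1 y := by simp [f1]
  have e2 : f2 (s • x + t • y) = s • f2 x + t • f2 y := by simp [f2]
  have k : ∀ u v w : ℝ, u ≤ w → v ≤ w → s * u + t * v ≤ w := fun u v w h1 h2 => by
    have := mul_le_mul_of_nonneg_left h1 hs
    have := mul_le_mul_of_nonneg_left h2 ht
    have : s * w + t * w = w := by rw [← add_mul, hst, one_mul]
    linarith
  exact ⟨fun i hi => by rw [e1, lin]; exact k _ _ _ (x1 i hi) (y1 i hi),
    fun i hi => by rw [e2, lin]; exact k _ _ _ (x2 i hi) (y2 i hi)⟩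

lemma Pr_compact (I : Finset (Fin 6)) (c : Fin 6 → ℝ) (h : ∀ z ∈ A I c, |z.1| ≤ 1 ∧ |z.2| ≤ 1) :
    IsCompact (Pr (A I c) (A I c)) := by
  refine isCompact_of_isClosed_isBounded (((A_closed I c).preimage f1_cont).inter
    ((A_closed I c).preimage f2_cont)) ((isBounded_closedBall (x := (0 : E4)) (r := 2)).subset ?_)
  rintro x ⟨x1, x2⟩
  obtain ⟨a, b⟩ := h _ x1
  obtain ⟨d, e⟩ := h _ x2
  rw [mem_closedBall_zero_iff, ← sq_le_sq₀ (norm_nonneg _) (by norm_num),
    EuclideanSpace.real_norm_sq_eq, Fin.sum_univ_four]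
  simp only [f1, f2, abs_le] at a b d e
  nlinarith [a.1, a.2, b.1, b.2, d.1, d.2, e.1, e.2]

lemma Pr_int (I : Finset (Fin 6)) (c : Fin 6 → ℝ) (h : ∀ i ∈ I, φ i (1 / 10, 1 / 10) < c i) :
    (interior (Pr (A I c) (A I c))).Nonempty := by
  refine ⟨!₂[1 / 10, 1 / 10, 1 / 10, 1 / 10], mem_interior_iff_mem_nhds.2 ?_⟩
  have k : ∀ f : E4 → ℝ × ℝ, Continuous f → f !₂[1 / 10, 1 / 10, 1 / 10, 1 / 10] = (1 / 10, 1 / 10) →
      ∀ᶠ x in nhds (!₂[1 / 10, 1 / 10, 1 / 10, 1 / 10] : E4), f x ∈ A I c := by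
    intro f hf e
    refine (Filter.eventually_all_finset I).2 fun i hi => ?_
    exact (((φ_cont i).comp hf).continuousAt.eventually_lt continuousAt_const
      (by rw [Function.comp_apply, e]; exact h i hi)).mono fun _ h => h.le
  exact (k f1 f1_cont (by simp [f1])).and (k f2 f2_cont (by simp [f2]))

lemma quad (u v w : ℝ) {f : ℝ → ℝ} (h : ∀ ε, f ε = u + ε * v + ε ^ 2 * w) :
    HasDerivAt f v 0 ∧ f 0 = u := by
  refine ⟨?_, by simp [h]⟩
  rw [funext h]
  exact ((((hasDerivAt_id (0 : ℝ)).mul_const v).const_add u).add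
    ((hasDerivAt_pow 2 (0 : ℝ)).mul_const w)).congr_deriv (by simp)

/-- The negation of the preceding statement: Take n ≥ 3 and a convex body K in n-space. If its Blaschke body (the symmetric body whose surface area measure is the average of those of K and −K) is homothetic to ½(K−K), then K is centrally symmetric. -/
theorem result :
    ¬ (∀ n : ℕ, 3 ≤ n → ∀ K B : Set (EuclideanSpace ℝ (Fin n)),
      IsCompact K → Convex ℝ K → (interior K).Nonempty →
      IsCompact B → Convex ℝ B → (interior B).Nonempty → -B = B →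
      (∀ L : Set (EuclideanSpace ℝ (Fin n)), IsCompact L → Convex ℝ L → L.Nonempty →
        HasDerivWithinAt
          (fun ε : ℝ => (MeasureTheory.volume (B + ε • L)).toReal
            - ((MeasureTheory.volume (K + ε • L)).toReal
                + (MeasureTheory.volume (-K + ε • L)).toReal) / 2)
          0 (Set.Ici 0) 0) →
      (∃ r : ℝ, 0 < r ∧ ∃ x : EuclideanSpace ℝ (Fin n),
        B = x +ᵥ (r • ((1 / 2 : ℝ) • (K + -K)))) →
      ∃ c : EuclideanSpace ℝ (Fin n), ∀ y : EuclideanSpace ℝ (Fin n),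
        y ∈ K ↔ (2 : ℝ) • c - y ∈ K) := by
  intro H
  obtain ⟨ρ, hρ⟩ : ∃ ρ : ℝ, ρ ^ 3 = 1 / 12 := ⟨(1 / 12 : ℝ) ^ (1 / 3 : ℝ), by
    rw [← Real.rpow_natCast, ← Real.rpow_mul (by norm_num)]; norm_num⟩
  have r1 : 2 / 5 < ρ := lt_of_pow_lt_pow_left₀ 3 (by
    by_contra h
    push Not at h
    nlinarith [sq_nonneg ρ]) (by rw [hρ]; norm_num)
  have r2 : ρ < 1 / 2 := lt_of_pow_lt_pow_left₀ 3 (by norm_num) (by rw [hρ]; norm_num)
  let b : Fin 6 → ℝ := ![0, 0, 1, 0, 0, 1]
  let c : Fin 6 → ℝ := fun _ => ρ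
  have hneg : -Pr (A {0, 1, 2} b) (A {0, 1, 2} b) = Pr (A {3, 4, 5} b) (A {3, 4, 5} b) := by
    ext x
    simp only [mem_neg, Pr, mem_ofPred_eq, memK, memN, f1, f2, b]
    simp [sub_eq_add_neg]
  obtain ⟨z, hz⟩ := H 4 (by norm_num) (Pr (A {0, 1, 2} b) (A {0, 1, 2} b))
    (Pr (A Finset.univ c) (A Finset.univ c))
    (Pr_compact _ _ fun z hz => by
      obtain ⟨u, v, w⟩ := (memK _ _).1 hz
      simp [b] at u v w
      exact ⟨abs_le.2 ⟨by linarith, by linarith⟩, abs_le.2 ⟨by linarith, by linarith⟩⟩)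
    (Pr_convex _ _) (Pr_int _ _ (by simp [φ, b]; norm_num))
    (Pr_compact _ _ fun z hz => by
      obtain ⟨u, v, -, u', v', -⟩ := (memB _ _).1 hz
      simp only [c] at u v u' v'
      exact ⟨abs_le.2 ⟨by linarith, by linarith⟩, abs_le.2 ⟨by linarith, by linarith⟩⟩)
    (Pr_convex _ _) (Pr_int _ _ (fun i _ => by fin_cases i <;> simp [φ, c] <;> linarith))
    (by
      ext x
      simp only [mem_neg, Pr, mem_ofPred_eq, memB, f1, f2, c, PiLp.neg_apply]
      constructor <;> rintro ⟨⟨a1, a2, a3, a4, a5, a6⟩, b1, b2, b3, b4, b5, b6⟩ <;>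
        refine ⟨⟨?_, ?_, ?_, ?_, ?_, ?_⟩, ?_, ?_, ?_, ?_, ?_, ?_⟩ <;> linarith)
    (by
      intro L hL _ hne
      have m1 : ∀ i, ∃ l ∈ L, ∀ l' ∈ L, φ i (f1 l') ≤ φ i (f1 l) := fun i =>
        hL.exists_isMaxOn hne ((φ_cont i).comp f1_cont).continuousOn
      have m2 : ∀ i, ∃ l ∈ L, ∀ l' ∈ L, φ i (f2 l') ≤ φ i (f2 l) := fun i =>
        hL.exists_isMaxOn hne ((φ_cont i).comp f2_cont).continuousOn
      choose l1 hl1 w1 using m1
      choose l2 hl2 w2 using m2
      obtain ⟨R, hR, hb⟩ := hL.isBounded.exists_pos_norm_le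
      have co : ∀ l ∈ L, ∀ j, -R ≤ l j ∧ l j ≤ R := fun l hl j =>
        abs_le.1 ((PiLp.norm_apply_le l j).trans (hb l hl))
      have z1 : ∀ i, ∀ l ∈ L, |φ i (f1 l)| ≤ 2 * R := fun i l hl => by
        have := co l hl 0
        have := co l hl 1
        rw [abs_le]
        fin_cases i <;> simp [φ, f1] <;> constructor <;> linarith
      have z2 : ∀ i, ∀ l ∈ L, |φ i (f2 l)| ≤ 2 * R := fun i l hl => by
        have := co l hl 2
        have := co l hl 3
        rw [abs_le]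
        fin_cases i <;> simp [φ, f2] <;> constructor <;> linarith
      generalize hh1 : (fun i => φ i (f1 (l1 i))) = h1
      generalize hh2 : (fun i => φ i (f2 (l2 i))) = h2
      have u1 : ∀ i, ∃ l ∈ L, φ i (f1 l) = h1 i := fun i => ⟨l1 i, hl1 i, congrFun hh1 i⟩
      have u2 : ∀ i, ∃ l ∈ L, φ i (f2 l) = h2 i := fun i => ⟨l2 i, hl2 i, congrFun hh2 i⟩
      have v1 : ∀ i, ∀ l ∈ L, φ i (f1 l) ≤ h1 i := fun i l hl => (w1 i l hl).trans_eq (congrFun hh1 i)
      have v2 : ∀ i, ∀ l ∈ L, φ i (f2 l) ≤ h2 i := fun i l hl => (w2 i l hl).trans_eq (congrFun hh2 i)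
      have eK := main (I := {0, 1, 2}) (b := b) (a := aK) (by unfold aK; fun_prop) (fun d hd => ⟨volK (by
          have := abs_le.1 (hd 0); have := abs_le.1 (hd 1); have := abs_le.1 (hd 2)
          simp [b] at *
          linarith), by unfold aK; positivity⟩) (by simp) (by positivity) u1 u2 v1 v2 z1 z2
      have eN := main (I := {3, 4, 5}) (b := b) (a := aN) (by unfold aN; fun_prop) (fun d hd => ⟨volN (by
          have := abs_le.1 (hd 3); have := abs_le.1 (hd 4); have := abs_le.1 (hd 5)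
          simp [b] at *
          linarith), by unfold aN; positivity⟩) (by simp) (by positivity) u1 u2 v1 v2 z1 z2
      have eB := main (I := Finset.univ) (b := c) (a := aB) (by unfold aB; fun_prop) (fun d hd => by
          have k : ∀ i, 1 / 3 ≤ d i ∧ d i ≤ 2 / 3 := fun i => by
            have := abs_le.1 (hd i)
            simp only [c] at this
            constructor <;> linarith
          refine ⟨volB k, ?_⟩
          have k : ∀ i, ρ - 1 / 20 ≤ d i ∧ d i ≤ ρ + 1 / 20 := fun i => by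
            have := abs_le.1 (hd i)
            simp only [c] at this
            constructor <;> linarith
          have k0 := k 0; have k1 := k 1; have k2 := k 2; have k3 := k 3; have k4 := k 4
          have k5 := k 5
          have q0 : 1 ≤ (d 0 + d 1 + d 2) ^ 2 := by nlinarith
          have q : ∀ t : ℝ, 0 ≤ t → 3 * t ^ 2 ≤ (d 0 + d 1 + d 2) ^ 2 ∨ (d 0 + d 1 + d 2) < 2 * t :=
            fun t ht => by
              by_contra h
              push Not at h
              nlinarith [h.1, h.2]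
          unfold aB
          rcases q (-d 3 + d 1 + d 2) (by linarith) with a1 | a1
          · rcases q (d 0 + -d 4 + d 2) (by linarith) with a2 | a2
            · rcases q (d 0 + d 1 + -d 5) (by linarith) with a3 | a3
              · linarith
              · linarith
            · linarith
          · linarith)
        (fun i _ j _ _ => by simp only [c]; linarith) (by positivity) u1 u2 v1 v2 z1 z2
      have qK := fun h : Fin 6 → ℝ => quad (1 / 2) (h 0 + h 1 + h 2) ((h 0 + h 1 + h 2) ^ 2 / 2)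
        (f := fun ε => aK (b + ε • h)) (fun ε => by simp [aK, b]; ring)
      have qN := fun h : Fin 6 → ℝ => quad (1 / 2) (h 3 + h 4 + h 5) ((h 3 + h 4 + h 5) ^ 2 / 2)
        (f := fun ε => aN (b + ε • h)) (fun ε => by simp [aN, b]; ring)
      have qB := fun h : Fin 6 → ℝ => quad (3 * ρ ^ 2) (ρ * (h 0 + h 1 + h 2 + h 3 + h 4 + h 5)) (aB h)
        (f := fun ε => aB (c + ε • h)) (fun ε => by simp [aB, c]; ring)
      have tot := ((eB.add ((qB h1).1.mul (qB h2).1).hasDerivWithinAt).sub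
        (((eK.add ((qK h1).1.mul (qK h2).1).hasDerivWithinAt).add
          (eN.add ((qN h1).1.mul (qN h2).1).hasDerivWithinAt)).div_const 2))
      rw [(qB h1).2, (qB h2).2, (qK h1).2, (qK h2).2, (qN h1).2, (qN h2).2] at tot
      rw [hneg]
      refine (tot.congr_deriv ?_).congr (fun ε _ => ?_) ?_
      · linear_combination 3 * (h1 0 + h1 1 + h1 2 + h1 3 + h1 4 + h1 5 + h2 0 + h2 1 + h2 2 + h2 3 +
          h2 4 + h2 5) * hρ
      · simp
      · simp)
    (by
      refine ⟨2 * ρ, by linarith, 0, ?_⟩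
      rw [zero_vadd, smul_smul, show 2 * ρ * (1 / 2) = ρ by ring, hneg]
      have h0 : 0 < ρ := by linarith
      ext x
      rw [mem_smul_set_iff_inv_smul_mem₀ h0.ne']
      obtain ⟨y, rfl⟩ : ∃ y : E4, x = ρ • y := ⟨ρ⁻¹ • x, by rw [smul_inv_smul₀ h0.ne']⟩
      rw [inv_smul_smul₀ h0.ne']
      have k : ∀ t : ℝ, ρ * t ≤ ρ ↔ t ≤ 1 := fun t => mul_le_iff_le_one_right h0
      simp only [Pr, mem_ofPred_eq, memB, f1, f2, c, PiLp.smul_apply, smul_eq_mul, ← mul_neg, ← mul_add,
        ← mul_sub, k]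
      constructor
      · rintro ⟨⟨a1, a2, a3, a4, a5, a6⟩, b1, b2, b3, b4, b5, b6⟩
        have m : ∀ s t : ℝ, s ≤ 1 → t ≤ 1 → s + t ≤ 1 → max s 0 + max t 0 ≤ 1 := fun s t _ _ _ => by
          rcases le_total s 0 with h | h <;> rcases le_total t 0 with h' | h' <;> simp [h, h'] <;>
            linarith
        have m' : ∀ s t : ℝ, -s ≤ 1 → -t ≤ 1 → -s - t ≤ 1 → -min s 0 - min t 0 ≤ 1 := fun s t _ _ _ => by
          rcases le_total s 0 with h | h <;> rcases le_total t 0 with h' | h' <;> simp [h, h'] <;>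
            linarith
        refine ⟨WithLp.toLp 2 fun i => max (y i) 0, ⟨(memK _ _).2 ?_, (memK _ _).2 ?_⟩,
          WithLp.toLp 2 fun i => min (y i) 0, ⟨(memN _ _).2 ?_, (memN _ _).2 ?_⟩, ?_⟩
        · simpa [b] using m _ _ a4 a5 a3
        · simpa [b] using m _ _ b4 b5 b3
        · simpa [b] using m' _ _ a1 a2 a6
        · simpa [b] using m' _ _ b1 b2 b6
        · ext i
          simp
      · rintro ⟨p, ⟨p1, p2⟩, q, ⟨q1, q2⟩, rfl⟩
        rw [memK] at p1 p2
        rw [memN] at q1 q2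
        simp [b] at p1 p2 q1 q2
        obtain ⟨a1, a2, a3⟩ := p1
        obtain ⟨a4, a5, a6⟩ := p2
        obtain ⟨b1, b2, b3⟩ := q1
        obtain ⟨b4, b5, b6⟩ := q2
        simp only [PiLp.add_apply]
        refine ⟨⟨?_, ?_, ?_, ?_, ?_, ?_⟩, ?_, ?_, ?_, ?_, ?_, ?_⟩ <;> linarith)
  have t0 := ((memK _ _).1 ((hz 0).1 ⟨(memK _ _).2 (by simp [f1, b]), (memK _ _).2 (by simp [f2, b])⟩).1).2.2
  have t1 := ((memK _ _).1 ((hz !₂[1, 0, 0, 0]).1 ⟨(memK _ _).2 (by simp [f1, b]),
    (memK _ _).2 (by simp [f2, b])⟩).1).1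
  have t2 := ((memK _ _).1 ((hz !₂[0, 1, 0, 0]).1 ⟨(memK _ _).2 (by simp [f1, b]),
    (memK _ _).2 (by simp [f2, b])⟩).1).2.1
  simp [f1, b] at t0 t1 t2
  linarith

end Pool.Agent.S13932
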