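import Pool.Statements.S13949
import Pool.Agent.Lead.LSg2

set_option autoImplicit false
open Pool Pool.MP_cbb19f_gt

namespace Pool.Agent.S13949

/-- Every Tychonoff space X whose discrete subspaces are all countable, and whose iterated pointwise function space C_p(C_p(X)) is Lindelöf Σ (a compact cover with a countable network modulo it), has a countable network. -/
theorem result :
    ∀ (X : Type) [TopologicalSpace X] [T35Space X],
      (∀ D : Set X, DiscreteTopology ↥D → D.Countable) →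
      (∃ (𝒞 𝒩 : Set (Set {g : {f : X → ℝ // Continuous f} → ℝ // Continuous g})),
          𝒩.Countable ∧ (∀ K ∈ 𝒞, IsCompact K) ∧ ⋃₀ 𝒞 = Set.univ ∧
          ∀ K ∈ 𝒞, ∀ U : Set {g : {f : X → ℝ // Continuous f} → ℝ // Continuous g},
            IsOpen U → K ⊆ U → ∃ N ∈ 𝒩, K ⊆ N ∧ N ⊆ U) →
      ∃ 𝒩 : Set (Set X), 𝒩.Countable ∧
        ∀ (x : X) (U : Set X), IsOpen U → x ∈ U → ∃ N ∈ 𝒩, x ∈ N ∧ N ⊆ U := by
  rintro X _ _ hs ⟨𝒞, 𝒩, h1, h2, h3, h4⟩
  exact Pool.Agent.Lead.LSg.main X hs (Pool.Agent.Lead.LSg.LS_cover 𝒞 𝒩 h1 h2 h3 h4)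

end Pool.Agent.S13949
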