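import Pool.Statements.S14028
import Pool.Agent.Lead.TEx5

set_option autoImplicit false
open Pool Pool.MP_d6b4bb_gt

namespace Pool.Agent.S14028

/-- The negation of the preceding statement: For an index set of size aleph-one, the continuous real functions on the Cantor cube {0,1}^ω₁ (pointwise topology) embed topologically into the continuous real functions on the Tychonoff cube [0,1]^ω₁ (pointwise topology). -/
theorem result :
    ¬ (∀ ι : Type, Cardinal.mk ι = Cardinal.aleph 1 →
      ∃ f : {g : (ι → Bool) → ℝ // Continuous g} →
            {g : (ι → unitInterval) → ℝ // Continuous g},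
        Topology.IsEmbedding f) := by
  intro H
  obtain ⟨f, hf⟩ := H _ (Cardinal.mk_out (Cardinal.aleph 1))
  have := TEx.unc_of (Cardinal.mk_out (Cardinal.aleph 1))
  exact TEx.no_embed f hf

end Pool.Agent.S14028
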