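import Pool.Statements.S14036
import Pool.Agent.H25.Shakh

set_option autoImplicit false
open Pool Pool.MP_d88d39_gt

namespace Pool.Agent.S14036

/-- The negation of the preceding statement: For every Tychonoff space X: if every point-finite family of nonempty open sets in C_p(X) is countable, then the same holds for C_p of the Hewitt realcompactification of X, taken as a subspace of the Stone–Čech compactification. -/
theorem result :
    ¬ (∀ (X : Type) [TopologicalSpace X] [T35Space X],
      (∀ 𝒰 : Set (Set {f : X → ℝ // Continuous f}),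
          (∀ U ∈ 𝒰, IsOpen U ∧ U.Nonempty) →
          (∀ y : {f : X → ℝ // Continuous f}, {U | U ∈ 𝒰 ∧ y ∈ U}.Finite) →
          𝒰.Countable) →
      (∀ 𝒰 : Set (Set {f : {p : StoneCech X //
              ∀ (g : X → Set.Icc (-1 : ℝ) 1) (hg : Continuous g),
                (∀ x, ((g x : ℝ)) ∈ Set.Ioo (-1 : ℝ) 1) →
                ((stoneCechExtend hg p : Set.Icc (-1 : ℝ) 1) : ℝ) ∈ Set.Ioo (-1 : ℝ) 1}
              → ℝ // Continuous f}),
          (∀ U ∈ 𝒰, IsOpen U ∧ U.Nonempty) →
          (∀ y, {U | U ∈ 𝒰 ∧ y ∈ U}.Finite) →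
          𝒰.Countable)) := by
  classical
  intro H
  open Pool.Agent.H25.Shakh in
  have H1 := H X pf_count
  open Pool.Agent.H25.Shakh in
  choose p hp using lift_pt
  open Pool.Agent.H25.Shakh in
  set Y := {p : StoneCech X //
              ∀ (g : X → Set.Icc (-1 : ℝ) 1) (hg : Continuous g),
                (∀ x, ((g x : ℝ)) ∈ Set.Ioo (-1 : ℝ) 1) →
                ((stoneCechExtend hg p : Set.Icc (-1 : ℝ) 1) : ℝ) ∈ Set.Ioo (-1 : ℝ) 1} with hY
  open Pool.Agent.H25.Shakh in
  have hpY : ∀ y, ∀ (g : X → Set.Icc (-1 : ℝ) 1) (hg : Continuous g),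
      (∀ x, ((g x : ℝ)) ∈ Set.Ioo (-1 : ℝ) 1) →
      ((stoneCechExtend hg (p y) : Set.Icc (-1 : ℝ) 1) : ℝ) ∈ Set.Ioo (-1 : ℝ) 1 := by
    intro y g hg h
    obtain ⟨A, hAc, hA⟩ := factor (continuous_subtype_val.comp hg)
    obtain ⟨x, hx⟩ := fill hAc y
    have : stoneCechExtend hg (p y) = g x := by
      refine (isClosed_eq (continuous_stoneCechExtend hg) continuous_const).closure_subset_iff.2
        ?_ (hp y A hAc)
      rintro _ ⟨z, hz, rfl⟩
      show stoneCechExtend hg (stoneCechUnit z) = g x
      rw [stoneCechExtend_stoneCechUnit]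
      exact Subtype.ext (hA z x fun u hu => (hz u hu).trans (hx u hu).symm)
    rw [this]
    exact h x
  open Pool.Agent.H25.Shakh in
  let q : (T → Bool) → Y := fun y => ⟨p y, hpY y⟩
  open Pool.Agent.H25.Shakh in
  let un : X → Y := fun z => ⟨stoneCechUnit z, fun g hg h => by
    rw [stoneCechExtend_stoneCechUnit]; exact h z⟩
  have hun : Continuous un := continuous_stoneCechUnit.subtype_mk _
  open Pool.Agent.H25.Shakh in
  have hq : ∀ y (A : Set T), A.Countable → q y ∈ closure (un '' {z : X | ∀ u ∈ A, z.1 u = y u}) := by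
    intro y A hA
    rw [closure_subtype, Set.image_image]
    exact hp y A hA
  open Pool.Agent.H25.Shakh in
  let e : T → T → Bool := fun t u => decide (u = t)
  open Pool.Agent.H25.Shakh in
  let U : T → Set {f : Y → ℝ // Continuous f} := fun t =>
    {F | F.1 (q fun _ => false) + 1 < F.1 (q (e t))}
  open Pool.Agent.H25.Shakh in
  let G : T → {f : Y → ℝ // Continuous f} := fun t =>
    ⟨fun w => if stoneCechExtend (coord_cont t) w.1 = true then 2 else 0,
      (continuous_of_discreteTopology (f := fun b : Bool => if b = true then (2 : ℝ) else 0)).comp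
        ((continuous_stoneCechExtend (coord_cont t)).comp continuous_subtype_val)⟩
  open Pool.Agent.H25.Shakh in
  have hG : ∀ t y, (G t).1 (q y) = if y t = true then 2 else 0 := by
    intro t y
    have : stoneCechExtend (coord_cont t) (p y) = y t := by
      refine (isClosed_eq (continuous_stoneCechExtend (coord_cont t))
        continuous_const).closure_subset_iff.2 ?_ (hp y {t} (Set.countable_singleton t))
      rintro _ ⟨z, hz, rfl⟩
      show stoneCechExtend (coord_cont t) (stoneCechUnit z) = y t
      rw [stoneCechExtend_stoneCechUnit]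
      exact hz t rfl
    show (if stoneCechExtend (coord_cont t) (p y) = true then (2 : ℝ) else 0) = _
    rw [this]
  have hGU : ∀ t s, G t ∈ U s ↔ t = s := by
    intro t s
    show (G t).1 _ + 1 < (G t).1 _ ↔ _
    rw [hG, hG]
    by_cases h : t = s
    · simp [e, h]
    · simp [e, h]
  have hUi : Function.Injective U := fun t s h => (hGU t s).1 (h ▸ (hGU t t).2 rfl)
  have hfin : ∀ F, {t | F ∈ U t}.Finite := by
    intro F
    obtain ⟨S, c, hS⟩ := Pool.Agent.H25.Shakh.control (F.2.comp hun) (fun _ => false)
      (ε := 1 / 3) (by norm_num)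
    have key : ∀ y, (∀ u ∈ S, y u = false) → |F.1 (q y) - c| ≤ 1 / 3 := by
      intro y hy
      refine (isClosed_le (F.2.sub continuous_const).abs continuous_const).closure_subset_iff.2
        ?_ (hq y S S.countable_toSet)
      rintro _ ⟨z, hz, rfl⟩
      exact (hS z fun u hu => (hz u hu).trans (hy u hu)).le
    refine S.finite_toSet.subset fun t ht => ?_
    by_contra hn
    have k1 := abs_le.1 (key (fun _ => false) fun _ _ => rfl)
    have k2 := abs_le.1 (key (e t) fun u hu => by
      have : u ≠ t := fun h => hn (h ▸ hu)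
      simp [e, this])
    have k3 : F.1 (q fun _ => false) + 1 < F.1 (q (e t)) := ht
    linarith [k1.1, k2.2]
  have hc := H1 (Set.range U) (by
    rintro _ ⟨t, rfl⟩
    exact ⟨isOpen_lt (((continuous_apply _).comp continuous_subtype_val).add continuous_const)
      ((continuous_apply _).comp continuous_subtype_val), G t, (hGU t t).2 rfl⟩)
    (fun F => ((hfin F).image U).subset (by
      rintro _ ⟨⟨t, rfl⟩, h⟩
      exact ⟨t, h, rfl⟩))
  exact Pool.Agent.H25.Shakh.T_unc (by simpa using hc.preimage hUi)

end Pool.Agent.S14036
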