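import Pool.Statements.S14041

set_option autoImplicit false
open Pool Pool.MP_d91817_gt

namespace Pool.Agent.S14041

open Set Filter Topology

def c (n : ℕ) : ℕ :=
  Nat.pair (max n.sqrt (n - n.sqrt * n.sqrt)) (min n.sqrt (n - n.sqrt * n.sqrt))

lemma c_swap {k j : ℕ} (h1 : j ≤ k + k) (h2 : k ≤ j + j) : c (k * k + j) = c (j * j + k) := by
  simp only [c, Nat.sqrt_add_eq k h1, Nat.sqrt_add_eq j h2, Nat.add_sub_cancel_left, max_comm,
    min_comm]

lemma c_eq {n n' : ℕ} (h : c n' = c n) :
    n' = n ∨ n' = (n - n.sqrt * n.sqrt) * (n - n.sqrt * n.sqrt) + n.sqrt := by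
  have h1 := Nat.sqrt_le n
  have h2 := Nat.sqrt_le n'
  simp only [c, Nat.pair_eq_pair] at h
  have h3 : (n'.sqrt = n.sqrt ∧ n' - n'.sqrt * n'.sqrt = n - n.sqrt * n.sqrt) ∨
      (n'.sqrt = n - n.sqrt * n.sqrt ∧ n' - n'.sqrt * n'.sqrt = n.sqrt) := by omega
  rcases h3 with ⟨a, b⟩ | ⟨a, b⟩
  · left
    rw [a] at b h2
    omega
  · right
    rw [← a]
    omega

lemma c_tendsto : Tendsto c atTop atTop := by
  refine tendsto_atTop.2 fun b => eventually_atTop.2 ⟨b * b, fun n hn => ?_⟩
  exact ((Nat.le_sqrt.2 hn).trans (le_max_left _ _)).trans (Nat.left_le_pair _ _)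

noncomputable def P : OnePoint ℕ → ℝ := fun w => w.elim 0 fun n => 1 / ((n : ℝ) + 1)

noncomputable def A : OnePoint ℕ → ℝ := fun w => w.elim 0 fun n => 1 / ((c n : ℝ) + 1)

lemma P_cont : Continuous P :=
  (OnePoint.continuous_iff_from_nat _).2 tendsto_one_div_add_atTop_nhds_zero_nat

lemma A_cont : Continuous A :=
  (OnePoint.continuous_iff_from_nat _).2
    (tendsto_one_div_add_atTop_nhds_zero_nat.comp c_tendsto)

lemma inv_inj' {a b : ℕ} (h : 1 / ((a : ℝ) + 1) = 1 / ((b : ℝ) + 1)) : a = b := by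
  rw [one_div, one_div, inv_inj, add_left_inj] at h
  exact_mod_cast h

lemma P_inj : Function.Injective P := by
  intro w w' h
  induction w using OnePoint.rec with
  | infty =>
    induction w' using OnePoint.rec with
    | infty => rfl
    | coe n => exact absurd h (Nat.one_div_pos_of_nat (α := ℝ) (n := n)).ne
  | coe m =>
    induction w' using OnePoint.rec with
    | infty => exact absurd h (Nat.one_div_pos_of_nat (α := ℝ) (n := m)).ne'
    | coe n => rw [inv_inj' h]

lemma piece {k : ℕ} (t : ℕ → ℝ) (hk : 0 < k) (h0 : t 0 = 0) (h1 : t k = 1) {s : ℝ}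
    (hs : s ∈ Icc (0 : ℝ) 1) : ∃ i < k, s ∈ Icc (t i) (t (i + 1)) := by
  by_contra hc
  push Not at hc
  have h : ∀ i ≤ k, t i ≤ s := by
    intro i
    induction i with
    | zero => intro _; rw [h0]; exact hs.1
    | succ i ih => exact fun hi => (not_le.1 fun h => hc i hi ⟨ih (by omega), h⟩).le
  obtain ⟨k, rfl⟩ : ∃ j, k = j + 1 := ⟨k - 1, by omega⟩
  exact hc k (by omega) ⟨h _ (by omega), h1 ▸ hs.2⟩

/-- There is a metric space Y and a map f continuous on [0,1] whose fibers there have at most n points (some n ≥ 1), such that f is not finitely linear in the mesh-partition sense defined above. -/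
theorem result :
    ∃ (Y : Type) (_ : MetricSpace Y) (f : ℝ → Y) (n : ℕ),
      0 < n ∧ ContinuousOn f (Set.Icc (0:ℝ) 1) ∧
      (∀ y : Y, {x : ℝ | x ∈ Set.Icc (0:ℝ) 1 ∧ f x = y}.encard ≤ (n : ℕ∞)) ∧
      ¬ ∃ m : ℕ, 0 < m ∧ ∀ ε : ℝ, 0 < ε →
        ∃ (k : ℕ) (t : ℕ → ℝ), 0 < k ∧ t 0 = 0 ∧ t k = 1 ∧
          (∀ i, i < k → t i < t (i + 1) ∧ t (i + 1) - t i < ε) ∧
          ∀ i, i < k →
            {j : ℕ | j < k ∧
              (f '' Set.Icc (t i) (t (i + 1)) ∩ f '' Set.Icc (t j) (t (j + 1))).Nonempty}.encard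
              ≤ (m : ℕ∞) := by
  have hP := P_cont.isClosedEmbedding P_inj
  obtain ⟨θ, hθ⟩ := ContinuousMap.exists_extension' hP (⟨A, A_cont⟩ : C(OnePoint ℕ, ℝ))
  have hθ' : ∀ w, θ (P w) = A w := fun w => congrFun hθ w
  have hψ : ∀ x, Metric.infDist x (range P) = 0 ↔ x ∈ range P := fun x =>
    (hP.isClosed_range.mem_iff_infDist_zero (range_nonempty P)).symm
  have hψc := Metric.continuous_infDist_pt (range P)
  let f : ℝ → ℝ × ℝ × ℝ := fun x =>
    (Metric.infDist x (range P), x * Metric.infDist x (range P), θ x)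
  have hf : ∀ a b : ℕ, c a = c b → f (P a) = f (P b) := by
    intro a b h
    simp only [f, (hψ _).2 (mem_range_self _), mul_zero, hθ', Prod.mk.injEq, true_and]
    show 1 / ((c a : ℝ) + 1) = 1 / ((c b : ℝ) + 1)
    rw [h]
  refine ⟨ℝ × ℝ × ℝ, inferInstance, f, 2, two_pos, Continuous.continuousOn (by fun_prop), ?_, ?_⟩
  · intro y
    rcases {x : ℝ | x ∈ Icc (0:ℝ) 1 ∧ f x = y}.eq_empty_or_nonempty with h | ⟨x, -, rfl⟩
    · rw [h]; simp
    · have : ∃ a b, ∀ z, f z = f x → z = a ∨ z = b := by
        by_cases hx : Metric.infDist x (range P) = 0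
        · obtain ⟨w, rfl⟩ := (hψ x).1 hx
          have key : ∀ z, f z = f (P w) → ∃ w', z = P w' ∧ A w' = A w := by
            intro z hz
            simp only [f, Prod.mk.injEq] at hz
            obtain ⟨w', rfl⟩ := (hψ z).1 (hz.1.trans hx)
            exact ⟨w', rfl, by rw [← hθ', ← hθ', hz.2.2]⟩
          induction w using OnePoint.rec with
          | infty =>
            refine ⟨0, 0, fun z hz => ?_⟩
            obtain ⟨w', rfl, h⟩ := key z hz
            induction w' using OnePoint.rec with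
            | infty => exact Or.inl rfl
            | coe n => exact absurd h (Nat.one_div_pos_of_nat (α := ℝ) (n := c n)).ne'
          | coe n =>
            refine ⟨P n, P ((n - n.sqrt * n.sqrt) * (n - n.sqrt * n.sqrt) + n.sqrt : ℕ),
              fun z hz => ?_⟩
            obtain ⟨w', rfl, h⟩ := key z hz
            induction w' using OnePoint.rec with
            | infty => exact absurd h (Nat.one_div_pos_of_nat (α := ℝ) (n := c n)).ne
            | coe n' =>
              rcases c_eq (inv_inj' h) with h | h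
              · left; rw [h]
              · right; rw [← h]
        · refine ⟨x, x, fun z hz => Or.inl ?_⟩
          simp only [f, Prod.mk.injEq] at hz
          rw [hz.1] at hz
          exact mul_right_cancel₀ hx hz.2.1
      obtain ⟨a, b, h⟩ := this
      refine (encard_le_encard (t := {a, b}) fun z hz => h z hz.2).trans ?_
      refine (encard_insert_le _ _).trans ?_
      rw [encard_singleton]
      norm_num
  · rintro ⟨m, -, H⟩
    classical
    have anti : ∀ a b : ℕ, a ≤ b → P b ≤ P a := fun a b h => Nat.one_div_le_one_div h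
    have hI : ∀ a : ℕ, P a ∈ Icc (0 : ℝ) 1 := fun a =>
      ⟨(Nat.one_div_pos_of_nat (α := ℝ) (n := a)).le, (anti 0 a a.zero_le).trans (by simp [P])⟩
    set M := 4 * m + 4 with hM
    obtain ⟨K, t, hK, t0, t1, ht, hT⟩ := H (1 / (((M * M : ℕ) + 1) * ((M * M : ℕ) + 2)))
      (by positivity)
    have hex : ∃ k : ℕ, 0 < k ∧ ∃ i < K, ∀ n : ℕ, n.sqrt = k → P n ∈ Icc (t i) (t (i + 1)) := by
      obtain ⟨k, hk⟩ := exists_nat_one_div_lt (show 0 < t 1 from t0 ▸ (ht 0 hK).1)
      refine ⟨k + 1, k.succ_pos, 0, hK, fun n hn => ⟨t0 ▸ (hI n).1, ?_⟩⟩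
      refine (anti k n ?_).trans hk.le
      have := Nat.sqrt_le_self n
      omega
    obtain ⟨hk0, i, hi, hg⟩ := Nat.find_spec hex
    have hmin := fun j => Nat.find_min hex (m := j)
    generalize Nat.find hex = k at hk0 hg hmin
    rcases lt_or_ge k M with hk | hk
    · have h1 := (hg (k * k) (Nat.sqrt_eq k)).2
      have h2 := (hg (k * k + 1) (Nat.sqrt_add_eq k (by omega))).1
      have h3 := (ht i hi).2
      have h4 : P (k * k : ℕ) - P (k * k + 1 : ℕ) =
          1 / ((((k * k : ℕ) : ℝ) + 1) * ((k * k : ℕ) + 2)) := by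
        show 1 / (((k * k : ℕ) : ℝ) + 1) - 1 / (((k * k + 1 : ℕ) : ℝ) + 1) = _
        push_cast
        field_simp
        ring
      have h5 : ((k * k : ℕ) : ℝ) ≤ (M * M : ℕ) := by exact_mod_cast Nat.mul_self_le_mul_self hk.le
      have h6 : 1 / ((((M * M : ℕ) : ℝ) + 1) * ((M * M : ℕ) + 2)) ≤
          1 / ((((k * k : ℕ) : ℝ) + 1) * ((k * k : ℕ) + 2)) := by gcongr
      linarith
    · choose l hl hl' using fun a : ℕ =>
        piece t hK t0 t1 (hI ((k - 1 - 2 * a) * (k - 1 - 2 * a) + k))
      have hinj : InjOn l (Finset.range (m + 1) : Set ℕ) := by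
        have key : ∀ a b, a < b → b ≤ m → l a ≠ l b := by
          intro a b hab hb e
          refine hmin (k - 1 - 2 * b + 1) (by omega) ⟨by omega, l b, hl b, fun n hn => ?_⟩
          have h1 := Nat.sqrt_le n
          have h2 := Nat.lt_succ_sqrt n
          rw [hn] at h1 h2
          have h3 := hl' a
          have h4 := hl' b
          rw [e] at h3
          have h5 : k ≤ 2 * (k - 1 - 2 * b) := by omega
          have h6 : k - 1 - 2 * b + 2 ≤ k - 1 - 2 * a := by omega
          generalize k - 1 - 2 * b = u at *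
          generalize k - 1 - 2 * a = v at *
          refine ⟨h3.1.trans (anti _ _ ?_), (anti _ _ ?_).trans h4.2⟩
          · have := Nat.mul_self_le_mul_self h6
            have h7 : (u + 1).succ = u + 2 := rfl
            rw [h7] at h2
            omega
          · nlinarith
        intro a ha b hb e
        have ha' : a < m + 1 := by simpa using ha
        have hb' : b < m + 1 := by simpa using hb
        rcases lt_trichotomy a b with h | h | h
        · exact absurd e (key a b h (by omega))
        · exact h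
        · exact absurd e.symm (key b a h (by omega))
      have h1 := (encard_le_encard_of_injOn (fun a ha => ?_) hinj).trans (hT i hi)
      · rw [encard_coe_eq_coe_finsetCard, Finset.card_range] at h1
        have : m + 1 ≤ m := by exact_mod_cast h1
        omega
      · have ha' : a < m + 1 := by simpa using ha
        refine ⟨hl a, _, ⟨_, hg (k * k + (k - 1 - 2 * a)) (Nat.sqrt_add_eq k (by omega)), rfl⟩,
          _, hl' a, hf _ _ (c_swap (by omega) (by omega))⟩

end Pool.Agent.S14041
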