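import Pool.Statements.S14059
import Pool.Agent.H25.MonoMono

set_option autoImplicit false
open Pool Pool.MP_dacbbd_gt

namespace Pool.Agent.S14059

/-- Every compact Hausdorff space with a monotone, chain-continuous operator giving each subset A an external network of its closure of size at most max(∣A∣, ℵ₀) has a dense metrizable subspace. -/
theorem result :
    ∀ (X : Type) [TopologicalSpace X] [CompactSpace X] [T2Space X],
      (∃ O : Set X → Set (Set X),
        (∀ A : Set X, Cardinal.mk ↥(O A) ≤ max (Cardinal.mk ↥A) Cardinal.aleph0) ∧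
        (∀ A : Set X, ∀ x ∈ closure A, ∀ U : Set X, IsOpen U → x ∈ U →
          ∃ N ∈ O A, x ∈ N ∧ N ⊆ U) ∧
        (∀ A B : Set X, A ⊆ B → O A ⊆ O B) ∧
        (∀ c : Set (Set X), c.Nonempty → IsChain (· ⊆ ·) c →
          O (⋃₀ c) = ⋃ A ∈ c, O A)) →
      ∃ D : Set X, Dense D ∧ TopologicalSpace.MetrizableSpace ↥D := by
  rintro X _ _ _ ⟨O, o1, o2, -, o4⟩
  refine Pool.Agent.H25.MonoMono.dense_metr O
    (fun A hA => Pool.Agent.H25.MonoMono.cnt o1 hA.countable) fun d x hx U hU hxU => ?_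
  obtain ⟨N, hN, h⟩ := o2 _ x hx U hU hxU
  have hm : Monotone fun n : ℕ => d '' Set.Iio n := fun a b hab =>
    Set.image_mono (Set.Iio_subset_Iio hab)
  rw [Pool.Agent.H25.MonoMono.range_eq, ← Set.sUnion_range,
    o4 _ (Set.range_nonempty _) hm.isChain_range] at hN
  obtain ⟨_, ⟨n, rfl⟩, hN⟩ := Set.mem_iUnion₂.1 hN
  exact ⟨n, N, hN, h⟩

end Pool.Agent.S14059
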