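import Pool.Statements.S14068

set_option autoImplicit false
open Pool Pool.MP_db8e30_gt

namespace Pool.Agent.S14068

open Set Filter Topology

def X : Type := {u : Ultrafilter (ℕ × ℝ) // ∃ C ∈ u, C.Countable}

instance : TopologicalSpace X := instTopologicalSpaceSubtype
instance : T35Space X := inferInstanceAs (T35Space (Subtype _))

def hat (C : Set (ℕ × ℝ)) : Set X := {u | C ∈ u.1}

lemma hat_clopen (C : Set (ℕ × ℝ)) : IsClopen (hat C) :=
  ⟨(ultrafilter_isClosed_basic C).preimage continuous_subtype_val,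
    (ultrafilter_isOpen_basic C).preimage continuous_subtype_val⟩

lemma hat_compact {C : Set (ℕ × ℝ)} (hC : C.Countable) : IsCompact (hat C) := by
  refine IsInducing.subtypeVal.isCompact_iff.2 ?_
  convert (ultrafilter_isClosed_basic C).isCompact using 1
  ext u
  exact ⟨fun ⟨v, hv, e⟩ => e ▸ hv, fun h => ⟨⟨u, C, h, hC⟩, h, rfl⟩⟩

def pt (a : ℕ × ℝ) : X := ⟨pure a, {a}, rfl, countable_singleton a⟩

lemma exists_hat {U : Set X} (hU : IsOpen U) {u : X} (hu : u ∈ U) :
    ∃ C, C.Countable ∧ u ∈ hat C ∧ hat C ⊆ U := by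
  obtain ⟨V, hV, rfl⟩ := isOpen_induced_iff.1 hU
  obtain ⟨_, ⟨s, rfl⟩, h1, h2⟩ := ultrafilterBasis_is_basis.exists_subset_of_mem_open hu hV
  obtain ⟨C, hC, hC'⟩ := u.2
  exact ⟨s ∩ C, hC'.mono inter_subset_right, inter_mem h1 hC,
    fun v hv => h2 (mem_of_superset hv inter_subset_left)⟩

lemma trace_mem {U : Set X} (hU : IsOpen U) {u : X} (hu : u ∈ U) : pt ⁻¹' U ∈ u.1 := by
  obtain ⟨C, -, h1, h2⟩ := exists_hat hU hu
  exact mem_of_superset h1 fun a ha => h2 ha

noncomputable def row (r : ℝ) : X :=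
  ⟨(hyperfilter ℕ).map fun n => (n, r), range fun n : ℕ => (n, r), range_mem_map, countable_range _⟩

def F : Set X := {u | (u.1 : Filter (ℕ × ℝ)) ≤ cofinite ∧ ∃ n, {a | a.1 = n} ∈ u.1}

lemma disj : Disjoint (closure (range row)) (closure F) := by
  refine disjoint_left.2 fun u h1 h2 => ?_
  obtain ⟨C, hC, hC'⟩ := u.2
  obtain ⟨k, hk⟩ := Set.countable_iff_exists_injOn.1 (Set.Countable.image hC' Prod.snd)
  rcases u.1.mem_or_compl_mem {a | k a.2 ≤ a.1} with h | h
  · obtain ⟨v, hv, hv1, n, hn⟩ := mem_closure_iff.1 h2 _ (hat_clopen _).2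
      (show u ∈ hat (C ∩ {a | k a.2 ≤ a.1}) from inter_mem hC h)
    have h3 : (C ∩ {a | k a.2 ≤ a.1} ∩ {a | a.1 = n}).Finite := by
      refine Finite.of_finite_image (f := fun a => k a.2) ((finite_Iic n).subset ?_) ?_
      · rintro _ ⟨a, ⟨⟨-, h4⟩, h5⟩, rfl⟩
        exact le_of_le_of_eq h4 h5
      · intro a ha b hb e
        exact Prod.ext (ha.2.trans hb.2.symm) (hk ⟨a, ha.1.1, rfl⟩ ⟨b, hb.1.1, rfl⟩ e)
    exact v.1.compl_notMem_iff.2 (inter_mem hv hn) (hv1 h3.compl_mem_cofinite)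
  · obtain ⟨_, hv, r, rfl⟩ := mem_closure_iff.1 h1 _ (hat_clopen _).2 (show u ∈ hat _ from h)
    have h3 : {n : ℕ | ¬ k r ≤ n} ∈ hyperfilter ℕ := hv
    exact Filter.notMem_hyperfilter_of_finite ((finite_Iio (k r)).subset fun n hn => not_le.1 hn) h3

lemma not_normal : ¬ NormalSpace X := by
  intro h
  obtain ⟨U, V, hU, hV, h1, h2, hd⟩ := normal_separation isClosed_closure isClosed_closure disj
  have a1 : ∀ r, ∃ n, pt (n, r) ∈ U := fun r =>
    (hyperfilter ℕ).nonempty_of_mem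
      (show {n | pt (n, r) ∈ U} ∈ hyperfilter ℕ from trace_mem hU (h1 (subset_closure ⟨r, rfl⟩)))
  have a2 : ∀ n, {r | pt (n, r) ∈ U}.Finite := by
    intro n
    by_contra hinf
    let e := Set.Infinite.natEmbedding _ hinf
    have he : Function.Injective fun i => ((n, e i) : ℕ × ℝ) := fun i j h =>
      e.injective (Subtype.ext (congrArg Prod.snd h))
    let v : X := ⟨(hyperfilter ℕ).map fun i => (n, e i), _, range_mem_map, countable_range _⟩
    have hv : v ∈ F := ⟨(map_mono hyperfilter_le_cofinite).trans he.tendsto_cofinite, n,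
      mem_of_superset range_mem_map (by rintro _ ⟨i, rfl⟩; rfl)⟩
    obtain ⟨i, hi⟩ := (hyperfilter ℕ).nonempty_of_mem
      (show {i | pt (n, e i) ∈ V} ∈ hyperfilter ℕ from trace_mem hV (h2 (subset_closure hv)))
    exact disjoint_left.1 hd (e i).2 hi
  refine not_countable_univ (α := ℝ) ((countable_iUnion fun n => (a2 n).countable).mono ?_)
  exact fun r _ => mem_iUnion.2 (a1 r)

/-- The negation of the preceding statement: For every Tychonoff X : Type, if X has a clopen basis 𝓑 satisfying the countable-vs-arbitrary separation property and X is compact in the topology generated by complements of closures of members of 𝓑, then X is normal. -/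
theorem result :
    ¬ (∀ (X : Type) [TopologicalSpace X] [CompletelyRegularSpace X] [T2Space X],
      (∃ 𝓑 : Set (Set X),
        TopologicalSpace.IsTopologicalBasis 𝓑 ∧
        (∀ b ∈ 𝓑, IsClopen b) ∧
        (∀ C D : Set (Set X), C ⊆ 𝓑 → D ⊆ 𝓑 → C.Countable →
          (∀ c ∈ C, ∀ d ∈ D, Disjoint c d) →
          ∃ b ∈ 𝓑, (∀ c ∈ C, c ⊆ b) ∧ (∀ d ∈ D, Disjoint b d)) ∧
        @IsCompact X
          (TopologicalSpace.generateFrom {U : Set X | ∃ b ∈ 𝓑, U = (closure b)ᶜ})
          Set.univ) →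
      NormalSpace X) := by
  intro H
  refine not_normal (H X ⟨hat '' {C | C.Countable}, ?_, ?_, ?_, ?_⟩)
  · refine TopologicalSpace.isTopologicalBasis_of_isOpen_of_nhds ?_ fun u U hu hU => ?_
    · rintro _ ⟨C, -, rfl⟩
      exact (hat_clopen C).2
    · obtain ⟨C, h1, h2, h3⟩ := exists_hat hU hu
      exact ⟨_, ⟨C, h1, rfl⟩, h2, h3⟩
  · rintro _ ⟨C, -, rfl⟩
    exact hat_clopen C
  · intro C D hC hD hc hd
    have hC' : ∀ c ∈ C, ∃ s : Set (ℕ × ℝ), s.Countable ∧ hat s = c := fun c h => hC h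
    choose! s hs hs' using hC'
    refine ⟨hat (⋃ c ∈ C, s c), ⟨_, hc.biUnion hs, rfl⟩, fun c h u hu => ?_, fun d h => ?_⟩
    · rw [← hs' c h] at hu
      exact mem_of_superset hu (subset_biUnion_of_mem h)
    · obtain ⟨E, -, rfl⟩ := hD h
      refine disjoint_left.2 fun u h1 h2 => ?_
      obtain ⟨a, ha, ha'⟩ := u.1.nonempty_of_mem (inter_mem h1 h2)
      obtain ⟨c, h3, h4⟩ := mem_iUnion₂.1 ha
      exact disjoint_left.1 (hd c h3 _ h) (show pt a ∈ c by rw [← hs' c h3]; exact h4) ha'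
  · refine (@isCompact_iff_ultrafilter_le_nhds X (TopologicalSpace.generateFrom _) _).2
      fun f _ => ?_
    simp only [TopologicalSpace.nhds_generateFrom, le_iInf_iff, le_principal_iff]
    by_cases h : ∃ C, C.Countable ∧ hat C ∈ f
    · obtain ⟨C, h1, h2⟩ := h
      obtain ⟨x, -, hx⟩ := isCompact_iff_ultrafilter_le_nhds.1 (hat_compact h1) f
        (le_principal_iff.2 h2)
      refine ⟨x, trivial, ?_⟩
      rintro _ ⟨h3, b, -, rfl⟩
      exact hx (isClosed_closure.isOpen_compl.mem_nhds h3)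
    · refine ⟨pt (0, 0), trivial, ?_⟩
      rintro _ ⟨-, _, ⟨C, hC, rfl⟩, rfl⟩
      rw [(hat_clopen C).1.closure_eq]
      exact Ultrafilter.compl_mem_iff_notMem.2 fun h1 => h ⟨C, hC, h1⟩

end Pool.Agent.S14068
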