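import Pool.Statements.S14094
import Pool.Agent.H31.SGroup

set_option autoImplicit false
open Pool Pool.MP_de3f93_gt

namespace Pool.Agent.S14094

theorem result :
    ¬ (∀ (G : Type) [Group G] [TopologicalSpace G] [IsTopologicalGroup G] [T2Space G],
      (∀ (H : Type) [Group H] [TopologicalSpace H] [IsTopologicalGroup H] [T2Space H]
          (f : G →* H), SeqContinuous (f : G → H) → Continuous (f : G → H)) →
      (∀ (A : Set G), ∀ x ∈ closure A, ∃ B : Set G, B ⊆ A ∧ B.Countable ∧ x ∈ closure B) →
      (∀ K : Subgroup G, IsClosed (K : Set G) →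
        ∀ (H : Type) [Group H] [TopologicalSpace H] [IsTopologicalGroup H] [T2Space H]
          (f : K →* H), SeqContinuous (f : K → H) → Continuous (f : K → H)) →
      SequentialSpace G) := by
  intro h
  exact H31.SGroup.not_seq (h H31.SGroup.G (fun H _ _ _ _ f hf => H31.SGroup.sgroup H f hf)
    (fun A x hx => ⟨A, subset_rfl, A.to_countable, hx⟩)
    (fun K hK H _ _ _ _ f hf => H31.SGroup.sub_sgroup K hK H f hf))

end Pool.Agent.S14094
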