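import Pool.Statements.S14129
import Pool.Agent.H25.ValdLine3

set_option autoImplicit false
open Pool Pool.MP_e33218_gt

namespace Pool.Agent.S14129

/-- Every compact linearly ordered space that is a continuous image of a Valdivia compactum is the image of a linearly ordered Valdivia compactum under a continuous, surjective, order-preserving map. -/
theorem result :
  ∀ (K : Type) [LinearOrder K] [TopologicalSpace K] [OrderTopology K] [CompactSpace K],
    (∃ (V : Type) (_ : TopologicalSpace V) (_ : CompactSpace V),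
      (∃ (Γ : Type) (h : V → (Γ → ℝ)), Topology.IsEmbedding h ∧
        Dense (h ⁻¹' {x | {γ | x γ ≠ 0}.Countable})) ∧
      ∃ f : V → K, Continuous f ∧ Function.Surjective f) →
    ∃ (L : Type) (_ : LinearOrder L) (_ : TopologicalSpace L) (_ : OrderTopology L)
      (_ : CompactSpace L),
      (∃ (Γ : Type) (h : L → (Γ → ℝ)), Topology.IsEmbedding h ∧
        Dense (h ⁻¹' {x | {γ | x γ ≠ 0}.Countable})) ∧
      ∃ g : L → K, Continuous g ∧ Function.Surjective g ∧ Monotone g := by
  rintro K _ _ _ _ ⟨V, _, _, ⟨Γ, h, h1, h2⟩, f, h3, h4⟩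
  refine Pool.Agent.H25.ValdLine3.main (isCompact_range h1.continuous) ?_
    (f ∘ h1.toHomeomorph.symm) (h3.comp h1.toHomeomorph.symm.continuous)
    (h4.comp h1.toHomeomorph.symm.surjective)
  rintro _ ⟨v, rfl⟩
  exact closure_mono (by rintro _ ⟨w, hw, rfl⟩; exact ⟨⟨w, rfl⟩, hw⟩)
    (image_closure_subset_closure_image h1.continuous ⟨v, h2 v, rfl⟩)

end Pool.Agent.S14129
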