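import Pool.Statements.S14147
import Pool.Agent.H1.MgC

set_option autoImplicit false
open Classical
open Pool Pool.MP_e62a5f_gt

namespace Pool.Agent.S14147

/-- In any finite-dimensional real normed space where every finite subset has a positive definite matrix exp(-distance), the magnitude (sum of entries of the inverse matrix) of nonempty finite subsets is continuous in the Hausdorff distance. -/
theorem result :
    ∀ (U : Type) [NormedAddCommGroup U] [NormedSpace ℝ U] [FiniteDimensional ℝ U],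
      (∀ X : Finset U,
        (Matrix.of fun (x y : ↥X) => Real.exp (-‖(x : U) - (y : U)‖)).PosDef) →
      ∀ X : Finset U, X.Nonempty → ∀ ε : ℝ, 0 < ε → ∃ δ : ℝ, 0 < δ ∧
        ∀ Y : Finset U, Y.Nonempty →
          Metric.hausdorffDist (X : Set U) (Y : Set U) < δ →
          |(∑ i, ∑ j,
              (Matrix.of fun (x y : ↥Y) => Real.exp (-‖(x : U) - (y : U)‖))⁻¹ i j) -
            (∑ i, ∑ j,
              (Matrix.of fun (x y : ↥X) => Real.exp (-‖(x : U) - (y : U)‖))⁻¹ i j)| < ε := by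
  intro U _ _ _ hU X hX ε hε
  rcases subsingleton_or_nontrivial U with hs | hs
  · refine ⟨1, one_pos, fun Y hY _ => ?_⟩
    obtain rfl : Y = X := by
      obtain ⟨a, ha⟩ := hX
      obtain ⟨b, hb⟩ := hY
      ext c
      exact ⟨fun _ => Subsingleton.elim a c ▸ ha, fun _ => Subsingleton.elim b c ▸ hb⟩
    simpa using hε
  obtain ⟨wX, e1, e2, e3⟩ := Pool.Agent.H1.Mg.wt (hU X)
  have m0 : 0 ≤ ∑ i, wX i := by simpa using e3 Empty Empty.elim Empty.elim
  rw [e1]
  set mX := ∑ i, wX i with hmX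
  set θ := ε / (4 * (mX + ε)) with hθ
  have θ0 : 0 < θ := by positivity
  have θ1 : θ * (4 * (mX + ε)) = ε := by rw [hθ]; field_simp
  obtain ⟨δ, δ0, h⟩ := Pool.Agent.H1.Mg.keyU hU X hX θ0 (by nlinarith)
  set K := ∑ i, ∑ j, |wX i * wX j| with hK
  have K0 : 0 ≤ K := by positivity
  refine ⟨min δ (ε / (2 * K + 1)), by positivity, fun Y hY hd => ?_⟩
  set d := min δ (ε / (2 * K + 1)) with hdd
  have d0 : 0 < d := by positivity
  have d1 : d * (2 * K + 1) ≤ ε := (le_div_iff₀ (by positivity)).1 (min_le_right _ _)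
  have fin := Metric.hausdorffEDist_ne_top_of_nonempty_of_bounded (s := (X : Set U))
    (t := (Y : Set U)) hX hY X.finite_toSet.isBounded Y.finite_toSet.isBounded
  have hp : ∀ y : Y, ∃ x : X, ‖(y : U) - x‖ < d := fun y => by
    obtain ⟨x, hx, h⟩ := Metric.exists_dist_lt_of_hausdorffDist_lt' y.2 hd fin
    exact ⟨⟨x, hx⟩, by rwa [dist_comm, dist_eq_norm] at h⟩
  have hq : ∀ x : X, ∃ y : Y, ‖(x : U) - y‖ < d := fun x => by
    obtain ⟨y, hy, h⟩ := Metric.exists_dist_lt_of_hausdorffDist_lt x.2 hd fin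
    exact ⟨⟨y, hy⟩, by rwa [dist_eq_norm] at h⟩
  choose p hp using hp
  choose q hq using hq
  obtain ⟨wY, f1, f2, f3⟩ := Pool.Agent.H1.Mg.wt (hU Y)
  rw [f1]
  simp only [Matrix.of_apply] at e2 e3 f2 f3
  have up := h Y (fun y => y) p (fun y => (hp y).le.trans (min_le_left _ _)) wY
  rw [f2] at up
  have up2 := e3 Y p fun y => (1 - θ) ^ 2 * wY y
  have e4 : ∑ i, ∑ j, (1 - θ) ^ 2 * wY i * ((1 - θ) ^ 2 * wY j) * Real.exp (-‖(p i : U) - p j‖)
      = (1 - θ) ^ 2 * ((1 - θ) ^ 2 * ∑ i, ∑ j, wY i * wY j * Real.exp (-‖(p i : U) - p j‖)) := by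
    simp only [Finset.mul_sum]
    exact Finset.sum_congr rfl fun i _ => Finset.sum_congr rfl fun j _ => by ring
  rw [e4, ← Finset.mul_sum] at up2
  have up3 := mul_le_mul_of_nonneg_left up (sq_nonneg (1 - θ))
  have lo := f3 X q wX
  have lo2 : ∑ i, ∑ j, wX i * wX j * Real.exp (-‖(q i : U) - q j‖) ≤ mX + 2 * d * K := by
    rw [← e2]
    simp only [hK, Finset.mul_sum, ← Finset.sum_add_distrib]
    refine Finset.sum_le_sum fun i _ => Finset.sum_le_sum fun j _ => ?_
    have a1 := Pool.Agent.H1.Mg.exp_lip (norm_nonneg ((q i : U) - q j)) (norm_nonneg ((i : U) - j))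
    have a2 : |‖(q i : U) - q j‖ - ‖(i : U) - j‖| ≤ 2 * d := by
      refine (abs_norm_sub_norm_le _ _).trans ?_
      rw [show (q i : U) - q j - (i - j) = (j - q j) - (i - q i) by abel]
      linarith [norm_sub_le ((j : U) - q j) (i - q i), hq i, hq j]
    have a3 := (le_abs_self _).trans ((abs_mul _ _).le.trans
      (mul_le_mul_of_nonneg_left (a1.trans a2) (abs_nonneg (wX i * wX j))))
    linarith
  refine abs_lt.2 ⟨by linarith, ?_⟩
  by_contra hc
  push Not at hc
  have b1 : (1 - θ) ^ 2 * (mX + ε) ≤ (1 - θ) ^ 2 * ∑ i, wY i :=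
    mul_le_mul_of_nonneg_left (by linarith) (sq_nonneg _)
  nlinarith [mul_nonneg (sq_nonneg θ) (add_nonneg m0 hε.le)]

end Pool.Agent.S14147
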