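import Pool.Statements.S14161
import Pool.Agent.H25.ValdLine

set_option autoImplicit false
open Topology
open Pool Pool.MP_eb6644_gt

namespace Pool.Agent.S14161

/-- For every compact linearly ordered space that is a continuous image of a Valdivia compactum, the set of points with no countable neighbourhood base has cardinality at most aleph-one. -/
theorem result :
    ∀ (K : Type) [LinearOrder K] [TopologicalSpace K] [OrderTopology K] [CompactSpace K],
      (∃ (Γ : Type) (L : Set (Γ → ℝ)),
          IsCompact L ∧
          L ⊆ closure (L ∩ {x : Γ → ℝ | (Function.support x).Countable}) ∧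
          ∃ f : L → K, Continuous f ∧ Function.Surjective f) →
      Cardinal.mk {x : K | ¬ (𝓝 x).IsCountablyGenerated} ≤ Cardinal.aleph 1 := by
  rintro K _ _ _ _ ⟨Γ, L, h1, h2, f, h3, h4⟩
  exact Pool.Agent.H25.ValdLine.main h1 h2 f h3 h4

end Pool.Agent.S14161
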