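import Pool.Statements.S14163
import Pool.Agent.H30.NW

set_option autoImplicit false
open Pool Pool.MP_eb94e1_gt

namespace Pool.Agent.S14163

/-- There is a normal T1 space in which every open cover has a countable subfamily with dense union, but some family of disjoint nonempty open sets is not met entirely by any Lindelöf subset. -/
theorem result :
    ∃ (X : Type) (_ : TopologicalSpace X), T4Space X ∧
      (∀ 𝒰 : Set (Set X), (∀ U ∈ 𝒰, IsOpen U) → ⋃₀ 𝒰 = Set.univ →
        ∃ 𝒱 ⊆ 𝒰, 𝒱.Countable ∧ Dense (⋃₀ 𝒱)) ∧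
      (∃ 𝒰 : Set (Set X), (∀ U ∈ 𝒰, IsOpen U ∧ U.Nonempty) ∧ 𝒰.PairwiseDisjoint id ∧
        ∀ L : Set X, IsLindelof L → ∃ U ∈ 𝒰, Disjoint U L) := by
  exact ⟨H30.NW.X, inferInstance, inferInstance, H30.NW.wl, H30.NW.ncl⟩

end Pool.Agent.S14163
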