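import Pool.Statements.S14166
import Pool.Agent.H30.DS

set_option autoImplicit false
open Pool Pool.MP_eb94e6_gt

namespace Pool.Agent.S14166

/-- The negation of the preceding statement: For every compact Hausdorff space X, the supremum over dense D of the least number of discrete sets whose union is dense in D equals the least number of disjoint families of nonempty open sets whose union is a π-base of X. -/
theorem result :
    ¬ (∀ (X : Type) [TopologicalSpace X], CompactSpace X → T2Space X →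
      (⨆ D : {D : Set X // Dense D},
          sInf {κ : Cardinal.{0} | ∃ (ι : Type) (A : ι → Set X),
            Cardinal.mk ι = κ ∧
            (∀ i, A i ⊆ D.1 ∧ DiscreteTopology ↥(A i)) ∧
            D.1 ⊆ closure (⋃ i, A i)}) =
      sInf {κ : Cardinal.{0} | ∃ (ι : Type) (C : ι → Set (Set X)),
        Cardinal.mk ι = κ ∧
        (∀ i, (C i).PairwiseDisjoint id) ∧
        (∀ i, ∀ U ∈ C i, IsOpen U ∧ U.Nonempty) ∧
        ∀ V : Set X, IsOpen V → V.Nonempty → ∃ i, ∃ U ∈ C i, U ⊆ V}) := by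
  intro h
  have h1 := h (H30.DS.K → Bool) inferInstance inferInstance
  have h2 := h1.symm.le.trans (ciSup_le' (a := Cardinal.aleph0) fun D => by
    obtain ⟨F, k1, k2⟩ := H30.DS.dsep (fun _ => D.1) fun _ => D.2
    exact csInf_le' ⟨ℕ, F, Cardinal.mk_nat, k1, fun x _ => k2 x⟩)
  obtain ⟨ι, C, k1, k2, k3, k4⟩ := csInf_mem (s := {κ : Cardinal.{0} | ∃ (ι : Type)
      (C : ι → Set (Set (H30.DS.K → Bool))), Cardinal.mk ι = κ ∧
      (∀ i, (C i).PairwiseDisjoint id) ∧ (∀ i, ∀ U ∈ C i, IsOpen U ∧ U.Nonempty) ∧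
      ∀ V, IsOpen V → V.Nonempty → ∃ i, ∃ U ∈ C i, U ⊆ V})
    ⟨_, {U // IsOpen U ∧ U.Nonempty}, fun U => {U.1}, rfl, fun _ => Set.pairwiseDisjoint_singleton _ _,
      fun U _ e => e ▸ U.2, fun V a b => ⟨⟨V, a, b⟩, V, rfl, subset_rfl⟩⟩
  have := Cardinal.mk_le_aleph0_iff.1 (k1.trans_le h2)
  exact H30.DS.nopi C k2 k3 k4

end Pool.Agent.S14166
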