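import Pool.Statements.S14175
import Pool.Agent.H25.FreeSet

set_option autoImplicit false
open Pool Pool.MP_ed4848_gt

namespace Pool.Agent.S14175

/-- For every index set κ and every compact Hausdorff space K of countable tightness, the image of any continuous map from the product space ℝ^κ into K has a countable network, i.e. is cosmic. -/
theorem result :
    ∀ (κ : Type) (K : Type) [TopologicalSpace K] [CompactSpace K] [T2Space K],
      (∀ (A : Set K) (x : K), x ∈ closure A →
          ∃ C : Set K, C ⊆ A ∧ C.Countable ∧ x ∈ closure C) →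
      ∀ φ : (κ → ℝ) → K, Continuous φ →
        ∃ 𝒩 : Set (Set K), 𝒩.Countable ∧ (∀ N ∈ 𝒩, N ⊆ Set.range φ) ∧
          ∀ x ∈ Set.range φ, ∀ U : Set K, IsOpen U → x ∈ U →
            ∃ N ∈ 𝒩, x ∈ N ∧ N ⊆ U := by
  classical
  intro κ K _ _ _ ht φ hφ
  obtain ⟨S, hS, h⟩ := Pool.Agent.H25.FreeSet.dep ht hφ
  have := hS.to_subtype
  let ι : (S → ℝ) → κ → ℝ := fun y k => if hk : k ∈ S then y ⟨k, hk⟩ else 0
  have hι : Continuous ι := continuous_pi fun k => by
    by_cases hk : k ∈ S
    · simp only [ι, dif_pos hk]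
      exact continuous_apply _
    · simp only [ι, dif_neg hk]
      exact continuous_const
  refine ⟨(fun B => (φ ∘ ι) '' B) '' TopologicalSpace.countableBasis (S → ℝ),
    (TopologicalSpace.countable_countableBasis _).image _, ?_, ?_⟩
  · rintro _ ⟨B, -, rfl⟩ _ ⟨y, -, rfl⟩
    exact ⟨_, rfl⟩
  · rintro _ ⟨x, rfl⟩ U hU hx
    have e : (φ ∘ ι) (fun k => x k) = φ x := by
      rw [h x]
      show φ _ = φ _
      congr 1
    obtain ⟨B, b1, b2, b3⟩ := (TopologicalSpace.isBasis_countableBasis (S → ℝ)).exists_subset_of_mem_open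
      (show (fun k : S => x k) ∈ (φ ∘ ι) ⁻¹' U from by rw [Set.mem_preimage, e]; exact hx)
      (hU.preimage (hφ.comp hι))
    exact ⟨_, ⟨B, b1, rfl⟩, ⟨_, b2, e⟩, Set.image_subset_iff.2 b3⟩

end Pool.Agent.S14175
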