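import Pool.Statements.S14230
import Pool.Agent.H31.KDetO

set_option autoImplicit false
open Pool Pool.MP_f54e59_gt

namespace Pool.Agent.S14230

theorem result :
    ¬ (∀ K : (∀ (Y : Type) [TopologicalSpace Y], Prop),
      (∀ (Y : Type) [TopologicalSpace Y], K Y → T0Space Y) →
      (∀ (Y : Type) [TopologicalSpace Y], T0Space Y → QuasiSober Y → K Y) →
      ∀ (I : Type) (X : I → Type) [∀ i, TopologicalSpace (X i)],
        (∀ i, T0Space (X i) ∧ ∀ A : Set (X i), IsIrreducible A → IsClosed A →
          ∀ (Y : Type) [TopologicalSpace Y], K Y → ∀ f : X i → Y, Continuous f →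
            ∃! y : Y, closure (f '' A) = closure {y}) →
        ∀ A : Set (∀ i, X i), IsIrreducible A → IsClosed A →
          ∀ (Y : Type) [TopologicalSpace Y], K Y → ∀ f : (∀ i, X i) → Y, Continuous f →
            ∃! y : Y, closure (f '' A) = closure {y}) := by
  intro h
  have hirr : IsIrreducible (Set.univ : Set (∀ n, H31.KDet.X n)) :=
    H31.KDet.irred_pi
  obtain ⟨y, hy, -⟩ := h H31.KDet.K (fun _ _ h => h.1) H31.KDet.K_of_sober ℕ H31.KDet.X
    (fun n => ⟨inferInstance, fun A hA hc Y _ hY f hf => by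
      rcases H31.KDet.irred_closed_X hA hc with rfl | ⟨a, rfl⟩
      · exact H31.KDet.det_univ n Y hY f hf
      · have := hY.1
        rw [Set.image_singleton]
        exact H31.KDet.closure_unique rfl⟩)
    Set.univ hirr isClosed_univ H31.KDet.Y H31.KDet.K_Y H31.KDet.iota H31.KDet.cont_iota
  rw [Set.image_univ] at hy
  exact H31.KDet.not_gen_iota y ((H31.KDet.gen_iff _ _).1 hy)

end Pool.Agent.S14230
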