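import Pool.Statements.S14235

set_option autoImplicit false
open Pool Pool.MP_f5ae99_gt

namespace Pool.Agent.S14235

open Set in
theorem closing {β I : Type} [Countable I] (op : I → β → β → β) {A : Set β} (hA : A.Countable) :
    ∃ S : Set β, S.Countable ∧ A ⊆ S ∧ ∀ i, ∀ a ∈ S, ∀ b ∈ S, op i a b ∈ S := by
  let st : Set β → Set β := fun B => B ∪ ⋃ i, image2 (op i) B B
  let T : ℕ → Set β := fun n => st^[n] A
  have hs : ∀ n, T (n + 1) = st (T n) := fun n => Function.iterate_succ_apply' _ _ _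
  have hc : ∀ n, (T n).Countable := by
    intro n
    induction n with
    | zero => exact hA
    | succ n ih =>
      rw [hs]
      exact ih.union (countable_iUnion fun i => ih.image2 ih _)
  have hm : Monotone T := monotone_nat_of_le_succ fun n => by rw [hs]; exact subset_union_left
  refine ⟨⋃ n, T n, countable_iUnion hc, subset_iUnion T 0, fun i a ha b hb => ?_⟩
  obtain ⟨n, hn⟩ := mem_iUnion.1 ha
  obtain ⟨k, hk⟩ := mem_iUnion.1 hb
  refine mem_iUnion.2 ⟨max n k + 1, ?_⟩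
  rw [hs]
  exact Or.inr (mem_iUnion.2 ⟨i, a, hm (le_max_left _ _) hn, b, hm (le_max_right _ _) hk, rfl⟩)

/-- The two families of operations: affine combination and clipping. -/
noncomputable def op (i : ℚ × Bool) (x y : ℝ) : ℝ :=
  if i.2 = true then x + i.1 * y else max (x - i.1) (min (x + i.1) y)

theorem op_cont (i : ℚ × Bool) : Continuous fun p : ℝ × ℝ => op i p.1 p.2 := by
  unfold op
  split_ifs <;> fun_prop

open BoundedContinuousFunction in
noncomputable def opB {X : Type} [TopologicalSpace X] (i : ℚ × Bool) (f g : X →ᵇ ℝ) : X →ᵇ ℝ :=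
  if i.2 = true then f + (i.1 : ℝ) • g
  else (f - const X (i.1 : ℝ)) ⊔ ((f + const X (i.1 : ℝ)) ⊓ g)

open BoundedContinuousFunction in
theorem opB_apply {X : Type} [TopologicalSpace X] (i : ℚ × Bool) (f g : X →ᵇ ℝ) (x : X) :
    opB i f g x = op i (f x) (g x) := by
  unfold opB op
  split_ifs <;> simp

open BoundedContinuousFunction in
noncomputable def atn {X : Type} [TopologicalSpace X] (g : X → ℝ) (hg : Continuous g) : X →ᵇ ℝ :=
  ofNormedAddCommGroup (fun x => Real.arctan (g x)) (Real.continuous_arctan.comp hg) 2 fun x => by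
    have h1 := Real.arctan_lt_pi_div_two (g x)
    have h2 := Real.neg_pi_div_two_lt_arctan (g x)
    have h3 := Real.pi_le_four
    rw [Real.norm_eq_abs, abs_le]
    constructor <;> linarith

/-- Networks pass to uniform closures. -/
theorem fatten {X : Type} {P Q : Set (X → ℝ)} {𝒩 : Set (Set (X → ℝ))} (h𝒩 : 𝒩.Countable)
    (hN : ∀ x ∈ P, ∀ U : Set (X → ℝ), IsOpen U → x ∈ U → ∃ N ∈ 𝒩, x ∈ N ∧ N ⊆ U)
    (hQ : ∀ f ∈ Q, ∀ ε > 0, ∃ g ∈ P, ∀ x, |f x - g x| < ε) :
    ∃ 𝒩' : Set (Set (X → ℝ)), 𝒩'.Countable ∧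
      ∀ x ∈ Q, ∀ U : Set (X → ℝ), IsOpen U → x ∈ U → ∃ N ∈ 𝒩', x ∈ N ∧ N ⊆ U := by
  refine ⟨Set.image2 (fun (N : Set (X → ℝ)) (q : ℚ) => {f | ∃ g ∈ N, ∀ x, |f x - g x| < q}) 𝒩
    Set.univ, h𝒩.image2 Set.countable_univ _, fun f hf U hU hfU => ?_⟩
  obtain ⟨J, w, c1, c2⟩ := isOpen_pi_iff.1 hU f hfU
  have h1 : ∀ᶠ ε in nhdsWithin (0 : ℝ) (Set.Ioi 0), ∀ z ∈ J, Metric.ball (f z) ε ⊆ w z :=
    (Filter.eventually_all_finset J).2 fun z hz =>
      (eventually_ball_subset ((c1 z hz).1.mem_nhds (c1 z hz).2)).filter_mono nhdsWithin_le_nhds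
  obtain ⟨ε, e1, e2⟩ := (h1.and self_mem_nhdsWithin).exists
  have e3 : (0 : ℝ) < ε / 3 := by have : (0 : ℝ) < ε := e2; linarith
  obtain ⟨q, q1, q2⟩ := exists_rat_btwn e3
  obtain ⟨g, g1, g2⟩ := hQ f hf q q1
  have ho : IsOpen {h : X → ℝ | ∀ z ∈ J, |h z - g z| < q} := by
    simp only [Set.ofPred_forall]
    exact isOpen_biInter_finset fun z _ =>
      isOpen_lt ((continuous_apply z).sub continuous_const).abs continuous_const
  obtain ⟨N, n1, n2, n3⟩ := hN g g1 _ ho (fun z _ => by simpa using q1)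
  refine ⟨_, ⟨N, n1, q, trivial, rfl⟩, ⟨g, n2, g2⟩, ?_⟩
  rintro h ⟨k, k1, k2⟩
  refine c2 fun z hz => e1 z hz ?_
  have a1 := abs_lt.1 (k2 z)
  have a2 := abs_lt.1 (n3 k1 z hz)
  have a3 := abs_lt.1 (g2 z)
  rw [Metric.mem_ball, Real.dist_eq, abs_lt]
  constructor <;> linarith

/-- For every Tychonoff X, if C_p(X) is a countable union of ω-monolithic subspaces (every countable subset has closure of countable network weight), then C_p(X) itself is ω-monolithic. -/
theorem result :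
  ∀ (X : Type) [TopologicalSpace X] [T35Space X] (Y : ℕ → Set (X → ℝ)),
    (⋃ n, Y n) = {f : X → ℝ | Continuous f} →
    (∀ n, ∀ A : Set (X → ℝ), A ⊆ Y n → A.Countable →
      ∃ 𝒩 : Set (Set (X → ℝ)), 𝒩.Countable ∧
        ∀ x ∈ closure A ∩ Y n, ∀ U : Set (X → ℝ), IsOpen U → x ∈ U →
          ∃ N ∈ 𝒩, x ∈ N ∧ N ⊆ U) →
    ∀ A : Set (X → ℝ), A ⊆ {f : X → ℝ | Continuous f} → A.Countable →
      ∃ 𝒩 : Set (Set (X → ℝ)), 𝒩.Countable ∧
        ∀ x ∈ closure A ∩ {f : X → ℝ | Continuous f}, ∀ U : Set (X → ℝ), IsOpen U → x ∈ U →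
          ∃ N ∈ 𝒩, x ∈ N ∧ N ⊆ U := by
  intro X _ _ Y hY hmon A hA hAc
  classical
  open BoundedContinuousFunction in
  obtain ⟨S, s1, s2, s3⟩ := closing (β := X →ᵇ ℝ) opB
    (A := insert 0 (Set.range fun a : A => atn a.1 (hA a.2)))
    ((@Set.countable_range _ _ hAc.to_subtype _).insert 0)
  open BoundedContinuousFunction in
  let S' : Set (X → ℝ) := (fun f : X →ᵇ ℝ => (f : X → ℝ)) '' S
  open BoundedContinuousFunction in
  let Z : Set (X →ᵇ ℝ) := {f | (f : X → ℝ) ∈ closure S'}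
  open BoundedContinuousFunction in
  have hco : Continuous fun f : X →ᵇ ℝ => (f : X → ℝ) :=
    continuous_pi fun x => continuous_eval_const x
  have hZc : IsClosed Z := isClosed_closure.preimage hco
  have hZop : ∀ i, ∀ f ∈ Z, ∀ g ∈ Z, opB i f g ∈ Z := by
    intro i f hf g hg
    have := map_mem_closure₂ (f := fun (u v : X → ℝ) x => op i (u x) (v x)) (u := S')
      (continuous_pi fun x => (op_cont i).comp (f := fun p : (X → ℝ) × (X → ℝ) => (p.1 x, p.2 x))
        (by fun_prop)) hf hg (by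
        rintro _ ⟨a, ha, rfl⟩ _ ⟨b, hb, rfl⟩
        exact ⟨_, s3 i a ha b hb, funext fun x => opB_apply i a b x⟩)
    show _ ∈ closure S'
    rwa [show (⇑(opB i f g) : X → ℝ) = _ from funext fun x => opB_apply i f g x]
  have hSZ : S ⊆ Z := fun f hf => subset_closure ⟨f, hf, rfl⟩
  have := hZc.completeSpace_coe
  have : Nonempty Z := ⟨⟨0, hSZ (s2 (Set.mem_insert _ _))⟩⟩
  obtain ⟨n, f0, hf0⟩ := nonempty_interior_of_iUnion_of_closed
    (f := fun n => closure {f : Z | (f.1 : X → ℝ) ∈ Y n}) (fun n => isClosed_closure) (by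
      refine Set.eq_univ_of_forall fun f => ?_
      have : (f.1 : X → ℝ) ∈ ⋃ n, Y n := hY ▸ f.1.continuous
      obtain ⟨n, hn⟩ := Set.mem_iUnion.1 this
      exact Set.mem_iUnion.2 ⟨n, subset_closure hn⟩)
  obtain ⟨ε, ε0, hε⟩ := Metric.mem_nhds_iff.1 (mem_interior_iff_mem_nhds.1 hf0)
  obtain ⟨r, r0, r1⟩ := exists_rat_btwn ε0
  -- uniform approximation inside the ball
  have happ : ∀ f ∈ Z, (∀ x, |f x - f0.1 x| ≤ r) → ∀ δ > 0, ∃ g ∈ Z, (g : X → ℝ) ∈ Y n ∧
      ∀ x, |f x - g x| < δ := by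
    intro f hf hr δ hδ
    have h1 : (⟨f, hf⟩ : Z) ∈ Metric.ball f0 ε :=
      lt_of_le_of_lt ((BoundedContinuousFunction.dist_le r0.le).2 hr) r1
    obtain ⟨g, g1, g2⟩ := Metric.mem_closure_iff.1 (hε h1) δ hδ
    exact ⟨g.1, g.2, g1, fun x => lt_of_le_of_lt
      (BoundedContinuousFunction.dist_coe_le_dist (f := f) (g := g.1) x) g2⟩
  have hclip : ∀ s x, |opB (r, false) f0.1 s x - f0.1 x| ≤ r := by
    intro s x
    rw [opB_apply, abs_le]
    simp only [op, Bool.false_eq_true, if_false]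
    constructor
    · linarith [le_max_left (f0.1 x - r) (min (f0.1 x + r) (s x))]
    · have : max (f0.1 x - r) (min (f0.1 x + r) (s x)) ≤ f0.1 x + r :=
        max_le (by linarith) (min_le_left _ _)
      linarith
  choose d d1 d2 d3 using fun (s : S) (k : ℕ) => happ _ (hZop (r, false) _ f0.2 _ (hSZ s.2))
    (hclip s.1) (1 / ((k : ℝ) + 1)) Nat.one_div_pos_of_nat
  have := s1.to_subtype
  let B : Set (X → ℝ) := Set.range fun p : S × ℕ => (d p.1 p.2 : X → ℝ)
  obtain ⟨𝒩, n1, n2⟩ := hmon n B (by rintro _ ⟨p, rfl⟩; exact d2 _ _) (Set.countable_range _)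
  have hB : ∀ g ∈ Z, (∀ x, |g x - f0.1 x| ≤ r) → (g : X → ℝ) ∈ closure B := by
    intro g hg hr
    have h1 : (fun x => op (r, false) (f0.1 x) (g x)) ∈
        closure ((fun (u : X → ℝ) x => op (r, false) (f0.1 x) (u x)) '' S') :=
      image_closure_subset_closure_image (f := fun (u : X → ℝ) x => op (r, false) (f0.1 x) (u x))
        (continuous_pi fun x => (op_cont _).comp (continuous_const.prodMk (continuous_apply x)))
        ⟨_, hg, rfl⟩
    have h2 : (fun x => op (r, false) (f0.1 x) (g x)) = g := funext fun x => by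
      have := abs_le.1 (hr x)
      simp only [op, Bool.false_eq_true, if_false]
      rw [min_eq_right (by linarith), max_eq_right (by linarith)]
    rw [h2] at h1
    refine isClosed_closure.closure_subset_iff.2 ?_ h1
    rintro _ ⟨_, ⟨s, hs, rfl⟩, rfl⟩
    refine mem_closure_of_tendsto (f := fun k : ℕ => (d ⟨s, hs⟩ k : X → ℝ)) (b := Filter.atTop)
      (tendsto_pi_nhds.2 fun x => ?_) (Filter.Eventually.of_forall fun k => ⟨(⟨s, hs⟩, k), rfl⟩)
    rw [tendsto_iff_dist_tendsto_zero]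
    refine squeeze_zero (fun _ => dist_nonneg) (fun k => ?_) tendsto_one_div_add_atTop_nhds_zero_nat
    have := d3 ⟨s, hs⟩ k x
    rw [opB_apply] at this
    rw [dist_comm]
    exact this.le
  -- a network for the half ball
  obtain ⟨𝒩', m1, m2⟩ := fatten (Q := {f | ∃ g ∈ Z, (g : X → ℝ) = f ∧
      ∀ x, |g x - f0.1 x| ≤ r / 2}) n1 n2 (by
    rintro _ ⟨g, g1, rfl, g2⟩ δ hδ
    obtain ⟨h, h1, h2, h3⟩ := happ g g1 (fun x => by linarith [g2 x]) (min δ (r / 2))
      (lt_min hδ (by linarith))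
    refine ⟨h, ⟨hB h h1 fun x => ?_, h2⟩, fun x => lt_of_lt_of_le (h3 x) (min_le_left _ _)⟩
    have a1 := abs_lt.1 (lt_of_lt_of_le (h3 x) (min_le_right _ _))
    have a2 := abs_le.1 (g2 x)
    rw [abs_le]
    constructor <;> linarith)
  let Φ : (X → ℝ) → X → ℝ := fun g x => f0.1 x + (r / 4 : ℝ) * Real.arctan (g x)
  have hΦ : Topology.IsInducing Φ := by
    have h1 : ∀ x, Topology.IsInducing fun t : ℝ => f0.1 x + (r / 4 : ℝ) * Real.arctan t := by
      intro x
      refine ((Homeomorph.addLeft (f0.1 x)).isInducing.comp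
        (Homeomorph.mulLeft₀ (r / 4 : ℝ) (by linarith)).isInducing).comp ?_
      exact Topology.IsInducing.subtypeVal.comp Real.tanOrderIso.symm.toHomeomorph.isInducing
    exact Topology.IsInducing.piMap h1
  refine ⟨(fun N => Φ ⁻¹' N) '' 𝒩', m1.image _, ?_⟩
  rintro g ⟨g1, g2⟩ U hU hgU
  obtain ⟨V, hV, rfl⟩ := hΦ.isOpen_iff.1 hU
  have hz : atn g g2 ∈ Z := by
    have h1 : (fun x => Real.arctan (g x)) ∈
        closure ((fun (u : X → ℝ) x => Real.arctan (u x)) '' A) :=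
      image_closure_subset_closure_image (f := fun (u : X → ℝ) x => Real.arctan (u x))
        (continuous_pi fun x => Real.continuous_arctan.comp (continuous_apply x)) ⟨_, g1, rfl⟩
    refine closure_mono ?_ h1
    rintro _ ⟨a, ha, rfl⟩
    exact ⟨_, s2 (Or.inr ⟨⟨a, ha⟩, rfl⟩), rfl⟩
  obtain ⟨N, a1, a2, a3⟩ := m2 (Φ g) ⟨opB (r / 4, true) f0.1 (atn g g2), hZop _ _ f0.2 _ hz,
    funext fun x => by rw [opB_apply]; simp [op, Φ, atn], fun x => by
      rw [opB_apply]
      have h1 := Real.arctan_lt_pi_div_two (g x)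
      have h2 := Real.neg_pi_div_two_lt_arctan (g x)
      have h3 := Real.pi_le_four
      have h4 : op (r / 4, true) (f0.1 x) (atn g g2 x) - f0.1 x = r / 4 * Real.arctan (g x) := by
        simp [op, atn]
      rw [h4, abs_le]
      constructor <;> nlinarith⟩ V hV hgU
  exact ⟨_, ⟨N, a1, rfl⟩, a2, Set.preimage_mono a3⟩

end Pool.Agent.S14235
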