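import Pool.Statements.S14237
import Pool.Agent.H25.MonoMono

set_option autoImplicit false
open Pool Pool.MP_f624f5_gt

namespace Pool.Agent.S14237

/-- Every compact Hausdorff space in which disjoint families of nonempty open sets are countable (ccc) and which is monotonically monolithic, in Tkachuk's sense with well-ordered chain continuity, is metrizable. -/
theorem result :
    ∀ (X : Type) [TopologicalSpace X] [T2Space X] [CompactSpace X],
      (∀ F : Set (Set X), (∀ U ∈ F, IsOpen U ∧ U.Nonempty) → F.PairwiseDisjoint id → F.Countable) →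
      (∃ O : Set X → Set (Set X),
        (∀ A : Set X, Cardinal.mk ↥(O A) ≤ max (Cardinal.mk ↥A) Cardinal.aleph0) ∧
        (∀ A : Set X, ∀ x ∈ closure A, ∀ U : Set X, IsOpen U → x ∈ U →
            ∃ N ∈ O A, x ∈ N ∧ N ⊆ U) ∧
        (∀ A B : Set X, A ⊆ B → O A ⊆ O B) ∧
        (∀ (ι : Type) [LinearOrder ι] [WellFoundedLT ι] (A : ι → Set X),
            Monotone A → O (⋃ i, A i) = ⋃ i, O (A i))) →
      TopologicalSpace.MetrizableSpace X := by
  rintro X _ _ _ hc ⟨O, o1, o2, -, o4⟩
  obtain ⟨D, d1, d2⟩ := Pool.Agent.H25.MonoMono.sep_of_ccc O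
    (fun A hA => Pool.Agent.H25.MonoMono.cnt o1 hA.countable) (fun d x hx U hU hxU => by
      obtain ⟨N, hN, h⟩ := o2 _ x hx U hU hxU
      have hm : Monotone fun n : ℕ => d '' Set.Iio n := fun a b hab =>
        Set.image_mono (Set.Iio_subset_Iio hab)
      rw [Pool.Agent.H25.MonoMono.range_eq, o4 ℕ _ hm] at hN
      obtain ⟨n, hN⟩ := Set.mem_iUnion.1 hN
      exact ⟨n, N, hN, h⟩) hc
  exact Pool.Agent.H25.MonoMono.metr_of_net (O D) (Pool.Agent.H25.MonoMono.cnt o1 d1)
    fun x U hU hx => o2 D x (d2 x) U hU hx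

end Pool.Agent.S14237
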