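import Pool.Statements.S14275
import Pool.Agent.H31.Slender

set_option autoImplicit false
open Pool Pool.MP_faf39c_gt

namespace Pool.Agent.S14275

theorem result :
    ∃ T : (G : Type) → [AddCommGroup G] → TopologicalSpace G,
      (∀ (G : Type) [AddCommGroup G], @IsTopologicalAddGroup G (T G) _) ∧
      (∀ (G H : Type) [AddCommGroup G] [AddCommGroup H] (f : G →+ H),
          @Continuous G H (T G) (T H) f) ∧
      ∃ (G : Type) (_ : AddCommGroup G), Infinite G ∧ @T2Space G (T G) ∧
        ∃ D : Set G, @Dense G (T G) D ∧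
          (2 : Cardinal) ^ Cardinal.mk ↥D < Cardinal.mk G := by
  refine ⟨fun G _ => H31.Slender.init ℤ G, fun G _ => H31.Slender.init_group ℤ G,
    fun G H _ _ f => H31.Slender.init_cont ℤ G H f, (ℕ → Bool) → ℤ, inferInstance,
    inferInstance, ?_, ?_⟩
  · show @T2Space _ (H31.Slender.init ℤ ((ℕ → Bool) → ℤ))
    rw [H31.Slender.init_pi]; infer_instance
  · obtain ⟨D, hD, hD'⟩ := H31.Slender.pi_separable
    refine ⟨D, ?_, H31.Slender.card_lt D hD⟩
    show @Dense _ (H31.Slender.init ℤ ((ℕ → Bool) → ℤ)) D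
    rw [H31.Slender.init_pi]; exact hD'

end Pool.Agent.S14275
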