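import Pool.Statements.S14632
import Pool.Agent.H25.NSIdeal

set_option autoImplicit false
open Pool Pool.MP_40e9ab_lc

namespace Pool.Agent.S14632

open Cardinal Set Pool.Agent.H25.NSIdeal in
theorem result :
    ¬ (∀ N : Set (Set ℝ),
      (∀ A ∈ N, A ⊆ Set.Icc (0:ℝ) 1) →
      (∀ J : Set ℝ, J.OrdConnected → J ⊆ Set.Icc (0:ℝ) 1 → J ∈ N) →
      (∀ A ∈ N, Set.Icc (0:ℝ) 1 \ A ∈ N) →
      (∀ f : ℕ → Set ℝ, (∀ n, f n ∈ N) → (⋃ n, f n) ∈ N) →
      (∀ P : Set (Set ℝ),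
          (∀ p ∈ P, ∃ x ∈ p, ∃ y ∈ p, x ≠ y) →
          P.PairwiseDisjoint id →
          ⋃₀ P = Set.Icc (0:ℝ) 1 →
          ∃ S ∈ N, ∀ p ∈ P, ∃! x, x ∈ S ∧ x ∈ p) →
      ∀ A : Set ℝ, A ⊆ Set.Icc (0:ℝ) 1 → A ∈ N) := by
  intro H
  obtain ⟨W, _, _, hW, hle, hlt⟩ := exists_good
  obtain ⟨b0⟩ : Nonempty (W ↪ Icc (0:ℝ) 1) := by
    rw [← Cardinal.le_def, mk_Icc_real (by norm_num)]
    exact hle
  let b : W → ℝ := fun w => (b0 w : ℝ)
  have hb : Function.Injective b := fun w w' h => b0.injective (Subtype.ext h)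
  have hbI : ∀ w, b w ∈ Icc (0:ℝ) 1 := fun w => (b0 w).2
  let N : Set (Set ℝ) :=
    {A | A ⊆ Icc (0:ℝ) 1 ∧ ∃ E : Set ℝ, MeasurableSet E ∧ Thin {w | ¬ (b w ∈ A ↔ b w ∈ E)}}
  have hall : ∀ A : Set ℝ, A ⊆ Set.Icc (0:ℝ) 1 → A ∈ N := by
    apply H N
    · exact fun A hA => hA.1
    · intro J hJ hJI
      refine ⟨hJI, J, hJ.measurableSet, small_mono ?_ (small_empty hW)⟩
      intro w hw
      exact hw Iff.rfl
    · rintro A ⟨_, E, hE, hs⟩
      refine ⟨sdiff_subset, Eᶜ, hE.compl, small_mono ?_ hs⟩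
      intro w hw h
      apply hw
      simp only [mem_diff, mem_compl_iff, hbI w, true_and, h]
    · intro f hf
      choose hfI E hE hs using hf
      refine ⟨iUnion_subset hfI, ⋃ n, E n, MeasurableSet.iUnion hE,
        small_mono ?_ (small_iUnion hW _ hs)⟩
      intro w hw
      by_contra h
      apply hw
      simp only [mem_iUnion, not_exists, mem_setOf_eq, not_not] at h ⊢
      exact exists_congr h
    · intro P h2 hd hU
      have h3 : ∀ p : P, ∃ x ∈ (p : Set ℝ), ∀ w, b w = x → ∃ w', w' < w ∧ b w' ∈ (p : Set ℝ) := by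
        rintro ⟨p, hp⟩
        obtain ⟨x, hx, y, hy, hxy⟩ := h2 p hp
        by_cases h4 : ∃ w, b w = x
        · by_cases h5 : ∃ w, b w = y
          · obtain ⟨w1, rfl⟩ := h4
            obtain ⟨w2, rfl⟩ := h5
            have h6 : w1 ≠ w2 := fun h => hxy (congrArg b h)
            rcases lt_or_gt_of_ne h6 with h7 | h7
            · exact ⟨b w2, hy, fun w hw => ⟨w1, hb hw ▸ h7, hx⟩⟩
            · exact ⟨b w1, hx, fun w hw => ⟨w2, hb hw ▸ h7, hy⟩⟩
          · exact ⟨y, hy, fun w hw => absurd ⟨w, hw⟩ h5⟩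
        · exact ⟨x, hx, fun w hw => absurd ⟨w, hw⟩ h4⟩
      choose x hx hx2 using h3
      have huniq : ∀ (p q : P) (z : ℝ), z ∈ (p : Set ℝ) → z ∈ (q : Set ℝ) → p = q := by
        intro p q z hp hq
        by_contra h
        have h5 : (p : Set ℝ) ≠ q := fun h6 => h (Subtype.ext h6)
        exact (Set.disjoint_left.1 (hd p.2 q.2 h5)) hp hq
      refine ⟨range x, ⟨?_, ∅, MeasurableSet.empty, ?_⟩, ?_⟩
      · rintro _ ⟨p, rfl⟩
        rw [← hU]
        exact ⟨p, p.2, hx p⟩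
      · have h6 : ∀ w, ∃ w', b w ∈ range x → w' < w ∧ ∃ p : P, x p = b w ∧ b w' ∈ (p : Set ℝ) := by
          intro w
          by_cases hw : b w ∈ range x
          · obtain ⟨p, hp⟩ := hw
            obtain ⟨w', h7, h8⟩ := hx2 p w hp.symm
            exact ⟨w', fun _ => ⟨h7, p, hp, h8⟩⟩
          · exact ⟨w, fun h => absurd h hw⟩
        choose f hf using h6
        refine small_mono (X := {w | b w ∈ range x}) ?_
          (small_of_inj hW _ f (fun w hw => (hf w hw).1) ?_)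
        · intro w hw
          simpa using hw
        · intro w1 h1 w2 h2' h3
          obtain ⟨p, hp, hp2⟩ := (hf w1 h1).2
          obtain ⟨q, hq, hq2⟩ := (hf w2 h2').2
          rw [h3] at hp2
          have := huniq p q _ hp2 hq2
          apply hb
          rw [← hp, ← hq, this]
      · intro p hp
        refine ⟨x ⟨p, hp⟩, ⟨⟨_, rfl⟩, hx ⟨p, hp⟩⟩, ?_⟩
        rintro _ ⟨⟨q, rfl⟩, hq⟩
        rw [huniq q ⟨p, hp⟩ _ (hx q) hq]
  obtain ⟨g, hg⟩ := split hW
  let G : Set W := {c | ¬ Thin {a | g a = c}}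
  have h1 : ∀ T : Set G, ∃ E : {E : Set ℝ | MeasurableSet E},
      Thin {w | ¬ ((∃ c ∈ T, g w = (c : W)) ↔ b w ∈ (E : Set ℝ))} := by
    intro T
    obtain ⟨_, E, hE, hs⟩ := hall (b '' {w | ∃ c ∈ T, g w = (c : W)}) (by
      rintro _ ⟨w, _, rfl⟩
      exact hbI w)
    refine ⟨⟨E, hE⟩, small_mono ?_ hs⟩
    intro w hw h
    apply hw
    rw [hb.mem_set_image] at h
    exact h
  choose F hF using h1
  have key : ∀ T T' : Set G, F T = F T' → T ⊆ T' := by
    intro T T' h c hc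
    by_contra hc'
    apply c.2
    refine small_mono ?_ (small_union hW (hF T) (hF T'))
    intro a ha
    by_contra h5
    simp only [mem_union, mem_setOf_eq, not_or, not_not] at h5
    have h6 : b a ∈ (F T : Set ℝ) := h5.1.1 ⟨c, hc, ha⟩
    rw [h] at h6
    obtain ⟨c', h7, h8⟩ := h5.2.2 h6
    have : c = c' := Subtype.ext (by rw [← h8]; exact ha.symm)
    exact hc' (this ▸ h7)
  have hinj : Function.Injective F := fun T T' h => Subset.antisymm (key _ _ h) (key _ _ h.symm)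
  have h7 : #(Set G) ≤ #{E : Set ℝ | MeasurableSet E} := mk_le_of_injective hinj
  have h8 : #{E : Set ℝ | MeasurableSet E} ≤ 𝔠 := by
    have h9 := MeasurableSpace.cardinal_measurableSet_le_continuum
      (s := range (Iio : ℝ → Set ℝ)) (mk_range_le.trans mk_real.le)
    rw [← borel_eq_generateFrom_Iio ℝ, ← BorelSpace.measurable_eq (α := ℝ)] at h9
    exact h9
  rw [mk_set] at h7
  have h10 : (2 : Cardinal) ^ #W ≤ 2 ^ #G := power_le_power_left two_ne_zero hg
  exact lt_irrefl _ (lt_of_lt_of_le hlt (h10.trans (h7.trans h8)))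

end Pool.Agent.S14632
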