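import Pool.Statements.S14696
import Pool.Agent.H16.PerUn

set_option autoImplicit false
open Pool Pool.MP_51f845_lc

namespace Pool.Agent.S14696

/-- The negation of the preceding statement: For every finite alphabet and context-free language L of nonempty words: only finitely many words avoid all factors from L iff for each nonempty word w some power of w has a factor in L. -/
theorem result :
    ¬ (∀ (α : Type) [Fintype α] (L : Language α),
      L.IsContextFree →
      (∀ v ∈ L, v ≠ []) →
      ({u : List α | ¬ ∃ v ∈ L, v <:+: u}.Finite ↔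
        ∀ w : List α, w ≠ [] →
          ∃ n : ℕ, ∃ v ∈ L, v <:+: (List.replicate n w).flatten)) := by
  intro h
  open Pool.Agent.H16.CFG Pool.Agent.H16.PerUn in
  have := (h (Fin 3) (gram R).language ⟨gram R, rfl⟩ (by
    rintro v hv rfl
    exact avoid 0 ⟨[], (mem_lang _).1 hv, List.infix_refl _⟩)).2 (fun w hw =>
      let ⟨n, v, h1, h2⟩ := per w hw; ⟨n, v, (mem_lang _).2 h1, h2⟩)
  open Pool.Agent.H16.CFG Pool.Agent.H16.PerUn in
  refine Set.infinite_of_injective_forall_mem (f := fun n => wd n 0) (fun a b e => ?_) (fun n => ?_) this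
  · simpa [Pool.Agent.H16.PerUn.wd_len] using congrArg List.length e
  · rintro ⟨v, h1, h2⟩
    exact Pool.Agent.H16.PerUn.avoid n ⟨v, (Pool.Agent.H16.CFG.mem_lang _).1 h1, h2⟩

end Pool.Agent.S14696
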