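import Pool.Statements.S14705
import Pool.Agent.H16.AMD3

set_option autoImplicit false
open Pool Pool.MP_5436b5_lc

namespace Pool.Agent.S14705

/-- There is c>0 such that for all large n some n-state always-marking 1-limited automaton has the property that every equivalent deterministic always-marking 1-limited automaton has at least 2^(cn) states. -/
theorem result :
    ∃ c : ℝ, 0 < c ∧ ∃ N : ℕ, ∀ n : ℕ, N ≤ n →
      ∃ k : ℕ,
      ∃ δL : Fin n → Finset (Fin n × Bool),
      ∃ δR : Fin n → Finset (Fin n × Bool),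
      ∃ δU : Fin n → Fin k → Finset (Fin n × Bool),
      ∃ δM : Fin n → Fin k → Finset (Fin n × Bool),
      ∃ qI : Fin n, ∃ F : Finset (Fin n),
      ∀ m : ℕ,
      ∀ eL : Fin m → Finset (Fin m × Bool),
      ∀ eR : Fin m → Finset (Fin m × Bool),
      ∀ eU : Fin m → Fin k → Finset (Fin m × Bool),
      ∀ eM : Fin m → Fin k → Finset (Fin m × Bool),
      ∀ pI : Fin m, ∀ G : Finset (Fin m),
        (∀ p, (eL p).card ≤ 1) → (∀ p, (eR p).card ≤ 1) →
        (∀ p a, (eU p a).card ≤ 1) → (∀ p a, (eM p a).card ≤ 1) →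
        (∀ w : List (Fin k),
          (∃ q : Fin n, ∃ i j : ℕ,
            Relation.ReflTransGen
              (fun x y : Fin n × ℕ × ℕ =>
                (x.2.1 = 0 ∧ (y.1, true) ∈ δL x.1 ∧ y.2.1 = 1 ∧ y.2.2 = x.2.2) ∨
                (x.2.1 = w.length + 1 ∧ (y.1, false) ∈ δR x.1 ∧
                  y.2.1 = w.length ∧ y.2.2 = x.2.2) ∨
                (∃ a : Fin k, 1 ≤ x.2.1 ∧ w[x.2.1 - 1]? = some a ∧
                  ∃ b : Bool,
                    (y.1, b) ∈ (if x.2.1 ≤ x.2.2 then δM x.1 a else δU x.1 a) ∧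
                    y.2.1 = (if b then x.2.1 + 1 else x.2.1 - 1) ∧
                    y.2.2 = max x.2.2 x.2.1))
              (qI, 1, 0) (q, i, j) ∧
            i = w.length + 1 ∧ ∃ q' ∈ F, (q', true) ∈ δR q)
          ↔
          (∃ q : Fin m, ∃ i j : ℕ,
            Relation.ReflTransGen
              (fun x y : Fin m × ℕ × ℕ =>
                (x.2.1 = 0 ∧ (y.1, true) ∈ eL x.1 ∧ y.2.1 = 1 ∧ y.2.2 = x.2.2) ∨
                (x.2.1 = w.length + 1 ∧ (y.1, false) ∈ eR x.1 ∧
                  y.2.1 = w.length ∧ y.2.2 = x.2.2) ∨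
                (∃ a : Fin k, 1 ≤ x.2.1 ∧ w[x.2.1 - 1]? = some a ∧
                  ∃ b : Bool,
                    (y.1, b) ∈ (if x.2.1 ≤ x.2.2 then eM x.1 a else eU x.1 a) ∧
                    y.2.1 = (if b then x.2.1 + 1 else x.2.1 - 1) ∧
                    y.2.2 = max x.2.2 x.2.1))
              (pI, 1, 0) (q, i, j) ∧
            i = w.length + 1 ∧ ∃ q' ∈ G, (q', true) ∈ eR q)) →
        (2 : ℝ) ^ (c * (n : ℝ)) ≤ (m : ℝ) := by
  refine ⟨1 / 12, by norm_num, 24, fun n hn => ?_⟩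
  obtain ⟨k, δL, δR, δU, δM, qI, F, h⟩ := Pool.Agent.H16.AMD.exists_hard n (by omega)
  refine ⟨k, δL, δR, δU, δM, qI, F, fun m eL eR eU eM pI G h1 h2 h3 h4 h5 => ?_⟩
  refine Pool.Agent.H16.AMD.final n m hn (h m (Pool.Agent.H16.AMD.ofF eL eR eU eM)
    ⟨fun q x y a b => Finset.card_le_one.1 (h1 q) x a y b,
     fun q x y a b => Finset.card_le_one.1 (h2 q) x a y b,
     fun q c x y a b => Finset.card_le_one.1 (h3 q c) x a y b,
     fun q c x y a b => Finset.card_le_one.1 (h4 q c) x a y b⟩ pI (· ∈ G) fun w => ?_)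
  have := h5 w
  rw [Pool.Agent.H16.AMD.step_ofF, Pool.Agent.H16.AMD.step_ofF] at this
  exact this

end Pool.Agent.S14705
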