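import Pool.Statements.S14778
import Pool.Agent.H17.CFI3

set_option autoImplicit false
open Pool Pool.MP_5fb53e_lc

namespace Pool.Agent.S14778

/-- The negation of the preceding statement: There is a fixed k such that every disk graph is identified up to isomorphism by k-variable counting logic: any finite graph on which Duplicator wins the bijective k-pebble game against it is isomorphic to it. -/
theorem result :
    ¬ (∃ k : ℕ, ∀ (n : ℕ) (G : SimpleGraph (Fin n)),
      (∃ c : Fin n → EuclideanSpace ℝ (Fin 2), ∃ r : Fin n → ℝ,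
          (∀ i, 0 < r i) ∧
          ∀ i j, i ≠ j → (G.Adj i j ↔ dist (c i) (c j) ≤ r i + r j)) →
      ∀ (m : ℕ) (H : SimpleGraph (Fin m)),
        (∃ P : Set ((Fin k → Fin n) × (Fin k → Fin m)),
          (∀ p ∈ P, ∀ i j : Fin k,
              (p.1 i = p.1 j ↔ p.2 i = p.2 j) ∧
              (G.Adj (p.1 i) (p.1 j) ↔ H.Adj (p.2 i) (p.2 j))) ∧
          (∀ p ∈ P, ∀ i : Fin k, ∃ f : Fin n ≃ Fin m, ∀ v : Fin n,
              (Function.update p.1 i v, Function.update p.2 i (f v)) ∈ P) ∧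
          (∃ f : Fin n ≃ Fin m, ∀ v : Fin n,
              ((fun _ : Fin k => v), (fun _ : Fin k => f v)) ∈ P)) →
        Nonempty (G ≃g H)) := by
  rintro ⟨k, hk⟩
  obtain ⟨n, ⟨eG⟩⟩ := Finite.exists_equiv_fin (Pool.Agent.H17.CFI.V (k + 2) 0)
  obtain ⟨m, ⟨eH⟩⟩ := Finite.exists_equiv_fin
    (Pool.Agent.H17.CFI.V (k + 2) (Pool.Agent.H17.CFI.dl Pool.Agent.H17.CFI.g0))
  open Pool.Agent.H17.CFI in
  have := hk n ((Gr _ _).comap eG.symm) ?_ m ((Gr _ _).comap eH.symm) ?_
  · obtain ⟨φ⟩ := this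
    exact (Pool.Agent.H17.CFI.noniso (N := k + 2) (by omega)).false
      ((SimpleGraph.Iso.comap eG.symm _).symm.trans (φ.trans (SimpleGraph.Iso.comap eH.symm _)))
  · open Pool.Agent.H17.CFI in
    refine ⟨fun i => !₂[(px (eG.symm i).1.1 : ℝ), (py (eG.symm i).1.1 : ℝ)],
      fun i => (cr (eG.symm i).1.1.2 : ℝ), fun i => Int.cast_pos.2 (geo_box _).1,
      fun i j hij => ?_⟩
    have h1 := (Pool.Agent.H17.CFI.geo_box (eG.symm i).1.1.2).1
    have h2 := (Pool.Agent.H17.CFI.geo_box (eG.symm j).1.1.2).1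
    rw [EuclideanSpace.dist_eq, Real.sqrt_le_left (by positivity)]
    simp only [Fin.sum_univ_two, Real.dist_eq, sq_abs, Matrix.cons_val_zero, Matrix.cons_val_one]
    change (_ ∧ _) ↔ _
    rw [and_iff_right (fun h => hij (eG.symm.injective h)),
      Pool.Agent.H17.CFI.geo (eG.symm i).2.1 (eG.symm j).2.1]
    norm_cast
  · refine ⟨{p | Pool.Agent.H17.CFI.Pos k (eG.symm ∘ p.1) (eH.symm ∘ p.2)}, fun p hp i j => ?_,
      fun p hp i => ?_, ?_⟩
    · obtain ⟨h1, h2⟩ := Pool.Agent.H17.CFI.pos_iso hp i j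
      exact ⟨by simpa using h1, h2⟩
    · obtain ⟨f, hf⟩ := Pool.Agent.H17.CFI.pos_step hp i
      refine ⟨eG.symm.trans (f.trans eH), fun v => ?_⟩
      have := hf (eG.symm v)
      simpa [Function.comp_update] using this
    · obtain ⟨f, hf⟩ := Pool.Agent.H17.CFI.pos_init k
      refine ⟨eG.symm.trans (f.trans eH), fun v => ?_⟩
      have := hf (eG.symm v)
      simpa [Function.comp_def] using this

end Pool.Agent.S14778
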