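import Pool.Statements.S14880
import Pool.Agent.H16.JG3

set_option autoImplicit false
open Pool Pool.MP_708d71_lc

namespace Pool.Agent.S14880

/-- The negation of the preceding statement: There is a monotone grammar whose language under jumping derivations (delete a rule's left side anywhere, insert its right side anywhere) is generated by no context-sensitive grammar under jumping derivations. -/
theorem result :
    ¬ (∃ (T : Type) (_ : Fintype T) (N : Type) (_ : Fintype N) (S : N)
      (P : Finset (List (Symbol T N) × List (Symbol T N))),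
      (∀ r ∈ P, (∃ A : N, Symbol.nonterminal A ∈ r.1) ∧ r.1.length ≤ r.2.length) ∧
      ∀ (N' : Type) (_ : Fintype N') (S' : N')
        (P' : Finset (List (Symbol T N') × List (Symbol T N'))),
        (∀ r ∈ P', ∃ (α β γ : List (Symbol T N')) (A : N'), γ ≠ [] ∧
            r.1 = α ++ [Symbol.nonterminal A] ++ β ∧ r.2 = α ++ γ ++ β) →
        {w : List T | Relation.ReflTransGen
            (fun (x y : List (Symbol T N)) => ∃ r ∈ P, ∃ (u v u' v' : List (Symbol T N)),
              x = u ++ r.1 ++ v ∧ y = u' ++ r.2 ++ v' ∧ u ++ v = u' ++ v')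
            [Symbol.nonterminal S] (w.map Symbol.terminal)} ≠
        {w : List T | Relation.ReflTransGen
            (fun (x y : List (Symbol T N')) => ∃ r ∈ P', ∃ (u v u' v' : List (Symbol T N')),
              x = u ++ r.1 ++ v ∧ y = u' ++ r.2 ++ v' ∧ u ++ v = u' ++ v')
            [Symbol.nonterminal S'] (w.map Symbol.terminal)}) := by
  rintro ⟨T, _, N, _, S, P, hP, h⟩
  obtain ⟨N', _, S', P', hf, hc, e⟩ := Pool.Agent.H16.JG.main (P := (↑P)) P.finite_toSet
    (fun r hr => ⟨by obtain ⟨A, hA⟩ := (hP r hr).1; exact List.ne_nil_of_mem hA, (hP r hr).2⟩) S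
  refine h N' (Fintype.ofFinite _) S' hf.toFinset (fun r hr => hc r (hf.mem_toFinset.1 hr)) ?_
  simp only [hf.mem_toFinset]
  exact e.symm

end Pool.Agent.S14880
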