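import Pool.Statements.S14982
import Pool.Agent.H16.EDTCF

set_option autoImplicit false
open Pool Pool.MP_835627_lc

namespace Pool.Agent.S14982

/-- The negation of the preceding statement: Over any finite alphabet, a language is both EDT0L and context-free iff some context-free grammar generates it in which every word has a derivation whose sentential forms have at most k nonterminals, for a fixed k. -/
theorem result :
    ¬ (∀ (T : Type) [Fintype T] (L : Language T),
      ((∃ (V : Type) (_ : Fintype V) (ι : T → V) (tables : List (V → List V)) (ω : List V),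
          Function.Injective ι ∧
          ∀ x : List T, x ∈ L ↔
            ∃ sq : List (V → List V), (∀ h ∈ sq, h ∈ tables) ∧
              sq.foldl (fun u h => u.flatMap h) ω = x.map ι) ∧
        (∃ G : ContextFreeGrammar T, G.language = L)) ↔
      (∃ (G : ContextFreeGrammar T) (k : ℕ), G.language = L ∧
        ∀ w ∈ G.language,
          Relation.ReflTransGen
            (fun u v : List (Symbol T G.NT) =>
              G.Produces u v ∧
                {i : Fin v.length | ∃ n : G.NT, v.get i = Symbol.nonterminal n}.ncard ≤ k)
            [Symbol.nonterminal G.initial] (w.map Symbol.terminal))) := by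
  intro h
  open Pool.Agent.H16.CFG2 Pool.Agent.H16.FinIdx Pool.Agent.H16.EDTCF in
  obtain ⟨G, k, hG, hk⟩ := (h (Fin 3) (gram R 0).language).1
    ⟨⟨Fin 3 ⊕ Fin 7, inferInstance, Sum.inl, R.map tb, [.inr 0], Sum.inl_injective, edt⟩, gram R 0, rfl⟩
  open Pool.Agent.H16.CFG2 Pool.Agent.H16.FinIdx Pool.Agent.H16.EDTCF in
  refine noidx G k t (fun n => good_t n n 0 (by omega)) (hG ▸ K) fun n => ?_
  have := hk _ (hG ▸ Pool.Agent.H16.EDTCF.t_mem n)
  simpa only [Pool.Agent.H16.FinIdx.ncard_eq] using this

end Pool.Agent.S14982
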