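import Pool.Statements.S15054

set_option autoImplicit false
open Pool Pool.MP_908db9_lc

namespace Pool.Agent.S15054

/-- The negation of the preceding statement: For every Polish group G, Polish space X, subset A of X and continuous action of G on A, there is a G_delta set B with A ⊆ B ⊆ X and a continuous action of G on B extending the given action. -/
theorem result :
    ¬ (∀ (G : Type) [TopologicalSpace G] [Group G] [IsTopologicalGroup G] [PolishSpace G]
      (X : Type) [TopologicalSpace X] [PolishSpace X]
      (A : Set X) (a : G → A → A),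
      Continuous (fun p : G × A => a p.1 p.2) →
      (∀ x : A, a 1 x = x) →
      (∀ (g h : G) (x : A), a g (a h x) = a (g * h) x) →
      ∃ B : Set X, IsGδ B ∧ A ⊆ B ∧
        ∃ b : G → B → B,
          Continuous (fun p : G × B => b p.1 p.2) ∧
          (∀ x : B, b 1 x = x) ∧
          (∀ (g h : G) (x : B), b g (b h x) = b (g * h) x) ∧
          (∀ (g : G) (x : B) (hx : (x : X) ∈ A),
            ((b g x : B) : X) = ((a g ⟨(x : X), hx⟩ : A) : X))) := by
  intro H
  haveI : PolishSpace ℝˣ := by
    have h1 : IsOpen (Set.range (Units.val : ℝˣ → ℝ)) := Units.isOpen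
    haveI := h1.polishSpace
    exact (Units.isOpenEmbedding_val.isEmbedding.toHomeomorph).isClosedEmbedding.polishSpace
  haveI : PolishSpace (ℕ → ℝˣ) := {}
  have hop : IsOpen {y : ℕ → ℝ | y ≠ 1} := isOpen_ne
  haveI : PolishSpace {y : ℕ → ℝ | y ≠ 1} := hop.polishSpace
  let X : Type := {y : ℕ → ℝ | y ≠ 1}
  let A : Set X := {x | ∃ n, x.1 n = 0}
  let a : (ℕ → ℝˣ) → A → A := fun g x =>
    ⟨⟨fun n => (g n : ℝ) * x.1.1 n, fun h => by
        obtain ⟨n, hn⟩ := x.2
        have := congrFun h n
        simp [hn] at this⟩, by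
      obtain ⟨n, hn⟩ := x.2
      exact ⟨n, by simp [hn]⟩⟩
  obtain ⟨B, hB, hAB, b, hb, -, -, hba⟩ := H (ℕ → ℝˣ) X A a (by
    refine Continuous.subtype_mk (Continuous.subtype_mk (continuous_pi fun n => ?_) _) _
    refine Continuous.mul (Units.continuous_val.comp ((continuous_apply n).comp continuous_fst)) ?_
    exact (continuous_apply n).comp
      (continuous_subtype_val.comp (continuous_subtype_val.comp continuous_snd)))
    (fun x => Subtype.ext (Subtype.ext (funext fun n => by simp [a])))
    (fun g h x => Subtype.ext (Subtype.ext (funext fun n => by simp [a, mul_assoc])))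
  let u : X → ℕ → X := fun x k => ⟨Function.update x.1 k 0, fun h => by
    have := congrFun h k
    simp at this⟩
  have huA : ∀ x k, u x k ∈ A := fun x k => ⟨k, by simp [u]⟩
  have hu : ∀ x, Filter.Tendsto (u x) Filter.atTop (nhds x) := by
    intro x
    rw [tendsto_subtype_rng, tendsto_pi_nhds]
    intro n
    refine tendsto_const_nhds.congr' ?_
    filter_upwards [Filter.eventually_gt_atTop n] with k hk
    simp [u, Function.update_of_ne hk.ne]
  have hBA : B ⊆ A := by
    intro x hx
    by_contra hxA
    have hx0 : ∀ n, x.1 n ≠ 0 := fun n hn => hxA ⟨n, hn⟩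
    let g : ℕ → ℝˣ := fun n => (Units.mk0 _ (hx0 n))⁻¹
    have h1 : Filter.Tendsto (fun k => (⟨u x k, hAB (huA x k)⟩ : B)) Filter.atTop
        (nhds ⟨x, hx⟩) := by
      rw [tendsto_subtype_rng]; exact hu x
    have h2 := ((hb.comp (Continuous.prodMk_right g)).tendsto _).comp h1
    refine (b g ⟨x, hx⟩).1.2 (funext fun n => ?_)
    have h3 : Continuous fun z : B => z.1.1 n :=
      (continuous_apply n).comp (continuous_subtype_val.comp continuous_subtype_val)
    have h4 := (h3.tendsto _).comp h2
    refine tendsto_nhds_unique h4 (tendsto_const_nhds.congr' ?_)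
    filter_upwards [Filter.eventually_gt_atTop n] with k hk
    have h5 := hba g ⟨u x k, hAB (huA x k)⟩ (huA x k)
    simp only [Function.comp_apply]
    rw [h5]
    simp [a, u, g, Function.update_of_ne hk.ne, hx0 n]
  have hd1 : Dense B := by
    intro x
    exact mem_closure_of_tendsto (hu x) (Filter.Eventually.of_forall fun k => hAB (huA x k))
  have hd2 : Dense {x : X | ∀ n, x.1 n ≠ 0} := by
    have := (dense_pi (α := fun _ : ℕ => ℝ) (s := fun _ => ({0}ᶜ : Set ℝ)) Set.univ
      (fun _ _ => dense_compl_singleton 0)).preimage hop.isOpenMap_subtype_val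
    refine this.mono fun x hx n => ?_
    exact hx n trivial
  have hg : IsGδ {x : X | ∀ n, x.1 n ≠ 0} := by
    rw [Set.ofPred_forall]
    exact IsGδ.iInter fun n => (isOpen_ne_fun
      ((continuous_apply n).comp continuous_subtype_val) continuous_const).isGδ
  haveI : Nonempty X := ⟨⟨0, fun h => by simpa using congrFun h 0⟩⟩
  obtain ⟨x, hx1, hx2⟩ := (hd1.inter_of_Gδ hB hg hd2).nonempty
  obtain ⟨n, hn⟩ := hBA hx1
  exact hx2 n hn

end Pool.Agent.S15054
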