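import Pool.Statements.S15337
import Pool.Agent.H24.Idx4

set_option autoImplicit false
open Pool Pool.MP_c77619_lc

namespace Pool.Agent.S15337

/-- It is computably decidable, given an indexed grammar in normal form and two letter-to-word homomorphisms h and g, whether h(w) = g(w) for every word w generated by the grammar. -/
theorem result :
    ComputablePred
      (fun p : ℕ × List (ℕ × ℕ × ℕ × ℕ) × List (List ℕ) × List (List ℕ) =>
        ∀ w : List ℕ,
          Relation.ReflTransGen
            (fun (u v : List ((ℕ × List ℕ) ⊕ ℕ)) =>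
              ∃ (pre suf : List ((ℕ × List ℕ) ⊕ ℕ)) (A : ℕ) (σ : List ℕ),
                u = pre ++ Sum.inl (A, σ) :: suf ∧
                ∃ r ∈ p.2.1, r.2.1 = A ∧
                  ((r.1 = 0 ∧
                      v = pre ++ Sum.inl (r.2.2.1, σ) :: Sum.inl (r.2.2.2, σ) :: suf) ∨
                   (r.1 = 1 ∧ v = pre ++ Sum.inl (r.2.2.1, r.2.2.2 :: σ) :: suf) ∨
                   (r.1 = 2 ∧ ∃ τ : List ℕ, σ = r.2.2.2 :: τ ∧
                      v = pre ++ Sum.inl (r.2.2.1, τ) :: suf) ∨
                   (r.1 = 3 ∧ v = pre ++ Sum.inr r.2.2.1 :: suf) ∨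
                   (r.1 = 4 ∧ v = pre ++ suf)))
            ([Sum.inl (p.1, [])] : List ((ℕ × List ℕ) ⊕ ℕ))
            (List.map Sum.inr w : List ((ℕ × List ℕ) ⊕ ℕ)) →
          w.flatMap (fun a => p.2.2.1.getD a []) =
            w.flatMap (fun a => p.2.2.2.getD a [])) := by
  simp only [Pool.Agent.H24.Idx.step_tr]
  exact Pool.Agent.H24.Idx.dec

end Pool.Agent.S15337
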