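import Pool.Statements.S15353
-- import your own Pool.Agent.* helpers here

set_option autoImplicit false
open Pool Pool.MP_cc69c8_lc

namespace Pool.Agent.S15353

/-- There is an almost disjoint family of infinite subsets of ℕ, of cardinality equal to the dominating number, whose Mrówka–Isbell space Ψ(A) is not selectively (a). -/
theorem result :
  ∃ A : Set (Set ℕ),
    (∀ a ∈ A, a.Infinite) ∧ (∀ a ∈ A, ∀ b ∈ A, a ≠ b → (a ∩ b).Finite) ∧
    (∃ D : Set (ℕ → ℕ), (∀ f : ℕ → ℕ, ∃ g ∈ D, ∀ᶠ n in Filter.atTop, f n ≤ g n) ∧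
        Cardinal.mk D = Cardinal.mk A) ∧
    (∀ D : Set (ℕ → ℕ), (∀ f : ℕ → ℕ, ∃ g ∈ D, ∀ᶠ n in Filter.atTop, f n ≤ g n) →
        Cardinal.mk A ≤ Cardinal.mk D) ∧
    ∀ t : TopologicalSpace (ℕ ⊕ A),
      t = TopologicalSpace.generateFrom
        ({s : Set (ℕ ⊕ A) | ∃ n : ℕ, s = {Sum.inl n}} ∪
         {s : Set (ℕ ⊕ A) | ∃ a : A, ∃ F : Set ℕ, F.Finite ∧
            s = insert (Sum.inr a) (Sum.inl '' ((a : Set ℕ) \ F))}) →
      ¬ (∀ U : ℕ → Set (Set (ℕ ⊕ A)),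
          (∀ n, (∀ u ∈ U n, @IsOpen _ t u) ∧ ⋃₀ U n = Set.univ) →
          ∀ Dn : Set (ℕ ⊕ A), @Dense _ t Dn →
          ∃ F : ℕ → Set (ℕ ⊕ A),
            (∀ n, F n ⊆ Dn ∧ ∀ x, ∃ V : Set (ℕ ⊕ A), @IsOpen _ t V ∧ x ∈ V ∧ V ∩ F n ⊆ {x}) ∧
            ∀ x, ∃ n, ∃ u ∈ U n, x ∈ u ∧ (u ∩ F n).Nonempty) := by
  classical
  let Dom : Set (ℕ → ℕ) → Prop := fun D => ∀ f : ℕ → ℕ, ∃ g ∈ D, ∀ᶠ n in Filter.atTop, f n ≤ g n
  obtain ⟨_, ⟨D, hD, rfl⟩, hmin⟩ := Cardinal.lt_wf.has_min ((fun D : Set (ℕ → ℕ) => Cardinal.mk D) ''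
    {D | Dom D}) ⟨_, Set.univ, fun f => ⟨f, trivial, .of_forall fun _ => le_rfl⟩, rfl⟩
  have inf : Infinite D := Set.infinite_coe_iff.2 fun h => by
    obtain ⟨g, g1, g2⟩ := hD fun n => ∑ g ∈ h.toFinset, g n + 1
    obtain ⟨n, hn⟩ := g2.exists
    have := Finset.single_le_sum (f := fun g : ℕ → ℕ => g n) (fun _ _ => Nat.zero_le _)
      (h.mem_toFinset.2 g1)
    omega
  let a : D × ℕ → ℕ → ℕ := fun i c =>
    Nat.pair (i.1.1 c) (Nat.pair i.2 (Encodable.encode ((List.range c).map i.1.1)))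
  let S : ℕ ⊕ D × ℕ → Set ℕ := Sum.elim (fun c => Set.range (Nat.pair c))
    fun i => Set.range fun c => Nat.pair c (a i c)
  have s1 : ∀ j, (S j).Infinite := by
    rintro (c | i)
    · exact Set.infinite_range_of_injective fun _ _ h => (Nat.pair_eq_pair.1 h).2
    · exact Set.infinite_range_of_injective fun _ _ h => (Nat.pair_eq_pair.1 h).1
  have s0 : ∀ c i, (S (.inl c) ∩ S (.inr i)).Finite := fun c i =>
    (Set.finite_singleton (Nat.pair c (a i c))).subset <| by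
      rintro _ ⟨⟨m, rfl⟩, d, hd⟩
      obtain ⟨rfl, rfl⟩ := Nat.pair_eq_pair.1 hd
      rfl
  have s2 : Pairwise fun j l => (S j ∩ S l).Finite := by
    rintro (c | i) (d | l) h
    · refine Set.finite_empty.subset ?_
      rintro _ ⟨⟨m, rfl⟩, b, hb⟩
      exact h (congrArg _ (Nat.pair_eq_pair.1 hb).1.symm)
    · exact s0 c l
    · exact Set.inter_comm _ _ ▸ s0 d i
    by_contra e
    have key : ∀ m, ∃ c, m < c ∧ a i c = a l c := fun m => by
      by_contra c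
      refine e (((Set.finite_Iic m).image fun c => Nat.pair c (a i c)).subset ?_)
      rintro _ ⟨⟨b, rfl⟩, d, hd⟩
      obtain ⟨rfl, hd⟩ := Nat.pair_eq_pair.1 hd
      exact ⟨d, not_lt.1 fun f => c ⟨d, f, hd.symm⟩, rfl⟩
    refine h (congrArg _ (Prod.ext (Subtype.ext (funext fun m => ?_)) ?_))
    · obtain ⟨c, c1, c2⟩ := key m
      exact List.map_inj_left.1 (Encodable.encode_injective
        (Nat.pair_eq_pair.1 (Nat.pair_eq_pair.1 c2).2).2) m (List.mem_range.2 c1)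
    · obtain ⟨c, -, c2⟩ := key 0
      exact (Nat.pair_eq_pair.1 (Nat.pair_eq_pair.1 c2).2).1
  have s3 : Function.Injective S := fun j l h => by_contra fun c => s1 l (by simpa [h] using s2 c)
  have card : Cardinal.mk (Set.range S) = Cardinal.mk D := by
    rw [Cardinal.mk_range_eq _ s3]
    simpa using Cardinal.add_eq_right (Cardinal.aleph0_le_mk D) (Cardinal.aleph0_le_mk D)
  refine ⟨Set.range S, Set.forall_mem_range.2 s1, ?_, ⟨D, hD, card.symm⟩,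
    fun E hE => card.trans_le (not_lt.1 (hmin _ ⟨E, hE, rfl⟩)), fun t ht H => ?_⟩
  · rintro _ ⟨j, rfl⟩ _ ⟨l, rfl⟩ h
    exact s2 fun c => h (congrArg S c)
  have op : ∀ V, @IsOpen _ t V → ∀ b : Set.range S, Sum.inr b ∈ V →
      {m | m ∈ b.1 ∧ Sum.inl m ∉ V}.Finite := fun V hV b => by
    subst ht
    induction hV with
    | basic s hs =>
      rcases hs with ⟨n, rfl⟩ | ⟨d, F, hF, rfl⟩
      · simp
      · intro h
        obtain rfl : b = d := by simpa using h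
        exact hF.subset fun m hm => by_contra fun c => hm.2 (.inr ⟨m, ⟨hm.1, c⟩, rfl⟩)
    | univ => simp
    | inter s u _ _ h h' => exact fun c => ((h c.1).union (h' c.2)).subset fun _ hn =>
        (not_and_or.1 hn.2).imp (⟨hn.1, ·⟩) (⟨hn.1, ·⟩)
    | sUnion T _ h => exact fun ⟨U, hU, c⟩ => (h U hU c).subset fun _ hn =>
        ⟨hn.1, fun e => hn.2 ⟨U, hU, e⟩⟩
  let F : ℕ → ℕ ⊕ D × ℕ → Set ℕ := fun n => Sum.elim (fun _ => ∅)
    fun i => (fun c => Nat.pair c (a i c)) '' Set.Iio (max i.2 n)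
  have hF : ∀ n j, (F n j).Finite := by
    rintro n (c | i)
    · exact Set.finite_empty
    · exact (Set.finite_Iio _).image _
  obtain ⟨P, p1, p2⟩ := H (fun n => (Set.range fun k => {Sum.inl k}) ∪ Set.range fun j =>
    insert (Sum.inr ⟨S j, j, rfl⟩) (Sum.inl '' (S j \ F n j))) (fun n => ⟨by
      rintro _ (⟨k, rfl⟩ | ⟨j, rfl⟩) <;> rw [ht] <;> refine TopologicalSpace.GenerateOpen.basic _ ?_
      · exact .inl ⟨k, rfl⟩
      · exact .inr ⟨_, _, hF n j, rfl⟩, Set.eq_univ_of_forall <| by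
      rintro (k | ⟨_, j, rfl⟩)
      · exact ⟨_, .inl ⟨k, rfl⟩, rfl⟩
      · exact ⟨_, .inr ⟨j, rfl⟩, .inl rfl⟩⟩) (Set.range Sum.inl) (dense_iff_inter_open.2 <| by
      rintro V hV ⟨k | b, hb⟩
      · exact ⟨_, hb, k, rfl⟩
      · obtain ⟨j, hj⟩ := b.2
        obtain ⟨m, m1, m2⟩ := (hj ▸ s1 j).exists_notMem_finite (op V hV b hb)
        exact ⟨_, by_contra fun c => m2 ⟨m1, c⟩, m, rfl⟩)
  have p3 : ∀ n c, ∃ p, ∀ m, Sum.inl (Nat.pair c m) ∈ P n → m < p := fun n c => by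
    obtain ⟨V, v1, v2, v3⟩ := (p1 n).2 (.inr ⟨S (.inl c), _, rfl⟩)
    obtain ⟨p, hp⟩ := (op V v1 _ v2).bddAbove
    exact ⟨p + 1, fun m hm => Nat.lt_succ_of_le ((Nat.right_le_pair c m).trans
      (hp ⟨⟨m, rfl⟩, fun e => by simpa using v3 ⟨e, hm⟩⟩))⟩
  choose p hp using p3
  obtain ⟨g, g1, g2⟩ := hD fun c => ∑ n ∈ Finset.range (c + 1), p n c
  obtain ⟨K, hK⟩ := Filter.eventually_atTop.1 g2
  obtain ⟨n, _, ⟨k, rfl⟩ | ⟨j, rfl⟩, u1, y, u2, u3⟩ := p2 (.inr ⟨S (.inr (⟨g, g1⟩, K)), _, rfl⟩)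
  · simp at u1
  obtain rfl : Sum.inr (⟨g, g1⟩, K) = j := s3 (by simpa using u1)
  obtain ⟨m, rfl⟩ := (p1 n).1 u3
  obtain ⟨⟨c, rfl⟩, e⟩ : m ∈ S (.inr (⟨g, g1⟩, K)) \ F n (.inr (⟨g, g1⟩, K)) := by simpa using u2
  refine e ⟨c, Set.mem_Iio.2 (not_le.1 fun f => ?_), rfl⟩
  have h1 := hp n c _ u3
  have h2 := hK c (le_of_max_le_left f)
  have h3 := Finset.single_le_sum (f := fun n => p n c) (fun _ _ => Nat.zero_le _)
    (Finset.mem_range.2 (Nat.lt_succ_of_le (le_of_max_le_right f)))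
  exact absurd ((h3.trans h2).trans (Nat.left_le_pair _ _)) (not_le.2 h1)

end Pool.Agent.S15353
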