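import Pool.Statements.S15482
import Pool.Agent.H16.OL2

set_option autoImplicit false
open Pool Pool.MP_dd548e_lc

namespace Pool.Agent.S15482

/-- The negation of the preceding statement: There is a computable procedure that, given two OL systems (finite rule lists over letters in ℕ, each used letter having a rule, plus axioms), correctly decides whether their sets of infinite derivation sequences are equal. -/
theorem result :
    ¬ (∃ f : (List (ℕ × List ℕ) × List ℕ) × (List (ℕ × List ℕ) × List ℕ) → Bool,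
      Computable f ∧
      ∀ (R₁ : List (ℕ × List ℕ)) (ω₁ : List ℕ) (R₂ : List (ℕ × List ℕ)) (ω₂ : List ℕ),
        (∀ a : ℕ, (a ∈ ω₁ ∨ ∃ p ∈ R₁, a ∈ p.2) → ∃ w : List ℕ, (a, w) ∈ R₁) →
        (∀ a : ℕ, (a ∈ ω₂ ∨ ∃ p ∈ R₂, a ∈ p.2) → ∃ w : List ℕ, (a, w) ∈ R₂) →
        (f ((R₁, ω₁), (R₂, ω₂)) = true ↔
          {s : ℕ → List ℕ | s 0 = ω₁ ∧ ∀ n : ℕ, ∃ ws : List (List ℕ),
              List.Forall₂ (fun a w => (a, w) ∈ R₁) (s n) ws ∧ s (n + 1) = ws.flatten} =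
          {s : ℕ → List ℕ | s 0 = ω₂ ∧ ∀ n : ℕ, ∃ ws : List (List ℕ),
              List.Forall₂ (fun a w => (a, w) ∈ R₂) (s n) ws ∧ s (n + 1) = ws.flatten})) := by
  rintro ⟨f, hf, k⟩
  obtain ⟨H, G, hH, j, hn⟩ := Pool.Agent.H16.PCPU.main2
  have c := fun I => (Pool.Agent.H16.OL.R_pr G I).to_comp.comp hH
  have h1 : ComputablePred fun n => f ((Pool.Agent.H16.OL.R (H n) G [0, 1, 2, 3, 4, 7, 11],
      Pool.Agent.H16.OL.ax (H n) G), (Pool.Agent.H16.OL.R (H n) G [6, 0, 1, 2, 3, 4, 7, 11],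
      Pool.Agent.H16.OL.ax (H n) G)) = true :=
    ⟨inferInstance, (hf.comp ((c [0, 1, 2, 3, 4, 7, 11]).pair (c [6, 0, 1, 2, 3, 4, 7, 11]))).of_eq fun n => by simp⟩
  refine hn (h1.not.of_eq fun n => ?_)
  obtain ⟨a1, a2, a3, a4⟩ := j n
  rw [(k _ _ _ _ (fun a => Pool.Agent.H16.OL.rules a1 a2 a4 _ a (by simp))
    (fun a => Pool.Agent.H16.OL.rules a1 a2 a4 _ a (by simp))).trans (Pool.Agent.H16.OL.main a1 a2 a3 a4), not_not]

end Pool.Agent.S15482
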