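import Pool.Statements.S15508
import Pool.Agent.H24.ActVar

set_option autoImplicit false
open FirstOrder FirstOrder.Language
open Pool Pool.MP_e23b49_lc

namespace Pool.Agent.S15508

/-- The negation of the preceding statement: For every variety of algebras given by identities: if each finitely generated free algebra is determined up to isomorphism by its LG-equivalence class in the variety, then in each such free algebra, tuples with the same first-order type are conjugate by an automorphism. -/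
theorem result :
    ¬ (∀ (L : FirstOrder.Language.{0, 0}), (∀ n, IsEmpty (L.Relations n)) →
  ∀ (E : Set (Σ n : ℕ, L.Term (Fin n) × L.Term (Fin n))),
  (∀ (n : ℕ) (F : Type) [L.Structure F] (ι : Fin n → F),
      (∀ e ∈ E, ∀ v : Fin e.1 → F, e.2.1.realize v = e.2.2.realize v) →
      (∀ (M : Type) [L.Structure M],
          (∀ e ∈ E, ∀ v : Fin e.1 → M, e.2.1.realize v = e.2.2.realize v) →
          ∀ f : Fin n → M, ∃! h : L.Hom F M, ⇑h ∘ ι = f) →
      ∀ (H : Type) [L.Structure H],
        (∀ e ∈ E, ∀ v : Fin e.1 → H, e.2.1.realize v = e.2.2.realize v) →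
        (∀ (m : ℕ) (T : Set (L.Formula (Fin m))),
            {φ : L.Formula (Fin m) | ∀ a : Fin m → F,
                (∀ ψ ∈ T, ψ.Realize a) → φ.Realize a} =
            {φ : L.Formula (Fin m) | ∀ a : Fin m → H,
                (∀ ψ ∈ T, ψ.Realize a) → φ.Realize a}) →
        Nonempty (L.Equiv F H)) →
  (∀ (n : ℕ) (F : Type) [L.Structure F] (ι : Fin n → F),
      (∀ e ∈ E, ∀ v : Fin e.1 → F, e.2.1.realize v = e.2.2.realize v) →
      (∀ (M : Type) [L.Structure M],
          (∀ e ∈ E, ∀ v : Fin e.1 → M, e.2.1.realize v = e.2.2.realize v) →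
          ∀ f : Fin n → M, ∃! h : L.Hom F M, ⇑h ∘ ι = f) →
      ∀ (m : ℕ) (a b : Fin m → F),
        ((∀ φ : L.Formula (Fin m), φ.Realize a ↔ φ.Realize b) ↔
          ∃ σ : L.Equiv F F, ⇑σ ∘ b = a))) := by
  intro h
  have h1 := h Pool.Agent.H24.ActVar.LM Pool.Agent.H24.ActVar.LM_rel Pool.Agent.H24.ActVar.E
    (fun n F _ ι hF hu H _ hH hT => by
      obtain ⟨e⟩ := Pool.Agent.H24.ActVar.free_equiv n F ι hF hu
      have key : ∀ (m : ℕ) (b : Fin m → H), ∃ a : Fin m → F,
          ∀ φ : Pool.Agent.H24.ActVar.LM.Formula (Fin m), φ.Realize a ↔ φ.Realize b := by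
        intro m b
        by_contra hn
        have h2 := Set.ext_iff.1 (hT m {φ | φ.Realize b}) ⊥
        refine (h2.1 ?_ b (fun ψ hψ => hψ) : False)
        intro a ha
        refine (hn ⟨a, fun φ => ⟨fun h3 => ?_, fun h3 => ha φ h3⟩⟩).elim
        by_contra h4
        exact (Formula.realize_not.1 (ha φ.not (Formula.realize_not.2 h4))) h3
      have key2 : ∀ (m : ℕ) (a : Fin m → F), ∃ b : Fin m → H,
          ∀ φ : Pool.Agent.H24.ActVar.LM.Formula (Fin m), φ.Realize b ↔ φ.Realize a := by
        intro m b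
        by_contra hn
        have h2 := Set.ext_iff.1 (hT m {φ | φ.Realize b}) ⊥
        refine (h2.2 ?_ b (fun ψ hψ => hψ) : False)
        intro a ha
        refine (hn ⟨a, fun φ => ⟨fun h3 => ?_, fun h3 => ha φ h3⟩⟩).elim
        by_contra h4
        exact (Formula.realize_not.1 (ha φ.not (Formula.realize_not.2 h4))) h3
      obtain ⟨b, hb⟩ := key2 n (e.symm ∘ Pool.Agent.H24.ActVar.gen n)
      obtain ⟨g⟩ := Pool.Agent.H24.FO.sep Pool.Agent.H24.ActVar.LM_rel
        (Pool.Agent.H24.ActVar.gen n) (Pool.Agent.H24.ActVar.W_rigid n) b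
        (fun φ => (hb φ).trans (StrongHomClass.realize_formula e.symm φ))
        (fun c => by
          obtain ⟨a, ha⟩ := key _ c
          exact ⟨e ∘ a, fun φ => (StrongHomClass.realize_formula e φ).trans (ha φ)⟩)
      exact ⟨g.comp e⟩)
    1 (Pool.Agent.H24.ActVar.W 1) (Pool.Agent.H24.ActVar.gen 1) (Pool.Agent.H24.ActVar.W_sat 1)
    (Pool.Agent.H24.ActVar.W_free 1) 1 Pool.Agent.H24.ActVar.aa Pool.Agent.H24.ActVar.bb
  obtain ⟨σ, hσ⟩ := h1.1 Pool.Agent.H24.ActVar.same_type
  exact Pool.Agent.H24.ActVar.not_conj σ hσ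

end Pool.Agent.S15508
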