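import Pool.Statements.S15538
import Pool.Agent.H24.Forb

set_option autoImplicit false
open FirstOrder FirstOrder.Language
open Pool Pool.MP_e6168a_lc

namespace Pool.Agent.S15538

/-- The negation of the preceding statement: For every finite relational signature, finite forbidden family and first-order sentence φ: among labeled structures on n points admitting no homomorphism from any forbidden structure, the fraction satisfying φ converges as n grows. -/
theorem result :
    ¬ (∀ (L : FirstOrder.Language.{0, 0}), (∀ l, IsEmpty (L.Functions l)) →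
      Finite (Σ l, L.Relations l) →
      ∀ (k : ℕ) (m : Fin k → ℕ) (S : (i : Fin k) → L.Structure (Fin (m i))) (φ : L.Sentence),
        ∃ c : ℝ, Filter.Tendsto
          (fun n : ℕ =>
            (Nat.card {M : L.Structure (Fin n) //
                (∀ i, IsEmpty (@FirstOrder.Language.Hom L (Fin (m i)) (Fin n) (S i) M)) ∧
                  Fin n ⊨ φ} : ℝ) /
            (Nat.card {M : L.Structure (Fin n) //
                ∀ i, IsEmpty (@FirstOrder.Language.Hom L (Fin (m i)) (Fin n) (S i) M)} : ℝ))
          Filter.atTop (nhds c)) := by
  intro H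
  open Pool.Agent.H24.Forb in
  obtain ⟨c, hc⟩ := H LL (fun _ => inferInstanceAs (IsEmpty Empty)) LL_fin
    (Fintype.card (Fin 8 × C)) (fun _ => 6)
    (fun i => st (F ((Fintype.equivFin (Fin 8 × C)).symm i))) ph
  open Pool.Agent.H24.Forb in
  refine noconv c (hc.congr fun n => ?_)
  open Pool.Agent.H24.Forb in
  have key : ∀ R : D (Fin n), Good R ↔ ∀ i : Fin (Fintype.card (Fin 8 × C)),
      IsEmpty (@FirstOrder.Language.Hom LL (Fin 6) (Fin n)
        (st (F ((Fintype.equivFin (Fin 8 × C)).symm i))) (st R)) := fun R => by
    rw [← good_iff]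
    exact (Fintype.equivFin (Fin 8 × C)).symm.surjective.forall
  open Pool.Agent.H24.Forb in
  congr 2
  · exact (Nat.card_congr ((H24.Forb.eqv (Fin n)).subtypeEquiv fun R =>
      and_congr (key R) (H24.Forb.ph_iff R).symm)).symm
  · exact (Nat.card_congr ((H24.Forb.eqv (Fin n)).subtypeEquiv key)).symm

end Pool.Agent.S15538
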