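import Pool.Statements.S15610
import Pool.Agent.H23.UC3

set_option autoImplicit false
open Pool Pool.MP_f24711_lc

namespace Pool.Agent.S15610

theorem result :
    ¬ (∀ (L : FirstOrder.Language.{0, 0}), L.card ≤ Cardinal.aleph0 →
    ∀ (K : ∀ (M : Type) [L.Structure M], Prop),
      (∀ (M N : Type) [L.Structure M] [L.Structure N],
          Nonempty (L.Equiv M N) → K M → K N) →
      (∀ (M : Type) [L.Structure M] (S : L.Substructure M), K M → K ↥S) →
      (∀ (M : Type) [L.Structure M] (C : Set (L.Substructure M)),
          C.Nonempty → IsChain (· ≤ ·) C → (∀ S ∈ C, K ↥S) → K ↥(sSup C)) →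
      (∀ (M N : Type) [L.Structure M] [L.Structure N], K M → K N →
          Cardinal.mk M = Cardinal.aleph0 → Cardinal.mk N = Cardinal.aleph0 →
          Nonempty (L.Equiv M N)) →
      (∃ (M : Type) (i : L.Structure M), @K M i ∧ Cardinal.mk M = Cardinal.aleph 1) →
      ∀ (M N : Type) [L.Structure M] [L.Structure N], K M → K N →
        Cardinal.mk M = Cardinal.aleph 1 → Cardinal.mk N = Cardinal.aleph 1 →
        Nonempty (L.Equiv M N)) := by
  exact Pool.Agent.H23.UC.main

end Pool.Agent.S15610
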