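import Pool.Statements.S15649
import Pool.Agent.H16.LRC2

set_option autoImplicit false
open Pool Pool.MP_fc8a61_lc

namespace Pool.Agent.S15649

/-- Every one-sided random context grammar (finite rule sets, erasing allowed) has an equivalent one-sided random context grammar, generating the same terminal words, in which every right rule has empty permitting and forbidding sets. -/
theorem result :
    ∀ (T N : Type), Finite T → Finite N → ∀ (S : N)
      (PL PR : Finset (N × List (Symbol T N) × Finset N × Finset N)),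
    ∃ (N' : Type), Finite N' ∧ ∃ (S' : N')
      (PL' PR' : Finset (N' × List (Symbol T N') × Finset N' × Finset N')),
      (∀ (A : N') (x : List (Symbol T N')) (U W : Finset N'),
          (A, x, U, W) ∈ PR' → U = ∅ ∧ W = ∅) ∧
      ∀ w : List T,
        (Relation.ReflTransGen
          (fun (α β : List (Symbol T N)) =>
            ∃ (u v : List (Symbol T N)) (A : N) (x : List (Symbol T N)) (U W : Finset N),
              α = u ++ [Symbol.nonterminal A] ++ v ∧ β = u ++ x ++ v ∧
              (((A, x, U, W) ∈ PL ∧ (∀ B ∈ U, Symbol.nonterminal B ∈ u) ∧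
                  (∀ B ∈ W, Symbol.nonterminal B ∉ u)) ∨
               ((A, x, U, W) ∈ PR ∧ (∀ B ∈ U, Symbol.nonterminal B ∈ v) ∧
                  (∀ B ∈ W, Symbol.nonterminal B ∉ v))))
          [Symbol.nonterminal S] (w.map Symbol.terminal)
        ↔
        Relation.ReflTransGen
          (fun (α β : List (Symbol T N')) =>
            ∃ (u v : List (Symbol T N')) (A : N') (x : List (Symbol T N')) (U W : Finset N'),
              α = u ++ [Symbol.nonterminal A] ++ v ∧ β = u ++ x ++ v ∧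
              (((A, x, U, W) ∈ PL' ∧ (∀ B ∈ U, Symbol.nonterminal B ∈ u) ∧
                  (∀ B ∈ W, Symbol.nonterminal B ∉ u)) ∨
               ((A, x, U, W) ∈ PR' ∧ (∀ B ∈ U, Symbol.nonterminal B ∈ v) ∧
                  (∀ B ∈ W, Symbol.nonterminal B ∉ v))))
          [Symbol.nonterminal S'] (w.map Symbol.terminal)) := by
  intro T N hT hN S PL PR
  obtain ⟨N', h1, S', P', h⟩ := Pool.Agent.H16.LRC.gen_left (T := T) (N := N)
    (P := ((fun r : N × List (Symbol T N) × Finset N × Finset N => ([Symbol.nonterminal r.1], r.2.1, (r.2.2.1, r.2.2.2), (∅, ∅))) '' (↑PL)) ∪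
      ((fun r : N × List (Symbol T N) × Finset N × Finset N => ([Symbol.nonterminal r.1], r.2.1, (∅, ∅), (r.2.2.1, r.2.2.2))) '' (↑PR)))
    ((PL.finite_toSet.image _).union (PR.finite_toSet.image _))
    (by rintro _ (⟨r, _, rfl⟩ | ⟨r, _, rfl⟩) <;> simp) [Symbol.nonterminal S]
  refine ⟨N', h1, S', P', ∅, by simp, fun w => ?_⟩
  convert h w using 2
  · funext α β
    apply propext
    constructor
    · rintro ⟨u, v, A, x, U, W, e1, e2, ⟨h2, h3⟩ | ⟨h2, h3⟩⟩
      · exact ⟨u, v, _, Or.inl ⟨_, h2, rfl⟩, e1, e2, h3, by simp, by simp⟩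
      · exact ⟨u, v, _, Or.inr ⟨_, h2, rfl⟩, e1, e2, ⟨by simp, by simp⟩, h3⟩
    · rintro ⟨u, v, _, ⟨r, h2, rfl⟩ | ⟨r, h2, rfl⟩, e1, e2, h3, h4⟩
      · exact ⟨u, v, r.1, r.2.1, r.2.2.1, r.2.2.2, e1, e2, Or.inl ⟨h2, h3⟩⟩
      · exact ⟨u, v, r.1, r.2.1, r.2.2.1, r.2.2.2, e1, e2, Or.inr ⟨h2, h4⟩⟩
  · funext α β
    apply propext
    constructor
    · rintro ⟨u, v, A, x, U, W, e1, e2, ⟨h2, h3⟩ | ⟨h2, h3⟩⟩
      · exact ⟨u, v, A, x, U, W, e1, e2, h2, h3⟩
      · simp at h2
    · rintro ⟨u, v, A, x, U, W, e1, e2, h2, h3⟩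
      exact ⟨u, v, A, x, U, W, e1, e2, Or.inl ⟨h2, h3⟩⟩

end Pool.Agent.S15649
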