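import Pool.Statements.S15734
import Pool.Agent.H33.Borg5

set_option autoImplicit false
open Pool Pool.MP_64ae42_mp

namespace Pool.Agent.S15734

open Pool.Agent.H33.Borg in
lemma ok_iff (l : List D) : l ∈ S ↔ ((∀ d ∈ l.head?, d.1 = false) ∧
    ∀ (i : ℕ) (d e : D), l[i]? = some d → l[i+1]? = some e →
      (e.1 = (rev d).1 ∧ e ≠ rev d)) := by
  show ok l ↔ _
  rw [ok, List.isChain_iff_getElem]
  refine and_congr_right fun _ => ⟨fun h i d e h1 h2 => ?_, fun h i hi => ?_⟩
  · obtain ⟨a1, rfl⟩ := List.getElem?_eq_some_iff.1 h1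
    obtain ⟨a2, rfl⟩ := List.getElem?_eq_some_iff.1 h2
    exact h i a2
  · exact h i _ _ (List.getElem?_eq_getElem (by omega)) (List.getElem?_eq_getElem hi)

open Pool.Agent.H33.Borg in
lemma coef (x y : S) [∀ d : D, Decidable (y.1 = x.1 ++ [d] ∨ x.1 = y.1 ++ [d])]
    [DecidableEq S] :
    (∑ d : D, if (y.1 = x.1 ++ [d] ∨ x.1 = y.1 ++ [d]) then (1 : ℂ) else 0) =
      ∑ i, if y = mv i x then 1 else 0 := by
  by_cases h : ∃ d, y.1 = x.1 ++ [d] ∨ x.1 = y.1 ++ [d]
  · obtain ⟨d, hd⟩ := h
    have h1 : ∃ i, y = mv i x := by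
      rcases hd with hd | hd
      · exact ⟨d.2, Subtype.ext (hd.trans (mvl_parent (hd ▸ y.2)).symm)⟩
      · refine ⟨r d.2, Subtype.ext ?_⟩
        show y.1 = mvl _ x.1
        rw [hd, mvl_concat, if_pos rfl]
    obtain ⟨i, hi⟩ := h1
    rw [Finset.sum_eq_single d, Finset.sum_eq_single i, if_pos hd, if_pos hi]
    · intro j _ hj
      exact if_neg fun h2 => hj (mv_inj x (h2.symm.trans hi))
    · simp
    · intro e _ he
      apply if_neg
      rintro (h2 | h2) <;> rcases hd with hd | hd
      · exact he (by simpa using h2.symm.trans hd)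
      · have a1 := congrArg List.length h2
        have a2 := congrArg List.length hd
        simp at a1 a2
        omega
      · have a1 := congrArg List.length h2
        have a2 := congrArg List.length hd
        simp at a1 a2
        omega
      · exact he (by simpa using h2.symm.trans hd)
    · simp
  · rw [Finset.sum_eq_zero, Finset.sum_eq_zero]
    · intro i _
      apply if_neg
      rintro rfl
      rcases mvl_cases i x.1 with ⟨d, hd⟩ | ⟨d, hd⟩
      · exact h ⟨d, Or.inl hd⟩
      · exact h ⟨d, Or.inr hd⟩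
    · intro d _
      exact if_neg fun h1 => h ⟨d, h1⟩

theorem result :
    ¬ (∀ (V D : Type) [Fintype V] [Fintype D] [DecidableEq D] (src : D → V) (rev : D → D),
    (∀ d, rev (rev d) = d) → (∀ d, rev d ≠ d) →
    (SimpleGraph.fromRel (fun u v : V => ∃ d, src d = u ∧ src (rev d) = v)).Connected →
    ∀ (a : D → ℝ) (b : V → ℝ), (∀ d, 0 < a d) → (∀ d, a (rev d) = a d) →
    ∀ (v0 : V) (S : Set (List D)),
      (∀ l : List D, l ∈ S ↔ ((∀ d ∈ l.head?, src d = v0) ∧
         ∀ (i : ℕ) (d e : D), l[i]? = some d → l[i+1]? = some e →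
           (src e = src (rev d) ∧ e ≠ rev d))) →
    ∀ H : lp (fun _ : S => ℂ) 2 →L[ℂ] lp (fun _ : S => ℂ) 2,
      (∀ (f : lp (fun _ : S => ℂ) 2) (x : S),
        H f x = (b ((x.1.getLast?.map (fun d => src (rev d))).getD v0) : ℂ) * f x +
          ∑' y : S, (∑ d : D, if (y.1 = x.1 ++ [d] ∨ x.1 = y.1 ++ [d]) then (a d : ℂ) else 0) * f y) →
      IsPreconnected (spectrum ℂ H) → ∀ u v : V, b u = b v) := by
  intro h
  classical
  have := h Bool Pool.Agent.H33.Borg.D Prod.fst Pool.Agent.H33.Borg.rev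
    Pool.Agent.H33.Borg.rev_rev Pool.Agent.H33.Borg.rev_ne
    (by
      have h1 : (SimpleGraph.fromRel (fun u v : Bool => ∃ d : Pool.Agent.H33.Borg.D,
          d.1 = u ∧ (Pool.Agent.H33.Borg.rev d).1 = v)).Adj false true := by
        rw [SimpleGraph.fromRel_adj]
        exact ⟨by simp, Or.inl ⟨(false, 2), rfl, rfl⟩⟩
      refine ⟨fun u v => ?_⟩
      cases u <;> cases v
      · rfl
      · exact h1.reachable
      · exact h1.reachable.symm
      · rfl)
    (fun _ => 1) Pool.Agent.H33.Borg.bb (fun _ => one_pos) (fun _ => rfl) false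
    Pool.Agent.H33.Borg.S ok_iff Pool.Agent.H33.Borg.H
    (fun f x => by
      rw [Pool.Agent.H33.Borg.H_apply, add_comm]
      congr 1
      simp only [Complex.ofReal_one, coef, Finset.sum_mul]
      rw [Summable.tsum_finsetSum]
      · refine Finset.sum_congr rfl fun i _ => ?_
        rw [tsum_eq_single (Pool.Agent.H33.Borg.mv i x)]
        · simp
        · intro y hy
          simp [hy]
      · intro i _
        apply summable_of_ne_finset_zero (s := {Pool.Agent.H33.Borg.mv i x})
        intro y hy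
        simp at hy
        simp [hy])
    Pool.Agent.H33.Borg.preconn false true
  simp [Pool.Agent.H33.Borg.bb] at this

end Pool.Agent.S15734
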