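import Pool.Statements.S15847

set_option autoImplicit false
open Pool Pool.MP_01cdf7_nt

namespace Pool.Agent.S15847

open Filter Topology Finset

def s (p a : ℕ) : ℕ := ∑ k ∈ range (a + 1), p ^ k

noncomputable def g (p a : ℕ) : ℝ := (s p a : ℝ) / (p : ℝ) ^ a

lemma s_mul (p a : ℕ) : (s p a : ℝ) * ((p : ℝ) - 1) = (p : ℝ) ^ (a + 1) - 1 := by
  unfold s
  push_cast
  exact geom_sum_mul _ _

lemma g_eq (p a : ℕ) (hp : 2 ≤ p) :
    g p a = (p : ℝ) / ((p : ℝ) - 1) * (1 - ((p : ℝ)⁻¹) ^ (a + 1)) := by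
  have h1 : (2 : ℝ) ≤ p := by exact_mod_cast hp
  have h2 : (p : ℝ) - 1 ≠ 0 := by linarith
  have h3 : (p : ℝ) ≠ 0 := by linarith
  have h4 : (s p a : ℝ) = ((p : ℝ) ^ (a + 1) - 1) / ((p : ℝ) - 1) := by
    rw [eq_div_iff h2, s_mul]
  unfold g
  rw [h4, inv_pow]
  field_simp
  ring

lemma g_le (p a : ℕ) (hp : 2 ≤ p) : g p a ≤ (p : ℝ) / ((p : ℝ) - 1) := by
  have h1 : (2 : ℝ) ≤ p := by exact_mod_cast hp
  rw [g_eq p a hp]
  have : (0 : ℝ) ≤ ((p : ℝ)⁻¹) ^ (a + 1) := by positivity
  have h2 : (0 : ℝ) < (p : ℝ) / ((p : ℝ) - 1) := div_pos (by linarith) (by linarith)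
  nlinarith

lemma s_ge (p a : ℕ) : p ^ a ≤ s p a := by
  unfold s
  exact single_le_sum (f := fun k => p ^ k) (fun _ _ => Nat.zero_le _) (by simp)

lemma s_gt (p a : ℕ) (ha : 1 ≤ a) : p ^ a < s p a := by
  unfold s
  rw [sum_range_succ]
  have : 1 ≤ ∑ k ∈ range a, p ^ k := by
    have := single_le_sum (f := fun k => p ^ k) (s := range a) (a := 0)
      (fun _ _ => Nat.zero_le _) (by simp; omega)
    simpa using this
  omega

lemma one_le_g (p a : ℕ) (hp : 2 ≤ p) : 1 ≤ g p a := by
  unfold g
  have : (0 : ℝ) < (p : ℝ) ^ a := by positivity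
  rw [le_div_iff₀ this, one_mul]
  exact_mod_cast s_ge p a

lemma one_lt_g (p a : ℕ) (hp : 2 ≤ p) (ha : 1 ≤ a) : 1 < g p a := by
  unfold g
  have : (0 : ℝ) < (p : ℝ) ^ a := by positivity
  rw [lt_div_iff₀ this, one_mul]
  exact_mod_cast s_gt p a ha

lemma h_eq (n : ℕ) (hn : n ≠ 0) :
    ((∑ i ∈ n.divisors, i : ℕ) : ℝ) / n = ∏ p ∈ n.primeFactors, g p (n.factorization p) := by
  unfold g
  rw [prod_div_distrib, Nat.sum_divisors hn]
  congr 1
  · unfold s; push_cast; rfl
  · conv_lhs => rw [← Nat.prod_factorization_pow_eq_self hn]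
    rw [Finsupp.prod, Nat.support_factorization]
    push_cast; rfl

lemma dich (U : Ultrafilter ℕ) (f : ℕ → ℕ) :
    (∃ a, ∀ᶠ n : ℕ in U, f n = a) ∨ Tendsto f U atTop := by
  by_cases h : Tendsto f U atTop
  · exact Or.inr h
  · left
    rw [tendsto_atTop] at h
    push Not at h
    obtain ⟨M, hM⟩ := h
    have h2 : ∀ᶠ n : ℕ in U, ∃ a ∈ Set.Iio M, f n = a := hM.mono (fun n hn => ⟨f n, hn, rfl⟩)
    obtain ⟨a, _, ha⟩ := (Ultrafilter.eventually_exists_mem_iff (Set.finite_Iio M)).mp h2
    exact ⟨a, ha⟩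

theorem result :
    ∀ k : ℕ, 3 ≤ k →
      Set.Finite {n : ℕ | Odd n ∧ n.primeFactors.card = k ∧
        ∃ d : ℕ, d ∣ n ∧ d < n ∧ (∑ i ∈ n.divisors, i) + d = 2 * n} := by
  intro k _
  classical
  by_contra hinf
  have hinf' : Set.Infinite _ := hinf
  have := hinf'.cofinite_inf_principal_neBot
  obtain ⟨U, hU⟩ := Ultrafilter.exists_le (cofinite ⊓ 𝓟 {n : ℕ | Odd n ∧ n.primeFactors.card = k ∧
        ∃ d : ℕ, d ∣ n ∧ d < n ∧ (∑ i ∈ n.divisors, i) + d = 2 * n})
  have hcof : (U : Filter ℕ) ≤ cofinite := hU.trans inf_le_left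
  have hS : ∀ᶠ n : ℕ in U, Odd n ∧ n.primeFactors.card = k ∧
        ∃ d : ℕ, d ∣ n ∧ d < n ∧ (∑ i ∈ n.divisors, i) + d = 2 * n :=
    (le_principal_iff.mp (hU.trans inf_le_right))
  have hodd : ∀ᶠ n : ℕ in U, Odd n := hS.mono fun n hn => hn.1
  have hne : ∀ᶠ n : ℕ in U, n ≠ 0 := hodd.mono fun n hn => hn.pos.ne'
  -- the fixed primes
  have hFfin : Set.Finite {p : ℕ | ∀ᶠ n : ℕ in U, p ∈ n.primeFactors} := by
    by_contra hF
    obtain ⟨T, hT, hTc⟩ := Set.Infinite.exists_subset_card_eq hF (k + 1)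
    have h1 : ∀ᶠ n : ℕ in U, ∀ p ∈ T, p ∈ n.primeFactors :=
      (eventually_all_finset T).mpr (fun p hp => hT hp)
    obtain ⟨n, hn1, hn2⟩ := (h1.and hS).exists
    have := card_le_card (show T ⊆ n.primeFactors from hn1)
    omega
  set F : Finset ℕ := hFfin.toFinset with hFdef
  have hFmem : ∀ p, p ∈ F ↔ ∀ᶠ n : ℕ in U, p ∈ n.primeFactors := by
    intro p; simp [hFdef]
  have hFsub : ∀ᶠ n : ℕ in U, F ⊆ n.primeFactors :=
    (eventually_all_finset F).mpr (fun p hp => (hFmem p).mp hp)
  have hFprime : ∀ p ∈ F, p.Prime ∧ Odd p := by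
    intro p hp
    obtain ⟨n, hn1, hn2⟩ := (((hFmem p).mp hp).and hodd).exists
    exact ⟨Nat.prime_of_mem_primeFactors hn1, hn2.of_dvd_nat (Nat.dvd_of_mem_primeFactors hn1)⟩
  set B : Finset ℕ := F.filter (fun p => Tendsto (fun n : ℕ => n.factorization p) U atTop) with hB
  set A : Finset ℕ := F.filter (fun p => ¬ Tendsto (fun n : ℕ => n.factorization p) U atTop) with hA
  have hAex : ∀ p, ∃ a, p ∈ A → ∀ᶠ n : ℕ in U, n.factorization p = a := by
    intro p
    rcases dich U (fun n : ℕ => n.factorization p) with ⟨a, ha⟩ | h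
    · exact ⟨a, fun _ => ha⟩
    · exact ⟨0, fun hp => absurd h (mem_filter.mp hp).2⟩
  choose a ha using hAex
  have hAev : ∀ᶠ n : ℕ in U, ∀ p ∈ A, n.factorization p = a p :=
    (eventually_all_finset A).mpr ha
  set HA : ℝ := ∏ p ∈ A, g p (a p) with hHA
  set HB : ℝ := ∏ p ∈ B, (p : ℝ) / ((p : ℝ) - 1) with hHB
  set hB' : ℕ → ℝ := fun n => ∏ p ∈ B, g p (n.factorization p) with hhB
  set hC : ℕ → ℝ := fun n => ∏ p ∈ n.primeFactors \ F, g p (n.factorization p) with hhC
  have hB2 : ∀ p ∈ B, 2 ≤ p := fun p hp => (hFprime p (mem_filter.mp hp).1).1.two_le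
  have hA2 : ∀ p ∈ A, 2 ≤ p := fun p hp => (hFprime p (mem_filter.mp hp).1).1.two_le
  have hdec : ∀ᶠ n : ℕ in U, ((∑ i ∈ n.divisors, i : ℕ) : ℝ) / n = HA * hB' n * hC n := by
    filter_upwards [hne, hFsub, hAev] with n h1 h2 h3
    rw [h_eq n h1, ← prod_sdiff h2, ← prod_filter_mul_prod_filter_not F
      (fun p => Tendsto (fun n : ℕ => n.factorization p) U atTop)]
    have : ∏ p ∈ A, g p (n.factorization p) = HA :=
      prod_congr rfl (fun p hp => by rw [h3 p hp])
    rw [this]; ring
  have hBlim : Tendsto hB' U (𝓝 HB) := by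
    apply tendsto_finsetProd
    intro p hp
    have h2 := hB2 p hp
    have h1 : (2 : ℝ) ≤ p := by exact_mod_cast h2
    have ht : Tendsto (fun n : ℕ => n.factorization p + 1) U atTop :=
      (tendsto_add_atTop_nat 1).comp (mem_filter.mp hp).2
    have h3 : Tendsto (fun n : ℕ => ((p : ℝ)⁻¹) ^ (n.factorization p + 1)) U (𝓝 0) :=
      (tendsto_pow_atTop_nhds_zero_of_lt_one (by positivity)
        (inv_lt_one_of_one_lt₀ (by linarith))).comp ht
    have h4 := (h3.const_sub 1).const_mul ((p : ℝ) / ((p : ℝ) - 1))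
    simp only [sub_zero, mul_one] at h4
    exact h4.congr (fun n => (g_eq p _ h2).symm)
  have hC1 : ∀ n, 1 ≤ hC n := by
    intro n
    have h5 : ∏ _p ∈ n.primeFactors \ F, (1 : ℝ) ≤ hC n :=
      Finset.prod_le_prod (fun _ _ => zero_le_one) (fun p hp =>
        one_le_g _ _ (Nat.prime_of_mem_primeFactors (mem_sdiff.mp hp).1).two_le)
    simpa using h5
  have hClim : Tendsto hC U (𝓝 1) := by
    have h0 : Tendsto (fun M : ℕ => (1 + 1 / ((M : ℝ) + 1)) ^ k) atTop (𝓝 1) := by
      have := (tendsto_one_div_add_atTop_nhds_zero_nat.const_add (1 : ℝ)).pow k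
      simpa using this
    rw [tendsto_order]
    refine ⟨fun x hx => Eventually.of_forall fun n => hx.trans_le (hC1 n), fun x hx => ?_⟩
    obtain ⟨M, hM⟩ := ((tendsto_order.mp h0).2 x hx).exists
    have h1 : ∀ᶠ n : ℕ in U, ∀ p ∈ range (M + 2), p ∉ n.primeFactors \ F := by
      rw [eventually_all_finset]
      intro p _
      by_cases hp : p ∈ F
      · exact Eventually.of_forall fun n hn => (mem_sdiff.mp hn).2 hp
      · rw [hFmem, ← Ultrafilter.eventually_not] at hp
        exact hp.mono fun n hn hn' => hn (mem_sdiff.mp hn').1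
    filter_upwards [h1, hS] with n hn1 hn2
    refine lt_of_le_of_lt ?_ hM
    have hM0 : (0 : ℝ) ≤ M := Nat.cast_nonneg M
    calc hC n ≤ ∏ _p ∈ n.primeFactors \ F, (1 + 1 / ((M : ℝ) + 1)) := by
          apply Finset.prod_le_prod
          · intro p hp
            exact le_trans zero_le_one
              (one_le_g _ _ (Nat.prime_of_mem_primeFactors (mem_sdiff.mp hp).1).two_le)
          · intro p hp
            have hp2 : M + 2 ≤ p := by
              by_contra hlt
              exact hn1 p (mem_range.mpr (by omega)) hp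
            have hp3 : (M : ℝ) + 2 ≤ p := by exact_mod_cast hp2
            refine (g_le _ _ (by omega)).trans ?_
            have e : (p : ℝ) / ((p : ℝ) - 1) = 1 + 1 / ((p : ℝ) - 1) := by
              have : (p : ℝ) - 1 ≠ 0 := by linarith
              field_simp; ring
            rw [e]
            have : 1 / ((p : ℝ) - 1) ≤ 1 / ((M : ℝ) + 1) :=
              one_div_le_one_div_of_le (by linarith) (by linarith)
            linarith
      _ = (1 + 1 / ((M : ℝ) + 1)) ^ (n.primeFactors \ F).card := by rw [prod_const]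
      _ ≤ (1 + 1 / ((M : ℝ) + 1)) ^ k := by
          apply pow_le_pow_right₀
          · have : (0 : ℝ) ≤ 1 / ((M : ℝ) + 1) := by positivity
            linarith
          · rw [← hn2.2.1]; exact card_le_card sdiff_subset
  have hlim : Tendsto (fun n : ℕ => ((∑ i ∈ n.divisors, i : ℕ) : ℝ) / n) U (𝓝 (HA * HB)) := by
    have := (hBlim.const_mul HA).mul hClim
    rw [mul_one] at this
    exact this.congr' (hdec.mono fun n hn => hn.symm)
  -- the codivisor
  set e : ℕ → ℕ := fun n => n / (2 * n - ∑ i ∈ n.divisors, i) with he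
  have hE : ∀ᶠ n : ℕ in U, 0 < e n ∧ ((∑ i ∈ n.divisors, i : ℕ) : ℝ) / n = 2 - 1 / (e n : ℝ) := by
    filter_upwards [hS] with n hn
    obtain ⟨ho, _, d, ⟨m, hm⟩, hd2, hd3⟩ := hn
    have hn0 : 0 < n := ho.pos
    have hd0 : 0 < d := by
      rcases Nat.eq_zero_or_pos d with h | h
      · rw [h] at hm; omega
      · exact h
    have hm0 : 0 < m := by
      rcases Nat.eq_zero_or_pos m with h | h
      · rw [h] at hm; omega
      · exact h
    have h1 : e n = m := by
      have : 2 * n - ∑ i ∈ n.divisors, i = d := by omega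
      simp only [he, this]
      rw [hm, Nat.mul_div_cancel_left _ hd0]
    rw [h1]
    refine ⟨hm0, ?_⟩
    have h2 : ((∑ i ∈ n.divisors, i : ℕ) : ℝ) = 2 * n - d := by
      have : ((∑ i ∈ n.divisors, i : ℕ) : ℝ) + d = 2 * n := by exact_mod_cast hd3
      linarith
    have h3 : (n : ℝ) = d * m := by exact_mod_cast hm
    have hd' : (0 : ℝ) < d := by exact_mod_cast hd0
    have hm' : (0 : ℝ) < m := by exact_mod_cast hm0
    rw [h2, h3]; field_simp
  have hHApos : 0 < HA := prod_pos fun p hp => lt_of_lt_of_le zero_lt_one (one_le_g _ _ (hA2 p hp))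
  rcases dich U e with ⟨c, hc⟩ | hinfty
  · -- constant abundancy
    have h1 : ∀ᶠ n : ℕ in U, ((∑ i ∈ n.divisors, i : ℕ) : ℝ) / n = 2 - 1 / (c : ℝ) := by
      filter_upwards [hE, hc] with n h1 h2
      rw [h1.2, h2]
    have h2 : HA * HB = 2 - 1 / (c : ℝ) :=
      tendsto_nhds_unique hlim (tendsto_const_nhds.congr' (h1.mono fun n hn => hn.symm))
    have h3 : ∀ᶠ n : ℕ in U, hB' n * hC n = HB := by
      filter_upwards [h1, hdec] with n h1 h3
      have : HA * (hB' n * hC n) = HA * HB := by rw [h2, ← h1, h3]; ring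
      exact mul_left_cancel₀ hHApos.ne' this
    rcases B.eq_empty_or_nonempty with hBe | ⟨q, hq⟩
    · have h4 : ∀ᶠ n : ℕ in U, n = ∏ p ∈ A, p ^ a p := by
        filter_upwards [h3, hne, hFsub, hAev] with n h3 hn0 hsub hAn
        have hC0 : hC n = 1 := by simpa [hhB, hHB, hBe] using h3
        have hemp : n.primeFactors \ F = ∅ := by
          by_contra hne'
          obtain ⟨r, hr⟩ := nonempty_iff_ne_empty.mpr hne'
          have hr1 := (mem_sdiff.mp hr).1
          have : 1 < hC n := by
            have h5 : ∏ _p ∈ n.primeFactors \ F, (1 : ℝ) < hC n := by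
              apply prod_lt_prod (fun _ _ => zero_lt_one)
              · intro p hp
                exact one_le_g _ _ (Nat.prime_of_mem_primeFactors (mem_sdiff.mp hp).1).two_le
              · refine ⟨r, hr, one_lt_g _ _ (Nat.prime_of_mem_primeFactors hr1).two_le ?_⟩
                exact (Nat.prime_of_mem_primeFactors hr1).factorization_pos_of_dvd hn0
                  (Nat.dvd_of_mem_primeFactors hr1)
            simpa using h5
          linarith
        have hFA : n.primeFactors = A := by
          have e1 : n.primeFactors = F := Subset.antisymm (sdiff_eq_empty_iff_subset.mp hemp) hsub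
          have e2 := filter_union_filter_not_eq
            (fun p => Tendsto (fun n : ℕ => n.factorization p) U atTop) F
          rw [← hB, ← hA, hBe, empty_union] at e2
          rw [e1, e2]
        conv_lhs => rw [← Nat.prod_factorization_pow_eq_self hn0]
        rw [Finsupp.prod, Nat.support_factorization, hFA]
        exact prod_congr rfl fun p hp => by rw [hAn p hp]
      have h5 : ∀ᶠ n : ℕ in U, n ≠ ∏ p ∈ A, p ^ a p := hcof (eventually_cofinite_ne _)
      obtain ⟨n, hn1, hn2⟩ := (h4.and h5).exists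
      exact hn2 hn1
    · obtain ⟨n, hn1, hn2⟩ := (h3.and hodd).exists
      have hHBpos : 0 < HB := prod_pos fun p hp => by
        have : (2 : ℝ) ≤ p := by exact_mod_cast hB2 p hp
        exact div_pos (by linarith) (by linarith)
      have e1 : hB' n = HB * ∏ p ∈ B, (((p ^ (n.factorization p + 1) - 1 : ℕ) : ℝ) /
          ((p ^ (n.factorization p + 1) : ℕ) : ℝ)) := by
        rw [hHB, ← prod_mul_distrib]
        apply prod_congr rfl
        intro p hp
        have h2 := hB2 p hp
        have hp0 : (p : ℝ) ≠ 0 := by positivity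
        rw [g_eq p _ h2, Nat.cast_pred (by positivity)]
        congr 1
        push_cast
        rw [inv_pow]; field_simp
      rw [e1, mul_assoc] at hn1
      have e2 := mul_left_cancel₀ hHBpos.ne' (hn1.trans (mul_one HB).symm)
      simp only [hhC, g] at e2
      rw [prod_div_distrib, prod_div_distrib, div_mul_div_comm, div_eq_one_iff_eq] at e2
      · have e3 : (∏ p ∈ B, (p ^ (n.factorization p + 1) - 1)) *
            (∏ p ∈ n.primeFactors \ F, s p (n.factorization p)) =
            (∏ p ∈ B, p ^ (n.factorization p + 1)) *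
            (∏ p ∈ n.primeFactors \ F, p ^ (n.factorization p)) := by exact_mod_cast e2
        have ho : Odd ((∏ p ∈ B, p ^ (n.factorization p + 1)) *
            (∏ p ∈ n.primeFactors \ F, p ^ (n.factorization p))) := by
          apply Odd.mul
          · exact Finset.prod_induction _ Odd (fun _ _ => Odd.mul) odd_one
              (fun p hp => (hFprime p (mem_filter.mp hp).1).2.pow)
          · exact Finset.prod_induction _ Odd (fun _ _ => Odd.mul) odd_one
              (fun p hp => (hn2.of_dvd_nat (Nat.dvd_of_mem_primeFactors (mem_sdiff.mp hp).1)).pow)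
        rw [← e3] at ho
        have ho2 : Odd (q ^ (n.factorization q + 1) - 1) :=
          ho.of_dvd_nat (Dvd.dvd.mul_right
            (dvd_prod_of_mem (fun p => p ^ (n.factorization p + 1) - 1) hq) _)
        have ho3 : Odd (q ^ (n.factorization q + 1)) := (hFprime q (mem_filter.mp hq).1).2.pow
        obtain ⟨u, hu⟩ := ho2
        obtain ⟨v, hv⟩ := ho3
        omega
      · apply mul_ne_zero
        · exact prod_ne_zero_iff.mpr fun p hp => by
            have := hB2 p hp
            positivity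
        · exact prod_ne_zero_iff.mpr fun p hp => by
            have := (Nat.prime_of_mem_primeFactors (mem_sdiff.mp hp).1).two_le
            positivity
  · -- limit two
    have h1 : Tendsto (fun n : ℕ => 2 - 1 / (e n : ℝ)) U (𝓝 2) := by
      have := (tendsto_one_div_atTop_nhds_zero_nat (𝕜 := ℝ).comp hinfty).const_sub 2
      simpa using this
    have h2 : HA * HB = 2 := tendsto_nhds_unique hlim (h1.congr' (hE.mono fun n hn => hn.2.symm))
    rcases B.eq_empty_or_nonempty with hBe | hBne
    · obtain ⟨n, hn1, hn2⟩ := (hE.and hdec).exists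
      have e1 : hB' n = 1 := by simp [hhB, hBe]
      have e2 : HB = 1 := by simp [hHB, hBe]
      have e3 : (0 : ℝ) < 1 / (e n : ℝ) := by
        have : (0 : ℝ) < e n := by exact_mod_cast hn1.1
        positivity
      have e4 := hC1 n
      rw [hn1.2, e1] at hn2
      rw [e2] at h2
      nlinarith
    · set q := B.max' hBne with hq
      have hqB : q ∈ B := B.max'_mem hBne
      have hqp := hFprime q (mem_filter.mp hqB).1
      have e1 : HB = ∏ p ∈ B, (p : ℝ) / ((p - 1 : ℕ) : ℝ) := by
        apply prod_congr rfl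
        intro p hp
        have := hB2 p hp
        rw [Nat.cast_pred (by omega)]
      rw [e1, hHA] at h2
      simp only [g] at h2
      rw [prod_div_distrib, prod_div_distrib, div_mul_div_comm, div_eq_iff] at h2
      · have e3 : (∏ p ∈ A, s p (a p)) * (∏ p ∈ B, p) =
            2 * ((∏ p ∈ A, p ^ a p) * ∏ p ∈ B, (p - 1)) := by
          have e4 : ∏ x ∈ B, (x : ℝ) = ((∏ p ∈ B, p : ℕ) : ℝ) := by push_cast; rfl
          rw [e4] at h2
          exact_mod_cast h2
        have d1 : q ∣ 2 * ((∏ p ∈ A, p ^ a p) * ∏ p ∈ B, (p - 1)) := by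
          rw [← e3]; exact Dvd.dvd.mul_left (dvd_prod_of_mem (fun p => p) hqB) _
        rcases (Nat.Prime.dvd_mul hqp.1).mp d1 with d2 | d2
        · have := (Nat.prime_dvd_prime_iff_eq hqp.1 Nat.prime_two).mp d2
          have h3 := hqp.2
          rw [this] at h3
          exact absurd h3 (by decide)
        · rcases (Nat.Prime.dvd_mul hqp.1).mp d2 with d3 | d3
          · obtain ⟨p, hp, hp2⟩ := (Prime.dvd_finsetProd_iff hqp.1.prime _).mp d3
            have := (Nat.prime_dvd_prime_iff_eq hqp.1 (hFprime p (mem_filter.mp hp).1).1).mp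
              (hqp.1.dvd_of_dvd_pow hp2)
            rw [← this] at hp
            exact (mem_filter.mp hp).2 (mem_filter.mp hqB).2
          · obtain ⟨p, hp, hp2⟩ := (Prime.dvd_finsetProd_iff hqp.1.prime _).mp d3
            have h3 := hB2 p hp
            have h4 := Nat.le_of_dvd (by omega) hp2
            have h5 : p ≤ q := B.le_max' p hp
            omega
      · apply mul_ne_zero
        · exact prod_ne_zero_iff.mpr fun p hp => by
            have := hA2 p hp
            positivity
        · exact prod_ne_zero_iff.mpr fun p hp => by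
            have := hB2 p hp
            have : 0 < p - 1 := by omega
            positivity

end Pool.Agent.S15847
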