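import Pool.Statements.S17709
import Pool.Agent.H18.Wstar

set_option autoImplicit false
open Pool Pool.MP_8ce656_nt

namespace Pool.Agent.S17709

open Polynomial Pool.Agent.H18.Wstar

noncomputable def ht (P : ℤ[X]) : ℝ :=
  (((Finset.range (P.natDegree + 1)).sup (fun i => (P.coeff i).natAbs) : ℕ) : ℝ)

lemma coeff_le_ht (P : ℤ[X]) (i : ℕ) : |(P.coeff i : ℝ)| ≤ ht P := by
  by_cases h : i ≤ P.natDegree
  · have : (P.coeff i).natAbs ≤ (Finset.range (P.natDegree + 1)).sup (fun i => (P.coeff i).natAbs) :=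
      Finset.le_sup (f := fun i => (P.coeff i).natAbs) (Finset.mem_range.2 (by omega))
    rw [← Int.cast_abs, Int.abs_eq_natAbs, Int.cast_natCast]
    unfold ht
    exact_mod_cast this
  · rw [coeff_eq_zero_of_natDegree_lt (by omega)]
    simp [ht]

lemma ht_le (P : ℤ[X]) (h : ℝ) (H : ∀ i, |(P.coeff i : ℝ)| ≤ h) : ht P ≤ h := by
  obtain ⟨i, -, hi⟩ := Finset.exists_mem_eq_sup (Finset.range (P.natDegree + 1))
    ⟨0, by simp⟩ (fun i => (P.coeff i).natAbs)
  unfold ht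
  rw [hi, ← Int.cast_natCast, ← Int.abs_eq_natAbs, Int.cast_abs]
  exact H i

lemma one_le_ht (P : ℤ[X]) (hP : P ≠ 0) : 1 ≤ ht P := by
  refine le_trans ?_ (coeff_le_ht P P.natDegree)
  exact_mod_cast Int.one_le_abs (leadingCoeff_ne_zero.2 hP)

lemma irr_factor (α : ℝ) (P : ℤ[X]) : P ≠ 0 → aeval α P = 0 →
    ∃ Q : ℤ[X], Irreducible Q ∧ Q ∣ P ∧ aeval α Q = 0 := by
  induction P using WfDvdMonoid.induction_on_irreducible with
  | zero => intro h; exact (h rfl).elim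
  | unit u hu => intro _ h; exact ((hu.map (aeval α)).ne_zero h).elim
  | mul a i ha hi ih =>
    intro _ h
    rw [map_mul] at h
    rcases mul_eq_zero.1 h with h | h
    · exact ⟨i, hi, dvd_mul_right _ _, h⟩
    · obtain ⟨Q, h1, h2, h3⟩ := ih ha h
      exact ⟨Q, h1, h2.mul_left _, h3⟩

lemma good (α B h : ℝ) (hB : 1 ≤ B) (hα : |α| ≤ B) (P : ℤ[X]) (hP0 : P ≠ 0)
    (hdeg : P.natDegree ≤ 2) (hr : aeval α P = 0) (hc : ∀ i, |(P.coeff i : ℝ)| ≤ h) :
    ∃ Q : ℤ[X], Irreducible Q ∧ Q.natDegree ≤ P.natDegree ∧ aeval α Q = 0 ∧ ht Q ≤ B * h := by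
  obtain ⟨Q, h1, ⟨R, h2⟩, h3⟩ := irr_factor α P hP0 hr
  have hR : R ≠ 0 := by rintro rfl; simp [h2] at hP0
  have hd : P.natDegree = Q.natDegree + R.natDegree := by rw [h2, natDegree_mul h1.ne_zero hR]
  have h0 : 0 ≤ h := (abs_nonneg _).trans (hc 0)
  have hle : h ≤ B * h := by nlinarith
  refine ⟨Q, h1, by omega, h3, ht_le _ _ (fun i => ?_)⟩
  have key : ∀ x y : ℤ, y ≠ 0 → |((x * y : ℤ) : ℝ)| ≤ h → |(x : ℝ)| ≤ h := by
    intro x y hy hxy
    have : (1 : ℝ) ≤ |(y : ℝ)| := by exact_mod_cast Int.one_le_abs hy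
    rw [Int.cast_mul, abs_mul] at hxy
    nlinarith [abs_nonneg (x : ℝ)]
  by_cases hR0 : R.natDegree = 0
  · rw [eq_C_of_natDegree_eq_zero hR0] at h2 hR
    have := hc i
    rw [h2, coeff_mul_C] at this
    exact (key _ _ (fun h => hR (by rw [h, C_0])) this).trans hle
  · have hQ1 : Q.natDegree ≤ 1 := by omega
    have hl : |(Q.leadingCoeff : ℝ)| ≤ h := by
      have := hc P.natDegree
      rw [coeff_natDegree, h2, leadingCoeff_mul] at this
      exact key _ _ (leadingCoeff_ne_zero.2 hR) this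
    have e := eq_X_add_C_of_natDegree_le_one hQ1
    have e2 : (Q.coeff 1 : ℝ) * α + Q.coeff 0 = 0 := by
      rw [e] at h3
      simpa using h3
    have hl1 : |(Q.coeff 1 : ℝ)| ≤ h := by
      by_cases hq : Q.natDegree = 1
      · rw [← hq]; exact hl
      · rw [coeff_eq_zero_of_natDegree_lt (by omega)]; simpa using h0
    rcases i with _ | _ | i
    · rw [show (Q.coeff 0 : ℝ) = -(Q.coeff 1 * α) by linarith, abs_neg, abs_mul, mul_comm]
      gcongr
    · exact hl1.trans hle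
    · rw [coeff_eq_zero_of_natDegree_lt (by omega)]
      simpa using h0.trans hle

lemma quad (α B h : ℝ) (hB : 1 ≤ B) (hα : |α| ≤ B) (a b c : ℤ) (h0 : (a, b, c) ≠ 0)
    (hr : a * α ^ 2 + b * α + c = 0) (ha : |(a : ℝ)| ≤ h) (hb : |(b : ℝ)| ≤ h)
    (hc : |(c : ℝ)| ≤ h) :
    ∃ Q : ℤ[X], Irreducible Q ∧ Q.natDegree ≤ 2 ∧ (a = 0 → Q.natDegree ≤ 1) ∧ aeval α Q = 0 ∧
      ht Q ≤ B * h := by
  set P : ℤ[X] := C a * X ^ 2 + C b * X + C c with hP
  have c0 : P.coeff 0 = c := by simp [hP]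
  have c1 : P.coeff 1 = b := by simp [hP, -eq_intCast]
  have c2 : P.coeff 2 = a := by simp [hP, -eq_intCast]
  have hd : P.natDegree ≤ 2 := natDegree_quadratic_le
  obtain ⟨Q, h1, h2, h3, h4⟩ := good α B h hB hα P (by
      intro hz
      rw [hz] at c0 c1 c2
      simp only [coeff_zero] at c0 c1 c2
      exact h0 (by rw [← c0, ← c1, ← c2]; rfl)) hd (by simpa [hP] using hr) (by
      intro i
      rcases i with _ | _ | _ | i
      · rwa [c0]
      · rwa [c1]
      · rwa [c2]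
      · rw [coeff_eq_zero_of_natDegree_lt (by omega)]
        simpa using (abs_nonneg _).trans ha)
  refine ⟨Q, h1, h2.trans hd, fun ha0 => h2.trans ?_, h3, h4⟩
  rw [hP, ha0, C_0, zero_mul, zero_add]
  exact natDegree_linear_le

def Ex (ζ : ℝ) (n : ℕ) : Set ℝ :=
  {w : ℝ | ∃ H₀ : ℝ, ∀ H : ℝ, H₀ ≤ H → ∃ α : ℝ, ∃ P : Polynomial ℤ,
    Irreducible P ∧ P.natDegree ≤ n ∧ Polynomial.aeval α P = 0 ∧ ht P ≤ H ∧
      0 < |ζ - α| ∧ |ζ - α| ≤ (ht P)⁻¹ * H ^ (-w)}

lemma num_le (r : ℚ) (B : ℝ) (h : |(r : ℝ)| ≤ B) : |(r.num : ℝ)| ≤ B * r.den := by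
  have : (r.num : ℝ) = r * r.den := by exact_mod_cast (Rat.mul_den_eq_num r).symm
  rw [this, abs_mul, Nat.abs_cast]
  gcongr

lemma lower (ζ : ℝ) (hζ : Irrational ζ) (n : ℕ) (hn : 1 ≤ n) (w : ℝ) (hw : w < 1) :
    w ∈ Ex ζ n := by
  set B := |ζ| + 1 with hB
  have hB1 : 1 ≤ B := by linarith [abs_nonneg ζ]
  obtain ⟨H₀, hH⟩ := Filter.eventually_atTop.1
    (((tendsto_rpow_atTop (y := 1 - w) (by linarith)).eventually_ge_atTop (B ^ 4)).and
      (Filter.eventually_ge_atTop (B ^ 2)))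
  refine ⟨H₀, fun H hH' => ?_⟩
  obtain ⟨h1, h2⟩ := hH H hH'
  have hB2 : 0 < B ^ 2 := by positivity
  have hH0 : 0 < H := by linarith
  set N := ⌊H / B ^ 2⌋₊ with hN
  have hN1 : 0 < N := Nat.floor_pos.2 (by rw [le_div_iff₀ hB2]; linarith)
  have hN2 : (N : ℝ) ≤ H / B ^ 2 := Nat.floor_le (by positivity)
  have hN3 : H / B ^ 2 < N + 1 := Nat.lt_floor_add_one _
  obtain ⟨r, r1, r2⟩ := Real.exists_rat_abs_sub_le_and_den_le ζ hN1
  have hq : (1 : ℝ) ≤ r.den := by exact_mod_cast r.pos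
  have r2' : (r.den : ℝ) ≤ N := by exact_mod_cast r2
  have r3 : |ζ - r| ≤ 1 := r1.trans (by
    rw [div_le_one (by positivity)]; nlinarith [(Nat.cast_nonneg N : (0 : ℝ) ≤ N)])
  have r4 : |(r : ℝ)| ≤ B := by
    have := abs_sub_abs_le_abs_sub (r : ℝ) ζ
    rw [abs_sub_comm] at this
    linarith
  obtain ⟨Q, q1, -, q2, q3, q4⟩ := quad r B (B * r.den) hB1 r4 0 r.den (-r.num)
    (by simp) (by
      have : (r.num : ℝ) = r * r.den := by exact_mod_cast (Rat.mul_den_eq_num r).symm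
      push_cast; rw [this]; ring)
    (by simp; positivity) (by simp; nlinarith) (by simpa using num_le r B r4)
  have q5 := one_le_ht Q q1.ne_zero
  rw [le_div_iff₀ hB2] at hN2
  rw [div_lt_iff₀ hB2] at hN3
  refine ⟨r, Q, q1, (q2 rfl).trans hn, q3, by nlinarith, abs_pos.2 (sub_ne_zero.2 (hζ.ne_rat r)),
    r1.trans ?_⟩
  rw [Real.rpow_sub hH0, Real.rpow_one, le_div_iff₀ (by positivity)] at h1
  rw [Real.rpow_neg hH0.le, ← mul_inv, ← one_div]
  refine one_div_le_one_div_of_le (by positivity) ?_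
  have hw0 : 0 < H ^ w := by positivity
  have a1 : ht Q * H ^ w ≤ B * (B * r.den) * H ^ w := by gcongr
  have a2 : B ^ 2 * H ^ w ≤ N + 1 := by
    refine le_of_mul_le_mul_right ?_ hB2
    nlinarith
  nlinarith

lemma same_root (P : ℤ[X]) (hP : Irreducible P) (α : ℝ) (r : ℚ) (h1 : aeval α P = 0)
    (h2 : aeval (r : ℝ) P = 0) : α = r := by
  have hd : P.natDegree ≠ 0 := by
    intro h
    rw [eq_C_of_natDegree_eq_zero h] at h1 hP
    have : P.coeff 0 = 0 := by simpa using h1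
    rw [this, C_0] at hP
    exact not_irreducible_zero hP
  have h3 := (IsPrimitive.Int.irreducible_iff_irreducible_map_cast (hP.isPrimitive hd)).1 hP
  have h4 : (P.map (Int.castRingHom ℚ)).IsRoot r := by
    have : ((aeval r P : ℚ) : ℝ) = aeval (r : ℝ) P :=
      (aeval_algebraMap_apply ℝ r P).symm
    rw [h2] at this
    rw [IsRoot, eval_map]
    exact_mod_cast this
  have h5 := natDegree_eq_of_degree_eq_some (degree_eq_one_of_irreducible_of_root h3 h4)
  rw [natDegree_map_eq_of_injective (RingHom.injective_int _)] at h5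
  have h6 : (P.coeff 1 : ℝ) ≠ 0 := by
    have := leadingCoeff_ne_zero.2 hP.ne_zero
    rw [leadingCoeff, h5] at this
    exact_mod_cast this
  rw [eq_X_add_C_of_natDegree_le_one h5.le] at h1 h2
  simp only [map_add, map_mul, aeval_X, eq_intCast, map_intCast] at h1 h2
  exact mul_left_cancel₀ h6 (by linarith)

lemma lip (P : ℤ[X]) (n : ℕ) (hn : P.natDegree ≤ n) (x y B : ℝ) (hB : 1 ≤ B) (hx : |x| ≤ B)
    (hy : |y| ≤ B) : |aeval x P - aeval y P| ≤ (n + 1) * (n * B ^ n) * (ht P * |x - y|) := by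
  rw [aeval_eq_sum_range' (Nat.lt_succ_of_le hn), aeval_eq_sum_range' (Nat.lt_succ_of_le hn),
    ← Finset.sum_sub_distrib]
  refine (Finset.abs_sum_le_sum_abs _ _).trans ((Finset.sum_le_card_nsmul _ _
    (n * B ^ n * (ht P * |x - y|)) (fun i hi => ?_)).trans (le_of_eq ?_))
  · have hi' : i ≤ n := Nat.lt_succ_iff.1 (Finset.mem_range.1 hi)
    rw [← smul_sub, zsmul_eq_mul, abs_mul]
    have a1 : |x ^ i - y ^ i| ≤ |x - y| * n * B ^ n := by
      refine (abs_pow_sub_pow_le x y i).trans ?_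
      have : max |x| |y| ^ (i - 1) ≤ B ^ n :=
        (pow_le_pow_left₀ (by positivity) (max_le hx hy) _).trans
          (pow_le_pow_right₀ hB (by omega))
      gcongr
    calc _ ≤ ht P * (|x - y| * n * B ^ n) :=
          mul_le_mul (coeff_le_ht P i) a1 (abs_nonneg _) ((abs_nonneg _).trans (coeff_le_ht P i))
      _ = _ := by ring
  · simp; ring

lemma upper (ζ : ℝ) (hζ : Liouville ζ) (n : ℕ) (w : ℝ) (hw : w ∈ Ex ζ n) : w ≤ 1 := by
  by_contra hw1
  push Not at hw1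
  obtain ⟨H₀, hH⟩ := hw
  set B := |ζ| + 1 with hB
  have hB1 : 1 ≤ B := by linarith [abs_nonneg ζ]
  set C := (n + 1) * (n * B ^ n) with hC
  have hC0 : 0 ≤ C := by positivity
  set θ := 1 - 1 / w with hθ
  have hθ0 : 0 < θ := by
    have : 1 / w < 1 := by rw [div_lt_one (by linarith)]; exact hw1
    linarith
  have t1 : Filter.Tendsto (fun N : ℕ => ((2 : ℝ) ^ N) ^ (1 / w)) Filter.atTop Filter.atTop :=
    (tendsto_rpow_atTop (by positivity)).comp (tendsto_pow_atTop_atTop_of_one_lt one_lt_two)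
  have t2 : Filter.Tendsto (fun N : ℕ => (2 : ℝ) ^ (N * θ - n)) Filter.atTop Filter.atTop :=
    (tendsto_rpow_atTop_of_base_gt_one 2 one_lt_two).comp
      (Filter.tendsto_atTop_add_const_right _ (-(n : ℝ))
        (tendsto_natCast_atTop_atTop.atTop_mul_const hθ0))
  obtain ⟨N, N1, N2, N3⟩ := ((t1.eventually_ge_atTop H₀).and ((t2.eventually_gt_atTop (4 * C)).and
    (t2.eventually_ge_atTop 1))).exists
  obtain ⟨a, b, hb, hne, hab⟩ := hζ N
  set D := |ζ - a / b| with hD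
  have hD0 : 0 < D := abs_pos.2 (sub_ne_zero.2 hne)
  have hb' : (2 : ℝ) ≤ b := by exact_mod_cast hb
  have hbN : (2 : ℝ) ^ N ≤ (b : ℝ) ^ N := by gcongr
  have h2N : (1 : ℝ) ≤ 2 ^ N := one_le_pow₀ one_le_two
  rw [lt_div_iff₀ (by positivity)] at hab
  have hD1 : D ≤ 1 := by nlinarith
  have hX : H₀ ≤ (2 / D) ^ (1 / w) := by
    refine N1.trans (Real.rpow_le_rpow (by positivity) ?_ (by positivity))
    rw [le_div_iff₀ hD0]; nlinarith
  obtain ⟨α, P, p1, p2, p3, p4, -, p6⟩ := hH _ hX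
  have e : ((2 / D) ^ (1 / w)) ^ (-w) = D / 2 := by
    rw [← Real.rpow_mul (by positivity), show 1 / w * -w = -1 by field_simp, Real.rpow_neg_one,
      inv_div]
  have h1 := one_le_ht P p1.ne_zero
  have p7 : |ζ - α| ≤ D / 2 := by
    rw [e] at p6
    have : (ht P)⁻¹ ≤ 1 := inv_le_one_of_one_le₀ h1
    nlinarith
  have hne2 : aeval ((a : ℝ) / b) P ≠ 0 := by
    intro h
    have := same_root P p1 α (a / b) p3 (by push_cast; exact h)
    rw [this] at p7
    push_cast at p7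
    linarith
  have l1 := one_le_pow_mul_abs_eval_div (K := ℝ) (f := P) (a := a) (b := b) (by omega)
    (by rwa [eval_map_algebraMap])
  rw [eval_map_algebraMap] at l1
  have l2 := lip P n p2 (a / b) α B hB1 (by
      have := abs_sub_abs_le_abs_sub ((a : ℝ) / b) ζ
      rw [abs_sub_comm] at this
      linarith) (by
      have := abs_sub_abs_le_abs_sub α ζ
      rw [abs_sub_comm] at this
      linarith)
  rw [p3, sub_zero, ← hC] at l2
  have l3 : |(a : ℝ) / b - α| ≤ 2 * D := by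
    have := abs_sub_le ((a : ℝ) / b) ζ α
    rw [abs_sub_comm ((a : ℝ) / b) ζ] at this
    linarith
  have l4 : (2 / D) ^ (1 / w) * D ≤ 2 * D ^ θ := by
    rw [Real.div_rpow (by norm_num) hD0.le, hθ, Real.rpow_sub hD0, Real.rpow_one]
    have : (2 : ℝ) ^ (1 / w) ≤ 2 ^ (1 : ℝ) :=
      Real.rpow_le_rpow_of_exponent_le one_le_two (by linarith)
    rw [Real.rpow_one] at this
    rw [div_mul_eq_mul_div, mul_div_assoc]
    gcongr
  have l5 : D ^ θ * (b : ℝ) ^ (N * θ) ≤ 1 := by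
    rw [Real.rpow_mul (by positivity), Real.rpow_natCast, ← Real.mul_rpow hD0.le (by positivity)]
    exact Real.rpow_le_one (by positivity) hab.le hθ0.le
  have l6 : (2 : ℝ) ^ (N * θ - n) * (b : ℝ) ^ n ≤ (b : ℝ) ^ (N * θ) := by
    have hnn : 0 ≤ N * θ - n := by
      by_contra hc
      exact absurd N3 (not_le.2 (Real.rpow_lt_one_of_one_lt_of_neg one_lt_two (not_le.1 hc)))
    have : (2 : ℝ) ^ (N * θ - n) ≤ (b : ℝ) ^ (N * θ - n) := by gcongr
    rw [← le_div_iff₀ (by positivity), ← Real.rpow_natCast, ← Real.rpow_sub (by positivity)]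
    exact this
  have l7 : (b : ℝ) ^ P.natDegree ≤ (b : ℝ) ^ n := pow_le_pow_right₀ (by linarith) p2
  have hDθ : 0 < D ^ θ := by positivity
  have l8 : 1 ≤ (b : ℝ) ^ n * (C * (4 * D ^ θ)) := by
    refine l1.trans (mul_le_mul l7 (l2.trans ?_) (abs_nonneg _) (by positivity))
    refine mul_le_mul_of_nonneg_left ?_ hC0
    calc ht P * |(a : ℝ) / b - α| ≤ (2 / D) ^ (1 / w) * (2 * D) := by gcongr
      _ ≤ _ := by linarith
  have l9 : D ^ θ * ((2 : ℝ) ^ (N * θ - n) * (b : ℝ) ^ n) ≤ 1 :=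
    (mul_le_mul_of_nonneg_left l6 hDθ.le).trans l5
  have : 4 * C * (D ^ θ * (b : ℝ) ^ n) < (2 : ℝ) ^ (N * θ - n) * (D ^ θ * (b : ℝ) ^ n) := by
    gcongr
  nlinarith

lemma pig (z B T U M : ℝ) (hB : |z| + 1 ≤ B) (hU : 0 < U) (hU1 : U ≤ 1) (hT : 0 < T)
    (hM0 : 0 ≤ M) (hM : 2 / U * M ≤ (T / (2 * B)) ^ 2) :
    ∃ S : Finset V3, M < S.card ∧ ∀ s ∈ S, ∀ s' ∈ S,
      |fu z (s - s')| ≤ U ∧ |fv z (s - s')| ≤ T ∧ |fw (s - s')| ≤ T := by
  classical
  have hz := abs_nonneg z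
  have hB0 : 0 < B := by linarith
  set m := ⌊T / (2 * B)⌋₊ with hm
  set G := ⌈1 / U⌉₊ with hG
  have m1 : (m : ℝ) ≤ T / (2 * B) := Nat.floor_le (by positivity)
  have m2 : T / (2 * B) < m + 1 := Nat.lt_floor_add_one _
  have G1 : 1 / U ≤ G := Nat.le_ceil _
  have G2 : (G : ℝ) < 1 / U + 1 := Nat.ceil_lt_add_one (by positivity)
  have G3 : 1 ≤ 1 / U := by rw [le_div_iff₀ hU]; linarith
  have G0 : (0 : ℝ) < G := by linarith
  obtain ⟨y, -, hy⟩ := Finset.exists_lt_card_fiber_of_nsmul_lt_card_of_maps_to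
    (s := Finset.range (m + 1) ×ˢ Finset.range (m + 1)) (t := Finset.range G) (b := M)
    (f := fun x => ⌊Int.fract ((x.1 : ℝ) * z ^ 2 + x.2 * z) * G⌋₊) (fun x _ => by
      rw [Finset.mem_range, Nat.floor_lt (mul_nonneg (Int.fract_nonneg _) G0.le)]
      exact mul_lt_of_lt_one_left G0 (Int.fract_lt_one _)) (by
      rw [Finset.card_range, Finset.card_product, Finset.card_range, nsmul_eq_mul]
      push_cast
      have a1 : (G : ℝ) * M ≤ 2 / U * M := by
        gcongr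
        have : 2 / U = 1 / U + 1 / U := by ring
        linarith
      have a2 : (T / (2 * B)) ^ 2 < (m + 1) ^ 2 := by gcongr
      nlinarith)
  refine ⟨((Finset.range (m + 1) ×ˢ Finset.range (m + 1)).filter
    (fun x : ℕ × ℕ => ⌊Int.fract ((x.1 : ℝ) * z ^ 2 + (x.2 : ℝ) * z) * (G : ℝ)⌋₊ = y)).image
    (fun x : ℕ × ℕ => ((x.1 : ℤ), (x.2 : ℤ), -⌊(x.1 : ℝ) * z ^ 2 + x.2 * z⌋)), ?_, ?_⟩
  · rwa [Finset.card_image_of_injective]
    intro x x' h
    simp only [Prod.mk.injEq, Nat.cast_inj] at h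
    exact Prod.ext h.1 h.2.1
  · intro s hs s' hs'
    obtain ⟨⟨a, b⟩, hx, rfl⟩ := Finset.mem_image.1 hs
    obtain ⟨⟨a', b'⟩, hx', rfl⟩ := Finset.mem_image.1 hs'
    simp only [Finset.mem_filter, Finset.mem_product, Finset.mem_range] at hx hx'
    obtain ⟨⟨x1, x2⟩, x3⟩ := hx
    obtain ⟨⟨y1, y2⟩, y3⟩ := hx'
    have bd : ∀ c c' : ℕ, c < m + 1 → c' < m + 1 → |(c : ℝ) - c'| ≤ T / (2 * B) := by
      intro c c' h h'
      have h1 : (c : ℝ) ≤ m := by exact_mod_cast Nat.lt_succ_iff.1 h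
      have h2 : (c' : ℝ) ≤ m := by exact_mod_cast Nat.lt_succ_iff.1 h'
      rw [abs_le]
      constructor <;> linarith [(Nat.cast_nonneg c : (0 : ℝ) ≤ c), (Nat.cast_nonneg c' : (0 : ℝ) ≤ c')]
    have ba := bd a a' x1 y1
    have bb := bd b b' x2 y2
    have eT : T = 2 * B * (T / (2 * B)) := by field_simp
    have t0 : 0 ≤ T / (2 * B) := by positivity
    refine ⟨?_, ?_, ?_⟩
    · have e : fu z (((a : ℤ), (b : ℤ), -⌊(a : ℝ) * z ^ 2 + b * z⌋)
          - ((a' : ℤ), (b' : ℤ), -⌊(a' : ℝ) * z ^ 2 + b' * z⌋))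
          = Int.fract ((a : ℝ) * z ^ 2 + b * z) - Int.fract ((a' : ℝ) * z ^ 2 + b' * z) := by
        rw [fu_sub]; simp only [fu, Int.fract]; push_cast; ring
      rw [e]
      have f1 := Nat.floor_le (mul_nonneg (Int.fract_nonneg ((a : ℝ) * z ^ 2 + b * z)) G0.le)
      have f2 := Nat.lt_floor_add_one (Int.fract ((a : ℝ) * z ^ 2 + b * z) * G)
      have f3 := Nat.floor_le (mul_nonneg (Int.fract_nonneg ((a' : ℝ) * z ^ 2 + b' * z)) G0.le)
      have f4 := Nat.lt_floor_add_one (Int.fract ((a' : ℝ) * z ^ 2 + b' * z) * G)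
      rw [x3] at f1 f2
      rw [y3] at f3 f4
      rw [div_le_iff₀ hU] at G1
      refine le_of_mul_le_mul_right ?_ G0
      rw [← abs_of_pos G0, ← abs_mul, abs_of_pos G0, abs_le]
      constructor <;> linarith
    · have e : fv z (((a : ℤ), (b : ℤ), -⌊(a : ℝ) * z ^ 2 + b * z⌋)
          - ((a' : ℤ), (b' : ℤ), -⌊(a' : ℝ) * z ^ 2 + b' * z⌋))
          = 2 * (((a : ℝ) - a') * z) + (b - b') := by
        simp [fv]; ring
      rw [e]
      refine (abs_add_le _ _).trans ?_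
      rw [abs_mul, abs_mul, abs_two]
      have : |(a : ℝ) - a'| * |z| ≤ T / (2 * B) * |z| := by gcongr
      nlinarith
    · have e : fw (((a : ℤ), (b : ℤ), -⌊(a : ℝ) * z ^ 2 + b * z⌋)
          - ((a' : ℤ), (b' : ℤ), -⌊(a' : ℝ) * z ^ 2 + b' * z⌋)) = (a : ℝ) - a' := by
        simp [fw]
      rw [e]
      nlinarith

lemma root (u v w : ℝ) (h : 4 * |u| * |w| < v ^ 2) :
    ∃ s : ℝ, w * s ^ 2 + v * s + u = 0 ∧ |s| * |v| ≤ 2 * |u| := by
  have h1 : 0 ≤ v ^ 2 - 4 * u * w := by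
    have := le_abs_self (u * w)
    rw [abs_mul] at this
    linarith
  obtain ⟨R, hR, hR2⟩ : ∃ R : ℝ, R ^ 2 = v ^ 2 - 4 * u * w ∧ |v| ≤ |v + R| := by
    rcases le_total 0 v with hv | hv
    · refine ⟨√(v ^ 2 - 4 * u * w), Real.sq_sqrt h1, ?_⟩
      have := Real.sqrt_nonneg (v ^ 2 - 4 * u * w)
      rw [abs_of_nonneg hv, abs_of_nonneg (by linarith)]; linarith
    · refine ⟨-√(v ^ 2 - 4 * u * w), by rw [neg_sq, Real.sq_sqrt h1], ?_⟩
      have := Real.sqrt_nonneg (v ^ 2 - 4 * u * w)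
      rw [abs_of_nonpos hv, abs_of_nonpos (by linarith)]; linarith
  have hv : 0 < |v| := by
    rw [abs_pos]; rintro rfl
    have : 0 ≤ 4 * |u| * |w| := by positivity
    linarith
  have hd : v + R ≠ 0 := abs_pos.1 (by linarith)
  refine ⟨-(2 * u) / (v + R), ?_, ?_⟩
  · field_simp
    linear_combination u * hR
  · rw [abs_div, abs_neg, abs_mul, abs_two, div_mul_eq_mul_div, div_le_iff₀ (by linarith)]
    gcongr

lemma conv (ζ : ℝ) (hζ : Transcendental ℤ ζ) (h : ∀ w ∈ Ex ζ 2, w ≤ 1) : Liouville ζ := by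
  intro N
  set B := |ζ| + 1 with hB
  have hz := abs_nonneg ζ
  have hB1 : 1 ≤ B := by linarith
  set k := 4 * N + 5 with hk
  have hk0 : (0 : ℝ) < k := by positivity
  have hnot : (1 + 1 / (k : ℝ)) ∉ Ex ζ 2 := fun hm => by
    have := h _ hm
    have : 0 < 1 / (k : ℝ) := by positivity
    linarith
  simp only [Ex, Set.mem_ofPred_eq, not_exists, not_forall] at hnot
  obtain ⟨X, hX, hno⟩ := hnot ((10 ^ 9 * B ^ 16) ^ k)
  have hX0 : 0 < X := lt_of_lt_of_le (by positivity) hX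
  obtain ⟨W, hW0, rfl⟩ : ∃ W : ℝ, 0 < W ∧ X = W ^ k :=
    ⟨X ^ ((k : ℝ)⁻¹), by positivity, (Real.rpow_inv_natCast_pow hX0.le (by omega)).symm⟩
  have hW : 10 ^ 9 * B ^ 16 ≤ W := le_of_pow_le_pow_left₀ (by omega) hW0.le hX
  have eW : (W ^ k) ^ (-(1 + 1 / (k : ℝ))) = (W ^ (k + 1))⁻¹ := by
    rw [← Real.rpow_natCast, ← Real.rpow_mul hW0.le, ← Real.rpow_natCast, ← Real.rpow_neg hW0.le]
    congr 1
    push_cast
    field_simp
  rw [eW] at hno
  have hBp : ∀ i, i ≤ 16 → 10 ^ 9 * B ^ i ≤ W := fun i hi =>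
    le_trans (by gcongr) hW
  have hW1 : (10 : ℝ) ^ 9 ≤ W := by simpa using hBp 0 (by norm_num)
  have hH : ∀ (a b c : ℤ) (α t : ℝ), (a, b, c) ≠ 0 → a * α ^ 2 + b * α + c = 0 →
      |(a : ℝ)| ≤ t → |(b : ℝ)| ≤ t → |(c : ℝ)| ≤ t → B * t ≤ W ^ k →
      1 ≤ |ζ - α| * (B * t) * W ^ (k + 1) := by
    intro a b c α t h0 hr ha hb hc hBt
    by_cases hα : |ζ - α| ≤ 1
    · obtain ⟨Q, q1, q2, -, q3, q4⟩ := quad α B t hB1 (by
        have := abs_sub_abs_le_abs_sub α ζ
        rw [abs_sub_comm] at this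
        linarith) a b c h0 hr ha hb hc
      have q5 := one_le_ht Q q1.ne_zero
      have q6 : 0 < |ζ - α| := abs_pos.2 (sub_ne_zero.2 (fun e => hζ ⟨Q, q1.ne_zero, e ▸ q3⟩))
      have q7 : (ht Q)⁻¹ * (W ^ (k + 1))⁻¹ < |ζ - α| :=
        not_le.1 (fun hle => hno α Q ⟨q1, q2, q3, q4.trans hBt, q6, hle⟩)
      rw [← mul_inv, inv_lt_iff_one_lt_mul₀ (by positivity)] at q7
      refine q7.le.trans ?_
      rw [mul_assoc]
      gcongr
    · have t1 : 1 ≤ t := by
        by_contra hc'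
        have i1 : |a| < 1 := by exact_mod_cast ha.trans_lt (not_le.1 hc')
        have i2 : |b| < 1 := by exact_mod_cast hb.trans_lt (not_le.1 hc')
        have i3 : |c| < 1 := by exact_mod_cast hc.trans_lt (not_le.1 hc')
        exact h0 (by rw [Int.abs_lt_one_iff.1 i1, Int.abs_lt_one_iff.1 i2,
          Int.abs_lt_one_iff.1 i3]; rfl)
      have t2 : 1 ≤ W ^ (k + 1) := one_le_pow₀ (by linarith)
      exact one_le_mul_of_one_le_of_one_le (one_le_mul_of_one_le_of_one_le (not_le.1 hα).le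
        (one_le_mul_of_one_le_of_one_le hB1 t1)) t2
  set Y := W ^ (4 * N) with hY
  have hY1 : 1 ≤ Y := one_le_pow₀ (by linarith)
  have eY : W ^ k = Y * W ^ 5 := by rw [hk, pow_add]
  have eY1 : W ^ (k + 1) = Y * W ^ 6 := by rw [pow_succ, eY]; ring
  rw [eY1, eY] at hH
  have hB0 : 0 < B := by linarith
  set T := Y * W ^ 5 / (3 * B ^ 3) with hT
  have hT0 : 0 < T := by positivity
  set U := 1 / (W ^ 3 * T) with hU
  have hU0 : 0 < U := by positivity
  have eUT : U * T = 1 / W ^ 3 := by rw [hU]; field_simp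
  have hW2 : W ≤ W ^ 2 := by nlinarith
  have hW3 : W ≤ W ^ 3 := le_self_pow₀ (by linarith) (by norm_num)
  have hT1 : 1 ≤ T := by
    rw [hT, le_div_iff₀ (by positivity)]
    have : W ≤ W ^ 5 := le_self_pow₀ (by linarith) (by norm_num)
    have := hBp 3 (by norm_num)
    have : 0 < B ^ 3 := by positivity
    nlinarith
  have hU1 : U ≤ 1 := by
    rw [hU, div_le_one (by positivity)]
    nlinarith
  obtain ⟨S, hS1, hS2⟩ := pig ζ B T U (T / (8 * B ^ 2 * W ^ 3)) le_rfl hU0 hU1 hT0 (by positivity)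
    (le_of_eq (by rw [hU]; field_simp; ring))
  have eM : T / (8 * B ^ 2 * W ^ 3) = Y * W ^ 2 / (24 * B ^ 5) := by rw [hT]; field_simp; ring
  obtain ⟨p, q, hq, q1, q2⟩ := core ζ U T (6 * B ^ 3 * Y * W ^ 3) (T / (8 * B ^ 2 * W ^ 3)) S hU0 hT0
    (by
      have : 1 ≤ B ^ 3 * Y := one_le_mul_of_one_le_of_one_le (one_le_pow₀ hB1) hY1
      nlinarith)
    (by rw [eUT]; exact one_div_le_one_div_of_le (by norm_num) (by linarith))
    (by
      rw [hT, ← mul_div_assoc, lt_div_iff₀ (by positivity)]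
      have a1 := hBp 6 (by norm_num)
      have a2 : 0 < B ^ 6 := by positivity
      have a3 : 0 < Y * W ^ 3 := by positivity
      have : 81 * B ^ 6 * (Y * W ^ 3) < W ^ 2 * (Y * W ^ 3) := by gcongr; linarith
      nlinarith)
    (by
      rw [eM, le_div_iff₀ (by positivity)]
      have a1 := hBp 5 (by norm_num)
      have a2 : 0 < B ^ 5 := by positivity
      nlinarith)
    hS1
    (by
      rw [eM, div_pow, le_div_iff₀ (by positivity)]
      have a1 := hBp 13 (by norm_num)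
      have a2 : 0 < B ^ 13 := by positivity
      have a3 : 10 ^ 9 * B ^ 13 * (Y * W ^ 3) ≤ (W * Y) * (Y * W ^ 3) :=
        mul_le_mul_of_nonneg_right (by nlinarith) (by positivity)
      have a4 : 0 < B ^ 13 * (Y * W ^ 3) := by positivity
      nlinarith)
    (by
      rw [eM, eUT, div_pow (Y * W ^ 2), lt_div_iff₀ (by positivity)]
      have a0 : (1 / W ^ 3) ^ 2 ≤ B ^ 6 * (Y ^ 2 * W ^ 3) := by
        have b1 : 1 / W ^ 3 ≤ 1 := by rw [div_le_one (by positivity)]; linarith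
        have b2 : (1 / W ^ 3) ^ 2 ≤ 1 := pow_le_one₀ (by positivity) b1
        exact b2.trans (one_le_mul_of_one_le_of_one_le (one_le_pow₀ hB1)
          (one_le_mul_of_one_le_of_one_le (one_le_pow₀ hY1) (by linarith)))
      have a1 : (6 * B ^ 3 * Y * W ^ 3) ^ 2 * (1 / W ^ 3) = 36 * (B ^ 6 * (Y ^ 2 * W ^ 3)) := by
        field_simp; ring
      rw [a1]
      have a2 : 5184 * (36 * (B ^ 6 * (Y ^ 2 * W ^ 3)) + (1 / W ^ 3) ^ 2) * (24 * B ^ 5) ^ 2
          ≤ 5184 * (37 * (B ^ 6 * (Y ^ 2 * W ^ 3))) * (24 * B ^ 5) ^ 2 := by gcongr; linarith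
      have a3 : 10 ^ 9 * B ^ 16 * (Y ^ 2 * W ^ 3) ≤ W * (Y ^ 2 * W ^ 3) := by gcongr
      have a4 : 0 < B ^ 16 * (Y ^ 2 * W ^ 3) := by positivity
      nlinarith)
    hS2
    (by
      rintro ⟨a, b, c⟩ hP l l0 l3 h1 h2 h3
      by_cases hd : fv ζ (a, b, c) ^ 2 ≤ 4 * |fu ζ (a, b, c)| * |fw (a, b, c)|
      · exact Or.inl hd
      right
      obtain ⟨s, s1, s2⟩ := root _ _ _ (not_le.1 hd)
      have h1' : |fu ζ (a, b, c)| ≤ l * T := h1.trans (by gcongr; linarith)
      have lT : 0 ≤ l * T := by positivity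
      have := hH a b c (ζ + s) (B ^ 2 * (l * T)) hP
        (by simp only [fu, fv, fw] at s1; linear_combination s1)
        (by
          have : 1 ≤ B ^ 2 := one_le_pow₀ hB1
          simp only [fw] at h3; nlinarith)
        (by
          have e : (b : ℝ) = fv ζ (a, b, c) - 2 * (ζ * fw (a, b, c)) := by simp only [fv, fw]; ring
          rw [e]
          refine (abs_sub _ _).trans ?_
          rw [abs_mul, abs_mul, abs_two]
          have : |ζ| * |fw (a, b, c)| ≤ |ζ| * (l * T) := by gcongr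
          have : (1 + 2 * |ζ|) * (l * T) ≤ B ^ 2 * (l * T) := by gcongr; nlinarith
          linarith)
        (by
          have e : (c : ℝ) = fu ζ (a, b, c) - ζ * fv ζ (a, b, c) + ζ ^ 2 * fw (a, b, c) := by
            simp only [fu, fv, fw]; ring
          rw [e]
          refine (abs_add_le _ _).trans ((add_le_add_left (abs_sub _ _) _).trans ?_)
          rw [abs_mul, abs_mul, abs_pow]
          have : |ζ| * |fv ζ (a, b, c)| ≤ |ζ| * (l * T) := by gcongr
          have : |ζ| ^ 2 * |fw (a, b, c)| ≤ |ζ| ^ 2 * (l * T) := by gcongr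
          have : (1 + |ζ| + |ζ| ^ 2) * (l * T) ≤ B ^ 2 * (l * T) := by gcongr; nlinarith
          linarith)
        (by
          have : B * (B ^ 2 * (l * T)) = l / 3 * (Y * W ^ 5) := by rw [hT]; field_simp
          rw [this]
          exact mul_le_of_le_one_left (by positivity) (by linarith))
      rw [show ζ - (ζ + s) = -s by ring, abs_neg] at this
      calc |fv ζ (a, b, c)| ≤ |fv ζ (a, b, c)| * (|s| * (B * (B ^ 2 * (l * T))) * (Y * W ^ 6)) :=
            le_mul_of_one_le_right (abs_nonneg _) this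
        _ = |s| * |fv ζ (a, b, c)| * (B * (B ^ 2 * (l * T)) * (Y * W ^ 6)) := by ring
        _ ≤ 2 * (l * U) * (B * (B ^ 2 * (l * T)) * (Y * W ^ 6)) :=
            mul_le_mul_of_nonneg_right (by linarith) (by positivity)
        _ = 2 * l ^ 2 * B ^ 3 * (U * T) * (Y * W ^ 6) := by ring
        _ = _ := by rw [eUT]; field_simp; ring)
    (by
      intro r r1 r2
      have hq : (1 : ℝ) ≤ r.den := by exact_mod_cast r.pos
      have r4 : |(r : ℝ)| ≤ B := by
        have := abs_sub_abs_le_abs_sub (r : ℝ) ζ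
        rw [abs_sub_comm] at this
        linarith
      have := hH 0 r.den (-r.num) r (B * r.den) (by simp) (by
          have : (r.num : ℝ) = r * r.den := by exact_mod_cast (Rat.mul_den_eq_num r).symm
          push_cast; rw [this]; ring)
        (by simp; positivity) (by simp; nlinarith) (by simpa using num_le r B r4) (by
          have e : Y * W ^ 5 = 3 * B ^ 3 * T := by rw [hT]; field_simp
          rw [e]
          have : B ^ 2 * r.den ≤ (3 * B ^ 3) * T := by gcongr; nlinarith [pow_pos hB0 2]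
          linarith)
      rw [eUT, div_le_iff₀ (by positivity)]
      refine this.trans ?_
      have a1 : 0 ≤ |ζ - r| * r.den * (Y * W ^ 6) := by positivity
      have a2 : B ^ 2 ≤ 6 * B ^ 3 := by nlinarith [pow_pos hB0 2]
      nlinarith)
  have hq' : (0 : ℝ) < q := by exact_mod_cast hq
  have f1 : |ζ - p / q| ≤ 576 * B ^ 2 / T := by
    rcases q2 with q2 | q2
    · refine abs_le.2 (abs_le_of_sq_le_sq' (b := 576 * B ^ 2 / T) (q2.trans ?_) (by positivity))
      have : 36 * U / (T / (8 * B ^ 2 * W ^ 3)) = 288 * B ^ 2 / T ^ 2 := by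
        rw [hU]; field_simp; ring
      rw [this, div_pow (576 * B ^ 2)]
      refine div_le_div_of_nonneg_right ?_ (sq_nonneg T)
      have : 1 ≤ B ^ 2 := one_le_pow₀ hB1
      nlinarith
    · refine q2.trans (le_of_eq ?_)
      rw [eUT]; field_simp; ring
  have f2 : 2 * (q : ℝ) ≤ W ^ 4 := by
    have : 72 * T / (T / (8 * B ^ 2 * W ^ 3)) = 576 * B ^ 2 * W ^ 3 := by field_simp; ring
    rw [this] at q1
    have a1 : 10 ^ 9 * B ^ 2 * W ^ 3 ≤ W * W ^ 3 := by gcongr; exact hBp 2 (by norm_num)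
    have a2 : 0 < B ^ 2 * W ^ 3 := by positivity
    nlinarith
  have e2 : ((2 * p : ℤ) : ℝ) / ((2 * q : ℤ) : ℝ) = p / q := by push_cast; field_simp
  refine ⟨2 * p, 2 * q, by omega, ?_, ?_⟩
  · rw [e2]
    exact (Transcendental.irrational (fun h => hζ ((IsFractionRing.isAlgebraic_iff ℤ ℚ ℝ).2 h))).ne_rational p q
  · rw [e2, lt_div_iff₀ (by positivity)]
    have a1 : (((2 * q : ℤ) : ℝ)) ^ N ≤ Y := by
      rw [hY, pow_mul]; push_cast; gcongr
    have a2 : 576 * B ^ 2 / T * Y < 1 := by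
      have : 576 * B ^ 2 / T * Y = 1728 * B ^ 5 / W ^ 5 := by rw [hT]; field_simp; ring
      rw [this, div_lt_one (by positivity)]
      have : W ≤ W ^ 5 := le_self_pow₀ (by linarith) (by norm_num)
      have := hBp 5 (by norm_num)
      have : 0 < B ^ 5 := by positivity
      linarith
    exact lt_of_le_of_lt (by gcongr) a2

/-- A transcendental real ζ is Liouville iff for every n ≥ 1 the uniform exponent ŵ_n^*(ζ) equals 1. Here ŵ_n^*(ζ) is the supremum of w such that for all large H some real algebraic α of degree ≤ n, height ≤ H, has 0<∣ζ−α∣ ≤ H(α)^{-1}H^{-w}. -/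
theorem result :
    ∀ ζ : ℝ, Transcendental ℤ ζ →
      (Liouville ζ ↔
        ∀ n : ℕ, 1 ≤ n →
          IsLUB
            {w : ℝ | ∃ H₀ : ℝ, ∀ H : ℝ, H₀ ≤ H →
              ∃ α : ℝ, ∃ P : Polynomial ℤ,
                Irreducible P ∧ P.natDegree ≤ n ∧ Polynomial.aeval α P = 0 ∧
                (((Finset.range (P.natDegree + 1)).sup (fun i => (P.coeff i).natAbs) : ℕ) : ℝ) ≤ H ∧
                0 < |ζ - α| ∧
                |ζ - α| ≤
                  ((((Finset.range (P.natDegree + 1)).sup (fun i => (P.coeff i).natAbs) : ℕ) : ℝ))⁻¹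
                    * H ^ (-w)}
            1) := by
  intro ζ hζ
  refine ⟨fun hL n hn => ⟨fun w hw => upper ζ hL n w hw, fun b hb => ?_⟩,
    fun h => conv ζ hζ (fun w hw => (h 2 one_le_two).1 hw)⟩
  exact le_of_forall_lt_imp_le_of_dense (fun w hw => hb (lower ζ hL.irrational n hn w hw))

end Pool.Agent.S17709
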