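import Pool.Statements.S15877
import Pool.Agent.S17709

set_option autoImplicit false
open Pool Pool.MP_03368a_nt

namespace Pool.Agent.S15877

open Polynomial Pool.Agent.S17709 Filter

lemma dirich (α : ℝ) (hα : Irrational α) (N : ℝ) :
    ∃ x : ℚ, N ≤ x.den ∧ |α - x| * (x.den : ℝ) ^ 2 ≤ 1 := by
  obtain ⟨ε, hε0, hε⟩ : ∃ ε : ℝ, 0 < ε ∧ ∀ r : ℚ, r.den ≤ ⌈N⌉₊ → ε ≤ dist α r :=
    (eventually_mem_nhdsWithin.and
      ((hα.eventually_forall_le_dist_cast_rat_of_den_le ⌈N⌉₊).filter_mono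
        (nhdsWithin_le_nhds (s := Set.Ioi 0)))).exists
  obtain ⟨n, hn⟩ := exists_nat_one_div_lt hε0
  obtain ⟨x, x1, x2⟩ := Real.exists_rat_abs_sub_le_and_den_le α (n := n + 1) (by omega)
  have hq : (1 : ℝ) ≤ x.den := by exact_mod_cast x.pos
  have x2' : (x.den : ℝ) ≤ n + 1 := by exact_mod_cast x2
  push_cast at x1
  rw [le_div_iff₀ (by positivity)] at x1
  have a0 := abs_nonneg (α - x)
  refine ⟨x, ?_, ?_⟩
  · by_contra hc
    have h1 : x.den ≤ ⌈N⌉₊ := by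
      have : (x.den : ℝ) ≤ ⌈N⌉₊ := (not_le.1 hc).le.trans (Nat.le_ceil N)
      exact_mod_cast this
    have h2 := hε x h1
    rw [Real.dist_eq] at h2
    rw [div_lt_iff₀ (by positivity)] at hn
    have : |α - x| * ((n + 1) * 1) ≤ |α - x| * ((n + 1 + 1) * x.den) := by gcongr; linarith
    have : ε * (n + 1) ≤ |α - x| * (n + 1) := by gcongr
    linarith
  · have : |α - x| * (x.den : ℝ) ^ 2 ≤ |α - x| * ((n + 1 + 1) * x.den) := by gcongr; nlinarith
    linarith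

lemma newquad (x : ℚ) (hq : 2 ≤ x.den) (hx : |(x : ℝ)| ≤ 3) (Q : ℝ) (hQ : (x.den : ℝ) ≤ Q) :
    ∃ (β : ℝ) (a b c : ℤ), Irrational β ∧ (a, b, c) ≠ 0 ∧ a * β ^ 2 + b * β + c = 0 ∧
      |(a : ℝ)| ≤ 16 * Q ∧ |(b : ℝ)| ≤ 16 * Q ∧ |(c : ℝ)| ≤ 16 * Q ∧
      1 / 3 ≤ |β - x| * ((x.den : ℝ) ^ 2 * Q) ∧ |β - x| * ((x.den : ℝ) ^ 2 * Q) ≤ 2 := by
  set p := x.num with hp
  set q : ℤ := (x.den : ℤ) with hqd
  have hq2 : 2 ≤ q := by rw [hqd]; exact_mod_cast hq
  have hq' : (2 : ℝ) ≤ q := by exact_mod_cast hq2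
  have eq : (x.den : ℝ) = q := by rw [hqd]; simp
  have ex : (x : ℝ) = p / q := by rw [Rat.cast_def, ← eq]
  rw [eq] at hQ ⊢
  obtain ⟨a0, c0, h0⟩ : IsCoprime (p ^ 2) (q ^ 2) := (Rat.isCoprime_num_den x).pow
  set a := a0 % q with ha
  set j := a0 / q with hj
  have ea : a0 = a + q * j := (Int.emod_add_mul_ediv a0 q).symm
  have a1 : 0 ≤ a := Int.emod_nonneg _ (by omega)
  have a2 : a < q := Int.emod_lt_of_pos _ (by omega)
  set m := ⌈(Q - (2 * a * x + p * j)) / q⌉ with hm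
  have m1 : (Q - (2 * a * x + p * j)) / q ≤ m := Int.le_ceil _
  have m2 : (m : ℝ) < (Q - (2 * a * x + p * j)) / q + 1 := Int.ceil_lt_add_one _
  set b := p * j + q * m with hb
  set c := c0 - p * m with hc
  have e1 : a * p ^ 2 + b * (p * q) + c * q ^ 2 = 1 := by
    rw [hb, hc]; rw [ea] at h0; linear_combination h0
  have a3 : a ≠ 0 := by
    intro h
    rw [h] at e1
    have : q ∣ 1 := ⟨b * p + c * q, by linear_combination -e1⟩
    have := Int.le_of_dvd one_pos this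
    omega
  set v : ℝ := 2 * a * x + b with hv
  have v1 : Q ≤ v := by
    rw [div_le_iff₀ (by linarith)] at m1
    rw [hv, hb]; push_cast; linarith
  have v2 : v ≤ 2 * Q := by
    rw [← sub_lt_iff_lt_add, lt_div_iff₀ (by linarith)] at m2
    rw [hv, hb]; push_cast; linarith
  have eu : a * (x : ℝ) ^ 2 + b * x + c = 1 / (q : ℝ) ^ 2 := by
    have : (a : ℝ) * p ^ 2 + b * (p * q) + c * q ^ 2 = 1 := by exact_mod_cast e1
    rw [ex]; field_simp; linear_combination this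
  have a1' : (0 : ℝ) ≤ a := by exact_mod_cast a1
  have a2' : (a : ℝ) ≤ q := by exact_mod_cast a2.le
  have u0 : (0 : ℝ) < 1 / (q : ℝ) ^ 2 := by positivity
  have u1 : 1 / (q : ℝ) ^ 2 * q ≤ 1 / 2 := by
    rw [div_mul_eq_mul_div, div_le_iff₀ (by positivity)]; nlinarith
  obtain ⟨s, s1, s2⟩ := root (1 / (q : ℝ) ^ 2) v a (by
    rw [abs_of_pos u0, abs_of_nonneg a1']
    have : 1 / (q : ℝ) ^ 2 * a ≤ 1 / (q : ℝ) ^ 2 * q := by gcongr
    nlinarith)
  rw [abs_of_pos u0, abs_of_pos (show 0 < v by linarith)] at s2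
  have s0 := abs_nonneg s
  have s3 : |s| * Q ≤ 2 * (1 / (q : ℝ) ^ 2) := le_trans (by gcongr) s2
  have s4 : |s| * q ≤ 1 := by
    have : |s| * q ≤ |s| * Q := by gcongr
    nlinarith
  have er : a * (x + s) ^ 2 + b * (x + s) + c = 0 := by linear_combination s1 + eu
  refine ⟨x + s, a, b, c, ?_, by simp [a3], er, by rw [abs_of_nonneg a1']; linarith, ?_, ?_, ?_, ?_⟩
  · rintro ⟨y, hy⟩
    set S := 2 * a * p + b * q with hS
    have eS : (S : ℝ) = q * v := by rw [hS, hv, ex]; push_cast; field_simp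
    have h1 : IsSquare (S ^ 2 - 4 * a) := by
      rw [← Rat.isSquare_intCast_iff]
      refine ⟨q * (2 * a * y + b), ?_⟩
      rw [← hy] at er
      have er' : (a : ℚ) * y ^ 2 + b * y + c = 0 := by exact_mod_cast er
      have e1' : (a : ℚ) * p ^ 2 + b * (p * q) + c * q ^ 2 = 1 := by exact_mod_cast e1
      rw [hS]; push_cast
      linear_combination 4 * a * e1' - 4 * a * q ^ 2 * er'
    obtain ⟨d, hd⟩ := h1
    have h2 : q * q ≤ S := by
      have : (q : ℝ) * q ≤ S := by rw [eS]; gcongr; linarith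
      exact_mod_cast this
    have h3 : |d| < S := abs_lt_of_sq_lt_sq (by nlinarith [lt_of_le_of_ne a1 a3.symm]) (by nlinarith)
    have h4 : |d| * |d| ≤ (S - 1) * (S - 1) :=
      mul_self_le_mul_self (abs_nonneg _) (by omega)
    rw [abs_mul_abs_self] at h4
    nlinarith
  · rw [show (b : ℝ) = v - 2 * (a * x) by rw [hv]; ring]
    refine (abs_sub _ _).trans ?_
    rw [abs_mul, abs_mul, abs_two, abs_of_nonneg a1', abs_of_pos (show 0 < v by linarith)]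
    have : a * |(x : ℝ)| ≤ q * 3 := by gcongr
    linarith
  · rw [show (c : ℝ) = 1 / (q : ℝ) ^ 2 - v * x + a * x ^ 2 by rw [← eu, hv]; ring]
    refine (abs_add_le _ _).trans ((add_le_add_left (abs_sub _ _) _).trans ?_)
    rw [abs_mul, abs_mul, abs_pow, abs_of_nonneg a1', abs_of_pos (show 0 < v by linarith),
      abs_of_pos u0]
    have : a * |(x : ℝ)| ^ 2 ≤ q * 3 ^ 2 := by gcongr
    have : v * |(x : ℝ)| ≤ 2 * Q * 3 := by gcongr; linarith
    nlinarith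
  · rw [add_sub_cancel_left]
    have h1 : 1 / (q : ℝ) ^ 2 = |s| * |a * s + v| := by
      rw [← abs_mul, ← abs_of_pos u0, ← abs_neg]; congr 1; linear_combination -s1
    have h2 : |a * s + v| ≤ 3 * Q := by
      refine (abs_add_le _ _).trans ?_
      rw [abs_mul, abs_of_nonneg a1', abs_of_pos (show 0 < v by linarith)]
      have : a * |s| ≤ q * |s| := by gcongr
      linarith
    have h3 : 1 / (q : ℝ) ^ 2 ≤ |s| * (3 * Q) := by rw [h1]; gcongr
    rw [div_le_iff₀ (by positivity)] at h3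
    linarith
  · rw [add_sub_cancel_left]
    rw [mul_one_div, le_div_iff₀ (by positivity)] at s3
    linarith

def Qd (α h : ℝ) : Prop := ∃ a b c : ℤ, (a, b, c) ≠ 0 ∧ a * α ^ 2 + b * α + c = 0 ∧
  |(a : ℝ)| ≤ h ∧ |(b : ℝ)| ≤ h ∧ |(c : ℝ)| ≤ h

def St := {x : ℝ × ℝ × ℝ // Irrational x.1 ∧ 0 < x.2.1 ∧ |x.1| + x.2.1 ≤ 2 ∧ 0 ≤ x.2.2 ∧
  Qd x.1 x.2.2}

lemma step (s : ℝ) (hs : 1 ≤ s) (k : ℕ) (x : St) : ∃ (y : St) (r : ℚ),
    (x.1.2.2 + 2) ^ (k + 1) ≤ r.den ∧ y.1.2.2 = 16 * (r.den : ℝ) ^ s ∧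
    |y.1.1 - x.1.1| + y.1.2.1 ≤ x.1.2.1 ∧ |(r : ℝ)| ≤ 3 ∧ ∀ ξ : ℝ, |ξ - y.1.1| ≤ y.1.2.1 →
      1 / 6 ≤ |ξ - r| * ((r.den : ℝ) ^ 2 * (r.den : ℝ) ^ s) ∧
      |ξ - r| * ((r.den : ℝ) ^ 2 * (r.den : ℝ) ^ s) ≤ 3 ∧ |ξ - x.1.1| * (r.den : ℝ) ^ 2 ≤ 4 := by
  obtain ⟨⟨α, ρ, h⟩, h1, h2, h3, h4, h5⟩ := x
  simp only at h1 h2 h3 h4 h5 ⊢
  obtain ⟨r, r1, r2⟩ := dirich α h1 (max ((h + 2) ^ (k + 1)) (max 2 (6 / ρ)))
  simp only [max_le_iff] at r1
  obtain ⟨r1, r3, r4⟩ := r1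
  set q : ℝ := (r.den : ℝ) with hq
  have a0 := abs_nonneg (α - r)
  have r5 : |α - r| ≤ 1 := by nlinarith
  have r6 : |(r : ℝ)| ≤ 3 := by
    have := abs_sub_abs_le_abs_sub (r : ℝ) α
    rw [abs_sub_comm] at this
    linarith
  have hQ : q ≤ q ^ s := by
    have := Real.rpow_le_rpow_of_exponent_le (show 1 ≤ q by linarith) hs
    rwa [Real.rpow_one] at this
  obtain ⟨β, a, b, c, b1, b2, b3, b4, b5, b6, b7, b8⟩ := newquad r (by rw [hq] at r3; exact_mod_cast r3) r6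
    (q ^ s) hQ
  rw [← hq] at b7 b8
  set Q := q ^ s with hQd
  have b0 := abs_nonneg (β - r)
  have b9 : |β - r| * q ^ 2 ≤ 2 := by
    have : |β - r| * (q ^ 2 * 1) ≤ |β - r| * (q ^ 2 * Q) := by gcongr; linarith
    linarith
  have c1 : |β - α| * q ^ 2 ≤ 3 := by
    have := abs_sub_le β r α
    rw [abs_sub_comm (r : ℝ) α] at this
    have : |β - α| * q ^ 2 ≤ (|β - r| + |α - r|) * q ^ 2 := by gcongr
    linarith
  have c2 : |β - α| ≤ ρ / 2 := by
    rw [div_le_iff₀ h2] at r4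
    refine le_of_mul_le_mul_right (a := q ^ 2) ?_ (by positivity)
    nlinarith
  have hD : 0 < q ^ 2 * Q := by positivity
  set ρ' := min (ρ / 2) (1 / 6 / (q ^ 2 * Q)) with hρ
  have p1 : ρ' ≤ ρ / 2 := min_le_left _ _
  have p2 : ρ' * (q ^ 2 * Q) ≤ 1 / 6 := (le_div_iff₀ hD).1 (min_le_right _ _)
  refine ⟨⟨(β, ρ', 16 * Q), b1, lt_min (by linarith) (by positivity), ?_, by positivity,
    a, b, c, b2, b3, b4, b5, b6⟩, r, r1, rfl, by simp only; linarith, r6, fun ξ hξ => ?_⟩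
  · have := abs_sub_abs_le_abs_sub β α
    simp only; linarith
  · simp only at hξ
    rw [← hq, ← hQd]
    have d1 : |ξ - β| * (q ^ 2 * Q) ≤ 1 / 6 := le_trans (by gcongr) p2
    have d2 := abs_sub_le ξ β r
    have d3 := abs_sub_le β ξ r
    rw [abs_sub_comm β ξ] at d3
    have d4 : |ξ - r| * (q ^ 2 * Q) ≤ (|ξ - β| + |β - r|) * (q ^ 2 * Q) := by gcongr
    have d5 : |β - r| * (q ^ 2 * Q) ≤ (|ξ - β| + |ξ - r|) * (q ^ 2 * Q) := by gcongr
    have d6 : |ξ - β| * (q ^ 2 * 1) ≤ |ξ - β| * (q ^ 2 * Q) := by gcongr; linarith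
    have d7 : |ξ - α| * q ^ 2 ≤ (|ξ - β| + |β - α|) * q ^ 2 := by gcongr; exact abs_sub_le _ _ _
    exact ⟨by linarith, by linarith, by linarith⟩

lemma build (s : ℝ) (hs : 1 ≤ s) : ∃ (ξ : ℝ) (α h : ℕ → ℝ) (r : ℕ → ℚ), |ξ| ≤ 2 ∧ ∀ k,
    Qd (α k) (h k) ∧ |α k| ≤ 3 ∧ 0 ≤ h k ∧ (h k + 2) ^ (k + 1) ≤ (r k).den ∧
    h (k + 1) = 16 * ((r k).den : ℝ) ^ s ∧ |(r k : ℝ)| ≤ 3 ∧
    1 / 6 ≤ |ξ - r k| * (((r k).den : ℝ) ^ 2 * ((r k).den : ℝ) ^ s) ∧
    |ξ - r k| * (((r k).den : ℝ) ^ 2 * ((r k).den : ℝ) ^ s) ≤ 3 ∧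
    |ξ - α k| * ((r k).den : ℝ) ^ 2 ≤ 4 := by
  choose f g hf using step s hs
  have h2 : (1 : ℝ) < √2 ∧ √2 < 3 / 2 :=
    ⟨Real.lt_sqrt_of_sq_lt (by norm_num), Real.sqrt_lt' (by norm_num) |>.2 (by norm_num)⟩
  let x0 : St := ⟨(√2, 1 / 2, 2), irrational_sqrt_two, by norm_num, by
    simp only; rw [abs_of_pos (by linarith [h2.1])]; linarith [h2.2], by norm_num,
    1, 0, -2, by simp, by simp, by simp, by simp, by simp⟩
  let x : ℕ → St := fun k => Nat.rec x0 (fun k y => f k y) k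
  have hx : ∀ k, x (k + 1) = f k (x k) := fun k => rfl
  obtain ⟨ξ, hξ⟩ := IsCompact.nonempty_iInter_of_sequence_nonempty_isCompact_isClosed
    (fun k => Metric.closedBall (x k).1.1 (x k).1.2.1) (fun k => Metric.closedBall_subset_closedBall' (by
      rw [Real.dist_eq, hx, add_comm]; exact (hf k (x k)).2.2.1))
    (fun k => Metric.nonempty_closedBall.2 (x k).2.2.1.le) (isCompact_closedBall _ _)
    (fun k => Metric.isClosed_closedBall)
  have hξ' : ∀ k, |ξ - (x k).1.1| ≤ (x k).1.2.1 := fun k => by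
    have := Set.mem_iInter.1 hξ k
    rwa [Metric.mem_closedBall, Real.dist_eq] at this
  refine ⟨ξ, fun k => (x k).1.1, fun k => (x k).1.2.2, fun k => g k (x k), ?_, fun k => ?_⟩
  · have := abs_sub_abs_le_abs_sub ξ (x 0).1.1
    linarith [hξ' 0, (x 0).2.2.2.1]
  · obtain ⟨a1, a2, -, a3, a4⟩ := hf k (x k)
    exact ⟨(x k).2.2.2.2.2, by linarith [(x k).2.2.2.1, (x k).2.2.1], (x k).2.2.2.2.1, a1, a2, a3,
      a4 ξ (hξ' (k + 1))⟩

lemma den_le_ht (P : ℤ[X]) (hP : P ≠ 0) (hd : P.natDegree ≤ 2) (r : ℚ)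
    (h : aeval (r : ℝ) P = 0) : (r.den : ℝ) ≤ ht P := by
  rw [aeval_eq_sum_range' (n := 3) (by omega)] at h
  simp only [Finset.sum_range_succ, Finset.range_zero, Finset.sum_empty, zsmul_eq_mul] at h
  have hq : (r.den : ℝ) ≠ 0 := by exact_mod_cast r.den_nz
  have e : P.coeff 0 * (r.den : ℤ) ^ 2 + P.coeff 1 * r.num * r.den + P.coeff 2 * r.num ^ 2 = 0 := by
    have : (P.coeff 0 : ℝ) * (r.den : ℝ) ^ 2 + P.coeff 1 * r.num * r.den
        + P.coeff 2 * r.num ^ 2 = 0 := by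
      rw [Rat.cast_def] at h
      field_simp at h
      linear_combination h
    exact_mod_cast this
  have cp := (Rat.isCoprime_num_den r).symm
  have key : ∀ i, P.coeff i ≠ 0 → (r.den : ℤ) ∣ P.coeff i → (r.den : ℝ) ≤ ht P := by
    intro i h1 h2
    refine le_trans ?_ (coeff_le_ht P i)
    exact_mod_cast Int.le_of_dvd (abs_pos.2 h1) ((dvd_abs _ _).2 h2)
  by_cases h2 : P.coeff 2 = 0
  · have hq' : (r.den : ℤ) ≠ 0 := by exact_mod_cast r.den_nz
    have e1 : P.coeff 1 * r.num = r.den * -P.coeff 0 := by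
      apply mul_right_cancel₀ hq'
      rw [h2] at e
      linear_combination e
    refine key 1 (fun h1 => hP ?_) (cp.dvd_of_dvd_mul_right ⟨_, e1⟩)
    have h0 : P.coeff 0 = 0 := by
      rw [h1] at e1
      simpa [r.den_nz] using e1
    ext i
    rcases i with _ | _ | _ | i
    · exact h0
    · exact h1
    · exact h2
    · exact coeff_eq_zero_of_natDegree_lt (by omega)
  · exact key 2 h2 ((cp.pow_right (n := 2)).dvd_of_dvd_mul_right
      ⟨-(P.coeff 0 * r.den + P.coeff 1 * r.num), by linear_combination e⟩)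

lemma liou (P : ℤ[X]) (hd : P.natDegree ≤ 2) (r : ℚ) (α : ℝ) (hr : |(r : ℝ)| ≤ 3) (hα : |α| ≤ 3)
    (h : aeval α P = 0) (h2 : aeval (r : ℝ) P ≠ 0) :
    1 ≤ (r.den : ℝ) ^ 2 * (54 * (ht P * |r - α|)) := by
  have l1 := one_le_pow_mul_abs_eval_div (K := ℝ) (f := P) (a := r.num) (b := r.den)
    (by exact_mod_cast r.pos) (by rwa [eval_map_algebraMap, Int.cast_natCast, ← Rat.cast_def])
  rw [eval_map_algebraMap, Int.cast_natCast, ← Rat.cast_def] at l1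
  have l2 := lip P 2 hd r α 3 (by norm_num) hr hα
  rw [h, sub_zero] at l2
  have hq : (1 : ℝ) ≤ r.den := by exact_mod_cast r.pos
  refine l1.trans (mul_le_mul (pow_le_pow_right₀ hq hd) (l2.trans (le_of_eq ?_)) (abs_nonneg _)
    (by positivity))
  norm_num

theorem main (v : ℝ) (h1 : 1 < v) (h2 : v ≤ 2) : ∃ ξ : ℝ,
    (∀ Q : ℤ[X], Q ≠ 0 → Q.natDegree ≤ 2 → aeval ξ Q ≠ 0) ∧ (∀ w < v, w ∈ Ex ξ 2) ∧
      ∀ w, v < w → w ∉ Ex ξ 2 := by
  set s := 1 / (v - 1) with hs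
  have hv : 0 < v - 1 := by linarith
  have hs1 : 1 ≤ s := by rw [hs, le_div_iff₀ hv]; linarith
  have esv : s * v = s + 1 := by rw [hs]; field_simp; ring
  obtain ⟨ξ, α, h, r, hξ, H⟩ := build s hs1
  have hq2 : ∀ k, (2 : ℝ) ^ (k + 1) ≤ (r k).den := fun k =>
    le_trans (by gcongr; linarith [(H k).2.2.1]) (H k).2.2.2.1
  have hq1 : ∀ k, (1 : ℝ) ≤ (r k).den := fun k => by exact_mod_cast (r k).pos
  have hqt : Tendsto (fun k => ((r k).den : ℝ)) atTop atTop :=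
    tendsto_atTop_mono hq2 ((tendsto_pow_atTop_atTop_of_one_lt one_lt_two).comp
      (tendsto_add_atTop_nat 1))
  have big : ∀ c : ℝ, 0 < c → ∀ B : ℝ, ∀ᶠ k in atTop, B < ((r k).den : ℝ) ^ c := fun c hc B =>
    ((tendsto_rpow_atTop hc).comp hqt).eventually_gt_atTop B
  have hne : ∀ k, ξ ≠ r k := fun k e => by
    have := (H k).2.2.2.2.2.2.1
    rw [e] at this
    norm_num at this
  have hnq : ∀ Q : ℤ[X], Q ≠ 0 → Q.natDegree ≤ 2 → aeval ξ Q ≠ 0 := by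
    intro Q hQ hd hr
    obtain ⟨P, p1, p2, p3⟩ := irr_factor ξ Q hQ hr
    obtain ⟨k, hk⟩ := (big s (by linarith) (162 * ht P)).exists
    have := liou P ((natDegree_le_of_dvd p2 hQ).trans hd) (r k) ξ (H k).2.2.2.2.2.1 (by linarith) p3
      (fun e => hne k (same_root P p1 ξ (r k) p3 e))
    have a1 := (H k).2.2.2.2.2.2.2.1
    rw [abs_sub_comm] at a1
    have a2 := one_le_ht P p1.ne_zero
    have a3 : ((r k).den : ℝ) ^ s * 1 ≤ ((r k).den : ℝ) ^ s *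
      (((r k).den : ℝ) ^ 2 * (54 * (ht P * |r k - ξ|))) := by gcongr
    nlinarith
  refine ⟨ξ, hnq, fun w hw => ?_, fun w hw => ?_⟩
  · have key : ∀ (β t X w : ℝ), |β| ≤ 3 → Qd β t → 3 * t ≤ X → 0 < X →
        |ξ - β| * (3 * t) * X ^ w ≤ 1 → ∃ α : ℝ, ∃ P : Polynomial ℤ, Irreducible P ∧
        P.natDegree ≤ 2 ∧ Polynomial.aeval α P = 0 ∧ ht P ≤ X ∧
        0 < |ξ - α| ∧ |ξ - α| ≤ (ht P)⁻¹ * X ^ (-w) := by
      rintro β t X w b1 ⟨a, b, c, c1, c2, c3, c4, c5⟩ b2 b3 b4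
      obtain ⟨P, p1, p2, -, p3, p4⟩ := quad β 3 t (by norm_num) b1 a b c c1 c2 c3 c4 c5
      have p5 := one_le_ht P p1.ne_zero
      refine ⟨β, P, p1, p2, p3, p4.trans b2,
        abs_pos.2 (sub_ne_zero.2 (fun e => hnq P p1.ne_zero p2 (e ▸ p3))), ?_⟩
      rw [Real.rpow_neg b3.le, ← mul_inv, ← one_div, le_div_iff₀ (by positivity), ← mul_assoc]
      refine le_trans ?_ b4
      gcongr
    set u := max w 0 with hu
    have u0 : 0 ≤ u := le_max_right _ _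
    have u1 : u < v := max_lt hw (by linarith)
    have u2 : 0 < s + 1 - s * u := by nlinarith
    obtain ⟨K, hK⟩ := eventually_atTop.1 ((big _ u2 (27 * 48 ^ 2)).and
      (tendsto_natCast_atTop_atTop.eventually_ge_atTop (11 / (2 - u))))
    refine ⟨max 1 (3 * h K), fun X hX => ?_⟩
    rw [max_le_iff] at hX
    have hXu : X ^ w ≤ X ^ u := Real.rpow_le_rpow_of_exponent_le hX.1 (le_max_left _ _)
    have hQ : ∀ k, ((r k).den : ℝ) ≤ ((r k).den : ℝ) ^ s := fun k => by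
      have := Real.rpow_le_rpow_of_exponent_le (hq1 k) hs1
      rwa [Real.rpow_one] at this
    have hex : ∃ j, X < 3 * h (K + j + 1) := by
      obtain ⟨j, hj⟩ := (((tendsto_add_atTop_iff_nat K).2 hqt).eventually_gt_atTop X).exists
      refine ⟨j, ?_⟩
      rw [(H (K + j)).2.2.2.2.1, add_comm K j]
      linarith [hQ (j + K), hq1 (j + K)]
    obtain ⟨k, k1, k2, k3⟩ : ∃ k, K ≤ k ∧ 3 * h k ≤ X ∧ X < 3 * h (k + 1) := by
      classical
      refine ⟨K + Nat.find hex, by omega, ?_, Nat.find_spec hex⟩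
      rcases e : Nat.find hex with _ | j
      · exact hX.2
      · exact not_lt.1 (Nat.find_min hex (m := j) (by omega))
    obtain ⟨g1, g2, g3, g4, g5, g6, -, g7, g8⟩ := H k
    obtain ⟨K1, K2⟩ := hK k k1
    have q1 := hq1 k
    set q : ℝ := ((r k).den : ℝ) with hq
    by_cases hc : X ≤ 9 * q
    · refine key (α k) (h k) X w g2 g1 k2 (by linarith) ?_
      have a1 : X ^ u ≤ 81 * q ^ u := by
        calc X ^ u ≤ (9 * q) ^ u := by gcongr; linarith
          _ = 9 ^ u * q ^ u := Real.mul_rpow (by norm_num) (by linarith)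
          _ ≤ 9 ^ (2 : ℝ) * q ^ u := by gcongr; norm_num; linarith
          _ = _ := by norm_num
      have a2 : 972 * h k ≤ q ^ (2 - u) := by
        have hu2 : 0 < 2 - u := by linarith
        rw [div_le_iff₀ hu2] at K2
        calc 972 * h k ≤ 2 ^ 10 * (h k + 2) := by linarith
          _ ≤ (h k + 2) ^ 10 * (h k + 2) := by gcongr; linarith
          _ = (h k + 2) ^ ((11 : ℕ) : ℝ) := by rw [Real.rpow_natCast]; ring
          _ ≤ (h k + 2) ^ (((k + 1 : ℕ) : ℝ) * (2 - u)) :=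
              Real.rpow_le_rpow_of_exponent_le (by linarith) (by push_cast; linarith)
          _ = ((h k + 2) ^ (k + 1)) ^ (2 - u) := by
              rw [Real.rpow_mul (by linarith), Real.rpow_natCast]
          _ ≤ _ := by gcongr
      have a3 : q ^ (2 - u) * q ^ u = q ^ 2 := by
        rw [← Real.rpow_add (by linarith)]; norm_num
      have a4 : 972 * h k * q ^ u ≤ q ^ 2 := by rw [← a3]; gcongr
      calc |ξ - α k| * (3 * h k) * X ^ w ≤ |ξ - α k| * (3 * h k) * (81 * q ^ u) := by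
            gcongr; linarith
        _ = |ξ - α k| * (972 * h k * q ^ u) / 4 := by ring
        _ ≤ |ξ - α k| * q ^ 2 / 4 := by gcongr
        _ ≤ 1 := by linarith
    · refine key (r k) (3 * q) X w g6 ⟨0, (r k).den, -(r k).num, by simp, by
          have : ((r k).num : ℝ) = r k * (r k).den := by
            exact_mod_cast (Rat.mul_den_eq_num (r k)).symm
          push_cast; rw [this]; ring, by simp; linarith, by simp; linarith,
          by simpa using num_le (r k) 3 g6⟩ (by linarith) (by linarith) ?_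
      have a1 : X ^ u ≤ 48 ^ 2 * q ^ (s * u) := by
        calc X ^ u ≤ (48 * q ^ s) ^ u := by gcongr <;> linarith
          _ = 48 ^ u * q ^ (s * u) := by
              rw [Real.mul_rpow (by norm_num) (by positivity), Real.rpow_mul (by linarith)]
          _ ≤ 48 ^ (2 : ℝ) * q ^ (s * u) := by gcongr; norm_num; linarith
          _ = _ := by norm_num
      have a3 : q ^ (s + 1 - s * u) * q ^ (s * u) = q ^ s * q := by
        rw [← Real.rpow_add (by linarith), ← Real.rpow_add_one (by linarith)]; congr 1; ring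
      have a4 : 27 * 48 ^ 2 * q ^ (s * u) ≤ q ^ s * q := by rw [← a3]; gcongr
      calc |ξ - r k| * (3 * (3 * q)) * X ^ w ≤ |ξ - r k| * (3 * (3 * q)) * (48 ^ 2 * q ^ (s * u)) := by
            gcongr; linarith
        _ = |ξ - r k| * q * (27 * 48 ^ 2 * q ^ (s * u)) / 3 := by ring
        _ ≤ |ξ - r k| * q * (q ^ s * q) / 3 := by gcongr
        _ ≤ 1 := by linarith
  · rintro ⟨H₀, hH⟩
    have w0 : 0 < w := by linarith
    have w1 : s + 1 < s * w := by nlinarith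
    set θ := (s * w - (s + 1)) / (w + 1) with hθ
    have θ0 : 0 < θ := by rw [hθ]; apply div_pos <;> linarith
    have θ1 : (s - θ) * w = s + 1 + θ := by rw [hθ]; field_simp; ring
    have θ2 : 0 < s - θ := by
      by_contra hc
      nlinarith
    obtain ⟨k, ⟨k1, k2⟩, k3⟩ := (((big _ θ2 H₀).and (big _ θ2 0)).and (big θ θ0 216)).exists
    obtain ⟨β, P, p1, p2, p3, p4, -, p6⟩ := hH _ k1.le
    obtain ⟨-, -, -, -, -, g6, g7, g8, -⟩ := H k
    have q1 := hq1 k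
    have p5 := one_le_ht P p1.ne_zero
    have hd := den_le_ht P p1.ne_zero p2 (r k)
    have hl := liou P p2 (r k) β g6
    set q : ℝ := ((r k).den : ℝ) with hq
    rw [← Real.rpow_mul (by linarith), mul_neg, θ1, Real.rpow_neg (by linarith), ← mul_inv,
      ← one_div, le_div_iff₀ (by positivity), Real.rpow_add (by linarith),
      Real.rpow_add_one (by linarith)] at p6
    have e1 : q ^ (s - θ) * q ^ θ = q ^ s := by rw [← Real.rpow_add (by linarith)]; congr 1; ring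
    have hQ : q ≤ q ^ s := by
      have := Real.rpow_le_rpow_of_exponent_le q1 hs1
      rwa [Real.rpow_one] at this
    set A := q ^ θ
    set Q := q ^ s
    have b0 := abs_nonneg (ξ - β)
    by_cases hc : aeval (r k : ℝ) P = 0
    · rw [same_root P p1 β (r k) p3 hc] at p6
      have : |ξ - r k| * (q * (Q * q * 216)) ≤ |ξ - r k| * (ht P * (Q * q * A)) := by
        gcongr; exact hd hc
      linarith
    · have c1 : |ξ - β| * (ht P * (q * q * A)) ≤ 1 := le_trans (by gcongr) p6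
      have c2 : |ξ - β| ≤ 1 := by
        have : |ξ - β| * (1 * (1 * 1 * 1)) ≤ |ξ - β| * (ht P * (q * q * A)) := by
          gcongr; linarith
        linarith
      have c3 := hl (by
        have := abs_sub_abs_le_abs_sub β ξ
        rw [abs_sub_comm] at this
        linarith) p3 hc
      have c4 : ht P * A ≤ Q := by rw [← e1]; gcongr
      have c5 : |ξ - r k| * (q ^ 2 * (ht P * A)) ≤ 3 := le_trans (by gcongr) g8
      have c6 := abs_sub_le (r k : ℝ) ξ β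
      rw [abs_sub_comm (r k : ℝ) ξ] at c6
      have c7 : A * 1 ≤ A * (q ^ 2 * (54 * (ht P * (|ξ - r k| + |ξ - β|)))) := by
        gcongr
        exact c3.trans (by gcongr)
      nlinarith

lemma ht_iff (P : ℤ[X]) (h : ℤ) :
    ((∀ i : ℕ, |P.coeff i| ≤ h) ∧ (∃ i : ℕ, |P.coeff i| = h)) → (h : ℝ) = ht P := by
  rintro ⟨h1, i, h2⟩
  refine le_antisymm ?_ (ht_le P _ (fun j => by exact_mod_cast h1 j))
  rw [← h2, Int.cast_abs]
  exact coeff_le_ht P i

lemma ht_ex (P : ℤ[X]) : ∃ h : ℤ, (∀ i : ℕ, |P.coeff i| ≤ h) ∧ (∃ i : ℕ, |P.coeff i| = h) := by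
  obtain ⟨i, -, hi⟩ := Finset.exists_mem_eq_sup (Finset.range (P.natDegree + 1))
    ⟨0, by simp⟩ (fun i => (P.coeff i).natAbs)
  refine ⟨|P.coeff i|, fun j => ?_, i, rfl⟩
  have := coeff_le_ht P j
  unfold ht at this
  rw [hi, ← Int.cast_natCast, ← Int.abs_eq_natAbs] at this
  exact_mod_cast this

/-- For every v in [1,2] there is a real number, not algebraic of degree at most 2, whose uniform exponent of approximation by real algebraic numbers of degree at most 2 (hat w_2^*) equals exactly v. -/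
theorem result :
    ∀ v : ℝ, 1 ≤ v → v ≤ 2 → ∃ ξ : ℝ,
      (∀ Q : Polynomial ℤ, Q ≠ 0 → Q.natDegree ≤ 2 → Polynomial.aeval ξ Q ≠ 0) ∧
      (∀ w : ℝ, w < v →
        ∃ H₀ : ℝ, ∀ H : ℝ, H₀ ≤ H →
          ∃ P : Polynomial ℤ, ∃ α : ℝ, ∃ h : ℤ,
            Irreducible P ∧ P.natDegree ≤ 2 ∧ Polynomial.aeval α P = 0 ∧
            (∀ i : ℕ, |P.coeff i| ≤ h) ∧ (∃ i : ℕ, |P.coeff i| = h) ∧
            (h : ℝ) ≤ H ∧ 0 < |ξ - α| ∧ |ξ - α| ≤ (h : ℝ)⁻¹ * H ^ (-w)) ∧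
      (∀ w : ℝ, v < w →
        ¬ ∃ H₀ : ℝ, ∀ H : ℝ, H₀ ≤ H →
          ∃ P : Polynomial ℤ, ∃ α : ℝ, ∃ h : ℤ,
            Irreducible P ∧ P.natDegree ≤ 2 ∧ Polynomial.aeval α P = 0 ∧
            (∀ i : ℕ, |P.coeff i| ≤ h) ∧ (∃ i : ℕ, |P.coeff i| = h) ∧
            (h : ℝ) ≤ H ∧ 0 < |ξ - α| ∧ |ξ - α| ≤ (h : ℝ)⁻¹ * H ^ (-w)) := by
  intro v h1 h2
  obtain ⟨ξ, a1, a2, a3⟩ : ∃ ξ : ℝ,
      (∀ Q : ℤ[X], Q ≠ 0 → Q.natDegree ≤ 2 → aeval ξ Q ≠ 0) ∧ (∀ w < v, w ∈ Ex ξ 2) ∧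
      ∀ w, v < w → w ∉ Ex ξ 2 := by
    rcases h1.eq_or_lt with rfl | h1
    · have hL := liouville_liouvilleNumber (le_refl 2)
      exact ⟨_, fun Q hQ _ h => hL.transcendental ⟨Q, hQ, h⟩,
        fun w hw => lower _ hL.irrational 2 one_le_two w hw,
        fun w hw h => absurd (upper _ hL 2 w h) (not_le.2 hw)⟩
    · exact main v h1 h2
  refine ⟨ξ, a1, fun w hw => ?_, fun w hw => ?_⟩
  · obtain ⟨H₀, hH⟩ := a2 w hw
    refine ⟨H₀, fun H hH' => ?_⟩
    obtain ⟨α, P, p1, p2, p3, p4, p5, p6⟩ := hH H hH'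
    obtain ⟨h, q1, q2⟩ := ht_ex P
    rw [← ht_iff P h ⟨q1, q2⟩] at p4 p6
    exact ⟨P, α, h, p1, p2, p3, q1, q2, p4, p5, p6⟩
  · rintro ⟨H₀, hH⟩
    refine a3 w hw ⟨H₀, fun H hH' => ?_⟩
    obtain ⟨P, α, h, p1, p2, p3, q1, q2, p4, p5, p6⟩ := hH H hH'
    rw [ht_iff P h ⟨q1, q2⟩] at p4 p6
    exact ⟨α, P, p1, p2, p3, p4, p5, p6⟩

end Pool.Agent.S15877
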