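import Pool.Statements.S15888

set_option autoImplicit false
open Pool Pool.MP_0426f4_nt

namespace Pool.Agent.S15888

theorem two_pow_mod_three (e : ℕ) : ∃ u : ℕ, 2 ^ e = 3 * u + 1 ∨ 2 ^ e = 3 * u + 2 := by
  induction e with
  | zero => exact ⟨0, Or.inl rfl⟩
  | succ e ih =>
    obtain ⟨u, h | h⟩ := ih
    · exact ⟨2 * u, Or.inr (by rw [pow_succ, h]; ring)⟩
    · exact ⟨2 * u + 1, Or.inl (by rw [pow_succ, h]; ring)⟩

theorem core (M e w b a1 a2 : ℕ) (hM : 0 < M) (hw : 2 * w < M)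
    (h1 : b + 1 * (2 ^ e * M) ≤ a1) (h2 : a1 ≤ b + 1 * (2 ^ e * M) + w)
    (h3 : b + 2 * (2 ^ e * M) ≤ a2) (h4 : a2 ≤ b + 2 * (2 ^ e * M) + w)
    (hc : 2 * (a1 % (3 * M)) / M = 2 * (a2 % (3 * M)) / M) : False := by
  obtain ⟨u, hu⟩ := two_pow_mod_three e
  have e1 := Nat.div_add_mod a1 (3 * M)
  have e2 := Nat.div_add_mod a2 (3 * M)
  have f1 := Nat.div_add_mod (2 * (a1 % (3 * M))) M
  have f2 := Nat.div_add_mod (2 * (a2 % (3 * M))) M
  have g1 := Nat.mod_lt (2 * (a1 % (3 * M))) hM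
  have g2 := Nat.mod_lt (2 * (a2 % (3 * M))) hM
  rw [hc] at f1
  generalize 2 * (a2 % (3 * M)) / M = c at f1 f2
  generalize 2 * (a1 % (3 * M)) % M = s1 at f1 g1
  generalize 2 * (a2 % (3 * M)) % M = s2 at f2 g2
  generalize a1 % (3 * M) = r1 at e1 f1
  generalize a2 % (3 * M) = r2 at e2 f2
  generalize a1 / (3 * M) = q1 at e1
  generalize a2 / (3 * M) = q2 at e2
  generalize 2 ^ e = E at hu h1 h2 h3 h4
  have hX1 : 3 * M * q1 = 3 * (M * q1) := by ring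
  have hX2 : 3 * M * q2 = 3 * (M * q2) := by ring
  rcases Nat.lt_or_ge (q1 + u) q2 with hq | hq
  · have : M * (q1 + u + 1) ≤ M * q2 := Nat.mul_le_mul_left M hq
    have hY : M * (q1 + u + 1) = M * q1 + M * u + M := by ring
    rcases hu with hu | hu
    · have hZ : E * M = 3 * (M * u) + M := by rw [hu]; ring
      omega
    · have hZ : E * M = 3 * (M * u) + 2 * M := by rw [hu]; ring
      omega
  · have : M * q2 ≤ M * (q1 + u) := Nat.mul_le_mul_left M hq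
    have hY : M * (q1 + u) = M * q1 + M * u := by ring
    rcases hu with hu | hu
    · have hZ : E * M = 3 * (M * u) + M := by rw [hu]; ring
      omega
    · have hZ : E * M = 3 * (M * u) + 2 * M := by rw [hu]; ring
      omega

/-- The colour of `a` at scale `i`. -/
def col (m : ℕ) (a : ℕ) (i : ℕ) : Fin 6 :=
  ⟨2 * (a % (3 * 2 ^ (m - (2 ^ (i + 1) - 1)))) / 2 ^ (m - (2 ^ (i + 1) - 1)), by
    have hM : 0 < 2 ^ (m - (2 ^ (i + 1) - 1)) := by positivity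
    have := Nat.mod_lt a (show 0 < 3 * 2 ^ (m - (2 ^ (i + 1) - 1)) by positivity)
    rw [Nat.div_lt_iff_lt_mul hM]
    omega⟩

theorem exists_set (r : ℕ) : ∃ A : Finset ℕ, A ⊆ Finset.Icc 1 (2 ^ (2 ^ r - 1)) ∧
    (∀ j w : ℕ, w * 2 ^ (2 ^ r - 1) < (2 ^ j) ^ 2 →
        ¬ ∃ b : ℕ, ∀ i ∈ Finset.Icc 1 (3 - 1),
          ∃ a ∈ A, b + i * 2 ^ j ≤ a ∧ a ≤ b + i * 2 ^ j + w) ∧
    (2 ^ (2 ^ r - 1) : ℝ) / 6 ^ r ≤ A.card := by
  classical
  set m := 2 ^ r - 1 with hm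
  let f : ℕ → (Fin r → Fin 6) := fun a i => col m a i
  have hpig := Finset.exists_le_card_fiber_of_nsmul_le_card_of_maps_to
    (s := Finset.Icc 1 (2 ^ m)) (t := (Finset.univ : Finset (Fin r → Fin 6))) (f := f)
    (b := ((2 ^ m : ℝ) / 6 ^ r)) (M := ℝ) (fun _ _ => Finset.mem_univ _) Finset.univ_nonempty
    (by
      simp only [Finset.card_univ, Fintype.card_fun, Fintype.card_fin, Nat.card_Icc,
        nsmul_eq_mul, Nat.add_sub_cancel]
      push_cast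
      rw [mul_div_cancel₀ _ (by positivity)])
  obtain ⟨y, -, hy⟩ := hpig
  refine ⟨_, Finset.filter_subset _ _, ?_, hy⟩
  rintro j w hw ⟨b, hb⟩
  obtain ⟨a1, ha1, h1, h2⟩ := hb 1 (by simp)
  obtain ⟨a2, ha2, h3, h4⟩ := hb 2 (by simp)
  rw [Finset.mem_filter, Finset.mem_Icc] at ha1 ha2
  have hjm : j < m := by
    by_contra hcon
    have : 2 ^ m ≤ 2 ^ j := Nat.pow_le_pow_right (by norm_num) (not_lt.mp hcon)
    have : 0 < 2 ^ j := by positivity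
    omega
  set k := m - j with hk
  have hk0 : k ≠ 0 := by omega
  set i := Nat.log 2 k with hi
  have hi1 : 2 ^ i ≤ k := Nat.pow_log_le_self 2 hk0
  have hi2 : k < 2 ^ (i + 1) := Nat.lt_pow_succ_log_self (by norm_num) k
  have hr0 : 0 < 2 ^ r := by positivity
  have hir : i < r := by
    by_contra hcon
    have : 2 ^ r ≤ 2 ^ i := Nat.pow_le_pow_right (by norm_num) (not_lt.mp hcon)
    omega
  have hi3 : 2 ^ (i + 1) ≤ 2 ^ r := Nat.pow_le_pow_right (by norm_num) hir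
  have hi4 : 2 ^ (i + 1) = 2 * 2 ^ i := by ring
  set s := m - (2 ^ (i + 1) - 1) with hs
  have hsj : s ≤ j := by omega
  have hd : 2 ^ j = 2 ^ (j - s) * 2 ^ s := by rw [← pow_add]; congr 1; omega
  have hc : col m a1 i = col m a2 i := by
    have e1 := congrFun ha1.2 ⟨i, hir⟩
    have e2 := congrFun ha2.2 ⟨i, hir⟩
    exact e1.trans e2.symm
  have hc' := congrArg Fin.val hc
  simp only [col] at hc'
  rw [← hs] at hc'
  have hw2 : 2 * w < 2 ^ s := by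
    by_contra hcon
    have h5 : 2 ^ s * 2 ^ m ≤ 2 * w * 2 ^ m := Nat.mul_le_mul_right _ (not_lt.mp hcon)
    have h6 : 2 ^ (s + m) < 2 ^ (2 * j + 1) := by
      calc 2 ^ (s + m) = 2 ^ s * 2 ^ m := pow_add _ _ _
        _ ≤ 2 * w * 2 ^ m := h5
        _ = 2 * (w * 2 ^ m) := by ring
        _ < 2 * (2 ^ j) ^ 2 := by omega
        _ = 2 ^ (2 * j + 1) := by ring
    have h7 := (Nat.pow_lt_pow_iff_right (by norm_num : 1 < 2)).mp h6
    omega
  rw [hd] at h1 h2 h3 h4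
  exact core (2 ^ s) (j - s) w b a1 a2 (by positivity) hw2 h1 h2 h3 h4 hc'

theorem growth (r : ℕ) (hr : 10 ≤ r) :
    (6 : ℝ) ^ r ≤ Real.log ((2 ^ (2 ^ r - 1) : ℕ) : ℝ) ^ Real.log (Real.log ((2 ^ (2 ^ r - 1) : ℕ) : ℝ)) := by
  obtain ⟨q, rfl⟩ : ∃ q, r = q + 2 := ⟨r - 2, by omega⟩
  have hq : 8 ≤ q := by omega
  have hl2 : (1 / 2 : ℝ) < Real.log 2 := by
    have := Real.log_two_gt_d9
    linarith
  set L := Real.log ((2 ^ (2 ^ (q + 2) - 1) : ℕ) : ℝ) with hL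
  have hL1 : (2 : ℝ) ^ q ≤ L := by
    rw [hL]
    push_cast
    rw [Real.log_pow]
    have h1 : 2 * 2 ^ q ≤ 2 ^ (q + 2) - 1 := by
      have : 2 ^ (q + 2) = 4 * 2 ^ q := by ring
      have : 0 < 2 ^ q := by positivity
      omega
    have h2 : (2 : ℝ) * 2 ^ q ≤ ((2 ^ (q + 2) - 1 : ℕ) : ℝ) := by exact_mod_cast h1
    have h3 : (0 : ℝ) < 2 ^ q := by positivity
    nlinarith
  have hpos : (0 : ℝ) < 2 ^ q := by positivity
  have hLpos : 0 < L := lt_of_lt_of_le hpos hL1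
  have hL2 : q * Real.log 2 ≤ Real.log L := by
    rw [← Real.log_pow]
    exact Real.log_le_log hpos hL1
  have hq' : (8 : ℝ) ≤ q := by exact_mod_cast hq
  rw [Real.rpow_def_of_pos hLpos, ← Real.exp_log (show (0 : ℝ) < 6 ^ (q + 2) by positivity)]
  apply Real.exp_le_exp.mpr
  rw [Real.log_pow]
  have h8 : Real.log 6 ≤ 3 * Real.log 2 := by
    have : Real.log 6 ≤ Real.log (2 ^ 3) := Real.log_le_log (by norm_num) (by norm_num)
    rw [Real.log_pow] at this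
    exact_mod_cast this
  have hl0 : 0 < Real.log 2 := by linarith
  have h9 : 0 ≤ q * Real.log 2 := by positivity
  have h10 : (q * Real.log 2) * (q * Real.log 2) ≤ Real.log L * Real.log L :=
    mul_le_mul hL2 hL2 h9 (le_trans h9 hL2)
  push_cast
  have h11 : ((q : ℝ) + 2) * Real.log 6 ≤ ((q : ℝ) + 2) * (3 * Real.log 2) :=
    mul_le_mul_of_nonneg_left h8 (by positivity)
  have h12 : 3 * ((q : ℝ) + 2) ≤ q * q * Real.log 2 := by nlinarith
  nlinarith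

/-- Leth conjecture on near arithmetic progressions is false already for t = 3. -/
theorem result :
    ¬ (∀ t : ℕ, 3 ≤ t → ∃ n₀ : ℕ, ∀ n : ℕ, n₀ ≤ n → ∀ A : Finset ℕ, A ⊆ Finset.Icc 1 n →
      (∀ j w : ℕ, w * n < (2 ^ j) ^ 2 →
        ¬ ∃ b : ℕ, ∀ i ∈ Finset.Icc 1 (t - 1),
          ∃ a ∈ A, b + i * 2 ^ j ≤ a ∧ a ≤ b + i * 2 ^ j + w) →
      (A.card : ℝ) / n * Real.log n ^ Real.log (Real.log n) < 1) := by
  intro h
  obtain ⟨n₀, hn⟩ := h 3 le_rfl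
  set r := n₀ + 10 with hr
  obtain ⟨A, hA, hP, hcard⟩ := exists_set r
  have hle : n₀ ≤ 2 ^ (2 ^ r - 1) := by
    have h1 : r < 2 ^ r := Nat.lt_two_pow_self
    have h2 : 2 ^ r - 1 < 2 ^ (2 ^ r - 1) := Nat.lt_two_pow_self
    omega
  have h1 := hn _ hle A hA hP
  have h2 := growth r (by omega)
  have hnpos : (0 : ℝ) < ((2 ^ (2 ^ r - 1) : ℕ) : ℝ) := by positivity
  have h3 : (1 : ℝ) / 6 ^ r ≤ (A.card : ℝ) / ((2 ^ (2 ^ r - 1) : ℕ) : ℝ) := by
    rw [le_div_iff₀ hnpos]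
    push_cast
    calc (1 : ℝ) / 6 ^ r * 2 ^ (2 ^ r - 1) = 2 ^ (2 ^ r - 1) / 6 ^ r := by ring
      _ ≤ _ := hcard
  have h4 : (1 : ℝ) / 6 ^ r * 6 ^ r ≤ _ :=
    mul_le_mul h3 h2 (by positivity) (by positivity)
  rw [div_mul_cancel₀ _ (by positivity)] at h4
  linarith

end Pool.Agent.S15888
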