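import Pool.Statements.S15919
import Pool.Agent.H15.RO5

set_option autoImplicit false
open Pool Pool.MP_06981f_nt

namespace Pool.Agent.S15919

theorem result :
    ∀ A : Set ℕ,
      (∀ F : Finset ℕ, ∃ k : ℕ, ∀ᶠ n in Filter.atTop,
        ∃ s : Multiset ℕ, (∀ x ∈ s, x ∈ A ∧ x ∉ F) ∧ Multiset.card s ≤ k ∧ s.sum = n) →
      ∃ t : ℕ, ∀ᶠ n in Filter.atTop,
        ∃ s : Finset ℕ, (↑s : Set ℕ) ⊆ A ∧ s.card ≤ t ∧ s.sum id = n := by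
  intro A hA
  have hA' : ∀ F : Finset ℕ, ∃ k N : ℕ, ∀ n ≥ N,
      ∃ s : Multiset ℕ, (∀ x ∈ s, x ∈ A ∧ x ∉ F) ∧ Multiset.card s ≤ k ∧ s.sum = n := by
    intro F
    obtain ⟨k, hk⟩ := hA F
    obtain ⟨N, hN⟩ := Filter.eventually_atTop.1 hk
    exact ⟨k, N, hN⟩
  obtain ⟨h, N0, h0⟩ := hA' ∅
  obtain ⟨t, ht⟩ := Pool.Agent.H15.RO.main h
  obtain ⟨N1, h1⟩ := ht A N0 (fun n hn => by
    obtain ⟨s, s1, s2, s3⟩ := h0 n hn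
    exact ⟨s, s2, fun x hx => (s1 x hx).1, s3⟩)
    (Pool.Agent.H15.RO.residues_of_robust A hA')
  exact ⟨t, Filter.eventually_atTop.2 ⟨N1, h1⟩⟩

end Pool.Agent.S15919
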