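import Pool.Statements.S15999

set_option autoImplicit false
open Filter
open Pool Pool.MP_0c8f06_nt

namespace Pool.Agent.S15999

noncomputable def g (n : ℕ) : ℕ := ⌊(n : ℝ) * Real.sqrt 3⌋₊

lemma s3_sq : Real.sqrt 3 * Real.sqrt 3 = 3 := Real.mul_self_sqrt (by norm_num)

lemma s3_lo : (1.7 : ℝ) < Real.sqrt 3 := by
  apply Real.lt_sqrt_of_sq_lt; norm_num

lemma s3_hi : Real.sqrt 3 < (1.74 : ℝ) := by
  rw [Real.sqrt_lt' (by norm_num)]; norm_num

lemma g_le (n : ℕ) : (g n : ℝ) ≤ (n : ℝ) * Real.sqrt 3 :=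
  Nat.floor_le (by positivity)

lemma lt_g (n : ℕ) : (n : ℝ) * Real.sqrt 3 < (g n : ℝ) + 1 :=
  Nat.lt_floor_add_one _

lemma g_lt (n : ℕ) (hn : 1 ≤ n) : (g n : ℝ) < (n : ℝ) * Real.sqrt 3 := by
  refine lt_of_le_of_ne (g_le n) ?_
  intro h
  have hirr : Irrational (Real.sqrt 3) := by
    have := Nat.Prime.irrational_sqrt (p := 3) (by norm_num)
    simpa using this
  have hn' : (n : ℝ) ≠ 0 := by positivity
  apply hirr
  refine ⟨(g n : ℚ) / (n : ℚ), ?_⟩
  push_cast
  rw [h]; field_simp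

lemma gg (x : ℕ) (hx : 1 ≤ x) : g (g x) % 3 ≠ 0 := by
  have h1 := g_lt x hx
  have h2 := lt_g x
  have h3 := g_le (g x)
  have h4 := lt_g (g x)
  have hs := s3_sq
  have hlo := s3_lo
  have hhi := s3_hi
  have ha : (g (g x) : ℝ) < 3 * x := by nlinarith
  have hb : 3 * (x : ℝ) < (g (g x) : ℝ) + 3 := by nlinarith
  have ha' : g (g x) < 3 * x := by exact_mod_cast ha
  have hb' : 3 * x < g (g x) + 3 := by exact_mod_cast hb
  omega

lemma g_gt (x : ℕ) (hx : 2 ≤ x) : x + 1 ≤ g x := by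
  have h2 := lt_g x
  have hlo := s3_lo
  have hx' : (2 : ℝ) ≤ x := by exact_mod_cast hx
  have : (x : ℝ) + 1 < (g x : ℝ) + 1 := by nlinarith
  have : x + 1 < g x + 1 := by exact_mod_cast this
  omega

lemma g_ge (x : ℕ) : x ≤ g x := by
  have h2 := lt_g x
  have hlo := s3_lo
  have hx' : (0 : ℝ) ≤ x := by positivity
  have : (x : ℝ) < (g x : ℝ) + 1 := by nlinarith
  have : x < g x + 1 := by exact_mod_cast this
  omega

lemma g_strict {a b : ℕ} (h : a < b) : g a < g b := by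
  have h1 := g_le a
  have h2 := lt_g b
  have hlo := s3_lo
  have h' : (a : ℝ) + 1 ≤ b := by exact_mod_cast h
  have : (g a : ℝ) + 1 < (g b : ℝ) + 1 := by nlinarith
  have : g a + 1 < g b + 1 := by exact_mod_cast this
  omega

lemma g_inj {a b : ℕ} (h : g a = g b) : a = b := by
  rcases lt_trichotomy a b with h1 | h1 | h1
  · have := g_strict h1; omega
  · exact h1
  · have := g_strict h1; omega

lemma g_mono {a b : ℕ} (h : a ≤ b) : g a ≤ g b := by
  rcases h.lt_or_eq with h1 | h1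
  · exact (g_strict h1).le
  · rw [h1]

section
variable (f : ℕ → ℕ) (hf : ∀ n : ℕ, f n = if n % 3 = 0 then n / 3 else g n)
include hf

lemma grow (k : ℕ) : ∀ x : ℕ, 2 ≤ x → x % 3 ≠ 0 → g x % 3 ≠ 0 → x + k ≤ f^[k] x := by
  induction k with
  | zero => intro x _ _ _; simp
  | succ k ih =>
    intro x h2 h3 h4
    rw [Function.iterate_succ_apply, hf x, if_neg h3]
    have h5 := g_gt x h2
    have := ih (g x) (by omega) h4 (gg x (by omega))
    omega

lemma good (x : ℕ) (h2 : 2 ≤ x) (h3 : x % 3 ≠ 0) (h4 : g x % 3 ≠ 0) :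
    Tendsto (fun k : ℕ => f^[k] x) atTop atTop := by
  refine tendsto_atTop_mono (fun k => ?_) tendsto_id
  have := grow f hf k x h2 h3 h4
  simp only [id]
  omega

end

lemma shift (f : ℕ → ℕ) (x : ℕ) (h : Tendsto (fun k : ℕ => f^[k] (f x)) atTop atTop) :
    Tendsto (fun k : ℕ => f^[k] x) atTop atTop := by
  rw [← tendsto_add_atTop_iff_nat 1]
  simpa only [Function.iterate_succ_apply] using h

open Classical in
noncomputable def bad (f : ℕ → ℕ) (N : ℕ) : Finset ℕ :=
  (Finset.Icc 1 N).filter (fun n => ¬ Tendsto (fun k : ℕ => f^[k] n) atTop atTop)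

lemma mem_bad (f : ℕ → ℕ) (N n : ℕ) :
    n ∈ bad f N ↔ (1 ≤ n ∧ n ≤ N) ∧ ¬ Tendsto (fun k : ℕ => f^[k] n) atTop atTop := by
  classical
  unfold bad
  simp only [Finset.mem_filter, Finset.mem_Icc]

lemma recur (f : ℕ → ℕ) (hf : ∀ n : ℕ, f n = if n % 3 = 0 then n / 3 else g n) (N : ℕ) :
    (bad f N).card ≤ 1 + (bad f (N / 3)).card + (bad f (g N / 3)).card := by
  classical
  set A := (bad f N).filter (fun n => n % 3 = 0) with hA
  set B := (bad f N).filter (fun n => n % 3 ≠ 0 ∧ 2 ≤ n) with hB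
  have hsub : bad f N ⊆ ({1} ∪ A) ∪ B := by
    intro n hn
    have hn' := (mem_bad f N n).1 hn
    simp only [Finset.mem_union, Finset.mem_singleton, hA, hB, Finset.mem_filter]
    by_cases h3 : n % 3 = 0
    · left; right; exact ⟨hn, h3⟩
    · by_cases h2 : 2 ≤ n
      · right; exact ⟨hn, h3, h2⟩
      · left; left; omega
  have hAc : A.card ≤ (bad f (N / 3)).card := by
    apply Finset.card_le_card_of_injOn (fun n => n / 3)
    · intro n hn
      have hn1 := Finset.mem_filter.1 (Finset.mem_coe.1 hn)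
      have hn2 := (mem_bad f N n).1 hn1.1
      apply Finset.mem_coe.2
      rw [mem_bad]
      beta_reduce
      refine ⟨⟨by omega, by omega⟩, fun h => hn2.2 (shift f n ?_)⟩
      rw [hf n, if_pos hn1.2]; exact h
    · intro a ha b hb hab
      have ha1 := (Finset.mem_filter.1 (Finset.mem_coe.1 ha)).2
      have hb1 := (Finset.mem_filter.1 (Finset.mem_coe.1 hb)).2
      simp only at hab
      omega
  have hB3 : ∀ n ∈ B, g n % 3 = 0 := by
    intro n hn
    have hn1 := Finset.mem_filter.1 hn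
    have hn2 := (mem_bad f N n).1 hn1.1
    by_contra h
    exact hn2.2 (good f hf n hn1.2.2 hn1.2.1 h)
  have hBc : B.card ≤ (bad f (g N / 3)).card := by
    apply Finset.card_le_card_of_injOn (fun n => g n / 3)
    · intro n hn
      have hn0 := Finset.mem_coe.1 hn
      have hn1 := Finset.mem_filter.1 hn0
      have hn2 := (mem_bad f N n).1 hn1.1
      have h3 := hB3 n hn0
      have h4 := g_ge n
      have h5 := g_mono hn2.1.2
      apply Finset.mem_coe.2
      rw [mem_bad]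
      beta_reduce
      refine ⟨⟨by omega, by omega⟩, fun h => hn2.2 (shift f n (shift f (f n) ?_))⟩
      rw [hf n, if_neg hn1.2.1, hf (g n), if_pos h3]; exact h
    · intro a ha b hb hab
      have ha1 := hB3 a (Finset.mem_coe.1 ha)
      have hb1 := hB3 b (Finset.mem_coe.1 hb)
      simp only at hab
      apply g_inj
      omega
  calc (bad f N).card ≤ (({1} ∪ A) ∪ B).card := Finset.card_le_card hsub
    _ ≤ ({1} ∪ A).card + B.card := Finset.card_union_le _ _
    _ ≤ (({1} : Finset ℕ).card + A.card) + B.card := by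
        gcongr; exact Finset.card_union_le _ _
    _ ≤ _ := by rw [Finset.card_singleton]; omega

lemma bad_le (f : ℕ → ℕ) (N : ℕ) : (bad f N).card ≤ N := by
  classical
  unfold bad
  calc _ ≤ (Finset.Icc 1 N).card := Finset.card_filter_le _ _
    _ = N := by simp

lemma bound (f : ℕ → ℕ) (hf : ∀ n : ℕ, f n = if n % 3 = 0 then n / 3 else g n) (j : ℕ) :
    ∃ C : ℝ, ∀ N : ℕ, ((bad f N).card : ℝ) ≤ (0.92 : ℝ) ^ j * N + C := by
  induction j with
  | zero =>
    refine ⟨0, fun N => ?_⟩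
    have : ((bad f N).card : ℝ) ≤ N := by exact_mod_cast bad_le f N
    simpa using this
  | succ j ih =>
    obtain ⟨C, hC⟩ := ih
    refine ⟨1 + 2 * C, fun N => ?_⟩
    have h1 : ((bad f N).card : ℝ) ≤ 1 + (bad f (N / 3)).card + (bad f (g N / 3)).card := by
      exact_mod_cast recur f hf N
    have h2 := hC (N / 3)
    have h3 := hC (g N / 3)
    have h4 : ((N / 3 : ℕ) : ℝ) ≤ (N : ℝ) / 3 := Nat.cast_div_le
    have h5 : ((g N / 3 : ℕ) : ℝ) ≤ (g N : ℝ) / 3 := Nat.cast_div_le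
    have h6 := g_le N
    have h7 := s3_hi
    have hN : (0 : ℝ) ≤ N := by positivity
    have h8 : ((N / 3 : ℕ) : ℝ) + ((g N / 3 : ℕ) : ℝ) ≤ 0.92 * N := by nlinarith
    have hp : (0 : ℝ) ≤ (0.92 : ℝ) ^ j := by positivity
    have h9 := mul_le_mul_of_nonneg_left h8 hp
    rw [pow_succ]
    nlinarith

lemma bad_lim (f : ℕ → ℕ) (hf : ∀ n : ℕ, f n = if n % 3 = 0 then n / 3 else g n) :
    Tendsto (fun N : ℕ => ((bad f N).card : ℝ) / (N : ℝ)) atTop (nhds 0) := by
  rw [Metric.tendsto_atTop]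
  intro ε hε
  obtain ⟨j, hj⟩ := exists_pow_lt_of_lt_one (show 0 < ε / 2 by positivity)
    (show (0.92 : ℝ) < 1 by norm_num)
  obtain ⟨C, hC⟩ := bound f hf j
  obtain ⟨M, hM⟩ := exists_nat_gt (2 * C / ε)
  refine ⟨M + 1, fun N hN => ?_⟩
  have hN1 : (M : ℝ) + 1 ≤ N := by exact_mod_cast hN
  have hM0 : (0 : ℝ) ≤ M := by positivity
  have hN0 : (0 : ℝ) < N := by linarith
  rw [Real.dist_eq, sub_zero, abs_of_nonneg (by positivity), div_lt_iff₀ hN0]
  have h1 := hC N
  rw [div_lt_iff₀ hε] at hM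
  nlinarith

/-- For f(n)=n/3 if 3 divides n and f(n)=floor(n·√3) otherwise, the set of positive integers whose orbit under f tends to infinity has natural density 1. -/
theorem result :
    ∀ f : ℕ → ℕ,
      (∀ n : ℕ, f n = if n % 3 = 0 then n / 3 else ⌊(n : ℝ) * Real.sqrt 3⌋₊) →
      Tendsto
        (fun N : ℕ =>
          (({n : ℕ | 1 ≤ n ∧ n ≤ N ∧
              Tendsto (fun k : ℕ => f^[k] n) atTop atTop}.ncard : ℕ) : ℝ) / (N : ℝ))
        atTop (nhds 1) := by
  classical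
  intro f hf
  have hl := bad_lim f hf
  have h2 : Tendsto (fun N : ℕ => 1 - ((bad f N).card : ℝ) / (N : ℝ)) atTop (nhds (1 - 0)) :=
    tendsto_const_nhds.sub hl
  rw [sub_zero] at h2
  refine h2.congr' ?_
  filter_upwards [eventually_ge_atTop 1] with N hN
  have hN0 : (0 : ℝ) < N := by exact_mod_cast hN
  have hset : {n : ℕ | 1 ≤ n ∧ n ≤ N ∧ Tendsto (fun k : ℕ => f^[k] n) atTop atTop}
      = ((Finset.Icc 1 N \ bad f N : Finset ℕ) : Set ℕ) := by
    ext n
    simp only [Set.mem_ofPred_eq, Finset.coe_sdiff, Set.mem_sdiff, Finset.mem_coe, mem_bad,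
      Finset.mem_Icc]
    tauto
  have hsub : bad f N ⊆ Finset.Icc 1 N := by
    intro n hn
    rw [Finset.mem_Icc]
    exact ((mem_bad f N n).1 hn).1
  rw [hset, Set.ncard_coe_finset, Finset.card_sdiff_of_subset hsub]
  have hle := bad_le f N
  have : (Finset.Icc 1 N).card = N := by simp
  rw [this, Nat.cast_sub hle]
  field_simp

end Pool.Agent.S15999
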