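import Pool.Statements.S16009
import Pool.Agent.H18.Kara2

set_option autoImplicit false
open Pool Pool.MP_0d02c1_nt

namespace Pool.Agent.S16009

open Filter

lemma ext_pt (S : Set (ℝ × ℝ)) (hS : S.Finite) (z : ℝ × ℝ) (hz : z ∈ S)
    (l : StrongDual ℝ (ℝ × ℝ)) :
    ∃ w ∈ Set.extremePoints ℝ (convexHull ℝ S), w ∈ S ∧ l z ≤ l w := by
  have hK : IsCompact (convexHull ℝ S) := hS.isCompact_convexHull ℝ
  have hz' : z ∈ convexHull ℝ S := subset_convexHull ℝ S hz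
  have hE := ContinuousLinearMap.toExposed.isExposed (l := l) (A := convexHull ℝ S)
  obtain ⟨u, hu, hu2⟩ := hK.exists_isMaxOn ⟨z, hz'⟩ l.continuous.continuousOn
  obtain ⟨w, hw⟩ := (hE.isCompact hK).extremePoints_nonempty ⟨u, hu, fun y hy => hu2 hy⟩
  have hw2 := hE.isExtreme.extremePoints_subset_extremePoints hw
  exact ⟨w, hw2, extremePoints_convexHull_subset hw2, hw.1.2 z hz'⟩

lemma big (c : ℝ) (hc : 0 < c) (B : ℝ) : ∀ᶠ n : ℕ in atTop, B ≤ (n : ℝ) ^ c :=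
  ((tendsto_rpow_atTop hc).comp tendsto_natCast_atTop_atTop).eventually_ge_atTop B

lemma small_pt (ε : ℝ) (hε : 0 < ε) : ∃ c : ℝ, 0 < c ∧ ∀ᶠ n : ℕ in atTop, ∃ x y : ℕ,
    1 ≤ x ∧ (x : ℝ) ≤ (n : ℝ) ^ ε ∧ 1 ≤ y ∧ (y : ℝ) ≤ (n : ℝ) ^ (1 - c) ∧ n ∣ x * y + 1 := by
  obtain ⟨k, hk⟩ := exists_nat_ge (1 / ε)
  have hcore := H18.Kara.core k
  set a := 11 * (k + 1) ^ 2 with ha
  set e := (4 * k + 3) * a with he
  set C := 2 ^ e * (k + 1) ^ (2 * (k + 1)) + 88 * (k + 1) ^ 2 + e + k + 8 with hC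
  have ha0 : 0 < a := by positivity
  have he0 : 0 < e := by positivity
  have he' : (0 : ℝ) < e := by exact_mod_cast he0
  refine ⟨1 / (2 * e), by positivity, ?_⟩
  filter_upwards [eventually_ge_atTop (C ^ e), big (1 / (2 * e)) (by positivity) (4 * (e + 1))]
    with n hn hb
  set W := Nat.nthRoot e n with hW
  have h0 : C ≤ W := (Nat.le_nthRoot_iff he0.ne').2 hn
  have h1 : W ^ e ≤ n := Nat.pow_nthRoot_le (Or.inl he0.ne')
  have hW1 : 1 ≤ W := by omega
  have h2 : n < (2 * W) ^ e :=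
    (Nat.lt_pow_nthRoot_add_one he0.ne' n).trans_le (Nat.pow_le_pow_left (by omega) _)
  obtain ⟨x, y, x1, x2, y1, y2, hd⟩ := hcore W n h0 h1 h2
  have hn1 : 1 ≤ n := (Nat.one_le_pow _ _ hW1).trans h1
  have hn' : (1 : ℝ) ≤ n := by exact_mod_cast hn1
  have hW' : (1 : ℝ) ≤ W := by exact_mod_cast hW1
  refine ⟨x, y, x1, ?_, y1, ?_, hd⟩
  · have a1 : (x : ℝ) ≤ (W : ℝ) ^ (4 * a) := by exact_mod_cast x2
    have a2 : (W : ℝ) ^ e ≤ n := by exact_mod_cast h1
    have a3 : ((4 * a : ℕ) : ℝ) ≤ e * ε := by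
      rw [he]
      push_cast
      rw [div_le_iff₀ hε] at hk
      have : (0 : ℝ) < a := by exact_mod_cast ha0
      nlinarith [mul_pos this hε]
    calc (x : ℝ) ≤ (W : ℝ) ^ ((4 * a : ℕ) : ℝ) := by rw [Real.rpow_natCast]; exact a1
      _ ≤ (W : ℝ) ^ (e * ε) := Real.rpow_le_rpow_of_exponent_le hW' a3
      _ = ((W : ℝ) ^ e) ^ ε := by rw [Real.rpow_mul (by positivity), Real.rpow_natCast]
      _ ≤ _ := by gcongr
  · set T := (n : ℝ) ^ (1 / (2 * (e : ℝ))) with hT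
    have hT0 : 0 < T := by positivity
    have a1 : T ^ 2 ≤ 2 * W := by
      refine le_of_pow_le_pow_left₀ he0.ne' (by positivity) ?_
      rw [hT, ← pow_mul, ← Real.rpow_natCast, ← Real.rpow_mul (by positivity)]
      have : 1 / (2 * (e : ℝ)) * ((2 * e : ℕ) : ℝ) = 1 := by push_cast; field_simp
      rw [this, Real.rpow_one]
      exact_mod_cast h2.le
    have a2 : W * (n / W + 1) ≤ 2 * n := by
      have := Nat.mul_div_le n W
      have : W ≤ n := (Nat.le_self_pow he0.ne' W).trans h1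
      nlinarith
    have a3 : (W : ℝ) * y ≤ (e + 1) * (2 * n) := by
      have : W * y ≤ (e + 1) * (2 * n) := by
        calc W * y ≤ W * ((e + 1) * (n / W + 1)) := by gcongr
          _ = (e + 1) * (W * (n / W + 1)) := by ring
          _ ≤ _ := by gcongr
      exact_mod_cast this
    rw [Real.rpow_sub (by positivity), Real.rpow_one, ← hT, le_div_iff₀ hT0]
    have a4 : T * (y * T) ≤ T * n := by
      have : (0 : ℝ) ≤ y := by positivity
      nlinarith
    exact le_of_mul_le_mul_left a4 hT0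

def Hyp (n : ℕ) : Set (ℝ × ℝ) :=
  {p : ℝ × ℝ | ∃ x y : ℕ, 1 ≤ x ∧ x ≤ n - 1 ∧ 1 ≤ y ∧ y ≤ n - 1 ∧
    Nat.ModEq n (x * y) 1 ∧ p = ((x : ℝ), (y : ℝ))}

lemma hyp_fin (n : ℕ) : (Hyp n).Finite := by
  refine (((Set.finite_Iic n).prod (Set.finite_Iic n)).image
    (fun p : ℕ × ℕ => ((p.1 : ℝ), (p.2 : ℝ)))).subset ?_
  rintro p ⟨x, y, -, h1, -, h2, -, rfl⟩
  exact ⟨(x, y), ⟨show x ≤ n by omega, show y ≤ n by omega⟩, rfl⟩

lemma claim (M : ℕ) : ∃ c : ℝ, 0 < c ∧ c ≤ 1 ∧ ∀ᶠ n : ℕ in atTop, ∃ E : Finset (ℝ × ℝ),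
    E.card = M ∧ ∀ w ∈ E, w ∈ Set.extremePoints ℝ (convexHull ℝ (Hyp n)) ∧
      n - w.2 ≤ 2 * (n : ℝ) ^ (1 - c) := by
  classical
  induction M with
  | zero => exact ⟨1, one_pos, le_rfl, Eventually.of_forall (fun n => ⟨∅, rfl, by simp⟩)⟩
  | succ M ih =>
    obtain ⟨c, hc, hc1, ih⟩ := ih
    obtain ⟨d, hd, hK⟩ := small_pt (c / 2) (by positivity)
    refine ⟨min c d, lt_min hc hd, (min_le_left _ _).trans hc1, ?_⟩
    filter_upwards [ih, hK, big (c / 2) (by positivity) 9, eventually_ge_atTop 2] with n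
      ⟨E, hE, hE2⟩ ⟨X, Y, X1, X2, Y1, Y2, hXY⟩ hb hn
    have hn' : (2 : ℝ) ≤ n := by exact_mod_cast hn
    have hXn : X < n := by
      have : (n : ℝ) ^ (c / 2) < (n : ℝ) ^ (1 : ℝ) :=
        Real.rpow_lt_rpow_of_exponent_lt (by linarith) (by linarith)
      rw [Real.rpow_one] at this
      exact_mod_cast X2.trans_lt this
    have hYn : Y < n := by
      have : (n : ℝ) ^ (1 - d) < (n : ℝ) ^ (1 : ℝ) :=
        Real.rpow_lt_rpow_of_exponent_lt (by linarith) (by linarith)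
      rw [Real.rpow_one] at this
      exact_mod_cast Y2.trans_lt this
    have hz : ((X : ℝ), ((n - Y : ℕ) : ℝ)) ∈ Hyp n := by
      refine ⟨X, n - Y, X1, by omega, by omega, by omega, ?_, rfl⟩
      refine (Nat.modEq_iff_dvd.2 ?_)
      have : (n : ℤ) ∣ X * Y + 1 := by exact_mod_cast hXY
      push_cast [hYn.le]
      have e : (1 : ℤ) - X * (n - Y) = (X * Y + 1) - n * X := by ring
      rw [e]
      exact this.sub (dvd_mul_right _ _)
    obtain ⟨w, hw, ⟨x, t, x1, x2, t1, t2, hxt, rfl⟩, hl⟩ := ext_pt _ (hyp_fin n) _ hz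
      ((X : ℝ) • ContinuousLinearMap.snd ℝ ℝ ℝ - (Y : ℝ) • ContinuousLinearMap.fst ℝ ℝ ℝ)
    simp only [ContinuousLinearMap.sub_apply, ContinuousLinearMap.smul_apply,
      ContinuousLinearMap.coe_snd', ContinuousLinearMap.coe_fst', smul_eq_mul,
      Nat.cast_sub hYn.le] at hl
    have X1' : (1 : ℝ) ≤ X := by exact_mod_cast X1
    have Y1' : (1 : ℝ) ≤ Y := by exact_mod_cast Y1
    have x0 : (0 : ℝ) ≤ x := by positivity
    have htn : t < n := by omega
    have t' : (t : ℝ) ≤ n := by exact_mod_cast htn.le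
    have b1 : (n : ℝ) - t ≤ 2 * Y := by
      refine le_of_mul_le_mul_left (a := (X : ℝ)) ?_ (by linarith)
      nlinarith
    have b2 : (x : ℝ) ≤ 2 * X := by
      refine le_of_mul_le_mul_left (a := (Y : ℝ)) ?_ (by linarith)
      nlinarith
    have b3 : (n : ℝ) ≤ x * (n - t) + 1 := by
      have d1 : (n : ℤ) ∣ x * (n - t) + 1 := by
        have := Nat.modEq_iff_dvd.1 hxt
        push_cast at this
        have e : (x : ℤ) * (n - t) + 1 = (1 - x * t) + n * x := by ring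
        rw [e]
        exact this.add (dvd_mul_right _ _)
      have d2 : (0 : ℤ) ≤ n - t := by omega
      have := Int.le_of_dvd (by positivity) d1
      exact_mod_cast this
    have m1 : (n : ℝ) ^ (1 - c) ≤ (n : ℝ) ^ (1 - min c d) :=
      Real.rpow_le_rpow_of_exponent_le (by linarith) (by linarith [min_le_left c d])
    have m2 : (n : ℝ) ^ (1 - d) ≤ (n : ℝ) ^ (1 - min c d) :=
      Real.rpow_le_rpow_of_exponent_le (by linarith) (by linarith [min_le_right c d])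
    refine ⟨insert ((x : ℝ), (t : ℝ)) E, ?_, fun w' hw' => ?_⟩
    · rw [Finset.card_insert_of_notMem, hE]
      intro hm
      have b4 : (n : ℝ) - t ≤ 2 * (n : ℝ) ^ (1 - c) := (hE2 _ hm).2
      set T := (n : ℝ) ^ (c / 2) with hT
      set U := (n : ℝ) ^ (1 - c) with hU
      have hU0 : 0 < U := by positivity
      have e : (n : ℝ) = U * T * T := by
        rw [hT, hU, ← Real.rpow_add (by positivity), ← Real.rpow_add (by positivity)]
        rw [show 1 - c + c / 2 + c / 2 = 1 by ring, Real.rpow_one]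
      have b5 : (x : ℝ) * (n - t) ≤ (2 * T) * (2 * U) :=
        mul_le_mul (by linarith) b4 (by linarith) (by positivity)
      have b6 : U * T * 9 ≤ U * T * T := by gcongr
      linarith
    · rcases Finset.mem_insert.1 hw' with rfl | h
      · exact ⟨hw, by linarith⟩
      · exact ⟨(hE2 _ h).1, by linarith [(hE2 _ h).2]⟩

/-- For every M, there is N such that for all n ≥ N, the convex hull of the integer points (x,y) with 1 ≤ x,y ≤ n−1 and xy ≡ 1 mod n has at least M vertices (extreme points). -/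
theorem result :
    ∀ M : ℕ, ∃ N : ℕ, ∀ n : ℕ, N ≤ n →
      M ≤ (Set.extremePoints ℝ
        (convexHull ℝ
          {p : ℝ × ℝ | ∃ x y : ℕ, 1 ≤ x ∧ x ≤ n - 1 ∧ 1 ≤ y ∧ y ≤ n - 1 ∧
            Nat.ModEq n (x * y) 1 ∧ p = ((x : ℝ), (y : ℝ))})).ncard := by
  intro M
  obtain ⟨c, -, -, h⟩ := claim M
  obtain ⟨N, hN⟩ := eventually_atTop.1 h
  refine ⟨N, fun n hn => ?_⟩
  obtain ⟨E, hE, hE2⟩ := hN n hn
  rw [← hE, ← Set.ncard_coe_finset]
  exact Set.ncard_le_ncard (fun w hw => (hE2 w hw).1)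
    ((hyp_fin n).subset extremePoints_convexHull_subset)

end Pool.Agent.S16009
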