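import Pool.Statements.S16171
import Pool.Agent.H15.EP1

set_option autoImplicit false
open Filter Topology
open Pool Pool.MP_184037_nt

namespace Pool.Agent.S16171

theorem result :
    ¬ ∀ F : ℕ → ℝ, Tendsto F atTop atTop →
      (∀ ε : ℝ, 0 < ε →
        Tendsto (fun N : ℕ =>
          (((Finset.range N).filter
            (fun n => ε ≤ |F n / ((ArithmeticFunction.sigma 1 n : ℕ) : ℝ)|)).card : ℝ) / (N : ℝ))
          atTop (𝓝 0)) →
      ∀ C : ℝ, ∀ N : ℕ, ∃ x : ℕ, N < x ∧
        C * F x < (Nat.card {n : ℕ //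
          (x : ℝ) < (n : ℝ) + ((ArithmeticFunction.sigma 1 n : ℕ) : ℝ) ∧
          (n : ℝ) + ((ArithmeticFunction.sigma 1 n : ℕ) : ℝ) < (x : ℝ) + F x} : ℝ) := by
  intro h
  obtain ⟨x, hx, h1⟩ := h Pool.Agent.H15.EP.FF Pool.Agent.H15.EP.FF_tend (by
    intro ε hε
    obtain ⟨N0, hN0⟩ := Metric.tendsto_atTop.1 Pool.Agent.H15.EP.FF_sigma ε hε
    refine squeeze_zero' (Eventually.of_forall (fun n => by positivity)) ?_
      (tendsto_const_div_atTop_nhds_zero_nat (N0 : ℝ))
    refine Eventually.of_forall (fun N => ?_)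
    apply div_le_div_of_nonneg_right _ (Nat.cast_nonneg _)
    have : (Finset.range N).filter (fun n => ε ≤ |Pool.Agent.H15.EP.FF n /
        ((ArithmeticFunction.sigma 1 n : ℕ) : ℝ)|) ⊆ Finset.range N0 := by
      intro n hn
      rw [Finset.mem_filter] at hn
      rw [Finset.mem_range]
      by_contra hh
      have := hN0 n (by omega)
      rw [Real.dist_eq, sub_zero] at this
      linarith [hn.2]
    have := Finset.card_le_card this
    rw [Finset.card_range] at this
    exact_mod_cast this) 8 0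
  have h2 := Pool.Agent.H15.EP.count_sigma x hx
  rw [← Nat.card_coe_set_eq] at h2
  exact absurd (lt_of_lt_of_le h1 h2) (lt_irrefl _)

end Pool.Agent.S16171
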