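import Pool.Statements.S16173
import Pool.Agent.H18.Bonf

set_option autoImplicit false
open N97cf5353
open Filter
open Pool Pool.MP_18694c_nt

namespace Pool.Agent.S16173

open Finset Pool.Agent.H18.Bonf

theorem divisor_bound (δ : ℝ) (hδ : 0 < δ) (B : ℕ) (hB : (2 : ℝ) ^ (1 / δ) ≤ B) (m : ℕ)
    (hm : m ≠ 0) :
    ((m.divisors.card : ℕ) : ℝ) ≤ (1 + 1 / ((2 : ℝ) ^ δ - 1)) ^ B * (m : ℝ) ^ δ := by
  have hr : (1 : ℝ) < (2 : ℝ) ^ δ := Real.one_lt_rpow (by norm_num) hδ
  set r : ℝ := (2 : ℝ) ^ δ with hrdef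
  set K : ℝ := 1 + 1 / (r - 1) with hK
  have hr1 : 0 < r - 1 := by linarith
  have hK1 : 1 ≤ K := by
    have : 0 < 1 / (r - 1) := by positivity
    linarith
  have hfac : ∀ p ∈ m.primeFactors, ((m.factorization p + 1 : ℕ) : ℝ) ≤
      (if p < B then K else 1) * (((p ^ m.factorization p : ℕ) : ℝ)) ^ δ := by
    intro p hp
    have hp2 : 2 ≤ p := (Nat.prime_of_mem_primeFactors hp).two_le
    set a := m.factorization p
    have hpow : (((p ^ a : ℕ) : ℝ)) ^ δ = ((p : ℝ) ^ δ) ^ a := by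
      push_cast
      rw [← Real.rpow_natCast, ← Real.rpow_mul (by positivity), mul_comm,
        Real.rpow_mul (by positivity), Real.rpow_natCast]
    rw [hpow]
    split_ifs with h
    · have h1 : r ≤ (p : ℝ) ^ δ :=
        Real.rpow_le_rpow (by norm_num) (by exact_mod_cast hp2) hδ.le
      have h2 : r ^ a ≤ ((p : ℝ) ^ δ) ^ a := pow_le_pow_left₀ (by linarith) h1 a
      have h3 : 1 + (a : ℝ) * (r - 1) ≤ r ^ a := by
        have := one_add_mul_le_pow (a := r - 1) (by linarith) a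
        simpa using this
      have h4 : ((a + 1 : ℕ) : ℝ) ≤ K * (1 + (a : ℝ) * (r - 1)) := by
        have e : K * (1 + (a : ℝ) * (r - 1)) = 1 + a * (r - 1) + 1 / (r - 1) + a := by
          rw [hK]; field_simp; ring
        rw [e]; push_cast
        have : 0 < 1 / (r - 1) := by positivity
        have : 0 ≤ (a : ℝ) * (r - 1) := by positivity
        linarith
      calc ((a + 1 : ℕ) : ℝ) ≤ K * (1 + (a : ℝ) * (r - 1)) := h4
        _ ≤ K * ((p : ℝ) ^ δ) ^ a := by
          apply mul_le_mul_of_nonneg_left (h3.trans h2) (by linarith)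
    · push Not at h
      have h1 : (2 : ℝ) ≤ (p : ℝ) ^ δ := by
        have h0 : (2 : ℝ) ^ (1 / δ) ≤ p := hB.trans (by exact_mod_cast h)
        have := Real.rpow_le_rpow (by positivity) h0 hδ.le
        rwa [← Real.rpow_mul (by norm_num), one_div_mul_cancel hδ.ne', Real.rpow_one] at this
      have h2 : (2 : ℝ) ^ a ≤ ((p : ℝ) ^ δ) ^ a := pow_le_pow_left₀ (by norm_num) h1 a
      have h3 : ((a + 1 : ℕ) : ℝ) ≤ (2 : ℝ) ^ a := by
        have : a + 1 ≤ 2 ^ a := Nat.lt_two_pow_self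
        exact_mod_cast this
      linarith
  rw [Nat.card_divisors hm]
  push_cast
  have hm' : (m : ℝ) ^ δ = ∏ p ∈ m.primeFactors, (((p ^ m.factorization p : ℕ) : ℝ)) ^ δ := by
    rw [Real.finsetProd_rpow _ _ (fun _ _ => by positivity)]
    congr 1
    rw [← Nat.cast_prod]
    congr 1
    conv_lhs => rw [← Nat.prod_factorization_pow_eq_self hm]
    rfl
  rw [hm']
  calc ∏ p ∈ m.primeFactors, ((m.factorization p : ℝ) + 1)
      ≤ ∏ p ∈ m.primeFactors,
        ((if p < B then K else 1) * (((p ^ m.factorization p : ℕ) : ℝ)) ^ δ) := by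
        apply Finset.prod_le_prod (fun _ _ => by positivity)
        intro p hp
        have := hfac p hp
        push_cast at this ⊢
        exact this
    _ = (∏ p ∈ m.primeFactors, (if p < B then K else 1)) *
        ∏ p ∈ m.primeFactors, (((p ^ m.factorization p : ℕ) : ℝ)) ^ δ := Finset.prod_mul_distrib
    _ ≤ _ := by
        apply mul_le_mul_of_nonneg_right _ (Finset.prod_nonneg (fun _ _ => by positivity))
        rw [Finset.prod_ite, Finset.prod_const, Finset.prod_const_one, mul_one]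
        apply pow_le_pow_right₀ hK1
        calc _ ≤ (Finset.range B).card := by
              apply Finset.card_le_card
              intro p hp
              simp only [Finset.mem_filter] at hp
              exact Finset.mem_range.2 hp.2
          _ = B := Finset.card_range B

def Bd (n q x : ℕ) : Prop := x ^ n % q = 1 % q

instance (n q x : ℕ) : Decidable (Bd n q x) := by unfold Bd; infer_instance

lemma Bd_mod (n q x : ℕ) : Bd n q x ↔ Bd n q (x % q) := by
  unfold Bd; rw [Nat.pow_mod]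

lemma g_le {n q : ℕ} (hn : 1 ≤ n) (hq : q.Prime) : g (Bd n) q ≤ Nat.gcd n (q - 1) := by
  have := Fact.mk hq
  classical
  have hγ : 0 < Nat.gcd n (q - 1) := Nat.gcd_pos_of_pos_left _ hn
  calc g (Bd n) q ≤ (Polynomial.nthRoots (Nat.gcd n (q - 1)) (1 : ZMod q)).toFinset.card := by
        apply card_le_card_of_injOn (fun x : ℕ => (x : ZMod q))
        · intro x hx
          have hx2 : Bd n q x := (mem_filter.1 (mem_coe.1 hx)).2
          have h1 : (x : ZMod q) ^ n = 1 := by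
            have : ((x ^ n : ℕ) : ZMod q) = ((1 : ℕ) : ZMod q) :=
              (ZMod.natCast_eq_natCast_iff' _ _ _).2 hx2
            simpa using this
          have h2 : (x : ZMod q) ≠ 0 := by
            intro h
            rw [h, zero_pow (by omega)] at h1
            exact zero_ne_one h1
          have h3 := ZMod.pow_card_sub_one_eq_one h2
          simp only [mem_coe, Multiset.mem_toFinset, Polynomial.mem_nthRoots hγ]
          exact pow_gcd_eq_one.2 ⟨h1, h3⟩
        · intro x hx y hy h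
          have hx1 := mem_range.1 (mem_filter.1 (mem_coe.1 hx)).1
          have hy1 := mem_range.1 (mem_filter.1 (mem_coe.1 hy)).1
          exact Nat.ModEq.eq_of_lt_of_lt ((ZMod.natCast_eq_natCast_iff _ _ _).1 h) hx1 hy1
    _ ≤ _ := (Multiset.toFinset_card_le _).trans (Polynomial.card_nthRoots _ _)

def tq (n q : ℕ) : ℕ := (q - 1) / Nat.gcd n (q - 1)

lemma tq_mul (n q : ℕ) : Nat.gcd n (q - 1) * tq n q = q - 1 :=
  Nat.mul_div_cancel' (Nat.gcd_dvd_right _ _)

lemma tq_ge {n q : ℕ} (hq : q.Prime) (h : ¬ (q - 1) ∣ n) : 2 ≤ tq n q := by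
  have h1 := tq_mul n q
  have h2 := hq.two_le
  by_contra h3
  have : tq n q = 0 ∨ tq n q = 1 := by omega
  rcases this with h4 | h4
  · rw [h4] at h1; omega
  · rw [h4, mul_one] at h1
    exact h (h1 ▸ Nat.gcd_dvd_left _ _)

lemma rho_tq {n q : ℕ} (hn : 1 ≤ n) (hq : q.Prime) (h : ¬ (q - 1) ∣ n) :
    rho (Bd n) q ≤ 1 / (tq n q : ℝ) := by
  have h1 := tq_ge hq h
  have h2 : g (Bd n) q * tq n q ≤ q := by
    have := Nat.mul_le_mul_right (tq n q) (g_le hn hq)
    rw [tq_mul] at this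
    omega
  unfold rho
  rw [div_le_div_iff₀ (by exact_mod_cast hq.pos) (by exact_mod_cast (show 0 < tq n q by omega)),
    one_mul]
  exact_mod_cast h2

lemma lam_le {n : ℕ} (hn : 1 ≤ n) (L : Finset ℕ) (hL : ∀ q ∈ L, q.Prime ∧ ¬ (q - 1) ∣ n)
    (hc : L.card ≤ n) :
    ∑ q ∈ L, rho (Bd n) q ≤ n.divisors.card * (1 + Real.log n) + 1 := by
  have hn' : (0 : ℝ) < n := by exact_mod_cast hn
  have h1 : ∑ q ∈ L, rho (Bd n) q ≤ ∑ q ∈ L, 1 / (tq n q : ℝ) :=
    sum_le_sum (fun q hq => rho_tq hn (hL q hq).1 (hL q hq).2)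
  rw [← sum_filter_add_sum_filter_not L (fun q => tq n q ≤ n) (fun q => 1 / (tq n q : ℝ))] at h1
  have h2 : ∑ q ∈ L.filter (fun q => ¬ tq n q ≤ n), 1 / (tq n q : ℝ) ≤ 1 := by
    have := sum_le_card_nsmul (L.filter (fun q => ¬ tq n q ≤ n)) (fun q => 1 / (tq n q : ℝ))
      (1 / (n : ℝ)) (fun q hq => by
        apply one_div_le_one_div_of_le hn'
        have := (mem_filter.1 hq).2
        exact_mod_cast (show n ≤ tq n q by omega))
    refine this.trans ?_
    rw [nsmul_eq_mul, mul_one_div, div_le_one hn']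
    exact_mod_cast (card_filter_le _ _).trans hc
  have h3 : ∑ q ∈ L.filter (fun q => tq n q ≤ n), 1 / (tq n q : ℝ)
      ≤ ∑ x ∈ n.divisors ×ˢ Icc 1 n, 1 / (x.2 : ℝ) := by
    have hinj : Set.InjOn (fun q => (Nat.gcd n (q - 1), tq n q))
        (L.filter (fun q => tq n q ≤ n) : Set ℕ) := by
      intro p hp q hq h
      have hp1 := (hL p (mem_filter.1 (mem_coe.1 hp)).1).1.two_le
      have hq1 := (hL q (mem_filter.1 (mem_coe.1 hq)).1).1.two_le
      have e1 := tq_mul n p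
      have e2 := tq_mul n q
      simp only [Prod.mk.injEq] at h
      rw [h.1, h.2] at e1
      omega
    have := sum_image (f := fun x : ℕ × ℕ => 1 / (x.2 : ℝ)) hinj
    rw [← this]
    apply sum_le_sum_of_subset_of_nonneg
    · intro x hx
      obtain ⟨q, hq, rfl⟩ := mem_image.1 hx
      obtain ⟨hq1, hq2⟩ := mem_filter.1 hq
      have := tq_ge (hL q hq1).1 (hL q hq1).2
      exact mem_product.2 ⟨Nat.mem_divisors.2 ⟨Nat.gcd_dvd_left _ _, by omega⟩,
        mem_Icc.2 ⟨by simp only; omega, hq2⟩⟩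
    · intro x _ _; positivity
  have h4 : ∑ x ∈ n.divisors ×ˢ Icc 1 n, 1 / (x.2 : ℝ) ≤ n.divisors.card * (1 + Real.log n) := by
    rw [sum_product]
    simp only [sum_const, nsmul_eq_mul]
    gcongr
    have := harmonic_le_one_add_log n
    rw [harmonic_eq_sum_Icc] at this
    push_cast at this
    simpa using this
  linarith

lemma K_le {n : ℕ} (hn : 9 ≤ n) (Λ : ℕ)
    (hΛ : n.divisors.card * (1 + Real.log n) + 1 ≤ (Λ : ℝ)) : K n ≤ n ^ (27 * Λ) := by
  set M := 2 ^ n - 1 with hM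
  have h2n : 2 ^ n = 2 * 2 ^ (n - 1) := by
    rw [← pow_succ']; congr 1; omega
  have hpos : 0 < 2 ^ (n - 1) := by positivity
  have hM0 : M ≠ 0 := by omega
  set L := M.primeFactors.filter (fun q => ¬ (q - 1) ∣ n) with hL
  set L0 := M.primeFactors.filter (fun q => (q - 1) ∣ n) with hL0
  set Q := ∏ q ∈ L0, q with hQ
  set τ := n.divisors.card with hτ
  have hLp : ∀ q ∈ L, q.Prime ∧ ¬ (q - 1) ∣ n := fun q hq =>
    ⟨Nat.prime_of_mem_primeFactors (mem_filter.1 hq).1, (mem_filter.1 hq).2⟩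
  have hc : L.card ≤ n := by
    have h1 : 2 ^ M.primeFactors.card ≤ ∏ q ∈ M.primeFactors, q :=
      pow_card_le_prod _ _ _ (fun q hq => (Nat.prime_of_mem_primeFactors hq).two_le)
    have h2 : ∏ q ∈ M.primeFactors, q ≤ M :=
      Nat.le_of_dvd (by omega) (Nat.prod_primeFactors_dvd M)
    have h3 : 2 ^ M.primeFactors.card < 2 ^ n := by omega
    have h4 := (Nat.pow_lt_pow_iff_right (by norm_num)).1 h3
    exact (card_filter_le _ _).trans h4.le
  have hcop : ∀ q ∈ L, (2 * Q).Coprime q := by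
    intro q hq
    have hqp := (hLp q hq).1
    apply Nat.Coprime.mul_left
    · rw [Nat.coprime_primes Nat.prime_two hqp]
      rintro rfl
      exact (hLp 2 hq).2 (by norm_num)
    · apply Nat.Coprime.prod_left
      intro p hp
      rw [Nat.coprime_primes (Nat.prime_of_mem_primeFactors (mem_filter.1 hp).1) hqp]
      rintro rfl
      exact (hLp p hq).2 (mem_filter.1 hp).2
  have hlog : 0 ≤ Real.log n := Real.log_nonneg (by exact_mod_cast (show 1 ≤ n by omega))
  have hτΛ : τ + 1 ≤ Λ := by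
    have : (τ : ℝ) + 1 ≤ Λ := by
      have : (0 : ℝ) ≤ τ * Real.log n := by positivity
      linarith
    exact_mod_cast this
  have hQle : Q ≤ n ^ (2 * τ) := by
    have h1 : Q ≤ (n ^ 2) ^ L0.card := by
      apply prod_le_pow_card
      intro q hq
      have := Nat.le_of_dvd (by omega) (mem_filter.1 hq).2
      nlinarith [show q ≤ n + 1 by omega]
    have h2 : L0.card ≤ τ := by
      apply card_le_card_of_injOn (fun q => q - 1)
      · intro q hq
        exact mem_coe.2 (Nat.mem_divisors.2 ⟨(mem_filter.1 (mem_coe.1 hq)).2, by omega⟩)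
      · intro p hp q hq h
        have hp1 := (Nat.prime_of_mem_primeFactors (mem_filter.1 (mem_coe.1 hp)).1).two_le
        have hq1 := (Nat.prime_of_mem_primeFactors (mem_filter.1 (mem_coe.1 hq)).1).two_le
        simp only at h
        omega
    rw [pow_mul]
    exact h1.trans (Nat.pow_le_pow_right (by positivity) h2)
  have hQ0 : 0 < Q := prod_pos (fun q hq =>
    (Nat.prime_of_mem_primeFactors (mem_filter.1 hq).1).pos)
  set r := 6 * Λ + 1 with hr
  set J := 3 * 9 ^ Λ * n * (3 * n ^ 2) ^ r with hJ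
  have hs := sieve (Bd n) (Bd_mod n) n (by omega) L
    (fun q hq => ⟨(hLp q hq).1, (g_le (by omega) (hLp q hq).1).trans
      (Nat.gcd_le_left _ (by omega))⟩) hc r (2 * Q) (2 * Q) J hcop
  have hl := (lam_le (by omega) L hLp hc).trans hΛ
  set l := ∑ q ∈ L, rho (Bd n) q with hld
  have hl0 : 0 ≤ l := sum_nonneg (fun q _ => rho_nonneg _ q)
  have hP : Real.exp (-(2 * l)) ≤ ∏ q ∈ L, (1 - rho (Bd n) q) := by
    rw [hld, mul_sum, ← sum_neg_distrib, Real.exp_sum]
    apply prod_le_prod (fun _ _ => (Real.exp_pos _).le)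
    intro q hq
    have h1 := rho_tq (show 1 ≤ n by omega) (hLp q hq).1 (hLp q hq).2
    have h2 : (2 : ℝ) ≤ tq n q := by exact_mod_cast tq_ge (hLp q hq).1 (hLp q hq).2
    have h3 : 1 / (tq n q : ℝ) ≤ 1 / 2 := one_div_le_one_div_of_le (by norm_num) h2
    have h4 := rho_nonneg (Bd n) q
    have h5 := Real.add_one_le_exp (2 * rho (Bd n) q)
    rw [Real.exp_neg, inv_le_iff_one_le_mul₀ (Real.exp_pos _)]
    nlinarith
  have he : Real.exp 2 ≤ 8 := by
    have h1 := Real.exp_one_lt_d9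
    have h2 : Real.exp 2 = Real.exp 1 * Real.exp 1 := by rw [← Real.exp_add]; norm_num
    nlinarith [Real.exp_pos 1]
  have he2 : Real.exp (2 * Λ) ≤ 8 ^ Λ := by
    rw [mul_comm, Real.exp_nat_mul]
    exact pow_le_pow_left₀ (Real.exp_pos _).le he _
  have h8 : (0 : ℝ) < 8 ^ Λ := by positivity
  have hP2 : 1 / (8 : ℝ) ^ Λ ≤ ∏ q ∈ L, (1 - rho (Bd n) q) := by
    refine le_trans ?_ hP
    rw [Real.exp_neg, ← one_div]
    apply one_div_le_one_div_of_le (Real.exp_pos _)
    exact (Real.exp_le_exp.2 (by linarith)).trans he2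
  have hE : l ^ r / r.factorial ≤ 1 / (8 : ℝ) ^ Λ / 2 := by
    have h1 := Real.pow_div_factorial_le_exp (2 * l) (by positivity) r
    have h2 : Real.exp (2 * l) ≤ 8 ^ Λ := (Real.exp_le_exp.2 (by linarith)).trans he2
    have h3 : (2 : ℝ) ^ r = 2 * (8 ^ Λ * 8 ^ Λ) := by
      rw [hr, pow_succ, pow_mul, ← mul_pow]; norm_num [mul_comm]
    rw [mul_pow, mul_div_assoc, h3] at h1
    rw [div_div, le_div_iff₀ (by positivity)]
    have h4 : 2 * (8 ^ Λ * 8 ^ Λ) * (l ^ r / r.factorial) ≤ 8 ^ Λ := h1.trans h2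
    nlinarith
  have hSpos : 0 < S (Bd n) L (2 * Q) (2 * Q) J := by
    have h1 : (0 : ℝ) < S (Bd n) L (2 * Q) (2 * Q) J := by
      have hJr : (J : ℝ) = 3 * 9 ^ Λ * n * (3 * (n : ℝ) ^ 2) ^ r := by rw [hJ]; push_cast; ring
      have hn0 : (0 : ℝ) < n := by exact_mod_cast (show 0 < n by omega)
      set W := (3 * (n : ℝ) ^ 2) ^ r with hW
      have hW0 : 0 < W := by positivity
      have hcn : (L.card : ℝ) * W ≤ n * W := by
        have : (L.card : ℝ) ≤ n := by exact_mod_cast hc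
        gcongr
      have h89 : (1 : ℝ) ≤ 9 ^ Λ * (1 / 8 ^ Λ) := by
        rw [mul_one_div, one_le_div h8]
        exact pow_le_pow_left₀ (by norm_num) (by norm_num) _
      have hJ0 : (0 : ℝ) ≤ J := by positivity
      have h2 := mul_le_mul_of_nonneg_left hP2 hJ0
      have h3 := mul_le_mul_of_nonneg_left hE hJ0
      have h4 : 3 * (n * W) ≤ J * (1 / 8 ^ Λ) := by
        rw [hJr]
        have := mul_le_mul_of_nonneg_left h89 (show 0 ≤ 3 * (n * W) by positivity)
        nlinarith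
      have h5 := (abs_le.1 hs).1
      have h6 : 0 < n * W := by positivity
      nlinarith
    exact_mod_cast h1
  obtain ⟨j, hj⟩ := card_pos.1 hSpos
  obtain ⟨hj1, hj2⟩ := mem_filter.1 hj
  have hj3 := mem_range.1 hj1
  have hk : K n ≤ 2 * Q + 2 * Q * j := by
    apply Nat.sInf_le
    refine ⟨by omega, Nat.Coprime.symm (Nat.coprime_of_dvd ?_)⟩
    intro p hp h1 h2
    have hk1 : 1 ≤ (2 * Q + 2 * Q * j) ^ n := Nat.one_le_pow _ _ (by omega)
    have hmem : p ∈ M.primeFactors := Nat.mem_primeFactors.2 ⟨hp, h1, hM0⟩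
    by_cases h : (p - 1) ∣ n
    · have h3 : p ∣ Q := dvd_prod_of_mem _ (mem_filter.2 ⟨hmem, h⟩)
      have h4 : p ∣ (2 * Q + 2 * Q * j) ^ n :=
        dvd_pow (dvd_add (h3.mul_left _) ((h3.mul_left _).mul_right _)) (by omega)
      have h5 := Nat.dvd_sub h4 h2
      rw [Nat.sub_sub_self hk1] at h5
      exact hp.one_lt.ne' (Nat.dvd_one.1 h5)
    · exact hj2 p (mem_filter.2 ⟨hmem, h⟩) ((Nat.modEq_iff_dvd' hk1).2 h2).symm
  have hk2 : 2 * Q + 2 * Q * j ≤ 2 * Q * J := by nlinarith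
  have b1 : 9 ^ Λ ≤ n ^ Λ := Nat.pow_le_pow_left hn _
  have b2 : (3 * n ^ 2) ^ r ≤ n ^ (3 * r) := by
    rw [pow_mul]
    apply Nat.pow_le_pow_left
    nlinarith
  calc K n ≤ 2 * Q * J := hk.trans hk2
    _ = 6 * Q * 9 ^ Λ * n * (3 * n ^ 2) ^ r := by rw [hJ]; ring
    _ ≤ n * n ^ (2 * τ) * n ^ Λ * n * n ^ (3 * r) := by gcongr; omega
    _ = n ^ (2 + 2 * τ + Λ + 3 * r) := by ring
    _ ≤ n ^ (27 * Λ) := Nat.pow_le_pow_right (by omega) (by omega)

lemma asym : ∀ᶠ y : ℝ in atTop,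
    y * (5 + 2 * y + ((2 : ℝ) ^ y + 1) * (2 * y)) < Real.exp y := by
  have h := (tendsto_exp_mul_div_rpow_atTop 2 0.3 (by norm_num)).eventually_gt_atTop 11
  filter_upwards [h, eventually_ge_atTop 1] with y hy hy1
  rw [lt_div_iff₀ (by positivity), Real.rpow_two] at hy
  have h1 : (2 : ℝ) ^ y ≤ Real.exp (0.7 * y) := by
    rw [Real.rpow_def_of_pos (by norm_num)]
    apply Real.exp_le_exp.2
    have := Real.log_two_lt_d9
    nlinarith
  have h2 : (1 : ℝ) ≤ 2 ^ y := Real.one_le_rpow (by norm_num) (by linarith)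
  have h3 : Real.exp y = Real.exp (0.3 * y) * Real.exp (0.7 * y) := by
    rw [← Real.exp_add]; congr 1; ring
  have h4 : y * (5 + 2 * y + ((2 : ℝ) ^ y + 1) * (2 * y)) ≤ 11 * y ^ 2 * 2 ^ y := by
    have a1 : y ≤ y ^ 2 := by nlinarith
    have a2 : y ^ 2 ≤ y ^ 2 * 2 ^ y := by nlinarith
    nlinarith
  calc _ ≤ 11 * y ^ 2 * 2 ^ y := h4
    _ ≤ 11 * y ^ 2 * Real.exp (0.7 * y) := by gcongr
    _ < _ := by rw [h3]; gcongr

/-- ∃ c>0, ∀ ε>0, for all sufficiently large n, (least k≥2 with gcd(k^n−1, 2^n−1)=1) < exp(n^((c+ε)/log log n)) (natural log). -/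
theorem result :
    ∃ c > (0 : ℝ), ∀ ε > (0 : ℝ), ∀ᶠ n : ℕ in atTop, (K n : ℝ) < Real.exp ((n : ℝ) ^ ((c + ε) / Real.log (Real.log (n : ℝ)))) := by
  refine ⟨2, by norm_num, fun ε hε => ?_⟩
  have hT : Tendsto (fun n : ℕ => Real.log (Real.log (n : ℝ))) atTop atTop :=
    Real.tendsto_log_atTop.comp (Real.tendsto_log_atTop.comp tendsto_natCast_atTop_atTop)
  have hT1 : Tendsto (fun n : ℕ => Real.log (n : ℝ)) atTop atTop :=
    Real.tendsto_log_atTop.comp tendsto_natCast_atTop_atTop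
  filter_upwards [hT.eventually asym, hT.eventually_ge_atTop 1, hT1.eventually_ge_atTop 1,
    eventually_ge_atTop 9] with n hy hy1 hx1 hn
  set x := Real.log (n : ℝ) with hx
  set y := Real.log x with hyd
  have hn0 : (0 : ℝ) < n := by exact_mod_cast (show 0 < n by omega)
  have hex : Real.exp y = x := Real.exp_log (by linarith)
  have hen : Real.exp x = n := Real.exp_log hn0
  set τ := n.divisors.card with hτ
  have hτ1 : (1 : ℝ) ≤ τ := by
    have : 0 < τ := card_pos.2 ⟨1, Nat.one_mem_divisors.2 (by omega)⟩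
    exact_mod_cast this
  set Λ := ⌈(τ : ℝ) * (1 + x) + 1⌉₊ with hΛ
  have hK := K_le hn Λ (Nat.le_ceil _)
  have hΛ2 : (Λ : ℝ) ≤ 4 * τ * x := by
    have := Nat.ceil_lt_add_one (show 0 ≤ (τ : ℝ) * (1 + x) + 1 by positivity)
    nlinarith
  have hy0 : 0 < y := by linarith
  have hd := divisor_bound (1 / y) (by positivity) ⌈(2 : ℝ) ^ y⌉₊
    (by rw [one_div_one_div]; exact Nat.le_ceil _) n (by omega)
  have hB : (⌈(2 : ℝ) ^ y⌉₊ : ℝ) ≤ 2 ^ y + 1 := (Nat.ceil_lt_add_one (by positivity)).le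
  have h1 : 1 + 1 / ((2 : ℝ) ^ (1 / y) - 1) ≤ Real.exp (2 * y) := by
    have a1 : 1 / (2 * y) ≤ (2 : ℝ) ^ (1 / y) - 1 := by
      rw [Real.rpow_def_of_pos (by norm_num)]
      have b1 := Real.add_one_le_exp (Real.log 2 * (1 / y))
      have b2 := Real.log_two_gt_d9
      have b3 : 1 / (2 * y) = 1 / 2 * (1 / y) := by field_simp
      have b4 : 0 < 1 / y := by positivity
      nlinarith
    have a2 : 1 / ((2 : ℝ) ^ (1 / y) - 1) ≤ 2 * y := by
      have := one_div_le_one_div_of_le (by positivity) a1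
      rwa [one_div_one_div] at this
    linarith [Real.add_one_le_exp (2 * y)]
  have h0 : 0 ≤ 1 + 1 / ((2 : ℝ) ^ (1 / y) - 1) := by
    have : (1 : ℝ) < (2 : ℝ) ^ (1 / y) := Real.one_lt_rpow (by norm_num) (by positivity)
    have : 0 < (2 : ℝ) ^ (1 / y) - 1 := by linarith
    positivity
  have h2 : (τ : ℝ) ≤ Real.exp ((2 ^ y + 1) * (2 * y) + x / y) := by
    refine hd.trans ?_
    rw [Real.exp_add, Real.rpow_def_of_pos hn0, ← hx, mul_one_div]
    gcongr
    calc _ ≤ Real.exp (2 * y) ^ ⌈(2 : ℝ) ^ y⌉₊ := pow_le_pow_left₀ h0 h1 _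
      _ = Real.exp (⌈(2 : ℝ) ^ y⌉₊ * (2 * y)) := (Real.exp_nat_mul _ _).symm
      _ ≤ _ := by gcongr
  have h3 : (108 : ℝ) ≤ Real.exp 5 := by
    have a1 := Real.exp_one_gt_d9
    have a2 : Real.exp 5 = Real.exp 1 ^ 5 := by rw [← Real.exp_nat_mul]; norm_num
    rw [a2]
    calc (108 : ℝ) ≤ 2.7 ^ 5 := by norm_num
      _ ≤ _ := pow_le_pow_left₀ (by norm_num) (by linarith) _
  have h4 : 5 + 2 * y + (2 ^ y + 1) * (2 * y) < x / y := by
    rw [lt_div_iff₀ hy0]; linarith
  have h5 : 108 * τ * x ^ 2 < (n : ℝ) ^ ((2 + ε) / y) := by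
    rw [Real.rpow_def_of_pos hn0, ← hx]
    calc 108 * (τ : ℝ) * x ^ 2
        ≤ Real.exp 5 * Real.exp ((2 ^ y + 1) * (2 * y) + x / y) * Real.exp (2 * y) := by
          have : x ^ 2 = Real.exp (2 * y) := by
            rw [← hex, ← Real.exp_nat_mul]; norm_num
          rw [this]; gcongr
      _ = Real.exp (5 + 2 * y + (2 ^ y + 1) * (2 * y) + x / y) := by
          rw [← Real.exp_add, ← Real.exp_add]; congr 1; ring
      _ < _ := by
          apply Real.exp_lt_exp.2
          have a1 : x * ((2 + ε) / y) = x / y + x / y + ε * (x / y) := by ring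
          have a2 : 0 ≤ ε * (x / y) := by positivity
          linarith
  calc (K n : ℝ) ≤ (n : ℝ) ^ (27 * Λ) := by exact_mod_cast hK
    _ = Real.exp ((27 * Λ : ℕ) * x) := by rw [Real.exp_nat_mul, hen]
    _ ≤ Real.exp (108 * τ * x ^ 2) := by
        apply Real.exp_le_exp.2
        push_cast
        nlinarith
    _ < _ := Real.exp_lt_exp.2 h5

end Pool.Agent.S16173
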