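import Pool.Statements.S16202
import Pool.Agent.H15.SF1

set_option autoImplicit false
open Pool Pool.MP_1bab7f_nt

namespace Pool.Agent.S16202

theorem result :
    ¬ (∀ (k : ℕ) (a : ℕ → ℤ), 0 < k → StrictMono a →
      (∀ n : ℕ, k ≤ n + 1 →
        (a n < a (n + 1) ∧
         (∀ i j : ℕ, i ≤ n → j ≤ n → a i + a j ≠ a (n + 1)) ∧
         (∀ x : ℤ, a n < x → x < a (n + 1) →
            ∃ i j : ℕ, i ≤ n ∧ j ≤ n ∧ a i + a j = x))) →
      ∃ p : ℕ, 0 < p ∧ ∃ N : ℕ, ∀ m : ℕ, N ≤ m →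
        a (m + p + 1) - a (m + p) = a (m + 1) - a m) := by
  intro h
  obtain ⟨k, a, h1, h2, h3, h4, h5, h6⟩ := Pool.Agent.H15.SF.seq_exists 7 (Or.inr rfl)
  obtain ⟨p, hp, N, hN⟩ := h k (fun i => (a i : ℤ)) (by omega)
    (fun i j hij => by have := h3 hij; simpa using this)
    (fun n hn => by
      refine ⟨by have := h3 (Nat.lt_succ_self n); simpa using this, ?_, ?_⟩
      · intro i j _ _ hh
        exact h4 i j (n + 1) (by omega) (by omega)
      · intro x hx1 hx2
        obtain ⟨i, j, b1, b2, _, b3⟩ := h5 n x.toNat hn (by omega) (by omega)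
        exact ⟨i, j, b1, b2, by omega⟩)
  exact h6 p N hp (fun n hn => by have := hN n hn; omega)

end Pool.Agent.S16202
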