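import Pool.Statements.S16206

set_option autoImplicit false
open Pool Pool.MP_1bbd34_nt

namespace Pool.Agent.S16206

/-- The negation of the preceding statement: For every n with consecutive primes p < n ≤ q, some prime dividing n(n+1) exceeds min(n − p, q − n); equivalently, the largest prime factor of n(n+1) exceeds that minimum. -/
theorem result :
    ¬ (∀ n p q : ℕ, p.Prime → q.Prime → p < n → n ≤ q →
      (∀ r : ℕ, r.Prime → p < r → r < q → False) →
      ∃ r : ℕ, r.Prime ∧ r ∣ n * (n + 1) ∧ min (n - p) (q - n) < r) := by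
  intro h
  obtain ⟨r, hr, hd, hlt⟩ := h 11859210 11859187 11859233 (by norm_num) (by norm_num) (by norm_num) (by norm_num) (by
    intro r hr h1 h2
    interval_cases r <;> norm_num at hr)
  have e : 11859210 * (11859210 + 1) = 2 * 3 ^ 4 * 5 * 7 * 11 ^ 4 * 13 * 19 ^ 4 := by norm_num
  rw [e] at hd
  have key : ∀ s k : ℕ, s.Prime → r ∣ s ^ k → r ≤ s := fun s k hs h =>
    Nat.le_of_dvd hs.pos (hr.dvd_of_dvd_pow h)
  have h19 : r ≤ 19 := by
    rcases (Nat.Prime.dvd_mul hr).1 hd with hd | hd
    · rcases (Nat.Prime.dvd_mul hr).1 hd with hd | hd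
      · rcases (Nat.Prime.dvd_mul hr).1 hd with hd | hd
        · rcases (Nat.Prime.dvd_mul hr).1 hd with hd | hd
          · rcases (Nat.Prime.dvd_mul hr).1 hd with hd | hd
            · rcases (Nat.Prime.dvd_mul hr).1 hd with hd | hd
              · have := Nat.le_of_dvd (by norm_num) hd; omega
              · have := key 3 4 (by norm_num) hd; omega
            · have := Nat.le_of_dvd (by norm_num) hd; omega
          · have := Nat.le_of_dvd (by norm_num) hd; omega
        · have := key 11 4 (by norm_num) hd; omega
      · have := Nat.le_of_dvd (by norm_num) hd; omega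
    · exact key 19 4 (by norm_num) hd
  omega

end Pool.Agent.S16206
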