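import Pool.Statements.S16227

set_option autoImplicit false
open N41f07a28
open Asymptotics Filter
open Pool Pool.MP_1d29c3_nt

namespace Pool.Agent.S16227

open Finset

lemma pi_lower (z : ℕ) (hz : 32 ≤ z) : (z : ℝ) / 2 ≤ (Nat.primeCounting z : ℝ) * Real.log z := by
  have h := Chebyshev.pi_ge z
  have hz' : (32 : ℝ) ≤ z := by exact_mod_cast hz
  have hl : 0 < Real.log z := Real.log_pos (by linarith)
  rw [div_le_iff₀ hl] at h
  have h2 := Real.log_two_gt_d9
  have h3 := Real.log_two_lt_d9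
  have h4 : Real.log (((z : ℝ) + 1) / 16) ≤ ((z : ℝ) + 1) / 16 - 1 :=
    Real.log_le_sub_one_of_pos (by positivity)
  rw [Real.log_div (by positivity) (by norm_num),
    show (16 : ℝ) = 2 ^ 4 by norm_num, Real.log_pow] at h4
  push_cast at h4
  nlinarith

lemma pi_upper (A B : ℕ) (hA : 0 < A) : ∀ᶠ y : ℕ in atTop, B * Nat.primeCounting (A * y) < y := by
  have h1 := Chebyshev.eventually_primeCounting_le (ε := 1) one_pos
  have ht : Tendsto (fun y : ℕ => ((A * y : ℕ) : ℝ)) atTop atTop :=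
    tendsto_natCast_atTop_atTop.comp (tendsto_id.const_mul_atTop' hA)
  have h2 := ht.eventually h1
  have h3 := (Real.tendsto_log_atTop.comp ht).eventually_gt_atTop (3 * A * B + 1)
  filter_upwards [h2, h3, eventually_gt_atTop 0] with y hy2 hy3 hy0
  simp only [Nat.floor_natCast, Function.comp] at hy2 hy3
  have hl4 : Real.log 4 < 2 := by
    rw [show (4 : ℝ) = 2 ^ 2 by norm_num, Real.log_pow]
    have := Real.log_two_lt_d9; push_cast; linarith
  have hAB : (0 : ℝ) ≤ 3 * A * B := by positivity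
  have hl : 0 < Real.log ((A * y : ℕ) : ℝ) := by linarith
  rw [le_div_iff₀ hl] at hy2
  have hy' : (0 : ℝ) < y := by exact_mod_cast hy0
  have hA' : (0 : ℝ) < A := by exact_mod_cast hA
  have key : (B : ℝ) * Nat.primeCounting (A * y) < y := by
    apply lt_of_mul_lt_mul_right _ hl.le
    have hB : (0 : ℝ) ≤ B := Nat.cast_nonneg B
    have e1 : (B : ℝ) * Nat.primeCounting (A * y) * Real.log ((A * y : ℕ) : ℝ) ≤
        B * ((Real.log 4 + 1) * ((A * y : ℕ) : ℝ)) := by
      rw [mul_assoc]; exact mul_le_mul_of_nonneg_left hy2 hB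
    have e2 : (B : ℝ) * ((Real.log 4 + 1) * ((A * y : ℕ) : ℝ)) ≤ B * (3 * (A * y)) := by
      apply mul_le_mul_of_nonneg_left _ hB
      push_cast
      apply mul_le_mul_of_nonneg_right (by linarith) (by positivity)
    have e3 : (y : ℝ) * (3 * A * B + 1) < y * Real.log ((A * y : ℕ) : ℝ) :=
      mul_lt_mul_of_pos_left hy3 hy'
    nlinarith
  exact_mod_cast key

lemma step (n : ℕ) : ∃ (z t : ℕ) (S : Finset ℕ), n ≤ z ∧ 1 ≤ t ∧ (∀ p ∈ S, p.Prime ∧ z < p) ∧
    2 ^ (n + 3) * S.card ≤ Nat.primeCounting z ∧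
    ∀ a, 1 ≤ a → a ≤ n → ∃ N, a + t = a * N ∧ ∀ p : ℕ, p.Prime → p ∣ N → p ∈ S := by
  classical
  obtain ⟨A, hA⟩ : ∃ A, A = 2 ^ (n + 6) * (n + 1) := ⟨_, rfl⟩
  have hA0 : 0 < A := by rw [hA]; positivity
  obtain ⟨y, hy1, hy2, hy3, hy4⟩ := ((pi_upper A n hA0).and ((eventually_ge_atTop 32).and
    ((eventually_ge_atTop n.factorial).and (eventually_ge_atTop n)))).exists
  obtain ⟨z, hz⟩ : ∃ z, z = A * y := ⟨_, rfl⟩
  have hyz : y ≤ z := by rw [hz]; exact Nat.le_mul_of_pos_left _ hA0
  rw [← hz] at hy1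
  set c : ℕ → ℕ := fun a => n.factorial / a * primorial y with hc
  have hk : ∃ k ∈ Icc 1 y, ∀ a ∈ Icc 1 n, ∀ p ∈ (Nat.primesLE z).filter (fun p => y < p),
      ¬ p ∣ 1 + c a * k := by
    by_contra hcon
    push Not at hcon
    choose! fa hfa fp hfp hdvd using hcon
    have hinj : Set.InjOn (fun k => (fa k, fp k)) (Icc 1 y : Finset ℕ) := by
      intro k hk k' hk' hkk
      simp only [Prod.mk.injEq] at hkk
      have hk1 := mem_coe.mp hk
      have hk1' := mem_coe.mp hk'
      have d1 := hdvd k hk1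
      have d2 := hdvd k' hk1'
      rw [← hkk.1, ← hkk.2] at d2
      have hp := mem_filter.mp (hfp k hk1)
      have hpp : (fp k).Prime := (Nat.mem_primesLE.mp hp.1).2
      have hnd : ¬ fp k ∣ c (fa k) := by
        intro h
        have := (Nat.dvd_add_left (h.mul_right k)).mp d1
        exact hpp.one_lt.ne' (Nat.dvd_one.mp this)
      rw [mem_Icc] at hk1 hk1'
      have main : ∀ u v, u ≤ v → v ≤ y → 1 ≤ u → fp k ∣ 1 + c (fa k) * u →
          fp k ∣ 1 + c (fa k) * v → u = v := by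
        intro u v huv hv hu du dv
        obtain ⟨w, rfl⟩ := Nat.exists_eq_add_of_le huv
        rw [mul_add, ← add_assoc] at dv
        have := (Nat.dvd_add_right du).mp dv
        have := ((Nat.Prime.dvd_mul hpp).mp this).resolve_left hnd
        have := Nat.eq_zero_of_dvd_of_lt this (by omega)
        omega
      rcases le_total k k' with h | h
      · exact main k k' h hk1'.2 hk1.1 d1 d2
      · exact (main k' k h hk1.2 hk1'.1 d2 d1).symm
    have hmap : Set.MapsTo (fun k => (fa k, fp k)) (Icc 1 y : Finset ℕ)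
        ((Icc 1 n ×ˢ Nat.primesLE z : Finset (ℕ × ℕ))) := by
      intro k hk
      have hk1 := mem_coe.mp hk
      exact mem_coe.mpr (mem_product.mpr ⟨hfa k hk1, (mem_filter.mp (hfp k hk1)).1⟩)
    have := card_le_card_of_injOn _ hmap hinj
    rw [card_product, Nat.card_Icc, Nat.card_Icc, Nat.primesLE_card_eq_primeCounting] at this
    simp only [Nat.add_sub_cancel] at this
    omega
  obtain ⟨k, hk1, hk2⟩ := hk
  rw [mem_Icc] at hk1
  have hbig : ∀ a ∈ Icc 1 n, ∀ p : ℕ, p.Prime → p ∣ 1 + c a * k → z < p := by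
    intro a ha p hp hd
    by_contra hle
    push Not at hle
    by_cases hyp : y < p
    · exact hk2 a ha p (mem_filter.mpr ⟨Nat.mem_primesLE.mpr ⟨hle, hp⟩, hyp⟩) hd
    · have h1 : p ∣ primorial y := hp.dvd_primorial_iff.mpr (by omega)
      have h2 : p ∣ c a * k := (h1.mul_left _).mul_right _
      have := (Nat.dvd_add_left h2).mp hd
      exact hp.one_lt.ne' (Nat.dvd_one.mp this)
  refine ⟨z, n.factorial * primorial y * k, (Icc 1 n).biUnion (fun a => (1 + c a * k).primeFactors),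
    by omega, ?_, ?_, ?_, ?_⟩
  · have := Nat.factorial_pos n
    have := primorial_pos y
    exact Nat.mul_pos (Nat.mul_pos ‹_› ‹_›) hk1.1
  · intro p hp
    obtain ⟨a, ha, hp2⟩ := mem_biUnion.mp hp
    exact ⟨Nat.prime_of_mem_primeFactors hp2,
      hbig a ha p (Nat.prime_of_mem_primeFactors hp2) (Nat.dvd_of_mem_primeFactors hp2)⟩
  · have hz32 : 32 ≤ z := by omega
    have hz' : (32 : ℝ) ≤ z := by exact_mod_cast hz32
    have hl : 0 < Real.log z := Real.log_pos (by linarith)
    have hom : ∀ a ∈ Icc 1 n, ((1 + c a * k).primeFactors.card : ℝ) * Real.log z ≤ 4 * y := by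
      intro a ha
      have h1 : z ^ (1 + c a * k).primeFactors.card ≤ ∏ p ∈ (1 + c a * k).primeFactors, p :=
        pow_card_le_prod _ _ _ (fun p hp => (hbig a ha p (Nat.prime_of_mem_primeFactors hp)
          (Nat.dvd_of_mem_primeFactors hp)).le)
      have h2 : ∏ p ∈ (1 + c a * k).primeFactors, p ≤ 1 + c a * k :=
        Nat.le_of_dvd (by omega) (Nat.prod_primeFactors_dvd _)
      have h3 : y ≤ 2 ^ y := Nat.lt_two_pow_self.le
      have h4 : c a * k ≤ 2 ^ y * 4 ^ y * 2 ^ y := by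
        apply Nat.mul_le_mul _ (hk1.2.trans h3)
        exact Nat.mul_le_mul ((Nat.div_le_self _ _).trans (hy3.trans h3)) (primorial_le_four_pow y)
      have h5 : 1 + c a * k ≤ 2 ^ (5 * y) := by
        have e1 : 2 ^ y * 4 ^ y * 2 ^ y = 2 ^ (4 * y) := by
          rw [show (4 : ℕ) = 2 ^ 2 by norm_num, ← pow_mul, ← pow_add, ← pow_add]; congr 1; ring
        have e2 : 2 ^ (4 * y + 1) ≤ 2 ^ (5 * y) := Nat.pow_le_pow_right (by norm_num) (by omega)
        have e3 : 1 ≤ 2 ^ (4 * y) := Nat.one_le_two_pow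
        rw [pow_succ] at e2
        omega
      have h6 : (z : ℝ) ^ (1 + c a * k).primeFactors.card ≤ 2 ^ (5 * y) := by
        exact_mod_cast h1.trans (h2.trans h5)
      have h7 := Real.log_le_log (by positivity) h6
      rw [Real.log_pow, Real.log_pow] at h7
      have h8 := Real.log_two_lt_d9
      have h9 : (0 : ℝ) ≤ y := Nat.cast_nonneg y
      push_cast at h7
      nlinarith
    have hS : (((Icc 1 n).biUnion (fun a => (1 + c a * k).primeFactors)).card : ℝ) * Real.log z
        ≤ n * (4 * y) := by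
      have h1 : (((Icc 1 n).biUnion (fun a => (1 + c a * k).primeFactors)).card : ℝ) ≤
          ∑ a ∈ Icc 1 n, ((1 + c a * k).primeFactors.card : ℝ) := by
        exact_mod_cast card_biUnion_le
      have h2 := sum_le_sum hom
      rw [← sum_mul, sum_const, Nat.card_Icc, Nat.add_sub_cancel, nsmul_eq_mul] at h2
      exact (mul_le_mul_of_nonneg_right h1 hl.le).trans h2
    have hp := pi_lower z hz32
    have hzr : (z : ℝ) = 2 ^ (n + 6) * (n + 1) * y := by rw [hz, hA]; push_cast; ring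
    have key : (2 : ℝ) ^ (n + 3) * ((Icc 1 n).biUnion (fun a => (1 + c a * k).primeFactors)).card
        ≤ Nat.primeCounting z := by
      apply le_of_mul_le_mul_right _ hl
      have h1 : (2 : ℝ) ^ (n + 3) * (n * (4 * y)) ≤ z / 2 := by
        rw [hzr]
        have : (0 : ℝ) ≤ 2 ^ n * y := by positivity
        have e : (2 : ℝ) ^ (n + 6) * (n + 1) * y / 2 - 2 ^ (n + 3) * (n * (4 * y)) = 32 * (2 ^ n * y) := by
          ring
        linarith
      have h2 := mul_le_mul_of_nonneg_left hS (show (0 : ℝ) ≤ 2 ^ (n + 3) by positivity)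
      rw [mul_assoc]
      linarith
    exact_mod_cast key
  · intro a ha1 ha2
    refine ⟨1 + c a * k, ?_, fun p hp hd => ?_⟩
    · have : a * (n.factorial / a) = n.factorial := Nat.mul_div_cancel' (Nat.dvd_factorial ha1 ha2)
      simp only [hc]
      nth_rewrite 1 [← this]
      ring
    · exact mem_biUnion.mpr ⟨a, mem_Icc.mpr ⟨ha1, ha2⟩,
        Nat.mem_primeFactors.mpr ⟨hp, hd, by omega⟩⟩

lemma half (r x : ℕ) (hr : r < 2) :
    ∃ T : Finset ℕ, Nat.primeCounting x / 2 ≤ T.card ∧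
      ∀ p ∈ T, p ≤ x ∧ ∃ j, p = Nat.nth Nat.Prime (2 * j + r) := by
  refine ⟨(range (Nat.primeCounting x / 2)).image (fun j => Nat.nth Nat.Prime (2 * j + r)), ?_, ?_⟩
  · rw [card_image_of_injective, card_range]
    intro i j hij
    have := Nat.nth_injective Nat.infinite_setOfPred_prime hij
    omega
  · intro p hp
    obtain ⟨j, hj, rfl⟩ := mem_image.mp hp
    rw [mem_range] at hj
    refine ⟨?_, j, rfl⟩
    have : 2 * j + r < Nat.count Nat.Prime (x + 1) := by
      have : Nat.primeCounting x = Nat.count Nat.Prime (x + 1) := rfl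
      omega
    exact Nat.lt_succ_iff.mp (Nat.nth_lt_of_lt_count this)

lemma bigO (f : ℕ → ℕ) (h : ∀ x, Nat.primeCounting x ≤ 4 * f x + 2) :
    (fun x : ℕ ↦ (x : ℝ) / Real.log x) =O[atTop] (fun x ↦ (f x : ℝ)) := by
  apply IsBigO.of_bound 12
  filter_upwards [eventually_ge_atTop 32] with x hx
  have hx' : (32 : ℝ) ≤ x := by exact_mod_cast hx
  have hl : 0 < Real.log x := Real.log_pos (by linarith)
  have h1 := pi_lower x hx
  have h2 : 3 ≤ Nat.primeCounting x :=
    le_trans (by decide : 3 ≤ Nat.primeCounting 5) (Nat.monotone_primeCounting (by omega))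
  have h3 : Nat.primeCounting x ≤ 6 * f x := by have := h x; omega
  have h4 : (Nat.primeCounting x : ℝ) ≤ 6 * f x := by exact_mod_cast h3
  rw [Real.norm_of_nonneg (by positivity), Real.norm_of_nonneg (by positivity), div_le_iff₀ hl]
  nlinarith

theorem result :
    ∃ P : Set ℕ, P ⊆ {p : ℕ | p.Prime} ∧ (fun x : ℕ ↦ (x : ℝ) / Real.log x) =O[atTop] (fun x ↦ ((P ∩ Set.Iic x).ncard : ℝ)) ∧ (fun x : ℕ ↦ (x : ℝ) / Real.log x) =O[atTop] (fun x ↦ ((({p : ℕ | p.Prime} \ P) ∩ Set.Iic x).ncard : ℝ)) ∧ HasTranslationProperty (composedOf P) := by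
  classical
  choose z t S hz ht hS hcard hN using step
  refine ⟨{p | p.Prime ∧ ((∃ n, p ∈ S n) ∨ ¬ ∃ j, p = Nat.nth Nat.Prime (2 * j + 1))},
    fun p hp => hp.1, ?_, ?_, ?_⟩
  · apply bigO
    intro x
    obtain ⟨T, hT1, hT2⟩ := half 0 x (by norm_num)
    have : T.card ≤ ({p | p.Prime ∧ ((∃ n, p ∈ S n) ∨ ¬ ∃ j, p = Nat.nth Nat.Prime (2 * j + 1))}
        ∩ Set.Iic x).ncard := by
      rw [← Set.ncard_coe_finset]
      apply Set.ncard_le_ncard _ ((Set.finite_Iic x).subset Set.inter_subset_right)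
      intro p hp
      obtain ⟨h1, j, rfl⟩ := hT2 p (mem_coe.mp hp)
      refine ⟨⟨Nat.prime_nth_prime _, Or.inr ?_⟩, h1⟩
      rintro ⟨i, hi⟩
      have := Nat.nth_injective Nat.infinite_setOfPred_prime hi
      omega
    omega
  · apply bigO
    intro x
    obtain ⟨T, hT1, hT2⟩ := half 1 x (by norm_num)
    set U := ((range x).filter (fun n => z n < x)).biUnion S with hU
    have h1 : (T \ U).card ≤ (({p : ℕ | p.Prime} \
        {p | p.Prime ∧ ((∃ n, p ∈ S n) ∨ ¬ ∃ j, p = Nat.nth Nat.Prime (2 * j + 1))})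
        ∩ Set.Iic x).ncard := by
      rw [← Set.ncard_coe_finset]
      apply Set.ncard_le_ncard _ ((Set.finite_Iic x).subset Set.inter_subset_right)
      intro p hp
      obtain ⟨hp1, hp2⟩ := mem_sdiff.mp (mem_coe.mp hp)
      obtain ⟨h1, j, rfl⟩ := hT2 p hp1
      refine ⟨⟨Nat.prime_nth_prime _, ?_⟩, h1⟩
      rintro ⟨_, ⟨n, hn⟩ | h⟩
      · apply hp2
        have := (hS n _ hn).2
        have := hz n
        exact mem_biUnion.mpr ⟨n, mem_filter.mpr ⟨mem_range.mpr (by omega), by omega⟩, hn⟩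
      · exact h ⟨j, rfl⟩
    have h2 : T.card ≤ (T \ U).card + U.card := card_le_card_sdiff_add_card
    have h3 : (U.card : ℝ) ≤ Nat.primeCounting x / 4 := by
      have a1 : (U.card : ℝ) ≤ ∑ n ∈ (range x).filter (fun n => z n < x), ((S n).card : ℝ) := by
        exact_mod_cast card_biUnion_le
      have a2 : ∑ n ∈ (range x).filter (fun n => z n < x), ((S n).card : ℝ) ≤
          ∑ n ∈ (range x).filter (fun n => z n < x),
            (Nat.primeCounting x : ℝ) / 8 * (1 / 2) ^ n := by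
        apply sum_le_sum
        intro n hn
        have b1 : 2 ^ (n + 3) * (S n).card ≤ Nat.primeCounting x :=
          (hcard n).trans (Nat.monotone_primeCounting (mem_filter.mp hn).2.le)
        have b2 : (2 : ℝ) ^ (n + 3) * (S n).card ≤ Nat.primeCounting x := by exact_mod_cast b1
        rw [one_div, inv_pow, ← div_eq_mul_inv, le_div_iff₀ (by positivity)]
        rw [pow_add] at b2
        linarith
      have a3 : ∑ n ∈ (range x).filter (fun n => z n < x),
            (Nat.primeCounting x : ℝ) / 8 * (1 / 2) ^ n ≤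
          ∑ n ∈ range x, (Nat.primeCounting x : ℝ) / 8 * (1 / 2) ^ n :=
        sum_le_sum_of_subset_of_nonneg (filter_subset _ _) (fun _ _ _ => by positivity)
      rw [← mul_sum, ← mul_sum] at a3
      have a4 := sum_geometric_two_le x
      have a5 : (Nat.primeCounting x : ℝ) / 8 * ∑ n ∈ range x, (1 / 2 : ℝ) ^ n ≤
          (Nat.primeCounting x : ℝ) / 8 * 2 := mul_le_mul_of_nonneg_left a4 (by positivity)
      rw [← mul_sum] at a2
      linarith
    have h4 : 4 * U.card ≤ Nat.primeCounting x := by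
      have : (4 : ℝ) * U.card ≤ Nat.primeCounting x := by linarith
      exact_mod_cast this
    omega
  · intro n
    refine ⟨t n, ht n, fun a ha1 ha2 => ?_⟩
    obtain ⟨N, hN1, hN2⟩ := hN n a ha1 ha2
    constructor
    · intro h
      refine ⟨by omega, fun p hp hd => ?_⟩
      rw [hN1] at hd
      rcases (Nat.Prime.dvd_mul hp).mp hd with h1 | h1
      · exact h.2 p hp h1
      · exact ⟨hp, Or.inl ⟨n, hN2 p hp h1⟩⟩
    · intro h
      refine ⟨by omega, fun p hp hd => h.2 p hp ?_⟩
      rw [hN1]; exact hd.mul_right _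

end Pool.Agent.S16227
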