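import Pool.Statements.S16290

set_option autoImplicit false
open Filter Topology
open scoped Classical
open Pool Pool.MP_219c9f_nt

namespace Pool.Agent.S16290

noncomputable def T (v : ℝ) : ℝ := (Int.fract v)⁻¹

lemma digits (i : ℕ) : ∀ v : ℝ, (∀ m, Int.fract (T^[m] v) ≠ 0) →
    (GenContFract.of v).partDens.get? i = some ((⌊T^[i+1] v⌋ : ℤ) : ℝ) := by
  have key : ∀ i : ℕ, ∀ v : ℝ, (∀ m, Int.fract (T^[m] v) ≠ 0) →
      (GenContFract.of v).s.get? i = some ⟨1, ((⌊T^[i+1] v⌋ : ℤ) : ℝ)⟩ := by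
    intro i
    induction i with
    | zero =>
      intro v h
      have := GenContFract.of_s_head (v := v) (h 0)
      simpa [Stream'.Seq.head, T] using this
    | succ i ih =>
      intro v h
      rw [GenContFract.of_s_succ]
      have := ih (T v) (fun m => by simpa [Function.iterate_succ] using h (m+1))
      rw [Function.iterate_succ T (i+1)]
      exact this
  intro v h
  exact GenContFract.partDen_eq_s_b (key i v h)

lemma step (b : ℕ) (v : ℝ) (hv : 1 < v) :
    ⌊(b : ℝ) + 1 / v⌋ = b ∧ Int.fract ((b : ℝ) + 1 / v) ≠ 0 ∧ T ((b : ℝ) + 1 / v) = v := by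
  have h0 : 0 < 1 / v := by positivity
  have h1 : 1 / v < 1 := by rw [div_lt_one (by linarith)]; exact hv
  have hf : ⌊(b : ℝ) + 1 / v⌋ = b := by
    rw [Int.floor_eq_iff]; push_cast; constructor <;> linarith
  have hfr : Int.fract ((b : ℝ) + 1 / v) = 1 / v := by
    rw [Int.fract, hf]; push_cast; ring
  refine ⟨hf, by rw [hfr]; exact h0.ne', ?_⟩
  rw [T, hfr]; simp

noncomputable def back (a : ℕ → ℕ) : ℕ → ℕ → ℝ
  | 0, _ => 1
  | d+1, n => 1 / ((a n : ℝ) + back a d (n+1))

lemma back_mem (a : ℕ → ℕ) (ha : ∀ n, 1 ≤ a n) (d : ℕ) : ∀ n, back a d n ∈ Set.Icc (0:ℝ) 1 := by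
  induction d with
  | zero => intro n; simp [back]
  | succ d ih =>
    intro n
    have h1 : (1:ℝ) ≤ a n := by exact_mod_cast ha n
    obtain ⟨h2, h3⟩ := ih (n+1)
    simp only [back]
    constructor
    · positivity
    · rw [div_le_one (by linarith)]; linarith

lemma exists_xi (a : ℕ → ℕ) (ha : ∀ n, 1 ≤ a n) :
    ∃ ξ : ℕ → ℝ, ∀ n, 1 < ξ n ∧ ξ n = (a n : ℝ) + 1 / ξ (n+1) := by
  let K : Set (ℕ → ℝ) := Set.pi Set.univ (fun _ => Set.Icc (0:ℝ) 1)
  have hK : IsCompact K := isCompact_univ_pi (fun _ => isCompact_Icc)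
  let C : ℕ → Set (ℕ → ℝ) := fun N => K ∩ ⋂ n ∈ Set.Iio N, {u | u n * ((a n : ℝ) + u (n+1)) = 1}
  have hcl : ∀ N, IsClosed (C N) := by
    intro N
    refine hK.isClosed.inter (isClosed_biInter fun n _ => ?_)
    exact isClosed_eq (by fun_prop) continuous_const
  have hne : ∀ N, (C N).Nonempty := by
    intro N
    refine ⟨fun n => back a (N - n) n, fun n _ => back_mem a ha _ _, ?_⟩
    simp only [Set.mem_iInter]
    intro n hn
    have hn' : n < N := hn
    have e : N - n = (N - (n+1)) + 1 := by omega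
    show back a (N - n) n * ((a n : ℝ) + back a (N - (n+1)) (n+1)) = 1
    rw [e]
    simp only [back]
    have h1 : (1:ℝ) ≤ a n := by exact_mod_cast ha n
    have h2 := (back_mem a ha (N - (n+1)) (n+1)).1
    field_simp
  have hanti : ∀ N, C (N+1) ⊆ C N := by
    intro N u hu
    refine ⟨hu.1, ?_⟩
    have := hu.2
    simp only [Set.mem_iInter] at this ⊢
    intro n hn
    exact this n (lt_trans hn (Nat.lt_succ_self N))
  obtain ⟨u, hu⟩ := IsCompact.nonempty_iInter_of_sequence_nonempty_isCompact_isClosed C hanti hne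
    (hK.of_isClosed_subset (hcl 0) Set.inter_subset_left) hcl
  simp only [Set.mem_iInter] at hu
  have h01 : ∀ n, 0 ≤ u n := fun n => ((hu 0).1 n trivial).1
  have heq : ∀ n, u n * ((a n : ℝ) + u (n+1)) = 1 := by
    intro n
    have := (hu (n+1)).2
    simp only [Set.mem_iInter] at this
    exact this n (Nat.lt_succ_self n)
  have hpos : ∀ n, 0 < u n := by
    intro n
    rcases (h01 n).lt_or_eq with h | h
    · exact h
    · have := heq n
      rw [← h] at this
      simp at this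
  refine ⟨fun n => 1 / u n, fun n => ?_⟩
  have h1 : (1:ℝ) ≤ a n := by exact_mod_cast ha n
  have h2 := hpos n
  have h3 := hpos (n+1)
  have h4 := heq n
  have h5 : 1 / u n = (a n : ℝ) + u (n+1) := by
    rw [div_eq_iff h2.ne']; linarith
  constructor
  · show 1 < 1 / u n
    rw [h5]; linarith
  · show 1 / u n = (a n : ℝ) + 1 / (1 / u (n+1))
    rw [h5]; simp

open MeasureTheory ProbabilityTheory in
lemma exists_freq (q : ℕ → ℝ) (h0 : ∀ i, 0 ≤ q i) (h1 : HasSum q 1) :
    ∃ c : ℕ → ℕ, ∀ i, Tendsto (fun n : ℕ => (∑ j ∈ Finset.range n, if c j = i then (1:ℝ) else 0) / n)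
      atTop (𝓝 (q i)) := by
  let μ : Measure ℕ := Measure.sum fun i => ENNReal.ofReal (q i) • Measure.dirac i
  have : IsProbabilityMeasure μ := h1.isProbabilityMeasure_sum_dirac h0
  obtain ⟨Ω, mΩ, P, X, hX, hlaw, hind, hP⟩ := exists_iid ℕ μ
  have key : ∀ i, ∀ᵐ ω ∂P, Tendsto
      (fun n : ℕ => (∑ j ∈ Finset.range n, if X j ω = i then (1:ℝ) else 0) / n) atTop (𝓝 (q i)) := by
    intro i
    let g : ℕ → ℝ := fun t => if t = i then 1 else 0
    have hg : Measurable g := measurable_from_top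
    have hint : Integrable (g ∘ X 0) P := by
      refine Integrable.of_bound (hg.comp (hX 0)).aestronglyMeasurable 1 (ae_of_all _ fun ω => ?_)
      simp only [Function.comp, g]
      split_ifs <;> simp
    have := strong_law_ae_real (μ := P) (fun j => g ∘ X j) hint
      (fun j k hjk => (hind.indepFun hjk).comp hg hg)
      (fun j => ((hlaw j).identDistrib (hlaw 0)).comp hg)
    have e : P[g ∘ X 0] = q i := by
      rw [(hlaw 0).integral_comp hg.aestronglyMeasurable]
      have : g = Set.indicator {i} (1 : ℕ → ℝ) := by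
        funext t; simp [g, Set.indicator_apply]
      rw [this, integral_indicator_one (measurableSet_singleton i), measureReal_def,
        Measure.sum_smul_dirac_singleton, ENNReal.toReal_ofReal (h0 i)]
    rw [e] at this
    exact this
  obtain ⟨ω, hω⟩ := (ae_all_iff.2 key).exists
  exact ⟨fun j => X j ω, hω⟩

noncomputable def P (k : ℕ) : ℝ := Real.logb 2 (1 + 1 / ((k : ℝ) * ((k : ℝ) + 2)))

lemma P_nonneg (k : ℕ) : 0 ≤ P k := by
  apply Real.logb_nonneg (by norm_num)
  have : (0:ℝ) ≤ 1 / ((k : ℝ) * ((k : ℝ) + 2)) := by positivity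
  linarith

lemma P_pos (k : ℕ) (hk : 1 ≤ k) : 0 < P k := by
  apply Real.logb_pos (by norm_num)
  have h1 : (1:ℝ) ≤ k := by exact_mod_cast hk
  have : (0:ℝ) < 1 / ((k : ℝ) * ((k : ℝ) + 2)) := by positivity
  linarith

lemma P_anti (k : ℕ) (hk : 1 ≤ k) : P (k+1) ≤ P k := by
  have h1 : (1:ℝ) ≤ k := by exact_mod_cast hk
  unfold P
  apply Real.logb_le_logb_of_le (by norm_num) (by positivity)
  push_cast
  have : 1 / (((k:ℝ)+1) * ((k:ℝ)+1+2)) ≤ 1 / ((k : ℝ) * ((k : ℝ) + 2)) := by
    apply one_div_le_one_div_of_le (by positivity)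
    nlinarith
  linarith

lemma P_sum (n : ℕ) : ∑ i ∈ Finset.range (n+1), P i = 1 - Real.logb 2 (1 + 1 / ((n:ℝ)+1)) := by
  induction n with
  | zero => norm_num [P]
  | succ n ih =>
    rw [Finset.sum_range_succ, ih]
    unfold P
    push_cast
    have h0 : (0:ℝ) ≤ n := Nat.cast_nonneg n
    have e : (1 + 1 / ((n:ℝ)+1)) = (1 + 1 / (((n:ℝ)+1) * ((n:ℝ)+1+2))) * (1 + 1 / ((n:ℝ)+1+1)) := by
      field_simp; ring
    rw [e, Real.logb_mul (by positivity) (by positivity)]
    ring

lemma P_tendsto : Tendsto (fun n => ∑ i ∈ Finset.range n, P i) atTop (𝓝 1) := by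
  rw [← tendsto_add_atTop_iff_nat 1]
  simp only [P_sum]
  have h1 : Tendsto (fun n : ℕ => 1 + 1 / ((n:ℝ)+1)) atTop (𝓝 (1 + 0)) :=
    tendsto_const_nhds.add tendsto_one_div_add_atTop_nhds_zero_nat
  have h2 := (Real.continuousAt_logb (b := 2) (x := 1 + 0) (by norm_num)).tendsto.comp h1
  have h3 := (tendsto_const_nhds (x := (1:ℝ))).sub h2
  simpa using h3

noncomputable def q (i : ℕ) : ℝ :=
  if i = 0 then 0 else if i = 1 then 8 / 7 * P 1
  else if i = 2 then P 2 - P 3 - P 14 - P 15 - P 1 / 7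
  else if i % 2 = 1 ∨ i = 14 then 2 * P i else P i - P (i+1)

lemma q_two : 0 ≤ P 2 - P 3 - P 14 - P 15 - P 1 / 7 := by
  have e : P 2 - P 3 - P 14 - P 15 - P 1 / 7
      = (Real.logb 2 (((9/8) / (16/15) / (225/224) / (256/255) : ℝ) ^ 7 / (4/3))) / 7 := by
    rw [Real.logb_div (by norm_num) (by norm_num), Real.logb_pow,
      Real.logb_div (by norm_num) (by norm_num), Real.logb_div (by norm_num) (by norm_num),
      Real.logb_div (x := 9/8) (by norm_num) (by norm_num)]
    unfold P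
    norm_num
    ring
  rw [e]
  apply div_nonneg _ (by norm_num)
  apply Real.logb_nonneg (by norm_num)
  norm_num

lemma q_nonneg (i : ℕ) : 0 ≤ q i := by
  unfold q
  split_ifs with h1 h2 h3 h4
  · exact le_rfl
  · have := P_nonneg 1; positivity
  · exact q_two
  · have := P_nonneg i; positivity
  · have := P_anti i (by omega); linarith

lemma q_sum (m : ℕ) : ∑ i ∈ Finset.range (2 * m + 16), q i = ∑ i ∈ Finset.range (2 * m + 16), P i := by
  induction m with
  | zero =>
    have h0 : P 0 = 0 := by simp [P]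
    simp [Finset.sum_range_succ, q, h0]
    ring
  | succ m ih =>
    have e : 2 * (m+1) + 16 = 2 * m + 16 + 1 + 1 := by ring
    rw [e, Finset.sum_range_succ, Finset.sum_range_succ, ih, Finset.sum_range_succ _ (2 * m + 16 + 1),
      Finset.sum_range_succ _ (2 * m + 16)]
    have e1 : q (2 * m + 16) = P (2 * m + 16) - P (2 * m + 16 + 1) := by
      unfold q
      rw [if_neg (by omega), if_neg (by omega), if_neg (by omega), if_neg (by omega)]
    have e2 : q (2 * m + 16 + 1) = 2 * P (2 * m + 16 + 1) := by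
      unfold q
      rw [if_neg (by omega), if_neg (by omega), if_neg (by omega), if_pos (by omega)]
    rw [e1, e2]; ring

lemma q_hasSum : HasSum q 1 := by
  rw [hasSum_iff_tendsto_nat_of_nonneg q_nonneg]
  have hm : Monotone (fun n => ∑ i ∈ Finset.range n, q i) :=
    Finset.sum_mono_set_of_nonneg q_nonneg |>.comp Finset.range_mono
  have hφ : Tendsto (fun m : ℕ => 2 * m + 16) atTop atTop :=
    tendsto_atTop_mono (fun m => by show m ≤ 2 * m + 16; omega) tendsto_id
  rw [tendsto_iff_tendsto_subseq_of_monotone hm hφ]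
  have := P_tendsto.comp hφ
  refine this.congr fun m => ?_
  simp only [Function.comp, q_sum]

def e (i : ℕ) : ℕ := if i = 14 ∨ i = 15 then 2 else if i % 2 = 1 then i - 1 else i

def w (i m : ℕ) : ℕ := if i ≤ 1 then (if m = 7 then 2 else 1) else if m % 2 = 0 then i else e i

noncomputable def cnt (k i : ℕ) : ℝ := ∑ m ∈ Finset.range 8, if w i m = k then (1:ℝ) else 0

lemma cnt_small (k i : ℕ) (hi : i ≤ 1) :
    cnt k i = (if k = 1 then 7 else 0) + (if k = 2 then 1 else 0) := by
  unfold cnt w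
  simp only [Finset.sum_range_succ, hi, if_true]
  by_cases h1 : k = 1
  · subst h1; norm_num
  · by_cases h2 : k = 2
    · subst h2; norm_num
    · have h1' : ¬ (1 = k) := fun h => h1 h.symm
      have h2' : ¬ (2 = k) := fun h => h2 h.symm
      simp [h1, h2, h1', h2']

lemma cnt_big (k i : ℕ) (hi : ¬ i ≤ 1) :
    cnt k i = (if i = k then 4 else 0) + (if e i = k then 4 else 0) := by
  unfold cnt w
  simp only [Finset.sum_range_succ, hi, if_false]
  norm_num
  split_ifs <;> norm_num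

lemma freq_fin (c : ℕ → ℕ)
    (hc : ∀ i, Tendsto (fun n : ℕ => (∑ j ∈ Finset.range n, if c j = i then (1:ℝ) else 0) / n)
      atTop (𝓝 (q i))) (f : ℕ → ℝ) (s : Finset ℕ) (hs : ∀ i, i ∉ s → f i = 0) :
    Tendsto (fun n : ℕ => (∑ j ∈ Finset.range n, f (c j)) / n) atTop (𝓝 (∑ i ∈ s, f i * q i)) := by
  have := tendsto_finsetSum s (fun i _ => (hc i).const_mul (f i))
  refine this.congr fun n => ?_
  simp only [← mul_div_assoc, ← Finset.sum_div, Finset.mul_sum]
  congr 1
  rw [Finset.sum_comm]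
  refine Finset.sum_congr rfl fun j _ => ?_
  by_cases h : c j ∈ s
  · simp [h]
  · simp [h, hs _ h]

lemma freq_cnt (c : ℕ → ℕ)
    (hc : ∀ i, Tendsto (fun n : ℕ => (∑ j ∈ Finset.range n, if c j = i then (1:ℝ) else 0) / n)
      atTop (𝓝 (q i))) (k : ℕ) (hk : 1 ≤ k) :
    Tendsto (fun n : ℕ => (∑ j ∈ Finset.range n, cnt k (c j)) / n) atTop (𝓝 (8 * P k)) := by
  by_cases h1 : k = 1
  · subst h1
    have := freq_fin c hc (cnt 1) {0, 1} (fun i hi => by
      simp only [Finset.mem_insert, Finset.mem_singleton] at hi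
      rw [cnt_big _ _ (by omega), if_neg (by omega), if_neg (by unfold e; split_ifs <;> omega)]
      simp)
    convert this using 2
    simp [cnt_small, q]
    ring
  by_cases h2 : k = 2
  · subst h2
    have := freq_fin c hc (cnt 2) {0, 1, 2, 3, 14, 15} (fun i hi => by
      simp only [Finset.mem_insert, Finset.mem_singleton] at hi
      rw [cnt_big _ _ (by omega), if_neg (by omega), if_neg (by unfold e; split_ifs <;> omega)]
      simp)
    convert this using 2
    simp [cnt_small, cnt_big, q, e]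
    ring
  by_cases h3 : k % 2 = 1 ∨ k = 14
  · have := freq_fin c hc (cnt k) {k} (fun i hi => by
      simp only [Finset.mem_singleton] at hi
      by_cases hi' : i ≤ 1
      · rw [cnt_small _ _ hi', if_neg h1, if_neg h2]; simp
      · rw [cnt_big _ _ hi', if_neg hi, if_neg (by unfold e; split_ifs <;> omega)]
        simp)
    convert this using 2
    rw [Finset.sum_singleton, cnt_big _ _ (by omega), if_pos rfl,
      if_neg (by unfold e; split_ifs <;> omega)]
    unfold q
    rw [if_neg (by omega), if_neg h1, if_neg h2, if_pos h3]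
    ring
  · have := freq_fin c hc (cnt k) {k, k+1} (fun i hi => by
      simp only [Finset.mem_insert, Finset.mem_singleton] at hi
      by_cases hi' : i ≤ 1
      · rw [cnt_small _ _ hi', if_neg h1, if_neg h2]; simp
      · rw [cnt_big _ _ hi', if_neg (by omega), if_neg (by unfold e; split_ifs <;> omega)]
        simp)
    convert this using 2
    rw [Finset.sum_pair (by omega), cnt_big _ _ (by omega), cnt_big _ _ (by omega), if_pos rfl,
      if_pos (by unfold e; split_ifs <;> omega), if_neg (by omega),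
      if_pos (by unfold e; split_ifs <;> omega)]
    have e1 : q k = P k - P (k+1) := by
      unfold q
      rw [if_neg (by omega), if_neg h1, if_neg h2, if_neg h3]
    have e2 : q (k+1) = 2 * P (k+1) := by
      unfold q
      rw [if_neg (by omega), if_neg (by omega), if_neg (by omega), if_pos (by omega)]
    rw [e1, e2]; ring

def A (c : ℕ → ℕ) (n : ℕ) : ℕ := w (c (n / 8)) (n % 8)

lemma A_at (c : ℕ → ℕ) (j m : ℕ) (hm : m < 8) : A c (8 * j + m) = w (c j) m := by
  unfold A
  rw [show (8 * j + m) / 8 = j by omega, show (8 * j + m) % 8 = m by omega]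

lemma A_pos (c : ℕ → ℕ) (n : ℕ) : 1 ≤ A c n := by
  unfold A w e
  split_ifs <;> omega

lemma count_blocks (c : ℕ → ℕ) (k J : ℕ) :
    (∑ n ∈ Finset.range (8 * J), if A c n = k then (1:ℝ) else 0) = ∑ j ∈ Finset.range J, cnt k (c j) := by
  induction J with
  | zero => simp
  | succ J ih =>
    rw [Finset.sum_range_succ, ← ih, show 8 * (J+1) = 8 * J + 8 by ring, Finset.sum_range_add]
    congr 1
    unfold cnt
    refine Finset.sum_congr rfl fun m hm => ?_
    rw [A_at c J m (Finset.mem_range.1 hm)]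

lemma freq_A (c : ℕ → ℕ)
    (hc : ∀ i, Tendsto (fun n : ℕ => (∑ j ∈ Finset.range n, if c j = i then (1:ℝ) else 0) / n)
      atTop (𝓝 (q i))) (k : ℕ) (hk : 1 ≤ k) :
    Tendsto (fun N : ℕ => (∑ n ∈ Finset.range N, if A c n = k then (1:ℝ) else 0) / N)
      atTop (𝓝 (P k)) := by
  apply tendsto_div_of_monotone_of_exists_subseq_tendsto_div
  · exact (Finset.sum_mono_set_of_nonneg (fun n => by split_ifs <;> norm_num)).comp Finset.range_mono
  · intro a ha
    refine ⟨fun n => 8 * n, ?_, ?_, ?_⟩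
    · obtain ⟨N, hN⟩ := exists_nat_ge (1 / (a - 1))
      filter_upwards [eventually_ge_atTop N] with n hn
      have h1 : (N:ℝ) ≤ n := by exact_mod_cast hn
      have h2 : 1 / (a - 1) ≤ n := hN.trans h1
      rw [div_le_iff₀ (by linarith)] at h2
      push_cast
      nlinarith
    · exact tendsto_atTop_mono (fun m => by show m ≤ 8 * m; omega) tendsto_id
    · have := (freq_cnt c hc k hk).div_const 8
      rw [show 8 * P k / 8 = P k by ring] at this
      refine this.congr fun n => ?_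
      rw [count_blocks]
      push_cast
      rw [div_div, mul_comm]

noncomputable def val : List ℕ → ℝ → ℝ
  | [], t => t
  | b :: l, t => (b : ℝ) + 1 / val l t

lemma val_gt (t : ℝ) (ht : 1 < t) : ∀ l : List ℕ, (∀ b ∈ l, b ≠ 7 ∧ 1 ≤ b) → 1 < val l t := by
  intro l
  induction l with
  | nil => intro _; exact ht
  | cons b l ih =>
    intro h
    have h1 := ih (fun b hb => h b (List.mem_cons_of_mem _ hb))
    have h2 : (1:ℝ) ≤ b := by exact_mod_cast (h b List.mem_cons_self).2
    have h3 : 0 < 1 / val l t := by positivity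
    simp only [val]
    linarith

lemma word (c : ℕ → ℕ) (ξ : ℕ → ℝ) (hξ : ∀ n, 1 < ξ n ∧ ξ n = (A c n : ℝ) + 1 / ξ (n+1)) (j : ℕ) :
    ∃ (b : ℕ) (l : List ℕ), b ≠ 7 ∧ (∀ b ∈ l, b ≠ 7 ∧ 1 ≤ b) ∧
      2 * ξ (8 * j) = (b : ℝ) + 1 / val l (2 * ξ (8 * (j+1))) := by
  have h0 := (hξ (8 * j + 0)).2
  have h1 := (hξ (8 * j + 1)).2
  have h2 := (hξ (8 * j + 2)).2
  have h3 := (hξ (8 * j + 3)).2
  have h4 := (hξ (8 * j + 4)).2
  have h5 := (hξ (8 * j + 5)).2
  have h6 := (hξ (8 * j + 6)).2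
  have h7 := (hξ (8 * j + 7)).2
  rw [A_at c j _ (by norm_num)] at h0 h1 h2 h3 h4 h5 h6 h7
  have ht : 0 < ξ (8 * (j+1)) := by linarith [(hξ (8 * (j+1))).1]
  rw [show 8 * j + 7 + 1 = 8 * (j+1) by ring] at h7
  simp only [add_assoc, Nat.reduceAdd, add_zero] at h0 h1 h2 h3 h4 h5 h6
  by_cases hi : c j ≤ 1
  · refine ⟨3, [4, 3, 1], by norm_num, by simp, ?_⟩
    simp only [w, hi, if_true] at h0 h1 h2 h3 h4 h5 h6 h7
    norm_num at h0 h1 h2 h3 h4 h5 h6 h7
    rw [h0, h1, h2, h3, h4, h5, h6, h7]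
    simp only [val]
    push_cast
    field_simp
    ring
  · obtain ⟨h, hh, h7', h1'⟩ : ∃ h, e (c j) = 2 * h ∧ h ≠ 7 ∧ 1 ≤ h := by
      refine ⟨e (c j) / 2, ?_⟩
      unfold e
      split_ifs <;> omega
    refine ⟨2 * c j, [h, 2 * c j, h, 2 * c j, h, 2 * c j, h], by omega, ?_, ?_⟩
    · intro b hb
      simp only [List.mem_cons, List.not_mem_nil, or_false] at hb
      omega
    simp only [w, hi, if_false, hh] at h0 h1 h2 h3 h4 h5 h6 h7
    norm_num at h0 h1 h2 h3 h4 h5 h6 h7
    have hp : ∀ s : ℝ, 0 < s → 2 * ((c j : ℝ) + (2 * (h:ℝ) + s⁻¹)⁻¹)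
        = 2 * (c j : ℝ) + 1 / ((h:ℝ) + 1 / (2 * s)) := by
      intro s hs
      field_simp
    have p2 : 0 < ξ (8 * j + 2) := by linarith [(hξ (8 * j + 2)).1]
    have p4 : 0 < ξ (8 * j + 4) := by linarith [(hξ (8 * j + 4)).1]
    have p6 : 0 < ξ (8 * j + 6) := by linarith [(hξ (8 * j + 6)).1]
    simp only [val]
    push_cast
    rw [← hp _ ht, ← h7, ← h6, ← hp _ p6, ← h5, ← h4, ← hp _ p4, ← h3, ← h2, ← hp _ p2, ← h1, ← h0]

def Good (ξ : ℕ → ℝ) (u : ℝ) : Prop :=
  ∃ (j : ℕ) (l : List ℕ), (∀ b ∈ l, b ≠ 7 ∧ 1 ≤ b) ∧ u = val l (2 * ξ (8 * j))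

lemma good_step (c : ℕ → ℕ) (ξ : ℕ → ℝ) (hξ : ∀ n, 1 < ξ n ∧ ξ n = (A c n : ℝ) + 1 / ξ (n+1))
    (u : ℝ) (hu : Good ξ u) : ⌊u⌋ ≠ 7 ∧ Int.fract u ≠ 0 ∧ Good ξ (T u) := by
  have key : ∃ (b : ℕ) (j : ℕ) (l : List ℕ), b ≠ 7 ∧ (∀ b ∈ l, b ≠ 7 ∧ 1 ≤ b) ∧
      u = (b : ℝ) + 1 / val l (2 * ξ (8 * j)) := by
    obtain ⟨j, l, hl, rfl⟩ := hu
    cases l with
    | nil =>
      obtain ⟨b, l, h1, h2, h3⟩ := word c ξ hξ j
      exact ⟨b, j+1, l, h1, h2, h3⟩
    | cons b l =>
      exact ⟨b, j, l, (hl b List.mem_cons_self).1, fun b hb => hl b (List.mem_cons_of_mem _ hb), rfl⟩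
  obtain ⟨b, j, l, h1, h2, rfl⟩ := key
  have hv := val_gt (2 * ξ (8 * j)) (by linarith [(hξ (8 * j)).1]) l h2
  obtain ⟨s1, s2, s3⟩ := step b _ hv
  refine ⟨?_, s2, ?_⟩
  · rw [s1]; exact_mod_cast h1
  · rw [s3]; exact ⟨j, l, h2, rfl⟩

/-- The negation of the preceding statement: If every digit k ≥ 1 appears among the continued fraction partial quotients of x with frequency log2(1+1/(k(k+2))), then the same holds for qx+r, for all rationals q ≠ 0 and r. -/
theorem result :
    ¬ (∀ x : ℝ,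
      (∀ k : ℕ, 1 ≤ k →
        Tendsto
          (fun n : ℕ =>
            (((Finset.range n).filter
                (fun i => (GenContFract.of x).partDens.get? i = some (k : ℝ))).card : ℝ) / (n : ℝ))
          atTop (𝓝 (Real.logb 2 (1 + 1 / ((k : ℝ) * ((k : ℝ) + 2)))))) →
      ∀ q r : ℚ, q ≠ 0 →
        (∀ k : ℕ, 1 ≤ k →
          Tendsto
            (fun n : ℕ =>
              (((Finset.range n).filter
                  (fun i => (GenContFract.of ((q : ℝ) * x + (r : ℝ))).partDens.get? i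
                    = some (k : ℝ))).card : ℝ) / (n : ℝ))
            atTop (𝓝 (Real.logb 2 (1 + 1 / ((k : ℝ) * ((k : ℝ) + 2))))))) := by
  intro H
  obtain ⟨c, hc⟩ := exists_freq q q_nonneg q_hasSum
  obtain ⟨ξ, hξ⟩ := exists_xi (A c) (A_pos c)
  have hT : ∀ n, ⌊ξ n⌋ = A c n ∧ Int.fract (ξ n) ≠ 0 ∧ T (ξ n) = ξ (n+1) := by
    intro n
    have := step (A c n) (ξ (n+1)) (hξ (n+1)).1
    rwa [← (hξ n).2] at this
  have hx := step 0 (ξ 0) (hξ 0).1
  simp only [Nat.cast_zero, zero_add] at hx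
  have hit : ∀ n, T^[n+1] (1 / ξ 0) = ξ n := by
    intro n
    induction n with
    | zero => simpa using hx.2.2
    | succ n ih => rw [Function.iterate_succ_apply', ih, (hT n).2.2]
  have hdx : ∀ i, (GenContFract.of (1 / ξ 0)).partDens.get? i = some ((A c i : ℕ) : ℝ) := by
    intro i
    rw [digits i _ (fun m => by
      cases m with
      | zero => exact hx.2.1
      | succ m => rw [hit]; exact (hT m).2.1), hit, (hT i).1]
    simp
  have h1 := H (1 / ξ 0) (fun k hk => by
    refine (freq_A c hc k hk).congr fun n => ?_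
    congr 1
    rw [Finset.card_filter]
    push_cast
    refine Finset.sum_congr rfl fun i _ => ?_
    simp [hdx i, -one_div]) (1/2) 0 (by norm_num) 7 (by norm_num)
  have hy := step 0 (2 * ξ 0) (by linarith [(hξ 0).1])
  simp only [Nat.cast_zero, zero_add] at hy
  have hg : ∀ n, Good ξ (T^[n+1] (1 / (2 * ξ 0))) := by
    intro n
    induction n with
    | zero =>
      refine ⟨0, [], by simp, ?_⟩
      simpa [val] using hy.2.2
    | succ n ih => rw [Function.iterate_succ_apply']; exact (good_step c ξ hξ _ ih).2.2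
  have ey : (((1/2 : ℚ)) : ℝ) * (1 / ξ 0) + ((0 : ℚ) : ℝ) = 1 / (2 * ξ 0) := by
    push_cast; field_simp; ring
  rw [ey] at h1
  have hdy : ∀ i, ¬ (GenContFract.of (1 / (2 * ξ 0))).partDens.get? i = some ((7 : ℕ) : ℝ) := by
    intro i
    rw [digits i _ (fun m => by
      cases m with
      | zero => exact hy.2.1
      | succ m => exact (good_step c ξ hξ _ (hg m)).2.1)]
    intro h
    have h2 := Option.some.inj h
    apply (good_step c ξ hξ _ (hg i)).1
    exact_mod_cast h2
  simp only [hdy, Finset.filter_false, Finset.card_empty, Nat.cast_zero, zero_div] at h1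
  have h2 := tendsto_nhds_unique h1 tendsto_const_nhds
  exact (P_pos 7 (by norm_num)).ne' h2

end Pool.Agent.S16290
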