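import Pool.Statements.S16388
import Pool.Agent.H18.CanHt

set_option autoImplicit false
open Filter Topology
open Pool Pool.MP_2ab887_nt

namespace Pool.Agent.S16388

/-- The negation of the preceding statement: For every function field K of a curve over an algebraically closed field, every degree d≥2 endomorphism of projective N-space over K and every K-point, the canonical height, the limit of height(f^n(P))/d^n, is a rational number. -/
theorem result :
    ¬ (∀ (k K : Type) [Field k] [IsAlgClosed k] [Field K] [Algebra (RatFunc k) K],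
      FunctionField k K →
      ∀ (N d : ℕ), 2 ≤ d →
      ∀ F : Fin (N + 1) → MvPolynomial (Fin (N + 1)) K,
        (∀ i, (F i).IsHomogeneous d) →
        (∀ y : Fin (N + 1) → AlgebraicClosure K,
            (∀ i, MvPolynomial.aeval y (F i) = 0) → y = 0) →
        ∀ x : Fin (N + 1) → K, x ≠ 0 →
          ∃ q : ℚ,
            Tendsto
              (fun n : ℕ =>
                (∑ᶠ v : {v : Valuation K (WithZero (Multiplicative ℤ)) //
                      Function.Surjective v ∧
                        ∀ c : k, c ≠ 0 → v (algebraMap (RatFunc k) K (RatFunc.C c)) = 1},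
                    ((sInf {m : ℤ | ∀ i,
                        v.1 (((fun (z : Fin (N + 1) → K) (j : Fin (N + 1)) =>
                                MvPolynomial.eval z (F j))^[n] x) i)
                          ≤ WithZero.coe (Multiplicative.ofAdd m)} : ℤ) : ℝ))
                  / (d : ℝ) ^ n)
              atTop (𝓝 (q : ℝ))) := by
  intro h
  let k := AlgebraicClosure (RatFunc (ZMod 2))
  let φ : Polynomial (ZMod 2) →+* k :=
    (algebraMap (RatFunc (ZMod 2)) k).comp (algebraMap (Polynomial (ZMod 2)) (RatFunc (ZMod 2)))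
  have hφ : Function.Injective φ :=
    (algebraMap (RatFunc (ZMod 2)) k).injective.comp (RatFunc.algebraMap_injective (ZMod 2))
  let s : k := φ Polynomial.X
  have hs : s ≠ 0 := (map_ne_zero_iff φ hφ).mpr Polynomial.X_ne_zero
  have hs1 : 1 + s ≠ 0 := by
    have : φ (1 + Polynomial.X) ≠ 0 := by
      apply (map_ne_zero_iff φ hφ).mpr
      intro g
      have := congrArg (fun p => Polynomial.coeff p 0) g
      simp at this
    rwa [map_add, map_one] at this
  let S : RatFunc k := RatFunc.C s
  let T : RatFunc k := RatFunc.X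
  let F : Fin (2 + 1) → MvPolynomial (Fin (2 + 1)) (RatFunc k) :=
    ![MvPolynomial.C S * MvPolynomial.X 0 * (MvPolynomial.X 0 + MvPolynomial.X 1 - MvPolynomial.X 2 +
        MvPolynomial.C (T ^ 3) * MvPolynomial.X 0),
      MvPolynomial.C (1 + S) * MvPolynomial.X 1 * (MvPolynomial.X 0 + MvPolynomial.X 1 -
        MvPolynomial.X 2 + MvPolynomial.C (T ^ 3) * MvPolynomial.X 1),
      MvPolynomial.X 2 * (MvPolynomial.X 0 + MvPolynomial.X 1 - MvPolynomial.X 2) +
        MvPolynomial.C (T ^ 3) * (MvPolynomial.X 0 ^ 2 + MvPolynomial.X 1 ^ 2)]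
  have hX : ∀ i : Fin (2 + 1),
      (MvPolynomial.X i : MvPolynomial (Fin (2 + 1)) (RatFunc k)).IsHomogeneous 1 :=
    fun i => MvPolynomial.isHomogeneous_X _ i
  have hH := ((hX 0).add (hX 1)).sub (hX 2)
  have hom : ∀ i, (F i).IsHomogeneous 2 := by
    intro i
    fin_cases i
    · exact ((hX 0).C_mul S).mul (hH.add ((hX 0).C_mul _))
    · exact ((hX 1).C_mul _).mul (hH.add ((hX 1).C_mul _))
    · exact ((hX 2).mul hH).add ((((hX 0).pow 2).add ((hX 1).pow 2)).C_mul _)
  have hnz : ∀ y : Fin (2 + 1) → AlgebraicClosure (RatFunc k),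
      (∀ i, MvPolynomial.aeval y (F i) = 0) → y = 0 := by
    intro y hy
    have a0 := hy 0
    have a1 := hy 1
    have a2 := hy 2
    have inj := (algebraMap (RatFunc k) (AlgebraicClosure (RatFunc k))).injective
    have n0 : algebraMap (RatFunc k) (AlgebraicClosure (RatFunc k)) S ≠ 0 :=
      (map_ne_zero_iff _ inj).mpr ((map_ne_zero RatFunc.C).mpr hs)
    have n1 : algebraMap (RatFunc k) (AlgebraicClosure (RatFunc k)) (1 + S) ≠ 0 := by
      apply (map_ne_zero_iff _ inj).mpr
      have := (map_ne_zero (RatFunc.C (K := k))).mpr hs1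
      rwa [map_add, map_one] at this
    have n2 : algebraMap (RatFunc k) (AlgebraicClosure (RatFunc k)) (T ^ 3) ≠ 0 :=
      (map_ne_zero_iff _ inj).mpr (pow_ne_zero _ RatFunc.X_ne_zero)
    simp only [F, Matrix.cons_val_zero, Matrix.cons_val_one, Matrix.cons_val, map_mul, map_add,
      map_sub, MvPolynomial.aeval_C, MvPolynomial.aeval_X, map_pow, map_one] at a0 a1 a2 n1 n2
    rw [mul_assoc] at a0 a1
    have b0 := (mul_eq_zero.mp a0).resolve_left n0
    have b1 := (mul_eq_zero.mp a1).resolve_left n1
    have c0 : (y 0 + y 1 - y 2) ^ 2 = 0 := by linear_combination b0 + b1 - a2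
    have c1 : y 0 + y 1 - y 2 = 0 := pow_eq_zero_iff two_ne_zero |>.mp c0
    rw [c1, zero_add] at b0 b1
    have d0 : y 0 = 0 := by
      rcases mul_eq_zero.mp b0 with g | g
      · exact g
      · exact (mul_eq_zero.mp g).resolve_left n2
    have d1 : y 1 = 0 := by
      rcases mul_eq_zero.mp b1 with g | g
      · exact g
      · exact (mul_eq_zero.mp g).resolve_left n2
    have d2 : y 2 = 0 := by linear_combination d0 + d1 - c1
    funext i
    fin_cases i
    · exact d0
    · exact d1
    · exact d2
  have hst : (fun (z : Fin (2 + 1) → RatFunc k) (j : Fin (2 + 1)) => MvPolynomial.eval z (F j)) =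
      H18.CanHt.st S T := by
    funext z j
    fin_cases j <;> simp [F, H18.CanHt.st]
  have hp : H18.CanHt.p0 T ≠ 0 := by
    intro g
    have := congrFun g 1
    simp [H18.CanHt.p0] at this
  obtain ⟨q, hq⟩ := h k (RatFunc k) (inferInstanceAs (FiniteDimensional (RatFunc k) (RatFunc k)))
    2 2 le_rfl F hom hnz (H18.CanHt.p0 T) hp
  rw [hst] at hq
  have hq2 : Tendsto (fun n : ℕ => ((5 * 2 ^ n - 3 - H18.CanHt.ee S n : ℝ)) / 2 ^ n) atTop
      (𝓝 (q : ℝ)) := by
    refine hq.congr fun n => ?_
    rw [← H18.CanHt.height_eq s hs hs1 n]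
    rfl
  have eS : ∀ n : ℕ, S ^ n + (1 + S) ^ n - 1 =
      RatFunc.C (φ (Polynomial.X ^ n + (1 + Polynomial.X) ^ n - 1)) := by
    intro n; simp [S, s]
  apply H18.CanHt.irr (H18.CanHt.ee S) _ _ _ (5 - q)
  · have t0 : Tendsto (fun n : ℕ => ((1 : ℝ) / 2) ^ n) atTop (𝓝 0) :=
      tendsto_pow_atTop_nhds_zero_of_lt_one (by norm_num) (by norm_num)
    have t1 := ((tendsto_const_nhds (x := (5 : ℝ))).sub (t0.const_mul 3)).sub hq2
    push_cast
    rw [mul_zero, sub_zero] at t1
    refine t1.congr fun n => ?_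
    rw [one_div, inv_pow]
    field_simp
    ring
  · intro n
    rw [H18.CanHt.ee]
    split_ifs
    · right; rfl
    · left; rfl
  · intro j
    rw [H18.CanHt.ee, if_pos]
    rw [eS, H18.CanHt.hit_poly, map_zero, map_zero]
  · intro j r h0 h1
    rw [H18.CanHt.ee, if_neg, add_zero]
    rw [eS]
    exact (map_ne_zero RatFunc.C).mpr ((map_ne_zero_iff φ hφ).mpr (H18.CanHt.miss_poly j r h0 h1))

end Pool.Agent.S16388
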