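import Pool.Statements.S16490
import Pool.Agent.H15.SF1

set_option autoImplicit false
open Pool Pool.MP_319fd9_nt

namespace Pool.Agent.S16490

theorem result :
    ¬ (∀ S : Set ℕ,
      (∀ s ∈ S, 0 < s) →
      (∀ s ∈ S, ∀ t ∈ S, s + t ∉ S) →
      (∃ N : ℕ, ∀ n : ℕ, N ≤ n → (n ∈ S ∨ ∃ s ∈ S, ∃ t ∈ S, s + t = n)) →
      ∃ m : ℕ, 0 < m ∧ ∃ N : ℕ, ∀ n : ℕ, N ≤ n → (n ∈ S ↔ n + m ∈ S)) := by
  intro h
  obtain ⟨N, hN⟩ := Pool.Agent.H15.SF.S_cp 7 (Or.inr rfl)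
  obtain ⟨m, hm, M, hM⟩ := h (Set.ofPred (Pool.Agent.H15.SF.SS 7))
    (fun s hs => by have := Pool.Agent.H15.SF.S_pos 7 s hs; omega)
    (fun s hs t ht => Pool.Agent.H15.SF.S_sf 7 (Or.inr rfl) s t hs ht (by omega))
    ⟨N, fun n hn => by
      rcases hN n hn with h1 | ⟨s, t, hs, ht, _, h2⟩
      · exact Or.inl h1
      · exact Or.inr ⟨s, hs, t, ht, h2⟩⟩
  exact Pool.Agent.H15.SF.S_ap 7 (Or.inr rfl) m M hm (fun n hn hs => (hM n hn).1 hs)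

end Pool.Agent.S16490
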