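import Pool.Statements.S16507
import Pool.Agent.H18.Sidon2

set_option autoImplicit false
open Pool Pool.MP_32845f_nt

namespace Pool.Agent.S16507

/-- For every ε>0 and all large N there is a Sidon set A in [1,N] with more than N^(1/2-ε) elements, of which more than N^(1/3-ε) lie in [1,N^(2/3)]. -/
theorem result :
    ∀ ε : ℝ, 0 < ε → ∃ N₀ : ℕ, ∀ N : ℕ, N₀ ≤ N →
      ∃ A : Finset ℕ, A ⊆ Finset.Icc 1 N ∧
        (∀ a ∈ A, ∀ b ∈ A, ∀ c ∈ A, ∀ d ∈ A,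
            a + b = c + d → (a = c ∧ b = d) ∨ (a = d ∧ b = c)) ∧
        (N : ℝ) ^ ((1 : ℝ) / 2 - ε) < (A.card : ℝ) ∧
        (N : ℝ) ^ ((1 : ℝ) / 3 - ε) <
          ((A ∩ Finset.Icc 1 ⌊(N : ℝ) ^ ((2 : ℝ) / 3)⌋₊).card : ℝ) := by
  intro ε hε
  have ht : Filter.Tendsto (fun N : ℕ => (N : ℝ) ^ ε) Filter.atTop Filter.atTop :=
    (tendsto_rpow_atTop hε).comp tendsto_natCast_atTop_atTop
  obtain ⟨N1, hN1⟩ := Filter.eventually_atTop.mp (ht.eventually_ge_atTop 1000)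
  refine ⟨max N1 (8192 * 8 ^ 6), fun N hN => ?_⟩
  have hNa : N1 ≤ N := le_trans (le_max_left _ _) hN
  have hNb : 8192 * 8 ^ 6 ≤ N := le_trans (le_max_right _ _) hN
  have hex : ∃ k : ℕ, N < 8192 * (k + 1) ^ 6 := by
    refine ⟨N, ?_⟩
    have : N + 1 ≤ (N + 1) ^ 6 := Nat.le_self_pow (by norm_num) _
    omega
  set k := Nat.find hex with hk
  have hk1 : N < 8192 * (k + 1) ^ 6 := Nat.find_spec hex
  have hk8 : 8 ≤ k := by
    by_contra hc
    have : (k + 1) ^ 6 ≤ 8 ^ 6 := Nat.pow_le_pow_left (by omega) 6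
    omega
  have hk2 : 8192 * k ^ 6 ≤ N := by
    have := Nat.find_min hex (show k - 1 < k by omega)
    have e : k - 1 + 1 = k := by omega
    rw [e] at this
    omega
  obtain ⟨r, hr, hr1, hr2⟩ := Nat.exists_prime_lt_and_le_two_mul k (by omega)
  haveI : Fact r.Prime := ⟨hr⟩
  obtain ⟨A, A1, h1, h2, h3, h4, h5, h6⟩ := H18.Sidon2.construct (r := r) (by omega)
  have b1 : 2 * (2 * r) ^ 6 ≤ N := by
    have : (2 * r) ^ 6 ≤ (4 * k) ^ 6 := Nat.pow_le_pow_left (by omega) 6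
    have e : (4 * k) ^ 6 = 4096 * k ^ 6 := by ring
    omega
  have b2 : N ≤ 8192 * r ^ 6 := by
    have : (k + 1) ^ 6 ≤ r ^ 6 := Nat.pow_le_pow_left (by omega) 6
    omega
  have b2' : (N : ℝ) ≤ 8192 * (r : ℝ) ^ 6 := by exact_mod_cast b2
  have hNpos : (0 : ℝ) < N := by
    have : 0 < N := by omega
    exact_mod_cast this
  have hrpos : (0 : ℝ) < r := by exact_mod_cast hr.pos
  have hq : (r : ℝ) ≤ 8 * ((r / 4 : ℕ) : ℝ) := by
    have : r ≤ 8 * (r / 4) := by omega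
    exact_mod_cast this
  have hε' := hN1 N hNa
  refine ⟨A, h1.trans (Finset.Icc_subset_Icc_right b1), h2, ?_, ?_⟩
  · have c1 : (N : ℝ) ^ ((1 : ℝ) / 2) ≤ 100 * (r : ℝ) ^ 3 := by
      have : (N : ℝ) ≤ (100 * (r : ℝ) ^ 3) ^ 2 := by nlinarith [pow_pos hrpos 6]
      refine (Real.rpow_le_rpow hNpos.le this (by norm_num)).trans (le_of_eq ?_)
      rw [← Real.rpow_natCast, ← Real.rpow_mul (by positivity)]
      norm_num
    have c2 : ((r / 4 : ℕ) : ℝ) * (r : ℝ) ^ 2 ≤ A.card := by exact_mod_cast h3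
    rw [Real.rpow_sub hNpos, div_lt_iff₀ (by positivity)]
    have c3 : (r : ℝ) ^ 3 ≤ 8 * A.card := by nlinarith [pow_pos hrpos 2]
    have c4 : (A.card : ℝ) * 1000 ≤ A.card * (N : ℝ) ^ ε :=
      mul_le_mul_of_nonneg_left hε' (by positivity)
    nlinarith [pow_pos hrpos 3]
  · have c0 : (2 * r) ^ 4 ≤ ⌊(N : ℝ) ^ ((2 : ℝ) / 3)⌋₊ := by
      apply Nat.le_floor
      have : (((2 * r) ^ 6 : ℕ) : ℝ) ≤ N := by
        have : (2 * r) ^ 6 ≤ N := by omega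
        exact_mod_cast this
      refine le_trans (le_of_eq ?_) (Real.rpow_le_rpow (by positivity) this (by norm_num))
      push_cast
      rw [← Real.rpow_natCast _ 6, ← Real.rpow_mul (by positivity), ← Real.rpow_natCast _ 4]
      norm_num
    have c5 : A1 ⊆ A ∩ Finset.Icc 1 ⌊(N : ℝ) ^ ((2 : ℝ) / 3)⌋₊ :=
      Finset.subset_inter h4 (h5.trans (Finset.Icc_subset_Icc_right c0))
    have c6 := h6.trans (Finset.card_le_card c5)
    set M := (A ∩ Finset.Icc 1 ⌊(N : ℝ) ^ ((2 : ℝ) / 3)⌋₊).card with hM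
    have c1 : (N : ℝ) ^ ((1 : ℝ) / 3) ≤ 21 * (r : ℝ) ^ 2 := by
      have : (N : ℝ) ≤ (21 * (r : ℝ) ^ 2) ^ 3 := by nlinarith [pow_pos hrpos 6]
      refine (Real.rpow_le_rpow hNpos.le this (by norm_num)).trans (le_of_eq ?_)
      rw [← Real.rpow_natCast, ← Real.rpow_mul (by positivity)]
      norm_num
    have c2 : ((r / 4 : ℕ) : ℝ) * (r : ℝ) ≤ M := by exact_mod_cast c6
    rw [Real.rpow_sub hNpos, div_lt_iff₀ (by positivity)]
    have c3 : (r : ℝ) ^ 2 ≤ 8 * M := by nlinarith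
    have c4 : (M : ℝ) * 1000 ≤ M * (N : ℝ) ^ ε :=
      mul_le_mul_of_nonneg_left hε' (by positivity)
    nlinarith [pow_pos hrpos 2]

end Pool.Agent.S16507
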