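import Pool.Statements.S16580

set_option autoImplicit false
open Filter
open Pool Pool.MP_37fc1f_nt

namespace Pool.Agent.S16580

open PowerSeries Topology

noncomputable def Phi (p : ℚ⟦X⟧ × ℚ⟦X⟧) : ℚ⟦X⟧ × ℚ⟦X⟧ :=
  (C (1 / 2) + X * (C (1 / 2) * (p.1 * p.2 * p.1)), C (1 / 3) + X * (C (1 / 3) * (p.1 * p.2 * p.2)))

lemma Phi_contr (k : ℕ) (p q : ℚ⟦X⟧ × ℚ⟦X⟧) (h1 : X ^ k ∣ p.1 - q.1) (h2 : X ^ k ∣ p.2 - q.2) :
    X ^ (k + 1) ∣ (Phi p).1 - (Phi q).1 ∧ X ^ (k + 1) ∣ (Phi p).2 - (Phi q).2 := by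
  obtain ⟨r, hr⟩ := h1
  obtain ⟨s, hs⟩ := h2
  constructor
  · refine ⟨C (1 / 2) * (p.1 * p.1 * s + r * (p.1 + q.1) * q.2), ?_⟩
    simp only [Phi]
    linear_combination (X * C (1 / 2 : ℚ) * p.1 * p.1) * hs +
      (X * C (1 / 2 : ℚ) * (p.1 + q.1) * q.2) * hr
  · refine ⟨C (1 / 3) * (p.2 * p.2 * r + s * (p.2 + q.2) * q.1), ?_⟩
    simp only [Phi]
    linear_combination (X * C (1 / 3 : ℚ) * p.2 * p.2) * hr +
      (X * C (1 / 3 : ℚ) * (p.2 + q.2) * q.1) * hs

noncomputable def sq (k : ℕ) : ℚ⟦X⟧ × ℚ⟦X⟧ := Phi^[k] (0, 0)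

lemma sq_succ (k : ℕ) : sq (k + 1) = Phi (sq k) := Function.iterate_succ_apply' _ _ _

lemma sq_step (k : ℕ) : X ^ k ∣ (sq (k + 1)).1 - (sq k).1 ∧ X ^ k ∣ (sq (k + 1)).2 - (sq k).2 := by
  induction k with
  | zero => simp
  | succ k ih =>
    have := Phi_contr k _ _ ih.1 ih.2
    rwa [← sq_succ, ← sq_succ] at this

lemma sq_far (k m : ℕ) : X ^ k ∣ (sq (k + m)).1 - (sq k).1 ∧ X ^ k ∣ (sq (k + m)).2 - (sq k).2 := by
  induction m with
  | zero => simp
  | succ m ih =>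
    have h := sq_step (k + m)
    have hd : (X : ℚ⟦X⟧) ^ k ∣ X ^ (k + m) := pow_dvd_pow _ (by omega)
    constructor
    · have := dvd_add (hd.trans h.1) ih.1
      rwa [sub_add_sub_cancel] at this
    · have := dvd_add (hd.trans h.2) ih.2
      rwa [sub_add_sub_cancel] at this

noncomputable def fx : ℚ⟦X⟧ × ℚ⟦X⟧ :=
  (mk fun n => coeff n (sq (n + 1)).1, mk fun n => coeff n (sq (n + 1)).2)

lemma fx_approx (k : ℕ) : X ^ k ∣ fx.1 - (sq k).1 ∧ X ^ k ∣ fx.2 - (sq k).2 := by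
  constructor
  · rw [X_pow_dvd_iff]
    intro m hm
    obtain ⟨d, rfl⟩ : ∃ d, k = m + 1 + d := ⟨k - (m + 1), by omega⟩
    have := (X_pow_dvd_iff.mp (sq_far (m + 1) d).1) m (by omega)
    simp only [fx, map_sub, coeff_mk] at this ⊢
    linarith
  · rw [X_pow_dvd_iff]
    intro m hm
    obtain ⟨d, rfl⟩ : ∃ d, k = m + 1 + d := ⟨k - (m + 1), by omega⟩
    have := (X_pow_dvd_iff.mp (sq_far (m + 1) d).2) m (by omega)
    simp only [fx, map_sub, coeff_mk] at this ⊢
    linarith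

lemma fx_fix : Phi fx = fx := by
  have h : ∀ k, X ^ (k + 1) ∣ (Phi fx).1 - fx.1 ∧ X ^ (k + 1) ∣ (Phi fx).2 - fx.2 := by
    intro k
    have h1 := Phi_contr k _ _ (fx_approx k).1 (fx_approx k).2
    rw [← sq_succ] at h1
    have h2 := fx_approx (k + 1)
    constructor
    · have := dvd_sub h1.1 h2.1
      rwa [sub_sub_sub_cancel_right] at this
    · have := dvd_sub h1.2 h2.2
      rwa [sub_sub_sub_cancel_right] at this
  apply Prod.ext
  · ext n
    have := (X_pow_dvd_iff.mp (h n).1) n (by omega)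
    rw [map_sub] at this; linarith
  · ext n
    have := (X_pow_dvd_iff.mp (h n).2) n (by omega)
    rw [map_sub] at this; linarith

lemma coeff_mul_pos (f g : ℚ⟦X⟧) (n : ℕ) (hf : ∀ m ≤ n, 0 < coeff m f)
    (hg : ∀ m ≤ n, 0 < coeff m g) : 0 < coeff n (f * g) := by
  rw [coeff_mul]
  apply Finset.sum_pos
  · intro p hp
    rw [Finset.HasAntidiagonal.mem_antidiagonal] at hp
    exact mul_pos (hf _ (by omega)) (hg _ (by omega))
  · exact ⟨(0, n), by simp⟩

lemma fx_pos (n : ℕ) : 0 < coeff n fx.1 ∧ 0 < coeff n fx.2 := by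
  induction n using Nat.strong_induction_on with
  | _ n ih =>
    rw [← fx_fix]
    cases n with
    | zero => simp [Phi]
    | succ n =>
      have h1 : ∀ m ≤ n, 0 < coeff m fx.1 := fun m hm => (ih m (by omega)).1
      have h2 : ∀ m ≤ n, 0 < coeff m fx.2 := fun m hm => (ih m (by omega)).2
      have h3 : ∀ m ≤ n, 0 < coeff m (fx.1 * fx.2) := fun m hm =>
        coeff_mul_pos _ _ _ (fun j hj => h1 j (by omega)) (fun j hj => h2 j (by omega))
      have h4 := coeff_mul_pos _ _ n h3 h1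
      have h5 := coeff_mul_pos _ _ n h3 h2
      simp only [Phi, map_add, coeff_succ_X_mul, coeff_C_mul, coeff_succ_C]
      constructor <;> linarith

noncomputable def u : ℚ⟦X⟧ := X * (fx.1 * fx.2)

lemma u_pos (n : ℕ) : 0 < coeff (n + 1) u := by
  rw [u, coeff_succ_X_mul]
  exact coeff_mul_pos _ _ _ (fun m _ => (fx_pos m).1) (fun m _ => (fx_pos m).2)

lemma u_eq : u ^ 3 - 5 * u ^ 2 + 6 * u = X := by
  have h1 : fx.1 = C (1 / 2) + X * (C (1 / 2) * (fx.1 * fx.2 * fx.1)) := by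
    conv_lhs => rw [← fx_fix]
    rfl
  have h2 : fx.2 = C (1 / 3) + X * (C (1 / 3) * (fx.1 * fx.2 * fx.2)) := by
    conv_lhs => rw [← fx_fix]
    rfl
  have c2 : (2 : ℚ⟦X⟧) * C (1 / 2 : ℚ) = 1 := by
    rw [show (2 : ℚ⟦X⟧) = C (2 : ℚ) from (map_ofNat C 2).symm, ← map_mul]; norm_num
  have c3 : (3 : ℚ⟦X⟧) * C (1 / 3 : ℚ) = 1 := by
    rw [show (3 : ℚ⟦X⟧) = C (3 : ℚ) from (map_ofNat C 3).symm, ← map_mul]; norm_num
  have h3 : fx.1 * (2 - u) = 1 := by
    unfold u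
    linear_combination 2 * h1 + (1 + X * (fx.1 * fx.2 * fx.1)) * c2
  have h4 : fx.2 * (3 - u) = 1 := by
    unfold u
    linear_combination 3 * h2 + (1 + X * (fx.1 * fx.2 * fx.2)) * c3
  have h5 : u = X * (fx.1 * fx.2) := rfl
  linear_combination ((2 - u) * (3 - u)) * h5 + (X * (fx.2 * (3 - u))) * h3 + X * h4

lemma ode : (36 + 40 * X - 27 * X ^ 2) * d⁄dX ℚ (d⁄dX ℚ u) + (20 - 27 * X) * d⁄dX ℚ u
    + 3 * u - 5 = 0 := by
  have hn : ∀ n : ℕ, d⁄dX ℚ ((n : ℚ⟦X⟧)) = 0 := fun n => Derivation.map_natCast _ n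
  have h5 : d⁄dX ℚ (5 : ℚ⟦X⟧) = 0 := by exact_mod_cast hn 5
  have h6 : d⁄dX ℚ (6 : ℚ⟦X⟧) = 0 := by exact_mod_cast hn 6
  have h3 : d⁄dX ℚ (3 : ℚ⟦X⟧) = 0 := by exact_mod_cast hn 3
  have h10 : d⁄dX ℚ (10 : ℚ⟦X⟧) = 0 := by exact_mod_cast hn 10
  have e1 : d⁄dX ℚ u * (3 * (u * u) - 10 * u + 6) = 1 := by
    have h := congrArg (d⁄dX ℚ) u_eq
    rw [show u ^ 3 - 5 * u ^ 2 + 6 * u = u * (u * u) - 5 * (u * u) + 6 * u by ring] at h
    simp only [map_add, map_sub, Derivation.leibniz, smul_eq_mul, derivative_X, h5, h6] at h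
    linear_combination h
  have e2 : d⁄dX ℚ (d⁄dX ℚ u) * (3 * (u * u) - 10 * u + 6)
      + d⁄dX ℚ u * d⁄dX ℚ u * (6 * u - 10) = 0 := by
    have h := congrArg (d⁄dX ℚ) e1
    simp only [map_add, map_sub, Derivation.leibniz, smul_eq_mul, derivative_one, h3, h6, h10] at h
    linear_combination h
  have hp : (3 * (u * u) - 10 * u + 6) ≠ 0 := by
    intro h; rw [h, mul_zero] at e1; exact zero_ne_one e1
  apply mul_left_cancel₀ (pow_ne_zero 3 hp)
  rw [← u_eq]
  linear_combination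
    ((36 + 40 * (u ^ 3 - 5 * u ^ 2 + 6 * u) - 27 * (u ^ 3 - 5 * u ^ 2 + 6 * u) ^ 2) *
      (3 * (u * u) - 10 * u + 6) ^ 2) * e2
    - ((36 + 40 * (u ^ 3 - 5 * u ^ 2 + 6 * u) - 27 * (u ^ 3 - 5 * u ^ 2 + 6 * u) ^ 2) *
      (6 * u - 10) * (d⁄dX ℚ u * (3 * (u * u) - 10 * u + 6) + 1)) * e1
    + ((20 - 27 * (u ^ 3 - 5 * u ^ 2 + 6 * u)) * (3 * (u * u) - 10 * u + 6) ^ 2) * e1

lemma rec_u (n : ℕ) : 36 * ((n : ℚ) + 3) * (n + 4) * coeff (n + 4) u
    + 20 * ((n : ℚ) + 3) * (2 * n + 5) * coeff (n + 3) u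
    - (27 * ((n : ℚ) + 2) ^ 2 - 3) * coeff (n + 2) u = 0 := by
  have h := ode
  have e : (36 + 40 * X - 27 * X ^ 2) * d⁄dX ℚ (d⁄dX ℚ u) + (20 - 27 * X) * d⁄dX ℚ u
      + 3 * u - 5 = C 36 * d⁄dX ℚ (d⁄dX ℚ u) + C 40 * (X * d⁄dX ℚ (d⁄dX ℚ u))
        - C 27 * (X * (X * d⁄dX ℚ (d⁄dX ℚ u))) + C 20 * d⁄dX ℚ u - C 27 * (X * d⁄dX ℚ u)
        + C 3 * u - C 5 := by
    simp only [map_ofNat]; ring
  rw [e] at h
  have h2 := congrArg (coeff (n + 1 + 1)) h
  simp only [map_add, map_sub, coeff_C_mul, coeff_succ_X_mul, coeff_derivative, coeff_succ_C,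
    map_zero] at h2
  push_cast at h2
  linear_combination h2

lemma contr (e eps : ℕ → ℝ) (σ : ℕ → ℕ) (κ M : ℝ) (hκ0 : 0 ≤ κ) (hκ : κ < 1)
    (hσ : Tendsto σ atTop atTop) (h0 : ∀ n, 0 ≤ e n) (hM : ∀ᶠ n in atTop, e n ≤ M)
    (heps : Tendsto eps atTop (𝓝 0)) (h : ∀ᶠ n in atTop, e n ≤ κ * e (σ n) + eps n) :
    Tendsto e atTop (𝓝 0) := by
  have key : ∀ j : ℕ, ∀ η > 0, ∀ᶠ n in atTop, e n ≤ κ ^ j * M + η := by
    intro j
    induction j with
    | zero => intro η hη; filter_upwards [hM] with n hn; simp; linarith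
    | succ j ih =>
      intro η hη
      have h1 := hσ.eventually (ih (η / 2) (by linarith))
      have h2 := (tendsto_order.mp heps).2 (η / 2) (by linarith)
      filter_upwards [h, h1, h2] with n a b c
      have : κ * e (σ n) ≤ κ * (κ ^ j * M + η / 2) := mul_le_mul_of_nonneg_left b hκ0
      have : κ * (η / 2) ≤ η / 2 := by nlinarith
      rw [pow_succ]; nlinarith
  rw [tendsto_order]
  refine ⟨fun x hx => Eventually.of_forall fun n => hx.trans_le (h0 n), fun x hx => ?_⟩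
  have h1 : Tendsto (fun j : ℕ => κ ^ j * M) atTop (𝓝 0) := by
    simpa using (tendsto_pow_atTop_nhds_zero_of_lt_one hκ0 hκ).mul_const M
  obtain ⟨j, hj⟩ := ((tendsto_order.mp h1).2 (x / 2) (by linarith)).exists
  filter_upwards [key j (x / 4) (by linarith)] with n hn
  linarith

lemma eval_div (P Q : Polynomial ℚ) (x : ℚ) (hQ : Q.eval x ≠ 0) :
    RatFunc.eval (RingHom.id ℚ) x (algebraMap _ _ P / algebraMap _ _ Q : RatFunc ℚ)
      = P.eval x / Q.eval x := by
  have hQ0 : Q ≠ 0 := by rintro rfl; simp at hQ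
  have h1 := RatFunc.denom_div_dvd P Q
  have h2 := (RatFunc.num_mul_eq_mul_denom_iff (x := algebraMap _ _ P / algebraMap _ _ Q)
    (p := P) hQ0).mpr rfl
  have h3 : (RatFunc.denom (algebraMap _ _ P / algebraMap _ _ Q : RatFunc ℚ)).eval x ≠ 0 := by
    intro h
    obtain ⟨r, hr⟩ := h1
    rw [hr, Polynomial.eval_mul, h, zero_mul] at hQ
    exact hQ rfl
  have h4 := congrArg (Polynomial.eval x) h2
  rw [Polynomial.eval_mul, Polynomial.eval_mul] at h4
  unfold RatFunc.eval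
  rw [Polynomial.eval₂_id, Polynomial.eval₂_id, div_eq_div_iff h3 hQ, h4]

def al (m : ℕ) : ℚ := (9 * (m : ℚ) ^ 2 - 1) / (12 * ((m : ℚ) + 1) * (m + 2))
def be (m : ℕ) : ℚ := (5 * (2 * (m : ℚ) + 1)) / (9 * ((m : ℚ) + 2))

lemma al_pos (n : ℕ) : 0 < al (n + 2) := by
  unfold al; push_cast
  have : (0 : ℚ) ≤ n := Nat.cast_nonneg n
  apply div_pos <;> nlinarith

lemma be_pos (n : ℕ) : 0 < be n := by
  unfold be; positivity

lemma al_lim : Tendsto (fun n : ℕ => (al n : ℝ)) atTop (𝓝 (3 / 4)) := by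
  have h : Tendsto (fun n : ℕ => (1 : ℝ) / n) atTop (𝓝 0) := tendsto_one_div_atTop_nhds_zero_nat
  have h2 : Tendsto (fun n : ℕ => (9 - ((1 : ℝ) / n) ^ 2) / (12 * (1 + 1 / n) * (1 + 2 * (1 / n))))
      atTop (𝓝 ((9 - (0 : ℝ) ^ 2) / (12 * (1 + 0) * (1 + 2 * 0)))) := by
    apply Tendsto.div
    · exact (h.pow 2).const_sub 9
    · exact ((h.const_add 1).const_mul 12).mul ((h.const_mul 2).const_add 1)
    · norm_num
  rw [show (9 - (0 : ℝ) ^ 2) / (12 * (1 + 0) * (1 + 2 * 0)) = 3 / 4 by norm_num] at h2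
  refine h2.congr' ?_
  filter_upwards [eventually_gt_atTop 0] with n hn
  have : (0 : ℝ) < n := by exact_mod_cast hn
  unfold al; push_cast; field_simp

lemma be_lim : Tendsto (fun n : ℕ => (be n : ℝ)) atTop (𝓝 (10 / 9)) := by
  have h : Tendsto (fun n : ℕ => (1 : ℝ) / n) atTop (𝓝 0) := tendsto_one_div_atTop_nhds_zero_nat
  have h2 : Tendsto (fun n : ℕ => (5 * (2 + (1 : ℝ) / n)) / (9 * (1 + 2 * (1 / n))))
      atTop (𝓝 ((5 * (2 + (0 : ℝ))) / (9 * (1 + 2 * 0)))) := by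
    apply Tendsto.div
    · exact (h.const_add 2).const_mul 5
    · exact ((h.const_mul 2).const_add 1).const_mul 9
    · norm_num
  rw [show (5 * (2 + (0 : ℝ))) / (9 * (1 + 2 * 0)) = 10 / 9 by norm_num] at h2
  refine h2.congr' ?_
  filter_upwards [eventually_gt_atTop 0] with n hn
  have : (0 : ℝ) < n := by exact_mod_cast hn
  unfold be; push_cast; field_simp

noncomputable def v (n : ℕ) : ℚ := coeff (n + 2) u

lemma v_pos (n : ℕ) : 0 < v n := u_pos (n + 1)

lemma v_rec (n : ℕ) : v (n + 2) = -be (n + 2) * v (n + 1) + al (n + 2) * v n := by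
  have h := rec_u n
  unfold v al be
  push_cast
  have : (0 : ℚ) ≤ n := Nat.cast_nonneg n
  rw [show n + 2 + 2 = n + 4 by ring, show n + 1 + 2 = n + 3 by ring]
  field_simp
  linear_combination 3 * h

def W : ℕ → ℚ
  | 0 => 1
  | 1 => 1
  | n + 2 => be (n + 2) * W (n + 1) + al (n + 2) * W n

lemma W_pos (n : ℕ) : 0 < W n ∧ 0 < W (n + 1) := by
  induction n with
  | zero => simp [W]
  | succ n ih =>
    refine ⟨ih.2, ?_⟩
    rw [W]
    have := al_pos n
    have := be_pos (n + 2)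
    have := ih.1
    have := ih.2
    positivity

noncomputable def lam : ℝ := (7 * √7 - 10) / 18

lemma sqrt7 : √7 * √7 = 7 := Real.mul_self_sqrt (by norm_num)

lemma sqrt7_gt : (2.6 : ℝ) < √7 := by
  rw [Real.lt_sqrt (by norm_num)]; norm_num

lemma lam_eq : lam * (lam + 10 / 9) = 3 / 4 := by
  unfold lam; linear_combination (49 / 324) * sqrt7

lemma lam_gt : (0.4 : ℝ) < lam := by
  unfold lam; have := sqrt7_gt; linarith

lemma step_bound (a b s : ℝ) (hs : 1 ≤ b + s) :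
    |a / (b + s) - lam| ≤ 1 / 2 * |s - lam| + (|a - 3 / 4| + |b - 10 / 9|) := by
  have h1 := lam_eq
  have h2 := lam_gt
  have h3 : lam < 1 / 2 := by nlinarith
  have e : a / (b + s) - lam = ((a - 3 / 4) - lam * (b - 10 / 9) - lam * (s - lam)) / (b + s) := by
    field_simp
    linear_combination (-36) * h1
  rw [e, abs_div, abs_of_pos (by linarith : 0 < b + s), div_le_iff₀ (by linarith)]
  have t1 : |(a - 3 / 4) - lam * (b - 10 / 9) - lam * (s - lam)| ≤
      |a - 3 / 4| + lam * |b - 10 / 9| + lam * |s - lam| := by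
    have := abs_sub ((a - 3 / 4) - lam * (b - 10 / 9)) (lam * (s - lam))
    have := abs_sub (a - 3 / 4) (lam * (b - 10 / 9))
    rw [abs_mul, abs_of_pos (by linarith : 0 < lam)] at *
    linarith
  have p1 := abs_nonneg (a - 3 / 4)
  have p2 := abs_nonneg (b - 10 / 9)
  have p3 := abs_nonneg (s - lam)
  nlinarith

lemma eps_lim : Tendsto (fun n : ℕ => |(al (n + 2) : ℝ) - 3 / 4| + |(be (n + 2) : ℝ) - 10 / 9|)
    atTop (𝓝 0) := by
  have h1 := ((al_lim.comp (tendsto_add_atTop_nat 2)).sub_const (3 / 4)).abs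
  have h2 := ((be_lim.comp (tendsto_add_atTop_nat 2)).sub_const (10 / 9)).abs
  simpa using h1.add h2

lemma be_ge : ∀ᶠ n : ℕ in atTop, (1 : ℝ) ≤ be (n + 2) :=
  ((tendsto_order.mp (be_lim.comp (tendsto_add_atTop_nat 2))).1 1 (by norm_num)).mono
    fun _ h => h.le

lemma al_le : ∀ᶠ n : ℕ in atTop, (al (n + 2) : ℝ) ≤ 1 :=
  ((tendsto_order.mp (al_lim.comp (tendsto_add_atTop_nat 2))).2 1 (by norm_num)).mono
    fun _ h => h.le

lemma v_lim : Tendsto (fun n : ℕ => ((v (n + 1) : ℝ) / (v n : ℝ))) atTop (𝓝 lam) := by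
  set s : ℕ → ℝ := fun n => (v (n + 1) : ℝ) / (v n : ℝ) with hs
  have hp : ∀ n, (0 : ℝ) < v n := fun n => by exact_mod_cast v_pos n
  have hsp : ∀ n, 0 < s n := fun n => div_pos (hp _) (hp _)
  have hrec : ∀ n, s n = al (n + 2) / (be (n + 2) + s (n + 1)) := by
    intro n
    have h : (v (n + 2) : ℝ) = -be (n + 2) * v (n + 1) + al (n + 2) * v n := by
      exact_mod_cast v_rec n
    have hb : (0 : ℝ) < be (n + 2) := by exact_mod_cast be_pos _
    have := hsp (n + 1)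
    rw [eq_div_iff (by linarith)]
    simp only [hs]
    have := hp n
    have := hp (n + 1)
    field_simp
    linarith
  rw [tendsto_iff_dist_tendsto_zero]
  simp only [Real.dist_eq]
  apply contr _ _ (fun n => n + 1) (1 / 2) 2 (by norm_num) (by norm_num)
    (tendsto_add_atTop_nat 1) (fun n => abs_nonneg _) _ eps_lim
  · filter_upwards [be_ge] with n hn
    rw [hrec n]
    exact step_bound _ _ _ (by linarith [hsp (n + 1)])
  · filter_upwards [be_ge, al_le] with n h1 h2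
    have h3 : s n ≤ 1 := by
      rw [hrec n, div_le_iff₀ (by linarith [hsp (n + 1)])]
      linarith [hsp (n + 1)]
    have h4 := hsp n
    have h5 := lam_gt
    have h6 : lam < 1 / 2 := by nlinarith [lam_eq]
    rw [abs_le]; constructor <;> linarith

lemma W_lim : Tendsto (fun n : ℕ => ((W (n + 1) : ℝ) / (W n : ℝ))) atTop (𝓝 (lam + 10 / 9)) := by
  have hp : ∀ n, (0 : ℝ) < W n := fun n => by exact_mod_cast (W_pos n).1
  set t : ℕ → ℝ := fun n => (al (n + 2) : ℝ) * W n / W (n + 1) with ht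
  have htp : ∀ n, 0 < t n := fun n => by
    have : (0 : ℝ) < al (n + 2) := by exact_mod_cast al_pos n
    exact div_pos (mul_pos this (hp _)) (hp _)
  have hr : ∀ n, (W (n + 2) : ℝ) / W (n + 1) = be (n + 2) + t n := by
    intro n
    have h : (W (n + 2) : ℝ) = be (n + 2) * W (n + 1) + al (n + 2) * W n := by
      rw [W]; push_cast; ring
    have := hp (n + 1)
    simp only [ht]
    rw [h]; field_simp
  have hrec : ∀ n, t (n + 1) = al (n + 3) / (be (n + 2) + t n) := by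
    intro n
    rw [← hr]
    simp only [ht]
    have := hp (n + 1)
    have := hp (n + 2)
    field_simp
  have hlim : Tendsto t atTop (𝓝 lam) := by
    rw [← tendsto_add_atTop_iff_nat 1, tendsto_iff_dist_tendsto_zero]
    simp only [Real.dist_eq]
    have he : Tendsto (fun n : ℕ => |(al (n + 3) : ℝ) - 3 / 4| + |(be (n + 2) : ℝ) - 10 / 9|)
        atTop (𝓝 0) := by
      have h1 := ((al_lim.comp (tendsto_add_atTop_nat 3)).sub_const (3 / 4)).abs
      have h2 := ((be_lim.comp (tendsto_add_atTop_nat 2)).sub_const (10 / 9)).abs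
      simpa using h1.add h2
    apply contr _ _ (fun n => n - 1) (1 / 2) 2 (by norm_num) (by norm_num)
      (tendsto_sub_atTop_nat 1) (fun n => abs_nonneg _) _ he
    · filter_upwards [be_ge, eventually_ge_atTop 1] with n hn h1
      rw [hrec n, show n - 1 + 1 = n by omega]
      exact step_bound _ _ _ (by linarith [htp n])
    · filter_upwards [be_ge, (tendsto_add_atTop_nat 1).eventually al_le] with n h1 h2
      have h3 : t (n + 1) ≤ 1 := by
        rw [hrec n, div_le_iff₀ (by linarith [htp n])]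
        linarith [htp n]
      have h4 := htp (n + 1)
      have h5 := lam_gt
      have h6 : lam < 1 / 2 := by nlinarith [lam_eq]
      rw [abs_le]; constructor <;> linarith
  rw [← tendsto_add_atTop_iff_nat 1]
  have := hlim.add (be_lim.comp (tendsto_add_atTop_nat 2))
  refine this.congr fun n => ?_
  rw [hr n]; simp [add_comm]

theorem result :
    ¬ (∀ (a b : RatFunc ℚ) (α β lam Lam : ℝ) (v w : ℕ → ℚ),
      Tendsto (fun n : ℕ => ((RatFunc.eval (RingHom.id ℚ) (n : ℚ) a : ℚ) : ℝ)) atTop (nhds α) →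
      Tendsto (fun n : ℕ => ((RatFunc.eval (RingHom.id ℚ) (n : ℚ) b : ℚ) : ℝ)) atTop (nhds β) →
      lam + Lam = β →
      lam * Lam = -α →
      0 < |lam| →
      |lam| < |Lam| →
      (∀ᶠ n in atTop, v (n + 2) =
          RatFunc.eval (RingHom.id ℚ) ((n + 2 : ℕ) : ℚ) b * v (n + 1) +
          RatFunc.eval (RingHom.id ℚ) ((n + 2 : ℕ) : ℚ) a * v n) →
      (∀ᶠ n in atTop, w (n + 2) =
          RatFunc.eval (RingHom.id ℚ) ((n + 2 : ℕ) : ℚ) b * w (n + 1) +
          RatFunc.eval (RingHom.id ℚ) ((n + 2 : ℕ) : ℚ) a * w n) →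
      (∀ c d : ℚ, (∀ᶠ n in atTop, c * v n + d * w n = 0) → c = 0 ∧ d = 0) →
      Tendsto (fun n : ℕ => ((v (n + 1) : ℝ) / (v n : ℝ))) atTop (nhds lam) →
      Tendsto (fun n : ℕ => ((w (n + 1) : ℝ) / (w n : ℝ))) atTop (nhds Lam) →
      (∃ q : ℚ, (q : ℝ) = lam) ∧ (∃ r : ℚ, (r : ℝ) = Lam)) := by
  intro H
  obtain ⟨A, ha⟩ : ∃ A : RatFunc ℚ, ∀ n : ℕ, RatFunc.eval (RingHom.id ℚ) (n : ℚ) A = al n := by
    refine ⟨(algebraMap _ _ (9 * Polynomial.X ^ 2 - 1 : Polynomial ℚ) /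
        algebraMap _ _ (12 * (Polynomial.X + 1) * (Polynomial.X + 2) : Polynomial ℚ) : RatFunc ℚ),
        fun n => ?_⟩
    rw [eval_div]
    · simp [al]
    · simp; constructor <;> positivity
  obtain ⟨B, hb⟩ : ∃ B : RatFunc ℚ, ∀ n : ℕ, RatFunc.eval (RingHom.id ℚ) (n : ℚ) B = -be n := by
    refine ⟨(algebraMap _ _ (-(5 * (2 * Polynomial.X + 1)) : Polynomial ℚ) /
        algebraMap _ _ (9 * (Polynomial.X + 2) : Polynomial ℚ) : RatFunc ℚ), fun n => ?_⟩
    rw [eval_div]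
    · simp [be, neg_div]
    · simp; positivity
  have h2 := lam_gt
  have := H A B (3 / 4) (-(10 / 9)) lam (-(lam + 10 / 9)) v (fun n => (-1) ^ n * W n)
    (by simp only [ha]; exact al_lim)
    (by simp only [hb]; push_cast; exact be_lim.neg)
    (by ring) (by linear_combination -lam_eq) (abs_pos.mpr (by linarith))
    (by rw [abs_neg, abs_of_pos (by linarith), abs_of_pos (by linarith)]; linarith)
    (Eventually.of_forall fun n => by rw [ha, hb]; exact v_rec n)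
    (Eventually.of_forall fun n => by
      rw [ha, hb, W]; ring)
    (by
      intro c d h
      obtain ⟨n, h1, h3⟩ := (h.and ((tendsto_add_atTop_nat 1).eventually h)).exists
      have p1 := v_pos n
      have p2 := v_pos (n + 1)
      have p3 := (W_pos n).1
      have p4 := (W_pos n).2
      have hc : c = 0 := by
        have e : c * (v n * W (n + 1) + v (n + 1) * W n) = 0 := by
          linear_combination (W (n + 1)) * h1 + (W n) * h3
        rcases mul_eq_zero.mp e with e | e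
        · exact e
        · exfalso; have : 0 < v n * W (n + 1) + v (n + 1) * W n := by positivity
          linarith
      refine ⟨hc, ?_⟩
      rw [hc, zero_mul, zero_add] at h1
      rcases mul_eq_zero.mp h1 with e | e
      · exact e
      · exfalso
        exact mul_ne_zero (pow_ne_zero _ (by norm_num)) p3.ne' e)
    v_lim
    (by
      refine W_lim.neg.congr fun n => ?_
      have hp : (0 : ℝ) < W n := by exact_mod_cast (W_pos n).1
      have hq : ((-1 : ℝ)) ^ n ≠ 0 := pow_ne_zero _ (by norm_num)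
      push_cast
      rw [pow_succ]
      field_simp)
  obtain ⟨⟨q, hq⟩, _⟩ := this
  have hirr : Irrational (√7) := by
    have := Nat.Prime.irrational_sqrt (p := 7) (by norm_num)
    simpa using this
  apply hirr
  refine ⟨(18 * q + 10) / 7, ?_⟩
  push_cast
  rw [hq]; unfold lam; ring

end Pool.Agent.S16580
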