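import Pool.Statements.S16619
import Pool.Agent.H16.PrimeRecip

set_option autoImplicit false
open Pool Pool.MP_3aed06_nt

namespace Pool.Agent.S16619

/-- There is a real constant c such that for every nonempty finite set of primes, the sum over all pairs p<q in the set of 1/(q−p) is less than c times the number of primes in the set. -/
theorem result :
    ∃ c : ℝ, ∀ s : Finset ℕ, s.Nonempty → (∀ p ∈ s, Nat.Prime p) →
      (∑ p ∈ s, ∑ q ∈ s.filter (fun q => p < q), (1 : ℝ) / ((q : ℝ) - (p : ℝ)))
        < c * (s.card : ℝ) := by
  exact Pool.Agent.H16.PrimeRecip.main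

end Pool.Agent.S16619
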