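import Pool.Statements.S16631
import Pool.Agent.H15.MB2

set_option autoImplicit false
open Pool Pool.MP_3bec75_nt

namespace Pool.Agent.S16631

theorem result :
    ∀ h : ℕ, 3 ≤ h →
      ∃ A : Set ℕ,
        (∃ N : ℕ, ∀ n : ℕ, N ≤ n →
          ∃ f : Fin h → ℕ, (∀ i, f i ∈ A) ∧ ∑ i, f i = n) ∧
        ∀ S : Set ℕ, S ⊆ A →
          ((∃ N : ℕ, ∀ n : ℕ, N ≤ n →
              ∃ f : Fin h → ℕ, (∀ i, f i ∈ A \ S) ∧ ∑ i, f i = n) ↔ S.Finite) := by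
  intro h hh
  obtain ⟨p, rfl⟩ : ∃ p, h = p + 2 := ⟨h - 2, by omega⟩
  obtain ⟨A, hA⟩ := Pool.Agent.H15.MB.propF p
  refine ⟨A, ?_, hA⟩
  simpa using (hA ∅ (Set.empty_subset _)).2 Set.finite_empty

end Pool.Agent.S16631
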