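import Pool.Statements.S16913
import Pool.Agent.H15.RO5

set_option autoImplicit false
open Filter
open Pool Pool.MP_4f8442_nt

namespace Pool.Agent.S16913

theorem result :
    ∃ f : ℕ → ℕ, ∀ (A : Set ℕ) (h : ℕ),
      (∀ᶠ n in atTop, ∃ s : Multiset ℕ,
          Multiset.card s ≤ h ∧ (∀ x ∈ s, x ∈ A) ∧ s.sum = n) →
      (∃ t : ℕ, ∀ᶠ n in atTop, ∃ s : Finset ℕ,
          (↑s : Set ℕ) ⊆ A ∧ s.card ≤ t ∧ ∑ x ∈ s, x = n) →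
      ∀ᶠ n in atTop, ∃ s : Finset ℕ,
          (↑s : Set ℕ) ⊆ A ∧ s.card ≤ f h ∧ ∑ x ∈ s, x = n := by
  choose f hf using Pool.Agent.H15.RO.main
  refine ⟨f, fun A h hA ⟨t, ht⟩ => ?_⟩
  obtain ⟨N0, h0⟩ := Filter.eventually_atTop.1 hA
  obtain ⟨N2, h2⟩ := Filter.eventually_atTop.1 ht
  obtain ⟨N1, h1⟩ := hf h A N0 h0 (fun q hq ρ => by
    obtain ⟨S, a, -, c⟩ := h2 (ρ + q * N2) (by nlinarith)
    refine ⟨S, a, ?_⟩
    rw [c]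
    simp [Nat.ModEq])
  exact Filter.eventually_atTop.2 ⟨N1, h1⟩

end Pool.Agent.S16913
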