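import Pool.Statements.S17050
import Pool.Agent.H16.Quintic3

set_option autoImplicit false
open Pool Pool.MP_59b56e_nt

namespace Pool.Agent.S17050

/-- The negation of the preceding statement: Every real polynomial of degree n ≥ 1 having n distinct rational roots admits a nonzero real t such that p(x) − t also has n distinct rational roots. -/
theorem result :
    ¬ (∀ p : Polynomial ℝ, 0 < p.natDegree →
      (∃ s : Finset ℚ, s.card = p.natDegree ∧ ∀ q ∈ s, p.eval (q : ℝ) = 0) →
      ∃ t : ℝ, t ≠ 0 ∧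
        ∃ s : Finset ℚ, s.card = p.natDegree ∧
          ∀ q ∈ s, (p - Polynomial.C t).eval (q : ℝ) = 0) := by
  intro H
  have hd : (Polynomial.X ^ 5 - 13 * Polynomial.X ^ 3 + 36 * Polynomial.X : Polynomial ℝ).natDegree = 5 := by
    compute_degree!
  obtain ⟨t, ht, s, hs, hr⟩ := H (Polynomial.X ^ 5 - 13 * Polynomial.X ^ 3 + 36 * Polynomial.X)
    (by rw [hd]; norm_num)
    ⟨{0, 2, -2, 3, -3}, by rw [hd]; decide +kernel, by
      intro q hq
      simp only [Finset.mem_insert, Finset.mem_singleton] at hq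
      rcases hq with rfl | rfl | rfl | rfl | rfl <;> simp <;> norm_num⟩
  rw [hd] at hs
  have hr' : ∀ q ∈ s, ((q ^ 5 - 13 * q ^ 3 + 36 * q : ℚ) : ℝ) = t := by
    intro q hq
    have := hr q hq
    simp at this
    push_cast
    linarith
  set f : Fin 5 → ℚ := fun i => s.orderEmbOfFin hs i with hf
  have hm : ∀ i, f i ∈ s := fun i => s.orderEmbOfFin_mem hs i
  refine Pool.Agent.H16.Quintic.no_shift f (s.orderEmbOfFin hs).injective
    (f 0 ^ 5 - 13 * f 0 ^ 3 + 36 * f 0) ?_ ?_
  · intro h0
    have := hr' _ (hm 0)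
    rw [h0] at this
    exact ht (by simpa using this.symm)
  · intro i
    have := (hr' _ (hm i)).trans (hr' _ (hm 0)).symm
    exact_mod_cast this

end Pool.Agent.S17050
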