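import Pool.Statements.S17143
import Pool.Agent.H16.CubicFQ

set_option autoImplicit false
open Pool Pool.MP_6023ab_nt

namespace Pool.Agent.S17143

/-- There is a degree k between 1 and 6 and four nonzero, pairwise non-proportional real binary forms of degree k with f1^4 + f2^4 = f3^4 + f4^4. -/
theorem result :
    ∃ k : ℕ, 1 ≤ k ∧ k < 7 ∧
      ∃ f : Fin 4 → MvPolynomial (Fin 2) ℝ,
        (∀ i, f i ≠ 0 ∧ (f i).IsHomogeneous k) ∧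
        (∀ i j, i ≠ j → ∀ c : ℝ, f i ≠ c • f j) ∧
        f 0 ^ 4 + f 1 ^ 4 = f 2 ^ 4 + f 3 ^ 4 := by
  have hu : (√2 : ℝ) ^ 2 = 2 := Real.sq_sqrt (by norm_num)
  have h0 : (0 : ℝ) < √2 := by positivity
  refine ⟨3, by norm_num, by norm_num,
    ![Pool.Agent.H16.CubicFQ.g √2 1 (2 * √2) (-1),
      Pool.Agent.H16.CubicFQ.g (-1) (2 * √2) 1 √2,
      Pool.Agent.H16.CubicFQ.g √2 (-1) (2 * √2) 1,
      Pool.Agent.H16.CubicFQ.g 1 (2 * √2) (-1) √2],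
    ?_, ?_, Pool.Agent.H16.CubicFQ.ident _ hu⟩
  · intro i
    fin_cases i
    · exact ⟨Pool.Agent.H16.CubicFQ.g_ne0 _ _ _ _ h0.ne', Pool.Agent.H16.CubicFQ.g_hom _ _ _ _⟩
    · exact ⟨Pool.Agent.H16.CubicFQ.g_ne0 _ _ _ _ (by norm_num), Pool.Agent.H16.CubicFQ.g_hom _ _ _ _⟩
    · exact ⟨Pool.Agent.H16.CubicFQ.g_ne0 _ _ _ _ h0.ne', Pool.Agent.H16.CubicFQ.g_hom _ _ _ _⟩
    · exact ⟨Pool.Agent.H16.CubicFQ.g_ne0 _ _ _ _ (by norm_num), Pool.Agent.H16.CubicFQ.g_hom _ _ _ _⟩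
  · intro i j hij c
    fin_cases i <;> fin_cases j <;> first
      | exact absurd rfl hij
      | exact Pool.Agent.H16.CubicFQ.g_ne _ _ _ _ _ _ _ _ c (by intro h; nlinarith)

end Pool.Agent.S17143
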