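import Pool.Statements.S17383
import Pool.Agent.H18.Abund

set_option autoImplicit false
open Pool Pool.MP_7119ff_nt

namespace Pool.Agent.S17383

open Finset Pool.Agent.H18.Abund

section Tensor

variable {ι : Type} [Fintype ι]

/-- only constant solutions -/
def OC (c : ι → ℤ) (B : Finset ℤ) : Prop :=
  ∀ j : ι → ℤ, (∀ i, j i ∈ B) → ∑ i, c i * j i = 0 → ∀ a b, j a = j b

lemma tensor (c : ι → ℤ) (K : ℕ) (hK : ∑ i, |c i| < K) (M : ℕ) (hM : 1 ≤ M) (B : Finset ℤ)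
    (hB : B ⊆ Icc (1 : ℤ) M) (hO : OC c B) (k : ℕ) :
    ∃ S : Finset ℤ, S ⊆ Icc (1 : ℤ) (((2 * K * M) ^ k : ℕ) : ℤ) ∧ S.card = B.card ^ k ∧ OC c S := by
  have hK0 : (0 : ℤ) ≤ ∑ i, |c i| := sum_nonneg (fun i _ => abs_nonneg _)
  have hK1 : (1 : ℤ) ≤ K := by omega
  have hM1 : (1 : ℤ) ≤ M := by exact_mod_cast hM
  induction k with
  | zero =>
    refine ⟨{1}, by simp, by simp, ?_⟩
    intro j hj _ a b
    rw [mem_singleton.1 (hj a), mem_singleton.1 (hj b)]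
  | succ k ih =>
    obtain ⟨S, h1, h2, h3⟩ := ih
    have hL : (M : ℤ) ≤ K * M := by nlinarith
    refine ⟨(B ×ˢ S).image (fun q => q.1 + (K * M) * q.2), ?_, ?_, ?_⟩
    · intro y hy
      obtain ⟨⟨b, s⟩, hq, rfl⟩ := mem_image.1 hy
      rw [mem_product] at hq
      have h4 := mem_Icc.1 (hB hq.1)
      have h5 := mem_Icc.1 (h1 hq.2)
      rw [mem_Icc]
      simp only at h4 h5 ⊢
      push_cast at h5 ⊢
      rw [pow_succ]
      constructor
      · nlinarith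
      · nlinarith
    · rw [card_image_of_injOn, card_product, h2, pow_succ, mul_comm]
      rintro ⟨b, s⟩ hq ⟨b', s'⟩ hq' h
      simp only [coe_product, Set.mem_prod, mem_coe] at hq hq' h
      have h4 := mem_Icc.1 (hB hq.1)
      have h5 := mem_Icc.1 (hB hq'.1)
      have h6 : b - b' = 0 := by
        apply Int.eq_zero_of_abs_lt_dvd (m := K * M) ⟨s' - s, by linarith⟩
        rw [abs_lt]; constructor <;> linarith [h4.1, h4.2, h5.1, h5.2]
      have h7 : b = b' := by linarith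
      subst h7
      have h8 : s = s' := by
        apply mul_left_cancel₀ (a := (K * M : ℤ)) (by nlinarith)
        linarith
      rw [h8]
    · intro j hj hs
      have : ∀ i, ∃ q : ℤ × ℤ, q ∈ B ×ˢ S ∧ q.1 + (K * M) * q.2 = j i := fun i =>
        mem_image.1 (hj i)
      choose q hq1 hq2 using this
      have e : ∑ i, c i * j i = ∑ i, c i * (q i).1 + (K * M) * ∑ i, c i * (q i).2 := by
        rw [mul_sum, ← sum_add_distrib]
        apply sum_congr rfl; intro i _; rw [← hq2 i]; ring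
      have h4 : ∑ i, c i * (q i).1 = 0 := by
        apply Int.eq_zero_of_abs_lt_dvd (m := K * M) ⟨-∑ i, c i * (q i).2, by linarith⟩
        calc |∑ i, c i * (q i).1| ≤ ∑ i, |c i * (q i).1| := abs_sum_le_sum_abs _ _
          _ ≤ ∑ i, |c i| * M := by
              apply sum_le_sum
              intro i _
              have h5 := mem_Icc.1 (hB (mem_product.1 (hq1 i)).1)
              rw [abs_mul, abs_of_pos (a := (q i).1) (by linarith [h5.1])]
              exact mul_le_mul_of_nonneg_left h5.2 (abs_nonneg _)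
          _ = (∑ i, |c i|) * M := by rw [sum_mul]
          _ < K * M := by nlinarith
      have h5 : ∑ i, c i * (q i).2 = 0 := by
        apply mul_left_cancel₀ (a := (K * M : ℤ)) (by nlinarith)
        linarith
      intro a b
      rw [← hq2 a, ← hq2 b, hO _ (fun i => (mem_product.1 (hq1 i)).1) h4 a b,
        h3 _ (fun i => (mem_product.1 (hq1 i)).2) h5 a b]

lemma to_nat (c : ι → ℤ) (a b : ι) (hab : a ≠ b) (N : ℕ) (S : Finset ℤ) (hS : S ⊆ Icc (1 : ℤ) N)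
    (hO : OC c S) : ∃ A : Finset ℕ, A ⊆ Finset.Icc 1 N ∧ A.card = S.card ∧
      ∀ x : ι → ℕ, Function.Injective x → (∀ i, x i ∈ A) → ∑ i, c i * (x i : ℤ) ≠ 0 := by
  refine ⟨S.image Int.toNat, ?_, ?_, ?_⟩
  · intro y hy
    obtain ⟨z, hz, rfl⟩ := mem_image.1 hy
    have := mem_Icc.1 (hS hz)
    rw [mem_Icc]; omega
  · apply card_image_of_injOn
    intro y hy z hz h
    have h1 := mem_Icc.1 (hS hy)
    have h2 := mem_Icc.1 (hS hz)
    omega
  · intro x hx hxA h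
    have h1 : ∀ i, (x i : ℤ) ∈ S := by
      intro i
      obtain ⟨z, hz, hz'⟩ := mem_image.1 (hxA i)
      have := mem_Icc.1 (hS hz)
      have e : (x i : ℤ) = z := by omega
      rw [e]; exact hz
    have h2 := hO _ h1 h a b
    exact hab (hx (by exact_mod_cast h2))

lemma avoid (c : ι → ℤ) (a b : ι) (hab : a ≠ b)
    (H : ∀ δ : ℝ, 0 < δ → ∀ M0 : ℕ, ∃ M : ℕ, M0 ≤ M ∧ ∃ B : Finset ℤ, B ⊆ Icc (1 : ℤ) M ∧
      (M : ℝ) ^ (1 - δ) ≤ B.card ∧ OC c B) :
    ∀ δ : ℝ, 0 < δ → ∃ N₀ : ℕ, ∀ N : ℕ, N₀ ≤ N →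
      ∃ A : Finset ℕ, A ⊆ Finset.Icc 1 N ∧ (N : ℝ) ^ (1 - δ) ≤ (A.card : ℝ) ∧
        ∀ x : ι → ℕ, Function.Injective x → (∀ i, x i ∈ A) → ∑ i, c i * (x i : ℤ) ≠ 0 := by
  intro δ0 hδ0
  set δ := min δ0 1 with hδ
  have hδp : 0 < δ := lt_min hδ0 one_pos
  have hδ1 : δ ≤ 1 := min_le_right _ _
  have hδ2 : δ ≤ δ0 := min_le_left _ _
  obtain ⟨K, hK⟩ : ∃ K : ℕ, ∑ i, |c i| < K := ⟨(∑ i, |c i|).toNat + 1, by push_cast; omega⟩
  have hK0 : (0 : ℤ) ≤ ∑ i, |c i| := sum_nonneg (fun i _ => abs_nonneg _)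
  have hK1 : 1 ≤ K := by omega
  have ht : Filter.Tendsto (fun M : ℕ => (M : ℝ) ^ (δ / 4)) Filter.atTop Filter.atTop :=
    (tendsto_rpow_atTop (by linarith)).comp tendsto_natCast_atTop_atTop
  obtain ⟨M0, hM0⟩ := Filter.eventually_atTop.1 (ht.eventually_ge_atTop (2 * K))
  obtain ⟨M, hM, B, hB, hBc, hO⟩ := H (δ / 4) (by linarith) (M0 + 1)
  have hM1 : 1 ≤ M := by omega
  have hM' : (1 : ℝ) ≤ M := by exact_mod_cast hM1
  have h2K := hM0 M (by omega)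
  set L := 2 * K * M with hL
  have hL2 : 1 < L := by nlinarith
  have hL' : (1 : ℝ) ≤ L := by exact_mod_cast hL2.le
  have hBL : (L : ℝ) ^ (1 - δ / 2) ≤ B.card := by
    have h1 : (L : ℝ) ≤ (M : ℝ) ^ (1 + δ / 4) := by
      rw [Real.rpow_add (by linarith), Real.rpow_one, hL]
      push_cast
      nlinarith
    calc (L : ℝ) ^ (1 - δ / 2) ≤ ((M : ℝ) ^ (1 + δ / 4)) ^ (1 - δ / 2) :=
          Real.rpow_le_rpow (by linarith) h1 (by linarith)
      _ = (M : ℝ) ^ ((1 + δ / 4) * (1 - δ / 2)) := by rw [← Real.rpow_mul (by linarith)]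
      _ ≤ (M : ℝ) ^ (1 - δ / 4) := Real.rpow_le_rpow_of_exponent_le hM' (by nlinarith)
      _ ≤ _ := hBc
  refine ⟨L ^ ⌈2 / δ⌉₊, fun N hN => ?_⟩
  have hN0 : 0 < N := lt_of_lt_of_le (by positivity) hN
  have hN' : (1 : ℝ) ≤ N := by exact_mod_cast hN0
  set k := Nat.log L N with hk
  have hk1 : ⌈2 / δ⌉₊ ≤ k := Nat.le_log_of_pow_le hL2 hN
  have hk2 : 2 / δ ≤ (k : ℝ) := (Nat.le_ceil _).trans (by exact_mod_cast hk1)
  have hk3 : 2 ≤ (k : ℝ) * δ := by rwa [div_le_iff₀ hδp] at hk2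
  have hk4 : L ^ k ≤ N := Nat.pow_log_le_self L hN0.ne'
  have hk5 : N < L ^ (k + 1) := Nat.lt_pow_succ_log_self hL2 N
  obtain ⟨S, h1, h2, h3⟩ := tensor c K hK M hM1 B hB hO k
  obtain ⟨A, h4, h5, h6⟩ := to_nat c a b hab N S
    (h1.trans (Icc_subset_Icc_right (by exact_mod_cast hk4))) h3
  refine ⟨A, h4, ?_, h6⟩
  rw [h5, h2]
  push_cast
  calc (N : ℝ) ^ (1 - δ0) ≤ (N : ℝ) ^ (1 - δ) :=
        Real.rpow_le_rpow_of_exponent_le hN' (by linarith)
    _ ≤ ((L : ℝ) ^ ((k : ℝ) + 1)) ^ (1 - δ) := by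
        apply Real.rpow_le_rpow (by linarith) _ (by linarith)
        have : ((k : ℝ) + 1) = ((k + 1 : ℕ) : ℝ) := by push_cast; ring
        rw [this, Real.rpow_natCast]
        exact_mod_cast hk5.le
    _ = (L : ℝ) ^ (((k : ℝ) + 1) * (1 - δ)) := by rw [← Real.rpow_mul (by linarith)]
    _ ≤ (L : ℝ) ^ ((1 - δ / 2) * (k : ℝ)) := Real.rpow_le_rpow_of_exponent_le hL' (by nlinarith)
    _ = ((L : ℝ) ^ (1 - δ / 2)) ^ k := by rw [Real.rpow_mul (by linarith), Real.rpow_natCast]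
    _ ≤ _ := by gcongr

lemma noninv (c : ι → ℤ) (hs : ∑ i, c i ≠ 0) :
    ∀ δ : ℝ, 0 < δ → ∀ M0 : ℕ, ∃ M : ℕ, M0 ≤ M ∧ ∃ B : Finset ℤ, B ⊆ Icc (1 : ℤ) M ∧
      (M : ℝ) ^ (1 - δ) ≤ B.card ∧ OC c B := by
  intro δ hδ M0
  obtain ⟨q, hq⟩ : ∃ q : ℕ, |∑ i, c i| < q := ⟨|∑ i, c i|.toNat + 1, by push_cast; omega⟩
  have hq0 : 1 ≤ q := by have := abs_nonneg (∑ i, c i); omega
  have ht : Filter.Tendsto (fun M : ℕ => (M : ℝ) ^ δ) Filter.atTop Filter.atTop :=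
    (tendsto_rpow_atTop hδ).comp tendsto_natCast_atTop_atTop
  obtain ⟨M1, hM1⟩ := Filter.eventually_atTop.1 (ht.eventually_ge_atTop q)
  set n := M0 + M1 + 1 with hn
  have hn1 : n ≤ q * n := Nat.le_mul_of_pos_left _ hq0
  refine ⟨q * n, by omega, (range n).image (fun u : ℕ => (1 + q * u : ℤ)), ?_, ?_, ?_⟩
  · intro y hy
    obtain ⟨u, hu, rfl⟩ := mem_image.1 hy
    have h1 : (u : ℤ) + 1 ≤ n := by exact_mod_cast mem_range.1 hu
    have h2 : (1 : ℤ) ≤ q := by exact_mod_cast hq0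
    rw [mem_Icc]
    push_cast
    constructor
    · have : (0 : ℤ) ≤ q * u := by positivity
      linarith
    · nlinarith
  · rw [card_image_of_injOn, card_range]
    · have h1 := hM1 (q * n) (by omega)
      have h2 : (0 : ℝ) < ((q * n : ℕ) : ℝ) := by
        have : 0 < q * n := by omega
        exact_mod_cast this
      rw [Real.rpow_sub h2, Real.rpow_one, div_le_iff₀ (by positivity)]
      have h3 : (0 : ℝ) ≤ n := by positivity
      calc ((q * n : ℕ) : ℝ) = n * q := by push_cast; ring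
        _ ≤ _ := by gcongr
    · intro u _ v _ h
      have h2 : (q : ℤ) ≠ 0 := by omega
      have : (u : ℤ) = v := mul_left_cancel₀ h2 (by simpa using h)
      exact_mod_cast this
  · intro j hj h
    exfalso
    have : ∀ i, ∃ u : ℕ, (1 + q * u : ℤ) = j i := fun i => by
      obtain ⟨u, _, hu⟩ := mem_image.1 (hj i)
      exact ⟨u, hu⟩
    choose u hu using this
    have e : ∑ i, c i * j i = ∑ i, c i + q * ∑ i, c i * u i := by
      rw [mul_sum, ← sum_add_distrib]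
      apply sum_congr rfl; intro i _; rw [← hu i]; ring
    exact hs (Int.eq_zero_of_abs_lt_dvd (m := q) ⟨-∑ i, c i * u i, by linarith⟩ hq)

end Tensor

lemma main_int (ℓ : ℕ) (c : Fin ℓ → ℤ) (hc : ∀ i, c i ≠ 0) (hsum : ∑ i, c i = 0)
    (δ : ℝ) (hδ : 0 < δ) (M0 : ℕ)
    (H : ∀ M : ℕ, M0 ≤ M → ∀ B : Finset ℤ, B ⊆ Icc (1 : ℤ) M → (M : ℝ) ^ (1 - δ) ≤ B.card →
      ¬ OC c B) :
    ∃ γ : ℝ, ∃ C : ℕ, 0 < γ ∧ 0 < C ∧ ∀ N : ℕ, 1 ≤ N → ∀ A : Finset ℤ, A ⊆ Icc (1 : ℤ) N →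
      γ * ((A.card : ℝ) / (N : ℝ)) ^ C * (N : ℝ) ^ ℓ ≤ N *
        (((Fintype.piFinset (fun _ : Fin ℓ => A)).filter
          (fun x => ∑ i, c i * x i = 0)).card : ℝ) := by
  obtain ⟨K, hK⟩ : ∃ K : ℕ, ∑ i, |c i| < K := ⟨(∑ i, |c i|).toNat + 1, by push_cast; omega⟩
  have hK0 : (0 : ℤ) ≤ ∑ i, |c i| := sum_nonneg (fun i _ => abs_nonneg _)
  have hK1 : 1 ≤ K := by omega
  have hK' : (0 : ℝ) < K := by exact_mod_cast hK1
  have hKi : ∀ i, |c i| ≤ K := fun i =>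
    (single_le_sum (f := fun i => |c i|) (fun i _ => abs_nonneg _) (mem_univ i)).trans hK.le
  set D := ⌈1 / δ⌉₊ with hD
  have hD1 : 1 ≤ (D : ℝ) * δ := by
    have := Nat.le_ceil (1 / δ)
    rwa [div_le_iff₀ hδ] at this
  set K2 : ℝ := 3 ^ ℓ * (5 * K * K) with hK2
  have hK2' : 0 < K2 := by positivity
  set γ0 : ℝ := 1 / (2 * (((M0 : ℝ) + 1) * 7 ^ D) ^ (ℓ + 1)) with hγ0
  have hγ0' : 0 < γ0 := by positivity
  refine ⟨K2 * (γ0 / K2) ^ (2 ^ (ℓ - 1)) / 6, (1 + D * (ℓ + 1)) * 2 ^ (ℓ - 1), by positivity,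
    by positivity, fun N hN A hA => ?_⟩
  have hN' : (0 : ℝ) < N := by exact_mod_cast hN
  rcases Nat.eq_zero_or_pos A.card with hA0 | hA0
  · rw [hA0, Nat.cast_zero, zero_div, zero_pow (by positivity), mul_zero, zero_mul]
    positivity
  have hA0' : (0 : ℝ) < A.card := by exact_mod_cast hA0
  have hAN : A.card ≤ N := by
    calc A.card ≤ (Icc (1 : ℤ) N).card := card_le_card hA
      _ = N := by simp
  have hAN' : (A.card : ℝ) ≤ N := by exact_mod_cast hAN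
  set ε : ℝ := (A.card : ℝ) / N with hε
  have hε0 : 0 < ε := by positivity
  have hε1 : ε ≤ 1 := by rw [hε, div_le_one hN']; exact hAN'
  set t := ⌈6 / ε⌉₊ with ht
  have ht1 : 6 / ε ≤ (t : ℝ) := Nat.le_ceil _
  have ht2 : (t : ℝ) ≤ 7 / ε := by
    have h1 : (t : ℝ) < 6 / ε + 1 := Nat.ceil_lt_add_one (by positivity)
    have h2 : 1 ≤ 1 / ε := by rw [le_div_iff₀ hε0]; linarith
    have h3 : 7 / ε = 6 / ε + 1 / ε := by ring
    linarith
  have ht3 : 6 * N ≤ t * A.card := by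
    rw [div_le_iff₀ hε0, hε, ← mul_div_assoc, le_div_iff₀ hN'] at ht1
    exact_mod_cast ht1
  have ht4 : 1 ≤ t := by
    rcases Nat.eq_zero_or_pos t with h | h
    · rw [h] at ht3; omega
    · exact h
  have ht4' : (1 : ℝ) ≤ t := by exact_mod_cast ht4
  set M := (M0 + 1) * t ^ D with hM
  have htD : 1 ≤ t ^ D := Nat.one_le_pow _ _ ht4
  have hM1 : M0 + 1 ≤ M := Nat.le_mul_of_pos_right _ htD
  have hM2 : t ^ D ≤ M := Nat.le_mul_of_pos_left _ (by omega)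
  have hM' : (0 : ℝ) < M := by
    have : 0 < M := by omega
    exact_mod_cast this
  have hMδ : (t : ℝ) ≤ (M : ℝ) ^ δ := by
    calc (t : ℝ) = (t : ℝ) ^ (1 : ℝ) := by simp
      _ ≤ (t : ℝ) ^ ((D : ℝ) * δ) := Real.rpow_le_rpow_of_exponent_le ht4' hD1
      _ = ((t : ℝ) ^ D) ^ δ := by rw [Real.rpow_mul (by linarith), Real.rpow_natCast]
      _ ≤ _ := Real.rpow_le_rpow (by positivity) (by exact_mod_cast hM2) hδ.le
  obtain ⟨j, hj1, ⟨a, b, hab⟩, hj2⟩ := varn c M t (by omega) (by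
    intro B hB hBc
    have h1 : (M : ℝ) ^ (1 - δ) ≤ B.card := by
      rw [Real.rpow_sub hM', Real.rpow_one, div_le_iff₀ (by positivity)]
      have h2 : (M : ℝ) ≤ t * B.card := by exact_mod_cast hBc
      have h3 : (0 : ℝ) ≤ B.card := by positivity
      nlinarith
    have h2 := H M (by omega) B hB h1
    unfold OC at h2
    push Not at h2
    obtain ⟨j, h3, h4, a, b, h5⟩ := h2
    exact ⟨j, h3, h4, a, b, h5⟩) N hN A hA hA0 ht3
  let π : Fin ℓ → Fin ℓ := fun m => if j m ≠ j a then a else b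
  have hab' : a ≠ b := fun h => hab (by rw [h])
  have hπ1 : ∀ m, j m ≠ j (π m) := by
    intro m
    simp only [π]
    split_ifs with h
    · exact h
    · push Not at h; rw [h]; exact hab
  have hπ2 : π b = a := by simp [π, hab.symm]
  have hπ3 : ∀ m, π m = a ∨ π m = b := by
    intro m
    simp only [π]
    split_ifs <;> simp
  have hπ4 : ∀ m, m ≠ a → π m ≠ m := fun m _ h => hπ1 m (by rw [h])
  have hℓ : 1 ≤ ℓ := Fin.pos a
  have h1 := hj2 π
  rw [Fintype.card_fin] at h1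
  have h2 : (γ0 * ε ^ (1 + D * (ℓ + 1))) * (N : ℝ) ^ 2 ≤ (PP c π j N A ∅).card := by
    have h3 : (A.card : ℝ) * N ≤ 2 * (M : ℝ) ^ (ℓ + 1) * (PP c π j N A ∅).card := by
      exact_mod_cast h1
    have h4 : (M : ℝ) * ε ^ D ≤ ((M0 : ℝ) + 1) * 7 ^ D := by
      have h5 : (t : ℝ) * ε ≤ 7 := by rwa [le_div_iff₀ hε0] at ht2
      rw [hM]
      push_cast
      rw [mul_assoc, ← mul_pow]
      gcongr
    have h6 : (A.card : ℝ) = ε * N := by rw [hε]; field_simp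
    have h7 : 0 < 2 * (M : ℝ) ^ (ℓ + 1) := mul_pos two_pos (pow_pos hM' _)
    apply le_of_mul_le_mul_left _ h7
    refine le_trans ?_ h3
    rw [h6, hγ0]
    calc 2 * (M : ℝ) ^ (ℓ + 1) * (1 / (2 * (((M0 : ℝ) + 1) * 7 ^ D) ^ (ℓ + 1)) *
          ε ^ (1 + D * (ℓ + 1)) * (N : ℝ) ^ 2)
        = ((M : ℝ) * ε ^ D) ^ (ℓ + 1) / (((M0 : ℝ) + 1) * 7 ^ D) ^ (ℓ + 1) * (ε * N * N) := by
          rw [mul_pow (M : ℝ), ← pow_mul, pow_add ε 1]
          field_simp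
      _ ≤ 1 * (ε * N * N) := by
          apply mul_le_mul_of_nonneg_right _ (mul_pos (mul_pos hε0 hN') hN').le
          have h8 : (0 : ℝ) < ((M0 : ℝ) + 1) * 7 ^ D :=
            mul_pos (add_pos_of_nonneg_of_pos (Nat.cast_nonneg _) one_pos) (pow_pos (by norm_num) _)
          rw [div_le_one (pow_pos h8 _)]
          exact pow_le_pow_left₀ (mul_pos hM' (pow_pos hε0 _)).le h4 _
      _ = _ := by ring
  have h3 := amp c hc K hKi hK1 π j N hN A hA _ (by positivity) h2 (univ.erase a)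
    (fun m _ => hπ1 m)
  have h4 := final c hc hsum π j hj1 a b hab' hπ2 hπ3 hπ4 N hN A
  have h5 : ((PP c π j N A (univ.erase a)).card : ℝ) ≤ 6 * (N : ℝ) ^ 2 *
      (((Fintype.piFinset (fun _ : Fin ℓ => A)).filter (fun x => ∑ i, c i * x i = 0)).card : ℝ) := by
    exact_mod_cast h4
  rw [card_erase_of_mem (mem_univ a), card_univ, Fintype.card_fin, ← hK2] at h3
  have h6 : ℓ - 1 + 2 = ℓ + 1 := by omega
  rw [h6] at h3
  have h7 : (0 : ℝ) < 6 * N := by positivity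
  apply le_of_mul_le_mul_left _ h7
  calc 6 * (N : ℝ) * (K2 * (γ0 / K2) ^ (2 ^ (ℓ - 1)) / 6 *
        ε ^ ((1 + D * (ℓ + 1)) * 2 ^ (ℓ - 1)) * (N : ℝ) ^ ℓ)
      = K2 * (γ0 * ε ^ (1 + D * (ℓ + 1)) / K2) ^ 2 ^ (ℓ - 1) * (N : ℝ) ^ (ℓ + 1) := by
        rw [pow_mul ε, mul_div_right_comm γ0, mul_pow (γ0 / K2)]
        ring
    _ ≤ _ := h3
    _ ≤ _ := h5
    _ = _ := by ring

/-- For any homogeneous linear equation with nonzero integer coefficients: if the largest subset of [N] free of distinct-variable solutions is not N^(1-o(1)), then some γ,C>0 make every A in [N] contain at least γ(∣A∣/N)^C N^(ℓ-1) solutions. -/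
theorem result :
    ∀ (ℓ : ℕ) (c : Fin ℓ → ℤ), (∀ i, c i ≠ 0) →
      ¬ (∀ δ : ℝ, 0 < δ → ∃ N₀ : ℕ, ∀ N : ℕ, N₀ ≤ N →
          ∃ A : Finset ℕ, A ⊆ Finset.Icc 1 N ∧ (N : ℝ) ^ (1 - δ) ≤ (A.card : ℝ) ∧
            ∀ x : Fin ℓ → ℕ, Function.Injective x → (∀ i, x i ∈ A) →
              ∑ i, c i * (x i : ℤ) ≠ 0) →
      ∃ γ C : ℝ, 0 < γ ∧ 0 < C ∧ ∀ N : ℕ, 1 ≤ N → ∀ A : Finset ℕ, A ⊆ Finset.Icc 1 N →
        γ * ((A.card : ℝ) / (N : ℝ)) ^ C * (N : ℝ) ^ ((ℓ : ℝ) - 1) ≤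
          (((Fintype.piFinset (fun _ : Fin ℓ => A)).filter
              (fun x => ∑ i, c i * (x i : ℤ) = 0)).card : ℝ) := by
  intro ℓ c hc hun
  rcases Nat.lt_or_ge ℓ 2 with hℓ | hℓ
  · interval_cases ℓ
    · refine ⟨1, 1, one_pos, one_pos, fun N hN A hA => ?_⟩
      have hN' : (1 : ℝ) ≤ N := by exact_mod_cast hN
      have hAN : (A.card : ℝ) ≤ N := by
        have : A.card ≤ N := by simpa using card_le_card hA
        exact_mod_cast this
      have h1 : (A.card : ℝ) / N ≤ 1 := by rw [div_le_one (by linarith)]; exact hAN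
      have h2 : (N : ℝ) ^ (((0 : ℕ) : ℝ) - 1) ≤ 1 :=
        Real.rpow_le_one_of_one_le_of_nonpos hN' (by norm_num)
      have h3 : (0 : ℝ) ≤ (N : ℝ) ^ (((0 : ℕ) : ℝ) - 1) := by positivity
      have h4 : (((Fintype.piFinset (fun _ : Fin 0 => A)).filter
              (fun x => ∑ i, c i * (x i : ℤ) = 0)).card : ℝ) = 1 := by simp
      rw [h4, Real.rpow_one, one_mul]
      exact mul_le_one₀ h1 h3 h2
    · exfalso
      apply hun
      intro δ hδ
      refine ⟨1, fun N hN => ⟨Icc 1 N, subset_rfl, ?_, ?_⟩⟩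
      · have hN' : (1 : ℝ) ≤ N := by exact_mod_cast hN
        simp only [Nat.card_Icc, add_tsub_cancel_right]
        calc (N : ℝ) ^ (1 - δ) ≤ (N : ℝ) ^ (1 : ℝ) :=
              Real.rpow_le_rpow_of_exponent_le hN' (by linarith)
          _ = N := by simp
      · intro x _ hx
        have h1 := mem_Icc.1 (hx 0)
        simp only [univ_unique, sum_singleton, Fin.default_eq_zero]
        exact mul_ne_zero (hc 0) (by omega)
  have hab : (⟨0, by omega⟩ : Fin ℓ) ≠ ⟨1, by omega⟩ := by simp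
  have hsum : ∑ i, c i = 0 := by
    by_contra hs
    exact hun (avoid c _ _ hab (noninv c hs))
  have H : ∃ δ : ℝ, 0 < δ ∧ ∃ M0 : ℕ, ∀ M : ℕ, M0 ≤ M → ∀ B : Finset ℤ, B ⊆ Icc (1 : ℤ) M →
      (M : ℝ) ^ (1 - δ) ≤ B.card → ¬ OC c B := by
    by_contra hs
    apply hun
    apply avoid c _ _ hab
    intro δ hδ M0
    by_contra h
    apply hs
    refine ⟨δ, hδ, M0, fun M hM B hB hBc hO => h ⟨M, hM, B, hB, hBc, hO⟩⟩
  obtain ⟨δ, hδ, M0, H⟩ := H
  obtain ⟨γ, C, hγ, hC, h⟩ := main_int ℓ c hc hsum δ hδ M0 H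
  refine ⟨γ, C, hγ, by exact_mod_cast hC, fun N hN A hA => ?_⟩
  have hN' : (0 : ℝ) < N := by exact_mod_cast hN
  have h1 := h N hN (A.image (fun a : ℕ => (a : ℤ))) (by
    intro y hy
    obtain ⟨z, hz, rfl⟩ := mem_image.1 hy
    have := mem_Icc.1 (hA hz)
    rw [mem_Icc]; omega)
  rw [card_image_of_injective _ Nat.cast_injective] at h1
  have h2 : ((Fintype.piFinset (fun _ : Fin ℓ => A.image (fun a : ℕ => (a : ℤ)))).filter
      (fun x => ∑ i, c i * x i = 0)).card ≤ ((Fintype.piFinset (fun _ : Fin ℓ => A)).filter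
      (fun x => ∑ i, c i * (x i : ℤ) = 0)).card := by
    have key : ∀ x ∈ (Fintype.piFinset (fun _ : Fin ℓ => A.image (fun a : ℕ => (a : ℤ)))).filter
        (fun x => ∑ i, c i * x i = 0), ∀ i, (x i).toNat ∈ A ∧ (((x i).toNat : ℕ) : ℤ) = x i := by
      intro x hx i
      have h3 := Fintype.mem_piFinset.1 (mem_filter.1 hx).1 i
      obtain ⟨z, hz, hz'⟩ := mem_image.1 h3
      rw [← hz']
      simpa using hz
    apply card_le_card_of_injOn (fun x i => (x i).toNat)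
    · intro x hx
      have h3 := key x (mem_coe.1 hx)
      simp only [mem_coe, mem_filter, Fintype.mem_piFinset]
      refine ⟨fun i => (h3 i).1, ?_⟩
      simp only [fun i => (h3 i).2]
      exact (mem_filter.1 (mem_coe.1 hx)).2
    · intro x hx y hy hxy
      funext i
      rw [← (key x (mem_coe.1 hx) i).2, ← (key y (mem_coe.1 hy) i).2]
      exact congrArg _ (congrFun hxy i)
  have h3 : (((Fintype.piFinset (fun _ : Fin ℓ => A.image (fun a : ℕ => (a : ℤ)))).filter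
      (fun x => ∑ i, c i * x i = 0)).card : ℝ) ≤ (((Fintype.piFinset (fun _ : Fin ℓ => A)).filter
      (fun x => ∑ i, c i * (x i : ℤ) = 0)).card : ℝ) := by exact_mod_cast h2
  rw [Real.rpow_natCast, Real.rpow_sub hN', Real.rpow_natCast, Real.rpow_one, ← mul_div_assoc,
    div_le_iff₀ hN']
  nlinarith

end Pool.Agent.S17383
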