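import Pool.Statements.S17434
import Pool.Agent.H16.FermatK

set_option autoImplicit false
open Pool Pool.MP_74da6d_nt

namespace Pool.Agent.S17434

/-- The negation of the preceding statement: For every odd k ≥ 3 such that k·2^n+1 is prime for some n, there are infinitely many m for which the Fermat number 2^(2^m)+1 is divisible by some prime of the form k·2^n+1. -/
theorem result :
    ¬ (∀ k : ℕ, Odd k → 3 ≤ k → (∃ n : ℕ, Nat.Prime (k * 2 ^ n + 1)) →
      Set.Infinite {m : ℕ | ∃ n : ℕ, Nat.Prime (k * 2 ^ n + 1) ∧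
        (k * 2 ^ n + 1) ∣ Nat.fermatNumber m}) := by
  intro H
  obtain ⟨m, n, hp, hd⟩ := (H 4463529072281177764134243219140506893685665760891410172347
    (by decide +kernel) (by norm_num) ⟨_, Pool.Agent.H16.FermatK.primeK⟩).nonempty
  rcases Nat.even_or_odd' n with ⟨j, rfl | rfl⟩
  · rcases Nat.eq_zero_or_pos j with rfl | hj
    · have := hp.eq_two_or_odd
      omega
    set p := 4463529072281177764134243219140506893685665760891410172347 * 2 ^ (2 * j) + 1 with hpe
    have h1 : (p : ℤ) = 1 + 3 * (38572568284905866783444754643 * 2 ^ j) ^ 2 := by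
      rw [hpe]; push_cast; ring
    have h2 : (2 : ZMod p) ^ 2 ^ (m + 1) = 1 := by
      have := (ZMod.natCast_eq_zero_iff _ _).mpr hd
      rw [Nat.fermatNumber] at this
      push_cast at this
      rw [pow_succ, pow_mul, eq_neg_of_add_eq_zero_left this]
      simp
    obtain ⟨x, y, hxy⟩ := Pool.Agent.H16.FermatK.cubic p hp
      (by rw [hpe, Nat.add_sub_cancel]; exact Dvd.dvd.mul_right (by norm_num) _) _ h2
    have h3 : (3 : ℤ) ∣ 38572568284905866783444754643 * 2 ^ j := by
      rcases Pool.Agent.H16.FermatK.uniq p hp _ x _ h1 hxy with h | h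
      · exact ⟨y, h.symm⟩
      · exact ⟨-y, by linarith⟩
    rcases Int.prime_three.dvd_or_dvd h3 with h | h
    · norm_num at h
    · have := Int.prime_three.dvd_of_dvd_pow h
      norm_num at this
  · obtain ⟨d, h1, h2, h3⟩ := Pool.Agent.H16.FermatK.cover j
    have h4 : 0 < 2 ^ (2 * j + 1) := by positivity
    rcases (Nat.dvd_prime hp).mp h3 with h | h
    · omega
    · nlinarith

end Pool.Agent.S17434
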