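import Pool.Statements.S17543
import Pool.Agent.H16.TwoSum

set_option autoImplicit false
open Pool Pool.MP_7c4d4b_nt

namespace Pool.Agent.S17543

/-- There exist s and natural numbers 1 < x_1 < … < x_s such that the sum of the reciprocals 1/x_i plus 1/(x_1⋯x_s) equals exactly 2. -/
theorem result :
    ∃ s : ℕ, ∃ x : Fin s → ℕ, StrictMono x ∧ (∀ i, 1 < x i) ∧
      (∑ i, (1 : ℚ) / (x i : ℚ)) + 1 / (∏ i, (x i : ℚ)) = 2 := by
  obtain ⟨L, h1, h2, -, h4, -⟩ := Pool.Agent.H16.TwoSum.ex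
  refine ⟨L.length, L.get, ?_, ?_, ?_⟩
  · exact List.Pairwise.sortedLT h1 |>.strictMono_get
  · intro i
    exact h2 _ (List.get_mem L i)
  · have e1 : (∑ i, (1 : ℚ) / (L.get i : ℚ)) = (L.map (fun x : ℕ => (1 : ℚ) / x)).sum := by
      simp only [List.get_eq_getElem]
      exact Fin.sum_univ_fun_getElem L (fun x : ℕ => (1 : ℚ) / x)
    have e2 : (∏ i, (L.get i : ℚ)) = ((L.prod : ℕ) : ℚ) := by
      simp only [List.get_eq_getElem]
      rw [Fin.prod_univ_fun_getElem L (fun x : ℕ => (x : ℚ)), Nat.cast_list_prod]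
    rw [e1, e2, h4]
    simp

end Pool.Agent.S17543
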