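import Pool.Statements.S17546
import Pool.Agent.H15.SF1

set_option autoImplicit false
open Pool Pool.MP_7c6dee_nt

namespace Pool.Agent.S17546

theorem result :
    ¬ (∀ m : ℕ, 1 ≤ m → ∀ u : ℕ → ℕ,
      (∀ i, i < m → 0 < u i) →
      (∀ i, i + 1 < m → u i < u (i + 1)) →
      (∀ n, m ≤ n →
        IsLeast {x : ℕ | u (n - 1) < x ∧ ∀ i, i < n → ∀ j, j < n → x ≠ u i + u j} (u n)) →
      ∃ N p : ℕ, 1 ≤ p ∧ ∀ n, N ≤ n →
        ((u (n + p + 1) : ℤ) - (u (n + p) : ℤ)) = ((u (n + 1) : ℤ) - (u n : ℤ))) := by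
  intro h
  obtain ⟨k, a, h1, h2, h3, h4, h5, h6⟩ := Pool.Agent.H15.SF.seq_exists 7 (Or.inr rfl)
  obtain ⟨N, p, hp, hN⟩ := h k h1 a (fun i _ => h2 i) (fun i _ => h3 (Nat.lt_succ_self i))
    (fun n hn => by
      obtain ⟨n, rfl⟩ : ∃ t, n = t + 1 := ⟨n - 1, by omega⟩
      refine ⟨⟨h3 (by omega), fun i _ j _ hh => h4 i j (n + 1) (by omega) hh.symm⟩, ?_⟩
      intro x hx
      by_contra hlt
      obtain ⟨i, j, b1, b2, _, b3⟩ := h5 n x hn (by simpa using hx.1) (by omega)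
      exact hx.2 i (by omega) j (by omega) b3.symm)
  exact h6 p N hp (fun n hn => by have := hN n hn; omega)

end Pool.Agent.S17546
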