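import Pool.Statements.S17576

set_option autoImplicit false
open Pool Pool.MP_7fe555_nt

namespace Pool.Agent.S17576

lemma lcm3_lower (x y z : ℕ) (hx : 0 < x) (hxy : x < y) (hyz : y < z) :
    x ^ 3 ≤ Nat.lcm (Nat.lcm x y) z * (z - x) ^ 3 := by
  have h1 : Nat.gcd x y ≤ z - x := by
    have : Nat.gcd x y ∣ y - x := Nat.dvd_sub (Nat.gcd_dvd_right x y) (Nat.gcd_dvd_left x y)
    have := Nat.le_of_dvd (by omega) this
    omega
  have h2 : Nat.gcd x z ≤ z - x := by
    have : Nat.gcd x z ∣ z - x := Nat.dvd_sub (Nat.gcd_dvd_right x z) (Nat.gcd_dvd_left x z)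
    exact Nat.le_of_dvd (by omega) this
  have h3 : Nat.gcd y z ≤ z - x := by
    have : Nat.gcd y z ∣ z - y := Nat.dvd_sub (Nat.gcd_dvd_right y z) (Nat.gcd_dvd_left y z)
    have := Nat.le_of_dvd (by omega) this
    omega
  have h4 : Nat.gcd (Nat.lcm x y) z ≤ (z - x) * (z - x) := by
    have a1 : Nat.gcd (Nat.lcm x y) z ∣ Nat.gcd z (x * y) :=
      Nat.dvd_gcd (Nat.gcd_dvd_right _ _)
        ((Nat.gcd_dvd_left _ _).trans (Nat.lcm_dvd_mul x y))
    have a2 : Nat.gcd z (x * y) ∣ Nat.gcd z x * Nat.gcd z y := Nat.gcd_mul_right_dvd_mul_gcd z x y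
    have a3 : 0 < Nat.gcd z x * Nat.gcd z y :=
      Nat.mul_pos (Nat.gcd_pos_of_pos_right _ hx) (Nat.gcd_pos_of_pos_right _ (by omega))
    have a4 := Nat.le_of_dvd a3 (a1.trans a2)
    rw [Nat.gcd_comm z x, Nat.gcd_comm z y] at a4
    exact a4.trans (Nat.mul_le_mul h2 h3)
  have e1 : Nat.gcd (Nat.lcm x y) z * Nat.lcm (Nat.lcm x y) z = Nat.lcm x y * z :=
    Nat.gcd_mul_lcm _ _
  have e2 : Nat.gcd x y * Nat.lcm x y = x * y := Nat.gcd_mul_lcm _ _
  calc x ^ 3 = x * x * x := by ring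
    _ ≤ x * y * z := Nat.mul_le_mul (Nat.mul_le_mul le_rfl hxy.le) (by omega)
    _ = Nat.gcd x y * (Nat.gcd (Nat.lcm x y) z * Nat.lcm (Nat.lcm x y) z) := by
        rw [e1, ← e2]; ring
    _ ≤ (z - x) * (((z - x) * (z - x)) * Nat.lcm (Nat.lcm x y) z) :=
        Nat.mul_le_mul h1 (Nat.mul_le_mul h4 le_rfl)
    _ = Nat.lcm (Nat.lcm x y) z * (z - x) ^ 3 := by ring

lemma geom_bound (T : Finset ℕ) (w : ℝ) (hw : 0 ≤ w) (h : ∀ j ∈ T, (1 / 2 : ℝ) ^ j ≤ w) :
    ∑ j ∈ T, (1 / 2 : ℝ) ^ j ≤ 2 * w := by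
  rcases T.eq_empty_or_nonempty with rfl | hne
  · simp; linarith
  · set j0 := T.min' hne with hj0
    have hsub : T ⊆ Finset.Ico j0 (T.max' hne + 1) := by
      intro j hj
      rw [Finset.mem_Ico]
      exact ⟨T.min'_le j hj, Nat.lt_succ_of_le (T.le_max' j hj)⟩
    have h1 : ∑ j ∈ T, (1 / 2 : ℝ) ^ j ≤ ∑ j ∈ Finset.Ico j0 (T.max' hne + 1), (1 / 2 : ℝ) ^ j :=
      Finset.sum_le_sum_of_subset_of_nonneg hsub (fun _ _ _ => by positivity)
    have h2 := geom_sum_Ico_le_of_lt_one (m := j0) (n := T.max' hne + 1) (x := (1 / 2 : ℝ))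
      (by norm_num) (by norm_num)
    have h3 := h j0 (T.min'_mem hne)
    have h4 : (1 / 2 : ℝ) ^ j0 / (1 - 1 / 2) = 2 * (1 / 2 : ℝ) ^ j0 := by ring
    linarith

lemma log_bound (u v t : ℝ) (hu : 0 < u) (huv : u ≤ v) (ht1 : t ≤ 1) (ht : t * u ≤ v - u) :
    t ≤ 2 * (Real.log v - Real.log u) := by
  have hv : 0 < v := by linarith
  rw [← Real.log_div hv.ne' hu.ne']
  have h1 : 1 - (v / u)⁻¹ ≤ Real.log (v / u) := Real.one_sub_inv_le_log_of_pos (by positivity)
  rw [inv_div] at h1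
  have h2 : t ≤ 2 * (1 - u / v) := by
    have : 1 - u / v = (v - u) / v := by field_simp
    rw [this, ← mul_div_assoc, le_div_iff₀ hv]
    nlinarith
  linarith

theorem result :
    ¬ (∃ a : ℕ → ℕ, StrictMono a ∧ (∀ n, 0 < a n) ∧
      ∃ c : ℝ, 0 < c ∧ ∃ X : ℝ, ∀ x : ℝ, X ≤ x →
        c * x ^ ((1 : ℝ) / 3) * Real.log x <
          (({i : ℕ | ((Nat.lcm (Nat.lcm (a (i + 1)) (a (i + 2))) (a (i + 3)) : ℕ) : ℝ) < x}.ncard : ℕ) : ℝ)) := by
  rintro ⟨a, hmono, hpos, c, hc, X, hX⟩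
  classical
  obtain ⟨J, hJ⟩ := exists_nat_gt (max (max X (16 / c)) 1)
  have hJX : X < J := lt_of_le_of_lt ((le_max_left _ _).trans (le_max_left _ _)) hJ
  have hJc : 16 / c < J := lt_of_le_of_lt ((le_max_right _ _).trans (le_max_left _ _)) hJ
  have hJ1 : (1 : ℝ) < J := lt_of_le_of_lt (le_max_right _ _) hJ
  set L : ℕ → ℕ := fun i => Nat.lcm (Nat.lcm (a (i + 1)) (a (i + 2))) (a (i + 3)) with hL
  set N : ℕ := 8 ^ (2 * J) with hN
  have hLge : ∀ i, a (i + 3) ≤ L i := by
    intro i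
    apply Nat.le_of_dvd
    · exact Nat.lcm_pos (Nat.lcm_pos (hpos _) (hpos _)) (hpos _)
    · exact Nat.dvd_lcm_right _ _
  have hale : ∀ i, i ≤ a i := fun i => hmono.le_apply
  set b : ℕ → ℝ := fun i => Real.log (min (a i) N : ℕ) with hb
  have hNpos : 0 < N := by positivity
  have hb0 : ∀ i, 0 ≤ b i := fun i => Real.log_natCast_nonneg _
  have hbN : ∀ i, b i ≤ Real.log N := by
    intro i
    apply Real.log_le_log
    · have : 0 < min (a i) N := lt_min (hpos i) hNpos
      exact_mod_cast this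
    · exact_mod_cast min_le_right _ _
  have hbm : ∀ i, b (i + 1) ≤ b (i + 3) := by
    intro i
    apply Real.log_le_log
    · have : 0 < min (a (i + 1)) N := lt_min (hpos _) hNpos
      exact_mod_cast this
    · exact_mod_cast min_le_min_right _ (hmono.monotone (by omega))
  have htel : ∀ M, ∑ i ∈ Finset.range M, (b (i + 3) - b (i + 1)) =
      b (M + 2) + b (M + 1) - b 2 - b 1 := by
    intro M
    induction M with
    | zero => simp
    | succ M ih => rw [Finset.sum_range_succ, ih]; ring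
  have hper : ∀ i, ∑ j ∈ (Finset.Ico J (2 * J)).filter (fun j => L i < 8 ^ j), (1 / 2 : ℝ) ^ j ≤
      4 * (b (i + 3) - b (i + 1)) := by
    intro i
    have := geom_bound ((Finset.Ico J (2 * J)).filter (fun j => L i < 8 ^ j))
      (2 * (b (i + 3) - b (i + 1))) (by linarith [hbm i]) (by
        intro j hj
        rw [Finset.mem_filter, Finset.mem_Ico] at hj
        obtain ⟨⟨_, hj2⟩, hj3⟩ := hj
        have hlt : L i < N := hj3.trans_le (Nat.pow_le_pow_right (by norm_num) hj2.le)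
        have h3 : a (i + 3) < N := (hLge i).trans_lt hlt
        have h13 : a (i + 1) < a (i + 3) := hmono (by omega)
        have e3 : b (i + 3) = Real.log (a (i + 3)) := by simp only [hb, min_eq_left h3.le]
        have e1 : b (i + 1) = Real.log (a (i + 1)) := by
          simp only [hb, min_eq_left (h13.trans h3).le]
        rw [e3, e1]
        apply log_bound
        · exact_mod_cast hpos _
        · exact_mod_cast h13.le
        · exact pow_le_one₀ (by norm_num) (by norm_num)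
        · have k1 := lcm3_lower (a (i + 1)) (a (i + 2)) (a (i + 3)) (hpos _)
            (hmono (by omega)) (hmono (by omega))
          have k2 : a (i + 1) ^ 3 ≤ (2 ^ j * (a (i + 3) - a (i + 1))) ^ 3 := by
            calc a (i + 1) ^ 3 ≤ L i * (a (i + 3) - a (i + 1)) ^ 3 := k1
              _ ≤ 8 ^ j * (a (i + 3) - a (i + 1)) ^ 3 := Nat.mul_le_mul_right _ hj3.le
              _ = (2 ^ j * (a (i + 3) - a (i + 1))) ^ 3 := by
                rw [mul_pow, ← pow_mul, mul_comm j 3, pow_mul]; norm_num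
          have k3 : a (i + 1) ≤ 2 ^ j * (a (i + 3) - a (i + 1)) :=
            (Nat.pow_le_pow_iff_left (by norm_num)).mp k2
          have k4 : (a (i + 1) : ℝ) ≤ 2 ^ j * ((a (i + 3) : ℝ) - a (i + 1)) := by
            have : ((a (i + 3) - a (i + 1) : ℕ) : ℝ) = (a (i + 3) : ℝ) - a (i + 1) := by
              rw [Nat.cast_sub h13.le]
            rw [← this]; exact_mod_cast k3
          have k5 : (0 : ℝ) < 2 ^ j := by positivity
          rw [one_div, inv_pow, inv_mul_le_iff₀ k5]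
          exact k4)
    linarith
  have hcard : ∀ j ∈ Finset.Ico J (2 * J),
      c * J * Real.log 8 ≤ (((Finset.range N).filter (fun i => L i < 8 ^ j)).card : ℝ) * (1 / 2 : ℝ) ^ j := by
    intro j hj
    rw [Finset.mem_Ico] at hj
    have hXj : X ≤ (8 : ℝ) ^ j := by
      have h1 : J < 8 ^ J := Nat.lt_pow_self (by norm_num)
      have h2 : 8 ^ J ≤ 8 ^ j := Nat.pow_le_pow_right (by norm_num) hj.1
      have h3 : (J : ℝ) ≤ 8 ^ j := by exact_mod_cast (h1.le.trans h2)
      linarith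
    have h := hX _ hXj
    have hs : {i : ℕ | ((Nat.lcm (Nat.lcm (a (i + 1)) (a (i + 2))) (a (i + 3)) : ℕ) : ℝ) < (8 : ℝ) ^ j}
        = ↑((Finset.range N).filter (fun i => L i < 8 ^ j)) := by
      ext i
      simp only [Set.mem_ofPred_eq, Finset.coe_filter, Finset.mem_range]
      constructor
      · intro hi
        have hi' : L i < 8 ^ j := by exact_mod_cast hi
        refine ⟨?_, hi'⟩
        have hlt : L i < N := hi'.trans_le (Nat.pow_le_pow_right (by norm_num) hj.2.le)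
        have := hLge i
        have := hale (i + 3)
        omega
      · intro hi
        exact_mod_cast hi.2
    rw [hs, Set.ncard_coe_finset] at h
    have e1 : ((8 : ℝ) ^ j) ^ ((1 : ℝ) / 3) = 2 ^ j := by
      have : (8 : ℝ) ^ j = ((2 : ℝ) ^ j) ^ (3 : ℕ) := by
        rw [← pow_mul, mul_comm, pow_mul]; norm_num
      rw [this, one_div]
      have := Real.pow_rpow_inv_natCast (x := (2 : ℝ) ^ j) (by positivity) (by norm_num : (3 : ℕ) ≠ 0)
      simpa using this
    rw [e1, Real.log_pow] at h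
    have k5 : (0 : ℝ) < 2 ^ j := by positivity
    have hl : 0 < Real.log 8 := Real.log_pos (by norm_num)
    have hjJ : (J : ℝ) ≤ j := by exact_mod_cast hj.1
    rw [one_div, inv_pow, ← div_eq_mul_inv, le_div_iff₀ k5]
    have : c * J * Real.log 8 * 2 ^ j ≤ c * 2 ^ j * (j * Real.log 8) := by
      have : c * Real.log 8 * 2 ^ j * J ≤ c * Real.log 8 * 2 ^ j * j :=
        mul_le_mul_of_nonneg_left hjJ (by positivity)
      linarith
    linarith
  have hsum1 : ∑ j ∈ Finset.Ico J (2 * J), c * J * Real.log 8 ≤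
      ∑ j ∈ Finset.Ico J (2 * J),
        (((Finset.range N).filter (fun i => L i < 8 ^ j)).card : ℝ) * (1 / 2 : ℝ) ^ j :=
    Finset.sum_le_sum hcard
  have hswap : ∑ j ∈ Finset.Ico J (2 * J),
        (((Finset.range N).filter (fun i => L i < 8 ^ j)).card : ℝ) * (1 / 2 : ℝ) ^ j =
      ∑ i ∈ Finset.range N,
        ∑ j ∈ (Finset.Ico J (2 * J)).filter (fun j => L i < 8 ^ j), (1 / 2 : ℝ) ^ j := by
    simp only [Finset.sum_filter]
    rw [Finset.sum_comm]
    apply Finset.sum_congr rfl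
    intro j _
    rw [← Finset.sum_filter, Finset.sum_const, nsmul_eq_mul]
  have hsum2 : ∑ i ∈ Finset.range N,
        ∑ j ∈ (Finset.Ico J (2 * J)).filter (fun j => L i < 8 ^ j), (1 / 2 : ℝ) ^ j ≤
      ∑ i ∈ Finset.range N, 4 * (b (i + 3) - b (i + 1)) := Finset.sum_le_sum (fun i _ => hper i)
  rw [← Finset.mul_sum, htel] at hsum2
  rw [Finset.sum_const, Nat.card_Ico, nsmul_eq_mul] at hsum1
  have hJJ : ((2 * J - J : ℕ) : ℝ) = J := by
    have : 2 * J - J = J := by omega
    rw [this]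
  rw [hJJ] at hsum1
  have hlogN : Real.log N = 2 * J * Real.log 8 := by
    rw [hN]; push_cast; rw [Real.log_pow]; push_cast; ring
  have hl : 0 < Real.log 8 := Real.log_pos (by norm_num)
  have f1 := hbN (N + 2)
  have f2 := hbN (N + 1)
  have f3 := hb0 2
  have f4 := hb0 1
  have f5 : (J : ℝ) * (c * J * Real.log 8) ≤ 16 * J * Real.log 8 := by linarith
  have f6 : 16 < c * J := by
    rw [div_lt_iff₀ hc] at hJc; linarith
  have f7 : 0 < (J : ℝ) * Real.log 8 := by positivity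
  nlinarith

end Pool.Agent.S17576
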