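import Pool.Statements.S17669
import Pool.Agent.H10.DomC

set_option autoImplicit false
open Pool Pool.MP_885588_nt

namespace Pool.Agent.S17669

/-- For all k ≥ 2, i in {1,2,3}, ε > 0 and infinite A ⊆ ℕ: if the number of k-term representations of n from A (ordered, non-decreasing, or strictly increasing for i = 1, 2, 3) is eventually non-decreasing in n, then #{a in A : 1 ≤ a ≤ n} is not O(n^(2/k − ε)). -/
theorem result :
    ∀ k : ℕ, 2 ≤ k → ∀ i ∈ ({1, 2, 3} : Finset ℕ), ∀ ε : ℝ, 0 < ε →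
      ∀ A : Set ℕ, A.Infinite →
        (∃ n₀ : ℕ, ∀ n : ℕ, n₀ ≤ n →
          Set.ncard {a : Fin k → ℕ | (∀ j, a j ∈ A) ∧ (∑ j, a j) = n ∧
              (i = 2 → Monotone a) ∧ (i = 3 → StrictMono a)} ≤
          Set.ncard {a : Fin k → ℕ | (∀ j, a j ∈ A) ∧ (∑ j, a j) = n + 1 ∧
              (i = 2 → Monotone a) ∧ (i = 3 → StrictMono a)}) →
        ¬ Asymptotics.IsBigO Filter.atTop
            (fun n : ℕ => ((A ∩ Set.Icc 1 n).ncard : ℝ))
            (fun n : ℕ => (n : ℝ) ^ ((2 : ℝ) / (k : ℝ) - ε)) := by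
  intro k hk i hi ε e0 A hA ⟨n0, hm⟩ hO
  refine Pool.Agent.H10.Dom.main k hk ε e0 A hA
    (fun a => (i = 2 → Monotone a) ∧ (i = 3 → StrictMono a)) ?_ n0 hm hO
  simp only [Finset.mem_insert, Finset.mem_singleton] at hi
  rcases hi with rfl | rfl | rfl
  · exact Or.inl fun a => by simp
  · exact Or.inr ⟨0, Or.inl rfl, fun a => by simp [monotone_iff_forall_lt]⟩
  · exact Or.inr ⟨1, Or.inr rfl, fun a => by simp [StrictMono, Nat.succ_le_iff]⟩

end Pool.Agent.S17669
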