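import Pool.Statements.S17740

set_option autoImplicit false
open N435e839e
open Pool Pool.MP_8f0c89_nt

namespace Pool.Agent.S17740

open Finset

lemma gp_le (n t : ℕ) : ∀ a ∈ greedyPrefix true n t, a ≤ t := by
  induction t with
  | zero => intro a ha; simp [greedyPrefix] at ha; omega
  | succ t ih =>
    intro a ha
    simp only [greedyPrefix] at ha
    split_ifs at ha with h
    · rcases mem_insert.1 ha with h1 | h1
      · omega
      · have := ih a h1; omega
    · have := ih a ha; omega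

lemma gp_cop (n t : ℕ) : ∀ a ∈ greedyPrefix true n t, ∀ b ∈ greedyPrefix true n t,
    a < b → 2 ≤ b → Nat.Coprime (n - b) (n - a) := by
  induction t with
  | zero =>
    intro a ha b hb hab h2
    simp [greedyPrefix] at hb; omega
  | succ t ih =>
    intro a ha b hb hab h2
    simp only [greedyPrefix] at ha hb
    split_ifs at ha hb with h
    · rcases mem_insert.1 hb with hb1 | hb1
      · rcases mem_insert.1 ha with ha1 | ha1
        · omega
        · rcases h with h | h
          · omega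
          · rw [hb1]; exact h a ha1
      · rcases mem_insert.1 ha with ha1 | ha1
        · have := gp_le n t b hb1; omega
        · exact ih a ha1 b hb1 hab h2
    · exact ih a ha b hb hab h2

/-- the double logarithm -/
def jj (q : ℕ) : ℕ := Nat.log 2 (Nat.log 2 q)

lemma summ1 : Summable (fun k : ℕ => (1 : ℝ) / 4 ^ (Nat.log 2 k)) := by
  rw [← summable_condensed_iff_of_nonneg]
  · have : (fun k : ℕ => (2 : ℝ) ^ k * ((1 : ℝ) / 4 ^ (Nat.log 2 (2 ^ k)))) =
        fun k : ℕ => ((1 : ℝ) / 2) ^ k := by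
      funext k
      rw [Nat.log_pow (by norm_num)]
      rw [show (4 : ℝ) = 2 * 2 by norm_num, mul_pow, one_div_pow]
      field_simp
    rw [this]
    exact summable_geometric_two
  · intro n; positivity
  · intro m n hm hmn
    apply one_div_le_one_div_of_le (by positivity)
    exact pow_le_pow_right₀ (by norm_num) (Nat.log_mono_right hmn)

lemma summ2 : Summable (fun q : ℕ => (1 : ℝ) / (q * 4 ^ (jj q))) := by
  rw [← summable_condensed_iff_of_nonneg]
  · have : (fun k : ℕ => (2 : ℝ) ^ k * ((1 : ℝ) / (((2 ^ k : ℕ) : ℝ) * 4 ^ (jj (2 ^ k))))) =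
        fun k : ℕ => (1 : ℝ) / 4 ^ (Nat.log 2 k) := by
      funext k
      unfold jj
      rw [Nat.log_pow (by norm_num)]
      push_cast
      field_simp
    rw [this]
    exact summ1
  · intro n; positivity
  · intro m n hm hmn
    have hm' : (0 : ℝ) < m := by exact_mod_cast hm
    apply one_div_le_one_div_of_le (by positivity)
    have h1 : (m : ℝ) ≤ n := by exact_mod_cast hmn
    have h2 : (4 : ℝ) ^ jj m ≤ 4 ^ jj n :=
      pow_le_pow_right₀ (by norm_num) (Nat.log_mono_right (Nat.log_mono_right hmn))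
    gcongr

lemma block (q t : ℕ) (hq : 0 < q) : ∑ a ∈ Ico q (q * 2 ^ t), (1 : ℝ) / a ≤ t := by
  induction t with
  | zero => simp
  | succ t ih =>
    have h1 : q ≤ q * 2 ^ t := Nat.le_mul_of_pos_right _ (by positivity)
    have h2 : q * 2 ^ t ≤ q * 2 ^ (t + 1) := by
      apply Nat.mul_le_mul_left; exact Nat.pow_le_pow_right (by norm_num) (by omega)
    rw [← sum_Ico_consecutive _ h1 h2]
    have hpos : (0 : ℝ) < ((q * 2 ^ t : ℕ) : ℝ) := by
      have : 0 < q * 2 ^ t := by positivity
      exact_mod_cast this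
    have h3 : ∑ a ∈ Ico (q * 2 ^ t) (q * 2 ^ (t + 1)), (1 : ℝ) / a ≤ 1 := by
      calc ∑ a ∈ Ico (q * 2 ^ t) (q * 2 ^ (t + 1)), (1 : ℝ) / a
          ≤ ∑ a ∈ Ico (q * 2 ^ t) (q * 2 ^ (t + 1)), (1 : ℝ) / ((q * 2 ^ t : ℕ) : ℝ) := by
            apply sum_le_sum
            intro a ha
            apply one_div_le_one_div_of_le hpos
            exact_mod_cast (mem_Ico.1 ha).1
        _ = 1 := by
            rw [sum_const, Nat.card_Ico, nsmul_eq_mul]
            have : q * 2 ^ (t + 1) - q * 2 ^ t = q * 2 ^ t := by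
              rw [pow_succ, ← mul_assoc]; omega
            rw [this]
            field_simp
    push_cast
    linarith

/-- harmonic sums as reals -/
noncomputable def HH (M : ℕ) : ℝ := ∑ N ∈ Icc 1 M, (1 : ℝ) / N

lemma HH_eq (M : ℕ) : HH M = (harmonic M : ℝ) := by
  unfold HH
  rw [harmonic_eq_sum_Icc]
  push_cast
  simp [one_div]

lemma HH_lower (M : ℕ) : Real.log (M + 1) ≤ HH M := by
  rw [HH_eq]
  have := log_add_one_le_harmonic M
  push_cast at this
  exact this

lemma HH_upper (M : ℕ) : HH M ≤ 1 + Real.log M := by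
  rw [HH_eq]; exact harmonic_le_one_add_log M

lemma HH_mono {M M' : ℕ} (h : M ≤ M') : HH M ≤ HH M' := by
  unfold HH
  apply sum_le_sum_of_subset_of_nonneg (Icc_subset_Icc_right h)
  intro i _ _; positivity

lemma HH_nonneg (M : ℕ) : 0 ≤ HH M := by
  unfold HH
  apply sum_nonneg; intro i _; positivity

lemma cop_of (N s z : ℕ) (hN : z < N.minFac) (hs1 : 1 ≤ s) (hs : s ≤ z) : Nat.Coprime N s := by
  apply Nat.coprime_of_lt_minFac (by omega) (by omega)

lemma rough (M z : ℕ) :
    (∑ N ∈ (Icc 2 M).filter (fun N => z < N.minFac), (1 : ℝ) / N) * HH z ≤ HH (M * z) := by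
  unfold HH
  rw [sum_mul_sum, ← sum_product']
  have hinj : Set.InjOn (fun x : ℕ × ℕ => x.1 * x.2)
      (((Icc 2 M).filter (fun N => z < N.minFac) ×ˢ Icc 1 z : Finset (ℕ × ℕ)) : Set (ℕ × ℕ)) := by
    rintro ⟨N, s⟩ h1 ⟨N', s'⟩ h2 h
    simp only [coe_product, Set.mem_prod, mem_coe, mem_filter, mem_Icc] at h1 h2
    simp only at h
    have c1 := cop_of N s' z h1.1.2 h2.2.1 h2.2.2
    have c2 := cop_of N' s z h2.1.2 h1.2.1 h1.2.2
    have d1 : N ∣ N' := c1.dvd_of_dvd_mul_right ⟨s, h.symm⟩
    have d2 : N' ∣ N := c2.dvd_of_dvd_mul_right ⟨s', h⟩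
    have e : N = N' := Nat.dvd_antisymm d1 d2
    subst e
    have : s = s' := Nat.eq_of_mul_eq_mul_left (by omega) h
    rw [this]
  calc ∑ x ∈ (Icc 2 M).filter (fun N => z < N.minFac) ×ˢ Icc 1 z, (1 : ℝ) / x.1 * (1 / x.2)
      = ∑ x ∈ (Icc 2 M).filter (fun N => z < N.minFac) ×ˢ Icc 1 z,
          (1 : ℝ) / ((x.1 * x.2 : ℕ) : ℝ) := by
        apply sum_congr rfl
        intro x _
        push_cast
        rw [one_div_mul_one_div]
    _ = ∑ y ∈ ((Icc 2 M).filter (fun N => z < N.minFac) ×ˢ Icc 1 z).image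
          (fun x : ℕ × ℕ => x.1 * x.2), (1 : ℝ) / (y : ℝ) := by
        rw [sum_image hinj]
    _ ≤ _ := by
        apply sum_le_sum_of_subset_of_nonneg
        · intro y hy
          obtain ⟨⟨N, s⟩, hx, rfl⟩ := mem_image.1 hy
          simp only [mem_product, mem_filter, mem_Icc] at hx
          rw [mem_Icc]
          exact ⟨Nat.mul_pos (by omega) (by omega), Nat.mul_le_mul hx.1.1.2 hx.2.2⟩
        · intro i _ _; positivity

lemma layer (M t : ℕ) (ht : 1 ≤ t) :
    ∑ N ∈ (Icc 2 M).filter (fun N => t ≤ jj N.minFac), (1 : ℝ) / N ≤ 2 * HH (M * M) * (1 / 2) ^ t := by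
  set z := 2 ^ (2 ^ t) - 1 with hz
  have hz1 : z + 1 = 2 ^ (2 ^ t) := by
    have : 0 < 2 ^ (2 ^ t) := by positivity
    omega
  have hsub : (Icc 2 M).filter (fun N => t ≤ jj N.minFac) ⊆
      (Icc 2 M).filter (fun N => z < N.minFac) := by
    intro N hN
    rw [mem_filter] at hN ⊢
    refine ⟨hN.1, ?_⟩
    have h1 := hN.2
    unfold jj at h1
    have h2 : Nat.log 2 N.minFac ≠ 0 := by
      intro h; rw [h] at h1; simp at h1; omega
    have h3 : 2 ^ t ≤ Nat.log 2 N.minFac := Nat.pow_le_of_le_log h2 h1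
    have h4 : 2 ^ (2 ^ t) ≤ N.minFac := Nat.pow_le_of_le_log (Nat.minFac_pos N).ne' h3
    omega
  have hle : ∑ N ∈ (Icc 2 M).filter (fun N => t ≤ jj N.minFac), (1 : ℝ) / N ≤
      ∑ N ∈ (Icc 2 M).filter (fun N => z < N.minFac), (1 : ℝ) / N :=
    sum_le_sum_of_subset_of_nonneg hsub (fun i _ _ => by positivity)
  refine hle.trans ?_
  by_cases hM : z ≤ M
  · have h1 := rough M z
    have h2 : HH (M * z) ≤ HH (M * M) := HH_mono (Nat.mul_le_mul_left _ hM)
    have h3 : (2 : ℝ) ^ t / 2 ≤ HH z := by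
      have h4 := HH_lower z
      have h5 : ((z : ℝ) + 1) = 2 ^ (2 ^ t) := by exact_mod_cast hz1
      rw [h5, Real.log_pow] at h4
      have h6 := Real.log_two_gt_d9
      have h7 : (0 : ℝ) < 2 ^ t := by positivity
      push_cast at h4
      nlinarith
    have h0 : 0 ≤ ∑ N ∈ (Icc 2 M).filter (fun N => z < N.minFac), (1 : ℝ) / N :=
      sum_nonneg (fun i _ => by positivity)
    have h7 : (0 : ℝ) < 2 ^ t := by positivity
    rw [one_div_pow, mul_one_div, le_div_iff₀ h7]
    nlinarith
  · have : (Icc 2 M).filter (fun N => z < N.minFac) = ∅ := by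
      apply filter_eq_empty_iff.2
      intro N hN
      rw [mem_Icc] at hN
      have := Nat.minFac_le (n := N) (by omega)
      omega
    rw [this, sum_empty]
    have := HH_nonneg (M * M)
    positivity

lemma cake (M : ℕ) : ∑ N ∈ Icc 2 M, (jj N.minFac : ℝ) / N ≤ 4 * HH (M * M) := by
  have h1 : ∀ N ∈ Icc 2 M, (jj N.minFac : ℝ) / N =
      ∑ t ∈ range M, if t + 1 ≤ jj N.minFac then (1 : ℝ) / N else 0 := by
    intro N hN
    rw [mem_Icc] at hN
    have hj : jj N.minFac ≤ M := by
      unfold jj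
      have a1 := Nat.log_le_self 2 (Nat.log 2 N.minFac)
      have a2 := Nat.log_le_self 2 N.minFac
      have a3 := Nat.minFac_le (n := N) (by omega)
      omega
    rw [← sum_filter, sum_const, nsmul_eq_mul]
    have : (range M).filter (fun t => t + 1 ≤ jj N.minFac) = range (jj N.minFac) := by
      ext t; simp only [mem_filter, mem_range]; omega
    rw [this, card_range]
    ring
  rw [sum_congr rfl h1, sum_comm]
  calc ∑ t ∈ range M, ∑ N ∈ Icc 2 M, (if t + 1 ≤ jj N.minFac then (1 : ℝ) / N else 0)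
      ≤ ∑ t ∈ range M, 2 * HH (M * M) * (1 / 2) ^ t := by
        apply sum_le_sum
        intro t _
        rw [← sum_filter]
        refine (layer M (t + 1) (by omega)).trans ?_
        have := HH_nonneg (M * M)
        have h2 : ((1 : ℝ) / 2) ^ (t + 1) ≤ (1 / 2) ^ t :=
          pow_le_pow_of_le_one (by norm_num) (by norm_num) (by omega)
        gcongr
    _ = 2 * HH (M * M) * ∑ t ∈ range M, ((1 : ℝ) / 2) ^ t := by rw [mul_sum]
    _ ≤ 2 * HH (M * M) * 2 := by
        have := HH_nonneg (M * M)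
        have h2 := sum_geometric_two_le M
        gcongr
    _ = _ := by ring

/-- the close terms -/
def AA (n : ℕ) : Finset ℕ :=
  (range n).filter (fun a => 2 ≤ n - a ∧ (n - a).minFac ≤ a ∧
    a < (n - a).minFac * 2 ^ (2 * jj (n - a).minFac))

lemma split (n : ℕ) : properSum true n ≤
    (∑' q : ℕ, (1 : ℝ) / (q * 4 ^ (jj q))) + ∑ a ∈ AA n, (1 : ℝ) / a := by
  classical
  unfold properSum
  set S := (selected true n).filter (Proper n) with hS
  have hmem : ∀ a ∈ S, a ∈ greedyPrefix true n (n - 1) ∧ a < n ∧ 2 ≤ a ∧ 2 ≤ n - a ∧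
      (n - a).minFac ≤ a := by
    intro a ha
    rw [hS, mem_filter, selected, mem_filter] at ha
    obtain ⟨⟨h1, h2, h3⟩, p, hp, hpa, hpd⟩ := ha
    have := hp.two_le
    have h4 : p ≤ n - a := Nat.le_of_dvd (by omega) hpd
    have h5 := Nat.minFac_le_of_dvd hp.two_le hpd
    exact ⟨h1, h3, by omega, by omega, by omega⟩
  have key : ∑ a ∈ S, (1 : ℝ) / a ≤
      (∑' q : ℕ, (1 : ℝ) / (q * 4 ^ (jj q))) + ∑ a ∈ AA n, (1 : ℝ) / a := by
    rw [← sum_filter_add_sum_filter_not S
      (fun a => (n - a).minFac * 2 ^ (2 * jj (n - a).minFac) ≤ a)]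
    apply add_le_add
    · have hinj : Set.InjOn (fun a : ℕ => (n - a).minFac)
          (S.filter (fun a => (n - a).minFac * 2 ^ (2 * jj (n - a).minFac) ≤ a) : Finset ℕ) := by
        intro a ha b hb hab
        have ha' := hmem a (mem_filter.1 (mem_coe.1 ha)).1
        have hb' := hmem b (mem_filter.1 (mem_coe.1 hb)).1
        simp only at hab
        have hp : (n - a).minFac.Prime := Nat.minFac_prime (by omega)
        have d1 : (n - a).minFac ∣ n - a := Nat.minFac_dvd _
        have d2 : (n - a).minFac ∣ n - b := by rw [hab]; exact Nat.minFac_dvd _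
        by_contra hne
        rcases lt_or_gt_of_ne hne with h | h
        · have := gp_cop n (n - 1) a ha'.1 b hb'.1 h hb'.2.2.1
          exact hp.one_lt.ne' (Nat.eq_one_of_dvd_coprimes this d2 d1)
        · have := gp_cop n (n - 1) b hb'.1 a ha'.1 h ha'.2.2.1
          exact hp.one_lt.ne' (Nat.eq_one_of_dvd_coprimes this d1 d2)
      calc ∑ a ∈ S.filter (fun a => (n - a).minFac * 2 ^ (2 * jj (n - a).minFac) ≤ a), (1 : ℝ) / a
          ≤ ∑ a ∈ S.filter (fun a => (n - a).minFac * 2 ^ (2 * jj (n - a).minFac) ≤ a),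
              (1 : ℝ) / (((n - a).minFac : ℝ) * 4 ^ (jj (n - a).minFac)) := by
            apply sum_le_sum
            intro a ha
            have h1 := (mem_filter.1 ha).2
            have h2 : (0 : ℝ) < (n - a).minFac := by exact_mod_cast Nat.minFac_pos _
            apply one_div_le_one_div_of_le (by positivity)
            rw [pow_mul] at h1
            exact_mod_cast h1
        _ = ∑ q ∈ (S.filter (fun a => (n - a).minFac * 2 ^ (2 * jj (n - a).minFac) ≤ a)).image
              (fun a : ℕ => (n - a).minFac), (1 : ℝ) / ((q : ℝ) * 4 ^ (jj q)) := by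
            rw [sum_image hinj]
        _ ≤ _ := summ2.sum_le_tsum _ (fun i _ => by positivity)
    · apply sum_le_sum_of_subset_of_nonneg
      · intro a ha
        rw [mem_filter] at ha
        have ha' := hmem a ha.1
        rw [AA, mem_filter, mem_range]
        exact ⟨ha'.2.1, ha'.2.2.2.1, ha'.2.2.2.2, by omega⟩
      · intro i _ _; positivity
  convert key

lemma avg (M : ℕ) : ∑ n ∈ Icc 1 M, (∑ a ∈ AA n, (1 : ℝ) / a) / n ≤ 8 * HH (M * M) := by
  have e1 : ∑ n ∈ Icc 1 M, (∑ a ∈ AA n, (1 : ℝ) / a) / n =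
      ∑ x ∈ (Icc 1 M).sigma AA, (1 : ℝ) / x.2 / x.1 := by
    rw [sum_sigma]
    apply sum_congr rfl
    intro n _
    rw [sum_div]
  rw [e1]
  set D : Finset (Σ _ : ℕ, ℕ) := (Icc 2 M).sigma
    (fun N => Ico N.minFac (N.minFac * 2 ^ (2 * jj N.minFac))) with hD
  set f : (Σ _ : ℕ, ℕ) → (Σ _ : ℕ, ℕ) := fun x => ⟨x.1 - x.2, x.2⟩ with hf
  have hinj : Set.InjOn f ((Icc 1 M).sigma AA : Finset (Σ _ : ℕ, ℕ)) := by
    rintro ⟨n, a⟩ h1 ⟨n', a'⟩ h2 h
    simp only [mem_coe, mem_sigma, AA, mem_filter, mem_range] at h1 h2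
    simp only [hf, Sigma.mk.injEq, heq_eq_eq] at h
    obtain ⟨h3, h4⟩ := h
    subst h4
    have : n = n' := by omega
    subst this
    rfl
  calc ∑ x ∈ (Icc 1 M).sigma AA, (1 : ℝ) / x.2 / x.1
      ≤ ∑ x ∈ (Icc 1 M).sigma AA, (1 : ℝ) / (f x).2 / (f x).1 := by
        apply sum_le_sum
        rintro ⟨n, a⟩ hx
        simp only [mem_sigma, AA, mem_filter, mem_range] at hx
        simp only [hf]
        have h1 : (0 : ℝ) < ((n - a : ℕ) : ℝ) := by
          have : 0 < n - a := by omega
          exact_mod_cast this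
        have h2 : ((n - a : ℕ) : ℝ) ≤ n := by exact_mod_cast Nat.sub_le n a
        gcongr
    _ = ∑ y ∈ ((Icc 1 M).sigma AA).image f, (1 : ℝ) / y.2 / y.1 := by
        rw [sum_image hinj]
    _ ≤ ∑ y ∈ D, (1 : ℝ) / y.2 / y.1 := by
        apply sum_le_sum_of_subset_of_nonneg
        · intro y hy
          obtain ⟨⟨n, a⟩, hx, rfl⟩ := mem_image.1 hy
          simp only [mem_sigma, AA, mem_filter, mem_range, mem_Icc] at hx
          simp only [hD, hf, mem_sigma, mem_Icc, mem_Ico]
          refine ⟨⟨hx.2.2.1, by omega⟩, hx.2.2.2.1, hx.2.2.2.2⟩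
        · intro i _ _; positivity
    _ = ∑ N ∈ Icc 2 M, (∑ a ∈ Ico N.minFac (N.minFac * 2 ^ (2 * jj N.minFac)), (1 : ℝ) / a) / N := by
        rw [hD, sum_sigma]
        apply sum_congr rfl
        intro n _
        rw [sum_div]
    _ ≤ ∑ N ∈ Icc 2 M, 2 * ((jj N.minFac : ℝ) / N) := by
        apply sum_le_sum
        intro N _
        have := block N.minFac (2 * jj N.minFac) (Nat.minFac_pos N)
        push_cast at this
        rw [← mul_div_assoc]
        gcongr
    _ ≤ _ := by
        rw [← mul_sum]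
        have := cake M
        linarith

/-- The negation of the preceding statement: The sum of 1/a over greedy-selected a (a0=0, a1=1, each next a coprime-shifted: gcd(n-a, n-b)=1 for all earlier b incl. 0) with 0<a<n and some prime p≤a dividing n-a tends to +∞ as n→∞. -/
theorem result :
    ¬ (Filter.Tendsto (properSum true) Filter.atTop Filter.atTop) := by
  intro h
  set C := ∑' q : ℕ, (1 : ℝ) / (q * 4 ^ (jj q)) with hC
  obtain ⟨X, hX⟩ := Filter.eventually_atTop.1 (h.eventually_ge_atTop (C + 17))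
  have hT : ∀ n, X ≤ n → 17 ≤ ∑ a ∈ AA n, (1 : ℝ) / a := by
    intro n hn
    have h1 := hX n hn
    have h2 := split n
    linarith
  have hmain : ∀ M : ℕ, X ≤ M → 1 ≤ M → Real.log M ≤ 8 + 17 * HH X := by
    intro M hM hM1
    have h1 := avg M
    have h2 : HH M = HH X + ∑ n ∈ Ioc X M, (1 : ℝ) / n := by
      unfold HH
      rw [← sum_union]
      · congr 1
        ext n; simp only [mem_union, mem_Icc, mem_Ioc]; omega
      · rw [disjoint_left]
        intro n a b
        simp only [mem_Icc, mem_Ioc] at a b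
        omega
    have h3 : 17 * ∑ n ∈ Ioc X M, (1 : ℝ) / n ≤
        ∑ n ∈ Icc 1 M, (∑ a ∈ AA n, (1 : ℝ) / a) / n := by
      calc 17 * ∑ n ∈ Ioc X M, (1 : ℝ) / n = ∑ n ∈ Ioc X M, (17 : ℝ) / n := by
            rw [mul_sum]; apply sum_congr rfl; intro n _; ring
        _ ≤ ∑ n ∈ Ioc X M, (∑ a ∈ AA n, (1 : ℝ) / a) / n := by
            apply sum_le_sum
            intro n hn
            have := hT n (mem_Ioc.1 hn).1.le
            gcongr
        _ ≤ _ := by
            apply sum_le_sum_of_subset_of_nonneg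
            · intro n hn
              rw [mem_Ioc] at hn
              rw [mem_Icc]
              omega
            · intro i _ _
              apply div_nonneg (sum_nonneg (fun i _ => by positivity)) (by positivity)
    have h4 := HH_upper (M * M)
    have hM' : (0 : ℝ) < M := by exact_mod_cast hM1
    push_cast at h4
    rw [Real.log_mul hM'.ne' hM'.ne'] at h4
    have h5 := HH_lower M
    have h6 : Real.log M ≤ Real.log (M + 1) := Real.log_le_log hM' (by linarith)
    linarith
  have hlog : Filter.Tendsto (fun M : ℕ => Real.log M) Filter.atTop Filter.atTop :=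
    Real.tendsto_log_atTop.comp tendsto_natCast_atTop_atTop
  obtain ⟨M, hM⟩ := ((hlog.eventually_gt_atTop (8 + 17 * HH X)).and
    ((Filter.eventually_ge_atTop X).and (Filter.eventually_ge_atTop 1))).exists
  have := hmain M hM.2.1 hM.2.2
  linarith [hM.1]

end Pool.Agent.S17740
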