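import Pool.Statements.S17899
import Pool.Agent.H15.EP1

set_option autoImplicit false
open Filter Topology
open Pool Pool.MP_9d1108_nt

namespace Pool.Agent.S17899

theorem result :
    ∃ F : ℕ → ℝ, Tendsto F atTop atTop ∧
      (∃ A : Set ℕ,
        Tendsto (fun N : ℕ => ((A ∩ Set.Iio N).ncard : ℝ) / (N : ℝ)) atTop (𝓝 1) ∧
        Tendsto (fun n : ℕ => F n / (Nat.totient n : ℝ)) (atTop ⊓ 𝓟 A) (𝓝 0)) ∧
      ¬ (∀ C : ℝ, Set.Infinite {x : ℕ |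
          ((Set.ncard {n : ℕ | (x : ℝ) < (n : ℝ) + (Nat.totient n : ℝ) ∧
              (n : ℝ) + (Nat.totient n : ℝ) < (x : ℝ) + F x} : ℕ) : ℝ) > C * F x}) := by
  refine ⟨Pool.Agent.H15.EP.FF, Pool.Agent.H15.EP.FF_tend,
    ⟨_, Pool.Agent.H15.EP.dens, Pool.Agent.H15.EP.FF_phi⟩, fun h => h 8 ?_⟩
  apply (Set.finite_singleton 0).subset
  intro x hx
  by_contra hh
  have h1 : 1 ≤ x := Nat.pos_of_ne_zero hh
  exact absurd (lt_of_lt_of_le hx (Pool.Agent.H15.EP.count_phi x h1)) (lt_irrefl _)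

end Pool.Agent.S17899
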