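import Pool.Statements.S18406
import Pool.Agent.H16.Discrep

set_option autoImplicit false
open Classical
open Pool Pool.MP_c36293_nt

namespace Pool.Agent.S18406

/-- The negation of the preceding statement: For every dimension d and every p ≥ 1 there is C such that for every N-point set in [0,1)^d, the p-th power periodic L_p discrepancy is at most C times the p-th power extreme L_p discrepancy. -/
theorem result :
    ¬ (∀ (d : ℕ), 1 ≤ d → ∀ (p : ℝ), 1 ≤ p → ∃ C : ℝ, 0 < C ∧
      ∀ (N : ℕ), 1 ≤ N → ∀ P : Fin N → Fin d → ℝ, (∀ i j, 0 ≤ P i j ∧ P i j < 1) →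
        (∫ x in Set.Icc (0 : Fin d → ℝ) 1, ∫ y in Set.Icc (0 : Fin d → ℝ) 1,
          |((Finset.univ.filter (fun i : Fin N => ∀ j : Fin d,
              (x j ≤ y j ∧ x j ≤ P i j ∧ P i j < y j) ∨
              (y j < x j ∧ (P i j < y j ∨ x j ≤ P i j)))).card : ℝ)
            - (N : ℝ) * ∏ j : Fin d, (if x j ≤ y j then y j - x j else 1 - x j + y j)| ^ p)
        ≤ C * ∫ x in Set.Icc (0 : Fin d → ℝ) 1, ∫ y in Set.Icc (0 : Fin d → ℝ) 1,
          (if x ≤ y then
            |((Finset.univ.filter (fun i : Fin N => ∀ j : Fin d,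
                x j ≤ P i j ∧ P i j < y j)).card : ℝ)
              - (N : ℝ) * ∏ j : Fin d, (y j - x j)| ^ p
           else 0)) := by
  intro h
  obtain ⟨C, hC, h⟩ := h 2 (by norm_num) 1 le_rfl
  obtain ⟨k, hk, hlt⟩ := Pool.Agent.H16.Disc.final_contra C hC
  have hm : 2 * k ≤ k * k := Nat.mul_le_mul_right k hk
  have hm0 : 0 < k * k := by positivity
  have h1 := h (k * k * (k * k)) (Nat.succ_le_of_lt (by positivity))
    (Pool.Agent.H16.Disc.PP (k * k) k) (Pool.Agent.H16.Disc.PP_mem _ _)
  have h2 := Pool.Agent.H16.Disc.per_lower (k * k) k hk hm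
  have h3 := Pool.Agent.H16.Disc.extr_upper (k * k) k hm0
  simp only [Real.rpow_one, Finset.natCast_card_filter] at h1
  unfold Pool.Agent.H16.Disc.perF at h2
  have h4 := mul_le_mul_of_nonneg_left h3 hC.le
  refine absurd (lt_of_lt_of_le hlt (h2.trans ?_)) (not_lt.2 h4)
  convert h1 using 9
  all_goals rfl

end Pool.Agent.S18406
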