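import Pool.Statements.S18512
import Pool.Agent.H15.WM2

set_option autoImplicit false
open Pool Pool.MP_ccba9a_nt

namespace Pool.Agent.S18512

theorem result :
    ¬ (∀ k : ℕ, 1 ≤ k → ∀ s : ℝ, 0 < s → ∀ c : ℝ, 0 < c → ∀ ε : ℝ, 0 < ε →
      ∃ C : ℝ, ∀ X : ℕ, 1 ≤ X → ∀ B : Set (Fin k → ℝ), MeasurableSet B →
        B ⊆ Set.pi Set.univ (fun _ => Set.Ico (0:ℝ) 1) →
        c * (X:ℝ) ^ (1 - (k:ℝ) * ((k:ℝ) + 1) / 4) ≤ (MeasureTheory.volume B).toReal →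
        ∫ α in B, ‖∑ x ∈ Finset.Icc 1 X,
            Complex.exp (2 * (Real.pi:ℂ) * Complex.I *
              ∑ j : Fin k, (α j : ℂ) * (x:ℂ) ^ ((j:ℕ) + 1))‖ ^ (2 * s)
          ≤ C * (X:ℝ) ^ ε * ((X:ℝ) ^ s * (MeasureTheory.volume B).toReal
              + (X:ℝ) ^ (2 * s - (k:ℝ) * ((k:ℝ) + 1) / 2))) := by
  intro h
  obtain ⟨C, hC⟩ := h 2 (by norm_num) 2 (by norm_num) 1 (by norm_num) (1 / 20) (by norm_num)
  obtain ⟨t, B, t1, m, s, v, hlt⟩ := Pool.Agent.H15.WM.counter C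
  have tp : (0 : ℝ) < t := by exact_mod_cast t1
  have e0 : ((t ^ 20 : ℕ) : ℝ) = (t : ℝ) ^ (20 : ℝ) := by
    push_cast
    exact_mod_cast rfl
  have e1 : ((t ^ 20 : ℕ) : ℝ) ^ (1 - ((2 : ℕ) : ℝ) * (((2 : ℕ) : ℝ) + 1) / 4) = 1 / (t : ℝ) ^ 10 := by
    rw [e0, ← Real.rpow_mul tp.le, one_div, ← Real.rpow_natCast, ← Real.rpow_neg tp.le]
    norm_num
  have e2 : ((t ^ 20 : ℕ) : ℝ) ^ (1 / 20 : ℝ) = t := by
    rw [e0, ← Real.rpow_mul tp.le]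
    norm_num
  have e3 : ((t ^ 20 : ℕ) : ℝ) ^ (2 : ℝ) = ((t : ℝ) ^ 20) ^ 2 := by
    push_cast
    exact_mod_cast rfl
  have e4 : ((t ^ 20 : ℕ) : ℝ) ^ (2 * (2 : ℝ) - ((2 : ℕ) : ℝ) * (((2 : ℕ) : ℝ) + 1) / 2) =
      (t : ℝ) ^ 20 := by
    norm_num
  have h1 := hC (t ^ 20) (Nat.one_le_pow _ _ t1) B m
    (by
      intro α hα
      have := (Pool.Agent.H15.WM.mem_rect _ _ _ _ α).1 (s hα)
      simp only [Set.mem_pi, Set.mem_univ, true_imp_iff, Fin.forall_fin_two, Set.mem_Ico]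
      simpa using this)
    (by rw [e1, one_mul]; exact v)
  rw [e2, e3, e4] at h1
  refine absurd (lt_of_lt_of_le hlt (le_trans (le_of_eq ?_) h1)) (lt_irrefl _)
  congr 1
  funext α
  unfold Pool.Agent.H15.WM.FF Pool.Agent.H15.WM.ws Pool.Agent.H15.WM.ee
  rw [show (2 * 2 : ℝ) = ((4 : ℕ) : ℝ) by norm_num, Real.rpow_natCast,
    ← Finset.Ico_add_one_right_eq_Icc, Finset.sum_Ico_eq_sum_range]
  simp only [Nat.add_sub_cancel, Fin.sum_univ_two]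
  congr 3
  funext n
  congr 2
  push_cast
  simp
  ring

end Pool.Agent.S18512
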