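import Pool.Statements.S18519

set_option autoImplicit false
open Pool Pool.MP_cd51d2_nt

namespace Pool.Agent.S18519

def F1 (x : ℤ) : ℤ := x ^ 8 - x ^ 7 + x ^ 5 - x ^ 4 + x ^ 3 - x + 1

lemma F1_seven (x : ℤ) : F1 x ∣ F1 (x ^ 7) :=
  ⟨x ^ 48 + x ^ 47 + x ^ 46 - x ^ 43 - x ^ 42 - 2 * x ^ 41 - x ^ 40 - x ^ 39 + x ^ 36 + x ^ 35 + x ^ 34 + x ^ 33 + x ^ 32 + x ^ 31 - x ^ 28 - x ^ 26 - x ^ 24 - x ^ 22 - x ^ 20 + x ^ 17 + x ^ 16 + x ^ 15 + x ^ 14 + x ^ 13 + x ^ 12 - x ^ 9 - x ^ 8 - 2 * x ^ 7 - x ^ 6 - x ^ 5 + x ^ 2 + x + 1, by unfold F1; ring⟩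

lemma F1_dvd (x : ℤ) : F1 x ∣ x ^ 120 - 1 := by
  have h : F1 x ∣ x ^ 15 - 1 := ⟨x ^ 7 + x ^ 6 + x ^ 5 - x ^ 2 - x - 1, by unfold F1; ring⟩
  have h2 := sub_dvd_pow_sub_pow (x ^ 15) 1 8
  rw [← pow_mul, one_pow] at h2
  exact h.trans h2

lemma F1_sub (x : ℤ) : x * (x - 1) ∣ F1 x - 1 :=
  ⟨x ^ 6 + x ^ 3 + x + 1, by unfold F1; ring⟩

lemma F1_bd (x : ℤ) (hx : 2 ≤ x) : x ≤ F1 x ∧ F1 x ≤ x ^ 9 := by
  obtain ⟨y, rfl⟩ : ∃ y, x = y + 2 := ⟨x - 2, by ring⟩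
  have hy : 0 ≤ y := by linarith
  constructor
  · rw [← sub_nonneg]; unfold F1; ring_nf; positivity
  · rw [← sub_nonneg]; unfold F1; ring_nf; positivity

lemma F1_lo (x : ℤ) (hx : 2 ≤ x) : x ^ 2 ≤ F1 x := by
  obtain ⟨y, rfl⟩ : ∃ y, x = y + 2 := ⟨x - 2, by ring⟩
  have hy : 0 ≤ y := by linarith
  rw [← sub_nonneg]; unfold F1; ring_nf; positivity

def F2 (x : ℤ) : ℤ := x ^ 8 - x ^ 4 + 1

lemma F2_seven (x : ℤ) : F2 x ∣ F2 (x ^ 7) :=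
  ⟨x ^ 48 + x ^ 44 - x ^ 36 - x ^ 32 + x ^ 24 - x ^ 16 - x ^ 12 + x ^ 4 + 1, by unfold F2; ring⟩

lemma F2_dvd (x : ℤ) : F2 x ∣ x ^ 120 - 1 := by
  have h : F2 x ∣ x ^ 24 - 1 := ⟨x ^ 16 + x ^ 12 - x ^ 4 - 1, by unfold F2; ring⟩
  have h2 := sub_dvd_pow_sub_pow (x ^ 24) 1 5
  rw [← pow_mul, one_pow] at h2
  exact h.trans h2

lemma F2_sub (x : ℤ) : x * (x - 1) ∣ F2 x - 1 :=
  ⟨x ^ 6 + x ^ 5 + x ^ 4 + x ^ 3, by unfold F2; ring⟩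

lemma F2_bd (x : ℤ) (hx : 2 ≤ x) : x ≤ F2 x ∧ F2 x ≤ x ^ 9 := by
  obtain ⟨y, rfl⟩ : ∃ y, x = y + 2 := ⟨x - 2, by ring⟩
  have hy : 0 ≤ y := by linarith
  constructor
  · rw [← sub_nonneg]; unfold F2; ring_nf; positivity
  · rw [← sub_nonneg]; unfold F2; ring_nf; positivity

lemma F2_lo (x : ℤ) (hx : 2 ≤ x) : x ^ 2 ≤ F2 x := by
  obtain ⟨y, rfl⟩ : ∃ y, x = y + 2 := ⟨x - 2, by ring⟩
  have hy : 0 ≤ y := by linarith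
  rw [← sub_nonneg]; unfold F2; ring_nf; positivity

def F3 (x : ℤ) : ℤ := x ^ 8 + x ^ 7 - x ^ 5 - x ^ 4 - x ^ 3 + x + 1

lemma F3_seven (x : ℤ) : F3 x ∣ F3 (x ^ 7) :=
  ⟨x ^ 48 - x ^ 47 + x ^ 46 + x ^ 43 - x ^ 42 + 2 * x ^ 41 - x ^ 40 + x ^ 39 + x ^ 36 - x ^ 35 + x ^ 34 - x ^ 33 + x ^ 32 - x ^ 31 - x ^ 28 - x ^ 26 - x ^ 24 - x ^ 22 - x ^ 20 - x ^ 17 + x ^ 16 - x ^ 15 + x ^ 14 - x ^ 13 + x ^ 12 + x ^ 9 - x ^ 8 + 2 * x ^ 7 - x ^ 6 + x ^ 5 + x ^ 2 - x + 1, by unfold F3; ring⟩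

lemma F3_dvd (x : ℤ) : F3 x ∣ x ^ 120 - 1 := by
  have h : F3 x ∣ x ^ 30 - 1 := ⟨x ^ 22 - x ^ 21 + x ^ 20 + x ^ 17 - x ^ 16 + x ^ 15 - x ^ 7 + x ^ 6 - x ^ 5 - x ^ 2 + x - 1, by unfold F3; ring⟩
  have h2 := sub_dvd_pow_sub_pow (x ^ 30) 1 4
  rw [← pow_mul, one_pow] at h2
  exact h.trans h2

lemma F3_sub (x : ℤ) : x * (x - 1) ∣ F3 x - 1 :=
  ⟨x ^ 6 + 2 * x ^ 5 + 2 * x ^ 4 + x ^ 3 - x - 1, by unfold F3; ring⟩

lemma F3_bd (x : ℤ) (hx : 2 ≤ x) : x ≤ F3 x ∧ F3 x ≤ x ^ 9 := by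
  obtain ⟨y, rfl⟩ : ∃ y, x = y + 2 := ⟨x - 2, by ring⟩
  have hy : 0 ≤ y := by linarith
  constructor
  · rw [← sub_nonneg]; unfold F3; ring_nf; positivity
  · rw [← sub_nonneg]; unfold F3; ring_nf; positivity

lemma F3_lo (x : ℤ) (hx : 2 ≤ x) : x ^ 2 ≤ F3 x := by
  obtain ⟨y, rfl⟩ : ∃ y, x = y + 2 := ⟨x - 2, by ring⟩
  have hy : 0 ≤ y := by linarith
  rw [← sub_nonneg]; unfold F3; ring_nf; positivity

lemma idem (a : ℤ) : (1575 : ℤ) ∣ a ^ 60 * (a ^ 60 - 1) := by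
  have h9 : ((9 : ℕ) : ℤ) ∣ a ^ 60 * (a ^ 60 - 1) := by
    rw [← ZMod.intCast_zmod_eq_zero_iff_dvd]; push_cast
    generalize (a : ZMod 9) = b; revert b; decide +kernel
  have h25 : ((25 : ℕ) : ℤ) ∣ a ^ 60 * (a ^ 60 - 1) := by
    rw [← ZMod.intCast_zmod_eq_zero_iff_dvd]; push_cast
    generalize (a : ZMod 25) = b; revert b; decide +kernel
  have h7 : ((7 : ℕ) : ℤ) ∣ a ^ 60 * (a ^ 60 - 1) := by
    rw [← ZMod.intCast_zmod_eq_zero_iff_dvd]; push_cast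
    generalize (a : ZMod 7) = b; revert b; decide +kernel
  have h1 : ((9 : ℤ) * 25) ∣ a ^ 60 * (a ^ 60 - 1) :=
    IsCoprime.mul_dvd (Int.isCoprime_iff_gcd_eq_one.2 (by norm_num)) h9 h25
  exact IsCoprime.mul_dvd (x := 9 * 25) (y := 7) (Int.isCoprime_iff_gcd_eq_one.2 (by norm_num)) h1 h7

lemma key_dvd (a : ℤ) (ha : 2 ∣ a) (s : ℕ) :
    ((120 * (420 * 2 ^ s) : ℕ) : ℤ) ∣ a ^ (420 * 2 ^ s) * (a ^ (420 * 2 ^ s) - 1) := by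
  have h1 : (1575 : ℤ) ∣ a ^ (420 * 2 ^ s) * (a ^ (420 * 2 ^ s) - 1) := by
    have e : 420 * 2 ^ s = 60 * (7 * 2 ^ s) := by ring
    rw [e, pow_mul]
    refine (idem a).trans (mul_dvd_mul (dvd_pow_self _ (by positivity)) ?_)
    simpa using sub_dvd_pow_sub_pow (a ^ 60) 1 (7 * 2 ^ s)
  have h2 : (2 : ℤ) ^ (s + 5) ∣ a ^ (420 * 2 ^ s) * (a ^ (420 * 2 ^ s) - 1) := by
    refine Dvd.dvd.mul_right ?_ _
    refine (pow_dvd_pow _ ?_).trans (pow_dvd_pow_of_dvd ha _)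
    have := Nat.lt_two_pow_self (n := s)
    omega
  have h3 : IsCoprime (1575 : ℤ) (2 ^ (s + 5)) :=
    IsCoprime.pow_right (Int.isCoprime_iff_gcd_eq_one.2 (by norm_num))
  have := IsCoprime.mul_dvd h3 h1 h2
  have e : ((120 * (420 * 2 ^ s) : ℕ) : ℤ) = 1575 * 2 ^ (s + 5) := by push_cast; ring
  rw [e]; exact this

lemma psp (F : ℤ → ℤ) (h7 : ∀ x, F x ∣ F (x ^ 7)) (hd : ∀ x, F x ∣ x ^ 120 - 1)
    (hs : ∀ x, x * (x - 1) ∣ F x - 1) (hb : ∀ x, 2 ≤ x → x ≤ F x ∧ F x ≤ x ^ 9)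
    (hl : ∀ x, 2 ≤ x → x ^ 2 ≤ F x) (a : ℕ) (ha : 2 ≤ a) (he : Even a) (s n : ℕ)
    (hn : (n : ℤ) = F ((a : ℤ) ^ (420 * 2 ^ s))) : Nat.FermatPsp n a := by
  have ha' : (2 : ℤ) ≤ a := by exact_mod_cast ha
  have hZ : (2 : ℤ) ≤ (a : ℤ) ^ (60 * 2 ^ s) := le_trans ha' (le_self_pow₀ (by linarith) (by positivity))
  have hX : (2 : ℤ) ≤ (a : ℤ) ^ (420 * 2 ^ s) := le_trans ha' (le_self_pow₀ (by linarith) (by positivity))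
  have hn2 : 2 ≤ n := by
    have := (hb _ hX).1
    have : (2 : ℤ) ≤ n := by linarith
    exact_mod_cast this
  refine ⟨?_, ?_, hn2⟩
  · have h1 : ((120 * (420 * 2 ^ s) : ℕ) : ℤ) ∣ ((n - 1 : ℕ) : ℤ) := by
      rw [Nat.cast_sub (by omega), hn]
      exact (key_dvd a (by exact_mod_cast he.two_dvd) s).trans (hs _)
    obtain ⟨k, hk⟩ := Int.natCast_dvd_natCast.1 h1
    unfold Nat.ProbablePrime
    rw [← Int.natCast_dvd_natCast, Nat.cast_sub (Nat.one_le_pow _ _ (by omega)), hk, hn]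
    refine (hd _).trans ?_
    have := sub_dvd_pow_sub_pow (((a : ℤ) ^ (420 * 2 ^ s)) ^ 120) 1 k
    rw [one_pow, ← pow_mul, ← pow_mul] at this
    rw [← pow_mul]
    push_cast
    convert this using 3; ring
  · intro hp
    set Z : ℤ := (a : ℤ) ^ (60 * 2 ^ s) with hZd
    have e : (a : ℤ) ^ (420 * 2 ^ s) = Z ^ 7 := by rw [hZd, ← pow_mul]; congr 1; ring
    rw [e] at hn hX
    obtain ⟨h1, h2⟩ := hb Z hZ
    have h3 := hl _ hX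
    obtain ⟨m, hm⟩ : ∃ m : ℕ, (m : ℤ) = F Z := ⟨(F Z).toNat, Int.toNat_of_nonneg (by linarith)⟩
    have h4 : m ∣ n := by rw [← Int.natCast_dvd_natCast, hm, hn]; exact h7 Z
    have h5 : Z ^ 9 < (Z ^ 7) ^ 2 := by
      rw [← pow_mul Z]; exact pow_lt_pow_right₀ (by linarith) (by norm_num)
    rcases (Nat.dvd_prime hp).1 h4 with h | h
    · rw [h] at hm; push_cast at hm; linarith
    · rw [h] at hm; linarith

/-- For every even natural base a ≥ 2, there are infinitely many pairs (n, d) with d > 0 such that n, n+d and n+2d are all Fermat pseudoprimes to base a. -/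
theorem result :
    ∀ a : ℕ, 2 ≤ a → Even a →
      Set.Infinite {p : ℕ × ℕ | 0 < p.2 ∧ Nat.FermatPsp p.1 a ∧
        Nat.FermatPsp (p.1 + p.2) a ∧ Nat.FermatPsp (p.1 + 2 * p.2) a} := by
  intro a ha he
  refine Set.Infinite.of_image Prod.fst (Set.infinite_of_forall_exists_gt fun s => ?_)
  have ha' : (2 : ℤ) ≤ a := by exact_mod_cast ha
  set X : ℤ := (a : ℤ) ^ (420 * 2 ^ s) with hXd
  have hX : (2 : ℤ) ≤ X := le_trans ha' (le_self_pow₀ (by linarith) (by positivity))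
  have hd : 0 < X ^ 7 - X ^ 5 - X ^ 3 + X := by
    obtain ⟨y, hy⟩ : ∃ y, X = y + 2 := ⟨X - 2, by ring⟩
    have hy0 : 0 ≤ y := by linarith
    rw [hy]; ring_nf; positivity
  obtain ⟨n, hn⟩ : ∃ n : ℕ, (n : ℤ) = F1 X :=
    ⟨(F1 X).toNat, Int.toNat_of_nonneg (by linarith [(F1_bd X hX).1])⟩
  obtain ⟨d, hdd⟩ : ∃ d : ℕ, (d : ℤ) = X ^ 7 - X ^ 5 - X ^ 3 + X :=
    ⟨_, Int.toNat_of_nonneg hd.le⟩
  refine ⟨n, ⟨(n, d), ⟨?_, ?_, ?_, ?_⟩, rfl⟩, ?_⟩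
  · have : (0 : ℤ) < d := by linarith
    exact_mod_cast this
  · exact psp F1 F1_seven F1_dvd F1_sub F1_bd F1_lo a ha he s n hn
  · refine psp F2 F2_seven F2_dvd F2_sub F2_bd F2_lo a ha he s _ ?_
    push_cast; rw [hn, hdd, ← hXd]; unfold F1 F2; ring
  · refine psp F3 F3_seven F3_dvd F3_sub F3_bd F3_lo a ha he s _ ?_
    push_cast; rw [hn, hdd, ← hXd]; unfold F1 F3; ring
  · have h1 := (F1_bd X hX).1
    have h2 : (s : ℤ) < X := by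
      have h3 : s < 2 ^ (420 * 2 ^ s) := by
        have := Nat.lt_two_pow_self (n := s)
        have := Nat.lt_two_pow_self (n := 420 * 2 ^ s)
        omega
      have h4 : 2 ^ (420 * 2 ^ s) ≤ a ^ (420 * 2 ^ s) := Nat.pow_le_pow_left ha _
      rw [hXd]; exact_mod_cast lt_of_lt_of_le h3 h4
    have : (s : ℤ) < n := by linarith
    exact_mod_cast this

end Pool.Agent.S18519
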