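import Pool.Statements.S18540
-- import your own Pool.Agent.* helpers here

set_option autoImplicit false
open Pool Pool.MP_ceb3e8_nt

namespace Pool.Agent.S18540

open Polynomial in
noncomputable def PP : ℕ → Polynomial (ZMod 2)
  | 0 => X ^ 2
  | n + 1 => X * PP n + PP n ^ 2

open Polynomial in
lemma PP_deg (n : ℕ) : (PP n).natDegree = 2 ^ (n + 1) := by
  induction n with
  | zero => simp [PP]
  | succ n ih =>
    have h1 : (X * PP n).natDegree ≤ 1 + 2 ^ (n + 1) := by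
      refine natDegree_mul_le.trans ?_
      rw [natDegree_X, ih]
    have h2 : (PP n ^ 2).natDegree = 2 ^ (n + 1 + 1) := by
      rw [natDegree_pow, ih]; ring
    have h3 : 2 ≤ 2 ^ (n + 1) := by
      have := Nat.one_le_two_pow (n := n)
      rw [pow_succ]; omega
    rw [PP, natDegree_add_eq_right_of_natDegree_lt, h2]
    rw [h2, pow_succ 2 (n + 1)]; omega

abbrev KK := RatFunc (ZMod 2)

noncomputable def xx (n : ℕ) : KK := algebraMap _ _ (PP n)

lemma xx_succ (n : ℕ) : xx (n + 1) = RatFunc.X * xx n + xx n ^ 2 := by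
  simp [xx, PP]

lemma xx_inj : Function.Injective xx := by
  intro a b h
  have h1 := congrArg Polynomial.natDegree (RatFunc.algebraMap_injective _ h)
  rw [PP_deg, PP_deg] at h1
  have := Nat.pow_right_injective (le_refl 2) h1
  omega

lemma two0 : (2 : KK) = 0 := CharTwo.two_eq_zero

noncomputable def psi0 : (Fin 2 → KK) →+ (Fin 2 → KK) where
  toFun v := ![RatFunc.X ^ 2 * v 0 + (RatFunc.X + RatFunc.X ^ 2) * v 0 ^ 2 + v 0 ^ 4,
    RatFunc.X ^ 2 * v 1 + v 1 ^ 2]
  map_zero' := by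
    funext i; fin_cases i <;> simp
  map_add' v w := by
    funext i
    fin_cases i
    · simp only [Pi.add_apply, Fin.zero_eta, Matrix.cons_val_zero]
      linear_combination ((RatFunc.X + RatFunc.X ^ 2) * v 0 * w 0 + 2 * v 0 ^ 3 * w 0 +
        3 * v 0 ^ 2 * w 0 ^ 2 + 2 * v 0 * w 0 ^ 3) * two0
    · simp only [Pi.add_apply, Fin.mk_one, Matrix.cons_val_one, Matrix.cons_val_zero]
      linear_combination (v 1 * w 1) * two0

noncomputable def psi : Module.End (ZMod 2) (Fin 2 → KK) := psi0.toZModLinearMap 2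

lemma psi_0 (v : Fin 2 → KK) :
    psi v 0 = RatFunc.X ^ 2 * v 0 + (RatFunc.X + RatFunc.X ^ 2) * v 0 ^ 2 + v 0 ^ 4 := rfl

lemma psi_1 (v : Fin 2 → KK) : psi v 1 = RatFunc.X ^ 2 * v 1 + v 1 ^ 2 := rfl

noncomputable def gam : Fin 3 → Fin 2 → KK := ![![xx 0, 0], ![xx 1, 0], ![0, xx 0 ^ 2]]

def GG : Set (Fin 2 → KK) := Set.range (fun a : Fin 3 → Polynomial (ZMod 2) =>
  ∑ k, (Polynomial.aeval psi (a k)) (gam k))

lemma GG_add {v w : Fin 2 → KK} (hv : v ∈ GG) (hw : w ∈ GG) : v + w ∈ GG := by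
  obtain ⟨a, rfl⟩ := hv
  obtain ⟨b, rfl⟩ := hw
  exact ⟨a + b, by simp [Finset.sum_add_distrib]⟩

lemma GG_psi {v : Fin 2 → KK} (hv : v ∈ GG) : psi v ∈ GG := by
  obtain ⟨a, rfl⟩ := hv
  exact ⟨fun k => Polynomial.X * a k, by simp [map_sum]⟩

lemma GG_gam (k : Fin 3) : gam k ∈ GG := by
  refine ⟨Pi.single k 1, ?_⟩
  simp only
  rw [Finset.sum_eq_single k]
  · simp
  · intro j _ hj; simp [Pi.single_eq_of_ne hj]
  · simp

lemma GG_a (n : ℕ) : ![xx n, 0] ∈ GG ∧ ![xx (n + 1), 0] ∈ GG := by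
  induction n with
  | zero => exact ⟨GG_gam 0, GG_gam 1⟩
  | succ n ih =>
    refine ⟨ih.2, ?_⟩
    convert GG_psi ih.1 using 1
    funext i
    fin_cases i
    · simp only [Fin.zero_eta, psi_0, Matrix.cons_val_zero]
      rw [xx_succ, xx_succ]
      linear_combination (RatFunc.X * xx n ^ 3) * two0
    · simp [psi_1]

lemma GG_b (n : ℕ) : ![0, xx n ^ 2] ∈ GG := by
  induction n with
  | zero => exact GG_gam 2
  | succ n ih =>
    convert GG_psi ih using 1
    funext i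
    fin_cases i
    · simp [psi_0]
    · simp only [Fin.mk_one, psi_1, Matrix.cons_val_one, Matrix.cons_val_zero]
      rw [xx_succ]
      linear_combination (RatFunc.X * xx n ^ 3) * two0

lemma fin_roots : {s : Fin 2 → KK | s 1 = s 0 ^ 2 ∧ psi s 1 = psi s 0 ^ 2}.Finite := by
  let Q : Polynomial KK := (Polynomial.C (RatFunc.X ^ 2) * Polynomial.X +
    Polynomial.C (RatFunc.X + RatFunc.X ^ 2) * Polynomial.X ^ 2 + Polynomial.X ^ 4) ^ 2 -
    (Polynomial.C (RatFunc.X ^ 2) * Polynomial.X ^ 2 + Polynomial.X ^ 4)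
  have hQ : Q ≠ 0 := by
    have : Q.natDegree = 8 := by
      simp only [Q]
      compute_degree!
    intro h
    rw [h] at this
    simp at this
  apply ((Polynomial.finite_setOfPred_isRoot hQ).image (fun z => ![z, z ^ 2])).subset
  rintro s ⟨h1, h2⟩
  refine ⟨s 0, ?_, ?_⟩
  · rw [psi_0, psi_1, h1] at h2
    simp only [Set.mem_ofPred_eq, Polynomial.IsRoot.def, Q, Polynomial.eval_sub, Polynomial.eval_add,
      Polynomial.eval_pow, Polynomial.eval_mul, Polynomial.eval_C, Polynomial.eval_X]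
    linear_combination -h2
  · funext i
    fin_cases i
    · rfl
    · exact h1.symm

/-- The negation of the preceding statement: For generic-characteristic Drinfeld modules Φ_1..Φ_g over a field K ⊇ F_p(t), a finitely generated submodule Γ of K^g, and any Zariski-closed V, V(K) ∩ Γ is a finite union of cosets, by points of Γ, of submodules of Γ. -/
theorem result :
    ¬ (∀ (p : ℕ), p.Prime →
  ∀ (K : Type) [Field K] [Algebra (ZMod p) K] (θ : K), Transcendental (ZMod p) θ →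
  ∀ (g : ℕ) (r : Fin g → ℕ) (c : Fin g → ℕ → K),
    (∀ i, 1 ≤ r i) → (∀ i, c i 0 = θ) → (∀ i, c i (r i) ≠ 0) →
  ∀ (Ψ : Module.End (ZMod p) (Fin g → K)),
    (∀ (v : Fin g → K) (i : Fin g),
      Ψ v i = ∑ j ∈ Finset.range (r i + 1), c i j * v i ^ (p ^ j)) →
  ∀ (m : ℕ) (γ : Fin m → Fin g → K) (Γ : Set (Fin g → K)),
    Γ = Set.range (fun a : Fin m → Polynomial (ZMod p) =>
          ∑ k, (Polynomial.aeval Ψ (a k)) (γ k)) →
  ∀ (S : Set (MvPolynomial (Fin g) K)),
  ∃ (n : ℕ) (δ : Fin n → Fin g → K) (H : Fin n → AddSubgroup (Fin g → K)),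
    (∀ j, δ j ∈ Γ) ∧
    (∀ j, ((H j : AddSubgroup (Fin g → K)) : Set (Fin g → K)) ⊆ Γ) ∧
    (∀ j, ∀ x ∈ H j, Ψ x ∈ H j) ∧
    {x : Fin g → K | x ∈ Γ ∧ ∀ f ∈ S, MvPolynomial.eval x f = 0} =
      ⋃ j, {y : Fin g → K | ∃ s ∈ H j, y = δ j + s}) := by
  intro h
  have tr : Transcendental (ZMod 2) ((RatFunc.X : KK) ^ 2) :=
    RatFunc.transcendental_X.pow (by norm_num)
  obtain ⟨n, δ, H, -, -, h3, h4⟩ := h 2 Nat.prime_two KK (RatFunc.X ^ 2) tr 2 ![2, 1]
    ![fun j => if j = 0 then RatFunc.X ^ 2 else if j = 1 then RatFunc.X + RatFunc.X ^ 2 else 1,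
      fun j => if j = 0 then RatFunc.X ^ 2 else 1]
    (by intro i; fin_cases i <;> simp) (by intro i; fin_cases i <;> simp)
    (by intro i; fin_cases i <;> simp) psi
    (by
      intro v i
      fin_cases i
      · simp [psi_0, Finset.sum_range_succ]
      · simp [psi_1, Finset.sum_range_succ])
    3 gam GG rfl {MvPolynomial.X 1 - MvPolynomial.X 0 ^ 2}
  have hV : ∀ j, ∀ s ∈ H j, (δ j + s) 1 = (δ j + s) 0 ^ 2 := by
    intro j s hs
    have : δ j + s ∈ ⋃ j, {y : Fin 2 → KK | ∃ s ∈ H j, y = δ j + s} :=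
      Set.mem_iUnion.mpr ⟨j, s, hs, rfl⟩
    rw [← h4] at this
    have := this.2 _ rfl
    simp only [map_sub, map_pow, MvPolynomial.eval_X] at this
    exact sub_eq_zero.mp this
  have hV2 : ∀ j, ∀ s ∈ H j, s 1 = s 0 ^ 2 := by
    intro j s hs
    have a1 := hV j s hs
    have a2 := hV j 0 (zero_mem _)
    rw [add_zero] at a2
    simp only [Pi.add_apply] at a1
    linear_combination a1 - a2 + (δ j 0 * s 0) * two0
  have hfin : (⋃ j, {y : Fin 2 → KK | ∃ s ∈ H j, y = δ j + s}).Finite := by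
    apply Set.finite_iUnion
    intro j
    apply (fin_roots.image (fun s => δ j + s)).subset
    rintro y ⟨s, hs, rfl⟩
    exact ⟨s, ⟨hV2 j s hs, hV2 j _ (h3 j s hs)⟩, rfl⟩
  rw [← h4] at hfin
  refine Set.infinite_of_injective_forall_mem (f := fun n : ℕ => ![xx n, xx n ^ 2]) ?_ ?_ hfin
  · intro a b hab
    exact xx_inj (congrFun hab 0)
  · intro n
    refine ⟨?_, ?_⟩
    · convert GG_add (GG_a n).1 (GG_b n) using 1
      funext i
      fin_cases i <;> simp
    · rintro f rfl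
      simp

end Pool.Agent.S18540
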