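import Pool.Statements.S18633
import Pool.Agent.H15.RO5

set_option autoImplicit false
open Pool Pool.MP_d790dd_nt

namespace Pool.Agent.S18633

theorem result : ∀ A : Set ℕ,
    (∃ h : ℕ, ∀ F : Finset ℕ, ∃ N : ℕ, ∀ n ≥ N, ∃ s : Multiset ℕ,
        Multiset.card s ≤ h ∧ (∀ x ∈ s, x ∈ A ∧ x ∉ F) ∧ s.sum = n) →
    ∃ t : ℕ, ∃ N : ℕ, ∀ n ≥ N, ∃ s : Finset ℕ,
        s.card ≤ t ∧ (↑s : Set ℕ) ⊆ A ∧ s.sum id = n := by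
  rintro A ⟨h, hA⟩
  have hA' : ∀ F : Finset ℕ, ∃ k N : ℕ, ∀ n ≥ N,
      ∃ s : Multiset ℕ, (∀ x ∈ s, x ∈ A ∧ x ∉ F) ∧ Multiset.card s ≤ k ∧ s.sum = n := by
    intro F
    obtain ⟨N, hN⟩ := hA F
    refine ⟨h, N, fun n hn => ?_⟩
    obtain ⟨s, s1, s2, s3⟩ := hN n hn
    exact ⟨s, s2, s1, s3⟩
  obtain ⟨N0, h0⟩ := hA ∅
  obtain ⟨t, ht⟩ := Pool.Agent.H15.RO.main h
  obtain ⟨N1, h1⟩ := ht A N0 (fun n hn => by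
    obtain ⟨s, s1, s2, s3⟩ := h0 n hn
    exact ⟨s, s1, fun x hx => (s2 x hx).1, s3⟩)
    (Pool.Agent.H15.RO.residues_of_robust A hA')
  refine ⟨t, N1, fun n hn => ?_⟩
  obtain ⟨S, a, b, c⟩ := h1 n hn
  exact ⟨S, b, a, c⟩

end Pool.Agent.S18633
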