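import Pool.Statements.S18664

set_option autoImplicit false
open Pool Pool.MP_daf011_nt

namespace Pool.Agent.S18664

open Polynomial in
noncomputable def Pm (m : ℕ) : ℤ[X] := (X - C 1) * (C 2 * X + C 1) ^ m - C 1

open Polynomial in
lemma lin_natDegree : (C 2 * X + C 1 : ℤ[X]).natDegree = 1 :=
  natDegree_linear (by norm_num)

open Polynomial in
lemma lin_lead : (C 2 * X + C 1 : ℤ[X]).leadingCoeff = 2 :=
  leadingCoeff_linear (by norm_num)

open Polynomial in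
lemma main_natDegree (m : ℕ) :
    ((X - C 1) * (C 2 * X + C 1) ^ m : ℤ[X]).natDegree = m + 1 := by
  have h1 : (C 2 * X + C 1 : ℤ[X]) ≠ 0 := by
    intro h
    have := lin_natDegree
    rw [h] at this
    simp at this
  rw [natDegree_mul (X_sub_C_ne_zero 1) (pow_ne_zero _ h1), natDegree_X_sub_C, natDegree_pow,
    lin_natDegree]
  ring

open Polynomial in
lemma Pm_natDegree (m : ℕ) : (Pm m).natDegree = m + 1 := by
  unfold Pm
  rw [natDegree_sub_C, main_natDegree]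

open Polynomial in
lemma Pm_lead (m : ℕ) : (Pm m).leadingCoeff = 2 ^ m := by
  unfold Pm
  rw [leadingCoeff_sub_of_degree_lt]
  · rw [leadingCoeff_mul, leadingCoeff_X_sub_C, leadingCoeff_pow, lin_lead, one_mul]
  · apply lt_of_le_of_lt degree_C_le
    apply natDegree_pos_iff_degree_pos.mp
    rw [main_natDegree]
    omega

open Polynomial in
lemma Pm_eval (m : ℕ) (z : ℂ) : aeval z (Pm m) = (z - 1) * (2 * z + 1) ^ m - 1 := by
  unfold Pm
  simp [map_ofNat]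

lemma exists_root (m : ℕ) (hm : 1 ≤ m) :
    ∃ z : ℂ, Polynomial.aeval z (Pm m) = 0 ∧ 1 < ‖z‖ := by
  have hc : ContinuousOn (fun x : ℝ => (x - 1) * (2 * x + 1) ^ m - 1) (Set.Icc 1 2) := by
    fun_prop
  have h5 : (1 : ℝ) < 5 ^ m := one_lt_pow₀ (by norm_num) (by omega)
  have hmem : (0 : ℝ) ∈ Set.Ioo ((fun x : ℝ => (x - 1) * (2 * x + 1) ^ m - 1) 1)
      ((fun x : ℝ => (x - 1) * (2 * x + 1) ^ m - 1) 2) := by
    constructor
    · norm_num
    · norm_num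
      exact h5
  obtain ⟨x, hx, hx0⟩ := intermediate_value_Ioo (by norm_num : (1 : ℝ) ≤ 2) hc hmem
  refine ⟨(x : ℂ), ?_, ?_⟩
  · rw [Pm_eval]
    have : (((x - 1) * (2 * x + 1) ^ m - 1 : ℝ) : ℂ) = 0 := by
      simp only at hx0
      rw [hx0]; simp
    push_cast at this
    exact this
  · rw [Complex.norm_real, Real.norm_eq_abs, abs_of_pos (by linarith [hx.1])]
    exact hx.1

lemma root_bound (m : ℕ) (z : ℂ) (hz : Polynomial.aeval z (Pm m) = 0) :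
    ‖z‖ ≤ 1 + (2 / 5 : ℝ) ^ m := by
  rw [Pm_eval] at hz
  have h1 : ‖z - 1‖ * ‖2 * z + 1‖ ^ m = 1 := by
    rw [← norm_pow, ← norm_mul, sub_eq_zero.mp hz, norm_one]
  by_contra hlt
  push Not at hlt
  have hpos : (0 : ℝ) < (2 / 5 : ℝ) ^ m := by positivity
  have hz1 : 1 < ‖z‖ := by linarith
  have hsq : 1 < z.re ^ 2 + z.im ^ 2 := by
    have : ‖z‖ ^ 2 = z.re ^ 2 + z.im ^ 2 := by
      rw [Complex.sq_norm, Complex.normSq_apply]; ring
    nlinarith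
  by_cases hre : 1 / 2 ≤ z.re
  · have h2 : (5 / 2 : ℝ) ≤ ‖2 * z + 1‖ := by
      apply le_of_sq_le_sq _ (norm_nonneg _) |>.trans le_rfl
      rw [Complex.sq_norm, Complex.normSq_apply]
      simp
      nlinarith
    have h3 : (5 / 2 : ℝ) ^ m ≤ ‖2 * z + 1‖ ^ m := pow_le_pow_left₀ (by norm_num) h2 m
    have h4 : ‖z‖ - 1 ≤ ‖z - 1‖ := by
      have := norm_sub_norm_le z 1
      simpa using this
    have h5 : (2 / 5 : ℝ) ^ m * (5 / 2 : ℝ) ^ m = 1 := by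
      rw [← mul_pow]; norm_num
    have h6 : (0 : ℝ) < (5 / 2 : ℝ) ^ m := by positivity
    have h7 : (2 / 5 : ℝ) ^ m < ‖z - 1‖ := by linarith
    have h8 : (2 / 5 : ℝ) ^ m * (5 / 2 : ℝ) ^ m < ‖z - 1‖ * ‖2 * z + 1‖ ^ m := by
      calc (2 / 5 : ℝ) ^ m * (5 / 2 : ℝ) ^ m < ‖z - 1‖ * (5 / 2 : ℝ) ^ m :=
            mul_lt_mul_of_pos_right h7 h6
        _ ≤ ‖z - 1‖ * ‖2 * z + 1‖ ^ m := mul_le_mul_of_nonneg_left h3 (norm_nonneg _)
    linarith
  · push Not at hre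
    have h2 : 1 < ‖z - 1‖ := by
      apply lt_of_pow_lt_pow_left₀ 2 (norm_nonneg _)
      rw [Complex.sq_norm, Complex.normSq_apply]
      simp
      nlinarith
    have h3 : 1 ≤ ‖2 * z + 1‖ := by
      have := norm_sub_norm_le (2 * z) (-1)
      simp only [norm_mul, norm_neg, norm_one, sub_neg_eq_add, Complex.norm_ofNat] at this
      linarith
    have h4 : 1 ≤ ‖2 * z + 1‖ ^ m := one_le_pow₀ h3
    nlinarith

lemma exists_m (c : ℝ) (hc : 0 < c) :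
    ∃ m : ℕ, 1 ≤ m ∧ ((m : ℝ) + 1) * (4 / 5 : ℝ) ^ m ≤ c := by
  have h1 := tendsto_self_mul_const_pow_of_lt_one (r := (4 / 5 : ℝ)) (by norm_num) (by norm_num)
  have h2 := tendsto_pow_atTop_nhds_zero_of_lt_one (r := (4 / 5 : ℝ)) (by norm_num) (by norm_num)
  have h3 := h1.add h2
  rw [add_zero] at h3
  have h4 := (h3.eventually (ge_mem_nhds hc)).and (Filter.eventually_ge_atTop 1)
  obtain ⟨m, hm1, hm2⟩ := h4.exists
  refine ⟨m, hm2, ?_⟩
  linarith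

theorem result :
    ¬ (∃ c : ℝ, 0 < c ∧
      ∀ P : Polynomial ℤ, 0 < P.natDegree →
        (∃ z : ℂ, Polynomial.aeval z P = 0 ∧ 1 < ‖z‖) →
        ∃ z : ℂ, Polynomial.aeval z P = 0 ∧
          1 + c / (|((P.leadingCoeff : ℤ) : ℝ)| * (P.natDegree : ℝ)) < ‖z‖) := by
  rintro ⟨c, hc, h⟩
  obtain ⟨m, hm1, hm⟩ := exists_m c hc
  obtain ⟨z, hz, hlt⟩ := h (Pm m) (by rw [Pm_natDegree]; omega) (exists_root m hm1)
  have hb := root_bound m z hz
  rw [Pm_natDegree, Pm_lead] at hlt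
  push_cast at hlt
  rw [abs_of_pos (by positivity)] at hlt
  have h1 : (2 / 5 : ℝ) ^ m ≤ c / (2 ^ m * ((m : ℝ) + 1)) := by
    rw [le_div_iff₀ (by positivity)]
    have : (2 / 5 : ℝ) ^ m * 2 ^ m = (4 / 5 : ℝ) ^ m := by
      rw [← mul_pow]; norm_num
    calc (2 / 5 : ℝ) ^ m * (2 ^ m * ((m : ℝ) + 1))
        = ((m : ℝ) + 1) * ((2 / 5 : ℝ) ^ m * 2 ^ m) := by ring
      _ ≤ c := by rw [this]; exact hm
  linarith

end Pool.Agent.S18664
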