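import Pool.Statements.S18806

set_option autoImplicit false
open Pool Pool.MP_e664f7_nt

namespace Pool.Agent.S18806

open Finset

/-- smooth numbers in [1, M] -/
def S (M : ℕ) : Finset ℕ := Nat.smoothNumbersUpTo M 512

lemma mem_S {M s : ℕ} : s ∈ S M ↔ s ≤ M ∧ s ∈ Nat.smoothNumbers 512 :=
  Nat.mem_smoothNumbersUpTo

def isP (p : ℕ) : Bool := decide (2 ≤ p) && (List.range p).all (fun m => decide (m < 2) || p % m != 0)

lemma isP_iff (p : ℕ) : isP p = true ↔ p.Prime := by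
  rw [Nat.prime_def_lt']
  simp only [isP, Bool.and_eq_true, decide_eq_true_eq, List.all_eq_true, List.mem_range,
    Bool.or_eq_true, bne_iff_ne, ne_eq]
  constructor
  · rintro ⟨h1, h2⟩
    refine ⟨h1, fun m hm hmp hd => ?_⟩
    rcases h2 m hmp with h | h
    · omega
    · exact h (Nat.mod_eq_zero_of_dvd hd)
  · rintro ⟨h1, h2⟩
    refine ⟨h1, fun m hm => ?_⟩
    by_cases h : m < 2
    · exact Or.inl h
    · exact Or.inr fun h' => h2 m (by omega) hm (Nat.dvd_of_mod_eq_zero h')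

lemma numeric0 : 36 * (((List.range 512).filter isP).map (fun p => p)).prod ≤
    511 * (((List.range 512).filter isP).map (fun p => p - 1)).prod := by
  decide +kernel

lemma prod_eq (f : ℕ → ℕ) :
    ∏ p ∈ Nat.primesBelow 512, f p = (((List.range 512).filter isP).map f).prod := by
  rw [← List.prod_toFinset f ((List.nodup_range).filter _)]
  apply Finset.prod_congr _ (fun _ _ => rfl)
  ext p
  simp [Nat.mem_primesBelow, isP_iff]

lemma numeric : 36 * ∏ p ∈ Nat.primesBelow 512, p ≤ 511 * ∏ p ∈ Nat.primesBelow 512, (p - 1) := by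
  rw [prod_eq, prod_eq]
  exact numeric0

lemma exists_Q_aux (P : Finset ℕ) (hP : ∀ p, p ∈ P ↔ p < 512 ∧ p.Prime)
    (hnum : 36 * ∏ p ∈ P, p ≤ 511 * ∏ p ∈ P, (p - 1)) :
    ∃ Q : ℕ, 2 ≤ Q ∧ (∀ p, p.Prime → p < 512 → p ∣ Q) ∧ 36 * Q ≤ 511 * Nat.totient Q := by
  have hpos : 0 < ∏ p ∈ P, p := Finset.prod_pos fun p hp => ((hP p).mp hp).2.pos
  have hdvd : ∀ p, p.Prime → p < 512 → p ∣ ∏ p ∈ P, p := fun p hp h =>
    Finset.dvd_prod_of_mem _ ((hP p).mpr ⟨h, hp⟩)
  refine ⟨∏ p ∈ P, p, Nat.le_of_dvd hpos (hdvd 2 Nat.prime_two (by norm_num)), hdvd, ?_⟩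
  have h1 : (∏ p ∈ P, p).primeFactors = P :=
    Nat.primeFactors_prod fun p hp => ((hP p).mp hp).2
  have h2 := Nat.totient_mul_prod_primeFactors (∏ p ∈ P, p)
  rw [h1, mul_comm] at h2
  rw [Nat.eq_of_mul_eq_mul_left hpos h2]
  exact hnum

lemma exists_Q :
    ∃ Q : ℕ, 2 ≤ Q ∧ (∀ p, p.Prime → p < 512 → p ∣ Q) ∧ 36 * Q ≤ 511 * Nat.totient Q :=
  exists_Q_aux (Nat.primesBelow 512) (fun _ => Nat.mem_primesBelow) numeric

lemma exists_div (N : ℕ) (hN : 1 ≤ N) : ∀ s : ℕ, s ∈ Nat.smoothNumbers 512 → N < 512 * s →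
    ∃ a, a ∣ s ∧ a ∈ Nat.smoothNumbers 512 ∧ a ≤ N ∧ N < 512 * a := by
  intro s
  induction s using Nat.strong_induction_on with
  | _ s ih =>
    intro hs hlt
    by_cases h : s ≤ N
    · exact ⟨s, dvd_rfl, hs, h, hlt⟩
    · push Not at h
      have hp : (s.minFac).Prime := Nat.minFac_prime (by omega)
      obtain ⟨t, ht⟩ := Nat.minFac_dvd s
      have hp2 : s.minFac < 512 := Nat.mem_smoothNumbers'.mp hs _ hp (Nat.minFac_dvd s)
      have htd : t ∣ s := Dvd.intro_left _ ht.symm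
      have ht0 : 0 < t := Nat.pos_of_dvd_of_pos htd (by omega)
      have h2 := hp.two_le
      have htlt : t < s := by nlinarith
      have hts : t ∈ Nat.smoothNumbers 512 := Nat.mem_smoothNumbers_of_dvd hs htd
      obtain ⟨a, ha, h'⟩ := ih t htlt hts (by nlinarith)
      exact ⟨a, ha.trans htd, h'⟩

def A (N : ℕ) : Finset ℕ := (S N).filter (fun s => N < 512 * s)

lemma mem_A {N s : ℕ} : s ∈ A N ↔ s ≤ N ∧ s ∈ Nat.smoothNumbers 512 ∧ N < 512 * s := by
  unfold A
  rw [mem_filter, mem_S, and_assoc]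

lemma upper (N : ℕ) :
    ((Icc 1 N).filter (fun m => ∃ a ∈ A N, a ∣ m)).card ≤ (A N).card := by
  apply card_le_card
  intro m hm
  rw [mem_filter, mem_Icc] at hm
  obtain ⟨⟨h1, h2⟩, a, ha, t, rfl⟩ := hm
  rw [mem_A] at ha ⊢
  obtain ⟨ha1, ha2, ha3⟩ := ha
  have ha0 : 0 < a := Nat.pos_of_ne_zero ha2.1
  have ht0 : 0 < t := Nat.pos_of_mul_pos_left h1
  have ht : t < 512 := by
    by_contra h
    push Not at h
    nlinarith
  refine ⟨h2, Nat.mul_mem_smoothNumbers ha2 (Nat.mem_smoothNumbers_of_lt ht0 ht), ?_⟩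
  nlinarith

lemma card_coprime (Q L : ℕ) :
    ((Ico 1 (1 + Q * L)).filter (fun r => Nat.Coprime Q r)).card = L * Nat.totient Q := by
  induction L with
  | zero => simp
  | succ L ih =>
    have h : Ico 1 (1 + Q * (L + 1)) = Ico 1 (1 + Q * L) ∪ Ico (1 + Q * L) (1 + Q * L + Q) := by
      rw [Ico_union_Ico_eq_Ico (by omega) (by omega)]
      congr 1
      ring
    rw [h, filter_union, card_union_of_disjoint, ih, Nat.filter_coprime_Ico_eq_totient]
    · ring
    · exact disjoint_filter_filter (Ico_disjoint_Ico_consecutive _ _ _)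

lemma coprime_of {Q : ℕ} (hQ : ∀ p, p.Prime → p < 512 → p ∣ Q) (s r : ℕ) (hs : s ∈ Nat.smoothNumbers 512) (hr : Nat.Coprime Q r) :
    Nat.Coprime s r := by
  apply Nat.coprime_of_dvd
  intro p hp hps hpr
  have h1 : p < 512 := Nat.mem_smoothNumbers'.mp hs p hp hps
  have h2 : p ∣ Q := hQ p hp h1
  have := Nat.dvd_gcd h2 hpr
  rw [hr] at this
  exact hp.one_lt.ne' (Nat.dvd_one.mp this)

lemma lower {Q : ℕ} (hQ : ∀ p, p.Prime → p < 512 → p ∣ Q) (M N : ℕ) (hN : 1 ≤ N) :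
    ∑ s ∈ (S M).filter (fun s => N < 512 * s), (M.factorial / s) * Nat.totient Q ≤
      ((Icc 1 (Q * M.factorial)).filter (fun m => ∃ a ∈ A N, a ∣ m)).card := by
  have h1 : ∑ s ∈ (S M).filter (fun s => N < 512 * s), (M.factorial / s) * Nat.totient Q
      = (((S M).filter (fun s => N < 512 * s)).sigma
          (fun s => (Ico 1 (1 + Q * (M.factorial / s))).filter (fun r => Nat.Coprime Q r))).card := by
    rw [card_sigma]
    exact sum_congr rfl fun s _ => (card_coprime _ _).symm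
  rw [h1]
  apply card_le_card_of_injOn (fun x => x.1 * x.2)
  · rintro ⟨s, r⟩ hx
    simp only [coe_sigma, Set.mem_sigma_iff, mem_coe, mem_filter, mem_S, mem_Ico] at hx
    obtain ⟨⟨⟨hs1, hs2⟩, hs3⟩, ⟨hr1, hr2⟩, hr3⟩ := hx
    have hs0 : 0 < s := Nat.pos_of_ne_zero hs2.1
    simp only [coe_filter, mem_Icc, Set.mem_ofPred_eq]
    refine ⟨⟨Nat.mul_pos hs0 hr1, ?_⟩, ?_⟩
    · have h2 : s * (M.factorial / s) ≤ M.factorial := Nat.mul_div_le _ _
      have h3 : r ≤ Q * (M.factorial / s) := by omega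
      calc s * r ≤ s * (Q * (M.factorial / s)) := Nat.mul_le_mul_left _ h3
        _ = Q * (s * (M.factorial / s)) := by ring
        _ ≤ Q * M.factorial := Nat.mul_le_mul_left _ h2
    · obtain ⟨a, ha1, ha2, ha3, ha4⟩ := exists_div N hN s hs2 hs3
      exact ⟨a, mem_A.mpr ⟨ha3, ha2, ha4⟩, ha1.trans (Dvd.intro _ rfl)⟩
  · rintro ⟨s, r⟩ hx ⟨s', r'⟩ hx' heq
    simp only [coe_sigma, Set.mem_sigma_iff, mem_coe, mem_filter, mem_S, mem_Ico] at hx hx'
    obtain ⟨⟨⟨hs1, hs2⟩, hs3⟩, ⟨hr1, hr2⟩, hr3⟩ := hx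
    obtain ⟨⟨⟨hs1', hs2'⟩, hs3'⟩, ⟨hr1', hr2'⟩, hr3'⟩ := hx'
    simp only at heq
    have e1 : s ∣ s' := (coprime_of hQ s r' hs2 hr3').dvd_of_dvd_mul_right (heq ▸ Dvd.intro _ rfl)
    have e2 : s' ∣ s := (coprime_of hQ s' r hs2' hr3).dvd_of_dvd_mul_right (heq ▸ Dvd.intro _ rfl)
    have e3 : s = s' := Nat.dvd_antisymm e1 e2
    subst e3
    have hs0 : 0 < s := Nat.pos_of_ne_zero hs2.1
    have e4 : r = r' := Nat.eq_of_mul_eq_mul_left hs0 heq
    subst e4
    rfl

lemma harm (s : ℕ) (hs : 0 < s) (k : ℕ) :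
    ∑ N ∈ Ico s (2 ^ k * s), (1 : ℝ) / N ≤ k := by
  induction k with
  | zero => simp
  | succ k ih =>
    have h0 : 0 < 2 ^ k * s := by positivity
    have h1 : s ≤ 2 ^ k * s := Nat.le_mul_of_pos_left _ (by positivity)
    have h2 : 2 ^ k * s ≤ 2 ^ (k + 1) * s := by
      rw [pow_succ]; nlinarith
    rw [← sum_Ico_consecutive _ h1 h2]
    have h3 : ∑ N ∈ Ico (2 ^ k * s) (2 ^ (k + 1) * s), (1 : ℝ) / N ≤ 1 := by
      have h4 : ∑ N ∈ Ico (2 ^ k * s) (2 ^ (k + 1) * s), (1 : ℝ) / N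
          ≤ (Ico (2 ^ k * s) (2 ^ (k + 1) * s)).card • ((1 : ℝ) / ((2 ^ k * s : ℕ) : ℝ)) := by
        apply sum_le_card_nsmul
        intro N hN
        rw [mem_Ico] at hN
        apply one_div_le_one_div_of_le
        · exact_mod_cast h0
        · exact_mod_cast hN.1
      have h5 : (Ico (2 ^ k * s) (2 ^ (k + 1) * s)).card = 2 ^ k * s := by
        rw [Nat.card_Ico, pow_succ]
        have : 2 ^ k * 2 * s = 2 ^ k * s + 2 ^ k * s := by ring
        omega
      rw [h5, nsmul_eq_mul, mul_one_div_cancel (by exact_mod_cast h0.ne')] at h4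
      exact h4
    push_cast
    linarith

lemma step_one (h : ∀ n : ℕ, ∀ A : Finset ℕ, A.Nonempty → (∀ a ∈ A, 0 < a ∧ a ≤ n) →
      ∀ x : ℕ, n < x →
        ((((Finset.Icc 1 x).filter (fun m => ∃ a ∈ A, a ∣ m)).card : ℝ) / (x : ℝ)) <
          2 * ((((Finset.Icc 1 n).filter (fun m => ∃ a ∈ A, a ∣ m)).card : ℝ) / (n : ℝ)))
    (M N : ℕ) (hN : 1 ≤ N) (hNM : N ≤ M) :
    (36 / 511 : ℝ) * ∑ s ∈ (S M).filter (fun s => N < 512 * s), (1 : ℝ) / s ≤
      2 * (((A N).card : ℝ) / N) := by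
  have hne : (A N).Nonempty := by
    have h2 : 2 ^ N ∈ Nat.smoothNumbers 512 := by
      rw [Nat.mem_smoothNumbers']
      intro p hp hd
      have := (Nat.prime_dvd_prime_iff_eq hp Nat.prime_two).mp (hp.dvd_of_dvd_pow hd)
      omega
    have h3 : N < 2 ^ N := Nat.lt_two_pow_self
    obtain ⟨a, _, ha2, ha3, ha4⟩ := exists_div N hN _ h2 (by omega)
    exact ⟨a, mem_A.mpr ⟨ha3, ha2, ha4⟩⟩
  have hf : M ≤ M.factorial := Nat.self_le_factorial M
  obtain ⟨Q, hQ, hQd, totient_Q⟩ := exists_Q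
  have hx : N < Q * M.factorial := by nlinarith
  have h1 := h N (A N) hne (fun a ha => by
    rw [mem_A] at ha
    exact ⟨Nat.pos_of_ne_zero ha.2.1.1, ha.1⟩) (Q * M.factorial) hx
  have h2 : (((Icc 1 N).filter (fun m => ∃ a ∈ A N, a ∣ m)).card : ℝ) ≤ (A N).card := by
    exact_mod_cast upper N
  have hN0 : (0 : ℝ) < N := by exact_mod_cast hN
  have h3 : (((Icc 1 N).filter (fun m => ∃ a ∈ A N, a ∣ m)).card : ℝ) / N ≤ (A N).card / N :=
    div_le_div_of_nonneg_right h2 hN0.le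
  have h4 : ((∑ s ∈ (S M).filter (fun s => N < 512 * s), (M.factorial / s) * Nat.totient Q : ℕ) : ℝ)
      ≤ (((Icc 1 (Q * M.factorial)).filter (fun m => ∃ a ∈ A N, a ∣ m)).card : ℝ) := by
    exact_mod_cast lower hQd M N hN
  have hx0 : (0 : ℝ) < ((Q * M.factorial : ℕ) : ℝ) := by
    exact_mod_cast lt_of_le_of_lt (Nat.zero_le _) hx
  have h5 : (36 / 511 : ℝ) * ∑ s ∈ (S M).filter (fun s => N < 512 * s), (1 : ℝ) / s ≤
      ((∑ s ∈ (S M).filter (fun s => N < 512 * s), (M.factorial / s) * Nat.totient Q : ℕ) : ℝ)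
        / ((Q * M.factorial : ℕ) : ℝ) := by
    rw [le_div_iff₀ hx0, mul_sum, sum_mul, Nat.cast_sum]
    apply sum_le_sum
    intro s hs
    rw [mem_filter, mem_S] at hs
    have hs0 : 0 < s := Nat.pos_of_ne_zero hs.1.2.1
    have hd : s ∣ M.factorial := Nat.dvd_factorial hs0 hs.1.1
    have hs0' : (s : ℝ) ≠ 0 := by exact_mod_cast hs0.ne'
    rw [Nat.cast_mul, Nat.cast_mul, Nat.cast_div hd hs0']
    have ht : (36 : ℝ) * Q ≤ 511 * Nat.totient Q := by exact_mod_cast totient_Q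
    have hF : (0 : ℝ) ≤ (M.factorial : ℝ) / s := by positivity
    calc (36 / 511 : ℝ) * (1 / s) * (Q * M.factorial)
        = (M.factorial / s) * ((36 * Q) / 511) := by ring
      _ ≤ (M.factorial / s) * Nat.totient Q := by
          apply mul_le_mul_of_nonneg_left _ hF
          linarith
  have h6 := div_le_div_of_nonneg_right h4 hx0.le
  linarith

lemma sum_lhs (K : ℕ) :
    (511 : ℝ) * (S K).card ≤
      ∑ N ∈ Icc 1 (512 * K), ∑ s ∈ (S (512 * K)).filter (fun s => N < 512 * s), (1 : ℝ) / s := by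
  have h1 : ∑ N ∈ Icc 1 (512 * K), ∑ s ∈ (S (512 * K)).filter (fun s => N < 512 * s), (1 : ℝ) / s
      = ∑ s ∈ S (512 * K), ∑ N ∈ (Icc 1 (512 * K)).filter (fun N => N < 512 * s), (1 : ℝ) / s := by
    simp only [sum_filter]
    rw [sum_comm]
  rw [h1]
  have hsub : S K ⊆ S (512 * K) := by
    intro s hs
    rw [mem_S] at hs ⊢
    exact ⟨by omega, hs.2⟩
  calc (511 : ℝ) * (S K).card = ∑ _s ∈ S K, (511 : ℝ) := by
        rw [sum_const, nsmul_eq_mul, mul_comm]
    _ ≤ ∑ s ∈ S K, ∑ N ∈ (Icc 1 (512 * K)).filter (fun N => N < 512 * s), (1 : ℝ) / s := by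
        apply sum_le_sum
        intro s hs
        rw [mem_S] at hs
        have hs0 : 0 < s := Nat.pos_of_ne_zero hs.2.1
        have e : (Icc 1 (512 * K)).filter (fun N => N < 512 * s) = Ico 1 (512 * s) := by
          ext N
          simp only [mem_filter, mem_Icc, mem_Ico]
          omega
        rw [e, sum_const, Nat.card_Ico, nsmul_eq_mul]
        have hs0' : (0 : ℝ) < s := by exact_mod_cast hs0
        rw [mul_one_div, le_div_iff₀ hs0']
        have : 511 * s ≤ 512 * s - 1 := by omega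
        exact_mod_cast this
    _ ≤ _ := by
        apply sum_le_sum_of_subset_of_nonneg hsub
        intro s _ _
        apply sum_nonneg
        intro N _
        positivity

lemma sum_rhs (M : ℕ) :
    ∑ N ∈ Icc 1 M, ((A N).card : ℝ) / N ≤ 9 * (S M).card := by
  have h1 : ∀ N ∈ Icc 1 M, ((A N).card : ℝ) / N
      = ∑ s ∈ (S M).filter (fun s => s ≤ N ∧ N < 512 * s), (1 : ℝ) / N := by
    intro N hN
    rw [mem_Icc] at hN
    have e : (S M).filter (fun s => s ≤ N ∧ N < 512 * s) = A N := by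
      ext s
      rw [mem_filter, mem_S, mem_A]
      constructor
      · rintro ⟨⟨_, b⟩, c, d⟩
        exact ⟨c, b, d⟩
      · rintro ⟨a, b, c⟩
        exact ⟨⟨by omega, b⟩, a, c⟩
    rw [e, sum_const, nsmul_eq_mul, mul_one_div]
  rw [sum_congr rfl h1]
  have h2 : ∑ N ∈ Icc 1 M, ∑ s ∈ (S M).filter (fun s => s ≤ N ∧ N < 512 * s), (1 : ℝ) / N
      = ∑ s ∈ S M, ∑ N ∈ (Icc 1 M).filter (fun N => s ≤ N ∧ N < 512 * s), (1 : ℝ) / N := by
    simp only [sum_filter]
    rw [sum_comm]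
  rw [h2]
  calc _ ≤ ∑ _s ∈ S M, (9 : ℝ) := by
        apply sum_le_sum
        intro s hs
        rw [mem_S] at hs
        have hs0 : 0 < s := Nat.pos_of_ne_zero hs.2.1
        have h3 := harm s hs0 9
        norm_num only [Nat.cast_ofNat] at h3
        refine le_trans ?_ h3
        apply sum_le_sum_of_subset_of_nonneg
        · intro N hN
          rw [mem_filter] at hN
          rw [mem_Ico]
          exact hN.2
        · intro N _ _
          positivity
    _ = _ := by rw [sum_const, nsmul_eq_mul, mul_comm]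

lemma card_S_le (L : ℕ) : (S (2 ^ L)).card ≤ (L + 1) ^ 512 := by
  have h1 : (Fintype.piFinset (fun _ : Fin 512 => range (L + 1))).card = (L + 1) ^ 512 := by
    rw [Fintype.card_piFinset]
    simp
  rw [← h1]
  apply card_le_card_of_injOn (fun s => fun i : Fin 512 => s.factorization i)
  · intro s hs
    rw [mem_coe, mem_S] at hs
    rw [mem_coe, Fintype.mem_piFinset]
    intro i
    rw [mem_range]
    show s.factorization i < L + 1
    by_cases hp : (i : ℕ).Prime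
    · have h2 : (i : ℕ) ^ s.factorization i ≤ s := Nat.ordProj_le _ hs.2.1
      have h3 : 2 ^ s.factorization i ≤ (i : ℕ) ^ s.factorization i :=
        Nat.pow_le_pow_left hp.two_le _
      have h4 : 2 ^ s.factorization i ≤ 2 ^ L := h3.trans (h2.trans hs.1)
      have := (Nat.pow_le_pow_iff_right (by norm_num)).mp h4
      omega
    · rw [Nat.factorization_eq_zero_of_not_prime _ hp]
      omega
  · intro s hs t ht heq
    rw [mem_coe, mem_S] at hs ht
    apply Nat.eq_of_factorization_eq hs.2.1 ht.2.1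
    intro p
    by_cases hp : p < 512
    · exact congrFun heq ⟨p, hp⟩
    · have z : ∀ u ∈ Nat.smoothNumbers 512, u.factorization p = 0 := by
        intro u hu
        by_cases hpp : p.Prime
        · apply Nat.factorization_eq_zero_of_not_dvd
          intro hd
          exact hp (Nat.mem_smoothNumbers'.mp hu p hpp hd)
        · exact Nat.factorization_eq_zero_of_not_prime _ hpp
      rw [z s hs.2, z t ht.2]

lemma final : ¬ ∀ j : ℕ, 2 ^ j ≤ (9 * j + 1) ^ 512 := by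
  intro h
  have h1 := h 16384
  have h2 : (9 * 16384 + 1) ^ 512 < (2 ^ 18) ^ 512 :=
    Nat.pow_lt_pow_left (by norm_num) (by norm_num)
  rw [← pow_mul] at h2
  have h3 : 2 ^ (18 * 512) ≤ 2 ^ 16384 := Nat.pow_le_pow_right (by norm_num) (by norm_num)
  exact absurd (h1.trans_lt (h2.trans_le h3)) (lt_irrefl _)

theorem result :
    ¬ (∀ n : ℕ, ∀ A : Finset ℕ, A.Nonempty → (∀ a ∈ A, 0 < a ∧ a ≤ n) →
      ∀ x : ℕ, n < x →
        ((((Finset.Icc 1 x).filter (fun m => ∃ a ∈ A, a ∣ m)).card : ℝ) / (x : ℝ)) <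
          2 * ((((Finset.Icc 1 n).filter (fun m => ∃ a ∈ A, a ∣ m)).card : ℝ) / (n : ℝ))) := by
  intro h
  have dbl : ∀ K : ℕ, 2 * (S K).card ≤ (S (512 * K)).card := by
    intro K
    have h1 := sum_lhs K
    have h2 := sum_rhs (512 * K)
    have h3 : ∑ N ∈ Icc 1 (512 * K), (36 / 511 : ℝ) *
        ∑ s ∈ (S (512 * K)).filter (fun s => N < 512 * s), (1 : ℝ) / s ≤
        ∑ N ∈ Icc 1 (512 * K), 2 * (((A N).card : ℝ) / N) := by
      apply sum_le_sum
      intro N hN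
      rw [mem_Icc] at hN
      exact step_one h _ N hN.1 hN.2
    rw [← mul_sum, ← mul_sum] at h3
    have h4 : (2 : ℝ) * (S K).card ≤ (S (512 * K)).card := by linarith
    exact_mod_cast h4
  have grow : ∀ j : ℕ, 2 ^ j ≤ (S (2 ^ (9 * j))).card := by
    intro j
    induction j with
    | zero =>
      simp only [pow_zero, mul_zero]
      apply card_pos.mpr
      exact ⟨1, mem_S.mpr ⟨le_rfl, Nat.mem_smoothNumbers_of_lt (by norm_num) (by norm_num)⟩⟩
    | succ j ih =>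
      have e : 2 ^ (9 * (j + 1)) = 512 * 2 ^ (9 * j) := by
        rw [mul_add, pow_add]; ring
      rw [e, pow_succ]
      have := dbl (2 ^ (9 * j))
      omega
  exact final (fun j => (grow j).trans (card_S_le (9 * j)))

end Pool.Agent.S18806
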