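import Pool.Statements.S18882
import Pool.Agent.H15.SF1

set_option autoImplicit false
open Pool Pool.MP_ed6ba5_nt

namespace Pool.Agent.S18882

theorem result :
    ¬ (∀ (k : ℕ) (a : ℕ → ℕ), 1 ≤ k → 1 ≤ a 0 → StrictMono a →
      (∀ n, k ≤ n →
        (¬ ∃ i j, i < j ∧ j < n ∧ a i + a j = a n) ∧
        (∀ m, a (n - 1) < m → m < a n → ∃ i j, i < j ∧ j < n ∧ a i + a j = m)) →
      ∃ p : ℕ, 0 < p ∧ ∃ N : ℕ, ∀ n, N ≤ n →
        a (n + p + 1) - a (n + p) = a (n + 1) - a n) := by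
  intro h
  obtain ⟨k, a, h1, h2, h3, h4, h5, h6⟩ := Pool.Agent.H15.SF.seq_exists 0 (Or.inl rfl)
  obtain ⟨p, hp, N, hN⟩ := h k a h1 (h2 0) h3
    (fun n hn => by
      obtain ⟨n, rfl⟩ : ∃ t, n = t + 1 := ⟨n - 1, by omega⟩
      refine ⟨fun ⟨i, j, b1, _, b3⟩ => h4 i j (n + 1) (by omega) b3, ?_⟩
      intro x hx1 hx2
      obtain ⟨i, j, b1, b2, b3, b4⟩ := h5 n x hn (by simpa using hx1) hx2
      rcases lt_or_gt_of_ne (b3 rfl) with c | c
      · exact ⟨i, j, c, by omega, b4⟩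
      · exact ⟨j, i, c, by omega, by omega⟩)
  refine h6 p N hp (fun n hn => ?_)
  have a1 := hN n hn
  have a2 := h3 (Nat.lt_succ_self n)
  have a3 := h3 (Nat.lt_succ_self (n + p))
  simp only [Nat.succ_eq_add_one] at a2 a3
  omega

end Pool.Agent.S18882
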