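import Pool.Statements.S18950

set_option autoImplicit false
open Pool Pool.MP_f29d01_nt

namespace Pool.Agent.S18950

open Filter Topology Real

noncomputable def tm (u : ℕ → ℝ) (r t : ℝ) (n : ℕ) : ℝ :=
  u n * Real.sin (2 * π * n * t) / (π * n) * r ^ n

noncomputable def A (u : ℕ → ℝ) (r t : ℝ) : ℝ := ∑' n, tm u r t n

lemma tm_le (u : ℕ → ℝ) (hu : ∀ n, |u n| ≤ 1) {r : ℝ} (hr : 0 ≤ r) (t : ℝ) (n : ℕ) :
    |tm u r t n| ≤ r ^ n := by
  unfold tm
  rw [abs_mul, abs_of_nonneg (pow_nonneg hr n)]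
  apply mul_le_of_le_one_left (pow_nonneg hr n)
  rcases Nat.eq_zero_or_pos n with h | h
  · simp [h]
  · have h1 : (1 : ℝ) ≤ n := by exact_mod_cast h
    have h2 : (1 : ℝ) ≤ π * n := by nlinarith [Real.pi_gt_three]
    rw [abs_div, abs_mul, abs_of_pos (show 0 < π * n by linarith), div_le_one (by linarith)]
    have := mul_le_mul (hu n) (Real.abs_sin_le_one (2 * π * n * t)) (abs_nonneg _) zero_le_one
    linarith

lemma tm_sum (u : ℕ → ℝ) (hu : ∀ n, |u n| ≤ 1) {r : ℝ} (hr : 0 ≤ r) (hr1 : r < 1) (t : ℝ) :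
    Summable (tm u r t) :=
  Summable.of_norm_bounded (summable_geometric_of_lt_one hr hr1) (tm_le u hu hr t)

lemma A_le (u : ℕ → ℝ) (hu : ∀ n, |u n| ≤ 1) {r : ℝ} (hr : 0 ≤ r) (hr1 : r < 1) (t : ℝ) :
    |A u r t| ≤ (1 - r)⁻¹ := by
  rw [← Real.norm_eq_abs]
  exact tsum_of_norm_bounded (hasSum_geometric_of_lt_one hr hr1) (tm_le u hu hr t)

structure Fl (p : ℕ) (u w : ℕ → ℝ) : Prop where
  hp : 2 ≤ p
  hu : ∀ n, |u n| ≤ 1
  hw : ∀ n, |w n| ≤ 1
  h0 : ∀ n, ¬ p ∣ n → u n = w n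
  h1 : ∀ n, 1 ≤ n → u (p * n) = -u n
  h2 : ∀ n, 1 ≤ n → w (p * n) = w n

lemma Fl.eq {p : ℕ} {u w : ℕ → ℝ} (H : Fl p u w) {r : ℝ} (hr : 0 ≤ r) (hr1 : r < 1) (t : ℝ) :
    A u r t = A w r t - A w (r ^ p) (p * t) / p - A u (r ^ p) (p * t) / p := by
  have hp := H.hp
  have hp0 : (p : ℝ) ≠ 0 := by positivity
  have hq : 0 ≤ r ^ p := pow_nonneg hr p
  have hq1 : r ^ p < 1 := pow_lt_one₀ hr hr1 (by omega)
  have e1 : A u r t - A w r t = ∑' n, (tm u r t n - tm w r t n) :=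
    ((tm_sum u H.hu hr hr1 t).tsum_sub (tm_sum w H.hw hr hr1 t)).symm
  have hinj : Function.Injective (fun n : ℕ => p * n) := fun a b h =>
    Nat.eq_of_mul_eq_mul_left (by omega) h
  have e2 : ∑' n, (tm u r t n - tm w r t n)
      = ∑' n, (tm u r t (p * n) - tm w r t (p * n)) := by
    refine (hinj.tsum_eq (f := fun n => tm u r t n - tm w r t n) ?_).symm
    intro n hn
    by_contra h
    apply hn
    have : ¬ p ∣ n := by
      rintro ⟨k, rfl⟩
      exact h ⟨k, rfl⟩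
    simp only [tm, H.h0 n this, sub_self]
  have e3 : ∀ n, tm u r t (p * n) - tm w r t (p * n)
      = -(tm w (r ^ p) (p * t) n / p) - tm u (r ^ p) (p * t) n / p := by
    intro n
    rcases Nat.eq_zero_or_pos n with h | h
    · simp [tm, h]
    · have hn : (n : ℝ) ≠ 0 := by positivity
      simp only [tm, H.h1 n h, H.h2 n h, pow_mul]
      push_cast
      rw [show 2 * π * (p * n) * t = 2 * π * n * (p * t) by ring]
      field_simp
      ring
  have e4 : ∑' n, (tm u r t (p * n) - tm w r t (p * n))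
      = -(A w (r ^ p) (p * t) / p) - A u (r ^ p) (p * t) / p := by
    simp only [e3]
    rw [Summable.tsum_sub ((tm_sum w H.hw hq hq1 _).div_const _).neg
      ((tm_sum u H.hu hq hq1 _).div_const _), tsum_neg, tsum_div_const, tsum_div_const]
    rfl
  linarith

lemma Fl.bd {p : ℕ} {u w : ℕ → ℝ} (H : Fl p u w) (B C : ℝ) (hC : B * (p + 1) ≤ C * (p - 1))
    (hB : ∀ r, 0 ≤ r → r < 1 → ∀ t, |A w r t| ≤ B) :
    ∀ r, 0 ≤ r → r < 1 → ∀ t, |A u r t| ≤ C := by
  have hp := H.hp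
  have hp2 : (2 : ℝ) ≤ p := by exact_mod_cast hp
  have hp0 : (0 : ℝ) < p := by linarith
  intro r0 h0 h1
  have key : ∀ j : ℕ, ∀ r, 0 ≤ r → r ≤ r0 → ∀ t, |A u r t| ≤ C + (1 - r0)⁻¹ * (1 / 2) ^ j := by
    have hC0 : 0 ≤ C := by
      have := (abs_nonneg _).trans (hB 0 le_rfl one_pos 0)
      by_contra h
      push Not at h
      nlinarith
    have hU : 0 < (1 - r0)⁻¹ := inv_pos.2 (by linarith)
    intro j
    induction j with
    | zero =>
      intro r hr hr0 t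
      have h2 := A_le u H.hu hr (by linarith) t
      have h3 : (1 - r)⁻¹ ≤ (1 - r0)⁻¹ := inv_anti₀ (by linarith) (by linarith)
      simp only [pow_zero, mul_one]
      linarith
    | succ j ih =>
      intro r hr hr0 t
      have hq : 0 ≤ r ^ p := pow_nonneg hr p
      have hq0 : r ^ p ≤ r := pow_le_of_le_one hr (by linarith) (by omega)
      have a1 := hB r hr (by linarith) t
      have a2 := hB (r ^ p) hq (by linarith) (p * t)
      have a3 := ih (r ^ p) hq (by linarith) (p * t)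
      rw [H.eq hr (by linarith) t]
      set E := (1 - r0)⁻¹ * (1 / 2) ^ j with hE
      have hE0 : 0 ≤ E := by positivity
      have b1 : |A w (r ^ p) (p * t) / p| ≤ B / p := by
        rw [abs_div, abs_of_pos hp0]; gcongr
      have b2 : |A u (r ^ p) (p * t) / p| ≤ (C + E) / p := by
        rw [abs_div, abs_of_pos hp0]; gcongr
      have b3 : B + B / p + (C + E) / p ≤ C + E / 2 := by
        have c1 : E / p ≤ E / 2 := by gcongr
        have c2 : B + B / p + C / p ≤ C := by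
          have : B + B / p + C / p = (B * (p + 1) + C) / p := by field_simp
          rw [this, div_le_iff₀ hp0]; linarith
        rw [add_div]; linarith
      have b4 : (1 - r0)⁻¹ * (1 / 2) ^ (j + 1) = E / 2 := by rw [hE]; ring
      rw [b4]
      rw [abs_le] at a1 b1 b2 ⊢
      constructor <;> linarith [a1.1, a1.2, b1.1, b1.2, b2.1, b2.2]
  intro t
  have T : Tendsto (fun j : ℕ => C + (1 - r0)⁻¹ * (1 / 2) ^ j) atTop (𝓝 (C + (1 - r0)⁻¹ * 0)) :=
    ((tendsto_pow_atTop_nhds_zero_of_lt_one (by norm_num) (by norm_num)).const_mul _).const_add _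
  have := ge_of_tendsto' T (fun j => key j r0 h0 le_rfl t)
  simpa using this

noncomputable def G (r x : ℝ) : ℝ :=
  -Complex.arg (1 - (r : ℂ) * Complex.exp (((2 * π * x : ℝ) : ℂ) * Complex.I)) / π

lemma A_one {r : ℝ} (hr : 0 ≤ r) (hr1 : r < 1) (x : ℝ) : A (fun _ => 1) r x = G r x := by
  have hz : ‖(r : ℂ) * Complex.exp (((2 * π * x : ℝ) : ℂ) * Complex.I)‖ < 1 := by
    rw [norm_mul, Complex.norm_exp_ofReal_mul_I, mul_one, Complex.norm_real, Real.norm_eq_abs,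
      abs_of_nonneg hr]
    exact hr1
  have h1 := Complex.hasSum_im (Complex.hasSum_taylorSeries_neg_log hz)
  have h2 := h1.div_const π
  rw [Complex.neg_im, Complex.log_im] at h2
  refine HasSum.tsum_eq ?_
  unfold G
  have e : tm (fun _ => 1) r x = fun n : ℕ =>
      (((r : ℂ) * Complex.exp (((2 * π * x : ℝ) : ℂ) * Complex.I)) ^ n / n).im / π := by
    funext n
    unfold tm
    rw [mul_pow, ← Complex.exp_nat_mul, ← Complex.ofReal_pow, Complex.div_natCast_im,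
      Complex.im_ofReal_mul,
      show (n : ℂ) * (((2 * π * x : ℝ) : ℂ) * Complex.I) = ((2 * π * n * x : ℝ) : ℂ) * Complex.I by
        push_cast; ring, Complex.exp_ofReal_mul_I_im]
    ring
  rw [e]
  exact h2

lemma G_bd {r : ℝ} (hr : 0 ≤ r) (hr1 : r < 1) (x : ℝ) : |G r x| ≤ 1 / 2 := by
  unfold G
  rw [abs_div, abs_neg, abs_of_pos Real.pi_pos, div_le_iff₀ Real.pi_pos]
  have : |Complex.arg (1 - (r : ℂ) * Complex.exp (((2 * π * x : ℝ) : ℂ) * Complex.I))| < π / 2 := by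
    rw [Complex.abs_arg_lt_pi_div_two_iff]
    left
    rw [Complex.sub_re, Complex.re_ofReal_mul, Complex.exp_ofReal_mul_I_re, Complex.one_re]
    nlinarith [Real.cos_le_one (2 * π * x)]
  linarith

noncomputable def rho (x : ℝ) : ℝ := 1 / 2 - Int.fract x

noncomputable def saw (x : ℝ) : ℝ := (rho x - rho (-x)) / 2

lemma exp_fract (x : ℝ) : Complex.exp (((2 * π * x : ℝ) : ℂ) * Complex.I)
    = Complex.exp (((2 * π * Int.fract x : ℝ) : ℂ) * Complex.I) := by
  have : ((2 * π * x : ℝ) : ℂ) * Complex.I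
      = ((2 * π * Int.fract x : ℝ) : ℂ) * Complex.I + (⌊x⌋ : ℤ) * (2 * π * Complex.I) := by
    rw [Int.fract]; push_cast; ring
  rw [this, Complex.exp_add, Complex.exp_int_mul_two_pi_mul_I, mul_one]

lemma G_lim (m : ℕ) (x : ℝ) :
    Tendsto (fun r : ℝ => G (r ^ m) x) (𝓝[<] 1) (𝓝 (saw x)) := by
  by_cases hx : Int.fract x = 0
  · have h0 : saw x = 0 := by
      have : Int.fract (-x) = 0 := by rwa [Int.fract_neg_eq_zero]
      simp [saw, rho, hx, this]
    rw [h0]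
    refine tendsto_const_nhds.congr' ?_
    filter_upwards [Ioo_mem_nhdsLT (show (0 : ℝ) < 1 by norm_num)] with r hr
    have h1 : r ^ m ≤ 1 := pow_le_one₀ hr.1.le hr.2.le
    unfold G
    rw [exp_fract, hx]
    have : (1 : ℂ) - ((r ^ m : ℝ) : ℂ) * Complex.exp (((2 * π * 0 : ℝ) : ℂ) * Complex.I)
        = ((1 - r ^ m : ℝ) : ℂ) := by simp
    rw [this, Complex.arg_ofReal_of_nonneg (by linarith)]
    simp
  · set f := Int.fract x with hf
    have f0 : 0 < f := lt_of_le_of_ne (Int.fract_nonneg x) (Ne.symm hx)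
    have f1 : f < 1 := Int.fract_lt_one x
    have hs : saw x = 1 / 2 - f := by
      simp only [saw, rho, Int.fract_neg hx, ← hf]; ring
    have hsin : 0 < Real.sin (π * f) :=
      Real.sin_pos_of_pos_of_lt_pi (by positivity) (by nlinarith [Real.pi_pos])
    have e1 : (1 : ℂ) - Complex.exp (((2 * π * f : ℝ) : ℂ) * Complex.I)
        = ((2 * Real.sin (π * f) : ℝ) : ℂ) *
          (Complex.cos ((π * f - π / 2 : ℝ) : ℂ) + Complex.sin ((π * f - π / 2 : ℝ) : ℂ) * Complex.I) := by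
      rw [← Complex.ofReal_cos, ← Complex.ofReal_sin, Real.cos_sub_pi_div_two,
        Real.sin_sub_pi_div_two]
      apply Complex.ext
      · simp only [Complex.sub_re, Complex.one_re, Complex.exp_ofReal_mul_I_re,
          Complex.re_ofReal_mul, Complex.add_re, Complex.ofReal_re, Complex.I_re, mul_zero, add_zero]
        rw [show 2 * π * f = 2 * (π * f) by ring, Real.cos_two_mul]
        nlinarith [Real.sin_sq_add_cos_sq (π * f)]
      · simp only [Complex.sub_im, Complex.one_im, Complex.exp_ofReal_mul_I_im,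
          Complex.im_ofReal_mul, Complex.add_im, Complex.ofReal_im, Complex.I_im, mul_one, zero_add]
        rw [show 2 * π * f = 2 * (π * f) by ring, Real.sin_two_mul]
        ring
    have e2 : Complex.arg (1 - Complex.exp (((2 * π * f : ℝ) : ℂ) * Complex.I)) = π * f - π / 2 := by
      rw [e1]
      apply Complex.arg_mul_cos_add_sin_mul_I (by linarith)
      constructor <;> nlinarith [Real.pi_pos]
    have hsl : (1 - Complex.exp (((2 * π * f : ℝ) : ℂ) * Complex.I)) ∈ Complex.slitPlane := by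
      rw [Complex.mem_slitPlane_iff]
      left
      rw [Complex.sub_re, Complex.exp_ofReal_mul_I_re, Complex.one_re,
        show 2 * π * f = 2 * (π * f) by ring, Real.cos_two_mul]
      nlinarith [Real.sin_sq_add_cos_sq (π * f)]
    have c1 : Tendsto (fun r : ℝ =>
        (1 : ℂ) - ((r ^ m : ℝ) : ℂ) * Complex.exp (((2 * π * f : ℝ) : ℂ) * Complex.I)) (𝓝 1)
        (𝓝 (1 - Complex.exp (((2 * π * f : ℝ) : ℂ) * Complex.I))) := by
      have : Continuous (fun r : ℝ =>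
        (1 : ℂ) - ((r ^ m : ℝ) : ℂ) * Complex.exp (((2 * π * f : ℝ) : ℂ) * Complex.I)) := by
        fun_prop
      simpa using this.tendsto 1
    have c2 := ((Complex.continuousAt_arg hsl).tendsto.comp c1).neg.div_const π
    rw [e2] at c2
    have e3 : -(π * f - π / 2) / π = saw x := by
      rw [hs]; field_simp; ring
    rw [e3] at c2
    refine (c2.mono_left nhdsWithin_le_nhds).congr (fun r => ?_)
    unfold G
    rw [exp_fract x]
    rfl

lemma fr (K : ℤ) (φ : ℝ) (h0 : 0 ≤ φ) (h1 : φ < 1) (d : ℤ) (hd : 0 < d) :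
    Int.fract (((K : ℝ) + φ) / d) = (((K % d : ℤ) : ℝ) + φ) / d := by
  have hd' : (0 : ℝ) < d := by exact_mod_cast hd
  have a1 : (0 : ℝ) ≤ ((K % d : ℤ) : ℝ) := by exact_mod_cast Int.emod_nonneg K hd.ne'
  have a2 : ((K % d : ℤ) : ℝ) + 1 ≤ d := by exact_mod_cast Int.emod_lt_of_pos K hd
  rw [Int.fract_eq_iff]
  refine ⟨by positivity, by rw [div_lt_one hd']; linarith, K / d, ?_⟩
  have : (K : ℝ) = ((K % d : ℤ) : ℝ) + d * ((K / d : ℤ) : ℝ) := by
    exact_mod_cast (Int.emod_add_mul_ediv K d).symm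
  rw [← sub_div, div_eq_iff hd'.ne']
  linarith

lemma chk0 : ∀ i < 113, ∀ j < 169,
    2 * ((169 * i + j) % 1469) + 2 * ((169 * i + j) % 169)
      ≤ 1464 + (169 * i + j) + 2 * ((169 * i + j) % 113) + 4 * ((169 * i + j) % 13) ∧
    (169 * i + j) + 2 * ((169 * i + j) % 113) + 4 * ((169 * i + j) % 13)
      ≤ 17560 + 2 * ((169 * i + j) % 1469) + 2 * ((169 * i + j) % 169) := by
  decide +kernel

lemma chk (k : ℕ) (hk : k < 19097) :
    2 * (k % 1469) + 2 * (k % 169) ≤ 1464 + k + 2 * (k % 113) + 4 * (k % 13) ∧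
    k + 2 * (k % 113) + 4 * (k % 13) ≤ 17560 + 2 * (k % 1469) + 2 * (k % 169) := by
  have := chk0 (k / 169) (by omega) (k % 169) (by omega)
  rwa [Nat.div_add_mod] at this

lemma chk2 (K : ℤ) :
    2 * (K % 1469) + 2 * (K % 169) ≤ 1464 + K % 19097 + 2 * (K % 113) + 4 * (K % 13) ∧
    K % 19097 + 2 * (K % 113) + 4 * (K % 13) ≤ 17560 + 2 * (K % 1469) + 2 * (K % 169) := by
  obtain ⟨k, hk⟩ := Int.eq_ofNat_of_zero_le (Int.emod_nonneg K (show (19097 : ℤ) ≠ 0 by norm_num))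
  have hk1 : k < 19097 := by omega
  have hc := chk k hk1
  rw [← Int.emod_emod_of_dvd K (show (1469 : ℤ) ∣ 19097 by norm_num),
    ← Int.emod_emod_of_dvd K (show (169 : ℤ) ∣ 19097 by norm_num),
    ← Int.emod_emod_of_dvd K (show (113 : ℤ) ∣ 19097 by norm_num),
    ← Int.emod_emod_of_dvd K (show (13 : ℤ) ∣ 19097 by norm_num), hk]
  exact_mod_cast hc

noncomputable def R (t : ℝ) : ℝ :=
  rho t - 2 / 13 * rho (13 * t) + 2 / 169 * rho (169 * t) - 2 / 113 * rho (113 * t)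
    + 4 / 1469 * rho (1469 * t)

lemma R_bd (t : ℝ) : |R t| ≤ 0.49817 := by
  set K := ⌊19097 * t⌋ with hK
  set φ := Int.fract (19097 * t) with hφ
  have h0 : 0 ≤ φ := Int.fract_nonneg _
  have h1 : φ < 1 := Int.fract_lt_one _
  have ht : t = ((K : ℝ) + φ) / 19097 := by
    rw [hK, hφ, Int.floor_add_fract]; ring
  have e1 := fr K φ h0 h1 19097 (by norm_num)
  have e2 := fr K φ h0 h1 1469 (by norm_num)
  have e3 := fr K φ h0 h1 113 (by norm_num)
  have e4 := fr K φ h0 h1 169 (by norm_num)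
  have e5 := fr K φ h0 h1 13 (by norm_num)
  obtain ⟨c1, c2⟩ := chk2 K
  have c1' : 2 * ((K % 1469 : ℤ) : ℝ) + 2 * ((K % 169 : ℤ) : ℝ) ≤ 1464 + ((K % 19097 : ℤ) : ℝ)
      + 2 * ((K % 113 : ℤ) : ℝ) + 4 * ((K % 13 : ℤ) : ℝ) := by exact_mod_cast c1
  have c2' : ((K % 19097 : ℤ) : ℝ) + 2 * ((K % 113 : ℤ) : ℝ) + 4 * ((K % 13 : ℤ) : ℝ)
      ≤ 17560 + 2 * ((K % 1469 : ℤ) : ℝ) + 2 * ((K % 169 : ℤ) : ℝ) := by exact_mod_cast c2
  have f1 : t = ((K : ℝ) + φ) / ((19097 : ℤ) : ℝ) := by rw [ht]; push_cast; ring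
  have f2 : 13 * t = ((K : ℝ) + φ) / ((1469 : ℤ) : ℝ) := by rw [ht]; push_cast; ring
  have f3 : 169 * t = ((K : ℝ) + φ) / ((113 : ℤ) : ℝ) := by rw [ht]; push_cast; ring
  have f4 : 113 * t = ((K : ℝ) + φ) / ((169 : ℤ) : ℝ) := by rw [ht]; push_cast; ring
  have f5 : 1469 * t = ((K : ℝ) + φ) / ((13 : ℤ) : ℝ) := by rw [ht]; push_cast; ring
  rw [← f1] at e1
  rw [← f2] at e2
  rw [← f3] at e3
  rw [← f4] at e4
  rw [← f5] at e5
  unfold R rho
  rw [e1, e2, e3, e4, e5, abs_le]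
  generalize ((K % 19097 : ℤ) : ℝ) = a1 at *
  generalize ((K % 1469 : ℤ) : ℝ) = a2 at *
  generalize ((K % 113 : ℤ) : ℝ) = a3 at *
  generalize ((K % 169 : ℤ) : ℝ) = a4 at *
  generalize ((K % 13 : ℤ) : ℝ) = a5 at *
  push_cast
  constructor <;> linarith

noncomputable def sg (p n : ℕ) : ℝ := (-1) ^ (n.factorization p)

lemma sg_abs (p n : ℕ) : |sg p n| = 1 := by simp [sg]

lemma sg_mul (p : ℕ) {m n : ℕ} (hm : 1 ≤ m) (hn : 1 ≤ n) : sg p (m * n) = sg p m * sg p n := by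
  unfold sg
  rw [Nat.factorization_mul (by omega) (by omega), Finsupp.add_apply, pow_add]

lemma sg_nd {p n : ℕ} (h : ¬ p ∣ n) : sg p n = 1 := by
  unfold sg
  rw [Nat.factorization_eq_zero_of_not_dvd h, pow_zero]

lemma sg_self {p : ℕ} (hp : p.Prime) : sg p p = -1 := by
  unfold sg
  rw [hp.factorization_self, pow_one]

lemma F1 : Fl 113 (sg 113) (fun _ => 1) where
  hp := by norm_num
  hu := fun n => (sg_abs _ n).le
  hw := fun n => by simp
  h0 := fun n h => sg_nd h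
  h1 := fun n hn => by rw [sg_mul _ (by norm_num) hn, sg_self (by norm_num)]; ring
  h2 := fun _ _ => rfl

noncomputable def aa (n : ℕ) : ℝ := sg 13 n * sg 113 n

lemma aa_abs (n : ℕ) : |aa n| = 1 := by simp [aa, abs_mul, sg_abs]

lemma F2 : Fl 13 aa (sg 113) where
  hp := by norm_num
  hu := fun n => (aa_abs n).le
  hw := fun n => (sg_abs _ n).le
  h0 := fun n h => by rw [aa, sg_nd h, one_mul]
  h1 := fun n hn => by
    rw [aa, aa, sg_mul _ (by norm_num) hn, sg_mul _ (by norm_num) hn, sg_self (by norm_num),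
      sg_nd (show ¬ 113 ∣ 13 by norm_num)]; ring
  h2 := fun n hn => by
    rw [sg_mul _ (by norm_num) hn, sg_nd (show ¬ 113 ∣ 13 by norm_num), one_mul]

lemma bdH : ∀ r, 0 ≤ r → r < 1 → ∀ t, |A (fun _ => 1) r t| ≤ 1 / 2 := fun r h0 h1 t => by
  rw [A_one h0 h1]; exact G_bd h0 h1 t

lemma bdB : ∀ r, 0 ≤ r → r < 1 → ∀ t, |A (sg 113) r t| ≤ 0.509 :=
  F1.bd (1 / 2) _ (by norm_num) bdH

lemma bdA : ∀ r, 0 ≤ r → r < 1 → ∀ t, |A aa r t| ≤ 0.594 :=
  F2.bd 0.509 _ (by norm_num) bdB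

lemma B1 {r : ℝ} (h0 : 0 ≤ r) (h1 : r < 1) (t : ℝ) :
    |A (sg 113) r t - G r t| ≤ 1.009 / 113 := by
  have hq : 0 ≤ r ^ 113 := pow_nonneg h0 _
  have hq1 : r ^ 113 < 1 := pow_lt_one₀ h0 h1 (by norm_num)
  have e := F1.eq h0 h1 t
  have a1 := bdH _ hq hq1 ((113 : ℕ) * t)
  have a2 := bdB _ hq hq1 ((113 : ℕ) * t)
  rw [A_one h0 h1] at e
  rw [abs_le] at a1 a2 ⊢
  push_cast at *
  constructor <;> linarith [a1.1, a1.2, a2.1, a2.2]

lemma B2 {r : ℝ} (h0 : 0 ≤ r) (h1 : r < 1) (t : ℝ) :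
    |A (sg 113) r t - (G r t - 2 / 113 * G (r ^ 113) (113 * t))| ≤ 1.009 / 113 / 113 := by
  have hq : 0 ≤ r ^ 113 := pow_nonneg h0 _
  have hq1 : r ^ 113 < 1 := pow_lt_one₀ h0 h1 (by norm_num)
  have e := F1.eq h0 h1 t
  have a1 := B1 hq hq1 ((113 : ℕ) * t)
  rw [A_one h0 h1, A_one hq hq1] at e
  rw [abs_le] at a1 ⊢
  push_cast at *
  constructor <;> linarith [a1.1, a1.2]

lemma main {r : ℝ} (h0 : 0 ≤ r) (h1 : r < 1) (t : ℝ) :
    |A aa r t - (G (r ^ 1) t - 2 / 13 * G (r ^ 13) (13 * t) + 2 / 169 * G (r ^ 169) (169 * t)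
      - 2 / 113 * G (r ^ 113) (113 * t) + 4 / 1469 * G (r ^ 1469) (1469 * t))| ≤ 0.0007 := by
  have p0 : ∀ n : ℕ, 0 ≤ r ^ n := fun n => pow_nonneg h0 n
  have p1 : ∀ n : ℕ, n ≠ 0 → r ^ n < 1 := fun n hn => pow_lt_one₀ h0 h1 hn
  have e0 := F2.eq h0 h1 t
  have e1 := F2.eq (p0 13) (p1 13 (by norm_num)) (13 * t)
  have e2 := F2.eq (p0 169) (p1 169 (by norm_num)) (169 * t)
  have b0 := B2 h0 h1 t
  have b1 := B2 (p0 13) (p1 13 (by norm_num)) (13 * t)
  have b2 := B1 (p0 169) (p1 169 (by norm_num)) (169 * t)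
  have b3 := bdB _ (p0 2197) (p1 2197 (by norm_num)) (2197 * t)
  have b4 := bdA _ (p0 2197) (p1 2197 (by norm_num)) (2197 * t)
  rw [← pow_mul] at e1 e2 b1
  push_cast at e0 e1 e2 b1
  rw [show (13 : ℝ) * (13 * t) = 169 * t by ring] at e1
  rw [show (13 : ℝ) * (169 * t) = 2197 * t by ring] at e2
  rw [show (113 : ℝ) * (13 * t) = 1469 * t by ring] at b1
  rw [pow_one]
  rw [abs_le] at b0 b1 b2 b3 b4 ⊢
  constructor <;> linarith [b0.1, b0.2, b1.1, b1.2, b2.1, b2.2, b3.1, b3.2, b4.1, b4.2]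

/-- The negation of the preceding statement: For every completely multiplicative ±1 sequence a_n and every ε>0, there is a t where the series (1/π)Σ a_n sin(2πnt)/n converges to a value of absolute value at least 1/2−ε; that is, the sup of ∣s∣ is at least 1/2. -/
theorem result :
    ¬ (∀ a : ℕ → ℝ,
      (∀ n : ℕ, 1 ≤ n → (a n = 1 ∨ a n = -1)) →
      a 1 = 1 →
      (∀ m n : ℕ, 1 ≤ m → 1 ≤ n → a (m * n) = a m * a n) →
      ∀ ε : ℝ, 0 < ε →
        ∃ t L : ℝ,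
          Filter.Tendsto
            (fun N : ℕ => (1 / Real.pi) *
              ∑ n ∈ Finset.Icc 1 N, a n * Real.sin (2 * Real.pi * (n : ℝ) * t) / (n : ℝ))
            Filter.atTop (nhds L) ∧
          1 / 2 - ε ≤ |L|) := by
  intro H
  obtain ⟨t, L, hL, hε⟩ := H aa
    (fun n _ => (abs_eq zero_le_one).1 (aa_abs n))
    (by simp [aa, sg])
    (fun m n hm hn => by simp only [aa, sg_mul _ hm hn]; ring) 0.001 (by norm_num)
  have h1 : Tendsto (fun N : ℕ => ∑ n ∈ Finset.range N,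
      aa n * Real.sin (2 * π * n * t) / (π * n)) atTop (𝓝 L) := by
    rw [← tendsto_add_atTop_iff_nat 1]
    refine hL.congr (fun N => ?_)
    rw [Finset.range_eq_Ico, Finset.sum_eq_sum_Ico_succ_bot (by omega), Finset.mul_sum]
    simp only [Nat.cast_zero, mul_zero, div_zero, zero_add]
    apply Finset.sum_congr rfl
    intro n _
    ring
  have h2 : Tendsto (fun r : ℝ => A aa r t) (𝓝[<] 1) (𝓝 L) :=
    Real.tendsto_tsum_powerSeries_nhdsWithin_lt h1
  have h3 := ((((G_lim 1 t).sub ((G_lim 13 (13 * t)).const_mul (2 / 13))).add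
    ((G_lim 169 (169 * t)).const_mul (2 / 169))).sub
    ((G_lim 113 (113 * t)).const_mul (2 / 113))).add ((G_lim 1469 (1469 * t)).const_mul (4 / 1469))
  have h4 := le_of_tendsto (h2.sub h3).abs (show ∀ᶠ r in 𝓝[<] (1 : ℝ), _ ≤ (0.0007 : ℝ) from by
    filter_upwards [Ioo_mem_nhdsLT (show (0 : ℝ) < 1 by norm_num)] with r hr
    exact main hr.1.le hr.2 t)
  have h5 := R_bd t
  have h6 := R_bd (-t)
  unfold R at h5 h6
  unfold saw at h4
  simp only [mul_neg] at h6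
  have h7 : |L| ≤ 0.49887 := by
    rw [abs_le] at h4 h5 h6 ⊢
    constructor <;> linarith [h4.1, h4.2, h5.1, h5.2, h6.1, h6.2]
  linarith

end Pool.Agent.S18950
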