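import Pool.Statements.S18969
import Pool.Agent.H15.E279b

set_option autoImplicit false
open Pool Pool.MP_f3a92d_nt

namespace Pool.Agent.S18969

theorem result :
    ∀ k : ℕ, 3 ≤ k →
      ∃ a : ℕ → ℕ, (∀ p : ℕ, p.Prime → a p < p) ∧
        ∃ N : ℕ, ∀ n : ℕ, N ≤ n →
          ∃ p : ℕ, p.Prime ∧ ∃ t : ℕ, k ≤ t ∧ n = a p + t * p := by
  intro k _
  exact Pool.Agent.H15.E279.main k

end Pool.Agent.S18969
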