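import Pool.Statements.S19070
import Pool.Agent.H1.BarnesD

set_option autoImplicit false
open Pool Pool.MP_fcb754_nt

namespace Pool.Agent.S19070

/-- The negation of the preceding statement: For the continuation F of the Barnes r-fold zeta (a>0, w_j>0) and d the Q-dimension of the span of the w_j: for each ε>0 and σ₁, ∣F(σ+it)∣ ≤ C t^ε for all t≥1 and r−d/2 ≤ σ ≤ σ₁. -/
theorem result :
    ¬ (∀ (r : ℕ), 1 ≤ r → ∀ (a : ℝ), 0 < a → ∀ (w : Fin r → ℝ), (∀ j, 0 < w j) →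
      ∀ F : ℂ → ℂ,
        DifferentiableOn ℂ F {s : ℂ | ∀ k : ℕ, 1 ≤ k → k ≤ r → s ≠ (k : ℂ)} →
        (∀ s : ℂ, (r : ℝ) < s.re →
          F s = ∑' m : Fin r → ℕ, (((a + ∑ j, (m j : ℝ) * w j : ℝ) : ℂ) ^ (-s))) →
        ∀ ε : ℝ, 0 < ε → ∀ σ₁ : ℝ, ∃ C : ℝ, ∀ σ t : ℝ,
          (r : ℝ) - (Module.finrank ℚ (Submodule.span ℚ (Set.range w)) : ℝ) / 2 ≤ σ →
          σ ≤ σ₁ → 1 ≤ t →
          ‖F ((σ : ℂ) + (t : ℂ) * Complex.I)‖ ≤ C * t ^ ε) := by
  intro H
  obtain ⟨L, hL, hL1, hL2⟩ := dense_liouville.exists_between (show (1 : ℝ) < 2 by norm_num)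
  have hw := Pool.Agent.H1.Barnes.w_ge hL1
  obtain ⟨E, hE, hconj, hE3⟩ := Pool.Agent.H1.Barnes.exists_E hw
  have hne : ∀ s : ℂ, (∀ k : ℕ, 1 ≤ k → k ≤ 3 → s ≠ (k : ℂ)) →
      (s - 1) * (s - 2) * (s - 3) ≠ 0 := by
    intro s hs
    exact mul_ne_zero (mul_ne_zero (sub_ne_zero.mpr (by simpa using hs 1 le_rfl (by norm_num)))
      (sub_ne_zero.mpr (by simpa using hs 2 (by norm_num) (by norm_num))))
      (sub_ne_zero.mpr (by simpa using hs 3 (by norm_num) le_rfl))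
  obtain ⟨C, hC⟩ := H 3 (by norm_num) 1 one_pos ![1, L, L ^ 2] (fun j => by linarith [hw j])
    (fun s => E s / ((s - 1) * (s - 2) * (s - 3)))
    (fun s hs => ((hE s).div (by fun_prop) (hne s hs)).differentiableWithinAt)
    (fun s hs => by
      have hs' : 3 < s.re := by exact_mod_cast hs
      rw [hE3 s hs', mul_div_cancel_left₀ _ (hne s fun k _ h2 h3 => by
        have h4 : (k : ℝ) ≤ 3 := by exact_mod_cast h2
        rw [h3, Complex.natCast_re] at hs'
        linarith)]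
      rfl) (1 / 8) (by norm_num) 4
  rw [Pool.Agent.H1.Barnes.finrank_three hL] at hC
  obtain ⟨C', hC'⟩ := Pool.Agent.H1.Barnes.main_ineq _ (Pool.Agent.H1.Barnes.lam_one_le hw)
    (Pool.Agent.H1.Barnes.summable_lam hw (σ := 4) (by norm_num)) E hE
    (fun s hs => hE3 s (by rw [hs]; norm_num)) C (by
      intro σ t h1 h2 h3
      have h4 := hC σ |t| (by norm_num; linarith) h2 h3
      rcases abs_choice t with h | h
      · rw [h] at h4 ⊢
        exact h4
      · refine le_trans (le_of_eq ?_) h4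
        have h5 : (σ : ℂ) + ((|t| : ℝ) : ℂ) * Complex.I =
            starRingEnd ℂ ((σ : ℂ) + (t : ℂ) * Complex.I) := by
          rw [h]
          simp
        rw [h5, hconj, ← Complex.norm_conj]
        simp only [map_div₀, map_mul, map_sub, map_one, map_ofNat])
  exact Pool.Agent.H1.Barnes.no_ineq hL hL1 hL2 C' hC'

end Pool.Agent.S19070
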