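import Pool.Statements.S19120
import Pool.Agent.H32.Rotor

set_option autoImplicit false
open Pool Pool.MP_056b6b_pr

namespace Pool.Agent.S19120

/-- The negation of the preceding statement: For every initial rotor configuration on Z^2, the rotor walk started at the origin has exits cycling N,N,E,S,W at each vertex. This walk returns to the origin only finitely many times, i.e. it is transient. -/
theorem result :
    ¬ (∀ r₀ : ℤ × ℤ → Fin 5,
      Set.Finite {n : ℕ |
        ((fun s : (ℤ × ℤ) × (ℤ × ℤ → Fin 5) =>
            (s.1 + (![(0, 1), (0, 1), (1, 0), (0, -1), (-1, 0)] : Fin 5 → ℤ × ℤ) (s.2 s.1 + 1),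
             Function.update s.2 s.1 (s.2 s.1 + 1)))^[n] ((0, 0), r₀)).1 = (0, 0)}) := by
  intro h
  exact H32.Rotor.main (h H32.Rotor.r0)

end Pool.Agent.S19120
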