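import Pool.Statements.S19194
import Pool.Agent.H32.Queue

set_option autoImplicit false
open MeasureTheory ProbabilityTheory
open Pool Pool.MP_1c00b2_pr
open scoped ENNReal
open Pool.Agent.H32.Queue

namespace Pool.Agent.S19194

noncomputable def sv (b : Bool) : ℝ := if b then 11 / 4 else 7 / 4

lemma sv_ge (b : Bool) : 7 / 4 ≤ sv b := by
  cases b <;> norm_num [sv]

lemma lower : ENNReal.ofReal (49 / 800) ≤
    ∫⁻ ω, ENNReal.ofReal (⨅ i, V (fun n => sv (ω n)) 4 i) ∂(P ℕ) := by
  have m1 := mset (ι := ℕ) 2 true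
  have m2 := (mset (ι := ℕ) 2 false).inter (mset (ι := ℕ) 0 true)
  calc ENNReal.ofReal (49 / 800)
      = ∫⁻ ω, ({ω : ℕ → Bool | ω 2 = true}.indicator (fun _ => ENNReal.ofReal (3 / 4)) ω +
        ({ω : ℕ → Bool | ω 2 = false} ∩ {ω | ω 0 = true}).indicator
          (fun _ => ENNReal.ofReal (1 / 2)) ω) ∂(P ℕ) := by
        rw [lintegral_add_left (measurable_const.indicator m1), lintegral_indicator_const m1,
          lintegral_indicator_const m2, P_one, P_two (by norm_num), bern_true, bern_false,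
          ← ENNReal.toReal_eq_toReal_iff' (by finiteness) (by finiteness),
          ENNReal.toReal_add (by finiteness) (by finiteness)]
        simp only [ENNReal.toReal_mul, ENNReal.toReal_inv, ENNReal.toReal_div]
        rw [ENNReal.toReal_ofReal (by norm_num), ENNReal.toReal_ofReal (by norm_num),
          ENNReal.toReal_ofReal (by norm_num)]
        norm_num
    _ ≤ _ := by
        refine lintegral_mono fun ω => ?_
        by_cases h2 : ω 2 = true
        · rw [Set.indicator_of_mem (by exact h2), Set.indicator_of_notMem (by simp [h2]), add_zero]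
          refine ENNReal.ofReal_le_ofReal (le_ciInf fun j => ?_)
          refine V_step _ 2 0 _ (V_nonneg _ _) (by linarith [sv_ge (ω (2 + 1))]) ?_ j
          norm_num [h2, sv]
        · rw [Set.indicator_of_notMem (by exact h2), zero_add]
          by_cases h0 : ω 0 = true
          · refine (Set.indicator_le_self _ _ _).trans ?_
            refine ENNReal.ofReal_le_ofReal (le_ciInf fun j => ?_)
            refine V_step _ 2 (3 / 4) _ (fun j => ?_) (by linarith [sv_ge (ω (2 + 1))])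
              (by linarith [sv_ge (ω 2)]) j
            refine V_step _ 0 0 _ (V_nonneg _ _) (by linarith [sv_ge (ω (0 + 1))]) ?_ j
            norm_num [h0, sv]
          · rw [Set.indicator_of_notMem (by simp [h0])]
            exact zero_le

theorem result :
    ¬ (∀ (Ω : Type) [MeasurableSpace Ω] (μ : Measure Ω) [IsProbabilityMeasure μ]
    (k : ℕ) (T S : ℕ → Ω → ℝ) (V : ℕ → Ω → Fin k → ℝ) (ρ : ℝ),
    0 < k →
    (∀ n, Measurable (T n)) → (∀ n, Measurable (S n)) →
    iIndepFun (fun n ω => (T n ω, S n ω)) μ →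
    (∀ n, IndepFun (T n) (S n) μ) →
    (∀ n, IdentDistrib (T n) (T 0) μ μ) →
    (∀ n, IdentDistrib (S n) (S 0) μ μ) →
    (∀ n ω, 0 ≤ T n ω) → (∀ n ω, 0 ≤ S n ω) →
    MemLp (T 0) 2 μ → MemLp (S 0) 2 μ →
    0 < ∫ ω, T 0 ω ∂μ →
    ρ = (∫ ω, S 0 ω ∂μ) / ((k : ℝ) * ∫ ω, T 0 ω ∂μ) →
    ρ < 1 →
    (∀ ω i, V 0 ω i = 0) →
    (∀ n ω, ∃ j : Fin k, (∀ i, V n ω j ≤ V n ω i) ∧
        ∀ i, V (n + 1) ω i = max 0 (V n ω i + (if i = j then S n ω else 0) - T n ω)) →
    ∀ n, ∫⁻ ω, ENNReal.ofReal (⨅ i, V n ω i) ∂μ ≤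
      ENNReal.ofReal ((ρ * (2 - ρ) * variance (T 0) μ + variance (S 0) μ / ((k : ℝ) ^ 2)) /
        (2 * (1 - ρ) * ∫ ω, T 0 ω ∂μ))) := by
  intro h
  have hE : ∫ ω, sv (ω 0) ∂(P ℕ) = 9 / 5 := by
    rw [integral_coord]
    norm_num [sv]
  have h1 := h (ℕ → Bool) (P ℕ) 2 (fun _ _ => 1) (fun n ω => sv (ω n))
    (fun n ω => V (fun n => sv (ω n)) n) (9 / 10) (by norm_num) (fun _ => measurable_const)
    (fun n => meas_coord n sv)
    (iIndepFun_infinitePi (X := fun _ b => ((1 : ℝ), sv b)) fun _ => Measurable.of_discrete)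
    (fun n => indepFun_const_left _ _) (fun n => IdentDistrib.refl aemeasurable_const)
    (fun n => ident n 0 sv) (fun _ _ => zero_le_one) (fun n ω => by linarith [sv_ge (ω n)])
    (memLp_const _) (memLp_coord 0 sv 2) (by simp) (by rw [hE]; norm_num) (by norm_num)
    (fun _ _ => rfl) (fun n ω => V_spec _ n) 4
  have hv : variance (fun ω : ℕ → Bool => sv (ω 0)) (P ℕ) = 19 / 400 := by
    rw [variance_eq_integral (meas_coord 0 sv).aemeasurable, hE,
      integral_coord 0 fun b => (sv b - 9 / 5) ^ 2]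
    norm_num [sv]
  have hv0 : variance (fun _ : ℕ → Bool => (1 : ℝ)) (P ℕ) = 0 := by
    rw [variance_eq_integral aemeasurable_const]
    simp
  rw [hv, hv0] at h1
  have h2 := lower.trans h1
  rw [ENNReal.ofReal_le_ofReal_iff (by norm_num)] at h2
  norm_num at h2

end Pool.Agent.S19194
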