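import Pool.Statements.S19196
import Pool.Agent.H32.TG2

set_option autoImplicit false
open Pool Pool.MP_1d7c3b_pr

namespace Pool.Agent.S19196

/-- The negation of the preceding statement: For i.i.d. X_1..X_n with a symmetric log-concave density and real d with sum of d_i^2 equal to 1, the differential entropy of the sum of d_i X_i is at most that of the sum of X_i/sqrt(n). -/
theorem result :
    ¬ (∀ (n : ℕ), 0 < n → ∀ (f : ℝ → ℝ), (∀ x, 0 ≤ f x) → (∀ x, f (-x) = f x) →
      (∀ x y t : ℝ, 0 ≤ t → t ≤ 1 →
        f x ^ t * f y ^ (1 - t) ≤ f (t * x + (1 - t) * y)) →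
      MeasureTheory.Integrable f → ∫ x, f x = 1 →
      ∀ (Ω : Type) [MeasureTheory.MeasureSpace Ω]
        [MeasureTheory.IsProbabilityMeasure (MeasureTheory.volume : MeasureTheory.Measure Ω)]
        (X : Fin n → Ω → ℝ),
        (∀ i, Measurable (X i)) →
        ProbabilityTheory.iIndepFun X (MeasureTheory.volume : MeasureTheory.Measure Ω) →
        (∀ i, MeasureTheory.Measure.map (X i) (MeasureTheory.volume : MeasureTheory.Measure Ω)
            = MeasureTheory.volume.withDensity (fun x => ENNReal.ofReal (f x))) →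
        ∀ d : Fin n → ℝ, ∑ i, d i ^ 2 = 1 →
          ∫ x, Real.negMulLog
              (((MeasureTheory.Measure.map (fun ω => ∑ i, d i * X i ω)
                (MeasureTheory.volume : MeasureTheory.Measure Ω)).rnDeriv
                  MeasureTheory.volume x).toReal)
            ≤ ∫ x, Real.negMulLog
              (((MeasureTheory.Measure.map (fun ω => ∑ i, (1 / Real.sqrt n) * X i ω)
                (MeasureTheory.volume : MeasureTheory.Measure Ω)).rnDeriv
                  MeasureTheory.volume x).toReal)) := by
  intro H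
  open Pool.Agent.H32.TG MeasureTheory ProbabilityTheory in
  let P : Measure (Fin 2 → ℝ) := Measure.pi fun _ => law r0
  have hP : MeasureTheory.IsProbabilityMeasure P := by infer_instance
  open Pool.Agent.H32.TG MeasureTheory ProbabilityTheory in
  have hI : iIndepFun (fun (i : Fin 2) (w : Fin 2 → ℝ) => w i) P :=
    iIndepFun_pi (X := fun _ => id) (fun _ => aemeasurable_id)
  open Pool.Agent.H32.TG MeasureTheory ProbabilityTheory in
  have hl : ∀ i : Fin 2, P.map (fun w => w i) = law r0 := fun i =>
    (measurePreserving_eval (fun _ : Fin 2 => law r0) i).map_eq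
  open Pool.Agent.H32.TG MeasureTheory ProbabilityTheory in
  have h := @H 2 (by norm_num) f0 (fun x => mul_nonneg (phi_pos x).le (good_r0.pos x).le) f0_even
    f0_lc good_r0.int f0_one (Fin 2 → ℝ) ⟨P⟩ hP (fun i w => w i)
    (fun i => measurable_pi_apply i) hI hl ![3 / 5, 4 / 5] (by simp; norm_num)
  have h2 : (1 / Real.sqrt ((2 : ℕ) : ℝ)) ^ 2 + (1 / Real.sqrt ((2 : ℕ) : ℝ)) ^ 2 = 1 := by
    rw [div_pow, Real.sq_sqrt (by norm_num)]; norm_num
  have h3 := Pool.Agent.H32.TG.final P (fun w => w 0) (fun w => w 1) (measurable_pi_apply 0)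
    (measurable_pi_apply 1) (hI.indepFun (by norm_num)) (hl 0) (hl 1) _ h2
  simp only [Fin.sum_univ_two, Matrix.cons_val_zero, Matrix.cons_val_one] at h
  exact absurd h (not_le.2 h3)

end Pool.Agent.S19196
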