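import Pool.Statements.S19204

set_option autoImplicit false
open MeasureTheory
open Pool Pool.MP_218893_pr

namespace Pool.Agent.S19204
open ProbabilityTheory

def sN : Fin 11 → ℕ := ![0, 2, 8, 12, 12, 16, 18, 18, 20, 20, 21]

def s (i : Fin 11) : ℤ := sN i

def L : List ℕ := [0, 2, 8, 12, 12, 16, 18, 18, 20, 20, 21]

def t (a : Bool) (x : ℕ) : ℕ := cond a x (21 - x)

def cnt (a b c : Bool) (k : ℕ) : ℕ :=
  (L.map fun x => (L.map fun y => (L.map fun z =>
    cond (Nat.beq (t a x + t b y + t c z) k) 1 0).sum).sum).sum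

lemma sum_eq (g : ℕ → ℕ) : ∑ i : Fin 11, g (sN i) = (L.map g).sum := by
  simp [Fin.sum_univ_succ, sN, L]

def e3 : (Fin 3 → Fin 11) ≃ Fin 11 × Fin 11 × Fin 11 where
  toFun := fun u => (u 0, u 1, u 2)
  invFun := fun p => ![p.1, p.2.1, p.2.2]
  left_inv := fun u => by funext i; fin_cases i <;> rfl
  right_inv := fun p => rfl

lemma card_eq (f : ℕ → ℕ → ℕ → ℕ) (k : ℕ) :
    (Finset.univ.filter (fun u : Fin 3 → Fin 11 =>
      f (sN (u 0)) (sN (u 1)) (sN (u 2)) = k)).card =
      (L.map fun x => (L.map fun y => (L.map fun z =>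
        cond (Nat.beq (f x y z) k) 1 0).sum).sum).sum := by
  rw [Finset.card_filter, ← e3.symm.sum_comp, Fintype.sum_prod_type]
  simp only [Fintype.sum_prod_type]
  rw [← sum_eq]
  refine Finset.sum_congr rfl fun x _ => ?_
  rw [← sum_eq]
  refine Finset.sum_congr rfl fun y _ => ?_
  rw [← sum_eq]
  refine Finset.sum_congr rfl fun z _ => ?_
  show (if f (sN x) (sN y) (sN z) = k then 1 else 0) = _
  split_ifs with h
  · rw [h, Nat.beq_refl]; rfl
  · have : Nat.beq (f (sN x) (sN y) (sN z)) k = false := by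
      cases hb : Nat.beq (f (sN x) (sN y) (sN z)) k
      · rfl
      · exact absurd (Nat.eq_of_beq_eq_true hb) h
    rw [this]; rfl

lemma cnt_small : ∀ a b c : Bool, ∀ j < 64, cnt a b c j ≤ 78 := by
  decide +kernel

lemma cnt_big : (Finset.univ.filter (fun u : Fin 3 → Fin 11 =>
      sN (u 0) + sN (u 1) + (42 - 2 * sN (u 2)) = 38)).card = 79 := by
  rw [card_eq (fun x y z => x + y + (42 - 2 * z))]
  decide +kernel

lemma s_bd (i : Fin 11) : sN i ≤ 21 := by
  revert i; decide

lemma card_le' (a b c : Bool) (k : ℕ) :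
    (Finset.univ.filter (fun u : Fin 3 → Fin 11 =>
      t a (sN (u 0)) + t b (sN (u 1)) + t c (sN (u 2)) = k)).card ≤ 78 := by
  by_cases hk : k < 64
  · rw [card_eq (fun x y z => t a x + t b y + t c z)]
    exact cnt_small a b c k hk
  · rw [Finset.filter_eq_empty_iff.2]
    · simp
    · intro u _ h
      have h0 := s_bd (u 0)
      have h1 := s_bd (u 1)
      have h2 := s_bd (u 2)
      cases a <;> cases b <;> cases c <;> simp only [t, cond_true, cond_false] at h <;> omega

lemma card_le (a b c k : ℤ) (ha : a = 1 ∨ a = -1) (hb : b = 1 ∨ b = -1) (hc : c = 1 ∨ c = -1) :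
    (Finset.univ.filter (fun u : Fin 3 → Fin 11 =>
      a * s (u 0) + b * s (u 1) + c * s (u 2) = k)).card ≤ 78 := by
  refine le_trans (Finset.card_le_card ?_) (card_le' (decide (a = 1)) (decide (b = 1))
    (decide (c = 1)) (k + 21 * ((1 - a) / 2 + (1 - b) / 2 + (1 - c) / 2)).toNat)
  intro u hu
  rw [Finset.mem_filter] at hu ⊢
  refine ⟨Finset.mem_univ _, ?_⟩
  have hu2 := hu.2
  unfold s at hu2
  have h0 := s_bd (u 0)
  have h1 := s_bd (u 1)
  have h2 := s_bd (u 2)
  rcases ha with rfl | rfl <;> rcases hb with rfl | rfl <;> rcases hc with rfl | rfl <;>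
    simp only [t, decide_true, cond_true, show decide ((-1 : ℤ) = 1) = false by decide,
      cond_false] <;> omega

def g : Fin 11 → (Fin 1 → ℤ) := fun i _ => s i

noncomputable def μ : Measure (Fin 1 → ℤ) := (uniformOn (Set.univ : Set (Fin 11))).map g

instance : IsProbabilityMeasure μ :=
  Measure.isProbabilityMeasure_map (measurable_of_finite _).aemeasurable

lemma meas (p : (Fin 3 → Fin 1 → ℤ) → Prop) [DecidablePred p] :
    Measure.pi (fun _ : Fin 3 => μ) {ω | p ω}
      = ((Finset.univ.filter (fun u : Fin 3 → Fin 11 => p (fun i => g (u i)))).card : ENNReal)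
        / 1331 := by
  unfold μ
  rw [← Measure.pi_map_pi (fun _ => (measurable_of_finite _).aemeasurable), ← uniformOn_pi,
    Measure.map_apply (measurable_of_finite _) MeasurableSet.of_discrete]
  have h := uniformOn_apply_finset (s := (Finset.univ : Finset (Fin 3 → Fin 11)))
    (t := Finset.univ.filter (fun u : Fin 3 → Fin 11 => p (fun i => g (u i))))
  simp only [Finset.coe_univ, Finset.coe_filter, Finset.mem_univ, true_and, Finset.univ_inter] at h
  simp only [Set.pi_univ, Set.preimage_ofPred_eq]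
  rw [h]; simp

theorem result :
    ¬ (∀ (n d : ℕ) (μ : Measure (Fin d → ℤ)) [IsProbabilityMeasure μ],
      ∃ w : Fin n → ℤ, (∀ i, w i = 1 ∨ w i = -1) ∧
        ∀ a : Fin n → ℝ, (∀ i, a i ≠ 0) → ∀ x : Fin d → ℝ,
          Measure.pi (fun _ : Fin n => μ)
              {ω : Fin n → Fin d → ℤ | ∑ i, a i • (fun j => ((ω i j : ℤ) : ℝ)) = x}
            ≤ ⨆ k : Fin d → ℤ, Measure.pi (fun _ : Fin n => μ)
              {ω : Fin n → Fin d → ℤ | ∑ i, w i • ω i = k}) := by
  classical
  intro h
  obtain ⟨w, hw, h⟩ := h 3 1 μ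
  have key := h ![1, 1, -2] (by intro i; fin_cases i <;> simp) (fun _ => -4)
  have up : (⨆ k : Fin 1 → ℤ, Measure.pi (fun _ : Fin 3 => μ)
      {ω : Fin 3 → Fin 1 → ℤ | ∑ i, w i • ω i = k}) ≤ (78 : ENNReal) / 1331 := by
    refine iSup_le fun k => ?_
    rw [meas]
    gcongr
    have := card_le (w 0) (w 1) (w 2) (k 0) (hw 0) (hw 1) (hw 2)
    have e : (Finset.univ.filter (fun u : Fin 3 → Fin 11 => ∑ i, w i • g (u i) = k))
        = Finset.univ.filter (fun u : Fin 3 → Fin 11 =>
          w 0 * s (u 0) + w 1 * s (u 1) + w 2 * s (u 2) = k 0) := by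
      refine Finset.filter_congr fun u _ => ?_
      rw [funext_iff, Fin.forall_fin_one]
      simp [Fin.sum_univ_three, g]
    rw [e]
    exact_mod_cast this
  have lo := key.trans up
  rw [meas] at lo
  have e : (Finset.univ.filter (fun u : Fin 3 → Fin 11 =>
        ∑ i, (![1, 1, -2] : Fin 3 → ℝ) i • (fun j => ((g (u i) j : ℤ) : ℝ)) = fun _ => -4))
      = Finset.univ.filter (fun u : Fin 3 → Fin 11 =>
          sN (u 0) + sN (u 1) + (42 - 2 * sN (u 2)) = 38) := by
    refine Finset.filter_congr fun u _ => ?_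
    rw [funext_iff, Fin.forall_fin_one]
    simp only [Fin.sum_univ_three, g, Finset.sum_apply, Pi.smul_apply, smul_eq_mul,
      Matrix.cons_val_zero, Matrix.cons_val_one, Matrix.cons_val]
    have h2 := s_bd (u 2)
    have : (1 * ((s (u 0) : ℤ) : ℝ) + 1 * ((s (u 1) : ℤ) : ℝ) + -2 * ((s (u 2) : ℤ) : ℝ) = -4)
        ↔ 1 * s (u 0) + 1 * s (u 1) + -2 * s (u 2) = -4 := by
      constructor
      · intro hh; exact_mod_cast hh
      · intro hh; exact_mod_cast hh
    rw [this]
    simp only [s]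
    omega
  rw [e, cnt_big] at lo
  have k3 := ENNReal.toReal_mono (ENNReal.div_ne_top (by simp) (by simp)) lo
  simp [ENNReal.toReal_div] at k3
  norm_num at k3

end Pool.Agent.S19204
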