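import Pool.Statements.S19285
import Pool.Agent.H32.Gap

set_option autoImplicit false
open MeasureTheory ProbabilityTheory
open scoped NNReal
open Pool Pool.MP_429aeb_pr

namespace Pool.Agent.S19285

/-- There are positive constants c,k1,k2,k3 such that for m≤n, any m×n Ā with Frobenius norm ≤1, 0<σ≤1, x>1, the probability that Ā plus iid N(0,σ²) noise has minimum relative singular-value gap ≤1/x is at most c n^k1 x^-k2 σ^-k3. -/
theorem result :
    ∃ c k₁ k₂ k₃ : ℝ, 0 < c ∧ 0 < k₁ ∧ 0 < k₂ ∧ 0 < k₃ ∧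
      ∀ m n : ℕ, m ≤ n → ∀ Abar : Matrix (Fin m) (Fin n) ℝ,
        (∑ i, ∑ j, Abar i j ^ 2) ≤ 1 →
        ∀ σ : ℝ≥0, 0 < σ → σ ≤ 1 → ∀ x : ℝ, 1 < x →
          (Measure.pi (fun _ : Fin m => Measure.pi (fun _ : Fin n => gaussianReal 0 (σ ^ 2))))
            {G : Fin m → Fin n → ℝ | ∃ j k : Fin m, j ≠ k ∧
              Real.sqrt ((Matrix.isHermitian_mul_conjTranspose_self (Abar + Matrix.of G)).eigenvalues k)
                ≤ Real.sqrt ((Matrix.isHermitian_mul_conjTranspose_self (Abar + Matrix.of G)).eigenvalues j) ∧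
              Real.sqrt ((Matrix.isHermitian_mul_conjTranspose_self (Abar + Matrix.of G)).eigenvalues j)
                - Real.sqrt ((Matrix.isHermitian_mul_conjTranspose_self (Abar + Matrix.of G)).eigenvalues k)
                ≤ Real.sqrt ((Matrix.isHermitian_mul_conjTranspose_self (Abar + Matrix.of G)).eigenvalues k) / x}
            ≤ ENNReal.ofReal (c * (n : ℝ) ^ k₁ * x ^ (-k₂) * (σ : ℝ) ^ (-k₃)) := by
  refine ⟨6, 3, 1 / 2, 1, by norm_num, by norm_num, by norm_num, by norm_num, ?_⟩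
  intro m n hmn Abar hA σ hσ hσ1 x hx
  refine (Pool.Agent.H32.GM.gap_main hmn Abar hA σ hσ hσ1 x hx _ ?_).trans (le_of_eq ?_)
  · rintro G ⟨j, k, hjk, h1, h2⟩
    set hM := Matrix.isHermitian_mul_conjTranspose_self (Abar + Matrix.of G)
    have hT : (Abar + Matrix.of G).conjTranspose = (Abar + Matrix.of G).transpose :=
      Matrix.conjTranspose_eq_transpose_of_trivial _
    have hpos : ∀ l, 0 ≤ hM.eigenvalues l := fun l =>
      Matrix.eigenvalues_self_mul_conjTranspose_nonneg _ l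
    refine ⟨(hM.eigenvectorBasis j).ofLp, (hM.eigenvectorBasis k).ofLp, _, _, ?_, ?_, ?_, ?_, ?_,
      Real.sqrt_nonneg _, h1, h2⟩
    · rw [Pool.Agent.H32.GM.basis_dot, if_pos rfl]
    · rw [Pool.Agent.H32.GM.basis_dot, if_pos rfl]
    · rw [Pool.Agent.H32.GM.basis_dot, if_neg hjk]
    · rw [Real.sq_sqrt (hpos j), ← hT]; exact hM.mulVec_eigenvectorBasis j
    · rw [Real.sq_sqrt (hpos k), ← hT]; exact hM.mulVec_eigenvectorBasis k
  · congr 1
    have hx0 : 0 ≤ x := by linarith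
    have hs : (0 : ℝ) ≤ σ := σ.2
    rw [Real.rpow_neg hx0, Real.rpow_neg hs, Real.rpow_one, ← Real.sqrt_eq_rpow,
      show (3 : ℝ) = ((3 : ℕ) : ℝ) by norm_num, Real.rpow_natCast]
    ring

end Pool.Agent.S19285
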