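import Pool.Statements.S19308
import Pool.Agent.H32.Lac

set_option autoImplicit false
open Filter Topology MeasureTheory Real
open Pool Pool.MP_4e696d_pr

namespace Pool.Agent.S19308

/-- The negation of the preceding statement: For positive integers a_k with a_{k+1}/a_k tending to a transcendental η>1, the averages (1/n)Σcos(2π a_k ω), ω uniform on [0,1], satisfy an LDP with speed n and the i.i.d. Cramér rate function of cos(2πU). -/
theorem result :
    ¬ (∀ (a : ℕ → ℕ) (η : ℝ), 1 < η → Transcendental ℚ η → (∀ k, 0 < a k) →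
      Tendsto (fun k : ℕ => (a (k + 1) : ℝ) / (a k : ℝ)) atTop (𝓝 η) →
      ((∀ F : Set ℝ, IsClosed F →
          limsup (fun n : ℕ => ((((n : ℝ)⁻¹ : ℝ)) : EReal) *
              ENNReal.log (volume (Set.Icc (0 : ℝ) 1 ∩
                {ω : ℝ | (∑ k ∈ Finset.range n, Real.cos (2 * π * (a k : ℝ) * ω)) / (n : ℝ) ∈ F})))
            atTop
          ≤ - ⨅ x ∈ F, ⨆ l : ℝ,
              (((l * x - Real.log (∫ t in (0 : ℝ)..1, Real.exp (l * Real.cos (2 * π * t)))) : ℝ) : EReal)) ∧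
       (∀ G : Set ℝ, IsOpen G →
          - (⨅ x ∈ G, ⨆ l : ℝ,
              (((l * x - Real.log (∫ t in (0 : ℝ)..1, Real.exp (l * Real.cos (2 * π * t)))) : ℝ) : EReal))
          ≤ liminf (fun n : ℕ => ((((n : ℝ)⁻¹ : ℝ)) : EReal) *
              ENNReal.log (volume (Set.Icc (0 : ℝ) 1 ∩
                {ω : ℝ | (∑ k ∈ Finset.range n, Real.cos (2 * π * (a k : ℝ) * ω)) / (n : ℝ) ∈ G})))
            atTop))) := by
  intro h
  obtain ⟨η, h1, h2, h3⟩ := H32.Lac.ex_eta
  obtain ⟨l, l1, l2⟩ := H32.Lac.ex_l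
  have h4 := (h (fun k => ⌊η ^ k⌋₊) η (by linarith) h3
    (fun k => Nat.floor_pos.2 (one_le_pow₀ (by linarith))) (H32.Lac.ratio h1)).1 (Set.Ici (1 - 1 / l))
    isClosed_Ici
  have h5 := (le_limsup_of_frequently_le (H32.Lac.low h1 h2 l1).frequently).trans h4
  rw [EReal.le_neg, ← EReal.coe_neg, neg_neg] at h5
  refine absurd h5 (not_le.2 ((EReal.coe_lt_coe_iff.2 (show (3 : ℝ) < 4 by norm_num)).trans_le
    (le_iInf₂ fun x hx => le_iSup_of_le l (EReal.coe_le_coe_iff.2 ?_))))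
  have := mul_le_mul_of_nonneg_left (Set.mem_Ici.1 hx) (show 0 ≤ l by linarith)
  rw [mul_sub, mul_one_div_cancel (by linarith)] at this
  linarith

end Pool.Agent.S19308
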