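import Pool.Statements.S19358
import Pool.Agent.H32.Coal

set_option autoImplicit false
open MeasureTheory ProbabilityTheory Filter Topology
open Pool Pool.MP_621202_pr
open scoped ENNReal
open Pool.Agent.H32.PCA

namespace Pool.Agent.S19358

abbrev A := Bool × Fin 3

def occ (l c : A) : Prop := c.2 = 1 ∨ l.2 = 2 ∨ c.1 = true

def nl (c q : A) : Bool := q.1 && decide (c.2 = 0) && decide (q.2 = 0)

open Classical in
noncomputable def rule (l c q : A) : Measure A :=
  if occ l c then coin (nl c q, 1) (nl c q, 2) else Measure.dirac (nl c q, 0)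

instance isProb_rule (l c q : A) : IsProbabilityMeasure (rule l c q) := by
  unfold rule
  split_ifs <;> infer_instance

instance isProb_F (u : N3 → A) : IsProbabilityMeasure (lift3 rule u) := isProb_rule _ _ _

def ok (l c q b : A) : Prop := b.1 = nl c q ∧ (b.2 ≠ 0 ↔ occ l c)

lemma rule_ok (l c q : A) : rule l c q {b | ¬ ok l c q b} = 0 := by
  unfold rule
  split_ifs with h
  · apply coin_null <;> simp [ok, h]
  · simp [ok, h]

lemma rule_half (l c q : A) (k : Fin 3) (hk : k ≠ 0) :
    (rule l c q).real {a | a.2 = k} ≤ 1 / 2 := by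
  unfold rule
  split_ifs with h
  · by_cases h1 : k = 1
    · apply coin_half_right
      simp [h1]
    · apply coin_half_left
      simpa [eq_comm] using h1
  · simp [Measure.real, hk.symm]

lemma rule_zero (x : Z1 → A) (i : ℤ)
    (h : ¬ (phi (fun a : A => a.2) i x ∨ (x (e i)).1 = true)) :
    lift3 rule (fun v : N3 => x (e i + v)) {a | a.2 ≠ 0} = 0 := by
  rw [lift3_apply]
  refine measure_mono_null (fun b hb => ?_) (rule_ok _ _ _)
  intro hok
  apply h
  rcases hok.2.1 hb with h | h | h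
  · exact Or.inl (Or.inl h)
  · exact Or.inl (Or.inr h)
  · exact Or.inr h

def JJ (i : ℤ) : Set (Z1 → A) :=
  {x | ∃ k, i ≤ k ∧ (x (e k)).2 ≠ 0 ∧ ∀ j, i < j → j < k → (x (e j)).1 = false}

lemma measurableSet_JJ (i : ℤ) : MeasurableSet (JJ i) := by
  have : JJ i = ⋃ k, ⋃ (_ : i ≤ k), {x : Z1 → A | (x (e k)).2 ≠ 0} ∩
      ⋂ j, ⋂ (_ : i < j), ⋂ (_ : j < k), {x : Z1 → A | (x (e j)).1 = false} := by
    ext x
    simp only [JJ, Set.mem_ofPred_eq, Set.mem_iUnion, Set.mem_inter_iff, Set.mem_iInter,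
      exists_prop]
  rw [this]
  exact MeasurableSet.iUnion fun k => MeasurableSet.iUnion fun _ =>
    (measurableSet_coord _ fun a : A => a.2 ≠ 0).inter (MeasurableSet.iInter fun j =>
      MeasurableSet.iInter fun _ => MeasurableSet.iInter fun _ =>
        measurableSet_coord _ fun a : A => a.1 = false)

lemma fin3 (c : Fin 3) (h : c ≠ 0) : c = 1 ∨ c = 2 := by
  revert c
  decide

lemma JJ_step (i : ℤ) (x y : Z1 → A) (hx : x ∈ JJ i)
    (h : ∀ i : ℤ, ok (x (e (i - 1))) (x (e i)) (x (e (i + 1))) (y (e i))) :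
    y ∈ JJ i ∧ (y (e i)).1 = false := by
  obtain ⟨k, hik, hk, hj⟩ := hx
  have key : ∀ j, i ≤ j → j ≤ k → (y (e j)).1 = false := by
    intro j h1 h2
    rw [(h j).1, nl]
    rcases lt_trichotomy (j + 1) k with h3 | h3 | h3
    · simp [hj (j + 1) (by omega) h3]
    · rw [h3]
      simp [hk]
    · obtain rfl : j = k := by omega
      simp [hk]
  refine ⟨?_, key i le_rfl hik⟩
  rcases fin3 _ hk with h1 | h1
  · exact ⟨k, hik, (h k).2.2 (Or.inl h1), fun j a b => key j a.le b.le⟩
  · refine ⟨k + 1, by omega, (h (k + 1)).2.2 (Or.inr (Or.inl ?_)),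
      fun j a b => key j a.le (by omega)⟩
    simpa using h1

def Lam (i : ℤ) : Set (Z1 → A) := {x | (x (e i)).1 = true}

lemma measurableSet_Lam (i : ℤ) : MeasurableSet (Lam i) :=
  measurableSet_coord _ fun a : A => a.1 = true

open Classical in
noncomputable def H (i : ℤ) (x : Z1 → A) : ℝ≥0∞ :=
  if x ∈ JJ i then (Lam i).indicator 1 x else 2

lemma measurable_H (i : ℤ) : Measurable (H i) :=
  Measurable.ite (measurableSet_JJ i) (measurable_one.indicator (measurableSet_Lam i))
    measurable_const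

lemma ind_le (C : Set (Z1 → A)) (x : Z1 → A) : C.indicator (1 : (Z1 → A) → ℝ≥0∞) x ≤ 1 :=
  Set.indicator_apply_le' (fun _ => le_rfl) (fun _ => zero_le_one)

lemma H_le (i : ℤ) (x : Z1 → A) : H i x ≤ 2 := by
  unfold H
  split_ifs
  · exact (ind_le _ _).trans one_le_two
  · exact le_rfl

lemma H_step (i : ℤ) (x : Z1 → A) :
    (Lam i).indicator 1 x + T N3 (lift3 rule) (H i) x ≤ H i x := by
  have hae := ae_lift3 rule ok rule_ok x
  by_cases hJ : x ∈ JJ i
  · have : T N3 (lift3 rule) (H i) x = 0 := by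
      refine (lintegral_congr_ae (g := fun _ => 0) ?_).trans lintegral_zero
      filter_upwards [hae] with y hy
      obtain ⟨h1, h2⟩ := JJ_step i x y hJ hy
      have h3 : y ∉ Lam i := by simp [Lam, h2]
      simp [H, h1, h3]
    simp [this, H, hJ]
  · by_cases hL : x ∈ Lam i
    · have : T N3 (lift3 rule) (H i) x ≤ 1 := by
        refine (lintegral_mono_ae (g := fun _ => 1) ?_).trans (by simp)
        filter_upwards [hae] with y hy
        have h1 : y ∈ JJ i := ⟨i, le_rfl, (hy i).2.2 (Or.inr (Or.inr hL)), fun j a b => by omega⟩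
        simp only [H, h1, if_true]
        exact ind_le _ _
      simp only [H, hJ, if_false]
      rw [← one_add_one_eq_two]
      exact add_le_add (ind_le _ _) this
    · have : T N3 (lift3 rule) (H i) x ≤ 2 :=
        (lintegral_mono (g := fun _ => 2) (H_le i)).trans (by simp)
      simpa [H, hJ, hL] using this

lemma Lam_tendsto (μ : Measure (Z1 → A)) [IsProbabilityMeasure μ] (i : ℤ) :
    Tendsto (fun t => (evolve N3 (lift3 rule) t μ).real (Lam i)) atTop (𝓝 0) := by
  have h1 : ∀ n, ∑ t ∈ Finset.range n, evolve N3 (lift3 rule) t μ (Lam i) +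
      ∫⁻ x, H i x ∂(evolve N3 (lift3 rule) n μ) ≤ 2 := by
    intro n
    induction n with
    | zero =>
      simp only [Finset.range_zero, Finset.sum_empty, zero_add]
      exact (lintegral_mono (g := fun _ => 2) (H_le i)).trans (by simp)
    | succ n ih =>
      refine le_trans ?_ ih
      rw [Finset.sum_range_succ, add_assoc, lintegral_evolve_succ _ _ (measurable_H i),
        ← lintegral_indicator_one (measurableSet_Lam i),
        ← lintegral_add_left (measurable_one.indicator (measurableSet_Lam i))]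
      gcongr
      exact H_step i _
  have h2 : ∑' t, evolve N3 (lift3 rule) t μ (Lam i) ≠ ⊤ := by
    refine ne_top_of_le_ne_top (b := 2) (by simp) ?_
    rw [ENNReal.tsum_eq_iSup_nat]
    exact iSup_le fun n => le_self_add.trans (h1 n)
  have h3 := ENNReal.tendsto_atTop_zero_of_tsum_ne_top h2
  exact (ENNReal.tendsto_toReal ENNReal.zero_ne_top).comp h3

lemma LL_tendsto (μ : Measure (Z1 → A)) [IsProbabilityMeasure μ] (a : ℤ) (l : ℕ) :
    Tendsto (fun t => (evolve N3 (lift3 rule) t μ).real (LL (fun b : A => b.1 = true) a l))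
      atTop (𝓝 0) := by
  have h1 := tendsto_finsetSum (Finset.range l) fun (j : ℕ) _ => Lam_tendsto μ (a + j)
  simp only [Finset.sum_const_zero] at h1
  refine squeeze_zero (fun _ => measureReal_nonneg) (fun t => ?_) h1
  refine le_trans (measureReal_mono ?_ (measure_ne_top _ _)) (measureReal_biUnion_finset_le _ _)
  rintro x ⟨j, hj, hx⟩
  exact Set.mem_iUnion₂.2 ⟨j, Finset.mem_range.2 hj, hx⟩

lemma DD_tendsto (μ : Measure (Z1 → A)) [IsProbabilityMeasure μ] (a : ℤ) (l : ℕ) :
    Tendsto (fun t => (evolve N3 (lift3 rule) t μ).real (DD (fun b : A => b.2) a l))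
      atTop (𝓝 0) := by
  have := coal_tendsto N3 (lift3 rule) (fun _ : Unit => μ) (fun b : A => b.2)
    (fun b : A => b.1 = true) rule_zero (fun u => rule_half _ _ _ 1 (by decide))
    (fun u => rule_half _ _ _ 2 (by decide)) (fun a l ε hε => by
      filter_upwards [(LL_tendsto μ a l).eventually (ge_mem_nhds hε)] with t ht _ using ht) a l
  refine tendsto_order.2 ⟨fun b hb => Eventually.of_forall fun t =>
    hb.trans_le measureReal_nonneg, fun b hb => ?_⟩
  filter_upwards [this (b / 2) (by linarith)] with t ht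
  linarith [ht ()]

lemma site_tendsto (μ : Measure (Z1 → A)) [IsProbabilityMeasure μ] (k : Z1) :
    Tendsto (fun t => (evolve N3 (lift3 rule) t μ).real {x | x k ≠ (false, 0)}) atTop (𝓝 0) := by
  obtain ⟨i, rfl⟩ : ∃ i, k = e i := ⟨k 0, (e_eq k).symm⟩
  rw [← tendsto_add_atTop_iff_nat 1]
  have h1 := ((tendsto_add_atTop_iff_nat 1).2 (Lam_tendsto μ i)).add
    ((DD_tendsto μ i 1).add (LL_tendsto μ i 1))
  simp only [add_zero] at h1
  refine squeeze_zero (fun _ => measureReal_nonneg) (fun t => ?_) h1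
  refine le_trans ?_ (add_le_add le_rfl
    (occ_bound N3 (lift3 rule) (fun b : A => b.2) (fun b : A => b.1 = true) rule_zero μ t i))
  refine le_trans (measureReal_mono ?_ (measure_ne_top _ _)) (measureReal_union_le _ _)
  intro x hx
  by_contra hn
  simp only [Lam, Set.mem_union, Set.mem_ofPred_eq, not_or, Bool.not_eq_true, ne_eq,
    not_not] at hn
  exact hx (Prod.ext hn.1 hn.2)

lemma cyl_tendsto (μ : Measure (Z1 → A)) [IsProbabilityMeasure μ] (S : Finset Z1) (a : Z1 → A) :
    Tendsto (fun t => (evolve N3 (lift3 rule) t μ).real (cyl S a)) atTop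
      (𝓝 ((Measure.dirac fun _ => (false, 0)).real (cyl S a))) := by
  have h1 := tendsto_finsetSum S fun k _ => site_tendsto μ k
  simp only [Finset.sum_const_zero] at h1
  rw [tendsto_iff_norm_sub_tendsto_zero]
  exact squeeze_zero (fun _ => norm_nonneg _) (fun t => cyl_bound _ _ S a) h1

def BB (p : ℤ) : Set (Z1 → A) :=
  {x | (x (e p)).1 = true ∧ (∀ i ≤ p, (x (e i)).2 = 0) ∧ ∀ i < p, (x (e i)).1 = false}

lemma measurableSet_BB (p : ℤ) : MeasurableSet (BB p) := by
  have : BB p = Lam p ∩ ((⋂ i, ⋂ (_ : i ≤ p), {x : Z1 → A | (x (e i)).2 = 0}) ∩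
      ⋂ i, ⋂ (_ : i < p), {x : Z1 → A | (x (e i)).1 = false}) := by
    ext x
    simp [BB, Lam]
  rw [this]
  exact (measurableSet_Lam p).inter
    ((MeasurableSet.iInter fun i => MeasurableSet.iInter fun _ =>
      measurableSet_coord _ fun a : A => a.2 = 0).inter
    (MeasurableSet.iInter fun i => MeasurableSet.iInter fun _ =>
      measurableSet_coord _ fun a : A => a.1 = false))

lemma BB_step (p : ℤ) (x y : Z1 → A) (hx : x ∈ BB p)
    (h : ∀ i : ℤ, ok (x (e (i - 1))) (x (e i)) (x (e (i + 1))) (y (e i))) : y ∈ BB (p - 1) := by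
  obtain ⟨h1, h2, h3⟩ := hx
  refine ⟨?_, fun i hi => ?_, fun i hi => ?_⟩
  · rw [(h _).1, nl, sub_add_cancel]
    simp [h1, h2 p le_rfl, h2 (p - 1) (by omega)]
  · by_contra hne
    rcases (h i).2.1 hne with h4 | h4 | h4
    · rw [h2 i (by omega)] at h4
      exact absurd h4 (by decide)
    · rw [h2 (i - 1) (by omega)] at h4
      exact absurd h4 (by decide)
    · rw [h3 i (by omega)] at h4
      exact absurd h4 (by decide)
  · rw [(h _).1, nl]
    simp [h3 (i + 1) (by omega)]

lemma far (n : ℕ) : ∃ x : Z1 → A, (evolve N3 (lift3 rule) n (Measure.dirac x)).real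
    (cyl {e 0} fun _ => (true, 0)) = 1 := by
  refine ⟨fun k => (decide (k 0 = n), 0), ?_⟩
  have h1 := ae_evolve_of N3 (lift3 rule) (fun t : ℕ => BB (n - t)) (fun t => measurableSet_BB _)
    (fun t x hx => by
      filter_upwards [ae_lift3 rule ok rule_ok x] with y hy
      have := BB_step _ x y hx hy
      push_cast
      rwa [← sub_sub]) (Measure.dirac fun k => (decide (k 0 = n), 0))
    ((ae_dirac_iff (measurableSet_BB _)).2 ⟨by simp [e], fun i _ => rfl, fun i hi => by
      simp only [e, decide_eq_false_iff_not]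
      push_cast at hi
      omega⟩) n
  rw [Measure.real, (prob_compl_eq_zero_iff (measurableSet_cyl _ _)).1, ENNReal.toReal_one]
  refine measure_mono_null ?_ h1
  intro y hy hB
  rw [sub_self] at hB
  refine hy fun k hk => ?_
  rw [Finset.mem_singleton.1 hk]
  exact Prod.ext hB.1 (hB.2.1 0 le_rfl)

theorem result :
    ¬ (∀ (d : ℕ) (A : Type) [Fintype A] [MeasurableSpace A] [DiscreteMeasurableSpace A]
    (N : Finset (Fin d → ℤ)) (f : (↥N → A) → ProbabilityMeasure A)
    (κ : Kernel ((Fin d → ℤ) → A) ((Fin d → ℤ) → A)),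
    (∀ x : (Fin d → ℤ) → A,
      κ x = Measure.infinitePi
        (fun k : Fin d → ℤ => ((f (fun v : ↥N => x (k + (v : Fin d → ℤ)))) : Measure A))) →
    (∃ π : Measure ((Fin d → ℤ) → A), IsProbabilityMeasure π ∧
      ∀ μ : Measure ((Fin d → ℤ) → A), IsProbabilityMeasure μ →
        ∀ (S : Finset (Fin d → ℤ)) (a : (Fin d → ℤ) → A),
          Tendsto (fun n : ℕ => ((fun ν : Measure ((Fin d → ℤ) → A) => ν.bind (⇑κ))^[n] μ)
              {x | ∀ k ∈ S, x k = a k})
            atTop (𝓝 (π {x | ∀ k ∈ S, x k = a k}))) →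
    (∃ π : Measure ((Fin d → ℤ) → A), IsProbabilityMeasure π ∧
      ∀ (S : Finset (Fin d → ℤ)) (a : (Fin d → ℤ) → A), ∀ ε : ℝ, 0 < ε →
        ∃ n0 : ℕ, ∀ n : ℕ, n0 ≤ n →
          ∀ μ : Measure ((Fin d → ℤ) → A), IsProbabilityMeasure μ →
            |(((fun ν : Measure ((Fin d → ℤ) → A) => ν.bind (⇑κ))^[n] μ)
                {x | ∀ k ∈ S, x k = a k}).toReal
              - (π {x | ∀ k ∈ S, x k = a k}).toReal| < ε)) := by
  intro h
  obtain ⟨π, -, hπ⟩ := h 1 A N3 (fun u => ⟨lift3 rule u, inferInstance⟩)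
    ⟨ker N3 (lift3 rule), measurable_ker N3 (lift3 rule)⟩ (fun x => rfl)
    ⟨Measure.dirac fun _ => (false, 0), inferInstance, fun μ hμ S a =>
      (ENNReal.tendsto_toReal_iff (fi := atTop)
        (f := fun t => evolve N3 (lift3 rule) t μ (cyl S a)) (fun t => measure_ne_top _ _)
        (measure_ne_top _ _)).1 (cyl_tendsto μ S a)⟩
  obtain ⟨n0, hn0⟩ := hπ {e 0} (fun _ => (true, 0)) (1 / 4) (by norm_num)
  have h1 := cyl_tendsto (Measure.dirac fun _ => (false, 0)) {e 0} (fun _ => (true, 0))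
  have h2 : (Measure.dirac fun _ : Z1 => ((false, 0) : A)).real (cyl {e 0} fun _ => (true, 0)) = 0 := by
    rw [Measure.real, Measure.dirac_apply' _ (measurableSet_cyl _ _)]
    simp [cyl]
  rw [h2] at h1
  obtain ⟨n, hn, hn'⟩ := ((eventually_ge_atTop n0).and
    (h1.eventually (ge_mem_nhds (show (0 : ℝ) < 1 / 4 by norm_num)))).exists
  obtain ⟨x, hx⟩ := far n
  have h3 : |(evolve N3 (lift3 rule) n (Measure.dirac x)).real (cyl {e 0} fun _ => (true, 0)) -
    π.real (cyl {e 0} fun _ => (true, 0))| < 1 / 4 := hn0 n hn (Measure.dirac x) inferInstance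
  have h4 : |(evolve N3 (lift3 rule) n (Measure.dirac fun _ => (false, 0))).real
      (cyl {e 0} fun _ => (true, 0)) - π.real (cyl {e 0} fun _ => (true, 0))| < 1 / 4 :=
    hn0 n hn (Measure.dirac fun _ => (false, 0)) inferInstance
  rw [hx] at h3
  rw [abs_lt] at h3 h4
  linarith [h3.1, h3.2, h4.1, h4.2]

end Pool.Agent.S19358
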