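import Pool.Statements.S19361
import Pool.Agent.Lead.Reimer2

set_option autoImplicit false
open MeasureTheory
open Pool Pool.MP_63e314_pr

namespace Pool.Agent.S19361

/-- For Borel A, B in [0,1]^N with product Lebesgue measure m, the set of points where A and B occur on disjoint (possibly infinite) coordinate sets lies in a Borel set C with m(C) ≤ m(A)m(B). -/
theorem result :
    ∀ A B : Set (ℕ → unitInterval), MeasurableSet A → MeasurableSet B →
      ∃ C : Set (ℕ → unitInterval), MeasurableSet C ∧
        {ω : ℕ → unitInterval | ∃ J K : Set ℕ, Disjoint J K ∧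
            (∀ η : ℕ → unitInterval, (∀ i ∈ J, η i = ω i) → η ∈ A) ∧
            (∀ η : ℕ → unitInterval, (∀ i ∈ K, η i = ω i) → η ∈ B)} ⊆ C ∧
        Measure.infinitePi (fun _ : ℕ => (volume : Measure unitInterval)) C ≤
          Measure.infinitePi (fun _ : ℕ => (volume : Measure unitInterval)) A *
          Measure.infinitePi (fun _ : ℕ => (volume : Measure unitInterval)) B := by
  intro A B _ _
  refine ⟨toMeasurable Pool.Agent.Lead.Reimer.mm (Pool.Agent.Lead.Reimer.box A B),
    measurableSet_toMeasurable _ _, subset_toMeasurable _ _, ?_⟩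
  rw [measure_toMeasurable]
  exact Pool.Agent.Lead.Reimer.bkr A B

end Pool.Agent.S19361
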