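import Pool.Statements.S19386
import Pool.Agent.H32.Queue

set_option autoImplicit false
open Pool Pool.MP_68c8f2_pr
open MeasureTheory ProbabilityTheory
open scoped ENNReal
open Pool.Agent.H32.Queue Pool.Agent.H32.PCA

namespace Pool.Agent.S19386

noncomputable def sv (b : Bool) : ℝ := if b then 5 / 2 else 3 / 2

lemma sv_ge (b : Bool) : 3 / 2 ≤ sv b := by
  cases b <;> norm_num [sv]

abbrev Om := ℕ ⊕ ℕ → Bool

def W (ω : Om) : ℕ → ℕ
  | 0 => 0
  | n + 1 => if ω (Sum.inr n) then W ω n + 1 else W ω n - 1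

def g : ℕ → ℕ
  | 0 => 0
  | w + 1 => 4 * g w + 1

lemma le_g (w : ℕ) : w ≤ g w := by
  induction w with
  | zero => exact le_rfl
  | succ w ih =>
    rw [g]
    omega

lemma g_pred (w : ℕ) : 4 * g (w - 1) ≤ g w := by
  cases w with
  | zero => exact le_rfl
  | succ w => exact Nat.le_succ _

lemma dep (n : ℕ) (f : ℕ → ℝ≥0∞) : DependsOn (fun ω : Om => f (W ω n))
    (((Finset.range n).image Sum.inr : Finset (ℕ ⊕ ℕ)) : Set (ℕ ⊕ ℕ)) := by
  have : ∀ m ≤ n, ∀ x y : Om, (∀ i ∈ (((Finset.range n).image Sum.inr : Finset (ℕ ⊕ ℕ)) :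
      Set (ℕ ⊕ ℕ)), x i = y i) → W x m = W y m := by
    intro m
    induction m with
    | zero => intros; rfl
    | succ m ih =>
      intro hm x y h
      rw [W, W, ih (by omega) x y h, h (Sum.inr m) (by simp; omega)]
  intro x y h
  simp only [this n le_rfl x y h]

lemma dep1 (n : ℕ) (b : Bool) :
    DependsOn ({ω : Om | ω (Sum.inr n) = b}.indicator (1 : Om → ℝ≥0∞))
      (({Sum.inr n} : Finset (ℕ ⊕ ℕ)) : Set (ℕ ⊕ ℕ)) := by
  intro x y h
  have := h (Sum.inr n) (by simp)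
  simp [Set.indicator, this]

lemma step (n : ℕ) (b : Bool) (f : ℕ → ℝ≥0∞) :
    ∫⁻ ω, {ω : Om | ω (Sum.inr n) = b}.indicator 1 ω * f (W ω n) ∂(P _) =
      bern {b} * ∫⁻ ω, f (W ω n) ∂(P _) := by
  rw [← P_one (Sum.inr n : ℕ ⊕ ℕ) b, ← lintegral_indicator_one (mset _ _)]
  exact lintegral_mul_of_disjoint _ (dep1 n b) (dep n f) (by simp) fun _ => true

lemma bound (n : ℕ) : ∫⁻ ω, (g (W ω n) : ℝ≥0∞) ∂(P _) ≤ 4 / 45 := by
  induction n with
  | zero => simp [W, g]
  | succ n ih =>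
    have h1 : ∀ ω : Om, (g (W ω (n + 1)) : ℝ≥0∞) =
        {ω : Om | ω (Sum.inr n) = true}.indicator 1 ω * (4 * (g (W ω n) : ℝ≥0∞) + 1) +
        {ω : Om | ω (Sum.inr n) = false}.indicator 1 ω * (g (W ω n - 1) : ℝ≥0∞) := by
      intro ω
      cases h : ω (Sum.inr n) <;> simp [W, h, g]
    have m1 := measurable_of_dependsOn (dep n fun w => (g w : ℝ≥0∞))
    have m2 := measurable_of_dependsOn (dep n fun w => (g (w - 1) : ℝ≥0∞))
    have h2 : ∫⁻ ω, (g (W ω n - 1) : ℝ≥0∞) ∂(P _) ≤ 4⁻¹ * (4 / 45) := by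
      refine le_trans (lintegral_mono fun ω => ?_)
        ((lintegral_const_mul 4⁻¹ m1).le.trans (by gcongr))
      rw [← ENNReal.mul_le_iff_le_inv (by norm_num) (by norm_num)]
      exact_mod_cast g_pred _
    simp only [h1]
    have m3 : Measurable fun ω : Om => {ω : Om | ω (Sum.inr n) = true}.indicator
        (1 : Om → ℝ≥0∞) ω * (4 * (g (W ω n) : ℝ≥0∞) + 1) :=
      (measurable_one.indicator (mset _ _)).mul ((m1.const_mul 4).add measurable_const)
    rw [lintegral_add_left m3,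
      step n true fun w => 4 * (g w : ℝ≥0∞) + 1, step n false fun w => (g (w - 1) : ℝ≥0∞),
      lintegral_add_left (m1.const_mul 4), lintegral_const_mul 4 m1, bern_true, bern_false]
    calc _ ≤ (20⁻¹ : ℝ≥0∞) * (4 * (4 / 45) + 1) + 19 / 20 * (4⁻¹ * (4 / 45)) := by
          gcongr
          simp
      _ ≤ 4 / 45 := by
          rw [← ENNReal.toReal_le_toReal (by finiteness) (by finiteness),
            ENNReal.toReal_add (by finiteness) (by finiteness)]
          simp only [ENNReal.toReal_mul, ENNReal.toReal_inv, ENNReal.toReal_div]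
          rw [ENNReal.toReal_add (by finiteness) (by finiteness)]
          simp only [ENNReal.toReal_mul, ENNReal.toReal_div]
          norm_num

lemma upper (n : ℕ) : ∫⁻ ω, ENNReal.ofReal ((W ω n : ℝ) / 4) ∂(P _) ≤ 4⁻¹ * (4 / 45) := by
  have m1 := measurable_of_dependsOn (dep n fun w => (g w : ℝ≥0∞))
  refine le_trans (lintegral_mono fun ω => ?_)
    ((lintegral_const_mul 4⁻¹ m1).le.trans (by gcongr; exact bound n))
  rw [ENNReal.ofReal_div_of_pos (by norm_num), ENNReal.ofReal_natCast, ENNReal.div_eq_inv_mul]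
  simp only [ENNReal.ofReal_ofNat]
  gcongr
  exact le_g _

lemma lower : ENNReal.ofReal (1 / 2) * 20⁻¹ ≤
    ∫⁻ ω : Om, ENNReal.ofReal (⨅ i, V (fun n => sv (ω (Sum.inr n))) 2 i) ∂(P _) := by
  rw [← bern_true, ← P_one (Sum.inr 0 : ℕ ⊕ ℕ) true, ← lintegral_indicator_const (mset _ _)]
  refine lintegral_mono fun ω => ?_
  by_cases h : ω (Sum.inr 0) = true
  · rw [Set.indicator_of_mem (by exact h)]
    refine ENNReal.ofReal_le_ofReal (le_ciInf fun j => ?_)
    refine V_step _ 0 0 _ (V_nonneg _ _) (by linarith [sv_ge (ω (Sum.inr (0 + 1)))]) ?_ j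
    norm_num [h, sv]
  · rw [Set.indicator_of_notMem (by exact h)]
    exact zero_le

theorem result :
    ¬ (∀ (k : ℕ), 1 ≤ k →
  ∀ (Ω : Type) [MeasurableSpace Ω] (μ : MeasureTheory.Measure Ω)
    [MeasureTheory.IsProbabilityMeasure μ]
    (T S : ℕ → Ω → ℝ),
    (∀ n, Measurable (T n)) → (∀ n, Measurable (S n)) →
    ProbabilityTheory.iIndepFun (fun i : ℕ ⊕ ℕ => Sum.elim T S i) μ →
    (∀ n, ProbabilityTheory.IdentDistrib (T n) (T 0) μ μ) →
    (∀ n, ProbabilityTheory.IdentDistrib (S n) (S 0) μ μ) →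
    (∀ n ω, 0 ≤ T n ω) → (∀ n ω, 0 ≤ S n ω) →
    MeasureTheory.Integrable (T 0) μ → MeasureTheory.Integrable (S 0) μ →
    (∫ ω, S 0 ω ∂μ) < (k : ℝ) * ∫ ω, T 0 ω ∂μ →
    ∀ (V : ℕ → Ω → Fin k → ℝ) (U : ℕ → Ω → ℝ),
    (∀ ω j, V 0 ω j = 0) →
    (∀ n ω, ∃ i : Fin k, (∀ j, V n ω i ≤ V n ω j) ∧
      ∀ j, V (n + 1) ω j = max 0 (V n ω j + (if j = i then S n ω else 0) - T n ω)) →
    (∀ ω, U 0 ω = 0) →
    (∀ n ω, U (n + 1) ω = max 0 (U n ω + S n ω / (k : ℝ) - T n ω)) →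
    (⨆ n, ∫⁻ ω, ENNReal.ofReal (⨅ j, V n ω j) ∂μ) ≤
      ⨆ n, ∫⁻ ω, ENNReal.ofReal (U n ω) ∂μ) := by
  intro h
  have hE : ∫ ω : Om, sv (ω (Sum.inr 0)) ∂(P _) = 31 / 20 := by
    rw [integral_coord]
    norm_num [sv]
  have hind : iIndepFun (fun i : ℕ ⊕ ℕ => Sum.elim (fun (_ : ℕ) (_ : Om) => (1 : ℝ))
      (fun n ω => sv (ω (Sum.inr n))) i) (P _) := by
    have := iIndepFun_infinitePi (P := fun _ : ℕ ⊕ ℕ => bern)
      (X := fun i b => Sum.elim (fun _ => (1 : ℝ)) (fun _ => sv b) i)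
      fun _ => Measurable.of_discrete
    have e : (fun i : ℕ ⊕ ℕ => Sum.elim (fun (_ : ℕ) (_ : Om) => (1 : ℝ))
        (fun n ω => sv (ω (Sum.inr n))) i) =
        fun i ω => Sum.elim (fun _ => (1 : ℝ)) (fun _ => sv (ω i)) i := by
      funext i
      cases i <;> rfl
    rw [e]
    exact this
  have h1 := h 2 (by norm_num) Om (P _) (fun _ _ => 1) (fun n ω => sv (ω (Sum.inr n)))
    (fun _ => measurable_const) (fun n => meas_coord _ sv) hind
    (fun n => IdentDistrib.refl aemeasurable_const) (fun n => ident _ _ sv)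
    (fun _ _ => zero_le_one) (fun n ω => by linarith [sv_ge (ω (Sum.inr n))])
    (integrable_const _) (memLp_one_iff_integrable.1 (memLp_coord _ sv 1))
    (by rw [hE]; norm_num)
    (fun n ω => V (fun n => sv (ω (Sum.inr n))) n) (fun n ω => (W ω n : ℝ) / 4)
    (fun _ _ => rfl) (fun n ω => V_spec _ n) (fun _ => by simp [W]) (fun n ω => by
      cases hb : ω (Sum.inr n)
      · cases hw : W ω n with
        | zero => norm_num [W, hb, hw, sv]
        | succ w =>
          simp only [W, hb, hw, sv]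
          rw [max_eq_right] <;> norm_num
          · ring
          · linarith [(Nat.cast_nonneg w : (0 : ℝ) ≤ w)]
      · simp only [W, hb, sv]
        rw [max_eq_right] <;> norm_num
        · ring
        · linarith [(Nat.cast_nonneg (W ω n) : (0 : ℝ) ≤ W ω n)])
  have h2 := (lower.trans (le_iSup (fun n => ∫⁻ ω : Om, ENNReal.ofReal
    (⨅ i, V (fun n => sv (ω (Sum.inr n))) n i) ∂(P _)) 2)).trans (h1.trans (iSup_le upper))
  rw [← ENNReal.toReal_le_toReal (by finiteness) (by finiteness)] at h2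
  simp only [ENNReal.toReal_mul, ENNReal.toReal_inv, ENNReal.toReal_div] at h2
  rw [ENNReal.toReal_ofReal (by norm_num)] at h2
  norm_num at h2

end Pool.Agent.S19386
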