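import Pool.Statements.S19424
import Pool.Agent.H32.NilPCA

set_option autoImplicit false
open MeasureTheory Filter Topology
open Pool Pool.MP_798553_pr

namespace Pool.Agent.S19424

/-- The negation of the preceding statement: For every nilpotent cellular automaton on ℤ^d with finite alphabet and every positive cellwise noise matrix, the noisy dynamics (CA then independent noise) has a probability measure to which all initial measures converge weakly. -/
theorem result :
    ¬ (∀ (d q : ℕ) (N : Finset (Fin d → ℤ)) (f : (N → Fin q) → Fin q)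
    (F : ((Fin d → ℤ) → Fin q) → ((Fin d → ℤ) → Fin q)),
    (∀ x i, F x i = f (fun v => x (i + v.1))) →
    (∃ n : ℕ, ∃ a : Fin q, ∀ x, F^[n] x = fun _ => a) →
    ∀ θ : Fin q → PMF (Fin q), (∀ a b, θ a b ≠ 0) →
    ∃ ν : Measure ((Fin d → ℤ) → Fin q), IsProbabilityMeasure ν ∧
      ∀ μ : Measure ((Fin d → ℤ) → Fin q), IsProbabilityMeasure μ →
        ∀ (S : Finset (Fin d → ℤ)) (c : (Fin d → ℤ) → Fin q),
          Tendsto (fun n : ℕ =>
              ((fun m : Measure ((Fin d → ℤ) → Fin q) =>
                  m.bind (fun x => Measure.infinitePi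
                    (fun i : Fin d → ℤ => (θ (F x i)).toMeasure)))^[n] μ)
                {y | ∀ i ∈ S, y i = c i})
            atTop (𝓝 (ν {y | ∀ i ∈ S, y i = c i}))) := by
  intro H
  obtain ⟨ν, hν, h⟩ := H 2 6 H32.Peierls.NN H32.Peierls.rule
    (fun x i => H32.Peierls.rule fun v => x (i + v.1)) (fun _ _ => rfl)
    ⟨2, 1, fun x => funext fun i =>
      H32.Peierls.rule_dead (u := fun v => H32.Peierls.rule fun w => x (i + v.1 + w.1))
        fun v => H32.Peierls.rule_ne _⟩
    H32.Peierls.th (fun a b => by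
      simpa [H32.Peierls.th] using (H32.Peierls.wt_pos a b).ne')
  have hs : {y : (Fin 2 → ℤ) → Fin 6 | ∀ i ∈ ({0} : Finset (Fin 2 → ℤ)), y i = 0} =
      {y | H32.Peierls.pr false (y 0) = true} := by
    ext y
    simp [H32.Peierls.pr]
  have hc : {y : (Fin 2 → ℤ) → Fin 6 | H32.Peierls.pr true (y 0) = true} =
      {y | H32.Peierls.pr false (y 0) = true}ᶜ := by
    ext y
    simp [H32.Peierls.pr]
  have hm : MeasurableSet {y : (Fin 2 → ℤ) → Fin 6 | H32.Peierls.pr false (y 0) = true} :=
    measurable_pi_apply (X := fun _ : Fin 2 → ℤ => Fin 6) 0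
      (MeasurableSet.of_discrete (s := {a | H32.Peierls.pr false a = true}))
  have h1 := h (Measure.dirac fun _ => H32.Peierls.gd false) inferInstance {0} fun _ => 0
  have h2 := h (Measure.dirac fun _ => H32.Peierls.gd true) inferInstance {0} fun _ => 0
  rw [hs] at h1 h2
  have k1 := le_of_tendsto' h1 fun t => H32.Peierls.bad_le false t
  have k2 := ge_of_tendsto' (b := 1 - 4⁻¹) h2 fun t => by
    have := H32.Peierls.bad_le true t
    rw [hc, prob_compl_eq_one_sub hm] at this
    exact tsub_le_iff_tsub_le.1 this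
  have k3 := tsub_le_iff_right.1 (k2.trans k1)
  have e1 : (4 : ENNReal)⁻¹ = ((4⁻¹ : NNReal) : ENNReal) := by simp
  rw [e1, ← ENNReal.coe_add, ← ENNReal.coe_one, ENNReal.coe_le_coe, ← NNReal.coe_le_coe] at k3
  norm_num at k3

end Pool.Agent.S19424
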