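import Pool.Statements.S19429
import Pool.Agent.H32.Cond3

set_option autoImplicit false
open MeasureTheory ProbabilityTheory
open Pool Pool.MP_7b591b_pr

namespace Pool.Agent.S19429

/-- There is an absolute constant C with this property: for every real n×n matrix Ā of spectral norm ≤ √n, every σ in (0,1] and every x > 0, the probability that Ā+σG (G i.i.d. standard Gaussian) has condition number ≥ x, counting singular as infinite, is at most Cn/(xσ). -/
theorem result :
    ∃ C : ℝ, 0 < C ∧
      ∀ n : ℕ, 1 ≤ n →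
        ∀ Abar : Matrix (Fin n) (Fin n) ℝ,
          ‖Matrix.toEuclideanCLM (𝕜 := ℝ) Abar‖ ≤ Real.sqrt n →
          ∀ σ : ℝ, 0 < σ → σ ≤ 1 →
            ∀ x : ℝ, 0 < x →
              (Measure.pi (fun _ : Fin n =>
                  Measure.pi (fun _ : Fin n => gaussianReal 0 1)))
                {G : Fin n → Fin n → ℝ |
                  (Abar + σ • Matrix.of G).det = 0 ∨
                  x ≤ ‖Matrix.toEuclideanCLM (𝕜 := ℝ) (Abar + σ • Matrix.of G)‖ *
                      ‖Matrix.toEuclideanCLM (𝕜 := ℝ) (Abar + σ • Matrix.of G)⁻¹‖}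
                ≤ ENNReal.ofReal (C * n / (x * σ)) := by
  exact ⟨4352, by norm_num, fun n hn Abar hA σ hσ hσ1 x hx =>
    Pool.Agent.H32.GM.cond_main hn Abar hA σ hσ hσ1 x hx⟩

end Pool.Agent.S19429
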