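import Pool.Statements.S19478
import Pool.Agent.H32.Renyi2

set_option autoImplicit false
open MeasureTheory
open scoped ENNReal Pointwise
open Pool Pool.MP_91dfc6_pr

namespace Pool.Agent.S19478

/-- The negation of the preceding statement: For every n≥1, p in [0,∞], κ in [−∞,1/n] and every symmetric κ-concave probability law on ℝⁿ with a density whose marginals v·X have p-Rényi entropy power in (0,∞), the map v ↦ N_p(v·X)^{1/2} (0 at v=0) is a norm. -/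
theorem result :
    ¬ (∀ (n : ℕ), 1 ≤ n →
  ∀ (p : ℝ≥0∞) (κ : EReal), κ ≤ (((1 : ℝ) / (n : ℝ) : ℝ) : EReal) →
  ∀ (μ : Measure (Fin n → ℝ)), IsProbabilityMeasure μ → μ ≪ volume →
  μ.map (fun x => -x) = μ →
  (∀ (A B : Set (Fin n → ℝ)), MeasurableSet A → MeasurableSet B → A.Nonempty → B.Nonempty →
    ∀ t : ℝ, 0 ≤ t → t ≤ 1 →
      (κ = ⊥ → min (μ A) (μ B) ≤ μ (t • A + (1 - t) • B)) ∧
      (κ = 0 → ENNReal.ofReal ((μ A).toReal ^ t * (μ B).toReal ^ (1 - t))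
                  ≤ μ (t • A + (1 - t) • B)) ∧
      (κ ≠ ⊥ → κ ≠ 0 → (0 < κ ∨ (0 < μ A ∧ 0 < μ B)) →
        ENNReal.ofReal ((t * (μ A).toReal ^ κ.toReal + (1 - t) * (μ B).toReal ^ κ.toReal)
                          ^ (1 / κ.toReal))
          ≤ μ (t • A + (1 - t) • B))) →
  ∀ (g : (Fin n → ℝ) → ℝ → ℝ≥0∞),
    (∀ v : Fin n → ℝ, v ≠ 0 → Measurable (g v) ∧
      μ.map (fun x => ∑ i, v i * x i) = (volume : Measure ℝ).withDensity (g v)) →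
  ∀ (N : (Fin n → ℝ) → ℝ≥0∞),
    (p = 0 → ∀ v, N v = (volume {x : ℝ | 0 < g v x}) ^ 2) →
    (p = 1 → ∀ v,
      (Integrable (fun x => (g v x).toReal * Real.log (g v x).toReal) →
        N v = ENNReal.ofReal (Real.exp (-2 * ∫ x, (g v x).toReal * Real.log (g v x).toReal))) ∧
      (¬ Integrable (fun x => (g v x).toReal * Real.log (g v x).toReal) → N v = 0)) →
    (p = ⊤ → ∀ v, N v = (essSup (g v) volume) ^ (-2 : ℝ)) →
    (p ≠ 0 → p ≠ 1 → p ≠ ⊤ → ∀ v,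
      N v = (∫⁻ x, g v x ^ p.toReal) ^ (2 / (1 - p.toReal))) →
    (∀ v : Fin n → ℝ, v ≠ 0 → 0 < N v ∧ N v < ⊤) →
  ∀ (nrm : (Fin n → ℝ) → ℝ),
    (∀ v, (v = 0 → nrm v = 0) ∧ (v ≠ 0 → nrm v = Real.sqrt (N v).toReal)) →
    (∀ u v : Fin n → ℝ, nrm (u + v) ≤ nrm u + nrm v) ∧
    (∀ (c : ℝ) (v : Fin n → ℝ), nrm (c • v) = |c| * nrm v) ∧
    (∀ v : Fin n → ℝ, nrm v = 0 → v = 0)) := by
  intro H
  open Pool.Agent.H32.Renyi in
  have eN : ∀ v : Fin 2 → ℝ, (∫⁻ x, gg v x ^ (2 : ℝ≥0∞).toReal) ^ (2 / (1 - (2 : ℝ≥0∞).toReal))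
      = (∫⁻ x, gg v x ^ 2)⁻¹ ^ 2 := by
    intro v
    have e1 : (2 / (1 - (2 : ℝ≥0∞).toReal) : ℝ) = -((2 : ℕ) : ℝ) := by norm_num
    have e2 : (2 : ℝ≥0∞).toReal = ((2 : ℕ) : ℝ) := by norm_num
    rw [e1, ENNReal.rpow_neg, ENNReal.rpow_natCast, ENNReal.inv_pow]
    simp only [e2, ENNReal.rpow_natCast]
  classical
  open Pool.Agent.H32.Renyi in
  have h := (H 2 (by norm_num) 2 ⊥ bot_le mu2 inferInstance mu2_ac mu2_neg
    (fun A B hA hB hA0 hB0 t ht ht1 => ⟨fun _ => mu2_convex hA hB hA0 hB0 ht ht1,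
      fun h => absurd h (by simp), fun h => absurd rfl h⟩)
    gg (fun v hv => ⟨Measure.measurable_rnDeriv _ _, (gg_spec v hv).1⟩)
    (fun v => (∫⁻ x, gg v x ^ 2)⁻¹ ^ 2) (fun h => absurd h (by norm_num))
    (fun h => absurd h (by norm_num)) (fun h => absurd h (by norm_num))
    (fun _ _ _ v => (eN v).symm)
    (fun v hv => ⟨ENNReal.pow_pos (ENNReal.inv_pos.2 (gg_spec v hv).2.2.ne) _,
      ENNReal.pow_lt_top (ENNReal.inv_lt_top.2 (gg_spec v hv).2.1)⟩)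
    (fun v => if v = 0 then 0 else Real.sqrt ((∫⁻ x, gg v x ^ 2)⁻¹ ^ 2).toReal)
    (fun v => ⟨fun h => if_pos h, fun h => if_neg h⟩)).1 ![1, 0] ![0, 1]
  have e : (![1, 0] + ![0, 1] : Fin 2 → ℝ) = ![1, 1] := by
    ext i; fin_cases i <;> simp
  have n1 : (![1, 1] : Fin 2 → ℝ) ≠ 0 := fun h => by simpa using congrFun h 0
  have n2 : (![1, 0] : Fin 2 → ℝ) ≠ 0 := fun h => by simpa using congrFun h 0
  have n3 : (![0, 1] : Fin 2 → ℝ) ≠ 0 := fun h => by simpa using congrFun h 1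
  simp only [e, if_neg n1, if_neg n2, if_neg n3, ENNReal.toReal_pow,
    Real.sqrt_sq ENNReal.toReal_nonneg] at h
  open Pool.Agent.H32.Renyi in
  have f1 := (ENNReal.inv_lt_top.2 (gg_spec _ n1).2.1).ne
  open Pool.Agent.H32.Renyi in
  have f2 := (ENNReal.inv_lt_top.2 (gg_spec _ n2).2.1).ne
  open Pool.Agent.H32.Renyi in
  have f3 := (ENNReal.inv_lt_top.2 (gg_spec _ n3).2.1).ne
  rw [← ENNReal.toReal_add f2 f3, ENNReal.toReal_le_toReal f1 (ENNReal.add_ne_top.2 ⟨f2, f3⟩)] at h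
  exact Pool.Agent.H32.Renyi.key2 h

end Pool.Agent.S19478
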