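import Pool.Statements.S19482
import Pool.Agent.H32.Rdv

set_option autoImplicit false
open MeasureTheory
open Pool Pool.MP_925b40_pr

namespace Pool.Agent.S19482

open Pool.Agent.H32.Rdv in
def st : Fin 7 → ℕ → Bool := fun i j =>
  (![[true, true, true, true, true], [true, true, false, false, false],
    [true, false, true, false, true], [false, true, true, true, false],
    [false, false, true, false, false], [false, false, false, true, true],
    [false, false, false, false, false]] i : List Bool).getD j false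

def wt : Fin 7 → ℕ := ![17, 17, 14, 14, 8, 17, 13]

open Pool.Agent.H32.Rdv in
lemma tot : ∑ i, ∑ j, wt i * wt j * (cA 5 (st i) (st j) + cB 5 (st i) (st j)) = 59444 := by
  decide +kernel

/-- The negation of the preceding statement: On the directed unit circle with uniform random rotation, no mixed speed-1 strategy used by both players gives a smaller expected meeting time than the coin-half-tour strategy (random direction per half-circle), so CO-HA-TO is optimal symmetric. -/
theorem result :
    ¬ (∀ μ : @Measure C(NNReal, UnitAddCircle) (borel C(NNReal, UnitAddCircle)),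
      IsProbabilityMeasure μ →
      (∀ᵐ (f : C(NNReal, UnitAddCircle)) ∂μ, LipschitzWith 1 (⇑f) ∧ f 0 = 0) →
      (∫⁻ ω₁ : ℕ → Bool,
          (∫⁻ ω₂ : ℕ → Bool,
              (∫⁻ a : UnitAddCircle,
                ⨅ (τ : NNReal)
                  (_ : a + (((∑ j ∈ Finset.range ⌊2 * (τ : ℝ)⌋₊,
                              (if ω₁ j then (1 / 2 : ℝ) else -1 / 2))
                            + (if ω₁ ⌊2 * (τ : ℝ)⌋₊ then (1 : ℝ) else -1)
                              * ((τ : ℝ) - (⌊2 * (τ : ℝ)⌋₊ : ℝ) / 2) : ℝ) : UnitAddCircle)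
                      = (((∑ j ∈ Finset.range ⌊2 * (τ : ℝ)⌋₊,
                              (if ω₂ j then (1 / 2 : ℝ) else -1 / 2))
                            + (if ω₂ ⌊2 * (τ : ℝ)⌋₊ then (1 : ℝ) else -1)
                              * ((τ : ℝ) - (⌊2 * (τ : ℝ)⌋₊ : ℝ) / 2) : ℝ) : UnitAddCircle)),
                  ((τ : ENNReal)))
            ∂(Measure.infinitePi (fun _ : ℕ => (PMF.uniformOfFintype Bool).toMeasure)))
        ∂(Measure.infinitePi (fun _ : ℕ => (PMF.uniformOfFintype Bool).toMeasure)))
      ≤ ∫⁻ (f : C(NNReal, UnitAddCircle)), (∫⁻ (g : C(NNReal, UnitAddCircle)),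
            (∫⁻ a : UnitAddCircle,
              ⨅ (τ : NNReal) (_ : a + f τ = g τ), ((τ : ENNReal))) ∂μ) ∂μ) := by
  intro h
  have h1 := h (H32.Rdv.mix 5 st wt) (H32.Rdv.mix_prob 5 st wt (by decide))
    (H32.Rdv.mix_ae 5 st wt)
  have h2 := H32.Rdv.lint2_mix_le 5 st wt
    (fun f g => ∫⁻ a : UnitAddCircle, ⨅ (τ : NNReal) (_ : a + f τ = g τ), ((τ : ENNReal)))
    (fun i j => H32.Rdv.cA 5 (st i) (st j) + H32.Rdv.cB 5 (st i) (st j)) 8
    (fun i j ω1 => H32.Rdv.pair_le 5 (st i) (st j) ω1)
  rw [tot] at h2
  have h3 := lintegral_mono (μ := H32.Rdv.coins) H32.Rdv.co_lint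
  have h4 := h3.trans (h1.trans h2)
  rw [lintegral_const, measure_univ, mul_one, ENNReal.le_div_iff_mul_le (by norm_num) (by norm_num),
    mul_comm (10000 : ENNReal) 8, ← mul_assoc, ENNReal.div_mul_cancel (by norm_num) (by norm_num)] at h4
  norm_num at h4

end Pool.Agent.S19482
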