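import Pool.Statements.S19489
import Pool.Agent.H32.FM2

set_option autoImplicit false
open Classical
open Pool Pool.MP_9492fd_pr

namespace Pool.Agent.S19489

/-- In the n-species TASEP on a ring of n sites (larger species at a site swaps with a smaller one to its right at rate 1), any stationary law gives probability 1/n^r that sites 1..r carry i_1..i_r whenever i_a+1<i_{a+1}. -/
theorem result :
    ∀ n : ℕ, ∀ π : Equiv.Perm (Fin n) → ℝ,
      (∀ σ, 0 ≤ π σ) →
      (∑ σ, π σ) = 1 →
      (∀ σ : Equiv.Perm (Fin n),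
        (∑ k : Fin n, (if σ (finRotate n k) < σ k then π σ else 0)) =
          ∑ k : Fin n, (if σ k < σ (finRotate n k)
            then π (σ * Equiv.swap k (finRotate n k)) else 0)) →
      ∀ r : ℕ, r ≤ n →
      ∀ i : Fin r → Fin n,
        (∀ a b : Fin r, a.val + 1 = b.val → (i a).val + 1 < (i b).val) →
        (∑ σ ∈ Finset.univ.filter
            (fun σ : Equiv.Perm (Fin n) =>
              ∀ p : Fin n, ∀ a : Fin r, p.val = a.val → σ p = i a),
          π σ) = 1 / (n : ℝ) ^ r := by
  intro n π _ h0 h r hr i hi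
  rcases Nat.eq_zero_or_pos r with rfl | hp
  · simpa using h0
  obtain ⟨N, rfl⟩ : ∃ N, n = N + 1 := ⟨n - 1, by omega⟩
  have h1 := H32.FM.last (H32.FM.stat (π := π) h)
  let I : Fin (N + 1) → ℕ := fun a => if ha : a.1 < r then i ⟨a, ha⟩ else 0
  have h2 : ∀ d (a b : Fin r), a.1 + d + 1 = b → (i a).1 + 1 < i b := by
    intro d
    induction d with
    | zero => exact hi
    | succ d ih =>
      intro a b e
      have := ih a ⟨a.1 + d + 1, by omega⟩ rfl
      have := hi ⟨a.1 + d + 1, by omega⟩ b (by simp only; omega)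
      omega
  have h3 : ∀ s ≤ r, ∑ τ : Equiv.Perm (Fin (N + 1)),
      π τ * (if ∀ a : Fin (N + 1), a.1 < s → (τ a : ℕ) = I a then 1 else 0) = 1 / (N + 1) ^ s := by
    intro s
    induction s with
    | zero => simpa using h0
    | succ s ih =>
      intro hs
      have := h1 ⟨s, by omega⟩ I (i ⟨s, hs⟩) fun a ha => by
        have ha' : a.1 < s := ha
        simp only [I, dif_pos (show a.1 < r by omega)]
        exact h2 (s - a.1 - 1) _ _ (by simp only; omega)
      simp only [Fin.lt_def] at this
      rw [ih (by omega), one_div_mul_one_div, ← pow_succ'] at this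
      rw [← this]
      refine Finset.sum_congr rfl fun τ _ => congrArg _ (if_congr ⟨fun c => ⟨fun a ha => c a (by omega),
        Fin.ext ((c _ (by simp)).trans (by simp [I, Nat.lt_of_succ_le hs]))⟩, fun c a ha => ?_⟩ rfl rfl)
      rcases Nat.lt_succ_iff_lt_or_eq.1 ha with k | k
      · exact c.1 a k
      · subst k
        rw [show τ a = _ from c.2]
        simp [I, Nat.lt_of_succ_le hs]
  push_cast
  rw [← h3 r le_rfl, Finset.sum_filter]
  refine Finset.sum_congr rfl fun τ _ => ?_
  rw [mul_ite, mul_one, mul_zero]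
  refine if_congr ⟨fun c a ha => ?_, fun c p a e => Fin.ext ?_⟩ rfl rfl
  · rw [c a ⟨a, ha⟩ rfl]
    simp [I, ha]
  · rw [c p (e ▸ a.2)]
    simp [I, e]

end Pool.Agent.S19489
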