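import Pool.Statements.S19536

set_option autoImplicit false
open MeasureTheory
open Pool Pool.MP_a24ad1_pr
open Filter Topology

namespace Pool.Agent.S19536

instance fact3 : Fact (Nat.Prime 3) := ⟨by norm_num⟩

abbrev Om := ℤ_[3]

noncomputable instance measOm : MeasurableSpace Om := borel _

instance borelOm : BorelSpace Om := ⟨rfl⟩

noncomputable def mu : Measure Om := Measure.addHaarMeasure ⊤

instance probMu : IsProbabilityMeasure mu := ⟨Measure.addHaarMeasure_self⟩

instance haarMu : mu.IsAddHaarMeasure := by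
  unfold mu
  infer_instance

noncomputable def th (x : Om) : Om := 1 + x

lemma erg : Ergodic th mu :=
  ergodic_add_left_of_denseRange_zsmul (g := (1 : Om))
    (by simpa using PadicInt.denseRange_intCast (p := 3)) mu

lemma th_iter (n : ℕ) (x : Om) : th^[n] x = n + x := by
  induction n with
  | zero => simp
  | succ n ih =>
    rw [Function.iterate_succ_apply', ih, th]
    push_cast
    ring

noncomputable def ph (x : Om) : ZMod 3 := PadicInt.toZMod x

lemma ph_th (x : Om) : ph (th x) = ph x + 1 := by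
  simp [ph, th, add_comm]

lemma mset (r : ZMod 3) : MeasurableSet {x | ph x = r} := by
  have : {x | ph x = r} = Metric.ball (r.val : Om) 1 := by
    ext x
    rw [Metric.mem_ball, dist_eq_norm, ← PadicInt.mem_nonunits, ← IsLocalRing.mem_maximalIdeal,
      ← PadicInt.ker_toZMod, RingHom.mem_ker]
    simp [ph, sub_eq_zero]
  rw [this]
  exact Metric.isOpen_ball.measurableSet

lemma third (r : ZMod 3) : 1 / 3 ≤ mu.real {x | ph x = r} := by
  have h1 : ∀ r, mu.real {x | ph x = r + 1} = mu.real {x | ph x = r} := by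
    intro r
    rw [← erg.toMeasurePreserving.measureReal_preimage (mset _).nullMeasurableSet]
    congr 1
    ext x
    simp [ph_th]
  have h2 : (Set.univ : Set Om) ⊆ {x | ph x = r} ∪ {x | ph x = r + 1} ∪ {x | ph x = r + 1 + 1} := by
    intro x _
    have : ∀ a b : ZMod 3, (a = b ∨ a = b + 1) ∨ a = b + 1 + 1 := by decide
    exact this _ _
  have h3 := (measureReal_mono (μ := mu) h2).trans ((measureReal_union_le _ _).trans
    (add_le_add (measureReal_union_le _ _) le_rfl))
  rw [h1 (r + 1), h1 r, probReal_univ] at h3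
  linarith

open Classical in
noncomputable def g (x : Om) : ℝ := if x = 0 then 1 else ‖x‖

lemma g_pos (x : Om) : 0 < g x := by
  unfold g
  split_ifs with h
  · exact one_pos
  · exact norm_pos_iff.2 h

lemma g_le (x : Om) : g x ≤ 1 := by
  unfold g
  split_ifs
  · exact le_rfl
  · exact PadicInt.norm_le_one x

noncomputable def sg (x : Om) : ℝ := if ph x = 0 then 2 - g x else if ph x = 1 then 2 else 5

noncomputable def tt (x : Om) : ℝ := if ph x = 2 then 5 else 0

lemma tt_eq : tt = {x | ph x = 2}.indicator fun _ => 5 := by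
  funext x
  simp [tt, Set.indicator]

lemma sg_le (x : Om) : 0 ≤ sg x ∧ sg x ≤ 2 + 3 / 5 * tt x := by
  have h : ∀ a : ZMod 3, a ≠ 0 → a ≠ 1 → a = 2 := by decide
  have h1 := g_pos x
  have h2 := g_le x
  unfold sg tt
  split_ifs with a b c d e
  all_goals first | (constructor <;> linarith) | exact absurd (h _ a c) e

lemma int_tt : Integrable tt mu := by
  rw [tt_eq]
  exact (integrable_const _).indicator (mset 2)

lemma int_sg : Integrable sg mu := by
  have hg : Measurable g :=
    Measurable.ite (measurableSet_singleton 0) measurable_const measurable_norm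
  have hm : Measurable sg := Measurable.ite (mset 0) (measurable_const.sub hg)
    (Measurable.ite (mset 1) measurable_const measurable_const)
  refine Integrable.mono' ((integrable_const 2).add (int_tt.const_mul (3 / 5)))
    hm.aestronglyMeasurable (ae_of_all _ fun x => ?_)
  rw [Real.norm_of_nonneg (sg_le x).1]
  exact (sg_le x).2

noncomputable def W : ℕ → Om → Fin (1 + 1) → ℝ
  | 0, _ => 0
  | n + 1, ω => fun i : Fin (1 + 1) =>
      max ((W n ω + (Pi.single 0 (sg (th^[n] ω)) : Fin (1 + 1) → ℝ)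
                - (fun _ : Fin (1 + 1) => tt (th^[n] ω)))
              (Tuple.sort (W n ω + (Pi.single 0 (sg (th^[n] ω)) : Fin (1 + 1) → ℝ)
                - (fun _ : Fin (1 + 1) => tt (th^[n] ω))) i)) 0

lemma sort_two (v : Fin (1 + 1) → ℝ) :
    v (Tuple.sort v 0) = min (v 0) (v 1) ∧ v (Tuple.sort v 1) = max (v 0) (v 1) := by
  have h1 : v (Tuple.sort v 0) ≤ v (Tuple.sort v 1) := Tuple.monotone_sort v (by decide)
  have h2 : Tuple.sort v 0 ≠ Tuple.sort v 1 := (Tuple.sort v).injective.ne (by decide)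
  have h3 : ∀ a b : Fin (1 + 1), a ≠ b → (a = 0 ∧ b = 1) ∨ (a = 1 ∧ b = 0) := by decide
  rcases h3 _ _ h2 with ⟨a, b⟩ | ⟨a, b⟩ <;> rw [a, b] at h1 ⊢
  · exact ⟨(min_eq_left h1).symm, (max_eq_right h1).symm⟩
  · exact ⟨(min_eq_right h1).symm, (max_eq_left h1).symm⟩

lemma W_succ (n : ℕ) (x : Om) :
    W (n + 1) x 0 = max (min (W n x 0 + sg (th^[n] x) - tt (th^[n] x)) (W n x 1 - tt (th^[n] x))) 0 ∧
    W (n + 1) x 1 = max (max (W n x 0 + sg (th^[n] x) - tt (th^[n] x)) (W n x 1 - tt (th^[n] x))) 0 := by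
  constructor
  · refine (congrArg (max · 0) (sort_two _).1).trans ?_
    simp
  · refine (congrArg (max · 0) (sort_two _).2).trans ?_
    simp

noncomputable def a (x : Om) : ℕ → ℝ
  | 0 => 0
  | n + 1 => if ph (th^[n] x) = 0 then max (2 - g (th^[n] x)) (a x n) else a x n

lemma a_mono (x : Om) : Monotone (a x) := by
  refine monotone_nat_of_le_succ fun n => ?_
  rw [a]
  split_ifs
  · exact le_max_right _ _
  · exact le_rfl

lemma a_lt (x : Om) (n : ℕ) : a x n < 2 := by
  induction n with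
  | zero => norm_num [a]
  | succ n ih =>
    rw [a]
    split_ifs
    · exact max_lt (by linarith [g_pos (th^[n] x)]) ih
    · exact ih

lemma inv (x : Om) (n : ℕ) :
    (ph (th^[n] x) = 0 → W n x 0 = 0 ∧ W n x 1 = a x n) ∧
    (ph (th^[n] x) = 1 → 0 ≤ W n x 0 ∧ W n x 0 ≤ 2 ∧ W n x 1 = a x n) ∧
    (ph (th^[n] x) = 2 → W n x 0 = a x n ∧ W n x 1 ≤ 5) := by
  induction n with
  | zero => simp [W, a]
  | succ n ih =>
    obtain ⟨i0, i1, i2⟩ := ih
    obtain ⟨e0, e1⟩ := W_succ n x
    have b0 : 0 ≤ a x n := a_mono x (Nat.zero_le n)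
    have b1 := a_lt x n
    have g0 := g_pos (th^[n] x)
    have g1 := g_le (th^[n] x)
    rw [Function.iterate_succ_apply', ph_th]
    refine ⟨fun h => ?_, fun h => ?_, fun h => ?_⟩
    · have h2 : ph (th^[n] x) = 2 := by
        revert h
        generalize ph (th^[n] x) = r
        revert r
        decide
      obtain ⟨c0, c1⟩ := i2 h2
      have n0 : ¬ (2 : ZMod 3) = 0 := by decide
      have n1 : ¬ (2 : ZMod 3) = 1 := by decide
      simp only [sg, tt, h2, n0, n1, if_true, if_false, c0, add_sub_cancel_right] at e0 e1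
      rw [e0, e1, a, h2, if_neg n0, min_eq_right (by linarith), max_eq_right (by linarith),
        max_eq_left (a := a x n) (by linarith), max_eq_left b0]
      exact ⟨rfl, rfl⟩
    · have h2 : ph (th^[n] x) = 0 := by simpa using h
      obtain ⟨c0, c1⟩ := i0 h2
      have n0 : ¬ (0 : ZMod 3) = 2 := by decide
      simp only [sg, tt, h2, n0, if_true, if_false, c0, c1, zero_add, sub_zero] at e0 e1
      rw [e0, e1, a, if_pos h2]
      exact ⟨le_max_right _ _, max_le ((min_le_right _ _).trans b1.le) (by norm_num),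
        max_eq_left (b0.trans (le_max_right _ _))⟩
    · have h2 : ph (th^[n] x) = 1 := by
        revert h
        generalize ph (th^[n] x) = r
        revert r
        decide
      obtain ⟨c0, c1, c2⟩ := i1 h2
      have n0 : ¬ (1 : ZMod 3) = 0 := by decide
      have n1 : ¬ (1 : ZMod 3) = 2 := by decide
      simp only [sg, tt, h2, n0, n1, if_true, if_false, c2, sub_zero] at e0 e1
      rw [e0, e1, a, h2, if_neg n0, min_eq_right (by linarith), max_eq_left b0]
      exact ⟨rfl, max_le (max_le (by linarith) (by linarith)) (by norm_num)⟩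

lemma close (δ : ℝ) (hδ : 0 < δ) : ∃ N : ℕ, ∀ x, ∀ n ≥ N, 2 - δ < a x n := by
  obtain ⟨k, hk⟩ := exists_pow_lt_of_lt_one hδ (show (3 : ℝ)⁻¹ < 1 by norm_num)
  refine ⟨2 * 3 ^ (k + 1) + 1, fun x n hn => ?_⟩
  have key : ∀ j : ℕ, j < 2 * 3 ^ (k + 1) → (j : Om) + x ≠ 0 →
      (j : Om) + x ∈ Ideal.span {((3 : ℕ) : Om) ^ (k + 1)} → 2 - δ < a x n := by
    intro j hj h0 hm
    refine lt_of_lt_of_le ?_ (a_mono x (show j + 1 ≤ n by omega))
    have h1 : ph (th^[j] x) = 0 := by
      obtain ⟨u, hu⟩ := Ideal.mem_span_singleton'.1 hm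
      have h3 : ((3 : ℕ) : ZMod 3) = 0 := by decide
      rw [th_iter, ← hu, ph, map_mul, map_pow, map_natCast, h3]
      simp
    rw [a, if_pos h1]
    refine lt_of_lt_of_le ?_ (le_max_left _ _)
    rw [th_iter, g, if_neg h0]
    have h2 := (PadicInt.norm_le_pow_iff_mem_span_pow _ _).2 hm
    rw [zpow_neg, zpow_natCast, ← inv_pow, pow_succ] at h2
    have h3 : (0 : ℝ) < (3 : ℝ)⁻¹ ^ k := by positivity
    push_cast at h2
    linarith
  have h1 := PadicInt.appr_lt (-x) (k + 1)
  have h2 : ((-x).appr (k + 1) : Om) + x ∈ Ideal.span {((3 : ℕ) : Om) ^ (k + 1)} := by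
    have := neg_mem (PadicInt.appr_spec (k + 1) (-x))
    rwa [neg_sub, sub_neg_eq_add] at this
  by_cases h0 : ((-x).appr (k + 1) : Om) + x = 0
  · have e : (((-x).appr (k + 1) + 3 ^ (k + 1) : ℕ) : Om) + x = ((3 : ℕ) : Om) ^ (k + 1) := by
      push_cast
      linear_combination h0
    refine key ((-x).appr (k + 1) + 3 ^ (k + 1)) (by omega) ?_ ?_
    · rw [e]
      exact pow_ne_zero _ (by norm_num)
    · rw [e]
      exact Ideal.mem_span_singleton_self _
  · exact key _ (by omega) h0 h2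

def AA (m : ℕ) : Set (Fin (1 + 1) → ℝ) := {w | 2 - 1 / ((m : ℝ) + 1) < w 1 ∧ w 1 < 2}

theorem result :
    ¬ (∀ (Ω : Type) [MeasurableSpace Ω] (μ : Measure Ω) [IsProbabilityMeasure μ]
    (θ : Ω → Ω) (k : ℕ) (t σ : Ω → ℝ) (W : ℕ → Ω → (Fin (k+1) → ℝ)),
    Ergodic θ μ → Integrable t μ → Integrable σ μ →
    (∀ᵐ ω ∂μ, 0 ≤ t ω) → (∀ᵐ ω ∂μ, 0 ≤ σ ω) →
    ∫ ω, σ ω ∂μ < ((k : ℝ) + 1) * ∫ ω, t ω ∂μ →
    (∀ ω, W 0 ω = 0) →
    (∀ (n : ℕ) (ω : Ω), W (n+1) ω =
      (fun i : Fin (k+1) =>
        max ((W n ω + (Pi.single 0 (σ (θ^[n] ω)) : Fin (k+1) → ℝ)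
                - (fun _ : Fin (k+1) => t (θ^[n] ω)))
              (Tuple.sort (W n ω + (Pi.single 0 (σ (θ^[n] ω)) : Fin (k+1) → ℝ)
                - (fun _ : Fin (k+1) => t (θ^[n] ω))) i)) 0)) →
    ∃ π : Measure (Fin (k+1) → ℝ), IsProbabilityMeasure π ∧
      ∀ ε > (0 : ℝ), ∃ N : ℕ, ∀ n ≥ N, ∀ A : Set (Fin (k+1) → ℝ), MeasurableSet A →
        |(μ {ω | W n ω ∈ A}).toReal - (π A).toReal| < ε) := by
  intro h
  have hst : ∫ ω, sg ω ∂mu < (((1 : ℕ) : ℝ) + 1) * ∫ ω, tt ω ∂mu := by
    have h1 := integral_mono int_sg ((integrable_const 2).add (int_tt.const_mul (3 / 5)))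
      fun x => (sg_le x).2
    rw [integral_add' (integrable_const 2) (int_tt.const_mul _), integral_const_mul] at h1
    have h2 : ∫ ω, tt ω ∂mu = mu.real {x | ph x = 2} * 5 := by
      rw [tt_eq, integral_indicator_const _ (mset 2), smul_eq_mul]
    simp only [integral_const, probReal_univ, smul_eq_mul] at h1
    have := third 2
    push_cast
    linarith
  obtain ⟨π, hπ, hc⟩ := h Om mu th 1 tt sg W erg int_tt int_sg
    (ae_of_all _ fun x => by unfold tt; split_ifs <;> norm_num)
    (ae_of_all _ fun x => (sg_le x).1) hst (fun _ => rfl) (fun _ _ => rfl)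
  have mA : ∀ m, MeasurableSet (AA m) := fun m =>
    (measurableSet_lt measurable_const (measurable_pi_apply 1)).inter
      (measurableSet_lt (measurable_pi_apply 1) measurable_const)
  have anti : Antitone AA := by
    intro m m' hm w hw
    refine ⟨lt_of_le_of_lt ?_ hw.1, hw.2⟩
    have : (m : ℝ) ≤ m' := by exact_mod_cast hm
    gcongr
  have hemp : ⋂ m, AA m = ∅ := by
    refine Set.eq_empty_of_forall_notMem fun w hw => ?_
    rw [Set.mem_iInter] at hw
    obtain ⟨m, hm⟩ := exists_nat_one_div_lt (sub_pos.2 (hw 0).2)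
    linarith [(hw m).1]
  have h1 := tendsto_measure_iInter_atTop (μ := π) (fun m => (mA m).nullMeasurableSet) anti
    ⟨0, measure_ne_top _ _⟩
  rw [hemp, measure_empty] at h1
  have h2 := (ENNReal.tendsto_toReal ENNReal.zero_ne_top).comp h1
  obtain ⟨m, hm⟩ := (h2.eventually (gt_mem_nhds (show ENNReal.toReal 0 < 1 / 6 by norm_num))).exists
  obtain ⟨N, hN⟩ := hc (1 / 6) (by norm_num)
  obtain ⟨N', hN'⟩ := close (1 / ((m : ℝ) + 1)) (by positivity)
  have h3 := (abs_lt.1 (hN (max N N') (le_max_left _ _) (AA m) (mA m))).2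
  have h4 : mu.real (th^[max N N'] ⁻¹' {x | ph x = 0}) ≤ mu.real {ω | W (max N N') ω ∈ AA m} := by
    refine measureReal_mono fun x hx => ?_
    have := ((inv x (max N N')).1 hx).2
    exact ⟨this ▸ hN' x _ (le_max_right _ _), this ▸ a_lt x _⟩
  rw [(erg.toMeasurePreserving.iterate _).measureReal_preimage (mset 0).nullMeasurableSet] at h4
  have h5 := third 0
  simp only [Function.comp_apply] at hm
  simp only [Measure.real] at h4 h5
  linarith

end Pool.Agent.S19536
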