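import Pool.Statements.S19550
import Pool.Agent.H32.Renyi

set_option autoImplicit false
open MeasureTheory Pointwise
open Pool Pool.MP_a5e374_pr

namespace Pool.Agent.S19550

/-- The negation of the preceding statement: For every κ ≤ 1/2 and every symmetric κ-concave law of (U,V) in the plane with densities for U, V, U+V: the square-root Rényi entropy power of U+V is at most that of U plus that of V, for all p>1 and for p=1 when entropies are finite. -/
theorem result :
    ¬ (∀ κ : EReal, κ ≤ ((1/2 : ℝ) : EReal) →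
  ∀ μ : Measure (ℝ × ℝ), IsProbabilityMeasure μ →
    μ.map (fun x => -x) = μ →
    (∀ A B : Set (ℝ × ℝ), IsCompact A → IsCompact B → 0 < μ A → 0 < μ B →
      ∀ t : ℝ, 0 < t → t < 1 →
        (if κ = ⊥ then min (μ A).toReal (μ B).toReal
         else if κ = 0 then (μ A).toReal ^ t * (μ B).toReal ^ (1 - t)
         else (t * (μ A).toReal ^ κ.toReal + (1 - t) * (μ B).toReal ^ κ.toReal) ^ (1 / κ.toReal))
        ≤ (μ (t • A + (1 - t) • B)).toReal) →
  ∀ fU fV fW : ℝ → ℝ, Measurable fU → Measurable fV → Measurable fW →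
    (∀ x, 0 ≤ fU x) → (∀ x, 0 ≤ fV x) → (∀ x, 0 ≤ fW x) →
    μ.map Prod.fst = volume.withDensity (fun x => ENNReal.ofReal (fU x)) →
    μ.map Prod.snd = volume.withDensity (fun x => ENNReal.ofReal (fV x)) →
    μ.map (fun x => x.1 + x.2) = volume.withDensity (fun x => ENNReal.ofReal (fW x)) →
    (∀ p : ENNReal, 1 < p →
      eLpNorm fW p volume ^ (-((1 - p⁻¹)⁻¹).toReal) ≤
        eLpNorm fU p volume ^ (-((1 - p⁻¹)⁻¹).toReal)
          + eLpNorm fV p volume ^ (-((1 - p⁻¹)⁻¹).toReal)) ∧
    (Integrable (fun x => Real.negMulLog (fU x)) →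
      Integrable (fun x => Real.negMulLog (fV x)) →
      Integrable (fun x => Real.negMulLog (fW x)) →
      Real.exp (∫ x, Real.negMulLog (fW x)) ≤
        Real.exp (∫ x, Real.negMulLog (fU x)) + Real.exp (∫ x, Real.negMulLog (fV x)))) := by
  intro H
  open Pool.Agent.H32.Renyi in
  have h := (H ⊥ bot_le mu inferInstance mu_neg (by
      intro A B hA hB _ _ t ht ht1
      rw [if_pos rfl, ← ENNReal.toReal_min (measure_ne_top _ _) (measure_ne_top _ _)]
      exact ENNReal.toReal_mono (measure_ne_top _ _) (mu_convex hA hB ht ht1))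
    fU psi fW fU_meas psi_meas fW_meas fU_nonneg (fun x => (psi_pos x).le) fW_nonneg
    mu_fst mu_snd mu_sum).1 2 (by norm_num)
  have e : ∀ f : ℝ → ℝ, (∀ x, 0 ≤ f x) →
      eLpNorm f 2 volume ^ (-((1 - (2 : ENNReal)⁻¹)⁻¹).toReal)
        = (∫⁻ z, ENNReal.ofReal (f z) ^ 2)⁻¹ := by
    intro f hf
    have e1 : ((1 - (2 : ENNReal)⁻¹)⁻¹).toReal = 2 := by
      rw [ENNReal.one_sub_inv_two]; simp
    rw [e1, eLpNorm_eq_lintegral_rpow_enorm_toReal (by norm_num) (by norm_num),
      ← ENNReal.rpow_mul]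
    have e2 : (1 / (2 : ENNReal).toReal * -2 : ℝ) = -1 := by norm_num
    rw [e2, ENNReal.rpow_neg_one]
    congr 1
    apply lintegral_congr
    intro z
    rw [Real.enorm_of_nonneg (hf z)]
    norm_num
  open Pool.Agent.H32.Renyi in
  rw [e fW fW_nonneg, e fU fU_nonneg, e psi (fun x => (psi_pos x).le)] at h
  exact Pool.Agent.H32.Renyi.key h

end Pool.Agent.S19550
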