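import Pool.Statements.S19560

set_option autoImplicit false
open MeasureTheory ProbabilityTheory
open Pool Pool.MP_aa6114_pr

namespace Pool.Agent.S19560

def v : Fin 4 → Fin 2 → ℕ := ![![1, 5], ![0, 6], ![2, 3], ![4, 7]]

lemma pi_eq : Measure.pi (fun _ : Fin 4 => (uniformOn Set.univ : Measure (Fin 2)))
    = uniformOn (Set.univ : Set (Fin 4 → Fin 2)) := by
  rw [← uniformOn_pi]; simp

lemma meas (p : (Fin 4 → Fin 2) → Prop) [DecidablePred p] :
    uniformOn (Set.univ : Set (Fin 4 → Fin 2)) {ω | p ω}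
      = ((Finset.univ.filter p).card : ENNReal) / 16 := by
  have h := uniformOn_apply_finset (s := (Finset.univ : Finset (Fin 4 → Fin 2)))
    (t := Finset.univ.filter p)
  simp only [Finset.coe_univ, Finset.coe_filter, Finset.mem_univ, true_and, Finset.univ_inter] at h
  rw [h]; simp

theorem result :
    ¬ (∀ (Ω : Type) [MeasurableSpace Ω] (μ : Measure Ω) [IsProbabilityMeasure μ]
      (n : ℕ) (X : Fin n → Ω → ℝ),
      (∀ i, Measurable (X i)) →
      iIndepFun X μ →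
      ∀ (a b c : Fin n), a ≠ b → a ≠ c → b ≠ c →
      ∀ (S W : Finset (Fin n × Fin n)),
        μ ({ω | (∀ p ∈ S, X p.1 ω < X p.2 ω) ∧ (∀ p ∈ W, X p.1 ω ≤ X p.2 ω)}
            ∩ {ω | X a ω < X c ω}) ≠ 0 →
        ProbabilityTheory.cond μ
            {ω | (∀ p ∈ S, X p.1 ω < X p.2 ω) ∧ (∀ p ∈ W, X p.1 ω ≤ X p.2 ω)}
            {ω | X a ω < X b ω}
          ≤ ProbabilityTheory.cond μ
            ({ω | (∀ p ∈ S, X p.1 ω < X p.2 ω) ∧ (∀ p ∈ W, X p.1 ω ≤ X p.2 ω)}
              ∩ {ω | X a ω < X c ω})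
            {ω | X a ω < X b ω}) := by
  intro h
  have hind : iIndepFun (fun (i : Fin 4) (ω : Fin 4 → Fin 2) => ((v i (ω i) : ℕ) : ℝ))
      (Measure.pi (fun _ : Fin 4 => (uniformOn Set.univ : Measure (Fin 2)))) :=
    iIndepFun_pi (X := fun (i : Fin 4) (j : Fin 2) => ((v i j : ℕ) : ℝ))
      (fun i => (measurable_of_finite _).aemeasurable)
  have key := h (Fin 4 → Fin 2)
    (Measure.pi (fun _ : Fin 4 => (uniformOn Set.univ : Measure (Fin 2)))) 4
    (fun (i : Fin 4) (ω : Fin 4 → Fin 2) => ((v i (ω i) : ℕ) : ℝ))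
    (fun i => measurable_of_finite _) hind 0 1 2 (by decide) (by decide) (by decide)
    {(0, 3), (1, 3)} ∅
  rw [pi_eq] at key
  simp only [Finset.mem_insert, Finset.mem_singleton, forall_eq_or_imp, forall_eq,
    Finset.notMem_empty, false_imp_iff, implies_true, and_true, Nat.cast_lt] at key
  rw [cond_apply (by exact MeasurableSet.of_discrete), cond_apply (by exact MeasurableSet.of_discrete)] at key
  simp only [← Set.ofPred_and] at key
  rw [meas, meas, meas, meas] at key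
  have e1 : (Finset.univ.filter (fun ω : Fin 4 → Fin 2 =>
      (v 0 (ω 0) < v 3 (ω 3) ∧ v 1 (ω 1) < v 3 (ω 3)) ∧ v 0 (ω 0) < v 2 (ω 2))).card = 6 := by
    decide
  have e2 : (Finset.univ.filter (fun ω : Fin 4 → Fin 2 =>
      (v 0 (ω 0) < v 3 (ω 3) ∧ v 1 (ω 1) < v 3 (ω 3)))).card = 10 := by
    decide
  have e3 : (Finset.univ.filter (fun ω : Fin 4 → Fin 2 =>
      (v 0 (ω 0) < v 3 (ω 3) ∧ v 1 (ω 1) < v 3 (ω 3)) ∧ v 0 (ω 0) < v 1 (ω 1))).card = 4 := by
    decide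
  have e4 : (Finset.univ.filter (fun ω : Fin 4 → Fin 2 =>
      ((v 0 (ω 0) < v 3 (ω 3) ∧ v 1 (ω 1) < v 3 (ω 3)) ∧ v 0 (ω 0) < v 2 (ω 2))
        ∧ v 0 (ω 0) < v 1 (ω 1))).card = 2 := by
    decide
  rw [e1, e2, e3, e4] at key
  have k2 := key (by simp)
  have k3 := ENNReal.toReal_mono (by
    apply ENNReal.mul_ne_top
    · simp
    · exact ENNReal.div_ne_top (by simp) (by simp)) k2
  simp [ENNReal.toReal_mul, ENNReal.toReal_inv, ENNReal.toReal_div] at k3
  norm_num at k3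

end Pool.Agent.S19560
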