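import Pool.Statements.S19562
import Pool.Agent.H26.AR5

set_option autoImplicit false
open MeasureTheory
open Pool Pool.MP_aa6ebe_pr

namespace Pool.Agent.S19562

open Filter Finset Pool.Agent.H26.AR

def big : ℕ → ℕ
  | 0 => 2
  | l + 1 => N2 (l + 1) * big l + 1

lemma big_mono : StrictMono big := strictMono_nat_of_lt_succ fun l => by
  have : 1 ≤ N2 (l + 1) := Nat.one_le_two_pow
  simp only [big]
  nlinarith

def Mx (l : ℕ) : ℕ := if l.unpair.2 = 0 then 1 else big l

lemma big_ge (l : ℕ) : 2 ≤ big l := big_mono.monotone l.zero_le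

lemma Mx_le (l : ℕ) : 1 ≤ Mx l ∧ Mx l ≤ big l := by
  have := big_ge l
  unfold Mx
  split_ifs <;> omega

noncomputable def st (x : ℕ × Bool) : ℕ →₀ ℤ := Finsupp.single x.1.unpair.1 (sg x.2 * Mx x.1)

noncomputable def ph (x : ℕ × Bool) : G0 := Multiplicative.ofAdd (st x)

lemma ph_inj : Function.Injective ph := by
  rintro ⟨l, b⟩ ⟨k, c⟩ h
  have h1 := (Mx_le l).1
  have h2 := (Mx_le k).1
  have h0 : st (l, b) = st (k, c) := Multiplicative.ofAdd.injective h
  have h3 : sg b * Mx l ≠ 0 := by cases b <;> simp [sg] <;> omega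
  rcases (Finsupp.single_eq_single_iff _ _ _ _).mp h0 with ⟨e1, e2⟩ | ⟨e1, -⟩
  · simp only at e1 e2
    have e3 : b = c ∧ Mx l = Mx k := by
      cases b <;> cases c <;> simp [sg] at e2 ⊢ <;> omega
    refine Prod.ext ?_ e3.1
    have := big_ge l
    have := big_ge k
    have e4 := e3.2
    unfold Mx at e4
    split_ifs at e4 with p q q
    · rw [← Nat.pair_unpair l, ← Nat.pair_unpair k, e1, p, q]
    · omega
    · omega
    · exact big_mono.injective e4
  · exact absurd e1 h3

lemma goodAR (ω : ℕ → ℕ × Bool) (h1 : ∀ᶠ l in atTop, ∀ i < N2 l, (ω i).1 ≤ l)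
    (h2 : ∀ᶠ l in atTop, ∃ i < N2 l, (ω i).1 = l)
    (h3 : ∀ᶠ s in atTop, ∀ k < 2 * s, ∀ b, ω ∉ E b (Lam s k)) (n : ℕ) (S : Subsemigroup G0)
    (hS : ∀ k, ((List.range (n + k)).map fun i => ph (ω i)).prod ∈ S) (k : ℕ) :
    (((List.range (n + k)).map fun i => ph (ω i)).prod)⁻¹ ∈ S := by
  classical
  have hp : ∀ m, ((List.range m).map fun i => ph (ω i)).prod =
      Multiplicative.ofAdd (∑ i ∈ range m, st (ω i)) := fun m => by
    rw [list_prod, ofAdd_sum]; rfl
  let A : AddSubmonoid (ℕ →₀ ℤ) :=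
    { carrier := {v | v = 0 ∨ Multiplicative.ofAdd v ∈ S}
      zero_mem' := Or.inl rfl
      add_mem' := by
        rintro a b (rfl | ha) (rfl | hb)
        · simp
        · simpa using Or.inr hb
        · simpa using Or.inr ha
        · exact Or.inr (S.mul_mem ha hb) }
  have hA : ∀ m, n ≤ m → ∑ i ∈ range m, st (ω i) ∈ A := fun m hm => by
    obtain ⟨j, rfl⟩ := Nat.exists_eq_add_of_le hm
    exact Or.inr (hp _ ▸ hS j)
  obtain ⟨s0, hs0⟩ := eventually_atTop.mp (h1.and (h2.and h3))
  set s := s0 + (range (n + k)).sup (fun i => (ω i).1) + 1 with hs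
  have hlt : ∀ i < n + k, (ω i).1 < s := fun i hi => by
    have := le_sup (f := fun i => (ω i).1) (mem_range.mpr hi)
    omega
  have hz : ∀ m L, (∀ i < m, (ω i).1 < L ^ 2) → ∀ j, L ≤ j → (∑ i ∈ range m, st (ω i)) j = 0 := by
    intro m L h j hj
    rw [Finsupp.coe_finsetSum, Finset.sum_apply]
    refine sum_eq_zero fun i hi => Finsupp.single_eq_of_ne ?_
    have e1 := Nat.max_sq_add_min_le_pair (ω i).1.unpair.1 (ω i).1.unpair.2
    rw [Nat.pair_unpair] at e1
    have e2 := h i (mem_range.mp hi)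
    have e3 : max (ω i).1.unpair.1 (ω i).1.unpair.2 < L := lt_of_pow_lt_pow_left₀ 2 L.zero_le (by omega)
    omega
  have key := descent A (2 * s) (fun κ hκ b => ?_) _ (hA (n + k) (by omega))
    (hz _ _ fun i hi => (hlt i hi).trans_le (by nlinarith))
  · rw [hp]
    rcases key with h | h
    · have := hS k
      rw [hp, neg_eq_zero.mp h] at this
      simpa [neg_eq_zero.mp h] using this
    · exact h
  have e0 := (hs0 s (by omega)).2.2 κ hκ (!b)
  simp only [E, Set.mem_setOf_eq, not_forall, Lam, mem_image, mem_Ico] at e0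
  obtain ⟨l, ⟨j, ⟨j1, j2⟩, hl⟩, e0⟩ := e0
  have l1 : s ≤ l := j1.trans (hl ▸ Nat.right_le_pair κ j)
  have l2 : l < (2 * s) ^ 2 := hl ▸ (Nat.pair_lt_max_add_one_sq κ j).trans_le
    (Nat.pow_le_pow_left (by omega) 2)
  obtain ⟨g1, g2, -⟩ := hs0 l (by omega)
  have hex : ∃ i, (ω i).1 = l := let ⟨i, _, h⟩ := g2; ⟨i, h⟩
  set a := Nat.find hex
  have ha : (ω a).1 = l := Nat.find_spec hex
  have haN : a < N2 l := let ⟨i, hi, h⟩ := g2; (Nat.find_min' hex h).trans_lt hi
  have hb : ω a = (l, b) := by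
    refine Prod.ext ha ?_
    by_contra hc
    exact e0 ⟨a, Prod.ext ha (Bool.eq_not_iff.mpr hc), fun j hj => Nat.find_min hex hj⟩
  have hi : ∀ i < a, (ω i).1 < l := fun i hi =>
    lt_of_le_of_ne (g1 i (by omega)) (Nat.find_min hex hi)
  have han : n ≤ a := by
    by_contra hc
    have := hlt a (by omega)
    omega
  refine ⟨∑ i ∈ range a, st (ω i), big l, hz _ _ fun i h => (hi i h).trans l2, ?_, ?_⟩
  · obtain ⟨q, rfl⟩ : ∃ q, l = q + 1 := ⟨l - 1, by omega⟩
    refine (nrm_sum _ _ _).trans_lt ((sum_le_card_nsmul _ _ (big q : ℤ) fun i h => ?_).trans_lt ?_)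
    · refine (nrm_single _ _ _).trans ?_
      have e1 := (Mx_le (ω i).1).2.trans
        (big_mono.monotone (Nat.le_of_lt_succ (hi i (mem_range.mp h))))
      cases (ω i).2 <;> simpa [sg] using e1
    · rw [card_range, nsmul_eq_mul, big]
      exact_mod_cast Nat.lt_succ_of_le (Nat.mul_le_mul_right _ haN.le)
  · have := hA (a + 1) (by omega)
    rw [sum_range_succ, hb, add_comm] at this
    convert this using 2
    simp only [st, Mx, ← hl, Nat.unpair_pair]
    rw [if_neg (by omega)]

/-- The negation of the preceding statement: For every countable group and any two symmetric probability measures whose supports generate it: if a.s. the products X_n, X_{n+1}, ... of the walk generate the whole group as a semigroup for every n under the first, the same holds under the second. -/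
theorem result :
    ¬ (∀ (G : Type) [Group G] [Countable G] [MeasurableSpace G] [DiscreteMeasurableSpace G]
      (μ ν : PMF G),
      (∀ g : G, μ g⁻¹ = μ g) → Subgroup.closure μ.support = ⊤ →
      (∀ g : G, ν g⁻¹ = ν g) → Subgroup.closure ν.support = ⊤ →
      (∀ n : ℕ, ∀ᵐ ω ∂(Measure.infinitePi (fun _ : ℕ => μ.toMeasure)),
          Subsemigroup.closure
            (Set.range (fun k : ℕ => ((List.range (n + k)).map ω).prod)) = ⊤) →
      (∀ n : ℕ, ∀ᵐ ω ∂(Measure.infinitePi (fun _ : ℕ => ν.toMeasure)),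
          Subsemigroup.closure
            (Set.range (fun k : ℕ => ((List.range (n + k)).map ω).prod)) = ⊤)) := by
  intro H
  let _ : MeasurableSpace G0 := ⊤
  have _ : DiscreteMeasurableSpace G0 := ⟨fun _ => trivial⟩
  have _ : Countable G0 := inferInstanceAs (Countable (ℕ →₀ ℤ))
  let φ : ℕ × Bool → G0 := fun x => Multiplicative.ofAdd (Finsupp.single x.1 (sg x.2))
  have h1 := (tail 2 two_pos).symm φ fun k b => by simp [φ, sg_not]
  have h2 : Subgroup.closure ((tail 2 two_pos).nu.map φ).support = ⊤ :=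
    gen_G0 _ fun k => Subgroup.subset_closure (by rw [Tail.supp]; exact ⟨(k, true), rfl⟩)
  have h3 := t2.symm ph fun k b => by simp [ph, st, sg_not]
  have h4 : Subgroup.closure (t2.nu.map ph).support = ⊤ :=
    gen_G0 _ fun k => Subgroup.subset_closure (by
      rw [Tail.supp]; exact ⟨(Nat.pair k 0, true), by simp [ph, st, Mx, sg]⟩)
  refine notAR0 φ (MonoidHom.id _) (fun _ => rfl) (H G0 _ _ h3 h4 h1 h2 (fun n => ?_) 1)
  refine t2.ae_push ph ph_inj _ ?_
  filter_upwards [ae1, ae2, ae3 t2, t2.ae_pull ph _ (atoms _)] with ω a1 a2 a3 a4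
  refine top_of_inv _ n _ h4 (fun g hg => a4 g hg n) _
    (fun k => Subsemigroup.subset_closure ⟨k, rfl⟩) (inv_closure _ ?_)
  rintro _ ⟨k, rfl⟩
  exact goodAR ω a1 a2 a3 n _ (fun k => Subsemigroup.subset_closure (Set.mem_range_self k)) k

end Pool.Agent.S19562
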