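import Pool.Statements.S19632
import Pool.Agent.H32.Ucem

set_option autoImplicit false
open MeasureTheory Filter Topology
open Pool Pool.MP_c7dc48_pr

namespace Pool.Agent.S19632

/-- The negation of the preceding statement: Take a stationary α-mixing process on X with marginal P0 and an infinite class of measurable functions into [0,B] whose empirical means converge uniformly in probability under i.i.d. P0 samples. Then empirical means along the process also converge uniformly in probability. -/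
theorem result :
    ¬ (∀ (X : Type) [mX : MeasurableSpace X] (P : Measure (ℕ → X)) [IsProbabilityMeasure P]
    (P0 : Measure X) [IsProbabilityMeasure P0] (𝓕 : Set (X → ℝ)) (B : ℝ),
    P.map (fun (ω : ℕ → X) (n : ℕ) => ω (n + 1)) = P →
    P0 = P.map (fun (ω : ℕ → X) => ω 0) →
    (∀ ε : ℝ, 0 < ε → ∃ K : ℕ, ∀ k : ℕ, K ≤ k → ∀ l : ℕ, ∀ A S : Set (ℕ → X),
       @MeasurableSet (ℕ → X)
         (⨆ (i : ℕ) (_ : i ≤ l), MeasurableSpace.comap (fun ω : ℕ → X => ω i) mX) A →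
       @MeasurableSet (ℕ → X)
         (⨆ (i : ℕ) (_ : l + k ≤ i), MeasurableSpace.comap (fun ω : ℕ → X => ω i) mX) S →
       |P.real (A ∩ S) - P.real A * P.real S| ≤ ε) →
    𝓕.Infinite →
    (∀ f ∈ 𝓕, Measurable f ∧ ∀ x, 0 ≤ f x ∧ f x ≤ B) →
    (∀ ε : ℝ, 0 < ε →
      Tendsto (fun m : ℕ => Measure.pi (fun _ : Fin m => P0)
        {x : Fin m → X | ∃ f ∈ 𝓕,
          ε < |(1 / (m : ℝ)) * ∑ i : Fin m, f (x i) - ∫ y, f y ∂P0|}) atTop (𝓝 0)) →
    (∀ ε : ℝ, 0 < ε →
      Tendsto (fun m : ℕ => P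
        {ω : ℕ → X | ∃ f ∈ 𝓕,
          ε < |(1 / (m : ℝ)) * ∑ i ∈ Finset.range m, f (ω i) - ∫ y, f y ∂P0|}) atTop (𝓝 0))) := by
  intro h
  have h1 := h H32.Ucem.X H32.Ucem.P (H32.Ucem.π (List Bool)) H32.Ucem.𝓕 1 ?_ H32.Ucem.P_marg ?_
    H32.Ucem.F_inf ?_ H32.Ucem.iid (1 / 2) (by norm_num)
  · have h2 := ge_of_tendsto h1 ((eventually_ge_atTop 1).mono H32.Ucem.proc)
    simp at h2
  · have := H32.Ucem.P_shift 1
    simpa only [add_comm 1] using this
  · intro ε hε
    obtain ⟨K, hK⟩ := eventually_atTop.1 ((tendsto_pow_atTop_nhds_zero_of_lt_one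
      (r := (1 / 2 : ℝ)) (by norm_num) (by norm_num)).eventually (ge_mem_nhds (pow_pos hε 2)))
    exact ⟨K, fun k hk l A S hA hS => H32.Ucem.alpha l k A S hA hS hε (hK k hk)⟩
  · rintro _ ⟨A, -, rfl⟩
    refine ⟨measurable_one.indicator A.measurableSet, fun x => ?_⟩
    by_cases hx : x ∈ A <;> simp [hx]

end Pool.Agent.S19632
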