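import Pool.Statements.S19658
import Pool.Agent.H32.Wedge

set_option autoImplicit false
open MeasureTheory
open Pool Pool.MP_d2b88b_pr

namespace Pool.Agent.S19658

/-- The negation of the preceding statement: For every connected bounded-degree graph quasi-isometric to Z^d and every p in [0,1], in Bernoulli bond percolation with parameter p, almost surely any two infinite open clusters are equal. -/
theorem result :
    ¬ (∀ (d : ℕ) (V : Type) (G : SimpleGraph V), G.Connected →
    (∃ D : ℕ, ∀ v : V, (G.neighborSet v).encard ≤ (D : ℕ∞)) →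
    (∃ (f : V → (Fin d → ℤ)) (C K : ℕ),
        (∀ x y : V,
          (∑ i, |f x i - f y i|) ≤ (C : ℤ) * (G.dist x y : ℤ) + (K : ℤ) ∧
          (G.dist x y : ℤ) ≤ (C : ℤ) * (∑ i, |f x i - f y i|) + (K : ℤ)) ∧
        ∀ z : Fin d → ℤ, ∃ x : V, (∑ i, |z i - f x i|) ≤ (K : ℤ)) →
    ∀ (p : NNReal) (hp : p ≤ 1),
      ∀ᵐ ω ∂(Measure.infinitePi (fun _ : G.edgeSet => (PMF.bernoulli p hp).toMeasure)),
        ∀ c₁ c₂ : (SimpleGraph.fromEdgeSet
            {e : Sym2 V | ∃ h : e ∈ G.edgeSet, ω ⟨e, h⟩ = true}).ConnectedComponent,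
          c₁.supp.Infinite → c₂.supp.Infinite → c₁ = c₂) := by
  intro h
  obtain ⟨m, hm⟩ := H32.Wedge.main
  refine hm (h 2 _ (H32.Wedge.G m) H32.Wedge.geom.1 H32.Wedge.deg
    ⟨fun x => ![x.1.1, x.1.2], 2, 4, fun x y => ?_, fun z => ⟨((z 0, z 1), none), by simp⟩⟩
    _ H32.Wedge.hp)
  have := H32.Wedge.geom.2 x y
  simp only [Fin.sum_univ_two, Matrix.cons_val_zero, Matrix.cons_val_one]
  push_cast at this ⊢
  constructor <;> linarith [this.1, this.2]

end Pool.Agent.S19658
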